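import Pool.Agent.Work.MP_7cb3ca_co.P3.Defs

namespace Pool.Agent.Work.MP_7cb3ca_co.P3.D
open Tr
set_option maxRecDepth 100000

noncomputable def t435 : Tr :=
  (node (nat_lit 4) (nat_lit 0) (nat_lit 4) (node (nat_lit 0) (nat_lit 0) (nat_lit 5) (node
  (nat_lit 4) (nat_lit 0) (nat_lit 6) (node (nat_lit 6) (nat_lit 52109) (nat_lit 7) (node (nat_lit
  5) (nat_lit 54962) (nat_lit 8) (node (nat_lit 4) (nat_lit 57652) (nat_lit 9) (node (nat_lit 5)
  (nat_lit 58338) (nat_lit 10) (node (nat_lit 6) (nat_lit 59847) (nat_lit 11) (node (nat_lit 4)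
  (nat_lit 60994) (nat_lit 12) (node (nat_lit 8) (nat_lit 37180) (nat_lit 13) nil nil) nil) nil)
  (node (nat_lit 6) (nat_lit 58411) (nat_lit 10) nil (node (nat_lit 0) (nat_lit 61088) (nat_lit
  10) nil (node (nat_lit 8) (nat_lit 61088) (nat_lit 10) nil nil)))) (node (nat_lit 6) (nat_lit
  56703) (nat_lit 9) (node (nat_lit 4) (nat_lit 56773) (nat_lit 10) (node (nat_lit 5) (nat_lit
  58192) (nat_lit 11) nil nil) (node (nat_lit 8) (nat_lit 62106) (nat_lit 10) nil nil)) (node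
  (nat_lit 8) (nat_lit 63505) (nat_lit 9) nil (node (nat_lit 0) (nat_lit 63505) (nat_lit 9) nil
  nil)))) (node (nat_lit 8) (nat_lit 65446) (nat_lit 8) (node (nat_lit 4) (nat_lit 65446) (nat_lit
  9) (node (nat_lit 8) (nat_lit 66953) (nat_lit 10) (node (nat_lit 6) (nat_lit 66953) (nat_lit 11)
  nil nil) (node (nat_lit 5) (nat_lit 65446) (nat_lit 10) nil (node (nat_lit 0) (nat_lit 66043)
  (nat_lit 10) nil nil))) (node (nat_lit 6) (nat_lit 65446) (nat_lit 9) nil nil)) (node (nat_lit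
  4) (nat_lit 55061) (nat_lit 8) (node (nat_lit 5) (nat_lit 55588) (nat_lit 9) (node (nat_lit 6)
  (nat_lit 55588) (nat_lit 10) nil nil) (node (nat_lit 8) (nat_lit 65866) (nat_lit 9) (node
  (nat_lit 6) (nat_lit 65866) (nat_lit 10) nil nil) (node (nat_lit 0) (nat_lit 60087) (nat_lit 9)
  nil nil))) (node (nat_lit 0) (nat_lit 63533) (nat_lit 8) nil nil)))) (node (nat_lit 5) (nat_lit
  52032) (nat_lit 7) (node (nat_lit 6) (nat_lit 54939) (nat_lit 8) (node (nat_lit 4) (nat_lit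
  55660) (nat_lit 9) (node (nat_lit 6) (nat_lit 55660) (nat_lit 10) nil (node (nat_lit 5) (nat_lit
  56418) (nat_lit 10) nil (node (nat_lit 0) (nat_lit 59096) (nat_lit 10) nil nil))) (node (nat_lit
  5) (nat_lit 56675) (nat_lit 9) (node (nat_lit 4) (nat_lit 56675) (nat_lit 10) nil (node (nat_lit
  8) (nat_lit 60111) (nat_lit 10) nil (node (nat_lit 0) (nat_lit 60111) (nat_lit 10) nil nil)))
  (node (nat_lit 8) (nat_lit 62089) (nat_lit 9) nil (node (nat_lit 0) (nat_lit 64691) (nat_lit 9)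
  nil nil)))) (node (nat_lit 4) (nat_lit 55758) (nat_lit 8) (node (nat_lit 6) (nat_lit 57045)
  (nat_lit 9) (node (nat_lit 5) (nat_lit 57045) (nat_lit 10) nil (node (nat_lit 4) (nat_lit 57045)
  (nat_lit 10) nil (node (nat_lit 8) (nat_lit 62449) (nat_lit 10) nil nil))) (node (nat_lit 8)
  (nat_lit 66113) (nat_lit 9) (node (nat_lit 5) (nat_lit 66113) (nat_lit 10) nil nil) (node
  (nat_lit 0) (nat_lit 64302) (nat_lit 9) nil nil))) (node (nat_lit 8) (nat_lit 64844) (nat_lit 8)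
  (node (nat_lit 5) (nat_lit 64844) (nat_lit 9) nil nil) (node (nat_lit 0) (nat_lit 64537)
  (nat_lit 8) nil nil)))) (node (nat_lit 0) (nat_lit 61901) (nat_lit 7) (node (nat_lit 8) (nat_lit
  63919) (nat_lit 8) (node (nat_lit 4) (nat_lit 63919) (nat_lit 9) nil nil) (node (nat_lit 4)
  (nat_lit 61901) (nat_lit 8) (node (nat_lit 8) (nat_lit 62927) (nat_lit 9) nil nil) (node
  (nat_lit 0) (nat_lit 63438) (nat_lit 8) nil (node (nat_lit 6) (nat_lit 61901) (nat_lit 8) nil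
  (node (nat_lit 5) (nat_lit 61901) (nat_lit 8) nil nil))))) nil))) (node (nat_lit 6) (nat_lit 0)
  (nat_lit 6) (node (nat_lit 8) (nat_lit 61848) (nat_lit 7) (node (nat_lit 4) (nat_lit 62247)
  (nat_lit 8) (node (nat_lit 8) (nat_lit 65894) (nat_lit 9) (node (nat_lit 6) (nat_lit 65894)
  (nat_lit 10) (node (nat_lit 4) (nat_lit 65894) (nat_lit 11) (node (nat_lit 6) (nat_lit 65894)
  (nat_lit 12) nil (node (nat_lit 8) (nat_lit 66585) (nat_lit 12) nil nil)) nil) nil) nil) nil)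
  (node (nat_lit 4) (nat_lit 51600) (nat_lit 7) (node (nat_lit 6) (nat_lit 53442) (nat_lit 8)
  (node (nat_lit 8) (nat_lit 63885) (nat_lit 9) (node (nat_lit 4) (nat_lit 63885) (nat_lit 10)
  (node (nat_lit 8) (nat_lit 64370) (nat_lit 11) nil nil) nil) nil) (node (nat_lit 0) (nat_lit
  54439) (nat_lit 8) nil nil)) (node (nat_lit 5) (nat_lit 48851) (nat_lit 7) (node (nat_lit 4)
  (nat_lit 48851) (nat_lit 8) (node (nat_lit 5) (nat_lit 48851) (nat_lit 9) nil (node (nat_lit 6)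
  (nat_lit 48851) (nat_lit 9) nil nil)) (node (nat_lit 8) (nat_lit 53402) (nat_lit 8) nil (node
  (nat_lit 6) (nat_lit 48851) (nat_lit 8) nil (node (nat_lit 0) (nat_lit 51690) (nat_lit 8) nil
  nil)))) (node (nat_lit 0) (nat_lit 57857) (nat_lit 7) nil nil)))) (node (nat_lit 5) (nat_lit 0)
  (nat_lit 6) (node (nat_lit 4) (nat_lit 52040) (nat_lit 7) (node (nat_lit 5) (nat_lit 53729)
  (nat_lit 8) (node (nat_lit 8) (nat_lit 64863) (nat_lit 9) (node (nat_lit 4) (nat_lit 64863)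
  (nat_lit 10) (node (nat_lit 8) (nat_lit 65347) (nat_lit 11) nil nil) nil) nil) (node (nat_lit 0)
  (nat_lit 54879) (nat_lit 8) nil (node (nat_lit 6) (nat_lit 52040) (nat_lit 8) nil nil))) (node
  (nat_lit 8) (nat_lit 61833) (nat_lit 7) (node (nat_lit 4) (nat_lit 61833) (nat_lit 8) (node
  (nat_lit 8) (nat_lit 62859) (nat_lit 9) nil nil) nil) (node (nat_lit 6) (nat_lit 48579) (nat_lit
  7) (node (nat_lit 4) (nat_lit 48579) (nat_lit 8) nil nil) (node (nat_lit 0) (nat_lit 53127)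
  (nat_lit 7) nil nil)))) (node (nat_lit 0) (nat_lit 55697) (nat_lit 6) (node (nat_lit 4) (nat_lit
  56172) (nat_lit 7) (node (nat_lit 8) (nat_lit 61740) (nat_lit 8) (node (nat_lit 4) (nat_lit
  61740) (nat_lit 9) nil (node (nat_lit 6) (nat_lit 61740) (nat_lit 9) nil (node (nat_lit 0)
  (nat_lit 62080) (nat_lit 9) nil nil))) (node (nat_lit 9) (nat_lit 59195) (nat_lit 8) nil nil))
  (node (nat_lit 8) (nat_lit 60287) (nat_lit 7) (node (nat_lit 4) (nat_lit 60287) (nat_lit 8)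
  (node (nat_lit 8) (nat_lit 61314) (nat_lit 9) nil nil) nil) nil)) nil)))) (node (nat_lit 6)
  (nat_lit 0) (nat_lit 5) (node (nat_lit 0) (nat_lit 0) (nat_lit 6) (node (nat_lit 4) (nat_lit 0)
  (nat_lit 7) (node (nat_lit 6) (nat_lit 52243) (nat_lit 8) (node (nat_lit 4) (nat_lit 55001)
  (nat_lit 9) (node (nat_lit 9) (nat_lit 64802) (nat_lit 10) (node (nat_lit 6) (nat_lit 64801)
  (nat_lit 11) (node (nat_lit 4) (nat_lit 64801) (nat_lit 12) (node (nat_lit 6) (nat_lit 64801)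
  (nat_lit 13) (node (nat_lit 9) (nat_lit 65531) (nat_lit 14) nil nil) nil) (node (nat_lit 9)
  (nat_lit 65726) (nat_lit 12) (node (nat_lit 4) (nat_lit 65726) (nat_lit 13) nil nil) (node
  (nat_lit 5) (nat_lit 64801) (nat_lit 12) nil (node (nat_lit 0) (nat_lit 65233) (nat_lit 12) nil
  nil)))) (node (nat_lit 4) (nat_lit 64822) (nat_lit 11) (node (nat_lit 6) (nat_lit 64822)
  (nat_lit 12) (node (nat_lit 9) (nat_lit 65686) (nat_lit 13) nil (node (nat_lit 5) (nat_lit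
  64822) (nat_lit 13) nil nil)) (node (nat_lit 5) (nat_lit 64822) (nat_lit 12) nil (node (nat_lit
  0) (nat_lit 65254) (nat_lit 12) nil nil))) (node (nat_lit 5) (nat_lit 64802) (nat_lit 11) nil
  (node (nat_lit 0) (nat_lit 65137) (nat_lit 11) nil nil)))) (node (nat_lit 5) (nat_lit 57359)
  (nat_lit 10) (node (nat_lit 6) (nat_lit 59457) (nat_lit 11) (node (nat_lit 4) (nat_lit 61074)
  (nat_lit 12) (node (nat_lit 6) (nat_lit 61377) (nat_lit 13) (node (nat_lit 9) (nat_lit 34580)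
  (nat_lit 14) nil nil) nil) (node (nat_lit 5) (nat_lit 61372) (nat_lit 12) nil nil)) (node
  (nat_lit 4) (nat_lit 59203) (nat_lit 11) (node (nat_lit 6) (nat_lit 59443) (nat_lit 12) nil
  (node (nat_lit 9) (nat_lit 62888) (nat_lit 12) nil (node (nat_lit 0) (nat_lit 62888) (nat_lit
  12) nil nil))) (node (nat_lit 9) (nat_lit 63886) (nat_lit 11) nil (node (nat_lit 0) (nat_lit
  62155) (nat_lit 11) nil nil)))) (node (nat_lit 0) (nat_lit 64707) (nat_lit 10) (node (nat_lit 9)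
  (nat_lit 64933) (nat_lit 11) nil nil) nil))) (node (nat_lit 5) (nat_lit 55009) (nat_lit 9) (node
  (nat_lit 4) (nat_lit 57693) (nat_lit 10) (node (nat_lit 5) (nat_lit 59419) (nat_lit 11) (node
  (nat_lit 6) (nat_lit 61074) (nat_lit 12) (node (nat_lit 5) (nat_lit 60397) (nat_lit 13) nil
  (node (nat_lit 4) (nat_lit 62346) (nat_lit 13) (node (nat_lit 6) (nat_lit 63150) (nat_lit 14)
  (node (nat_lit 9) (nat_lit 40678) (nat_lit 15) nil nil) nil) nil)) nil) (node (nat_lit 6)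
  (nat_lit 58574) (nat_lit 11) (node (nat_lit 4) (nat_lit 59929) (nat_lit 12) nil nil) (node
  (nat_lit 9) (nat_lit 64723) (nat_lit 11) nil (node (nat_lit 0) (nat_lit 61172) (nat_lit 11) nil
  nil)))) (node (nat_lit 6) (nat_lit 56556) (nat_lit 10) (node (nat_lit 4) (nat_lit 57546)
  (nat_lit 11) (node (nat_lit 5) (nat_lit 58902) (nat_lit 12) nil (node (nat_lit 6) (nat_lit
  57786) (nat_lit 12) nil nil)) (node (nat_lit 9) (nat_lit 62210) (nat_lit 11) nil (node (nat_lit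
  0) (nat_lit 60035) (nat_lit 11) nil nil))) (node (nat_lit 9) (nat_lit 63969) (nat_lit 10) nil
  (node (nat_lit 0) (nat_lit 62748) (nat_lit 10) nil nil)))) (node (nat_lit 0) (nat_lit 62942)
  (nat_lit 9) (node (nat_lit 4) (nat_lit 62942) (nat_lit 10) nil (node (nat_lit 6) (nat_lit 62942)
  (nat_lit 10) nil (node (nat_lit 9) (nat_lit 63320) (nat_lit 10) nil nil))) nil))) (node (nat_lit
  9) (nat_lit 60703) (nat_lit 8) (node (nat_lit 6) (nat_lit 60703) (nat_lit 9) (node (nat_lit 4)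
  (nat_lit 60703) (nat_lit 10) (node (nat_lit 9) (nat_lit 61784) (nat_lit 11) nil nil) (node
  (nat_lit 9) (nat_lit 61558) (nat_lit 10) nil nil)) nil) (node (nat_lit 5) (nat_lit 50332)
  (nat_lit 8) nil (node (nat_lit 0) (nat_lit 52730) (nat_lit 8) nil nil)))) (node (nat_lit 6)
  (nat_lit 0) (nat_lit 7) (node (nat_lit 4) (nat_lit 51738) (nat_lit 8) (node (nat_lit 9) (nat_lit
  62867) (nat_lit 9) (node (nat_lit 4) (nat_lit 62893) (nat_lit 10) (node (nat_lit 6) (nat_lit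
  62918) (nat_lit 11) (node (nat_lit 9) (nat_lit 65634) (nat_lit 12) (node (nat_lit 6) (nat_lit
  65634) (nat_lit 13) (node (nat_lit 4) (nat_lit 65634) (nat_lit 14) (node (nat_lit 6) (nat_lit
  65634) (nat_lit 15) (node (nat_lit 9) (nat_lit 66099) (nat_lit 16) nil nil) nil) nil) nil) nil)
  nil) nil) nil) (node (nat_lit 5) (nat_lit 50063) (nat_lit 8) nil (node (nat_lit 0) (nat_lit
  52461) (nat_lit 8) nil nil))) (node (nat_lit 5) (nat_lit 50604) (nat_lit 7) (node (nat_lit 6)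
  (nat_lit 50604) (nat_lit 8) nil nil) (node (nat_lit 0) (nat_lit 53968) (nat_lit 7) nil nil))))
  nil) (node (nat_lit 5) (nat_lit 0) (nat_lit 5) (node (nat_lit 0) (nat_lit 0) (nat_lit 6) (node
  (nat_lit 4) (nat_lit 30281) (nat_lit 7) (node (nat_lit 5) (nat_lit 31677) (nat_lit 8) (node
  (nat_lit 4) (nat_lit 32686) (nat_lit 9) (node (nat_lit 6) (nat_lit 33282) (nat_lit 10) (node
  (nat_lit 5) (nat_lit 33282) (nat_lit 11) nil (node (nat_lit 0) (nat_lit 34779) (nat_lit 11) nil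
  nil)) (node (nat_lit 9) (nat_lit 38339) (nat_lit 10) nil (node (nat_lit 0) (nat_lit 36575)
  (nat_lit 10) nil nil))) (node (nat_lit 6) (nat_lit 32869) (nat_lit 9) (node (nat_lit 4) (nat_lit
  33465) (nat_lit 10) (node (nat_lit 9) (nat_lit 34962) (nat_lit 11) nil nil) (node (nat_lit 5)
  (nat_lit 33465) (nat_lit 10) (node (nat_lit 9) (nat_lit 34962) (nat_lit 11) nil nil) (node
  (nat_lit 9) (nat_lit 37877) (nat_lit 10) nil (node (nat_lit 0) (nat_lit 35471) (nat_lit 10) nil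
  nil)))) (node (nat_lit 0) (nat_lit 37384) (nat_lit 9) nil nil))) nil) (node (nat_lit 5) (nat_lit
  29339) (nat_lit 7) (node (nat_lit 4) (nat_lit 29339) (nat_lit 8) (node (nat_lit 9) (nat_lit
  31702) (nat_lit 9) (node (nat_lit 4) (nat_lit 31702) (nat_lit 10) nil nil) nil) nil) (node
  (nat_lit 6) (nat_lit 29339) (nat_lit 7) nil (node (nat_lit 0) (nat_lit 29964) (nat_lit 7) nil
  nil)))) nil) nil))) (node (nat_lit 5) (nat_lit 0) (nat_lit 4) (node (nat_lit 0) (nat_lit 0)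
  (nat_lit 5) (node (nat_lit 5) (nat_lit 0) (nat_lit 6) (node (nat_lit 6) (nat_lit 58360) (nat_lit
  7) (node (nat_lit 4) (nat_lit 62254) (nat_lit 8) (node (nat_lit 5) (nat_lit 63382) (nat_lit 9)
  (node (nat_lit 4) (nat_lit 64738) (nat_lit 10) nil (node (nat_lit 6) (nat_lit 64738) (nat_lit
  10) (node (nat_lit 5) (nat_lit 66342) (nat_lit 11) (node (nat_lit 8) (nat_lit 54936) (nat_lit
  12) nil nil) nil) (node (nat_lit 0) (nat_lit 66818) (nat_lit 10) nil (node (nat_lit 8) (nat_lit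
  66818) (nat_lit 10) nil nil)))) (node (nat_lit 6) (nat_lit 63893) (nat_lit 9) (node (nat_lit 5)
  (nat_lit 63893) (nat_lit 10) nil (node (nat_lit 8) (nat_lit 67329) (nat_lit 10) nil nil)) (node
  (nat_lit 0) (nat_lit 68685) (nat_lit 9) nil (node (nat_lit 8) (nat_lit 70533) (nat_lit 9) nil
  nil)))) (node (nat_lit 8) (nat_lit 72998) (nat_lit 8) (node (nat_lit 5) (nat_lit 72998) (nat_lit
  9) (node (nat_lit 8) (nat_lit 73662) (nat_lit 10) nil nil) nil) (node (nat_lit 5) (nat_lit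
  59220) (nat_lit 8) (node (nat_lit 4) (nat_lit 59220) (nat_lit 9) nil (node (nat_lit 0) (nat_lit
  62399) (nat_lit 9) nil nil)) (node (nat_lit 0) (nat_lit 70558) (nat_lit 8) nil nil)))) (node
  (nat_lit 4) (nat_lit 58587) (nat_lit 7) (node (nat_lit 6) (nat_lit 61107) (nat_lit 8) (node
  (nat_lit 5) (nat_lit 63007) (nat_lit 9) (node (nat_lit 6) (nat_lit 63007) (nat_lit 10) nil (node
  (nat_lit 8) (nat_lit 66444) (nat_lit 10) nil (node (nat_lit 0) (nat_lit 66444) (nat_lit 10) nil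
  nil))) (node (nat_lit 4) (nat_lit 63138) (nat_lit 9) (node (nat_lit 5) (nat_lit 64139) (nat_lit
  10) (node (nat_lit 6) (nat_lit 64635) (nat_lit 11) (node (nat_lit 5) (nat_lit 65177) (nat_lit
  12) (node (nat_lit 8) (nat_lit 42192) (nat_lit 13) nil nil) nil) (node (nat_lit 4) (nat_lit
  63839) (nat_lit 11) nil nil)) (node (nat_lit 8) (nat_lit 70054) (nat_lit 10) nil (node (nat_lit
  0) (nat_lit 66574) (nat_lit 10) nil nil))) (node (nat_lit 0) (nat_lit 70594) (nat_lit 9) nil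
  (node (nat_lit 8) (nat_lit 70594) (nat_lit 9) nil nil)))) (node (nat_lit 5) (nat_lit 61806)
  (nat_lit 8) (node (nat_lit 6) (nat_lit 61684) (nat_lit 9) (node (nat_lit 5) (nat_lit 63014)
  (nat_lit 10) (node (nat_lit 4) (nat_lit 62714) (nat_lit 11) nil (node (nat_lit 8) (nat_lit
  37005) (nat_lit 11) nil nil)) (node (nat_lit 4) (nat_lit 63040) (nat_lit 10) nil (node (nat_lit
  8) (nat_lit 68600) (nat_lit 10) nil nil))) (node (nat_lit 8) (nat_lit 73401) (nat_lit 9) (node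
  (nat_lit 4) (nat_lit 73401) (nat_lit 10) nil nil) (node (nat_lit 0) (nat_lit 71293) (nat_lit 9)
  nil nil))) (node (nat_lit 8) (nat_lit 72700) (nat_lit 8) nil (node (nat_lit 0) (nat_lit 72700)
  (nat_lit 8) nil nil)))) (node (nat_lit 0) (nat_lit 69862) (nat_lit 7) (node (nat_lit 8) (nat_lit
  71281) (nat_lit 8) nil (node (nat_lit 5) (nat_lit 69862) (nat_lit 8) nil (node (nat_lit 0)
  (nat_lit 70549) (nat_lit 8) nil nil))) nil))) (node (nat_lit 6) (nat_lit 0) (nat_lit 6) (node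
  (nat_lit 8) (nat_lit 70043) (nat_lit 7) (node (nat_lit 5) (nat_lit 70043) (nat_lit 8) (node
  (nat_lit 8) (nat_lit 72645) (nat_lit 9) (node (nat_lit 6) (nat_lit 72645) (nat_lit 10) (node
  (nat_lit 5) (nat_lit 72645) (nat_lit 11) nil nil) nil) nil) nil) (node (nat_lit 5) (nat_lit
  58124) (nat_lit 7) (node (nat_lit 6) (nat_lit 60444) (nat_lit 8) (node (nat_lit 8) (nat_lit
  73100) (nat_lit 9) (node (nat_lit 5) (nat_lit 73100) (nat_lit 10) (node (nat_lit 8) (nat_lit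
  73445) (nat_lit 11) nil nil) nil) nil) nil) (node (nat_lit 4) (nat_lit 54477) (nat_lit 7) (node
  (nat_lit 5) (nat_lit 54477) (nat_lit 8) nil nil) (node (nat_lit 0) (nat_lit 60408) (nat_lit 7)
  nil nil)))) (node (nat_lit 4) (nat_lit 0) (nat_lit 6) (node (nat_lit 5) (nat_lit 56375) (nat_lit
  7) (node (nat_lit 4) (nat_lit 57567) (nat_lit 8) (node (nat_lit 8) (nat_lit 65845) (nat_lit 9)
  (node (nat_lit 5) (nat_lit 65845) (nat_lit 10) nil nil) nil) (node (nat_lit 0) (nat_lit 59213)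
  (nat_lit 8) nil nil)) (node (nat_lit 8) (nat_lit 68821) (nat_lit 7) (node (nat_lit 5) (nat_lit
  68821) (nat_lit 8) (node (nat_lit 8) (nat_lit 69847) (nat_lit 9) nil nil) nil) (node (nat_lit 6)
  (nat_lit 55367) (nat_lit 7) nil (node (nat_lit 0) (nat_lit 57519) (nat_lit 7) nil nil)))) (node
  (nat_lit 0) (nat_lit 63181) (nat_lit 6) (node (nat_lit 5) (nat_lit 63181) (nat_lit 7) (node
  (nat_lit 8) (nat_lit 68040) (nat_lit 8) (node (nat_lit 5) (nat_lit 68040) (nat_lit 9) nil nil)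
  (node (nat_lit 9) (nat_lit 64601) (nat_lit 8) nil nil)) (node (nat_lit 8) (nat_lit 66765)
  (nat_lit 7) (node (nat_lit 5) (nat_lit 66765) (nat_lit 8) nil nil) nil)) nil)))) (node (nat_lit
  4) (nat_lit 0) (nat_lit 5) (node (nat_lit 0) (nat_lit 0) (nat_lit 6) (node (nat_lit 5) (nat_lit
  52715) (nat_lit 7) (node (nat_lit 4) (nat_lit 55348) (nat_lit 8) (node (nat_lit 5) (nat_lit
  57075) (nat_lit 9) (node (nat_lit 6) (nat_lit 58899) (nat_lit 10) (node (nat_lit 4) (nat_lit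
  60253) (nat_lit 11) (node (nat_lit 6) (nat_lit 60424) (nat_lit 12) nil (node (nat_lit 5)
  (nat_lit 61609) (nat_lit 12) nil nil)) (node (nat_lit 5) (nat_lit 59707) (nat_lit 11) nil (node
  (nat_lit 9) (nat_lit 66025) (nat_lit 11) nil (node (nat_lit 0) (nat_lit 62379) (nat_lit 11) nil
  nil)))) (node (nat_lit 9) (nat_lit 68001) (nat_lit 10) (node (nat_lit 5) (nat_lit 68001)
  (nat_lit 11) nil (node (nat_lit 4) (nat_lit 68001) (nat_lit 11) nil nil)) (node (nat_lit 0)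
  (nat_lit 66678) (nat_lit 10) nil nil))) (node (nat_lit 6) (nat_lit 57368) (nat_lit 9) (node
  (nat_lit 5) (nat_lit 58959) (nat_lit 10) (node (nat_lit 6) (nat_lit 60624) (nat_lit 11) (node
  (nat_lit 4) (nat_lit 61980) (nat_lit 12) nil nil) (node (nat_lit 4) (nat_lit 58959) (nat_lit 11)
  nil (node (nat_lit 9) (nat_lit 64768) (nat_lit 11) nil nil))) (node (nat_lit 4) (nat_lit 59020)
  (nat_lit 10) (node (nat_lit 5) (nat_lit 59584) (nat_lit 11) nil (node (nat_lit 9) (nat_lit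
  64829) (nat_lit 11) nil nil)) (node (nat_lit 9) (nat_lit 66972) (nat_lit 10) nil (node (nat_lit
  0) (nat_lit 62744) (nat_lit 10) nil nil)))) (node (nat_lit 0) (nat_lit 66711) (nat_lit 9) nil
  nil))) nil) (node (nat_lit 4) (nat_lit 52750) (nat_lit 7) (node (nat_lit 5) (nat_lit 52750)
  (nat_lit 8) (node (nat_lit 9) (nat_lit 60398) (nat_lit 9) (node (nat_lit 5) (nat_lit 60398)
  (nat_lit 10) (node (nat_lit 4) (nat_lit 60398) (nat_lit 11) nil nil) nil) nil) nil) (node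
  (nat_lit 0) (nat_lit 54130) (nat_lit 7) nil (node (nat_lit 6) (nat_lit 51109) (nat_lit 7) nil
  nil)))) nil) nil)) nil))

noncomputable def t436 : Tr :=
  (node (nat_lit 0) (nat_lit 0) (nat_lit 4) (node (nat_lit 3) (nat_lit 0) (nat_lit 5) (node
  (nat_lit 4) (nat_lit 0) (nat_lit 6) (node (nat_lit 8) (nat_lit 39696) (nat_lit 7) (node (nat_lit
  5) (nat_lit 43292) (nat_lit 8) (node (nat_lit 4) (nat_lit 45981) (nat_lit 9) (node (nat_lit 5)
  (nat_lit 47755) (nat_lit 10) (node (nat_lit 8) (nat_lit 47671) (nat_lit 11) nil nil) nil) (node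
  (nat_lit 8) (nat_lit 45981) (nat_lit 9) (node (nat_lit 4) (nat_lit 47755) (nat_lit 10) nil nil)
  (node (nat_lit 7) (nat_lit 46406) (nat_lit 9) nil (node (nat_lit 0) (nat_lit 46406) (nat_lit 9)
  nil nil)))) (node (nat_lit 7) (nat_lit 49307) (nat_lit 8) (node (nat_lit 4) (nat_lit 49307)
  (nat_lit 9) nil nil) (node (nat_lit 0) (nat_lit 45811) (nat_lit 8) nil nil))) (node (nat_lit 5)
  (nat_lit 40056) (nat_lit 7) (node (nat_lit 8) (nat_lit 41316) (nat_lit 8) (node (nat_lit 4)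
  (nat_lit 41316) (nat_lit 9) nil (node (nat_lit 5) (nat_lit 41168) (nat_lit 9) nil nil)) (node
  (nat_lit 4) (nat_lit 42425) (nat_lit 8) (node (nat_lit 8) (nat_lit 45277) (nat_lit 9) (node
  (nat_lit 4) (nat_lit 46715) (nat_lit 10) nil nil) nil) (node (nat_lit 7) (nat_lit 46170)
  (nat_lit 8) nil nil))) (node (nat_lit 7) (nat_lit 49307) (nat_lit 7) (node (nat_lit 4) (nat_lit
  49307) (nat_lit 8) nil nil) (node (nat_lit 0) (nat_lit 47525) (nat_lit 7) nil nil)))) (node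
  (nat_lit 7) (nat_lit 0) (nat_lit 6) (node (nat_lit 4) (nat_lit 48329) (nat_lit 7) (node (nat_lit
  8) (nat_lit 48329) (nat_lit 8) (node (nat_lit 4) (nat_lit 48344) (nat_lit 9) (node (nat_lit 5)
  (nat_lit 48344) (nat_lit 10) (node (nat_lit 8) (nat_lit 48344) (nat_lit 11) nil nil) (node
  (nat_lit 7) (nat_lit 49307) (nat_lit 10) nil (node (nat_lit 0) (nat_lit 49307) (nat_lit 10) nil
  nil))) (node (nat_lit 5) (nat_lit 48329) (nat_lit 9) (node (nat_lit 4) (nat_lit 48329) (nat_lit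
  10) nil (node (nat_lit 8) (nat_lit 48329) (nat_lit 10) nil nil)) (node (nat_lit 0) (nat_lit
  49248) (nat_lit 9) nil nil))) (node (nat_lit 5) (nat_lit 48329) (nat_lit 8) nil (node (nat_lit
  7) (nat_lit 49307) (nat_lit 8) nil (node (nat_lit 0) (nat_lit 49071) (nat_lit 8) nil nil))))
  (node (nat_lit 5) (nat_lit 48329) (nat_lit 7) (node (nat_lit 8) (nat_lit 48329) (nat_lit 8)
  (node (nat_lit 4) (nat_lit 48329) (nat_lit 9) nil (node (nat_lit 5) (nat_lit 48329) (nat_lit 9)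
  nil nil)) nil) (node (nat_lit 0) (nat_lit 48712) (nat_lit 7) nil nil))) (node (nat_lit 5)
  (nat_lit 0) (nat_lit 6) (node (nat_lit 4) (nat_lit 38920) (nat_lit 7) (node (nat_lit 8) (nat_lit
  41366) (nat_lit 8) (node (nat_lit 5) (nat_lit 42785) (nat_lit 9) (node (nat_lit 8) (nat_lit
  44223) (nat_lit 10) nil nil) (node (nat_lit 4) (nat_lit 42785) (nat_lit 9) nil nil)) (node
  (nat_lit 5) (nat_lit 41035) (nat_lit 8) (node (nat_lit 8) (nat_lit 41035) (nat_lit 9) nil nil)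
  (node (nat_lit 7) (nat_lit 45035) (nat_lit 8) nil nil))) (node (nat_lit 8) (nat_lit 0) (nat_lit
  7) (node (nat_lit 4) (nat_lit 39946) (nat_lit 8) (node (nat_lit 5) (nat_lit 41608) (nat_lit 9)
  (node (nat_lit 4) (nat_lit 44233) (nat_lit 10) (node (nat_lit 8) (nat_lit 45026) (nat_lit 11)
  (node (nat_lit 4) (nat_lit 45957) (nat_lit 12) (node (nat_lit 5) (nat_lit 46551) (nat_lit 13)
  nil nil) nil) nil) nil) (node (nat_lit 8) (nat_lit 39646) (nat_lit 9) nil nil)) (node (nat_lit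
  7) (nat_lit 41880) (nat_lit 8) nil (node (nat_lit 0) (nat_lit 41880) (nat_lit 8) nil nil)))
  (node (nat_lit 7) (nat_lit 49212) (nat_lit 7) (node (nat_lit 5) (nat_lit 49212) (nat_lit 8) nil
  nil) (node (nat_lit 0) (nat_lit 45280) (nat_lit 7) nil nil)))) (node (nat_lit 0) (nat_lit 45933)
  (nat_lit 6) nil nil)))) (node (nat_lit 5) (nat_lit 0) (nat_lit 5) (node (nat_lit 7) (nat_lit 0)
  (nat_lit 6) (node (nat_lit 4) (nat_lit 47828) (nat_lit 7) (node (nat_lit 5) (nat_lit 47828)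
  (nat_lit 8) (node (nat_lit 4) (nat_lit 47843) (nat_lit 9) (node (nat_lit 3) (nat_lit 48174)
  (nat_lit 10) (node (nat_lit 5) (nat_lit 48861) (nat_lit 11) (node (nat_lit 13) (nat_lit 49243)
  (nat_lit 12) nil nil) (node (nat_lit 4) (nat_lit 48174) (nat_lit 11) nil nil)) (node (nat_lit 7)
  (nat_lit 49307) (nat_lit 10) nil (node (nat_lit 0) (nat_lit 48896) (nat_lit 10) nil nil))) (node
  (nat_lit 3) (nat_lit 47828) (nat_lit 9) (node (nat_lit 4) (nat_lit 47828) (nat_lit 10) (node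
  (nat_lit 12) (nat_lit 47828) (nat_lit 11) nil nil) (node (nat_lit 5) (nat_lit 47828) (nat_lit
  10) nil nil)) (node (nat_lit 0) (nat_lit 48747) (nat_lit 9) nil nil))) (node (nat_lit 3)
  (nat_lit 47828) (nat_lit 8) (node (nat_lit 5) (nat_lit 47828) (nat_lit 9) nil nil) (node
  (nat_lit 7) (nat_lit 49307) (nat_lit 8) nil (node (nat_lit 0) (nat_lit 48570) (nat_lit 8) nil
  nil)))) (node (nat_lit 3) (nat_lit 47828) (nat_lit 7) (node (nat_lit 5) (nat_lit 47828) (nat_lit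
  8) (node (nat_lit 10) (nat_lit 47828) (nat_lit 9) nil (node (nat_lit 4) (nat_lit 47828) (nat_lit
  9) nil nil)) nil) (node (nat_lit 0) (nat_lit 48211) (nat_lit 7) nil nil))) (node (nat_lit 3)
  (nat_lit 0) (nat_lit 6) (node (nat_lit 4) (nat_lit 39756) (nat_lit 7) (node (nat_lit 5) (nat_lit
  41870) (nat_lit 8) (node (nat_lit 9) (nat_lit 43289) (nat_lit 9) (node (nat_lit 5) (nat_lit
  44727) (nat_lit 10) nil nil) (node (nat_lit 4) (nat_lit 43289) (nat_lit 9) nil nil)) (node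
  (nat_lit 9) (nat_lit 42189) (nat_lit 8) (node (nat_lit 5) (nat_lit 44330) (nat_lit 9) (node
  (nat_lit 4) (nat_lit 45340) (nat_lit 10) (node (nat_lit 5) (nat_lit 44456) (nat_lit 11) nil nil)
  nil) nil) (node (nat_lit 7) (nat_lit 42693) (nat_lit 8) nil nil))) (node (nat_lit 5) (nat_lit 0)
  (nat_lit 7) (node (nat_lit 4) (nat_lit 42187) (nat_lit 8) (node (nat_lit 9) (nat_lit 45039)
  (nat_lit 9) (node (nat_lit 4) (nat_lit 47210) (nat_lit 10) nil nil) (node (nat_lit 5) (nat_lit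
  44648) (nat_lit 9) (node (nat_lit 9) (nat_lit 46086) (nat_lit 10) nil nil) nil)) (node (nat_lit
  7) (nat_lit 42684) (nat_lit 8) nil (node (nat_lit 0) (nat_lit 42684) (nat_lit 8) nil nil)))
  (node (nat_lit 7) (nat_lit 49307) (nat_lit 7) (node (nat_lit 9) (nat_lit 49307) (nat_lit 8) nil
  nil) (node (nat_lit 0) (nat_lit 42528) (nat_lit 7) nil nil)))) (node (nat_lit 4) (nat_lit 0)
  (nat_lit 6) (node (nat_lit 5) (nat_lit 38980) (nat_lit 7) (node (nat_lit 3) (nat_lit 41447)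
  (nat_lit 8) (node (nat_lit 4) (nat_lit 43543) (nat_lit 9) (node (nat_lit 11) (nat_lit 45580)
  (nat_lit 10) (node (nat_lit 5) (nat_lit 45740) (nat_lit 11) (node (nat_lit 11) (nat_lit 46277)
  (nat_lit 12) (node (nat_lit 4) (nat_lit 45899) (nat_lit 13) (node (nat_lit 5) (nat_lit 44180)
  (nat_lit 14) (node (nat_lit 4) (nat_lit 43470) (nat_lit 15) nil nil) nil) nil) nil) nil) (node
  (nat_lit 5) (nat_lit 45013) (nat_lit 10) (node (nat_lit 4) (nat_lit 45561) (nat_lit 11) (node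
  (nat_lit 7) (nat_lit 31695) (nat_lit 12) (node (nat_lit 5) (nat_lit 31695) (nat_lit 13) nil nil)
  nil) nil) nil)) (node (nat_lit 5) (nat_lit 42064) (nat_lit 9) (node (nat_lit 4) (nat_lit 41109)
  (nat_lit 10) nil nil) nil)) (node (nat_lit 7) (nat_lit 49307) (nat_lit 8) (node (nat_lit 4)
  (nat_lit 49307) (nat_lit 9) nil nil) (node (nat_lit 0) (nat_lit 45095) (nat_lit 8) nil nil)))
  (node (nat_lit 3) (nat_lit 38958) (nat_lit 7) (node (nat_lit 5) (nat_lit 41333) (nat_lit 8)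
  (node (nat_lit 4) (nat_lit 43913) (nat_lit 9) (node (nat_lit 5) (nat_lit 46720) (nat_lit 10)
  (node (nat_lit 10) (nat_lit 47591) (nat_lit 11) (node (nat_lit 4) (nat_lit 46255) (nat_lit 12)
  nil nil) nil) nil) (node (nat_lit 10) (nat_lit 42752) (nat_lit 9) nil nil)) (node (nat_lit 4)
  (nat_lit 42000) (nat_lit 8) (node (nat_lit 5) (nat_lit 41852) (nat_lit 9) (node (nat_lit 10)
  (nat_lit 43289) (nat_lit 10) nil nil) nil) nil)) (node (nat_lit 0) (nat_lit 45251) (nat_lit 7)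
  nil nil))) (node (nat_lit 0) (nat_lit 46886) (nat_lit 6) nil nil)))) (node (nat_lit 4) (nat_lit
  0) (nat_lit 5) (node (nat_lit 5) (nat_lit 0) (nat_lit 6) (node (nat_lit 3) (nat_lit 38817)
  (nat_lit 7) (node (nat_lit 5) (nat_lit 41027) (nat_lit 8) (node (nat_lit 4) (nat_lit 41668)
  (nat_lit 9) (node (nat_lit 5) (nat_lit 40714) (nat_lit 10) nil nil) nil) (node (nat_lit 4)
  (nat_lit 38522) (nat_lit 8) (node (nat_lit 10) (nat_lit 38522) (nat_lit 9) nil (node (nat_lit 5)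
  (nat_lit 39416) (nat_lit 9) (node (nat_lit 4) (nat_lit 40744) (nat_lit 10) (node (nat_lit 7)
  (nat_lit 27291) (nat_lit 11) nil nil) nil) nil)) (node (nat_lit 0) (nat_lit 41754) (nat_lit 8)
  nil nil))) (node (nat_lit 4) (nat_lit 38424) (nat_lit 7) (node (nat_lit 3) (nat_lit 40539)
  (nat_lit 8) (node (nat_lit 5) (nat_lit 41957) (nat_lit 9) nil (node (nat_lit 4) (nat_lit 41957)
  (nat_lit 9) nil nil)) (node (nat_lit 0) (nat_lit 41361) (nat_lit 8) nil nil)) (node (nat_lit 7)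
  (nat_lit 47747) (nat_lit 7) nil (node (nat_lit 0) (nat_lit 44945) (nat_lit 7) nil nil)))) (node
  (nat_lit 3) (nat_lit 0) (nat_lit 6) (node (nat_lit 5) (nat_lit 38609) (nat_lit 7) (node (nat_lit
  9) (nat_lit 40724) (nat_lit 8) (node (nat_lit 4) (nat_lit 42143) (nat_lit 9) (node (nat_lit 5)
  (nat_lit 43581) (nat_lit 10) nil nil) nil) (node (nat_lit 4) (nat_lit 40724) (nat_lit 8) (node
  (nat_lit 5) (nat_lit 40724) (nat_lit 9) nil (node (nat_lit 9) (nat_lit 40724) (nat_lit 9) nil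
  nil)) nil)) (node (nat_lit 4) (nat_lit 38735) (nat_lit 7) (node (nat_lit 5) (nat_lit 40091)
  (nat_lit 8) (node (nat_lit 9) (nat_lit 40091) (nat_lit 9) nil (node (nat_lit 4) (nat_lit 41510)
  (nat_lit 9) (node (nat_lit 7) (nat_lit 28743) (nat_lit 10) nil nil) nil)) (node (nat_lit 7)
  (nat_lit 44850) (nat_lit 8) nil nil)) (node (nat_lit 7) (nat_lit 47089) (nat_lit 7) nil (node
  (nat_lit 0) (nat_lit 42381) (nat_lit 7) nil nil)))) (node (nat_lit 0) (nat_lit 47173) (nat_lit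
  6) nil nil))) (node (nat_lit 0) (nat_lit 0) (nat_lit 5) (node (nat_lit 7) (nat_lit 0) (nat_lit
  6) (node (nat_lit 4) (nat_lit 47992) (nat_lit 7) (node (nat_lit 8) (nat_lit 49307) (nat_lit 8)
  (node (nat_lit 7) (nat_lit 49307) (nat_lit 9) nil nil) (node (nat_lit 7) (nat_lit 48734)
  (nat_lit 8) nil nil)) (node (nat_lit 3) (nat_lit 47992) (nat_lit 7) (node (nat_lit 8) (nat_lit
  48734) (nat_lit 8) nil nil) (node (nat_lit 5) (nat_lit 47992) (nat_lit 7) (node (nat_lit 8)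
  (nat_lit 48734) (nat_lit 8) nil nil) (node (nat_lit 0) (nat_lit 49060) (nat_lit 7) nil nil))))
  (node (nat_lit 4) (nat_lit 0) (nat_lit 6) (node (nat_lit 8) (nat_lit 49153) (nat_lit 7) (node
  (nat_lit 7) (nat_lit 49307) (nat_lit 8) nil nil) (node (nat_lit 3) (nat_lit 43130) (nat_lit 7)
  nil (node (nat_lit 5) (nat_lit 43130) (nat_lit 7) nil (node (nat_lit 7) (nat_lit 45689) (nat_lit
  7) nil (node (nat_lit 0) (nat_lit 47327) (nat_lit 7) nil nil))))) (node (nat_lit 3) (nat_lit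
  42638) (nat_lit 6) (node (nat_lit 4) (nat_lit 42638) (nat_lit 7) nil (node (nat_lit 8) (nat_lit
  43778) (nat_lit 7) nil (node (nat_lit 5) (nat_lit 42638) (nat_lit 7) nil (node (nat_lit 7)
  (nat_lit 43778) (nat_lit 7) nil nil)))) (node (nat_lit 5) (nat_lit 42638) (nat_lit 6) (node
  (nat_lit 4) (nat_lit 42638) (nat_lit 7) nil (node (nat_lit 8) (nat_lit 43778) (nat_lit 7) nil
  (node (nat_lit 3) (nat_lit 42638) (nat_lit 7) nil (node (nat_lit 7) (nat_lit 43778) (nat_lit 7)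
  nil nil)))) (node (nat_lit 0) (nat_lit 45794) (nat_lit 6) nil nil))))) nil)))) (node (nat_lit 3)
  (nat_lit 0) (nat_lit 4) (node (nat_lit 0) (nat_lit 0) (nat_lit 5) (node (nat_lit 7) (nat_lit 0)
  (nat_lit 6) (node (nat_lit 4) (nat_lit 37158) (nat_lit 7) (node (nat_lit 5) (nat_lit 39207)
  (nat_lit 8) (node (nat_lit 7) (nat_lit 41508) (nat_lit 9) (node (nat_lit 5) (nat_lit 41680)
  (nat_lit 10) nil (node (nat_lit 4) (nat_lit 41508) (nat_lit 10) nil (node (nat_lit 0) (nat_lit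
  43318) (nat_lit 10) nil (node (nat_lit 8) (nat_lit 43318) (nat_lit 10) nil nil)))) (node
  (nat_lit 4) (nat_lit 41861) (nat_lit 9) (node (nat_lit 7) (nat_lit 42563) (nat_lit 10) (node
  (nat_lit 5) (nat_lit 41679) (nat_lit 11) nil nil) (node (nat_lit 8) (nat_lit 47152) (nat_lit 10)
  nil nil)) (node (nat_lit 8) (nat_lit 47469) (nat_lit 9) nil (node (nat_lit 0) (nat_lit 47469)
  (nat_lit 9) nil nil)))) (node (nat_lit 8) (nat_lit 47905) (nat_lit 8) (node (nat_lit 7) (nat_lit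
  48128) (nat_lit 9) (node (nat_lit 8) (nat_lit 49307) (nat_lit 10) (node (nat_lit 4) (nat_lit
  49307) (nat_lit 11) nil nil) (node (nat_lit 5) (nat_lit 48128) (nat_lit 10) nil (node (nat_lit
  0) (nat_lit 48439) (nat_lit 10) nil nil))) (node (nat_lit 4) (nat_lit 47905) (nat_lit 9) nil
  nil)) (node (nat_lit 7) (nat_lit 39368) (nat_lit 8) (node (nat_lit 5) (nat_lit 40268) (nat_lit
  9) (node (nat_lit 4) (nat_lit 40268) (nat_lit 10) nil nil) (node (nat_lit 8) (nat_lit 48908)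
  (nat_lit 9) (node (nat_lit 4) (nat_lit 48908) (nat_lit 10) nil nil) (node (nat_lit 0) (nat_lit
  41044) (nat_lit 9) nil nil))) (node (nat_lit 0) (nat_lit 47265) (nat_lit 8) nil nil)))) (node
  (nat_lit 5) (nat_lit 36837) (nat_lit 7) (node (nat_lit 4) (nat_lit 38699) (nat_lit 8) (node
  (nat_lit 7) (nat_lit 41123) (nat_lit 9) (node (nat_lit 4) (nat_lit 41123) (nat_lit 10) nil (node
  (nat_lit 5) (nat_lit 42478) (nat_lit 10) nil (node (nat_lit 8) (nat_lit 42934) (nat_lit 10) nil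
  (node (nat_lit 0) (nat_lit 42934) (nat_lit 10) nil nil)))) (node (nat_lit 5) (nat_lit 40154)
  (nat_lit 9) (node (nat_lit 7) (nat_lit 41510) (nat_lit 10) nil (node (nat_lit 8) (nat_lit 45445)
  (nat_lit 10) nil (node (nat_lit 0) (nat_lit 41965) (nat_lit 10) nil nil))) (node (nat_lit 8)
  (nat_lit 45752) (nat_lit 9) nil (node (nat_lit 0) (nat_lit 46960) (nat_lit 9) nil nil)))) (node
  (nat_lit 7) (nat_lit 39139) (nat_lit 8) (node (nat_lit 4) (nat_lit 39972) (nat_lit 9) (node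
  (nat_lit 5) (nat_lit 40211) (nat_lit 10) nil (node (nat_lit 7) (nat_lit 39972) (nat_lit 10) nil
  (node (nat_lit 8) (nat_lit 45263) (nat_lit 10) nil nil))) (node (nat_lit 8) (nat_lit 48788)
  (nat_lit 9) (node (nat_lit 5) (nat_lit 48788) (nat_lit 10) nil nil) (node (nat_lit 0) (nat_lit
  47401) (nat_lit 9) nil nil))) (node (nat_lit 8) (nat_lit 47103) (nat_lit 8) (node (nat_lit 5)
  (nat_lit 47103) (nat_lit 9) nil nil) (node (nat_lit 0) (nat_lit 47438) (nat_lit 8) nil nil))))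
  (node (nat_lit 0) (nat_lit 45304) (nat_lit 7) (node (nat_lit 8) (nat_lit 47365) (nat_lit 8)
  (node (nat_lit 7) (nat_lit 47365) (nat_lit 9) nil nil) (node (nat_lit 7) (nat_lit 45304)
  (nat_lit 8) (node (nat_lit 8) (nat_lit 45840) (nat_lit 9) nil nil) (node (nat_lit 0) (nat_lit
  46518) (nat_lit 8) nil (node (nat_lit 4) (nat_lit 45304) (nat_lit 8) nil (node (nat_lit 5)
  (nat_lit 45304) (nat_lit 8) nil nil))))) nil))) (node (nat_lit 4) (nat_lit 0) (nat_lit 6) (node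
  (nat_lit 8) (nat_lit 45463) (nat_lit 7) (node (nat_lit 7) (nat_lit 45364) (nat_lit 8) (node
  (nat_lit 8) (nat_lit 48661) (nat_lit 9) (node (nat_lit 4) (nat_lit 48661) (nat_lit 10) (node
  (nat_lit 7) (nat_lit 48661) (nat_lit 11) nil nil) nil) nil) nil) (node (nat_lit 7) (nat_lit
  37236) (nat_lit 7) (node (nat_lit 4) (nat_lit 39158) (nat_lit 8) (node (nat_lit 8) (nat_lit
  47783) (nat_lit 9) (node (nat_lit 7) (nat_lit 47783) (nat_lit 10) (node (nat_lit 8) (nat_lit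
  48036) (nat_lit 11) nil nil) nil) nil) (node (nat_lit 0) (nat_lit 38735) (nat_lit 8) nil nil))
  (node (nat_lit 5) (nat_lit 34740) (nat_lit 7) (node (nat_lit 7) (nat_lit 34740) (nat_lit 8)
  (node (nat_lit 5) (nat_lit 34740) (nat_lit 9) nil (node (nat_lit 4) (nat_lit 34740) (nat_lit 9)
  nil nil)) (node (nat_lit 8) (nat_lit 36239) (nat_lit 8) nil nil)) (node (nat_lit 0) (nat_lit
  41716) (nat_lit 7) nil nil)))) (node (nat_lit 5) (nat_lit 0) (nat_lit 6) (node (nat_lit 7)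
  (nat_lit 36704) (nat_lit 7) (node (nat_lit 5) (nat_lit 36968) (nat_lit 8) (node (nat_lit 8)
  (nat_lit 45230) (nat_lit 9) (node (nat_lit 7) (nat_lit 45230) (nat_lit 10) nil nil) nil) (node
  (nat_lit 0) (nat_lit 38203) (nat_lit 8) nil (node (nat_lit 4) (nat_lit 36704) (nat_lit 8) nil
  nil))) (node (nat_lit 8) (nat_lit 45045) (nat_lit 7) (node (nat_lit 7) (nat_lit 45045) (nat_lit
  8) (node (nat_lit 8) (nat_lit 45581) (nat_lit 9) nil nil) nil) (node (nat_lit 4) (nat_lit 34102)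
  (nat_lit 7) (node (nat_lit 7) (nat_lit 34102) (nat_lit 8) nil nil) (node (nat_lit 0) (nat_lit
  37640) (nat_lit 7) nil nil)))) (node (nat_lit 0) (nat_lit 40822) (nat_lit 6) (node (nat_lit 7)
  (nat_lit 40843) (nat_lit 7) (node (nat_lit 8) (nat_lit 45284) (nat_lit 8) (node (nat_lit 7)
  (nat_lit 45284) (nat_lit 9) nil (node (nat_lit 0) (nat_lit 45461) (nat_lit 9) nil nil)) (node
  (nat_lit 9) (nat_lit 43224) (nat_lit 8) nil nil)) (node (nat_lit 8) (nat_lit 43568) (nat_lit 7)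
  (node (nat_lit 7) (nat_lit 43568) (nat_lit 8) (node (nat_lit 8) (nat_lit 44104) (nat_lit 9) nil
  nil) nil) nil)) nil)))) (node (nat_lit 4) (nat_lit 0) (nat_lit 5) (node (nat_lit 0) (nat_lit 0)
  (nat_lit 6) (node (nat_lit 7) (nat_lit 0) (nat_lit 7) (node (nat_lit 4) (nat_lit 22375) (nat_lit
  8) (node (nat_lit 7) (nat_lit 23759) (nat_lit 9) (node (nat_lit 9) (nat_lit 30118) (nat_lit 10)
  (node (nat_lit 4) (nat_lit 30211) (nat_lit 11) (node (nat_lit 7) (nat_lit 30211) (nat_lit 12)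
  (node (nat_lit 4) (nat_lit 30211) (nat_lit 13) nil nil) (node (nat_lit 9) (nat_lit 30475)
  (nat_lit 12) (node (nat_lit 7) (nat_lit 30475) (nat_lit 13) nil nil) (node (nat_lit 5) (nat_lit
  30211) (nat_lit 12) nil (node (nat_lit 0) (nat_lit 30438) (nat_lit 12) nil nil)))) (node
  (nat_lit 7) (nat_lit 30138) (nat_lit 11) (node (nat_lit 4) (nat_lit 30138) (nat_lit 12) (node
  (nat_lit 9) (nat_lit 30562) (nat_lit 13) nil (node (nat_lit 5) (nat_lit 30138) (nat_lit 13) nil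
  nil)) (node (nat_lit 5) (nat_lit 30138) (nat_lit 12) nil (node (nat_lit 0) (nat_lit 30366)
  (nat_lit 12) nil nil))) (node (nat_lit 5) (nat_lit 30118) (nat_lit 11) nil (node (nat_lit 0)
  (nat_lit 30238) (nat_lit 11) nil nil)))) (node (nat_lit 5) (nat_lit 25187) (nat_lit 10) (node
  (nat_lit 4) (nat_lit 26694) (nat_lit 11) (node (nat_lit 5) (nat_lit 26493) (nat_lit 12) nil
  (node (nat_lit 7) (nat_lit 27453) (nat_lit 12) nil nil)) (node (nat_lit 7) (nat_lit 26308)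
  (nat_lit 11) (node (nat_lit 4) (nat_lit 27066) (nat_lit 12) nil nil) (node (nat_lit 9) (nat_lit
  29375) (nat_lit 11) nil (node (nat_lit 0) (nat_lit 28517) (nat_lit 11) nil nil)))) (node
  (nat_lit 0) (nat_lit 29796) (nat_lit 10) nil nil))) (node (nat_lit 5) (nat_lit 23840) (nat_lit
  9) (node (nat_lit 7) (nat_lit 25449) (nat_lit 10) (node (nat_lit 5) (nat_lit 26706) (nat_lit 11)
  (node (nat_lit 4) (nat_lit 26960) (nat_lit 12) nil nil) (node (nat_lit 4) (nat_lit 25866)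
  (nat_lit 11) nil (node (nat_lit 9) (nat_lit 30367) (nat_lit 11) nil (node (nat_lit 0) (nat_lit
  27417) (nat_lit 11) nil nil)))) (node (nat_lit 4) (nat_lit 25429) (nat_lit 10) (node (nat_lit 7)
  (nat_lit 25973) (nat_lit 11) (node (nat_lit 5) (nat_lit 25437) (nat_lit 12) nil nil) (node
  (nat_lit 9) (nat_lit 28759) (nat_lit 11) nil (node (nat_lit 0) (nat_lit 27396) (nat_lit 11) nil
  nil))) (node (nat_lit 9) (nat_lit 29877) (nat_lit 10) nil (node (nat_lit 0) (nat_lit 28873)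
  (nat_lit 10) nil nil)))) (node (nat_lit 0) (nat_lit 28636) (nat_lit 9) (node (nat_lit 4)
  (nat_lit 28636) (nat_lit 10) nil nil) nil))) (node (nat_lit 9) (nat_lit 27004) (nat_lit 8) (node
  (nat_lit 4) (nat_lit 27004) (nat_lit 9) (node (nat_lit 7) (nat_lit 27004) (nat_lit 10) nil nil)
  nil) (node (nat_lit 5) (nat_lit 21266) (nat_lit 8) nil (node (nat_lit 0) (nat_lit 22647)
  (nat_lit 8) nil nil)))) (node (nat_lit 4) (nat_lit 21192) (nat_lit 7) (node (nat_lit 7) (nat_lit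
  22379) (nat_lit 8) (node (nat_lit 9) (nat_lit 28716) (nat_lit 9) (node (nat_lit 7) (nat_lit
  28716) (nat_lit 10) (node (nat_lit 4) (nat_lit 28716) (nat_lit 11) (node (nat_lit 9) (nat_lit
  29907) (nat_lit 12) (node (nat_lit 4) (nat_lit 29907) (nat_lit 13) (node (nat_lit 7) (nat_lit
  29907) (nat_lit 14) nil nil) nil) nil) nil) nil) nil) (node (nat_lit 0) (nat_lit 22573) (nat_lit
  8) nil nil)) (node (nat_lit 5) (nat_lit 21027) (nat_lit 7) (node (nat_lit 4) (nat_lit 21027)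
  (nat_lit 8) nil nil) (node (nat_lit 0) (nat_lit 22219) (nat_lit 7) nil nil)))) nil) (node
  (nat_lit 5) (nat_lit 0) (nat_lit 5) (node (nat_lit 0) (nat_lit 0) (nat_lit 6) (node (nat_lit 7)
  (nat_lit 36209) (nat_lit 7) (node (nat_lit 5) (nat_lit 37510) (nat_lit 8) (node (nat_lit 4)
  (nat_lit 38929) (nat_lit 9) (node (nat_lit 7) (nat_lit 39856) (nat_lit 10) (node (nat_lit 9)
  (nat_lit 41823) (nat_lit 11) nil nil) (node (nat_lit 5) (nat_lit 39856) (nat_lit 10) (node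
  (nat_lit 7) (nat_lit 39856) (nat_lit 11) nil (node (nat_lit 9) (nat_lit 41823) (nat_lit 11) nil
  nil)) (node (nat_lit 9) (nat_lit 44881) (nat_lit 10) nil (node (nat_lit 0) (nat_lit 44188)
  (nat_lit 10) nil nil)))) (node (nat_lit 7) (nat_lit 38879) (nat_lit 9) (node (nat_lit 4)
  (nat_lit 39647) (nat_lit 10) (node (nat_lit 5) (nat_lit 39832) (nat_lit 11) nil (node (nat_lit
  9) (nat_lit 43944) (nat_lit 11) nil (node (nat_lit 0) (nat_lit 41615) (nat_lit 11) nil nil)))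
  (node (nat_lit 9) (nat_lit 47027) (nat_lit 10) (node (nat_lit 7) (nat_lit 47027) (nat_lit 11)
  nil nil) (node (nat_lit 0) (nat_lit 46520) (nat_lit 10) nil nil))) (node (nat_lit 0) (nat_lit
  45691) (nat_lit 9) nil nil))) nil) (node (nat_lit 5) (nat_lit 35338) (nat_lit 7) (node (nat_lit
  7) (nat_lit 35338) (nat_lit 8) (node (nat_lit 9) (nat_lit 38948) (nat_lit 9) (node (nat_lit 7)
  (nat_lit 38948) (nat_lit 10) nil nil) nil) nil) (node (nat_lit 4) (nat_lit 35338) (nat_lit 7)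
  nil (node (nat_lit 0) (nat_lit 37139) (nat_lit 7) nil nil)))) nil) nil))) nil))

noncomputable def t437 : Tr :=
  (node (nat_lit 3) (nat_lit 0) (nat_lit 3) (node (nat_lit 0) (nat_lit 0) (nat_lit 4) (node
  (nat_lit 4) (nat_lit 0) (nat_lit 5) (node (nat_lit 6) (nat_lit 0) (nat_lit 6) (node (nat_lit 4)
  (nat_lit 68073) (nat_lit 7) (node (nat_lit 5) (nat_lit 71965) (nat_lit 8) (node (nat_lit 6)
  (nat_lit 73872) (nat_lit 9) (node (nat_lit 5) (nat_lit 77660) (nat_lit 10) (node (nat_lit 4)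
  (nat_lit 79693) (nat_lit 11) (node (nat_lit 6) (nat_lit 77859) (nat_lit 12) nil nil) nil) (node
  (nat_lit 7) (nat_lit 53642) (nat_lit 10) (node (nat_lit 4) (nat_lit 39618) (nat_lit 11) nil nil)
  nil)) (node (nat_lit 4) (nat_lit 73583) (nat_lit 9) (node (nat_lit 6) (nat_lit 75731) (nat_lit
  10) (node (nat_lit 5) (nat_lit 71925) (nat_lit 11) nil nil) nil) (node (nat_lit 7) (nat_lit
  81054) (nat_lit 9) nil (node (nat_lit 0) (nat_lit 77736) (nat_lit 9) nil nil)))) (node (nat_lit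
  7) (nat_lit 81048) (nat_lit 8) (node (nat_lit 6) (nat_lit 81048) (nat_lit 9) nil nil) (node
  (nat_lit 0) (nat_lit 76683) (nat_lit 8) nil nil))) (node (nat_lit 5) (nat_lit 66898) (nat_lit 7)
  (node (nat_lit 4) (nat_lit 69716) (nat_lit 8) (node (nat_lit 6) (nat_lit 69716) (nat_lit 9) nil
  (node (nat_lit 5) (nat_lit 72409) (nat_lit 9) (node (nat_lit 6) (nat_lit 74740) (nat_lit 10)
  (node (nat_lit 7) (nat_lit 47422) (nat_lit 11) nil nil) nil) nil)) (node (nat_lit 6) (nat_lit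
  70058) (nat_lit 8) (node (nat_lit 4) (nat_lit 71011) (nat_lit 9) (node (nat_lit 6) (nat_lit
  70940) (nat_lit 10) (node (nat_lit 5) (nat_lit 69353) (nat_lit 11) nil nil) nil) (node (nat_lit
  7) (nat_lit 75830) (nat_lit 9) nil nil)) (node (nat_lit 7) (nat_lit 72330) (nat_lit 8) nil (node
  (nat_lit 0) (nat_lit 72330) (nat_lit 8) nil nil)))) (node (nat_lit 7) (nat_lit 80733) (nat_lit
  7) (node (nat_lit 6) (nat_lit 80733) (nat_lit 8) (node (nat_lit 4) (nat_lit 80733) (nat_lit 9)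
  nil nil) (node (nat_lit 5) (nat_lit 80733) (nat_lit 8) nil nil)) (node (nat_lit 0) (nat_lit
  77726) (nat_lit 7) nil nil)))) (node (nat_lit 7) (nat_lit 0) (nat_lit 6) (node (nat_lit 6)
  (nat_lit 78410) (nat_lit 7) (node (nat_lit 4) (nat_lit 78214) (nat_lit 8) (node (nat_lit 6)
  (nat_lit 78350) (nat_lit 9) (node (nat_lit 5) (nat_lit 78941) (nat_lit 10) (node (nat_lit 4)
  (nat_lit 79628) (nat_lit 11) (node (nat_lit 5) (nat_lit 80361) (nat_lit 12) nil nil) (node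
  (nat_lit 6) (nat_lit 78941) (nat_lit 11) nil nil)) (node (nat_lit 7) (nat_lit 81240) (nat_lit
  10) nil (node (nat_lit 0) (nat_lit 80284) (nat_lit 10) nil nil))) (node (nat_lit 5) (nat_lit
  78214) (nat_lit 9) (node (nat_lit 6) (nat_lit 78214) (nat_lit 10) (node (nat_lit 5) (nat_lit
  78214) (nat_lit 11) nil (node (nat_lit 4) (nat_lit 78214) (nat_lit 11) nil nil)) (node (nat_lit
  4) (nat_lit 78214) (nat_lit 10) (node (nat_lit 6) (nat_lit 78214) (nat_lit 11) nil nil) nil))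
  (node (nat_lit 0) (nat_lit 79973) (nat_lit 9) nil nil))) (node (nat_lit 5) (nat_lit 78410)
  (nat_lit 8) (node (nat_lit 4) (nat_lit 78410) (nat_lit 9) nil nil) (node (nat_lit 7) (nat_lit
  80856) (nat_lit 8) nil (node (nat_lit 0) (nat_lit 80856) (nat_lit 8) nil nil)))) (node (nat_lit
  5) (nat_lit 78564) (nat_lit 7) (node (nat_lit 4) (nat_lit 78564) (nat_lit 8) (node (nat_lit 6)
  (nat_lit 78564) (nat_lit 9) nil (node (nat_lit 5) (nat_lit 78564) (nat_lit 9) (node (nat_lit 6)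
  (nat_lit 78564) (nat_lit 10) nil (node (nat_lit 7) (nat_lit 80499) (nat_lit 10) nil nil)) nil))
  nil) (node (nat_lit 0) (nat_lit 79984) (nat_lit 7) nil nil))) (node (nat_lit 5) (nat_lit 0)
  (nat_lit 6) (node (nat_lit 6) (nat_lit 66287) (nat_lit 7) (node (nat_lit 4) (nat_lit 68271)
  (nat_lit 8) (node (nat_lit 5) (nat_lit 71676) (nat_lit 9) (node (nat_lit 4) (nat_lit 74144)
  (nat_lit 10) (node (nat_lit 6) (nat_lit 72974) (nat_lit 11) (node (nat_lit 4) (nat_lit 72719)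
  (nat_lit 12) (node (nat_lit 5) (nat_lit 70910) (nat_lit 13) (node (nat_lit 6) (nat_lit 66201)
  (nat_lit 14) nil nil) nil) nil) nil) nil) (node (nat_lit 6) (nat_lit 68729) (nat_lit 9) (node
  (nat_lit 5) (nat_lit 68975) (nat_lit 10) nil nil) nil)) (node (nat_lit 5) (nat_lit 69624)
  (nat_lit 8) (node (nat_lit 4) (nat_lit 71800) (nat_lit 9) (node (nat_lit 6) (nat_lit 74393)
  (nat_lit 10) nil nil) (node (nat_lit 7) (nat_lit 75396) (nat_lit 9) nil nil)) nil)) (node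
  (nat_lit 4) (nat_lit 0) (nat_lit 7) (node (nat_lit 6) (nat_lit 69547) (nat_lit 8) (node (nat_lit
  5) (nat_lit 72385) (nat_lit 9) (node (nat_lit 6) (nat_lit 74978) (nat_lit 10) (node (nat_lit 4)
  (nat_lit 76397) (nat_lit 11) (node (nat_lit 6) (nat_lit 77130) (nat_lit 12) (node (nat_lit 5)
  (nat_lit 76919) (nat_lit 13) nil nil) nil) nil) nil) (node (nat_lit 4) (nat_lit 69547) (nat_lit
  9) nil (node (nat_lit 7) (nat_lit 75319) (nat_lit 9) nil nil))) (node (nat_lit 7) (nat_lit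
  76428) (nat_lit 8) nil (node (nat_lit 0) (nat_lit 71574) (nat_lit 8) nil nil))) (node (nat_lit
  7) (nat_lit 80399) (nat_lit 7) (node (nat_lit 5) (nat_lit 80399) (nat_lit 8) nil nil) (node
  (nat_lit 0) (nat_lit 76204) (nat_lit 7) nil nil)))) (node (nat_lit 0) (nat_lit 75147) (nat_lit
  6) nil nil)))) (node (nat_lit 5) (nat_lit 0) (nat_lit 5) (node (nat_lit 7) (nat_lit 0) (nat_lit
  6) (node (nat_lit 6) (nat_lit 77923) (nat_lit 7) (node (nat_lit 5) (nat_lit 77979) (nat_lit 8)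
  (node (nat_lit 6) (nat_lit 78010) (nat_lit 9) (node (nat_lit 4) (nat_lit 77807) (nat_lit 10)
  (node (nat_lit 5) (nat_lit 78446) (nat_lit 11) (node (nat_lit 6) (nat_lit 78063) (nat_lit 12)
  (node (nat_lit 5) (nat_lit 78104) (nat_lit 13) nil nil) (node (nat_lit 4) (nat_lit 78339)
  (nat_lit 12) (node (nat_lit 6) (nat_lit 76407) (nat_lit 13) nil nil) nil)) (node (nat_lit 6)
  (nat_lit 77807) (nat_lit 11) nil nil)) (node (nat_lit 7) (nat_lit 81240) (nat_lit 10) nil (node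
  (nat_lit 0) (nat_lit 79945) (nat_lit 10) nil nil))) (node (nat_lit 4) (nat_lit 77979) (nat_lit
  9) (node (nat_lit 6) (nat_lit 77979) (nat_lit 10) (node (nat_lit 4) (nat_lit 78665) (nat_lit 11)
  (node (nat_lit 5) (nat_lit 79398) (nat_lit 12) nil nil) (node (nat_lit 5) (nat_lit 77979)
  (nat_lit 11) nil nil)) (node (nat_lit 5) (nat_lit 77979) (nat_lit 10) (node (nat_lit 6) (nat_lit
  77979) (nat_lit 11) nil nil) nil)) (node (nat_lit 0) (nat_lit 79738) (nat_lit 9) nil nil)))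
  (node (nat_lit 4) (nat_lit 77923) (nat_lit 8) (node (nat_lit 5) (nat_lit 77923) (nat_lit 9) nil
  nil) (node (nat_lit 7) (nat_lit 80369) (nat_lit 8) nil (node (nat_lit 0) (nat_lit 80369)
  (nat_lit 8) nil nil)))) (node (nat_lit 4) (nat_lit 78265) (nat_lit 7) (node (nat_lit 5) (nat_lit
  78265) (nat_lit 8) (node (nat_lit 6) (nat_lit 78265) (nat_lit 9) (node (nat_lit 5) (nat_lit
  78265) (nat_lit 10) nil nil) (node (nat_lit 4) (nat_lit 78265) (nat_lit 9) (node (nat_lit 6)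
  (nat_lit 78265) (nat_lit 10) nil nil) nil)) nil) (node (nat_lit 0) (nat_lit 79685) (nat_lit 7)
  nil nil))) (node (nat_lit 4) (nat_lit 0) (nat_lit 6) (node (nat_lit 6) (nat_lit 66464) (nat_lit
  7) (node (nat_lit 5) (nat_lit 69204) (nat_lit 8) (node (nat_lit 4) (nat_lit 71379) (nat_lit 9)
  (node (nat_lit 5) (nat_lit 73973) (nat_lit 10) nil nil) (node (nat_lit 6) (nat_lit 70623)
  (nat_lit 9) nil nil)) (node (nat_lit 4) (nat_lit 70007) (nat_lit 8) (node (nat_lit 5) (nat_lit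
  73057) (nat_lit 9) (node (nat_lit 6) (nat_lit 76172) (nat_lit 10) (node (nat_lit 5) (nat_lit
  77119) (nat_lit 11) (node (nat_lit 4) (nat_lit 75366) (nat_lit 12) (node (nat_lit 5) (nat_lit
  73905) (nat_lit 13) nil nil) nil) (node (nat_lit 7) (nat_lit 53657) (nat_lit 11) nil nil)) (node
  (nat_lit 4) (nat_lit 73303) (nat_lit 10) nil nil)) nil) (node (nat_lit 7) (nat_lit 71896)
  (nat_lit 8) nil nil))) (node (nat_lit 5) (nat_lit 0) (nat_lit 7) (node (nat_lit 6) (nat_lit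
  70024) (nat_lit 8) (node (nat_lit 4) (nat_lit 71678) (nat_lit 9) (node (nat_lit 6) (nat_lit
  73826) (nat_lit 10) (node (nat_lit 5) (nat_lit 73526) (nat_lit 11) (node (nat_lit 4) (nat_lit
  72312) (nat_lit 12) (node (nat_lit 5) (nat_lit 70747) (nat_lit 13) nil nil) nil) nil) nil) (node
  (nat_lit 5) (nat_lit 71257) (nat_lit 9) (node (nat_lit 4) (nat_lit 71502) (nat_lit 10) nil nil)
  (node (nat_lit 7) (nat_lit 37010) (nat_lit 9) nil nil))) (node (nat_lit 7) (nat_lit 74897)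
  (nat_lit 8) nil (node (nat_lit 0) (nat_lit 71719) (nat_lit 8) nil nil))) (node (nat_lit 7)
  (nat_lit 80607) (nat_lit 7) (node (nat_lit 4) (nat_lit 80607) (nat_lit 8) nil nil) (node
  (nat_lit 0) (nat_lit 77621) (nat_lit 7) nil nil)))) (node (nat_lit 6) (nat_lit 0) (nat_lit 6)
  (node (nat_lit 5) (nat_lit 66742) (nat_lit 7) (node (nat_lit 4) (nat_lit 69966) (nat_lit 8)
  (node (nat_lit 6) (nat_lit 73936) (nat_lit 9) (node (nat_lit 4) (nat_lit 77263) (nat_lit 10)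
  (node (nat_lit 5) (nat_lit 78682) (nat_lit 11) nil nil) (node (nat_lit 5) (nat_lit 74915)
  (nat_lit 10) (node (nat_lit 6) (nat_lit 72828) (nat_lit 11) nil nil) nil)) (node (nat_lit 5)
  (nat_lit 70891) (nat_lit 9) (node (nat_lit 6) (nat_lit 73289) (nat_lit 10) (node (nat_lit 7)
  (nat_lit 61609) (nat_lit 11) (node (nat_lit 5) (nat_lit 39997) (nat_lit 12) nil nil) nil) nil)
  (node (nat_lit 7) (nat_lit 75738) (nat_lit 9) nil (node (nat_lit 0) (nat_lit 75738) (nat_lit 9)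
  nil nil)))) (node (nat_lit 7) (nat_lit 79565) (nat_lit 8) (node (nat_lit 6) (nat_lit 79565)
  (nat_lit 9) nil nil) (node (nat_lit 0) (nat_lit 75351) (nat_lit 8) nil nil))) (node (nat_lit 4)
  (nat_lit 66893) (nat_lit 7) (node (nat_lit 5) (nat_lit 68707) (nat_lit 8) (node (nat_lit 6)
  (nat_lit 71839) (nat_lit 9) (node (nat_lit 5) (nat_lit 75376) (nat_lit 10) (node (nat_lit 4)
  (nat_lit 77482) (nat_lit 11) (node (nat_lit 6) (nat_lit 77305) (nat_lit 12) (node (nat_lit 4)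
  (nat_lit 77633) (nat_lit 13) (node (nat_lit 5) (nat_lit 76389) (nat_lit 14) nil nil) nil) nil)
  nil) (node (nat_lit 7) (nat_lit 65571) (nat_lit 10) nil nil)) (node (nat_lit 4) (nat_lit 70126)
  (nat_lit 9) nil nil)) (node (nat_lit 6) (nat_lit 69607) (nat_lit 8) (node (nat_lit 5) (nat_lit
  72263) (nat_lit 9) (node (nat_lit 6) (nat_lit 74857) (nat_lit 10) nil (node (nat_lit 4) (nat_lit
  75360) (nat_lit 10) (node (nat_lit 6) (nat_lit 76515) (nat_lit 11) (node (nat_lit 4) (nat_lit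
  75839) (nat_lit 12) (node (nat_lit 5) (nat_lit 75371) (nat_lit 13) (node (nat_lit 6) (nat_lit
  75460) (nat_lit 14) nil nil) nil) nil) nil) nil)) nil) (node (nat_lit 7) (nat_lit 72325)
  (nat_lit 8) nil nil))) (node (nat_lit 0) (nat_lit 75411) (nat_lit 7) nil nil))) (node (nat_lit
  0) (nat_lit 75335) (nat_lit 6) nil nil)))) (node (nat_lit 6) (nat_lit 0) (nat_lit 5) (node
  (nat_lit 5) (nat_lit 0) (nat_lit 6) (node (nat_lit 4) (nat_lit 66299) (nat_lit 7) (node (nat_lit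
  5) (nat_lit 69374) (nat_lit 8) (node (nat_lit 6) (nat_lit 71637) (nat_lit 9) (node (nat_lit 4)
  (nat_lit 74231) (nat_lit 10) nil (node (nat_lit 5) (nat_lit 73848) (nat_lit 10) (node (nat_lit
  4) (nat_lit 73548) (nat_lit 11) nil nil) (node (nat_lit 7) (nat_lit 39163) (nat_lit 10) nil
  nil))) nil) (node (nat_lit 6) (nat_lit 69348) (nat_lit 8) (node (nat_lit 4) (nat_lit 71524)
  (nat_lit 9) (node (nat_lit 5) (nat_lit 74117) (nat_lit 10) nil nil) (node (nat_lit 5) (nat_lit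
  70766) (nat_lit 9) (node (nat_lit 6) (nat_lit 73360) (nat_lit 10) nil nil) nil)) (node (nat_lit
  7) (nat_lit 71732) (nat_lit 8) nil (node (nat_lit 0) (nat_lit 71732) (nat_lit 8) nil nil))))
  (node (nat_lit 6) (nat_lit 65524) (nat_lit 7) (node (nat_lit 4) (nat_lit 67479) (nat_lit 8)
  (node (nat_lit 5) (nat_lit 70282) (nat_lit 9) (node (nat_lit 6) (nat_lit 70657) (nat_lit 10) nil
  (node (nat_lit 4) (nat_lit 73570) (nat_lit 10) nil nil)) (node (nat_lit 6) (nat_lit 67636)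
  (nat_lit 9) (node (nat_lit 5) (nat_lit 67881) (nat_lit 10) nil nil) nil)) (node (nat_lit 7)
  (nat_lit 80818) (nat_lit 8) (node (nat_lit 5) (nat_lit 80818) (nat_lit 9) nil nil) (node
  (nat_lit 0) (nat_lit 70957) (nat_lit 8) nil nil))) (node (nat_lit 7) (nat_lit 78808) (nat_lit 7)
  nil (node (nat_lit 0) (nat_lit 75636) (nat_lit 7) nil nil)))) (node (nat_lit 4) (nat_lit 0)
  (nat_lit 6) (node (nat_lit 5) (nat_lit 67857) (nat_lit 7) (node (nat_lit 4) (nat_lit 71194)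
  (nat_lit 8) (node (nat_lit 6) (nat_lit 74161) (nat_lit 9) (node (nat_lit 5) (nat_lit 77651)
  (nat_lit 10) (node (nat_lit 6) (nat_lit 78877) (nat_lit 11) (node (nat_lit 4) (nat_lit 78804)
  (nat_lit 12) (node (nat_lit 5) (nat_lit 76486) (nat_lit 13) (node (nat_lit 6) (nat_lit 75075)
  (nat_lit 14) nil nil) nil) nil) nil) (node (nat_lit 4) (nat_lit 76755) (nat_lit 10) nil nil))
  nil) (node (nat_lit 6) (nat_lit 69166) (nat_lit 8) (node (nat_lit 5) (nat_lit 72060) (nat_lit 9)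
  (node (nat_lit 4) (nat_lit 75406) (nat_lit 10) (node (nat_lit 6) (nat_lit 75546) (nat_lit 11)
  (node (nat_lit 4) (nat_lit 75493) (nat_lit 12) (node (nat_lit 5) (nat_lit 73733) (nat_lit 13)
  nil nil) nil) nil) nil) (node (nat_lit 4) (nat_lit 69702) (nat_lit 9) (node (nat_lit 6) (nat_lit
  70077) (nat_lit 10) nil nil) (node (nat_lit 7) (nat_lit 37848) (nat_lit 9) nil nil))) (node
  (nat_lit 7) (nat_lit 73290) (nat_lit 8) nil (node (nat_lit 0) (nat_lit 73290) (nat_lit 8) nil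
  nil)))) (node (nat_lit 6) (nat_lit 66712) (nat_lit 7) (node (nat_lit 5) (nat_lit 69452) (nat_lit
  8) (node (nat_lit 4) (nat_lit 71628) (nat_lit 9) (node (nat_lit 6) (nat_lit 74222) (nat_lit 10)
  nil (node (nat_lit 5) (nat_lit 74222) (nat_lit 10) nil nil)) (node (nat_lit 6) (nat_lit 70871)
  (nat_lit 9) nil nil)) (node (nat_lit 7) (nat_lit 76998) (nat_lit 8) nil (node (nat_lit 0)
  (nat_lit 72144) (nat_lit 8) nil nil))) (node (nat_lit 7) (nat_lit 77656) (nat_lit 7) nil (node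
  (nat_lit 0) (nat_lit 77656) (nat_lit 7) nil nil)))) (node (nat_lit 0) (nat_lit 76512) (nat_lit
  6) (node (nat_lit 6) (nat_lit 76512) (nat_lit 7) nil nil) nil))) (node (nat_lit 0) (nat_lit 0)
  (nat_lit 5) (node (nat_lit 7) (nat_lit 0) (nat_lit 6) (node (nat_lit 6) (nat_lit 78434) (nat_lit
  7) (node (nat_lit 8) (nat_lit 80879) (nat_lit 8) (node (nat_lit 7) (nat_lit 81204) (nat_lit 9)
  nil nil) (node (nat_lit 7) (nat_lit 79853) (nat_lit 8) nil nil)) (node (nat_lit 4) (nat_lit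
  78434) (nat_lit 7) (node (nat_lit 8) (nat_lit 79853) (nat_lit 8) nil nil) (node (nat_lit 5)
  (nat_lit 78434) (nat_lit 7) (node (nat_lit 8) (nat_lit 79853) (nat_lit 8) nil nil) (node
  (nat_lit 0) (nat_lit 80445) (nat_lit 7) nil nil)))) (node (nat_lit 6) (nat_lit 0) (nat_lit 6)
  (node (nat_lit 8) (nat_lit 80733) (nat_lit 7) (node (nat_lit 7) (nat_lit 81048) (nat_lit 8)
  (node (nat_lit 8) (nat_lit 81204) (nat_lit 9) nil nil) nil) (node (nat_lit 5) (nat_lit 71621)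
  (nat_lit 7) nil (node (nat_lit 4) (nat_lit 71621) (nat_lit 7) nil (node (nat_lit 7) (nat_lit
  75933) (nat_lit 7) nil (node (nat_lit 0) (nat_lit 76146) (nat_lit 7) nil nil))))) (node (nat_lit
  5) (nat_lit 70333) (nat_lit 6) (node (nat_lit 6) (nat_lit 70333) (nat_lit 7) nil (node (nat_lit
  8) (nat_lit 72484) (nat_lit 7) nil (node (nat_lit 4) (nat_lit 70333) (nat_lit 7) nil (node
  (nat_lit 7) (nat_lit 72484) (nat_lit 7) nil nil)))) (node (nat_lit 4) (nat_lit 70333) (nat_lit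
  6) (node (nat_lit 6) (nat_lit 70333) (nat_lit 7) nil (node (nat_lit 8) (nat_lit 72484) (nat_lit
  7) nil (node (nat_lit 5) (nat_lit 70333) (nat_lit 7) nil (node (nat_lit 7) (nat_lit 72484)
  (nat_lit 7) nil nil)))) (node (nat_lit 0) (nat_lit 75848) (nat_lit 6) nil nil))))) nil)))) t435)
  (node (nat_lit 4) (nat_lit 0) (nat_lit 3) t436 (node (nat_lit 0) (nat_lit 0) (nat_lit 3) (node
  (nat_lit 4) (nat_lit 0) (nat_lit 4) (node (nat_lit 3) (nat_lit 0) (nat_lit 5) (node (nat_lit 5)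
  (nat_lit 0) (nat_lit 6) (node (nat_lit 4) (nat_lit 79873) (nat_lit 7) (node (nat_lit 5) (nat_lit
  85092) (nat_lit 8) (node (nat_lit 8) (nat_lit 87719) (nat_lit 9) (node (nat_lit 4) (nat_lit
  88850) (nat_lit 10) nil nil) (node (nat_lit 6) (nat_lit 63361) (nat_lit 9) (node (nat_lit 4)
  (nat_lit 53695) (nat_lit 10) nil nil) nil)) (node (nat_lit 8) (nat_lit 83905) (nat_lit 8) nil
  (node (nat_lit 6) (nat_lit 87622) (nat_lit 8) nil nil))) (node (nat_lit 8) (nat_lit 77354)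
  (nat_lit 7) (node (nat_lit 4) (nat_lit 78611) (nat_lit 8) (node (nat_lit 5) (nat_lit 81383)
  (nat_lit 9) nil (node (nat_lit 8) (nat_lit 78051) (nat_lit 9) nil nil)) (node (nat_lit 6)
  (nat_lit 85103) (nat_lit 8) nil (node (nat_lit 0) (nat_lit 85103) (nat_lit 8) nil nil))) (node
  (nat_lit 6) (nat_lit 89779) (nat_lit 7) nil (node (nat_lit 0) (nat_lit 86842) (nat_lit 7) nil
  nil)))) (node (nat_lit 4) (nat_lit 72663) (nat_lit 6) (node (nat_lit 5) (nat_lit 76201) (nat_lit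
  7) (node (nat_lit 8) (nat_lit 80233) (nat_lit 8) (node (nat_lit 5) (nat_lit 83005) (nat_lit 9)
  nil nil) (node (nat_lit 4) (nat_lit 76201) (nat_lit 8) nil nil)) (node (nat_lit 6) (nat_lit
  88073) (nat_lit 7) nil nil)) (node (nat_lit 6) (nat_lit 88806) (nat_lit 6) (node (nat_lit 4)
  (nat_lit 88806) (nat_lit 7) nil nil) (node (nat_lit 0) (nat_lit 74308) (nat_lit 6) nil nil))))
  (node (nat_lit 5) (nat_lit 0) (nat_lit 5) (node (nat_lit 3) (nat_lit 0) (nat_lit 6) (node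
  (nat_lit 4) (nat_lit 77825) (nat_lit 7) (node (nat_lit 9) (nat_lit 79509) (nat_lit 8) (node
  (nat_lit 5) (nat_lit 78799) (nat_lit 9) nil nil) (node (nat_lit 5) (nat_lit 78934) (nat_lit 8)
  (node (nat_lit 6) (nat_lit 74753) (nat_lit 9) nil nil) (node (nat_lit 6) (nat_lit 86112)
  (nat_lit 8) nil nil))) (node (nat_lit 5) (nat_lit 78691) (nat_lit 7) (node (nat_lit 4) (nat_lit
  79993) (nat_lit 8) (node (nat_lit 9) (nat_lit 82789) (nat_lit 9) nil (node (nat_lit 5) (nat_lit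
  79282) (nat_lit 9) nil nil)) (node (nat_lit 6) (nat_lit 86978) (nat_lit 8) nil (node (nat_lit 0)
  (nat_lit 86978) (nat_lit 8) nil nil))) (node (nat_lit 6) (nat_lit 89852) (nat_lit 7) nil (node
  (nat_lit 0) (nat_lit 81981) (nat_lit 7) nil nil)))) (node (nat_lit 4) (nat_lit 72347) (nat_lit
  6) (node (nat_lit 3) (nat_lit 77817) (nat_lit 7) (node (nat_lit 5) (nat_lit 81849) (nat_lit 8)
  (node (nat_lit 10) (nat_lit 84645) (nat_lit 9) nil nil) (node (nat_lit 4) (nat_lit 77817)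
  (nat_lit 8) nil nil)) (node (nat_lit 6) (nat_lit 87670) (nat_lit 7) nil nil)) (node (nat_lit 0)
  (nat_lit 73854) (nat_lit 6) nil nil))) (node (nat_lit 6) (nat_lit 90022) (nat_lit 5) (node
  (nat_lit 5) (nat_lit 90022) (nat_lit 6) (node (nat_lit 3) (nat_lit 90130) (nat_lit 7) nil nil)
  (node (nat_lit 3) (nat_lit 90130) (nat_lit 6) nil nil)) (node (nat_lit 0) (nat_lit 77609)
  (nat_lit 5) (node (nat_lit 5) (nat_lit 77609) (nat_lit 6) nil nil) nil)))) (node (nat_lit 3)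
  (nat_lit 0) (nat_lit 4) (node (nat_lit 4) (nat_lit 0) (nat_lit 5) (node (nat_lit 5) (nat_lit 0)
  (nat_lit 6) (node (nat_lit 7) (nat_lit 79231) (nat_lit 7) (node (nat_lit 5) (nat_lit 81777)
  (nat_lit 8) (node (nat_lit 4) (nat_lit 81008) (nat_lit 9) nil nil) (node (nat_lit 4) (nat_lit
  81824) (nat_lit 8) nil (node (nat_lit 6) (nat_lit 86742) (nat_lit 8) nil nil))) (node (nat_lit
  4) (nat_lit 79963) (nat_lit 7) (node (nat_lit 7) (nat_lit 84179) (nat_lit 8) (node (nat_lit 5)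
  (nat_lit 87204) (nat_lit 9) (node (nat_lit 7) (nat_lit 86958) (nat_lit 10) (node (nat_lit 4)
  (nat_lit 87619) (nat_lit 11) nil nil) nil) (node (nat_lit 4) (nat_lit 86951) (nat_lit 9) nil
  nil)) (node (nat_lit 6) (nat_lit 89718) (nat_lit 8) nil (node (nat_lit 0) (nat_lit 87712)
  (nat_lit 8) nil nil))) (node (nat_lit 6) (nat_lit 36183) (nat_lit 7) (node (nat_lit 5) (nat_lit
  36183) (nat_lit 8) nil nil) (node (nat_lit 0) (nat_lit 86942) (nat_lit 7) nil nil)))) (node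
  (nat_lit 7) (nat_lit 74413) (nat_lit 6) (node (nat_lit 5) (nat_lit 76475) (nat_lit 7) (node
  (nat_lit 4) (nat_lit 76722) (nat_lit 8) (node (nat_lit 5) (nat_lit 75988) (nat_lit 9) nil nil)
  (node (nat_lit 7) (nat_lit 76475) (nat_lit 8) nil nil)) (node (nat_lit 6) (nat_lit 89288)
  (nat_lit 7) nil nil)) (node (nat_lit 6) (nat_lit 89313) (nat_lit 6) (node (nat_lit 7) (nat_lit
  89313) (nat_lit 7) nil nil) (node (nat_lit 0) (nat_lit 74399) (nat_lit 6) nil nil)))) (node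
  (nat_lit 5) (nat_lit 0) (nat_lit 5) (node (nat_lit 4) (nat_lit 0) (nat_lit 6) (node (nat_lit 7)
  (nat_lit 77970) (nat_lit 7) (node (nat_lit 4) (nat_lit 82002) (nat_lit 8) (node (nat_lit 5)
  (nat_lit 84775) (nat_lit 9) nil nil) (node (nat_lit 5) (nat_lit 80564) (nat_lit 8) nil (node
  (nat_lit 6) (nat_lit 85720) (nat_lit 8) nil nil))) (node (nat_lit 5) (nat_lit 78038) (nat_lit 7)
  (node (nat_lit 7) (nat_lit 81624) (nat_lit 8) (node (nat_lit 4) (nat_lit 84396) (nat_lit 9) nil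
  (node (nat_lit 5) (nat_lit 84396) (nat_lit 9) nil nil)) (node (nat_lit 6) (nat_lit 50738)
  (nat_lit 8) (node (nat_lit 7) (nat_lit 50738) (nat_lit 9) nil nil) (node (nat_lit 0) (nat_lit
  85787) (nat_lit 8) nil nil))) (node (nat_lit 6) (nat_lit 88438) (nat_lit 7) nil (node (nat_lit
  0) (nat_lit 80069) (nat_lit 7) nil nil)))) (node (nat_lit 7) (nat_lit 73240) (nat_lit 6) (node
  (nat_lit 4) (nat_lit 72202) (nat_lit 7) (node (nat_lit 5) (nat_lit 72577) (nat_lit 8) nil (node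
  (nat_lit 7) (nat_lit 72202) (nat_lit 8) nil nil)) (node (nat_lit 6) (nat_lit 88651) (nat_lit 7)
  nil nil)) (node (nat_lit 6) (nat_lit 87821) (nat_lit 6) nil (node (nat_lit 0) (nat_lit 73322)
  (nat_lit 6) nil nil)))) (node (nat_lit 6) (nat_lit 90130) (nat_lit 5) (node (nat_lit 5) (nat_lit
  90130) (nat_lit 6) nil (node (nat_lit 4) (nat_lit 90130) (nat_lit 6) nil nil)) (node (nat_lit 0)
  (nat_lit 77393) (nat_lit 5) (node (nat_lit 5) (nat_lit 77393) (nat_lit 6) nil nil) nil)))) (node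
  (nat_lit 5) (nat_lit 0) (nat_lit 4) (node (nat_lit 3) (nat_lit 0) (nat_lit 5) (node (nat_lit 4)
  (nat_lit 0) (nat_lit 6) (node (nat_lit 8) (nat_lit 80647) (nat_lit 7) (node (nat_lit 5) (nat_lit
  85099) (nat_lit 8) (node (nat_lit 4) (nat_lit 84065) (nat_lit 9) nil (node (nat_lit 8) (nat_lit
  87872) (nat_lit 9) nil nil)) (node (nat_lit 6) (nat_lit 88396) (nat_lit 8) nil nil)) (node
  (nat_lit 5) (nat_lit 79960) (nat_lit 7) (node (nat_lit 4) (nat_lit 81599) (nat_lit 8) (node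
  (nat_lit 8) (nat_lit 81040) (nat_lit 9) nil nil) (node (nat_lit 8) (nat_lit 82553) (nat_lit 8)
  nil (node (nat_lit 6) (nat_lit 63103) (nat_lit 8) (node (nat_lit 5) (nat_lit 35546) (nat_lit 9)
  nil nil) nil))) (node (nat_lit 6) (nat_lit 89298) (nat_lit 7) nil (node (nat_lit 0) (nat_lit
  82172) (nat_lit 7) nil nil)))) (node (nat_lit 5) (nat_lit 74954) (nat_lit 6) (node (nat_lit 4)
  (nat_lit 80960) (nat_lit 7) (node (nat_lit 8) (nat_lit 82644) (nat_lit 8) (node (nat_lit 4)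
  (nat_lit 85416) (nat_lit 9) nil nil) (node (nat_lit 5) (nat_lit 82600) (nat_lit 8) (node
  (nat_lit 8) (nat_lit 82040) (nat_lit 9) nil nil) nil)) (node (nat_lit 6) (nat_lit 86989)
  (nat_lit 7) nil nil)) (node (nat_lit 6) (nat_lit 86709) (nat_lit 6) nil (node (nat_lit 0)
  (nat_lit 73708) (nat_lit 6) nil nil)))) (node (nat_lit 4) (nat_lit 0) (nat_lit 5) (node (nat_lit
  3) (nat_lit 0) (nat_lit 6) (node (nat_lit 5) (nat_lit 79075) (nat_lit 7) (node (nat_lit 9)
  (nat_lit 82661) (nat_lit 8) (node (nat_lit 4) (nat_lit 85457) (nat_lit 9) nil nil) (node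
  (nat_lit 4) (nat_lit 79321) (nat_lit 8) nil (node (nat_lit 6) (nat_lit 87362) (nat_lit 8) nil
  nil))) (node (nat_lit 4) (nat_lit 80009) (nat_lit 7) (node (nat_lit 5) (nat_lit 83854) (nat_lit
  8) (node (nat_lit 9) (nat_lit 87556) (nat_lit 9) (node (nat_lit 5) (nat_lit 87891) (nat_lit 10)
  (node (nat_lit 4) (nat_lit 87656) (nat_lit 11) nil nil) (node (nat_lit 4) (nat_lit 88630)
  (nat_lit 10) nil nil)) (node (nat_lit 4) (nat_lit 83143) (nat_lit 9) nil (node (nat_lit 6)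
  (nat_lit 66480) (nat_lit 9) (node (nat_lit 5) (nat_lit 37463) (nat_lit 10) (node (nat_lit 4)
  (nat_lit 36434) (nat_lit 11) nil nil) nil) nil))) (node (nat_lit 6) (nat_lit 88296) (nat_lit 8)
  nil nil)) (node (nat_lit 6) (nat_lit 89243) (nat_lit 7) nil (node (nat_lit 0) (nat_lit 86306)
  (nat_lit 7) nil nil)))) (node (nat_lit 5) (nat_lit 72303) (nat_lit 6) (node (nat_lit 3) (nat_lit
  76628) (nat_lit 7) (node (nat_lit 4) (nat_lit 78268) (nat_lit 8) (node (nat_lit 10) (nat_lit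
  77731) (nat_lit 9) nil nil) (node (nat_lit 5) (nat_lit 78441) (nat_lit 8) (node (nat_lit 4)
  (nat_lit 77731) (nat_lit 9) nil nil) nil)) (node (nat_lit 6) (nat_lit 52210) (nat_lit 7) nil
  nil)) (node (nat_lit 6) (nat_lit 90130) (nat_lit 6) nil (node (nat_lit 0) (nat_lit 73327)
  (nat_lit 6) nil nil)))) (node (nat_lit 0) (nat_lit 76537) (nat_lit 5) nil nil))) (node (nat_lit
  0) (nat_lit 0) (nat_lit 4) (node (nat_lit 0) (nat_lit 83219) (nat_lit 5) nil (node (nat_lit 5)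
  (nat_lit 79571) (nat_lit 5) nil (node (nat_lit 3) (nat_lit 79571) (nat_lit 5) nil (node (nat_lit
  4) (nat_lit 79571) (nat_lit 5) nil (node (nat_lit 6) (nat_lit 83977) (nat_lit 5) nil nil)))))
  nil)))) nil)))

noncomputable def c28 : Tr :=
  (node (nat_lit 3) (nat_lit 0) (nat_lit 1) (node (nat_lit 3) (nat_lit 0) (nat_lit 2) t437 nil)
  nil)

noncomputable def t438 : Tr :=
  (node (nat_lit 3) (nat_lit 0) (nat_lit 4) (node (nat_lit 6) (nat_lit 0) (nat_lit 5) (node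
  (nat_lit 5) (nat_lit 88709) (nat_lit 6) (node (nat_lit 7) (nat_lit 89553) (nat_lit 7) (node
  (nat_lit 5) (nat_lit 90766) (nat_lit 8) (node (nat_lit 4) (nat_lit 92282) (nat_lit 9) (node
  (nat_lit 7) (nat_lit 93874) (nat_lit 10) (node (nat_lit 5) (nat_lit 95381) (nat_lit 11) (node
  (nat_lit 7) (nat_lit 95690) (nat_lit 12) (node (nat_lit 4) (nat_lit 95916) (nat_lit 13) nil nil)
  nil) (node (nat_lit 4) (nat_lit 95105) (nat_lit 11) nil nil)) (node (nat_lit 5) (nat_lit 92557)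
  (nat_lit 10) (node (nat_lit 7) (nat_lit 92403) (nat_lit 11) nil nil) (node (nat_lit 6) (nat_lit
  95306) (nat_lit 10) nil (node (nat_lit 0) (nat_lit 95306) (nat_lit 10) nil nil)))) (node
  (nat_lit 6) (nat_lit 95916) (nat_lit 9) (node (nat_lit 7) (nat_lit 95916) (nat_lit 10) nil (node
  (nat_lit 5) (nat_lit 95916) (nat_lit 10) nil nil)) (node (nat_lit 0) (nat_lit 95572) (nat_lit 9)
  nil nil))) (node (nat_lit 4) (nat_lit 90831) (nat_lit 8) (node (nat_lit 7) (nat_lit 91473)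
  (nat_lit 9) (node (nat_lit 5) (nat_lit 91519) (nat_lit 10) (node (nat_lit 4) (nat_lit 91194)
  (nat_lit 11) nil (node (nat_lit 7) (nat_lit 92750) (nat_lit 11) nil nil)) (node (nat_lit 6)
  (nat_lit 94498) (nat_lit 10) nil (node (nat_lit 0) (nat_lit 94498) (nat_lit 10) nil nil))) (node
  (nat_lit 5) (nat_lit 91115) (nat_lit 9) (node (nat_lit 4) (nat_lit 91085) (nat_lit 10) (node
  (nat_lit 7) (nat_lit 90930) (nat_lit 11) nil nil) (node (nat_lit 7) (nat_lit 91115) (nat_lit 10)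
  nil nil)) (node (nat_lit 6) (nat_lit 94663) (nat_lit 9) nil (node (nat_lit 0) (nat_lit 95572)
  (nat_lit 9) nil nil)))) (node (nat_lit 0) (nat_lit 95489) (nat_lit 8) nil nil))) (node (nat_lit
  6) (nat_lit 95772) (nat_lit 7) (node (nat_lit 7) (nat_lit 95772) (nat_lit 8) nil (node (nat_lit
  4) (nat_lit 95772) (nat_lit 8) nil nil)) (node (nat_lit 4) (nat_lit 88915) (nat_lit 7) (node
  (nat_lit 7) (nat_lit 88915) (nat_lit 8) nil (node (nat_lit 5) (nat_lit 88915) (nat_lit 8) nil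
  (node (nat_lit 6) (nat_lit 92892) (nat_lit 8) nil (node (nat_lit 0) (nat_lit 91384) (nat_lit 8)
  nil nil)))) (node (nat_lit 0) (nat_lit 94571) (nat_lit 7) nil nil)))) (node (nat_lit 4) (nat_lit
  88839) (nat_lit 6) (node (nat_lit 7) (nat_lit 88419) (nat_lit 7) (node (nat_lit 4) (nat_lit
  88810) (nat_lit 8) (node (nat_lit 5) (nat_lit 88810) (nat_lit 9) (node (nat_lit 7) (nat_lit
  88810) (nat_lit 10) nil nil) (node (nat_lit 6) (nat_lit 94060) (nat_lit 9) (node (nat_lit 4)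
  (nat_lit 94060) (nat_lit 10) nil nil) (node (nat_lit 0) (nat_lit 93151) (nat_lit 9) nil nil)))
  (node (nat_lit 5) (nat_lit 88987) (nat_lit 8) (node (nat_lit 4) (nat_lit 88987) (nat_lit 9) nil
  (node (nat_lit 7) (nat_lit 88987) (nat_lit 9) (node (nat_lit 4) (nat_lit 88987) (nat_lit 10) nil
  nil) (node (nat_lit 0) (nat_lit 91772) (nat_lit 9) nil nil))) (node (nat_lit 0) (nat_lit 93184)
  (nat_lit 8) nil nil))) (node (nat_lit 5) (nat_lit 88839) (nat_lit 7) nil (node (nat_lit 6)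
  (nat_lit 91965) (nat_lit 7) nil (node (nat_lit 0) (nat_lit 90763) (nat_lit 7) nil nil)))) (node
  (nat_lit 0) (nat_lit 92029) (nat_lit 6) nil nil))) (node (nat_lit 5) (nat_lit 0) (nat_lit 5)
  (node (nat_lit 7) (nat_lit 69970) (nat_lit 6) (node (nat_lit 4) (nat_lit 77365) (nat_lit 7)
  (node (nat_lit 5) (nat_lit 82682) (nat_lit 8) (node (nat_lit 4) (nat_lit 85973) (nat_lit 9)
  (node (nat_lit 7) (nat_lit 82851) (nat_lit 10) (node (nat_lit 4) (nat_lit 79342) (nat_lit 11)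
  (node (nat_lit 5) (nat_lit 80293) (nat_lit 12) nil nil) nil) nil) (node (nat_lit 7) (nat_lit
  83622) (nat_lit 9) nil (node (nat_lit 6) (nat_lit 78913) (nat_lit 9) (node (nat_lit 7) (nat_lit
  62539) (nat_lit 10) (node (nat_lit 5) (nat_lit 36272) (nat_lit 11) nil nil) nil) (node (nat_lit
  0) (nat_lit 89931) (nat_lit 9) nil nil)))) (node (nat_lit 7) (nat_lit 79827) (nat_lit 8) (node
  (nat_lit 5) (nat_lit 79212) (nat_lit 9) nil nil) (node (nat_lit 6) (nat_lit 92381) (nat_lit 8)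
  nil (node (nat_lit 0) (nat_lit 89510) (nat_lit 8) nil nil)))) (node (nat_lit 6) (nat_lit 95274)
  (nat_lit 7) (node (nat_lit 5) (nat_lit 95274) (nat_lit 8) nil nil) (node (nat_lit 0) (nat_lit
  86915) (nat_lit 7) nil nil))) (node (nat_lit 4) (nat_lit 69348) (nat_lit 6) (node (nat_lit 7)
  (nat_lit 75477) (nat_lit 7) (node (nat_lit 5) (nat_lit 80767) (nat_lit 8) (node (nat_lit 7)
  (nat_lit 85528) (nat_lit 9) (node (nat_lit 4) (nat_lit 87427) (nat_lit 10) nil nil) nil) (node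
  (nat_lit 4) (nat_lit 77748) (nat_lit 8) nil nil)) (node (nat_lit 5) (nat_lit 74626) (nat_lit 7)
  (node (nat_lit 7) (nat_lit 77820) (nat_lit 8) (node (nat_lit 4) (nat_lit 80385) (nat_lit 9) nil
  (node (nat_lit 5) (nat_lit 80433) (nat_lit 9) (node (nat_lit 4) (nat_lit 80063) (nat_lit 10) nil
  nil) nil)) (node (nat_lit 6) (nat_lit 53523) (nat_lit 8) (node (nat_lit 7) (nat_lit 53523)
  (nat_lit 9) nil nil) nil)) (node (nat_lit 6) (nat_lit 83354) (nat_lit 7) nil (node (nat_lit 0)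
  (nat_lit 80643) (nat_lit 7) nil nil)))) (node (nat_lit 6) (nat_lit 93562) (nat_lit 6) (node
  (nat_lit 5) (nat_lit 93562) (nat_lit 7) (node (nat_lit 7) (nat_lit 93562) (nat_lit 8) (node
  (nat_lit 5) (nat_lit 93562) (nat_lit 9) (node (nat_lit 4) (nat_lit 93562) (nat_lit 10) nil (node
  (nat_lit 6) (nat_lit 95278) (nat_lit 10) nil (node (nat_lit 0) (nat_lit 95278) (nat_lit 10) nil
  nil))) (node (nat_lit 6) (nat_lit 95116) (nat_lit 9) nil nil)) nil) (node (nat_lit 4) (nat_lit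
  93562) (nat_lit 7) nil nil)) (node (nat_lit 0) (nat_lit 87211) (nat_lit 6) nil nil)))) (node
  (nat_lit 4) (nat_lit 0) (nat_lit 5) (node (nat_lit 5) (nat_lit 69193) (nat_lit 6) (node (nat_lit
  7) (nat_lit 74990) (nat_lit 7) (node (nat_lit 4) (nat_lit 79335) (nat_lit 8) (node (nat_lit 7)
  (nat_lit 82521) (nat_lit 9) (node (nat_lit 5) (nat_lit 81250) (nat_lit 10) (node (nat_lit 4)
  (nat_lit 78612) (nat_lit 11) (node (nat_lit 5) (nat_lit 74153) (nat_lit 12) nil nil) (node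
  (nat_lit 7) (nat_lit 81569) (nat_lit 11) nil nil)) nil) nil) (node (nat_lit 5) (nat_lit 77293)
  (nat_lit 8) (node (nat_lit 4) (nat_lit 76677) (nat_lit 9) nil nil) (node (nat_lit 6) (nat_lit
  81923) (nat_lit 8) nil nil))) (node (nat_lit 4) (nat_lit 75269) (nat_lit 7) (node (nat_lit 7)
  (nat_lit 80663) (nat_lit 8) (node (nat_lit 5) (nat_lit 84833) (nat_lit 9) (node (nat_lit 7)
  (nat_lit 84475) (nat_lit 10) (node (nat_lit 4) (nat_lit 85366) (nat_lit 11) (node (nat_lit 5)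
  (nat_lit 85670) (nat_lit 12) nil nil) nil) nil) nil) (node (nat_lit 6) (nat_lit 82202) (nat_lit
  8) nil nil)) (node (nat_lit 6) (nat_lit 30774) (nat_lit 7) nil (node (nat_lit 0) (nat_lit 75582)
  (nat_lit 7) nil nil)))) (node (nat_lit 7) (nat_lit 0) (nat_lit 6) (node (nat_lit 5) (nat_lit
  76833) (nat_lit 7) (node (nat_lit 4) (nat_lit 83211) (nat_lit 8) (node (nat_lit 5) (nat_lit
  87022) (nat_lit 9) (node (nat_lit 7) (nat_lit 86658) (nat_lit 10) (node (nat_lit 4) (nat_lit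
  80454) (nat_lit 11) nil nil) (node (nat_lit 6) (nat_lit 76461) (nat_lit 10) (node (nat_lit 7)
  (nat_lit 62736) (nat_lit 11) nil nil) nil)) nil) (node (nat_lit 7) (nat_lit 81098) (nat_lit 8)
  (node (nat_lit 4) (nat_lit 83663) (nat_lit 9) nil nil) (node (nat_lit 0) (nat_lit 83767)
  (nat_lit 8) nil nil))) (node (nat_lit 6) (nat_lit 86724) (nat_lit 7) nil (node (nat_lit 0)
  (nat_lit 83783) (nat_lit 7) nil nil))) (node (nat_lit 6) (nat_lit 92978) (nat_lit 6) (node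
  (nat_lit 4) (nat_lit 92978) (nat_lit 7) nil nil) (node (nat_lit 0) (nat_lit 86680) (nat_lit 6)
  nil nil)))) (node (nat_lit 0) (nat_lit 85939) (nat_lit 5) (node (nat_lit 6) (nat_lit 87169)
  (nat_lit 6) nil nil) nil)))) (node (nat_lit 4) (nat_lit 0) (nat_lit 4) (node (nat_lit 6)
  (nat_lit 0) (nat_lit 5) (node (nat_lit 5) (nat_lit 87385) (nat_lit 6) (node (nat_lit 4) (nat_lit
  87947) (nat_lit 7) (node (nat_lit 5) (nat_lit 89330) (nat_lit 8) (node (nat_lit 3) (nat_lit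
  89983) (nat_lit 9) (node (nat_lit 4) (nat_lit 90795) (nat_lit 10) (node (nat_lit 5) (nat_lit
  92093) (nat_lit 11) (node (nat_lit 4) (nat_lit 92914) (nat_lit 12) (node (nat_lit 12) (nat_lit
  91385) (nat_lit 13) nil nil) nil) (node (nat_lit 12) (nat_lit 90673) (nat_lit 11) nil nil))
  (node (nat_lit 5) (nat_lit 90029) (nat_lit 10) (node (nat_lit 4) (nat_lit 89707) (nat_lit 11)
  nil nil) (node (nat_lit 6) (nat_lit 93731) (nat_lit 10) nil (node (nat_lit 0) (nat_lit 93731)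
  (nat_lit 10) nil nil)))) (node (nat_lit 6) (nat_lit 95674) (nat_lit 9) (node (nat_lit 4)
  (nat_lit 95674) (nat_lit 10) (node (nat_lit 6) (nat_lit 56396) (nat_lit 11) nil nil) (node
  (nat_lit 5) (nat_lit 95674) (nat_lit 10) nil nil)) (node (nat_lit 0) (nat_lit 94903) (nat_lit 9)
  nil nil))) (node (nat_lit 3) (nat_lit 89657) (nat_lit 8) (node (nat_lit 4) (nat_lit 89974)
  (nat_lit 9) (node (nat_lit 5) (nat_lit 88966) (nat_lit 10) (node (nat_lit 11) (nat_lit 88864)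
  (nat_lit 11) nil (node (nat_lit 4) (nat_lit 88692) (nat_lit 11) nil nil)) (node (nat_lit 6)
  (nat_lit 93541) (nat_lit 10) nil (node (nat_lit 0) (nat_lit 93541) (nat_lit 10) nil nil))) (node
  (nat_lit 5) (nat_lit 89939) (nat_lit 9) (node (nat_lit 11) (nat_lit 90965) (nat_lit 10) (node
  (nat_lit 4) (nat_lit 92248) (nat_lit 11) nil nil) (node (nat_lit 4) (nat_lit 89939) (nat_lit 10)
  nil nil)) (node (nat_lit 6) (nat_lit 93901) (nat_lit 9) nil (node (nat_lit 0) (nat_lit 94809)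
  (nat_lit 9) nil nil)))) (node (nat_lit 0) (nat_lit 95129) (nat_lit 8) nil nil))) (node (nat_lit
  6) (nat_lit 94917) (nat_lit 7) (node (nat_lit 4) (nat_lit 94917) (nat_lit 8) nil (node (nat_lit
  3) (nat_lit 95581) (nat_lit 8) nil nil)) (node (nat_lit 3) (nat_lit 87712) (nat_lit 7) (node
  (nat_lit 4) (nat_lit 87712) (nat_lit 8) (node (nat_lit 5) (nat_lit 87712) (nat_lit 9) nil nil)
  (node (nat_lit 5) (nat_lit 87712) (nat_lit 8) nil (node (nat_lit 6) (nat_lit 92121) (nat_lit 8)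
  nil (node (nat_lit 0) (nat_lit 90614) (nat_lit 8) nil nil)))) (node (nat_lit 0) (nat_lit 94128)
  (nat_lit 7) nil nil)))) (node (nat_lit 3) (nat_lit 87923) (nat_lit 6) (node (nat_lit 4) (nat_lit
  87925) (nat_lit 7) (node (nat_lit 9) (nat_lit 89585) (nat_lit 8) (node (nat_lit 5) (nat_lit
  89339) (nat_lit 9) (node (nat_lit 4) (nat_lit 88970) (nat_lit 10) (node (nat_lit 5) (nat_lit
  88697) (nat_lit 11) nil nil) (node (nat_lit 9) (nat_lit 89339) (nat_lit 10) nil nil)) (node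
  (nat_lit 6) (nat_lit 95572) (nat_lit 9) (node (nat_lit 9) (nat_lit 95572) (nat_lit 10) nil nil)
  (node (nat_lit 0) (nat_lit 95561) (nat_lit 9) nil nil))) (node (nat_lit 5) (nat_lit 87896)
  (nat_lit 8) (node (nat_lit 9) (nat_lit 87896) (nat_lit 9) nil (node (nat_lit 4) (nat_lit 87896)
  (nat_lit 9) (node (nat_lit 9) (nat_lit 87896) (nat_lit 10) nil nil) (node (nat_lit 0) (nat_lit
  91223) (nat_lit 9) nil nil))) (node (nat_lit 0) (nat_lit 93121) (nat_lit 8) nil nil))) (node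
  (nat_lit 5) (nat_lit 87923) (nat_lit 7) nil (node (nat_lit 6) (nat_lit 91368) (nat_lit 7) nil
  (node (nat_lit 0) (nat_lit 90165) (nat_lit 7) nil nil)))) (node (nat_lit 0) (nat_lit 91057)
  (nat_lit 6) nil nil))) (node (nat_lit 5) (nat_lit 0) (nat_lit 5) (node (nat_lit 4) (nat_lit
  69154) (nat_lit 6) (node (nat_lit 3) (nat_lit 76433) (nat_lit 7) (node (nat_lit 5) (nat_lit
  82621) (nat_lit 8) (node (nat_lit 10) (nat_lit 87962) (nat_lit 9) (node (nat_lit 4) (nat_lit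
  89735) (nat_lit 10) (node (nat_lit 10) (nat_lit 91558) (nat_lit 11) (node (nat_lit 5) (nat_lit
  91184) (nat_lit 12) nil nil) nil) nil) (node (nat_lit 4) (nat_lit 84979) (nat_lit 9) nil (node
  (nat_lit 6) (nat_lit 90332) (nat_lit 9) nil (node (nat_lit 0) (nat_lit 90332) (nat_lit 9) nil
  nil)))) (node (nat_lit 4) (nat_lit 80392) (nat_lit 8) (node (nat_lit 5) (nat_lit 82836) (nat_lit
  9) nil nil) (node (nat_lit 6) (nat_lit 91800) (nat_lit 8) nil (node (nat_lit 0) (nat_lit 88929)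
  (nat_lit 8) nil nil)))) (node (nat_lit 6) (nat_lit 94566) (nat_lit 7) (node (nat_lit 5) (nat_lit
  94566) (nat_lit 8) nil nil) (node (nat_lit 0) (nat_lit 89661) (nat_lit 7) nil nil))) (node
  (nat_lit 3) (nat_lit 69259) (nat_lit 6) (node (nat_lit 4) (nat_lit 74730) (nat_lit 7) (node
  (nat_lit 5) (nat_lit 79228) (nat_lit 8) (node (nat_lit 4) (nat_lit 81657) (nat_lit 9) (node
  (nat_lit 9) (nat_lit 79820) (nat_lit 10) (node (nat_lit 4) (nat_lit 79064) (nat_lit 11) (node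
  (nat_lit 5) (nat_lit 76578) (nat_lit 12) nil nil) nil) nil) (node (nat_lit 6) (nat_lit 74700)
  (nat_lit 9) nil nil)) (node (nat_lit 9) (nat_lit 74872) (nat_lit 8) nil nil)) (node (nat_lit 5)
  (nat_lit 75009) (nat_lit 7) (node (nat_lit 4) (nat_lit 77675) (nat_lit 8) (node (nat_lit 9)
  (nat_lit 80119) (nat_lit 9) nil (node (nat_lit 5) (nat_lit 81391) (nat_lit 9) (node (nat_lit 9)
  (nat_lit 76392) (nat_lit 10) nil nil) nil)) (node (nat_lit 6) (nat_lit 87506) (nat_lit 8) nil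
  nil)) (node (nat_lit 6) (nat_lit 86443) (nat_lit 7) nil (node (nat_lit 0) (nat_lit 80791)
  (nat_lit 7) nil nil)))) (node (nat_lit 0) (nat_lit 86590) (nat_lit 6) nil nil))) (node (nat_lit
  3) (nat_lit 0) (nat_lit 5) (node (nat_lit 5) (nat_lit 69285) (nat_lit 6) (node (nat_lit 4)
  (nat_lit 76218) (nat_lit 7) (node (nat_lit 8) (nat_lit 81156) (nat_lit 8) (node (nat_lit 4)
  (nat_lit 85917) (nat_lit 9) (node (nat_lit 5) (nat_lit 87816) (nat_lit 10) nil nil) nil) (node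
  (nat_lit 5) (nat_lit 77694) (nat_lit 8) (node (nat_lit 8) (nat_lit 77201) (nat_lit 9) nil nil)
  (node (nat_lit 6) (nat_lit 83151) (nat_lit 8) nil nil))) (node (nat_lit 8) (nat_lit 74327)
  (nat_lit 7) (node (nat_lit 4) (nat_lit 78615) (nat_lit 8) (node (nat_lit 5) (nat_lit 80825)
  (nat_lit 9) (node (nat_lit 4) (nat_lit 82513) (nat_lit 10) (node (nat_lit 8) (nat_lit 79221)
  (nat_lit 11) nil nil) nil) nil) (node (nat_lit 6) (nat_lit 81260) (nat_lit 8) nil nil)) (node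
  (nat_lit 6) (nat_lit 83291) (nat_lit 7) nil (node (nat_lit 0) (nat_lit 75674) (nat_lit 7) nil
  nil)))) (node (nat_lit 4) (nat_lit 0) (nat_lit 6) (node (nat_lit 5) (nat_lit 76584) (nat_lit 7)
  (node (nat_lit 8) (nat_lit 81538) (nat_lit 8) (node (nat_lit 5) (nat_lit 84915) (nat_lit 9)
  (node (nat_lit 4) (nat_lit 84545) (nat_lit 10) nil nil) nil) (node (nat_lit 4) (nat_lit 77754)
  (nat_lit 8) (node (nat_lit 8) (nat_lit 77262) (nat_lit 9) nil nil) (node (nat_lit 6) (nat_lit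
  61815) (nat_lit 8) (node (nat_lit 4) (nat_lit 33616) (nat_lit 9) nil nil) (node (nat_lit 0)
  (nat_lit 83517) (nat_lit 8) nil nil)))) (node (nat_lit 6) (nat_lit 83824) (nat_lit 7) nil (node
  (nat_lit 0) (nat_lit 83824) (nat_lit 7) nil nil))) (node (nat_lit 6) (nat_lit 92588) (nat_lit 6)
  (node (nat_lit 8) (nat_lit 92588) (nat_lit 7) nil nil) (node (nat_lit 0) (nat_lit 86290)
  (nat_lit 6) nil nil)))) (node (nat_lit 0) (nat_lit 86374) (nat_lit 5) nil nil)))) (node (nat_lit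
  5) (nat_lit 0) (nat_lit 4) (node (nat_lit 3) (nat_lit 0) (nat_lit 5) (node (nat_lit 4) (nat_lit
  69577) (nat_lit 6) (node (nat_lit 8) (nat_lit 74241) (nat_lit 7) (node (nat_lit 5) (nat_lit
  75871) (nat_lit 8) (node (nat_lit 4) (nat_lit 75256) (nat_lit 9) nil (node (nat_lit 8) (nat_lit
  78436) (nat_lit 9) nil (node (nat_lit 6) (nat_lit 83120) (nat_lit 9) nil nil))) (node (nat_lit
  6) (nat_lit 81174) (nat_lit 8) nil nil)) (node (nat_lit 5) (nat_lit 74743) (nat_lit 7) (node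
  (nat_lit 4) (nat_lit 76892) (nat_lit 8) (node (nat_lit 8) (nat_lit 76399) (nat_lit 9) nil nil)
  (node (nat_lit 8) (nat_lit 78333) (nat_lit 8) (node (nat_lit 5) (nat_lit 80898) (nat_lit 9) nil
  nil) (node (nat_lit 6) (nat_lit 58660) (nat_lit 8) (node (nat_lit 5) (nat_lit 33210) (nat_lit 9)
  nil nil) nil))) (node (nat_lit 6) (nat_lit 80871) (nat_lit 7) nil (node (nat_lit 0) (nat_lit
  83583) (nat_lit 7) nil nil)))) (node (nat_lit 5) (nat_lit 69268) (nat_lit 6) (node (nat_lit 4)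
  (nat_lit 75973) (nat_lit 7) (node (nat_lit 8) (nat_lit 79227) (nat_lit 8) (node (nat_lit 4)
  (nat_lit 83989) (nat_lit 9) (node (nat_lit 5) (nat_lit 85888) (nat_lit 10) nil nil) (node
  (nat_lit 5) (nat_lit 78612) (nat_lit 9) nil nil)) (node (nat_lit 5) (nat_lit 81338) (nat_lit 8)
  (node (nat_lit 8) (nat_lit 86076) (nat_lit 9) nil nil) (node (nat_lit 0) (nat_lit 82907)
  (nat_lit 8) nil (node (nat_lit 6) (nat_lit 82907) (nat_lit 8) nil nil)))) (node (nat_lit 6)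
  (nat_lit 93385) (nat_lit 7) (node (nat_lit 8) (nat_lit 93385) (nat_lit 8) nil nil) (node
  (nat_lit 0) (nat_lit 75656) (nat_lit 7) nil nil))) (node (nat_lit 6) (nat_lit 89172) (nat_lit 6)
  (node (nat_lit 8) (nat_lit 89172) (nat_lit 7) nil nil) (node (nat_lit 0) (nat_lit 83421)
  (nat_lit 6) nil nil)))) (node (nat_lit 4) (nat_lit 0) (nat_lit 5) (node (nat_lit 3) (nat_lit
  68286) (nat_lit 6) (node (nat_lit 4) (nat_lit 73691) (nat_lit 7) (node (nat_lit 5) (nat_lit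
  77209) (nat_lit 8) (node (nat_lit 9) (nat_lit 81000) (nat_lit 9) (node (nat_lit 5) (nat_lit
  82254) (nat_lit 10) (node (nat_lit 4) (nat_lit 79960) (nat_lit 11) (node (nat_lit 5) (nat_lit
  78257) (nat_lit 12) nil nil) nil) nil) (node (nat_lit 4) (nat_lit 80399) (nat_lit 9) (node
  (nat_lit 9) (nat_lit 80010) (nat_lit 10) nil nil) (node (nat_lit 6) (nat_lit 61072) (nat_lit 9)
  nil nil))) (node (nat_lit 6) (nat_lit 80976) (nat_lit 8) nil nil)) (node (nat_lit 5) (nat_lit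
  74632) (nat_lit 7) (node (nat_lit 9) (nat_lit 78528) (nat_lit 8) (node (nat_lit 4) (nat_lit
  80972) (nat_lit 9) nil nil) (node (nat_lit 4) (nat_lit 76093) (nat_lit 8) (node (nat_lit 5)
  (nat_lit 75357) (nat_lit 9) nil nil) nil)) (node (nat_lit 6) (nat_lit 82528) (nat_lit 7) nil
  (node (nat_lit 0) (nat_lit 82528) (nat_lit 7) nil nil)))) (node (nat_lit 5) (nat_lit 68133)
  (nat_lit 6) (node (nat_lit 3) (nat_lit 73038) (nat_lit 7) (node (nat_lit 4) (nat_lit 76233)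
  (nat_lit 8) (node (nat_lit 10) (nat_lit 79299) (nat_lit 9) (node (nat_lit 5) (nat_lit 78323)
  (nat_lit 10) nil nil) (node (nat_lit 5) (nat_lit 79361) (nat_lit 9) (node (nat_lit 6) (nat_lit
  70903) (nat_lit 10) nil nil) nil)) (node (nat_lit 5) (nat_lit 76304) (nat_lit 8) (node (nat_lit
  4) (nat_lit 78151) (nat_lit 9) nil nil) (node (nat_lit 0) (nat_lit 80323) (nat_lit 8) nil (node
  (nat_lit 6) (nat_lit 80323) (nat_lit 8) nil nil)))) (node (nat_lit 6) (nat_lit 56396) (nat_lit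
  7) (node (nat_lit 4) (nat_lit 56396) (nat_lit 8) (node (nat_lit 5) (nat_lit 56396) (nat_lit 9)
  nil nil) nil) (node (nat_lit 0) (nat_lit 82757) (nat_lit 7) nil nil))) (node (nat_lit 6)
  (nat_lit 90123) (nat_lit 6) (node (nat_lit 4) (nat_lit 90123) (nat_lit 7) nil nil) (node
  (nat_lit 0) (nat_lit 85240) (nat_lit 6) nil nil)))) (node (nat_lit 0) (nat_lit 86829) (nat_lit
  5) (node (nat_lit 5) (nat_lit 86829) (nat_lit 6) nil (node (nat_lit 6) (nat_lit 88733) (nat_lit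
  6) nil (node (nat_lit 0) (nat_lit 88059) (nat_lit 6) nil nil))) nil))) (node (nat_lit 0)
  (nat_lit 0) (nat_lit 4) (node (nat_lit 6) (nat_lit 0) (nat_lit 5) (node (nat_lit 5) (nat_lit
  88036) (nat_lit 6) (node (nat_lit 7) (nat_lit 95648) (nat_lit 7) (node (nat_lit 6) (nat_lit
  95916) (nat_lit 8) (node (nat_lit 7) (nat_lit 95916) (nat_lit 9) nil nil) (node (nat_lit 5)
  (nat_lit 95648) (nat_lit 8) nil nil)) (node (nat_lit 6) (nat_lit 92625) (nat_lit 7) nil (node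
  (nat_lit 0) (nat_lit 89961) (nat_lit 7) nil nil))) (node (nat_lit 0) (nat_lit 93344) (nat_lit 6)
  (node (nat_lit 7) (nat_lit 94566) (nat_lit 7) nil (node (nat_lit 6) (nat_lit 94038) (nat_lit 7)
  nil nil)) (node (nat_lit 3) (nat_lit 88343) (nat_lit 6) (node (nat_lit 7) (nat_lit 92932)
  (nat_lit 7) nil (node (nat_lit 6) (nat_lit 91469) (nat_lit 7) nil (node (nat_lit 5) (nat_lit
  88343) (nat_lit 7) nil nil))) (node (nat_lit 4) (nat_lit 88343) (nat_lit 6) (node (nat_lit 7)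
  (nat_lit 92932) (nat_lit 7) nil (node (nat_lit 6) (nat_lit 91469) (nat_lit 7) nil (node (nat_lit
  5) (nat_lit 88343) (nat_lit 7) nil nil))) nil)))) (node (nat_lit 5) (nat_lit 0) (nat_lit 5)
  (node (nat_lit 7) (nat_lit 92884) (nat_lit 6) (node (nat_lit 6) (nat_lit 95040) (nat_lit 7)
  (node (nat_lit 7) (nat_lit 95442) (nat_lit 8) (node (nat_lit 5) (nat_lit 95442) (nat_lit 9) nil
  nil) nil) (node (nat_lit 0) (nat_lit 93578) (nat_lit 7) nil nil)) (node (nat_lit 3) (nat_lit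
  75971) (nat_lit 6) (node (nat_lit 5) (nat_lit 75971) (nat_lit 7) nil (node (nat_lit 6) (nat_lit
  79794) (nat_lit 7) nil (node (nat_lit 7) (nat_lit 79794) (nat_lit 7) nil nil))) (node (nat_lit
  4) (nat_lit 75971) (nat_lit 6) (node (nat_lit 5) (nat_lit 75971) (nat_lit 7) nil (node (nat_lit
  6) (nat_lit 79794) (nat_lit 7) nil (node (nat_lit 7) (nat_lit 79794) (nat_lit 7) nil nil)))
  (node (nat_lit 0) (nat_lit 90796) (nat_lit 6) nil (node (nat_lit 6) (nat_lit 89267) (nat_lit 6)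
  (node (nat_lit 5) (nat_lit 89267) (nat_lit 7) nil nil) nil))))) (node (nat_lit 3) (nat_lit 0)
  (nat_lit 5) (node (nat_lit 5) (nat_lit 76510) (nat_lit 6) (node (nat_lit 8) (nat_lit 76510)
  (nat_lit 7) nil (node (nat_lit 7) (nat_lit 80333) (nat_lit 7) nil nil)) (node (nat_lit 7)
  (nat_lit 89805) (nat_lit 6) nil (node (nat_lit 4) (nat_lit 76510) (nat_lit 6) nil (node (nat_lit
  6) (nat_lit 85893) (nat_lit 6) nil (node (nat_lit 0) (nat_lit 82860) (nat_lit 6) nil nil)))))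
  (node (nat_lit 4) (nat_lit 0) (nat_lit 5) (node (nat_lit 5) (nat_lit 77277) (nat_lit 6) (node
  (nat_lit 4) (nat_lit 77277) (nat_lit 7) nil (node (nat_lit 7) (nat_lit 81100) (nat_lit 7) nil
  nil)) (node (nat_lit 7) (nat_lit 90573) (nat_lit 6) nil (node (nat_lit 3) (nat_lit 77277)
  (nat_lit 6) nil (node (nat_lit 6) (nat_lit 86661) (nat_lit 6) nil (node (nat_lit 0) (nat_lit
  83628) (nat_lit 6) nil nil))))) (node (nat_lit 0) (nat_lit 86829) (nat_lit 5) (node (nat_lit 7)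
  (nat_lit 88733) (nat_lit 6) nil (node (nat_lit 6) (nat_lit 88059) (nat_lit 6) nil nil)) nil)))))
  nil))))

noncomputable def t439 : Tr :=
  (node (nat_lit 0) (nat_lit 0) (nat_lit 4) (node (nat_lit 6) (nat_lit 0) (nat_lit 5) (node
  (nat_lit 5) (nat_lit 56299) (nat_lit 6) (node (nat_lit 7) (nat_lit 79168) (nat_lit 7) (node
  (nat_lit 6) (nat_lit 79738) (nat_lit 8) (node (nat_lit 7) (nat_lit 81428) (nat_lit 9) (node
  (nat_lit 5) (nat_lit 81428) (nat_lit 10) (node (nat_lit 6) (nat_lit 81428) (nat_lit 11) (node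
  (nat_lit 5) (nat_lit 81428) (nat_lit 12) (node (nat_lit 7) (nat_lit 82668) (nat_lit 13) (node
  (nat_lit 5) (nat_lit 82668) (nat_lit 14) nil nil) (node (nat_lit 4) (nat_lit 81428) (nat_lit 13)
  nil nil)) (node (nat_lit 4) (nat_lit 81428) (nat_lit 12) nil (node (nat_lit 7) (nat_lit 82513)
  (nat_lit 12) nil nil))) (node (nat_lit 7) (nat_lit 82323) (nat_lit 11) (node (nat_lit 6)
  (nat_lit 82323) (nat_lit 12) (node (nat_lit 5) (nat_lit 82323) (nat_lit 13) nil nil) nil) (node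
  (nat_lit 4) (nat_lit 81428) (nat_lit 11) nil (node (nat_lit 0) (nat_lit 81864) (nat_lit 11) nil
  nil)))) (node (nat_lit 4) (nat_lit 81428) (nat_lit 10) nil (node (nat_lit 0) (nat_lit 81660)
  (nat_lit 10) nil nil))) (node (nat_lit 4) (nat_lit 79738) (nat_lit 9) (node (nat_lit 6) (nat_lit
  79738) (nat_lit 10) (node (nat_lit 5) (nat_lit 79738) (nat_lit 11) nil (node (nat_lit 7)
  (nat_lit 81009) (nat_lit 11) nil (node (nat_lit 0) (nat_lit 81009) (nat_lit 11) nil nil))) (node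
  (nat_lit 5) (nat_lit 79738) (nat_lit 10) (node (nat_lit 4) (nat_lit 79738) (nat_lit 11) nil nil)
  (node (nat_lit 7) (nat_lit 81548) (nat_lit 10) nil (node (nat_lit 0) (nat_lit 80806) (nat_lit
  10) nil nil)))) (node (nat_lit 0) (nat_lit 81428) (nat_lit 9) (node (nat_lit 6) (nat_lit 81428)
  (nat_lit 10) nil (node (nat_lit 7) (nat_lit 81660) (nat_lit 10) nil nil)) nil))) (node (nat_lit
  5) (nat_lit 79168) (nat_lit 8) (node (nat_lit 6) (nat_lit 79168) (nat_lit 9) (node (nat_lit 7)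
  (nat_lit 80977) (nat_lit 10) (node (nat_lit 5) (nat_lit 80977) (nat_lit 11) nil nil) nil) (node
  (nat_lit 4) (nat_lit 79168) (nat_lit 9) nil nil)) (node (nat_lit 4) (nat_lit 79168) (nat_lit 8)
  nil (node (nat_lit 0) (nat_lit 79697) (nat_lit 8) nil nil)))) (node (nat_lit 4) (nat_lit 62063)
  (nat_lit 7) (node (nat_lit 6) (nat_lit 66578) (nat_lit 8) (node (nat_lit 4) (nat_lit 69209)
  (nat_lit 9) (node (nat_lit 5) (nat_lit 71480) (nat_lit 10) nil (node (nat_lit 7) (nat_lit 74653)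
  (nat_lit 10) nil nil)) (node (nat_lit 5) (nat_lit 70303) (nat_lit 9) (node (nat_lit 6) (nat_lit
  72574) (nat_lit 10) nil nil) (node (nat_lit 0) (nat_lit 76635) (nat_lit 9) nil (node (nat_lit 7)
  (nat_lit 76635) (nat_lit 9) nil nil)))) (node (nat_lit 5) (nat_lit 67377) (nat_lit 8) (node
  (nat_lit 6) (nat_lit 69247) (nat_lit 9) (node (nat_lit 4) (nat_lit 71518) (nat_lit 10) nil (node
  (nat_lit 5) (nat_lit 71518) (nat_lit 10) nil (node (nat_lit 7) (nat_lit 37635) (nat_lit 10) nil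
  nil))) (node (nat_lit 7) (nat_lit 80030) (nat_lit 9) nil (node (nat_lit 0) (nat_lit 77434)
  (nat_lit 9) nil nil))) (node (nat_lit 0) (nat_lit 80089) (nat_lit 8) nil (node (nat_lit 7)
  (nat_lit 78535) (nat_lit 8) nil nil)))) (node (nat_lit 6) (nat_lit 62256) (nat_lit 7) (node
  (nat_lit 7) (nat_lit 80796) (nat_lit 8) (node (nat_lit 5) (nat_lit 80796) (nat_lit 9) (node
  (nat_lit 6) (nat_lit 80796) (nat_lit 10) (node (nat_lit 5) (nat_lit 80796) (nat_lit 11) (node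
  (nat_lit 7) (nat_lit 81724) (nat_lit 12) nil nil) nil) (node (nat_lit 7) (nat_lit 81942)
  (nat_lit 10) (node (nat_lit 6) (nat_lit 81942) (nat_lit 11) (node (nat_lit 5) (nat_lit 81942)
  (nat_lit 12) nil nil) nil) nil)) (node (nat_lit 0) (nat_lit 81101) (nat_lit 9) nil (node
  (nat_lit 4) (nat_lit 80796) (nat_lit 9) nil nil))) (node (nat_lit 4) (nat_lit 66871) (nat_lit 8)
  (node (nat_lit 5) (nat_lit 66232) (nat_lit 9) nil (node (nat_lit 6) (nat_lit 68505) (nat_lit 9)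
  nil (node (nat_lit 7) (nat_lit 72083) (nat_lit 9) nil nil))) (node (nat_lit 0) (nat_lit 74616)
  (nat_lit 8) nil nil))) (node (nat_lit 0) (nat_lit 77636) (nat_lit 7) (node (nat_lit 6) (nat_lit
  77636) (nat_lit 8) nil (node (nat_lit 5) (nat_lit 77636) (nat_lit 8) nil (node (nat_lit 0)
  (nat_lit 78166) (nat_lit 8) nil (node (nat_lit 7) (nat_lit 78166) (nat_lit 8) nil nil))))
  nil)))) (node (nat_lit 4) (nat_lit 57669) (nat_lit 6) (node (nat_lit 5) (nat_lit 63038) (nat_lit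
  7) (node (nat_lit 6) (nat_lit 66765) (nat_lit 8) (node (nat_lit 5) (nat_lit 70090) (nat_lit 9)
  (node (nat_lit 4) (nat_lit 70231) (nat_lit 10) nil nil) (node (nat_lit 4) (nat_lit 68657)
  (nat_lit 9) (node (nat_lit 6) (nat_lit 68967) (nat_lit 10) nil nil) (node (nat_lit 0) (nat_lit
  78747) (nat_lit 9) nil (node (nat_lit 7) (nat_lit 38145) (nat_lit 9) nil nil)))) (node (nat_lit
  4) (nat_lit 67761) (nat_lit 8) (node (nat_lit 6) (nat_lit 70949) (nat_lit 9) (node (nat_lit 5)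
  (nat_lit 72203) (nat_lit 10) (node (nat_lit 6) (nat_lit 73365) (nat_lit 11) (node (nat_lit 4)
  (nat_lit 73251) (nat_lit 12) (node (nat_lit 5) (nat_lit 71562) (nat_lit 13) (node (nat_lit 6)
  (nat_lit 71705) (nat_lit 14) nil nil) nil) nil) nil) (node (nat_lit 7) (nat_lit 76394) (nat_lit
  10) nil nil)) (node (nat_lit 7) (nat_lit 79212) (nat_lit 9) nil (node (nat_lit 0) (nat_lit
  77819) (nat_lit 9) nil nil))) (node (nat_lit 0) (nat_lit 79788) (nat_lit 8) nil (node (nat_lit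
  7) (nat_lit 78962) (nat_lit 8) nil nil)))) (node (nat_lit 6) (nat_lit 62263) (nat_lit 7) (node
  (nat_lit 5) (nat_lit 66547) (nat_lit 8) (node (nat_lit 4) (nat_lit 68744) (nat_lit 9) nil (node
  (nat_lit 6) (nat_lit 67981) (nat_lit 9) nil (node (nat_lit 7) (nat_lit 79687) (nat_lit 9) nil
  (node (nat_lit 0) (nat_lit 74933) (nat_lit 9) nil nil)))) (node (nat_lit 7) (nat_lit 80627)
  (nat_lit 8) (node (nat_lit 4) (nat_lit 80627) (nat_lit 9) (node (nat_lit 7) (nat_lit 81601)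
  (nat_lit 10) (node (nat_lit 6) (nat_lit 81601) (nat_lit 11) nil nil) nil) nil) (node (nat_lit 0)
  (nat_lit 79171) (nat_lit 8) nil nil))) (node (nat_lit 7) (nat_lit 79444) (nat_lit 7) (node
  (nat_lit 4) (nat_lit 79444) (nat_lit 8) (node (nat_lit 6) (nat_lit 79444) (nat_lit 9) (node
  (nat_lit 7) (nat_lit 80511) (nat_lit 10) nil nil) nil) (node (nat_lit 6) (nat_lit 79444)
  (nat_lit 8) (node (nat_lit 7) (nat_lit 80279) (nat_lit 9) nil nil) (node (nat_lit 5) (nat_lit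
  79444) (nat_lit 8) nil (node (nat_lit 0) (nat_lit 79974) (nat_lit 8) nil nil)))) (node (nat_lit
  0) (nat_lit 79157) (nat_lit 7) (node (nat_lit 6) (nat_lit 79157) (nat_lit 8) nil (node (nat_lit
  4) (nat_lit 79157) (nat_lit 8) nil (node (nat_lit 0) (nat_lit 79687) (nat_lit 8) nil nil)))
  nil)))) (node (nat_lit 0) (nat_lit 74086) (nat_lit 6) (node (nat_lit 7) (nat_lit 79168) (nat_lit
  7) (node (nat_lit 6) (nat_lit 79168) (nat_lit 8) (node (nat_lit 7) (nat_lit 80969) (nat_lit 9)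
  (node (nat_lit 9) (nat_lit 81202) (nat_lit 10) nil nil) (node (nat_lit 5) (nat_lit 79168)
  (nat_lit 9) nil (node (nat_lit 4) (nat_lit 79168) (nat_lit 9) nil (node (nat_lit 0) (nat_lit
  80002) (nat_lit 9) nil nil)))) (node (nat_lit 9) (nat_lit 80231) (nat_lit 8) nil nil)) (node
  (nat_lit 6) (nat_lit 73682) (nat_lit 7) (node (nat_lit 7) (nat_lit 78191) (nat_lit 8) (node
  (nat_lit 9) (nat_lit 78496) (nat_lit 9) nil nil) (node (nat_lit 4) (nat_lit 73682) (nat_lit 8)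
  nil (node (nat_lit 5) (nat_lit 73682) (nat_lit 8) nil (node (nat_lit 0) (nat_lit 74884) (nat_lit
  8) nil nil)))) (node (nat_lit 5) (nat_lit 74086) (nat_lit 7) (node (nat_lit 6) (nat_lit 74086)
  (nat_lit 8) nil (node (nat_lit 7) (nat_lit 76558) (nat_lit 8) nil (node (nat_lit 9) (nat_lit
  75288) (nat_lit 8) nil nil))) (node (nat_lit 0) (nat_lit 77909) (nat_lit 7) (node (nat_lit 4)
  (nat_lit 77909) (nat_lit 8) nil nil) (node (nat_lit 4) (nat_lit 74086) (nat_lit 7) (node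
  (nat_lit 9) (nat_lit 75288) (nat_lit 8) nil (node (nat_lit 7) (nat_lit 75288) (nat_lit 8) nil
  (node (nat_lit 6) (nat_lit 74086) (nat_lit 8) nil nil))) nil))))) nil))) (node (nat_lit 5)
  (nat_lit 0) (nat_lit 5) (node (nat_lit 7) (nat_lit 73661) (nat_lit 6) (node (nat_lit 6) (nat_lit
  74495) (nat_lit 7) (node (nat_lit 7) (nat_lit 80796) (nat_lit 8) (node (nat_lit 5) (nat_lit
  80796) (nat_lit 9) (node (nat_lit 6) (nat_lit 80796) (nat_lit 10) (node (nat_lit 5) (nat_lit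
  80796) (nat_lit 11) (node (nat_lit 7) (nat_lit 82590) (nat_lit 12) (node (nat_lit 6) (nat_lit
  82590) (nat_lit 13) nil (node (nat_lit 5) (nat_lit 82590) (nat_lit 13) nil nil)) (node (nat_lit
  4) (nat_lit 80796) (nat_lit 12) (node (nat_lit 6) (nat_lit 80796) (nat_lit 13) nil (node
  (nat_lit 5) (nat_lit 80796) (nat_lit 13) nil nil)) (node (nat_lit 0) (nat_lit 81724) (nat_lit
  12) nil nil))) (node (nat_lit 7) (nat_lit 82323) (nat_lit 11) (node (nat_lit 6) (nat_lit 82323)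
  (nat_lit 12) (node (nat_lit 5) (nat_lit 82323) (nat_lit 13) (node (nat_lit 6) (nat_lit 82323)
  (nat_lit 14) nil nil) nil) nil) (node (nat_lit 4) (nat_lit 80796) (nat_lit 11) (node (nat_lit 6)
  (nat_lit 80796) (nat_lit 12) nil (node (nat_lit 5) (nat_lit 80796) (nat_lit 12) nil nil)) (node
  (nat_lit 0) (nat_lit 82151) (nat_lit 11) nil nil)))) (node (nat_lit 4) (nat_lit 80796) (nat_lit
  10) nil (node (nat_lit 0) (nat_lit 81771) (nat_lit 10) nil nil))) nil) (node (nat_lit 5)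
  (nat_lit 74495) (nat_lit 8) nil nil)) nil) (node (nat_lit 6) (nat_lit 56817) (nat_lit 6) (node
  (nat_lit 5) (nat_lit 61328) (nat_lit 7) (node (nat_lit 7) (nat_lit 79971) (nat_lit 8) (node
  (nat_lit 6) (nat_lit 79971) (nat_lit 9) (node (nat_lit 7) (nat_lit 80946) (nat_lit 10) nil nil)
  nil) (node (nat_lit 4) (nat_lit 61328) (nat_lit 8) nil (node (nat_lit 0) (nat_lit 66235)
  (nat_lit 8) nil nil))) (node (nat_lit 4) (nat_lit 57534) (nat_lit 7) (node (nat_lit 5) (nat_lit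
  57534) (nat_lit 8) nil nil) (node (nat_lit 0) (nat_lit 65221) (nat_lit 7) nil nil))) (node
  (nat_lit 4) (nat_lit 57266) (nat_lit 6) (node (nat_lit 6) (nat_lit 60426) (nat_lit 7) (node
  (nat_lit 4) (nat_lit 61995) (nat_lit 8) (node (nat_lit 5) (nat_lit 61356) (nat_lit 9) nil nil)
  (node (nat_lit 5) (nat_lit 62897) (nat_lit 8) (node (nat_lit 4) (nat_lit 62897) (nat_lit 9) nil
  nil) nil)) (node (nat_lit 5) (nat_lit 58558) (nat_lit 7) (node (nat_lit 6) (nat_lit 58558)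
  (nat_lit 8) (node (nat_lit 7) (nat_lit 30925) (nat_lit 9) nil nil) nil) (node (nat_lit 7)
  (nat_lit 71166) (nat_lit 7) nil (node (nat_lit 0) (nat_lit 65671) (nat_lit 7) nil nil)))) (node
  (nat_lit 0) (nat_lit 70676) (nat_lit 6) nil nil)))) (node (nat_lit 4) (nat_lit 0) (nat_lit 5)
  (node (nat_lit 6) (nat_lit 0) (nat_lit 6) (node (nat_lit 4) (nat_lit 60500) (nat_lit 7) (node
  (nat_lit 7) (nat_lit 78416) (nat_lit 8) (node (nat_lit 6) (nat_lit 78416) (nat_lit 9) (node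
  (nat_lit 7) (nat_lit 78954) (nat_lit 10) nil nil) nil) nil) (node (nat_lit 5) (nat_lit 58193)
  (nat_lit 7) nil (node (nat_lit 0) (nat_lit 65191) (nat_lit 7) nil (node (nat_lit 7) (nat_lit
  63799) (nat_lit 7) nil nil)))) (node (nat_lit 7) (nat_lit 73581) (nat_lit 6) (node (nat_lit 6)
  (nat_lit 73295) (nat_lit 7) (node (nat_lit 7) (nat_lit 78033) (nat_lit 8) (node (nat_lit 4)
  (nat_lit 78033) (nat_lit 9) (node (nat_lit 6) (nat_lit 78033) (nat_lit 10) nil nil) nil) nil)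
  nil) (node (nat_lit 5) (nat_lit 56189) (nat_lit 6) (node (nat_lit 6) (nat_lit 57441) (nat_lit 7)
  (node (nat_lit 4) (nat_lit 57441) (nat_lit 8) nil (node (nat_lit 5) (nat_lit 57441) (nat_lit 8)
  nil nil)) (node (nat_lit 4) (nat_lit 57146) (nat_lit 7) nil (node (nat_lit 7) (nat_lit 63202)
  (nat_lit 7) nil (node (nat_lit 0) (nat_lit 60567) (nat_lit 7) nil nil)))) (node (nat_lit 0)
  (nat_lit 67025) (nat_lit 6) nil nil)))) (node (nat_lit 0) (nat_lit 0) (nat_lit 5) (node (nat_lit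
  6) (nat_lit 65944) (nat_lit 6) (node (nat_lit 7) (nat_lit 78591) (nat_lit 7) (node (nat_lit 6)
  (nat_lit 78591) (nat_lit 8) (node (nat_lit 8) (nat_lit 80244) (nat_lit 9) nil nil) (node
  (nat_lit 5) (nat_lit 78591) (nat_lit 8) nil (node (nat_lit 0) (nat_lit 79426) (nat_lit 8) nil
  nil))) (node (nat_lit 8) (nat_lit 75390) (nat_lit 7) (node (nat_lit 7) (nat_lit 75919) (nat_lit
  8) nil nil) (node (nat_lit 0) (nat_lit 68050) (nat_lit 7) nil nil))) (node (nat_lit 7) (nat_lit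
  73616) (nat_lit 6) (node (nat_lit 6) (nat_lit 73616) (nat_lit 7) (node (nat_lit 7) (nat_lit
  77689) (nat_lit 8) (node (nat_lit 8) (nat_lit 78348) (nat_lit 9) (node (nat_lit 6) (nat_lit
  78348) (nat_lit 10) nil nil) nil) nil) nil) (node (nat_lit 5) (nat_lit 64431) (nat_lit 6) nil
  (node (nat_lit 4) (nat_lit 64431) (nat_lit 6) nil (node (nat_lit 0) (nat_lit 66888) (nat_lit 6)
  nil nil))))) nil)))) (node (nat_lit 5) (nat_lit 0) (nat_lit 4) (node (nat_lit 0) (nat_lit 0)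
  (nat_lit 5) (node (nat_lit 6) (nat_lit 0) (nat_lit 6) (node (nat_lit 5) (nat_lit 53748) (nat_lit
  7) (node (nat_lit 6) (nat_lit 57903) (nat_lit 8) (node (nat_lit 8) (nat_lit 71346) (nat_lit 9)
  (node (nat_lit 5) (nat_lit 71346) (nat_lit 10) (node (nat_lit 6) (nat_lit 71346) (nat_lit 11)
  (node (nat_lit 5) (nat_lit 71346) (nat_lit 12) nil nil) (node (nat_lit 8) (nat_lit 72376)
  (nat_lit 11) (node (nat_lit 6) (nat_lit 72376) (nat_lit 12) nil nil) nil)) (node (nat_lit 6)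
  (nat_lit 71346) (nat_lit 10) (node (nat_lit 5) (nat_lit 71346) (nat_lit 11) (node (nat_lit 8)
  (nat_lit 71968) (nat_lit 12) nil nil) nil) nil)) (node (nat_lit 4) (nat_lit 61219) (nat_lit 9)
  (node (nat_lit 5) (nat_lit 64086) (nat_lit 10) (node (nat_lit 4) (nat_lit 66235) (nat_lit 11)
  (node (nat_lit 6) (nat_lit 63815) (nat_lit 12) nil nil) (node (nat_lit 6) (nat_lit 65091)
  (nat_lit 11) nil nil)) (node (nat_lit 6) (nat_lit 62789) (nat_lit 10) (node (nat_lit 5) (nat_lit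
  62704) (nat_lit 11) nil (node (nat_lit 8) (nat_lit 66167) (nat_lit 11) nil (node (nat_lit 0)
  (nat_lit 66167) (nat_lit 11) nil nil))) (node (nat_lit 8) (nat_lit 70015) (nat_lit 10) nil (node
  (nat_lit 0) (nat_lit 67559) (nat_lit 10) nil nil)))) (node (nat_lit 0) (nat_lit 70697) (nat_lit
  9) nil nil))) (node (nat_lit 4) (nat_lit 57790) (nat_lit 8) (node (nat_lit 6) (nat_lit 60536)
  (nat_lit 9) (node (nat_lit 4) (nat_lit 62154) (nat_lit 10) (node (nat_lit 5) (nat_lit 63587)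
  (nat_lit 11) nil (node (nat_lit 8) (nat_lit 65531) (nat_lit 11) nil nil)) (node (nat_lit 5)
  (nat_lit 61737) (nat_lit 10) nil (node (nat_lit 8) (nat_lit 69991) (nat_lit 10) nil (node
  (nat_lit 0) (nat_lit 63710) (nat_lit 10) nil nil)))) (node (nat_lit 5) (nat_lit 59837) (nat_lit
  9) (node (nat_lit 6) (nat_lit 61734) (nat_lit 10) (node (nat_lit 5) (nat_lit 63740) (nat_lit 11)
  (node (nat_lit 8) (nat_lit 36631) (nat_lit 12) nil nil) nil) (node (nat_lit 8) (nat_lit 67991)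
  (nat_lit 10) nil (node (nat_lit 0) (nat_lit 67991) (nat_lit 10) nil nil))) (node (nat_lit 8)
  (nat_lit 70401) (nat_lit 9) nil (node (nat_lit 0) (nat_lit 68297) (nat_lit 9) nil nil)))) (node
  (nat_lit 0) (nat_lit 68336) (nat_lit 8) nil nil))) (node (nat_lit 8) (nat_lit 65142) (nat_lit 7)
  (node (nat_lit 5) (nat_lit 65142) (nat_lit 8) (node (nat_lit 6) (nat_lit 65142) (nat_lit 9)
  (node (nat_lit 8) (nat_lit 66209) (nat_lit 10) nil nil) (node (nat_lit 8) (nat_lit 65977)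
  (nat_lit 9) nil nil)) nil) (node (nat_lit 4) (nat_lit 50243) (nat_lit 7) nil (node (nat_lit 0)
  (nat_lit 55775) (nat_lit 7) nil nil)))) (node (nat_lit 5) (nat_lit 50214) (nat_lit 6) (node
  (nat_lit 6) (nat_lit 54172) (nat_lit 7) (node (nat_lit 8) (nat_lit 69296) (nat_lit 8) (node
  (nat_lit 6) (nat_lit 69296) (nat_lit 9) (node (nat_lit 5) (nat_lit 69552) (nat_lit 10) (node
  (nat_lit 8) (nat_lit 71754) (nat_lit 11) (node (nat_lit 5) (nat_lit 71754) (nat_lit 12) (node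
  (nat_lit 6) (nat_lit 71754) (nat_lit 13) nil nil) nil) nil) nil) nil) nil) (node (nat_lit 0)
  (nat_lit 52320) (nat_lit 7) nil nil)) (node (nat_lit 4) (nat_lit 47485) (nat_lit 6) (node
  (nat_lit 5) (nat_lit 47485) (nat_lit 7) (node (nat_lit 4) (nat_lit 47485) (nat_lit 8) nil (node
  (nat_lit 6) (nat_lit 47485) (nat_lit 8) nil nil)) (node (nat_lit 8) (nat_lit 49591) (nat_lit 7)
  nil (node (nat_lit 6) (nat_lit 47485) (nat_lit 7) nil nil))) (node (nat_lit 0) (nat_lit 55197)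
  (nat_lit 6) nil nil)))) nil) (node (nat_lit 4) (nat_lit 0) (nat_lit 4) (node (nat_lit 0)
  (nat_lit 0) (nat_lit 5) (node (nat_lit 6) (nat_lit 0) (nat_lit 6) (node (nat_lit 4) (nat_lit
  47879) (nat_lit 7) (node (nat_lit 6) (nat_lit 50890) (nat_lit 8) (node (nat_lit 8) (nat_lit
  61996) (nat_lit 9) (node (nat_lit 6) (nat_lit 61996) (nat_lit 10) (node (nat_lit 4) (nat_lit
  61996) (nat_lit 11) nil nil) (node (nat_lit 4) (nat_lit 61996) (nat_lit 10) nil nil)) (node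
  (nat_lit 5) (nat_lit 53061) (nat_lit 9) (node (nat_lit 4) (nat_lit 54553) (nat_lit 10) nil (node
  (nat_lit 6) (nat_lit 53061) (nat_lit 10) nil (node (nat_lit 8) (nat_lit 59430) (nat_lit 10) nil
  (node (nat_lit 0) (nat_lit 58048) (nat_lit 10) nil nil)))) (node (nat_lit 0) (nat_lit 61194)
  (nat_lit 9) nil nil))) (node (nat_lit 5) (nat_lit 51180) (nat_lit 8) (node (nat_lit 6) (nat_lit
  54158) (nat_lit 9) (node (nat_lit 5) (nat_lit 54450) (nat_lit 10) nil (node (nat_lit 4) (nat_lit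
  54158) (nat_lit 10) (node (nat_lit 8) (nat_lit 32436) (nat_lit 11) nil nil) (node (nat_lit 8)
  (nat_lit 60527) (nat_lit 10) nil (node (nat_lit 0) (nat_lit 57331) (nat_lit 10) nil nil))))
  (node (nat_lit 4) (nat_lit 53644) (nat_lit 9) (node (nat_lit 6) (nat_lit 54914) (nat_lit 10) nil
  (node (nat_lit 8) (nat_lit 58631) (nat_lit 10) nil (node (nat_lit 0) (nat_lit 56817) (nat_lit
  10) nil nil))) (node (nat_lit 8) (nat_lit 61828) (nat_lit 9) (node (nat_lit 4) (nat_lit 61828)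
  (nat_lit 10) nil (node (nat_lit 6) (nat_lit 61828) (nat_lit 10) nil nil)) (node (nat_lit 0)
  (nat_lit 59080) (nat_lit 9) nil nil)))) (node (nat_lit 0) (nat_lit 60492) (nat_lit 8) (node
  (nat_lit 8) (nat_lit 60797) (nat_lit 9) nil nil) nil))) (node (nat_lit 5) (nat_lit 44812)
  (nat_lit 7) nil (node (nat_lit 8) (nat_lit 49428) (nat_lit 7) nil (node (nat_lit 0) (nat_lit
  46631) (nat_lit 7) nil nil)))) (node (nat_lit 4) (nat_lit 0) (nat_lit 6) (node (nat_lit 6)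
  (nat_lit 45441) (nat_lit 7) (node (nat_lit 8) (nat_lit 58395) (nat_lit 8) (node (nat_lit 6)
  (nat_lit 58395) (nat_lit 9) (node (nat_lit 4) (nat_lit 58395) (nat_lit 10) (node (nat_lit 8)
  (nat_lit 59747) (nat_lit 11) (node (nat_lit 4) (nat_lit 59747) (nat_lit 12) nil nil) nil) nil)
  nil) nil) (node (nat_lit 5) (nat_lit 44553) (nat_lit 7) nil (node (nat_lit 0) (nat_lit 48858)
  (nat_lit 7) nil nil))) (node (nat_lit 5) (nat_lit 0) (nat_lit 6) (node (nat_lit 4) (nat_lit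
  43982) (nat_lit 7) (node (nat_lit 6) (nat_lit 43982) (nat_lit 8) nil (node (nat_lit 5) (nat_lit
  43982) (nat_lit 8) nil (node (nat_lit 0) (nat_lit 46618) (nat_lit 8) nil nil))) (node (nat_lit
  8) (nat_lit 48746) (nat_lit 7) nil (node (nat_lit 6) (nat_lit 44441) (nat_lit 7) nil (node
  (nat_lit 0) (nat_lit 46547) (nat_lit 7) nil nil)))) (node (nat_lit 0) (nat_lit 49928) (nat_lit
  6) nil nil)))) nil) nil)))

noncomputable def t440 : Tr :=
  (node (nat_lit 3) (nat_lit 0) (nat_lit 2) (node (nat_lit 0) (nat_lit 0) (nat_lit 3) t438 (node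
  (nat_lit 3) (nat_lit 0) (nat_lit 3) t439 (node (nat_lit 4) (nat_lit 0) (nat_lit 3) (node
  (nat_lit 0) (nat_lit 0) (nat_lit 4) (node (nat_lit 4) (nat_lit 0) (nat_lit 5) (node (nat_lit 5)
  (nat_lit 33999) (nat_lit 6) (node (nat_lit 7) (nat_lit 47539) (nat_lit 7) (node (nat_lit 4)
  (nat_lit 48292) (nat_lit 8) (node (nat_lit 7) (nat_lit 50927) (nat_lit 9) (node (nat_lit 5)
  (nat_lit 50927) (nat_lit 10) (node (nat_lit 4) (nat_lit 50927) (nat_lit 11) (node (nat_lit 5)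
  (nat_lit 50836) (nat_lit 12) (node (nat_lit 7) (nat_lit 51541) (nat_lit 13) (node (nat_lit 5)
  (nat_lit 51541) (nat_lit 14) nil nil) (node (nat_lit 3) (nat_lit 50836) (nat_lit 13) nil nil))
  (node (nat_lit 3) (nat_lit 50927) (nat_lit 12) nil (node (nat_lit 7) (nat_lit 51499) (nat_lit
  12) nil nil))) (node (nat_lit 7) (nat_lit 51509) (nat_lit 11) (node (nat_lit 4) (nat_lit 51509)
  (nat_lit 12) nil nil) (node (nat_lit 3) (nat_lit 50927) (nat_lit 11) nil (node (nat_lit 0)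
  (nat_lit 51155) (nat_lit 11) nil nil)))) (node (nat_lit 3) (nat_lit 50927) (nat_lit 10) nil
  (node (nat_lit 0) (nat_lit 51141) (nat_lit 10) nil nil))) (node (nat_lit 3) (nat_lit 48578)
  (nat_lit 9) (node (nat_lit 4) (nat_lit 48578) (nat_lit 10) (node (nat_lit 5) (nat_lit 48578)
  (nat_lit 11) nil (node (nat_lit 7) (nat_lit 49241) (nat_lit 11) nil (node (nat_lit 0) (nat_lit
  49241) (nat_lit 11) nil nil))) (node (nat_lit 5) (nat_lit 48578) (nat_lit 10) nil (node (nat_lit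
  7) (nat_lit 49877) (nat_lit 10) nil (node (nat_lit 0) (nat_lit 49877) (nat_lit 10) nil nil))))
  (node (nat_lit 0) (nat_lit 50346) (nat_lit 9) (node (nat_lit 4) (nat_lit 50346) (nat_lit 10) nil
  (node (nat_lit 7) (nat_lit 50468) (nat_lit 10) nil nil)) nil))) (node (nat_lit 5) (nat_lit
  47674) (nat_lit 8) (node (nat_lit 4) (nat_lit 47674) (nat_lit 9) (node (nat_lit 7) (nat_lit
  48973) (nat_lit 10) nil nil) (node (nat_lit 3) (nat_lit 47674) (nat_lit 9) nil nil)) (node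
  (nat_lit 3) (nat_lit 47539) (nat_lit 8) nil (node (nat_lit 0) (nat_lit 48121) (nat_lit 8) nil
  nil)))) (node (nat_lit 3) (nat_lit 36949) (nat_lit 7) (node (nat_lit 4) (nat_lit 40109) (nat_lit
  8) (node (nat_lit 10) (nat_lit 41014) (nat_lit 9) (node (nat_lit 5) (nat_lit 40219) (nat_lit 10)
  nil nil) (node (nat_lit 5) (nat_lit 41114) (nat_lit 9) (node (nat_lit 4) (nat_lit 42395)
  (nat_lit 10) (node (nat_lit 7) (nat_lit 29288) (nat_lit 11) nil nil) nil) (node (nat_lit 0)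
  (nat_lit 48118) (nat_lit 9) nil (node (nat_lit 7) (nat_lit 48118) (nat_lit 9) nil nil)))) (node
  (nat_lit 5) (nat_lit 40309) (nat_lit 8) (node (nat_lit 4) (nat_lit 40714) (nat_lit 9) nil (node
  (nat_lit 7) (nat_lit 48318) (nat_lit 9) nil (node (nat_lit 0) (nat_lit 46353) (nat_lit 9) nil
  nil))) (node (nat_lit 0) (nat_lit 49061) (nat_lit 8) nil (node (nat_lit 7) (nat_lit 48205)
  (nat_lit 8) nil nil)))) (node (nat_lit 4) (nat_lit 36481) (nat_lit 7) (node (nat_lit 3) (nat_lit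
  39221) (nat_lit 8) (node (nat_lit 5) (nat_lit 40654) (nat_lit 9) nil (node (nat_lit 7) (nat_lit
  42092) (nat_lit 9) nil nil)) (node (nat_lit 0) (nat_lit 42133) (nat_lit 8) nil nil)) (node
  (nat_lit 0) (nat_lit 47362) (nat_lit 7) (node (nat_lit 4) (nat_lit 47362) (nat_lit 8) nil (node
  (nat_lit 5) (nat_lit 47362) (nat_lit 8) nil (node (nat_lit 0) (nat_lit 47638) (nat_lit 8) nil
  nil))) nil)))) (node (nat_lit 3) (nat_lit 34269) (nat_lit 6) (node (nat_lit 5) (nat_lit 36497)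
  (nat_lit 7) (node (nat_lit 4) (nat_lit 39583) (nat_lit 8) (node (nat_lit 5) (nat_lit 42546)
  (nat_lit 9) (node (nat_lit 9) (nat_lit 43865) (nat_lit 10) nil nil) (node (nat_lit 9) (nat_lit
  41974) (nat_lit 9) (node (nat_lit 4) (nat_lit 43293) (nat_lit 10) nil nil) (node (nat_lit 0)
  (nat_lit 42454) (nat_lit 9) nil (node (nat_lit 7) (nat_lit 42454) (nat_lit 9) nil nil)))) (node
  (nat_lit 9) (nat_lit 39820) (nat_lit 8) (node (nat_lit 4) (nat_lit 41470) (nat_lit 9) (node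
  (nat_lit 5) (nat_lit 42789) (nat_lit 10) nil nil) (node (nat_lit 7) (nat_lit 47829) (nat_lit 9)
  nil (node (nat_lit 0) (nat_lit 45864) (nat_lit 9) nil nil))) (node (nat_lit 0) (nat_lit 48606)
  (nat_lit 8) nil (node (nat_lit 7) (nat_lit 48310) (nat_lit 8) nil nil)))) (node (nat_lit 4)
  (nat_lit 36829) (nat_lit 7) (node (nat_lit 5) (nat_lit 38846) (nat_lit 8) (node (nat_lit 9)
  (nat_lit 40279) (nat_lit 9) nil (node (nat_lit 4) (nat_lit 40279) (nat_lit 9) (node (nat_lit 7)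
  (nat_lit 27035) (nat_lit 10) nil nil) (node (nat_lit 7) (nat_lit 46855) (nat_lit 9) nil (node
  (nat_lit 0) (nat_lit 41716) (nat_lit 9) nil nil)))) (node (nat_lit 7) (nat_lit 49554) (nat_lit
  8) (node (nat_lit 9) (nat_lit 49554) (nat_lit 9) (node (nat_lit 7) (nat_lit 50661) (nat_lit 10)
  (node (nat_lit 4) (nat_lit 50661) (nat_lit 11) nil nil) (node (nat_lit 4) (nat_lit 49554)
  (nat_lit 10) nil nil)) nil) (node (nat_lit 0) (nat_lit 47694) (nat_lit 8) nil nil))) (node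
  (nat_lit 7) (nat_lit 47823) (nat_lit 7) (node (nat_lit 9) (nat_lit 47823) (nat_lit 8) (node
  (nat_lit 4) (nat_lit 47823) (nat_lit 9) nil nil) (node (nat_lit 4) (nat_lit 47823) (nat_lit 8)
  (node (nat_lit 7) (nat_lit 48258) (nat_lit 9) nil nil) (node (nat_lit 5) (nat_lit 47823)
  (nat_lit 8) nil (node (nat_lit 0) (nat_lit 48099) (nat_lit 8) nil nil)))) (node (nat_lit 0)
  (nat_lit 47823) (nat_lit 7) (node (nat_lit 4) (nat_lit 47823) (nat_lit 8) nil (node (nat_lit 0)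
  (nat_lit 48099) (nat_lit 8) nil nil)) nil)))) (node (nat_lit 0) (nat_lit 44943) (nat_lit 6)
  (node (nat_lit 7) (nat_lit 48061) (nat_lit 7) (node (nat_lit 4) (nat_lit 48200) (nat_lit 8)
  (node (nat_lit 7) (nat_lit 49840) (nat_lit 9) nil (node (nat_lit 0) (nat_lit 48636) (nat_lit 9)
  nil nil)) (node (nat_lit 9) (nat_lit 48643) (nat_lit 8) nil nil)) (node (nat_lit 4) (nat_lit
  45211) (nat_lit 7) (node (nat_lit 7) (nat_lit 48477) (nat_lit 8) (node (nat_lit 9) (nat_lit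
  48636) (nat_lit 9) nil nil) (node (nat_lit 5) (nat_lit 45211) (nat_lit 8) nil (node (nat_lit 3)
  (nat_lit 45211) (nat_lit 8) nil (node (nat_lit 0) (nat_lit 45839) (nat_lit 8) nil nil)))) (node
  (nat_lit 5) (nat_lit 44943) (nat_lit 7) (node (nat_lit 7) (nat_lit 45571) (nat_lit 8) nil (node
  (nat_lit 9) (nat_lit 45571) (nat_lit 8) nil nil)) (node (nat_lit 0) (nat_lit 47321) (nat_lit 7)
  (node (nat_lit 3) (nat_lit 47321) (nat_lit 8) nil nil) (node (nat_lit 3) (nat_lit 44943)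
  (nat_lit 7) nil nil))))) nil))) (node (nat_lit 5) (nat_lit 0) (nat_lit 5) (node (nat_lit 7)
  (nat_lit 44215) (nat_lit 6) (node (nat_lit 4) (nat_lit 45128) (nat_lit 7) (node (nat_lit 7)
  (nat_lit 49562) (nat_lit 8) (node (nat_lit 5) (nat_lit 49738) (nat_lit 9) (node (nat_lit 4)
  (nat_lit 49969) (nat_lit 10) (node (nat_lit 5) (nat_lit 50230) (nat_lit 11) (node (nat_lit 7)
  (nat_lit 51710) (nat_lit 12) (node (nat_lit 4) (nat_lit 51710) (nat_lit 13) nil (node (nat_lit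
  5) (nat_lit 51710) (nat_lit 13) nil nil)) (node (nat_lit 3) (nat_lit 50524) (nat_lit 12) (node
  (nat_lit 4) (nat_lit 50524) (nat_lit 13) nil (node (nat_lit 5) (nat_lit 50524) (nat_lit 13) nil
  nil)) (node (nat_lit 0) (nat_lit 50714) (nat_lit 12) nil nil))) (node (nat_lit 7) (nat_lit
  51464) (nat_lit 11) (node (nat_lit 4) (nat_lit 51464) (nat_lit 12) (node (nat_lit 5) (nat_lit
  51464) (nat_lit 13) nil nil) nil) (node (nat_lit 3) (nat_lit 49969) (nat_lit 11) (node (nat_lit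
  5) (nat_lit 49969) (nat_lit 12) nil nil) (node (nat_lit 0) (nat_lit 50935) (nat_lit 11) nil
  nil)))) (node (nat_lit 3) (nat_lit 49738) (nat_lit 10) nil (node (nat_lit 0) (nat_lit 50867)
  (nat_lit 10) nil nil))) nil) (node (nat_lit 5) (nat_lit 45128) (nat_lit 8) nil nil)) nil) (node
  (nat_lit 4) (nat_lit 33709) (nat_lit 6) (node (nat_lit 5) (nat_lit 35648) (nat_lit 7) (node
  (nat_lit 7) (nat_lit 48533) (nat_lit 8) (node (nat_lit 4) (nat_lit 48533) (nat_lit 9) (node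
  (nat_lit 7) (nat_lit 49640) (nat_lit 10) (node (nat_lit 5) (nat_lit 49640) (nat_lit 11) nil nil)
  nil) nil) (node (nat_lit 3) (nat_lit 35648) (nat_lit 8) nil (node (nat_lit 0) (nat_lit 38359)
  (nat_lit 8) nil nil))) (node (nat_lit 3) (nat_lit 34497) (nat_lit 7) (node (nat_lit 5) (nat_lit
  34497) (nat_lit 8) nil nil) (node (nat_lit 0) (nat_lit 36143) (nat_lit 7) nil nil))) (node
  (nat_lit 3) (nat_lit 33897) (nat_lit 6) (node (nat_lit 4) (nat_lit 34981) (nat_lit 7) (node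
  (nat_lit 9) (nat_lit 35760) (nat_lit 8) (node (nat_lit 5) (nat_lit 35808) (nat_lit 9) nil nil)
  (node (nat_lit 5) (nat_lit 36182) (nat_lit 8) nil nil)) (node (nat_lit 5) (nat_lit 33638)
  (nat_lit 7) nil (node (nat_lit 7) (nat_lit 38967) (nat_lit 7) nil (node (nat_lit 0) (nat_lit
  36332) (nat_lit 7) nil nil)))) (node (nat_lit 0) (nat_lit 42695) (nat_lit 6) nil nil)))) (node
  (nat_lit 3) (nat_lit 0) (nat_lit 5) (node (nat_lit 4) (nat_lit 33958) (nat_lit 6) (node (nat_lit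
  8) (nat_lit 36280) (nat_lit 7) (node (nat_lit 7) (nat_lit 47703) (nat_lit 8) (node (nat_lit 4)
  (nat_lit 47703) (nat_lit 9) nil nil) nil) (node (nat_lit 5) (nat_lit 33486) (nat_lit 7) nil
  (node (nat_lit 0) (nat_lit 39028) (nat_lit 7) nil nil))) (node (nat_lit 7) (nat_lit 44556)
  (nat_lit 6) (node (nat_lit 4) (nat_lit 44728) (nat_lit 7) (node (nat_lit 7) (nat_lit 47898)
  (nat_lit 8) (node (nat_lit 8) (nat_lit 47898) (nat_lit 9) nil nil) nil) nil) (node (nat_lit 5)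
  (nat_lit 33149) (nat_lit 6) (node (nat_lit 4) (nat_lit 34910) (nat_lit 7) (node (nat_lit 8)
  (nat_lit 34910) (nat_lit 8) nil (node (nat_lit 5) (nat_lit 34910) (nat_lit 8) nil nil)) (node
  (nat_lit 8) (nat_lit 33149) (nat_lit 7) nil (node (nat_lit 7) (nat_lit 38220) (nat_lit 7) nil
  nil))) (node (nat_lit 0) (nat_lit 38752) (nat_lit 6) nil nil)))) (node (nat_lit 0) (nat_lit 0)
  (nat_lit 5) (node (nat_lit 4) (nat_lit 40070) (nat_lit 6) (node (nat_lit 7) (nat_lit 47178)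
  (nat_lit 7) (node (nat_lit 4) (nat_lit 47178) (nat_lit 8) (node (nat_lit 8) (nat_lit 48151)
  (nat_lit 9) nil nil) (node (nat_lit 5) (nat_lit 47178) (nat_lit 8) nil (node (nat_lit 0)
  (nat_lit 47453) (nat_lit 8) nil nil))) (node (nat_lit 8) (nat_lit 44804) (nat_lit 7) nil nil))
  (node (nat_lit 7) (nat_lit 44478) (nat_lit 6) (node (nat_lit 4) (nat_lit 44478) (nat_lit 7)
  (node (nat_lit 7) (nat_lit 47183) (nat_lit 8) (node (nat_lit 8) (nat_lit 47343) (nat_lit 9) nil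
  nil) nil) nil) (node (nat_lit 5) (nat_lit 39529) (nat_lit 6) nil (node (nat_lit 3) (nat_lit
  39529) (nat_lit 6) nil (node (nat_lit 0) (nat_lit 40965) (nat_lit 6) nil nil))))) nil)))) (node
  (nat_lit 3) (nat_lit 0) (nat_lit 4) (node (nat_lit 0) (nat_lit 0) (nat_lit 5) (node (nat_lit 4)
  (nat_lit 0) (nat_lit 6) (node (nat_lit 7) (nat_lit 34340) (nat_lit 7) (node (nat_lit 4) (nat_lit
  36374) (nat_lit 8) (node (nat_lit 8) (nat_lit 45791) (nat_lit 9) (node (nat_lit 4) (nat_lit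
  45791) (nat_lit 10) nil nil) (node (nat_lit 5) (nat_lit 37991) (nat_lit 9) (node (nat_lit 7)
  (nat_lit 39764) (nat_lit 10) nil (node (nat_lit 4) (nat_lit 39192) (nat_lit 10) nil (node
  (nat_lit 8) (nat_lit 42829) (nat_lit 10) nil (node (nat_lit 0) (nat_lit 42829) (nat_lit 10) nil
  nil)))) (node (nat_lit 0) (nat_lit 45265) (nat_lit 9) nil nil))) (node (nat_lit 5) (nat_lit
  36235) (nat_lit 8) (node (nat_lit 4) (nat_lit 38681) (nat_lit 9) (node (nat_lit 5) (nat_lit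
  39882) (nat_lit 10) nil (node (nat_lit 8) (nat_lit 44713) (nat_lit 10) nil nil)) (node (nat_lit
  7) (nat_lit 37905) (nat_lit 9) (node (nat_lit 4) (nat_lit 39106) (nat_lit 10) nil (node (nat_lit
  8) (nat_lit 42744) (nat_lit 10) nil (node (nat_lit 0) (nat_lit 39577) (nat_lit 10) nil nil)))
  (node (nat_lit 8) (nat_lit 45451) (nat_lit 9) nil (node (nat_lit 0) (nat_lit 42713) (nat_lit 9)
  nil nil)))) (node (nat_lit 0) (nat_lit 44180) (nat_lit 8) nil nil))) (node (nat_lit 5) (nat_lit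
  32291) (nat_lit 7) nil (node (nat_lit 8) (nat_lit 37279) (nat_lit 7) nil (node (nat_lit 0)
  (nat_lit 33592) (nat_lit 7) nil nil)))) (node (nat_lit 7) (nat_lit 0) (nat_lit 6) (node (nat_lit
  4) (nat_lit 31781) (nat_lit 7) (node (nat_lit 8) (nat_lit 40228) (nat_lit 8) (node (nat_lit 4)
  (nat_lit 40228) (nat_lit 9) (node (nat_lit 7) (nat_lit 40228) (nat_lit 10) (node (nat_lit 8)
  (nat_lit 40615) (nat_lit 11) nil nil) nil) nil) nil) (node (nat_lit 5) (nat_lit 31994) (nat_lit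
  7) nil (node (nat_lit 0) (nat_lit 33109) (nat_lit 7) nil nil))) (node (nat_lit 5) (nat_lit
  31731) (nat_lit 6) (node (nat_lit 7) (nat_lit 31991) (nat_lit 7) (node (nat_lit 4) (nat_lit
  31991) (nat_lit 8) nil (node (nat_lit 5) (nat_lit 31991) (nat_lit 8) nil (node (nat_lit 0)
  (nat_lit 33382) (nat_lit 8) nil nil))) (node (nat_lit 8) (nat_lit 35005) (nat_lit 7) nil (node
  (nat_lit 4) (nat_lit 31731) (nat_lit 7) nil nil))) (node (nat_lit 0) (nat_lit 37004) (nat_lit 6)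
  nil nil)))) nil) nil)) nil))) (node (nat_lit 0) (nat_lit 0) (nat_lit 2) (node (nat_lit 3)
  (nat_lit 0) (nat_lit 3) (node (nat_lit 3) (nat_lit 0) (nat_lit 4) (node (nat_lit 4) (nat_lit 0)
  (nat_lit 5) (node (nat_lit 6) (nat_lit 104252) (nat_lit 6) (node (nat_lit 4) (nat_lit 111915)
  (nat_lit 7) (node (nat_lit 7) (nat_lit 114911) (nat_lit 8) (node (nat_lit 6) (nat_lit 108810)
  (nat_lit 9) nil nil) (node (nat_lit 5) (nat_lit 111373) (nat_lit 8) nil nil)) (node (nat_lit 7)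
  (nat_lit 112643) (nat_lit 7) (node (nat_lit 6) (nat_lit 118750) (nat_lit 8) nil nil) (node
  (nat_lit 5) (nat_lit 116047) (nat_lit 7) nil (node (nat_lit 0) (nat_lit 116047) (nat_lit 7) nil
  nil)))) (node (nat_lit 7) (nat_lit 104424) (nat_lit 6) (node (nat_lit 6) (nat_lit 114260)
  (nat_lit 7) (node (nat_lit 4) (nat_lit 118880) (nat_lit 8) (node (nat_lit 6) (nat_lit 118708)
  (nat_lit 9) nil nil) (node (nat_lit 7) (nat_lit 120367) (nat_lit 8) (node (nat_lit 4) (nat_lit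
  119543) (nat_lit 9) nil nil) (node (nat_lit 5) (nat_lit 125564) (nat_lit 8) nil nil))) (node
  (nat_lit 5) (nat_lit 128306) (nat_lit 7) nil (node (nat_lit 0) (nat_lit 127504) (nat_lit 7) nil
  nil))) (node (nat_lit 5) (nat_lit 88990) (nat_lit 6) (node (nat_lit 4) (nat_lit 88990) (nat_lit
  7) (node (nat_lit 7) (nat_lit 88990) (nat_lit 8) nil nil) (node (nat_lit 7) (nat_lit 88990)
  (nat_lit 7) nil (node (nat_lit 6) (nat_lit 65244) (nat_lit 7) nil nil))) (node (nat_lit 0)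
  (nat_lit 128002) (nat_lit 6) nil nil)))) (node (nat_lit 6) (nat_lit 0) (nat_lit 5) (node
  (nat_lit 4) (nat_lit 101558) (nat_lit 6) (node (nat_lit 7) (nat_lit 106535) (nat_lit 7) (node
  (nat_lit 6) (nat_lit 106007) (nat_lit 8) nil (node (nat_lit 4) (nat_lit 105828) (nat_lit 8) nil
  nil)) (node (nat_lit 6) (nat_lit 105687) (nat_lit 7) (node (nat_lit 7) (nat_lit 104918) (nat_lit
  8) nil nil) (node (nat_lit 5) (nat_lit 104347) (nat_lit 7) (node (nat_lit 6) (nat_lit 80807)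
  (nat_lit 8) (node (nat_lit 7) (nat_lit 57102) (nat_lit 9) nil nil) nil) nil))) (node (nat_lit 5)
  (nat_lit 128096) (nat_lit 6) (node (nat_lit 6) (nat_lit 128096) (nat_lit 7) nil nil) (node
  (nat_lit 0) (nat_lit 102165) (nat_lit 6) nil nil))) (node (nat_lit 5) (nat_lit 128265) (nat_lit
  5) (node (nat_lit 6) (nat_lit 128265) (nat_lit 6) (node (nat_lit 5) (nat_lit 128306) (nat_lit 7)
  nil nil) nil) (node (nat_lit 0) (nat_lit 107026) (nat_lit 5) nil nil)))) (node (nat_lit 4)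
  (nat_lit 0) (nat_lit 4) (node (nat_lit 3) (nat_lit 0) (nat_lit 5) (node (nat_lit 6) (nat_lit
  104388) (nat_lit 6) (node (nat_lit 8) (nat_lit 114048) (nat_lit 7) (node (nat_lit 4) (nat_lit
  119190) (nat_lit 8) (node (nat_lit 6) (nat_lit 118659) (nat_lit 9) nil nil) (node (nat_lit 5)
  (nat_lit 125593) (nat_lit 8) nil nil)) (node (nat_lit 4) (nat_lit 110519) (nat_lit 7) (node
  (nat_lit 6) (nat_lit 109663) (nat_lit 8) nil nil) (node (nat_lit 5) (nat_lit 128177) (nat_lit 7)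
  nil (node (nat_lit 0) (nat_lit 116182) (nat_lit 7) nil nil)))) (node (nat_lit 4) (nat_lit
  103950) (nat_lit 6) (node (nat_lit 6) (nat_lit 113376) (nat_lit 7) (node (nat_lit 8) (nat_lit
  116961) (nat_lit 8) (node (nat_lit 6) (nat_lit 118212) (nat_lit 9) (node (nat_lit 4) (nat_lit
  106882) (nat_lit 10) nil nil) nil) (node (nat_lit 4) (nat_lit 120036) (nat_lit 8) (node (nat_lit
  8) (nat_lit 111957) (nat_lit 9) nil nil) (node (nat_lit 5) (nat_lit 124933) (nat_lit 8) nil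
  nil))) (node (nat_lit 5) (nat_lit 104329) (nat_lit 7) (node (nat_lit 6) (nat_lit 104329)
  (nat_lit 8) (node (nat_lit 4) (nat_lit 64711) (nat_lit 9) nil nil) nil) (node (nat_lit 0)
  (nat_lit 127773) (nat_lit 7) nil nil))) (node (nat_lit 5) (nat_lit 128306) (nat_lit 6) (node
  (nat_lit 8) (nat_lit 128306) (nat_lit 7) nil (node (nat_lit 6) (nat_lit 128306) (nat_lit 7) nil
  nil)) (node (nat_lit 0) (nat_lit 128306) (nat_lit 6) nil nil)))) (node (nat_lit 6) (nat_lit 0)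
  (nat_lit 5) (node (nat_lit 3) (nat_lit 100860) (nat_lit 6) (node (nat_lit 4) (nat_lit 106145)
  (nat_lit 7) (node (nat_lit 6) (nat_lit 110156) (nat_lit 8) nil (node (nat_lit 9) (nat_lit
  105178) (nat_lit 8) nil nil)) (node (nat_lit 6) (nat_lit 104921) (nat_lit 7) (node (nat_lit 4)
  (nat_lit 103763) (nat_lit 8) nil nil) (node (nat_lit 5) (nat_lit 112185) (nat_lit 7) nil nil)))
  (node (nat_lit 5) (nat_lit 126866) (nat_lit 6) (node (nat_lit 6) (nat_lit 126866) (nat_lit 7)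
  (node (nat_lit 4) (nat_lit 126866) (nat_lit 8) nil nil) nil) (node (nat_lit 0) (nat_lit 114219)
  (nat_lit 6) nil nil))) (node (nat_lit 5) (nat_lit 61500) (nat_lit 5) nil (node (nat_lit 0)
  (nat_lit 107348) (nat_lit 5) nil nil)))) (node (nat_lit 5) (nat_lit 0) (nat_lit 4) (node
  (nat_lit 3) (nat_lit 0) (nat_lit 5) (node (nat_lit 4) (nat_lit 122320) (nat_lit 6) (node
  (nat_lit 6) (nat_lit 122320) (nat_lit 7) (node (nat_lit 8) (nat_lit 122320) (nat_lit 8) nil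
  (node (nat_lit 4) (nat_lit 122320) (nat_lit 8) nil nil)) nil) (node (nat_lit 6) (nat_lit 122320)
  (nat_lit 6) (node (nat_lit 8) (nat_lit 122320) (nat_lit 7) nil (node (nat_lit 4) (nat_lit
  122320) (nat_lit 7) nil nil)) (node (nat_lit 5) (nat_lit 126086) (nat_lit 6) nil (node (nat_lit
  0) (nat_lit 126086) (nat_lit 6) nil nil)))) (node (nat_lit 4) (nat_lit 0) (nat_lit 5) (node
  (nat_lit 3) (nat_lit 121549) (nat_lit 6) (node (nat_lit 6) (nat_lit 121549) (nat_lit 7) (node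
  (nat_lit 4) (nat_lit 121549) (nat_lit 8) nil (node (nat_lit 9) (nat_lit 121549) (nat_lit 8) nil
  nil)) (node (nat_lit 4) (nat_lit 121549) (nat_lit 7) nil nil)) (node (nat_lit 6) (nat_lit
  120360) (nat_lit 6) (node (nat_lit 4) (nat_lit 120360) (nat_lit 7) (node (nat_lit 5) (nat_lit
  125462) (nat_lit 8) (node (nat_lit 6) (nat_lit 125462) (nat_lit 9) (node (nat_lit 5) (nat_lit
  100813) (nat_lit 10) (node (nat_lit 4) (nat_lit 63062) (nat_lit 11) nil nil) nil) nil) nil)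
  (node (nat_lit 3) (nat_lit 120986) (nat_lit 7) nil nil)) (node (nat_lit 5) (nat_lit 123667)
  (nat_lit 6) nil (node (nat_lit 0) (nat_lit 124419) (nat_lit 6) nil nil)))) (node (nat_lit 0)
  (nat_lit 125975) (nat_lit 5) nil nil))) (node (nat_lit 0) (nat_lit 118696) (nat_lit 4) (node
  (nat_lit 3) (nat_lit 118696) (nat_lit 5) nil (node (nat_lit 4) (nat_lit 118696) (nat_lit 5) nil
  nil)) nil)))) (node (nat_lit 4) (nat_lit 0) (nat_lit 3) (node (nat_lit 3) (nat_lit 0) (nat_lit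
  4) (node (nat_lit 3) (nat_lit 0) (nat_lit 5) (node (nat_lit 4) (nat_lit 104093) (nat_lit 6)
  (node (nat_lit 8) (nat_lit 112264) (nat_lit 7) (node (nat_lit 7) (nat_lit 116116) (nat_lit 8)
  (node (nat_lit 4) (nat_lit 116088) (nat_lit 9) nil nil) (node (nat_lit 5) (nat_lit 125779)
  (nat_lit 8) nil nil)) (node (nat_lit 7) (nat_lit 109436) (nat_lit 7) (node (nat_lit 4) (nat_lit
  111227) (nat_lit 8) nil nil) (node (nat_lit 5) (nat_lit 101868) (nat_lit 7) (node (nat_lit 4)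
  (nat_lit 88097) (nat_lit 8) (node (nat_lit 7) (nat_lit 63860) (nat_lit 9) nil nil) nil) (node
  (nat_lit 0) (nat_lit 117056) (nat_lit 7) nil nil)))) (node (nat_lit 7) (nat_lit 103190) (nat_lit
  6) (node (nat_lit 4) (nat_lit 111422) (nat_lit 7) (node (nat_lit 8) (nat_lit 119709) (nat_lit 8)
  (node (nat_lit 4) (nat_lit 120006) (nat_lit 9) nil nil) (node (nat_lit 7) (nat_lit 118165)
  (nat_lit 8) (node (nat_lit 8) (nat_lit 111214) (nat_lit 9) nil nil) (node (nat_lit 5) (nat_lit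
  116526) (nat_lit 8) (node (nat_lit 4) (nat_lit 100588) (nat_lit 9) (node (nat_lit 7) (nat_lit
  86969) (nat_lit 10) nil nil) nil) nil))) (node (nat_lit 5) (nat_lit 127721) (nat_lit 7) nil
  (node (nat_lit 0) (nat_lit 127721) (nat_lit 7) nil nil))) (node (nat_lit 5) (nat_lit 127721)
  (nat_lit 6) (node (nat_lit 8) (nat_lit 127721) (nat_lit 7) nil (node (nat_lit 4) (nat_lit
  127721) (nat_lit 7) nil nil)) (node (nat_lit 0) (nat_lit 127141) (nat_lit 6) nil nil)))) (node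
  (nat_lit 4) (nat_lit 0) (nat_lit 5) (node (nat_lit 3) (nat_lit 101500) (nat_lit 6) (node
  (nat_lit 7) (nat_lit 107809) (nat_lit 7) (node (nat_lit 4) (nat_lit 112277) (nat_lit 8) nil
  (node (nat_lit 9) (nat_lit 112277) (nat_lit 8) nil nil)) (node (nat_lit 4) (nat_lit 104810)
  (nat_lit 7) (node (nat_lit 7) (nat_lit 104735) (nat_lit 8) nil nil) (node (nat_lit 5) (nat_lit
  114091) (nat_lit 7) nil nil))) (node (nat_lit 5) (nat_lit 101375) (nat_lit 6) (node (nat_lit 4)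
  (nat_lit 62898) (nat_lit 7) nil nil) (node (nat_lit 0) (nat_lit 102008) (nat_lit 6) nil nil)))
  (node (nat_lit 5) (nat_lit 126239) (nat_lit 5) (node (nat_lit 4) (nat_lit 126239) (nat_lit 6)
  (node (nat_lit 5) (nat_lit 127721) (nat_lit 7) nil nil) nil) (node (nat_lit 0) (nat_lit 108324)
  (nat_lit 5) nil nil)))) (node (nat_lit 0) (nat_lit 103895) (nat_lit 4) nil nil)) (node (nat_lit
  0) (nat_lit 0) (nat_lit 3) (node (nat_lit 3) (nat_lit 100791) (nat_lit 4) (node (nat_lit 5)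
  (nat_lit 111606) (nat_lit 5) nil (node (nat_lit 3) (nat_lit 100791) (nat_lit 5) (node (nat_lit
  7) (nat_lit 100791) (nat_lit 6) nil (node (nat_lit 4) (nat_lit 100791) (nat_lit 6) nil nil))
  (node (nat_lit 4) (nat_lit 100791) (nat_lit 5) (node (nat_lit 7) (nat_lit 100791) (nat_lit 6)
  nil (node (nat_lit 3) (nat_lit 100791) (nat_lit 6) nil (node (nat_lit 5) (nat_lit 106539)
  (nat_lit 6) (node (nat_lit 6) (nat_lit 54242) (nat_lit 7) nil nil) nil))) (node (nat_lit 0)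
  (nat_lit 111606) (nat_lit 5) nil nil)))) (node (nat_lit 0) (nat_lit 116371) (nat_lit 4) (node
  (nat_lit 5) (nat_lit 116371) (nat_lit 5) (node (nat_lit 7) (nat_lit 116371) (nat_lit 6) nil nil)
  (node (nat_lit 6) (nat_lit 116371) (nat_lit 5) nil (node (nat_lit 0) (nat_lit 116371) (nat_lit
  5) nil nil))) (node (nat_lit 5) (nat_lit 116371) (nat_lit 4) (node (nat_lit 0) (nat_lit 116371)
  (nat_lit 5) nil (node (nat_lit 3) (nat_lit 116371) (nat_lit 5) nil nil)) (node (nat_lit 4)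
  (nat_lit 100007) (nat_lit 4) (node (nat_lit 3) (nat_lit 100007) (nat_lit 5) (node (nat_lit 3)
  (nat_lit 100007) (nat_lit 6) nil nil) (node (nat_lit 5) (nat_lit 104565) (nat_lit 5) nil nil))
  nil)))) nil))) nil))

noncomputable def c18 : Tr :=
  (node (nat_lit 3) (nat_lit 0) (nat_lit 1) t440 nil)

noncomputable def t441 : Tr :=
  (node (nat_lit 1) (nat_lit 0) (nat_lit 2) (node (nat_lit 4) (nat_lit 0) (nat_lit 3) (node
  (nat_lit 0) (nat_lit 35497) (nat_lit 4) (node (nat_lit 5) (nat_lit 35497) (nat_lit 5) (node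
  (nat_lit 4) (nat_lit 35497) (nat_lit 6) (node (nat_lit 5) (nat_lit 35497) (nat_lit 7) nil nil)
  nil) (node (nat_lit 4) (nat_lit 35497) (nat_lit 5) nil nil)) (node (nat_lit 2) (nat_lit 35497)
  (nat_lit 4) (node (nat_lit 5) (nat_lit 35497) (nat_lit 5) (node (nat_lit 4) (nat_lit 35497)
  (nat_lit 6) (node (nat_lit 5) (nat_lit 35497) (nat_lit 7) nil nil) (node (nat_lit 7) (nat_lit
  35497) (nat_lit 6) (node (nat_lit 4) (nat_lit 35497) (nat_lit 7) nil nil) nil)) (node (nat_lit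
  4) (nat_lit 35497) (nat_lit 5) nil (node (nat_lit 1) (nat_lit 35497) (nat_lit 5) (node (nat_lit
  4) (nat_lit 32352) (nat_lit 6) (node (nat_lit 5) (nat_lit 24305) (nat_lit 7) (node (nat_lit 4)
  (nat_lit 13496) (nat_lit 8) nil nil) nil) nil) nil))) (node (nat_lit 1) (nat_lit 0) (nat_lit 4)
  (node (nat_lit 5) (nat_lit 35387) (nat_lit 5) (node (nat_lit 7) (nat_lit 35497) (nat_lit 6) nil
  nil) (node (nat_lit 2) (nat_lit 35497) (nat_lit 5) nil (node (nat_lit 0) (nat_lit 35497)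
  (nat_lit 5) nil (node (nat_lit 4) (nat_lit 0) (nat_lit 5) (node (nat_lit 5) (nat_lit 35497)
  (nat_lit 6) nil (node (nat_lit 2) (nat_lit 35497) (nat_lit 6) nil (node (nat_lit 0) (nat_lit
  35497) (nat_lit 6) nil nil))) nil)))) nil))) (node (nat_lit 0) (nat_lit 0) (nat_lit 3) (node
  (nat_lit 5) (nat_lit 72050) (nat_lit 4) (node (nat_lit 4) (nat_lit 73290) (nat_lit 5) (node
  (nat_lit 5) (nat_lit 73290) (nat_lit 6) (node (nat_lit 6) (nat_lit 36758) (nat_lit 7) nil nil)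
  nil) (node (nat_lit 1) (nat_lit 73290) (nat_lit 5) nil nil)) (node (nat_lit 4) (nat_lit 72050)
  (nat_lit 4) (node (nat_lit 6) (nat_lit 73290) (nat_lit 5) (node (nat_lit 5) (nat_lit 73290)
  (nat_lit 6) nil nil) (node (nat_lit 5) (nat_lit 73290) (nat_lit 5) nil (node (nat_lit 1)
  (nat_lit 73290) (nat_lit 5) nil nil))) (node (nat_lit 1) (nat_lit 73290) (nat_lit 4) (node
  (nat_lit 4) (nat_lit 73290) (nat_lit 5) (node (nat_lit 5) (nat_lit 73290) (nat_lit 6) nil nil)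
  (node (nat_lit 5) (nat_lit 73290) (nat_lit 5) nil (node (nat_lit 6) (nat_lit 73290) (nat_lit 5)
  nil nil))) (node (nat_lit 0) (nat_lit 71969) (nat_lit 4) (node (nat_lit 5) (nat_lit 73290)
  (nat_lit 5) nil nil) (node (nat_lit 2) (nat_lit 72959) (nat_lit 4) (node (nat_lit 5) (nat_lit
  73020) (nat_lit 5) nil nil) nil))))) (node (nat_lit 2) (nat_lit 0) (nat_lit 3) (node (nat_lit 5)
  (nat_lit 0) (nat_lit 4) (node (nat_lit 4) (nat_lit 66701) (nat_lit 5) (node (nat_lit 6) (nat_lit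
  66701) (nat_lit 6) (node (nat_lit 5) (nat_lit 66701) (nat_lit 7) (node (nat_lit 6) (nat_lit
  66701) (nat_lit 8) (node (nat_lit 4) (nat_lit 66701) (nat_lit 9) nil nil) nil) nil) (node
  (nat_lit 5) (nat_lit 55551) (nat_lit 6) (node (nat_lit 6) (nat_lit 34965) (nat_lit 7) (node
  (nat_lit 4) (nat_lit 34965) (nat_lit 8) (node (nat_lit 6) (nat_lit 34965) (nat_lit 9) (node
  (nat_lit 5) (nat_lit 34965) (nat_lit 10) (node (nat_lit 4) (nat_lit 34965) (nat_lit 11) (node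
  (nat_lit 5) (nat_lit 34965) (nat_lit 12) (node (nat_lit 6) (nat_lit 34965) (nat_lit 13) (node
  (nat_lit 5) (nat_lit 34965) (nat_lit 14) (node (nat_lit 4) (nat_lit 34965) (nat_lit 15) nil nil)
  nil) nil) nil) nil) nil) nil) nil) nil) (node (nat_lit 1) (nat_lit 66701) (nat_lit 6) nil nil)))
  (node (nat_lit 1) (nat_lit 66701) (nat_lit 5) (node (nat_lit 4) (nat_lit 66701) (nat_lit 6) nil
  (node (nat_lit 5) (nat_lit 66701) (nat_lit 6) nil (node (nat_lit 6) (nat_lit 66701) (nat_lit 6)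
  nil nil))) (node (nat_lit 0) (nat_lit 66701) (nat_lit 5) nil (node (nat_lit 2) (nat_lit 66701)
  (nat_lit 5) nil nil)))) (node (nat_lit 4) (nat_lit 0) (nat_lit 4) (node (nat_lit 6) (nat_lit
  66701) (nat_lit 5) (node (nat_lit 5) (nat_lit 66701) (nat_lit 6) (node (nat_lit 6) (nat_lit
  66701) (nat_lit 7) (node (nat_lit 4) (nat_lit 66701) (nat_lit 8) (node (nat_lit 5) (nat_lit
  66701) (nat_lit 9) nil nil) nil) (node (nat_lit 4) (nat_lit 66701) (nat_lit 7) (node (nat_lit 5)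
  (nat_lit 66701) (nat_lit 8) (node (nat_lit 6) (nat_lit 66314) (nat_lit 9) (node (nat_lit 4)
  (nat_lit 59089) (nat_lit 10) (node (nat_lit 6) (nat_lit 34965) (nat_lit 11) nil nil) nil) nil)
  nil) nil)) nil) (node (nat_lit 5) (nat_lit 66701) (nat_lit 5) (node (nat_lit 4) (nat_lit 66701)
  (nat_lit 6) (node (nat_lit 6) (nat_lit 66701) (nat_lit 7) nil nil) nil) (node (nat_lit 1)
  (nat_lit 66701) (nat_lit 5) (node (nat_lit 5) (nat_lit 66701) (nat_lit 6) (node (nat_lit 4)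
  (nat_lit 66701) (nat_lit 7) nil nil) (node (nat_lit 4) (nat_lit 66701) (nat_lit 6) nil nil))
  (node (nat_lit 0) (nat_lit 66701) (nat_lit 5) nil (node (nat_lit 2) (nat_lit 66701) (nat_lit 5)
  (node (nat_lit 5) (nat_lit 66701) (nat_lit 6) nil (node (nat_lit 1) (nat_lit 66701) (nat_lit 6)
  nil nil)) nil))))) (node (nat_lit 1) (nat_lit 66701) (nat_lit 4) (node (nat_lit 4) (nat_lit
  64762) (nat_lit 5) (node (nat_lit 5) (nat_lit 50660) (nat_lit 6) (node (nat_lit 6) (nat_lit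
  31736) (nat_lit 7) nil nil) (node (nat_lit 6) (nat_lit 66042) (nat_lit 6) nil (node (nat_lit 7)
  (nat_lit 66042) (nat_lit 6) nil nil))) (node (nat_lit 5) (nat_lit 66701) (nat_lit 5) (node
  (nat_lit 7) (nat_lit 66701) (nat_lit 6) nil (node (nat_lit 4) (nat_lit 66701) (nat_lit 6) nil
  nil)) (node (nat_lit 6) (nat_lit 66701) (nat_lit 5) (node (nat_lit 5) (nat_lit 66701) (nat_lit
  6) nil nil) nil))) (node (nat_lit 0) (nat_lit 66701) (nat_lit 4) (node (nat_lit 5) (nat_lit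
  66701) (nat_lit 5) nil (node (nat_lit 6) (nat_lit 66701) (nat_lit 5) nil nil)) (node (nat_lit 2)
  (nat_lit 66591) (nat_lit 4) (node (nat_lit 5) (nat_lit 66701) (nat_lit 5) nil (node (nat_lit 6)
  (nat_lit 66701) (nat_lit 5) (node (nat_lit 5) (nat_lit 66701) (nat_lit 6) nil nil) (node
  (nat_lit 4) (nat_lit 66701) (nat_lit 5) nil (node (nat_lit 1) (nat_lit 65305) (nat_lit 5) nil
  nil)))) nil))))) (node (nat_lit 1) (nat_lit 0) (nat_lit 3) (node (nat_lit 4) (nat_lit 0)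
  (nat_lit 4) (node (nat_lit 6) (nat_lit 0) (nat_lit 5) (node (nat_lit 5) (nat_lit 71829) (nat_lit
  6) (node (nat_lit 4) (nat_lit 74967) (nat_lit 7) nil nil) (node (nat_lit 0) (nat_lit 73142)
  (nat_lit 6) nil (node (nat_lit 2) (nat_lit 74892) (nat_lit 6) nil nil))) (node (nat_lit 5)
  (nat_lit 34724) (nat_lit 5) (node (nat_lit 4) (nat_lit 35694) (nat_lit 6) nil nil) (node
  (nat_lit 0) (nat_lit 74967) (nat_lit 5) nil (node (nat_lit 2) (nat_lit 74967) (nat_lit 5) (node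
  (nat_lit 5) (nat_lit 74187) (nat_lit 6) nil (node (nat_lit 4) (nat_lit 74967) (nat_lit 6) nil
  nil)) nil)))) (node (nat_lit 0) (nat_lit 72779) (nat_lit 4) (node (nat_lit 5) (nat_lit 74967)
  (nat_lit 5) (node (nat_lit 6) (nat_lit 74967) (nat_lit 6) (node (nat_lit 5) (nat_lit 74967)
  (nat_lit 7) nil nil) nil) (node (nat_lit 4) (nat_lit 74967) (nat_lit 5) nil (node (nat_lit 6)
  (nat_lit 74967) (nat_lit 5) (node (nat_lit 5) (nat_lit 74967) (nat_lit 6) nil nil) nil))) (node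
  (nat_lit 2) (nat_lit 72779) (nat_lit 4) (node (nat_lit 5) (nat_lit 74894) (nat_lit 5) (node
  (nat_lit 6) (nat_lit 74967) (nat_lit 6) (node (nat_lit 5) (nat_lit 74967) (nat_lit 7) (node
  (nat_lit 7) (nat_lit 74967) (nat_lit 8) (node (nat_lit 5) (nat_lit 74967) (nat_lit 9) nil nil)
  nil) nil) nil) (node (nat_lit 4) (nat_lit 74967) (nat_lit 5) nil (node (nat_lit 6) (nat_lit
  74967) (nat_lit 5) (node (nat_lit 5) (nat_lit 74967) (nat_lit 6) nil nil) nil))) (node (nat_lit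
  5) (nat_lit 0) (nat_lit 4) (node (nat_lit 4) (nat_lit 0) (nat_lit 5) (node (nat_lit 6) (nat_lit
  71993) (nat_lit 6) (node (nat_lit 4) (nat_lit 74967) (nat_lit 7) nil (node (nat_lit 5) (nat_lit
  74967) (nat_lit 7) nil nil)) (node (nat_lit 2) (nat_lit 74967) (nat_lit 6) nil (node (nat_lit 0)
  (nat_lit 74967) (nat_lit 6) nil (node (nat_lit 5) (nat_lit 71951) (nat_lit 6) (node (nat_lit 6)
  (nat_lit 39171) (nat_lit 7) nil nil) nil)))) (node (nat_lit 0) (nat_lit 74967) (nat_lit 5) nil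
  (node (nat_lit 2) (nat_lit 74967) (nat_lit 5) nil nil))) nil)))) nil)))) (node (nat_lit 0)
  (nat_lit 0) (nat_lit 2) (node (nat_lit 1) (nat_lit 0) (nat_lit 3) (node (nat_lit 4) (nat_lit
  75211) (nat_lit 4) (node (nat_lit 5) (nat_lit 36758) (nat_lit 5) (node (nat_lit 4) (nat_lit
  36758) (nat_lit 6) (node (nat_lit 6) (nat_lit 36758) (nat_lit 7) nil nil) nil) nil) (node
  (nat_lit 5) (nat_lit 75280) (nat_lit 4) (node (nat_lit 4) (nat_lit 76374) (nat_lit 5) (node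
  (nat_lit 6) (nat_lit 76667) (nat_lit 6) (node (nat_lit 4) (nat_lit 76667) (nat_lit 7) (node
  (nat_lit 5) (nat_lit 76667) (nat_lit 8) nil nil) nil) nil) (node (nat_lit 1) (nat_lit 76667)
  (nat_lit 5) (node (nat_lit 6) (nat_lit 76667) (nat_lit 6) nil nil) nil)) (node (nat_lit 1)
  (nat_lit 76667) (nat_lit 4) (node (nat_lit 5) (nat_lit 76667) (nat_lit 5) nil nil) (node
  (nat_lit 0) (nat_lit 76667) (nat_lit 4) nil (node (nat_lit 2) (nat_lit 73890) (nat_lit 4) nil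
  nil))))) (node (nat_lit 4) (nat_lit 0) (nat_lit 3) (node (nat_lit 1) (nat_lit 70994) (nat_lit 4)
  (node (nat_lit 5) (nat_lit 70994) (nat_lit 5) (node (nat_lit 7) (nat_lit 70994) (nat_lit 6)
  (node (nat_lit 4) (nat_lit 70994) (nat_lit 7) (node (nat_lit 5) (nat_lit 70994) (nat_lit 8)
  (node (nat_lit 4) (nat_lit 70994) (nat_lit 9) (node (nat_lit 7) (nat_lit 70994) (nat_lit 10) nil
  nil) nil) nil) nil) nil) nil) (node (nat_lit 0) (nat_lit 70994) (nat_lit 4) nil (node (nat_lit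
  2) (nat_lit 70994) (nat_lit 4) nil nil))) (node (nat_lit 0) (nat_lit 0) (nat_lit 3) (node
  (nat_lit 5) (nat_lit 73517) (nat_lit 4) nil (node (nat_lit 1) (nat_lit 73517) (nat_lit 4) (node
  (nat_lit 4) (nat_lit 73517) (nat_lit 5) (node (nat_lit 5) (nat_lit 73517) (nat_lit 6) nil nil)
  nil) (node (nat_lit 4) (nat_lit 73517) (nat_lit 4) (node (nat_lit 5) (nat_lit 73517) (nat_lit 5)
  nil nil) (node (nat_lit 0) (nat_lit 73517) (nat_lit 4) nil (node (nat_lit 2) (nat_lit 71548)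
  (nat_lit 4) nil nil))))) (node (nat_lit 2) (nat_lit 0) (nat_lit 3) (node (nat_lit 5) (nat_lit
  69930) (nat_lit 4) (node (nat_lit 4) (nat_lit 69930) (nat_lit 5) (node (nat_lit 6) (nat_lit
  69930) (nat_lit 6) nil nil) (node (nat_lit 1) (nat_lit 69930) (nat_lit 5) (node (nat_lit 4)
  (nat_lit 69930) (nat_lit 6) (node (nat_lit 5) (nat_lit 69930) (nat_lit 7) nil nil) nil) nil))
  (node (nat_lit 1) (nat_lit 69930) (nat_lit 4) (node (nat_lit 4) (nat_lit 69239) (nat_lit 5)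
  (node (nat_lit 5) (nat_lit 53950) (nat_lit 6) (node (nat_lit 6) (nat_lit 34965) (nat_lit 7) nil
  nil) nil) nil) (node (nat_lit 4) (nat_lit 69930) (nat_lit 4) (node (nat_lit 6) (nat_lit 69930)
  (nat_lit 5) (node (nat_lit 5) (nat_lit 69930) (nat_lit 6) nil nil) (node (nat_lit 5) (nat_lit
  69930) (nat_lit 5) nil nil)) (node (nat_lit 0) (nat_lit 69930) (nat_lit 4) nil (node (nat_lit 2)
  (nat_lit 0) (nat_lit 4) (node (nat_lit 6) (nat_lit 68994) (nat_lit 5) nil (node (nat_lit 1)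
  (nat_lit 68596) (nat_lit 5) nil (node (nat_lit 5) (nat_lit 69930) (nat_lit 5) nil (node (nat_lit
  4) (nat_lit 69930) (nat_lit 5) nil (node (nat_lit 0) (nat_lit 69930) (nat_lit 5) nil (node
  (nat_lit 2) (nat_lit 65947) (nat_lit 5) nil nil)))))) nil))))) nil)))) (node (nat_lit 2)
  (nat_lit 0) (nat_lit 2) (node (nat_lit 1) (nat_lit 0) (nat_lit 3) (node (nat_lit 4) (nat_lit 0)
  (nat_lit 4) (node (nat_lit 6) (nat_lit 52259) (nat_lit 5) (node (nat_lit 5) (nat_lit 54946)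
  (nat_lit 6) (node (nat_lit 6) (nat_lit 56140) (nat_lit 7) (node (nat_lit 0) (nat_lit 58427)
  (nat_lit 8) nil (node (nat_lit 2) (nat_lit 58427) (nat_lit 8) nil (node (nat_lit 1) (nat_lit
  58427) (nat_lit 8) nil (node (nat_lit 4) (nat_lit 56991) (nat_lit 8) nil nil)))) (node (nat_lit
  4) (nat_lit 56140) (nat_lit 7) (node (nat_lit 5) (nat_lit 56991) (nat_lit 8) nil (node (nat_lit
  6) (nat_lit 56991) (nat_lit 8) (node (nat_lit 4) (nat_lit 57629) (nat_lit 9) (node (nat_lit 5)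
  (nat_lit 58127) (nat_lit 10) (node (nat_lit 6) (nat_lit 58516) (nat_lit 11) (node (nat_lit 4)
  (nat_lit 58819) (nat_lit 12) nil nil) nil) nil) nil) nil)) (node (nat_lit 1) (nat_lit 57578)
  (nat_lit 7) nil nil))) (node (nat_lit 1) (nat_lit 55846) (nat_lit 6) (node (nat_lit 4) (nat_lit
  57353) (nat_lit 7) (node (nat_lit 5) (nat_lit 58202) (nat_lit 8) nil nil) (node (nat_lit 6)
  (nat_lit 57230) (nat_lit 7) nil (node (nat_lit 5) (nat_lit 57230) (nat_lit 7) nil nil))) (node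
  (nat_lit 2) (nat_lit 54726) (nat_lit 6) nil (node (nat_lit 0) (nat_lit 55846) (nat_lit 6) nil
  nil)))) (node (nat_lit 5) (nat_lit 35007) (nat_lit 5) (node (nat_lit 4) (nat_lit 35007) (nat_lit
  6) (node (nat_lit 6) (nat_lit 35007) (nat_lit 7) nil nil) (node (nat_lit 1) (nat_lit 34840)
  (nat_lit 6) (node (nat_lit 6) (nat_lit 35007) (nat_lit 7) nil nil) nil)) (node (nat_lit 1)
  (nat_lit 55912) (nat_lit 5) (node (nat_lit 5) (nat_lit 57018) (nat_lit 6) nil (node (nat_lit 4)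
  (nat_lit 57186) (nat_lit 6) nil (node (nat_lit 6) (nat_lit 56854) (nat_lit 6) nil nil))) (node
  (nat_lit 0) (nat_lit 55912) (nat_lit 5) (node (nat_lit 6) (nat_lit 56854) (nat_lit 6) nil nil)
  (node (nat_lit 2) (nat_lit 54930) (nat_lit 5) (node (nat_lit 6) (nat_lit 55873) (nat_lit 6)
  (node (nat_lit 4) (nat_lit 55234) (nat_lit 7) nil nil) nil) nil))))) (node (nat_lit 5) (nat_lit
  0) (nat_lit 4) (node (nat_lit 4) (nat_lit 66163) (nat_lit 5) (node (nat_lit 6) (nat_lit 67269)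
  (nat_lit 6) (node (nat_lit 4) (nat_lit 68231) (nat_lit 7) (node (nat_lit 5) (nat_lit 68231)
  (nat_lit 8) (node (nat_lit 6) (nat_lit 68231) (nat_lit 9) (node (nat_lit 5) (nat_lit 68231)
  (nat_lit 10) (node (nat_lit 4) (nat_lit 35007) (nat_lit 11) nil nil) nil) (node (nat_lit 4)
  (nat_lit 68231) (nat_lit 9) (node (nat_lit 6) (nat_lit 68231) (nat_lit 10) nil nil) nil)) (node
  (nat_lit 1) (nat_lit 68231) (nat_lit 8) (node (nat_lit 4) (nat_lit 68231) (nat_lit 9) (node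
  (nat_lit 5) (nat_lit 68231) (nat_lit 10) (node (nat_lit 6) (nat_lit 68231) (nat_lit 11) nil nil)
  nil) nil) nil)) (node (nat_lit 1) (nat_lit 68231) (nat_lit 7) (node (nat_lit 4) (nat_lit 68231)
  (nat_lit 8) (node (nat_lit 5) (nat_lit 68231) (nat_lit 9) nil nil) nil) (node (nat_lit 2)
  (nat_lit 68231) (nat_lit 7) nil (node (nat_lit 0) (nat_lit 68231) (nat_lit 7) nil nil)))) (node
  (nat_lit 5) (nat_lit 67234) (nat_lit 6) (node (nat_lit 6) (nat_lit 68231) (nat_lit 7) nil (node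
  (nat_lit 1) (nat_lit 68231) (nat_lit 7) (node (nat_lit 4) (nat_lit 68231) (nat_lit 8) (node
  (nat_lit 5) (nat_lit 68231) (nat_lit 9) (node (nat_lit 6) (nat_lit 66590) (nat_lit 10) nil nil)
  nil) nil) (node (nat_lit 2) (nat_lit 68231) (nat_lit 7) nil (node (nat_lit 0) (nat_lit 68231)
  (nat_lit 7) nil nil)))) (node (nat_lit 1) (nat_lit 68231) (nat_lit 6) (node (nat_lit 4) (nat_lit
  68231) (nat_lit 7) (node (nat_lit 5) (nat_lit 68231) (nat_lit 8) nil nil) nil) (node (nat_lit 0)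
  (nat_lit 68231) (nat_lit 6) nil (node (nat_lit 2) (nat_lit 68231) (nat_lit 6) nil nil))))) (node
  (nat_lit 1) (nat_lit 68231) (nat_lit 5) (node (nat_lit 6) (nat_lit 68231) (nat_lit 6) (node
  (nat_lit 8) (nat_lit 68231) (nat_lit 7) (node (nat_lit 5) (nat_lit 68231) (nat_lit 8) (node
  (nat_lit 8) (nat_lit 68231) (nat_lit 9) (node (nat_lit 6) (nat_lit 68231) (nat_lit 10) nil nil)
  nil) (node (nat_lit 4) (nat_lit 68231) (nat_lit 8) (node (nat_lit 5) (nat_lit 68231) (nat_lit 9)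
  nil nil) nil)) (node (nat_lit 4) (nat_lit 68231) (nat_lit 7) (node (nat_lit 5) (nat_lit 68231)
  (nat_lit 8) nil nil) nil)) (node (nat_lit 4) (nat_lit 68231) (nat_lit 6) (node (nat_lit 5)
  (nat_lit 65547) (nat_lit 7) (node (nat_lit 6) (nat_lit 46903) (nat_lit 8) nil nil) nil) nil))
  (node (nat_lit 0) (nat_lit 68231) (nat_lit 5) (node (nat_lit 6) (nat_lit 68231) (nat_lit 6) nil
  nil) (node (nat_lit 2) (nat_lit 68231) (nat_lit 5) (node (nat_lit 6) (nat_lit 68231) (nat_lit 6)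
  nil nil) nil)))) (node (nat_lit 1) (nat_lit 68231) (nat_lit 4) (node (nat_lit 5) (nat_lit 68231)
  (nat_lit 5) (node (nat_lit 7) (nat_lit 68231) (nat_lit 6) (node (nat_lit 6) (nat_lit 68231)
  (nat_lit 7) (node (nat_lit 7) (nat_lit 68231) (nat_lit 8) nil nil) nil) (node (nat_lit 4)
  (nat_lit 68231) (nat_lit 6) nil (node (nat_lit 6) (nat_lit 68231) (nat_lit 6) (node (nat_lit 5)
  (nat_lit 68231) (nat_lit 7) (node (nat_lit 7) (nat_lit 68231) (nat_lit 8) nil nil) nil) nil)))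
  (node (nat_lit 4) (nat_lit 68231) (nat_lit 5) (node (nat_lit 5) (nat_lit 68231) (nat_lit 6)
  (node (nat_lit 6) (nat_lit 33158) (nat_lit 7) nil nil) nil) (node (nat_lit 6) (nat_lit 68231)
  (nat_lit 5) (node (nat_lit 4) (nat_lit 68231) (nat_lit 6) nil nil) nil))) (node (nat_lit 0)
  (nat_lit 68231) (nat_lit 4) (node (nat_lit 6) (nat_lit 68231) (nat_lit 5) nil (node (nat_lit 4)
  (nat_lit 68231) (nat_lit 5) nil (node (nat_lit 1) (nat_lit 68231) (nat_lit 5) nil nil))) (node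
  (nat_lit 2) (nat_lit 66200) (nat_lit 4) (node (nat_lit 5) (nat_lit 67677) (nat_lit 5) nil (node
  (nat_lit 6) (nat_lit 66540) (nat_lit 5) (node (nat_lit 4) (nat_lit 68231) (nat_lit 6) (node
  (nat_lit 5) (nat_lit 66903) (nat_lit 7) (node (nat_lit 6) (nat_lit 53511) (nat_lit 8) (node
  (nat_lit 7) (nat_lit 35007) (nat_lit 9) nil nil) nil) nil) nil) (node (nat_lit 4) (nat_lit
  68231) (nat_lit 5) nil (node (nat_lit 1) (nat_lit 66494) (nat_lit 5) nil nil)))) nil))))) (node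
  (nat_lit 4) (nat_lit 0) (nat_lit 3) (node (nat_lit 1) (nat_lit 0) (nat_lit 4) (node (nat_lit 4)
  (nat_lit 64319) (nat_lit 5) (node (nat_lit 5) (nat_lit 64567) (nat_lit 6) (node (nat_lit 4)
  (nat_lit 32283) (nat_lit 7) nil (node (nat_lit 7) (nat_lit 64567) (nat_lit 7) nil nil)) (node
  (nat_lit 1) (nat_lit 64567) (nat_lit 6) nil nil)) (node (nat_lit 5) (nat_lit 64172) (nat_lit 5)
  (node (nat_lit 7) (nat_lit 64567) (nat_lit 6) (node (nat_lit 4) (nat_lit 64567) (nat_lit 7)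
  (node (nat_lit 5) (nat_lit 64567) (nat_lit 8) (node (nat_lit 4) (nat_lit 64567) (nat_lit 9)
  (node (nat_lit 7) (nat_lit 54344) (nat_lit 10) (node (nat_lit 5) (nat_lit 32283) (nat_lit 11)
  nil nil) nil) nil) nil) nil) (node (nat_lit 1) (nat_lit 64567) (nat_lit 6) nil (node (nat_lit 4)
  (nat_lit 64567) (nat_lit 6) nil nil))) (node (nat_lit 1) (nat_lit 64567) (nat_lit 5) (node
  (nat_lit 4) (nat_lit 64567) (nat_lit 6) nil nil) (node (nat_lit 0) (nat_lit 64567) (nat_lit 5)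
  nil (node (nat_lit 2) (nat_lit 64567) (nat_lit 5) nil nil))))) (node (nat_lit 0) (nat_lit 64567)
  (nat_lit 4) (node (nat_lit 4) (nat_lit 64567) (nat_lit 5) nil (node (nat_lit 1) (nat_lit 64567)
  (nat_lit 5) nil nil)) (node (nat_lit 2) (nat_lit 64567) (nat_lit 4) (node (nat_lit 5) (nat_lit
  64567) (nat_lit 5) (node (nat_lit 7) (nat_lit 64567) (nat_lit 6) nil nil) (node (nat_lit 4)
  (nat_lit 64567) (nat_lit 5) (node (nat_lit 5) (nat_lit 64567) (nat_lit 6) (node (nat_lit 7)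
  (nat_lit 64567) (nat_lit 7) nil nil) nil) (node (nat_lit 1) (nat_lit 64567) (nat_lit 5) (node
  (nat_lit 4) (nat_lit 64567) (nat_lit 6) (node (nat_lit 5) (nat_lit 63302) (nat_lit 7) (node
  (nat_lit 4) (nat_lit 44702) (nat_lit 8) nil nil) nil) nil) nil))) nil))) (node (nat_lit 0)
  (nat_lit 0) (nat_lit 3) (node (nat_lit 5) (nat_lit 70014) (nat_lit 4) (node (nat_lit 4) (nat_lit
  70014) (nat_lit 5) (node (nat_lit 6) (nat_lit 70014) (nat_lit 6) nil nil) (node (nat_lit 1)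
  (nat_lit 70014) (nat_lit 5) (node (nat_lit 4) (nat_lit 70014) (nat_lit 6) nil nil) nil)) (node
  (nat_lit 1) (nat_lit 70014) (nat_lit 4) (node (nat_lit 4) (nat_lit 70014) (nat_lit 5) (node
  (nat_lit 5) (nat_lit 70014) (nat_lit 6) nil nil) nil) (node (nat_lit 4) (nat_lit 70014) (nat_lit
  4) (node (nat_lit 6) (nat_lit 70014) (nat_lit 5) nil (node (nat_lit 5) (nat_lit 70014) (nat_lit
  5) nil nil)) (node (nat_lit 0) (nat_lit 70014) (nat_lit 4) nil (node (nat_lit 2) (nat_lit 70014)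
  (nat_lit 4) nil nil))))) (node (nat_lit 2) (nat_lit 0) (nat_lit 3) (node (nat_lit 5) (nat_lit 0)
  (nat_lit 4) (node (nat_lit 4) (nat_lit 67879) (nat_lit 5) (node (nat_lit 6) (nat_lit 67879)
  (nat_lit 6) (node (nat_lit 5) (nat_lit 67879) (nat_lit 7) nil nil) nil) (node (nat_lit 1)
  (nat_lit 67879) (nat_lit 5) (node (nat_lit 4) (nat_lit 67522) (nat_lit 6) (node (nat_lit 5)
  (nat_lit 61331) (nat_lit 7) (node (nat_lit 6) (nat_lit 49257) (nat_lit 8) nil nil) nil) nil)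
  (node (nat_lit 0) (nat_lit 67879) (nat_lit 5) nil (node (nat_lit 2) (nat_lit 65178) (nat_lit 5)
  (node (nat_lit 6) (nat_lit 63821) (nat_lit 6) nil (node (nat_lit 4) (nat_lit 67879) (nat_lit 6)
  nil (node (nat_lit 5) (nat_lit 65119) (nat_lit 6) nil (node (nat_lit 1) (nat_lit 65112) (nat_lit
  6) nil nil)))) nil)))) (node (nat_lit 1) (nat_lit 67404) (nat_lit 4) (node (nat_lit 4) (nat_lit
  60885) (nat_lit 5) (node (nat_lit 5) (nat_lit 50388) (nat_lit 6) (node (nat_lit 6) (nat_lit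
  31905) (nat_lit 7) nil nil) nil) (node (nat_lit 6) (nat_lit 66878) (nat_lit 5) nil (node
  (nat_lit 5) (nat_lit 66878) (nat_lit 5) (node (nat_lit 7) (nat_lit 67752) (nat_lit 6) nil nil)
  nil))) (node (nat_lit 4) (nat_lit 0) (nat_lit 4) (node (nat_lit 6) (nat_lit 67879) (nat_lit 5)
  (node (nat_lit 5) (nat_lit 67879) (nat_lit 6) (node (nat_lit 6) (nat_lit 67879) (nat_lit 7)
  (node (nat_lit 4) (nat_lit 67879) (nat_lit 8) nil (node (nat_lit 1) (nat_lit 67879) (nat_lit 8)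
  nil nil)) (node (nat_lit 4) (nat_lit 67879) (nat_lit 7) (node (nat_lit 5) (nat_lit 67879)
  (nat_lit 8) nil (node (nat_lit 6) (nat_lit 67879) (nat_lit 8) nil nil)) (node (nat_lit 1)
  (nat_lit 67879) (nat_lit 7) (node (nat_lit 4) (nat_lit 67879) (nat_lit 8) nil nil) nil))) nil)
  (node (nat_lit 1) (nat_lit 67879) (nat_lit 5) (node (nat_lit 4) (nat_lit 67879) (nat_lit 6) nil
  nil) (node (nat_lit 5) (nat_lit 67879) (nat_lit 5) (node (nat_lit 4) (nat_lit 67879) (nat_lit 6)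
  nil nil) (node (nat_lit 0) (nat_lit 67879) (nat_lit 5) nil (node (nat_lit 2) (nat_lit 67879)
  (nat_lit 5) nil nil))))) (node (nat_lit 0) (nat_lit 67879) (nat_lit 4) (node (nat_lit 6)
  (nat_lit 66878) (nat_lit 5) nil (node (nat_lit 5) (nat_lit 66878) (nat_lit 5) nil nil)) (node
  (nat_lit 2) (nat_lit 0) (nat_lit 4) (node (nat_lit 6) (nat_lit 64555) (nat_lit 5) (node (nat_lit
  5) (nat_lit 64555) (nat_lit 6) (node (nat_lit 6) (nat_lit 63449) (nat_lit 7) nil nil) (node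
  (nat_lit 4) (nat_lit 67270) (nat_lit 6) nil (node (nat_lit 1) (nat_lit 65529) (nat_lit 6) nil
  nil))) (node (nat_lit 1) (nat_lit 66086) (nat_lit 5) nil (node (nat_lit 5) (nat_lit 66187)
  (nat_lit 5) (node (nat_lit 6) (nat_lit 64961) (nat_lit 6) nil (node (nat_lit 7) (nat_lit 64859)
  (nat_lit 6) (node (nat_lit 6) (nat_lit 63311) (nat_lit 7) nil nil) nil)) (node (nat_lit 4)
  (nat_lit 67879) (nat_lit 5) nil (node (nat_lit 0) (nat_lit 67879) (nat_lit 5) nil nil)))))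
  nil))))) nil)))) nil)))

noncomputable def t442 : Tr :=
  (node (nat_lit 1) (nat_lit 0) (nat_lit 3) (node (nat_lit 1) (nat_lit 0) (nat_lit 4) (node
  (nat_lit 5) (nat_lit 89587) (nat_lit 5) (node (nat_lit 7) (nat_lit 90462) (nat_lit 6) nil (node
  (nat_lit 6) (nat_lit 90462) (nat_lit 6) nil nil)) (node (nat_lit 6) (nat_lit 89587) (nat_lit 5)
  (node (nat_lit 5) (nat_lit 90462) (nat_lit 6) nil (node (nat_lit 4) (nat_lit 90462) (nat_lit 6)
  nil nil)) (node (nat_lit 1) (nat_lit 89587) (nat_lit 5) (node (nat_lit 6) (nat_lit 90462)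
  (nat_lit 6) nil nil) (node (nat_lit 4) (nat_lit 89587) (nat_lit 5) (node (nat_lit 5) (nat_lit
  90462) (nat_lit 6) (node (nat_lit 6) (nat_lit 56077) (nat_lit 7) nil nil) (node (nat_lit 6)
  (nat_lit 90462) (nat_lit 6) nil nil)) (node (nat_lit 0) (nat_lit 89587) (nat_lit 5) nil (node
  (nat_lit 2) (nat_lit 89587) (nat_lit 5) nil nil)))))) (node (nat_lit 4) (nat_lit 0) (nat_lit 4)
  (node (nat_lit 5) (nat_lit 58992) (nat_lit 5) (node (nat_lit 4) (nat_lit 59866) (nat_lit 6)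
  (node (nat_lit 6) (nat_lit 60503) (nat_lit 7) (node (nat_lit 4) (nat_lit 60922) (nat_lit 8)
  (node (nat_lit 5) (nat_lit 61212) (nat_lit 9) nil nil) nil) nil) (node (nat_lit 1) (nat_lit
  59866) (nat_lit 6) nil nil)) (node (nat_lit 6) (nat_lit 72919) (nat_lit 5) (node (nat_lit 5)
  (nat_lit 79136) (nat_lit 6) (node (nat_lit 4) (nat_lit 80535) (nat_lit 7) (node (nat_lit 5)
  (nat_lit 81974) (nat_lit 8) (node (nat_lit 6) (nat_lit 82612) (nat_lit 9) nil nil) (node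
  (nat_lit 6) (nat_lit 81509) (nat_lit 8) (node (nat_lit 4) (nat_lit 82147) (nat_lit 9) (node
  (nat_lit 5) (nat_lit 83261) (nat_lit 10) (node (nat_lit 6) (nat_lit 83334) (nat_lit 11) (node
  (nat_lit 4) (nat_lit 78960) (nat_lit 12) (node (nat_lit 6) (nat_lit 74086) (nat_lit 13) (node
  (nat_lit 5) (nat_lit 67110) (nat_lit 14) (node (nat_lit 4) (nat_lit 59074) (nat_lit 15) nil nil)
  nil) nil) nil) nil) nil) nil) (node (nat_lit 0) (nat_lit 83404) (nat_lit 8) nil (node (nat_lit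
  1) (nat_lit 83404) (nat_lit 8) nil (node (nat_lit 2) (nat_lit 82945) (nat_lit 8) nil nil)))))
  (node (nat_lit 6) (nat_lit 80594) (nat_lit 7) (node (nat_lit 4) (nat_lit 81509) (nat_lit 8) nil
  nil) (node (nat_lit 1) (nat_lit 82517) (nat_lit 7) (node (nat_lit 4) (nat_lit 83365) (nat_lit 8)
  nil nil) (node (nat_lit 0) (nat_lit 82517) (nat_lit 7) nil (node (nat_lit 2) (nat_lit 82287)
  (nat_lit 7) nil nil))))) (node (nat_lit 1) (nat_lit 80741) (nat_lit 6) (node (nat_lit 4)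
  (nat_lit 82126) (nat_lit 7) nil nil) (node (nat_lit 0) (nat_lit 80741) (nat_lit 6) nil (node
  (nat_lit 2) (nat_lit 75948) (nat_lit 6) (node (nat_lit 5) (nat_lit 81853) (nat_lit 7) nil nil)
  nil)))) (node (nat_lit 1) (nat_lit 80342) (nat_lit 5) (node (nat_lit 6) (nat_lit 81395) (nat_lit
  6) (node (nat_lit 5) (nat_lit 82429) (nat_lit 7) nil (node (nat_lit 4) (nat_lit 82026) (nat_lit
  7) nil nil)) (node (nat_lit 4) (nat_lit 81334) (nat_lit 6) (node (nat_lit 5) (nat_lit 79267)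
  (nat_lit 7) (node (nat_lit 6) (nat_lit 73563) (nat_lit 8) (node (nat_lit 4) (nat_lit 48008)
  (nat_lit 9) nil nil) nil) nil) (node (nat_lit 5) (nat_lit 81903) (nat_lit 6) nil nil))) (node
  (nat_lit 0) (nat_lit 80342) (nat_lit 5) (node (nat_lit 5) (nat_lit 81903) (nat_lit 6) nil (node
  (nat_lit 6) (nat_lit 81395) (nat_lit 6) nil nil)) (node (nat_lit 2) (nat_lit 76194) (nat_lit 5)
  (node (nat_lit 5) (nat_lit 82012) (nat_lit 6) nil (node (nat_lit 6) (nat_lit 77222) (nat_lit 6)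
  (node (nat_lit 4) (nat_lit 77850) (nat_lit 7) nil nil) nil)) nil))))) (node (nat_lit 5) (nat_lit
  0) (nat_lit 4) (node (nat_lit 4) (nat_lit 83638) (nat_lit 5) (node (nat_lit 6) (nat_lit 84914)
  (nat_lit 6) (node (nat_lit 4) (nat_lit 89829) (nat_lit 7) (node (nat_lit 5) (nat_lit 91412)
  (nat_lit 8) (node (nat_lit 6) (nat_lit 87993) (nat_lit 9) (node (nat_lit 5) (nat_lit 84697)
  (nat_lit 10) (node (nat_lit 4) (nat_lit 60928) (nat_lit 11) nil nil) nil) nil) nil) nil) (node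
  (nat_lit 5) (nat_lit 84893) (nat_lit 6) (node (nat_lit 6) (nat_lit 89971) (nat_lit 7) nil (node
  (nat_lit 1) (nat_lit 91099) (nat_lit 7) nil nil)) (node (nat_lit 1) (nat_lit 90462) (nat_lit 6)
  nil (node (nat_lit 0) (nat_lit 90462) (nat_lit 6) nil (node (nat_lit 2) (nat_lit 89805) (nat_lit
  6) nil nil))))) (node (nat_lit 1) (nat_lit 89587) (nat_lit 5) (node (nat_lit 6) (nat_lit 90462)
  (nat_lit 6) nil (node (nat_lit 4) (nat_lit 90462) (nat_lit 6) (node (nat_lit 5) (nat_lit 82657)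
  (nat_lit 7) (node (nat_lit 6) (nat_lit 75573) (nat_lit 8) nil nil) nil) nil)) (node (nat_lit 0)
  (nat_lit 89587) (nat_lit 5) nil (node (nat_lit 2) (nat_lit 89587) (nat_lit 5) nil nil)))) (node
  (nat_lit 0) (nat_lit 88178) (nat_lit 4) (node (nat_lit 6) (nat_lit 89587) (nat_lit 5) (node
  (nat_lit 4) (nat_lit 90462) (nat_lit 6) (node (nat_lit 5) (nat_lit 89283) (nat_lit 7) nil nil)
  nil) (node (nat_lit 5) (nat_lit 89587) (nat_lit 5) nil (node (nat_lit 1) (nat_lit 89587)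
  (nat_lit 5) nil (node (nat_lit 4) (nat_lit 89587) (nat_lit 5) nil nil)))) (node (nat_lit 2)
  (nat_lit 0) (nat_lit 4) (node (nat_lit 6) (nat_lit 87067) (nat_lit 5) (node (nat_lit 5) (nat_lit
  89277) (nat_lit 6) nil (node (nat_lit 4) (nat_lit 90462) (nat_lit 6) (node (nat_lit 5) (nat_lit
  88356) (nat_lit 7) (node (nat_lit 6) (nat_lit 70043) (nat_lit 8) (node (nat_lit 7) (nat_lit
  60150) (nat_lit 9) nil nil) nil) nil) nil)) (node (nat_lit 5) (nat_lit 89587) (nat_lit 5) (node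
  (nat_lit 6) (nat_lit 90462) (nat_lit 6) nil nil) (node (nat_lit 1) (nat_lit 89587) (nat_lit 5)
  nil (node (nat_lit 4) (nat_lit 89587) (nat_lit 5) (node (nat_lit 6) (nat_lit 90462) (nat_lit 6)
  nil nil) (node (nat_lit 0) (nat_lit 89587) (nat_lit 5) nil nil))))) nil))))) (node (nat_lit 0)
  (nat_lit 0) (nat_lit 3) (node (nat_lit 1) (nat_lit 92605) (nat_lit 4) (node (nat_lit 5) (nat_lit
  94014) (nat_lit 5) nil (node (nat_lit 4) (nat_lit 94014) (nat_lit 5) (node (nat_lit 5) (nat_lit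
  94364) (nat_lit 6) nil nil) nil)) (node (nat_lit 4) (nat_lit 0) (nat_lit 4) (node (nat_lit 6)
  (nat_lit 94014) (nat_lit 5) (node (nat_lit 5) (nat_lit 94888) (nat_lit 6) (node (nat_lit 4)
  (nat_lit 95525) (nat_lit 7) nil nil) nil) (node (nat_lit 1) (nat_lit 94014) (nat_lit 5) (node
  (nat_lit 4) (nat_lit 92450) (nat_lit 6) nil nil) (node (nat_lit 5) (nat_lit 94014) (nat_lit 5)
  (node (nat_lit 4) (nat_lit 94888) (nat_lit 6) nil nil) (node (nat_lit 0) (nat_lit 94014)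
  (nat_lit 5) nil (node (nat_lit 2) (nat_lit 94014) (nat_lit 5) nil nil))))) (node (nat_lit 5)
  (nat_lit 92605) (nat_lit 4) (node (nat_lit 4) (nat_lit 94014) (nat_lit 5) nil (node (nat_lit 1)
  (nat_lit 94014) (nat_lit 5) nil nil)) (node (nat_lit 0) (nat_lit 92605) (nat_lit 4) nil (node
  (nat_lit 2) (nat_lit 90466) (nat_lit 4) (node (nat_lit 6) (nat_lit 94014) (nat_lit 5) nil nil)
  nil))))) (node (nat_lit 4) (nat_lit 0) (nat_lit 3) (node (nat_lit 1) (nat_lit 0) (nat_lit 4)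
  (node (nat_lit 4) (nat_lit 71664) (nat_lit 5) (node (nat_lit 5) (nat_lit 73118) (nat_lit 6)
  (node (nat_lit 7) (nat_lit 74895) (nat_lit 7) (node (nat_lit 5) (nat_lit 75954) (nat_lit 8)
  (node (nat_lit 4) (nat_lit 77825) (nat_lit 9) (node (nat_lit 7) (nat_lit 78342) (nat_lit 10) nil
  (node (nat_lit 5) (nat_lit 78342) (nat_lit 10) nil nil)) nil) (node (nat_lit 4) (nat_lit 77104)
  (nat_lit 8) (node (nat_lit 7) (nat_lit 77766) (nat_lit 9) (node (nat_lit 5) (nat_lit 78283)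
  (nat_lit 10) nil nil) nil) (node (nat_lit 1) (nat_lit 78613) (nat_lit 8) nil (node (nat_lit 2)
  (nat_lit 77416) (nat_lit 8) nil (node (nat_lit 0) (nat_lit 78613) (nat_lit 8) nil nil))))) (node
  (nat_lit 4) (nat_lit 54746) (nat_lit 7) (node (nat_lit 1) (nat_lit 54905) (nat_lit 8) (node
  (nat_lit 4) (nat_lit 51925) (nat_lit 9) nil nil) nil) (node (nat_lit 2) (nat_lit 76603) (nat_lit
  7) nil (node (nat_lit 0) (nat_lit 77814) (nat_lit 7) nil (node (nat_lit 1) (nat_lit 77814)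
  (nat_lit 7) nil nil))))) (node (nat_lit 1) (nat_lit 79672) (nat_lit 6) (node (nat_lit 7)
  (nat_lit 80991) (nat_lit 7) nil nil) (node (nat_lit 0) (nat_lit 79672) (nat_lit 6) nil (node
  (nat_lit 2) (nat_lit 79672) (nat_lit 6) nil nil)))) (node (nat_lit 5) (nat_lit 71663) (nat_lit
  5) (node (nat_lit 7) (nat_lit 73122) (nat_lit 6) (node (nat_lit 4) (nat_lit 78543) (nat_lit 7)
  (node (nat_lit 5) (nat_lit 78849) (nat_lit 8) (node (nat_lit 4) (nat_lit 78165) (nat_lit 9)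
  (node (nat_lit 7) (nat_lit 70176) (nat_lit 10) (node (nat_lit 5) (nat_lit 52862) (nat_lit 11)
  nil nil) nil) nil) nil) nil) (node (nat_lit 4) (nat_lit 73126) (nat_lit 6) (node (nat_lit 5)
  (nat_lit 78188) (nat_lit 7) (node (nat_lit 7) (nat_lit 80091) (nat_lit 8) (node (nat_lit 4)
  (nat_lit 80570) (nat_lit 9) nil nil) nil) nil) (node (nat_lit 1) (nat_lit 80659) (nat_lit 6) nil
  (node (nat_lit 0) (nat_lit 80659) (nat_lit 6) nil (node (nat_lit 2) (nat_lit 80659) (nat_lit 6)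
  nil nil))))) (node (nat_lit 1) (nat_lit 82363) (nat_lit 5) (node (nat_lit 7) (nat_lit 83263)
  (nat_lit 6) (node (nat_lit 4) (nat_lit 82153) (nat_lit 7) nil nil) (node (nat_lit 4) (nat_lit
  83263) (nat_lit 6) (node (nat_lit 5) (nat_lit 82153) (nat_lit 7) (node (nat_lit 4) (nat_lit
  81267) (nat_lit 8) (node (nat_lit 7) (nat_lit 52133) (nat_lit 9) nil nil) nil) nil) (node
  (nat_lit 5) (nat_lit 83263) (nat_lit 6) nil nil))) (node (nat_lit 0) (nat_lit 82363) (nat_lit 5)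
  (node (nat_lit 7) (nat_lit 83263) (nat_lit 6) nil nil) (node (nat_lit 2) (nat_lit 82363)
  (nat_lit 5) (node (nat_lit 7) (nat_lit 83263) (nat_lit 6) (node (nat_lit 4) (nat_lit 83593)
  (nat_lit 7) nil nil) (node (nat_lit 5) (nat_lit 83263) (nat_lit 6) (node (nat_lit 7) (nat_lit
  83844) (nat_lit 7) nil nil) nil)) nil))))) (node (nat_lit 0) (nat_lit 0) (nat_lit 4) (node
  (nat_lit 4) (nat_lit 82363) (nat_lit 5) (node (nat_lit 5) (nat_lit 83263) (nat_lit 6) (node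
  (nat_lit 7) (nat_lit 83844) (nat_lit 7) (node (nat_lit 5) (nat_lit 82958) (nat_lit 8) (node
  (nat_lit 4) (nat_lit 82232) (nat_lit 9) nil nil) (node (nat_lit 4) (nat_lit 82958) (nat_lit 8)
  (node (nat_lit 7) (nat_lit 83222) (nat_lit 9) nil nil) nil)) nil) (node (nat_lit 1) (nat_lit
  83263) (nat_lit 6) nil nil)) (node (nat_lit 5) (nat_lit 82363) (nat_lit 5) (node (nat_lit 4)
  (nat_lit 83263) (nat_lit 6) (node (nat_lit 5) (nat_lit 83844) (nat_lit 7) (node (nat_lit 7)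
  (nat_lit 84226) (nat_lit 8) (node (nat_lit 4) (nat_lit 83501) (nat_lit 9) nil nil) nil) nil)
  (node (nat_lit 7) (nat_lit 83263) (nat_lit 6) (node (nat_lit 4) (nat_lit 83844) (nat_lit 7) nil
  nil) nil)) (node (nat_lit 1) (nat_lit 82363) (nat_lit 5) (node (nat_lit 4) (nat_lit 83263)
  (nat_lit 6) (node (nat_lit 5) (nat_lit 82153) (nat_lit 7) nil nil) (node (nat_lit 7) (nat_lit
  83263) (nat_lit 6) nil nil)) (node (nat_lit 0) (nat_lit 82363) (nat_lit 5) nil (node (nat_lit 2)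
  (nat_lit 82363) (nat_lit 5) nil nil))))) (node (nat_lit 2) (nat_lit 0) (nat_lit 4) (node
  (nat_lit 4) (nat_lit 82363) (nat_lit 5) (node (nat_lit 5) (nat_lit 83263) (nat_lit 6) (node
  (nat_lit 7) (nat_lit 83844) (nat_lit 7) (node (nat_lit 5) (nat_lit 84226) (nat_lit 8) (node
  (nat_lit 4) (nat_lit 84491) (nat_lit 9) nil nil) (node (nat_lit 4) (nat_lit 84226) (nat_lit 8)
  (node (nat_lit 7) (nat_lit 84491) (nat_lit 9) nil nil) (node (nat_lit 1) (nat_lit 84226)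
  (nat_lit 8) nil (node (nat_lit 0) (nat_lit 84226) (nat_lit 8) nil nil)))) (node (nat_lit 4)
  (nat_lit 83844) (nat_lit 7) nil (node (nat_lit 1) (nat_lit 83844) (nat_lit 7) nil (node (nat_lit
  0) (nat_lit 83844) (nat_lit 7) nil nil)))) (node (nat_lit 1) (nat_lit 83263) (nat_lit 6) nil
  (node (nat_lit 0) (nat_lit 83263) (nat_lit 6) nil nil))) (node (nat_lit 5) (nat_lit 82363)
  (nat_lit 5) (node (nat_lit 7) (nat_lit 83263) (nat_lit 6) (node (nat_lit 4) (nat_lit 83844)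
  (nat_lit 7) (node (nat_lit 5) (nat_lit 84226) (nat_lit 8) nil (node (nat_lit 7) (nat_lit 84226)
  (nat_lit 8) nil nil)) nil) (node (nat_lit 4) (nat_lit 83263) (nat_lit 6) (node (nat_lit 5)
  (nat_lit 83844) (nat_lit 7) (node (nat_lit 7) (nat_lit 82958) (nat_lit 8) (node (nat_lit 4)
  (nat_lit 82232) (nat_lit 9) (node (nat_lit 5) (nat_lit 81637) (nat_lit 10) nil nil) nil) nil)
  nil) (node (nat_lit 1) (nat_lit 83263) (nat_lit 6) nil nil))) (node (nat_lit 1) (nat_lit 82363)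
  (nat_lit 5) (node (nat_lit 4) (nat_lit 81061) (nat_lit 6) (node (nat_lit 5) (nat_lit 77500)
  (nat_lit 7) (node (nat_lit 4) (nat_lit 58195) (nat_lit 8) nil nil) (node (nat_lit 7) (nat_lit
  82918) (nat_lit 7) nil nil)) (node (nat_lit 5) (nat_lit 83263) (nat_lit 6) nil nil)) (node
  (nat_lit 0) (nat_lit 82363) (nat_lit 5) (node (nat_lit 4) (nat_lit 83263) (nat_lit 6) nil (node
  (nat_lit 5) (nat_lit 83263) (nat_lit 6) nil (node (nat_lit 7) (nat_lit 83263) (nat_lit 6) nil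
  nil))) nil)))) nil))) (node (nat_lit 2) (nat_lit 0) (nat_lit 3) (node (nat_lit 1) (nat_lit 0)
  (nat_lit 4) (node (nat_lit 1) (nat_lit 90967) (nat_lit 5) nil (node (nat_lit 6) (nat_lit 90967)
  (nat_lit 5) nil (node (nat_lit 5) (nat_lit 90355) (nat_lit 5) (node (nat_lit 7) (nat_lit 91230)
  (nat_lit 6) nil nil) (node (nat_lit 4) (nat_lit 82901) (nat_lit 5) (node (nat_lit 5) (nat_lit
  67682) (nat_lit 6) (node (nat_lit 6) (nat_lit 57507) (nat_lit 7) nil nil) (node (nat_lit 7)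
  (nat_lit 84840) (nat_lit 6) nil (node (nat_lit 6) (nat_lit 84778) (nat_lit 6) nil nil))) (node
  (nat_lit 0) (nat_lit 90967) (nat_lit 5) nil nil))))) (node (nat_lit 4) (nat_lit 0) (nat_lit 4)
  (node (nat_lit 6) (nat_lit 86358) (nat_lit 5) (node (nat_lit 5) (nat_lit 86394) (nat_lit 6)
  (node (nat_lit 4) (nat_lit 86646) (nat_lit 7) (node (nat_lit 5) (nat_lit 93583) (nat_lit 8)
  (node (nat_lit 6) (nat_lit 93873) (nat_lit 9) nil nil) (node (nat_lit 6) (nat_lit 93583)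
  (nat_lit 8) (node (nat_lit 4) (nat_lit 93873) (nat_lit 9) (node (nat_lit 5) (nat_lit 94093)
  (nat_lit 10) nil nil) nil) (node (nat_lit 1) (nat_lit 93583) (nat_lit 8) nil (node (nat_lit 0)
  (nat_lit 93583) (nat_lit 8) nil nil)))) (node (nat_lit 6) (nat_lit 86554) (nat_lit 7) (node
  (nat_lit 4) (nat_lit 93583) (nat_lit 8) nil nil) (node (nat_lit 1) (nat_lit 93164) (nat_lit 7)
  nil (node (nat_lit 0) (nat_lit 93164) (nat_lit 7) nil nil)))) (node (nat_lit 1) (nat_lit 92527)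
  (nat_lit 6) nil (node (nat_lit 0) (nat_lit 92527) (nat_lit 6) nil nil))) (node (nat_lit 1)
  (nat_lit 91652) (nat_lit 5) (node (nat_lit 4) (nat_lit 92527) (nat_lit 6) nil (node (nat_lit 6)
  (nat_lit 92527) (nat_lit 6) (node (nat_lit 5) (nat_lit 93164) (nat_lit 7) nil nil) (node
  (nat_lit 5) (nat_lit 92527) (nat_lit 6) nil nil))) (node (nat_lit 5) (nat_lit 86206) (nat_lit 5)
  (node (nat_lit 4) (nat_lit 86251) (nat_lit 6) (node (nat_lit 6) (nat_lit 86287) (nat_lit 7)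
  (node (nat_lit 5) (nat_lit 93483) (nat_lit 8) nil (node (nat_lit 4) (nat_lit 93483) (nat_lit 8)
  nil nil)) (node (nat_lit 1) (nat_lit 93164) (nat_lit 7) nil nil)) (node (nat_lit 1) (nat_lit
  92527) (nat_lit 6) nil (node (nat_lit 0) (nat_lit 92527) (nat_lit 6) nil nil))) (node (nat_lit
  0) (nat_lit 91652) (nat_lit 5) (node (nat_lit 6) (nat_lit 92527) (nat_lit 6) nil (node (nat_lit
  4) (nat_lit 92527) (nat_lit 6) nil (node (nat_lit 5) (nat_lit 92527) (nat_lit 6) nil nil)))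
  nil)))) (node (nat_lit 5) (nat_lit 0) (nat_lit 4) (node (nat_lit 4) (nat_lit 86711) (nat_lit 5)
  (node (nat_lit 6) (nat_lit 86720) (nat_lit 6) (node (nat_lit 4) (nat_lit 86848) (nat_lit 7)
  (node (nat_lit 5) (nat_lit 93583) (nat_lit 8) nil nil) (node (nat_lit 5) (nat_lit 86869)
  (nat_lit 7) (node (nat_lit 6) (nat_lit 93583) (nat_lit 8) nil nil) nil)) (node (nat_lit 5)
  (nat_lit 86725) (nat_lit 6) (node (nat_lit 6) (nat_lit 86832) (nat_lit 7) nil nil) (node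
  (nat_lit 1) (nat_lit 92527) (nat_lit 6) nil nil))) (node (nat_lit 1) (nat_lit 91652) (nat_lit 5)
  (node (nat_lit 4) (nat_lit 92527) (nat_lit 6) nil nil) (node (nat_lit 0) (nat_lit 91652)
  (nat_lit 5) nil nil))) (node (nat_lit 0) (nat_lit 88501) (nat_lit 4) (node (nat_lit 5) (nat_lit
  91652) (nat_lit 5) nil (node (nat_lit 1) (nat_lit 91652) (nat_lit 5) nil (node (nat_lit 6)
  (nat_lit 91652) (nat_lit 5) nil (node (nat_lit 4) (nat_lit 91652) (nat_lit 5) nil nil))))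
  nil)))) nil))))

noncomputable def t443 : Tr :=
  (node (nat_lit 0) (nat_lit 0) (nat_lit 1) (node (nat_lit 1) (nat_lit 0) (nat_lit 2) (node
  (nat_lit 1) (nat_lit 0) (nat_lit 3) (node (nat_lit 4) (nat_lit 108617) (nat_lit 4) (node
  (nat_lit 5) (nat_lit 73290) (nat_lit 5) nil nil) (node (nat_lit 1) (nat_lit 112462) (nat_lit 4)
  nil (node (nat_lit 5) (nat_lit 108686) (nat_lit 4) (node (nat_lit 4) (nat_lit 111098) (nat_lit
  5) (node (nat_lit 5) (nat_lit 112462) (nat_lit 6) nil nil) nil) (node (nat_lit 0) (nat_lit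
  112462) (nat_lit 4) nil (node (nat_lit 2) (nat_lit 112053) (nat_lit 4) nil nil))))) (node
  (nat_lit 4) (nat_lit 0) (nat_lit 3) (node (nat_lit 1) (nat_lit 70994) (nat_lit 4) (node (nat_lit
  4) (nat_lit 70994) (nat_lit 5) (node (nat_lit 5) (nat_lit 70994) (nat_lit 6) nil nil) (node
  (nat_lit 5) (nat_lit 70994) (nat_lit 5) nil (node (nat_lit 1) (nat_lit 70994) (nat_lit 5) nil
  nil))) (node (nat_lit 0) (nat_lit 70994) (nat_lit 4) nil (node (nat_lit 2) (nat_lit 70994)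
  (nat_lit 4) (node (nat_lit 1) (nat_lit 70994) (nat_lit 5) (node (nat_lit 4) (nat_lit 70994)
  (nat_lit 6) (node (nat_lit 5) (nat_lit 63431) (nat_lit 7) nil nil) nil) nil) nil))) (node
  (nat_lit 0) (nat_lit 0) (nat_lit 3) (node (nat_lit 1) (nat_lit 110634) (nat_lit 4) nil (node
  (nat_lit 5) (nat_lit 110634) (nat_lit 4) nil (node (nat_lit 4) (nat_lit 110634) (nat_lit 4)
  (node (nat_lit 5) (nat_lit 110634) (nat_lit 5) nil nil) (node (nat_lit 0) (nat_lit 110634)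
  (nat_lit 4) nil (node (nat_lit 2) (nat_lit 109711) (nat_lit 4) nil nil))))) (node (nat_lit 2)
  (nat_lit 0) (nat_lit 3) (node (nat_lit 1) (nat_lit 101666) (nat_lit 4) (node (nat_lit 4)
  (nat_lit 101666) (nat_lit 5) (node (nat_lit 5) (nat_lit 89215) (nat_lit 6) (node (nat_lit 6)
  (nat_lit 66701) (nat_lit 7) nil nil) nil) nil) (node (nat_lit 5) (nat_lit 101666) (nat_lit 4)
  (node (nat_lit 4) (nat_lit 101666) (nat_lit 5) (node (nat_lit 5) (nat_lit 94106) (nat_lit 6)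
  (node (nat_lit 6) (nat_lit 69930) (nat_lit 7) nil nil) nil) nil) (node (nat_lit 4) (nat_lit
  101666) (nat_lit 4) (node (nat_lit 6) (nat_lit 101666) (nat_lit 5) (node (nat_lit 5) (nat_lit
  101666) (nat_lit 6) (node (nat_lit 4) (nat_lit 101666) (nat_lit 7) (node (nat_lit 5) (nat_lit
  101666) (nat_lit 8) (node (nat_lit 6) (nat_lit 101666) (nat_lit 9) (node (nat_lit 4) (nat_lit
  94054) (nat_lit 10) (node (nat_lit 6) (nat_lit 69930) (nat_lit 11) nil nil) nil) nil) nil) nil)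
  nil) (node (nat_lit 5) (nat_lit 101666) (nat_lit 5) nil nil)) (node (nat_lit 0) (nat_lit 101666)
  (nat_lit 4) nil (node (nat_lit 2) (nat_lit 101152) (nat_lit 4) (node (nat_lit 5) (nat_lit
  101666) (nat_lit 5) nil nil) nil))))) nil)))) (node (nat_lit 0) (nat_lit 0) (nat_lit 2) (node
  (nat_lit 1) (nat_lit 0) (nat_lit 3) (node (nat_lit 1) (nat_lit 114162) (nat_lit 4) nil (node
  (nat_lit 4) (nat_lit 114162) (nat_lit 4) (node (nat_lit 5) (nat_lit 73517) (nat_lit 5) nil nil)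
  (node (nat_lit 5) (nat_lit 114162) (nat_lit 4) nil (node (nat_lit 0) (nat_lit 114162) (nat_lit
  4) nil (node (nat_lit 2) (nat_lit 112031) (nat_lit 4) nil nil))))) (node (nat_lit 0) (nat_lit 0)
  (nat_lit 3) (node (nat_lit 1) (nat_lit 110276) (nat_lit 4) nil (node (nat_lit 4) (nat_lit
  110276) (nat_lit 4) (node (nat_lit 5) (nat_lit 110276) (nat_lit 5) nil nil) (node (nat_lit 5)
  (nat_lit 110276) (nat_lit 4) nil (node (nat_lit 0) (nat_lit 110276) (nat_lit 4) nil (node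
  (nat_lit 2) (nat_lit 110276) (nat_lit 4) nil nil))))) (node (nat_lit 2) (nat_lit 0) (nat_lit 3)
  (node (nat_lit 1) (nat_lit 104895) (nat_lit 4) (node (nat_lit 4) (nat_lit 104895) (nat_lit 5)
  (node (nat_lit 5) (nat_lit 92505) (nat_lit 6) nil nil) nil) (node (nat_lit 4) (nat_lit 104895)
  (nat_lit 4) (node (nat_lit 5) (nat_lit 104895) (nat_lit 5) nil nil) (node (nat_lit 5) (nat_lit
  104895) (nat_lit 4) nil (node (nat_lit 0) (nat_lit 104895) (nat_lit 4) nil (node (nat_lit 2)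
  (nat_lit 103534) (nat_lit 4) (node (nat_lit 1) (nat_lit 104895) (nat_lit 5) nil (node (nat_lit
  6) (nat_lit 104437) (nat_lit 5) nil nil)) nil))))) (node (nat_lit 4) (nat_lit 0) (nat_lit 3)
  (node (nat_lit 1) (nat_lit 106491) (nat_lit 4) (node (nat_lit 4) (nat_lit 106491) (nat_lit 5)
  (node (nat_lit 5) (nat_lit 106491) (nat_lit 6) nil nil) nil) (node (nat_lit 0) (nat_lit 106491)
  (nat_lit 4) nil (node (nat_lit 2) (nat_lit 106491) (nat_lit 4) nil nil))) nil)))) (node (nat_lit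
  2) (nat_lit 0) (nat_lit 2) (node (nat_lit 1) (nat_lit 0) (nat_lit 3) (node (nat_lit 1) (nat_lit
  103238) (nat_lit 4) nil (node (nat_lit 4) (nat_lit 88999) (nat_lit 4) (node (nat_lit 5) (nat_lit
  70014) (nat_lit 5) nil (node (nat_lit 6) (nat_lit 90795) (nat_lit 5) (node (nat_lit 5) (nat_lit
  93482) (nat_lit 6) nil nil) (node (nat_lit 1) (nat_lit 94448) (nat_lit 5) (node (nat_lit 4)
  (nat_lit 95571) (nat_lit 6) (node (nat_lit 5) (nat_lit 95571) (nat_lit 7) (node (nat_lit 6)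
  (nat_lit 95670) (nat_lit 8) nil nil) nil) nil) nil))) (node (nat_lit 5) (nat_lit 100805)
  (nat_lit 4) (node (nat_lit 4) (nat_lit 103238) (nat_lit 5) (node (nat_lit 6) (nat_lit 103238)
  (nat_lit 6) (node (nat_lit 4) (nat_lit 103238) (nat_lit 7) (node (nat_lit 5) (nat_lit 103238)
  (nat_lit 8) (node (nat_lit 6) (nat_lit 103238) (nat_lit 9) (node (nat_lit 5) (nat_lit 103238)
  (nat_lit 10) nil nil) nil) nil) nil) nil) nil) (node (nat_lit 0) (nat_lit 103238) (nat_lit 4)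
  nil (node (nat_lit 2) (nat_lit 103238) (nat_lit 4) nil nil))))) (node (nat_lit 0) (nat_lit 0)
  (nat_lit 3) (node (nat_lit 1) (nat_lit 105021) (nat_lit 4) (node (nat_lit 4) (nat_lit 105021)
  (nat_lit 5) (node (nat_lit 5) (nat_lit 105021) (nat_lit 6) nil nil) nil) (node (nat_lit 4)
  (nat_lit 105021) (nat_lit 4) (node (nat_lit 5) (nat_lit 105021) (nat_lit 5) nil nil) (node
  (nat_lit 5) (nat_lit 105021) (nat_lit 4) nil (node (nat_lit 0) (nat_lit 105021) (nat_lit 4) nil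
  (node (nat_lit 2) (nat_lit 105021) (nat_lit 4) nil nil))))) (node (nat_lit 2) (nat_lit 0)
  (nat_lit 3) (node (nat_lit 1) (nat_lit 101819) (nat_lit 4) (node (nat_lit 4) (nat_lit 95108)
  (nat_lit 5) (node (nat_lit 5) (nat_lit 86061) (nat_lit 6) (node (nat_lit 6) (nat_lit 67578)
  (nat_lit 7) nil nil) nil) nil) (node (nat_lit 4) (nat_lit 0) (nat_lit 4) (node (nat_lit 6)
  (nat_lit 101819) (nat_lit 5) (node (nat_lit 5) (nat_lit 101819) (nat_lit 6) (node (nat_lit 4)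
  (nat_lit 101819) (nat_lit 7) nil nil) nil) (node (nat_lit 1) (nat_lit 101819) (nat_lit 5) (node
  (nat_lit 4) (nat_lit 101819) (nat_lit 6) nil nil) (node (nat_lit 5) (nat_lit 101819) (nat_lit 5)
  nil (node (nat_lit 0) (nat_lit 101819) (nat_lit 5) nil (node (nat_lit 2) (nat_lit 101819)
  (nat_lit 5) nil nil))))) (node (nat_lit 5) (nat_lit 0) (nat_lit 4) (node (nat_lit 4) (nat_lit
  101819) (nat_lit 5) nil (node (nat_lit 1) (nat_lit 101819) (nat_lit 5) nil (node (nat_lit 0)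
  (nat_lit 101819) (nat_lit 5) nil (node (nat_lit 2) (nat_lit 97767) (nat_lit 5) nil nil)))) (node
  (nat_lit 0) (nat_lit 101819) (nat_lit 4) nil (node (nat_lit 2) (nat_lit 0) (nat_lit 4) (node
  (nat_lit 5) (nat_lit 99281) (nat_lit 5) nil (node (nat_lit 1) (nat_lit 100025) (nat_lit 5) nil
  (node (nat_lit 6) (nat_lit 96833) (nat_lit 5) (node (nat_lit 5) (nat_lit 96833) (nat_lit 6) nil
  nil) (node (nat_lit 0) (nat_lit 101819) (nat_lit 5) nil (node (nat_lit 4) (nat_lit 101819)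
  (nat_lit 5) nil nil))))) nil))))) (node (nat_lit 4) (nat_lit 0) (nat_lit 3) (node (nat_lit 1)
  (nat_lit 96851) (nat_lit 4) (node (nat_lit 4) (nat_lit 96851) (nat_lit 5) (node (nat_lit 5)
  (nat_lit 96851) (nat_lit 6) (node (nat_lit 4) (nat_lit 64567) (nat_lit 7) nil nil) nil) (node
  (nat_lit 5) (nat_lit 96851) (nat_lit 5) (node (nat_lit 7) (nat_lit 96851) (nat_lit 6) (node
  (nat_lit 4) (nat_lit 96851) (nat_lit 7) (node (nat_lit 5) (nat_lit 96851) (nat_lit 8) (node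
  (nat_lit 4) (nat_lit 96851) (nat_lit 9) (node (nat_lit 7) (nat_lit 90135) (nat_lit 10) nil nil)
  nil) nil) nil) nil) nil)) (node (nat_lit 0) (nat_lit 96851) (nat_lit 4) nil (node (nat_lit 2)
  (nat_lit 96851) (nat_lit 4) (node (nat_lit 4) (nat_lit 96851) (nat_lit 5) nil nil) nil)))
  nil)))) nil))) (node (nat_lit 2) (nat_lit 0) (nat_lit 1) (node (nat_lit 1) (nat_lit 0) (nat_lit
  2) (node (nat_lit 1) (nat_lit 0) (nat_lit 3) (node (nat_lit 4) (nat_lit 0) (nat_lit 4) (node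
  (nat_lit 5) (nat_lit 0) (nat_lit 5) (node (nat_lit 4) (nat_lit 56527) (nat_lit 6) (node (nat_lit
  6) (nat_lit 57813) (nat_lit 7) (node (nat_lit 4) (nat_lit 58767) (nat_lit 8) (node (nat_lit 5)
  (nat_lit 59314) (nat_lit 9) (node (nat_lit 6) (nat_lit 59808) (nat_lit 10) nil nil) nil) (node
  (nat_lit 5) (nat_lit 58522) (nat_lit 8) nil nil)) nil) (node (nat_lit 1) (nat_lit 57724)
  (nat_lit 6) nil (node (nat_lit 0) (nat_lit 57724) (nat_lit 6) nil (node (nat_lit 2) (nat_lit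
  56162) (nat_lit 6) nil nil)))) (node (nat_lit 6) (nat_lit 90247) (nat_lit 5) (node (nat_lit 5)
  (nat_lit 91275) (nat_lit 6) (node (nat_lit 4) (nat_lit 92293) (nat_lit 7) (node (nat_lit 5)
  (nat_lit 92398) (nat_lit 8) (node (nat_lit 6) (nat_lit 92425) (nat_lit 9) (node (nat_lit 4)
  (nat_lit 92425) (nat_lit 10) (node (nat_lit 6) (nat_lit 66194) (nat_lit 11) nil nil) nil) nil)
  nil) nil) nil) (node (nat_lit 1) (nat_lit 91301) (nat_lit 5) (node (nat_lit 6) (nat_lit 92293)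
  (nat_lit 6) nil nil) (node (nat_lit 0) (nat_lit 92203) (nat_lit 5) nil (node (nat_lit 2)
  (nat_lit 90404) (nat_lit 5) nil nil))))) (node (nat_lit 1) (nat_lit 0) (nat_lit 4) (node
  (nat_lit 5) (nat_lit 91199) (nat_lit 5) (node (nat_lit 7) (nat_lit 92293) (nat_lit 6) nil (node
  (nat_lit 4) (nat_lit 92203) (nat_lit 6) (node (nat_lit 5) (nat_lit 92354) (nat_lit 7) (node
  (nat_lit 6) (nat_lit 92398) (nat_lit 8) (node (nat_lit 7) (nat_lit 66194) (nat_lit 9) nil nil)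
  nil) nil) nil)) (node (nat_lit 6) (nat_lit 92203) (nat_lit 5) (node (nat_lit 5) (nat_lit 92293)
  (nat_lit 6) (node (nat_lit 7) (nat_lit 92354) (nat_lit 7) nil nil) (node (nat_lit 4) (nat_lit
  91769) (nat_lit 6) (node (nat_lit 5) (nat_lit 92354) (nat_lit 7) (node (nat_lit 6) (nat_lit
  92398) (nat_lit 8) (node (nat_lit 7) (nat_lit 57587) (nat_lit 9) nil nil) nil) nil) nil)) (node
  (nat_lit 4) (nat_lit 92050) (nat_lit 5) (node (nat_lit 5) (nat_lit 92293) (nat_lit 6) (node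
  (nat_lit 6) (nat_lit 54861) (nat_lit 7) nil nil) (node (nat_lit 7) (nat_lit 92293) (nat_lit 6)
  nil (node (nat_lit 6) (nat_lit 92293) (nat_lit 6) nil nil))) (node (nat_lit 0) (nat_lit 92025)
  (nat_lit 5) nil (node (nat_lit 2) (nat_lit 88139) (nat_lit 5) nil nil))))) (node (nat_lit 5)
  (nat_lit 0) (nat_lit 4) (node (nat_lit 4) (nat_lit 90112) (nat_lit 5) (node (nat_lit 5) (nat_lit
  91172) (nat_lit 6) (node (nat_lit 6) (nat_lit 66194) (nat_lit 7) (node (nat_lit 4) (nat_lit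
  66194) (nat_lit 8) nil nil) nil) nil) (node (nat_lit 1) (nat_lit 91974) (nat_lit 5) nil (node
  (nat_lit 0) (nat_lit 91974) (nat_lit 5) nil (node (nat_lit 2) (nat_lit 89619) (nat_lit 5) nil
  nil)))) (node (nat_lit 0) (nat_lit 89468) (nat_lit 4) (node (nat_lit 5) (nat_lit 91199) (nat_lit
  5) nil (node (nat_lit 6) (nat_lit 92203) (nat_lit 5) nil (node (nat_lit 4) (nat_lit 92050)
  (nat_lit 5) nil (node (nat_lit 1) (nat_lit 92025) (nat_lit 5) (node (nat_lit 4) (nat_lit 92203)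
  (nat_lit 6) nil nil) nil)))) (node (nat_lit 2) (nat_lit 87258) (nat_lit 4) (node (nat_lit 5)
  (nat_lit 89692) (nat_lit 5) nil (node (nat_lit 6) (nat_lit 91941) (nat_lit 5) nil (node (nat_lit
  4) (nat_lit 89515) (nat_lit 5) nil (node (nat_lit 1) (nat_lit 87161) (nat_lit 5) (node (nat_lit
  4) (nat_lit 84040) (nat_lit 6) nil nil) nil)))) nil))))) (node (nat_lit 4) (nat_lit 0) (nat_lit
  3) (node (nat_lit 1) (nat_lit 0) (nat_lit 4) (node (nat_lit 4) (nat_lit 58760) (nat_lit 5) (node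
  (nat_lit 5) (nat_lit 48217) (nat_lit 6) (node (nat_lit 7) (nat_lit 49293) (nat_lit 7) (node
  (nat_lit 5) (nat_lit 50410) (nat_lit 8) (node (nat_lit 4) (nat_lit 51073) (nat_lit 9) (node
  (nat_lit 7) (nat_lit 51590) (nat_lit 10) nil nil) nil) (node (nat_lit 4) (nat_lit 50410)
  (nat_lit 8) (node (nat_lit 7) (nat_lit 51073) (nat_lit 9) nil nil) (node (nat_lit 1) (nat_lit
  51738) (nat_lit 8) nil (node (nat_lit 0) (nat_lit 51738) (nat_lit 8) nil (node (nat_lit 2)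
  (nat_lit 50362) (nat_lit 8) nil nil))))) (node (nat_lit 4) (nat_lit 31123) (nat_lit 7) nil (node
  (nat_lit 1) (nat_lit 51153) (nat_lit 7) (node (nat_lit 4) (nat_lit 50615) (nat_lit 8) (node
  (nat_lit 5) (nat_lit 50937) (nat_lit 9) nil nil) nil) (node (nat_lit 0) (nat_lit 51153) (nat_lit
  7) nil (node (nat_lit 2) (nat_lit 50899) (nat_lit 7) nil nil))))) (node (nat_lit 1) (nat_lit
  61446) (nat_lit 6) nil nil)) (node (nat_lit 5) (nat_lit 60565) (nat_lit 5) (node (nat_lit 7)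
  (nat_lit 61798) (nat_lit 6) (node (nat_lit 4) (nat_lit 63034) (nat_lit 7) (node (nat_lit 5)
  (nat_lit 63034) (nat_lit 8) (node (nat_lit 4) (nat_lit 63034) (nat_lit 9) (node (nat_lit 7)
  (nat_lit 63034) (nat_lit 10) (node (nat_lit 5) (nat_lit 31517) (nat_lit 11) nil nil) nil) nil)
  nil) nil) (node (nat_lit 4) (nat_lit 61806) (nat_lit 6) (node (nat_lit 5) (nat_lit 62698)
  (nat_lit 7) (node (nat_lit 7) (nat_lit 63034) (nat_lit 8) (node (nat_lit 4) (nat_lit 63034)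
  (nat_lit 9) (node (nat_lit 5) (nat_lit 63034) (nat_lit 10) (node (nat_lit 4) (nat_lit 63034)
  (nat_lit 11) (node (nat_lit 7) (nat_lit 63034) (nat_lit 12) nil nil) nil) nil) nil) nil) nil)
  (node (nat_lit 1) (nat_lit 62880) (nat_lit 6) nil nil))) (node (nat_lit 1) (nat_lit 63034)
  (nat_lit 5) (node (nat_lit 5) (nat_lit 63034) (nat_lit 6) (node (nat_lit 7) (nat_lit 63034)
  (nat_lit 7) nil (node (nat_lit 8) (nat_lit 63034) (nat_lit 7) nil nil)) (node (nat_lit 4)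
  (nat_lit 63034) (nat_lit 6) nil (node (nat_lit 7) (nat_lit 63034) (nat_lit 6) nil nil))) (node
  (nat_lit 0) (nat_lit 63034) (nat_lit 5) nil (node (nat_lit 2) (nat_lit 63034) (nat_lit 5) (node
  (nat_lit 5) (nat_lit 63034) (nat_lit 6) nil (node (nat_lit 1) (nat_lit 60300) (nat_lit 6) nil
  nil)) nil))))) (node (nat_lit 0) (nat_lit 63034) (nat_lit 4) (node (nat_lit 5) (nat_lit 63034)
  (nat_lit 5) (node (nat_lit 4) (nat_lit 63034) (nat_lit 6) (node (nat_lit 5) (nat_lit 63034)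
  (nat_lit 7) nil nil) nil) (node (nat_lit 1) (nat_lit 63034) (nat_lit 5) (node (nat_lit 4)
  (nat_lit 63034) (nat_lit 6) (node (nat_lit 5) (nat_lit 63034) (nat_lit 7) nil nil) nil) (node
  (nat_lit 4) (nat_lit 63034) (nat_lit 5) (node (nat_lit 5) (nat_lit 63034) (nat_lit 6) nil nil)
  nil))) (node (nat_lit 2) (nat_lit 0) (nat_lit 4) (node (nat_lit 5) (nat_lit 63034) (nat_lit 5)
  (node (nat_lit 4) (nat_lit 62369) (nat_lit 6) (node (nat_lit 5) (nat_lit 62950) (nat_lit 7) nil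
  nil) nil) (node (nat_lit 1) (nat_lit 62576) (nat_lit 5) (node (nat_lit 4) (nat_lit 61867)
  (nat_lit 6) (node (nat_lit 5) (nat_lit 54759) (nat_lit 7) (node (nat_lit 4) (nat_lit 32066)
  (nat_lit 8) (node (nat_lit 7) (nat_lit 28770) (nat_lit 9) nil nil) nil) nil) nil) (node (nat_lit
  4) (nat_lit 62589) (nat_lit 5) (node (nat_lit 5) (nat_lit 63034) (nat_lit 6) (node (nat_lit 7)
  (nat_lit 62378) (nat_lit 7) nil nil) nil) (node (nat_lit 0) (nat_lit 63034) (nat_lit 5) nil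
  (node (nat_lit 2) (nat_lit 63034) (nat_lit 5) (node (nat_lit 1) (nat_lit 60535) (nat_lit 6) nil
  nil) nil))))) nil))) (node (nat_lit 0) (nat_lit 0) (nat_lit 3) (node (nat_lit 1) (nat_lit 92587)
  (nat_lit 4) (node (nat_lit 5) (nat_lit 93295) (nat_lit 5) nil (node (nat_lit 4) (nat_lit 92879)
  (nat_lit 5) (node (nat_lit 5) (nat_lit 93409) (nat_lit 6) nil nil) nil)) (node (nat_lit 5)
  (nat_lit 88516) (nat_lit 4) (node (nat_lit 1) (nat_lit 93295) (nat_lit 5) nil (node (nat_lit 4)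
  (nat_lit 92879) (nat_lit 5) (node (nat_lit 5) (nat_lit 93409) (nat_lit 6) (node (nat_lit 6)
  (nat_lit 67133) (nat_lit 7) nil nil) nil) nil)) (node (nat_lit 4) (nat_lit 90671) (nat_lit 4)
  (node (nat_lit 6) (nat_lit 93295) (nat_lit 5) (node (nat_lit 5) (nat_lit 93409) (nat_lit 6)
  (node (nat_lit 4) (nat_lit 93409) (nat_lit 7) (node (nat_lit 5) (nat_lit 93409) (nat_lit 8)
  (node (nat_lit 6) (nat_lit 93409) (nat_lit 9) (node (nat_lit 4) (nat_lit 93409) (nat_lit 10)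
  (node (nat_lit 6) (nat_lit 67133) (nat_lit 11) nil nil) nil) nil) nil) nil) nil) (node (nat_lit
  1) (nat_lit 93295) (nat_lit 5) (node (nat_lit 4) (nat_lit 91340) (nat_lit 6) (node (nat_lit 5)
  (nat_lit 86946) (nat_lit 7) (node (nat_lit 6) (nat_lit 72878) (nat_lit 8) (node (nat_lit 4)
  (nat_lit 56548) (nat_lit 9) nil nil) nil) nil) nil) (node (nat_lit 5) (nat_lit 92251) (nat_lit
  5) nil nil))) (node (nat_lit 0) (nat_lit 92587) (nat_lit 4) nil (node (nat_lit 2) (nat_lit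
  90487) (nat_lit 4) (node (nat_lit 5) (nat_lit 91281) (nat_lit 5) nil nil) nil))))) (node
  (nat_lit 2) (nat_lit 0) (nat_lit 3) (node (nat_lit 1) (nat_lit 88170) (nat_lit 4) (node (nat_lit
  5) (nat_lit 92716) (nat_lit 5) (node (nat_lit 7) (nat_lit 93515) (nat_lit 6) nil (node (nat_lit
  4) (nat_lit 93373) (nat_lit 6) nil nil)) (node (nat_lit 6) (nat_lit 91419) (nat_lit 5) nil (node
  (nat_lit 1) (nat_lit 92979) (nat_lit 5) nil (node (nat_lit 4) (nat_lit 88845) (nat_lit 5) (node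
  (nat_lit 5) (nat_lit 72980) (nat_lit 6) (node (nat_lit 6) (nat_lit 56178) (nat_lit 7) nil nil)
  nil) nil)))) (node (nat_lit 5) (nat_lit 0) (nat_lit 4) (node (nat_lit 1) (nat_lit 92587)
  (nat_lit 5) (node (nat_lit 4) (nat_lit 93373) (nat_lit 6) nil nil) (node (nat_lit 4) (nat_lit
  85267) (nat_lit 5) (node (nat_lit 5) (nat_lit 75805) (nat_lit 6) (node (nat_lit 6) (nat_lit
  66440) (nat_lit 7) nil nil) nil) (node (nat_lit 0) (nat_lit 92587) (nat_lit 5) nil (node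
  (nat_lit 2) (nat_lit 86274) (nat_lit 5) nil nil)))) (node (nat_lit 4) (nat_lit 0) (nat_lit 4)
  (node (nat_lit 6) (nat_lit 86583) (nat_lit 5) (node (nat_lit 5) (nat_lit 90728) (nat_lit 6)
  (node (nat_lit 4) (nat_lit 91895) (nat_lit 7) (node (nat_lit 5) (nat_lit 89629) (nat_lit 8)
  (node (nat_lit 6) (nat_lit 87470) (nat_lit 9) (node (nat_lit 4) (nat_lit 75805) (nat_lit 10)
  (node (nat_lit 6) (nat_lit 65675) (nat_lit 11) nil nil) nil) nil) nil) nil) (node (nat_lit 1)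
  (nat_lit 91868) (nat_lit 6) nil nil)) (node (nat_lit 1) (nat_lit 93444) (nat_lit 5) (node
  (nat_lit 6) (nat_lit 91916) (nat_lit 6) (node (nat_lit 5) (nat_lit 91788) (nat_lit 7) nil nil)
  (node (nat_lit 5) (nat_lit 93515) (nat_lit 6) nil (node (nat_lit 4) (nat_lit 92116) (nat_lit 6)
  (node (nat_lit 5) (nat_lit 86874) (nat_lit 7) (node (nat_lit 6) (nat_lit 79492) (nat_lit 8)
  (node (nat_lit 4) (nat_lit 53323) (nat_lit 9) nil nil) nil) nil) nil))) (node (nat_lit 0)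
  (nat_lit 93373) (nat_lit 5) (node (nat_lit 5) (nat_lit 93515) (nat_lit 6) nil nil) (node
  (nat_lit 5) (nat_lit 87403) (nat_lit 5) (node (nat_lit 4) (nat_lit 90382) (nat_lit 6) nil (node
  (nat_lit 1) (nat_lit 93515) (nat_lit 6) nil nil)) (node (nat_lit 2) (nat_lit 89633) (nat_lit 5)
  (node (nat_lit 6) (nat_lit 89252) (nat_lit 6) nil (node (nat_lit 5) (nat_lit 92497) (nat_lit 6)
  nil (node (nat_lit 1) (nat_lit 90987) (nat_lit 6) nil nil))) nil))))) (node (nat_lit 0) (nat_lit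
  90928) (nat_lit 4) (node (nat_lit 5) (nat_lit 92716) (nat_lit 5) nil nil) (node (nat_lit 2)
  (nat_lit 84547) (nat_lit 4) (node (nat_lit 5) (nat_lit 86367) (nat_lit 5) (node (nat_lit 4)
  (nat_lit 89389) (nat_lit 6) nil nil) (node (nat_lit 6) (nat_lit 86362) (nat_lit 5) (node
  (nat_lit 5) (nat_lit 87076) (nat_lit 6) nil nil) (node (nat_lit 1) (nat_lit 90993) (nat_lit 5)
  nil (node (nat_lit 4) (nat_lit 89423) (nat_lit 5) (node (nat_lit 7) (nat_lit 88969) (nat_lit 6)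
  nil nil) nil)))) nil))))) nil)))) (node (nat_lit 0) (nat_lit 0) (nat_lit 2) (node (nat_lit 1)
  (nat_lit 0) (nat_lit 3) (node (nat_lit 1) (nat_lit 99231) (nat_lit 4) nil (node (nat_lit 4)
  (nat_lit 98685) (nat_lit 4) (node (nat_lit 5) (nat_lit 67019) (nat_lit 5) nil nil) (node
  (nat_lit 5) (nat_lit 99231) (nat_lit 4) (node (nat_lit 4) (nat_lit 99231) (nat_lit 5) (node
  (nat_lit 6) (nat_lit 99761) (nat_lit 6) (node (nat_lit 4) (nat_lit 99761) (nat_lit 7) (node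
  (nat_lit 5) (nat_lit 99761) (nat_lit 8) (node (nat_lit 6) (nat_lit 99761) (nat_lit 9) (node
  (nat_lit 5) (nat_lit 91448) (nat_lit 10) (node (nat_lit 4) (nat_lit 67133) (nat_lit 11) nil nil)
  nil) nil) nil) nil) nil) nil) (node (nat_lit 0) (nat_lit 99231) (nat_lit 4) nil (node (nat_lit
  2) (nat_lit 98685) (nat_lit 4) nil nil))))) (node (nat_lit 0) (nat_lit 0) (nat_lit 3) (node
  (nat_lit 1) (nat_lit 99904) (nat_lit 4) (node (nat_lit 4) (nat_lit 99904) (nat_lit 5) (node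
  (nat_lit 5) (nat_lit 100700) (nat_lit 6) nil nil) nil) (node (nat_lit 4) (nat_lit 99085)
  (nat_lit 4) (node (nat_lit 6) (nat_lit 100528) (nat_lit 5) nil (node (nat_lit 5) (nat_lit
  100528) (nat_lit 5) nil nil)) (node (nat_lit 5) (nat_lit 99904) (nat_lit 4) nil (node (nat_lit
  0) (nat_lit 99904) (nat_lit 4) nil (node (nat_lit 2) (nat_lit 99085) (nat_lit 4) nil nil)))))
  (node (nat_lit 2) (nat_lit 0) (nat_lit 3) (node (nat_lit 1) (nat_lit 99223) (nat_lit 4) (node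
  (nat_lit 4) (nat_lit 98510) (nat_lit 5) (node (nat_lit 5) (nat_lit 84292) (nat_lit 6) (node
  (nat_lit 6) (nat_lit 64207) (nat_lit 7) nil nil) nil) nil) (node (nat_lit 4) (nat_lit 97664)
  (nat_lit 4) (node (nat_lit 6) (nat_lit 97664) (nat_lit 5) (node (nat_lit 5) (nat_lit 99660)
  (nat_lit 6) nil nil) (node (nat_lit 1) (nat_lit 99660) (nat_lit 5) (node (nat_lit 4) (nat_lit
  99660) (nat_lit 6) nil nil) (node (nat_lit 5) (nat_lit 99660) (nat_lit 5) nil nil))) (node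
  (nat_lit 5) (nat_lit 99223) (nat_lit 4) nil (node (nat_lit 0) (nat_lit 99223) (nat_lit 4) nil
  (node (nat_lit 2) (nat_lit 97664) (nat_lit 4) nil nil))))) (node (nat_lit 4) (nat_lit 0)
  (nat_lit 3) (node (nat_lit 1) (nat_lit 87999) (nat_lit 4) (node (nat_lit 4) (nat_lit 90826)
  (nat_lit 5) (node (nat_lit 5) (nat_lit 80283) (nat_lit 6) (node (nat_lit 7) (nat_lit 81360)
  (nat_lit 7) nil (node (nat_lit 4) (nat_lit 63034) (nat_lit 7) nil nil)) nil) (node (nat_lit 5)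
  (nat_lit 93421) (nat_lit 5) (node (nat_lit 7) (nat_lit 94551) (nat_lit 6) (node (nat_lit 4)
  (nat_lit 94551) (nat_lit 7) (node (nat_lit 5) (nat_lit 94551) (nat_lit 8) (node (nat_lit 4)
  (nat_lit 94551) (nat_lit 9) (node (nat_lit 7) (nat_lit 94551) (nat_lit 10) nil nil) nil) nil)
  nil) nil) (node (nat_lit 1) (nat_lit 94551) (nat_lit 5) nil nil))) (node (nat_lit 0) (nat_lit
  94551) (nat_lit 4) nil (node (nat_lit 2) (nat_lit 91803) (nat_lit 4) (node (nat_lit 4) (nat_lit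
  94551) (nat_lit 5) nil (node (nat_lit 1) (nat_lit 94551) (nat_lit 5) (node (nat_lit 4) (nat_lit
  93933) (nat_lit 6) nil nil) nil)) nil))) nil)))) (node (nat_lit 2) (nat_lit 0) (nat_lit 2) t442
  nil))) nil))

noncomputable def c2 : Tr :=
  (node (nat_lit 1) (nat_lit 0) (nat_lit 1) t441 t443)

noncomputable def t444 : Tr :=
  (node (nat_lit 6) (nat_lit 0) (nat_lit 5) (node (nat_lit 5) (nat_lit 0) (nat_lit 6) (node
  (nat_lit 4) (nat_lit 0) (nat_lit 7) (node (nat_lit 0) (nat_lit 0) (nat_lit 8) (node (nat_lit 5)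
  (nat_lit 0) (nat_lit 9) (node (nat_lit 4) (nat_lit 125493) (nat_lit 10) (node (nat_lit 6)
  (nat_lit 132554) (nat_lit 11) (node (nat_lit 5) (nat_lit 130689) (nat_lit 12) (node (nat_lit 4)
  (nat_lit 131196) (nat_lit 13) (node (nat_lit 5) (nat_lit 130530) (nat_lit 14) (node (nat_lit 6)
  (nat_lit 127691) (nat_lit 15) (node (nat_lit 4) (nat_lit 122227) (nat_lit 16) (node (nat_lit 6)
  (nat_lit 117031) (nat_lit 17) (node (nat_lit 5) (nat_lit 103740) (nat_lit 18) nil nil) nil) nil)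
  nil) nil) nil) (node (nat_lit 4) (nat_lit 128290) (nat_lit 12) (node (nat_lit 5) (nat_lit
  125539) (nat_lit 13) (node (nat_lit 6) (nat_lit 120136) (nat_lit 14) (node (nat_lit 4) (nat_lit
  113491) (nat_lit 15) (node (nat_lit 6) (nat_lit 100303) (nat_lit 16) (node (nat_lit 5) (nat_lit
  89389) (nat_lit 17) (node (nat_lit 4) (nat_lit 89084) (nat_lit 18) nil nil) nil) nil) nil) nil)
  nil) nil)) (node (nat_lit 5) (nat_lit 130810) (nat_lit 11) nil nil)) (node (nat_lit 6) (nat_lit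
  128088) (nat_lit 10) (node (nat_lit 5) (nat_lit 132684) (nat_lit 11) (node (nat_lit 4) (nat_lit
  132194) (nat_lit 12) nil nil) (node (nat_lit 4) (nat_lit 129857) (nat_lit 11) nil nil)) (node
  (nat_lit 11) (nat_lit 126744) (nat_lit 10) (node (nat_lit 4) (nat_lit 126652) (nat_lit 11) nil
  (node (nat_lit 6) (nat_lit 126744) (nat_lit 11) nil nil)) (node (nat_lit 0) (nat_lit 121817)
  (nat_lit 10) nil nil)))) (node (nat_lit 6) (nat_lit 0) (nat_lit 9) (node (nat_lit 5) (nat_lit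
  129530) (nat_lit 10) (node (nat_lit 4) (nat_lit 129342) (nat_lit 11) nil (node (nat_lit 6)
  (nat_lit 132745) (nat_lit 11) nil nil)) (node (nat_lit 4) (nat_lit 129530) (nat_lit 10) (node
  (nat_lit 6) (nat_lit 135239) (nat_lit 11) (node (nat_lit 5) (nat_lit 134645) (nat_lit 12) (node
  (nat_lit 4) (nat_lit 128269) (nat_lit 13) (node (nat_lit 5) (nat_lit 127603) (nat_lit 14) (node
  (nat_lit 6) (nat_lit 124764) (nat_lit 15) nil nil) nil) nil) nil) (node (nat_lit 5) (nat_lit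
  130424) (nat_lit 11) (node (nat_lit 4) (nat_lit 129080) (nat_lit 12) nil nil) nil)) (node
  (nat_lit 11) (nat_lit 131299) (nat_lit 10) (node (nat_lit 4) (nat_lit 131207) (nat_lit 11) nil
  nil) (node (nat_lit 0) (nat_lit 126251) (nat_lit 10) nil nil)))) (node (nat_lit 4) (nat_lit 0)
  (nat_lit 9) (node (nat_lit 6) (nat_lit 128751) (nat_lit 10) (node (nat_lit 5) (nat_lit 132187)
  (nat_lit 11) (node (nat_lit 4) (nat_lit 123096) (nat_lit 12) (node (nat_lit 5) (nat_lit 121973)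
  (nat_lit 13) (node (nat_lit 6) (nat_lit 118274) (nat_lit 14) (node (nat_lit 4) (nat_lit 110831)
  (nat_lit 15) (node (nat_lit 6) (nat_lit 101914) (nat_lit 16) (node (nat_lit 5) (nat_lit 82135)
  (nat_lit 17) nil nil) nil) nil) nil) nil) nil) (node (nat_lit 4) (nat_lit 130520) (nat_lit 11)
  nil nil)) (node (nat_lit 5) (nat_lit 125714) (nat_lit 10) (node (nat_lit 4) (nat_lit 127392)
  (nat_lit 11) (node (nat_lit 6) (nat_lit 121624) (nat_lit 12) nil nil) (node (nat_lit 6) (nat_lit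
  132430) (nat_lit 11) (node (nat_lit 5) (nat_lit 130565) (nat_lit 12) nil nil) nil)) (node
  (nat_lit 0) (nat_lit 124334) (nat_lit 10) nil nil))) (node (nat_lit 0) (nat_lit 124482) (nat_lit
  9) (node (nat_lit 11) (nat_lit 129533) (nat_lit 10) nil (node (nat_lit 4) (nat_lit 129530)
  (nat_lit 10) (node (nat_lit 12) (nat_lit 132858) (nat_lit 11) nil nil) nil)) nil)))) (node
  (nat_lit 5) (nat_lit 0) (nat_lit 8) (node (nat_lit 0) (nat_lit 0) (nat_lit 9) (node (nat_lit 5)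
  (nat_lit 0) (nat_lit 10) (node (nat_lit 6) (nat_lit 114000) (nat_lit 11) (node (nat_lit 4)
  (nat_lit 117483) (nat_lit 12) (node (nat_lit 6) (nat_lit 117717) (nat_lit 13) nil (node (nat_lit
  5) (nat_lit 119989) (nat_lit 13) nil nil)) (node (nat_lit 5) (nat_lit 119392) (nat_lit 12) (node
  (nat_lit 4) (nat_lit 114458) (nat_lit 13) nil nil) (node (nat_lit 12) (nat_lit 119717) (nat_lit
  12) nil (node (nat_lit 0) (nat_lit 119717) (nat_lit 12) nil nil)))) (node (nat_lit 4) (nat_lit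
  110502) (nat_lit 11) (node (nat_lit 6) (nat_lit 118802) (nat_lit 12) (node (nat_lit 4) (nat_lit
  116845) (nat_lit 13) nil (node (nat_lit 5) (nat_lit 117751) (nat_lit 13) nil nil)) (node
  (nat_lit 12) (nat_lit 116219) (nat_lit 12) nil nil)) (node (nat_lit 0) (nat_lit 112401) (nat_lit
  11) nil nil))) (node (nat_lit 4) (nat_lit 101903) (nat_lit 10) (node (nat_lit 5) (nat_lit
  109949) (nat_lit 11) (node (nat_lit 4) (nat_lit 112407) (nat_lit 12) nil nil) (node (nat_lit 12)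
  (nat_lit 113408) (nat_lit 11) (node (nat_lit 5) (nat_lit 113408) (nat_lit 12) nil nil) nil))
  (node (nat_lit 6) (nat_lit 107313) (nat_lit 10) (node (nat_lit 5) (nat_lit 111431) (nat_lit 11)
  nil (node (nat_lit 12) (nat_lit 114642) (nat_lit 11) nil nil)) (node (nat_lit 0) (nat_lit
  107272) (nat_lit 10) (node (nat_lit 5) (nat_lit 107272) (nat_lit 11) nil nil) nil)))) (node
  (nat_lit 6) (nat_lit 0) (nat_lit 9) (node (nat_lit 0) (nat_lit 53252) (nat_lit 10) (node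
  (nat_lit 5) (nat_lit 55810) (nat_lit 11) (node (nat_lit 6) (nat_lit 61377) (nat_lit 12) (node
  (nat_lit 5) (nat_lit 64116) (nat_lit 13) (node (nat_lit 4) (nat_lit 65650) (nat_lit 14) nil
  (node (nat_lit 13) (nat_lit 67599) (nat_lit 14) nil nil)) (node (nat_lit 4) (nat_lit 64717)
  (nat_lit 13) (node (nat_lit 5) (nat_lit 66675) (nat_lit 14) nil (node (nat_lit 6) (nat_lit
  64934) (nat_lit 14) nil nil)) (node (nat_lit 0) (nat_lit 65841) (nat_lit 13) nil nil))) nil)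
  (node (nat_lit 6) (nat_lit 56165) (nat_lit 11) nil nil)) nil) nil)) (node (nat_lit 6) (nat_lit
  0) (nat_lit 8) (node (nat_lit 0) (nat_lit 0) (nat_lit 9) (node (nat_lit 6) (nat_lit 0) (nat_lit
  10) (node (nat_lit 5) (nat_lit 129712) (nat_lit 11) (node (nat_lit 4) (nat_lit 131463) (nat_lit
  12) (node (nat_lit 6) (nat_lit 130411) (nat_lit 13) nil nil) (node (nat_lit 6) (nat_lit 134053)
  (nat_lit 12) nil nil)) (node (nat_lit 4) (nat_lit 129712) (nat_lit 11) (node (nat_lit 5)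
  (nat_lit 131154) (nat_lit 12) nil (node (nat_lit 6) (nat_lit 129995) (nat_lit 12) nil (node
  (nat_lit 12) (nat_lit 135430) (nat_lit 12) nil nil))) (node (nat_lit 0) (nat_lit 128984)
  (nat_lit 11) nil nil))) (node (nat_lit 4) (nat_lit 121044) (nat_lit 10) (node (nat_lit 6)
  (nat_lit 127989) (nat_lit 11) nil (node (nat_lit 12) (nat_lit 129819) (nat_lit 11) nil nil))
  (node (nat_lit 5) (nat_lit 121044) (nat_lit 10) (node (nat_lit 6) (nat_lit 129202) (nat_lit 11)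
  (node (nat_lit 5) (nat_lit 129088) (nat_lit 12) nil nil) (node (nat_lit 12) (nat_lit 128373)
  (nat_lit 11) nil nil)) (node (nat_lit 0) (nat_lit 121766) (nat_lit 10) (node (nat_lit 6)
  (nat_lit 124324) (nat_lit 11) nil (node (nat_lit 12) (nat_lit 124978) (nat_lit 11) nil nil))
  nil)))) (node (nat_lit 4) (nat_lit 0) (nat_lit 9) (node (nat_lit 0) (nat_lit 125118) (nat_lit
  10) (node (nat_lit 6) (nat_lit 129712) (nat_lit 11) (node (nat_lit 4) (nat_lit 135065) (nat_lit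
  12) (node (nat_lit 6) (nat_lit 136179) (nat_lit 13) nil (node (nat_lit 5) (nat_lit 137571)
  (nat_lit 13) nil nil)) (node (nat_lit 13) (nat_lit 135430) (nat_lit 12) nil nil)) (node (nat_lit
  4) (nat_lit 129057) (nat_lit 11) (node (nat_lit 6) (nat_lit 130470) (nat_lit 12) nil nil) (node
  (nat_lit 5) (nat_lit 129057) (nat_lit 11) nil nil))) nil) nil)) nil))) (node (nat_lit 6)
  (nat_lit 0) (nat_lit 7) (node (nat_lit 0) (nat_lit 0) (nat_lit 8) (node (nat_lit 4) (nat_lit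
  145399) (nat_lit 9) (node (nat_lit 5) (nat_lit 150187) (nat_lit 10) (node (nat_lit 4) (nat_lit
  148398) (nat_lit 11) nil (node (nat_lit 6) (nat_lit 148558) (nat_lit 11) nil nil)) (node
  (nat_lit 6) (nat_lit 152223) (nat_lit 10) (node (nat_lit 5) (nat_lit 153179) (nat_lit 11) (node
  (nat_lit 4) (nat_lit 148642) (nat_lit 12) nil nil) (node (nat_lit 4) (nat_lit 153179) (nat_lit
  11) nil nil)) (node (nat_lit 11) (nat_lit 152598) (nat_lit 10) (node (nat_lit 6) (nat_lit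
  152598) (nat_lit 11) nil nil) nil))) (node (nat_lit 5) (nat_lit 0) (nat_lit 9) (node (nat_lit 4)
  (nat_lit 150187) (nat_lit 10) (node (nat_lit 6) (nat_lit 152591) (nat_lit 11) (node (nat_lit 4)
  (nat_lit 152637) (nat_lit 12) (node (nat_lit 5) (nat_lit 151387) (nat_lit 13) (node (nat_lit 6)
  (nat_lit 148396) (nat_lit 14) nil nil) nil) nil) (node (nat_lit 5) (nat_lit 151956) (nat_lit 11)
  nil nil)) (node (nat_lit 11) (nat_lit 152598) (nat_lit 10) (node (nat_lit 6) (nat_lit 152598)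
  (nat_lit 11) nil nil) (node (nat_lit 6) (nat_lit 151642) (nat_lit 10) (node (nat_lit 5) (nat_lit
  150797) (nat_lit 11) (node (nat_lit 4) (nat_lit 147884) (nat_lit 12) nil nil) (node (nat_lit 4)
  (nat_lit 152598) (nat_lit 11) nil nil)) (node (nat_lit 0) (nat_lit 151171) (nat_lit 10) nil
  nil)))) (node (nat_lit 6) (nat_lit 0) (nat_lit 9) (node (nat_lit 5) (nat_lit 152478) (nat_lit
  10) (node (nat_lit 4) (nat_lit 150989) (nat_lit 11) nil nil) (node (nat_lit 4) (nat_lit 152478)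
  (nat_lit 10) (node (nat_lit 5) (nat_lit 153434) (nat_lit 11) nil nil) (node (nat_lit 0) (nat_lit
  152007) (nat_lit 10) nil nil))) (node (nat_lit 0) (nat_lit 150796) (nat_lit 9) (node (nat_lit 6)
  (nat_lit 152223) (nat_lit 10) nil (node (nat_lit 11) (nat_lit 151752) (nat_lit 10) nil nil))
  nil)))) (node (nat_lit 4) (nat_lit 0) (nat_lit 8) (node (nat_lit 0) (nat_lit 0) (nat_lit 9)
  (node (nat_lit 4) (nat_lit 0) (nat_lit 10) (node (nat_lit 5) (nat_lit 147729) (nat_lit 11) (node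
  (nat_lit 4) (nat_lit 149385) (nat_lit 12) nil (node (nat_lit 6) (nat_lit 148012) (nat_lit 12)
  nil nil)) (node (nat_lit 6) (nat_lit 149795) (nat_lit 11) (node (nat_lit 5) (nat_lit 151828)
  (nat_lit 12) (node (nat_lit 4) (nat_lit 150744) (nat_lit 13) nil nil) (node (nat_lit 4) (nat_lit
  152554) (nat_lit 12) nil (node (nat_lit 12) (nat_lit 153948) (nat_lit 12) nil nil))) (node
  (nat_lit 0) (nat_lit 150393) (nat_lit 11) nil nil))) (node (nat_lit 6) (nat_lit 145443) (nat_lit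
  10) (node (nat_lit 12) (nat_lit 151286) (nat_lit 11) nil (node (nat_lit 4) (nat_lit 150615)
  (nat_lit 11) nil nil)) (node (nat_lit 5) (nat_lit 143063) (nat_lit 10) (node (nat_lit 4)
  (nat_lit 147729) (nat_lit 11) nil (node (nat_lit 12) (nat_lit 150393) (nat_lit 11) nil nil))
  (node (nat_lit 0) (nat_lit 149502) (nat_lit 10) (node (nat_lit 4) (nat_lit 149502) (nat_lit 11)
  nil nil) nil)))) (node (nat_lit 5) (nat_lit 0) (nat_lit 9) (node (nat_lit 0) (nat_lit 148722)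
  (nat_lit 10) (node (nat_lit 4) (nat_lit 149329) (nat_lit 11) (node (nat_lit 5) (nat_lit 152489)
  (nat_lit 12) (node (nat_lit 4) (nat_lit 151875) (nat_lit 13) nil (node (nat_lit 6) (nat_lit
  153223) (nat_lit 13) nil nil)) nil) nil) nil) nil)) nil)) (node (nat_lit 0) (nat_lit 0) (nat_lit
  7) (node (nat_lit 5) (nat_lit 139307) (nat_lit 8) (node (nat_lit 6) (nat_lit 148857) (nat_lit 9)
  (node (nat_lit 4) (nat_lit 152170) (nat_lit 10) nil (node (nat_lit 5) (nat_lit 148700) (nat_lit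
  10) (node (nat_lit 4) (nat_lit 144970) (nat_lit 11) nil nil) nil)) (node (nat_lit 4) (nat_lit
  145991) (nat_lit 9) (node (nat_lit 6) (nat_lit 150048) (nat_lit 10) (node (nat_lit 4) (nat_lit
  143434) (nat_lit 11) (node (nat_lit 5) (nat_lit 139118) (nat_lit 12) nil nil) nil) (node
  (nat_lit 5) (nat_lit 150082) (nat_lit 10) nil nil)) nil)) (node (nat_lit 4) (nat_lit 139307)
  (nat_lit 8) (node (nat_lit 6) (nat_lit 148857) (nat_lit 9) (node (nat_lit 5) (nat_lit 150500)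
  (nat_lit 10) (node (nat_lit 4) (nat_lit 139682) (nat_lit 11) nil nil) (node (nat_lit 4) (nat_lit
  152170) (nat_lit 10) nil nil)) (node (nat_lit 5) (nat_lit 145991) (nat_lit 9) (node (nat_lit 4)
  (nat_lit 145527) (nat_lit 10) nil (node (nat_lit 6) (nat_lit 145865) (nat_lit 10) nil nil))
  (node (nat_lit 10) (nat_lit 149822) (nat_lit 9) nil nil))) (node (nat_lit 6) (nat_lit 141464)
  (nat_lit 8) (node (nat_lit 5) (nat_lit 150357) (nat_lit 9) (node (nat_lit 4) (nat_lit 149077)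
  (nat_lit 10) nil nil) (node (nat_lit 4) (nat_lit 146695) (nat_lit 9) nil (node (nat_lit 10)
  (nat_lit 152104) (nat_lit 9) nil nil))) (node (nat_lit 0) (nat_lit 146475) (nat_lit 8) nil
  nil)))) nil))) nil) (node (nat_lit 5) (nat_lit 0) (nat_lit 5) (node (nat_lit 4) (nat_lit 0)
  (nat_lit 6) (node (nat_lit 6) (nat_lit 0) (nat_lit 7) (node (nat_lit 5) (nat_lit 0) (nat_lit 8)
  (node (nat_lit 0) (nat_lit 0) (nat_lit 9) (node (nat_lit 5) (nat_lit 0) (nat_lit 10) (node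
  (nat_lit 6) (nat_lit 108736) (nat_lit 11) (node (nat_lit 5) (nat_lit 109711) (nat_lit 12) nil
  (node (nat_lit 4) (nat_lit 109711) (nat_lit 12) nil (node (nat_lit 12) (nat_lit 109711) (nat_lit
  12) nil nil))) (node (nat_lit 4) (nat_lit 107605) (nat_lit 11) (node (nat_lit 5) (nat_lit
  109033) (nat_lit 12) nil (node (nat_lit 6) (nat_lit 109431) (nat_lit 12) nil (node (nat_lit 12)
  (nat_lit 109711) (nat_lit 12) nil nil))) (node (nat_lit 0) (nat_lit 109711) (nat_lit 11) nil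
  nil))) (node (nat_lit 6) (nat_lit 107941) (nat_lit 10) (node (nat_lit 12) (nat_lit 109711)
  (nat_lit 11) (node (nat_lit 5) (nat_lit 109711) (nat_lit 12) (node (nat_lit 12) (nat_lit 109711)
  (nat_lit 13) nil nil) nil) (node (nat_lit 5) (nat_lit 109711) (nat_lit 11) nil (node (nat_lit 4)
  (nat_lit 109711) (nat_lit 11) nil nil))) (node (nat_lit 4) (nat_lit 106341) (nat_lit 10) (node
  (nat_lit 5) (nat_lit 107605) (nat_lit 11) (node (nat_lit 4) (nat_lit 109033) (nat_lit 12) nil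
  nil) (node (nat_lit 12) (nat_lit 109598) (nat_lit 11) nil nil)) (node (nat_lit 0) (nat_lit
  109711) (nat_lit 10) (node (nat_lit 5) (nat_lit 109711) (nat_lit 11) nil (node (nat_lit 12)
  (nat_lit 109711) (nat_lit 11) nil nil)) nil)))) (node (nat_lit 6) (nat_lit 0) (nat_lit 9) (node
  (nat_lit 0) (nat_lit 0) (nat_lit 10) (node (nat_lit 5) (nat_lit 109205) (nat_lit 11) (node
  (nat_lit 6) (nat_lit 109711) (nat_lit 12) (node (nat_lit 5) (nat_lit 109711) (nat_lit 13) (node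
  (nat_lit 4) (nat_lit 109711) (nat_lit 14) (node (nat_lit 5) (nat_lit 109711) (nat_lit 15) nil
  nil) (node (nat_lit 13) (nat_lit 109711) (nat_lit 14) (node (nat_lit 5) (nat_lit 109711)
  (nat_lit 15) nil (node (nat_lit 6) (nat_lit 109711) (nat_lit 15) nil nil)) (node (nat_lit 0)
  (nat_lit 109711) (nat_lit 14) nil nil))) (node (nat_lit 4) (nat_lit 109711) (nat_lit 13) (node
  (nat_lit 5) (nat_lit 109711) (nat_lit 14) nil (node (nat_lit 6) (nat_lit 109711) (nat_lit 14)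
  nil nil)) (node (nat_lit 0) (nat_lit 109711) (nat_lit 13) nil nil))) (node (nat_lit 13) (nat_lit
  109711) (nat_lit 12) (node (nat_lit 6) (nat_lit 109711) (nat_lit 13) nil nil) nil)) (node
  (nat_lit 6) (nat_lit 109711) (nat_lit 11) (node (nat_lit 5) (nat_lit 109711) (nat_lit 12) (node
  (nat_lit 13) (nat_lit 109711) (nat_lit 13) (node (nat_lit 5) (nat_lit 109711) (nat_lit 14) (node
  (nat_lit 6) (nat_lit 109711) (nat_lit 15) nil nil) nil) nil) nil) (node (nat_lit 4) (nat_lit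
  109711) (nat_lit 11) nil (node (nat_lit 0) (nat_lit 109711) (nat_lit 11) nil nil)))) nil) (node
  (nat_lit 4) (nat_lit 0) (nat_lit 9) (node (nat_lit 0) (nat_lit 105787) (nat_lit 10) (node
  (nat_lit 5) (nat_lit 107164) (nat_lit 11) (node (nat_lit 4) (nat_lit 109443) (nat_lit 12) (node
  (nat_lit 6) (nat_lit 108283) (nat_lit 13) nil (node (nat_lit 5) (nat_lit 109711) (nat_lit 13)
  nil nil)) nil) nil) nil) nil))) (node (nat_lit 0) (nat_lit 0) (nat_lit 8) (node (nat_lit 5)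
  (nat_lit 107198) (nat_lit 9) (node (nat_lit 6) (nat_lit 109232) (nat_lit 10) (node (nat_lit 5)
  (nat_lit 108521) (nat_lit 11) (node (nat_lit 4) (nat_lit 107973) (nat_lit 12) (node (nat_lit 5)
  (nat_lit 101419) (nat_lit 13) (node (nat_lit 6) (nat_lit 98493) (nat_lit 14) nil nil) nil) nil)
  (node (nat_lit 4) (nat_lit 108841) (nat_lit 11) nil nil)) (node (nat_lit 4) (nat_lit 107551)
  (nat_lit 10) nil (node (nat_lit 11) (nat_lit 109711) (nat_lit 10) nil nil))) (node (nat_lit 4)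
  (nat_lit 107198) (nat_lit 9) (node (nat_lit 5) (nat_lit 108255) (nat_lit 10) (node (nat_lit 6)
  (nat_lit 105671) (nat_lit 11) nil nil) (node (nat_lit 6) (nat_lit 107594) (nat_lit 10) (node
  (nat_lit 5) (nat_lit 107890) (nat_lit 11) nil nil) nil)) (node (nat_lit 6) (nat_lit 109192)
  (nat_lit 9) (node (nat_lit 4) (nat_lit 109711) (nat_lit 10) (node (nat_lit 6) (nat_lit 109711)
  (nat_lit 11) nil (node (nat_lit 5) (nat_lit 109711) (nat_lit 11) nil nil)) (node (nat_lit 5)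
  (nat_lit 109711) (nat_lit 10) (node (nat_lit 4) (nat_lit 109711) (nat_lit 11) nil nil) nil))
  (node (nat_lit 0) (nat_lit 109142) (nat_lit 9) (node (nat_lit 6) (nat_lit 109142) (nat_lit 10)
  nil nil) nil)))) (node (nat_lit 4) (nat_lit 0) (nat_lit 8) (node (nat_lit 0) (nat_lit 0)
  (nat_lit 9) (node (nat_lit 4) (nat_lit 0) (nat_lit 10) (node (nat_lit 5) (nat_lit 107605)
  (nat_lit 11) (node (nat_lit 4) (nat_lit 108613) (nat_lit 12) nil (node (nat_lit 6) (nat_lit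
  106104) (nat_lit 12) nil nil)) (node (nat_lit 6) (nat_lit 107342) (nat_lit 11) (node (nat_lit 5)
  (nat_lit 108995) (nat_lit 12) nil nil) (node (nat_lit 0) (nat_lit 109598) (nat_lit 11) nil
  nil))) (node (nat_lit 6) (nat_lit 107941) (nat_lit 10) (node (nat_lit 12) (nat_lit 109711)
  (nat_lit 11) nil (node (nat_lit 4) (nat_lit 109711) (nat_lit 11) nil nil)) (node (nat_lit 5)
  (nat_lit 106341) (nat_lit 10) (node (nat_lit 4) (nat_lit 108170) (nat_lit 11) nil nil) (node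
  (nat_lit 0) (nat_lit 109711) (nat_lit 10) nil nil)))) (node (nat_lit 5) (nat_lit 0) (nat_lit 9)
  (node (nat_lit 0) (nat_lit 107775) (nat_lit 10) (node (nat_lit 4) (nat_lit 107211) (nat_lit 11)
  (node (nat_lit 5) (nat_lit 108217) (nat_lit 12) (node (nat_lit 6) (nat_lit 109628) (nat_lit 13)
  nil nil) nil) (node (nat_lit 5) (nat_lit 107775) (nat_lit 11) nil nil)) nil) nil)) nil))) (node
  (nat_lit 0) (nat_lit 0) (nat_lit 7) (node (nat_lit 4) (nat_lit 105535) (nat_lit 8) (node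
  (nat_lit 5) (nat_lit 107371) (nat_lit 9) (node (nat_lit 6) (nat_lit 107519) (nat_lit 10) (node
  (nat_lit 5) (nat_lit 107110) (nat_lit 11) nil nil) (node (nat_lit 4) (nat_lit 109159) (nat_lit
  10) nil nil)) (node (nat_lit 6) (nat_lit 108701) (nat_lit 9) (node (nat_lit 5) (nat_lit 106737)
  (nat_lit 10) (node (nat_lit 4) (nat_lit 103185) (nat_lit 11) nil nil) (node (nat_lit 4) (nat_lit
  109711) (nat_lit 10) nil nil)) nil)) (node (nat_lit 5) (nat_lit 105535) (nat_lit 8) (node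
  (nat_lit 4) (nat_lit 107371) (nat_lit 9) (node (nat_lit 6) (nat_lit 107519) (nat_lit 10) nil
  nil) (node (nat_lit 6) (nat_lit 108701) (nat_lit 9) (node (nat_lit 4) (nat_lit 109711) (nat_lit
  10) nil (node (nat_lit 5) (nat_lit 105115) (nat_lit 10) (node (nat_lit 4) (nat_lit 103454)
  (nat_lit 11) nil nil) nil)) nil)) (node (nat_lit 6) (nat_lit 107662) (nat_lit 8) (node (nat_lit
  5) (nat_lit 109711) (nat_lit 9) (node (nat_lit 4) (nat_lit 109711) (nat_lit 10) nil nil) (node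
  (nat_lit 4) (nat_lit 107595) (nat_lit 9) nil (node (nat_lit 10) (nat_lit 109711) (nat_lit 9) nil
  nil))) (node (nat_lit 0) (nat_lit 107777) (nat_lit 8) nil nil)))) nil)) nil) nil))

noncomputable def t445 : Tr :=
  (node (nat_lit 6) (nat_lit 0) (nat_lit 6) (node (nat_lit 4) (nat_lit 0) (nat_lit 7) (node
  (nat_lit 5) (nat_lit 0) (nat_lit 8) (node (nat_lit 0) (nat_lit 0) (nat_lit 9) (node (nat_lit 5)
  (nat_lit 0) (nat_lit 10) (node (nat_lit 4) (nat_lit 74019) (nat_lit 11) (node (nat_lit 5)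
  (nat_lit 79187) (nat_lit 12) (node (nat_lit 12) (nat_lit 83651) (nat_lit 13) nil nil) (node
  (nat_lit 6) (nat_lit 78811) (nat_lit 12) (node (nat_lit 4) (nat_lit 83329) (nat_lit 13) nil
  (node (nat_lit 5) (nat_lit 81552) (nat_lit 13) nil nil)) (node (nat_lit 12) (nat_lit 83024)
  (nat_lit 12) (node (nat_lit 5) (nat_lit 84550) (nat_lit 13) nil nil) (node (nat_lit 0) (nat_lit
  79736) (nat_lit 12) nil nil)))) (node (nat_lit 6) (nat_lit 75313) (nat_lit 11) (node (nat_lit 4)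
  (nat_lit 79584) (nat_lit 12) (node (nat_lit 5) (nat_lit 82090) (nat_lit 13) nil (node (nat_lit
  6) (nat_lit 79818) (nat_lit 13) nil nil)) (node (nat_lit 5) (nat_lit 80786) (nat_lit 12) (node
  (nat_lit 4) (nat_lit 76748) (nat_lit 13) nil (node (nat_lit 12) (nat_lit 85250) (nat_lit 13) nil
  nil)) (node (nat_lit 12) (nat_lit 82988) (nat_lit 12) nil (node (nat_lit 0) (nat_lit 82988)
  (nat_lit 12) nil nil)))) (node (nat_lit 0) (nat_lit 77317) (nat_lit 11) (node (nat_lit 12)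
  (nat_lit 79824) (nat_lit 12) nil nil) nil))) (node (nat_lit 4) (nat_lit 66230) (nat_lit 10)
  (node (nat_lit 12) (nat_lit 77511) (nat_lit 11) (node (nat_lit 5) (nat_lit 76830) (nat_lit 12)
  (node (nat_lit 12) (nat_lit 82819) (nat_lit 13) nil nil) nil) (node (nat_lit 5) (nat_lit 73898)
  (nat_lit 11) (node (nat_lit 4) (nat_lit 79688) (nat_lit 12) nil nil) nil)) (node (nat_lit 6)
  (nat_lit 65935) (nat_lit 10) (node (nat_lit 12) (nat_lit 77217) (nat_lit 11) nil (node (nat_lit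
  5) (nat_lit 74833) (nat_lit 11) nil nil)) (node (nat_lit 0) (nat_lit 69071) (nat_lit 10) (node
  (nat_lit 5) (nat_lit 68102) (nat_lit 11) nil nil) nil)))) (node (nat_lit 4) (nat_lit 0) (nat_lit
  9) (node (nat_lit 0) (nat_lit 70363) (nat_lit 10) (node (nat_lit 5) (nat_lit 75698) (nat_lit 11)
  (node (nat_lit 4) (nat_lit 82984) (nat_lit 12) (node (nat_lit 5) (nat_lit 88265) (nat_lit 13)
  (node (nat_lit 13) (nat_lit 93959) (nat_lit 14) (node (nat_lit 4) (nat_lit 94594) (nat_lit 15)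
  nil (node (nat_lit 5) (nat_lit 94097) (nat_lit 15) nil nil)) (node (nat_lit 6) (nat_lit 90689)
  (nat_lit 14) (node (nat_lit 5) (nat_lit 89564) (nat_lit 15) nil (node (nat_lit 4) (nat_lit
  92215) (nat_lit 15) nil nil)) (node (nat_lit 0) (nat_lit 91748) (nat_lit 14) nil nil))) (node
  (nat_lit 6) (nat_lit 88823) (nat_lit 13) (node (nat_lit 5) (nat_lit 92496) (nat_lit 14) (node
  (nat_lit 6) (nat_lit 92301) (nat_lit 15) nil nil) (node (nat_lit 4) (nat_lit 92352) (nat_lit 14)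
  (node (nat_lit 5) (nat_lit 89544) (nat_lit 15) nil nil) (node (nat_lit 13) (nat_lit 92307)
  (nat_lit 14) nil nil))) (node (nat_lit 0) (nat_lit 88974) (nat_lit 13) nil nil))) (node (nat_lit
  13) (nat_lit 85124) (nat_lit 12) (node (nat_lit 4) (nat_lit 85124) (nat_lit 13) nil nil) nil))
  (node (nat_lit 4) (nat_lit 75385) (nat_lit 11) (node (nat_lit 5) (nat_lit 83008) (nat_lit 12)
  (node (nat_lit 13) (nat_lit 89523) (nat_lit 13) (node (nat_lit 5) (nat_lit 89523) (nat_lit 14)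
  nil nil) nil) nil) (node (nat_lit 6) (nat_lit 75492) (nat_lit 11) nil nil))) nil) (node (nat_lit
  6) (nat_lit 0) (nat_lit 9) (node (nat_lit 0) (nat_lit 52045) (nat_lit 10) (node (nat_lit 5)
  (nat_lit 55503) (nat_lit 11) (node (nat_lit 6) (nat_lit 60940) (nat_lit 12) (node (nat_lit 5)
  (nat_lit 64451) (nat_lit 13) (node (nat_lit 13) (nat_lit 67934) (nat_lit 14) nil (node (nat_lit
  4) (nat_lit 61756) (nat_lit 14) nil nil)) (node (nat_lit 4) (nat_lit 63446) (nat_lit 13) nil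
  (node (nat_lit 0) (nat_lit 65404) (nat_lit 13) nil nil))) nil) nil) nil) nil))) (node (nat_lit
  0) (nat_lit 0) (nat_lit 8) (node (nat_lit 6) (nat_lit 0) (nat_lit 9) (node (nat_lit 4) (nat_lit
  107291) (nat_lit 10) (node (nat_lit 6) (nat_lit 113012) (nat_lit 11) (node (nat_lit 5) (nat_lit
  116195) (nat_lit 12) (node (nat_lit 4) (nat_lit 114827) (nat_lit 13) (node (nat_lit 5) (nat_lit
  108997) (nat_lit 14) (node (nat_lit 6) (nat_lit 107122) (nat_lit 15) (node (nat_lit 5) (nat_lit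
  103697) (nat_lit 16) (node (nat_lit 4) (nat_lit 94993) (nat_lit 17) (node (nat_lit 6) (nat_lit
  81705) (nat_lit 18) (node (nat_lit 4) (nat_lit 74239) (nat_lit 19) nil nil) nil) nil) nil) nil)
  nil) nil) nil) (node (nat_lit 5) (nat_lit 108319) (nat_lit 11) nil nil)) (node (nat_lit 5)
  (nat_lit 110152) (nat_lit 10) (node (nat_lit 6) (nat_lit 114378) (nat_lit 11) (node (nat_lit 4)
  (nat_lit 110243) (nat_lit 12) (node (nat_lit 5) (nat_lit 107722) (nat_lit 13) nil nil) nil)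
  (node (nat_lit 4) (nat_lit 114690) (nat_lit 11) nil nil)) (node (nat_lit 11) (nat_lit 107661)
  (nat_lit 10) (node (nat_lit 4) (nat_lit 107661) (nat_lit 11) nil nil) (node (nat_lit 0) (nat_lit
  104051) (nat_lit 10) nil nil)))) (node (nat_lit 5) (nat_lit 0) (nat_lit 9) (node (nat_lit 4)
  (nat_lit 109442) (nat_lit 10) (node (nat_lit 6) (nat_lit 115267) (nat_lit 11) (node (nat_lit 4)
  (nat_lit 111132) (nat_lit 12) (node (nat_lit 5) (nat_lit 108610) (nat_lit 13) nil nil) (node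
  (nat_lit 5) (nat_lit 109375) (nat_lit 12) nil nil)) (node (nat_lit 5) (nat_lit 112803) (nat_lit
  11) (node (nat_lit 6) (nat_lit 117081) (nat_lit 12) nil nil) nil)) (node (nat_lit 6) (nat_lit
  107828) (nat_lit 10) (node (nat_lit 5) (nat_lit 112420) (nat_lit 11) nil (node (nat_lit 4)
  (nat_lit 112104) (nat_lit 11) nil nil)) (node (nat_lit 11) (nat_lit 110494) (nat_lit 10) nil
  (node (nat_lit 0) (nat_lit 104558) (nat_lit 10) nil nil)))) (node (nat_lit 4) (nat_lit 0)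
  (nat_lit 9) (node (nat_lit 6) (nat_lit 105961) (nat_lit 10) (node (nat_lit 5) (nat_lit 109744)
  (nat_lit 11) nil (node (nat_lit 4) (nat_lit 110237) (nat_lit 11) nil nil)) (node (nat_lit 5)
  (nat_lit 106721) (nat_lit 10) (node (nat_lit 6) (nat_lit 105093) (nat_lit 11) nil (node (nat_lit
  4) (nat_lit 107440) (nat_lit 11) nil nil)) (node (nat_lit 0) (nat_lit 105925) (nat_lit 10) nil
  nil))) (node (nat_lit 0) (nat_lit 103091) (nat_lit 9) (node (nat_lit 4) (nat_lit 106540)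
  (nat_lit 10) nil (node (nat_lit 11) (nat_lit 109925) (nat_lit 10) nil nil)) nil)))) nil)) (node
  (nat_lit 5) (nat_lit 0) (nat_lit 7) (node (nat_lit 0) (nat_lit 0) (nat_lit 8) (node (nat_lit 4)
  (nat_lit 0) (nat_lit 9) (node (nat_lit 5) (nat_lit 116846) (nat_lit 10) (node (nat_lit 6)
  (nat_lit 121586) (nat_lit 11) (node (nat_lit 5) (nat_lit 122419) (nat_lit 12) nil nil) (node
  (nat_lit 4) (nat_lit 121004) (nat_lit 11) (node (nat_lit 6) (nat_lit 115144) (nat_lit 12) nil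
  nil) nil)) (node (nat_lit 6) (nat_lit 117259) (nat_lit 10) (node (nat_lit 5) (nat_lit 120786)
  (nat_lit 11) (node (nat_lit 4) (nat_lit 119595) (nat_lit 12) nil nil) (node (nat_lit 4) (nat_lit
  121535) (nat_lit 11) nil nil)) (node (nat_lit 11) (nat_lit 117331) (nat_lit 10) (node (nat_lit
  5) (nat_lit 116362) (nat_lit 11) (node (nat_lit 4) (nat_lit 115017) (nat_lit 12) nil nil) (node
  (nat_lit 6) (nat_lit 117331) (nat_lit 11) nil nil)) (node (nat_lit 0) (nat_lit 113114) (nat_lit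
  10) nil nil)))) (node (nat_lit 5) (nat_lit 0) (nat_lit 9) (node (nat_lit 4) (nat_lit 116711)
  (nat_lit 10) (node (nat_lit 6) (nat_lit 123481) (nat_lit 11) (node (nat_lit 4) (nat_lit 119346)
  (nat_lit 12) (node (nat_lit 5) (nat_lit 116825) (nat_lit 13) (node (nat_lit 6) (nat_lit 113124)
  (nat_lit 14) (node (nat_lit 5) (nat_lit 105534) (nat_lit 15) (node (nat_lit 4) (nat_lit 96370)
  (nat_lit 16) (node (nat_lit 6) (nat_lit 76268) (nat_lit 17) (node (nat_lit 5) (nat_lit 66054)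
  (nat_lit 18) nil nil) nil) nil) nil) nil) nil) nil) (node (nat_lit 5) (nat_lit 118480) (nat_lit
  11) nil nil)) (node (nat_lit 6) (nat_lit 117524) (nat_lit 10) (node (nat_lit 4) (nat_lit 119293)
  (nat_lit 11) nil (node (nat_lit 5) (nat_lit 119489) (nat_lit 11) (node (nat_lit 4) (nat_lit
  113706) (nat_lit 12) nil nil) nil)) (node (nat_lit 0) (nat_lit 115416) (nat_lit 10) nil nil)))
  (node (nat_lit 6) (nat_lit 0) (nat_lit 9) (node (nat_lit 4) (nat_lit 118035) (nat_lit 10) (node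
  (nat_lit 5) (nat_lit 119804) (nat_lit 11) nil (node (nat_lit 6) (nat_lit 116407) (nat_lit 11)
  nil nil)) (node (nat_lit 5) (nat_lit 116698) (nat_lit 10) (node (nat_lit 6) (nat_lit 122420)
  (nat_lit 11) (node (nat_lit 4) (nat_lit 118285) (nat_lit 12) (node (nat_lit 5) (nat_lit 115764)
  (nat_lit 13) nil nil) nil) (node (nat_lit 4) (nat_lit 119365) (nat_lit 11) nil nil)) (node
  (nat_lit 11) (nat_lit 118233) (nat_lit 10) (node (nat_lit 5) (nat_lit 117264) (nat_lit 11) (node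
  (nat_lit 6) (nat_lit 116050) (nat_lit 12) nil nil) (node (nat_lit 4) (nat_lit 118233) (nat_lit
  11) nil nil)) (node (nat_lit 0) (nat_lit 114590) (nat_lit 10) nil nil)))) (node (nat_lit 0)
  (nat_lit 111529) (nat_lit 9) (node (nat_lit 5) (nat_lit 114091) (nat_lit 10) (node (nat_lit 12)
  (nat_lit 117420) (nat_lit 11) nil nil) (node (nat_lit 11) (nat_lit 118364) (nat_lit 10) nil
  nil)) nil)))) (node (nat_lit 6) (nat_lit 0) (nat_lit 8) (node (nat_lit 0) (nat_lit 0) (nat_lit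
  9) (node (nat_lit 6) (nat_lit 0) (nat_lit 10) (node (nat_lit 4) (nat_lit 116866) (nat_lit 11)
  (node (nat_lit 6) (nat_lit 118178) (nat_lit 12) nil (node (nat_lit 5) (nat_lit 120077) (nat_lit
  12) nil nil)) (node (nat_lit 5) (nat_lit 116616) (nat_lit 11) (node (nat_lit 4) (nat_lit 118324)
  (nat_lit 12) nil (node (nat_lit 12) (nat_lit 122333) (nat_lit 12) nil nil)) (node (nat_lit 0)
  (nat_lit 117833) (nat_lit 11) nil nil))) (node (nat_lit 5) (nat_lit 108750) (nat_lit 10) (node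
  (nat_lit 6) (nat_lit 116821) (nat_lit 11) (node (nat_lit 5) (nat_lit 116832) (nat_lit 12) nil
  nil) (node (nat_lit 12) (nat_lit 118586) (nat_lit 11) nil nil)) (node (nat_lit 4) (nat_lit
  109084) (nat_lit 10) (node (nat_lit 6) (nat_lit 109550) (nat_lit 11) nil (node (nat_lit 12)
  (nat_lit 116413) (nat_lit 11) nil nil)) (node (nat_lit 0) (nat_lit 111110) (nat_lit 10) (node
  (nat_lit 6) (nat_lit 111110) (nat_lit 11) nil nil) nil)))) (node (nat_lit 4) (nat_lit 0)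
  (nat_lit 9) (node (nat_lit 0) (nat_lit 113405) (nat_lit 10) (node (nat_lit 6) (nat_lit 118848)
  (nat_lit 11) (node (nat_lit 4) (nat_lit 125767) (nat_lit 12) (node (nat_lit 6) (nat_lit 126001)
  (nat_lit 13) nil nil) nil) (node (nat_lit 4) (nat_lit 118969) (nat_lit 11) nil nil)) nil) nil))
  nil)) (node (nat_lit 0) (nat_lit 0) (nat_lit 7) (node (nat_lit 5) (nat_lit 104196) (nat_lit 8)
  (node (nat_lit 4) (nat_lit 115385) (nat_lit 9) (node (nat_lit 6) (nat_lit 119508) (nat_lit 10)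
  (node (nat_lit 4) (nat_lit 111944) (nat_lit 11) (node (nat_lit 5) (nat_lit 105911) (nat_lit 12)
  (node (nat_lit 6) (nat_lit 98427) (nat_lit 13) (node (nat_lit 5) (nat_lit 73272) (nat_lit 14)
  (node (nat_lit 4) (nat_lit 64357) (nat_lit 15) nil nil) nil) nil) nil) (node (nat_lit 5)
  (nat_lit 115757) (nat_lit 11) nil nil)) (node (nat_lit 5) (nat_lit 121035) (nat_lit 10) nil
  nil)) (node (nat_lit 6) (nat_lit 115992) (nat_lit 9) (node (nat_lit 4) (nat_lit 121641) (nat_lit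
  10) nil (node (nat_lit 5) (nat_lit 117418) (nat_lit 10) nil nil)) (node (nat_lit 10) (nat_lit
  117207) (nat_lit 9) nil nil))) (node (nat_lit 6) (nat_lit 99422) (nat_lit 8) (node (nat_lit 4)
  (nat_lit 112905) (nat_lit 9) (node (nat_lit 5) (nat_lit 116383) (nat_lit 10) (node (nat_lit 4)
  (nat_lit 114594) (nat_lit 11) nil nil) (node (nat_lit 6) (nat_lit 116469) (nat_lit 10) nil nil))
  (node (nat_lit 5) (nat_lit 115538) (nat_lit 9) (node (nat_lit 4) (nat_lit 122977) (nat_lit 10)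
  nil (node (nat_lit 6) (nat_lit 120759) (nat_lit 10) (node (nat_lit 4) (nat_lit 122351) (nat_lit
  11) nil nil) nil)) nil)) (node (nat_lit 4) (nat_lit 101523) (nat_lit 8) (node (nat_lit 6)
  (nat_lit 113779) (nat_lit 9) (node (nat_lit 5) (nat_lit 121781) (nat_lit 10) (node (nat_lit 4)
  (nat_lit 116065) (nat_lit 11) nil (node (nat_lit 6) (nat_lit 117210) (nat_lit 11) nil nil))
  (node (nat_lit 4) (nat_lit 119429) (nat_lit 10) nil nil)) (node (nat_lit 5) (nat_lit 115506)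
  (nat_lit 9) (node (nat_lit 6) (nat_lit 120266) (nat_lit 10) nil (node (nat_lit 4) (nat_lit
  116602) (nat_lit 10) nil nil)) (node (nat_lit 10) (nat_lit 115463) (nat_lit 9) nil nil))) (node
  (nat_lit 0) (nat_lit 109012) (nat_lit 8) nil nil)))) nil))) (node (nat_lit 5) (nat_lit 0)
  (nat_lit 6) (node (nat_lit 6) (nat_lit 0) (nat_lit 7) (node (nat_lit 4) (nat_lit 0) (nat_lit 8)
  (node (nat_lit 0) (nat_lit 0) (nat_lit 9) (node (nat_lit 4) (nat_lit 0) (nat_lit 10) (node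
  (nat_lit 6) (nat_lit 83677) (nat_lit 11) (node (nat_lit 5) (nat_lit 86548) (nat_lit 12) (node
  (nat_lit 6) (nat_lit 85128) (nat_lit 13) nil (node (nat_lit 4) (nat_lit 88790) (nat_lit 13) nil
  nil)) (node (nat_lit 4) (nat_lit 86548) (nat_lit 12) nil (node (nat_lit 12) (nat_lit 87942)
  (nat_lit 12) nil (node (nat_lit 0) (nat_lit 86855) (nat_lit 12) nil nil)))) (node (nat_lit 5)
  (nat_lit 83171) (nat_lit 11) (node (nat_lit 4) (nat_lit 85723) (nat_lit 12) nil (node (nat_lit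
  6) (nat_lit 86548) (nat_lit 12) nil (node (nat_lit 0) (nat_lit 86349) (nat_lit 12) nil (node
  (nat_lit 12) (nat_lit 86349) (nat_lit 12) nil nil)))) (node (nat_lit 0) (nat_lit 85461) (nat_lit
  11) nil nil))) (node (nat_lit 6) (nat_lit 78630) (nat_lit 10) (node (nat_lit 12) (nat_lit 84965)
  (nat_lit 11) (node (nat_lit 4) (nat_lit 86052) (nat_lit 12) nil nil) (node (nat_lit 4) (nat_lit
  83181) (nat_lit 11) (node (nat_lit 6) (nat_lit 84965) (nat_lit 12) nil nil) (node (nat_lit 5)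
  (nat_lit 76602) (nat_lit 11) nil nil))) (node (nat_lit 5) (nat_lit 79498) (nat_lit 10) (node
  (nat_lit 12) (nat_lit 84965) (nat_lit 11) nil (node (nat_lit 4) (nat_lit 83181) (nat_lit 11)
  (node (nat_lit 5) (nat_lit 84965) (nat_lit 12) nil nil) nil)) (node (nat_lit 0) (nat_lit 81420)
  (nat_lit 10) (node (nat_lit 4) (nat_lit 83181) (nat_lit 11) nil (node (nat_lit 12) (nat_lit
  83204) (nat_lit 11) nil nil)) nil)))) (node (nat_lit 6) (nat_lit 0) (nat_lit 9) (node (nat_lit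
  0) (nat_lit 0) (nat_lit 10) (node (nat_lit 4) (nat_lit 83797) (nat_lit 11) (node (nat_lit 6)
  (nat_lit 86668) (nat_lit 12) (node (nat_lit 4) (nat_lit 88910) (nat_lit 13) (node (nat_lit 13)
  (nat_lit 91238) (nat_lit 14) (node (nat_lit 4) (nat_lit 91238) (nat_lit 15) nil (node (nat_lit
  6) (nat_lit 91238) (nat_lit 15) nil nil)) (node (nat_lit 5) (nat_lit 89997) (nat_lit 14) nil
  (node (nat_lit 0) (nat_lit 90846) (nat_lit 14) nil nil))) (node (nat_lit 5) (nat_lit 88910)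
  (nat_lit 13) (node (nat_lit 4) (nat_lit 90661) (nat_lit 14) (node (nat_lit 5) (nat_lit 91238)
  (nat_lit 15) (node (nat_lit 6) (nat_lit 91238) (nat_lit 16) nil nil) nil) (node (nat_lit 6)
  (nat_lit 87246) (nat_lit 14) nil (node (nat_lit 13) (nat_lit 90846) (nat_lit 14) nil nil)))
  (node (nat_lit 0) (nat_lit 89149) (nat_lit 13) nil nil))) (node (nat_lit 13) (nat_lit 88062)
  (nat_lit 12) (node (nat_lit 6) (nat_lit 88062) (nat_lit 13) nil nil) nil)) (node (nat_lit 6)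
  (nat_lit 83257) (nat_lit 11) (node (nat_lit 4) (nat_lit 86128) (nat_lit 12) (node (nat_lit 13)
  (nat_lit 89458) (nat_lit 13) (node (nat_lit 4) (nat_lit 89458) (nat_lit 14) (node (nat_lit 6)
  (nat_lit 90307) (nat_lit 15) nil nil) nil) nil) nil) (node (nat_lit 5) (nat_lit 83257) (nat_lit
  11) nil (node (nat_lit 0) (nat_lit 83647) (nat_lit 11) nil nil)))) nil) (node (nat_lit 5)
  (nat_lit 0) (nat_lit 9) (node (nat_lit 0) (nat_lit 81819) (nat_lit 10) (node (nat_lit 4)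
  (nat_lit 83797) (nat_lit 11) (node (nat_lit 5) (nat_lit 86668) (nat_lit 12) (node (nat_lit 4)
  (nat_lit 85377) (nat_lit 13) nil (node (nat_lit 6) (nat_lit 88062) (nat_lit 13) nil nil)) nil)
  nil) nil) nil))) (node (nat_lit 0) (nat_lit 0) (nat_lit 8) (node (nat_lit 5) (nat_lit 75548)
  (nat_lit 9) (node (nat_lit 4) (nat_lit 84135) (nat_lit 10) (node (nat_lit 6) (nat_lit 86572)
  (nat_lit 11) (node (nat_lit 4) (nat_lit 82547) (nat_lit 12) (node (nat_lit 5) (nat_lit 79910)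
  (nat_lit 13) (node (nat_lit 6) (nat_lit 77762) (nat_lit 14) (node (nat_lit 5) (nat_lit 69550)
  (nat_lit 15) (node (nat_lit 4) (nat_lit 57210) (nat_lit 16) (node (nat_lit 5) (nat_lit 39673)
  (nat_lit 17) nil nil) nil) nil) nil) nil) nil) (node (nat_lit 5) (nat_lit 85091) (nat_lit 11)
  nil nil)) (node (nat_lit 6) (nat_lit 81063) (nat_lit 10) (node (nat_lit 5) (nat_lit 82254)
  (nat_lit 11) (node (nat_lit 4) (nat_lit 80194) (nat_lit 12) nil nil) (node (nat_lit 4) (nat_lit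
  82019) (nat_lit 11) nil nil)) (node (nat_lit 11) (nat_lit 82019) (nat_lit 10) nil nil))) (node
  (nat_lit 4) (nat_lit 78625) (nat_lit 9) (node (nat_lit 6) (nat_lit 84139) (nat_lit 10) (node
  (nat_lit 5) (nat_lit 85330) (nat_lit 11) (node (nat_lit 6) (nat_lit 83584) (nat_lit 12) nil nil)
  (node (nat_lit 4) (nat_lit 86856) (nat_lit 11) nil nil)) (node (nat_lit 5) (nat_lit 84220)
  (nat_lit 10) (node (nat_lit 4) (nat_lit 81618) (nat_lit 11) nil nil) (node (nat_lit 11) (nat_lit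
  81884) (nat_lit 10) nil nil))) (node (nat_lit 6) (nat_lit 75548) (nat_lit 9) (node (nat_lit 5)
  (nat_lit 81063) (nat_lit 10) (node (nat_lit 6) (nat_lit 78186) (nat_lit 11) (node (nat_lit 4)
  (nat_lit 79515) (nat_lit 12) (node (nat_lit 5) (nat_lit 77038) (nat_lit 13) nil nil) nil) (node
  (nat_lit 4) (nat_lit 82517) (nat_lit 11) nil nil)) (node (nat_lit 4) (nat_lit 84135) (nat_lit
  10) (node (nat_lit 5) (nat_lit 85091) (nat_lit 11) nil nil) nil)) (node (nat_lit 0) (nat_lit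
  78546) (nat_lit 9) (node (nat_lit 6) (nat_lit 78297) (nat_lit 10) nil nil) nil)))) nil)) (node
  (nat_lit 0) (nat_lit 0) (nat_lit 7) (node (nat_lit 5) (nat_lit 75775) (nat_lit 8) (node (nat_lit
  4) (nat_lit 83546) (nat_lit 9) (node (nat_lit 6) (nat_lit 83790) (nat_lit 10) (node (nat_lit 4)
  (nat_lit 84706) (nat_lit 11) (node (nat_lit 5) (nat_lit 79309) (nat_lit 12) (node (nat_lit 6)
  (nat_lit 74520) (nat_lit 13) (node (nat_lit 5) (nat_lit 63685) (nat_lit 14) (node (nat_lit 4)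
  (nat_lit 51593) (nat_lit 15) nil nil) nil) nil) nil) (node (nat_lit 5) (nat_lit 81188) (nat_lit
  11) nil nil)) (node (nat_lit 5) (nat_lit 85849) (nat_lit 10) nil nil)) (node (nat_lit 6)
  (nat_lit 82133) (nat_lit 9) (node (nat_lit 4) (nat_lit 85639) (nat_lit 10) nil (node (nat_lit 5)
  (nat_lit 84436) (nat_lit 10) (node (nat_lit 4) (nat_lit 81834) (nat_lit 11) nil nil) nil)) nil))
  (node (nat_lit 4) (nat_lit 77207) (nat_lit 8) (node (nat_lit 6) (nat_lit 83461) (nat_lit 9)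
  (node (nat_lit 5) (nat_lit 84551) (nat_lit 10) (node (nat_lit 4) (nat_lit 81949) (nat_lit 11)
  (node (nat_lit 5) (nat_lit 82793) (nat_lit 12) (node (nat_lit 6) (nat_lit 83558) (nat_lit 13)
  nil nil) nil) nil) (node (nat_lit 4) (nat_lit 85764) (nat_lit 10) nil nil)) (node (nat_lit 5)
  (nat_lit 84203) (nat_lit 9) (node (nat_lit 6) (nat_lit 87350) (nat_lit 10) nil (node (nat_lit 4)
  (nat_lit 81951) (nat_lit 10) nil nil)) (node (nat_lit 10) (nat_lit 83996) (nat_lit 9) nil nil)))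
  (node (nat_lit 6) (nat_lit 75083) (nat_lit 8) (node (nat_lit 5) (nat_lit 82085) (nat_lit 9)
  (node (nat_lit 4) (nat_lit 84147) (nat_lit 10) nil (node (nat_lit 6) (nat_lit 83713) (nat_lit
  10) nil nil)) (node (nat_lit 4) (nat_lit 83216) (nat_lit 9) (node (nat_lit 5) (nat_lit 84305)
  (nat_lit 10) nil (node (nat_lit 6) (nat_lit 85519) (nat_lit 10) nil nil)) nil)) (node (nat_lit
  0) (nat_lit 77542) (nat_lit 8) nil nil)))) nil)) nil))

noncomputable def t446 : Tr :=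
  (node (nat_lit 5) (nat_lit 0) (nat_lit 5) (node (nat_lit 7) (nat_lit 0) (nat_lit 6) (node
  (nat_lit 4) (nat_lit 0) (nat_lit 7) (node (nat_lit 5) (nat_lit 0) (nat_lit 8) (node (nat_lit 0)
  (nat_lit 0) (nat_lit 9) (node (nat_lit 5) (nat_lit 0) (nat_lit 10) (node (nat_lit 4) (nat_lit
  83222) (nat_lit 11) (node (nat_lit 5) (nat_lit 87033) (nat_lit 12) nil (node (nat_lit 7)
  (nat_lit 87523) (nat_lit 12) (node (nat_lit 5) (nat_lit 87845) (nat_lit 13) nil (node (nat_lit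
  4) (nat_lit 88393) (nat_lit 13) nil nil)) (node (nat_lit 12) (nat_lit 88479) (nat_lit 12) (node
  (nat_lit 5) (nat_lit 88479) (nat_lit 13) nil nil) (node (nat_lit 0) (nat_lit 86522) (nat_lit 12)
  nil nil)))) (node (nat_lit 7) (nat_lit 84328) (nat_lit 11) (node (nat_lit 4) (nat_lit 88139)
  (nat_lit 12) (node (nat_lit 7) (nat_lit 89585) (nat_lit 13) nil nil) (node (nat_lit 5) (nat_lit
  88176) (nat_lit 12) nil (node (nat_lit 12) (nat_lit 87628) (nat_lit 12) nil (node (nat_lit 0)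
  (nat_lit 87628) (nat_lit 12) nil nil)))) (node (nat_lit 0) (nat_lit 85384) (nat_lit 11) nil
  nil))) (node (nat_lit 4) (nat_lit 78396) (nat_lit 10) (node (nat_lit 12) (nat_lit 84653)
  (nat_lit 11) (node (nat_lit 5) (nat_lit 86308) (nat_lit 12) (node (nat_lit 12) (nat_lit 88884)
  (nat_lit 13) nil nil) nil) (node (nat_lit 5) (nat_lit 83731) (nat_lit 11) (node (nat_lit 4)
  (nat_lit 84127) (nat_lit 12) nil nil) (node (nat_lit 7) (nat_lit 80772) (nat_lit 11) nil nil)))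
  (node (nat_lit 7) (nat_lit 79810) (nat_lit 10) (node (nat_lit 5) (nat_lit 85295) (nat_lit 11)
  (node (nat_lit 7) (nat_lit 84889) (nat_lit 12) nil nil) (node (nat_lit 12) (nat_lit 86546)
  (nat_lit 11) nil nil)) (node (nat_lit 0) (nat_lit 81731) (nat_lit 10) (node (nat_lit 5) (nat_lit
  81965) (nat_lit 11) nil (node (nat_lit 12) (nat_lit 83584) (nat_lit 11) nil nil)) nil)))) (node
  (nat_lit 4) (nat_lit 0) (nat_lit 9) (node (nat_lit 0) (nat_lit 0) (nat_lit 10) (node (nat_lit 5)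
  (nat_lit 61323) (nat_lit 11) (node (nat_lit 4) (nat_lit 64816) (nat_lit 12) (node (nat_lit 5)
  (nat_lit 68323) (nat_lit 13) (node (nat_lit 13) (nat_lit 71788) (nat_lit 14) (node (nat_lit 5)
  (nat_lit 71926) (nat_lit 15) nil (node (nat_lit 4) (nat_lit 71781) (nat_lit 15) nil nil)) (node
  (nat_lit 7) (nat_lit 72231) (nat_lit 14) (node (nat_lit 4) (nat_lit 73970) (nat_lit 15) nil nil)
  (node (nat_lit 0) (nat_lit 71526) (nat_lit 14) nil nil))) (node (nat_lit 7) (nat_lit 69635)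
  (nat_lit 13) (node (nat_lit 5) (nat_lit 71957) (nat_lit 14) (node (nat_lit 7) (nat_lit 70566)
  (nat_lit 15) nil nil) (node (nat_lit 4) (nat_lit 70481) (nat_lit 14) (node (nat_lit 5) (nat_lit
  70704) (nat_lit 15) nil nil) (node (nat_lit 13) (nat_lit 71645) (nat_lit 14) nil nil))) (node
  (nat_lit 0) (nat_lit 68917) (nat_lit 13) nil nil))) (node (nat_lit 13) (nat_lit 66579) (nat_lit
  12) (node (nat_lit 4) (nat_lit 66579) (nat_lit 13) nil nil) nil)) (node (nat_lit 4) (nat_lit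
  60089) (nat_lit 11) (node (nat_lit 5) (nat_lit 64349) (nat_lit 12) (node (nat_lit 13) (nat_lit
  68096) (nat_lit 13) (node (nat_lit 5) (nat_lit 68268) (nat_lit 14) (node (nat_lit 4) (nat_lit
  67602) (nat_lit 15) nil nil) nil) nil) nil) (node (nat_lit 7) (nat_lit 63880) (nat_lit 11) nil
  (node (nat_lit 0) (nat_lit 60069) (nat_lit 11) nil nil)))) nil) (node (nat_lit 7) (nat_lit 0)
  (nat_lit 9) (node (nat_lit 0) (nat_lit 81731) (nat_lit 10) (node (nat_lit 5) (nat_lit 84837)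
  (nat_lit 11) (node (nat_lit 7) (nat_lit 89269) (nat_lit 12) (node (nat_lit 4) (nat_lit 90715)
  (nat_lit 13) nil (node (nat_lit 5) (nat_lit 90715) (nat_lit 13) nil nil)) nil) nil) nil) nil)))
  (node (nat_lit 0) (nat_lit 0) (nat_lit 8) (node (nat_lit 5) (nat_lit 124778) (nat_lit 9) (node
  (nat_lit 4) (nat_lit 130772) (nat_lit 10) (node (nat_lit 5) (nat_lit 130853) (nat_lit 11) (node
  (nat_lit 7) (nat_lit 132208) (nat_lit 12) nil nil) (node (nat_lit 7) (nat_lit 131943) (nat_lit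
  11) (node (nat_lit 4) (nat_lit 126104) (nat_lit 12) (node (nat_lit 5) (nat_lit 123514) (nat_lit
  13) nil nil) nil) nil)) (node (nat_lit 7) (nat_lit 130260) (nat_lit 10) (node (nat_lit 5)
  (nat_lit 130827) (nat_lit 11) (node (nat_lit 4) (nat_lit 131425) (nat_lit 12) (node (nat_lit 7)
  (nat_lit 131717) (nat_lit 13) (node (nat_lit 4) (nat_lit 132208) (nat_lit 14) (node (nat_lit 5)
  (nat_lit 131085) (nat_lit 15) (node (nat_lit 4) (nat_lit 130145) (nat_lit 16) (node (nat_lit 7)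
  (nat_lit 125996) (nat_lit 17) nil nil) nil) nil) nil) nil) nil) nil) (node (nat_lit 11) (nat_lit
  131189) (nat_lit 10) nil nil))) (node (nat_lit 7) (nat_lit 128901) (nat_lit 9) (node (nat_lit 5)
  (nat_lit 131285) (nat_lit 10) (node (nat_lit 7) (nat_lit 131434) (nat_lit 11) (node (nat_lit 4)
  (nat_lit 131515) (nat_lit 12) (node (nat_lit 5) (nat_lit 129774) (nat_lit 13) (node (nat_lit 4)
  (nat_lit 127071) (nat_lit 14) (node (nat_lit 7) (nat_lit 118335) (nat_lit 15) (node (nat_lit 5)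
  (nat_lit 106097) (nat_lit 16) (node (nat_lit 7) (nat_lit 88316) (nat_lit 17) nil nil) nil) nil)
  nil) nil) nil) (node (nat_lit 4) (nat_lit 132208) (nat_lit 11) nil nil)) (node (nat_lit 4)
  (nat_lit 132208) (nat_lit 10) (node (nat_lit 7) (nat_lit 132208) (nat_lit 11) nil (node (nat_lit
  5) (nat_lit 132208) (nat_lit 11) nil nil)) (node (nat_lit 11) (nat_lit 132208) (nat_lit 10) nil
  nil))) (node (nat_lit 4) (nat_lit 124842) (nat_lit 9) (node (nat_lit 7) (nat_lit 130658)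
  (nat_lit 10) (node (nat_lit 4) (nat_lit 132208) (nat_lit 11) nil (node (nat_lit 5) (nat_lit
  128778) (nat_lit 11) nil nil)) (node (nat_lit 5) (nat_lit 131421) (nat_lit 10) (node (nat_lit 7)
  (nat_lit 132208) (nat_lit 11) nil nil) nil)) (node (nat_lit 0) (nat_lit 128624) (nat_lit 9)
  (node (nat_lit 4) (nat_lit 128376) (nat_lit 10) nil nil) nil)))) (node (nat_lit 7) (nat_lit 0)
  (nat_lit 8) (node (nat_lit 0) (nat_lit 0) (nat_lit 9) (node (nat_lit 7) (nat_lit 0) (nat_lit 10)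
  (node (nat_lit 5) (nat_lit 128273) (nat_lit 11) (node (nat_lit 4) (nat_lit 129854) (nat_lit 12)
  nil (node (nat_lit 7) (nat_lit 130997) (nat_lit 12) nil nil)) (node (nat_lit 4) (nat_lit 130545)
  (nat_lit 11) (node (nat_lit 5) (nat_lit 132208) (nat_lit 12) nil nil) (node (nat_lit 0) (nat_lit
  131286) (nat_lit 11) nil nil))) (node (nat_lit 4) (nat_lit 125188) (nat_lit 10) (node (nat_lit
  7) (nat_lit 128676) (nat_lit 11) nil (node (nat_lit 12) (nat_lit 130530) (nat_lit 11) nil nil))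
  (node (nat_lit 5) (nat_lit 126890) (nat_lit 10) (node (nat_lit 7) (nat_lit 129266) (nat_lit 11)
  nil nil) (node (nat_lit 0) (nat_lit 128413) (nat_lit 10) nil nil)))) (node (nat_lit 5) (nat_lit
  0) (nat_lit 9) (node (nat_lit 0) (nat_lit 129973) (nat_lit 10) (node (nat_lit 7) (nat_lit
  130772) (nat_lit 11) (node (nat_lit 5) (nat_lit 132069) (nat_lit 12) (node (nat_lit 7) (nat_lit
  132208) (nat_lit 13) (node (nat_lit 4) (nat_lit 132208) (nat_lit 14) (node (nat_lit 5) (nat_lit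
  132208) (nat_lit 15) nil nil) nil) (node (nat_lit 4) (nat_lit 132208) (nat_lit 13) nil nil))
  nil) (node (nat_lit 5) (nat_lit 129973) (nat_lit 11) nil nil)) nil) nil)) nil))) (node (nat_lit
  0) (nat_lit 0) (nat_lit 7) (node (nat_lit 7) (nat_lit 125205) (nat_lit 8) (node (nat_lit 5)
  (nat_lit 131280) (nat_lit 9) (node (nat_lit 4) (nat_lit 132208) (nat_lit 10) (node (nat_lit 5)
  (nat_lit 132208) (nat_lit 11) nil (node (nat_lit 7) (nat_lit 130736) (nat_lit 11) nil nil))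
  (node (nat_lit 7) (nat_lit 132208) (nat_lit 10) (node (nat_lit 4) (nat_lit 132090) (nat_lit 11)
  nil nil) nil)) (node (nat_lit 4) (nat_lit 129457) (nat_lit 9) (node (nat_lit 5) (nat_lit 129671)
  (nat_lit 10) nil (node (nat_lit 7) (nat_lit 132208) (nat_lit 10) nil nil)) nil)) (node (nat_lit
  5) (nat_lit 125136) (nat_lit 8) (node (nat_lit 7) (nat_lit 131211) (nat_lit 9) (node (nat_lit 4)
  (nat_lit 132208) (nat_lit 10) nil (node (nat_lit 5) (nat_lit 132208) (nat_lit 10) nil nil))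
  (node (nat_lit 4) (nat_lit 129826) (nat_lit 9) (node (nat_lit 7) (nat_lit 132208) (nat_lit 10)
  (node (nat_lit 4) (nat_lit 122340) (nat_lit 11) nil nil) (node (nat_lit 5) (nat_lit 127550)
  (nat_lit 10) nil nil)) (node (nat_lit 10) (nat_lit 131681) (nat_lit 9) nil nil))) (node (nat_lit
  4) (nat_lit 122933) (nat_lit 8) (node (nat_lit 5) (nat_lit 129030) (nat_lit 9) (node (nat_lit 7)
  (nat_lit 132017) (nat_lit 10) (node (nat_lit 4) (nat_lit 132208) (nat_lit 11) nil nil) (node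
  (nat_lit 4) (nat_lit 126754) (nat_lit 10) nil nil)) (node (nat_lit 7) (nat_lit 129008) (nat_lit
  9) (node (nat_lit 5) (nat_lit 129222) (nat_lit 10) nil (node (nat_lit 4) (nat_lit 131279)
  (nat_lit 10) nil nil)) (node (nat_lit 10) (nat_lit 129477) (nat_lit 9) nil nil))) (node (nat_lit
  0) (nat_lit 128210) (nat_lit 8) nil nil)))) nil)) (node (nat_lit 4) (nat_lit 0) (nat_lit 6)
  (node (nat_lit 5) (nat_lit 0) (nat_lit 7) (node (nat_lit 7) (nat_lit 0) (nat_lit 8) (node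
  (nat_lit 0) (nat_lit 0) (nat_lit 9) (node (nat_lit 7) (nat_lit 0) (nat_lit 10) (node (nat_lit 5)
  (nat_lit 131342) (nat_lit 11) (node (nat_lit 4) (nat_lit 132208) (nat_lit 12) (node (nat_lit 7)
  (nat_lit 132208) (nat_lit 13) nil (node (nat_lit 5) (nat_lit 131856) (nat_lit 13) nil nil))
  (node (nat_lit 7) (nat_lit 132208) (nat_lit 12) nil (node (nat_lit 12) (nat_lit 132208) (nat_lit
  12) nil (node (nat_lit 0) (nat_lit 132208) (nat_lit 12) nil nil)))) (node (nat_lit 4) (nat_lit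
  129911) (nat_lit 11) (node (nat_lit 5) (nat_lit 131765) (nat_lit 12) nil (node (nat_lit 7)
  (nat_lit 132208) (nat_lit 12) nil (node (nat_lit 0) (nat_lit 132208) (nat_lit 12) nil nil)))
  (node (nat_lit 0) (nat_lit 132208) (nat_lit 11) (node (nat_lit 12) (nat_lit 132208) (nat_lit 12)
  nil nil) nil))) (node (nat_lit 5) (nat_lit 126890) (nat_lit 10) (node (nat_lit 12) (nat_lit
  132208) (nat_lit 11) (node (nat_lit 7) (nat_lit 132208) (nat_lit 12) nil nil) (node (nat_lit 7)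
  (nat_lit 131176) (nat_lit 11) (node (nat_lit 5) (nat_lit 132208) (nat_lit 12) nil nil) nil))
  (node (nat_lit 4) (nat_lit 125188) (nat_lit 10) (node (nat_lit 12) (nat_lit 130530) (nat_lit 11)
  nil (node (nat_lit 7) (nat_lit 129473) (nat_lit 11) nil nil)) (node (nat_lit 0) (nat_lit 129433)
  (nat_lit 10) (node (nat_lit 7) (nat_lit 130545) (nat_lit 11) nil nil) nil)))) (node (nat_lit 5)
  (nat_lit 0) (nat_lit 9) (node (nat_lit 0) (nat_lit 129973) (nat_lit 10) (node (nat_lit 7)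
  (nat_lit 131881) (nat_lit 11) (node (nat_lit 5) (nat_lit 132208) (nat_lit 12) (node (nat_lit 7)
  (nat_lit 132208) (nat_lit 13) (node (nat_lit 13) (nat_lit 132208) (nat_lit 14) (node (nat_lit 5)
  (nat_lit 132208) (nat_lit 15) nil nil) (node (nat_lit 4) (nat_lit 132208) (nat_lit 14) (node
  (nat_lit 5) (nat_lit 132208) (nat_lit 15) nil nil) nil)) (node (nat_lit 4) (nat_lit 132208)
  (nat_lit 13) (node (nat_lit 7) (nat_lit 132208) (nat_lit 14) (node (nat_lit 4) (nat_lit 132208)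
  (nat_lit 15) nil nil) (node (nat_lit 5) (nat_lit 132208) (nat_lit 14) nil nil)) (node (nat_lit
  0) (nat_lit 132208) (nat_lit 13) nil nil))) (node (nat_lit 13) (nat_lit 132208) (nat_lit 12) nil
  nil)) (node (nat_lit 5) (nat_lit 131685) (nat_lit 11) (node (nat_lit 7) (nat_lit 132208)
  (nat_lit 12) (node (nat_lit 13) (nat_lit 132208) (nat_lit 13) (node (nat_lit 7) (nat_lit 132208)
  (nat_lit 14) nil nil) nil) nil) (node (nat_lit 4) (nat_lit 130451) (nat_lit 11) nil nil))) nil)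
  (node (nat_lit 4) (nat_lit 0) (nat_lit 9) (node (nat_lit 0) (nat_lit 129973) (nat_lit 10) (node
  (nat_lit 7) (nat_lit 131881) (nat_lit 11) (node (nat_lit 4) (nat_lit 132208) (nat_lit 12) (node
  (nat_lit 7) (nat_lit 132208) (nat_lit 13) nil (node (nat_lit 5) (nat_lit 132208) (nat_lit 13)
  nil nil)) nil) nil) nil) nil))) (node (nat_lit 0) (nat_lit 0) (nat_lit 8) (node (nat_lit 4)
  (nat_lit 0) (nat_lit 9) (node (nat_lit 5) (nat_lit 131092) (nat_lit 10) (node (nat_lit 7)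
  (nat_lit 132208) (nat_lit 11) (node (nat_lit 4) (nat_lit 132208) (nat_lit 12) (node (nat_lit 5)
  (nat_lit 132208) (nat_lit 13) (node (nat_lit 4) (nat_lit 131770) (nat_lit 14) (node (nat_lit 7)
  (nat_lit 125421) (nat_lit 15) (node (nat_lit 5) (nat_lit 111987) (nat_lit 16) nil nil) nil) nil)
  nil) nil) (node (nat_lit 4) (nat_lit 129472) (nat_lit 11) nil nil)) (node (nat_lit 7) (nat_lit
  131547) (nat_lit 10) (node (nat_lit 5) (nat_lit 131317) (nat_lit 11) nil (node (nat_lit 4)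
  (nat_lit 132208) (nat_lit 11) nil nil)) (node (nat_lit 11) (nat_lit 131602) (nat_lit 10) (node
  (nat_lit 5) (nat_lit 131602) (nat_lit 11) nil nil) (node (nat_lit 0) (nat_lit 130175) (nat_lit
  10) nil nil)))) (node (nat_lit 7) (nat_lit 128901) (nat_lit 9) (node (nat_lit 5) (nat_lit
  132208) (nat_lit 10) (node (nat_lit 7) (nat_lit 132208) (nat_lit 11) (node (nat_lit 4) (nat_lit
  132208) (nat_lit 12) (node (nat_lit 5) (nat_lit 132208) (nat_lit 13) (node (nat_lit 4) (nat_lit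
  131015) (nat_lit 14) (node (nat_lit 7) (nat_lit 108259) (nat_lit 15) nil nil) nil) nil) nil)
  (node (nat_lit 4) (nat_lit 132208) (nat_lit 11) nil nil)) (node (nat_lit 4) (nat_lit 132208)
  (nat_lit 10) (node (nat_lit 5) (nat_lit 132208) (nat_lit 11) nil (node (nat_lit 7) (nat_lit
  132208) (nat_lit 11) nil nil)) (node (nat_lit 11) (nat_lit 132208) (nat_lit 10) nil nil))) (node
  (nat_lit 5) (nat_lit 0) (nat_lit 9) (node (nat_lit 4) (nat_lit 129483) (nat_lit 10) (node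
  (nat_lit 7) (nat_lit 131426) (nat_lit 11) (node (nat_lit 4) (nat_lit 130266) (nat_lit 12) (node
  (nat_lit 5) (nat_lit 118573) (nat_lit 13) nil nil) nil) (node (nat_lit 5) (nat_lit 126749)
  (nat_lit 11) nil nil)) (node (nat_lit 7) (nat_lit 131679) (nat_lit 10) (node (nat_lit 4)
  (nat_lit 132208) (nat_lit 11) nil nil) (node (nat_lit 0) (nat_lit 129433) (nat_lit 10) nil
  nil))) (node (nat_lit 0) (nat_lit 130377) (nat_lit 9) (node (nat_lit 5) (nat_lit 128876)
  (nat_lit 10) nil (node (nat_lit 11) (nat_lit 131306) (nat_lit 10) nil nil)) nil)))) nil)) (node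
  (nat_lit 0) (nat_lit 0) (nat_lit 7) (node (nat_lit 4) (nat_lit 122933) (nat_lit 8) (node
  (nat_lit 5) (nat_lit 129030) (nat_lit 9) (node (nat_lit 7) (nat_lit 132017) (nat_lit 10) (node
  (nat_lit 4) (nat_lit 132208) (nat_lit 11) nil nil) (node (nat_lit 4) (nat_lit 127470) (nat_lit
  10) nil nil)) (node (nat_lit 7) (nat_lit 129008) (nat_lit 9) (node (nat_lit 5) (nat_lit 132208)
  (nat_lit 10) (node (nat_lit 7) (nat_lit 132208) (nat_lit 11) nil nil) (node (nat_lit 4) (nat_lit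
  131994) (nat_lit 10) nil nil)) nil)) (node (nat_lit 5) (nat_lit 125136) (nat_lit 8) (node
  (nat_lit 4) (nat_lit 129826) (nat_lit 9) (node (nat_lit 7) (nat_lit 132208) (nat_lit 10) (node
  (nat_lit 4) (nat_lit 126945) (nat_lit 11) nil nil) (node (nat_lit 5) (nat_lit 127550) (nat_lit
  10) nil nil)) (node (nat_lit 7) (nat_lit 131211) (nat_lit 9) (node (nat_lit 4) (nat_lit 132208)
  (nat_lit 10) nil (node (nat_lit 5) (nat_lit 132208) (nat_lit 10) nil nil)) (node (nat_lit 10)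
  (nat_lit 131681) (nat_lit 9) nil nil))) (node (nat_lit 7) (nat_lit 125205) (nat_lit 8) (node
  (nat_lit 5) (nat_lit 131280) (nat_lit 9) (node (nat_lit 4) (nat_lit 132208) (nat_lit 10) nil
  (node (nat_lit 7) (nat_lit 132208) (nat_lit 10) nil nil)) (node (nat_lit 4) (nat_lit 129457)
  (nat_lit 9) (node (nat_lit 5) (nat_lit 131729) (nat_lit 10) nil (node (nat_lit 7) (nat_lit
  131729) (nat_lit 10) nil nil)) (node (nat_lit 10) (nat_lit 131750) (nat_lit 9) nil nil))) (node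
  (nat_lit 0) (nat_lit 128210) (nat_lit 8) nil nil)))) nil)) nil)) (node (nat_lit 4) (nat_lit 0)
  (nat_lit 5) (node (nat_lit 5) (nat_lit 0) (nat_lit 6) (node (nat_lit 7) (nat_lit 0) (nat_lit 7)
  (node (nat_lit 0) (nat_lit 0) (nat_lit 8) (node (nat_lit 5) (nat_lit 0) (nat_lit 9) (node
  (nat_lit 7) (nat_lit 81981) (nat_lit 10) (node (nat_lit 4) (nat_lit 84304) (nat_lit 11) nil
  (node (nat_lit 5) (nat_lit 82910) (nat_lit 11) nil nil)) (node (nat_lit 4) (nat_lit 81650)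
  (nat_lit 10) (node (nat_lit 5) (nat_lit 80311) (nat_lit 11) (node (nat_lit 7) (nat_lit 81662)
  (nat_lit 12) nil nil) (node (nat_lit 7) (nat_lit 81288) (nat_lit 11) (node (nat_lit 4) (nat_lit
  83193) (nat_lit 12) (node (nat_lit 5) (nat_lit 84781) (nat_lit 13) nil nil) nil) nil)) (node
  (nat_lit 11) (nat_lit 82579) (nat_lit 10) (node (nat_lit 7) (nat_lit 81288) (nat_lit 11) (node
  (nat_lit 5) (nat_lit 82888) (nat_lit 12) (node (nat_lit 7) (nat_lit 84069) (nat_lit 13) (node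
  (nat_lit 4) (nat_lit 84183) (nat_lit 14) (node (nat_lit 5) (nat_lit 83838) (nat_lit 15) nil nil)
  nil) nil) nil) (node (nat_lit 4) (nat_lit 82579) (nat_lit 11) nil nil)) (node (nat_lit 0)
  (nat_lit 79028) (nat_lit 10) nil nil)))) (node (nat_lit 4) (nat_lit 75827) (nat_lit 9) (node
  (nat_lit 5) (nat_lit 81650) (nat_lit 10) (node (nat_lit 7) (nat_lit 82030) (nat_lit 11) (node
  (nat_lit 4) (nat_lit 76561) (nat_lit 12) (node (nat_lit 5) (nat_lit 76280) (nat_lit 13) (node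
  (nat_lit 4) (nat_lit 72190) (nat_lit 14) (node (nat_lit 7) (nat_lit 64290) (nat_lit 15) (node
  (nat_lit 4) (nat_lit 53224) (nat_lit 16) (node (nat_lit 5) (nat_lit 34082) (nat_lit 17) (node
  (nat_lit 7) (nat_lit 1335) (nat_lit 18) nil nil) nil) nil) nil) nil) nil) nil) (node (nat_lit 4)
  (nat_lit 78916) (nat_lit 11) nil nil)) (node (nat_lit 7) (nat_lit 81650) (nat_lit 10) (node
  (nat_lit 4) (nat_lit 83973) (nat_lit 11) (node (nat_lit 5) (nat_lit 84791) (nat_lit 12) nil nil)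
  (node (nat_lit 5) (nat_lit 80311) (nat_lit 11) (node (nat_lit 7) (nat_lit 81662) (nat_lit 12)
  nil nil) nil)) (node (nat_lit 11) (nat_lit 80977) (nat_lit 10) (node (nat_lit 7) (nat_lit 80977)
  (nat_lit 11) nil nil) nil))) (node (nat_lit 7) (nat_lit 0) (nat_lit 9) (node (nat_lit 4)
  (nat_lit 81905) (nat_lit 10) (node (nat_lit 5) (nat_lit 84228) (nat_lit 11) nil (node (nat_lit
  7) (nat_lit 82834) (nat_lit 11) nil nil)) (node (nat_lit 5) (nat_lit 81905) (nat_lit 10) (node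
  (nat_lit 7) (nat_lit 81971) (nat_lit 11) (node (nat_lit 4) (nat_lit 78637) (nat_lit 12) (node
  (nat_lit 5) (nat_lit 78357) (nat_lit 13) (node (nat_lit 4) (nat_lit 74266) (nat_lit 14) nil nil)
  nil) nil) (node (nat_lit 4) (nat_lit 81544) (nat_lit 11) (node (nat_lit 5) (nat_lit 79372)
  (nat_lit 12) nil nil) nil)) (node (nat_lit 0) (nat_lit 79283) (nat_lit 10) nil nil))) (node
  (nat_lit 0) (nat_lit 78099) (nat_lit 9) (node (nat_lit 11) (nat_lit 80812) (nat_lit 10) nil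
  (node (nat_lit 7) (nat_lit 79823) (nat_lit 10) nil nil)) nil)))) (node (nat_lit 5) (nat_lit 0)
  (nat_lit 8) (node (nat_lit 0) (nat_lit 0) (nat_lit 9) (node (nat_lit 5) (nat_lit 0) (nat_lit 10)
  (node (nat_lit 4) (nat_lit 80843) (nat_lit 11) (node (nat_lit 7) (nat_lit 81727) (nat_lit 12)
  (node (nat_lit 4) (nat_lit 84021) (nat_lit 13) nil nil) (node (nat_lit 5) (nat_lit 82046)
  (nat_lit 12) (node (nat_lit 7) (nat_lit 80095) (nat_lit 13) nil nil) nil)) (node (nat_lit 7)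
  (nat_lit 81034) (nat_lit 11) (node (nat_lit 4) (nat_lit 83975) (nat_lit 12) nil (node (nat_lit
  12) (nat_lit 84334) (nat_lit 12) nil nil)) (node (nat_lit 0) (nat_lit 81506) (nat_lit 11) nil
  nil))) (node (nat_lit 7) (nat_lit 75620) (nat_lit 10) (node (nat_lit 5) (nat_lit 79269) (nat_lit
  11) (node (nat_lit 7) (nat_lit 82252) (nat_lit 12) nil nil) (node (nat_lit 12) (nat_lit 81243)
  (nat_lit 11) (node (nat_lit 5) (nat_lit 81243) (nat_lit 12) nil nil) nil)) (node (nat_lit 4)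
  (nat_lit 75882) (nat_lit 10) (node (nat_lit 5) (nat_lit 73999) (nat_lit 11) nil (node (nat_lit
  12) (nat_lit 80112) (nat_lit 11) nil nil)) (node (nat_lit 0) (nat_lit 76491) (nat_lit 10) (node
  (nat_lit 5) (nat_lit 76491) (nat_lit 11) nil nil) nil)))) (node (nat_lit 4) (nat_lit 0) (nat_lit
  9) (node (nat_lit 0) (nat_lit 78258) (nat_lit 10) (node (nat_lit 5) (nat_lit 81034) (nat_lit 11)
  (node (nat_lit 4) (nat_lit 85050) (nat_lit 12) (node (nat_lit 5) (nat_lit 85777) (nat_lit 13)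
  (node (nat_lit 7) (nat_lit 83979) (nat_lit 14) nil (node (nat_lit 13) (nat_lit 87787) (nat_lit
  14) nil nil)) (node (nat_lit 7) (nat_lit 85778) (nat_lit 13) (node (nat_lit 4) (nat_lit 87571)
  (nat_lit 14) nil (node (nat_lit 5) (nat_lit 84879) (nat_lit 14) nil nil)) (node (nat_lit 0)
  (nat_lit 87626) (nat_lit 13) nil nil))) nil) (node (nat_lit 4) (nat_lit 81034) (nat_lit 11) nil
  nil)) nil) nil)) (node (nat_lit 4) (nat_lit 0) (nat_lit 8) (node (nat_lit 0) (nat_lit 0)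
  (nat_lit 9) (node (nat_lit 4) (nat_lit 0) (nat_lit 10) (node (nat_lit 5) (nat_lit 80798)
  (nat_lit 11) (node (nat_lit 7) (nat_lit 79521) (nat_lit 12) nil (node (nat_lit 4) (nat_lit
  83738) (nat_lit 12) nil nil)) (node (nat_lit 7) (nat_lit 80798) (nat_lit 11) (node (nat_lit 5)
  (nat_lit 80323) (nat_lit 12) nil (node (nat_lit 4) (nat_lit 82651) (nat_lit 12) nil nil)) (node
  (nat_lit 0) (nat_lit 79875) (nat_lit 11) nil nil))) (node (nat_lit 7) (nat_lit 75665) (nat_lit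
  10) (node (nat_lit 4) (nat_lit 78041) (nat_lit 11) nil (node (nat_lit 12) (nat_lit 79895)
  (nat_lit 11) nil nil)) (node (nat_lit 5) (nat_lit 75238) (nat_lit 10) (node (nat_lit 4) (nat_lit
  80388) (nat_lit 11) (node (nat_lit 5) (nat_lit 78827) (nat_lit 12) nil nil) (node (nat_lit 12)
  (nat_lit 79467) (nat_lit 11) nil nil)) (node (nat_lit 0) (nat_lit 75016) (nat_lit 10) (node
  (nat_lit 4) (nat_lit 73726) (nat_lit 11) nil (node (nat_lit 12) (nat_lit 76870) (nat_lit 11) nil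
  nil)) nil)))) (node (nat_lit 7) (nat_lit 0) (nat_lit 9) (node (nat_lit 0) (nat_lit 78513)
  (nat_lit 10) (node (nat_lit 4) (nat_lit 81288) (nat_lit 11) (node (nat_lit 7) (nat_lit 82172)
  (nat_lit 12) (node (nat_lit 4) (nat_lit 83618) (nat_lit 13) nil (node (nat_lit 5) (nat_lit
  80968) (nat_lit 13) nil nil)) nil) (node (nat_lit 7) (nat_lit 81364) (nat_lit 11) (node (nat_lit
  4) (nat_lit 84305) (nat_lit 12) nil nil) (node (nat_lit 5) (nat_lit 81288) (nat_lit 11) nil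
  nil))) nil) nil)) nil))) (node (nat_lit 0) (nat_lit 0) (nat_lit 7) (node (nat_lit 5) (nat_lit
  70293) (nat_lit 8) (node (nat_lit 4) (nat_lit 77788) (nat_lit 9) (node (nat_lit 7) (nat_lit
  77999) (nat_lit 10) (node (nat_lit 4) (nat_lit 79693) (nat_lit 11) (node (nat_lit 5) (nat_lit
  81131) (nat_lit 12) nil nil) nil) (node (nat_lit 5) (nat_lit 76356) (nat_lit 10) nil nil)) (node
  (nat_lit 7) (nat_lit 79362) (nat_lit 9) (node (nat_lit 4) (nat_lit 82476) (nat_lit 10) nil nil)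
  nil)) (node (nat_lit 7) (nat_lit 69953) (nat_lit 8) (node (nat_lit 4) (nat_lit 77446) (nat_lit
  9) (node (nat_lit 5) (nat_lit 79717) (nat_lit 10) nil nil) (node (nat_lit 5) (nat_lit 77410)
  (nat_lit 9) (node (nat_lit 7) (nat_lit 79530) (nat_lit 10) nil (node (nat_lit 4) (nat_lit 75134)
  (nat_lit 10) nil nil)) (node (nat_lit 10) (nat_lit 76497) (nat_lit 9) nil nil))) (node (nat_lit
  4) (nat_lit 69827) (nat_lit 8) (node (nat_lit 5) (nat_lit 77648) (nat_lit 9) (node (nat_lit 7)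
  (nat_lit 79530) (nat_lit 10) (node (nat_lit 4) (nat_lit 74683) (nat_lit 11) nil nil) nil) (node
  (nat_lit 7) (nat_lit 78896) (nat_lit 9) nil (node (nat_lit 10) (nat_lit 76371) (nat_lit 9) nil
  nil))) (node (nat_lit 0) (nat_lit 71661) (nat_lit 8) nil nil)))) nil)) nil) nil))

noncomputable def c64 : Tr :=
  (node (nat_lit 3) (nat_lit 0) (nat_lit 1) (node (nat_lit 3) (nat_lit 0) (nat_lit 2) (node
  (nat_lit 3) (nat_lit 0) (nat_lit 3) (node (nat_lit 4) (nat_lit 0) (nat_lit 4) t444 (node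
  (nat_lit 5) (nat_lit 0) (nat_lit 4) (node (nat_lit 4) (nat_lit 0) (nat_lit 5) t445 nil) nil))
  (node (nat_lit 4) (nat_lit 0) (nat_lit 3) (node (nat_lit 3) (nat_lit 0) (nat_lit 4) t446 nil)
  nil)) nil) nil)

noncomputable def t447 : Tr :=
  (node (nat_lit 6) (nat_lit 0) (nat_lit 5) (node (nat_lit 5) (nat_lit 0) (nat_lit 6) (node
  (nat_lit 4) (nat_lit 0) (nat_lit 7) (node (nat_lit 5) (nat_lit 0) (nat_lit 8) (node (nat_lit 6)
  (nat_lit 0) (nat_lit 9) (node (nat_lit 0) (nat_lit 0) (nat_lit 10) (node (nat_lit 6) (nat_lit 0)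
  (nat_lit 11) (node (nat_lit 5) (nat_lit 54264) (nat_lit 12) (node (nat_lit 4) (nat_lit 55473)
  (nat_lit 13) (node (nat_lit 5) (nat_lit 58068) (nat_lit 14) nil (node (nat_lit 6) (nat_lit
  56631) (nat_lit 14) nil nil)) (node (nat_lit 6) (nat_lit 56790) (nat_lit 13) nil (node (nat_lit
  13) (nat_lit 57401) (nat_lit 13) (node (nat_lit 6) (nat_lit 59370) (nat_lit 14) nil nil) nil)))
  (node (nat_lit 4) (nat_lit 53826) (nat_lit 12) (node (nat_lit 6) (nat_lit 56263) (nat_lit 13)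
  nil (node (nat_lit 5) (nat_lit 56352) (nat_lit 13) nil (node (nat_lit 13) (nat_lit 56352)
  (nat_lit 13) nil (node (nat_lit 0) (nat_lit 56352) (nat_lit 13) nil nil)))) (node (nat_lit 0)
  (nat_lit 52268) (nat_lit 12) nil nil))) (node (nat_lit 5) (nat_lit 49847) (nat_lit 11) (node
  (nat_lit 13) (nat_lit 53082) (nat_lit 12) (node (nat_lit 6) (nat_lit 53362) (nat_lit 13) (node
  (nat_lit 13) (nat_lit 55331) (nat_lit 14) nil nil) nil) (node (nat_lit 6) (nat_lit 54109)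
  (nat_lit 12) (node (nat_lit 5) (nat_lit 57436) (nat_lit 13) nil nil) nil)) (node (nat_lit 4)
  (nat_lit 49467) (nat_lit 11) (node (nat_lit 13) (nat_lit 52702) (nat_lit 12) nil (node (nat_lit
  6) (nat_lit 53770) (nat_lit 12) nil nil)) (node (nat_lit 0) (nat_lit 48200) (nat_lit 11) (node
  (nat_lit 6) (nat_lit 48504) (nat_lit 12) nil nil) nil)))) (node (nat_lit 5) (nat_lit 0) (nat_lit
  10) (node (nat_lit 0) (nat_lit 49867) (nat_lit 11) (node (nat_lit 6) (nat_lit 54130) (nat_lit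
  12) (node (nat_lit 5) (nat_lit 57930) (nat_lit 13) (node (nat_lit 6) (nat_lit 60525) (nat_lit
  14) (node (nat_lit 4) (nat_lit 62064) (nat_lit 15) nil (node (nat_lit 14) (nat_lit 62707)
  (nat_lit 15) (node (nat_lit 5) (nat_lit 63905) (nat_lit 16) nil (node (nat_lit 6) (nat_lit
  62885) (nat_lit 16) nil nil)) nil)) (node (nat_lit 4) (nat_lit 61096) (nat_lit 14) (node
  (nat_lit 5) (nat_lit 63124) (nat_lit 15) (node (nat_lit 6) (nat_lit 57531) (nat_lit 16) nil nil)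
  (node (nat_lit 6) (nat_lit 62636) (nat_lit 15) (node (nat_lit 4) (nat_lit 60415) (nat_lit 16)
  nil nil) nil)) (node (nat_lit 0) (nat_lit 59899) (nat_lit 14) nil nil))) (node (nat_lit 14)
  (nat_lit 57457) (nat_lit 13) nil nil)) (node (nat_lit 5) (nat_lit 54482) (nat_lit 12) (node
  (nat_lit 6) (nat_lit 57809) (nat_lit 13) (node (nat_lit 14) (nat_lit 59321) (nat_lit 14) nil
  nil) nil) (node (nat_lit 4) (nat_lit 54621) (nat_lit 12) nil nil))) nil) (node (nat_lit 4)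
  (nat_lit 0) (nat_lit 10) (node (nat_lit 0) (nat_lit 26228) (nat_lit 11) (node (nat_lit 6)
  (nat_lit 28070) (nat_lit 12) (node (nat_lit 4) (nat_lit 29483) (nat_lit 13) (node (nat_lit 6)
  (nat_lit 30578) (nat_lit 14) nil nil) nil) nil) nil) nil))) (node (nat_lit 0) (nat_lit 0)
  (nat_lit 9) (node (nat_lit 4) (nat_lit 0) (nat_lit 10) (node (nat_lit 5) (nat_lit 97726)
  (nat_lit 11) (node (nat_lit 4) (nat_lit 100961) (nat_lit 12) (node (nat_lit 6) (nat_lit 101241)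
  (nat_lit 13) nil nil) (node (nat_lit 6) (nat_lit 98325) (nat_lit 12) nil nil)) (node (nat_lit 6)
  (nat_lit 95966) (nat_lit 11) (node (nat_lit 4) (nat_lit 99136) (nat_lit 12) (node (nat_lit 5)
  (nat_lit 91788) (nat_lit 13) (node (nat_lit 6) (nat_lit 86712) (nat_lit 14) nil nil) nil) (node
  (nat_lit 5) (nat_lit 97674) (nat_lit 12) nil nil)) (node (nat_lit 12) (nat_lit 95921) (nat_lit
  11) nil (node (nat_lit 0) (nat_lit 93655) (nat_lit 11) nil nil)))) (node (nat_lit 6) (nat_lit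
  89304) (nat_lit 10) (node (nat_lit 5) (nat_lit 97193) (nat_lit 11) (node (nat_lit 4) (nat_lit
  101009) (nat_lit 12) (node (nat_lit 5) (nat_lit 93661) (nat_lit 13) (node (nat_lit 6) (nat_lit
  88585) (nat_lit 14) nil nil) nil) (node (nat_lit 6) (nat_lit 100428) (nat_lit 12) (node (nat_lit
  4) (nat_lit 102954) (nat_lit 13) nil nil) nil)) (node (nat_lit 4) (nat_lit 93415) (nat_lit 11)
  (node (nat_lit 5) (nat_lit 96650) (nat_lit 12) nil (node (nat_lit 6) (nat_lit 96030) (nat_lit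
  12) nil nil)) (node (nat_lit 12) (nat_lit 94572) (nat_lit 11) nil nil))) (node (nat_lit 5)
  (nat_lit 0) (nat_lit 10) (node (nat_lit 6) (nat_lit 93682) (nat_lit 11) (node (nat_lit 5)
  (nat_lit 92327) (nat_lit 12) nil nil) (node (nat_lit 4) (nat_lit 96010) (nat_lit 11) (node
  (nat_lit 6) (nat_lit 93538) (nat_lit 12) nil (node (nat_lit 5) (nat_lit 99245) (nat_lit 12) nil
  nil)) (node (nat_lit 0) (nat_lit 93681) (nat_lit 11) nil nil))) (node (nat_lit 0) (nat_lit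
  89694) (nat_lit 10) (node (nat_lit 5) (nat_lit 94940) (nat_lit 11) nil (node (nat_lit 12)
  (nat_lit 93838) (nat_lit 11) nil nil)) nil)))) nil)) (node (nat_lit 6) (nat_lit 0) (nat_lit 8)
  (node (nat_lit 0) (nat_lit 0) (nat_lit 9) (node (nat_lit 6) (nat_lit 0) (nat_lit 10) (node
  (nat_lit 5) (nat_lit 106176) (nat_lit 11) (node (nat_lit 4) (nat_lit 111212) (nat_lit 12) (node
  (nat_lit 5) (nat_lit 103864) (nat_lit 13) (node (nat_lit 6) (nat_lit 98788) (nat_lit 14) (node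
  (nat_lit 4) (nat_lit 94760) (nat_lit 15) (node (nat_lit 6) (nat_lit 84680) (nat_lit 16) (node
  (nat_lit 5) (nat_lit 72495) (nat_lit 17) (node (nat_lit 4) (nat_lit 45915) (nat_lit 18) (node
  (nat_lit 6) (nat_lit 32252) (nat_lit 19) nil nil) nil) nil) nil) nil) nil) nil) nil) (node
  (nat_lit 4) (nat_lit 104451) (nat_lit 11) (node (nat_lit 6) (nat_lit 104755) (nat_lit 12) nil
  nil) (node (nat_lit 0) (nat_lit 101839) (nat_lit 11) nil nil))) (node (nat_lit 5) (nat_lit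
  99592) (nat_lit 10) (node (nat_lit 6) (nat_lit 106351) (nat_lit 11) (node (nat_lit 4) (nat_lit
  108767) (nat_lit 12) nil (node (nat_lit 5) (nat_lit 110614) (nat_lit 12) (node (nat_lit 4)
  (nat_lit 104618) (nat_lit 13) nil nil) nil)) (node (nat_lit 4) (nat_lit 104831) (nat_lit 11)
  (node (nat_lit 6) (nat_lit 106429) (nat_lit 12) nil (node (nat_lit 5) (nat_lit 108066) (nat_lit
  12) nil nil)) (node (nat_lit 12) (nat_lit 102642) (nat_lit 11) (node (nat_lit 6) (nat_lit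
  102945) (nat_lit 12) nil nil) nil))) (node (nat_lit 4) (nat_lit 0) (nat_lit 10) (node (nat_lit
  6) (nat_lit 104108) (nat_lit 11) (node (nat_lit 4) (nat_lit 107343) (nat_lit 12) (node (nat_lit
  5) (nat_lit 99995) (nat_lit 13) (node (nat_lit 6) (nat_lit 94919) (nat_lit 14) nil nil) nil)
  (node (nat_lit 5) (nat_lit 105266) (nat_lit 12) nil nil)) (node (nat_lit 12) (nat_lit 103806)
  (nat_lit 11) (node (nat_lit 6) (nat_lit 104109) (nat_lit 12) nil nil) (node (nat_lit 5) (nat_lit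
  105833) (nat_lit 11) nil (node (nat_lit 0) (nat_lit 101496) (nat_lit 11) nil nil)))) (node
  (nat_lit 0) (nat_lit 99106) (nat_lit 10) (node (nat_lit 6) (nat_lit 104414) (nat_lit 11) nil
  (node (nat_lit 12) (nat_lit 103251) (nat_lit 11) nil nil)) nil)))) (node (nat_lit 4) (nat_lit 0)
  (nat_lit 9) (node (nat_lit 0) (nat_lit 0) (nat_lit 10) (node (nat_lit 4) (nat_lit 0) (nat_lit
  11) (node (nat_lit 5) (nat_lit 108909) (nat_lit 12) (node (nat_lit 4) (nat_lit 108780) (nat_lit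
  13) nil nil) (node (nat_lit 6) (nat_lit 108587) (nat_lit 12) (node (nat_lit 5) (nat_lit 106647)
  (nat_lit 13) nil nil) (node (nat_lit 0) (nat_lit 107880) (nat_lit 12) nil nil))) (node (nat_lit
  6) (nat_lit 104645) (nat_lit 11) (node (nat_lit 4) (nat_lit 107880) (nat_lit 12) (node (nat_lit
  6) (nat_lit 108160) (nat_lit 13) nil nil) (node (nat_lit 13) (nat_lit 107880) (nat_lit 12) nil
  nil)) (node (nat_lit 5) (nat_lit 106047) (nat_lit 11) nil (node (nat_lit 0) (nat_lit 103348)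
  (nat_lit 11) nil nil)))) (node (nat_lit 5) (nat_lit 0) (nat_lit 10) (node (nat_lit 0) (nat_lit
  106309) (nat_lit 11) (node (nat_lit 4) (nat_lit 111467) (nat_lit 12) (node (nat_lit 5) (nat_lit
  114794) (nat_lit 13) nil nil) (node (nat_lit 5) (nat_lit 111623) (nat_lit 12) nil nil)) nil)
  nil)) nil)) (node (nat_lit 0) (nat_lit 0) (nat_lit 8) (node (nat_lit 6) (nat_lit 100651)
  (nat_lit 9) (node (nat_lit 5) (nat_lit 108260) (nat_lit 10) (node (nat_lit 4) (nat_lit 108341)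
  (nat_lit 11) (node (nat_lit 5) (nat_lit 96297) (nat_lit 12) (node (nat_lit 6) (nat_lit 86500)
  (nat_lit 13) (node (nat_lit 4) (nat_lit 77890) (nat_lit 14) (node (nat_lit 6) (nat_lit 44937)
  (nat_lit 15) (node (nat_lit 5) (nat_lit 32806) (nat_lit 16) nil nil) nil) nil) nil) nil) (node
  (nat_lit 6) (nat_lit 110272) (nat_lit 11) nil nil)) (node (nat_lit 4) (nat_lit 106282) (nat_lit
  10) (node (nat_lit 6) (nat_lit 104716) (nat_lit 11) nil (node (nat_lit 5) (nat_lit 108294)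
  (nat_lit 11) nil nil)) (node (nat_lit 11) (nat_lit 102933) (nat_lit 10) nil nil))) (node
  (nat_lit 5) (nat_lit 102807) (nat_lit 9) (node (nat_lit 4) (nat_lit 108195) (nat_lit 10) (node
  (nat_lit 6) (nat_lit 111032) (nat_lit 11) nil (node (nat_lit 5) (nat_lit 110207) (nat_lit 11)
  nil nil)) (node (nat_lit 6) (nat_lit 108417) (nat_lit 10) (node (nat_lit 4) (nat_lit 109333)
  (nat_lit 11) nil (node (nat_lit 5) (nat_lit 104552) (nat_lit 11) nil nil)) (node (nat_lit 11)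
  (nat_lit 105089) (nat_lit 10) nil nil))) (node (nat_lit 4) (nat_lit 100096) (nat_lit 9) (node
  (nat_lit 6) (nat_lit 105459) (nat_lit 10) (node (nat_lit 4) (nat_lit 106917) (nat_lit 11) (node
  (nat_lit 5) (nat_lit 106688) (nat_lit 12) nil nil) (node (nat_lit 5) (nat_lit 109780) (nat_lit
  11) nil nil)) (node (nat_lit 5) (nat_lit 107067) (nat_lit 10) (node (nat_lit 6) (nat_lit 109079)
  (nat_lit 11) nil (node (nat_lit 4) (nat_lit 105332) (nat_lit 11) nil nil)) nil)) (node (nat_lit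
  0) (nat_lit 97968) (nat_lit 9) nil nil)))) nil))) (node (nat_lit 6) (nat_lit 0) (nat_lit 7)
  (node (nat_lit 4) (nat_lit 0) (nat_lit 8) (node (nat_lit 5) (nat_lit 0) (nat_lit 9) (node
  (nat_lit 0) (nat_lit 0) (nat_lit 10) (node (nat_lit 5) (nat_lit 0) (nat_lit 11) (node (nat_lit
  4) (nat_lit 118477) (nat_lit 12) (node (nat_lit 6) (nat_lit 119879) (nat_lit 13) (node (nat_lit
  4) (nat_lit 116248) (nat_lit 14) nil (node (nat_lit 5) (nat_lit 120974) (nat_lit 14) nil nil))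
  (node (nat_lit 5) (nat_lit 119879) (nat_lit 13) nil (node (nat_lit 13) (nat_lit 119879) (nat_lit
  13) nil nil))) (node (nat_lit 6) (nat_lit 117824) (nat_lit 12) (node (nat_lit 5) (nat_lit
  118815) (nat_lit 13) nil (node (nat_lit 4) (nat_lit 119879) (nat_lit 13) nil nil)) (node
  (nat_lit 0) (nat_lit 118477) (nat_lit 12) nil nil))) (node (nat_lit 4) (nat_lit 114918) (nat_lit
  11) (node (nat_lit 5) (nat_lit 117837) (nat_lit 12) nil (node (nat_lit 13) (nat_lit 117837)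
  (nat_lit 12) (node (nat_lit 5) (nat_lit 119239) (nat_lit 13) nil nil) nil)) (node (nat_lit 6)
  (nat_lit 116038) (nat_lit 11) (node (nat_lit 5) (nat_lit 117837) (nat_lit 12) nil (node (nat_lit
  13) (nat_lit 117837) (nat_lit 12) nil nil)) (node (nat_lit 0) (nat_lit 115564) (nat_lit 11)
  (node (nat_lit 5) (nat_lit 117837) (nat_lit 12) nil nil) nil)))) (node (nat_lit 4) (nat_lit 0)
  (nat_lit 10) (node (nat_lit 0) (nat_lit 116136) (nat_lit 11) (node (nat_lit 5) (nat_lit 118632)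
  (nat_lit 12) (node (nat_lit 4) (nat_lit 120034) (nat_lit 13) (node (nat_lit 6) (nat_lit 121129)
  (nat_lit 14) (node (nat_lit 5) (nat_lit 121985) (nat_lit 15) nil (node (nat_lit 4) (nat_lit
  117578) (nat_lit 15) nil nil)) (node (nat_lit 5) (nat_lit 121129) (nat_lit 14) (node (nat_lit
  14) (nat_lit 121985) (nat_lit 15) nil nil) nil)) (node (nat_lit 14) (nat_lit 120034) (nat_lit
  13) nil nil)) (node (nat_lit 4) (nat_lit 117935) (nat_lit 12) (node (nat_lit 5) (nat_lit 119338)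
  (nat_lit 13) (node (nat_lit 14) (nat_lit 120433) (nat_lit 14) nil nil) nil) (node (nat_lit 6)
  (nat_lit 117935) (nat_lit 12) nil nil))) nil) (node (nat_lit 6) (nat_lit 0) (nat_lit 10) (node
  (nat_lit 0) (nat_lit 116079) (nat_lit 11) (node (nat_lit 5) (nat_lit 118632) (nat_lit 12) (node
  (nat_lit 6) (nat_lit 120034) (nat_lit 13) nil nil) nil) nil) nil))) (node (nat_lit 0) (nat_lit
  0) (nat_lit 9) (node (nat_lit 6) (nat_lit 107191) (nat_lit 10) (node (nat_lit 5) (nat_lit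
  115300) (nat_lit 11) (node (nat_lit 4) (nat_lit 117211) (nat_lit 12) (node (nat_lit 5) (nat_lit
  110928) (nat_lit 13) (node (nat_lit 6) (nat_lit 106538) (nat_lit 14) (node (nat_lit 4) (nat_lit
  102966) (nat_lit 15) (node (nat_lit 6) (nat_lit 91744) (nat_lit 16) (node (nat_lit 5) (nat_lit
  75363) (nat_lit 17) (node (nat_lit 6) (nat_lit 52388) (nat_lit 18) nil nil) nil) nil) nil) nil)
  nil) nil) (node (nat_lit 4) (nat_lit 111335) (nat_lit 11) (node (nat_lit 6) (nat_lit 111638)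
  (nat_lit 12) nil nil) (node (nat_lit 12) (nat_lit 111335) (nat_lit 11) nil nil))) (node (nat_lit
  5) (nat_lit 111161) (nat_lit 10) (node (nat_lit 4) (nat_lit 115305) (nat_lit 11) (node (nat_lit
  6) (nat_lit 115608) (nat_lit 12) (node (nat_lit 4) (nat_lit 112266) (nat_lit 13) nil nil) (node
  (nat_lit 5) (nat_lit 117577) (nat_lit 12) nil nil)) (node (nat_lit 6) (nat_lit 115409) (nat_lit
  11) nil nil)) (node (nat_lit 4) (nat_lit 107191) (nat_lit 10) (node (nat_lit 6) (nat_lit 111335)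
  (nat_lit 11) (node (nat_lit 4) (nat_lit 106389) (nat_lit 12) (node (nat_lit 5) (nat_lit 107015)
  (nat_lit 13) (node (nat_lit 6) (nat_lit 102832) (nat_lit 14) nil nil) nil) (node (nat_lit 5)
  (nat_lit 111978) (nat_lit 12) nil nil)) (node (nat_lit 5) (nat_lit 115300) (nat_lit 11) nil
  nil)) (node (nat_lit 0) (nat_lit 108088) (nat_lit 10) (node (nat_lit 4) (nat_lit 107766)
  (nat_lit 11) nil nil) nil)))) nil)) (node (nat_lit 0) (nat_lit 0) (nat_lit 8) (node (nat_lit 6)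
  (nat_lit 113272) (nat_lit 9) (node (nat_lit 5) (nat_lit 117512) (nat_lit 10) (node (nat_lit 4)
  (nat_lit 114854) (nat_lit 11) (node (nat_lit 5) (nat_lit 114802) (nat_lit 12) (node (nat_lit 6)
  (nat_lit 106749) (nat_lit 13) (node (nat_lit 4) (nat_lit 99582) (nat_lit 14) (node (nat_lit 6)
  (nat_lit 84800) (nat_lit 15) (node (nat_lit 5) (nat_lit 68572) (nat_lit 16) nil nil) nil) nil)
  nil) nil) nil) (node (nat_lit 4) (nat_lit 115688) (nat_lit 10) (node (nat_lit 5) (nat_lit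
  117240) (nat_lit 11) nil nil) nil)) (node (nat_lit 5) (nat_lit 115120) (nat_lit 9) (node
  (nat_lit 4) (nat_lit 117402) (nat_lit 10) (node (nat_lit 6) (nat_lit 115836) (nat_lit 11) nil
  nil) (node (nat_lit 6) (nat_lit 118359) (nat_lit 10) (node (nat_lit 4) (nat_lit 119448) (nat_lit
  11) nil nil) nil)) (node (nat_lit 4) (nat_lit 112379) (nat_lit 9) (node (nat_lit 6) (nat_lit
  115626) (nat_lit 10) (node (nat_lit 4) (nat_lit 114755) (nat_lit 11) nil (node (nat_lit 5)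
  (nat_lit 115315) (nat_lit 11) nil nil)) (node (nat_lit 5) (nat_lit 117086) (nat_lit 10) (node
  (nat_lit 6) (nat_lit 115519) (nat_lit 11) nil nil) nil)) (node (nat_lit 0) (nat_lit 109764)
  (nat_lit 9) nil nil)))) nil)) nil)) nil) (node (nat_lit 5) (nat_lit 0) (nat_lit 5) (node
  (nat_lit 4) (nat_lit 0) (nat_lit 6) (node (nat_lit 6) (nat_lit 0) (nat_lit 7) (node (nat_lit 5)
  (nat_lit 0) (nat_lit 8) (node (nat_lit 0) (nat_lit 0) (nat_lit 9) (node (nat_lit 6) (nat_lit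
  55804) (nat_lit 10) (node (nat_lit 5) (nat_lit 57646) (nat_lit 11) (node (nat_lit 4) (nat_lit
  60828) (nat_lit 12) (node (nat_lit 5) (nat_lit 53314) (nat_lit 13) (node (nat_lit 6) (nat_lit
  47942) (nat_lit 14) (node (nat_lit 4) (nat_lit 41717) (nat_lit 15) (node (nat_lit 5) (nat_lit
  31990) (nat_lit 16) (node (nat_lit 4) (nat_lit 15427) (nat_lit 17) nil nil) nil) nil) nil) nil)
  (node (nat_lit 6) (nat_lit 59082) (nat_lit 12) nil nil)) (node (nat_lit 4) (nat_lit 59886)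
  (nat_lit 11) nil (node (nat_lit 12) (nat_lit 57646) (nat_lit 11) (node (nat_lit 5) (nat_lit
  59082) (nat_lit 12) nil nil) nil))) (node (nat_lit 5) (nat_lit 55804) (nat_lit 10) (node
  (nat_lit 4) (nat_lit 59886) (nat_lit 11) (node (nat_lit 6) (nat_lit 58390) (nat_lit 12) nil nil)
  (node (nat_lit 6) (nat_lit 57646) (nat_lit 11) (node (nat_lit 5) (nat_lit 59082) (nat_lit 12)
  nil (node (nat_lit 4) (nat_lit 59082) (nat_lit 12) nil nil)) nil)) (node (nat_lit 4) (nat_lit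
  59334) (nat_lit 10) (node (nat_lit 5) (nat_lit 61176) (nat_lit 11) (node (nat_lit 4) (nat_lit
  62611) (nat_lit 12) nil nil) (node (nat_lit 6) (nat_lit 61176) (nat_lit 11) nil (node (nat_lit
  12) (nat_lit 61176) (nat_lit 11) (node (nat_lit 5) (nat_lit 62611) (nat_lit 12) nil nil) nil)))
  (node (nat_lit 0) (nat_lit 59334) (nat_lit 10) (node (nat_lit 5) (nat_lit 61176) (nat_lit 11)
  nil (node (nat_lit 12) (nat_lit 61176) (nat_lit 11) nil nil)) nil)))) (node (nat_lit 6) (nat_lit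
  0) (nat_lit 9) (node (nat_lit 0) (nat_lit 0) (nat_lit 10) (node (nat_lit 6) (nat_lit 0) (nat_lit
  11) (node (nat_lit 4) (nat_lit 61522) (nat_lit 12) (node (nat_lit 5) (nat_lit 62645) (nat_lit
  13) nil (node (nat_lit 6) (nat_lit 61489) (nat_lit 13) nil nil)) (node (nat_lit 5) (nat_lit
  59082) (nat_lit 12) (node (nat_lit 4) (nat_lit 62802) (nat_lit 13) (node (nat_lit 5) (nat_lit
  57042) (nat_lit 14) nil nil) nil) (node (nat_lit 0) (nat_lit 59082) (nat_lit 12) nil nil)))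
  (node (nat_lit 5) (nat_lit 57646) (nat_lit 11) (node (nat_lit 13) (nat_lit 59082) (nat_lit 12)
  nil (node (nat_lit 6) (nat_lit 59082) (nat_lit 12) (node (nat_lit 5) (nat_lit 59269) (nat_lit
  13) nil nil) nil)) (node (nat_lit 4) (nat_lit 61433) (nat_lit 11) nil (node (nat_lit 0) (nat_lit
  59886) (nat_lit 11) nil nil)))) (node (nat_lit 4) (nat_lit 0) (nat_lit 10) (node (nat_lit 0)
  (nat_lit 62411) (nat_lit 11) (node (nat_lit 6) (nat_lit 63846) (nat_lit 12) (node (nat_lit 4)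
  (nat_lit 65428) (nat_lit 13) (node (nat_lit 6) (nat_lit 64592) (nat_lit 14) nil (node (nat_lit
  5) (nat_lit 66302) (nat_lit 14) nil nil)) nil) (node (nat_lit 4) (nat_lit 64304) (nat_lit 12)
  nil nil)) nil) nil)) (node (nat_lit 4) (nat_lit 0) (nat_lit 9) (node (nat_lit 0) (nat_lit 0)
  (nat_lit 10) (node (nat_lit 4) (nat_lit 62280) (nat_lit 11) (node (nat_lit 5) (nat_lit 63716)
  (nat_lit 12) (node (nat_lit 6) (nat_lit 62593) (nat_lit 13) nil nil) (node (nat_lit 6) (nat_lit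
  63716) (nat_lit 12) (node (nat_lit 5) (nat_lit 60373) (nat_lit 13) nil nil) nil)) (node (nat_lit
  6) (nat_lit 61694) (nat_lit 11) (node (nat_lit 4) (nat_lit 63130) (nat_lit 12) nil nil) (node
  (nat_lit 5) (nat_lit 61694) (nat_lit 11) nil (node (nat_lit 0) (nat_lit 61694) (nat_lit 11)
  (node (nat_lit 4) (nat_lit 63130) (nat_lit 12) nil nil) nil)))) (node (nat_lit 5) (nat_lit 0)
  (nat_lit 10) (node (nat_lit 0) (nat_lit 61694) (nat_lit 11) (node (nat_lit 4) (nat_lit 63716)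
  (nat_lit 12) (node (nat_lit 5) (nat_lit 64839) (nat_lit 13) nil nil) (node (nat_lit 5) (nat_lit
  63130) (nat_lit 12) nil (node (nat_lit 6) (nat_lit 63130) (nat_lit 12) nil nil))) nil) nil))
  nil))) (node (nat_lit 4) (nat_lit 0) (nat_lit 8) (node (nat_lit 0) (nat_lit 0) (nat_lit 9) (node
  (nat_lit 6) (nat_lit 58995) (nat_lit 10) (node (nat_lit 5) (nat_lit 60837) (nat_lit 11) (node
  (nat_lit 4) (nat_lit 60828) (nat_lit 12) (node (nat_lit 5) (nat_lit 59798) (nat_lit 13) (node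
  (nat_lit 6) (nat_lit 57198) (nat_lit 14) (node (nat_lit 4) (nat_lit 52538) (nat_lit 15) nil nil)
  nil) nil) nil) (node (nat_lit 4) (nat_lit 60837) (nat_lit 11) nil (node (nat_lit 12) (nat_lit
  60837) (nat_lit 11) nil nil))) (node (nat_lit 5) (nat_lit 58995) (nat_lit 10) (node (nat_lit 4)
  (nat_lit 61587) (nat_lit 11) nil (node (nat_lit 6) (nat_lit 60837) (nat_lit 11) nil (node
  (nat_lit 12) (nat_lit 60837) (nat_lit 11) nil nil))) (node (nat_lit 4) (nat_lit 60074) (nat_lit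
  10) (node (nat_lit 5) (nat_lit 61916) (nat_lit 11) nil (node (nat_lit 6) (nat_lit 61916)
  (nat_lit 11) (node (nat_lit 5) (nat_lit 58761) (nat_lit 12) nil nil) nil)) (node (nat_lit 0)
  (nat_lit 59745) (nat_lit 10) (node (nat_lit 4) (nat_lit 61587) (nat_lit 11) nil nil) nil))))
  (node (nat_lit 5) (nat_lit 0) (nat_lit 9) (node (nat_lit 0) (nat_lit 0) (nat_lit 10) (node
  (nat_lit 5) (nat_lit 60837) (nat_lit 11) (node (nat_lit 4) (nat_lit 63480) (nat_lit 12) nil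
  (node (nat_lit 6) (nat_lit 62273) (nat_lit 12) (node (nat_lit 5) (nat_lit 60266) (nat_lit 13)
  nil nil) nil)) (node (nat_lit 4) (nat_lit 61844) (nat_lit 11) (node (nat_lit 5) (nat_lit 63280)
  (nat_lit 12) nil nil) (node (nat_lit 6) (nat_lit 60837) (nat_lit 11) (node (nat_lit 5) (nat_lit
  62273) (nat_lit 12) nil nil) (node (nat_lit 0) (nat_lit 61844) (nat_lit 11) nil nil)))) (node
  (nat_lit 6) (nat_lit 0) (nat_lit 10) (node (nat_lit 0) (nat_lit 60837) (nat_lit 11) (node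
  (nat_lit 5) (nat_lit 62273) (nat_lit 12) (node (nat_lit 6) (nat_lit 63396) (nat_lit 13) (node
  (nat_lit 5) (nat_lit 60805) (nat_lit 14) nil nil) nil) nil) nil) nil)) nil)) (node (nat_lit 0)
  (nat_lit 0) (nat_lit 8) (node (nat_lit 6) (nat_lit 58488) (nat_lit 9) (node (nat_lit 5) (nat_lit
  59536) (nat_lit 10) (node (nat_lit 4) (nat_lit 59334) (nat_lit 11) (node (nat_lit 5) (nat_lit
  49011) (nat_lit 12) (node (nat_lit 6) (nat_lit 42352) (nat_lit 13) nil nil) nil) nil) (node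
  (nat_lit 4) (nat_lit 61518) (nat_lit 10) nil nil)) (node (nat_lit 5) (nat_lit 58488) (nat_lit 9)
  (node (nat_lit 4) (nat_lit 61518) (nat_lit 10) nil (node (nat_lit 6) (nat_lit 59536) (nat_lit
  10) nil nil)) (node (nat_lit 4) (nat_lit 61433) (nat_lit 9) (node (nat_lit 6) (nat_lit 62481)
  (nat_lit 10) (node (nat_lit 5) (nat_lit 57527) (nat_lit 11) nil nil) (node (nat_lit 5) (nat_lit
  62481) (nat_lit 10) nil nil)) (node (nat_lit 0) (nat_lit 58488) (nat_lit 9) nil nil)))) nil)))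
  nil) nil) nil))

noncomputable def t448 : Tr :=
  (node (nat_lit 6) (nat_lit 0) (nat_lit 6) (node (nat_lit 4) (nat_lit 0) (nat_lit 7) (node
  (nat_lit 5) (nat_lit 0) (nat_lit 8) (node (nat_lit 6) (nat_lit 0) (nat_lit 9) (node (nat_lit 0)
  (nat_lit 0) (nat_lit 10) (node (nat_lit 6) (nat_lit 0) (nat_lit 11) (node (nat_lit 5) (nat_lit
  118292) (nat_lit 12) (node (nat_lit 4) (nat_lit 121450) (nat_lit 13) (node (nat_lit 5) (nat_lit
  120707) (nat_lit 14) nil (node (nat_lit 6) (nat_lit 119999) (nat_lit 14) nil nil)) (node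
  (nat_lit 13) (nat_lit 120817) (nat_lit 13) nil (node (nat_lit 6) (nat_lit 120817) (nat_lit 13)
  nil nil))) (node (nat_lit 4) (nat_lit 119719) (nat_lit 12) (node (nat_lit 5) (nat_lit 122245)
  (nat_lit 13) nil (node (nat_lit 6) (nat_lit 122293) (nat_lit 13) nil nil)) (node (nat_lit 0)
  (nat_lit 118690) (nat_lit 12) nil nil))) (node (nat_lit 5) (nat_lit 115130) (nat_lit 11) (node
  (nat_lit 13) (nat_lit 117746) (nat_lit 12) (node (nat_lit 6) (nat_lit 119882) (nat_lit 13) nil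
  nil) (node (nat_lit 6) (nat_lit 118949) (nat_lit 12) (node (nat_lit 5) (nat_lit 117068) (nat_lit
  13) nil nil) nil)) (node (nat_lit 4) (nat_lit 116954) (nat_lit 11) (node (nat_lit 6) (nat_lit
  120967) (nat_lit 12) (node (nat_lit 4) (nat_lit 118051) (nat_lit 13) nil nil) (node (nat_lit 13)
  (nat_lit 120189) (nat_lit 12) nil nil)) (node (nat_lit 0) (nat_lit 116367) (nat_lit 11) (node
  (nat_lit 6) (nat_lit 116670) (nat_lit 12) nil nil) nil)))) (node (nat_lit 5) (nat_lit 0)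
  (nat_lit 10) (node (nat_lit 0) (nat_lit 86022) (nat_lit 11) (node (nat_lit 6) (nat_lit 90032)
  (nat_lit 12) (node (nat_lit 5) (nat_lit 92147) (nat_lit 13) (node (nat_lit 6) (nat_lit 94807)
  (nat_lit 14) (node (nat_lit 14) (nat_lit 96684) (nat_lit 15) (node (nat_lit 5) (nat_lit 96676)
  (nat_lit 16) nil (node (nat_lit 6) (nat_lit 96863) (nat_lit 16) nil nil)) (node (nat_lit 4)
  (nat_lit 98392) (nat_lit 15) (node (nat_lit 5) (nat_lit 99500) (nat_lit 16) nil nil) (node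
  (nat_lit 0) (nat_lit 96347) (nat_lit 15) nil nil))) (node (nat_lit 4) (nat_lit 96500) (nat_lit
  14) (node (nat_lit 5) (nat_lit 96134) (nat_lit 15) (node (nat_lit 6) (nat_lit 95286) (nat_lit
  16) nil nil) (node (nat_lit 6) (nat_lit 98039) (nat_lit 15) nil nil)) (node (nat_lit 0) (nat_lit
  94116) (nat_lit 14) nil nil))) (node (nat_lit 14) (nat_lit 92557) (nat_lit 13) nil nil)) (node
  (nat_lit 5) (nat_lit 88439) (nat_lit 12) (node (nat_lit 6) (nat_lit 91545) (nat_lit 13) (node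
  (nat_lit 14) (nat_lit 93056) (nat_lit 14) (node (nat_lit 6) (nat_lit 93278) (nat_lit 15) nil
  nil) nil) nil) (node (nat_lit 4) (nat_lit 93332) (nat_lit 12) nil nil))) nil) (node (nat_lit 4)
  (nat_lit 0) (nat_lit 10) (node (nat_lit 0) (nat_lit 116367) (nat_lit 11) (node (nat_lit 6)
  (nat_lit 120376) (nat_lit 12) (node (nat_lit 4) (nat_lit 123703) (nat_lit 13) nil nil) nil) nil)
  nil))) (node (nat_lit 0) (nat_lit 0) (nat_lit 9) (node (nat_lit 6) (nat_lit 170471) (nat_lit 10)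
  (node (nat_lit 4) (nat_lit 174615) (nat_lit 11) (node (nat_lit 6) (nat_lit 174148) (nat_lit 12)
  (node (nat_lit 5) (nat_lit 173864) (nat_lit 13) (node (nat_lit 4) (nat_lit 173286) (nat_lit 14)
  (node (nat_lit 5) (nat_lit 173332) (nat_lit 15) (node (nat_lit 6) (nat_lit 171091) (nat_lit 16)
  (node (nat_lit 5) (nat_lit 169434) (nat_lit 17) (node (nat_lit 4) (nat_lit 163745) (nat_lit 18)
  nil nil) nil) nil) nil) nil) nil) nil) (node (nat_lit 5) (nat_lit 175276) (nat_lit 11) (node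
  (nat_lit 4) (nat_lit 175587) (nat_lit 12) (node (nat_lit 5) (nat_lit 166998) (nat_lit 13) (node
  (nat_lit 6) (nat_lit 162701) (nat_lit 14) nil nil) nil) (node (nat_lit 6) (nat_lit 174181)
  (nat_lit 12) (node (nat_lit 4) (nat_lit 175991) (nat_lit 13) nil nil) nil)) (node (nat_lit 12)
  (nat_lit 174615) (nat_lit 11) nil nil))) (node (nat_lit 4) (nat_lit 175792) (nat_lit 10) (node
  (nat_lit 6) (nat_lit 175937) (nat_lit 11) (node (nat_lit 4) (nat_lit 174931) (nat_lit 12) (node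
  (nat_lit 5) (nat_lit 173980) (nat_lit 13) (node (nat_lit 6) (nat_lit 170778) (nat_lit 14) (node
  (nat_lit 5) (nat_lit 166515) (nat_lit 15) (node (nat_lit 4) (nat_lit 154637) (nat_lit 16) (node
  (nat_lit 6) (nat_lit 138401) (nat_lit 17) (node (nat_lit 4) (nat_lit 115121) (nat_lit 18) nil
  nil) nil) nil) nil) nil) nil) (node (nat_lit 5) (nat_lit 176425) (nat_lit 12) nil nil)) (node
  (nat_lit 5) (nat_lit 177634) (nat_lit 11) nil (node (nat_lit 12) (nat_lit 177634) (nat_lit 11)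
  nil nil))) (node (nat_lit 5) (nat_lit 170554) (nat_lit 10) (node (nat_lit 4) (nat_lit 175129)
  (nat_lit 11) (node (nat_lit 5) (nat_lit 177712) (nat_lit 12) nil (node (nat_lit 6) (nat_lit
  171503) (nat_lit 12) nil nil)) (node (nat_lit 6) (nat_lit 176113) (nat_lit 11) (node (nat_lit 4)
  (nat_lit 177549) (nat_lit 12) nil nil) nil)) (node (nat_lit 0) (nat_lit 172504) (nat_lit 10)
  (node (nat_lit 5) (nat_lit 172183) (nat_lit 11) nil nil) nil)))) (node (nat_lit 4) (nat_lit 0)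
  (nat_lit 9) (node (nat_lit 0) (nat_lit 0) (nat_lit 10) (node (nat_lit 4) (nat_lit 177924)
  (nat_lit 11) (node (nat_lit 6) (nat_lit 176428) (nat_lit 12) (node (nat_lit 4) (nat_lit 177551)
  (nat_lit 13) nil (node (nat_lit 5) (nat_lit 176076) (nat_lit 13) nil nil)) (node (nat_lit 5)
  (nat_lit 179360) (nat_lit 12) nil nil)) (node (nat_lit 5) (nat_lit 175512) (nat_lit 11) (node
  (nat_lit 4) (nat_lit 176948) (nat_lit 12) nil (node (nat_lit 13) (nat_lit 176948) (nat_lit 12)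
  nil nil)) (node (nat_lit 6) (nat_lit 177709) (nat_lit 11) nil (node (nat_lit 0) (nat_lit 176608)
  (nat_lit 11) nil nil)))) (node (nat_lit 6) (nat_lit 0) (nat_lit 10) (node (nat_lit 0) (nat_lit
  178621) (nat_lit 11) (node (nat_lit 4) (nat_lit 179653) (nat_lit 12) (node (nat_lit 6) (nat_lit
  178934) (nat_lit 13) (node (nat_lit 4) (nat_lit 179808) (nat_lit 14) (node (nat_lit 5) (nat_lit
  180491) (nat_lit 15) (node (nat_lit 6) (nat_lit 178904) (nat_lit 16) nil nil) nil) (node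
  (nat_lit 5) (nat_lit 177764) (nat_lit 14) nil nil)) nil) nil) nil) nil)) nil))) (node (nat_lit
  0) (nat_lit 0) (nat_lit 8) (node (nat_lit 4) (nat_lit 176537) (nat_lit 9) (node (nat_lit 6)
  (nat_lit 178862) (nat_lit 10) (node (nat_lit 5) (nat_lit 180780) (nat_lit 11) (node (nat_lit 4)
  (nat_lit 174030) (nat_lit 12) nil nil) (node (nat_lit 4) (nat_lit 179289) (nat_lit 11) (node
  (nat_lit 5) (nat_lit 175777) (nat_lit 12) nil nil) nil)) (node (nat_lit 5) (nat_lit 176510)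
  (nat_lit 10) (node (nat_lit 4) (nat_lit 177433) (nat_lit 11) nil (node (nat_lit 6) (nat_lit
  173855) (nat_lit 11) nil nil)) nil)) (node (nat_lit 6) (nat_lit 176448) (nat_lit 9) (node
  (nat_lit 5) (nat_lit 176986) (nat_lit 10) (node (nat_lit 4) (nat_lit 177569) (nat_lit 11) (node
  (nat_lit 5) (nat_lit 163196) (nat_lit 12) nil nil) nil) (node (nat_lit 4) (nat_lit 178773)
  (nat_lit 10) nil nil)) (node (nat_lit 5) (nat_lit 173605) (nat_lit 9) (node (nat_lit 6) (nat_lit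
  175959) (nat_lit 10) (node (nat_lit 4) (nat_lit 176882) (nat_lit 11) (node (nat_lit 5) (nat_lit
  177718) (nat_lit 12) nil nil) nil) (node (nat_lit 4) (nat_lit 175930) (nat_lit 10) (node
  (nat_lit 6) (nat_lit 173275) (nat_lit 11) nil nil) nil)) (node (nat_lit 0) (nat_lit 174901)
  (nat_lit 9) nil nil)))) nil)) (node (nat_lit 5) (nat_lit 0) (nat_lit 7) (node (nat_lit 6)
  (nat_lit 0) (nat_lit 8) (node (nat_lit 4) (nat_lit 0) (nat_lit 9) (node (nat_lit 0) (nat_lit 0)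
  (nat_lit 10) (node (nat_lit 4) (nat_lit 0) (nat_lit 11) (node (nat_lit 6) (nat_lit 180388)
  (nat_lit 12) (node (nat_lit 5) (nat_lit 180213) (nat_lit 13) (node (nat_lit 4) (nat_lit 178803)
  (nat_lit 14) nil nil) (node (nat_lit 4) (nat_lit 181511) (nat_lit 13) nil nil)) (node (nat_lit
  5) (nat_lit 178542) (nat_lit 12) (node (nat_lit 4) (nat_lit 179664) (nat_lit 13) nil nil) (node
  (nat_lit 0) (nat_lit 179360) (nat_lit 12) nil nil))) (node (nat_lit 6) (nat_lit 177709) (nat_lit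
  11) (node (nat_lit 4) (nat_lit 180174) (nat_lit 12) nil (node (nat_lit 13) (nat_lit 179145)
  (nat_lit 12) nil nil)) (node (nat_lit 5) (nat_lit 175512) (nat_lit 11) (node (nat_lit 4)
  (nat_lit 177976) (nat_lit 12) nil (node (nat_lit 13) (nat_lit 176948) (nat_lit 12) nil nil))
  (node (nat_lit 0) (nat_lit 177924) (nat_lit 11) (node (nat_lit 4) (nat_lit 179360) (nat_lit 12)
  nil nil) nil)))) (node (nat_lit 6) (nat_lit 0) (nat_lit 10) (node (nat_lit 0) (nat_lit 178621)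
  (nat_lit 11) (node (nat_lit 4) (nat_lit 181084) (nat_lit 12) (node (nat_lit 6) (nat_lit 183008)
  (nat_lit 13) (node (nat_lit 4) (nat_lit 183882) (nat_lit 14) (node (nat_lit 5) (nat_lit 184566)
  (nat_lit 15) (node (nat_lit 6) (nat_lit 184078) (nat_lit 16) nil nil) nil) (node (nat_lit 5)
  (nat_lit 180463) (nat_lit 14) (node (nat_lit 4) (nat_lit 180787) (nat_lit 15) nil nil) nil))
  nil) (node (nat_lit 6) (nat_lit 180831) (nat_lit 12) (node (nat_lit 4) (nat_lit 182755) (nat_lit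
  13) nil nil) (node (nat_lit 5) (nat_lit 179238) (nat_lit 12) nil nil))) nil) (node (nat_lit 5)
  (nat_lit 0) (nat_lit 10) (node (nat_lit 0) (nat_lit 178621) (nat_lit 11) (node (nat_lit 4)
  (nat_lit 181084) (nat_lit 12) (node (nat_lit 5) (nat_lit 182207) (nat_lit 13) nil nil) nil) nil)
  nil))) (node (nat_lit 0) (nat_lit 0) (nat_lit 9) (node (nat_lit 5) (nat_lit 173306) (nat_lit 10)
  (node (nat_lit 6) (nat_lit 175689) (nat_lit 11) (node (nat_lit 4) (nat_lit 177125) (nat_lit 12)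
  (node (nat_lit 5) (nat_lit 178248) (nat_lit 13) (node (nat_lit 6) (nat_lit 177412) (nat_lit 14)
  (node (nat_lit 5) (nat_lit 172579) (nat_lit 15) (node (nat_lit 4) (nat_lit 163781) (nat_lit 16)
  (node (nat_lit 6) (nat_lit 146003) (nat_lit 17) nil nil) nil) nil) nil) nil) (node (nat_lit 5)
  (nat_lit 172399) (nat_lit 12) nil nil)) (node (nat_lit 4) (nat_lit 176276) (nat_lit 11) (node
  (nat_lit 6) (nat_lit 174780) (nat_lit 12) nil nil) (node (nat_lit 12) (nat_lit 175147) (nat_lit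
  11) nil nil))) (node (nat_lit 4) (nat_lit 175792) (nat_lit 10) (node (nat_lit 6) (nat_lit
  178628) (nat_lit 11) (node (nat_lit 4) (nat_lit 180064) (nat_lit 12) (node (nat_lit 5) (nat_lit
  181187) (nat_lit 13) (node (nat_lit 6) (nat_lit 175458) (nat_lit 14) (node (nat_lit 5) (nat_lit
  171605) (nat_lit 15) (node (nat_lit 4) (nat_lit 141635) (nat_lit 16) nil nil) nil) nil) nil)
  (node (nat_lit 5) (nat_lit 180104) (nat_lit 12) nil nil)) (node (nat_lit 5) (nat_lit 177634)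
  (nat_lit 11) nil (node (nat_lit 12) (nat_lit 177634) (nat_lit 11) nil nil))) (node (nat_lit 6)
  (nat_lit 172348) (nat_lit 10) (node (nat_lit 5) (nat_lit 173612) (nat_lit 11) (node (nat_lit 4)
  (nat_lit 174920) (nat_lit 12) (node (nat_lit 5) (nat_lit 172369) (nat_lit 13) (node (nat_lit 6)
  (nat_lit 156324) (nat_lit 14) nil nil) nil) nil) (node (nat_lit 4) (nat_lit 176446) (nat_lit 11)
  nil nil)) (node (nat_lit 0) (nat_lit 174766) (nat_lit 10) (node (nat_lit 6) (nat_lit 172829)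
  (nat_lit 11) nil nil) nil)))) nil)) (node (nat_lit 0) (nat_lit 0) (nat_lit 8) (node (nat_lit 6)
  (nat_lit 176448) (nat_lit 9) (node (nat_lit 5) (nat_lit 176986) (nat_lit 10) (node (nat_lit 4)
  (nat_lit 177569) (nat_lit 11) (node (nat_lit 5) (nat_lit 169138) (nat_lit 12) nil nil) nil)
  (node (nat_lit 4) (nat_lit 178773) (nat_lit 10) nil nil)) (node (nat_lit 5) (nat_lit 173605)
  (nat_lit 9) (node (nat_lit 6) (nat_lit 175959) (nat_lit 10) (node (nat_lit 4) (nat_lit 176882)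
  (nat_lit 11) (node (nat_lit 5) (nat_lit 177718) (nat_lit 12) nil nil) (node (nat_lit 5) (nat_lit
  171015) (nat_lit 11) nil nil)) (node (nat_lit 4) (nat_lit 175930) (nat_lit 10) (node (nat_lit 6)
  (nat_lit 177847) (nat_lit 11) (node (nat_lit 4) (nat_lit 178683) (nat_lit 12) nil nil) (node
  (nat_lit 5) (nat_lit 176853) (nat_lit 11) nil nil)) nil)) (node (nat_lit 4) (nat_lit 176537)
  (nat_lit 9) (node (nat_lit 5) (nat_lit 176510) (nat_lit 10) nil (node (nat_lit 6) (nat_lit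
  178862) (nat_lit 10) (node (nat_lit 4) (nat_lit 179785) (nat_lit 11) nil (node (nat_lit 5)
  (nat_lit 180780) (nat_lit 11) nil nil)) nil)) (node (nat_lit 0) (nat_lit 174901) (nat_lit 9) nil
  nil)))) nil)) nil)) (node (nat_lit 5) (nat_lit 0) (nat_lit 6) (node (nat_lit 6) (nat_lit 0)
  (nat_lit 7) (node (nat_lit 4) (nat_lit 0) (nat_lit 8) (node (nat_lit 0) (nat_lit 0) (nat_lit 9)
  (node (nat_lit 5) (nat_lit 107303) (nat_lit 10) (node (nat_lit 6) (nat_lit 111886) (nat_lit 11)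
  (node (nat_lit 4) (nat_lit 111177) (nat_lit 12) (node (nat_lit 5) (nat_lit 103065) (nat_lit 13)
  (node (nat_lit 6) (nat_lit 101747) (nat_lit 14) (node (nat_lit 5) (nat_lit 95694) (nat_lit 15)
  (node (nat_lit 4) (nat_lit 84895) (nat_lit 16) (node (nat_lit 5) (nat_lit 70171) (nat_lit 17)
  (node (nat_lit 6) (nat_lit 45135) (nat_lit 18) (node (nat_lit 4) (nat_lit 2624) (nat_lit 19) nil
  nil) nil) nil) nil) nil) nil) nil) nil) (node (nat_lit 4) (nat_lit 111886) (nat_lit 11) (node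
  (nat_lit 6) (nat_lit 108959) (nat_lit 12) (node (nat_lit 4) (nat_lit 109647) (nat_lit 13) nil
  nil) (node (nat_lit 5) (nat_lit 113685) (nat_lit 12) nil nil)) (node (nat_lit 12) (nat_lit
  109819) (nat_lit 11) nil nil))) (node (nat_lit 6) (nat_lit 107303) (nat_lit 10) (node (nat_lit
  12) (nat_lit 111886) (nat_lit 11) (node (nat_lit 4) (nat_lit 110220) (nat_lit 12) (node (nat_lit
  6) (nat_lit 111230) (nat_lit 13) (node (nat_lit 4) (nat_lit 111799) (nat_lit 14) (node (nat_lit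
  5) (nat_lit 111171) (nat_lit 15) (node (nat_lit 6) (nat_lit 110120) (nat_lit 16) nil nil) nil)
  nil) nil) nil) (node (nat_lit 5) (nat_lit 111886) (nat_lit 11) (node (nat_lit 4) (nat_lit
  110220) (nat_lit 12) (node (nat_lit 5) (nat_lit 111623) (nat_lit 13) (node (nat_lit 6) (nat_lit
  112718) (nat_lit 14) nil nil) nil) (node (nat_lit 6) (nat_lit 108959) (nat_lit 12) (node
  (nat_lit 4) (nat_lit 109647) (nat_lit 13) nil nil) nil)) (node (nat_lit 4) (nat_lit 112313)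
  (nat_lit 11) (node (nat_lit 5) (nat_lit 114112) (nat_lit 12) nil nil) nil))) (node (nat_lit 4)
  (nat_lit 107632) (nat_lit 10) (node (nat_lit 6) (nat_lit 112215) (nat_lit 11) (node (nat_lit 4)
  (nat_lit 111101) (nat_lit 12) (node (nat_lit 5) (nat_lit 105744) (nat_lit 13) (node (nat_lit 6)
  (nat_lit 104427) (nat_lit 14) (node (nat_lit 5) (nat_lit 98373) (nat_lit 15) nil nil) nil) nil)
  (node (nat_lit 5) (nat_lit 110550) (nat_lit 12) nil nil)) (node (nat_lit 5) (nat_lit 112215)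
  (nat_lit 11) (node (nat_lit 6) (nat_lit 114014) (nat_lit 12) nil nil) nil)) (node (nat_lit 0)
  (nat_lit 107303) (nat_lit 10) (node (nat_lit 4) (nat_lit 109528) (nat_lit 11) nil (node (nat_lit
  12) (nat_lit 109605) (nat_lit 11) nil nil)) nil)))) (node (nat_lit 6) (nat_lit 0) (nat_lit 9)
  (node (nat_lit 0) (nat_lit 0) (nat_lit 10) (node (nat_lit 6) (nat_lit 0) (nat_lit 11) (node
  (nat_lit 5) (nat_lit 115221) (nat_lit 12) (node (nat_lit 4) (nat_lit 113970) (nat_lit 13) (node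
  (nat_lit 5) (nat_lit 115065) (nat_lit 14) nil nil) (node (nat_lit 6) (nat_lit 114382) (nat_lit
  13) nil nil)) (node (nat_lit 4) (nat_lit 115468) (nat_lit 12) (node (nat_lit 5) (nat_lit 116871)
  (nat_lit 13) nil nil) (node (nat_lit 0) (nat_lit 113685) (nat_lit 12) nil nil))) (node (nat_lit
  4) (nat_lit 111547) (nat_lit 11) (node (nat_lit 13) (nat_lit 113346) (nat_lit 12) nil (node
  (nat_lit 6) (nat_lit 113190) (nat_lit 12) (node (nat_lit 4) (nat_lit 114648) (nat_lit 13) nil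
  nil) nil)) (node (nat_lit 5) (nat_lit 111886) (nat_lit 11) nil (node (nat_lit 0) (nat_lit
  109605) (nat_lit 11) nil nil)))) (node (nat_lit 5) (nat_lit 0) (nat_lit 10) (node (nat_lit 0)
  (nat_lit 111886) (nat_lit 11) (node (nat_lit 6) (nat_lit 115468) (nat_lit 12) (node (nat_lit 5)
  (nat_lit 118259) (nat_lit 13) (node (nat_lit 4) (nat_lit 117332) (nat_lit 14) (node (nat_lit 5)
  (nat_lit 118188) (nat_lit 15) nil nil) (node (nat_lit 6) (nat_lit 117331) (nat_lit 14) nil nil))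
  nil) (node (nat_lit 5) (nat_lit 115468) (nat_lit 12) nil nil)) nil) nil)) (node (nat_lit 5)
  (nat_lit 0) (nat_lit 9) (node (nat_lit 0) (nat_lit 0) (nat_lit 10) (node (nat_lit 5) (nat_lit
  111580) (nat_lit 11) (node (nat_lit 6) (nat_lit 115163) (nat_lit 12) (node (nat_lit 4) (nat_lit
  111124) (nat_lit 13) nil (node (nat_lit 5) (nat_lit 116565) (nat_lit 13) nil nil)) (node
  (nat_lit 4) (nat_lit 115163) (nat_lit 12) (node (nat_lit 6) (nat_lit 112158) (nat_lit 13) nil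
  nil) nil)) (node (nat_lit 6) (nat_lit 111054) (nat_lit 11) (node (nat_lit 5) (nat_lit 114635)
  (nat_lit 12) nil nil) (node (nat_lit 4) (nat_lit 111606) (nat_lit 11) nil (node (nat_lit 0)
  (nat_lit 107702) (nat_lit 11) (node (nat_lit 5) (nat_lit 106037) (nat_lit 12) nil nil) nil))))
  (node (nat_lit 4) (nat_lit 0) (nat_lit 10) (node (nat_lit 0) (nat_lit 112215) (nat_lit 11) (node
  (nat_lit 5) (nat_lit 115796) (nat_lit 12) (node (nat_lit 4) (nat_lit 114545) (nat_lit 13) nil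
  nil) (node (nat_lit 4) (nat_lit 115894) (nat_lit 12) (node (nat_lit 5) (nat_lit 117297) (nat_lit
  13) nil nil) (node (nat_lit 6) (nat_lit 115796) (nat_lit 12) nil nil))) nil) nil)) nil))) (node
  (nat_lit 0) (nat_lit 0) (nat_lit 8) (node (nat_lit 6) (nat_lit 105675) (nat_lit 9) (node
  (nat_lit 5) (nat_lit 109833) (nat_lit 10) (node (nat_lit 4) (nat_lit 107175) (nat_lit 11) (node
  (nat_lit 5) (nat_lit 108162) (nat_lit 12) (node (nat_lit 6) (nat_lit 108962) (nat_lit 13) nil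
  nil) nil) (node (nat_lit 6) (nat_lit 105054) (nat_lit 11) nil nil)) (node (nat_lit 4) (nat_lit
  111864) (nat_lit 10) (node (nat_lit 5) (nat_lit 112952) (nat_lit 11) nil nil) nil)) (node
  (nat_lit 4) (nat_lit 105236) (nat_lit 9) (node (nat_lit 6) (nat_lit 109345) (nat_lit 10) (node
  (nat_lit 4) (nat_lit 109150) (nat_lit 11) nil nil) (node (nat_lit 5) (nat_lit 109392) (nat_lit
  10) nil nil)) (node (nat_lit 5) (nat_lit 105074) (nat_lit 9) (node (nat_lit 6) (nat_lit 109652)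
  (nat_lit 10) (node (nat_lit 4) (nat_lit 109150) (nat_lit 11) (node (nat_lit 5) (nat_lit 101697)
  (nat_lit 12) nil nil) nil) (node (nat_lit 4) (nat_lit 111263) (nat_lit 10) nil nil)) (node
  (nat_lit 0) (nat_lit 101927) (nat_lit 9) nil nil)))) nil)) nil) nil))

noncomputable def t449 : Tr :=
  (node (nat_lit 5) (nat_lit 0) (nat_lit 5) (node (nat_lit 7) (nat_lit 0) (nat_lit 6) (node
  (nat_lit 4) (nat_lit 0) (nat_lit 7) (node (nat_lit 5) (nat_lit 0) (nat_lit 8) (node (nat_lit 0)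
  (nat_lit 0) (nat_lit 9) (node (nat_lit 4) (nat_lit 111545) (nat_lit 10) (node (nat_lit 5)
  (nat_lit 116730) (nat_lit 11) (node (nat_lit 7) (nat_lit 120377) (nat_lit 12) (node (nat_lit 4)
  (nat_lit 115959) (nat_lit 13) (node (nat_lit 5) (nat_lit 114791) (nat_lit 14) (node (nat_lit 4)
  (nat_lit 112451) (nat_lit 15) (node (nat_lit 7) (nat_lit 107636) (nat_lit 16) (node (nat_lit 5)
  (nat_lit 99740) (nat_lit 17) (node (nat_lit 7) (nat_lit 92396) (nat_lit 18) (node (nat_lit 4)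
  (nat_lit 74763) (nat_lit 19) nil nil) nil) nil) nil) nil) nil) nil) (node (nat_lit 4) (nat_lit
  119872) (nat_lit 12) nil nil)) (node (nat_lit 7) (nat_lit 117839) (nat_lit 11) (node (nat_lit 4)
  (nat_lit 121487) (nat_lit 12) (node (nat_lit 5) (nat_lit 122590) (nat_lit 13) nil nil) nil)
  (node (nat_lit 12) (nat_lit 116061) (nat_lit 11) (node (nat_lit 5) (nat_lit 114507) (nat_lit 12)
  nil nil) nil))) (node (nat_lit 5) (nat_lit 0) (nat_lit 10) (node (nat_lit 7) (nat_lit 118694)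
  (nat_lit 11) (node (nat_lit 4) (nat_lit 122342) (nat_lit 12) (node (nat_lit 5) (nat_lit 112345)
  (nat_lit 13) (node (nat_lit 4) (nat_lit 109074) (nat_lit 14) (node (nat_lit 7) (nat_lit 102821)
  (nat_lit 15) (node (nat_lit 5) (nat_lit 92063) (nat_lit 16) (node (nat_lit 7) (nat_lit 79713)
  (nat_lit 17) (node (nat_lit 4) (nat_lit 53550) (nat_lit 18) nil nil) nil) nil) nil) nil) nil)
  nil) (node (nat_lit 4) (nat_lit 117016) (nat_lit 11) (node (nat_lit 5) (nat_lit 115462) (nat_lit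
  12) nil (node (nat_lit 7) (nat_lit 121963) (nat_lit 12) (node (nat_lit 4) (nat_lit 117544)
  (nat_lit 13) nil nil) nil)) (node (nat_lit 0) (nat_lit 114793) (nat_lit 11) nil nil))) (node
  (nat_lit 7) (nat_lit 113737) (nat_lit 10) (node (nat_lit 5) (nat_lit 118410) (nat_lit 11) (node
  (nat_lit 7) (nat_lit 122059) (nat_lit 12) (node (nat_lit 4) (nat_lit 119280) (nat_lit 13) (node
  (nat_lit 5) (nat_lit 112235) (nat_lit 14) (node (nat_lit 4) (nat_lit 109896) (nat_lit 15) (node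
  (nat_lit 7) (nat_lit 105081) (nat_lit 16) nil nil) nil) nil) nil) (node (nat_lit 4) (nat_lit
  117281) (nat_lit 12) nil nil)) (node (nat_lit 4) (nat_lit 118410) (nat_lit 11) (node (nat_lit 5)
  (nat_lit 120475) (nat_lit 12) nil (node (nat_lit 7) (nat_lit 120276) (nat_lit 12) nil nil))
  (node (nat_lit 12) (nat_lit 118410) (nat_lit 11) (node (nat_lit 5) (nat_lit 116856) (nat_lit 12)
  nil nil) nil))) (node (nat_lit 0) (nat_lit 113737) (nat_lit 10) (node (nat_lit 5) (nat_lit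
  118410) (nat_lit 11) nil (node (nat_lit 12) (nat_lit 116130) (nat_lit 11) nil nil)) nil))))
  (node (nat_lit 4) (nat_lit 0) (nat_lit 9) (node (nat_lit 0) (nat_lit 0) (nat_lit 10) (node
  (nat_lit 4) (nat_lit 0) (nat_lit 11) (node (nat_lit 7) (nat_lit 104474) (nat_lit 12) (node
  (nat_lit 5) (nat_lit 103702) (nat_lit 13) nil (node (nat_lit 4) (nat_lit 107321) (nat_lit 13)
  (node (nat_lit 5) (nat_lit 101185) (nat_lit 14) nil nil) nil)) (node (nat_lit 5) (nat_lit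
  102400) (nat_lit 12) (node (nat_lit 7) (nat_lit 105247) (nat_lit 13) nil nil) (node (nat_lit 0)
  (nat_lit 100707) (nat_lit 12) nil nil))) (node (nat_lit 5) (nat_lit 98054) (nat_lit 11) (node
  (nat_lit 13) (nat_lit 102006) (nat_lit 12) nil (node (nat_lit 4) (nat_lit 101686) (nat_lit 12)
  (node (nat_lit 5) (nat_lit 100527) (nat_lit 13) nil nil) nil)) (node (nat_lit 7) (nat_lit
  101248) (nat_lit 11) nil (node (nat_lit 0) (nat_lit 97428) (nat_lit 11) nil nil)))) (node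
  (nat_lit 7) (nat_lit 0) (nat_lit 10) (node (nat_lit 0) (nat_lit 25193) (nat_lit 11) (node
  (nat_lit 4) (nat_lit 27059) (nat_lit 12) (node (nat_lit 7) (nat_lit 28517) (nat_lit 13) (node
  (nat_lit 4) (nat_lit 29653) (nat_lit 14) (node (nat_lit 5) (nat_lit 31761) (nat_lit 15) nil nil)
  (node (nat_lit 5) (nat_lit 28719) (nat_lit 14) nil nil)) nil) (node (nat_lit 7) (nat_lit 27059)
  (nat_lit 12) nil nil)) nil) nil)) (node (nat_lit 7) (nat_lit 0) (nat_lit 9) (node (nat_lit 0)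
  (nat_lit 0) (nat_lit 10) (node (nat_lit 7) (nat_lit 118908) (nat_lit 11) (node (nat_lit 4)
  (nat_lit 122556) (nat_lit 12) (node (nat_lit 5) (nat_lit 124014) (nat_lit 13) nil (node (nat_lit
  7) (nat_lit 124014) (nat_lit 13) nil nil)) (node (nat_lit 5) (nat_lit 122556) (nat_lit 12) (node
  (nat_lit 4) (nat_lit 121396) (nat_lit 13) nil nil) nil)) (node (nat_lit 4) (nat_lit 118706)
  (nat_lit 11) (node (nat_lit 7) (nat_lit 122484) (nat_lit 12) (node (nat_lit 4) (nat_lit 118193)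
  (nat_lit 13) nil nil) nil) (node (nat_lit 5) (nat_lit 118706) (nat_lit 11) (node (nat_lit 7)
  (nat_lit 122354) (nat_lit 12) nil (node (nat_lit 13) (nat_lit 120572) (nat_lit 12) nil nil))
  (node (nat_lit 0) (nat_lit 114324) (nat_lit 11) (node (nat_lit 7) (nat_lit 116189) (nat_lit 12)
  nil nil) nil)))) (node (nat_lit 5) (nat_lit 0) (nat_lit 10) (node (nat_lit 0) (nat_lit 118649)
  (nat_lit 11) (node (nat_lit 7) (nat_lit 122556) (nat_lit 12) (node (nat_lit 5) (nat_lit 124196)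
  (nat_lit 13) (node (nat_lit 7) (nat_lit 122400) (nat_lit 14) nil nil) nil) (node (nat_lit 5)
  (nat_lit 122296) (nat_lit 12) (node (nat_lit 7) (nat_lit 119976) (nat_lit 13) nil nil) (node
  (nat_lit 4) (nat_lit 122296) (nat_lit 12) nil nil))) nil) nil)) nil))) (node (nat_lit 7)
  (nat_lit 0) (nat_lit 8) (node (nat_lit 0) (nat_lit 0) (nat_lit 9) (node (nat_lit 4) (nat_lit
  146348) (nat_lit 10) (node (nat_lit 5) (nat_lit 145405) (nat_lit 11) (node (nat_lit 7) (nat_lit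
  146288) (nat_lit 12) nil nil) (node (nat_lit 7) (nat_lit 147494) (nat_lit 11) (node (nat_lit 4)
  (nat_lit 143910) (nat_lit 12) (node (nat_lit 5) (nat_lit 141886) (nat_lit 13) nil nil) nil)
  (node (nat_lit 12) (nat_lit 147468) (nat_lit 11) nil nil))) (node (nat_lit 5) (nat_lit 146348)
  (nat_lit 10) (node (nat_lit 7) (nat_lit 147494) (nat_lit 11) (node (nat_lit 4) (nat_lit 147029)
  (nat_lit 12) (node (nat_lit 5) (nat_lit 142114) (nat_lit 13) nil nil) nil) (node (nat_lit 4)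
  (nat_lit 145405) (nat_lit 11) nil nil)) (node (nat_lit 7) (nat_lit 148921) (nat_lit 10) (node
  (nat_lit 5) (nat_lit 147978) (nat_lit 11) nil (node (nat_lit 4) (nat_lit 150042) (nat_lit 11)
  nil nil)) (node (nat_lit 0) (nat_lit 148921) (nat_lit 10) nil nil)))) (node (nat_lit 5) (nat_lit
  0) (nat_lit 9) (node (nat_lit 0) (nat_lit 0) (nat_lit 10) (node (nat_lit 5) (nat_lit 147978)
  (nat_lit 11) (node (nat_lit 7) (nat_lit 148708) (nat_lit 12) (node (nat_lit 4) (nat_lit 147187)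
  (nat_lit 13) (node (nat_lit 5) (nat_lit 146019) (nat_lit 14) nil nil) nil) (node (nat_lit 4)
  (nat_lit 147249) (nat_lit 12) nil nil)) (node (nat_lit 7) (nat_lit 150042) (nat_lit 11) nil
  (node (nat_lit 4) (nat_lit 147978) (nat_lit 11) (node (nat_lit 5) (nat_lit 147249) (nat_lit 12)
  nil nil) (node (nat_lit 0) (nat_lit 150042) (nat_lit 11) nil nil)))) (node (nat_lit 4) (nat_lit
  0) (nat_lit 10) (node (nat_lit 0) (nat_lit 150042) (nat_lit 11) (node (nat_lit 5) (nat_lit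
  149313) (nat_lit 12) (node (nat_lit 4) (nat_lit 148770) (nat_lit 13) nil nil) nil) nil) nil))
  nil)) (node (nat_lit 0) (nat_lit 0) (nat_lit 8) (node (nat_lit 4) (nat_lit 148223) (nat_lit 9)
  (node (nat_lit 5) (nat_lit 146571) (nat_lit 10) (node (nat_lit 7) (nat_lit 146729) (nat_lit 11)
  nil nil) (node (nat_lit 7) (nat_lit 148287) (nat_lit 10) (node (nat_lit 4) (nat_lit 142806)
  (nat_lit 11) (node (nat_lit 5) (nat_lit 140300) (nat_lit 12) nil nil) nil) nil)) (node (nat_lit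
  5) (nat_lit 148223) (nat_lit 9) (node (nat_lit 7) (nat_lit 148287) (nat_lit 10) (node (nat_lit
  4) (nat_lit 145128) (nat_lit 11) (node (nat_lit 5) (nat_lit 133476) (nat_lit 12) nil nil) nil)
  (node (nat_lit 4) (nat_lit 146571) (nat_lit 10) nil nil)) (node (nat_lit 7) (nat_lit 148062)
  (nat_lit 9) (node (nat_lit 4) (nat_lit 149260) (nat_lit 10) nil (node (nat_lit 5) (nat_lit
  144534) (nat_lit 10) nil nil)) (node (nat_lit 0) (nat_lit 148243) (nat_lit 9) nil nil)))) nil)))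
  nil) (node (nat_lit 4) (nat_lit 0) (nat_lit 6) (node (nat_lit 5) (nat_lit 0) (nat_lit 7) (node
  (nat_lit 7) (nat_lit 0) (nat_lit 8) (node (nat_lit 4) (nat_lit 0) (nat_lit 9) (node (nat_lit 7)
  (nat_lit 0) (nat_lit 10) (node (nat_lit 0) (nat_lit 150042) (nat_lit 11) (node (nat_lit 4)
  (nat_lit 149313) (nat_lit 12) (node (nat_lit 7) (nat_lit 149827) (nat_lit 13) (node (nat_lit 4)
  (nat_lit 149521) (nat_lit 14) (node (nat_lit 5) (nat_lit 149877) (nat_lit 15) (node (nat_lit 4)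
  (nat_lit 147829) (nat_lit 16) nil nil) nil) nil) nil) (node (nat_lit 7) (nat_lit 150914)
  (nat_lit 12) nil nil)) nil) (node (nat_lit 0) (nat_lit 0) (nat_lit 10) (node (nat_lit 4)
  (nat_lit 0) (nat_lit 11) (node (nat_lit 7) (nat_lit 148708) (nat_lit 12) (node (nat_lit 4)
  (nat_lit 148930) (nat_lit 13) nil nil) (node (nat_lit 5) (nat_lit 147249) (nat_lit 12) (node
  (nat_lit 7) (nat_lit 147763) (nat_lit 13) nil nil) (node (nat_lit 0) (nat_lit 148851) (nat_lit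
  12) nil nil))) (node (nat_lit 7) (nat_lit 150042) (nat_lit 11) nil (node (nat_lit 5) (nat_lit
  147978) (nat_lit 11) (node (nat_lit 4) (nat_lit 147249) (nat_lit 12) nil nil) (node (nat_lit 0)
  (nat_lit 150042) (nat_lit 11) nil nil)))) (node (nat_lit 5) (nat_lit 0) (nat_lit 10) (node
  (nat_lit 0) (nat_lit 144903) (nat_lit 11) (node (nat_lit 4) (nat_lit 146679) (nat_lit 12) (node
  (nat_lit 5) (nat_lit 147779) (nat_lit 13) nil nil) nil) nil) nil))) (node (nat_lit 0) (nat_lit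
  0) (nat_lit 9) (node (nat_lit 4) (nat_lit 146348) (nat_lit 10) (node (nat_lit 7) (nat_lit
  146665) (nat_lit 11) (node (nat_lit 4) (nat_lit 144699) (nat_lit 12) (node (nat_lit 5) (nat_lit
  143069) (nat_lit 13) (node (nat_lit 4) (nat_lit 133776) (nat_lit 14) (node (nat_lit 7) (nat_lit
  129320) (nat_lit 15) nil nil) nil) nil) (node (nat_lit 5) (nat_lit 145111) (nat_lit 12) nil
  nil)) (node (nat_lit 5) (nat_lit 144496) (nat_lit 11) nil nil)) (node (nat_lit 7) (nat_lit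
  148921) (nat_lit 10) (node (nat_lit 5) (nat_lit 147458) (nat_lit 11) (node (nat_lit 7) (nat_lit
  148861) (nat_lit 12) nil nil) (node (nat_lit 4) (nat_lit 150042) (nat_lit 11) nil nil)) (node
  (nat_lit 5) (nat_lit 146348) (nat_lit 10) (node (nat_lit 7) (nat_lit 144552) (nat_lit 11) (node
  (nat_lit 4) (nat_lit 143885) (nat_lit 12) nil nil) (node (nat_lit 4) (nat_lit 145405) (nat_lit
  11) nil nil)) (node (nat_lit 0) (nat_lit 146549) (nat_lit 10) nil nil)))) (node (nat_lit 5)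
  (nat_lit 0) (nat_lit 9) (node (nat_lit 0) (nat_lit 0) (nat_lit 10) (node (nat_lit 5) (nat_lit
  147978) (nat_lit 11) (node (nat_lit 4) (nat_lit 147249) (nat_lit 12) (node (nat_lit 5) (nat_lit
  146707) (nat_lit 13) nil nil) (node (nat_lit 7) (nat_lit 146909) (nat_lit 12) (node (nat_lit 4)
  (nat_lit 147201) (nat_lit 13) nil nil) nil)) (node (nat_lit 7) (nat_lit 150042) (nat_lit 11) nil
  (node (nat_lit 4) (nat_lit 147978) (nat_lit 11) nil (node (nat_lit 0) (nat_lit 150042) (nat_lit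
  11) nil nil)))) (node (nat_lit 4) (nat_lit 0) (nat_lit 10) (node (nat_lit 0) (nat_lit 147468)
  (nat_lit 11) (node (nat_lit 5) (nat_lit 146740) (nat_lit 12) (node (nat_lit 4) (nat_lit 146197)
  (nat_lit 13) (node (nat_lit 7) (nat_lit 146582) (nat_lit 14) nil nil) nil) nil) nil) nil))
  nil))) (node (nat_lit 0) (nat_lit 0) (nat_lit 8) (node (nat_lit 5) (nat_lit 147643) (nat_lit 9)
  (node (nat_lit 7) (nat_lit 148287) (nat_lit 10) (node (nat_lit 4) (nat_lit 143446) (nat_lit 11)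
  (node (nat_lit 5) (nat_lit 137813) (nat_lit 12) nil nil) nil) (node (nat_lit 4) (nat_lit 146571)
  (nat_lit 10) (node (nat_lit 7) (nat_lit 144455) (nat_lit 11) (node (nat_lit 4) (nat_lit 142878)
  (nat_lit 12) nil nil) nil) nil)) (node (nat_lit 4) (nat_lit 147643) (nat_lit 9) (node (nat_lit
  7) (nat_lit 148287) (nat_lit 10) (node (nat_lit 4) (nat_lit 141352) (nat_lit 11) (node (nat_lit
  5) (nat_lit 138160) (nat_lit 12) nil nil) nil) (node (nat_lit 5) (nat_lit 146571) (nat_lit 10)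
  (node (nat_lit 7) (nat_lit 144455) (nat_lit 11) nil nil) nil)) (node (nat_lit 7) (nat_lit
  150387) (nat_lit 9) (node (nat_lit 4) (nat_lit 151532) (nat_lit 10) nil (node (nat_lit 5)
  (nat_lit 146860) (nat_lit 10) nil nil)) (node (nat_lit 0) (nat_lit 147095) (nat_lit 9) nil
  nil)))) nil)) nil) nil)) (node (nat_lit 4) (nat_lit 0) (nat_lit 5) (node (nat_lit 5) (nat_lit 0)
  (nat_lit 6) (node (nat_lit 7) (nat_lit 0) (nat_lit 7) (node (nat_lit 5) (nat_lit 0) (nat_lit 8)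
  (node (nat_lit 4) (nat_lit 0) (nat_lit 9) (node (nat_lit 0) (nat_lit 0) (nat_lit 10) (node
  (nat_lit 4) (nat_lit 0) (nat_lit 11) (node (nat_lit 5) (nat_lit 60138) (nat_lit 12) (node
  (nat_lit 7) (nat_lit 60970) (nat_lit 13) (node (nat_lit 4) (nat_lit 60115) (nat_lit 14) nil nil)
  (node (nat_lit 13) (nat_lit 61244) (nat_lit 13) nil nil)) (node (nat_lit 7) (nat_lit 62247)
  (nat_lit 12) (node (nat_lit 4) (nat_lit 62728) (nat_lit 13) (node (nat_lit 5) (nat_lit 57748)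
  (nat_lit 14) nil nil) (node (nat_lit 5) (nat_lit 61088) (nat_lit 13) nil nil)) (node (nat_lit 0)
  (nat_lit 62247) (nat_lit 12) nil nil))) (node (nat_lit 5) (nat_lit 59818) (nat_lit 11) (node
  (nat_lit 13) (nat_lit 61683) (nat_lit 12) (node (nat_lit 4) (nat_lit 60524) (nat_lit 13) nil
  nil) (node (nat_lit 4) (nat_lit 60138) (nat_lit 12) nil nil)) (node (nat_lit 7) (nat_lit 59818)
  (nat_lit 11) (node (nat_lit 4) (nat_lit 61683) (nat_lit 12) nil (node (nat_lit 13) (nat_lit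
  61683) (nat_lit 12) nil nil)) (node (nat_lit 0) (nat_lit 59818) (nat_lit 11) (node (nat_lit 4)
  (nat_lit 58263) (nat_lit 12) nil nil) nil)))) (node (nat_lit 5) (nat_lit 0) (nat_lit 10) (node
  (nat_lit 0) (nat_lit 59818) (nat_lit 11) (node (nat_lit 4) (nat_lit 62439) (nat_lit 12) (node
  (nat_lit 5) (nat_lit 63898) (nat_lit 13) (node (nat_lit 4) (nat_lit 64883) (nat_lit 14) (node
  (nat_lit 14) (nat_lit 65554) (nat_lit 15) (node (nat_lit 5) (nat_lit 65176) (nat_lit 16) nil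
  nil) (node (nat_lit 7) (nat_lit 63946) (nat_lit 15) nil nil)) (node (nat_lit 7) (nat_lit 65033)
  (nat_lit 14) (node (nat_lit 4) (nat_lit 65706) (nat_lit 15) nil nil) nil)) (node (nat_lit 14)
  (nat_lit 63898) (nat_lit 13) nil nil)) (node (nat_lit 5) (nat_lit 61683) (nat_lit 12) (node
  (nat_lit 4) (nat_lit 64049) (nat_lit 13) (node (nat_lit 14) (nat_lit 65185) (nat_lit 14) nil
  nil) nil) (node (nat_lit 7) (nat_lit 61683) (nat_lit 12) nil nil))) nil) (node (nat_lit 7)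
  (nat_lit 0) (nat_lit 10) (node (nat_lit 0) (nat_lit 59818) (nat_lit 11) (node (nat_lit 4)
  (nat_lit 62439) (nat_lit 12) (node (nat_lit 7) (nat_lit 63898) (nat_lit 13) (node (nat_lit 4)
  (nat_lit 64099) (nat_lit 14) (node (nat_lit 5) (nat_lit 60750) (nat_lit 15) nil nil) nil) nil)
  nil) nil) nil))) (node (nat_lit 0) (nat_lit 0) (nat_lit 9) (node (nat_lit 7) (nat_lit 50769)
  (nat_lit 10) (node (nat_lit 5) (nat_lit 53161) (nat_lit 11) (node (nat_lit 7) (nat_lit 55026)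
  (nat_lit 12) (node (nat_lit 4) (nat_lit 56841) (nat_lit 13) (node (nat_lit 5) (nat_lit 56259)
  (nat_lit 14) (node (nat_lit 4) (nat_lit 47256) (nat_lit 15) (node (nat_lit 7) (nat_lit 43684)
  (nat_lit 16) (node (nat_lit 4) (nat_lit 38421) (nat_lit 17) (node (nat_lit 5) (nat_lit 27596)
  (nat_lit 18) (node (nat_lit 7) (nat_lit 10321) (nat_lit 19) nil nil) nil) nil) nil) nil) nil)
  nil) (node (nat_lit 4) (nat_lit 51606) (nat_lit 12) nil nil)) (node (nat_lit 4) (nat_lit 58614)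
  (nat_lit 11) (node (nat_lit 5) (nat_lit 60479) (nat_lit 12) nil nil) (node (nat_lit 12) (nat_lit
  53161) (nat_lit 11) nil nil))) (node (nat_lit 4) (nat_lit 55774) (nat_lit 10) (node (nat_lit 5)
  (nat_lit 56470) (nat_lit 11) (node (nat_lit 7) (nat_lit 57888) (nat_lit 12) nil (node (nat_lit
  4) (nat_lit 55289) (nat_lit 12) (node (nat_lit 7) (nat_lit 56272) (nat_lit 13) nil nil) nil))
  (node (nat_lit 7) (nat_lit 58166) (nat_lit 11) (node (nat_lit 4) (nat_lit 59193) (nat_lit 12)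
  nil nil) (node (nat_lit 12) (nat_lit 58166) (nat_lit 11) nil nil))) (node (nat_lit 5) (nat_lit
  0) (nat_lit 10) (node (nat_lit 4) (nat_lit 56470) (nat_lit 11) nil (node (nat_lit 7) (nat_lit
  53161) (nat_lit 11) (node (nat_lit 4) (nat_lit 58232) (nat_lit 12) nil nil) (node (nat_lit 0)
  (nat_lit 53161) (nat_lit 11) nil nil))) (node (nat_lit 0) (nat_lit 55774) (nat_lit 10) (node
  (nat_lit 5) (nat_lit 54978) (nat_lit 11) nil (node (nat_lit 12) (nat_lit 58166) (nat_lit 11) nil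
  nil)) nil)))) nil)) (node (nat_lit 4) (nat_lit 0) (nat_lit 8) (node (nat_lit 0) (nat_lit 0)
  (nat_lit 9) (node (nat_lit 4) (nat_lit 57250) (nat_lit 10) (node (nat_lit 5) (nat_lit 56867)
  (nat_lit 11) (node (nat_lit 7) (nat_lit 58285) (nat_lit 12) nil nil) (node (nat_lit 7) (nat_lit
  59642) (nat_lit 11) (node (nat_lit 4) (nat_lit 59590) (nat_lit 12) (node (nat_lit 5) (nat_lit
  53863) (nat_lit 13) nil nil) nil) nil)) (node (nat_lit 5) (nat_lit 56527) (nat_lit 10) (node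
  (nat_lit 4) (nat_lit 56867) (nat_lit 11) (node (nat_lit 5) (nat_lit 55686) (nat_lit 12) nil
  (node (nat_lit 7) (nat_lit 58285) (nat_lit 12) (node (nat_lit 4) (nat_lit 57347) (nat_lit 13)
  nil nil) nil)) (node (nat_lit 7) (nat_lit 58919) (nat_lit 11) (node (nat_lit 4) (nat_lit 59590)
  (nat_lit 12) (node (nat_lit 5) (nat_lit 59788) (nat_lit 13) nil nil) nil) (node (nat_lit 12)
  (nat_lit 58919) (nat_lit 11) (node (nat_lit 4) (nat_lit 57365) (nat_lit 12) nil nil) nil)))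
  (node (nat_lit 7) (nat_lit 56527) (nat_lit 10) (node (nat_lit 4) (nat_lit 58919) (nat_lit 11)
  (node (nat_lit 7) (nat_lit 60785) (nat_lit 12) nil nil) (node (nat_lit 12) (nat_lit 58919)
  (nat_lit 11) (node (nat_lit 4) (nat_lit 57365) (nat_lit 12) nil nil) (node (nat_lit 5) (nat_lit
  58919) (nat_lit 11) nil nil))) (node (nat_lit 0) (nat_lit 57250) (nat_lit 10) (node (nat_lit 4)
  (nat_lit 55249) (nat_lit 11) nil (node (nat_lit 12) (nat_lit 59642) (nat_lit 11) nil nil))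
  nil)))) (node (nat_lit 7) (nat_lit 0) (nat_lit 9) (node (nat_lit 0) (nat_lit 0) (nat_lit 10)
  (node (nat_lit 7) (nat_lit 58919) (nat_lit 11) (node (nat_lit 4) (nat_lit 60785) (nat_lit 12)
  nil (node (nat_lit 5) (nat_lit 60785) (nat_lit 12) (node (nat_lit 7) (nat_lit 58464) (nat_lit
  13) nil nil) nil)) (node (nat_lit 4) (nat_lit 59890) (nat_lit 11) (node (nat_lit 7) (nat_lit
  61756) (nat_lit 12) (node (nat_lit 4) (nat_lit 57347) (nat_lit 13) nil nil) nil) (node (nat_lit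
  5) (nat_lit 58919) (nat_lit 11) nil (node (nat_lit 0) (nat_lit 58919) (nat_lit 11) nil nil))))
  (node (nat_lit 5) (nat_lit 0) (nat_lit 10) (node (nat_lit 0) (nat_lit 58919) (nat_lit 11) (node
  (nat_lit 7) (nat_lit 60785) (nat_lit 12) (node (nat_lit 5) (nat_lit 62243) (nat_lit 13) nil nil)
  (node (nat_lit 5) (nat_lit 60785) (nat_lit 12) nil nil)) nil) nil)) nil)) (node (nat_lit 0)
  (nat_lit 0) (nat_lit 8) (node (nat_lit 4) (nat_lit 60751) (nat_lit 9) (node (nat_lit 5) (nat_lit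
  58351) (nat_lit 10) (node (nat_lit 7) (nat_lit 58312) (nat_lit 11) (node (nat_lit 4) (nat_lit
  55779) (nat_lit 12) nil nil) nil) (node (nat_lit 7) (nat_lit 61112) (nat_lit 10) (node (nat_lit
  4) (nat_lit 59240) (nat_lit 11) nil nil) nil)) (node (nat_lit 5) (nat_lit 55146) (nat_lit 9)
  (node (nat_lit 7) (nat_lit 56344) (nat_lit 10) (node (nat_lit 4) (nat_lit 58554) (nat_lit 11)
  (node (nat_lit 5) (nat_lit 53486) (nat_lit 12) nil nil) nil) (node (nat_lit 4) (nat_lit 58351)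
  (nat_lit 10) (node (nat_lit 7) (nat_lit 58298) (nat_lit 11) nil nil) (node (nat_lit 11) (nat_lit
  56344) (nat_lit 10) nil nil))) (node (nat_lit 7) (nat_lit 55146) (nat_lit 9) (node (nat_lit 4)
  (nat_lit 61350) (nat_lit 10) nil (node (nat_lit 5) (nat_lit 56344) (nat_lit 10) (node (nat_lit
  4) (nat_lit 53541) (nat_lit 11) nil (node (nat_lit 7) (nat_lit 57399) (nat_lit 11) nil nil))
  nil)) (node (nat_lit 0) (nat_lit 60419) (nat_lit 9) nil nil)))) nil))) nil) nil) nil))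

noncomputable def c73 : Tr :=
  (node (nat_lit 3) (nat_lit 0) (nat_lit 1) (node (nat_lit 3) (nat_lit 0) (nat_lit 2) (node
  (nat_lit 3) (nat_lit 0) (nat_lit 3) (node (nat_lit 4) (nat_lit 0) (nat_lit 4) t447 (node
  (nat_lit 5) (nat_lit 0) (nat_lit 4) (node (nat_lit 4) (nat_lit 0) (nat_lit 5) t448 nil) nil))
  (node (nat_lit 4) (nat_lit 0) (nat_lit 3) (node (nat_lit 3) (nat_lit 0) (nat_lit 4) t449 nil)
  nil)) nil) nil)

noncomputable def t450 : Tr :=
  (node (nat_lit 5) (nat_lit 0) (nat_lit 4) (node (nat_lit 0) (nat_lit 0) (nat_lit 5) (node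
  (nat_lit 6) (nat_lit 0) (nat_lit 6) (node (nat_lit 4) (nat_lit 67463) (nat_lit 7) (node (nat_lit
  5) (nat_lit 66963) (nat_lit 8) (node (nat_lit 6) (nat_lit 66772) (nat_lit 9) (node (nat_lit 4)
  (nat_lit 67753) (nat_lit 10) (node (nat_lit 6) (nat_lit 67576) (nat_lit 11) nil nil) (node
  (nat_lit 5) (nat_lit 66772) (nat_lit 10) nil nil)) (node (nat_lit 4) (nat_lit 66963) (nat_lit 9)
  (node (nat_lit 6) (nat_lit 66963) (nat_lit 10) nil nil) nil)) (node (nat_lit 6) (nat_lit 69289)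
  (nat_lit 8) (node (nat_lit 5) (nat_lit 69937) (nat_lit 9) (node (nat_lit 4) (nat_lit 70846)
  (nat_lit 10) (node (nat_lit 5) (nat_lit 73291) (nat_lit 11) (node (nat_lit 6) (nat_lit 74566)
  (nat_lit 12) (node (nat_lit 5) (nat_lit 75550) (nat_lit 13) (node (nat_lit 8) (nat_lit 55698)
  (nat_lit 14) (node (nat_lit 6) (nat_lit 39676) (nat_lit 15) nil nil) nil) nil) nil) nil) nil)
  nil) (node (nat_lit 8) (nat_lit 74449) (nat_lit 8) nil nil))) (node (nat_lit 5) (nat_lit 0)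
  (nat_lit 7) (node (nat_lit 6) (nat_lit 71545) (nat_lit 8) (node (nat_lit 4) (nat_lit 71734)
  (nat_lit 9) (node (nat_lit 5) (nat_lit 74341) (nat_lit 10) (node (nat_lit 4) (nat_lit 77221)
  (nat_lit 11) (node (nat_lit 6) (nat_lit 74868) (nat_lit 12) (node (nat_lit 4) (nat_lit 75161)
  (nat_lit 13) (node (nat_lit 5) (nat_lit 73527) (nat_lit 14) (node (nat_lit 6) (nat_lit 71320)
  (nat_lit 15) (node (nat_lit 5) (nat_lit 67667) (nat_lit 16) nil nil) nil) nil) nil) nil) nil)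
  (node (nat_lit 6) (nat_lit 71860) (nat_lit 10) nil nil)) (node (nat_lit 8) (nat_lit 81459)
  (nat_lit 9) nil nil)) (node (nat_lit 4) (nat_lit 70278) (nat_lit 8) nil (node (nat_lit 0)
  (nat_lit 72964) (nat_lit 8) nil nil))) (node (nat_lit 8) (nat_lit 80072) (nat_lit 7) (node
  (nat_lit 5) (nat_lit 80072) (nat_lit 8) nil nil) (node (nat_lit 0) (nat_lit 72498) (nat_lit 7)
  nil nil)))) (node (nat_lit 4) (nat_lit 0) (nat_lit 6) (node (nat_lit 5) (nat_lit 0) (nat_lit 7)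
  (node (nat_lit 4) (nat_lit 72146) (nat_lit 8) (node (nat_lit 6) (nat_lit 73168) (nat_lit 9)
  (node (nat_lit 5) (nat_lit 74791) (nat_lit 10) nil (node (nat_lit 4) (nat_lit 73168) (nat_lit
  10) nil nil)) (node (nat_lit 8) (nat_lit 82061) (nat_lit 9) nil nil)) (node (nat_lit 6) (nat_lit
  69473) (nat_lit 8) (node (nat_lit 4) (nat_lit 69473) (nat_lit 9) nil nil) (node (nat_lit 8)
  (nat_lit 78509) (nat_lit 8) nil (node (nat_lit 0) (nat_lit 72872) (nat_lit 8) nil nil)))) (node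
  (nat_lit 6) (nat_lit 67619) (nat_lit 7) (node (nat_lit 5) (nat_lit 68708) (nat_lit 8) (node
  (nat_lit 4) (nat_lit 69490) (nat_lit 9) (node (nat_lit 5) (nat_lit 70802) (nat_lit 10) (node
  (nat_lit 6) (nat_lit 72792) (nat_lit 11) (node (nat_lit 5) (nat_lit 74214) (nat_lit 12) (node
  (nat_lit 8) (nat_lit 40703) (nat_lit 13) nil nil) nil) nil) nil) (node (nat_lit 6) (nat_lit
  68708) (nat_lit 9) nil nil)) (node (nat_lit 4) (nat_lit 68648) (nat_lit 8) (node (nat_lit 5)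
  (nat_lit 69564) (nat_lit 9) (node (nat_lit 6) (nat_lit 72095) (nat_lit 10) (node (nat_lit 5)
  (nat_lit 73795) (nat_lit 11) nil nil) (node (nat_lit 4) (nat_lit 69564) (nat_lit 10) nil nil))
  nil) (node (nat_lit 8) (nat_lit 76655) (nat_lit 8) nil nil))) (node (nat_lit 8) (nat_lit 80928)
  (nat_lit 7) (node (nat_lit 5) (nat_lit 80928) (nat_lit 8) nil nil) (node (nat_lit 0) (nat_lit
  75602) (nat_lit 7) nil nil)))) (node (nat_lit 5) (nat_lit 0) (nat_lit 6) (node (nat_lit 6)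
  (nat_lit 0) (nat_lit 7) (node (nat_lit 4) (nat_lit 65529) (nat_lit 8) (node (nat_lit 6) (nat_lit
  65529) (nat_lit 9) (node (nat_lit 5) (nat_lit 65529) (nat_lit 10) nil nil) (node (nat_lit 5)
  (nat_lit 65529) (nat_lit 9) (node (nat_lit 4) (nat_lit 65529) (nat_lit 10) nil nil) nil)) (node
  (nat_lit 5) (nat_lit 65529) (nat_lit 8) (node (nat_lit 4) (nat_lit 65529) (nat_lit 9) nil nil)
  (node (nat_lit 8) (nat_lit 74566) (nat_lit 8) nil (node (nat_lit 0) (nat_lit 68929) (nat_lit 8)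
  nil nil)))) (node (nat_lit 4) (nat_lit 0) (nat_lit 7) (node (nat_lit 6) (nat_lit 65529) (nat_lit
  8) (node (nat_lit 5) (nat_lit 65529) (nat_lit 9) nil (node (nat_lit 4) (nat_lit 65168) (nat_lit
  9) (node (nat_lit 5) (nat_lit 66959) (nat_lit 10) (node (nat_lit 6) (nat_lit 67554) (nat_lit 11)
  (node (nat_lit 5) (nat_lit 68204) (nat_lit 12) (node (nat_lit 8) (nat_lit 45775) (nat_lit 13)
  nil nil) nil) nil) nil) nil)) (node (nat_lit 5) (nat_lit 65529) (nat_lit 8) (node (nat_lit 6)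
  (nat_lit 65529) (nat_lit 9) (node (nat_lit 4) (nat_lit 65529) (nat_lit 10) nil (node (nat_lit 5)
  (nat_lit 65529) (nat_lit 10) (node (nat_lit 8) (nat_lit 36881) (nat_lit 11) nil nil) nil)) (node
  (nat_lit 8) (nat_lit 69336) (nat_lit 9) nil nil)) (node (nat_lit 8) (nat_lit 72515) (nat_lit 8)
  nil (node (nat_lit 0) (nat_lit 68929) (nat_lit 8) nil nil)))) (node (nat_lit 0) (nat_lit 74554)
  (nat_lit 7) nil nil))) (node (nat_lit 0) (nat_lit 0) (nat_lit 6) (node (nat_lit 8) (nat_lit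
  77711) (nat_lit 7) nil (node (nat_lit 5) (nat_lit 74440) (nat_lit 7) (node (nat_lit 9) (nat_lit
  76140) (nat_lit 8) nil nil) (node (nat_lit 6) (nat_lit 74440) (nat_lit 7) nil (node (nat_lit 4)
  (nat_lit 74440) (nat_lit 7) nil (node (nat_lit 0) (nat_lit 75319) (nat_lit 7) nil nil)))))
  nil)))) (node (nat_lit 4) (nat_lit 0) (nat_lit 5) (node (nat_lit 0) (nat_lit 0) (nat_lit 6)
  (node (nat_lit 4) (nat_lit 0) (nat_lit 7) (node (nat_lit 5) (nat_lit 67031) (nat_lit 8) (node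
  (nat_lit 6) (nat_lit 69511) (nat_lit 9) (node (nat_lit 4) (nat_lit 69385) (nat_lit 10) (node
  (nat_lit 5) (nat_lit 69609) (nat_lit 11) (node (nat_lit 4) (nat_lit 69735) (nat_lit 12) nil nil)
  (node (nat_lit 6) (nat_lit 70301) (nat_lit 11) (node (nat_lit 5) (nat_lit 70428) (nat_lit 12)
  nil nil) (node (nat_lit 9) (nat_lit 73553) (nat_lit 11) nil nil))) (node (nat_lit 5) (nat_lit
  70508) (nat_lit 10) (node (nat_lit 4) (nat_lit 70508) (nat_lit 11) nil (node (nat_lit 9)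
  (nat_lit 74676) (nat_lit 11) nil nil)) (node (nat_lit 9) (nat_lit 75951) (nat_lit 10) nil (node
  (nat_lit 0) (nat_lit 75951) (nat_lit 10) nil nil)))) (node (nat_lit 4) (nat_lit 69346) (nat_lit
  9) (node (nat_lit 6) (nat_lit 69346) (nat_lit 10) nil (node (nat_lit 9) (nat_lit 78756) (nat_lit
  10) nil nil)) (node (nat_lit 9) (nat_lit 79992) (nat_lit 9) (node (nat_lit 4) (nat_lit 79992)
  (nat_lit 10) nil nil) (node (nat_lit 0) (nat_lit 75475) (nat_lit 9) nil nil)))) (node (nat_lit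
  6) (nat_lit 66448) (nat_lit 8) (node (nat_lit 5) (nat_lit 67999) (nat_lit 9) (node (nat_lit 4)
  (nat_lit 69268) (nat_lit 10) (node (nat_lit 5) (nat_lit 69268) (nat_lit 11) nil (node (nat_lit
  6) (nat_lit 69268) (nat_lit 11) nil nil)) (node (nat_lit 6) (nat_lit 68708) (nat_lit 10) (node
  (nat_lit 4) (nat_lit 68708) (nat_lit 11) nil (node (nat_lit 9) (nat_lit 72875) (nat_lit 11) nil
  nil)) (node (nat_lit 0) (nat_lit 74439) (nat_lit 10) nil (node (nat_lit 9) (nat_lit 74439)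
  (nat_lit 10) nil nil)))) (node (nat_lit 4) (nat_lit 68076) (nat_lit 9) (node (nat_lit 5)
  (nat_lit 68740) (nat_lit 10) (node (nat_lit 6) (nat_lit 68740) (nat_lit 11) nil nil) (node
  (nat_lit 9) (nat_lit 75347) (nat_lit 10) nil (node (nat_lit 0) (nat_lit 71972) (nat_lit 10) nil
  nil))) (node (nat_lit 9) (nat_lit 77601) (nat_lit 9) nil (node (nat_lit 0) (nat_lit 76610)
  (nat_lit 9) nil nil)))) (node (nat_lit 0) (nat_lit 76337) (nat_lit 8) (node (nat_lit 9) (nat_lit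
  77052) (nat_lit 9) nil nil) nil))) (node (nat_lit 5) (nat_lit 0) (nat_lit 7) (node (nat_lit 9)
  (nat_lit 76139) (nat_lit 8) (node (nat_lit 4) (nat_lit 76139) (nat_lit 9) (node (nat_lit 9)
  (nat_lit 77743) (nat_lit 10) nil nil) nil) (node (nat_lit 4) (nat_lit 66482) (nat_lit 8) (node
  (nat_lit 5) (nat_lit 66482) (nat_lit 9) (node (nat_lit 9) (nat_lit 74370) (nat_lit 10) (node
  (nat_lit 4) (nat_lit 74370) (nat_lit 11) nil nil) nil) nil) (node (nat_lit 6) (nat_lit 63601)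
  (nat_lit 8) nil (node (nat_lit 0) (nat_lit 68437) (nat_lit 8) nil nil)))) (node (nat_lit 6)
  (nat_lit 64406) (nat_lit 7) (node (nat_lit 4) (nat_lit 64406) (nat_lit 8) (node (nat_lit 6)
  (nat_lit 64406) (nat_lit 9) (node (nat_lit 9) (nat_lit 68301) (nat_lit 10) nil nil) nil) (node
  (nat_lit 9) (nat_lit 73933) (nat_lit 8) (node (nat_lit 4) (nat_lit 73933) (nat_lit 9) nil nil)
  nil)) (node (nat_lit 0) (nat_lit 70988) (nat_lit 7) (node (nat_lit 4) (nat_lit 70988) (nat_lit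
  8) (node (nat_lit 9) (nat_lit 73975) (nat_lit 9) nil nil) (node (nat_lit 9) (nat_lit 73652)
  (nat_lit 8) (node (nat_lit 4) (nat_lit 73652) (nat_lit 9) nil nil) nil)) nil)))) (node (nat_lit
  5) (nat_lit 0) (nat_lit 6) (node (nat_lit 0) (nat_lit 0) (nat_lit 7) (node (nat_lit 4) (nat_lit
  35836) (nat_lit 8) (node (nat_lit 5) (nat_lit 38048) (nat_lit 9) (node (nat_lit 4) (nat_lit
  40584) (nat_lit 10) (node (nat_lit 6) (nat_lit 42364) (nat_lit 11) (node (nat_lit 5) (nat_lit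
  44113) (nat_lit 12) (node (nat_lit 4) (nat_lit 45457) (nat_lit 13) nil (node (nat_lit 6)
  (nat_lit 45492) (nat_lit 13) nil nil)) (node (nat_lit 4) (nat_lit 44213) (nat_lit 12) (node
  (nat_lit 5) (nat_lit 44957) (nat_lit 13) nil nil) (node (nat_lit 10) (nat_lit 46665) (nat_lit
  12) nil (node (nat_lit 0) (nat_lit 45739) (nat_lit 12) nil nil)))) (node (nat_lit 10) (nat_lit
  47311) (nat_lit 11) (node (nat_lit 5) (nat_lit 47311) (nat_lit 12) (node (nat_lit 4) (nat_lit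
  47311) (nat_lit 13) (node (nat_lit 5) (nat_lit 47311) (nat_lit 14) nil nil) (node (nat_lit 10)
  (nat_lit 47311) (nat_lit 13) (node (nat_lit 4) (nat_lit 47311) (nat_lit 14) nil nil) (node
  (nat_lit 6) (nat_lit 47311) (nat_lit 13) nil nil))) (node (nat_lit 4) (nat_lit 47311) (nat_lit
  12) (node (nat_lit 5) (nat_lit 47311) (nat_lit 13) (node (nat_lit 10) (nat_lit 47311) (nat_lit
  14) nil nil) (node (nat_lit 6) (nat_lit 47311) (nat_lit 13) nil nil)) (node (nat_lit 6) (nat_lit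
  47311) (nat_lit 12) nil (node (nat_lit 0) (nat_lit 47311) (nat_lit 12) nil nil)))) (node
  (nat_lit 0) (nat_lit 47168) (nat_lit 11) nil nil))) (node (nat_lit 6) (nat_lit 40846) (nat_lit
  10) (node (nat_lit 4) (nat_lit 42476) (nat_lit 11) (node (nat_lit 6) (nat_lit 44490) (nat_lit
  12) (node (nat_lit 5) (nat_lit 45823) (nat_lit 13) (node (nat_lit 6) (nat_lit 46540) (nat_lit
  14) nil nil) nil) (node (nat_lit 5) (nat_lit 44259) (nat_lit 12) (node (nat_lit 4) (nat_lit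
  44737) (nat_lit 13) nil nil) (node (nat_lit 10) (nat_lit 47263) (nat_lit 12) nil nil))) (node
  (nat_lit 5) (nat_lit 42461) (nat_lit 11) (node (nat_lit 4) (nat_lit 44032) (nat_lit 12) (node
  (nat_lit 6) (nat_lit 44984) (nat_lit 13) nil (node (nat_lit 5) (nat_lit 45123) (nat_lit 13) nil
  nil)) (node (nat_lit 10) (nat_lit 45836) (nat_lit 12) nil (node (nat_lit 0) (nat_lit 44095)
  (nat_lit 12) nil nil))) (node (nat_lit 10) (nat_lit 47311) (nat_lit 11) nil (node (nat_lit 0)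
  (nat_lit 46925) (nat_lit 11) nil nil)))) (node (nat_lit 0) (nat_lit 45520) (nat_lit 10) (node
  (nat_lit 5) (nat_lit 45520) (nat_lit 11) nil (node (nat_lit 4) (nat_lit 45520) (nat_lit 11) nil
  nil)) nil))) (node (nat_lit 10) (nat_lit 43795) (nat_lit 9) (node (nat_lit 5) (nat_lit 43795)
  (nat_lit 10) (node (nat_lit 4) (nat_lit 43795) (nat_lit 11) nil nil) nil) (node (nat_lit 6)
  (nat_lit 35836) (nat_lit 9) nil nil))) (node (nat_lit 5) (nat_lit 35721) (nat_lit 8) (node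
  (nat_lit 4) (nat_lit 37956) (nat_lit 9) (node (nat_lit 10) (nat_lit 46117) (nat_lit 10) (node
  (nat_lit 4) (nat_lit 46117) (nat_lit 11) (node (nat_lit 5) (nat_lit 46117) (nat_lit 12) (node
  (nat_lit 10) (nat_lit 46505) (nat_lit 13) nil nil) nil) nil) nil) nil) (node (nat_lit 6)
  (nat_lit 36251) (nat_lit 8) (node (nat_lit 5) (nat_lit 36251) (nat_lit 9) nil nil) (node
  (nat_lit 0) (nat_lit 37356) (nat_lit 8) nil nil)))) nil) (node (nat_lit 6) (nat_lit 0) (nat_lit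
  6) (node (nat_lit 0) (nat_lit 67077) (nat_lit 7) (node (nat_lit 4) (nat_lit 68073) (nat_lit 8)
  (node (nat_lit 6) (nat_lit 68073) (nat_lit 9) (node (nat_lit 5) (nat_lit 68073) (nat_lit 10)
  (node (nat_lit 10) (nat_lit 70618) (nat_lit 11) nil nil) (node (nat_lit 4) (nat_lit 68073)
  (nat_lit 10) (node (nat_lit 5) (nat_lit 68073) (nat_lit 11) nil (node (nat_lit 10) (nat_lit
  72159) (nat_lit 11) nil (node (nat_lit 0) (nat_lit 70618) (nat_lit 11) nil nil))) (node (nat_lit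
  0) (nat_lit 72342) (nat_lit 10) nil nil))) nil) (node (nat_lit 6) (nat_lit 67077) (nat_lit 8)
  nil nil)) nil) nil))) nil)) (node (nat_lit 0) (nat_lit 0) (nat_lit 4) (node (nat_lit 5) (nat_lit
  0) (nat_lit 5) (node (nat_lit 4) (nat_lit 74795) (nat_lit 6) (node (nat_lit 6) (nat_lit 0)
  (nat_lit 7) (node (nat_lit 5) (nat_lit 80322) (nat_lit 8) (node (nat_lit 6) (nat_lit 80322)
  (nat_lit 9) nil (node (nat_lit 4) (nat_lit 80322) (nat_lit 9) nil nil)) (node (nat_lit 4)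
  (nat_lit 80461) (nat_lit 8) (node (nat_lit 5) (nat_lit 82149) (nat_lit 9) (node (nat_lit 6)
  (nat_lit 86132) (nat_lit 10) (node (nat_lit 5) (nat_lit 87831) (nat_lit 11) (node (nat_lit 4)
  (nat_lit 87298) (nat_lit 12) (node (nat_lit 5) (nat_lit 87296) (nat_lit 13) (node (nat_lit 6)
  (nat_lit 85210) (nat_lit 14) nil nil) nil) nil) (node (nat_lit 7) (nat_lit 60391) (nat_lit 11)
  nil nil)) nil) nil) (node (nat_lit 7) (nat_lit 84773) (nat_lit 8) nil (node (nat_lit 0) (nat_lit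
  84773) (nat_lit 8) nil nil)))) (node (nat_lit 5) (nat_lit 77296) (nat_lit 7) (node (nat_lit 6)
  (nat_lit 77380) (nat_lit 8) (node (nat_lit 4) (nat_lit 79080) (nat_lit 9) nil (node (nat_lit 5)
  (nat_lit 77380) (nat_lit 9) nil nil)) (node (nat_lit 7) (nat_lit 87607) (nat_lit 8) nil nil))
  (node (nat_lit 7) (nat_lit 83878) (nat_lit 7) nil nil))) (node (nat_lit 6) (nat_lit 73543)
  (nat_lit 6) (node (nat_lit 4) (nat_lit 77914) (nat_lit 7) (node (nat_lit 5) (nat_lit 78860)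
  (nat_lit 8) (node (nat_lit 4) (nat_lit 79501) (nat_lit 9) (node (nat_lit 6) (nat_lit 79949)
  (nat_lit 10) nil nil) (node (nat_lit 6) (nat_lit 80559) (nat_lit 9) (node (nat_lit 5) (nat_lit
  83665) (nat_lit 10) nil nil) nil)) (node (nat_lit 6) (nat_lit 79257) (nat_lit 8) (node (nat_lit
  5) (nat_lit 80866) (nat_lit 9) (node (nat_lit 4) (nat_lit 82039) (nat_lit 10) nil (node (nat_lit
  6) (nat_lit 83972) (nat_lit 10) nil nil)) nil) (node (nat_lit 7) (nat_lit 88225) (nat_lit 8) nil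
  nil))) (node (nat_lit 5) (nat_lit 76755) (nat_lit 7) (node (nat_lit 4) (nat_lit 77472) (nat_lit
  8) (node (nat_lit 6) (nat_lit 77472) (nat_lit 9) nil (node (nat_lit 5) (nat_lit 77472) (nat_lit
  9) nil nil)) (node (nat_lit 7) (nat_lit 87066) (nat_lit 8) nil nil)) nil)) (node (nat_lit 7)
  (nat_lit 86310) (nat_lit 6) (node (nat_lit 6) (nat_lit 86310) (nat_lit 7) nil (node (nat_lit 4)
  (nat_lit 86310) (nat_lit 7) nil nil)) (node (nat_lit 0) (nat_lit 76414) (nat_lit 6) nil nil))))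
  (node (nat_lit 4) (nat_lit 0) (nat_lit 5) (node (nat_lit 6) (nat_lit 74514) (nat_lit 6) (node
  (nat_lit 5) (nat_lit 77512) (nat_lit 7) (node (nat_lit 6) (nat_lit 79427) (nat_lit 8) (node
  (nat_lit 4) (nat_lit 79324) (nat_lit 9) (node (nat_lit 5) (nat_lit 81971) (nat_lit 10) nil (node
  (nat_lit 6) (nat_lit 79772) (nat_lit 10) nil nil)) nil) (node (nat_lit 4) (nat_lit 79674)
  (nat_lit 8) (node (nat_lit 5) (nat_lit 81779) (nat_lit 9) (node (nat_lit 6) (nat_lit 85762)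
  (nat_lit 10) (node (nat_lit 4) (nat_lit 87461) (nat_lit 11) nil (node (nat_lit 7) (nat_lit
  55705) (nat_lit 11) nil nil)) nil) (node (nat_lit 6) (nat_lit 79674) (nat_lit 9) nil nil)) (node
  (nat_lit 7) (nat_lit 87823) (nat_lit 8) nil nil))) (node (nat_lit 4) (nat_lit 77394) (nat_lit 7)
  (node (nat_lit 5) (nat_lit 78303) (nat_lit 8) (node (nat_lit 6) (nat_lit 78303) (nat_lit 9) nil
  (node (nat_lit 4) (nat_lit 78303) (nat_lit 9) nil nil)) (node (nat_lit 7) (nat_lit 87706)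
  (nat_lit 8) nil nil)) (node (nat_lit 7) (nat_lit 83597) (nat_lit 7) nil nil))) (node (nat_lit 5)
  (nat_lit 74444) (nat_lit 6) (node (nat_lit 6) (nat_lit 77521) (nat_lit 7) (node (nat_lit 5)
  (nat_lit 79081) (nat_lit 8) (node (nat_lit 4) (nat_lit 80780) (nat_lit 9) (node (nat_lit 6)
  (nat_lit 83886) (nat_lit 10) nil nil) nil) (node (nat_lit 4) (nat_lit 79267) (nat_lit 8) (node
  (nat_lit 6) (nat_lit 79665) (nat_lit 9) (node (nat_lit 5) (nat_lit 79959) (nat_lit 10) nil nil)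
  (node (nat_lit 5) (nat_lit 79090) (nat_lit 9) nil nil)) nil)) (node (nat_lit 4) (nat_lit 77186)
  (nat_lit 7) (node (nat_lit 6) (nat_lit 78094) (nat_lit 8) (node (nat_lit 5) (nat_lit 78094)
  (nat_lit 9) nil nil) (node (nat_lit 7) (nat_lit 83691) (nat_lit 8) nil nil)) (node (nat_lit 7)
  (nat_lit 83995) (nat_lit 7) nil nil))) (node (nat_lit 7) (nat_lit 86368) (nat_lit 6) (node
  (nat_lit 5) (nat_lit 86368) (nat_lit 7) nil (node (nat_lit 6) (nat_lit 86368) (nat_lit 7) nil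
  nil)) (node (nat_lit 0) (nat_lit 77161) (nat_lit 6) nil nil)))) (node (nat_lit 6) (nat_lit 0)
  (nat_lit 5) (node (nat_lit 5) (nat_lit 74090) (nat_lit 6) (node (nat_lit 4) (nat_lit 76337)
  (nat_lit 7) (node (nat_lit 5) (nat_lit 78178) (nat_lit 8) (node (nat_lit 6) (nat_lit 80123)
  (nat_lit 9) (node (nat_lit 4) (nat_lit 83229) (nat_lit 10) nil (node (nat_lit 5) (nat_lit 83229)
  (nat_lit 10) nil (node (nat_lit 7) (nat_lit 45415) (nat_lit 10) (node (nat_lit 6) (nat_lit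
  45415) (nat_lit 11) nil nil) nil))) (node (nat_lit 7) (nat_lit 85090) (nat_lit 9) nil nil))
  (node (nat_lit 6) (nat_lit 78390) (nat_lit 8) (node (nat_lit 4) (nat_lit 80090) (nat_lit 9)
  (node (nat_lit 5) (nat_lit 83195) (nat_lit 10) nil nil) (node (nat_lit 5) (nat_lit 80090)
  (nat_lit 9) (node (nat_lit 6) (nat_lit 83195) (nat_lit 10) nil nil) nil)) (node (nat_lit 7)
  (nat_lit 82841) (nat_lit 8) nil nil))) (node (nat_lit 6) (nat_lit 76571) (nat_lit 7) (node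
  (nat_lit 4) (nat_lit 76713) (nat_lit 8) (node (nat_lit 5) (nat_lit 78797) (nat_lit 9) (node
  (nat_lit 6) (nat_lit 79245) (nat_lit 10) nil (node (nat_lit 4) (nat_lit 79090) (nat_lit 10) nil
  nil)) (node (nat_lit 6) (nat_lit 76713) (nat_lit 9) nil nil)) (node (nat_lit 7) (nat_lit 83075)
  (nat_lit 8) nil nil)) (node (nat_lit 7) (nat_lit 83173) (nat_lit 7) nil nil))) (node (nat_lit 4)
  (nat_lit 74951) (nat_lit 6) (node (nat_lit 5) (nat_lit 79099) (nat_lit 7) (node (nat_lit 6)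
  (nat_lit 79992) (nat_lit 8) (node (nat_lit 5) (nat_lit 82289) (nat_lit 9) (node (nat_lit 4)
  (nat_lit 86272) (nat_lit 10) (node (nat_lit 6) (nat_lit 87191) (nat_lit 11) (node (nat_lit 4)
  (nat_lit 87128) (nat_lit 12) (node (nat_lit 5) (nat_lit 85020) (nat_lit 13) nil nil) nil) nil)
  nil) (node (nat_lit 4) (nat_lit 81692) (nat_lit 9) (node (nat_lit 6) (nat_lit 82140) (nat_lit
  10) nil nil) (node (nat_lit 7) (nat_lit 41787) (nat_lit 9) nil nil))) (node (nat_lit 4) (nat_lit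
  79688) (nat_lit 8) (node (nat_lit 6) (nat_lit 81576) (nat_lit 9) (node (nat_lit 5) (nat_lit
  85367) (nat_lit 10) (node (nat_lit 6) (nat_lit 82867) (nat_lit 11) nil nil) (node (nat_lit 4)
  (nat_lit 84681) (nat_lit 10) nil nil)) nil) (node (nat_lit 7) (nat_lit 85604) (nat_lit 8) nil
  nil))) (node (nat_lit 6) (nat_lit 76947) (nat_lit 7) (node (nat_lit 5) (nat_lit 78604) (nat_lit
  8) (node (nat_lit 4) (nat_lit 78604) (nat_lit 9) nil (node (nat_lit 6) (nat_lit 78604) (nat_lit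
  9) nil nil)) (node (nat_lit 7) (nat_lit 83451) (nat_lit 8) nil nil)) (node (nat_lit 7) (nat_lit
  84034) (nat_lit 7) nil nil))) (node (nat_lit 0) (nat_lit 72321) (nat_lit 6) nil nil))) (node
  (nat_lit 0) (nat_lit 80758) (nat_lit 5) (node (nat_lit 4) (nat_lit 80758) (nat_lit 6) nil (node
  (nat_lit 5) (nat_lit 80758) (nat_lit 6) nil (node (nat_lit 0) (nat_lit 82457) (nat_lit 6) nil
  (node (nat_lit 7) (nat_lit 82457) (nat_lit 6) nil nil)))) nil)))) nil))

noncomputable def t451 : Tr :=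
  (node (nat_lit 3) (nat_lit 0) (nat_lit 4) (node (nat_lit 0) (nat_lit 0) (nat_lit 5) (node
  (nat_lit 5) (nat_lit 0) (nat_lit 6) (node (nat_lit 7) (nat_lit 0) (nat_lit 7) (node (nat_lit 5)
  (nat_lit 47394) (nat_lit 8) (node (nat_lit 4) (nat_lit 50719) (nat_lit 9) (node (nat_lit 7)
  (nat_lit 51559) (nat_lit 10) nil (node (nat_lit 5) (nat_lit 52342) (nat_lit 10) nil nil)) (node
  (nat_lit 8) (nat_lit 54941) (nat_lit 9) nil (node (nat_lit 0) (nat_lit 49400) (nat_lit 9) nil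
  nil))) (node (nat_lit 4) (nat_lit 45030) (nat_lit 8) (node (nat_lit 5) (nat_lit 46279) (nat_lit
  9) nil (node (nat_lit 7) (nat_lit 45918) (nat_lit 9) (node (nat_lit 5) (nat_lit 45918) (nat_lit
  10) nil nil) nil)) (node (nat_lit 8) (nat_lit 54385) (nat_lit 8) (node (nat_lit 7) (nat_lit
  54385) (nat_lit 9) nil nil) (node (nat_lit 0) (nat_lit 45942) (nat_lit 8) nil nil)))) (node
  (nat_lit 4) (nat_lit 0) (nat_lit 7) (node (nat_lit 7) (nat_lit 47144) (nat_lit 8) (node (nat_lit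
  5) (nat_lit 48363) (nat_lit 9) (node (nat_lit 4) (nat_lit 48489) (nat_lit 10) nil nil) (node
  (nat_lit 4) (nat_lit 47144) (nat_lit 9) nil nil)) (node (nat_lit 5) (nat_lit 45185) (nat_lit 8)
  (node (nat_lit 7) (nat_lit 45595) (nat_lit 9) (node (nat_lit 4) (nat_lit 45595) (nat_lit 10) nil
  nil) nil) (node (nat_lit 8) (nat_lit 53490) (nat_lit 8) nil (node (nat_lit 0) (nat_lit 46326)
  (nat_lit 8) nil nil)))) (node (nat_lit 8) (nat_lit 54249) (nat_lit 7) (node (nat_lit 7) (nat_lit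
  54249) (nat_lit 8) (node (nat_lit 5) (nat_lit 54249) (nat_lit 9) nil nil) (node (nat_lit 4)
  (nat_lit 54249) (nat_lit 8) nil nil)) (node (nat_lit 0) (nat_lit 49045) (nat_lit 7) nil nil))))
  (node (nat_lit 4) (nat_lit 0) (nat_lit 6) (node (nat_lit 5) (nat_lit 0) (nat_lit 7) (node
  (nat_lit 7) (nat_lit 46724) (nat_lit 8) (node (nat_lit 4) (nat_lit 46585) (nat_lit 9) (node
  (nat_lit 5) (nat_lit 47586) (nat_lit 10) (node (nat_lit 4) (nat_lit 48829) (nat_lit 11) (node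
  (nat_lit 7) (nat_lit 49380) (nat_lit 12) (node (nat_lit 8) (nat_lit 30360) (nat_lit 13) nil nil)
  nil) nil) nil) (node (nat_lit 5) (nat_lit 46894) (nat_lit 9) nil nil)) (node (nat_lit 4)
  (nat_lit 47715) (nat_lit 8) (node (nat_lit 7) (nat_lit 49420) (nat_lit 9) (node (nat_lit 5)
  (nat_lit 49420) (nat_lit 10) nil nil) nil) (node (nat_lit 8) (nat_lit 53928) (nat_lit 8) nil
  (node (nat_lit 0) (nat_lit 46765) (nat_lit 8) nil nil)))) (node (nat_lit 7) (nat_lit 0) (nat_lit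
  7) (node (nat_lit 4) (nat_lit 47499) (nat_lit 8) (node (nat_lit 5) (nat_lit 48933) (nat_lit 9)
  (node (nat_lit 7) (nat_lit 50556) (nat_lit 10) nil nil) (node (nat_lit 8) (nat_lit 54941)
  (nat_lit 9) nil nil)) (node (nat_lit 5) (nat_lit 46846) (nat_lit 8) (node (nat_lit 4) (nat_lit
  48841) (nat_lit 9) (node (nat_lit 7) (nat_lit 48841) (nat_lit 10) nil nil) (node (nat_lit 7)
  (nat_lit 46846) (nat_lit 9) nil nil)) (node (nat_lit 0) (nat_lit 46636) (nat_lit 8) nil nil)))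
  (node (nat_lit 8) (nat_lit 54510) (nat_lit 7) (node (nat_lit 7) (nat_lit 54510) (nat_lit 8)
  (node (nat_lit 4) (nat_lit 54510) (nat_lit 9) nil nil) (node (nat_lit 5) (nat_lit 54510)
  (nat_lit 8) nil nil)) (node (nat_lit 0) (nat_lit 49164) (nat_lit 7) nil nil)))) (node (nat_lit
  7) (nat_lit 0) (nat_lit 6) (node (nat_lit 4) (nat_lit 0) (nat_lit 7) (node (nat_lit 5) (nat_lit
  44655) (nat_lit 8) (node (nat_lit 4) (nat_lit 44655) (nat_lit 9) nil (node (nat_lit 7) (nat_lit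
  44655) (nat_lit 9) nil nil)) (node (nat_lit 7) (nat_lit 47571) (nat_lit 8) (node (nat_lit 5)
  (nat_lit 48486) (nat_lit 9) (node (nat_lit 4) (nat_lit 48612) (nat_lit 10) nil (node (nat_lit 7)
  (nat_lit 50109) (nat_lit 10) nil nil)) (node (nat_lit 8) (nat_lit 54941) (nat_lit 9) (node
  (nat_lit 4) (nat_lit 54941) (nat_lit 10) nil nil) nil)) (node (nat_lit 8) (nat_lit 52786)
  (nat_lit 8) nil (node (nat_lit 0) (nat_lit 46928) (nat_lit 8) nil nil)))) (node (nat_lit 5)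
  (nat_lit 0) (nat_lit 7) (node (nat_lit 4) (nat_lit 45703) (nat_lit 8) (node (nat_lit 5) (nat_lit
  45703) (nat_lit 9) nil (node (nat_lit 7) (nat_lit 45703) (nat_lit 9) nil nil)) (node (nat_lit 7)
  (nat_lit 44909) (nat_lit 8) (node (nat_lit 4) (nat_lit 44770) (nat_lit 9) (node (nat_lit 5)
  (nat_lit 44770) (nat_lit 10) nil (node (nat_lit 7) (nat_lit 44770) (nat_lit 10) nil nil)) (node
  (nat_lit 8) (nat_lit 50810) (nat_lit 9) nil nil)) (node (nat_lit 8) (nat_lit 52244) (nat_lit 8)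
  nil (node (nat_lit 0) (nat_lit 49972) (nat_lit 8) nil nil)))) (node (nat_lit 0) (nat_lit 50132)
  (nat_lit 7) nil nil))) (node (nat_lit 0) (nat_lit 0) (nat_lit 6) (node (nat_lit 8) (nat_lit
  52428) (nat_lit 7) (node (nat_lit 7) (nat_lit 52428) (nat_lit 8) nil nil) (node (nat_lit 7)
  (nat_lit 49139) (nat_lit 7) (node (nat_lit 9) (nat_lit 50026) (nat_lit 8) nil nil) (node
  (nat_lit 4) (nat_lit 49139) (nat_lit 7) nil (node (nat_lit 5) (nat_lit 49139) (nat_lit 7) nil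
  (node (nat_lit 0) (nat_lit 49597) (nat_lit 7) nil nil))))) nil)))) (node (nat_lit 5) (nat_lit 0)
  (nat_lit 5) (node (nat_lit 0) (nat_lit 0) (nat_lit 6) (node (nat_lit 5) (nat_lit 0) (nat_lit 7)
  (node (nat_lit 7) (nat_lit 45809) (nat_lit 8) (node (nat_lit 4) (nat_lit 47568) (nat_lit 9)
  (node (nat_lit 5) (nat_lit 48679) (nat_lit 10) nil (node (nat_lit 7) (nat_lit 47885) (nat_lit
  10) (node (nat_lit 9) (nat_lit 50240) (nat_lit 11) nil nil) (node (nat_lit 9) (nat_lit 53867)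
  (nat_lit 10) nil (node (nat_lit 0) (nat_lit 54698) (nat_lit 10) nil nil)))) (node (nat_lit 9)
  (nat_lit 54941) (nat_lit 9) (node (nat_lit 5) (nat_lit 54941) (nat_lit 10) nil nil) (node
  (nat_lit 5) (nat_lit 47090) (nat_lit 9) (node (nat_lit 4) (nat_lit 47068) (nat_lit 10) nil (node
  (nat_lit 9) (nat_lit 54221) (nat_lit 10) (node (nat_lit 7) (nat_lit 54221) (nat_lit 11) nil nil)
  nil)) (node (nat_lit 0) (nat_lit 52129) (nat_lit 9) nil nil)))) (node (nat_lit 4) (nat_lit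
  45730) (nat_lit 8) (node (nat_lit 7) (nat_lit 47729) (nat_lit 9) (node (nat_lit 5) (nat_lit
  47648) (nat_lit 10) nil (node (nat_lit 4) (nat_lit 48046) (nat_lit 10) nil (node (nat_lit 9)
  (nat_lit 52487) (nat_lit 10) nil (node (nat_lit 0) (nat_lit 52487) (nat_lit 10) nil nil))))
  (node (nat_lit 5) (nat_lit 46780) (nat_lit 9) (node (nat_lit 7) (nat_lit 47494) (nat_lit 10) nil
  (node (nat_lit 9) (nat_lit 53910) (nat_lit 10) (node (nat_lit 4) (nat_lit 53910) (nat_lit 11)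
  nil nil) (node (nat_lit 0) (nat_lit 51537) (nat_lit 10) nil nil))) (node (nat_lit 9) (nat_lit
  53804) (nat_lit 9) nil (node (nat_lit 0) (nat_lit 54261) (nat_lit 9) nil nil)))) (node (nat_lit
  0) (nat_lit 52765) (nat_lit 8) (node (nat_lit 9) (nat_lit 53472) (nat_lit 9) nil (node (nat_lit
  5) (nat_lit 52765) (nat_lit 9) nil nil)) nil))) (node (nat_lit 7) (nat_lit 0) (nat_lit 7) (node
  (nat_lit 9) (nat_lit 53503) (nat_lit 8) (node (nat_lit 5) (nat_lit 53503) (nat_lit 9) (node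
  (nat_lit 9) (nat_lit 54644) (nat_lit 10) (node (nat_lit 7) (nat_lit 54644) (nat_lit 11) nil nil)
  nil) nil) (node (nat_lit 5) (nat_lit 44022) (nat_lit 8) (node (nat_lit 7) (nat_lit 44022)
  (nat_lit 9) (node (nat_lit 9) (nat_lit 48780) (nat_lit 10) (node (nat_lit 5) (nat_lit 48780)
  (nat_lit 11) nil nil) nil) nil) (node (nat_lit 4) (nat_lit 44022) (nat_lit 8) nil (node (nat_lit
  0) (nat_lit 47639) (nat_lit 8) nil nil)))) (node (nat_lit 4) (nat_lit 44239) (nat_lit 7) (node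
  (nat_lit 5) (nat_lit 44239) (nat_lit 8) (node (nat_lit 4) (nat_lit 44239) (nat_lit 9) nil nil)
  (node (nat_lit 9) (nat_lit 49438) (nat_lit 8) (node (nat_lit 5) (nat_lit 49438) (nat_lit 9) nil
  nil) nil)) (node (nat_lit 0) (nat_lit 49675) (nat_lit 7) (node (nat_lit 5) (nat_lit 49675)
  (nat_lit 8) (node (nat_lit 9) (nat_lit 50818) (nat_lit 9) nil nil) (node (nat_lit 9) (nat_lit
  51135) (nat_lit 8) nil nil)) nil)))) (node (nat_lit 7) (nat_lit 0) (nat_lit 6) (node (nat_lit 0)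
  (nat_lit 47437) (nat_lit 7) (node (nat_lit 5) (nat_lit 47907) (nat_lit 8) (node (nat_lit 7)
  (nat_lit 48953) (nat_lit 9) (node (nat_lit 5) (nat_lit 49325) (nat_lit 10) (node (nat_lit 4)
  (nat_lit 49821) (nat_lit 11) (node (nat_lit 7) (nat_lit 49821) (nat_lit 12) nil nil) (node
  (nat_lit 10) (nat_lit 54941) (nat_lit 11) (node (nat_lit 7) (nat_lit 54941) (nat_lit 12) nil
  (node (nat_lit 5) (nat_lit 54941) (nat_lit 12) nil nil)) (node (nat_lit 0) (nat_lit 54941)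
  (nat_lit 11) nil nil))) (node (nat_lit 4) (nat_lit 49259) (nat_lit 10) (node (nat_lit 5)
  (nat_lit 50394) (nat_lit 11) (node (nat_lit 10) (nat_lit 51970) (nat_lit 12) nil nil) (node
  (nat_lit 7) (nat_lit 49650) (nat_lit 11) nil (node (nat_lit 10) (nat_lit 54941) (nat_lit 11) nil
  (node (nat_lit 0) (nat_lit 50707) (nat_lit 11) nil nil)))) (node (nat_lit 0) (nat_lit 54262)
  (nat_lit 10) nil nil))) (node (nat_lit 10) (nat_lit 52092) (nat_lit 9) nil nil)) (node (nat_lit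
  7) (nat_lit 47981) (nat_lit 8) (node (nat_lit 5) (nat_lit 47981) (nat_lit 9) (node (nat_lit 10)
  (nat_lit 50582) (nat_lit 10) (node (nat_lit 5) (nat_lit 50582) (nat_lit 11) nil nil) nil) nil)
  nil)) nil) (node (nat_lit 4) (nat_lit 0) (nat_lit 6) (node (nat_lit 0) (nat_lit 47129) (nat_lit
  7) (node (nat_lit 5) (nat_lit 47498) (nat_lit 8) (node (nat_lit 4) (nat_lit 47726) (nat_lit 9)
  (node (nat_lit 7) (nat_lit 47726) (nat_lit 10) (node (nat_lit 10) (nat_lit 49174) (nat_lit 11)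
  nil nil) (node (nat_lit 5) (nat_lit 47726) (nat_lit 10) (node (nat_lit 7) (nat_lit 47726)
  (nat_lit 11) nil (node (nat_lit 10) (nat_lit 50715) (nat_lit 11) nil (node (nat_lit 0) (nat_lit
  49174) (nat_lit 11) nil nil))) (node (nat_lit 0) (nat_lit 50326) (nat_lit 10) nil nil))) nil)
  (node (nat_lit 4) (nat_lit 47129) (nat_lit 8) nil nil)) nil) nil))) (node (nat_lit 4) (nat_lit
  0) (nat_lit 5) (node (nat_lit 0) (nat_lit 0) (nat_lit 6) (node (nat_lit 4) (nat_lit 0) (nat_lit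
  7) (node (nat_lit 7) (nat_lit 27294) (nat_lit 8) (node (nat_lit 5) (nat_lit 28742) (nat_lit 9)
  (node (nat_lit 4) (nat_lit 30121) (nat_lit 10) (node (nat_lit 5) (nat_lit 30121) (nat_lit 11)
  nil (node (nat_lit 7) (nat_lit 30121) (nat_lit 11) nil nil)) (node (nat_lit 7) (nat_lit 29525)
  (nat_lit 10) (node (nat_lit 4) (nat_lit 29525) (nat_lit 11) nil (node (nat_lit 9) (nat_lit
  31881) (nat_lit 11) nil nil)) (node (nat_lit 9) (nat_lit 32455) (nat_lit 10) nil (node (nat_lit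
  0) (nat_lit 32455) (nat_lit 10) nil nil)))) (node (nat_lit 9) (nat_lit 34110) (nat_lit 9) (node
  (nat_lit 4) (nat_lit 34110) (nat_lit 10) (node (nat_lit 9) (nat_lit 34415) (nat_lit 11) (node
  (nat_lit 7) (nat_lit 34415) (nat_lit 12) nil nil) (node (nat_lit 5) (nat_lit 34110) (nat_lit 11)
  nil nil)) (node (nat_lit 7) (nat_lit 34110) (nat_lit 10) nil nil)) (node (nat_lit 4) (nat_lit
  27997) (nat_lit 9) (node (nat_lit 5) (nat_lit 28711) (nat_lit 10) nil nil) (node (nat_lit 0)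
  (nat_lit 34110) (nat_lit 9) nil nil)))) (node (nat_lit 5) (nat_lit 27080) (nat_lit 8) (node
  (nat_lit 7) (nat_lit 28769) (nat_lit 9) (node (nat_lit 4) (nat_lit 29302) (nat_lit 10) (node
  (nat_lit 7) (nat_lit 29302) (nat_lit 11) nil (node (nat_lit 5) (nat_lit 30086) (nat_lit 11) nil
  nil)) (node (nat_lit 5) (nat_lit 29411) (nat_lit 10) (node (nat_lit 4) (nat_lit 28832) (nat_lit
  11) nil (node (nat_lit 9) (nat_lit 31767) (nat_lit 11) nil nil)) (node (nat_lit 9) (nat_lit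
  32482) (nat_lit 10) nil (node (nat_lit 0) (nat_lit 32482) (nat_lit 10) nil nil)))) (node
  (nat_lit 4) (nat_lit 29042) (nat_lit 9) (node (nat_lit 7) (nat_lit 30160) (nat_lit 10) (node
  (nat_lit 5) (nat_lit 30943) (nat_lit 11) nil (node (nat_lit 9) (nat_lit 32515) (nat_lit 11) nil
  nil)) (node (nat_lit 9) (nat_lit 34272) (nat_lit 10) nil (node (nat_lit 0) (nat_lit 32755)
  (nat_lit 10) nil nil))) (node (nat_lit 9) (nat_lit 34110) (nat_lit 9) nil (node (nat_lit 0)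
  (nat_lit 33532) (nat_lit 9) nil nil)))) (node (nat_lit 0) (nat_lit 32662) (nat_lit 8) (node
  (nat_lit 9) (nat_lit 33498) (nat_lit 9) nil (node (nat_lit 4) (nat_lit 32662) (nat_lit 9) nil
  (node (nat_lit 0) (nat_lit 33059) (nat_lit 9) nil nil))) nil))) (node (nat_lit 7) (nat_lit 0)
  (nat_lit 7) (node (nat_lit 9) (nat_lit 32885) (nat_lit 8) (node (nat_lit 4) (nat_lit 32885)
  (nat_lit 9) (node (nat_lit 9) (nat_lit 34272) (nat_lit 10) (node (nat_lit 7) (nat_lit 34272)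
  (nat_lit 11) (node (nat_lit 4) (nat_lit 34272) (nat_lit 12) nil nil) nil) nil) nil) (node
  (nat_lit 4) (nat_lit 27325) (nat_lit 8) (node (nat_lit 7) (nat_lit 29114) (nat_lit 9) (node
  (nat_lit 9) (nat_lit 34272) (nat_lit 10) (node (nat_lit 4) (nat_lit 34272) (nat_lit 11) nil nil)
  nil) nil) (node (nat_lit 5) (nat_lit 25469) (nat_lit 8) (node (nat_lit 4) (nat_lit 25469)
  (nat_lit 9) nil nil) (node (nat_lit 0) (nat_lit 28308) (nat_lit 8) nil nil)))) (node (nat_lit 5)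
  (nat_lit 25183) (nat_lit 7) (node (nat_lit 4) (nat_lit 26945) (nat_lit 8) (node (nat_lit 5)
  (nat_lit 26945) (nat_lit 9) (node (nat_lit 9) (nat_lit 29158) (nat_lit 10) nil nil) nil) (node
  (nat_lit 9) (nat_lit 32618) (nat_lit 8) (node (nat_lit 4) (nat_lit 32618) (nat_lit 9) nil nil)
  (node (nat_lit 7) (nat_lit 25183) (nat_lit 8) nil nil))) (node (nat_lit 0) (nat_lit 29250)
  (nat_lit 7) (node (nat_lit 4) (nat_lit 29250) (nat_lit 8) (node (nat_lit 9) (nat_lit 30963)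
  (nat_lit 9) nil nil) (node (nat_lit 9) (nat_lit 30398) (nat_lit 8) nil nil)) nil)))) (node
  (nat_lit 5) (nat_lit 0) (nat_lit 6) (node (nat_lit 0) (nat_lit 27996) (nat_lit 7) (node (nat_lit
  4) (nat_lit 28938) (nat_lit 8) (node (nat_lit 5) (nat_lit 29961) (nat_lit 9) (node (nat_lit 7)
  (nat_lit 29428) (nat_lit 10) (node (nat_lit 4) (nat_lit 29428) (nat_lit 11) nil (node (nat_lit
  5) (nat_lit 29428) (nat_lit 11) (node (nat_lit 4) (nat_lit 29428) (nat_lit 12) nil nil) (node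
  (nat_lit 10) (nat_lit 33785) (nat_lit 11) nil nil))) (node (nat_lit 4) (nat_lit 30285) (nat_lit
  10) (node (nat_lit 7) (nat_lit 31004) (nat_lit 11) (node (nat_lit 5) (nat_lit 31406) (nat_lit
  12) nil nil) (node (nat_lit 10) (nat_lit 34415) (nat_lit 11) nil (node (nat_lit 0) (nat_lit
  32583) (nat_lit 11) nil nil))) (node (nat_lit 0) (nat_lit 34272) (nat_lit 10) nil nil))) nil)
  (node (nat_lit 5) (nat_lit 27996) (nat_lit 8) (node (nat_lit 4) (nat_lit 27996) (nat_lit 9)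
  (node (nat_lit 10) (nat_lit 29301) (nat_lit 10) nil nil) nil) nil)) nil) nil)) nil))) (node
  (nat_lit 0) (nat_lit 0) (nat_lit 4) (node (nat_lit 5) (nat_lit 0) (nat_lit 5) (node (nat_lit 3)
  (nat_lit 45095) (nat_lit 6) (node (nat_lit 4) (nat_lit 48206) (nat_lit 7) (node (nat_lit 9)
  (nat_lit 50983) (nat_lit 8) (node (nat_lit 5) (nat_lit 53289) (nat_lit 9) (node (nat_lit 4)
  (nat_lit 54941) (nat_lit 10) (node (nat_lit 5) (nat_lit 54124) (nat_lit 11) nil nil) nil) nil)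
  (node (nat_lit 5) (nat_lit 50738) (nat_lit 8) (node (nat_lit 4) (nat_lit 50738) (nat_lit 9) nil
  nil) (node (nat_lit 7) (nat_lit 54941) (nat_lit 8) nil nil))) (node (nat_lit 5) (nat_lit 48492)
  (nat_lit 7) (node (nat_lit 4) (nat_lit 50085) (nat_lit 8) (node (nat_lit 9) (nat_lit 49726)
  (nat_lit 9) nil (node (nat_lit 5) (nat_lit 50085) (nat_lit 9) nil nil)) (node (nat_lit 7)
  (nat_lit 54941) (nat_lit 8) nil nil)) (node (nat_lit 7) (nat_lit 54355) (nat_lit 7) nil nil)))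
  (node (nat_lit 4) (nat_lit 44398) (nat_lit 6) (node (nat_lit 3) (nat_lit 47448) (nat_lit 7)
  (node (nat_lit 5) (nat_lit 50561) (nat_lit 8) (node (nat_lit 10) (nat_lit 52260) (nat_lit 9)
  (node (nat_lit 4) (nat_lit 53983) (nat_lit 10) nil nil) (node (nat_lit 4) (nat_lit 50203)
  (nat_lit 9) nil nil)) (node (nat_lit 4) (nat_lit 48430) (nat_lit 8) (node (nat_lit 5) (nat_lit
  50548) (nat_lit 9) (node (nat_lit 10) (nat_lit 52271) (nat_lit 10) nil (node (nat_lit 4)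
  (nat_lit 52558) (nat_lit 10) (node (nat_lit 7) (nat_lit 34417) (nat_lit 11) nil nil) nil)) nil)
  (node (nat_lit 7) (nat_lit 54771) (nat_lit 8) nil nil))) (node (nat_lit 5) (nat_lit 45837)
  (nat_lit 7) (node (nat_lit 3) (nat_lit 46819) (nat_lit 8) (node (nat_lit 4) (nat_lit 48518)
  (nat_lit 9) nil (node (nat_lit 5) (nat_lit 46819) (nat_lit 9) nil nil)) (node (nat_lit 7)
  (nat_lit 53160) (nat_lit 8) nil nil)) nil)) (node (nat_lit 7) (nat_lit 54941) (nat_lit 6) (node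
  (nat_lit 4) (nat_lit 54941) (nat_lit 7) nil (node (nat_lit 3) (nat_lit 54941) (nat_lit 7) nil
  nil)) (node (nat_lit 0) (nat_lit 45763) (nat_lit 6) nil nil)))) (node (nat_lit 3) (nat_lit 0)
  (nat_lit 5) (node (nat_lit 4) (nat_lit 45684) (nat_lit 6) (node (nat_lit 5) (nat_lit 48671)
  (nat_lit 7) (node (nat_lit 4) (nat_lit 51643) (nat_lit 8) (node (nat_lit 8) (nat_lit 53289)
  (nat_lit 9) (node (nat_lit 5) (nat_lit 54796) (nat_lit 10) nil (node (nat_lit 4) (nat_lit 54941)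
  (nat_lit 10) nil nil)) nil) (node (nat_lit 8) (nat_lit 49884) (nat_lit 8) (node (nat_lit 5)
  (nat_lit 52174) (nat_lit 9) (node (nat_lit 4) (nat_lit 53504) (nat_lit 10) nil nil) nil) (node
  (nat_lit 7) (nat_lit 54941) (nat_lit 8) nil nil))) (node (nat_lit 8) (nat_lit 48977) (nat_lit 7)
  (node (nat_lit 5) (nat_lit 49104) (nat_lit 8) (node (nat_lit 4) (nat_lit 49104) (nat_lit 9) nil
  nil) (node (nat_lit 7) (nat_lit 54941) (nat_lit 8) nil nil)) (node (nat_lit 7) (nat_lit 52171)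
  (nat_lit 7) nil nil))) (node (nat_lit 5) (nat_lit 44535) (nat_lit 6) (node (nat_lit 4) (nat_lit
  47930) (nat_lit 7) (node (nat_lit 5) (nat_lit 50463) (nat_lit 8) (node (nat_lit 8) (nat_lit
  52162) (nat_lit 9) nil nil) (node (nat_lit 8) (nat_lit 50859) (nat_lit 8) (node (nat_lit 4)
  (nat_lit 52543) (nat_lit 9) (node (nat_lit 5) (nat_lit 54266) (nat_lit 10) nil nil) (node
  (nat_lit 5) (nat_lit 52543) (nat_lit 9) nil nil)) (node (nat_lit 7) (nat_lit 54941) (nat_lit 8)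
  nil nil))) (node (nat_lit 8) (nat_lit 47353) (nat_lit 7) (node (nat_lit 4) (nat_lit 47640)
  (nat_lit 8) (node (nat_lit 5) (nat_lit 47640) (nat_lit 9) nil nil) (node (nat_lit 7) (nat_lit
  54676) (nat_lit 8) nil nil)) (node (nat_lit 7) (nat_lit 54016) (nat_lit 7) nil nil))) (node
  (nat_lit 7) (nat_lit 54941) (nat_lit 6) (node (nat_lit 5) (nat_lit 54941) (nat_lit 7) nil (node
  (nat_lit 4) (nat_lit 54941) (nat_lit 7) nil nil)) (node (nat_lit 0) (nat_lit 46765) (nat_lit 6)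
  nil nil)))) (node (nat_lit 4) (nat_lit 0) (nat_lit 5) (node (nat_lit 5) (nat_lit 44575) (nat_lit
  6) (node (nat_lit 3) (nat_lit 47361) (nat_lit 7) (node (nat_lit 5) (nat_lit 49878) (nat_lit 8)
  (node (nat_lit 4) (nat_lit 49901) (nat_lit 9) (node (nat_lit 10) (nat_lit 51623) (nat_lit 10)
  nil nil) nil) (node (nat_lit 4) (nat_lit 49688) (nat_lit 8) (node (nat_lit 10) (nat_lit 50578)
  (nat_lit 9) nil (node (nat_lit 5) (nat_lit 50615) (nat_lit 9) (node (nat_lit 4) (nat_lit 51753)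
  (nat_lit 10) (node (nat_lit 7) (nat_lit 35927) (nat_lit 11) nil nil) nil) nil)) (node (nat_lit
  7) (nat_lit 54685) (nat_lit 8) nil nil))) (node (nat_lit 4) (nat_lit 46193) (nat_lit 7) (node
  (nat_lit 3) (nat_lit 48725) (nat_lit 8) (node (nat_lit 5) (nat_lit 50595) (nat_lit 9) (node
  (nat_lit 4) (nat_lit 52318) (nat_lit 10) nil nil) (node (nat_lit 4) (nat_lit 48725) (nat_lit 9)
  nil nil)) nil) (node (nat_lit 7) (nat_lit 54649) (nat_lit 7) nil nil))) (node (nat_lit 3)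
  (nat_lit 44721) (nat_lit 6) (node (nat_lit 5) (nat_lit 47656) (nat_lit 7) (node (nat_lit 4)
  (nat_lit 50188) (nat_lit 8) (node (nat_lit 5) (nat_lit 51887) (nat_lit 9) (node (nat_lit 9)
  (nat_lit 53610) (nat_lit 10) nil nil) (node (nat_lit 9) (nat_lit 51887) (nat_lit 9) nil nil))
  (node (nat_lit 9) (nat_lit 50188) (nat_lit 8) (node (nat_lit 4) (nat_lit 51887) (nat_lit 9)
  (node (nat_lit 5) (nat_lit 53610) (nat_lit 10) nil nil) nil) (node (nat_lit 7) (nat_lit 54941)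
  (nat_lit 8) nil nil))) (node (nat_lit 4) (nat_lit 46715) (nat_lit 7) (node (nat_lit 5) (nat_lit
  49248) (nat_lit 8) (node (nat_lit 9) (nat_lit 49248) (nat_lit 9) nil (node (nat_lit 4) (nat_lit
  49248) (nat_lit 9) nil nil)) nil) (node (nat_lit 7) (nat_lit 51208) (nat_lit 7) nil nil))) (node
  (nat_lit 0) (nat_lit 43437) (nat_lit 6) nil nil))) (node (nat_lit 0) (nat_lit 51295) (nat_lit 5)
  (node (nat_lit 3) (nat_lit 51295) (nat_lit 6) nil (node (nat_lit 5) (nat_lit 51295) (nat_lit 6)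
  nil (node (nat_lit 0) (nat_lit 52202) (nat_lit 6) nil nil))) nil)))) nil))

noncomputable def c38 : Tr :=
  (node (nat_lit 3) (nat_lit 0) (nat_lit 1) (node (nat_lit 3) (nat_lit 0) (nat_lit 2) (node
  (nat_lit 3) (nat_lit 0) (nat_lit 3) (node (nat_lit 4) (nat_lit 0) (nat_lit 4) (node (nat_lit 0)
  (nat_lit 0) (nat_lit 5) (node (nat_lit 5) (nat_lit 0) (nat_lit 6) (node (nat_lit 6) (nat_lit 0)
  (nat_lit 7) (node (nat_lit 4) (nat_lit 64031) (nat_lit 8) (node (nat_lit 5) (nat_lit 65255)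
  (nat_lit 9) (node (nat_lit 6) (nat_lit 65255) (nat_lit 10) nil nil) (node (nat_lit 6) (nat_lit
  64031) (nat_lit 9) (node (nat_lit 5) (nat_lit 64031) (nat_lit 10) nil nil) nil)) (node (nat_lit
  5) (nat_lit 63498) (nat_lit 8) (node (nat_lit 4) (nat_lit 63721) (nat_lit 9) nil nil) (node
  (nat_lit 8) (nat_lit 72268) (nat_lit 8) nil (node (nat_lit 0) (nat_lit 65543) (nat_lit 8) nil
  nil)))) (node (nat_lit 4) (nat_lit 0) (nat_lit 7) (node (nat_lit 5) (nat_lit 65006) (nat_lit 8)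
  (node (nat_lit 6) (nat_lit 66298) (nat_lit 9) (node (nat_lit 4) (nat_lit 67118) (nat_lit 10)
  (node (nat_lit 6) (nat_lit 66941) (nat_lit 11) nil nil) (node (nat_lit 5) (nat_lit 66906)
  (nat_lit 10) nil nil)) (node (nat_lit 8) (nat_lit 72546) (nat_lit 9) nil (node (nat_lit 0)
  (nat_lit 68812) (nat_lit 9) nil nil))) (node (nat_lit 6) (nat_lit 63292) (nat_lit 8) (node
  (nat_lit 5) (nat_lit 64541) (nat_lit 9) nil (node (nat_lit 4) (nat_lit 63292) (nat_lit 9) nil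
  nil)) (node (nat_lit 8) (nat_lit 72268) (nat_lit 8) nil (node (nat_lit 0) (nat_lit 66207)
  (nat_lit 8) nil nil)))) (node (nat_lit 8) (nat_lit 71140) (nat_lit 7) (node (nat_lit 4) (nat_lit
  71140) (nat_lit 8) (node (nat_lit 5) (nat_lit 71140) (nat_lit 9) nil nil) (node (nat_lit 6)
  (nat_lit 71140) (nat_lit 8) (node (nat_lit 5) (nat_lit 71140) (nat_lit 9) nil nil) nil)) (node
  (nat_lit 0) (nat_lit 69063) (nat_lit 7) nil nil)))) (node (nat_lit 6) (nat_lit 0) (nat_lit 6)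
  (node (nat_lit 5) (nat_lit 0) (nat_lit 7) (node (nat_lit 4) (nat_lit 64200) (nat_lit 8) (node
  (nat_lit 6) (nat_lit 65449) (nat_lit 9) (node (nat_lit 5) (nat_lit 65449) (nat_lit 10) nil nil)
  (node (nat_lit 5) (nat_lit 64200) (nat_lit 9) (node (nat_lit 6) (nat_lit 65108) (nat_lit 10)
  (node (nat_lit 4) (nat_lit 66446) (nat_lit 11) (node (nat_lit 8) (nat_lit 29800) (nat_lit 12)
  nil nil) nil) nil) nil)) (node (nat_lit 6) (nat_lit 64310) (nat_lit 8) (node (nat_lit 4)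
  (nat_lit 65568) (nat_lit 9) (node (nat_lit 5) (nat_lit 65568) (nat_lit 10) nil nil) nil) (node
  (nat_lit 8) (nat_lit 72268) (nat_lit 8) nil (node (nat_lit 0) (nat_lit 66041) (nat_lit 8) nil
  nil)))) (node (nat_lit 4) (nat_lit 0) (nat_lit 7) (node (nat_lit 6) (nat_lit 65045) (nat_lit 8)
  (node (nat_lit 5) (nat_lit 66010) (nat_lit 9) (node (nat_lit 4) (nat_lit 66918) (nat_lit 10) nil
  nil) (node (nat_lit 8) (nat_lit 72586) (nat_lit 9) nil nil)) (node (nat_lit 5) (nat_lit 64401)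
  (nat_lit 8) (node (nat_lit 6) (nat_lit 64571) (nat_lit 9) (node (nat_lit 4) (nat_lit 64571)
  (nat_lit 10) (node (nat_lit 6) (nat_lit 64394) (nat_lit 11) nil (node (nat_lit 8) (nat_lit
  39950) (nat_lit 11) nil nil)) nil) (node (nat_lit 4) (nat_lit 64401) (nat_lit 9) nil nil)) (node
  (nat_lit 0) (nat_lit 66281) (nat_lit 8) nil nil))) (node (nat_lit 8) (nat_lit 71140) (nat_lit 7)
  (node (nat_lit 4) (nat_lit 71140) (nat_lit 8) (node (nat_lit 6) (nat_lit 71140) (nat_lit 9)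
  (node (nat_lit 4) (nat_lit 71140) (nat_lit 10) nil nil) nil) (node (nat_lit 5) (nat_lit 71140)
  (nat_lit 8) nil nil)) (node (nat_lit 0) (nat_lit 69676) (nat_lit 7) nil nil)))) (node (nat_lit
  4) (nat_lit 0) (nat_lit 6) (node (nat_lit 6) (nat_lit 0) (nat_lit 7) (node (nat_lit 5) (nat_lit
  62775) (nat_lit 8) (node (nat_lit 6) (nat_lit 62945) (nat_lit 9) (node (nat_lit 4) (nat_lit
  62945) (nat_lit 10) nil nil) (node (nat_lit 4) (nat_lit 62998) (nat_lit 9) (node (nat_lit 5)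
  (nat_lit 62998) (nat_lit 10) nil (node (nat_lit 6) (nat_lit 62998) (nat_lit 10) nil nil)) nil))
  (node (nat_lit 4) (nat_lit 64212) (nat_lit 8) (node (nat_lit 5) (nat_lit 64382) (nat_lit 9)
  (node (nat_lit 6) (nat_lit 65131) (nat_lit 10) (node (nat_lit 4) (nat_lit 67296) (nat_lit 11)
  (node (nat_lit 8) (nat_lit 39201) (nat_lit 12) nil nil) nil) (node (nat_lit 4) (nat_lit 64382)
  (nat_lit 10) nil nil)) (node (nat_lit 8) (nat_lit 72675) (nat_lit 9) (node (nat_lit 6) (nat_lit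
  72675) (nat_lit 10) nil nil) nil)) (node (nat_lit 8) (nat_lit 70500) (nat_lit 8) nil (node
  (nat_lit 0) (nat_lit 66346) (nat_lit 8) nil nil)))) (node (nat_lit 5) (nat_lit 0) (nat_lit 7)
  (node (nat_lit 6) (nat_lit 63908) (nat_lit 8) (node (nat_lit 5) (nat_lit 63908) (nat_lit 9) nil
  (node (nat_lit 4) (nat_lit 65157) (nat_lit 9) (node (nat_lit 6) (nat_lit 65157) (nat_lit 10) nil
  nil) nil)) (node (nat_lit 4) (nat_lit 64156) (nat_lit 8) (node (nat_lit 6) (nat_lit 65404)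
  (nat_lit 9) (node (nat_lit 5) (nat_lit 65404) (nat_lit 10) nil (node (nat_lit 4) (nat_lit 65404)
  (nat_lit 10) nil nil)) (node (nat_lit 8) (nat_lit 70175) (nat_lit 9) nil nil)) (node (nat_lit 8)
  (nat_lit 68248) (nat_lit 8) nil (node (nat_lit 0) (nat_lit 66197) (nat_lit 8) nil nil)))) (node
  (nat_lit 0) (nat_lit 69433) (nat_lit 7) nil nil))) (node (nat_lit 0) (nat_lit 0) (nat_lit 6)
  (node (nat_lit 8) (nat_lit 70628) (nat_lit 7) (node (nat_lit 4) (nat_lit 70628) (nat_lit 8) nil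
  nil) (node (nat_lit 4) (nat_lit 67118) (nat_lit 7) (node (nat_lit 9) (nat_lit 68818) (nat_lit 8)
  nil nil) (node (nat_lit 5) (nat_lit 67118) (nat_lit 7) nil (node (nat_lit 6) (nat_lit 67118)
  (nat_lit 7) nil (node (nat_lit 0) (nat_lit 67996) (nat_lit 7) nil nil))))) nil)))) (node
  (nat_lit 5) (nat_lit 0) (nat_lit 5) (node (nat_lit 0) (nat_lit 0) (nat_lit 6) (node (nat_lit 5)
  (nat_lit 0) (nat_lit 7) (node (nat_lit 4) (nat_lit 37314) (nat_lit 8) (node (nat_lit 6) (nat_lit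
  37704) (nat_lit 9) (node (nat_lit 5) (nat_lit 37704) (nat_lit 10) nil (node (nat_lit 4) (nat_lit
  37704) (nat_lit 10) nil (node (nat_lit 9) (nat_lit 39372) (nat_lit 10) nil (node (nat_lit 0)
  (nat_lit 39372) (nat_lit 10) nil nil)))) (node (nat_lit 9) (nat_lit 41787) (nat_lit 9) (node
  (nat_lit 5) (nat_lit 41787) (nat_lit 10) (node (nat_lit 9) (nat_lit 42054) (nat_lit 11) nil nil)
  nil) (node (nat_lit 5) (nat_lit 38307) (nat_lit 9) (node (nat_lit 6) (nat_lit 38307) (nat_lit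
  10) nil (node (nat_lit 9) (nat_lit 41929) (nat_lit 10) (node (nat_lit 4) (nat_lit 41929)
  (nat_lit 11) nil nil) nil)) (node (nat_lit 0) (nat_lit 41440) (nat_lit 9) nil nil)))) (node
  (nat_lit 6) (nat_lit 37759) (nat_lit 8) (node (nat_lit 4) (nat_lit 38829) (nat_lit 9) (node
  (nat_lit 5) (nat_lit 38829) (nat_lit 10) nil (node (nat_lit 6) (nat_lit 38829) (nat_lit 10) nil
  (node (nat_lit 9) (nat_lit 40498) (nat_lit 10) nil (node (nat_lit 0) (nat_lit 41929) (nat_lit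
  10) nil nil)))) (node (nat_lit 5) (nat_lit 39583) (nat_lit 9) (node (nat_lit 4) (nat_lit 39583)
  (nat_lit 10) nil (node (nat_lit 9) (nat_lit 41929) (nat_lit 10) nil (node (nat_lit 0) (nat_lit
  41251) (nat_lit 10) nil nil))) (node (nat_lit 9) (nat_lit 41787) (nat_lit 9) nil (node (nat_lit
  0) (nat_lit 41787) (nat_lit 9) nil nil)))) (node (nat_lit 0) (nat_lit 41475) (nat_lit 8) (node
  (nat_lit 9) (nat_lit 41787) (nat_lit 9) nil nil) nil))) (node (nat_lit 4) (nat_lit 0) (nat_lit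
  7) (node (nat_lit 9) (nat_lit 41475) (nat_lit 8) (node (nat_lit 5) (nat_lit 41475) (nat_lit 9)
  (node (nat_lit 9) (nat_lit 41929) (nat_lit 10) (node (nat_lit 4) (nat_lit 41929) (nat_lit 11)
  (node (nat_lit 5) (nat_lit 41929) (nat_lit 12) nil nil) nil) nil) nil) (node (nat_lit 5)
  (nat_lit 36264) (nat_lit 8) (node (nat_lit 4) (nat_lit 36264) (nat_lit 9) (node (nat_lit 9)
  (nat_lit 39380) (nat_lit 10) (node (nat_lit 5) (nat_lit 39380) (nat_lit 11) nil nil) nil) nil)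
  (node (nat_lit 6) (nat_lit 36264) (nat_lit 8) nil (node (nat_lit 0) (nat_lit 38621) (nat_lit 8)
  nil nil)))) (node (nat_lit 6) (nat_lit 35136) (nat_lit 7) (node (nat_lit 5) (nat_lit 35136)
  (nat_lit 8) nil (node (nat_lit 9) (nat_lit 38516) (nat_lit 8) (node (nat_lit 5) (nat_lit 38516)
  (nat_lit 9) nil nil) nil)) (node (nat_lit 0) (nat_lit 39362) (nat_lit 7) (node (nat_lit 5)
  (nat_lit 39362) (nat_lit 8) (node (nat_lit 9) (nat_lit 40140) (nat_lit 9) nil nil) (node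
  (nat_lit 9) (nat_lit 39828) (nat_lit 8) nil nil)) nil)))) (node (nat_lit 4) (nat_lit 0) (nat_lit
  6) (node (nat_lit 0) (nat_lit 38775) (nat_lit 7) (node (nat_lit 5) (nat_lit 38947) (nat_lit 8)
  (node (nat_lit 4) (nat_lit 38737) (nat_lit 9) (node (nat_lit 5) (nat_lit 38737) (nat_lit 10)
  (node (nat_lit 6) (nat_lit 38737) (nat_lit 11) nil (node (nat_lit 10) (nat_lit 40613) (nat_lit
  11) (node (nat_lit 4) (nat_lit 40613) (nat_lit 12) nil nil) (node (nat_lit 0) (nat_lit 39782)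
  (nat_lit 11) nil nil))) (node (nat_lit 6) (nat_lit 38737) (nat_lit 10) (node (nat_lit 5)
  (nat_lit 38737) (nat_lit 11) nil (node (nat_lit 4) (nat_lit 38737) (nat_lit 11) nil nil)) (node
  (nat_lit 0) (nat_lit 40358) (nat_lit 10) nil nil))) (node (nat_lit 10) (nat_lit 41563) (nat_lit
  9) nil nil)) (node (nat_lit 4) (nat_lit 38775) (nat_lit 8) (node (nat_lit 5) (nat_lit 38775)
  (nat_lit 9) (node (nat_lit 10) (nat_lit 40396) (nat_lit 10) (node (nat_lit 5) (nat_lit 40396)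
  (nat_lit 11) nil nil) nil) nil) nil)) nil) nil)) (node (nat_lit 6) (nat_lit 0) (nat_lit 5) (node
  (nat_lit 0) (nat_lit 0) (nat_lit 6) (node (nat_lit 6) (nat_lit 0) (nat_lit 7) (node (nat_lit 4)
  (nat_lit 62579) (nat_lit 8) (node (nat_lit 5) (nat_lit 65081) (nat_lit 9) (node (nat_lit 6)
  (nat_lit 65884) (nat_lit 10) (node (nat_lit 5) (nat_lit 66630) (nat_lit 11) nil (node (nat_lit
  4) (nat_lit 65522) (nat_lit 11) (node (nat_lit 6) (nat_lit 65809) (nat_lit 12) (node (nat_lit 9)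
  (nat_lit 38128) (nat_lit 13) nil nil) nil) nil)) (node (nat_lit 4) (nat_lit 66679) (nat_lit 10)
  (node (nat_lit 6) (nat_lit 66679) (nat_lit 11) nil (node (nat_lit 9) (nat_lit 70847) (nat_lit
  11) nil nil)) (node (nat_lit 9) (nat_lit 70424) (nat_lit 10) nil (node (nat_lit 0) (nat_lit
  70424) (nat_lit 10) nil nil)))) (node (nat_lit 9) (nat_lit 72245) (nat_lit 9) (node (nat_lit 6)
  (nat_lit 72245) (nat_lit 10) (node (nat_lit 9) (nat_lit 72826) (nat_lit 11) nil nil) nil) (node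
  (nat_lit 6) (nat_lit 63745) (nat_lit 9) (node (nat_lit 5) (nat_lit 64509) (nat_lit 10) (node
  (nat_lit 4) (nat_lit 64509) (nat_lit 11) nil nil) nil) (node (nat_lit 0) (nat_lit 71255)
  (nat_lit 9) nil nil)))) (node (nat_lit 5) (nat_lit 62231) (nat_lit 8) (node (nat_lit 4) (nat_lit
  64464) (nat_lit 9) (node (nat_lit 6) (nat_lit 65465) (nat_lit 10) (node (nat_lit 4) (nat_lit
  66211) (nat_lit 11) (node (nat_lit 5) (nat_lit 67834) (nat_lit 12) nil nil) (node (nat_lit 5)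
  (nat_lit 66211) (nat_lit 11) nil nil)) (node (nat_lit 5) (nat_lit 65550) (nat_lit 10) (node
  (nat_lit 6) (nat_lit 66296) (nat_lit 11) (node (nat_lit 5) (nat_lit 67919) (nat_lit 12) nil nil)
  (node (nat_lit 9) (nat_lit 69718) (nat_lit 11) nil nil)) (node (nat_lit 9) (nat_lit 69807)
  (nat_lit 10) nil (node (nat_lit 0) (nat_lit 69807) (nat_lit 10) nil nil)))) (node (nat_lit 6)
  (nat_lit 64662) (nat_lit 9) (node (nat_lit 4) (nat_lit 65423) (nat_lit 10) (node (nat_lit 6)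
  (nat_lit 65423) (nat_lit 11) nil (node (nat_lit 5) (nat_lit 64749) (nat_lit 11) nil (node
  (nat_lit 9) (nat_lit 69590) (nat_lit 11) nil nil))) (node (nat_lit 9) (nat_lit 72464) (nat_lit
  10) nil (node (nat_lit 0) (nat_lit 71547) (nat_lit 10) nil nil))) (node (nat_lit 9) (nat_lit
  71055) (nat_lit 9) nil (node (nat_lit 0) (nat_lit 71134) (nat_lit 9) nil nil)))) (node (nat_lit
  0) (nat_lit 70682) (nat_lit 8) (node (nat_lit 9) (nat_lit 71397) (nat_lit 9) nil (node (nat_lit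
  6) (nat_lit 70682) (nat_lit 9) nil (node (nat_lit 0) (nat_lit 71397) (nat_lit 9) nil nil)))
  nil))) (node (nat_lit 4) (nat_lit 0) (nat_lit 7) (node (nat_lit 9) (nat_lit 70851) (nat_lit 8)
  (node (nat_lit 6) (nat_lit 70851) (nat_lit 9) (node (nat_lit 9) (nat_lit 72179) (nat_lit 10)
  (node (nat_lit 4) (nat_lit 72179) (nat_lit 11) nil nil) nil) nil) (node (nat_lit 6) (nat_lit
  62337) (nat_lit 8) (node (nat_lit 4) (nat_lit 63573) (nat_lit 9) (node (nat_lit 9) (nat_lit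
  71502) (nat_lit 10) (node (nat_lit 6) (nat_lit 71502) (nat_lit 11) nil nil) nil) nil) (node
  (nat_lit 5) (nat_lit 60813) (nat_lit 8) (node (nat_lit 6) (nat_lit 60813) (nat_lit 9) nil nil)
  (node (nat_lit 0) (nat_lit 66629) (nat_lit 8) nil nil)))) (node (nat_lit 5) (nat_lit 0) (nat_lit
  7) (node (nat_lit 6) (nat_lit 62390) (nat_lit 8) (node (nat_lit 5) (nat_lit 62780) (nat_lit 9)
  (node (nat_lit 9) (nat_lit 68124) (nat_lit 10) nil nil) nil) (node (nat_lit 9) (nat_lit 70981)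
  (nat_lit 8) (node (nat_lit 6) (nat_lit 70981) (nat_lit 9) nil nil) (node (nat_lit 4) (nat_lit
  61171) (nat_lit 8) nil (node (nat_lit 0) (nat_lit 64043) (nat_lit 8) nil nil)))) (node (nat_lit
  0) (nat_lit 66856) (nat_lit 7) (node (nat_lit 6) (nat_lit 66856) (nat_lit 8) (node (nat_lit 9)
  (nat_lit 69378) (nat_lit 9) nil nil) (node (nat_lit 9) (nat_lit 69116) (nat_lit 8) (node
  (nat_lit 6) (nat_lit 69116) (nat_lit 9) nil nil) nil)) nil)))) (node (nat_lit 5) (nat_lit 0)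
  (nat_lit 6) (node (nat_lit 0) (nat_lit 57715) (nat_lit 7) (node (nat_lit 6) (nat_lit 57974)
  (nat_lit 8) (node (nat_lit 5) (nat_lit 59015) (nat_lit 9) (node (nat_lit 4) (nat_lit 59725)
  (nat_lit 10) (node (nat_lit 6) (nat_lit 60444) (nat_lit 11) (node (nat_lit 4) (nat_lit 60444)
  (nat_lit 12) nil (node (nat_lit 10) (nat_lit 63235) (nat_lit 12) nil nil)) (node (nat_lit 5)
  (nat_lit 60444) (nat_lit 11) (node (nat_lit 6) (nat_lit 60444) (nat_lit 12) nil nil) (node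
  (nat_lit 10) (nat_lit 65466) (nat_lit 11) nil (node (nat_lit 0) (nat_lit 62270) (nat_lit 11) nil
  nil)))) (node (nat_lit 6) (nat_lit 59654) (nat_lit 10) (node (nat_lit 4) (nat_lit 60792)
  (nat_lit 11) (node (nat_lit 5) (nat_lit 60350) (nat_lit 12) (node (nat_lit 4) (nat_lit 60520)
  (nat_lit 13) nil nil) (node (nat_lit 6) (nat_lit 61189) (nat_lit 12) nil (node (nat_lit 10)
  (nat_lit 63583) (nat_lit 12) nil nil))) (node (nat_lit 10) (nat_lit 67044) (nat_lit 11) (node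
  (nat_lit 6) (nat_lit 67044) (nat_lit 12) nil nil) (node (nat_lit 0) (nat_lit 65394) (nat_lit 11)
  nil nil))) (node (nat_lit 0) (nat_lit 66127) (nat_lit 10) nil nil))) nil) (node (nat_lit 5)
  (nat_lit 57715) (nat_lit 8) (node (nat_lit 6) (nat_lit 57715) (nat_lit 9) (node (nat_lit 10)
  (nat_lit 59987) (nat_lit 10) nil nil) nil) (node (nat_lit 0) (nat_lit 58963) (nat_lit 8) nil
  nil))) nil) nil)) nil))) t450) (node (nat_lit 4) (nat_lit 0) (nat_lit 3) t451 nil)) nil) nil)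

noncomputable def t452 : Tr :=
  (node (nat_lit 6) (nat_lit 0) (nat_lit 5) (node (nat_lit 5) (nat_lit 0) (nat_lit 6) (node
  (nat_lit 0) (nat_lit 0) (nat_lit 7) (node (nat_lit 6) (nat_lit 0) (nat_lit 8) (node (nat_lit 4)
  (nat_lit 74000) (nat_lit 9) (node (nat_lit 5) (nat_lit 77476) (nat_lit 10) (node (nat_lit 6)
  (nat_lit 78031) (nat_lit 11) (node (nat_lit 4) (nat_lit 79811) (nat_lit 12) (node (nat_lit 6)
  (nat_lit 79103) (nat_lit 13) (node (nat_lit 5) (nat_lit 79277) (nat_lit 14) (node (nat_lit 10)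
  (nat_lit 25982) (nat_lit 15) nil nil) nil) nil) nil) (node (nat_lit 4) (nat_lit 77900) (nat_lit
  11) nil nil)) (node (nat_lit 6) (nat_lit 79692) (nat_lit 10) (node (nat_lit 5) (nat_lit 82085)
  (nat_lit 11) nil nil) (node (nat_lit 10) (nat_lit 79663) (nat_lit 10) nil nil))) (node (nat_lit
  5) (nat_lit 74831) (nat_lit 9) (node (nat_lit 6) (nat_lit 79153) (nat_lit 10) (node (nat_lit 4)
  (nat_lit 81532) (nat_lit 11) nil (node (nat_lit 10) (nat_lit 85494) (nat_lit 11) nil nil)) (node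
  (nat_lit 4) (nat_lit 77527) (nat_lit 10) (node (nat_lit 6) (nat_lit 80640) (nat_lit 11) nil nil)
  nil)) (node (nat_lit 10) (nat_lit 83222) (nat_lit 9) (node (nat_lit 5) (nat_lit 83222) (nat_lit
  10) nil nil) (node (nat_lit 0) (nat_lit 73950) (nat_lit 9) nil nil)))) (node (nat_lit 4)
  (nat_lit 0) (nat_lit 8) (node (nat_lit 5) (nat_lit 73924) (nat_lit 9) (node (nat_lit 4) (nat_lit
  79616) (nat_lit 10) (node (nat_lit 6) (nat_lit 85628) (nat_lit 11) (node (nat_lit 5) (nat_lit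
  83678) (nat_lit 12) nil nil) (node (nat_lit 10) (nat_lit 85957) (nat_lit 11) nil nil)) (node
  (nat_lit 6) (nat_lit 76150) (nat_lit 10) (node (nat_lit 4) (nat_lit 79263) (nat_lit 11) nil
  (node (nat_lit 5) (nat_lit 79263) (nat_lit 11) nil nil)) (node (nat_lit 10) (nat_lit 82778)
  (nat_lit 10) nil nil))) (node (nat_lit 6) (nat_lit 73825) (nat_lit 9) (node (nat_lit 5) (nat_lit
  78268) (nat_lit 10) (node (nat_lit 4) (nat_lit 79450) (nat_lit 11) nil nil) (node (nat_lit 4)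
  (nat_lit 75034) (nat_lit 10) (node (nat_lit 5) (nat_lit 76958) (nat_lit 11) nil nil) (node
  (nat_lit 10) (nat_lit 79488) (nat_lit 10) nil nil))) (node (nat_lit 10) (nat_lit 82838) (nat_lit
  9) (node (nat_lit 5) (nat_lit 82838) (nat_lit 10) nil nil) (node (nat_lit 0) (nat_lit 74473)
  (nat_lit 9) nil nil)))) (node (nat_lit 5) (nat_lit 0) (nat_lit 8) (node (nat_lit 6) (nat_lit
  74983) (nat_lit 9) (node (nat_lit 5) (nat_lit 79332) (nat_lit 10) (node (nat_lit 4) (nat_lit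
  79756) (nat_lit 11) nil (node (nat_lit 10) (nat_lit 85673) (nat_lit 11) nil nil)) (node (nat_lit
  4) (nat_lit 74771) (nat_lit 10) nil (node (nat_lit 10) (nat_lit 80646) (nat_lit 10) nil nil)))
  (node (nat_lit 4) (nat_lit 74324) (nat_lit 9) (node (nat_lit 6) (nat_lit 76091) (nat_lit 10) nil
  (node (nat_lit 5) (nat_lit 74112) (nat_lit 10) (node (nat_lit 6) (nat_lit 74667) (nat_lit 11)
  nil nil) (node (nat_lit 10) (nat_lit 79987) (nat_lit 10) nil nil))) (node (nat_lit 0) (nat_lit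
  76462) (nat_lit 9) nil nil))) (node (nat_lit 0) (nat_lit 76279) (nat_lit 8) (node (nat_lit 10)
  (nat_lit 78817) (nat_lit 9) nil (node (nat_lit 5) (nat_lit 76279) (nat_lit 9) nil nil)) nil))))
  (node (nat_lit 4) (nat_lit 0) (nat_lit 7) (node (nat_lit 0) (nat_lit 0) (nat_lit 8) (node
  (nat_lit 4) (nat_lit 0) (nat_lit 9) (node (nat_lit 5) (nat_lit 69903) (nat_lit 10) (node
  (nat_lit 6) (nat_lit 73541) (nat_lit 11) (node (nat_lit 5) (nat_lit 75321) (nat_lit 12) nil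
  (node (nat_lit 4) (nat_lit 75321) (nat_lit 12) nil (node (nat_lit 0) (nat_lit 77384) (nat_lit
  12) nil (node (nat_lit 11) (nat_lit 77384) (nat_lit 12) nil nil)))) (node (nat_lit 4) (nat_lit
  72352) (nat_lit 11) (node (nat_lit 11) (nat_lit 76195) (nat_lit 12) nil (node (nat_lit 6)
  (nat_lit 72297) (nat_lit 12) nil nil)) (node (nat_lit 11) (nat_lit 79897) (nat_lit 11) nil (node
  (nat_lit 0) (nat_lit 73132) (nat_lit 11) nil nil)))) (node (nat_lit 6) (nat_lit 70099) (nat_lit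
  10) (node (nat_lit 5) (nat_lit 73944) (nat_lit 11) (node (nat_lit 6) (nat_lit 75724) (nat_lit
  12) nil (node (nat_lit 4) (nat_lit 73741) (nat_lit 12) nil nil)) (node (nat_lit 4) (nat_lit
  71578) (nat_lit 11) (node (nat_lit 11) (nat_lit 75420) (nat_lit 12) nil (node (nat_lit 5)
  (nat_lit 73358) (nat_lit 12) nil nil)) (node (nat_lit 11) (nat_lit 77698) (nat_lit 11) nil (node
  (nat_lit 0) (nat_lit 77698) (nat_lit 11) nil nil)))) (node (nat_lit 0) (nat_lit 76087) (nat_lit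
  10) nil nil))) (node (nat_lit 5) (nat_lit 67230) (nat_lit 9) (node (nat_lit 11) (nat_lit 77926)
  (nat_lit 10) (node (nat_lit 4) (nat_lit 77926) (nat_lit 11) nil nil) (node (nat_lit 4) (nat_lit
  67230) (nat_lit 10) (node (nat_lit 5) (nat_lit 67230) (nat_lit 11) nil nil) nil)) (node (nat_lit
  0) (nat_lit 72427) (nat_lit 9) (node (nat_lit 4) (nat_lit 72427) (nat_lit 10) nil nil) (node
  (nat_lit 6) (nat_lit 67206) (nat_lit 9) (node (nat_lit 11) (nat_lit 69756) (nat_lit 10) nil nil)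
  nil)))) (node (nat_lit 5) (nat_lit 0) (nat_lit 8) (node (nat_lit 0) (nat_lit 69359) (nat_lit 9)
  (node (nat_lit 4) (nat_lit 70531) (nat_lit 10) (node (nat_lit 5) (nat_lit 73138) (nat_lit 11)
  (node (nat_lit 4) (nat_lit 74064) (nat_lit 12) (node (nat_lit 12) (nat_lit 79195) (nat_lit 13)
  nil (node (nat_lit 6) (nat_lit 74267) (nat_lit 13) nil (node (nat_lit 0) (nat_lit 79195)
  (nat_lit 13) nil nil))) (node (nat_lit 6) (nat_lit 73901) (nat_lit 12) (node (nat_lit 4)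
  (nat_lit 75694) (nat_lit 13) nil (node (nat_lit 5) (nat_lit 75694) (nat_lit 13) nil (node
  (nat_lit 12) (nat_lit 79032) (nat_lit 13) nil nil))) (node (nat_lit 0) (nat_lit 77419) (nat_lit
  12) nil nil))) (node (nat_lit 12) (nat_lit 73720) (nat_lit 11) nil nil)) (node (nat_lit 5)
  (nat_lit 70715) (nat_lit 10) (node (nat_lit 4) (nat_lit 70715) (nat_lit 11) nil nil) nil)) nil)
  (node (nat_lit 6) (nat_lit 0) (nat_lit 8) (node (nat_lit 0) (nat_lit 68590) (nat_lit 9) (node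
  (nat_lit 4) (nat_lit 69511) (nat_lit 10) (node (nat_lit 6) (nat_lit 70078) (nat_lit 11) (node
  (nat_lit 4) (nat_lit 70078) (nat_lit 12) nil nil) nil) nil) nil) nil))) (node (nat_lit 6)
  (nat_lit 0) (nat_lit 7) (node (nat_lit 0) (nat_lit 0) (nat_lit 8) (node (nat_lit 6) (nat_lit 0)
  (nat_lit 9) (node (nat_lit 4) (nat_lit 80034) (nat_lit 10) (node (nat_lit 5) (nat_lit 84244)
  (nat_lit 11) (node (nat_lit 6) (nat_lit 85573) (nat_lit 12) nil (node (nat_lit 4) (nat_lit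
  85845) (nat_lit 12) (node (nat_lit 6) (nat_lit 82447) (nat_lit 13) nil nil) nil)) (node (nat_lit
  6) (nat_lit 84925) (nat_lit 11) (node (nat_lit 5) (nat_lit 87710) (nat_lit 12) nil (node
  (nat_lit 11) (nat_lit 90930) (nat_lit 12) nil nil)) (node (nat_lit 11) (nat_lit 89575) (nat_lit
  11) nil (node (nat_lit 0) (nat_lit 87633) (nat_lit 11) nil nil)))) (node (nat_lit 5) (nat_lit
  80568) (nat_lit 10) (node (nat_lit 4) (nat_lit 84176) (nat_lit 11) (node (nat_lit 6) (nat_lit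
  87614) (nat_lit 12) nil (node (nat_lit 5) (nat_lit 86128) (nat_lit 12) nil nil)) (node (nat_lit
  11) (nat_lit 90264) (nat_lit 11) (node (nat_lit 6) (nat_lit 90264) (nat_lit 12) nil nil) (node
  (nat_lit 6) (nat_lit 82320) (nat_lit 11) (node (nat_lit 4) (nat_lit 84100) (nat_lit 12) nil nil)
  (node (nat_lit 0) (nat_lit 89754) (nat_lit 11) nil nil)))) (node (nat_lit 0) (nat_lit 86870)
  (nat_lit 10) (node (nat_lit 11) (nat_lit 87548) (nat_lit 11) nil nil) nil))) (node (nat_lit 5)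
  (nat_lit 76017) (nat_lit 9) (node (nat_lit 11) (nat_lit 87425) (nat_lit 10) (node (nat_lit 6)
  (nat_lit 87425) (nat_lit 11) (node (nat_lit 11) (nat_lit 89839) (nat_lit 12) nil nil) nil) (node
  (nat_lit 6) (nat_lit 80643) (nat_lit 10) (node (nat_lit 5) (nat_lit 85103) (nat_lit 11) (node
  (nat_lit 11) (nat_lit 90873) (nat_lit 12) nil nil) nil) nil)) (node (nat_lit 4) (nat_lit 75306)
  (nat_lit 9) (node (nat_lit 6) (nat_lit 79697) (nat_lit 10) (node (nat_lit 4) (nat_lit 79697)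
  (nat_lit 11) nil nil) (node (nat_lit 11) (nat_lit 86759) (nat_lit 10) nil nil)) (node (nat_lit
  0) (nat_lit 81229) (nat_lit 9) (node (nat_lit 6) (nat_lit 81229) (nat_lit 10) nil nil) nil))))
  (node (nat_lit 4) (nat_lit 0) (nat_lit 8) (node (nat_lit 0) (nat_lit 78101) (nat_lit 9) (node
  (nat_lit 6) (nat_lit 80449) (nat_lit 10) (node (nat_lit 4) (nat_lit 83001) (nat_lit 11) (node
  (nat_lit 6) (nat_lit 83807) (nat_lit 12) (node (nat_lit 5) (nat_lit 85600) (nat_lit 13) nil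
  (node (nat_lit 12) (nat_lit 88938) (nat_lit 13) nil nil)) (node (nat_lit 5) (nat_lit 81672)
  (nat_lit 12) (node (nat_lit 12) (nat_lit 86803) (nat_lit 13) nil nil) (node (nat_lit 0) (nat_lit
  89209) (nat_lit 12) nil nil))) nil) (node (nat_lit 4) (nat_lit 78101) (nat_lit 10) nil nil))
  nil) nil)) nil))) (node (nat_lit 0) (nat_lit 0) (nat_lit 6) (node (nat_lit 4) (nat_lit 74537)
  (nat_lit 7) (node (nat_lit 6) (nat_lit 81687) (nat_lit 8) (node (nat_lit 5) (nat_lit 86565)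
  (nat_lit 9) (node (nat_lit 6) (nat_lit 90611) (nat_lit 10) nil (node (nat_lit 4) (nat_lit 92060)
  (nat_lit 10) nil nil)) (node (nat_lit 4) (nat_lit 84383) (nat_lit 9) (node (nat_lit 5) (nat_lit
  88429) (nat_lit 10) nil nil) nil)) (node (nat_lit 5) (nat_lit 83129) (nat_lit 8) (node (nat_lit
  6) (nat_lit 88023) (nat_lit 9) (node (nat_lit 5) (nat_lit 92679) (nat_lit 10) (node (nat_lit 4)
  (nat_lit 93103) (nat_lit 11) nil nil) (node (nat_lit 4) (nat_lit 92069) (nat_lit 10) nil nil))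
  (node (nat_lit 4) (nat_lit 88876) (nat_lit 9) (node (nat_lit 6) (nat_lit 90581) (nat_lit 10) nil
  nil) (node (nat_lit 9) (nat_lit 92068) (nat_lit 9) nil nil))) (node (nat_lit 9) (nat_lit 89032)
  (nat_lit 8) nil nil))) (node (nat_lit 5) (nat_lit 76994) (nat_lit 7) (node (nat_lit 6) (nat_lit
  84176) (nat_lit 8) (node (nat_lit 4) (nat_lit 90647) (nat_lit 9) (node (nat_lit 6) (nat_lit
  94325) (nat_lit 10) (node (nat_lit 5) (nat_lit 96746) (nat_lit 11) nil nil) (node (nat_lit 5)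
  (nat_lit 92646) (nat_lit 10) (node (nat_lit 4) (nat_lit 93070) (nat_lit 11) nil nil) nil)) (node
  (nat_lit 5) (nat_lit 89946) (nat_lit 9) (node (nat_lit 4) (nat_lit 90262) (nat_lit 10) nil nil)
  nil)) (node (nat_lit 4) (nat_lit 82576) (nat_lit 8) (node (nat_lit 6) (nat_lit 87336) (nat_lit
  9) (node (nat_lit 5) (nat_lit 92371) (nat_lit 10) nil (node (nat_lit 4) (nat_lit 91383) (nat_lit
  10) nil nil)) (node (nat_lit 5) (nat_lit 88428) (nat_lit 9) (node (nat_lit 6) (nat_lit 89144)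
  (nat_lit 10) nil nil) (node (nat_lit 9) (nat_lit 91515) (nat_lit 9) nil nil))) (node (nat_lit 9)
  (nat_lit 89550) (nat_lit 8) nil nil))) (node (nat_lit 6) (nat_lit 74223) (nat_lit 7) (node
  (nat_lit 4) (nat_lit 80407) (nat_lit 8) (node (nat_lit 5) (nat_lit 85918) (nat_lit 9) (node
  (nat_lit 6) (nat_lit 89580) (nat_lit 10) (node (nat_lit 4) (nat_lit 92693) (nat_lit 11) (node
  (nat_lit 6) (nat_lit 92638) (nat_lit 12) (node (nat_lit 9) (nat_lit 40820) (nat_lit 13) nil nil)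
  nil) (node (nat_lit 5) (nat_lit 87564) (nat_lit 11) nil nil)) (node (nat_lit 4) (nat_lit 89925)
  (nat_lit 10) (node (nat_lit 6) (nat_lit 85746) (nat_lit 11) nil nil) nil)) (node (nat_lit 6)
  (nat_lit 83006) (nat_lit 9) (node (nat_lit 5) (nat_lit 87053) (nat_lit 10) (node (nat_lit 4)
  (nat_lit 87477) (nat_lit 11) nil nil) nil) (node (nat_lit 9) (nat_lit 89346) (nat_lit 9) nil
  nil))) (node (nat_lit 5) (nat_lit 82257) (nat_lit 8) (node (nat_lit 4) (nat_lit 86851) (nat_lit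
  9) (node (nat_lit 6) (nat_lit 90897) (nat_lit 10) nil (node (nat_lit 5) (nat_lit 90897) (nat_lit
  10) nil nil)) (node (nat_lit 6) (nat_lit 85276) (nat_lit 9) (node (nat_lit 4) (nat_lit 89323)
  (nat_lit 10) nil nil) nil)) nil)) (node (nat_lit 0) (nat_lit 86614) (nat_lit 7) nil nil))))
  nil)) (node (nat_lit 5) (nat_lit 0) (nat_lit 5) (node (nat_lit 4) (nat_lit 0) (nat_lit 6) (node
  (nat_lit 6) (nat_lit 0) (nat_lit 7) (node (nat_lit 4) (nat_lit 0) (nat_lit 8) (node (nat_lit 0)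
  (nat_lit 0) (nat_lit 9) (node (nat_lit 6) (nat_lit 47830) (nat_lit 10) (node (nat_lit 4)
  (nat_lit 50210) (nat_lit 11) (node (nat_lit 6) (nat_lit 52686) (nat_lit 12) (node (nat_lit 5)
  (nat_lit 53559) (nat_lit 13) (node (nat_lit 4) (nat_lit 54180) (nat_lit 14) nil (node (nat_lit
  6) (nat_lit 54180) (nat_lit 14) nil nil)) (node (nat_lit 12) (nat_lit 54767) (nat_lit 13) (node
  (nat_lit 4) (nat_lit 54767) (nat_lit 14) nil (node (nat_lit 6) (nat_lit 54767) (nat_lit 14) nil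
  nil)) (node (nat_lit 0) (nat_lit 54767) (nat_lit 13) nil nil))) (node (nat_lit 5) (nat_lit
  52763) (nat_lit 12) (node (nat_lit 6) (nat_lit 53559) (nat_lit 13) (node (nat_lit 5) (nat_lit
  54180) (nat_lit 14) (node (nat_lit 4) (nat_lit 54664) (nat_lit 15) (node (nat_lit 5) (nat_lit
  54767) (nat_lit 16) nil nil) nil) (node (nat_lit 4) (nat_lit 54180) (nat_lit 14) (node (nat_lit
  6) (nat_lit 53675) (nat_lit 15) nil nil) (node (nat_lit 12) (nat_lit 54767) (nat_lit 14) nil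
  nil))) (node (nat_lit 4) (nat_lit 53559) (nat_lit 13) (node (nat_lit 6) (nat_lit 54180) (nat_lit
  14) (node (nat_lit 5) (nat_lit 53116) (nat_lit 15) nil nil) nil) (node (nat_lit 12) (nat_lit
  54767) (nat_lit 13) nil (node (nat_lit 0) (nat_lit 54767) (nat_lit 13) nil nil)))) (node
  (nat_lit 0) (nat_lit 54038) (nat_lit 12) nil nil))) (node (nat_lit 12) (nat_lit 53672) (nat_lit
  11) (node (nat_lit 4) (nat_lit 53672) (nat_lit 12) nil nil) (node (nat_lit 5) (nat_lit 47830)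
  (nat_lit 11) nil nil))) (node (nat_lit 4) (nat_lit 47750) (nat_lit 10) (node (nat_lit 6)
  (nat_lit 49940) (nat_lit 11) (node (nat_lit 12) (nat_lit 54664) (nat_lit 12) (node (nat_lit 6)
  (nat_lit 54664) (nat_lit 13) nil nil) nil) nil) (node (nat_lit 5) (nat_lit 48410) (nat_lit 10)
  nil (node (nat_lit 0) (nat_lit 47477) (nat_lit 10) nil nil)))) nil) (node (nat_lit 0) (nat_lit
  0) (nat_lit 8) (node (nat_lit 6) (nat_lit 0) (nat_lit 9) (node (nat_lit 4) (nat_lit 46953)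
  (nat_lit 10) (node (nat_lit 5) (nat_lit 48863) (nat_lit 11) (node (nat_lit 6) (nat_lit 48869)
  (nat_lit 12) nil (node (nat_lit 4) (nat_lit 48961) (nat_lit 12) nil nil)) (node (nat_lit 6)
  (nat_lit 49742) (nat_lit 11) (node (nat_lit 11) (nat_lit 51465) (nat_lit 12) nil nil) (node
  (nat_lit 11) (nat_lit 52807) (nat_lit 11) nil (node (nat_lit 0) (nat_lit 48395) (nat_lit 11) nil
  nil)))) (node (nat_lit 5) (nat_lit 47810) (nat_lit 10) (node (nat_lit 4) (nat_lit 48947)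
  (nat_lit 11) (node (nat_lit 6) (nat_lit 49724) (nat_lit 12) nil (node (nat_lit 5) (nat_lit
  49724) (nat_lit 12) nil nil)) (node (nat_lit 6) (nat_lit 49431) (nat_lit 11) (node (nat_lit 4)
  (nat_lit 50208) (nat_lit 12) nil nil) (node (nat_lit 11) (nat_lit 51722) (nat_lit 11) nil (node
  (nat_lit 0) (nat_lit 49253) (nat_lit 11) nil nil)))) (node (nat_lit 0) (nat_lit 50667) (nat_lit
  10) nil nil))) (node (nat_lit 4) (nat_lit 44303) (nat_lit 9) (node (nat_lit 11) (nat_lit 49763)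
  (nat_lit 10) (node (nat_lit 6) (nat_lit 49763) (nat_lit 11) nil nil) (node (nat_lit 6) (nat_lit
  47314) (nat_lit 10) (node (nat_lit 4) (nat_lit 47314) (nat_lit 11) nil nil) nil)) (node (nat_lit
  5) (nat_lit 44696) (nat_lit 9) (node (nat_lit 6) (nat_lit 44696) (nat_lit 10) nil (node (nat_lit
  11) (nat_lit 47667) (nat_lit 10) nil nil)) (node (nat_lit 0) (nat_lit 46863) (nat_lit 9) (node
  (nat_lit 6) (nat_lit 46863) (nat_lit 10) nil (node (nat_lit 11) (nat_lit 47217) (nat_lit 10) nil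
  nil)) nil)))) (node (nat_lit 5) (nat_lit 0) (nat_lit 8) (node (nat_lit 0) (nat_lit 46427)
  (nat_lit 9) (node (nat_lit 6) (nat_lit 47784) (nat_lit 10) (node (nat_lit 5) (nat_lit 47784)
  (nat_lit 11) (node (nat_lit 6) (nat_lit 47784) (nat_lit 12) nil nil) nil) nil) nil) nil))) (node
  (nat_lit 0) (nat_lit 0) (nat_lit 7) (node (nat_lit 5) (nat_lit 40269) (nat_lit 8) (node (nat_lit
  4) (nat_lit 43781) (nat_lit 9) (node (nat_lit 5) (nat_lit 42791) (nat_lit 10) (node (nat_lit 6)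
  (nat_lit 41394) (nat_lit 11) nil nil) nil) (node (nat_lit 6) (nat_lit 40750) (nat_lit 9) (node
  (nat_lit 4) (nat_lit 39760) (nat_lit 10) (node (nat_lit 5) (nat_lit 40921) (nat_lit 11) nil nil)
  (node (nat_lit 5) (nat_lit 41738) (nat_lit 10) nil nil)) (node (nat_lit 10) (nat_lit 43601)
  (nat_lit 9) nil nil))) (node (nat_lit 6) (nat_lit 0) (nat_lit 8) (node (nat_lit 4) (nat_lit
  41170) (nat_lit 9) (node (nat_lit 6) (nat_lit 43556) (nat_lit 10) nil (node (nat_lit 5) (nat_lit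
  41170) (nat_lit 10) nil nil)) (node (nat_lit 5) (nat_lit 41785) (nat_lit 9) (node (nat_lit 6)
  (nat_lit 42773) (nat_lit 10) (node (nat_lit 4) (nat_lit 43934) (nat_lit 11) nil nil) (node
  (nat_lit 4) (nat_lit 42773) (nat_lit 10) nil nil)) (node (nat_lit 10) (nat_lit 46936) (nat_lit
  9) nil (node (nat_lit 0) (nat_lit 42353) (nat_lit 9) nil nil)))) (node (nat_lit 4) (nat_lit 0)
  (nat_lit 8) (node (nat_lit 6) (nat_lit 39942) (nat_lit 9) (node (nat_lit 4) (nat_lit 39942)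
  (nat_lit 10) nil nil) (node (nat_lit 5) (nat_lit 39942) (nat_lit 9) (node (nat_lit 6) (nat_lit
  39942) (nat_lit 10) nil nil) (node (nat_lit 0) (nat_lit 41881) (nat_lit 9) nil nil))) (node
  (nat_lit 0) (nat_lit 40798) (nat_lit 8) (node (nat_lit 4) (nat_lit 40798) (nat_lit 9) nil nil)
  nil)))) nil)) (node (nat_lit 0) (nat_lit 0) (nat_lit 6) (node (nat_lit 4) (nat_lit 35138)
  (nat_lit 7) (node (nat_lit 6) (nat_lit 40585) (nat_lit 8) (node (nat_lit 5) (nat_lit 45557)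
  (nat_lit 9) (node (nat_lit 6) (nat_lit 48376) (nat_lit 10) (node (nat_lit 4) (nat_lit 48347)
  (nat_lit 11) nil nil) (node (nat_lit 4) (nat_lit 48411) (nat_lit 10) nil nil)) (node (nat_lit 4)
  (nat_lit 42287) (nat_lit 9) (node (nat_lit 5) (nat_lit 44153) (nat_lit 10) nil nil) nil)) (node
  (nat_lit 5) (nat_lit 40003) (nat_lit 8) (node (nat_lit 6) (nat_lit 43652) (nat_lit 9) (node
  (nat_lit 5) (nat_lit 46506) (nat_lit 10) nil (node (nat_lit 4) (nat_lit 45517) (nat_lit 10) nil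
  nil)) (node (nat_lit 4) (nat_lit 43723) (nat_lit 9) (node (nat_lit 6) (nat_lit 43247) (nat_lit
  10) nil nil) nil)) (node (nat_lit 9) (nat_lit 45739) (nat_lit 8) nil nil))) (node (nat_lit 5)
  (nat_lit 35498) (nat_lit 7) (node (nat_lit 6) (nat_lit 40576) (nat_lit 8) (node (nat_lit 4)
  (nat_lit 45396) (nat_lit 9) (node (nat_lit 5) (nat_lit 47534) (nat_lit 10) (node (nat_lit 4)
  (nat_lit 48696) (nat_lit 11) nil nil) (node (nat_lit 6) (nat_lit 46451) (nat_lit 10) (node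
  (nat_lit 5) (nat_lit 46919) (nat_lit 11) (node (nat_lit 4) (nat_lit 46441) (nat_lit 12) nil nil)
  nil) nil)) (node (nat_lit 5) (nat_lit 42435) (nat_lit 9) (node (nat_lit 4) (nat_lit 44301)
  (nat_lit 10) nil nil) nil)) (node (nat_lit 4) (nat_lit 40363) (nat_lit 8) (node (nat_lit 6)
  (nat_lit 43559) (nat_lit 9) (node (nat_lit 5) (nat_lit 46413) (nat_lit 10) nil (node (nat_lit 4)
  (nat_lit 45884) (nat_lit 10) nil nil)) (node (nat_lit 5) (nat_lit 43569) (nat_lit 9) (node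
  (nat_lit 6) (nat_lit 43312) (nat_lit 10) nil nil) nil)) nil)) (node (nat_lit 6) (nat_lit 35894)
  (nat_lit 7) (node (nat_lit 5) (nat_lit 40635) (nat_lit 8) (node (nat_lit 4) (nat_lit 44572)
  (nat_lit 9) (node (nat_lit 5) (nat_lit 47206) (nat_lit 10) (node (nat_lit 6) (nat_lit 45808)
  (nat_lit 11) nil nil) (node (nat_lit 6) (nat_lit 47425) (nat_lit 10) nil nil)) (node (nat_lit 6)
  (nat_lit 44701) (nat_lit 9) nil nil)) (node (nat_lit 4) (nat_lit 40247) (nat_lit 8) (node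
  (nat_lit 5) (nat_lit 44236) (nat_lit 9) (node (nat_lit 6) (nat_lit 46567) (nat_lit 10) (node
  (nat_lit 5) (nat_lit 43959) (nat_lit 11) nil nil) (node (nat_lit 4) (nat_lit 46102) (nat_lit 10)
  nil nil)) (node (nat_lit 6) (nat_lit 43967) (nat_lit 9) nil nil)) (node (nat_lit 9) (nat_lit
  45346) (nat_lit 8) nil nil))) (node (nat_lit 0) (nat_lit 41479) (nat_lit 7) nil nil)))) nil))
  nil))

noncomputable def t453 : Tr :=
  (node (nat_lit 5) (nat_lit 0) (nat_lit 5) (node (nat_lit 7) (nat_lit 0) (nat_lit 6) (node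
  (nat_lit 4) (nat_lit 0) (nat_lit 7) (node (nat_lit 7) (nat_lit 0) (nat_lit 8) (node (nat_lit 0)
  (nat_lit 0) (nat_lit 9) (node (nat_lit 4) (nat_lit 52691) (nat_lit 10) (node (nat_lit 7)
  (nat_lit 55824) (nat_lit 11) (node (nat_lit 4) (nat_lit 59668) (nat_lit 12) (node (nat_lit 5)
  (nat_lit 63232) (nat_lit 13) (node (nat_lit 7) (nat_lit 65191) (nat_lit 14) (node (nat_lit 5)
  (nat_lit 65908) (nat_lit 15) nil (node (nat_lit 4) (nat_lit 65820) (nat_lit 15) nil nil)) (node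
  (nat_lit 4) (nat_lit 65440) (nat_lit 14) (node (nat_lit 7) (nat_lit 64574) (nat_lit 15) nil nil)
  (node (nat_lit 12) (nat_lit 65542) (nat_lit 14) nil nil))) (node (nat_lit 12) (nat_lit 67739)
  (nat_lit 13) (node (nat_lit 7) (nat_lit 67739) (nat_lit 14) nil (node (nat_lit 4) (nat_lit
  67739) (nat_lit 14) nil nil)) (node (nat_lit 0) (nat_lit 66419) (nat_lit 13) nil nil))) (node
  (nat_lit 5) (nat_lit 60246) (nat_lit 12) (node (nat_lit 4) (nat_lit 63513) (nat_lit 13) (node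
  (nat_lit 5) (nat_lit 66131) (nat_lit 14) (node (nat_lit 7) (nat_lit 66250) (nat_lit 15) nil nil)
  (node (nat_lit 7) (nat_lit 65554) (nat_lit 14) (node (nat_lit 4) (nat_lit 64530) (nat_lit 15)
  nil nil) (node (nat_lit 12) (nat_lit 65823) (nat_lit 14) nil nil))) (node (nat_lit 7) (nat_lit
  63475) (nat_lit 13) (node (nat_lit 4) (nat_lit 64989) (nat_lit 14) (node (nat_lit 5) (nat_lit
  65706) (nat_lit 15) nil nil) nil) (node (nat_lit 12) (nat_lit 66997) (nat_lit 13) nil (node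
  (nat_lit 0) (nat_lit 65814) (nat_lit 13) nil nil)))) (node (nat_lit 0) (nat_lit 64022) (nat_lit
  12) nil nil))) (node (nat_lit 12) (nat_lit 61181) (nat_lit 11) (node (nat_lit 7) (nat_lit 61181)
  (nat_lit 12) nil nil) (node (nat_lit 5) (nat_lit 52691) (nat_lit 11) nil nil))) (node (nat_lit
  7) (nat_lit 52484) (nat_lit 10) (node (nat_lit 4) (nat_lit 55866) (nat_lit 11) (node (nat_lit
  12) (nat_lit 64883) (nat_lit 12) (node (nat_lit 4) (nat_lit 64883) (nat_lit 13) nil nil) nil)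
  nil) (node (nat_lit 5) (nat_lit 53146) (nat_lit 10) nil (node (nat_lit 0) (nat_lit 53102)
  (nat_lit 10) nil nil)))) nil) (node (nat_lit 0) (nat_lit 0) (nat_lit 8) (node (nat_lit 4)
  (nat_lit 0) (nat_lit 9) (node (nat_lit 7) (nat_lit 52271) (nat_lit 10) (node (nat_lit 5)
  (nat_lit 55919) (nat_lit 11) (node (nat_lit 4) (nat_lit 55600) (nat_lit 12) nil (node (nat_lit
  7) (nat_lit 58304) (nat_lit 12) nil nil)) (node (nat_lit 4) (nat_lit 54629) (nat_lit 11) (node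
  (nat_lit 11) (nat_lit 56700) (nat_lit 12) nil nil) (node (nat_lit 11) (nat_lit 60242) (nat_lit
  11) nil (node (nat_lit 0) (nat_lit 54019) (nat_lit 11) nil nil)))) (node (nat_lit 5) (nat_lit
  52721) (nat_lit 10) (node (nat_lit 7) (nat_lit 55450) (nat_lit 11) (node (nat_lit 4) (nat_lit
  57835) (nat_lit 12) nil (node (nat_lit 5) (nat_lit 56439) (nat_lit 12) nil nil)) (node (nat_lit
  4) (nat_lit 55245) (nat_lit 11) (node (nat_lit 7) (nat_lit 56124) (nat_lit 12) nil (node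
  (nat_lit 11) (nat_lit 57316) (nat_lit 12) nil nil)) (node (nat_lit 11) (nat_lit 58750) (nat_lit
  11) nil (node (nat_lit 0) (nat_lit 58750) (nat_lit 11) nil nil)))) (node (nat_lit 0) (nat_lit
  56858) (nat_lit 10) nil nil))) (node (nat_lit 7) (nat_lit 48198) (nat_lit 9) (node (nat_lit 11)
  (nat_lit 57668) (nat_lit 10) (node (nat_lit 4) (nat_lit 57668) (nat_lit 11) nil nil) (node
  (nat_lit 4) (nat_lit 52367) (nat_lit 10) (node (nat_lit 7) (nat_lit 52367) (nat_lit 11) nil nil)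
  nil)) (node (nat_lit 5) (nat_lit 48655) (nat_lit 9) (node (nat_lit 4) (nat_lit 48655) (nat_lit
  10) nil (node (nat_lit 11) (nat_lit 53237) (nat_lit 10) nil nil)) (node (nat_lit 0) (nat_lit
  52581) (nat_lit 9) (node (nat_lit 4) (nat_lit 52581) (nat_lit 10) nil (node (nat_lit 11)
  (nat_lit 52985) (nat_lit 10) nil nil)) nil)))) (node (nat_lit 5) (nat_lit 0) (nat_lit 8) (node
  (nat_lit 0) (nat_lit 43268) (nat_lit 9) (node (nat_lit 4) (nat_lit 44395) (nat_lit 10) (node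
  (nat_lit 5) (nat_lit 44395) (nat_lit 11) (node (nat_lit 4) (nat_lit 44395) (nat_lit 12) nil nil)
  nil) nil) nil) nil))) (node (nat_lit 0) (nat_lit 0) (nat_lit 7) (node (nat_lit 5) (nat_lit
  66225) (nat_lit 8) (node (nat_lit 7) (nat_lit 71315) (nat_lit 9) (node (nat_lit 5) (nat_lit
  75462) (nat_lit 10) (node (nat_lit 4) (nat_lit 77330) (nat_lit 11) (node (nat_lit 7) (nat_lit
  79783) (nat_lit 12) (node (nat_lit 4) (nat_lit 79611) (nat_lit 13) (node (nat_lit 5) (nat_lit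
  75092) (nat_lit 14) (node (nat_lit 4) (nat_lit 73004) (nat_lit 15) (node (nat_lit 7) (nat_lit
  67240) (nat_lit 16) (node (nat_lit 5) (nat_lit 61835) (nat_lit 17) (node (nat_lit 7) (nat_lit
  52053) (nat_lit 18) nil nil) nil) nil) nil) nil) nil) nil) nil) (node (nat_lit 4) (nat_lit
  73095) (nat_lit 10) nil nil)) (node (nat_lit 4) (nat_lit 69183) (nat_lit 9) (node (nat_lit 7)
  (nat_lit 68980) (nat_lit 10) (node (nat_lit 5) (nat_lit 68080) (nat_lit 11) nil nil) (node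
  (nat_lit 5) (nat_lit 70963) (nat_lit 10) nil nil)) (node (nat_lit 10) (nat_lit 76653) (nat_lit
  9) nil nil))) (node (nat_lit 4) (nat_lit 0) (nat_lit 8) (node (nat_lit 7) (nat_lit 72841)
  (nat_lit 9) (node (nat_lit 4) (nat_lit 75338) (nat_lit 10) (node (nat_lit 5) (nat_lit 77197)
  (nat_lit 11) nil nil) (node (nat_lit 5) (nat_lit 72841) (nat_lit 10) nil nil)) (node (nat_lit 5)
  (nat_lit 70919) (nat_lit 9) (node (nat_lit 4) (nat_lit 72699) (nat_lit 10) (node (nat_lit 7)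
  (nat_lit 74558) (nat_lit 11) nil nil) (node (nat_lit 7) (nat_lit 72699) (nat_lit 10) nil nil))
  (node (nat_lit 10) (nat_lit 77281) (nat_lit 9) nil (node (nat_lit 0) (nat_lit 71542) (nat_lit 9)
  nil nil)))) (node (nat_lit 7) (nat_lit 0) (nat_lit 8) (node (nat_lit 4) (nat_lit 66605) (nat_lit
  9) (node (nat_lit 5) (nat_lit 66605) (nat_lit 10) (node (nat_lit 4) (nat_lit 65705) (nat_lit 11)
  (node (nat_lit 7) (nat_lit 66123) (nat_lit 12) (node (nat_lit 5) (nat_lit 64933) (nat_lit 13)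
  (node (nat_lit 7) (nat_lit 65048) (nat_lit 14) nil nil) nil) nil) nil) (node (nat_lit 7)
  (nat_lit 66605) (nat_lit 10) nil nil)) (node (nat_lit 5) (nat_lit 66605) (nat_lit 9) (node
  (nat_lit 4) (nat_lit 66605) (nat_lit 10) nil nil) (node (nat_lit 0) (nat_lit 69453) (nat_lit 9)
  nil nil))) (node (nat_lit 0) (nat_lit 72580) (nat_lit 8) (node (nat_lit 7) (nat_lit 72580)
  (nat_lit 9) nil (node (nat_lit 10) (nat_lit 73569) (nat_lit 9) nil nil)) nil)))) nil)) (node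
  (nat_lit 4) (nat_lit 0) (nat_lit 6) (node (nat_lit 0) (nat_lit 0) (nat_lit 7) (node (nat_lit 7)
  (nat_lit 0) (nat_lit 8) (node (nat_lit 4) (nat_lit 80180) (nat_lit 9) (node (nat_lit 7) (nat_lit
  81197) (nat_lit 10) (node (nat_lit 5) (nat_lit 80095) (nat_lit 11) nil nil) (node (nat_lit 5)
  (nat_lit 81197) (nat_lit 10) nil (node (nat_lit 10) (nat_lit 81197) (nat_lit 10) nil nil)))
  (node (nat_lit 5) (nat_lit 79001) (nat_lit 9) (node (nat_lit 4) (nat_lit 79301) (nat_lit 10)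
  (node (nat_lit 7) (nat_lit 81160) (nat_lit 11) nil nil) (node (nat_lit 7) (nat_lit 80781)
  (nat_lit 10) nil (node (nat_lit 10) (nat_lit 81197) (nat_lit 10) nil nil))) (node (nat_lit 10)
  (nat_lit 81197) (nat_lit 9) (node (nat_lit 4) (nat_lit 81197) (nat_lit 10) nil (node (nat_lit 5)
  (nat_lit 81197) (nat_lit 10) nil nil)) (node (nat_lit 0) (nat_lit 79786) (nat_lit 9) nil nil))))
  (node (nat_lit 5) (nat_lit 0) (nat_lit 8) (node (nat_lit 4) (nat_lit 79721) (nat_lit 9) (node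
  (nat_lit 5) (nat_lit 81197) (nat_lit 10) (node (nat_lit 7) (nat_lit 81197) (nat_lit 11) nil nil)
  (node (nat_lit 7) (nat_lit 79519) (nat_lit 10) nil nil)) (node (nat_lit 7) (nat_lit 79258)
  (nat_lit 9) (node (nat_lit 4) (nat_lit 81160) (nat_lit 10) nil (node (nat_lit 5) (nat_lit 80373)
  (nat_lit 10) nil (node (nat_lit 10) (nat_lit 81197) (nat_lit 10) nil nil))) (node (nat_lit 10)
  (nat_lit 81197) (nat_lit 9) (node (nat_lit 4) (nat_lit 81197) (nat_lit 10) nil nil) (node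
  (nat_lit 0) (nat_lit 79972) (nat_lit 9) nil nil)))) (node (nat_lit 4) (nat_lit 0) (nat_lit 8)
  (node (nat_lit 5) (nat_lit 80580) (nat_lit 9) (node (nat_lit 4) (nat_lit 81197) (nat_lit 10)
  (node (nat_lit 7) (nat_lit 81197) (nat_lit 11) nil (node (nat_lit 10) (nat_lit 81197) (nat_lit
  11) nil nil)) (node (nat_lit 7) (nat_lit 81197) (nat_lit 10) nil nil)) (node (nat_lit 7)
  (nat_lit 80580) (nat_lit 9) (node (nat_lit 4) (nat_lit 81197) (nat_lit 10) (node (nat_lit 5)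
  (nat_lit 81197) (nat_lit 11) nil nil) (node (nat_lit 5) (nat_lit 80580) (nat_lit 10) nil nil))
  (node (nat_lit 0) (nat_lit 80229) (nat_lit 9) nil nil))) (node (nat_lit 0) (nat_lit 78245)
  (nat_lit 8) (node (nat_lit 10) (nat_lit 80004) (nat_lit 9) nil (node (nat_lit 4) (nat_lit 78245)
  (nat_lit 9) nil nil)) nil)))) (node (nat_lit 5) (nat_lit 0) (nat_lit 7) (node (nat_lit 0)
  (nat_lit 0) (nat_lit 8) (node (nat_lit 5) (nat_lit 0) (nat_lit 9) (node (nat_lit 7) (nat_lit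
  80634) (nat_lit 10) (node (nat_lit 4) (nat_lit 81197) (nat_lit 11) (node (nat_lit 5) (nat_lit
  81197) (nat_lit 12) nil (node (nat_lit 7) (nat_lit 81197) (nat_lit 12) nil nil)) (node (nat_lit
  5) (nat_lit 80837) (nat_lit 11) nil (node (nat_lit 0) (nat_lit 81197) (nat_lit 11) nil nil)))
  (node (nat_lit 4) (nat_lit 81197) (nat_lit 10) (node (nat_lit 7) (nat_lit 81197) (nat_lit 11)
  nil (node (nat_lit 11) (nat_lit 81197) (nat_lit 11) nil (node (nat_lit 5) (nat_lit 81197)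
  (nat_lit 11) nil nil))) (node (nat_lit 0) (nat_lit 81197) (nat_lit 10) nil nil))) (node (nat_lit
  4) (nat_lit 80466) (nat_lit 9) (node (nat_lit 5) (nat_lit 80466) (nat_lit 10) (node (nat_lit 4)
  (nat_lit 80466) (nat_lit 11) nil nil) (node (nat_lit 11) (nat_lit 81197) (nat_lit 10) nil nil))
  (node (nat_lit 7) (nat_lit 80180) (nat_lit 9) (node (nat_lit 5) (nat_lit 80180) (nat_lit 10) nil
  (node (nat_lit 11) (nat_lit 81197) (nat_lit 10) nil nil)) (node (nat_lit 0) (nat_lit 81197)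
  (nat_lit 9) nil nil)))) (node (nat_lit 7) (nat_lit 0) (nat_lit 8) (node (nat_lit 0) (nat_lit
  81197) (nat_lit 9) (node (nat_lit 5) (nat_lit 81197) (nat_lit 10) (node (nat_lit 7) (nat_lit
  81197) (nat_lit 11) (node (nat_lit 5) (nat_lit 81197) (nat_lit 12) (node (nat_lit 4) (nat_lit
  81197) (nat_lit 13) nil nil) (node (nat_lit 4) (nat_lit 81197) (nat_lit 12) (node (nat_lit 5)
  (nat_lit 81197) (nat_lit 13) nil (node (nat_lit 7) (nat_lit 81197) (nat_lit 13) nil nil)) nil))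
  nil) (node (nat_lit 7) (nat_lit 81197) (nat_lit 10) nil nil)) nil) nil)) nil)) (node (nat_lit 0)
  (nat_lit 0) (nat_lit 6) (node (nat_lit 7) (nat_lit 67055) (nat_lit 7) (node (nat_lit 4) (nat_lit
  74867) (nat_lit 8) (node (nat_lit 5) (nat_lit 78552) (nat_lit 9) (node (nat_lit 4) (nat_lit
  81197) (nat_lit 10) (node (nat_lit 7) (nat_lit 81197) (nat_lit 11) (node (nat_lit 5) (nat_lit
  81197) (nat_lit 12) nil nil) nil) (node (nat_lit 7) (nat_lit 80816) (nat_lit 10) nil nil)) (node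
  (nat_lit 7) (nat_lit 79397) (nat_lit 9) (node (nat_lit 5) (nat_lit 77743) (nat_lit 10) nil nil)
  nil)) (node (nat_lit 5) (nat_lit 73882) (nat_lit 8) (node (nat_lit 4) (nat_lit 80705) (nat_lit
  9) (node (nat_lit 5) (nat_lit 81197) (nat_lit 10) (node (nat_lit 7) (nat_lit 79843) (nat_lit 11)
  nil nil) (node (nat_lit 7) (nat_lit 81197) (nat_lit 10) nil nil)) (node (nat_lit 7) (nat_lit
  78169) (nat_lit 9) (node (nat_lit 4) (nat_lit 80433) (nat_lit 10) nil nil) nil)) (node (nat_lit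
  9) (nat_lit 80013) (nat_lit 8) nil nil))) (node (nat_lit 5) (nat_lit 67454) (nat_lit 7) (node
  (nat_lit 4) (nat_lit 75266) (nat_lit 8) (node (nat_lit 7) (nat_lit 80783) (nat_lit 9) (node
  (nat_lit 5) (nat_lit 80871) (nat_lit 10) (node (nat_lit 7) (nat_lit 81197) (nat_lit 11) (node
  (nat_lit 4) (nat_lit 81197) (nat_lit 12) (node (nat_lit 5) (nat_lit 79881) (nat_lit 13) (node
  (nat_lit 4) (nat_lit 76522) (nat_lit 14) (node (nat_lit 7) (nat_lit 68449) (nat_lit 15) nil nil)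
  nil) nil) nil) nil) (node (nat_lit 4) (nat_lit 81197) (nat_lit 10) (node (nat_lit 5) (nat_lit
  81197) (nat_lit 11) nil nil) nil)) (node (nat_lit 5) (nat_lit 78379) (nat_lit 9) (node (nat_lit
  7) (nat_lit 80643) (nat_lit 10) nil nil) nil)) (node (nat_lit 7) (nat_lit 73945) (nat_lit 8)
  (node (nat_lit 4) (nat_lit 76349) (nat_lit 9) (node (nat_lit 5) (nat_lit 78613) (nat_lit 10) nil
  (node (nat_lit 7) (nat_lit 78613) (nat_lit 10) nil nil)) (node (nat_lit 5) (nat_lit 76308)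
  (nat_lit 9) (node (nat_lit 4) (nat_lit 76919) (nat_lit 10) (node (nat_lit 7) (nat_lit 77877)
  (nat_lit 11) nil nil) nil) nil)) nil)) (node (nat_lit 4) (nat_lit 68984) (nat_lit 7) (node
  (nat_lit 5) (nat_lit 75495) (nat_lit 8) (node (nat_lit 7) (nat_lit 79377) (nat_lit 9) (node
  (nat_lit 5) (nat_lit 81197) (nat_lit 10) (node (nat_lit 4) (nat_lit 80741) (nat_lit 11) nil nil)
  (node (nat_lit 4) (nat_lit 81197) (nat_lit 10) nil nil)) (node (nat_lit 4) (nat_lit 78608)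
  (nat_lit 9) (node (nat_lit 7) (nat_lit 80872) (nat_lit 10) nil nil) nil)) (node (nat_lit 7)
  (nat_lit 75495) (nat_lit 8) (node (nat_lit 5) (nat_lit 79174) (nat_lit 9) (node (nat_lit 4)
  (nat_lit 81197) (nat_lit 10) (node (nat_lit 5) (nat_lit 80561) (nat_lit 11) nil nil) (node
  (nat_lit 7) (nat_lit 81197) (nat_lit 10) nil nil)) (node (nat_lit 4) (nat_lit 78608) (nat_lit 9)
  (node (nat_lit 5) (nat_lit 80872) (nat_lit 10) nil nil) nil)) (node (nat_lit 9) (nat_lit 80550)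
  (nat_lit 8) nil nil))) (node (nat_lit 0) (nat_lit 77129) (nat_lit 7) nil nil)))) nil))) (node
  (nat_lit 4) (nat_lit 0) (nat_lit 5) (node (nat_lit 5) (nat_lit 0) (nat_lit 6) (node (nat_lit 0)
  (nat_lit 0) (nat_lit 7) (node (nat_lit 4) (nat_lit 0) (nat_lit 8) (node (nat_lit 7) (nat_lit
  58417) (nat_lit 9) (node (nat_lit 5) (nat_lit 59310) (nat_lit 10) (node (nat_lit 4) (nat_lit
  58410) (nat_lit 11) nil nil) (node (nat_lit 4) (nat_lit 59564) (nat_lit 10) (node (nat_lit 5)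
  (nat_lit 61422) (nat_lit 11) nil nil) (node (nat_lit 10) (nat_lit 61669) (nat_lit 10) nil nil)))
  (node (nat_lit 5) (nat_lit 57264) (nat_lit 9) (node (nat_lit 4) (nat_lit 59564) (nat_lit 10)
  (node (nat_lit 7) (nat_lit 60760) (nat_lit 11) nil nil) (node (nat_lit 7) (nat_lit 59564)
  (nat_lit 10) (node (nat_lit 4) (nat_lit 61422) (nat_lit 11) nil nil) nil)) (node (nat_lit 10)
  (nat_lit 62411) (nat_lit 9) (node (nat_lit 5) (nat_lit 62411) (nat_lit 10) nil nil) (node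
  (nat_lit 0) (nat_lit 58359) (nat_lit 9) nil nil)))) (node (nat_lit 7) (nat_lit 0) (nat_lit 8)
  (node (nat_lit 5) (nat_lit 56441) (nat_lit 9) (node (nat_lit 7) (nat_lit 58840) (nat_lit 10)
  (node (nat_lit 4) (nat_lit 61115) (nat_lit 11) nil nil) (node (nat_lit 4) (nat_lit 56414)
  (nat_lit 10) (node (nat_lit 5) (nat_lit 55513) (nat_lit 11) nil nil) (node (nat_lit 10) (nat_lit
  59693) (nat_lit 10) nil nil))) (node (nat_lit 4) (nat_lit 57499) (nat_lit 9) (node (nat_lit 5)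
  (nat_lit 59564) (nat_lit 10) (node (nat_lit 7) (nat_lit 61422) (nat_lit 11) nil nil) (node
  (nat_lit 7) (nat_lit 57916) (nat_lit 10) (node (nat_lit 5) (nat_lit 57016) (nat_lit 11) nil nil)
  (node (nat_lit 10) (nat_lit 60751) (nat_lit 10) nil nil))) (node (nat_lit 10) (nat_lit 62144)
  (nat_lit 9) (node (nat_lit 5) (nat_lit 62144) (nat_lit 10) nil nil) (node (nat_lit 0) (nat_lit
  57537) (nat_lit 9) nil nil)))) (node (nat_lit 5) (nat_lit 0) (nat_lit 8) (node (nat_lit 4)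
  (nat_lit 57840) (nat_lit 9) (node (nat_lit 5) (nat_lit 59564) (nat_lit 10) (node (nat_lit 7)
  (nat_lit 61422) (nat_lit 11) nil (node (nat_lit 10) (nat_lit 63171) (nat_lit 11) nil nil)) (node
  (nat_lit 7) (nat_lit 56859) (nat_lit 10) nil nil)) (node (nat_lit 7) (nat_lit 57147) (nat_lit 9)
  (node (nat_lit 4) (nat_lit 58150) (nat_lit 10) nil (node (nat_lit 5) (nat_lit 58150) (nat_lit
  10) (node (nat_lit 4) (nat_lit 57249) (nat_lit 11) nil nil) nil)) (node (nat_lit 0) (nat_lit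
  58258) (nat_lit 9) nil nil))) (node (nat_lit 0) (nat_lit 60221) (nat_lit 8) (node (nat_lit 10)
  (nat_lit 61626) (nat_lit 9) nil (node (nat_lit 5) (nat_lit 60221) (nat_lit 9) nil nil)) nil))))
  (node (nat_lit 7) (nat_lit 0) (nat_lit 7) (node (nat_lit 0) (nat_lit 0) (nat_lit 8) (node
  (nat_lit 7) (nat_lit 0) (nat_lit 9) (node (nat_lit 5) (nat_lit 60675) (nat_lit 10) (node
  (nat_lit 4) (nat_lit 61422) (nat_lit 11) (node (nat_lit 5) (nat_lit 60432) (nat_lit 12) nil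
  (node (nat_lit 7) (nat_lit 62411) (nat_lit 12) nil (node (nat_lit 0) (nat_lit 63493) (nat_lit
  12) nil nil))) (node (nat_lit 7) (nat_lit 61422) (nat_lit 11) (node (nat_lit 11) (nat_lit 63493)
  (nat_lit 12) nil nil) (node (nat_lit 11) (nat_lit 63171) (nat_lit 11) nil (node (nat_lit 0)
  (nat_lit 62424) (nat_lit 11) nil nil)))) (node (nat_lit 4) (nat_lit 60284) (nat_lit 10) (node
  (nat_lit 5) (nat_lit 61422) (nat_lit 11) (node (nat_lit 4) (nat_lit 60432) (nat_lit 12) nil nil)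
  (node (nat_lit 7) (nat_lit 61422) (nat_lit 11) (node (nat_lit 11) (nat_lit 63493) (nat_lit 12)
  nil nil) (node (nat_lit 0) (nat_lit 63171) (nat_lit 11) nil (node (nat_lit 11) (nat_lit 62032)
  (nat_lit 11) nil nil)))) (node (nat_lit 0) (nat_lit 62816) (nat_lit 10) nil nil))) (node
  (nat_lit 5) (nat_lit 58895) (nat_lit 9) (node (nat_lit 11) (nat_lit 62816) (nat_lit 10) (node
  (nat_lit 7) (nat_lit 62816) (nat_lit 11) nil nil) (node (nat_lit 7) (nat_lit 58895) (nat_lit 10)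
  (node (nat_lit 5) (nat_lit 58895) (nat_lit 11) nil nil) nil)) (node (nat_lit 0) (nat_lit 62411)
  (nat_lit 9) (node (nat_lit 7) (nat_lit 62411) (nat_lit 10) nil nil) (node (nat_lit 4) (nat_lit
  59460) (nat_lit 9) (node (nat_lit 11) (nat_lit 60853) (nat_lit 10) nil nil) nil)))) (node
  (nat_lit 5) (nat_lit 0) (nat_lit 8) (node (nat_lit 0) (nat_lit 59902) (nat_lit 9) (node (nat_lit
  7) (nat_lit 59902) (nat_lit 10) (node (nat_lit 5) (nat_lit 59902) (nat_lit 11) (node (nat_lit 7)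
  (nat_lit 59902) (nat_lit 12) (node (nat_lit 12) (nat_lit 62863) (nat_lit 13) nil (node (nat_lit
  4) (nat_lit 60936) (nat_lit 13) nil (node (nat_lit 0) (nat_lit 62863) (nat_lit 13) nil nil)))
  (node (nat_lit 4) (nat_lit 59902) (nat_lit 12) (node (nat_lit 7) (nat_lit 60936) (nat_lit 13)
  nil (node (nat_lit 5) (nat_lit 59082) (nat_lit 13) nil (node (nat_lit 12) (nat_lit 62863)
  (nat_lit 13) nil nil))) (node (nat_lit 0) (nat_lit 62371) (nat_lit 12) nil nil))) (node (nat_lit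
  12) (nat_lit 61742) (nat_lit 11) nil nil)) (node (nat_lit 5) (nat_lit 59902) (nat_lit 10) (node
  (nat_lit 7) (nat_lit 59902) (nat_lit 11) nil nil) nil)) nil) (node (nat_lit 4) (nat_lit 0)
  (nat_lit 8) (node (nat_lit 0) (nat_lit 59902) (nat_lit 9) (node (nat_lit 7) (nat_lit 59902)
  (nat_lit 10) (node (nat_lit 4) (nat_lit 59902) (nat_lit 11) (node (nat_lit 7) (nat_lit 59902)
  (nat_lit 12) nil nil) nil) nil) nil) nil))) nil)) (node (nat_lit 0) (nat_lit 0) (nat_lit 6)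
  (node (nat_lit 7) (nat_lit 51718) (nat_lit 7) (node (nat_lit 4) (nat_lit 54146) (nat_lit 8)
  (node (nat_lit 5) (nat_lit 56868) (nat_lit 9) (node (nat_lit 4) (nat_lit 55269) (nat_lit 10)
  (node (nat_lit 7) (nat_lit 56314) (nat_lit 11) (node (nat_lit 4) (nat_lit 54840) (nat_lit 12)
  nil nil) nil) (node (nat_lit 7) (nat_lit 59132) (nat_lit 10) nil nil)) (node (nat_lit 7)
  (nat_lit 55034) (nat_lit 9) (node (nat_lit 5) (nat_lit 53435) (nat_lit 10) nil nil) nil)) (node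
  (nat_lit 5) (nat_lit 54440) (nat_lit 8) (node (nat_lit 4) (nat_lit 57299) (nat_lit 9) (node
  (nat_lit 5) (nat_lit 59564) (nat_lit 10) (node (nat_lit 7) (nat_lit 61422) (nat_lit 11) (node
  (nat_lit 4) (nat_lit 62411) (nat_lit 12) nil nil) nil) (node (nat_lit 7) (nat_lit 59564)
  (nat_lit 10) nil nil)) (node (nat_lit 7) (nat_lit 57161) (nat_lit 9) (node (nat_lit 4) (nat_lit
  59425) (nat_lit 10) nil nil) nil)) (node (nat_lit 9) (nat_lit 61345) (nat_lit 8) nil nil)))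
  (node (nat_lit 5) (nat_lit 51759) (nat_lit 7) (node (nat_lit 4) (nat_lit 54860) (nat_lit 8)
  (node (nat_lit 7) (nat_lit 55835) (nat_lit 9) (node (nat_lit 4) (nat_lit 59564) (nat_lit 10)
  (node (nat_lit 5) (nat_lit 61422) (nat_lit 11) nil nil) (node (nat_lit 5) (nat_lit 56858)
  (nat_lit 10) (node (nat_lit 7) (nat_lit 58645) (nat_lit 11) (node (nat_lit 4) (nat_lit 58258)
  (nat_lit 12) nil nil) nil) nil)) (node (nat_lit 5) (nat_lit 57299) (nat_lit 9) nil nil)) (node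
  (nat_lit 7) (nat_lit 53596) (nat_lit 8) (node (nat_lit 4) (nat_lit 57299) (nat_lit 9) (node
  (nat_lit 5) (nat_lit 59564) (nat_lit 10) nil (node (nat_lit 7) (nat_lit 59564) (nat_lit 10) nil
  nil)) (node (nat_lit 5) (nat_lit 54769) (nat_lit 9) nil nil)) (node (nat_lit 9) (nat_lit 61387)
  (nat_lit 8) nil nil))) (node (nat_lit 4) (nat_lit 52658) (nat_lit 7) (node (nat_lit 7) (nat_lit
  55866) (nat_lit 8) (node (nat_lit 5) (nat_lit 57299) (nat_lit 9) (node (nat_lit 4) (nat_lit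
  59436) (nat_lit 10) nil (node (nat_lit 7) (nat_lit 59564) (nat_lit 10) nil nil)) (node (nat_lit
  4) (nat_lit 57299) (nat_lit 9) (node (nat_lit 5) (nat_lit 59564) (nat_lit 10) nil nil) nil))
  (node (nat_lit 5) (nat_lit 54379) (nat_lit 8) (node (nat_lit 7) (nat_lit 57101) (nat_lit 9)
  (node (nat_lit 4) (nat_lit 59365) (nat_lit 10) nil (node (nat_lit 5) (nat_lit 59365) (nat_lit
  10) nil nil)) (node (nat_lit 4) (nat_lit 56331) (nat_lit 9) (node (nat_lit 7) (nat_lit 58595)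
  (nat_lit 10) nil nil) nil)) nil)) (node (nat_lit 0) (nat_lit 57878) (nat_lit 7) nil nil))))
  nil)) nil))

noncomputable def c56 : Tr :=
  (node (nat_lit 3) (nat_lit 0) (nat_lit 1) (node (nat_lit 3) (nat_lit 0) (nat_lit 2) (node
  (nat_lit 3) (nat_lit 0) (nat_lit 3) (node (nat_lit 4) (nat_lit 0) (nat_lit 4) t452 (node
  (nat_lit 5) (nat_lit 0) (nat_lit 4) (node (nat_lit 4) (nat_lit 0) (nat_lit 5) (node (nat_lit 6)
  (nat_lit 0) (nat_lit 6) (node (nat_lit 4) (nat_lit 0) (nat_lit 7) (node (nat_lit 0) (nat_lit 0)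
  (nat_lit 8) (node (nat_lit 4) (nat_lit 0) (nat_lit 9) (node (nat_lit 5) (nat_lit 96526) (nat_lit
  10) (node (nat_lit 6) (nat_lit 101527) (nat_lit 11) (node (nat_lit 4) (nat_lit 104023) (nat_lit
  12) nil (node (nat_lit 5) (nat_lit 104235) (nat_lit 12) nil nil)) (node (nat_lit 4) (nat_lit
  102382) (nat_lit 11) (node (nat_lit 6) (nat_lit 104277) (nat_lit 12) (node (nat_lit 5) (nat_lit
  100739) (nat_lit 13) nil nil) (node (nat_lit 11) (nat_lit 106224) (nat_lit 12) nil (node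
  (nat_lit 0) (nat_lit 106224) (nat_lit 12) nil nil))) (node (nat_lit 11) (nat_lit 104034)
  (nat_lit 11) nil (node (nat_lit 0) (nat_lit 104034) (nat_lit 11) nil nil)))) (node (nat_lit 6)
  (nat_lit 96828) (nat_lit 10) (node (nat_lit 5) (nat_lit 103065) (nat_lit 11) (node (nat_lit 4)
  (nat_lit 105066) (nat_lit 12) nil (node (nat_lit 6) (nat_lit 107049) (nat_lit 12) nil nil))
  (node (nat_lit 11) (nat_lit 106805) (nat_lit 11) nil (node (nat_lit 4) (nat_lit 99737) (nat_lit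
  11) (node (nat_lit 5) (nat_lit 101639) (nat_lit 12) nil nil) (node (nat_lit 0) (nat_lit 104336)
  (nat_lit 11) nil nil)))) (node (nat_lit 0) (nat_lit 105093) (nat_lit 10) nil nil))) (node
  (nat_lit 6) (nat_lit 93160) (nat_lit 9) (node (nat_lit 11) (nat_lit 105514) (nat_lit 10) (node
  (nat_lit 4) (nat_lit 105514) (nat_lit 11) nil nil) (node (nat_lit 4) (nat_lit 96957) (nat_lit
  10) (node (nat_lit 6) (nat_lit 100036) (nat_lit 11) (node (nat_lit 11) (nat_lit 103879) (nat_lit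
  12) nil nil) nil) (node (nat_lit 0) (nat_lit 95710) (nat_lit 10) nil nil))) (node (nat_lit 5)
  (nat_lit 94338) (nat_lit 9) (node (nat_lit 4) (nat_lit 97377) (nat_lit 10) (node (nat_lit 5)
  (nat_lit 98349) (nat_lit 11) nil nil) (node (nat_lit 11) (nat_lit 105840) (nat_lit 10) nil nil))
  (node (nat_lit 0) (nat_lit 100422) (nat_lit 9) (node (nat_lit 4) (nat_lit 100422) (nat_lit 10)
  nil (node (nat_lit 11) (nat_lit 101192) (nat_lit 10) nil nil)) nil)))) (node (nat_lit 5)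
  (nat_lit 0) (nat_lit 8) (node (nat_lit 0) (nat_lit 77639) (nat_lit 9) (node (nat_lit 4) (nat_lit
  78286) (nat_lit 10) (node (nat_lit 5) (nat_lit 80881) (nat_lit 11) (node (nat_lit 4) (nat_lit
  82472) (nat_lit 12) (node (nat_lit 6) (nat_lit 85309) (nat_lit 13) (node (nat_lit 5) (nat_lit
  83219) (nat_lit 14) nil nil) (node (nat_lit 12) (nat_lit 91714) (nat_lit 13) nil (node (nat_lit
  0) (nat_lit 87603) (nat_lit 13) nil nil))) (node (nat_lit 6) (nat_lit 82650) (nat_lit 12) (node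
  (nat_lit 4) (nat_lit 84442) (nat_lit 13) nil (node (nat_lit 5) (nat_lit 84442) (nat_lit 13) nil
  (node (nat_lit 12) (nat_lit 87781) (nat_lit 13) nil nil))) (node (nat_lit 0) (nat_lit 90428)
  (nat_lit 12) nil nil))) nil) (node (nat_lit 5) (nat_lit 77639) (nat_lit 10) nil nil)) nil) nil))
  (node (nat_lit 0) (nat_lit 0) (nat_lit 7) (node (nat_lit 5) (nat_lit 0) (nat_lit 8) (node
  (nat_lit 6) (nat_lit 103093) (nat_lit 9) (node (nat_lit 5) (nat_lit 107554) (nat_lit 10) (node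
  (nat_lit 4) (nat_lit 111876) (nat_lit 11) (node (nat_lit 6) (nat_lit 109793) (nat_lit 12) nil
  nil) nil) (node (nat_lit 4) (nat_lit 103283) (nat_lit 10) (node (nat_lit 5) (nat_lit 106396)
  (nat_lit 11) nil nil) (node (nat_lit 10) (nat_lit 108756) (nat_lit 10) nil nil))) (node (nat_lit
  4) (nat_lit 102616) (nat_lit 9) (node (nat_lit 6) (nat_lit 107019) (nat_lit 10) (node (nat_lit
  5) (nat_lit 108213) (nat_lit 11) nil nil) (node (nat_lit 5) (nat_lit 104212) (nat_lit 10) (node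
  (nat_lit 6) (nat_lit 104767) (nat_lit 11) nil nil) (node (nat_lit 10) (nat_lit 108279) (nat_lit
  10) nil nil))) (node (nat_lit 10) (nat_lit 111924) (nat_lit 9) nil (node (nat_lit 0) (nat_lit
  105502) (nat_lit 9) nil nil)))) (node (nat_lit 4) (nat_lit 0) (nat_lit 8) (node (nat_lit 5)
  (nat_lit 103602) (nat_lit 9) (node (nat_lit 6) (nat_lit 105582) (nat_lit 10) (node (nat_lit 4)
  (nat_lit 108695) (nat_lit 11) nil nil) (node (nat_lit 4) (nat_lit 106645) (nat_lit 10) (node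
  (nat_lit 6) (nat_lit 109780) (nat_lit 11) nil nil) (node (nat_lit 10) (nat_lit 109265) (nat_lit
  10) nil nil))) (node (nat_lit 6) (nat_lit 103736) (nat_lit 9) (node (nat_lit 4) (nat_lit 107652)
  (nat_lit 10) (node (nat_lit 5) (nat_lit 110056) (nat_lit 11) nil nil) (node (nat_lit 5) (nat_lit
  107724) (nat_lit 10) (node (nat_lit 4) (nat_lit 108148) (nat_lit 11) nil nil) nil)) (node
  (nat_lit 10) (nat_lit 111874) (nat_lit 9) (node (nat_lit 6) (nat_lit 111874) (nat_lit 10) nil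
  nil) (node (nat_lit 0) (nat_lit 106845) (nat_lit 9) nil nil)))) (node (nat_lit 6) (nat_lit 0)
  (nat_lit 8) (node (nat_lit 4) (nat_lit 103039) (nat_lit 9) (node (nat_lit 6) (nat_lit 105576)
  (nat_lit 10) (node (nat_lit 10) (nat_lit 111917) (nat_lit 11) nil (node (nat_lit 5) (nat_lit
  106000) (nat_lit 11) nil nil)) (node (nat_lit 5) (nat_lit 101994) (nat_lit 10) (node (nat_lit 6)
  (nat_lit 102549) (nat_lit 11) nil (node (nat_lit 4) (nat_lit 102418) (nat_lit 11) nil nil))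
  (node (nat_lit 10) (nat_lit 108703) (nat_lit 10) nil nil))) (node (nat_lit 5) (nat_lit 102667)
  (nat_lit 9) (node (nat_lit 6) (nat_lit 105435) (nat_lit 10) (node (nat_lit 4) (nat_lit 108548)
  (nat_lit 11) nil nil) (node (nat_lit 4) (nat_lit 105435) (nat_lit 10) (node (nat_lit 6) (nat_lit
  108548) (nat_lit 11) nil nil) nil)) (node (nat_lit 0) (nat_lit 105983) (nat_lit 9) nil nil)))
  (node (nat_lit 0) (nat_lit 107407) (nat_lit 8) (node (nat_lit 6) (nat_lit 107407) (nat_lit 9)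
  nil (node (nat_lit 10) (nat_lit 109187) (nat_lit 9) nil nil)) nil)))) (node (nat_lit 5) (nat_lit
  0) (nat_lit 7) (node (nat_lit 0) (nat_lit 0) (nat_lit 8) (node (nat_lit 5) (nat_lit 0) (nat_lit
  9) (node (nat_lit 4) (nat_lit 104893) (nat_lit 10) (node (nat_lit 6) (nat_lit 107560) (nat_lit
  11) nil (node (nat_lit 5) (nat_lit 109439) (nat_lit 11) nil (node (nat_lit 11) (nat_lit 108121)
  (nat_lit 11) nil (node (nat_lit 0) (nat_lit 108121) (nat_lit 11) nil nil)))) (node (nat_lit 6)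
  (nat_lit 103784) (nat_lit 10) (node (nat_lit 5) (nat_lit 106258) (nat_lit 11) (node (nat_lit 11)
  (nat_lit 110100) (nat_lit 12) nil nil) (node (nat_lit 11) (nat_lit 113763) (nat_lit 11) nil
  (node (nat_lit 4) (nat_lit 104757) (nat_lit 11) nil (node (nat_lit 0) (nat_lit 107013) (nat_lit
  11) nil nil)))) (node (nat_lit 0) (nat_lit 108656) (nat_lit 10) nil nil))) (node (nat_lit 6)
  (nat_lit 101167) (nat_lit 9) (node (nat_lit 11) (nat_lit 108746) (nat_lit 10) (node (nat_lit 5)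
  (nat_lit 108746) (nat_lit 11) nil nil) (node (nat_lit 5) (nat_lit 101167) (nat_lit 10) (node
  (nat_lit 6) (nat_lit 101167) (nat_lit 11) nil nil) nil)) (node (nat_lit 0) (nat_lit 105164)
  (nat_lit 9) nil (node (nat_lit 4) (nat_lit 98356) (nat_lit 9) (node (nat_lit 11) (nat_lit
  100906) (nat_lit 10) nil nil) nil)))) (node (nat_lit 6) (nat_lit 0) (nat_lit 8) (node (nat_lit
  0) (nat_lit 103700) (nat_lit 9) (node (nat_lit 5) (nat_lit 104129) (nat_lit 10) (node (nat_lit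
  6) (nat_lit 103606) (nat_lit 11) (node (nat_lit 5) (nat_lit 103606) (nat_lit 12) nil (node
  (nat_lit 4) (nat_lit 103606) (nat_lit 12) nil nil)) (node (nat_lit 12) (nat_lit 107318) (nat_lit
  11) nil nil)) (node (nat_lit 6) (nat_lit 103700) (nat_lit 10) (node (nat_lit 5) (nat_lit 103700)
  (nat_lit 11) nil nil) nil)) nil) nil)) nil))) (node (nat_lit 5) (nat_lit 0) (nat_lit 6) (node
  (nat_lit 0) (nat_lit 0) (nat_lit 7) (node (nat_lit 4) (nat_lit 90631) (nat_lit 8) (node (nat_lit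
  6) (nat_lit 92348) (nat_lit 9) (node (nat_lit 4) (nat_lit 94129) (nat_lit 10) (node (nat_lit 5)
  (nat_lit 95747) (nat_lit 11) (node (nat_lit 6) (nat_lit 95747) (nat_lit 12) (node (nat_lit 5)
  (nat_lit 95747) (nat_lit 13) (node (nat_lit 4) (nat_lit 95747) (nat_lit 14) (node (nat_lit 5)
  (nat_lit 95747) (nat_lit 15) (node (nat_lit 10) (nat_lit 41009) (nat_lit 16) nil nil) nil) nil)
  nil) nil) nil) (node (nat_lit 5) (nat_lit 92294) (nat_lit 10) (node (nat_lit 4) (nat_lit 91557)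
  (nat_lit 11) nil nil) nil)) (node (nat_lit 5) (nat_lit 92421) (nat_lit 9) (node (nat_lit 4)
  (nat_lit 94201) (nat_lit 10) nil (node (nat_lit 6) (nat_lit 92421) (nat_lit 10) nil nil)) (node
  (nat_lit 10) (nat_lit 95747) (nat_lit 9) nil nil))) (node (nat_lit 6) (nat_lit 90964) (nat_lit
  8) (node (nat_lit 4) (nat_lit 89964) (nat_lit 9) (node (nat_lit 5) (nat_lit 89909) (nat_lit 10)
  (node (nat_lit 6) (nat_lit 91861) (nat_lit 11) (node (nat_lit 5) (nat_lit 92864) (nat_lit 12)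
  (node (nat_lit 4) (nat_lit 91731) (nat_lit 13) (node (nat_lit 5) (nat_lit 92099) (nat_lit 14)
  nil nil) nil) nil) nil) (node (nat_lit 6) (nat_lit 89762) (nat_lit 10) (node (nat_lit 5)
  (nat_lit 89024) (nat_lit 11) nil nil) nil)) (node (nat_lit 5) (nat_lit 93278) (nat_lit 9) (node
  (nat_lit 6) (nat_lit 95058) (nat_lit 10) (node (nat_lit 4) (nat_lit 95747) (nat_lit 11) nil nil)
  (node (nat_lit 4) (nat_lit 93278) (nat_lit 10) nil nil)) (node (nat_lit 10) (nat_lit 93918)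
  (nat_lit 9) nil nil))) (node (nat_lit 5) (nat_lit 90913) (nat_lit 8) (node (nat_lit 6) (nat_lit
  90913) (nat_lit 9) (node (nat_lit 5) (nat_lit 90913) (nat_lit 10) nil nil) (node (nat_lit 4)
  (nat_lit 90913) (nat_lit 9) (node (nat_lit 6) (nat_lit 90913) (nat_lit 10) nil nil) nil)) (node
  (nat_lit 0) (nat_lit 95747) (nat_lit 8) (node (nat_lit 10) (nat_lit 95747) (nat_lit 9) nil nil)
  nil)))) (node (nat_lit 6) (nat_lit 0) (nat_lit 7) (node (nat_lit 0) (nat_lit 0) (nat_lit 8)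
  (node (nat_lit 6) (nat_lit 0) (nat_lit 9) (node (nat_lit 5) (nat_lit 95124) (nat_lit 10) (node
  (nat_lit 4) (nat_lit 95747) (nat_lit 11) (node (nat_lit 6) (nat_lit 95747) (nat_lit 12) nil
  (node (nat_lit 5) (nat_lit 95747) (nat_lit 12) nil nil)) (node (nat_lit 6) (nat_lit 95747)
  (nat_lit 11) nil (node (nat_lit 11) (nat_lit 95747) (nat_lit 11) nil nil))) (node (nat_lit 4)
  (nat_lit 92364) (nat_lit 10) (node (nat_lit 5) (nat_lit 92364) (nat_lit 11) nil (node (nat_lit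
  6) (nat_lit 92277) (nat_lit 11) nil nil)) (node (nat_lit 0) (nat_lit 95116) (nat_lit 10) nil
  nil))) (node (nat_lit 5) (nat_lit 93299) (nat_lit 9) (node (nat_lit 6) (nat_lit 93299) (nat_lit
  10) (node (nat_lit 5) (nat_lit 93299) (nat_lit 11) nil nil) (node (nat_lit 11) (nat_lit 94718)
  (nat_lit 10) nil nil)) (node (nat_lit 4) (nat_lit 94453) (nat_lit 9) (node (nat_lit 6) (nat_lit
  94453) (nat_lit 10) nil (node (nat_lit 11) (nat_lit 95747) (nat_lit 10) nil nil)) (node (nat_lit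
  0) (nat_lit 95747) (nat_lit 9) (node (nat_lit 6) (nat_lit 95747) (nat_lit 10) nil nil) nil))))
  (node (nat_lit 4) (nat_lit 0) (nat_lit 8) (node (nat_lit 0) (nat_lit 95747) (nat_lit 9) (node
  (nat_lit 6) (nat_lit 95747) (nat_lit 10) (node (nat_lit 4) (nat_lit 95747) (nat_lit 11) (node
  (nat_lit 6) (nat_lit 95747) (nat_lit 12) nil nil) nil) nil) nil) nil)) nil)) (node (nat_lit 0)
  (nat_lit 0) (nat_lit 6) (node (nat_lit 5) (nat_lit 108765) (nat_lit 7) (node (nat_lit 6)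
  (nat_lit 113637) (nat_lit 8) (node (nat_lit 4) (nat_lit 117356) (nat_lit 9) (node (nat_lit 6)
  (nat_lit 120639) (nat_lit 10) (node (nat_lit 5) (nat_lit 120320) (nat_lit 11) (node (nat_lit 4)
  (nat_lit 119538) (nat_lit 12) (node (nat_lit 5) (nat_lit 117056) (nat_lit 13) (node (nat_lit 6)
  (nat_lit 112628) (nat_lit 14) (node (nat_lit 5) (nat_lit 105815) (nat_lit 15) (node (nat_lit 4)
  (nat_lit 99248) (nat_lit 16) nil nil) nil) nil) nil) nil) nil) nil) (node (nat_lit 5) (nat_lit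
  113637) (nat_lit 9) nil nil)) (node (nat_lit 4) (nat_lit 111717) (nat_lit 8) (node (nat_lit 6)
  (nat_lit 112141) (nat_lit 9) nil (node (nat_lit 5) (nat_lit 111717) (nat_lit 9) nil nil)) (node
  (nat_lit 9) (nat_lit 115924) (nat_lit 8) nil nil))) (node (nat_lit 6) (nat_lit 107942) (nat_lit
  7) (node (nat_lit 4) (nat_lit 111894) (nat_lit 8) (node (nat_lit 5) (nat_lit 111548) (nat_lit 9)
  (node (nat_lit 6) (nat_lit 112264) (nat_lit 10) (node (nat_lit 5) (nat_lit 113810) (nat_lit 11)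
  (node (nat_lit 4) (nat_lit 111884) (nat_lit 12) (node (nat_lit 9) (nat_lit 23295) (nat_lit 13)
  nil nil) nil) nil) (node (nat_lit 4) (nat_lit 111864) (nat_lit 10) nil nil)) (node (nat_lit 6)
  (nat_lit 111894) (nat_lit 9) nil nil)) (node (nat_lit 5) (nat_lit 112108) (nat_lit 8) (node
  (nat_lit 4) (nat_lit 112108) (nat_lit 9) nil (node (nat_lit 6) (nat_lit 112108) (nat_lit 9) nil
  nil)) (node (nat_lit 9) (nat_lit 115101) (nat_lit 8) nil nil))) (node (nat_lit 4) (nat_lit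
  107630) (nat_lit 7) (node (nat_lit 6) (nat_lit 115008) (nat_lit 8) (node (nat_lit 5) (nat_lit
  117422) (nat_lit 9) (node (nat_lit 4) (nat_lit 117738) (nat_lit 10) nil nil) nil) (node (nat_lit
  5) (nat_lit 112659) (nat_lit 8) (node (nat_lit 6) (nat_lit 112659) (nat_lit 9) nil (node
  (nat_lit 4) (nat_lit 114872) (nat_lit 9) (node (nat_lit 6) (nat_lit 115588) (nat_lit 10) nil
  nil) nil)) nil)) (node (nat_lit 0) (nat_lit 110743) (nat_lit 7) nil nil)))) nil))) nil) nil))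
  (node (nat_lit 4) (nat_lit 0) (nat_lit 3) (node (nat_lit 3) (nat_lit 0) (nat_lit 4) t453 nil)
  nil)) nil) nil)

noncomputable def t454 : Tr :=
  (node (nat_lit 6) (nat_lit 0) (nat_lit 5) (node (nat_lit 5) (nat_lit 0) (nat_lit 6) (node
  (nat_lit 0) (nat_lit 0) (nat_lit 7) (node (nat_lit 5) (nat_lit 0) (nat_lit 8) (node (nat_lit 6)
  (nat_lit 53776) (nat_lit 9) (node (nat_lit 4) (nat_lit 57092) (nat_lit 10) (node (nat_lit 5)
  (nat_lit 56905) (nat_lit 11) (node (nat_lit 4) (nat_lit 57158) (nat_lit 12) nil (node (nat_lit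
  6) (nat_lit 57237) (nat_lit 12) nil nil)) (node (nat_lit 6) (nat_lit 58574) (nat_lit 11) nil
  (node (nat_lit 0) (nat_lit 60876) (nat_lit 11) nil (node (nat_lit 10) (nat_lit 60876) (nat_lit
  11) nil nil)))) (node (nat_lit 5) (nat_lit 56847) (nat_lit 10) (node (nat_lit 10) (nat_lit
  62894) (nat_lit 11) nil (node (nat_lit 4) (nat_lit 56847) (nat_lit 11) nil nil)) (node (nat_lit
  10) (nat_lit 65404) (nat_lit 10) (node (nat_lit 5) (nat_lit 65404) (nat_lit 11) nil nil) (node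
  (nat_lit 0) (nat_lit 59059) (nat_lit 10) nil nil)))) (node (nat_lit 4) (nat_lit 54556) (nat_lit
  9) (node (nat_lit 6) (nat_lit 56862) (nat_lit 10) (node (nat_lit 5) (nat_lit 58749) (nat_lit 11)
  nil (node (nat_lit 4) (nat_lit 57916) (nat_lit 11) nil (node (nat_lit 10) (nat_lit 60646)
  (nat_lit 11) nil (node (nat_lit 0) (nat_lit 60646) (nat_lit 11) nil nil)))) (node (nat_lit 5)
  (nat_lit 57029) (nat_lit 10) (node (nat_lit 6) (nat_lit 58017) (nat_lit 11) nil (node (nat_lit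
  10) (nat_lit 62048) (nat_lit 11) nil nil)) (node (nat_lit 10) (nat_lit 63866) (nat_lit 10) nil
  (node (nat_lit 0) (nat_lit 62393) (nat_lit 10) nil nil)))) (node (nat_lit 0) (nat_lit 61649)
  (nat_lit 9) nil nil))) (node (nat_lit 6) (nat_lit 0) (nat_lit 8) (node (nat_lit 5) (nat_lit
  54049) (nat_lit 9) (node (nat_lit 6) (nat_lit 54049) (nat_lit 10) (node (nat_lit 10) (nat_lit
  57833) (nat_lit 11) nil nil) nil) (node (nat_lit 10) (nat_lit 61592) (nat_lit 9) (node (nat_lit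
  5) (nat_lit 61592) (nat_lit 10) (node (nat_lit 10) (nat_lit 62456) (nat_lit 11) nil nil) nil)
  (node (nat_lit 0) (nat_lit 52685) (nat_lit 9) nil (node (nat_lit 4) (nat_lit 49765) (nat_lit 9)
  nil nil)))) (node (nat_lit 4) (nat_lit 50272) (nat_lit 8) (node (nat_lit 5) (nat_lit 50272)
  (nat_lit 9) (node (nat_lit 4) (nat_lit 50272) (nat_lit 10) nil nil) (node (nat_lit 10) (nat_lit
  57698) (nat_lit 9) nil nil)) (node (nat_lit 0) (nat_lit 55765) (nat_lit 8) (node (nat_lit 5)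
  (nat_lit 55765) (nat_lit 9) (node (nat_lit 10) (nat_lit 57287) (nat_lit 10) nil nil) (node
  (nat_lit 10) (nat_lit 57280) (nat_lit 9) nil nil)) nil)))) (node (nat_lit 6) (nat_lit 0)
  (nat_lit 7) (node (nat_lit 0) (nat_lit 0) (nat_lit 8) (node (nat_lit 5) (nat_lit 56408) (nat_lit
  9) (node (nat_lit 6) (nat_lit 59697) (nat_lit 10) (node (nat_lit 5) (nat_lit 63468) (nat_lit 11)
  (node (nat_lit 11) (nat_lit 71817) (nat_lit 12) (node (nat_lit 6) (nat_lit 71817) (nat_lit 13)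
  (node (nat_lit 5) (nat_lit 71817) (nat_lit 14) nil (node (nat_lit 11) (nat_lit 72346) (nat_lit
  14) nil nil)) (node (nat_lit 5) (nat_lit 71817) (nat_lit 13) (node (nat_lit 6) (nat_lit 71817)
  (nat_lit 14) nil nil) nil)) (node (nat_lit 4) (nat_lit 66115) (nat_lit 12) (node (nat_lit 6)
  (nat_lit 68716) (nat_lit 13) (node (nat_lit 4) (nat_lit 69603) (nat_lit 14) nil (node (nat_lit
  5) (nat_lit 69551) (nat_lit 14) nil nil)) (node (nat_lit 5) (nat_lit 68865) (nat_lit 13) (node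
  (nat_lit 6) (nat_lit 68807) (nat_lit 14) nil nil) (node (nat_lit 11) (nat_lit 70083) (nat_lit
  13) nil (node (nat_lit 0) (nat_lit 68705) (nat_lit 13) nil nil)))) (node (nat_lit 0) (nat_lit
  71029) (nat_lit 12) nil nil))) (node (nat_lit 4) (nat_lit 63858) (nat_lit 11) (node (nat_lit 5)
  (nat_lit 66282) (nat_lit 12) (node (nat_lit 4) (nat_lit 69277) (nat_lit 13) (node (nat_lit 6)
  (nat_lit 70096) (nat_lit 14) (node (nat_lit 4) (nat_lit 70562) (nat_lit 15) nil nil) nil) (node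
  (nat_lit 6) (nat_lit 68933) (nat_lit 13) (node (nat_lit 5) (nat_lit 68480) (nat_lit 14) nil nil)
  (node (nat_lit 11) (nat_lit 70971) (nat_lit 13) nil nil))) (node (nat_lit 6) (nat_lit 66260)
  (nat_lit 12) (node (nat_lit 5) (nat_lit 68596) (nat_lit 13) (node (nat_lit 4) (nat_lit 68848)
  (nat_lit 14) nil (node (nat_lit 6) (nat_lit 69055) (nat_lit 14) nil nil)) (node (nat_lit 11)
  (nat_lit 68850) (nat_lit 13) nil nil)) (node (nat_lit 11) (nat_lit 71374) (nat_lit 12) nil (node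
  (nat_lit 0) (nat_lit 70668) (nat_lit 12) nil nil)))) (node (nat_lit 0) (nat_lit 68798) (nat_lit
  11) nil nil))) (node (nat_lit 11) (nat_lit 66480) (nat_lit 10) (node (nat_lit 6) (nat_lit 66480)
  (nat_lit 11) nil nil) (node (nat_lit 4) (nat_lit 56408) (nat_lit 10) nil nil))) (node (nat_lit
  6) (nat_lit 56237) (nat_lit 9) (node (nat_lit 5) (nat_lit 59561) (nat_lit 10) (node (nat_lit 11)
  (nat_lit 69685) (nat_lit 11) (node (nat_lit 5) (nat_lit 69685) (nat_lit 12) (node (nat_lit 6)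
  (nat_lit 69685) (nat_lit 13) nil nil) nil) nil) nil) (node (nat_lit 4) (nat_lit 57025) (nat_lit
  9) (node (nat_lit 6) (nat_lit 57025) (nat_lit 10) nil nil) (node (nat_lit 0) (nat_lit 57504)
  (nat_lit 9) nil nil)))) nil) (node (nat_lit 4) (nat_lit 0) (nat_lit 7) (node (nat_lit 0)
  (nat_lit 49949) (nat_lit 8) (node (nat_lit 5) (nat_lit 51431) (nat_lit 9) (node (nat_lit 4)
  (nat_lit 51431) (nat_lit 10) (node (nat_lit 5) (nat_lit 51431) (nat_lit 11) (node (nat_lit 11)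
  (nat_lit 53723) (nat_lit 12) nil nil) (node (nat_lit 6) (nat_lit 51431) (nat_lit 11) nil (node
  (nat_lit 0) (nat_lit 53357) (nat_lit 11) nil nil))) nil) nil) nil) nil))) (node (nat_lit 0)
  (nat_lit 0) (nat_lit 6) (node (nat_lit 4) (nat_lit 0) (nat_lit 7) (node (nat_lit 5) (nat_lit
  57752) (nat_lit 8) (node (nat_lit 4) (nat_lit 59403) (nat_lit 9) (node (nat_lit 6) (nat_lit
  59403) (nat_lit 10) nil nil) (node (nat_lit 6) (nat_lit 57040) (nat_lit 9) (node (nat_lit 4)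
  (nat_lit 57196) (nat_lit 10) (node (nat_lit 5) (nat_lit 59609) (nat_lit 11) nil nil) (node
  (nat_lit 5) (nat_lit 57040) (nat_lit 10) nil nil)) (node (nat_lit 9) (nat_lit 63085) (nat_lit 9)
  nil nil))) (node (nat_lit 6) (nat_lit 60832) (nat_lit 8) (node (nat_lit 4) (nat_lit 62716)
  (nat_lit 9) (node (nat_lit 5) (nat_lit 62997) (nat_lit 10) (node (nat_lit 6) (nat_lit 66874)
  (nat_lit 11) (node (nat_lit 5) (nat_lit 68629) (nat_lit 12) (node (nat_lit 4) (nat_lit 65812)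
  (nat_lit 13) (node (nat_lit 5) (nat_lit 65025) (nat_lit 14) (node (nat_lit 6) (nat_lit 61991)
  (nat_lit 15) (node (nat_lit 4) (nat_lit 59133) (nat_lit 16) (node (nat_lit 6) (nat_lit 53594)
  (nat_lit 17) nil nil) nil) nil) nil) nil) nil) (node (nat_lit 4) (nat_lit 63184) (nat_lit 11)
  nil nil)) (node (nat_lit 9) (nat_lit 68508) (nat_lit 10) nil nil)) (node (nat_lit 5) (nat_lit
  61894) (nat_lit 9) nil nil)) (node (nat_lit 9) (nat_lit 68181) (nat_lit 8) (node (nat_lit 6)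
  (nat_lit 68181) (nat_lit 9) nil nil) (node (nat_lit 0) (nat_lit 59971) (nat_lit 8) nil nil))))
  (node (nat_lit 5) (nat_lit 0) (nat_lit 7) (node (nat_lit 4) (nat_lit 59405) (nat_lit 8) (node
  (nat_lit 6) (nat_lit 61057) (nat_lit 9) (node (nat_lit 5) (nat_lit 61057) (nat_lit 10) nil nil)
  (node (nat_lit 5) (nat_lit 61057) (nat_lit 9) (node (nat_lit 6) (nat_lit 62858) (nat_lit 10)
  (node (nat_lit 4) (nat_lit 65272) (nat_lit 11) nil nil) nil) (node (nat_lit 9) (nat_lit 64738)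
  (nat_lit 9) nil nil))) (node (nat_lit 6) (nat_lit 60185) (nat_lit 8) (node (nat_lit 5) (nat_lit
  63098) (nat_lit 9) (node (nat_lit 4) (nat_lit 64207) (nat_lit 10) (node (nat_lit 6) (nat_lit
  66621) (nat_lit 11) nil nil) (node (nat_lit 9) (nat_lit 68891) (nat_lit 10) nil nil)) (node
  (nat_lit 4) (nat_lit 60185) (nat_lit 9) (node (nat_lit 5) (nat_lit 60185) (nat_lit 10) nil nil)
  (node (nat_lit 9) (nat_lit 65518) (nat_lit 9) nil nil))) (node (nat_lit 9) (nat_lit 70545)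
  (nat_lit 8) nil (node (nat_lit 0) (nat_lit 64387) (nat_lit 8) nil nil)))) (node (nat_lit 6)
  (nat_lit 0) (nat_lit 7) (node (nat_lit 5) (nat_lit 55732) (nat_lit 8) (node (nat_lit 4) (nat_lit
  55732) (nat_lit 9) (node (nat_lit 5) (nat_lit 55195) (nat_lit 10) (node (nat_lit 6) (nat_lit
  57858) (nat_lit 11) (node (nat_lit 4) (nat_lit 59006) (nat_lit 12) (node (nat_lit 6) (nat_lit
  60136) (nat_lit 13) (node (nat_lit 9) (nat_lit 23428) (nat_lit 14) nil nil) nil) nil) nil) nil)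
  (node (nat_lit 6) (nat_lit 55732) (nat_lit 9) (node (nat_lit 4) (nat_lit 55732) (nat_lit 10) nil
  nil) (node (nat_lit 9) (nat_lit 61065) (nat_lit 9) nil nil))) (node (nat_lit 4) (nat_lit 55732)
  (nat_lit 8) (node (nat_lit 5) (nat_lit 55732) (nat_lit 9) (node (nat_lit 6) (nat_lit 55732)
  (nat_lit 10) nil (node (nat_lit 4) (nat_lit 55732) (nat_lit 10) nil nil)) (node (nat_lit 6)
  (nat_lit 55732) (nat_lit 9) nil (node (nat_lit 9) (nat_lit 61065) (nat_lit 9) nil nil))) (node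
  (nat_lit 0) (nat_lit 62859) (nat_lit 8) nil nil))) (node (nat_lit 0) (nat_lit 62221) (nat_lit 7)
  (node (nat_lit 6) (nat_lit 62221) (nat_lit 8) nil (node (nat_lit 9) (nat_lit 64669) (nat_lit 8)
  nil nil)) nil)))) nil)) (node (nat_lit 5) (nat_lit 0) (nat_lit 5) (node (nat_lit 4) (nat_lit 0)
  (nat_lit 6) (node (nat_lit 0) (nat_lit 0) (nat_lit 7) (node (nat_lit 4) (nat_lit 0) (nat_lit 8)
  (node (nat_lit 6) (nat_lit 45802) (nat_lit 9) (node (nat_lit 5) (nat_lit 46138) (nat_lit 10)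
  (node (nat_lit 4) (nat_lit 46138) (nat_lit 11) nil (node (nat_lit 6) (nat_lit 46138) (nat_lit
  11) nil nil)) (node (nat_lit 4) (nat_lit 45923) (nat_lit 10) (node (nat_lit 5) (nat_lit 45923)
  (nat_lit 11) nil (node (nat_lit 10) (nat_lit 47287) (nat_lit 11) nil nil)) (node (nat_lit 0)
  (nat_lit 47287) (nat_lit 10) nil (node (nat_lit 10) (nat_lit 47170) (nat_lit 10) nil nil))))
  (node (nat_lit 5) (nat_lit 46138) (nat_lit 9) (node (nat_lit 6) (nat_lit 46138) (nat_lit 10)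
  (node (nat_lit 4) (nat_lit 46138) (nat_lit 11) nil (node (nat_lit 5) (nat_lit 46138) (nat_lit
  11) nil nil)) (node (nat_lit 10) (nat_lit 47287) (nat_lit 10) nil (node (nat_lit 4) (nat_lit
  46138) (nat_lit 10) nil (node (nat_lit 0) (nat_lit 47287) (nat_lit 10) nil nil)))) (node
  (nat_lit 0) (nat_lit 47287) (nat_lit 9) nil nil))) (node (nat_lit 5) (nat_lit 0) (nat_lit 8)
  (node (nat_lit 4) (nat_lit 45702) (nat_lit 9) (node (nat_lit 5) (nat_lit 45702) (nat_lit 10)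
  (node (nat_lit 10) (nat_lit 47255) (nat_lit 11) nil nil) nil) (node (nat_lit 10) (nat_lit 47287)
  (nat_lit 9) (node (nat_lit 4) (nat_lit 47287) (nat_lit 10) nil nil) (node (nat_lit 6) (nat_lit
  45702) (nat_lit 9) nil (node (nat_lit 0) (nat_lit 46858) (nat_lit 9) nil nil)))) (node (nat_lit
  6) (nat_lit 45531) (nat_lit 8) (node (nat_lit 4) (nat_lit 45531) (nat_lit 9) nil (node (nat_lit
  10) (nat_lit 47287) (nat_lit 9) nil (node (nat_lit 5) (nat_lit 45531) (nat_lit 9) nil nil)))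
  (node (nat_lit 0) (nat_lit 46831) (nat_lit 8) (node (nat_lit 4) (nat_lit 46831) (nat_lit 9) nil
  (node (nat_lit 10) (nat_lit 47287) (nat_lit 9) nil nil)) nil)))) (node (nat_lit 6) (nat_lit 0)
  (nat_lit 7) (node (nat_lit 0) (nat_lit 46831) (nat_lit 8) (node (nat_lit 4) (nat_lit 46831)
  (nat_lit 9) (node (nat_lit 6) (nat_lit 46831) (nat_lit 10) (node (nat_lit 4) (nat_lit 46831)
  (nat_lit 11) (node (nat_lit 5) (nat_lit 46831) (nat_lit 12) nil (node (nat_lit 11) (nat_lit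
  47287) (nat_lit 12) nil (node (nat_lit 0) (nat_lit 47287) (nat_lit 12) nil nil))) (node (nat_lit
  5) (nat_lit 46831) (nat_lit 11) (node (nat_lit 4) (nat_lit 46831) (nat_lit 12) nil (node
  (nat_lit 6) (nat_lit 46831) (nat_lit 12) nil (node (nat_lit 11) (nat_lit 47287) (nat_lit 12) nil
  nil))) (node (nat_lit 0) (nat_lit 47287) (nat_lit 11) nil nil))) nil) (node (nat_lit 6) (nat_lit
  46831) (nat_lit 9) (node (nat_lit 4) (nat_lit 46831) (nat_lit 10) nil nil) nil)) nil) nil))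
  (node (nat_lit 0) (nat_lit 0) (nat_lit 6) (node (nat_lit 4) (nat_lit 0) (nat_lit 7) (node
  (nat_lit 6) (nat_lit 43868) (nat_lit 8) (node (nat_lit 5) (nat_lit 45003) (nat_lit 9) (node
  (nat_lit 4) (nat_lit 45003) (nat_lit 10) nil nil) (node (nat_lit 4) (nat_lit 44533) (nat_lit 9)
  (node (nat_lit 5) (nat_lit 44533) (nat_lit 10) nil nil) (node (nat_lit 9) (nat_lit 47287)
  (nat_lit 9) nil nil))) (node (nat_lit 5) (nat_lit 44144) (nat_lit 8) (node (nat_lit 6) (nat_lit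
  44024) (nat_lit 9) (node (nat_lit 4) (nat_lit 44024) (nat_lit 10) nil nil) (node (nat_lit 4)
  (nat_lit 45025) (nat_lit 9) (node (nat_lit 6) (nat_lit 45025) (nat_lit 10) nil (node (nat_lit 9)
  (nat_lit 47287) (nat_lit 10) nil nil)) nil)) (node (nat_lit 9) (nat_lit 46831) (nat_lit 8) (node
  (nat_lit 5) (nat_lit 46831) (nat_lit 9) (node (nat_lit 4) (nat_lit 46831) (nat_lit 10) nil nil)
  (node (nat_lit 6) (nat_lit 46831) (nat_lit 9) nil nil)) (node (nat_lit 0) (nat_lit 46100)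
  (nat_lit 8) nil nil)))) (node (nat_lit 5) (nat_lit 0) (nat_lit 7) (node (nat_lit 4) (nat_lit
  44657) (nat_lit 8) (node (nat_lit 5) (nat_lit 45025) (nat_lit 9) (node (nat_lit 6) (nat_lit
  45025) (nat_lit 10) (node (nat_lit 4) (nat_lit 46138) (nat_lit 11) (node (nat_lit 5) (nat_lit
  46831) (nat_lit 12) nil nil) nil) (node (nat_lit 9) (nat_lit 47287) (nat_lit 10) nil nil)) (node
  (nat_lit 6) (nat_lit 45025) (nat_lit 9) (node (nat_lit 5) (nat_lit 45025) (nat_lit 10) nil (node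
  (nat_lit 4) (nat_lit 45025) (nat_lit 10) nil nil)) nil)) (node (nat_lit 6) (nat_lit 44657)
  (nat_lit 8) (node (nat_lit 5) (nat_lit 45025) (nat_lit 9) (node (nat_lit 4) (nat_lit 45025)
  (nat_lit 10) nil nil) (node (nat_lit 4) (nat_lit 44657) (nat_lit 9) nil nil)) (node (nat_lit 0)
  (nat_lit 46253) (nat_lit 8) nil nil))) (node (nat_lit 6) (nat_lit 0) (nat_lit 7) (node (nat_lit
  5) (nat_lit 44418) (nat_lit 8) (node (nat_lit 6) (nat_lit 45025) (nat_lit 9) (node (nat_lit 4)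
  (nat_lit 44368) (nat_lit 10) (node (nat_lit 5) (nat_lit 45480) (nat_lit 11) nil nil) (node
  (nat_lit 9) (nat_lit 47287) (nat_lit 10) nil nil)) (node (nat_lit 4) (nat_lit 45025) (nat_lit 9)
  (node (nat_lit 5) (nat_lit 45025) (nat_lit 10) nil nil) (node (nat_lit 9) (nat_lit 47287)
  (nat_lit 9) nil nil))) (node (nat_lit 4) (nat_lit 43715) (nat_lit 8) (node (nat_lit 5) (nat_lit
  43894) (nat_lit 9) (node (nat_lit 6) (nat_lit 45003) (nat_lit 10) nil (node (nat_lit 4) (nat_lit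
  43894) (nat_lit 10) nil nil)) (node (nat_lit 6) (nat_lit 44777) (nat_lit 9) (node (nat_lit 5)
  (nat_lit 44777) (nat_lit 10) nil nil) (node (nat_lit 9) (nat_lit 47287) (nat_lit 9) nil nil)))
  (node (nat_lit 9) (nat_lit 46831) (nat_lit 8) (node (nat_lit 5) (nat_lit 46831) (nat_lit 9)
  (node (nat_lit 6) (nat_lit 46831) (nat_lit 10) nil nil) (node (nat_lit 4) (nat_lit 46831)
  (nat_lit 9) nil nil)) (node (nat_lit 0) (nat_lit 45989) (nat_lit 8) nil nil)))) (node (nat_lit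
  0) (nat_lit 44376) (nat_lit 7) (node (nat_lit 9) (nat_lit 46119) (nat_lit 8) nil (node (nat_lit
  5) (nat_lit 44376) (nat_lit 8) nil nil)) nil)))) nil)) (node (nat_lit 0) (nat_lit 0) (nat_lit 5)
  (node (nat_lit 4) (nat_lit 53260) (nat_lit 6) (node (nat_lit 6) (nat_lit 60035) (nat_lit 7)
  (node (nat_lit 5) (nat_lit 63376) (nat_lit 8) (node (nat_lit 6) (nat_lit 66114) (nat_lit 9)
  (node (nat_lit 4) (nat_lit 68641) (nat_lit 10) nil nil) (node (nat_lit 4) (nat_lit 66430)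
  (nat_lit 9) (node (nat_lit 5) (nat_lit 68957) (nat_lit 10) nil (node (nat_lit 6) (nat_lit 68957)
  (nat_lit 10) nil nil)) nil)) (node (nat_lit 4) (nat_lit 63358) (nat_lit 8) (node (nat_lit 5)
  (nat_lit 63569) (nat_lit 9) (node (nat_lit 6) (nat_lit 66668) (nat_lit 10) nil nil) nil) (node
  (nat_lit 8) (nat_lit 65091) (nat_lit 8) nil nil))) (node (nat_lit 5) (nat_lit 60950) (nat_lit 7)
  (node (nat_lit 6) (nat_lit 67118) (nat_lit 8) (node (nat_lit 4) (nat_lit 68446) (nat_lit 9)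
  (node (nat_lit 6) (nat_lit 71861) (nat_lit 10) (node (nat_lit 5) (nat_lit 73166) (nat_lit 11)
  (node (nat_lit 4) (nat_lit 72006) (nat_lit 12) (node (nat_lit 5) (nat_lit 70606) (nat_lit 13)
  (node (nat_lit 6) (nat_lit 66249) (nat_lit 14) nil nil) nil) nil) nil) (node (nat_lit 5)
  (nat_lit 70973) (nat_lit 10) nil nil)) (node (nat_lit 5) (nat_lit 67994) (nat_lit 9) (node
  (nat_lit 4) (nat_lit 70801) (nat_lit 10) (node (nat_lit 6) (nat_lit 71821) (nat_lit 11) nil nil)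
  nil) nil)) (node (nat_lit 4) (nat_lit 63917) (nat_lit 8) (node (nat_lit 6) (nat_lit 66381)
  (nat_lit 9) nil nil) (node (nat_lit 8) (nat_lit 66006) (nat_lit 8) nil nil))) nil)) (node
  (nat_lit 6) (nat_lit 0) (nat_lit 6) (node (nat_lit 5) (nat_lit 60718) (nat_lit 7) (node (nat_lit
  4) (nat_lit 65883) (nat_lit 8) (node (nat_lit 5) (nat_lit 69143) (nat_lit 9) (node (nat_lit 6)
  (nat_lit 71653) (nat_lit 10) (node (nat_lit 4) (nat_lit 72958) (nat_lit 11) (node (nat_lit 8)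
  (nat_lit 28156) (nat_lit 12) nil nil) nil) nil) (node (nat_lit 6) (nat_lit 68936) (nat_lit 9)
  nil nil)) (node (nat_lit 6) (nat_lit 64436) (nat_lit 8) (node (nat_lit 4) (nat_lit 64562)
  (nat_lit 9) (node (nat_lit 5) (nat_lit 67090) (nat_lit 10) nil nil) (node (nat_lit 8) (nat_lit
  70096) (nat_lit 9) nil nil)) (node (nat_lit 8) (nat_lit 65774) (nat_lit 8) nil nil))) (node
  (nat_lit 4) (nat_lit 59783) (nat_lit 7) (node (nat_lit 5) (nat_lit 66031) (nat_lit 8) (node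
  (nat_lit 6) (nat_lit 67437) (nat_lit 9) (node (nat_lit 5) (nat_lit 69964) (nat_lit 10) nil (node
  (nat_lit 4) (nat_lit 69964) (nat_lit 10) nil nil)) (node (nat_lit 4) (nat_lit 68027) (nat_lit 9)
  (node (nat_lit 6) (nat_lit 69746) (nat_lit 10) (node (nat_lit 5) (nat_lit 66871) (nat_lit 11)
  nil nil) nil) (node (nat_lit 8) (nat_lit 71691) (nat_lit 9) nil nil))) (node (nat_lit 6)
  (nat_lit 64560) (nat_lit 8) (node (nat_lit 5) (nat_lit 65627) (nat_lit 9) nil (node (nat_lit 8)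
  (nat_lit 70220) (nat_lit 9) nil nil)) nil)) (node (nat_lit 8) (nat_lit 70696) (nat_lit 7) (node
  (nat_lit 5) (nat_lit 70696) (nat_lit 8) nil (node (nat_lit 4) (nat_lit 70696) (nat_lit 8) nil
  nil)) (node (nat_lit 0) (nat_lit 56640) (nat_lit 7) nil nil)))) (node (nat_lit 5) (nat_lit 0)
  (nat_lit 6) (node (nat_lit 4) (nat_lit 61122) (nat_lit 7) (node (nat_lit 6) (nat_lit 65787)
  (nat_lit 8) (node (nat_lit 5) (nat_lit 68575) (nat_lit 9) (node (nat_lit 6) (nat_lit 71103)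
  (nat_lit 10) (node (nat_lit 4) (nat_lit 72408) (nat_lit 11) nil nil) nil) (node (nat_lit 4)
  (nat_lit 68445) (nat_lit 9) (node (nat_lit 5) (nat_lit 69866) (nat_lit 10) (node (nat_lit 6)
  (nat_lit 69184) (nat_lit 11) nil nil) nil) (node (nat_lit 8) (nat_lit 71447) (nat_lit 9) nil
  nil))) (node (nat_lit 5) (nat_lit 65405) (nat_lit 8) (node (nat_lit 6) (nat_lit 66756) (nat_lit
  9) nil (node (nat_lit 8) (nat_lit 71066) (nat_lit 9) nil nil)) (node (nat_lit 8) (nat_lit 66178)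
  (nat_lit 8) nil nil))) (node (nat_lit 6) (nat_lit 60891) (nat_lit 7) (node (nat_lit 4) (nat_lit
  65466) (nat_lit 8) (node (nat_lit 5) (nat_lit 68063) (nat_lit 9) (node (nat_lit 4) (nat_lit
  68655) (nat_lit 10) nil (node (nat_lit 6) (nat_lit 67800) (nat_lit 10) nil nil)) (node (nat_lit
  6) (nat_lit 67786) (nat_lit 9) (node (nat_lit 5) (nat_lit 70313) (nat_lit 10) nil nil) nil))
  (node (nat_lit 5) (nat_lit 64968) (nat_lit 8) (node (nat_lit 4) (nat_lit 66318) (nat_lit 9) nil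
  nil) (node (nat_lit 8) (nat_lit 65947) (nat_lit 8) nil nil))) (node (nat_lit 8) (nat_lit 70782)
  (nat_lit 7) nil (node (nat_lit 0) (nat_lit 58242) (nat_lit 7) nil nil)))) (node (nat_lit 0)
  (nat_lit 65128) (nat_lit 6) nil nil)))) nil)))

noncomputable def t455 : Tr :=
  (node (nat_lit 5) (nat_lit 0) (nat_lit 5) (node (nat_lit 7) (nat_lit 0) (nat_lit 6) (node
  (nat_lit 0) (nat_lit 0) (nat_lit 7) (node (nat_lit 7) (nat_lit 0) (nat_lit 8) (node (nat_lit 4)
  (nat_lit 54577) (nat_lit 9) (node (nat_lit 5) (nat_lit 57561) (nat_lit 10) (node (nat_lit 4)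
  (nat_lit 59177) (nat_lit 11) (node (nat_lit 7) (nat_lit 60286) (nat_lit 12) nil nil) (node
  (nat_lit 7) (nat_lit 59050) (nat_lit 11) (node (nat_lit 5) (nat_lit 60159) (nat_lit 12) nil
  (node (nat_lit 4) (nat_lit 60159) (nat_lit 12) nil nil)) (node (nat_lit 0) (nat_lit 59714)
  (nat_lit 11) nil (node (nat_lit 10) (nat_lit 59714) (nat_lit 11) nil nil)))) (node (nat_lit 7)
  (nat_lit 58071) (nat_lit 10) (node (nat_lit 5) (nat_lit 59202) (nat_lit 11) (node (nat_lit 4)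
  (nat_lit 58200) (nat_lit 12) nil nil) (node (nat_lit 10) (nat_lit 62516) (nat_lit 11) nil (node
  (nat_lit 0) (nat_lit 62516) (nat_lit 11) nil nil))) (node (nat_lit 10) (nat_lit 60997) (nat_lit
  10) nil (node (nat_lit 0) (nat_lit 60997) (nat_lit 10) nil nil)))) (node (nat_lit 5) (nat_lit
  54758) (nat_lit 9) (node (nat_lit 4) (nat_lit 58479) (nat_lit 10) (node (nat_lit 7) (nat_lit
  59673) (nat_lit 11) (node (nat_lit 5) (nat_lit 59135) (nat_lit 12) nil (node (nat_lit 4)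
  (nat_lit 60782) (nat_lit 12) nil nil)) (node (nat_lit 5) (nat_lit 60856) (nat_lit 11) nil (node
  (nat_lit 10) (nat_lit 60631) (nat_lit 11) nil (node (nat_lit 0) (nat_lit 60631) (nat_lit 11) nil
  nil)))) (node (nat_lit 10) (nat_lit 62650) (nat_lit 10) (node (nat_lit 7) (nat_lit 62650)
  (nat_lit 11) nil nil) (node (nat_lit 7) (nat_lit 56493) (nat_lit 10) (node (nat_lit 4) (nat_lit
  57628) (nat_lit 11) nil nil) (node (nat_lit 0) (nat_lit 61177) (nat_lit 10) nil nil)))) (node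
  (nat_lit 0) (nat_lit 61388) (nat_lit 9) nil nil))) (node (nat_lit 5) (nat_lit 0) (nat_lit 8)
  (node (nat_lit 10) (nat_lit 61639) (nat_lit 9) (node (nat_lit 7) (nat_lit 61639) (nat_lit 10)
  (node (nat_lit 10) (nat_lit 62092) (nat_lit 11) nil nil) nil) (node (nat_lit 7) (nat_lit 54835)
  (nat_lit 9) (node (nat_lit 5) (nat_lit 56672) (nat_lit 10) (node (nat_lit 10) (nat_lit 61117)
  (nat_lit 11) nil nil) nil) (node (nat_lit 4) (nat_lit 52569) (nat_lit 9) nil (node (nat_lit 0)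
  (nat_lit 55790) (nat_lit 9) nil nil)))) (node (nat_lit 4) (nat_lit 53272) (nat_lit 8) (node
  (nat_lit 7) (nat_lit 55085) (nat_lit 9) (node (nat_lit 4) (nat_lit 55665) (nat_lit 10) (node
  (nat_lit 10) (nat_lit 57818) (nat_lit 11) nil nil) nil) (node (nat_lit 10) (nat_lit 61833)
  (nat_lit 9) (node (nat_lit 7) (nat_lit 61833) (nat_lit 10) nil nil) (node (nat_lit 5) (nat_lit
  53272) (nat_lit 9) nil nil))) (node (nat_lit 0) (nat_lit 58011) (nat_lit 8) (node (nat_lit 7)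
  (nat_lit 58011) (nat_lit 9) (node (nat_lit 10) (nat_lit 58842) (nat_lit 10) nil nil) (node
  (nat_lit 10) (nat_lit 59060) (nat_lit 9) nil nil)) nil)))) (node (nat_lit 4) (nat_lit 0)
  (nat_lit 7) (node (nat_lit 0) (nat_lit 44418) (nat_lit 8) (node (nat_lit 7) (nat_lit 44804)
  (nat_lit 9) (node (nat_lit 4) (nat_lit 46352) (nat_lit 10) (node (nat_lit 7) (nat_lit 47302)
  (nat_lit 11) (node (nat_lit 5) (nat_lit 48994) (nat_lit 12) (node (nat_lit 4) (nat_lit 48337)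
  (nat_lit 13) nil (node (nat_lit 7) (nat_lit 49584) (nat_lit 13) nil nil)) (node (nat_lit 11)
  (nat_lit 54051) (nat_lit 12) nil (node (nat_lit 0) (nat_lit 51598) (nat_lit 12) nil nil))) (node
  (nat_lit 5) (nat_lit 47408) (nat_lit 11) (node (nat_lit 7) (nat_lit 48477) (nat_lit 12) nil
  (node (nat_lit 4) (nat_lit 48477) (nat_lit 12) nil (node (nat_lit 11) (nat_lit 51704) (nat_lit
  12) nil nil))) (node (nat_lit 0) (nat_lit 53092) (nat_lit 11) nil nil))) nil) (node (nat_lit 4)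
  (nat_lit 44418) (nat_lit 9) (node (nat_lit 7) (nat_lit 44418) (nat_lit 10) nil nil) nil)) nil)
  nil)) (node (nat_lit 0) (nat_lit 0) (nat_lit 6) (node (nat_lit 7) (nat_lit 0) (nat_lit 7) (node
  (nat_lit 4) (nat_lit 57448) (nat_lit 8) (node (nat_lit 5) (nat_lit 58630) (nat_lit 9) (node
  (nat_lit 4) (nat_lit 58630) (nat_lit 10) (node (nat_lit 7) (nat_lit 59980) (nat_lit 11) (node
  (nat_lit 5) (nat_lit 59443) (nat_lit 12) nil nil) nil) (node (nat_lit 7) (nat_lit 60487)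
  (nat_lit 10) nil nil)) (node (nat_lit 7) (nat_lit 59264) (nat_lit 9) (node (nat_lit 5) (nat_lit
  61134) (nat_lit 10) nil nil) (node (nat_lit 9) (nat_lit 63289) (nat_lit 9) nil nil))) (node
  (nat_lit 5) (nat_lit 57528) (nat_lit 8) (node (nat_lit 4) (nat_lit 59908) (nat_lit 9) (node
  (nat_lit 7) (nat_lit 60161) (nat_lit 10) nil nil) (node (nat_lit 7) (nat_lit 59865) (nat_lit 9)
  (node (nat_lit 4) (nat_lit 61299) (nat_lit 10) (node (nat_lit 5) (nat_lit 62650) (nat_lit 11)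
  nil nil) (node (nat_lit 9) (nat_lit 63156) (nat_lit 10) nil nil)) nil)) (node (nat_lit 9)
  (nat_lit 63289) (nat_lit 8) (node (nat_lit 5) (nat_lit 63289) (nat_lit 9) nil (node (nat_lit 4)
  (nat_lit 63289) (nat_lit 9) nil nil)) (node (nat_lit 0) (nat_lit 61843) (nat_lit 8) nil nil))))
  (node (nat_lit 5) (nat_lit 0) (nat_lit 7) (node (nat_lit 7) (nat_lit 57112) (nat_lit 8) (node
  (nat_lit 5) (nat_lit 58626) (nat_lit 9) (node (nat_lit 4) (nat_lit 58879) (nat_lit 10) nil (node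
  (nat_lit 9) (nat_lit 63289) (nat_lit 10) nil nil)) (node (nat_lit 4) (nat_lit 56489) (nat_lit 9)
  (node (nat_lit 5) (nat_lit 56820) (nat_lit 10) nil (node (nat_lit 7) (nat_lit 56742) (nat_lit
  10) nil nil)) (node (nat_lit 9) (nat_lit 63289) (nat_lit 9) nil nil))) (node (nat_lit 4)
  (nat_lit 56891) (nat_lit 8) (node (nat_lit 5) (nat_lit 58542) (nat_lit 9) (node (nat_lit 7)
  (nat_lit 60399) (nat_lit 10) nil (node (nat_lit 9) (nat_lit 61833) (nat_lit 10) nil nil)) (node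
  (nat_lit 7) (nat_lit 58542) (nat_lit 9) (node (nat_lit 5) (nat_lit 60399) (nat_lit 10) nil (node
  (nat_lit 4) (nat_lit 58542) (nat_lit 10) nil nil)) (node (nat_lit 9) (nat_lit 59940) (nat_lit 9)
  nil nil))) (node (nat_lit 0) (nat_lit 61329) (nat_lit 8) nil nil))) (node (nat_lit 4) (nat_lit
  0) (nat_lit 7) (node (nat_lit 5) (nat_lit 57145) (nat_lit 8) (node (nat_lit 4) (nat_lit 59806)
  (nat_lit 9) (node (nat_lit 7) (nat_lit 62385) (nat_lit 10) (node (nat_lit 5) (nat_lit 62493)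
  (nat_lit 11) nil (node (nat_lit 4) (nat_lit 63289) (nat_lit 11) nil nil)) (node (nat_lit 9)
  (nat_lit 63097) (nat_lit 10) nil nil)) (node (nat_lit 7) (nat_lit 57258) (nat_lit 9) (node
  (nat_lit 4) (nat_lit 59115) (nat_lit 10) nil (node (nat_lit 5) (nat_lit 57258) (nat_lit 10) nil
  nil)) (node (nat_lit 9) (nat_lit 63289) (nat_lit 9) nil nil))) (node (nat_lit 7) (nat_lit 56860)
  (nat_lit 8) (node (nat_lit 5) (nat_lit 59487) (nat_lit 9) (node (nat_lit 4) (nat_lit 60199)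
  (nat_lit 10) nil (node (nat_lit 7) (nat_lit 59487) (nat_lit 10) nil nil)) (node (nat_lit 4)
  (nat_lit 57812) (nat_lit 9) (node (nat_lit 5) (nat_lit 58143) (nat_lit 10) nil nil) (node
  (nat_lit 9) (nat_lit 63289) (nat_lit 9) nil nil))) (node (nat_lit 9) (nat_lit 63289) (nat_lit 8)
  (node (nat_lit 5) (nat_lit 63289) (nat_lit 9) nil (node (nat_lit 7) (nat_lit 63289) (nat_lit 9)
  nil nil)) (node (nat_lit 0) (nat_lit 61042) (nat_lit 8) nil nil)))) (node (nat_lit 0) (nat_lit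
  61069) (nat_lit 7) (node (nat_lit 9) (nat_lit 63240) (nat_lit 8) nil (node (nat_lit 5) (nat_lit
  61069) (nat_lit 8) nil nil)) nil)))) (node (nat_lit 4) (nat_lit 0) (nat_lit 6) (node (nat_lit 0)
  (nat_lit 0) (nat_lit 7) (node (nat_lit 4) (nat_lit 0) (nat_lit 8) (node (nat_lit 5) (nat_lit
  58908) (nat_lit 9) (node (nat_lit 7) (nat_lit 59488) (nat_lit 10) (node (nat_lit 4) (nat_lit
  59488) (nat_lit 11) nil nil) (node (nat_lit 4) (nat_lit 60384) (nat_lit 10) (node (nat_lit 10)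
  (nat_lit 63289) (nat_lit 11) nil nil) (node (nat_lit 10) (nat_lit 63289) (nat_lit 10) (node
  (nat_lit 4) (nat_lit 63289) (nat_lit 11) nil nil) (node (nat_lit 0) (nat_lit 62774) (nat_lit 10)
  nil nil)))) (node (nat_lit 7) (nat_lit 59569) (nat_lit 9) (node (nat_lit 5) (nat_lit 61161)
  (nat_lit 10) (node (nat_lit 7) (nat_lit 61161) (nat_lit 11) nil (node (nat_lit 4) (nat_lit
  61161) (nat_lit 11) nil (node (nat_lit 0) (nat_lit 63289) (nat_lit 11) nil nil))) (node (nat_lit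
  4) (nat_lit 62282) (nat_lit 10) (node (nat_lit 10) (nat_lit 63289) (nat_lit 11) nil nil) (node
  (nat_lit 10) (nat_lit 63289) (nat_lit 10) nil (node (nat_lit 0) (nat_lit 63289) (nat_lit 10) nil
  nil)))) (node (nat_lit 0) (nat_lit 63289) (nat_lit 9) nil nil))) (node (nat_lit 5) (nat_lit
  57346) (nat_lit 8) (node (nat_lit 10) (nat_lit 63289) (nat_lit 9) (node (nat_lit 4) (nat_lit
  63289) (nat_lit 10) (node (nat_lit 10) (nat_lit 63289) (nat_lit 11) nil nil) nil) (node (nat_lit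
  4) (nat_lit 57346) (nat_lit 9) (node (nat_lit 5) (nat_lit 57346) (nat_lit 10) (node (nat_lit 10)
  (nat_lit 59499) (nat_lit 11) nil nil) nil) (node (nat_lit 0) (nat_lit 59045) (nat_lit 9) nil
  nil))) (node (nat_lit 0) (nat_lit 60840) (nat_lit 8) (node (nat_lit 4) (nat_lit 60840) (nat_lit
  9) nil nil) (node (nat_lit 7) (nat_lit 55669) (nat_lit 8) (node (nat_lit 10) (nat_lit 58890)
  (nat_lit 9) nil nil) nil)))) (node (nat_lit 5) (nat_lit 0) (nat_lit 7) (node (nat_lit 0)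
  (nat_lit 59967) (nat_lit 8) (node (nat_lit 4) (nat_lit 60223) (nat_lit 9) (node (nat_lit 5)
  (nat_lit 59911) (nat_lit 10) (node (nat_lit 4) (nat_lit 59911) (nat_lit 11) (node (nat_lit 11)
  (nat_lit 61146) (nat_lit 12) nil (node (nat_lit 7) (nat_lit 59911) (nat_lit 12) nil nil)) (node
  (nat_lit 7) (nat_lit 59911) (nat_lit 11) nil (node (nat_lit 0) (nat_lit 60954) (nat_lit 11) nil
  nil))) (node (nat_lit 11) (nat_lit 62956) (nat_lit 10) nil nil)) (node (nat_lit 5) (nat_lit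
  59967) (nat_lit 9) (node (nat_lit 4) (nat_lit 59967) (nat_lit 10) (node (nat_lit 11) (nat_lit
  61010) (nat_lit 11) nil nil) nil) nil)) nil) nil)) nil))) (node (nat_lit 4) (nat_lit 0) (nat_lit
  5) (node (nat_lit 5) (nat_lit 0) (nat_lit 6) (node (nat_lit 0) (nat_lit 0) (nat_lit 7) (node
  (nat_lit 5) (nat_lit 0) (nat_lit 8) (node (nat_lit 4) (nat_lit 53741) (nat_lit 9) (node (nat_lit
  7) (nat_lit 54113) (nat_lit 10) (node (nat_lit 5) (nat_lit 54113) (nat_lit 11) (node (nat_lit 7)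
  (nat_lit 55222) (nat_lit 12) nil nil) (node (nat_lit 4) (nat_lit 54113) (nat_lit 11) nil nil))
  (node (nat_lit 5) (nat_lit 54113) (nat_lit 10) (node (nat_lit 10) (nat_lit 56265) (nat_lit 11)
  nil nil) (node (nat_lit 10) (nat_lit 56053) (nat_lit 10) nil (node (nat_lit 0) (nat_lit 55681)
  (nat_lit 10) nil nil)))) (node (nat_lit 7) (nat_lit 52094) (nat_lit 9) (node (nat_lit 4)
  (nat_lit 52094) (nat_lit 10) (node (nat_lit 7) (nat_lit 52094) (nat_lit 11) nil nil) (node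
  (nat_lit 5) (nat_lit 52042) (nat_lit 10) nil (node (nat_lit 0) (nat_lit 54035) (nat_lit 10) nil
  (node (nat_lit 10) (nat_lit 54035) (nat_lit 10) nil nil)))) (node (nat_lit 0) (nat_lit 55435)
  (nat_lit 9) nil nil))) (node (nat_lit 4) (nat_lit 52652) (nat_lit 8) (node (nat_lit 5) (nat_lit
  52652) (nat_lit 9) (node (nat_lit 4) (nat_lit 52652) (nat_lit 10) (node (nat_lit 10) (nat_lit
  54805) (nat_lit 11) nil nil) nil) (node (nat_lit 10) (nat_lit 55198) (nat_lit 9) (node (nat_lit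
  5) (nat_lit 55198) (nat_lit 10) nil nil) (node (nat_lit 7) (nat_lit 52652) (nat_lit 9) nil
  nil))) (node (nat_lit 7) (nat_lit 53341) (nat_lit 8) (node (nat_lit 5) (nat_lit 53341) (nat_lit
  9) (node (nat_lit 7) (nat_lit 53341) (nat_lit 10) nil nil) (node (nat_lit 10) (nat_lit 55812)
  (nat_lit 9) nil nil)) (node (nat_lit 0) (nat_lit 55222) (nat_lit 8) (node (nat_lit 5) (nat_lit
  55222) (nat_lit 9) nil (node (nat_lit 10) (nat_lit 55812) (nat_lit 9) nil nil)) nil)))) (node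
  (nat_lit 7) (nat_lit 0) (nat_lit 7) (node (nat_lit 0) (nat_lit 55222) (nat_lit 8) (node (nat_lit
  5) (nat_lit 55222) (nat_lit 9) (node (nat_lit 7) (nat_lit 55222) (nat_lit 10) (node (nat_lit 5)
  (nat_lit 55222) (nat_lit 11) nil (node (nat_lit 4) (nat_lit 55222) (nat_lit 11) nil (node
  (nat_lit 0) (nat_lit 56265) (nat_lit 11) nil nil))) nil) nil) nil) nil)) (node (nat_lit 0)
  (nat_lit 0) (nat_lit 6) (node (nat_lit 7) (nat_lit 0) (nat_lit 7) (node (nat_lit 5) (nat_lit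
  50734) (nat_lit 8) (node (nat_lit 7) (nat_lit 51797) (nat_lit 9) (node (nat_lit 4) (nat_lit
  52762) (nat_lit 10) (node (nat_lit 5) (nat_lit 54113) (nat_lit 11) (node (nat_lit 4) (nat_lit
  55222) (nat_lit 12) (node (nat_lit 7) (nat_lit 55812) (nat_lit 13) (node (nat_lit 4) (nat_lit
  56053) (nat_lit 14) (node (nat_lit 9) (nat_lit 24167) (nat_lit 15) nil nil) nil) nil) nil) nil)
  nil) (node (nat_lit 4) (nat_lit 50702) (nat_lit 9) (node (nat_lit 7) (nat_lit 50262) (nat_lit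
  10) (node (nat_lit 5) (nat_lit 49308) (nat_lit 11) nil nil) (node (nat_lit 5) (nat_lit 50702)
  (nat_lit 10) nil nil)) nil)) (node (nat_lit 4) (nat_lit 50778) (nat_lit 8) (node (nat_lit 7)
  (nat_lit 51840) (nat_lit 9) (node (nat_lit 5) (nat_lit 51840) (nat_lit 10) nil (node (nat_lit 9)
  (nat_lit 55130) (nat_lit 10) nil nil)) (node (nat_lit 5) (nat_lit 50778) (nat_lit 9) nil nil))
  (node (nat_lit 9) (nat_lit 55222) (nat_lit 8) nil (node (nat_lit 0) (nat_lit 52169) (nat_lit 8)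
  nil nil)))) (node (nat_lit 5) (nat_lit 0) (nat_lit 7) (node (nat_lit 7) (nat_lit 49312) (nat_lit
  8) (node (nat_lit 4) (nat_lit 49279) (nat_lit 9) (node (nat_lit 5) (nat_lit 50443) (nat_lit 10)
  (node (nat_lit 4) (nat_lit 52393) (nat_lit 11) (node (nat_lit 7) (nat_lit 52826) (nat_lit 12)
  (node (nat_lit 4) (nat_lit 53635) (nat_lit 13) nil nil) nil) nil) nil) (node (nat_lit 5)
  (nat_lit 49191) (nat_lit 9) (node (nat_lit 4) (nat_lit 48751) (nat_lit 10) (node (nat_lit 7)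
  (nat_lit 50102) (nat_lit 11) nil nil) nil) (node (nat_lit 9) (nat_lit 52362) (nat_lit 9) nil
  nil))) (node (nat_lit 4) (nat_lit 51289) (nat_lit 8) (node (nat_lit 5) (nat_lit 52351) (nat_lit
  9) (node (nat_lit 7) (nat_lit 52762) (nat_lit 10) nil (node (nat_lit 9) (nat_lit 55642) (nat_lit
  10) nil nil)) (node (nat_lit 7) (nat_lit 51289) (nat_lit 9) nil (node (nat_lit 9) (nat_lit
  54339) (nat_lit 9) nil nil))) (node (nat_lit 9) (nat_lit 54131) (nat_lit 8) nil (node (nat_lit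
  0) (nat_lit 52368) (nat_lit 8) nil nil)))) (node (nat_lit 4) (nat_lit 0) (nat_lit 7) (node
  (nat_lit 5) (nat_lit 49878) (nat_lit 8) (node (nat_lit 7) (nat_lit 49878) (nat_lit 9) nil (node
  (nat_lit 4) (nat_lit 49878) (nat_lit 9) (node (nat_lit 7) (nat_lit 49878) (nat_lit 10) nil nil)
  nil)) (node (nat_lit 7) (nat_lit 49878) (nat_lit 8) (node (nat_lit 5) (nat_lit 49878) (nat_lit
  9) nil (node (nat_lit 4) (nat_lit 49878) (nat_lit 9) nil (node (nat_lit 9) (nat_lit 52928)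
  (nat_lit 9) nil nil))) (node (nat_lit 0) (nat_lit 52338) (nat_lit 8) nil nil))) (node (nat_lit
  0) (nat_lit 54113) (nat_lit 7) (node (nat_lit 4) (nat_lit 54113) (nat_lit 8) nil (node (nat_lit
  9) (nat_lit 55222) (nat_lit 8) nil nil)) nil)))) nil)) (node (nat_lit 0) (nat_lit 0) (nat_lit 5)
  (node (nat_lit 7) (nat_lit 59923) (nat_lit 6) (node (nat_lit 5) (nat_lit 63289) (nat_lit 7)
  (node (nat_lit 4) (nat_lit 63289) (nat_lit 8) (node (nat_lit 7) (nat_lit 63289) (nat_lit 9) nil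
  (node (nat_lit 5) (nat_lit 63289) (nat_lit 9) (node (nat_lit 7) (nat_lit 63289) (nat_lit 10) nil
  nil) nil)) (node (nat_lit 7) (nat_lit 63289) (nat_lit 8) (node (nat_lit 4) (nat_lit 63289)
  (nat_lit 9) nil nil) nil)) (node (nat_lit 4) (nat_lit 62923) (nat_lit 7) (node (nat_lit 5)
  (nat_lit 62923) (nat_lit 8) (node (nat_lit 4) (nat_lit 62923) (nat_lit 9) (node (nat_lit 7)
  (nat_lit 63289) (nat_lit 10) nil nil) (node (nat_lit 7) (nat_lit 62923) (nat_lit 9) nil nil))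
  (node (nat_lit 7) (nat_lit 63289) (nat_lit 8) (node (nat_lit 5) (nat_lit 63289) (nat_lit 9) nil
  nil) nil)) nil)) (node (nat_lit 4) (nat_lit 0) (nat_lit 6) (node (nat_lit 5) (nat_lit 63289)
  (nat_lit 7) (node (nat_lit 7) (nat_lit 63289) (nat_lit 8) (node (nat_lit 5) (nat_lit 63289)
  (nat_lit 9) (node (nat_lit 4) (nat_lit 63289) (nat_lit 10) (node (nat_lit 7) (nat_lit 63289)
  (nat_lit 11) (node (nat_lit 4) (nat_lit 63289) (nat_lit 12) (node (nat_lit 5) (nat_lit 63289)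
  (nat_lit 13) (node (nat_lit 4) (nat_lit 62064) (nat_lit 14) (node (nat_lit 7) (nat_lit 58357)
  (nat_lit 15) nil nil) nil) nil) nil) nil) nil) (node (nat_lit 4) (nat_lit 63289) (nat_lit 9) nil
  nil)) (node (nat_lit 4) (nat_lit 63289) (nat_lit 8) (node (nat_lit 7) (nat_lit 63289) (nat_lit
  9) nil nil) nil)) (node (nat_lit 7) (nat_lit 62361) (nat_lit 7) (node (nat_lit 5) (nat_lit
  62614) (nat_lit 8) (node (nat_lit 4) (nat_lit 62614) (nat_lit 9) (node (nat_lit 5) (nat_lit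
  61040) (nat_lit 10) nil nil) (node (nat_lit 7) (nat_lit 62614) (nat_lit 9) (node (nat_lit 4)
  (nat_lit 63289) (nat_lit 10) nil nil) nil)) (node (nat_lit 4) (nat_lit 62361) (nat_lit 8) (node
  (nat_lit 5) (nat_lit 62361) (nat_lit 9) nil nil) nil)) (node (nat_lit 8) (nat_lit 63289)
  (nat_lit 7) nil (node (nat_lit 0) (nat_lit 62629) (nat_lit 7) nil nil)))) (node (nat_lit 5)
  (nat_lit 0) (nat_lit 6) (node (nat_lit 7) (nat_lit 62467) (nat_lit 7) (node (nat_lit 4) (nat_lit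
  62260) (nat_lit 8) (node (nat_lit 5) (nat_lit 62687) (nat_lit 9) (node (nat_lit 4) (nat_lit
  63289) (nat_lit 10) (node (nat_lit 7) (nat_lit 63289) (nat_lit 11) (node (nat_lit 8) (nat_lit
  13234) (nat_lit 12) nil nil) nil) nil) (node (nat_lit 7) (nat_lit 62449) (nat_lit 9) (node
  (nat_lit 5) (nat_lit 60875) (nat_lit 10) nil nil) nil)) (node (nat_lit 5) (nat_lit 62467)
  (nat_lit 8) (node (nat_lit 4) (nat_lit 62467) (nat_lit 9) nil nil) nil)) (node (nat_lit 4)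
  (nat_lit 62594) (nat_lit 7) (node (nat_lit 7) (nat_lit 62594) (nat_lit 8) (node (nat_lit 5)
  (nat_lit 62594) (nat_lit 9) nil nil) (node (nat_lit 5) (nat_lit 62594) (nat_lit 8) nil (node
  (nat_lit 8) (nat_lit 63289) (nat_lit 8) nil nil))) (node (nat_lit 8) (nat_lit 63289) (nat_lit 7)
  nil (node (nat_lit 0) (nat_lit 62138) (nat_lit 7) nil nil)))) (node (nat_lit 0) (nat_lit 63128)
  (nat_lit 6) nil nil)))) nil)))

noncomputable def t456 : Tr :=
  (node (nat_lit 3) (nat_lit 0) (nat_lit 3) (node (nat_lit 4) (nat_lit 0) (nat_lit 4) t454 (node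
  (nat_lit 5) (nat_lit 0) (nat_lit 4) (node (nat_lit 4) (nat_lit 0) (nat_lit 5) (node (nat_lit 0)
  (nat_lit 0) (nat_lit 6) (node (nat_lit 6) (nat_lit 0) (nat_lit 7) (node (nat_lit 4) (nat_lit
  69942) (nat_lit 8) (node (nat_lit 6) (nat_lit 74769) (nat_lit 9) (node (nat_lit 5) (nat_lit
  79714) (nat_lit 10) (node (nat_lit 4) (nat_lit 80963) (nat_lit 11) nil (node (nat_lit 6)
  (nat_lit 82127) (nat_lit 11) nil nil)) (node (nat_lit 9) (nat_lit 84345) (nat_lit 10) nil nil))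
  (node (nat_lit 5) (nat_lit 71254) (nat_lit 9) (node (nat_lit 4) (nat_lit 72574) (nat_lit 10) nil
  (node (nat_lit 6) (nat_lit 73111) (nat_lit 10) nil nil)) (node (nat_lit 9) (nat_lit 82498)
  (nat_lit 9) nil nil))) (node (nat_lit 5) (nat_lit 70514) (nat_lit 8) (node (nat_lit 4) (nat_lit
  74397) (nat_lit 9) (node (nat_lit 6) (nat_lit 76211) (nat_lit 10) (node (nat_lit 5) (nat_lit
  76398) (nat_lit 11) nil nil) (node (nat_lit 5) (nat_lit 74397) (nat_lit 10) nil nil)) (node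
  (nat_lit 6) (nat_lit 71484) (nat_lit 9) (node (nat_lit 4) (nat_lit 72095) (nat_lit 10) nil nil)
  (node (nat_lit 9) (nat_lit 81166) (nat_lit 9) nil nil))) (node (nat_lit 9) (nat_lit 82934)
  (nat_lit 8) (node (nat_lit 4) (nat_lit 82934) (nat_lit 9) nil (node (nat_lit 5) (nat_lit 82934)
  (nat_lit 9) nil nil)) (node (nat_lit 0) (nat_lit 75195) (nat_lit 8) nil nil)))) (node (nat_lit
  5) (nat_lit 0) (nat_lit 7) (node (nat_lit 6) (nat_lit 71166) (nat_lit 8) (node (nat_lit 4)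
  (nat_lit 73773) (nat_lit 9) (node (nat_lit 5) (nat_lit 73567) (nat_lit 10) (node (nat_lit 6)
  (nat_lit 75055) (nat_lit 11) (node (nat_lit 5) (nat_lit 75556) (nat_lit 12) (node (nat_lit 4)
  (nat_lit 75694) (nat_lit 13) (node (nat_lit 9) (nat_lit 45657) (nat_lit 14) nil nil) nil) nil)
  nil) (node (nat_lit 6) (nat_lit 74026) (nat_lit 10) nil nil)) (node (nat_lit 5) (nat_lit 75247)
  (nat_lit 9) (node (nat_lit 4) (nat_lit 77783) (nat_lit 10) nil nil) (node (nat_lit 9) (nat_lit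
  81818) (nat_lit 9) nil nil))) (node (nat_lit 4) (nat_lit 70974) (nat_lit 8) (node (nat_lit 5)
  (nat_lit 74925) (nat_lit 9) (node (nat_lit 6) (nat_lit 77058) (nat_lit 10) (node (nat_lit 4)
  (nat_lit 79471) (nat_lit 11) nil nil) (node (nat_lit 9) (nat_lit 84501) (nat_lit 10) nil nil))
  (node (nat_lit 6) (nat_lit 73955) (nat_lit 9) (node (nat_lit 5) (nat_lit 76921) (nat_lit 10) nil
  nil) nil)) (node (nat_lit 9) (nat_lit 83322) (nat_lit 8) (node (nat_lit 4) (nat_lit 83322)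
  (nat_lit 9) (node (nat_lit 5) (nat_lit 83322) (nat_lit 10) nil nil) (node (nat_lit 6) (nat_lit
  83322) (nat_lit 9) nil nil)) (node (nat_lit 0) (nat_lit 75373) (nat_lit 8) nil nil)))) (node
  (nat_lit 4) (nat_lit 0) (nat_lit 7) (node (nat_lit 5) (nat_lit 71409) (nat_lit 8) (node (nat_lit
  4) (nat_lit 75032) (nat_lit 9) (node (nat_lit 6) (nat_lit 76393) (nat_lit 10) (node (nat_lit 4)
  (nat_lit 78807) (nat_lit 11) nil (node (nat_lit 5) (nat_lit 76581) (nat_lit 11) nil nil)) (node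
  (nat_lit 9) (nat_lit 86760) (nat_lit 10) nil nil)) (node (nat_lit 6) (nat_lit 70697) (nat_lit 9)
  (node (nat_lit 5) (nat_lit 70697) (nat_lit 10) nil (node (nat_lit 4) (nat_lit 70697) (nat_lit
  10) nil nil)) (node (nat_lit 9) (nat_lit 80120) (nat_lit 9) nil nil))) (node (nat_lit 6)
  (nat_lit 0) (nat_lit 8) (node (nat_lit 4) (nat_lit 71074) (nat_lit 9) (node (nat_lit 5) (nat_lit
  70867) (nat_lit 10) nil (node (nat_lit 9) (nat_lit 76866) (nat_lit 10) nil nil)) (node (nat_lit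
  5) (nat_lit 72255) (nat_lit 9) (node (nat_lit 4) (nat_lit 72255) (nat_lit 10) nil (node (nat_lit
  6) (nat_lit 72255) (nat_lit 10) nil nil)) (node (nat_lit 9) (nat_lit 79314) (nat_lit 9) nil
  (node (nat_lit 0) (nat_lit 75935) (nat_lit 9) nil nil)))) (node (nat_lit 0) (nat_lit 76812)
  (nat_lit 8) nil nil))) (node (nat_lit 0) (nat_lit 76016) (nat_lit 7) (node (nat_lit 9) (nat_lit
  80226) (nat_lit 8) nil (node (nat_lit 4) (nat_lit 76016) (nat_lit 8) nil nil)) nil)))) (node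
  (nat_lit 6) (nat_lit 0) (nat_lit 6) (node (nat_lit 0) (nat_lit 0) (nat_lit 7) (node (nat_lit 6)
  (nat_lit 0) (nat_lit 8) (node (nat_lit 4) (nat_lit 72483) (nat_lit 9) (node (nat_lit 5) (nat_lit
  75099) (nat_lit 10) (node (nat_lit 4) (nat_lit 75570) (nat_lit 11) nil (node (nat_lit 6)
  (nat_lit 76751) (nat_lit 11) nil (node (nat_lit 10) (nat_lit 81175) (nat_lit 11) nil (node
  (nat_lit 0) (nat_lit 82411) (nat_lit 11) nil nil)))) (node (nat_lit 6) (nat_lit 74389) (nat_lit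
  10) (node (nat_lit 10) (nat_lit 81701) (nat_lit 11) nil (node (nat_lit 5) (nat_lit 74356)
  (nat_lit 11) nil nil)) (node (nat_lit 10) (nat_lit 83313) (nat_lit 10) (node (nat_lit 6)
  (nat_lit 83313) (nat_lit 11) nil nil) (node (nat_lit 0) (nat_lit 78832) (nat_lit 10) nil nil))))
  (node (nat_lit 5) (nat_lit 72366) (nat_lit 9) (node (nat_lit 6) (nat_lit 73928) (nat_lit 10)
  (node (nat_lit 10) (nat_lit 81239) (nat_lit 11) nil (node (nat_lit 4) (nat_lit 74989) (nat_lit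
  11) nil (node (nat_lit 0) (nat_lit 77711) (nat_lit 11) nil nil))) (node (nat_lit 4) (nat_lit
  75339) (nat_lit 10) (node (nat_lit 5) (nat_lit 75810) (nat_lit 11) nil (node (nat_lit 6)
  (nat_lit 75218) (nat_lit 11) nil (node (nat_lit 10) (nat_lit 79123) (nat_lit 11) nil (node
  (nat_lit 0) (nat_lit 79123) (nat_lit 11) nil nil)))) (node (nat_lit 10) (nat_lit 81322) (nat_lit
  10) nil (node (nat_lit 0) (nat_lit 82002) (nat_lit 10) nil nil)))) (node (nat_lit 0) (nat_lit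
  80369) (nat_lit 9) (node (nat_lit 10) (nat_lit 80829) (nat_lit 10) nil nil) nil))) (node
  (nat_lit 4) (nat_lit 69826) (nat_lit 8) (node (nat_lit 10) (nat_lit 81466) (nat_lit 9) (node
  (nat_lit 6) (nat_lit 81466) (nat_lit 10) (node (nat_lit 10) (nat_lit 82330) (nat_lit 11) nil
  nil) nil) (node (nat_lit 6) (nat_lit 69826) (nat_lit 9) (node (nat_lit 4) (nat_lit 69826)
  (nat_lit 10) (node (nat_lit 10) (nat_lit 73610) (nat_lit 11) nil nil) nil) (node (nat_lit 0)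
  (nat_lit 72746) (nat_lit 9) nil nil))) (node (nat_lit 5) (nat_lit 70149) (nat_lit 8) (node
  (nat_lit 10) (nat_lit 75421) (nat_lit 9) nil (node (nat_lit 6) (nat_lit 70149) (nat_lit 9) nil
  nil)) (node (nat_lit 0) (nat_lit 76882) (nat_lit 8) (node (nat_lit 6) (nat_lit 76882) (nat_lit
  9) nil (node (nat_lit 10) (nat_lit 77944) (nat_lit 9) nil nil)) nil)))) (node (nat_lit 4)
  (nat_lit 0) (nat_lit 7) (node (nat_lit 0) (nat_lit 73555) (nat_lit 8) (node (nat_lit 6) (nat_lit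
  74254) (nat_lit 9) (node (nat_lit 4) (nat_lit 75809) (nat_lit 10) (node (nat_lit 6) (nat_lit
  76362) (nat_lit 11) (node (nat_lit 11) (nat_lit 83482) (nat_lit 12) nil (node (nat_lit 5)
  (nat_lit 77100) (nat_lit 12) nil (node (nat_lit 0) (nat_lit 83482) (nat_lit 12) nil nil))) (node
  (nat_lit 5) (nat_lit 76264) (nat_lit 11) (node (nat_lit 6) (nat_lit 77951) (nat_lit 12) nil
  (node (nat_lit 11) (nat_lit 83384) (nat_lit 12) nil (node (nat_lit 4) (nat_lit 76845) (nat_lit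
  12) nil nil))) (node (nat_lit 0) (nat_lit 81762) (nat_lit 11) nil nil))) (node (nat_lit 11)
  (nat_lit 78776) (nat_lit 10) nil nil)) (node (nat_lit 4) (nat_lit 74364) (nat_lit 9) (node
  (nat_lit 6) (nat_lit 74364) (nat_lit 10) (node (nat_lit 11) (nat_lit 76290) (nat_lit 11) nil
  nil) nil) nil)) nil) (node (nat_lit 5) (nat_lit 0) (nat_lit 7) (node (nat_lit 0) (nat_lit 73096)
  (nat_lit 8) (node (nat_lit 6) (nat_lit 73645) (nat_lit 9) (node (nat_lit 5) (nat_lit 73984)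
  (nat_lit 10) (node (nat_lit 6) (nat_lit 73984) (nat_lit 11) (node (nat_lit 11) (nat_lit 76276)
  (nat_lit 12) nil nil) (node (nat_lit 4) (nat_lit 73984) (nat_lit 11) nil (node (nat_lit 0)
  (nat_lit 75909) (nat_lit 11) nil nil))) nil) nil) nil) nil))) (node (nat_lit 5) (nat_lit 0)
  (nat_lit 6) (node (nat_lit 0) (nat_lit 0) (nat_lit 7) (node (nat_lit 5) (nat_lit 0) (nat_lit 8)
  (node (nat_lit 4) (nat_lit 44951) (nat_lit 9) (node (nat_lit 6) (nat_lit 47104) (nat_lit 10)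
  (node (nat_lit 5) (nat_lit 49155) (nat_lit 11) nil (node (nat_lit 4) (nat_lit 48268) (nat_lit
  11) nil (node (nat_lit 0) (nat_lit 49334) (nat_lit 11) nil (node (nat_lit 10) (nat_lit 49334)
  (nat_lit 11) nil nil)))) (node (nat_lit 10) (nat_lit 52037) (nat_lit 10) (node (nat_lit 5)
  (nat_lit 52037) (nat_lit 11) (node (nat_lit 10) (nat_lit 52037) (nat_lit 12) nil nil) nil) (node
  (nat_lit 5) (nat_lit 45996) (nat_lit 10) (node (nat_lit 6) (nat_lit 47058) (nat_lit 11) nil nil)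
  (node (nat_lit 0) (nat_lit 52037) (nat_lit 10) nil nil)))) (node (nat_lit 6) (nat_lit 44632)
  (nat_lit 9) (node (nat_lit 4) (nat_lit 47144) (nat_lit 10) (node (nat_lit 6) (nat_lit 48099)
  (nat_lit 11) (node (nat_lit 5) (nat_lit 47237) (nat_lit 12) nil nil) (node (nat_lit 5) (nat_lit
  47937) (nat_lit 11) (node (nat_lit 6) (nat_lit 49102) (nat_lit 12) nil nil) (node (nat_lit 10)
  (nat_lit 49374) (nat_lit 11) nil (node (nat_lit 0) (nat_lit 49374) (nat_lit 11) nil nil))))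
  (node (nat_lit 5) (nat_lit 47550) (nat_lit 10) (node (nat_lit 4) (nat_lit 49212) (nat_lit 11)
  (node (nat_lit 6) (nat_lit 50377) (nat_lit 12) nil nil) (node (nat_lit 10) (nat_lit 52037)
  (nat_lit 11) nil (node (nat_lit 0) (nat_lit 49781) (nat_lit 11) nil nil))) (node (nat_lit 10)
  (nat_lit 52037) (nat_lit 10) nil (node (nat_lit 0) (nat_lit 51177) (nat_lit 10) nil nil))))
  (node (nat_lit 0) (nat_lit 50474) (nat_lit 9) (node (nat_lit 10) (nat_lit 51127) (nat_lit 10)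
  nil nil) nil))) (node (nat_lit 4) (nat_lit 0) (nat_lit 8) (node (nat_lit 10) (nat_lit 50805)
  (nat_lit 9) (node (nat_lit 5) (nat_lit 50805) (nat_lit 10) (node (nat_lit 10) (nat_lit 52037)
  (nat_lit 11) (node (nat_lit 4) (nat_lit 52037) (nat_lit 12) nil nil) nil) nil) (node (nat_lit 5)
  (nat_lit 44996) (nat_lit 9) (node (nat_lit 4) (nat_lit 47657) (nat_lit 10) (node (nat_lit 10)
  (nat_lit 52037) (nat_lit 11) (node (nat_lit 5) (nat_lit 52037) (nat_lit 12) nil nil) nil) nil)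
  (node (nat_lit 6) (nat_lit 42236) (nat_lit 9) nil (node (nat_lit 0) (nat_lit 43999) (nat_lit 9)
  nil nil)))) (node (nat_lit 6) (nat_lit 41812) (nat_lit 8) (node (nat_lit 5) (nat_lit 44431)
  (nat_lit 9) (node (nat_lit 6) (nat_lit 44431) (nat_lit 10) nil nil) (node (nat_lit 10) (nat_lit
  50408) (nat_lit 9) nil nil)) (node (nat_lit 0) (nat_lit 46510) (nat_lit 8) (node (nat_lit 5)
  (nat_lit 46510) (nat_lit 9) (node (nat_lit 10) (nat_lit 47357) (nat_lit 10) nil nil) (node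
  (nat_lit 10) (nat_lit 47108) (nat_lit 9) nil nil)) nil)))) (node (nat_lit 6) (nat_lit 0)
  (nat_lit 7) (node (nat_lit 0) (nat_lit 44644) (nat_lit 8) (node (nat_lit 5) (nat_lit 46045)
  (nat_lit 9) (node (nat_lit 6) (nat_lit 47567) (nat_lit 10) (node (nat_lit 5) (nat_lit 48048)
  (nat_lit 11) (node (nat_lit 4) (nat_lit 49118) (nat_lit 12) (node (nat_lit 6) (nat_lit 49716)
  (nat_lit 13) nil nil) (node (nat_lit 11) (nat_lit 52037) (nat_lit 12) nil (node (nat_lit 0)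
  (nat_lit 49312) (nat_lit 12) nil nil))) (node (nat_lit 4) (nat_lit 46774) (nat_lit 11) (node
  (nat_lit 6) (nat_lit 46774) (nat_lit 12) nil (node (nat_lit 11) (nat_lit 51100) (nat_lit 12) nil
  (node (nat_lit 5) (nat_lit 46774) (nat_lit 12) nil nil))) (node (nat_lit 0) (nat_lit 52037)
  (nat_lit 11) nil nil))) nil) (node (nat_lit 6) (nat_lit 44644) (nat_lit 9) (node (nat_lit 5)
  (nat_lit 44644) (nat_lit 10) nil nil) nil)) nil) nil)) nil))) (node (nat_lit 0) (nat_lit 0)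
  (nat_lit 5) (node (nat_lit 6) (nat_lit 0) (nat_lit 6) (node (nat_lit 5) (nat_lit 72877) (nat_lit
  7) (node (nat_lit 4) (nat_lit 77412) (nat_lit 8) (node (nat_lit 5) (nat_lit 78872) (nat_lit 9)
  (node (nat_lit 6) (nat_lit 82022) (nat_lit 10) (node (nat_lit 5) (nat_lit 82448) (nat_lit 11)
  (node (nat_lit 8) (nat_lit 52037) (nat_lit 12) nil nil) nil) nil) (node (nat_lit 6) (nat_lit
  82041) (nat_lit 9) (node (nat_lit 4) (nat_lit 84568) (nat_lit 10) nil (node (nat_lit 5) (nat_lit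
  81508) (nat_lit 10) nil nil)) (node (nat_lit 8) (nat_lit 83072) (nat_lit 9) nil nil))) (node
  (nat_lit 6) (nat_lit 75016) (nat_lit 8) (node (nat_lit 4) (nat_lit 76476) (nat_lit 9) (node
  (nat_lit 5) (nat_lit 79003) (nat_lit 10) nil nil) (node (nat_lit 8) (nat_lit 80676) (nat_lit 9)
  nil nil)) nil)) (node (nat_lit 4) (nat_lit 73913) (nat_lit 7) (node (nat_lit 5) (nat_lit 78539)
  (nat_lit 8) (node (nat_lit 4) (nat_lit 82668) (nat_lit 9) (node (nat_lit 6) (nat_lit 86097)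
  (nat_lit 10) (node (nat_lit 5) (nat_lit 86353) (nat_lit 11) nil nil) nil) (node (nat_lit 6)
  (nat_lit 82304) (nat_lit 9) nil (node (nat_lit 8) (nat_lit 84199) (nat_lit 9) nil nil))) (node
  (nat_lit 6) (nat_lit 78965) (nat_lit 8) (node (nat_lit 5) (nat_lit 81333) (nat_lit 9) (node
  (nat_lit 4) (nat_lit 80800) (nat_lit 10) nil nil) (node (nat_lit 8) (nat_lit 84625) (nat_lit 9)
  nil nil)) (node (nat_lit 8) (nat_lit 83092) (nat_lit 8) nil nil))) (node (nat_lit 8) (nat_lit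
  85387) (nat_lit 7) (node (nat_lit 4) (nat_lit 85387) (nat_lit 8) nil (node (nat_lit 5) (nat_lit
  85387) (nat_lit 8) nil nil)) (node (nat_lit 0) (nat_lit 70996) (nat_lit 7) nil nil)))) (node
  (nat_lit 4) (nat_lit 0) (nat_lit 6) (node (nat_lit 5) (nat_lit 74788) (nat_lit 7) (node (nat_lit
  6) (nat_lit 79231) (nat_lit 8) (node (nat_lit 5) (nat_lit 83650) (nat_lit 9) (node (nat_lit 4)
  (nat_lit 86097) (nat_lit 10) (node (nat_lit 6) (nat_lit 85776) (nat_lit 11) nil nil) nil) (node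
  (nat_lit 4) (nat_lit 81034) (nat_lit 9) (node (nat_lit 6) (nat_lit 84440) (nat_lit 10) (node
  (nat_lit 5) (nat_lit 83856) (nat_lit 11) nil nil) nil) (node (nat_lit 8) (nat_lit 84201)
  (nat_lit 9) nil nil))) (node (nat_lit 4) (nat_lit 79686) (nat_lit 8) (node (nat_lit 6) (nat_lit
  79875) (nat_lit 9) nil (node (nat_lit 8) (nat_lit 85074) (nat_lit 9) nil nil)) (node (nat_lit 8)
  (nat_lit 79844) (nat_lit 8) nil nil))) (node (nat_lit 6) (nat_lit 73080) (nat_lit 7) (node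
  (nat_lit 5) (nat_lit 78129) (nat_lit 8) (node (nat_lit 4) (nat_lit 82484) (nat_lit 9) (node
  (nat_lit 5) (nat_lit 84988) (nat_lit 10) nil (node (nat_lit 6) (nat_lit 84988) (nat_lit 10) nil
  nil)) (node (nat_lit 6) (nat_lit 81895) (nat_lit 9) (node (nat_lit 4) (nat_lit 84422) (nat_lit
  10) nil nil) (node (nat_lit 8) (nat_lit 83789) (nat_lit 9) nil nil))) (node (nat_lit 4) (nat_lit
  77271) (nat_lit 8) (node (nat_lit 5) (nat_lit 77698) (nat_lit 9) nil (node (nat_lit 8) (nat_lit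
  82931) (nat_lit 9) nil nil)) (node (nat_lit 8) (nat_lit 82588) (nat_lit 8) nil nil))) (node
  (nat_lit 8) (nat_lit 85721) (nat_lit 7) nil (node (nat_lit 0) (nat_lit 72486) (nat_lit 7) nil
  nil)))) (node (nat_lit 5) (nat_lit 67537) (nat_lit 6) (node (nat_lit 6) (nat_lit 73140) (nat_lit
  7) (node (nat_lit 4) (nat_lit 77283) (nat_lit 8) (node (nat_lit 5) (nat_lit 80743) (nat_lit 9)
  (node (nat_lit 6) (nat_lit 82121) (nat_lit 10) (node (nat_lit 5) (nat_lit 81251) (nat_lit 11)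
  (node (nat_lit 8) (nat_lit 54283) (nat_lit 12) nil nil) nil) (node (nat_lit 4) (nat_lit 82067)
  (nat_lit 10) nil nil)) (node (nat_lit 6) (nat_lit 81025) (nat_lit 9) (node (nat_lit 5) (nat_lit
  81059) (nat_lit 10) nil nil) (node (nat_lit 8) (nat_lit 82943) (nat_lit 9) nil nil))) (node
  (nat_lit 5) (nat_lit 75546) (nat_lit 8) (node (nat_lit 4) (nat_lit 79311) (nat_lit 9) (node
  (nat_lit 6) (nat_lit 82092) (nat_lit 10) nil nil) nil) (node (nat_lit 8) (nat_lit 83529)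
  (nat_lit 8) nil nil))) (node (nat_lit 4) (nat_lit 73357) (nat_lit 7) (node (nat_lit 6) (nat_lit
  77721) (nat_lit 8) (node (nat_lit 5) (nat_lit 81486) (nat_lit 9) (node (nat_lit 6) (nat_lit
  84013) (nat_lit 10) nil (node (nat_lit 4) (nat_lit 84013) (nat_lit 10) nil nil)) (node (nat_lit
  4) (nat_lit 81486) (nat_lit 9) (node (nat_lit 5) (nat_lit 84013) (nat_lit 10) nil nil) (node
  (nat_lit 8) (nat_lit 83382) (nat_lit 9) nil nil))) (node (nat_lit 5) (nat_lit 76322) (nat_lit 8)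
  (node (nat_lit 6) (nat_lit 80088) (nat_lit 9) nil nil) (node (nat_lit 8) (nat_lit 78412)
  (nat_lit 8) nil nil))) nil)) (node (nat_lit 0) (nat_lit 80571) (nat_lit 6) nil nil)))) nil))
  nil)) (node (nat_lit 4) (nat_lit 0) (nat_lit 3) (node (nat_lit 3) (nat_lit 0) (nat_lit 4) t455
  nil) nil))

noncomputable def c47 : Tr :=
  (node (nat_lit 3) (nat_lit 0) (nat_lit 1) (node (nat_lit 3) (nat_lit 0) (nat_lit 2) t456 nil)
  nil)

noncomputable def t457 : Tr :=
  (node (nat_lit 0) (nat_lit 0) (nat_lit 2) (node (nat_lit 1) (nat_lit 0) (nat_lit 3) (node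
  (nat_lit 5) (nat_lit 83305) (nat_lit 4) (node (nat_lit 3) (nat_lit 84861) (nat_lit 5) nil (node
  (nat_lit 4) (nat_lit 84861) (nat_lit 5) (node (nat_lit 6) (nat_lit 84861) (nat_lit 6) (node
  (nat_lit 4) (nat_lit 84861) (nat_lit 7) (node (nat_lit 5) (nat_lit 84861) (nat_lit 8) (node
  (nat_lit 6) (nat_lit 84861) (nat_lit 9) (node (nat_lit 5) (nat_lit 84861) (nat_lit 10) (node
  (nat_lit 4) (nat_lit 27890) (nat_lit 11) nil nil) nil) nil) nil) nil) nil) nil)) (node (nat_lit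
  3) (nat_lit 82279) (nat_lit 4) (node (nat_lit 4) (nat_lit 84123) (nat_lit 5) nil (node (nat_lit
  5) (nat_lit 83165) (nat_lit 5) nil (node (nat_lit 6) (nat_lit 84123) (nat_lit 5) nil nil)))
  (node (nat_lit 4) (nat_lit 84236) (nat_lit 4) (node (nat_lit 5) (nat_lit 27890) (nat_lit 5) nil
  nil) (node (nat_lit 0) (nat_lit 84115) (nat_lit 4) nil (node (nat_lit 2) (nat_lit 77856)
  (nat_lit 4) nil nil))))) (node (nat_lit 3) (nat_lit 0) (nat_lit 3) (node (nat_lit 5) (nat_lit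
  79134) (nat_lit 4) (node (nat_lit 1) (nat_lit 81450) (nat_lit 5) (node (nat_lit 6) (nat_lit
  81450) (nat_lit 6) nil (node (nat_lit 4) (nat_lit 81686) (nat_lit 6) (node (nat_lit 5) (nat_lit
  81804) (nat_lit 7) (node (nat_lit 6) (nat_lit 81804) (nat_lit 8) nil nil) nil) nil)) (node
  (nat_lit 4) (nat_lit 81254) (nat_lit 5) (node (nat_lit 6) (nat_lit 81254) (nat_lit 6) (node
  (nat_lit 4) (nat_lit 82093) (nat_lit 7) (node (nat_lit 5) (nat_lit 82208) (nat_lit 8) (node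
  (nat_lit 6) (nat_lit 82208) (nat_lit 9) (node (nat_lit 5) (nat_lit 82362) (nat_lit 10) (node
  (nat_lit 4) (nat_lit 50852) (nat_lit 11) nil nil) nil) nil) nil) nil) nil) nil)) (node (nat_lit
  1) (nat_lit 79214) (nat_lit 4) (node (nat_lit 4) (nat_lit 78874) (nat_lit 5) (node (nat_lit 5)
  (nat_lit 55759) (nat_lit 6) (node (nat_lit 6) (nat_lit 29022) (nat_lit 7) nil nil) nil) (node
  (nat_lit 5) (nat_lit 80435) (nat_lit 5) nil nil)) (node (nat_lit 4) (nat_lit 79014) (nat_lit 4)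
  (node (nat_lit 5) (nat_lit 50852) (nat_lit 5) nil nil) (node (nat_lit 0) (nat_lit 79214)
  (nat_lit 4) nil (node (nat_lit 2) (nat_lit 72308) (nat_lit 4) (node (nat_lit 6) (nat_lit 73832)
  (nat_lit 5) nil (node (nat_lit 1) (nat_lit 76287) (nat_lit 5) nil (node (nat_lit 4) (nat_lit
  80905) (nat_lit 5) nil nil))) nil))))) (node (nat_lit 4) (nat_lit 0) (nat_lit 3) (node (nat_lit
  1) (nat_lit 81184) (nat_lit 4) (node (nat_lit 5) (nat_lit 82627) (nat_lit 5) (node (nat_lit 7)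
  (nat_lit 82797) (nat_lit 6) (node (nat_lit 4) (nat_lit 82878) (nat_lit 7) (node (nat_lit 5)
  (nat_lit 82937) (nat_lit 8) (node (nat_lit 4) (nat_lit 82973) (nat_lit 9) (node (nat_lit 7)
  (nat_lit 83000) (nat_lit 10) (node (nat_lit 5) (nat_lit 31092) (nat_lit 11) nil nil) nil) nil)
  nil) nil) nil) nil) (node (nat_lit 3) (nat_lit 77384) (nat_lit 4) (node (nat_lit 1) (nat_lit
  81929) (nat_lit 5) nil (node (nat_lit 5) (nat_lit 82549) (nat_lit 5) nil (node (nat_lit 4)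
  (nat_lit 82280) (nat_lit 5) (node (nat_lit 5) (nat_lit 82674) (nat_lit 6) nil nil) nil))) (node
  (nat_lit 0) (nat_lit 81184) (nat_lit 4) nil (node (nat_lit 2) (nat_lit 78066) (nat_lit 4) nil
  nil)))) (node (nat_lit 0) (nat_lit 0) (nat_lit 3) (node (nat_lit 5) (nat_lit 82422) (nat_lit 4)
  nil (node (nat_lit 1) (nat_lit 81677) (nat_lit 4) nil (node (nat_lit 3) (nat_lit 79928) (nat_lit
  4) nil (node (nat_lit 0) (nat_lit 81677) (nat_lit 4) nil (node (nat_lit 2) (nat_lit 79928)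
  (nat_lit 4) nil (node (nat_lit 4) (nat_lit 82422) (nat_lit 4) (node (nat_lit 5) (nat_lit 82422)
  (nat_lit 5) nil nil) nil)))))) (node (nat_lit 2) (nat_lit 0) (nat_lit 3) (node (nat_lit 5)
  (nat_lit 79037) (nat_lit 4) nil (node (nat_lit 1) (nat_lit 78277) (nat_lit 4) (node (nat_lit 4)
  (nat_lit 78499) (nat_lit 5) (node (nat_lit 5) (nat_lit 61663) (nat_lit 6) nil nil) nil) (node
  (nat_lit 3) (nat_lit 72355) (nat_lit 4) (node (nat_lit 5) (nat_lit 78693) (nat_lit 5) nil (node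
  (nat_lit 1) (nat_lit 75437) (nat_lit 5) nil (node (nat_lit 4) (nat_lit 75300) (nat_lit 5) (node
  (nat_lit 5) (nat_lit 55487) (nat_lit 6) nil nil) nil))) (node (nat_lit 0) (nat_lit 78277)
  (nat_lit 4) nil (node (nat_lit 4) (nat_lit 79037) (nat_lit 4) (node (nat_lit 5) (nat_lit 79037)
  (nat_lit 5) nil nil) (node (nat_lit 2) (nat_lit 72426) (nat_lit 4) (node (nat_lit 5) (nat_lit
  75392) (nat_lit 5) nil (node (nat_lit 1) (nat_lit 75392) (nat_lit 5) nil (node (nat_lit 3)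
  (nat_lit 71667) (nat_lit 5) nil nil))) nil)))))) nil))))) (node (nat_lit 2) (nat_lit 0) (nat_lit
  2) (node (nat_lit 1) (nat_lit 0) (nat_lit 3) (node (nat_lit 5) (nat_lit 0) (nat_lit 4) (node
  (nat_lit 3) (nat_lit 72759) (nat_lit 5) (node (nat_lit 6) (nat_lit 75455) (nat_lit 6) (node
  (nat_lit 8) (nat_lit 75455) (nat_lit 7) nil (node (nat_lit 4) (nat_lit 75455) (nat_lit 7) (node
  (nat_lit 5) (nat_lit 75455) (nat_lit 8) (node (nat_lit 6) (nat_lit 67903) (nat_lit 9) nil nil)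
  nil) nil)) (node (nat_lit 5) (nat_lit 72759) (nat_lit 6) nil (node (nat_lit 4) (nat_lit 73924)
  (nat_lit 6) (node (nat_lit 5) (nat_lit 67869) (nat_lit 7) (node (nat_lit 6) (nat_lit 51715)
  (nat_lit 8) nil nil) nil) nil))) (node (nat_lit 4) (nat_lit 71663) (nat_lit 5) (node (nat_lit 6)
  (nat_lit 75116) (nat_lit 6) (node (nat_lit 4) (nat_lit 75455) (nat_lit 7) (node (nat_lit 5)
  (nat_lit 75455) (nat_lit 8) (node (nat_lit 6) (nat_lit 75455) (nat_lit 9) (node (nat_lit 5)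
  (nat_lit 75455) (nat_lit 10) (node (nat_lit 4) (nat_lit 27134) (nat_lit 11) nil nil) nil) nil)
  nil) nil) (node (nat_lit 3) (nat_lit 75335) (nat_lit 6) nil nil)) (node (nat_lit 0) (nat_lit
  75335) (nat_lit 5) nil (node (nat_lit 2) (nat_lit 73114) (nat_lit 5) (node (nat_lit 6) (nat_lit
  74279) (nat_lit 6) nil nil) nil)))) (node (nat_lit 3) (nat_lit 72976) (nat_lit 4) (node (nat_lit
  4) (nat_lit 75207) (nat_lit 5) (node (nat_lit 5) (nat_lit 75207) (nat_lit 6) nil nil) (node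
  (nat_lit 5) (nat_lit 73005) (nat_lit 5) (node (nat_lit 7) (nat_lit 73005) (nat_lit 6) (node
  (nat_lit 6) (nat_lit 74337) (nat_lit 7) nil (node (nat_lit 4) (nat_lit 73666) (nat_lit 7) (node
  (nat_lit 5) (nat_lit 69106) (nat_lit 8) (node (nat_lit 6) (nat_lit 65366) (nat_lit 9) (node
  (nat_lit 7) (nat_lit 51216) (nat_lit 10) nil nil) nil) nil) nil)) (node (nat_lit 6) (nat_lit
  75455) (nat_lit 6) (node (nat_lit 4) (nat_lit 75455) (nat_lit 7) nil nil) (node (nat_lit 4)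
  (nat_lit 74170) (nat_lit 6) nil nil))) (node (nat_lit 6) (nat_lit 75335) (nat_lit 5) (node
  (nat_lit 4) (nat_lit 75455) (nat_lit 6) (node (nat_lit 5) (nat_lit 75455) (nat_lit 7) (node
  (nat_lit 6) (nat_lit 58106) (nat_lit 8) (node (nat_lit 7) (nat_lit 27134) (nat_lit 9) nil nil)
  nil) nil) nil) nil))) (node (nat_lit 4) (nat_lit 0) (nat_lit 4) (node (nat_lit 3) (nat_lit
  60843) (nat_lit 5) (node (nat_lit 4) (nat_lit 63250) (nat_lit 6) (node (nat_lit 5) (nat_lit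
  64003) (nat_lit 7) (node (nat_lit 6) (nat_lit 64203) (nat_lit 8) nil nil) nil) (node (nat_lit 6)
  (nat_lit 62199) (nat_lit 6) nil nil)) (node (nat_lit 5) (nat_lit 27134) (nat_lit 5) nil (node
  (nat_lit 6) (nat_lit 56999) (nat_lit 5) nil (node (nat_lit 0) (nat_lit 62255) (nat_lit 5) nil
  (node (nat_lit 2) (nat_lit 60378) (nat_lit 5) nil nil))))) (node (nat_lit 0) (nat_lit 75455)
  (nat_lit 4) (node (nat_lit 6) (nat_lit 75455) (nat_lit 5) nil (node (nat_lit 4) (nat_lit 75455)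
  (nat_lit 5) (node (nat_lit 6) (nat_lit 75455) (nat_lit 6) (node (nat_lit 4) (nat_lit 75455)
  (nat_lit 7) (node (nat_lit 5) (nat_lit 75455) (nat_lit 8) (node (nat_lit 6) (nat_lit 75455)
  (nat_lit 9) (node (nat_lit 7) (nat_lit 75455) (nat_lit 10) (node (nat_lit 4) (nat_lit 27134)
  (nat_lit 11) nil nil) nil) nil) nil) nil) nil) nil)) (node (nat_lit 2) (nat_lit 71574) (nat_lit
  4) (node (nat_lit 3) (nat_lit 72567) (nat_lit 5) nil (node (nat_lit 6) (nat_lit 75003) (nat_lit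
  5) nil (node (nat_lit 4) (nat_lit 75003) (nat_lit 5) (node (nat_lit 6) (nat_lit 75235) (nat_lit
  6) (node (nat_lit 4) (nat_lit 75402) (nat_lit 7) nil nil) nil) nil))) nil))))) (node (nat_lit 3)
  (nat_lit 0) (nat_lit 3) (node (nat_lit 5) (nat_lit 0) (nat_lit 4) (node (nat_lit 1) (nat_lit 0)
  (nat_lit 5) (node (nat_lit 6) (nat_lit 76201) (nat_lit 6) (node (nat_lit 4) (nat_lit 77067)
  (nat_lit 7) nil nil) (node (nat_lit 5) (nat_lit 76201) (nat_lit 6) nil (node (nat_lit 4)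
  (nat_lit 76317) (nat_lit 6) (node (nat_lit 5) (nat_lit 70959) (nat_lit 7) (node (nat_lit 6)
  (nat_lit 53510) (nat_lit 8) nil nil) nil) (node (nat_lit 0) (nat_lit 76310) (nat_lit 6) nil
  (node (nat_lit 2) (nat_lit 76193) (nat_lit 6) nil nil))))) (node (nat_lit 4) (nat_lit 0)
  (nat_lit 5) (node (nat_lit 6) (nat_lit 70024) (nat_lit 6) (node (nat_lit 4) (nat_lit 73871)
  (nat_lit 7) (node (nat_lit 5) (nat_lit 75671) (nat_lit 8) (node (nat_lit 6) (nat_lit 77037)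
  (nat_lit 9) (node (nat_lit 5) (nat_lit 77754) (nat_lit 10) (node (nat_lit 4) (nat_lit 48893)
  (nat_lit 11) nil nil) nil) nil) nil) (node (nat_lit 1) (nat_lit 77235) (nat_lit 7) nil nil))
  (node (nat_lit 5) (nat_lit 69988) (nat_lit 6) (node (nat_lit 6) (nat_lit 73807) (nat_lit 7) nil
  nil) (node (nat_lit 1) (nat_lit 74453) (nat_lit 6) nil (node (nat_lit 0) (nat_lit 74453)
  (nat_lit 6) nil (node (nat_lit 2) (nat_lit 74413) (nat_lit 6) nil nil))))) (node (nat_lit 0)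
  (nat_lit 73596) (nat_lit 5) (node (nat_lit 6) (nat_lit 76201) (nat_lit 6) nil (node (nat_lit 4)
  (nat_lit 76317) (nat_lit 6) nil nil)) (node (nat_lit 2) (nat_lit 0) (nat_lit 5) (node (nat_lit
  6) (nat_lit 66834) (nat_lit 6) (node (nat_lit 5) (nat_lit 66834) (nat_lit 7) (node (nat_lit 6)
  (nat_lit 66840) (nat_lit 8) nil nil) (node (nat_lit 4) (nat_lit 74747) (nat_lit 7) nil nil))
  (node (nat_lit 5) (nat_lit 66830) (nat_lit 6) (node (nat_lit 6) (nat_lit 66818) (nat_lit 7) nil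
  nil) (node (nat_lit 4) (nat_lit 75981) (nat_lit 6) nil (node (nat_lit 1) (nat_lit 73754)
  (nat_lit 6) nil (node (nat_lit 0) (nat_lit 75828) (nat_lit 6) nil nil))))) nil)))) (node
  (nat_lit 1) (nat_lit 0) (nat_lit 4) (node (nat_lit 4) (nat_lit 63515) (nat_lit 5) (node (nat_lit
  5) (nat_lit 56074) (nat_lit 6) (node (nat_lit 6) (nat_lit 26189) (nat_lit 7) nil nil) (node
  (nat_lit 7) (nat_lit 67076) (nat_lit 6) (node (nat_lit 6) (nat_lit 69259) (nat_lit 7) nil nil)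
  (node (nat_lit 6) (nat_lit 66999) (nat_lit 6) (node (nat_lit 4) (nat_lit 69305) (nat_lit 7)
  (node (nat_lit 5) (nat_lit 68598) (nat_lit 8) (node (nat_lit 6) (nat_lit 68020) (nat_lit 9)
  (node (nat_lit 7) (nat_lit 68213) (nat_lit 10) nil nil) nil) nil) nil) nil))) (node (nat_lit 5)
  (nat_lit 74301) (nat_lit 5) (node (nat_lit 7) (nat_lit 76535) (nat_lit 6) (node (nat_lit 6)
  (nat_lit 77241) (nat_lit 7) nil nil) (node (nat_lit 6) (nat_lit 76406) (nat_lit 6) (node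
  (nat_lit 4) (nat_lit 77165) (nat_lit 7) nil nil) nil)) (node (nat_lit 6) (nat_lit 74507)
  (nat_lit 5) (node (nat_lit 5) (nat_lit 76406) (nat_lit 6) nil (node (nat_lit 4) (nat_lit 76535)
  (nat_lit 6) (node (nat_lit 5) (nat_lit 77402) (nat_lit 7) (node (nat_lit 6) (nat_lit 77972)
  (nat_lit 8) (node (nat_lit 7) (nat_lit 46595) (nat_lit 9) nil nil) nil) nil) nil)) (node
  (nat_lit 0) (nat_lit 74187) (nat_lit 5) nil (node (nat_lit 2) (nat_lit 73313) (nat_lit 5) nil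
  nil))))) (node (nat_lit 4) (nat_lit 0) (nat_lit 4) (node (nat_lit 1) (nat_lit 58772) (nat_lit 5)
  (node (nat_lit 5) (nat_lit 60538) (nat_lit 6) nil (node (nat_lit 4) (nat_lit 60129) (nat_lit 6)
  (node (nat_lit 6) (nat_lit 60996) (nat_lit 7) nil (node (nat_lit 5) (nat_lit 61202) (nat_lit 7)
  (node (nat_lit 6) (nat_lit 61772) (nat_lit 8) (node (nat_lit 4) (nat_lit 10827) (nat_lit 9) nil
  nil) nil) nil)) (node (nat_lit 6) (nat_lit 60129) (nat_lit 6) nil nil))) (node (nat_lit 5)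
  (nat_lit 49482) (nat_lit 5) nil (node (nat_lit 6) (nat_lit 51340) (nat_lit 5) (node (nat_lit 5)
  (nat_lit 56851) (nat_lit 6) nil nil) (node (nat_lit 0) (nat_lit 58772) (nat_lit 5) nil (node
  (nat_lit 2) (nat_lit 55073) (nat_lit 5) nil nil))))) (node (nat_lit 0) (nat_lit 69411) (nat_lit
  4) (node (nat_lit 5) (nat_lit 74507) (nat_lit 5) nil (node (nat_lit 6) (nat_lit 74507) (nat_lit
  5) nil (node (nat_lit 1) (nat_lit 74749) (nat_lit 5) nil (node (nat_lit 4) (nat_lit 74763)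
  (nat_lit 5) nil nil)))) (node (nat_lit 2) (nat_lit 0) (nat_lit 4) (node (nat_lit 5) (nat_lit
  66590) (nat_lit 5) (node (nat_lit 6) (nat_lit 66630) (nat_lit 6) nil nil) (node (nat_lit 1)
  (nat_lit 72088) (nat_lit 5) nil (node (nat_lit 6) (nat_lit 65107) (nat_lit 5) (node (nat_lit 4)
  (nat_lit 71634) (nat_lit 6) nil (node (nat_lit 1) (nat_lit 71204) (nat_lit 6) nil (node (nat_lit
  5) (nat_lit 66693) (nat_lit 6) nil nil))) (node (nat_lit 4) (nat_lit 73977) (nat_lit 5) nil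
  (node (nat_lit 0) (nat_lit 73520) (nat_lit 5) nil nil))))) nil))))) (node (nat_lit 4) (nat_lit
  0) (nat_lit 3) (node (nat_lit 1) (nat_lit 68293) (nat_lit 4) (node (nat_lit 3) (nat_lit 75901)
  (nat_lit 5) (node (nat_lit 4) (nat_lit 77182) (nat_lit 6) nil nil) (node (nat_lit 5) (nat_lit
  73111) (nat_lit 5) (node (nat_lit 7) (nat_lit 76177) (nat_lit 6) (node (nat_lit 4) (nat_lit
  78123) (nat_lit 7) (node (nat_lit 5) (nat_lit 78123) (nat_lit 8) (node (nat_lit 4) (nat_lit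
  78218) (nat_lit 9) (node (nat_lit 7) (nat_lit 62767) (nat_lit 10) (node (nat_lit 5) (nat_lit
  30301) (nat_lit 11) nil nil) nil) nil) nil) nil) (node (nat_lit 3) (nat_lit 75853) (nat_lit 6)
  nil nil)) (node (nat_lit 4) (nat_lit 73111) (nat_lit 5) (node (nat_lit 5) (nat_lit 76159)
  (nat_lit 6) (node (nat_lit 4) (nat_lit 30203) (nat_lit 7) nil nil) nil) nil))) (node (nat_lit 3)
  (nat_lit 0) (nat_lit 4) (node (nat_lit 1) (nat_lit 77877) (nat_lit 5) nil (node (nat_lit 5)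
  (nat_lit 68692) (nat_lit 5) (node (nat_lit 7) (nat_lit 72992) (nat_lit 6) (node (nat_lit 4)
  (nat_lit 78112) (nat_lit 7) (node (nat_lit 5) (nat_lit 76095) (nat_lit 8) (node (nat_lit 4)
  (nat_lit 72662) (nat_lit 9) (node (nat_lit 7) (nat_lit 59279) (nat_lit 10) (node (nat_lit 5)
  (nat_lit 46570) (nat_lit 11) nil nil) nil) nil) nil) nil) (node (nat_lit 4) (nat_lit 72998)
  (nat_lit 6) nil (node (nat_lit 1) (nat_lit 78484) (nat_lit 6) nil nil))) (node (nat_lit 4)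
  (nat_lit 69745) (nat_lit 5) (node (nat_lit 5) (nat_lit 72986) (nat_lit 6) (node (nat_lit 4)
  (nat_lit 47451) (nat_lit 7) nil nil) nil) (node (nat_lit 0) (nat_lit 77877) (nat_lit 5) nil
  (node (nat_lit 2) (nat_lit 73087) (nat_lit 5) nil nil))))) (node (nat_lit 0) (nat_lit 74967)
  (nat_lit 4) (node (nat_lit 1) (nat_lit 77698) (nat_lit 5) nil (node (nat_lit 3) (nat_lit 75901)
  (nat_lit 5) nil nil)) (node (nat_lit 2) (nat_lit 70281) (nat_lit 4) (node (nat_lit 1) (nat_lit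
  78019) (nat_lit 5) nil (node (nat_lit 3) (nat_lit 73609) (nat_lit 5) nil (node (nat_lit 4)
  (nat_lit 73060) (nat_lit 5) nil nil))) nil)))) (node (nat_lit 0) (nat_lit 0) (nat_lit 3) (node
  (nat_lit 5) (nat_lit 76556) (nat_lit 4) (node (nat_lit 1) (nat_lit 77927) (nat_lit 5) nil (node
  (nat_lit 3) (nat_lit 76556) (nat_lit 5) nil nil)) (node (nat_lit 1) (nat_lit 78047) (nat_lit 4)
  (node (nat_lit 4) (nat_lit 78047) (nat_lit 5) (node (nat_lit 5) (nat_lit 78047) (nat_lit 6) nil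
  nil) nil) (node (nat_lit 3) (nat_lit 76159) (nat_lit 4) (node (nat_lit 4) (nat_lit 77927)
  (nat_lit 5) (node (nat_lit 5) (nat_lit 77927) (nat_lit 6) nil nil) nil) (node (nat_lit 0)
  (nat_lit 78047) (nat_lit 4) nil (node (nat_lit 4) (nat_lit 78047) (nat_lit 4) (node (nat_lit 5)
  (nat_lit 78047) (nat_lit 5) nil nil) (node (nat_lit 2) (nat_lit 76402) (nat_lit 4) nil nil))))))
  (node (nat_lit 2) (nat_lit 0) (nat_lit 3) (node (nat_lit 1) (nat_lit 66469) (nat_lit 4) (node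
  (nat_lit 5) (nat_lit 76017) (nat_lit 5) nil (node (nat_lit 3) (nat_lit 76689) (nat_lit 5) nil
  (node (nat_lit 4) (nat_lit 69285) (nat_lit 5) (node (nat_lit 5) (nat_lit 56865) (nat_lit 6) nil
  nil) nil))) (node (nat_lit 3) (nat_lit 0) (nat_lit 4) (node (nat_lit 5) (nat_lit 66521) (nat_lit
  5) (node (nat_lit 6) (nat_lit 66565) (nat_lit 6) (node (nat_lit 5) (nat_lit 66577) (nat_lit 7)
  (node (nat_lit 7) (nat_lit 66586) (nat_lit 8) (node (nat_lit 5) (nat_lit 69012) (nat_lit 9) nil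
  nil) nil) (node (nat_lit 0) (nat_lit 74277) (nat_lit 7) nil (node (nat_lit 4) (nat_lit 74351)
  (nat_lit 7) nil nil))) (node (nat_lit 7) (nat_lit 66572) (nat_lit 6) nil nil)) (node (nat_lit 1)
  (nat_lit 69471) (nat_lit 5) (node (nat_lit 4) (nat_lit 64029) (nat_lit 6) (node (nat_lit 5)
  (nat_lit 51460) (nat_lit 7) nil nil) nil) (node (nat_lit 4) (nat_lit 60612) (nat_lit 5) (node
  (nat_lit 5) (nat_lit 51340) (nat_lit 6) (node (nat_lit 6) (nat_lit 45916) (nat_lit 7) nil nil)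
  nil) (node (nat_lit 6) (nat_lit 66509) (nat_lit 5) nil (node (nat_lit 0) (nat_lit 69471)
  (nat_lit 5) nil nil))))) (node (nat_lit 0) (nat_lit 72143) (nat_lit 4) (node (nat_lit 5)
  (nat_lit 76233) (nat_lit 5) nil (node (nat_lit 1) (nat_lit 77547) (nat_lit 5) nil (node (nat_lit
  3) (nat_lit 76434) (nat_lit 5) nil (node (nat_lit 4) (nat_lit 77547) (nat_lit 5) nil nil))))
  (node (nat_lit 5) (nat_lit 0) (nat_lit 4) (node (nat_lit 0) (nat_lit 75892) (nat_lit 5) nil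
  (node (nat_lit 1) (nat_lit 75892) (nat_lit 5) nil (node (nat_lit 3) (nat_lit 66574) (nat_lit 5)
  (node (nat_lit 4) (nat_lit 73017) (nat_lit 6) nil (node (nat_lit 5) (nat_lit 66631) (nat_lit 6)
  nil nil)) (node (nat_lit 4) (nat_lit 72481) (nat_lit 5) nil nil)))) (node (nat_lit 4) (nat_lit
  70329) (nat_lit 4) (node (nat_lit 5) (nat_lit 72417) (nat_lit 5) nil (node (nat_lit 3) (nat_lit
  77451) (nat_lit 5) nil (node (nat_lit 1) (nat_lit 77466) (nat_lit 5) nil nil))) nil)))))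
  nil))))) nil))

noncomputable def t458 : Tr :=
  (node (nat_lit 1) (nat_lit 0) (nat_lit 2) (node (nat_lit 3) (nat_lit 0) (nat_lit 3) (node
  (nat_lit 0) (nat_lit 74592) (nat_lit 4) (node (nat_lit 6) (nat_lit 74592) (nat_lit 5) (node
  (nat_lit 4) (nat_lit 75244) (nat_lit 6) (node (nat_lit 5) (nat_lit 75362) (nat_lit 7) nil nil)
  nil) (node (nat_lit 5) (nat_lit 75812) (nat_lit 5) (node (nat_lit 6) (nat_lit 75812) (nat_lit 6)
  nil nil) nil)) (node (nat_lit 2) (nat_lit 67686) (nat_lit 4) (node (nat_lit 6) (nat_lit 69136)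
  (nat_lit 5) (node (nat_lit 5) (nat_lit 71945) (nat_lit 6) nil (node (nat_lit 4) (nat_lit 71945)
  (nat_lit 6) (node (nat_lit 5) (nat_lit 65956) (nat_lit 7) (node (nat_lit 6) (nat_lit 50751)
  (nat_lit 8) (node (nat_lit 7) (nat_lit 46156) (nat_lit 9) nil nil) nil) nil) nil)) (node
  (nat_lit 5) (nat_lit 74470) (nat_lit 5) (node (nat_lit 4) (nat_lit 74648) (nat_lit 6) nil nil)
  (node (nat_lit 4) (nat_lit 74866) (nat_lit 5) nil nil))) (node (nat_lit 4) (nat_lit 67891)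
  (nat_lit 4) (node (nat_lit 5) (nat_lit 39887) (nat_lit 5) nil nil) (node (nat_lit 5) (nat_lit 0)
  (nat_lit 4) (node (nat_lit 0) (nat_lit 76828) (nat_lit 5) nil (node (nat_lit 2) (nat_lit 74855)
  (nat_lit 5) nil (node (nat_lit 4) (nat_lit 73877) (nat_lit 5) (node (nat_lit 5) (nat_lit 57250)
  (nat_lit 6) (node (nat_lit 6) (nat_lit 31241) (nat_lit 7) nil nil) nil) nil))) nil)))) (node
  (nat_lit 4) (nat_lit 0) (nat_lit 3) (node (nat_lit 0) (nat_lit 0) (nat_lit 4) (node (nat_lit 4)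
  (nat_lit 30305) (nat_lit 5) (node (nat_lit 3) (nat_lit 30305) (nat_lit 6) (node (nat_lit 4)
  (nat_lit 30643) (nat_lit 7) (node (nat_lit 7) (nat_lit 30722) (nat_lit 8) (node (nat_lit 9)
  (nat_lit 30722) (nat_lit 9) nil nil) (node (nat_lit 5) (nat_lit 30722) (nat_lit 8) nil nil))
  nil) (node (nat_lit 5) (nat_lit 30944) (nat_lit 6) nil nil)) (node (nat_lit 5) (nat_lit 30305)
  (nat_lit 5) (node (nat_lit 7) (nat_lit 30779) (nat_lit 6) nil (node (nat_lit 4) (nat_lit 31171)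
  (nat_lit 6) nil (node (nat_lit 3) (nat_lit 30305) (nat_lit 6) (node (nat_lit 4) (nat_lit 30643)
  (nat_lit 7) (node (nat_lit 5) (nat_lit 30722) (nat_lit 8) nil nil) nil) nil))) (node (nat_lit 3)
  (nat_lit 28217) (nat_lit 5) (node (nat_lit 4) (nat_lit 28843) (nat_lit 6) (node (nat_lit 5)
  (nat_lit 28957) (nat_lit 7) nil nil) nil) (node (nat_lit 0) (nat_lit 29882) (nat_lit 5) nil
  (node (nat_lit 2) (nat_lit 28217) (nat_lit 5) nil nil))))) (node (nat_lit 2) (nat_lit 0)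
  (nat_lit 4) (node (nat_lit 4) (nat_lit 30122) (nat_lit 5) (node (nat_lit 3) (nat_lit 30122)
  (nat_lit 6) (node (nat_lit 5) (nat_lit 30372) (nat_lit 7) nil (node (nat_lit 4) (nat_lit 30372)
  (nat_lit 7) (node (nat_lit 7) (nat_lit 30372) (nat_lit 8) (node (nat_lit 9) (nat_lit 30372)
  (nat_lit 9) (node (nat_lit 4) (nat_lit 30494) (nat_lit 10) nil nil) nil) (node (nat_lit 5)
  (nat_lit 30431) (nat_lit 8) nil nil)) nil)) (node (nat_lit 5) (nat_lit 30467) (nat_lit 6) (node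
  (nat_lit 3) (nat_lit 30467) (nat_lit 7) nil nil) nil)) (node (nat_lit 5) (nat_lit 30426)
  (nat_lit 5) (node (nat_lit 7) (nat_lit 30426) (nat_lit 6) (node (nat_lit 4) (nat_lit 31088)
  (nat_lit 7) nil nil) (node (nat_lit 4) (nat_lit 31183) (nat_lit 6) nil (node (nat_lit 3)
  (nat_lit 30426) (nat_lit 6) (node (nat_lit 4) (nat_lit 30765) (nat_lit 7) (node (nat_lit 5)
  (nat_lit 30843) (nat_lit 8) nil nil) nil) nil))) (node (nat_lit 3) (nat_lit 25640) (nat_lit 5)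
  (node (nat_lit 4) (nat_lit 27821) (nat_lit 6) (node (nat_lit 5) (nat_lit 18032) (nat_lit 7) nil
  nil) (node (nat_lit 7) (nat_lit 26126) (nat_lit 6) (node (nat_lit 4) (nat_lit 27988) (nat_lit 7)
  nil nil) (node (nat_lit 5) (nat_lit 27907) (nat_lit 6) nil nil))) (node (nat_lit 0) (nat_lit
  29308) (nat_lit 5) nil (node (nat_lit 2) (nat_lit 25528) (nat_lit 5) (node (nat_lit 4) (nat_lit
  27876) (nat_lit 6) nil (node (nat_lit 7) (nat_lit 25873) (nat_lit 6) nil nil)) nil))))) (node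
  (nat_lit 3) (nat_lit 0) (nat_lit 4) (node (nat_lit 5) (nat_lit 0) (nat_lit 5) (node (nat_lit 7)
  (nat_lit 29732) (nat_lit 6) (node (nat_lit 4) (nat_lit 31567) (nat_lit 7) (node (nat_lit 5)
  (nat_lit 31803) (nat_lit 8) (node (nat_lit 4) (nat_lit 31978) (nat_lit 9) nil nil) nil) nil)
  (node (nat_lit 0) (nat_lit 31316) (nat_lit 6) nil (node (nat_lit 2) (nat_lit 30179) (nat_lit 6)
  (node (nat_lit 7) (nat_lit 30179) (nat_lit 7) (node (nat_lit 4) (nat_lit 30559) (nat_lit 8)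
  (node (nat_lit 5) (nat_lit 27580) (nat_lit 9) nil nil) nil) nil) (node (nat_lit 4) (nat_lit
  31264) (nat_lit 6) (node (nat_lit 5) (nat_lit 31567) (nat_lit 7) (node (nat_lit 7) (nat_lit
  31567) (nat_lit 8) (node (nat_lit 4) (nat_lit 31988) (nat_lit 9) (node (nat_lit 5) (nat_lit
  32131) (nat_lit 10) nil nil) nil) nil) nil) nil)))) (node (nat_lit 0) (nat_lit 30171) (nat_lit
  5) (node (nat_lit 4) (nat_lit 30395) (nat_lit 6) (node (nat_lit 7) (nat_lit 30395) (nat_lit 7)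
  (node (nat_lit 4) (nat_lit 30588) (nat_lit 8) nil nil) nil) (node (nat_lit 7) (nat_lit 30171)
  (nat_lit 6) (node (nat_lit 4) (nat_lit 30509) (nat_lit 7) (node (nat_lit 5) (nat_lit 30588)
  (nat_lit 8) nil nil) nil) nil)) (node (nat_lit 2) (nat_lit 25668) (nat_lit 5) (node (nat_lit 4)
  (nat_lit 28088) (nat_lit 6) (node (nat_lit 7) (nat_lit 28088) (nat_lit 7) (node (nat_lit 4)
  (nat_lit 28228) (nat_lit 8) nil nil) nil) (node (nat_lit 5) (nat_lit 28017) (nat_lit 6) (node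
  (nat_lit 7) (nat_lit 28017) (nat_lit 7) (node (nat_lit 4) (nat_lit 28209) (nat_lit 8) (node
  (nat_lit 5) (nat_lit 28259) (nat_lit 9) nil nil) nil) nil) (node (nat_lit 7) (nat_lit 25802)
  (nat_lit 6) (node (nat_lit 4) (nat_lit 27057) (nat_lit 7) (node (nat_lit 5) (nat_lit 17169)
  (nat_lit 8) nil nil) nil) nil))) (node (nat_lit 4) (nat_lit 29881) (nat_lit 5) nil nil))))
  nil))) (node (nat_lit 0) (nat_lit 0) (nat_lit 3) (node (nat_lit 3) (nat_lit 76589) (nat_lit 4)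
  (node (nat_lit 6) (nat_lit 78244) (nat_lit 5) (node (nat_lit 5) (nat_lit 78422) (nat_lit 6) nil
  nil) (node (nat_lit 5) (nat_lit 77287) (nat_lit 5) nil (node (nat_lit 4) (nat_lit 78244)
  (nat_lit 5) (node (nat_lit 5) (nat_lit 78422) (nat_lit 6) nil nil) nil))) (node (nat_lit 4)
  (nat_lit 79911) (nat_lit 4) (node (nat_lit 6) (nat_lit 79950) (nat_lit 5) (node (nat_lit 5)
  (nat_lit 79950) (nat_lit 6) (node (nat_lit 4) (nat_lit 79950) (nat_lit 7) nil nil) nil) (node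
  (nat_lit 5) (nat_lit 79950) (nat_lit 5) nil nil)) (node (nat_lit 5) (nat_lit 79575) (nat_lit 4)
  (node (nat_lit 3) (nat_lit 79950) (nat_lit 5) nil (node (nat_lit 4) (nat_lit 79950) (nat_lit 5)
  (node (nat_lit 5) (nat_lit 79950) (nat_lit 6) (node (nat_lit 6) (nat_lit 27890) (nat_lit 7) nil
  nil) nil) nil)) (node (nat_lit 0) (nat_lit 78752) (nat_lit 4) nil (node (nat_lit 2) (nat_lit
  76589) (nat_lit 4) (node (nat_lit 5) (nat_lit 78244) (nat_lit 5) nil nil) nil))))) (node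
  (nat_lit 2) (nat_lit 0) (nat_lit 3) (node (nat_lit 3) (nat_lit 67732) (nat_lit 4) (node (nat_lit
  6) (nat_lit 68855) (nat_lit 5) (node (nat_lit 5) (nat_lit 73365) (nat_lit 6) (node (nat_lit 7)
  (nat_lit 73365) (nat_lit 7) (node (nat_lit 5) (nat_lit 73519) (nat_lit 8) (node (nat_lit 6)
  (nat_lit 73519) (nat_lit 9) (node (nat_lit 7) (nat_lit 73519) (nat_lit 10) (node (nat_lit 6)
  (nat_lit 73519) (nat_lit 11) (node (nat_lit 4) (nat_lit 73638) (nat_lit 12) (node (nat_lit 7)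
  (nat_lit 73638) (nat_lit 13) nil nil) nil) nil) nil) nil) nil) (node (nat_lit 4) (nat_lit 73454)
  (nat_lit 7) (node (nat_lit 5) (nat_lit 73519) (nat_lit 8) (node (nat_lit 6) (nat_lit 62968)
  (nat_lit 9) (node (nat_lit 7) (nat_lit 48166) (nat_lit 10) nil nil) nil) nil) nil)) (node
  (nat_lit 4) (nat_lit 71425) (nat_lit 6) (node (nat_lit 7) (nat_lit 71425) (nat_lit 7) nil nil)
  nil)) (node (nat_lit 5) (nat_lit 73996) (nat_lit 5) (node (nat_lit 6) (nat_lit 73996) (nat_lit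
  6) (node (nat_lit 5) (nat_lit 74216) (nat_lit 7) nil nil) (node (nat_lit 4) (nat_lit 74128)
  (nat_lit 6) (node (nat_lit 5) (nat_lit 63779) (nat_lit 7) (node (nat_lit 6) (nat_lit 32532)
  (nat_lit 8) (node (nat_lit 4) (nat_lit 32949) (nat_lit 9) (node (nat_lit 7) (nat_lit 33266)
  (nat_lit 10) nil nil) nil) nil) nil) nil)) (node (nat_lit 4) (nat_lit 70564) (nat_lit 5) (node
  (nat_lit 5) (nat_lit 50751) (nat_lit 6) (node (nat_lit 6) (nat_lit 46156) (nat_lit 7) nil nil)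
  nil) nil))) (node (nat_lit 4) (nat_lit 70112) (nat_lit 4) (node (nat_lit 6) (nat_lit 74256)
  (nat_lit 5) (node (nat_lit 5) (nat_lit 74341) (nat_lit 6) (node (nat_lit 4) (nat_lit 74341)
  (nat_lit 7) (node (nat_lit 5) (nat_lit 74341) (nat_lit 8) (node (nat_lit 6) (nat_lit 74341)
  (nat_lit 9) (node (nat_lit 4) (nat_lit 63271) (nat_lit 10) (node (nat_lit 6) (nat_lit 28185)
  (nat_lit 11) nil nil) nil) nil) nil) nil) nil) (node (nat_lit 3) (nat_lit 74341) (nat_lit 5) nil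
  (node (nat_lit 5) (nat_lit 74290) (nat_lit 5) nil nil))) (node (nat_lit 5) (nat_lit 0) (nat_lit
  4) (node (nat_lit 3) (nat_lit 74341) (nat_lit 5) nil (node (nat_lit 4) (nat_lit 74267) (nat_lit
  5) (node (nat_lit 5) (nat_lit 63207) (nat_lit 6) (node (nat_lit 6) (nat_lit 28185) (nat_lit 7)
  nil nil) nil) (node (nat_lit 0) (nat_lit 74341) (nat_lit 5) nil (node (nat_lit 2) (nat_lit
  74341) (nat_lit 5) nil nil)))) (node (nat_lit 0) (nat_lit 73581) (nat_lit 4) (node (nat_lit 5)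
  (nat_lit 73803) (nat_lit 5) nil nil) (node (nat_lit 2) (nat_lit 67803) (nat_lit 4) (node
  (nat_lit 6) (nat_lit 68434) (nat_lit 5) nil (node (nat_lit 5) (nat_lit 70696) (nat_lit 5) (node
  (nat_lit 4) (nat_lit 70827) (nat_lit 6) (node (nat_lit 5) (nat_lit 67637) (nat_lit 7) nil nil)
  nil) (node (nat_lit 4) (nat_lit 72403) (nat_lit 5) nil nil))) nil))))) nil)))) (node (nat_lit 3)
  (nat_lit 0) (nat_lit 2) (node (nat_lit 1) (nat_lit 0) (nat_lit 3) (node (nat_lit 0) (nat_lit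
  76108) (nat_lit 4) (node (nat_lit 6) (nat_lit 77286) (nat_lit 5) (node (nat_lit 5) (nat_lit
  77286) (nat_lit 6) nil (node (nat_lit 4) (nat_lit 77427) (nat_lit 6) (node (nat_lit 5) (nat_lit
  77427) (nat_lit 7) nil nil) nil)) (node (nat_lit 5) (nat_lit 77086) (nat_lit 5) (node (nat_lit
  4) (nat_lit 77427) (nat_lit 6) nil nil) nil)) (node (nat_lit 2) (nat_lit 72502) (nat_lit 4)
  (node (nat_lit 6) (nat_lit 72978) (nat_lit 5) (node (nat_lit 5) (nat_lit 75557) (nat_lit 6)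
  (node (nat_lit 6) (nat_lit 72160) (nat_lit 7) nil nil) (node (nat_lit 4) (nat_lit 75984)
  (nat_lit 6) (node (nat_lit 5) (nat_lit 72823) (nat_lit 7) (node (nat_lit 6) (nat_lit 53694)
  (nat_lit 8) nil nil) nil) nil)) (node (nat_lit 5) (nat_lit 73185) (nat_lit 5) (node (nat_lit 6)
  (nat_lit 75984) (nat_lit 6) nil (node (nat_lit 4) (nat_lit 76267) (nat_lit 6) nil nil)) nil))
  (node (nat_lit 4) (nat_lit 0) (nat_lit 4) (node (nat_lit 5) (nat_lit 28101) (nat_lit 5) nil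
  (node (nat_lit 0) (nat_lit 56037) (nat_lit 5) (node (nat_lit 6) (nat_lit 57394) (nat_lit 6)
  (node (nat_lit 4) (nat_lit 58260) (nat_lit 7) (node (nat_lit 5) (nat_lit 58831) (nat_lit 8) nil
  nil) nil) (node (nat_lit 5) (nat_lit 57629) (nat_lit 6) nil nil)) (node (nat_lit 2) (nat_lit
  54624) (nat_lit 5) (node (nat_lit 6) (nat_lit 55981) (nat_lit 6) (node (nat_lit 4) (nat_lit
  57118) (nat_lit 7) (node (nat_lit 5) (nat_lit 48795) (nat_lit 8) nil nil) nil) (node (nat_lit 5)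
  (nat_lit 56849) (nat_lit 6) (node (nat_lit 4) (nat_lit 55009) (nat_lit 7) (node (nat_lit 5)
  (nat_lit 51020) (nat_lit 8) (node (nat_lit 6) (nat_lit 44871) (nat_lit 9) (node (nat_lit 4)
  (nat_lit 31021) (nat_lit 10) nil nil) nil) nil) nil) nil)) (node (nat_lit 6) (nat_lit 50781)
  (nat_lit 5) (node (nat_lit 5) (nat_lit 54647) (nat_lit 6) nil nil) nil)))) (node (nat_lit 5)
  (nat_lit 0) (nat_lit 4) (node (nat_lit 0) (nat_lit 76876) (nat_lit 5) (node (nat_lit 6) (nat_lit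
  77017) (nat_lit 6) nil nil) (node (nat_lit 2) (nat_lit 73858) (nat_lit 5) (node (nat_lit 6)
  (nat_lit 74711) (nat_lit 6) nil nil) (node (nat_lit 4) (nat_lit 72450) (nat_lit 5) (node
  (nat_lit 5) (nat_lit 73950) (nat_lit 6) (node (nat_lit 6) (nat_lit 47270) (nat_lit 7) nil nil)
  nil) nil))) nil)))) (node (nat_lit 4) (nat_lit 0) (nat_lit 3) (node (nat_lit 0) (nat_lit 47451)
  (nat_lit 4) nil (node (nat_lit 2) (nat_lit 47023) (nat_lit 4) nil (node (nat_lit 1) (nat_lit 0)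
  (nat_lit 4) (node (nat_lit 5) (nat_lit 38685) (nat_lit 5) (node (nat_lit 7) (nat_lit 40413)
  (nat_lit 6) (node (nat_lit 4) (nat_lit 47451) (nat_lit 7) (node (nat_lit 5) (nat_lit 47451)
  (nat_lit 8) (node (nat_lit 4) (nat_lit 46581) (nat_lit 9) (node (nat_lit 7) (nat_lit 26700)
  (nat_lit 10) nil nil) nil) nil) nil) nil) (node (nat_lit 0) (nat_lit 47451) (nat_lit 5) nil
  (node (nat_lit 2) (nat_lit 47451) (nat_lit 5) nil (node (nat_lit 4) (nat_lit 38688) (nat_lit 5)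
  (node (nat_lit 5) (nat_lit 40405) (nat_lit 6) nil nil) nil)))) nil))) (node (nat_lit 0) (nat_lit
  0) (nat_lit 3) (node (nat_lit 1) (nat_lit 79678) (nat_lit 4) (node (nat_lit 6) (nat_lit 79878)
  (nat_lit 5) (node (nat_lit 5) (nat_lit 79878) (nat_lit 6) nil nil) (node (nat_lit 5) (nat_lit
  79678) (nat_lit 5) nil (node (nat_lit 4) (nat_lit 79955) (nat_lit 5) (node (nat_lit 5) (nat_lit
  79955) (nat_lit 6) nil nil) nil))) (node (nat_lit 4) (nat_lit 79519) (nat_lit 4) (node (nat_lit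
  6) (nat_lit 79703) (nat_lit 5) (node (nat_lit 5) (nat_lit 79703) (nat_lit 6) (node (nat_lit 4)
  (nat_lit 79964) (nat_lit 7) (node (nat_lit 5) (nat_lit 79964) (nat_lit 8) (node (nat_lit 6)
  (nat_lit 80135) (nat_lit 9) (node (nat_lit 4) (nat_lit 80189) (nat_lit 10) (node (nat_lit 6)
  (nat_lit 50384) (nat_lit 11) nil nil) nil) nil) nil) nil) nil) (node (nat_lit 5) (nat_lit 79519)
  (nat_lit 5) nil nil)) (node (nat_lit 5) (nat_lit 76566) (nat_lit 4) (node (nat_lit 1) (nat_lit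
  79468) (nat_lit 5) nil (node (nat_lit 4) (nat_lit 79703) (nat_lit 5) (node (nat_lit 5) (nat_lit
  79703) (nat_lit 6) (node (nat_lit 6) (nat_lit 50733) (nat_lit 7) nil nil) nil) nil)) (node
  (nat_lit 0) (nat_lit 79678) (nat_lit 4) nil (node (nat_lit 2) (nat_lit 77019) (nat_lit 4) (node
  (nat_lit 5) (nat_lit 77019) (nat_lit 5) nil nil) nil))))) (node (nat_lit 2) (nat_lit 0) (nat_lit
  3) (node (nat_lit 1) (nat_lit 73878) (nat_lit 4) (node (nat_lit 6) (nat_lit 76861) (nat_lit 5)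
  (node (nat_lit 5) (nat_lit 76861) (nat_lit 6) (node (nat_lit 7) (nat_lit 76861) (nat_lit 7)
  (node (nat_lit 5) (nat_lit 76861) (nat_lit 8) nil nil) (node (nat_lit 4) (nat_lit 76861)
  (nat_lit 7) (node (nat_lit 5) (nat_lit 76520) (nat_lit 8) (node (nat_lit 6) (nat_lit 64805)
  (nat_lit 9) (node (nat_lit 7) (nat_lit 51340) (nat_lit 10) nil nil) nil) nil) nil)) nil) (node
  (nat_lit 5) (nat_lit 76861) (nat_lit 5) (node (nat_lit 6) (nat_lit 76861) (nat_lit 6) nil (node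
  (nat_lit 7) (nat_lit 76861) (nat_lit 6) nil (node (nat_lit 4) (nat_lit 76861) (nat_lit 6) (node
  (nat_lit 5) (nat_lit 76861) (nat_lit 7) (node (nat_lit 6) (nat_lit 76861) (nat_lit 8) nil nil)
  nil) nil))) (node (nat_lit 4) (nat_lit 67544) (nat_lit 5) (node (nat_lit 5) (nat_lit 52852)
  (nat_lit 6) (node (nat_lit 6) (nat_lit 26473) (nat_lit 7) nil nil) nil) nil))) (node (nat_lit 4)
  (nat_lit 67827) (nat_lit 4) (node (nat_lit 6) (nat_lit 70727) (nat_lit 5) (node (nat_lit 5)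
  (nat_lit 74014) (nat_lit 6) (node (nat_lit 4) (nat_lit 76861) (nat_lit 7) (node (nat_lit 5)
  (nat_lit 75957) (nat_lit 8) (node (nat_lit 6) (nat_lit 72598) (nat_lit 9) (node (nat_lit 4)
  (nat_lit 51340) (nat_lit 10) (node (nat_lit 6) (nat_lit 49482) (nat_lit 11) nil nil) nil) nil)
  nil) nil) nil) (node (nat_lit 1) (nat_lit 76861) (nat_lit 5) nil (node (nat_lit 5) (nat_lit
  70728) (nat_lit 5) (node (nat_lit 4) (nat_lit 74002) (nat_lit 6) (node (nat_lit 6) (nat_lit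
  76861) (nat_lit 7) (node (nat_lit 5) (nat_lit 76861) (nat_lit 8) (node (nat_lit 4) (nat_lit
  76861) (nat_lit 9) (node (nat_lit 5) (nat_lit 76861) (nat_lit 10) (node (nat_lit 6) (nat_lit
  73475) (nat_lit 11) (node (nat_lit 4) (nat_lit 67701) (nat_lit 12) (node (nat_lit 5) (nat_lit
  56886) (nat_lit 13) (node (nat_lit 4) (nat_lit 47713) (nat_lit 14) (node (nat_lit 6) (nat_lit
  46671) (nat_lit 15) nil nil) nil) nil) nil) nil) nil) nil) nil) nil) nil) nil))) (node (nat_lit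
  5) (nat_lit 0) (nat_lit 4) (node (nat_lit 1) (nat_lit 75296) (nat_lit 5) nil (node (nat_lit 4)
  (nat_lit 67225) (nat_lit 5) (node (nat_lit 5) (nat_lit 51340) (nat_lit 6) (node (nat_lit 6)
  (nat_lit 49482) (nat_lit 7) nil nil) nil) (node (nat_lit 0) (nat_lit 75296) (nat_lit 5) nil
  (node (nat_lit 2) (nat_lit 67077) (nat_lit 5) nil nil)))) (node (nat_lit 0) (nat_lit 76861)
  (nat_lit 4) (node (nat_lit 5) (nat_lit 76584) (nat_lit 5) nil nil) (node (nat_lit 2) (nat_lit 0)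
  (nat_lit 4) (node (nat_lit 6) (nat_lit 67254) (nat_lit 5) (node (nat_lit 5) (nat_lit 67255)
  (nat_lit 6) nil (node (nat_lit 4) (nat_lit 75282) (nat_lit 6) nil (node (nat_lit 1) (nat_lit
  72081) (nat_lit 6) nil nil))) (node (nat_lit 5) (nat_lit 67323) (nat_lit 5) (node (nat_lit 1)
  (nat_lit 72256) (nat_lit 6) nil (node (nat_lit 4) (nat_lit 72114) (nat_lit 6) (node (nat_lit 5)
  (nat_lit 64432) (nat_lit 7) (node (nat_lit 6) (nat_lit 46888) (nat_lit 8) nil nil) nil) (node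
  (nat_lit 7) (nat_lit 67323) (nat_lit 6) nil nil))) (node (nat_lit 4) (nat_lit 75922) (nat_lit 5)
  nil (node (nat_lit 1) (nat_lit 75089) (nat_lit 5) nil (node (nat_lit 0) (nat_lit 75922) (nat_lit
  5) nil nil))))) nil))))) nil)))) t457))

noncomputable def t459 : Tr :=
  (node (nat_lit 1) (nat_lit 0) (nat_lit 2) (node (nat_lit 1) (nat_lit 0) (nat_lit 3) (node
  (nat_lit 0) (nat_lit 73139) (nat_lit 4) (node (nat_lit 6) (nat_lit 77344) (nat_lit 5) (node
  (nat_lit 5) (nat_lit 78370) (nat_lit 6) nil (node (nat_lit 4) (nat_lit 78370) (nat_lit 6) (node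
  (nat_lit 5) (nat_lit 79105) (nat_lit 7) (node (nat_lit 6) (nat_lit 79589) (nat_lit 8) nil nil)
  nil) nil)) (node (nat_lit 5) (nat_lit 75631) (nat_lit 5) (node (nat_lit 6) (nat_lit 78217)
  (nat_lit 6) nil (node (nat_lit 4) (nat_lit 78051) (nat_lit 6) (node (nat_lit 5) (nat_lit 78785)
  (nat_lit 7) (node (nat_lit 6) (nat_lit 79269) (nat_lit 8) nil nil) nil) nil)) (node (nat_lit 4)
  (nat_lit 77194) (nat_lit 5) nil nil))) (node (nat_lit 2) (nat_lit 0) (nat_lit 4) (node (nat_lit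
  6) (nat_lit 76699) (nat_lit 5) (node (nat_lit 5) (nat_lit 77725) (nat_lit 6) nil (node (nat_lit
  4) (nat_lit 77725) (nat_lit 6) (node (nat_lit 5) (nat_lit 75493) (nat_lit 7) (node (nat_lit 6)
  (nat_lit 47768) (nat_lit 8) (node (nat_lit 7) (nat_lit 26826) (nat_lit 9) (node (nat_lit 5)
  (nat_lit 26443) (nat_lit 10) (node (nat_lit 4) (nat_lit 26191) (nat_lit 11) nil nil) (node
  (nat_lit 4) (nat_lit 27080) (nat_lit 10) (node (nat_lit 6) (nat_lit 27304) (nat_lit 11) nil nil)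
  nil)) nil) nil) nil) nil)) (node (nat_lit 5) (nat_lit 73462) (nat_lit 5) (node (nat_lit 6)
  (nat_lit 77055) (nat_lit 6) nil (node (nat_lit 4) (nat_lit 76563) (nat_lit 6) (node (nat_lit 5)
  (nat_lit 61790) (nat_lit 7) (node (nat_lit 6) (nat_lit 50635) (nat_lit 8) (node (nat_lit 5)
  (nat_lit 50635) (nat_lit 9) nil (node (nat_lit 7) (nat_lit 47115) (nat_lit 9) nil nil)) nil)
  nil) nil)) (node (nat_lit 4) (nat_lit 76863) (nat_lit 5) (node (nat_lit 6) (nat_lit 78104)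
  (nat_lit 6) (node (nat_lit 4) (nat_lit 77829) (nat_lit 7) nil nil) nil) (node (nat_lit 0)
  (nat_lit 76064) (nat_lit 5) nil (node (nat_lit 2) (nat_lit 73392) (nat_lit 5) nil nil))))) (node
  (nat_lit 4) (nat_lit 0) (nat_lit 4) (node (nat_lit 5) (nat_lit 0) (nat_lit 5) (node (nat_lit 4)
  (nat_lit 25732) (nat_lit 6) (node (nat_lit 6) (nat_lit 27583) (nat_lit 7) (node (nat_lit 5)
  (nat_lit 28603) (nat_lit 8) nil nil) nil) (node (nat_lit 0) (nat_lit 27455) (nat_lit 6) (node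
  (nat_lit 5) (nat_lit 28640) (nat_lit 7) (node (nat_lit 4) (nat_lit 29918) (nat_lit 8) (node
  (nat_lit 5) (nat_lit 30260) (nat_lit 9) nil nil) nil) nil) (node (nat_lit 2) (nat_lit 25206)
  (nat_lit 6) (node (nat_lit 4) (nat_lit 27676) (nat_lit 7) nil (node (nat_lit 6) (nat_lit 27969)
  (nat_lit 7) nil (node (nat_lit 5) (nat_lit 26408) (nat_lit 7) (node (nat_lit 4) (nat_lit 28344)
  (nat_lit 8) (node (nat_lit 5) (nat_lit 25902) (nat_lit 9) (node (nat_lit 6) (nat_lit 16099)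
  (nat_lit 10) nil nil) nil) nil) nil))) nil))) (node (nat_lit 0) (nat_lit 77429) (nat_lit 5) nil
  (node (nat_lit 2) (nat_lit 75723) (nat_lit 5) nil (node (nat_lit 6) (nat_lit 74261) (nat_lit 5)
  (node (nat_lit 5) (nat_lit 75741) (nat_lit 6) (node (nat_lit 4) (nat_lit 78027) (nat_lit 7)
  (node (nat_lit 5) (nat_lit 79047) (nat_lit 8) (node (nat_lit 6) (nat_lit 79834) (nat_lit 9) nil
  nil) nil) nil) nil) nil)))) (node (nat_lit 5) (nat_lit 0) (nat_lit 4) (node (nat_lit 0) (nat_lit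
  76746) (nat_lit 5) nil (node (nat_lit 2) (nat_lit 73357) (nat_lit 5) (node (nat_lit 6) (nat_lit
  77174) (nat_lit 6) nil nil) (node (nat_lit 4) (nat_lit 74067) (nat_lit 5) (node (nat_lit 5)
  (nat_lit 75591) (nat_lit 6) (node (nat_lit 6) (nat_lit 44848) (nat_lit 7) nil nil) (node
  (nat_lit 6) (nat_lit 76729) (nat_lit 6) nil nil)) nil))) nil)))) (node (nat_lit 4) (nat_lit 0)
  (nat_lit 3) (node (nat_lit 0) (nat_lit 44640) (nat_lit 4) (node (nat_lit 4) (nat_lit 44987)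
  (nat_lit 5) nil nil) (node (nat_lit 2) (nat_lit 39823) (nat_lit 4) (node (nat_lit 4) (nat_lit
  43927) (nat_lit 5) (node (nat_lit 1) (nat_lit 44582) (nat_lit 6) nil nil) (node (nat_lit 5)
  (nat_lit 45587) (nat_lit 5) nil (node (nat_lit 1) (nat_lit 43908) (nat_lit 5) nil nil))) (node
  (nat_lit 1) (nat_lit 0) (nat_lit 4) (node (nat_lit 5) (nat_lit 38685) (nat_lit 5) nil (node
  (nat_lit 0) (nat_lit 44239) (nat_lit 5) nil (node (nat_lit 2) (nat_lit 44782) (nat_lit 5) nil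
  (node (nat_lit 4) (nat_lit 37527) (nat_lit 5) (node (nat_lit 5) (nat_lit 23243) (nat_lit 6) nil
  nil) nil)))) nil))) (node (nat_lit 0) (nat_lit 0) (nat_lit 3) (node (nat_lit 1) (nat_lit 77628)
  (nat_lit 4) (node (nat_lit 6) (nat_lit 81833) (nat_lit 5) (node (nat_lit 5) (nat_lit 82859)
  (nat_lit 6) nil nil) (node (nat_lit 5) (nat_lit 80120) (nat_lit 5) nil (node (nat_lit 4)
  (nat_lit 81683) (nat_lit 5) (node (nat_lit 5) (nat_lit 82709) (nat_lit 6) nil nil) nil))) (node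
  (nat_lit 4) (nat_lit 74871) (nat_lit 4) (node (nat_lit 6) (nat_lit 78750) (nat_lit 5) (node
  (nat_lit 5) (nat_lit 80229) (nat_lit 6) (node (nat_lit 4) (nat_lit 82516) (nat_lit 7) (node
  (nat_lit 5) (nat_lit 83536) (nat_lit 8) (node (nat_lit 6) (nat_lit 84322) (nat_lit 9) (node
  (nat_lit 4) (nat_lit 84895) (nat_lit 10) (node (nat_lit 6) (nat_lit 48666) (nat_lit 11) nil nil)
  nil) nil) nil) nil) nil) (node (nat_lit 5) (nat_lit 77145) (nat_lit 5) nil nil)) (node (nat_lit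
  5) (nat_lit 71770) (nat_lit 4) (node (nat_lit 1) (nat_lit 81235) (nat_lit 5) nil (node (nat_lit
  4) (nat_lit 78556) (nat_lit 5) (node (nat_lit 5) (nat_lit 80080) (nat_lit 6) (node (nat_lit 6)
  (nat_lit 48666) (nat_lit 7) nil nil) nil) nil)) (node (nat_lit 0) (nat_lit 77628) (nat_lit 4)
  nil (node (nat_lit 2) (nat_lit 74606) (nat_lit 4) (node (nat_lit 5) (nat_lit 77951) (nat_lit 5)
  nil nil) nil))))) (node (nat_lit 2) (nat_lit 0) (nat_lit 3) (node (nat_lit 1) (nat_lit 72344)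
  (nat_lit 4) (node (nat_lit 6) (nat_lit 77019) (nat_lit 5) (node (nat_lit 5) (nat_lit 79911)
  (nat_lit 6) (node (nat_lit 7) (nat_lit 81917) (nat_lit 7) nil nil) (node (nat_lit 4) (nat_lit
  81989) (nat_lit 6) nil nil)) (node (nat_lit 5) (nat_lit 78886) (nat_lit 5) nil (node (nat_lit 4)
  (nat_lit 71933) (nat_lit 5) (node (nat_lit 5) (nat_lit 50482) (nat_lit 6) (node (nat_lit 6)
  (nat_lit 27892) (nat_lit 7) nil nil) nil) nil))) (node (nat_lit 4) (nat_lit 69355) (nat_lit 4)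
  (node (nat_lit 6) (nat_lit 73149) (nat_lit 5) (node (nat_lit 5) (nat_lit 76700) (nat_lit 6)
  (node (nat_lit 4) (nat_lit 81368) (nat_lit 7) (node (nat_lit 5) (nat_lit 79165) (nat_lit 8)
  (node (nat_lit 6) (nat_lit 78158) (nat_lit 9) (node (nat_lit 4) (nat_lit 54548) (nat_lit 10)
  (node (nat_lit 6) (nat_lit 45546) (nat_lit 11) nil nil) nil) nil) nil) nil) (node (nat_lit 1)
  (nat_lit 77666) (nat_lit 6) nil nil)) (node (nat_lit 1) (nat_lit 80255) (nat_lit 5) nil (node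
  (nat_lit 5) (nat_lit 73562) (nat_lit 5) (node (nat_lit 4) (nat_lit 76369) (nat_lit 6) nil (node
  (nat_lit 1) (nat_lit 81575) (nat_lit 6) nil nil)) nil))) (node (nat_lit 5) (nat_lit 0) (nat_lit
  4) (node (nat_lit 1) (nat_lit 78700) (nat_lit 5) nil (node (nat_lit 4) (nat_lit 68166) (nat_lit
  5) (node (nat_lit 5) (nat_lit 54548) (nat_lit 6) (node (nat_lit 6) (nat_lit 46581) (nat_lit 7)
  nil nil) nil) (node (nat_lit 0) (nat_lit 78700) (nat_lit 5) nil (node (nat_lit 2) (nat_lit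
  69614) (nat_lit 5) nil nil)))) (node (nat_lit 0) (nat_lit 76313) (nat_lit 4) (node (nat_lit 5)
  (nat_lit 78886) (nat_lit 5) (node (nat_lit 4) (nat_lit 81756) (nat_lit 6) (node (nat_lit 5)
  (nat_lit 82673) (nat_lit 7) nil nil) nil) nil) (node (nat_lit 2) (nat_lit 67130) (nat_lit 4)
  (node (nat_lit 6) (nat_lit 69742) (nat_lit 5) (node (nat_lit 5) (nat_lit 70769) (nat_lit 6) nil
  nil) (node (nat_lit 5) (nat_lit 69749) (nat_lit 5) (node (nat_lit 1) (nat_lit 79894) (nat_lit 6)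
  nil (node (nat_lit 4) (nat_lit 74097) (nat_lit 6) (node (nat_lit 5) (nat_lit 65073) (nat_lit 7)
  (node (nat_lit 6) (nat_lit 49771) (nat_lit 8) (node (nat_lit 7) (nat_lit 40535) (nat_lit 9) nil
  nil) nil) nil) nil)) (node (nat_lit 4) (nat_lit 80513) (nat_lit 5) nil (node (nat_lit 1)
  (nat_lit 76406) (nat_lit 5) nil nil)))) nil))))) nil)))) (node (nat_lit 0) (nat_lit 0) (nat_lit
  2) (node (nat_lit 1) (nat_lit 0) (nat_lit 3) (node (nat_lit 5) (nat_lit 92315) (nat_lit 4) (node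
  (nat_lit 1) (nat_lit 95889) (nat_lit 5) nil (node (nat_lit 4) (nat_lit 94214) (nat_lit 5) nil
  nil)) (node (nat_lit 1) (nat_lit 93949) (nat_lit 4) (node (nat_lit 4) (nat_lit 95587) (nat_lit
  5) nil nil) (node (nat_lit 4) (nat_lit 90693) (nat_lit 4) (node (nat_lit 5) (nat_lit 47096)
  (nat_lit 5) nil nil) (node (nat_lit 0) (nat_lit 95587) (nat_lit 4) nil (node (nat_lit 2)
  (nat_lit 93439) (nat_lit 4) nil nil))))) (node (nat_lit 4) (nat_lit 0) (nat_lit 3) (node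
  (nat_lit 1) (nat_lit 80497) (nat_lit 4) (node (nat_lit 5) (nat_lit 84847) (nat_lit 5) nil (node
  (nat_lit 4) (nat_lit 83688) (nat_lit 5) nil nil)) (node (nat_lit 0) (nat_lit 90790) (nat_lit 4)
  nil (node (nat_lit 2) (nat_lit 85972) (nat_lit 4) nil nil))) (node (nat_lit 0) (nat_lit 0)
  (nat_lit 3) (node (nat_lit 1) (nat_lit 96564) (nat_lit 4) nil (node (nat_lit 5) (nat_lit 96564)
  (nat_lit 4) nil (node (nat_lit 0) (nat_lit 96564) (nat_lit 4) nil (node (nat_lit 2) (nat_lit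
  90100) (nat_lit 4) nil (node (nat_lit 4) (nat_lit 95772) (nat_lit 4) (node (nat_lit 5) (nat_lit
  97167) (nat_lit 5) nil nil) nil))))) (node (nat_lit 2) (nat_lit 0) (nat_lit 3) (node (nat_lit 1)
  (nat_lit 95051) (nat_lit 4) (node (nat_lit 4) (nat_lit 86018) (nat_lit 5) (node (nat_lit 5)
  (nat_lit 66763) (nat_lit 6) nil nil) nil) (node (nat_lit 5) (nat_lit 96205) (nat_lit 4) nil
  (node (nat_lit 0) (nat_lit 95096) (nat_lit 4) nil (node (nat_lit 4) (nat_lit 94501) (nat_lit 4)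
  (node (nat_lit 5) (nat_lit 96648) (nat_lit 5) nil nil) (node (nat_lit 2) (nat_lit 94501)
  (nat_lit 4) nil nil))))) nil)))) (node (nat_lit 2) (nat_lit 0) (nat_lit 2) (node (nat_lit 1)
  (nat_lit 0) (nat_lit 3) (node (nat_lit 5) (nat_lit 0) (nat_lit 4) (node (nat_lit 1) (nat_lit
  78529) (nat_lit 5) (node (nat_lit 6) (nat_lit 79787) (nat_lit 6) (node (nat_lit 8) (nat_lit
  80704) (nat_lit 7) nil nil) (node (nat_lit 4) (nat_lit 79787) (nat_lit 6) (node (nat_lit 5)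
  (nat_lit 76342) (nat_lit 7) (node (nat_lit 6) (nat_lit 58360) (nat_lit 8) (node (nat_lit 5)
  (nat_lit 37786) (nat_lit 9) nil nil) nil) nil) nil)) (node (nat_lit 4) (nat_lit 0) (nat_lit 5)
  (node (nat_lit 6) (nat_lit 71803) (nat_lit 6) (node (nat_lit 4) (nat_lit 78878) (nat_lit 7)
  (node (nat_lit 5) (nat_lit 81155) (nat_lit 8) (node (nat_lit 6) (nat_lit 78346) (nat_lit 9)
  (node (nat_lit 5) (nat_lit 74433) (nat_lit 10) (node (nat_lit 4) (nat_lit 37284) (nat_lit 11)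
  nil nil) nil) nil) nil) (node (nat_lit 1) (nat_lit 80704) (nat_lit 7) nil nil)) (node (nat_lit
  5) (nat_lit 71773) (nat_lit 6) nil (node (nat_lit 1) (nat_lit 79787) (nat_lit 6) (node (nat_lit
  5) (nat_lit 80704) (nat_lit 7) (node (nat_lit 6) (nat_lit 81307) (nat_lit 8) nil nil) nil) (node
  (nat_lit 0) (nat_lit 79787) (nat_lit 6) nil (node (nat_lit 2) (nat_lit 78842) (nat_lit 6) nil
  nil))))) (node (nat_lit 0) (nat_lit 78529) (nat_lit 5) (node (nat_lit 6) (nat_lit 79787)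
  (nat_lit 6) nil nil) (node (nat_lit 2) (nat_lit 78529) (nat_lit 5) (node (nat_lit 6) (nat_lit
  79787) (nat_lit 6) (node (nat_lit 4) (nat_lit 77883) (nat_lit 7) nil nil) nil) nil)))) (node
  (nat_lit 1) (nat_lit 0) (nat_lit 4) (node (nat_lit 4) (nat_lit 78529) (nat_lit 5) (node (nat_lit
  5) (nat_lit 79787) (nat_lit 6) nil (node (nat_lit 7) (nat_lit 79787) (nat_lit 6) nil (node
  (nat_lit 6) (nat_lit 79787) (nat_lit 6) nil nil))) (node (nat_lit 5) (nat_lit 78529) (nat_lit 5)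
  (node (nat_lit 7) (nat_lit 79787) (nat_lit 6) (node (nat_lit 6) (nat_lit 80704) (nat_lit 7) nil
  (node (nat_lit 4) (nat_lit 80704) (nat_lit 7) (node (nat_lit 5) (nat_lit 79610) (nat_lit 8)
  (node (nat_lit 6) (nat_lit 75948) (nat_lit 9) (node (nat_lit 7) (nat_lit 58876) (nat_lit 10) nil
  nil) nil) nil) nil)) (node (nat_lit 6) (nat_lit 79787) (nat_lit 6) nil (node (nat_lit 4)
  (nat_lit 79787) (nat_lit 6) (node (nat_lit 7) (nat_lit 80704) (nat_lit 7) (node (nat_lit 4)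
  (nat_lit 81307) (nat_lit 8) (node (nat_lit 5) (nat_lit 77750) (nat_lit 9) nil nil) nil) nil)
  nil))) (node (nat_lit 6) (nat_lit 78529) (nat_lit 5) (node (nat_lit 4) (nat_lit 79787) (nat_lit
  6) (node (nat_lit 5) (nat_lit 78092) (nat_lit 7) (node (nat_lit 6) (nat_lit 78695) (nat_lit 8)
  (node (nat_lit 7) (nat_lit 35080) (nat_lit 9) nil nil) nil) nil) nil) (node (nat_lit 0) (nat_lit
  78529) (nat_lit 5) nil (node (nat_lit 2) (nat_lit 78529) (nat_lit 5) nil nil))))) (node (nat_lit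
  4) (nat_lit 0) (nat_lit 4) (node (nat_lit 1) (nat_lit 65224) (nat_lit 5) (node (nat_lit 4)
  (nat_lit 64980) (nat_lit 6) nil (node (nat_lit 6) (nat_lit 66739) (nat_lit 6) nil nil)) (node
  (nat_lit 5) (nat_lit 34497) (nat_lit 5) (node (nat_lit 4) (nat_lit 35755) (nat_lit 6) nil nil)
  (node (nat_lit 6) (nat_lit 54540) (nat_lit 5) (node (nat_lit 5) (nat_lit 63488) (nat_lit 6) nil
  (node (nat_lit 1) (nat_lit 65798) (nat_lit 6) nil nil)) (node (nat_lit 0) (nat_lit 65224)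
  (nat_lit 5) nil (node (nat_lit 2) (nat_lit 59254) (nat_lit 5) nil nil))))) (node (nat_lit 0)
  (nat_lit 76501) (nat_lit 4) (node (nat_lit 6) (nat_lit 78529) (nat_lit 5) nil (node (nat_lit 1)
  (nat_lit 78529) (nat_lit 5) nil (node (nat_lit 4) (nat_lit 78529) (nat_lit 5) (node (nat_lit 6)
  (nat_lit 79787) (nat_lit 6) (node (nat_lit 4) (nat_lit 77682) (nat_lit 7) (node (nat_lit 5)
  (nat_lit 70784) (nat_lit 8) (node (nat_lit 6) (nat_lit 64036) (nat_lit 9) (node (nat_lit 7)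
  (nat_lit 54666) (nat_lit 10) (node (nat_lit 4) (nat_lit 32713) (nat_lit 11) nil nil) nil) nil)
  nil) nil) nil) nil))) (node (nat_lit 2) (nat_lit 73405) (nat_lit 4) (node (nat_lit 5) (nat_lit
  78529) (nat_lit 5) nil (node (nat_lit 1) (nat_lit 78529) (nat_lit 5) nil (node (nat_lit 6)
  (nat_lit 74902) (nat_lit 5) nil (node (nat_lit 4) (nat_lit 78529) (nat_lit 5) (node (nat_lit 6)
  (nat_lit 79787) (nat_lit 6) (node (nat_lit 4) (nat_lit 78092) (nat_lit 7) nil nil) nil) nil))))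
  nil))))) (node (nat_lit 4) (nat_lit 0) (nat_lit 3) (node (nat_lit 1) (nat_lit 0) (nat_lit 4)
  (node (nat_lit 1) (nat_lit 76658) (nat_lit 5) (node (nat_lit 7) (nat_lit 77953) (nat_lit 6) nil
  (node (nat_lit 4) (nat_lit 77953) (nat_lit 6) (node (nat_lit 5) (nat_lit 76355) (nat_lit 7)
  (node (nat_lit 4) (nat_lit 75080) (nat_lit 8) (node (nat_lit 7) (nat_lit 33152) (nat_lit 9) nil
  nil) nil) nil) nil)) (node (nat_lit 5) (nat_lit 61259) (nat_lit 5) (node (nat_lit 7) (nat_lit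
  63358) (nat_lit 6) (node (nat_lit 4) (nat_lit 71161) (nat_lit 7) (node (nat_lit 5) (nat_lit
  71601) (nat_lit 8) (node (nat_lit 4) (nat_lit 70617) (nat_lit 9) (node (nat_lit 7) (nat_lit
  59119) (nat_lit 10) (node (nat_lit 5) (nat_lit 34201) (nat_lit 11) nil nil) nil) nil) nil) nil)
  (node (nat_lit 4) (nat_lit 63365) (nat_lit 6) (node (nat_lit 5) (nat_lit 70649) (nat_lit 7) nil
  (node (nat_lit 1) (nat_lit 72424) (nat_lit 7) nil nil)) (node (nat_lit 1) (nat_lit 74206)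
  (nat_lit 6) nil nil))) (node (nat_lit 4) (nat_lit 61261) (nat_lit 5) (node (nat_lit 5) (nat_lit
  63353) (nat_lit 6) (node (nat_lit 4) (nat_lit 36912) (nat_lit 7) nil nil) (node (nat_lit 1)
  (nat_lit 72785) (nat_lit 6) nil nil)) (node (nat_lit 0) (nat_lit 76658) (nat_lit 5) nil (node
  (nat_lit 2) (nat_lit 76658) (nat_lit 5) nil nil))))) (node (nat_lit 0) (nat_lit 72644) (nat_lit
  4) (node (nat_lit 1) (nat_lit 76658) (nat_lit 5) nil nil) (node (nat_lit 2) (nat_lit 0) (nat_lit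
  4) (node (nat_lit 5) (nat_lit 76658) (nat_lit 5) nil (node (nat_lit 1) (nat_lit 76658) (nat_lit
  5) (node (nat_lit 4) (nat_lit 74784) (nat_lit 6) (node (nat_lit 5) (nat_lit 69659) (nat_lit 7)
  (node (nat_lit 4) (nat_lit 41876) (nat_lit 8) nil nil) nil) nil) (node (nat_lit 4) (nat_lit
  76658) (nat_lit 5) nil (node (nat_lit 0) (nat_lit 76658) (nat_lit 5) nil nil)))) nil))) (node
  (nat_lit 0) (nat_lit 0) (nat_lit 3) (node (nat_lit 1) (nat_lit 82871) (nat_lit 4) (node (nat_lit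
  4) (nat_lit 84900) (nat_lit 5) (node (nat_lit 5) (nat_lit 86158) (nat_lit 6) nil nil) nil) (node
  (nat_lit 5) (nat_lit 82871) (nat_lit 4) nil (node (nat_lit 0) (nat_lit 82871) (nat_lit 4) nil
  (node (nat_lit 4) (nat_lit 82871) (nat_lit 4) (node (nat_lit 5) (nat_lit 84900) (nat_lit 5) nil
  nil) (node (nat_lit 2) (nat_lit 82871) (nat_lit 4) nil nil))))) (node (nat_lit 2) (nat_lit 0)
  (nat_lit 3) (node (nat_lit 1) (nat_lit 77470) (nat_lit 4) (node (nat_lit 5) (nat_lit 81334)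
  (nat_lit 5) nil (node (nat_lit 1) (nat_lit 82214) (nat_lit 5) nil (node (nat_lit 4) (nat_lit
  70606) (nat_lit 5) (node (nat_lit 5) (nat_lit 48703) (nat_lit 6) nil nil) nil))) (node (nat_lit
  0) (nat_lit 81172) (nat_lit 4) nil (node (nat_lit 5) (nat_lit 75759) (nat_lit 4) (node (nat_lit
  0) (nat_lit 83200) (nat_lit 5) nil (node (nat_lit 4) (nat_lit 80195) (nat_lit 5) nil nil)) (node
  (nat_lit 4) (nat_lit 78526) (nat_lit 4) (node (nat_lit 1) (nat_lit 83200) (nat_lit 5) nil (node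
  (nat_lit 5) (nat_lit 79727) (nat_lit 5) nil (node (nat_lit 0) (nat_lit 83200) (nat_lit 5) nil
  nil))) nil)))) nil)))) nil)))

noncomputable def c11 : Tr :=
  (node (nat_lit 1) (nat_lit 0) (nat_lit 1) t458 (node (nat_lit 3) (nat_lit 0) (nat_lit 1) t459
  nil))

noncomputable def t460 : Tr :=
  (node (nat_lit 4) (nat_lit 0) (nat_lit 4) (node (nat_lit 6) (nat_lit 0) (nat_lit 5) (node
  (nat_lit 5) (nat_lit 0) (nat_lit 6) (node (nat_lit 4) (nat_lit 0) (nat_lit 7) (node (nat_lit 5)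
  (nat_lit 0) (nat_lit 8) (node (nat_lit 0) (nat_lit 0) (nat_lit 9) (node (nat_lit 5) (nat_lit 0)
  (nat_lit 10) (node (nat_lit 6) (nat_lit 125267) (nat_lit 11) (node (nat_lit 5) (nat_lit 132179)
  (nat_lit 12) (node (nat_lit 4) (nat_lit 132866) (nat_lit 13) nil nil) (node (nat_lit 4) (nat_lit
  130646) (nat_lit 12) (node (nat_lit 5) (nat_lit 133156) (nat_lit 13) nil (node (nat_lit 6)
  (nat_lit 130866) (nat_lit 13) nil nil)) (node (nat_lit 12) (nat_lit 132959) (nat_lit 12) nil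
  (node (nat_lit 0) (nat_lit 132959) (nat_lit 12) nil nil)))) (node (nat_lit 4) (nat_lit 125865)
  (nat_lit 11) (node (nat_lit 6) (nat_lit 133463) (nat_lit 12) (node (nat_lit 5) (nat_lit 132411)
  (nat_lit 13) nil (node (nat_lit 4) (nat_lit 135974) (nat_lit 13) nil nil)) (node (nat_lit 5)
  (nat_lit 128144) (nat_lit 12) (node (nat_lit 6) (nat_lit 128364) (nat_lit 13) nil nil) (node
  (nat_lit 12) (nat_lit 133557) (nat_lit 12) nil (node (nat_lit 0) (nat_lit 133557) (nat_lit 12)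
  nil nil)))) (node (nat_lit 0) (nat_lit 132589) (nat_lit 11) nil nil))) (node (nat_lit 4)
  (nat_lit 121096) (nat_lit 10) (node (nat_lit 5) (nat_lit 125675) (nat_lit 11) (node (nat_lit 4)
  (nat_lit 128261) (nat_lit 12) nil nil) (node (nat_lit 12) (nat_lit 132924) (nat_lit 11) nil
  nil)) (node (nat_lit 6) (nat_lit 123635) (nat_lit 10) (node (nat_lit 5) (nat_lit 126852)
  (nat_lit 11) (node (nat_lit 6) (nat_lit 130072) (nat_lit 12) nil nil) (node (nat_lit 12)
  (nat_lit 133932) (nat_lit 11) nil nil)) (node (nat_lit 0) (nat_lit 128117) (nat_lit 10) (node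
  (nat_lit 5) (nat_lit 128117) (nat_lit 11) nil nil) nil)))) (node (nat_lit 6) (nat_lit 0)
  (nat_lit 9) (node (nat_lit 0) (nat_lit 94246) (nat_lit 10) (node (nat_lit 5) (nat_lit 94559)
  (nat_lit 11) (node (nat_lit 6) (nat_lit 97469) (nat_lit 12) (node (nat_lit 5) (nat_lit 100181)
  (nat_lit 13) (node (nat_lit 4) (nat_lit 100042) (nat_lit 14) nil (node (nat_lit 13) (nat_lit
  104866) (nat_lit 14) nil nil)) (node (nat_lit 4) (nat_lit 99956) (nat_lit 13) nil (node (nat_lit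
  0) (nat_lit 103470) (nat_lit 13) nil nil))) nil) (node (nat_lit 6) (nat_lit 94246) (nat_lit 11)
  nil nil)) nil) nil)) (node (nat_lit 0) (nat_lit 0) (nat_lit 8) (node (nat_lit 6) (nat_lit 0)
  (nat_lit 9) (node (nat_lit 4) (nat_lit 142290) (nat_lit 10) (node (nat_lit 6) (nat_lit 146286)
  (nat_lit 11) (node (nat_lit 5) (nat_lit 148460) (nat_lit 12) nil nil) (node (nat_lit 5) (nat_lit
  143015) (nat_lit 11) nil nil)) (node (nat_lit 5) (nat_lit 141433) (nat_lit 10) (node (nat_lit 6)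
  (nat_lit 146081) (nat_lit 11) nil (node (nat_lit 4) (nat_lit 146176) (nat_lit 11) (node (nat_lit
  6) (nat_lit 142727) (nat_lit 12) nil nil) nil)) (node (nat_lit 11) (nat_lit 146560) (nat_lit 10)
  nil (node (nat_lit 0) (nat_lit 140706) (nat_lit 10) nil nil)))) (node (nat_lit 5) (nat_lit 0)
  (nat_lit 9) (node (nat_lit 6) (nat_lit 143205) (nat_lit 10) (node (nat_lit 5) (nat_lit 148209)
  (nat_lit 11) (node (nat_lit 4) (nat_lit 146809) (nat_lit 12) nil nil) (node (nat_lit 4) (nat_lit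
  146298) (nat_lit 11) nil nil)) (node (nat_lit 4) (nat_lit 143446) (nat_lit 10) (node (nat_lit 5)
  (nat_lit 148070) (nat_lit 11) (node (nat_lit 6) (nat_lit 146797) (nat_lit 12) nil nil) (node
  (nat_lit 6) (nat_lit 147443) (nat_lit 11) nil nil)) (node (nat_lit 11) (nat_lit 147148) (nat_lit
  10) nil (node (nat_lit 0) (nat_lit 141295) (nat_lit 10) nil nil)))) (node (nat_lit 4) (nat_lit
  0) (nat_lit 9) (node (nat_lit 5) (nat_lit 141807) (nat_lit 10) (node (nat_lit 4) (nat_lit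
  143193) (nat_lit 11) nil (node (nat_lit 6) (nat_lit 141708) (nat_lit 11) nil nil)) (node
  (nat_lit 6) (nat_lit 141532) (nat_lit 10) (node (nat_lit 4) (nat_lit 144731) (nat_lit 11) nil
  (node (nat_lit 5) (nat_lit 144731) (nat_lit 11) nil nil)) (node (nat_lit 0) (nat_lit 141184)
  (nat_lit 10) nil nil))) (node (nat_lit 0) (nat_lit 144048) (nat_lit 9) nil nil)))) (node
  (nat_lit 6) (nat_lit 0) (nat_lit 8) (node (nat_lit 0) (nat_lit 0) (nat_lit 9) (node (nat_lit 6)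
  (nat_lit 0) (nat_lit 10) (node (nat_lit 4) (nat_lit 138685) (nat_lit 11) (node (nat_lit 6)
  (nat_lit 140181) (nat_lit 12) nil (node (nat_lit 12) (nat_lit 146377) (nat_lit 12) nil (node
  (nat_lit 5) (nat_lit 141906) (nat_lit 12) nil nil))) (node (nat_lit 5) (nat_lit 140395) (nat_lit
  11) (node (nat_lit 4) (nat_lit 142240) (nat_lit 12) nil (node (nat_lit 6) (nat_lit 145617)
  (nat_lit 12) nil nil)) (node (nat_lit 0) (nat_lit 141544) (nat_lit 11) nil nil))) (node (nat_lit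
  4) (nat_lit 135486) (nat_lit 10) (node (nat_lit 12) (nat_lit 141217) (nat_lit 11) nil (node
  (nat_lit 6) (nat_lit 135486) (nat_lit 11) nil nil)) (node (nat_lit 5) (nat_lit 131980) (nat_lit
  10) nil (node (nat_lit 0) (nat_lit 137765) (nat_lit 10) nil nil)))) (node (nat_lit 4) (nat_lit
  0) (nat_lit 9) (node (nat_lit 0) (nat_lit 140808) (nat_lit 10) (node (nat_lit 6) (nat_lit
  140730) (nat_lit 11) (node (nat_lit 4) (nat_lit 139789) (nat_lit 12) nil nil) (node (nat_lit 4)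
  (nat_lit 140808) (nat_lit 11) nil nil)) nil) nil)) nil))) (node (nat_lit 6) (nat_lit 0) (nat_lit
  7) (node (nat_lit 0) (nat_lit 0) (nat_lit 8) (node (nat_lit 5) (nat_lit 172273) (nat_lit 9)
  (node (nat_lit 4) (nat_lit 175359) (nat_lit 10) (node (nat_lit 5) (nat_lit 178559) (nat_lit 11)
  nil (node (nat_lit 6) (nat_lit 175261) (nat_lit 11) nil nil)) (node (nat_lit 6) (nat_lit 175489)
  (nat_lit 10) (node (nat_lit 5) (nat_lit 178688) (nat_lit 11) nil nil) (node (nat_lit 11)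
  (nat_lit 176855) (nat_lit 10) nil nil))) (node (nat_lit 4) (nat_lit 172870) (nat_lit 9) (node
  (nat_lit 5) (nat_lit 171074) (nat_lit 10) (node (nat_lit 6) (nat_lit 170975) (nat_lit 11) nil
  (node (nat_lit 4) (nat_lit 170710) (nat_lit 11) nil nil)) (node (nat_lit 6) (nat_lit 177029)
  (nat_lit 10) (node (nat_lit 4) (nat_lit 180228) (nat_lit 11) nil nil) nil)) (node (nat_lit 6)
  (nat_lit 172779) (nat_lit 9) (node (nat_lit 4) (nat_lit 172779) (nat_lit 10) nil (node (nat_lit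
  5) (nat_lit 172779) (nat_lit 10) nil nil)) (node (nat_lit 0) (nat_lit 179524) (nat_lit 9) nil
  nil)))) (node (nat_lit 4) (nat_lit 0) (nat_lit 8) (node (nat_lit 0) (nat_lit 0) (nat_lit 9)
  (node (nat_lit 4) (nat_lit 174274) (nat_lit 10) (node (nat_lit 6) (nat_lit 176839) (nat_lit 11)
  (node (nat_lit 5) (nat_lit 180060) (nat_lit 12) nil (node (nat_lit 4) (nat_lit 180060) (nat_lit
  12) nil nil)) (node (nat_lit 5) (nat_lit 171878) (nat_lit 11) (node (nat_lit 4) (nat_lit 171723)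
  (nat_lit 12) nil nil) nil)) (node (nat_lit 6) (nat_lit 173560) (nat_lit 10) (node (nat_lit 4)
  (nat_lit 173560) (nat_lit 11) nil nil) (node (nat_lit 5) (nat_lit 175633) (nat_lit 10) nil (node
  (nat_lit 0) (nat_lit 177098) (nat_lit 10) nil nil)))) (node (nat_lit 5) (nat_lit 0) (nat_lit 9)
  (node (nat_lit 0) (nat_lit 184186) (nat_lit 10) (node (nat_lit 4) (nat_lit 184186) (nat_lit 11)
  nil nil) nil) nil)) nil)) (node (nat_lit 0) (nat_lit 0) (nat_lit 7) (node (nat_lit 6) (nat_lit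
  169067) (nat_lit 8) (node (nat_lit 4) (nat_lit 171108) (nat_lit 9) (node (nat_lit 5) (nat_lit
  172544) (nat_lit 10) nil nil) (node (nat_lit 5) (nat_lit 170060) (nat_lit 9) (node (nat_lit 4)
  (nat_lit 170822) (nat_lit 10) nil nil) nil)) (node (nat_lit 4) (nat_lit 165182) (nat_lit 8)
  (node (nat_lit 5) (nat_lit 167971) (nat_lit 9) (node (nat_lit 6) (nat_lit 168968) (nat_lit 10)
  nil nil) (node (nat_lit 6) (nat_lit 170868) (nat_lit 9) nil nil)) (node (nat_lit 5) (nat_lit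
  167027) (nat_lit 8) (node (nat_lit 6) (nat_lit 171753) (nat_lit 9) (node (nat_lit 5) (nat_lit
  177347) (nat_lit 10) nil nil) (node (nat_lit 4) (nat_lit 173571) (nat_lit 9) (node (nat_lit 6)
  (nat_lit 174568) (nat_lit 10) nil nil) nil)) (node (nat_lit 0) (nat_lit 165429) (nat_lit 8) nil
  nil)))) nil))) nil) (node (nat_lit 5) (nat_lit 0) (nat_lit 5) (node (nat_lit 4) (nat_lit 0)
  (nat_lit 6) (node (nat_lit 6) (nat_lit 0) (nat_lit 7) (node (nat_lit 0) (nat_lit 0) (nat_lit 8)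
  (node (nat_lit 4) (nat_lit 94376) (nat_lit 9) (node (nat_lit 5) (nat_lit 96863) (nat_lit 10)
  (node (nat_lit 6) (nat_lit 99925) (nat_lit 11) nil (node (nat_lit 4) (nat_lit 100390) (nat_lit
  11) (node (nat_lit 6) (nat_lit 98369) (nat_lit 12) nil nil) nil)) (node (nat_lit 6) (nat_lit
  97728) (nat_lit 10) (node (nat_lit 4) (nat_lit 99894) (nat_lit 11) (node (nat_lit 5) (nat_lit
  100530) (nat_lit 12) nil nil) (node (nat_lit 5) (nat_lit 100575) (nat_lit 11) nil nil)) (node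
  (nat_lit 11) (nat_lit 99716) (nat_lit 10) nil nil))) (node (nat_lit 5) (nat_lit 93044) (nat_lit
  9) (node (nat_lit 6) (nat_lit 96396) (nat_lit 10) (node (nat_lit 5) (nat_lit 99923) (nat_lit 11)
  (node (nat_lit 4) (nat_lit 100559) (nat_lit 12) nil nil) (node (nat_lit 4) (nat_lit 96572)
  (nat_lit 11) nil (node (nat_lit 11) (nat_lit 98988) (nat_lit 11) nil nil))) (node (nat_lit 4)
  (nat_lit 96242) (nat_lit 10) (node (nat_lit 6) (nat_lit 99770) (nat_lit 11) (node (nat_lit 5)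
  (nat_lit 95573) (nat_lit 12) nil nil) (node (nat_lit 5) (nat_lit 96418) (nat_lit 11) nil nil))
  (node (nat_lit 11) (nat_lit 99255) (nat_lit 10) nil nil))) (node (nat_lit 6) (nat_lit 0)
  (nat_lit 9) (node (nat_lit 4) (nat_lit 97857) (nat_lit 10) (node (nat_lit 6) (nat_lit 101385)
  (nat_lit 11) nil (node (nat_lit 5) (nat_lit 99255) (nat_lit 11) nil nil)) (node (nat_lit 5)
  (nat_lit 96739) (nat_lit 10) (node (nat_lit 6) (nat_lit 98137) (nat_lit 11) nil (node (nat_lit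
  4) (nat_lit 98137) (nat_lit 11) nil nil)) (node (nat_lit 0) (nat_lit 96539) (nat_lit 10) nil
  nil))) (node (nat_lit 0) (nat_lit 97762) (nat_lit 9) (node (nat_lit 11) (nat_lit 98398) (nat_lit
  10) nil nil) nil)))) (node (nat_lit 5) (nat_lit 0) (nat_lit 8) (node (nat_lit 0) (nat_lit 0)
  (nat_lit 9) (node (nat_lit 5) (nat_lit 0) (nat_lit 10) (node (nat_lit 6) (nat_lit 97632)
  (nat_lit 11) (node (nat_lit 4) (nat_lit 99687) (nat_lit 12) nil (node (nat_lit 5) (nat_lit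
  100193) (nat_lit 12) nil (node (nat_lit 12) (nat_lit 101861) (nat_lit 12) nil nil))) (node
  (nat_lit 4) (nat_lit 97983) (nat_lit 11) (node (nat_lit 5) (nat_lit 98472) (nat_lit 12) nil
  (node (nat_lit 6) (nat_lit 101074) (nat_lit 12) nil (node (nat_lit 12) (nat_lit 101400) (nat_lit
  12) nil (node (nat_lit 0) (nat_lit 101400) (nat_lit 12) nil nil)))) (node (nat_lit 0) (nat_lit
  100628) (nat_lit 11) nil nil))) (node (nat_lit 6) (nat_lit 96620) (nat_lit 10) (node (nat_lit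
  12) (nat_lit 101747) (nat_lit 11) (node (nat_lit 5) (nat_lit 101747) (nat_lit 12) nil nil) (node
  (nat_lit 5) (nat_lit 96620) (nat_lit 11) nil nil)) (node (nat_lit 0) (nat_lit 98877) (nat_lit
  10) nil (node (nat_lit 4) (nat_lit 96467) (nat_lit 10) nil nil)))) (node (nat_lit 6) (nat_lit 0)
  (nat_lit 9) (node (nat_lit 0) (nat_lit 99842) (nat_lit 10) (node (nat_lit 5) (nat_lit 100523)
  (nat_lit 11) (node (nat_lit 6) (nat_lit 101861) (nat_lit 12) (node (nat_lit 5) (nat_lit 101861)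
  (nat_lit 13) nil (node (nat_lit 4) (nat_lit 101861) (nat_lit 13) nil nil)) nil) (node (nat_lit
  6) (nat_lit 100523) (nat_lit 11) nil nil)) nil) (node (nat_lit 4) (nat_lit 0) (nat_lit 9) (node
  (nat_lit 0) (nat_lit 98477) (nat_lit 10) (node (nat_lit 5) (nat_lit 98399) (nat_lit 11) (node
  (nat_lit 4) (nat_lit 97457) (nat_lit 12) nil nil) nil) nil) nil))) (node (nat_lit 4) (nat_lit 0)
  (nat_lit 8) (node (nat_lit 0) (nat_lit 0) (nat_lit 9) (node (nat_lit 4) (nat_lit 0) (nat_lit 10)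
  (node (nat_lit 5) (nat_lit 98348) (nat_lit 11) (node (nat_lit 6) (nat_lit 100629) (nat_lit 12)
  (node (nat_lit 5) (nat_lit 99066) (nat_lit 13) nil (node (nat_lit 4) (nat_lit 101745) (nat_lit
  13) nil nil)) (node (nat_lit 4) (nat_lit 101439) (nat_lit 12) (node (nat_lit 6) (nat_lit 100265)
  (nat_lit 13) nil (node (nat_lit 12) (nat_lit 101861) (nat_lit 13) nil nil)) (node (nat_lit 12)
  (nat_lit 101765) (nat_lit 12) nil (node (nat_lit 0) (nat_lit 101765) (nat_lit 12) nil nil))))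
  (node (nat_lit 6) (nat_lit 99083) (nat_lit 11) (node (nat_lit 5) (nat_lit 101644) (nat_lit 12)
  nil (node (nat_lit 12) (nat_lit 101861) (nat_lit 12) nil (node (nat_lit 4) (nat_lit 100513)
  (nat_lit 12) nil (node (nat_lit 0) (nat_lit 101861) (nat_lit 12) nil nil)))) (node (nat_lit 0)
  (nat_lit 101593) (nat_lit 11) nil nil))) (node (nat_lit 6) (nat_lit 96620) (nat_lit 10) (node
  (nat_lit 12) (nat_lit 101861) (nat_lit 11) (node (nat_lit 4) (nat_lit 101861) (nat_lit 12) (node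
  (nat_lit 12) (nat_lit 101861) (nat_lit 13) nil nil) nil) (node (nat_lit 4) (nat_lit 99236)
  (nat_lit 11) (node (nat_lit 6) (nat_lit 101861) (nat_lit 12) nil nil) nil)) (node (nat_lit 5)
  (nat_lit 95502) (nat_lit 10) (node (nat_lit 4) (nat_lit 97983) (nat_lit 11) nil (node (nat_lit
  12) (nat_lit 101309) (nat_lit 11) nil nil)) (node (nat_lit 0) (nat_lit 98877) (nat_lit 10) (node
  (nat_lit 4) (nat_lit 98877) (nat_lit 11) nil nil) nil)))) (node (nat_lit 5) (nat_lit 0) (nat_lit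
  9) (node (nat_lit 0) (nat_lit 99842) (nat_lit 10) (node (nat_lit 4) (nat_lit 100875) (nat_lit
  11) (node (nat_lit 5) (nat_lit 101861) (nat_lit 12) (node (nat_lit 4) (nat_lit 101861) (nat_lit
  13) nil (node (nat_lit 6) (nat_lit 100695) (nat_lit 13) nil nil)) nil) (node (nat_lit 5)
  (nat_lit 99842) (nat_lit 11) nil nil)) nil) nil)) nil))) (node (nat_lit 0) (nat_lit 0) (nat_lit
  7) (node (nat_lit 4) (nat_lit 91775) (nat_lit 8) (node (nat_lit 5) (nat_lit 94317) (nat_lit 9)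
  (node (nat_lit 6) (nat_lit 97922) (nat_lit 10) (node (nat_lit 4) (nat_lit 99320) (nat_lit 11)
  nil (node (nat_lit 5) (nat_lit 98413) (nat_lit 11) (node (nat_lit 4) (nat_lit 89904) (nat_lit
  12) nil nil) nil)) (node (nat_lit 4) (nat_lit 94265) (nat_lit 10) nil nil)) (node (nat_lit 6)
  (nat_lit 96034) (nat_lit 9) (node (nat_lit 5) (nat_lit 98846) (nat_lit 10) nil (node (nat_lit 4)
  (nat_lit 98120) (nat_lit 10) nil nil)) nil)) (node (nat_lit 6) (nat_lit 93862) (nat_lit 8) (node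
  (nat_lit 4) (nat_lit 97357) (nat_lit 9) (node (nat_lit 5) (nat_lit 101064) (nat_lit 10) (node
  (nat_lit 4) (nat_lit 101861) (nat_lit 11) nil (node (nat_lit 6) (nat_lit 99164) (nat_lit 11) nil
  nil)) (node (nat_lit 6) (nat_lit 101040) (nat_lit 10) nil nil)) (node (nat_lit 5) (nat_lit
  96754) (nat_lit 9) (node (nat_lit 4) (nat_lit 99567) (nat_lit 10) nil (node (nat_lit 6) (nat_lit
  99567) (nat_lit 10) nil nil)) nil)) (node (nat_lit 5) (nat_lit 92355) (nat_lit 8) (node (nat_lit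
  6) (nat_lit 95931) (nat_lit 9) (node (nat_lit 4) (nat_lit 97838) (nat_lit 10) (node (nat_lit 6)
  (nat_lit 95938) (nat_lit 11) nil nil) (node (nat_lit 5) (nat_lit 99614) (nat_lit 10) nil nil))
  (node (nat_lit 4) (nat_lit 95576) (nat_lit 9) (node (nat_lit 6) (nat_lit 99258) (nat_lit 10)
  (node (nat_lit 5) (nat_lit 101861) (nat_lit 11) nil nil) (node (nat_lit 5) (nat_lit 96395)
  (nat_lit 10) nil nil)) (node (nat_lit 10) (nat_lit 95839) (nat_lit 9) nil nil))) (node (nat_lit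
  0) (nat_lit 97102) (nat_lit 8) nil nil)))) nil)) nil) nil)) (node (nat_lit 5) (nat_lit 0)
  (nat_lit 4) (node (nat_lit 4) (nat_lit 0) (nat_lit 5) (node (nat_lit 6) (nat_lit 0) (nat_lit 6)
  (node (nat_lit 4) (nat_lit 0) (nat_lit 7) (node (nat_lit 5) (nat_lit 0) (nat_lit 8) (node
  (nat_lit 4) (nat_lit 0) (nat_lit 9) (node (nat_lit 0) (nat_lit 0) (nat_lit 10) (node (nat_lit 5)
  (nat_lit 103160) (nat_lit 11) (node (nat_lit 4) (nat_lit 108791) (nat_lit 12) (node (nat_lit 6)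
  (nat_lit 116739) (nat_lit 13) (node (nat_lit 5) (nat_lit 120752) (nat_lit 14) (node (nat_lit 6)
  (nat_lit 124008) (nat_lit 15) (node (nat_lit 4) (nat_lit 123091) (nat_lit 16) nil nil) (node
  (nat_lit 4) (nat_lit 122972) (nat_lit 15) (node (nat_lit 5) (nat_lit 119999) (nat_lit 16) nil
  nil) nil)) (node (nat_lit 4) (nat_lit 120684) (nat_lit 14) (node (nat_lit 5) (nat_lit 121956)
  (nat_lit 15) (node (nat_lit 6) (nat_lit 122113) (nat_lit 16) nil nil) nil) (node (nat_lit 13)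
  (nat_lit 123550) (nat_lit 14) nil (node (nat_lit 0) (nat_lit 121424) (nat_lit 14) nil nil))))
  (node (nat_lit 5) (nat_lit 115699) (nat_lit 13) (node (nat_lit 6) (nat_lit 120247) (nat_lit 14)
  (node (nat_lit 4) (nat_lit 122319) (nat_lit 15) (node (nat_lit 6) (nat_lit 122476) (nat_lit 16)
  nil nil) (node (nat_lit 5) (nat_lit 122767) (nat_lit 15) (node (nat_lit 4) (nat_lit 120079)
  (nat_lit 16) nil nil) nil)) (node (nat_lit 13) (nat_lit 124883) (nat_lit 14) (node (nat_lit 4)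
  (nat_lit 124883) (nat_lit 15) nil (node (nat_lit 5) (nat_lit 124883) (nat_lit 15) nil nil))
  (node (nat_lit 0) (nat_lit 122511) (nat_lit 14) nil nil))) (node (nat_lit 0) (nat_lit 119087)
  (nat_lit 13) nil nil))) (node (nat_lit 13) (nat_lit 115112) (nat_lit 12) (node (nat_lit 4)
  (nat_lit 115112) (nat_lit 13) nil nil) nil)) (node (nat_lit 4) (nat_lit 102788) (nat_lit 11)
  (node (nat_lit 5) (nat_lit 108866) (nat_lit 12) (node (nat_lit 13) (nat_lit 120634) (nat_lit 13)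
  (node (nat_lit 5) (nat_lit 120634) (nat_lit 14) nil nil) nil) nil) (node (nat_lit 6) (nat_lit
  103979) (nat_lit 11) nil (node (nat_lit 0) (nat_lit 102042) (nat_lit 11) nil nil)))) nil) (node
  (nat_lit 0) (nat_lit 0) (nat_lit 9) (node (nat_lit 5) (nat_lit 0) (nat_lit 10) (node (nat_lit 6)
  (nat_lit 100482) (nat_lit 11) (node (nat_lit 4) (nat_lit 105386) (nat_lit 12) (node (nat_lit 5)
  (nat_lit 107896) (nat_lit 13) nil nil) (node (nat_lit 5) (nat_lit 105018) (nat_lit 12) (node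
  (nat_lit 4) (nat_lit 104821) (nat_lit 13) nil nil) (node (nat_lit 12) (nat_lit 108174) (nat_lit
  12) nil (node (nat_lit 0) (nat_lit 108174) (nat_lit 12) nil nil)))) (node (nat_lit 4) (nat_lit
  99672) (nat_lit 11) (node (nat_lit 6) (nat_lit 106229) (nat_lit 12) (node (nat_lit 5) (nat_lit
  103878) (nat_lit 13) nil (node (nat_lit 4) (nat_lit 108739) (nat_lit 13) nil nil)) (node
  (nat_lit 5) (nat_lit 103911) (nat_lit 12) nil (node (nat_lit 12) (nat_lit 110855) (nat_lit 12)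
  nil nil))) (node (nat_lit 0) (nat_lit 105412) (nat_lit 11) nil nil))) (node (nat_lit 4) (nat_lit
  92352) (nat_lit 10) (node (nat_lit 12) (nat_lit 106869) (nat_lit 11) (node (nat_lit 5) (nat_lit
  106869) (nat_lit 12) nil nil) (node (nat_lit 5) (nat_lit 99845) (nat_lit 11) nil nil)) (node
  (nat_lit 6) (nat_lit 93174) (nat_lit 10) (node (nat_lit 12) (nat_lit 98905) (nat_lit 11) nil
  nil) (node (nat_lit 0) (nat_lit 98452) (nat_lit 10) nil nil)))) (node (nat_lit 6) (nat_lit 0)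
  (nat_lit 9) (node (nat_lit 0) (nat_lit 86226) (nat_lit 10) (node (nat_lit 5) (nat_lit 88251)
  (nat_lit 11) (node (nat_lit 6) (nat_lit 88251) (nat_lit 12) nil nil) nil) nil) nil))) (node
  (nat_lit 0) (nat_lit 0) (nat_lit 8) (node (nat_lit 6) (nat_lit 128093) (nat_lit 9) (node
  (nat_lit 4) (nat_lit 137240) (nat_lit 10) (node (nat_lit 6) (nat_lit 144693) (nat_lit 11) (node
  (nat_lit 5) (nat_lit 144709) (nat_lit 12) (node (nat_lit 4) (nat_lit 147341) (nat_lit 13) (node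
  (nat_lit 5) (nat_lit 146304) (nat_lit 14) (node (nat_lit 6) (nat_lit 137544) (nat_lit 15) (node
  (nat_lit 5) (nat_lit 133213) (nat_lit 16) (node (nat_lit 4) (nat_lit 122385) (nat_lit 17) (node
  (nat_lit 6) (nat_lit 112303) (nat_lit 18) (node (nat_lit 4) (nat_lit 94454) (nat_lit 19) nil
  nil) nil) nil) nil) nil) nil) nil) nil) (node (nat_lit 5) (nat_lit 140439) (nat_lit 11) nil
  nil)) (node (nat_lit 5) (nat_lit 133408) (nat_lit 10) (node (nat_lit 4) (nat_lit 133044)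
  (nat_lit 11) nil (node (nat_lit 6) (nat_lit 136607) (nat_lit 11) nil nil)) (node (nat_lit 11)
  (nat_lit 141715) (nat_lit 10) nil nil))) (node (nat_lit 5) (nat_lit 132530) (nat_lit 9) (node
  (nat_lit 4) (nat_lit 139982) (nat_lit 10) (node (nat_lit 5) (nat_lit 144470) (nat_lit 11) nil
  nil) (node (nat_lit 6) (nat_lit 136528) (nat_lit 10) (node (nat_lit 5) (nat_lit 139727) (nat_lit
  11) nil (node (nat_lit 4) (nat_lit 139727) (nat_lit 11) nil nil)) (node (nat_lit 11) (nat_lit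
  142844) (nat_lit 10) nil nil))) (node (nat_lit 4) (nat_lit 128776) (nat_lit 9) (node (nat_lit 5)
  (nat_lit 128776) (nat_lit 10) nil (node (nat_lit 6) (nat_lit 128776) (nat_lit 10) nil nil))
  (node (nat_lit 0) (nat_lit 136173) (nat_lit 9) nil nil)))) nil)) (node (nat_lit 5) (nat_lit 0)
  (nat_lit 7) (node (nat_lit 0) (nat_lit 0) (nat_lit 8) (node (nat_lit 4) (nat_lit 0) (nat_lit 9)
  (node (nat_lit 5) (nat_lit 153172) (nat_lit 10) (node (nat_lit 4) (nat_lit 155910) (nat_lit 11)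
  (node (nat_lit 6) (nat_lit 149678) (nat_lit 12) nil nil) (node (nat_lit 6) (nat_lit 157034)
  (nat_lit 11) nil nil)) (node (nat_lit 6) (nat_lit 151054) (nat_lit 10) (node (nat_lit 5)
  (nat_lit 151592) (nat_lit 11) nil (node (nat_lit 4) (nat_lit 154253) (nat_lit 11) nil nil))
  (node (nat_lit 11) (nat_lit 153077) (nat_lit 10) nil (node (nat_lit 0) (nat_lit 147346) (nat_lit
  10) nil nil)))) (node (nat_lit 6) (nat_lit 0) (nat_lit 9) (node (nat_lit 5) (nat_lit 152348)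
  (nat_lit 10) (node (nat_lit 6) (nat_lit 155547) (nat_lit 11) nil (node (nat_lit 4) (nat_lit
  151984) (nat_lit 11) nil nil)) (node (nat_lit 4) (nat_lit 151515) (nat_lit 10) (node (nat_lit 5)
  (nat_lit 154934) (nat_lit 11) nil (node (nat_lit 6) (nat_lit 153520) (nat_lit 11) nil nil))
  (node (nat_lit 11) (nat_lit 156720) (nat_lit 10) nil (node (nat_lit 0) (nat_lit 147681) (nat_lit
  10) nil nil)))) (node (nat_lit 5) (nat_lit 0) (nat_lit 9) (node (nat_lit 6) (nat_lit 153891)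
  (nat_lit 10) (node (nat_lit 5) (nat_lit 157090) (nat_lit 11) nil (node (nat_lit 4) (nat_lit
  157090) (nat_lit 11) nil nil)) (node (nat_lit 4) (nat_lit 153891) (nat_lit 10) (node (nat_lit 5)
  (nat_lit 157090) (nat_lit 11) nil nil) (node (nat_lit 0) (nat_lit 148143) (nat_lit 10) nil
  nil))) (node (nat_lit 0) (nat_lit 146354) (nat_lit 9) (node (nat_lit 11) (nat_lit 147738)
  (nat_lit 10) nil nil) nil)))) (node (nat_lit 6) (nat_lit 0) (nat_lit 8) (node (nat_lit 0)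
  (nat_lit 0) (nat_lit 9) (node (nat_lit 6) (nat_lit 0) (nat_lit 10) (node (nat_lit 4) (nat_lit
  150647) (nat_lit 11) (node (nat_lit 5) (nat_lit 153868) (nat_lit 12) nil (node (nat_lit 6)
  (nat_lit 151012) (nat_lit 12) nil nil)) (node (nat_lit 5) (nat_lit 153295) (nat_lit 11) (node
  (nat_lit 4) (nat_lit 153139) (nat_lit 12) nil nil) (node (nat_lit 0) (nat_lit 155622) (nat_lit
  11) nil nil))) (node (nat_lit 5) (nat_lit 150345) (nat_lit 10) (node (nat_lit 6) (nat_lit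
  150345) (nat_lit 11) nil nil) (node (nat_lit 4) (nat_lit 149832) (nat_lit 10) nil (node (nat_lit
  0) (nat_lit 151761) (nat_lit 10) nil nil)))) (node (nat_lit 4) (nat_lit 0) (nat_lit 9) (node
  (nat_lit 0) (nat_lit 155063) (nat_lit 10) (node (nat_lit 6) (nat_lit 158845) (nat_lit 11) (node
  (nat_lit 4) (nat_lit 158845) (nat_lit 12) nil nil) (node (nat_lit 4) (nat_lit 155063) (nat_lit
  11) nil nil)) nil) nil)) nil)) (node (nat_lit 0) (nat_lit 0) (nat_lit 7) (node (nat_lit 6)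
  (nat_lit 134370) (nat_lit 8) (node (nat_lit 5) (nat_lit 148410) (nat_lit 9) (node (nat_lit 4)
  (nat_lit 158325) (nat_lit 10) (node (nat_lit 6) (nat_lit 154414) (nat_lit 11) (node (nat_lit 4)
  (nat_lit 154920) (nat_lit 12) (node (nat_lit 5) (nat_lit 153246) (nat_lit 13) (node (nat_lit 6)
  (nat_lit 146790) (nat_lit 14) (node (nat_lit 5) (nat_lit 140115) (nat_lit 15) (node (nat_lit 4)
  (nat_lit 125028) (nat_lit 16) nil nil) nil) nil) nil) nil) (node (nat_lit 5) (nat_lit 161524)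
  (nat_lit 11) nil nil)) (node (nat_lit 6) (nat_lit 154005) (nat_lit 10) nil nil)) (node (nat_lit
  4) (nat_lit 146036) (nat_lit 9) (node (nat_lit 5) (nat_lit 150357) (nat_lit 10) nil (node
  (nat_lit 6) (nat_lit 150283) (nat_lit 10) (node (nat_lit 5) (nat_lit 147311) (nat_lit 11) (node
  (nat_lit 4) (nat_lit 145693) (nat_lit 12) nil nil) nil) nil)) nil)) (node (nat_lit 4) (nat_lit
  133652) (nat_lit 8) (node (nat_lit 5) (nat_lit 147693) (nat_lit 9) (node (nat_lit 6) (nat_lit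
  154316) (nat_lit 10) (node (nat_lit 5) (nat_lit 159003) (nat_lit 11) (node (nat_lit 4) (nat_lit
  158847) (nat_lit 12) nil nil) nil) (node (nat_lit 4) (nat_lit 155834) (nat_lit 10) (node
  (nat_lit 6) (nat_lit 148793) (nat_lit 11) nil nil) nil)) (node (nat_lit 6) (nat_lit 145922)
  (nat_lit 9) (node (nat_lit 5) (nat_lit 158185) (nat_lit 10) (node (nat_lit 6) (nat_lit 157630)
  (nat_lit 11) nil (node (nat_lit 4) (nat_lit 157822) (nat_lit 11) nil nil)) (node (nat_lit 4)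
  (nat_lit 153627) (nat_lit 10) nil nil)) (node (nat_lit 10) (nat_lit 149531) (nat_lit 9) nil
  nil))) (node (nat_lit 5) (nat_lit 137120) (nat_lit 8) (node (nat_lit 6) (nat_lit 148821)
  (nat_lit 9) (node (nat_lit 4) (nat_lit 155799) (nat_lit 10) nil (node (nat_lit 5) (nat_lit
  154416) (nat_lit 10) nil nil)) (node (nat_lit 4) (nat_lit 148821) (nat_lit 9) (node (nat_lit 6)
  (nat_lit 155434) (nat_lit 10) (node (nat_lit 5) (nat_lit 155475) (nat_lit 11) nil nil) (node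
  (nat_lit 5) (nat_lit 154416) (nat_lit 10) nil nil)) (node (nat_lit 10) (nat_lit 150496) (nat_lit
  9) nil nil))) (node (nat_lit 0) (nat_lit 147689) (nat_lit 8) nil nil)))) nil))) (node (nat_lit
  5) (nat_lit 0) (nat_lit 6) (node (nat_lit 6) (nat_lit 0) (nat_lit 7) (node (nat_lit 4) (nat_lit
  0) (nat_lit 8) (node (nat_lit 0) (nat_lit 0) (nat_lit 9) (node (nat_lit 4) (nat_lit 0) (nat_lit
  10) (node (nat_lit 6) (nat_lit 114777) (nat_lit 11) (node (nat_lit 5) (nat_lit 116120) (nat_lit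
  12) nil (node (nat_lit 4) (nat_lit 116120) (nat_lit 12) nil (node (nat_lit 12) (nat_lit 116120)
  (nat_lit 12) nil nil))) (node (nat_lit 5) (nat_lit 114073) (nat_lit 11) (node (nat_lit 4)
  (nat_lit 116120) (nat_lit 12) nil (node (nat_lit 6) (nat_lit 116120) (nat_lit 12) nil (node
  (nat_lit 0) (nat_lit 116120) (nat_lit 12) nil nil))) (node (nat_lit 0) (nat_lit 116120) (nat_lit
  11) nil nil))) (node (nat_lit 6) (nat_lit 111578) (nat_lit 10) (node (nat_lit 12) (nat_lit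
  116120) (nat_lit 11) nil (node (nat_lit 4) (nat_lit 111578) (nat_lit 11) nil nil)) (node
  (nat_lit 0) (nat_lit 116120) (nat_lit 10) nil (node (nat_lit 5) (nat_lit 112593) (nat_lit 10)
  nil nil)))) (node (nat_lit 6) (nat_lit 0) (nat_lit 9) (node (nat_lit 0) (nat_lit 116120)
  (nat_lit 10) (node (nat_lit 4) (nat_lit 116120) (nat_lit 11) (node (nat_lit 6) (nat_lit 116120)
  (nat_lit 12) (node (nat_lit 4) (nat_lit 116120) (nat_lit 13) nil (node (nat_lit 5) (nat_lit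
  116120) (nat_lit 13) nil nil)) nil) (node (nat_lit 6) (nat_lit 116120) (nat_lit 11) nil nil))
  nil) (node (nat_lit 5) (nat_lit 0) (nat_lit 9) (node (nat_lit 0) (nat_lit 116120) (nat_lit 10)
  (node (nat_lit 4) (nat_lit 116120) (nat_lit 11) (node (nat_lit 5) (nat_lit 116120) (nat_lit 12)
  nil nil) nil) nil) nil))) (node (nat_lit 0) (nat_lit 0) (nat_lit 8) (node (nat_lit 4) (nat_lit
  107359) (nat_lit 9) (node (nat_lit 6) (nat_lit 110508) (nat_lit 10) (node (nat_lit 4) (nat_lit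
  114820) (nat_lit 11) (node (nat_lit 5) (nat_lit 115568) (nat_lit 12) nil nil) (node (nat_lit 5)
  (nat_lit 110459) (nat_lit 11) nil nil)) (node (nat_lit 5) (nat_lit 112409) (nat_lit 10) (node
  (nat_lit 6) (nat_lit 116120) (nat_lit 11) (node (nat_lit 4) (nat_lit 116120) (nat_lit 12) nil
  nil) (node (nat_lit 4) (nat_lit 113159) (nat_lit 11) nil nil)) (node (nat_lit 11) (nat_lit
  115639) (nat_lit 10) nil nil))) (node (nat_lit 5) (nat_lit 108838) (nat_lit 9) (node (nat_lit 4)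
  (nat_lit 114059) (nat_lit 10) (node (nat_lit 5) (nat_lit 116120) (nat_lit 11) nil (node (nat_lit
  6) (nat_lit 115665) (nat_lit 11) nil nil)) (node (nat_lit 6) (nat_lit 111987) (nat_lit 10) (node
  (nat_lit 5) (nat_lit 116120) (nat_lit 11) (node (nat_lit 4) (nat_lit 114930) (nat_lit 12) nil
  nil) (node (nat_lit 4) (nat_lit 116120) (nat_lit 11) nil nil)) (node (nat_lit 11) (nat_lit
  116120) (nat_lit 10) nil nil))) (node (nat_lit 6) (nat_lit 0) (nat_lit 9) (node (nat_lit 5)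
  (nat_lit 113022) (nat_lit 10) (node (nat_lit 6) (nat_lit 116120) (nat_lit 11) nil (node (nat_lit
  4) (nat_lit 111260) (nat_lit 11) nil nil)) (node (nat_lit 4) (nat_lit 111777) (nat_lit 10) (node
  (nat_lit 6) (nat_lit 113579) (nat_lit 11) nil (node (nat_lit 5) (nat_lit 113579) (nat_lit 11)
  nil nil)) (node (nat_lit 0) (nat_lit 108656) (nat_lit 10) nil nil))) (node (nat_lit 0) (nat_lit
  113960) (nat_lit 9) (node (nat_lit 11) (nat_lit 114708) (nat_lit 10) nil nil) nil)))) nil))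
  (node (nat_lit 0) (nat_lit 0) (nat_lit 7) (node (nat_lit 4) (nat_lit 106089) (nat_lit 8) (node
  (nat_lit 6) (nat_lit 110980) (nat_lit 9) (node (nat_lit 5) (nat_lit 116120) (nat_lit 10) (node
  (nat_lit 6) (nat_lit 116120) (nat_lit 11) (node (nat_lit 4) (nat_lit 116120) (nat_lit 12) (node
  (nat_lit 5) (nat_lit 116120) (nat_lit 13) nil nil) nil) nil) (node (nat_lit 4) (nat_lit 115871)
  (nat_lit 10) nil nil)) (node (nat_lit 5) (nat_lit 110453) (nat_lit 9) (node (nat_lit 6) (nat_lit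
  115344) (nat_lit 10) nil (node (nat_lit 4) (nat_lit 112049) (nat_lit 10) nil nil)) (node
  (nat_lit 10) (nat_lit 115981) (nat_lit 9) nil nil))) (node (nat_lit 6) (nat_lit 106163) (nat_lit
  8) (node (nat_lit 5) (nat_lit 111736) (nat_lit 9) (node (nat_lit 4) (nat_lit 113488) (nat_lit
  10) (node (nat_lit 6) (nat_lit 111258) (nat_lit 11) (node (nat_lit 4) (nat_lit 111128) (nat_lit
  12) (node (nat_lit 5) (nat_lit 108656) (nat_lit 13) nil nil) nil) (node (nat_lit 5) (nat_lit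
  116120) (nat_lit 11) nil nil)) (node (nat_lit 6) (nat_lit 116120) (nat_lit 10) nil nil)) (node
  (nat_lit 4) (nat_lit 109464) (nat_lit 9) (node (nat_lit 5) (nat_lit 116120) (nat_lit 10) (node
  (nat_lit 6) (nat_lit 116120) (nat_lit 11) nil nil) (node (nat_lit 6) (nat_lit 111573) (nat_lit
  10) nil nil)) (node (nat_lit 10) (nat_lit 116056) (nat_lit 9) nil nil))) (node (nat_lit 5)
  (nat_lit 107778) (nat_lit 8) (node (nat_lit 4) (nat_lit 113543) (nat_lit 9) (node (nat_lit 6)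
  (nat_lit 116120) (nat_lit 10) (node (nat_lit 5) (nat_lit 115891) (nat_lit 11) nil (node (nat_lit
  4) (nat_lit 116120) (nat_lit 11) nil nil)) (node (nat_lit 5) (nat_lit 116120) (nat_lit 10) nil
  nil)) (node (nat_lit 6) (nat_lit 110872) (nat_lit 9) (node (nat_lit 4) (nat_lit 115763) (nat_lit
  10) nil (node (nat_lit 5) (nat_lit 114380) (nat_lit 10) nil nil)) nil)) (node (nat_lit 0)
  (nat_lit 113090) (nat_lit 8) nil nil)))) nil)) nil)) nil) nil))

noncomputable def t461 : Tr :=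
  (node (nat_lit 5) (nat_lit 0) (nat_lit 5) (node (nat_lit 7) (nat_lit 0) (nat_lit 6) (node
  (nat_lit 4) (nat_lit 0) (nat_lit 7) (node (nat_lit 0) (nat_lit 0) (nat_lit 8) (node (nat_lit 7)
  (nat_lit 46065) (nat_lit 9) (node (nat_lit 5) (nat_lit 52463) (nat_lit 10) (node (nat_lit 4)
  (nat_lit 55648) (nat_lit 11) nil (node (nat_lit 7) (nat_lit 59165) (nat_lit 11) (node (nat_lit
  4) (nat_lit 59892) (nat_lit 12) nil nil) nil)) (node (nat_lit 4) (nat_lit 53091) (nat_lit 10)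
  (node (nat_lit 7) (nat_lit 58692) (nat_lit 11) (node (nat_lit 5) (nat_lit 56738) (nat_lit 12)
  nil nil) (node (nat_lit 5) (nat_lit 55089) (nat_lit 11) nil nil)) (node (nat_lit 11) (nat_lit
  57390) (nat_lit 10) nil nil))) (node (nat_lit 5) (nat_lit 0) (nat_lit 9) (node (nat_lit 4)
  (nat_lit 52793) (nat_lit 10) (node (nat_lit 5) (nat_lit 59495) (nat_lit 11) (node (nat_lit 7)
  (nat_lit 64070) (nat_lit 12) nil nil) (node (nat_lit 7) (nat_lit 56618) (nat_lit 11) nil (node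
  (nat_lit 11) (nat_lit 55935) (nat_lit 11) nil nil))) (node (nat_lit 7) (nat_lit 52769) (nat_lit
  10) (node (nat_lit 4) (nat_lit 57226) (nat_lit 11) (node (nat_lit 5) (nat_lit 57953) (nat_lit
  12) nil nil) (node (nat_lit 5) (nat_lit 54766) (nat_lit 11) (node (nat_lit 4) (nat_lit 52628)
  (nat_lit 12) nil nil) nil)) (node (nat_lit 11) (nat_lit 57160) (nat_lit 10) nil (node (nat_lit
  0) (nat_lit 48338) (nat_lit 10) nil nil)))) (node (nat_lit 4) (nat_lit 0) (nat_lit 9) (node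
  (nat_lit 7) (nat_lit 53235) (nat_lit 10) (node (nat_lit 4) (nat_lit 57523) (nat_lit 11) nil
  (node (nat_lit 5) (nat_lit 51456) (nat_lit 11) nil nil)) (node (nat_lit 5) (nat_lit 53169)
  (nat_lit 10) (node (nat_lit 4) (nat_lit 51390) (nat_lit 11) nil (node (nat_lit 7) (nat_lit
  54946) (nat_lit 11) nil nil)) (node (nat_lit 0) (nat_lit 48417) (nat_lit 10) nil nil))) (node
  (nat_lit 0) (nat_lit 50064) (nat_lit 9) (node (nat_lit 11) (nat_lit 50791) (nat_lit 10) nil nil)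
  nil)))) (node (nat_lit 5) (nat_lit 0) (nat_lit 8) (node (nat_lit 0) (nat_lit 0) (nat_lit 9)
  (node (nat_lit 5) (nat_lit 0) (nat_lit 10) (node (nat_lit 4) (nat_lit 38736) (nat_lit 11) (node
  (nat_lit 7) (nat_lit 43219) (nat_lit 12) nil (node (nat_lit 5) (nat_lit 40576) (nat_lit 12) nil
  (node (nat_lit 12) (nat_lit 46666) (nat_lit 12) nil nil))) (node (nat_lit 7) (nat_lit 38736)
  (nat_lit 11) (node (nat_lit 5) (nat_lit 40905) (nat_lit 12) nil (node (nat_lit 4) (nat_lit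
  42556) (nat_lit 12) nil (node (nat_lit 12) (nat_lit 43174) (nat_lit 12) nil (node (nat_lit 0)
  (nat_lit 43174) (nat_lit 12) nil nil)))) (node (nat_lit 0) (nat_lit 42270) (nat_lit 11) nil
  nil))) (node (nat_lit 4) (nat_lit 34944) (nat_lit 10) (node (nat_lit 12) (nat_lit 44456)
  (nat_lit 11) (node (nat_lit 5) (nat_lit 44456) (nat_lit 12) nil nil) (node (nat_lit 5) (nat_lit
  34944) (nat_lit 11) nil nil)) (node (nat_lit 0) (nat_lit 38828) (nat_lit 10) nil (node (nat_lit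
  7) (nat_lit 35054) (nat_lit 10) nil nil)))) (node (nat_lit 4) (nat_lit 0) (nat_lit 9) (node
  (nat_lit 0) (nat_lit 39478) (nat_lit 10) (node (nat_lit 5) (nat_lit 40904) (nat_lit 11) (node
  (nat_lit 4) (nat_lit 44252) (nat_lit 12) (node (nat_lit 5) (nat_lit 45915) (nat_lit 13) nil
  (node (nat_lit 7) (nat_lit 45623) (nat_lit 13) nil nil)) nil) (node (nat_lit 4) (nat_lit 41235)
  (nat_lit 11) nil nil)) nil) (node (nat_lit 7) (nat_lit 0) (nat_lit 9) (node (nat_lit 0) (nat_lit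
  39461) (nat_lit 10) (node (nat_lit 5) (nat_lit 41195) (nat_lit 11) (node (nat_lit 7) (nat_lit
  43156) (nat_lit 12) nil nil) nil) nil) nil))) (node (nat_lit 7) (nat_lit 0) (nat_lit 8) (node
  (nat_lit 0) (nat_lit 0) (nat_lit 9) (node (nat_lit 7) (nat_lit 0) (nat_lit 10) (node (nat_lit 5)
  (nat_lit 56227) (nat_lit 11) (node (nat_lit 4) (nat_lit 61513) (nat_lit 12) (node (nat_lit 5)
  (nat_lit 62753) (nat_lit 13) nil (node (nat_lit 7) (nat_lit 59586) (nat_lit 13) nil nil)) (node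
  (nat_lit 7) (nat_lit 61927) (nat_lit 12) (node (nat_lit 4) (nat_lit 64906) (nat_lit 13) nil
  (node (nat_lit 12) (nat_lit 65391) (nat_lit 13) nil nil)) (node (nat_lit 12) (nat_lit 64156)
  (nat_lit 12) nil (node (nat_lit 0) (nat_lit 60665) (nat_lit 12) nil nil)))) (node (nat_lit 4)
  (nat_lit 56452) (nat_lit 11) (node (nat_lit 5) (nat_lit 60376) (nat_lit 12) (node (nat_lit 7)
  (nat_lit 63355) (nat_lit 13) nil (node (nat_lit 4) (nat_lit 60684) (nat_lit 13) nil nil)) (node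
  (nat_lit 12) (nat_lit 65297) (nat_lit 12) (node (nat_lit 7) (nat_lit 65297) (nat_lit 13) nil
  nil) (node (nat_lit 7) (nat_lit 58171) (nat_lit 12) nil (node (nat_lit 0) (nat_lit 64381)
  (nat_lit 12) nil nil)))) (node (nat_lit 0) (nat_lit 60685) (nat_lit 11) nil nil))) (node
  (nat_lit 4) (nat_lit 50736) (nat_lit 10) (node (nat_lit 12) (nat_lit 61415) (nat_lit 11) (node
  (nat_lit 7) (nat_lit 61415) (nat_lit 12) (node (nat_lit 12) (nat_lit 63429) (nat_lit 13) nil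
  nil) nil) (node (nat_lit 7) (nat_lit 56433) (nat_lit 11) (node (nat_lit 4) (nat_lit 61824)
  (nat_lit 12) (node (nat_lit 12) (nat_lit 65288) (nat_lit 13) nil nil) nil) nil)) (node (nat_lit
  5) (nat_lit 50575) (nat_lit 10) (node (nat_lit 7) (nat_lit 55987) (nat_lit 11) nil (node
  (nat_lit 12) (nat_lit 60769) (nat_lit 11) nil nil)) (node (nat_lit 0) (nat_lit 54646) (nat_lit
  10) (node (nat_lit 7) (nat_lit 54646) (nat_lit 11) nil nil) nil)))) (node (nat_lit 5) (nat_lit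
  0) (nat_lit 9) (node (nat_lit 0) (nat_lit 55190) (nat_lit 10) (node (nat_lit 7) (nat_lit 58377)
  (nat_lit 11) (node (nat_lit 5) (nat_lit 61977) (nat_lit 12) (node (nat_lit 7) (nat_lit 63426)
  (nat_lit 13) nil (node (nat_lit 4) (nat_lit 60755) (nat_lit 13) nil (node (nat_lit 0) (nat_lit
  65441) (nat_lit 13) nil nil))) nil) (node (nat_lit 5) (nat_lit 55190) (nat_lit 11) nil nil))
  nil) nil)) nil))) (node (nat_lit 0) (nat_lit 0) (nat_lit 7) (node (nat_lit 7) (nat_lit 65223)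
  (nat_lit 8) (node (nat_lit 5) (nat_lit 73795) (nat_lit 9) (node (nat_lit 4) (nat_lit 80095)
  (nat_lit 10) (node (nat_lit 7) (nat_lit 78007) (nat_lit 11) nil (node (nat_lit 5) (nat_lit
  79534) (nat_lit 11) nil nil)) (node (nat_lit 7) (nat_lit 78519) (nat_lit 10) nil nil)) (node
  (nat_lit 4) (nat_lit 75403) (nat_lit 9) (node (nat_lit 5) (nat_lit 80848) (nat_lit 10) nil (node
  (nat_lit 7) (nat_lit 78744) (nat_lit 10) nil nil)) nil)) (node (nat_lit 4) (nat_lit 68116)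
  (nat_lit 8) (node (nat_lit 7) (nat_lit 77530) (nat_lit 9) (node (nat_lit 5) (nat_lit 85452)
  (nat_lit 10) (node (nat_lit 7) (nat_lit 83994) (nat_lit 11) (node (nat_lit 4) (nat_lit 82750)
  (nat_lit 12) nil nil) (node (nat_lit 4) (nat_lit 83673) (nat_lit 11) nil nil)) (node (nat_lit 4)
  (nat_lit 84216) (nat_lit 10) nil nil)) (node (nat_lit 5) (nat_lit 75256) (nat_lit 9) (node
  (nat_lit 7) (nat_lit 80999) (nat_lit 10) (node (nat_lit 4) (nat_lit 82775) (nat_lit 11) nil nil)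
  (node (nat_lit 4) (nat_lit 82961) (nat_lit 10) nil nil)) (node (nat_lit 10) (nat_lit 77816)
  (nat_lit 9) nil nil))) (node (nat_lit 5) (nat_lit 65207) (nat_lit 8) (node (nat_lit 4) (nat_lit
  77073) (nat_lit 9) (node (nat_lit 7) (nat_lit 83962) (nat_lit 10) (node (nat_lit 4) (nat_lit
  86958) (nat_lit 11) nil nil) (node (nat_lit 5) (nat_lit 83719) (nat_lit 10) (node (nat_lit 7)
  (nat_lit 79511) (nat_lit 11) nil nil) nil)) (node (nat_lit 7) (nat_lit 74836) (nat_lit 9) (node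
  (nat_lit 4) (nat_lit 79922) (nat_lit 10) nil (node (nat_lit 5) (nat_lit 78863) (nat_lit 10) nil
  nil)) (node (nat_lit 10) (nat_lit 74908) (nat_lit 9) nil nil))) (node (nat_lit 0) (nat_lit
  74893) (nat_lit 8) nil nil)))) nil)) (node (nat_lit 4) (nat_lit 0) (nat_lit 6) (node (nat_lit 5)
  (nat_lit 0) (nat_lit 7) (node (nat_lit 7) (nat_lit 0) (nat_lit 8) (node (nat_lit 5) (nat_lit 0)
  (nat_lit 9) (node (nat_lit 0) (nat_lit 0) (nat_lit 10) (node (nat_lit 7) (nat_lit 92478)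
  (nat_lit 11) (node (nat_lit 5) (nat_lit 96754) (nat_lit 12) (node (nat_lit 4) (nat_lit 101343)
  (nat_lit 13) (node (nat_lit 7) (nat_lit 101343) (nat_lit 14) (node (nat_lit 4) (nat_lit 101343)
  (nat_lit 15) (node (nat_lit 5) (nat_lit 101343) (nat_lit 16) (node (nat_lit 4) (nat_lit 101187)
  (nat_lit 17) nil nil) nil) (node (nat_lit 5) (nat_lit 101343) (nat_lit 15) nil nil)) (node
  (nat_lit 5) (nat_lit 101343) (nat_lit 14) (node (nat_lit 7) (nat_lit 101343) (nat_lit 15) nil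
  nil) (node (nat_lit 13) (nat_lit 101343) (nat_lit 14) nil nil))) (node (nat_lit 7) (nat_lit
  101204) (nat_lit 13) (node (nat_lit 4) (nat_lit 101343) (nat_lit 14) (node (nat_lit 5) (nat_lit
  101343) (nat_lit 15) nil (node (nat_lit 7) (nat_lit 101343) (nat_lit 15) nil nil)) (node
  (nat_lit 13) (nat_lit 101343) (nat_lit 14) nil nil)) (node (nat_lit 0) (nat_lit 100218) (nat_lit
  13) nil nil))) (node (nat_lit 13) (nat_lit 100431) (nat_lit 12) nil nil)) (node (nat_lit 5)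
  (nat_lit 92333) (nat_lit 11) (node (nat_lit 7) (nat_lit 96270) (nat_lit 12) (node (nat_lit 13)
  (nat_lit 101343) (nat_lit 13) nil nil) nil) (node (nat_lit 4) (nat_lit 93519) (nat_lit 11) nil
  (node (nat_lit 0) (nat_lit 90411) (nat_lit 11) nil nil)))) nil) (node (nat_lit 0) (nat_lit 0)
  (nat_lit 9) (node (nat_lit 7) (nat_lit 0) (nat_lit 10) (node (nat_lit 5) (nat_lit 89242)
  (nat_lit 11) (node (nat_lit 4) (nat_lit 92675) (nat_lit 12) (node (nat_lit 7) (nat_lit 91288)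
  (nat_lit 13) nil (node (nat_lit 5) (nat_lit 91453) (nat_lit 13) nil nil)) (node (nat_lit 7)
  (nat_lit 94254) (nat_lit 12) nil (node (nat_lit 12) (nat_lit 97171) (nat_lit 12) nil nil)))
  (node (nat_lit 4) (nat_lit 90783) (nat_lit 11) (node (nat_lit 5) (nat_lit 92825) (nat_lit 12)
  nil (node (nat_lit 7) (nat_lit 93695) (nat_lit 12) nil (node (nat_lit 12) (nat_lit 95221)
  (nat_lit 12) nil nil))) (node (nat_lit 0) (nat_lit 93884) (nat_lit 11) nil nil))) (node (nat_lit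
  5) (nat_lit 84480) (nat_lit 10) (node (nat_lit 7) (nat_lit 89891) (nat_lit 11) nil (node
  (nat_lit 12) (nat_lit 92259) (nat_lit 11) nil nil)) (node (nat_lit 4) (nat_lit 85185) (nat_lit
  10) (node (nat_lit 12) (nat_lit 88492) (nat_lit 11) nil nil) (node (nat_lit 0) (nat_lit 87684)
  (nat_lit 10) nil nil)))) (node (nat_lit 4) (nat_lit 0) (nat_lit 9) (node (nat_lit 0) (nat_lit
  89955) (nat_lit 10) (node (nat_lit 7) (nat_lit 92395) (nat_lit 11) (node (nat_lit 4) (nat_lit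
  92395) (nat_lit 12) nil nil) nil) nil) nil))) (node (nat_lit 0) (nat_lit 0) (nat_lit 8) (node
  (nat_lit 4) (nat_lit 79317) (nat_lit 9) (node (nat_lit 7) (nat_lit 80181) (nat_lit 10) (node
  (nat_lit 5) (nat_lit 78401) (nat_lit 11) nil (node (nat_lit 4) (nat_lit 81957) (nat_lit 11) nil
  nil)) (node (nat_lit 5) (nat_lit 85629) (nat_lit 10) (node (nat_lit 4) (nat_lit 83849) (nat_lit
  11) nil nil) (node (nat_lit 11) (nat_lit 81821) (nat_lit 10) nil nil))) (node (nat_lit 7)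
  (nat_lit 79578) (nat_lit 9) (node (nat_lit 4) (nat_lit 82041) (nat_lit 10) (node (nat_lit 7)
  (nat_lit 83817) (nat_lit 11) nil (node (nat_lit 5) (nat_lit 83817) (nat_lit 11) nil nil)) (node
  (nat_lit 5) (nat_lit 80935) (nat_lit 10) (node (nat_lit 7) (nat_lit 85223) (nat_lit 11) nil nil)
  (node (nat_lit 11) (nat_lit 87814) (nat_lit 10) nil nil))) (node (nat_lit 5) (nat_lit 78729)
  (nat_lit 9) (node (nat_lit 7) (nat_lit 78729) (nat_lit 10) nil (node (nat_lit 4) (nat_lit 78729)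
  (nat_lit 10) nil nil)) (node (nat_lit 0) (nat_lit 78180) (nat_lit 9) nil nil)))) nil)) (node
  (nat_lit 0) (nat_lit 0) (nat_lit 7) (node (nat_lit 4) (nat_lit 74095) (nat_lit 8) (node (nat_lit
  7) (nat_lit 83222) (nat_lit 9) (node (nat_lit 5) (nat_lit 91883) (nat_lit 10) (node (nat_lit 7)
  (nat_lit 90426) (nat_lit 11) (node (nat_lit 4) (nat_lit 89181) (nat_lit 12) (node (nat_lit 5)
  (nat_lit 86925) (nat_lit 13) nil nil) nil) (node (nat_lit 4) (nat_lit 92374) (nat_lit 11) nil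
  nil)) (node (nat_lit 4) (nat_lit 86563) (nat_lit 10) nil nil)) (node (nat_lit 5) (nat_lit 82839)
  (nat_lit 9) (node (nat_lit 7) (nat_lit 88582) (nat_lit 10) (node (nat_lit 5) (nat_lit 89408)
  (nat_lit 11) nil (node (nat_lit 4) (nat_lit 90358) (nat_lit 11) nil nil)) (node (nat_lit 4)
  (nat_lit 88601) (nat_lit 10) (node (nat_lit 7) (nat_lit 84786) (nat_lit 11) nil nil) nil)) nil))
  (node (nat_lit 5) (nat_lit 73448) (nat_lit 8) (node (nat_lit 7) (nat_lit 83238) (nat_lit 9)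
  (node (nat_lit 4) (nat_lit 92173) (nat_lit 10) (node (nat_lit 7) (nat_lit 93886) (nat_lit 11)
  (node (nat_lit 5) (nat_lit 91748) (nat_lit 12) nil nil) (node (nat_lit 5) (nat_lit 93950)
  (nat_lit 11) nil nil)) (node (nat_lit 5) (nat_lit 86297) (nat_lit 10) nil nil)) (node (nat_lit
  4) (nat_lit 82192) (nat_lit 9) (node (nat_lit 7) (nat_lit 88749) (nat_lit 10) (node (nat_lit 4)
  (nat_lit 90526) (nat_lit 11) nil nil) (node (nat_lit 5) (nat_lit 88877) (nat_lit 10) (node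
  (nat_lit 7) (nat_lit 84669) (nat_lit 11) nil nil) nil)) (node (nat_lit 10) (nat_lit 87060)
  (nat_lit 9) nil nil))) (node (nat_lit 7) (nat_lit 74807) (nat_lit 8) (node (nat_lit 4) (nat_lit
  83328) (nat_lit 9) (node (nat_lit 5) (nat_lit 90402) (nat_lit 10) (node (nat_lit 4) (nat_lit
  91783) (nat_lit 11) nil (node (nat_lit 7) (nat_lit 92178) (nat_lit 11) nil nil)) (node (nat_lit
  7) (nat_lit 90635) (nat_lit 10) nil nil)) (node (nat_lit 5) (nat_lit 82629) (nat_lit 9) (node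
  (nat_lit 4) (nat_lit 89799) (nat_lit 10) (node (nat_lit 7) (nat_lit 90635) (nat_lit 11) (node
  (nat_lit 4) (nat_lit 83861) (nat_lit 12) nil nil) nil) (node (nat_lit 7) (nat_lit 89315)
  (nat_lit 10) nil nil)) (node (nat_lit 10) (nat_lit 86354) (nat_lit 9) nil nil))) (node (nat_lit
  0) (nat_lit 81491) (nat_lit 8) nil nil)))) nil)) nil)) (node (nat_lit 4) (nat_lit 0) (nat_lit 5)
  (node (nat_lit 5) (nat_lit 0) (nat_lit 6) (node (nat_lit 7) (nat_lit 0) (nat_lit 7) (node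
  (nat_lit 5) (nat_lit 0) (nat_lit 8) (node (nat_lit 0) (nat_lit 0) (nat_lit 9) (node (nat_lit 5)
  (nat_lit 0) (nat_lit 10) (node (nat_lit 4) (nat_lit 58948) (nat_lit 11) (node (nat_lit 5)
  (nat_lit 62560) (nat_lit 12) (node (nat_lit 7) (nat_lit 62080) (nat_lit 13) nil nil) (node
  (nat_lit 7) (nat_lit 62556) (nat_lit 12) (node (nat_lit 5) (nat_lit 61334) (nat_lit 13) nil
  (node (nat_lit 4) (nat_lit 64005) (nat_lit 13) nil nil)) nil)) (node (nat_lit 7) (nat_lit 58892)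
  (nat_lit 11) (node (nat_lit 4) (nat_lit 62504) (nat_lit 12) (node (nat_lit 5) (nat_lit 63954)
  (nat_lit 13) nil (node (nat_lit 7) (nat_lit 63954) (nat_lit 13) nil nil)) (node (nat_lit 5)
  (nat_lit 61841) (nat_lit 12) nil (node (nat_lit 12) (nat_lit 63330) (nat_lit 12) nil nil)))
  (node (nat_lit 0) (nat_lit 62440) (nat_lit 11) nil nil))) (node (nat_lit 7) (nat_lit 57069)
  (nat_lit 10) (node (nat_lit 5) (nat_lit 59315) (nat_lit 11) (node (nat_lit 7) (nat_lit 62263)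
  (nat_lit 12) nil nil) (node (nat_lit 12) (nat_lit 62862) (nat_lit 11) nil nil)) (node (nat_lit
  4) (nat_lit 56647) (nat_lit 10) (node (nat_lit 5) (nat_lit 58892) (nat_lit 11) (node (nat_lit 4)
  (nat_lit 57419) (nat_lit 12) nil nil) (node (nat_lit 12) (nat_lit 62440) (nat_lit 11) nil nil))
  (node (nat_lit 0) (nat_lit 59901) (nat_lit 10) (node (nat_lit 5) (nat_lit 59901) (nat_lit 11)
  nil nil) nil)))) (node (nat_lit 4) (nat_lit 0) (nat_lit 9) (node (nat_lit 0) (nat_lit 59956)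
  (nat_lit 10) (node (nat_lit 5) (nat_lit 60806) (nat_lit 11) (node (nat_lit 4) (nat_lit 62560)
  (nat_lit 12) (node (nat_lit 5) (nat_lit 62707) (nat_lit 13) (node (nat_lit 7) (nat_lit 64722)
  (nat_lit 14) nil (node (nat_lit 13) (nat_lit 65410) (nat_lit 14) nil nil)) (node (nat_lit 7)
  (nat_lit 63251) (nat_lit 13) nil (node (nat_lit 0) (nat_lit 66024) (nat_lit 13) nil nil))) nil)
  (node (nat_lit 4) (nat_lit 59956) (nat_lit 11) nil nil)) nil) nil)) (node (nat_lit 0) (nat_lit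
  0) (nat_lit 8) (node (nat_lit 4) (nat_lit 56441) (nat_lit 9) (node (nat_lit 7) (nat_lit 59322)
  (nat_lit 10) (node (nat_lit 4) (nat_lit 63343) (nat_lit 11) nil (node (nat_lit 5) (nat_lit
  58938) (nat_lit 11) nil nil)) (node (nat_lit 5) (nat_lit 59322) (nat_lit 10) (node (nat_lit 7)
  (nat_lit 62493) (nat_lit 11) nil (node (nat_lit 4) (nat_lit 57542) (nat_lit 11) nil nil)) (node
  (nat_lit 11) (nat_lit 62130) (nat_lit 10) nil nil))) (node (nat_lit 5) (nat_lit 0) (nat_lit 9)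
  (node (nat_lit 4) (nat_lit 59322) (nat_lit 10) (node (nat_lit 7) (nat_lit 59787) (nat_lit 11)
  nil (node (nat_lit 5) (nat_lit 59787) (nat_lit 11) (node (nat_lit 7) (nat_lit 61227) (nat_lit
  12) nil nil) nil)) (node (nat_lit 7) (nat_lit 59322) (nat_lit 10) (node (nat_lit 5) (nat_lit
  61735) (nat_lit 11) nil (node (nat_lit 4) (nat_lit 62493) (nat_lit 11) nil nil)) (node (nat_lit
  11) (nat_lit 61451) (nat_lit 10) nil (node (nat_lit 0) (nat_lit 58267) (nat_lit 10) nil nil))))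
  (node (nat_lit 7) (nat_lit 56829) (nat_lit 9) (node (nat_lit 5) (nat_lit 59709) (nat_lit 10)
  (node (nat_lit 7) (nat_lit 62881) (nat_lit 11) nil (node (nat_lit 4) (nat_lit 57930) (nat_lit
  11) nil nil)) (node (nat_lit 4) (nat_lit 59314) (nat_lit 10) (node (nat_lit 7) (nat_lit 61091)
  (nat_lit 11) nil (node (nat_lit 5) (nat_lit 61091) (nat_lit 11) nil nil)) nil)) (node (nat_lit
  0) (nat_lit 59722) (nat_lit 9) nil nil)))) (node (nat_lit 4) (nat_lit 0) (nat_lit 8) (node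
  (nat_lit 0) (nat_lit 0) (nat_lit 9) (node (nat_lit 4) (nat_lit 0) (nat_lit 10) (node (nat_lit 7)
  (nat_lit 58575) (nat_lit 11) (node (nat_lit 4) (nat_lit 61524) (nat_lit 12) nil (node (nat_lit
  12) (nat_lit 63014) (nat_lit 12) nil (node (nat_lit 5) (nat_lit 57102) (nat_lit 12) nil nil)))
  (node (nat_lit 5) (nat_lit 58857) (nat_lit 11) (node (nat_lit 7) (nat_lit 61806) (nat_lit 12)
  nil (node (nat_lit 4) (nat_lit 61806) (nat_lit 12) nil nil)) (node (nat_lit 0) (nat_lit 59888)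
  (nat_lit 11) nil nil))) (node (nat_lit 7) (nat_lit 57069) (nat_lit 10) (node (nat_lit 12)
  (nat_lit 60377) (nat_lit 11) nil (node (nat_lit 4) (nat_lit 57069) (nat_lit 11) nil nil)) (node
  (nat_lit 5) (nat_lit 55523) (nat_lit 10) nil (node (nat_lit 0) (nat_lit 58775) (nat_lit 10) nil
  nil)))) (node (nat_lit 7) (nat_lit 0) (nat_lit 9) (node (nat_lit 0) (nat_lit 60232) (nat_lit 10)
  (node (nat_lit 4) (nat_lit 61081) (nat_lit 11) (node (nat_lit 7) (nat_lit 61081) (nat_lit 12)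
  nil nil) (node (nat_lit 7) (nat_lit 60232) (nat_lit 11) nil nil)) nil) nil)) nil))) (node
  (nat_lit 0) (nat_lit 0) (nat_lit 7) (node (nat_lit 4) (nat_lit 50011) (nat_lit 8) (node (nat_lit
  7) (nat_lit 56727) (nat_lit 9) (node (nat_lit 5) (nat_lit 61974) (nat_lit 10) (node (nat_lit 7)
  (nat_lit 60602) (nat_lit 11) (node (nat_lit 4) (nat_lit 59267) (nat_lit 12) (node (nat_lit 5)
  (nat_lit 58226) (nat_lit 13) (node (nat_lit 4) (nat_lit 52381) (nat_lit 14) (node (nat_lit 7)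
  (nat_lit 43203) (nat_lit 15) (node (nat_lit 4) (nat_lit 29855) (nat_lit 16) (node (nat_lit 5)
  (nat_lit 18571) (nat_lit 17) nil nil) nil) nil) nil) nil) nil) nil) nil) (node (nat_lit 5)
  (nat_lit 54323) (nat_lit 9) nil nil)) (node (nat_lit 7) (nat_lit 52417) (nat_lit 8) (node
  (nat_lit 5) (nat_lit 56730) (nat_lit 9) (node (nat_lit 4) (nat_lit 55112) (nat_lit 10) nil nil)
  (node (nat_lit 4) (nat_lit 54218) (nat_lit 9) nil nil)) (node (nat_lit 5) (nat_lit 50011)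
  (nat_lit 8) (node (nat_lit 4) (nat_lit 54323) (nat_lit 9) (node (nat_lit 5) (nat_lit 52706)
  (nat_lit 10) nil nil) (node (nat_lit 7) (nat_lit 56727) (nat_lit 9) (node (nat_lit 4) (nat_lit
  60068) (nat_lit 10) nil nil) nil)) (node (nat_lit 0) (nat_lit 49932) (nat_lit 8) nil nil))))
  nil)) nil) nil))

noncomputable def c65 : Tr :=
  (node (nat_lit 3) (nat_lit 0) (nat_lit 1) (node (nat_lit 3) (nat_lit 0) (nat_lit 2) (node
  (nat_lit 3) (nat_lit 0) (nat_lit 3) t460 (node (nat_lit 4) (nat_lit 0) (nat_lit 3) (node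
  (nat_lit 3) (nat_lit 0) (nat_lit 4) t461 nil) nil)) nil) nil)

noncomputable def t462 : Tr :=
  (node (nat_lit 4) (nat_lit 0) (nat_lit 4) (node (nat_lit 6) (nat_lit 0) (nat_lit 5) (node
  (nat_lit 5) (nat_lit 0) (nat_lit 6) (node (nat_lit 4) (nat_lit 0) (nat_lit 7) (node (nat_lit 5)
  (nat_lit 0) (nat_lit 8) (node (nat_lit 6) (nat_lit 0) (nat_lit 9) (node (nat_lit 5) (nat_lit 0)
  (nat_lit 10) (node (nat_lit 0) (nat_lit 63988) (nat_lit 11) (node (nat_lit 6) (nat_lit 66672)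
  (nat_lit 12) (node (nat_lit 5) (nat_lit 71078) (nat_lit 13) (node (nat_lit 4) (nat_lit 75545)
  (nat_lit 14) (node (nat_lit 6) (nat_lit 78473) (nat_lit 15) (node (nat_lit 4) (nat_lit 80117)
  (nat_lit 16) (node (nat_lit 5) (nat_lit 77192) (nat_lit 17) nil nil) (node (nat_lit 5) (nat_lit
  79766) (nat_lit 16) nil nil)) (node (nat_lit 5) (nat_lit 76780) (nat_lit 15) (node (nat_lit 6)
  (nat_lit 76967) (nat_lit 16) nil nil) (node (nat_lit 14) (nat_lit 78493) (nat_lit 15) nil nil)))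
  (node (nat_lit 6) (nat_lit 74522) (nat_lit 14) (node (nat_lit 4) (nat_lit 77608) (nat_lit 15)
  (node (nat_lit 5) (nat_lit 78902) (nat_lit 16) nil (node (nat_lit 6) (nat_lit 77795) (nat_lit
  16) nil nil)) (node (nat_lit 14) (nat_lit 78497) (nat_lit 15) (node (nat_lit 5) (nat_lit 78497)
  (nat_lit 16) nil (node (nat_lit 6) (nat_lit 78497) (nat_lit 16) nil nil)) (node (nat_lit 0)
  (nat_lit 77470) (nat_lit 15) nil nil))) (node (nat_lit 0) (nat_lit 74854) (nat_lit 14) nil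
  nil))) (node (nat_lit 14) (nat_lit 73200) (nat_lit 13) nil nil)) (node (nat_lit 5) (nat_lit
  66157) (nat_lit 12) (node (nat_lit 6) (nat_lit 71182) (nat_lit 13) (node (nat_lit 14) (nat_lit
  76279) (nat_lit 14) nil nil) nil) (node (nat_lit 4) (nat_lit 67366) (nat_lit 12) nil nil))) nil)
  (node (nat_lit 0) (nat_lit 0) (nat_lit 10) (node (nat_lit 6) (nat_lit 0) (nat_lit 11) (node
  (nat_lit 4) (nat_lit 67425) (nat_lit 12) (node (nat_lit 6) (nat_lit 67680) (nat_lit 13) nil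
  (node (nat_lit 5) (nat_lit 70143) (nat_lit 13) nil nil)) (node (nat_lit 5) (nat_lit 66542)
  (nat_lit 12) (node (nat_lit 4) (nat_lit 70948) (nat_lit 13) nil (node (nat_lit 6) (nat_lit
  69260) (nat_lit 13) nil (node (nat_lit 13) (nat_lit 71381) (nat_lit 13) nil nil))) (node
  (nat_lit 0) (nat_lit 67091) (nat_lit 12) nil nil))) (node (nat_lit 5) (nat_lit 60508) (nat_lit
  11) (node (nat_lit 13) (nat_lit 67932) (nat_lit 12) nil (node (nat_lit 6) (nat_lit 66542)
  (nat_lit 12) nil nil)) (node (nat_lit 4) (nat_lit 61289) (nat_lit 11) nil (node (nat_lit 0)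
  (nat_lit 63988) (nat_lit 11) nil nil)))) (node (nat_lit 4) (nat_lit 0) (nat_lit 10) (node
  (nat_lit 0) (nat_lit 46756) (nat_lit 11) (node (nat_lit 6) (nat_lit 47699) (nat_lit 12) nil nil)
  nil) nil))) (node (nat_lit 0) (nat_lit 0) (nat_lit 9) (node (nat_lit 4) (nat_lit 110479)
  (nat_lit 10) (node (nat_lit 5) (nat_lit 119202) (nat_lit 11) (node (nat_lit 4) (nat_lit 121866)
  (nat_lit 12) (node (nat_lit 6) (nat_lit 119784) (nat_lit 13) (node (nat_lit 5) (nat_lit 121221)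
  (nat_lit 14) nil nil) nil) nil) (node (nat_lit 6) (nat_lit 113759) (nat_lit 11) nil (node
  (nat_lit 12) (nat_lit 118425) (nat_lit 11) nil nil))) (node (nat_lit 6) (nat_lit 116344)
  (nat_lit 10) (node (nat_lit 4) (nat_lit 120710) (nat_lit 11) nil (node (nat_lit 5) (nat_lit
  125081) (nat_lit 11) (node (nat_lit 6) (nat_lit 128562) (nat_lit 12) nil nil) (node (nat_lit 12)
  (nat_lit 124290) (nat_lit 11) nil nil))) (node (nat_lit 5) (nat_lit 111140) (nat_lit 10) nil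
  (node (nat_lit 0) (nat_lit 116300) (nat_lit 10) nil nil)))) nil)) (node (nat_lit 6) (nat_lit 0)
  (nat_lit 8) (node (nat_lit 0) (nat_lit 0) (nat_lit 9) (node (nat_lit 5) (nat_lit 131231)
  (nat_lit 10) (node (nat_lit 6) (nat_lit 140076) (nat_lit 11) (node (nat_lit 5) (nat_lit 139951)
  (nat_lit 12) nil (node (nat_lit 4) (nat_lit 143557) (nat_lit 12) nil nil)) (node (nat_lit 4)
  (nat_lit 138636) (nat_lit 11) (node (nat_lit 6) (nat_lit 134947) (nat_lit 12) nil nil) (node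
  (nat_lit 12) (nat_lit 139176) (nat_lit 11) nil nil))) (node (nat_lit 4) (nat_lit 131231)
  (nat_lit 10) (node (nat_lit 5) (nat_lit 139966) (nat_lit 11) (node (nat_lit 4) (nat_lit 139695)
  (nat_lit 12) nil (node (nat_lit 6) (nat_lit 140272) (nat_lit 12) nil nil)) (node (nat_lit 6)
  (nat_lit 139966) (nat_lit 11) nil (node (nat_lit 12) (nat_lit 139176) (nat_lit 11) nil nil)))
  (node (nat_lit 6) (nat_lit 131893) (nat_lit 10) (node (nat_lit 4) (nat_lit 140629) (nat_lit 11)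
  nil (node (nat_lit 5) (nat_lit 140629) (nat_lit 11) nil nil)) (node (nat_lit 0) (nat_lit 132014)
  (nat_lit 10) nil nil)))) (node (nat_lit 4) (nat_lit 0) (nat_lit 9) (node (nat_lit 0) (nat_lit 0)
  (nat_lit 10) (node (nat_lit 4) (nat_lit 139918) (nat_lit 11) (node (nat_lit 5) (nat_lit 141481)
  (nat_lit 12) nil (node (nat_lit 6) (nat_lit 141449) (nat_lit 12) nil nil)) (node (nat_lit 6)
  (nat_lit 140629) (nat_lit 11) nil (node (nat_lit 5) (nat_lit 139918) (nat_lit 11) nil (node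
  (nat_lit 0) (nat_lit 139128) (nat_lit 11) nil nil)))) (node (nat_lit 5) (nat_lit 0) (nat_lit 10)
  (node (nat_lit 0) (nat_lit 143398) (nat_lit 11) (node (nat_lit 4) (nat_lit 146703) (nat_lit 12)
  nil nil) nil) nil)) nil)) (node (nat_lit 0) (nat_lit 0) (nat_lit 8) (node (nat_lit 4) (nat_lit
  126435) (nat_lit 9) (node (nat_lit 6) (nat_lit 139586) (nat_lit 10) (node (nat_lit 5) (nat_lit
  144568) (nat_lit 11) (node (nat_lit 4) (nat_lit 134712) (nat_lit 12) (node (nat_lit 5) (nat_lit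
  133495) (nat_lit 13) (node (nat_lit 6) (nat_lit 129484) (nat_lit 14) (node (nat_lit 4) (nat_lit
  121414) (nat_lit 15) (node (nat_lit 6) (nat_lit 111748) (nat_lit 16) (node (nat_lit 5) (nat_lit
  90305) (nat_lit 17) nil nil) nil) nil) nil) nil) nil) nil) (node (nat_lit 5) (nat_lit 136295)
  (nat_lit 10) (node (nat_lit 4) (nat_lit 134355) (nat_lit 11) nil (node (nat_lit 6) (nat_lit
  134529) (nat_lit 11) nil nil)) nil)) (node (nat_lit 5) (nat_lit 125715) (nat_lit 9) (node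
  (nat_lit 6) (nat_lit 138868) (nat_lit 10) (node (nat_lit 4) (nat_lit 140686) (nat_lit 11) nil
  (node (nat_lit 5) (nat_lit 143850) (nat_lit 11) nil nil)) (node (nat_lit 4) (nat_lit 136054)
  (nat_lit 10) (node (nat_lit 6) (nat_lit 144292) (nat_lit 11) (node (nat_lit 4) (nat_lit 139087)
  (nat_lit 12) nil nil) (node (nat_lit 5) (nat_lit 137972) (nat_lit 11) nil nil)) (node (nat_lit
  11) (nat_lit 132068) (nat_lit 10) nil nil))) (node (nat_lit 6) (nat_lit 130523) (nat_lit 9)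
  (node (nat_lit 5) (nat_lit 140432) (nat_lit 10) (node (nat_lit 4) (nat_lit 141432) (nat_lit 11)
  (node (nat_lit 6) (nat_lit 142985) (nat_lit 12) nil nil) nil) (node (nat_lit 4) (nat_lit 140432)
  (nat_lit 10) (node (nat_lit 5) (nat_lit 142349) (nat_lit 11) nil nil) (node (nat_lit 11)
  (nat_lit 136876) (nat_lit 10) nil nil))) (node (nat_lit 0) (nat_lit 134958) (nat_lit 9) nil
  nil)))) nil))) (node (nat_lit 6) (nat_lit 0) (nat_lit 7) (node (nat_lit 4) (nat_lit 0) (nat_lit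
  8) (node (nat_lit 0) (nat_lit 0) (nat_lit 9) (node (nat_lit 5) (nat_lit 156986) (nat_lit 10)
  (node (nat_lit 4) (nat_lit 161351) (nat_lit 11) (node (nat_lit 5) (nat_lit 164832) (nat_lit 12)
  nil (node (nat_lit 6) (nat_lit 158786) (nat_lit 12) nil nil)) (node (nat_lit 6) (nat_lit 163986)
  (nat_lit 11) (node (nat_lit 4) (nat_lit 167467) (nat_lit 12) nil (node (nat_lit 5) (nat_lit
  162529) (nat_lit 12) nil nil)) (node (nat_lit 12) (nat_lit 164931) (nat_lit 11) nil nil))) (node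
  (nat_lit 6) (nat_lit 159036) (nat_lit 10) (node (nat_lit 4) (nat_lit 163401) (nat_lit 11) (node
  (nat_lit 6) (nat_lit 167806) (nat_lit 12) nil (node (nat_lit 5) (nat_lit 166882) (nat_lit 12)
  nil nil)) (node (nat_lit 5) (nat_lit 166274) (nat_lit 11) (node (nat_lit 6) (nat_lit 169755)
  (nat_lit 12) nil (node (nat_lit 4) (nat_lit 166003) (nat_lit 12) nil nil)) (node (nat_lit 12)
  (nat_lit 166982) (nat_lit 11) nil nil))) (node (nat_lit 4) (nat_lit 155249) (nat_lit 10) (node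
  (nat_lit 6) (nat_lit 164836) (nat_lit 11) (node (nat_lit 4) (nat_lit 168317) (nat_lit 12) nil
  nil) (node (nat_lit 5) (nat_lit 163111) (nat_lit 11) nil nil)) (node (nat_lit 0) (nat_lit
  163639) (nat_lit 10) nil nil)))) (node (nat_lit 5) (nat_lit 0) (nat_lit 9) (node (nat_lit 0)
  (nat_lit 0) (nat_lit 10) (node (nat_lit 5) (nat_lit 0) (nat_lit 11) (node (nat_lit 4) (nat_lit
  170419) (nat_lit 12) (node (nat_lit 6) (nat_lit 171389) (nat_lit 13) nil (node (nat_lit 5)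
  (nat_lit 173137) (nat_lit 13) nil nil)) (node (nat_lit 6) (nat_lit 169443) (nat_lit 12) (node
  (nat_lit 4) (nat_lit 172162) (nat_lit 13) nil (node (nat_lit 5) (nat_lit 170974) (nat_lit 13)
  nil nil)) (node (nat_lit 0) (nat_lit 172743) (nat_lit 12) nil nil))) (node (nat_lit 4) (nat_lit
  165985) (nat_lit 11) (node (nat_lit 13) (nat_lit 172184) (nat_lit 12) nil nil) (node (nat_lit 0)
  (nat_lit 169857) (nat_lit 11) nil (node (nat_lit 6) (nat_lit 167391) (nat_lit 11) nil nil))))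
  (node (nat_lit 4) (nat_lit 0) (nat_lit 10) (node (nat_lit 0) (nat_lit 170492) (nat_lit 11) (node
  (nat_lit 5) (nat_lit 171435) (nat_lit 12) (node (nat_lit 4) (nat_lit 171977) (nat_lit 13) (node
  (nat_lit 6) (nat_lit 171945) (nat_lit 14) nil nil) nil) (node (nat_lit 4) (nat_lit 171435)
  (nat_lit 12) nil nil)) nil) (node (nat_lit 6) (nat_lit 0) (nat_lit 10) (node (nat_lit 0)
  (nat_lit 172068) (nat_lit 11) (node (nat_lit 5) (nat_lit 171124) (nat_lit 12) nil nil) nil)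
  nil))) nil)) (node (nat_lit 0) (nat_lit 0) (nat_lit 8) (node (nat_lit 4) (nat_lit 160192)
  (nat_lit 9) (node (nat_lit 6) (nat_lit 167918) (nat_lit 10) (node (nat_lit 5) (nat_lit 165482)
  (nat_lit 11) (node (nat_lit 4) (nat_lit 159894) (nat_lit 12) (node (nat_lit 5) (nat_lit 158677)
  (nat_lit 13) (node (nat_lit 6) (nat_lit 154334) (nat_lit 14) nil nil) nil) (node (nat_lit 6)
  (nat_lit 167172) (nat_lit 12) nil nil)) (node (nat_lit 4) (nat_lit 169835) (nat_lit 11) nil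
  nil)) (node (nat_lit 5) (nat_lit 164768) (nat_lit 10) (node (nat_lit 6) (nat_lit 169313)
  (nat_lit 11) nil (node (nat_lit 4) (nat_lit 162828) (nat_lit 11) nil nil)) (node (nat_lit 11)
  (nat_lit 166545) (nat_lit 10) nil nil))) (node (nat_lit 5) (nat_lit 160089) (nat_lit 9) (node
  (nat_lit 4) (nat_lit 166869) (nat_lit 10) (node (nat_lit 6) (nat_lit 170200) (nat_lit 11) (node
  (nat_lit 4) (nat_lit 172225) (nat_lit 12) (node (nat_lit 5) (nat_lit 171507) (nat_lit 13) (node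
  (nat_lit 6) (nat_lit 166847) (nat_lit 14) nil nil) nil) nil) (node (nat_lit 5) (nat_lit 168786)
  (nat_lit 11) nil nil)) (node (nat_lit 6) (nat_lit 166139) (nat_lit 10) (node (nat_lit 4)
  (nat_lit 168056) (nat_lit 11) nil (node (nat_lit 5) (nat_lit 163487) (nat_lit 11) nil nil))
  (node (nat_lit 11) (nat_lit 166441) (nat_lit 10) nil nil))) (node (nat_lit 6) (nat_lit 162430)
  (nat_lit 9) (node (nat_lit 5) (nat_lit 170422) (nat_lit 10) (node (nat_lit 4) (nat_lit 171256)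
  (nat_lit 11) nil (node (nat_lit 6) (nat_lit 172339) (nat_lit 11) nil nil)) (node (nat_lit 4)
  (nat_lit 166719) (nat_lit 10) (node (nat_lit 5) (nat_lit 168636) (nat_lit 11) nil nil) nil))
  (node (nat_lit 0) (nat_lit 164931) (nat_lit 9) nil nil)))) nil)) nil)) nil) (node (nat_lit 5)
  (nat_lit 0) (nat_lit 5) (node (nat_lit 4) (nat_lit 0) (nat_lit 6) (node (nat_lit 6) (nat_lit 0)
  (nat_lit 7) (node (nat_lit 5) (nat_lit 0) (nat_lit 8) (node (nat_lit 6) (nat_lit 0) (nat_lit 9)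
  (node (nat_lit 0) (nat_lit 0) (nat_lit 10) (node (nat_lit 6) (nat_lit 0) (nat_lit 11) (node
  (nat_lit 4) (nat_lit 123174) (nat_lit 12) (node (nat_lit 5) (nat_lit 124380) (nat_lit 13) nil
  (node (nat_lit 6) (nat_lit 125071) (nat_lit 13) nil nil)) (node (nat_lit 5) (nat_lit 125058)
  (nat_lit 12) (node (nat_lit 4) (nat_lit 126264) (nat_lit 13) nil nil) (node (nat_lit 0) (nat_lit
  125354) (nat_lit 12) nil nil))) (node (nat_lit 5) (nat_lit 121727) (nat_lit 11) (node (nat_lit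
  6) (nat_lit 124287) (nat_lit 12) nil (node (nat_lit 13) (nat_lit 124480) (nat_lit 12) nil nil))
  (node (nat_lit 4) (nat_lit 122474) (nat_lit 11) (node (nat_lit 6) (nat_lit 122803) (nat_lit 12)
  nil (node (nat_lit 13) (nat_lit 125227) (nat_lit 12) nil nil)) (node (nat_lit 0) (nat_lit
  124222) (nat_lit 11) nil nil)))) (node (nat_lit 4) (nat_lit 0) (nat_lit 10) (node (nat_lit 0)
  (nat_lit 125058) (nat_lit 11) (node (nat_lit 6) (nat_lit 125058) (nat_lit 12) (node (nat_lit 4)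
  (nat_lit 126264) (nat_lit 13) (node (nat_lit 6) (nat_lit 125320) (nat_lit 14) nil (node (nat_lit
  5) (nat_lit 127207) (nat_lit 14) nil nil)) nil) nil) nil) nil)) (node (nat_lit 0) (nat_lit 0)
  (nat_lit 9) (node (nat_lit 4) (nat_lit 117068) (nat_lit 10) (node (nat_lit 5) (nat_lit 119669)
  (nat_lit 11) (node (nat_lit 4) (nat_lit 121216) (nat_lit 12) nil (node (nat_lit 6) (nat_lit
  118041) (nat_lit 12) nil nil)) (node (nat_lit 6) (nat_lit 119655) (nat_lit 11) (node (nat_lit 5)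
  (nat_lit 119787) (nat_lit 12) nil nil) (node (nat_lit 12) (nat_lit 120598) (nat_lit 11) nil
  nil))) (node (nat_lit 6) (nat_lit 119418) (nat_lit 10) (node (nat_lit 5) (nat_lit 122968)
  (nat_lit 11) (node (nat_lit 6) (nat_lit 124515) (nat_lit 12) nil (node (nat_lit 4) (nat_lit
  124515) (nat_lit 12) nil nil)) (node (nat_lit 4) (nat_lit 122471) (nat_lit 11) (node (nat_lit 6)
  (nat_lit 120843) (nat_lit 12) nil (node (nat_lit 5) (nat_lit 124018) (nat_lit 12) nil nil))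
  (node (nat_lit 12) (nat_lit 122948) (nat_lit 11) nil nil))) (node (nat_lit 5) (nat_lit 118991)
  (nat_lit 10) (node (nat_lit 6) (nat_lit 121248) (nat_lit 11) (node (nat_lit 5) (nat_lit 120428)
  (nat_lit 12) nil nil) (node (nat_lit 4) (nat_lit 119668) (nat_lit 11) nil nil)) (node (nat_lit
  0) (nat_lit 121537) (nat_lit 10) nil nil)))) (node (nat_lit 4) (nat_lit 0) (nat_lit 9) (node
  (nat_lit 0) (nat_lit 114690) (nat_lit 10) (node (nat_lit 4) (nat_lit 116424) (nat_lit 11) (node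
  (nat_lit 5) (nat_lit 116998) (nat_lit 12) nil (node (nat_lit 6) (nat_lit 118644) (nat_lit 12)
  (node (nat_lit 4) (nat_lit 119851) (nat_lit 13) nil (node (nat_lit 5) (nat_lit 115170) (nat_lit
  13) nil nil)) nil)) (node (nat_lit 5) (nat_lit 116182) (nat_lit 11) nil (node (nat_lit 0)
  (nat_lit 116237) (nat_lit 11) nil nil))) (node (nat_lit 5) (nat_lit 0) (nat_lit 10) (node
  (nat_lit 0) (nat_lit 116399) (nat_lit 11) (node (nat_lit 4) (nat_lit 116399) (nat_lit 12) nil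
  (node (nat_lit 5) (nat_lit 116399) (nat_lit 12) nil nil)) nil) nil)) nil))) (node (nat_lit 4)
  (nat_lit 0) (nat_lit 8) (node (nat_lit 0) (nat_lit 0) (nat_lit 9) (node (nat_lit 6) (nat_lit
  117987) (nat_lit 10) (node (nat_lit 5) (nat_lit 121537) (nat_lit 11) nil (node (nat_lit 4)
  (nat_lit 118664) (nat_lit 11) nil nil)) (node (nat_lit 5) (nat_lit 116969) (nat_lit 10) (node
  (nat_lit 6) (nat_lit 116561) (nat_lit 11) nil (node (nat_lit 4) (nat_lit 118952) (nat_lit 11)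
  nil nil)) (node (nat_lit 4) (nat_lit 116661) (nat_lit 10) nil (node (nat_lit 0) (nat_lit 120107)
  (nat_lit 10) nil nil)))) (node (nat_lit 5) (nat_lit 0) (nat_lit 9) (node (nat_lit 0) (nat_lit
  120472) (nat_lit 10) (node (nat_lit 5) (nat_lit 119166) (nat_lit 11) (node (nat_lit 4) (nat_lit
  120713) (nat_lit 12) nil (node (nat_lit 6) (nat_lit 117538) (nat_lit 12) nil nil)) (node
  (nat_lit 4) (nat_lit 119166) (nat_lit 11) nil (node (nat_lit 6) (nat_lit 122039) (nat_lit 11)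
  nil nil))) (node (nat_lit 6) (nat_lit 0) (nat_lit 10) (node (nat_lit 0) (nat_lit 125058)
  (nat_lit 11) nil nil) nil)) nil)) (node (nat_lit 0) (nat_lit 113813) (nat_lit 8) (node (nat_lit
  4) (nat_lit 117273) (nat_lit 9) (node (nat_lit 5) (nat_lit 117518) (nat_lit 10) (node (nat_lit
  6) (nat_lit 114716) (nat_lit 11) nil nil) (node (nat_lit 6) (nat_lit 114640) (nat_lit 10) nil
  nil)) (node (nat_lit 6) (nat_lit 118845) (nat_lit 9) (node (nat_lit 4) (nat_lit 119090) (nat_lit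
  10) nil (node (nat_lit 5) (nat_lit 120784) (nat_lit 10) nil nil)) (node (nat_lit 5) (nat_lit
  116357) (nat_lit 9) (node (nat_lit 6) (nat_lit 113724) (nat_lit 10) nil (node (nat_lit 4)
  (nat_lit 118296) (nat_lit 10) nil nil)) nil))) nil))) nil) nil) nil)) (node (nat_lit 5) (nat_lit
  0) (nat_lit 4) (node (nat_lit 4) (nat_lit 0) (nat_lit 5) (node (nat_lit 6) (nat_lit 0) (nat_lit
  6) (node (nat_lit 4) (nat_lit 0) (nat_lit 7) (node (nat_lit 5) (nat_lit 0) (nat_lit 8) (node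
  (nat_lit 4) (nat_lit 0) (nat_lit 9) (node (nat_lit 0) (nat_lit 0) (nat_lit 10) (node (nat_lit 4)
  (nat_lit 0) (nat_lit 11) (node (nat_lit 6) (nat_lit 89681) (nat_lit 12) (node (nat_lit 5)
  (nat_lit 94433) (nat_lit 13) (node (nat_lit 6) (nat_lit 94144) (nat_lit 14) nil (node (nat_lit
  4) (nat_lit 89753) (nat_lit 14) nil nil)) (node (nat_lit 4) (nat_lit 95007) (nat_lit 13) (node
  (nat_lit 5) (nat_lit 97128) (nat_lit 14) nil nil) (node (nat_lit 13) (nat_lit 94520) (nat_lit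
  13) nil nil))) (node (nat_lit 5) (nat_lit 89993) (nat_lit 12) (node (nat_lit 6) (nat_lit 92857)
  (nat_lit 13) (node (nat_lit 4) (nat_lit 94978) (nat_lit 14) nil (node (nat_lit 5) (nat_lit
  91275) (nat_lit 14) nil nil)) (node (nat_lit 13) (nat_lit 96103) (nat_lit 13) nil (node (nat_lit
  4) (nat_lit 89801) (nat_lit 13) nil (node (nat_lit 0) (nat_lit 94833) (nat_lit 13) nil nil))))
  (node (nat_lit 0) (nat_lit 91276) (nat_lit 12) nil nil))) (node (nat_lit 5) (nat_lit 82069)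
  (nat_lit 11) (node (nat_lit 13) (nat_lit 92288) (nat_lit 12) (node (nat_lit 4) (nat_lit 92288)
  (nat_lit 13) nil nil) (node (nat_lit 4) (nat_lit 89967) (nat_lit 12) (node (nat_lit 5) (nat_lit
  94865) (nat_lit 13) nil nil) nil)) (node (nat_lit 6) (nat_lit 81846) (nat_lit 11) (node (nat_lit
  4) (nat_lit 89348) (nat_lit 12) nil (node (nat_lit 13) (nat_lit 91393) (nat_lit 12) nil nil))
  (node (nat_lit 0) (nat_lit 84914) (nat_lit 11) nil nil)))) (node (nat_lit 6) (nat_lit 0)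
  (nat_lit 10) (node (nat_lit 0) (nat_lit 85668) (nat_lit 11) (node (nat_lit 4) (nat_lit 90086)
  (nat_lit 12) (node (nat_lit 6) (nat_lit 95077) (nat_lit 13) nil nil) nil) nil) nil)) (node
  (nat_lit 0) (nat_lit 0) (nat_lit 9) (node (nat_lit 6) (nat_lit 71484) (nat_lit 10) (node
  (nat_lit 5) (nat_lit 81130) (nat_lit 11) (node (nat_lit 6) (nat_lit 87959) (nat_lit 12) (node
  (nat_lit 4) (nat_lit 93294) (nat_lit 13) nil nil) (node (nat_lit 4) (nat_lit 83970) (nat_lit 12)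
  nil nil)) (node (nat_lit 4) (nat_lit 81097) (nat_lit 11) (node (nat_lit 5) (nat_lit 84813)
  (nat_lit 12) nil (node (nat_lit 6) (nat_lit 81403) (nat_lit 12) nil nil)) (node (nat_lit 12)
  (nat_lit 83714) (nat_lit 11) nil nil))) (node (nat_lit 4) (nat_lit 71803) (nat_lit 10) (node
  (nat_lit 5) (nat_lit 81544) (nat_lit 11) (node (nat_lit 4) (nat_lit 86845) (nat_lit 12) (node
  (nat_lit 6) (nat_lit 83129) (nat_lit 13) nil nil) (node (nat_lit 6) (nat_lit 81850) (nat_lit 12)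
  nil nil)) (node (nat_lit 6) (nat_lit 80673) (nat_lit 11) (node (nat_lit 4) (nat_lit 87501)
  (nat_lit 12) nil (node (nat_lit 5) (nat_lit 82625) (nat_lit 12) nil nil)) (node (nat_lit 12)
  (nat_lit 84033) (nat_lit 11) nil nil))) (node (nat_lit 5) (nat_lit 71593) (nat_lit 10) (node
  (nat_lit 4) (nat_lit 81744) (nat_lit 11) (node (nat_lit 5) (nat_lit 85225) (nat_lit 12) nil nil)
  (node (nat_lit 6) (nat_lit 81652) (nat_lit 11) nil nil)) (node (nat_lit 0) (nat_lit 74884)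
  (nat_lit 10) nil nil)))) (node (nat_lit 6) (nat_lit 0) (nat_lit 9) (node (nat_lit 0) (nat_lit 0)
  (nat_lit 10) (node (nat_lit 6) (nat_lit 0) (nat_lit 11) (node (nat_lit 4) (nat_lit 65433)
  (nat_lit 12) (node (nat_lit 6) (nat_lit 65864) (nat_lit 13) nil (node (nat_lit 5) (nat_lit
  68152) (nat_lit 13) nil nil)) (node (nat_lit 5) (nat_lit 65433) (nat_lit 12) (node (nat_lit 4)
  (nat_lit 69072) (nat_lit 13) nil (node (nat_lit 6) (nat_lit 65408) (nat_lit 13) nil (node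
  (nat_lit 13) (nat_lit 70273) (nat_lit 13) nil nil))) (node (nat_lit 0) (nat_lit 65747) (nat_lit
  12) nil nil))) (node (nat_lit 5) (nat_lit 60176) (nat_lit 11) (node (nat_lit 13) (nat_lit 68778)
  (nat_lit 12) nil nil) (node (nat_lit 0) (nat_lit 62984) (nat_lit 11) nil (node (nat_lit 4)
  (nat_lit 60328) (nat_lit 11) nil nil)))) (node (nat_lit 5) (nat_lit 0) (nat_lit 10) (node
  (nat_lit 0) (nat_lit 63886) (nat_lit 11) (node (nat_lit 6) (nat_lit 65863) (nat_lit 12) (node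
  (nat_lit 5) (nat_lit 70504) (nat_lit 13) (node (nat_lit 6) (nat_lit 70801) (nat_lit 14) nil
  (node (nat_lit 4) (nat_lit 70396) (nat_lit 14) nil nil)) nil) (node (nat_lit 5) (nat_lit 66321)
  (nat_lit 12) nil nil)) nil) (node (nat_lit 4) (nat_lit 0) (nat_lit 10) (node (nat_lit 0)
  (nat_lit 63862) (nat_lit 11) (node (nat_lit 6) (nat_lit 66266) (nat_lit 12) (node (nat_lit 4)
  (nat_lit 68984) (nat_lit 13) nil nil) nil) nil) nil))) nil))) (node (nat_lit 0) (nat_lit 0)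
  (nat_lit 8) (node (nat_lit 5) (nat_lit 107005) (nat_lit 9) (node (nat_lit 4) (nat_lit 120057)
  (nat_lit 10) (node (nat_lit 6) (nat_lit 126407) (nat_lit 11) (node (nat_lit 4) (nat_lit 121923)
  (nat_lit 12) (node (nat_lit 5) (nat_lit 119190) (nat_lit 13) nil nil) nil) (node (nat_lit 5)
  (nat_lit 124693) (nat_lit 11) nil nil)) (node (nat_lit 6) (nat_lit 116904) (nat_lit 10) (node
  (nat_lit 4) (nat_lit 120233) (nat_lit 11) nil (node (nat_lit 5) (nat_lit 122954) (nat_lit 11)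
  nil nil)) (node (nat_lit 11) (nat_lit 113358) (nat_lit 10) nil nil))) (node (nat_lit 6) (nat_lit
  102973) (nat_lit 9) (node (nat_lit 5) (nat_lit 119423) (nat_lit 10) (node (nat_lit 4) (nat_lit
  124342) (nat_lit 11) (node (nat_lit 5) (nat_lit 126032) (nat_lit 12) nil nil) (node (nat_lit 6)
  (nat_lit 124004) (nat_lit 11) nil nil)) (node (nat_lit 4) (nat_lit 116321) (nat_lit 10) (node
  (nat_lit 5) (nat_lit 118741) (nat_lit 11) nil (node (nat_lit 6) (nat_lit 117273) (nat_lit 11)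
  nil nil)) (node (nat_lit 11) (nat_lit 109326) (nat_lit 10) nil nil))) (node (nat_lit 4) (nat_lit
  102995) (nat_lit 9) (node (nat_lit 6) (nat_lit 114879) (nat_lit 10) (node (nat_lit 5) (nat_lit
  118980) (nat_lit 11) (node (nat_lit 4) (nat_lit 113623) (nat_lit 12) nil (node (nat_lit 6)
  (nat_lit 115740) (nat_lit 12) nil nil)) (node (nat_lit 4) (nat_lit 116796) (nat_lit 11) nil
  nil)) (node (nat_lit 5) (nat_lit 117108) (nat_lit 10) (node (nat_lit 6) (nat_lit 120024)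
  (nat_lit 11) nil nil) nil)) (node (nat_lit 0) (nat_lit 111768) (nat_lit 9) nil nil)))) nil))
  (node (nat_lit 5) (nat_lit 0) (nat_lit 7) (node (nat_lit 6) (nat_lit 0) (nat_lit 8) (node
  (nat_lit 4) (nat_lit 0) (nat_lit 9) (node (nat_lit 6) (nat_lit 0) (nat_lit 10) (node (nat_lit 0)
  (nat_lit 132487) (nat_lit 11) (node (nat_lit 4) (nat_lit 137361) (nat_lit 12) (node (nat_lit 6)
  (nat_lit 143289) (nat_lit 13) (node (nat_lit 5) (nat_lit 148127) (nat_lit 14) (node (nat_lit 4)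
  (nat_lit 146075) (nat_lit 15) (node (nat_lit 5) (nat_lit 145701) (nat_lit 16) (node (nat_lit 6)
  (nat_lit 145225) (nat_lit 17) (node (nat_lit 5) (nat_lit 142932) (nat_lit 18) nil nil) nil)
  (node (nat_lit 6) (nat_lit 145168) (nat_lit 16) nil nil)) (node (nat_lit 6) (nat_lit 147915)
  (nat_lit 15) (node (nat_lit 4) (nat_lit 149695) (nat_lit 16) nil nil) nil)) (node (nat_lit 4)
  (nat_lit 147450) (nat_lit 14) nil nil)) (node (nat_lit 14) (nat_lit 144810) (nat_lit 13) nil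
  nil)) (node (nat_lit 6) (nat_lit 137161) (nat_lit 12) (node (nat_lit 4) (nat_lit 142618)
  (nat_lit 13) (node (nat_lit 14) (nat_lit 146394) (nat_lit 14) nil nil) nil) (node (nat_lit 5)
  (nat_lit 138804) (nat_lit 12) nil nil))) nil) (node (nat_lit 0) (nat_lit 0) (nat_lit 10) (node
  (nat_lit 4) (nat_lit 0) (nat_lit 11) (node (nat_lit 6) (nat_lit 135451) (nat_lit 12) (node
  (nat_lit 5) (nat_lit 137635) (nat_lit 13) (node (nat_lit 4) (nat_lit 133702) (nat_lit 14) nil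
  nil) (node (nat_lit 4) (nat_lit 139824) (nat_lit 13) nil (node (nat_lit 13) (nat_lit 140290)
  (nat_lit 13) nil nil))) (node (nat_lit 5) (nat_lit 137587) (nat_lit 12) (node (nat_lit 6)
  (nat_lit 137842) (nat_lit 13) nil (node (nat_lit 4) (nat_lit 139048) (nat_lit 13) nil nil))
  (node (nat_lit 0) (nat_lit 137301) (nat_lit 12) nil nil))) (node (nat_lit 6) (nat_lit 128850)
  (nat_lit 11) (node (nat_lit 4) (nat_lit 136351) (nat_lit 12) nil (node (nat_lit 13) (nat_lit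
  135049) (nat_lit 12) nil nil)) (node (nat_lit 5) (nat_lit 129827) (nat_lit 11) nil (node
  (nat_lit 0) (nat_lit 130715) (nat_lit 11) nil nil)))) (node (nat_lit 5) (nat_lit 0) (nat_lit 10)
  (node (nat_lit 0) (nat_lit 133864) (nat_lit 11) (node (nat_lit 4) (nat_lit 137246) (nat_lit 12)
  nil nil) nil) nil))) (node (nat_lit 0) (nat_lit 0) (nat_lit 9) (node (nat_lit 4) (nat_lit
  118264) (nat_lit 10) (node (nat_lit 5) (nat_lit 121678) (nat_lit 11) nil (node (nat_lit 6)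
  (nat_lit 120145) (nat_lit 11) (node (nat_lit 4) (nat_lit 123626) (nat_lit 12) nil nil) (node
  (nat_lit 12) (nat_lit 126210) (nat_lit 11) nil nil))) (node (nat_lit 5) (nat_lit 117902)
  (nat_lit 10) (node (nat_lit 4) (nat_lit 119099) (nat_lit 11) nil (node (nat_lit 6) (nat_lit
  126652) (nat_lit 11) nil nil)) (node (nat_lit 6) (nat_lit 117086) (nat_lit 10) nil (node
  (nat_lit 0) (nat_lit 113863) (nat_lit 10) nil nil)))) nil)) (node (nat_lit 0) (nat_lit 0)
  (nat_lit 8) (node (nat_lit 5) (nat_lit 115294) (nat_lit 9) (node (nat_lit 4) (nat_lit 127947)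
  (nat_lit 10) (node (nat_lit 6) (nat_lit 135322) (nat_lit 11) (node (nat_lit 4) (nat_lit 130839)
  (nat_lit 12) (node (nat_lit 5) (nat_lit 128106) (nat_lit 13) (node (nat_lit 6) (nat_lit 124093)
  (nat_lit 14) nil nil) nil) (node (nat_lit 5) (nat_lit 133540) (nat_lit 12) nil nil)) nil) (node
  (nat_lit 6) (nat_lit 127416) (nat_lit 10) (node (nat_lit 4) (nat_lit 130746) (nat_lit 11) (node
  (nat_lit 6) (nat_lit 129429) (nat_lit 12) nil nil) (node (nat_lit 5) (nat_lit 130772) (nat_lit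
  11) (node (nat_lit 4) (nat_lit 123020) (nat_lit 12) nil nil) nil)) nil)) (node (nat_lit 6)
  (nat_lit 114398) (nat_lit 9) (node (nat_lit 4) (nat_lit 127969) (nat_lit 10) (node (nat_lit 5)
  (nat_lit 135725) (nat_lit 11) (node (nat_lit 4) (nat_lit 135637) (nat_lit 12) nil nil) (node
  (nat_lit 6) (nat_lit 127578) (nat_lit 11) nil nil)) (node (nat_lit 5) (nat_lit 126520) (nat_lit
  10) (node (nat_lit 4) (nat_lit 130978) (nat_lit 11) nil (node (nat_lit 6) (nat_lit 131155)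
  (nat_lit 11) nil nil)) (node (nat_lit 11) (nat_lit 126173) (nat_lit 10) nil nil))) (node
  (nat_lit 4) (nat_lit 116281) (nat_lit 9) (node (nat_lit 5) (nat_lit 128094) (nat_lit 10) (node
  (nat_lit 6) (nat_lit 133269) (nat_lit 11) (node (nat_lit 5) (nat_lit 132721) (nat_lit 12) nil
  nil) (node (nat_lit 4) (nat_lit 133593) (nat_lit 11) nil nil)) (node (nat_lit 6) (nat_lit
  127126) (nat_lit 10) (node (nat_lit 5) (nat_lit 132433) (nat_lit 11) (node (nat_lit 4) (nat_lit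
  131130) (nat_lit 12) (node (nat_lit 5) (nat_lit 120731) (nat_lit 13) nil nil) nil) (node
  (nat_lit 4) (nat_lit 131762) (nat_lit 11) nil nil)) (node (nat_lit 11) (nat_lit 125195) (nat_lit
  10) nil nil))) (node (nat_lit 0) (nat_lit 120916) (nat_lit 9) nil nil)))) nil)) nil)) (node
  (nat_lit 5) (nat_lit 0) (nat_lit 6) (node (nat_lit 6) (nat_lit 0) (nat_lit 7) (node (nat_lit 4)
  (nat_lit 0) (nat_lit 8) (node (nat_lit 6) (nat_lit 0) (nat_lit 9) (node (nat_lit 0) (nat_lit 0)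
  (nat_lit 10) (node (nat_lit 6) (nat_lit 0) (nat_lit 11) (node (nat_lit 5) (nat_lit 93453)
  (nat_lit 12) (node (nat_lit 4) (nat_lit 95879) (nat_lit 13) nil (node (nat_lit 6) (nat_lit
  95885) (nat_lit 13) (node (nat_lit 4) (nat_lit 93211) (nat_lit 14) nil nil) nil)) (node (nat_lit
  4) (nat_lit 93376) (nat_lit 12) (node (nat_lit 5) (nat_lit 95808) (nat_lit 13) nil (node
  (nat_lit 6) (nat_lit 94888) (nat_lit 13) nil nil)) (node (nat_lit 0) (nat_lit 93709) (nat_lit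
  12) nil nil))) (node (nat_lit 4) (nat_lit 90849) (nat_lit 11) (node (nat_lit 6) (nat_lit 93962)
  (nat_lit 12) (node (nat_lit 4) (nat_lit 95473) (nat_lit 13) nil nil) (node (nat_lit 13) (nat_lit
  94294) (nat_lit 12) nil nil)) (node (nat_lit 5) (nat_lit 90264) (nat_lit 11) (node (nat_lit 6)
  (nat_lit 93376) (nat_lit 12) nil (node (nat_lit 13) (nat_lit 93709) (nat_lit 12) nil nil)) (node
  (nat_lit 0) (nat_lit 92198) (nat_lit 11) (node (nat_lit 6) (nat_lit 92198) (nat_lit 12) nil nil)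
  nil)))) (node (nat_lit 5) (nat_lit 0) (nat_lit 10) (node (nat_lit 0) (nat_lit 92275) (nat_lit
  11) (node (nat_lit 6) (nat_lit 93453) (nat_lit 12) (node (nat_lit 5) (nat_lit 95885) (nat_lit
  13) (node (nat_lit 6) (nat_lit 94080) (nat_lit 14) (node (nat_lit 4) (nat_lit 95305) (nat_lit
  15) nil nil) (node (nat_lit 4) (nat_lit 94834) (nat_lit 14) nil nil)) nil) nil) nil) nil)) (node
  (nat_lit 0) (nat_lit 0) (nat_lit 9) (node (nat_lit 6) (nat_lit 85248) (nat_lit 10) (node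
  (nat_lit 5) (nat_lit 90182) (nat_lit 11) (node (nat_lit 6) (nat_lit 88364) (nat_lit 12) (node
  (nat_lit 4) (nat_lit 89352) (nat_lit 13) nil nil) (node (nat_lit 4) (nat_lit 88363) (nat_lit 12)
  nil nil)) (node (nat_lit 4) (nat_lit 90182) (nat_lit 11) (node (nat_lit 5) (nat_lit 92115)
  (nat_lit 12) nil (node (nat_lit 6) (nat_lit 91064) (nat_lit 12) nil nil)) (node (nat_lit 12)
  (nat_lit 89663) (nat_lit 11) nil nil))) (node (nat_lit 5) (nat_lit 86188) (nat_lit 10) (node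
  (nat_lit 4) (nat_lit 90182) (nat_lit 11) (node (nat_lit 5) (nat_lit 93294) (nat_lit 12) nil
  (node (nat_lit 6) (nat_lit 87186) (nat_lit 12) nil nil)) (node (nat_lit 6) (nat_lit 90182)
  (nat_lit 11) (node (nat_lit 4) (nat_lit 92115) (nat_lit 12) nil nil) (node (nat_lit 12) (nat_lit
  90604) (nat_lit 11) nil nil))) (node (nat_lit 4) (nat_lit 86726) (nat_lit 10) (node (nat_lit 6)
  (nat_lit 90719) (nat_lit 11) (node (nat_lit 4) (nat_lit 92653) (nat_lit 12) nil nil) (node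
  (nat_lit 5) (nat_lit 90171) (nat_lit 11) nil nil)) (node (nat_lit 0) (nat_lit 88273) (nat_lit
  10) nil nil)))) (node (nat_lit 5) (nat_lit 0) (nat_lit 9) (node (nat_lit 0) (nat_lit 88705)
  (nat_lit 10) (node (nat_lit 5) (nat_lit 90171) (nat_lit 11) (node (nat_lit 4) (nat_lit 92937)
  (nat_lit 12) (node (nat_lit 5) (nat_lit 94449) (nat_lit 13) nil nil) (node (nat_lit 6) (nat_lit
  93328) (nat_lit 12) (node (nat_lit 5) (nat_lit 94840) (nat_lit 13) nil (node (nat_lit 4)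
  (nat_lit 94840) (nat_lit 13) nil nil)) nil)) (node (nat_lit 4) (nat_lit 90849) (nat_lit 11) nil
  (node (nat_lit 0) (nat_lit 90638) (nat_lit 11) nil nil))) (node (nat_lit 4) (nat_lit 0) (nat_lit
  10) (node (nat_lit 0) (nat_lit 92657) (nat_lit 11) (node (nat_lit 5) (nat_lit 93835) (nat_lit
  12) nil (node (nat_lit 4) (nat_lit 92657) (nat_lit 12) nil nil)) nil) nil)) nil))) (node
  (nat_lit 0) (nat_lit 77164) (nat_lit 8) (node (nat_lit 5) (nat_lit 81906) (nat_lit 9) (node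
  (nat_lit 4) (nat_lit 91216) (nat_lit 10) (node (nat_lit 6) (nat_lit 93858) (nat_lit 11) (node
  (nat_lit 4) (nat_lit 89494) (nat_lit 12) (node (nat_lit 5) (nat_lit 86635) (nat_lit 13) (node
  (nat_lit 6) (nat_lit 84306) (nat_lit 14) (node (nat_lit 5) (nat_lit 75402) (nat_lit 15) (node
  (nat_lit 4) (nat_lit 62025) (nat_lit 16) (node (nat_lit 5) (nat_lit 43013) (nat_lit 17) (node
  (nat_lit 6) (nat_lit 26996) (nat_lit 18) nil nil) nil) nil) nil) nil) nil) nil) nil) (node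
  (nat_lit 6) (nat_lit 87884) (nat_lit 10) nil nil)) (node (nat_lit 6) (nat_lit 81906) (nat_lit 9)
  (node (nat_lit 5) (nat_lit 87884) (nat_lit 10) nil (node (nat_lit 4) (nat_lit 91216) (nat_lit
  10) nil nil)) (node (nat_lit 4) (nat_lit 85241) (nat_lit 9) (node (nat_lit 6) (nat_lit 91220)
  (nat_lit 10) nil (node (nat_lit 5) (nat_lit 87738) (nat_lit 10) nil nil)) nil))) nil)) nil)
  nil)) nil) nil))

noncomputable def t463 : Tr :=
  (node (nat_lit 5) (nat_lit 0) (nat_lit 5) (node (nat_lit 7) (nat_lit 0) (nat_lit 6) (node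
  (nat_lit 4) (nat_lit 0) (nat_lit 7) (node (nat_lit 5) (nat_lit 0) (nat_lit 8) (node (nat_lit 4)
  (nat_lit 0) (nat_lit 9) (node (nat_lit 0) (nat_lit 0) (nat_lit 10) (node (nat_lit 4) (nat_lit 0)
  (nat_lit 11) (node (nat_lit 7) (nat_lit 70819) (nat_lit 12) (node (nat_lit 5) (nat_lit 72605)
  (nat_lit 13) nil (node (nat_lit 4) (nat_lit 74040) (nat_lit 13) (node (nat_lit 5) (nat_lit
  75265) (nat_lit 14) nil nil) nil)) (node (nat_lit 5) (nat_lit 69764) (nat_lit 12) (node (nat_lit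
  7) (nat_lit 74627) (nat_lit 13) nil (node (nat_lit 4) (nat_lit 68458) (nat_lit 13) nil nil))
  (node (nat_lit 0) (nat_lit 70845) (nat_lit 12) nil nil))) (node (nat_lit 5) (nat_lit 66484)
  (nat_lit 11) (node (nat_lit 4) (nat_lit 70271) (nat_lit 12) (node (nat_lit 5) (nat_lit 74073)
  (nat_lit 13) nil nil) (node (nat_lit 13) (nat_lit 72183) (nat_lit 12) nil nil)) (node (nat_lit
  7) (nat_lit 69257) (nat_lit 11) (node (nat_lit 4) (nat_lit 73387) (nat_lit 12) nil (node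
  (nat_lit 13) (nat_lit 72834) (nat_lit 12) nil nil)) (node (nat_lit 0) (nat_lit 69257) (nat_lit
  11) (node (nat_lit 4) (nat_lit 69257) (nat_lit 12) nil nil) nil)))) (node (nat_lit 7) (nat_lit
  0) (nat_lit 10) (node (nat_lit 0) (nat_lit 21464) (nat_lit 11) (node (nat_lit 4) (nat_lit 21898)
  (nat_lit 12) (node (nat_lit 7) (nat_lit 24726) (nat_lit 13) (node (nat_lit 4) (nat_lit 25951)
  (nat_lit 14) nil (node (nat_lit 5) (nat_lit 23751) (nat_lit 14) nil nil)) nil) nil) nil) nil))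
  (node (nat_lit 0) (nat_lit 0) (nat_lit 9) (node (nat_lit 7) (nat_lit 86526) (nat_lit 10) (node
  (nat_lit 5) (nat_lit 92474) (nat_lit 11) (node (nat_lit 7) (nat_lit 92033) (nat_lit 12) (node
  (nat_lit 4) (nat_lit 93128) (nat_lit 13) nil nil) (node (nat_lit 4) (nat_lit 90673) (nat_lit 12)
  nil nil)) (node (nat_lit 4) (nat_lit 91300) (nat_lit 11) (node (nat_lit 5) (nat_lit 93309)
  (nat_lit 12) nil (node (nat_lit 7) (nat_lit 93309) (nat_lit 12) nil nil)) (node (nat_lit 12)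
  (nat_lit 91112) (nat_lit 11) nil nil))) (node (nat_lit 4) (nat_lit 84993) (nat_lit 10) (node
  (nat_lit 5) (nat_lit 90778) (nat_lit 11) (node (nat_lit 4) (nat_lit 91207) (nat_lit 12) nil
  (node (nat_lit 7) (nat_lit 90338) (nat_lit 12) nil nil)) (node (nat_lit 7) (nat_lit 90941)
  (nat_lit 11) (node (nat_lit 4) (nat_lit 95071) (nat_lit 12) nil (node (nat_lit 5) (nat_lit
  89247) (nat_lit 12) nil nil)) (node (nat_lit 12) (nat_lit 89578) (nat_lit 11) nil nil))) (node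
  (nat_lit 5) (nat_lit 85267) (nat_lit 10) (node (nat_lit 4) (nat_lit 90226) (nat_lit 11) (node
  (nat_lit 5) (nat_lit 88532) (nat_lit 12) nil nil) (node (nat_lit 7) (nat_lit 91425) (nat_lit 11)
  nil nil)) (node (nat_lit 0) (nat_lit 88609) (nat_lit 10) nil nil)))) (node (nat_lit 7) (nat_lit
  0) (nat_lit 9) (node (nat_lit 0) (nat_lit 88609) (nat_lit 10) (node (nat_lit 7) (nat_lit 92190)
  (nat_lit 11) (node (nat_lit 5) (nat_lit 95597) (nat_lit 12) (node (nat_lit 7) (nat_lit 93206)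
  (nat_lit 13) nil nil) (node (nat_lit 4) (nat_lit 96321) (nat_lit 12) (node (nat_lit 7) (nat_lit
  97889) (nat_lit 13) nil (node (nat_lit 5) (nat_lit 97889) (nat_lit 13) nil nil)) nil)) (node
  (nat_lit 5) (nat_lit 91978) (nat_lit 11) nil (node (nat_lit 0) (nat_lit 90618) (nat_lit 11) nil
  nil))) (node (nat_lit 5) (nat_lit 0) (nat_lit 10) (node (nat_lit 0) (nat_lit 94674) (nat_lit 11)
  (node (nat_lit 7) (nat_lit 94566) (nat_lit 12) (node (nat_lit 5) (nat_lit 93261) (nat_lit 13)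
  nil nil) (node (nat_lit 5) (nat_lit 94674) (nat_lit 12) nil nil)) nil) nil)) nil))) (node
  (nat_lit 7) (nat_lit 0) (nat_lit 8) (node (nat_lit 0) (nat_lit 0) (nat_lit 9) (node (nat_lit 4)
  (nat_lit 135723) (nat_lit 10) (node (nat_lit 5) (nat_lit 136452) (nat_lit 11) nil (node (nat_lit
  7) (nat_lit 139505) (nat_lit 11) nil nil)) (node (nat_lit 5) (nat_lit 137569) (nat_lit 10) (node
  (nat_lit 4) (nat_lit 135487) (nat_lit 11) nil (node (nat_lit 7) (nat_lit 141352) (nat_lit 11)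
  nil nil)) (node (nat_lit 7) (nat_lit 137750) (nat_lit 10) nil (node (nat_lit 0) (nat_lit 139220)
  (nat_lit 10) nil nil)))) (node (nat_lit 5) (nat_lit 0) (nat_lit 9) (node (nat_lit 0) (nat_lit
  140911) (nat_lit 10) (node (nat_lit 5) (nat_lit 142767) (nat_lit 11) (node (nat_lit 7) (nat_lit
  144776) (nat_lit 12) nil (node (nat_lit 4) (nat_lit 141074) (nat_lit 12) nil nil)) (node
  (nat_lit 7) (nat_lit 141778) (nat_lit 11) nil (node (nat_lit 4) (nat_lit 141778) (nat_lit 11)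
  nil nil))) (node (nat_lit 4) (nat_lit 0) (nat_lit 10) (node (nat_lit 0) (nat_lit 146152)
  (nat_lit 11) nil nil) nil)) nil)) (node (nat_lit 0) (nat_lit 130409) (nat_lit 8) (node (nat_lit
  7) (nat_lit 139749) (nat_lit 9) (node (nat_lit 5) (nat_lit 142333) (nat_lit 10) (node (nat_lit
  4) (nat_lit 139370) (nat_lit 11) nil nil) (node (nat_lit 4) (nat_lit 143758) (nat_lit 10) nil
  nil)) (node (nat_lit 4) (nat_lit 135348) (nat_lit 9) (node (nat_lit 7) (nat_lit 141655) (nat_lit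
  10) nil (node (nat_lit 5) (nat_lit 142481) (nat_lit 10) nil nil)) (node (nat_lit 5) (nat_lit
  135279) (nat_lit 9) (node (nat_lit 4) (nat_lit 141778) (nat_lit 10) nil (node (nat_lit 7)
  (nat_lit 141223) (nat_lit 10) nil nil)) nil))) nil))) nil) (node (nat_lit 4) (nat_lit 0)
  (nat_lit 6) (node (nat_lit 5) (nat_lit 0) (nat_lit 7) (node (nat_lit 7) (nat_lit 0) (nat_lit 8)
  (node (nat_lit 5) (nat_lit 0) (nat_lit 9) (node (nat_lit 0) (nat_lit 0) (nat_lit 10) (node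
  (nat_lit 5) (nat_lit 0) (nat_lit 11) (node (nat_lit 4) (nat_lit 145375) (nat_lit 12) (node
  (nat_lit 7) (nat_lit 146554) (nat_lit 13) (node (nat_lit 4) (nat_lit 142841) (nat_lit 14) nil
  nil) (node (nat_lit 5) (nat_lit 147678) (nat_lit 13) nil nil)) (node (nat_lit 7) (nat_lit
  146394) (nat_lit 12) (node (nat_lit 4) (nat_lit 147961) (nat_lit 13) nil nil) (node (nat_lit 0)
  (nat_lit 146344) (nat_lit 12) nil nil))) (node (nat_lit 7) (nat_lit 142980) (nat_lit 11) (node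
  (nat_lit 13) (nat_lit 147501) (nat_lit 12) nil (node (nat_lit 5) (nat_lit 146606) (nat_lit 12)
  (node (nat_lit 7) (nat_lit 148274) (nat_lit 13) nil nil) nil)) (node (nat_lit 4) (nat_lit
  141429) (nat_lit 11) (node (nat_lit 5) (nat_lit 144869) (nat_lit 12) nil (node (nat_lit 13)
  (nat_lit 145950) (nat_lit 12) nil nil)) (node (nat_lit 0) (nat_lit 144126) (nat_lit 11) nil
  nil)))) (node (nat_lit 4) (nat_lit 0) (nat_lit 10) (node (nat_lit 0) (nat_lit 145464) (nat_lit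
  11) (node (nat_lit 5) (nat_lit 146896) (nat_lit 12) (node (nat_lit 4) (nat_lit 148274) (nat_lit
  13) nil nil) nil) nil) nil)) (node (nat_lit 0) (nat_lit 0) (nat_lit 9) (node (nat_lit 4)
  (nat_lit 135723) (nat_lit 10) (node (nat_lit 7) (nat_lit 140370) (nat_lit 11) (node (nat_lit 4)
  (nat_lit 143322) (nat_lit 12) nil (node (nat_lit 5) (nat_lit 138676) (nat_lit 12) nil nil))
  (node (nat_lit 5) (nat_lit 140157) (nat_lit 11) (node (nat_lit 7) (nat_lit 143109) (nat_lit 12)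
  nil (node (nat_lit 4) (nat_lit 138463) (nat_lit 12) nil nil)) (node (nat_lit 12) (nat_lit
  141514) (nat_lit 11) nil nil))) (node (nat_lit 5) (nat_lit 137569) (nat_lit 10) (node (nat_lit
  7) (nat_lit 142216) (nat_lit 11) (node (nat_lit 5) (nat_lit 143282) (nat_lit 12) nil (node
  (nat_lit 4) (nat_lit 144225) (nat_lit 12) nil nil)) (node (nat_lit 4) (nat_lit 141017) (nat_lit
  11) (node (nat_lit 5) (nat_lit 143969) (nat_lit 12) nil (node (nat_lit 7) (nat_lit 143325)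
  (nat_lit 12) nil nil)) (node (nat_lit 12) (nat_lit 142154) (nat_lit 11) nil nil))) (node
  (nat_lit 7) (nat_lit 137750) (nat_lit 10) (node (nat_lit 5) (nat_lit 142395) (nat_lit 11) (node
  (nat_lit 7) (nat_lit 145348) (nat_lit 12) nil nil) (node (nat_lit 4) (nat_lit 140845) (nat_lit
  11) nil nil)) (node (nat_lit 0) (nat_lit 140326) (nat_lit 10) nil nil)))) (node (nat_lit 4)
  (nat_lit 0) (nat_lit 9) (node (nat_lit 0) (nat_lit 0) (nat_lit 10) (node (nat_lit 4) (nat_lit 0)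
  (nat_lit 11) (node (nat_lit 5) (nat_lit 144869) (nat_lit 12) (node (nat_lit 7) (nat_lit 147171)
  (nat_lit 13) nil (node (nat_lit 4) (nat_lit 143564) (nat_lit 13) nil nil)) (node (nat_lit 7)
  (nat_lit 144382) (nat_lit 12) (node (nat_lit 5) (nat_lit 145248) (nat_lit 13) nil (node (nat_lit
  4) (nat_lit 145950) (nat_lit 13) nil (node (nat_lit 13) (nat_lit 147175) (nat_lit 13) nil nil)))
  (node (nat_lit 0) (nat_lit 145006) (nat_lit 12) nil nil))) (node (nat_lit 7) (nat_lit 142980)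
  (nat_lit 11) (node (nat_lit 13) (nat_lit 146557) (nat_lit 12) nil nil) (node (nat_lit 0)
  (nat_lit 144126) (nat_lit 11) nil (node (nat_lit 5) (nat_lit 142767) (nat_lit 11) nil nil))))
  (node (nat_lit 7) (nat_lit 0) (nat_lit 10) (node (nat_lit 0) (nat_lit 145464) (nat_lit 11) (node
  (nat_lit 4) (nat_lit 146407) (nat_lit 12) (node (nat_lit 7) (nat_lit 148274) (nat_lit 13) nil
  nil) (node (nat_lit 7) (nat_lit 146407) (nat_lit 12) nil nil)) nil) (node (nat_lit 5) (nat_lit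
  0) (nat_lit 10) (node (nat_lit 0) (nat_lit 143571) (nat_lit 11) (node (nat_lit 4) (nat_lit
  143463) (nat_lit 12) (node (nat_lit 5) (nat_lit 142157) (nat_lit 13) nil nil) nil) nil) nil)))
  nil))) (node (nat_lit 0) (nat_lit 0) (nat_lit 8) (node (nat_lit 4) (nat_lit 137660) (nat_lit 9)
  (node (nat_lit 5) (nat_lit 142125) (nat_lit 10) (node (nat_lit 7) (nat_lit 144338) (nat_lit 11)
  (node (nat_lit 4) (nat_lit 146168) (nat_lit 12) nil nil) (node (nat_lit 4) (nat_lit 140368)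
  (nat_lit 11) nil nil)) (node (nat_lit 7) (nat_lit 142618) (nat_lit 10) (node (nat_lit 5)
  (nat_lit 142369) (nat_lit 11) nil (node (nat_lit 4) (nat_lit 144831) (nat_lit 11) nil nil))
  nil)) (node (nat_lit 5) (nat_lit 136856) (nat_lit 9) (node (nat_lit 4) (nat_lit 140380) (nat_lit
  10) (node (nat_lit 7) (nat_lit 142486) (nat_lit 11) (node (nat_lit 4) (nat_lit 141228) (nat_lit
  12) (node (nat_lit 5) (nat_lit 128551) (nat_lit 13) nil nil) nil) (node (nat_lit 5) (nat_lit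
  137416) (nat_lit 11) nil nil)) (node (nat_lit 7) (nat_lit 142760) (nat_lit 10) (node (nat_lit 4)
  (nat_lit 143767) (nat_lit 11) nil nil) nil)) (node (nat_lit 7) (nat_lit 139749) (nat_lit 9)
  (node (nat_lit 5) (nat_lit 144594) (nat_lit 10) (node (nat_lit 4) (nat_lit 146841) (nat_lit 11)
  nil (node (nat_lit 7) (nat_lit 146808) (nat_lit 11) nil nil)) (node (nat_lit 4) (nat_lit 143758)
  (nat_lit 10) (node (nat_lit 7) (nat_lit 144766) (nat_lit 11) nil (node (nat_lit 5) (nat_lit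
  144766) (nat_lit 11) nil nil)) nil)) (node (nat_lit 0) (nat_lit 141349) (nat_lit 9) nil nil))))
  nil)) nil) nil)) (node (nat_lit 4) (nat_lit 0) (nat_lit 5) (node (nat_lit 5) (nat_lit 0)
  (nat_lit 6) (node (nat_lit 7) (nat_lit 0) (nat_lit 7) (node (nat_lit 5) (nat_lit 0) (nat_lit 8)
  (node (nat_lit 4) (nat_lit 0) (nat_lit 9) (node (nat_lit 5) (nat_lit 0) (nat_lit 10) (node
  (nat_lit 0) (nat_lit 89863) (nat_lit 11) (node (nat_lit 4) (nat_lit 92208) (nat_lit 12) (node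
  (nat_lit 5) (nat_lit 95609) (nat_lit 13) (node (nat_lit 7) (nat_lit 98680) (nat_lit 14) (node
  (nat_lit 4) (nat_lit 98597) (nat_lit 15) (node (nat_lit 5) (nat_lit 98260) (nat_lit 16) (node
  (nat_lit 4) (nat_lit 92484) (nat_lit 17) nil nil) (node (nat_lit 7) (nat_lit 99345) (nat_lit 16)
  nil nil)) (node (nat_lit 5) (nat_lit 100195) (nat_lit 15) (node (nat_lit 4) (nat_lit 99651)
  (nat_lit 16) nil nil) nil)) (node (nat_lit 4) (nat_lit 98262) (nat_lit 14) (node (nat_lit 7)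
  (nat_lit 98762) (nat_lit 15) (node (nat_lit 4) (nat_lit 99947) (nat_lit 16) nil (node (nat_lit
  5) (nat_lit 98219) (nat_lit 16) nil nil)) (node (nat_lit 14) (nat_lit 100523) (nat_lit 15) (node
  (nat_lit 5) (nat_lit 100523) (nat_lit 16) nil (node (nat_lit 4) (nat_lit 100523) (nat_lit 16)
  nil nil)) nil)) (node (nat_lit 0) (nat_lit 97787) (nat_lit 14) nil nil))) (node (nat_lit 14)
  (nat_lit 96051) (nat_lit 13) nil nil)) (node (nat_lit 5) (nat_lit 92208) (nat_lit 12) (node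
  (nat_lit 4) (nat_lit 95609) (nat_lit 13) (node (nat_lit 14) (nat_lit 98506) (nat_lit 14) nil
  nil) nil) (node (nat_lit 7) (nat_lit 92649) (nat_lit 12) nil nil))) nil) (node (nat_lit 0)
  (nat_lit 0) (nat_lit 10) (node (nat_lit 4) (nat_lit 0) (nat_lit 11) (node (nat_lit 7) (nat_lit
  92208) (nat_lit 12) (node (nat_lit 4) (nat_lit 93776) (nat_lit 13) nil (node (nat_lit 5)
  (nat_lit 91823) (nat_lit 13) nil nil)) (node (nat_lit 5) (nat_lit 91968) (nat_lit 12) (node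
  (nat_lit 7) (nat_lit 92187) (nat_lit 13) (node (nat_lit 4) (nat_lit 89201) (nat_lit 14) nil nil)
  (node (nat_lit 4) (nat_lit 90662) (nat_lit 13) nil nil)) (node (nat_lit 0) (nat_lit 91431)
  (nat_lit 12) nil nil))) (node (nat_lit 5) (nat_lit 87854) (nat_lit 11) (node (nat_lit 13)
  (nat_lit 92610) (nat_lit 12) nil (node (nat_lit 4) (nat_lit 92208) (nat_lit 12) nil nil)) (node
  (nat_lit 7) (nat_lit 88212) (nat_lit 11) nil (node (nat_lit 0) (nat_lit 88365) (nat_lit 11) nil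
  nil)))) (node (nat_lit 7) (nat_lit 0) (nat_lit 10) (node (nat_lit 0) (nat_lit 88648) (nat_lit
  11) (node (nat_lit 4) (nat_lit 90513) (nat_lit 12) nil nil) nil) nil))) (node (nat_lit 0)
  (nat_lit 0) (nat_lit 9) (node (nat_lit 7) (nat_lit 81983) (nat_lit 10) (node (nat_lit 5)
  (nat_lit 85941) (nat_lit 11) (node (nat_lit 7) (nat_lit 89174) (nat_lit 12) (node (nat_lit 4)
  (nat_lit 89360) (nat_lit 13) (node (nat_lit 5) (nat_lit 89882) (nat_lit 14) (node (nat_lit 4)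
  (nat_lit 86913) (nat_lit 15) (node (nat_lit 7) (nat_lit 73526) (nat_lit 16) (node (nat_lit 4)
  (nat_lit 66554) (nat_lit 17) (node (nat_lit 5) (nat_lit 51977) (nat_lit 18) (node (nat_lit 7)
  (nat_lit 37864) (nat_lit 19) (node (nat_lit 5) (nat_lit 13042) (nat_lit 20) nil nil) nil) nil)
  nil) nil) nil) nil) nil) nil) (node (nat_lit 4) (nat_lit 86071) (nat_lit 11) nil (node (nat_lit
  12) (nat_lit 86569) (nat_lit 11) nil nil))) (node (nat_lit 4) (nat_lit 82269) (nat_lit 10) (node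
  (nat_lit 7) (nat_lit 83445) (nat_lit 11) nil (node (nat_lit 5) (nat_lit 83863) (nat_lit 11)
  (node (nat_lit 4) (nat_lit 82169) (nat_lit 12) nil nil) nil)) (node (nat_lit 5) (nat_lit 82269)
  (nat_lit 10) nil (node (nat_lit 0) (nat_lit 82928) (nat_lit 10) nil nil)))) nil)) (node (nat_lit
  0) (nat_lit 0) (nat_lit 8) (node (nat_lit 7) (nat_lit 82485) (nat_lit 9) (node (nat_lit 4)
  (nat_lit 88798) (nat_lit 10) (node (nat_lit 5) (nat_lit 89805) (nat_lit 11) nil nil) (node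
  (nat_lit 5) (nat_lit 88798) (nat_lit 10) (node (nat_lit 7) (nat_lit 88869) (nat_lit 11) (node
  (nat_lit 4) (nat_lit 85254) (nat_lit 12) (node (nat_lit 5) (nat_lit 84950) (nat_lit 13) nil nil)
  nil) nil) nil)) (node (nat_lit 5) (nat_lit 82209) (nat_lit 9) (node (nat_lit 4) (nat_lit 88522)
  (nat_lit 10) (node (nat_lit 7) (nat_lit 88130) (nat_lit 11) (node (nat_lit 4) (nat_lit 90193)
  (nat_lit 12) (node (nat_lit 5) (nat_lit 91916) (nat_lit 13) nil nil) nil) (node (nat_lit 5)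
  (nat_lit 87070) (nat_lit 11) nil nil)) (node (nat_lit 7) (nat_lit 88881) (nat_lit 10) (node
  (nat_lit 4) (nat_lit 89888) (nat_lit 11) nil (node (nat_lit 5) (nat_lit 89888) (nat_lit 11) nil
  nil)) (node (nat_lit 11) (nat_lit 85679) (nat_lit 10) nil nil))) (node (nat_lit 4) (nat_lit
  82209) (nat_lit 9) (node (nat_lit 5) (nat_lit 88522) (nat_lit 10) (node (nat_lit 7) (nat_lit
  88933) (nat_lit 11) (node (nat_lit 4) (nat_lit 83003) (nat_lit 12) nil nil) nil) (node (nat_lit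
  7) (nat_lit 88522) (nat_lit 10) nil nil)) (node (nat_lit 0) (nat_lit 84671) (nat_lit 9) nil
  nil)))) (node (nat_lit 4) (nat_lit 0) (nat_lit 8) (node (nat_lit 0) (nat_lit 0) (nat_lit 9)
  (node (nat_lit 5) (nat_lit 81569) (nat_lit 10) (node (nat_lit 4) (nat_lit 87154) (nat_lit 11)
  (node (nat_lit 5) (nat_lit 86639) (nat_lit 12) nil (node (nat_lit 7) (nat_lit 84592) (nat_lit
  12) nil nil)) (node (nat_lit 7) (nat_lit 85657) (nat_lit 11) nil nil)) (node (nat_lit 7)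
  (nat_lit 82033) (nat_lit 10) (node (nat_lit 5) (nat_lit 84966) (nat_lit 11) (node (nat_lit 7)
  (nat_lit 83582) (nat_lit 12) nil nil) (node (nat_lit 4) (nat_lit 86121) (nat_lit 11) nil (node
  (nat_lit 12) (nat_lit 86619) (nat_lit 11) nil nil))) (node (nat_lit 4) (nat_lit 82012) (nat_lit
  10) (node (nat_lit 7) (nat_lit 87597) (nat_lit 11) nil (node (nat_lit 5) (nat_lit 87597)
  (nat_lit 11) nil nil)) (node (nat_lit 0) (nat_lit 81329) (nat_lit 10) nil nil)))) (node (nat_lit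
  7) (nat_lit 0) (nat_lit 9) (node (nat_lit 0) (nat_lit 0) (nat_lit 10) (node (nat_lit 7) (nat_lit
  88212) (nat_lit 11) (node (nat_lit 5) (nat_lit 87697) (nat_lit 12) nil (node (nat_lit 4)
  (nat_lit 91400) (nat_lit 12) nil nil)) (node (nat_lit 4) (nat_lit 88130) (nat_lit 11) nil (node
  (nat_lit 5) (nat_lit 88130) (nat_lit 11) nil (node (nat_lit 0) (nat_lit 87130) (nat_lit 11) nil
  nil)))) (node (nat_lit 5) (nat_lit 0) (nat_lit 10) (node (nat_lit 0) (nat_lit 87437) (nat_lit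
  11) (node (nat_lit 7) (nat_lit 89376) (nat_lit 12) nil nil) nil) nil)) nil)) nil))) nil) nil)
  nil))

noncomputable def c74 : Tr :=
  (node (nat_lit 3) (nat_lit 0) (nat_lit 1) (node (nat_lit 3) (nat_lit 0) (nat_lit 2) (node
  (nat_lit 3) (nat_lit 0) (nat_lit 3) t462 (node (nat_lit 4) (nat_lit 0) (nat_lit 3) (node
  (nat_lit 3) (nat_lit 0) (nat_lit 4) t463 nil) nil)) nil) nil)

noncomputable def t464 : Tr :=
  (node (nat_lit 4) (nat_lit 0) (nat_lit 4) (node (nat_lit 5) (nat_lit 0) (nat_lit 5) (node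
  (nat_lit 0) (nat_lit 0) (nat_lit 6) (node (nat_lit 4) (nat_lit 0) (nat_lit 7) (node (nat_lit 5)
  (nat_lit 41230) (nat_lit 8) (node (nat_lit 4) (nat_lit 41230) (nat_lit 9) (node (nat_lit 6)
  (nat_lit 41230) (nat_lit 10) nil nil) nil) (node (nat_lit 6) (nat_lit 41230) (nat_lit 8) (node
  (nat_lit 5) (nat_lit 41230) (nat_lit 9) nil (node (nat_lit 4) (nat_lit 41230) (nat_lit 9) nil
  (node (nat_lit 9) (nat_lit 42965) (nat_lit 9) nil nil))) (node (nat_lit 9) (nat_lit 43520)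
  (nat_lit 8) (node (nat_lit 5) (nat_lit 43520) (nat_lit 9) nil (node (nat_lit 6) (nat_lit 43520)
  (nat_lit 9) nil nil)) (node (nat_lit 0) (nat_lit 42610) (nat_lit 8) nil nil)))) (node (nat_lit
  6) (nat_lit 0) (nat_lit 7) (node (nat_lit 4) (nat_lit 39943) (nat_lit 8) (node (nat_lit 5)
  (nat_lit 39943) (nat_lit 9) nil (node (nat_lit 9) (nat_lit 41678) (nat_lit 9) nil nil)) (node
  (nat_lit 5) (nat_lit 39943) (nat_lit 8) (node (nat_lit 6) (nat_lit 39943) (nat_lit 9) nil (node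
  (nat_lit 4) (nat_lit 39943) (nat_lit 9) nil (node (nat_lit 9) (nat_lit 43162) (nat_lit 9) nil
  nil))) (node (nat_lit 9) (nat_lit 43520) (nat_lit 8) (node (nat_lit 5) (nat_lit 43520) (nat_lit
  9) (node (nat_lit 6) (nat_lit 43520) (nat_lit 10) nil nil) (node (nat_lit 4) (nat_lit 43520)
  (nat_lit 9) nil nil)) (node (nat_lit 0) (nat_lit 41323) (nat_lit 8) nil nil)))) (node (nat_lit
  5) (nat_lit 0) (nat_lit 7) (node (nat_lit 4) (nat_lit 41188) (nat_lit 8) (node (nat_lit 6)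
  (nat_lit 41188) (nat_lit 9) nil (node (nat_lit 5) (nat_lit 41188) (nat_lit 9) (node (nat_lit 6)
  (nat_lit 41188) (nat_lit 10) nil (node (nat_lit 9) (nat_lit 43085) (nat_lit 10) nil nil)) (node
  (nat_lit 9) (nat_lit 42924) (nat_lit 9) nil nil))) (node (nat_lit 6) (nat_lit 41188) (nat_lit 8)
  (node (nat_lit 4) (nat_lit 41188) (nat_lit 9) nil (node (nat_lit 5) (nat_lit 41188) (nat_lit 9)
  nil nil)) (node (nat_lit 0) (nat_lit 42569) (nat_lit 8) nil nil))) (node (nat_lit 0) (nat_lit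
  42991) (nat_lit 7) (node (nat_lit 9) (nat_lit 43520) (nat_lit 8) nil (node (nat_lit 5) (nat_lit
  42991) (nat_lit 8) nil nil)) nil)))) (node (nat_lit 4) (nat_lit 0) (nat_lit 6) (node (nat_lit 0)
  (nat_lit 0) (nat_lit 7) (node (nat_lit 4) (nat_lit 0) (nat_lit 8) (node (nat_lit 5) (nat_lit
  42991) (nat_lit 9) (node (nat_lit 10) (nat_lit 43645) (nat_lit 10) nil nil) (node (nat_lit 6)
  (nat_lit 42991) (nat_lit 9) (node (nat_lit 5) (nat_lit 42991) (nat_lit 10) nil (node (nat_lit 4)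
  (nat_lit 42991) (nat_lit 10) nil nil)) (node (nat_lit 0) (nat_lit 43645) (nat_lit 9) nil nil)))
  (node (nat_lit 5) (nat_lit 42991) (nat_lit 8) (node (nat_lit 10) (nat_lit 43645) (nat_lit 9)
  (node (nat_lit 4) (nat_lit 43645) (nat_lit 10) nil nil) (node (nat_lit 4) (nat_lit 42991)
  (nat_lit 9) nil nil)) (node (nat_lit 6) (nat_lit 42991) (nat_lit 8) nil (node (nat_lit 0)
  (nat_lit 43520) (nat_lit 8) nil nil)))) (node (nat_lit 6) (nat_lit 0) (nat_lit 7) (node (nat_lit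
  0) (nat_lit 43520) (nat_lit 8) (node (nat_lit 4) (nat_lit 43520) (nat_lit 9) nil nil) nil) nil))
  nil)) (node (nat_lit 6) (nat_lit 0) (nat_lit 5) (node (nat_lit 0) (nat_lit 0) (nat_lit 6) (node
  (nat_lit 4) (nat_lit 0) (nat_lit 7) (node (nat_lit 6) (nat_lit 71380) (nat_lit 8) (node (nat_lit
  4) (nat_lit 73180) (nat_lit 9) (node (nat_lit 5) (nat_lit 73511) (nat_lit 10) (node (nat_lit 6)
  (nat_lit 74670) (nat_lit 11) (node (nat_lit 5) (nat_lit 76516) (nat_lit 12) nil nil) (node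
  (nat_lit 4) (nat_lit 73562) (nat_lit 11) (node (nat_lit 6) (nat_lit 73888) (nat_lit 12) nil nil)
  nil)) (node (nat_lit 9) (nat_lit 77610) (nat_lit 10) nil nil)) (node (nat_lit 5) (nat_lit 71974)
  (nat_lit 9) (node (nat_lit 4) (nat_lit 71974) (nat_lit 10) (node (nat_lit 5) (nat_lit 71974)
  (nat_lit 11) nil nil) (node (nat_lit 6) (nat_lit 71974) (nat_lit 10) nil nil)) nil)) (node
  (nat_lit 5) (nat_lit 70899) (nat_lit 8) (node (nat_lit 6) (nat_lit 72189) (nat_lit 9) (node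
  (nat_lit 4) (nat_lit 72189) (nat_lit 10) (node (nat_lit 5) (nat_lit 72189) (nat_lit 11) nil
  (node (nat_lit 6) (nat_lit 72189) (nat_lit 11) (node (nat_lit 5) (nat_lit 74035) (nat_lit 12)
  nil nil) nil)) (node (nat_lit 5) (nat_lit 72189) (nat_lit 10) nil nil)) (node (nat_lit 4)
  (nat_lit 72189) (nat_lit 9) (node (nat_lit 6) (nat_lit 73001) (nat_lit 10) (node (nat_lit 5)
  (nat_lit 73001) (nat_lit 11) nil nil) nil) (node (nat_lit 9) (nat_lit 74977) (nat_lit 9) nil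
  nil))) (node (nat_lit 9) (nat_lit 77935) (nat_lit 8) (node (nat_lit 6) (nat_lit 77935) (nat_lit
  9) nil nil) (node (nat_lit 0) (nat_lit 74590) (nat_lit 8) nil nil)))) (node (nat_lit 5) (nat_lit
  0) (nat_lit 7) (node (nat_lit 6) (nat_lit 71463) (nat_lit 8) (node (nat_lit 5) (nat_lit 73316)
  (nat_lit 9) (node (nat_lit 4) (nat_lit 73291) (nat_lit 10) (node (nat_lit 6) (nat_lit 74101)
  (nat_lit 11) (node (nat_lit 4) (nat_lit 75947) (nat_lit 12) nil (node (nat_lit 5) (nat_lit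
  75947) (nat_lit 12) nil nil)) (node (nat_lit 5) (nat_lit 72881) (nat_lit 11) (node (nat_lit 6)
  (nat_lit 73208) (nat_lit 12) nil nil) nil)) (node (nat_lit 9) (nat_lit 77745) (nat_lit 10) nil
  nil)) (node (nat_lit 4) (nat_lit 71896) (nat_lit 9) (node (nat_lit 5) (nat_lit 71896) (nat_lit
  10) nil (node (nat_lit 6) (nat_lit 71896) (nat_lit 10) nil nil)) (node (nat_lit 9) (nat_lit
  75541) (nat_lit 9) nil nil))) (node (nat_lit 4) (nat_lit 71731) (nat_lit 8) (node (nat_lit 6)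
  (nat_lit 72220) (nat_lit 9) (node (nat_lit 5) (nat_lit 73033) (nat_lit 10) (node (nat_lit 6)
  (nat_lit 73033) (nat_lit 11) nil nil) (node (nat_lit 4) (nat_lit 72195) (nat_lit 10) (node
  (nat_lit 5) (nat_lit 72195) (nat_lit 11) nil nil) nil)) (node (nat_lit 5) (nat_lit 73391)
  (nat_lit 9) (node (nat_lit 6) (nat_lit 74209) (nat_lit 10) (node (nat_lit 4) (nat_lit 74670)
  (nat_lit 11) (node (nat_lit 6) (nat_lit 74996) (nat_lit 12) nil (node (nat_lit 5) (nat_lit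
  76516) (nat_lit 12) nil nil)) (node (nat_lit 5) (nat_lit 74209) (nat_lit 11) (node (nat_lit 4)
  (nat_lit 74353) (nat_lit 12) nil nil) nil)) nil) (node (nat_lit 9) (nat_lit 75809) (nat_lit 9)
  nil nil))) (node (nat_lit 9) (nat_lit 77935) (nat_lit 8) (node (nat_lit 6) (nat_lit 77935)
  (nat_lit 9) nil nil) (node (nat_lit 0) (nat_lit 74998) (nat_lit 8) nil nil)))) (node (nat_lit 6)
  (nat_lit 0) (nat_lit 7) (node (nat_lit 4) (nat_lit 71320) (nat_lit 8) (node (nat_lit 5) (nat_lit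
  71885) (nat_lit 9) (node (nat_lit 6) (nat_lit 71794) (nat_lit 10) (node (nat_lit 4) (nat_lit
  71794) (nat_lit 11) nil (node (nat_lit 5) (nat_lit 71794) (nat_lit 11) nil nil)) (node (nat_lit
  4) (nat_lit 71885) (nat_lit 10) (node (nat_lit 6) (nat_lit 71885) (nat_lit 11) nil nil) nil))
  (node (nat_lit 6) (nat_lit 71320) (nat_lit 9) (node (nat_lit 5) (nat_lit 71320) (nat_lit 10)
  (node (nat_lit 4) (nat_lit 71320) (nat_lit 11) nil (node (nat_lit 6) (nat_lit 71320) (nat_lit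
  11) nil nil)) nil) (node (nat_lit 9) (nat_lit 75398) (nat_lit 9) nil nil))) (node (nat_lit 5)
  (nat_lit 70753) (nat_lit 8) (node (nat_lit 4) (nat_lit 70753) (nat_lit 9) (node (nat_lit 6)
  (nat_lit 70753) (nat_lit 10) (node (nat_lit 4) (nat_lit 70753) (nat_lit 11) nil (node (nat_lit
  5) (nat_lit 70753) (nat_lit 11) nil nil)) (node (nat_lit 5) (nat_lit 70753) (nat_lit 10) (node
  (nat_lit 6) (nat_lit 70753) (nat_lit 11) nil nil) nil)) (node (nat_lit 6) (nat_lit 71289)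
  (nat_lit 9) (node (nat_lit 4) (nat_lit 70813) (nat_lit 10) (node (nat_lit 5) (nat_lit 70813)
  (nat_lit 11) (node (nat_lit 6) (nat_lit 71139) (nat_lit 12) nil nil) (node (nat_lit 6) (nat_lit
  70813) (nat_lit 11) nil nil)) nil) (node (nat_lit 9) (nat_lit 74831) (nat_lit 9) nil nil)))
  (node (nat_lit 0) (nat_lit 75446) (nat_lit 8) nil nil))) (node (nat_lit 0) (nat_lit 75482)
  (nat_lit 7) (node (nat_lit 9) (nat_lit 77303) (nat_lit 8) nil (node (nat_lit 6) (nat_lit 75482)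
  (nat_lit 8) nil (node (nat_lit 4) (nat_lit 75482) (nat_lit 8) nil (node (nat_lit 5) (nat_lit
  75482) (nat_lit 8) nil nil)))) nil)))) (node (nat_lit 5) (nat_lit 0) (nat_lit 6) (node (nat_lit
  0) (nat_lit 0) (nat_lit 7) (node (nat_lit 5) (nat_lit 0) (nat_lit 8) (node (nat_lit 6) (nat_lit
  67252) (nat_lit 9) (node (nat_lit 4) (nat_lit 69001) (nat_lit 10) (node (nat_lit 5) (nat_lit
  69746) (nat_lit 11) (node (nat_lit 4) (nat_lit 69931) (nat_lit 12) nil (node (nat_lit 6)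
  (nat_lit 70197) (nat_lit 12) nil nil)) (node (nat_lit 6) (nat_lit 69819) (nat_lit 11) (node
  (nat_lit 5) (nat_lit 69819) (nat_lit 12) nil nil) (node (nat_lit 0) (nat_lit 71893) (nat_lit 11)
  nil (node (nat_lit 10) (nat_lit 71893) (nat_lit 11) nil nil)))) (node (nat_lit 5) (nat_lit
  68697) (nat_lit 10) (node (nat_lit 4) (nat_lit 69287) (nat_lit 11) (node (nat_lit 6) (nat_lit
  69287) (nat_lit 12) nil nil) (node (nat_lit 10) (nat_lit 74874) (nat_lit 11) nil nil)) (node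
  (nat_lit 10) (nat_lit 74987) (nat_lit 10) nil (node (nat_lit 0) (nat_lit 72585) (nat_lit 10) nil
  nil)))) (node (nat_lit 4) (nat_lit 67369) (nat_lit 9) (node (nat_lit 6) (nat_lit 68264) (nat_lit
  10) (node (nat_lit 5) (nat_lit 69081) (nat_lit 11) (node (nat_lit 6) (nat_lit 69081) (nat_lit
  12) nil nil) (node (nat_lit 4) (nat_lit 68607) (nat_lit 11) (node (nat_lit 5) (nat_lit 68155)
  (nat_lit 12) nil nil) (node (nat_lit 10) (nat_lit 71156) (nat_lit 11) nil (node (nat_lit 0)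
  (nat_lit 71156) (nat_lit 11) nil nil)))) (node (nat_lit 5) (nat_lit 68919) (nat_lit 10) (node
  (nat_lit 6) (nat_lit 69377) (nat_lit 11) (node (nat_lit 4) (nat_lit 68925) (nat_lit 12) nil
  (node (nat_lit 5) (nat_lit 69377) (nat_lit 12) nil nil)) (node (nat_lit 10) (nat_lit 75097)
  (nat_lit 11) nil (node (nat_lit 0) (nat_lit 71812) (nat_lit 11) nil nil))) (node (nat_lit 10)
  (nat_lit 74225) (nat_lit 10) nil (node (nat_lit 0) (nat_lit 75104) (nat_lit 10) nil nil))))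
  (node (nat_lit 0) (nat_lit 73743) (nat_lit 9) (node (nat_lit 10) (nat_lit 74095) (nat_lit 10)
  nil (node (nat_lit 5) (nat_lit 73743) (nat_lit 10) nil nil)) nil))) (node (nat_lit 6) (nat_lit
  0) (nat_lit 8) (node (nat_lit 10) (nat_lit 73695) (nat_lit 9) (node (nat_lit 5) (nat_lit 73695)
  (nat_lit 10) (node (nat_lit 10) (nat_lit 74356) (nat_lit 11) nil nil) nil) (node (nat_lit 5)
  (nat_lit 67202) (nat_lit 9) (node (nat_lit 6) (nat_lit 67202) (nat_lit 10) (node (nat_lit 10)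
  (nat_lit 70094) (nat_lit 11) nil nil) nil) (node (nat_lit 4) (nat_lit 66018) (nat_lit 9) nil
  (node (nat_lit 0) (nat_lit 68250) (nat_lit 9) nil nil)))) (node (nat_lit 4) (nat_lit 66312)
  (nat_lit 8) (node (nat_lit 10) (nat_lit 70634) (nat_lit 9) nil (node (nat_lit 5) (nat_lit 66312)
  (nat_lit 9) nil nil)) (node (nat_lit 0) (nat_lit 70588) (nat_lit 8) (node (nat_lit 5) (nat_lit
  70588) (nat_lit 9) nil (node (nat_lit 10) (nat_lit 71401) (nat_lit 9) nil nil)) nil)))) (node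
  (nat_lit 6) (nat_lit 0) (nat_lit 7) (node (nat_lit 0) (nat_lit 69275) (nat_lit 8) (node (nat_lit
  5) (nat_lit 69578) (nat_lit 9) (node (nat_lit 6) (nat_lit 69578) (nat_lit 10) (node (nat_lit 5)
  (nat_lit 69578) (nat_lit 11) (node (nat_lit 4) (nat_lit 69578) (nat_lit 12) nil (node (nat_lit
  11) (nat_lit 73034) (nat_lit 12) nil (node (nat_lit 0) (nat_lit 71331) (nat_lit 12) nil nil)))
  (node (nat_lit 4) (nat_lit 69578) (nat_lit 11) nil (node (nat_lit 0) (nat_lit 71051) (nat_lit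
  11) nil nil))) nil) (node (nat_lit 6) (nat_lit 69275) (nat_lit 9) (node (nat_lit 5) (nat_lit
  69275) (nat_lit 10) nil nil) nil)) nil) (node (nat_lit 4) (nat_lit 0) (nat_lit 7) (node (nat_lit
  0) (nat_lit 64972) (nat_lit 8) (node (nat_lit 5) (nat_lit 65048) (nat_lit 9) (node (nat_lit 4)
  (nat_lit 65029) (nat_lit 10) (node (nat_lit 6) (nat_lit 65029) (nat_lit 11) nil (node (nat_lit
  5) (nat_lit 65029) (nat_lit 11) nil (node (nat_lit 0) (nat_lit 66502) (nat_lit 11) nil nil)))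
  nil) nil) nil) nil))) nil)) (node (nat_lit 0) (nat_lit 0) (nat_lit 5) (node (nat_lit 6) (nat_lit
  0) (nat_lit 6) (node (nat_lit 5) (nat_lit 71219) (nat_lit 7) (node (nat_lit 4) (nat_lit 72862)
  (nat_lit 8) (node (nat_lit 6) (nat_lit 72862) (nat_lit 9) nil (node (nat_lit 5) (nat_lit 72862)
  (nat_lit 9) (node (nat_lit 6) (nat_lit 72862) (nat_lit 10) (node (nat_lit 4) (nat_lit 74795)
  (nat_lit 11) (node (nat_lit 8) (nat_lit 33824) (nat_lit 12) nil nil) nil) nil) nil)) (node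
  (nat_lit 6) (nat_lit 71219) (nat_lit 8) nil (node (nat_lit 8) (nat_lit 75085) (nat_lit 8) nil
  nil))) (node (nat_lit 4) (nat_lit 71492) (nat_lit 7) (node (nat_lit 5) (nat_lit 71467) (nat_lit
  8) (node (nat_lit 6) (nat_lit 71467) (nat_lit 9) nil (node (nat_lit 4) (nat_lit 71467) (nat_lit
  9) nil nil)) (node (nat_lit 6) (nat_lit 71492) (nat_lit 8) nil nil)) (node (nat_lit 8) (nat_lit
  75525) (nat_lit 7) nil (node (nat_lit 0) (nat_lit 69462) (nat_lit 7) nil nil)))) (node (nat_lit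
  5) (nat_lit 0) (nat_lit 6) (node (nat_lit 4) (nat_lit 71407) (nat_lit 7) (node (nat_lit 6)
  (nat_lit 72405) (nat_lit 8) (node (nat_lit 4) (nat_lit 72405) (nat_lit 9) (node (nat_lit 5)
  (nat_lit 72405) (nat_lit 10) nil nil) (node (nat_lit 5) (nat_lit 72405) (nat_lit 9) nil nil))
  (node (nat_lit 5) (nat_lit 71382) (nat_lit 8) (node (nat_lit 6) (nat_lit 71382) (nat_lit 9) nil
  nil) nil)) (node (nat_lit 6) (nat_lit 70652) (nat_lit 7) (node (nat_lit 4) (nat_lit 72438)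
  (nat_lit 8) (node (nat_lit 6) (nat_lit 72438) (nat_lit 9) (node (nat_lit 5) (nat_lit 72438)
  (nat_lit 10) nil nil) (node (nat_lit 5) (nat_lit 73108) (nat_lit 9) (node (nat_lit 4) (nat_lit
  73108) (nat_lit 10) nil nil) nil)) (node (nat_lit 5) (nat_lit 72276) (nat_lit 8) (node (nat_lit
  4) (nat_lit 72276) (nat_lit 9) nil nil) (node (nat_lit 8) (nat_lit 74518) (nat_lit 8) nil nil)))
  (node (nat_lit 8) (nat_lit 73962) (nat_lit 7) nil (node (nat_lit 0) (nat_lit 69401) (nat_lit 7)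
  nil nil)))) (node (nat_lit 4) (nat_lit 66891) (nat_lit 6) (node (nat_lit 6) (nat_lit 71566)
  (nat_lit 7) (node (nat_lit 5) (nat_lit 71544) (nat_lit 8) (node (nat_lit 4) (nat_lit 71797)
  (nat_lit 9) (node (nat_lit 5) (nat_lit 71797) (nat_lit 10) nil nil) (node (nat_lit 6) (nat_lit
  71737) (nat_lit 9) (node (nat_lit 4) (nat_lit 71737) (nat_lit 10) nil nil) nil)) (node (nat_lit
  4) (nat_lit 71566) (nat_lit 8) (node (nat_lit 5) (nat_lit 71566) (nat_lit 9) nil nil) (node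
  (nat_lit 8) (nat_lit 75431) (nat_lit 8) nil nil))) (node (nat_lit 5) (nat_lit 71396) (nat_lit 7)
  (node (nat_lit 6) (nat_lit 72628) (nat_lit 8) (node (nat_lit 4) (nat_lit 72628) (nat_lit 9) nil
  (node (nat_lit 5) (nat_lit 72628) (nat_lit 9) nil nil)) (node (nat_lit 4) (nat_lit 71396)
  (nat_lit 8) nil (node (nat_lit 8) (nat_lit 75262) (nat_lit 8) nil nil))) nil)) (node (nat_lit 0)
  (nat_lit 71619) (nat_lit 6) nil nil)))) nil))) (node (nat_lit 5) (nat_lit 0) (nat_lit 4) (node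
  (nat_lit 4) (nat_lit 0) (nat_lit 5) (node (nat_lit 0) (nat_lit 0) (nat_lit 6) (node (nat_lit 6)
  (nat_lit 0) (nat_lit 7) (node (nat_lit 4) (nat_lit 76423) (nat_lit 8) (node (nat_lit 5) (nat_lit
  78033) (nat_lit 9) (node (nat_lit 6) (nat_lit 77581) (nat_lit 10) (node (nat_lit 4) (nat_lit
  77581) (nat_lit 11) nil nil) (node (nat_lit 4) (nat_lit 78033) (nat_lit 10) nil nil)) (node
  (nat_lit 6) (nat_lit 78994) (nat_lit 9) (node (nat_lit 5) (nat_lit 80437) (nat_lit 10) (node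
  (nat_lit 4) (nat_lit 81857) (nat_lit 11) nil (node (nat_lit 6) (nat_lit 80437) (nat_lit 11) nil
  nil)) (node (nat_lit 9) (nat_lit 83424) (nat_lit 10) nil nil)) (node (nat_lit 9) (nat_lit 83084)
  (nat_lit 9) nil nil))) (node (nat_lit 5) (nat_lit 76457) (nat_lit 8) (node (nat_lit 4) (nat_lit
  78051) (nat_lit 9) (node (nat_lit 6) (nat_lit 78051) (nat_lit 10) nil (node (nat_lit 5) (nat_lit
  78051) (nat_lit 10) nil nil)) (node (nat_lit 6) (nat_lit 77537) (nat_lit 9) (node (nat_lit 4)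
  (nat_lit 76909) (nat_lit 10) (node (nat_lit 5) (nat_lit 77161) (nat_lit 11) (node (nat_lit 4)
  (nat_lit 77305) (nat_lit 12) nil nil) nil) nil) (node (nat_lit 9) (nat_lit 83118) (nat_lit 9)
  nil nil))) (node (nat_lit 9) (nat_lit 85258) (nat_lit 8) (node (nat_lit 4) (nat_lit 85258)
  (nat_lit 9) nil nil) (node (nat_lit 0) (nat_lit 80022) (nat_lit 8) nil nil)))) (node (nat_lit 5)
  (nat_lit 0) (nat_lit 7) (node (nat_lit 6) (nat_lit 75360) (nat_lit 8) (node (nat_lit 4) (nat_lit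
  77195) (nat_lit 9) (node (nat_lit 5) (nat_lit 77646) (nat_lit 10) (node (nat_lit 4) (nat_lit
  77646) (nat_lit 11) nil nil) (node (nat_lit 6) (nat_lit 77195) (nat_lit 10) nil nil)) (node
  (nat_lit 5) (nat_lit 75804) (nat_lit 9) (node (nat_lit 4) (nat_lit 75804) (nat_lit 10) nil nil)
  (node (nat_lit 9) (nat_lit 82021) (nat_lit 9) nil nil))) (node (nat_lit 4) (nat_lit 75277)
  (nat_lit 8) (node (nat_lit 5) (nat_lit 77830) (nat_lit 9) (node (nat_lit 6) (nat_lit 79262)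
  (nat_lit 10) (node (nat_lit 4) (nat_lit 79625) (nat_lit 11) (node (nat_lit 6) (nat_lit 79859)
  (nat_lit 12) (node (nat_lit 5) (nat_lit 79337) (nat_lit 13) nil nil) nil) (node (nat_lit 5)
  (nat_lit 79514) (nat_lit 11) nil nil)) (node (nat_lit 9) (nat_lit 82259) (nat_lit 10) nil nil))
  (node (nat_lit 6) (nat_lit 77706) (nat_lit 9) (node (nat_lit 5) (nat_lit 77706) (nat_lit 10) nil
  (node (nat_lit 4) (nat_lit 77706) (nat_lit 10) nil nil)) nil)) (node (nat_lit 9) (nat_lit 85695)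
  (nat_lit 8) (node (nat_lit 4) (nat_lit 85695) (nat_lit 9) nil nil) (node (nat_lit 0) (nat_lit
  79108) (nat_lit 8) nil nil)))) (node (nat_lit 4) (nat_lit 0) (nat_lit 7) (node (nat_lit 5)
  (nat_lit 76211) (nat_lit 8) (node (nat_lit 6) (nat_lit 76211) (nat_lit 9) nil (node (nat_lit 4)
  (nat_lit 77500) (nat_lit 9) (node (nat_lit 6) (nat_lit 77500) (nat_lit 10) nil (node (nat_lit 9)
  (nat_lit 84822) (nat_lit 10) nil nil)) (node (nat_lit 9) (nat_lit 80289) (nat_lit 9) nil nil)))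
  (node (nat_lit 6) (nat_lit 76157) (nat_lit 8) (node (nat_lit 5) (nat_lit 76157) (nat_lit 9)
  (node (nat_lit 6) (nat_lit 76157) (nat_lit 10) nil (node (nat_lit 4) (nat_lit 76157) (nat_lit
  10) nil nil)) (node (nat_lit 4) (nat_lit 76157) (nat_lit 9) (node (nat_lit 5) (nat_lit 76157)
  (nat_lit 10) nil nil) nil)) (node (nat_lit 0) (nat_lit 80536) (nat_lit 8) nil nil))) (node
  (nat_lit 0) (nat_lit 80747) (nat_lit 7) (node (nat_lit 4) (nat_lit 80747) (nat_lit 8) nil (node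
  (nat_lit 9) (nat_lit 83162) (nat_lit 8) nil (node (nat_lit 6) (nat_lit 80747) (nat_lit 8) nil
  (node (nat_lit 5) (nat_lit 80747) (nat_lit 8) nil nil)))) nil)))) (node (nat_lit 6) (nat_lit 0)
  (nat_lit 6) (node (nat_lit 0) (nat_lit 0) (nat_lit 7) (node (nat_lit 6) (nat_lit 0) (nat_lit 8)
  (node (nat_lit 4) (nat_lit 78822) (nat_lit 9) (node (nat_lit 5) (nat_lit 78773) (nat_lit 10)
  (node (nat_lit 6) (nat_lit 78773) (nat_lit 11) nil nil) (node (nat_lit 6) (nat_lit 78822)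
  (nat_lit 10) (node (nat_lit 10) (nat_lit 81715) (nat_lit 11) nil nil) (node (nat_lit 10)
  (nat_lit 84873) (nat_lit 10) nil (node (nat_lit 0) (nat_lit 81406) (nat_lit 10) nil nil))))
  (node (nat_lit 5) (nat_lit 78256) (nat_lit 9) (node (nat_lit 4) (nat_lit 78256) (nat_lit 10) nil
  (node (nat_lit 6) (nat_lit 78256) (nat_lit 10) (node (nat_lit 10) (nat_lit 81148) (nat_lit 11)
  nil nil) (node (nat_lit 10) (nat_lit 82311) (nat_lit 10) nil (node (nat_lit 0) (nat_lit 82311)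
  (nat_lit 10) nil nil)))) (node (nat_lit 0) (nat_lit 83669) (nat_lit 9) nil nil))) (node (nat_lit
  4) (nat_lit 77432) (nat_lit 8) (node (nat_lit 10) (nat_lit 82948) (nat_lit 9) nil (node (nat_lit
  6) (nat_lit 77432) (nat_lit 9) nil nil)) (node (nat_lit 5) (nat_lit 76299) (nat_lit 8) nil (node
  (nat_lit 0) (nat_lit 79816) (nat_lit 8) nil nil)))) (node (nat_lit 4) (nat_lit 0) (nat_lit 7)
  (node (nat_lit 0) (nat_lit 80248) (nat_lit 8) (node (nat_lit 6) (nat_lit 80147) (nat_lit 9)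
  (node (nat_lit 4) (nat_lit 80147) (nat_lit 10) (node (nat_lit 6) (nat_lit 80147) (nat_lit 11)
  nil nil) nil) (node (nat_lit 4) (nat_lit 80248) (nat_lit 9) nil nil)) nil) (node (nat_lit 5)
  (nat_lit 0) (nat_lit 7) (node (nat_lit 0) (nat_lit 75342) (nat_lit 8) (node (nat_lit 6) (nat_lit
  76118) (nat_lit 9) (node (nat_lit 5) (nat_lit 76118) (nat_lit 10) nil nil) nil) nil) nil)))
  (node (nat_lit 5) (nat_lit 0) (nat_lit 6) (node (nat_lit 0) (nat_lit 0) (nat_lit 7) (node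
  (nat_lit 5) (nat_lit 0) (nat_lit 8) (node (nat_lit 6) (nat_lit 43500) (nat_lit 9) (node (nat_lit
  4) (nat_lit 46580) (nat_lit 10) (node (nat_lit 5) (nat_lit 48549) (nat_lit 11) (node (nat_lit 6)
  (nat_lit 49439) (nat_lit 12) (node (nat_lit 5) (nat_lit 50330) (nat_lit 13) nil nil) (node
  (nat_lit 4) (nat_lit 49829) (nat_lit 12) (node (nat_lit 6) (nat_lit 50365) (nat_lit 13) (node
  (nat_lit 5) (nat_lit 49917) (nat_lit 14) nil nil) nil) nil)) (node (nat_lit 6) (nat_lit 48483)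
  (nat_lit 11) (node (nat_lit 5) (nat_lit 49435) (nat_lit 12) (node (nat_lit 4) (nat_lit 49449)
  (nat_lit 13) nil (node (nat_lit 6) (nat_lit 50325) (nat_lit 13) nil nil)) nil) (node (nat_lit
  10) (nat_lit 50038) (nat_lit 11) nil (node (nat_lit 0) (nat_lit 50038) (nat_lit 11) nil nil))))
  (node (nat_lit 5) (nat_lit 46254) (nat_lit 10) (node (nat_lit 4) (nat_lit 47543) (nat_lit 11)
  (node (nat_lit 6) (nat_lit 48838) (nat_lit 12) (node (nat_lit 4) (nat_lit 49728) (nat_lit 13)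
  nil (node (nat_lit 5) (nat_lit 48852) (nat_lit 13) nil nil)) (node (nat_lit 5) (nat_lit 48795)
  (nat_lit 12) (node (nat_lit 6) (nat_lit 49685) (nat_lit 13) nil nil) nil)) (node (nat_lit 10)
  (nat_lit 50949) (nat_lit 11) nil (node (nat_lit 0) (nat_lit 49712) (nat_lit 11) nil nil))) (node
  (nat_lit 10) (nat_lit 50949) (nat_lit 10) (node (nat_lit 6) (nat_lit 50949) (nat_lit 11) nil
  nil) (node (nat_lit 0) (nat_lit 50949) (nat_lit 10) nil nil)))) (node (nat_lit 4) (nat_lit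
  43154) (nat_lit 9) (node (nat_lit 6) (nat_lit 46533) (nat_lit 10) (node (nat_lit 5) (nat_lit
  48132) (nat_lit 11) (node (nat_lit 6) (nat_lit 49355) (nat_lit 12) (node (nat_lit 4) (nat_lit
  50597) (nat_lit 13) nil nil) (node (nat_lit 4) (nat_lit 49312) (nat_lit 12) (node (nat_lit 5)
  (nat_lit 50203) (nat_lit 13) nil nil) nil)) (node (nat_lit 4) (nat_lit 48279) (nat_lit 11) (node
  (nat_lit 5) (nat_lit 49656) (nat_lit 12) (node (nat_lit 6) (nat_lit 50546) (nat_lit 13) nil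
  (node (nat_lit 4) (nat_lit 49670) (nat_lit 13) nil nil)) nil) (node (nat_lit 10) (nat_lit 49991)
  (nat_lit 11) nil (node (nat_lit 0) (nat_lit 49991) (nat_lit 11) nil nil)))) (node (nat_lit 10)
  (nat_lit 50949) (nat_lit 10) (node (nat_lit 5) (nat_lit 50949) (nat_lit 11) (node (nat_lit 10)
  (nat_lit 50949) (nat_lit 12) (node (nat_lit 4) (nat_lit 50949) (nat_lit 13) nil nil) (node
  (nat_lit 6) (nat_lit 50949) (nat_lit 12) nil nil)) (node (nat_lit 4) (nat_lit 50949) (nat_lit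
  11) nil nil)) (node (nat_lit 5) (nat_lit 45198) (nat_lit 10) (node (nat_lit 6) (nat_lit 46112)
  (nat_lit 11) (node (nat_lit 4) (nat_lit 46317) (nat_lit 12) (node (nat_lit 6) (nat_lit 47207)
  (nat_lit 13) nil nil) (node (nat_lit 5) (nat_lit 46739) (nat_lit 12) (node (nat_lit 4) (nat_lit
  46402) (nat_lit 13) nil nil) nil)) nil) (node (nat_lit 0) (nat_lit 49682) (nat_lit 10) nil
  nil)))) (node (nat_lit 0) (nat_lit 49637) (nat_lit 9) (node (nat_lit 10) (nat_lit 50949)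
  (nat_lit 10) (node (nat_lit 5) (nat_lit 50949) (nat_lit 11) nil nil) (node (nat_lit 5) (nat_lit
  49637) (nat_lit 10) nil (node (nat_lit 0) (nat_lit 50137) (nat_lit 10) nil (node (nat_lit 4)
  (nat_lit 49637) (nat_lit 10) nil (node (nat_lit 6) (nat_lit 49637) (nat_lit 10) nil nil)))))
  nil))) (node (nat_lit 4) (nat_lit 0) (nat_lit 8) (node (nat_lit 10) (nat_lit 49791) (nat_lit 9)
  (node (nat_lit 5) (nat_lit 49791) (nat_lit 10) (node (nat_lit 10) (nat_lit 50949) (nat_lit 11)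
  (node (nat_lit 4) (nat_lit 50949) (nat_lit 12) (node (nat_lit 5) (nat_lit 50949) (nat_lit 13)
  nil nil) nil) nil) nil) (node (nat_lit 5) (nat_lit 43258) (nat_lit 9) (node (nat_lit 4) (nat_lit
  46140) (nat_lit 10) (node (nat_lit 10) (nat_lit 50949) (nat_lit 11) (node (nat_lit 5) (nat_lit
  50949) (nat_lit 12) nil nil) nil) nil) (node (nat_lit 6) (nat_lit 43550) (nat_lit 9) nil (node
  (nat_lit 0) (nat_lit 43254) (nat_lit 9) nil nil)))) (node (nat_lit 6) (nat_lit 0) (nat_lit 8)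
  (node (nat_lit 10) (nat_lit 50171) (nat_lit 9) (node (nat_lit 5) (nat_lit 50171) (nat_lit 10)
  nil nil) (node (nat_lit 5) (nat_lit 43748) (nat_lit 9) (node (nat_lit 6) (nat_lit 43748)
  (nat_lit 10) (node (nat_lit 10) (nat_lit 45453) (nat_lit 11) nil nil) nil) (node (nat_lit 4)
  (nat_lit 41215) (nat_lit 9) nil (node (nat_lit 0) (nat_lit 42563) (nat_lit 9) nil nil)))) (node
  (nat_lit 0) (nat_lit 45257) (nat_lit 8) (node (nat_lit 5) (nat_lit 45331) (nat_lit 9) (node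
  (nat_lit 10) (nat_lit 47799) (nat_lit 10) nil nil) (node (nat_lit 10) (nat_lit 46717) (nat_lit
  9) nil nil)) nil)))) (node (nat_lit 6) (nat_lit 0) (nat_lit 7) (node (nat_lit 0) (nat_lit 44278)
  (nat_lit 8) (node (nat_lit 5) (nat_lit 45567) (nat_lit 9) (node (nat_lit 6) (nat_lit 47457)
  (nat_lit 10) (node (nat_lit 4) (nat_lit 47718) (nat_lit 11) (node (nat_lit 5) (nat_lit 48086)
  (nat_lit 12) (node (nat_lit 4) (nat_lit 48086) (nat_lit 13) nil (node (nat_lit 6) (nat_lit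
  48086) (nat_lit 13) nil nil)) (node (nat_lit 6) (nat_lit 47408) (nat_lit 12) (node (nat_lit 5)
  (nat_lit 47408) (nat_lit 13) nil nil) (node (nat_lit 11) (nat_lit 50949) (nat_lit 12) nil nil)))
  (node (nat_lit 5) (nat_lit 48535) (nat_lit 11) (node (nat_lit 4) (nat_lit 48903) (nat_lit 12)
  (node (nat_lit 6) (nat_lit 48863) (nat_lit 13) nil nil) (node (nat_lit 11) (nat_lit 50949)
  (nat_lit 12) nil (node (nat_lit 0) (nat_lit 50949) (nat_lit 12) nil nil))) (node (nat_lit 0)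
  (nat_lit 50224) (nat_lit 11) nil nil))) nil) (node (nat_lit 6) (nat_lit 44278) (nat_lit 9) (node
  (nat_lit 5) (nat_lit 44278) (nat_lit 10) nil nil) nil)) nil) nil)) nil))) (node (nat_lit 0)
  (nat_lit 0) (nat_lit 5) (node (nat_lit 6) (nat_lit 74350) (nat_lit 6) (node (nat_lit 4) (nat_lit
  74350) (nat_lit 7) (node (nat_lit 5) (nat_lit 74350) (nat_lit 8) (node (nat_lit 6) (nat_lit
  74350) (nat_lit 9) nil (node (nat_lit 4) (nat_lit 74350) (nat_lit 9) nil nil)) (node (nat_lit 6)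
  (nat_lit 74350) (nat_lit 8) nil nil)) (node (nat_lit 5) (nat_lit 74350) (nat_lit 7) (node
  (nat_lit 4) (nat_lit 74350) (nat_lit 8) (node (nat_lit 5) (nat_lit 74350) (nat_lit 9) (node
  (nat_lit 6) (nat_lit 75383) (nat_lit 10) (node (nat_lit 5) (nat_lit 78163) (nat_lit 11) (node
  (nat_lit 8) (nat_lit 42060) (nat_lit 12) nil nil) nil) nil) nil) (node (nat_lit 6) (nat_lit
  74350) (nat_lit 8) nil nil)) (node (nat_lit 8) (nat_lit 80547) (nat_lit 7) nil nil))) (node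
  (nat_lit 4) (nat_lit 75693) (nat_lit 6) (node (nat_lit 6) (nat_lit 75693) (nat_lit 7) (node
  (nat_lit 5) (nat_lit 75693) (nat_lit 8) nil (node (nat_lit 4) (nat_lit 75693) (nat_lit 8) nil
  (node (nat_lit 8) (nat_lit 79559) (nat_lit 8) nil nil))) (node (nat_lit 5) (nat_lit 75693)
  (nat_lit 7) (node (nat_lit 6) (nat_lit 75693) (nat_lit 8) (node (nat_lit 4) (nat_lit 75693)
  (nat_lit 9) nil (node (nat_lit 5) (nat_lit 75693) (nat_lit 9) nil nil)) (node (nat_lit 4)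
  (nat_lit 75693) (nat_lit 8) nil nil)) (node (nat_lit 8) (nat_lit 83772) (nat_lit 7) nil nil)))
  (node (nat_lit 5) (nat_lit 74501) (nat_lit 6) (node (nat_lit 6) (nat_lit 74501) (nat_lit 7)
  (node (nat_lit 4) (nat_lit 74501) (nat_lit 8) (node (nat_lit 6) (nat_lit 74501) (nat_lit 9)
  (node (nat_lit 5) (nat_lit 74501) (nat_lit 10) nil nil) (node (nat_lit 5) (nat_lit 74501)
  (nat_lit 9) (node (nat_lit 4) (nat_lit 74501) (nat_lit 10) nil nil) nil)) (node (nat_lit 5)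
  (nat_lit 74501) (nat_lit 8) nil (node (nat_lit 8) (nat_lit 78367) (nat_lit 8) nil nil))) (node
  (nat_lit 4) (nat_lit 74501) (nat_lit 7) (node (nat_lit 6) (nat_lit 74501) (nat_lit 8) (node
  (nat_lit 5) (nat_lit 74501) (nat_lit 9) nil (node (nat_lit 4) (nat_lit 74501) (nat_lit 9) nil
  nil)) nil) nil)) (node (nat_lit 0) (nat_lit 75332) (nat_lit 6) nil nil)))) nil)) nil))

noncomputable def c48 : Tr :=
  (node (nat_lit 3) (nat_lit 0) (nat_lit 1) (node (nat_lit 3) (nat_lit 0) (nat_lit 2) (node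
  (nat_lit 3) (nat_lit 0) (nat_lit 3) t464 (node (nat_lit 4) (nat_lit 0) (nat_lit 3) (node
  (nat_lit 3) (nat_lit 0) (nat_lit 4) (node (nat_lit 5) (nat_lit 0) (nat_lit 5) (node (nat_lit 0)
  (nat_lit 0) (nat_lit 6) (node (nat_lit 7) (nat_lit 0) (nat_lit 7) (node (nat_lit 5) (nat_lit
  52302) (nat_lit 8) (node (nat_lit 4) (nat_lit 53228) (nat_lit 9) nil (node (nat_lit 7) (nat_lit
  54691) (nat_lit 9) (node (nat_lit 4) (nat_lit 55434) (nat_lit 10) (node (nat_lit 5) (nat_lit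
  55687) (nat_lit 11) nil nil) (node (nat_lit 9) (nat_lit 58368) (nat_lit 10) nil nil)) nil))
  (node (nat_lit 4) (nat_lit 51420) (nat_lit 8) (node (nat_lit 5) (nat_lit 51006) (nat_lit 9) nil
  (node (nat_lit 7) (nat_lit 51984) (nat_lit 9) (node (nat_lit 5) (nat_lit 51984) (nat_lit 10) nil
  nil) (node (nat_lit 9) (nat_lit 56335) (nat_lit 9) nil nil))) (node (nat_lit 9) (nat_lit 58368)
  (nat_lit 8) (node (nat_lit 5) (nat_lit 58368) (nat_lit 9) nil (node (nat_lit 4) (nat_lit 58368)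
  (nat_lit 9) nil nil)) (node (nat_lit 0) (nat_lit 54164) (nat_lit 8) nil nil)))) (node (nat_lit
  4) (nat_lit 0) (nat_lit 7) (node (nat_lit 7) (nat_lit 52686) (nat_lit 8) (node (nat_lit 5)
  (nat_lit 54519) (nat_lit 9) (node (nat_lit 4) (nat_lit 54519) (nat_lit 10) nil (node (nat_lit 7)
  (nat_lit 54519) (nat_lit 10) nil nil)) (node (nat_lit 4) (nat_lit 53520) (nat_lit 9) (node
  (nat_lit 5) (nat_lit 53520) (nat_lit 10) nil nil) (node (nat_lit 9) (nat_lit 57601) (nat_lit 9)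
  nil nil))) (node (nat_lit 5) (nat_lit 52523) (nat_lit 8) (node (nat_lit 4) (nat_lit 54568)
  (nat_lit 9) (node (nat_lit 7) (nat_lit 55380) (nat_lit 10) nil (node (nat_lit 9) (nat_lit 57085)
  (nat_lit 10) nil nil)) (node (nat_lit 7) (nat_lit 52242) (nat_lit 9) (node (nat_lit 4) (nat_lit
  52242) (nat_lit 10) nil nil) (node (nat_lit 9) (nat_lit 57438) (nat_lit 9) nil nil))) (node
  (nat_lit 9) (nat_lit 58368) (nat_lit 8) (node (nat_lit 5) (nat_lit 58368) (nat_lit 9) nil (node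
  (nat_lit 7) (nat_lit 58368) (nat_lit 9) nil nil)) (node (nat_lit 0) (nat_lit 54410) (nat_lit 8)
  nil nil)))) (node (nat_lit 5) (nat_lit 0) (nat_lit 7) (node (nat_lit 7) (nat_lit 52082) (nat_lit
  8) (node (nat_lit 4) (nat_lit 52082) (nat_lit 9) nil (node (nat_lit 5) (nat_lit 52082) (nat_lit
  9) (node (nat_lit 4) (nat_lit 52082) (nat_lit 10) nil (node (nat_lit 9) (nat_lit 54599) (nat_lit
  10) nil nil)) (node (nat_lit 9) (nat_lit 54414) (nat_lit 9) nil nil))) (node (nat_lit 4)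
  (nat_lit 51992) (nat_lit 8) (node (nat_lit 7) (nat_lit 51992) (nat_lit 9) nil (node (nat_lit 5)
  (nat_lit 51992) (nat_lit 9) (node (nat_lit 7) (nat_lit 51992) (nat_lit 10) nil nil) (node
  (nat_lit 9) (nat_lit 54324) (nat_lit 9) nil nil))) (node (nat_lit 0) (nat_lit 55666) (nat_lit 8)
  nil nil))) (node (nat_lit 0) (nat_lit 56488) (nat_lit 7) (node (nat_lit 9) (nat_lit 58149)
  (nat_lit 8) nil (node (nat_lit 5) (nat_lit 56488) (nat_lit 8) nil (node (nat_lit 7) (nat_lit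
  56488) (nat_lit 8) nil (node (nat_lit 4) (nat_lit 56488) (nat_lit 8) nil nil)))) nil)))) (node
  (nat_lit 4) (nat_lit 0) (nat_lit 6) (node (nat_lit 0) (nat_lit 0) (nat_lit 7) (node (nat_lit 4)
  (nat_lit 0) (nat_lit 8) (node (nat_lit 7) (nat_lit 55873) (nat_lit 9) (node (nat_lit 5) (nat_lit
  55873) (nat_lit 10) nil (node (nat_lit 4) (nat_lit 55873) (nat_lit 10) nil (node (nat_lit 10)
  (nat_lit 57357) (nat_lit 10) nil (node (nat_lit 0) (nat_lit 57357) (nat_lit 10) nil nil))))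
  (node (nat_lit 5) (nat_lit 55393) (nat_lit 9) (node (nat_lit 7) (nat_lit 55393) (nat_lit 10) nil
  (node (nat_lit 4) (nat_lit 55393) (nat_lit 10) (node (nat_lit 10) (nat_lit 57039) (nat_lit 11)
  nil nil) (node (nat_lit 10) (nat_lit 58368) (nat_lit 10) (node (nat_lit 4) (nat_lit 58368)
  (nat_lit 11) nil nil) (node (nat_lit 0) (nat_lit 56877) (nat_lit 10) nil nil)))) (node (nat_lit
  0) (nat_lit 58368) (nat_lit 9) nil nil))) (node (nat_lit 5) (nat_lit 54244) (nat_lit 8) (node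
  (nat_lit 4) (nat_lit 54244) (nat_lit 9) nil (node (nat_lit 10) (nat_lit 56707) (nat_lit 9) (node
  (nat_lit 4) (nat_lit 56707) (nat_lit 10) nil nil) nil)) (node (nat_lit 7) (nat_lit 53997)
  (nat_lit 8) nil (node (nat_lit 0) (nat_lit 55658) (nat_lit 8) nil nil)))) (node (nat_lit 5)
  (nat_lit 0) (nat_lit 7) (node (nat_lit 0) (nat_lit 57928) (nat_lit 8) (node (nat_lit 4) (nat_lit
  57928) (nat_lit 9) (node (nat_lit 5) (nat_lit 57928) (nat_lit 10) (node (nat_lit 4) (nat_lit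
  57928) (nat_lit 11) nil nil) nil) (node (nat_lit 5) (nat_lit 57928) (nat_lit 9) nil nil)) nil)
  nil)) (node (nat_lit 7) (nat_lit 0) (nat_lit 6) (node (nat_lit 0) (nat_lit 0) (nat_lit 7) (node
  (nat_lit 7) (nat_lit 0) (nat_lit 8) (node (nat_lit 5) (nat_lit 55683) (nat_lit 9) (node (nat_lit
  4) (nat_lit 55683) (nat_lit 10) nil (node (nat_lit 10) (nat_lit 58368) (nat_lit 10) (node
  (nat_lit 7) (nat_lit 58368) (nat_lit 11) nil nil) (node (nat_lit 7) (nat_lit 55683) (nat_lit 10)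
  nil (node (nat_lit 0) (nat_lit 57166) (nat_lit 10) nil nil)))) (node (nat_lit 4) (nat_lit 55590)
  (nat_lit 9) (node (nat_lit 5) (nat_lit 55590) (nat_lit 10) nil (node (nat_lit 7) (nat_lit 55590)
  (nat_lit 10) (node (nat_lit 10) (nat_lit 57236) (nat_lit 11) nil nil) (node (nat_lit 10)
  (nat_lit 57074) (nat_lit 10) nil (node (nat_lit 0) (nat_lit 58368) (nat_lit 10) nil nil))))
  (node (nat_lit 0) (nat_lit 58368) (nat_lit 9) nil nil))) (node (nat_lit 5) (nat_lit 54767)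
  (nat_lit 8) (node (nat_lit 10) (nat_lit 58368) (nat_lit 9) (node (nat_lit 7) (nat_lit 58368)
  (nat_lit 10) nil nil) (node (nat_lit 7) (nat_lit 54767) (nat_lit 9) nil nil)) (node (nat_lit 4)
  (nat_lit 54060) (nat_lit 8) (node (nat_lit 10) (nat_lit 55359) (nat_lit 9) nil nil) (node
  (nat_lit 0) (nat_lit 57010) (nat_lit 8) nil nil)))) (node (nat_lit 4) (nat_lit 0) (nat_lit 7)
  (node (nat_lit 0) (nat_lit 55107) (nat_lit 8) (node (nat_lit 7) (nat_lit 55107) (nat_lit 9) nil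
  nil) nil) nil)) nil))) (node (nat_lit 4) (nat_lit 0) (nat_lit 5) (node (nat_lit 0) (nat_lit 0)
  (nat_lit 6) (node (nat_lit 7) (nat_lit 0) (nat_lit 7) (node (nat_lit 5) (nat_lit 30914) (nat_lit
  8) (node (nat_lit 4) (nat_lit 32837) (nat_lit 9) (node (nat_lit 7) (nat_lit 33649) (nat_lit 10)
  (node (nat_lit 4) (nat_lit 33649) (nat_lit 11) nil nil) (node (nat_lit 5) (nat_lit 32837)
  (nat_lit 10) nil nil)) (node (nat_lit 7) (nat_lit 31864) (nat_lit 9) (node (nat_lit 4) (nat_lit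
  32207) (nat_lit 10) (node (nat_lit 5) (nat_lit 33097) (nat_lit 11) nil nil) nil) (node (nat_lit
  9) (nat_lit 34784) (nat_lit 9) nil nil))) (node (nat_lit 4) (nat_lit 31065) (nat_lit 8) (node
  (nat_lit 7) (nat_lit 33103) (nat_lit 9) (node (nat_lit 5) (nat_lit 34566) (nat_lit 10) (node
  (nat_lit 4) (nat_lit 35038) (nat_lit 11) (node (nat_lit 5) (nat_lit 36071) (nat_lit 12) (node
  (nat_lit 7) (nat_lit 34785) (nat_lit 13) nil nil) (node (nat_lit 7) (nat_lit 36071) (nat_lit 12)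
  nil nil)) (node (nat_lit 7) (nat_lit 35038) (nat_lit 11) (node (nat_lit 4) (nat_lit 36071)
  (nat_lit 12) nil nil) nil)) (node (nat_lit 9) (nat_lit 37325) (nat_lit 10) nil nil)) (node
  (nat_lit 5) (nat_lit 32195) (nat_lit 9) (node (nat_lit 7) (nat_lit 32195) (nat_lit 10) nil (node
  (nat_lit 4) (nat_lit 32195) (nat_lit 10) nil nil)) nil)) (node (nat_lit 9) (nat_lit 36919)
  (nat_lit 8) (node (nat_lit 4) (nat_lit 36919) (nat_lit 9) (node (nat_lit 7) (nat_lit 36919)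
  (nat_lit 10) nil nil) (node (nat_lit 5) (nat_lit 36919) (nat_lit 9) nil nil)) (node (nat_lit 0)
  (nat_lit 32185) (nat_lit 8) nil nil)))) (node (nat_lit 5) (nat_lit 0) (nat_lit 7) (node (nat_lit
  4) (nat_lit 30634) (nat_lit 8) (node (nat_lit 5) (nat_lit 31578) (nat_lit 9) (node (nat_lit 7)
  (nat_lit 31782) (nat_lit 10) (node (nat_lit 4) (nat_lit 32672) (nat_lit 11) nil (node (nat_lit
  5) (nat_lit 32672) (nat_lit 11) nil nil)) (node (nat_lit 9) (nat_lit 35800) (nat_lit 10) nil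
  nil)) (node (nat_lit 7) (nat_lit 32296) (nat_lit 9) (node (nat_lit 5) (nat_lit 32204) (nat_lit
  10) nil (node (nat_lit 4) (nat_lit 32296) (nat_lit 10) nil nil)) (node (nat_lit 9) (nat_lit
  37370) (nat_lit 9) nil nil))) (node (nat_lit 7) (nat_lit 30545) (nat_lit 8) (node (nat_lit 4)
  (nat_lit 31806) (nat_lit 9) (node (nat_lit 5) (nat_lit 32618) (nat_lit 10) nil (node (nat_lit 7)
  (nat_lit 32618) (nat_lit 10) nil nil)) (node (nat_lit 5) (nat_lit 31622) (nat_lit 9) (node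
  (nat_lit 4) (nat_lit 33719) (nat_lit 10) (node (nat_lit 7) (nat_lit 35038) (nat_lit 11) (node
  (nat_lit 4) (nat_lit 36071) (nat_lit 12) nil nil) (node (nat_lit 5) (nat_lit 34609) (nat_lit 11)
  nil nil)) nil) (node (nat_lit 9) (nat_lit 34415) (nat_lit 9) nil nil))) (node (nat_lit 9)
  (nat_lit 36919) (nat_lit 8) (node (nat_lit 4) (nat_lit 36919) (nat_lit 9) (node (nat_lit 5)
  (nat_lit 36919) (nat_lit 10) nil nil) (node (nat_lit 7) (nat_lit 36919) (nat_lit 9) (node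
  (nat_lit 5) (nat_lit 36919) (nat_lit 10) nil nil) nil)) (node (nat_lit 0) (nat_lit 31860)
  (nat_lit 8) nil nil)))) (node (nat_lit 4) (nat_lit 0) (nat_lit 7) (node (nat_lit 7) (nat_lit
  31032) (nat_lit 8) (node (nat_lit 5) (nat_lit 31032) (nat_lit 9) (node (nat_lit 7) (nat_lit
  31032) (nat_lit 10) nil (node (nat_lit 4) (nat_lit 31032) (nat_lit 10) nil nil)) (node (nat_lit
  4) (nat_lit 31032) (nat_lit 9) (node (nat_lit 5) (nat_lit 31032) (nat_lit 10) nil nil) (node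
  (nat_lit 9) (nat_lit 33364) (nat_lit 9) nil nil))) (node (nat_lit 5) (nat_lit 30788) (nat_lit 8)
  (node (nat_lit 7) (nat_lit 30788) (nat_lit 9) (node (nat_lit 4) (nat_lit 30788) (nat_lit 10) nil
  (node (nat_lit 5) (nat_lit 30788) (nat_lit 10) nil nil)) (node (nat_lit 4) (nat_lit 30788)
  (nat_lit 9) (node (nat_lit 7) (nat_lit 30788) (nat_lit 10) (node (nat_lit 5) (nat_lit 30788)
  (nat_lit 11) nil nil) nil) (node (nat_lit 9) (nat_lit 33120) (nat_lit 9) nil nil))) (node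
  (nat_lit 0) (nat_lit 33247) (nat_lit 8) nil nil))) (node (nat_lit 0) (nat_lit 33257) (nat_lit 7)
  (node (nat_lit 9) (nat_lit 36062) (nat_lit 8) nil (node (nat_lit 4) (nat_lit 33257) (nat_lit 8)
  nil (node (nat_lit 5) (nat_lit 33257) (nat_lit 8) nil (node (nat_lit 7) (nat_lit 33257) (nat_lit
  8) nil nil)))) nil)))) (node (nat_lit 5) (nat_lit 0) (nat_lit 6) (node (nat_lit 0) (nat_lit 0)
  (nat_lit 7) (node (nat_lit 5) (nat_lit 0) (nat_lit 8) (node (nat_lit 4) (nat_lit 33999) (nat_lit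
  9) (node (nat_lit 7) (nat_lit 35072) (nat_lit 10) (node (nat_lit 5) (nat_lit 35320) (nat_lit 11)
  (node (nat_lit 7) (nat_lit 35320) (nat_lit 12) nil (node (nat_lit 4) (nat_lit 35320) (nat_lit
  12) nil nil)) (node (nat_lit 4) (nat_lit 35890) (nat_lit 11) (node (nat_lit 5) (nat_lit 35890)
  (nat_lit 12) nil nil) nil)) (node (nat_lit 5) (nat_lit 34570) (nat_lit 10) (node (nat_lit 7)
  (nat_lit 34570) (nat_lit 11) nil (node (nat_lit 10) (nat_lit 37182) (nat_lit 11) nil nil)) (node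
  (nat_lit 10) (nat_lit 37555) (nat_lit 10) (node (nat_lit 5) (nat_lit 37555) (nat_lit 11) nil
  nil) (node (nat_lit 0) (nat_lit 37555) (nat_lit 10) nil nil)))) (node (nat_lit 7) (nat_lit
  33911) (nat_lit 9) (node (nat_lit 4) (nat_lit 34779) (nat_lit 10) (node (nat_lit 5) (nat_lit
  35596) (nat_lit 11) (node (nat_lit 4) (nat_lit 35596) (nat_lit 12) nil nil) (node (nat_lit 7)
  (nat_lit 35596) (nat_lit 11) (node (nat_lit 5) (nat_lit 35596) (nat_lit 12) nil nil) (node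
  (nat_lit 0) (nat_lit 36425) (nat_lit 11) nil nil))) (node (nat_lit 5) (nat_lit 34509) (nat_lit
  10) (node (nat_lit 4) (nat_lit 34889) (nat_lit 11) (node (nat_lit 7) (nat_lit 34889) (nat_lit
  12) nil nil) (node (nat_lit 10) (nat_lit 37121) (nat_lit 11) nil nil)) (node (nat_lit 10)
  (nat_lit 37555) (nat_lit 10) nil (node (nat_lit 0) (nat_lit 37555) (nat_lit 10) nil nil))))
  (node (nat_lit 0) (nat_lit 37370) (nat_lit 9) nil nil))) (node (nat_lit 4) (nat_lit 32901)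
  (nat_lit 8) (node (nat_lit 10) (nat_lit 37370) (nat_lit 9) (node (nat_lit 5) (nat_lit 37370)
  (nat_lit 10) nil nil) (node (nat_lit 5) (nat_lit 34067) (nat_lit 9) (node (nat_lit 4) (nat_lit
  34067) (nat_lit 10) nil nil) (node (nat_lit 7) (nat_lit 32901) (nat_lit 9) nil nil))) (node
  (nat_lit 7) (nat_lit 33001) (nat_lit 8) (node (nat_lit 10) (nat_lit 34948) (nat_lit 9) nil (node
  (nat_lit 5) (nat_lit 33001) (nat_lit 9) nil nil)) (node (nat_lit 0) (nat_lit 36174) (nat_lit 8)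
  (node (nat_lit 5) (nat_lit 36174) (nat_lit 9) nil (node (nat_lit 10) (nat_lit 36624) (nat_lit 9)
  nil nil)) nil)))) (node (nat_lit 7) (nat_lit 0) (nat_lit 7) (node (nat_lit 0) (nat_lit 35265)
  (nat_lit 8) (node (nat_lit 5) (nat_lit 35672) (nat_lit 9) (node (nat_lit 7) (nat_lit 35672)
  (nat_lit 10) (node (nat_lit 4) (nat_lit 35672) (nat_lit 11) nil (node (nat_lit 5) (nat_lit
  35672) (nat_lit 11) nil nil)) nil) nil) nil) nil)) nil)) (node (nat_lit 0) (nat_lit 0) (nat_lit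
  5) (node (nat_lit 4) (nat_lit 0) (nat_lit 6) (node (nat_lit 5) (nat_lit 51128) (nat_lit 7) (node
  (nat_lit 7) (nat_lit 53121) (nat_lit 8) (node (nat_lit 4) (nat_lit 52965) (nat_lit 9) nil (node
  (nat_lit 5) (nat_lit 53121) (nat_lit 9) nil nil)) (node (nat_lit 4) (nat_lit 51128) (nat_lit 8)
  nil (node (nat_lit 8) (nat_lit 53169) (nat_lit 8) nil nil))) (node (nat_lit 7) (nat_lit 50982)
  (nat_lit 7) (node (nat_lit 5) (nat_lit 53305) (nat_lit 8) (node (nat_lit 4) (nat_lit 53305)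
  (nat_lit 9) nil (node (nat_lit 7) (nat_lit 53305) (nat_lit 9) nil nil)) (node (nat_lit 4)
  (nat_lit 50982) (nat_lit 8) nil nil)) (node (nat_lit 8) (nat_lit 57472) (nat_lit 7) nil (node
  (nat_lit 0) (nat_lit 49101) (nat_lit 7) nil nil)))) (node (nat_lit 5) (nat_lit 0) (nat_lit 6)
  (node (nat_lit 7) (nat_lit 50193) (nat_lit 7) (node (nat_lit 4) (nat_lit 51196) (nat_lit 8)
  (node (nat_lit 7) (nat_lit 52206) (nat_lit 9) (node (nat_lit 5) (nat_lit 52206) (nat_lit 10) nil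
  nil) (node (nat_lit 5) (nat_lit 52616) (nat_lit 9) nil nil)) (node (nat_lit 5) (nat_lit 50198)
  (nat_lit 8) (node (nat_lit 4) (nat_lit 50198) (nat_lit 9) nil nil) nil)) (node (nat_lit 4)
  (nat_lit 50630) (nat_lit 7) (node (nat_lit 7) (nat_lit 53751) (nat_lit 8) (node (nat_lit 5)
  (nat_lit 54793) (nat_lit 9) (node (nat_lit 7) (nat_lit 54793) (nat_lit 10) nil nil) (node
  (nat_lit 4) (nat_lit 55171) (nat_lit 9) (node (nat_lit 5) (nat_lit 55171) (nat_lit 10) nil nil)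
  nil)) (node (nat_lit 5) (nat_lit 50634) (nat_lit 8) (node (nat_lit 7) (nat_lit 50634) (nat_lit
  9) nil nil) (node (nat_lit 8) (nat_lit 52671) (nat_lit 8) nil nil))) (node (nat_lit 8) (nat_lit
  56277) (nat_lit 7) nil (node (nat_lit 0) (nat_lit 48330) (nat_lit 7) nil nil)))) (node (nat_lit
  7) (nat_lit 46850) (nat_lit 6) (node (nat_lit 4) (nat_lit 51314) (nat_lit 7) (node (nat_lit 5)
  (nat_lit 52466) (nat_lit 8) (node (nat_lit 7) (nat_lit 53886) (nat_lit 9) nil (node (nat_lit 4)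
  (nat_lit 53567) (nat_lit 9) (node (nat_lit 7) (nat_lit 53712) (nat_lit 10) nil nil) nil)) (node
  (nat_lit 7) (nat_lit 51314) (nat_lit 8) nil (node (nat_lit 8) (nat_lit 53355) (nat_lit 8) nil
  nil))) (node (nat_lit 5) (nat_lit 50697) (nat_lit 7) (node (nat_lit 4) (nat_lit 53461) (nat_lit
  8) (node (nat_lit 7) (nat_lit 55730) (nat_lit 9) nil (node (nat_lit 5) (nat_lit 55730) (nat_lit
  9) (node (nat_lit 7) (nat_lit 55730) (nat_lit 10) nil nil) nil)) (node (nat_lit 7) (nat_lit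
  50697) (nat_lit 8) nil (node (nat_lit 8) (nat_lit 52737) (nat_lit 8) nil nil))) nil)) (node
  (nat_lit 0) (nat_lit 51357) (nat_lit 6) nil nil)))) nil))) nil) nil)) nil) nil)

noncomputable def t465 : Tr :=
  (node (nat_lit 1) (nat_lit 0) (nat_lit 3) (node (nat_lit 4) (nat_lit 0) (nat_lit 4) (node
  (nat_lit 6) (nat_lit 0) (nat_lit 5) (node (nat_lit 5) (nat_lit 0) (nat_lit 6) (node (nat_lit 4)
  (nat_lit 0) (nat_lit 7) (node (nat_lit 6) (nat_lit 13507) (nat_lit 8) (node (nat_lit 4) (nat_lit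
  13723) (nat_lit 9) (node (nat_lit 5) (nat_lit 13891) (nat_lit 10) (node (nat_lit 6) (nat_lit
  14022) (nat_lit 11) (node (nat_lit 4) (nat_lit 14124) (nat_lit 12) (node (nat_lit 6) (nat_lit
  14204) (nat_lit 13) (node (nat_lit 5) (nat_lit 14266) (nat_lit 14) (node (nat_lit 4) (nat_lit
  6967) (nat_lit 15) nil nil) nil) nil) nil) (node (nat_lit 4) (nat_lit 14022) (nat_lit 11) (node
  (nat_lit 6) (nat_lit 14124) (nat_lit 12) (node (nat_lit 5) (nat_lit 14204) (nat_lit 13) nil nil)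
  nil) nil)) nil) nil) (node (nat_lit 5) (nat_lit 13507) (nat_lit 8) (node (nat_lit 6) (nat_lit
  13723) (nat_lit 9) (node (nat_lit 4) (nat_lit 13891) (nat_lit 10) (node (nat_lit 6) (nat_lit
  6744) (nat_lit 11) nil nil) (node (nat_lit 5) (nat_lit 13891) (nat_lit 10) nil nil)) nil) nil))
  (node (nat_lit 6) (nat_lit 0) (nat_lit 7) (node (nat_lit 4) (nat_lit 0) (nat_lit 8) (node
  (nat_lit 5) (nat_lit 0) (nat_lit 9) (node (nat_lit 4) (nat_lit 0) (nat_lit 10) (node (nat_lit 6)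
  (nat_lit 0) (nat_lit 11) (node (nat_lit 4) (nat_lit 0) (nat_lit 12) (node (nat_lit 5) (nat_lit
  0) (nat_lit 13) (node (nat_lit 6) (nat_lit 14266) (nat_lit 14) (node (nat_lit 5) (nat_lit 14315)
  (nat_lit 15) (node (nat_lit 4) (nat_lit 14353) (nat_lit 16) (node (nat_lit 5) (nat_lit 14383)
  (nat_lit 17) (node (nat_lit 6) (nat_lit 14406) (nat_lit 18) (node (nat_lit 4) (nat_lit 14424)
  (nat_lit 19) (node (nat_lit 6) (nat_lit 14438) (nat_lit 20) (node (nat_lit 5) (nat_lit 14449)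
  (nat_lit 21) (node (nat_lit 6) (nat_lit 14458) (nat_lit 22) (node (nat_lit 4) (nat_lit 14464)
  (nat_lit 23) (node (nat_lit 5) (nat_lit 14470) (nat_lit 24) (node (nat_lit 4) (nat_lit 14474)
  (nat_lit 25) (node (nat_lit 6) (nat_lit 14477) (nat_lit 26) (node (nat_lit 4) (nat_lit 14479)
  (nat_lit 27) (node (nat_lit 5) (nat_lit 14481) (nat_lit 28) (node (nat_lit 6) (nat_lit 7205)
  (nat_lit 29) nil nil) nil) nil) nil) nil) nil) nil) nil) nil) nil) nil) nil) (node (nat_lit 6)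
  (nat_lit 14383) (nat_lit 17) nil nil)) nil) (node (nat_lit 4) (nat_lit 14315) (nat_lit 15) (node
  (nat_lit 6) (nat_lit 14353) (nat_lit 16) (node (nat_lit 5) (nat_lit 14383) (nat_lit 17) (node
  (nat_lit 6) (nat_lit 14406) (nat_lit 18) (node (nat_lit 4) (nat_lit 14424) (nat_lit 19) (node
  (nat_lit 5) (nat_lit 14438) (nat_lit 20) nil nil) nil) nil) nil) nil) nil)) (node (nat_lit 0)
  (nat_lit 14266) (nat_lit 14) nil (node (nat_lit 2) (nat_lit 14151) (nat_lit 14) nil nil))) (node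
  (nat_lit 0) (nat_lit 14204) (nat_lit 13) (node (nat_lit 6) (nat_lit 14266) (nat_lit 14) nil
  (node (nat_lit 4) (nat_lit 14266) (nat_lit 14) nil (node (nat_lit 5) (nat_lit 14266) (nat_lit
  14) nil nil))) (node (nat_lit 2) (nat_lit 14053) (nat_lit 13) (node (nat_lit 6) (nat_lit 14069)
  (nat_lit 14) (node (nat_lit 4) (nat_lit 14064) (nat_lit 15) (node (nat_lit 5) (nat_lit 14085)
  (nat_lit 16) nil nil) nil) (node (nat_lit 4) (nat_lit 14115) (nat_lit 14) nil (node (nat_lit 5)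
  (nat_lit 14115) (nat_lit 14) nil nil))) nil))) (node (nat_lit 5) (nat_lit 14124) (nat_lit 12)
  (node (nat_lit 4) (nat_lit 14204) (nat_lit 13) (node (nat_lit 5) (nat_lit 14266) (nat_lit 14)
  (node (nat_lit 6) (nat_lit 14315) (nat_lit 15) (node (nat_lit 4) (nat_lit 14353) (nat_lit 16)
  (node (nat_lit 6) (nat_lit 14383) (nat_lit 17) (node (nat_lit 5) (nat_lit 14406) (nat_lit 18)
  (node (nat_lit 6) (nat_lit 14424) (nat_lit 19) (node (nat_lit 4) (nat_lit 14438) (nat_lit 20)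
  (node (nat_lit 5) (nat_lit 14449) (nat_lit 21) (node (nat_lit 4) (nat_lit 14458) (nat_lit 22)
  (node (nat_lit 6) (nat_lit 7186) (nat_lit 23) nil nil) nil) nil) nil) nil) nil) nil) nil) nil)
  nil) (node (nat_lit 6) (nat_lit 14204) (nat_lit 13) nil nil)) (node (nat_lit 2) (nat_lit 13927)
  (nat_lit 12) nil (node (nat_lit 0) (nat_lit 14124) (nat_lit 12) nil nil)))) (node (nat_lit 0)
  (nat_lit 14022) (nat_lit 11) nil (node (nat_lit 2) (nat_lit 13768) (nat_lit 11) (node (nat_lit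
  5) (nat_lit 13870) (nat_lit 12) nil (node (nat_lit 4) (nat_lit 13870) (nat_lit 12) nil (node
  (nat_lit 6) (nat_lit 13807) (nat_lit 12) nil nil))) nil))) (node (nat_lit 6) (nat_lit 0)
  (nat_lit 10) (node (nat_lit 5) (nat_lit 14022) (nat_lit 11) (node (nat_lit 4) (nat_lit 14124)
  (nat_lit 12) (node (nat_lit 6) (nat_lit 14204) (nat_lit 13) (node (nat_lit 4) (nat_lit 14266)
  (nat_lit 14) (node (nat_lit 5) (nat_lit 14315) (nat_lit 15) (node (nat_lit 6) (nat_lit 14353)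
  (nat_lit 16) (node (nat_lit 4) (nat_lit 14383) (nat_lit 17) (node (nat_lit 6) (nat_lit 14406)
  (nat_lit 18) (node (nat_lit 5) (nat_lit 14424) (nat_lit 19) (node (nat_lit 6) (nat_lit 14438)
  (nat_lit 20) (node (nat_lit 4) (nat_lit 14449) (nat_lit 21) (node (nat_lit 5) (nat_lit 14458)
  (nat_lit 22) (node (nat_lit 6) (nat_lit 14464) (nat_lit 23) (node (nat_lit 5) (nat_lit 14470)
  (nat_lit 24) (node (nat_lit 4) (nat_lit 6967) (nat_lit 25) nil nil) nil) nil) nil) nil) nil)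
  nil) nil) nil) nil) nil) (node (nat_lit 5) (nat_lit 14266) (nat_lit 14) nil nil)) (node (nat_lit
  5) (nat_lit 14204) (nat_lit 13) (node (nat_lit 6) (nat_lit 14266) (nat_lit 14) (node (nat_lit 4)
  (nat_lit 14315) (nat_lit 15) (node (nat_lit 6) (nat_lit 14353) (nat_lit 16) (node (nat_lit 5)
  (nat_lit 14383) (nat_lit 17) (node (nat_lit 6) (nat_lit 14406) (nat_lit 18) (node (nat_lit 4)
  (nat_lit 14424) (nat_lit 19) (node (nat_lit 5) (nat_lit 14438) (nat_lit 20) (node (nat_lit 6)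
  (nat_lit 7171) (nat_lit 21) nil nil) nil) nil) nil) nil) nil) nil) nil) nil)) nil) (node
  (nat_lit 2) (nat_lit 13768) (nat_lit 11) (node (nat_lit 6) (nat_lit 13807) (nat_lit 12) nil
  (node (nat_lit 5) (nat_lit 13870) (nat_lit 12) nil nil)) (node (nat_lit 0) (nat_lit 14022)
  (nat_lit 11) nil nil))) (node (nat_lit 0) (nat_lit 13891) (nat_lit 10) (node (nat_lit 6)
  (nat_lit 14022) (nat_lit 11) nil (node (nat_lit 5) (nat_lit 14022) (nat_lit 11) (node (nat_lit
  4) (nat_lit 14124) (nat_lit 12) nil nil) nil)) (node (nat_lit 2) (nat_lit 13574) (nat_lit 10)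
  (node (nat_lit 4) (nat_lit 13705) (nat_lit 11) nil (node (nat_lit 6) (nat_lit 13633) (nat_lit
  11) nil (node (nat_lit 5) (nat_lit 13705) (nat_lit 11) (node (nat_lit 4) (nat_lit 13807)
  (nat_lit 12) nil nil) nil))) nil)))) (node (nat_lit 0) (nat_lit 13723) (nat_lit 9) (node
  (nat_lit 4) (nat_lit 13891) (nat_lit 10) nil (node (nat_lit 6) (nat_lit 13891) (nat_lit 10) nil
  (node (nat_lit 5) (nat_lit 13891) (nat_lit 10) nil nil))) (node (nat_lit 2) (nat_lit 13723)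
  (nat_lit 9) (node (nat_lit 4) (nat_lit 13891) (nat_lit 10) nil (node (nat_lit 6) (nat_lit 13891)
  (nat_lit 10) nil (node (nat_lit 5) (nat_lit 13891) (nat_lit 10) nil nil))) nil))) nil) nil))
  nil) (node (nat_lit 5) (nat_lit 0) (nat_lit 5) (node (nat_lit 4) (nat_lit 0) (nat_lit 6) (node
  (nat_lit 6) (nat_lit 0) (nat_lit 7) (node (nat_lit 5) (nat_lit 6809) (nat_lit 8) (node (nat_lit
  6) (nat_lit 6885) (nat_lit 9) (node (nat_lit 4) (nat_lit 6911) (nat_lit 10) nil nil) (node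
  (nat_lit 4) (nat_lit 6885) (nat_lit 9) (node (nat_lit 5) (nat_lit 6885) (nat_lit 10) (node
  (nat_lit 6) (nat_lit 6931) (nat_lit 11) (node (nat_lit 4) (nat_lit 6947) (nat_lit 12) (node
  (nat_lit 5) (nat_lit 6947) (nat_lit 13) nil nil) nil) nil) nil) nil)) (node (nat_lit 4) (nat_lit
  6851) (nat_lit 8) (node (nat_lit 5) (nat_lit 6851) (nat_lit 9) (node (nat_lit 6) (nat_lit 6911)
  (nat_lit 10) (node (nat_lit 5) (nat_lit 6911) (nat_lit 11) (node (nat_lit 4) (nat_lit 6947)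
  (nat_lit 12) (node (nat_lit 5) (nat_lit 6947) (nat_lit 13) (node (nat_lit 6) (nat_lit 6967)
  (nat_lit 14) (node (nat_lit 4) (nat_lit 6967) (nat_lit 15) (node (nat_lit 5) (nat_lit 6967)
  (nat_lit 16) (node (nat_lit 4) (nat_lit 6967) (nat_lit 17) (node (nat_lit 6) (nat_lit 6967)
  (nat_lit 18) (node (nat_lit 4) (nat_lit 6967) (nat_lit 19) nil nil) nil) nil) nil) nil) nil)
  nil) nil) (node (nat_lit 4) (nat_lit 6931) (nat_lit 11) (node (nat_lit 6) (nat_lit 6947)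
  (nat_lit 12) (node (nat_lit 5) (nat_lit 6947) (nat_lit 13) (node (nat_lit 4) (nat_lit 6967)
  (nat_lit 14) (node (nat_lit 5) (nat_lit 6967) (nat_lit 15) (node (nat_lit 6) (nat_lit 6967)
  (nat_lit 16) (node (nat_lit 4) (nat_lit 6967) (nat_lit 17) (node (nat_lit 5) (nat_lit 6967)
  (nat_lit 18) (node (nat_lit 4) (nat_lit 6967) (nat_lit 19) (node (nat_lit 6) (nat_lit 6967)
  (nat_lit 20) (node (nat_lit 4) (nat_lit 6967) (nat_lit 21) (node (nat_lit 5) (nat_lit 6967)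
  (nat_lit 22) (node (nat_lit 6) (nat_lit 6967) (nat_lit 23) nil nil) nil) nil) nil) nil) nil)
  nil) nil) nil) nil) nil) nil) nil)) nil) nil) nil)) nil) nil) nil)) (node (nat_lit 5) (nat_lit
  0) (nat_lit 4) (node (nat_lit 4) (nat_lit 0) (nat_lit 5) (node (nat_lit 6) (nat_lit 0) (nat_lit
  6) (node (nat_lit 4) (nat_lit 0) (nat_lit 7) (node (nat_lit 5) (nat_lit 18177) (nat_lit 8) (node
  (nat_lit 6) (nat_lit 18177) (nat_lit 9) (node (nat_lit 5) (nat_lit 18177) (nat_lit 10) (node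
  (nat_lit 4) (nat_lit 6931) (nat_lit 11) nil nil) nil) (node (nat_lit 4) (nat_lit 18177) (nat_lit
  9) (node (nat_lit 6) (nat_lit 18177) (nat_lit 10) (node (nat_lit 5) (nat_lit 18177) (nat_lit 11)
  (node (nat_lit 4) (nat_lit 18177) (nat_lit 12) (node (nat_lit 5) (nat_lit 18177) (nat_lit 13)
  (node (nat_lit 6) (nat_lit 18177) (nat_lit 14) (node (nat_lit 5) (nat_lit 18177) (nat_lit 15)
  (node (nat_lit 4) (nat_lit 18177) (nat_lit 16) (node (nat_lit 6) (nat_lit 18177) (nat_lit 17)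
  (node (nat_lit 4) (nat_lit 18177) (nat_lit 18) (node (nat_lit 5) (nat_lit 18177) (nat_lit 19)
  (node (nat_lit 4) (nat_lit 18177) (nat_lit 20) (node (nat_lit 6) (nat_lit 10876) (nat_lit 21)
  nil nil) nil) nil) nil) nil) nil) nil) nil) nil) nil) nil) nil) nil)) nil) (node (nat_lit 5)
  (nat_lit 0) (nat_lit 7) (node (nat_lit 6) (nat_lit 18177) (nat_lit 8) (node (nat_lit 4) (nat_lit
  18095) (nat_lit 9) (node (nat_lit 5) (nat_lit 18177) (nat_lit 10) (node (nat_lit 4) (nat_lit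
  18177) (nat_lit 11) (node (nat_lit 6) (nat_lit 18177) (nat_lit 12) (node (nat_lit 5) (nat_lit
  18177) (nat_lit 13) (node (nat_lit 4) (nat_lit 18177) (nat_lit 14) (node (nat_lit 5) (nat_lit
  18177) (nat_lit 15) (node (nat_lit 6) (nat_lit 18177) (nat_lit 16) (node (nat_lit 5) (nat_lit
  18177) (nat_lit 17) (node (nat_lit 4) (nat_lit 18177) (nat_lit 18) (node (nat_lit 6) (nat_lit
  18177) (nat_lit 19) (node (nat_lit 5) (nat_lit 18177) (nat_lit 20) (node (nat_lit 6) (nat_lit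
  18177) (nat_lit 21) (node (nat_lit 4) (nat_lit 18177) (nat_lit 22) (node (nat_lit 5) (nat_lit
  18177) (nat_lit 23) (node (nat_lit 4) (nat_lit 18177) (nat_lit 24) (node (nat_lit 6) (nat_lit
  11015) (nat_lit 25) nil nil) nil) nil) nil) nil) nil) nil) nil) nil) nil) nil) nil) (node
  (nat_lit 4) (nat_lit 18177) (nat_lit 13) (node (nat_lit 5) (nat_lit 18177) (nat_lit 14) (node
  (nat_lit 6) (nat_lit 18177) (nat_lit 15) (node (nat_lit 5) (nat_lit 18177) (nat_lit 16) (node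
  (nat_lit 4) (nat_lit 18177) (nat_lit 17) (node (nat_lit 6) (nat_lit 18177) (nat_lit 18) (node
  (nat_lit 5) (nat_lit 18177) (nat_lit 19) (node (nat_lit 6) (nat_lit 18177) (nat_lit 20) (node
  (nat_lit 4) (nat_lit 18177) (nat_lit 21) (node (nat_lit 5) (nat_lit 18177) (nat_lit 22) nil nil)
  nil) nil) nil) nil) nil) nil) nil) nil) nil)) nil) (node (nat_lit 6) (nat_lit 17181) (nat_lit
  11) (node (nat_lit 5) (nat_lit 17261) (nat_lit 12) (node (nat_lit 4) (nat_lit 16105) (nat_lit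
  13) (node (nat_lit 6) (nat_lit 12486) (nat_lit 14) (node (nat_lit 4) (nat_lit 12535) (nat_lit
  15) (node (nat_lit 5) (nat_lit 12573) (nat_lit 16) (node (nat_lit 6) (nat_lit 12603) (nat_lit
  17) nil nil) nil) nil) nil) nil) nil) nil)) (node (nat_lit 6) (nat_lit 18177) (nat_lit 10) (node
  (nat_lit 5) (nat_lit 18128) (nat_lit 11) (node (nat_lit 4) (nat_lit 18177) (nat_lit 12) (node
  (nat_lit 5) (nat_lit 18177) (nat_lit 13) (node (nat_lit 6) (nat_lit 18177) (nat_lit 14) (node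
  (nat_lit 5) (nat_lit 18177) (nat_lit 15) (node (nat_lit 4) (nat_lit 18177) (nat_lit 16) (node
  (nat_lit 6) (nat_lit 18177) (nat_lit 17) (node (nat_lit 5) (nat_lit 18177) (nat_lit 18) (node
  (nat_lit 6) (nat_lit 18177) (nat_lit 19) (node (nat_lit 4) (nat_lit 18177) (nat_lit 20) nil nil)
  nil) nil) nil) nil) nil) nil) nil) nil) nil) nil)) nil) nil) nil)) (node (nat_lit 5) (nat_lit 0)
  (nat_lit 6) (node (nat_lit 6) (nat_lit 0) (nat_lit 7) (node (nat_lit 4) (nat_lit 10332) (nat_lit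
  8) (node (nat_lit 6) (nat_lit 10456) (nat_lit 9) (node (nat_lit 5) (nat_lit 10370) (nat_lit 10)
  (node (nat_lit 4) (nat_lit 10446) (nat_lit 11) (node (nat_lit 6) (nat_lit 10505) (nat_lit 12)
  (node (nat_lit 4) (nat_lit 10551) (nat_lit 13) (node (nat_lit 5) (nat_lit 10587) (nat_lit 14)
  (node (nat_lit 6) (nat_lit 10615) (nat_lit 15) (node (nat_lit 5) (nat_lit 10637) (nat_lit 16)
  (node (nat_lit 4) (nat_lit 10654) (nat_lit 17) (node (nat_lit 5) (nat_lit 10667) (nat_lit 18)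
  (node (nat_lit 6) (nat_lit 10678) (nat_lit 19) (node (nat_lit 4) (nat_lit 10686) (nat_lit 20)
  (node (nat_lit 6) (nat_lit 10692) (nat_lit 21) nil nil) nil) nil) nil) nil) nil) nil) nil) nil)
  nil) (node (nat_lit 6) (nat_lit 10407) (nat_lit 11) (node (nat_lit 4) (nat_lit 10461) (nat_lit
  12) (node (nat_lit 5) (nat_lit 10412) (nat_lit 13) (node (nat_lit 6) (nat_lit 10357) (nat_lit
  14) (node (nat_lit 5) (nat_lit 10151) (nat_lit 15) (node (nat_lit 4) (nat_lit 9891) (nat_lit 16)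
  (node (nat_lit 5) (nat_lit 9256) (nat_lit 17) (node (nat_lit 6) (nat_lit 8288) (nat_lit 18)
  (node (nat_lit 4) (nat_lit 6619) (nat_lit 19) nil nil) nil) nil) nil) nil) nil) nil) nil) nil))
  nil) (node (nat_lit 5) (nat_lit 10456) (nat_lit 9) (node (nat_lit 4) (nat_lit 10553) (nat_lit
  10) (node (nat_lit 6) (nat_lit 10629) (nat_lit 11) (node (nat_lit 4) (nat_lit 10688) (nat_lit
  12) (node (nat_lit 5) (nat_lit 10734) (nat_lit 13) (node (nat_lit 6) (nat_lit 10770) (nat_lit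
  14) (node (nat_lit 5) (nat_lit 10798) (nat_lit 15) (node (nat_lit 4) (nat_lit 10820) (nat_lit
  16) (node (nat_lit 5) (nat_lit 10837) (nat_lit 17) (node (nat_lit 6) (nat_lit 10850) (nat_lit
  18) (node (nat_lit 4) (nat_lit 10861) (nat_lit 19) nil nil) nil) nil) nil) nil) nil) nil) nil)
  nil) nil) nil)) nil) nil) nil)) nil) nil)) (node (nat_lit 4) (nat_lit 0) (nat_lit 3) (node
  (nat_lit 1) (nat_lit 0) (nat_lit 4) (node (nat_lit 5) (nat_lit 0) (nat_lit 5) (node (nat_lit 7)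
  (nat_lit 0) (nat_lit 6) (node (nat_lit 4) (nat_lit 10544) (nat_lit 7) (node (nat_lit 5) (nat_lit
  10374) (nat_lit 8) (node (nat_lit 4) (nat_lit 10081) (nat_lit 9) (node (nat_lit 7) (nat_lit
  6262) (nat_lit 10) nil nil) (node (nat_lit 7) (nat_lit 10540) (nat_lit 9) (node (nat_lit 5)
  (nat_lit 10670) (nat_lit 10) (node (nat_lit 4) (nat_lit 10724) (nat_lit 11) (node (nat_lit 5)
  (nat_lit 10705) (nat_lit 12) (node (nat_lit 7) (nat_lit 10724) (nat_lit 13) (node (nat_lit 4)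
  (nat_lit 10724) (nat_lit 14) (node (nat_lit 5) (nat_lit 10713) (nat_lit 15) (node (nat_lit 4)
  (nat_lit 10724) (nat_lit 16) (node (nat_lit 7) (nat_lit 10631) (nat_lit 17) (node (nat_lit 5)
  (nat_lit 10444) (nat_lit 18) (node (nat_lit 7) (nat_lit 10223) (nat_lit 19) (node (nat_lit 4)
  (nat_lit 9851) (nat_lit 20) (node (nat_lit 5) (nat_lit 9268) (nat_lit 21) (node (nat_lit 7)
  (nat_lit 8221) (nat_lit 22) (node (nat_lit 5) (nat_lit 6104) (nat_lit 23) (node (nat_lit 4)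
  (nat_lit 3603) (nat_lit 24) nil nil) nil) nil) nil) nil) nil) nil) nil) nil) nil) nil) nil) nil)
  nil) nil) nil)) nil) nil) (node (nat_lit 4) (nat_lit 0) (nat_lit 6) (node (nat_lit 5) (nat_lit
  0) (nat_lit 7) (node (nat_lit 7) (nat_lit 10353) (nat_lit 8) (node (nat_lit 4) (nat_lit 10247)
  (nat_lit 9) (node (nat_lit 7) (nat_lit 10348) (nat_lit 10) (node (nat_lit 5) (nat_lit 10282)
  (nat_lit 11) (node (nat_lit 7) (nat_lit 10333) (nat_lit 12) (node (nat_lit 4) (nat_lit 10311)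
  (nat_lit 13) (node (nat_lit 5) (nat_lit 10311) (nat_lit 14) (node (nat_lit 4) (nat_lit 10280)
  (nat_lit 15) (node (nat_lit 7) (nat_lit 10212) (nat_lit 16) (node (nat_lit 5) (nat_lit 9964)
  (nat_lit 17) (node (nat_lit 4) (nat_lit 9724) (nat_lit 18) (node (nat_lit 5) (nat_lit 9199)
  (nat_lit 19) (node (nat_lit 7) (nat_lit 8294) (nat_lit 20) (node (nat_lit 4) (nat_lit 6606)
  (nat_lit 21) nil nil) nil) nil) nil) nil) nil) nil) nil) nil) nil) nil) (node (nat_lit 5)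
  (nat_lit 10021) (nat_lit 10) (node (nat_lit 4) (nat_lit 9673) (nat_lit 11) (node (nat_lit 7)
  (nat_lit 8900) (nat_lit 12) (node (nat_lit 5) (nat_lit 6799) (nat_lit 13) nil nil) nil) nil)
  nil)) (node (nat_lit 5) (nat_lit 10482) (nat_lit 9) (node (nat_lit 4) (nat_lit 10583) (nat_lit
  10) (node (nat_lit 7) (nat_lit 10661) (nat_lit 11) (node (nat_lit 5) (nat_lit 10610) (nat_lit
  12) (node (nat_lit 7) (nat_lit 10646) (nat_lit 13) (node (nat_lit 4) (nat_lit 10625) (nat_lit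
  14) (node (nat_lit 5) (nat_lit 10613) (nat_lit 15) (node (nat_lit 4) (nat_lit 10592) (nat_lit
  16) (node (nat_lit 7) (nat_lit 10590) (nat_lit 17) (node (nat_lit 5) (nat_lit 10426) (nat_lit
  18) (node (nat_lit 4) (nat_lit 10288) (nat_lit 19) (node (nat_lit 5) (nat_lit 9898) (nat_lit 20)
  (node (nat_lit 7) (nat_lit 9342) (nat_lit 21) (node (nat_lit 5) (nat_lit 8633) (nat_lit 22)
  (node (nat_lit 4) (nat_lit 6955) (nat_lit 23) nil nil) nil) nil) nil) nil) nil) nil) nil) nil)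
  nil) nil) (node (nat_lit 4) (nat_lit 10723) (nat_lit 12) (node (nat_lit 5) (nat_lit 10724)
  (nat_lit 13) (node (nat_lit 4) (nat_lit 10724) (nat_lit 14) (node (nat_lit 7) (nat_lit 10724)
  (nat_lit 15) (node (nat_lit 5) (nat_lit 10724) (nat_lit 16) (node (nat_lit 4) (nat_lit 10724)
  (nat_lit 17) (node (nat_lit 5) (nat_lit 10724) (nat_lit 18) (node (nat_lit 7) (nat_lit 10724)
  (nat_lit 19) nil nil) nil) nil) nil) nil) nil) nil) nil)) nil) nil) nil)) nil) nil) nil)) (node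
  (nat_lit 4) (nat_lit 0) (nat_lit 5) (node (nat_lit 5) (nat_lit 0) (nat_lit 6) (node (nat_lit 7)
  (nat_lit 0) (nat_lit 7) (node (nat_lit 4) (nat_lit 10724) (nat_lit 8) (node (nat_lit 7) (nat_lit
  10724) (nat_lit 9) (node (nat_lit 5) (nat_lit 10724) (nat_lit 10) (node (nat_lit 7) (nat_lit
  10724) (nat_lit 11) (node (nat_lit 4) (nat_lit 10724) (nat_lit 12) (node (nat_lit 5) (nat_lit
  10724) (nat_lit 13) (node (nat_lit 4) (nat_lit 10724) (nat_lit 14) (node (nat_lit 7) (nat_lit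
  10724) (nat_lit 15) (node (nat_lit 4) (nat_lit 10577) (nat_lit 16) (node (nat_lit 5) (nat_lit
  9943) (nat_lit 17) (node (nat_lit 7) (nat_lit 8976) (nat_lit 18) (node (nat_lit 4) (nat_lit
  7307) (nat_lit 19) (node (nat_lit 7) (nat_lit 3579) (nat_lit 20) nil nil) nil) nil) nil) nil)
  nil) nil) nil) nil) nil) nil) nil) (node (nat_lit 5) (nat_lit 10724) (nat_lit 8) (node (nat_lit
  4) (nat_lit 10724) (nat_lit 9) (node (nat_lit 5) (nat_lit 10724) (nat_lit 10) (node (nat_lit 7)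
  (nat_lit 10724) (nat_lit 11) (node (nat_lit 4) (nat_lit 10724) (nat_lit 12) (node (nat_lit 5)
  (nat_lit 10724) (nat_lit 13) (node (nat_lit 4) (nat_lit 10724) (nat_lit 14) (node (nat_lit 7)
  (nat_lit 10724) (nat_lit 15) (node (nat_lit 4) (nat_lit 10569) (nat_lit 16) (node (nat_lit 5)
  (nat_lit 10014) (nat_lit 17) (node (nat_lit 7) (nat_lit 8978) (nat_lit 18) (node (nat_lit 5)
  (nat_lit 6871) (nat_lit 19) (node (nat_lit 4) (nat_lit 3579) (nat_lit 20) nil nil) nil) nil)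
  nil) nil) nil) nil) nil) nil) nil) nil) nil) nil)) nil) nil) nil)) nil) nil))

noncomputable def t466 : Tr :=
  (node (nat_lit 1) (nat_lit 0) (nat_lit 1) (node (nat_lit 1) (nat_lit 0) (nat_lit 2) (node
  (nat_lit 3) (nat_lit 0) (nat_lit 3) (node (nat_lit 4) (nat_lit 0) (nat_lit 4) (node (nat_lit 6)
  (nat_lit 0) (nat_lit 5) (node (nat_lit 5) (nat_lit 0) (nat_lit 6) (node (nat_lit 4) (nat_lit 0)
  (nat_lit 7) (node (nat_lit 6) (nat_lit 17900) (nat_lit 8) (node (nat_lit 4) (nat_lit 17994)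
  (nat_lit 9) (node (nat_lit 5) (nat_lit 18027) (nat_lit 10) (node (nat_lit 6) (nat_lit 18027)
  (nat_lit 11) (node (nat_lit 4) (nat_lit 18072) (nat_lit 12) (node (nat_lit 6) (nat_lit 18072)
  (nat_lit 13) (node (nat_lit 5) (nat_lit 18099) (nat_lit 14) (node (nat_lit 4) (nat_lit 10193)
  (nat_lit 15) nil nil) nil) nil) nil) nil) nil) nil) (node (nat_lit 5) (nat_lit 17953) (nat_lit
  8) (node (nat_lit 6) (nat_lit 16898) (nat_lit 9) (node (nat_lit 4) (nat_lit 14977) (nat_lit 10)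
  (node (nat_lit 6) (nat_lit 6918) (nat_lit 11) nil nil) nil) nil) nil)) (node (nat_lit 6)
  (nat_lit 0) (nat_lit 7) (node (nat_lit 4) (nat_lit 17953) (nat_lit 8) (node (nat_lit 5) (nat_lit
  17994) (nat_lit 9) (node (nat_lit 4) (nat_lit 18027) (nat_lit 10) (node (nat_lit 6) (nat_lit
  18027) (nat_lit 11) (node (nat_lit 4) (nat_lit 18072) (nat_lit 12) (node (nat_lit 5) (nat_lit
  18087) (nat_lit 13) (node (nat_lit 6) (nat_lit 18087) (nat_lit 14) (node (nat_lit 4) (nat_lit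
  18108) (nat_lit 15) (node (nat_lit 6) (nat_lit 18108) (nat_lit 16) (node (nat_lit 5) (nat_lit
  18121) (nat_lit 17) (node (nat_lit 6) (nat_lit 18121) (nat_lit 18) (node (nat_lit 4) (nat_lit
  18129) (nat_lit 19) (node (nat_lit 5) (nat_lit 18132) (nat_lit 20) nil nil) nil) nil) nil) nil)
  nil) nil) nil) nil) nil) nil) nil) nil) nil)) nil) (node (nat_lit 5) (nat_lit 0) (nat_lit 5)
  (node (nat_lit 4) (nat_lit 0) (nat_lit 6) (node (nat_lit 6) (nat_lit 8738) (nat_lit 7) (node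
  (nat_lit 5) (nat_lit 8709) (nat_lit 8) (node (nat_lit 4) (nat_lit 8589) (nat_lit 9) (node
  (nat_lit 5) (nat_lit 8356) (nat_lit 10) (node (nat_lit 6) (nat_lit 7617) (nat_lit 11) (node
  (nat_lit 4) (nat_lit 6422) (nat_lit 12) (node (nat_lit 5) (nat_lit 4621) (nat_lit 13) (node
  (nat_lit 4) (nat_lit 2884) (nat_lit 14) nil nil) nil) nil) nil) nil) nil) nil) nil) nil) nil))
  (node (nat_lit 5) (nat_lit 0) (nat_lit 4) (node (nat_lit 4) (nat_lit 0) (nat_lit 5) (node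
  (nat_lit 6) (nat_lit 0) (nat_lit 6) (node (nat_lit 4) (nat_lit 0) (nat_lit 7) (node (nat_lit 5)
  (nat_lit 18309) (nat_lit 8) (node (nat_lit 6) (nat_lit 18309) (nat_lit 9) (node (nat_lit 5)
  (nat_lit 18309) (nat_lit 10) (node (nat_lit 4) (nat_lit 9972) (nat_lit 11) nil nil) nil) (node
  (nat_lit 4) (nat_lit 18309) (nat_lit 9) (node (nat_lit 6) (nat_lit 18309) (nat_lit 10) (node
  (nat_lit 5) (nat_lit 18309) (nat_lit 11) (node (nat_lit 4) (nat_lit 18309) (nat_lit 12) (node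
  (nat_lit 5) (nat_lit 18309) (nat_lit 13) (node (nat_lit 6) (nat_lit 18309) (nat_lit 14) (node
  (nat_lit 5) (nat_lit 18309) (nat_lit 15) (node (nat_lit 4) (nat_lit 18259) (nat_lit 16) (node
  (nat_lit 6) (nat_lit 17756) (nat_lit 17) (node (nat_lit 4) (nat_lit 16613) (nat_lit 18) (node
  (nat_lit 5) (nat_lit 14775) (nat_lit 19) (node (nat_lit 4) (nat_lit 13009) (nat_lit 20) (node
  (nat_lit 6) (nat_lit 7447) (nat_lit 21) nil nil) nil) nil) nil) nil) nil) nil) nil) nil) nil)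
  nil) nil) nil)) nil) (node (nat_lit 5) (nat_lit 0) (nat_lit 7) (node (nat_lit 6) (nat_lit 18309)
  (nat_lit 8) (node (nat_lit 4) (nat_lit 18309) (nat_lit 9) (node (nat_lit 5) (nat_lit 18309)
  (nat_lit 10) (node (nat_lit 4) (nat_lit 18309) (nat_lit 11) (node (nat_lit 6) (nat_lit 18309)
  (nat_lit 12) (node (nat_lit 4) (nat_lit 18309) (nat_lit 13) (node (nat_lit 5) (nat_lit 18309)
  (nat_lit 14) (node (nat_lit 6) (nat_lit 18309) (nat_lit 15) (node (nat_lit 5) (nat_lit 18309)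
  (nat_lit 16) (node (nat_lit 4) (nat_lit 18309) (nat_lit 17) (node (nat_lit 6) (nat_lit 18309)
  (nat_lit 18) (node (nat_lit 5) (nat_lit 18309) (nat_lit 19) (node (nat_lit 6) (nat_lit 18309)
  (nat_lit 20) (node (nat_lit 4) (nat_lit 18309) (nat_lit 21) (node (nat_lit 5) (nat_lit 18309)
  (nat_lit 22) nil nil) nil) nil) nil) nil) nil) nil) nil) nil) nil) nil) (node (nat_lit 6)
  (nat_lit 18309) (nat_lit 11) (node (nat_lit 5) (nat_lit 18309) (nat_lit 12) (node (nat_lit 4)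
  (nat_lit 18309) (nat_lit 13) (node (nat_lit 6) (nat_lit 18309) (nat_lit 14) nil nil) nil) nil)
  nil)) nil) nil) nil) nil)) (node (nat_lit 5) (nat_lit 0) (nat_lit 6) (node (nat_lit 6) (nat_lit
  0) (nat_lit 7) (node (nat_lit 4) (nat_lit 0) (nat_lit 8) (node (nat_lit 6) (nat_lit 7443)
  (nat_lit 9) (node (nat_lit 5) (nat_lit 7517) (nat_lit 10) (node (nat_lit 4) (nat_lit 7543)
  (nat_lit 11) (node (nat_lit 6) (nat_lit 7543) (nat_lit 12) (node (nat_lit 4) (nat_lit 7555)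
  (nat_lit 13) (node (nat_lit 5) (nat_lit 7555) (nat_lit 14) (node (nat_lit 6) (nat_lit 7555)
  (nat_lit 15) (node (nat_lit 5) (nat_lit 7555) (nat_lit 16) (node (nat_lit 4) (nat_lit 7555)
  (nat_lit 17) (node (nat_lit 5) (nat_lit 7555) (nat_lit 18) (node (nat_lit 6) (nat_lit 7555)
  (nat_lit 19) (node (nat_lit 4) (nat_lit 7555) (nat_lit 20) (node (nat_lit 6) (nat_lit 7555)
  (nat_lit 21) nil nil) nil) nil) nil) nil) nil) nil) nil) nil) (node (nat_lit 5) (nat_lit 7555)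
  (nat_lit 12) (node (nat_lit 6) (nat_lit 7555) (nat_lit 13) (node (nat_lit 5) (nat_lit 7555)
  (nat_lit 14) (node (nat_lit 4) (nat_lit 7555) (nat_lit 15) nil nil) nil) nil) nil)) (node
  (nat_lit 6) (nat_lit 0) (nat_lit 11) (node (nat_lit 4) (nat_lit 7555) (nat_lit 12) (node
  (nat_lit 5) (nat_lit 7555) (nat_lit 13) (node (nat_lit 4) (nat_lit 7555) (nat_lit 14) nil (node
  (nat_lit 6) (nat_lit 7555) (nat_lit 14) (node (nat_lit 5) (nat_lit 7555) (nat_lit 15) (node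
  (nat_lit 4) (nat_lit 7555) (nat_lit 16) (node (nat_lit 5) (nat_lit 7555) (nat_lit 17) (node
  (nat_lit 6) (nat_lit 7555) (nat_lit 18) (node (nat_lit 4) (nat_lit 7555) (nat_lit 19) nil nil)
  nil) nil) nil) nil) nil)) nil) (node (nat_lit 2) (nat_lit 7517) (nat_lit 12) (node (nat_lit 5)
  (nat_lit 7555) (nat_lit 13) nil (node (nat_lit 6) (nat_lit 7517) (nat_lit 13) nil nil)) (node
  (nat_lit 0) (nat_lit 7555) (nat_lit 12) (node (nat_lit 5) (nat_lit 7555) (nat_lit 13) nil (node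
  (nat_lit 6) (nat_lit 7555) (nat_lit 13) nil nil)) nil))) nil)) nil) (node (nat_lit 5) (nat_lit
  7485) (nat_lit 9) (node (nat_lit 4) (nat_lit 7517) (nat_lit 10) (node (nat_lit 6) (nat_lit 7517)
  (nat_lit 11) (node (nat_lit 4) (nat_lit 7555) (nat_lit 12) (node (nat_lit 5) (nat_lit 7555)
  (nat_lit 13) (node (nat_lit 6) (nat_lit 7555) (nat_lit 14) (node (nat_lit 5) (nat_lit 7555)
  (nat_lit 15) (node (nat_lit 4) (nat_lit 7555) (nat_lit 16) (node (nat_lit 5) (nat_lit 7555)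
  (nat_lit 17) (node (nat_lit 6) (nat_lit 7555) (nat_lit 18) (node (nat_lit 4) (nat_lit 7555)
  (nat_lit 19) nil nil) nil) nil) nil) nil) nil) nil) (node (nat_lit 5) (nat_lit 7555) (nat_lit
  12) (node (nat_lit 4) (nat_lit 7555) (nat_lit 13) (node (nat_lit 5) (nat_lit 7555) (nat_lit 14)
  (node (nat_lit 6) (nat_lit 7555) (nat_lit 15) (node (nat_lit 5) (nat_lit 7555) (nat_lit 16)
  (node (nat_lit 4) (nat_lit 7555) (nat_lit 17) nil nil) nil) nil) nil) (node (nat_lit 6) (nat_lit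
  7555) (nat_lit 13) (node (nat_lit 4) (nat_lit 7555) (nat_lit 14) (node (nat_lit 5) (nat_lit
  7555) (nat_lit 15) (node (nat_lit 6) (nat_lit 7555) (nat_lit 16) (node (nat_lit 5) (nat_lit
  7555) (nat_lit 17) (node (nat_lit 4) (nat_lit 7555) (nat_lit 18) (node (nat_lit 5) (nat_lit
  7555) (nat_lit 19) (node (nat_lit 6) (nat_lit 7555) (nat_lit 20) (node (nat_lit 4) (nat_lit
  7555) (nat_lit 21) nil nil) nil) nil) nil) nil) nil) nil) nil) nil)) nil)) nil) nil) (node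
  (nat_lit 2) (nat_lit 7443) (nat_lit 9) nil (node (nat_lit 0) (nat_lit 7485) (nat_lit 9) nil
  nil)))) nil) nil) nil)) nil) nil)) (node (nat_lit 4) (nat_lit 0) (nat_lit 3) (node (nat_lit 3)
  (nat_lit 0) (nat_lit 4) (node (nat_lit 5) (nat_lit 0) (nat_lit 5) (node (nat_lit 7) (nat_lit 0)
  (nat_lit 6) (node (nat_lit 4) (nat_lit 0) (nat_lit 7) (node (nat_lit 5) (nat_lit 7436) (nat_lit
  8) (node (nat_lit 4) (nat_lit 7479) (nat_lit 9) (node (nat_lit 7) (nat_lit 7479) (nat_lit 10)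
  nil nil) (node (nat_lit 7) (nat_lit 7436) (nat_lit 9) (node (nat_lit 5) (nat_lit 7513) (nat_lit
  10) (node (nat_lit 4) (nat_lit 7539) (nat_lit 11) (node (nat_lit 7) (nat_lit 7539) (nat_lit 12)
  nil nil) nil) nil) nil)) (node (nat_lit 7) (nat_lit 0) (nat_lit 8) (node (nat_lit 5) (nat_lit
  7479) (nat_lit 9) (node (nat_lit 4) (nat_lit 7513) (nat_lit 10) (node (nat_lit 5) (nat_lit 7539)
  (nat_lit 11) (node (nat_lit 7) (nat_lit 7539) (nat_lit 12) (node (nat_lit 4) (nat_lit 7576)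
  (nat_lit 13) (node (nat_lit 5) (nat_lit 7588) (nat_lit 14) (node (nat_lit 4) (nat_lit 7598)
  (nat_lit 15) (node (nat_lit 7) (nat_lit 7598) (nat_lit 16) (node (nat_lit 5) (nat_lit 7611)
  (nat_lit 17) (node (nat_lit 7) (nat_lit 7611) (nat_lit 18) (node (nat_lit 4) (nat_lit 7620)
  (nat_lit 19) nil nil) nil) nil) nil) nil) nil) nil) nil) (node (nat_lit 7) (nat_lit 7513)
  (nat_lit 11) (node (nat_lit 4) (nat_lit 7560) (nat_lit 12) (node (nat_lit 5) (nat_lit 7576)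
  (nat_lit 13) nil nil) nil) nil)) nil) (node (nat_lit 2) (nat_lit 7381) (nat_lit 9) nil (node
  (nat_lit 0) (nat_lit 7479) (nat_lit 9) nil nil))) nil)) nil) (node (nat_lit 4) (nat_lit 0)
  (nat_lit 6) (node (nat_lit 5) (nat_lit 0) (nat_lit 7) (node (nat_lit 7) (nat_lit 0) (nat_lit 8)
  (node (nat_lit 4) (nat_lit 7479) (nat_lit 9) (node (nat_lit 7) (nat_lit 7479) (nat_lit 10) (node
  (nat_lit 5) (nat_lit 7539) (nat_lit 11) (node (nat_lit 7) (nat_lit 7539) (nat_lit 12) (node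
  (nat_lit 4) (nat_lit 7576) (nat_lit 13) (node (nat_lit 5) (nat_lit 7588) (nat_lit 14) (node
  (nat_lit 4) (nat_lit 7598) (nat_lit 15) (node (nat_lit 7) (nat_lit 7598) (nat_lit 16) (node
  (nat_lit 5) (nat_lit 7611) (nat_lit 17) (node (nat_lit 4) (nat_lit 7616) (nat_lit 18) (node
  (nat_lit 5) (nat_lit 7620) (nat_lit 19) (node (nat_lit 7) (nat_lit 7620) (nat_lit 20) (node
  (nat_lit 4) (nat_lit 7625) (nat_lit 21) nil nil) nil) nil) nil) nil) nil) nil) nil) nil) (node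
  (nat_lit 4) (nat_lit 7560) (nat_lit 12) (node (nat_lit 7) (nat_lit 7560) (nat_lit 13) (node
  (nat_lit 4) (nat_lit 7588) (nat_lit 14) (node (nat_lit 5) (nat_lit 7598) (nat_lit 15) (node
  (nat_lit 4) (nat_lit 7605) (nat_lit 16) (node (nat_lit 7) (nat_lit 7605) (nat_lit 17) (node
  (nat_lit 5) (nat_lit 7616) (nat_lit 18) (node (nat_lit 4) (nat_lit 7620) (nat_lit 19) (node
  (nat_lit 5) (nat_lit 7622) (nat_lit 20) (node (nat_lit 7) (nat_lit 7622) (nat_lit 21) (node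
  (nat_lit 4) (nat_lit 7626) (nat_lit 22) nil nil) nil) nil) nil) nil) nil) nil) nil) nil) nil)
  nil)) nil) (node (nat_lit 5) (nat_lit 7513) (nat_lit 10) (node (nat_lit 4) (nat_lit 7539)
  (nat_lit 11) (node (nat_lit 7) (nat_lit 7539) (nat_lit 12) (node (nat_lit 5) (nat_lit 7576)
  (nat_lit 13) nil nil) nil) nil) nil)) (node (nat_lit 5) (nat_lit 7479) (nat_lit 9) (node
  (nat_lit 4) (nat_lit 7513) (nat_lit 10) (node (nat_lit 7) (nat_lit 7513) (nat_lit 11) (node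
  (nat_lit 5) (nat_lit 7560) (nat_lit 12) (node (nat_lit 7) (nat_lit 7560) (nat_lit 13) (node
  (nat_lit 4) (nat_lit 7588) (nat_lit 14) (node (nat_lit 5) (nat_lit 7598) (nat_lit 15) (node
  (nat_lit 4) (nat_lit 7605) (nat_lit 16) (node (nat_lit 7) (nat_lit 7605) (nat_lit 17) (node
  (nat_lit 5) (nat_lit 7616) (nat_lit 18) (node (nat_lit 4) (nat_lit 7620) (nat_lit 19) (node
  (nat_lit 5) (nat_lit 7622) (nat_lit 20) (node (nat_lit 7) (nat_lit 7622) (nat_lit 21) (node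
  (nat_lit 5) (nat_lit 7626) (nat_lit 22) (node (nat_lit 4) (nat_lit 7628) (nat_lit 23) nil nil)
  nil) nil) nil) nil) nil) nil) nil) nil) nil) nil) (node (nat_lit 4) (nat_lit 7560) (nat_lit 12)
  (node (nat_lit 5) (nat_lit 7576) (nat_lit 13) (node (nat_lit 4) (nat_lit 7588) (nat_lit 14)
  (node (nat_lit 7) (nat_lit 7588) (nat_lit 15) (node (nat_lit 5) (nat_lit 7605) (nat_lit 16)
  (node (nat_lit 4) (nat_lit 7611) (nat_lit 17) (node (nat_lit 5) (nat_lit 7616) (nat_lit 18)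
  (node (nat_lit 7) (nat_lit 7616) (nat_lit 19) nil nil) nil) nil) nil) nil) nil) nil) nil)) nil)
  nil) (node (nat_lit 2) (nat_lit 7381) (nat_lit 9) nil (node (nat_lit 0) (nat_lit 7479) (nat_lit
  9) nil nil)))) nil) nil) nil)) (node (nat_lit 4) (nat_lit 0) (nat_lit 5) (node (nat_lit 5)
  (nat_lit 0) (nat_lit 6) (node (nat_lit 7) (nat_lit 7258) (nat_lit 7) (node (nat_lit 4) (nat_lit
  7384) (nat_lit 8) nil nil) nil) nil) nil)) nil) nil)) (node (nat_lit 3) (nat_lit 0) (nat_lit 2)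
  t465 nil)) (node (nat_lit 3) (nat_lit 0) (nat_lit 1) (node (nat_lit 1) (nat_lit 0) (nat_lit 2)
  (node (nat_lit 1) (nat_lit 0) (nat_lit 3) (node (nat_lit 4) (nat_lit 0) (nat_lit 4) (node
  (nat_lit 6) (nat_lit 0) (nat_lit 5) (node (nat_lit 5) (nat_lit 0) (nat_lit 6) (node (nat_lit 4)
  (nat_lit 0) (nat_lit 7) (node (nat_lit 6) (nat_lit 18459) (nat_lit 8) (node (nat_lit 4) (nat_lit
  18524) (nat_lit 9) (node (nat_lit 5) (nat_lit 18384) (nat_lit 10) (node (nat_lit 6) (nat_lit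
  17812) (nat_lit 11) (node (nat_lit 4) (nat_lit 16792) (nat_lit 12) (node (nat_lit 6) (nat_lit
  15483) (nat_lit 13) (node (nat_lit 5) (nat_lit 13419) (nat_lit 14) (node (nat_lit 4) (nat_lit
  7205) (nat_lit 15) (node (nat_lit 5) (nat_lit 7236) (nat_lit 16) (node (nat_lit 6) (nat_lit
  7259) (nat_lit 17) nil nil) nil) nil) nil) nil) nil) nil) nil) nil) (node (nat_lit 5) (nat_lit
  18486) (nat_lit 8) (node (nat_lit 6) (nat_lit 18623) (nat_lit 9) (node (nat_lit 4) (nat_lit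
  18723) (nat_lit 10) nil nil) nil) nil)) (node (nat_lit 6) (nat_lit 0) (nat_lit 7) (node (nat_lit
  4) (nat_lit 18296) (nat_lit 8) (node (nat_lit 5) (nat_lit 18481) (nat_lit 9) (node (nat_lit 4)
  (nat_lit 18615) (nat_lit 10) (node (nat_lit 6) (nat_lit 18720) (nat_lit 11) (node (nat_lit 4)
  (nat_lit 18802) (nat_lit 12) (node (nat_lit 5) (nat_lit 18866) (nat_lit 13) (node (nat_lit 6)
  (nat_lit 18915) (nat_lit 14) (node (nat_lit 4) (nat_lit 18954) (nat_lit 15) (node (nat_lit 6)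
  (nat_lit 18931) (nat_lit 16) (node (nat_lit 5) (nat_lit 18465) (nat_lit 17) (node (nat_lit 6)
  (nat_lit 17435) (nat_lit 18) (node (nat_lit 4) (nat_lit 15759) (nat_lit 19) (node (nat_lit 5)
  (nat_lit 12657) (nat_lit 20) nil nil) nil) nil) nil) nil) nil) nil) nil) nil) nil) nil) nil)
  nil) nil)) nil) (node (nat_lit 5) (nat_lit 0) (nat_lit 5) (node (nat_lit 4) (nat_lit 0) (nat_lit
  6) (node (nat_lit 6) (nat_lit 0) (nat_lit 7) (node (nat_lit 5) (nat_lit 6708) (nat_lit 8) (node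
  (nat_lit 4) (nat_lit 6933) (nat_lit 9) (node (nat_lit 5) (nat_lit 7067) (nat_lit 10) (node
  (nat_lit 6) (nat_lit 7172) (nat_lit 11) (node (nat_lit 5) (nat_lit 7254) (nat_lit 12) (node
  (nat_lit 4) (nat_lit 7318) (nat_lit 13) nil nil) (node (nat_lit 4) (nat_lit 7254) (nat_lit 12)
  (node (nat_lit 5) (nat_lit 7318) (nat_lit 13) (node (nat_lit 4) (nat_lit 7367) (nat_lit 14) nil
  nil) nil) nil)) nil) nil) nil) (node (nat_lit 4) (nat_lit 0) (nat_lit 8) (node (nat_lit 5)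
  (nat_lit 6976) (nat_lit 9) (node (nat_lit 6) (nat_lit 7142) (nat_lit 10) (node (nat_lit 5)
  (nat_lit 7247) (nat_lit 11) (node (nat_lit 4) (nat_lit 7329) (nat_lit 12) (node (nat_lit 5)
  (nat_lit 7393) (nat_lit 13) (node (nat_lit 6) (nat_lit 7443) (nat_lit 14) (node (nat_lit 4)
  (nat_lit 7482) (nat_lit 15) (node (nat_lit 5) (nat_lit 7512) (nat_lit 16) (node (nat_lit 4)
  (nat_lit 7536) (nat_lit 17) (node (nat_lit 6) (nat_lit 7554) (nat_lit 18) (node (nat_lit 4)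
  (nat_lit 7569) (nat_lit 19) nil nil) nil) nil) nil) nil) nil) nil) nil) (node (nat_lit 4)
  (nat_lit 7247) (nat_lit 11) (node (nat_lit 6) (nat_lit 7329) (nat_lit 12) (node (nat_lit 5)
  (nat_lit 7393) (nat_lit 13) (node (nat_lit 4) (nat_lit 7443) (nat_lit 14) (node (nat_lit 5)
  (nat_lit 7482) (nat_lit 15) (node (nat_lit 6) (nat_lit 7512) (nat_lit 16) (node (nat_lit 4)
  (nat_lit 7536) (nat_lit 17) (node (nat_lit 5) (nat_lit 7554) (nat_lit 18) (node (nat_lit 4)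
  (nat_lit 7569) (nat_lit 19) (node (nat_lit 6) (nat_lit 7580) (nat_lit 20) (node (nat_lit 4)
  (nat_lit 7589) (nat_lit 21) (node (nat_lit 5) (nat_lit 7596) (nat_lit 22) (node (nat_lit 6)
  (nat_lit 7601) (nat_lit 23) nil nil) nil) nil) nil) nil) nil) nil) nil) nil) nil) nil) nil)
  nil)) nil) (node (nat_lit 2) (nat_lit 6647) (nat_lit 9) nil (node (nat_lit 0) (nat_lit 6976)
  (nat_lit 9) nil nil))) nil)) nil) nil) nil)) (node (nat_lit 5) (nat_lit 0) (nat_lit 4) (node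
  (nat_lit 4) (nat_lit 0) (nat_lit 5) (node (nat_lit 6) (nat_lit 0) (nat_lit 6) (node (nat_lit 4)
  (nat_lit 0) (nat_lit 7) (node (nat_lit 5) (nat_lit 18528) (nat_lit 8) (node (nat_lit 6) (nat_lit
  17459) (nat_lit 9) (node (nat_lit 5) (nat_lit 15372) (nat_lit 10) (node (nat_lit 4) (nat_lit
  6959) (nat_lit 11) nil nil) nil) (node (nat_lit 4) (nat_lit 18713) (nat_lit 9) (node (nat_lit 6)
  (nat_lit 18815) (nat_lit 10) (node (nat_lit 5) (nat_lit 18893) (nat_lit 11) (node (nat_lit 4)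
  (nat_lit 18954) (nat_lit 12) (node (nat_lit 5) (nat_lit 19001) (nat_lit 13) (node (nat_lit 6)
  (nat_lit 19038) (nat_lit 14) (node (nat_lit 5) (nat_lit 19068) (nat_lit 15) (node (nat_lit 4)
  (nat_lit 19090) (nat_lit 16) (node (nat_lit 6) (nat_lit 19108) (nat_lit 17) (node (nat_lit 4)
  (nat_lit 19121) (nat_lit 18) (node (nat_lit 5) (nat_lit 19132) (nat_lit 19) nil nil) nil) nil)
  nil) nil) nil) nil) nil) nil) nil) nil)) nil) (node (nat_lit 5) (nat_lit 0) (nat_lit 7) (node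
  (nat_lit 6) (nat_lit 18528) (nat_lit 8) (node (nat_lit 4) (nat_lit 18713) (nat_lit 9) (node
  (nat_lit 5) (nat_lit 18815) (nat_lit 10) (node (nat_lit 6) (nat_lit 18893) (nat_lit 11) (node
  (nat_lit 5) (nat_lit 18954) (nat_lit 12) (node (nat_lit 4) (nat_lit 19001) (nat_lit 13) (node
  (nat_lit 6) (nat_lit 19038) (nat_lit 14) nil nil) nil) nil) nil) nil) nil) nil) nil)) (node
  (nat_lit 5) (nat_lit 0) (nat_lit 6) (node (nat_lit 6) (nat_lit 0) (nat_lit 7) (node (nat_lit 4)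
  (nat_lit 10806) (nat_lit 8) (node (nat_lit 6) (nat_lit 10958) (nat_lit 9) (node (nat_lit 5)
  (nat_lit 10958) (nat_lit 10) (node (nat_lit 4) (nat_lit 10958) (nat_lit 11) (node (nat_lit 6)
  (nat_lit 10958) (nat_lit 12) (node (nat_lit 4) (nat_lit 10958) (nat_lit 13) (node (nat_lit 5)
  (nat_lit 10958) (nat_lit 14) (node (nat_lit 6) (nat_lit 10958) (nat_lit 15) (node (nat_lit 5)
  (nat_lit 10868) (nat_lit 16) (node (nat_lit 4) (nat_lit 10532) (nat_lit 17) (node (nat_lit 5)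
  (nat_lit 10160) (nat_lit 18) (node (nat_lit 6) (nat_lit 9242) (nat_lit 19) (node (nat_lit 4)
  (nat_lit 7807) (nat_lit 20) (node (nat_lit 6) (nat_lit 6045) (nat_lit 21) nil nil) nil) nil)
  nil) nil) nil) nil) nil) nil) nil) (node (nat_lit 6) (nat_lit 10958) (nat_lit 11) (node (nat_lit
  4) (nat_lit 10958) (nat_lit 12) (node (nat_lit 5) (nat_lit 10958) (nat_lit 13) (node (nat_lit 6)
  (nat_lit 10958) (nat_lit 14) (node (nat_lit 5) (nat_lit 10958) (nat_lit 15) (node (nat_lit 4)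
  (nat_lit 10958) (nat_lit 16) (node (nat_lit 5) (nat_lit 10958) (nat_lit 17) (node (nat_lit 6)
  (nat_lit 10958) (nat_lit 18) (node (nat_lit 4) (nat_lit 10958) (nat_lit 19) nil nil) nil) nil)
  nil) nil) nil) nil) nil) nil)) nil) (node (nat_lit 5) (nat_lit 10958) (nat_lit 9) (node (nat_lit
  4) (nat_lit 10872) (nat_lit 10) (node (nat_lit 6) (nat_lit 10937) (nat_lit 11) (node (nat_lit 4)
  (nat_lit 10958) (nat_lit 12) (node (nat_lit 5) (nat_lit 10903) (nat_lit 13) (node (nat_lit 6)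
  (nat_lit 10854) (nat_lit 14) (node (nat_lit 5) (nat_lit 10472) (nat_lit 15) (node (nat_lit 4)
  (nat_lit 9948) (nat_lit 16) (node (nat_lit 5) (nat_lit 9337) (nat_lit 17) (node (nat_lit 6)
  (nat_lit 8102) (nat_lit 18) (node (nat_lit 4) (nat_lit 6005) (nat_lit 19) nil nil) nil) nil)
  nil) nil) nil) nil) nil) nil) nil) nil)) nil) nil) nil)) nil) nil)) (node (nat_lit 4) (nat_lit
  0) (nat_lit 3) (node (nat_lit 1) (nat_lit 0) (nat_lit 4) (node (nat_lit 5) (nat_lit 0) (nat_lit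
  5) (node (nat_lit 7) (nat_lit 0) (nat_lit 6) (node (nat_lit 4) (nat_lit 9990) (nat_lit 7) (node
  (nat_lit 5) (nat_lit 9990) (nat_lit 8) (node (nat_lit 4) (nat_lit 9990) (nat_lit 9) (node
  (nat_lit 7) (nat_lit 9990) (nat_lit 10) nil nil) nil) nil) nil) (node (nat_lit 4) (nat_lit 0)
  (nat_lit 6) (node (nat_lit 5) (nat_lit 0) (nat_lit 7) (node (nat_lit 7) (nat_lit 9232) (nat_lit
  8) (node (nat_lit 4) (nat_lit 9399) (nat_lit 9) (node (nat_lit 7) (nat_lit 9529) (nat_lit 10)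
  (node (nat_lit 5) (nat_lit 9630) (nat_lit 11) (node (nat_lit 7) (nat_lit 9709) (nat_lit 12)
  (node (nat_lit 4) (nat_lit 9771) (nat_lit 13) (node (nat_lit 5) (nat_lit 9819) (nat_lit 14)
  (node (nat_lit 4) (nat_lit 9792) (nat_lit 15) (node (nat_lit 7) (nat_lit 9814) (nat_lit 16)
  (node (nat_lit 5) (nat_lit 9837) (nat_lit 17) (node (nat_lit 4) (nat_lit 9854) (nat_lit 18)
  (node (nat_lit 5) (nat_lit 9868) (nat_lit 19) (node (nat_lit 7) (nat_lit 9879) (nat_lit 20)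
  (node (nat_lit 4) (nat_lit 9888) (nat_lit 21) nil nil) nil) nil) nil) nil) nil) nil) nil) nil)
  nil) nil) (node (nat_lit 5) (nat_lit 9529) (nat_lit 10) (node (nat_lit 4) (nat_lit 9443)
  (nat_lit 11) (node (nat_lit 7) (nat_lit 9509) (nat_lit 12) (node (nat_lit 5) (nat_lit 9571)
  (nat_lit 13) nil nil) nil) nil) nil)) (node (nat_lit 5) (nat_lit 9399) (nat_lit 9) (node
  (nat_lit 4) (nat_lit 9296) (nat_lit 10) (node (nat_lit 7) (nat_lit 9385) (nat_lit 11) (node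
  (nat_lit 5) (nat_lit 9464) (nat_lit 12) (node (nat_lit 7) (nat_lit 9526) (nat_lit 13) (node
  (nat_lit 4) (nat_lit 9574) (nat_lit 14) (node (nat_lit 5) (nat_lit 9612) (nat_lit 15) (node
  (nat_lit 4) (nat_lit 9591) (nat_lit 16) (node (nat_lit 7) (nat_lit 9608) (nat_lit 17) (node
  (nat_lit 5) (nat_lit 9626) (nat_lit 18) (node (nat_lit 4) (nat_lit 9640) (nat_lit 19) (node
  (nat_lit 5) (nat_lit 9651) (nat_lit 20) (node (nat_lit 7) (nat_lit 9660) (nat_lit 21) (node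
  (nat_lit 5) (nat_lit 9666) (nat_lit 22) (node (nat_lit 4) (nat_lit 9662) (nat_lit 23) nil nil)
  nil) nil) nil) nil) nil) nil) nil) nil) nil) nil) (node (nat_lit 4) (nat_lit 9371) (nat_lit 12)
  (node (nat_lit 5) (nat_lit 9351) (nat_lit 13) (node (nat_lit 4) (nat_lit 9143) (nat_lit 14)
  (node (nat_lit 7) (nat_lit 8987) (nat_lit 15) (node (nat_lit 5) (nat_lit 8608) (nat_lit 16)
  (node (nat_lit 4) (nat_lit 7974) (nat_lit 17) (node (nat_lit 5) (nat_lit 6736) (nat_lit 18)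
  (node (nat_lit 7) (nat_lit 5334) (nat_lit 19) nil nil) nil) nil) nil) nil) nil) nil) nil)) nil)
  nil) nil)) nil) nil) nil)) (node (nat_lit 4) (nat_lit 0) (nat_lit 5) (node (nat_lit 5) (nat_lit
  0) (nat_lit 6) (node (nat_lit 7) (nat_lit 0) (nat_lit 7) (node (nat_lit 4) (nat_lit 6192)
  (nat_lit 8) (node (nat_lit 7) (nat_lit 6415) (nat_lit 9) (node (nat_lit 5) (nat_lit 6590)
  (nat_lit 10) nil nil) nil) (node (nat_lit 5) (nat_lit 6192) (nat_lit 8) (node (nat_lit 4)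
  (nat_lit 6415) (nat_lit 9) (node (nat_lit 7) (nat_lit 6590) (nat_lit 10) nil nil) nil) nil))
  nil) nil) nil)) nil) nil)) nil) nil))

noncomputable def c81 : Tr :=
  t466

noncomputable def t467 : Tr :=
  (node (nat_lit 6) (nat_lit 0) (nat_lit 6) (node (nat_lit 0) (nat_lit 0) (nat_lit 7) (node
  (nat_lit 4) (nat_lit 0) (nat_lit 8) (node (nat_lit 6) (nat_lit 75426) (nat_lit 9) (node (nat_lit
  5) (nat_lit 75426) (nat_lit 10) nil (node (nat_lit 4) (nat_lit 76438) (nat_lit 10) (node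
  (nat_lit 5) (nat_lit 76438) (nat_lit 11) nil nil) nil)) (node (nat_lit 5) (nat_lit 74678)
  (nat_lit 9) (node (nat_lit 6) (nat_lit 74678) (nat_lit 10) nil (node (nat_lit 4) (nat_lit 74678)
  (nat_lit 10) nil (node (nat_lit 10) (nat_lit 77280) (nat_lit 10) nil nil))) (node (nat_lit 10)
  (nat_lit 81314) (nat_lit 9) nil (node (nat_lit 0) (nat_lit 76841) (nat_lit 9) nil nil)))) (node
  (nat_lit 5) (nat_lit 0) (nat_lit 8) (node (nat_lit 4) (nat_lit 75715) (nat_lit 9) (node (nat_lit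
  6) (nat_lit 76142) (nat_lit 10) (node (nat_lit 5) (nat_lit 76142) (nat_lit 11) nil (node
  (nat_lit 4) (nat_lit 76142) (nat_lit 11) nil nil)) (node (nat_lit 5) (nat_lit 75715) (nat_lit
  10) (node (nat_lit 6) (nat_lit 75715) (nat_lit 11) nil nil) nil)) (node (nat_lit 6) (nat_lit
  74998) (nat_lit 9) (node (nat_lit 5) (nat_lit 75328) (nat_lit 10) (node (nat_lit 4) (nat_lit
  75328) (nat_lit 11) nil nil) (node (nat_lit 4) (nat_lit 74998) (nat_lit 10) nil (node (nat_lit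
  10) (nat_lit 79086) (nat_lit 10) nil nil))) (node (nat_lit 10) (nat_lit 81843) (nat_lit 9) nil
  (node (nat_lit 0) (nat_lit 76730) (nat_lit 9) nil nil)))) (node (nat_lit 6) (nat_lit 0) (nat_lit
  8) (node (nat_lit 4) (nat_lit 75994) (nat_lit 9) (node (nat_lit 5) (nat_lit 75994) (nat_lit 10)
  nil (node (nat_lit 6) (nat_lit 75994) (nat_lit 10) nil nil)) (node (nat_lit 5) (nat_lit 75422)
  (nat_lit 9) (node (nat_lit 4) (nat_lit 75422) (nat_lit 10) nil (node (nat_lit 6) (nat_lit 75422)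
  (nat_lit 10) nil nil)) (node (nat_lit 0) (nat_lit 77064) (nat_lit 9) nil nil))) (node (nat_lit
  0) (nat_lit 79078) (nat_lit 8) (node (nat_lit 10) (nat_lit 79896) (nat_lit 9) nil (node (nat_lit
  6) (nat_lit 79078) (nat_lit 9) nil nil)) nil)))) (node (nat_lit 5) (nat_lit 0) (nat_lit 7) (node
  (nat_lit 0) (nat_lit 0) (nat_lit 8) (node (nat_lit 5) (nat_lit 0) (nat_lit 9) (node (nat_lit 4)
  (nat_lit 73933) (nat_lit 10) (node (nat_lit 6) (nat_lit 73933) (nat_lit 11) nil (node (nat_lit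
  5) (nat_lit 73933) (nat_lit 11) nil (node (nat_lit 11) (nat_lit 77384) (nat_lit 11) nil (node
  (nat_lit 0) (nat_lit 75417) (nat_lit 11) nil nil)))) (node (nat_lit 6) (nat_lit 73803) (nat_lit
  10) (node (nat_lit 4) (nat_lit 73803) (nat_lit 11) nil (node (nat_lit 5) (nat_lit 73803)
  (nat_lit 11) nil (node (nat_lit 11) (nat_lit 79957) (nat_lit 11) nil (node (nat_lit 0) (nat_lit
  75287) (nat_lit 11) nil nil)))) (node (nat_lit 0) (nat_lit 77753) (nat_lit 10) nil nil))) (node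
  (nat_lit 6) (nat_lit 73268) (nat_lit 9) (node (nat_lit 5) (nat_lit 73268) (nat_lit 10) nil (node
  (nat_lit 11) (nat_lit 76752) (nat_lit 10) (node (nat_lit 5) (nat_lit 76752) (nat_lit 11) nil
  nil) nil)) (node (nat_lit 4) (nat_lit 72487) (nat_lit 9) nil (node (nat_lit 0) (nat_lit 74604)
  (nat_lit 9) nil nil)))) (node (nat_lit 6) (nat_lit 0) (nat_lit 8) (node (nat_lit 0) (nat_lit
  72932) (nat_lit 9) (node (nat_lit 5) (nat_lit 73413) (nat_lit 10) (node (nat_lit 6) (nat_lit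
  73968) (nat_lit 11) (node (nat_lit 5) (nat_lit 73968) (nat_lit 12) (node (nat_lit 4) (nat_lit
  73968) (nat_lit 13) nil (node (nat_lit 12) (nat_lit 76327) (nat_lit 13) nil nil)) (node (nat_lit
  4) (nat_lit 73968) (nat_lit 12) (node (nat_lit 5) (nat_lit 73968) (nat_lit 13) nil nil) (node
  (nat_lit 0) (nat_lit 75936) (nat_lit 12) nil nil))) (node (nat_lit 12) (nat_lit 74878) (nat_lit
  11) nil nil)) (node (nat_lit 6) (nat_lit 72932) (nat_lit 10) nil nil)) nil) nil)) (node (nat_lit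
  4) (nat_lit 0) (nat_lit 7) (node (nat_lit 0) (nat_lit 0) (nat_lit 8) (node (nat_lit 4) (nat_lit
  0) (nat_lit 9) (node (nat_lit 5) (nat_lit 77595) (nat_lit 10) nil (node (nat_lit 6) (nat_lit
  77595) (nat_lit 10) (node (nat_lit 5) (nat_lit 77595) (nat_lit 11) nil (node (nat_lit 11)
  (nat_lit 79079) (nat_lit 11) nil nil)) (node (nat_lit 0) (nat_lit 78767) (nat_lit 10) nil nil)))
  (node (nat_lit 6) (nat_lit 77431) (nat_lit 9) nil (node (nat_lit 5) (nat_lit 77431) (nat_lit 9)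
  nil (node (nat_lit 0) (nat_lit 78249) (nat_lit 9) nil nil)))) (node (nat_lit 5) (nat_lit 0)
  (nat_lit 8) (node (nat_lit 0) (nat_lit 72764) (nat_lit 9) (node (nat_lit 4) (nat_lit 72764)
  (nat_lit 10) nil nil) nil) nil)) nil))) (node (nat_lit 5) (nat_lit 0) (nat_lit 6) (node (nat_lit
  0) (nat_lit 0) (nat_lit 7) (node (nat_lit 4) (nat_lit 0) (nat_lit 8) (node (nat_lit 5) (nat_lit
  0) (nat_lit 9) (node (nat_lit 4) (nat_lit 46497) (nat_lit 10) (node (nat_lit 6) (nat_lit 49097)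
  (nat_lit 11) (node (nat_lit 5) (nat_lit 50677) (nat_lit 12) (node (nat_lit 6) (nat_lit 50748)
  (nat_lit 13) nil (node (nat_lit 4) (nat_lit 50748) (nat_lit 13) nil nil)) (node (nat_lit 4)
  (nat_lit 50279) (nat_lit 12) (node (nat_lit 5) (nat_lit 50748) (nat_lit 13) nil nil) nil)) (node
  (nat_lit 10) (nat_lit 49982) (nat_lit 11) nil nil)) (node (nat_lit 6) (nat_lit 46888) (nat_lit
  10) (node (nat_lit 4) (nat_lit 47589) (nat_lit 11) (node (nat_lit 5) (nat_lit 47564) (nat_lit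
  12) nil (node (nat_lit 6) (nat_lit 47497) (nat_lit 12) (node (nat_lit 5) (nat_lit 47158)
  (nat_lit 13) nil nil) nil)) (node (nat_lit 5) (nat_lit 48989) (nat_lit 11) (node (nat_lit 4)
  (nat_lit 49807) (nat_lit 12) (node (nat_lit 6) (nat_lit 50705) (nat_lit 13) nil nil) nil) nil))
  (node (nat_lit 0) (nat_lit 45142) (nat_lit 10) nil nil))) (node (nat_lit 6) (nat_lit 43887)
  (nat_lit 9) (node (nat_lit 5) (nat_lit 45466) (nat_lit 10) (node (nat_lit 4) (nat_lit 47309)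
  (nat_lit 11) (node (nat_lit 6) (nat_lit 48128) (nat_lit 12) (node (nat_lit 4) (nat_lit 49026)
  (nat_lit 13) nil nil) (node (nat_lit 5) (nat_lit 48784) (nat_lit 12) (node (nat_lit 6) (nat_lit
  50035) (nat_lit 13) nil nil) nil)) (node (nat_lit 6) (nat_lit 47550) (nat_lit 11) (node (nat_lit
  4) (nat_lit 49246) (nat_lit 12) (node (nat_lit 5) (nat_lit 50144) (nat_lit 13) nil (node
  (nat_lit 6) (nat_lit 50144) (nat_lit 13) nil nil)) nil) nil)) (node (nat_lit 4) (nat_lit 46347)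
  (nat_lit 10) (node (nat_lit 5) (nat_lit 47596) (nat_lit 11) (node (nat_lit 6) (nat_lit 48599)
  (nat_lit 12) (node (nat_lit 5) (nat_lit 49497) (nat_lit 13) nil (node (nat_lit 4) (nat_lit
  49497) (nat_lit 13) nil nil)) (node (nat_lit 4) (nat_lit 49102) (nat_lit 12) (node (nat_lit 6)
  (nat_lit 49642) (nat_lit 13) nil nil) nil)) nil) (node (nat_lit 10) (nat_lit 46921) (nat_lit 10)
  nil nil))) (node (nat_lit 10) (nat_lit 50177) (nat_lit 9) (node (nat_lit 5) (nat_lit 50177)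
  (nat_lit 10) (node (nat_lit 4) (nat_lit 50177) (nat_lit 11) nil nil) (node (nat_lit 6) (nat_lit
  50177) (nat_lit 10) nil nil)) (node (nat_lit 0) (nat_lit 46229) (nat_lit 9) nil nil)))) (node
  (nat_lit 6) (nat_lit 0) (nat_lit 8) (node (nat_lit 5) (nat_lit 44086) (nat_lit 9) (node (nat_lit
  6) (nat_lit 46359) (nat_lit 10) (node (nat_lit 4) (nat_lit 47483) (nat_lit 11) (node (nat_lit 5)
  (nat_lit 50069) (nat_lit 12) (node (nat_lit 4) (nat_lit 50748) (nat_lit 13) (node (nat_lit 6)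
  (nat_lit 50748) (nat_lit 14) nil nil) (node (nat_lit 6) (nat_lit 50748) (nat_lit 13) nil nil))
  (node (nat_lit 6) (nat_lit 49000) (nat_lit 12) (node (nat_lit 5) (nat_lit 48847) (nat_lit 13)
  nil nil) nil)) (node (nat_lit 10) (nat_lit 49844) (nat_lit 11) nil nil)) (node (nat_lit 4)
  (nat_lit 46032) (nat_lit 10) (node (nat_lit 6) (nat_lit 47210) (nat_lit 11) (node (nat_lit 4)
  (nat_lit 48029) (nat_lit 12) (node (nat_lit 5) (nat_lit 48927) (nat_lit 13) nil nil) (node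
  (nat_lit 5) (nat_lit 48029) (nat_lit 12) nil nil)) (node (nat_lit 5) (nat_lit 47795) (nat_lit
  11) (node (nat_lit 6) (nat_lit 48614) (nat_lit 12) (node (nat_lit 4) (nat_lit 49512) (nat_lit
  13) nil nil) nil) nil)) (node (nat_lit 10) (nat_lit 50664) (nat_lit 10) nil nil))) (node
  (nat_lit 4) (nat_lit 44211) (nat_lit 9) (node (nat_lit 5) (nat_lit 46840) (nat_lit 10) (node
  (nat_lit 6) (nat_lit 48433) (nat_lit 11) (node (nat_lit 5) (nat_lit 49635) (nat_lit 12) (node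
  (nat_lit 4) (nat_lit 50748) (nat_lit 13) nil nil) (node (nat_lit 4) (nat_lit 49322) (nat_lit 12)
  (node (nat_lit 6) (nat_lit 50220) (nat_lit 13) nil nil) nil)) (node (nat_lit 4) (nat_lit 48670)
  (nat_lit 11) (node (nat_lit 6) (nat_lit 49720) (nat_lit 12) (node (nat_lit 5) (nat_lit 49381)
  (nat_lit 13) nil nil) nil) nil)) (node (nat_lit 6) (nat_lit 46506) (nat_lit 10) (node (nat_lit
  5) (nat_lit 48484) (nat_lit 11) (node (nat_lit 4) (nat_lit 50350) (nat_lit 12) (node (nat_lit 5)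
  (nat_lit 50748) (nat_lit 13) nil (node (nat_lit 6) (nat_lit 50748) (nat_lit 13) nil nil)) (node
  (nat_lit 6) (nat_lit 49673) (nat_lit 12) (node (nat_lit 4) (nat_lit 50571) (nat_lit 13) nil nil)
  nil)) nil) (node (nat_lit 10) (nat_lit 49254) (nat_lit 10) nil nil))) (node (nat_lit 10)
  (nat_lit 50629) (nat_lit 9) (node (nat_lit 5) (nat_lit 50629) (nat_lit 10) (node (nat_lit 6)
  (nat_lit 50629) (nat_lit 11) nil nil) (node (nat_lit 4) (nat_lit 50629) (nat_lit 10) (node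
  (nat_lit 6) (nat_lit 50629) (nat_lit 11) nil nil) nil)) (node (nat_lit 0) (nat_lit 46705)
  (nat_lit 9) nil nil)))) (node (nat_lit 5) (nat_lit 0) (nat_lit 8) (node (nat_lit 6) (nat_lit
  43837) (nat_lit 9) (node (nat_lit 4) (nat_lit 46940) (nat_lit 10) (node (nat_lit 6) (nat_lit
  46940) (nat_lit 11) (node (nat_lit 5) (nat_lit 46940) (nat_lit 12) nil nil) (node (nat_lit 5)
  (nat_lit 48934) (nat_lit 11) (node (nat_lit 4) (nat_lit 48934) (nat_lit 12) nil nil) nil)) (node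
  (nat_lit 5) (nat_lit 46612) (nat_lit 10) (node (nat_lit 4) (nat_lit 46723) (nat_lit 11) (node
  (nat_lit 6) (nat_lit 46630) (nat_lit 12) (node (nat_lit 5) (nat_lit 46291) (nat_lit 13) nil nil)
  (node (nat_lit 5) (nat_lit 47542) (nat_lit 12) (node (nat_lit 6) (nat_lit 48439) (nat_lit 13)
  nil nil) nil)) nil) (node (nat_lit 10) (nat_lit 45387) (nat_lit 10) nil nil))) (node (nat_lit 4)
  (nat_lit 43488) (nat_lit 9) (node (nat_lit 6) (nat_lit 46893) (nat_lit 10) (node (nat_lit 5)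
  (nat_lit 48698) (nat_lit 11) (node (nat_lit 4) (nat_lit 48698) (nat_lit 12) nil (node (nat_lit
  6) (nat_lit 48698) (nat_lit 12) nil nil)) (node (nat_lit 4) (nat_lit 48845) (nat_lit 11) (node
  (nat_lit 5) (nat_lit 48820) (nat_lit 12) nil nil) nil)) (node (nat_lit 5) (nat_lit 45548)
  (nat_lit 10) (node (nat_lit 6) (nat_lit 45537) (nat_lit 11) (node (nat_lit 4) (nat_lit 46356)
  (nat_lit 12) (node (nat_lit 5) (nat_lit 47254) (nat_lit 13) nil (node (nat_lit 6) (nat_lit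
  47254) (nat_lit 13) nil nil)) (node (nat_lit 5) (nat_lit 45511) (nat_lit 12) (node (nat_lit 4)
  (nat_lit 45173) (nat_lit 13) nil nil) nil)) nil) (node (nat_lit 10) (nat_lit 45038) (nat_lit 10)
  nil nil))) (node (nat_lit 0) (nat_lit 44955) (nat_lit 9) nil nil))) (node (nat_lit 0) (nat_lit
  0) (nat_lit 8) (node (nat_lit 10) (nat_lit 48662) (nat_lit 9) (node (nat_lit 5) (nat_lit 48662)
  (nat_lit 10) nil nil) (node (nat_lit 5) (nat_lit 45683) (nat_lit 9) (node (nat_lit 11) (nat_lit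
  47000) (nat_lit 10) nil nil) (node (nat_lit 4) (nat_lit 45608) (nat_lit 9) nil (node (nat_lit 6)
  (nat_lit 45608) (nat_lit 9) nil (node (nat_lit 0) (nat_lit 46422) (nat_lit 9) nil nil)))))
  nil)))) (node (nat_lit 6) (nat_lit 0) (nat_lit 7) (node (nat_lit 0) (nat_lit 0) (nat_lit 8)
  (node (nat_lit 6) (nat_lit 0) (nat_lit 9) (node (nat_lit 4) (nat_lit 48023) (nat_lit 10) (node
  (nat_lit 5) (nat_lit 49518) (nat_lit 11) (node (nat_lit 6) (nat_lit 49700) (nat_lit 12) (node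
  (nat_lit 5) (nat_lit 49792) (nat_lit 13) (node (nat_lit 4) (nat_lit 49341) (nat_lit 14) nil nil)
  (node (nat_lit 4) (nat_lit 50523) (nat_lit 13) nil nil)) (node (nat_lit 4) (nat_lit 50205)
  (nat_lit 12) (node (nat_lit 6) (nat_lit 50165) (nat_lit 13) (node (nat_lit 4) (nat_lit 50625)
  (nat_lit 14) nil (node (nat_lit 5) (nat_lit 49714) (nat_lit 14) nil nil)) nil) (node (nat_lit 0)
  (nat_lit 50491) (nat_lit 12) nil nil))) (node (nat_lit 6) (nat_lit 49424) (nat_lit 11) (node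
  (nat_lit 5) (nat_lit 50080) (nat_lit 12) (node (nat_lit 4) (nat_lit 50080) (nat_lit 13) nil
  (node (nat_lit 6) (nat_lit 50080) (nat_lit 13) nil nil)) (node (nat_lit 11) (nat_lit 50397)
  (nat_lit 12) nil nil)) (node (nat_lit 11) (nat_lit 50748) (nat_lit 11) nil (node (nat_lit 0)
  (nat_lit 50748) (nat_lit 11) nil nil)))) (node (nat_lit 5) (nat_lit 47678) (nat_lit 10) (node
  (nat_lit 4) (nat_lit 48681) (nat_lit 11) (node (nat_lit 6) (nat_lit 49380) (nat_lit 12) (node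
  (nat_lit 4) (nat_lit 50203) (nat_lit 13) (node (nat_lit 5) (nat_lit 50664) (nat_lit 14) nil nil)
  (node (nat_lit 5) (nat_lit 50203) (nat_lit 13) nil nil)) (node (nat_lit 5) (nat_lit 49316)
  (nat_lit 12) (node (nat_lit 6) (nat_lit 50140) (nat_lit 13) nil nil) (node (nat_lit 0) (nat_lit
  49654) (nat_lit 12) nil nil))) (node (nat_lit 6) (nat_lit 48874) (nat_lit 11) (node (nat_lit 4)
  (nat_lit 48685) (nat_lit 12) (node (nat_lit 5) (nat_lit 48778) (nat_lit 13) nil (node (nat_lit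
  6) (nat_lit 48685) (nat_lit 13) nil nil)) (node (nat_lit 11) (nat_lit 50748) (nat_lit 12) nil
  nil)) (node (nat_lit 11) (nat_lit 50748) (nat_lit 11) (node (nat_lit 6) (nat_lit 50748) (nat_lit
  12) nil nil) (node (nat_lit 0) (nat_lit 50466) (nat_lit 11) nil nil)))) (node (nat_lit 0)
  (nat_lit 50748) (nat_lit 10) (node (nat_lit 6) (nat_lit 50748) (nat_lit 11) nil (node (nat_lit
  11) (nat_lit 50748) (nat_lit 11) nil nil)) nil))) (node (nat_lit 5) (nat_lit 0) (nat_lit 9)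
  (node (nat_lit 11) (nat_lit 50748) (nat_lit 10) (node (nat_lit 6) (nat_lit 50748) (nat_lit 11)
  nil nil) (node (nat_lit 6) (nat_lit 47972) (nat_lit 10) (node (nat_lit 5) (nat_lit 47972)
  (nat_lit 11) nil nil) (node (nat_lit 4) (nat_lit 45920) (nat_lit 10) nil (node (nat_lit 0)
  (nat_lit 46572) (nat_lit 10) nil nil)))) (node (nat_lit 4) (nat_lit 45960) (nat_lit 9) (node
  (nat_lit 11) (nat_lit 48077) (nat_lit 10) nil (node (nat_lit 6) (nat_lit 45960) (nat_lit 10) nil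
  nil)) (node (nat_lit 0) (nat_lit 49323) (nat_lit 9) (node (nat_lit 6) (nat_lit 49323) (nat_lit
  10) nil nil) nil)))) (node (nat_lit 4) (nat_lit 0) (nat_lit 8) (node (nat_lit 0) (nat_lit 48854)
  (nat_lit 9) (node (nat_lit 6) (nat_lit 49800) (nat_lit 10) (node (nat_lit 4) (nat_lit 50748)
  (nat_lit 11) (node (nat_lit 5) (nat_lit 50748) (nat_lit 12) (node (nat_lit 6) (nat_lit 50748)
  (nat_lit 13) nil (node (nat_lit 4) (nat_lit 50748) (nat_lit 13) (node (nat_lit 6) (nat_lit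
  50748) (nat_lit 14) nil nil) nil)) (node (nat_lit 6) (nat_lit 50748) (nat_lit 12) (node (nat_lit
  5) (nat_lit 50748) (nat_lit 13) (node (nat_lit 4) (nat_lit 50748) (nat_lit 14) nil nil) (node
  (nat_lit 12) (nat_lit 50748) (nat_lit 13) nil nil)) (node (nat_lit 0) (nat_lit 50748) (nat_lit
  12) nil nil))) nil) (node (nat_lit 4) (nat_lit 48854) (nat_lit 10) nil nil)) nil) nil)) nil))
  (node (nat_lit 0) (nat_lit 0) (nat_lit 6) (node (nat_lit 6) (nat_lit 70985) (nat_lit 7) (node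
  (nat_lit 4) (nat_lit 74206) (nat_lit 8) (node (nat_lit 5) (nat_lit 75829) (nat_lit 9) (node
  (nat_lit 6) (nat_lit 75732) (nat_lit 10) (node (nat_lit 5) (nat_lit 75732) (nat_lit 11) nil
  (node (nat_lit 4) (nat_lit 75732) (nat_lit 11) nil nil)) (node (nat_lit 4) (nat_lit 76284)
  (nat_lit 10) (node (nat_lit 6) (nat_lit 76478) (nat_lit 11) (node (nat_lit 5) (nat_lit 76623)
  (nat_lit 12) nil nil) nil) nil)) (node (nat_lit 6) (nat_lit 76797) (nat_lit 9) (node (nat_lit 5)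
  (nat_lit 76797) (nat_lit 10) nil nil) nil)) (node (nat_lit 5) (nat_lit 73609) (nat_lit 8) (node
  (nat_lit 4) (nat_lit 75216) (nat_lit 9) (node (nat_lit 6) (nat_lit 75671) (nat_lit 10) (node
  (nat_lit 4) (nat_lit 75671) (nat_lit 11) nil nil) (node (nat_lit 5) (nat_lit 75671) (nat_lit 10)
  (node (nat_lit 6) (nat_lit 75671) (nat_lit 11) nil nil) nil)) (node (nat_lit 6) (nat_lit 74697)
  (nat_lit 9) (node (nat_lit 4) (nat_lit 74697) (nat_lit 10) (node (nat_lit 5) (nat_lit 74697)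
  (nat_lit 11) nil nil) nil) (node (nat_lit 9) (nat_lit 77719) (nat_lit 9) nil nil))) (node
  (nat_lit 9) (nat_lit 77686) (nat_lit 8) nil nil))) (node (nat_lit 4) (nat_lit 70688) (nat_lit 7)
  (node (nat_lit 5) (nat_lit 73684) (nat_lit 8) (node (nat_lit 6) (nat_lit 76239) (nat_lit 9)
  (node (nat_lit 4) (nat_lit 75299) (nat_lit 10) (node (nat_lit 6) (nat_lit 75299) (nat_lit 11)
  nil nil) (node (nat_lit 5) (nat_lit 76694) (nat_lit 10) (node (nat_lit 4) (nat_lit 76694)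
  (nat_lit 11) nil nil) nil)) (node (nat_lit 4) (nat_lit 74983) (nat_lit 9) (node (nat_lit 6)
  (nat_lit 74983) (nat_lit 10) nil nil) nil)) (node (nat_lit 6) (nat_lit 74285) (nat_lit 8) (node
  (nat_lit 5) (nat_lit 76133) (nat_lit 9) (node (nat_lit 4) (nat_lit 76133) (nat_lit 10) (node
  (nat_lit 5) (nat_lit 77563) (nat_lit 11) (node (nat_lit 6) (nat_lit 77892) (nat_lit 12) nil nil)
  (node (nat_lit 6) (nat_lit 76133) (nat_lit 11) nil nil)) (node (nat_lit 6) (nat_lit 76133)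
  (nat_lit 10) (node (nat_lit 4) (nat_lit 77563) (nat_lit 11) (node (nat_lit 5) (nat_lit 79424)
  (nat_lit 12) nil (node (nat_lit 6) (nat_lit 77892) (nat_lit 12) nil nil)) nil) nil)) (node
  (nat_lit 4) (nat_lit 75584) (nat_lit 9) (node (nat_lit 5) (nat_lit 75584) (nat_lit 10) nil nil)
  nil)) nil)) (node (nat_lit 5) (nat_lit 70594) (nat_lit 7) (node (nat_lit 4) (nat_lit 73894)
  (nat_lit 8) (node (nat_lit 6) (nat_lit 76342) (nat_lit 9) (node (nat_lit 5) (nat_lit 76342)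
  (nat_lit 10) nil (node (nat_lit 4) (nat_lit 76245) (nat_lit 10) (node (nat_lit 5) (nat_lit
  76500) (nat_lit 11) (node (nat_lit 6) (nat_lit 76829) (nat_lit 12) nil nil) nil) nil)) (node
  (nat_lit 5) (nat_lit 76374) (nat_lit 9) (node (nat_lit 6) (nat_lit 76374) (nat_lit 10) nil nil)
  nil)) (node (nat_lit 6) (nat_lit 73666) (nat_lit 8) (node (nat_lit 4) (nat_lit 75515) (nat_lit
  9) (node (nat_lit 6) (nat_lit 75060) (nat_lit 10) (node (nat_lit 5) (nat_lit 75314) (nat_lit 11)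
  (node (nat_lit 4) (nat_lit 75459) (nat_lit 12) nil nil) nil) (node (nat_lit 5) (nat_lit 75970)
  (nat_lit 10) (node (nat_lit 4) (nat_lit 77400) (nat_lit 11) (node (nat_lit 6) (nat_lit 77729)
  (nat_lit 12) nil nil) nil) nil)) (node (nat_lit 5) (nat_lit 74113) (nat_lit 9) (node (nat_lit 4)
  (nat_lit 74113) (nat_lit 10) nil nil) (node (nat_lit 9) (nat_lit 77775) (nat_lit 9) nil nil)))
  (node (nat_lit 9) (nat_lit 79610) (nat_lit 8) nil nil))) (node (nat_lit 0) (nat_lit 73397)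
  (nat_lit 7) nil nil)))) nil)))

noncomputable def t468 : Tr :=
  (node (nat_lit 3) (nat_lit 0) (nat_lit 3) (node (nat_lit 4) (nat_lit 0) (nat_lit 4) (node
  (nat_lit 6) (nat_lit 0) (nat_lit 5) (node (nat_lit 5) (nat_lit 0) (nat_lit 6) (node (nat_lit 0)
  (nat_lit 0) (nat_lit 7) (node (nat_lit 4) (nat_lit 0) (nat_lit 8) (node (nat_lit 5) (nat_lit
  68544) (nat_lit 9) (node (nat_lit 6) (nat_lit 69826) (nat_lit 10) (node (nat_lit 4) (nat_lit
  69826) (nat_lit 11) (node (nat_lit 6) (nat_lit 69826) (nat_lit 12) nil nil) (node (nat_lit 5)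
  (nat_lit 69826) (nat_lit 11) nil nil)) (node (nat_lit 4) (nat_lit 69363) (nat_lit 10) (node
  (nat_lit 6) (nat_lit 70688) (nat_lit 11) (node (nat_lit 5) (nat_lit 70688) (nat_lit 12) (node
  (nat_lit 6) (nat_lit 72118) (nat_lit 13) nil nil) (node (nat_lit 4) (nat_lit 71142) (nat_lit 12)
  nil nil)) nil) (node (nat_lit 10) (nat_lit 71147) (nat_lit 10) nil nil))) (node (nat_lit 6)
  (nat_lit 68431) (nat_lit 9) (node (nat_lit 5) (nat_lit 69170) (nat_lit 10) (node (nat_lit 4)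
  (nat_lit 69263) (nat_lit 11) (node (nat_lit 5) (nat_lit 69263) (nat_lit 12) (node (nat_lit 6)
  (nat_lit 69518) (nat_lit 13) nil nil) nil) (node (nat_lit 6) (nat_lit 69170) (nat_lit 11) nil
  nil)) (node (nat_lit 4) (nat_lit 68789) (nat_lit 10) (node (nat_lit 5) (nat_lit 69778) (nat_lit
  11) (node (nat_lit 6) (nat_lit 70232) (nat_lit 12) nil (node (nat_lit 4) (nat_lit 69778)
  (nat_lit 12) nil nil)) nil) (node (nat_lit 10) (nat_lit 71033) (nat_lit 10) nil nil))) (node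
  (nat_lit 10) (nat_lit 71754) (nat_lit 9) nil (node (nat_lit 0) (nat_lit 70288) (nat_lit 9) nil
  nil)))) (node (nat_lit 6) (nat_lit 0) (nat_lit 8) (node (nat_lit 4) (nat_lit 68269) (nat_lit 9)
  (node (nat_lit 5) (nat_lit 70005) (nat_lit 10) (node (nat_lit 6) (nat_lit 69964) (nat_lit 11)
  (node (nat_lit 5) (nat_lit 69964) (nat_lit 12) nil nil) (node (nat_lit 4) (nat_lit 70005)
  (nat_lit 11) nil nil)) (node (nat_lit 6) (nat_lit 69281) (nat_lit 10) (node (nat_lit 5) (nat_lit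
  70105) (nat_lit 11) nil nil) (node (nat_lit 10) (nat_lit 70872) (nat_lit 10) nil nil))) (node
  (nat_lit 5) (nat_lit 68296) (nat_lit 9) (node (nat_lit 6) (nat_lit 69201) (nat_lit 10) (node
  (nat_lit 4) (nat_lit 70505) (nat_lit 11) (node (nat_lit 5) (nat_lit 69999) (nat_lit 12) (node
  (nat_lit 4) (nat_lit 70194) (nat_lit 13) nil nil) (node (nat_lit 6) (nat_lit 70960) (nat_lit 12)
  nil nil)) nil) (node (nat_lit 4) (nat_lit 69109) (nat_lit 10) (node (nat_lit 6) (nat_lit 69933)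
  (nat_lit 11) (node (nat_lit 4) (nat_lit 69933) (nat_lit 12) nil nil) (node (nat_lit 5) (nat_lit
  69109) (nat_lit 11) nil nil)) nil)) (node (nat_lit 10) (nat_lit 71458) (nat_lit 9) nil (node
  (nat_lit 0) (nat_lit 69351) (nat_lit 9) nil nil)))) (node (nat_lit 5) (nat_lit 0) (nat_lit 8)
  (node (nat_lit 6) (nat_lit 68346) (nat_lit 9) (node (nat_lit 5) (nat_lit 69803) (nat_lit 10)
  (node (nat_lit 4) (nat_lit 69803) (nat_lit 11) nil (node (nat_lit 10) (nat_lit 72717) (nat_lit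
  11) nil nil)) (node (nat_lit 4) (nat_lit 70109) (nat_lit 10) (node (nat_lit 6) (nat_lit 70109)
  (nat_lit 11) nil (node (nat_lit 5) (nat_lit 70109) (nat_lit 11) nil nil)) (node (nat_lit 10)
  (nat_lit 70949) (nat_lit 10) nil nil))) (node (nat_lit 4) (nat_lit 68464) (nat_lit 9) (node
  (nat_lit 6) (nat_lit 69365) (nat_lit 10) (node (nat_lit 4) (nat_lit 69365) (nat_lit 11) nil
  (node (nat_lit 5) (nat_lit 69365) (nat_lit 11) nil nil)) (node (nat_lit 5) (nat_lit 68464)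
  (nat_lit 10) (node (nat_lit 6) (nat_lit 68464) (nat_lit 11) nil nil) nil)) (node (nat_lit 0)
  (nat_lit 70210) (nat_lit 9) nil nil))) (node (nat_lit 0) (nat_lit 71709) (nat_lit 8) (node
  (nat_lit 10) (nat_lit 72527) (nat_lit 9) nil (node (nat_lit 5) (nat_lit 71709) (nat_lit 9) nil
  nil)) nil)))) (node (nat_lit 4) (nat_lit 0) (nat_lit 7) (node (nat_lit 0) (nat_lit 0) (nat_lit
  8) (node (nat_lit 4) (nat_lit 0) (nat_lit 9) (node (nat_lit 5) (nat_lit 66037) (nat_lit 10)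
  (node (nat_lit 6) (nat_lit 66037) (nat_lit 11) nil (node (nat_lit 4) (nat_lit 66037) (nat_lit
  11) nil (node (nat_lit 11) (nat_lit 68656) (nat_lit 11) nil (node (nat_lit 0) (nat_lit 67521)
  (nat_lit 11) nil nil)))) (node (nat_lit 6) (nat_lit 65863) (nat_lit 10) (node (nat_lit 5)
  (nat_lit 65863) (nat_lit 11) nil (node (nat_lit 4) (nat_lit 65863) (nat_lit 11) nil (node
  (nat_lit 0) (nat_lit 67347) (nat_lit 11) nil (node (nat_lit 11) (nat_lit 67347) (nat_lit 11) nil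
  nil)))) (node (nat_lit 0) (nat_lit 69459) (nat_lit 10) nil nil))) (node (nat_lit 5) (nat_lit
  65553) (nat_lit 9) (node (nat_lit 11) (nat_lit 66725) (nat_lit 10) nil nil) (node (nat_lit 6)
  (nat_lit 65476) (nat_lit 9) nil (node (nat_lit 0) (nat_lit 67135) (nat_lit 9) nil nil)))) (node
  (nat_lit 5) (nat_lit 0) (nat_lit 8) (node (nat_lit 0) (nat_lit 68443) (nat_lit 9) (node (nat_lit
  4) (nat_lit 68443) (nat_lit 10) (node (nat_lit 5) (nat_lit 68443) (nat_lit 11) (node (nat_lit 4)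
  (nat_lit 68443) (nat_lit 12) nil nil) nil) nil) nil) (node (nat_lit 6) (nat_lit 0) (nat_lit 8)
  (node (nat_lit 0) (nat_lit 63786) (nat_lit 9) (node (nat_lit 4) (nat_lit 63786) (nat_lit 10)
  (node (nat_lit 6) (nat_lit 63786) (nat_lit 11) nil nil) nil) nil) nil))) (node (nat_lit 6)
  (nat_lit 0) (nat_lit 7) (node (nat_lit 0) (nat_lit 70740) (nat_lit 8) (node (nat_lit 6) (nat_lit
  70740) (nat_lit 9) (node (nat_lit 4) (nat_lit 70740) (nat_lit 10) nil (node (nat_lit 5) (nat_lit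
  70740) (nat_lit 10) nil nil)) (node (nat_lit 5) (nat_lit 70740) (nat_lit 9) nil nil)) (node
  (nat_lit 4) (nat_lit 0) (nat_lit 8) (node (nat_lit 0) (nat_lit 71276) (nat_lit 9) nil nil) nil))
  nil))) (node (nat_lit 0) (nat_lit 0) (nat_lit 6) (node (nat_lit 4) (nat_lit 69677) (nat_lit 7)
  (node (nat_lit 5) (nat_lit 71448) (nat_lit 8) (node (nat_lit 6) (nat_lit 72747) (nat_lit 9)
  (node (nat_lit 4) (nat_lit 72747) (nat_lit 10) nil (node (nat_lit 5) (nat_lit 72747) (nat_lit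
  10) nil nil)) (node (nat_lit 4) (nat_lit 71448) (nat_lit 9) nil nil)) (node (nat_lit 6) (nat_lit
  72434) (nat_lit 8) (node (nat_lit 5) (nat_lit 72434) (nat_lit 9) (node (nat_lit 4) (nat_lit
  72434) (nat_lit 10) nil (node (nat_lit 6) (nat_lit 72434) (nat_lit 10) (node (nat_lit 4)
  (nat_lit 72434) (nat_lit 11) nil nil) nil)) (node (nat_lit 4) (nat_lit 72434) (nat_lit 9) nil
  nil)) (node (nat_lit 9) (nat_lit 72968) (nat_lit 8) nil nil))) (node (nat_lit 5) (nat_lit 70086)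
  (nat_lit 7) (node (nat_lit 6) (nat_lit 72016) (nat_lit 8) (node (nat_lit 4) (nat_lit 72452)
  (nat_lit 9) (node (nat_lit 5) (nat_lit 72452) (nat_lit 10) nil (node (nat_lit 6) (nat_lit 72452)
  (nat_lit 10) (node (nat_lit 5) (nat_lit 72452) (nat_lit 11) nil nil) nil)) (node (nat_lit 5)
  (nat_lit 72016) (nat_lit 9) nil nil)) (node (nat_lit 4) (nat_lit 72285) (nat_lit 8) (node
  (nat_lit 6) (nat_lit 72771) (nat_lit 9) (node (nat_lit 5) (nat_lit 72771) (nat_lit 10) nil (node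
  (nat_lit 4) (nat_lit 72771) (nat_lit 10) (node (nat_lit 5) (nat_lit 72771) (nat_lit 11) nil nil)
  nil)) (node (nat_lit 5) (nat_lit 72285) (nat_lit 9) nil nil)) (node (nat_lit 9) (nat_lit 73377)
  (nat_lit 8) nil nil))) (node (nat_lit 6) (nat_lit 69367) (nat_lit 7) (node (nat_lit 4) (nat_lit
  72117) (nat_lit 8) (node (nat_lit 5) (nat_lit 72686) (nat_lit 9) (node (nat_lit 6) (nat_lit
  72686) (nat_lit 10) (node (nat_lit 5) (nat_lit 72686) (nat_lit 11) (node (nat_lit 4) (nat_lit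
  72831) (nat_lit 12) nil nil) (node (nat_lit 4) (nat_lit 72686) (nat_lit 11) nil nil)) (node
  (nat_lit 4) (nat_lit 72686) (nat_lit 10) (node (nat_lit 6) (nat_lit 72686) (nat_lit 11) (node
  (nat_lit 5) (nat_lit 74547) (nat_lit 12) nil nil) nil) nil)) (node (nat_lit 6) (nat_lit 72117)
  (nat_lit 9) nil nil)) (node (nat_lit 5) (nat_lit 71301) (nat_lit 8) (node (nat_lit 4) (nat_lit
  72600) (nat_lit 9) (node (nat_lit 6) (nat_lit 73419) (nat_lit 10) (node (nat_lit 4) (nat_lit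
  73754) (nat_lit 11) (node (nat_lit 5) (nat_lit 75614) (nat_lit 12) nil nil) (node (nat_lit 5)
  (nat_lit 73419) (nat_lit 11) (node (nat_lit 6) (nat_lit 75279) (nat_lit 12) nil nil) nil)) (node
  (nat_lit 5) (nat_lit 73419) (nat_lit 10) (node (nat_lit 6) (nat_lit 73754) (nat_lit 11) (node
  (nat_lit 4) (nat_lit 75614) (nat_lit 12) nil (node (nat_lit 5) (nat_lit 75614) (nat_lit 12) nil
  nil)) nil) nil)) (node (nat_lit 6) (nat_lit 71301) (nat_lit 9) (node (nat_lit 4) (nat_lit 71301)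
  (nat_lit 10) nil nil) nil)) nil)) (node (nat_lit 0) (nat_lit 71601) (nat_lit 7) nil nil))))
  nil)) (node (nat_lit 5) (nat_lit 0) (nat_lit 5) (node (nat_lit 4) (nat_lit 0) (nat_lit 6) (node
  (nat_lit 0) (nat_lit 0) (nat_lit 7) (node (nat_lit 5) (nat_lit 42727) (nat_lit 8) (node (nat_lit
  6) (nat_lit 42727) (nat_lit 9) nil (node (nat_lit 4) (nat_lit 42727) (nat_lit 9) nil (node
  (nat_lit 10) (nat_lit 43324) (nat_lit 9) nil nil))) (node (nat_lit 6) (nat_lit 42727) (nat_lit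
  8) (node (nat_lit 4) (nat_lit 42727) (nat_lit 9) nil (node (nat_lit 5) (nat_lit 42727) (nat_lit
  9) nil (node (nat_lit 10) (nat_lit 43324) (nat_lit 9) nil nil))) (node (nat_lit 4) (nat_lit
  42727) (nat_lit 8) (node (nat_lit 5) (nat_lit 42727) (nat_lit 9) nil (node (nat_lit 6) (nat_lit
  42727) (nat_lit 9) nil nil)) (node (nat_lit 0) (nat_lit 43259) (nat_lit 8) nil nil)))) (node
  (nat_lit 6) (nat_lit 0) (nat_lit 7) (node (nat_lit 0) (nat_lit 43259) (nat_lit 8) (node (nat_lit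
  6) (nat_lit 43259) (nat_lit 9) nil nil) (node (nat_lit 4) (nat_lit 0) (nat_lit 8) (node (nat_lit
  0) (nat_lit 42836) (nat_lit 9) (node (nat_lit 6) (nat_lit 42836) (nat_lit 10) nil nil) nil)
  (node (nat_lit 5) (nat_lit 0) (nat_lit 8) (node (nat_lit 0) (nat_lit 41135) (nat_lit 9) (node
  (nat_lit 6) (nat_lit 41135) (nat_lit 10) nil nil) nil) nil))) nil)) (node (nat_lit 0) (nat_lit
  0) (nat_lit 6) (node (nat_lit 4) (nat_lit 41549) (nat_lit 7) (node (nat_lit 6) (nat_lit 41549)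
  (nat_lit 8) (node (nat_lit 5) (nat_lit 41549) (nat_lit 9) nil nil) (node (nat_lit 5) (nat_lit
  41549) (nat_lit 8) nil (node (nat_lit 9) (nat_lit 43259) (nat_lit 8) nil nil))) (node (nat_lit
  5) (nat_lit 41507) (nat_lit 7) (node (nat_lit 4) (nat_lit 41507) (nat_lit 8) (node (nat_lit 6)
  (nat_lit 41507) (nat_lit 9) nil nil) (node (nat_lit 6) (nat_lit 41507) (nat_lit 8) (node
  (nat_lit 4) (nat_lit 41507) (nat_lit 9) nil nil) nil)) (node (nat_lit 6) (nat_lit 40252)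
  (nat_lit 7) (node (nat_lit 4) (nat_lit 40252) (nat_lit 8) (node (nat_lit 5) (nat_lit 40252)
  (nat_lit 9) nil nil) (node (nat_lit 5) (nat_lit 40252) (nat_lit 8) (node (nat_lit 4) (nat_lit
  40252) (nat_lit 9) nil nil) (node (nat_lit 9) (nat_lit 42952) (nat_lit 8) nil nil))) (node
  (nat_lit 0) (nat_lit 41969) (nat_lit 7) nil nil)))) nil)) nil)) (node (nat_lit 5) (nat_lit 0)
  (nat_lit 4) (node (nat_lit 4) (nat_lit 0) (nat_lit 5) t467 nil) nil)) (node (nat_lit 4) (nat_lit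
  0) (nat_lit 3) (node (nat_lit 3) (nat_lit 0) (nat_lit 4) (node (nat_lit 5) (nat_lit 0) (nat_lit
  5) (node (nat_lit 7) (nat_lit 0) (nat_lit 6) (node (nat_lit 0) (nat_lit 0) (nat_lit 7) (node
  (nat_lit 5) (nat_lit 55191) (nat_lit 8) (node (nat_lit 4) (nat_lit 55498) (nat_lit 9) (node
  (nat_lit 7) (nat_lit 55498) (nat_lit 10) nil (node (nat_lit 5) (nat_lit 55498) (nat_lit 10) nil
  nil)) (node (nat_lit 7) (nat_lit 56469) (nat_lit 9) (node (nat_lit 5) (nat_lit 56469) (nat_lit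
  10) nil (node (nat_lit 4) (nat_lit 56469) (nat_lit 10) nil nil)) (node (nat_lit 10) (nat_lit
  56469) (nat_lit 9) nil nil))) (node (nat_lit 4) (nat_lit 54922) (nat_lit 8) (node (nat_lit 7)
  (nat_lit 56214) (nat_lit 9) (node (nat_lit 4) (nat_lit 56214) (nat_lit 10) nil (node (nat_lit 5)
  (nat_lit 56214) (nat_lit 10) nil nil)) (node (nat_lit 5) (nat_lit 55230) (nat_lit 9) (node
  (nat_lit 7) (nat_lit 55230) (nat_lit 10) nil (node (nat_lit 4) (nat_lit 55230) (nat_lit 10) nil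
  nil)) (node (nat_lit 10) (nat_lit 56469) (nat_lit 9) nil nil))) (node (nat_lit 7) (nat_lit 0)
  (nat_lit 8) (node (nat_lit 5) (nat_lit 55323) (nat_lit 9) nil (node (nat_lit 4) (nat_lit 55973)
  (nat_lit 9) nil (node (nat_lit 0) (nat_lit 56469) (nat_lit 9) nil nil))) (node (nat_lit 0)
  (nat_lit 56469) (nat_lit 8) nil nil)))) (node (nat_lit 4) (nat_lit 0) (nat_lit 7) (node (nat_lit
  0) (nat_lit 55534) (nat_lit 8) (node (nat_lit 4) (nat_lit 55534) (nat_lit 9) nil nil) (node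
  (nat_lit 7) (nat_lit 0) (nat_lit 8) (node (nat_lit 0) (nat_lit 56469) (nat_lit 9) (node (nat_lit
  4) (nat_lit 56469) (nat_lit 10) nil nil) nil) (node (nat_lit 5) (nat_lit 0) (nat_lit 8) (node
  (nat_lit 0) (nat_lit 50879) (nat_lit 9) (node (nat_lit 4) (nat_lit 50879) (nat_lit 10) nil nil)
  nil) nil))) nil)) (node (nat_lit 4) (nat_lit 0) (nat_lit 6) (node (nat_lit 0) (nat_lit 0)
  (nat_lit 7) (node (nat_lit 7) (nat_lit 54607) (nat_lit 8) (node (nat_lit 5) (nat_lit 54607)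
  (nat_lit 9) nil (node (nat_lit 4) (nat_lit 54607) (nat_lit 9) (node (nat_lit 7) (nat_lit 54607)
  (nat_lit 10) nil nil) (node (nat_lit 10) (nat_lit 56469) (nat_lit 9) (node (nat_lit 4) (nat_lit
  56469) (nat_lit 10) nil nil) nil))) (node (nat_lit 5) (nat_lit 54665) (nat_lit 8) (node (nat_lit
  4) (nat_lit 54665) (nat_lit 9) nil (node (nat_lit 7) (nat_lit 54665) (nat_lit 9) nil (node
  (nat_lit 10) (nat_lit 56469) (nat_lit 9) (node (nat_lit 4) (nat_lit 56469) (nat_lit 10) nil nil)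
  nil))) (node (nat_lit 4) (nat_lit 55514) (nat_lit 8) (node (nat_lit 7) (nat_lit 55514) (nat_lit
  9) nil (node (nat_lit 5) (nat_lit 55514) (nat_lit 9) nil nil)) (node (nat_lit 0) (nat_lit 56469)
  (nat_lit 8) nil nil)))) (node (nat_lit 5) (nat_lit 0) (nat_lit 7) (node (nat_lit 0) (nat_lit
  56469) (nat_lit 8) (node (nat_lit 5) (nat_lit 0) (nat_lit 9) (node (nat_lit 4) (nat_lit 56469)
  (nat_lit 10) nil (node (nat_lit 7) (nat_lit 56469) (nat_lit 10) nil (node (nat_lit 0) (nat_lit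
  56469) (nat_lit 10) nil nil))) (node (nat_lit 4) (nat_lit 56469) (nat_lit 9) nil (node (nat_lit
  0) (nat_lit 56469) (nat_lit 9) nil nil))) (node (nat_lit 7) (nat_lit 0) (nat_lit 8) (node
  (nat_lit 0) (nat_lit 53804) (nat_lit 9) (node (nat_lit 5) (nat_lit 54423) (nat_lit 10) (node
  (nat_lit 7) (nat_lit 55563) (nat_lit 11) (node (nat_lit 4) (nat_lit 55769) (nat_lit 12) nil
  (node (nat_lit 5) (nat_lit 56233) (nat_lit 12) nil (node (nat_lit 0) (nat_lit 56469) (nat_lit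
  12) nil nil))) nil) (node (nat_lit 7) (nat_lit 53804) (nat_lit 10) nil nil)) nil) nil)) nil))
  (node (nat_lit 0) (nat_lit 0) (nat_lit 6) (node (nat_lit 7) (nat_lit 50438) (nat_lit 7) (node
  (nat_lit 4) (nat_lit 51817) (nat_lit 8) (node (nat_lit 5) (nat_lit 51401) (nat_lit 9) (node
  (nat_lit 7) (nat_lit 51401) (nat_lit 10) nil (node (nat_lit 4) (nat_lit 51401) (nat_lit 10) nil
  nil)) (node (nat_lit 7) (nat_lit 51817) (nat_lit 9) nil nil)) (node (nat_lit 5) (nat_lit 52707)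
  (nat_lit 8) (node (nat_lit 4) (nat_lit 52707) (nat_lit 9) nil (node (nat_lit 7) (nat_lit 52707)
  (nat_lit 9) nil nil)) (node (nat_lit 9) (nat_lit 56396) (nat_lit 8) nil nil))) (node (nat_lit 5)
  (nat_lit 50139) (nat_lit 7) (node (nat_lit 7) (nat_lit 52485) (nat_lit 8) (node (nat_lit 4)
  (nat_lit 52920) (nat_lit 9) (node (nat_lit 7) (nat_lit 52920) (nat_lit 10) nil (node (nat_lit 5)
  (nat_lit 52920) (nat_lit 10) nil nil)) (node (nat_lit 5) (nat_lit 52485) (nat_lit 9) nil nil))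
  (node (nat_lit 4) (nat_lit 52395) (nat_lit 8) (node (nat_lit 7) (nat_lit 52963) (nat_lit 9)
  (node (nat_lit 4) (nat_lit 52963) (nat_lit 10) nil (node (nat_lit 5) (nat_lit 52963) (nat_lit
  10) nil nil)) (node (nat_lit 5) (nat_lit 52395) (nat_lit 9) nil nil)) nil)) (node (nat_lit 4)
  (nat_lit 50686) (nat_lit 7) (node (nat_lit 7) (nat_lit 53093) (nat_lit 8) (node (nat_lit 5)
  (nat_lit 53982) (nat_lit 9) (node (nat_lit 4) (nat_lit 53982) (nat_lit 10) nil (node (nat_lit 7)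
  (nat_lit 53982) (nat_lit 10) nil nil)) (node (nat_lit 4) (nat_lit 53093) (nat_lit 9) nil nil))
  (node (nat_lit 5) (nat_lit 52929) (nat_lit 8) (node (nat_lit 7) (nat_lit 52929) (nat_lit 9)
  (node (nat_lit 4) (nat_lit 52929) (nat_lit 10) nil nil) (node (nat_lit 4) (nat_lit 52929)
  (nat_lit 9) nil nil)) (node (nat_lit 9) (nat_lit 56469) (nat_lit 8) nil nil))) (node (nat_lit 0)
  (nat_lit 51395) (nat_lit 7) nil nil)))) nil))) (node (nat_lit 4) (nat_lit 0) (nat_lit 5) (node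
  (nat_lit 5) (nat_lit 0) (nat_lit 6) (node (nat_lit 0) (nat_lit 0) (nat_lit 7) (node (nat_lit 7)
  (nat_lit 0) (nat_lit 8) (node (nat_lit 5) (nat_lit 34389) (nat_lit 9) (node (nat_lit 4) (nat_lit
  35046) (nat_lit 10) (node (nat_lit 7) (nat_lit 35046) (nat_lit 11) nil (node (nat_lit 5)
  (nat_lit 35046) (nat_lit 11) nil nil)) (node (nat_lit 7) (nat_lit 34892) (nat_lit 10) (node
  (nat_lit 4) (nat_lit 35274) (nat_lit 11) (node (nat_lit 5) (nat_lit 35735) (nat_lit 12) nil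
  (node (nat_lit 7) (nat_lit 35274) (nat_lit 12) nil nil)) nil) (node (nat_lit 10) (nat_lit 36705)
  (nat_lit 10) nil nil))) (node (nat_lit 4) (nat_lit 34008) (nat_lit 9) (node (nat_lit 5) (nat_lit
  33981) (nat_lit 10) (node (nat_lit 7) (nat_lit 33981) (nat_lit 11) nil (node (nat_lit 4)
  (nat_lit 33981) (nat_lit 11) nil nil)) (node (nat_lit 7) (nat_lit 34697) (nat_lit 10) (node
  (nat_lit 5) (nat_lit 34657) (nat_lit 11) nil nil) (node (nat_lit 10) (nat_lit 35503) (nat_lit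
  10) nil nil))) (node (nat_lit 10) (nat_lit 37948) (nat_lit 9) (node (nat_lit 5) (nat_lit 37948)
  (nat_lit 10) nil nil) (node (nat_lit 0) (nat_lit 34567) (nat_lit 9) nil nil)))) (node (nat_lit
  4) (nat_lit 0) (nat_lit 8) (node (nat_lit 7) (nat_lit 34649) (nat_lit 9) (node (nat_lit 5)
  (nat_lit 35305) (nat_lit 10) (node (nat_lit 4) (nat_lit 35305) (nat_lit 11) nil nil) (node
  (nat_lit 4) (nat_lit 35305) (nat_lit 10) (node (nat_lit 5) (nat_lit 35305) (nat_lit 11) nil nil)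
  (node (nat_lit 10) (nat_lit 36144) (nat_lit 10) nil nil))) (node (nat_lit 5) (nat_lit 34331)
  (nat_lit 9) (node (nat_lit 4) (nat_lit 35305) (nat_lit 10) (node (nat_lit 7) (nat_lit 36186)
  (nat_lit 11) (node (nat_lit 5) (nat_lit 36638) (nat_lit 12) nil (node (nat_lit 4) (nat_lit
  36186) (nat_lit 12) nil nil)) nil) (node (nat_lit 7) (nat_lit 33698) (nat_lit 10) (node (nat_lit
  4) (nat_lit 33791) (nat_lit 11) nil (node (nat_lit 5) (nat_lit 33698) (nat_lit 11) nil nil))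
  nil)) (node (nat_lit 10) (nat_lit 37948) (nat_lit 9) (node (nat_lit 5) (nat_lit 37948) (nat_lit
  10) nil nil) (node (nat_lit 0) (nat_lit 34465) (nat_lit 9) nil nil)))) (node (nat_lit 5)
  (nat_lit 0) (nat_lit 8) (node (nat_lit 4) (nat_lit 34262) (nat_lit 9) (node (nat_lit 7) (nat_lit
  34262) (nat_lit 10) nil (node (nat_lit 5) (nat_lit 34262) (nat_lit 10) (node (nat_lit 7)
  (nat_lit 34262) (nat_lit 11) nil nil) (node (nat_lit 10) (nat_lit 35757) (nat_lit 10) nil nil)))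
  (node (nat_lit 7) (nat_lit 34174) (nat_lit 9) (node (nat_lit 4) (nat_lit 34174) (nat_lit 10)
  (node (nat_lit 7) (nat_lit 34174) (nat_lit 11) nil (node (nat_lit 5) (nat_lit 34174) (nat_lit
  11) nil nil)) (node (nat_lit 5) (nat_lit 34174) (nat_lit 10) (node (nat_lit 4) (nat_lit 34174)
  (nat_lit 11) nil nil) nil)) (node (nat_lit 0) (nat_lit 34705) (nat_lit 9) nil nil))) (node
  (nat_lit 0) (nat_lit 36454) (nat_lit 8) (node (nat_lit 10) (nat_lit 36909) (nat_lit 9) nil (node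
  (nat_lit 5) (nat_lit 36454) (nat_lit 9) nil (node (nat_lit 4) (nat_lit 36454) (nat_lit 9) nil
  (node (nat_lit 7) (nat_lit 36454) (nat_lit 9) nil nil)))) nil)))) (node (nat_lit 7) (nat_lit 0)
  (nat_lit 7) (node (nat_lit 0) (nat_lit 0) (nat_lit 8) (node (nat_lit 7) (nat_lit 0) (nat_lit 9)
  (node (nat_lit 5) (nat_lit 35445) (nat_lit 10) (node (nat_lit 4) (nat_lit 35445) (nat_lit 11)
  nil (node (nat_lit 7) (nat_lit 35445) (nat_lit 11) nil (node (nat_lit 11) (nat_lit 36249)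
  (nat_lit 11) nil nil))) (node (nat_lit 4) (nat_lit 35445) (nat_lit 10) nil (node (nat_lit 0)
  (nat_lit 38043) (nat_lit 10) nil nil))) (node (nat_lit 5) (nat_lit 35948) (nat_lit 9) (node
  (nat_lit 11) (nat_lit 36588) (nat_lit 10) nil nil) (node (nat_lit 4) (nat_lit 35538) (nat_lit 9)
  nil (node (nat_lit 0) (nat_lit 35993) (nat_lit 9) nil nil)))) (node (nat_lit 5) (nat_lit 0)
  (nat_lit 8) (node (nat_lit 0) (nat_lit 36794) (nat_lit 9) (node (nat_lit 7) (nat_lit 36794)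
  (nat_lit 10) (node (nat_lit 5) (nat_lit 36794) (nat_lit 11) nil nil) nil) nil) (node (nat_lit 4)
  (nat_lit 0) (nat_lit 8) (node (nat_lit 0) (nat_lit 36794) (nat_lit 9) (node (nat_lit 7) (nat_lit
  36794) (nat_lit 10) nil nil) nil) nil))) nil)) (node (nat_lit 0) (nat_lit 0) (nat_lit 6) (node
  (nat_lit 7) (nat_lit 29179) (nat_lit 7) (node (nat_lit 5) (nat_lit 31153) (nat_lit 8) (node
  (nat_lit 4) (nat_lit 33091) (nat_lit 9) (node (nat_lit 7) (nat_lit 33910) (nat_lit 10) nil (node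
  (nat_lit 5) (nat_lit 33910) (nat_lit 10) nil nil)) (node (nat_lit 7) (nat_lit 31153) (nat_lit 9)
  nil nil)) (node (nat_lit 4) (nat_lit 31305) (nat_lit 8) (node (nat_lit 5) (nat_lit 32444)
  (nat_lit 9) (node (nat_lit 7) (nat_lit 32444) (nat_lit 10) nil (node (nat_lit 4) (nat_lit 32419)
  (nat_lit 10) (node (nat_lit 7) (nat_lit 32419) (nat_lit 11) nil nil) nil)) (node (nat_lit 7)
  (nat_lit 31305) (nat_lit 9) nil nil)) (node (nat_lit 9) (nat_lit 37493) (nat_lit 8) nil nil)))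
  (node (nat_lit 5) (nat_lit 28852) (nat_lit 7) (node (nat_lit 4) (nat_lit 30871) (nat_lit 8)
  (node (nat_lit 7) (nat_lit 32546) (nat_lit 9) (node (nat_lit 5) (nat_lit 32453) (nat_lit 10) nil
  (node (nat_lit 4) (nat_lit 33364) (nat_lit 10) (node (nat_lit 5) (nat_lit 33364) (nat_lit 11)
  nil nil) nil)) (node (nat_lit 5) (nat_lit 30871) (nat_lit 9) nil nil)) (node (nat_lit 7)
  (nat_lit 30781) (nat_lit 8) (node (nat_lit 4) (nat_lit 32052) (nat_lit 9) (node (nat_lit 7)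
  (nat_lit 33241) (nat_lit 10) (node (nat_lit 5) (nat_lit 34139) (nat_lit 11) nil nil) (node
  (nat_lit 5) (nat_lit 32870) (nat_lit 10) nil nil)) (node (nat_lit 5) (nat_lit 31867) (nat_lit 9)
  (node (nat_lit 4) (nat_lit 31867) (nat_lit 10) nil nil) nil)) (node (nat_lit 9) (nat_lit 37371)
  (nat_lit 8) nil nil))) (node (nat_lit 4) (nat_lit 29078) (nat_lit 7) (node (nat_lit 7) (nat_lit
  31271) (nat_lit 8) (node (nat_lit 5) (nat_lit 32930) (nat_lit 9) (node (nat_lit 4) (nat_lit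
  33749) (nat_lit 10) (node (nat_lit 5) (nat_lit 33749) (nat_lit 11) nil (node (nat_lit 7)
  (nat_lit 33749) (nat_lit 11) nil nil)) (node (nat_lit 7) (nat_lit 33749) (nat_lit 10) (node
  (nat_lit 4) (nat_lit 34647) (nat_lit 11) (node (nat_lit 5) (nat_lit 35688) (nat_lit 12) nil nil)
  nil) nil)) (node (nat_lit 4) (nat_lit 31271) (nat_lit 9) nil nil)) (node (nat_lit 5) (nat_lit
  31026) (nat_lit 8) (node (nat_lit 7) (nat_lit 32961) (nat_lit 9) (node (nat_lit 4) (nat_lit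
  32937) (nat_lit 10) (node (nat_lit 7) (nat_lit 32598) (nat_lit 11) (node (nat_lit 5) (nat_lit
  31863) (nat_lit 12) nil nil) (node (nat_lit 5) (nat_lit 32937) (nat_lit 11) nil nil)) (node
  (nat_lit 5) (nat_lit 32869) (nat_lit 10) (node (nat_lit 4) (nat_lit 32530) (nat_lit 11) (node
  (nat_lit 7) (nat_lit 33571) (nat_lit 12) nil nil) nil) nil)) (node (nat_lit 4) (nat_lit 31026)
  (nat_lit 9) nil nil)) nil)) (node (nat_lit 0) (nat_lit 29669) (nat_lit 7) nil nil)))) nil))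
  nil)) nil) nil))

noncomputable def c58 : Tr :=
  (node (nat_lit 3) (nat_lit 0) (nat_lit 1) (node (nat_lit 3) (nat_lit 0) (nat_lit 2) t468 nil)
  nil)

noncomputable def t469 : Tr :=
  (node (nat_lit 4) (nat_lit 0) (nat_lit 4) (node (nat_lit 6) (nat_lit 0) (nat_lit 5) (node
  (nat_lit 5) (nat_lit 0) (nat_lit 6) (node (nat_lit 6) (nat_lit 0) (nat_lit 7) (node (nat_lit 0)
  (nat_lit 0) (nat_lit 8) (node (nat_lit 6) (nat_lit 0) (nat_lit 9) (node (nat_lit 4) (nat_lit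
  81104) (nat_lit 10) (node (nat_lit 5) (nat_lit 86548) (nat_lit 11) (node (nat_lit 6) (nat_lit
  90027) (nat_lit 12) (node (nat_lit 5) (nat_lit 92291) (nat_lit 13) (node (nat_lit 4) (nat_lit
  91663) (nat_lit 14) nil nil) (node (nat_lit 4) (nat_lit 91601) (nat_lit 13) nil nil)) (node
  (nat_lit 4) (nat_lit 89911) (nat_lit 12) (node (nat_lit 6) (nat_lit 91593) (nat_lit 13) (node
  (nat_lit 5) (nat_lit 90045) (nat_lit 14) nil nil) nil) (node (nat_lit 11) (nat_lit 89646)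
  (nat_lit 12) nil (node (nat_lit 0) (nat_lit 89646) (nat_lit 12) nil nil)))) (node (nat_lit 6)
  (nat_lit 85971) (nat_lit 11) (node (nat_lit 5) (nat_lit 88250) (nat_lit 12) (node (nat_lit 4)
  (nat_lit 90538) (nat_lit 13) (node (nat_lit 6) (nat_lit 88990) (nat_lit 14) nil nil) (node
  (nat_lit 6) (nat_lit 90462) (nat_lit 13) nil nil)) (node (nat_lit 11) (nat_lit 93558) (nat_lit
  12) nil (node (nat_lit 0) (nat_lit 89069) (nat_lit 12) nil nil))) (node (nat_lit 11) (nat_lit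
  92466) (nat_lit 11) nil (node (nat_lit 0) (nat_lit 92466) (nat_lit 11) nil nil)))) (node
  (nat_lit 5) (nat_lit 80491) (nat_lit 10) (node (nat_lit 4) (nat_lit 86465) (nat_lit 11) (node
  (nat_lit 6) (nat_lit 89291) (nat_lit 12) (node (nat_lit 4) (nat_lit 91453) (nat_lit 13) (node
  (nat_lit 5) (nat_lit 92074) (nat_lit 14) nil nil) (node (nat_lit 5) (nat_lit 91377) (nat_lit 13)
  nil nil)) (node (nat_lit 5) (nat_lit 89550) (nat_lit 12) (node (nat_lit 6) (nat_lit 91984)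
  (nat_lit 13) (node (nat_lit 5) (nat_lit 90436) (nat_lit 14) nil nil) nil) (node (nat_lit 0)
  (nat_lit 89563) (nat_lit 12) nil (node (nat_lit 11) (nat_lit 89563) (nat_lit 12) nil nil))))
  (node (nat_lit 11) (nat_lit 93452) (nat_lit 11) (node (nat_lit 6) (nat_lit 93452) (nat_lit 12)
  (node (nat_lit 11) (nat_lit 94349) (nat_lit 13) nil nil) nil) (node (nat_lit 6) (nat_lit 84104)
  (nat_lit 11) (node (nat_lit 4) (nat_lit 85721) (nat_lit 12) (node (nat_lit 5) (nat_lit 86082)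
  (nat_lit 13) nil (node (nat_lit 6) (nat_lit 86828) (nat_lit 13) nil nil)) nil) (node (nat_lit 0)
  (nat_lit 89312) (nat_lit 11) nil nil)))) (node (nat_lit 0) (nat_lit 89569) (nat_lit 10) (node
  (nat_lit 11) (nat_lit 91700) (nat_lit 11) nil (node (nat_lit 6) (nat_lit 89569) (nat_lit 11) nil
  (node (nat_lit 4) (nat_lit 89569) (nat_lit 11) nil (node (nat_lit 5) (nat_lit 89569) (nat_lit
  11) nil (node (nat_lit 0) (nat_lit 90116) (nat_lit 11) nil nil))))) nil))) (node (nat_lit 5)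
  (nat_lit 0) (nat_lit 9) (node (nat_lit 11) (nat_lit 89842) (nat_lit 10) (node (nat_lit 6)
  (nat_lit 89842) (nat_lit 11) (node (nat_lit 11) (nat_lit 93010) (nat_lit 12) (node (nat_lit 5)
  (nat_lit 93010) (nat_lit 13) nil nil) nil) nil) (node (nat_lit 6) (nat_lit 80675) (nat_lit 10)
  (node (nat_lit 5) (nat_lit 85770) (nat_lit 11) (node (nat_lit 11) (nat_lit 92397) (nat_lit 12)
  nil nil) nil) (node (nat_lit 4) (nat_lit 81191) (nat_lit 10) nil (node (nat_lit 0) (nat_lit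
  78287) (nat_lit 10) nil nil)))) (node (nat_lit 4) (nat_lit 77065) (nat_lit 9) (node (nat_lit 6)
  (nat_lit 81541) (nat_lit 10) (node (nat_lit 4) (nat_lit 81541) (nat_lit 11) nil nil) (node
  (nat_lit 11) (nat_lit 90513) (nat_lit 10) nil (node (nat_lit 5) (nat_lit 77065) (nat_lit 10) nil
  nil))) (node (nat_lit 0) (nat_lit 82634) (nat_lit 9) (node (nat_lit 6) (nat_lit 82766) (nat_lit
  10) (node (nat_lit 11) (nat_lit 85984) (nat_lit 11) nil nil) (node (nat_lit 11) (nat_lit 84407)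
  (nat_lit 10) nil nil)) nil)))) (node (nat_lit 4) (nat_lit 0) (nat_lit 8) (node (nat_lit 0)
  (nat_lit 80905) (nat_lit 9) (node (nat_lit 6) (nat_lit 83182) (nat_lit 10) (node (nat_lit 4)
  (nat_lit 86523) (nat_lit 11) (node (nat_lit 5) (nat_lit 86985) (nat_lit 12) (node (nat_lit 6)
  (nat_lit 87635) (nat_lit 13) nil (node (nat_lit 4) (nat_lit 86437) (nat_lit 13) nil (node
  (nat_lit 12) (nat_lit 91123) (nat_lit 13) nil nil))) (node (nat_lit 6) (nat_lit 88429) (nat_lit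
  12) (node (nat_lit 5) (nat_lit 89079) (nat_lit 13) (node (nat_lit 4) (nat_lit 89009) (nat_lit
  14) nil nil) (node (nat_lit 12) (nat_lit 92567) (nat_lit 13) nil (node (nat_lit 0) (nat_lit
  92567) (nat_lit 13) nil nil))) (node (nat_lit 0) (nat_lit 89975) (nat_lit 12) nil nil))) nil)
  (node (nat_lit 4) (nat_lit 80905) (nat_lit 10) nil nil)) nil) nil)) (node (nat_lit 0) (nat_lit
  0) (nat_lit 7) (node (nat_lit 4) (nat_lit 0) (nat_lit 8) (node (nat_lit 5) (nat_lit 73590)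
  (nat_lit 9) (node (nat_lit 4) (nat_lit 78136) (nat_lit 10) (node (nat_lit 6) (nat_lit 80686)
  (nat_lit 11) (node (nat_lit 5) (nat_lit 83196) (nat_lit 12) nil nil) nil) (node (nat_lit 6)
  (nat_lit 76437) (nat_lit 10) (node (nat_lit 4) (nat_lit 75638) (nat_lit 11) nil nil) (node
  (nat_lit 10) (nat_lit 78156) (nat_lit 10) nil nil))) (node (nat_lit 6) (nat_lit 72543) (nat_lit
  9) (node (nat_lit 4) (nat_lit 74452) (nat_lit 10) (node (nat_lit 5) (nat_lit 73342) (nat_lit 11)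
  (node (nat_lit 6) (nat_lit 73789) (nat_lit 12) nil nil) nil) (node (nat_lit 5) (nat_lit 75361)
  (nat_lit 10) (node (nat_lit 4) (nat_lit 75361) (nat_lit 11) nil nil) (node (nat_lit 10) (nat_lit
  77109) (nat_lit 10) nil nil))) (node (nat_lit 10) (nat_lit 81139) (nat_lit 9) nil (node (nat_lit
  0) (nat_lit 71885) (nat_lit 9) nil nil)))) (node (nat_lit 6) (nat_lit 0) (nat_lit 8) (node
  (nat_lit 5) (nat_lit 73043) (nat_lit 9) (node (nat_lit 6) (nat_lit 77393) (nat_lit 10) (node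
  (nat_lit 4) (nat_lit 80712) (nat_lit 11) (node (nat_lit 5) (nat_lit 81355) (nat_lit 12) (node
  (nat_lit 4) (nat_lit 81192) (nat_lit 13) nil nil) (node (nat_lit 6) (nat_lit 81159) (nat_lit 12)
  nil nil)) nil) (node (nat_lit 4) (nat_lit 77337) (nat_lit 10) nil nil)) (node (nat_lit 4)
  (nat_lit 72642) (nat_lit 9) (node (nat_lit 5) (nat_lit 75886) (nat_lit 10) (node (nat_lit 6)
  (nat_lit 76683) (nat_lit 11) nil nil) (node (nat_lit 6) (nat_lit 73427) (nat_lit 10) (node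
  (nat_lit 5) (nat_lit 73427) (nat_lit 11) nil nil) (node (nat_lit 10) (nat_lit 77208) (nat_lit
  10) nil nil))) (node (nat_lit 10) (nat_lit 81698) (nat_lit 9) nil (node (nat_lit 0) (nat_lit
  71199) (nat_lit 9) nil nil)))) (node (nat_lit 5) (nat_lit 0) (nat_lit 8) (node (nat_lit 6)
  (nat_lit 72675) (nat_lit 9) (node (nat_lit 5) (nat_lit 74954) (nat_lit 10) (node (nat_lit 4)
  (nat_lit 74954) (nat_lit 11) nil (node (nat_lit 10) (nat_lit 80067) (nat_lit 11) nil nil)) (node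
  (nat_lit 4) (nat_lit 72675) (nat_lit 10) nil nil)) (node (nat_lit 4) (nat_lit 73730) (nat_lit 9)
  (node (nat_lit 6) (nat_lit 73730) (nat_lit 10) nil (node (nat_lit 5) (nat_lit 73730) (nat_lit
  10) nil nil)) (node (nat_lit 0) (nat_lit 73401) (nat_lit 9) nil nil))) (node (nat_lit 0)
  (nat_lit 75363) (nat_lit 8) (node (nat_lit 10) (nat_lit 77124) (nat_lit 9) nil (node (nat_lit 5)
  (nat_lit 75363) (nat_lit 9) nil nil)) nil)))) (node (nat_lit 4) (nat_lit 0) (nat_lit 7) (node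
  (nat_lit 0) (nat_lit 0) (nat_lit 8) (node (nat_lit 4) (nat_lit 0) (nat_lit 9) (node (nat_lit 5)
  (nat_lit 71962) (nat_lit 10) (node (nat_lit 6) (nat_lit 71874) (nat_lit 11) nil (node (nat_lit
  4) (nat_lit 71962) (nat_lit 11) nil (node (nat_lit 11) (nat_lit 78090) (nat_lit 11) nil nil)))
  (node (nat_lit 6) (nat_lit 70960) (nat_lit 10) (node (nat_lit 4) (nat_lit 70960) (nat_lit 11)
  nil (node (nat_lit 5) (nat_lit 70960) (nat_lit 11) nil (node (nat_lit 11) (nat_lit 73563)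
  (nat_lit 11) nil (node (nat_lit 0) (nat_lit 73563) (nat_lit 11) nil nil)))) (node (nat_lit 0)
  (nat_lit 76584) (nat_lit 10) nil nil))) (node (nat_lit 5) (nat_lit 69505) (nat_lit 9) (node
  (nat_lit 11) (nat_lit 74187) (nat_lit 10) nil (node (nat_lit 4) (nat_lit 69505) (nat_lit 10) nil
  nil)) (node (nat_lit 0) (nat_lit 70413) (nat_lit 9) nil (node (nat_lit 6) (nat_lit 67502)
  (nat_lit 9) nil nil)))) (node (nat_lit 5) (nat_lit 0) (nat_lit 8) (node (nat_lit 0) (nat_lit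
  73199) (nat_lit 9) (node (nat_lit 4) (nat_lit 73022) (nat_lit 10) (node (nat_lit 5) (nat_lit
  73022) (nat_lit 11) nil nil) nil) nil) (node (nat_lit 6) (nat_lit 0) (nat_lit 8) (node (nat_lit
  0) (nat_lit 64528) (nat_lit 9) (node (nat_lit 4) (nat_lit 65899) (nat_lit 10) (node (nat_lit 6)
  (nat_lit 65899) (nat_lit 11) nil nil) nil) nil) nil))) nil))) (node (nat_lit 0) (nat_lit 0)
  (nat_lit 6) (node (nat_lit 4) (nat_lit 75276) (nat_lit 7) (node (nat_lit 6) (nat_lit 75276)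
  (nat_lit 8) (node (nat_lit 5) (nat_lit 75276) (nat_lit 9) nil (node (nat_lit 4) (nat_lit 75276)
  (nat_lit 9) nil nil)) (node (nat_lit 5) (nat_lit 75276) (nat_lit 8) (node (nat_lit 6) (nat_lit
  75276) (nat_lit 9) nil nil) (node (nat_lit 9) (nat_lit 81048) (nat_lit 8) nil nil))) (node
  (nat_lit 6) (nat_lit 75317) (nat_lit 7) (node (nat_lit 4) (nat_lit 75317) (nat_lit 8) (node
  (nat_lit 5) (nat_lit 75317) (nat_lit 9) (node (nat_lit 6) (nat_lit 75317) (nat_lit 10) nil (node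
  (nat_lit 4) (nat_lit 75317) (nat_lit 10) nil nil)) (node (nat_lit 6) (nat_lit 75317) (nat_lit 9)
  nil nil)) (node (nat_lit 5) (nat_lit 75317) (nat_lit 8) (node (nat_lit 4) (nat_lit 75317)
  (nat_lit 9) nil nil) nil)) (node (nat_lit 5) (nat_lit 77383) (nat_lit 7) (node (nat_lit 6)
  (nat_lit 77383) (nat_lit 8) (node (nat_lit 4) (nat_lit 77383) (nat_lit 9) nil nil) (node
  (nat_lit 4) (nat_lit 77383) (nat_lit 8) (node (nat_lit 6) (nat_lit 77383) (nat_lit 9) nil nil)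
  (node (nat_lit 9) (nat_lit 83155) (nat_lit 8) nil nil))) (node (nat_lit 0) (nat_lit 73119)
  (nat_lit 7) nil nil)))) nil)) (node (nat_lit 5) (nat_lit 0) (nat_lit 5) (node (nat_lit 4)
  (nat_lit 0) (nat_lit 6) (node (nat_lit 0) (nat_lit 0) (nat_lit 7) (node (nat_lit 6) (nat_lit 0)
  (nat_lit 8) (node (nat_lit 5) (nat_lit 62643) (nat_lit 9) (node (nat_lit 6) (nat_lit 62657)
  (nat_lit 10) (node (nat_lit 4) (nat_lit 62657) (nat_lit 11) (node (nat_lit 5) (nat_lit 63471)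
  (nat_lit 12) nil nil) nil) (node (nat_lit 4) (nat_lit 62657) (nat_lit 10) (node (nat_lit 6)
  (nat_lit 62657) (nat_lit 11) nil nil) nil)) (node (nat_lit 4) (nat_lit 62466) (nat_lit 9) (node
  (nat_lit 6) (nat_lit 62466) (nat_lit 10) (node (nat_lit 5) (nat_lit 62466) (nat_lit 11) nil nil)
  (node (nat_lit 5) (nat_lit 62466) (nat_lit 10) nil nil)) (node (nat_lit 10) (nat_lit 63471)
  (nat_lit 9) nil (node (nat_lit 0) (nat_lit 63096) (nat_lit 9) nil nil)))) (node (nat_lit 5)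
  (nat_lit 0) (nat_lit 8) (node (nat_lit 4) (nat_lit 62657) (nat_lit 9) (node (nat_lit 5) (nat_lit
  62657) (nat_lit 10) (node (nat_lit 6) (nat_lit 62657) (nat_lit 11) (node (nat_lit 4) (nat_lit
  63471) (nat_lit 12) nil (node (nat_lit 5) (nat_lit 63471) (nat_lit 12) nil nil)) nil) (node
  (nat_lit 6) (nat_lit 62657) (nat_lit 10) nil nil)) (node (nat_lit 6) (nat_lit 62340) (nat_lit 9)
  (node (nat_lit 4) (nat_lit 62340) (nat_lit 10) (node (nat_lit 5) (nat_lit 62340) (nat_lit 11)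
  nil nil) (node (nat_lit 5) (nat_lit 62340) (nat_lit 10) nil nil)) (node (nat_lit 10) (nat_lit
  63471) (nat_lit 9) nil (node (nat_lit 0) (nat_lit 63326) (nat_lit 9) nil nil)))) (node (nat_lit
  4) (nat_lit 0) (nat_lit 8) (node (nat_lit 6) (nat_lit 61898) (nat_lit 9) (node (nat_lit 5)
  (nat_lit 61898) (nat_lit 10) nil (node (nat_lit 4) (nat_lit 62061) (nat_lit 10) (node (nat_lit
  5) (nat_lit 61263) (nat_lit 11) nil nil) nil)) (node (nat_lit 5) (nat_lit 62657) (nat_lit 9)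
  (node (nat_lit 6) (nat_lit 62657) (nat_lit 10) nil (node (nat_lit 4) (nat_lit 62657) (nat_lit
  10) nil nil)) (node (nat_lit 0) (nat_lit 63122) (nat_lit 9) nil nil))) (node (nat_lit 0)
  (nat_lit 62353) (nat_lit 8) nil nil)))) (node (nat_lit 6) (nat_lit 0) (nat_lit 7) (node (nat_lit
  0) (nat_lit 0) (nat_lit 8) (node (nat_lit 6) (nat_lit 0) (nat_lit 9) (node (nat_lit 5) (nat_lit
  63471) (nat_lit 10) (node (nat_lit 4) (nat_lit 63471) (nat_lit 11) nil (node (nat_lit 6)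
  (nat_lit 63471) (nat_lit 11) nil (node (nat_lit 0) (nat_lit 63471) (nat_lit 11) nil nil))) (node
  (nat_lit 4) (nat_lit 63471) (nat_lit 10) (node (nat_lit 5) (nat_lit 63471) (nat_lit 11) nil
  (node (nat_lit 6) (nat_lit 63471) (nat_lit 11) nil nil)) (node (nat_lit 0) (nat_lit 63471)
  (nat_lit 10) nil nil))) (node (nat_lit 4) (nat_lit 63471) (nat_lit 9) (node (nat_lit 6) (nat_lit
  63471) (nat_lit 10) nil (node (nat_lit 11) (nat_lit 63471) (nat_lit 10) nil nil)) (node (nat_lit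
  0) (nat_lit 63471) (nat_lit 9) nil (node (nat_lit 5) (nat_lit 63471) (nat_lit 9) (node (nat_lit
  11) (nat_lit 63471) (nat_lit 10) nil nil) nil)))) (node (nat_lit 4) (nat_lit 0) (nat_lit 8)
  (node (nat_lit 0) (nat_lit 62849) (nat_lit 9) (node (nat_lit 6) (nat_lit 62849) (nat_lit 10)
  (node (nat_lit 4) (nat_lit 62849) (nat_lit 11) (node (nat_lit 6) (nat_lit 62849) (nat_lit 12)
  (node (nat_lit 12) (nat_lit 63471) (nat_lit 13) nil nil) (node (nat_lit 5) (nat_lit 62849)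
  (nat_lit 12) nil nil)) nil) (node (nat_lit 4) (nat_lit 62849) (nat_lit 10) nil nil)) nil) (node
  (nat_lit 5) (nat_lit 0) (nat_lit 8) (node (nat_lit 0) (nat_lit 61379) (nat_lit 9) (node (nat_lit
  6) (nat_lit 61216) (nat_lit 10) (node (nat_lit 5) (nat_lit 61216) (nat_lit 11) (node (nat_lit 6)
  (nat_lit 61216) (nat_lit 12) nil nil) nil) nil) nil) nil))) nil)) (node (nat_lit 0) (nat_lit 0)
  (nat_lit 6) (node (nat_lit 6) (nat_lit 55358) (nat_lit 7) (node (nat_lit 4) (nat_lit 59077)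
  (nat_lit 8) (node (nat_lit 5) (nat_lit 59969) (nat_lit 9) (node (nat_lit 6) (nat_lit 61153)
  (nat_lit 10) nil (node (nat_lit 4) (nat_lit 59969) (nat_lit 10) nil nil)) (node (nat_lit 6)
  (nat_lit 60512) (nat_lit 9) nil nil)) (node (nat_lit 5) (nat_lit 60027) (nat_lit 8) (node
  (nat_lit 4) (nat_lit 61153) (nat_lit 9) (node (nat_lit 5) (nat_lit 61153) (nat_lit 10) nil nil)
  (node (nat_lit 6) (nat_lit 60027) (nat_lit 9) nil nil)) (node (nat_lit 9) (nat_lit 60094)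
  (nat_lit 8) nil nil))) (node (nat_lit 4) (nat_lit 55507) (nat_lit 7) (node (nat_lit 6) (nat_lit
  59283) (nat_lit 8) (node (nat_lit 5) (nat_lit 60719) (nat_lit 9) (node (nat_lit 6) (nat_lit
  60719) (nat_lit 10) nil (node (nat_lit 4) (nat_lit 60719) (nat_lit 10) nil nil)) (node (nat_lit
  4) (nat_lit 59283) (nat_lit 9) nil nil)) (node (nat_lit 5) (nat_lit 59657) (nat_lit 8) (node
  (nat_lit 6) (nat_lit 59657) (nat_lit 9) nil (node (nat_lit 4) (nat_lit 59657) (nat_lit 9) nil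
  nil)) (node (nat_lit 9) (nat_lit 60244) (nat_lit 8) nil nil))) (node (nat_lit 5) (nat_lit 55715)
  (nat_lit 7) (node (nat_lit 4) (nat_lit 60350) (nat_lit 8) (node (nat_lit 6) (nat_lit 61153)
  (nat_lit 9) (node (nat_lit 4) (nat_lit 61153) (nat_lit 10) nil (node (nat_lit 5) (nat_lit 61153)
  (nat_lit 10) nil nil)) (node (nat_lit 5) (nat_lit 60350) (nat_lit 9) nil nil)) (node (nat_lit 6)
  (nat_lit 60350) (nat_lit 8) (node (nat_lit 4) (nat_lit 60305) (nat_lit 9) nil (node (nat_lit 5)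
  (nat_lit 60350) (nat_lit 9) nil nil)) nil)) (node (nat_lit 0) (nat_lit 56975) (nat_lit 7) nil
  nil)))) nil)) nil)) (node (nat_lit 5) (nat_lit 0) (nat_lit 4) (node (nat_lit 4) (nat_lit 0)
  (nat_lit 5) (node (nat_lit 5) (nat_lit 0) (nat_lit 6) (node (nat_lit 0) (nat_lit 0) (nat_lit 7)
  (node (nat_lit 4) (nat_lit 0) (nat_lit 8) (node (nat_lit 5) (nat_lit 60808) (nat_lit 9) (node
  (nat_lit 4) (nat_lit 64409) (nat_lit 10) (node (nat_lit 6) (nat_lit 66995) (nat_lit 11) (node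
  (nat_lit 5) (nat_lit 67829) (nat_lit 12) (node (nat_lit 6) (nat_lit 67829) (nat_lit 13) nil nil)
  (node (nat_lit 4) (nat_lit 67829) (nat_lit 12) nil nil)) (node (nat_lit 10) (nat_lit 67423)
  (nat_lit 11) nil nil)) (node (nat_lit 6) (nat_lit 62804) (nat_lit 10) (node (nat_lit 5) (nat_lit
  62804) (nat_lit 11) nil (node (nat_lit 4) (nat_lit 62804) (nat_lit 11) nil nil)) nil)) (node
  (nat_lit 6) (nat_lit 60541) (nat_lit 9) (node (nat_lit 5) (nat_lit 63939) (nat_lit 10) (node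
  (nat_lit 4) (nat_lit 65375) (nat_lit 11) nil nil) (node (nat_lit 4) (nat_lit 62219) (nat_lit 10)
  (node (nat_lit 5) (nat_lit 62825) (nat_lit 11) (node (nat_lit 6) (nat_lit 64399) (nat_lit 12)
  nil nil) nil) (node (nat_lit 10) (nat_lit 63259) (nat_lit 10) nil nil))) (node (nat_lit 10)
  (nat_lit 67829) (nat_lit 9) (node (nat_lit 5) (nat_lit 67829) (nat_lit 10) (node (nat_lit 4)
  (nat_lit 67829) (nat_lit 11) nil nil) (node (nat_lit 6) (nat_lit 67829) (nat_lit 10) nil nil))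
  (node (nat_lit 0) (nat_lit 59460) (nat_lit 9) nil nil)))) (node (nat_lit 6) (nat_lit 0) (nat_lit
  8) (node (nat_lit 5) (nat_lit 60045) (nat_lit 9) (node (nat_lit 6) (nat_lit 61714) (nat_lit 10)
  (node (nat_lit 4) (nat_lit 62074) (nat_lit 11) (node (nat_lit 5) (nat_lit 63648) (nat_lit 12)
  nil (node (nat_lit 6) (nat_lit 63648) (nat_lit 12) nil nil)) (node (nat_lit 10) (nat_lit 64727)
  (nat_lit 11) nil nil)) (node (nat_lit 4) (nat_lit 62983) (nat_lit 10) (node (nat_lit 6) (nat_lit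
  62820) (nat_lit 11) nil nil) (node (nat_lit 10) (nat_lit 67829) (nat_lit 10) nil nil))) (node
  (nat_lit 4) (nat_lit 59888) (nat_lit 9) (node (nat_lit 6) (nat_lit 61792) (nat_lit 10) (node
  (nat_lit 5) (nat_lit 65498) (nat_lit 11) (node (nat_lit 4) (nat_lit 67829) (nat_lit 12) nil
  (node (nat_lit 6) (nat_lit 67072) (nat_lit 12) nil nil)) nil) (node (nat_lit 5) (nat_lit 62117)
  (nat_lit 10) (node (nat_lit 6) (nat_lit 63553) (nat_lit 11) nil (node (nat_lit 4) (nat_lit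
  63553) (nat_lit 11) nil nil)) (node (nat_lit 10) (nat_lit 62606) (nat_lit 10) nil nil))) (node
  (nat_lit 10) (nat_lit 67829) (nat_lit 9) (node (nat_lit 5) (nat_lit 67829) (nat_lit 10) (node
  (nat_lit 6) (nat_lit 67829) (nat_lit 11) nil nil) (node (nat_lit 4) (nat_lit 67829) (nat_lit 10)
  nil nil)) (node (nat_lit 0) (nat_lit 58887) (nat_lit 9) nil nil)))) (node (nat_lit 5) (nat_lit
  0) (nat_lit 8) (node (nat_lit 6) (nat_lit 60317) (nat_lit 9) (node (nat_lit 4) (nat_lit 60317)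
  (nat_lit 10) nil (node (nat_lit 5) (nat_lit 60317) (nat_lit 10) (node (nat_lit 4) (nat_lit
  60317) (nat_lit 11) nil nil) nil)) (node (nat_lit 4) (nat_lit 60748) (nat_lit 9) (node (nat_lit
  6) (nat_lit 60748) (nat_lit 10) nil (node (nat_lit 5) (nat_lit 60748) (nat_lit 10) nil nil))
  (node (nat_lit 0) (nat_lit 61338) (nat_lit 9) nil nil))) (node (nat_lit 0) (nat_lit 62855)
  (nat_lit 8) (node (nat_lit 10) (nat_lit 66314) (nat_lit 9) nil (node (nat_lit 5) (nat_lit 62855)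
  (nat_lit 9) nil nil)) nil)))) (node (nat_lit 6) (nat_lit 0) (nat_lit 7) (node (nat_lit 0)
  (nat_lit 0) (nat_lit 8) (node (nat_lit 6) (nat_lit 0) (nat_lit 9) (node (nat_lit 5) (nat_lit
  64168) (nat_lit 10) (node (nat_lit 4) (nat_lit 66064) (nat_lit 11) (node (nat_lit 6) (nat_lit
  66502) (nat_lit 12) nil (node (nat_lit 5) (nat_lit 67509) (nat_lit 12) nil nil)) (node (nat_lit
  6) (nat_lit 65177) (nat_lit 11) (node (nat_lit 11) (nat_lit 66884) (nat_lit 12) nil (node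
  (nat_lit 4) (nat_lit 65177) (nat_lit 12) nil nil)) (node (nat_lit 11) (nat_lit 67829) (nat_lit
  11) nil (node (nat_lit 0) (nat_lit 67829) (nat_lit 11) nil nil)))) (node (nat_lit 4) (nat_lit
  64011) (nat_lit 10) (node (nat_lit 5) (nat_lit 65546) (nat_lit 11) (node (nat_lit 6) (nat_lit
  66991) (nat_lit 12) nil (node (nat_lit 4) (nat_lit 66991) (nat_lit 12) nil nil)) (node (nat_lit
  6) (nat_lit 65069) (nat_lit 11) (node (nat_lit 5) (nat_lit 65740) (nat_lit 12) nil (node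
  (nat_lit 11) (nat_lit 66776) (nat_lit 12) nil nil)) (node (nat_lit 11) (nat_lit 67829) (nat_lit
  11) nil (node (nat_lit 0) (nat_lit 67829) (nat_lit 11) nil nil)))) (node (nat_lit 0) (nat_lit
  67829) (nat_lit 10) nil nil))) (node (nat_lit 5) (nat_lit 62226) (nat_lit 9) (node (nat_lit 11)
  (nat_lit 67829) (nat_lit 10) (node (nat_lit 6) (nat_lit 67829) (nat_lit 11) nil nil) (node
  (nat_lit 6) (nat_lit 64288) (nat_lit 10) (node (nat_lit 5) (nat_lit 64288) (nat_lit 11) nil nil)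
  (node (nat_lit 4) (nat_lit 62226) (nat_lit 10) nil nil))) (node (nat_lit 0) (nat_lit 66512)
  (nat_lit 9) nil (node (nat_lit 4) (nat_lit 62404) (nat_lit 9) (node (nat_lit 11) (nat_lit 63548)
  (nat_lit 10) nil nil) nil)))) (node (nat_lit 4) (nat_lit 0) (nat_lit 8) (node (nat_lit 0)
  (nat_lit 64905) (nat_lit 9) (node (nat_lit 6) (nat_lit 65625) (nat_lit 10) (node (nat_lit 4)
  (nat_lit 65625) (nat_lit 11) nil nil) nil) nil) nil)) nil)) (node (nat_lit 6) (nat_lit 0)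
  (nat_lit 6) (node (nat_lit 0) (nat_lit 0) (nat_lit 7) (node (nat_lit 5) (nat_lit 0) (nat_lit 8)
  (node (nat_lit 6) (nat_lit 98736) (nat_lit 9) (node (nat_lit 5) (nat_lit 102351) (nat_lit 10)
  (node (nat_lit 4) (nat_lit 103787) (nat_lit 11) nil nil) (node (nat_lit 4) (nat_lit 98239)
  (nat_lit 10) (node (nat_lit 5) (nat_lit 98239) (nat_lit 11) nil nil) (node (nat_lit 10) (nat_lit
  103302) (nat_lit 10) nil nil))) (node (nat_lit 4) (nat_lit 99024) (nat_lit 9) (node (nat_lit 6)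
  (nat_lit 102265) (nat_lit 10) (node (nat_lit 5) (nat_lit 102265) (nat_lit 11) nil nil) (node
  (nat_lit 5) (nat_lit 100499) (nat_lit 10) nil (node (nat_lit 10) (nat_lit 103590) (nat_lit 10)
  nil nil))) (node (nat_lit 10) (nat_lit 107986) (nat_lit 9) (node (nat_lit 6) (nat_lit 107986)
  (nat_lit 10) nil nil) (node (nat_lit 0) (nat_lit 98746) (nat_lit 9) nil nil)))) (node (nat_lit
  4) (nat_lit 0) (nat_lit 8) (node (nat_lit 6) (nat_lit 98345) (nat_lit 9) (node (nat_lit 4)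
  (nat_lit 102568) (nat_lit 10) (node (nat_lit 5) (nat_lit 103882) (nat_lit 11) (node (nat_lit 6)
  (nat_lit 104329) (nat_lit 12) nil nil) (node (nat_lit 10) (nat_lit 107681) (nat_lit 11) nil
  nil)) (node (nat_lit 5) (nat_lit 99982) (nat_lit 10) nil nil)) (node (nat_lit 5) (nat_lit 96786)
  (nat_lit 9) (node (nat_lit 4) (nat_lit 97784) (nat_lit 10) (node (nat_lit 6) (nat_lit 97784)
  (nat_lit 11) nil nil) (node (nat_lit 6) (nat_lit 96055) (nat_lit 10) nil (node (nat_lit 10)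
  (nat_lit 101352) (nat_lit 10) nil nil))) (node (nat_lit 10) (nat_lit 108330) (nat_lit 9) (node
  (nat_lit 6) (nat_lit 108330) (nat_lit 10) nil nil) (node (nat_lit 0) (nat_lit 98311) (nat_lit 9)
  nil nil)))) (node (nat_lit 6) (nat_lit 0) (nat_lit 8) (node (nat_lit 4) (nat_lit 97956) (nat_lit
  9) (node (nat_lit 6) (nat_lit 97956) (nat_lit 10) nil (node (nat_lit 5) (nat_lit 97956) (nat_lit
  10) nil nil)) (node (nat_lit 5) (nat_lit 97798) (nat_lit 9) (node (nat_lit 6) (nat_lit 97798)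
  (nat_lit 10) nil (node (nat_lit 4) (nat_lit 97798) (nat_lit 10) nil nil)) (node (nat_lit 0)
  (nat_lit 100966) (nat_lit 9) nil nil))) (node (nat_lit 0) (nat_lit 103919) (nat_lit 8) (node
  (nat_lit 10) (nat_lit 105354) (nat_lit 9) nil nil) nil)))) (node (nat_lit 5) (nat_lit 0)
  (nat_lit 7) (node (nat_lit 0) (nat_lit 99516) (nat_lit 8) (node (nat_lit 5) (nat_lit 0) (nat_lit
  9) (node (nat_lit 6) (nat_lit 101984) (nat_lit 10) (node (nat_lit 11) (nat_lit 108039) (nat_lit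
  11) nil (node (nat_lit 5) (nat_lit 101984) (nat_lit 11) nil (node (nat_lit 4) (nat_lit 101984)
  (nat_lit 11) nil nil))) (node (nat_lit 4) (nat_lit 102832) (nat_lit 10) (node (nat_lit 5)
  (nat_lit 102832) (nat_lit 11) nil (node (nat_lit 6) (nat_lit 102832) (nat_lit 11) nil nil))
  (node (nat_lit 0) (nat_lit 107556) (nat_lit 10) nil nil))) (node (nat_lit 6) (nat_lit 99953)
  (nat_lit 9) (node (nat_lit 11) (nat_lit 102010) (nat_lit 10) nil nil) (node (nat_lit 0) (nat_lit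
  100952) (nat_lit 9) nil nil))) (node (nat_lit 6) (nat_lit 0) (nat_lit 8) (node (nat_lit 0)
  (nat_lit 104964) (nat_lit 9) (node (nat_lit 5) (nat_lit 104964) (nat_lit 10) (node (nat_lit 6)
  (nat_lit 104964) (nat_lit 11) nil nil) nil) nil) nil)) (node (nat_lit 4) (nat_lit 0) (nat_lit 7)
  (node (nat_lit 0) (nat_lit 0) (nat_lit 8) (node (nat_lit 4) (nat_lit 0) (nat_lit 9) (node
  (nat_lit 5) (nat_lit 102332) (nat_lit 10) (node (nat_lit 4) (nat_lit 102332) (nat_lit 11) nil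
  (node (nat_lit 6) (nat_lit 102332) (nat_lit 11) nil (node (nat_lit 0) (nat_lit 104936) (nat_lit
  11) nil nil))) (node (nat_lit 6) (nat_lit 102495) (nat_lit 10) (node (nat_lit 11) (nat_lit
  105099) (nat_lit 11) nil (node (nat_lit 5) (nat_lit 102495) (nat_lit 11) nil nil)) (node
  (nat_lit 0) (nat_lit 105653) (nat_lit 10) nil nil))) (node (nat_lit 6) (nat_lit 100877) (nat_lit
  9) (node (nat_lit 11) (nat_lit 105505) (nat_lit 10) nil (node (nat_lit 4) (nat_lit 100877)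
  (nat_lit 10) nil nil)) (node (nat_lit 5) (nat_lit 99627) (nat_lit 9) nil (node (nat_lit 0)
  (nat_lit 103341) (nat_lit 9) nil nil)))) (node (nat_lit 5) (nat_lit 0) (nat_lit 8) (node
  (nat_lit 0) (nat_lit 99978) (nat_lit 9) (node (nat_lit 4) (nat_lit 99978) (nat_lit 10) nil nil)
  nil) nil)) nil))) (node (nat_lit 0) (nat_lit 0) (nat_lit 6) (node (nat_lit 6) (nat_lit 88484)
  (nat_lit 7) (node (nat_lit 5) (nat_lit 95295) (nat_lit 8) (node (nat_lit 4) (nat_lit 100811)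
  (nat_lit 9) (node (nat_lit 6) (nat_lit 102652) (nat_lit 10) nil (node (nat_lit 5) (nat_lit
  103321) (nat_lit 10) nil nil)) (node (nat_lit 6) (nat_lit 95301) (nat_lit 9) nil nil)) (node
  (nat_lit 4) (nat_lit 94521) (nat_lit 8) (node (nat_lit 5) (nat_lit 96294) (nat_lit 9) (node
  (nat_lit 4) (nat_lit 98079) (nat_lit 10) nil (node (nat_lit 6) (nat_lit 98804) (nat_lit 10) nil
  nil)) (node (nat_lit 6) (nat_lit 94531) (nat_lit 9) nil nil)) (node (nat_lit 9) (nat_lit 102532)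
  (nat_lit 8) nil nil))) (node (nat_lit 4) (nat_lit 88612) (nat_lit 7) (node (nat_lit 6) (nat_lit
  95412) (nat_lit 8) (node (nat_lit 5) (nat_lit 100299) (nat_lit 9) (node (nat_lit 6) (nat_lit
  104308) (nat_lit 10) nil (node (nat_lit 4) (nat_lit 104308) (nat_lit 10) nil nil)) (node
  (nat_lit 4) (nat_lit 95412) (nat_lit 9) nil nil)) (node (nat_lit 5) (nat_lit 96503) (nat_lit 8)
  (node (nat_lit 6) (nat_lit 98540) (nat_lit 9) (node (nat_lit 5) (nat_lit 100486) (nat_lit 10)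
  (node (nat_lit 4) (nat_lit 100741) (nat_lit 11) nil nil) (node (nat_lit 4) (nat_lit 101050)
  (nat_lit 10) nil nil)) (node (nat_lit 4) (nat_lit 96503) (nat_lit 9) nil nil)) nil)) (node
  (nat_lit 5) (nat_lit 89847) (nat_lit 7) (node (nat_lit 6) (nat_lit 96175) (nat_lit 8) (node
  (nat_lit 4) (nat_lit 99698) (nat_lit 9) (node (nat_lit 5) (nat_lit 99421) (nat_lit 10) nil (node
  (nat_lit 6) (nat_lit 99698) (nat_lit 10) nil nil)) (node (nat_lit 5) (nat_lit 96175) (nat_lit 9)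
  nil nil)) (node (nat_lit 4) (nat_lit 95916) (nat_lit 8) (node (nat_lit 6) (nat_lit 100023)
  (nat_lit 9) (node (nat_lit 5) (nat_lit 100023) (nat_lit 10) nil (node (nat_lit 4) (nat_lit
  100023) (nat_lit 10) nil nil)) (node (nat_lit 5) (nat_lit 95916) (nat_lit 9) nil nil)) (node
  (nat_lit 9) (nat_lit 104644) (nat_lit 8) nil nil))) (node (nat_lit 0) (nat_lit 94757) (nat_lit
  7) nil nil)))) nil))) nil) nil))

noncomputable def c57 : Tr :=
  (node (nat_lit 3) (nat_lit 0) (nat_lit 1) (node (nat_lit 3) (nat_lit 0) (nat_lit 2) (node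
  (nat_lit 3) (nat_lit 0) (nat_lit 3) t469 (node (nat_lit 4) (nat_lit 0) (nat_lit 3) (node
  (nat_lit 3) (nat_lit 0) (nat_lit 4) (node (nat_lit 5) (nat_lit 0) (nat_lit 5) (node (nat_lit 7)
  (nat_lit 0) (nat_lit 6) (node (nat_lit 0) (nat_lit 0) (nat_lit 7) (node (nat_lit 4) (nat_lit 0)
  (nat_lit 8) (node (nat_lit 5) (nat_lit 74739) (nat_lit 9) (node (nat_lit 4) (nat_lit 77659)
  (nat_lit 10) (node (nat_lit 7) (nat_lit 79106) (nat_lit 11) (node (nat_lit 5) (nat_lit 79106)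
  (nat_lit 12) nil (node (nat_lit 4) (nat_lit 79106) (nat_lit 12) nil nil)) nil) (node (nat_lit 7)
  (nat_lit 75590) (nat_lit 10) (node (nat_lit 4) (nat_lit 77026) (nat_lit 11) nil (node (nat_lit
  5) (nat_lit 75546) (nat_lit 11) nil nil)) nil)) (node (nat_lit 7) (nat_lit 74442) (nat_lit 9)
  (node (nat_lit 4) (nat_lit 77718) (nat_lit 10) (node (nat_lit 5) (nat_lit 77674) (nat_lit 11)
  (node (nat_lit 7) (nat_lit 79106) (nat_lit 12) nil (node (nat_lit 4) (nat_lit 76949) (nat_lit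
  12) nil nil)) nil) (node (nat_lit 5) (nat_lit 75207) (nat_lit 10) (node (nat_lit 4) (nat_lit
  75207) (nat_lit 11) nil nil) nil)) (node (nat_lit 10) (nat_lit 79106) (nat_lit 9) nil (node
  (nat_lit 0) (nat_lit 74288) (nat_lit 9) nil nil)))) (node (nat_lit 5) (nat_lit 0) (nat_lit 8)
  (node (nat_lit 7) (nat_lit 74104) (nat_lit 9) (node (nat_lit 5) (nat_lit 77287) (nat_lit 10)
  (node (nat_lit 4) (nat_lit 77872) (nat_lit 11) (node (nat_lit 7) (nat_lit 79106) (nat_lit 12)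
  nil (node (nat_lit 5) (nat_lit 77147) (nat_lit 12) nil nil)) nil) (node (nat_lit 4) (nat_lit
  75155) (nat_lit 10) (node (nat_lit 5) (nat_lit 75155) (nat_lit 11) nil (node (nat_lit 7)
  (nat_lit 75155) (nat_lit 11) nil nil)) nil)) (node (nat_lit 4) (nat_lit 73572) (nat_lit 9) (node
  (nat_lit 7) (nat_lit 75851) (nat_lit 10) (node (nat_lit 5) (nat_lit 75851) (nat_lit 11) nil nil)
  (node (nat_lit 5) (nat_lit 75851) (nat_lit 10) (node (nat_lit 7) (nat_lit 77287) (nat_lit 11)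
  nil nil) nil)) (node (nat_lit 10) (nat_lit 79106) (nat_lit 9) nil (node (nat_lit 0) (nat_lit
  73338) (nat_lit 9) nil nil)))) (node (nat_lit 7) (nat_lit 0) (nat_lit 8) (node (nat_lit 4)
  (nat_lit 73756) (nat_lit 9) (node (nat_lit 5) (nat_lit 73756) (nat_lit 10) nil (node (nat_lit 7)
  (nat_lit 74540) (nat_lit 10) (node (nat_lit 5) (nat_lit 74496) (nat_lit 11) nil nil) nil)) (node
  (nat_lit 5) (nat_lit 73999) (nat_lit 9) (node (nat_lit 4) (nat_lit 74998) (nat_lit 10) (node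
  (nat_lit 7) (nat_lit 74836) (nat_lit 11) nil (node (nat_lit 5) (nat_lit 74998) (nat_lit 11) nil
  nil)) (node (nat_lit 7) (nat_lit 73999) (nat_lit 10) nil nil)) (node (nat_lit 0) (nat_lit 75054)
  (nat_lit 9) nil nil))) (node (nat_lit 0) (nat_lit 78397) (nat_lit 8) (node (nat_lit 10) (nat_lit
  79106) (nat_lit 9) nil nil) nil)))) (node (nat_lit 4) (nat_lit 0) (nat_lit 7) (node (nat_lit 0)
  (nat_lit 0) (nat_lit 8) (node (nat_lit 4) (nat_lit 0) (nat_lit 9) (node (nat_lit 5) (nat_lit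
  62938) (nat_lit 10) (node (nat_lit 7) (nat_lit 64519) (nat_lit 11) (node (nat_lit 4) (nat_lit
  65964) (nat_lit 12) nil (node (nat_lit 5) (nat_lit 65127) (nat_lit 12) (node (nat_lit 4)
  (nat_lit 64327) (nat_lit 13) nil nil) nil)) (node (nat_lit 4) (nat_lit 65678) (nat_lit 11) (node
  (nat_lit 7) (nat_lit 66488) (nat_lit 12) (node (nat_lit 5) (nat_lit 65688) (nat_lit 13) nil nil)
  (node (nat_lit 11) (nat_lit 71484) (nat_lit 12) nil nil)) (node (nat_lit 11) (nat_lit 70490)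
  (nat_lit 11) nil (node (nat_lit 0) (nat_lit 72044) (nat_lit 11) nil nil)))) (node (nat_lit 7)
  (nat_lit 62731) (nat_lit 10) (node (nat_lit 5) (nat_lit 65822) (nat_lit 11) (node (nat_lit 4)
  (nat_lit 67140) (nat_lit 12) (node (nat_lit 5) (nat_lit 67467) (nat_lit 13) nil (node (nat_lit
  7) (nat_lit 67936) (nat_lit 13) nil nil)) (node (nat_lit 7) (nat_lit 67268) (nat_lit 12) nil
  nil)) (node (nat_lit 4) (nat_lit 65285) (nat_lit 11) (node (nat_lit 5) (nat_lit 66328) (nat_lit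
  12) nil (node (nat_lit 11) (nat_lit 71091) (nat_lit 12) nil nil)) (node (nat_lit 11) (nat_lit
  71837) (nat_lit 11) nil (node (nat_lit 0) (nat_lit 67591) (nat_lit 11) nil nil)))) (node
  (nat_lit 0) (nat_lit 70260) (nat_lit 10) nil nil))) (node (nat_lit 7) (nat_lit 60550) (nat_lit
  9) (node (nat_lit 11) (nat_lit 70175) (nat_lit 10) (node (nat_lit 4) (nat_lit 70175) (nat_lit
  11) nil nil) (node (nat_lit 4) (nat_lit 62642) (nat_lit 10) (node (nat_lit 7) (nat_lit 62642)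
  (nat_lit 11) nil nil) (node (nat_lit 5) (nat_lit 60550) (nat_lit 10) nil nil))) (node (nat_lit
  0) (nat_lit 66119) (nat_lit 9) (node (nat_lit 4) (nat_lit 66119) (nat_lit 10) nil nil) (node
  (nat_lit 5) (nat_lit 61070) (nat_lit 9) (node (nat_lit 11) (nat_lit 64764) (nat_lit 10) nil
  (node (nat_lit 4) (nat_lit 61070) (nat_lit 10) nil nil)) nil)))) (node (nat_lit 7) (nat_lit 0)
  (nat_lit 8) (node (nat_lit 0) (nat_lit 64420) (nat_lit 9) (node (nat_lit 4) (nat_lit 64956)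
  (nat_lit 10) (node (nat_lit 7) (nat_lit 64956) (nat_lit 11) (node (nat_lit 4) (nat_lit 64956)
  (nat_lit 12) (node (nat_lit 12) (nat_lit 67344) (nat_lit 13) nil nil) (node (nat_lit 5) (nat_lit
  64956) (nat_lit 12) nil nil)) nil) (node (nat_lit 7) (nat_lit 64420) (nat_lit 10) nil nil)) nil)
  (node (nat_lit 5) (nat_lit 0) (nat_lit 8) (node (nat_lit 0) (nat_lit 58284) (nat_lit 9) (node
  (nat_lit 4) (nat_lit 58582) (nat_lit 10) (node (nat_lit 5) (nat_lit 58547) (nat_lit 11) (node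
  (nat_lit 4) (nat_lit 58547) (nat_lit 12) nil (node (nat_lit 7) (nat_lit 58547) (nat_lit 12) nil
  nil)) nil) nil) nil) nil))) nil)) (node (nat_lit 0) (nat_lit 0) (nat_lit 6) (node (nat_lit 4)
  (nat_lit 73167) (nat_lit 7) (node (nat_lit 7) (nat_lit 76841) (nat_lit 8) (node (nat_lit 5)
  (nat_lit 79106) (nat_lit 9) (node (nat_lit 4) (nat_lit 79106) (nat_lit 10) nil (node (nat_lit 7)
  (nat_lit 79106) (nat_lit 10) nil nil)) (node (nat_lit 4) (nat_lit 78276) (nat_lit 9) nil nil))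
  (node (nat_lit 5) (nat_lit 77226) (nat_lit 8) (node (nat_lit 7) (nat_lit 77863) (nat_lit 9)
  (node (nat_lit 5) (nat_lit 77863) (nat_lit 10) nil nil) (node (nat_lit 4) (nat_lit 77181)
  (nat_lit 9) nil nil)) (node (nat_lit 9) (nat_lit 76492) (nat_lit 8) nil nil))) (node (nat_lit 7)
  (nat_lit 73126) (nat_lit 7) (node (nat_lit 4) (nat_lit 77637) (nat_lit 8) (node (nat_lit 5)
  (nat_lit 79106) (nat_lit 9) (node (nat_lit 4) (nat_lit 79106) (nat_lit 10) (node (nat_lit 7)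
  (nat_lit 79106) (nat_lit 11) (node (nat_lit 5) (nat_lit 79106) (nat_lit 12) nil nil) nil) (node
  (nat_lit 7) (nat_lit 79106) (nat_lit 10) nil nil)) (node (nat_lit 7) (nat_lit 77637) (nat_lit 9)
  nil nil)) (node (nat_lit 5) (nat_lit 77745) (nat_lit 8) (node (nat_lit 4) (nat_lit 77701)
  (nat_lit 9) nil (node (nat_lit 7) (nat_lit 77745) (nat_lit 9) nil nil)) (node (nat_lit 9)
  (nat_lit 79106) (nat_lit 8) nil nil))) (node (nat_lit 5) (nat_lit 73555) (nat_lit 7) (node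
  (nat_lit 7) (nat_lit 77183) (nat_lit 8) (node (nat_lit 4) (nat_lit 76341) (nat_lit 9) (node
  (nat_lit 7) (nat_lit 76683) (nat_lit 10) nil (node (nat_lit 5) (nat_lit 76788) (nat_lit 10) nil
  nil)) (node (nat_lit 5) (nat_lit 77183) (nat_lit 9) nil nil)) (node (nat_lit 4) (nat_lit 76883)
  (nat_lit 8) (node (nat_lit 7) (nat_lit 79106) (nat_lit 9) (node (nat_lit 4) (nat_lit 79106)
  (nat_lit 10) nil (node (nat_lit 5) (nat_lit 79106) (nat_lit 10) nil nil)) (node (nat_lit 5)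
  (nat_lit 76883) (nat_lit 9) nil nil)) nil)) (node (nat_lit 0) (nat_lit 77237) (nat_lit 7) nil
  nil)))) (node (nat_lit 4) (nat_lit 0) (nat_lit 6) (node (nat_lit 0) (nat_lit 0) (nat_lit 7)
  (node (nat_lit 7) (nat_lit 75223) (nat_lit 8) (node (nat_lit 4) (nat_lit 75223) (nat_lit 9)
  (node (nat_lit 7) (nat_lit 75223) (nat_lit 10) nil (node (nat_lit 10) (nat_lit 77846) (nat_lit
  10) nil nil)) (node (nat_lit 10) (nat_lit 79106) (nat_lit 9) (node (nat_lit 4) (nat_lit 79106)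
  (nat_lit 10) nil nil) (node (nat_lit 5) (nat_lit 75223) (nat_lit 9) nil nil))) (node (nat_lit 5)
  (nat_lit 77498) (nat_lit 8) (node (nat_lit 7) (nat_lit 77498) (nat_lit 9) nil (node (nat_lit 4)
  (nat_lit 77498) (nat_lit 9) (node (nat_lit 5) (nat_lit 77498) (nat_lit 10) nil nil) (node
  (nat_lit 10) (nat_lit 79106) (nat_lit 9) (node (nat_lit 4) (nat_lit 79106) (nat_lit 10) nil nil)
  nil))) (node (nat_lit 4) (nat_lit 77425) (nat_lit 8) (node (nat_lit 5) (nat_lit 77425) (nat_lit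
  9) (node (nat_lit 4) (nat_lit 77425) (nat_lit 10) nil (node (nat_lit 7) (nat_lit 77425) (nat_lit
  10) nil nil)) (node (nat_lit 7) (nat_lit 77425) (nat_lit 9) (node (nat_lit 5) (nat_lit 77425)
  (nat_lit 10) nil nil) nil)) (node (nat_lit 0) (nat_lit 79106) (nat_lit 8) nil nil)))) (node
  (nat_lit 5) (nat_lit 0) (nat_lit 7) (node (nat_lit 0) (nat_lit 0) (nat_lit 8) (node (nat_lit 5)
  (nat_lit 0) (nat_lit 9) (node (nat_lit 7) (nat_lit 79106) (nat_lit 10) nil (node (nat_lit 4)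
  (nat_lit 79106) (nat_lit 10) nil (node (nat_lit 0) (nat_lit 79106) (nat_lit 10) nil nil))) (node
  (nat_lit 4) (nat_lit 79106) (nat_lit 9) (node (nat_lit 11) (nat_lit 79106) (nat_lit 10) nil nil)
  (node (nat_lit 0) (nat_lit 79106) (nat_lit 9) nil (node (nat_lit 7) (nat_lit 79106) (nat_lit 9)
  nil nil)))) (node (nat_lit 7) (nat_lit 0) (nat_lit 8) (node (nat_lit 0) (nat_lit 79106) (nat_lit
  9) (node (nat_lit 5) (nat_lit 79106) (nat_lit 10) nil nil) nil) nil)) nil)) nil))) (node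
  (nat_lit 4) (nat_lit 0) (nat_lit 5) (node (nat_lit 5) (nat_lit 0) (nat_lit 6) (node (nat_lit 0)
  (nat_lit 0) (nat_lit 7) (node (nat_lit 7) (nat_lit 0) (nat_lit 8) (node (nat_lit 5) (nat_lit
  72085) (nat_lit 9) (node (nat_lit 7) (nat_lit 72085) (nat_lit 10) nil (node (nat_lit 4) (nat_lit
  72085) (nat_lit 10) nil nil)) (node (nat_lit 4) (nat_lit 73192) (nat_lit 9) (node (nat_lit 7)
  (nat_lit 73192) (nat_lit 10) (node (nat_lit 5) (nat_lit 73192) (nat_lit 11) nil nil) (node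
  (nat_lit 5) (nat_lit 73192) (nat_lit 10) nil nil)) (node (nat_lit 10) (nat_lit 74381) (nat_lit
  9) nil (node (nat_lit 0) (nat_lit 74381) (nat_lit 9) nil nil)))) (node (nat_lit 4) (nat_lit 0)
  (nat_lit 8) (node (nat_lit 5) (nat_lit 70607) (nat_lit 9) (node (nat_lit 4) (nat_lit 70770)
  (nat_lit 10) (node (nat_lit 7) (nat_lit 69981) (nat_lit 11) nil nil) (node (nat_lit 7) (nat_lit
  70607) (nat_lit 10) nil nil)) (node (nat_lit 7) (nat_lit 71155) (nat_lit 9) (node (nat_lit 5)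
  (nat_lit 71155) (nat_lit 10) nil nil) (node (nat_lit 10) (nat_lit 74595) (nat_lit 9) nil (node
  (nat_lit 0) (nat_lit 73451) (nat_lit 9) nil nil)))) (node (nat_lit 5) (nat_lit 0) (nat_lit 8)
  (node (nat_lit 4) (nat_lit 72626) (nat_lit 9) (node (nat_lit 5) (nat_lit 72626) (nat_lit 10) nil
  nil) (node (nat_lit 7) (nat_lit 71476) (nat_lit 9) (node (nat_lit 4) (nat_lit 71476) (nat_lit
  10) nil (node (nat_lit 5) (nat_lit 71476) (nat_lit 10) nil nil)) (node (nat_lit 0) (nat_lit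
  73772) (nat_lit 9) nil nil))) (node (nat_lit 0) (nat_lit 74692) (nat_lit 8) nil nil)))) (node
  (nat_lit 7) (nat_lit 0) (nat_lit 7) (node (nat_lit 0) (nat_lit 0) (nat_lit 8) (node (nat_lit 7)
  (nat_lit 74692) (nat_lit 9) (node (nat_lit 5) (nat_lit 74692) (nat_lit 10) (node (nat_lit 4)
  (nat_lit 74692) (nat_lit 11) nil (node (nat_lit 7) (nat_lit 74692) (nat_lit 11) nil nil)) (node
  (nat_lit 4) (nat_lit 74692) (nat_lit 10) (node (nat_lit 7) (nat_lit 74692) (nat_lit 11) nil nil)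
  nil)) (node (nat_lit 5) (nat_lit 74692) (nat_lit 9) (node (nat_lit 11) (nat_lit 75815) (nat_lit
  10) nil nil) (node (nat_lit 0) (nat_lit 75488) (nat_lit 9) nil (node (nat_lit 4) (nat_lit 74692)
  (nat_lit 9) nil nil)))) (node (nat_lit 5) (nat_lit 0) (nat_lit 8) (node (nat_lit 0) (nat_lit
  73465) (nat_lit 9) (node (nat_lit 7) (nat_lit 73465) (nat_lit 10) (node (nat_lit 5) (nat_lit
  73465) (nat_lit 11) nil nil) nil) nil) (node (nat_lit 4) (nat_lit 0) (nat_lit 8) (node (nat_lit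
  0) (nat_lit 73465) (nat_lit 9) (node (nat_lit 7) (nat_lit 73465) (nat_lit 10) nil nil) nil)
  nil))) nil)) (node (nat_lit 0) (nat_lit 0) (nat_lit 6) (node (nat_lit 7) (nat_lit 67178)
  (nat_lit 7) (node (nat_lit 4) (nat_lit 67178) (nat_lit 8) (node (nat_lit 5) (nat_lit 67178)
  (nat_lit 9) (node (nat_lit 4) (nat_lit 67178) (nat_lit 10) (node (nat_lit 7) (nat_lit 69004)
  (nat_lit 11) (node (nat_lit 4) (nat_lit 70503) (nat_lit 12) nil nil) nil) nil) nil) (node
  (nat_lit 5) (nat_lit 67178) (nat_lit 8) (node (nat_lit 4) (nat_lit 67178) (nat_lit 9) nil nil)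
  nil)) (node (nat_lit 4) (nat_lit 67405) (nat_lit 7) (node (nat_lit 7) (nat_lit 67405) (nat_lit
  8) (node (nat_lit 5) (nat_lit 67405) (nat_lit 9) (node (nat_lit 4) (nat_lit 67405) (nat_lit 10)
  nil (node (nat_lit 7) (nat_lit 67405) (nat_lit 10) nil nil)) nil) (node (nat_lit 5) (nat_lit
  67405) (nat_lit 8) (node (nat_lit 7) (nat_lit 67405) (nat_lit 9) nil nil) nil)) (node (nat_lit
  5) (nat_lit 67446) (nat_lit 7) (node (nat_lit 4) (nat_lit 67446) (nat_lit 8) (node (nat_lit 7)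
  (nat_lit 67446) (nat_lit 9) nil nil) (node (nat_lit 7) (nat_lit 67446) (nat_lit 8) (node
  (nat_lit 4) (nat_lit 67446) (nat_lit 9) nil nil) (node (nat_lit 9) (nat_lit 70771) (nat_lit 8)
  nil nil))) (node (nat_lit 0) (nat_lit 67655) (nat_lit 7) nil nil)))) nil)) nil)) nil) nil)) nil)
  nil)

noncomputable def t470 : Tr :=
  (node (nat_lit 4) (nat_lit 0) (nat_lit 4) (node (nat_lit 6) (nat_lit 0) (nat_lit 5) (node
  (nat_lit 5) (nat_lit 0) (nat_lit 6) (node (nat_lit 6) (nat_lit 0) (nat_lit 7) (node (nat_lit 0)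
  (nat_lit 0) (nat_lit 8) (node (nat_lit 4) (nat_lit 89760) (nat_lit 9) (node (nat_lit 6) (nat_lit
  94993) (nat_lit 10) (node (nat_lit 4) (nat_lit 97460) (nat_lit 11) (node (nat_lit 5) (nat_lit
  97993) (nat_lit 12) nil nil) (node (nat_lit 5) (nat_lit 99336) (nat_lit 11) (node (nat_lit 4)
  (nat_lit 99096) (nat_lit 12) nil nil) (node (nat_lit 11) (nat_lit 104052) (nat_lit 11) nil
  nil))) (node (nat_lit 5) (nat_lit 94761) (nat_lit 10) (node (nat_lit 4) (nat_lit 97576) (nat_lit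
  11) (node (nat_lit 6) (nat_lit 103055) (nat_lit 12) (node (nat_lit 5) (nat_lit 104568) (nat_lit
  13) nil nil) nil) (node (nat_lit 6) (nat_lit 98056) (nat_lit 11) (node (nat_lit 4) (nat_lit
  100179) (nat_lit 12) nil (node (nat_lit 5) (nat_lit 100179) (nat_lit 12) nil nil)) nil)) (node
  (nat_lit 11) (nat_lit 103413) (nat_lit 10) (node (nat_lit 6) (nat_lit 103413) (nat_lit 11) nil
  (node (nat_lit 5) (nat_lit 103413) (nat_lit 11) nil nil)) nil))) (node (nat_lit 5) (nat_lit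
  90608) (nat_lit 9) (node (nat_lit 6) (nat_lit 96121) (nat_lit 10) (node (nat_lit 5) (nat_lit
  101445) (nat_lit 11) (node (nat_lit 4) (nat_lit 105268) (nat_lit 12) (node (nat_lit 6) (nat_lit
  106763) (nat_lit 13) (node (nat_lit 4) (nat_lit 108023) (nat_lit 14) nil nil) nil) nil) (node
  (nat_lit 4) (nat_lit 99072) (nat_lit 11) nil nil)) (node (nat_lit 4) (nat_lit 95727) (nat_lit
  10) (node (nat_lit 5) (nat_lit 98207) (nat_lit 11) (node (nat_lit 6) (nat_lit 99103) (nat_lit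
  12) nil nil) (node (nat_lit 6) (nat_lit 100750) (nat_lit 11) (node (nat_lit 5) (nat_lit 102873)
  (nat_lit 12) nil nil) nil)) (node (nat_lit 11) (nat_lit 104582) (nat_lit 10) (node (nat_lit 6)
  (nat_lit 104582) (nat_lit 11) nil (node (nat_lit 4) (nat_lit 104582) (nat_lit 11) nil nil))
  nil))) (node (nat_lit 6) (nat_lit 0) (nat_lit 9) (node (nat_lit 4) (nat_lit 95396) (nat_lit 10)
  (node (nat_lit 6) (nat_lit 95396) (nat_lit 11) nil (node (nat_lit 5) (nat_lit 95396) (nat_lit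
  11) nil nil)) (node (nat_lit 5) (nat_lit 96032) (nat_lit 10) (node (nat_lit 4) (nat_lit 96032)
  (nat_lit 11) nil (node (nat_lit 6) (nat_lit 96032) (nat_lit 11) nil nil)) (node (nat_lit 0)
  (nat_lit 93384) (nat_lit 10) nil nil))) (node (nat_lit 0) (nat_lit 96821) (nat_lit 9) (node
  (nat_lit 11) (nat_lit 100740) (nat_lit 10) nil (node (nat_lit 6) (nat_lit 96821) (nat_lit 10)
  nil nil)) nil)))) (node (nat_lit 4) (nat_lit 0) (nat_lit 8) (node (nat_lit 0) (nat_lit 0)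
  (nat_lit 9) (node (nat_lit 4) (nat_lit 0) (nat_lit 10) (node (nat_lit 6) (nat_lit 98761)
  (nat_lit 11) (node (nat_lit 5) (nat_lit 101565) (nat_lit 12) (node (nat_lit 4) (nat_lit 102212)
  (nat_lit 13) nil (node (nat_lit 6) (nat_lit 103701) (nat_lit 13) nil nil)) (node (nat_lit 4)
  (nat_lit 100253) (nat_lit 12) nil (node (nat_lit 12) (nat_lit 103862) (nat_lit 12) nil (node
  (nat_lit 0) (nat_lit 103862) (nat_lit 12) nil nil)))) (node (nat_lit 5) (nat_lit 98529) (nat_lit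
  11) (node (nat_lit 6) (nat_lit 100798) (nat_lit 12) (node (nat_lit 4) (nat_lit 102934) (nat_lit
  13) nil (node (nat_lit 5) (nat_lit 102934) (nat_lit 13) nil nil)) (node (nat_lit 4) (nat_lit
  100093) (nat_lit 12) (node (nat_lit 6) (nat_lit 101085) (nat_lit 13) nil nil) (node (nat_lit 12)
  (nat_lit 103631) (nat_lit 12) nil (node (nat_lit 0) (nat_lit 103631) (nat_lit 12) nil nil))))
  (node (nat_lit 0) (nat_lit 103969) (nat_lit 11) nil nil))) (node (nat_lit 6) (nat_lit 95891)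
  (nat_lit 10) (node (nat_lit 12) (nat_lit 105037) (nat_lit 11) nil (node (nat_lit 4) (nat_lit
  98939) (nat_lit 11) nil nil)) (node (nat_lit 5) (nat_lit 96154) (nat_lit 10) nil (node (nat_lit
  0) (nat_lit 101033) (nat_lit 10) nil nil)))) (node (nat_lit 5) (nat_lit 0) (nat_lit 9) (node
  (nat_lit 0) (nat_lit 101358) (nat_lit 10) (node (nat_lit 4) (nat_lit 102422) (nat_lit 11) (node
  (nat_lit 5) (nat_lit 102422) (nat_lit 12) nil nil) nil) nil) nil)) nil)) (node (nat_lit 4)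
  (nat_lit 0) (nat_lit 7) (node (nat_lit 0) (nat_lit 0) (nat_lit 8) (node (nat_lit 6) (nat_lit
  80106) (nat_lit 9) (node (nat_lit 4) (nat_lit 84169) (nat_lit 10) (node (nat_lit 6) (nat_lit
  87026) (nat_lit 11) (node (nat_lit 5) (nat_lit 89149) (nat_lit 12) nil nil) (node (nat_lit 5)
  (nat_lit 82247) (nat_lit 11) nil nil)) (node (nat_lit 5) (nat_lit 84699) (nat_lit 10) (node
  (nat_lit 4) (nat_lit 87002) (nat_lit 11) nil (node (nat_lit 6) (nat_lit 86880) (nat_lit 11) nil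
  nil)) (node (nat_lit 11) (nat_lit 89994) (nat_lit 10) nil nil))) (node (nat_lit 5) (nat_lit
  80135) (nat_lit 9) (node (nat_lit 4) (nat_lit 84366) (nat_lit 10) (node (nat_lit 5) (nat_lit
  89163) (nat_lit 11) (node (nat_lit 6) (nat_lit 90799) (nat_lit 12) nil nil) (node (nat_lit 6)
  (nat_lit 85599) (nat_lit 11) nil nil)) (node (nat_lit 6) (nat_lit 82528) (nat_lit 10) (node
  (nat_lit 5) (nat_lit 82816) (nat_lit 11) nil (node (nat_lit 4) (nat_lit 82500) (nat_lit 11) nil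
  nil)) (node (nat_lit 11) (nat_lit 91173) (nat_lit 10) nil nil))) (node (nat_lit 4) (nat_lit 0)
  (nat_lit 9) (node (nat_lit 5) (nat_lit 83321) (nat_lit 10) nil (node (nat_lit 6) (nat_lit 83553)
  (nat_lit 10) nil (node (nat_lit 0) (nat_lit 82133) (nat_lit 10) nil nil))) (node (nat_lit 0)
  (nat_lit 86330) (nat_lit 9) nil nil)))) (node (nat_lit 6) (nat_lit 0) (nat_lit 8) (node (nat_lit
  0) (nat_lit 81755) (nat_lit 9) (node (nat_lit 6) (nat_lit 0) (nat_lit 10) (node (nat_lit 4)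
  (nat_lit 83651) (nat_lit 11) (node (nat_lit 12) (nat_lit 88753) (nat_lit 12) nil nil) (node
  (nat_lit 5) (nat_lit 86205) (nat_lit 11) nil (node (nat_lit 0) (nat_lit 87955) (nat_lit 11) nil
  nil))) (node (nat_lit 4) (nat_lit 82853) (nat_lit 10) nil nil)) (node (nat_lit 4) (nat_lit 0)
  (nat_lit 9) (node (nat_lit 0) (nat_lit 88507) (nat_lit 10) (node (nat_lit 6) (nat_lit 88507)
  (nat_lit 11) nil nil) nil) nil)) (node (nat_lit 5) (nat_lit 0) (nat_lit 8) (node (nat_lit 0)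
  (nat_lit 0) (nat_lit 9) (node (nat_lit 5) (nat_lit 0) (nat_lit 10) (node (nat_lit 6) (nat_lit
  86099) (nat_lit 11) (node (nat_lit 4) (nat_lit 86099) (nat_lit 12) nil (node (nat_lit 5)
  (nat_lit 86099) (nat_lit 12) nil nil)) (node (nat_lit 4) (nat_lit 85161) (nat_lit 11) (node
  (nat_lit 6) (nat_lit 85161) (nat_lit 12) nil nil) (node (nat_lit 0) (nat_lit 88090) (nat_lit 11)
  nil nil))) (node (nat_lit 4) (nat_lit 84070) (nat_lit 10) (node (nat_lit 12) (nat_lit 87871)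
  (nat_lit 11) nil nil) (node (nat_lit 6) (nat_lit 82673) (nat_lit 10) nil (node (nat_lit 0)
  (nat_lit 84809) (nat_lit 10) nil nil)))) (node (nat_lit 6) (nat_lit 0) (nat_lit 9) (node
  (nat_lit 0) (nat_lit 81025) (nat_lit 10) (node (nat_lit 5) (nat_lit 81025) (nat_lit 11) nil nil)
  nil) nil)) nil))) (node (nat_lit 0) (nat_lit 0) (nat_lit 7) (node (nat_lit 6) (nat_lit 82311)
  (nat_lit 8) (node (nat_lit 4) (nat_lit 88203) (nat_lit 9) (node (nat_lit 5) (nat_lit 92347)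
  (nat_lit 10) (node (nat_lit 6) (nat_lit 93009) (nat_lit 11) nil nil) (node (nat_lit 6) (nat_lit
  88203) (nat_lit 10) nil nil)) (node (nat_lit 5) (nat_lit 89194) (nat_lit 9) (node (nat_lit 4)
  (nat_lit 92407) (nat_lit 10) nil (node (nat_lit 6) (nat_lit 89194) (nat_lit 10) nil nil)) (node
  (nat_lit 10) (nat_lit 95654) (nat_lit 9) nil nil))) (node (nat_lit 5) (nat_lit 82297) (nat_lit
  8) (node (nat_lit 6) (nat_lit 89376) (nat_lit 9) (node (nat_lit 4) (nat_lit 91304) (nat_lit 10)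
  (node (nat_lit 6) (nat_lit 91965) (nat_lit 11) nil (node (nat_lit 5) (nat_lit 95014) (nat_lit
  11) nil nil)) (node (nat_lit 5) (nat_lit 89376) (nat_lit 10) nil nil)) (node (nat_lit 4)
  (nat_lit 88589) (nat_lit 9) (node (nat_lit 6) (nat_lit 93886) (nat_lit 10) (node (nat_lit 5)
  (nat_lit 97596) (nat_lit 11) nil (node (nat_lit 4) (nat_lit 97596) (nat_lit 11) nil nil)) (node
  (nat_lit 5) (nat_lit 88589) (nat_lit 10) nil nil)) nil)) (node (nat_lit 4) (nat_lit 81276)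
  (nat_lit 8) (node (nat_lit 6) (nat_lit 87996) (nat_lit 9) (node (nat_lit 5) (nat_lit 93292)
  (nat_lit 10) (node (nat_lit 4) (nat_lit 93796) (nat_lit 11) nil (node (nat_lit 6) (nat_lit
  97002) (nat_lit 11) nil nil)) (node (nat_lit 4) (nat_lit 89174) (nat_lit 10) nil nil)) (node
  (nat_lit 5) (nat_lit 88113) (nat_lit 9) (node (nat_lit 6) (nat_lit 90767) (nat_lit 10) (node
  (nat_lit 5) (nat_lit 94477) (nat_lit 11) nil (node (nat_lit 4) (nat_lit 94477) (nat_lit 11) nil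
  nil)) (node (nat_lit 4) (nat_lit 86933) (nat_lit 10) nil nil)) (node (nat_lit 10) (nat_lit
  90117) (nat_lit 9) nil nil))) (node (nat_lit 0) (nat_lit 83376) (nat_lit 8) nil nil)))) nil)))
  nil) (node (nat_lit 5) (nat_lit 0) (nat_lit 5) (node (nat_lit 4) (nat_lit 0) (nat_lit 6) (node
  (nat_lit 6) (nat_lit 0) (nat_lit 7) (node (nat_lit 4) (nat_lit 0) (nat_lit 8) (node (nat_lit 0)
  (nat_lit 0) (nat_lit 9) (node (nat_lit 4) (nat_lit 0) (nat_lit 10) (node (nat_lit 5) (nat_lit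
  60268) (nat_lit 11) (node (nat_lit 6) (nat_lit 63399) (nat_lit 12) (node (nat_lit 4) (nat_lit
  64485) (nat_lit 13) (node (nat_lit 6) (nat_lit 63732) (nat_lit 14) nil nil) (node (nat_lit 5)
  (nat_lit 64485) (nat_lit 13) (node (nat_lit 4) (nat_lit 64485) (nat_lit 14) nil nil) nil)) (node
  (nat_lit 4) (nat_lit 63221) (nat_lit 12) (node (nat_lit 6) (nat_lit 64299) (nat_lit 13) (node
  (nat_lit 5) (nat_lit 64485) (nat_lit 14) nil (node (nat_lit 4) (nat_lit 64485) (nat_lit 14) nil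
  nil)) nil) (node (nat_lit 0) (nat_lit 64485) (nat_lit 12) nil (node (nat_lit 12) (nat_lit 64485)
  (nat_lit 12) nil nil)))) (node (nat_lit 6) (nat_lit 59526) (nat_lit 11) (node (nat_lit 5)
  (nat_lit 63287) (nat_lit 12) (node (nat_lit 4) (nat_lit 64485) (nat_lit 13) (node (nat_lit 5)
  (nat_lit 64485) (nat_lit 14) nil nil) (node (nat_lit 6) (nat_lit 64485) (nat_lit 13) (node
  (nat_lit 4) (nat_lit 64485) (nat_lit 14) nil nil) nil)) (node (nat_lit 4) (nat_lit 61851)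
  (nat_lit 12) (node (nat_lit 5) (nat_lit 62433) (nat_lit 13) (node (nat_lit 6) (nat_lit 61654)
  (nat_lit 14) nil (node (nat_lit 4) (nat_lit 63174) (nat_lit 14) nil nil)) nil) (node (nat_lit
  12) (nat_lit 64088) (nat_lit 12) nil (node (nat_lit 0) (nat_lit 61792) (nat_lit 12) nil nil))))
  (node (nat_lit 0) (nat_lit 63879) (nat_lit 11) (node (nat_lit 4) (nat_lit 63879) (nat_lit 12)
  nil (node (nat_lit 12) (nat_lit 64456) (nat_lit 12) nil nil)) nil))) (node (nat_lit 6) (nat_lit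
  57012) (nat_lit 10) (node (nat_lit 12) (nat_lit 63974) (nat_lit 11) (node (nat_lit 4) (nat_lit
  63974) (nat_lit 12) nil nil) (node (nat_lit 4) (nat_lit 59847) (nat_lit 11) (node (nat_lit 6)
  (nat_lit 62798) (nat_lit 12) (node (nat_lit 12) (nat_lit 64485) (nat_lit 13) nil nil) nil) (node
  (nat_lit 5) (nat_lit 60150) (nat_lit 11) nil nil))) (node (nat_lit 5) (nat_lit 57702) (nat_lit
  10) (node (nat_lit 4) (nat_lit 60584) (nat_lit 11) (node (nat_lit 5) (nat_lit 60584) (nat_lit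
  12) nil nil) (node (nat_lit 12) (nat_lit 64485) (nat_lit 11) nil nil)) (node (nat_lit 0)
  (nat_lit 60092) (nat_lit 10) (node (nat_lit 4) (nat_lit 60527) (nat_lit 11) (node (nat_lit 12)
  (nat_lit 61845) (nat_lit 12) nil nil) (node (nat_lit 12) (nat_lit 60832) (nat_lit 11) nil nil))
  nil)))) (node (nat_lit 5) (nat_lit 0) (nat_lit 9) (node (nat_lit 0) (nat_lit 60896) (nat_lit 10)
  (node (nat_lit 4) (nat_lit 62578) (nat_lit 11) (node (nat_lit 5) (nat_lit 64485) (nat_lit 12)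
  (node (nat_lit 4) (nat_lit 64485) (nat_lit 13) (node (nat_lit 6) (nat_lit 64485) (nat_lit 14)
  nil nil) (node (nat_lit 6) (nat_lit 64485) (nat_lit 13) (node (nat_lit 4) (nat_lit 64485)
  (nat_lit 14) nil (node (nat_lit 5) (nat_lit 64485) (nat_lit 14) nil nil)) nil)) nil) (node
  (nat_lit 5) (nat_lit 60896) (nat_lit 11) nil nil)) nil) nil)) (node (nat_lit 0) (nat_lit 0)
  (nat_lit 8) (node (nat_lit 5) (nat_lit 53275) (nat_lit 9) (node (nat_lit 6) (nat_lit 56862)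
  (nat_lit 10) (node (nat_lit 5) (nat_lit 59396) (nat_lit 11) (node (nat_lit 4) (nat_lit 60324)
  (nat_lit 12) nil nil) (node (nat_lit 4) (nat_lit 55988) (nat_lit 11) nil nil)) (node (nat_lit 4)
  (nat_lit 56297) (nat_lit 10) (node (nat_lit 5) (nat_lit 57078) (nat_lit 11) (node (nat_lit 6)
  (nat_lit 55818) (nat_lit 12) nil nil) (node (nat_lit 6) (nat_lit 58830) (nat_lit 11) nil nil))
  (node (nat_lit 11) (nat_lit 56817) (nat_lit 10) nil nil))) (node (nat_lit 4) (nat_lit 52807)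
  (nat_lit 9) (node (nat_lit 6) (nat_lit 56395) (nat_lit 10) (node (nat_lit 4) (nat_lit 58892)
  (nat_lit 11) (node (nat_lit 5) (nat_lit 59787) (nat_lit 12) (node (nat_lit 6) (nat_lit 58446)
  (nat_lit 13) nil nil) nil) (node (nat_lit 5) (nat_lit 58929) (nat_lit 11) nil nil)) (node
  (nat_lit 5) (nat_lit 55564) (nat_lit 10) (node (nat_lit 6) (nat_lit 56704) (nat_lit 11) nil
  (node (nat_lit 4) (nat_lit 54588) (nat_lit 11) nil nil)) (node (nat_lit 11) (nat_lit 59315)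
  (nat_lit 10) nil nil))) (node (nat_lit 6) (nat_lit 0) (nat_lit 9) (node (nat_lit 4) (nat_lit
  55965) (nat_lit 10) (node (nat_lit 6) (nat_lit 57198) (nat_lit 11) nil (node (nat_lit 5)
  (nat_lit 55965) (nat_lit 11) nil nil)) (node (nat_lit 5) (nat_lit 56987) (nat_lit 10) (node
  (nat_lit 6) (nat_lit 56987) (nat_lit 11) nil (node (nat_lit 4) (nat_lit 56987) (nat_lit 11) nil
  nil)) (node (nat_lit 0) (nat_lit 54218) (nat_lit 10) nil nil))) (node (nat_lit 0) (nat_lit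
  55860) (nat_lit 9) nil nil)))) (node (nat_lit 5) (nat_lit 0) (nat_lit 8) (node (nat_lit 0)
  (nat_lit 55339) (nat_lit 9) (node (nat_lit 5) (nat_lit 0) (nat_lit 10) (node (nat_lit 4)
  (nat_lit 58674) (nat_lit 11) (node (nat_lit 5) (nat_lit 58674) (nat_lit 12) nil (node (nat_lit
  6) (nat_lit 58674) (nat_lit 12) nil nil)) (node (nat_lit 6) (nat_lit 57658) (nat_lit 11) (node
  (nat_lit 4) (nat_lit 57658) (nat_lit 12) nil (node (nat_lit 5) (nat_lit 57658) (nat_lit 12) nil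
  (node (nat_lit 12) (nat_lit 59924) (nat_lit 12) nil nil))) (node (nat_lit 0) (nat_lit 58993)
  (nat_lit 11) nil nil))) (node (nat_lit 6) (nat_lit 56956) (nat_lit 10) (node (nat_lit 12)
  (nat_lit 58645) (nat_lit 11) nil nil) (node (nat_lit 0) (nat_lit 56287) (nat_lit 10) nil nil)))
  (node (nat_lit 4) (nat_lit 0) (nat_lit 9) (node (nat_lit 0) (nat_lit 47910) (nat_lit 10) (node
  (nat_lit 5) (nat_lit 48978) (nat_lit 11) nil nil) nil) (node (nat_lit 6) (nat_lit 0) (nat_lit 9)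
  (node (nat_lit 0) (nat_lit 60560) (nat_lit 10) (node (nat_lit 5) (nat_lit 60319) (nat_lit 11)
  nil nil) nil) nil))) nil))) (node (nat_lit 0) (nat_lit 43932) (nat_lit 7) (node (nat_lit 4)
  (nat_lit 47609) (nat_lit 8) (node (nat_lit 5) (nat_lit 47609) (nat_lit 9) (node (nat_lit 6)
  (nat_lit 47609) (nat_lit 10) nil nil) (node (nat_lit 6) (nat_lit 47609) (nat_lit 9) nil nil))
  (node (nat_lit 5) (nat_lit 48000) (nat_lit 8) (node (nat_lit 4) (nat_lit 48000) (nat_lit 9) nil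
  (node (nat_lit 6) (nat_lit 48000) (nat_lit 9) (node (nat_lit 4) (nat_lit 48000) (nat_lit 10) nil
  nil) nil)) (node (nat_lit 6) (nat_lit 48173) (nat_lit 8) (node (nat_lit 4) (nat_lit 48173)
  (nat_lit 9) (node (nat_lit 5) (nat_lit 48173) (nat_lit 10) nil nil) (node (nat_lit 5) (nat_lit
  48173) (nat_lit 9) nil nil)) nil))) nil)) nil) nil)) (node (nat_lit 5) (nat_lit 0) (nat_lit 4)
  (node (nat_lit 4) (nat_lit 0) (nat_lit 5) (node (nat_lit 6) (nat_lit 0) (nat_lit 6) (node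
  (nat_lit 4) (nat_lit 0) (nat_lit 7) (node (nat_lit 5) (nat_lit 0) (nat_lit 8) (node (nat_lit 0)
  (nat_lit 0) (nat_lit 9) (node (nat_lit 5) (nat_lit 0) (nat_lit 10) (node (nat_lit 6) (nat_lit
  96843) (nat_lit 11) (node (nat_lit 4) (nat_lit 99180) (nat_lit 12) (node (nat_lit 6) (nat_lit
  100079) (nat_lit 13) nil (node (nat_lit 5) (nat_lit 101317) (nat_lit 13) nil nil)) (node
  (nat_lit 5) (nat_lit 100893) (nat_lit 12) (node (nat_lit 4) (nat_lit 102091) (nat_lit 13) nil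
  (node (nat_lit 12) (nat_lit 107010) (nat_lit 13) nil nil)) (node (nat_lit 12) (nat_lit 105925)
  (nat_lit 12) nil (node (nat_lit 0) (nat_lit 108222) (nat_lit 12) nil nil)))) (node (nat_lit 4)
  (nat_lit 96537) (nat_lit 11) (node (nat_lit 6) (nat_lit 101107) (nat_lit 12) (node (nat_lit 5)
  (nat_lit 103055) (nat_lit 13) (node (nat_lit 6) (nat_lit 102362) (nat_lit 14) nil nil) (node
  (nat_lit 4) (nat_lit 103244) (nat_lit 13) nil nil)) (node (nat_lit 5) (nat_lit 100313) (nat_lit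
  12) (node (nat_lit 6) (nat_lit 101855) (nat_lit 13) nil (node (nat_lit 12) (nat_lit 106429)
  (nat_lit 13) nil nil)) (node (nat_lit 12) (nat_lit 107916) (nat_lit 12) nil (node (nat_lit 0)
  (nat_lit 101639) (nat_lit 12) nil nil)))) (node (nat_lit 0) (nat_lit 106008) (nat_lit 11) nil
  nil))) (node (nat_lit 4) (nat_lit 93313) (nat_lit 10) (node (nat_lit 12) (nat_lit 105882)
  (nat_lit 11) (node (nat_lit 5) (nat_lit 105882) (nat_lit 12) nil nil) (node (nat_lit 5) (nat_lit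
  96406) (nat_lit 11) (node (nat_lit 4) (nat_lit 96406) (nat_lit 12) nil nil) nil)) (node (nat_lit
  6) (nat_lit 94081) (nat_lit 10) (node (nat_lit 12) (nat_lit 97882) (nat_lit 11) nil nil) (node
  (nat_lit 0) (nat_lit 100369) (nat_lit 10) nil nil)))) (node (nat_lit 4) (nat_lit 0) (nat_lit 9)
  (node (nat_lit 0) (nat_lit 100848) (nat_lit 10) (node (nat_lit 5) (nat_lit 101640) (nat_lit 11)
  (node (nat_lit 4) (nat_lit 101640) (nat_lit 12) (node (nat_lit 5) (nat_lit 101640) (nat_lit 13)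
  nil nil) nil) (node (nat_lit 4) (nat_lit 100848) (nat_lit 11) nil nil)) nil) (node (nat_lit 6)
  (nat_lit 0) (nat_lit 9) (node (nat_lit 0) (nat_lit 91777) (nat_lit 10) (node (nat_lit 5)
  (nat_lit 92217) (nat_lit 11) (node (nat_lit 6) (nat_lit 92165) (nat_lit 12) nil nil) nil) nil)
  nil))) (node (nat_lit 0) (nat_lit 0) (nat_lit 8) (node (nat_lit 5) (nat_lit 112445) (nat_lit 9)
  (node (nat_lit 6) (nat_lit 116506) (nat_lit 10) (node (nat_lit 5) (nat_lit 120823) (nat_lit 11)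
  (node (nat_lit 4) (nat_lit 126308) (nat_lit 12) (node (nat_lit 6) (nat_lit 126735) (nat_lit 13)
  nil nil) nil) (node (nat_lit 4) (nat_lit 117764) (nat_lit 11) (node (nat_lit 5) (nat_lit 119887)
  (nat_lit 12) nil (node (nat_lit 6) (nat_lit 117699) (nat_lit 12) nil nil)) nil)) (node (nat_lit
  4) (nat_lit 116067) (nat_lit 10) (node (nat_lit 5) (nat_lit 120910) (nat_lit 11) (node (nat_lit
  6) (nat_lit 120845) (nat_lit 12) nil nil) (node (nat_lit 6) (nat_lit 117197) (nat_lit 11) nil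
  nil)) (node (nat_lit 11) (nat_lit 121480) (nat_lit 10) nil nil))) (node (nat_lit 6) (nat_lit
  111041) (nat_lit 9) (node (nat_lit 4) (nat_lit 115567) (nat_lit 10) (node (nat_lit 6) (nat_lit
  120272) (nat_lit 11) (node (nat_lit 5) (nat_lit 121138) (nat_lit 12) nil nil) (node (nat_lit 5)
  (nat_lit 117121) (nat_lit 11) nil nil)) (node (nat_lit 5) (nat_lit 114781) (nat_lit 10) (node
  (nat_lit 6) (nat_lit 118150) (nat_lit 11) (node (nat_lit 4) (nat_lit 120272) (nat_lit 12) nil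
  nil) (node (nat_lit 4) (nat_lit 118150) (nat_lit 11) nil nil)) (node (nat_lit 11) (nat_lit
  120075) (nat_lit 10) nil nil))) (node (nat_lit 4) (nat_lit 0) (nat_lit 9) (node (nat_lit 6)
  (nat_lit 115412) (nat_lit 10) (node (nat_lit 5) (nat_lit 116888) (nat_lit 11) (node (nat_lit 4)
  (nat_lit 116649) (nat_lit 12) nil nil) (node (nat_lit 4) (nat_lit 115412) (nat_lit 11) nil nil))
  (node (nat_lit 5) (nat_lit 115052) (nat_lit 10) (node (nat_lit 4) (nat_lit 116212) (nat_lit 11)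
  (node (nat_lit 6) (nat_lit 116147) (nat_lit 12) nil nil) (node (nat_lit 6) (nat_lit 115052)
  (nat_lit 11) nil nil)) (node (nat_lit 0) (nat_lit 113578) (nat_lit 10) nil nil))) (node (nat_lit
  0) (nat_lit 119697) (nat_lit 9) nil nil)))) nil)) (node (nat_lit 0) (nat_lit 0) (nat_lit 7)
  (node (nat_lit 4) (nat_lit 116821) (nat_lit 8) (node (nat_lit 5) (nat_lit 123489) (nat_lit 9)
  (node (nat_lit 6) (nat_lit 126789) (nat_lit 10) nil (node (nat_lit 4) (nat_lit 123489) (nat_lit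
  10) nil nil)) (node (nat_lit 6) (nat_lit 123648) (nat_lit 9) (node (nat_lit 5) (nat_lit 123583)
  (nat_lit 10) nil nil) (node (nat_lit 10) (nat_lit 122654) (nat_lit 9) nil nil))) (node (nat_lit
  5) (nat_lit 116881) (nat_lit 8) (node (nat_lit 4) (nat_lit 122312) (nat_lit 9) (node (nat_lit 6)
  (nat_lit 126638) (nat_lit 10) (node (nat_lit 5) (nat_lit 127142) (nat_lit 11) nil (node (nat_lit
  4) (nat_lit 130348) (nat_lit 11) nil nil)) (node (nat_lit 5) (nat_lit 124434) (nat_lit 10) nil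
  nil)) (node (nat_lit 6) (nat_lit 122881) (nat_lit 9) (node (nat_lit 4) (nat_lit 123823) (nat_lit
  10) nil (node (nat_lit 5) (nat_lit 122815) (nat_lit 10) nil nil)) nil)) (node (nat_lit 6)
  (nat_lit 117455) (nat_lit 8) (node (nat_lit 4) (nat_lit 122818) (nat_lit 9) (node (nat_lit 5)
  (nat_lit 121573) (nat_lit 10) (node (nat_lit 4) (nat_lit 122078) (nat_lit 11) nil (node (nat_lit
  6) (nat_lit 122234) (nat_lit 11) nil nil)) (node (nat_lit 6) (nat_lit 122818) (nat_lit 10) nil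
  nil)) (node (nat_lit 5) (nat_lit 122374) (nat_lit 9) (node (nat_lit 4) (nat_lit 125674) (nat_lit
  10) nil (node (nat_lit 6) (nat_lit 122374) (nat_lit 10) nil nil)) nil)) (node (nat_lit 0)
  (nat_lit 120198) (nat_lit 8) nil nil)))) (node (nat_lit 5) (nat_lit 0) (nat_lit 7) (node
  (nat_lit 0) (nat_lit 0) (nat_lit 8) (node (nat_lit 4) (nat_lit 117222) (nat_lit 9) (node
  (nat_lit 5) (nat_lit 117222) (nat_lit 10) nil (node (nat_lit 11) (nat_lit 126257) (nat_lit 10)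
  nil (node (nat_lit 6) (nat_lit 117222) (nat_lit 10) nil nil))) (node (nat_lit 6) (nat_lit
  120584) (nat_lit 9) (node (nat_lit 5) (nat_lit 120584) (nat_lit 10) (node (nat_lit 6) (nat_lit
  120584) (nat_lit 11) nil nil) (node (nat_lit 11) (nat_lit 127426) (nat_lit 10) nil (node
  (nat_lit 4) (nat_lit 120584) (nat_lit 10) nil nil))) (node (nat_lit 5) (nat_lit 120477) (nat_lit
  9) (node (nat_lit 6) (nat_lit 120477) (nat_lit 10) nil (node (nat_lit 4) (nat_lit 120477)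
  (nat_lit 10) nil nil)) (node (nat_lit 0) (nat_lit 122725) (nat_lit 9) nil nil)))) (node (nat_lit
  6) (nat_lit 0) (nat_lit 8) (node (nat_lit 0) (nat_lit 123606) (nat_lit 9) (node (nat_lit 6)
  (nat_lit 123606) (nat_lit 10) nil (node (nat_lit 5) (nat_lit 123606) (nat_lit 10) nil nil))
  (node (nat_lit 4) (nat_lit 0) (nat_lit 9) (node (nat_lit 0) (nat_lit 130211) (nat_lit 10) nil
  nil) nil)) nil)) nil))) (node (nat_lit 5) (nat_lit 0) (nat_lit 6) (node (nat_lit 6) (nat_lit 0)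
  (nat_lit 7) (node (nat_lit 0) (nat_lit 0) (nat_lit 8) (node (nat_lit 4) (nat_lit 112582)
  (nat_lit 9) (node (nat_lit 5) (nat_lit 114219) (nat_lit 10) (node (nat_lit 4) (nat_lit 114219)
  (nat_lit 11) nil (node (nat_lit 6) (nat_lit 114219) (nat_lit 11) nil nil)) (node (nat_lit 6)
  (nat_lit 112582) (nat_lit 10) (node (nat_lit 5) (nat_lit 112582) (nat_lit 11) nil nil) nil))
  (node (nat_lit 5) (nat_lit 111208) (nat_lit 9) (node (nat_lit 6) (nat_lit 110397) (nat_lit 10)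
  (node (nat_lit 5) (nat_lit 110639) (nat_lit 11) (node (nat_lit 4) (nat_lit 109472) (nat_lit 12)
  nil nil) nil) (node (nat_lit 4) (nat_lit 111208) (nat_lit 10) nil (node (nat_lit 11) (nat_lit
  112899) (nat_lit 10) nil nil))) (node (nat_lit 6) (nat_lit 111682) (nat_lit 9) (node (nat_lit 4)
  (nat_lit 111682) (nat_lit 10) nil (node (nat_lit 5) (nat_lit 113382) (nat_lit 10) (node (nat_lit
  6) (nat_lit 113382) (nat_lit 11) nil nil) nil)) (node (nat_lit 0) (nat_lit 114219) (nat_lit 9)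
  nil nil)))) (node (nat_lit 4) (nat_lit 0) (nat_lit 8) (node (nat_lit 0) (nat_lit 114219)
  (nat_lit 9) (node (nat_lit 4) (nat_lit 114219) (nat_lit 10) (node (nat_lit 6) (nat_lit 114219)
  (nat_lit 11) nil (node (nat_lit 5) (nat_lit 114219) (nat_lit 11) nil nil)) (node (nat_lit 6)
  (nat_lit 114219) (nat_lit 10) nil nil)) (node (nat_lit 6) (nat_lit 0) (nat_lit 9) (node (nat_lit
  0) (nat_lit 114219) (nat_lit 10) (node (nat_lit 4) (nat_lit 114219) (nat_lit 11) nil nil) nil)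
  (node (nat_lit 5) (nat_lit 0) (nat_lit 9) (node (nat_lit 0) (nat_lit 114219) (nat_lit 10) nil
  nil) nil))) nil)) (node (nat_lit 0) (nat_lit 106033) (nat_lit 7) (node (nat_lit 4) (nat_lit
  108027) (nat_lit 8) (node (nat_lit 5) (nat_lit 108027) (nat_lit 9) nil (node (nat_lit 6)
  (nat_lit 108027) (nat_lit 9) nil nil)) (node (nat_lit 5) (nat_lit 108363) (nat_lit 8) (node
  (nat_lit 4) (nat_lit 108363) (nat_lit 9) (node (nat_lit 6) (nat_lit 108363) (nat_lit 10) nil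
  nil) (node (nat_lit 6) (nat_lit 108363) (nat_lit 9) nil nil)) (node (nat_lit 6) (nat_lit 108423)
  (nat_lit 8) (node (nat_lit 5) (nat_lit 108423) (nat_lit 9) nil (node (nat_lit 4) (nat_lit
  108423) (nat_lit 9) nil nil)) nil))) nil)) nil)) nil) nil))

noncomputable def c66 : Tr :=
  (node (nat_lit 3) (nat_lit 0) (nat_lit 1) (node (nat_lit 3) (nat_lit 0) (nat_lit 2) (node
  (nat_lit 3) (nat_lit 0) (nat_lit 3) t470 (node (nat_lit 4) (nat_lit 0) (nat_lit 3) (node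
  (nat_lit 3) (nat_lit 0) (nat_lit 4) (node (nat_lit 5) (nat_lit 0) (nat_lit 5) (node (nat_lit 7)
  (nat_lit 0) (nat_lit 6) (node (nat_lit 4) (nat_lit 0) (nat_lit 7) (node (nat_lit 7) (nat_lit 0)
  (nat_lit 8) (node (nat_lit 0) (nat_lit 0) (nat_lit 9) (node (nat_lit 7) (nat_lit 0) (nat_lit 10)
  (node (nat_lit 5) (nat_lit 66753) (nat_lit 11) (node (nat_lit 4) (nat_lit 71669) (nat_lit 12)
  (node (nat_lit 7) (nat_lit 75727) (nat_lit 13) (node (nat_lit 4) (nat_lit 77704) (nat_lit 14)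
  nil (node (nat_lit 5) (nat_lit 75932) (nat_lit 14) nil nil)) (node (nat_lit 5) (nat_lit 75555)
  (nat_lit 13) (node (nat_lit 7) (nat_lit 75919) (nat_lit 14) nil nil) nil)) (node (nat_lit 7)
  (nat_lit 70995) (nat_lit 12) (node (nat_lit 4) (nat_lit 73286) (nat_lit 13) (node (nat_lit 5)
  (nat_lit 74360) (nat_lit 14) nil (node (nat_lit 7) (nat_lit 74247) (nat_lit 14) nil nil)) (node
  (nat_lit 12) (nat_lit 77631) (nat_lit 13) nil nil)) (node (nat_lit 12) (nat_lit 75483) (nat_lit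
  12) nil (node (nat_lit 0) (nat_lit 75483) (nat_lit 12) nil nil)))) (node (nat_lit 4) (nat_lit
  66588) (nat_lit 11) (node (nat_lit 5) (nat_lit 71659) (nat_lit 12) (node (nat_lit 7) (nat_lit
  74638) (nat_lit 13) (node (nat_lit 5) (nat_lit 75712) (nat_lit 14) nil (node (nat_lit 4)
  (nat_lit 75600) (nat_lit 14) nil nil)) (node (nat_lit 4) (nat_lit 75021) (nat_lit 13) (node
  (nat_lit 7) (nat_lit 76497) (nat_lit 14) nil nil) nil)) (node (nat_lit 7) (nat_lit 69605)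
  (nat_lit 12) (node (nat_lit 5) (nat_lit 71413) (nat_lit 13) (node (nat_lit 4) (nat_lit 70603)
  (nat_lit 14) nil (node (nat_lit 7) (nat_lit 70187) (nat_lit 14) nil nil)) nil) (node (nat_lit
  12) (nat_lit 77338) (nat_lit 12) (node (nat_lit 7) (nat_lit 77338) (nat_lit 13) nil nil) (node
  (nat_lit 0) (nat_lit 73513) (nat_lit 12) nil nil)))) (node (nat_lit 0) (nat_lit 72615) (nat_lit
  11) (node (nat_lit 12) (nat_lit 74380) (nat_lit 12) nil (node (nat_lit 7) (nat_lit 72615)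
  (nat_lit 12) nil nil)) nil))) (node (nat_lit 4) (nat_lit 62804) (nat_lit 10) (node (nat_lit 12)
  (nat_lit 72924) (nat_lit 11) (node (nat_lit 7) (nat_lit 72924) (nat_lit 12) (node (nat_lit 12)
  (nat_lit 76067) (nat_lit 13) nil nil) nil) (node (nat_lit 7) (nat_lit 66539) (nat_lit 11) (node
  (nat_lit 4) (nat_lit 71120) (nat_lit 12) (node (nat_lit 12) (nat_lit 74650) (nat_lit 13) nil
  nil) nil) (node (nat_lit 5) (nat_lit 66999) (nat_lit 11) nil nil))) (node (nat_lit 5) (nat_lit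
  63347) (nat_lit 10) (node (nat_lit 7) (nat_lit 67082) (nat_lit 11) (node (nat_lit 5) (nat_lit
  67082) (nat_lit 12) nil nil) (node (nat_lit 12) (nat_lit 73405) (nat_lit 11) nil nil)) (node
  (nat_lit 0) (nat_lit 67069) (nat_lit 10) (node (nat_lit 7) (nat_lit 66829) (nat_lit 11) (node
  (nat_lit 12) (nat_lit 68540) (nat_lit 12) nil nil) (node (nat_lit 12) (nat_lit 68031) (nat_lit
  11) nil nil)) nil)))) (node (nat_lit 5) (nat_lit 0) (nat_lit 9) (node (nat_lit 0) (nat_lit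
  68437) (nat_lit 10) (node (nat_lit 7) (nat_lit 70122) (nat_lit 11) (node (nat_lit 5) (nat_lit
  73154) (nat_lit 12) (node (nat_lit 7) (nat_lit 75971) (nat_lit 13) (node (nat_lit 4) (nat_lit
  76932) (nat_lit 14) nil nil) (node (nat_lit 4) (nat_lit 73837) (nat_lit 13) (node (nat_lit 7)
  (nat_lit 74798) (nat_lit 14) nil (node (nat_lit 5) (nat_lit 73026) (nat_lit 14) nil nil)) nil))
  nil) (node (nat_lit 5) (nat_lit 68437) (nat_lit 11) nil nil)) nil) nil)) (node (nat_lit 0)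
  (nat_lit 0) (nat_lit 8) (node (nat_lit 5) (nat_lit 57994) (nat_lit 9) (node (nat_lit 4) (nat_lit
  62760) (nat_lit 10) (node (nat_lit 5) (nat_lit 66947) (nat_lit 11) (node (nat_lit 7) (nat_lit
  69789) (nat_lit 12) nil nil) (node (nat_lit 7) (nat_lit 67843) (nat_lit 11) (node (nat_lit 5)
  (nat_lit 66662) (nat_lit 12) nil nil) nil)) (node (nat_lit 7) (nat_lit 61778) (nat_lit 10) (node
  (nat_lit 5) (nat_lit 63818) (nat_lit 11) (node (nat_lit 4) (nat_lit 63437) (nat_lit 12) nil nil)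
  (node (nat_lit 4) (nat_lit 63411) (nat_lit 11) nil nil)) (node (nat_lit 11) (nat_lit 68133)
  (nat_lit 10) nil nil))) (node (nat_lit 7) (nat_lit 57449) (nat_lit 9) (node (nat_lit 4) (nat_lit
  62419) (nat_lit 10) (node (nat_lit 7) (nat_lit 66353) (nat_lit 11) (node (nat_lit 5) (nat_lit
  70364) (nat_lit 12) (node (nat_lit 4) (nat_lit 68946) (nat_lit 13) nil nil) nil) (node (nat_lit
  5) (nat_lit 66233) (nat_lit 11) nil nil)) (node (nat_lit 5) (nat_lit 62657) (nat_lit 10) (node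
  (nat_lit 4) (nat_lit 66313) (nat_lit 11) (node (nat_lit 7) (nat_lit 67490) (nat_lit 12) nil nil)
  (node (nat_lit 7) (nat_lit 64794) (nat_lit 11) nil nil)) (node (nat_lit 11) (nat_lit 66462)
  (nat_lit 10) nil nil))) (node (nat_lit 4) (nat_lit 0) (nat_lit 9) (node (nat_lit 7) (nat_lit
  62304) (nat_lit 10) (node (nat_lit 4) (nat_lit 64440) (nat_lit 11) nil (node (nat_lit 5)
  (nat_lit 62304) (nat_lit 11) nil nil)) (node (nat_lit 5) (nat_lit 62842) (nat_lit 10) (node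
  (nat_lit 4) (nat_lit 62842) (nat_lit 11) nil (node (nat_lit 7) (nat_lit 62842) (nat_lit 11) nil
  nil)) (node (nat_lit 0) (nat_lit 59293) (nat_lit 10) nil nil))) (node (nat_lit 0) (nat_lit
  62673) (nat_lit 9) (node (nat_lit 11) (nat_lit 63155) (nat_lit 10) nil nil) nil)))) (node
  (nat_lit 5) (nat_lit 0) (nat_lit 8) (node (nat_lit 0) (nat_lit 51573) (nat_lit 9) (node (nat_lit
  5) (nat_lit 0) (nat_lit 10) (node (nat_lit 7) (nat_lit 53350) (nat_lit 11) (node (nat_lit 5)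
  (nat_lit 53350) (nat_lit 12) nil (node (nat_lit 4) (nat_lit 53350) (nat_lit 12) nil nil)) (node
  (nat_lit 4) (nat_lit 55847) (nat_lit 11) (node (nat_lit 7) (nat_lit 55717) (nat_lit 12) nil
  (node (nat_lit 5) (nat_lit 55847) (nat_lit 12) nil (node (nat_lit 12) (nat_lit 58791) (nat_lit
  12) nil nil))) (node (nat_lit 0) (nat_lit 58306) (nat_lit 11) nil nil))) (node (nat_lit 4)
  (nat_lit 52917) (nat_lit 10) (node (nat_lit 12) (nat_lit 55110) (nat_lit 11) nil nil) (node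
  (nat_lit 0) (nat_lit 52806) (nat_lit 10) nil nil))) (node (nat_lit 4) (nat_lit 0) (nat_lit 9)
  (node (nat_lit 0) (nat_lit 57381) (nat_lit 10) (node (nat_lit 5) (nat_lit 57360) (nat_lit 11)
  nil nil) nil) (node (nat_lit 7) (nat_lit 0) (nat_lit 9) (node (nat_lit 0) (nat_lit 57212)
  (nat_lit 10) (node (nat_lit 5) (nat_lit 58172) (nat_lit 11) nil nil) nil) nil))) nil))) (node
  (nat_lit 0) (nat_lit 74994) (nat_lit 7) (node (nat_lit 7) (nat_lit 79390) (nat_lit 8) (node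
  (nat_lit 5) (nat_lit 79390) (nat_lit 9) (node (nat_lit 4) (nat_lit 79390) (nat_lit 10) nil nil)
  (node (nat_lit 4) (nat_lit 79390) (nat_lit 9) nil nil)) (node (nat_lit 5) (nat_lit 78937)
  (nat_lit 8) (node (nat_lit 7) (nat_lit 78937) (nat_lit 9) nil (node (nat_lit 4) (nat_lit 78937)
  (nat_lit 9) (node (nat_lit 7) (nat_lit 78937) (nat_lit 10) nil nil) nil)) (node (nat_lit 4)
  (nat_lit 81879) (nat_lit 8) (node (nat_lit 7) (nat_lit 81879) (nat_lit 9) (node (nat_lit 5)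
  (nat_lit 81879) (nat_lit 10) nil nil) (node (nat_lit 5) (nat_lit 81879) (nat_lit 9) nil nil))
  nil))) nil)) (node (nat_lit 4) (nat_lit 0) (nat_lit 6) (node (nat_lit 5) (nat_lit 0) (nat_lit 7)
  (node (nat_lit 0) (nat_lit 0) (nat_lit 8) (node (nat_lit 4) (nat_lit 95911) (nat_lit 9) (node
  (nat_lit 5) (nat_lit 97234) (nat_lit 10) (node (nat_lit 4) (nat_lit 97234) (nat_lit 11) (node
  (nat_lit 7) (nat_lit 97234) (nat_lit 12) nil nil) (node (nat_lit 7) (nat_lit 97234) (nat_lit 11)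
  nil nil)) (node (nat_lit 7) (nat_lit 96765) (nat_lit 10) (node (nat_lit 5) (nat_lit 96765)
  (nat_lit 11) nil (node (nat_lit 4) (nat_lit 96765) (nat_lit 11) nil nil)) (node (nat_lit 11)
  (nat_lit 97234) (nat_lit 10) nil nil))) (node (nat_lit 7) (nat_lit 95571) (nat_lit 9) (node
  (nat_lit 4) (nat_lit 97213) (nat_lit 10) (node (nat_lit 7) (nat_lit 97234) (nat_lit 11) (node
  (nat_lit 5) (nat_lit 97234) (nat_lit 12) nil nil) (node (nat_lit 5) (nat_lit 97234) (nat_lit 11)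
  nil nil)) (node (nat_lit 5) (nat_lit 96951) (nat_lit 10) (node (nat_lit 7) (nat_lit 96951)
  (nat_lit 11) nil (node (nat_lit 4) (nat_lit 96951) (nat_lit 11) nil nil)) (node (nat_lit 11)
  (nat_lit 97231) (nat_lit 10) nil nil))) (node (nat_lit 5) (nat_lit 95610) (nat_lit 9) (node
  (nat_lit 7) (nat_lit 96111) (nat_lit 10) (node (nat_lit 5) (nat_lit 96353) (nat_lit 11) (node
  (nat_lit 4) (nat_lit 95173) (nat_lit 12) nil nil) (node (nat_lit 4) (nat_lit 96111) (nat_lit 11)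
  nil nil)) (node (nat_lit 4) (nat_lit 97234) (nat_lit 10) (node (nat_lit 7) (nat_lit 97234)
  (nat_lit 11) nil (node (nat_lit 5) (nat_lit 97234) (nat_lit 11) nil nil)) nil)) (node (nat_lit
  0) (nat_lit 95401) (nat_lit 9) nil nil)))) (node (nat_lit 7) (nat_lit 0) (nat_lit 8) (node
  (nat_lit 0) (nat_lit 0) (nat_lit 9) (node (nat_lit 7) (nat_lit 0) (nat_lit 10) (node (nat_lit 4)
  (nat_lit 97234) (nat_lit 11) (node (nat_lit 5) (nat_lit 97234) (nat_lit 12) nil (node (nat_lit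
  7) (nat_lit 97234) (nat_lit 12) nil nil)) (node (nat_lit 5) (nat_lit 97234) (nat_lit 11) (node
  (nat_lit 4) (nat_lit 97234) (nat_lit 12) nil nil) (node (nat_lit 0) (nat_lit 97234) (nat_lit 11)
  nil nil))) (node (nat_lit 5) (nat_lit 97227) (nat_lit 10) nil (node (nat_lit 4) (nat_lit 97227)
  (nat_lit 10) nil (node (nat_lit 0) (nat_lit 97234) (nat_lit 10) nil nil)))) (node (nat_lit 5)
  (nat_lit 0) (nat_lit 9) (node (nat_lit 0) (nat_lit 97234) (nat_lit 10) (node (nat_lit 7)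
  (nat_lit 97234) (nat_lit 11) (node (nat_lit 5) (nat_lit 97234) (nat_lit 12) (node (nat_lit 7)
  (nat_lit 97234) (nat_lit 13) nil nil) nil) (node (nat_lit 5) (nat_lit 97234) (nat_lit 11) nil
  nil)) nil) (node (nat_lit 4) (nat_lit 0) (nat_lit 9) (node (nat_lit 0) (nat_lit 95061) (nat_lit
  10) (node (nat_lit 7) (nat_lit 94820) (nat_lit 11) (node (nat_lit 4) (nat_lit 94820) (nat_lit
  12) nil nil) nil) nil) nil))) nil)) (node (nat_lit 0) (nat_lit 0) (nat_lit 7) (node (nat_lit 7)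
  (nat_lit 88667) (nat_lit 8) (node (nat_lit 5) (nat_lit 94165) (nat_lit 9) (node (nat_lit 4)
  (nat_lit 95484) (nat_lit 10) (node (nat_lit 7) (nat_lit 97234) (nat_lit 11) nil nil) (node
  (nat_lit 7) (nat_lit 96287) (nat_lit 10) nil nil)) (node (nat_lit 4) (nat_lit 95570) (nat_lit 9)
  (node (nat_lit 5) (nat_lit 97234) (nat_lit 10) nil (node (nat_lit 7) (nat_lit 95570) (nat_lit
  10) nil nil)) (node (nat_lit 10) (nat_lit 92061) (nat_lit 9) nil nil))) (node (nat_lit 5)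
  (nat_lit 88888) (nat_lit 8) (node (nat_lit 7) (nat_lit 94470) (nat_lit 9) (node (nat_lit 4)
  (nat_lit 96592) (nat_lit 10) nil (node (nat_lit 5) (nat_lit 94470) (nat_lit 10) nil nil)) (node
  (nat_lit 4) (nat_lit 95023) (nat_lit 9) (node (nat_lit 7) (nat_lit 95023) (nat_lit 10) nil nil)
  (node (nat_lit 10) (nat_lit 92283) (nat_lit 9) nil nil))) (node (nat_lit 4) (nat_lit 89195)
  (nat_lit 8) (node (nat_lit 5) (nat_lit 96047) (nat_lit 9) (node (nat_lit 7) (nat_lit 97234)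
  (nat_lit 10) nil nil) (node (nat_lit 7) (nat_lit 96047) (nat_lit 9) (node (nat_lit 5) (nat_lit
  95981) (nat_lit 10) nil nil) nil)) (node (nat_lit 0) (nat_lit 88834) (nat_lit 8) nil nil))))
  nil)) nil)) (node (nat_lit 4) (nat_lit 0) (nat_lit 5) (node (nat_lit 5) (nat_lit 0) (nat_lit 6)
  (node (nat_lit 7) (nat_lit 0) (nat_lit 7) (node (nat_lit 0) (nat_lit 0) (nat_lit 8) (node
  (nat_lit 4) (nat_lit 70873) (nat_lit 9) (node (nat_lit 7) (nat_lit 72627) (nat_lit 10) (node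
  (nat_lit 4) (nat_lit 75114) (nat_lit 11) nil (node (nat_lit 5) (nat_lit 73814) (nat_lit 11) nil
  nil)) (node (nat_lit 5) (nat_lit 72523) (nat_lit 10) (node (nat_lit 7) (nat_lit 75011) (nat_lit
  11) nil (node (nat_lit 4) (nat_lit 72523) (nat_lit 11) nil nil)) (node (nat_lit 11) (nat_lit
  74645) (nat_lit 10) nil nil))) (node (nat_lit 5) (nat_lit 70201) (nat_lit 9) (node (nat_lit 7)
  (nat_lit 71852) (nat_lit 10) (node (nat_lit 5) (nat_lit 73298) (nat_lit 11) (node (nat_lit 4)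
  (nat_lit 73605) (nat_lit 12) nil nil) (node (nat_lit 4) (nat_lit 73039) (nat_lit 11) nil nil))
  (node (nat_lit 4) (nat_lit 71385) (nat_lit 10) (node (nat_lit 5) (nat_lit 72573) (nat_lit 11)
  nil (node (nat_lit 7) (nat_lit 70333) (nat_lit 11) nil nil)) (node (nat_lit 11) (nat_lit 73974)
  (nat_lit 10) nil nil))) (node (nat_lit 7) (nat_lit 0) (nat_lit 9) (node (nat_lit 5) (nat_lit
  72322) (nat_lit 10) nil (node (nat_lit 4) (nat_lit 71856) (nat_lit 10) nil (node (nat_lit 0)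
  (nat_lit 72128) (nat_lit 10) nil nil))) (node (nat_lit 0) (nat_lit 74418) (nat_lit 9) nil
  nil)))) (node (nat_lit 4) (nat_lit 0) (nat_lit 8) (node (nat_lit 0) (nat_lit 72485) (nat_lit 9)
  (node (nat_lit 4) (nat_lit 0) (nat_lit 10) (node (nat_lit 7) (nat_lit 74237) (nat_lit 11) nil
  (node (nat_lit 5) (nat_lit 72936) (nat_lit 11) nil (node (nat_lit 0) (nat_lit 75130) (nat_lit
  11) nil nil))) (node (nat_lit 7) (nat_lit 72033) (nat_lit 10) nil nil)) (node (nat_lit 7)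
  (nat_lit 0) (nat_lit 9) (node (nat_lit 0) (nat_lit 76394) (nat_lit 10) (node (nat_lit 4)
  (nat_lit 76394) (nat_lit 11) nil nil) nil) nil)) (node (nat_lit 5) (nat_lit 0) (nat_lit 8) (node
  (nat_lit 0) (nat_lit 0) (nat_lit 9) (node (nat_lit 5) (nat_lit 72182) (nat_lit 10) (node
  (nat_lit 4) (nat_lit 72304) (nat_lit 11) (node (nat_lit 5) (nat_lit 72304) (nat_lit 12) nil nil)
  (node (nat_lit 7) (nat_lit 73483) (nat_lit 11) nil nil)) (node (nat_lit 7) (nat_lit 72182)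
  (nat_lit 10) nil (node (nat_lit 4) (nat_lit 71731) (nat_lit 10) nil (node (nat_lit 0) (nat_lit
  72963) (nat_lit 10) nil nil)))) (node (nat_lit 4) (nat_lit 0) (nat_lit 9) (node (nat_lit 0)
  (nat_lit 76504) (nat_lit 10) nil nil) nil)) nil))) (node (nat_lit 0) (nat_lit 0) (nat_lit 7)
  (node (nat_lit 4) (nat_lit 66167) (nat_lit 8) (node (nat_lit 7) (nat_lit 69630) (nat_lit 9)
  (node (nat_lit 5) (nat_lit 70695) (nat_lit 10) (node (nat_lit 4) (nat_lit 69623) (nat_lit 11)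
  nil nil) nil) (node (nat_lit 5) (nat_lit 68256) (nat_lit 9) (node (nat_lit 7) (nat_lit 71115)
  (nat_lit 10) nil nil) nil)) (node (nat_lit 5) (nat_lit 64356) (nat_lit 8) (node (nat_lit 4)
  (nat_lit 68942) (nat_lit 9) (node (nat_lit 7) (nat_lit 70026) (nat_lit 10) (node (nat_lit 4)
  (nat_lit 72242) (nat_lit 11) nil nil) nil) (node (nat_lit 7) (nat_lit 68117) (nat_lit 9) (node
  (nat_lit 4) (nat_lit 70044) (nat_lit 10) (node (nat_lit 5) (nat_lit 72260) (nat_lit 11) nil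
  (node (nat_lit 7) (nat_lit 72260) (nat_lit 11) nil nil)) nil) nil)) (node (nat_lit 7) (nat_lit
  65187) (nat_lit 8) (node (nat_lit 4) (nat_lit 68536) (nat_lit 9) (node (nat_lit 5) (nat_lit
  71395) (nat_lit 10) (node (nat_lit 7) (nat_lit 73612) (nat_lit 11) nil nil) (node (nat_lit 7)
  (nat_lit 67368) (nat_lit 10) nil nil)) (node (nat_lit 5) (nat_lit 67275) (nat_lit 9) (node
  (nat_lit 4) (nat_lit 67243) (nat_lit 10) (node (nat_lit 5) (nat_lit 66171) (nat_lit 11) nil nil)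
  (node (nat_lit 7) (nat_lit 68470) (nat_lit 10) nil nil)) (node (nat_lit 10) (nat_lit 68581)
  (nat_lit 9) nil nil))) (node (nat_lit 0) (nat_lit 67538) (nat_lit 8) nil nil)))) nil)) nil)
  nil)) nil) nil)) nil) nil)

noncomputable def t471 : Tr :=
  (node (nat_lit 5) (nat_lit 0) (nat_lit 5) (node (nat_lit 4) (nat_lit 0) (nat_lit 6) (node
  (nat_lit 6) (nat_lit 0) (nat_lit 7) (node (nat_lit 4) (nat_lit 0) (nat_lit 8) (node (nat_lit 0)
  (nat_lit 0) (nat_lit 9) (node (nat_lit 5) (nat_lit 0) (nat_lit 10) (node (nat_lit 4) (nat_lit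
  63174) (nat_lit 11) (node (nat_lit 5) (nat_lit 65865) (nat_lit 12) (node (nat_lit 6) (nat_lit
  68493) (nat_lit 13) (node (nat_lit 4) (nat_lit 70269) (nat_lit 14) (node (nat_lit 6) (nat_lit
  69641) (nat_lit 15) nil nil) (node (nat_lit 5) (nat_lit 67895) (nat_lit 14) (node (nat_lit 4)
  (nat_lit 65155) (nat_lit 15) nil nil) nil)) nil) (node (nat_lit 6) (nat_lit 65608) (nat_lit 12)
  (node (nat_lit 5) (nat_lit 67380) (nat_lit 13) nil (node (nat_lit 4) (nat_lit 67489) (nat_lit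
  13) nil nil)) (node (nat_lit 12) (nat_lit 65537) (nat_lit 12) nil nil))) (node (nat_lit 6)
  (nat_lit 63203) (nat_lit 11) (node (nat_lit 4) (nat_lit 65535) (nat_lit 12) (node (nat_lit 5)
  (nat_lit 66140) (nat_lit 13) (node (nat_lit 4) (nat_lit 66912) (nat_lit 14) nil (node (nat_lit
  6) (nat_lit 65328) (nat_lit 14) nil nil)) (node (nat_lit 6) (nat_lit 67375) (nat_lit 13) (node
  (nat_lit 5) (nat_lit 66999) (nat_lit 14) nil nil) nil)) (node (nat_lit 5) (nat_lit 65638)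
  (nat_lit 12) (node (nat_lit 4) (nat_lit 67519) (nat_lit 13) (node (nat_lit 6) (nat_lit 68290)
  (nat_lit 14) nil nil) nil) (node (nat_lit 12) (nat_lit 65566) (nat_lit 12) nil nil))) (node
  (nat_lit 12) (nat_lit 67429) (nat_lit 11) (node (nat_lit 4) (nat_lit 67429) (nat_lit 12) nil
  (node (nat_lit 6) (nat_lit 67429) (nat_lit 12) nil nil)) (node (nat_lit 0) (nat_lit 61929)
  (nat_lit 11) nil nil)))) (node (nat_lit 6) (nat_lit 0) (nat_lit 10) (node (nat_lit 5) (nat_lit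
  62722) (nat_lit 11) (node (nat_lit 4) (nat_lit 64859) (nat_lit 12) (node (nat_lit 6) (nat_lit
  67455) (nat_lit 13) (node (nat_lit 4) (nat_lit 68226) (nat_lit 14) nil nil) (node (nat_lit 5)
  (nat_lit 67253) (nat_lit 13) (node (nat_lit 6) (nat_lit 68704) (nat_lit 14) nil nil) nil)) (node
  (nat_lit 6) (nat_lit 65580) (nat_lit 12) (node (nat_lit 4) (nat_lit 66023) (nat_lit 13) (node
  (nat_lit 6) (nat_lit 65821) (nat_lit 14) nil (node (nat_lit 5) (nat_lit 66308) (nat_lit 14) nil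
  nil)) nil) nil)) (node (nat_lit 4) (nat_lit 62406) (nat_lit 11) (node (nat_lit 6) (nat_lit
  65483) (nat_lit 12) (node (nat_lit 5) (nat_lit 68080) (nat_lit 13) (node (nat_lit 6) (nat_lit
  68852) (nat_lit 14) nil nil) nil) (node (nat_lit 5) (nat_lit 65821) (nat_lit 12) (node (nat_lit
  6) (nat_lit 66569) (nat_lit 13) nil (node (nat_lit 4) (nat_lit 67487) (nat_lit 13) nil nil))
  nil)) (node (nat_lit 12) (nat_lit 66708) (nat_lit 11) (node (nat_lit 4) (nat_lit 66708) (nat_lit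
  12) nil nil) (node (nat_lit 0) (nat_lit 61209) (nat_lit 11) nil nil)))) (node (nat_lit 4)
  (nat_lit 0) (nat_lit 10) (node (nat_lit 6) (nat_lit 62071) (nat_lit 11) (node (nat_lit 5)
  (nat_lit 65992) (nat_lit 12) (node (nat_lit 6) (nat_lit 67763) (nat_lit 13) nil (node (nat_lit
  4) (nat_lit 67763) (nat_lit 13) nil nil)) (node (nat_lit 4) (nat_lit 64496) (nat_lit 12) (node
  (nat_lit 5) (nat_lit 65485) (nat_lit 13) nil nil) nil)) (node (nat_lit 5) (nat_lit 62845)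
  (nat_lit 11) (node (nat_lit 4) (nat_lit 65923) (nat_lit 12) (node (nat_lit 6) (nat_lit 64938)
  (nat_lit 13) nil nil) (node (nat_lit 6) (nat_lit 66109) (nat_lit 12) (node (nat_lit 4) (nat_lit
  67269) (nat_lit 13) nil nil) nil)) (node (nat_lit 0) (nat_lit 61109) (nat_lit 11) nil nil)))
  (node (nat_lit 0) (nat_lit 62661) (nat_lit 10) (node (nat_lit 4) (nat_lit 63115) (nat_lit 11)
  nil (node (nat_lit 12) (nat_lit 64214) (nat_lit 11) nil nil)) nil)))) (node (nat_lit 5) (nat_lit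
  0) (nat_lit 9) (node (nat_lit 0) (nat_lit 0) (nat_lit 10) (node (nat_lit 5) (nat_lit 0) (nat_lit
  11) (node (nat_lit 4) (nat_lit 67231) (nat_lit 12) (node (nat_lit 6) (nat_lit 68838) (nat_lit
  13) (node (nat_lit 5) (nat_lit 69610) (nat_lit 14) nil (node (nat_lit 4) (nat_lit 69610)
  (nat_lit 14) nil nil)) (node (nat_lit 5) (nat_lit 69202) (nat_lit 13) (node (nat_lit 6) (nat_lit
  69000) (nat_lit 14) nil nil) (node (nat_lit 13) (nat_lit 69075) (nat_lit 13) nil nil))) (node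
  (nat_lit 6) (nat_lit 67458) (nat_lit 12) (node (nat_lit 4) (nat_lit 68478) (nat_lit 13) (node
  (nat_lit 5) (nat_lit 68756) (nat_lit 14) nil (node (nat_lit 6) (nat_lit 68277) (nat_lit 14) nil
  nil)) (node (nat_lit 5) (nat_lit 69065) (nat_lit 13) (node (nat_lit 4) (nat_lit 69837) (nat_lit
  14) nil nil) nil)) (node (nat_lit 0) (nat_lit 69679) (nat_lit 12) nil nil))) (node (nat_lit 4)
  (nat_lit 65253) (nat_lit 11) (node (nat_lit 5) (nat_lit 67638) (nat_lit 12) nil (node (nat_lit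
  13) (nat_lit 69902) (nat_lit 12) nil nil)) (node (nat_lit 6) (nat_lit 65053) (nat_lit 11) nil
  (node (nat_lit 0) (nat_lit 67411) (nat_lit 11) nil nil)))) (node (nat_lit 6) (nat_lit 0)
  (nat_lit 10) (node (nat_lit 0) (nat_lit 68202) (nat_lit 11) (node (nat_lit 5) (nat_lit 69397)
  (nat_lit 12) (node (nat_lit 6) (nat_lit 70390) (nat_lit 13) (node (nat_lit 4) (nat_lit 69903)
  (nat_lit 14) nil (node (nat_lit 5) (nat_lit 71646) (nat_lit 14) nil nil)) nil) nil) nil) nil))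
  nil)) (node (nat_lit 5) (nat_lit 0) (nat_lit 8) (node (nat_lit 0) (nat_lit 0) (nat_lit 9) (node
  (nat_lit 4) (nat_lit 59448) (nat_lit 10) (node (nat_lit 5) (nat_lit 59937) (nat_lit 11) (node
  (nat_lit 4) (nat_lit 59092) (nat_lit 12) nil nil) (node (nat_lit 6) (nat_lit 61270) (nat_lit 11)
  (node (nat_lit 5) (nat_lit 62272) (nat_lit 12) nil (node (nat_lit 4) (nat_lit 61270) (nat_lit
  12) nil nil)) (node (nat_lit 12) (nat_lit 62993) (nat_lit 11) nil nil))) (node (nat_lit 6)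
  (nat_lit 59391) (nat_lit 10) (node (nat_lit 5) (nat_lit 60496) (nat_lit 11) (node (nat_lit 6)
  (nat_lit 61499) (nat_lit 12) nil nil) (node (nat_lit 4) (nat_lit 59519) (nat_lit 11) nil (node
  (nat_lit 12) (nat_lit 62936) (nat_lit 11) nil nil))) (node (nat_lit 5) (nat_lit 59753) (nat_lit
  10) (node (nat_lit 6) (nat_lit 60123) (nat_lit 11) nil (node (nat_lit 4) (nat_lit 61182)
  (nat_lit 11) nil nil)) (node (nat_lit 0) (nat_lit 61052) (nat_lit 10) nil nil)))) (node (nat_lit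
  4) (nat_lit 0) (nat_lit 9) (node (nat_lit 0) (nat_lit 49959) (nat_lit 10) (node (nat_lit 4)
  (nat_lit 0) (nat_lit 11) (node (nat_lit 5) (nat_lit 51966) (nat_lit 12) (node (nat_lit 13)
  (nat_lit 53810) (nat_lit 13) nil nil) (node (nat_lit 6) (nat_lit 51859) (nat_lit 12) nil (node
  (nat_lit 0) (nat_lit 52175) (nat_lit 12) nil nil))) (node (nat_lit 5) (nat_lit 51071) (nat_lit
  11) nil nil)) (node (nat_lit 5) (nat_lit 0) (nat_lit 10) (node (nat_lit 0) (nat_lit 45236)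
  (nat_lit 11) (node (nat_lit 4) (nat_lit 45895) (nat_lit 12) (node (nat_lit 5) (nat_lit 46806)
  (nat_lit 13) (node (nat_lit 4) (nat_lit 46806) (nat_lit 14) nil (node (nat_lit 6) (nat_lit
  46806) (nat_lit 14) nil nil)) nil) nil) nil) nil)) (node (nat_lit 6) (nat_lit 0) (nat_lit 9)
  (node (nat_lit 0) (nat_lit 63149) (nat_lit 10) (node (nat_lit 6) (nat_lit 63615) (nat_lit 11)
  (node (nat_lit 5) (nat_lit 63615) (nat_lit 12) nil (node (nat_lit 4) (nat_lit 63615) (nat_lit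
  12) nil nil)) nil) (node (nat_lit 4) (nat_lit 0) (nat_lit 10) (node (nat_lit 0) (nat_lit 67267)
  (nat_lit 11) nil nil) nil)) nil))) (node (nat_lit 0) (nat_lit 0) (nat_lit 8) (node (nat_lit 4)
  (nat_lit 55064) (nat_lit 9) (node (nat_lit 5) (nat_lit 57939) (nat_lit 10) (node (nat_lit 6)
  (nat_lit 59128) (nat_lit 11) nil (node (nat_lit 4) (nat_lit 56921) (nat_lit 11) nil nil)) (node
  (nat_lit 6) (nat_lit 58806) (nat_lit 10) (node (nat_lit 5) (nat_lit 61447) (nat_lit 11) (node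
  (nat_lit 6) (nat_lit 62415) (nat_lit 12) nil nil) (node (nat_lit 4) (nat_lit 61408) (nat_lit 11)
  nil nil)) nil)) (node (nat_lit 5) (nat_lit 55552) (nat_lit 9) (node (nat_lit 6) (nat_lit 59293)
  (nat_lit 10) (node (nat_lit 4) (nat_lit 58381) (nat_lit 11) (node (nat_lit 5) (nat_lit 59349)
  (nat_lit 12) nil nil) (node (nat_lit 5) (nat_lit 61934) (nat_lit 11) nil nil)) (node (nat_lit 4)
  (nat_lit 58703) (nat_lit 10) (node (nat_lit 6) (nat_lit 61344) (nat_lit 11) nil (node (nat_lit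
  5) (nat_lit 59517) (nat_lit 11) nil nil)) (node (nat_lit 11) (nat_lit 56959) (nat_lit 10) nil
  nil))) (node (nat_lit 6) (nat_lit 55128) (nat_lit 9) (node (nat_lit 5) (nat_lit 59421) (nat_lit
  10) (node (nat_lit 4) (nat_lit 60834) (nat_lit 11) nil (node (nat_lit 6) (nat_lit 60707)
  (nat_lit 11) nil nil)) (node (nat_lit 4) (nat_lit 58357) (nat_lit 10) (node (nat_lit 5) (nat_lit
  60731) (nat_lit 11) (node (nat_lit 6) (nat_lit 59418) (nat_lit 12) nil nil) (node (nat_lit 6)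
  (nat_lit 59642) (nat_lit 11) nil nil)) nil)) (node (nat_lit 0) (nat_lit 53088) (nat_lit 9) nil
  nil)))) nil))) nil) nil) (node (nat_lit 6) (nat_lit 0) (nat_lit 5) (node (nat_lit 5) (nat_lit 0)
  (nat_lit 6) (node (nat_lit 6) (nat_lit 0) (nat_lit 7) (node (nat_lit 4) (nat_lit 0) (nat_lit 8)
  (node (nat_lit 0) (nat_lit 0) (nat_lit 9) (node (nat_lit 5) (nat_lit 100264) (nat_lit 10) (node
  (nat_lit 4) (nat_lit 103326) (nat_lit 11) (node (nat_lit 5) (nat_lit 104684) (nat_lit 12) (node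
  (nat_lit 6) (nat_lit 105718) (nat_lit 13) nil nil) (node (nat_lit 6) (nat_lit 105100) (nat_lit
  12) nil nil)) (node (nat_lit 6) (nat_lit 102295) (nat_lit 11) (node (nat_lit 5) (nat_lit 104156)
  (nat_lit 12) (node (nat_lit 4) (nat_lit 104048) (nat_lit 13) nil nil) (node (nat_lit 4) (nat_lit
  102222) (nat_lit 12) nil nil)) (node (nat_lit 12) (nat_lit 108425) (nat_lit 11) nil nil))) (node
  (nat_lit 6) (nat_lit 99990) (nat_lit 10) (node (nat_lit 4) (nat_lit 103168) (nat_lit 11) (node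
  (nat_lit 6) (nat_lit 105801) (nat_lit 12) (node (nat_lit 5) (nat_lit 108183) (nat_lit 13) nil
  nil) (node (nat_lit 5) (nat_lit 101456) (nat_lit 12) (node (nat_lit 6) (nat_lit 101708) (nat_lit
  13) nil nil) nil)) (node (nat_lit 5) (nat_lit 104027) (nat_lit 11) (node (nat_lit 4) (nat_lit
  105802) (nat_lit 12) nil (node (nat_lit 6) (nat_lit 105802) (nat_lit 12) nil nil)) (node
  (nat_lit 12) (nat_lit 108152) (nat_lit 11) nil nil))) (node (nat_lit 4) (nat_lit 98877) (nat_lit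
  10) (node (nat_lit 6) (nat_lit 102981) (nat_lit 11) (node (nat_lit 4) (nat_lit 102981) (nat_lit
  12) nil (node (nat_lit 5) (nat_lit 102981) (nat_lit 12) nil nil)) (node (nat_lit 5) (nat_lit
  102742) (nat_lit 11) (node (nat_lit 6) (nat_lit 102742) (nat_lit 12) nil (node (nat_lit 4)
  (nat_lit 102742) (nat_lit 12) nil nil)) nil)) (node (nat_lit 0) (nat_lit 105352) (nat_lit 10)
  nil nil)))) (node (nat_lit 5) (nat_lit 0) (nat_lit 9) (node (nat_lit 0) (nat_lit 105691)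
  (nat_lit 10) (node (nat_lit 5) (nat_lit 0) (nat_lit 11) (node (nat_lit 4) (nat_lit 105440)
  (nat_lit 12) nil (node (nat_lit 6) (nat_lit 105440) (nat_lit 12) nil (node (nat_lit 0) (nat_lit
  108532) (nat_lit 12) nil nil))) (node (nat_lit 4) (nat_lit 106800) (nat_lit 11) nil nil)) (node
  (nat_lit 4) (nat_lit 0) (nat_lit 10) (node (nat_lit 0) (nat_lit 111553) (nat_lit 11) (node
  (nat_lit 5) (nat_lit 111553) (nat_lit 12) nil nil) nil) (node (nat_lit 6) (nat_lit 0) (nat_lit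
  10) (node (nat_lit 0) (nat_lit 111765) (nat_lit 11) nil nil) nil))) nil)) (node (nat_lit 0)
  (nat_lit 90562) (nat_lit 8) (node (nat_lit 6) (nat_lit 94205) (nat_lit 9) (node (nat_lit 4)
  (nat_lit 99472) (nat_lit 10) (node (nat_lit 5) (nat_lit 104706) (nat_lit 11) (node (nat_lit 6)
  (nat_lit 104639) (nat_lit 12) nil (node (nat_lit 4) (nat_lit 104456) (nat_lit 12) nil nil))
  (node (nat_lit 6) (nat_lit 99472) (nat_lit 11) nil nil)) (node (nat_lit 5) (nat_lit 100136)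
  (nat_lit 10) (node (nat_lit 4) (nat_lit 104622) (nat_lit 11) (node (nat_lit 5) (nat_lit 106836)
  (nat_lit 12) nil (node (nat_lit 6) (nat_lit 106836) (nat_lit 12) nil nil)) (node (nat_lit 6)
  (nat_lit 100136) (nat_lit 11) nil nil)) nil)) (node (nat_lit 4) (nat_lit 93596) (nat_lit 9)
  (node (nat_lit 5) (nat_lit 98811) (nat_lit 10) (node (nat_lit 6) (nat_lit 102248) (nat_lit 11)
  (node (nat_lit 5) (nat_lit 105463) (nat_lit 12) nil (node (nat_lit 4) (nat_lit 104461) (nat_lit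
  12) nil nil)) (node (nat_lit 4) (nat_lit 101746) (nat_lit 11) nil nil)) (node (nat_lit 6)
  (nat_lit 99054) (nat_lit 10) (node (nat_lit 5) (nat_lit 103582) (nat_lit 11) (node (nat_lit 6)
  (nat_lit 105795) (nat_lit 12) nil (node (nat_lit 4) (nat_lit 103331) (nat_lit 12) nil nil))
  (node (nat_lit 4) (nat_lit 99054) (nat_lit 11) nil nil)) (node (nat_lit 11) (nat_lit 107832)
  (nat_lit 10) nil nil))) (node (nat_lit 5) (nat_lit 94480) (nat_lit 9) (node (nat_lit 4) (nat_lit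
  99818) (nat_lit 10) (node (nat_lit 6) (nat_lit 105056) (nat_lit 11) (node (nat_lit 5) (nat_lit
  107270) (nat_lit 12) nil (node (nat_lit 4) (nat_lit 107270) (nat_lit 12) nil nil)) (node
  (nat_lit 5) (nat_lit 99818) (nat_lit 11) nil nil)) (node (nat_lit 6) (nat_lit 100229) (nat_lit
  10) (node (nat_lit 4) (nat_lit 103307) (nat_lit 11) (node (nat_lit 6) (nat_lit 103240) (nat_lit
  12) nil nil) (node (nat_lit 5) (nat_lit 100229) (nat_lit 11) nil nil)) (node (nat_lit 11)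
  (nat_lit 109051) (nat_lit 10) nil nil))) nil))) nil)) (node (nat_lit 4) (nat_lit 0) (nat_lit 7)
  (node (nat_lit 0) (nat_lit 80655) (nat_lit 8) (node (nat_lit 4) (nat_lit 82473) (nat_lit 9)
  (node (nat_lit 6) (nat_lit 87125) (nat_lit 10) (node (nat_lit 5) (nat_lit 87424) (nat_lit 11)
  nil nil) (node (nat_lit 5) (nat_lit 86882) (nat_lit 10) (node (nat_lit 6) (nat_lit 89156)
  (nat_lit 11) nil nil) nil)) (node (nat_lit 5) (nat_lit 83560) (nat_lit 9) (node (nat_lit 6)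
  (nat_lit 86055) (nat_lit 10) (node (nat_lit 4) (nat_lit 86026) (nat_lit 11) nil nil) (node
  (nat_lit 4) (nat_lit 87973) (nat_lit 10) (node (nat_lit 6) (nat_lit 87973) (nat_lit 11) nil
  (node (nat_lit 5) (nat_lit 87973) (nat_lit 11) nil nil)) (node (nat_lit 11) (nat_lit 86729)
  (nat_lit 10) nil nil))) (node (nat_lit 6) (nat_lit 83529) (nat_lit 9) (node (nat_lit 5) (nat_lit
  88319) (nat_lit 10) (node (nat_lit 4) (nat_lit 90721) (nat_lit 11) nil nil) (node (nat_lit 4)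
  (nat_lit 87766) (nat_lit 10) (node (nat_lit 5) (nat_lit 87766) (nat_lit 11) nil (node (nat_lit
  6) (nat_lit 87766) (nat_lit 11) nil nil)) (node (nat_lit 11) (nat_lit 86699) (nat_lit 10) nil
  nil))) nil))) (node (nat_lit 5) (nat_lit 0) (nat_lit 8) (node (nat_lit 0) (nat_lit 0) (nat_lit
  9) (node (nat_lit 6) (nat_lit 86936) (nat_lit 10) (node (nat_lit 5) (nat_lit 89073) (nat_lit 11)
  nil (node (nat_lit 4) (nat_lit 86411) (nat_lit 11) nil nil)) (node (nat_lit 4) (nat_lit 87664)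
  (nat_lit 10) (node (nat_lit 5) (nat_lit 90910) (nat_lit 11) (node (nat_lit 4) (nat_lit 90910)
  (nat_lit 12) nil nil) (node (nat_lit 6) (nat_lit 88368) (nat_lit 11) nil nil)) (node (nat_lit 5)
  (nat_lit 87892) (nat_lit 10) (node (nat_lit 6) (nat_lit 89779) (nat_lit 11) nil (node (nat_lit
  4) (nat_lit 88019) (nat_lit 11) nil nil)) (node (nat_lit 0) (nat_lit 88433) (nat_lit 10) nil
  nil)))) (node (nat_lit 6) (nat_lit 0) (nat_lit 9) (node (nat_lit 0) (nat_lit 84489) (nat_lit 10)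
  (node (nat_lit 6) (nat_lit 84489) (nat_lit 11) nil nil) (node (nat_lit 4) (nat_lit 0) (nat_lit
  10) (node (nat_lit 0) (nat_lit 68387) (nat_lit 11) nil nil) (node (nat_lit 5) (nat_lit 0)
  (nat_lit 10) (node (nat_lit 0) (nat_lit 87020) (nat_lit 11) nil nil) nil))) nil)) (node (nat_lit
  6) (nat_lit 0) (nat_lit 8) (node (nat_lit 0) (nat_lit 0) (nat_lit 9) (node (nat_lit 5) (nat_lit
  85298) (nat_lit 10) (node (nat_lit 6) (nat_lit 85298) (nat_lit 11) nil (node (nat_lit 4)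
  (nat_lit 85298) (nat_lit 11) nil (node (nat_lit 12) (nat_lit 89261) (nat_lit 11) nil nil)))
  (node (nat_lit 4) (nat_lit 86395) (nat_lit 10) (node (nat_lit 6) (nat_lit 86395) (nat_lit 11)
  nil (node (nat_lit 5) (nat_lit 86395) (nat_lit 11) nil (node (nat_lit 12) (nat_lit 90358)
  (nat_lit 11) nil nil))) (node (nat_lit 6) (nat_lit 87751) (nat_lit 10) nil (node (nat_lit 0)
  (nat_lit 87477) (nat_lit 10) nil nil)))) (node (nat_lit 4) (nat_lit 0) (nat_lit 9) (node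
  (nat_lit 5) (nat_lit 0) (nat_lit 10) (node (nat_lit 0) (nat_lit 76410) (nat_lit 11) (node
  (nat_lit 4) (nat_lit 77797) (nat_lit 12) (node (nat_lit 5) (nat_lit 79832) (nat_lit 13) (node
  (nat_lit 6) (nat_lit 80913) (nat_lit 14) nil (node (nat_lit 4) (nat_lit 80679) (nat_lit 14) nil
  nil)) nil) nil) nil) (node (nat_lit 0) (nat_lit 92290) (nat_lit 10) nil nil)) nil)) nil))) nil))
  nil) nil))

noncomputable def t472 : Tr :=
  (node (nat_lit 3) (nat_lit 0) (nat_lit 3) (node (nat_lit 4) (nat_lit 0) (nat_lit 4) t471 (node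
  (nat_lit 5) (nat_lit 0) (nat_lit 4) (node (nat_lit 4) (nat_lit 0) (nat_lit 5) (node (nat_lit 6)
  (nat_lit 0) (nat_lit 6) (node (nat_lit 4) (nat_lit 0) (nat_lit 7) (node (nat_lit 5) (nat_lit 0)
  (nat_lit 8) (node (nat_lit 0) (nat_lit 0) (nat_lit 9) (node (nat_lit 4) (nat_lit 97301) (nat_lit
  10) (node (nat_lit 5) (nat_lit 100527) (nat_lit 11) (node (nat_lit 4) (nat_lit 102976) (nat_lit
  12) (node (nat_lit 6) (nat_lit 106500) (nat_lit 13) (node (nat_lit 5) (nat_lit 103904) (nat_lit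
  14) nil nil) nil) (node (nat_lit 6) (nat_lit 102726) (nat_lit 12) (node (nat_lit 4) (nat_lit
  104953) (nat_lit 13) nil nil) nil)) (node (nat_lit 6) (nat_lit 100454) (nat_lit 11) (node
  (nat_lit 5) (nat_lit 105147) (nat_lit 12) (node (nat_lit 4) (nat_lit 105039) (nat_lit 13) nil
  nil) (node (nat_lit 4) (nat_lit 103192) (nat_lit 12) (node (nat_lit 5) (nat_lit 105419) (nat_lit
  13) nil nil) nil)) (node (nat_lit 12) (nat_lit 101264) (nat_lit 11) nil nil))) (node (nat_lit 6)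
  (nat_lit 98102) (nat_lit 10) (node (nat_lit 4) (nat_lit 100892) (nat_lit 11) (node (nat_lit 6)
  (nat_lit 101860) (nat_lit 12) (node (nat_lit 5) (nat_lit 104534) (nat_lit 13) nil nil) (node
  (nat_lit 5) (nat_lit 102891) (nat_lit 12) (node (nat_lit 6) (nat_lit 103143) (nat_lit 13) nil
  nil) nil)) (node (nat_lit 5) (nat_lit 101198) (nat_lit 11) (node (nat_lit 6) (nat_lit 103412)
  (nat_lit 12) (node (nat_lit 4) (nat_lit 106995) (nat_lit 13) nil nil) (node (nat_lit 4) (nat_lit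
  104664) (nat_lit 12) nil nil)) (node (nat_lit 12) (nat_lit 102065) (nat_lit 11) nil nil))) (node
  (nat_lit 5) (nat_lit 97891) (nat_lit 10) (node (nat_lit 4) (nat_lit 100663) (nat_lit 11) (node
  (nat_lit 5) (nat_lit 104601) (nat_lit 12) nil (node (nat_lit 6) (nat_lit 105430) (nat_lit 12)
  nil nil)) (node (nat_lit 6) (nat_lit 100983) (nat_lit 11) (node (nat_lit 4) (nat_lit 103419)
  (nat_lit 12) nil (node (nat_lit 5) (nat_lit 100983) (nat_lit 12) nil nil)) nil)) (node (nat_lit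
  0) (nat_lit 104658) (nat_lit 10) nil nil)))) (node (nat_lit 6) (nat_lit 0) (nat_lit 9) (node
  (nat_lit 0) (nat_lit 95700) (nat_lit 10) (node (nat_lit 6) (nat_lit 0) (nat_lit 11) (node
  (nat_lit 5) (nat_lit 97217) (nat_lit 12) nil (node (nat_lit 4) (nat_lit 96747) (nat_lit 12) nil
  (node (nat_lit 0) (nat_lit 99251) (nat_lit 12) nil nil))) (node (nat_lit 5) (nat_lit 96159)
  (nat_lit 11) nil nil)) (node (nat_lit 5) (nat_lit 0) (nat_lit 10) (node (nat_lit 0) (nat_lit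
  100380) (nat_lit 11) (node (nat_lit 6) (nat_lit 100380) (nat_lit 12) (node (nat_lit 5) (nat_lit
  100380) (nat_lit 13) nil nil) nil) nil) (node (nat_lit 4) (nat_lit 0) (nat_lit 10) (node
  (nat_lit 0) (nat_lit 100488) (nat_lit 11) nil nil) nil))) (node (nat_lit 4) (nat_lit 0) (nat_lit
  9) (node (nat_lit 0) (nat_lit 105159) (nat_lit 10) (node (nat_lit 4) (nat_lit 105159) (nat_lit
  11) nil nil) (node (nat_lit 6) (nat_lit 0) (nat_lit 10) (node (nat_lit 0) (nat_lit 111194)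
  (nat_lit 11) nil nil) nil)) nil))) (node (nat_lit 0) (nat_lit 0) (nat_lit 8) (node (nat_lit 4)
  (nat_lit 115263) (nat_lit 9) (node (nat_lit 5) (nat_lit 119970) (nat_lit 10) (node (nat_lit 6)
  (nat_lit 123483) (nat_lit 11) (node (nat_lit 4) (nat_lit 125697) (nat_lit 12) nil (node (nat_lit
  5) (nat_lit 125697) (nat_lit 12) nil nil)) (node (nat_lit 4) (nat_lit 119970) (nat_lit 11) nil
  nil)) (node (nat_lit 6) (nat_lit 120346) (nat_lit 10) (node (nat_lit 5) (nat_lit 121884)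
  (nat_lit 11) nil (node (nat_lit 4) (nat_lit 120346) (nat_lit 11) nil nil)) nil)) (node (nat_lit
  5) (nat_lit 117251) (nat_lit 9) (node (nat_lit 6) (nat_lit 121485) (nat_lit 10) (node (nat_lit
  4) (nat_lit 122797) (nat_lit 11) nil (node (nat_lit 5) (nat_lit 121485) (nat_lit 11) nil nil))
  (node (nat_lit 4) (nat_lit 121028) (nat_lit 10) (node (nat_lit 6) (nat_lit 122207) (nat_lit 11)
  nil nil) nil)) (node (nat_lit 6) (nat_lit 115787) (nat_lit 9) (node (nat_lit 4) (nat_lit 120506)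
  (nat_lit 10) (node (nat_lit 5) (nat_lit 120506) (nat_lit 11) nil nil) (node (nat_lit 5) (nat_lit
  119686) (nat_lit 10) (node (nat_lit 4) (nat_lit 123199) (nat_lit 11) nil nil) nil)) (node
  (nat_lit 0) (nat_lit 114965) (nat_lit 9) nil nil)))) nil)) (node (nat_lit 5) (nat_lit 0)
  (nat_lit 7) (node (nat_lit 0) (nat_lit 122244) (nat_lit 8) (node (nat_lit 4) (nat_lit 122232)
  (nat_lit 9) (node (nat_lit 5) (nat_lit 122232) (nat_lit 10) nil (node (nat_lit 6) (nat_lit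
  122232) (nat_lit 10) nil nil)) (node (nat_lit 6) (nat_lit 125739) (nat_lit 9) (node (nat_lit 4)
  (nat_lit 125739) (nat_lit 10) nil (node (nat_lit 5) (nat_lit 125739) (nat_lit 10) nil nil))
  (node (nat_lit 5) (nat_lit 125627) (nat_lit 9) (node (nat_lit 4) (nat_lit 125627) (nat_lit 10)
  nil (node (nat_lit 6) (nat_lit 125627) (nat_lit 10) nil nil)) nil))) (node (nat_lit 6) (nat_lit
  0) (nat_lit 8) (node (nat_lit 4) (nat_lit 0) (nat_lit 9) (node (nat_lit 0) (nat_lit 135776)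
  (nat_lit 10) nil (node (nat_lit 5) (nat_lit 0) (nat_lit 10) (node (nat_lit 0) (nat_lit 120299)
  (nat_lit 11) nil nil) (node (nat_lit 6) (nat_lit 0) (nat_lit 10) (node (nat_lit 0) (nat_lit
  133686) (nat_lit 11) nil nil) nil))) (node (nat_lit 0) (nat_lit 128889) (nat_lit 9) (node
  (nat_lit 4) (nat_lit 128889) (nat_lit 10) nil (node (nat_lit 5) (nat_lit 128889) (nat_lit 10)
  nil nil)) nil)) nil)) nil)) (node (nat_lit 5) (nat_lit 0) (nat_lit 6) (node (nat_lit 6) (nat_lit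
  0) (nat_lit 7) (node (nat_lit 4) (nat_lit 0) (nat_lit 8) (node (nat_lit 5) (nat_lit 0) (nat_lit
  9) (node (nat_lit 0) (nat_lit 109802) (nat_lit 10) (node (nat_lit 5) (nat_lit 109802) (nat_lit
  11) (node (nat_lit 4) (nat_lit 109802) (nat_lit 12) nil (node (nat_lit 6) (nat_lit 109802)
  (nat_lit 12) nil nil)) (node (nat_lit 4) (nat_lit 109802) (nat_lit 11) nil nil)) (node (nat_lit
  4) (nat_lit 0) (nat_lit 10) (node (nat_lit 0) (nat_lit 109802) (nat_lit 11) (node (nat_lit 5)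
  (nat_lit 109802) (nat_lit 12) (node (nat_lit 4) (nat_lit 109802) (nat_lit 13) nil nil) nil) nil)
  nil)) (node (nat_lit 0) (nat_lit 0) (nat_lit 9) (node (nat_lit 5) (nat_lit 109802) (nat_lit 10)
  (node (nat_lit 4) (nat_lit 109802) (nat_lit 11) nil (node (nat_lit 6) (nat_lit 109802) (nat_lit
  11) nil nil)) (node (nat_lit 6) (nat_lit 109802) (nat_lit 10) (node (nat_lit 4) (nat_lit 109802)
  (nat_lit 11) nil (node (nat_lit 5) (nat_lit 109802) (nat_lit 11) nil nil)) (node (nat_lit 4)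
  (nat_lit 109802) (nat_lit 10) (node (nat_lit 6) (nat_lit 109802) (nat_lit 11) nil (node (nat_lit
  5) (nat_lit 109802) (nat_lit 11) nil nil)) (node (nat_lit 0) (nat_lit 109802) (nat_lit 10) nil
  nil)))) (node (nat_lit 6) (nat_lit 0) (nat_lit 9) (node (nat_lit 0) (nat_lit 109802) (nat_lit
  10) (node (nat_lit 6) (nat_lit 109802) (nat_lit 11) nil nil) (node (nat_lit 5) (nat_lit 0)
  (nat_lit 10) (node (nat_lit 0) (nat_lit 109802) (nat_lit 11) nil nil) nil)) nil))) (node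
  (nat_lit 0) (nat_lit 0) (nat_lit 8) (node (nat_lit 4) (nat_lit 109802) (nat_lit 9) (node
  (nat_lit 6) (nat_lit 109802) (nat_lit 10) (node (nat_lit 5) (nat_lit 109802) (nat_lit 11) nil
  nil) (node (nat_lit 5) (nat_lit 109802) (nat_lit 10) nil nil)) (node (nat_lit 5) (nat_lit
  109802) (nat_lit 9) (node (nat_lit 4) (nat_lit 109802) (nat_lit 10) (node (nat_lit 6) (nat_lit
  109802) (nat_lit 11) nil nil) (node (nat_lit 6) (nat_lit 109802) (nat_lit 10) (node (nat_lit 4)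
  (nat_lit 109802) (nat_lit 11) nil nil) nil)) (node (nat_lit 6) (nat_lit 109802) (nat_lit 9)
  (node (nat_lit 4) (nat_lit 109802) (nat_lit 10) (node (nat_lit 5) (nat_lit 109802) (nat_lit 11)
  nil nil) (node (nat_lit 5) (nat_lit 109802) (nat_lit 10) (node (nat_lit 4) (nat_lit 109802)
  (nat_lit 11) nil nil) nil)) (node (nat_lit 0) (nat_lit 109802) (nat_lit 9) nil nil)))) nil))
  nil) nil)) nil) nil)) (node (nat_lit 4) (nat_lit 0) (nat_lit 3) (node (nat_lit 3) (nat_lit 0)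
  (nat_lit 4) (node (nat_lit 5) (nat_lit 0) (nat_lit 5) (node (nat_lit 7) (nat_lit 0) (nat_lit 6)
  (node (nat_lit 4) (nat_lit 0) (nat_lit 7) (node (nat_lit 7) (nat_lit 0) (nat_lit 8) (node
  (nat_lit 0) (nat_lit 0) (nat_lit 9) (node (nat_lit 5) (nat_lit 0) (nat_lit 10) (node (nat_lit 7)
  (nat_lit 69950) (nat_lit 11) (node (nat_lit 5) (nat_lit 73404) (nat_lit 12) (node (nat_lit 4)
  (nat_lit 73816) (nat_lit 13) (node (nat_lit 7) (nat_lit 76818) (nat_lit 14) (node (nat_lit 4)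
  (nat_lit 77823) (nat_lit 15) (node (nat_lit 5) (nat_lit 77739) (nat_lit 16) nil nil) nil) (node
  (nat_lit 5) (nat_lit 76302) (nat_lit 14) (node (nat_lit 7) (nat_lit 75245) (nat_lit 15) nil nil)
  nil)) nil) (node (nat_lit 4) (nat_lit 72778) (nat_lit 12) (node (nat_lit 5) (nat_lit 74191)
  (nat_lit 13) nil (node (nat_lit 7) (nat_lit 75663) (nat_lit 13) nil nil)) (node (nat_lit 12)
  (nat_lit 77169) (nat_lit 12) nil nil))) (node (nat_lit 4) (nat_lit 70258) (nat_lit 11) (node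
  (nat_lit 7) (nat_lit 75035) (nat_lit 12) (node (nat_lit 5) (nat_lit 78738) (nat_lit 13) (node
  (nat_lit 7) (nat_lit 79000) (nat_lit 14) (node (nat_lit 4) (nat_lit 80187) (nat_lit 15) nil nil)
  (node (nat_lit 4) (nat_lit 79739) (nat_lit 14) nil nil)) (node (nat_lit 4) (nat_lit 78142)
  (nat_lit 13) (node (nat_lit 5) (nat_lit 79144) (nat_lit 14) nil nil) nil)) (node (nat_lit 5)
  (nat_lit 74029) (nat_lit 12) (node (nat_lit 7) (nat_lit 77495) (nat_lit 13) (node (nat_lit 4)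
  (nat_lit 79556) (nat_lit 14) nil (node (nat_lit 5) (nat_lit 78497) (nat_lit 14) nil nil)) nil)
  (node (nat_lit 12) (nat_lit 73327) (nat_lit 12) nil nil))) (node (nat_lit 12) (nat_lit 76542)
  (nat_lit 11) (node (nat_lit 7) (nat_lit 76542) (nat_lit 12) nil (node (nat_lit 4) (nat_lit
  76542) (nat_lit 12) nil nil)) (node (nat_lit 0) (nat_lit 71434) (nat_lit 11) nil nil)))) (node
  (nat_lit 4) (nat_lit 0) (nat_lit 10) (node (nat_lit 5) (nat_lit 69864) (nat_lit 11) (node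
  (nat_lit 7) (nat_lit 71994) (nat_lit 12) (node (nat_lit 4) (nat_lit 74384) (nat_lit 13) (node
  (nat_lit 7) (nat_lit 75386) (nat_lit 14) nil nil) (node (nat_lit 5) (nat_lit 75238) (nat_lit 13)
  (node (nat_lit 4) (nat_lit 76158) (nat_lit 14) nil nil) nil)) (node (nat_lit 4) (nat_lit 73657)
  (nat_lit 12) (node (nat_lit 7) (nat_lit 76592) (nat_lit 13) (node (nat_lit 4) (nat_lit 78652)
  (nat_lit 14) nil (node (nat_lit 5) (nat_lit 76804) (nat_lit 14) nil nil)) nil) nil)) (node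
  (nat_lit 7) (nat_lit 69383) (nat_lit 11) (node (nat_lit 4) (nat_lit 74160) (nat_lit 12) (node
  (nat_lit 5) (nat_lit 78591) (nat_lit 13) (node (nat_lit 4) (nat_lit 78803) (nat_lit 14) nil
  (node (nat_lit 7) (nat_lit 80651) (nat_lit 14) nil nil)) nil) (node (nat_lit 5) (nat_lit 74879)
  (nat_lit 12) (node (nat_lit 4) (nat_lit 76027) (nat_lit 13) nil (node (nat_lit 7) (nat_lit
  78892) (nat_lit 13) nil nil)) nil)) (node (nat_lit 12) (nat_lit 76042) (nat_lit 11) (node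
  (nat_lit 7) (nat_lit 76042) (nat_lit 12) nil nil) (node (nat_lit 0) (nat_lit 70868) (nat_lit 11)
  nil nil)))) (node (nat_lit 7) (nat_lit 0) (nat_lit 10) (node (nat_lit 4) (nat_lit 69435)
  (nat_lit 11) (node (nat_lit 5) (nat_lit 74723) (nat_lit 12) (node (nat_lit 4) (nat_lit 78228)
  (nat_lit 13) nil (node (nat_lit 7) (nat_lit 77829) (nat_lit 13) nil nil)) (node (nat_lit 7)
  (nat_lit 72580) (nat_lit 12) (node (nat_lit 5) (nat_lit 71561) (nat_lit 13) nil nil) nil)) (node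
  (nat_lit 5) (nat_lit 69606) (nat_lit 11) (node (nat_lit 7) (nat_lit 74030) (nat_lit 12) (node
  (nat_lit 4) (nat_lit 75315) (nat_lit 13) nil nil) (node (nat_lit 4) (nat_lit 74732) (nat_lit 12)
  (node (nat_lit 7) (nat_lit 78964) (nat_lit 13) nil nil) nil)) (node (nat_lit 0) (nat_lit 67520)
  (nat_lit 11) nil nil))) (node (nat_lit 0) (nat_lit 69937) (nat_lit 10) (node (nat_lit 7)
  (nat_lit 69685) (nat_lit 11) nil (node (nat_lit 12) (nat_lit 74440) (nat_lit 11) nil nil))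
  nil)))) (node (nat_lit 5) (nat_lit 0) (nat_lit 9) (node (nat_lit 0) (nat_lit 0) (nat_lit 10)
  (node (nat_lit 5) (nat_lit 0) (nat_lit 11) (node (nat_lit 7) (nat_lit 75894) (nat_lit 12) (node
  (nat_lit 4) (nat_lit 76998) (nat_lit 13) (node (nat_lit 5) (nat_lit 78117) (nat_lit 14) nil
  (node (nat_lit 7) (nat_lit 77946) (nat_lit 14) nil nil)) (node (nat_lit 5) (nat_lit 77157)
  (nat_lit 13) (node (nat_lit 4) (nat_lit 76849) (nat_lit 14) nil nil) (node (nat_lit 13) (nat_lit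
  78288) (nat_lit 13) nil nil))) (node (nat_lit 4) (nat_lit 76601) (nat_lit 12) (node (nat_lit 7)
  (nat_lit 79622) (nat_lit 13) (node (nat_lit 5) (nat_lit 79835) (nat_lit 14) nil (node (nat_lit
  4) (nat_lit 81682) (nat_lit 14) nil nil)) (node (nat_lit 5) (nat_lit 78782) (nat_lit 13) (node
  (nat_lit 7) (nat_lit 79784) (nat_lit 14) nil nil) nil)) (node (nat_lit 0) (nat_lit 77408)
  (nat_lit 12) nil nil))) (node (nat_lit 7) (nat_lit 73120) (nat_lit 11) (node (nat_lit 5)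
  (nat_lit 76282) (nat_lit 12) nil (node (nat_lit 13) (nat_lit 79201) (nat_lit 12) nil nil)) (node
  (nat_lit 4) (nat_lit 73427) (nat_lit 11) nil (node (nat_lit 0) (nat_lit 76691) (nat_lit 11) nil
  nil)))) (node (nat_lit 4) (nat_lit 0) (nat_lit 10) (node (nat_lit 0) (nat_lit 77448) (nat_lit
  11) (node (nat_lit 5) (nat_lit 78812) (nat_lit 12) (node (nat_lit 4) (nat_lit 81127) (nat_lit
  13) (node (nat_lit 7) (nat_lit 81073) (nat_lit 14) nil (node (nat_lit 5) (nat_lit 83203)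
  (nat_lit 14) nil nil)) nil) nil) nil) nil)) nil)) (node (nat_lit 5) (nat_lit 0) (nat_lit 8)
  (node (nat_lit 0) (nat_lit 0) (nat_lit 9) (node (nat_lit 7) (nat_lit 54821) (nat_lit 10) (node
  (nat_lit 5) (nat_lit 55731) (nat_lit 11) (node (nat_lit 7) (nat_lit 57466) (nat_lit 12) nil
  (node (nat_lit 4) (nat_lit 55731) (nat_lit 12) nil nil)) (node (nat_lit 4) (nat_lit 56335)
  (nat_lit 11) (node (nat_lit 5) (nat_lit 56487) (nat_lit 12) nil (node (nat_lit 7) (nat_lit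
  56335) (nat_lit 12) nil nil)) (node (nat_lit 12) (nat_lit 60200) (nat_lit 11) nil nil))) (node
  (nat_lit 4) (nat_lit 55179) (nat_lit 10) (node (nat_lit 5) (nat_lit 56327) (nat_lit 11) (node
  (nat_lit 4) (nat_lit 58062) (nat_lit 12) nil nil) (node (nat_lit 7) (nat_lit 55282) (nat_lit 11)
  nil (node (nat_lit 12) (nat_lit 60558) (nat_lit 11) nil nil))) (node (nat_lit 5) (nat_lit 55418)
  (nat_lit 10) (node (nat_lit 4) (nat_lit 58235) (nat_lit 11) nil (node (nat_lit 7) (nat_lit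
  55631) (nat_lit 11) nil nil)) (node (nat_lit 0) (nat_lit 58335) (nat_lit 10) nil nil)))) (node
  (nat_lit 7) (nat_lit 0) (nat_lit 9) (node (nat_lit 0) (nat_lit 59657) (nat_lit 10) (node
  (nat_lit 7) (nat_lit 0) (nat_lit 11) (node (nat_lit 5) (nat_lit 61209) (nat_lit 12) (node
  (nat_lit 13) (nat_lit 63604) (nat_lit 13) nil (node (nat_lit 4) (nat_lit 61209) (nat_lit 13) nil
  nil)) (node (nat_lit 4) (nat_lit 61668) (nat_lit 12) (node (nat_lit 5) (nat_lit 61668) (nat_lit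
  13) nil nil) (node (nat_lit 0) (nat_lit 62261) (nat_lit 12) nil nil))) (node (nat_lit 5)
  (nat_lit 60659) (nat_lit 11) nil nil)) (node (nat_lit 5) (nat_lit 0) (nat_lit 10) (node (nat_lit
  0) (nat_lit 64789) (nat_lit 11) (node (nat_lit 7) (nat_lit 65431) (nat_lit 12) (node (nat_lit 5)
  (nat_lit 66022) (nat_lit 13) (node (nat_lit 7) (nat_lit 66022) (nat_lit 14) nil (node (nat_lit
  4) (nat_lit 66022) (nat_lit 14) nil nil)) nil) nil) nil) nil)) (node (nat_lit 4) (nat_lit 0)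
  (nat_lit 9) (node (nat_lit 0) (nat_lit 59834) (nat_lit 10) (node (nat_lit 4) (nat_lit 59812)
  (nat_lit 11) (node (nat_lit 5) (nat_lit 59812) (nat_lit 12) nil (node (nat_lit 7) (nat_lit
  59812) (nat_lit 12) nil nil)) nil) (node (nat_lit 7) (nat_lit 0) (nat_lit 10) (node (nat_lit 0)
  (nat_lit 42305) (nat_lit 11) nil nil) nil)) nil))) (node (nat_lit 0) (nat_lit 0) (nat_lit 8)
  (node (nat_lit 7) (nat_lit 59904) (nat_lit 9) (node (nat_lit 5) (nat_lit 65335) (nat_lit 10)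
  (node (nat_lit 4) (nat_lit 69147) (nat_lit 11) (node (nat_lit 5) (nat_lit 67916) (nat_lit 12)
  nil (node (nat_lit 7) (nat_lit 70376) (nat_lit 12) nil nil)) (node (nat_lit 7) (nat_lit 67563)
  (nat_lit 11) nil nil)) (node (nat_lit 4) (nat_lit 65086) (nat_lit 10) (node (nat_lit 5) (nat_lit
  69064) (nat_lit 11) (node (nat_lit 4) (nat_lit 67834) (nat_lit 12) nil nil) (node (nat_lit 7)
  (nat_lit 69188) (nat_lit 11) nil nil)) (node (nat_lit 11) (nat_lit 69302) (nat_lit 10) nil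
  nil))) (node (nat_lit 5) (nat_lit 60473) (nat_lit 9) (node (nat_lit 4) (nat_lit 65442) (nat_lit
  10) (node (nat_lit 7) (nat_lit 70742) (nat_lit 11) (node (nat_lit 4) (nat_lit 71971) (nat_lit
  12) nil (node (nat_lit 5) (nat_lit 69512) (nat_lit 12) nil nil)) (node (nat_lit 5) (nat_lit
  69808) (nat_lit 11) nil nil)) (node (nat_lit 7) (nat_lit 64418) (nat_lit 10) (node (nat_lit 4)
  (nat_lit 66122) (nat_lit 11) (node (nat_lit 5) (nat_lit 67350) (nat_lit 12) nil (node (nat_lit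
  7) (nat_lit 67350) (nat_lit 12) nil nil)) (node (nat_lit 5) (nat_lit 66546) (nat_lit 11) nil
  nil)) (node (nat_lit 11) (nat_lit 62204) (nat_lit 10) nil nil))) (node (nat_lit 4) (nat_lit
  60096) (nat_lit 9) (node (nat_lit 5) (nat_lit 65527) (nat_lit 10) (node (nat_lit 7) (nat_lit
  69111) (nat_lit 11) nil (node (nat_lit 4) (nat_lit 67754) (nat_lit 11) nil nil)) (node (nat_lit
  7) (nat_lit 64967) (nat_lit 10) (node (nat_lit 5) (nat_lit 69502) (nat_lit 11) (node (nat_lit 4)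
  (nat_lit 68271) (nat_lit 12) nil (node (nat_lit 7) (nat_lit 70730) (nat_lit 12) nil nil)) (node
  (nat_lit 4) (nat_lit 67195) (nat_lit 11) nil nil)) nil)) (node (nat_lit 0) (nat_lit 58249)
  (nat_lit 9) nil nil)))) nil))) nil) (node (nat_lit 4) (nat_lit 0) (nat_lit 6) (node (nat_lit 5)
  (nat_lit 0) (nat_lit 7) (node (nat_lit 7) (nat_lit 0) (nat_lit 8) (node (nat_lit 0) (nat_lit 0)
  (nat_lit 9) (node (nat_lit 5) (nat_lit 103999) (nat_lit 10) (node (nat_lit 7) (nat_lit 104803)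
  (nat_lit 11) (node (nat_lit 5) (nat_lit 104955) (nat_lit 12) nil (node (nat_lit 4) (nat_lit
  106540) (nat_lit 12) nil nil)) (node (nat_lit 4) (nat_lit 106210) (nat_lit 11) (node (nat_lit 7)
  (nat_lit 106210) (nat_lit 12) nil nil) nil)) (node (nat_lit 4) (nat_lit 103976) (nat_lit 10)
  (node (nat_lit 7) (nat_lit 105616) (nat_lit 11) nil (node (nat_lit 5) (nat_lit 105367) (nat_lit
  11) nil nil)) (node (nat_lit 7) (nat_lit 103586) (nat_lit 10) (node (nat_lit 4) (nat_lit 103062)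
  (nat_lit 11) nil (node (nat_lit 5) (nat_lit 104272) (nat_lit 11) nil nil)) (node (nat_lit 0)
  (nat_lit 102668) (nat_lit 10) nil nil)))) (node (nat_lit 4) (nat_lit 0) (nat_lit 9) (node
  (nat_lit 0) (nat_lit 99125) (nat_lit 10) (node (nat_lit 4) (nat_lit 99125) (nat_lit 11) (node
  (nat_lit 7) (nat_lit 99125) (nat_lit 12) nil (node (nat_lit 5) (nat_lit 99125) (nat_lit 12) nil
  nil)) (node (nat_lit 7) (nat_lit 98874) (nat_lit 11) nil nil)) (node (nat_lit 5) (nat_lit 0)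
  (nat_lit 10) (node (nat_lit 0) (nat_lit 90211) (nat_lit 11) nil nil) (node (nat_lit 7) (nat_lit
  0) (nat_lit 10) (node (nat_lit 0) (nat_lit 104043) (nat_lit 11) nil nil) nil))) (node (nat_lit
  5) (nat_lit 0) (nat_lit 9) (node (nat_lit 0) (nat_lit 108381) (nat_lit 10) nil (node (nat_lit 4)
  (nat_lit 99757) (nat_lit 10) nil nil)) nil))) (node (nat_lit 0) (nat_lit 0) (nat_lit 8) (node
  (nat_lit 5) (nat_lit 99697) (nat_lit 9) (node (nat_lit 7) (nat_lit 100219) (nat_lit 10) (node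
  (nat_lit 4) (nat_lit 100219) (nat_lit 11) nil nil) (node (nat_lit 4) (nat_lit 102051) (nat_lit
  10) (node (nat_lit 7) (nat_lit 102051) (nat_lit 11) nil nil) nil)) (node (nat_lit 7) (nat_lit
  99655) (nat_lit 9) (node (nat_lit 5) (nat_lit 101095) (nat_lit 10) (node (nat_lit 4) (nat_lit
  101095) (nat_lit 11) nil nil) (node (nat_lit 4) (nat_lit 101367) (nat_lit 10) (node (nat_lit 5)
  (nat_lit 101367) (nat_lit 11) nil nil) nil)) (node (nat_lit 4) (nat_lit 100010) (nat_lit 9)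
  (node (nat_lit 5) (nat_lit 102748) (nat_lit 10) nil (node (nat_lit 7) (nat_lit 100901) (nat_lit
  10) nil nil)) (node (nat_lit 0) (nat_lit 97252) (nat_lit 9) nil nil)))) nil)) nil) nil)) (node
  (nat_lit 4) (nat_lit 0) (nat_lit 5) (node (nat_lit 5) (nat_lit 0) (nat_lit 6) (node (nat_lit 7)
  (nat_lit 0) (nat_lit 7) (node (nat_lit 0) (nat_lit 72012) (nat_lit 8) (node (nat_lit 7) (nat_lit
  73480) (nat_lit 9) (node (nat_lit 4) (nat_lit 74927) (nat_lit 10) (node (nat_lit 5) (nat_lit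
  76165) (nat_lit 11) nil nil) (node (nat_lit 5) (nat_lit 75413) (nat_lit 10) (node (nat_lit 4)
  (nat_lit 74316) (nat_lit 11) nil nil) nil)) (node (nat_lit 5) (nat_lit 73201) (nat_lit 9) (node
  (nat_lit 4) (nat_lit 74436) (nat_lit 10) (node (nat_lit 7) (nat_lit 73339) (nat_lit 11) nil nil)
  (node (nat_lit 7) (nat_lit 74923) (nat_lit 10) (node (nat_lit 4) (nat_lit 74923) (nat_lit 11)
  nil nil) (node (nat_lit 11) (nat_lit 74933) (nat_lit 10) nil nil))) (node (nat_lit 4) (nat_lit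
  73903) (nat_lit 9) (node (nat_lit 5) (nat_lit 75623) (nat_lit 10) (node (nat_lit 7) (nat_lit
  75623) (nat_lit 11) nil nil) (node (nat_lit 7) (nat_lit 75730) (nat_lit 10) (node (nat_lit 5)
  (nat_lit 75730) (nat_lit 11) nil nil) (node (nat_lit 11) (nat_lit 75634) (nat_lit 10) nil nil)))
  nil))) (node (nat_lit 5) (nat_lit 0) (nat_lit 8) (node (nat_lit 0) (nat_lit 0) (nat_lit 9) (node
  (nat_lit 4) (nat_lit 75267) (nat_lit 10) (node (nat_lit 5) (nat_lit 76624) (nat_lit 11) nil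
  (node (nat_lit 7) (nat_lit 76624) (nat_lit 11) nil nil)) (node (nat_lit 7) (nat_lit 75267)
  (nat_lit 10) (node (nat_lit 5) (nat_lit 75537) (nat_lit 11) nil (node (nat_lit 4) (nat_lit
  75394) (nat_lit 11) nil nil)) (node (nat_lit 5) (nat_lit 75267) (nat_lit 10) nil (node (nat_lit
  0) (nat_lit 76082) (nat_lit 10) nil nil)))) (node (nat_lit 4) (nat_lit 0) (nat_lit 9) (node
  (nat_lit 0) (nat_lit 79775) (nat_lit 10) (node (nat_lit 4) (nat_lit 79775) (nat_lit 11) nil nil)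
  (node (nat_lit 7) (nat_lit 0) (nat_lit 10) (node (nat_lit 0) (nat_lit 82956) (nat_lit 11) nil
  nil) (node (nat_lit 5) (nat_lit 0) (nat_lit 10) (node (nat_lit 0) (nat_lit 82589) (nat_lit 11)
  nil nil) nil))) nil)) (node (nat_lit 4) (nat_lit 0) (nat_lit 8) (node (nat_lit 0) (nat_lit 0)
  (nat_lit 9) (node (nat_lit 5) (nat_lit 76053) (nat_lit 10) (node (nat_lit 4) (nat_lit 76053)
  (nat_lit 11) nil (node (nat_lit 7) (nat_lit 76053) (nat_lit 11) nil nil)) (node (nat_lit 7)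
  (nat_lit 75113) (nat_lit 10) (node (nat_lit 4) (nat_lit 75113) (nat_lit 11) nil (node (nat_lit
  5) (nat_lit 75113) (nat_lit 11) nil nil)) (node (nat_lit 4) (nat_lit 76053) (nat_lit 10) nil
  (node (nat_lit 0) (nat_lit 76869) (nat_lit 10) nil nil)))) (node (nat_lit 7) (nat_lit 0)
  (nat_lit 9) (node (nat_lit 5) (nat_lit 0) (nat_lit 10) (node (nat_lit 0) (nat_lit 82841)
  (nat_lit 11) (node (nat_lit 7) (nat_lit 83127) (nat_lit 12) (node (nat_lit 5) (nat_lit 84176)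
  (nat_lit 13) (node (nat_lit 4) (nat_lit 83651) (nat_lit 14) nil (node (nat_lit 7) (nat_lit
  85141) (nat_lit 14) nil nil)) nil) nil) nil) (node (nat_lit 0) (nat_lit 79659) (nat_lit 10) nil
  nil)) nil)) nil))) nil) nil) nil)) nil) nil))

noncomputable def c76 : Tr :=
  (node (nat_lit 3) (nat_lit 0) (nat_lit 1) (node (nat_lit 3) (nat_lit 0) (nat_lit 2) t472 nil)
  nil)

noncomputable def t473 : Tr :=
  (node (nat_lit 4) (nat_lit 0) (nat_lit 4) (node (nat_lit 6) (nat_lit 0) (nat_lit 5) (node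
  (nat_lit 5) (nat_lit 0) (nat_lit 6) (node (nat_lit 4) (nat_lit 0) (nat_lit 7) (node (nat_lit 5)
  (nat_lit 0) (nat_lit 8) (node (nat_lit 6) (nat_lit 0) (nat_lit 9) (node (nat_lit 0) (nat_lit 0)
  (nat_lit 10) (node (nat_lit 6) (nat_lit 0) (nat_lit 11) (node (nat_lit 5) (nat_lit 102188)
  (nat_lit 12) (node (nat_lit 4) (nat_lit 106450) (nat_lit 13) (node (nat_lit 6) (nat_lit 104970)
  (nat_lit 14) nil nil) (node (nat_lit 6) (nat_lit 105739) (nat_lit 13) (node (nat_lit 4) (nat_lit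
  107790) (nat_lit 14) nil nil) (node (nat_lit 13) (nat_lit 108468) (nat_lit 13) nil nil))) (node
  (nat_lit 4) (nat_lit 102675) (nat_lit 12) (node (nat_lit 5) (nat_lit 104566) (nat_lit 13) (node
  (nat_lit 4) (nat_lit 104419) (nat_lit 14) nil nil) (node (nat_lit 6) (nat_lit 106659) (nat_lit
  13) (node (nat_lit 5) (nat_lit 105178) (nat_lit 14) nil nil) (node (nat_lit 0) (nat_lit 108955)
  (nat_lit 13) nil (node (nat_lit 13) (nat_lit 108955) (nat_lit 13) nil nil)))) (node (nat_lit 0)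
  (nat_lit 108237) (nat_lit 12) nil nil))) (node (nat_lit 5) (nat_lit 98937) (nat_lit 11) (node
  (nat_lit 13) (nat_lit 107346) (nat_lit 12) nil (node (nat_lit 6) (nat_lit 101981) (nat_lit 12)
  nil nil)) (node (nat_lit 4) (nat_lit 99688) (nat_lit 11) nil (node (nat_lit 0) (nat_lit 104041)
  (nat_lit 11) nil nil)))) (node (nat_lit 5) (nat_lit 0) (nat_lit 10) (node (nat_lit 0) (nat_lit
  104828) (nat_lit 11) (node (nat_lit 6) (nat_lit 105382) (nat_lit 12) (node (nat_lit 5) (nat_lit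
  105382) (nat_lit 13) nil nil) nil) nil) (node (nat_lit 4) (nat_lit 0) (nat_lit 10) (node
  (nat_lit 0) (nat_lit 90098) (nat_lit 11) (node (nat_lit 6) (nat_lit 90098) (nat_lit 12) (node
  (nat_lit 4) (nat_lit 90810) (nat_lit 13) nil nil) nil) nil) nil))) (node (nat_lit 0) (nat_lit 0)
  (nat_lit 9) (node (nat_lit 6) (nat_lit 129359) (nat_lit 10) (node (nat_lit 4) (nat_lit 133417)
  (nat_lit 11) (node (nat_lit 6) (nat_lit 137142) (nat_lit 12) (node (nat_lit 5) (nat_lit 140930)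
  (nat_lit 13) (node (nat_lit 4) (nat_lit 140156) (nat_lit 14) nil nil) nil) (node (nat_lit 5)
  (nat_lit 135802) (nat_lit 12) nil nil)) (node (nat_lit 5) (nat_lit 132725) (nat_lit 11) (node
  (nat_lit 6) (nat_lit 137279) (nat_lit 12) nil (node (nat_lit 4) (nat_lit 132562) (nat_lit 12)
  nil nil)) (node (nat_lit 12) (nat_lit 135356) (nat_lit 11) nil nil))) (node (nat_lit 4) (nat_lit
  126703) (nat_lit 10) (node (nat_lit 5) (nat_lit 131493) (nat_lit 11) (node (nat_lit 4) (nat_lit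
  135831) (nat_lit 12) (node (nat_lit 6) (nat_lit 132333) (nat_lit 13) nil nil) (node (nat_lit 6)
  (nat_lit 133058) (nat_lit 12) nil nil)) (node (nat_lit 6) (nat_lit 130253) (nat_lit 11) (node
  (nat_lit 4) (nat_lit 133623) (nat_lit 12) nil (node (nat_lit 5) (nat_lit 133623) (nat_lit 12)
  nil nil)) (node (nat_lit 12) (nat_lit 132699) (nat_lit 11) nil nil))) (node (nat_lit 5) (nat_lit
  126351) (nat_lit 10) (node (nat_lit 6) (nat_lit 131066) (nat_lit 11) (node (nat_lit 5) (nat_lit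
  134436) (nat_lit 12) nil nil) (node (nat_lit 4) (nat_lit 131692) (nat_lit 11) (node (nat_lit 6)
  (nat_lit 132075) (nat_lit 12) nil nil) nil)) (node (nat_lit 0) (nat_lit 134048) (nat_lit 10) nil
  nil)))) nil)) (node (nat_lit 0) (nat_lit 0) (nat_lit 8) (node (nat_lit 6) (nat_lit 142426)
  (nat_lit 9) (node (nat_lit 5) (nat_lit 147980) (nat_lit 10) (node (nat_lit 4) (nat_lit 152945)
  (nat_lit 11) nil (node (nat_lit 6) (nat_lit 151328) (nat_lit 11) nil nil)) (node (nat_lit 4)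
  (nat_lit 148877) (nat_lit 10) (node (nat_lit 5) (nat_lit 152225) (nat_lit 11) nil (node (nat_lit
  6) (nat_lit 148774) (nat_lit 11) nil nil)) nil)) (node (nat_lit 4) (nat_lit 142927) (nat_lit 9)
  (node (nat_lit 5) (nat_lit 148373) (nat_lit 10) (node (nat_lit 6) (nat_lit 148271) (nat_lit 11)
  nil nil) (node (nat_lit 6) (nat_lit 148085) (nat_lit 10) (node (nat_lit 5) (nat_lit 151434)
  (nat_lit 11) nil nil) nil)) (node (nat_lit 5) (nat_lit 143041) (nat_lit 9) (node (nat_lit 6)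
  (nat_lit 149836) (nat_lit 10) (node (nat_lit 4) (nat_lit 153184) (nat_lit 11) nil nil) (node
  (nat_lit 4) (nat_lit 150087) (nat_lit 10) (node (nat_lit 6) (nat_lit 149985) (nat_lit 11) nil
  nil) nil)) (node (nat_lit 0) (nat_lit 142876) (nat_lit 9) nil nil)))) (node (nat_lit 6) (nat_lit
  0) (nat_lit 8) (node (nat_lit 0) (nat_lit 0) (nat_lit 9) (node (nat_lit 4) (nat_lit 141759)
  (nat_lit 10) (node (nat_lit 6) (nat_lit 141759) (nat_lit 11) nil (node (nat_lit 5) (nat_lit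
  141759) (nat_lit 11) nil (node (nat_lit 12) (nat_lit 147756) (nat_lit 11) nil nil))) (node
  (nat_lit 5) (nat_lit 139127) (nat_lit 10) (node (nat_lit 6) (nat_lit 139127) (nat_lit 11) nil
  (node (nat_lit 4) (nat_lit 139127) (nat_lit 11) nil (node (nat_lit 12) (nat_lit 145124) (nat_lit
  11) nil nil))) (node (nat_lit 6) (nat_lit 142101) (nat_lit 10) (node (nat_lit 4) (nat_lit
  142101) (nat_lit 11) nil nil) (node (nat_lit 0) (nat_lit 141460) (nat_lit 10) nil nil)))) (node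
  (nat_lit 4) (nat_lit 0) (nat_lit 9) (node (nat_lit 0) (nat_lit 147327) (nat_lit 10) (node
  (nat_lit 4) (nat_lit 147327) (nat_lit 11) nil nil) (node (nat_lit 5) (nat_lit 0) (nat_lit 10)
  (node (nat_lit 0) (nat_lit 150832) (nat_lit 11) nil nil) nil)) nil)) nil))) (node (nat_lit 6)
  (nat_lit 0) (nat_lit 7) (node (nat_lit 4) (nat_lit 0) (nat_lit 8) (node (nat_lit 0) (nat_lit 0)
  (nat_lit 9) (node (nat_lit 5) (nat_lit 183764) (nat_lit 10) (node (nat_lit 6) (nat_lit 186447)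
  (nat_lit 11) nil (node (nat_lit 4) (nat_lit 183764) (nat_lit 11) nil nil)) (node (nat_lit 6)
  (nat_lit 181596) (nat_lit 10) (node (nat_lit 4) (nat_lit 180317) (nat_lit 11) (node (nat_lit 6)
  (nat_lit 180699) (nat_lit 12) nil nil) (node (nat_lit 5) (nat_lit 181596) (nat_lit 11) nil nil))
  (node (nat_lit 4) (nat_lit 182343) (nat_lit 10) (node (nat_lit 6) (nat_lit 185026) (nat_lit 11)
  nil (node (nat_lit 5) (nat_lit 182343) (nat_lit 11) nil nil)) (node (nat_lit 0) (nat_lit 185296)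
  (nat_lit 10) nil nil)))) (node (nat_lit 5) (nat_lit 0) (nat_lit 9) (node (nat_lit 0) (nat_lit
  192714) (nat_lit 10) (node (nat_lit 5) (nat_lit 192714) (nat_lit 11) nil nil) (node (nat_lit 4)
  (nat_lit 0) (nat_lit 10) (node (nat_lit 0) (nat_lit 192614) (nat_lit 11) nil nil) (node (nat_lit
  6) (nat_lit 0) (nat_lit 10) (node (nat_lit 0) (nat_lit 192724) (nat_lit 11) nil nil) nil)))
  nil)) (node (nat_lit 0) (nat_lit 177102) (nat_lit 8) (node (nat_lit 6) (nat_lit 180778) (nat_lit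
  9) (node (nat_lit 5) (nat_lit 180778) (nat_lit 10) nil nil) (node (nat_lit 4) (nat_lit 180874)
  (nat_lit 9) (node (nat_lit 6) (nat_lit 180874) (nat_lit 10) nil (node (nat_lit 5) (nat_lit
  180874) (nat_lit 10) nil nil)) (node (nat_lit 5) (nat_lit 180249) (nat_lit 9) (node (nat_lit 4)
  (nat_lit 180249) (nat_lit 10) nil (node (nat_lit 6) (nat_lit 180249) (nat_lit 10) nil nil))
  nil))) nil)) nil)) nil) (node (nat_lit 5) (nat_lit 0) (nat_lit 5) (node (nat_lit 4) (nat_lit 0)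
  (nat_lit 6) (node (nat_lit 6) (nat_lit 0) (nat_lit 7) (node (nat_lit 4) (nat_lit 0) (nat_lit 8)
  (node (nat_lit 0) (nat_lit 0) (nat_lit 9) (node (nat_lit 5) (nat_lit 99924) (nat_lit 10) (node
  (nat_lit 6) (nat_lit 102152) (nat_lit 11) (node (nat_lit 5) (nat_lit 104833) (nat_lit 12) (node
  (nat_lit 4) (nat_lit 106000) (nat_lit 13) nil nil) (node (nat_lit 4) (nat_lit 104302) (nat_lit
  12) nil nil)) (node (nat_lit 4) (nat_lit 102519) (nat_lit 11) (node (nat_lit 5) (nat_lit 103586)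
  (nat_lit 12) (node (nat_lit 6) (nat_lit 102357) (nat_lit 13) nil nil) (node (nat_lit 6) (nat_lit
  105754) (nat_lit 12) nil (node (nat_lit 12) (nat_lit 106095) (nat_lit 12) nil nil))) (node
  (nat_lit 12) (nat_lit 106000) (nat_lit 11) (node (nat_lit 4) (nat_lit 106000) (nat_lit 12) nil
  nil) nil))) (node (nat_lit 6) (nat_lit 101094) (nat_lit 10) (node (nat_lit 4) (nat_lit 103830)
  (nat_lit 11) (node (nat_lit 6) (nat_lit 106587) (nat_lit 12) (node (nat_lit 5) (nat_lit 107754)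
  (nat_lit 13) (node (nat_lit 4) (nat_lit 108665) (nat_lit 14) (node (nat_lit 5) (nat_lit 109377)
  (nat_lit 15) nil nil) nil) nil) (node (nat_lit 5) (nat_lit 104341) (nat_lit 12) nil nil)) (node
  (nat_lit 5) (nat_lit 103323) (nat_lit 11) (node (nat_lit 6) (nat_lit 106003) (nat_lit 12) nil
  (node (nat_lit 4) (nat_lit 106003) (nat_lit 12) nil nil)) (node (nat_lit 12) (nat_lit 107170)
  (nat_lit 11) nil nil))) (node (nat_lit 4) (nat_lit 100933) (nat_lit 10) (node (nat_lit 5)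
  (nat_lit 102902) (nat_lit 11) nil (node (nat_lit 6) (nat_lit 103670) (nat_lit 11) nil nil))
  (node (nat_lit 0) (nat_lit 103455) (nat_lit 10) (node (nat_lit 12) (nat_lit 104623) (nat_lit 11)
  nil nil) nil)))) (node (nat_lit 5) (nat_lit 0) (nat_lit 9) (node (nat_lit 0) (nat_lit 0)
  (nat_lit 10) (node (nat_lit 5) (nat_lit 0) (nat_lit 11) (node (nat_lit 6) (nat_lit 106531)
  (nat_lit 12) (node (nat_lit 4) (nat_lit 107699) (nat_lit 13) nil (node (nat_lit 5) (nat_lit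
  107699) (nat_lit 13) nil nil)) (node (nat_lit 4) (nat_lit 106587) (nat_lit 12) (node (nat_lit 6)
  (nat_lit 107754) (nat_lit 13) nil (node (nat_lit 5) (nat_lit 107248) (nat_lit 13) nil nil))
  (node (nat_lit 0) (nat_lit 106872) (nat_lit 12) nil nil))) (node (nat_lit 4) (nat_lit 105546)
  (nat_lit 11) (node (nat_lit 13) (nat_lit 107624) (nat_lit 12) nil (node (nat_lit 5) (nat_lit
  106587) (nat_lit 12) nil nil)) (node (nat_lit 6) (nat_lit 105685) (nat_lit 11) nil (node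
  (nat_lit 0) (nat_lit 107528) (nat_lit 11) nil nil)))) (node (nat_lit 6) (nat_lit 0) (nat_lit 10)
  (node (nat_lit 0) (nat_lit 107754) (nat_lit 11) (node (nat_lit 5) (nat_lit 107754) (nat_lit 12)
  nil nil) nil) nil)) nil)) (node (nat_lit 5) (nat_lit 0) (nat_lit 8) (node (nat_lit 0) (nat_lit
  0) (nat_lit 9) (node (nat_lit 4) (nat_lit 100933) (nat_lit 10) (node (nat_lit 5) (nat_lit
  102902) (nat_lit 11) (node (nat_lit 4) (nat_lit 103413) (nat_lit 12) nil (node (nat_lit 6)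
  (nat_lit 101411) (nat_lit 12) nil nil)) (node (nat_lit 6) (nat_lit 103162) (nat_lit 11) (node
  (nat_lit 5) (nat_lit 104659) (nat_lit 12) nil (node (nat_lit 4) (nat_lit 104659) (nat_lit 12)
  nil nil)) (node (nat_lit 12) (nat_lit 103598) (nat_lit 11) nil nil))) (node (nat_lit 6) (nat_lit
  101094) (nat_lit 10) (node (nat_lit 5) (nat_lit 103323) (nat_lit 11) (node (nat_lit 6) (nat_lit
  106003) (nat_lit 12) (node (nat_lit 4) (nat_lit 107170) (nat_lit 13) nil nil) nil) (node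
  (nat_lit 4) (nat_lit 101898) (nat_lit 11) (node (nat_lit 6) (nat_lit 100408) (nat_lit 12) nil
  (node (nat_lit 5) (nat_lit 103395) (nat_lit 12) nil nil)) (node (nat_lit 12) (nat_lit 103759)
  (nat_lit 11) nil nil))) (node (nat_lit 5) (nat_lit 99924) (nat_lit 10) (node (nat_lit 6)
  (nat_lit 102152) (nat_lit 11) nil (node (nat_lit 4) (nat_lit 102519) (nat_lit 11) nil nil))
  (node (nat_lit 0) (nat_lit 103455) (nat_lit 10) nil nil)))) (node (nat_lit 6) (nat_lit 0)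
  (nat_lit 9) (node (nat_lit 0) (nat_lit 104466) (nat_lit 10) (node (nat_lit 6) (nat_lit 105178)
  (nat_lit 11) (node (nat_lit 4) (nat_lit 105831) (nat_lit 12) nil (node (nat_lit 5) (nat_lit
  106361) (nat_lit 12) nil nil)) (node (nat_lit 5) (nat_lit 105178) (nat_lit 11) nil nil)) (node
  (nat_lit 4) (nat_lit 0) (nat_lit 10) (node (nat_lit 0) (nat_lit 107754) (nat_lit 11) nil nil)
  nil)) (node (nat_lit 4) (nat_lit 0) (nat_lit 9) (node (nat_lit 0) (nat_lit 103037) (nat_lit 10)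
  (node (nat_lit 4) (nat_lit 105006) (nat_lit 11) (node (nat_lit 5) (nat_lit 104021) (nat_lit 12)
  nil (node (nat_lit 6) (nat_lit 106190) (nat_lit 12) nil nil)) (node (nat_lit 5) (nat_lit 102955)
  (nat_lit 11) nil nil)) (node (nat_lit 5) (nat_lit 0) (nat_lit 10) (node (nat_lit 0) (nat_lit
  104936) (nat_lit 11) nil nil) nil)) nil))) (node (nat_lit 0) (nat_lit 0) (nat_lit 8) (node
  (nat_lit 5) (nat_lit 97352) (nat_lit 9) (node (nat_lit 4) (nat_lit 100698) (nat_lit 10) (node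
  (nat_lit 6) (nat_lit 104390) (nat_lit 11) nil nil) (node (nat_lit 6) (nat_lit 100859) (nat_lit
  10) (node (nat_lit 4) (nat_lit 101043) (nat_lit 11) nil nil) (node (nat_lit 11) (nat_lit 99480)
  (nat_lit 10) nil nil))) (node (nat_lit 6) (nat_lit 98881) (nat_lit 9) (node (nat_lit 5) (nat_lit
  101216) (nat_lit 10) (node (nat_lit 4) (nat_lit 103484) (nat_lit 11) nil nil) (node (nat_lit 4)
  (nat_lit 102388) (nat_lit 10) (node (nat_lit 5) (nat_lit 102573) (nat_lit 11) nil nil) nil))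
  (node (nat_lit 4) (nat_lit 98744) (nat_lit 9) (node (nat_lit 5) (nat_lit 101346) (nat_lit 10)
  (node (nat_lit 6) (nat_lit 104552) (nat_lit 11) nil nil) (node (nat_lit 6) (nat_lit 102251)
  (nat_lit 10) (node (nat_lit 5) (nat_lit 105231) (nat_lit 11) nil nil) nil)) (node (nat_lit 0)
  (nat_lit 98342) (nat_lit 9) nil nil)))) nil))) nil) nil) nil)) (node (nat_lit 5) (nat_lit 0)
  (nat_lit 4) (node (nat_lit 4) (nat_lit 0) (nat_lit 5) (node (nat_lit 6) (nat_lit 0) (nat_lit 6)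
  (node (nat_lit 4) (nat_lit 0) (nat_lit 7) (node (nat_lit 5) (nat_lit 0) (nat_lit 8) (node
  (nat_lit 4) (nat_lit 0) (nat_lit 9) (node (nat_lit 0) (nat_lit 0) (nat_lit 10) (node (nat_lit 4)
  (nat_lit 0) (nat_lit 11) (node (nat_lit 6) (nat_lit 114166) (nat_lit 12) (node (nat_lit 5)
  (nat_lit 121921) (nat_lit 13) (node (nat_lit 4) (nat_lit 126380) (nat_lit 14) (node (nat_lit 5)
  (nat_lit 127981) (nat_lit 15) nil (node (nat_lit 6) (nat_lit 125186) (nat_lit 15) nil nil))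
  (node (nat_lit 6) (nat_lit 126108) (nat_lit 14) (node (nat_lit 4) (nat_lit 125166) (nat_lit 15)
  nil nil) nil)) (node (nat_lit 4) (nat_lit 120858) (nat_lit 13) (node (nat_lit 5) (nat_lit
  122528) (nat_lit 14) (node (nat_lit 6) (nat_lit 122705) (nat_lit 15) nil nil) (node (nat_lit 13)
  (nat_lit 125759) (nat_lit 14) nil nil)) (node (nat_lit 13) (nat_lit 123295) (nat_lit 13) nil
  (node (nat_lit 0) (nat_lit 123295) (nat_lit 13) nil nil)))) (node (nat_lit 5) (nat_lit 113906)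
  (nat_lit 12) (node (nat_lit 6) (nat_lit 121906) (nat_lit 13) (node (nat_lit 4) (nat_lit 124662)
  (nat_lit 14) (node (nat_lit 6) (nat_lit 124839) (nat_lit 15) nil nil) (node (nat_lit 5) (nat_lit
  125266) (nat_lit 14) (node (nat_lit 4) (nat_lit 126077) (nat_lit 15) nil nil) nil)) (node
  (nat_lit 4) (nat_lit 118665) (nat_lit 13) (node (nat_lit 6) (nat_lit 119574) (nat_lit 14) nil
  nil) (node (nat_lit 13) (nat_lit 126221) (nat_lit 13) (node (nat_lit 4) (nat_lit 126221)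
  (nat_lit 14) nil nil) (node (nat_lit 0) (nat_lit 120186) (nat_lit 13) nil nil)))) (node (nat_lit
  0) (nat_lit 119953) (nat_lit 12) (node (nat_lit 13) (nat_lit 121555) (nat_lit 13) nil nil)
  nil))) (node (nat_lit 5) (nat_lit 107936) (nat_lit 11) (node (nat_lit 13) (nat_lit 120441)
  (nat_lit 12) (node (nat_lit 4) (nat_lit 120441) (nat_lit 13) (node (nat_lit 13) (nat_lit 123291)
  (nat_lit 14) nil nil) nil) (node (nat_lit 4) (nat_lit 113828) (nat_lit 12) (node (nat_lit 5)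
  (nat_lit 121056) (nat_lit 13) nil nil) (node (nat_lit 6) (nat_lit 114554) (nat_lit 12) nil
  nil))) (node (nat_lit 6) (nat_lit 108792) (nat_lit 11) (node (nat_lit 4) (nat_lit 114685)
  (nat_lit 12) nil (node (nat_lit 13) (nat_lit 121199) (nat_lit 12) nil nil)) (node (nat_lit 0)
  (nat_lit 112721) (nat_lit 11) (node (nat_lit 4) (nat_lit 112341) (nat_lit 12) nil nil) nil))))
  (node (nat_lit 6) (nat_lit 0) (nat_lit 10) (node (nat_lit 0) (nat_lit 114879) (nat_lit 11) (node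
  (nat_lit 4) (nat_lit 117536) (nat_lit 12) (node (nat_lit 6) (nat_lit 122320) (nat_lit 13) (node
  (nat_lit 5) (nat_lit 123397) (nat_lit 14) nil (node (nat_lit 4) (nat_lit 126764) (nat_lit 14)
  nil nil)) nil) nil) nil) nil)) (node (nat_lit 0) (nat_lit 0) (nat_lit 9) (node (nat_lit 6)
  (nat_lit 97487) (nat_lit 10) (node (nat_lit 5) (nat_lit 105005) (nat_lit 11) (node (nat_lit 6)
  (nat_lit 111611) (nat_lit 12) (node (nat_lit 4) (nat_lit 114237) (nat_lit 13) nil nil) (node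
  (nat_lit 4) (nat_lit 113024) (nat_lit 12) nil nil)) (node (nat_lit 4) (nat_lit 103456) (nat_lit
  11) (node (nat_lit 6) (nat_lit 106675) (nat_lit 12) (node (nat_lit 5) (nat_lit 104215) (nat_lit
  13) nil nil) (node (nat_lit 5) (nat_lit 106033) (nat_lit 12) nil nil)) (node (nat_lit 12)
  (nat_lit 110863) (nat_lit 11) nil nil))) (node (nat_lit 4) (nat_lit 96627) (nat_lit 10) (node
  (nat_lit 5) (nat_lit 104468) (nat_lit 11) (node (nat_lit 4) (nat_lit 110674) (nat_lit 12) (node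
  (nat_lit 6) (nat_lit 115143) (nat_lit 13) nil nil) (node (nat_lit 6) (nat_lit 110485) (nat_lit
  12) nil nil)) (node (nat_lit 6) (nat_lit 104843) (nat_lit 11) (node (nat_lit 5) (nat_lit 110610)
  (nat_lit 12) nil (node (nat_lit 4) (nat_lit 108214) (nat_lit 12) nil nil)) (node (nat_lit 12)
  (nat_lit 108226) (nat_lit 11) nil nil))) (node (nat_lit 5) (nat_lit 96917) (nat_lit 10) (node
  (nat_lit 4) (nat_lit 104286) (nat_lit 11) (node (nat_lit 5) (nat_lit 107656) (nat_lit 12) nil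
  nil) (node (nat_lit 6) (nat_lit 105134) (nat_lit 11) nil nil)) (node (nat_lit 0) (nat_lit
  103010) (nat_lit 10) nil nil)))) (node (nat_lit 6) (nat_lit 0) (nat_lit 9) (node (nat_lit 0)
  (nat_lit 90218) (nat_lit 10) (node (nat_lit 6) (nat_lit 0) (nat_lit 11) (node (nat_lit 5)
  (nat_lit 96961) (nat_lit 12) (node (nat_lit 4) (nat_lit 96755) (nat_lit 13) nil nil) (node
  (nat_lit 4) (nat_lit 93021) (nat_lit 12) nil (node (nat_lit 0) (nat_lit 97379) (nat_lit 12) nil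
  nil))) (node (nat_lit 5) (nat_lit 92337) (nat_lit 11) nil nil)) (node (nat_lit 5) (nat_lit 0)
  (nat_lit 10) (node (nat_lit 0) (nat_lit 97436) (nat_lit 11) (node (nat_lit 6) (nat_lit 97403)
  (nat_lit 12) nil nil) nil) (node (nat_lit 4) (nat_lit 0) (nat_lit 10) (node (nat_lit 0) (nat_lit
  97169) (nat_lit 11) (node (nat_lit 6) (nat_lit 98684) (nat_lit 12) nil nil) nil) nil))) nil)))
  (node (nat_lit 0) (nat_lit 127803) (nat_lit 8) (node (nat_lit 6) (nat_lit 134024) (nat_lit 9)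
  (node (nat_lit 5) (nat_lit 134024) (nat_lit 10) nil (node (nat_lit 4) (nat_lit 134024) (nat_lit
  10) nil nil)) (node (nat_lit 5) (nat_lit 138665) (nat_lit 9) (node (nat_lit 4) (nat_lit 138665)
  (nat_lit 10) nil (node (nat_lit 6) (nat_lit 138665) (nat_lit 10) nil nil)) (node (nat_lit 4)
  (nat_lit 134738) (nat_lit 9) (node (nat_lit 6) (nat_lit 134738) (nat_lit 10) nil nil) nil)))
  nil)) (node (nat_lit 5) (nat_lit 0) (nat_lit 7) (node (nat_lit 6) (nat_lit 0) (nat_lit 8) (node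
  (nat_lit 0) (nat_lit 0) (nat_lit 9) (node (nat_lit 4) (nat_lit 156768) (nat_lit 10) (node
  (nat_lit 5) (nat_lit 159359) (nat_lit 11) (node (nat_lit 4) (nat_lit 163379) (nat_lit 12) (node
  (nat_lit 6) (nat_lit 163902) (nat_lit 13) nil nil) (node (nat_lit 6) (nat_lit 159741) (nat_lit
  12) nil nil)) (node (nat_lit 6) (nat_lit 158946) (nat_lit 11) nil nil)) (node (nat_lit 5)
  (nat_lit 157305) (nat_lit 10) (node (nat_lit 6) (nat_lit 161448) (nat_lit 11) (node (nat_lit 5)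
  (nat_lit 164818) (nat_lit 12) nil nil) (node (nat_lit 4) (nat_lit 158653) (nat_lit 11) nil nil))
  (node (nat_lit 6) (nat_lit 156830) (nat_lit 10) (node (nat_lit 4) (nat_lit 157621) (nat_lit 11)
  (node (nat_lit 6) (nat_lit 158003) (nat_lit 12) nil nil) (node (nat_lit 5) (nat_lit 160392)
  (nat_lit 11) nil nil)) (node (nat_lit 0) (nat_lit 154643) (nat_lit 10) nil nil)))) (node
  (nat_lit 4) (nat_lit 0) (nat_lit 9) (node (nat_lit 0) (nat_lit 162242) (nat_lit 10) (node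
  (nat_lit 4) (nat_lit 165576) (nat_lit 11) (node (nat_lit 5) (nat_lit 164782) (nat_lit 12) nil
  nil) nil) (node (nat_lit 6) (nat_lit 0) (nat_lit 10) (node (nat_lit 0) (nat_lit 172469) (nat_lit
  11) nil nil) (node (nat_lit 5) (nat_lit 0) (nat_lit 10) (node (nat_lit 0) (nat_lit 156881)
  (nat_lit 11) (node (nat_lit 4) (nat_lit 156501) (nat_lit 12) nil nil) nil) nil))) nil)) (node
  (nat_lit 0) (nat_lit 0) (nat_lit 8) (node (nat_lit 4) (nat_lit 149373) (nat_lit 9) (node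
  (nat_lit 6) (nat_lit 158047) (nat_lit 10) (node (nat_lit 5) (nat_lit 160128) (nat_lit 11) nil
  (node (nat_lit 4) (nat_lit 161395) (nat_lit 11) nil nil)) (node (nat_lit 5) (nat_lit 160264)
  (nat_lit 10) (node (nat_lit 6) (nat_lit 164306) (nat_lit 11) nil nil) nil)) (node (nat_lit 6)
  (nat_lit 149723) (nat_lit 9) (node (nat_lit 4) (nat_lit 158529) (nat_lit 10) (node (nat_lit 5)
  (nat_lit 161877) (nat_lit 11) nil nil) (node (nat_lit 5) (nat_lit 159401) (nat_lit 10) nil nil))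
  (node (nat_lit 5) (nat_lit 150207) (nat_lit 9) (node (nat_lit 6) (nat_lit 161016) (nat_lit 10)
  (node (nat_lit 4) (nat_lit 164364) (nat_lit 11) nil nil) (node (nat_lit 4) (nat_lit 161016)
  (nat_lit 10) (node (nat_lit 6) (nat_lit 160913) (nat_lit 11) nil nil) nil)) (node (nat_lit 0)
  (nat_lit 146141) (nat_lit 9) nil nil)))) nil)) nil)) (node (nat_lit 5) (nat_lit 0) (nat_lit 6)
  (node (nat_lit 6) (nat_lit 0) (nat_lit 7) (node (nat_lit 4) (nat_lit 0) (nat_lit 8) (node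
  (nat_lit 0) (nat_lit 0) (nat_lit 9) (node (nat_lit 6) (nat_lit 116745) (nat_lit 10) (node
  (nat_lit 4) (nat_lit 119349) (nat_lit 11) (node (nat_lit 6) (nat_lit 121630) (nat_lit 12) (node
  (nat_lit 5) (nat_lit 120257) (nat_lit 13) nil nil) (node (nat_lit 5) (nat_lit 121222) (nat_lit
  12) nil nil)) (node (nat_lit 5) (nat_lit 118613) (nat_lit 11) (node (nat_lit 6) (nat_lit 120486)
  (nat_lit 12) nil (node (nat_lit 4) (nat_lit 116953) (nat_lit 12) nil nil)) (node (nat_lit 12)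
  (nat_lit 120077) (nat_lit 11) nil nil))) (node (nat_lit 5) (nat_lit 117805) (nat_lit 10) (node
  (nat_lit 4) (nat_lit 120571) (nat_lit 11) (node (nat_lit 5) (nat_lit 124496) (nat_lit 12) nil
  (node (nat_lit 6) (nat_lit 122444) (nat_lit 12) nil nil)) (node (nat_lit 6) (nat_lit 120408)
  (nat_lit 11) (node (nat_lit 4) (nat_lit 124333) (nat_lit 12) nil nil) (node (nat_lit 12)
  (nat_lit 121137) (nat_lit 11) nil nil))) (node (nat_lit 4) (nat_lit 117166) (nat_lit 10) (node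
  (nat_lit 6) (nat_lit 120091) (nat_lit 11) nil (node (nat_lit 5) (nat_lit 119355) (nat_lit 11)
  nil nil)) (node (nat_lit 0) (nat_lit 121540) (nat_lit 10) nil nil)))) (node (nat_lit 6) (nat_lit
  0) (nat_lit 9) (node (nat_lit 0) (nat_lit 122019) (nat_lit 10) (node (nat_lit 6) (nat_lit
  122731) (nat_lit 11) (node (nat_lit 5) (nat_lit 122923) (nat_lit 12) nil (node (nat_lit 4)
  (nat_lit 124783) (nat_lit 12) nil nil)) (node (nat_lit 4) (nat_lit 122731) (nat_lit 11) nil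
  nil)) (node (nat_lit 5) (nat_lit 0) (nat_lit 10) (node (nat_lit 0) (nat_lit 127605) (nat_lit 11)
  nil nil) nil)) (node (nat_lit 5) (nat_lit 0) (nat_lit 9) (node (nat_lit 0) (nat_lit 123208)
  (nat_lit 10) (node (nat_lit 5) (nat_lit 123920) (nat_lit 11) (node (nat_lit 4) (nat_lit 125972)
  (nat_lit 12) nil (node (nat_lit 6) (nat_lit 123920) (nat_lit 12) nil nil)) (node (nat_lit 4)
  (nat_lit 122496) (nat_lit 11) nil nil)) (node (nat_lit 4) (nat_lit 0) (nat_lit 10) (node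
  (nat_lit 0) (nat_lit 127431) (nat_lit 11) nil nil) nil)) nil))) (node (nat_lit 0) (nat_lit 0)
  (nat_lit 8) (node (nat_lit 4) (nat_lit 112331) (nat_lit 9) (node (nat_lit 5) (nat_lit 117614)
  (nat_lit 10) (node (nat_lit 6) (nat_lit 122125) (nat_lit 11) nil (node (nat_lit 4) (nat_lit
  115772) (nat_lit 11) nil nil)) (node (nat_lit 6) (nat_lit 115626) (nat_lit 10) (node (nat_lit 5)
  (nat_lit 115574) (nat_lit 11) nil (node (nat_lit 4) (nat_lit 117510) (nat_lit 11) nil nil))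
  nil)) (node (nat_lit 6) (nat_lit 111020) (nat_lit 9) (node (nat_lit 4) (nat_lit 116953) (nat_lit
  10) (node (nat_lit 5) (nat_lit 119993) (nat_lit 11) nil nil) (node (nat_lit 5) (nat_lit 118255)
  (nat_lit 10) (node (nat_lit 4) (nat_lit 119965) (nat_lit 11) nil nil) nil)) (node (nat_lit 5)
  (nat_lit 113878) (nat_lit 9) (node (nat_lit 4) (nat_lit 119341) (nat_lit 10) (node (nat_lit 6)
  (nat_lit 121020) (nat_lit 11) nil nil) (node (nat_lit 6) (nat_lit 117173) (nat_lit 10) (node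
  (nat_lit 4) (nat_lit 121684) (nat_lit 11) nil nil) nil)) (node (nat_lit 0) (nat_lit 112543)
  (nat_lit 9) nil nil)))) nil)) nil) nil)) nil) nil))

noncomputable def c75 : Tr :=
  (node (nat_lit 3) (nat_lit 0) (nat_lit 1) (node (nat_lit 3) (nat_lit 0) (nat_lit 2) (node
  (nat_lit 3) (nat_lit 0) (nat_lit 3) t473 (node (nat_lit 4) (nat_lit 0) (nat_lit 3) (node
  (nat_lit 3) (nat_lit 0) (nat_lit 4) (node (nat_lit 5) (nat_lit 0) (nat_lit 5) (node (nat_lit 7)
  (nat_lit 0) (nat_lit 6) (node (nat_lit 4) (nat_lit 0) (nat_lit 7) (node (nat_lit 7) (nat_lit 0)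
  (nat_lit 8) (node (nat_lit 0) (nat_lit 0) (nat_lit 9) (node (nat_lit 5) (nat_lit 52917) (nat_lit
  10) (node (nat_lit 4) (nat_lit 58578) (nat_lit 11) (node (nat_lit 5) (nat_lit 60339) (nat_lit
  12) (node (nat_lit 7) (nat_lit 64467) (nat_lit 13) (node (nat_lit 4) (nat_lit 65406) (nat_lit
  14) nil nil) nil) (node (nat_lit 7) (nat_lit 61627) (nat_lit 12) nil nil)) (node (nat_lit 7)
  (nat_lit 58578) (nat_lit 11) (node (nat_lit 5) (nat_lit 61402) (nat_lit 12) (node (nat_lit 4)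
  (nat_lit 60123) (nat_lit 13) nil nil) (node (nat_lit 4) (nat_lit 62194) (nat_lit 12) nil (node
  (nat_lit 12) (nat_lit 63222) (nat_lit 12) nil nil))) (node (nat_lit 12) (nat_lit 63584) (nat_lit
  11) (node (nat_lit 7) (nat_lit 63584) (nat_lit 12) nil (node (nat_lit 4) (nat_lit 63584)
  (nat_lit 12) nil nil)) nil))) (node (nat_lit 4) (nat_lit 53085) (nat_lit 10) (node (nat_lit 7)
  (nat_lit 59046) (nat_lit 11) (node (nat_lit 4) (nat_lit 64688) (nat_lit 12) (node (nat_lit 5)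
  (nat_lit 66204) (nat_lit 13) nil nil) (node (nat_lit 5) (nat_lit 63191) (nat_lit 12) nil nil))
  (node (nat_lit 5) (nat_lit 58932) (nat_lit 11) (node (nat_lit 4) (nat_lit 60164) (nat_lit 12)
  (node (nat_lit 7) (nat_lit 58229) (nat_lit 13) nil nil) (node (nat_lit 7) (nat_lit 64176)
  (nat_lit 12) nil nil)) (node (nat_lit 12) (nat_lit 64258) (nat_lit 11) (node (nat_lit 7)
  (nat_lit 64258) (nat_lit 12) nil nil) nil))) (node (nat_lit 7) (nat_lit 52829) (nat_lit 10)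
  (node (nat_lit 5) (nat_lit 58830) (nat_lit 11) nil (node (nat_lit 4) (nat_lit 59066) (nat_lit
  11) nil nil)) (node (nat_lit 0) (nat_lit 57177) (nat_lit 10) (node (nat_lit 12) (nat_lit 60745)
  (nat_lit 11) nil nil) nil)))) (node (nat_lit 5) (nat_lit 0) (nat_lit 9) (node (nat_lit 0)
  (nat_lit 0) (nat_lit 10) (node (nat_lit 5) (nat_lit 0) (nat_lit 11) (node (nat_lit 4) (nat_lit
  64257) (nat_lit 12) (node (nat_lit 7) (nat_lit 66668) (nat_lit 13) nil (node (nat_lit 5)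
  (nat_lit 65556) (nat_lit 13) (node (nat_lit 7) (nat_lit 63751) (nat_lit 14) nil nil) nil)) (node
  (nat_lit 7) (nat_lit 64566) (nat_lit 12) (node (nat_lit 4) (nat_lit 67823) (nat_lit 13) (node
  (nat_lit 5) (nat_lit 69006) (nat_lit 14) nil nil) (node (nat_lit 5) (nat_lit 66259) (nat_lit 13)
  nil nil)) (node (nat_lit 0) (nat_lit 66501) (nat_lit 12) nil nil))) (node (nat_lit 7) (nat_lit
  61080) (nat_lit 11) (node (nat_lit 13) (nat_lit 67433) (nat_lit 12) nil (node (nat_lit 5)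
  (nat_lit 64847) (nat_lit 12) nil nil)) (node (nat_lit 0) (nat_lit 63840) (nat_lit 11) nil (node
  (nat_lit 4) (nat_lit 61356) (nat_lit 11) nil nil)))) (node (nat_lit 4) (nat_lit 0) (nat_lit 10)
  (node (nat_lit 0) (nat_lit 64126) (nat_lit 11) (node (nat_lit 5) (nat_lit 65805) (nat_lit 12)
  nil nil) nil) nil)) nil)) (node (nat_lit 5) (nat_lit 0) (nat_lit 8) (node (nat_lit 0) (nat_lit
  0) (nat_lit 9) (node (nat_lit 7) (nat_lit 36677) (nat_lit 10) (node (nat_lit 5) (nat_lit 41119)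
  (nat_lit 11) (node (nat_lit 7) (nat_lit 45115) (nat_lit 12) nil (node (nat_lit 4) (nat_lit
  39578) (nat_lit 12) nil nil)) (node (nat_lit 4) (nat_lit 41694) (nat_lit 11) (node (nat_lit 5)
  (nat_lit 43831) (nat_lit 12) nil (node (nat_lit 7) (nat_lit 43639) (nat_lit 12) nil nil)) (node
  (nat_lit 12) (nat_lit 44817) (nat_lit 11) nil nil))) (node (nat_lit 4) (nat_lit 36562) (nat_lit
  10) (node (nat_lit 5) (nat_lit 41009) (nat_lit 11) (node (nat_lit 4) (nat_lit 45896) (nat_lit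
  12) (node (nat_lit 7) (nat_lit 43961) (nat_lit 13) nil nil) (node (nat_lit 7) (nat_lit 42954)
  (nat_lit 12) nil nil)) (node (nat_lit 7) (nat_lit 39534) (nat_lit 11) (node (nat_lit 4) (nat_lit
  41478) (nat_lit 12) nil (node (nat_lit 5) (nat_lit 37993) (nat_lit 12) nil nil)) (node (nat_lit
  12) (nat_lit 46515) (nat_lit 11) nil nil))) (node (nat_lit 5) (nat_lit 36088) (nat_lit 10) (node
  (nat_lit 4) (nat_lit 40530) (nat_lit 11) nil (node (nat_lit 7) (nat_lit 40530) (nat_lit 11) nil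
  nil)) (node (nat_lit 0) (nat_lit 40626) (nat_lit 10) nil nil)))) (node (nat_lit 4) (nat_lit 0)
  (nat_lit 9) (node (nat_lit 0) (nat_lit 41307) (nat_lit 10) (node (nat_lit 4) (nat_lit 43144)
  (nat_lit 11) (node (nat_lit 7) (nat_lit 45346) (nat_lit 12) nil (node (nat_lit 5) (nat_lit
  43337) (nat_lit 12) nil nil)) (node (nat_lit 5) (nat_lit 42798) (nat_lit 11) nil nil)) (node
  (nat_lit 7) (nat_lit 0) (nat_lit 10) (node (nat_lit 0) (nat_lit 32049) (nat_lit 11) nil nil)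
  nil)) (node (nat_lit 7) (nat_lit 0) (nat_lit 9) (node (nat_lit 0) (nat_lit 41288) (nat_lit 10)
  (node (nat_lit 7) (nat_lit 43102) (nat_lit 11) (node (nat_lit 5) (nat_lit 43295) (nat_lit 12)
  nil (node (nat_lit 4) (nat_lit 45154) (nat_lit 12) nil nil)) (node (nat_lit 5) (nat_lit 43102)
  (nat_lit 11) nil nil)) (node (nat_lit 5) (nat_lit 0) (nat_lit 10) (node (nat_lit 0) (nat_lit
  46670) (nat_lit 11) nil nil) nil)) nil))) (node (nat_lit 0) (nat_lit 0) (nat_lit 8) (node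
  (nat_lit 5) (nat_lit 47957) (nat_lit 9) (node (nat_lit 7) (nat_lit 55213) (nat_lit 10) (node
  (nat_lit 4) (nat_lit 59876) (nat_lit 11) nil (node (nat_lit 5) (nat_lit 57071) (nat_lit 11) nil
  nil)) (node (nat_lit 4) (nat_lit 55237) (nat_lit 10) (node (nat_lit 7) (nat_lit 59239) (nat_lit
  11) nil (node (nat_lit 5) (nat_lit 53375) (nat_lit 11) nil nil)) (node (nat_lit 11) (nat_lit
  50576) (nat_lit 10) nil nil))) (node (nat_lit 4) (nat_lit 48040) (nat_lit 9) (node (nat_lit 5)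
  (nat_lit 55631) (nat_lit 10) (node (nat_lit 7) (nat_lit 61719) (nat_lit 11) nil nil) (node
  (nat_lit 7) (nat_lit 55701) (nat_lit 10) (node (nat_lit 5) (nat_lit 58557) (nat_lit 11) nil nil)
  nil)) (node (nat_lit 7) (nat_lit 48198) (nat_lit 9) (node (nat_lit 5) (nat_lit 54892) (nat_lit
  10) (node (nat_lit 4) (nat_lit 58224) (nat_lit 11) nil nil) (node (nat_lit 4) (nat_lit 55550)
  (nat_lit 10) (node (nat_lit 5) (nat_lit 57639) (nat_lit 11) nil nil) (node (nat_lit 11) (nat_lit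
  60047) (nat_lit 10) nil nil))) (node (nat_lit 0) (nat_lit 44428) (nat_lit 9) nil nil)))) nil)))
  nil) (node (nat_lit 4) (nat_lit 0) (nat_lit 6) (node (nat_lit 5) (nat_lit 0) (nat_lit 7) (node
  (nat_lit 7) (nat_lit 0) (nat_lit 8) (node (nat_lit 5) (nat_lit 0) (nat_lit 9) (node (nat_lit 0)
  (nat_lit 0) (nat_lit 10) (node (nat_lit 5) (nat_lit 0) (nat_lit 11) (node (nat_lit 4) (nat_lit
  101898) (nat_lit 12) (node (nat_lit 7) (nat_lit 106837) (nat_lit 13) (node (nat_lit 5) (nat_lit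
  107095) (nat_lit 14) nil (node (nat_lit 4) (nat_lit 108020) (nat_lit 14) nil nil)) (node
  (nat_lit 5) (nat_lit 106556) (nat_lit 13) (node (nat_lit 7) (nat_lit 106760) (nat_lit 14) (node
  (nat_lit 4) (nat_lit 108011) (nat_lit 15) nil nil) nil) (node (nat_lit 0) (nat_lit 105522)
  (nat_lit 13) nil (node (nat_lit 13) (nat_lit 105522) (nat_lit 13) nil nil)))) (node (nat_lit 7)
  (nat_lit 100727) (nat_lit 12) (node (nat_lit 4) (nat_lit 106660) (nat_lit 13) (node (nat_lit 5)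
  (nat_lit 107843) (nat_lit 14) nil (node (nat_lit 7) (nat_lit 107843) (nat_lit 14) nil nil))
  (node (nat_lit 5) (nat_lit 104396) (nat_lit 13) (node (nat_lit 4) (nat_lit 103817) (nat_lit 14)
  nil nil) (node (nat_lit 13) (nat_lit 104350) (nat_lit 13) nil nil))) (node (nat_lit 0) (nat_lit
  104930) (nat_lit 12) nil nil))) (node (nat_lit 7) (nat_lit 96761) (nat_lit 11) (node (nat_lit 5)
  (nat_lit 101234) (nat_lit 12) (node (nat_lit 7) (nat_lit 105890) (nat_lit 13) nil nil) (node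
  (nat_lit 13) (nat_lit 105080) (nat_lit 12) (node (nat_lit 5) (nat_lit 105080) (nat_lit 13) nil
  nil) (node (nat_lit 4) (nat_lit 101712) (nat_lit 12) nil nil))) (node (nat_lit 4) (nat_lit
  97849) (nat_lit 11) (node (nat_lit 5) (nat_lit 102397) (nat_lit 12) nil (node (nat_lit 13)
  (nat_lit 106169) (nat_lit 12) nil nil)) (node (nat_lit 0) (nat_lit 100123) (nat_lit 11) (node
  (nat_lit 5) (nat_lit 100810) (nat_lit 12) nil nil) nil)))) (node (nat_lit 4) (nat_lit 0)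
  (nat_lit 10) (node (nat_lit 0) (nat_lit 101392) (nat_lit 11) (node (nat_lit 5) (nat_lit 104045)
  (nat_lit 12) (node (nat_lit 4) (nat_lit 107654) (nat_lit 13) (node (nat_lit 7) (nat_lit 108805)
  (nat_lit 14) nil (node (nat_lit 5) (nat_lit 108677) (nat_lit 14) nil nil)) nil) nil) nil) nil))
  (node (nat_lit 0) (nat_lit 0) (nat_lit 9) (node (nat_lit 4) (nat_lit 89130) (nat_lit 10) (node
  (nat_lit 7) (nat_lit 94790) (nat_lit 11) (node (nat_lit 4) (nat_lit 98787) (nat_lit 12) nil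
  (node (nat_lit 5) (nat_lit 93410) (nat_lit 12) nil nil)) (node (nat_lit 5) (nat_lit 93898)
  (nat_lit 11) (node (nat_lit 4) (nat_lit 95130) (nat_lit 12) nil (node (nat_lit 7) (nat_lit
  97894) (nat_lit 12) nil nil)) (node (nat_lit 12) (nat_lit 92591) (nat_lit 11) nil nil))) (node
  (nat_lit 5) (nat_lit 88392) (nat_lit 10) (node (nat_lit 7) (nat_lit 94053) (nat_lit 11) (node
  (nat_lit 5) (nat_lit 97992) (nat_lit 12) (node (nat_lit 4) (nat_lit 97940) (nat_lit 13) nil nil)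
  (node (nat_lit 4) (nat_lit 98050) (nat_lit 12) nil nil)) (node (nat_lit 4) (nat_lit 92742)
  (nat_lit 11) (node (nat_lit 7) (nat_lit 94541) (nat_lit 12) nil (node (nat_lit 5) (nat_lit
  91202) (nat_lit 12) nil nil)) (node (nat_lit 12) (nat_lit 96531) (nat_lit 11) nil nil))) (node
  (nat_lit 7) (nat_lit 88491) (nat_lit 10) (node (nat_lit 5) (nat_lit 93374) (nat_lit 11) (node
  (nat_lit 7) (nat_lit 95319) (nat_lit 12) nil nil) (node (nat_lit 4) (nat_lit 94986) (nat_lit 11)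
  nil nil)) (node (nat_lit 0) (nat_lit 91744) (nat_lit 10) nil nil)))) (node (nat_lit 4) (nat_lit
  0) (nat_lit 9) (node (nat_lit 0) (nat_lit 94121) (nat_lit 10) (node (nat_lit 4) (nat_lit 97221)
  (nat_lit 11) (node (nat_lit 7) (nat_lit 97780) (nat_lit 12) nil (node (nat_lit 5) (nat_lit
  99383) (nat_lit 12) nil nil)) (node (nat_lit 7) (nat_lit 96673) (nat_lit 11) nil nil)) (node
  (nat_lit 5) (nat_lit 0) (nat_lit 10) (node (nat_lit 0) (nat_lit 80905) (nat_lit 11) (node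
  (nat_lit 4) (nat_lit 82589) (nat_lit 12) nil nil) nil) (node (nat_lit 7) (nat_lit 0) (nat_lit
  10) (node (nat_lit 0) (nat_lit 100861) (nat_lit 11) (node (nat_lit 4) (nat_lit 100482) (nat_lit
  12) nil nil) nil) nil))) nil))) (node (nat_lit 0) (nat_lit 76573) (nat_lit 8) (node (nat_lit 4)
  (nat_lit 82991) (nat_lit 9) (node (nat_lit 7) (nat_lit 82991) (nat_lit 10) nil (node (nat_lit 5)
  (nat_lit 82991) (nat_lit 10) nil nil)) (node (nat_lit 7) (nat_lit 83263) (nat_lit 9) (node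
  (nat_lit 5) (nat_lit 83263) (nat_lit 10) nil (node (nat_lit 4) (nat_lit 83263) (nat_lit 10) nil
  nil)) (node (nat_lit 5) (nat_lit 82374) (nat_lit 9) (node (nat_lit 4) (nat_lit 82374) (nat_lit
  10) nil nil) nil))) nil)) nil) nil)) (node (nat_lit 4) (nat_lit 0) (nat_lit 5) (node (nat_lit 5)
  (nat_lit 0) (nat_lit 6) (node (nat_lit 7) (nat_lit 0) (nat_lit 7) (node (nat_lit 5) (nat_lit 0)
  (nat_lit 8) (node (nat_lit 4) (nat_lit 0) (nat_lit 9) (node (nat_lit 0) (nat_lit 0) (nat_lit 10)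
  (node (nat_lit 4) (nat_lit 0) (nat_lit 11) (node (nat_lit 5) (nat_lit 65457) (nat_lit 12) (node
  (nat_lit 7) (nat_lit 68405) (nat_lit 13) (node (nat_lit 4) (nat_lit 69588) (nat_lit 14) nil nil)
  (node (nat_lit 4) (nat_lit 67862) (nat_lit 13) nil (node (nat_lit 13) (nat_lit 69081) (nat_lit
  13) nil nil))) (node (nat_lit 7) (nat_lit 65453) (nat_lit 12) (node (nat_lit 5) (nat_lit 67249)
  (nat_lit 13) (node (nat_lit 7) (nat_lit 65444) (nat_lit 14) nil nil) (node (nat_lit 4) (nat_lit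
  67858) (nat_lit 13) nil (node (nat_lit 0) (nat_lit 69076) (nat_lit 13) nil nil))) (node (nat_lit
  0) (nat_lit 68352) (nat_lit 12) nil nil))) (node (nat_lit 5) (nat_lit 63622) (nat_lit 11) (node
  (nat_lit 13) (nat_lit 69045) (nat_lit 12) nil (node (nat_lit 4) (nat_lit 65457) (nat_lit 12) nil
  nil)) (node (nat_lit 7) (nat_lit 64082) (nat_lit 11) nil (node (nat_lit 0) (nat_lit 66279)
  (nat_lit 11) nil nil)))) (node (nat_lit 5) (nat_lit 0) (nat_lit 10) (node (nat_lit 0) (nat_lit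
  66248) (nat_lit 11) (node (nat_lit 4) (nat_lit 66943) (nat_lit 12) (node (nat_lit 5) (nat_lit
  66943) (nat_lit 13) nil nil) nil) nil) (node (nat_lit 7) (nat_lit 0) (nat_lit 10) (node (nat_lit
  0) (nat_lit 66667) (nat_lit 11) (node (nat_lit 4) (nat_lit 67361) (nat_lit 12) (node (nat_lit 7)
  (nat_lit 66568) (nat_lit 13) nil nil) nil) nil) nil))) (node (nat_lit 0) (nat_lit 0) (nat_lit 9)
  (node (nat_lit 4) (nat_lit 59270) (nat_lit 10) (node (nat_lit 7) (nat_lit 61619) (nat_lit 11)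
  (node (nat_lit 4) (nat_lit 64705) (nat_lit 12) (node (nat_lit 5) (nat_lit 66221) (nat_lit 13)
  nil nil) (node (nat_lit 5) (nat_lit 61219) (nat_lit 12) nil nil)) (node (nat_lit 5) (nat_lit
  61619) (nat_lit 11) (node (nat_lit 4) (nat_lit 64705) (nat_lit 12) nil (node (nat_lit 7)
  (nat_lit 63564) (nat_lit 12) nil nil)) (node (nat_lit 12) (nat_lit 62731) (nat_lit 11) nil
  nil))) (node (nat_lit 7) (nat_lit 59711) (nat_lit 10) (node (nat_lit 5) (nat_lit 62061) (nat_lit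
  11) (node (nat_lit 7) (nat_lit 65146) (nat_lit 12) (node (nat_lit 4) (nat_lit 66662) (nat_lit
  13) nil nil) (node (nat_lit 4) (nat_lit 62949) (nat_lit 12) nil nil)) (node (nat_lit 4) (nat_lit
  62061) (nat_lit 11) (node (nat_lit 7) (nat_lit 64006) (nat_lit 12) nil (node (nat_lit 5)
  (nat_lit 64006) (nat_lit 12) nil nil)) (node (nat_lit 12) (nat_lit 63172) (nat_lit 11) nil
  nil))) (node (nat_lit 5) (nat_lit 59270) (nat_lit 10) (node (nat_lit 4) (nat_lit 61677) (nat_lit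
  11) (node (nat_lit 5) (nat_lit 60136) (nat_lit 12) nil nil) (node (nat_lit 7) (nat_lit 61619)
  (nat_lit 11) (node (nat_lit 4) (nat_lit 63564) (nat_lit 12) nil nil) nil)) (node (nat_lit 0)
  (nat_lit 62674) (nat_lit 10) nil nil)))) nil)) (node (nat_lit 0) (nat_lit 0) (nat_lit 8) (node
  (nat_lit 4) (nat_lit 59055) (nat_lit 9) (node (nat_lit 5) (nat_lit 62069) (nat_lit 10) (node
  (nat_lit 7) (nat_lit 63928) (nat_lit 11) nil nil) (node (nat_lit 7) (nat_lit 62069) (nat_lit 10)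
  (node (nat_lit 5) (nat_lit 60207) (nat_lit 11) nil nil) nil)) (node (nat_lit 7) (nat_lit 59460)
  (nat_lit 9) (node (nat_lit 5) (nat_lit 62474) (nat_lit 10) (node (nat_lit 4) (nat_lit 60612)
  (nat_lit 11) nil nil) (node (nat_lit 4) (nat_lit 62061) (nat_lit 10) (node (nat_lit 5) (nat_lit
  63919) (nat_lit 11) nil nil) nil)) (node (nat_lit 5) (nat_lit 58345) (nat_lit 9) (node (nat_lit
  4) (nat_lit 62069) (nat_lit 10) (node (nat_lit 7) (nat_lit 63928) (nat_lit 11) nil nil) (node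
  (nat_lit 7) (nat_lit 62069) (nat_lit 10) nil nil)) (node (nat_lit 0) (nat_lit 57985) (nat_lit 9)
  nil nil)))) (node (nat_lit 4) (nat_lit 0) (nat_lit 8) (node (nat_lit 0) (nat_lit 0) (nat_lit 9)
  (node (nat_lit 7) (nat_lit 59711) (nat_lit 10) (node (nat_lit 4) (nat_lit 59711) (nat_lit 11)
  nil (node (nat_lit 5) (nat_lit 59711) (nat_lit 11) nil nil)) (node (nat_lit 5) (nat_lit 57038)
  (nat_lit 10) (node (nat_lit 4) (nat_lit 57038) (nat_lit 11) nil (node (nat_lit 7) (nat_lit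
  57038) (nat_lit 11) nil (node (nat_lit 12) (nat_lit 60499) (nat_lit 11) nil nil))) (node
  (nat_lit 4) (nat_lit 59200) (nat_lit 10) (node (nat_lit 7) (nat_lit 59200) (nat_lit 11) nil nil)
  (node (nat_lit 0) (nat_lit 60038) (nat_lit 10) nil nil)))) (node (nat_lit 7) (nat_lit 0)
  (nat_lit 9) (node (nat_lit 0) (nat_lit 63022) (nat_lit 10) (node (nat_lit 7) (nat_lit 63022)
  (nat_lit 11) nil nil) (node (nat_lit 5) (nat_lit 0) (nat_lit 10) (node (nat_lit 0) (nat_lit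
  66568) (nat_lit 11) nil nil) nil)) nil)) nil))) nil) nil) nil)) nil) nil)) nil) nil)

noncomputable def t476 : Tr :=
  (node (nat_lit 6) (nat_lit 0) (nat_lit 6) (node (nat_lit 4) (nat_lit 0) (nat_lit 7) (node
  (nat_lit 0) (nat_lit 0) (nat_lit 8) (node (nat_lit 5) (nat_lit 85016) (nat_lit 9) (node (nat_lit
  6) (nat_lit 85016) (nat_lit 10) (node (nat_lit 4) (nat_lit 85016) (nat_lit 11) nil (node
  (nat_lit 5) (nat_lit 85016) (nat_lit 11) nil nil)) (node (nat_lit 4) (nat_lit 85016) (nat_lit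
  10) (node (nat_lit 6) (nat_lit 85016) (nat_lit 11) nil (node (nat_lit 5) (nat_lit 85016)
  (nat_lit 11) nil nil)) (node (nat_lit 11) (nat_lit 86299) (nat_lit 10) nil nil))) (node (nat_lit
  6) (nat_lit 84679) (nat_lit 9) (node (nat_lit 4) (nat_lit 84679) (nat_lit 10) (node (nat_lit 6)
  (nat_lit 84679) (nat_lit 11) nil nil) (node (nat_lit 5) (nat_lit 84679) (nat_lit 10) nil (node
  (nat_lit 11) (nat_lit 85962) (nat_lit 10) nil nil))) (node (nat_lit 4) (nat_lit 84970) (nat_lit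
  9) (node (nat_lit 6) (nat_lit 84970) (nat_lit 10) nil (node (nat_lit 5) (nat_lit 84970) (nat_lit
  10) nil nil)) (node (nat_lit 0) (nat_lit 87109) (nat_lit 9) nil nil)))) (node (nat_lit 5)
  (nat_lit 0) (nat_lit 8) (node (nat_lit 0) (nat_lit 79680) (nat_lit 9) (node (nat_lit 5) (nat_lit
  79680) (nat_lit 10) nil nil) (node (nat_lit 4) (nat_lit 0) (nat_lit 9) (node (nat_lit 0)
  (nat_lit 83067) (nat_lit 10) (node (nat_lit 5) (nat_lit 83067) (nat_lit 11) nil nil) nil) (node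
  (nat_lit 6) (nat_lit 0) (nat_lit 9) (node (nat_lit 0) (nat_lit 66896) (nat_lit 10) nil nil)
  nil))) nil)) (node (nat_lit 5) (nat_lit 0) (nat_lit 7) (node (nat_lit 0) (nat_lit 0) (nat_lit 8)
  (node (nat_lit 6) (nat_lit 80232) (nat_lit 9) (node (nat_lit 5) (nat_lit 80618) (nat_lit 10)
  (node (nat_lit 4) (nat_lit 80618) (nat_lit 11) nil (node (nat_lit 6) (nat_lit 80669) (nat_lit
  11) (node (nat_lit 4) (nat_lit 80669) (nat_lit 12) nil nil) nil)) (node (nat_lit 4) (nat_lit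
  80697) (nat_lit 10) (node (nat_lit 6) (nat_lit 80697) (nat_lit 11) nil (node (nat_lit 5)
  (nat_lit 80697) (nat_lit 11) nil nil)) (node (nat_lit 11) (nat_lit 86304) (nat_lit 10) nil
  nil))) (node (nat_lit 4) (nat_lit 80156) (nat_lit 9) (node (nat_lit 6) (nat_lit 81070) (nat_lit
  10) (node (nat_lit 5) (nat_lit 81070) (nat_lit 11) nil (node (nat_lit 4) (nat_lit 81070)
  (nat_lit 11) nil nil)) (node (nat_lit 5) (nat_lit 80545) (nat_lit 10) (node (nat_lit 4) (nat_lit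
  80545) (nat_lit 11) (node (nat_lit 6) (nat_lit 80545) (nat_lit 12) nil nil) (node (nat_lit 6)
  (nat_lit 80545) (nat_lit 11) nil (node (nat_lit 11) (nat_lit 82171) (nat_lit 11) nil nil)))
  (node (nat_lit 11) (nat_lit 86226) (nat_lit 10) nil nil))) (node (nat_lit 5) (nat_lit 80050)
  (nat_lit 9) (node (nat_lit 6) (nat_lit 80818) (nat_lit 10) (node (nat_lit 4) (nat_lit 80818)
  (nat_lit 11) nil (node (nat_lit 5) (nat_lit 80818) (nat_lit 11) nil nil)) (node (nat_lit 4)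
  (nat_lit 80961) (nat_lit 10) (node (nat_lit 6) (nat_lit 80961) (nat_lit 11) nil (node (nat_lit
  5) (nat_lit 80961) (nat_lit 11) nil nil)) nil)) (node (nat_lit 0) (nat_lit 83280) (nat_lit 9)
  (node (nat_lit 11) (nat_lit 83667) (nat_lit 10) nil (node (nat_lit 5) (nat_lit 83280) (nat_lit
  10) nil nil)) nil)))) (node (nat_lit 6) (nat_lit 0) (nat_lit 8) (node (nat_lit 0) (nat_lit 0)
  (nat_lit 9) (node (nat_lit 6) (nat_lit 0) (nat_lit 10) (node (nat_lit 5) (nat_lit 80007)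
  (nat_lit 11) (node (nat_lit 4) (nat_lit 80007) (nat_lit 12) nil (node (nat_lit 6) (nat_lit
  80007) (nat_lit 12) nil (node (nat_lit 12) (nat_lit 82162) (nat_lit 12) nil nil))) (node
  (nat_lit 4) (nat_lit 80346) (nat_lit 11) (node (nat_lit 5) (nat_lit 80346) (nat_lit 12) nil
  (node (nat_lit 6) (nat_lit 80346) (nat_lit 12) nil (node (nat_lit 0) (nat_lit 82501) (nat_lit
  12) nil nil))) (node (nat_lit 0) (nat_lit 82824) (nat_lit 11) nil nil))) (node (nat_lit 5)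
  (nat_lit 80391) (nat_lit 10) (node (nat_lit 12) (nat_lit 83248) (nat_lit 11) nil (node (nat_lit
  6) (nat_lit 80391) (nat_lit 11) nil nil)) (node (nat_lit 4) (nat_lit 80220) (nat_lit 10) nil
  (node (nat_lit 0) (nat_lit 82029) (nat_lit 10) nil nil)))) (node (nat_lit 4) (nat_lit 0)
  (nat_lit 9) (node (nat_lit 0) (nat_lit 84821) (nat_lit 10) (node (nat_lit 6) (nat_lit 84821)
  (nat_lit 11) nil nil) nil) nil)) nil)) (node (nat_lit 0) (nat_lit 0) (nat_lit 7) (node (nat_lit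
  4) (nat_lit 81682) (nat_lit 8) (node (nat_lit 5) (nat_lit 81776) (nat_lit 9) (node (nat_lit 6)
  (nat_lit 81837) (nat_lit 10) (node (nat_lit 4) (nat_lit 81837) (nat_lit 11) nil (node (nat_lit
  5) (nat_lit 81837) (nat_lit 11) nil nil)) (node (nat_lit 4) (nat_lit 81776) (nat_lit 10) nil
  nil)) (node (nat_lit 6) (nat_lit 82595) (nat_lit 9) (node (nat_lit 5) (nat_lit 83704) (nat_lit
  10) (node (nat_lit 4) (nat_lit 83704) (nat_lit 11) nil (node (nat_lit 6) (nat_lit 83704)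
  (nat_lit 11) nil nil)) (node (nat_lit 4) (nat_lit 82595) (nat_lit 10) nil nil)) (node (nat_lit
  10) (nat_lit 84145) (nat_lit 9) nil nil))) (node (nat_lit 6) (nat_lit 81926) (nat_lit 8) (node
  (nat_lit 4) (nat_lit 83216) (nat_lit 9) (node (nat_lit 5) (nat_lit 82819) (nat_lit 10) (node
  (nat_lit 4) (nat_lit 82819) (nat_lit 11) (node (nat_lit 6) (nat_lit 82819) (nat_lit 12) nil nil)
  (node (nat_lit 6) (nat_lit 82819) (nat_lit 11) nil nil)) (node (nat_lit 6) (nat_lit 83216)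
  (nat_lit 10) nil nil)) (node (nat_lit 5) (nat_lit 82591) (nat_lit 9) (node (nat_lit 4) (nat_lit
  83294) (nat_lit 10) (node (nat_lit 6) (nat_lit 83294) (nat_lit 11) nil (node (nat_lit 5)
  (nat_lit 83294) (nat_lit 11) (node (nat_lit 6) (nat_lit 83294) (nat_lit 12) nil nil) nil)) (node
  (nat_lit 6) (nat_lit 82591) (nat_lit 10) (node (nat_lit 4) (nat_lit 82591) (nat_lit 11) nil nil)
  nil)) nil)) (node (nat_lit 5) (nat_lit 81560) (nat_lit 8) (node (nat_lit 4) (nat_lit 82912)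
  (nat_lit 9) (node (nat_lit 6) (nat_lit 83379) (nat_lit 10) (node (nat_lit 5) (nat_lit 83379)
  (nat_lit 11) nil (node (nat_lit 4) (nat_lit 83379) (nat_lit 11) (node (nat_lit 5) (nat_lit
  83379) (nat_lit 12) nil nil) nil)) (node (nat_lit 5) (nat_lit 82912) (nat_lit 10) (node (nat_lit
  6) (nat_lit 82912) (nat_lit 11) nil nil) nil)) (node (nat_lit 6) (nat_lit 82127) (nat_lit 9)
  (node (nat_lit 4) (nat_lit 82127) (nat_lit 10) (node (nat_lit 6) (nat_lit 82127) (nat_lit 11)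
  nil (node (nat_lit 5) (nat_lit 82127) (nat_lit 11) nil nil)) (node (nat_lit 5) (nat_lit 82830)
  (nat_lit 10) (node (nat_lit 4) (nat_lit 82830) (nat_lit 11) nil nil) nil)) (node (nat_lit 10)
  (nat_lit 84023) (nat_lit 9) nil nil))) (node (nat_lit 0) (nat_lit 82895) (nat_lit 8) nil nil))))
  nil))) (node (nat_lit 5) (nat_lit 0) (nat_lit 6) (node (nat_lit 6) (nat_lit 0) (nat_lit 7) (node
  (nat_lit 0) (nat_lit 0) (nat_lit 8) (node (nat_lit 4) (nat_lit 0) (nat_lit 9) (node (nat_lit 6)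
  (nat_lit 52533) (nat_lit 10) (node (nat_lit 5) (nat_lit 53632) (nat_lit 11) (node (nat_lit 4)
  (nat_lit 54349) (nat_lit 12) (node (nat_lit 6) (nat_lit 54349) (nat_lit 13) nil (node (nat_lit
  5) (nat_lit 54349) (nat_lit 13) nil nil)) (node (nat_lit 6) (nat_lit 54349) (nat_lit 12) (node
  (nat_lit 4) (nat_lit 55251) (nat_lit 13) nil nil) nil)) (node (nat_lit 4) (nat_lit 54061)
  (nat_lit 11) (node (nat_lit 5) (nat_lit 54859) (nat_lit 12) (node (nat_lit 6) (nat_lit 55741)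
  (nat_lit 13) (node (nat_lit 5) (nat_lit 56246) (nat_lit 14) nil (node (nat_lit 4) (nat_lit
  56246) (nat_lit 14) nil nil)) (node (nat_lit 4) (nat_lit 56078) (nat_lit 13) (node (nat_lit 6)
  (nat_lit 56527) (nat_lit 14) nil nil) nil)) nil) (node (nat_lit 11) (nat_lit 55585) (nat_lit 11)
  nil nil))) (node (nat_lit 5) (nat_lit 52401) (nat_lit 10) (node (nat_lit 6) (nat_lit 52595)
  (nat_lit 11) (node (nat_lit 5) (nat_lit 53313) (nat_lit 12) (node (nat_lit 4) (nat_lit 54215)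
  (nat_lit 13) nil nil) (node (nat_lit 4) (nat_lit 52885) (nat_lit 12) (node (nat_lit 6) (nat_lit
  52841) (nat_lit 13) nil (node (nat_lit 5) (nat_lit 52987) (nat_lit 13) nil nil)) nil)) (node
  (nat_lit 4) (nat_lit 53936) (nat_lit 11) (node (nat_lit 6) (nat_lit 54701) (nat_lit 12) (node
  (nat_lit 5) (nat_lit 55603) (nat_lit 13) nil (node (nat_lit 4) (nat_lit 55603) (nat_lit 13) nil
  nil)) nil) (node (nat_lit 11) (nat_lit 53300) (nat_lit 11) nil nil))) (node (nat_lit 11)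
  (nat_lit 57103) (nat_lit 10) (node (nat_lit 6) (nat_lit 57103) (nat_lit 11) nil nil) (node
  (nat_lit 0) (nat_lit 51042) (nat_lit 10) nil nil)))) (node (nat_lit 5) (nat_lit 0) (nat_lit 9)
  (node (nat_lit 4) (nat_lit 52115) (nat_lit 10) (node (nat_lit 6) (nat_lit 53751) (nat_lit 11)
  (node (nat_lit 5) (nat_lit 54897) (nat_lit 12) (node (nat_lit 6) (nat_lit 55799) (nat_lit 13)
  nil (node (nat_lit 4) (nat_lit 55799) (nat_lit 13) nil nil)) (node (nat_lit 4) (nat_lit 53720)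
  (nat_lit 12) (node (nat_lit 5) (nat_lit 53822) (nat_lit 13) nil nil) nil)) (node (nat_lit 5)
  (nat_lit 52743) (nat_lit 11) (node (nat_lit 6) (nat_lit 53527) (nat_lit 12) (node (nat_lit 4)
  (nat_lit 54164) (nat_lit 13) nil (node (nat_lit 5) (nat_lit 53945) (nat_lit 13) (node (nat_lit
  4) (nat_lit 53452) (nat_lit 14) nil nil) nil)) nil) (node (nat_lit 11) (nat_lit 53014) (nat_lit
  11) nil nil))) (node (nat_lit 6) (nat_lit 52532) (nat_lit 10) (node (nat_lit 5) (nat_lit 53995)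
  (nat_lit 11) (node (nat_lit 4) (nat_lit 55688) (nat_lit 12) (node (nat_lit 6) (nat_lit 57103)
  (nat_lit 13) (node (nat_lit 4) (nat_lit 57103) (nat_lit 14) nil nil) (node (nat_lit 5) (nat_lit
  56590) (nat_lit 13) (node (nat_lit 6) (nat_lit 57095) (nat_lit 14) nil nil) nil)) nil) (node
  (nat_lit 4) (nat_lit 53128) (nat_lit 11) (node (nat_lit 5) (nat_lit 53846) (nat_lit 12) (node
  (nat_lit 6) (nat_lit 53846) (nat_lit 13) nil (node (nat_lit 4) (nat_lit 53846) (nat_lit 13) nil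
  nil)) (node (nat_lit 6) (nat_lit 53128) (nat_lit 12) nil nil)) nil)) (node (nat_lit 11) (nat_lit
  56949) (nat_lit 10) (node (nat_lit 6) (nat_lit 56949) (nat_lit 11) nil (node (nat_lit 4)
  (nat_lit 56949) (nat_lit 11) nil nil)) (node (nat_lit 0) (nat_lit 50998) (nat_lit 10) nil
  nil)))) (node (nat_lit 6) (nat_lit 0) (nat_lit 9) (node (nat_lit 5) (nat_lit 52210) (nat_lit 10)
  (node (nat_lit 6) (nat_lit 53520) (nat_lit 11) (node (nat_lit 4) (nat_lit 53520) (nat_lit 12)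
  nil (node (nat_lit 11) (nat_lit 54586) (nat_lit 12) nil nil)) (node (nat_lit 4) (nat_lit 53308)
  (nat_lit 11) (node (nat_lit 6) (nat_lit 53308) (nat_lit 12) nil (node (nat_lit 5) (nat_lit
  53308) (nat_lit 12) nil nil)) (node (nat_lit 11) (nat_lit 53109) (nat_lit 11) nil nil))) (node
  (nat_lit 4) (nat_lit 52588) (nat_lit 10) (node (nat_lit 6) (nat_lit 54122) (nat_lit 11) (node
  (nat_lit 5) (nat_lit 54122) (nat_lit 12) nil nil) (node (nat_lit 5) (nat_lit 54224) (nat_lit 11)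
  (node (nat_lit 4) (nat_lit 54224) (nat_lit 12) nil (node (nat_lit 6) (nat_lit 54224) (nat_lit
  12) nil nil)) nil)) (node (nat_lit 0) (nat_lit 56133) (nat_lit 10) nil nil))) (node (nat_lit 0)
  (nat_lit 54012) (nat_lit 9) (node (nat_lit 11) (nat_lit 55485) (nat_lit 10) nil (node (nat_lit
  6) (nat_lit 54012) (nat_lit 10) nil (node (nat_lit 5) (nat_lit 54012) (nat_lit 10) nil (node
  (nat_lit 4) (nat_lit 54012) (nat_lit 10) nil nil)))) nil)))) (node (nat_lit 4) (nat_lit 0)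
  (nat_lit 8) (node (nat_lit 0) (nat_lit 0) (nat_lit 9) (node (nat_lit 4) (nat_lit 0) (nat_lit 10)
  (node (nat_lit 5) (nat_lit 55723) (nat_lit 11) (node (nat_lit 6) (nat_lit 57026) (nat_lit 12)
  (node (nat_lit 5) (nat_lit 57103) (nat_lit 13) (node (nat_lit 4) (nat_lit 57103) (nat_lit 14)
  nil nil) (node (nat_lit 4) (nat_lit 56499) (nat_lit 13) (node (nat_lit 6) (nat_lit 56443)
  (nat_lit 14) (node (nat_lit 5) (nat_lit 55998) (nat_lit 15) nil nil) (node (nat_lit 5) (nat_lit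
  56499) (nat_lit 14) nil nil)) nil)) (node (nat_lit 4) (nat_lit 56812) (nat_lit 12) (node
  (nat_lit 6) (nat_lit 57103) (nat_lit 13) (node (nat_lit 5) (nat_lit 57103) (nat_lit 14) nil nil)
  nil) (node (nat_lit 12) (nat_lit 56921) (nat_lit 12) nil (node (nat_lit 0) (nat_lit 56921)
  (nat_lit 12) nil nil)))) (node (nat_lit 6) (nat_lit 55986) (nat_lit 11) (node (nat_lit 5)
  (nat_lit 56851) (nat_lit 12) (node (nat_lit 4) (nat_lit 57103) (nat_lit 13) (node (nat_lit 5)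
  (nat_lit 57103) (nat_lit 14) nil (node (nat_lit 6) (nat_lit 57103) (nat_lit 14) nil nil)) (node
  (nat_lit 6) (nat_lit 56851) (nat_lit 13) (node (nat_lit 4) (nat_lit 56851) (nat_lit 14) nil nil)
  nil)) (node (nat_lit 4) (nat_lit 56848) (nat_lit 12) (node (nat_lit 5) (nat_lit 56848) (nat_lit
  13) (node (nat_lit 6) (nat_lit 56848) (nat_lit 14) nil nil) (node (nat_lit 12) (nat_lit 57103)
  (nat_lit 13) nil nil)) (node (nat_lit 12) (nat_lit 57103) (nat_lit 12) nil (node (nat_lit 0)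
  (nat_lit 57103) (nat_lit 12) nil nil)))) (node (nat_lit 0) (nat_lit 57103) (nat_lit 11) nil
  nil))) (node (nat_lit 6) (nat_lit 54533) (nat_lit 10) (node (nat_lit 12) (nat_lit 57103)
  (nat_lit 11) nil (node (nat_lit 4) (nat_lit 55873) (nat_lit 11) (node (nat_lit 6) (nat_lit
  55873) (nat_lit 12) nil nil) (node (nat_lit 5) (nat_lit 54533) (nat_lit 11) nil nil))) (node
  (nat_lit 5) (nat_lit 54358) (nat_lit 10) (node (nat_lit 12) (nat_lit 55250) (nat_lit 11) nil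
  (node (nat_lit 4) (nat_lit 55692) (nat_lit 11) nil nil)) (node (nat_lit 0) (nat_lit 57103)
  (nat_lit 10) (node (nat_lit 4) (nat_lit 57103) (nat_lit 11) nil nil) nil)))) (node (nat_lit 6)
  (nat_lit 0) (nat_lit 9) (node (nat_lit 0) (nat_lit 57103) (nat_lit 10) (node (nat_lit 4)
  (nat_lit 57103) (nat_lit 11) (node (nat_lit 6) (nat_lit 57103) (nat_lit 12) (node (nat_lit 5)
  (nat_lit 57103) (nat_lit 13) (node (nat_lit 4) (nat_lit 57103) (nat_lit 14) nil (node (nat_lit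
  6) (nat_lit 57103) (nat_lit 14) nil nil)) (node (nat_lit 4) (nat_lit 57103) (nat_lit 13) (node
  (nat_lit 5) (nat_lit 57103) (nat_lit 14) nil nil) nil)) nil) (node (nat_lit 6) (nat_lit 57103)
  (nat_lit 11) nil nil)) nil) (node (nat_lit 5) (nat_lit 0) (nat_lit 9) (node (nat_lit 0) (nat_lit
  57103) (nat_lit 10) (node (nat_lit 4) (nat_lit 57103) (nat_lit 11) (node (nat_lit 5) (nat_lit
  57103) (nat_lit 12) (node (nat_lit 6) (nat_lit 57103) (nat_lit 13) nil (node (nat_lit 4)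
  (nat_lit 57103) (nat_lit 13) nil nil)) nil) nil) nil) nil))) nil)) (node (nat_lit 0) (nat_lit 0)
  (nat_lit 7) (node (nat_lit 4) (nat_lit 44961) (nat_lit 8) (node (nat_lit 5) (nat_lit 47737)
  (nat_lit 9) (node (nat_lit 6) (nat_lit 51346) (nat_lit 10) (node (nat_lit 4) (nat_lit 52114)
  (nat_lit 11) (node (nat_lit 6) (nat_lit 52012) (nat_lit 12) (node (nat_lit 5) (nat_lit 51641)
  (nat_lit 13) nil nil) (node (nat_lit 5) (nat_lit 52086) (nat_lit 12) (node (nat_lit 4) (nat_lit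
  51715) (nat_lit 13) nil nil) nil)) (node (nat_lit 5) (nat_lit 53646) (nat_lit 11) (node (nat_lit
  4) (nat_lit 56296) (nat_lit 12) (node (nat_lit 6) (nat_lit 57103) (nat_lit 13) (node (nat_lit 4)
  (nat_lit 57103) (nat_lit 14) nil nil) (node (nat_lit 5) (nat_lit 57103) (nat_lit 13) nil nil))
  nil) nil)) (node (nat_lit 4) (nat_lit 50918) (nat_lit 10) (node (nat_lit 6) (nat_lit 50918)
  (nat_lit 11) (node (nat_lit 5) (nat_lit 50918) (nat_lit 12) nil nil) nil) nil)) (node (nat_lit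
  6) (nat_lit 48059) (nat_lit 9) (node (nat_lit 5) (nat_lit 49788) (nat_lit 10) (node (nat_lit 4)
  (nat_lit 51807) (nat_lit 11) (node (nat_lit 6) (nat_lit 52703) (nat_lit 12) (node (nat_lit 4)
  (nat_lit 53686) (nat_lit 13) nil nil) (node (nat_lit 5) (nat_lit 53422) (nat_lit 12) (node
  (nat_lit 6) (nat_lit 54791) (nat_lit 13) nil nil) nil)) (node (nat_lit 6) (nat_lit 52071)
  (nat_lit 11) (node (nat_lit 4) (nat_lit 53927) (nat_lit 12) (node (nat_lit 5) (nat_lit 56038)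
  (nat_lit 13) nil (node (nat_lit 6) (nat_lit 54517) (nat_lit 13) nil nil)) nil) nil)) (node
  (nat_lit 4) (nat_lit 50753) (nat_lit 10) (node (nat_lit 5) (nat_lit 50753) (nat_lit 11) (node
  (nat_lit 6) (nat_lit 50753) (nat_lit 12) nil nil) nil) nil)) (node (nat_lit 10) (nat_lit 54947)
  (nat_lit 9) nil nil))) (node (nat_lit 5) (nat_lit 44817) (nat_lit 8) (node (nat_lit 4) (nat_lit
  47622) (nat_lit 9) (node (nat_lit 6) (nat_lit 51352) (nat_lit 10) (node (nat_lit 5) (nat_lit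
  53327) (nat_lit 11) (node (nat_lit 6) (nat_lit 54942) (nat_lit 12) (node (nat_lit 4) (nat_lit
  56311) (nat_lit 13) nil nil) (node (nat_lit 4) (nat_lit 54224) (nat_lit 12) nil nil)) (node
  (nat_lit 4) (nat_lit 53489) (nat_lit 11) (node (nat_lit 5) (nat_lit 55321) (nat_lit 12) (node
  (nat_lit 6) (nat_lit 56690) (nat_lit 13) nil (node (nat_lit 4) (nat_lit 54949) (nat_lit 13) nil
  nil)) nil) nil)) (node (nat_lit 5) (nat_lit 49878) (nat_lit 10) (node (nat_lit 6) (nat_lit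
  49878) (nat_lit 11) (node (nat_lit 4) (nat_lit 49878) (nat_lit 12) nil nil) nil) (node (nat_lit
  10) (nat_lit 49318) (nat_lit 10) nil nil))) (node (nat_lit 6) (nat_lit 48005) (nat_lit 9) (node
  (nat_lit 4) (nat_lit 51403) (nat_lit 10) (node (nat_lit 6) (nat_lit 53762) (nat_lit 11) (node
  (nat_lit 5) (nat_lit 55124) (nat_lit 12) (node (nat_lit 4) (nat_lit 56800) (nat_lit 13) nil
  (node (nat_lit 6) (nat_lit 56106) (nat_lit 13) nil nil)) nil) (node (nat_lit 5) (nat_lit 53587)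
  (nat_lit 11) (node (nat_lit 4) (nat_lit 54560) (nat_lit 12) (node (nat_lit 6) (nat_lit 55542)
  (nat_lit 13) nil nil) (node (nat_lit 6) (nat_lit 53587) (nat_lit 12) nil nil)) nil)) (node
  (nat_lit 5) (nat_lit 51043) (nat_lit 10) (node (nat_lit 4) (nat_lit 51043) (nat_lit 11) (node
  (nat_lit 6) (nat_lit 51043) (nat_lit 12) nil nil) nil) nil)) nil)) (node (nat_lit 6) (nat_lit
  45482) (nat_lit 8) (node (nat_lit 5) (nat_lit 48278) (nat_lit 9) (node (nat_lit 4) (nat_lit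
  50409) (nat_lit 10) (node (nat_lit 6) (nat_lit 51699) (nat_lit 11) (node (nat_lit 4) (nat_lit
  52564) (nat_lit 12) (node (nat_lit 5) (nat_lit 53189) (nat_lit 13) nil nil) (node (nat_lit 5)
  (nat_lit 51699) (nat_lit 12) nil nil)) (node (nat_lit 5) (nat_lit 52339) (nat_lit 11) (node
  (nat_lit 6) (nat_lit 53732) (nat_lit 12) (node (nat_lit 4) (nat_lit 54584) (nat_lit 13) nil
  (node (nat_lit 5) (nat_lit 54357) (nat_lit 13) nil nil)) nil) nil)) (node (nat_lit 6) (nat_lit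
  50766) (nat_lit 10) (node (nat_lit 4) (nat_lit 51997) (nat_lit 11) (node (nat_lit 5) (nat_lit
  51970) (nat_lit 12) (node (nat_lit 6) (nat_lit 52952) (nat_lit 13) nil nil) nil) nil) nil))
  (node (nat_lit 4) (nat_lit 48414) (nat_lit 9) (node (nat_lit 5) (nat_lit 51293) (nat_lit 10)
  (node (nat_lit 4) (nat_lit 53297) (nat_lit 11) (node (nat_lit 6) (nat_lit 54446) (nat_lit 12)
  (node (nat_lit 5) (nat_lit 56051) (nat_lit 13) (node (nat_lit 6) (nat_lit 56734) (nat_lit 14)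
  nil nil) (node (nat_lit 4) (nat_lit 55429) (nat_lit 13) nil nil)) nil) (node (nat_lit 6)
  (nat_lit 53038) (nat_lit 11) (node (nat_lit 5) (nat_lit 54353) (nat_lit 12) (node (nat_lit 4)
  (nat_lit 56203) (nat_lit 13) nil nil) (node (nat_lit 4) (nat_lit 53934) (nat_lit 12) (node
  (nat_lit 6) (nat_lit 54916) (nat_lit 13) nil nil) nil)) nil)) (node (nat_lit 6) (nat_lit 50927)
  (nat_lit 10) (node (nat_lit 5) (nat_lit 50927) (nat_lit 11) (node (nat_lit 4) (nat_lit 50927)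
  (nat_lit 12) nil nil) nil) (node (nat_lit 10) (nat_lit 50110) (nat_lit 10) nil nil))) (node
  (nat_lit 10) (nat_lit 55441) (nat_lit 9) nil nil))) (node (nat_lit 0) (nat_lit 49943) (nat_lit
  8) nil nil)))) nil)) nil))

noncomputable def t477 : Tr :=
  (node (nat_lit 3) (nat_lit 0) (nat_lit 3) (node (nat_lit 4) (nat_lit 0) (nat_lit 4) (node
  (nat_lit 6) (nat_lit 0) (nat_lit 5) (node (nat_lit 5) (nat_lit 0) (nat_lit 6) (node (nat_lit 4)
  (nat_lit 0) (nat_lit 7) (node (nat_lit 0) (nat_lit 0) (nat_lit 8) (node (nat_lit 5) (nat_lit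
  71784) (nat_lit 9) (node (nat_lit 4) (nat_lit 71761) (nat_lit 10) (node (nat_lit 6) (nat_lit
  71761) (nat_lit 11) nil (node (nat_lit 5) (nat_lit 71761) (nat_lit 11) (node (nat_lit 6)
  (nat_lit 71761) (nat_lit 12) nil nil) nil)) (node (nat_lit 6) (nat_lit 71784) (nat_lit 10) (node
  (nat_lit 4) (nat_lit 71784) (nat_lit 11) nil (node (nat_lit 5) (nat_lit 71784) (nat_lit 11) nil
  nil)) (node (nat_lit 11) (nat_lit 74707) (nat_lit 10) nil nil))) (node (nat_lit 6) (nat_lit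
  71854) (nat_lit 9) (node (nat_lit 5) (nat_lit 71831) (nat_lit 10) (node (nat_lit 4) (nat_lit
  71831) (nat_lit 11) nil (node (nat_lit 6) (nat_lit 71831) (nat_lit 11) nil nil)) (node (nat_lit
  4) (nat_lit 72282) (nat_lit 10) (node (nat_lit 6) (nat_lit 72282) (nat_lit 11) nil (node
  (nat_lit 5) (nat_lit 72282) (nat_lit 11) nil nil)) (node (nat_lit 11) (nat_lit 76751) (nat_lit
  10) nil nil))) (node (nat_lit 4) (nat_lit 71886) (nat_lit 9) (node (nat_lit 5) (nat_lit 72314)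
  (nat_lit 10) nil (node (nat_lit 6) (nat_lit 72124) (nat_lit 10) nil nil)) (node (nat_lit 0)
  (nat_lit 74626) (nat_lit 9) (node (nat_lit 4) (nat_lit 74626) (nat_lit 10) nil nil) nil))))
  (node (nat_lit 6) (nat_lit 0) (nat_lit 8) (node (nat_lit 0) (nat_lit 69849) (nat_lit 9) (node
  (nat_lit 6) (nat_lit 0) (nat_lit 10) (node (nat_lit 5) (nat_lit 69849) (nat_lit 11) nil (node
  (nat_lit 4) (nat_lit 69849) (nat_lit 11) nil (node (nat_lit 0) (nat_lit 71454) (nat_lit 11) nil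
  nil))) (node (nat_lit 4) (nat_lit 69994) (nat_lit 10) nil (node (nat_lit 0) (nat_lit 70752)
  (nat_lit 10) nil nil))) (node (nat_lit 4) (nat_lit 0) (nat_lit 9) (node (nat_lit 0) (nat_lit
  75100) (nat_lit 10) (node (nat_lit 6) (nat_lit 75100) (nat_lit 11) nil nil) nil) nil)) (node
  (nat_lit 5) (nat_lit 0) (nat_lit 8) (node (nat_lit 0) (nat_lit 75407) (nat_lit 9) (node (nat_lit
  5) (nat_lit 75407) (nat_lit 10) nil nil) (node (nat_lit 6) (nat_lit 0) (nat_lit 9) (node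
  (nat_lit 0) (nat_lit 56427) (nat_lit 10) (node (nat_lit 5) (nat_lit 56541) (nat_lit 11) (node
  (nat_lit 6) (nat_lit 56541) (nat_lit 12) nil nil) nil) nil) nil)) nil))) (node (nat_lit 0)
  (nat_lit 0) (nat_lit 7) (node (nat_lit 4) (nat_lit 74301) (nat_lit 8) (node (nat_lit 5) (nat_lit
  76219) (nat_lit 9) (node (nat_lit 6) (nat_lit 77684) (nat_lit 10) (node (nat_lit 5) (nat_lit
  77684) (nat_lit 11) (node (nat_lit 4) (nat_lit 77684) (nat_lit 12) nil nil) (node (nat_lit 4)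
  (nat_lit 77684) (nat_lit 11) nil nil)) (node (nat_lit 4) (nat_lit 77115) (nat_lit 10) (node
  (nat_lit 6) (nat_lit 77115) (nat_lit 11) nil nil) nil)) (node (nat_lit 6) (nat_lit 75994)
  (nat_lit 9) (node (nat_lit 5) (nat_lit 76803) (nat_lit 10) (node (nat_lit 4) (nat_lit 76803)
  (nat_lit 11) (node (nat_lit 5) (nat_lit 76803) (nat_lit 12) nil nil) (node (nat_lit 6) (nat_lit
  76803) (nat_lit 11) (node (nat_lit 4) (nat_lit 76803) (nat_lit 12) nil nil) nil)) (node (nat_lit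
  4) (nat_lit 76386) (nat_lit 10) (node (nat_lit 5) (nat_lit 76386) (nat_lit 11) nil nil) nil))
  (node (nat_lit 10) (nat_lit 78034) (nat_lit 9) nil nil))) (node (nat_lit 6) (nat_lit 73986)
  (nat_lit 8) (node (nat_lit 5) (nat_lit 75618) (nat_lit 9) (node (nat_lit 4) (nat_lit 77212)
  (nat_lit 10) (node (nat_lit 6) (nat_lit 77212) (nat_lit 11) nil (node (nat_lit 5) (nat_lit
  77212) (nat_lit 11) (node (nat_lit 6) (nat_lit 77212) (nat_lit 12) nil nil) nil)) (node (nat_lit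
  6) (nat_lit 76671) (nat_lit 10) (node (nat_lit 4) (nat_lit 76671) (nat_lit 11) nil nil) nil))
  (node (nat_lit 4) (nat_lit 76158) (nat_lit 9) (node (nat_lit 5) (nat_lit 78058) (nat_lit 10)
  (node (nat_lit 6) (nat_lit 78058) (nat_lit 11) nil (node (nat_lit 4) (nat_lit 78058) (nat_lit
  11) (node (nat_lit 6) (nat_lit 78058) (nat_lit 12) nil nil) nil)) (node (nat_lit 6) (nat_lit
  77267) (nat_lit 10) (node (nat_lit 5) (nat_lit 77267) (nat_lit 11) nil nil) nil)) (node (nat_lit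
  10) (nat_lit 77150) (nat_lit 9) nil nil))) (node (nat_lit 5) (nat_lit 74057) (nat_lit 8) (node
  (nat_lit 6) (nat_lit 75458) (nat_lit 9) (node (nat_lit 4) (nat_lit 77333) (nat_lit 10) (node
  (nat_lit 5) (nat_lit 77333) (nat_lit 11) nil (node (nat_lit 6) (nat_lit 77333) (nat_lit 11)
  (node (nat_lit 5) (nat_lit 77333) (nat_lit 12) nil nil) nil)) (node (nat_lit 5) (nat_lit 77053)
  (nat_lit 10) nil nil)) (node (nat_lit 4) (nat_lit 75097) (nat_lit 9) (node (nat_lit 6) (nat_lit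
  76084) (nat_lit 10) (node (nat_lit 5) (nat_lit 76084) (nat_lit 11) (node (nat_lit 6) (nat_lit
  76084) (nat_lit 12) nil nil) (node (nat_lit 4) (nat_lit 76186) (nat_lit 11) (node (nat_lit 5)
  (nat_lit 76186) (nat_lit 12) (node (nat_lit 6) (nat_lit 76464) (nat_lit 13) nil nil) nil) nil))
  (node (nat_lit 5) (nat_lit 75097) (nat_lit 10) (node (nat_lit 6) (nat_lit 75097) (nat_lit 11)
  nil nil) nil)) nil)) (node (nat_lit 0) (nat_lit 74665) (nat_lit 8) nil nil)))) (node (nat_lit 6)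
  (nat_lit 0) (nat_lit 7) (node (nat_lit 0) (nat_lit 79279) (nat_lit 8) (node (nat_lit 4) (nat_lit
  79279) (nat_lit 9) nil (node (nat_lit 5) (nat_lit 79428) (nat_lit 9) nil nil)) (node (nat_lit 4)
  (nat_lit 0) (nat_lit 8) (node (nat_lit 0) (nat_lit 81544) (nat_lit 9) nil (node (nat_lit 5)
  (nat_lit 0) (nat_lit 9) (node (nat_lit 0) (nat_lit 82510) (nat_lit 10) nil nil) nil)) nil))
  nil))) nil) (node (nat_lit 5) (nat_lit 0) (nat_lit 5) (node (nat_lit 4) (nat_lit 0) (nat_lit 6)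
  (node (nat_lit 6) (nat_lit 0) (nat_lit 7) (node (nat_lit 0) (nat_lit 0) (nat_lit 8) (node
  (nat_lit 5) (nat_lit 48382) (nat_lit 9) nil (node (nat_lit 4) (nat_lit 48382) (nat_lit 9) nil
  (node (nat_lit 6) (nat_lit 48382) (nat_lit 9) nil (node (nat_lit 0) (nat_lit 48382) (nat_lit 9)
  nil nil)))) (node (nat_lit 5) (nat_lit 0) (nat_lit 8) (node (nat_lit 0) (nat_lit 45046) (nat_lit
  9) (node (nat_lit 5) (nat_lit 45046) (nat_lit 10) nil nil) (node (nat_lit 6) (nat_lit 0)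
  (nat_lit 9) (node (nat_lit 0) (nat_lit 47895) (nat_lit 10) nil nil) (node (nat_lit 4) (nat_lit
  0) (nat_lit 9) (node (nat_lit 0) (nat_lit 35030) (nat_lit 10) nil nil) nil))) (node (nat_lit 4)
  (nat_lit 0) (nat_lit 8) (node (nat_lit 0) (nat_lit 48382) (nat_lit 9) nil (node (nat_lit 5)
  (nat_lit 0) (nat_lit 9) (node (nat_lit 0) (nat_lit 48382) (nat_lit 10) nil nil) nil)) nil)))
  (node (nat_lit 0) (nat_lit 48382) (nat_lit 7) (node (nat_lit 6) (nat_lit 48382) (nat_lit 8)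
  (node (nat_lit 4) (nat_lit 48382) (nat_lit 9) nil (node (nat_lit 5) (nat_lit 48382) (nat_lit 9)
  nil nil)) (node (nat_lit 5) (nat_lit 48382) (nat_lit 8) (node (nat_lit 6) (nat_lit 48382)
  (nat_lit 9) nil (node (nat_lit 4) (nat_lit 48382) (nat_lit 9) nil nil)) (node (nat_lit 4)
  (nat_lit 48382) (nat_lit 8) (node (nat_lit 5) (nat_lit 48382) (nat_lit 9) nil (node (nat_lit 6)
  (nat_lit 48382) (nat_lit 9) nil nil)) nil))) nil)) nil) nil)) (node (nat_lit 5) (nat_lit 0)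
  (nat_lit 4) (node (nat_lit 4) (nat_lit 0) (nat_lit 5) t476 nil) nil)) (node (nat_lit 4) (nat_lit
  0) (nat_lit 3) (node (nat_lit 3) (nat_lit 0) (nat_lit 4) (node (nat_lit 5) (nat_lit 0) (nat_lit
  5) (node (nat_lit 7) (nat_lit 0) (nat_lit 6) (node (nat_lit 4) (nat_lit 0) (nat_lit 7) (node
  (nat_lit 0) (nat_lit 0) (nat_lit 8) (node (nat_lit 5) (nat_lit 60813) (nat_lit 9) nil (node
  (nat_lit 7) (nat_lit 60813) (nat_lit 9) nil (node (nat_lit 4) (nat_lit 60813) (nat_lit 9) nil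
  (node (nat_lit 0) (nat_lit 61311) (nat_lit 9) nil nil)))) (node (nat_lit 5) (nat_lit 0) (nat_lit
  8) (node (nat_lit 0) (nat_lit 55716) (nat_lit 9) (node (nat_lit 5) (nat_lit 55716) (nat_lit 10)
  nil nil) (node (nat_lit 4) (nat_lit 0) (nat_lit 9) (node (nat_lit 0) (nat_lit 58372) (nat_lit
  10) nil nil) (node (nat_lit 7) (nat_lit 0) (nat_lit 9) (node (nat_lit 0) (nat_lit 58325)
  (nat_lit 10) nil nil) nil))) (node (nat_lit 7) (nat_lit 0) (nat_lit 8) (node (nat_lit 0)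
  (nat_lit 62330) (nat_lit 9) (node (nat_lit 7) (nat_lit 62330) (nat_lit 10) nil nil) (node
  (nat_lit 5) (nat_lit 0) (nat_lit 9) (node (nat_lit 0) (nat_lit 62330) (nat_lit 10) nil nil)
  nil)) nil))) (node (nat_lit 0) (nat_lit 59657) (nat_lit 7) (node (nat_lit 4) (nat_lit 60143)
  (nat_lit 8) (node (nat_lit 7) (nat_lit 61558) (nat_lit 9) (node (nat_lit 5) (nat_lit 61558)
  (nat_lit 10) nil (node (nat_lit 4) (nat_lit 61558) (nat_lit 10) nil nil)) (node (nat_lit 5)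
  (nat_lit 60479) (nat_lit 9) (node (nat_lit 7) (nat_lit 60479) (nat_lit 10) nil (node (nat_lit 4)
  (nat_lit 60479) (nat_lit 10) nil nil)) nil)) (node (nat_lit 5) (nat_lit 60438) (nat_lit 8) (node
  (nat_lit 4) (nat_lit 60774) (nat_lit 9) (node (nat_lit 7) (nat_lit 60774) (nat_lit 10) nil (node
  (nat_lit 5) (nat_lit 60774) (nat_lit 10) nil nil)) (node (nat_lit 7) (nat_lit 61862) (nat_lit 9)
  (node (nat_lit 4) (nat_lit 61862) (nat_lit 10) nil (node (nat_lit 5) (nat_lit 61862) (nat_lit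
  10) nil nil)) nil)) (node (nat_lit 7) (nat_lit 60531) (nat_lit 8) (node (nat_lit 5) (nat_lit
  61131) (nat_lit 9) (node (nat_lit 4) (nat_lit 61131) (nat_lit 10) nil nil) (node (nat_lit 4)
  (nat_lit 61346) (nat_lit 9) (node (nat_lit 5) (nat_lit 61346) (nat_lit 10) nil (node (nat_lit 7)
  (nat_lit 61346) (nat_lit 10) nil nil)) nil)) nil))) nil)) (node (nat_lit 4) (nat_lit 0) (nat_lit
  6) (node (nat_lit 5) (nat_lit 0) (nat_lit 7) (node (nat_lit 0) (nat_lit 0) (nat_lit 8) (node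
  (nat_lit 4) (nat_lit 62330) (nat_lit 9) nil (node (nat_lit 7) (nat_lit 62330) (nat_lit 9) nil
  (node (nat_lit 5) (nat_lit 62330) (nat_lit 9) nil (node (nat_lit 0) (nat_lit 62330) (nat_lit 9)
  nil nil)))) (node (nat_lit 7) (nat_lit 0) (nat_lit 8) (node (nat_lit 0) (nat_lit 0) (nat_lit 9)
  (node (nat_lit 7) (nat_lit 0) (nat_lit 10) (node (nat_lit 4) (nat_lit 60912) (nat_lit 11) (node
  (nat_lit 5) (nat_lit 61104) (nat_lit 12) (node (nat_lit 7) (nat_lit 61104) (nat_lit 13) nil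
  (node (nat_lit 4) (nat_lit 61104) (nat_lit 13) nil nil)) (node (nat_lit 7) (nat_lit 60969)
  (nat_lit 12) (node (nat_lit 5) (nat_lit 60969) (nat_lit 13) nil nil) (node (nat_lit 0) (nat_lit
  62155) (nat_lit 12) nil (node (nat_lit 12) (nat_lit 62155) (nat_lit 12) nil nil)))) (node
  (nat_lit 5) (nat_lit 60951) (nat_lit 11) (node (nat_lit 4) (nat_lit 61627) (nat_lit 12) (node
  (nat_lit 7) (nat_lit 61627) (nat_lit 13) nil (node (nat_lit 5) (nat_lit 61627) (nat_lit 13) nil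
  nil)) (node (nat_lit 7) (nat_lit 60951) (nat_lit 12) (node (nat_lit 4) (nat_lit 60951) (nat_lit
  13) nil nil) (node (nat_lit 12) (nat_lit 62194) (nat_lit 12) nil nil))) (node (nat_lit 0)
  (nat_lit 61916) (nat_lit 11) nil nil))) (node (nat_lit 5) (nat_lit 59596) (nat_lit 10) (node
  (nat_lit 7) (nat_lit 60845) (nat_lit 11) nil (node (nat_lit 12) (nat_lit 61775) (nat_lit 11) nil
  (node (nat_lit 4) (nat_lit 59596) (nat_lit 11) nil nil))) (node (nat_lit 0) (nat_lit 61446)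
  (nat_lit 10) nil (node (nat_lit 4) (nat_lit 58918) (nat_lit 10) nil nil)))) (node (nat_lit 5)
  (nat_lit 0) (nat_lit 9) (node (nat_lit 0) (nat_lit 62330) (nat_lit 10) (node (nat_lit 7)
  (nat_lit 62330) (nat_lit 11) (node (nat_lit 5) (nat_lit 62330) (nat_lit 12) nil nil) (node
  (nat_lit 5) (nat_lit 62330) (nat_lit 11) nil nil)) nil) (node (nat_lit 4) (nat_lit 0) (nat_lit
  9) (node (nat_lit 0) (nat_lit 62001) (nat_lit 10) (node (nat_lit 7) (nat_lit 62330) (nat_lit 11)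
  (node (nat_lit 4) (nat_lit 62330) (nat_lit 12) (node (nat_lit 5) (nat_lit 62330) (nat_lit 13)
  nil (node (nat_lit 7) (nat_lit 62330) (nat_lit 13) nil nil)) nil) nil) nil) nil))) nil)) (node
  (nat_lit 0) (nat_lit 0) (nat_lit 7) (node (nat_lit 5) (nat_lit 59862) (nat_lit 8) (node (nat_lit
  7) (nat_lit 59862) (nat_lit 9) nil (node (nat_lit 4) (nat_lit 59862) (nat_lit 9) (node (nat_lit
  7) (nat_lit 59862) (nat_lit 10) nil nil) (node (nat_lit 10) (nat_lit 61296) (nat_lit 9) nil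
  nil))) (node (nat_lit 7) (nat_lit 59798) (nat_lit 8) (node (nat_lit 5) (nat_lit 59798) (nat_lit
  9) nil (node (nat_lit 4) (nat_lit 59798) (nat_lit 9) nil (node (nat_lit 10) (nat_lit 61232)
  (nat_lit 9) nil nil))) (node (nat_lit 4) (nat_lit 60791) (nat_lit 8) (node (nat_lit 5) (nat_lit
  60791) (nat_lit 9) (node (nat_lit 7) (nat_lit 60791) (nat_lit 10) nil nil) (node (nat_lit 7)
  (nat_lit 60791) (nat_lit 9) (node (nat_lit 5) (nat_lit 60791) (nat_lit 10) nil nil) nil)) (node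
  (nat_lit 0) (nat_lit 60524) (nat_lit 8) nil nil)))) nil)) nil)) (node (nat_lit 4) (nat_lit 0)
  (nat_lit 5) (node (nat_lit 5) (nat_lit 0) (nat_lit 6) (node (nat_lit 7) (nat_lit 0) (nat_lit 7)
  (node (nat_lit 0) (nat_lit 0) (nat_lit 8) (node (nat_lit 5) (nat_lit 39365) (nat_lit 9) (node
  (nat_lit 7) (nat_lit 39365) (nat_lit 10) (node (nat_lit 5) (nat_lit 39365) (nat_lit 11) nil nil)
  (node (nat_lit 4) (nat_lit 39365) (nat_lit 10) nil (node (nat_lit 11) (nat_lit 40958) (nat_lit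
  10) nil nil))) (node (nat_lit 4) (nat_lit 39549) (nat_lit 9) (node (nat_lit 5) (nat_lit 39549)
  (nat_lit 10) (node (nat_lit 4) (nat_lit 39549) (nat_lit 11) nil nil) (node (nat_lit 7) (nat_lit
  39549) (nat_lit 10) (node (nat_lit 4) (nat_lit 39549) (nat_lit 11) nil nil) (node (nat_lit 11)
  (nat_lit 41141) (nat_lit 10) nil nil))) (node (nat_lit 7) (nat_lit 38814) (nat_lit 9) (node
  (nat_lit 5) (nat_lit 38814) (nat_lit 10) nil (node (nat_lit 4) (nat_lit 38814) (nat_lit 10) nil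
  nil)) (node (nat_lit 0) (nat_lit 39915) (nat_lit 9) nil nil)))) (node (nat_lit 4) (nat_lit 0)
  (nat_lit 8) (node (nat_lit 0) (nat_lit 41111) (nat_lit 9) (node (nat_lit 4) (nat_lit 0) (nat_lit
  10) (node (nat_lit 5) (nat_lit 41111) (nat_lit 11) nil (node (nat_lit 7) (nat_lit 41111)
  (nat_lit 11) nil (node (nat_lit 0) (nat_lit 42037) (nat_lit 11) nil nil))) (node (nat_lit 7)
  (nat_lit 41111) (nat_lit 10) nil nil)) (node (nat_lit 7) (nat_lit 0) (nat_lit 9) (node (nat_lit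
  0) (nat_lit 43789) (nat_lit 10) nil nil) nil)) (node (nat_lit 5) (nat_lit 0) (nat_lit 8) (node
  (nat_lit 0) (nat_lit 41025) (nat_lit 9) (node (nat_lit 5) (nat_lit 41025) (nat_lit 10) nil nil)
  (node (nat_lit 4) (nat_lit 0) (nat_lit 9) (node (nat_lit 0) (nat_lit 43914) (nat_lit 10) (node
  (nat_lit 5) (nat_lit 44030) (nat_lit 11) nil nil) nil) nil)) nil))) (node (nat_lit 0) (nat_lit
  0) (nat_lit 7) (node (nat_lit 7) (nat_lit 36419) (nat_lit 8) (node (nat_lit 5) (nat_lit 37659)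
  (nat_lit 9) (node (nat_lit 4) (nat_lit 38377) (nat_lit 10) nil (node (nat_lit 7) (nat_lit 38209)
  (nat_lit 10) nil nil)) (node (nat_lit 4) (nat_lit 37241) (nat_lit 9) (node (nat_lit 5) (nat_lit
  37211) (nat_lit 10) (node (nat_lit 7) (nat_lit 37211) (nat_lit 11) nil (node (nat_lit 4)
  (nat_lit 37211) (nat_lit 11) nil nil)) (node (nat_lit 7) (nat_lit 37995) (nat_lit 10) nil nil))
  (node (nat_lit 10) (nat_lit 37852) (nat_lit 9) nil nil))) (node (nat_lit 4) (nat_lit 36308)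
  (nat_lit 8) (node (nat_lit 5) (nat_lit 37594) (nat_lit 9) (node (nat_lit 7) (nat_lit 36901)
  (nat_lit 10) nil (node (nat_lit 4) (nat_lit 38661) (nat_lit 10) nil nil)) (node (nat_lit 7)
  (nat_lit 37942) (nat_lit 9) (node (nat_lit 5) (nat_lit 38661) (nat_lit 10) (node (nat_lit 4)
  (nat_lit 38661) (nat_lit 11) nil (node (nat_lit 7) (nat_lit 38661) (nat_lit 11) nil nil)) (node
  (nat_lit 4) (nat_lit 38661) (nat_lit 10) nil nil)) (node (nat_lit 10) (nat_lit 37741) (nat_lit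
  9) nil nil))) (node (nat_lit 5) (nat_lit 35857) (nat_lit 8) (node (nat_lit 4) (nat_lit 37519)
  (nat_lit 9) (node (nat_lit 7) (nat_lit 37519) (nat_lit 10) (node (nat_lit 5) (nat_lit 37519)
  (nat_lit 11) nil (node (nat_lit 4) (nat_lit 37519) (nat_lit 11) nil nil)) (node (nat_lit 5)
  (nat_lit 37519) (nat_lit 10) nil nil)) (node (nat_lit 7) (nat_lit 37422) (nat_lit 9) (node
  (nat_lit 4) (nat_lit 37422) (nat_lit 10) (node (nat_lit 5) (nat_lit 37422) (nat_lit 11) nil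
  (node (nat_lit 7) (nat_lit 37422) (nat_lit 11) (node (nat_lit 5) (nat_lit 37422) (nat_lit 12)
  nil nil) nil)) (node (nat_lit 5) (nat_lit 37422) (nat_lit 10) nil nil)) nil)) (node (nat_lit 0)
  (nat_lit 36567) (nat_lit 8) nil nil)))) nil)) nil) nil)) nil) nil))

noncomputable def c68 : Tr :=
  (node (nat_lit 3) (nat_lit 0) (nat_lit 1) (node (nat_lit 3) (nat_lit 0) (nat_lit 2) t477 nil)
  nil)

noncomputable def t478 : Tr :=
  (node (nat_lit 6) (nat_lit 0) (nat_lit 6) (node (nat_lit 4) (nat_lit 0) (nat_lit 7) (node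
  (nat_lit 5) (nat_lit 0) (nat_lit 8) (node (nat_lit 0) (nat_lit 0) (nat_lit 9) (node (nat_lit 6)
  (nat_lit 93675) (nat_lit 10) nil (node (nat_lit 4) (nat_lit 93675) (nat_lit 10) nil (node
  (nat_lit 5) (nat_lit 93675) (nat_lit 10) nil (node (nat_lit 0) (nat_lit 94735) (nat_lit 10) nil
  nil)))) (node (nat_lit 6) (nat_lit 0) (nat_lit 9) (node (nat_lit 0) (nat_lit 78646) (nat_lit 10)
  (node (nat_lit 6) (nat_lit 78646) (nat_lit 11) nil nil) (node (nat_lit 5) (nat_lit 0) (nat_lit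
  10) (node (nat_lit 0) (nat_lit 81097) (nat_lit 11) nil nil) (node (nat_lit 4) (nat_lit 0)
  (nat_lit 10) (node (nat_lit 0) (nat_lit 81137) (nat_lit 11) nil nil) nil))) (node (nat_lit 4)
  (nat_lit 0) (nat_lit 9) (node (nat_lit 0) (nat_lit 97657) (nat_lit 10) nil (node (nat_lit 6)
  (nat_lit 0) (nat_lit 10) (node (nat_lit 0) (nat_lit 100589) (nat_lit 11) nil nil) nil)) nil)))
  (node (nat_lit 0) (nat_lit 99682) (nat_lit 8) (node (nat_lit 5) (nat_lit 99947) (nat_lit 9)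
  (node (nat_lit 6) (nat_lit 99947) (nat_lit 10) (node (nat_lit 4) (nat_lit 99947) (nat_lit 11)
  nil (node (nat_lit 5) (nat_lit 99947) (nat_lit 11) nil nil)) (node (nat_lit 4) (nat_lit 99947)
  (nat_lit 10) (node (nat_lit 6) (nat_lit 99947) (nat_lit 11) nil (node (nat_lit 5) (nat_lit
  99947) (nat_lit 11) nil nil)) nil)) (node (nat_lit 6) (nat_lit 99552) (nat_lit 9) (node (nat_lit
  5) (nat_lit 99552) (nat_lit 10) (node (nat_lit 4) (nat_lit 99552) (nat_lit 11) nil (node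
  (nat_lit 6) (nat_lit 99552) (nat_lit 11) nil nil)) (node (nat_lit 4) (nat_lit 99552) (nat_lit
  10) (node (nat_lit 5) (nat_lit 99552) (nat_lit 11) nil (node (nat_lit 6) (nat_lit 99552)
  (nat_lit 11) nil nil)) nil)) (node (nat_lit 4) (nat_lit 99893) (nat_lit 9) (node (nat_lit 6)
  (nat_lit 99893) (nat_lit 10) (node (nat_lit 5) (nat_lit 99893) (nat_lit 11) nil (node (nat_lit
  4) (nat_lit 99893) (nat_lit 11) nil nil)) (node (nat_lit 5) (nat_lit 99893) (nat_lit 10) (node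
  (nat_lit 6) (nat_lit 99893) (nat_lit 11) nil (node (nat_lit 4) (nat_lit 99893) (nat_lit 11) nil
  nil)) nil)) nil))) nil)) (node (nat_lit 5) (nat_lit 0) (nat_lit 7) (node (nat_lit 6) (nat_lit 0)
  (nat_lit 8) (node (nat_lit 0) (nat_lit 0) (nat_lit 9) (node (nat_lit 5) (nat_lit 94511) (nat_lit
  10) (node (nat_lit 4) (nat_lit 94951) (nat_lit 11) (node (nat_lit 6) (nat_lit 95296) (nat_lit
  12) (node (nat_lit 4) (nat_lit 95296) (nat_lit 13) nil (node (nat_lit 5) (nat_lit 95296)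
  (nat_lit 13) nil nil)) (node (nat_lit 5) (nat_lit 94951) (nat_lit 12) (node (nat_lit 6) (nat_lit
  94951) (nat_lit 13) nil nil) nil)) (node (nat_lit 6) (nat_lit 95225) (nat_lit 11) (node (nat_lit
  5) (nat_lit 95225) (nat_lit 12) (node (nat_lit 4) (nat_lit 95225) (nat_lit 13) nil nil) (node
  (nat_lit 4) (nat_lit 95225) (nat_lit 12) nil nil)) (node (nat_lit 12) (nat_lit 97869) (nat_lit
  11) nil nil))) (node (nat_lit 4) (nat_lit 94309) (nat_lit 10) (node (nat_lit 6) (nat_lit 95147)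
  (nat_lit 11) (node (nat_lit 4) (nat_lit 95650) (nat_lit 12) (node (nat_lit 5) (nat_lit 95650)
  (nat_lit 13) nil nil) (node (nat_lit 5) (nat_lit 95147) (nat_lit 12) nil nil)) (node (nat_lit 5)
  (nat_lit 94407) (nat_lit 11) (node (nat_lit 4) (nat_lit 94407) (nat_lit 12) (node (nat_lit 6)
  (nat_lit 94407) (nat_lit 13) nil nil) (node (nat_lit 6) (nat_lit 94232) (nat_lit 12) (node
  (nat_lit 4) (nat_lit 94232) (nat_lit 13) nil (node (nat_lit 5) (nat_lit 94232) (nat_lit 13) nil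
  nil)) nil)) (node (nat_lit 12) (nat_lit 97667) (nat_lit 11) nil nil))) (node (nat_lit 6)
  (nat_lit 94011) (nat_lit 10) (node (nat_lit 5) (nat_lit 94059) (nat_lit 11) (node (nat_lit 4)
  (nat_lit 94059) (nat_lit 12) nil (node (nat_lit 6) (nat_lit 94059) (nat_lit 12) nil nil)) (node
  (nat_lit 4) (nat_lit 94457) (nat_lit 11) (node (nat_lit 5) (nat_lit 94457) (nat_lit 12) nil
  (node (nat_lit 6) (nat_lit 94457) (nat_lit 12) nil nil)) nil)) (node (nat_lit 0) (nat_lit 96913)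
  (nat_lit 10) nil nil)))) (node (nat_lit 4) (nat_lit 0) (nat_lit 9) (node (nat_lit 0) (nat_lit
  99720) (nat_lit 10) (node (nat_lit 4) (nat_lit 99720) (nat_lit 11) (node (nat_lit 6) (nat_lit
  99720) (nat_lit 12) nil (node (nat_lit 5) (nat_lit 99720) (nat_lit 12) nil nil)) nil) (node
  (nat_lit 6) (nat_lit 0) (nat_lit 10) (node (nat_lit 0) (nat_lit 103521) (nat_lit 11) (node
  (nat_lit 4) (nat_lit 103521) (nat_lit 12) nil nil) nil) (node (nat_lit 5) (nat_lit 0) (nat_lit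
  10) (node (nat_lit 0) (nat_lit 103866) (nat_lit 11) (node (nat_lit 4) (nat_lit 103866) (nat_lit
  12) nil nil) nil) nil))) nil)) (node (nat_lit 0) (nat_lit 0) (nat_lit 8) (node (nat_lit 6)
  (nat_lit 94324) (nat_lit 9) (node (nat_lit 4) (nat_lit 94870) (nat_lit 10) (node (nat_lit 5)
  (nat_lit 94870) (nat_lit 11) (node (nat_lit 6) (nat_lit 94870) (nat_lit 12) nil (node (nat_lit
  4) (nat_lit 94870) (nat_lit 12) nil nil)) (node (nat_lit 6) (nat_lit 94870) (nat_lit 11) (node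
  (nat_lit 5) (nat_lit 94870) (nat_lit 12) nil nil) nil)) (node (nat_lit 5) (nat_lit 94776)
  (nat_lit 10) (node (nat_lit 4) (nat_lit 94776) (nat_lit 11) (node (nat_lit 5) (nat_lit 94776)
  (nat_lit 12) nil (node (nat_lit 6) (nat_lit 94776) (nat_lit 12) nil nil)) (node (nat_lit 6)
  (nat_lit 94837) (nat_lit 11) (node (nat_lit 4) (nat_lit 94837) (nat_lit 12) nil nil) nil)) (node
  (nat_lit 11) (nat_lit 95832) (nat_lit 10) nil nil))) (node (nat_lit 5) (nat_lit 94109) (nat_lit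
  9) (node (nat_lit 4) (nat_lit 95180) (nat_lit 10) (node (nat_lit 6) (nat_lit 95180) (nat_lit 11)
  (node (nat_lit 4) (nat_lit 95180) (nat_lit 12) nil (node (nat_lit 5) (nat_lit 95180) (nat_lit
  12) nil nil)) (node (nat_lit 5) (nat_lit 95180) (nat_lit 11) nil nil)) (node (nat_lit 6)
  (nat_lit 95012) (nat_lit 10) (node (nat_lit 4) (nat_lit 95012) (nat_lit 11) (node (nat_lit 6)
  (nat_lit 95012) (nat_lit 12) nil (node (nat_lit 5) (nat_lit 95012) (nat_lit 12) nil nil)) (node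
  (nat_lit 5) (nat_lit 95012) (nat_lit 11) nil nil)) nil)) (node (nat_lit 4) (nat_lit 94234)
  (nat_lit 9) (node (nat_lit 6) (nat_lit 95309) (nat_lit 10) (node (nat_lit 5) (nat_lit 95309)
  (nat_lit 11) (node (nat_lit 4) (nat_lit 95309) (nat_lit 12) nil (node (nat_lit 6) (nat_lit
  95309) (nat_lit 12) nil nil)) (node (nat_lit 4) (nat_lit 95309) (nat_lit 11) nil nil)) (node
  (nat_lit 5) (nat_lit 94692) (nat_lit 10) (node (nat_lit 6) (nat_lit 94692) (nat_lit 11) (node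
  (nat_lit 5) (nat_lit 94692) (nat_lit 12) nil (node (nat_lit 4) (nat_lit 94692) (nat_lit 12) nil
  nil)) (node (nat_lit 4) (nat_lit 94692) (nat_lit 11) nil nil)) (node (nat_lit 11) (nat_lit
  95742) (nat_lit 10) nil nil))) (node (nat_lit 0) (nat_lit 97293) (nat_lit 9) nil nil)))) nil))
  nil)) (node (nat_lit 5) (nat_lit 0) (nat_lit 6) (node (nat_lit 6) (nat_lit 0) (nat_lit 7) (node
  (nat_lit 4) (nat_lit 0) (nat_lit 8) (node (nat_lit 0) (nat_lit 0) (nat_lit 9) (node (nat_lit 6)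
  (nat_lit 64112) (nat_lit 10) (node (nat_lit 4) (nat_lit 65687) (nat_lit 11) (node (nat_lit 6)
  (nat_lit 67273) (nat_lit 12) (node (nat_lit 5) (nat_lit 68551) (nat_lit 13) (node (nat_lit 4)
  (nat_lit 69669) (nat_lit 14) (node (nat_lit 5) (nat_lit 70258) (nat_lit 15) nil nil) (node
  (nat_lit 6) (nat_lit 69378) (nat_lit 14) (node (nat_lit 4) (nat_lit 69967) (nat_lit 15) nil nil)
  nil)) nil) (node (nat_lit 5) (nat_lit 65429) (nat_lit 12) (node (nat_lit 6) (nat_lit 65405)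
  (nat_lit 13) (node (nat_lit 5) (nat_lit 65477) (nat_lit 14) nil nil) (node (nat_lit 4) (nat_lit
  65502) (nat_lit 13) (node (nat_lit 6) (nat_lit 65437) (nat_lit 14) nil nil) nil)) nil)) (node
  (nat_lit 5) (nat_lit 65306) (nat_lit 11) (node (nat_lit 6) (nat_lit 65824) (nat_lit 12) (node
  (nat_lit 4) (nat_lit 65871) (nat_lit 13) (node (nat_lit 5) (nat_lit 65943) (nat_lit 14) (node
  (nat_lit 4) (nat_lit 65420) (nat_lit 15) nil nil) (node (nat_lit 6) (nat_lit 65806) (nat_lit 14)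
  nil nil)) nil) (node (nat_lit 4) (nat_lit 66101) (nat_lit 12) (node (nat_lit 6) (nat_lit 66101)
  (nat_lit 13) nil (node (nat_lit 5) (nat_lit 66759) (nat_lit 13) (node (nat_lit 6) (nat_lit
  67586) (nat_lit 14) nil nil) nil)) (node (nat_lit 12) (nat_lit 66714) (nat_lit 12) nil nil)))
  (node (nat_lit 12) (nat_lit 68703) (nat_lit 11) (node (nat_lit 4) (nat_lit 68703) (nat_lit 12)
  nil nil) nil))) (node (nat_lit 5) (nat_lit 63905) (nat_lit 10) (node (nat_lit 6) (nat_lit 65537)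
  (nat_lit 11) (node (nat_lit 4) (nat_lit 66104) (nat_lit 12) (node (nat_lit 5) (nat_lit 66580)
  (nat_lit 13) (node (nat_lit 6) (nat_lit 66580) (nat_lit 14) nil nil) (node (nat_lit 6) (nat_lit
  66079) (nat_lit 13) (node (nat_lit 5) (nat_lit 66079) (nat_lit 14) nil nil) nil)) (node (nat_lit
  5) (nat_lit 66789) (nat_lit 12) (node (nat_lit 4) (nat_lit 67255) (nat_lit 13) (node (nat_lit 6)
  (nat_lit 67481) (nat_lit 14) (node (nat_lit 4) (nat_lit 68071) (nat_lit 15) nil nil) (node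
  (nat_lit 5) (nat_lit 68081) (nat_lit 14) nil nil)) nil) (node (nat_lit 12) (nat_lit 66945)
  (nat_lit 12) nil nil))) (node (nat_lit 4) (nat_lit 65473) (nat_lit 11) (node (nat_lit 5)
  (nat_lit 66174) (nat_lit 12) (node (nat_lit 6) (nat_lit 66642) (nat_lit 13) (node (nat_lit 4)
  (nat_lit 67236) (nat_lit 14) (node (nat_lit 6) (nat_lit 67826) (nat_lit 15) nil nil) (node
  (nat_lit 5) (nat_lit 67005) (nat_lit 14) (node (nat_lit 4) (nat_lit 66481) (nat_lit 15) nil nil)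
  nil)) nil) (node (nat_lit 6) (nat_lit 65819) (nat_lit 12) (node (nat_lit 5) (nat_lit 65819)
  (nat_lit 13) nil (node (nat_lit 4) (nat_lit 65819) (nat_lit 13) nil nil)) (node (nat_lit 12)
  (nat_lit 66881) (nat_lit 12) nil nil))) (node (nat_lit 12) (nat_lit 69014) (nat_lit 11) nil
  nil))) (node (nat_lit 4) (nat_lit 0) (nat_lit 10) (node (nat_lit 6) (nat_lit 65819) (nat_lit 11)
  (node (nat_lit 4) (nat_lit 66832) (nat_lit 12) (node (nat_lit 5) (nat_lit 66832) (nat_lit 13)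
  nil nil) (node (nat_lit 5) (nat_lit 66837) (nat_lit 12) (node (nat_lit 4) (nat_lit 67208)
  (nat_lit 13) nil nil) nil)) (node (nat_lit 5) (nat_lit 65509) (nat_lit 11) (node (nat_lit 6)
  (nat_lit 67042) (nat_lit 12) (node (nat_lit 5) (nat_lit 68093) (nat_lit 13) nil (node (nat_lit
  4) (nat_lit 66422) (nat_lit 13) nil nil)) (node (nat_lit 4) (nat_lit 66790) (nat_lit 12) (node
  (nat_lit 6) (nat_lit 67161) (nat_lit 13) nil nil) nil)) (node (nat_lit 0) (nat_lit 65103)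
  (nat_lit 11) nil nil))) (node (nat_lit 0) (nat_lit 67607) (nat_lit 10) (node (nat_lit 4)
  (nat_lit 67607) (nat_lit 11) nil nil) nil)))) (node (nat_lit 5) (nat_lit 0) (nat_lit 9) (node
  (nat_lit 0) (nat_lit 0) (nat_lit 10) (node (nat_lit 5) (nat_lit 0) (nat_lit 11) (node (nat_lit
  6) (nat_lit 69449) (nat_lit 12) (node (nat_lit 4) (nat_lit 70379) (nat_lit 13) (node (nat_lit 5)
  (nat_lit 70671) (nat_lit 14) (node (nat_lit 4) (nat_lit 70671) (nat_lit 15) nil nil) (node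
  (nat_lit 6) (nat_lit 70147) (nat_lit 14) nil nil)) (node (nat_lit 5) (nat_lit 70219) (nat_lit
  13) (node (nat_lit 4) (nat_lit 70219) (nat_lit 14) nil nil) (node (nat_lit 0) (nat_lit 70547)
  (nat_lit 13) nil nil))) (node (nat_lit 4) (nat_lit 69378) (nat_lit 12) (node (nat_lit 6)
  (nat_lit 70547) (nat_lit 13) (node (nat_lit 5) (nat_lit 71063) (nat_lit 14) nil (node (nat_lit
  4) (nat_lit 70547) (nat_lit 14) nil nil)) (node (nat_lit 5) (nat_lit 69606) (nat_lit 13) (node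
  (nat_lit 6) (nat_lit 69606) (nat_lit 14) nil nil) (node (nat_lit 13) (nat_lit 72019) (nat_lit
  13) nil nil))) (node (nat_lit 0) (nat_lit 70600) (nat_lit 12) nil nil))) (node (nat_lit 4)
  (nat_lit 68439) (nat_lit 11) (node (nat_lit 5) (nat_lit 68905) (nat_lit 12) nil (node (nat_lit
  13) (nat_lit 70407) (nat_lit 12) nil nil)) (node (nat_lit 6) (nat_lit 68278) (nat_lit 11) nil
  (node (nat_lit 0) (nat_lit 69841) (nat_lit 11) nil nil)))) (node (nat_lit 4) (nat_lit 0)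
  (nat_lit 10) (node (nat_lit 0) (nat_lit 71800) (nat_lit 11) (node (nat_lit 5) (nat_lit 71750)
  (nat_lit 12) (node (nat_lit 4) (nat_lit 72192) (nat_lit 13) (node (nat_lit 5) (nat_lit 72189)
  (nat_lit 14) (node (nat_lit 6) (nat_lit 72189) (nat_lit 15) nil nil) (node (nat_lit 6) (nat_lit
  72236) (nat_lit 14) (node (nat_lit 5) (nat_lit 72236) (nat_lit 15) nil (node (nat_lit 4)
  (nat_lit 72236) (nat_lit 15) nil nil)) nil)) nil) (node (nat_lit 4) (nat_lit 72083) (nat_lit 12)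
  nil nil)) nil) nil)) (node (nat_lit 6) (nat_lit 0) (nat_lit 9) (node (nat_lit 0) (nat_lit 0)
  (nat_lit 10) (node (nat_lit 6) (nat_lit 67799) (nat_lit 11) (node (nat_lit 4) (nat_lit 68857)
  (nat_lit 12) (node (nat_lit 5) (nat_lit 68846) (nat_lit 13) (node (nat_lit 6) (nat_lit 68846)
  (nat_lit 14) nil (node (nat_lit 4) (nat_lit 68846) (nat_lit 14) nil nil)) (node (nat_lit 6)
  (nat_lit 68857) (nat_lit 13) nil nil)) (node (nat_lit 5) (nat_lit 68394) (nat_lit 12) (node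
  (nat_lit 4) (nat_lit 68394) (nat_lit 13) (node (nat_lit 6) (nat_lit 68394) (nat_lit 14) nil nil)
  (node (nat_lit 6) (nat_lit 68394) (nat_lit 13) (node (nat_lit 4) (nat_lit 68394) (nat_lit 14)
  nil nil) nil)) nil)) (node (nat_lit 4) (nat_lit 68266) (nat_lit 11) (node (nat_lit 6) (nat_lit
  68266) (nat_lit 12) nil (node (nat_lit 5) (nat_lit 68266) (nat_lit 12) nil nil)) (node (nat_lit
  5) (nat_lit 67737) (nat_lit 11) (node (nat_lit 6) (nat_lit 67737) (nat_lit 12) nil nil) (node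
  (nat_lit 0) (nat_lit 68125) (nat_lit 11) nil nil)))) (node (nat_lit 5) (nat_lit 0) (nat_lit 10)
  (node (nat_lit 0) (nat_lit 71786) (nat_lit 11) (node (nat_lit 6) (nat_lit 71865) (nat_lit 12)
  (node (nat_lit 5) (nat_lit 72038) (nat_lit 13) (node (nat_lit 4) (nat_lit 72038) (nat_lit 14)
  nil (node (nat_lit 6) (nat_lit 72038) (nat_lit 14) nil nil)) nil) (node (nat_lit 5) (nat_lit
  71772) (nat_lit 12) nil nil)) nil) nil)) nil))) (node (nat_lit 0) (nat_lit 0) (nat_lit 8) (node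
  (nat_lit 6) (nat_lit 59053) (nat_lit 9) (node (nat_lit 5) (nat_lit 61380) (nat_lit 10) (node
  (nat_lit 4) (nat_lit 62670) (nat_lit 11) (node (nat_lit 6) (nat_lit 62670) (nat_lit 12) (node
  (nat_lit 4) (nat_lit 62670) (nat_lit 13) nil nil) (node (nat_lit 5) (nat_lit 62670) (nat_lit 12)
  (node (nat_lit 6) (nat_lit 62670) (nat_lit 13) nil nil) nil)) (node (nat_lit 6) (nat_lit 62919)
  (nat_lit 11) (node (nat_lit 4) (nat_lit 62919) (nat_lit 12) nil nil) nil)) (node (nat_lit 4)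
  (nat_lit 61824) (nat_lit 10) (node (nat_lit 5) (nat_lit 63747) (nat_lit 11) (node (nat_lit 6)
  (nat_lit 63982) (nat_lit 12) (node (nat_lit 5) (nat_lit 63982) (nat_lit 13) nil (node (nat_lit
  4) (nat_lit 63982) (nat_lit 13) nil nil)) (node (nat_lit 4) (nat_lit 64633) (nat_lit 12) (node
  (nat_lit 6) (nat_lit 64581) (nat_lit 13) (node (nat_lit 5) (nat_lit 64001) (nat_lit 14) nil nil)
  nil) nil)) (node (nat_lit 6) (nat_lit 63627) (nat_lit 11) (node (nat_lit 5) (nat_lit 63627)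
  (nat_lit 12) nil nil) nil)) nil)) (node (nat_lit 5) (nat_lit 59116) (nat_lit 9) (node (nat_lit
  4) (nat_lit 61268) (nat_lit 10) (node (nat_lit 6) (nat_lit 63190) (nat_lit 11) (node (nat_lit 4)
  (nat_lit 63155) (nat_lit 12) (node (nat_lit 5) (nat_lit 63155) (nat_lit 13) nil nil) (node
  (nat_lit 5) (nat_lit 64538) (nat_lit 12) (node (nat_lit 6) (nat_lit 64538) (nat_lit 13) nil nil)
  nil)) (node (nat_lit 5) (nat_lit 62006) (nat_lit 11) (node (nat_lit 6) (nat_lit 62006) (nat_lit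
  12) nil nil) nil)) (node (nat_lit 6) (nat_lit 61757) (nat_lit 10) (node (nat_lit 4) (nat_lit
  62459) (nat_lit 11) (node (nat_lit 5) (nat_lit 63302) (nat_lit 12) (node (nat_lit 4) (nat_lit
  63302) (nat_lit 13) nil nil) (node (nat_lit 6) (nat_lit 62459) (nat_lit 12) (node (nat_lit 5)
  (nat_lit 62459) (nat_lit 13) nil nil) nil)) (node (nat_lit 5) (nat_lit 63478) (nat_lit 11) (node
  (nat_lit 4) (nat_lit 63478) (nat_lit 12) nil nil) nil)) (node (nat_lit 11) (nat_lit 66952)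
  (nat_lit 10) nil nil))) (node (nat_lit 4) (nat_lit 59168) (nat_lit 9) (node (nat_lit 6) (nat_lit
  61758) (nat_lit 10) (node (nat_lit 5) (nat_lit 63050) (nat_lit 11) (node (nat_lit 6) (nat_lit
  63895) (nat_lit 12) (node (nat_lit 4) (nat_lit 63895) (nat_lit 13) nil nil) (node (nat_lit 4)
  (nat_lit 63895) (nat_lit 12) (node (nat_lit 5) (nat_lit 63895) (nat_lit 13) nil nil) nil)) (node
  (nat_lit 4) (nat_lit 63556) (nat_lit 11) (node (nat_lit 5) (nat_lit 63556) (nat_lit 12) nil nil)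
  nil)) (node (nat_lit 5) (nat_lit 61604) (nat_lit 10) (node (nat_lit 6) (nat_lit 61832) (nat_lit
  11) (node (nat_lit 5) (nat_lit 62676) (nat_lit 12) (node (nat_lit 4) (nat_lit 63736) (nat_lit
  13) (node (nat_lit 6) (nat_lit 64329) (nat_lit 14) nil nil) nil) (node (nat_lit 4) (nat_lit
  62174) (nat_lit 12) (node (nat_lit 6) (nat_lit 62174) (nat_lit 13) nil nil) nil)) (node (nat_lit
  4) (nat_lit 63409) (nat_lit 11) (node (nat_lit 6) (nat_lit 63409) (nat_lit 12) nil nil) nil))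
  (node (nat_lit 11) (nat_lit 67522) (nat_lit 10) nil nil))) (node (nat_lit 0) (nat_lit 58039)
  (nat_lit 9) nil nil)))) nil)) nil) nil))

noncomputable def t479 : Tr :=
  (node (nat_lit 3) (nat_lit 0) (nat_lit 3) (node (nat_lit 4) (nat_lit 0) (nat_lit 4) (node
  (nat_lit 6) (nat_lit 0) (nat_lit 5) (node (nat_lit 5) (nat_lit 0) (nat_lit 6) (node (nat_lit 4)
  (nat_lit 0) (nat_lit 7) (node (nat_lit 5) (nat_lit 0) (nat_lit 8) (node (nat_lit 0) (nat_lit 0)
  (nat_lit 9) (node (nat_lit 4) (nat_lit 88651) (nat_lit 10) (node (nat_lit 5) (nat_lit 88651)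
  (nat_lit 11) nil (node (nat_lit 6) (nat_lit 88651) (nat_lit 11) nil nil)) (node (nat_lit 6)
  (nat_lit 88651) (nat_lit 10) (node (nat_lit 4) (nat_lit 88651) (nat_lit 11) nil (node (nat_lit
  5) (nat_lit 88651) (nat_lit 11) nil nil)) (node (nat_lit 5) (nat_lit 88651) (nat_lit 10) nil
  (node (nat_lit 0) (nat_lit 89712) (nat_lit 10) nil nil)))) (node (nat_lit 6) (nat_lit 0)
  (nat_lit 9) (node (nat_lit 0) (nat_lit 0) (nat_lit 10) (node (nat_lit 6) (nat_lit 0) (nat_lit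
  11) (node (nat_lit 5) (nat_lit 66230) (nat_lit 12) (node (nat_lit 4) (nat_lit 66230) (nat_lit
  13) nil (node (nat_lit 6) (nat_lit 66230) (nat_lit 13) nil (node (nat_lit 13) (nat_lit 68205)
  (nat_lit 13) nil nil))) (node (nat_lit 4) (nat_lit 66230) (nat_lit 12) (node (nat_lit 5)
  (nat_lit 66230) (nat_lit 13) nil nil) (node (nat_lit 0) (nat_lit 67702) (nat_lit 12) nil nil)))
  (node (nat_lit 5) (nat_lit 66471) (nat_lit 11) (node (nat_lit 13) (nat_lit 67943) (nat_lit 12)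
  nil nil) (node (nat_lit 4) (nat_lit 66471) (nat_lit 11) nil (node (nat_lit 0) (nat_lit 67823)
  (nat_lit 11) nil nil)))) (node (nat_lit 4) (nat_lit 0) (nat_lit 10) (node (nat_lit 0) (nat_lit
  48946) (nat_lit 11) nil nil) (node (nat_lit 5) (nat_lit 0) (nat_lit 10) (node (nat_lit 0)
  (nat_lit 68578) (nat_lit 11) (node (nat_lit 6) (nat_lit 68578) (nat_lit 12) nil nil) nil) nil)))
  nil)) (node (nat_lit 6) (nat_lit 0) (nat_lit 8) (node (nat_lit 0) (nat_lit 0) (nat_lit 9) (node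
  (nat_lit 4) (nat_lit 82324) (nat_lit 10) (node (nat_lit 6) (nat_lit 82324) (nat_lit 11) nil
  (node (nat_lit 5) (nat_lit 82324) (nat_lit 11) nil (node (nat_lit 12) (nat_lit 84210) (nat_lit
  11) nil nil))) (node (nat_lit 5) (nat_lit 82329) (nat_lit 10) (node (nat_lit 4) (nat_lit 82329)
  (nat_lit 11) nil (node (nat_lit 6) (nat_lit 82329) (nat_lit 11) nil (node (nat_lit 12) (nat_lit
  85064) (nat_lit 11) nil nil))) (node (nat_lit 6) (nat_lit 82117) (nat_lit 10) (node (nat_lit 4)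
  (nat_lit 82117) (nat_lit 11) nil (node (nat_lit 5) (nat_lit 82117) (nat_lit 11) nil nil)) (node
  (nat_lit 0) (nat_lit 84022) (nat_lit 10) nil nil)))) (node (nat_lit 4) (nat_lit 0) (nat_lit 9)
  (node (nat_lit 0) (nat_lit 88290) (nat_lit 10) (node (nat_lit 4) (nat_lit 88290) (nat_lit 11)
  nil nil) (node (nat_lit 5) (nat_lit 0) (nat_lit 10) (node (nat_lit 0) (nat_lit 90915) (nat_lit
  11) nil nil) nil)) nil)) (node (nat_lit 0) (nat_lit 0) (nat_lit 8) (node (nat_lit 5) (nat_lit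
  84391) (nat_lit 9) (node (nat_lit 6) (nat_lit 84391) (nat_lit 10) (node (nat_lit 4) (nat_lit
  84391) (nat_lit 11) nil (node (nat_lit 5) (nat_lit 84391) (nat_lit 11) nil nil)) (node (nat_lit
  4) (nat_lit 84365) (nat_lit 10) (node (nat_lit 6) (nat_lit 84365) (nat_lit 11) nil (node
  (nat_lit 5) (nat_lit 84365) (nat_lit 11) nil nil)) nil)) (node (nat_lit 4) (nat_lit 84510)
  (nat_lit 9) (node (nat_lit 5) (nat_lit 85014) (nat_lit 10) (node (nat_lit 6) (nat_lit 85014)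
  (nat_lit 11) nil nil) (node (nat_lit 6) (nat_lit 84790) (nat_lit 10) (node (nat_lit 5) (nat_lit
  84790) (nat_lit 11) nil (node (nat_lit 4) (nat_lit 84790) (nat_lit 11) nil nil)) nil)) (node
  (nat_lit 6) (nat_lit 84474) (nat_lit 9) (node (nat_lit 5) (nat_lit 84448) (nat_lit 10) (node
  (nat_lit 4) (nat_lit 84448) (nat_lit 11) nil (node (nat_lit 6) (nat_lit 84448) (nat_lit 11) nil
  nil)) (node (nat_lit 4) (nat_lit 84977) (nat_lit 10) (node (nat_lit 5) (nat_lit 84977) (nat_lit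
  11) nil (node (nat_lit 6) (nat_lit 84977) (nat_lit 11) nil nil)) nil)) (node (nat_lit 0)
  (nat_lit 85345) (nat_lit 9) nil nil)))) nil))) (node (nat_lit 6) (nat_lit 0) (nat_lit 7) (node
  (nat_lit 4) (nat_lit 0) (nat_lit 8) (node (nat_lit 0) (nat_lit 95865) (nat_lit 9) (node (nat_lit
  5) (nat_lit 95865) (nat_lit 10) nil (node (nat_lit 6) (nat_lit 95865) (nat_lit 10) nil nil))
  (node (nat_lit 5) (nat_lit 0) (nat_lit 9) (node (nat_lit 0) (nat_lit 100362) (nat_lit 10) nil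
  (node (nat_lit 4) (nat_lit 0) (nat_lit 10) (node (nat_lit 0) (nat_lit 101684) (nat_lit 11) nil
  nil) (node (nat_lit 6) (nat_lit 0) (nat_lit 10) (node (nat_lit 0) (nat_lit 102658) (nat_lit 11)
  nil nil) nil))) nil)) (node (nat_lit 0) (nat_lit 93204) (nat_lit 8) (node (nat_lit 6) (nat_lit
  93204) (nat_lit 9) nil (node (nat_lit 5) (nat_lit 93378) (nat_lit 9) nil (node (nat_lit 4)
  (nat_lit 93204) (nat_lit 9) nil nil))) nil)) nil)) nil) (node (nat_lit 5) (nat_lit 0) (nat_lit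
  5) (node (nat_lit 4) (nat_lit 0) (nat_lit 6) (node (nat_lit 6) (nat_lit 0) (nat_lit 7) (node
  (nat_lit 5) (nat_lit 0) (nat_lit 8) (node (nat_lit 0) (nat_lit 0) (nat_lit 9) (node (nat_lit 4)
  (nat_lit 52957) (nat_lit 10) nil (node (nat_lit 6) (nat_lit 52957) (nat_lit 10) nil (node
  (nat_lit 5) (nat_lit 52957) (nat_lit 10) nil (node (nat_lit 0) (nat_lit 53428) (nat_lit 10) nil
  nil)))) (node (nat_lit 4) (nat_lit 0) (nat_lit 9) (node (nat_lit 0) (nat_lit 41183) (nat_lit 10)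
  (node (nat_lit 4) (nat_lit 41183) (nat_lit 11) nil nil) (node (nat_lit 5) (nat_lit 0) (nat_lit
  10) (node (nat_lit 0) (nat_lit 43238) (nat_lit 11) nil nil) nil)) (node (nat_lit 6) (nat_lit 0)
  (nat_lit 9) (node (nat_lit 0) (nat_lit 56307) (nat_lit 10) nil (node (nat_lit 4) (nat_lit 0)
  (nat_lit 10) (node (nat_lit 0) (nat_lit 58919) (nat_lit 11) nil nil) nil)) nil))) (node (nat_lit
  0) (nat_lit 60212) (nat_lit 8) (node (nat_lit 5) (nat_lit 60212) (nat_lit 9) nil (node (nat_lit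
  6) (nat_lit 60212) (nat_lit 9) nil (node (nat_lit 4) (nat_lit 60212) (nat_lit 9) nil nil)))
  (node (nat_lit 4) (nat_lit 0) (nat_lit 8) (node (nat_lit 0) (nat_lit 59331) (nat_lit 9) nil
  (node (nat_lit 5) (nat_lit 0) (nat_lit 9) (node (nat_lit 0) (nat_lit 60137) (nat_lit 10) nil
  (node (nat_lit 6) (nat_lit 0) (nat_lit 10) (node (nat_lit 0) (nat_lit 60504) (nat_lit 11) nil
  nil) nil)) nil)) nil))) nil) nil) nil)) (node (nat_lit 5) (nat_lit 0) (nat_lit 4) (node (nat_lit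
  4) (nat_lit 0) (nat_lit 5) t478 nil) nil)) (node (nat_lit 4) (nat_lit 0) (nat_lit 3) (node
  (nat_lit 3) (nat_lit 0) (nat_lit 4) (node (nat_lit 5) (nat_lit 0) (nat_lit 5) (node (nat_lit 7)
  (nat_lit 0) (nat_lit 6) (node (nat_lit 4) (nat_lit 0) (nat_lit 7) (node (nat_lit 5) (nat_lit 0)
  (nat_lit 8) (node (nat_lit 0) (nat_lit 0) (nat_lit 9) (node (nat_lit 7) (nat_lit 65501) (nat_lit
  10) nil (node (nat_lit 4) (nat_lit 65501) (nat_lit 10) nil (node (nat_lit 5) (nat_lit 65501)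
  (nat_lit 10) nil (node (nat_lit 0) (nat_lit 66114) (nat_lit 10) nil nil)))) (node (nat_lit 7)
  (nat_lit 0) (nat_lit 9) (node (nat_lit 0) (nat_lit 68568) (nat_lit 10) (node (nat_lit 7)
  (nat_lit 68568) (nat_lit 11) nil nil) (node (nat_lit 5) (nat_lit 0) (nat_lit 10) (node (nat_lit
  0) (nat_lit 70971) (nat_lit 11) nil nil) nil)) (node (nat_lit 4) (nat_lit 0) (nat_lit 9) (node
  (nat_lit 0) (nat_lit 68624) (nat_lit 10) nil (node (nat_lit 7) (nat_lit 0) (nat_lit 10) (node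
  (nat_lit 0) (nat_lit 38704) (nat_lit 11) nil nil) nil)) nil))) (node (nat_lit 0) (nat_lit 71493)
  (nat_lit 8) (node (nat_lit 5) (nat_lit 71493) (nat_lit 9) nil (node (nat_lit 4) (nat_lit 71493)
  (nat_lit 9) nil (node (nat_lit 7) (nat_lit 71493) (nat_lit 9) nil nil))) (node (nat_lit 7)
  (nat_lit 0) (nat_lit 8) (node (nat_lit 0) (nat_lit 74198) (nat_lit 9) nil (node (nat_lit 5)
  (nat_lit 0) (nat_lit 9) (node (nat_lit 0) (nat_lit 76495) (nat_lit 10) nil (node (nat_lit 4)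
  (nat_lit 0) (nat_lit 10) (node (nat_lit 0) (nat_lit 78346) (nat_lit 11) nil nil) nil)) nil))
  nil))) nil) (node (nat_lit 4) (nat_lit 0) (nat_lit 6) (node (nat_lit 5) (nat_lit 0) (nat_lit 7)
  (node (nat_lit 7) (nat_lit 0) (nat_lit 8) (node (nat_lit 0) (nat_lit 0) (nat_lit 9) (node
  (nat_lit 4) (nat_lit 70205) (nat_lit 10) (node (nat_lit 7) (nat_lit 71835) (nat_lit 11) (node
  (nat_lit 4) (nat_lit 72671) (nat_lit 12) (node (nat_lit 5) (nat_lit 73316) (nat_lit 13) (node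
  (nat_lit 4) (nat_lit 74143) (nat_lit 14) nil (node (nat_lit 7) (nat_lit 74143) (nat_lit 14) nil
  nil)) nil) (node (nat_lit 5) (nat_lit 72629) (nat_lit 12) (node (nat_lit 4) (nat_lit 72629)
  (nat_lit 13) nil (node (nat_lit 7) (nat_lit 72629) (nat_lit 13) nil nil)) nil)) (node (nat_lit
  5) (nat_lit 70411) (nat_lit 11) (node (nat_lit 7) (nat_lit 70233) (nat_lit 12) (node (nat_lit 4)
  (nat_lit 69983) (nat_lit 13) (node (nat_lit 5) (nat_lit 69983) (nat_lit 14) nil (node (nat_lit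
  7) (nat_lit 69983) (nat_lit 14) nil nil)) (node (nat_lit 5) (nat_lit 70233) (nat_lit 13) nil
  nil)) (node (nat_lit 4) (nat_lit 71512) (nat_lit 12) (node (nat_lit 7) (nat_lit 72530) (nat_lit
  13) (node (nat_lit 5) (nat_lit 72530) (nat_lit 14) nil nil) nil) nil)) (node (nat_lit 12)
  (nat_lit 74580) (nat_lit 11) nil nil))) (node (nat_lit 5) (nat_lit 70063) (nat_lit 10) (node
  (nat_lit 7) (nat_lit 71531) (nat_lit 11) (node (nat_lit 5) (nat_lit 72394) (nat_lit 12) (node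
  (nat_lit 4) (nat_lit 72827) (nat_lit 13) (node (nat_lit 7) (nat_lit 73851) (nat_lit 14) (node
  (nat_lit 4) (nat_lit 74464) (nat_lit 15) nil nil) (node (nat_lit 5) (nat_lit 73653) (nat_lit 14)
  (node (nat_lit 7) (nat_lit 74266) (nat_lit 15) nil nil) nil)) nil) (node (nat_lit 4) (nat_lit
  71796) (nat_lit 12) (node (nat_lit 5) (nat_lit 71796) (nat_lit 13) nil (node (nat_lit 7)
  (nat_lit 71796) (nat_lit 13) nil nil)) nil)) (node (nat_lit 4) (nat_lit 70852) (nat_lit 11)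
  (node (nat_lit 7) (nat_lit 71199) (nat_lit 12) (node (nat_lit 4) (nat_lit 71199) (nat_lit 13)
  nil (node (nat_lit 5) (nat_lit 71199) (nat_lit 13) nil nil)) (node (nat_lit 5) (nat_lit 70893)
  (nat_lit 12) (node (nat_lit 7) (nat_lit 70893) (nat_lit 13) nil nil) nil)) (node (nat_lit 12)
  (nat_lit 72625) (nat_lit 11) nil nil))) (node (nat_lit 7) (nat_lit 0) (nat_lit 10) (node
  (nat_lit 5) (nat_lit 71656) (nat_lit 11) (node (nat_lit 7) (nat_lit 71656) (nat_lit 12) (node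
  (nat_lit 4) (nat_lit 71656) (nat_lit 13) nil nil) (node (nat_lit 4) (nat_lit 72450) (nat_lit 12)
  (node (nat_lit 5) (nat_lit 72450) (nat_lit 13) nil nil) nil)) (node (nat_lit 4) (nat_lit 71610)
  (nat_lit 11) (node (nat_lit 5) (nat_lit 71835) (nat_lit 12) (node (nat_lit 4) (nat_lit 71835)
  (nat_lit 13) nil nil) (node (nat_lit 7) (nat_lit 71676) (nat_lit 12) (node (nat_lit 5) (nat_lit
  71676) (nat_lit 13) nil nil) nil)) (node (nat_lit 0) (nat_lit 71319) (nat_lit 11) nil nil)))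
  (node (nat_lit 0) (nat_lit 72238) (nat_lit 10) nil nil)))) (node (nat_lit 4) (nat_lit 0)
  (nat_lit 9) (node (nat_lit 0) (nat_lit 0) (nat_lit 10) (node (nat_lit 4) (nat_lit 0) (nat_lit
  11) (node (nat_lit 5) (nat_lit 73743) (nat_lit 12) (node (nat_lit 7) (nat_lit 73622) (nat_lit
  13) (node (nat_lit 4) (nat_lit 73622) (nat_lit 14) nil (node (nat_lit 5) (nat_lit 73622)
  (nat_lit 14) nil nil)) (node (nat_lit 4) (nat_lit 74363) (nat_lit 13) (node (nat_lit 7) (nat_lit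
  74363) (nat_lit 14) nil nil) nil)) (node (nat_lit 7) (nat_lit 74065) (nat_lit 12) (node (nat_lit
  5) (nat_lit 74065) (nat_lit 13) (node (nat_lit 4) (nat_lit 74065) (nat_lit 14) nil (node
  (nat_lit 7) (nat_lit 74065) (nat_lit 14) nil nil)) (node (nat_lit 4) (nat_lit 74065) (nat_lit
  13) (node (nat_lit 5) (nat_lit 74065) (nat_lit 14) nil nil) (node (nat_lit 13) (nat_lit 75205)
  (nat_lit 13) nil nil))) (node (nat_lit 0) (nat_lit 75399) (nat_lit 12) nil nil))) (node (nat_lit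
  7) (nat_lit 73400) (nat_lit 11) (node (nat_lit 13) (nat_lit 74249) (nat_lit 12) nil (node
  (nat_lit 4) (nat_lit 73973) (nat_lit 12) nil (node (nat_lit 5) (nat_lit 74119) (nat_lit 12) nil
  nil))) (node (nat_lit 5) (nat_lit 73266) (nat_lit 11) nil (node (nat_lit 0) (nat_lit 74808)
  (nat_lit 11) nil nil)))) (node (nat_lit 7) (nat_lit 0) (nat_lit 10) (node (nat_lit 0) (nat_lit
  76602) (nat_lit 11) (node (nat_lit 4) (nat_lit 76602) (nat_lit 12) (node (nat_lit 7) (nat_lit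
  76602) (nat_lit 13) (node (nat_lit 4) (nat_lit 76602) (nat_lit 14) nil (node (nat_lit 5)
  (nat_lit 76602) (nat_lit 14) nil nil)) nil) nil) nil) (node (nat_lit 5) (nat_lit 0) (nat_lit 10)
  (node (nat_lit 0) (nat_lit 60618) (nat_lit 11) (node (nat_lit 4) (nat_lit 61055) (nat_lit 12)
  (node (nat_lit 5) (nat_lit 61765) (nat_lit 13) (node (nat_lit 7) (nat_lit 61661) (nat_lit 14)
  (node (nat_lit 5) (nat_lit 61661) (nat_lit 15) nil (node (nat_lit 4) (nat_lit 61661) (nat_lit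
  15) nil nil)) (node (nat_lit 4) (nat_lit 62249) (nat_lit 14) (node (nat_lit 7) (nat_lit 62868)
  (nat_lit 15) (node (nat_lit 5) (nat_lit 62868) (nat_lit 16) nil nil) nil) nil)) nil) nil) nil)
  nil))) (node (nat_lit 5) (nat_lit 0) (nat_lit 9) (node (nat_lit 0) (nat_lit 74349) (nat_lit 10)
  (node (nat_lit 5) (nat_lit 74349) (nat_lit 11) (node (nat_lit 4) (nat_lit 74349) (nat_lit 12)
  nil (node (nat_lit 7) (nat_lit 74349) (nat_lit 12) nil nil)) (node (nat_lit 7) (nat_lit 74349)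
  (nat_lit 11) nil nil)) (node (nat_lit 4) (nat_lit 0) (nat_lit 10) (node (nat_lit 0) (nat_lit
  77944) (nat_lit 11) nil nil) nil)) nil))) (node (nat_lit 0) (nat_lit 75152) (nat_lit 8) (node
  (nat_lit 7) (nat_lit 75152) (nat_lit 9) (node (nat_lit 5) (nat_lit 75152) (nat_lit 10) nil (node
  (nat_lit 4) (nat_lit 75152) (nat_lit 10) nil nil)) (node (nat_lit 4) (nat_lit 75152) (nat_lit 9)
  (node (nat_lit 7) (nat_lit 75152) (nat_lit 10) nil (node (nat_lit 5) (nat_lit 75152) (nat_lit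
  10) nil nil)) (node (nat_lit 5) (nat_lit 75152) (nat_lit 9) (node (nat_lit 4) (nat_lit 75152)
  (nat_lit 10) nil (node (nat_lit 7) (nat_lit 75152) (nat_lit 10) nil nil)) nil))) nil)) nil)
  nil)) (node (nat_lit 4) (nat_lit 0) (nat_lit 5) (node (nat_lit 5) (nat_lit 0) (nat_lit 6) (node
  (nat_lit 7) (nat_lit 0) (nat_lit 7) (node (nat_lit 5) (nat_lit 0) (nat_lit 8) (node (nat_lit 0)
  (nat_lit 48230) (nat_lit 9) (node (nat_lit 7) (nat_lit 48230) (nat_lit 10) nil (node (nat_lit 4)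
  (nat_lit 48230) (nat_lit 10) nil (node (nat_lit 5) (nat_lit 48230) (nat_lit 10) nil nil))) (node
  (nat_lit 4) (nat_lit 0) (nat_lit 9) (node (nat_lit 0) (nat_lit 51627) (nat_lit 10) (node
  (nat_lit 4) (nat_lit 0) (nat_lit 11) (node (nat_lit 5) (nat_lit 51766) (nat_lit 12) nil (node
  (nat_lit 7) (nat_lit 51766) (nat_lit 12) nil (node (nat_lit 0) (nat_lit 52615) (nat_lit 12) nil
  nil))) (node (nat_lit 5) (nat_lit 51763) (nat_lit 11) nil (node (nat_lit 0) (nat_lit 52103)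
  (nat_lit 11) nil nil))) (node (nat_lit 7) (nat_lit 0) (nat_lit 10) (node (nat_lit 0) (nat_lit
  54219) (nat_lit 11) nil nil) (node (nat_lit 5) (nat_lit 0) (nat_lit 10) (node (nat_lit 0)
  (nat_lit 54231) (nat_lit 11) (node (nat_lit 4) (nat_lit 54231) (nat_lit 12) (node (nat_lit 5)
  (nat_lit 54231) (nat_lit 13) nil nil) nil) nil) nil))) nil)) (node (nat_lit 4) (nat_lit 0)
  (nat_lit 8) (node (nat_lit 0) (nat_lit 0) (nat_lit 9) (node (nat_lit 7) (nat_lit 48376) (nat_lit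
  10) (node (nat_lit 4) (nat_lit 48376) (nat_lit 11) nil (node (nat_lit 5) (nat_lit 48376)
  (nat_lit 11) nil (node (nat_lit 12) (nat_lit 49465) (nat_lit 11) nil nil))) (node (nat_lit 5)
  (nat_lit 48327) (nat_lit 10) (node (nat_lit 7) (nat_lit 48327) (nat_lit 11) nil (node (nat_lit
  4) (nat_lit 48327) (nat_lit 11) nil (node (nat_lit 12) (nat_lit 49417) (nat_lit 11) nil nil)))
  (node (nat_lit 4) (nat_lit 48331) (nat_lit 10) (node (nat_lit 7) (nat_lit 48331) (nat_lit 11)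
  nil (node (nat_lit 5) (nat_lit 48331) (nat_lit 11) nil nil)) (node (nat_lit 0) (nat_lit 48944)
  (nat_lit 10) nil nil)))) (node (nat_lit 7) (nat_lit 0) (nat_lit 9) (node (nat_lit 0) (nat_lit
  51480) (nat_lit 10) nil (node (nat_lit 5) (nat_lit 0) (nat_lit 10) (node (nat_lit 0) (nat_lit
  53836) (nat_lit 11) nil nil) nil)) nil)) (node (nat_lit 0) (nat_lit 45751) (nat_lit 8) (node
  (nat_lit 5) (nat_lit 46279) (nat_lit 9) (node (nat_lit 4) (nat_lit 46279) (nat_lit 10) (node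
  (nat_lit 7) (nat_lit 46279) (nat_lit 11) nil nil) (node (nat_lit 7) (nat_lit 46279) (nat_lit 10)
  (node (nat_lit 4) (nat_lit 46279) (nat_lit 11) nil (node (nat_lit 5) (nat_lit 46279) (nat_lit
  11) nil nil)) nil)) (node (nat_lit 7) (nat_lit 45630) (nat_lit 9) (node (nat_lit 5) (nat_lit
  45630) (nat_lit 10) (node (nat_lit 4) (nat_lit 45630) (nat_lit 11) nil nil) (node (nat_lit 4)
  (nat_lit 45630) (nat_lit 10) (node (nat_lit 5) (nat_lit 45630) (nat_lit 11) nil nil) nil)) (node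
  (nat_lit 4) (nat_lit 46494) (nat_lit 9) (node (nat_lit 5) (nat_lit 46494) (nat_lit 10) (node
  (nat_lit 7) (nat_lit 46494) (nat_lit 11) nil nil) (node (nat_lit 7) (nat_lit 46494) (nat_lit 10)
  (node (nat_lit 5) (nat_lit 46494) (nat_lit 11) nil nil) nil)) nil))) nil))) nil) nil) nil)) nil)
  nil))

noncomputable def c78 : Tr :=
  (node (nat_lit 3) (nat_lit 0) (nat_lit 1) (node (nat_lit 3) (nat_lit 0) (nat_lit 2) t479 nil)
  nil)

noncomputable def t480 : Tr :=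
  (node (nat_lit 6) (nat_lit 0) (nat_lit 5) (node (nat_lit 5) (nat_lit 0) (nat_lit 6) (node
  (nat_lit 6) (nat_lit 0) (nat_lit 7) (node (nat_lit 4) (nat_lit 0) (nat_lit 8) (node (nat_lit 0)
  (nat_lit 0) (nat_lit 9) (node (nat_lit 5) (nat_lit 97474) (nat_lit 10) (node (nat_lit 4)
  (nat_lit 101608) (nat_lit 11) (node (nat_lit 5) (nat_lit 104475) (nat_lit 12) (node (nat_lit 6)
  (nat_lit 105971) (nat_lit 13) (node (nat_lit 4) (nat_lit 107624) (nat_lit 14) nil (node (nat_lit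
  5) (nat_lit 108257) (nat_lit 14) (node (nat_lit 4) (nat_lit 108152) (nat_lit 15) nil nil) nil))
  nil) (node (nat_lit 6) (nat_lit 103669) (nat_lit 12) (node (nat_lit 5) (nat_lit 105015) (nat_lit
  13) nil (node (nat_lit 4) (nat_lit 105015) (nat_lit 13) (node (nat_lit 5) (nat_lit 106706)
  (nat_lit 14) nil nil) nil)) (node (nat_lit 12) (nat_lit 105647) (nat_lit 12) nil nil))) (node
  (nat_lit 6) (nat_lit 101361) (nat_lit 11) (node (nat_lit 4) (nat_lit 101725) (nat_lit 12) (node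
  (nat_lit 5) (nat_lit 102269) (nat_lit 13) (node (nat_lit 4) (nat_lit 102187) (nat_lit 14) nil
  (node (nat_lit 6) (nat_lit 102460) (nat_lit 14) nil nil)) (node (nat_lit 6) (nat_lit 103071)
  (nat_lit 13) (node (nat_lit 5) (nat_lit 104762) (nat_lit 14) nil nil) nil)) (node (nat_lit 5)
  (nat_lit 104239) (nat_lit 12) (node (nat_lit 4) (nat_lit 105675) (nat_lit 13) (node (nat_lit 6)
  (nat_lit 107366) (nat_lit 14) nil (node (nat_lit 5) (nat_lit 107366) (nat_lit 14) nil nil)) nil)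
  nil)) (node (nat_lit 12) (nat_lit 109460) (nat_lit 11) nil nil))) (node (nat_lit 6) (nat_lit
  97391) (nat_lit 10) (node (nat_lit 5) (nat_lit 100825) (nat_lit 11) (node (nat_lit 4) (nat_lit
  103892) (nat_lit 12) (node (nat_lit 6) (nat_lit 106042) (nat_lit 13) (node (nat_lit 4) (nat_lit
  107733) (nat_lit 14) nil (node (nat_lit 5) (nat_lit 107733) (nat_lit 14) nil nil)) (node
  (nat_lit 5) (nat_lit 103834) (nat_lit 13) (node (nat_lit 6) (nat_lit 104025) (nat_lit 14) nil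
  nil) nil)) (node (nat_lit 6) (nat_lit 102002) (nat_lit 12) (node (nat_lit 4) (nat_lit 103472)
  (nat_lit 13) (node (nat_lit 6) (nat_lit 104257) (nat_lit 14) nil (node (nat_lit 5) (nat_lit
  104668) (nat_lit 14) nil nil)) nil) nil)) (node (nat_lit 4) (nat_lit 101606) (nat_lit 11) (node
  (nat_lit 6) (nat_lit 104350) (nat_lit 12) (node (nat_lit 5) (nat_lit 107526) (nat_lit 13) (node
  (nat_lit 4) (nat_lit 110570) (nat_lit 14) nil (node (nat_lit 6) (nat_lit 109217) (nat_lit 14)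
  nil nil)) nil) (node (nat_lit 5) (nat_lit 102724) (nat_lit 12) (node (nat_lit 6) (nat_lit
  104070) (nat_lit 13) nil (node (nat_lit 4) (nat_lit 102724) (nat_lit 13) nil nil)) nil)) (node
  (nat_lit 12) (nat_lit 108552) (nat_lit 11) nil nil))) (node (nat_lit 4) (nat_lit 0) (nat_lit 10)
  (node (nat_lit 6) (nat_lit 101002) (nat_lit 11) (node (nat_lit 4) (nat_lit 103459) (nat_lit 12)
  (node (nat_lit 5) (nat_lit 103459) (nat_lit 13) nil nil) (node (nat_lit 5) (nat_lit 103062)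
  (nat_lit 12) (node (nat_lit 4) (nat_lit 103062) (nat_lit 13) nil (node (nat_lit 6) (nat_lit
  103062) (nat_lit 13) nil nil)) nil)) (node (nat_lit 5) (nat_lit 101711) (nat_lit 11) (node
  (nat_lit 6) (nat_lit 104780) (nat_lit 12) nil (node (nat_lit 4) (nat_lit 104588) (nat_lit 12)
  (node (nat_lit 6) (nat_lit 104588) (nat_lit 13) nil nil) nil)) (node (nat_lit 0) (nat_lit
  107021) (nat_lit 11) nil nil))) (node (nat_lit 0) (nat_lit 103436) (nat_lit 10) (node (nat_lit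
  12) (nat_lit 105805) (nat_lit 11) nil (node (nat_lit 4) (nat_lit 103436) (nat_lit 11) nil nil))
  nil)))) (node (nat_lit 5) (nat_lit 0) (nat_lit 9) (node (nat_lit 0) (nat_lit 0) (nat_lit 10)
  (node (nat_lit 5) (nat_lit 0) (nat_lit 11) (node (nat_lit 6) (nat_lit 108785) (nat_lit 12) (node
  (nat_lit 4) (nat_lit 111229) (nat_lit 13) (node (nat_lit 5) (nat_lit 110240) (nat_lit 14) (node
  (nat_lit 4) (nat_lit 110135) (nat_lit 15) nil nil) (node (nat_lit 6) (nat_lit 112906) (nat_lit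
  14) (node (nat_lit 5) (nat_lit 114224) (nat_lit 15) nil nil) nil)) (node (nat_lit 5) (nat_lit
  110827) (nat_lit 13) (node (nat_lit 4) (nat_lit 111420) (nat_lit 14) nil nil) nil)) (node
  (nat_lit 4) (nat_lit 109278) (nat_lit 12) (node (nat_lit 6) (nat_lit 110901) (nat_lit 13) (node
  (nat_lit 5) (nat_lit 111495) (nat_lit 14) nil (node (nat_lit 4) (nat_lit 110901) (nat_lit 14)
  nil nil)) (node (nat_lit 5) (nat_lit 110895) (nat_lit 13) (node (nat_lit 6) (nat_lit 110895)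
  (nat_lit 14) nil nil) (node (nat_lit 13) (nat_lit 112431) (nat_lit 13) nil nil))) (node (nat_lit
  0) (nat_lit 111300) (nat_lit 12) nil nil))) (node (nat_lit 4) (nat_lit 106554) (nat_lit 11)
  (node (nat_lit 5) (nat_lit 109067) (nat_lit 12) nil (node (nat_lit 13) (nat_lit 112206) (nat_lit
  12) nil nil)) (node (nat_lit 6) (nat_lit 106225) (nat_lit 11) (node (nat_lit 5) (nat_lit 108726)
  (nat_lit 12) nil nil) (node (nat_lit 0) (nat_lit 111190) (nat_lit 11) nil nil)))) (node (nat_lit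
  4) (nat_lit 0) (nat_lit 10) (node (nat_lit 0) (nat_lit 111284) (nat_lit 11) (node (nat_lit 5)
  (nat_lit 112241) (nat_lit 12) (node (nat_lit 4) (nat_lit 112241) (nat_lit 13) (node (nat_lit 6)
  (nat_lit 112241) (nat_lit 14) nil (node (nat_lit 5) (nat_lit 112241) (nat_lit 14) nil nil)) nil)
  nil) nil) (node (nat_lit 6) (nat_lit 0) (nat_lit 10) (node (nat_lit 0) (nat_lit 111182) (nat_lit
  11) (node (nat_lit 5) (nat_lit 112517) (nat_lit 12) (node (nat_lit 6) (nat_lit 113261) (nat_lit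
  13) (node (nat_lit 4) (nat_lit 113068) (nat_lit 14) nil nil) nil) nil) nil) nil))) nil)) (node
  (nat_lit 0) (nat_lit 0) (nat_lit 8) (node (nat_lit 4) (nat_lit 90228) (nat_lit 9) (node (nat_lit
  5) (nat_lit 95726) (nat_lit 10) (node (nat_lit 6) (nat_lit 101125) (nat_lit 11) (node (nat_lit
  5) (nat_lit 104883) (nat_lit 12) (node (nat_lit 4) (nat_lit 107039) (nat_lit 13) (node (nat_lit
  6) (nat_lit 108206) (nat_lit 14) (node (nat_lit 4) (nat_lit 108540) (nat_lit 15) nil nil) nil)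
  nil) (node (nat_lit 4) (nat_lit 104397) (nat_lit 12) (node (nat_lit 6) (nat_lit 106864) (nat_lit
  13) (node (nat_lit 5) (nat_lit 108491) (nat_lit 14) nil nil) (node (nat_lit 5) (nat_lit 106078)
  (nat_lit 13) nil nil)) nil)) (node (nat_lit 4) (nat_lit 100439) (nat_lit 11) (node (nat_lit 6)
  (nat_lit 100439) (nat_lit 12) nil nil) nil)) (node (nat_lit 6) (nat_lit 95470) (nat_lit 10)
  (node (nat_lit 5) (nat_lit 99467) (nat_lit 11) (node (nat_lit 6) (nat_lit 103087) (nat_lit 12)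
  (node (nat_lit 4) (nat_lit 105700) (nat_lit 13) (node (nat_lit 5) (nat_lit 105454) (nat_lit 14)
  nil (node (nat_lit 6) (nat_lit 105030) (nat_lit 14) nil nil)) nil) (node (nat_lit 4) (nat_lit
  101886) (nat_lit 12) (node (nat_lit 5) (nat_lit 103509) (nat_lit 13) (node (nat_lit 6) (nat_lit
  102838) (nat_lit 14) nil nil) nil) nil)) (node (nat_lit 4) (nat_lit 100137) (nat_lit 11) (node
  (nat_lit 5) (nat_lit 102446) (nat_lit 12) (node (nat_lit 6) (nat_lit 102394) (nat_lit 13) nil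
  nil) nil) nil)) (node (nat_lit 11) (nat_lit 106115) (nat_lit 10) nil nil))) (node (nat_lit 5)
  (nat_lit 89251) (nat_lit 9) (node (nat_lit 6) (nat_lit 94456) (nat_lit 10) (node (nat_lit 4)
  (nat_lit 101224) (nat_lit 11) (node (nat_lit 6) (nat_lit 105538) (nat_lit 12) (node (nat_lit 5)
  (nat_lit 110507) (nat_lit 13) (node (nat_lit 4) (nat_lit 112804) (nat_lit 14) nil (node (nat_lit
  6) (nat_lit 111233) (nat_lit 14) nil nil)) nil) (node (nat_lit 5) (nat_lit 102665) (nat_lit 12)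
  (node (nat_lit 4) (nat_lit 102474) (nat_lit 13) nil (node (nat_lit 6) (nat_lit 102613) (nat_lit
  13) nil nil)) nil)) (node (nat_lit 5) (nat_lit 100421) (nat_lit 11) (node (nat_lit 4) (nat_lit
  100421) (nat_lit 12) nil nil) nil)) (node (nat_lit 4) (nat_lit 95060) (nat_lit 10) (node
  (nat_lit 6) (nat_lit 98302) (nat_lit 11) (node (nat_lit 5) (nat_lit 102089) (nat_lit 12) (node
  (nat_lit 6) (nat_lit 105117) (nat_lit 13) (node (nat_lit 4) (nat_lit 105843) (nat_lit 14) nil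
  nil) (node (nat_lit 4) (nat_lit 103770) (nat_lit 13) nil nil)) (node (nat_lit 4) (nat_lit
  102585) (nat_lit 12) (node (nat_lit 5) (nat_lit 106065) (nat_lit 13) (node (nat_lit 6) (nat_lit
  108182) (nat_lit 14) nil (node (nat_lit 4) (nat_lit 105329) (nat_lit 14) nil nil)) nil) nil))
  (node (nat_lit 5) (nat_lit 100112) (nat_lit 11) (node (nat_lit 6) (nat_lit 100112) (nat_lit 12)
  nil nil) nil)) (node (nat_lit 11) (nat_lit 105189) (nat_lit 10) nil nil))) (node (nat_lit 6)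
  (nat_lit 88981) (nat_lit 9) (node (nat_lit 5) (nat_lit 94241) (nat_lit 10) (node (nat_lit 4)
  (nat_lit 101235) (nat_lit 11) (node (nat_lit 6) (nat_lit 104940) (nat_lit 12) (node (nat_lit 4)
  (nat_lit 107968) (nat_lit 13) (node (nat_lit 5) (nat_lit 108694) (nat_lit 14) nil nil) (node
  (nat_lit 5) (nat_lit 106621) (nat_lit 13) nil nil)) (node (nat_lit 5) (nat_lit 105243) (nat_lit
  12) (node (nat_lit 6) (nat_lit 108679) (nat_lit 13) (node (nat_lit 4) (nat_lit 109405) (nat_lit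
  14) nil nil) nil) nil)) (node (nat_lit 6) (nat_lit 98472) (nat_lit 11) (node (nat_lit 4)
  (nat_lit 98472) (nat_lit 12) nil nil) nil)) (node (nat_lit 4) (nat_lit 94959) (nat_lit 10) (node
  (nat_lit 5) (nat_lit 101331) (nat_lit 11) (node (nat_lit 6) (nat_lit 105428) (nat_lit 12) (node
  (nat_lit 5) (nat_lit 107252) (nat_lit 13) nil nil) (node (nat_lit 4) (nat_lit 105755) (nat_lit
  12) (node (nat_lit 6) (nat_lit 108310) (nat_lit 13) (node (nat_lit 5) (nat_lit 109610) (nat_lit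
  14) nil nil) nil) nil)) (node (nat_lit 6) (nat_lit 100656) (nat_lit 11) (node (nat_lit 5)
  (nat_lit 100656) (nat_lit 12) nil nil) nil)) nil)) (node (nat_lit 0) (nat_lit 96752) (nat_lit 9)
  nil nil)))) nil)) (node (nat_lit 4) (nat_lit 0) (nat_lit 7) (node (nat_lit 6) (nat_lit 0)
  (nat_lit 8) (node (nat_lit 0) (nat_lit 0) (nat_lit 9) (node (nat_lit 5) (nat_lit 77012) (nat_lit
  10) (node (nat_lit 6) (nat_lit 77743) (nat_lit 11) (node (nat_lit 5) (nat_lit 77743) (nat_lit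
  12) nil (node (nat_lit 4) (nat_lit 77743) (nat_lit 12) nil nil)) (node (nat_lit 4) (nat_lit
  78727) (nat_lit 11) (node (nat_lit 6) (nat_lit 78727) (nat_lit 12) nil (node (nat_lit 5)
  (nat_lit 78727) (nat_lit 12) nil nil)) (node (nat_lit 12) (nat_lit 84253) (nat_lit 11) nil
  nil))) (node (nat_lit 4) (nat_lit 77156) (nat_lit 10) (node (nat_lit 6) (nat_lit 77879) (nat_lit
  11) (node (nat_lit 4) (nat_lit 77975) (nat_lit 12) (node (nat_lit 5) (nat_lit 77975) (nat_lit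
  13) nil nil) (node (nat_lit 5) (nat_lit 77879) (nat_lit 12) nil nil)) (node (nat_lit 5) (nat_lit
  78027) (nat_lit 11) (node (nat_lit 6) (nat_lit 78027) (nat_lit 12) nil (node (nat_lit 4)
  (nat_lit 78027) (nat_lit 12) nil nil)) (node (nat_lit 12) (nat_lit 84398) (nat_lit 11) nil
  nil))) (node (nat_lit 6) (nat_lit 76814) (nat_lit 10) (node (nat_lit 4) (nat_lit 78254) (nat_lit
  11) (node (nat_lit 6) (nat_lit 78254) (nat_lit 12) nil (node (nat_lit 5) (nat_lit 78254)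
  (nat_lit 12) nil nil)) (node (nat_lit 5) (nat_lit 78522) (nat_lit 11) (node (nat_lit 6) (nat_lit
  78522) (nat_lit 12) nil (node (nat_lit 4) (nat_lit 78522) (nat_lit 12) nil nil)) nil)) (node
  (nat_lit 0) (nat_lit 80213) (nat_lit 10) nil nil)))) (node (nat_lit 4) (nat_lit 0) (nat_lit 9)
  (node (nat_lit 0) (nat_lit 0) (nat_lit 10) (node (nat_lit 4) (nat_lit 0) (nat_lit 11) (node
  (nat_lit 5) (nat_lit 78457) (nat_lit 12) (node (nat_lit 6) (nat_lit 78457) (nat_lit 13) nil nil)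
  (node (nat_lit 6) (nat_lit 77822) (nat_lit 12) (node (nat_lit 5) (nat_lit 77822) (nat_lit 13)
  nil nil) (node (nat_lit 0) (nat_lit 80095) (nat_lit 12) nil nil))) (node (nat_lit 6) (nat_lit
  78542) (nat_lit 11) (node (nat_lit 13) (nat_lit 80890) (nat_lit 12) nil nil) (node (nat_lit 0)
  (nat_lit 79922) (nat_lit 11) nil (node (nat_lit 5) (nat_lit 78221) (nat_lit 11) nil nil))))
  (node (nat_lit 5) (nat_lit 0) (nat_lit 10) (node (nat_lit 0) (nat_lit 84398) (nat_lit 11) (node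
  (nat_lit 4) (nat_lit 84398) (nat_lit 12) nil nil) nil) nil)) nil)) (node (nat_lit 0) (nat_lit 0)
  (nat_lit 8) (node (nat_lit 6) (nat_lit 81148) (nat_lit 9) (node (nat_lit 5) (nat_lit 83683)
  (nat_lit 10) (node (nat_lit 4) (nat_lit 84559) (nat_lit 11) (node (nat_lit 5) (nat_lit 84559)
  (nat_lit 12) nil (node (nat_lit 6) (nat_lit 84559) (nat_lit 12) nil nil)) (node (nat_lit 6)
  (nat_lit 83683) (nat_lit 11) nil nil)) (node (nat_lit 4) (nat_lit 82212) (nat_lit 10) (node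
  (nat_lit 5) (nat_lit 82212) (nat_lit 11) nil (node (nat_lit 6) (nat_lit 83530) (nat_lit 11) nil
  nil)) nil)) (node (nat_lit 4) (nat_lit 81834) (nat_lit 9) (node (nat_lit 6) (nat_lit 83081)
  (nat_lit 10) (node (nat_lit 5) (nat_lit 84399) (nat_lit 11) (node (nat_lit 6) (nat_lit 84399)
  (nat_lit 12) nil (node (nat_lit 4) (nat_lit 84399) (nat_lit 12) nil nil)) (node (nat_lit 4)
  (nat_lit 83081) (nat_lit 11) nil nil)) (node (nat_lit 5) (nat_lit 84254) (nat_lit 10) (node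
  (nat_lit 6) (nat_lit 83509) (nat_lit 11) (node (nat_lit 5) (nat_lit 83509) (nat_lit 12) nil
  (node (nat_lit 4) (nat_lit 83509) (nat_lit 12) nil nil)) (node (nat_lit 4) (nat_lit 84254)
  (nat_lit 11) nil nil)) nil)) (node (nat_lit 5) (nat_lit 81377) (nat_lit 9) (node (nat_lit 6)
  (nat_lit 81553) (nat_lit 10) (node (nat_lit 4) (nat_lit 81668) (nat_lit 11) nil (node (nat_lit
  5) (nat_lit 81553) (nat_lit 11) nil nil)) (node (nat_lit 4) (nat_lit 83089) (nat_lit 10) (node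
  (nat_lit 6) (nat_lit 85169) (nat_lit 11) nil (node (nat_lit 5) (nat_lit 83089) (nat_lit 11) nil
  nil)) nil)) (node (nat_lit 0) (nat_lit 80714) (nat_lit 9) nil nil)))) (node (nat_lit 5) (nat_lit
  0) (nat_lit 8) (node (nat_lit 0) (nat_lit 0) (nat_lit 9) (node (nat_lit 6) (nat_lit 86127)
  (nat_lit 10) (node (nat_lit 5) (nat_lit 86127) (nat_lit 11) (node (nat_lit 6) (nat_lit 86127)
  (nat_lit 12) nil nil) (node (nat_lit 4) (nat_lit 86127) (nat_lit 11) nil nil)) (node (nat_lit 4)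
  (nat_lit 85495) (nat_lit 10) (node (nat_lit 5) (nat_lit 85495) (nat_lit 11) nil (node (nat_lit
  6) (nat_lit 85495) (nat_lit 11) nil nil)) (node (nat_lit 5) (nat_lit 86040) (nat_lit 10) (node
  (nat_lit 4) (nat_lit 86040) (nat_lit 11) nil (node (nat_lit 6) (nat_lit 86040) (nat_lit 11) nil
  nil)) (node (nat_lit 0) (nat_lit 87395) (nat_lit 10) nil nil)))) (node (nat_lit 6) (nat_lit 0)
  (nat_lit 9) (node (nat_lit 0) (nat_lit 77209) (nat_lit 10) (node (nat_lit 6) (nat_lit 77209)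
  (nat_lit 11) nil nil) (node (nat_lit 5) (nat_lit 0) (nat_lit 10) (node (nat_lit 0) (nat_lit
  81108) (nat_lit 11) nil nil) (node (nat_lit 4) (nat_lit 0) (nat_lit 10) (node (nat_lit 0)
  (nat_lit 50782) (nat_lit 11) nil nil) nil))) nil)) nil))) nil)) nil) (node (nat_lit 5) (nat_lit
  0) (nat_lit 5) (node (nat_lit 4) (nat_lit 0) (nat_lit 6) (node (nat_lit 6) (nat_lit 0) (nat_lit
  7) (node (nat_lit 0) (nat_lit 74450) (nat_lit 8) (node (nat_lit 5) (nat_lit 76420) (nat_lit 9)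
  (node (nat_lit 4) (nat_lit 77476) (nat_lit 10) (node (nat_lit 6) (nat_lit 77476) (nat_lit 11)
  nil (node (nat_lit 5) (nat_lit 77476) (nat_lit 11) nil nil)) (node (nat_lit 6) (nat_lit 77666)
  (nat_lit 10) (node (nat_lit 4) (nat_lit 77781) (nat_lit 11) nil (node (nat_lit 5) (nat_lit
  77666) (nat_lit 11) nil nil)) (node (nat_lit 11) (nat_lit 77488) (nat_lit 10) nil nil))) (node
  (nat_lit 4) (nat_lit 76438) (nat_lit 9) (node (nat_lit 5) (nat_lit 78117) (nat_lit 10) (node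
  (nat_lit 6) (nat_lit 78117) (nat_lit 11) nil (node (nat_lit 4) (nat_lit 78117) (nat_lit 11) nil
  nil)) (node (nat_lit 6) (nat_lit 77048) (nat_lit 10) (node (nat_lit 5) (nat_lit 78367) (nat_lit
  11) nil (node (nat_lit 4) (nat_lit 77164) (nat_lit 11) nil nil)) nil)) (node (nat_lit 6)
  (nat_lit 76123) (nat_lit 9) (node (nat_lit 5) (nat_lit 75726) (nat_lit 10) (node (nat_lit 4)
  (nat_lit 75726) (nat_lit 11) nil (node (nat_lit 6) (nat_lit 75726) (nat_lit 11) nil nil)) (node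
  (nat_lit 4) (nat_lit 76645) (nat_lit 10) (node (nat_lit 5) (nat_lit 76541) (nat_lit 11) (node
  (nat_lit 4) (nat_lit 76541) (nat_lit 12) nil (node (nat_lit 6) (nat_lit 76541) (nat_lit 12) nil
  nil)) nil) nil)) nil))) (node (nat_lit 5) (nat_lit 0) (nat_lit 8) (node (nat_lit 0) (nat_lit 0)
  (nat_lit 9) (node (nat_lit 6) (nat_lit 71674) (nat_lit 10) (node (nat_lit 5) (nat_lit 71674)
  (nat_lit 11) (node (nat_lit 6) (nat_lit 71674) (nat_lit 12) nil nil) (node (nat_lit 4) (nat_lit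
  71674) (nat_lit 11) nil (node (nat_lit 12) (nat_lit 73011) (nat_lit 11) nil nil))) (node
  (nat_lit 4) (nat_lit 72449) (nat_lit 10) (node (nat_lit 5) (nat_lit 72449) (nat_lit 11) (node
  (nat_lit 4) (nat_lit 72449) (nat_lit 12) nil nil) (node (nat_lit 6) (nat_lit 72449) (nat_lit 11)
  nil (node (nat_lit 12) (nat_lit 75141) (nat_lit 11) nil nil))) (node (nat_lit 5) (nat_lit 71865)
  (nat_lit 10) (node (nat_lit 4) (nat_lit 71865) (nat_lit 11) nil (node (nat_lit 6) (nat_lit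
  71865) (nat_lit 11) nil nil)) (node (nat_lit 0) (nat_lit 73377) (nat_lit 10) nil nil)))) (node
  (nat_lit 4) (nat_lit 0) (nat_lit 9) (node (nat_lit 0) (nat_lit 65846) (nat_lit 10) (node
  (nat_lit 4) (nat_lit 65846) (nat_lit 11) (node (nat_lit 5) (nat_lit 65846) (nat_lit 12) nil nil)
  nil) (node (nat_lit 5) (nat_lit 0) (nat_lit 10) (node (nat_lit 0) (nat_lit 70341) (nat_lit 11)
  nil nil) nil)) (node (nat_lit 6) (nat_lit 0) (nat_lit 9) (node (nat_lit 4) (nat_lit 0) (nat_lit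
  10) (node (nat_lit 0) (nat_lit 80233) (nat_lit 11) (node (nat_lit 6) (nat_lit 80233) (nat_lit
  12) nil nil) nil) (node (nat_lit 0) (nat_lit 76351) (nat_lit 10) (node (nat_lit 6) (nat_lit
  76351) (nat_lit 11) nil nil) nil)) nil))) (node (nat_lit 4) (nat_lit 0) (nat_lit 8) (node
  (nat_lit 0) (nat_lit 78896) (nat_lit 9) (node (nat_lit 5) (nat_lit 78896) (nat_lit 10) nil (node
  (nat_lit 6) (nat_lit 78896) (nat_lit 10) nil nil)) (node (nat_lit 5) (nat_lit 0) (nat_lit 9)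
  (node (nat_lit 6) (nat_lit 74871) (nat_lit 10) nil (node (nat_lit 0) (nat_lit 79647) (nat_lit
  10) nil nil)) nil)) nil))) nil) nil) nil))

noncomputable def t481 : Tr :=
  (node (nat_lit 3) (nat_lit 0) (nat_lit 2) (node (nat_lit 3) (nat_lit 0) (nat_lit 3) (node
  (nat_lit 4) (nat_lit 0) (nat_lit 4) t480 (node (nat_lit 5) (nat_lit 0) (nat_lit 4) (node
  (nat_lit 4) (nat_lit 0) (nat_lit 5) (node (nat_lit 6) (nat_lit 0) (nat_lit 6) (node (nat_lit 5)
  (nat_lit 0) (nat_lit 7) (node (nat_lit 6) (nat_lit 0) (nat_lit 8) (node (nat_lit 4) (nat_lit 0)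
  (nat_lit 9) (node (nat_lit 0) (nat_lit 114940) (nat_lit 10) (node (nat_lit 4) (nat_lit 0)
  (nat_lit 11) (node (nat_lit 5) (nat_lit 118680) (nat_lit 12) (node (nat_lit 6) (nat_lit 119039)
  (nat_lit 13) (node (nat_lit 4) (nat_lit 119039) (nat_lit 14) nil (node (nat_lit 5) (nat_lit
  119039) (nat_lit 14) nil nil)) (node (nat_lit 4) (nat_lit 118786) (nat_lit 13) (node (nat_lit 6)
  (nat_lit 118786) (nat_lit 14) nil nil) nil)) (node (nat_lit 6) (nat_lit 118752) (nat_lit 12)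
  (node (nat_lit 5) (nat_lit 120020) (nat_lit 13) (node (nat_lit 4) (nat_lit 120020) (nat_lit 14)
  nil nil) (node (nat_lit 4) (nat_lit 118752) (nat_lit 13) nil nil)) (node (nat_lit 0) (nat_lit
  118826) (nat_lit 12) nil nil))) (node (nat_lit 6) (nat_lit 116212) (nat_lit 11) (node (nat_lit
  4) (nat_lit 118554) (nat_lit 12) nil (node (nat_lit 13) (nat_lit 118560) (nat_lit 12) nil nil))
  (node (nat_lit 0) (nat_lit 118704) (nat_lit 11) nil nil))) (node (nat_lit 5) (nat_lit 0)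
  (nat_lit 10) (node (nat_lit 0) (nat_lit 119745) (nat_lit 11) (node (nat_lit 4) (nat_lit 120558)
  (nat_lit 12) (node (nat_lit 5) (nat_lit 121472) (nat_lit 13) (node (nat_lit 6) (nat_lit 121179)
  (nat_lit 14) nil (node (nat_lit 4) (nat_lit 121914) (nat_lit 14) nil nil)) nil) nil) nil) (node
  (nat_lit 6) (nat_lit 0) (nat_lit 10) (node (nat_lit 0) (nat_lit 122070) (nat_lit 11) (node
  (nat_lit 4) (nat_lit 122070) (nat_lit 12) nil nil) nil) nil))) (node (nat_lit 0) (nat_lit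
  122894) (nat_lit 9) (node (nat_lit 4) (nat_lit 122894) (nat_lit 10) nil nil) nil)) (node
  (nat_lit 0) (nat_lit 116516) (nat_lit 8) (node (nat_lit 6) (nat_lit 117029) (nat_lit 9) (node
  (nat_lit 5) (nat_lit 117029) (nat_lit 10) nil (node (nat_lit 4) (nat_lit 117029) (nat_lit 10)
  nil nil)) (node (nat_lit 5) (nat_lit 118772) (nat_lit 9) (node (nat_lit 4) (nat_lit 118772)
  (nat_lit 10) nil (node (nat_lit 6) (nat_lit 118772) (nat_lit 10) nil nil)) (node (nat_lit 4)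
  (nat_lit 116909) (nat_lit 9) (node (nat_lit 6) (nat_lit 116909) (nat_lit 10) nil (node (nat_lit
  5) (nat_lit 116909) (nat_lit 10) nil nil)) nil))) nil)) (node (nat_lit 4) (nat_lit 0) (nat_lit
  7) (node (nat_lit 0) (nat_lit 116644) (nat_lit 8) (node (nat_lit 5) (nat_lit 117556) (nat_lit 9)
  (node (nat_lit 4) (nat_lit 120209) (nat_lit 10) (node (nat_lit 6) (nat_lit 120209) (nat_lit 11)
  nil (node (nat_lit 5) (nat_lit 120209) (nat_lit 11) nil nil)) (node (nat_lit 6) (nat_lit 118187)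
  (nat_lit 10) (node (nat_lit 4) (nat_lit 118187) (nat_lit 11) nil nil) nil)) (node (nat_lit 6)
  (nat_lit 118109) (nat_lit 9) (node (nat_lit 5) (nat_lit 118740) (nat_lit 10) (node (nat_lit 4)
  (nat_lit 118740) (nat_lit 11) nil nil) (node (nat_lit 4) (nat_lit 120780) (nat_lit 10) (node
  (nat_lit 5) (nat_lit 120780) (nat_lit 11) nil nil) nil)) (node (nat_lit 4) (nat_lit 118283)
  (nat_lit 9) (node (nat_lit 5) (nat_lit 119812) (nat_lit 10) (node (nat_lit 6) (nat_lit 119812)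
  (nat_lit 11) nil nil) (node (nat_lit 6) (nat_lit 119409) (nat_lit 10) (node (nat_lit 5) (nat_lit
  119409) (nat_lit 11) nil nil) nil)) nil))) (node (nat_lit 5) (nat_lit 0) (nat_lit 8) (node
  (nat_lit 6) (nat_lit 0) (nat_lit 9) (node (nat_lit 0) (nat_lit 108934) (nat_lit 10) (node
  (nat_lit 6) (nat_lit 108934) (nat_lit 11) nil nil) (node (nat_lit 5) (nat_lit 0) (nat_lit 10)
  (node (nat_lit 0) (nat_lit 112939) (nat_lit 11) nil nil) (node (nat_lit 4) (nat_lit 0) (nat_lit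
  10) (node (nat_lit 0) (nat_lit 112850) (nat_lit 11) nil nil) nil))) (node (nat_lit 0) (nat_lit
  117057) (nat_lit 9) (node (nat_lit 6) (nat_lit 117057) (nat_lit 10) nil (node (nat_lit 4)
  (nat_lit 117057) (nat_lit 10) nil (node (nat_lit 5) (nat_lit 117057) (nat_lit 10) nil nil)))
  (node (nat_lit 4) (nat_lit 0) (nat_lit 9) (node (nat_lit 0) (nat_lit 122808) (nat_lit 10) nil
  (node (nat_lit 6) (nat_lit 0) (nat_lit 10) (node (nat_lit 0) (nat_lit 125493) (nat_lit 11) nil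
  nil) nil)) nil))) nil)) nil)) (node (nat_lit 5) (nat_lit 0) (nat_lit 6) (node (nat_lit 6)
  (nat_lit 0) (nat_lit 7) (node (nat_lit 0) (nat_lit 0) (nat_lit 8) (node (nat_lit 6) (nat_lit
  72011) (nat_lit 9) (node (nat_lit 4) (nat_lit 74946) (nat_lit 10) (node (nat_lit 5) (nat_lit
  74946) (nat_lit 11) nil (node (nat_lit 6) (nat_lit 74946) (nat_lit 11) nil nil)) (node (nat_lit
  5) (nat_lit 75128) (nat_lit 10) (node (nat_lit 4) (nat_lit 75128) (nat_lit 11) nil (node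
  (nat_lit 6) (nat_lit 75128) (nat_lit 11) nil nil)) nil)) (node (nat_lit 4) (nat_lit 73064)
  (nat_lit 9) (node (nat_lit 5) (nat_lit 74606) (nat_lit 10) (node (nat_lit 6) (nat_lit 74551)
  (nat_lit 11) (node (nat_lit 5) (nat_lit 74551) (nat_lit 12) nil (node (nat_lit 4) (nat_lit
  74551) (nat_lit 12) nil nil)) (node (nat_lit 4) (nat_lit 76020) (nat_lit 11) nil nil)) (node
  (nat_lit 6) (nat_lit 75390) (nat_lit 10) (node (nat_lit 5) (nat_lit 76737) (nat_lit 11) nil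
  (node (nat_lit 4) (nat_lit 76421) (nat_lit 11) nil nil)) nil)) (node (nat_lit 5) (nat_lit 72856)
  (nat_lit 9) (node (nat_lit 4) (nat_lit 75922) (nat_lit 10) (node (nat_lit 6) (nat_lit 77270)
  (nat_lit 11) (node (nat_lit 5) (nat_lit 77270) (nat_lit 12) nil (node (nat_lit 4) (nat_lit
  77270) (nat_lit 12) nil nil)) (node (nat_lit 5) (nat_lit 77270) (nat_lit 11) nil nil)) (node
  (nat_lit 6) (nat_lit 75269) (nat_lit 10) (node (nat_lit 4) (nat_lit 73969) (nat_lit 11) nil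
  (node (nat_lit 5) (nat_lit 77269) (nat_lit 11) nil nil)) nil)) (node (nat_lit 0) (nat_lit 71587)
  (nat_lit 9) nil nil)))) (node (nat_lit 4) (nat_lit 0) (nat_lit 8) (node (nat_lit 0) (nat_lit 0)
  (nat_lit 9) (node (nat_lit 5) (nat_lit 77179) (nat_lit 10) (node (nat_lit 4) (nat_lit 77179)
  (nat_lit 11) nil (node (nat_lit 6) (nat_lit 77179) (nat_lit 11) nil (node (nat_lit 12) (nat_lit
  78851) (nat_lit 11) nil nil))) (node (nat_lit 6) (nat_lit 76835) (nat_lit 10) (node (nat_lit 4)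
  (nat_lit 76835) (nat_lit 11) nil (node (nat_lit 5) (nat_lit 76835) (nat_lit 11) nil (node
  (nat_lit 12) (nat_lit 78507) (nat_lit 11) nil nil))) (node (nat_lit 4) (nat_lit 75801) (nat_lit
  10) (node (nat_lit 5) (nat_lit 75801) (nat_lit 11) nil (node (nat_lit 6) (nat_lit 75801)
  (nat_lit 11) nil nil)) (node (nat_lit 0) (nat_lit 76932) (nat_lit 10) nil nil)))) (node (nat_lit
  5) (nat_lit 0) (nat_lit 9) (node (nat_lit 0) (nat_lit 81545) (nat_lit 10) (node (nat_lit 5)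
  (nat_lit 81545) (nat_lit 11) (node (nat_lit 4) (nat_lit 81545) (nat_lit 12) nil nil) nil) (node
  (nat_lit 4) (nat_lit 0) (nat_lit 10) (node (nat_lit 0) (nat_lit 85591) (nat_lit 11) nil nil)
  nil)) (node (nat_lit 6) (nat_lit 0) (nat_lit 9) (node (nat_lit 5) (nat_lit 0) (nat_lit 10) (node
  (nat_lit 0) (nat_lit 85825) (nat_lit 11) (node (nat_lit 6) (nat_lit 86042) (nat_lit 12) nil nil)
  nil) (node (nat_lit 0) (nat_lit 81384) (nat_lit 10) (node (nat_lit 6) (nat_lit 81384) (nat_lit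
  11) nil nil) nil)) nil))) nil)) nil) nil)) nil) nil)) (node (nat_lit 4) (nat_lit 0) (nat_lit 3)
  (node (nat_lit 3) (nat_lit 0) (nat_lit 4) (node (nat_lit 4) (nat_lit 0) (nat_lit 5) (node
  (nat_lit 5) (nat_lit 0) (nat_lit 6) (node (nat_lit 7) (nat_lit 0) (nat_lit 7) (node (nat_lit 4)
  (nat_lit 0) (nat_lit 8) (node (nat_lit 0) (nat_lit 0) (nat_lit 9) (node (nat_lit 5) (nat_lit
  78951) (nat_lit 10) (node (nat_lit 4) (nat_lit 78951) (nat_lit 11) nil (node (nat_lit 7)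
  (nat_lit 78951) (nat_lit 11) nil (node (nat_lit 12) (nat_lit 80688) (nat_lit 11) nil nil)))
  (node (nat_lit 7) (nat_lit 78951) (nat_lit 10) (node (nat_lit 4) (nat_lit 78951) (nat_lit 11)
  (node (nat_lit 7) (nat_lit 78951) (nat_lit 12) nil (node (nat_lit 5) (nat_lit 78951) (nat_lit
  12) nil nil)) (node (nat_lit 5) (nat_lit 78951) (nat_lit 11) (node (nat_lit 4) (nat_lit 78951)
  (nat_lit 12) nil nil) (node (nat_lit 12) (nat_lit 80688) (nat_lit 11) nil nil))) (node (nat_lit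
  4) (nat_lit 78951) (nat_lit 10) (node (nat_lit 5) (nat_lit 78951) (nat_lit 11) nil (node
  (nat_lit 7) (nat_lit 78951) (nat_lit 11) nil nil)) (node (nat_lit 0) (nat_lit 79928) (nat_lit
  10) nil nil)))) (node (nat_lit 7) (nat_lit 0) (nat_lit 9) (node (nat_lit 0) (nat_lit 79928)
  (nat_lit 10) (node (nat_lit 7) (nat_lit 79928) (nat_lit 11) (node (nat_lit 4) (nat_lit 79928)
  (nat_lit 12) nil (node (nat_lit 5) (nat_lit 79928) (nat_lit 12) nil nil)) (node (nat_lit 4)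
  (nat_lit 79928) (nat_lit 11) nil nil)) (node (nat_lit 5) (nat_lit 0) (nat_lit 10) (node (nat_lit
  0) (nat_lit 80688) (nat_lit 11) nil nil) nil)) nil)) (node (nat_lit 0) (nat_lit 80387) (nat_lit
  8) (node (nat_lit 4) (nat_lit 80387) (nat_lit 9) (node (nat_lit 5) (nat_lit 80387) (nat_lit 10)
  (node (nat_lit 7) (nat_lit 80387) (nat_lit 11) nil (node (nat_lit 4) (nat_lit 80387) (nat_lit
  11) nil nil)) (node (nat_lit 7) (nat_lit 80387) (nat_lit 10) (node (nat_lit 5) (nat_lit 80387)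
  (nat_lit 11) nil nil) nil)) (node (nat_lit 7) (nat_lit 80387) (nat_lit 9) (node (nat_lit 4)
  (nat_lit 80387) (nat_lit 10) (node (nat_lit 5) (nat_lit 80387) (nat_lit 11) nil (node (nat_lit
  7) (nat_lit 80387) (nat_lit 11) nil nil)) (node (nat_lit 5) (nat_lit 80387) (nat_lit 10) (node
  (nat_lit 4) (nat_lit 80387) (nat_lit 11) nil nil) nil)) (node (nat_lit 5) (nat_lit 80387)
  (nat_lit 9) (node (nat_lit 4) (nat_lit 80387) (nat_lit 10) (node (nat_lit 7) (nat_lit 80387)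
  (nat_lit 11) nil nil) (node (nat_lit 7) (nat_lit 80387) (nat_lit 10) (node (nat_lit 4) (nat_lit
  80387) (nat_lit 11) nil nil) nil)) nil))) (node (nat_lit 5) (nat_lit 0) (nat_lit 8) (node
  (nat_lit 0) (nat_lit 0) (nat_lit 9) (node (nat_lit 4) (nat_lit 78951) (nat_lit 10) (node
  (nat_lit 5) (nat_lit 78951) (nat_lit 11) nil (node (nat_lit 7) (nat_lit 78951) (nat_lit 11) nil
  nil)) (node (nat_lit 7) (nat_lit 78951) (nat_lit 10) (node (nat_lit 5) (nat_lit 78951) (nat_lit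
  11) nil (node (nat_lit 4) (nat_lit 78951) (nat_lit 11) nil nil)) (node (nat_lit 5) (nat_lit
  78951) (nat_lit 10) nil (node (nat_lit 0) (nat_lit 79928) (nat_lit 10) nil nil)))) (node
  (nat_lit 4) (nat_lit 0) (nat_lit 9) (node (nat_lit 5) (nat_lit 0) (nat_lit 10) (node (nat_lit 0)
  (nat_lit 80688) (nat_lit 11) nil nil) (node (nat_lit 0) (nat_lit 79928) (nat_lit 10) nil (node
  (nat_lit 7) (nat_lit 0) (nat_lit 10) (node (nat_lit 0) (nat_lit 80688) (nat_lit 11) nil nil)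
  nil))) nil)) nil))) nil) nil) (node (nat_lit 5) (nat_lit 0) (nat_lit 5) (node (nat_lit 7)
  (nat_lit 0) (nat_lit 6) (node (nat_lit 4) (nat_lit 0) (nat_lit 7) (node (nat_lit 0) (nat_lit 0)
  (nat_lit 8) (node (nat_lit 5) (nat_lit 71501) (nat_lit 9) (node (nat_lit 7) (nat_lit 73620)
  (nat_lit 10) (node (nat_lit 4) (nat_lit 75138) (nat_lit 11) (node (nat_lit 7) (nat_lit 75138)
  (nat_lit 12) nil (node (nat_lit 5) (nat_lit 75138) (nat_lit 12) nil nil)) (node (nat_lit 5)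
  (nat_lit 74355) (nat_lit 11) nil nil)) (node (nat_lit 4) (nat_lit 73852) (nat_lit 10) (node
  (nat_lit 7) (nat_lit 76484) (nat_lit 11) (node (nat_lit 4) (nat_lit 76484) (nat_lit 12) nil
  (node (nat_lit 5) (nat_lit 76484) (nat_lit 12) nil nil)) (node (nat_lit 5) (nat_lit 75533)
  (nat_lit 11) nil nil)) (node (nat_lit 11) (nat_lit 72816) (nat_lit 10) nil nil))) (node (nat_lit
  7) (nat_lit 70892) (nat_lit 9) (node (nat_lit 5) (nat_lit 73287) (nat_lit 10) (node (nat_lit 4)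
  (nat_lit 76851) (nat_lit 11) (node (nat_lit 5) (nat_lit 76851) (nat_lit 12) nil (node (nat_lit
  7) (nat_lit 76851) (nat_lit 12) nil nil)) (node (nat_lit 7) (nat_lit 75367) (nat_lit 11) nil
  nil)) (node (nat_lit 4) (nat_lit 73343) (nat_lit 10) (node (nat_lit 5) (nat_lit 75013) (nat_lit
  11) (node (nat_lit 4) (nat_lit 75013) (nat_lit 12) nil (node (nat_lit 7) (nat_lit 75013)
  (nat_lit 12) nil nil)) (node (nat_lit 7) (nat_lit 75202) (nat_lit 11) nil nil)) (node (nat_lit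
  11) (nat_lit 72207) (nat_lit 10) nil nil))) (node (nat_lit 4) (nat_lit 71340) (nat_lit 9) (node
  (nat_lit 5) (nat_lit 73689) (nat_lit 10) (node (nat_lit 7) (nat_lit 75539) (nat_lit 11) (node
  (nat_lit 5) (nat_lit 75730) (nat_lit 12) nil (node (nat_lit 4) (nat_lit 75539) (nat_lit 12) nil
  nil)) (node (nat_lit 4) (nat_lit 73689) (nat_lit 11) nil nil)) (node (nat_lit 7) (nat_lit 73446)
  (nat_lit 10) (node (nat_lit 5) (nat_lit 77066) (nat_lit 11) (node (nat_lit 7) (nat_lit 77066)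
  (nat_lit 12) nil (node (nat_lit 4) (nat_lit 77066) (nat_lit 12) nil nil)) (node (nat_lit 4)
  (nat_lit 76437) (nat_lit 11) nil nil)) nil)) (node (nat_lit 0) (nat_lit 71216) (nat_lit 9) nil
  nil)))) (node (nat_lit 5) (nat_lit 0) (nat_lit 8) (node (nat_lit 0) (nat_lit 0) (nat_lit 9)
  (node (nat_lit 4) (nat_lit 68589) (nat_lit 10) (node (nat_lit 5) (nat_lit 68547) (nat_lit 11)
  (node (nat_lit 4) (nat_lit 68547) (nat_lit 12) nil (node (nat_lit 7) (nat_lit 68547) (nat_lit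
  12) nil nil)) (node (nat_lit 7) (nat_lit 68589) (nat_lit 11) nil (node (nat_lit 12) (nat_lit
  70326) (nat_lit 11) nil nil))) (node (nat_lit 7) (nat_lit 67945) (nat_lit 10) (node (nat_lit 4)
  (nat_lit 67903) (nat_lit 11) (node (nat_lit 5) (nat_lit 67903) (nat_lit 12) nil nil) (node
  (nat_lit 5) (nat_lit 68748) (nat_lit 11) (node (nat_lit 7) (nat_lit 68748) (nat_lit 12) nil
  (node (nat_lit 4) (nat_lit 68748) (nat_lit 12) nil nil)) (node (nat_lit 12) (nat_lit 72031)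
  (nat_lit 11) nil nil))) (node (nat_lit 5) (nat_lit 68589) (nat_lit 10) (node (nat_lit 7)
  (nat_lit 69035) (nat_lit 11) nil (node (nat_lit 4) (nat_lit 69392) (nat_lit 11) nil nil)) (node
  (nat_lit 0) (nat_lit 70535) (nat_lit 10) nil nil)))) (node (nat_lit 7) (nat_lit 0) (nat_lit 9)
  (node (nat_lit 0) (nat_lit 72854) (nat_lit 10) (node (nat_lit 7) (nat_lit 72854) (nat_lit 11)
  (node (nat_lit 5) (nat_lit 72854) (nat_lit 12) nil (node (nat_lit 4) (nat_lit 72854) (nat_lit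
  12) nil nil)) (node (nat_lit 5) (nat_lit 73125) (nat_lit 11) nil nil)) (node (nat_lit 5)
  (nat_lit 0) (nat_lit 10) (node (nat_lit 0) (nat_lit 76514) (nat_lit 11) nil nil) nil)) (node
  (nat_lit 4) (nat_lit 0) (nat_lit 9) (node (nat_lit 7) (nat_lit 0) (nat_lit 10) (node (nat_lit 0)
  (nat_lit 31604) (nat_lit 11) (node (nat_lit 4) (nat_lit 31817) (nat_lit 12) nil nil) nil) (node
  (nat_lit 0) (nat_lit 72771) (nat_lit 10) (node (nat_lit 4) (nat_lit 72771) (nat_lit 11) nil nil)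
  nil)) nil))) (node (nat_lit 7) (nat_lit 0) (nat_lit 8) (node (nat_lit 0) (nat_lit 75424)
  (nat_lit 9) (node (nat_lit 4) (nat_lit 75702) (nat_lit 10) nil (node (nat_lit 5) (nat_lit 75424)
  (nat_lit 10) nil nil)) (node (nat_lit 5) (nat_lit 0) (nat_lit 9) (node (nat_lit 4) (nat_lit 0)
  (nat_lit 10) (node (nat_lit 0) (nat_lit 85880) (nat_lit 11) nil nil) (node (nat_lit 0) (nat_lit
  80985) (nat_lit 10) nil nil)) nil)) nil))) nil) (node (nat_lit 4) (nat_lit 0) (nat_lit 6) (node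
  (nat_lit 5) (nat_lit 0) (nat_lit 7) (node (nat_lit 7) (nat_lit 0) (nat_lit 8) (node (nat_lit 4)
  (nat_lit 0) (nat_lit 9) (node (nat_lit 0) (nat_lit 87901) (nat_lit 10) (node (nat_lit 4)
  (nat_lit 87901) (nat_lit 11) nil nil) (node (nat_lit 5) (nat_lit 0) (nat_lit 10) (node (nat_lit
  0) (nat_lit 68366) (nat_lit 11) nil nil) (node (nat_lit 7) (nat_lit 0) (nat_lit 10) (node
  (nat_lit 0) (nat_lit 92492) (nat_lit 11) nil nil) nil))) (node (nat_lit 0) (nat_lit 98603)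
  (nat_lit 9) nil (node (nat_lit 5) (nat_lit 0) (nat_lit 9) (node (nat_lit 4) (nat_lit 0) (nat_lit
  10) (node (nat_lit 0) (nat_lit 98603) (nat_lit 11) nil nil) (node (nat_lit 0) (nat_lit 98068)
  (nat_lit 10) nil nil)) nil))) (node (nat_lit 0) (nat_lit 94884) (nat_lit 8) (node (nat_lit 7)
  (nat_lit 94884) (nat_lit 9) nil (node (nat_lit 4) (nat_lit 94884) (nat_lit 9) nil (node (nat_lit
  5) (nat_lit 94884) (nat_lit 9) nil nil))) nil)) nil) nil)) nil)) nil) nil)) nil)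

noncomputable def c77 : Tr :=
  (node (nat_lit 3) (nat_lit 0) (nat_lit 1) t481 nil)

noncomputable def t482 : Tr :=
  (node (nat_lit 1) (nat_lit 0) (nat_lit 2) (node (nat_lit 3) (nat_lit 0) (nat_lit 3) (node
  (nat_lit 0) (nat_lit 58741) (nat_lit 4) (node (nat_lit 4) (nat_lit 59209) (nat_lit 5) (node
  (nat_lit 6) (nat_lit 59209) (nat_lit 6) nil nil) (node (nat_lit 5) (nat_lit 59209) (nat_lit 5)
  (node (nat_lit 4) (nat_lit 59373) (nat_lit 6) (node (nat_lit 5) (nat_lit 59494) (nat_lit 7)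
  (node (nat_lit 6) (nat_lit 59494) (nat_lit 8) nil nil) nil) nil) (node (nat_lit 6) (nat_lit
  58741) (nat_lit 5) (node (nat_lit 4) (nat_lit 59117) (nat_lit 6) (node (nat_lit 5) (nat_lit
  59238) (nat_lit 7) nil nil) (node (nat_lit 5) (nat_lit 59117) (nat_lit 6) (node (nat_lit 6)
  (nat_lit 59117) (nat_lit 7) nil nil) nil)) nil))) (node (nat_lit 2) (nat_lit 0) (nat_lit 4)
  (node (nat_lit 4) (nat_lit 58083) (nat_lit 5) (node (nat_lit 6) (nat_lit 58083) (nat_lit 6)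
  (node (nat_lit 4) (nat_lit 58369) (nat_lit 7) (node (nat_lit 5) (nat_lit 58461) (nat_lit 8) nil
  nil) (node (nat_lit 5) (nat_lit 58369) (nat_lit 7) (node (nat_lit 6) (nat_lit 58369) (nat_lit 8)
  (node (nat_lit 4) (nat_lit 58529) (nat_lit 9) nil nil) nil) nil)) nil) (node (nat_lit 5)
  (nat_lit 58083) (nat_lit 5) (node (nat_lit 4) (nat_lit 58248) (nat_lit 6) (node (nat_lit 5)
  (nat_lit 56856) (nat_lit 7) (node (nat_lit 6) (nat_lit 31534) (nat_lit 8) (node (nat_lit 7)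
  (nat_lit 21512) (nat_lit 9) nil nil) nil) nil) nil) (node (nat_lit 6) (nat_lit 55012) (nat_lit
  5) (node (nat_lit 4) (nat_lit 57248) (nat_lit 6) (node (nat_lit 5) (nat_lit 51876) (nat_lit 7)
  (node (nat_lit 6) (nat_lit 43282) (nat_lit 8) (node (nat_lit 7) (nat_lit 36727) (nat_lit 9) nil
  nil) nil) nil) (node (nat_lit 5) (nat_lit 57248) (nat_lit 6) (node (nat_lit 6) (nat_lit 57248)
  (nat_lit 7) nil nil) nil)) (node (nat_lit 0) (nat_lit 56966) (nat_lit 5) nil (node (nat_lit 2)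
  (nat_lit 54868) (nat_lit 5) nil nil))))) (node (nat_lit 4) (nat_lit 56674) (nat_lit 4) (node
  (nat_lit 5) (nat_lit 32997) (nat_lit 5) nil nil) (node (nat_lit 5) (nat_lit 0) (nat_lit 4) (node
  (nat_lit 0) (nat_lit 60670) (nat_lit 5) (node (nat_lit 5) (nat_lit 60835) (nat_lit 6) (node
  (nat_lit 4) (nat_lit 60956) (nat_lit 7) (node (nat_lit 5) (nat_lit 61047) (nat_lit 8) (node
  (nat_lit 6) (nat_lit 61047) (nat_lit 9) (node (nat_lit 5) (nat_lit 61170) (nat_lit 10) nil nil)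
  nil) nil) nil) (node (nat_lit 6) (nat_lit 60670) (nat_lit 6) (node (nat_lit 4) (nat_lit 60956)
  (nat_lit 7) (node (nat_lit 5) (nat_lit 61047) (nat_lit 8) nil nil) nil) nil)) (node (nat_lit 2)
  (nat_lit 59703) (nat_lit 5) (node (nat_lit 5) (nat_lit 60080) (nat_lit 6) (node (nat_lit 4)
  (nat_lit 60201) (nat_lit 7) (node (nat_lit 5) (nat_lit 60292) (nat_lit 8) (node (nat_lit 6)
  (nat_lit 54800) (nat_lit 9) (node (nat_lit 5) (nat_lit 42303) (nat_lit 10) nil nil) nil) nil)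
  nil) (node (nat_lit 6) (nat_lit 59703) (nat_lit 6) (node (nat_lit 4) (nat_lit 60201) (nat_lit 7)
  (node (nat_lit 5) (nat_lit 59307) (nat_lit 8) (node (nat_lit 6) (nat_lit 51844) (nat_lit 9) nil
  nil) nil) nil) nil)) (node (nat_lit 4) (nat_lit 60281) (nat_lit 5) (node (nat_lit 6) (nat_lit
  60281) (nat_lit 6) (node (nat_lit 4) (nat_lit 60797) (nat_lit 7) (node (nat_lit 5) (nat_lit
  60973) (nat_lit 8) (node (nat_lit 6) (nat_lit 60973) (nat_lit 9) (node (nat_lit 5) (nat_lit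
  61218) (nat_lit 10) nil nil) nil) nil) nil) (node (nat_lit 5) (nat_lit 48825) (nat_lit 6) nil
  nil)) nil))) nil)))) (node (nat_lit 4) (nat_lit 0) (nat_lit 3) (node (nat_lit 0) (nat_lit 0)
  (nat_lit 4) (node (nat_lit 3) (nat_lit 22547) (nat_lit 5) (node (nat_lit 7) (nat_lit 23529)
  (nat_lit 6) nil (node (nat_lit 4) (nat_lit 23047) (nat_lit 6) (node (nat_lit 5) (nat_lit 23138)
  (nat_lit 7) nil nil) (node (nat_lit 5) (nat_lit 23047) (nat_lit 6) nil nil))) (node (nat_lit 5)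
  (nat_lit 24184) (nat_lit 5) (node (nat_lit 7) (nat_lit 24536) (nat_lit 6) nil nil) (node
  (nat_lit 4) (nat_lit 24103) (nat_lit 5) nil (node (nat_lit 0) (nat_lit 23877) (nat_lit 5) nil
  (node (nat_lit 2) (nat_lit 22547) (nat_lit 5) nil nil))))) (node (nat_lit 3) (nat_lit 0)
  (nat_lit 4) (node (nat_lit 0) (nat_lit 23469) (nat_lit 5) (node (nat_lit 7) (nat_lit 23469)
  (nat_lit 6) (node (nat_lit 4) (nat_lit 23745) (nat_lit 7) (node (nat_lit 5) (nat_lit 23833)
  (nat_lit 8) (node (nat_lit 4) (nat_lit 23900) (nat_lit 9) nil nil) nil) nil) nil) (node (nat_lit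
  5) (nat_lit 0) (nat_lit 5) (node (nat_lit 0) (nat_lit 24747) (nat_lit 6) (node (nat_lit 7)
  (nat_lit 24747) (nat_lit 7) nil nil) (node (nat_lit 2) (nat_lit 24114) (nat_lit 6) (node
  (nat_lit 7) (nat_lit 24114) (nat_lit 7) nil (node (nat_lit 5) (nat_lit 24805) (nat_lit 7) (node
  (nat_lit 7) (nat_lit 24805) (nat_lit 8) nil nil) nil)) (node (nat_lit 7) (nat_lit 23490)
  (nat_lit 6) (node (nat_lit 4) (nat_lit 24491) (nat_lit 7) (node (nat_lit 5) (nat_lit 24674)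
  (nat_lit 8) nil nil) nil) (node (nat_lit 4) (nat_lit 24256) (nat_lit 6) (node (nat_lit 5)
  (nat_lit 24491) (nat_lit 7) (node (nat_lit 7) (nat_lit 24491) (nat_lit 8) (node (nat_lit 4)
  (nat_lit 24817) (nat_lit 9) (node (nat_lit 5) (nat_lit 24928) (nat_lit 10) nil nil) nil) nil)
  nil) nil)))) (node (nat_lit 2) (nat_lit 20510) (nat_lit 5) (node (nat_lit 7) (nat_lit 20617)
  (nat_lit 6) (node (nat_lit 4) (nat_lit 21620) (nat_lit 7) (node (nat_lit 5) (nat_lit 13799)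
  (nat_lit 8) nil nil) nil) (node (nat_lit 4) (nat_lit 22350) (nat_lit 6) nil nil)) (node (nat_lit
  4) (nat_lit 23383) (nat_lit 5) nil nil)))) (node (nat_lit 2) (nat_lit 0) (nat_lit 4) (node
  (nat_lit 3) (nat_lit 20488) (nat_lit 5) (node (nat_lit 7) (nat_lit 20876) (nat_lit 6) (node
  (nat_lit 4) (nat_lit 22175) (nat_lit 7) (node (nat_lit 8) (nat_lit 22175) (nat_lit 8) (node
  (nat_lit 5) (nat_lit 22330) (nat_lit 9) (node (nat_lit 4) (nat_lit 22368) (nat_lit 10) (node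
  (nat_lit 7) (nat_lit 22368) (nat_lit 11) (node (nat_lit 8) (nat_lit 22368) (nat_lit 12) nil nil)
  nil) nil) nil) nil) (node (nat_lit 5) (nat_lit 22175) (nat_lit 7) (node (nat_lit 8) (nat_lit
  22175) (nat_lit 8) (node (nat_lit 5) (nat_lit 22330) (nat_lit 9) (node (nat_lit 4) (nat_lit
  22368) (nat_lit 10) (node (nat_lit 7) (nat_lit 22368) (nat_lit 11) (node (nat_lit 8) (nat_lit
  22368) (nat_lit 12) nil nil) nil) nil) nil) nil) nil)) (node (nat_lit 4) (nat_lit 22058)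
  (nat_lit 6) (node (nat_lit 5) (nat_lit 15379) (nat_lit 7) nil nil) (node (nat_lit 5) (nat_lit
  22206) (nat_lit 6) nil nil))) (node (nat_lit 5) (nat_lit 24085) (nat_lit 5) (node (nat_lit 7)
  (nat_lit 24085) (nat_lit 6) nil (node (nat_lit 4) (nat_lit 24643) (nat_lit 6) nil (node (nat_lit
  3) (nat_lit 24085) (nat_lit 6) nil nil))) (node (nat_lit 4) (nat_lit 23469) (nat_lit 5) nil
  (node (nat_lit 0) (nat_lit 23115) (nat_lit 5) nil (node (nat_lit 2) (nat_lit 20398) (nat_lit 5)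
  (node (nat_lit 7) (nat_lit 20673) (nat_lit 6) (node (nat_lit 4) (nat_lit 21677) (nat_lit 7) nil
  (node (nat_lit 5) (nat_lit 21677) (nat_lit 7) nil nil)) (node (nat_lit 4) (nat_lit 22058)
  (nat_lit 6) nil (node (nat_lit 5) (nat_lit 22058) (nat_lit 6) nil (node (nat_lit 3) (nat_lit
  20398) (nat_lit 6) nil nil)))) nil))))) nil))) (node (nat_lit 0) (nat_lit 0) (nat_lit 3) (node
  (nat_lit 3) (nat_lit 61199) (nat_lit 4) (node (nat_lit 4) (nat_lit 62522) (nat_lit 5) (node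
  (nat_lit 5) (nat_lit 62663) (nat_lit 6) nil nil) nil) (node (nat_lit 4) (nat_lit 63581) (nat_lit
  4) (node (nat_lit 5) (nat_lit 63617) (nat_lit 5) nil nil) (node (nat_lit 5) (nat_lit 63581)
  (nat_lit 4) (node (nat_lit 4) (nat_lit 63617) (nat_lit 5) nil nil) (node (nat_lit 0) (nat_lit
  62581) (nat_lit 4) nil (node (nat_lit 2) (nat_lit 61199) (nat_lit 4) nil nil))))) (node (nat_lit
  2) (nat_lit 0) (nat_lit 3) (node (nat_lit 3) (nat_lit 54122) (nat_lit 4) (node (nat_lit 6)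
  (nat_lit 54789) (nat_lit 5) (node (nat_lit 5) (nat_lit 57333) (nat_lit 6) (node (nat_lit 7)
  (nat_lit 57333) (nat_lit 7) (node (nat_lit 5) (nat_lit 57558) (nat_lit 8) nil nil) nil) nil)
  (node (nat_lit 4) (nat_lit 56585) (nat_lit 5) (node (nat_lit 5) (nat_lit 43282) (nat_lit 6)
  (node (nat_lit 6) (nat_lit 36727) (nat_lit 7) nil nil) nil) (node (nat_lit 5) (nat_lit 58038)
  (nat_lit 5) (node (nat_lit 4) (nat_lit 58212) (nat_lit 6) (node (nat_lit 5) (nat_lit 54393)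
  (nat_lit 7) nil nil) nil) nil))) (node (nat_lit 4) (nat_lit 58206) (nat_lit 4) (node (nat_lit 6)
  (nat_lit 58206) (nat_lit 5) (node (nat_lit 5) (nat_lit 58604) (nat_lit 6) (node (nat_lit 4)
  (nat_lit 58732) (nat_lit 7) (node (nat_lit 5) (nat_lit 58787) (nat_lit 8) (node (nat_lit 6)
  (nat_lit 58787) (nat_lit 9) (node (nat_lit 4) (nat_lit 50346) (nat_lit 10) (node (nat_lit 6)
  (nat_lit 21929) (nat_lit 11) nil nil) nil) nil) nil) nil) nil) (node (nat_lit 3) (nat_lit 58206)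
  (nat_lit 5) (node (nat_lit 5) (nat_lit 58604) (nat_lit 6) nil (node (nat_lit 4) (nat_lit 58604)
  (nat_lit 6) (node (nat_lit 5) (nat_lit 58732) (nat_lit 7) nil nil) nil)) (node (nat_lit 5)
  (nat_lit 58686) (nat_lit 5) nil nil))) (node (nat_lit 5) (nat_lit 56263) (nat_lit 4) (node
  (nat_lit 3) (nat_lit 58206) (nat_lit 5) nil (node (nat_lit 4) (nat_lit 58787) (nat_lit 5) (node
  (nat_lit 5) (nat_lit 52465) (nat_lit 6) (node (nat_lit 6) (nat_lit 21929) (nat_lit 7) nil nil)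
  nil) nil)) (node (nat_lit 0) (nat_lit 57524) (nat_lit 4) nil (node (nat_lit 2) (nat_lit 54178)
  (nat_lit 4) (node (nat_lit 5) (nat_lit 56254) (nat_lit 5) nil (node (nat_lit 4) (nat_lit 56966)
  (nat_lit 5) nil nil)) nil))))) nil)))) (node (nat_lit 3) (nat_lit 0) (nat_lit 2) (node (nat_lit
  1) (nat_lit 0) (nat_lit 3) (node (nat_lit 0) (nat_lit 60993) (nat_lit 4) (node (nat_lit 4)
  (nat_lit 61204) (nat_lit 5) (node (nat_lit 7) (nat_lit 61343) (nat_lit 6) (node (nat_lit 5)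
  (nat_lit 61343) (nat_lit 7) (node (nat_lit 4) (nat_lit 61523) (nat_lit 8) (node (nat_lit 5)
  (nat_lit 61523) (nat_lit 9) (node (nat_lit 6) (nat_lit 61627) (nat_lit 10) (node (nat_lit 7)
  (nat_lit 61663) (nat_lit 11) nil nil) nil) nil) nil) nil) (node (nat_lit 6) (nat_lit 61343)
  (nat_lit 6) (node (nat_lit 7) (nat_lit 61446) (nat_lit 7) nil (node (nat_lit 4) (nat_lit 61446)
  (nat_lit 7) (node (nat_lit 5) (nat_lit 61446) (nat_lit 8) (node (nat_lit 6) (nat_lit 61582)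
  (nat_lit 9) (node (nat_lit 7) (nat_lit 61627) (nat_lit 10) nil nil) nil) nil) (node (nat_lit 5)
  (nat_lit 61343) (nat_lit 7) nil nil))) nil)) (node (nat_lit 5) (nat_lit 60993) (nat_lit 5) (node
  (nat_lit 4) (nat_lit 61312) (nat_lit 6) (node (nat_lit 5) (nat_lit 61312) (nat_lit 7) (node
  (nat_lit 6) (nat_lit 61492) (nat_lit 8) nil nil) nil) nil) (node (nat_lit 6) (nat_lit 61204)
  (nat_lit 5) (node (nat_lit 4) (nat_lit 61343) (nat_lit 6) (node (nat_lit 5) (nat_lit 61343)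
  (nat_lit 7) (node (nat_lit 6) (nat_lit 61523) (nat_lit 8) nil nil) nil) (node (nat_lit 5)
  (nat_lit 61204) (nat_lit 6) nil nil)) nil))) (node (nat_lit 2) (nat_lit 58679) (nat_lit 4) (node
  (nat_lit 4) (nat_lit 60349) (nat_lit 5) (node (nat_lit 6) (nat_lit 60461) (nat_lit 6) nil nil)
  (node (nat_lit 5) (nat_lit 58362) (nat_lit 5) (node (nat_lit 7) (nat_lit 58362) (nat_lit 6) nil
  (node (nat_lit 6) (nat_lit 60100) (nat_lit 6) nil (node (nat_lit 4) (nat_lit 60828) (nat_lit 6)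
  (node (nat_lit 5) (nat_lit 58712) (nat_lit 7) (node (nat_lit 6) (nat_lit 41487) (nat_lit 8) nil
  nil) nil) nil))) (node (nat_lit 6) (nat_lit 60349) (nat_lit 5) (node (nat_lit 4) (nat_lit 60461)
  (nat_lit 6) (node (nat_lit 5) (nat_lit 60461) (nat_lit 7) (node (nat_lit 6) (nat_lit 45792)
  (nat_lit 8) nil nil) nil) (node (nat_lit 5) (nat_lit 60349) (nat_lit 6) nil nil)) nil))) (node
  (nat_lit 4) (nat_lit 0) (nat_lit 4) (node (nat_lit 0) (nat_lit 47790) (nat_lit 5) (node (nat_lit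
  4) (nat_lit 49354) (nat_lit 6) (node (nat_lit 6) (nat_lit 50094) (nat_lit 7) nil nil) (node
  (nat_lit 6) (nat_lit 48947) (nat_lit 6) (node (nat_lit 4) (nat_lit 49687) (nat_lit 7) (node
  (nat_lit 5) (nat_lit 50173) (nat_lit 8) nil nil) nil) (node (nat_lit 5) (nat_lit 49148) (nat_lit
  6) nil nil))) (node (nat_lit 2) (nat_lit 46585) (nat_lit 5) (node (nat_lit 4) (nat_lit 48639)
  (nat_lit 6) (node (nat_lit 6) (nat_lit 49378) (nat_lit 7) (node (nat_lit 4) (nat_lit 49864)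
  (nat_lit 8) nil nil) nil) (node (nat_lit 6) (nat_lit 47743) (nat_lit 6) (node (nat_lit 4)
  (nat_lit 47699) (nat_lit 7) (node (nat_lit 5) (nat_lit 41614) (nat_lit 8) (node (nat_lit 6)
  (nat_lit 26464) (nat_lit 9) nil nil) nil) nil) (node (nat_lit 5) (nat_lit 48483) (nat_lit 6) nil
  nil))) (node (nat_lit 5) (nat_lit 21884) (nat_lit 5) nil (node (nat_lit 6) (nat_lit 0) (nat_lit
  5) (node (nat_lit 2) (nat_lit 46336) (nat_lit 6) (node (nat_lit 4) (nat_lit 48659) (nat_lit 7)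
  nil nil) (node (nat_lit 0) (nat_lit 47709) (nat_lit 6) (node (nat_lit 4) (nat_lit 49560)
  (nat_lit 7) (node (nat_lit 6) (nat_lit 50601) (nat_lit 8) (node (nat_lit 4) (nat_lit 51013)
  (nat_lit 9) (node (nat_lit 5) (nat_lit 51269) (nat_lit 10) (node (nat_lit 6) (nat_lit 51494)
  (nat_lit 11) (node (nat_lit 4) (nat_lit 51698) (nat_lit 12) (node (nat_lit 6) (nat_lit 51864)
  (nat_lit 13) (node (nat_lit 9) (nat_lit 51987) (nat_lit 14) nil nil) nil) nil) nil) nil) nil)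
  nil) nil) (node (nat_lit 5) (nat_lit 46605) (nat_lit 6) (node (nat_lit 4) (nat_lit 48071)
  (nat_lit 7) nil nil) nil))) nil)))) (node (nat_lit 5) (nat_lit 0) (nat_lit 4) (node (nat_lit 0)
  (nat_lit 61124) (nat_lit 5) (node (nat_lit 5) (nat_lit 61124) (nat_lit 6) (node (nat_lit 6)
  (nat_lit 61340) (nat_lit 7) nil (node (nat_lit 4) (nat_lit 61340) (nat_lit 7) (node (nat_lit 5)
  (nat_lit 61340) (nat_lit 8) (node (nat_lit 6) (nat_lit 61406) (nat_lit 9) (node (nat_lit 5)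
  (nat_lit 61406) (nat_lit 10) nil nil) nil) nil) nil)) (node (nat_lit 6) (nat_lit 61263) (nat_lit
  6) (node (nat_lit 4) (nat_lit 61340) (nat_lit 7) (node (nat_lit 5) (nat_lit 61340) (nat_lit 8)
  (node (nat_lit 6) (nat_lit 61406) (nat_lit 9) nil nil) nil) nil) nil)) (node (nat_lit 2)
  (nat_lit 59016) (nat_lit 5) (node (nat_lit 5) (nat_lit 59016) (nat_lit 6) (node (nat_lit 6)
  (nat_lit 59778) (nat_lit 7) nil (node (nat_lit 4) (nat_lit 59690) (nat_lit 7) (node (nat_lit 5)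
  (nat_lit 53085) (nat_lit 8) (node (nat_lit 6) (nat_lit 51421) (nat_lit 9) (node (nat_lit 5)
  (nat_lit 41163) (nat_lit 10) nil nil) nil) nil) nil)) (node (nat_lit 6) (nat_lit 59698) (nat_lit
  6) (node (nat_lit 4) (nat_lit 59778) (nat_lit 7) (node (nat_lit 5) (nat_lit 59778) (nat_lit 8)
  (node (nat_lit 6) (nat_lit 53704) (nat_lit 9) (node (nat_lit 5) (nat_lit 25595) (nat_lit 10) nil
  nil) nil) nil) nil) nil)) (node (nat_lit 4) (nat_lit 0) (nat_lit 5) (node (nat_lit 2) (nat_lit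
  61203) (nat_lit 6) (node (nat_lit 5) (nat_lit 61203) (nat_lit 7) (node (nat_lit 4) (nat_lit
  61523) (nat_lit 8) (node (nat_lit 5) (nat_lit 61523) (nat_lit 9) (node (nat_lit 6) (nat_lit
  59528) (nat_lit 10) nil nil) nil) nil) nil) (node (nat_lit 0) (nat_lit 61343) (nat_lit 6) nil
  (node (nat_lit 6) (nat_lit 60967) (nat_lit 6) (node (nat_lit 4) (nat_lit 61148) (nat_lit 7)
  (node (nat_lit 5) (nat_lit 61148) (nat_lit 8) (node (nat_lit 6) (nat_lit 61399) (nat_lit 9)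
  (node (nat_lit 5) (nat_lit 61399) (nat_lit 10) nil nil) nil) nil) nil) (node (nat_lit 5)
  (nat_lit 60735) (nat_lit 6) nil nil)))) nil))) nil)))) (node (nat_lit 4) (nat_lit 0) (nat_lit 3)
  (node (nat_lit 0) (nat_lit 37840) (nat_lit 4) (node (nat_lit 1) (nat_lit 37840) (nat_lit 5) nil
  nil) (node (nat_lit 1) (nat_lit 0) (nat_lit 4) (node (nat_lit 0) (nat_lit 37840) (nat_lit 5)
  (node (nat_lit 7) (nat_lit 37840) (nat_lit 6) (node (nat_lit 4) (nat_lit 37840) (nat_lit 7) nil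
  nil) nil) (node (nat_lit 5) (nat_lit 32293) (nat_lit 5) (node (nat_lit 7) (nat_lit 33736)
  (nat_lit 6) nil nil) (node (nat_lit 2) (nat_lit 37840) (nat_lit 5) (node (nat_lit 7) (nat_lit
  37840) (nat_lit 6) (node (nat_lit 4) (nat_lit 37840) (nat_lit 7) nil nil) nil) (node (nat_lit 4)
  (nat_lit 0) (nat_lit 5) (node (nat_lit 2) (nat_lit 37840) (nat_lit 6) nil (node (nat_lit 0)
  (nat_lit 37840) (nat_lit 6) nil (node (nat_lit 5) (nat_lit 33729) (nat_lit 6) nil nil))) nil))))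
  (node (nat_lit 2) (nat_lit 37840) (nat_lit 4) (node (nat_lit 1) (nat_lit 37840) (nat_lit 5)
  (node (nat_lit 4) (nat_lit 37840) (nat_lit 6) (node (nat_lit 5) (nat_lit 32621) (nat_lit 7)
  (node (nat_lit 4) (nat_lit 10069) (nat_lit 8) nil nil) nil) nil) (node (nat_lit 5) (nat_lit
  37840) (nat_lit 5) nil (node (nat_lit 4) (nat_lit 37840) (nat_lit 5) nil nil))) nil))) (node
  (nat_lit 0) (nat_lit 0) (nat_lit 3) (node (nat_lit 1) (nat_lit 63401) (nat_lit 4) (node (nat_lit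
  6) (nat_lit 63560) (nat_lit 5) (node (nat_lit 5) (nat_lit 63560) (nat_lit 6) nil nil) (node
  (nat_lit 4) (nat_lit 63621) (nat_lit 5) (node (nat_lit 5) (nat_lit 63621) (nat_lit 6) (node
  (nat_lit 6) (nat_lit 22891) (nat_lit 7) nil nil) nil) (node (nat_lit 5) (nat_lit 63401) (nat_lit
  5) nil nil))) (node (nat_lit 4) (nat_lit 62964) (nat_lit 4) (node (nat_lit 6) (nat_lit 63261)
  (nat_lit 5) (node (nat_lit 5) (nat_lit 63261) (nat_lit 6) (node (nat_lit 4) (nat_lit 63629)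
  (nat_lit 7) (node (nat_lit 5) (nat_lit 63629) (nat_lit 8) (node (nat_lit 6) (nat_lit 63765)
  (nat_lit 9) (node (nat_lit 4) (nat_lit 63808) (nat_lit 10) nil nil) nil) nil) nil) nil) (node
  (nat_lit 5) (nat_lit 62964) (nat_lit 5) nil nil)) (node (nat_lit 5) (nat_lit 61180) (nat_lit 4)
  (node (nat_lit 4) (nat_lit 63261) (nat_lit 5) (node (nat_lit 5) (nat_lit 63261) (nat_lit 6)
  (node (nat_lit 6) (nat_lit 40512) (nat_lit 7) nil nil) nil) nil) (node (nat_lit 0) (nat_lit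
  63401) (nat_lit 4) nil (node (nat_lit 2) (nat_lit 61542) (nat_lit 4) nil nil))))) (node (nat_lit
  2) (nat_lit 0) (nat_lit 3) (node (nat_lit 1) (nat_lit 60982) (nat_lit 4) (node (nat_lit 6)
  (nat_lit 60982) (nat_lit 5) (node (nat_lit 5) (nat_lit 60982) (nat_lit 6) (node (nat_lit 7)
  (nat_lit 61159) (nat_lit 7) (node (nat_lit 5) (nat_lit 61159) (nat_lit 8) nil nil) nil) nil)
  (node (nat_lit 4) (nat_lit 54285) (nat_lit 5) (node (nat_lit 5) (nat_lit 45074) (nat_lit 6)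
  (node (nat_lit 6) (nat_lit 21111) (nat_lit 7) nil nil) (node (nat_lit 7) (nat_lit 54884)
  (nat_lit 6) (node (nat_lit 5) (nat_lit 54884) (nat_lit 7) (node (nat_lit 4) (nat_lit 55617)
  (nat_lit 8) nil nil) nil) nil)) (node (nat_lit 5) (nat_lit 60982) (nat_lit 5) (node (nat_lit 4)
  (nat_lit 61159) (nat_lit 6) (node (nat_lit 5) (nat_lit 61159) (nat_lit 7) nil nil) nil) nil)))
  (node (nat_lit 4) (nat_lit 55078) (nat_lit 4) (node (nat_lit 6) (nat_lit 56844) (nat_lit 5)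
  (node (nat_lit 5) (nat_lit 60593) (nat_lit 6) (node (nat_lit 4) (nat_lit 61159) (nat_lit 7)
  (node (nat_lit 5) (nat_lit 61159) (nat_lit 8) (node (nat_lit 6) (nat_lit 60603) (nat_lit 9)
  (node (nat_lit 4) (nat_lit 43784) (nat_lit 10) nil nil) nil) nil) nil) nil) (node (nat_lit 1)
  (nat_lit 61159) (nat_lit 5) (node (nat_lit 4) (nat_lit 61159) (nat_lit 6) (node (nat_lit 5)
  (nat_lit 61159) (nat_lit 7) nil nil) nil) (node (nat_lit 5) (nat_lit 56845) (nat_lit 5) nil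
  nil))) (node (nat_lit 5) (nat_lit 0) (nat_lit 4) (node (nat_lit 1) (nat_lit 60516) (nat_lit 5)
  (node (nat_lit 4) (nat_lit 58928) (nat_lit 6) (node (nat_lit 5) (nat_lit 53145) (nat_lit 7)
  (node (nat_lit 6) (nat_lit 39701) (nat_lit 8) nil nil) nil) nil) (node (nat_lit 4) (nat_lit
  54029) (nat_lit 5) (node (nat_lit 1) (nat_lit 57775) (nat_lit 6) nil (node (nat_lit 5) (nat_lit
  43784) (nat_lit 6) (node (nat_lit 6) (nat_lit 38653) (nat_lit 7) nil nil) nil)) (node (nat_lit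
  0) (nat_lit 59760) (nat_lit 5) nil (node (nat_lit 2) (nat_lit 52040) (nat_lit 5) nil nil))))
  (node (nat_lit 0) (nat_lit 60982) (nat_lit 4) (node (nat_lit 5) (nat_lit 60982) (nat_lit 5)
  (node (nat_lit 4) (nat_lit 61159) (nat_lit 6) (node (nat_lit 5) (nat_lit 61159) (nat_lit 7) nil
  nil) nil) nil) (node (nat_lit 2) (nat_lit 0) (nat_lit 4) (node (nat_lit 0) (nat_lit 59664)
  (nat_lit 5) nil (node (nat_lit 5) (nat_lit 52231) (nat_lit 5) (node (nat_lit 4) (nat_lit 55948)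
  (nat_lit 6) (node (nat_lit 5) (nat_lit 52083) (nat_lit 7) (node (nat_lit 6) (nat_lit 39769)
  (nat_lit 8) nil nil) nil) nil) (node (nat_lit 1) (nat_lit 59664) (nat_lit 5) nil (node (nat_lit
  4) (nat_lit 59796) (nat_lit 5) nil (node (nat_lit 6) (nat_lit 52177) (nat_lit 5) (node (nat_lit
  5) (nat_lit 52178) (nat_lit 6) nil (node (nat_lit 4) (nat_lit 59736) (nat_lit 6) nil nil))
  nil))))) nil))))) nil)))) nil))

noncomputable def c21 : Tr :=
  (node (nat_lit 1) (nat_lit 0) (nat_lit 1) t482 (node (nat_lit 3) (nat_lit 0) (nat_lit 1) (node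
  (nat_lit 1) (nat_lit 0) (nat_lit 2) (node (nat_lit 1) (nat_lit 0) (nat_lit 3) (node (nat_lit 0)
  (nat_lit 0) (nat_lit 4) (node (nat_lit 4) (nat_lit 65834) (nat_lit 5) (node (nat_lit 7) (nat_lit
  66709) (nat_lit 6) nil (node (nat_lit 6) (nat_lit 66709) (nat_lit 6) (node (nat_lit 4) (nat_lit
  67335) (nat_lit 7) (node (nat_lit 5) (nat_lit 65227) (nat_lit 8) (node (nat_lit 6) (nat_lit
  50923) (nat_lit 9) (node (nat_lit 7) (nat_lit 38945) (nat_lit 10) nil nil) nil) nil) nil) nil))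
  (node (nat_lit 5) (nat_lit 64501) (nat_lit 5) (node (nat_lit 7) (nat_lit 66564) (nat_lit 6)
  (node (nat_lit 6) (nat_lit 67191) (nat_lit 7) nil nil) (node (nat_lit 6) (nat_lit 66706)
  (nat_lit 6) (node (nat_lit 4) (nat_lit 67333) (nat_lit 7) (node (nat_lit 5) (nat_lit 67661)
  (nat_lit 8) nil nil) nil) (node (nat_lit 4) (nat_lit 66564) (nat_lit 6) (node (nat_lit 5)
  (nat_lit 67191) (nat_lit 7) (node (nat_lit 6) (nat_lit 67603) (nat_lit 8) nil nil) nil) nil)))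
  (node (nat_lit 6) (nat_lit 65962) (nat_lit 5) (node (nat_lit 4) (nat_lit 66837) (nat_lit 6)
  (node (nat_lit 5) (nat_lit 67463) (nat_lit 7) (node (nat_lit 6) (nat_lit 67661) (nat_lit 8) nil
  nil) nil) (node (nat_lit 5) (nat_lit 66837) (nat_lit 6) (node (nat_lit 4) (nat_lit 67463)
  (nat_lit 7) (node (nat_lit 5) (nat_lit 67661) (nat_lit 8) (node (nat_lit 6) (nat_lit 67661)
  (nat_lit 9) nil nil) nil) nil) nil)) (node (nat_lit 0) (nat_lit 65515) (nat_lit 5) (node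
  (nat_lit 6) (nat_lit 66390) (nat_lit 6) nil (node (nat_lit 5) (nat_lit 66390) (nat_lit 6) nil
  nil)) (node (nat_lit 2) (nat_lit 64394) (nat_lit 5) (node (nat_lit 7) (nat_lit 65269) (nat_lit
  6) nil (node (nat_lit 6) (nat_lit 65269) (nat_lit 6) (node (nat_lit 4) (nat_lit 64532) (nat_lit
  7) nil nil) (node (nat_lit 5) (nat_lit 65269) (nat_lit 6) nil nil))) nil))))) (node (nat_lit 2)
  (nat_lit 0) (nat_lit 4) (node (nat_lit 4) (nat_lit 65551) (nat_lit 5) (node (nat_lit 7) (nat_lit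
  66426) (nat_lit 6) (node (nat_lit 6) (nat_lit 67053) (nat_lit 7) (node (nat_lit 4) (nat_lit
  67465) (nat_lit 8) (node (nat_lit 5) (nat_lit 67661) (nat_lit 9) (node (nat_lit 6) (nat_lit
  64206) (nat_lit 10) (node (nat_lit 7) (nat_lit 55428) (nat_lit 11) (node (nat_lit 4) (nat_lit
  32702) (nat_lit 12) nil nil) nil) nil) nil) nil) (node (nat_lit 5) (nat_lit 67053) (nat_lit 7)
  (node (nat_lit 4) (nat_lit 66911) (nat_lit 8) (node (nat_lit 5) (nat_lit 65151) (nat_lit 9)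
  (node (nat_lit 6) (nat_lit 61407) (nat_lit 10) (node (nat_lit 7) (nat_lit 52789) (nat_lit 11)
  (node (nat_lit 4) (nat_lit 40750) (nat_lit 12) nil nil) nil) nil) nil) nil) nil)) (node (nat_lit
  6) (nat_lit 66609) (nat_lit 6) nil nil)) (node (nat_lit 5) (nat_lit 62651) (nat_lit 5) (node
  (nat_lit 7) (nat_lit 64264) (nat_lit 6) (node (nat_lit 6) (nat_lit 66060) (nat_lit 7) nil nil)
  (node (nat_lit 6) (nat_lit 65715) (nat_lit 6) (node (nat_lit 4) (nat_lit 66342) (nat_lit 7)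
  (node (nat_lit 5) (nat_lit 66754) (nat_lit 8) nil nil) nil) (node (nat_lit 4) (nat_lit 65295)
  (nat_lit 6) (node (nat_lit 5) (nat_lit 51580) (nat_lit 7) (node (nat_lit 6) (nat_lit 42269)
  (nat_lit 8) (node (nat_lit 7) (nat_lit 37490) (nat_lit 9) nil nil) nil) (node (nat_lit 6)
  (nat_lit 64649) (nat_lit 7) nil nil)) nil))) (node (nat_lit 6) (nat_lit 65412) (nat_lit 5) (node
  (nat_lit 4) (nat_lit 66287) (nat_lit 6) (node (nat_lit 5) (nat_lit 64383) (nat_lit 7) (node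
  (nat_lit 6) (nat_lit 39875) (nat_lit 8) (node (nat_lit 7) (nat_lit 22878) (nat_lit 9) nil nil)
  nil) nil) (node (nat_lit 5) (nat_lit 66287) (nat_lit 6) (node (nat_lit 4) (nat_lit 66914)
  (nat_lit 7) (node (nat_lit 5) (nat_lit 67326) (nat_lit 8) (node (nat_lit 6) (nat_lit 67611)
  (nat_lit 9) nil nil) nil) nil) nil)) (node (nat_lit 0) (nat_lit 64870) (nat_lit 5) (node
  (nat_lit 7) (nat_lit 65745) (nat_lit 6) nil (node (nat_lit 6) (nat_lit 65745) (nat_lit 6) nil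
  (node (nat_lit 5) (nat_lit 65745) (nat_lit 6) nil nil))) (node (nat_lit 2) (nat_lit 62591)
  (nat_lit 5) (node (nat_lit 7) (nat_lit 63690) (nat_lit 6) (node (nat_lit 6) (nat_lit 64146)
  (nat_lit 7) nil (node (nat_lit 5) (nat_lit 64317) (nat_lit 7) (node (nat_lit 4) (nat_lit 60165)
  (nat_lit 8) nil nil) nil)) (node (nat_lit 6) (nat_lit 64693) (nat_lit 6) (node (nat_lit 4)
  (nat_lit 62624) (nat_lit 7) (node (nat_lit 5) (nat_lit 57897) (nat_lit 8) (node (nat_lit 6)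
  (nat_lit 41052) (nat_lit 9) nil nil) nil) nil) (node (nat_lit 5) (nat_lit 63466) (nat_lit 6)
  (node (nat_lit 4) (nat_lit 64050) (nat_lit 7) (node (nat_lit 5) (nat_lit 56015) (nat_lit 8)
  (node (nat_lit 6) (nat_lit 42059) (nat_lit 9) nil nil) nil) nil) (node (nat_lit 4) (nat_lit
  65295) (nat_lit 6) nil nil)))) nil))))) (node (nat_lit 4) (nat_lit 0) (nat_lit 4) (node (nat_lit
  0) (nat_lit 66034) (nat_lit 5) nil (node (nat_lit 2) (nat_lit 64579) (nat_lit 5) nil (node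
  (nat_lit 5) (nat_lit 0) (nat_lit 5) (node (nat_lit 0) (nat_lit 23415) (nat_lit 6) (node (nat_lit
  4) (nat_lit 24673) (nat_lit 7) nil nil) (node (nat_lit 2) (nat_lit 21497) (nat_lit 6) (node
  (nat_lit 4) (nat_lit 23603) (nat_lit 7) (node (nat_lit 5) (nat_lit 24482) (nat_lit 8) nil nil)
  (node (nat_lit 5) (nat_lit 22521) (nat_lit 7) (node (nat_lit 4) (nat_lit 24173) (nat_lit 8) nil
  nil) (node (nat_lit 6) (nat_lit 23853) (nat_lit 7) nil nil))) (node (nat_lit 4) (nat_lit 21945)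
  (nat_lit 6) nil nil))) (node (nat_lit 6) (nat_lit 62706) (nat_lit 5) (node (nat_lit 5) (nat_lit
  64594) (nat_lit 6) (node (nat_lit 4) (nat_lit 66544) (nat_lit 7) (node (nat_lit 5) (nat_lit
  67414) (nat_lit 8) (node (nat_lit 6) (nat_lit 67661) (nat_lit 9) (node (nat_lit 4) (nat_lit
  67661) (nat_lit 10) nil nil) nil) nil) nil) nil) nil)))) (node (nat_lit 5) (nat_lit 0) (nat_lit
  4) (node (nat_lit 0) (nat_lit 65451) (nat_lit 5) nil (node (nat_lit 2) (nat_lit 62562) (nat_lit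
  5) (node (nat_lit 5) (nat_lit 63805) (nat_lit 6) (node (nat_lit 4) (nat_lit 63468) (nat_lit 7)
  (node (nat_lit 5) (nat_lit 53338) (nat_lit 8) (node (nat_lit 6) (nat_lit 48291) (nat_lit 9) nil
  nil) nil) nil) (node (nat_lit 6) (nat_lit 65817) (nat_lit 6) nil nil)) (node (nat_lit 4)
  (nat_lit 62770) (nat_lit 5) (node (nat_lit 6) (nat_lit 65437) (nat_lit 6) (node (nat_lit 4)
  (nat_lit 66502) (nat_lit 7) (node (nat_lit 5) (nat_lit 67372) (nat_lit 8) (node (nat_lit 6)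
  (nat_lit 66266) (nat_lit 9) (node (nat_lit 5) (nat_lit 55897) (nat_lit 10) (node (nat_lit 4)
  (nat_lit 25306) (nat_lit 11) nil nil) nil) nil) nil) nil) (node (nat_lit 5) (nat_lit 64467)
  (nat_lit 6) nil nil)) nil))) nil)))) (node (nat_lit 4) (nat_lit 0) (nat_lit 3) (node (nat_lit 0)
  (nat_lit 36473) (nat_lit 4) (node (nat_lit 1) (nat_lit 36473) (nat_lit 5) (node (nat_lit 4)
  (nat_lit 36473) (nat_lit 6) (node (nat_lit 5) (nat_lit 36473) (nat_lit 7) (node (nat_lit 4)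
  (nat_lit 36473) (nat_lit 8) nil nil) nil) nil) (node (nat_lit 5) (nat_lit 36473) (nat_lit 5) nil
  (node (nat_lit 4) (nat_lit 36473) (nat_lit 5) nil nil))) (node (nat_lit 1) (nat_lit 29293)
  (nat_lit 4) (node (nat_lit 0) (nat_lit 36473) (nat_lit 5) nil (node (nat_lit 2) (nat_lit 36473)
  (nat_lit 5) nil (node (nat_lit 4) (nat_lit 31327) (nat_lit 5) (node (nat_lit 5) (nat_lit 19823)
  (nat_lit 6) nil nil) nil))) (node (nat_lit 2) (nat_lit 0) (nat_lit 4) (node (nat_lit 1) (nat_lit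
  36473) (nat_lit 5) (node (nat_lit 4) (nat_lit 35672) (nat_lit 6) (node (nat_lit 5) (nat_lit
  27853) (nat_lit 7) nil nil) nil) (node (nat_lit 5) (nat_lit 36473) (nat_lit 5) nil (node
  (nat_lit 4) (nat_lit 36473) (nat_lit 5) nil (node (nat_lit 0) (nat_lit 36473) (nat_lit 5) nil
  (node (nat_lit 2) (nat_lit 36473) (nat_lit 5) nil nil))))) nil))) (node (nat_lit 0) (nat_lit 0)
  (nat_lit 3) (node (nat_lit 1) (nat_lit 66204) (nat_lit 4) (node (nat_lit 4) (nat_lit 69021)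
  (nat_lit 5) (node (nat_lit 5) (nat_lit 69318) (nat_lit 6) nil nil) nil) (node (nat_lit 4)
  (nat_lit 63853) (nat_lit 4) (node (nat_lit 5) (nat_lit 65792) (nat_lit 5) nil nil) (node
  (nat_lit 5) (nat_lit 61208) (nat_lit 4) (node (nat_lit 1) (nat_lit 69213) (nat_lit 5) nil (node
  (nat_lit 4) (nat_lit 66995) (nat_lit 5) (node (nat_lit 5) (nat_lit 68295) (nat_lit 6) (node
  (nat_lit 6) (nat_lit 38887) (nat_lit 7) nil nil) nil) nil)) (node (nat_lit 0) (nat_lit 66204)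
  (nat_lit 4) nil (node (nat_lit 2) (nat_lit 63626) (nat_lit 4) nil nil))))) (node (nat_lit 2)
  (nat_lit 0) (nat_lit 3) (node (nat_lit 1) (nat_lit 61697) (nat_lit 4) (node (nat_lit 6) (nat_lit
  65685) (nat_lit 5) (node (nat_lit 5) (nat_lit 68151) (nat_lit 6) nil nil) (node (nat_lit 4)
  (nat_lit 60048) (nat_lit 5) (node (nat_lit 5) (nat_lit 43053) (nat_lit 6) nil (node (nat_lit 7)
  (nat_lit 60843) (nat_lit 6) nil nil)) (node (nat_lit 5) (nat_lit 67276) (nat_lit 5) nil nil)))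
  (node (nat_lit 4) (nat_lit 55741) (nat_lit 4) (node (nat_lit 6) (nat_lit 58790) (nat_lit 5)
  (node (nat_lit 5) (nat_lit 63607) (nat_lit 6) (node (nat_lit 4) (nat_lit 66320) (nat_lit 7)
  (node (nat_lit 5) (nat_lit 67485) (nat_lit 8) (node (nat_lit 6) (nat_lit 62692) (nat_lit 9)
  (node (nat_lit 4) (nat_lit 46520) (nat_lit 10) nil nil) nil) nil) nil) (node (nat_lit 1)
  (nat_lit 66236) (nat_lit 6) nil nil)) (node (nat_lit 1) (nat_lit 68444) (nat_lit 5) nil (node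
  (nat_lit 5) (nat_lit 59743) (nat_lit 5) (node (nat_lit 1) (nat_lit 68499) (nat_lit 6) nil nil)
  nil))) (node (nat_lit 5) (nat_lit 53255) (nat_lit 4) (node (nat_lit 1) (nat_lit 67118) (nat_lit
  5) nil (node (nat_lit 4) (nat_lit 58134) (nat_lit 5) (node (nat_lit 1) (nat_lit 63447) (nat_lit
  6) nil (node (nat_lit 5) (nat_lit 46520) (nat_lit 6) (node (nat_lit 6) (nat_lit 38534) (nat_lit
  7) nil nil) nil)) nil)) (node (nat_lit 0) (nat_lit 65082) (nat_lit 4) nil (node (nat_lit 2)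
  (nat_lit 57251) (nat_lit 4) (node (nat_lit 5) (nat_lit 59484) (nat_lit 5) (node (nat_lit 4)
  (nat_lit 63193) (nat_lit 6) (node (nat_lit 5) (nat_lit 54321) (nat_lit 7) nil nil) nil) (node
  (nat_lit 1) (nat_lit 64685) (nat_lit 5) nil (node (nat_lit 4) (nat_lit 66393) (nat_lit 5) nil
  nil))) nil))))) nil)))) nil) nil))

noncomputable def t483 : Tr :=
  (node (nat_lit 1) (nat_lit 0) (nat_lit 2) (node (nat_lit 3) (nat_lit 0) (nat_lit 3) (node
  (nat_lit 4) (nat_lit 0) (nat_lit 4) (node (nat_lit 5) (nat_lit 36328) (nat_lit 5) (node (nat_lit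
  4) (nat_lit 38470) (nat_lit 6) nil nil) (node (nat_lit 6) (nat_lit 63910) (nat_lit 5) (node
  (nat_lit 5) (nat_lit 65132) (nat_lit 6) (node (nat_lit 4) (nat_lit 65381) (nat_lit 7) (node
  (nat_lit 6) (nat_lit 65381) (nat_lit 8) (node (nat_lit 4) (nat_lit 65727) (nat_lit 9) (node
  (nat_lit 5) (nat_lit 65845) (nat_lit 10) (node (nat_lit 6) (nat_lit 65845) (nat_lit 11) (node
  (nat_lit 4) (nat_lit 66010) (nat_lit 12) (node (nat_lit 6) (nat_lit 66010) (nat_lit 13) (node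
  (nat_lit 5) (nat_lit 66110) (nat_lit 14) nil nil) nil) nil) nil) nil) nil) (node (nat_lit 5)
  (nat_lit 65575) (nat_lit 8) (node (nat_lit 6) (nat_lit 65575) (nat_lit 9) nil nil) nil)) nil)
  nil) (node (nat_lit 0) (nat_lit 65010) (nat_lit 5) nil (node (nat_lit 2) (nat_lit 64777)
  (nat_lit 5) nil nil)))) (node (nat_lit 5) (nat_lit 0) (nat_lit 4) (node (nat_lit 4) (nat_lit 0)
  (nat_lit 5) (node (nat_lit 5) (nat_lit 0) (nat_lit 6) (node (nat_lit 0) (nat_lit 61251) (nat_lit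
  7) (node (nat_lit 4) (nat_lit 61698) (nat_lit 8) nil nil) (node (nat_lit 2) (nat_lit 60897)
  (nat_lit 7) (node (nat_lit 4) (nat_lit 61698) (nat_lit 8) (node (nat_lit 5) (nat_lit 61839)
  (nat_lit 9) (node (nat_lit 4) (nat_lit 61940) (nat_lit 10) nil nil) nil) nil) (node (nat_lit 6)
  (nat_lit 26682) (nat_lit 7) (node (nat_lit 2) (nat_lit 27236) (nat_lit 8) nil (node (nat_lit 0)
  (nat_lit 27534) (nat_lit 8) nil nil)) nil))) (node (nat_lit 0) (nat_lit 67234) (nat_lit 6) nil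
  (node (nat_lit 2) (nat_lit 67053) (nat_lit 6) nil (node (nat_lit 6) (nat_lit 66361) (nat_lit 6)
  (node (nat_lit 4) (nat_lit 66929) (nat_lit 7) (node (nat_lit 5) (nat_lit 67123) (nat_lit 8)
  (node (nat_lit 6) (nat_lit 67123) (nat_lit 9) (node (nat_lit 5) (nat_lit 67393) (nat_lit 10) nil
  nil) nil) nil) nil) nil)))) (node (nat_lit 0) (nat_lit 66790) (nat_lit 5) (node (nat_lit 6)
  (nat_lit 66790) (nat_lit 6) (node (nat_lit 4) (nat_lit 67104) (nat_lit 7) (node (nat_lit 5)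
  (nat_lit 67205) (nat_lit 8) (node (nat_lit 6) (nat_lit 67205) (nat_lit 9) nil nil) nil) nil)
  (node (nat_lit 5) (nat_lit 66971) (nat_lit 6) (node (nat_lit 4) (nat_lit 67104) (nat_lit 7)
  (node (nat_lit 5) (nat_lit 67205) (nat_lit 8) (node (nat_lit 6) (nat_lit 67205) (nat_lit 9)
  (node (nat_lit 5) (nat_lit 67340) (nat_lit 10) nil nil) nil) nil) nil) nil)) (node (nat_lit 2)
  (nat_lit 65726) (nat_lit 5) (node (nat_lit 6) (nat_lit 65726) (nat_lit 6) (node (nat_lit 5)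
  (nat_lit 66273) (nat_lit 7) nil (node (nat_lit 4) (nat_lit 66273) (nat_lit 7) (node (nat_lit 5)
  (nat_lit 66224) (nat_lit 8) (node (nat_lit 6) (nat_lit 57891) (nat_lit 9) (node (nat_lit 5)
  (nat_lit 44785) (nat_lit 10) nil nil) nil) nil) nil)) (node (nat_lit 5) (nat_lit 66140) (nat_lit
  6) (node (nat_lit 4) (nat_lit 66273) (nat_lit 7) (node (nat_lit 5) (nat_lit 66374) (nat_lit 8)
  (node (nat_lit 6) (nat_lit 61192) (nat_lit 9) (node (nat_lit 5) (nat_lit 47237) (nat_lit 10) nil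
  nil) nil) nil) nil) nil)) nil))) (node (nat_lit 0) (nat_lit 64666) (nat_lit 4) (node (nat_lit 4)
  (nat_lit 65181) (nat_lit 5) (node (nat_lit 6) (nat_lit 65181) (nat_lit 6) nil nil) (node
  (nat_lit 5) (nat_lit 65181) (nat_lit 5) (node (nat_lit 4) (nat_lit 65363) (nat_lit 6) (node
  (nat_lit 5) (nat_lit 65496) (nat_lit 7) nil nil) nil) (node (nat_lit 6) (nat_lit 64666) (nat_lit
  5) (node (nat_lit 4) (nat_lit 65080) (nat_lit 6) (node (nat_lit 5) (nat_lit 65214) (nat_lit 7)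
  nil nil) nil) nil))) (node (nat_lit 2) (nat_lit 0) (nat_lit 4) (node (nat_lit 4) (nat_lit 63942)
  (nat_lit 5) (node (nat_lit 6) (nat_lit 63942) (nat_lit 6) (node (nat_lit 5) (nat_lit 64257)
  (nat_lit 7) (node (nat_lit 4) (nat_lit 64358) (nat_lit 8) (node (nat_lit 5) (nat_lit 64433)
  (nat_lit 9) (node (nat_lit 6) (nat_lit 64433) (nat_lit 10) nil nil) nil) nil) (node (nat_lit 4)
  (nat_lit 64257) (nat_lit 7) (node (nat_lit 5) (nat_lit 64358) (nat_lit 8) (node (nat_lit 6)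
  (nat_lit 64358) (nat_lit 9) nil nil) nil) nil)) nil) (node (nat_lit 5) (nat_lit 63942) (nat_lit
  5) (node (nat_lit 4) (nat_lit 64124) (nat_lit 6) (node (nat_lit 5) (nat_lit 63059) (nat_lit 7)
  (node (nat_lit 6) (nat_lit 35212) (nat_lit 8) nil nil) nil) nil) (node (nat_lit 6) (nat_lit
  60766) (nat_lit 5) (node (nat_lit 4) (nat_lit 63077) (nat_lit 6) (node (nat_lit 5) (nat_lit
  57109) (nat_lit 7) (node (nat_lit 6) (nat_lit 48330) (nat_lit 8) nil nil) nil) nil) (node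
  (nat_lit 0) (nat_lit 62762) (nat_lit 5) nil (node (nat_lit 2) (nat_lit 60766) (nat_lit 5) nil
  nil))))) nil)))) (node (nat_lit 4) (nat_lit 0) (nat_lit 3) (node (nat_lit 3) (nat_lit 0)
  (nat_lit 4) (node (nat_lit 5) (nat_lit 0) (nat_lit 5) (node (nat_lit 7) (nat_lit 0) (nat_lit 6)
  (node (nat_lit 0) (nat_lit 27447) (nat_lit 7) nil (node (nat_lit 2) (nat_lit 26629) (nat_lit 7)
  (node (nat_lit 5) (nat_lit 27032) (nat_lit 8) (node (nat_lit 7) (nat_lit 27032) (nat_lit 9)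
  (node (nat_lit 5) (nat_lit 27163) (nat_lit 10) (node (nat_lit 4) (nat_lit 27208) (nat_lit 11)
  (node (nat_lit 7) (nat_lit 27208) (nat_lit 12) (node (nat_lit 5) (nat_lit 27270) (nat_lit 13)
  (node (nat_lit 7) (nat_lit 27270) (nat_lit 14) (node (nat_lit 4) (nat_lit 27308) (nat_lit 15)
  (node (nat_lit 5) (nat_lit 27321) (nat_lit 16) (node (nat_lit 4) (nat_lit 27331) (nat_lit 17)
  nil nil) nil) nil) nil) nil) nil) nil) nil) nil) (node (nat_lit 7) (nat_lit 26629) (nat_lit 8)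
  nil nil)) (node (nat_lit 4) (nat_lit 26961) (nat_lit 7) (node (nat_lit 5) (nat_lit 27162)
  (nat_lit 8) nil nil) nil))) (node (nat_lit 0) (nat_lit 27244) (nat_lit 6) (node (nat_lit 5)
  (nat_lit 27373) (nat_lit 7) nil (node (nat_lit 7) (nat_lit 27244) (nat_lit 7) (node (nat_lit 4)
  (nat_lit 27470) (nat_lit 8) (node (nat_lit 5) (nat_lit 27544) (nat_lit 9) (node (nat_lit 4)
  (nat_lit 27601) (nat_lit 10) (node (nat_lit 7) (nat_lit 27601) (nat_lit 11) nil nil) nil) nil)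
  nil) nil)) (node (nat_lit 2) (nat_lit 26629) (nat_lit 6) (node (nat_lit 5) (nat_lit 27307)
  (nat_lit 7) (node (nat_lit 7) (nat_lit 27307) (nat_lit 8) (node (nat_lit 4) (nat_lit 27479)
  (nat_lit 9) (node (nat_lit 5) (nat_lit 27536) (nat_lit 10) nil nil) nil) nil) (node (nat_lit 7)
  (nat_lit 26629) (nat_lit 7) (node (nat_lit 4) (nat_lit 27032) (nat_lit 8) (node (nat_lit 5)
  (nat_lit 26265) (nat_lit 9) (node (nat_lit 4) (nat_lit 20721) (nat_lit 10) (node (nat_lit 7)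
  (nat_lit 13195) (nat_lit 11) nil nil) nil) nil) nil) (node (nat_lit 0) (nat_lit 26934) (nat_lit
  7) nil (node (nat_lit 2) (nat_lit 26629) (nat_lit 7) nil nil)))) (node (nat_lit 4) (nat_lit 0)
  (nat_lit 6) (node (nat_lit 0) (nat_lit 27447) (nat_lit 7) (node (nat_lit 5) (nat_lit 27544)
  (nat_lit 8) (node (nat_lit 4) (nat_lit 27618) (nat_lit 9) (node (nat_lit 7) (nat_lit 27618)
  (nat_lit 10) nil nil) nil) (node (nat_lit 7) (nat_lit 27447) (nat_lit 8) (node (nat_lit 4)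
  (nat_lit 27618) (nat_lit 9) (node (nat_lit 5) (nat_lit 27675) (nat_lit 10) nil nil) nil) nil))
  (node (nat_lit 2) (nat_lit 27318) (nat_lit 7) (node (nat_lit 5) (nat_lit 27544) (nat_lit 8)
  (node (nat_lit 4) (nat_lit 27618) (nat_lit 9) (node (nat_lit 7) (nat_lit 27618) (nat_lit 10) nil
  nil) nil) (node (nat_lit 7) (nat_lit 27318) (nat_lit 8) (node (nat_lit 4) (nat_lit 27618)
  (nat_lit 9) (node (nat_lit 5) (nat_lit 27675) (nat_lit 10) nil nil) nil) nil)) (node (nat_lit 5)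
  (nat_lit 26961) (nat_lit 7) (node (nat_lit 7) (nat_lit 26961) (nat_lit 8) (node (nat_lit 4)
  (nat_lit 27320) (nat_lit 9) (node (nat_lit 5) (nat_lit 27443) (nat_lit 10) (node (nat_lit 4)
  (nat_lit 27539) (nat_lit 11) (node (nat_lit 7) (nat_lit 27539) (nat_lit 12) nil nil) nil) nil)
  nil) nil) nil))) nil)))) (node (nat_lit 4) (nat_lit 25741) (nat_lit 5) (node (nat_lit 5)
  (nat_lit 26511) (nat_lit 6) nil nil) (node (nat_lit 0) (nat_lit 25836) (nat_lit 5) (node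
  (nat_lit 7) (nat_lit 25836) (nat_lit 6) nil nil) (node (nat_lit 2) (nat_lit 0) (nat_lit 5) (node
  (nat_lit 4) (nat_lit 24788) (nat_lit 6) nil (node (nat_lit 5) (nat_lit 24283) (nat_lit 6) nil
  (node (nat_lit 7) (nat_lit 22974) (nat_lit 6) (node (nat_lit 4) (nat_lit 24091) (nat_lit 7)
  (node (nat_lit 5) (nat_lit 15111) (nat_lit 8) nil nil) nil) (node (nat_lit 0) (nat_lit 24283)
  (nat_lit 6) nil (node (nat_lit 2) (nat_lit 22854) (nat_lit 6) nil nil))))) nil)))) (node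
  (nat_lit 0) (nat_lit 0) (nat_lit 4) (node (nat_lit 3) (nat_lit 25124) (nat_lit 5) (node (nat_lit
  4) (nat_lit 25681) (nat_lit 6) (node (nat_lit 5) (nat_lit 25783) (nat_lit 7) nil nil) nil) (node
  (nat_lit 5) (nat_lit 26623) (nat_lit 5) nil (node (nat_lit 4) (nat_lit 26534) (nat_lit 5) nil
  (node (nat_lit 0) (nat_lit 26364) (nat_lit 5) nil (node (nat_lit 2) (nat_lit 25124) (nat_lit 5)
  nil nil))))) (node (nat_lit 2) (nat_lit 0) (nat_lit 4) (node (nat_lit 3) (nat_lit 22829)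
  (nat_lit 5) (node (nat_lit 7) (nat_lit 23263) (nat_lit 6) nil (node (nat_lit 4) (nat_lit 24283)
  (nat_lit 6) (node (nat_lit 5) (nat_lit 17172) (nat_lit 7) nil nil) (node (nat_lit 5) (nat_lit
  24629) (nat_lit 6) nil nil))) (node (nat_lit 5) (nat_lit 26515) (nat_lit 5) nil (node (nat_lit
  4) (nat_lit 25836) (nat_lit 5) nil (node (nat_lit 0) (nat_lit 25447) (nat_lit 5) nil (node
  (nat_lit 2) (nat_lit 22730) (nat_lit 5) (node (nat_lit 5) (nat_lit 24283) (nat_lit 6) nil (node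
  (nat_lit 4) (nat_lit 24283) (nat_lit 6) nil nil)) nil))))) nil))) nil)) (node (nat_lit 3)
  (nat_lit 0) (nat_lit 2) (node (nat_lit 1) (nat_lit 0) (nat_lit 3) (node (nat_lit 4) (nat_lit 0)
  (nat_lit 4) (node (nat_lit 5) (nat_lit 0) (nat_lit 5) (node (nat_lit 4) (nat_lit 24673) (nat_lit
  6) (node (nat_lit 0) (nat_lit 25200) (nat_lit 7) (node (nat_lit 5) (nat_lit 25200) (nat_lit 8)
  (node (nat_lit 4) (nat_lit 25350) (nat_lit 9) (node (nat_lit 5) (nat_lit 25350) (nat_lit 10)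
  (node (nat_lit 6) (nat_lit 25440) (nat_lit 11) (node (nat_lit 4) (nat_lit 25450) (nat_lit 12)
  (node (nat_lit 5) (nat_lit 25450) (nat_lit 13) nil nil) nil) nil) nil) nil) nil) (node (nat_lit
  2) (nat_lit 25087) (nat_lit 7) (node (nat_lit 5) (nat_lit 25087) (nat_lit 8) (node (nat_lit 4)
  (nat_lit 25350) (nat_lit 9) (node (nat_lit 5) (nat_lit 25350) (nat_lit 10) (node (nat_lit 6)
  (nat_lit 23370) (nat_lit 11) (node (nat_lit 4) (nat_lit 17493) (nat_lit 12) (node (nat_lit 5)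
  (nat_lit 12118) (nat_lit 13) nil nil) nil) nil) nil) nil) nil) nil)) (node (nat_lit 0) (nat_lit
  25087) (nat_lit 6) nil (node (nat_lit 2) (nat_lit 24736) (nat_lit 6) nil nil))) (node (nat_lit
  6) (nat_lit 0) (nat_lit 5) (node (nat_lit 5) (nat_lit 52040) (nat_lit 6) (node (nat_lit 4)
  (nat_lit 53678) (nat_lit 7) (node (nat_lit 5) (nat_lit 54844) (nat_lit 8) (node (nat_lit 6)
  (nat_lit 55718) (nat_lit 9) nil nil) nil) (node (nat_lit 6) (nat_lit 53678) (nat_lit 7) nil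
  nil)) (node (nat_lit 0) (nat_lit 53274) (nat_lit 6) (node (nat_lit 6) (nat_lit 55171) (nat_lit
  7) nil nil) (node (nat_lit 2) (nat_lit 51740) (nat_lit 6) (node (nat_lit 6) (nat_lit 53637)
  (nat_lit 7) nil nil) nil))) (node (nat_lit 0) (nat_lit 53364) (nat_lit 5) (node (nat_lit 6)
  (nat_lit 54656) (nat_lit 6) (node (nat_lit 4) (nat_lit 55482) (nat_lit 7) (node (nat_lit 5)
  (nat_lit 56025) (nat_lit 8) (node (nat_lit 6) (nat_lit 56401) (nat_lit 9) nil nil) nil) nil)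
  (node (nat_lit 5) (nat_lit 54880) (nat_lit 6) (node (nat_lit 4) (nat_lit 55706) (nat_lit 7)
  (node (nat_lit 5) (nat_lit 56249) (nat_lit 8) (node (nat_lit 6) (nat_lit 56625) (nat_lit 9)
  (node (nat_lit 4) (nat_lit 56910) (nat_lit 10) nil nil) nil) nil) nil) (node (nat_lit 4)
  (nat_lit 55111) (nat_lit 6) (node (nat_lit 6) (nat_lit 55936) (nat_lit 7) nil nil) nil))) (node
  (nat_lit 2) (nat_lit 0) (nat_lit 5) (node (nat_lit 6) (nat_lit 53311) (nat_lit 6) (node (nat_lit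
  4) (nat_lit 53418) (nat_lit 7) (node (nat_lit 5) (nat_lit 46467) (nat_lit 8) (node (nat_lit 6)
  (nat_lit 29550) (nat_lit 9) nil nil) nil) nil) (node (nat_lit 5) (nat_lit 54138) (nat_lit 6)
  (node (nat_lit 4) (nat_lit 52386) (nat_lit 7) (node (nat_lit 5) (nat_lit 48587) (nat_lit 8)
  (node (nat_lit 6) (nat_lit 42731) (nat_lit 9) (node (nat_lit 4) (nat_lit 29541) (nat_lit 10) nil
  nil) nil) nil) nil) (node (nat_lit 4) (nat_lit 54312) (nat_lit 6) (node (nat_lit 6) (nat_lit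
  55137) (nat_lit 7) (node (nat_lit 4) (nat_lit 55680) (nat_lit 8) nil nil) nil) (node (nat_lit 0)
  (nat_lit 53863) (nat_lit 6) nil (node (nat_lit 2) (nat_lit 52423) (nat_lit 6) (node (nat_lit 6)
  (nat_lit 49312) (nat_lit 7) nil (node (nat_lit 5) (nat_lit 52200) (nat_lit 7) nil nil)) nil)))))
  nil)))) (node (nat_lit 5) (nat_lit 0) (nat_lit 4) (node (nat_lit 4) (nat_lit 0) (nat_lit 5)
  (node (nat_lit 5) (nat_lit 66862) (nat_lit 6) (node (nat_lit 6) (nat_lit 41948) (nat_lit 7) nil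
  nil) (node (nat_lit 0) (nat_lit 67531) (nat_lit 6) (node (nat_lit 5) (nat_lit 67531) (nat_lit 7)
  (node (nat_lit 4) (nat_lit 67729) (nat_lit 8) (node (nat_lit 5) (nat_lit 67729) (nat_lit 9) nil
  nil) nil) nil) (node (nat_lit 2) (nat_lit 67377) (nat_lit 6) (node (nat_lit 5) (nat_lit 67377)
  (nat_lit 7) (node (nat_lit 4) (nat_lit 67729) (nat_lit 8) (node (nat_lit 5) (nat_lit 67729)
  (nat_lit 9) nil nil) nil) nil) (node (nat_lit 6) (nat_lit 67117) (nat_lit 6) (node (nat_lit 0)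
  (nat_lit 67644) (nat_lit 7) nil (node (nat_lit 2) (nat_lit 67531) (nat_lit 7) nil (node (nat_lit
  4) (nat_lit 67316) (nat_lit 7) (node (nat_lit 5) (nat_lit 67316) (nat_lit 8) (node (nat_lit 6)
  (nat_lit 67592) (nat_lit 9) (node (nat_lit 5) (nat_lit 67592) (nat_lit 10) nil nil) nil) nil)
  nil))) nil)))) (node (nat_lit 0) (nat_lit 67290) (nat_lit 5) (node (nat_lit 6) (nat_lit 67443)
  (nat_lit 6) (node (nat_lit 5) (nat_lit 67443) (nat_lit 7) nil (node (nat_lit 4) (nat_lit 67556)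
  (nat_lit 7) (node (nat_lit 5) (nat_lit 67556) (nat_lit 8) (node (nat_lit 6) (nat_lit 67706)
  (nat_lit 9) nil nil) nil) nil)) (node (nat_lit 4) (nat_lit 67443) (nat_lit 6) nil (node (nat_lit
  5) (nat_lit 67290) (nat_lit 6) (node (nat_lit 4) (nat_lit 67556) (nat_lit 7) (node (nat_lit 5)
  (nat_lit 67556) (nat_lit 8) (node (nat_lit 6) (nat_lit 67706) (nat_lit 9) (node (nat_lit 5)
  (nat_lit 67706) (nat_lit 10) nil nil) nil) nil) nil) nil))) (node (nat_lit 2) (nat_lit 0)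
  (nat_lit 5) (node (nat_lit 6) (nat_lit 66163) (nat_lit 6) (node (nat_lit 4) (nat_lit 66275)
  (nat_lit 7) (node (nat_lit 5) (nat_lit 66275) (nat_lit 8) (node (nat_lit 6) (nat_lit 59968)
  (nat_lit 9) (node (nat_lit 5) (nat_lit 28580) (nat_lit 10) nil nil) nil) nil) nil) (node
  (nat_lit 4) (nat_lit 66163) (nat_lit 6) nil (node (nat_lit 5) (nat_lit 65568) (nat_lit 6) (node
  (nat_lit 4) (nat_lit 65366) (nat_lit 7) (node (nat_lit 5) (nat_lit 58133) (nat_lit 8) (node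
  (nat_lit 6) (nat_lit 57587) (nat_lit 9) (node (nat_lit 5) (nat_lit 45077) (nat_lit 10) nil nil)
  nil) nil) nil) (node (nat_lit 0) (nat_lit 66163) (nat_lit 6) nil (node (nat_lit 2) (nat_lit
  65568) (nat_lit 6) nil nil))))) nil))) (node (nat_lit 0) (nat_lit 67145) (nat_lit 4) (node
  (nat_lit 4) (nat_lit 67378) (nat_lit 5) (node (nat_lit 6) (nat_lit 67531) (nat_lit 6) (node
  (nat_lit 5) (nat_lit 67531) (nat_lit 7) (node (nat_lit 4) (nat_lit 67729) (nat_lit 8) (node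
  (nat_lit 5) (nat_lit 67729) (nat_lit 9) (node (nat_lit 6) (nat_lit 67844) (nat_lit 10) nil nil)
  nil) (node (nat_lit 6) (nat_lit 67729) (nat_lit 8) (node (nat_lit 4) (nat_lit 67794) (nat_lit 9)
  (node (nat_lit 5) (nat_lit 67794) (nat_lit 10) nil nil) nil) nil)) (node (nat_lit 4) (nat_lit
  67644) (nat_lit 7) nil nil)) nil) (node (nat_lit 5) (nat_lit 67145) (nat_lit 5) (node (nat_lit
  4) (nat_lit 67496) (nat_lit 6) (node (nat_lit 5) (nat_lit 67496) (nat_lit 7) nil nil) nil) (node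
  (nat_lit 6) (nat_lit 67378) (nat_lit 5) (node (nat_lit 4) (nat_lit 67531) (nat_lit 6) (node
  (nat_lit 5) (nat_lit 67531) (nat_lit 7) nil nil) nil) nil))) (node (nat_lit 2) (nat_lit 65080)
  (nat_lit 4) (node (nat_lit 4) (nat_lit 66616) (nat_lit 5) (node (nat_lit 6) (nat_lit 66770)
  (nat_lit 6) (node (nat_lit 5) (nat_lit 66770) (nat_lit 7) nil (node (nat_lit 4) (nat_lit 66883)
  (nat_lit 7) (node (nat_lit 5) (nat_lit 66883) (nat_lit 8) (node (nat_lit 6) (nat_lit 67033)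
  (nat_lit 9) nil nil) nil) nil)) nil) (node (nat_lit 5) (nat_lit 64728) (nat_lit 5) (node
  (nat_lit 4) (nat_lit 66964) (nat_lit 6) (node (nat_lit 5) (nat_lit 65560) (nat_lit 7) (node
  (nat_lit 6) (nat_lit 45674) (nat_lit 8) (node (nat_lit 5) (nat_lit 46082) (nat_lit 9) nil nil)
  nil) nil) nil) (node (nat_lit 6) (nat_lit 66932) (nat_lit 5) (node (nat_lit 4) (nat_lit 67057)
  (nat_lit 6) (node (nat_lit 5) (nat_lit 67057) (nat_lit 7) (node (nat_lit 6) (nat_lit 51133)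
  (nat_lit 8) (node (nat_lit 5) (nat_lit 51509) (nat_lit 9) (node (nat_lit 4) (nat_lit 51794)
  (nat_lit 10) nil nil) nil) nil) nil) nil) nil))) nil)))) (node (nat_lit 4) (nat_lit 0) (nat_lit
  3) (node (nat_lit 1) (nat_lit 0) (nat_lit 4) (node (nat_lit 5) (nat_lit 36166) (nat_lit 5) (node
  (nat_lit 7) (nat_lit 37781) (nat_lit 6) nil (node (nat_lit 0) (nat_lit 39198) (nat_lit 6) nil
  (node (nat_lit 2) (nat_lit 41531) (nat_lit 6) nil nil))) (node (nat_lit 4) (nat_lit 0) (nat_lit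
  5) (node (nat_lit 5) (nat_lit 37774) (nat_lit 6) nil (node (nat_lit 0) (nat_lit 41967) (nat_lit
  6) nil (node (nat_lit 2) (nat_lit 41967) (nat_lit 6) nil nil))) (node (nat_lit 0) (nat_lit
  41967) (nat_lit 5) (node (nat_lit 7) (nat_lit 41967) (nat_lit 6) (node (nat_lit 4) (nat_lit
  41967) (nat_lit 7) (node (nat_lit 5) (nat_lit 41967) (nat_lit 8) nil nil) nil) nil) (node
  (nat_lit 2) (nat_lit 41967) (nat_lit 5) (node (nat_lit 4) (nat_lit 41967) (nat_lit 6) (node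
  (nat_lit 7) (nat_lit 41967) (nat_lit 7) (node (nat_lit 4) (nat_lit 41967) (nat_lit 8) (node
  (nat_lit 5) (nat_lit 41967) (nat_lit 9) nil nil) nil) nil) (node (nat_lit 7) (nat_lit 41967)
  (nat_lit 6) (node (nat_lit 4) (nat_lit 41967) (nat_lit 7) (node (nat_lit 5) (nat_lit 39566)
  (nat_lit 8) nil nil) nil) nil)) nil)))) (node (nat_lit 0) (nat_lit 41967) (nat_lit 4) nil (node
  (nat_lit 2) (nat_lit 41967) (nat_lit 4) (node (nat_lit 1) (nat_lit 41967) (nat_lit 5) nil (node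
  (nat_lit 5) (nat_lit 41967) (nat_lit 5) nil (node (nat_lit 4) (nat_lit 41967) (nat_lit 5) nil
  nil))) nil))) nil)) nil))

noncomputable def c31 : Tr :=
  (node (nat_lit 1) (nat_lit 0) (nat_lit 1) t483 (node (nat_lit 3) (nat_lit 0) (nat_lit 1) (node
  (nat_lit 1) (nat_lit 0) (nat_lit 2) (node (nat_lit 1) (nat_lit 0) (nat_lit 3) (node (nat_lit 4)
  (nat_lit 0) (nat_lit 4) (node (nat_lit 5) (nat_lit 0) (nat_lit 5) (node (nat_lit 4) (nat_lit 0)
  (nat_lit 6) (node (nat_lit 0) (nat_lit 27798) (nat_lit 7) (node (nat_lit 5) (nat_lit 28779)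
  (nat_lit 8) (node (nat_lit 4) (nat_lit 29268) (nat_lit 9) (node (nat_lit 5) (nat_lit 29510)
  (nat_lit 10) (node (nat_lit 6) (nat_lit 29723) (nat_lit 11) (node (nat_lit 4) (nat_lit 29916)
  (nat_lit 12) (node (nat_lit 5) (nat_lit 30073) (nat_lit 13) (node (nat_lit 4) (nat_lit 30195)
  (nat_lit 14) nil nil) nil) nil) nil) nil) nil) nil) (node (nat_lit 2) (nat_lit 27274) (nat_lit
  7) (node (nat_lit 5) (nat_lit 28255) (nat_lit 8) (node (nat_lit 4) (nat_lit 28887) (nat_lit 9)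
  (node (nat_lit 5) (nat_lit 29129) (nat_lit 10) (node (nat_lit 6) (nat_lit 24325) (nat_lit 11)
  (node (nat_lit 4) (nat_lit 19830) (nat_lit 12) (node (nat_lit 5) (nat_lit 1294) (nat_lit 13) nil
  nil) nil) nil) nil) nil) (node (nat_lit 4) (nat_lit 28491) (nat_lit 8) nil nil)) (node (nat_lit
  6) (nat_lit 26267) (nat_lit 7) nil nil))) (node (nat_lit 0) (nat_lit 26146) (nat_lit 6) (node
  (nat_lit 5) (nat_lit 27274) (nat_lit 7) (node (nat_lit 4) (nat_lit 28491) (nat_lit 8) (node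
  (nat_lit 5) (nat_lit 28817) (nat_lit 9) nil nil) nil) (node (nat_lit 4) (nat_lit 27550) (nat_lit
  7) nil (node (nat_lit 6) (nat_lit 27550) (nat_lit 7) nil nil))) (node (nat_lit 2) (nat_lit 0)
  (nat_lit 6) (node (nat_lit 5) (nat_lit 0) (nat_lit 7) (node (nat_lit 4) (nat_lit 26992) (nat_lit
  8) (node (nat_lit 5) (nat_lit 24666) (nat_lit 9) nil nil) (node (nat_lit 6) (nat_lit 26992)
  (nat_lit 8) nil (node (nat_lit 0) (nat_lit 26129) (nat_lit 8) nil (node (nat_lit 2) (nat_lit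
  24517) (nat_lit 8) nil nil)))) (node (nat_lit 4) (nat_lit 26356) (nat_lit 7) nil (node (nat_lit
  6) (nat_lit 26635) (nat_lit 7) nil (node (nat_lit 0) (nat_lit 26356) (nat_lit 7) nil (node
  (nat_lit 2) (nat_lit 24997) (nat_lit 7) (node (nat_lit 5) (nat_lit 22819) (nat_lit 8) nil nil)
  nil))))) nil))) (node (nat_lit 6) (nat_lit 70226) (nat_lit 5) nil (node (nat_lit 0) (nat_lit
  73736) (nat_lit 5) nil (node (nat_lit 2) (nat_lit 72111) (nat_lit 5) (node (nat_lit 6) (nat_lit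
  74065) (nat_lit 6) (node (nat_lit 4) (nat_lit 73164) (nat_lit 7) (node (nat_lit 5) (nat_lit
  57971) (nat_lit 8) nil nil) nil) nil) nil)))) (node (nat_lit 5) (nat_lit 0) (nat_lit 4) (node
  (nat_lit 4) (nat_lit 70297) (nat_lit 5) (node (nat_lit 5) (nat_lit 71986) (nat_lit 6) (node
  (nat_lit 6) (nat_lit 41579) (nat_lit 7) nil nil) (node (nat_lit 6) (nat_lit 73069) (nat_lit 6)
  (node (nat_lit 4) (nat_lit 74258) (nat_lit 7) (node (nat_lit 5) (nat_lit 75041) (nat_lit 8)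
  (node (nat_lit 6) (nat_lit 72954) (nat_lit 9) (node (nat_lit 5) (nat_lit 62416) (nat_lit 10) nil
  nil) nil) nil) nil) nil)) (node (nat_lit 0) (nat_lit 73085) (nat_lit 5) nil (node (nat_lit 2)
  (nat_lit 69858) (nat_lit 5) (node (nat_lit 6) (nat_lit 73493) (nat_lit 6) nil (node (nat_lit 5)
  (nat_lit 71246) (nat_lit 6) nil nil)) nil))) (node (nat_lit 0) (nat_lit 0) (nat_lit 4) (node
  (nat_lit 4) (nat_lit 73512) (nat_lit 5) (node (nat_lit 6) (nat_lit 74489) (nat_lit 6) nil nil)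
  (node (nat_lit 5) (nat_lit 72024) (nat_lit 5) (node (nat_lit 4) (nat_lit 74328) (nat_lit 6)
  (node (nat_lit 5) (nat_lit 75028) (nat_lit 7) (node (nat_lit 6) (nat_lit 75041) (nat_lit 8) nil
  nil) nil) (node (nat_lit 6) (nat_lit 74487) (nat_lit 6) (node (nat_lit 4) (nat_lit 75041)
  (nat_lit 7) (node (nat_lit 5) (nat_lit 75041) (nat_lit 8) nil nil) nil) nil)) (node (nat_lit 6)
  (nat_lit 73655) (nat_lit 5) (node (nat_lit 5) (nat_lit 74632) (nat_lit 6) (node (nat_lit 4)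
  (nat_lit 75041) (nat_lit 7) (node (nat_lit 5) (nat_lit 75041) (nat_lit 8) (node (nat_lit 6)
  (nat_lit 75041) (nat_lit 9) nil nil) nil) nil) (node (nat_lit 4) (nat_lit 74632) (nat_lit 6)
  (node (nat_lit 5) (nat_lit 75041) (nat_lit 7) (node (nat_lit 6) (nat_lit 75041) (nat_lit 8) nil
  nil) nil) nil)) (node (nat_lit 0) (nat_lit 73156) (nat_lit 5) nil (node (nat_lit 2) (nat_lit
  71904) (nat_lit 5) (node (nat_lit 5) (nat_lit 72882) (nat_lit 6) nil nil) nil))))) (node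
  (nat_lit 2) (nat_lit 0) (nat_lit 4) (node (nat_lit 4) (nat_lit 73197) (nat_lit 5) (node (nat_lit
  7) (nat_lit 74174) (nat_lit 6) nil (node (nat_lit 6) (nat_lit 74378) (nat_lit 6) nil nil)) (node
  (nat_lit 5) (nat_lit 69958) (nat_lit 5) (node (nat_lit 7) (nat_lit 71760) (nat_lit 6) nil (node
  (nat_lit 4) (nat_lit 72911) (nat_lit 6) (node (nat_lit 5) (nat_lit 57766) (nat_lit 7) (node
  (nat_lit 6) (nat_lit 47337) (nat_lit 8) nil nil) nil) (node (nat_lit 6) (nat_lit 73380) (nat_lit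
  6) (node (nat_lit 4) (nat_lit 74079) (nat_lit 7) (node (nat_lit 5) (nat_lit 74540) (nat_lit 8)
  nil nil) nil) nil))) (node (nat_lit 6) (nat_lit 73041) (nat_lit 5) (node (nat_lit 5) (nat_lit
  74018) (nat_lit 6) (node (nat_lit 4) (nat_lit 74718) (nat_lit 7) (node (nat_lit 5) (nat_lit
  75041) (nat_lit 8) (node (nat_lit 6) (nat_lit 75041) (nat_lit 9) nil nil) nil) nil) (node
  (nat_lit 4) (nat_lit 74018) (nat_lit 6) (node (nat_lit 5) (nat_lit 71893) (nat_lit 7) (node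
  (nat_lit 6) (nat_lit 44657) (nat_lit 8) (node (nat_lit 7) (nat_lit 25546) (nat_lit 9) nil nil)
  nil) nil) nil)) (node (nat_lit 0) (nat_lit 72436) (nat_lit 5) nil (node (nat_lit 2) (nat_lit
  69891) (nat_lit 5) (node (nat_lit 0) (nat_lit 70868) (nat_lit 6) nil (node (nat_lit 5) (nat_lit
  70868) (nat_lit 6) (node (nat_lit 4) (nat_lit 70828) (nat_lit 7) (node (nat_lit 5) (nat_lit
  62549) (nat_lit 8) (node (nat_lit 6) (nat_lit 46058) (nat_lit 9) nil nil) nil) nil) (node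
  (nat_lit 4) (nat_lit 72911) (nat_lit 6) nil (node (nat_lit 6) (nat_lit 72238) (nat_lit 6) (node
  (nat_lit 4) (nat_lit 69813) (nat_lit 7) (node (nat_lit 5) (nat_lit 64650) (nat_lit 8) nil nil)
  nil) nil)))) nil))))) nil)))) (node (nat_lit 4) (nat_lit 0) (nat_lit 3) (node (nat_lit 1)
  (nat_lit 0) (nat_lit 4) (node (nat_lit 5) (nat_lit 36166) (nat_lit 5) (node (nat_lit 7) (nat_lit
  37781) (nat_lit 6) nil nil) (node (nat_lit 4) (nat_lit 35083) (nat_lit 5) (node (nat_lit 5)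
  (nat_lit 22135) (nat_lit 6) (node (nat_lit 7) (nat_lit 23610) (nat_lit 7) (node (nat_lit 4)
  (nat_lit 25141) (nat_lit 8) nil (node (nat_lit 5) (nat_lit 25141) (nat_lit 8) nil nil)) nil)
  nil) (node (nat_lit 0) (nat_lit 40452) (nat_lit 5) nil (node (nat_lit 2) (nat_lit 40452)
  (nat_lit 5) nil nil)))) (node (nat_lit 0) (nat_lit 40452) (nat_lit 4) (node (nat_lit 5) (nat_lit
  40452) (nat_lit 5) nil nil) (node (nat_lit 2) (nat_lit 37923) (nat_lit 4) (node (nat_lit 1)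
  (nat_lit 40452) (nat_lit 5) (node (nat_lit 4) (nat_lit 39838) (nat_lit 6) (node (nat_lit 5)
  (nat_lit 30772) (nat_lit 7) nil nil) nil) (node (nat_lit 5) (nat_lit 40452) (nat_lit 5) nil
  (node (nat_lit 4) (nat_lit 40452) (nat_lit 5) nil nil))) nil))) nil)) nil) nil))

noncomputable def t484 : Tr :=
  (node (nat_lit 1) (nat_lit 0) (nat_lit 1) (node (nat_lit 1) (nat_lit 0) (nat_lit 2) (node
  (nat_lit 3) (nat_lit 0) (nat_lit 3) (node (nat_lit 4) (nat_lit 48339) (nat_lit 4) (node (nat_lit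
  5) (nat_lit 27577) (nat_lit 5) nil (node (nat_lit 6) (nat_lit 48814) (nat_lit 5) (node (nat_lit
  5) (nat_lit 49748) (nat_lit 6) (node (nat_lit 4) (nat_lit 49938) (nat_lit 7) (node (nat_lit 5)
  (nat_lit 50086) (nat_lit 8) (node (nat_lit 6) (nat_lit 50086) (nat_lit 9) nil nil) nil) nil)
  nil) nil)) (node (nat_lit 5) (nat_lit 0) (nat_lit 4) (node (nat_lit 4) (nat_lit 0) (nat_lit 5)
  (node (nat_lit 5) (nat_lit 0) (nat_lit 6) (node (nat_lit 0) (nat_lit 46297) (nat_lit 7) (node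
  (nat_lit 5) (nat_lit 47077) (nat_lit 8) nil nil) (node (nat_lit 2) (nat_lit 46029) (nat_lit 7)
  (node (nat_lit 5) (nat_lit 47057) (nat_lit 8) nil nil) (node (nat_lit 6) (nat_lit 20380)
  (nat_lit 7) (node (nat_lit 2) (nat_lit 20803) (nat_lit 8) (node (nat_lit 5) (nat_lit 21039)
  (nat_lit 9) (node (nat_lit 6) (nat_lit 21039) (nat_lit 10) (node (nat_lit 5) (nat_lit 21078)
  (nat_lit 11) nil (node (nat_lit 4) (nat_lit 21078) (nat_lit 11) (node (nat_lit 5) (nat_lit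
  21078) (nat_lit 12) nil nil) nil)) (node (nat_lit 4) (nat_lit 21078) (nat_lit 10) nil nil))
  (node (nat_lit 6) (nat_lit 20803) (nat_lit 9) nil nil)) (node (nat_lit 0) (nat_lit 21030)
  (nat_lit 8) (node (nat_lit 5) (nat_lit 21078) (nat_lit 9) (node (nat_lit 6) (nat_lit 21078)
  (nat_lit 10) (node (nat_lit 5) (nat_lit 21078) (nat_lit 11) nil (node (nat_lit 4) (nat_lit
  21078) (nat_lit 11) nil nil)) nil) nil) nil)) nil))) (node (nat_lit 6) (nat_lit 50687) (nat_lit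
  6) (node (nat_lit 0) (nat_lit 51455) (nat_lit 7) nil (node (nat_lit 2) (nat_lit 51215) (nat_lit
  7) (node (nat_lit 6) (nat_lit 51215) (nat_lit 8) nil nil) (node (nat_lit 4) (nat_lit 51120)
  (nat_lit 7) (node (nat_lit 5) (nat_lit 51269) (nat_lit 8) (node (nat_lit 6) (nat_lit 51269)
  (nat_lit 9) (node (nat_lit 5) (nat_lit 51475) (nat_lit 10) nil nil) nil) nil) nil))) (node
  (nat_lit 0) (nat_lit 51353) (nat_lit 6) (node (nat_lit 5) (nat_lit 51455) (nat_lit 7) nil (node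
  (nat_lit 6) (nat_lit 51353) (nat_lit 7) nil nil)) (node (nat_lit 2) (nat_lit 51215) (nat_lit 6)
  (node (nat_lit 5) (nat_lit 51455) (nat_lit 7) nil (node (nat_lit 6) (nat_lit 51215) (nat_lit 7)
  nil nil)) nil)))) (node (nat_lit 0) (nat_lit 51014) (nat_lit 5) (node (nat_lit 6) (nat_lit
  51014) (nat_lit 6) (node (nat_lit 4) (nat_lit 51254) (nat_lit 7) (node (nat_lit 5) (nat_lit
  51331) (nat_lit 8) nil nil) nil) nil) (node (nat_lit 2) (nat_lit 50201) (nat_lit 5) (node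
  (nat_lit 6) (nat_lit 50201) (nat_lit 6) (node (nat_lit 4) (nat_lit 50619) (nat_lit 7) (node
  (nat_lit 5) (nat_lit 50056) (nat_lit 8) (node (nat_lit 6) (nat_lit 43757) (nat_lit 9) nil nil)
  nil) nil) (node (nat_lit 5) (nat_lit 50518) (nat_lit 6) nil nil)) nil))) nil)) (node (nat_lit 4)
  (nat_lit 0) (nat_lit 3) (node (nat_lit 3) (nat_lit 0) (nat_lit 4) (node (nat_lit 5) (nat_lit 0)
  (nat_lit 5) (node (nat_lit 7) (nat_lit 0) (nat_lit 6) (node (nat_lit 0) (nat_lit 20964) (nat_lit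
  7) (node (nat_lit 7) (nat_lit 20964) (nat_lit 8) (node (nat_lit 4) (nat_lit 21095) (nat_lit 9)
  (node (nat_lit 5) (nat_lit 21138) (nat_lit 10) (node (nat_lit 4) (nat_lit 21172) (nat_lit 11)
  nil nil) nil) nil) nil) (node (nat_lit 2) (nat_lit 20122) (nat_lit 7) (node (nat_lit 7) (nat_lit
  20122) (nat_lit 8) (node (nat_lit 4) (nat_lit 20635) (nat_lit 9) (node (nat_lit 5) (nat_lit
  20661) (nat_lit 10) (node (nat_lit 4) (nat_lit 19009) (nat_lit 11) (node (nat_lit 7) (nat_lit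
  9276) (nat_lit 12) nil nil) nil) nil) nil) nil) (node (nat_lit 4) (nat_lit 20593) (nat_lit 7)
  (node (nat_lit 5) (nat_lit 20747) (nat_lit 8) (node (nat_lit 4) (nat_lit 20867) (nat_lit 9) nil
  nil) nil) nil))) (node (nat_lit 4) (nat_lit 0) (nat_lit 6) (node (nat_lit 0) (nat_lit 20964)
  (nat_lit 7) (node (nat_lit 4) (nat_lit 21038) (nat_lit 8) (node (nat_lit 7) (nat_lit 21038)
  (nat_lit 9) (node (nat_lit 4) (nat_lit 21138) (nat_lit 10) (node (nat_lit 5) (nat_lit 21172)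
  (nat_lit 11) nil nil) nil) nil) (node (nat_lit 5) (nat_lit 21038) (nat_lit 8) nil (node (nat_lit
  7) (nat_lit 20964) (nat_lit 8) (node (nat_lit 4) (nat_lit 21095) (nat_lit 9) (node (nat_lit 5)
  (nat_lit 21138) (nat_lit 10) nil nil) nil) nil))) (node (nat_lit 2) (nat_lit 20865) (nat_lit 7)
  (node (nat_lit 4) (nat_lit 21038) (nat_lit 8) (node (nat_lit 7) (nat_lit 21038) (nat_lit 9)
  (node (nat_lit 4) (nat_lit 21138) (nat_lit 10) (node (nat_lit 5) (nat_lit 21172) (nat_lit 11)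
  nil nil) nil) nil) (node (nat_lit 5) (nat_lit 21038) (nat_lit 8) nil (node (nat_lit 7) (nat_lit
  20865) (nat_lit 8) (node (nat_lit 4) (nat_lit 21095) (nat_lit 9) (node (nat_lit 5) (nat_lit
  21138) (nat_lit 10) nil nil) nil) nil))) (node (nat_lit 5) (nat_lit 0) (nat_lit 7) (node
  (nat_lit 2) (nat_lit 20964) (nat_lit 8) (node (nat_lit 7) (nat_lit 20964) (nat_lit 9) nil nil)
  (node (nat_lit 0) (nat_lit 21038) (nat_lit 8) (node (nat_lit 7) (nat_lit 21038) (nat_lit 9) nil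
  nil) (node (nat_lit 7) (nat_lit 20593) (nat_lit 8) (node (nat_lit 4) (nat_lit 20867) (nat_lit 9)
  nil nil) nil))) nil))) (node (nat_lit 0) (nat_lit 20809) (nat_lit 6) (node (nat_lit 7) (nat_lit
  20809) (nat_lit 7) (node (nat_lit 4) (nat_lit 20982) (nat_lit 8) (node (nat_lit 5) (nat_lit
  21038) (nat_lit 9) (node (nat_lit 4) (nat_lit 21082) (nat_lit 10) (node (nat_lit 7) (nat_lit
  21082) (nat_lit 11) nil nil) nil) nil) nil) (node (nat_lit 4) (nat_lit 20907) (nat_lit 7) nil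
  nil)) (node (nat_lit 2) (nat_lit 0) (nat_lit 6) (node (nat_lit 7) (nat_lit 20272) (nat_lit 7)
  (node (nat_lit 4) (nat_lit 20647) (nat_lit 8) (node (nat_lit 5) (nat_lit 19853) (nat_lit 9)
  (node (nat_lit 4) (nat_lit 15662) (nat_lit 10) (node (nat_lit 7) (nat_lit 9974) (nat_lit 11) nil
  nil) nil) nil) nil) (node (nat_lit 4) (nat_lit 20857) (nat_lit 7) (node (nat_lit 7) (nat_lit
  20857) (nat_lit 8) (node (nat_lit 4) (nat_lit 20988) (nat_lit 9) (node (nat_lit 5) (nat_lit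
  21032) (nat_lit 10) nil nil) nil) nil) (node (nat_lit 0) (nat_lit 20572) (nat_lit 7) nil (node
  (nat_lit 5) (nat_lit 20857) (nat_lit 7) (node (nat_lit 7) (nat_lit 20857) (nat_lit 8) nil nil)
  (node (nat_lit 2) (nat_lit 20272) (nat_lit 7) (node (nat_lit 7) (nat_lit 20272) (nat_lit 8)
  (node (nat_lit 4) (nat_lit 20703) (nat_lit 9) nil nil) nil) nil))))) nil)))) (node (nat_lit 4)
  (nat_lit 19661) (nat_lit 5) (node (nat_lit 5) (nat_lit 20249) (nat_lit 6) nil nil) (node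
  (nat_lit 0) (nat_lit 19734) (nat_lit 5) nil (node (nat_lit 2) (nat_lit 17242) (nat_lit 5) nil
  nil)))) nil) nil)) (node (nat_lit 3) (nat_lit 0) (nat_lit 2) (node (nat_lit 1) (nat_lit 0)
  (nat_lit 3) (node (nat_lit 4) (nat_lit 0) (nat_lit 4) (node (nat_lit 5) (nat_lit 18401) (nat_lit
  5) (node (nat_lit 4) (nat_lit 18845) (nat_lit 6) nil nil) (node (nat_lit 6) (nat_lit 0) (nat_lit
  5) (node (nat_lit 5) (nat_lit 0) (nat_lit 6) (node (nat_lit 0) (nat_lit 42063) (nat_lit 7) (node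
  (nat_lit 5) (nat_lit 42942) (nat_lit 8) nil nil) (node (nat_lit 2) (nat_lit 42063) (nat_lit 7)
  (node (nat_lit 5) (nat_lit 42796) (nat_lit 8) nil nil) (node (nat_lit 6) (nat_lit 0) (nat_lit 7)
  (node (nat_lit 2) (nat_lit 42942) (nat_lit 8) (node (nat_lit 5) (nat_lit 43240) (nat_lit 9) nil
  nil) (node (nat_lit 0) (nat_lit 42942) (nat_lit 8) (node (nat_lit 5) (nat_lit 43290) (nat_lit 9)
  nil nil) (node (nat_lit 4) (nat_lit 41455) (nat_lit 8) nil nil))) (node (nat_lit 4) (nat_lit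
  40573) (nat_lit 7) (node (nat_lit 6) (nat_lit 41455) (nat_lit 8) (node (nat_lit 4) (nat_lit
  42115) (nat_lit 9) (node (nat_lit 5) (nat_lit 42631) (nat_lit 10) (node (nat_lit 6) (nat_lit
  43034) (nat_lit 11) nil nil) nil) nil) (node (nat_lit 5) (nat_lit 41455) (nat_lit 8) (node
  (nat_lit 6) (nat_lit 42115) (nat_lit 9) nil nil) nil)) nil)))) (node (nat_lit 0) (nat_lit 0)
  (nat_lit 6) (node (nat_lit 4) (nat_lit 41829) (nat_lit 7) (node (nat_lit 6) (nat_lit 42708)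
  (nat_lit 8) nil nil) (node (nat_lit 5) (nat_lit 41702) (nat_lit 7) (node (nat_lit 4) (nat_lit
  42581) (nat_lit 8) (node (nat_lit 5) (nat_lit 42929) (nat_lit 9) (node (nat_lit 6) (nat_lit
  43144) (nat_lit 10) (node (nat_lit 4) (nat_lit 43335) (nat_lit 11) (node (nat_lit 6) (nat_lit
  43507) (nat_lit 12) nil nil) nil) nil) nil) nil) (node (nat_lit 6) (nat_lit 41702) (nat_lit 7)
  nil (node (nat_lit 0) (nat_lit 41702) (nat_lit 7) nil (node (nat_lit 2) (nat_lit 39925) (nat_lit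
  7) nil nil))))) (node (nat_lit 2) (nat_lit 0) (nat_lit 6) (node (nat_lit 4) (nat_lit 41070)
  (nat_lit 7) (node (nat_lit 6) (nat_lit 41948) (nat_lit 8) nil nil) (node (nat_lit 5) (nat_lit
  41070) (nat_lit 7) (node (nat_lit 4) (nat_lit 41948) (nat_lit 8) (node (nat_lit 5) (nat_lit
  41947) (nat_lit 9) (node (nat_lit 6) (nat_lit 38527) (nat_lit 10) (node (nat_lit 4) (nat_lit
  32236) (nat_lit 11) (node (nat_lit 6) (nat_lit 23877) (nat_lit 12) nil nil) nil) nil) nil) nil)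
  (node (nat_lit 6) (nat_lit 40542) (nat_lit 7) nil (node (nat_lit 0) (nat_lit 40542) (nat_lit 7)
  nil (node (nat_lit 2) (nat_lit 40542) (nat_lit 7) nil nil))))) nil))) (node (nat_lit 0) (nat_lit
  40336) (nat_lit 5) (node (nat_lit 5) (nat_lit 41482) (nat_lit 6) (node (nat_lit 4) (nat_lit
  42106) (nat_lit 7) nil nil) (node (nat_lit 6) (nat_lit 41313) (nat_lit 6) (node (nat_lit 4)
  (nat_lit 41936) (nat_lit 7) (node (nat_lit 5) (nat_lit 42347) (nat_lit 8) nil nil) nil) (node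
  (nat_lit 4) (nat_lit 41656) (nat_lit 6) nil nil))) (node (nat_lit 2) (nat_lit 39319) (nat_lit 5)
  (node (nat_lit 5) (nat_lit 40921) (nat_lit 6) (node (nat_lit 4) (nat_lit 39596) (nat_lit 7) nil
  nil) (node (nat_lit 6) (nat_lit 40296) (nat_lit 6) (node (nat_lit 4) (nat_lit 40684) (nat_lit 7)
  (node (nat_lit 5) (nat_lit 35123) (nat_lit 8) (node (nat_lit 6) (nat_lit 22336) (nat_lit 9) nil
  nil) nil) nil) (node (nat_lit 4) (nat_lit 41052) (nat_lit 6) (node (nat_lit 6) (nat_lit 41676)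
  (nat_lit 7) nil nil) nil))) nil)))) (node (nat_lit 5) (nat_lit 0) (nat_lit 4) (node (nat_lit 4)
  (nat_lit 0) (nat_lit 5) (node (nat_lit 5) (nat_lit 51069) (nat_lit 6) (node (nat_lit 6) (nat_lit
  31843) (nat_lit 7) nil nil) (node (nat_lit 6) (nat_lit 0) (nat_lit 6) (node (nat_lit 0) (nat_lit
  51606) (nat_lit 7) (node (nat_lit 6) (nat_lit 51658) (nat_lit 8) (node (nat_lit 4) (nat_lit
  51695) (nat_lit 9) (node (nat_lit 5) (nat_lit 51695) (nat_lit 10) nil nil) nil) nil) (node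
  (nat_lit 2) (nat_lit 51520) (nat_lit 7) (node (nat_lit 6) (nat_lit 51658) (nat_lit 8) (node
  (nat_lit 4) (nat_lit 51695) (nat_lit 9) (node (nat_lit 5) (nat_lit 51695) (nat_lit 10) nil nil)
  nil) nil) (node (nat_lit 4) (nat_lit 51416) (nat_lit 7) (node (nat_lit 5) (nat_lit 51416)
  (nat_lit 8) (node (nat_lit 6) (nat_lit 51618) (nat_lit 9) (node (nat_lit 5) (nat_lit 51618)
  (nat_lit 10) nil nil) nil) nil) (node (nat_lit 5) (nat_lit 51264) (nat_lit 7) (node (nat_lit 6)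
  (nat_lit 51534) (nat_lit 8) (node (nat_lit 4) (nat_lit 51618) (nat_lit 9) (node (nat_lit 5)
  (nat_lit 51618) (nat_lit 10) (node (nat_lit 6) (nat_lit 51682) (nat_lit 11) (node (nat_lit 5)
  (nat_lit 51682) (nat_lit 12) (node (nat_lit 4) (nat_lit 51721) (nat_lit 13) nil nil) nil) nil)
  nil) nil) nil) nil)))) (node (nat_lit 0) (nat_lit 51520) (nat_lit 6) (node (nat_lit 5) (nat_lit
  51520) (nat_lit 7) (node (nat_lit 4) (nat_lit 51658) (nat_lit 8) (node (nat_lit 5) (nat_lit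
  51658) (nat_lit 9) (node (nat_lit 6) (nat_lit 51711) (nat_lit 10) (node (nat_lit 5) (nat_lit
  51711) (nat_lit 11) (node (nat_lit 4) (nat_lit 51738) (nat_lit 12) nil nil) nil) nil) nil) nil)
  (node (nat_lit 6) (nat_lit 51606) (nat_lit 7) (node (nat_lit 4) (nat_lit 51658) (nat_lit 8) nil
  nil) nil)) (node (nat_lit 2) (nat_lit 51415) (nat_lit 6) (node (nat_lit 5) (nat_lit 51415)
  (nat_lit 7) (node (nat_lit 4) (nat_lit 51658) (nat_lit 8) (node (nat_lit 5) (nat_lit 51658)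
  (nat_lit 9) (node (nat_lit 6) (nat_lit 50243) (nat_lit 10) (node (nat_lit 5) (nat_lit 46223)
  (nat_lit 11) (node (nat_lit 4) (nat_lit 37338) (nat_lit 12) nil nil) nil) nil) nil) nil) (node
  (nat_lit 6) (nat_lit 51606) (nat_lit 7) (node (nat_lit 4) (nat_lit 51658) (nat_lit 8) nil nil)
  nil)) nil)))) (node (nat_lit 0) (nat_lit 51175) (nat_lit 5) (node (nat_lit 6) (nat_lit 51269)
  (nat_lit 6) (node (nat_lit 5) (nat_lit 51269) (nat_lit 7) (node (nat_lit 4) (nat_lit 51350)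
  (nat_lit 8) nil nil) (node (nat_lit 4) (nat_lit 51316) (nat_lit 7) (node (nat_lit 5) (nat_lit
  51316) (nat_lit 8) (node (nat_lit 6) (nat_lit 51371) (nat_lit 9) nil nil) nil) nil)) (node
  (nat_lit 5) (nat_lit 51175) (nat_lit 6) (node (nat_lit 6) (nat_lit 51316) (nat_lit 7) (node
  (nat_lit 4) (nat_lit 51350) (nat_lit 8) nil nil) nil) nil)) (node (nat_lit 2) (nat_lit 49613)
  (nat_lit 5) (node (nat_lit 6) (nat_lit 50186) (nat_lit 6) (node (nat_lit 4) (nat_lit 50254)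
  (nat_lit 7) (node (nat_lit 5) (nat_lit 50254) (nat_lit 8) (node (nat_lit 6) (nat_lit 45328)
  (nat_lit 9) (node (nat_lit 5) (nat_lit 21603) (nat_lit 10) nil nil) nil) nil) nil) (node
  (nat_lit 4) (nat_lit 50535) (nat_lit 6) nil (node (nat_lit 5) (nat_lit 49613) (nat_lit 6) (node
  (nat_lit 4) (nat_lit 49301) (nat_lit 7) (node (nat_lit 5) (nat_lit 43845) (nat_lit 8) (node
  (nat_lit 6) (nat_lit 43859) (nat_lit 9) nil nil) nil) nil) nil))) nil))) nil)) (node (nat_lit 4)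
  (nat_lit 0) (nat_lit 3) (node (nat_lit 1) (nat_lit 0) (nat_lit 4) (node (nat_lit 5) (nat_lit
  27544) (nat_lit 5) (node (nat_lit 7) (nat_lit 28775) (nat_lit 6) (node (nat_lit 4) (nat_lit
  31157) (nat_lit 7) (node (nat_lit 5) (nat_lit 31157) (nat_lit 8) (node (nat_lit 4) (nat_lit
  31157) (nat_lit 9) nil nil) nil) nil) nil) (node (nat_lit 4) (nat_lit 0) (nat_lit 5) (node
  (nat_lit 5) (nat_lit 28769) (nat_lit 6) nil (node (nat_lit 0) (nat_lit 31157) (nat_lit 6) (node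
  (nat_lit 7) (nat_lit 31157) (nat_lit 7) (node (nat_lit 4) (nat_lit 31157) (nat_lit 8) (node
  (nat_lit 5) (nat_lit 31157) (nat_lit 9) nil nil) nil) nil) (node (nat_lit 2) (nat_lit 31157)
  (nat_lit 6) (node (nat_lit 7) (nat_lit 31157) (nat_lit 7) (node (nat_lit 4) (nat_lit 31157)
  (nat_lit 8) (node (nat_lit 5) (nat_lit 31157) (nat_lit 9) nil nil) nil) nil) nil))) (node
  (nat_lit 0) (nat_lit 31157) (nat_lit 5) (node (nat_lit 5) (nat_lit 31157) (nat_lit 6) (node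
  (nat_lit 7) (nat_lit 31157) (nat_lit 7) (node (nat_lit 4) (nat_lit 31157) (nat_lit 8) (node
  (nat_lit 5) (nat_lit 31157) (nat_lit 9) (node (nat_lit 4) (nat_lit 28491) (nat_lit 10) (node
  (nat_lit 7) (nat_lit 22259) (nat_lit 11) nil nil) nil) nil) nil) nil) (node (nat_lit 4) (nat_lit
  31157) (nat_lit 6) (node (nat_lit 7) (nat_lit 31157) (nat_lit 7) nil nil) nil)) (node (nat_lit
  2) (nat_lit 31157) (nat_lit 5) (node (nat_lit 5) (nat_lit 31157) (nat_lit 6) (node (nat_lit 7)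
  (nat_lit 31157) (nat_lit 7) (node (nat_lit 4) (nat_lit 31157) (nat_lit 8) (node (nat_lit 5)
  (nat_lit 31157) (nat_lit 9) (node (nat_lit 4) (nat_lit 27006) (nat_lit 10) (node (nat_lit 7)
  (nat_lit 20774) (nat_lit 11) nil nil) nil) nil) nil) nil) (node (nat_lit 7) (nat_lit 31157)
  (nat_lit 6) (node (nat_lit 4) (nat_lit 31157) (nat_lit 7) (node (nat_lit 5) (nat_lit 30047)
  (nat_lit 8) (node (nat_lit 4) (nat_lit 18186) (nat_lit 9) nil nil) nil) nil) nil)) nil)))) nil)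
  nil)) nil)) (node (nat_lit 3) (nat_lit 0) (nat_lit 1) (node (nat_lit 1) (nat_lit 0) (nat_lit 2)
  (node (nat_lit 1) (nat_lit 0) (nat_lit 3) (node (nat_lit 4) (nat_lit 0) (nat_lit 4) (node
  (nat_lit 5) (nat_lit 0) (nat_lit 5) (node (nat_lit 4) (nat_lit 0) (nat_lit 6) (node (nat_lit 0)
  (nat_lit 21011) (nat_lit 7) (node (nat_lit 4) (nat_lit 21823) (nat_lit 8) (node (nat_lit 6)
  (nat_lit 22069) (nat_lit 9) nil nil) nil) (node (nat_lit 2) (nat_lit 20615) (nat_lit 7) (node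
  (nat_lit 4) (nat_lit 21535) (nat_lit 8) (node (nat_lit 6) (nat_lit 21781) (nat_lit 9) (node
  (nat_lit 5) (nat_lit 21964) (nat_lit 10) nil nil) nil) (node (nat_lit 5) (nat_lit 21357)
  (nat_lit 8) nil nil)) (node (nat_lit 6) (nat_lit 19854) (nat_lit 7) (node (nat_lit 2) (nat_lit
  21790) (nat_lit 8) nil (node (nat_lit 0) (nat_lit 21964) (nat_lit 8) nil nil)) nil))) (node
  (nat_lit 0) (nat_lit 0) (nat_lit 6) (node (nat_lit 4) (nat_lit 20824) (nat_lit 7) nil (node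
  (nat_lit 6) (nat_lit 20824) (nat_lit 7) (node (nat_lit 5) (nat_lit 21566) (nat_lit 8) nil (node
  (nat_lit 4) (nat_lit 21566) (nat_lit 8) nil nil)) (node (nat_lit 2) (nat_lit 18990) (nat_lit 7)
  nil (node (nat_lit 0) (nat_lit 20615) (nat_lit 7) nil (node (nat_lit 5) (nat_lit 20615) (nat_lit
  7) (node (nat_lit 4) (nat_lit 21535) (nat_lit 8) (node (nat_lit 5) (nat_lit 21781) (nat_lit 9)
  nil nil) nil) nil))))) (node (nat_lit 2) (nat_lit 0) (nat_lit 6) (node (nat_lit 4) (nat_lit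
  19922) (nat_lit 7) nil (node (nat_lit 6) (nat_lit 20132) (nat_lit 7) (node (nat_lit 9) (nat_lit
  19656) (nat_lit 8) nil (node (nat_lit 5) (nat_lit 20874) (nat_lit 8) (node (nat_lit 4) (nat_lit
  21120) (nat_lit 9) nil nil) (node (nat_lit 4) (nat_lit 20874) (nat_lit 8) nil nil))) (node
  (nat_lit 0) (nat_lit 19922) (nat_lit 7) nil (node (nat_lit 5) (nat_lit 19009) (nat_lit 7) (node
  (nat_lit 4) (nat_lit 20402) (nat_lit 8) (node (nat_lit 5) (nat_lit 18644) (nat_lit 9) (node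
  (nat_lit 6) (nat_lit 11588) (nat_lit 10) nil nil) nil) nil) (node (nat_lit 2) (nat_lit 18894)
  (nat_lit 7) (node (nat_lit 9) (nat_lit 19636) (nat_lit 8) nil (node (nat_lit 5) (nat_lit 17248)
  (nat_lit 8) (node (nat_lit 4) (nat_lit 16378) (nat_lit 9) nil nil) nil)) nil))))) nil))) (node
  (nat_lit 6) (nat_lit 53454) (nat_lit 5) (node (nat_lit 5) (nat_lit 54519) (nat_lit 6) nil nil)
  (node (nat_lit 0) (nat_lit 55734) (nat_lit 5) nil (node (nat_lit 2) (nat_lit 54506) (nat_lit 5)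
  nil nil)))) (node (nat_lit 5) (nat_lit 0) (nat_lit 4) (node (nat_lit 4) (nat_lit 0) (nat_lit 5)
  (node (nat_lit 5) (nat_lit 54412) (nat_lit 6) (node (nat_lit 6) (nat_lit 31363) (nat_lit 7) nil
  nil) (node (nat_lit 6) (nat_lit 55230) (nat_lit 6) (node (nat_lit 4) (nat_lit 56129) (nat_lit 7)
  (node (nat_lit 5) (nat_lit 56604) (nat_lit 8) (node (nat_lit 6) (nat_lit 55380) (nat_lit 9)
  (node (nat_lit 5) (nat_lit 47178) (nat_lit 10) nil nil) nil) nil) nil) (node (nat_lit 0)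
  (nat_lit 55652) (nat_lit 6) nil (node (nat_lit 2) (nat_lit 55652) (nat_lit 6) (node (nat_lit 6)
  (nat_lit 56504) (nat_lit 7) nil nil) nil)))) (node (nat_lit 0) (nat_lit 55242) (nat_lit 5) nil
  (node (nat_lit 2) (nat_lit 52803) (nat_lit 5) (node (nat_lit 6) (nat_lit 55551) (nat_lit 6) nil
  nil) nil))) nil)) (node (nat_lit 4) (nat_lit 0) (nat_lit 3) (node (nat_lit 1) (nat_lit 24724)
  (nat_lit 4) (node (nat_lit 5) (nat_lit 27544) (nat_lit 5) nil (node (nat_lit 4) (nat_lit 26720)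
  (nat_lit 5) (node (nat_lit 5) (nat_lit 0) (nat_lit 6) (node (nat_lit 0) (nat_lit 19772) (nat_lit
  7) nil (node (nat_lit 2) (nat_lit 19509) (nat_lit 7) nil (node (nat_lit 7) (nat_lit 17846)
  (nat_lit 7) nil nil))) nil) nil)) nil) nil)) nil) nil))

noncomputable def c41 : Tr :=
  t484

noncomputable def c51 : Tr :=
  (node (nat_lit 1) (nat_lit 0) (nat_lit 1) (node (nat_lit 1) (nat_lit 0) (nat_lit 2) (node
  (nat_lit 3) (nat_lit 0) (nat_lit 3) (node (nat_lit 4) (nat_lit 0) (nat_lit 4) (node (nat_lit 5)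
  (nat_lit 13521) (nat_lit 5) (node (nat_lit 4) (nat_lit 14791) (nat_lit 6) nil nil) (node
  (nat_lit 6) (nat_lit 25613) (nat_lit 5) (node (nat_lit 5) (nat_lit 26270) (nat_lit 6) (node
  (nat_lit 4) (nat_lit 26326) (nat_lit 7) (node (nat_lit 5) (nat_lit 26366) (nat_lit 8) (node
  (nat_lit 6) (nat_lit 26366) (nat_lit 9) nil nil) nil) nil) nil) nil)) (node (nat_lit 5) (nat_lit
  0) (nat_lit 4) (node (nat_lit 4) (nat_lit 0) (nat_lit 5) (node (nat_lit 5) (nat_lit 0) (nat_lit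
  6) (node (nat_lit 0) (nat_lit 23846) (nat_lit 7) nil (node (nat_lit 2) (nat_lit 23837) (nat_lit
  7) nil (node (nat_lit 6) (nat_lit 0) (nat_lit 7) (node (nat_lit 0) (nat_lit 11129) (nat_lit 8)
  (node (nat_lit 6) (nat_lit 11129) (nat_lit 9) (node (nat_lit 5) (nat_lit 11161) (nat_lit 10)
  (node (nat_lit 4) (nat_lit 11161) (nat_lit 11) nil nil) (node (nat_lit 4) (nat_lit 11161)
  (nat_lit 10) (node (nat_lit 5) (nat_lit 11161) (nat_lit 11) (node (nat_lit 6) (nat_lit 11161)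
  (nat_lit 12) nil nil) nil) nil)) (node (nat_lit 5) (nat_lit 11154) (nat_lit 9) (node (nat_lit 4)
  (nat_lit 11161) (nat_lit 10) (node (nat_lit 5) (nat_lit 11161) (nat_lit 11) nil nil) (node
  (nat_lit 6) (nat_lit 11154) (nat_lit 10) nil nil)) nil)) (node (nat_lit 2) (nat_lit 10958)
  (nat_lit 8) (node (nat_lit 6) (nat_lit 10958) (nat_lit 9) (node (nat_lit 5) (nat_lit 11102)
  (nat_lit 10) (node (nat_lit 4) (nat_lit 11110) (nat_lit 11) nil nil) (node (nat_lit 4) (nat_lit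
  11102) (nat_lit 10) (node (nat_lit 5) (nat_lit 11110) (nat_lit 11) (node (nat_lit 6) (nat_lit
  10955) (nat_lit 12) nil nil) nil) nil)) (node (nat_lit 5) (nat_lit 11092) (nat_lit 9) (node
  (nat_lit 4) (nat_lit 11102) (nat_lit 10) (node (nat_lit 5) (nat_lit 11110) (nat_lit 11) nil nil)
  (node (nat_lit 6) (nat_lit 11092) (nat_lit 10) nil nil)) nil)) (node (nat_lit 4) (nat_lit 10996)
  (nat_lit 8) nil nil))) nil))) (node (nat_lit 6) (nat_lit 0) (nat_lit 6) (node (nat_lit 0)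
  (nat_lit 26820) (nat_lit 7) nil (node (nat_lit 2) (nat_lit 26632) (nat_lit 7) (node (nat_lit 5)
  (nat_lit 26866) (nat_lit 8) nil nil) (node (nat_lit 5) (nat_lit 26767) (nat_lit 7) nil (node
  (nat_lit 4) (nat_lit 26767) (nat_lit 7) (node (nat_lit 5) (nat_lit 26807) (nat_lit 8) (node
  (nat_lit 6) (nat_lit 26807) (nat_lit 9) (node (nat_lit 5) (nat_lit 26861) (nat_lit 10) nil nil)
  nil) nil) nil)))) (node (nat_lit 0) (nat_lit 26831) (nat_lit 6) (node (nat_lit 5) (nat_lit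
  26881) (nat_lit 7) nil nil) (node (nat_lit 2) (nat_lit 26699) (nat_lit 6) nil nil)))) nil) nil))
  (node (nat_lit 4) (nat_lit 0) (nat_lit 3) (node (nat_lit 3) (nat_lit 0) (nat_lit 4) (node
  (nat_lit 5) (nat_lit 0) (nat_lit 5) (node (nat_lit 7) (nat_lit 0) (nat_lit 6) (node (nat_lit 0)
  (nat_lit 10919) (nat_lit 7) nil (node (nat_lit 2) (nat_lit 10422) (nat_lit 7) (node (nat_lit 4)
  (nat_lit 10656) (nat_lit 8) nil (node (nat_lit 7) (nat_lit 10422) (nat_lit 8) (node (nat_lit 4)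
  (nat_lit 10688) (nat_lit 9) (node (nat_lit 5) (nat_lit 10523) (nat_lit 10) (node (nat_lit 4)
  (nat_lit 9442) (nat_lit 11) (node (nat_lit 7) (nat_lit 4607) (nat_lit 12) nil nil) nil) nil)
  nil) nil)) (node (nat_lit 4) (nat_lit 10904) (nat_lit 7) (node (nat_lit 5) (nat_lit 10985)
  (nat_lit 8) nil nil) nil))) (node (nat_lit 4) (nat_lit 0) (nat_lit 6) (node (nat_lit 0) (nat_lit
  11087) (nat_lit 7) (node (nat_lit 7) (nat_lit 11087) (nat_lit 8) (node (nat_lit 4) (nat_lit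
  11155) (nat_lit 9) (node (nat_lit 5) (nat_lit 11165) (nat_lit 10) (node (nat_lit 4) (nat_lit
  11173) (nat_lit 11) (node (nat_lit 7) (nat_lit 11173) (nat_lit 12) nil nil) nil) nil) nil) (node
  (nat_lit 5) (nat_lit 11131) (nat_lit 8) (node (nat_lit 7) (nat_lit 11131) (nat_lit 9) (node
  (nat_lit 4) (nat_lit 11165) (nat_lit 10) nil nil) nil) nil)) (node (nat_lit 2) (nat_lit 0)
  (nat_lit 7) (node (nat_lit 7) (nat_lit 10964) (nat_lit 8) (node (nat_lit 4) (nat_lit 11094)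
  (nat_lit 9) (node (nat_lit 5) (nat_lit 11103) (nat_lit 10) (node (nat_lit 4) (nat_lit 10484)
  (nat_lit 11) (node (nat_lit 7) (nat_lit 8691) (nat_lit 12) nil nil) nil) nil) nil) (node
  (nat_lit 5) (nat_lit 11070) (nat_lit 8) (node (nat_lit 7) (nat_lit 11070) (nat_lit 9) (node
  (nat_lit 4) (nat_lit 11103) (nat_lit 10) (node (nat_lit 5) (nat_lit 11112) (nat_lit 11) nil nil)
  nil) nil) (node (nat_lit 4) (nat_lit 11070) (nat_lit 8) (node (nat_lit 7) (nat_lit 11070)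
  (nat_lit 9) nil nil) (node (nat_lit 0) (nat_lit 11070) (nat_lit 8) nil (node (nat_lit 2)
  (nat_lit 10964) (nat_lit 8) nil nil))))) (node (nat_lit 5) (nat_lit 0) (nat_lit 7) (node
  (nat_lit 0) (nat_lit 11131) (nat_lit 8) (node (nat_lit 7) (nat_lit 11131) (nat_lit 9) (node
  (nat_lit 4) (nat_lit 11165) (nat_lit 10) nil nil) nil) (node (nat_lit 2) (nat_lit 11087)
  (nat_lit 8) (node (nat_lit 7) (nat_lit 11087) (nat_lit 9) (node (nat_lit 4) (nat_lit 11165)
  (nat_lit 10) nil nil) nil) (node (nat_lit 7) (nat_lit 10904) (nat_lit 8) (node (nat_lit 4)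
  (nat_lit 11049) (nat_lit 9) (node (nat_lit 5) (nat_lit 11099) (nat_lit 10) (node (nat_lit 4)
  (nat_lit 11137) (nat_lit 11) (node (nat_lit 7) (nat_lit 11137) (nat_lit 12) nil nil) nil) nil)
  nil) nil))) nil))) (node (nat_lit 0) (nat_lit 10896) (nat_lit 6) (node (nat_lit 7) (nat_lit
  10896) (nat_lit 7) (node (nat_lit 4) (nat_lit 11030) (nat_lit 8) (node (nat_lit 5) (nat_lit
  11061) (nat_lit 9) (node (nat_lit 4) (nat_lit 11075) (nat_lit 10) (node (nat_lit 7) (nat_lit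
  11075) (nat_lit 11) nil nil) nil) nil) nil) (node (nat_lit 5) (nat_lit 10969) (nat_lit 7) (node
  (nat_lit 7) (nat_lit 10969) (nat_lit 8) (node (nat_lit 4) (nat_lit 11061) (nat_lit 9) (node
  (nat_lit 5) (nat_lit 11075) (nat_lit 10) (node (nat_lit 4) (nat_lit 11086) (nat_lit 11) (node
  (nat_lit 7) (nat_lit 11086) (nat_lit 12) (node (nat_lit 5) (nat_lit 11105) (nat_lit 13) nil nil)
  nil) nil) nil) nil) nil) nil)) (node (nat_lit 2) (nat_lit 0) (nat_lit 6) (node (nat_lit 7)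
  (nat_lit 10500) (nat_lit 7) (node (nat_lit 4) (nat_lit 10734) (nat_lit 8) (node (nat_lit 5)
  (nat_lit 10281) (nat_lit 9) (node (nat_lit 4) (nat_lit 8110) (nat_lit 10) (node (nat_lit 7)
  (nat_lit 5165) (nat_lit 11) nil nil) nil) nil) nil) (node (nat_lit 4) (nat_lit 10820) (nat_lit
  7) nil (node (nat_lit 5) (nat_lit 10820) (nat_lit 7) (node (nat_lit 7) (nat_lit 10820) (nat_lit
  8) (node (nat_lit 4) (nat_lit 10913) (nat_lit 9) (node (nat_lit 5) (nat_lit 10926) (nat_lit 10)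
  nil nil) nil) nil) (node (nat_lit 0) (nat_lit 10673) (nat_lit 7) nil (node (nat_lit 2) (nat_lit
  10500) (nat_lit 7) (node (nat_lit 7) (nat_lit 10500) (nat_lit 8) nil nil) nil))))) nil)))) (node
  (nat_lit 4) (nat_lit 10381) (nat_lit 5) (node (nat_lit 5) (nat_lit 10684) (nat_lit 6) nil nil)
  nil)) nil) nil)) (node (nat_lit 3) (nat_lit 0) (nat_lit 2) (node (nat_lit 1) (nat_lit 0)
  (nat_lit 3) (node (nat_lit 4) (nat_lit 0) (nat_lit 4) (node (nat_lit 5) (nat_lit 9611) (nat_lit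
  5) nil (node (nat_lit 6) (nat_lit 0) (nat_lit 5) (node (nat_lit 5) (nat_lit 0) (nat_lit 6) (node
  (nat_lit 0) (nat_lit 21782) (nat_lit 7) nil (node (nat_lit 2) (nat_lit 21782) (nat_lit 7) nil
  (node (nat_lit 6) (nat_lit 0) (nat_lit 7) (node (nat_lit 0) (nat_lit 22238) (nat_lit 8) (node
  (nat_lit 6) (nat_lit 22418) (nat_lit 9) nil nil) (node (nat_lit 2) (nat_lit 22238) (nat_lit 8)
  (node (nat_lit 6) (nat_lit 22418) (nat_lit 9) nil nil) (node (nat_lit 4) (nat_lit 21467)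
  (nat_lit 8) (node (nat_lit 0) (nat_lit 21810) (nat_lit 9) nil (node (nat_lit 2) (nat_lit 21810)
  (nat_lit 9) nil nil)) nil))) (node (nat_lit 4) (nat_lit 21011) (nat_lit 7) (node (nat_lit 6)
  (nat_lit 21467) (nat_lit 8) nil (node (nat_lit 5) (nat_lit 21467) (nat_lit 8) (node (nat_lit 6)
  (nat_lit 21810) (nat_lit 9) nil nil) nil)) nil)))) (node (nat_lit 0) (nat_lit 20853) (nat_lit 6)
  (node (nat_lit 5) (nat_lit 21596) (nat_lit 7) (node (nat_lit 4) (nat_lit 22051) (nat_lit 8) nil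
  nil) (node (nat_lit 4) (nat_lit 21662) (nat_lit 7) nil (node (nat_lit 6) (nat_lit 21596)
  (nat_lit 7) (node (nat_lit 4) (nat_lit 22051) (nat_lit 8) nil nil) nil))) (node (nat_lit 2)
  (nat_lit 0) (nat_lit 6) (node (nat_lit 5) (nat_lit 21268) (nat_lit 7) (node (nat_lit 4) (nat_lit
  21723) (nat_lit 8) nil nil) (node (nat_lit 4) (nat_lit 21268) (nat_lit 7) nil (node (nat_lit 6)
  (nat_lit 20995) (nat_lit 7) (node (nat_lit 4) (nat_lit 21258) (nat_lit 8) (node (nat_lit 5)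
  (nat_lit 18170) (nat_lit 9) (node (nat_lit 6) (nat_lit 16444) (nat_lit 10) (node (nat_lit 4)
  (nat_lit 13194) (nat_lit 11) (node (nat_lit 6) (nat_lit 11567) (nat_lit 12) nil nil) nil) nil)
  nil) nil) (node (nat_lit 0) (nat_lit 20995) (nat_lit 7) nil (node (nat_lit 2) (nat_lit 20995)
  (nat_lit 7) nil nil))))) nil))) nil)) (node (nat_lit 5) (nat_lit 0) (nat_lit 4) (node (nat_lit
  4) (nat_lit 0) (nat_lit 5) (node (nat_lit 5) (nat_lit 26581) (nat_lit 6) (node (nat_lit 6)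
  (nat_lit 15613) (nat_lit 7) nil nil) (node (nat_lit 6) (nat_lit 0) (nat_lit 6) (node (nat_lit 0)
  (nat_lit 26811) (nat_lit 7) (node (nat_lit 5) (nat_lit 26811) (nat_lit 8) nil (node (nat_lit 6)
  (nat_lit 26839) (nat_lit 8) nil nil)) (node (nat_lit 2) (nat_lit 26767) (nat_lit 7) (node
  (nat_lit 5) (nat_lit 26767) (nat_lit 8) nil (node (nat_lit 6) (nat_lit 26839) (nat_lit 8) nil
  nil)) (node (nat_lit 5) (nat_lit 0) (nat_lit 7) (node (nat_lit 2) (nat_lit 26767) (nat_lit 8)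
  nil (node (nat_lit 0) (nat_lit 26839) (nat_lit 8) nil (node (nat_lit 6) (nat_lit 26792) (nat_lit
  8) nil nil))) (node (nat_lit 4) (nat_lit 26759) (nat_lit 7) (node (nat_lit 5) (nat_lit 26759)
  (nat_lit 8) (node (nat_lit 6) (nat_lit 26818) (nat_lit 9) (node (nat_lit 5) (nat_lit 26818)
  (nat_lit 10) nil nil) nil) nil) nil)))) (node (nat_lit 0) (nat_lit 26767) (nat_lit 6) (node
  (nat_lit 5) (nat_lit 26767) (nat_lit 7) nil nil) (node (nat_lit 2) (nat_lit 26712) (nat_lit 6)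
  (node (nat_lit 5) (nat_lit 26712) (nat_lit 7) (node (nat_lit 4) (nat_lit 26839) (nat_lit 8) nil
  nil) (node (nat_lit 6) (nat_lit 26811) (nat_lit 7) nil nil)) nil)))) nil) nil)) (node (nat_lit
  4) (nat_lit 0) (nat_lit 3) (node (nat_lit 1) (nat_lit 0) (nat_lit 4) (node (nat_lit 5) (nat_lit
  13905) (nat_lit 5) (node (nat_lit 7) (nat_lit 14526) (nat_lit 6) (node (nat_lit 4) (nat_lit
  16128) (nat_lit 7) (node (nat_lit 5) (nat_lit 16128) (nat_lit 8) nil nil) nil) nil) (node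
  (nat_lit 4) (nat_lit 0) (nat_lit 5) (node (nat_lit 5) (nat_lit 0) (nat_lit 6) (node (nat_lit 0)
  (nat_lit 16128) (nat_lit 7) nil (node (nat_lit 2) (nat_lit 16128) (nat_lit 7) nil (node (nat_lit
  7) (nat_lit 16128) (nat_lit 7) nil nil))) (node (nat_lit 0) (nat_lit 16128) (nat_lit 6) (node
  (nat_lit 7) (nat_lit 16128) (nat_lit 7) (node (nat_lit 4) (nat_lit 16128) (nat_lit 8) (node
  (nat_lit 5) (nat_lit 16128) (nat_lit 9) (node (nat_lit 4) (nat_lit 16128) (nat_lit 10) (node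
  (nat_lit 7) (nat_lit 16128) (nat_lit 11) nil nil) nil) nil) nil) nil) (node (nat_lit 2) (nat_lit
  16128) (nat_lit 6) nil nil))) nil)) nil) nil)) nil)) (node (nat_lit 3) (nat_lit 0) (nat_lit 1)
  (node (nat_lit 1) (nat_lit 0) (nat_lit 2) (node (nat_lit 1) (nat_lit 0) (nat_lit 3) (node
  (nat_lit 4) (nat_lit 0) (nat_lit 4) (node (nat_lit 5) (nat_lit 0) (nat_lit 5) (node (nat_lit 4)
  (nat_lit 0) (nat_lit 6) (node (nat_lit 0) (nat_lit 10881) (nat_lit 7) (node (nat_lit 6) (nat_lit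
  11301) (nat_lit 8) nil (node (nat_lit 5) (nat_lit 11265) (nat_lit 8) (node (nat_lit 4) (nat_lit
  11456) (nat_lit 9) (node (nat_lit 5) (nat_lit 11551) (nat_lit 10) (node (nat_lit 6) (nat_lit
  11634) (nat_lit 11) (node (nat_lit 4) (nat_lit 11710) (nat_lit 12) nil nil) nil) nil) nil) (node
  (nat_lit 4) (nat_lit 11301) (nat_lit 8) nil nil))) (node (nat_lit 2) (nat_lit 0) (nat_lit 7)
  (node (nat_lit 6) (nat_lit 11152) (nat_lit 8) nil (node (nat_lit 5) (nat_lit 11060) (nat_lit 8)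
  (node (nat_lit 4) (nat_lit 11307) (nat_lit 9) (node (nat_lit 5) (nat_lit 11306) (nat_lit 10)
  (node (nat_lit 6) (nat_lit 9113) (nat_lit 11) (node (nat_lit 4) (nat_lit 7429) (nat_lit 12) nil
  nil) nil) nil) nil) (node (nat_lit 0) (nat_lit 11060) (nat_lit 8) nil (node (nat_lit 2) (nat_lit
  10429) (nat_lit 8) nil (node (nat_lit 4) (nat_lit 11152) (nat_lit 8) nil nil))))) (node (nat_lit
  6) (nat_lit 0) (nat_lit 7) (node (nat_lit 0) (nat_lit 11374) (nat_lit 8) nil (node (nat_lit 2)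
  (nat_lit 11284) (nat_lit 8) nil (node (nat_lit 5) (nat_lit 10662) (nat_lit 8) nil (node (nat_lit
  4) (nat_lit 10794) (nat_lit 8) nil nil)))) nil))) (node (nat_lit 0) (nat_lit 10234) (nat_lit 6)
  (node (nat_lit 6) (nat_lit 10784) (nat_lit 7) nil (node (nat_lit 5) (nat_lit 10676) (nat_lit 7)
  (node (nat_lit 4) (nat_lit 11152) (nat_lit 8) nil nil) nil)) (node (nat_lit 2) (nat_lit 0)
  (nat_lit 6) (node (nat_lit 4) (nat_lit 10316) (nat_lit 7) nil (node (nat_lit 6) (nat_lit 10426)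
  (nat_lit 7) (node (nat_lit 5) (nat_lit 10810) (nat_lit 8) (node (nat_lit 4) (nat_lit 10937)
  (nat_lit 9) nil nil) nil) (node (nat_lit 5) (nat_lit 9844) (nat_lit 7) (node (nat_lit 4)
  (nat_lit 10565) (nat_lit 8) nil nil) (node (nat_lit 0) (nat_lit 10316) (nat_lit 7) nil (node
  (nat_lit 2) (nat_lit 9784) (nat_lit 7) (node (nat_lit 5) (nat_lit 8932) (nat_lit 8) (node
  (nat_lit 4) (nat_lit 8481) (nat_lit 9) nil nil) nil) nil))))) nil))) (node (nat_lit 6) (nat_lit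
  27000) (nat_lit 5) (node (nat_lit 5) (nat_lit 28121) (nat_lit 6) (node (nat_lit 4) (nat_lit
  28984) (nat_lit 7) (node (nat_lit 5) (nat_lit 29408) (nat_lit 8) (node (nat_lit 6) (nat_lit
  29408) (nat_lit 9) nil nil) nil) nil) nil) nil)) (node (nat_lit 5) (nat_lit 0) (nat_lit 4) (node
  (nat_lit 4) (nat_lit 0) (nat_lit 5) (node (nat_lit 5) (nat_lit 28009) (nat_lit 6) (node (nat_lit
  6) (nat_lit 16294) (nat_lit 7) nil nil) (node (nat_lit 6) (nat_lit 28190) (nat_lit 6) (node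
  (nat_lit 4) (nat_lit 29067) (nat_lit 7) (node (nat_lit 5) (nat_lit 29194) (nat_lit 8) (node
  (nat_lit 6) (nat_lit 27154) (nat_lit 9) (node (nat_lit 5) (nat_lit 24431) (nat_lit 10) nil nil)
  nil) nil) nil) (node (nat_lit 0) (nat_lit 28820) (nat_lit 6) nil (node (nat_lit 2) (nat_lit
  28303) (nat_lit 6) nil nil)))) nil) nil)) (node (nat_lit 4) (nat_lit 0) (nat_lit 3) (node
  (nat_lit 1) (nat_lit 0) (nat_lit 4) (node (nat_lit 5) (nat_lit 13905) (nat_lit 5) nil (node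
  (nat_lit 4) (nat_lit 13489) (nat_lit 5) (node (nat_lit 5) (nat_lit 0) (nat_lit 6) (node (nat_lit
  0) (nat_lit 10239) (nat_lit 7) nil (node (nat_lit 2) (nat_lit 10103) (nat_lit 7) nil (node
  (nat_lit 7) (nat_lit 9241) (nat_lit 7) nil nil))) nil) nil)) nil) nil)) nil) nil))

noncomputable def c61 : Tr :=
  (node (nat_lit 1) (nat_lit 0) (nat_lit 1) (node (nat_lit 1) (nat_lit 0) (nat_lit 2) (node
  (nat_lit 3) (nat_lit 0) (nat_lit 3) (node (nat_lit 4) (nat_lit 0) (nat_lit 4) (node (nat_lit 6)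
  (nat_lit 0) (nat_lit 5) (node (nat_lit 5) (nat_lit 32926) (nat_lit 6) (node (nat_lit 4) (nat_lit
  33023) (nat_lit 7) (node (nat_lit 5) (nat_lit 33093) (nat_lit 8) (node (nat_lit 6) (nat_lit
  33090) (nat_lit 9) (node (nat_lit 4) (nat_lit 28433) (nat_lit 10) (node (nat_lit 6) (nat_lit
  12875) (nat_lit 11) nil nil) nil) nil) nil) nil) nil) (node (nat_lit 5) (nat_lit 0) (nat_lit 5)
  (node (nat_lit 4) (nat_lit 17439) (nat_lit 6) (node (nat_lit 6) (nat_lit 17111) (nat_lit 7) nil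
  nil) nil) nil)) (node (nat_lit 5) (nat_lit 0) (nat_lit 4) (node (nat_lit 4) (nat_lit 0) (nat_lit
  5) (node (nat_lit 6) (nat_lit 0) (nat_lit 6) (node (nat_lit 5) (nat_lit 33605) (nat_lit 7) (node
  (nat_lit 6) (nat_lit 33605) (nat_lit 8) (node (nat_lit 4) (nat_lit 33726) (nat_lit 9) (node
  (nat_lit 5) (nat_lit 33767) (nat_lit 10) (node (nat_lit 6) (nat_lit 33767) (nat_lit 11) (node
  (nat_lit 5) (nat_lit 33824) (nat_lit 12) (node (nat_lit 4) (nat_lit 33843) (nat_lit 13) (node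
  (nat_lit 6) (nat_lit 33843) (nat_lit 14) nil nil) nil) nil) nil) nil) nil) nil) (node (nat_lit
  4) (nat_lit 33646) (nat_lit 7) (node (nat_lit 5) (nat_lit 33740) (nat_lit 8) (node (nat_lit 6)
  (nat_lit 33740) (nat_lit 9) nil nil) nil) (node (nat_lit 0) (nat_lit 33699) (nat_lit 7) nil
  (node (nat_lit 2) (nat_lit 33342) (nat_lit 7) nil nil)))) (node (nat_lit 5) (nat_lit 0) (nat_lit
  6) (node (nat_lit 6) (nat_lit 0) (nat_lit 7) (node (nat_lit 4) (nat_lit 13853) (nat_lit 8) (node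
  (nat_lit 6) (nat_lit 13853) (nat_lit 9) nil (node (nat_lit 0) (nat_lit 13930) (nat_lit 9) nil
  (node (nat_lit 2) (nat_lit 13853) (nat_lit 9) (node (nat_lit 6) (nat_lit 13853) (nat_lit 10) nil
  (node (nat_lit 5) (nat_lit 13991) (nat_lit 10) nil nil)) nil))) (node (nat_lit 2) (nat_lit
  13719) (nat_lit 8) (node (nat_lit 4) (nat_lit 13961) (nat_lit 9) nil (node (nat_lit 5) (nat_lit
  13961) (nat_lit 9) (node (nat_lit 4) (nat_lit 13973) (nat_lit 10) (node (nat_lit 5) (nat_lit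
  13984) (nat_lit 11) (node (nat_lit 6) (nat_lit 13984) (nat_lit 12) nil nil) nil) (node (nat_lit
  6) (nat_lit 13961) (nat_lit 10) nil nil)) (node (nat_lit 6) (nat_lit 13719) (nat_lit 9) (node
  (nat_lit 4) (nat_lit 13973) (nat_lit 10) (node (nat_lit 5) (nat_lit 13984) (nat_lit 11) (node
  (nat_lit 6) (nat_lit 13583) (nat_lit 12) nil nil) nil) nil) nil))) (node (nat_lit 0) (nat_lit
  14008) (nat_lit 8) (node (nat_lit 5) (nat_lit 14038) (nat_lit 9) (node (nat_lit 4) (nat_lit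
  14051) (nat_lit 10) (node (nat_lit 5) (nat_lit 14061) (nat_lit 11) (node (nat_lit 6) (nat_lit
  14061) (nat_lit 12) nil nil) nil) (node (nat_lit 6) (nat_lit 14038) (nat_lit 10) nil nil)) (node
  (nat_lit 6) (nat_lit 14008) (nat_lit 9) (node (nat_lit 4) (nat_lit 14051) (nat_lit 10) (node
  (nat_lit 5) (nat_lit 14061) (nat_lit 11) (node (nat_lit 6) (nat_lit 14061) (nat_lit 12) nil nil)
  nil) nil) nil)) nil))) (node (nat_lit 0) (nat_lit 29183) (nat_lit 7) nil (node (nat_lit 2)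
  (nat_lit 29125) (nat_lit 7) nil nil))) nil)) nil) nil)) (node (nat_lit 4) (nat_lit 0) (nat_lit
  3) (node (nat_lit 3) (nat_lit 0) (nat_lit 4) (node (nat_lit 5) (nat_lit 0) (nat_lit 5) (node
  (nat_lit 7) (nat_lit 0) (nat_lit 6) (node (nat_lit 4) (nat_lit 0) (nat_lit 7) (node (nat_lit 5)
  (nat_lit 13839) (nat_lit 8) (node (nat_lit 4) (nat_lit 13920) (nat_lit 9) nil nil) (node
  (nat_lit 7) (nat_lit 13737) (nat_lit 8) nil (node (nat_lit 0) (nat_lit 13956) (nat_lit 8) nil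
  (node (nat_lit 2) (nat_lit 13880) (nat_lit 8) nil nil)))) (node (nat_lit 0) (nat_lit 13681)
  (nat_lit 7) nil (node (nat_lit 2) (nat_lit 13059) (nat_lit 7) (node (nat_lit 5) (nat_lit 13584)
  (nat_lit 8) nil (node (nat_lit 4) (nat_lit 13352) (nat_lit 8) nil (node (nat_lit 7) (nat_lit
  13059) (nat_lit 8) (node (nat_lit 4) (nat_lit 13392) (nat_lit 9) (node (nat_lit 5) (nat_lit
  13047) (nat_lit 10) (node (nat_lit 4) (nat_lit 11707) (nat_lit 11) (node (nat_lit 7) (nat_lit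
  5712) (nat_lit 12) (node (nat_lit 5) (nat_lit 4128) (nat_lit 13) nil nil) nil) nil) nil) nil)
  nil))) nil))) (node (nat_lit 4) (nat_lit 0) (nat_lit 6) (node (nat_lit 5) (nat_lit 0) (nat_lit
  7) (node (nat_lit 7) (nat_lit 0) (nat_lit 8) (node (nat_lit 5) (nat_lit 13920) (nat_lit 9) nil
  (node (nat_lit 4) (nat_lit 13920) (nat_lit 9) (node (nat_lit 5) (nat_lit 13982) (nat_lit 10)
  (node (nat_lit 4) (nat_lit 14021) (nat_lit 11) (node (nat_lit 7) (nat_lit 14021) (nat_lit 12)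
  nil nil) nil) nil) (node (nat_lit 0) (nat_lit 13920) (nat_lit 9) nil (node (nat_lit 2) (nat_lit
  13737) (nat_lit 9) nil nil)))) (node (nat_lit 2) (nat_lit 13955) (nat_lit 8) (node (nat_lit 7)
  (nat_lit 13955) (nat_lit 9) (node (nat_lit 4) (nat_lit 14052) (nat_lit 10) (node (nat_lit 5)
  (nat_lit 14063) (nat_lit 11) (node (nat_lit 4) (nat_lit 14070) (nat_lit 12) nil nil) nil) nil)
  nil) (node (nat_lit 0) (nat_lit 14010) (nat_lit 8) (node (nat_lit 7) (nat_lit 14010) (nat_lit 9)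
  (node (nat_lit 4) (nat_lit 14052) (nat_lit 10) (node (nat_lit 5) (nat_lit 14063) (nat_lit 11)
  (node (nat_lit 4) (nat_lit 14070) (nat_lit 12) nil nil) nil) nil) nil) nil))) (node (nat_lit 0)
  (nat_lit 13955) (nat_lit 7) (node (nat_lit 5) (nat_lit 14010) (nat_lit 8) nil (node (nat_lit 7)
  (nat_lit 13955) (nat_lit 8) (node (nat_lit 4) (nat_lit 14040) (nat_lit 9) (node (nat_lit 5)
  (nat_lit 14052) (nat_lit 10) nil nil) nil) nil)) (node (nat_lit 2) (nat_lit 0) (nat_lit 7) (node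
  (nat_lit 5) (nat_lit 13932) (nat_lit 8) (node (nat_lit 7) (nat_lit 13932) (nat_lit 9) (node
  (nat_lit 4) (nat_lit 13975) (nat_lit 10) (node (nat_lit 5) (nat_lit 13985) (nat_lit 11) (node
  (nat_lit 4) (nat_lit 13995) (nat_lit 12) (node (nat_lit 7) (nat_lit 13995) (nat_lit 13) (node
  (nat_lit 5) (nat_lit 14009) (nat_lit 14) nil nil) nil) nil) nil) nil) nil) (node (nat_lit 7)
  (nat_lit 13727) (nat_lit 8) (node (nat_lit 4) (nat_lit 13963) (nat_lit 9) (node (nat_lit 5)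
  (nat_lit 13975) (nat_lit 10) nil nil) nil) (node (nat_lit 4) (nat_lit 13932) (nat_lit 8) (node
  (nat_lit 7) (nat_lit 13932) (nat_lit 9) nil nil) (node (nat_lit 0) (nat_lit 13929) (nat_lit 8)
  (node (nat_lit 7) (nat_lit 13929) (nat_lit 9) nil nil) (node (nat_lit 2) (nat_lit 13727)
  (nat_lit 8) (node (nat_lit 7) (nat_lit 13727) (nat_lit 9) nil nil) nil))))) nil))) nil)) (node
  (nat_lit 4) (nat_lit 0) (nat_lit 5) (node (nat_lit 5) (nat_lit 13388) (nat_lit 6) nil nil) nil))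
  nil) nil)) (node (nat_lit 3) (nat_lit 0) (nat_lit 2) (node (nat_lit 1) (nat_lit 0) (nat_lit 3)
  (node (nat_lit 4) (nat_lit 0) (nat_lit 4) (node (nat_lit 6) (nat_lit 0) (nat_lit 5) (node
  (nat_lit 5) (nat_lit 0) (nat_lit 6) (node (nat_lit 4) (nat_lit 0) (nat_lit 7) (node (nat_lit 6)
  (nat_lit 26440) (nat_lit 8) (node (nat_lit 4) (nat_lit 26861) (nat_lit 9) nil nil) (node
  (nat_lit 5) (nat_lit 26440) (nat_lit 8) (node (nat_lit 6) (nat_lit 26861) (nat_lit 9) (node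
  (nat_lit 4) (nat_lit 27190) (nat_lit 10) nil nil) nil) (node (nat_lit 0) (nat_lit 27388)
  (nat_lit 8) nil (node (nat_lit 2) (nat_lit 26500) (nat_lit 8) nil nil)))) (node (nat_lit 6)
  (nat_lit 0) (nat_lit 7) (node (nat_lit 4) (nat_lit 0) (nat_lit 8) (node (nat_lit 2) (nat_lit
  26861) (nat_lit 9) (node (nat_lit 6) (nat_lit 27190) (nat_lit 10) nil nil) (node (nat_lit 0)
  (nat_lit 26861) (nat_lit 9) nil (node (nat_lit 5) (nat_lit 26861) (nat_lit 9) nil nil))) (node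
  (nat_lit 0) (nat_lit 27388) (nat_lit 8) (node (nat_lit 5) (nat_lit 27610) (nat_lit 9) nil (node
  (nat_lit 6) (nat_lit 27610) (nat_lit 9) nil nil)) (node (nat_lit 2) (nat_lit 27388) (nat_lit 8)
  (node (nat_lit 5) (nat_lit 27610) (nat_lit 9) nil (node (nat_lit 6) (nat_lit 27610) (nat_lit 9)
  nil nil)) nil))) (node (nat_lit 0) (nat_lit 26828) (nat_lit 7) nil (node (nat_lit 2) (nat_lit
  26828) (nat_lit 7) nil nil)))) nil) (node (nat_lit 5) (nat_lit 11916) (nat_lit 5) nil nil))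
  (node (nat_lit 5) (nat_lit 0) (nat_lit 4) (node (nat_lit 4) (nat_lit 0) (nat_lit 5) (node
  (nat_lit 6) (nat_lit 0) (nat_lit 6) (node (nat_lit 5) (nat_lit 0) (nat_lit 7) (node (nat_lit 6)
  (nat_lit 33721) (nat_lit 8) (node (nat_lit 4) (nat_lit 33753) (nat_lit 9) (node (nat_lit 5)
  (nat_lit 33753) (nat_lit 10) (node (nat_lit 6) (nat_lit 33644) (nat_lit 11) (node (nat_lit 5)
  (nat_lit 33058) (nat_lit 12) (node (nat_lit 4) (nat_lit 31309) (nat_lit 13) (node (nat_lit 6)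
  (nat_lit 24441) (nat_lit 14) nil nil) nil) nil) nil) nil) nil) (node (nat_lit 2) (nat_lit 33689)
  (nat_lit 8) nil (node (nat_lit 0) (nat_lit 33779) (nat_lit 8) nil nil))) (node (nat_lit 4)
  (nat_lit 33679) (nat_lit 7) (node (nat_lit 5) (nat_lit 33679) (nat_lit 8) (node (nat_lit 6)
  (nat_lit 33753) (nat_lit 9) nil nil) nil) (node (nat_lit 0) (nat_lit 33745) (nat_lit 7) (node
  (nat_lit 5) (nat_lit 33745) (nat_lit 8) nil nil) (node (nat_lit 2) (nat_lit 33689) (nat_lit 7)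
  (node (nat_lit 5) (nat_lit 33689) (nat_lit 8) nil nil) nil)))) (node (nat_lit 5) (nat_lit 31340)
  (nat_lit 6) (node (nat_lit 6) (nat_lit 19107) (nat_lit 7) nil nil) nil)) nil) nil)) (node
  (nat_lit 4) (nat_lit 0) (nat_lit 3) (node (nat_lit 1) (nat_lit 0) (nat_lit 4) (node (nat_lit 5)
  (nat_lit 0) (nat_lit 5) (node (nat_lit 7) (nat_lit 17127) (nat_lit 6) (node (nat_lit 4) (nat_lit
  20041) (nat_lit 7) (node (nat_lit 5) (nat_lit 20041) (nat_lit 8) (node (nat_lit 4) (nat_lit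
  19741) (nat_lit 9) nil nil) nil) nil) (node (nat_lit 4) (nat_lit 17132) (nat_lit 6) nil nil))
  (node (nat_lit 4) (nat_lit 0) (nat_lit 5) (node (nat_lit 5) (nat_lit 0) (nat_lit 6) (node
  (nat_lit 7) (nat_lit 20041) (nat_lit 7) nil (node (nat_lit 0) (nat_lit 20041) (nat_lit 7) nil
  (node (nat_lit 2) (nat_lit 20041) (nat_lit 7) nil nil))) nil) nil)) nil) nil)) nil)) (node
  (nat_lit 3) (nat_lit 0) (nat_lit 1) (node (nat_lit 1) (nat_lit 0) (nat_lit 2) (node (nat_lit 1)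
  (nat_lit 0) (nat_lit 3) (node (nat_lit 4) (nat_lit 0) (nat_lit 4) (node (nat_lit 6) (nat_lit 0)
  (nat_lit 5) (node (nat_lit 5) (nat_lit 33157) (nat_lit 6) (node (nat_lit 4) (nat_lit 35471)
  (nat_lit 7) (node (nat_lit 5) (nat_lit 36020) (nat_lit 8) (node (nat_lit 6) (nat_lit 36220)
  (nat_lit 9) nil nil) nil) nil) nil) (node (nat_lit 5) (nat_lit 0) (nat_lit 5) (node (nat_lit 4)
  (nat_lit 0) (nat_lit 6) (node (nat_lit 6) (nat_lit 0) (nat_lit 7) (node (nat_lit 5) (nat_lit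
  13131) (nat_lit 8) (node (nat_lit 4) (nat_lit 13570) (nat_lit 9) nil nil) (node (nat_lit 4)
  (nat_lit 13294) (nat_lit 8) (node (nat_lit 2) (nat_lit 13011) (nat_lit 9) nil (node (nat_lit 0)
  (nat_lit 13655) (nat_lit 9) nil nil)) (node (nat_lit 0) (nat_lit 14009) (nat_lit 8) nil (node
  (nat_lit 2) (nat_lit 13897) (nat_lit 8) nil nil)))) (node (nat_lit 0) (nat_lit 13401) (nat_lit
  7) (node (nat_lit 5) (nat_lit 13874) (nat_lit 8) nil nil) (node (nat_lit 2) (nat_lit 13148)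
  (nat_lit 7) (node (nat_lit 5) (nat_lit 13621) (nat_lit 8) nil (node (nat_lit 6) (nat_lit 13735)
  (nat_lit 8) nil (node (nat_lit 4) (nat_lit 13735) (nat_lit 8) nil nil))) nil))) nil) nil)) (node
  (nat_lit 5) (nat_lit 0) (nat_lit 4) (node (nat_lit 4) (nat_lit 0) (nat_lit 5) (node (nat_lit 6)
  (nat_lit 33238) (nat_lit 6) (node (nat_lit 5) (nat_lit 35595) (nat_lit 7) (node (nat_lit 6)
  (nat_lit 35855) (nat_lit 8) (node (nat_lit 4) (nat_lit 36055) (nat_lit 9) (node (nat_lit 5)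
  (nat_lit 36200) (nat_lit 10) (node (nat_lit 6) (nat_lit 36314) (nat_lit 11) (node (nat_lit 5)
  (nat_lit 36403) (nat_lit 12) (node (nat_lit 4) (nat_lit 36472) (nat_lit 13) (node (nat_lit 6)
  (nat_lit 36526) (nat_lit 14) nil nil) nil) nil) nil) nil) nil) nil) (node (nat_lit 4) (nat_lit
  35595) (nat_lit 7) (node (nat_lit 5) (nat_lit 35729) (nat_lit 8) (node (nat_lit 6) (nat_lit
  33231) (nat_lit 9) nil nil) nil) nil)) (node (nat_lit 5) (nat_lit 33025) (nat_lit 6) (node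
  (nat_lit 6) (nat_lit 20439) (nat_lit 7) nil nil) nil)) nil) nil)) (node (nat_lit 4) (nat_lit 0)
  (nat_lit 3) (node (nat_lit 1) (nat_lit 0) (nat_lit 4) (node (nat_lit 5) (nat_lit 0) (nat_lit 5)
  (node (nat_lit 7) (nat_lit 17127) (nat_lit 6) (node (nat_lit 4) (nat_lit 19096) (nat_lit 7)
  (node (nat_lit 5) (nat_lit 19096) (nat_lit 8) (node (nat_lit 4) (nat_lit 19096) (nat_lit 9) nil
  nil) nil) nil) (node (nat_lit 4) (nat_lit 17132) (nat_lit 6) nil nil)) (node (nat_lit 4)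
  (nat_lit 0) (nat_lit 5) (node (nat_lit 5) (nat_lit 0) (nat_lit 6) (node (nat_lit 7) (nat_lit
  11382) (nat_lit 7) nil (node (nat_lit 0) (nat_lit 12611) (nat_lit 7) nil (node (nat_lit 2)
  (nat_lit 12443) (nat_lit 7) nil nil))) nil) nil)) nil) nil)) nil) nil))

noncomputable def c71 : Tr :=
  (node (nat_lit 1) (nat_lit 0) (nat_lit 1) (node (nat_lit 1) (nat_lit 0) (nat_lit 2) (node
  (nat_lit 3) (nat_lit 0) (nat_lit 3) (node (nat_lit 4) (nat_lit 0) (nat_lit 4) (node (nat_lit 6)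
  (nat_lit 0) (nat_lit 5) (node (nat_lit 5) (nat_lit 7957) (nat_lit 6) (node (nat_lit 4) (nat_lit
  7981) (nat_lit 7) (node (nat_lit 5) (nat_lit 7998) (nat_lit 8) (node (nat_lit 6) (nat_lit 7998)
  (nat_lit 9) (node (nat_lit 4) (nat_lit 6891) (nat_lit 10) nil nil) nil) (node (nat_lit 6)
  (nat_lit 7981) (nat_lit 8) (node (nat_lit 4) (nat_lit 8010) (nat_lit 9) (node (nat_lit 5)
  (nat_lit 8020) (nat_lit 10) nil nil) nil) nil)) nil) nil) (node (nat_lit 5) (nat_lit 0) (nat_lit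
  5) (node (nat_lit 4) (nat_lit 4406) (nat_lit 6) nil nil) nil)) (node (nat_lit 5) (nat_lit 0)
  (nat_lit 4) (node (nat_lit 4) (nat_lit 0) (nat_lit 5) (node (nat_lit 6) (nat_lit 0) (nat_lit 6)
  (node (nat_lit 4) (nat_lit 0) (nat_lit 7) (node (nat_lit 5) (nat_lit 8162) (nat_lit 8) (node
  (nat_lit 6) (nat_lit 8162) (nat_lit 9) (node (nat_lit 5) (nat_lit 8192) (nat_lit 10) nil nil)
  nil) (node (nat_lit 2) (nat_lit 8170) (nat_lit 8) nil (node (nat_lit 0) (nat_lit 8196) (nat_lit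
  8) nil nil))) (node (nat_lit 5) (nat_lit 0) (nat_lit 7) (node (nat_lit 6) (nat_lit 8121)
  (nat_lit 8) (node (nat_lit 4) (nat_lit 8151) (nat_lit 9) (node (nat_lit 5) (nat_lit 8161)
  (nat_lit 10) nil nil) nil) (node (nat_lit 2) (nat_lit 8144) (nat_lit 8) nil (node (nat_lit 0)
  (nat_lit 8163) (nat_lit 8) nil nil))) nil)) (node (nat_lit 5) (nat_lit 0) (nat_lit 6) (node
  (nat_lit 6) (nat_lit 0) (nat_lit 7) (node (nat_lit 4) (nat_lit 0) (nat_lit 8) (node (nat_lit 6)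
  (nat_lit 0) (nat_lit 9) (node (nat_lit 0) (nat_lit 3384) (nat_lit 10) (node (nat_lit 6) (nat_lit
  3384) (nat_lit 11) nil nil) (node (nat_lit 2) (nat_lit 3351) (nat_lit 10) (node (nat_lit 6)
  (nat_lit 3351) (nat_lit 11) nil nil) (node (nat_lit 5) (nat_lit 3384) (nat_lit 10) nil nil)))
  (node (nat_lit 5) (nat_lit 3370) (nat_lit 9) (node (nat_lit 2) (nat_lit 3370) (nat_lit 10) (node
  (nat_lit 5) (nat_lit 3396) (nat_lit 11) nil nil) (node (nat_lit 0) (nat_lit 3384) (nat_lit 10)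
  (node (nat_lit 5) (nat_lit 3396) (nat_lit 11) nil nil) nil)) (node (nat_lit 2) (nat_lit 3351)
  (nat_lit 9) (node (nat_lit 6) (nat_lit 3351) (nat_lit 10) nil (node (nat_lit 5) (nat_lit 3384)
  (nat_lit 10) (node (nat_lit 4) (nat_lit 3396) (nat_lit 11) (node (nat_lit 5) (nat_lit 3401)
  (nat_lit 12) (node (nat_lit 6) (nat_lit 3401) (nat_lit 13) nil nil) nil) nil) nil)) (node
  (nat_lit 0) (nat_lit 3370) (nat_lit 9) (node (nat_lit 6) (nat_lit 3370) (nat_lit 10) nil (node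
  (nat_lit 5) (nat_lit 3384) (nat_lit 10) (node (nat_lit 4) (nat_lit 3396) (nat_lit 11) (node
  (nat_lit 5) (nat_lit 3401) (nat_lit 12) (node (nat_lit 6) (nat_lit 3401) (nat_lit 13) nil nil)
  nil) nil) nil)) nil)))) (node (nat_lit 2) (nat_lit 3312) (nat_lit 8) (node (nat_lit 5) (nat_lit
  3375) (nat_lit 9) (node (nat_lit 4) (nat_lit 3379) (nat_lit 10) (node (nat_lit 5) (nat_lit 3383)
  (nat_lit 11) (node (nat_lit 6) (nat_lit 3383) (nat_lit 12) nil nil) nil) nil) (node (nat_lit 6)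
  (nat_lit 3312) (nat_lit 9) (node (nat_lit 4) (nat_lit 3379) (nat_lit 10) (node (nat_lit 5)
  (nat_lit 3383) (nat_lit 11) (node (nat_lit 6) (nat_lit 3277) (nat_lit 12) nil nil) nil) nil)
  nil)) (node (nat_lit 0) (nat_lit 3394) (nat_lit 8) (node (nat_lit 5) (nat_lit 3401) (nat_lit 9)
  (node (nat_lit 4) (nat_lit 3401) (nat_lit 10) (node (nat_lit 5) (nat_lit 3401) (nat_lit 11)
  (node (nat_lit 6) (nat_lit 3401) (nat_lit 12) nil nil) nil) nil) (node (nat_lit 6) (nat_lit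
  3394) (nat_lit 9) (node (nat_lit 4) (nat_lit 3401) (nat_lit 10) (node (nat_lit 5) (nat_lit 3401)
  (nat_lit 11) (node (nat_lit 6) (nat_lit 3401) (nat_lit 12) nil nil) nil) nil) nil)) nil))) nil)
  nil)) nil) nil)) (node (nat_lit 4) (nat_lit 0) (nat_lit 3) (node (nat_lit 3) (nat_lit 0)
  (nat_lit 4) (node (nat_lit 5) (nat_lit 0) (nat_lit 5) (node (nat_lit 7) (nat_lit 0) (nat_lit 6)
  (node (nat_lit 4) (nat_lit 0) (nat_lit 7) (node (nat_lit 5) (nat_lit 3348) (nat_lit 8) (node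
  (nat_lit 4) (nat_lit 3367) (nat_lit 9) nil nil) (node (nat_lit 7) (nat_lit 3323) (nat_lit 8) nil
  (node (nat_lit 2) (nat_lit 3354) (nat_lit 8) nil (node (nat_lit 0) (nat_lit 3372) (nat_lit 8)
  nil nil)))) nil) (node (nat_lit 4) (nat_lit 0) (nat_lit 6) (node (nat_lit 5) (nat_lit 0)
  (nat_lit 7) (node (nat_lit 7) (nat_lit 0) (nat_lit 8) (node (nat_lit 4) (nat_lit 3367) (nat_lit
  9) (node (nat_lit 5) (nat_lit 3382) (nat_lit 10) nil nil) (node (nat_lit 5) (nat_lit 3367)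
  (nat_lit 9) (node (nat_lit 0) (nat_lit 3382) (nat_lit 10) nil (node (nat_lit 2) (nat_lit 3367)
  (nat_lit 10) nil nil)) (node (nat_lit 2) (nat_lit 3323) (nat_lit 9) nil (node (nat_lit 0)
  (nat_lit 3367) (nat_lit 9) nil nil)))) (node (nat_lit 2) (nat_lit 3380) (nat_lit 8) (node
  (nat_lit 7) (nat_lit 3380) (nat_lit 9) (node (nat_lit 4) (nat_lit 3406) (nat_lit 10) (node
  (nat_lit 5) (nat_lit 3408) (nat_lit 11) (node (nat_lit 4) (nat_lit 3410) (nat_lit 12) (node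
  (nat_lit 7) (nat_lit 3209) (nat_lit 13) nil nil) nil) nil) nil) nil) (node (nat_lit 0) (nat_lit
  3395) (nat_lit 8) (node (nat_lit 7) (nat_lit 3395) (nat_lit 9) (node (nat_lit 4) (nat_lit 3406)
  (nat_lit 10) (node (nat_lit 5) (nat_lit 3408) (nat_lit 11) (node (nat_lit 4) (nat_lit 3410)
  (nat_lit 12) (node (nat_lit 7) (nat_lit 3410) (nat_lit 13) nil nil) nil) nil) nil) nil) nil)))
  nil) nil)) (node (nat_lit 4) (nat_lit 0) (nat_lit 5) (node (nat_lit 5) (nat_lit 3235) (nat_lit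
  6) nil nil) nil)) nil) nil)) (node (nat_lit 3) (nat_lit 0) (nat_lit 2) (node (nat_lit 1)
  (nat_lit 0) (nat_lit 3) (node (nat_lit 4) (nat_lit 0) (nat_lit 4) (node (nat_lit 6) (nat_lit 0)
  (nat_lit 5) (node (nat_lit 5) (nat_lit 0) (nat_lit 6) (node (nat_lit 4) (nat_lit 0) (nat_lit 7)
  (node (nat_lit 5) (nat_lit 6416) (nat_lit 8) (node (nat_lit 6) (nat_lit 6518) (nat_lit 9) (node
  (nat_lit 4) (nat_lit 6598) (nat_lit 10) nil nil) nil) (node (nat_lit 6) (nat_lit 6416) (nat_lit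
  8) (node (nat_lit 4) (nat_lit 6518) (nat_lit 9) (node (nat_lit 5) (nat_lit 6598) (nat_lit 10)
  nil nil) nil) (node (nat_lit 2) (nat_lit 6431) (nat_lit 8) nil (node (nat_lit 0) (nat_lit 6646)
  (nat_lit 8) nil nil)))) (node (nat_lit 6) (nat_lit 0) (nat_lit 7) (node (nat_lit 4) (nat_lit 0)
  (nat_lit 8) (node (nat_lit 5) (nat_lit 0) (nat_lit 9) (node (nat_lit 0) (nat_lit 6598) (nat_lit
  10) (node (nat_lit 5) (nat_lit 6661) (nat_lit 11) nil nil) (node (nat_lit 2) (nat_lit 6448)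
  (nat_lit 10) (node (nat_lit 5) (nat_lit 6510) (nat_lit 11) nil nil) (node (nat_lit 4) (nat_lit
  0) (nat_lit 10) (node (nat_lit 2) (nat_lit 6540) (nat_lit 11) nil (node (nat_lit 0) (nat_lit
  6661) (nat_lit 11) nil nil)) (node (nat_lit 6) (nat_lit 6598) (nat_lit 10) nil nil)))) (node
  (nat_lit 2) (nat_lit 6518) (nat_lit 9) (node (nat_lit 6) (nat_lit 6598) (nat_lit 10) nil (node
  (nat_lit 5) (nat_lit 6598) (nat_lit 10) nil (node (nat_lit 4) (nat_lit 6598) (nat_lit 10) nil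
  nil))) (node (nat_lit 0) (nat_lit 6518) (nat_lit 9) nil nil))) (node (nat_lit 0) (nat_lit 6646)
  (nat_lit 8) (node (nat_lit 6) (nat_lit 6700) (nat_lit 9) nil nil) (node (nat_lit 2) (nat_lit
  6646) (nat_lit 8) (node (nat_lit 6) (nat_lit 6700) (nat_lit 9) nil nil) nil))) nil)) nil) (node
  (nat_lit 5) (nat_lit 2875) (nat_lit 5) nil nil)) (node (nat_lit 5) (nat_lit 0) (nat_lit 4) (node
  (nat_lit 4) (nat_lit 0) (nat_lit 5) (node (nat_lit 6) (nat_lit 0) (nat_lit 6) (node (nat_lit 4)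
  (nat_lit 8163) (nat_lit 7) (node (nat_lit 5) (nat_lit 8163) (nat_lit 8) (node (nat_lit 6)
  (nat_lit 8181) (nat_lit 9) (node (nat_lit 5) (nat_lit 8181) (nat_lit 10) nil nil) (node (nat_lit
  4) (nat_lit 8181) (nat_lit 9) (node (nat_lit 6) (nat_lit 8185) (nat_lit 10) nil nil) nil)) nil)
  (node (nat_lit 5) (nat_lit 0) (nat_lit 7) (node (nat_lit 6) (nat_lit 8173) (nat_lit 8) (node
  (nat_lit 4) (nat_lit 8181) (nat_lit 9) (node (nat_lit 5) (nat_lit 8181) (nat_lit 10) nil nil)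
  nil) (node (nat_lit 2) (nat_lit 8165) (nat_lit 8) nil (node (nat_lit 0) (nat_lit 8185) (nat_lit
  8) nil nil))) nil)) (node (nat_lit 5) (nat_lit 0) (nat_lit 6) (node (nat_lit 6) (nat_lit 4658)
  (nat_lit 7) nil nil) nil)) nil) nil)) (node (nat_lit 4) (nat_lit 0) (nat_lit 3) (node (nat_lit
  1) (nat_lit 0) (nat_lit 4) (node (nat_lit 5) (nat_lit 0) (nat_lit 5) (node (nat_lit 7) (nat_lit
  0) (nat_lit 6) (node (nat_lit 4) (nat_lit 4819) (nat_lit 7) (node (nat_lit 5) (nat_lit 4819)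
  (nat_lit 8) (node (nat_lit 4) (nat_lit 4819) (nat_lit 9) (node (nat_lit 7) (nat_lit 2974)
  (nat_lit 10) nil nil) nil) nil) nil) (node (nat_lit 4) (nat_lit 4329) (nat_lit 6) nil nil))
  (node (nat_lit 4) (nat_lit 0) (nat_lit 5) (node (nat_lit 5) (nat_lit 0) (nat_lit 6) (node
  (nat_lit 7) (nat_lit 4819) (nat_lit 7) nil nil) nil) nil)) nil) nil)) nil)) (node (nat_lit 3)
  (nat_lit 0) (nat_lit 1) (node (nat_lit 1) (nat_lit 0) (nat_lit 2) (node (nat_lit 1) (nat_lit 0)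
  (nat_lit 3) (node (nat_lit 4) (nat_lit 0) (nat_lit 4) (node (nat_lit 6) (nat_lit 0) (nat_lit 5)
  (node (nat_lit 5) (nat_lit 8378) (nat_lit 6) (node (nat_lit 4) (nat_lit 8647) (nat_lit 7) (node
  (nat_lit 5) (nat_lit 8781) (nat_lit 8) (node (nat_lit 6) (nat_lit 8830) (nat_lit 9) (node
  (nat_lit 4) (nat_lit 8865) (nat_lit 10) nil nil) nil) nil) nil) nil) (node (nat_lit 5) (nat_lit
  0) (nat_lit 5) (node (nat_lit 4) (nat_lit 0) (nat_lit 6) (node (nat_lit 6) (nat_lit 0) (nat_lit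
  7) (node (nat_lit 5) (nat_lit 3186) (nat_lit 8) (node (nat_lit 4) (nat_lit 3293) (nat_lit 9)
  (node (nat_lit 5) (nat_lit 3357) (nat_lit 10) nil nil) nil) (node (nat_lit 4) (nat_lit 0)
  (nat_lit 8) (node (nat_lit 5) (nat_lit 3313) (nat_lit 9) nil (node (nat_lit 0) (nat_lit 3313)
  (nat_lit 9) nil (node (nat_lit 2) (nat_lit 3157) (nat_lit 9) nil nil))) (node (nat_lit 2)
  (nat_lit 3372) (nat_lit 8) nil (node (nat_lit 0) (nat_lit 3399) (nat_lit 8) nil nil)))) nil)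
  nil) nil)) (node (nat_lit 5) (nat_lit 0) (nat_lit 4) (node (nat_lit 4) (nat_lit 0) (nat_lit 5)
  (node (nat_lit 6) (nat_lit 0) (nat_lit 6) (node (nat_lit 4) (nat_lit 8678) (nat_lit 7) (node
  (nat_lit 5) (nat_lit 8710) (nat_lit 8) (node (nat_lit 6) (nat_lit 8101) (nat_lit 9) (node
  (nat_lit 5) (nat_lit 7302) (nat_lit 10) nil nil) nil) nil) (node (nat_lit 5) (nat_lit 8678)
  (nat_lit 7) (node (nat_lit 6) (nat_lit 8741) (nat_lit 8) (node (nat_lit 4) (nat_lit 8790)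
  (nat_lit 9) (node (nat_lit 5) (nat_lit 8825) (nat_lit 10) nil nil) nil) nil) nil)) (node
  (nat_lit 5) (nat_lit 0) (nat_lit 6) (node (nat_lit 6) (nat_lit 4935) (nat_lit 7) nil nil) nil))
  nil) nil)) (node (nat_lit 4) (nat_lit 0) (nat_lit 3) (node (nat_lit 1) (nat_lit 0) (nat_lit 4)
  (node (nat_lit 5) (nat_lit 0) (nat_lit 5) (node (nat_lit 7) (nat_lit 0) (nat_lit 6) (node
  (nat_lit 4) (nat_lit 4655) (nat_lit 7) (node (nat_lit 5) (nat_lit 4655) (nat_lit 8) (node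
  (nat_lit 4) (nat_lit 4655) (nat_lit 9) nil nil) nil) nil) (node (nat_lit 4) (nat_lit 4329)
  (nat_lit 6) nil nil)) (node (nat_lit 4) (nat_lit 0) (nat_lit 5) (node (nat_lit 5) (nat_lit 0)
  (nat_lit 6) (node (nat_lit 7) (nat_lit 2762) (nat_lit 7) (node (nat_lit 5) (nat_lit 2941)
  (nat_lit 8) nil (node (nat_lit 4) (nat_lit 2941) (nat_lit 8) nil nil)) nil) nil) nil)) nil)
  nil)) nil) nil))

end Pool.Agent.Work.MP_7cb3ca_co.P3.D
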