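import Pool.Agent.Work.MP_7cb3ca_co.P3.DT0
import Pool.Agent.Work.MP_7cb3ca_co.P3.DT1
import Pool.Agent.Work.MP_7cb3ca_co.P3.DT2
import Pool.Agent.Work.MP_7cb3ca_co.P3.DT3
import Pool.Agent.Work.MP_7cb3ca_co.P3.DT4
import Pool.Agent.Work.MP_7cb3ca_co.P3.DT5
import Pool.Agent.Work.MP_7cb3ca_co.P3.DT6
import Pool.Agent.Work.MP_7cb3ca_co.P3.DT7
import Pool.Agent.Work.MP_7cb3ca_co.P3.DT8
import Pool.Agent.Work.MP_7cb3ca_co.P3.DR

namespace Pool.Agent.Work.MP_7cb3ca_co.P3.D
open TT

noncomputable def tries : TT :=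
  (node (node (node (node (node (node (node (leaf c0) (leaf c64)) (node (leaf c32) (leaf Tr.nil)))
  (node (node (leaf c16) (leaf c80)) (node (leaf c48) (leaf Tr.nil)))) (node (node (node (leaf c8)
  (leaf c72)) (node (leaf c40) (leaf Tr.nil))) (node (node (leaf c24) (leaf c88)) (node (leaf c56)
  (leaf Tr.nil))))) (node (node (node (node (leaf c4) (leaf c68)) (node (leaf c36) (leaf Tr.nil)))
  (node (node (leaf c20) (leaf c84)) (node (leaf c52) (leaf Tr.nil)))) (node (node (node (leaf
  c12) (leaf c76)) (node (leaf c44) (leaf Tr.nil))) (node (node (leaf c28) (leaf Tr.nil)) (node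
  (leaf c60) (leaf Tr.nil)))))) (node (node (node (node (node (leaf c2) (leaf c66)) (node (leaf
  c34) (leaf Tr.nil))) (node (node (leaf c18) (leaf c82)) (node (leaf c50) (leaf Tr.nil)))) (node
  (node (node (leaf c10) (leaf c74)) (node (leaf c42) (leaf Tr.nil))) (node (node (leaf c26) (leaf
  Tr.nil)) (node (leaf c58) (leaf Tr.nil))))) (node (node (node (node (leaf c6) (leaf c70)) (node
  (leaf c38) (leaf Tr.nil))) (node (node (leaf c22) (leaf c86)) (node (leaf c54) (leaf Tr.nil))))
  (node (node (node (leaf c14) (leaf c78)) (node (leaf c46) (leaf Tr.nil))) (node (node (leaf c30)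
  (leaf Tr.nil)) (node (leaf c62) (leaf Tr.nil))))))) (node (node (node (node (node (node (leaf
  c1) (leaf c65)) (node (leaf c33) (leaf Tr.nil))) (node (node (leaf c17) (leaf c81)) (node (leaf
  c49) (leaf Tr.nil)))) (node (node (node (leaf c9) (leaf c73)) (node (leaf c41) (leaf Tr.nil)))
  (node (node (leaf c25) (leaf c89)) (node (leaf c57) (leaf Tr.nil))))) (node (node (node (node
  (leaf c5) (leaf c69)) (node (leaf c37) (leaf Tr.nil))) (node (node (leaf c21) (leaf c85)) (node
  (leaf c53) (leaf Tr.nil)))) (node (node (node (leaf c13) (leaf c77)) (node (leaf c45) (leaf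
  Tr.nil))) (node (node (leaf c29) (leaf Tr.nil)) (node (leaf c61) (leaf Tr.nil)))))) (node (node
  (node (node (node (leaf c3) (leaf c67)) (node (leaf c35) (leaf Tr.nil))) (node (node (leaf c19)
  (leaf c83)) (node (leaf c51) (leaf Tr.nil)))) (node (node (node (leaf c11) (leaf c75)) (node
  (leaf c43) (leaf Tr.nil))) (node (node (leaf c27) (leaf Tr.nil)) (node (leaf c59) (leaf
  Tr.nil))))) (node (node (node (node (leaf c7) (leaf c71)) (node (leaf c39) (leaf Tr.nil))) (node
  (node (leaf c23) (leaf c87)) (node (leaf c55) (leaf Tr.nil)))) (node (node (node (leaf c15)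
  (leaf c79)) (node (leaf c47) (leaf Tr.nil))) (node (node (leaf c31) (leaf Tr.nil)) (node (leaf
  c63) (leaf Tr.nil))))))))

noncomputable def TR : Nat → Tr := tries.get

end Pool.Agent.Work.MP_7cb3ca_co.P3.D
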