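import Pool.Agent.Work.MP_7cb3ca_co.P3.Defs

namespace Pool.Agent.Work.MP_7cb3ca_co.P3.D
open Tr
set_option maxRecDepth 100000

noncomputable def t1 : Tr :=
  (node (nat_lit 3) (nat_lit 0) (nat_lit 3) (node (nat_lit 4) (nat_lit 0) (nat_lit 4) (node
  (nat_lit 6) (nat_lit 80638) (nat_lit 5) (node (nat_lit 5) (nat_lit 88151) (nat_lit 6) (node
  (nat_lit 4) (nat_lit 90766) (nat_lit 7) (node (nat_lit 6) (nat_lit 90547) (nat_lit 8) (node
  (nat_lit 4) (nat_lit 89993) (nat_lit 9) (node (nat_lit 5) (nat_lit 90362) (nat_lit 10) (node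
  (nat_lit 6) (nat_lit 87948) (nat_lit 11) (node (nat_lit 4) (nat_lit 82269) (nat_lit 12) (node
  (nat_lit 6) (nat_lit 73812) (nat_lit 13) (node (nat_lit 5) (nat_lit 55789) (nat_lit 14) nil nil)
  nil) nil) nil) nil) nil) nil) nil) (node (nat_lit 1) (nat_lit 87880) (nat_lit 6) (node (nat_lit
  4) (nat_lit 82695) (nat_lit 7) (node (nat_lit 9) (nat_lit 84903) (nat_lit 8) (node (nat_lit 6)
  (nat_lit 84903) (nat_lit 9) (node (nat_lit 9) (nat_lit 85753) (nat_lit 10) (node (nat_lit 4)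
  (nat_lit 85753) (nat_lit 11) nil nil) nil) nil) (node (nat_lit 5) (nat_lit 81669) (nat_lit 8)
  (node (nat_lit 6) (nat_lit 73717) (nat_lit 9) (node (nat_lit 4) (nat_lit 36156) (nat_lit 10)
  (node (nat_lit 6) (nat_lit 22935) (nat_lit 11) nil nil) nil) nil) nil)) nil) nil)) (node
  (nat_lit 5) (nat_lit 52584) (nat_lit 5) (node (nat_lit 4) (nat_lit 50737) (nat_lit 6) nil (node
  (nat_lit 1) (nat_lit 53627) (nat_lit 6) nil nil)) (node (nat_lit 1) (nat_lit 82033) (nat_lit 5)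
  (node (nat_lit 4) (nat_lit 79548) (nat_lit 6) (node (nat_lit 6) (nat_lit 76782) (nat_lit 7) nil
  (node (nat_lit 5) (nat_lit 72501) (nat_lit 7) (node (nat_lit 6) (nat_lit 63141) (nat_lit 8) nil
  nil) nil)) nil) (node (nat_lit 0) (nat_lit 83515) (nat_lit 5) nil (node (nat_lit 2) (nat_lit
  81851) (nat_lit 5) (node (nat_lit 6) (nat_lit 77010) (nat_lit 6) (node (nat_lit 4) (nat_lit
  72047) (nat_lit 7) (node (nat_lit 5) (nat_lit 66305) (nat_lit 8) (node (nat_lit 6) (nat_lit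
  58719) (nat_lit 9) nil nil) nil) nil) nil) nil))))) (node (nat_lit 5) (nat_lit 0) (nat_lit 4)
  (node (nat_lit 4) (nat_lit 82577) (nat_lit 5) (node (nat_lit 6) (nat_lit 86386) (nat_lit 6)
  (node (nat_lit 4) (nat_lit 87728) (nat_lit 7) (node (nat_lit 5) (nat_lit 88703) (nat_lit 8)
  (node (nat_lit 6) (nat_lit 77770) (nat_lit 9) (node (nat_lit 5) (nat_lit 64688) (nat_lit 10)
  (node (nat_lit 4) (nat_lit 48497) (nat_lit 11) nil nil) (node (nat_lit 4) (nat_lit 77596)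
  (nat_lit 10) (node (nat_lit 6) (nat_lit 77448) (nat_lit 11) (node (nat_lit 5) (nat_lit 78058)
  (nat_lit 12) (node (nat_lit 6) (nat_lit 77988) (nat_lit 13) (node (nat_lit 4) (nat_lit 77940)
  (nat_lit 14) (node (nat_lit 5) (nat_lit 78229) (nat_lit 15) (node (nat_lit 6) (nat_lit 78201)
  (nat_lit 16) (node (nat_lit 5) (nat_lit 78372) (nat_lit 17) (node (nat_lit 4) (nat_lit 78197)
  (nat_lit 18) (node (nat_lit 6) (nat_lit 78142) (nat_lit 19) (node (nat_lit 4) (nat_lit 78111)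
  (nat_lit 20) (node (nat_lit 5) (nat_lit 78059) (nat_lit 21) (node (nat_lit 6) (nat_lit 77959)
  (nat_lit 22) (node (nat_lit 4) (nat_lit 77954) (nat_lit 23) (node (nat_lit 6) (nat_lit 77949)
  (nat_lit 24) (node (nat_lit 5) (nat_lit 46658) (nat_lit 25) nil nil) nil) nil) nil) nil) nil)
  nil) nil) nil) nil) nil) nil) nil) nil) nil) nil)) (node (nat_lit 4) (nat_lit 87410) (nat_lit 9)
  (node (nat_lit 6) (nat_lit 86348) (nat_lit 10) (node (nat_lit 5) (nat_lit 86673) (nat_lit 11)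
  (node (nat_lit 6) (nat_lit 86029) (nat_lit 12) (node (nat_lit 4) (nat_lit 85541) (nat_lit 13)
  (node (nat_lit 5) (nat_lit 85727) (nat_lit 14) (node (nat_lit 6) (nat_lit 85440) (nat_lit 15)
  (node (nat_lit 5) (nat_lit 85543) (nat_lit 16) (node (nat_lit 4) (nat_lit 85367) (nat_lit 17)
  (node (nat_lit 6) (nat_lit 85230) (nat_lit 18) (node (nat_lit 4) (nat_lit 85123) (nat_lit 19)
  (node (nat_lit 5) (nat_lit 85160) (nat_lit 20) (node (nat_lit 4) (nat_lit 85094) (nat_lit 21)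
  (node (nat_lit 6) (nat_lit 85043) (nat_lit 22) (node (nat_lit 5) (nat_lit 47069) (nat_lit 23)
  nil nil) nil) nil) nil) nil) nil) nil) nil) nil) nil) nil) nil) nil) nil) nil)) nil) (node
  (nat_lit 5) (nat_lit 90617) (nat_lit 7) (node (nat_lit 6) (nat_lit 89463) (nat_lit 8) (node
  (nat_lit 4) (nat_lit 88170) (nat_lit 9) (node (nat_lit 5) (nat_lit 88539) (nat_lit 10) (node
  (nat_lit 4) (nat_lit 87696) (nat_lit 11) (node (nat_lit 6) (nat_lit 87052) (nat_lit 12) (node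
  (nat_lit 4) (nat_lit 86564) (nat_lit 13) (node (nat_lit 5) (nat_lit 86750) (nat_lit 14) (node
  (nat_lit 6) (nat_lit 86463) (nat_lit 15) (node (nat_lit 5) (nat_lit 86566) (nat_lit 16) (node
  (nat_lit 4) (nat_lit 86306) (nat_lit 17) (node (nat_lit 6) (nat_lit 83272) (nat_lit 18) (node
  (nat_lit 5) (nat_lit 80232) (nat_lit 19) (node (nat_lit 6) (nat_lit 73984) (nat_lit 20) (node
  (nat_lit 4) (nat_lit 64746) (nat_lit 21) (node (nat_lit 5) (nat_lit 55263) (nat_lit 22) nil nil)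
  nil) nil) nil) nil) nil) nil) nil) nil) nil) nil) nil) nil) nil) nil) nil)) (node (nat_lit 1)
  (nat_lit 87885) (nat_lit 6) (node (nat_lit 4) (nat_lit 76600) (nat_lit 7) (node (nat_lit 5)
  (nat_lit 72005) (nat_lit 8) nil nil) nil) nil)) (node (nat_lit 1) (nat_lit 86475) (nat_lit 5)
  (node (nat_lit 6) (nat_lit 86815) (nat_lit 6) (node (nat_lit 8) (nat_lit 87367) (nat_lit 7)
  (node (nat_lit 5) (nat_lit 88731) (nat_lit 8) nil nil) (node (nat_lit 4) (nat_lit 85852)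
  (nat_lit 7) (node (nat_lit 5) (nat_lit 87216) (nat_lit 8) nil nil) nil)) (node (nat_lit 4)
  (nat_lit 85658) (nat_lit 6) (node (nat_lit 5) (nat_lit 87731) (nat_lit 7) nil nil) nil)) (node
  (nat_lit 0) (nat_lit 88647) (nat_lit 5) nil (node (nat_lit 2) (nat_lit 86038) (nat_lit 5) nil
  nil)))) (node (nat_lit 1) (nat_lit 0) (nat_lit 4) (node (nat_lit 5) (nat_lit 88285) (nat_lit 5)
  (node (nat_lit 7) (nat_lit 91325) (nat_lit 6) (node (nat_lit 6) (nat_lit 90361) (nat_lit 7) nil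
  nil) (node (nat_lit 6) (nat_lit 91325) (nat_lit 6) nil nil)) (node (nat_lit 4) (nat_lit 76838)
  (nat_lit 5) (node (nat_lit 5) (nat_lit 49755) (nat_lit 6) (node (nat_lit 4) (nat_lit 49080)
  (nat_lit 7) (node (nat_lit 6) (nat_lit 46836) (nat_lit 8) nil nil) nil) (node (nat_lit 6)
  (nat_lit 78523) (nat_lit 6) nil nil)) (node (nat_lit 6) (nat_lit 85968) (nat_lit 5) (node
  (nat_lit 4) (nat_lit 88532) (nat_lit 6) (node (nat_lit 7) (nat_lit 84576) (nat_lit 7) nil (node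
  (nat_lit 5) (nat_lit 90008) (nat_lit 7) (node (nat_lit 6) (nat_lit 88433) (nat_lit 8) nil nil)
  nil)) nil) (node (nat_lit 0) (nat_lit 82500) (nat_lit 5) nil (node (nat_lit 2) (nat_lit 79576)
  (nat_lit 5) nil nil))))) (node (nat_lit 0) (nat_lit 80607) (nat_lit 4) (node (nat_lit 5)
  (nat_lit 87892) (nat_lit 5) nil (node (nat_lit 6) (nat_lit 82912) (nat_lit 5) (node (nat_lit 4)
  (nat_lit 81873) (nat_lit 6) (node (nat_lit 5) (nat_lit 83648) (nat_lit 7) (node (nat_lit 6)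
  (nat_lit 82073) (nat_lit 8) nil nil) nil) nil) (node (nat_lit 4) (nat_lit 83997) (nat_lit 5) nil
  (node (nat_lit 1) (nat_lit 86230) (nat_lit 5) nil nil)))) (node (nat_lit 2) (nat_lit 79043)
  (nat_lit 4) (node (nat_lit 5) (nat_lit 88264) (nat_lit 5) nil (node (nat_lit 6) (nat_lit 82211)
  (nat_lit 5) (node (nat_lit 4) (nat_lit 78897) (nat_lit 6) (node (nat_lit 5) (nat_lit 70927)
  (nat_lit 7) (node (nat_lit 6) (nat_lit 47149) (nat_lit 8) nil nil) nil) (node (nat_lit 1)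
  (nat_lit 79165) (nat_lit 6) nil nil)) (node (nat_lit 4) (nat_lit 78645) (nat_lit 5) (node
  (nat_lit 6) (nat_lit 80003) (nat_lit 6) (node (nat_lit 4) (nat_lit 72930) (nat_lit 7) nil nil)
  nil) (node (nat_lit 1) (nat_lit 83794) (nat_lit 5) (node (nat_lit 4) (nat_lit 75130) (nat_lit 6)
  (node (nat_lit 5) (nat_lit 61568) (nat_lit 7) nil nil) nil) nil)))) nil))))) (node (nat_lit 4)
  (nat_lit 0) (nat_lit 3) (node (nat_lit 1) (nat_lit 0) (nat_lit 4) (node (nat_lit 4) (nat_lit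
  78744) (nat_lit 5) (node (nat_lit 5) (nat_lit 61168) (nat_lit 6) (node (nat_lit 4) (nat_lit
  27965) (nat_lit 7) nil (node (nat_lit 7) (nat_lit 62968) (nat_lit 7) (node (nat_lit 5) (nat_lit
  64837) (nat_lit 8) (node (nat_lit 4) (nat_lit 65946) (nat_lit 9) (node (nat_lit 5) (nat_lit
  66810) (nat_lit 10) (node (nat_lit 7) (nat_lit 67485) (nat_lit 11) (node (nat_lit 4) (nat_lit
  68012) (nat_lit 12) (node (nat_lit 5) (nat_lit 68423) (nat_lit 13) (node (nat_lit 4) (nat_lit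
  68181) (nat_lit 14) (node (nat_lit 7) (nat_lit 68361) (nat_lit 15) (node (nat_lit 4) (nat_lit
  68225) (nat_lit 16) (node (nat_lit 5) (nat_lit 68276) (nat_lit 17) (node (nat_lit 7) (nat_lit
  68395) (nat_lit 18) (node (nat_lit 5) (nat_lit 68488) (nat_lit 19) (node (nat_lit 4) (nat_lit
  68435) (nat_lit 20) nil nil) nil) nil) nil) nil) nil) nil) nil) nil) nil) nil) nil) nil) (node
  (nat_lit 3) (nat_lit 65655) (nat_lit 7) nil nil))) (node (nat_lit 3) (nat_lit 78811) (nat_lit 6)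
  nil nil)) (node (nat_lit 5) (nat_lit 80294) (nat_lit 5) (node (nat_lit 7) (nat_lit 83060)
  (nat_lit 6) (node (nat_lit 4) (nat_lit 86739) (nat_lit 7) (node (nat_lit 5) (nat_lit 87378)
  (nat_lit 8) (node (nat_lit 4) (nat_lit 86165) (nat_lit 9) (node (nat_lit 7) (nat_lit 86502)
  (nat_lit 10) (node (nat_lit 5) (nat_lit 29338) (nat_lit 11) nil nil) nil) nil) nil) nil) nil)
  (node (nat_lit 3) (nat_lit 85693) (nat_lit 5) (node (nat_lit 4) (nat_lit 83908) (nat_lit 6)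
  (node (nat_lit 5) (nat_lit 84880) (nat_lit 7) nil nil) nil) (node (nat_lit 0) (nat_lit 86360)
  (nat_lit 5) nil (node (nat_lit 2) (nat_lit 83769) (nat_lit 5) nil nil))))) (node (nat_lit 3)
  (nat_lit 0) (nat_lit 4) (node (nat_lit 4) (nat_lit 63616) (nat_lit 5) (node (nat_lit 5) (nat_lit
  61907) (nat_lit 6) (node (nat_lit 4) (nat_lit 49333) (nat_lit 7) nil (node (nat_lit 7) (nat_lit
  63389) (nat_lit 7) (node (nat_lit 5) (nat_lit 64469) (nat_lit 8) (node (nat_lit 4) (nat_lit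
  65312) (nat_lit 9) (node (nat_lit 5) (nat_lit 65970) (nat_lit 10) (node (nat_lit 7) (nat_lit
  66484) (nat_lit 11) (node (nat_lit 4) (nat_lit 66884) (nat_lit 12) (node (nat_lit 5) (nat_lit
  67197) (nat_lit 13) (node (nat_lit 4) (nat_lit 67013) (nat_lit 14) (node (nat_lit 7) (nat_lit
  67149) (nat_lit 15) (node (nat_lit 4) (nat_lit 67046) (nat_lit 16) (node (nat_lit 5) (nat_lit
  67085) (nat_lit 17) (node (nat_lit 7) (nat_lit 67175) (nat_lit 18) (node (nat_lit 5) (nat_lit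
  67246) (nat_lit 19) (node (nat_lit 4) (nat_lit 67206) (nat_lit 20) nil nil) nil) nil) nil) nil)
  nil) nil) nil) nil) nil) nil) nil) nil) nil)) (node (nat_lit 1) (nat_lit 71699) (nat_lit 6) nil
  nil)) (node (nat_lit 5) (nat_lit 72790) (nat_lit 5) (node (nat_lit 7) (nat_lit 78618) (nat_lit
  6) (node (nat_lit 4) (nat_lit 81095) (nat_lit 7) (node (nat_lit 5) (nat_lit 83153) (nat_lit 8)
  (node (nat_lit 4) (nat_lit 81148) (nat_lit 9) (node (nat_lit 7) (nat_lit 80948) (nat_lit 10)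
  (node (nat_lit 5) (nat_lit 47564) (nat_lit 11) nil nil) nil) nil) nil) nil) nil) (node (nat_lit
  1) (nat_lit 83664) (nat_lit 5) (node (nat_lit 4) (nat_lit 84076) (nat_lit 6) (node (nat_lit 5)
  (nat_lit 72113) (nat_lit 7) (node (nat_lit 4) (nat_lit 34147) (nat_lit 8) nil nil) nil) (node
  (nat_lit 5) (nat_lit 85169) (nat_lit 6) nil nil)) (node (nat_lit 0) (nat_lit 83664) (nat_lit 5)
  nil (node (nat_lit 2) (nat_lit 81433) (nat_lit 5) nil nil))))) (node (nat_lit 0) (nat_lit 81424)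
  (nat_lit 4) nil (node (nat_lit 2) (nat_lit 75715) (nat_lit 4) (node (nat_lit 5) (nat_lit 78941)
  (nat_lit 5) nil (node (nat_lit 4) (nat_lit 78935) (nat_lit 5) nil (node (nat_lit 1) (nat_lit
  84183) (nat_lit 5) (node (nat_lit 7) (nat_lit 81886) (nat_lit 6) nil nil) (node (nat_lit 3)
  (nat_lit 81828) (nat_lit 5) (node (nat_lit 4) (nat_lit 78945) (nat_lit 6) (node (nat_lit 5)
  (nat_lit 69792) (nat_lit 7) (node (nat_lit 4) (nat_lit 46607) (nat_lit 8) nil nil) nil) (node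
  (nat_lit 7) (nat_lit 82801) (nat_lit 6) nil nil)) nil)))) nil)))) (node (nat_lit 0) (nat_lit 0)
  (nat_lit 3) (node (nat_lit 5) (nat_lit 82991) (nat_lit 4) (node (nat_lit 1) (nat_lit 87707)
  (nat_lit 5) (node (nat_lit 4) (nat_lit 86553) (nat_lit 6) nil nil) (node (nat_lit 3) (nat_lit
  83610) (nat_lit 5) (node (nat_lit 4) (nat_lit 82456) (nat_lit 6) (node (nat_lit 5) (nat_lit
  84587) (nat_lit 7) (node (nat_lit 6) (nat_lit 85990) (nat_lit 8) nil nil) nil) nil) nil)) (node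
  (nat_lit 4) (nat_lit 0) (nat_lit 4) (node (nat_lit 6) (nat_lit 89728) (nat_lit 5) nil (node
  (nat_lit 3) (nat_lit 85945) (nat_lit 5) (node (nat_lit 4) (nat_lit 80620) (nat_lit 6) (node
  (nat_lit 5) (nat_lit 70641) (nat_lit 7) (node (nat_lit 6) (nat_lit 52103) (nat_lit 8) (node
  (nat_lit 4) (nat_lit 49347) (nat_lit 9) nil nil) nil) nil) nil) (node (nat_lit 1) (nat_lit
  82260) (nat_lit 5) (node (nat_lit 4) (nat_lit 80776) (nat_lit 6) (node (nat_lit 5) (nat_lit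
  76148) (nat_lit 7) (node (nat_lit 6) (nat_lit 41687) (nat_lit 8) nil (node (nat_lit 8) (nat_lit
  77085) (nat_lit 8) nil nil)) nil) nil) (node (nat_lit 5) (nat_lit 89734) (nat_lit 5) nil (node
  (nat_lit 0) (nat_lit 86775) (nat_lit 5) nil (node (nat_lit 2) (nat_lit 85566) (nat_lit 5) nil
  nil)))))) (node (nat_lit 1) (nat_lit 80358) (nat_lit 4) (node (nat_lit 4) (nat_lit 83711)
  (nat_lit 5) (node (nat_lit 5) (nat_lit 86636) (nat_lit 6) (node (nat_lit 6) (nat_lit 23970)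
  (nat_lit 7) nil nil) nil) (node (nat_lit 6) (nat_lit 85074) (nat_lit 5) nil (node (nat_lit 5)
  (nat_lit 87083) (nat_lit 5) nil (node (nat_lit 3) (nat_lit 79315) (nat_lit 5) nil nil)))) (node
  (nat_lit 3) (nat_lit 79766) (nat_lit 4) (node (nat_lit 4) (nat_lit 81839) (nat_lit 5) (node
  (nat_lit 5) (nat_lit 84764) (nat_lit 6) (node (nat_lit 6) (nat_lit 48809) (nat_lit 7) nil nil)
  nil) (node (nat_lit 6) (nat_lit 84482) (nat_lit 5) nil (node (nat_lit 5) (nat_lit 84482)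
  (nat_lit 5) (node (nat_lit 7) (nat_lit 83328) (nat_lit 6) nil nil) (node (nat_lit 1) (nat_lit
  84482) (nat_lit 5) nil nil)))) (node (nat_lit 0) (nat_lit 82893) (nat_lit 4) (node (nat_lit 1)
  (nat_lit 87609) (nat_lit 5) nil (node (nat_lit 3) (nat_lit 81850) (nat_lit 5) nil nil)) (node
  (nat_lit 2) (nat_lit 82145) (nat_lit 4) (node (nat_lit 6) (nat_lit 86861) (nat_lit 5) nil (node
  (nat_lit 3) (nat_lit 79297) (nat_lit 5) (node (nat_lit 7) (nat_lit 78380) (nat_lit 6) nil (node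
  (nat_lit 4) (nat_lit 72053) (nat_lit 6) nil (node (nat_lit 1) (nat_lit 79442) (nat_lit 6) nil
  nil))) (node (nat_lit 1) (nat_lit 83293) (nat_lit 5) (node (nat_lit 4) (nat_lit 69494) (nat_lit
  6) nil nil) nil))) nil)))))) (node (nat_lit 2) (nat_lit 0) (nat_lit 3) (node (nat_lit 5)
  (nat_lit 82604) (nat_lit 4) (node (nat_lit 4) (nat_lit 87023) (nat_lit 5) nil (node (nat_lit 1)
  (nat_lit 87707) (nat_lit 5) (node (nat_lit 4) (nat_lit 86553) (nat_lit 6) (node (nat_lit 5)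
  (nat_lit 88684) (nat_lit 7) nil nil) nil) (node (nat_lit 3) (nat_lit 83991) (nat_lit 5) (node
  (nat_lit 4) (nat_lit 82837) (nat_lit 6) (node (nat_lit 5) (nat_lit 84968) (nat_lit 7) (node
  (nat_lit 6) (nat_lit 81818) (nat_lit 8) nil nil) nil) nil) nil))) (node (nat_lit 4) (nat_lit 0)
  (nat_lit 4) (node (nat_lit 6) (nat_lit 82328) (nat_lit 5) (node (nat_lit 3) (nat_lit 83262)
  (nat_lit 6) (node (nat_lit 4) (nat_lit 76865) (nat_lit 7) (node (nat_lit 5) (nat_lit 72032)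
  (nat_lit 8) nil nil) (node (nat_lit 1) (nat_lit 86962) (nat_lit 7) nil nil)) (node (nat_lit 1)
  (nat_lit 88484) (nat_lit 6) nil nil)) (node (nat_lit 1) (nat_lit 85380) (nat_lit 5) (node
  (nat_lit 4) (nat_lit 83211) (nat_lit 6) (node (nat_lit 5) (nat_lit 75169) (nat_lit 7) (node
  (nat_lit 6) (nat_lit 63889) (nat_lit 8) nil nil) nil) nil) (node (nat_lit 3) (nat_lit 81295)
  (nat_lit 5) (node (nat_lit 4) (nat_lit 75163) (nat_lit 6) (node (nat_lit 5) (nat_lit 66207)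
  (nat_lit 7) (node (nat_lit 6) (nat_lit 45811) (nat_lit 8) nil nil) nil) nil) (node (nat_lit 5)
  (nat_lit 87135) (nat_lit 5) nil (node (nat_lit 0) (nat_lit 86240) (nat_lit 5) nil nil))))) (node
  (nat_lit 1) (nat_lit 78842) (nat_lit 4) (node (nat_lit 4) (nat_lit 73891) (nat_lit 5) (node
  (nat_lit 5) (nat_lit 48238) (nat_lit 6) (node (nat_lit 6) (nat_lit 22305) (nat_lit 7) nil (node
  (nat_lit 7) (nat_lit 50370) (nat_lit 7) nil (node (nat_lit 4) (nat_lit 49842) (nat_lit 7) (node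
  (nat_lit 7) (nat_lit 51245) (nat_lit 8) nil nil) nil))) nil) (node (nat_lit 6) (nat_lit 84341)
  (nat_lit 5) (node (nat_lit 4) (nat_lit 82561) (nat_lit 6) nil (node (nat_lit 3) (nat_lit 78888)
  (nat_lit 6) nil nil)) (node (nat_lit 5) (nat_lit 88358) (nat_lit 5) nil (node (nat_lit 3)
  (nat_lit 79315) (nat_lit 5) (node (nat_lit 4) (nat_lit 78161) (nat_lit 6) nil nil) nil)))) (node
  (nat_lit 3) (nat_lit 79306) (nat_lit 4) (node (nat_lit 4) (nat_lit 72371) (nat_lit 5) (node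
  (nat_lit 7) (nat_lit 74620) (nat_lit 6) nil (node (nat_lit 5) (nat_lit 57650) (nat_lit 6) (node
  (nat_lit 6) (nat_lit 50782) (nat_lit 7) nil (node (nat_lit 7) (nat_lit 56744) (nat_lit 7) nil
  (node (nat_lit 4) (nat_lit 53707) (nat_lit 7) nil nil))) nil)) (node (nat_lit 6) (nat_lit 81435)
  (nat_lit 5) nil (node (nat_lit 5) (nat_lit 84482) (nat_lit 5) (node (nat_lit 7) (nat_lit 83328)
  (nat_lit 6) nil nil) (node (nat_lit 1) (nat_lit 81383) (nat_lit 5) (node (nat_lit 4) (nat_lit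
  73200) (nat_lit 6) (node (nat_lit 5) (nat_lit 55649) (nat_lit 7) nil nil) (node (nat_lit 5)
  (nat_lit 83935) (nat_lit 6) nil nil)) nil)))) (node (nat_lit 0) (nat_lit 82035) (nat_lit 4)
  (node (nat_lit 4) (nat_lit 86982) (nat_lit 5) nil (node (nat_lit 3) (nat_lit 80100) (nat_lit 5)
  (node (nat_lit 4) (nat_lit 78946) (nat_lit 6) (node (nat_lit 5) (nat_lit 81077) (nat_lit 7) nil
  nil) nil) (node (nat_lit 1) (nat_lit 86751) (nat_lit 5) nil nil))) nil))))) nil))))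

noncomputable def t2 : Tr :=
  (node (nat_lit 2) (nat_lit 0) (nat_lit 4) (node (nat_lit 5) (nat_lit 0) (nat_lit 5) (node
  (nat_lit 4) (nat_lit 25148) (nat_lit 6) (node (nat_lit 5) (nat_lit 27257) (nat_lit 7) (node
  (nat_lit 7) (nat_lit 27892) (nat_lit 8) (node (nat_lit 4) (nat_lit 28784) (nat_lit 9) (node
  (nat_lit 7) (nat_lit 27933) (nat_lit 10) (node (nat_lit 5) (nat_lit 28229) (nat_lit 11) nil nil)
  (node (nat_lit 5) (nat_lit 29082) (nat_lit 10) nil (node (nat_lit 3) (nat_lit 27466) (nat_lit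
  10) nil nil))) (node (nat_lit 5) (nat_lit 28918) (nat_lit 9) (node (nat_lit 4) (nat_lit 29083)
  (nat_lit 10) nil nil) (node (nat_lit 3) (nat_lit 27962) (nat_lit 9) (node (nat_lit 4) (nat_lit
  27039) (nat_lit 10) (node (nat_lit 5) (nat_lit 25560) (nat_lit 11) (node (nat_lit 4) (nat_lit
  22736) (nat_lit 12) (node (nat_lit 7) (nat_lit 18357) (nat_lit 13) (node (nat_lit 5) (nat_lit
  12133) (nat_lit 14) nil nil) nil) nil) nil) nil) nil))) (node (nat_lit 3) (nat_lit 28853)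
  (nat_lit 8) (node (nat_lit 4) (nat_lit 28853) (nat_lit 9) (node (nat_lit 5) (nat_lit 29151)
  (nat_lit 10) (node (nat_lit 4) (nat_lit 29151) (nat_lit 11) (node (nat_lit 11) (nat_lit 29151)
  (nat_lit 12) nil (node (nat_lit 7) (nat_lit 29151) (nat_lit 12) nil nil)) nil) nil) nil) (node
  (nat_lit 0) (nat_lit 28714) (nat_lit 8) nil nil))) (node (nat_lit 3) (nat_lit 26843) (nat_lit 7)
  (node (nat_lit 5) (nat_lit 28024) (nat_lit 8) nil (node (nat_lit 4) (nat_lit 27112) (nat_lit 8)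
  (node (nat_lit 5) (nat_lit 24275) (nat_lit 9) (node (nat_lit 4) (nat_lit 5087) (nat_lit 10)
  (node (nat_lit 10) (nat_lit 5181) (nat_lit 11) nil nil) nil) nil) (node (nat_lit 7) (nat_lit
  26686) (nat_lit 8) (node (nat_lit 10) (nat_lit 26686) (nat_lit 9) (node (nat_lit 4) (nat_lit
  26348) (nat_lit 10) (node (nat_lit 5) (nat_lit 25022) (nat_lit 11) (node (nat_lit 4) (nat_lit
  21623) (nat_lit 12) (node (nat_lit 7) (nat_lit 17514) (nat_lit 13) nil nil) nil) nil) nil) nil)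
  (node (nat_lit 0) (nat_lit 27594) (nat_lit 8) nil nil)))) (node (nat_lit 0) (nat_lit 28394)
  (nat_lit 7) (node (nat_lit 3) (nat_lit 28394) (nat_lit 8) nil nil) nil))) (node (nat_lit 7)
  (nat_lit 25148) (nat_lit 6) (node (nat_lit 4) (nat_lit 26622) (nat_lit 7) (node (nat_lit 7)
  (nat_lit 27112) (nat_lit 8) (node (nat_lit 5) (nat_lit 27976) (nat_lit 9) (node (nat_lit 4)
  (nat_lit 28141) (nat_lit 10) (node (nat_lit 5) (nat_lit 28542) (nat_lit 11) nil nil) nil) (node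
  (nat_lit 3) (nat_lit 27112) (nat_lit 9) (node (nat_lit 4) (nat_lit 24123) (nat_lit 10) nil nil)
  nil)) (node (nat_lit 5) (nat_lit 28618) (nat_lit 8) (node (nat_lit 7) (nat_lit 28939) (nat_lit
  9) nil nil) (node (nat_lit 3) (nat_lit 26891) (nat_lit 8) nil nil))) (node (nat_lit 3) (nat_lit
  26698) (nat_lit 7) (node (nat_lit 4) (nat_lit 26698) (nat_lit 8) (node (nat_lit 5) (nat_lit
  24058) (nat_lit 9) nil nil) nil) (node (nat_lit 0) (nat_lit 28045) (nat_lit 7) nil nil))) (node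
  (nat_lit 3) (nat_lit 26534) (nat_lit 6) (node (nat_lit 7) (nat_lit 27034) (nat_lit 7) (node
  (nat_lit 4) (nat_lit 27250) (nat_lit 8) nil nil) (node (nat_lit 4) (nat_lit 26605) (nat_lit 7)
  (node (nat_lit 5) (nat_lit 28024) (nat_lit 8) nil nil) (node (nat_lit 5) (nat_lit 28853)
  (nat_lit 7) nil nil))) (node (nat_lit 0) (nat_lit 27860) (nat_lit 6) nil nil)))) (node (nat_lit
  4) (nat_lit 0) (nat_lit 5) (node (nat_lit 5) (nat_lit 26282) (nat_lit 6) (node (nat_lit 7)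
  (nat_lit 26622) (nat_lit 7) (node (nat_lit 5) (nat_lit 28864) (nat_lit 8) (node (nat_lit 4)
  (nat_lit 29288) (nat_lit 9) (node (nat_lit 7) (nat_lit 29507) (nat_lit 10) (node (nat_lit 4)
  (nat_lit 29417) (nat_lit 11) (node (nat_lit 5) (nat_lit 29690) (nat_lit 12) nil nil) nil) (node
  (nat_lit 5) (nat_lit 29862) (nat_lit 10) (node (nat_lit 7) (nat_lit 29862) (nat_lit 11) nil nil)
  nil)) nil) (node (nat_lit 4) (nat_lit 28267) (nat_lit 8) (node (nat_lit 7) (nat_lit 28515)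
  (nat_lit 9) (node (nat_lit 5) (nat_lit 29531) (nat_lit 10) (node (nat_lit 4) (nat_lit 29531)
  (nat_lit 11) nil nil) nil) (node (nat_lit 3) (nat_lit 27379) (nat_lit 9) (node (nat_lit 4)
  (nat_lit 26601) (nat_lit 10) (node (nat_lit 5) (nat_lit 22541) (nat_lit 11) nil nil) nil) (node
  (nat_lit 0) (nat_lit 28709) (nat_lit 9) nil nil))) (node (nat_lit 3) (nat_lit 28027) (nat_lit 8)
  (node (nat_lit 4) (nat_lit 28027) (nat_lit 9) (node (nat_lit 5) (nat_lit 28531) (nat_lit 10)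
  (node (nat_lit 4) (nat_lit 23615) (nat_lit 11) (node (nat_lit 7) (nat_lit 16846) (nat_lit 12)
  nil nil) nil) nil) nil) (node (nat_lit 0) (nat_lit 28375) (nat_lit 8) nil nil)))) (node (nat_lit
  3) (nat_lit 27965) (nat_lit 7) (node (nat_lit 4) (nat_lit 27965) (nat_lit 8) (node (nat_lit 5)
  (nat_lit 28401) (nat_lit 9) (node (nat_lit 4) (nat_lit 28401) (nat_lit 10) nil nil) nil) (node
  (nat_lit 7) (nat_lit 26885) (nat_lit 8) nil nil)) (node (nat_lit 0) (nat_lit 28679) (nat_lit 7)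
  nil nil))) (node (nat_lit 3) (nat_lit 17749) (nat_lit 6) (node (nat_lit 4) (nat_lit 17765)
  (nat_lit 7) (node (nat_lit 5) (nat_lit 17963) (nat_lit 8) (node (nat_lit 7) (nat_lit 17963)
  (nat_lit 9) nil nil) (node (nat_lit 7) (nat_lit 17765) (nat_lit 8) (node (nat_lit 9) (nat_lit
  17765) (nat_lit 9) (node (nat_lit 4) (nat_lit 19687) (nat_lit 10) (node (nat_lit 5) (nat_lit
  16030) (nat_lit 11) (node (nat_lit 4) (nat_lit 12942) (nat_lit 12) (node (nat_lit 7) (nat_lit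
  6019) (nat_lit 13) nil nil) nil) nil) nil) nil) (node (nat_lit 0) (nat_lit 20980) (nat_lit 8)
  nil nil))) (node (nat_lit 7) (nat_lit 17765) (nat_lit 7) (node (nat_lit 9) (nat_lit 17765)
  (nat_lit 8) (node (nat_lit 4) (nat_lit 17765) (nat_lit 9) (node (nat_lit 5) (nat_lit 19979)
  (nat_lit 10) (node (nat_lit 4) (nat_lit 12898) (nat_lit 11) nil nil) nil) (node (nat_lit 5)
  (nat_lit 22196) (nat_lit 9) nil nil)) (node (nat_lit 4) (nat_lit 17765) (nat_lit 8) (node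
  (nat_lit 5) (nat_lit 22196) (nat_lit 9) nil (node (nat_lit 7) (nat_lit 17765) (nat_lit 9) nil
  nil)) (node (nat_lit 5) (nat_lit 25217) (nat_lit 8) nil (node (nat_lit 0) (nat_lit 23911)
  (nat_lit 8) nil nil)))) (node (nat_lit 5) (nat_lit 27247) (nat_lit 7) (node (nat_lit 9) (nat_lit
  27247) (nat_lit 8) (node (nat_lit 4) (nat_lit 27247) (nat_lit 9) nil nil) nil) (node (nat_lit 0)
  (nat_lit 25186) (nat_lit 7) (node (nat_lit 9) (nat_lit 25186) (nat_lit 8) nil nil) nil)))) (node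
  (nat_lit 0) (nat_lit 27545) (nat_lit 6) (node (nat_lit 5) (nat_lit 27831) (nat_lit 7) nil (node
  (nat_lit 7) (nat_lit 26650) (nat_lit 7) nil (node (nat_lit 3) (nat_lit 27545) (nat_lit 7) (node
  (nat_lit 4) (nat_lit 27632) (nat_lit 8) (node (nat_lit 5) (nat_lit 28094) (nat_lit 9) nil nil)
  nil) nil))) nil))) (node (nat_lit 3) (nat_lit 17686) (nat_lit 5) (node (nat_lit 4) (nat_lit
  17792) (nat_lit 6) (node (nat_lit 5) (nat_lit 12171) (nat_lit 7) (node (nat_lit 8) (nat_lit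
  12171) (nat_lit 8) (node (nat_lit 7) (nat_lit 12558) (nat_lit 9) (node (nat_lit 5) (nat_lit
  13053) (nat_lit 10) nil (node (nat_lit 8) (nat_lit 12839) (nat_lit 10) (node (nat_lit 4)
  (nat_lit 10475) (nat_lit 11) nil nil) (node (nat_lit 4) (nat_lit 11789) (nat_lit 10) (node
  (nat_lit 8) (nat_lit 11817) (nat_lit 11) nil nil) nil))) (node (nat_lit 5) (nat_lit 12839)
  (nat_lit 9) (node (nat_lit 4) (nat_lit 12839) (nat_lit 10) (node (nat_lit 8) (nat_lit 13053)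
  (nat_lit 11) (node (nat_lit 4) (nat_lit 13240) (nat_lit 12) nil nil) nil) (node (nat_lit 7)
  (nat_lit 12839) (nat_lit 10) (node (nat_lit 4) (nat_lit 12207) (nat_lit 11) nil (node (nat_lit
  8) (nat_lit 13053) (nat_lit 11) (node (nat_lit 4) (nat_lit 13240) (nat_lit 12) nil nil) nil))
  nil)) (node (nat_lit 4) (nat_lit 12558) (nat_lit 9) nil (node (nat_lit 0) (nat_lit 12839)
  (nat_lit 9) (node (nat_lit 8) (nat_lit 12839) (nat_lit 10) nil nil) nil)))) (node (nat_lit 7)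
  (nat_lit 12171) (nat_lit 8) (node (nat_lit 4) (nat_lit 12558) (nat_lit 9) (node (nat_lit 8)
  (nat_lit 12839) (nat_lit 10) (node (nat_lit 4) (nat_lit 10475) (nat_lit 11) nil nil) (node
  (nat_lit 7) (nat_lit 12839) (nat_lit 10) (node (nat_lit 8) (nat_lit 11817) (nat_lit 11) nil nil)
  nil)) (node (nat_lit 8) (nat_lit 12558) (nat_lit 9) nil nil)) (node (nat_lit 0) (nat_lit 12558)
  (nat_lit 8) nil nil))) (node (nat_lit 8) (nat_lit 17804) (nat_lit 7) (node (nat_lit 7) (nat_lit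
  17804) (nat_lit 8) (node (nat_lit 4) (nat_lit 17794) (nat_lit 9) (node (nat_lit 7) (nat_lit
  20315) (nat_lit 10) (node (nat_lit 8) (nat_lit 21620) (nat_lit 11) nil nil) (node (nat_lit 5)
  (nat_lit 22421) (nat_lit 10) nil (node (nat_lit 8) (nat_lit 20206) (nat_lit 10) (node (nat_lit
  4) (nat_lit 20228) (nat_lit 11) (node (nat_lit 5) (nat_lit 18048) (nat_lit 12) nil nil) nil)
  nil))) (node (nat_lit 8) (nat_lit 17804) (nat_lit 9) (node (nat_lit 4) (nat_lit 19705) (nat_lit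
  10) (node (nat_lit 5) (nat_lit 18524) (nat_lit 11) (node (nat_lit 4) (nat_lit 11130) (nat_lit
  12) nil nil) nil) nil) (node (nat_lit 5) (nat_lit 22743) (nat_lit 9) (node (nat_lit 8) (nat_lit
  22743) (nat_lit 10) nil nil) (node (nat_lit 0) (nat_lit 22510) (nat_lit 9) nil nil)))) (node
  (nat_lit 5) (nat_lit 22516) (nat_lit 8) (node (nat_lit 7) (nat_lit 22750) (nat_lit 9) (node
  (nat_lit 8) (nat_lit 23031) (nat_lit 10) nil nil) (node (nat_lit 4) (nat_lit 22860) (nat_lit 9)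
  (node (nat_lit 7) (nat_lit 22091) (nat_lit 10) (node (nat_lit 8) (nat_lit 22119) (nat_lit 11)
  nil nil) (node (nat_lit 5) (nat_lit 23354) (nat_lit 10) (node (nat_lit 8) (nat_lit 23354)
  (nat_lit 11) nil nil) nil)) (node (nat_lit 8) (nat_lit 22516) (nat_lit 9) (node (nat_lit 4)
  (nat_lit 22797) (nat_lit 10) nil nil) nil))) (node (nat_lit 0) (nat_lit 22314) (nat_lit 8) nil
  nil))) (node (nat_lit 7) (nat_lit 17792) (nat_lit 7) (node (nat_lit 4) (nat_lit 17792) (nat_lit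
  8) (node (nat_lit 8) (nat_lit 17791) (nat_lit 9) (node (nat_lit 4) (nat_lit 20303) (nat_lit 10)
  (node (nat_lit 5) (nat_lit 20838) (nat_lit 11) nil nil) (node (nat_lit 7) (nat_lit 20392)
  (nat_lit 10) nil nil)) (node (nat_lit 5) (nat_lit 22601) (nat_lit 9) nil nil)) (node (nat_lit 5)
  (nat_lit 21564) (nat_lit 8) (node (nat_lit 8) (nat_lit 20891) (nat_lit 9) nil nil) nil)) (node
  (nat_lit 0) (nat_lit 21619) (nat_lit 7) (node (nat_lit 4) (nat_lit 22038) (nat_lit 8) nil (node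
  (nat_lit 8) (nat_lit 22038) (nat_lit 8) (node (nat_lit 4) (nat_lit 22425) (nat_lit 9) nil nil)
  (node (nat_lit 7) (nat_lit 21926) (nat_lit 8) nil (node (nat_lit 0) (nat_lit 22314) (nat_lit 8)
  nil nil)))) nil)))) (node (nat_lit 5) (nat_lit 27651) (nat_lit 6) (node (nat_lit 7) (nat_lit
  27817) (nat_lit 7) (node (nat_lit 5) (nat_lit 28593) (nat_lit 8) (node (nat_lit 4) (nat_lit
  28593) (nat_lit 9) (node (nat_lit 7) (nat_lit 28559) (nat_lit 10) (node (nat_lit 8) (nat_lit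
  28593) (nat_lit 11) nil nil) nil) nil) (node (nat_lit 4) (nat_lit 27692) (nat_lit 8) nil nil))
  (node (nat_lit 8) (nat_lit 27846) (nat_lit 7) (node (nat_lit 4) (nat_lit 27846) (nat_lit 8)
  (node (nat_lit 5) (nat_lit 28297) (nat_lit 9) (node (nat_lit 4) (nat_lit 28297) (nat_lit 10) nil
  nil) nil) nil) nil)) (node (nat_lit 7) (nat_lit 17788) (nat_lit 6) (node (nat_lit 4) (nat_lit
  17789) (nat_lit 7) (node (nat_lit 8) (nat_lit 17789) (nat_lit 8) (node (nat_lit 7) (nat_lit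
  17789) (nat_lit 9) nil (node (nat_lit 4) (nat_lit 17789) (nat_lit 9) (node (nat_lit 7) (nat_lit
  20749) (nat_lit 10) nil nil) nil)) (node (nat_lit 7) (nat_lit 17789) (nat_lit 8) (node (nat_lit
  5) (nat_lit 24308) (nat_lit 9) nil (node (nat_lit 8) (nat_lit 17793) (nat_lit 9) (node (nat_lit
  4) (nat_lit 20693) (nat_lit 10) nil nil) nil)) (node (nat_lit 5) (nat_lit 25186) (nat_lit 8) nil
  nil))) (node (nat_lit 5) (nat_lit 28178) (nat_lit 7) (node (nat_lit 8) (nat_lit 28178) (nat_lit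
  8) nil nil) (node (nat_lit 0) (nat_lit 26883) (nat_lit 7) nil nil))) (node (nat_lit 0) (nat_lit
  27850) (nat_lit 6) (node (nat_lit 8) (nat_lit 27996) (nat_lit 7) (node (nat_lit 4) (nat_lit
  27996) (nat_lit 8) (node (nat_lit 5) (nat_lit 28431) (nat_lit 9) nil nil) nil) nil) nil))))
  (node (nat_lit 0) (nat_lit 26201) (nat_lit 5) (node (nat_lit 4) (nat_lit 26291) (nat_lit 6)
  (node (nat_lit 5) (nat_lit 28255) (nat_lit 7) nil (node (nat_lit 8) (nat_lit 28343) (nat_lit 7)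
  nil (node (nat_lit 7) (nat_lit 26208) (nat_lit 7) nil nil))) (node (nat_lit 5) (nat_lit 27944)
  (nat_lit 6) nil (node (nat_lit 7) (nat_lit 26346) (nat_lit 6) (node (nat_lit 4) (nat_lit 26343)
  (nat_lit 7) nil nil) (node (nat_lit 3) (nat_lit 26207) (nat_lit 6) (node (nat_lit 4) (nat_lit
  26207) (nat_lit 7) (node (nat_lit 5) (nat_lit 26958) (nat_lit 8) nil nil) nil) (node (nat_lit 0)
  (nat_lit 27944) (nat_lit 6) nil nil))))) nil)))) (node (nat_lit 3) (nat_lit 0) (nat_lit 4) (node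
  (nat_lit 5) (nat_lit 0) (nat_lit 5) (node (nat_lit 7) (nat_lit 23951) (nat_lit 6) (node (nat_lit
  4) (nat_lit 24728) (nat_lit 7) (node (nat_lit 5) (nat_lit 28249) (nat_lit 8) (node (nat_lit 4)
  (nat_lit 28249) (nat_lit 9) nil nil) (node (nat_lit 7) (nat_lit 24910) (nat_lit 8) nil (node
  (nat_lit 0) (nat_lit 28335) (nat_lit 8) nil (node (nat_lit 2) (nat_lit 25848) (nat_lit 8) nil
  nil)))) (node (nat_lit 0) (nat_lit 28077) (nat_lit 7) nil (node (nat_lit 2) (nat_lit 25704)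
  (nat_lit 7) nil nil))) (node (nat_lit 0) (nat_lit 27226) (nat_lit 6) (node (nat_lit 7) (nat_lit
  27226) (nat_lit 7) (node (nat_lit 4) (nat_lit 27226) (nat_lit 8) (node (nat_lit 5) (nat_lit
  28086) (nat_lit 9) nil nil) nil) (node (nat_lit 4) (nat_lit 27207) (nat_lit 7) nil nil)) (node
  (nat_lit 4) (nat_lit 23501) (nat_lit 6) (node (nat_lit 5) (nat_lit 27636) (nat_lit 7) (node
  (nat_lit 7) (nat_lit 27962) (nat_lit 8) (node (nat_lit 4) (nat_lit 28032) (nat_lit 9) (node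
  (nat_lit 5) (nat_lit 29757) (nat_lit 10) (node (nat_lit 4) (nat_lit 29757) (nat_lit 11) (node
  (nat_lit 7) (nat_lit 29757) (nat_lit 12) nil nil) nil) nil) nil) nil) (node (nat_lit 0) (nat_lit
  28696) (nat_lit 7) nil (node (nat_lit 2) (nat_lit 26161) (nat_lit 7) nil nil))) (node (nat_lit
  2) (nat_lit 25588) (nat_lit 6) (node (nat_lit 7) (nat_lit 26193) (nat_lit 7) (node (nat_lit 4)
  (nat_lit 25757) (nat_lit 8) (node (nat_lit 5) (nat_lit 23087) (nat_lit 9) (node (nat_lit 4)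
  (nat_lit 14986) (nat_lit 10) (node (nat_lit 7) (nat_lit 5597) (nat_lit 11) nil nil) nil) nil)
  nil) (node (nat_lit 4) (nat_lit 25728) (nat_lit 7) (node (nat_lit 9) (nat_lit 25856) (nat_lit 8)
  (node (nat_lit 5) (nat_lit 27383) (nat_lit 9) (node (nat_lit 4) (nat_lit 26591) (nat_lit 10)
  (node (nat_lit 7) (nat_lit 26686) (nat_lit 11) nil nil) nil) nil) nil) (node (nat_lit 5)
  (nat_lit 28596) (nat_lit 7) (node (nat_lit 4) (nat_lit 28596) (nat_lit 8) (node (nat_lit 7)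
  (nat_lit 28596) (nat_lit 9) nil nil) (node (nat_lit 7) (nat_lit 28596) (nat_lit 8) nil nil))
  nil))) nil)))) (node (nat_lit 0) (nat_lit 25960) (nat_lit 5) (node (nat_lit 5) (nat_lit 27931)
  (nat_lit 6) nil (node (nat_lit 7) (nat_lit 26280) (nat_lit 6) (node (nat_lit 4) (nat_lit 26199)
  (nat_lit 7) (node (nat_lit 5) (nat_lit 27603) (nat_lit 8) nil nil) nil) (node (nat_lit 4)
  (nat_lit 26253) (nat_lit 6) (node (nat_lit 8) (nat_lit 28059) (nat_lit 7) (node (nat_lit 7)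
  (nat_lit 28059) (nat_lit 8) (node (nat_lit 4) (nat_lit 28059) (nat_lit 9) nil nil) nil) (node
  (nat_lit 7) (nat_lit 26391) (nat_lit 7) (node (nat_lit 4) (nat_lit 25478) (nat_lit 8) (node
  (nat_lit 5) (nat_lit 22347) (nat_lit 9) nil nil) nil) nil)) nil))) (node (nat_lit 2) (nat_lit
  17415) (nat_lit 5) (node (nat_lit 5) (nat_lit 27704) (nat_lit 6) (node (nat_lit 7) (nat_lit
  27704) (nat_lit 7) (node (nat_lit 4) (nat_lit 27704) (nat_lit 8) (node (nat_lit 5) (nat_lit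
  28140) (nat_lit 9) nil nil) nil) (node (nat_lit 8) (nat_lit 27704) (nat_lit 7) (node (nat_lit 7)
  (nat_lit 27704) (nat_lit 8) (node (nat_lit 5) (nat_lit 28140) (nat_lit 9) (node (nat_lit 7)
  (nat_lit 28140) (nat_lit 10) nil nil) nil) nil) nil)) (node (nat_lit 7) (nat_lit 17780) (nat_lit
  6) (node (nat_lit 4) (nat_lit 17780) (nat_lit 7) (node (nat_lit 8) (nat_lit 17780) (nat_lit 8)
  (node (nat_lit 4) (nat_lit 17780) (nat_lit 9) (node (nat_lit 7) (nat_lit 20352) (nat_lit 10)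
  (node (nat_lit 8) (nat_lit 21781) (nat_lit 11) nil nil) (node (nat_lit 5) (nat_lit 22407)
  (nat_lit 10) nil nil)) (node (nat_lit 5) (nat_lit 23583) (nat_lit 9) (node (nat_lit 4) (nat_lit
  23583) (nat_lit 10) (node (nat_lit 7) (nat_lit 23583) (nat_lit 11) nil nil) nil) nil)) (node
  (nat_lit 7) (nat_lit 17780) (nat_lit 8) (node (nat_lit 5) (nat_lit 24299) (nat_lit 9) nil (node
  (nat_lit 8) (nat_lit 17780) (nat_lit 9) nil (node (nat_lit 0) (nat_lit 22212) (nat_lit 9) nil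
  nil))) (node (nat_lit 5) (nat_lit 16956) (nat_lit 8) nil nil))) (node (nat_lit 5) (nat_lit
  27549) (nat_lit 7) nil (node (nat_lit 0) (nat_lit 26394) (nat_lit 7) nil nil))) (node (nat_lit
  4) (nat_lit 17789) (nat_lit 6) (node (nat_lit 8) (nat_lit 17789) (nat_lit 7) (node (nat_lit 7)
  (nat_lit 17789) (nat_lit 8) (node (nat_lit 4) (nat_lit 17789) (nat_lit 9) (node (nat_lit 7)
  (nat_lit 21181) (nat_lit 10) (node (nat_lit 8) (nat_lit 22630) (nat_lit 11) (node (nat_lit 4)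
  (nat_lit 22332) (nat_lit 12) (node (nat_lit 7) (nat_lit 22314) (nat_lit 13) (node (nat_lit 4)
  (nat_lit 22074) (nat_lit 14) (node (nat_lit 8) (nat_lit 21912) (nat_lit 15) nil (node (nat_lit
  5) (nat_lit 21478) (nat_lit 15) nil nil)) nil) (node (nat_lit 5) (nat_lit 22649) (nat_lit 13)
  nil nil)) nil) nil) nil) (node (nat_lit 8) (nat_lit 17789) (nat_lit 9) (node (nat_lit 4)
  (nat_lit 20209) (nat_lit 10) (node (nat_lit 7) (nat_lit 20858) (nat_lit 11) nil nil) nil) nil))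
  (node (nat_lit 5) (nat_lit 25466) (nat_lit 8) nil nil)) (node (nat_lit 7) (nat_lit 17789)
  (nat_lit 7) (node (nat_lit 4) (nat_lit 17789) (nat_lit 8) (node (nat_lit 8) (nat_lit 17789)
  (nat_lit 9) (node (nat_lit 4) (nat_lit 20291) (nat_lit 10) nil (node (nat_lit 7) (nat_lit 20215)
  (nat_lit 10) (node (nat_lit 4) (nat_lit 19508) (nat_lit 11) nil nil) nil)) (node (nat_lit 5)
  (nat_lit 17440) (nat_lit 9) nil nil)) (node (nat_lit 5) (nat_lit 25789) (nat_lit 8) nil nil))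
  (node (nat_lit 5) (nat_lit 27384) (nat_lit 7) nil (node (nat_lit 0) (nat_lit 26727) (nat_lit 7)
  nil nil)))) (node (nat_lit 0) (nat_lit 27810) (nat_lit 6) (node (nat_lit 7) (nat_lit 27810)
  (nat_lit 7) nil nil) nil)))) (node (nat_lit 4) (nat_lit 0) (nat_lit 5) (node (nat_lit 5)
  (nat_lit 0) (nat_lit 6) (node (nat_lit 7) (nat_lit 10890) (nat_lit 7) (node (nat_lit 4) (nat_lit
  12821) (nat_lit 8) (node (nat_lit 7) (nat_lit 13929) (nat_lit 9) nil nil) (node (nat_lit 5)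
  (nat_lit 12310) (nat_lit 8) nil nil)) (node (nat_lit 0) (nat_lit 13863) (nat_lit 7) nil (node
  (nat_lit 2) (nat_lit 13577) (nat_lit 7) (node (nat_lit 4) (nat_lit 14932) (nat_lit 8) (node
  (nat_lit 7) (nat_lit 14932) (nat_lit 9) nil nil) nil) nil))) (node (nat_lit 0) (nat_lit 18052)
  (nat_lit 6) (node (nat_lit 4) (nat_lit 20048) (nat_lit 7) nil (node (nat_lit 5) (nat_lit 20258)
  (nat_lit 7) (node (nat_lit 4) (nat_lit 19359) (nat_lit 8) (node (nat_lit 7) (nat_lit 19575)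
  (nat_lit 9) nil nil) nil) (node (nat_lit 7) (nat_lit 20258) (nat_lit 7) (node (nat_lit 4)
  (nat_lit 21662) (nat_lit 8) nil nil) nil))) (node (nat_lit 2) (nat_lit 17582) (nat_lit 6) (node
  (nat_lit 4) (nat_lit 17635) (nat_lit 7) (node (nat_lit 7) (nat_lit 17606) (nat_lit 8) (node
  (nat_lit 9) (nat_lit 17606) (nat_lit 9) nil (node (nat_lit 4) (nat_lit 17606) (nat_lit 9) (node
  (nat_lit 5) (nat_lit 14131) (nat_lit 10) nil nil) nil)) nil) (node (nat_lit 5) (nat_lit 20258)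
  (nat_lit 7) nil (node (nat_lit 7) (nat_lit 17606) (nat_lit 7) (node (nat_lit 4) (nat_lit 17606)
  (nat_lit 8) nil (node (nat_lit 9) (nat_lit 17681) (nat_lit 8) nil nil)) nil))) nil))) nil))))
  nil))

noncomputable def t3 : Tr :=
  (node (nat_lit 5) (nat_lit 0) (nat_lit 4) (node (nat_lit 4) (nat_lit 61541) (nat_lit 5) (node
  (nat_lit 6) (nat_lit 68226) (nat_lit 6) (node (nat_lit 5) (nat_lit 70743) (nat_lit 7) (node
  (nat_lit 6) (nat_lit 72630) (nat_lit 8) (node (nat_lit 4) (nat_lit 72252) (nat_lit 9) (node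
  (nat_lit 6) (nat_lit 73287) (nat_lit 10) (node (nat_lit 5) (nat_lit 74132) (nat_lit 11) (node
  (nat_lit 4) (nat_lit 73893) (nat_lit 12) (node (nat_lit 5) (nat_lit 74449) (nat_lit 13) (node
  (nat_lit 6) (nat_lit 74882) (nat_lit 14) (node (nat_lit 5) (nat_lit 75212) (nat_lit 15) (node
  (nat_lit 4) (nat_lit 75138) (nat_lit 16) (node (nat_lit 6) (nat_lit 75333) (nat_lit 17) (node
  (nat_lit 5) (nat_lit 75486) (nat_lit 18) (node (nat_lit 6) (nat_lit 75605) (nat_lit 19) (node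
  (nat_lit 4) (nat_lit 75577) (nat_lit 20) nil nil) nil) nil) nil) nil) nil) nil) nil) nil) nil)
  nil) nil) nil) nil) (node (nat_lit 5) (nat_lit 65273) (nat_lit 6) (node (nat_lit 6) (nat_lit
  28180) (nat_lit 7) (node (nat_lit 4) (nat_lit 28180) (nat_lit 8) (node (nat_lit 6) (nat_lit
  28539) (nat_lit 9) (node (nat_lit 5) (nat_lit 28539) (nat_lit 10) (node (nat_lit 4) (nat_lit
  28539) (nat_lit 11) (node (nat_lit 6) (nat_lit 28539) (nat_lit 12) (node (nat_lit 4) (nat_lit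
  28539) (nat_lit 13) (node (nat_lit 5) (nat_lit 28539) (nat_lit 14) (node (nat_lit 6) (nat_lit
  28539) (nat_lit 15) (node (nat_lit 5) (nat_lit 28539) (nat_lit 16) (node (nat_lit 4) (nat_lit
  28539) (nat_lit 17) nil nil) nil) nil) nil) nil) (node (nat_lit 5) (nat_lit 28539) (nat_lit 12)
  (node (nat_lit 6) (nat_lit 28539) (nat_lit 13) (node (nat_lit 5) (nat_lit 28539) (nat_lit 14)
  (node (nat_lit 4) (nat_lit 28539) (nat_lit 15) nil nil) nil) nil) (node (nat_lit 3) (nat_lit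
  28539) (nat_lit 12) nil nil))) (node (nat_lit 6) (nat_lit 28539) (nat_lit 11) nil (node (nat_lit
  3) (nat_lit 28539) (nat_lit 11) nil nil))) (node (nat_lit 3) (nat_lit 28539) (nat_lit 10) (node
  (nat_lit 5) (nat_lit 28539) (nat_lit 11) (node (nat_lit 13) (nat_lit 28539) (nat_lit 12) nil
  nil) (node (nat_lit 4) (nat_lit 28539) (nat_lit 11) (node (nat_lit 5) (nat_lit 28539) (nat_lit
  12) (node (nat_lit 6) (nat_lit 28539) (nat_lit 13) nil nil) nil) nil)) (node (nat_lit 0)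
  (nat_lit 28539) (nat_lit 10) nil (node (nat_lit 2) (nat_lit 28539) (nat_lit 10) nil nil))))
  (node (nat_lit 5) (nat_lit 28539) (nat_lit 9) (node (nat_lit 4) (nat_lit 28539) (nat_lit 10)
  (node (nat_lit 6) (nat_lit 28539) (nat_lit 11) (node (nat_lit 5) (nat_lit 28539) (nat_lit 12)
  (node (nat_lit 4) (nat_lit 28539) (nat_lit 13) (node (nat_lit 5) (nat_lit 28539) (nat_lit 14)
  (node (nat_lit 6) (nat_lit 28539) (nat_lit 15) (node (nat_lit 5) (nat_lit 28539) (nat_lit 16)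
  (node (nat_lit 4) (nat_lit 28539) (nat_lit 17) nil nil) nil) nil) nil) nil) (node (nat_lit 4)
  (nat_lit 28539) (nat_lit 12) nil nil)) (node (nat_lit 3) (nat_lit 28539) (nat_lit 11) (node
  (nat_lit 4) (nat_lit 28539) (nat_lit 12) (node (nat_lit 5) (nat_lit 28539) (nat_lit 13) (node
  (nat_lit 6) (nat_lit 28539) (nat_lit 14) nil nil) nil) nil) nil)) (node (nat_lit 3) (nat_lit
  28539) (nat_lit 10) (node (nat_lit 4) (nat_lit 28539) (nat_lit 11) (node (nat_lit 5) (nat_lit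
  28539) (nat_lit 12) (node (nat_lit 6) (nat_lit 28539) (nat_lit 13) (node (nat_lit 5) (nat_lit
  28539) (nat_lit 14) nil nil) nil) nil) (node (nat_lit 5) (nat_lit 28539) (nat_lit 11) nil nil))
  (node (nat_lit 0) (nat_lit 28539) (nat_lit 10) nil (node (nat_lit 2) (nat_lit 28539) (nat_lit
  10) nil nil)))) (node (nat_lit 3) (nat_lit 28180) (nat_lit 9) (node (nat_lit 4) (nat_lit 28180)
  (nat_lit 10) (node (nat_lit 5) (nat_lit 28539) (nat_lit 11) (node (nat_lit 6) (nat_lit 28539)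
  (nat_lit 12) (node (nat_lit 5) (nat_lit 27511) (nat_lit 13) nil nil) nil) nil) (node (nat_lit 5)
  (nat_lit 28539) (nat_lit 10) (node (nat_lit 4) (nat_lit 28539) (nat_lit 11) nil nil) nil)) (node
  (nat_lit 0) (nat_lit 28468) (nat_lit 9) nil (node (nat_lit 2) (nat_lit 28180) (nat_lit 9) nil
  nil))))) (node (nat_lit 3) (nat_lit 28180) (nat_lit 8) (node (nat_lit 6) (nat_lit 28468)
  (nat_lit 9) (node (nat_lit 4) (nat_lit 28468) (nat_lit 10) (node (nat_lit 11) (nat_lit 28468)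
  (nat_lit 11) nil nil) (node (nat_lit 5) (nat_lit 28539) (nat_lit 10) (node (nat_lit 11) (nat_lit
  28539) (nat_lit 11) (node (nat_lit 4) (nat_lit 28539) (nat_lit 12) nil nil) (node (nat_lit 4)
  (nat_lit 28539) (nat_lit 11) (node (nat_lit 5) (nat_lit 28539) (nat_lit 12) nil nil) nil)) nil))
  (node (nat_lit 5) (nat_lit 28468) (nat_lit 9) (node (nat_lit 11) (nat_lit 28468) (nat_lit 10)
  (node (nat_lit 4) (nat_lit 28468) (nat_lit 11) nil nil) (node (nat_lit 4) (nat_lit 28468)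
  (nat_lit 10) (node (nat_lit 5) (nat_lit 28539) (nat_lit 11) (node (nat_lit 6) (nat_lit 28539)
  (nat_lit 12) nil nil) nil) nil)) (node (nat_lit 4) (nat_lit 28180) (nat_lit 9) (node (nat_lit 5)
  (nat_lit 28539) (nat_lit 10) (node (nat_lit 6) (nat_lit 28539) (nat_lit 11) (node (nat_lit 5)
  (nat_lit 28539) (nat_lit 12) nil nil) nil) nil) nil))) (node (nat_lit 0) (nat_lit 28519)
  (nat_lit 8) (node (nat_lit 6) (nat_lit 28539) (nat_lit 9) (node (nat_lit 5) (nat_lit 28539)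
  (nat_lit 10) (node (nat_lit 4) (nat_lit 28539) (nat_lit 11) nil nil) nil) (node (nat_lit 5)
  (nat_lit 28539) (nat_lit 9) (node (nat_lit 4) (nat_lit 28539) (nat_lit 10) (node (nat_lit 5)
  (nat_lit 28539) (nat_lit 11) (node (nat_lit 6) (nat_lit 28539) (nat_lit 12) nil nil) nil) nil)
  (node (nat_lit 3) (nat_lit 28519) (nat_lit 9) nil nil))) (node (nat_lit 2) (nat_lit 28180)
  (nat_lit 8) (node (nat_lit 6) (nat_lit 28468) (nat_lit 9) (node (nat_lit 5) (nat_lit 28539)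
  (nat_lit 10) (node (nat_lit 4) (nat_lit 28539) (nat_lit 11) nil nil) nil) (node (nat_lit 5)
  (nat_lit 28468) (nat_lit 9) (node (nat_lit 4) (nat_lit 28468) (nat_lit 10) (node (nat_lit 5)
  (nat_lit 28539) (nat_lit 11) (node (nat_lit 6) (nat_lit 28539) (nat_lit 12) nil nil) nil) nil)
  (node (nat_lit 3) (nat_lit 28180) (nat_lit 9) nil nil))) nil)))) (node (nat_lit 3) (nat_lit
  67095) (nat_lit 7) nil nil)) (node (nat_lit 3) (nat_lit 68520) (nat_lit 6) (node (nat_lit 4)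
  (nat_lit 63186) (nat_lit 7) (node (nat_lit 5) (nat_lit 57415) (nat_lit 8) (node (nat_lit 6)
  (nat_lit 36970) (nat_lit 9) nil nil) nil) nil) nil))) (node (nat_lit 3) (nat_lit 62229) (nat_lit
  5) (node (nat_lit 4) (nat_lit 69330) (nat_lit 6) (node (nat_lit 5) (nat_lit 71250) (nat_lit 7)
  (node (nat_lit 6) (nat_lit 72321) (nat_lit 8) (node (nat_lit 5) (nat_lit 32079) (nat_lit 9) nil
  nil) nil) nil) (node (nat_lit 5) (nat_lit 67083) (nat_lit 6) (node (nat_lit 6) (nat_lit 71236)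
  (nat_lit 7) (node (nat_lit 8) (nat_lit 69831) (nat_lit 8) (node (nat_lit 6) (nat_lit 70220)
  (nat_lit 9) (node (nat_lit 5) (nat_lit 70515) (nat_lit 10) (node (nat_lit 8) (nat_lit 69766)
  (nat_lit 11) (node (nat_lit 4) (nat_lit 70002) (nat_lit 12) nil nil) nil) nil) nil) nil) (node
  (nat_lit 4) (nat_lit 66483) (nat_lit 7) (node (nat_lit 5) (nat_lit 53895) (nat_lit 8) (node
  (nat_lit 8) (nat_lit 52748) (nat_lit 9) (node (nat_lit 4) (nat_lit 53044) (nat_lit 10) (node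
  (nat_lit 5) (nat_lit 53304) (nat_lit 11) (node (nat_lit 6) (nat_lit 53540) (nat_lit 12) nil nil)
  (node (nat_lit 8) (nat_lit 52294) (nat_lit 11) (node (nat_lit 5) (nat_lit 52207) (nat_lit 12)
  (node (nat_lit 4) (nat_lit 52196) (nat_lit 13) nil nil) nil) nil)) (node (nat_lit 5) (nat_lit
  52458) (nat_lit 10) nil nil)) (node (nat_lit 6) (nat_lit 47015) (nat_lit 9) nil nil)) (node
  (nat_lit 6) (nat_lit 67328) (nat_lit 8) nil nil)) nil)) (node (nat_lit 6) (nat_lit 69330)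
  (nat_lit 6) (node (nat_lit 8) (nat_lit 68626) (nat_lit 7) nil nil) nil))) (node (nat_lit 0)
  (nat_lit 65390) (nat_lit 5) (node (nat_lit 6) (nat_lit 68045) (nat_lit 6) nil (node (nat_lit 5)
  (nat_lit 68045) (nat_lit 6) nil nil)) (node (nat_lit 2) (nat_lit 60859) (nat_lit 5) (node
  (nat_lit 6) (nat_lit 66758) (nat_lit 6) nil (node (nat_lit 5) (nat_lit 65218) (nat_lit 6) (node
  (nat_lit 6) (nat_lit 68522) (nat_lit 7) nil (node (nat_lit 4) (nat_lit 60141) (nat_lit 7) (node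
  (nat_lit 5) (nat_lit 49682) (nat_lit 8) (node (nat_lit 6) (nat_lit 43286) (nat_lit 9) nil nil)
  nil) nil)) (node (nat_lit 4) (nat_lit 66545) (nat_lit 6) (node (nat_lit 3) (nat_lit 61828)
  (nat_lit 7) nil nil) (node (nat_lit 3) (nat_lit 61548) (nat_lit 6) (node (nat_lit 5) (nat_lit
  58040) (nat_lit 7) nil (node (nat_lit 4) (nat_lit 51670) (nat_lit 7) (node (nat_lit 5) (nat_lit
  46767) (nat_lit 8) (node (nat_lit 6) (nat_lit 36913) (nat_lit 9) nil nil) nil) (node (nat_lit 8)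
  (nat_lit 60844) (nat_lit 7) nil nil))) nil)))) nil)))) (node (nat_lit 4) (nat_lit 0) (nat_lit 4)
  (node (nat_lit 6) (nat_lit 63390) (nat_lit 5) (node (nat_lit 5) (nat_lit 67498) (nat_lit 6)
  (node (nat_lit 6) (nat_lit 70015) (nat_lit 7) (node (nat_lit 4) (nat_lit 69625) (nat_lit 8)
  (node (nat_lit 5) (nat_lit 71024) (nat_lit 9) (node (nat_lit 6) (nat_lit 72059) (nat_lit 10)
  (node (nat_lit 5) (nat_lit 72904) (nat_lit 11) (node (nat_lit 4) (nat_lit 72665) (nat_lit 12)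
  (node (nat_lit 5) (nat_lit 73221) (nat_lit 13) (node (nat_lit 6) (nat_lit 73654) (nat_lit 14)
  (node (nat_lit 4) (nat_lit 73559) (nat_lit 15) (node (nat_lit 6) (nat_lit 73812) (nat_lit 16)
  (node (nat_lit 5) (nat_lit 74008) (nat_lit 17) (node (nat_lit 6) (nat_lit 74160) (nat_lit 18)
  (node (nat_lit 4) (nat_lit 74125) (nat_lit 19) (node (nat_lit 5) (nat_lit 74217) (nat_lit 20)
  nil nil) nil) nil) nil) nil) nil) nil) nil) nil) nil) nil) nil) nil) (node (nat_lit 4) (nat_lit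
  71624) (nat_lit 7) (node (nat_lit 5) (nat_lit 73082) (nat_lit 8) (node (nat_lit 6) (nat_lit
  73996) (nat_lit 9) (node (nat_lit 4) (nat_lit 74513) (nat_lit 10) (node (nat_lit 6) (nat_lit
  27612) (nat_lit 11) nil nil) nil) nil) nil) nil)) (node (nat_lit 3) (nat_lit 67928) (nat_lit 6)
  (node (nat_lit 4) (nat_lit 70370) (nat_lit 7) (node (nat_lit 5) (nat_lit 72269) (nat_lit 8)
  (node (nat_lit 6) (nat_lit 73152) (nat_lit 9) nil nil) nil) nil) nil)) (node (nat_lit 5)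
  (nat_lit 59924) (nat_lit 5) (node (nat_lit 4) (nat_lit 67191) (nat_lit 6) (node (nat_lit 6)
  (nat_lit 71858) (nat_lit 7) (node (nat_lit 5) (nat_lit 73745) (nat_lit 8) (node (nat_lit 4)
  (nat_lit 73565) (nat_lit 9) (node (nat_lit 5) (nat_lit 74600) (nat_lit 10) (node (nat_lit 6)
  (nat_lit 75444) (nat_lit 11) (node (nat_lit 4) (nat_lit 75206) (nat_lit 12) (node (nat_lit 5)
  (nat_lit 75762) (nat_lit 13) (node (nat_lit 4) (nat_lit 75638) (nat_lit 14) nil nil) nil) nil)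
  nil) nil) nil) nil) nil) (node (nat_lit 3) (nat_lit 68389) (nat_lit 6) nil (node (nat_lit 0)
  (nat_lit 69482) (nat_lit 6) nil (node (nat_lit 2) (nat_lit 67577) (nat_lit 6) nil nil)))) (node
  (nat_lit 3) (nat_lit 63878) (nat_lit 5) (node (nat_lit 6) (nat_lit 68927) (nat_lit 6) (node
  (nat_lit 5) (nat_lit 70847) (nat_lit 7) (node (nat_lit 4) (nat_lit 69834) (nat_lit 8) nil nil)
  nil) (node (nat_lit 5) (nat_lit 66325) (nat_lit 6) (node (nat_lit 4) (nat_lit 61208) (nat_lit 7)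
  (node (nat_lit 5) (nat_lit 56060) (nat_lit 8) (node (nat_lit 6) (nat_lit 44770) (nat_lit 9)
  (node (nat_lit 4) (nat_lit 30397) (nat_lit 10) nil nil) nil) nil) (node (nat_lit 8) (nat_lit
  68245) (nat_lit 7) (node (nat_lit 4) (nat_lit 69508) (nat_lit 8) (node (nat_lit 5) (nat_lit
  70382) (nat_lit 9) (node (nat_lit 6) (nat_lit 71046) (nat_lit 10) (node (nat_lit 4) (nat_lit
  70463) (nat_lit 11) nil nil) nil) nil) nil) nil)) (node (nat_lit 4) (nat_lit 63739) (nat_lit 6)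
  (node (nat_lit 5) (nat_lit 57453) (nat_lit 7) (node (nat_lit 6) (nat_lit 40285) (nat_lit 8) nil
  nil) nil) (node (nat_lit 0) (nat_lit 66533) (nat_lit 6) (node (nat_lit 8) (nat_lit 65829)
  (nat_lit 7) (node (nat_lit 4) (nat_lit 67092) (nat_lit 8) (node (nat_lit 5) (nat_lit 67965)
  (nat_lit 9) nil nil) nil) nil) (node (nat_lit 2) (nat_lit 62486) (nat_lit 6) (node (nat_lit 8)
  (nat_lit 56122) (nat_lit 7) (node (nat_lit 4) (nat_lit 54592) (nat_lit 8) (node (nat_lit 5)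
  (nat_lit 51816) (nat_lit 9) nil nil) nil) nil) nil))))) (node (nat_lit 0) (nat_lit 66485)
  (nat_lit 5) (node (nat_lit 5) (nat_lit 69141) (nat_lit 6) (node (nat_lit 4) (nat_lit 68024)
  (nat_lit 7) (node (nat_lit 5) (nat_lit 69287) (nat_lit 8) (node (nat_lit 6) (nat_lit 70161)
  (nat_lit 9) nil nil) nil) nil) (node (nat_lit 4) (nat_lit 65062) (nat_lit 6) nil (node (nat_lit
  3) (nat_lit 65615) (nat_lit 6) nil nil))) (node (nat_lit 2) (nat_lit 63577) (nat_lit 5) (node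
  (nat_lit 5) (nat_lit 66294) (nat_lit 6) (node (nat_lit 4) (nat_lit 62138) (nat_lit 7) (node
  (nat_lit 5) (nat_lit 56990) (nat_lit 8) (node (nat_lit 6) (nat_lit 45699) (nat_lit 9) (node
  (nat_lit 4) (nat_lit 28595) (nat_lit 10) nil nil) nil) nil) nil) (node (nat_lit 6) (nat_lit
  67425) (nat_lit 6) nil (node (nat_lit 4) (nat_lit 67982) (nat_lit 6) (node (nat_lit 3) (nat_lit
  61836) (nat_lit 7) nil nil) (node (nat_lit 3) (nat_lit 63729) (nat_lit 6) (node (nat_lit 4)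
  (nat_lit 58803) (nat_lit 7) (node (nat_lit 5) (nat_lit 49908) (nat_lit 8) (node (nat_lit 6)
  (nat_lit 42332) (nat_lit 9) (node (nat_lit 4) (nat_lit 31880) (nat_lit 10) nil nil) nil) nil)
  (node (nat_lit 6) (nat_lit 65649) (nat_lit 7) (node (nat_lit 5) (nat_lit 66912) (nat_lit 8) nil
  nil) nil)) (node (nat_lit 0) (nat_lit 66232) (nat_lit 6) nil nil))))) nil))))) (node (nat_lit 3)
  (nat_lit 0) (nat_lit 4) (node (nat_lit 4) (nat_lit 65079) (nat_lit 5) (node (nat_lit 5) (nat_lit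
  67734) (nat_lit 6) (node (nat_lit 6) (nat_lit 31959) (nat_lit 7) nil nil) (node (nat_lit 6)
  (nat_lit 67984) (nat_lit 6) (node (nat_lit 5) (nat_lit 69904) (nat_lit 7) nil nil) (node
  (nat_lit 7) (nat_lit 67035) (nat_lit 6) nil (node (nat_lit 0) (nat_lit 67734) (nat_lit 6) nil
  (node (nat_lit 2) (nat_lit 60130) (nat_lit 6) nil nil))))) (node (nat_lit 5) (nat_lit 0)
  (nat_lit 5) (node (nat_lit 7) (nat_lit 65745) (nat_lit 6) (node (nat_lit 6) (nat_lit 69258)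
  (nat_lit 7) nil (node (nat_lit 4) (nat_lit 67664) (nat_lit 7) nil nil)) (node (nat_lit 4)
  (nat_lit 65779) (nat_lit 6) (node (nat_lit 7) (nat_lit 66018) (nat_lit 7) (node (nat_lit 4)
  (nat_lit 64161) (nat_lit 8) (node (nat_lit 5) (nat_lit 59718) (nat_lit 9) (node (nat_lit 6)
  (nat_lit 53133) (nat_lit 10) (node (nat_lit 7) (nat_lit 47416) (nat_lit 11) (node (nat_lit 5)
  (nat_lit 30729) (nat_lit 12) nil nil) nil) nil) nil) nil) (node (nat_lit 5) (nat_lit 52867)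
  (nat_lit 7) (node (nat_lit 6) (nat_lit 35159) (nat_lit 8) nil nil) nil)) (node (nat_lit 6)
  (nat_lit 68826) (nat_lit 6) (node (nat_lit 5) (nat_lit 70745) (nat_lit 7) nil nil) (node
  (nat_lit 0) (nat_lit 68253) (nat_lit 6) (node (nat_lit 5) (nat_lit 70173) (nat_lit 7) (node
  (nat_lit 6) (nat_lit 71437) (nat_lit 8) (node (nat_lit 7) (nat_lit 70463) (nat_lit 9) nil nil)
  nil) nil) (node (nat_lit 2) (nat_lit 60592) (nat_lit 6) (node (nat_lit 5) (nat_lit 62227)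
  (nat_lit 7) (node (nat_lit 6) (nat_lit 63491) (nat_lit 8) (node (nat_lit 7) (nat_lit 62828)
  (nat_lit 9) nil nil) nil) nil) nil))))) (node (nat_lit 6) (nat_lit 66095) (nat_lit 5) (node
  (nat_lit 5) (nat_lit 69258) (nat_lit 6) (node (nat_lit 6) (nat_lit 71178) (nat_lit 7) nil nil)
  (node (nat_lit 4) (nat_lit 69952) (nat_lit 6) nil nil)) (node (nat_lit 0) (nat_lit 64802)
  (nat_lit 5) (node (nat_lit 5) (nat_lit 67457) (nat_lit 6) nil (node (nat_lit 7) (nat_lit 66758)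
  (nat_lit 6) (node (nat_lit 5) (nat_lit 62918) (nat_lit 7) (node (nat_lit 7) (nat_lit 64181)
  (nat_lit 8) nil nil) (node (nat_lit 4) (nat_lit 68677) (nat_lit 7) nil nil)) nil)) (node
  (nat_lit 2) (nat_lit 61527) (nat_lit 5) (node (nat_lit 6) (nat_lit 65854) (nat_lit 6) nil (node
  (nat_lit 5) (nat_lit 64182) (nat_lit 6) (node (nat_lit 7) (nat_lit 63478) (nat_lit 7) nil (node
  (nat_lit 4) (nat_lit 60552) (nat_lit 7) nil nil)) (node (nat_lit 7) (nat_lit 62900) (nat_lit 6)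
  (node (nat_lit 5) (nat_lit 62953) (nat_lit 7) (node (nat_lit 7) (nat_lit 64216) (nat_lit 8) nil
  nil) (node (nat_lit 6) (nat_lit 64819) (nat_lit 7) nil (node (nat_lit 4) (nat_lit 56033)
  (nat_lit 7) nil nil))) (node (nat_lit 4) (nat_lit 62596) (nat_lit 6) nil nil)))) nil))))) (node
  (nat_lit 0) (nat_lit 0) (nat_lit 4) (node (nat_lit 5) (nat_lit 64526) (nat_lit 5) (node (nat_lit
  6) (nat_lit 70197) (nat_lit 6) (node (nat_lit 5) (nat_lit 72117) (nat_lit 7) nil nil) (node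
  (nat_lit 7) (nat_lit 68801) (nat_lit 6) nil (node (nat_lit 4) (nat_lit 69285) (nat_lit 6) (node
  (nat_lit 5) (nat_lit 71205) (nat_lit 7) (node (nat_lit 6) (nat_lit 72469) (nat_lit 8) nil nil)
  nil) (node (nat_lit 3) (nat_lit 63656) (nat_lit 6) nil nil)))) (node (nat_lit 6) (nat_lit 66816)
  (nat_lit 5) (node (nat_lit 5) (nat_lit 69471) (nat_lit 6) nil nil) (node (nat_lit 4) (nat_lit
  65721) (nat_lit 5) nil (node (nat_lit 3) (nat_lit 64542) (nat_lit 5) (node (nat_lit 4) (nat_lit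
  67962) (nat_lit 6) (node (nat_lit 5) (nat_lit 69882) (nat_lit 7) nil nil) (node (nat_lit 6)
  (nat_lit 67197) (nat_lit 6) (node (nat_lit 5) (nat_lit 69117) (nat_lit 7) nil nil) nil)) (node
  (nat_lit 0) (nat_lit 65317) (nat_lit 5) nil (node (nat_lit 2) (nat_lit 64690) (nat_lit 5) (node
  (nat_lit 5) (nat_lit 62312) (nat_lit 6) nil (node (nat_lit 3) (nat_lit 63378) (nat_lit 6) (node
  (nat_lit 4) (nat_lit 58324) (nat_lit 7) nil (node (nat_lit 5) (nat_lit 63064) (nat_lit 7) nil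
  nil)) nil)) nil)))))) (node (nat_lit 2) (nat_lit 0) (nat_lit 4) (node (nat_lit 5) (nat_lit
  60471) (nat_lit 5) (node (nat_lit 6) (nat_lit 67312) (nat_lit 6) (node (nat_lit 5) (nat_lit
  69232) (nat_lit 7) nil nil) (node (nat_lit 7) (nat_lit 64684) (nat_lit 6) nil (node (nat_lit 4)
  (nat_lit 66740) (nat_lit 6) (node (nat_lit 5) (nat_lit 51939) (nat_lit 7) (node (nat_lit 6)
  (nat_lit 33529) (nat_lit 8) nil nil) nil) (node (nat_lit 3) (nat_lit 63224) (nat_lit 6) nil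
  nil)))) (node (nat_lit 6) (nat_lit 65894) (nat_lit 5) (node (nat_lit 5) (nat_lit 68549) (nat_lit
  6) nil (node (nat_lit 4) (nat_lit 69615) (nat_lit 6) (node (nat_lit 7) (nat_lit 65874) (nat_lit
  7) (node (nat_lit 5) (nat_lit 65683) (nat_lit 8) nil nil) nil) nil)) (node (nat_lit 4) (nat_lit
  64348) (nat_lit 5) (node (nat_lit 6) (nat_lit 67253) (nat_lit 6) nil (node (nat_lit 7) (nat_lit
  64505) (nat_lit 6) (node (nat_lit 5) (nat_lit 64210) (nat_lit 7) nil nil) nil)) (node (nat_lit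
  3) (nat_lit 60850) (nat_lit 5) (node (nat_lit 4) (nat_lit 62127) (nat_lit 6) (node (nat_lit 5)
  (nat_lit 44575) (nat_lit 7) (node (nat_lit 6) (nat_lit 30979) (nat_lit 8) nil nil) nil) (node
  (nat_lit 6) (nat_lit 65177) (nat_lit 6) nil (node (nat_lit 5) (nat_lit 63506) (nat_lit 6) nil
  (node (nat_lit 7) (nat_lit 63811) (nat_lit 6) nil nil)))) (node (nat_lit 0) (nat_lit 64688)
  (nat_lit 5) nil nil))))) nil)))))

noncomputable def t4 : Tr :=
  (node (nat_lit 6) (nat_lit 46567) (nat_lit 5) (node (nat_lit 5) (nat_lit 52901) (nat_lit 6)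
  (node (nat_lit 6) (nat_lit 56703) (nat_lit 7) (node (nat_lit 4) (nat_lit 64053) (nat_lit 8)
  (node (nat_lit 5) (nat_lit 65417) (nat_lit 9) (node (nat_lit 4) (nat_lit 65245) (nat_lit 10)
  (node (nat_lit 6) (nat_lit 64921) (nat_lit 11) (node (nat_lit 5) (nat_lit 65292) (nat_lit 12)
  (node (nat_lit 4) (nat_lit 64851) (nat_lit 13) (node (nat_lit 5) (nat_lit 65073) (nat_lit 14)
  (node (nat_lit 6) (nat_lit 64814) (nat_lit 15) (node (nat_lit 4) (nat_lit 64611) (nat_lit 16)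
  (node (nat_lit 6) (nat_lit 64453) (nat_lit 17) (node (nat_lit 5) (nat_lit 64527) (nat_lit 18)
  (node (nat_lit 6) (nat_lit 63695) (nat_lit 19) (node (nat_lit 4) (nat_lit 59371) (nat_lit 20)
  (node (nat_lit 5) (nat_lit 51777) (nat_lit 21) (node (nat_lit 4) (nat_lit 28555) (nat_lit 22)
  nil nil) nil) nil) nil) nil) nil) nil) nil) nil) nil) nil) nil) (node (nat_lit 6) (nat_lit
  65020) (nat_lit 10) (node (nat_lit 5) (nat_lit 65865) (nat_lit 11) (node (nat_lit 4) (nat_lit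
  65523) (nat_lit 12) (node (nat_lit 5) (nat_lit 65808) (nat_lit 13) (node (nat_lit 6) (nat_lit
  65474) (nat_lit 14) (node (nat_lit 4) (nat_lit 65215) (nat_lit 15) (node (nat_lit 6) (nat_lit
  62999) (nat_lit 16) (node (nat_lit 5) (nat_lit 58692) (nat_lit 17) (node (nat_lit 6) (nat_lit
  53927) (nat_lit 18) (node (nat_lit 4) (nat_lit 48345) (nat_lit 19) (node (nat_lit 5) (nat_lit
  37652) (nat_lit 20) nil nil) nil) nil) nil) nil) nil) nil) nil) nil) nil) nil)) (node (nat_lit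
  3) (nat_lit 64623) (nat_lit 9) nil nil)) (node (nat_lit 3) (nat_lit 66696) (nat_lit 8) nil nil))
  (node (nat_lit 4) (nat_lit 58917) (nat_lit 7) (node (nat_lit 5) (nat_lit 61501) (nat_lit 8)
  (node (nat_lit 6) (nat_lit 62758) (nat_lit 9) (node (nat_lit 4) (nat_lit 38394) (nat_lit 10)
  (node (nat_lit 5) (nat_lit 38394) (nat_lit 11) (node (nat_lit 4) (nat_lit 38394) (nat_lit 12)
  (node (nat_lit 6) (nat_lit 38394) (nat_lit 13) (node (nat_lit 5) (nat_lit 38394) (nat_lit 14)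
  (node (nat_lit 6) (nat_lit 38394) (nat_lit 15) (node (nat_lit 4) (nat_lit 38394) (nat_lit 16)
  nil nil) (node (nat_lit 4) (nat_lit 38394) (nat_lit 15) (node (nat_lit 5) (nat_lit 38394)
  (nat_lit 16) (node (nat_lit 6) (nat_lit 38394) (nat_lit 17) (node (nat_lit 4) (nat_lit 38394)
  (nat_lit 18) (node (nat_lit 6) (nat_lit 38394) (nat_lit 19) (node (nat_lit 5) (nat_lit 38394)
  (nat_lit 20) (node (nat_lit 4) (nat_lit 38394) (nat_lit 21) nil nil) nil) nil) (node (nat_lit 5)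
  (nat_lit 38394) (nat_lit 18) (node (nat_lit 4) (nat_lit 38394) (nat_lit 19) nil nil) nil)) nil)
  nil) (node (nat_lit 3) (nat_lit 38394) (nat_lit 15) nil nil))) (node (nat_lit 4) (nat_lit 38394)
  (nat_lit 14) nil (node (nat_lit 3) (nat_lit 38394) (nat_lit 14) (node (nat_lit 4) (nat_lit
  38394) (nat_lit 15) nil (node (nat_lit 5) (nat_lit 38394) (nat_lit 15) nil nil)) (node (nat_lit
  0) (nat_lit 38394) (nat_lit 14) (node (nat_lit 5) (nat_lit 38394) (nat_lit 15) nil nil) nil))))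
  (node (nat_lit 3) (nat_lit 38394) (nat_lit 13) (node (nat_lit 5) (nat_lit 38394) (nat_lit 14)
  (node (nat_lit 4) (nat_lit 38394) (nat_lit 15) nil nil) (node (nat_lit 6) (nat_lit 38394)
  (nat_lit 14) nil (node (nat_lit 4) (nat_lit 38394) (nat_lit 14) nil nil))) (node (nat_lit 0)
  (nat_lit 38394) (nat_lit 13) (node (nat_lit 5) (nat_lit 38394) (nat_lit 14) (node (nat_lit 4)
  (nat_lit 38394) (nat_lit 15) nil nil) (node (nat_lit 4) (nat_lit 38394) (nat_lit 14) nil nil))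
  nil))) (node (nat_lit 0) (nat_lit 38394) (nat_lit 12) (node (nat_lit 4) (nat_lit 38394) (nat_lit
  13) nil (node (nat_lit 6) (nat_lit 38394) (nat_lit 13) (node (nat_lit 5) (nat_lit 38394)
  (nat_lit 14) nil nil) (node (nat_lit 5) (nat_lit 38394) (nat_lit 13) (node (nat_lit 4) (nat_lit
  38394) (nat_lit 14) nil nil) nil))) (node (nat_lit 3) (nat_lit 38394) (nat_lit 12) (node
  (nat_lit 4) (nat_lit 38394) (nat_lit 13) (node (nat_lit 5) (nat_lit 38394) (nat_lit 14) (node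
  (nat_lit 6) (nat_lit 38394) (nat_lit 15) (node (nat_lit 4) (nat_lit 38394) (nat_lit 16) nil nil)
  nil) nil) (node (nat_lit 5) (nat_lit 38394) (nat_lit 13) (node (nat_lit 4) (nat_lit 38394)
  (nat_lit 14) nil nil) (node (nat_lit 6) (nat_lit 38394) (nat_lit 13) (node (nat_lit 5) (nat_lit
  38394) (nat_lit 14) nil nil) nil))) nil))) (node (nat_lit 0) (nat_lit 38394) (nat_lit 11) (node
  (nat_lit 6) (nat_lit 38394) (nat_lit 12) (node (nat_lit 4) (nat_lit 38394) (nat_lit 13) nil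
  (node (nat_lit 5) (nat_lit 38394) (nat_lit 13) nil (node (nat_lit 14) (nat_lit 38394) (nat_lit
  13) nil nil))) (node (nat_lit 4) (nat_lit 38394) (nat_lit 12) (node (nat_lit 6) (nat_lit 38394)
  (nat_lit 13) (node (nat_lit 5) (nat_lit 38394) (nat_lit 14) nil nil) (node (nat_lit 5) (nat_lit
  38394) (nat_lit 13) nil (node (nat_lit 3) (nat_lit 38394) (nat_lit 13) nil nil))) (node (nat_lit
  5) (nat_lit 38394) (nat_lit 12) (node (nat_lit 4) (nat_lit 38394) (nat_lit 13) (node (nat_lit 5)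
  (nat_lit 38394) (nat_lit 14) nil nil) nil) (node (nat_lit 3) (nat_lit 38394) (nat_lit 12) (node
  (nat_lit 4) (nat_lit 38394) (nat_lit 13) nil nil) (node (nat_lit 0) (nat_lit 38394) (nat_lit 12)
  nil nil))))) (node (nat_lit 3) (nat_lit 38394) (nat_lit 11) (node (nat_lit 6) (nat_lit 38394)
  (nat_lit 12) (node (nat_lit 4) (nat_lit 38394) (nat_lit 13) nil (node (nat_lit 5) (nat_lit
  38394) (nat_lit 13) nil (node (nat_lit 14) (nat_lit 38394) (nat_lit 13) (node (nat_lit 4)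
  (nat_lit 38394) (nat_lit 14) nil nil) nil))) (node (nat_lit 4) (nat_lit 38394) (nat_lit 12)
  (node (nat_lit 6) (nat_lit 38394) (nat_lit 13) (node (nat_lit 5) (nat_lit 38394) (nat_lit 14)
  nil (node (nat_lit 14) (nat_lit 38394) (nat_lit 14) nil nil)) (node (nat_lit 5) (nat_lit 38394)
  (nat_lit 13) (node (nat_lit 6) (nat_lit 38394) (nat_lit 14) (node (nat_lit 4) (nat_lit 36157)
  (nat_lit 15) nil nil) nil) nil)) (node (nat_lit 5) (nat_lit 38394) (nat_lit 12) (node (nat_lit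
  4) (nat_lit 38394) (nat_lit 13) (node (nat_lit 5) (nat_lit 38394) (nat_lit 14) nil nil) (node
  (nat_lit 14) (nat_lit 38394) (nat_lit 13) nil nil)) (node (nat_lit 0) (nat_lit 38394) (nat_lit
  12) (node (nat_lit 14) (nat_lit 38394) (nat_lit 13) nil nil) nil)))) (node (nat_lit 6) (nat_lit
  26992) (nat_lit 11) (node (nat_lit 3) (nat_lit 26992) (nat_lit 12) (node (nat_lit 4) (nat_lit
  26992) (nat_lit 13) (node (nat_lit 6) (nat_lit 26992) (nat_lit 14) (node (nat_lit 5) (nat_lit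
  27458) (nat_lit 15) nil nil) nil) (node (nat_lit 6) (nat_lit 26992) (nat_lit 13) (node (nat_lit
  5) (nat_lit 27430) (nat_lit 14) nil nil) (node (nat_lit 5) (nat_lit 27394) (nat_lit 13) nil
  nil))) (node (nat_lit 0) (nat_lit 27739) (nat_lit 12) (node (nat_lit 6) (nat_lit 27739) (nat_lit
  13) (node (nat_lit 5) (nat_lit 27821) (nat_lit 14) nil nil) (node (nat_lit 4) (nat_lit 27739)
  (nat_lit 13) nil (node (nat_lit 5) (nat_lit 27785) (nat_lit 13) nil nil))) nil)) nil)))) (node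
  (nat_lit 5) (nat_lit 63874) (nat_lit 10) (node (nat_lit 4) (nat_lit 63255) (nat_lit 11) (node
  (nat_lit 6) (nat_lit 63596) (nat_lit 12) (node (nat_lit 4) (nat_lit 63425) (nat_lit 13) nil nil)
  (node (nat_lit 3) (nat_lit 61554) (nat_lit 12) nil nil)) (node (nat_lit 3) (nat_lit 63653)
  (nat_lit 11) (node (nat_lit 4) (nat_lit 64240) (nat_lit 12) nil (node (nat_lit 5) (nat_lit
  63846) (nat_lit 12) nil nil)) (node (nat_lit 0) (nat_lit 64719) (nat_lit 11) nil nil))) (node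
  (nat_lit 3) (nat_lit 63766) (nat_lit 10) (node (nat_lit 4) (nat_lit 63910) (nat_lit 11) nil nil)
  (node (nat_lit 0) (nat_lit 64188) (nat_lit 10) nil nil)))) (node (nat_lit 3) (nat_lit 65826)
  (nat_lit 9) (node (nat_lit 4) (nat_lit 66861) (nat_lit 10) (node (nat_lit 5) (nat_lit 67706)
  (nat_lit 11) (node (nat_lit 6) (nat_lit 66640) (nat_lit 12) (node (nat_lit 4) (nat_lit 66469)
  (nat_lit 13) nil nil) nil) nil) nil) (node (nat_lit 0) (nat_lit 65462) (nat_lit 9) nil nil)))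
  (node (nat_lit 6) (nat_lit 65156) (nat_lit 8) (node (nat_lit 4) (nat_lit 68376) (nat_lit 9)
  (node (nat_lit 5) (nat_lit 68404) (nat_lit 10) (node (nat_lit 6) (nat_lit 68080) (nat_lit 11)
  (node (nat_lit 5) (nat_lit 68779) (nat_lit 12) (node (nat_lit 4) (nat_lit 68608) (nat_lit 13)
  (node (nat_lit 5) (nat_lit 69041) (nat_lit 14) (node (nat_lit 6) (nat_lit 68946) (nat_lit 15)
  (node (nat_lit 4) (nat_lit 68872) (nat_lit 16) (node (nat_lit 6) (nat_lit 68424) (nat_lit 17)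
  (node (nat_lit 5) (nat_lit 65788) (nat_lit 18) (node (nat_lit 4) (nat_lit 62451) (nat_lit 19)
  (node (nat_lit 6) (nat_lit 54913) (nat_lit 20) (node (nat_lit 4) (nat_lit 52089) (nat_lit 21)
  (node (nat_lit 5) (nat_lit 31520) (nat_lit 22) nil nil) nil) nil) nil) nil) nil) nil) nil) nil)
  nil) nil) nil) (node (nat_lit 3) (nat_lit 67235) (nat_lit 10) (node (nat_lit 4) (nat_lit 68225)
  (nat_lit 11) (node (nat_lit 5) (nat_lit 65398) (nat_lit 12) nil nil) nil) nil)) (node (nat_lit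
  3) (nat_lit 67421) (nat_lit 9) (node (nat_lit 4) (nat_lit 64434) (nat_lit 10) (node (nat_lit 5)
  (nat_lit 64141) (nat_lit 11) (node (nat_lit 6) (nat_lit 60133) (nat_lit 12) (node (nat_lit 4)
  (nat_lit 56037) (nat_lit 13) (node (nat_lit 6) (nat_lit 43682) (nat_lit 14) nil nil) nil) nil)
  nil) nil) (node (nat_lit 0) (nat_lit 66555) (nat_lit 9) nil nil))) (node (nat_lit 3) (nat_lit
  67877) (nat_lit 8) (node (nat_lit 4) (nat_lit 66162) (nat_lit 9) (node (nat_lit 5) (nat_lit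
  65389) (nat_lit 10) (node (nat_lit 6) (nat_lit 61476) (nat_lit 11) (node (nat_lit 4) (nat_lit
  53791) (nat_lit 12) (node (nat_lit 6) (nat_lit 46121) (nat_lit 13) (node (nat_lit 5) (nat_lit
  33929) (nat_lit 14) nil nil) nil) nil) nil) nil) (node (nat_lit 5) (nat_lit 68759) (nat_lit 9)
  nil nil)) (node (nat_lit 0) (nat_lit 69178) (nat_lit 8) (node (nat_lit 3) (nat_lit 68525)
  (nat_lit 9) (node (nat_lit 4) (nat_lit 69189) (nat_lit 10) nil nil) (node (nat_lit 5) (nat_lit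
  70060) (nat_lit 9) nil nil)) nil)))) (node (nat_lit 3) (nat_lit 65421) (nat_lit 7) (node
  (nat_lit 4) (nat_lit 68715) (nat_lit 8) (node (nat_lit 5) (nat_lit 69597) (nat_lit 9) (node
  (nat_lit 6) (nat_lit 67593) (nat_lit 10) (node (nat_lit 4) (nat_lit 67010) (nat_lit 11) (node
  (nat_lit 6) (nat_lit 65792) (nat_lit 12) (node (nat_lit 5) (nat_lit 31495) (nat_lit 13) nil nil)
  nil) nil) nil) nil) (node (nat_lit 6) (nat_lit 66547) (nat_lit 8) (node (nat_lit 5) (nat_lit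
  68013) (nat_lit 9) nil (node (nat_lit 10) (nat_lit 65998) (nat_lit 9) (node (nat_lit 4) (nat_lit
  62860) (nat_lit 10) nil nil) nil)) (node (nat_lit 5) (nat_lit 67320) (nat_lit 8) (node (nat_lit
  4) (nat_lit 66679) (nat_lit 9) (node (nat_lit 5) (nat_lit 66700) (nat_lit 10) (node (nat_lit 6)
  (nat_lit 60856) (nat_lit 11) (node (nat_lit 4) (nat_lit 52668) (nat_lit 12) nil nil) nil) nil)
  nil) (node (nat_lit 0) (nat_lit 68715) (nat_lit 8) nil nil)))) (node (nat_lit 0) (nat_lit 67422)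
  (nat_lit 7) (node (nat_lit 6) (nat_lit 67044) (nat_lit 8) nil (node (nat_lit 5) (nat_lit 69321)
  (nat_lit 8) (node (nat_lit 4) (nat_lit 68426) (nat_lit 9) (node (nat_lit 5) (nat_lit 69091)
  (nat_lit 10) (node (nat_lit 6) (nat_lit 67498) (nat_lit 11) (node (nat_lit 4) (nat_lit 67090)
  (nat_lit 12) nil nil) nil) nil) nil) (node (nat_lit 3) (nat_lit 69321) (nat_lit 8) (node
  (nat_lit 4) (nat_lit 70203) (nat_lit 9) nil nil) nil))) nil)))) (node (nat_lit 3) (nat_lit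
  61737) (nat_lit 6) (node (nat_lit 4) (nat_lit 65308) (nat_lit 7) (node (nat_lit 9) (nat_lit
  65239) (nat_lit 8) nil (node (nat_lit 6) (nat_lit 67207) (nat_lit 8) nil (node (nat_lit 5)
  (nat_lit 59626) (nat_lit 8) (node (nat_lit 6) (nat_lit 53560) (nat_lit 9) (node (nat_lit 4)
  (nat_lit 33565) (nat_lit 10) (node (nat_lit 6) (nat_lit 32400) (nat_lit 11) nil nil) nil) nil)
  nil))) (node (nat_lit 6) (nat_lit 65082) (nat_lit 7) (node (nat_lit 5) (nat_lit 66411) (nat_lit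
  8) (node (nat_lit 6) (nat_lit 65595) (nat_lit 9) (node (nat_lit 9) (nat_lit 66142) (nat_lit 10)
  (node (nat_lit 5) (nat_lit 65119) (nat_lit 11) (node (nat_lit 9) (nat_lit 65648) (nat_lit 12)
  nil nil) nil) nil) (node (nat_lit 4) (nat_lit 66234) (nat_lit 9) nil nil)) (node (nat_lit 4)
  (nat_lit 68474) (nat_lit 8) (node (nat_lit 9) (nat_lit 66910) (nat_lit 9) nil nil) nil)) (node
  (nat_lit 5) (nat_lit 64710) (nat_lit 7) (node (nat_lit 4) (nat_lit 64793) (nat_lit 8) (node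
  (nat_lit 5) (nat_lit 60524) (nat_lit 9) (node (nat_lit 6) (nat_lit 52321) (nat_lit 10) (node
  (nat_lit 4) (nat_lit 32109) (nat_lit 11) (node (nat_lit 6) (nat_lit 28300) (nat_lit 12) nil nil)
  nil) nil) nil) (node (nat_lit 9) (nat_lit 66609) (nat_lit 8) nil nil)) (node (nat_lit 0)
  (nat_lit 65416) (nat_lit 7) nil nil)))) (node (nat_lit 0) (nat_lit 64487) (nat_lit 6) (node
  (nat_lit 4) (nat_lit 66531) (nat_lit 7) nil (node (nat_lit 5) (nat_lit 66930) (nat_lit 7) (node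
  (nat_lit 4) (nat_lit 66552) (nat_lit 8) (node (nat_lit 5) (nat_lit 67435) (nat_lit 9) (node
  (nat_lit 6) (nat_lit 65430) (nat_lit 10) (node (nat_lit 4) (nat_lit 64847) (nat_lit 11) (node
  (nat_lit 6) (nat_lit 63630) (nat_lit 12) nil nil) nil) nil) nil) nil) (node (nat_lit 6) (nat_lit
  66373) (nat_lit 7) (node (nat_lit 5) (nat_lit 64532) (nat_lit 8) nil nil) (node (nat_lit 3)
  (nat_lit 66930) (nat_lit 7) (node (nat_lit 4) (nat_lit 68829) (nat_lit 8) nil nil) nil))))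
  nil))) (node (nat_lit 5) (nat_lit 46280) (nat_lit 5) (node (nat_lit 4) (nat_lit 52892) (nat_lit
  6) (node (nat_lit 6) (nat_lit 60250) (nat_lit 7) (node (nat_lit 5) (nat_lit 65023) (nat_lit 8)
  (node (nat_lit 6) (nat_lit 67934) (nat_lit 9) (node (nat_lit 3) (nat_lit 65390) (nat_lit 10) nil
  nil) (node (nat_lit 4) (nat_lit 67836) (nat_lit 9) (node (nat_lit 5) (nat_lit 68871) (nat_lit
  10) (node (nat_lit 6) (nat_lit 68547) (nat_lit 11) (node (nat_lit 4) (nat_lit 63564) (nat_lit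
  12) (node (nat_lit 5) (nat_lit 50995) (nat_lit 13) (node (nat_lit 4) (nat_lit 38394) (nat_lit
  14) nil nil) (node (nat_lit 6) (nat_lit 62913) (nat_lit 13) (node (nat_lit 5) (nat_lit 63001)
  (nat_lit 14) nil nil) nil)) nil) nil) (node (nat_lit 3) (nat_lit 65291) (nat_lit 10) nil nil))
  (node (nat_lit 3) (nat_lit 65621) (nat_lit 9) nil nil))) (node (nat_lit 3) (nat_lit 69236)
  (nat_lit 8) (node (nat_lit 4) (nat_lit 69290) (nat_lit 9) (node (nat_lit 5) (nat_lit 67735)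
  (nat_lit 10) (node (nat_lit 6) (nat_lit 57959) (nat_lit 11) (node (nat_lit 4) (nat_lit 55421)
  (nat_lit 12) (node (nat_lit 5) (nat_lit 36646) (nat_lit 13) (node (nat_lit 4) (nat_lit 34256)
  (nat_lit 14) nil nil) nil) nil) nil) nil) (node (nat_lit 5) (nat_lit 69013) (nat_lit 9) (node
  (nat_lit 4) (nat_lit 67894) (nat_lit 10) nil nil) nil)) (node (nat_lit 4) (nat_lit 66312)
  (nat_lit 8) nil (node (nat_lit 0) (nat_lit 69563) (nat_lit 8) (node (nat_lit 3) (nat_lit 68910)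
  (nat_lit 9) nil nil) nil)))) (node (nat_lit 3) (nat_lit 65750) (nat_lit 7) (node (nat_lit 5)
  (nat_lit 67019) (nat_lit 8) (node (nat_lit 4) (nat_lit 66032) (nat_lit 9) (node (nat_lit 5)
  (nat_lit 64921) (nat_lit 10) (node (nat_lit 6) (nat_lit 60517) (nat_lit 11) (node (nat_lit 4)
  (nat_lit 54456) (nat_lit 12) (node (nat_lit 5) (nat_lit 46410) (nat_lit 13) (node (nat_lit 4)
  (nat_lit 36946) (nat_lit 14) nil nil) nil) nil) nil) nil) (node (nat_lit 10) (nat_lit 67901)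
  (nat_lit 9) nil nil)) (node (nat_lit 4) (nat_lit 67086) (nat_lit 8) (node (nat_lit 5) (nat_lit
  60607) (nat_lit 9) (node (nat_lit 6) (nat_lit 52733) (nat_lit 10) (node (nat_lit 4) (nat_lit
  35794) (nat_lit 11) (node (nat_lit 5) (nat_lit 36030) (nat_lit 12) nil nil) nil) nil) nil) nil))
  (node (nat_lit 0) (nat_lit 67916) (nat_lit 7) (node (nat_lit 5) (nat_lit 69815) (nat_lit 8) nil
  (node (nat_lit 3) (nat_lit 67847) (nat_lit 8) (node (nat_lit 4) (nat_lit 68729) (nat_lit 9) nil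
  nil) nil)) nil))) (node (nat_lit 3) (nat_lit 62093) (nat_lit 6) (node (nat_lit 4) (nat_lit
  67522) (nat_lit 7) (node (nat_lit 5) (nat_lit 69421) (nat_lit 8) (node (nat_lit 6) (nat_lit
  66990) (nat_lit 9) (node (nat_lit 4) (nat_lit 66223) (nat_lit 10) (node (nat_lit 5) (nat_lit
  33749) (nat_lit 11) nil nil) nil) nil) nil) (node (nat_lit 5) (nat_lit 66316) (nat_lit 7) nil
  (node (nat_lit 6) (nat_lit 66153) (nat_lit 7) nil nil))) (node (nat_lit 0) (nat_lit 64584)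
  (nat_lit 6) (node (nat_lit 6) (nat_lit 63990) (nat_lit 7) nil (node (nat_lit 5) (nat_lit 67045)
  (nat_lit 7) nil nil)) nil))) (node (nat_lit 3) (nat_lit 55144) (nat_lit 5) (node (nat_lit 6)
  (nat_lit 60162) (nat_lit 6) (node (nat_lit 8) (nat_lit 64119) (nat_lit 7) (node (nat_lit 4)
  (nat_lit 65710) (nat_lit 8) (node (nat_lit 6) (nat_lit 66835) (nat_lit 9) (node (nat_lit 4)
  (nat_lit 66753) (nat_lit 10) (node (nat_lit 8) (nat_lit 65896) (nat_lit 11) (node (nat_lit 4)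
  (nat_lit 64149) (nat_lit 12) nil nil) nil) (node (nat_lit 5) (nat_lit 67499) (nat_lit 10) (node
  (nat_lit 4) (nat_lit 67146) (nat_lit 11) (node (nat_lit 5) (nat_lit 63792) (nat_lit 12) nil nil)
  nil) nil)) (node (nat_lit 8) (nat_lit 66813) (nat_lit 9) (node (nat_lit 6) (nat_lit 66099)
  (nat_lit 10) (node (nat_lit 5) (nat_lit 65077) (nat_lit 11) nil nil) (node (nat_lit 5) (nat_lit
  67478) (nat_lit 10) (node (nat_lit 4) (nat_lit 63858) (nat_lit 11) nil nil) nil)) (node (nat_lit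
  5) (nat_lit 60071) (nat_lit 9) (node (nat_lit 6) (nat_lit 52691) (nat_lit 10) (node (nat_lit 4)
  (nat_lit 47987) (nat_lit 11) (node (nat_lit 8) (nat_lit 33344) (nat_lit 12) nil nil) nil) nil)
  nil))) (node (nat_lit 5) (nat_lit 65705) (nat_lit 8) (node (nat_lit 4) (nat_lit 67049) (nat_lit
  9) nil (node (nat_lit 6) (nat_lit 63265) (nat_lit 9) nil nil)) (node (nat_lit 0) (nat_lit 65383)
  (nat_lit 8) nil nil))) (node (nat_lit 5) (nat_lit 63556) (nat_lit 7) (node (nat_lit 6) (nat_lit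
  62543) (nat_lit 8) nil (node (nat_lit 8) (nat_lit 65847) (nat_lit 8) (node (nat_lit 4) (nat_lit
  66720) (nat_lit 9) (node (nat_lit 5) (nat_lit 67384) (nat_lit 10) (node (nat_lit 6) (nat_lit
  65792) (nat_lit 11) nil nil) nil) (node (nat_lit 5) (nat_lit 66781) (nat_lit 9) (node (nat_lit
  4) (nat_lit 61935) (nat_lit 10) nil nil) nil)) (node (nat_lit 4) (nat_lit 66342) (nat_lit 8)
  (node (nat_lit 5) (nat_lit 61519) (nat_lit 9) (node (nat_lit 6) (nat_lit 54377) (nat_lit 10)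
  (node (nat_lit 4) (nat_lit 48811) (nat_lit 11) (node (nat_lit 8) (nat_lit 32730) (nat_lit 12)
  nil nil) nil) nil) (node (nat_lit 6) (nat_lit 65438) (nat_lit 9) nil (node (nat_lit 8) (nat_lit
  62932) (nat_lit 9) nil nil))) (node (nat_lit 0) (nat_lit 64819) (nat_lit 8) nil nil)))) (node
  (nat_lit 4) (nat_lit 65551) (nat_lit 7) (node (nat_lit 6) (nat_lit 67361) (nat_lit 8) (node
  (nat_lit 8) (nat_lit 67503) (nat_lit 9) (node (nat_lit 4) (nat_lit 66680) (nat_lit 10) (node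
  (nat_lit 6) (nat_lit 66601) (nat_lit 11) nil (node (nat_lit 5) (nat_lit 64608) (nat_lit 11) nil
  nil)) (node (nat_lit 6) (nat_lit 67480) (nat_lit 10) nil nil)) (node (nat_lit 5) (nat_lit 68235)
  (nat_lit 9) (node (nat_lit 4) (nat_lit 67653) (nat_lit 10) (node (nat_lit 5) (nat_lit 66659)
  (nat_lit 11) (node (nat_lit 6) (nat_lit 62998) (nat_lit 12) (node (nat_lit 4) (nat_lit 59526)
  (nat_lit 13) nil nil) nil) nil) nil) nil)) (node (nat_lit 5) (nat_lit 66815) (nat_lit 8) nil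
  nil)) (node (nat_lit 0) (nat_lit 65740) (nat_lit 7) (node (nat_lit 5) (nat_lit 67004) (nat_lit
  8) nil nil) nil)))) (node (nat_lit 5) (nat_lit 59696) (nat_lit 6) (node (nat_lit 4) (nat_lit
  64996) (nat_lit 7) (node (nat_lit 5) (nat_lit 57148) (nat_lit 8) (node (nat_lit 8) (nat_lit
  57148) (nat_lit 9) (node (nat_lit 4) (nat_lit 57701) (nat_lit 10) nil nil) (node (nat_lit 6)
  (nat_lit 49727) (nat_lit 9) (node (nat_lit 4) (nat_lit 35661) (nat_lit 10) (node (nat_lit 8)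
  (nat_lit 19010) (nat_lit 11) nil nil) nil) nil)) (node (nat_lit 8) (nat_lit 66758) (nat_lit 8)
  (node (nat_lit 4) (nat_lit 65728) (nat_lit 9) (node (nat_lit 5) (nat_lit 63698) (nat_lit 10)
  (node (nat_lit 6) (nat_lit 58532) (nat_lit 11) (node (nat_lit 4) (nat_lit 50943) (nat_lit 12)
  (node (nat_lit 8) (nat_lit 32928) (nat_lit 13) nil nil) nil) nil) nil) nil) (node (nat_lit 6)
  (nat_lit 64836) (nat_lit 8) nil nil))) (node (nat_lit 8) (nat_lit 63441) (nat_lit 7) (node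
  (nat_lit 4) (nat_lit 64705) (nat_lit 8) (node (nat_lit 5) (nat_lit 65578) (nat_lit 9) (node
  (nat_lit 6) (nat_lit 63574) (nat_lit 10) (node (nat_lit 4) (nat_lit 62991) (nat_lit 11) (node
  (nat_lit 8) (nat_lit 62584) (nat_lit 12) (node (nat_lit 5) (nat_lit 30013) (nat_lit 13) nil nil)
  nil) nil) nil) nil) (node (nat_lit 0) (nat_lit 64705) (nat_lit 8) nil nil)) (node (nat_lit 6)
  (nat_lit 62531) (nat_lit 7) (node (nat_lit 8) (nat_lit 64601) (nat_lit 8) (node (nat_lit 6)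
  (nat_lit 63939) (nat_lit 9) (node (nat_lit 5) (nat_lit 64079) (nat_lit 10) nil nil) (node
  (nat_lit 4) (nat_lit 63961) (nat_lit 9) (node (nat_lit 5) (nat_lit 61932) (nat_lit 10) (node
  (nat_lit 6) (nat_lit 56690) (nat_lit 11) (node (nat_lit 4) (nat_lit 49177) (nat_lit 12) (node
  (nat_lit 8) (nat_lit 30502) (nat_lit 13) nil nil) nil) nil) nil) nil)) (node (nat_lit 5)
  (nat_lit 59938) (nat_lit 8) nil nil)) (node (nat_lit 0) (nat_lit 62407) (nat_lit 7) nil nil))))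
  (node (nat_lit 4) (nat_lit 59287) (nat_lit 6) (node (nat_lit 5) (nat_lit 49775) (nat_lit 7)
  (node (nat_lit 6) (nat_lit 37389) (nat_lit 8) (node (nat_lit 4) (nat_lit 34433) (nat_lit 9) nil
  (node (nat_lit 5) (nat_lit 37778) (nat_lit 9) (node (nat_lit 4) (nat_lit 38073) (nat_lit 10)
  (node (nat_lit 5) (nat_lit 32906) (nat_lit 11) nil (node (nat_lit 8) (nat_lit 37324) (nat_lit
  11) nil nil)) (node (nat_lit 8) (nat_lit 36836) (nat_lit 10) nil nil)) (node (nat_lit 8)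
  (nat_lit 37778) (nat_lit 9) (node (nat_lit 5) (nat_lit 38073) (nat_lit 10) nil nil) (node
  (nat_lit 0) (nat_lit 37778) (nat_lit 9) nil nil)))) (node (nat_lit 4) (nat_lit 51919) (nat_lit
  8) (node (nat_lit 8) (nat_lit 52693) (nat_lit 9) (node (nat_lit 5) (nat_lit 53041) (nat_lit 10)
  (node (nat_lit 4) (nat_lit 52650) (nat_lit 11) (node (nat_lit 5) (nat_lit 50899) (nat_lit 12)
  nil nil) nil) (node (nat_lit 4) (nat_lit 53038) (nat_lit 10) nil nil)) (node (nat_lit 6)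
  (nat_lit 51959) (nat_lit 9) nil nil)) (node (nat_lit 8) (nat_lit 51606) (nat_lit 8) (node
  (nat_lit 5) (nat_lit 52479) (nat_lit 9) (node (nat_lit 4) (nat_lit 52316) (nat_lit 10) nil nil)
  (node (nat_lit 6) (nat_lit 51024) (nat_lit 9) (node (nat_lit 5) (nat_lit 51164) (nat_lit 10) nil
  nil) (node (nat_lit 4) (nat_lit 52710) (nat_lit 9) (node (nat_lit 6) (nat_lit 50706) (nat_lit
  10) nil nil) nil))) (node (nat_lit 0) (nat_lit 51343) (nat_lit 8) nil nil)))) (node (nat_lit 6)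
  (nat_lit 62665) (nat_lit 7) (node (nat_lit 8) (nat_lit 64475) (nat_lit 8) (node (nat_lit 4)
  (nat_lit 64868) (nat_lit 9) (node (nat_lit 5) (nat_lit 58184) (nat_lit 10) (node (nat_lit 6)
  (nat_lit 48118) (nat_lit 11) (node (nat_lit 4) (nat_lit 37560) (nat_lit 12) (node (nat_lit 8)
  (nat_lit 37123) (nat_lit 13) (node (nat_lit 4) (nat_lit 33927) (nat_lit 14) nil nil) nil) nil)
  nil) nil) (node (nat_lit 6) (nat_lit 65126) (nat_lit 9) (node (nat_lit 5) (nat_lit 63953)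
  (nat_lit 10) nil nil) (node (nat_lit 5) (nat_lit 62601) (nat_lit 9) (node (nat_lit 4) (nat_lit
  60502) (nat_lit 10) nil nil) nil))) (node (nat_lit 5) (nat_lit 63275) (nat_lit 8) (node (nat_lit
  4) (nat_lit 63668) (nat_lit 9) (node (nat_lit 5) (nat_lit 64332) (nat_lit 10) (node (nat_lit 6)
  (nat_lit 60050) (nat_lit 11) (node (nat_lit 4) (nat_lit 52150) (nat_lit 12) (node (nat_lit 8)
  (nat_lit 25741) (nat_lit 13) nil nil) nil) nil) nil) (node (nat_lit 6) (nat_lit 62364) (nat_lit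
  9) (node (nat_lit 8) (nat_lit 59731) (nat_lit 10) nil nil) nil)) (node (nat_lit 4) (nat_lit
  64528) (nat_lit 8) (node (nat_lit 8) (nat_lit 65037) (nat_lit 9) (node (nat_lit 6) (nat_lit
  65653) (nat_lit 10) (node (nat_lit 8) (nat_lit 63819) (nat_lit 11) nil nil) nil) nil) nil)))
  (node (nat_lit 0) (nat_lit 62928) (nat_lit 7) (node (nat_lit 8) (nat_lit 62224) (nat_lit 8) nil
  (node (nat_lit 6) (nat_lit 59947) (nat_lit 8) nil (node (nat_lit 5) (nat_lit 64192) (nat_lit 8)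
  (node (nat_lit 4) (nat_lit 63288) (nat_lit 9) nil nil) nil))) nil))) (node (nat_lit 0) (nat_lit
  62240) (nat_lit 6) (node (nat_lit 4) (nat_lit 64950) (nat_lit 7) nil (node (nat_lit 8) (nat_lit
  65293) (nat_lit 7) (node (nat_lit 4) (nat_lit 66556) (nat_lit 8) (node (nat_lit 5) (nat_lit
  67430) (nat_lit 9) nil nil) (node (nat_lit 5) (nat_lit 66556) (nat_lit 8) (node (nat_lit 4)
  (nat_lit 59893) (nat_lit 9) nil nil) nil)) (node (nat_lit 5) (nat_lit 64690) (nat_lit 7) (node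
  (nat_lit 4) (nat_lit 64599) (nat_lit 8) (node (nat_lit 5) (nat_lit 65473) (nat_lit 9) (node
  (nat_lit 6) (nat_lit 63469) (nat_lit 10) nil nil) nil) nil) (node (nat_lit 6) (nat_lit 64950)
  (nat_lit 7) (node (nat_lit 5) (nat_lit 62357) (nat_lit 8) nil nil) (node (nat_lit 0) (nat_lit
  64159) (nat_lit 7) nil nil))))) nil)))) (node (nat_lit 0) (nat_lit 60698) (nat_lit 5) (node
  (nat_lit 5) (nat_lit 65398) (nat_lit 6) (node (nat_lit 4) (nat_lit 67890) (nat_lit 7) (node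
  (nat_lit 5) (nat_lit 69153) (nat_lit 8) (node (nat_lit 6) (nat_lit 66714) (nat_lit 9) (node
  (nat_lit 4) (nat_lit 65947) (nat_lit 10) (node (nat_lit 8) (nat_lit 23579) (nat_lit 11) nil nil)
  nil) nil) nil) (node (nat_lit 6) (nat_lit 66262) (nat_lit 7) (node (nat_lit 5) (nat_lit 66294)
  (nat_lit 8) (node (nat_lit 4) (nat_lit 62590) (nat_lit 9) (node (nat_lit 5) (nat_lit 60560)
  (nat_lit 10) (node (nat_lit 6) (nat_lit 55318) (nat_lit 11) nil nil) nil) nil) nil) (node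
  (nat_lit 8) (nat_lit 67317) (nat_lit 7) nil (node (nat_lit 3) (nat_lit 64636) (nat_lit 7) (node
  (nat_lit 4) (nat_lit 65900) (nat_lit 8) (node (nat_lit 5) (nat_lit 66773) (nat_lit 9) nil nil)
  nil) nil)))) (node (nat_lit 6) (nat_lit 65142) (nat_lit 6) (node (nat_lit 8) (nat_lit 69370)
  (nat_lit 7) (node (nat_lit 5) (nat_lit 70634) (nat_lit 8) (node (nat_lit 4) (nat_lit 69731)
  (nat_lit 9) (node (nat_lit 5) (nat_lit 70395) (nat_lit 10) (node (nat_lit 6) (nat_lit 68802)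
  (nat_lit 11) nil nil) nil) nil) (node (nat_lit 3) (nat_lit 68666) (nat_lit 8) nil nil)) (node
  (nat_lit 4) (nat_lit 67634) (nat_lit 7) (node (nat_lit 5) (nat_lit 68898) (nat_lit 8) nil nil)
  (node (nat_lit 5) (nat_lit 66184) (nat_lit 7) (node (nat_lit 4) (nat_lit 66129) (nat_lit 8)
  (node (nat_lit 5) (nat_lit 63429) (nat_lit 9) (node (nat_lit 6) (nat_lit 54938) (nat_lit 10)
  (node (nat_lit 4) (nat_lit 44177) (nat_lit 11) nil nil) nil) nil) nil) (node (nat_lit 3)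
  (nat_lit 65229) (nat_lit 7) (node (nat_lit 4) (nat_lit 66335) (nat_lit 8) (node (nat_lit 5)
  (nat_lit 55886) (nat_lit 9) nil nil) (node (nat_lit 6) (nat_lit 64524) (nat_lit 8) nil (node
  (nat_lit 5) (nat_lit 65260) (nat_lit 8) nil nil))) nil)))) (node (nat_lit 4) (nat_lit 66202)
  (nat_lit 6) (node (nat_lit 6) (nat_lit 68339) (nat_lit 7) (node (nat_lit 5) (nat_lit 68076)
  (nat_lit 8) (node (nat_lit 4) (nat_lit 67240) (nat_lit 9) (node (nat_lit 5) (nat_lit 62217)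
  (nat_lit 10) (node (nat_lit 6) (nat_lit 56704) (nat_lit 11) nil nil) nil) nil) nil) (node
  (nat_lit 3) (nat_lit 68064) (nat_lit 7) (node (nat_lit 4) (nat_lit 67534) (nat_lit 8) (node
  (nat_lit 5) (nat_lit 61146) (nat_lit 9) (node (nat_lit 6) (nat_lit 52907) (nat_lit 10) (node
  (nat_lit 4) (nat_lit 41116) (nat_lit 11) nil nil) nil) nil) (node (nat_lit 6) (nat_lit 65083)
  (nat_lit 8) nil (node (nat_lit 5) (nat_lit 65472) (nat_lit 8) nil nil))) nil)) (node (nat_lit 3)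
  (nat_lit 65355) (nat_lit 6) (node (nat_lit 4) (nat_lit 67274) (nat_lit 7) (node (nat_lit 5)
  (nat_lit 68538) (nat_lit 8) (node (nat_lit 6) (nat_lit 66098) (nat_lit 9) (node (nat_lit 4)
  (nat_lit 65331) (nat_lit 10) nil nil) nil) nil) (node (nat_lit 6) (nat_lit 65557) (nat_lit 7)
  (node (nat_lit 5) (nat_lit 63886) (nat_lit 8) nil (node (nat_lit 9) (nat_lit 60996) (nat_lit 8)
  nil nil)) (node (nat_lit 8) (nat_lit 67274) (nat_lit 7) (node (nat_lit 5) (nat_lit 68538)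
  (nat_lit 8) nil nil) (node (nat_lit 5) (nat_lit 65842) (nat_lit 7) (node (nat_lit 4) (nat_lit
  62035) (nat_lit 8) (node (nat_lit 5) (nat_lit 55843) (nat_lit 9) nil nil) nil) (node (nat_lit 0)
  (nat_lit 67274) (nat_lit 7) nil nil))))) (node (nat_lit 0) (nat_lit 66462) (nat_lit 6) (node
  (nat_lit 3) (nat_lit 65123) (nat_lit 7) (node (nat_lit 4) (nat_lit 66386) (nat_lit 8) nil nil)
  (node (nat_lit 5) (nat_lit 68381) (nat_lit 7) (node (nat_lit 4) (nat_lit 67368) (nat_lit 8)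
  (node (nat_lit 5) (nat_lit 68242) (nat_lit 9) (node (nat_lit 6) (nat_lit 66237) (nat_lit 10)
  (node (nat_lit 4) (nat_lit 65654) (nat_lit 11) nil nil) nil) nil) nil) nil)) nil))))) nil))))

noncomputable def t5 : Tr :=
  (node (nat_lit 4) (nat_lit 47058) (nat_lit 5) (node (nat_lit 5) (nat_lit 39289) (nat_lit 6)
  (node (nat_lit 7) (nat_lit 40143) (nat_lit 7) (node (nat_lit 5) (nat_lit 40705) (nat_lit 8)
  (node (nat_lit 4) (nat_lit 40664) (nat_lit 9) (node (nat_lit 7) (nat_lit 41076) (nat_lit 10)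
  (node (nat_lit 4) (nat_lit 41337) (nat_lit 11) (node (nat_lit 5) (nat_lit 41573) (nat_lit 12)
  nil nil) nil) (node (nat_lit 5) (nat_lit 35100) (nat_lit 10) (node (nat_lit 6) (nat_lit 35181)
  (nat_lit 11) (node (nat_lit 7) (nat_lit 17078) (nat_lit 12) nil nil) (node (nat_lit 7) (nat_lit
  34351) (nat_lit 11) nil nil)) nil)) nil) (node (nat_lit 4) (nat_lit 40705) (nat_lit 8) (node
  (nat_lit 7) (nat_lit 41094) (nat_lit 9) (node (nat_lit 5) (nat_lit 41390) (nat_lit 10) (node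
  (nat_lit 7) (nat_lit 41650) (nat_lit 11) (node (nat_lit 4) (nat_lit 41886) (nat_lit 12) nil nil)
  (node (nat_lit 4) (nat_lit 41650) (nat_lit 11) (node (nat_lit 5) (nat_lit 41626) (nat_lit 12)
  nil nil) nil)) nil) (node (nat_lit 6) (nat_lit 39558) (nat_lit 9) (node (nat_lit 5) (nat_lit
  39113) (nat_lit 10) nil nil) nil)) (node (nat_lit 6) (nat_lit 40705) (nat_lit 8) (node (nat_lit
  4) (nat_lit 41094) (nat_lit 9) nil (node (nat_lit 5) (nat_lit 41094) (nat_lit 9) (node (nat_lit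
  4) (nat_lit 41390) (nat_lit 10) nil (node (nat_lit 7) (nat_lit 40153) (nat_lit 10) nil nil))
  (node (nat_lit 7) (nat_lit 41094) (nat_lit 9) (node (nat_lit 5) (nat_lit 41390) (nat_lit 10) nil
  nil) nil))) (node (nat_lit 0) (nat_lit 40705) (nat_lit 8) (node (nat_lit 5) (nat_lit 41094)
  (nat_lit 9) nil (node (nat_lit 7) (nat_lit 39558) (nat_lit 9) nil (node (nat_lit 0) (nat_lit
  41094) (nat_lit 9) nil nil))) nil)))) (node (nat_lit 4) (nat_lit 40143) (nat_lit 7) (node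
  (nat_lit 7) (nat_lit 40705) (nat_lit 8) (node (nat_lit 5) (nat_lit 41094) (nat_lit 9) (node
  (nat_lit 7) (nat_lit 41390) (nat_lit 10) (node (nat_lit 4) (nat_lit 41650) (nat_lit 11) (node
  (nat_lit 5) (nat_lit 41886) (nat_lit 12) (node (nat_lit 6) (nat_lit 41449) (nat_lit 13) (node
  (nat_lit 7) (nat_lit 41117) (nat_lit 14) (node (nat_lit 4) (nat_lit 41226) (nat_lit 15) nil nil)
  nil) nil) nil) nil) (node (nat_lit 4) (nat_lit 41390) (nat_lit 10) (node (nat_lit 5) (nat_lit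
  40201) (nat_lit 11) nil nil) nil)) (node (nat_lit 4) (nat_lit 41094) (nat_lit 9) (node (nat_lit
  5) (nat_lit 41390) (nat_lit 10) (node (nat_lit 6) (nat_lit 39356) (nat_lit 11) nil nil) (node
  (nat_lit 6) (nat_lit 40153) (nat_lit 10) (node (nat_lit 5) (nat_lit 39873) (nat_lit 11) nil nil)
  nil)) (node (nat_lit 6) (nat_lit 41094) (nat_lit 9) nil nil))) (node (nat_lit 6) (nat_lit 40705)
  (nat_lit 8) (node (nat_lit 5) (nat_lit 41094) (nat_lit 9) (node (nat_lit 4) (nat_lit 37311)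
  (nat_lit 10) nil nil) (node (nat_lit 7) (nat_lit 41094) (nat_lit 9) (node (nat_lit 4) (nat_lit
  41390) (nat_lit 10) nil nil) nil)) nil)) (node (nat_lit 6) (nat_lit 32230) (nat_lit 7) (node
  (nat_lit 4) (nat_lit 33338) (nat_lit 8) (node (nat_lit 6) (nat_lit 32191) (nat_lit 9) nil (node
  (nat_lit 5) (nat_lit 33727) (nat_lit 9) nil (node (nat_lit 7) (nat_lit 32191) (nat_lit 9) nil
  nil))) (node (nat_lit 5) (nat_lit 32747) (nat_lit 8) (node (nat_lit 4) (nat_lit 31872) (nat_lit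
  9) nil nil) nil)) (node (nat_lit 0) (nat_lit 40143) (nat_lit 7) (node (nat_lit 4) (nat_lit
  40705) (nat_lit 8) nil (node (nat_lit 6) (nat_lit 40705) (nat_lit 8) nil (node (nat_lit 7)
  (nat_lit 40705) (nat_lit 8) nil (node (nat_lit 5) (nat_lit 40705) (nat_lit 8) (node (nat_lit 4)
  (nat_lit 41094) (nat_lit 9) nil (node (nat_lit 7) (nat_lit 39558) (nat_lit 9) nil nil)) nil))))
  nil)))) (node (nat_lit 6) (nat_lit 50499) (nat_lit 6) (node (nat_lit 5) (nat_lit 52944) (nat_lit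
  7) (node (nat_lit 6) (nat_lit 54583) (nat_lit 8) (node (nat_lit 7) (nat_lit 50884) (nat_lit 9)
  nil (node (nat_lit 4) (nat_lit 55642) (nat_lit 9) (node (nat_lit 7) (nat_lit 54211) (nat_lit 10)
  nil nil) (node (nat_lit 0) (nat_lit 55456) (nat_lit 9) nil nil))) (node (nat_lit 4) (nat_lit
  54583) (nat_lit 8) (node (nat_lit 5) (nat_lit 55642) (nat_lit 9) (node (nat_lit 6) (nat_lit
  51522) (nat_lit 10) (node (nat_lit 7) (nat_lit 34271) (nat_lit 11) (node (nat_lit 4) (nat_lit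
  13258) (nat_lit 12) nil nil) (node (nat_lit 5) (nat_lit 51049) (nat_lit 11) nil nil)) (node
  (nat_lit 7) (nat_lit 55069) (nat_lit 10) nil nil)) (node (nat_lit 7) (nat_lit 55757) (nat_lit 9)
  (node (nat_lit 5) (nat_lit 55994) (nat_lit 10) nil nil) (node (nat_lit 6) (nat_lit 55642)
  (nat_lit 9) nil (node (nat_lit 0) (nat_lit 55456) (nat_lit 9) nil nil)))) (node (nat_lit 7)
  (nat_lit 54061) (nat_lit 8) (node (nat_lit 6) (nat_lit 53562) (nat_lit 9) (node (nat_lit 5)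
  (nat_lit 53486) (nat_lit 10) nil nil) (node (nat_lit 5) (nat_lit 54934) (nat_lit 9) (node
  (nat_lit 6) (nat_lit 52930) (nat_lit 10) (node (nat_lit 7) (nat_lit 52160) (nat_lit 11) (node
  (nat_lit 4) (nat_lit 52190) (nat_lit 12) nil nil) nil) nil) (node (nat_lit 4) (nat_lit 54934)
  (nat_lit 9) (node (nat_lit 5) (nat_lit 55598) (nat_lit 10) (node (nat_lit 6) (nat_lit 54005)
  (nat_lit 11) (node (nat_lit 7) (nat_lit 53463) (nat_lit 12) (node (nat_lit 4) (nat_lit 53548)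
  (nat_lit 13) nil nil) nil) nil) nil) nil))) (node (nat_lit 0) (nat_lit 54451) (nat_lit 8) (node
  (nat_lit 7) (nat_lit 53788) (nat_lit 9) nil (node (nat_lit 5) (nat_lit 55324) (nat_lit 9) nil
  nil)) nil)))) (node (nat_lit 7) (nat_lit 52944) (nat_lit 7) (node (nat_lit 6) (nat_lit 54583)
  (nat_lit 8) (node (nat_lit 4) (nat_lit 55757) (nat_lit 9) (node (nat_lit 6) (nat_lit 56348)
  (nat_lit 10) (node (nat_lit 5) (nat_lit 56574) (nat_lit 11) (node (nat_lit 7) (nat_lit 56295)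
  (nat_lit 12) nil (node (nat_lit 4) (nat_lit 56167) (nat_lit 12) nil nil)) (node (nat_lit 7)
  (nat_lit 57082) (nat_lit 11) (node (nat_lit 4) (nat_lit 57506) (nat_lit 12) nil nil) (node
  (nat_lit 0) (nat_lit 56934) (nat_lit 11) nil nil))) (node (nat_lit 7) (nat_lit 56585) (nat_lit
  10) (node (nat_lit 4) (nat_lit 57318) (nat_lit 11) nil (node (nat_lit 6) (nat_lit 54992)
  (nat_lit 11) nil nil)) (node (nat_lit 5) (nat_lit 56422) (nat_lit 10) nil (node (nat_lit 0)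
  (nat_lit 56422) (nat_lit 10) nil nil)))) (node (nat_lit 5) (nat_lit 54867) (nat_lit 9) (node
  (nat_lit 4) (nat_lit 52029) (nat_lit 10) nil nil) (node (nat_lit 0) (nat_lit 55456) (nat_lit 9)
  nil nil))) (node (nat_lit 5) (nat_lit 54583) (nat_lit 8) (node (nat_lit 4) (nat_lit 55757)
  (nat_lit 9) (node (nat_lit 5) (nat_lit 53559) (nat_lit 10) (node (nat_lit 6) (nat_lit 48177)
  (nat_lit 11) (node (nat_lit 7) (nat_lit 42269) (nat_lit 12) (node (nat_lit 4) (nat_lit 19642)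
  (nat_lit 13) nil nil) nil) nil) (node (nat_lit 6) (nat_lit 53753) (nat_lit 10) (node (nat_lit 5)
  (nat_lit 53799) (nat_lit 11) nil nil) nil)) (node (nat_lit 6) (nat_lit 52143) (nat_lit 9) nil
  (node (nat_lit 7) (nat_lit 55456) (nat_lit 9) nil nil))) (node (nat_lit 0) (nat_lit 54451)
  (nat_lit 8) nil nil))) (node (nat_lit 4) (nat_lit 52944) (nat_lit 7) (node (nat_lit 7) (nat_lit
  54583) (nat_lit 8) (node (nat_lit 6) (nat_lit 55757) (nat_lit 9) (node (nat_lit 4) (nat_lit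
  56585) (nat_lit 10) (node (nat_lit 6) (nat_lit 56935) (nat_lit 11) (node (nat_lit 7) (nat_lit
  55607) (nat_lit 12) (node (nat_lit 4) (nat_lit 55692) (nat_lit 13) nil nil) nil) nil) (node
  (nat_lit 7) (nat_lit 56585) (nat_lit 10) (node (nat_lit 4) (nat_lit 57318) (nat_lit 11) (node
  (nat_lit 6) (nat_lit 57038) (nat_lit 12) nil nil) nil) (node (nat_lit 5) (nat_lit 54145)
  (nat_lit 10) (node (nat_lit 6) (nat_lit 53562) (nat_lit 11) (node (nat_lit 7) (nat_lit 53019)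
  (nat_lit 12) (node (nat_lit 4) (nat_lit 53105) (nat_lit 13) nil nil) nil) nil) nil))) (node
  (nat_lit 4) (nat_lit 54375) (nat_lit 9) (node (nat_lit 6) (nat_lit 54570) (nat_lit 10) nil (node
  (nat_lit 5) (nat_lit 55090) (nat_lit 10) (node (nat_lit 6) (nat_lit 42965) (nat_lit 11) nil nil)
  nil)) (node (nat_lit 5) (nat_lit 54867) (nat_lit 9) (node (nat_lit 4) (nat_lit 50021) (nat_lit
  10) nil nil) (node (nat_lit 0) (nat_lit 55456) (nat_lit 9) nil nil)))) (node (nat_lit 5)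
  (nat_lit 54583) (nat_lit 8) (node (nat_lit 6) (nat_lit 55642) (nat_lit 9) (node (nat_lit 7)
  (nat_lit 52792) (nat_lit 10) nil nil) (node (nat_lit 4) (nat_lit 54216) (nat_lit 9) (node
  (nat_lit 7) (nat_lit 51366) (nat_lit 10) nil nil) (node (nat_lit 7) (nat_lit 53920) (nat_lit 9)
  nil nil))) (node (nat_lit 0) (nat_lit 54451) (nat_lit 8) nil nil))) (node (nat_lit 0) (nat_lit
  52944) (nat_lit 7) (node (nat_lit 6) (nat_lit 54451) (nat_lit 8) (node (nat_lit 5) (nat_lit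
  52287) (nat_lit 9) nil (node (nat_lit 4) (nat_lit 53547) (nat_lit 9) nil nil)) (node (nat_lit 4)
  (nat_lit 54451) (nat_lit 8) (node (nat_lit 7) (nat_lit 50752) (nat_lit 9) nil (node (nat_lit 10)
  (nat_lit 55324) (nat_lit 9) nil nil)) (node (nat_lit 7) (nat_lit 54451) (nat_lit 8) (node
  (nat_lit 4) (nat_lit 55324) (nat_lit 9) nil (node (nat_lit 5) (nat_lit 52287) (nat_lit 9) nil
  nil)) (node (nat_lit 5) (nat_lit 54208) (nat_lit 8) (node (nat_lit 4) (nat_lit 53304) (nat_lit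
  9) nil nil) (node (nat_lit 0) (nat_lit 54451) (nat_lit 8) nil nil))))) nil)))) (node (nat_lit 7)
  (nat_lit 50499) (nat_lit 6) (node (nat_lit 6) (nat_lit 52944) (nat_lit 7) (node (nat_lit 4)
  (nat_lit 54583) (nat_lit 8) (node (nat_lit 6) (nat_lit 55757) (nat_lit 9) (node (nat_lit 7)
  (nat_lit 56690) (nat_lit 10) (node (nat_lit 4) (nat_lit 57243) (nat_lit 11) (node (nat_lit 6)
  (nat_lit 57893) (nat_lit 12) (node (nat_lit 4) (nat_lit 58417) (nat_lit 13) (node (nat_lit 7)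
  (nat_lit 58262) (nat_lit 14) (node (nat_lit 4) (nat_lit 58278) (nat_lit 15) (node (nat_lit 5)
  (nat_lit 57272) (nat_lit 16) nil nil) nil) nil) (node (nat_lit 5) (nat_lit 58324) (nat_lit 13)
  nil nil)) (node (nat_lit 7) (nat_lit 57893) (nat_lit 12) (node (nat_lit 5) (nat_lit 58324)
  (nat_lit 13) (node (nat_lit 4) (nat_lit 58102) (nat_lit 14) nil nil) (node (nat_lit 0) (nat_lit
  58324) (nat_lit 13) nil nil)) (node (nat_lit 5) (nat_lit 57499) (nat_lit 12) (node (nat_lit 6)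
  (nat_lit 57395) (nat_lit 13) (node (nat_lit 7) (nat_lit 55888) (nat_lit 14) (node (nat_lit 4)
  (nat_lit 45117) (nat_lit 15) nil nil) nil) nil) (node (nat_lit 0) (nat_lit 57773) (nat_lit 12)
  (node (nat_lit 7) (nat_lit 57575) (nat_lit 13) nil nil) nil)))) (node (nat_lit 5) (nat_lit
  55499) (nat_lit 11) nil nil)) (node (nat_lit 5) (nat_lit 56422) (nat_lit 10) nil (node (nat_lit
  0) (nat_lit 56422) (nat_lit 10) nil nil))) (node (nat_lit 7) (nat_lit 55642) (nat_lit 9) (node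
  (nat_lit 4) (nat_lit 56469) (nat_lit 10) (node (nat_lit 5) (nat_lit 51626) (nat_lit 11) nil nil)
  nil) (node (nat_lit 0) (nat_lit 55456) (nat_lit 9) nil nil))) (node (nat_lit 7) (nat_lit 54583)
  (nat_lit 8) (node (nat_lit 4) (nat_lit 55757) (nat_lit 9) (node (nat_lit 5) (nat_lit 52638)
  (nat_lit 10) (node (nat_lit 6) (nat_lit 42562) (nat_lit 11) (node (nat_lit 7) (nat_lit 37445)
  (nat_lit 12) (node (nat_lit 4) (nat_lit 32976) (nat_lit 13) nil nil) nil) nil) (node (nat_lit 6)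
  (nat_lit 56585) (nat_lit 10) (node (nat_lit 5) (nat_lit 55394) (nat_lit 11) nil nil) nil)) (node
  (nat_lit 5) (nat_lit 55456) (nat_lit 9) (node (nat_lit 4) (nat_lit 54689) (nat_lit 10) (node
  (nat_lit 6) (nat_lit 53096) (nat_lit 11) nil nil) nil) (node (nat_lit 0) (nat_lit 55456)
  (nat_lit 9) nil nil))) (node (nat_lit 5) (nat_lit 54583) (nat_lit 8) (node (nat_lit 6) (nat_lit
  53679) (nat_lit 9) nil (node (nat_lit 7) (nat_lit 55367) (nat_lit 9) nil (node (nat_lit 4)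
  (nat_lit 53679) (nat_lit 9) nil nil))) (node (nat_lit 0) (nat_lit 54208) (nat_lit 8) nil nil))))
  (node (nat_lit 5) (nat_lit 52944) (nat_lit 7) (node (nat_lit 4) (nat_lit 54583) (nat_lit 8)
  (node (nat_lit 5) (nat_lit 53343) (nat_lit 9) (node (nat_lit 6) (nat_lit 44549) (nat_lit 10)
  (node (nat_lit 7) (nat_lit 41086) (nat_lit 11) (node (nat_lit 4) (nat_lit 13072) (nat_lit 12)
  nil nil) nil) nil) (node (nat_lit 7) (nat_lit 53088) (nat_lit 9) nil nil)) (node (nat_lit 7)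
  (nat_lit 54583) (nat_lit 8) (node (nat_lit 4) (nat_lit 55456) (nat_lit 9) (node (nat_lit 5)
  (nat_lit 56121) (nat_lit 10) (node (nat_lit 6) (nat_lit 54528) (nat_lit 11) (node (nat_lit 7)
  (nat_lit 53985) (nat_lit 12) (node (nat_lit 4) (nat_lit 54070) (nat_lit 13) nil nil) nil) nil)
  nil) (node (nat_lit 6) (nat_lit 53347) (nat_lit 9) (node (nat_lit 7) (nat_lit 52274) (nat_lit
  10) (node (nat_lit 4) (nat_lit 52100) (nat_lit 11) nil nil) nil) nil)) (node (nat_lit 6)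
  (nat_lit 54061) (nat_lit 8) nil nil))) (node (nat_lit 0) (nat_lit 52944) (nat_lit 7) (node
  (nat_lit 4) (nat_lit 51931) (nat_lit 8) nil (node (nat_lit 7) (nat_lit 52240) (nat_lit 8) nil
  nil)) nil))) (node (nat_lit 0) (nat_lit 50499) (nat_lit 6) (node (nat_lit 7) (nat_lit 52944)
  (nat_lit 7) (node (nat_lit 4) (nat_lit 54451) (nat_lit 8) (node (nat_lit 5) (nat_lit 55324)
  (nat_lit 9) (node (nat_lit 6) (nat_lit 53320) (nat_lit 10) nil nil) nil) (node (nat_lit 5)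
  (nat_lit 54208) (nat_lit 8) (node (nat_lit 4) (nat_lit 47545) (nat_lit 9) nil nil) (node
  (nat_lit 9) (nat_lit 54208) (nat_lit 8) nil (node (nat_lit 6) (nat_lit 49963) (nat_lit 8) nil
  (node (nat_lit 0) (nat_lit 54208) (nat_lit 8) nil nil))))) (node (nat_lit 5) (nat_lit 52944)
  (nat_lit 7) (node (nat_lit 6) (nat_lit 49963) (nat_lit 8) nil (node (nat_lit 4) (nat_lit 52550)
  (nat_lit 8) (node (nat_lit 5) (nat_lit 53423) (nat_lit 9) nil nil) (node (nat_lit 7) (nat_lit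
  52240) (nat_lit 8) nil (node (nat_lit 9) (nat_lit 54208) (nat_lit 8) nil nil)))) (node (nat_lit
  6) (nat_lit 52295) (nat_lit 7) (node (nat_lit 5) (nat_lit 52272) (nat_lit 8) nil (node (nat_lit
  4) (nat_lit 53802) (nat_lit 8) nil (node (nat_lit 9) (nat_lit 53558) (nat_lit 8) nil (node
  (nat_lit 7) (nat_lit 50304) (nat_lit 8) nil nil)))) (node (nat_lit 4) (nat_lit 52944) (nat_lit
  7) (node (nat_lit 7) (nat_lit 54451) (nat_lit 8) (node (nat_lit 4) (nat_lit 49564) (nat_lit 9)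
  nil nil) (node (nat_lit 5) (nat_lit 54208) (nat_lit 8) nil (node (nat_lit 6) (nat_lit 54451)
  (nat_lit 8) nil nil))) (node (nat_lit 0) (nat_lit 52944) (nat_lit 7) (node (nat_lit 7) (nat_lit
  52240) (nat_lit 8) nil (node (nat_lit 5) (nat_lit 54208) (nat_lit 8) nil nil)) nil))))) nil))))
  (node (nat_lit 5) (nat_lit 0) (nat_lit 5) (node (nat_lit 7) (nat_lit 47761) (nat_lit 6) (node
  (nat_lit 6) (nat_lit 50706) (nat_lit 7) (node (nat_lit 5) (nat_lit 52699) (nat_lit 8) (node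
  (nat_lit 6) (nat_lit 57794) (nat_lit 9) (node (nat_lit 7) (nat_lit 61088) (nat_lit 10) (node
  (nat_lit 5) (nat_lit 62101) (nat_lit 11) nil (node (nat_lit 6) (nat_lit 61099) (nat_lit 11) nil
  nil)) nil) (node (nat_lit 7) (nat_lit 57076) (nat_lit 9) (node (nat_lit 5) (nat_lit 57817)
  (nat_lit 10) (node (nat_lit 6) (nat_lit 56320) (nat_lit 11) (node (nat_lit 7) (nat_lit 56591)
  (nat_lit 12) (node (nat_lit 5) (nat_lit 55854) (nat_lit 13) (node (nat_lit 7) (nat_lit 56189)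
  (nat_lit 14) nil nil) nil) nil) (node (nat_lit 4) (nat_lit 56465) (nat_lit 11) (node (nat_lit 5)
  (nat_lit 56696) (nat_lit 12) nil nil) nil)) (node (nat_lit 4) (nat_lit 57740) (nat_lit 10) nil
  nil)) (node (nat_lit 4) (nat_lit 57603) (nat_lit 9) (node (nat_lit 5) (nat_lit 53454) (nat_lit
  10) (node (nat_lit 6) (nat_lit 51159) (nat_lit 11) (node (nat_lit 7) (nat_lit 45587) (nat_lit
  12) (node (nat_lit 5) (nat_lit 32469) (nat_lit 13) (node (nat_lit 7) (nat_lit 28665) (nat_lit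
  14) nil nil) nil) nil) nil) nil) (node (nat_lit 0) (nat_lit 59366) (nat_lit 9) nil nil)))) (node
  (nat_lit 7) (nat_lit 51840) (nat_lit 8) (node (nat_lit 5) (nat_lit 55541) (nat_lit 9) (node
  (nat_lit 6) (nat_lit 55484) (nat_lit 10) nil (node (nat_lit 4) (nat_lit 57515) (nat_lit 10) nil
  nil)) (node (nat_lit 4) (nat_lit 61688) (nat_lit 9) (node (nat_lit 5) (nat_lit 54761) (nat_lit
  10) (node (nat_lit 6) (nat_lit 41370) (nat_lit 11) nil nil) nil) (node (nat_lit 0) (nat_lit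
  58507) (nat_lit 9) nil nil))) (node (nat_lit 4) (nat_lit 61966) (nat_lit 8) (node (nat_lit 7)
  (nat_lit 59805) (nat_lit 9) (node (nat_lit 4) (nat_lit 56586) (nat_lit 10) nil nil) nil) (node
  (nat_lit 0) (nat_lit 60680) (nat_lit 8) nil nil)))) (node (nat_lit 4) (nat_lit 60321) (nat_lit
  7) (node (nat_lit 5) (nat_lit 62247) (nat_lit 8) (node (nat_lit 6) (nat_lit 61336) (nat_lit 9)
  (node (nat_lit 7) (nat_lit 58487) (nat_lit 10) (node (nat_lit 5) (nat_lit 29068) (nat_lit 11)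
  nil nil) nil) nil) (node (nat_lit 7) (nat_lit 61354) (nat_lit 8) (node (nat_lit 6) (nat_lit
  60443) (nat_lit 9) (node (nat_lit 7) (nat_lit 57594) (nat_lit 10) (node (nat_lit 4) (nat_lit
  57708) (nat_lit 11) nil nil) nil) (node (nat_lit 5) (nat_lit 62228) (nat_lit 9) (node (nat_lit
  4) (nat_lit 57604) (nat_lit 10) nil nil) nil)) (node (nat_lit 6) (nat_lit 61169) (nat_lit 8) nil
  nil))) (node (nat_lit 0) (nat_lit 60238) (nat_lit 7) (node (nat_lit 5) (nat_lit 61501) (nat_lit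
  8) nil (node (nat_lit 7) (nat_lit 59534) (nat_lit 8) nil nil)) nil))) (node (nat_lit 4) (nat_lit
  52438) (nat_lit 6) (node (nat_lit 7) (nat_lit 55116) (nat_lit 7) (node (nat_lit 6) (nat_lit
  57691) (nat_lit 8) (node (nat_lit 5) (nat_lit 58259) (nat_lit 9) nil (node (nat_lit 4) (nat_lit
  59332) (nat_lit 9) nil nil)) (node (nat_lit 4) (nat_lit 57971) (nat_lit 8) (node (nat_lit 5)
  (nat_lit 56265) (nat_lit 9) (node (nat_lit 6) (nat_lit 45865) (nat_lit 10) (node (nat_lit 7)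
  (nat_lit 33017) (nat_lit 11) (node (nat_lit 5) (nat_lit 24835) (nat_lit 12) nil nil) nil) (node
  (nat_lit 7) (nat_lit 56667) (nat_lit 10) (node (nat_lit 5) (nat_lit 55475) (nat_lit 11) (node
  (nat_lit 4) (nat_lit 54784) (nat_lit 12) nil nil) nil) (node (nat_lit 4) (nat_lit 56633)
  (nat_lit 10) (node (nat_lit 7) (nat_lit 54431) (nat_lit 11) nil nil) nil))) (node (nat_lit 6)
  (nat_lit 58485) (nat_lit 9) (node (nat_lit 5) (nat_lit 56873) (nat_lit 10) nil nil) nil)) (node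
  (nat_lit 5) (nat_lit 57460) (nat_lit 8) (node (nat_lit 7) (nat_lit 58333) (nat_lit 9) (node
  (nat_lit 4) (nat_lit 58998) (nat_lit 10) (node (nat_lit 5) (nat_lit 59583) (nat_lit 11) nil nil)
  nil) nil) (node (nat_lit 0) (nat_lit 57762) (nat_lit 8) nil nil)))) (node (nat_lit 5) (nat_lit
  49380) (nat_lit 7) (node (nat_lit 7) (nat_lit 51709) (nat_lit 8) (node (nat_lit 4) (nat_lit
  52582) (nat_lit 9) (node (nat_lit 5) (nat_lit 53247) (nat_lit 10) (node (nat_lit 6) (nat_lit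
  51654) (nat_lit 11) (node (nat_lit 7) (nat_lit 51111) (nat_lit 12) (node (nat_lit 5) (nat_lit
  51183) (nat_lit 13) (node (nat_lit 4) (nat_lit 50834) (nat_lit 14) nil nil) nil) nil) nil) nil)
  (node (nat_lit 5) (nat_lit 51959) (nat_lit 9) (node (nat_lit 4) (nat_lit 51377) (nat_lit 10)
  (node (nat_lit 7) (nat_lit 51617) (nat_lit 11) nil nil) nil) (node (nat_lit 6) (nat_lit 50665)
  (nat_lit 9) (node (nat_lit 5) (nat_lit 49053) (nat_lit 10) nil (node (nat_lit 7) (nat_lit 47816)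
  (nat_lit 10) nil nil)) nil))) (node (nat_lit 6) (nat_lit 31123) (nat_lit 8) (node (nat_lit 7)
  (nat_lit 21497) (nat_lit 9) nil (node (nat_lit 4) (nat_lit 32028) (nat_lit 9) (node (nat_lit 7)
  (nat_lit 32765) (nat_lit 10) nil (node (nat_lit 5) (nat_lit 32397) (nat_lit 10) nil nil)) (node
  (nat_lit 5) (nat_lit 31820) (nat_lit 9) (node (nat_lit 4) (nat_lit 31661) (nat_lit 10) (node
  (nat_lit 5) (nat_lit 31985) (nat_lit 11) nil nil) (node (nat_lit 7) (nat_lit 32188) (nat_lit 10)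
  nil nil)) (node (nat_lit 0) (nat_lit 31608) (nat_lit 9) nil nil)))) (node (nat_lit 0) (nat_lit
  51468) (nat_lit 8) nil nil))) (node (nat_lit 6) (nat_lit 55267) (nat_lit 7) (node (nat_lit 5)
  (nat_lit 56790) (nat_lit 8) (node (nat_lit 6) (nat_lit 55887) (nat_lit 9) nil (node (nat_lit 4)
  (nat_lit 58032) (nat_lit 9) (node (nat_lit 5) (nat_lit 58120) (nat_lit 10) (node (nat_lit 6)
  (nat_lit 52878) (nat_lit 11) (node (nat_lit 7) (nat_lit 45230) (nat_lit 12) (node (nat_lit 5)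
  (nat_lit 31276) (nat_lit 13) nil nil) nil) nil) nil) (node (nat_lit 7) (nat_lit 56128) (nat_lit
  9) nil nil))) (node (nat_lit 4) (nat_lit 57914) (nat_lit 8) nil (node (nat_lit 7) (nat_lit
  56728) (nat_lit 8) (node (nat_lit 4) (nat_lit 58017) (nat_lit 9) (node (nat_lit 5) (nat_lit
  57684) (nat_lit 10) (node (nat_lit 6) (nat_lit 53972) (nat_lit 11) (node (nat_lit 7) (nat_lit
  47340) (nat_lit 12) (node (nat_lit 5) (nat_lit 30805) (nat_lit 13) nil nil) nil) nil) nil) nil)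
  (node (nat_lit 0) (nat_lit 56531) (nat_lit 8) nil nil)))) (node (nat_lit 0) (nat_lit 55996)
  (nat_lit 7) (node (nat_lit 4) (nat_lit 57806) (nat_lit 8) nil (node (nat_lit 6) (nat_lit 56844)
  (nat_lit 8) (node (nat_lit 5) (nat_lit 54681) (nat_lit 9) nil nil) (node (nat_lit 7) (nat_lit
  57259) (nat_lit 8) nil (node (nat_lit 5) (nat_lit 57259) (nat_lit 8) nil nil)))) nil)))) (node
  (nat_lit 6) (nat_lit 47753) (nat_lit 6) (node (nat_lit 5) (nat_lit 50699) (nat_lit 7) (node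
  (nat_lit 7) (nat_lit 52697) (nat_lit 8) (node (nat_lit 6) (nat_lit 57236) (nat_lit 9) (node
  (nat_lit 5) (nat_lit 57555) (nat_lit 10) nil (node (nat_lit 7) (nat_lit 59436) (nat_lit 10) nil
  (node (nat_lit 4) (nat_lit 58559) (nat_lit 10) nil nil))) (node (nat_lit 5) (nat_lit 57080)
  (nat_lit 9) (node (nat_lit 6) (nat_lit 59479) (nat_lit 10) (node (nat_lit 7) (nat_lit 61186)
  (nat_lit 11) nil nil) (node (nat_lit 4) (nat_lit 59768) (nat_lit 10) (node (nat_lit 5) (nat_lit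
  57805) (nat_lit 11) nil nil) nil)) (node (nat_lit 4) (nat_lit 60678) (nat_lit 9) (node (nat_lit
  5) (nat_lit 61342) (nat_lit 10) (node (nat_lit 6) (nat_lit 59750) (nat_lit 11) (node (nat_lit 7)
  (nat_lit 59207) (nat_lit 12) (node (nat_lit 5) (nat_lit 59279) (nat_lit 13) (node (nat_lit 6)
  (nat_lit 59132) (nat_lit 14) nil nil) nil) nil) nil) nil) (node (nat_lit 0) (nat_lit 59780)
  (nat_lit 9) nil nil)))) (node (nat_lit 4) (nat_lit 57876) (nat_lit 8) (node (nat_lit 6) (nat_lit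
  56972) (nat_lit 9) nil (node (nat_lit 5) (nat_lit 55481) (nat_lit 9) (node (nat_lit 6) (nat_lit
  43723) (nat_lit 10) (node (nat_lit 7) (nat_lit 30086) (nat_lit 11) nil nil) nil) (node (nat_lit
  7) (nat_lit 56972) (nat_lit 9) nil nil))) (node (nat_lit 0) (nat_lit 60225) (nat_lit 8) nil
  nil))) (node (nat_lit 4) (nat_lit 60287) (nat_lit 7) (node (nat_lit 5) (nat_lit 60023) (nat_lit
  8) (node (nat_lit 7) (nat_lit 59360) (nat_lit 9) nil nil) (node (nat_lit 7) (nat_lit 62285)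
  (nat_lit 8) (node (nat_lit 4) (nat_lit 61783) (nat_lit 9) (node (nat_lit 5) (nat_lit 59077)
  (nat_lit 10) nil nil) nil) (node (nat_lit 6) (nat_lit 62097) (nat_lit 8) nil nil))) (node
  (nat_lit 0) (nat_lit 59773) (nat_lit 7) (node (nat_lit 4) (nat_lit 58760) (nat_lit 8) nil nil)
  nil))) (node (nat_lit 0) (nat_lit 58354) (nat_lit 6) (node (nat_lit 7) (nat_lit 61211) (nat_lit
  7) (node (nat_lit 5) (nat_lit 62125) (nat_lit 8) nil (node (nat_lit 9) (nat_lit 63857) (nat_lit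
  8) nil (node (nat_lit 6) (nat_lit 59809) (nat_lit 8) (node (nat_lit 5) (nat_lit 57646) (nat_lit
  9) nil nil) (node (nat_lit 4) (nat_lit 62474) (nat_lit 8) (node (nat_lit 5) (nat_lit 63348)
  (nat_lit 9) nil nil) nil)))) (node (nat_lit 5) (nat_lit 61689) (nat_lit 7) (node (nat_lit 6)
  (nat_lit 58708) (nat_lit 8) (node (nat_lit 7) (nat_lit 57286) (nat_lit 9) nil nil) (node
  (nat_lit 4) (nat_lit 61598) (nat_lit 8) (node (nat_lit 5) (nat_lit 62471) (nat_lit 9) (node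
  (nat_lit 6) (nat_lit 60467) (nat_lit 10) (node (nat_lit 7) (nat_lit 59697) (nat_lit 11) nil nil)
  nil) nil) (node (nat_lit 7) (nat_lit 62037) (nat_lit 8) (node (nat_lit 6) (nat_lit 59598)
  (nat_lit 9) (node (nat_lit 5) (nat_lit 59522) (nat_lit 10) nil nil) nil) nil))) (node (nat_lit
  6) (nat_lit 61619) (nat_lit 7) (node (nat_lit 5) (nat_lit 62533) (nat_lit 8) nil (node (nat_lit
  7) (nat_lit 62692) (nat_lit 8) nil (node (nat_lit 4) (nat_lit 61528) (nat_lit 8) nil nil)))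
  (node (nat_lit 4) (nat_lit 61550) (nat_lit 7) (node (nat_lit 7) (nat_lit 60280) (nat_lit 8) nil
  nil) (node (nat_lit 0) (nat_lit 62104) (nat_lit 7) (node (nat_lit 4) (nat_lit 61091) (nat_lit 8)
  nil nil) nil))))) nil)))) (node (nat_lit 6) (nat_lit 43559) (nat_lit 5) (node (nat_lit 5)
  (nat_lit 47746) (nat_lit 6) (node (nat_lit 6) (nat_lit 50692) (nat_lit 7) (node (nat_lit 7)
  (nat_lit 52693) (nat_lit 8) (node (nat_lit 5) (nat_lit 57327) (nat_lit 9) (node (nat_lit 7)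
  (nat_lit 59754) (nat_lit 10) nil (node (nat_lit 6) (nat_lit 56754) (nat_lit 10) nil nil)) (node
  (nat_lit 4) (nat_lit 59664) (nat_lit 9) (node (nat_lit 5) (nat_lit 54020) (nat_lit 10) (node
  (nat_lit 6) (nat_lit 50392) (nat_lit 11) (node (nat_lit 7) (nat_lit 47314) (nat_lit 12) (node
  (nat_lit 6) (nat_lit 27250) (nat_lit 13) nil nil) nil) nil) nil) (node (nat_lit 0) (nat_lit
  53567) (nat_lit 9) nil nil))) (node (nat_lit 4) (nat_lit 60666) (nat_lit 8) nil (node (nat_lit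
  0) (nat_lit 59359) (nat_lit 8) nil nil))) (node (nat_lit 7) (nat_lit 50692) (nat_lit 7) (node
  (nat_lit 6) (nat_lit 52619) (nat_lit 8) (node (nat_lit 7) (nat_lit 56785) (nat_lit 9) (node
  (nat_lit 5) (nat_lit 58561) (nat_lit 10) nil (node (nat_lit 4) (nat_lit 56506) (nat_lit 10) nil
  nil)) (node (nat_lit 4) (nat_lit 57509) (nat_lit 9) nil (node (nat_lit 0) (nat_lit 56087)
  (nat_lit 9) nil nil))) (node (nat_lit 5) (nat_lit 52691) (nat_lit 8) (node (nat_lit 6) (nat_lit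
  57611) (nat_lit 9) nil nil) (node (nat_lit 4) (nat_lit 60957) (nat_lit 8) nil nil))) (node
  (nat_lit 4) (nat_lit 54983) (nat_lit 7) (node (nat_lit 5) (nat_lit 49966) (nat_lit 8) (node
  (nat_lit 6) (nat_lit 45814) (nat_lit 9) (node (nat_lit 7) (nat_lit 29639) (nat_lit 10) nil nil)
  nil) (node (nat_lit 7) (nat_lit 55681) (nat_lit 8) nil (node (nat_lit 6) (nat_lit 56738)
  (nat_lit 8) nil nil))) (node (nat_lit 0) (nat_lit 58691) (nat_lit 7) nil nil)))) (node (nat_lit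
  4) (nat_lit 60498) (nat_lit 6) (node (nat_lit 6) (nat_lit 63444) (nat_lit 7) (node (nat_lit 7)
  (nat_lit 65254) (nat_lit 8) (node (nat_lit 4) (nat_lit 66985) (nat_lit 9) (node (nat_lit 5)
  (nat_lit 62168) (nat_lit 10) (node (nat_lit 6) (nat_lit 56683) (nat_lit 11) (node (nat_lit 7)
  (nat_lit 49906) (nat_lit 12) (node (nat_lit 6) (nat_lit 37340) (nat_lit 13) (node (nat_lit 4)
  (nat_lit 32538) (nat_lit 14) nil nil) nil) nil) nil) (node (nat_lit 7) (nat_lit 66412) (nat_lit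
  10) nil nil)) (node (nat_lit 5) (nat_lit 66128) (nat_lit 9) nil (node (nat_lit 6) (nat_lit
  66128) (nat_lit 9) nil nil))) (node (nat_lit 5) (nat_lit 63934) (nat_lit 8) (node (nat_lit 6)
  (nat_lit 64135) (nat_lit 9) (node (nat_lit 7) (nat_lit 64691) (nat_lit 10) nil nil) nil) (node
  (nat_lit 0) (nat_lit 64708) (nat_lit 8) nil nil))) (node (nat_lit 7) (nat_lit 63444) (nat_lit 7)
  (node (nat_lit 6) (nat_lit 63772) (nat_lit 8) (node (nat_lit 5) (nat_lit 64645) (nat_lit 9) nil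
  (node (nat_lit 7) (nat_lit 60073) (nat_lit 9) nil nil)) (node (nat_lit 4) (nat_lit 64261)
  (nat_lit 8) (node (nat_lit 5) (nat_lit 59629) (nat_lit 9) nil (node (nat_lit 6) (nat_lit 63203)
  (nat_lit 9) nil nil)) nil)) (node (nat_lit 5) (nat_lit 63117) (nat_lit 7) nil (node (nat_lit 0)
  (nat_lit 62606) (nat_lit 7) nil nil)))) (node (nat_lit 0) (nat_lit 58833) (nat_lit 6) (node
  (nat_lit 5) (nat_lit 60753) (nat_lit 7) nil (node (nat_lit 6) (nat_lit 60312) (nat_lit 7) nil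
  (node (nat_lit 7) (nat_lit 60118) (nat_lit 7) nil (node (nat_lit 4) (nat_lit 57904) (nat_lit 7)
  nil nil)))) nil))) (node (nat_lit 0) (nat_lit 56230) (nat_lit 5) (node (nat_lit 6) (nat_lit
  60416) (nat_lit 6) (node (nat_lit 7) (nat_lit 63280) (nat_lit 7) (node (nat_lit 6) (nat_lit
  62575) (nat_lit 8) nil (node (nat_lit 4) (nat_lit 65090) (nat_lit 8) (node (nat_lit 5) (nat_lit
  58073) (nat_lit 9) (node (nat_lit 6) (nat_lit 43496) (nat_lit 10) nil nil) nil) (node (nat_lit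
  5) (nat_lit 64543) (nat_lit 8) nil nil))) (node (nat_lit 5) (nat_lit 60470) (nat_lit 7) nil
  (node (nat_lit 8) (nat_lit 63561) (nat_lit 7) (node (nat_lit 7) (nat_lit 62856) (nat_lit 8) nil
  nil) (node (nat_lit 4) (nat_lit 63561) (nat_lit 7) (node (nat_lit 7) (nat_lit 60652) (nat_lit 8)
  (node (nat_lit 6) (nat_lit 58213) (nat_lit 9) nil nil) nil) (node (nat_lit 0) (nat_lit 63127)
  (nat_lit 7) nil nil))))) (node (nat_lit 5) (nat_lit 60010) (nat_lit 6) (node (nat_lit 7)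
  (nat_lit 62873) (nat_lit 7) (node (nat_lit 5) (nat_lit 60058) (nat_lit 8) nil nil) (node
  (nat_lit 6) (nat_lit 60683) (nat_lit 7) nil (node (nat_lit 4) (nat_lit 61915) (nat_lit 7) (node
  (nat_lit 5) (nat_lit 63179) (nat_lit 8) (node (nat_lit 6) (nat_lit 60739) (nat_lit 9) nil nil)
  nil) (node (nat_lit 8) (nat_lit 62720) (nat_lit 7) (node (nat_lit 7) (nat_lit 62016) (nat_lit 8)
  nil nil) (node (nat_lit 0) (nat_lit 61930) (nat_lit 7) nil nil))))) (node (nat_lit 7) (nat_lit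
  60416) (nat_lit 6) (node (nat_lit 5) (nat_lit 63280) (nat_lit 7) (node (nat_lit 7) (nat_lit
  64543) (nat_lit 8) nil nil) (node (nat_lit 6) (nat_lit 63280) (nat_lit 7) (node (nat_lit 5)
  (nat_lit 64543) (nat_lit 8) nil (node (nat_lit 7) (nat_lit 61483) (nat_lit 8) nil nil)) (node
  (nat_lit 4) (nat_lit 63561) (nat_lit 7) (node (nat_lit 5) (nat_lit 64824) (nat_lit 8) nil nil)
  (node (nat_lit 0) (nat_lit 62336) (nat_lit 7) nil nil)))) (node (nat_lit 4) (nat_lit 61048)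
  (nat_lit 6) (node (nat_lit 5) (nat_lit 61101) (nat_lit 7) nil (node (nat_lit 6) (nat_lit 62527)
  (nat_lit 7) nil (node (nat_lit 7) (nat_lit 62721) (nat_lit 7) (node (nat_lit 4) (nat_lit 61061)
  (nat_lit 8) nil (node (nat_lit 5) (nat_lit 59905) (nat_lit 8) nil nil)) (node (nat_lit 8)
  (nat_lit 63759) (nat_lit 7) nil (node (nat_lit 0) (nat_lit 62968) (nat_lit 7) nil nil))))) (node
  (nat_lit 0) (nat_lit 61048) (nat_lit 6) (node (nat_lit 7) (nat_lit 62968) (nat_lit 7) nil (node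
  (nat_lit 6) (nat_lit 61381) (nat_lit 7) nil (node (nat_lit 4) (nat_lit 63759) (nat_lit 7) nil
  (node (nat_lit 5) (nat_lit 62968) (nat_lit 7) nil (node (nat_lit 8) (nat_lit 62968) (nat_lit 7)
  nil nil))))) nil))))) nil))))

noncomputable def t6 : Tr :=
  (node (nat_lit 5) (nat_lit 0) (nat_lit 4) (node (nat_lit 4) (nat_lit 40004) (nat_lit 5) (node
  (nat_lit 6) (nat_lit 47599) (nat_lit 6) (node (nat_lit 5) (nat_lit 51876) (nat_lit 7) (node
  (nat_lit 6) (nat_lit 56790) (nat_lit 8) (node (nat_lit 4) (nat_lit 61349) (nat_lit 9) (node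
  (nat_lit 5) (nat_lit 62384) (nat_lit 10) nil (node (nat_lit 6) (nat_lit 60953) (nat_lit 10)
  (node (nat_lit 5) (nat_lit 61798) (nat_lit 11) (node (nat_lit 4) (nat_lit 61726) (nat_lit 12)
  (node (nat_lit 5) (nat_lit 62282) (nat_lit 13) (node (nat_lit 6) (nat_lit 60706) (nat_lit 14)
  (node (nat_lit 5) (nat_lit 59236) (nat_lit 15) (node (nat_lit 4) (nat_lit 57115) (nat_lit 16)
  (node (nat_lit 6) (nat_lit 53166) (nat_lit 17) (node (nat_lit 5) (nat_lit 47084) (nat_lit 18)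
  (node (nat_lit 6) (nat_lit 33884) (nat_lit 19) (node (nat_lit 4) (nat_lit 29241) (nat_lit 20)
  nil nil) nil) nil) nil) nil) nil) nil) nil) nil) nil) nil)) (node (nat_lit 3) (nat_lit 58073)
  (nat_lit 9) (node (nat_lit 4) (nat_lit 55582) (nat_lit 10) (node (nat_lit 5) (nat_lit 54294)
  (nat_lit 11) (node (nat_lit 6) (nat_lit 50785) (nat_lit 12) (node (nat_lit 5) (nat_lit 47903)
  (nat_lit 13) (node (nat_lit 4) (nat_lit 41395) (nat_lit 14) nil nil) nil) nil) nil) nil) nil))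
  (node (nat_lit 3) (nat_lit 58772) (nat_lit 8) (node (nat_lit 4) (nat_lit 59654) (nat_lit 9) nil
  nil) (node (nat_lit 0) (nat_lit 59311) (nat_lit 8) (node (nat_lit 5) (nat_lit 60193) (nat_lit 9)
  nil nil) nil))) (node (nat_lit 4) (nat_lit 53431) (nat_lit 7) (node (nat_lit 5) (nat_lit 58447)
  (nat_lit 8) (node (nat_lit 6) (nat_lit 58098) (nat_lit 9) nil nil) (node (nat_lit 3) (nat_lit
  53237) (nat_lit 8) nil nil)) (node (nat_lit 3) (nat_lit 59141) (nat_lit 7) nil (node (nat_lit 0)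
  (nat_lit 54451) (nat_lit 7) nil nil)))) (node (nat_lit 5) (nat_lit 32948) (nat_lit 6) (node
  (nat_lit 6) (nat_lit 26398) (nat_lit 7) (node (nat_lit 4) (nat_lit 27723) (nat_lit 8) (node
  (nat_lit 6) (nat_lit 27723) (nat_lit 9) (node (nat_lit 5) (nat_lit 28632) (nat_lit 10) (node
  (nat_lit 4) (nat_lit 28632) (nat_lit 11) (node (nat_lit 6) (nat_lit 28632) (nat_lit 12) (node
  (nat_lit 4) (nat_lit 28632) (nat_lit 13) nil nil) (node (nat_lit 5) (nat_lit 28632) (nat_lit 12)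
  (node (nat_lit 6) (nat_lit 28632) (nat_lit 13) (node (nat_lit 5) (nat_lit 28632) (nat_lit 14)
  (node (nat_lit 4) (nat_lit 28632) (nat_lit 15) nil nil) nil) nil) (node (nat_lit 3) (nat_lit
  28632) (nat_lit 12) (node (nat_lit 5) (nat_lit 28632) (nat_lit 13) nil (node (nat_lit 4)
  (nat_lit 28632) (nat_lit 13) (node (nat_lit 5) (nat_lit 28632) (nat_lit 14) nil nil) nil))
  nil))) (node (nat_lit 6) (nat_lit 28632) (nat_lit 11) nil (node (nat_lit 3) (nat_lit 28632)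
  (nat_lit 11) (node (nat_lit 4) (nat_lit 28632) (nat_lit 12) (node (nat_lit 5) (nat_lit 28632)
  (nat_lit 13) nil nil) nil) nil))) (node (nat_lit 3) (nat_lit 27723) (nat_lit 10) (node (nat_lit
  5) (nat_lit 28403) (nat_lit 11) nil (node (nat_lit 4) (nat_lit 27723) (nat_lit 11) (node
  (nat_lit 5) (nat_lit 27347) (nat_lit 12) (node (nat_lit 6) (nat_lit 25800) (nat_lit 13) (node
  (nat_lit 5) (nat_lit 22944) (nat_lit 14) (node (nat_lit 4) (nat_lit 19238) (nat_lit 15) nil nil)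
  nil) nil) nil) nil)) (node (nat_lit 0) (nat_lit 28632) (nat_lit 10) (node (nat_lit 5) (nat_lit
  28632) (nat_lit 11) (node (nat_lit 4) (nat_lit 28632) (nat_lit 12) nil nil) nil) nil))) (node
  (nat_lit 5) (nat_lit 28632) (nat_lit 9) (node (nat_lit 4) (nat_lit 28632) (nat_lit 10) (node
  (nat_lit 6) (nat_lit 28632) (nat_lit 11) (node (nat_lit 5) (nat_lit 28632) (nat_lit 12) (node
  (nat_lit 4) (nat_lit 28632) (nat_lit 13) (node (nat_lit 5) (nat_lit 28632) (nat_lit 14) (node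
  (nat_lit 6) (nat_lit 28632) (nat_lit 15) (node (nat_lit 5) (nat_lit 28632) (nat_lit 16) (node
  (nat_lit 4) (nat_lit 28632) (nat_lit 17) nil nil) nil) nil) nil) nil) (node (nat_lit 4) (nat_lit
  28632) (nat_lit 12) nil (node (nat_lit 3) (nat_lit 28632) (nat_lit 12) (node (nat_lit 4)
  (nat_lit 28632) (nat_lit 13) (node (nat_lit 5) (nat_lit 28632) (nat_lit 14) nil nil) nil) nil)))
  (node (nat_lit 3) (nat_lit 28632) (nat_lit 11) (node (nat_lit 4) (nat_lit 28632) (nat_lit 12)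
  nil nil) nil)) (node (nat_lit 3) (nat_lit 28632) (nat_lit 10) (node (nat_lit 4) (nat_lit 28632)
  (nat_lit 11) (node (nat_lit 5) (nat_lit 28632) (nat_lit 12) (node (nat_lit 6) (nat_lit 28632)
  (nat_lit 13) (node (nat_lit 5) (nat_lit 28632) (nat_lit 14) nil nil) nil) nil) (node (nat_lit 5)
  (nat_lit 28632) (nat_lit 11) (node (nat_lit 4) (nat_lit 28632) (nat_lit 12) nil nil) nil)) (node
  (nat_lit 0) (nat_lit 28632) (nat_lit 10) nil nil))) (node (nat_lit 3) (nat_lit 27710) (nat_lit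
  9) (node (nat_lit 4) (nat_lit 27710) (nat_lit 10) (node (nat_lit 5) (nat_lit 26359) (nat_lit 11)
  (node (nat_lit 6) (nat_lit 22469) (nat_lit 12) (node (nat_lit 5) (nat_lit 22148) (nat_lit 13)
  (node (nat_lit 4) (nat_lit 15613) (nat_lit 14) nil nil) nil) nil) nil) (node (nat_lit 5)
  (nat_lit 28262) (nat_lit 10) (node (nat_lit 4) (nat_lit 28262) (nat_lit 11) nil nil) nil)) (node
  (nat_lit 0) (nat_lit 28632) (nat_lit 9) (node (nat_lit 5) (nat_lit 28632) (nat_lit 10) nil nil)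
  nil)))) (node (nat_lit 3) (nat_lit 27723) (nat_lit 8) (node (nat_lit 5) (nat_lit 28231) (nat_lit
  9) (node (nat_lit 11) (nat_lit 28231) (nat_lit 10) (node (nat_lit 4) (nat_lit 28231) (nat_lit
  11) nil nil) (node (nat_lit 4) (nat_lit 28231) (nat_lit 10) (node (nat_lit 5) (nat_lit 28403)
  (nat_lit 11) (node (nat_lit 6) (nat_lit 28403) (nat_lit 12) (node (nat_lit 5) (nat_lit 28508)
  (nat_lit 13) nil nil) nil) nil) nil)) (node (nat_lit 6) (nat_lit 27716) (nat_lit 9) (node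
  (nat_lit 4) (nat_lit 27716) (nat_lit 10) (node (nat_lit 11) (nat_lit 27723) (nat_lit 11) (node
  (nat_lit 4) (nat_lit 27723) (nat_lit 12) nil nil) nil) (node (nat_lit 5) (nat_lit 28268)
  (nat_lit 10) (node (nat_lit 11) (nat_lit 28268) (nat_lit 11) nil (node (nat_lit 4) (nat_lit
  28268) (nat_lit 11) (node (nat_lit 5) (nat_lit 28394) (nat_lit 12) nil nil) nil)) nil)) (node
  (nat_lit 4) (nat_lit 27395) (nat_lit 9) (node (nat_lit 5) (nat_lit 27947) (nat_lit 10) (node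
  (nat_lit 6) (nat_lit 23545) (nat_lit 11) (node (nat_lit 5) (nat_lit 16041) (nat_lit 12) nil nil)
  nil) (node (nat_lit 11) (nat_lit 27395) (nat_lit 10) (node (nat_lit 5) (nat_lit 28013) (nat_lit
  11) nil nil) (node (nat_lit 6) (nat_lit 27395) (nat_lit 10) nil nil))) (node (nat_lit 0)
  (nat_lit 28231) (nat_lit 9) nil nil)))) (node (nat_lit 0) (nat_lit 28632) (nat_lit 8) (node
  (nat_lit 6) (nat_lit 28632) (nat_lit 9) (node (nat_lit 5) (nat_lit 28632) (nat_lit 10) (node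
  (nat_lit 4) (nat_lit 28632) (nat_lit 11) nil nil) nil) (node (nat_lit 5) (nat_lit 28632)
  (nat_lit 9) (node (nat_lit 4) (nat_lit 28632) (nat_lit 10) (node (nat_lit 5) (nat_lit 28632)
  (nat_lit 11) (node (nat_lit 6) (nat_lit 28632) (nat_lit 12) nil nil) nil) nil) (node (nat_lit 3)
  (nat_lit 28632) (nat_lit 9) (node (nat_lit 4) (nat_lit 28632) (nat_lit 10) nil nil) nil)))
  nil))) (node (nat_lit 3) (nat_lit 38394) (nat_lit 7) (node (nat_lit 4) (nat_lit 38394) (nat_lit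
  8) (node (nat_lit 5) (nat_lit 38394) (nat_lit 9) (node (nat_lit 6) (nat_lit 38394) (nat_lit 10)
  nil nil) nil) (node (nat_lit 5) (nat_lit 38394) (nat_lit 8) (node (nat_lit 4) (nat_lit 38062)
  (nat_lit 9) (node (nat_lit 5) (nat_lit 38394) (nat_lit 10) (node (nat_lit 6) (nat_lit 36532)
  (nat_lit 11) nil nil) nil) (node (nat_lit 6) (nat_lit 38062) (nat_lit 9) (node (nat_lit 5)
  (nat_lit 38394) (nat_lit 10) (node (nat_lit 4) (nat_lit 37587) (nat_lit 11) nil nil) nil) nil))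
  (node (nat_lit 6) (nat_lit 38394) (nat_lit 8) (node (nat_lit 4) (nat_lit 38394) (nat_lit 9) nil
  (node (nat_lit 10) (nat_lit 38284) (nat_lit 9) (node (nat_lit 4) (nat_lit 35127) (nat_lit 10)
  nil nil) nil)) (node (nat_lit 0) (nat_lit 38394) (nat_lit 8) nil nil)))) (node (nat_lit 0)
  (nat_lit 38394) (nat_lit 7) (node (nat_lit 4) (nat_lit 38394) (nat_lit 8) (node (nat_lit 5)
  (nat_lit 38394) (nat_lit 9) nil nil) (node (nat_lit 5) (nat_lit 38058) (nat_lit 8) (node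
  (nat_lit 4) (nat_lit 36766) (nat_lit 9) nil nil) (node (nat_lit 3) (nat_lit 38394) (nat_lit 8)
  (node (nat_lit 5) (nat_lit 38394) (nat_lit 9) nil (node (nat_lit 4) (nat_lit 38394) (nat_lit 9)
  nil nil)) (node (nat_lit 6) (nat_lit 38394) (nat_lit 8) (node (nat_lit 10) (nat_lit 38394)
  (nat_lit 9) nil nil) (node (nat_lit 0) (nat_lit 38394) (nat_lit 8) nil nil))))) nil))) (node
  (nat_lit 3) (nat_lit 52989) (nat_lit 6) (node (nat_lit 5) (nat_lit 56714) (nat_lit 7) (node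
  (nat_lit 9) (nat_lit 58613) (nat_lit 8) nil (node (nat_lit 4) (nat_lit 60028) (nat_lit 8) nil
  nil)) (node (nat_lit 4) (nat_lit 53614) (nat_lit 7) (node (nat_lit 5) (nat_lit 52914) (nat_lit
  8) (node (nat_lit 4) (nat_lit 52019) (nat_lit 9) (node (nat_lit 9) (nat_lit 51101) (nat_lit 10)
  nil nil) (node (nat_lit 6) (nat_lit 32014) (nat_lit 9) nil nil)) nil) (node (nat_lit 6) (nat_lit
  56005) (nat_lit 7) nil nil))) (node (nat_lit 0) (nat_lit 56553) (nat_lit 6) (node (nat_lit 5)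
  (nat_lit 58995) (nat_lit 7) (node (nat_lit 4) (nat_lit 58617) (nat_lit 8) (node (nat_lit 5)
  (nat_lit 59500) (nat_lit 9) (node (nat_lit 6) (nat_lit 57495) (nat_lit 10) (node (nat_lit 5)
  (nat_lit 57662) (nat_lit 11) nil nil) nil) nil) nil) nil) nil)))) (node (nat_lit 3) (nat_lit
  49671) (nat_lit 5) (node (nat_lit 4) (nat_lit 64715) (nat_lit 6) (node (nat_lit 5) (nat_lit
  66634) (nat_lit 7) (node (nat_lit 6) (nat_lit 63653) (nat_lit 8) (node (nat_lit 5) (nat_lit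
  28430) (nat_lit 9) nil nil) nil) nil) (node (nat_lit 5) (nat_lit 54214) (nat_lit 6) (node
  (nat_lit 6) (nat_lit 57249) (nat_lit 7) (node (nat_lit 8) (nat_lit 58543) (nat_lit 8) (node
  (nat_lit 6) (nat_lit 60764) (nat_lit 9) (node (nat_lit 5) (nat_lit 62006) (nat_lit 10) (node
  (nat_lit 8) (nat_lit 62429) (nat_lit 11) nil nil) nil) (node (nat_lit 5) (nat_lit 60137)
  (nat_lit 9) nil (node (nat_lit 4) (nat_lit 61654) (nat_lit 9) (node (nat_lit 5) (nat_lit 58884)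
  (nat_lit 10) (node (nat_lit 6) (nat_lit 54216) (nat_lit 11) (node (nat_lit 5) (nat_lit 46554)
  (nat_lit 12) (node (nat_lit 8) (nat_lit 39657) (nat_lit 13) nil nil) nil) nil) nil) nil))) (node
  (nat_lit 4) (nat_lit 64097) (nat_lit 8) nil nil)) (node (nat_lit 4) (nat_lit 62140) (nat_lit 7)
  (node (nat_lit 5) (nat_lit 57045) (nat_lit 8) (node (nat_lit 6) (nat_lit 50579) (nat_lit 9)
  (node (nat_lit 5) (nat_lit 33628) (nat_lit 10) nil nil) nil) (node (nat_lit 8) (nat_lit 59602)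
  (nat_lit 8) nil nil)) (node (nat_lit 0) (nat_lit 64205) (nat_lit 7) nil nil))) (node (nat_lit 6)
  (nat_lit 54196) (nat_lit 6) (node (nat_lit 8) (nat_lit 56674) (nat_lit 7) (node (nat_lit 5)
  (nat_lit 57275) (nat_lit 8) nil (node (nat_lit 4) (nat_lit 60592) (nat_lit 8) nil nil)) (node
  (nat_lit 5) (nat_lit 56321) (nat_lit 7) (node (nat_lit 6) (nat_lit 55268) (nat_lit 8) (node
  (nat_lit 8) (nat_lit 51777) (nat_lit 9) nil nil) (node (nat_lit 4) (nat_lit 62142) (nat_lit 8)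
  (node (nat_lit 5) (nat_lit 57595) (nat_lit 9) (node (nat_lit 6) (nat_lit 53376) (nat_lit 10)
  (node (nat_lit 5) (nat_lit 34236) (nat_lit 11) nil nil) nil) nil) nil)) (node (nat_lit 4)
  (nat_lit 61598) (nat_lit 7) nil (node (nat_lit 0) (nat_lit 62587) (nat_lit 7) nil nil)))) (node
  (nat_lit 0) (nat_lit 62486) (nat_lit 6) (node (nat_lit 5) (nat_lit 64405) (nat_lit 7) nil nil)
  nil)))) (node (nat_lit 0) (nat_lit 59190) (nat_lit 5) (node (nat_lit 6) (nat_lit 63031) (nat_lit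
  6) (node (nat_lit 5) (nat_lit 64951) (nat_lit 7) nil nil) (node (nat_lit 5) (nat_lit 63330)
  (nat_lit 6) (node (nat_lit 4) (nat_lit 62213) (nat_lit 7) (node (nat_lit 5) (nat_lit 63476)
  (nat_lit 8) (node (nat_lit 6) (nat_lit 61037) (nat_lit 9) nil nil) nil) nil) (node (nat_lit 4)
  (nat_lit 64012) (nat_lit 6) nil (node (nat_lit 3) (nat_lit 61978) (nat_lit 6) (node (nat_lit 4)
  (nat_lit 63898) (nat_lit 7) (node (nat_lit 5) (nat_lit 65161) (nat_lit 8) (node (nat_lit 6)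
  (nat_lit 62722) (nat_lit 9) nil nil) nil) nil) (node (nat_lit 0) (nat_lit 61846) (nat_lit 6) nil
  nil))))) nil))) (node (nat_lit 4) (nat_lit 0) (nat_lit 4) t4 (node (nat_lit 3) (nat_lit 0)
  (nat_lit 4) t5 (node (nat_lit 0) (nat_lit 0) (nat_lit 4) (node (nat_lit 5) (nat_lit 60398)
  (nat_lit 5) (node (nat_lit 6) (nat_lit 64880) (nat_lit 6) (node (nat_lit 5) (nat_lit 66340)
  (nat_lit 7) (node (nat_lit 7) (nat_lit 68657) (nat_lit 8) (node (nat_lit 5) (nat_lit 69530)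
  (nat_lit 9) (node (nat_lit 4) (nat_lit 68763) (nat_lit 10) (node (nat_lit 5) (nat_lit 69349)
  (nat_lit 11) nil nil) nil) nil) (node (nat_lit 4) (nat_lit 64489) (nat_lit 8) (node (nat_lit 5)
  (nat_lit 59618) (nat_lit 9) (node (nat_lit 6) (nat_lit 46182) (nat_lit 10) (node (nat_lit 7)
  (nat_lit 34157) (nat_lit 11) nil nil) nil) nil) (node (nat_lit 3) (nat_lit 65636) (nat_lit 8)
  nil nil))) (node (nat_lit 4) (nat_lit 69230) (nat_lit 7) nil (node (nat_lit 3) (nat_lit 67933)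
  (nat_lit 7) (node (nat_lit 4) (nat_lit 64803) (nat_lit 8) (node (nat_lit 5) (nat_lit 55418)
  (nat_lit 9) (node (nat_lit 6) (nat_lit 36581) (nat_lit 10) nil nil) nil) nil) (node (nat_lit 0)
  (nat_lit 66800) (nat_lit 7) nil nil)))) (node (nat_lit 7) (nat_lit 67437) (nat_lit 6) (node
  (nat_lit 6) (nat_lit 68915) (nat_lit 7) (node (nat_lit 5) (nat_lit 70179) (nat_lit 8) nil nil)
  (node (nat_lit 4) (nat_lit 66320) (nat_lit 7) nil nil)) (node (nat_lit 4) (nat_lit 65502)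
  (nat_lit 6) (node (nat_lit 5) (nat_lit 67421) (nat_lit 7) (node (nat_lit 6) (nat_lit 64440)
  (nat_lit 8) (node (nat_lit 7) (nat_lit 22812) (nat_lit 9) nil nil) nil) (node (nat_lit 3)
  (nat_lit 59038) (nat_lit 7) nil (node (nat_lit 7) (nat_lit 67421) (nat_lit 7) nil nil))) (node
  (nat_lit 3) (nat_lit 65022) (nat_lit 6) (node (nat_lit 6) (nat_lit 65120) (nat_lit 7) (node
  (nat_lit 5) (nat_lit 64723) (nat_lit 8) (node (nat_lit 6) (nat_lit 63820) (nat_lit 9) nil nil)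
  nil) (node (nat_lit 4) (nat_lit 66942) (nat_lit 7) (node (nat_lit 5) (nat_lit 68205) (nat_lit 8)
  nil nil) (node (nat_lit 5) (nat_lit 66942) (nat_lit 7) nil nil))) (node (nat_lit 0) (nat_lit
  66500) (nat_lit 6) nil nil))))) (node (nat_lit 6) (nat_lit 60449) (nat_lit 5) (node (nat_lit 5)
  (nat_lit 64845) (nat_lit 6) (node (nat_lit 6) (nat_lit 65639) (nat_lit 7) (node (nat_lit 7)
  (nat_lit 66903) (nat_lit 8) nil nil) (node (nat_lit 7) (nat_lit 68243) (nat_lit 7) nil (node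
  (nat_lit 4) (nat_lit 69508) (nat_lit 7) (node (nat_lit 5) (nat_lit 63293) (nat_lit 8) (node
  (nat_lit 6) (nat_lit 51599) (nat_lit 9) nil nil) nil) nil))) (node (nat_lit 4) (nat_lit 67261)
  (nat_lit 6) (node (nat_lit 6) (nat_lit 69972) (nat_lit 7) (node (nat_lit 5) (nat_lit 69532)
  (nat_lit 8) nil (node (nat_lit 7) (nat_lit 71235) (nat_lit 8) nil nil)) (node (nat_lit 5)
  (nat_lit 69181) (nat_lit 7) nil (node (nat_lit 7) (nat_lit 69181) (nat_lit 7) nil (node (nat_lit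
  3) (nat_lit 60797) (nat_lit 7) nil nil)))) (node (nat_lit 3) (nat_lit 65073) (nat_lit 6) (node
  (nat_lit 5) (nat_lit 66993) (nat_lit 7) nil (node (nat_lit 6) (nat_lit 66993) (nat_lit 7) nil
  (node (nat_lit 4) (nat_lit 61511) (nat_lit 7) nil nil))) (node (nat_lit 0) (nat_lit 66018)
  (nat_lit 6) nil nil)))) (node (nat_lit 4) (nat_lit 62228) (nat_lit 5) (node (nat_lit 6) (nat_lit
  66676) (nat_lit 6) (node (nat_lit 4) (nat_lit 66833) (nat_lit 7) nil (node (nat_lit 5) (nat_lit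
  68596) (nat_lit 7) (node (nat_lit 4) (nat_lit 63888) (nat_lit 8) (node (nat_lit 5) (nat_lit
  56975) (nat_lit 9) (node (nat_lit 6) (nat_lit 48484) (nat_lit 10) (node (nat_lit 7) (nat_lit
  36906) (nat_lit 11) (node (nat_lit 4) (nat_lit 33028) (nat_lit 12) nil nil) nil) nil) nil) nil)
  (node (nat_lit 7) (nat_lit 68596) (nat_lit 7) nil (node (nat_lit 3) (nat_lit 60212) (nat_lit 7)
  nil (node (nat_lit 0) (nat_lit 68596) (nat_lit 7) nil nil))))) (node (nat_lit 7) (nat_lit 67230)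
  (nat_lit 6) (node (nat_lit 5) (nat_lit 69150) (nat_lit 7) (node (nat_lit 4) (nat_lit 68137)
  (nat_lit 8) (node (nat_lit 5) (nat_lit 69010) (nat_lit 9) (node (nat_lit 6) (nat_lit 67006)
  (nat_lit 10) (node (nat_lit 7) (nat_lit 67592) (nat_lit 11) (node (nat_lit 4) (nat_lit 67184)
  (nat_lit 12) nil nil) nil) nil) nil) nil) (node (nat_lit 6) (nat_lit 68042) (nat_lit 7) nil
  nil)) (node (nat_lit 5) (nat_lit 65305) (nat_lit 6) (node (nat_lit 4) (nat_lit 64188) (nat_lit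
  7) nil nil) (node (nat_lit 3) (nat_lit 66076) (nat_lit 6) (node (nat_lit 4) (nat_lit 63539)
  (nat_lit 7) (node (nat_lit 6) (nat_lit 60558) (nat_lit 8) nil (node (nat_lit 5) (nat_lit 49506)
  (nat_lit 8) nil nil)) nil) (node (nat_lit 0) (nat_lit 66344) (nat_lit 6) (node (nat_lit 4)
  (nat_lit 65227) (nat_lit 7) nil nil) nil))))) (node (nat_lit 3) (nat_lit 60556) (nat_lit 5)
  (node (nat_lit 4) (nat_lit 64995) (nat_lit 6) (node (nat_lit 5) (nat_lit 66914) (nat_lit 7)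
  (node (nat_lit 6) (nat_lit 63933) (nat_lit 8) nil nil) nil) (node (nat_lit 6) (nat_lit 64259)
  (nat_lit 6) (node (nat_lit 8) (nat_lit 65139) (nat_lit 7) nil (node (nat_lit 5) (nat_lit 66179)
  (nat_lit 7) nil (node (nat_lit 4) (nat_lit 64415) (nat_lit 7) nil (node (nat_lit 7) (nat_lit
  66179) (nat_lit 7) nil nil)))) (node (nat_lit 5) (nat_lit 64137) (nat_lit 6) (node (nat_lit 4)
  (nat_lit 63961) (nat_lit 7) nil (node (nat_lit 8) (nat_lit 66057) (nat_lit 7) nil nil)) (node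
  (nat_lit 7) (nat_lit 66909) (nat_lit 6) (node (nat_lit 5) (nat_lit 68829) (nat_lit 7) nil nil)
  (node (nat_lit 0) (nat_lit 66163) (nat_lit 6) nil nil))))) (node (nat_lit 0) (nat_lit 62851)
  (nat_lit 5) (node (nat_lit 6) (nat_lit 66708) (nat_lit 6) (node (nat_lit 5) (nat_lit 67481)
  (nat_lit 7) nil (node (nat_lit 7) (nat_lit 68628) (nat_lit 7) nil nil)) (node (nat_lit 5)
  (nat_lit 65715) (nat_lit 6) (node (nat_lit 4) (nat_lit 64598) (nat_lit 7) nil nil) (node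
  (nat_lit 4) (nat_lit 66966) (nat_lit 6) nil (node (nat_lit 7) (nat_lit 67185) (nat_lit 6) nil
  (node (nat_lit 3) (nat_lit 67203) (nat_lit 6) (node (nat_lit 4) (nat_lit 69123) (nat_lit 7) nil
  (node (nat_lit 5) (nat_lit 67943) (nat_lit 7) nil nil)) (node (nat_lit 0) (nat_lit 65764)
  (nat_lit 6) nil nil)))))) nil))))) nil))))

noncomputable def t7 : Tr :=
  (node (nat_lit 4) (nat_lit 0) (nat_lit 3) (node (nat_lit 0) (nat_lit 0) (nat_lit 4) (node
  (nat_lit 5) (nat_lit 26364) (nat_lit 5) (node (nat_lit 4) (nat_lit 26656) (nat_lit 6) (node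
  (nat_lit 5) (nat_lit 29146) (nat_lit 7) (node (nat_lit 7) (nat_lit 29705) (nat_lit 8) (node
  (nat_lit 4) (nat_lit 29705) (nat_lit 9) (node (nat_lit 7) (nat_lit 29863) (nat_lit 10) nil nil)
  (node (nat_lit 5) (nat_lit 30033) (nat_lit 9) nil nil)) (node (nat_lit 3) (nat_lit 29146)
  (nat_lit 8) (node (nat_lit 4) (nat_lit 29146) (nat_lit 9) (node (nat_lit 5) (nat_lit 29445)
  (nat_lit 10) (node (nat_lit 4) (nat_lit 29445) (nat_lit 11) (node (nat_lit 11) (nat_lit 29445)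
  (nat_lit 12) nil (node (nat_lit 7) (nat_lit 29559) (nat_lit 12) nil nil)) nil) nil) nil) nil))
  (node (nat_lit 3) (nat_lit 27168) (nat_lit 7) (node (nat_lit 5) (nat_lit 28252) (nat_lit 8) nil
  (node (nat_lit 4) (nat_lit 27199) (nat_lit 8) (node (nat_lit 5) (nat_lit 25337) (nat_lit 9)
  (node (nat_lit 4) (nat_lit 18403) (nat_lit 10) (node (nat_lit 10) (nat_lit 18497) (nat_lit 11)
  nil nil) nil) nil) (node (nat_lit 7) (nat_lit 28524) (nat_lit 8) (node (nat_lit 10) (nat_lit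
  28524) (nat_lit 9) (node (nat_lit 4) (nat_lit 28524) (nat_lit 10) (node (nat_lit 5) (nat_lit
  28686) (nat_lit 11) (node (nat_lit 4) (nat_lit 28686) (nat_lit 12) nil nil) nil) nil) nil)
  nil))) (node (nat_lit 0) (nat_lit 29146) (nat_lit 7) nil (node (nat_lit 2) (nat_lit 26948)
  (nat_lit 7) (node (nat_lit 4) (nat_lit 26950) (nat_lit 8) nil (node (nat_lit 5) (nat_lit 28252)
  (nat_lit 8) nil (node (nat_lit 7) (nat_lit 28524) (nat_lit 8) nil (node (nat_lit 3) (nat_lit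
  26702) (nat_lit 8) (node (nat_lit 4) (nat_lit 25863) (nat_lit 9) (node (nat_lit 5) (nat_lit
  23849) (nat_lit 10) nil nil) nil) nil)))) nil)))) (node (nat_lit 7) (nat_lit 28145) (nat_lit 6)
  (node (nat_lit 4) (nat_lit 28104) (nat_lit 7) nil nil) (node (nat_lit 3) (nat_lit 26386)
  (nat_lit 6) (node (nat_lit 4) (nat_lit 26386) (nat_lit 7) nil nil) nil))) (node (nat_lit 4)
  (nat_lit 0) (nat_lit 5) (node (nat_lit 5) (nat_lit 27965) (nat_lit 6) (node (nat_lit 7) (nat_lit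
  29021) (nat_lit 7) (node (nat_lit 5) (nat_lit 29263) (nat_lit 8) (node (nat_lit 4) (nat_lit
  29263) (nat_lit 9) (node (nat_lit 5) (nat_lit 29465) (nat_lit 10) nil nil) nil) (node (nat_lit
  4) (nat_lit 29021) (nat_lit 8) (node (nat_lit 7) (nat_lit 29376) (nat_lit 9) (node (nat_lit 5)
  (nat_lit 29465) (nat_lit 10) nil nil) nil) (node (nat_lit 3) (nat_lit 29021) (nat_lit 8) (node
  (nat_lit 4) (nat_lit 29021) (nat_lit 9) (node (nat_lit 5) (nat_lit 29320) (nat_lit 10) (node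
  (nat_lit 4) (nat_lit 29320) (nat_lit 11) (node (nat_lit 7) (nat_lit 29434) (nat_lit 12) nil nil)
  nil) nil) nil) (node (nat_lit 0) (nat_lit 29161) (nat_lit 8) nil (node (nat_lit 2) (nat_lit
  29021) (nat_lit 8) nil nil))))) (node (nat_lit 3) (nat_lit 27965) (nat_lit 7) (node (nat_lit 4)
  (nat_lit 27965) (nat_lit 8) (node (nat_lit 5) (nat_lit 28401) (nat_lit 9) (node (nat_lit 4)
  (nat_lit 28401) (nat_lit 10) nil nil) nil) nil) (node (nat_lit 0) (nat_lit 28448) (nat_lit 7)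
  nil (node (nat_lit 2) (nat_lit 27965) (nat_lit 7) nil nil)))) (node (nat_lit 3) (nat_lit 24404)
  (nat_lit 6) (node (nat_lit 4) (nat_lit 24588) (nat_lit 7) (node (nat_lit 5) (nat_lit 21832)
  (nat_lit 8) nil nil) (node (nat_lit 7) (nat_lit 26903) (nat_lit 7) (node (nat_lit 9) (nat_lit
  26903) (nat_lit 8) nil nil) (node (nat_lit 5) (nat_lit 26903) (nat_lit 7) (node (nat_lit 9)
  (nat_lit 26903) (nat_lit 8) nil nil) (node (nat_lit 0) (nat_lit 26335) (nat_lit 7) nil (node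
  (nat_lit 2) (nat_lit 24431) (nat_lit 7) nil nil))))) (node (nat_lit 0) (nat_lit 27458) (nat_lit
  6) (node (nat_lit 3) (nat_lit 27458) (nat_lit 7) nil nil) (node (nat_lit 2) (nat_lit 24221)
  (nat_lit 6) (node (nat_lit 5) (nat_lit 26526) (nat_lit 7) nil (node (nat_lit 7) (nat_lit 26903)
  (nat_lit 7) nil (node (nat_lit 4) (nat_lit 24837) (nat_lit 7) nil (node (nat_lit 3) (nat_lit
  24615) (nat_lit 7) (node (nat_lit 4) (nat_lit 24615) (nat_lit 8) (node (nat_lit 5) (nat_lit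
  20168) (nat_lit 9) nil nil) nil) (node (nat_lit 0) (nat_lit 26335) (nat_lit 7) nil nil)))))
  nil)))) (node (nat_lit 3) (nat_lit 23516) (nat_lit 5) (node (nat_lit 4) (nat_lit 24410) (nat_lit
  6) (node (nat_lit 5) (nat_lit 26335) (nat_lit 7) nil (node (nat_lit 8) (nat_lit 25161) (nat_lit
  7) (node (nat_lit 7) (nat_lit 26486) (nat_lit 8) nil (node (nat_lit 5) (nat_lit 26486) (nat_lit
  8) (node (nat_lit 4) (nat_lit 26486) (nat_lit 9) (node (nat_lit 7) (nat_lit 26688) (nat_lit 10)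
  (node (nat_lit 8) (nat_lit 26688) (nat_lit 11) nil nil) nil) nil) nil)) (node (nat_lit 7)
  (nat_lit 27027) (nat_lit 7) nil (node (nat_lit 0) (nat_lit 26335) (nat_lit 7) (node (nat_lit 8)
  (nat_lit 26335) (nat_lit 8) nil nil) (node (nat_lit 2) (nat_lit 24410) (nat_lit 7) (node
  (nat_lit 8) (nat_lit 24410) (nat_lit 8) (node (nat_lit 4) (nat_lit 24537) (nat_lit 9) nil nil)
  nil) nil))))) (node (nat_lit 5) (nat_lit 27793) (nat_lit 6) (node (nat_lit 7) (nat_lit 27992)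
  (nat_lit 7) nil (node (nat_lit 8) (nat_lit 27793) (nat_lit 7) (node (nat_lit 4) (nat_lit 27793)
  (nat_lit 8) (node (nat_lit 5) (nat_lit 28256) (nat_lit 9) (node (nat_lit 4) (nat_lit 28256)
  (nat_lit 10) nil nil) nil) nil) nil)) (node (nat_lit 7) (nat_lit 27490) (nat_lit 6) (node
  (nat_lit 4) (nat_lit 27490) (nat_lit 7) (node (nat_lit 8) (nat_lit 27490) (nat_lit 8) nil nil)
  nil) (node (nat_lit 0) (nat_lit 26825) (nat_lit 6) (node (nat_lit 8) (nat_lit 26825) (nat_lit 7)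
  nil nil) (node (nat_lit 2) (nat_lit 24299) (nat_lit 6) (node (nat_lit 8) (nat_lit 24758)
  (nat_lit 7) nil (node (nat_lit 5) (nat_lit 26335) (nat_lit 7) nil nil)) nil))))) (node (nat_lit
  0) (nat_lit 26307) (nat_lit 5) (node (nat_lit 4) (nat_lit 26423) (nat_lit 6) (node (nat_lit 5)
  (nat_lit 27717) (nat_lit 7) nil (node (nat_lit 8) (nat_lit 27717) (nat_lit 7) nil (node (nat_lit
  7) (nat_lit 27871) (nat_lit 7) nil nil))) (node (nat_lit 5) (nat_lit 27874) (nat_lit 6) nil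
  (node (nat_lit 7) (nat_lit 28013) (nat_lit 6) nil (node (nat_lit 3) (nat_lit 26307) (nat_lit 6)
  (node (nat_lit 4) (nat_lit 26307) (nat_lit 7) (node (nat_lit 5) (nat_lit 27058) (nat_lit 8) nil
  nil) nil) (node (nat_lit 0) (nat_lit 27527) (nat_lit 6) nil (node (nat_lit 2) (nat_lit 26307)
  (nat_lit 6) nil nil)))))) (node (nat_lit 2) (nat_lit 23486) (nat_lit 5) (node (nat_lit 4)
  (nat_lit 24408) (nat_lit 6) (node (nat_lit 5) (nat_lit 26335) (nat_lit 7) nil (node (nat_lit 8)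
  (nat_lit 25266) (nat_lit 7) (node (nat_lit 7) (nat_lit 26486) (nat_lit 8) nil nil) (node
  (nat_lit 7) (nat_lit 26335) (nat_lit 7) nil (node (nat_lit 3) (nat_lit 24408) (nat_lit 7) nil
  nil)))) (node (nat_lit 5) (nat_lit 27340) (nat_lit 6) nil (node (nat_lit 7) (nat_lit 27340)
  (nat_lit 6) nil (node (nat_lit 3) (nat_lit 24390) (nat_lit 6) (node (nat_lit 4) (nat_lit 23820)
  (nat_lit 7) (node (nat_lit 5) (nat_lit 17176) (nat_lit 8) nil nil) (node (nat_lit 7) (nat_lit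
  25725) (nat_lit 7) (node (nat_lit 9) (nat_lit 25725) (nat_lit 8) nil nil) (node (nat_lit 8)
  (nat_lit 24418) (nat_lit 7) nil nil))) (node (nat_lit 0) (nat_lit 26825) (nat_lit 6) nil
  nil))))) nil))))) t2) (node (nat_lit 0) (nat_lit 0) (nat_lit 3) t3 (node (nat_lit 3) (nat_lit 0)
  (nat_lit 3) (node (nat_lit 4) (nat_lit 0) (nat_lit 4) (node (nat_lit 6) (nat_lit 0) (nat_lit 5)
  (node (nat_lit 5) (nat_lit 51098) (nat_lit 6) (node (nat_lit 4) (nat_lit 63741) (nat_lit 7)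
  (node (nat_lit 5) (nat_lit 64033) (nat_lit 8) (node (nat_lit 6) (nat_lit 64002) (nat_lit 9)
  (node (nat_lit 4) (nat_lit 37418) (nat_lit 10) nil nil) nil) nil) (node (nat_lit 6) (nat_lit
  62207) (nat_lit 7) nil (node (nat_lit 0) (nat_lit 68399) (nat_lit 7) nil (node (nat_lit 2)
  (nat_lit 67234) (nat_lit 7) nil nil)))) (node (nat_lit 0) (nat_lit 66470) (nat_lit 6) nil (node
  (nat_lit 2) (nat_lit 63199) (nat_lit 6) nil nil))) (node (nat_lit 0) (nat_lit 64715) (nat_lit 5)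
  nil (node (nat_lit 5) (nat_lit 0) (nat_lit 5) (node (nat_lit 4) (nat_lit 26344) (nat_lit 6)
  (node (nat_lit 6) (nat_lit 30448) (nat_lit 7) (node (nat_lit 5) (nat_lit 31678) (nat_lit 8) nil
  nil) nil) (node (nat_lit 0) (nat_lit 31418) (nat_lit 6) (node (nat_lit 5) (nat_lit 32813)
  (nat_lit 7) nil nil) (node (nat_lit 2) (nat_lit 28605) (nat_lit 6) (node (nat_lit 4) (nat_lit
  33133) (nat_lit 7) nil (node (nat_lit 5) (nat_lit 30629) (nat_lit 7) (node (nat_lit 4) (nat_lit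
  31746) (nat_lit 8) (node (nat_lit 5) (nat_lit 22956) (nat_lit 9) (node (nat_lit 6) (nat_lit
  18568) (nat_lit 10) nil nil) nil) (node (nat_lit 6) (nat_lit 32285) (nat_lit 8) nil nil)) (node
  (nat_lit 6) (nat_lit 30348) (nat_lit 7) nil nil))) nil))) (node (nat_lit 2) (nat_lit 61306)
  (nat_lit 5) (node (nat_lit 5) (nat_lit 66743) (nat_lit 6) nil (node (nat_lit 4) (nat_lit 68181)
  (nat_lit 6) (node (nat_lit 6) (nat_lit 66324) (nat_lit 7) nil nil) (node (nat_lit 6) (nat_lit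
  67329) (nat_lit 6) (node (nat_lit 4) (nat_lit 68093) (nat_lit 7) nil nil) nil))) nil)))) (node
  (nat_lit 0) (nat_lit 0) (nat_lit 4) (node (nat_lit 5) (nat_lit 0) (nat_lit 5) (node (nat_lit 6)
  (nat_lit 66936) (nat_lit 6) (node (nat_lit 5) (nat_lit 67772) (nat_lit 7) (node (nat_lit 7)
  (nat_lit 69387) (nat_lit 8) (node (nat_lit 5) (nat_lit 69776) (nat_lit 9) (node (nat_lit 6)
  (nat_lit 68835) (nat_lit 10) nil nil) nil) (node (nat_lit 4) (nat_lit 67496) (nat_lit 8) nil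
  nil)) (node (nat_lit 4) (nat_lit 69430) (nat_lit 7) (node (nat_lit 5) (nat_lit 69992) (nat_lit
  8) nil nil) nil)) (node (nat_lit 7) (nat_lit 69317) (nat_lit 6) nil (node (nat_lit 4) (nat_lit
  69310) (nat_lit 6) (node (nat_lit 5) (nat_lit 70171) (nat_lit 7) (node (nat_lit 6) (nat_lit
  68766) (nat_lit 8) (node (nat_lit 7) (nat_lit 24904) (nat_lit 9) nil nil) nil) (node (nat_lit 6)
  (nat_lit 67686) (nat_lit 7) (node (nat_lit 4) (nat_lit 66569) (nat_lit 8) nil nil) nil)) (node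
  (nat_lit 0) (nat_lit 67992) (nat_lit 6) nil (node (nat_lit 2) (nat_lit 66297) (nat_lit 6) nil
  nil))))) (node (nat_lit 4) (nat_lit 65718) (nat_lit 5) (node (nat_lit 6) (nat_lit 68987)
  (nat_lit 6) (node (nat_lit 4) (nat_lit 69841) (nat_lit 7) (node (nat_lit 5) (nat_lit 66780)
  (nat_lit 8) (node (nat_lit 6) (nat_lit 57809) (nat_lit 9) (node (nat_lit 7) (nat_lit 44158)
  (nat_lit 10) nil nil) nil) nil) (node (nat_lit 5) (nat_lit 69841) (nat_lit 7) (node (nat_lit 6)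
  (nat_lit 70404) (nat_lit 8) (node (nat_lit 4) (nat_lit 70792) (nat_lit 9) nil nil) nil) nil))
  (node (nat_lit 7) (nat_lit 69637) (nat_lit 6) nil nil)) (node (nat_lit 6) (nat_lit 64188)
  (nat_lit 5) (node (nat_lit 5) (nat_lit 66901) (nat_lit 6) (node (nat_lit 7) (nat_lit 69233)
  (nat_lit 7) nil nil) (node (nat_lit 4) (nat_lit 69317) (nat_lit 6) (node (nat_lit 5) (nat_lit
  70171) (nat_lit 7) (node (nat_lit 6) (nat_lit 68766) (nat_lit 8) (node (nat_lit 7) (nat_lit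
  31736) (nat_lit 9) nil nil) nil) nil) nil)) (node (nat_lit 0) (nat_lit 66357) (nat_lit 5) (node
  (nat_lit 6) (nat_lit 68960) (nat_lit 6) nil nil) (node (nat_lit 2) (nat_lit 63369) (nat_lit 5)
  (node (nat_lit 6) (nat_lit 66665) (nat_lit 6) nil (node (nat_lit 5) (nat_lit 66266) (nat_lit 6)
  nil nil)) nil))))) (node (nat_lit 5) (nat_lit 0) (nat_lit 4) (node (nat_lit 4) (nat_lit 0)
  (nat_lit 5) (node (nat_lit 6) (nat_lit 48724) (nat_lit 6) (node (nat_lit 4) (nat_lit 55855)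
  (nat_lit 7) (node (nat_lit 5) (nat_lit 59300) (nat_lit 8) (node (nat_lit 6) (nat_lit 46055)
  (nat_lit 9) (node (nat_lit 5) (nat_lit 40664) (nat_lit 10) nil nil) nil) nil) (node (nat_lit 5)
  (nat_lit 56633) (nat_lit 7) (node (nat_lit 6) (nat_lit 61146) (nat_lit 8) nil nil) (node
  (nat_lit 0) (nat_lit 63323) (nat_lit 7) nil (node (nat_lit 2) (nat_lit 61586) (nat_lit 7) nil
  nil)))) (node (nat_lit 0) (nat_lit 60083) (nat_lit 6) nil (node (nat_lit 5) (nat_lit 27909)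
  (nat_lit 6) (node (nat_lit 6) (nat_lit 26225) (nat_lit 7) (node (nat_lit 4) (nat_lit 26971)
  (nat_lit 8) (node (nat_lit 6) (nat_lit 27379) (nat_lit 9) (node (nat_lit 5) (nat_lit 29780)
  (nat_lit 10) nil nil) (node (nat_lit 5) (nat_lit 29421) (nat_lit 9) (node (nat_lit 4) (nat_lit
  29421) (nat_lit 10) (node (nat_lit 6) (nat_lit 29421) (nat_lit 11) nil nil) nil) nil)) (node
  (nat_lit 0) (nat_lit 29335) (nat_lit 8) nil (node (nat_lit 2) (nat_lit 27443) (nat_lit 8) nil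
  nil))) (node (nat_lit 0) (nat_lit 37418) (nat_lit 7) nil (node (nat_lit 2) (nat_lit 37418)
  (nat_lit 7) (node (nat_lit 5) (nat_lit 37418) (nat_lit 8) (node (nat_lit 6) (nat_lit 37418)
  (nat_lit 9) (node (nat_lit 5) (nat_lit 37418) (nat_lit 10) (node (nat_lit 4) (nat_lit 37418)
  (nat_lit 11) nil nil) nil) nil) nil) nil))) (node (nat_lit 2) (nat_lit 57588) (nat_lit 6) (node
  (nat_lit 6) (nat_lit 61754) (nat_lit 7) nil nil) nil)))) (node (nat_lit 0) (nat_lit 62847)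
  (nat_lit 5) (node (nat_lit 6) (nat_lit 67244) (nat_lit 6) nil (node (nat_lit 4) (nat_lit 67650)
  (nat_lit 6) (node (nat_lit 6) (nat_lit 65880) (nat_lit 7) nil nil) (node (nat_lit 5) (nat_lit
  67244) (nat_lit 6) nil nil))) (node (nat_lit 2) (nat_lit 0) (nat_lit 5) (node (nat_lit 4)
  (nat_lit 65943) (nat_lit 6) (node (nat_lit 6) (nat_lit 67727) (nat_lit 7) nil (node (nat_lit 8)
  (nat_lit 65744) (nat_lit 7) (node (nat_lit 5) (nat_lit 65792) (nat_lit 8) (node (nat_lit 6)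
  (nat_lit 65103) (nat_lit 9) nil nil) nil) nil)) (node (nat_lit 6) (nat_lit 55594) (nat_lit 6)
  (node (nat_lit 5) (nat_lit 57003) (nat_lit 7) (node (nat_lit 6) (nat_lit 57566) (nat_lit 8) nil
  nil) (node (nat_lit 8) (nat_lit 57050) (nat_lit 7) (node (nat_lit 5) (nat_lit 57613) (nat_lit 8)
  (node (nat_lit 6) (nat_lit 59150) (nat_lit 9) (node (nat_lit 5) (nat_lit 57323) (nat_lit 10) nil
  nil) nil) nil) (node (nat_lit 4) (nat_lit 62417) (nat_lit 7) (node (nat_lit 5) (nat_lit 59845)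
  (nat_lit 8) (node (nat_lit 6) (nat_lit 46637) (nat_lit 9) (node (nat_lit 5) (nat_lit 32979)
  (nat_lit 10) nil nil) nil) nil) nil))) (node (nat_lit 5) (nat_lit 55471) (nat_lit 6) (node
  (nat_lit 6) (nat_lit 57004) (nat_lit 7) (node (nat_lit 8) (nat_lit 57566) (nat_lit 8) (node
  (nat_lit 6) (nat_lit 59535) (nat_lit 9) nil nil) (node (nat_lit 4) (nat_lit 63121) (nat_lit 8)
  nil nil)) (node (nat_lit 4) (nat_lit 62721) (nat_lit 7) (node (nat_lit 5) (nat_lit 56799)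
  (nat_lit 8) (node (nat_lit 6) (nat_lit 49603) (nat_lit 9) (node (nat_lit 5) (nat_lit 37369)
  (nat_lit 10) nil nil) nil) nil) nil)) (node (nat_lit 0) (nat_lit 64476) (nat_lit 6) nil nil))))
  nil))) (node (nat_lit 2) (nat_lit 0) (nat_lit 4) (node (nat_lit 5) (nat_lit 0) (nat_lit 5) (node
  (nat_lit 6) (nat_lit 55878) (nat_lit 6) (node (nat_lit 5) (nat_lit 57135) (nat_lit 7) (node
  (nat_lit 7) (nat_lit 57696) (nat_lit 8) (node (nat_lit 5) (nat_lit 61225) (nat_lit 9) (node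
  (nat_lit 6) (nat_lit 62796) (nat_lit 10) (node (nat_lit 7) (nat_lit 63913) (nat_lit 11) (node
  (nat_lit 6) (nat_lit 63678) (nat_lit 12) nil nil) nil) (node (nat_lit 4) (nat_lit 63403)
  (nat_lit 10) nil (node (nat_lit 0) (nat_lit 64830) (nat_lit 10) nil nil))) (node (nat_lit 6)
  (nat_lit 61233) (nat_lit 9) (node (nat_lit 5) (nat_lit 62180) (nat_lit 10) nil nil) (node
  (nat_lit 4) (nat_lit 64777) (nat_lit 9) nil nil))) (node (nat_lit 4) (nat_lit 63432) (nat_lit 8)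
  nil (node (nat_lit 0) (nat_lit 65413) (nat_lit 8) nil nil))) (node (nat_lit 4) (nat_lit 66723)
  (nat_lit 7) (node (nat_lit 5) (nat_lit 67285) (nat_lit 8) nil nil) (node (nat_lit 0) (nat_lit
  66291) (nat_lit 7) nil nil))) (node (nat_lit 4) (nat_lit 59314) (nat_lit 6) (node (nat_lit 7)
  (nat_lit 61551) (nat_lit 7) (node (nat_lit 6) (nat_lit 62691) (nat_lit 8) (node (nat_lit 4)
  (nat_lit 63698) (nat_lit 9) nil nil) nil) (node (nat_lit 5) (nat_lit 54537) (nat_lit 7) (node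
  (nat_lit 6) (nat_lit 37418) (nat_lit 8) (node (nat_lit 7) (nat_lit 22631) (nat_lit 9) nil nil)
  nil) (node (nat_lit 6) (nat_lit 62030) (nat_lit 7) (node (nat_lit 5) (nat_lit 63164) (nat_lit 8)
  nil nil) nil))) (node (nat_lit 7) (nat_lit 54989) (nat_lit 6) (node (nat_lit 6) (nat_lit 57142)
  (nat_lit 7) (node (nat_lit 5) (nat_lit 57698) (nat_lit 8) (node (nat_lit 7) (nat_lit 61073)
  (nat_lit 9) nil (node (nat_lit 6) (nat_lit 61790) (nat_lit 9) nil nil)) (node (nat_lit 4)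
  (nat_lit 65359) (nat_lit 8) nil nil)) (node (nat_lit 4) (nat_lit 66756) (nat_lit 7) nil (node
  (nat_lit 0) (nat_lit 66756) (nat_lit 7) nil nil))) (node (nat_lit 0) (nat_lit 66597) (nat_lit 6)
  nil nil)))) (node (nat_lit 4) (nat_lit 61955) (nat_lit 5) (node (nat_lit 6) (nat_lit 68015)
  (nat_lit 6) (node (nat_lit 4) (nat_lit 65963) (nat_lit 7) (node (nat_lit 5) (nat_lit 62541)
  (nat_lit 8) (node (nat_lit 6) (nat_lit 54582) (nat_lit 9) (node (nat_lit 7) (nat_lit 40153)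
  (nat_lit 10) (node (nat_lit 4) (nat_lit 33471) (nat_lit 11) nil nil) nil) nil) nil) (node
  (nat_lit 5) (nat_lit 69620) (nat_lit 7) (node (nat_lit 4) (nat_lit 69488) (nat_lit 8) (node
  (nat_lit 5) (nat_lit 68591) (nat_lit 9) (node (nat_lit 6) (nat_lit 63304) (nat_lit 10) (node
  (nat_lit 7) (nat_lit 52237) (nat_lit 11) (node (nat_lit 4) (nat_lit 28196) (nat_lit 12) nil nil)
  nil) nil) nil) (node (nat_lit 7) (nat_lit 68942) (nat_lit 8) nil (node (nat_lit 6) (nat_lit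
  70182) (nat_lit 8) (node (nat_lit 4) (nat_lit 70571) (nat_lit 9) nil nil) nil))) nil)) (node
  (nat_lit 7) (nat_lit 67069) (nat_lit 6) (node (nat_lit 6) (nat_lit 69648) (nat_lit 7) nil (node
  (nat_lit 5) (nat_lit 68931) (nat_lit 7) (node (nat_lit 4) (nat_lit 68642) (nat_lit 8) (node
  (nat_lit 5) (nat_lit 69490) (nat_lit 9) nil nil) nil) nil)) (node (nat_lit 5) (nat_lit 66500)
  (nat_lit 6) (node (nat_lit 7) (nat_lit 69648) (nat_lit 7) (node (nat_lit 5) (nat_lit 70166)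
  (nat_lit 8) (node (nat_lit 6) (nat_lit 69019) (nat_lit 9) nil nil) nil) nil) nil))) (node
  (nat_lit 6) (nat_lit 0) (nat_lit 5) (node (nat_lit 5) (nat_lit 54064) (nat_lit 6) (node (nat_lit
  7) (nat_lit 57058) (nat_lit 7) (node (nat_lit 5) (nat_lit 57690) (nat_lit 8) (node (nat_lit 6)
  (nat_lit 61542) (nat_lit 9) nil nil) (node (nat_lit 6) (nat_lit 57690) (nat_lit 8) (node
  (nat_lit 7) (nat_lit 60854) (nat_lit 9) (node (nat_lit 5) (nat_lit 62261) (nat_lit 10) (node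
  (nat_lit 6) (nat_lit 61511) (nat_lit 11) nil nil) nil) nil) nil)) (node (nat_lit 6) (nat_lit
  57092) (nat_lit 7) nil (node (nat_lit 4) (nat_lit 60599) (nat_lit 7) nil nil))) (node (nat_lit
  4) (nat_lit 58745) (nat_lit 6) (node (nat_lit 5) (nat_lit 52852) (nat_lit 7) (node (nat_lit 6)
  (nat_lit 38416) (nat_lit 8) (node (nat_lit 7) (nat_lit 31877) (nat_lit 9) nil nil) nil) nil)
  (node (nat_lit 0) (nat_lit 65315) (nat_lit 6) nil nil))) (node (nat_lit 0) (nat_lit 63698)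
  (nat_lit 5) (node (nat_lit 6) (nat_lit 68165) (nat_lit 6) nil (node (nat_lit 5) (nat_lit 68165)
  (nat_lit 6) nil nil)) nil)))) nil)))) (node (nat_lit 2) (nat_lit 0) (nat_lit 3) t6 nil))))

noncomputable def t8 : Tr :=
  (node (nat_lit 2) (nat_lit 0) (nat_lit 4) (node (nat_lit 5) (nat_lit 0) (nat_lit 5) (node
  (nat_lit 4) (nat_lit 41937) (nat_lit 6) (node (nat_lit 5) (nat_lit 42909) (nat_lit 7) nil nil)
  (node (nat_lit 7) (nat_lit 41937) (nat_lit 6) (node (nat_lit 4) (nat_lit 42909) (nat_lit 7)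
  (node (nat_lit 7) (nat_lit 43549) (nat_lit 8) nil nil) nil) (node (nat_lit 1) (nat_lit 41937)
  (nat_lit 6) (node (nat_lit 4) (nat_lit 42909) (nat_lit 7) (node (nat_lit 5) (nat_lit 41621)
  (nat_lit 8) (node (nat_lit 4) (nat_lit 17621) (nat_lit 9) nil nil) nil) nil) (node (nat_lit 0)
  (nat_lit 41937) (nat_lit 6) nil nil)))) (node (nat_lit 4) (nat_lit 0) (nat_lit 5) (node (nat_lit
  5) (nat_lit 41937) (nat_lit 6) (node (nat_lit 7) (nat_lit 42909) (nat_lit 7) (node (nat_lit 5)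
  (nat_lit 43549) (nat_lit 8) (node (nat_lit 4) (nat_lit 43991) (nat_lit 9) (node (nat_lit 5)
  (nat_lit 44328) (nat_lit 10) (node (nat_lit 7) (nat_lit 44624) (nat_lit 11) (node (nat_lit 4)
  (nat_lit 44020) (nat_lit 12) nil (node (nat_lit 1) (nat_lit 43564) (nat_lit 12) nil nil)) (node
  (nat_lit 1) (nat_lit 44624) (nat_lit 11) (node (nat_lit 4) (nat_lit 42590) (nat_lit 12) (node
  (nat_lit 5) (nat_lit 42487) (nat_lit 13) nil nil) nil) (node (nat_lit 0) (nat_lit 44624)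
  (nat_lit 11) nil nil))) (node (nat_lit 1) (nat_lit 44328) (nat_lit 10) (node (nat_lit 4)
  (nat_lit 44624) (nat_lit 11) (node (nat_lit 5) (nat_lit 44893) (nat_lit 12) (node (nat_lit 4)
  (nat_lit 38774) (nat_lit 13) nil nil) nil) nil) (node (nat_lit 0) (nat_lit 44328) (nat_lit 10)
  nil nil))) (node (nat_lit 1) (nat_lit 43991) (nat_lit 9) (node (nat_lit 7) (nat_lit 42995)
  (nat_lit 10) nil (node (nat_lit 4) (nat_lit 44328) (nat_lit 10) (node (nat_lit 5) (nat_lit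
  44624) (nat_lit 11) (node (nat_lit 4) (nat_lit 44893) (nat_lit 12) (node (nat_lit 7) (nat_lit
  41919) (nat_lit 13) (node (nat_lit 4) (nat_lit 27248) (nat_lit 14) nil nil) nil) nil) nil) nil))
  (node (nat_lit 0) (nat_lit 43991) (nat_lit 9) nil nil))) (node (nat_lit 4) (nat_lit 43549)
  (nat_lit 8) (node (nat_lit 7) (nat_lit 43991) (nat_lit 9) (node (nat_lit 5) (nat_lit 44328)
  (nat_lit 10) (node (nat_lit 4) (nat_lit 44624) (nat_lit 11) (node (nat_lit 5) (nat_lit 44020)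
  (nat_lit 12) nil (node (nat_lit 7) (nat_lit 44020) (nat_lit 12) nil nil)) (node (nat_lit 7)
  (nat_lit 43536) (nat_lit 11) nil (node (nat_lit 1) (nat_lit 44624) (nat_lit 11) (node (nat_lit
  4) (nat_lit 42590) (nat_lit 12) nil nil) nil))) (node (nat_lit 1) (nat_lit 44328) (nat_lit 10)
  (node (nat_lit 4) (nat_lit 44624) (nat_lit 11) (node (nat_lit 5) (nat_lit 41367) (nat_lit 12)
  nil nil) nil) (node (nat_lit 0) (nat_lit 44328) (nat_lit 10) nil nil))) (node (nat_lit 1)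
  (nat_lit 43991) (nat_lit 9) (node (nat_lit 4) (nat_lit 44328) (nat_lit 10) (node (nat_lit 5)
  (nat_lit 44624) (nat_lit 11) (node (nat_lit 4) (nat_lit 35918) (nat_lit 12) (node (nat_lit 7)
  (nat_lit 31533) (nat_lit 13) nil nil) nil) nil) (node (nat_lit 7) (nat_lit 42995) (nat_lit 10)
  nil nil)) (node (nat_lit 0) (nat_lit 43991) (nat_lit 9) nil nil))) (node (nat_lit 1) (nat_lit
  43549) (nat_lit 8) (node (nat_lit 7) (nat_lit 43991) (nat_lit 9) nil (node (nat_lit 4) (nat_lit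
  43991) (nat_lit 9) (node (nat_lit 5) (nat_lit 44328) (nat_lit 10) (node (nat_lit 4) (nat_lit
  41146) (nat_lit 11) (node (nat_lit 7) (nat_lit 34055) (nat_lit 12) (node (nat_lit 4) (nat_lit
  23417) (nat_lit 13) nil nil) nil) nil) nil) nil)) (node (nat_lit 0) (nat_lit 43549) (nat_lit 8)
  (node (nat_lit 1) (nat_lit 43991) (nat_lit 9) (node (nat_lit 4) (nat_lit 44328) (nat_lit 10)
  (node (nat_lit 5) (nat_lit 44624) (nat_lit 11) nil nil) nil) nil) nil)))) (node (nat_lit 1)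
  (nat_lit 42909) (nat_lit 7) (node (nat_lit 4) (nat_lit 43549) (nat_lit 8) (node (nat_lit 5)
  (nat_lit 43356) (nat_lit 9) (node (nat_lit 4) (nat_lit 37930) (nat_lit 10) (node (nat_lit 7)
  (nat_lit 23764) (nat_lit 11) nil nil) nil) nil) (node (nat_lit 7) (nat_lit 43549) (nat_lit 8)
  (node (nat_lit 5) (nat_lit 42335) (nat_lit 9) nil nil) nil)) (node (nat_lit 0) (nat_lit 42909)
  (nat_lit 7) (node (nat_lit 4) (nat_lit 41427) (nat_lit 8) nil (node (nat_lit 5) (nat_lit 41427)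
  (nat_lit 8) nil (node (nat_lit 1) (nat_lit 43549) (nat_lit 8) (node (nat_lit 4) (nat_lit 43991)
  (nat_lit 9) nil nil) nil))) (node (nat_lit 4) (nat_lit 42909) (nat_lit 7) nil nil)))) (node
  (nat_lit 1) (nat_lit 41937) (nat_lit 6) (node (nat_lit 4) (nat_lit 42909) (nat_lit 7) (node
  (nat_lit 5) (nat_lit 43549) (nat_lit 8) (node (nat_lit 4) (nat_lit 36664) (nat_lit 9) (node
  (nat_lit 7) (nat_lit 24070) (nat_lit 10) nil (node (nat_lit 9) (nat_lit 36722) (nat_lit 10) nil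
  nil)) nil) nil) (node (nat_lit 7) (nat_lit 42909) (nat_lit 7) (node (nat_lit 5) (nat_lit 43549)
  (nat_lit 8) nil nil) (node (nat_lit 5) (nat_lit 42909) (nat_lit 7) (node (nat_lit 9) (nat_lit
  40023) (nat_lit 8) (node (nat_lit 4) (nat_lit 38563) (nat_lit 9) (node (nat_lit 5) (nat_lit
  36941) (nat_lit 10) (node (nat_lit 4) (nat_lit 31433) (nat_lit 11) (node (nat_lit 7) (nat_lit
  25401) (nat_lit 12) (node (nat_lit 4) (nat_lit 17673) (nat_lit 13) nil nil) nil) nil) nil) nil)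
  nil) nil))) (node (nat_lit 0) (nat_lit 41937) (nat_lit 6) (node (nat_lit 5) (nat_lit 42909)
  (nat_lit 7) nil (node (nat_lit 1) (nat_lit 42909) (nat_lit 7) nil nil)) nil))) (node (nat_lit 1)
  (nat_lit 40432) (nat_lit 5) (node (nat_lit 4) (nat_lit 38253) (nat_lit 6) (node (nat_lit 5)
  (nat_lit 32296) (nat_lit 7) (node (nat_lit 8) (nat_lit 32935) (nat_lit 8) (node (nat_lit 7)
  (nat_lit 31722) (nat_lit 9) nil (node (nat_lit 5) (nat_lit 33378) (nat_lit 9) nil nil)) (node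
  (nat_lit 7) (nat_lit 33439) (nat_lit 8) (node (nat_lit 4) (nat_lit 32225) (nat_lit 9) nil nil)
  nil)) (node (nat_lit 8) (nat_lit 40934) (nat_lit 7) (node (nat_lit 7) (nat_lit 42077) (nat_lit
  8) nil (node (nat_lit 5) (nat_lit 39451) (nat_lit 8) nil nil)) (node (nat_lit 7) (nat_lit 41360)
  (nat_lit 7) nil (node (nat_lit 0) (nat_lit 41360) (nat_lit 7) (node (nat_lit 8) (nat_lit 41999)
  (nat_lit 8) (node (nat_lit 4) (nat_lit 42442) (nat_lit 9) nil nil) nil) nil)))) (node (nat_lit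
  5) (nat_lit 41937) (nat_lit 6) (node (nat_lit 7) (nat_lit 42909) (nat_lit 7) (node (nat_lit 4)
  (nat_lit 41427) (nat_lit 8) nil (node (nat_lit 8) (nat_lit 40023) (nat_lit 8) (node (nat_lit 4)
  (nat_lit 38232) (nat_lit 9) (node (nat_lit 5) (nat_lit 35875) (nat_lit 10) nil nil) nil) nil))
  (node (nat_lit 8) (nat_lit 42909) (nat_lit 7) (node (nat_lit 7) (nat_lit 41427) (nat_lit 8) nil
  (node (nat_lit 4) (nat_lit 43549) (nat_lit 8) (node (nat_lit 5) (nat_lit 41527) (nat_lit 9)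
  (node (nat_lit 4) (nat_lit 35103) (nat_lit 10) (node (nat_lit 7) (nat_lit 27042) (nat_lit 11)
  (node (nat_lit 8) (nat_lit 10497) (nat_lit 12) nil nil) nil) nil) nil) nil)) (node (nat_lit 4)
  (nat_lit 40080) (nat_lit 7) nil nil))) (node (nat_lit 7) (nat_lit 41937) (nat_lit 6) (node
  (nat_lit 4) (nat_lit 42909) (nat_lit 7) nil (node (nat_lit 5) (nat_lit 42909) (nat_lit 7) (node
  (nat_lit 4) (nat_lit 43549) (nat_lit 8) (node (nat_lit 7) (nat_lit 43991) (nat_lit 9) (node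
  (nat_lit 4) (nat_lit 44328) (nat_lit 10) (node (nat_lit 5) (nat_lit 43536) (nat_lit 11) nil
  (node (nat_lit 8) (nat_lit 44624) (nat_lit 11) nil nil)) (node (nat_lit 5) (nat_lit 42995)
  (nat_lit 10) nil (node (nat_lit 0) (nat_lit 44328) (nat_lit 10) nil nil))) nil) (node (nat_lit
  8) (nat_lit 40023) (nat_lit 8) nil nil)) nil)) (node (nat_lit 0) (nat_lit 41937) (nat_lit 6)
  (node (nat_lit 8) (nat_lit 42909) (nat_lit 7) (node (nat_lit 4) (nat_lit 43549) (nat_lit 8)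
  (node (nat_lit 5) (nat_lit 43991) (nat_lit 9) nil nil) nil) (node (nat_lit 5) (nat_lit 40080)
  (nat_lit 7) nil nil)) nil)))) (node (nat_lit 0) (nat_lit 40432) (nat_lit 5) (node (nat_lit 4)
  (nat_lit 41937) (nat_lit 6) (node (nat_lit 8) (nat_lit 42909) (nat_lit 7) nil (node (nat_lit 1)
  (nat_lit 42909) (nat_lit 7) nil nil)) (node (nat_lit 5) (nat_lit 41937) (nat_lit 6) (node
  (nat_lit 1) (nat_lit 37750) (nat_lit 7) nil nil) (node (nat_lit 7) (nat_lit 41937) (nat_lit 6)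
  (node (nat_lit 1) (nat_lit 37750) (nat_lit 7) nil nil) (node (nat_lit 1) (nat_lit 41937)
  (nat_lit 6) (node (nat_lit 4) (nat_lit 42909) (nat_lit 7) (node (nat_lit 5) (nat_lit 43549)
  (nat_lit 8) (node (nat_lit 4) (nat_lit 42335) (nat_lit 9) nil nil) nil) (node (nat_lit 7)
  (nat_lit 40080) (nat_lit 7) nil nil)) (node (nat_lit 0) (nat_lit 41937) (nat_lit 6) nil nil)))))
  nil)))) (node (nat_lit 1) (nat_lit 0) (nat_lit 4) (node (nat_lit 5) (nat_lit 0) (nat_lit 5)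
  (node (nat_lit 7) (nat_lit 24972) (nat_lit 6) (node (nat_lit 4) (nat_lit 34042) (nat_lit 7)
  (node (nat_lit 5) (nat_lit 34553) (nat_lit 8) (node (nat_lit 4) (nat_lit 33409) (nat_lit 9)
  (node (nat_lit 7) (nat_lit 20043) (nat_lit 10) (node (nat_lit 4) (nat_lit 20718) (nat_lit 11)
  (node (nat_lit 5) (nat_lit 22118) (nat_lit 12) (node (nat_lit 7) (nat_lit 22529) (nat_lit 13)
  nil nil) nil) (node (nat_lit 0) (nat_lit 20718) (nat_lit 11) nil (node (nat_lit 2) (nat_lit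
  19475) (nat_lit 11) nil nil))) nil) (node (nat_lit 7) (nat_lit 36860) (nat_lit 9) (node (nat_lit
  5) (nat_lit 37994) (nat_lit 10) (node (nat_lit 4) (nat_lit 38994) (nat_lit 11) (node (nat_lit 7)
  (nat_lit 39518) (nat_lit 12) nil nil) nil) nil) (node (nat_lit 0) (nat_lit 35661) (nat_lit 9)
  nil (node (nat_lit 2) (nat_lit 33761) (nat_lit 9) nil nil)))) (node (nat_lit 7) (nat_lit 36900)
  (nat_lit 8) (node (nat_lit 5) (nat_lit 37792) (nat_lit 9) (node (nat_lit 4) (nat_lit 38617)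
  (nat_lit 10) (node (nat_lit 5) (nat_lit 38048) (nat_lit 11) nil (node (nat_lit 7) (nat_lit
  37663) (nat_lit 11) nil nil)) nil) (node (nat_lit 0) (nat_lit 38008) (nat_lit 9) nil (node
  (nat_lit 2) (nat_lit 36108) (nat_lit 9) nil nil))) (node (nat_lit 0) (nat_lit 40211) (nat_lit 8)
  nil (node (nat_lit 2) (nat_lit 40211) (nat_lit 8) (node (nat_lit 7) (nat_lit 38124) (nat_lit 9)
  (node (nat_lit 4) (nat_lit 37202) (nat_lit 10) nil nil) nil) nil)))) (node (nat_lit 0) (nat_lit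
  39787) (nat_lit 7) (node (nat_lit 4) (nat_lit 41191) (nat_lit 8) nil (node (nat_lit 7) (nat_lit
  41191) (nat_lit 8) nil nil)) (node (nat_lit 2) (nat_lit 39787) (nat_lit 7) (node (nat_lit 5)
  (nat_lit 38888) (nat_lit 8) (node (nat_lit 4) (nat_lit 37769) (nat_lit 9) (node (nat_lit 7)
  (nat_lit 37795) (nat_lit 10) nil nil) nil) nil) nil))) (node (nat_lit 0) (nat_lit 37581)
  (nat_lit 6) (node (nat_lit 7) (nat_lit 39787) (nat_lit 7) (node (nat_lit 4) (nat_lit 41191)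
  (nat_lit 8) (node (nat_lit 5) (nat_lit 41728) (nat_lit 9) nil nil) (node (nat_lit 0) (nat_lit
  41191) (nat_lit 8) nil (node (nat_lit 2) (nat_lit 38888) (nat_lit 8) nil nil))) (node (nat_lit
  4) (nat_lit 39787) (nat_lit 7) (node (nat_lit 0) (nat_lit 41191) (nat_lit 8) nil (node (nat_lit
  2) (nat_lit 38888) (nat_lit 8) nil (node (nat_lit 7) (nat_lit 37665) (nat_lit 8) nil nil)))
  (node (nat_lit 5) (nat_lit 39787) (nat_lit 7) nil (node (nat_lit 0) (nat_lit 39787) (nat_lit 7)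
  nil (node (nat_lit 2) (nat_lit 39787) (nat_lit 7) nil nil))))) (node (nat_lit 4) (nat_lit 24979)
  (nat_lit 6) (node (nat_lit 5) (nat_lit 33447) (nat_lit 7) (node (nat_lit 7) (nat_lit 36630)
  (nat_lit 8) (node (nat_lit 4) (nat_lit 37433) (nat_lit 9) (node (nat_lit 5) (nat_lit 36596)
  (nat_lit 10) (node (nat_lit 4) (nat_lit 37251) (nat_lit 11) (node (nat_lit 7) (nat_lit 37919)
  (nat_lit 12) (node (nat_lit 5) (nat_lit 18393) (nat_lit 13) nil nil) nil) nil) (node (nat_lit 7)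
  (nat_lit 37609) (nat_lit 10) (node (nat_lit 5) (nat_lit 37796) (nat_lit 11) nil nil) nil)) (node
  (nat_lit 5) (nat_lit 36894) (nat_lit 9) (node (nat_lit 4) (nat_lit 37115) (nat_lit 10) (node
  (nat_lit 7) (nat_lit 37302) (nat_lit 11) (node (nat_lit 4) (nat_lit 37458) (nat_lit 12) (node
  (nat_lit 5) (nat_lit 37583) (nat_lit 13) (node (nat_lit 4) (nat_lit 37680) (nat_lit 14) (node
  (nat_lit 7) (nat_lit 37755) (nat_lit 15) (node (nat_lit 5) (nat_lit 37814) (nat_lit 16) (node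
  (nat_lit 4) (nat_lit 37859) (nat_lit 17) (node (nat_lit 5) (nat_lit 37664) (nat_lit 18) (node
  (nat_lit 7) (nat_lit 30301) (nat_lit 19) nil nil) nil) nil) nil) nil) nil) nil) nil) nil) nil)
  (node (nat_lit 0) (nat_lit 37738) (nat_lit 9) nil (node (nat_lit 2) (nat_lit 35838) (nat_lit 9)
  nil nil)))) (node (nat_lit 0) (nat_lit 41191) (nat_lit 8) nil (node (nat_lit 2) (nat_lit 41191)
  (nat_lit 8) (node (nat_lit 4) (nat_lit 40072) (nat_lit 9) nil (node (nat_lit 7) (nat_lit 39104)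
  (nat_lit 9) (node (nat_lit 4) (nat_lit 38182) (nat_lit 10) nil nil) nil)) nil))) (node (nat_lit
  0) (nat_lit 35511) (nat_lit 7) nil (node (nat_lit 2) (nat_lit 38605) (nat_lit 7) (node (nat_lit
  7) (nat_lit 37795) (nat_lit 8) (node (nat_lit 4) (nat_lit 32673) (nat_lit 9) nil nil) nil)
  nil))) (node (nat_lit 2) (nat_lit 37581) (nat_lit 6) (node (nat_lit 7) (nat_lit 39787) (nat_lit
  7) (node (nat_lit 4) (nat_lit 41191) (nat_lit 8) (node (nat_lit 5) (nat_lit 37358) (nat_lit 9)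
  (node (nat_lit 4) (nat_lit 34245) (nat_lit 10) (node (nat_lit 7) (nat_lit 14309) (nat_lit 11)
  nil nil) (node (nat_lit 9) (nat_lit 36363) (nat_lit 10) nil nil)) nil) (node (nat_lit 9)
  (nat_lit 41191) (nat_lit 8) nil (node (nat_lit 5) (nat_lit 38888) (nat_lit 8) nil nil))) (node
  (nat_lit 4) (nat_lit 39787) (nat_lit 7) nil (node (nat_lit 5) (nat_lit 39787) (nat_lit 7) (node
  (nat_lit 7) (nat_lit 37665) (nat_lit 8) nil nil) (node (nat_lit 0) (nat_lit 39787) (nat_lit 7)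
  nil nil)))) nil)))) (node (nat_lit 0) (nat_lit 40432) (nat_lit 5) (node (nat_lit 5) (nat_lit
  41937) (nat_lit 6) (node (nat_lit 7) (nat_lit 42909) (nat_lit 7) nil (node (nat_lit 0) (nat_lit
  42909) (nat_lit 7) nil (node (nat_lit 2) (nat_lit 40080) (nat_lit 7) nil nil))) (node (nat_lit
  7) (nat_lit 41937) (nat_lit 6) (node (nat_lit 4) (nat_lit 42909) (nat_lit 7) (node (nat_lit 5)
  (nat_lit 43549) (nat_lit 8) (node (nat_lit 4) (nat_lit 42335) (nat_lit 9) nil nil) nil) nil)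
  (node (nat_lit 4) (nat_lit 41937) (nat_lit 6) (node (nat_lit 8) (nat_lit 42909) (nat_lit 7) nil
  (node (nat_lit 7) (nat_lit 42909) (nat_lit 7) (node (nat_lit 4) (nat_lit 43549) (nat_lit 8)
  (node (nat_lit 5) (nat_lit 43991) (nat_lit 9) (node (nat_lit 4) (nat_lit 23786) (nat_lit 10)
  (node (nat_lit 7) (nat_lit 15092) (nat_lit 11) nil nil) nil) nil) nil) (node (nat_lit 5)
  (nat_lit 40080) (nat_lit 7) nil nil))) (node (nat_lit 0) (nat_lit 41937) (nat_lit 6) nil (node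
  (nat_lit 2) (nat_lit 41937) (nat_lit 6) (node (nat_lit 4) (nat_lit 40080) (nat_lit 7) nil nil)
  nil))))) (node (nat_lit 2) (nat_lit 40432) (nat_lit 5) (node (nat_lit 5) (nat_lit 41937)
  (nat_lit 6) (node (nat_lit 4) (nat_lit 42909) (nat_lit 7) (node (nat_lit 8) (nat_lit 43549)
  (nat_lit 8) (node (nat_lit 4) (nat_lit 43991) (nat_lit 9) (node (nat_lit 5) (nat_lit 44328)
  (nat_lit 10) (node (nat_lit 8) (nat_lit 44624) (nat_lit 11) nil nil) (node (nat_lit 7) (nat_lit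
  44328) (nat_lit 10) nil nil)) (node (nat_lit 5) (nat_lit 43991) (nat_lit 9) (node (nat_lit 8)
  (nat_lit 44328) (nat_lit 10) (node (nat_lit 4) (nat_lit 44624) (nat_lit 11) (node (nat_lit 8)
  (nat_lit 44020) (nat_lit 12) nil nil) nil) (node (nat_lit 7) (nat_lit 44328) (nat_lit 10) (node
  (nat_lit 4) (nat_lit 44624) (nat_lit 11) nil nil) nil)) (node (nat_lit 7) (nat_lit 43991)
  (nat_lit 9) (node (nat_lit 8) (nat_lit 44328) (nat_lit 10) nil (node (nat_lit 4) (nat_lit 44328)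
  (nat_lit 10) (node (nat_lit 5) (nat_lit 44624) (nat_lit 11) nil nil) (node (nat_lit 5) (nat_lit
  42995) (nat_lit 10) nil nil))) (node (nat_lit 0) (nat_lit 43991) (nat_lit 9) nil nil)))) (node
  (nat_lit 5) (nat_lit 43549) (nat_lit 8) (node (nat_lit 8) (nat_lit 43991) (nat_lit 9) (node
  (nat_lit 4) (nat_lit 44328) (nat_lit 10) (node (nat_lit 8) (nat_lit 44624) (nat_lit 11) (node
  (nat_lit 5) (nat_lit 44893) (nat_lit 12) (node (nat_lit 4) (nat_lit 44433) (nat_lit 13) nil nil)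
  nil) nil) (node (nat_lit 5) (nat_lit 44328) (nat_lit 10) (node (nat_lit 4) (nat_lit 44624)
  (nat_lit 11) nil nil) (node (nat_lit 7) (nat_lit 44328) (nat_lit 10) nil nil))) (node (nat_lit
  7) (nat_lit 43991) (nat_lit 9) (node (nat_lit 4) (nat_lit 44328) (nat_lit 10) nil (node (nat_lit
  5) (nat_lit 44328) (nat_lit 10) nil (node (nat_lit 8) (nat_lit 42995) (nat_lit 10) nil nil)))
  (node (nat_lit 0) (nat_lit 43991) (nat_lit 9) nil nil))) (node (nat_lit 0) (nat_lit 43549)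
  (nat_lit 8) (node (nat_lit 4) (nat_lit 43991) (nat_lit 9) nil (node (nat_lit 8) (nat_lit 42335)
  (nat_lit 9) nil (node (nat_lit 7) (nat_lit 43991) (nat_lit 9) nil (node (nat_lit 5) (nat_lit
  43991) (nat_lit 9) nil (node (nat_lit 0) (nat_lit 43991) (nat_lit 9) nil nil))))) nil))) (node
  (nat_lit 7) (nat_lit 42909) (nat_lit 7) (node (nat_lit 4) (nat_lit 43549) (nat_lit 8) (node
  (nat_lit 5) (nat_lit 43991) (nat_lit 9) nil nil) (node (nat_lit 5) (nat_lit 43549) (nat_lit 8)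
  nil (node (nat_lit 8) (nat_lit 41427) (nat_lit 8) nil nil))) (node (nat_lit 8) (nat_lit 42909)
  (nat_lit 7) (node (nat_lit 7) (nat_lit 43549) (nat_lit 8) (node (nat_lit 5) (nat_lit 42335)
  (nat_lit 9) (node (nat_lit 7) (nat_lit 42360) (nat_lit 10) nil nil) (node (nat_lit 4) (nat_lit
  38232) (nat_lit 9) nil nil)) (node (nat_lit 4) (nat_lit 43549) (nat_lit 8) nil nil)) (node
  (nat_lit 0) (nat_lit 42909) (nat_lit 7) nil nil)))) (node (nat_lit 7) (nat_lit 41937) (nat_lit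
  6) (node (nat_lit 4) (nat_lit 42489) (nat_lit 7) (node (nat_lit 8) (nat_lit 43446) (nat_lit 8)
  (node (nat_lit 4) (nat_lit 43889) (nat_lit 9) (node (nat_lit 7) (nat_lit 42258) (nat_lit 10) nil
  nil) nil) (node (nat_lit 7) (nat_lit 43129) (nat_lit 8) (node (nat_lit 5) (nat_lit 41915)
  (nat_lit 9) nil nil) (node (nat_lit 5) (nat_lit 37292) (nat_lit 8) (node (nat_lit 4) (nat_lit
  30371) (nat_lit 9) nil nil) nil))) (node (nat_lit 5) (nat_lit 40080) (nat_lit 7) nil nil)) (node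
  (nat_lit 4) (nat_lit 41937) (nat_lit 6) (node (nat_lit 8) (nat_lit 42909) (nat_lit 7) (node
  (nat_lit 7) (nat_lit 43549) (nat_lit 8) (node (nat_lit 4) (nat_lit 43991) (nat_lit 9) (node
  (nat_lit 7) (nat_lit 44328) (nat_lit 10) nil (node (nat_lit 5) (nat_lit 36226) (nat_lit 10)
  (node (nat_lit 4) (nat_lit 32257) (nat_lit 11) (node (nat_lit 7) (nat_lit 26143) (nat_lit 12)
  (node (nat_lit 8) (nat_lit 12519) (nat_lit 13) nil nil) nil) nil) nil)) nil) nil) (node (nat_lit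
  7) (nat_lit 42909) (nat_lit 7) (node (nat_lit 4) (nat_lit 43549) (nat_lit 8) (node (nat_lit 5)
  (nat_lit 43470) (nat_lit 9) (node (nat_lit 4) (nat_lit 23786) (nat_lit 10) nil nil) nil) nil)
  (node (nat_lit 5) (nat_lit 42909) (nat_lit 7) (node (nat_lit 8) (nat_lit 43549) (nat_lit 8)
  (node (nat_lit 5) (nat_lit 42335) (nat_lit 9) (node (nat_lit 4) (nat_lit 41338) (nat_lit 10)
  (node (nat_lit 7) (nat_lit 41432) (nat_lit 11) nil nil) nil) nil) (node (nat_lit 7) (nat_lit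
  40023) (nat_lit 8) nil nil)) nil))) (node (nat_lit 0) (nat_lit 41937) (nat_lit 6) (node (nat_lit
  7) (nat_lit 42909) (nat_lit 7) nil nil) nil)))) (node (nat_lit 4) (nat_lit 0) (nat_lit 5) (node
  (nat_lit 5) (nat_lit 24965) (nat_lit 6) (node (nat_lit 7) (nat_lit 27938) (nat_lit 7) (node
  (nat_lit 4) (nat_lit 31634) (nat_lit 8) (node (nat_lit 7) (nat_lit 32742) (nat_lit 9) (node
  (nat_lit 5) (nat_lit 33607) (nat_lit 10) nil nil) nil) (node (nat_lit 5) (nat_lit 29710)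
  (nat_lit 8) (node (nat_lit 4) (nat_lit 32840) (nat_lit 9) nil nil) (node (nat_lit 0) (nat_lit
  34158) (nat_lit 8) nil (node (nat_lit 2) (nat_lit 32156) (nat_lit 8) nil nil)))) (node (nat_lit
  0) (nat_lit 32821) (nat_lit 7) nil (node (nat_lit 2) (nat_lit 30796) (nat_lit 7) (node (nat_lit
  7) (nat_lit 32119) (nat_lit 8) (node (nat_lit 4) (nat_lit 34255) (nat_lit 9) nil nil) (node
  (nat_lit 4) (nat_lit 34252) (nat_lit 8) nil nil)) nil))) (node (nat_lit 0) (nat_lit 35930)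
  (nat_lit 6) (node (nat_lit 4) (nat_lit 38136) (nat_lit 7) nil (node (nat_lit 7) (nat_lit 38136)
  (nat_lit 7) (node (nat_lit 4) (nat_lit 39540) (nat_lit 8) (node (nat_lit 5) (nat_lit 40077)
  (nat_lit 9) (node (nat_lit 4) (nat_lit 39081) (nat_lit 10) (node (nat_lit 7) (nat_lit 39176)
  (nat_lit 11) nil nil) nil) nil) nil) (node (nat_lit 0) (nat_lit 38136) (nat_lit 7) nil (node
  (nat_lit 2) (nat_lit 38136) (nat_lit 7) nil nil)))) (node (nat_lit 2) (nat_lit 35930) (nat_lit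
  6) (node (nat_lit 4) (nat_lit 38136) (nat_lit 7) (node (nat_lit 7) (nat_lit 39540) (nat_lit 8)
  (node (nat_lit 4) (nat_lit 38956) (nat_lit 9) (node (nat_lit 5) (nat_lit 37335) (nat_lit 10) nil
  nil) nil) nil) (node (nat_lit 7) (nat_lit 38136) (nat_lit 7) (node (nat_lit 4) (nat_lit 39540)
  (nat_lit 8) nil nil) (node (nat_lit 0) (nat_lit 38136) (nat_lit 7) nil nil))) nil))) nil))))
  nil))

noncomputable def t9 : Tr :=
  (node (nat_lit 5) (nat_lit 0) (nat_lit 4) (node (nat_lit 4) (nat_lit 0) (nat_lit 5) (node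
  (nat_lit 6) (nat_lit 45159) (nat_lit 6) (node (nat_lit 4) (nat_lit 55235) (nat_lit 7) (node
  (nat_lit 5) (nat_lit 59345) (nat_lit 8) (node (nat_lit 6) (nat_lit 58858) (nat_lit 9) (node
  (nat_lit 5) (nat_lit 47820) (nat_lit 10) (node (nat_lit 4) (nat_lit 13571) (nat_lit 11) (node
  (nat_lit 5) (nat_lit 13832) (nat_lit 12) (node (nat_lit 6) (nat_lit 14566) (nat_lit 13) nil nil)
  nil) nil) nil) nil) nil) (node (nat_lit 5) (nat_lit 55544) (nat_lit 7) (node (nat_lit 6)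
  (nat_lit 60651) (nat_lit 8) nil nil) (node (nat_lit 0) (nat_lit 64460) (nat_lit 7) nil (node
  (nat_lit 2) (nat_lit 64175) (nat_lit 7) nil nil)))) (node (nat_lit 0) (nat_lit 61912) (nat_lit
  6) nil (node (nat_lit 5) (nat_lit 45124) (nat_lit 6) (node (nat_lit 6) (nat_lit 33338) (nat_lit
  7) (node (nat_lit 4) (nat_lit 36782) (nat_lit 8) nil nil) nil) (node (nat_lit 2) (nat_lit 61739)
  (nat_lit 6) (node (nat_lit 6) (nat_lit 64813) (nat_lit 7) (node (nat_lit 4) (nat_lit 64249)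
  (nat_lit 8) (node (nat_lit 5) (nat_lit 57623) (nat_lit 9) (node (nat_lit 6) (nat_lit 49622)
  (nat_lit 10) (node (nat_lit 5) (nat_lit 39118) (nat_lit 11) (node (nat_lit 4) (nat_lit 25688)
  (nat_lit 12) nil nil) nil) nil) nil) nil) nil) nil)))) (node (nat_lit 0) (nat_lit 58358)
  (nat_lit 5) (node (nat_lit 6) (nat_lit 64456) (nat_lit 6) (node (nat_lit 5) (nat_lit 63752)
  (nat_lit 7) nil nil) (node (nat_lit 4) (nat_lit 64378) (nat_lit 6) (node (nat_lit 6) (nat_lit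
  65232) (nat_lit 7) nil nil) (node (nat_lit 5) (nat_lit 63321) (nat_lit 6) nil nil))) (node
  (nat_lit 2) (nat_lit 53532) (nat_lit 5) (node (nat_lit 4) (nat_lit 64614) (nat_lit 6) (node
  (nat_lit 6) (nat_lit 65417) (nat_lit 7) nil (node (nat_lit 8) (nat_lit 65301) (nat_lit 7) (node
  (nat_lit 5) (nat_lit 62229) (nat_lit 8) (node (nat_lit 6) (nat_lit 62618) (nat_lit 9) nil nil)
  nil) nil)) (node (nat_lit 6) (nat_lit 58465) (nat_lit 6) (node (nat_lit 5) (nat_lit 59747)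
  (nat_lit 7) nil (node (nat_lit 8) (nat_lit 59747) (nat_lit 7) (node (nat_lit 5) (nat_lit 59492)
  (nat_lit 8) (node (nat_lit 6) (nat_lit 59570) (nat_lit 9) (node (nat_lit 5) (nat_lit 60214)
  (nat_lit 10) nil nil) nil) nil) (node (nat_lit 4) (nat_lit 63951) (nat_lit 7) (node (nat_lit 5)
  (nat_lit 62434) (nat_lit 8) (node (nat_lit 6) (nat_lit 46338) (nat_lit 9) (node (nat_lit 5)
  (nat_lit 25952) (nat_lit 10) nil nil) nil) nil) nil))) (node (nat_lit 5) (nat_lit 58465)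
  (nat_lit 6) (node (nat_lit 6) (nat_lit 59747) (nat_lit 7) nil (node (nat_lit 4) (nat_lit 59871)
  (nat_lit 7) (node (nat_lit 5) (nat_lit 51185) (nat_lit 8) (node (nat_lit 6) (nat_lit 51185)
  (nat_lit 9) (node (nat_lit 5) (nat_lit 44273) (nat_lit 10) nil nil) nil) nil) nil)) nil)))
  nil))) (node (nat_lit 2) (nat_lit 0) (nat_lit 4) (node (nat_lit 5) (nat_lit 0) (nat_lit 5) (node
  (nat_lit 6) (nat_lit 52848) (nat_lit 6) (node (nat_lit 5) (nat_lit 57036) (nat_lit 7) (node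
  (nat_lit 7) (nat_lit 59770) (nat_lit 8) (node (nat_lit 5) (nat_lit 61507) (nat_lit 9) (node
  (nat_lit 6) (nat_lit 61482) (nat_lit 10) (node (nat_lit 7) (nat_lit 59982) (nat_lit 11) nil nil)
  (node (nat_lit 4) (nat_lit 60008) (nat_lit 10) (node (nat_lit 5) (nat_lit 56343) (nat_lit 11)
  (node (nat_lit 6) (nat_lit 54639) (nat_lit 12) (node (nat_lit 7) (nat_lit 49849) (nat_lit 13)
  (node (nat_lit 5) (nat_lit 43630) (nat_lit 14) nil nil) nil) nil) nil) nil)) (node (nat_lit 6)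
  (nat_lit 61021) (nat_lit 9) nil nil)) (node (nat_lit 4) (nat_lit 60647) (nat_lit 8) nil nil))
  (node (nat_lit 4) (nat_lit 59259) (nat_lit 7) (node (nat_lit 7) (nat_lit 59973) (nat_lit 8)
  (node (nat_lit 5) (nat_lit 56176) (nat_lit 9) nil nil) (node (nat_lit 5) (nat_lit 50855)
  (nat_lit 8) (node (nat_lit 6) (nat_lit 46498) (nat_lit 9) (node (nat_lit 7) (nat_lit 17432)
  (nat_lit 10) nil nil) nil) (node (nat_lit 6) (nat_lit 60428) (nat_lit 8) nil nil))) (node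
  (nat_lit 0) (nat_lit 58415) (nat_lit 7) nil nil))) (node (nat_lit 4) (nat_lit 54656) (nat_lit 6)
  (node (nat_lit 7) (nat_lit 56245) (nat_lit 7) (node (nat_lit 6) (nat_lit 57049) (nat_lit 8)
  (node (nat_lit 4) (nat_lit 57748) (nat_lit 9) (node (nat_lit 5) (nat_lit 57452) (nat_lit 10)
  (node (nat_lit 6) (nat_lit 52101) (nat_lit 11) (node (nat_lit 7) (nat_lit 45057) (nat_lit 12)
  (node (nat_lit 5) (nat_lit 33082) (nat_lit 13) (node (nat_lit 4) (nat_lit 12459) (nat_lit 14)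
  nil nil) nil) nil) (node (nat_lit 4) (nat_lit 56962) (nat_lit 11) nil nil)) (node (nat_lit 6)
  (nat_lit 58043) (nat_lit 10) (node (nat_lit 5) (nat_lit 58304) (nat_lit 11) nil nil) (node
  (nat_lit 7) (nat_lit 56806) (nat_lit 10) nil nil))) (node (nat_lit 5) (nat_lit 56956) (nat_lit
  9) (node (nat_lit 6) (nat_lit 57252) (nat_lit 10) (node (nat_lit 4) (nat_lit 57512) (nat_lit 11)
  nil nil) (node (nat_lit 7) (nat_lit 57269) (nat_lit 10) nil (node (nat_lit 4) (nat_lit 57252)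
  (nat_lit 10) nil nil))) (node (nat_lit 7) (nat_lit 57614) (nat_lit 9) (node (nat_lit 4) (nat_lit
  57909) (nat_lit 10) (node (nat_lit 6) (nat_lit 58170) (nat_lit 11) nil nil) (node (nat_lit 5)
  (nat_lit 56429) (nat_lit 10) nil (node (nat_lit 0) (nat_lit 57909) (nat_lit 10) (node (nat_lit
  6) (nat_lit 58170) (nat_lit 11) nil nil) nil))) (node (nat_lit 0) (nat_lit 57438) (nat_lit 9)
  nil nil)))) (node (nat_lit 4) (nat_lit 57225) (nat_lit 8) (node (nat_lit 5) (nat_lit 57614)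
  (nat_lit 9) (node (nat_lit 7) (nat_lit 58043) (nat_lit 10) (node (nat_lit 5) (nat_lit 58421)
  (nat_lit 11) (node (nat_lit 4) (nat_lit 56597) (nat_lit 12) (node (nat_lit 5) (nat_lit 55812)
  (nat_lit 13) nil nil) nil) (node (nat_lit 4) (nat_lit 58304) (nat_lit 11) nil nil)) (node
  (nat_lit 4) (nat_lit 57909) (nat_lit 10) (node (nat_lit 6) (nat_lit 58170) (nat_lit 11) nil nil)
  (node (nat_lit 6) (nat_lit 57909) (nat_lit 10) nil nil))) (node (nat_lit 6) (nat_lit 57614)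
  (nat_lit 9) (node (nat_lit 5) (nat_lit 57514) (nat_lit 10) (node (nat_lit 4) (nat_lit 57774)
  (nat_lit 11) (node (nat_lit 5) (nat_lit 58010) (nat_lit 12) (node (nat_lit 6) (nat_lit 58202)
  (nat_lit 13) nil nil) nil) (node (nat_lit 6) (nat_lit 57774) (nat_lit 11) nil nil)) (node
  (nat_lit 7) (nat_lit 58043) (nat_lit 10) (node (nat_lit 5) (nat_lit 58421) (nat_lit 11) (node
  (nat_lit 4) (nat_lit 56597) (nat_lit 12) nil nil) (node (nat_lit 6) (nat_lit 58304) (nat_lit 11)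
  nil nil)) (node (nat_lit 4) (nat_lit 57909) (nat_lit 10) nil nil))) (node (nat_lit 0) (nat_lit
  57614) (nat_lit 9) nil nil))) (node (nat_lit 5) (nat_lit 57049) (nat_lit 8) (node (nat_lit 7)
  (nat_lit 57438) (nat_lit 9) (node (nat_lit 4) (nat_lit 57733) (nat_lit 10) nil (node (nat_lit 6)
  (nat_lit 57733) (nat_lit 10) nil nil)) (node (nat_lit 6) (nat_lit 57438) (nat_lit 9) (node
  (nat_lit 7) (nat_lit 56496) (nat_lit 10) nil (node (nat_lit 4) (nat_lit 57733) (nat_lit 10) nil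
  (node (nat_lit 5) (nat_lit 57733) (nat_lit 10) nil nil))) nil)) (node (nat_lit 0) (nat_lit
  57225) (nat_lit 8) (node (nat_lit 7) (nat_lit 57614) (nat_lit 9) nil (node (nat_lit 5) (nat_lit
  57614) (nat_lit 9) nil (node (nat_lit 6) (nat_lit 57614) (nat_lit 9) nil nil))) nil)))) (node
  (nat_lit 5) (nat_lit 42803) (nat_lit 7) (node (nat_lit 7) (nat_lit 43466) (nat_lit 8) (node
  (nat_lit 4) (nat_lit 43925) (nat_lit 9) (node (nat_lit 7) (nat_lit 44273) (nat_lit 10) (node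
  (nat_lit 5) (nat_lit 43523) (nat_lit 11) nil nil) (node (nat_lit 6) (nat_lit 44273) (nat_lit 10)
  nil nil)) (node (nat_lit 5) (nat_lit 43925) (nat_lit 9) (node (nat_lit 4) (nat_lit 44273)
  (nat_lit 10) nil (node (nat_lit 6) (nat_lit 44273) (nat_lit 10) nil nil)) (node (nat_lit 6)
  (nat_lit 43925) (nat_lit 9) nil nil))) (node (nat_lit 6) (nat_lit 43466) (nat_lit 8) (node
  (nat_lit 7) (nat_lit 42317) (nat_lit 9) nil nil) (node (nat_lit 0) (nat_lit 43466) (nat_lit 8)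
  nil nil))) (node (nat_lit 6) (nat_lit 56245) (nat_lit 7) (node (nat_lit 5) (nat_lit 57049)
  (nat_lit 8) (node (nat_lit 6) (nat_lit 57614) (nat_lit 9) (node (nat_lit 7) (nat_lit 57269)
  (nat_lit 10) nil (node (nat_lit 4) (nat_lit 57432) (nat_lit 10) (node (nat_lit 5) (nat_lit
  52240) (nat_lit 11) nil nil) nil)) (node (nat_lit 7) (nat_lit 57614) (nat_lit 9) (node (nat_lit
  5) (nat_lit 56429) (nat_lit 10) (node (nat_lit 6) (nat_lit 56690) (nat_lit 11) nil nil) (node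
  (nat_lit 6) (nat_lit 57909) (nat_lit 10) nil nil)) (node (nat_lit 4) (nat_lit 57438) (nat_lit 9)
  (node (nat_lit 5) (nat_lit 57733) (nat_lit 10) (node (nat_lit 6) (nat_lit 57994) (nat_lit 11)
  (node (nat_lit 7) (nat_lit 57420) (nat_lit 12) nil nil) nil) nil) nil))) (node (nat_lit 4)
  (nat_lit 56807) (nat_lit 8) (node (nat_lit 5) (nat_lit 56415) (nat_lit 9) (node (nat_lit 6)
  (nat_lit 53591) (nat_lit 10) (node (nat_lit 7) (nat_lit 44576) (nat_lit 11) (node (nat_lit 5)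
  (nat_lit 28457) (nat_lit 12) nil nil) nil) nil) (node (nat_lit 7) (nat_lit 54900) (nat_lit 9)
  (node (nat_lit 6) (nat_lit 54875) (nat_lit 10) nil (node (nat_lit 5) (nat_lit 53508) (nat_lit
  10) (node (nat_lit 4) (nat_lit 52547) (nat_lit 11) (node (nat_lit 5) (nat_lit 51730) (nat_lit
  12) nil nil) nil) nil)) nil)) (node (nat_lit 7) (nat_lit 57049) (nat_lit 8) (node (nat_lit 4)
  (nat_lit 57438) (nat_lit 9) nil (node (nat_lit 6) (nat_lit 56415) (nat_lit 9) nil nil)) nil)))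
  (node (nat_lit 0) (nat_lit 56487) (nat_lit 7) (node (nat_lit 6) (nat_lit 57049) (nat_lit 8) nil
  (node (nat_lit 5) (nat_lit 57049) (nat_lit 8) nil nil)) nil)))) (node (nat_lit 7) (nat_lit
  53047) (nat_lit 6) (node (nat_lit 6) (nat_lit 57467) (nat_lit 7) (node (nat_lit 5) (nat_lit
  60270) (nat_lit 8) (node (nat_lit 7) (nat_lit 62226) (nat_lit 9) (node (nat_lit 5) (nat_lit
  62536) (nat_lit 10) (node (nat_lit 6) (nat_lit 62796) (nat_lit 11) nil (node (nat_lit 4)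
  (nat_lit 61110) (nat_lit 11) nil nil)) nil) (node (nat_lit 6) (nat_lit 62295) (nat_lit 9) (node
  (nat_lit 7) (nat_lit 61736) (nat_lit 10) (node (nat_lit 6) (nat_lit 61972) (nat_lit 11) (node
  (nat_lit 5) (nat_lit 61639) (nat_lit 12) nil nil) nil) (node (nat_lit 4) (nat_lit 60566)
  (nat_lit 10) (node (nat_lit 5) (nat_lit 59590) (nat_lit 11) nil nil) nil)) (node (nat_lit 4)
  (nat_lit 62534) (nat_lit 9) (node (nat_lit 5) (nat_lit 63178) (nat_lit 10) (node (nat_lit 6)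
  (nat_lit 63745) (nat_lit 11) (node (nat_lit 7) (nat_lit 62603) (nat_lit 12) (node (nat_lit 5)
  (nat_lit 62004) (nat_lit 13) nil nil) nil) nil) nil) (node (nat_lit 0) (nat_lit 60716) (nat_lit
  9) nil nil)))) (node (nat_lit 7) (nat_lit 60203) (nat_lit 8) (node (nat_lit 5) (nat_lit 61145)
  (nat_lit 9) (node (nat_lit 6) (nat_lit 61802) (nat_lit 10) nil (node (nat_lit 4) (nat_lit 59689)
  (nat_lit 10) (node (nat_lit 5) (nat_lit 56374) (nat_lit 11) (node (nat_lit 6) (nat_lit 50738)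
  (nat_lit 12) (node (nat_lit 7) (nat_lit 43683) (nat_lit 13) (node (nat_lit 5) (nat_lit 42266)
  (nat_lit 14) nil nil) nil) nil) nil) nil)) (node (nat_lit 4) (nat_lit 60637) (nat_lit 9) nil
  nil)) (node (nat_lit 4) (nat_lit 62166) (nat_lit 8) (node (nat_lit 5) (nat_lit 62927) (nat_lit
  9) (node (nat_lit 6) (nat_lit 57565) (nat_lit 10) (node (nat_lit 7) (nat_lit 40876) (nat_lit 11)
  nil nil) nil) (node (nat_lit 7) (nat_lit 61992) (nat_lit 9) nil nil)) (node (nat_lit 0) (nat_lit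
  61548) (nat_lit 8) nil nil)))) (node (nat_lit 4) (nat_lit 61885) (nat_lit 7) (node (nat_lit 5)
  (nat_lit 63499) (nat_lit 8) (node (nat_lit 4) (nat_lit 64197) (nat_lit 9) (node (nat_lit 7)
  (nat_lit 63519) (nat_lit 10) nil (node (nat_lit 6) (nat_lit 64493) (nat_lit 10) nil nil)) (node
  (nat_lit 7) (nat_lit 62247) (nat_lit 9) nil nil)) (node (nat_lit 6) (nat_lit 62727) (nat_lit 8)
  (node (nat_lit 7) (nat_lit 63873) (nat_lit 9) (node (nat_lit 6) (nat_lit 63847) (nat_lit 10)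
  (node (nat_lit 4) (nat_lit 63945) (nat_lit 11) nil (node (nat_lit 5) (nat_lit 63358) (nat_lit
  11) nil nil)) (node (nat_lit 5) (nat_lit 62014) (nat_lit 10) nil (node (nat_lit 4) (nat_lit
  64291) (nat_lit 10) nil nil))) (node (nat_lit 4) (nat_lit 59539) (nat_lit 9) nil (node (nat_lit
  5) (nat_lit 63129) (nat_lit 9) (node (nat_lit 6) (nat_lit 61496) (nat_lit 10) nil nil) nil)))
  (node (nat_lit 7) (nat_lit 62141) (nat_lit 8) (node (nat_lit 5) (nat_lit 60312) (nat_lit 9)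
  (node (nat_lit 6) (nat_lit 60287) (nat_lit 10) nil nil) nil) (node (nat_lit 0) (nat_lit 63110)
  (nat_lit 8) nil nil)))) (node (nat_lit 0) (nat_lit 61154) (nat_lit 7) (node (nat_lit 5) (nat_lit
  62426) (nat_lit 8) nil (node (nat_lit 7) (nat_lit 60458) (nat_lit 8) (node (nat_lit 5) (nat_lit
  57725) (nat_lit 9) (node (nat_lit 6) (nat_lit 57700) (nat_lit 10) nil nil) nil) (node (nat_lit
  6) (nat_lit 62379) (nat_lit 8) nil nil))) nil))) (node (nat_lit 0) (nat_lit 57832) (nat_lit 6)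
  (node (nat_lit 5) (nat_lit 61672) (nat_lit 7) (node (nat_lit 6) (nat_lit 58818) (nat_lit 8) nil
  (node (nat_lit 7) (nat_lit 58870) (nat_lit 8) nil (node (nat_lit 4) (nat_lit 60838) (nat_lit 8)
  nil nil))) (node (nat_lit 7) (nat_lit 61300) (nat_lit 7) (node (nat_lit 5) (nat_lit 61596)
  (nat_lit 8) nil (node (nat_lit 6) (nat_lit 62353) (nat_lit 8) (node (nat_lit 5) (nat_lit 61593)
  (nat_lit 9) nil nil) (node (nat_lit 9) (nat_lit 62526) (nat_lit 8) nil nil))) (node (nat_lit 6)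
  (nat_lit 61998) (nat_lit 7) (node (nat_lit 5) (nat_lit 61163) (nat_lit 8) nil (node (nat_lit 4)
  (nat_lit 62915) (nat_lit 8) nil nil)) (node (nat_lit 4) (nat_lit 61126) (nat_lit 7) nil (node
  (nat_lit 0) (nat_lit 61300) (nat_lit 7) (node (nat_lit 6) (nat_lit 62526) (nat_lit 8) nil nil)
  nil))))) nil)))) (node (nat_lit 4) (nat_lit 0) (nat_lit 5) (node (nat_lit 6) (nat_lit 58718)
  (nat_lit 6) (node (nat_lit 4) (nat_lit 58306) (nat_lit 7) (node (nat_lit 7) (nat_lit 60199)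
  (nat_lit 8) (node (nat_lit 6) (nat_lit 59474) (nat_lit 9) nil (node (nat_lit 4) (nat_lit 61769)
  (nat_lit 9) (node (nat_lit 5) (nat_lit 62413) (nat_lit 10) nil nil) nil)) (node (nat_lit 5)
  (nat_lit 54015) (nat_lit 8) (node (nat_lit 6) (nat_lit 54416) (nat_lit 9) (node (nat_lit 7)
  (nat_lit 38936) (nat_lit 10) (node (nat_lit 4) (nat_lit 10145) (nat_lit 11) nil nil) (node
  (nat_lit 5) (nat_lit 55059) (nat_lit 10) nil nil)) (node (nat_lit 7) (nat_lit 54712) (nat_lit 9)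
  (node (nat_lit 5) (nat_lit 55741) (nat_lit 10) nil (node (nat_lit 6) (nat_lit 53079) (nat_lit
  10) (node (nat_lit 5) (nat_lit 52589) (nat_lit 11) nil nil) nil)) nil)) nil)) (node (nat_lit 5)
  (nat_lit 63480) (nat_lit 7) (node (nat_lit 4) (nat_lit 65346) (nat_lit 8) (node (nat_lit 5)
  (nat_lit 66194) (nat_lit 9) (node (nat_lit 6) (nat_lit 66837) (nat_lit 10) (node (nat_lit 7)
  (nat_lit 65338) (nat_lit 11) nil nil) nil) (node (nat_lit 7) (nat_lit 63050) (nat_lit 9) nil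
  nil)) (node (nat_lit 7) (nat_lit 63378) (nat_lit 8) (node (nat_lit 5) (nat_lit 59775) (nat_lit
  9) (node (nat_lit 4) (nat_lit 58080) (nat_lit 10) nil nil) (node (nat_lit 6) (nat_lit 61382)
  (nat_lit 9) (node (nat_lit 4) (nat_lit 60984) (nat_lit 10) nil nil) nil)) (node (nat_lit 6)
  (nat_lit 64833) (nat_lit 8) (node (nat_lit 4) (nat_lit 64910) (nat_lit 9) (node (nat_lit 5)
  (nat_lit 64467) (nat_lit 10) (node (nat_lit 6) (nat_lit 54633) (nat_lit 11) nil nil) (node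
  (nat_lit 6) (nat_lit 65554) (nat_lit 10) nil nil)) (node (nat_lit 0) (nat_lit 66315) (nat_lit 9)
  (node (nat_lit 5) (nat_lit 65663) (nat_lit 10) nil (node (nat_lit 6) (nat_lit 66959) (nat_lit
  10) nil nil)) nil)) (node (nat_lit 0) (nat_lit 64705) (nat_lit 8) (node (nat_lit 6) (nat_lit
  65553) (nat_lit 9) nil nil) nil)))) (node (nat_lit 0) (nat_lit 62163) (nat_lit 7) (node (nat_lit
  6) (nat_lit 63389) (nat_lit 8) nil nil) (node (nat_lit 7) (nat_lit 62227) (nat_lit 7) (node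
  (nat_lit 6) (nat_lit 62643) (nat_lit 8) nil nil) nil)))) (node (nat_lit 7) (nat_lit 61768)
  (nat_lit 6) (node (nat_lit 6) (nat_lit 64541) (nat_lit 7) (node (nat_lit 4) (nat_lit 65140)
  (nat_lit 8) (node (nat_lit 5) (nat_lit 60643) (nat_lit 9) (node (nat_lit 6) (nat_lit 56430)
  (nat_lit 10) (node (nat_lit 7) (nat_lit 41766) (nat_lit 11) (node (nat_lit 4) (nat_lit 20263)
  (nat_lit 12) nil nil) nil) nil) nil) (node (nat_lit 7) (nat_lit 63682) (nat_lit 8) (node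
  (nat_lit 5) (nat_lit 63175) (nat_lit 9) (node (nat_lit 6) (nat_lit 63399) (nat_lit 10) nil nil)
  nil) (node (nat_lit 5) (nat_lit 63707) (nat_lit 8) nil nil))) (node (nat_lit 5) (nat_lit 63016)
  (nat_lit 7) (node (nat_lit 6) (nat_lit 60969) (nat_lit 8) nil (node (nat_lit 4) (nat_lit 61451)
  (nat_lit 8) (node (nat_lit 5) (nat_lit 59216) (nat_lit 9) (node (nat_lit 6) (nat_lit 51185)
  (nat_lit 10) (node (nat_lit 7) (nat_lit 45537) (nat_lit 11) (node (nat_lit 4) (nat_lit 40894)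
  (nat_lit 12) nil nil) nil) nil) nil) nil)) (node (nat_lit 0) (nat_lit 63630) (nat_lit 7) nil
  nil))) (node (nat_lit 5) (nat_lit 61287) (nat_lit 6) (node (nat_lit 7) (nat_lit 59966) (nat_lit
  7) (node (nat_lit 5) (nat_lit 57676) (nat_lit 8) (node (nat_lit 4) (nat_lit 55235) (nat_lit 9)
  nil nil) nil) (node (nat_lit 4) (nat_lit 62590) (nat_lit 7) nil nil)) (node (nat_lit 0) (nat_lit
  61689) (nat_lit 6) nil nil)))) (node (nat_lit 6) (nat_lit 0) (nat_lit 5) (node (nat_lit 5)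
  (nat_lit 52329) (nat_lit 6) (node (nat_lit 7) (nat_lit 56347) (nat_lit 7) (node (nat_lit 5)
  (nat_lit 58821) (nat_lit 8) (node (nat_lit 6) (nat_lit 60553) (nat_lit 9) (node (nat_lit 7)
  (nat_lit 58664) (nat_lit 10) nil nil) nil) nil) (node (nat_lit 6) (nat_lit 55686) (nat_lit 7)
  (node (nat_lit 4) (nat_lit 58296) (nat_lit 8) nil nil) (node (nat_lit 4) (nat_lit 60275)
  (nat_lit 7) (node (nat_lit 5) (nat_lit 61501) (nat_lit 8) (node (nat_lit 6) (nat_lit 62349)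
  (nat_lit 9) nil nil) nil) nil))) (node (nat_lit 4) (nat_lit 56739) (nat_lit 6) (node (nat_lit 5)
  (nat_lit 55343) (nat_lit 7) (node (nat_lit 6) (nat_lit 25545) (nat_lit 8) (node (nat_lit 5)
  (nat_lit 26144) (nat_lit 9) nil nil) (node (nat_lit 7) (nat_lit 52540) (nat_lit 8) (node
  (nat_lit 5) (nat_lit 50711) (nat_lit 9) (node (nat_lit 6) (nat_lit 50686) (nat_lit 10) nil nil)
  nil) nil)) (node (nat_lit 7) (nat_lit 59979) (nat_lit 7) (node (nat_lit 4) (nat_lit 62171)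
  (nat_lit 8) (node (nat_lit 6) (nat_lit 61745) (nat_lit 9) (node (nat_lit 4) (nat_lit 58904)
  (nat_lit 10) nil nil) nil) nil) (node (nat_lit 6) (nat_lit 58600) (nat_lit 7) nil nil))) (node
  (nat_lit 0) (nat_lit 57695) (nat_lit 6) nil nil))) (node (nat_lit 0) (nat_lit 57325) (nat_lit 5)
  (node (nat_lit 6) (nat_lit 62194) (nat_lit 6) (node (nat_lit 4) (nat_lit 63838) (nat_lit 7) nil
  nil) (node (nat_lit 5) (nat_lit 62015) (nat_lit 6) (node (nat_lit 4) (nat_lit 61129) (nat_lit 7)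
  (node (nat_lit 5) (nat_lit 62354) (nat_lit 8) nil nil) nil) (node (nat_lit 7) (nat_lit 62437)
  (nat_lit 6) nil (node (nat_lit 0) (nat_lit 60095) (nat_lit 6) nil nil)))) nil)))) nil))

noncomputable def t10 : Tr :=
  (node (nat_lit 4) (nat_lit 0) (nat_lit 4) (node (nat_lit 6) (nat_lit 0) (nat_lit 5) (node
  (nat_lit 5) (nat_lit 25855) (nat_lit 6) (node (nat_lit 4) (nat_lit 34303) (nat_lit 7) (node
  (nat_lit 5) (nat_lit 40351) (nat_lit 8) (node (nat_lit 6) (nat_lit 43369) (nat_lit 9) (node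
  (nat_lit 4) (nat_lit 44869) (nat_lit 10) (node (nat_lit 6) (nat_lit 22509) (nat_lit 11) nil nil)
  (node (nat_lit 5) (nat_lit 45349) (nat_lit 10) (node (nat_lit 4) (nat_lit 46518) (nat_lit 11)
  (node (nat_lit 6) (nat_lit 47431) (nat_lit 12) (node (nat_lit 4) (nat_lit 46243) (nat_lit 13)
  (node (nat_lit 5) (nat_lit 46731) (nat_lit 14) (node (nat_lit 6) (nat_lit 46264) (nat_lit 15)
  (node (nat_lit 4) (nat_lit 45450) (nat_lit 16) (node (nat_lit 6) (nat_lit 44577) (nat_lit 17)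
  (node (nat_lit 5) (nat_lit 42065) (nat_lit 18) (node (nat_lit 4) (nat_lit 38144) (nat_lit 19)
  (node (nat_lit 5) (nat_lit 30860) (nat_lit 20) (node (nat_lit 6) (nat_lit 25406) (nat_lit 21)
  nil nil) nil) nil) nil) nil) nil) nil) nil) nil) nil) nil) nil)) nil) (node (nat_lit 6) (nat_lit
  39490) (nat_lit 8) (node (nat_lit 4) (nat_lit 41963) (nat_lit 9) (node (nat_lit 5) (nat_lit
  44102) (nat_lit 10) (node (nat_lit 6) (nat_lit 45271) (nat_lit 11) (node (nat_lit 4) (nat_lit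
  46183) (nat_lit 12) (node (nat_lit 6) (nat_lit 39539) (nat_lit 13) (node (nat_lit 5) (nat_lit
  27550) (nat_lit 14) nil nil) nil) nil) nil) nil) nil) (node (nat_lit 0) (nat_lit 46401) (nat_lit
  8) nil (node (nat_lit 2) (nat_lit 45662) (nat_lit 8) nil nil)))) (node (nat_lit 6) (nat_lit
  34286) (nat_lit 7) (node (nat_lit 4) (nat_lit 39296) (nat_lit 8) (node (nat_lit 5) (nat_lit
  43793) (nat_lit 9) nil nil) (node (nat_lit 0) (nat_lit 46595) (nat_lit 8) nil (node (nat_lit 2)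
  (nat_lit 45827) (nat_lit 8) nil nil))) (node (nat_lit 0) (nat_lit 43670) (nat_lit 7) nil (node
  (nat_lit 2) (nat_lit 43285) (nat_lit 7) (node (nat_lit 4) (nat_lit 45899) (nat_lit 8) nil nil)
  nil)))) (node (nat_lit 0) (nat_lit 38607) (nat_lit 6) (node (nat_lit 4) (nat_lit 42374) (nat_lit
  7) (node (nat_lit 6) (nat_lit 44991) (nat_lit 8) nil nil) (node (nat_lit 6) (nat_lit 42440)
  (nat_lit 7) (node (nat_lit 4) (nat_lit 45057) (nat_lit 8) nil nil) (node (nat_lit 5) (nat_lit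
  42233) (nat_lit 7) (node (nat_lit 6) (nat_lit 44090) (nat_lit 8) nil nil) nil))) (node (nat_lit
  2) (nat_lit 28636) (nat_lit 6) (node (nat_lit 4) (nat_lit 32381) (nat_lit 7) (node (nat_lit 9)
  (nat_lit 34998) (nat_lit 8) (node (nat_lit 6) (nat_lit 35957) (nat_lit 9) (node (nat_lit 9)
  (nat_lit 38444) (nat_lit 10) nil (node (nat_lit 4) (nat_lit 38069) (nat_lit 10) nil nil)) (node
  (nat_lit 5) (nat_lit 42897) (nat_lit 9) nil nil)) (node (nat_lit 5) (nat_lit 43395) (nat_lit 8)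
  nil (node (nat_lit 6) (nat_lit 34998) (nat_lit 8) nil (node (nat_lit 0) (nat_lit 43257) (nat_lit
  8) nil nil)))) (node (nat_lit 6) (nat_lit 32381) (nat_lit 7) (node (nat_lit 4) (nat_lit 34998)
  (nat_lit 8) (node (nat_lit 9) (nat_lit 35957) (nat_lit 9) nil (node (nat_lit 5) (nat_lit 38101)
  (nat_lit 9) nil nil)) (node (nat_lit 5) (nat_lit 42808) (nat_lit 8) nil nil)) (node (nat_lit 5)
  (nat_lit 42134) (nat_lit 7) (node (nat_lit 6) (nat_lit 44848) (nat_lit 8) (node (nat_lit 4)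
  (nat_lit 45808) (nat_lit 9) nil nil) (node (nat_lit 4) (nat_lit 40565) (nat_lit 8) (node
  (nat_lit 5) (nat_lit 35537) (nat_lit 9) (node (nat_lit 6) (nat_lit 31800) (nat_lit 10) (node
  (nat_lit 4) (nat_lit 22643) (nat_lit 11) (node (nat_lit 6) (nat_lit 22921) (nat_lit 12) nil nil)
  nil) nil) nil) nil)) (node (nat_lit 0) (nat_lit 41575) (nat_lit 7) nil nil)))) nil))) (node
  (nat_lit 0) (nat_lit 0) (nat_lit 5) (node (nat_lit 5) (nat_lit 41735) (nat_lit 6) (node (nat_lit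
  4) (nat_lit 42561) (nat_lit 7) (node (nat_lit 5) (nat_lit 43787) (nat_lit 8) (node (nat_lit 6)
  (nat_lit 44634) (nat_lit 9) (node (nat_lit 4) (nat_lit 45278) (nat_lit 10) nil nil) nil) nil)
  nil) (node (nat_lit 4) (nat_lit 41005) (nat_lit 6) (node (nat_lit 6) (nat_lit 42046) (nat_lit 7)
  (node (nat_lit 4) (nat_lit 43271) (nat_lit 8) nil nil) (node (nat_lit 5) (nat_lit 43974)
  (nat_lit 7) nil nil)) (node (nat_lit 6) (nat_lit 41196) (nat_lit 6) (node (nat_lit 5) (nat_lit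
  44179) (nat_lit 7) nil (node (nat_lit 4) (nat_lit 42474) (nat_lit 7) (node (nat_lit 5) (nat_lit
  43700) (nat_lit 8) (node (nat_lit 6) (nat_lit 44547) (nat_lit 9) nil nil) nil) nil)) (node
  (nat_lit 0) (nat_lit 41821) (nat_lit 6) nil (node (nat_lit 2) (nat_lit 41279) (nat_lit 6) nil
  nil))))) (node (nat_lit 5) (nat_lit 0) (nat_lit 5) (node (nat_lit 4) (nat_lit 0) (nat_lit 6)
  (node (nat_lit 6) (nat_lit 0) (nat_lit 7) (node (nat_lit 5) (nat_lit 11938) (nat_lit 8) (node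
  (nat_lit 6) (nat_lit 13458) (nat_lit 9) (node (nat_lit 4) (nat_lit 13542) (nat_lit 10) (node
  (nat_lit 6) (nat_lit 14358) (nat_lit 11) (node (nat_lit 5) (nat_lit 14314) (nat_lit 12) (node
  (nat_lit 4) (nat_lit 14358) (nat_lit 13) nil nil) nil) (node (nat_lit 5) (nat_lit 13852)
  (nat_lit 11) nil nil)) nil) (node (nat_lit 4) (nat_lit 12469) (nat_lit 9) (node (nat_lit 5)
  (nat_lit 12864) (nat_lit 10) nil (node (nat_lit 0) (nat_lit 14008) (nat_lit 10) nil (node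
  (nat_lit 2) (nat_lit 12979) (nat_lit 10) nil nil))) (node (nat_lit 0) (nat_lit 13540) (nat_lit
  9) nil (node (nat_lit 2) (nat_lit 12618) (nat_lit 9) nil nil)))) (node (nat_lit 4) (nat_lit
  12021) (nat_lit 8) (node (nat_lit 5) (nat_lit 12625) (nat_lit 9) (node (nat_lit 6) (nat_lit
  14012) (nat_lit 10) nil nil) (node (nat_lit 0) (nat_lit 13540) (nat_lit 9) nil (node (nat_lit 2)
  (nat_lit 12686) (nat_lit 9) nil nil))) (node (nat_lit 0) (nat_lit 13325) (nat_lit 8) (node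
  (nat_lit 5) (nat_lit 13526) (nat_lit 9) nil nil) (node (nat_lit 2) (nat_lit 12812) (nat_lit 8)
  (node (nat_lit 5) (nat_lit 13223) (nat_lit 9) nil nil) nil)))) (node (nat_lit 0) (nat_lit 12399)
  (nat_lit 7) (node (nat_lit 5) (nat_lit 12631) (nat_lit 8) (node (nat_lit 4) (nat_lit 13019)
  (nat_lit 9) nil nil) (node (nat_lit 6) (nat_lit 13249) (nat_lit 8) (node (nat_lit 4) (nat_lit
  13407) (nat_lit 9) nil (node (nat_lit 5) (nat_lit 13297) (nat_lit 9) nil nil)) (node (nat_lit 4)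
  (nat_lit 12657) (nat_lit 8) (node (nat_lit 6) (nat_lit 13767) (nat_lit 9) nil nil) (node
  (nat_lit 0) (nat_lit 13221) (nat_lit 8) nil (node (nat_lit 2) (nat_lit 12699) (nat_lit 8) (node
  (nat_lit 5) (nat_lit 12767) (nat_lit 9) nil nil) nil))))) (node (nat_lit 2) (nat_lit 0) (nat_lit
  7) (node (nat_lit 5) (nat_lit 9763) (nat_lit 8) (node (nat_lit 6) (nat_lit 12173) (nat_lit 9)
  (node (nat_lit 4) (nat_lit 12173) (nat_lit 10) nil (node (nat_lit 5) (nat_lit 12173) (nat_lit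
  10) (node (nat_lit 4) (nat_lit 12173) (nat_lit 11) nil nil) (node (nat_lit 10) (nat_lit 12173)
  (nat_lit 10) nil nil))) (node (nat_lit 10) (nat_lit 9763) (nat_lit 9) (node (nat_lit 4) (nat_lit
  9763) (nat_lit 10) (node (nat_lit 10) (nat_lit 11323) (nat_lit 11) (node (nat_lit 5) (nat_lit
  12212) (nat_lit 12) nil nil) nil) nil) (node (nat_lit 4) (nat_lit 9261) (nat_lit 9) (node
  (nat_lit 5) (nat_lit 9763) (nat_lit 10) nil nil) (node (nat_lit 0) (nat_lit 12170) (nat_lit 9)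
  nil nil)))) (node (nat_lit 6) (nat_lit 12892) (nat_lit 8) (node (nat_lit 4) (nat_lit 13095)
  (nat_lit 9) (node (nat_lit 6) (nat_lit 13542) (nat_lit 10) (node (nat_lit 5) (nat_lit 13542)
  (nat_lit 11) nil nil) (node (nat_lit 10) (nat_lit 13095) (nat_lit 10) (node (nat_lit 5) (nat_lit
  13095) (nat_lit 11) nil nil) nil)) (node (nat_lit 5) (nat_lit 13117) (nat_lit 9) (node (nat_lit
  10) (nat_lit 13117) (nat_lit 10) nil nil) (node (nat_lit 10) (nat_lit 13150) (nat_lit 9) (node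
  (nat_lit 5) (nat_lit 13246) (nat_lit 10) nil nil) nil))) (node (nat_lit 4) (nat_lit 9763)
  (nat_lit 8) (node (nat_lit 5) (nat_lit 9763) (nat_lit 9) nil (node (nat_lit 6) (nat_lit 13403)
  (nat_lit 9) nil nil)) (node (nat_lit 0) (nat_lit 12843) (nat_lit 8) (node (nat_lit 5) (nat_lit
  12750) (nat_lit 9) nil nil) nil)))) nil))) (node (nat_lit 0) (nat_lit 11334) (nat_lit 6) (node
  (nat_lit 4) (nat_lit 11628) (nat_lit 7) (node (nat_lit 6) (nat_lit 13175) (nat_lit 8) (node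
  (nat_lit 5) (nat_lit 13175) (nat_lit 9) nil nil) (node (nat_lit 5) (nat_lit 12102) (nat_lit 8)
  nil (node (nat_lit 9) (nat_lit 13175) (nat_lit 8) (node (nat_lit 5) (nat_lit 13175) (nat_lit 9)
  nil nil) nil))) (node (nat_lit 5) (nat_lit 11465) (nat_lit 7) (node (nat_lit 4) (nat_lit 11967)
  (nat_lit 8) nil (node (nat_lit 6) (nat_lit 13156) (nat_lit 8) nil nil)) (node (nat_lit 6)
  (nat_lit 12390) (nat_lit 7) (node (nat_lit 5) (nat_lit 12622) (nat_lit 8) (node (nat_lit 4)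
  (nat_lit 12622) (nat_lit 9) (node (nat_lit 5) (nat_lit 12622) (nat_lit 10) nil nil) nil) (node
  (nat_lit 9) (nat_lit 13148) (nat_lit 8) (node (nat_lit 5) (nat_lit 13148) (nat_lit 9) nil nil)
  (node (nat_lit 4) (nat_lit 12620) (nat_lit 8) nil nil))) (node (nat_lit 0) (nat_lit 12250)
  (nat_lit 7) (node (nat_lit 5) (nat_lit 12071) (nat_lit 8) nil nil) (node (nat_lit 2) (nat_lit
  11642) (nat_lit 7) (node (nat_lit 5) (nat_lit 11906) (nat_lit 8) nil (node (nat_lit 4) (nat_lit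
  11314) (nat_lit 8) nil (node (nat_lit 6) (nat_lit 13103) (nat_lit 8) nil nil))) nil))))) (node
  (nat_lit 2) (nat_lit 0) (nat_lit 6) (node (nat_lit 4) (nat_lit 9697) (nat_lit 7) (node (nat_lit
  6) (nat_lit 13310) (nat_lit 8) (node (nat_lit 4) (nat_lit 13310) (nat_lit 9) (node (nat_lit 5)
  (nat_lit 13310) (nat_lit 10) nil nil) (node (nat_lit 5) (nat_lit 13359) (nat_lit 9) (node
  (nat_lit 4) (nat_lit 13231) (nat_lit 10) (node (nat_lit 5) (nat_lit 13231) (nat_lit 11) nil nil)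
  nil) (node (nat_lit 9) (nat_lit 13310) (nat_lit 9) (node (nat_lit 5) (nat_lit 13310) (nat_lit
  10) nil nil) nil))) (node (nat_lit 5) (nat_lit 9766) (nat_lit 8) (node (nat_lit 6) (nat_lit
  13317) (nat_lit 9) nil (node (nat_lit 4) (nat_lit 9766) (nat_lit 9) (node (nat_lit 9) (nat_lit
  9766) (nat_lit 10) (node (nat_lit 5) (nat_lit 10414) (nat_lit 11) nil nil) (node (nat_lit 6)
  (nat_lit 12568) (nat_lit 10) nil nil)) (node (nat_lit 0) (nat_lit 12909) (nat_lit 9) nil nil)))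
  (node (nat_lit 9) (nat_lit 9766) (nat_lit 8) (node (nat_lit 5) (nat_lit 9766) (nat_lit 9) (node
  (nat_lit 6) (nat_lit 13053) (nat_lit 10) nil (node (nat_lit 4) (nat_lit 9371) (nat_lit 10) (node
  (nat_lit 5) (nat_lit 7119) (nat_lit 11) nil nil) (node (nat_lit 9) (nat_lit 9772) (nat_lit 10)
  nil nil))) nil) (node (nat_lit 0) (nat_lit 13052) (nat_lit 8) nil nil)))) (node (nat_lit 5)
  (nat_lit 9696) (nat_lit 7) (node (nat_lit 4) (nat_lit 9766) (nat_lit 8) (node (nat_lit 9)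
  (nat_lit 9766) (nat_lit 9) (node (nat_lit 4) (nat_lit 9766) (nat_lit 10) (node (nat_lit 5)
  (nat_lit 10938) (nat_lit 11) nil nil) (node (nat_lit 5) (nat_lit 9766) (nat_lit 10) nil (node
  (nat_lit 6) (nat_lit 12987) (nat_lit 10) nil nil))) (node (nat_lit 6) (nat_lit 13309) (nat_lit
  9) (node (nat_lit 9) (nat_lit 12647) (nat_lit 10) (node (nat_lit 5) (nat_lit 12537) (nat_lit 11)
  nil nil) nil) (node (nat_lit 0) (nat_lit 12901) (nat_lit 9) nil nil))) (node (nat_lit 6)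
  (nat_lit 13162) (nat_lit 8) (node (nat_lit 9) (nat_lit 13162) (nat_lit 9) nil nil) (node
  (nat_lit 0) (nat_lit 13162) (nat_lit 8) (node (nat_lit 9) (nat_lit 13162) (nat_lit 9) (node
  (nat_lit 5) (nat_lit 13162) (nat_lit 10) nil nil) (node (nat_lit 5) (nat_lit 13162) (nat_lit 9)
  nil nil)) nil))) (node (nat_lit 6) (nat_lit 12485) (nat_lit 7) (node (nat_lit 5) (nat_lit 12743)
  (nat_lit 8) (node (nat_lit 4) (nat_lit 13051) (nat_lit 9) (node (nat_lit 5) (nat_lit 13051)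
  (nat_lit 10) nil nil) nil) (node (nat_lit 9) (nat_lit 12743) (nat_lit 8) (node (nat_lit 5)
  (nat_lit 12754) (nat_lit 9) (node (nat_lit 6) (nat_lit 13299) (nat_lit 10) (node (nat_lit 5)
  (nat_lit 13299) (nat_lit 11) nil nil) nil) (node (nat_lit 4) (nat_lit 12743) (nat_lit 9) nil
  nil)) (node (nat_lit 0) (nat_lit 12764) (nat_lit 8) nil (node (nat_lit 4) (nat_lit 12743)
  (nat_lit 8) nil nil)))) (node (nat_lit 0) (nat_lit 12392) (nat_lit 7) (node (nat_lit 5) (nat_lit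
  12413) (nat_lit 8) (node (nat_lit 4) (nat_lit 12413) (nat_lit 9) nil nil) (node (nat_lit 4)
  (nat_lit 12392) (nat_lit 8) nil (node (nat_lit 6) (nat_lit 13070) (nat_lit 8) nil (node (nat_lit
  9) (nat_lit 12650) (nat_lit 8) nil nil)))) nil)))) nil))) (node (nat_lit 2) (nat_lit 0) (nat_lit
  5) (node (nat_lit 5) (nat_lit 39285) (nat_lit 6) (node (nat_lit 4) (nat_lit 36284) (nat_lit 7)
  (node (nat_lit 8) (nat_lit 38387) (nat_lit 8) nil (node (nat_lit 5) (nat_lit 31598) (nat_lit 8)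
  (node (nat_lit 6) (nat_lit 22723) (nat_lit 9) nil nil) nil)) (node (nat_lit 8) (nat_lit 42336)
  (nat_lit 7) nil nil)) (node (nat_lit 4) (nat_lit 31898) (nat_lit 6) (node (nat_lit 6) (nat_lit
  33804) (nat_lit 7) (node (nat_lit 8) (nat_lit 35029) (nat_lit 8) (node (nat_lit 6) (nat_lit
  35877) (nat_lit 9) (node (nat_lit 4) (nat_lit 37391) (nat_lit 10) (node (nat_lit 8) (nat_lit
  36949) (nat_lit 11) nil nil) nil) (node (nat_lit 5) (nat_lit 38646) (nat_lit 9) nil nil)) (node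
  (nat_lit 4) (nat_lit 35029) (nat_lit 8) (node (nat_lit 5) (nat_lit 37750) (nat_lit 9) (node
  (nat_lit 6) (nat_lit 24290) (nat_lit 10) (node (nat_lit 4) (nat_lit 24551) (nat_lit 11) nil nil)
  nil) nil) (node (nat_lit 5) (nat_lit 42702) (nat_lit 8) nil nil))) (node (nat_lit 5) (nat_lit
  42869) (nat_lit 7) (node (nat_lit 8) (nat_lit 44371) (nat_lit 8) (node (nat_lit 5) (nat_lit
  45430) (nat_lit 9) (node (nat_lit 4) (nat_lit 44964) (nat_lit 10) (node (nat_lit 5) (nat_lit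
  45646) (nat_lit 11) (node (nat_lit 6) (nat_lit 38773) (nat_lit 12) nil nil) nil) nil) (node
  (nat_lit 6) (nat_lit 45219) (nat_lit 9) (node (nat_lit 4) (nat_lit 45863) (nat_lit 10) nil nil)
  nil)) nil) (node (nat_lit 0) (nat_lit 42001) (nat_lit 7) nil nil))) (node (nat_lit 6) (nat_lit
  31935) (nat_lit 6) (node (nat_lit 8) (nat_lit 33839) (nat_lit 7) (node (nat_lit 4) (nat_lit
  35065) (nat_lit 8) (node (nat_lit 6) (nat_lit 35913) (nat_lit 9) (node (nat_lit 4) (nat_lit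
  37253) (nat_lit 10) nil nil) (node (nat_lit 8) (nat_lit 35916) (nat_lit 9) (node (nat_lit 5)
  (nat_lit 38646) (nat_lit 10) nil nil) nil)) (node (nat_lit 5) (nat_lit 42640) (nat_lit 8) (node
  (nat_lit 6) (nat_lit 43487) (nat_lit 9) nil nil) nil)) (node (nat_lit 5) (nat_lit 43768)
  (nat_lit 7) (node (nat_lit 4) (nat_lit 44698) (nat_lit 8) (node (nat_lit 5) (nat_lit 46006)
  (nat_lit 9) nil nil) nil) (node (nat_lit 4) (nat_lit 33839) (nat_lit 7) (node (nat_lit 6)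
  (nat_lit 35065) (nat_lit 8) (node (nat_lit 8) (nat_lit 35913) (nat_lit 9) (node (nat_lit 4)
  (nat_lit 36984) (nat_lit 10) nil nil) nil) (node (nat_lit 5) (nat_lit 38512) (nat_lit 8) (node
  (nat_lit 6) (nat_lit 22897) (nat_lit 9) nil nil) nil)) (node (nat_lit 0) (nat_lit 41812)
  (nat_lit 7) nil nil)))) (node (nat_lit 0) (nat_lit 40354) (nat_lit 6) (node (nat_lit 6) (nat_lit
  42355) (nat_lit 7) nil (node (nat_lit 5) (nat_lit 42801) (nat_lit 7) (node (nat_lit 4) (nat_lit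
  44026) (nat_lit 8) nil nil) nil)) nil)))) nil)))) (node (nat_lit 0) (nat_lit 0) (nat_lit 4)
  (node (nat_lit 5) (nat_lit 0) (nat_lit 5) (node (nat_lit 6) (nat_lit 64179) (nat_lit 6) (node
  (nat_lit 5) (nat_lit 65033) (nat_lit 7) (node (nat_lit 7) (nat_lit 65596) (nat_lit 8) (node
  (nat_lit 5) (nat_lit 65984) (nat_lit 9) nil nil) (node (nat_lit 4) (nat_lit 65596) (nat_lit 8)
  nil nil)) (node (nat_lit 4) (nat_lit 65033) (nat_lit 7) nil nil)) (node (nat_lit 7) (nat_lit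
  63590) (nat_lit 6) (node (nat_lit 6) (nat_lit 65207) (nat_lit 7) nil nil) (node (nat_lit 4)
  (nat_lit 64259) (nat_lit 6) (node (nat_lit 7) (nat_lit 65113) (nat_lit 7) (node (nat_lit 5)
  (nat_lit 65665) (nat_lit 8) (node (nat_lit 6) (nat_lit 65536) (nat_lit 9) nil nil) nil) (node
  (nat_lit 5) (nat_lit 65113) (nat_lit 7) (node (nat_lit 6) (nat_lit 65675) (nat_lit 8) (node
  (nat_lit 7) (nat_lit 43925) (nat_lit 9) nil nil) nil) (node (nat_lit 6) (nat_lit 65113) (nat_lit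
  7) (node (nat_lit 5) (nat_lit 65665) (nat_lit 8) nil nil) nil))) (node (nat_lit 0) (nat_lit
  63052) (nat_lit 6) nil (node (nat_lit 2) (nat_lit 60706) (nat_lit 6) nil nil))))) (node (nat_lit
  4) (nat_lit 61538) (nat_lit 5) (node (nat_lit 6) (nat_lit 64001) (nat_lit 6) (node (nat_lit 4)
  (nat_lit 65643) (nat_lit 7) (node (nat_lit 5) (nat_lit 61013) (nat_lit 8) (node (nat_lit 6)
  (nat_lit 54486) (nat_lit 9) (node (nat_lit 7) (nat_lit 34430) (nat_lit 10) (node (nat_lit 4)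
  (nat_lit 11023) (nat_lit 11) nil nil) (node (nat_lit 5) (nat_lit 54786) (nat_lit 10) nil nil))
  nil) nil) (node (nat_lit 5) (nat_lit 63115) (nat_lit 7) nil nil)) (node (nat_lit 7) (nat_lit
  64638) (nat_lit 6) (node (nat_lit 6) (nat_lit 65742) (nat_lit 7) (node (nat_lit 4) (nat_lit
  66304) (nat_lit 8) nil nil) nil) (node (nat_lit 0) (nat_lit 64308) (nat_lit 6) nil (node
  (nat_lit 2) (nat_lit 61362) (nat_lit 6) (node (nat_lit 5) (nat_lit 55371) (nat_lit 7) nil nil)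
  nil)))) (node (nat_lit 6) (nat_lit 61197) (nat_lit 5) (node (nat_lit 5) (nat_lit 64187) (nat_lit
  6) (node (nat_lit 7) (nat_lit 65118) (nat_lit 7) (node (nat_lit 5) (nat_lit 65214) (nat_lit 8)
  nil nil) (node (nat_lit 4) (nat_lit 63301) (nat_lit 7) (node (nat_lit 5) (nat_lit 64526)
  (nat_lit 8) nil nil) nil)) (node (nat_lit 4) (nat_lit 64266) (nat_lit 6) (node (nat_lit 5)
  (nat_lit 65120) (nat_lit 7) (node (nat_lit 6) (nat_lit 65682) (nat_lit 8) (node (nat_lit 7)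
  (nat_lit 11190) (nat_lit 9) nil nil) nil) nil) nil)) (node (nat_lit 0) (nat_lit 61041) (nat_lit
  5) (node (nat_lit 6) (nat_lit 63811) (nat_lit 6) (node (nat_lit 5) (nat_lit 62925) (nat_lit 7)
  (node (nat_lit 6) (nat_lit 62819) (nat_lit 8) nil nil) nil) nil) (node (nat_lit 2) (nat_lit
  60741) (nat_lit 5) (node (nat_lit 6) (nat_lit 60150) (nat_lit 6) (node (nat_lit 8) (nat_lit
  59387) (nat_lit 7) (node (nat_lit 5) (nat_lit 57097) (nat_lit 8) (node (nat_lit 6) (nat_lit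
  56968) (nat_lit 9) nil nil) nil) nil) (node (nat_lit 5) (nat_lit 58089) (nat_lit 6) nil (node
  (nat_lit 4) (nat_lit 60782) (nat_lit 6) (node (nat_lit 6) (nat_lit 60740) (nat_lit 7) nil nil)
  nil))) nil))))) t9))

noncomputable def t11 : Tr :=
  (node (nat_lit 4) (nat_lit 0) (nat_lit 4) (node (nat_lit 6) (nat_lit 47381) (nat_lit 5) (node
  (nat_lit 5) (nat_lit 52811) (nat_lit 6) (node (nat_lit 6) (nat_lit 52909) (nat_lit 7) (node
  (nat_lit 4) (nat_lit 63046) (nat_lit 8) (node (nat_lit 5) (nat_lit 64841) (nat_lit 9) (node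
  (nat_lit 4) (nat_lit 64841) (nat_lit 10) (node (nat_lit 6) (nat_lit 64027) (nat_lit 11) (node
  (nat_lit 5) (nat_lit 63248) (nat_lit 12) (node (nat_lit 4) (nat_lit 62656) (nat_lit 13) (node
  (nat_lit 5) (nat_lit 62197) (nat_lit 14) (node (nat_lit 6) (nat_lit 61345) (nat_lit 15) (node
  (nat_lit 4) (nat_lit 60717) (nat_lit 16) (node (nat_lit 6) (nat_lit 58301) (nat_lit 17) (node
  (nat_lit 5) (nat_lit 55921) (nat_lit 18) (node (nat_lit 6) (nat_lit 51966) (nat_lit 19) (node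
  (nat_lit 4) (nat_lit 44527) (nat_lit 20) (node (nat_lit 5) (nat_lit 40759) (nat_lit 21) (node
  (nat_lit 4) (nat_lit 40707) (nat_lit 22) (node (nat_lit 6) (nat_lit 40667) (nat_lit 23) nil nil)
  nil) nil) nil) nil) nil) nil) nil) nil) nil) nil) nil) nil) (node (nat_lit 6) (nat_lit 64841)
  (nat_lit 10) (node (nat_lit 5) (nat_lit 63149) (nat_lit 11) (node (nat_lit 4) (nat_lit 62534)
  (nat_lit 12) (node (nat_lit 5) (nat_lit 62042) (nat_lit 13) (node (nat_lit 6) (nat_lit 60037)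
  (nat_lit 14) (node (nat_lit 4) (nat_lit 58805) (nat_lit 15) (node (nat_lit 6) (nat_lit 55501)
  (nat_lit 16) (node (nat_lit 5) (nat_lit 51366) (nat_lit 17) (node (nat_lit 6) (nat_lit 45819)
  (nat_lit 18) (node (nat_lit 4) (nat_lit 40908) (nat_lit 19) (node (nat_lit 5) (nat_lit 40824)
  (nat_lit 20) nil nil) nil) nil) nil) nil) nil) nil) nil) nil) nil) nil)) (node (nat_lit 1)
  (nat_lit 64445) (nat_lit 9) nil nil)) nil) (node (nat_lit 4) (nat_lit 52965) (nat_lit 7) (node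
  (nat_lit 5) (nat_lit 60302) (nat_lit 8) (node (nat_lit 6) (nat_lit 53332) (nat_lit 9) (node
  (nat_lit 4) (nat_lit 44185) (nat_lit 10) (node (nat_lit 5) (nat_lit 44510) (nat_lit 11) nil
  (node (nat_lit 6) (nat_lit 43341) (nat_lit 11) nil nil)) (node (nat_lit 5) (nat_lit 54789)
  (nat_lit 10) (node (nat_lit 4) (nat_lit 56511) (nat_lit 11) (node (nat_lit 6) (nat_lit 56615)
  (nat_lit 12) nil nil) (node (nat_lit 1) (nat_lit 55634) (nat_lit 11) nil nil)) (node (nat_lit 1)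
  (nat_lit 54011) (nat_lit 10) (node (nat_lit 4) (nat_lit 54856) (nat_lit 11) (node (nat_lit 5)
  (nat_lit 52029) (nat_lit 12) nil nil) (node (nat_lit 6) (nat_lit 53789) (nat_lit 11) nil nil))
  (node (nat_lit 0) (nat_lit 54789) (nat_lit 10) nil nil)))) (node (nat_lit 1) (nat_lit 61701)
  (nat_lit 9) nil nil)) (node (nat_lit 6) (nat_lit 62463) (nat_lit 8) (node (nat_lit 4) (nat_lit
  64571) (nat_lit 9) (node (nat_lit 5) (nat_lit 64841) (nat_lit 10) (node (nat_lit 6) (nat_lit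
  64841) (nat_lit 11) (node (nat_lit 5) (nat_lit 64841) (nat_lit 12) (node (nat_lit 4) (nat_lit
  64841) (nat_lit 13) (node (nat_lit 5) (nat_lit 64841) (nat_lit 14) (node (nat_lit 6) (nat_lit
  63536) (nat_lit 15) (node (nat_lit 4) (nat_lit 62447) (nat_lit 16) (node (nat_lit 6) (nat_lit
  60620) (nat_lit 17) (node (nat_lit 5) (nat_lit 58501) (nat_lit 18) (node (nat_lit 4) (nat_lit
  53733) (nat_lit 19) (node (nat_lit 6) (nat_lit 48202) (nat_lit 20) (node (nat_lit 4) (nat_lit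
  41927) (nat_lit 21) (node (nat_lit 5) (nat_lit 41876) (nat_lit 22) nil nil) nil) nil) nil) nil)
  nil) nil) nil) nil) nil) nil) nil) nil) (node (nat_lit 1) (nat_lit 63861) (nat_lit 9) nil nil))
  (node (nat_lit 1) (nat_lit 62463) (nat_lit 8) (node (nat_lit 4) (nat_lit 63345) (nat_lit 9) nil
  (node (nat_lit 5) (nat_lit 63345) (nat_lit 9) nil nil)) (node (nat_lit 0) (nat_lit 63652)
  (nat_lit 8) nil nil)))) (node (nat_lit 1) (nat_lit 64602) (nat_lit 7) (node (nat_lit 4) (nat_lit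
  64841) (nat_lit 8) (node (nat_lit 5) (nat_lit 64841) (nat_lit 9) (node (nat_lit 6) (nat_lit
  46788) (nat_lit 10) (node (nat_lit 4) (nat_lit 29379) (nat_lit 11) nil nil) nil) nil) (node
  (nat_lit 6) (nat_lit 64841) (nat_lit 8) (node (nat_lit 5) (nat_lit 64841) (nat_lit 9) nil nil)
  (node (nat_lit 5) (nat_lit 64841) (nat_lit 8) nil nil))) (node (nat_lit 0) (nat_lit 64602)
  (nat_lit 7) (node (nat_lit 5) (nat_lit 64224) (nat_lit 8) nil (node (nat_lit 1) (nat_lit 64841)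
  (nat_lit 8) nil nil)) nil)))) (node (nat_lit 1) (nat_lit 61894) (nat_lit 6) (node (nat_lit 4)
  (nat_lit 63774) (nat_lit 7) (node (nat_lit 5) (nat_lit 64841) (nat_lit 8) (node (nat_lit 6)
  (nat_lit 50503) (nat_lit 9) (node (nat_lit 4) (nat_lit 22349) (nat_lit 10) nil nil) nil) nil)
  (node (nat_lit 6) (nat_lit 61712) (nat_lit 7) (node (nat_lit 5) (nat_lit 62379) (nat_lit 8)
  (node (nat_lit 6) (nat_lit 63261) (nat_lit 9) (node (nat_lit 9) (nat_lit 61866) (nat_lit 10) nil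
  nil) nil) nil) (node (nat_lit 5) (nat_lit 64336) (nat_lit 7) (node (nat_lit 4) (nat_lit 64841)
  (nat_lit 8) (node (nat_lit 5) (nat_lit 64841) (nat_lit 9) (node (nat_lit 6) (nat_lit 63337)
  (nat_lit 10) (node (nat_lit 4) (nat_lit 62754) (nat_lit 11) (node (nat_lit 6) (nat_lit 61536)
  (nat_lit 12) nil nil) nil) nil) nil) nil) nil))) (node (nat_lit 0) (nat_lit 61894) (nat_lit 6)
  (node (nat_lit 4) (nat_lit 64336) (nat_lit 7) nil (node (nat_lit 5) (nat_lit 64841) (nat_lit 7)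
  (node (nat_lit 4) (nat_lit 64838) (nat_lit 8) (node (nat_lit 5) (nat_lit 63943) (nat_lit 9)
  (node (nat_lit 6) (nat_lit 61939) (nat_lit 10) (node (nat_lit 4) (nat_lit 61356) (nat_lit 11)
  (node (nat_lit 6) (nat_lit 60138) (nat_lit 12) nil nil) nil) nil) nil) nil) (node (nat_lit 6)
  (nat_lit 64841) (nat_lit 7) (node (nat_lit 5) (nat_lit 60982) (nat_lit 8) nil (node (nat_lit 4)
  (nat_lit 64841) (nat_lit 8) nil nil)) (node (nat_lit 1) (nat_lit 64336) (nat_lit 7) (node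
  (nat_lit 4) (nat_lit 64841) (nat_lit 8) nil nil) nil)))) nil))) (node (nat_lit 5) (nat_lit
  47385) (nat_lit 5) (node (nat_lit 4) (nat_lit 52724) (nat_lit 6) (node (nat_lit 6) (nat_lit
  52746) (nat_lit 7) (node (nat_lit 5) (nat_lit 61882) (nat_lit 8) (node (nat_lit 6) (nat_lit
  64330) (nat_lit 9) (node (nat_lit 4) (nat_lit 65482) (nat_lit 10) (node (nat_lit 6) (nat_lit
  65261) (nat_lit 11) nil (node (nat_lit 1) (nat_lit 64401) (nat_lit 11) (node (nat_lit 4)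
  (nat_lit 64775) (nat_lit 12) nil nil) nil)) (node (nat_lit 1) (nat_lit 65365) (nat_lit 10) (node
  (nat_lit 4) (nat_lit 63340) (nat_lit 11) nil (node (nat_lit 6) (nat_lit 65144) (nat_lit 11) nil
  nil)) (node (nat_lit 0) (nat_lit 65365) (nat_lit 10) nil nil))) (node (nat_lit 4) (nat_lit
  63696) (nat_lit 9) (node (nat_lit 5) (nat_lit 63821) (nat_lit 10) (node (nat_lit 6) (nat_lit
  62794) (nat_lit 11) (node (nat_lit 4) (nat_lit 54877) (nat_lit 12) (node (nat_lit 5) (nat_lit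
  45043) (nat_lit 13) (node (nat_lit 4) (nat_lit 45229) (nat_lit 14) (node (nat_lit 6) (nat_lit
  44941) (nat_lit 15) nil nil) nil) nil) (node (nat_lit 5) (nat_lit 62015) (nat_lit 12) (node
  (nat_lit 4) (nat_lit 61423) (nat_lit 13) nil nil) nil)) nil) (node (nat_lit 1) (nat_lit 62481)
  (nat_lit 10) nil nil)) (node (nat_lit 1) (nat_lit 61051) (nat_lit 9) (node (nat_lit 4) (nat_lit
  60830) (nat_lit 10) nil nil) nil))) (node (nat_lit 1) (nat_lit 63763) (nat_lit 8) (node (nat_lit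
  4) (nat_lit 62882) (nat_lit 9) (node (nat_lit 5) (nat_lit 62219) (nat_lit 10) (node (nat_lit 6)
  (nat_lit 57586) (nat_lit 11) (node (nat_lit 4) (nat_lit 50462) (nat_lit 12) (node (nat_lit 5)
  (nat_lit 27034) (nat_lit 13) nil nil) nil) nil) nil) (node (nat_lit 5) (nat_lit 64645) (nat_lit
  9) nil nil)) (node (nat_lit 4) (nat_lit 60204) (nat_lit 8) nil (node (nat_lit 0) (nat_lit 62399)
  (nat_lit 8) (node (nat_lit 1) (nat_lit 62523) (nat_lit 9) (node (nat_lit 4) (nat_lit 62523)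
  (nat_lit 10) nil nil) (node (nat_lit 5) (nat_lit 62399) (nat_lit 9) nil nil)) nil)))) (node
  (nat_lit 1) (nat_lit 65216) (nat_lit 7) (node (nat_lit 5) (nat_lit 66414) (nat_lit 8) (node
  (nat_lit 4) (nat_lit 66947) (nat_lit 9) (node (nat_lit 5) (nat_lit 66529) (nat_lit 10) (node
  (nat_lit 6) (nat_lit 64936) (nat_lit 11) (node (nat_lit 4) (nat_lit 64528) (nat_lit 12) (node
  (nat_lit 5) (nat_lit 64233) (nat_lit 13) (node (nat_lit 4) (nat_lit 64011) (nat_lit 14) nil nil)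
  nil) nil) nil) nil) nil) (node (nat_lit 4) (nat_lit 64252) (nat_lit 8) (node (nat_lit 5)
  (nat_lit 62073) (nat_lit 9) (node (nat_lit 6) (nat_lit 53834) (nat_lit 10) (node (nat_lit 4)
  (nat_lit 42768) (nat_lit 11) (node (nat_lit 5) (nat_lit 23734) (nat_lit 12) nil nil) nil) nil)
  nil) (node (nat_lit 6) (nat_lit 65808) (nat_lit 8) (node (nat_lit 5) (nat_lit 66113) (nat_lit 9)
  nil nil) nil))) (node (nat_lit 0) (nat_lit 65216) (nat_lit 7) (node (nat_lit 5) (nat_lit 64838)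
  (nat_lit 8) nil (node (nat_lit 1) (nat_lit 66947) (nat_lit 8) (node (nat_lit 4) (nat_lit 66947)
  (nat_lit 9) nil nil) nil)) nil))) (node (nat_lit 1) (nat_lit 61154) (nat_lit 6) (node (nat_lit
  4) (nat_lit 60224) (nat_lit 7) (node (nat_lit 5) (nat_lit 57622) (nat_lit 8) (node (nat_lit 6)
  (nat_lit 48443) (nat_lit 9) (node (nat_lit 4) (nat_lit 19789) (nat_lit 10) nil nil) nil) nil)
  (node (nat_lit 5) (nat_lit 63596) (nat_lit 7) nil (node (nat_lit 6) (nat_lit 63089) (nat_lit 7)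
  (node (nat_lit 5) (nat_lit 61781) (nat_lit 8) nil nil) nil))) (node (nat_lit 0) (nat_lit 59217)
  (nat_lit 6) (node (nat_lit 4) (nat_lit 58623) (nat_lit 7) nil (node (nat_lit 5) (nat_lit 61659)
  (nat_lit 7) nil nil)) nil))) (node (nat_lit 1) (nat_lit 59024) (nat_lit 5) (node (nat_lit 6)
  (nat_lit 63061) (nat_lit 6) (node (nat_lit 8) (nat_lit 65860) (nat_lit 7) (node (nat_lit 4)
  (nat_lit 67123) (nat_lit 8) (node (nat_lit 5) (nat_lit 64928) (nat_lit 9) (node (nat_lit 6)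
  (nat_lit 56311) (nat_lit 10) (node (nat_lit 4) (nat_lit 48809) (nat_lit 11) (node (nat_lit 8)
  (nat_lit 14345) (nat_lit 12) nil nil) nil) nil) nil) nil) (node (nat_lit 5) (nat_lit 65860)
  (nat_lit 7) (node (nat_lit 6) (nat_lit 67123) (nat_lit 8) (node (nat_lit 4) (nat_lit 67997)
  (nat_lit 9) nil nil) (node (nat_lit 4) (nat_lit 64723) (nat_lit 8) nil nil)) (node (nat_lit 4)
  (nat_lit 64418) (nat_lit 7) nil nil))) (node (nat_lit 5) (nat_lit 63061) (nat_lit 6) (node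
  (nat_lit 4) (nat_lit 64981) (nat_lit 7) (node (nat_lit 5) (nat_lit 66244) (nat_lit 8) (node
  (nat_lit 8) (nat_lit 64370) (nat_lit 9) (node (nat_lit 4) (nat_lit 63703) (nat_lit 10) nil nil)
  (node (nat_lit 6) (nat_lit 63805) (nat_lit 9) (node (nat_lit 4) (nat_lit 63038) (nat_lit 10)
  (node (nat_lit 8) (nat_lit 41125) (nat_lit 11) nil nil) nil) nil)) (node (nat_lit 8) (nat_lit
  66244) (nat_lit 8) nil nil)) (node (nat_lit 8) (nat_lit 64981) (nat_lit 7) (node (nat_lit 4)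
  (nat_lit 66244) (nat_lit 8) (node (nat_lit 5) (nat_lit 65743) (nat_lit 9) (node (nat_lit 6)
  (nat_lit 60163) (nat_lit 10) (node (nat_lit 4) (nat_lit 50587) (nat_lit 11) (node (nat_lit 8)
  (nat_lit 15890) (nat_lit 12) nil nil) nil) nil) nil) nil) nil)) (node (nat_lit 4) (nat_lit
  63061) (nat_lit 6) (node (nat_lit 5) (nat_lit 55066) (nat_lit 7) (node (nat_lit 6) (nat_lit
  41043) (nat_lit 8) nil nil) (node (nat_lit 6) (nat_lit 63652) (nat_lit 7) nil (node (nat_lit 0)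
  (nat_lit 64981) (nat_lit 7) nil nil))) (node (nat_lit 0) (nat_lit 63061) (nat_lit 6) (node
  (nat_lit 8) (nat_lit 64981) (nat_lit 7) (node (nat_lit 4) (nat_lit 66244) (nat_lit 8) (node
  (nat_lit 5) (nat_lit 67118) (nat_lit 9) nil nil) nil) (node (nat_lit 5) (nat_lit 64981) (nat_lit
  7) (node (nat_lit 4) (nat_lit 63968) (nat_lit 8) nil nil) nil)) nil)))) (node (nat_lit 0)
  (nat_lit 59024) (nat_lit 5) (node (nat_lit 5) (nat_lit 63061) (nat_lit 6) (node (nat_lit 4)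
  (nat_lit 64981) (nat_lit 7) (node (nat_lit 5) (nat_lit 63968) (nat_lit 8) (node (nat_lit 6)
  (nat_lit 61528) (nat_lit 9) (node (nat_lit 4) (nat_lit 60761) (nat_lit 10) (node (nat_lit 8)
  (nat_lit 39025) (nat_lit 11) nil nil) nil) nil) nil) (node (nat_lit 6) (nat_lit 63652) (nat_lit
  7) nil (node (nat_lit 8) (nat_lit 64981) (nat_lit 7) nil (node (nat_lit 1) (nat_lit 64418)
  (nat_lit 7) (node (nat_lit 4) (nat_lit 57228) (nat_lit 8) (node (nat_lit 5) (nat_lit 54453)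
  (nat_lit 9) nil nil) nil) nil)))) (node (nat_lit 6) (nat_lit 63061) (nat_lit 6) (node (nat_lit
  8) (nat_lit 64981) (nat_lit 7) nil (node (nat_lit 4) (nat_lit 64981) (nat_lit 7) nil (node
  (nat_lit 5) (nat_lit 65860) (nat_lit 7) nil (node (nat_lit 1) (nat_lit 64418) (nat_lit 7) (node
  (nat_lit 4) (nat_lit 57228) (nat_lit 8) nil (node (nat_lit 6) (nat_lit 63713) (nat_lit 8) nil
  nil)) nil)))) (node (nat_lit 4) (nat_lit 63061) (nat_lit 6) (node (nat_lit 1) (nat_lit 64981)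
  (nat_lit 7) (node (nat_lit 4) (nat_lit 63889) (nat_lit 8) (node (nat_lit 5) (nat_lit 61937)
  (nat_lit 9) (node (nat_lit 6) (nat_lit 53698) (nat_lit 10) (node (nat_lit 4) (nat_lit 37966)
  (nat_lit 11) nil nil) nil) nil) nil) nil) (node (nat_lit 1) (nat_lit 63061) (nat_lit 6) (node
  (nat_lit 4) (nat_lit 64981) (nat_lit 7) (node (nat_lit 5) (nat_lit 66244) (nat_lit 8) (node
  (nat_lit 6) (nat_lit 63805) (nat_lit 9) (node (nat_lit 4) (nat_lit 63038) (nat_lit 10) nil nil)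
  nil) nil) (node (nat_lit 8) (nat_lit 64981) (nat_lit 7) nil (node (nat_lit 5) (nat_lit 61944)
  (nat_lit 7) nil nil))) (node (nat_lit 0) (nat_lit 63061) (nat_lit 6) (node (nat_lit 1) (nat_lit
  64981) (nat_lit 7) (node (nat_lit 4) (nat_lit 66244) (nat_lit 8) nil nil) (node (nat_lit 5)
  (nat_lit 61944) (nat_lit 7) (node (nat_lit 4) (nat_lit 60931) (nat_lit 8) nil nil) nil))
  nil))))) nil)))) (node (nat_lit 1) (nat_lit 0) (nat_lit 4) (node (nat_lit 4) (nat_lit 47111)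
  (nat_lit 5) (node (nat_lit 5) (nat_lit 23451) (nat_lit 6) (node (nat_lit 7) (nat_lit 24706)
  (nat_lit 7) (node (nat_lit 5) (nat_lit 25545) (nat_lit 8) (node (nat_lit 4) (nat_lit 26144)
  (nat_lit 9) (node (nat_lit 7) (nat_lit 26625) (nat_lit 10) (node (nat_lit 4) (nat_lit 26886)
  (nat_lit 11) (node (nat_lit 5) (nat_lit 27122) (nat_lit 12) nil nil) (node (nat_lit 5) (nat_lit
  26886) (nat_lit 11) (node (nat_lit 7) (nat_lit 27122) (nat_lit 12) nil nil) nil)) (node (nat_lit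
  5) (nat_lit 26440) (nat_lit 10) (node (nat_lit 6) (nat_lit 25690) (nat_lit 11) nil (node
  (nat_lit 7) (nat_lit 26700) (nat_lit 11) nil nil)) (node (nat_lit 6) (nat_lit 25203) (nat_lit
  10) nil nil))) (node (nat_lit 6) (nat_lit 26144) (nat_lit 9) (node (nat_lit 7) (nat_lit 26440)
  (nat_lit 10) nil (node (nat_lit 5) (nat_lit 24163) (nat_lit 10) nil nil)) (node (nat_lit 0)
  (nat_lit 25933) (nat_lit 9) nil nil))) (node (nat_lit 4) (nat_lit 25545) (nat_lit 8) (node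
  (nat_lit 7) (nat_lit 26144) (nat_lit 9) (node (nat_lit 5) (nat_lit 26625) (nat_lit 10) (node
  (nat_lit 7) (nat_lit 26508) (nat_lit 11) (node (nat_lit 6) (nat_lit 25934) (nat_lit 12) nil
  (node (nat_lit 4) (nat_lit 26744) (nat_lit 12) (node (nat_lit 5) (nat_lit 26935) (nat_lit 13)
  nil nil) nil)) (node (nat_lit 4) (nat_lit 26886) (nat_lit 11) (node (nat_lit 5) (nat_lit 27122)
  (nat_lit 12) nil nil) nil)) (node (nat_lit 6) (nat_lit 25203) (nat_lit 10) nil nil)) (node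
  (nat_lit 6) (nat_lit 26144) (nat_lit 9) (node (nat_lit 5) (nat_lit 26625) (nat_lit 10) nil nil)
  (node (nat_lit 0) (nat_lit 25933) (nat_lit 9) nil nil))) (node (nat_lit 6) (nat_lit 25545)
  (nat_lit 8) (node (nat_lit 4) (nat_lit 25310) (nat_lit 9) (node (nat_lit 7) (nat_lit 25605)
  (nat_lit 10) nil nil) (node (nat_lit 5) (nat_lit 26144) (nat_lit 9) (node (nat_lit 6) (nat_lit
  26440) (nat_lit 10) nil (node (nat_lit 4) (nat_lit 26625) (nat_lit 10) nil (node (nat_lit 7)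
  (nat_lit 26440) (nat_lit 10) nil nil))) (node (nat_lit 7) (nat_lit 26144) (nat_lit 9) (node
  (nat_lit 5) (nat_lit 26440) (nat_lit 10) (node (nat_lit 4) (nat_lit 26700) (nat_lit 11) nil nil)
  nil) (node (nat_lit 0) (nat_lit 25933) (nat_lit 9) nil nil)))) (node (nat_lit 0) (nat_lit 25545)
  (nat_lit 8) (node (nat_lit 5) (nat_lit 25933) (nat_lit 9) nil (node (nat_lit 7) (nat_lit 25933)
  (nat_lit 9) nil (node (nat_lit 4) (nat_lit 25933) (nat_lit 9) nil (node (nat_lit 0) (nat_lit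
  25933) (nat_lit 9) nil nil)))) nil)))) (node (nat_lit 4) (nat_lit 24706) (nat_lit 7) (node
  (nat_lit 7) (nat_lit 25545) (nat_lit 8) (node (nat_lit 5) (nat_lit 26144) (nat_lit 9) (node
  (nat_lit 7) (nat_lit 26625) (nat_lit 10) (node (nat_lit 4) (nat_lit 27054) (nat_lit 11) (node
  (nat_lit 5) (nat_lit 27002) (nat_lit 12) (node (nat_lit 7) (nat_lit 27194) (nat_lit 13) (node
  (nat_lit 5) (nat_lit 27343) (nat_lit 14) (node (nat_lit 4) (nat_lit 27452) (nat_lit 15) (node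
  (nat_lit 5) (nat_lit 27535) (nat_lit 16) nil nil) nil) nil) (node (nat_lit 6) (nat_lit 26565)
  (nat_lit 13) (node (nat_lit 7) (nat_lit 26714) (nat_lit 14) (node (nat_lit 4) (nat_lit 26824)
  (nat_lit 15) nil nil) nil) (node (nat_lit 4) (nat_lit 27194) (nat_lit 13) nil nil))) nil) nil)
  (node (nat_lit 4) (nat_lit 26440) (nat_lit 10) (node (nat_lit 5) (nat_lit 26700) (nat_lit 11)
  nil nil) nil)) (node (nat_lit 4) (nat_lit 26144) (nat_lit 9) (node (nat_lit 5) (nat_lit 26625)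
  (nat_lit 10) (node (nat_lit 6) (nat_lit 25876) (nat_lit 11) nil (node (nat_lit 7) (nat_lit
  26886) (nat_lit 11) nil nil)) nil) (node (nat_lit 6) (nat_lit 26144) (nat_lit 9) nil nil)))
  (node (nat_lit 6) (nat_lit 25545) (nat_lit 8) (node (nat_lit 5) (nat_lit 26144) (nat_lit 9)
  (node (nat_lit 4) (nat_lit 22361) (nat_lit 10) nil nil) (node (nat_lit 4) (nat_lit 26144)
  (nat_lit 9) (node (nat_lit 7) (nat_lit 26440) (nat_lit 10) nil nil) (node (nat_lit 7) (nat_lit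
  25310) (nat_lit 9) (node (nat_lit 4) (nat_lit 25605) (nat_lit 10) nil nil) nil))) (node (nat_lit
  0) (nat_lit 25545) (nat_lit 8) nil nil))) (node (nat_lit 0) (nat_lit 24706) (nat_lit 7) (node
  (nat_lit 4) (nat_lit 25545) (nat_lit 8) (node (nat_lit 5) (nat_lit 25933) (nat_lit 9) nil nil)
  (node (nat_lit 6) (nat_lit 25545) (nat_lit 8) (node (nat_lit 5) (nat_lit 22897) (nat_lit 9) nil
  nil) (node (nat_lit 7) (nat_lit 24508) (nat_lit 8) (node (nat_lit 5) (nat_lit 24897) (nat_lit 9)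
  nil (node (nat_lit 4) (nat_lit 24897) (nat_lit 9) nil nil)) (node (nat_lit 5) (nat_lit 25545)
  (nat_lit 8) (node (nat_lit 4) (nat_lit 25933) (nat_lit 9) nil (node (nat_lit 7) (nat_lit 25933)
  (nat_lit 9) nil nil)) (node (nat_lit 0) (nat_lit 25545) (nat_lit 8) nil nil))))) nil))) (node
  (nat_lit 6) (nat_lit 52052) (nat_lit 6) (node (nat_lit 5) (nat_lit 55493) (nat_lit 7) (node
  (nat_lit 4) (nat_lit 57832) (nat_lit 8) nil nil) (node (nat_lit 7) (nat_lit 54258) (nat_lit 7)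
  (node (nat_lit 6) (nat_lit 54354) (nat_lit 8) nil nil) (node (nat_lit 4) (nat_lit 55493)
  (nat_lit 7) (node (nat_lit 7) (nat_lit 57556) (nat_lit 8) nil nil) (node (nat_lit 0) (nat_lit
  55186) (nat_lit 7) nil nil)))) (node (nat_lit 7) (nat_lit 52155) (nat_lit 6) (node (nat_lit 6)
  (nat_lit 55596) (nat_lit 7) (node (nat_lit 4) (nat_lit 56899) (nat_lit 8) (node (nat_lit 6)
  (nat_lit 58427) (nat_lit 9) (node (nat_lit 7) (nat_lit 56815) (nat_lit 10) (node (nat_lit 4)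
  (nat_lit 56640) (nat_lit 11) nil nil) nil) nil) (node (nat_lit 5) (nat_lit 54330) (nat_lit 8)
  (node (nat_lit 6) (nat_lit 53426) (nat_lit 9) (node (nat_lit 7) (nat_lit 53591) (nat_lit 10) nil
  nil) nil) nil)) (node (nat_lit 5) (nat_lit 55596) (nat_lit 7) (node (nat_lit 4) (nat_lit 56104)
  (nat_lit 8) (node (nat_lit 5) (nat_lit 55201) (nat_lit 9) nil nil) (node (nat_lit 7) (nat_lit
  57338) (nat_lit 8) (node (nat_lit 4) (nat_lit 56531) (nat_lit 9) (node (nat_lit 5) (nat_lit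
  50743) (nat_lit 10) nil nil) nil) nil)) nil)) (node (nat_lit 0) (nat_lit 52155) (nat_lit 6)
  (node (nat_lit 7) (nat_lit 55195) (nat_lit 7) (node (nat_lit 4) (nat_lit 56459) (nat_lit 8) nil
  (node (nat_lit 5) (nat_lit 54182) (nat_lit 8) nil (node (nat_lit 6) (nat_lit 52214) (nat_lit 8)
  nil nil))) (node (nat_lit 5) (nat_lit 55195) (nat_lit 7) (node (nat_lit 4) (nat_lit 54182)
  (nat_lit 8) nil nil) (node (nat_lit 6) (nat_lit 51922) (nat_lit 7) nil (node (nat_lit 4)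
  (nat_lit 55195) (nat_lit 7) (node (nat_lit 7) (nat_lit 55983) (nat_lit 8) nil nil) nil))))
  nil)))) (node (nat_lit 5) (nat_lit 0) (nat_lit 5) (node (nat_lit 7) (nat_lit 57512) (nat_lit 6)
  (node (nat_lit 6) (nat_lit 59431) (nat_lit 7) (node (nat_lit 5) (nat_lit 60695) (nat_lit 8)
  (node (nat_lit 6) (nat_lit 64830) (nat_lit 9) (node (nat_lit 7) (nat_lit 66363) (nat_lit 10)
  (node (nat_lit 5) (nat_lit 66470) (nat_lit 11) (node (nat_lit 6) (nat_lit 66513) (nat_lit 12)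
  (node (nat_lit 5) (nat_lit 66580) (nat_lit 13) (node (nat_lit 7) (nat_lit 66560) (nat_lit 14)
  (node (nat_lit 6) (nat_lit 66016) (nat_lit 15) nil (node (nat_lit 4) (nat_lit 65547) (nat_lit
  15) nil nil)) (node (nat_lit 4) (nat_lit 67437) (nat_lit 14) nil nil)) (node (nat_lit 4)
  (nat_lit 66217) (nat_lit 13) nil nil)) (node (nat_lit 4) (nat_lit 68750) (nat_lit 12) (node
  (nat_lit 5) (nat_lit 68454) (nat_lit 13) (node (nat_lit 6) (nat_lit 67751) (nat_lit 14) (node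
  (nat_lit 7) (nat_lit 67827) (nat_lit 15) nil nil) nil) (node (nat_lit 7) (nat_lit 68012)
  (nat_lit 13) nil nil)) (node (nat_lit 0) (nat_lit 66999) (nat_lit 12) (node (nat_lit 7) (nat_lit
  67430) (nat_lit 13) nil (node (nat_lit 5) (nat_lit 66703) (nat_lit 13) nil nil)) nil))) nil)
  nil) (node (nat_lit 7) (nat_lit 58532) (nat_lit 9) nil nil)) (node (nat_lit 7) (nat_lit 60695)
  (nat_lit 8) (node (nat_lit 5) (nat_lit 61798) (nat_lit 9) (node (nat_lit 6) (nat_lit 61757)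
  (nat_lit 10) (node (nat_lit 5) (nat_lit 59398) (nat_lit 11) (node (nat_lit 7) (nat_lit 59664)
  (nat_lit 12) (node (nat_lit 6) (nat_lit 58740) (nat_lit 13) (node (nat_lit 5) (nat_lit 58766)
  (nat_lit 14) nil nil) nil) nil) (node (nat_lit 7) (nat_lit 62654) (nat_lit 11) (node (nat_lit 6)
  (nat_lit 62374) (nat_lit 12) (node (nat_lit 5) (nat_lit 61719) (nat_lit 13) (node (nat_lit 6)
  (nat_lit 61498) (nat_lit 14) (node (nat_lit 7) (nat_lit 61574) (nat_lit 15) (node (nat_lit 5)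
  (nat_lit 61433) (nat_lit 16) nil nil) nil) nil) nil) nil) nil)) nil) nil) (node (nat_lit 4)
  (nat_lit 58418) (nat_lit 8) nil nil))) (node (nat_lit 4) (nat_lit 63746) (nat_lit 7) (node
  (nat_lit 5) (nat_lit 58536) (nat_lit 8) (node (nat_lit 6) (nat_lit 43845) (nat_lit 9) (node
  (nat_lit 7) (nat_lit 36431) (nat_lit 10) nil nil) nil) nil) nil)) (node (nat_lit 4) (nat_lit
  62846) (nat_lit 6) (node (nat_lit 7) (nat_lit 65166) (nat_lit 7) (node (nat_lit 4) (nat_lit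
  62156) (nat_lit 8) (node (nat_lit 5) (nat_lit 59029) (nat_lit 9) (node (nat_lit 6) (nat_lit
  49919) (nat_lit 10) (node (nat_lit 7) (nat_lit 41371) (nat_lit 11) (node (nat_lit 5) (nat_lit
  24765) (nat_lit 12) nil nil) nil) nil) nil) nil) (node (nat_lit 5) (nat_lit 64765) (nat_lit 7)
  (node (nat_lit 6) (nat_lit 61784) (nat_lit 8) (node (nat_lit 7) (nat_lit 38609) (nat_lit 9) nil
  nil) nil) nil)) (node (nat_lit 6) (nat_lit 57512) (nat_lit 6) (node (nat_lit 5) (nat_lit 59431)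
  (nat_lit 7) (node (nat_lit 7) (nat_lit 60419) (nat_lit 8) (node (nat_lit 6) (nat_lit 63553)
  (nat_lit 9) (node (nat_lit 5) (nat_lit 62837) (nat_lit 10) (node (nat_lit 6) (nat_lit 63219)
  (nat_lit 11) (node (nat_lit 7) (nat_lit 63492) (nat_lit 12) (node (nat_lit 5) (nat_lit 63196)
  (nat_lit 13) (node (nat_lit 6) (nat_lit 63050) (nat_lit 14) (node (nat_lit 5) (nat_lit 62627)
  (nat_lit 15) nil nil) nil) nil) nil) nil) nil) (node (nat_lit 5) (nat_lit 62432) (nat_lit 9)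
  (node (nat_lit 6) (nat_lit 60428) (nat_lit 10) (node (nat_lit 7) (nat_lit 60667) (nat_lit 11)
  (node (nat_lit 6) (nat_lit 60388) (nat_lit 12) (node (nat_lit 5) (nat_lit 59733) (nat_lit 13)
  nil nil) nil) nil) nil) nil)) (node (nat_lit 4) (nat_lit 64210) (nat_lit 8) nil nil)) nil) (node
  (nat_lit 0) (nat_lit 63502) (nat_lit 6) (node (nat_lit 7) (nat_lit 65422) (nat_lit 7) nil (node
  (nat_lit 5) (nat_lit 64521) (nat_lit 7) (node (nat_lit 7) (nat_lit 62606) (nat_lit 8) nil nil)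
  nil)) nil)))) (node (nat_lit 6) (nat_lit 54851) (nat_lit 5) (node (nat_lit 5) (nat_lit 57506)
  (nat_lit 6) (node (nat_lit 6) (nat_lit 59426) (nat_lit 7) (node (nat_lit 7) (nat_lit 60413)
  (nat_lit 8) (node (nat_lit 5) (nat_lit 59510) (nat_lit 9) nil nil) (node (nat_lit 4) (nat_lit
  66835) (nat_lit 8) (node (nat_lit 7) (nat_lit 67709) (nat_lit 9) (node (nat_lit 4) (nat_lit
  64351) (nat_lit 10) nil (node (nat_lit 5) (nat_lit 66942) (nat_lit 10) nil nil)) nil) (node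
  (nat_lit 0) (nat_lit 67205) (nat_lit 8) (node (nat_lit 7) (nat_lit 68078) (nat_lit 9) nil (node
  (nat_lit 6) (nat_lit 64765) (nat_lit 9) nil (node (nat_lit 5) (nat_lit 66301) (nat_lit 9) nil
  nil))) nil))) (node (nat_lit 7) (nat_lit 59426) (nat_lit 7) nil (node (nat_lit 4) (nat_lit
  62272) (nat_lit 7) (node (nat_lit 5) (nat_lit 54545) (nat_lit 8) (node (nat_lit 6) (nat_lit
  43047) (nat_lit 9) nil nil) nil) nil))) (node (nat_lit 4) (nat_lit 62097) (nat_lit 6) (node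
  (nat_lit 6) (nat_lit 61633) (nat_lit 7) (node (nat_lit 5) (nat_lit 59165) (nat_lit 8) nil nil)
  (node (nat_lit 7) (nat_lit 64017) (nat_lit 7) (node (nat_lit 6) (nat_lit 61036) (nat_lit 8)
  (node (nat_lit 5) (nat_lit 59064) (nat_lit 9) nil nil) nil) nil)) (node (nat_lit 0) (nat_lit
  63502) (nat_lit 6) nil nil))) (node (nat_lit 0) (nat_lit 60605) (nat_lit 5) (node (nat_lit 6)
  (nat_lit 64006) (nat_lit 6) (node (nat_lit 7) (nat_lit 61243) (nat_lit 7) (node (nat_lit 4)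
  (nat_lit 59813) (nat_lit 8) (node (nat_lit 5) (nat_lit 56035) (nat_lit 9) nil nil) nil) (node
  (nat_lit 5) (nat_lit 58207) (nat_lit 7) nil nil)) (node (nat_lit 5) (nat_lit 63260) (nat_lit 6)
  (node (nat_lit 7) (nat_lit 65180) (nat_lit 7) nil (node (nat_lit 4) (nat_lit 62143) (nat_lit 7)
  (node (nat_lit 5) (nat_lit 61130) (nat_lit 8) nil nil) nil)) (node (nat_lit 7) (nat_lit 63260)
  (nat_lit 6) (node (nat_lit 5) (nat_lit 63633) (nat_lit 7) (node (nat_lit 7) (nat_lit 62364)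
  (nat_lit 8) nil nil) (node (nat_lit 4) (nat_lit 65180) (nat_lit 7) nil nil)) (node (nat_lit 4)
  (nat_lit 63260) (nat_lit 6) (node (nat_lit 7) (nat_lit 65180) (nat_lit 7) (node (nat_lit 4)
  (nat_lit 57990) (nat_lit 8) nil nil) nil) (node (nat_lit 0) (nat_lit 63260) (nat_lit 6) (node
  (nat_lit 7) (nat_lit 65180) (nat_lit 7) nil nil) nil))))) nil)))) (node (nat_lit 0) (nat_lit 0)
  (nat_lit 4) (node (nat_lit 5) (nat_lit 61752) (nat_lit 5) (node (nat_lit 6) (nat_lit 64338)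
  (nat_lit 6) (node (nat_lit 5) (nat_lit 65192) (nat_lit 7) (node (nat_lit 7) (nat_lit 65755)
  (nat_lit 8) nil (node (nat_lit 4) (nat_lit 64542) (nat_lit 8) (node (nat_lit 5) (nat_lit 52118)
  (nat_lit 9) (node (nat_lit 6) (nat_lit 50701) (nat_lit 10) (node (nat_lit 7) (nat_lit 44510)
  (nat_lit 11) nil nil) nil) nil) nil)) nil) (node (nat_lit 7) (nat_lit 64338) (nat_lit 6) nil
  (node (nat_lit 4) (nat_lit 63245) (nat_lit 6) (node (nat_lit 5) (nat_lit 62128) (nat_lit 7)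
  (node (nat_lit 6) (nat_lit 59147) (nat_lit 8) (node (nat_lit 7) (nat_lit 38503) (nat_lit 9) nil
  nil) nil) nil) (node (nat_lit 1) (nat_lit 64407) (nat_lit 6) nil nil)))) (node (nat_lit 6)
  (nat_lit 61752) (nat_lit 5) (node (nat_lit 5) (nat_lit 64333) (nat_lit 6) (node (nat_lit 6)
  (nat_lit 64395) (nat_lit 7) nil (node (nat_lit 4) (nat_lit 61396) (nat_lit 7) (node (nat_lit 5)
  (nat_lit 48976) (nat_lit 8) (node (nat_lit 6) (nat_lit 36726) (nat_lit 9) nil nil) nil) nil))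
  (node (nat_lit 4) (nat_lit 64407) (nat_lit 6) nil (node (nat_lit 1) (nat_lit 61188) (nat_lit 6)
  nil nil))) (node (nat_lit 4) (nat_lit 61752) (nat_lit 5) (node (nat_lit 6) (nat_lit 62723)
  (nat_lit 6) nil (node (nat_lit 7) (nat_lit 64407) (nat_lit 6) nil (node (nat_lit 1) (nat_lit
  61875) (nat_lit 6) (node (nat_lit 4) (nat_lit 53062) (nat_lit 7) (node (nat_lit 5) (nat_lit
  47914) (nat_lit 8) nil nil) nil) nil))) (node (nat_lit 1) (nat_lit 61752) (nat_lit 5) (node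
  (nat_lit 4) (nat_lit 64407) (nat_lit 6) (node (nat_lit 5) (nat_lit 66327) (nat_lit 7) (node
  (nat_lit 6) (nat_lit 63346) (nat_lit 8) nil nil) nil) (node (nat_lit 6) (nat_lit 60882) (nat_lit
  6) (node (nat_lit 5) (nat_lit 57531) (nat_lit 7) nil nil) (node (nat_lit 5) (nat_lit 63245)
  (nat_lit 6) (node (nat_lit 4) (nat_lit 62128) (nat_lit 7) nil nil) nil))) (node (nat_lit 0)
  (nat_lit 61752) (nat_lit 5) (node (nat_lit 5) (nat_lit 64407) (nat_lit 6) nil (node (nat_lit 1)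
  (nat_lit 64407) (nat_lit 6) nil nil)) nil))))) nil)))

noncomputable def t12 : Tr :=
  (node (nat_lit 0) (nat_lit 0) (nat_lit 3) (node (nat_lit 5) (nat_lit 0) (nat_lit 4) (node
  (nat_lit 4) (nat_lit 58003) (nat_lit 5) (node (nat_lit 6) (nat_lit 61846) (nat_lit 6) (node
  (nat_lit 5) (nat_lit 64363) (nat_lit 7) (node (nat_lit 6) (nat_lit 66250) (nat_lit 8) (node
  (nat_lit 4) (nat_lit 65872) (nat_lit 9) (node (nat_lit 6) (nat_lit 66907) (nat_lit 10) (node
  (nat_lit 5) (nat_lit 66583) (nat_lit 11) (node (nat_lit 4) (nat_lit 66344) (nat_lit 12) (node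
  (nat_lit 5) (nat_lit 66174) (nat_lit 13) (node (nat_lit 6) (nat_lit 66606) (nat_lit 14) (node
  (nat_lit 5) (nat_lit 66512) (nat_lit 15) (node (nat_lit 4) (nat_lit 66438) (nat_lit 16) (node
  (nat_lit 6) (nat_lit 66633) (nat_lit 17) (node (nat_lit 5) (nat_lit 66588) (nat_lit 18) (node
  (nat_lit 6) (nat_lit 66707) (nat_lit 19) (node (nat_lit 4) (nat_lit 66679) (nat_lit 20) nil nil)
  nil) nil) nil) nil) nil) nil) nil) nil) nil) nil) nil) nil) nil) (node (nat_lit 5) (nat_lit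
  61237) (nat_lit 6) (node (nat_lit 6) (nat_lit 42630) (nat_lit 7) nil nil) (node (nat_lit 1)
  (nat_lit 62077) (nat_lit 6) (node (nat_lit 5) (nat_lit 64520) (nat_lit 7) nil (node (nat_lit 4)
  (nat_lit 63052) (nat_lit 7) (node (nat_lit 5) (nat_lit 58236) (nat_lit 8) (node (nat_lit 6)
  (nat_lit 41043) (nat_lit 9) (node (nat_lit 5) (nat_lit 23780) (nat_lit 10) nil nil) nil) nil)
  nil)) (node (nat_lit 0) (nat_lit 63849) (nat_lit 6) nil (node (nat_lit 2) (nat_lit 63849)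
  (nat_lit 6) (node (nat_lit 5) (nat_lit 57827) (nat_lit 7) nil nil) nil))))) (node (nat_lit 1)
  (nat_lit 61752) (nat_lit 5) (node (nat_lit 4) (nat_lit 64407) (nat_lit 6) (node (nat_lit 5)
  (nat_lit 56617) (nat_lit 7) (node (nat_lit 4) (nat_lit 55776) (nat_lit 8) (node (nat_lit 8)
  (nat_lit 56020) (nat_lit 9) nil nil) (node (nat_lit 6) (nat_lit 36581) (nat_lit 8) (node
  (nat_lit 4) (nat_lit 35678) (nat_lit 9) (node (nat_lit 6) (nat_lit 36342) (nat_lit 10) (node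
  (nat_lit 5) (nat_lit 35759) (nat_lit 11) nil nil) (node (nat_lit 8) (nat_lit 35997) (nat_lit 10)
  nil nil)) (node (nat_lit 8) (nat_lit 37455) (nat_lit 9) (node (nat_lit 5) (nat_lit 36688)
  (nat_lit 10) nil nil) nil)) (node (nat_lit 8) (nat_lit 57462) (nat_lit 8) (node (nat_lit 5)
  (nat_lit 58127) (nat_lit 9) (node (nat_lit 4) (nat_lit 57543) (nat_lit 10) (node (nat_lit 5)
  (nat_lit 57100) (nat_lit 11) (node (nat_lit 6) (nat_lit 57503) (nat_lit 12) nil nil) nil) nil)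
  nil) nil))) nil) (node (nat_lit 5) (nat_lit 65016) (nat_lit 6) (node (nat_lit 6) (nat_lit 66936)
  (nat_lit 7) nil (node (nat_lit 4) (nat_lit 66936) (nat_lit 7) (node (nat_lit 5) (nat_lit 65922)
  (nat_lit 8) (node (nat_lit 6) (nat_lit 66796) (nat_lit 9) nil nil) nil) nil)) (node (nat_lit 6)
  (nat_lit 64407) (nat_lit 6) (node (nat_lit 8) (nat_lit 66327) (nat_lit 7) nil (node (nat_lit 5)
  (nat_lit 66327) (nat_lit 7) nil nil)) (node (nat_lit 0) (nat_lit 64407) (nat_lit 6) nil (node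
  (nat_lit 2) (nat_lit 57706) (nat_lit 6) (node (nat_lit 5) (nat_lit 51162) (nat_lit 7) nil (node
  (nat_lit 8) (nat_lit 58278) (nat_lit 7) nil nil)) nil))))) (node (nat_lit 0) (nat_lit 61752)
  (nat_lit 5) (node (nat_lit 6) (nat_lit 64407) (nat_lit 6) (node (nat_lit 5) (nat_lit 63290)
  (nat_lit 7) nil nil) (node (nat_lit 5) (nat_lit 64407) (nat_lit 6) (node (nat_lit 4) (nat_lit
  63290) (nat_lit 7) (node (nat_lit 5) (nat_lit 62277) (nat_lit 8) (node (nat_lit 6) (nat_lit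
  63151) (nat_lit 9) nil nil) nil) nil) (node (nat_lit 1) (nat_lit 64407) (nat_lit 6) nil nil)))
  (node (nat_lit 2) (nat_lit 61752) (nat_lit 5) (node (nat_lit 6) (nat_lit 64407) (nat_lit 6)
  (node (nat_lit 5) (nat_lit 63290) (nat_lit 7) nil nil) (node (nat_lit 5) (nat_lit 64335)
  (nat_lit 6) (node (nat_lit 4) (nat_lit 59714) (nat_lit 7) (node (nat_lit 5) (nat_lit 50584)
  (nat_lit 8) (node (nat_lit 6) (nat_lit 38503) (nat_lit 9) nil nil) nil) nil) (node (nat_lit 4)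
  (nat_lit 64407) (nat_lit 6) nil (node (nat_lit 1) (nat_lit 62214) (nat_lit 6) (node (nat_lit 4)
  (nat_lit 53366) (nat_lit 7) (node (nat_lit 5) (nat_lit 47914) (nat_lit 8) (node (nat_lit 6)
  (nat_lit 38609) (nat_lit 9) nil nil) nil) nil) nil)))) nil)))) (node (nat_lit 4) (nat_lit 0)
  (nat_lit 4) (node (nat_lit 6) (nat_lit 58003) (nat_lit 5) (node (nat_lit 5) (nat_lit 61846)
  (nat_lit 6) (node (nat_lit 6) (nat_lit 64763) (nat_lit 7) (node (nat_lit 4) (nat_lit 66651)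
  (nat_lit 8) (node (nat_lit 5) (nat_lit 68049) (nat_lit 9) (node (nat_lit 4) (nat_lit 67653)
  (nat_lit 10) (node (nat_lit 6) (nat_lit 68498) (nat_lit 11) (node (nat_lit 5) (nat_lit 68259)
  (nat_lit 12) (node (nat_lit 4) (nat_lit 68088) (nat_lit 13) (node (nat_lit 5) (nat_lit 67964)
  (nat_lit 14) (node (nat_lit 6) (nat_lit 68294) (nat_lit 15) (node (nat_lit 4) (nat_lit 68220)
  (nat_lit 16) (node (nat_lit 6) (nat_lit 68416) (nat_lit 17) (node (nat_lit 5) (nat_lit 68371)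
  (nat_lit 18) (node (nat_lit 6) (nat_lit 68490) (nat_lit 19) (node (nat_lit 4) (nat_lit 68461)
  (nat_lit 20) (node (nat_lit 5) (nat_lit 68439) (nat_lit 21) (node (nat_lit 4) (nat_lit 68422)
  (nat_lit 22) (node (nat_lit 6) (nat_lit 41294) (nat_lit 23) nil nil) nil) nil) nil) nil) nil)
  nil) nil) nil) nil) nil) nil) nil) (node (nat_lit 6) (nat_lit 69084) (nat_lit 10) (node (nat_lit
  5) (nat_lit 68761) (nat_lit 11) (node (nat_lit 4) (nat_lit 68522) (nat_lit 12) (node (nat_lit 5)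
  (nat_lit 68351) (nat_lit 13) (node (nat_lit 6) (nat_lit 68784) (nat_lit 14) (node (nat_lit 4)
  (nat_lit 68689) (nat_lit 15) (node (nat_lit 6) (nat_lit 68942) (nat_lit 16) (node (nat_lit 5)
  (nat_lit 68885) (nat_lit 17) (node (nat_lit 6) (nat_lit 69037) (nat_lit 18) (node (nat_lit 4)
  (nat_lit 69002) (nat_lit 19) (node (nat_lit 5) (nat_lit 68974) (nat_lit 20) nil nil) nil) nil)
  nil) nil) nil) nil) nil) nil) nil) nil)) nil) nil) (node (nat_lit 4) (nat_lit 63435) (nat_lit 7)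
  (node (nat_lit 5) (nat_lit 65322) (nat_lit 8) (node (nat_lit 6) (nat_lit 66721) (nat_lit 9)
  (node (nat_lit 4) (nat_lit 66324) (nat_lit 10) (node (nat_lit 6) (nat_lit 43078) (nat_lit 11)
  nil nil) nil) nil) nil) (node (nat_lit 0) (nat_lit 66291) (nat_lit 7) nil (node (nat_lit 2)
  (nat_lit 60630) (nat_lit 7) nil nil)))) (node (nat_lit 1) (nat_lit 63240) (nat_lit 6) (node
  (nat_lit 4) (nat_lit 65683) (nat_lit 7) (node (nat_lit 5) (nat_lit 67582) (nat_lit 8) nil nil)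
  nil) (node (nat_lit 0) (nat_lit 63240) (nat_lit 6) nil (node (nat_lit 2) (nat_lit 59770)
  (nat_lit 6) (node (nat_lit 4) (nat_lit 59175) (nat_lit 7) nil nil) nil)))) (node (nat_lit 5)
  (nat_lit 58003) (nat_lit 5) (node (nat_lit 4) (nat_lit 61846) (nat_lit 6) (node (nat_lit 6)
  (nat_lit 64763) (nat_lit 7) (node (nat_lit 5) (nat_lit 64374) (nat_lit 8) (node (nat_lit 4)
  (nat_lit 63996) (nat_lit 9) (node (nat_lit 5) (nat_lit 63600) (nat_lit 10) (node (nat_lit 6)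
  (nat_lit 64444) (nat_lit 11) (node (nat_lit 4) (nat_lit 64206) (nat_lit 12) (node (nat_lit 5)
  (nat_lit 64035) (nat_lit 13) (node (nat_lit 4) (nat_lit 63911) (nat_lit 14) nil nil) nil) nil)
  nil) nil) nil) nil) (node (nat_lit 1) (nat_lit 66291) (nat_lit 7) nil (node (nat_lit 0) (nat_lit
  66291) (nat_lit 7) nil (node (nat_lit 2) (nat_lit 64484) (nat_lit 7) (node (nat_lit 5) (nat_lit
  60223) (nat_lit 8) nil nil) nil)))) (node (nat_lit 1) (nat_lit 62077) (nat_lit 6) nil (node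
  (nat_lit 0) (nat_lit 63849) (nat_lit 6) nil (node (nat_lit 2) (nat_lit 56539) (nat_lit 6) nil
  nil)))) (node (nat_lit 1) (nat_lit 61752) (nat_lit 5) (node (nat_lit 6) (nat_lit 65016) (nat_lit
  6) (node (nat_lit 5) (nat_lit 66936) (nat_lit 7) (node (nat_lit 6) (nat_lit 68199) (nat_lit 8)
  nil (node (nat_lit 4) (nat_lit 65922) (nat_lit 8) (node (nat_lit 5) (nat_lit 65019) (nat_lit 9)
  (node (nat_lit 6) (nat_lit 65683) (nat_lit 10) (node (nat_lit 4) (nat_lit 65100) (nat_lit 11)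
  nil nil) nil) nil) nil)) nil) (node (nat_lit 5) (nat_lit 63245) (nat_lit 6) (node (nat_lit 4)
  (nat_lit 65164) (nat_lit 7) (node (nat_lit 5) (nat_lit 64151) (nat_lit 8) (node (nat_lit 6)
  (nat_lit 65025) (nat_lit 9) (node (nat_lit 4) (nat_lit 64258) (nat_lit 10) nil nil) nil) nil)
  nil) (node (nat_lit 4) (nat_lit 64407) (nat_lit 6) (node (nat_lit 5) (nat_lit 61759) (nat_lit 7)
  (node (nat_lit 6) (nat_lit 41892) (nat_lit 8) nil nil) nil) nil))) (node (nat_lit 0) (nat_lit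
  61752) (nat_lit 5) (node (nat_lit 5) (nat_lit 59165) (nat_lit 6) (node (nat_lit 4) (nat_lit
  58048) (nat_lit 7) (node (nat_lit 5) (nat_lit 57035) (nat_lit 8) (node (nat_lit 6) (nat_lit
  57909) (nat_lit 9) (node (nat_lit 4) (nat_lit 57142) (nat_lit 10) nil nil) nil) nil) nil) (node
  (nat_lit 6) (nat_lit 64407) (nat_lit 6) nil (node (nat_lit 1) (nat_lit 64407) (nat_lit 6) nil
  nil))) (node (nat_lit 2) (nat_lit 61752) (nat_lit 5) (node (nat_lit 5) (nat_lit 62714) (nat_lit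
  6) (node (nat_lit 4) (nat_lit 57613) (nat_lit 7) (node (nat_lit 5) (nat_lit 51429) (nat_lit 8)
  (node (nat_lit 6) (nat_lit 43816) (nat_lit 9) (node (nat_lit 4) (nat_lit 42753) (nat_lit 10) nil
  nil) nil) nil) nil) (node (nat_lit 6) (nat_lit 64407) (nat_lit 6) nil (node (nat_lit 4) (nat_lit
  65016) (nat_lit 6) nil (node (nat_lit 1) (nat_lit 63484) (nat_lit 6) nil nil)))) nil))))) (node
  (nat_lit 1) (nat_lit 0) (nat_lit 4) (node (nat_lit 4) (nat_lit 61752) (nat_lit 5) (node (nat_lit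
  5) (nat_lit 64407) (nat_lit 6) (node (nat_lit 6) (nat_lit 11317) (nat_lit 7) nil nil) (node
  (nat_lit 7) (nat_lit 65016) (nat_lit 6) nil (node (nat_lit 0) (nat_lit 64407) (nat_lit 6) nil
  (node (nat_lit 2) (nat_lit 56802) (nat_lit 6) (node (nat_lit 5) (nat_lit 53451) (nat_lit 7) nil
  (node (nat_lit 7) (nat_lit 57042) (nat_lit 7) (node (nat_lit 4) (nat_lit 55611) (nat_lit 8) nil
  nil) nil)) nil)))) (node (nat_lit 5) (nat_lit 0) (nat_lit 5) (node (nat_lit 7) (nat_lit 63245)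
  (nat_lit 6) (node (nat_lit 6) (nat_lit 65164) (nat_lit 7) (node (nat_lit 5) (nat_lit 66428)
  (nat_lit 8) (node (nat_lit 6) (nat_lit 67301) (nat_lit 9) (node (nat_lit 7) (nat_lit 67965)
  (nat_lit 10) (node (nat_lit 5) (nat_lit 67383) (nat_lit 11) (node (nat_lit 4) (nat_lit 66975)
  (nat_lit 12) (node (nat_lit 5) (nat_lit 66679) (nat_lit 13) nil (node (nat_lit 7) (nat_lit
  67175) (nat_lit 13) nil nil)) nil) nil) nil) nil) nil) (node (nat_lit 4) (nat_lit 65164)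
  (nat_lit 7) nil (node (nat_lit 0) (nat_lit 65164) (nat_lit 7) nil (node (nat_lit 2) (nat_lit
  59503) (nat_lit 7) nil nil)))) (node (nat_lit 4) (nat_lit 63245) (nat_lit 6) (node (nat_lit 7)
  (nat_lit 65164) (nat_lit 7) nil (node (nat_lit 5) (nat_lit 62128) (nat_lit 7) (node (nat_lit 6)
  (nat_lit 63391) (nat_lit 8) (node (nat_lit 7) (nat_lit 40779) (nat_lit 9) nil nil) nil) nil))
  (node (nat_lit 6) (nat_lit 65016) (nat_lit 6) (node (nat_lit 5) (nat_lit 66936) (nat_lit 7) nil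
  nil) (node (nat_lit 0) (nat_lit 64407) (nat_lit 6) nil (node (nat_lit 2) (nat_lit 61786)
  (nat_lit 6) nil nil))))) (node (nat_lit 6) (nat_lit 61752) (nat_lit 5) (node (nat_lit 5)
  (nat_lit 65016) (nat_lit 6) (node (nat_lit 6) (nat_lit 67336) (nat_lit 7) (node (nat_lit 7)
  (nat_lit 68600) (nat_lit 8) nil nil) nil) (node (nat_lit 4) (nat_lit 65016) (nat_lit 6) nil
  nil)) (node (nat_lit 0) (nat_lit 61752) (nat_lit 5) (node (nat_lit 5) (nat_lit 63245) (nat_lit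
  6) (node (nat_lit 7) (nat_lit 59405) (nat_lit 7) nil (node (nat_lit 4) (nat_lit 62128) (nat_lit
  7) nil nil)) (node (nat_lit 6) (nat_lit 64407) (nat_lit 6) nil (node (nat_lit 7) (nat_lit 63245)
  (nat_lit 6) (node (nat_lit 5) (nat_lit 62128) (nat_lit 7) (node (nat_lit 7) (nat_lit 62349)
  (nat_lit 8) nil nil) (node (nat_lit 4) (nat_lit 65164) (nat_lit 7) nil nil)) (node (nat_lit 4)
  (nat_lit 60328) (nat_lit 6) nil nil)))) (node (nat_lit 2) (nat_lit 61752) (nat_lit 5) (node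
  (nat_lit 6) (nat_lit 64407) (nat_lit 6) nil (node (nat_lit 5) (nat_lit 59715) (nat_lit 6) (node
  (nat_lit 7) (nat_lit 59686) (nat_lit 7) nil (node (nat_lit 6) (nat_lit 61167) (nat_lit 7) (node
  (nat_lit 5) (nat_lit 60325) (nat_lit 8) nil nil) (node (nat_lit 4) (nat_lit 55744) (nat_lit 7)
  (node (nat_lit 5) (nat_lit 41055) (nat_lit 8) nil nil) nil))) (node (nat_lit 7) (nat_lit 64407)
  (nat_lit 6) (node (nat_lit 5) (nat_lit 63290) (nat_lit 7) nil (node (nat_lit 4) (nat_lit 57178)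
  (nat_lit 7) nil nil)) nil))) nil))))) (node (nat_lit 0) (nat_lit 0) (nat_lit 4) (node (nat_lit
  5) (nat_lit 61752) (nat_lit 5) (node (nat_lit 6) (nat_lit 65016) (nat_lit 6) (node (nat_lit 5)
  (nat_lit 66936) (nat_lit 7) (node (nat_lit 7) (nat_lit 68199) (nat_lit 8) nil nil) nil) (node
  (nat_lit 7) (nat_lit 64407) (nat_lit 6) nil (node (nat_lit 4) (nat_lit 63245) (nat_lit 6) (node
  (nat_lit 5) (nat_lit 65164) (nat_lit 7) (node (nat_lit 6) (nat_lit 66428) (nat_lit 8) nil nil)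
  nil) (node (nat_lit 1) (nat_lit 64115) (nat_lit 6) nil (node (nat_lit 0) (nat_lit 64407)
  (nat_lit 6) nil (node (nat_lit 2) (nat_lit 56802) (nat_lit 6) nil nil)))))) (node (nat_lit 6)
  (nat_lit 61752) (nat_lit 5) (node (nat_lit 5) (nat_lit 63245) (nat_lit 6) (node (nat_lit 6)
  (nat_lit 65164) (nat_lit 7) nil nil) (node (nat_lit 4) (nat_lit 64407) (nat_lit 6) nil nil))
  (node (nat_lit 4) (nat_lit 61752) (nat_lit 5) nil (node (nat_lit 1) (nat_lit 61752) (nat_lit 5)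
  (node (nat_lit 4) (nat_lit 64407) (nat_lit 6) (node (nat_lit 5) (nat_lit 66327) (nat_lit 7) nil
  nil) (node (nat_lit 5) (nat_lit 64407) (nat_lit 6) nil nil)) (node (nat_lit 0) (nat_lit 61752)
  (nat_lit 5) (node (nat_lit 5) (nat_lit 60328) (nat_lit 6) nil nil) (node (nat_lit 2) (nat_lit
  61752) (nat_lit 5) (node (nat_lit 5) (nat_lit 59165) (nat_lit 6) nil nil) nil)))))) (node
  (nat_lit 2) (nat_lit 0) (nat_lit 4) (node (nat_lit 5) (nat_lit 61752) (nat_lit 5) (node (nat_lit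
  6) (nat_lit 65016) (nat_lit 6) (node (nat_lit 5) (nat_lit 66936) (nat_lit 7) (node (nat_lit 7)
  (nat_lit 63955) (nat_lit 8) nil nil) nil) (node (nat_lit 7) (nat_lit 64407) (nat_lit 6) (node
  (nat_lit 6) (nat_lit 66327) (nat_lit 7) (node (nat_lit 5) (nat_lit 65314) (nat_lit 8) nil nil)
  nil) (node (nat_lit 4) (nat_lit 62796) (nat_lit 6) (node (nat_lit 5) (nat_lit 50393) (nat_lit 7)
  (node (nat_lit 6) (nat_lit 40295) (nat_lit 8) nil nil) nil) (node (nat_lit 1) (nat_lit 63245)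
  (nat_lit 6) nil nil)))) (node (nat_lit 6) (nat_lit 61752) (nat_lit 5) (node (nat_lit 5) (nat_lit
  63245) (nat_lit 6) (node (nat_lit 6) (nat_lit 65164) (nat_lit 7) nil (node (nat_lit 7) (nat_lit
  65129) (nat_lit 7) (node (nat_lit 6) (nat_lit 66392) (nat_lit 8) nil (node (nat_lit 5) (nat_lit
  60036) (nat_lit 8) nil nil)) (node (nat_lit 4) (nat_lit 65164) (nat_lit 7) nil nil))) (node
  (nat_lit 4) (nat_lit 65016) (nat_lit 6) (node (nat_lit 7) (nat_lit 61275) (nat_lit 7) (node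
  (nat_lit 5) (nat_lit 58807) (nat_lit 8) nil nil) nil) nil)) (node (nat_lit 4) (nat_lit 61752)
  (nat_lit 5) (node (nat_lit 6) (nat_lit 65016) (nat_lit 6) (node (nat_lit 5) (nat_lit 63899)
  (nat_lit 7) nil nil) (node (nat_lit 7) (nat_lit 62198) (nat_lit 6) (node (nat_lit 5) (nat_lit
  58139) (nat_lit 7) nil nil) (node (nat_lit 1) (nat_lit 63245) (nat_lit 6) nil nil))) (node
  (nat_lit 1) (nat_lit 61752) (nat_lit 5) (node (nat_lit 4) (nat_lit 60558) (nat_lit 6) (node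
  (nat_lit 5) (nat_lit 53946) (nat_lit 7) nil nil) (node (nat_lit 6) (nat_lit 64407) (nat_lit 6)
  (node (nat_lit 5) (nat_lit 63290) (nat_lit 7) nil nil) (node (nat_lit 5) (nat_lit 63245)
  (nat_lit 6) nil (node (nat_lit 7) (nat_lit 60882) (nat_lit 6) (node (nat_lit 5) (nat_lit 57531)
  (nat_lit 7) nil nil) nil)))) (node (nat_lit 0) (nat_lit 61752) (nat_lit 5) (node (nat_lit 5)
  (nat_lit 60328) (nat_lit 6) nil nil) nil))))) nil))))) (node (nat_lit 1) (nat_lit 0) (nat_lit 3)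
  t10 (node (nat_lit 2) (nat_lit 0) (nat_lit 3) (node (nat_lit 5) (nat_lit 0) (nat_lit 4) (node
  (nat_lit 4) (nat_lit 46217) (nat_lit 5) (node (nat_lit 6) (nat_lit 51098) (nat_lit 6) (node
  (nat_lit 5) (nat_lit 53101) (nat_lit 7) (node (nat_lit 6) (nat_lit 59884) (nat_lit 8) (node
  (nat_lit 4) (nat_lit 61824) (nat_lit 9) (node (nat_lit 5) (nat_lit 61428) (nat_lit 10) nil (node
  (nat_lit 6) (nat_lit 60099) (nat_lit 10) (node (nat_lit 5) (nat_lit 59204) (nat_lit 11) (node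
  (nat_lit 4) (nat_lit 58898) (nat_lit 12) (node (nat_lit 5) (nat_lit 57825) (nat_lit 13) (node
  (nat_lit 6) (nat_lit 56204) (nat_lit 14) (node (nat_lit 5) (nat_lit 54310) (nat_lit 15) (node
  (nat_lit 4) (nat_lit 52188) (nat_lit 16) (node (nat_lit 6) (nat_lit 48240) (nat_lit 17) (node
  (nat_lit 5) (nat_lit 41960) (nat_lit 18) (node (nat_lit 6) (nat_lit 39477) (nat_lit 19) (node
  (nat_lit 4) (nat_lit 39393) (nat_lit 20) nil nil) nil) nil) nil) nil) nil) nil) nil) nil) nil)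
  nil)) (node (nat_lit 1) (nat_lit 58311) (nat_lit 9) nil nil)) (node (nat_lit 1) (nat_lit 61131)
  (nat_lit 8) nil (node (nat_lit 0) (nat_lit 59902) (nat_lit 8) nil nil))) (node (nat_lit 4)
  (nat_lit 53089) (nat_lit 7) (node (nat_lit 5) (nat_lit 59945) (nat_lit 8) (node (nat_lit 6)
  (nat_lit 59660) (nat_lit 9) (node (nat_lit 4) (nat_lit 60326) (nat_lit 10) (node (nat_lit 6)
  (nat_lit 59780) (nat_lit 11) (node (nat_lit 5) (nat_lit 59312) (nat_lit 12) (node (nat_lit 4)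
  (nat_lit 59063) (nat_lit 13) (node (nat_lit 5) (nat_lit 58318) (nat_lit 14) (node (nat_lit 6)
  (nat_lit 57130) (nat_lit 15) (node (nat_lit 5) (nat_lit 56311) (nat_lit 16) (node (nat_lit 4)
  (nat_lit 54682) (nat_lit 17) (node (nat_lit 6) (nat_lit 54275) (nat_lit 18) (node (nat_lit 4)
  (nat_lit 51063) (nat_lit 19) (node (nat_lit 5) (nat_lit 44800) (nat_lit 20) (node (nat_lit 6)
  (nat_lit 44148) (nat_lit 21) nil nil) nil) nil) nil) nil) nil) nil) nil) nil) nil) nil) nil)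
  nil) (node (nat_lit 1) (nat_lit 55605) (nat_lit 8) nil nil)) (node (nat_lit 1) (nat_lit 59559)
  (nat_lit 7) nil (node (nat_lit 0) (nat_lit 60229) (nat_lit 7) (node (nat_lit 5) (nat_lit 60434)
  (nat_lit 8) nil nil) nil)))) (node (nat_lit 5) (nat_lit 41564) (nat_lit 6) (node (nat_lit 6)
  (nat_lit 42630) (nat_lit 7) (node (nat_lit 4) (nat_lit 43331) (nat_lit 8) nil nil) (node
  (nat_lit 1) (nat_lit 42630) (nat_lit 7) (node (nat_lit 4) (nat_lit 43331) (nat_lit 8) (node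
  (nat_lit 5) (nat_lit 41859) (nat_lit 9) (node (nat_lit 6) (nat_lit 34561) (nat_lit 10) (node
  (nat_lit 5) (nat_lit 20554) (nat_lit 11) nil nil) nil) nil) (node (nat_lit 5) (nat_lit 43331)
  (nat_lit 8) (node (nat_lit 6) (nat_lit 43816) (nat_lit 9) (node (nat_lit 5) (nat_lit 42753)
  (nat_lit 10) nil nil) nil) nil)) (node (nat_lit 0) (nat_lit 42630) (nat_lit 7) (node (nat_lit 5)
  (nat_lit 43331) (nat_lit 8) (node (nat_lit 4) (nat_lit 42039) (nat_lit 9) nil nil) (node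
  (nat_lit 1) (nat_lit 43331) (nat_lit 8) nil nil)) nil))) (node (nat_lit 1) (nat_lit 56265)
  (nat_lit 6) (node (nat_lit 5) (nat_lit 60871) (nat_lit 7) (node (nat_lit 4) (nat_lit 62770)
  (nat_lit 8) nil (node (nat_lit 6) (nat_lit 60802) (nat_lit 8) (node (nat_lit 5) (nat_lit 57098)
  (nat_lit 9) (node (nat_lit 9) (nat_lit 57417) (nat_lit 10) nil nil) nil) nil)) (node (nat_lit 4)
  (nat_lit 56359) (nat_lit 7) (node (nat_lit 5) (nat_lit 55367) (nat_lit 8) (node (nat_lit 6)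
  (nat_lit 44606) (nat_lit 9) nil nil) nil) (node (nat_lit 6) (nat_lit 53782) (nat_lit 7) nil
  nil))) (node (nat_lit 0) (nat_lit 57532) (nat_lit 6) (node (nat_lit 5) (nat_lit 58668) (nat_lit
  7) (node (nat_lit 4) (nat_lit 58290) (nat_lit 8) (node (nat_lit 5) (nat_lit 57395) (nat_lit 9)
  (node (nat_lit 6) (nat_lit 55391) (nat_lit 10) (node (nat_lit 5) (nat_lit 54389) (nat_lit 11)
  nil nil) nil) nil) nil) nil) nil)))) (node (nat_lit 1) (nat_lit 54727) (nat_lit 5) (node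
  (nat_lit 4) (nat_lit 57295) (nat_lit 6) (node (nat_lit 5) (nat_lit 50475) (nat_lit 7) (node
  (nat_lit 6) (nat_lit 35206) (nat_lit 8) (node (nat_lit 4) (nat_lit 36080) (nat_lit 9) (node
  (nat_lit 6) (nat_lit 34075) (nat_lit 10) (node (nat_lit 5) (nat_lit 33074) (nat_lit 11) nil nil)
  (node (nat_lit 8) (nat_lit 36744) (nat_lit 10) (node (nat_lit 5) (nat_lit 36161) (nat_lit 11)
  nil (node (nat_lit 4) (nat_lit 34705) (nat_lit 11) nil nil)) nil)) (node (nat_lit 8) (nat_lit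
  36080) (nat_lit 9) (node (nat_lit 5) (nat_lit 35313) (nat_lit 10) (node (nat_lit 4) (nat_lit
  34730) (nat_lit 11) nil nil) (node (nat_lit 4) (nat_lit 33218) (nat_lit 10) nil nil)) nil)) nil)
  (node (nat_lit 8) (nat_lit 59215) (nat_lit 7) nil nil)) (node (nat_lit 5) (nat_lit 57415)
  (nat_lit 6) (node (nat_lit 6) (nat_lit 59317) (nat_lit 7) (node (nat_lit 8) (nat_lit 60580)
  (nat_lit 8) (node (nat_lit 6) (nat_lit 59918) (nat_lit 9) (node (nat_lit 5) (nat_lit 58565)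
  (nat_lit 10) (node (nat_lit 8) (nat_lit 58926) (nat_lit 11) nil nil) nil) (node (nat_lit 5)
  (nat_lit 59677) (nat_lit 9) nil nil)) (node (nat_lit 4) (nat_lit 58304) (nat_lit 8) nil nil))
  (node (nat_lit 4) (nat_lit 62861) (nat_lit 7) (node (nat_lit 5) (nat_lit 61848) (nat_lit 8)
  (node (nat_lit 6) (nat_lit 59409) (nat_lit 9) (node (nat_lit 5) (nat_lit 58056) (nat_lit 10)
  (node (nat_lit 8) (nat_lit 38800) (nat_lit 11) nil nil) nil) nil) nil) (node (nat_lit 0)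
  (nat_lit 59335) (nat_lit 7) nil nil))) (node (nat_lit 6) (nat_lit 57397) (nat_lit 6) (node
  (nat_lit 8) (nat_lit 59364) (nat_lit 7) (node (nat_lit 5) (nat_lit 58351) (nat_lit 8) nil nil)
  (node (nat_lit 5) (nat_lit 59317) (nat_lit 7) (node (nat_lit 4) (nat_lit 50917) (nat_lit 8)
  (node (nat_lit 5) (nat_lit 47987) (nat_lit 9) (node (nat_lit 6) (nat_lit 41697) (nat_lit 10) nil
  nil) nil) nil) nil)) (node (nat_lit 0) (nat_lit 57382) (nat_lit 6) nil nil)))) (node (nat_lit 0)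
  (nat_lit 57991) (nat_lit 5) (node (nat_lit 6) (nat_lit 62027) (nat_lit 6) (node (nat_lit 5)
  (nat_lit 63947) (nat_lit 7) (node (nat_lit 4) (nat_lit 55547) (nat_lit 8) (node (nat_lit 5)
  (nat_lit 50077) (nat_lit 9) (node (nat_lit 6) (nat_lit 49015) (nat_lit 10) (node (nat_lit 5)
  (nat_lit 40133) (nat_lit 11) (node (nat_lit 8) (nat_lit 40427) (nat_lit 12) nil nil) nil) nil)
  nil) nil) nil) (node (nat_lit 5) (nat_lit 62027) (nat_lit 6) (node (nat_lit 4) (nat_lit 62883)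
  (nat_lit 7) (node (nat_lit 5) (nat_lit 61870) (nat_lit 8) (node (nat_lit 6) (nat_lit 59430)
  (nat_lit 9) nil nil) nil) nil) (node (nat_lit 4) (nat_lit 59915) (nat_lit 6) nil (node (nat_lit
  1) (nat_lit 62027) (nat_lit 6) nil (node (nat_lit 0) (nat_lit 62027) (nat_lit 6) nil nil)))))
  nil))) t11) nil)))

noncomputable def t13 : Tr :=
  (node (nat_lit 4) (nat_lit 0) (nat_lit 6) (node (nat_lit 6) (nat_lit 23463) (nat_lit 7) (node
  (nat_lit 4) (nat_lit 23745) (nat_lit 8) (node (nat_lit 5) (nat_lit 23745) (nat_lit 9) (node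
  (nat_lit 6) (nat_lit 23990) (nat_lit 10) (node (nat_lit 5) (nat_lit 23990) (nat_lit 11) (node
  (nat_lit 4) (nat_lit 23990) (nat_lit 12) (node (nat_lit 5) (nat_lit 23990) (nat_lit 13) (node
  (nat_lit 6) (nat_lit 24147) (nat_lit 14) (node (nat_lit 4) (nat_lit 24147) (nat_lit 15) nil nil)
  (node (nat_lit 3) (nat_lit 23990) (nat_lit 14) (node (nat_lit 4) (nat_lit 23990) (nat_lit 15)
  (node (nat_lit 5) (nat_lit 24039) (nat_lit 16) (node (nat_lit 6) (nat_lit 24147) (nat_lit 17)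
  nil nil) nil) nil) nil)) (node (nat_lit 6) (nat_lit 24119) (nat_lit 13) nil nil)) (node (nat_lit
  3) (nat_lit 23990) (nat_lit 12) (node (nat_lit 4) (nat_lit 23990) (nat_lit 13) nil nil) nil))
  (node (nat_lit 4) (nat_lit 23990) (nat_lit 11) (node (nat_lit 6) (nat_lit 24083) (nat_lit 12)
  (node (nat_lit 5) (nat_lit 24083) (nat_lit 13) nil nil) (node (nat_lit 3) (nat_lit 23990)
  (nat_lit 12) (node (nat_lit 4) (nat_lit 23990) (nat_lit 13) (node (nat_lit 5) (nat_lit 23990)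
  (nat_lit 14) nil nil) nil) nil)) (node (nat_lit 3) (nat_lit 23990) (nat_lit 11) (node (nat_lit
  4) (nat_lit 23990) (nat_lit 12) (node (nat_lit 5) (nat_lit 23990) (nat_lit 13) nil nil) nil)
  (node (nat_lit 0) (nat_lit 24039) (nat_lit 11) nil nil)))) (node (nat_lit 3) (nat_lit 23745)
  (nat_lit 10) (node (nat_lit 4) (nat_lit 23745) (nat_lit 11) (node (nat_lit 5) (nat_lit 23745)
  (nat_lit 12) (node (nat_lit 6) (nat_lit 23003) (nat_lit 13) (node (nat_lit 4) (nat_lit 20585)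
  (nat_lit 14) nil nil) nil) nil) nil) (node (nat_lit 0) (nat_lit 23990) (nat_lit 10) nil nil)))
  (node (nat_lit 0) (nat_lit 23935) (nat_lit 9) (node (nat_lit 6) (nat_lit 23990) (nat_lit 10)
  (node (nat_lit 4) (nat_lit 23990) (nat_lit 11) (node (nat_lit 6) (nat_lit 24083) (nat_lit 12)
  (node (nat_lit 12) (nat_lit 24119) (nat_lit 13) nil (node (nat_lit 5) (nat_lit 24083) (nat_lit
  13) nil nil)) (node (nat_lit 5) (nat_lit 23990) (nat_lit 12) nil (node (nat_lit 3) (nat_lit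
  23990) (nat_lit 12) nil nil))) (node (nat_lit 12) (nat_lit 24039) (nat_lit 11) nil (node
  (nat_lit 5) (nat_lit 23990) (nat_lit 11) nil nil))) (node (nat_lit 4) (nat_lit 23935) (nat_lit
  10) (node (nat_lit 6) (nat_lit 24039) (nat_lit 11) nil (node (nat_lit 5) (nat_lit 23935)
  (nat_lit 11) nil (node (nat_lit 3) (nat_lit 23935) (nat_lit 11) (node (nat_lit 4) (nat_lit
  23935) (nat_lit 12) (node (nat_lit 5) (nat_lit 23935) (nat_lit 13) nil nil) nil) (node (nat_lit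
  0) (nat_lit 24039) (nat_lit 11) nil nil)))) (node (nat_lit 5) (nat_lit 23935) (nat_lit 10) (node
  (nat_lit 12) (nat_lit 24039) (nat_lit 11) nil nil) (node (nat_lit 3) (nat_lit 23935) (nat_lit
  10) (node (nat_lit 4) (nat_lit 23935) (nat_lit 11) (node (nat_lit 5) (nat_lit 23935) (nat_lit
  12) nil nil) nil) (node (nat_lit 0) (nat_lit 23990) (nat_lit 10) nil nil))))) (node (nat_lit 3)
  (nat_lit 23745) (nat_lit 9) (node (nat_lit 6) (nat_lit 23990) (nat_lit 10) (node (nat_lit 4)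
  (nat_lit 23990) (nat_lit 11) (node (nat_lit 6) (nat_lit 24083) (nat_lit 12) (node (nat_lit 12)
  (nat_lit 24083) (nat_lit 13) (node (nat_lit 4) (nat_lit 24083) (nat_lit 14) (node (nat_lit 5)
  (nat_lit 24083) (nat_lit 15) (node (nat_lit 6) (nat_lit 24147) (nat_lit 16) nil nil) nil) nil)
  (node (nat_lit 5) (nat_lit 24083) (nat_lit 13) (node (nat_lit 12) (nat_lit 24083) (nat_lit 14)
  (node (nat_lit 4) (nat_lit 24083) (nat_lit 15) nil nil) nil) nil)) (node (nat_lit 5) (nat_lit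
  23990) (nat_lit 12) (node (nat_lit 6) (nat_lit 24119) (nat_lit 13) (node (nat_lit 12) (nat_lit
  24119) (nat_lit 14) nil nil) (node (nat_lit 12) (nat_lit 23990) (nat_lit 13) (node (nat_lit 4)
  (nat_lit 23990) (nat_lit 14) nil nil) nil)) nil)) (node (nat_lit 12) (nat_lit 23990) (nat_lit
  11) (node (nat_lit 4) (nat_lit 23990) (nat_lit 12) (node (nat_lit 5) (nat_lit 23990) (nat_lit
  13) (node (nat_lit 6) (nat_lit 24147) (nat_lit 14) (node (nat_lit 4) (nat_lit 24147) (nat_lit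
  15) nil nil) nil) nil) nil) (node (nat_lit 5) (nat_lit 23990) (nat_lit 11) (node (nat_lit 12)
  (nat_lit 23990) (nat_lit 12) nil nil) nil))) (node (nat_lit 4) (nat_lit 23745) (nat_lit 10)
  (node (nat_lit 5) (nat_lit 23745) (nat_lit 11) (node (nat_lit 6) (nat_lit 24083) (nat_lit 12)
  (node (nat_lit 4) (nat_lit 24083) (nat_lit 13) (node (nat_lit 5) (nat_lit 8652) (nat_lit 14) nil
  nil) nil) (node (nat_lit 4) (nat_lit 23745) (nat_lit 12) (node (nat_lit 12) (nat_lit 23769)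
  (nat_lit 13) nil nil) nil)) (node (nat_lit 6) (nat_lit 24039) (nat_lit 11) (node (nat_lit 12)
  (nat_lit 24039) (nat_lit 12) (node (nat_lit 4) (nat_lit 24039) (nat_lit 13) (node (nat_lit 5)
  (nat_lit 24039) (nat_lit 14) (node (nat_lit 6) (nat_lit 24147) (nat_lit 15) nil nil) nil) nil)
  nil) (node (nat_lit 0) (nat_lit 24039) (nat_lit 11) (node (nat_lit 12) (nat_lit 24039) (nat_lit
  12) (node (nat_lit 4) (nat_lit 24039) (nat_lit 13) (node (nat_lit 5) (nat_lit 24039) (nat_lit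
  14) nil nil) nil) nil) nil))) (node (nat_lit 5) (nat_lit 23745) (nat_lit 10) (node (nat_lit 12)
  (nat_lit 23745) (nat_lit 11) (node (nat_lit 4) (nat_lit 23745) (nat_lit 12) (node (nat_lit 5)
  (nat_lit 23269) (nat_lit 13) (node (nat_lit 6) (nat_lit 22417) (nat_lit 14) (node (nat_lit 4)
  (nat_lit 20728) (nat_lit 15) nil nil) nil) nil) nil) (node (nat_lit 4) (nat_lit 23745) (nat_lit
  11) (node (nat_lit 12) (nat_lit 23745) (nat_lit 12) (node (nat_lit 4) (nat_lit 23769) (nat_lit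
  13) nil nil) nil) (node (nat_lit 6) (nat_lit 24039) (nat_lit 11) (node (nat_lit 12) (nat_lit
  24039) (nat_lit 12) nil nil) nil))) (node (nat_lit 0) (nat_lit 23990) (nat_lit 10) (node
  (nat_lit 4) (nat_lit 23990) (nat_lit 11) (node (nat_lit 12) (nat_lit 23990) (nat_lit 12) (node
  (nat_lit 4) (nat_lit 23990) (nat_lit 13) nil nil) nil) (node (nat_lit 12) (nat_lit 23990)
  (nat_lit 11) (node (nat_lit 4) (nat_lit 23990) (nat_lit 12) nil nil) nil)) nil)))) nil))) (node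
  (nat_lit 5) (nat_lit 23745) (nat_lit 8) (node (nat_lit 6) (nat_lit 23935) (nat_lit 9) (node
  (nat_lit 4) (nat_lit 23935) (nat_lit 10) (node (nat_lit 5) (nat_lit 23935) (nat_lit 11) (node
  (nat_lit 4) (nat_lit 23935) (nat_lit 12) (node (nat_lit 3) (nat_lit 23935) (nat_lit 13) nil
  (node (nat_lit 0) (nat_lit 24119) (nat_lit 13) nil nil)) nil) (node (nat_lit 6) (nat_lit 24039)
  (nat_lit 11) nil (node (nat_lit 3) (nat_lit 23935) (nat_lit 11) (node (nat_lit 4) (nat_lit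
  23935) (nat_lit 12) (node (nat_lit 5) (nat_lit 23935) (nat_lit 13) nil nil) nil) (node (nat_lit
  0) (nat_lit 24039) (nat_lit 11) nil nil)))) (node (nat_lit 3) (nat_lit 23935) (nat_lit 10) (node
  (nat_lit 4) (nat_lit 23935) (nat_lit 11) (node (nat_lit 5) (nat_lit 23935) (nat_lit 12) nil nil)
  nil) (node (nat_lit 0) (nat_lit 23990) (nat_lit 10) nil nil))) (node (nat_lit 4) (nat_lit 23745)
  (nat_lit 9) (node (nat_lit 5) (nat_lit 23745) (nat_lit 10) (node (nat_lit 6) (nat_lit 24039)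
  (nat_lit 11) nil (node (nat_lit 3) (nat_lit 23745) (nat_lit 11) (node (nat_lit 4) (nat_lit
  23342) (nat_lit 12) (node (nat_lit 5) (nat_lit 22825) (nat_lit 13) (node (nat_lit 6) (nat_lit
  21973) (nat_lit 14) nil nil) nil) nil) (node (nat_lit 0) (nat_lit 24039) (nat_lit 11) nil nil)))
  (node (nat_lit 3) (nat_lit 23745) (nat_lit 10) (node (nat_lit 4) (nat_lit 23745) (nat_lit 11)
  (node (nat_lit 5) (nat_lit 23104) (nat_lit 12) nil nil) nil) (node (nat_lit 0) (nat_lit 23990)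
  (nat_lit 10) nil nil))) (node (nat_lit 3) (nat_lit 23745) (nat_lit 9) (node (nat_lit 4) (nat_lit
  23745) (nat_lit 10) (node (nat_lit 5) (nat_lit 23745) (nat_lit 11) (node (nat_lit 6) (nat_lit
  24083) (nat_lit 12) (node (nat_lit 4) (nat_lit 22123) (nat_lit 13) nil nil) nil) nil) nil) (node
  (nat_lit 0) (nat_lit 23935) (nat_lit 9) nil nil)))) (node (nat_lit 3) (nat_lit 23745) (nat_lit
  8) (node (nat_lit 4) (nat_lit 23745) (nat_lit 9) (node (nat_lit 5) (nat_lit 23745) (nat_lit 10)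
  (node (nat_lit 6) (nat_lit 24039) (nat_lit 11) (node (nat_lit 4) (nat_lit 24039) (nat_lit 12)
  nil nil) nil) nil) (node (nat_lit 5) (nat_lit 23745) (nat_lit 9) (node (nat_lit 11) (nat_lit
  23745) (nat_lit 10) (node (nat_lit 4) (nat_lit 23745) (nat_lit 11) (node (nat_lit 5) (nat_lit
  23575) (nat_lit 12) (node (nat_lit 6) (nat_lit 22366) (nat_lit 13) (node (nat_lit 4) (nat_lit
  19533) (nat_lit 14) nil nil) nil) nil) nil) nil) (node (nat_lit 6) (nat_lit 23935) (nat_lit 9)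
  nil (node (nat_lit 0) (nat_lit 23935) (nat_lit 9) (node (nat_lit 11) (nat_lit 23935) (nat_lit
  10) (node (nat_lit 4) (nat_lit 23935) (nat_lit 11) nil nil) nil) nil)))) (node (nat_lit 0)
  (nat_lit 23861) (nat_lit 8) (node (nat_lit 4) (nat_lit 23861) (nat_lit 9) nil (node (nat_lit 6)
  (nat_lit 23935) (nat_lit 9) nil (node (nat_lit 3) (nat_lit 23861) (nat_lit 9) (node (nat_lit 4)
  (nat_lit 23861) (nat_lit 10) (node (nat_lit 5) (nat_lit 23861) (nat_lit 11) nil nil) nil) (node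
  (nat_lit 5) (nat_lit 23861) (nat_lit 9) nil nil)))) nil)))) (node (nat_lit 3) (nat_lit 15990)
  (nat_lit 7) (node (nat_lit 5) (nat_lit 15990) (nat_lit 8) (node (nat_lit 10) (nat_lit 15990)
  (nat_lit 9) (node (nat_lit 4) (nat_lit 15990) (nat_lit 10) (node (nat_lit 5) (nat_lit 16210)
  (nat_lit 11) (node (nat_lit 6) (nat_lit 12282) (nat_lit 12) (node (nat_lit 4) (nat_lit 10127)
  (nat_lit 13) nil nil) nil) (node (nat_lit 10) (nat_lit 17169) (nat_lit 11) nil (node (nat_lit 6)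
  (nat_lit 17818) (nat_lit 11) nil nil))) (node (nat_lit 6) (nat_lit 21155) (nat_lit 10) nil (node
  (nat_lit 0) (nat_lit 20605) (nat_lit 10) nil nil))) (node (nat_lit 4) (nat_lit 15990) (nat_lit
  9) (node (nat_lit 5) (nat_lit 15990) (nat_lit 10) nil (node (nat_lit 6) (nat_lit 21155) (nat_lit
  10) nil nil)) (node (nat_lit 6) (nat_lit 21457) (nat_lit 9) (node (nat_lit 10) (nat_lit 21457)
  (nat_lit 10) (node (nat_lit 4) (nat_lit 21457) (nat_lit 11) nil nil) nil) (node (nat_lit 0)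
  (nat_lit 21457) (nat_lit 9) nil nil)))) (node (nat_lit 4) (nat_lit 15990) (nat_lit 8) (node
  (nat_lit 5) (nat_lit 15990) (nat_lit 9) (node (nat_lit 10) (nat_lit 15990) (nat_lit 10) nil nil)
  (node (nat_lit 6) (nat_lit 20343) (nat_lit 9) nil (node (nat_lit 0) (nat_lit 19352) (nat_lit 9)
  nil nil))) (node (nat_lit 6) (nat_lit 22865) (nat_lit 8) (node (nat_lit 10) (nat_lit 22865)
  (nat_lit 9) (node (nat_lit 4) (nat_lit 22865) (nat_lit 10) (node (nat_lit 5) (nat_lit 22865)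
  (nat_lit 11) nil nil) nil) nil) (node (nat_lit 0) (nat_lit 22411) (nat_lit 8) (node (nat_lit 10)
  (nat_lit 22411) (nat_lit 9) (node (nat_lit 4) (nat_lit 22411) (nat_lit 10) nil nil) nil) nil))))
  (node (nat_lit 0) (nat_lit 23514) (nat_lit 7) (node (nat_lit 4) (nat_lit 23514) (nat_lit 8) nil
  (node (nat_lit 5) (nat_lit 23514) (nat_lit 8) nil (node (nat_lit 6) (nat_lit 23861) (nat_lit 8)
  nil (node (nat_lit 3) (nat_lit 23514) (nat_lit 8) (node (nat_lit 4) (nat_lit 23514) (nat_lit 9)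
  (node (nat_lit 5) (nat_lit 23514) (nat_lit 10) nil nil) nil) (node (nat_lit 0) (nat_lit 23838)
  (nat_lit 8) nil nil))))) nil))) (node (nat_lit 3) (nat_lit 15884) (nat_lit 6) (node (nat_lit 6)
  (nat_lit 23514) (nat_lit 7) (node (nat_lit 4) (nat_lit 23514) (nat_lit 8) (node (nat_lit 6)
  (nat_lit 23935) (nat_lit 9) (node (nat_lit 5) (nat_lit 23935) (nat_lit 10) (node (nat_lit 4)
  (nat_lit 23935) (nat_lit 11) (node (nat_lit 9) (nat_lit 23935) (nat_lit 12) nil nil) (node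
  (nat_lit 9) (nat_lit 23935) (nat_lit 11) (node (nat_lit 6) (nat_lit 24083) (nat_lit 12) (node
  (nat_lit 9) (nat_lit 24083) (nat_lit 13) nil nil) nil) nil)) (node (nat_lit 9) (nat_lit 23935)
  (nat_lit 10) (node (nat_lit 4) (nat_lit 23935) (nat_lit 11) (node (nat_lit 5) (nat_lit 23935)
  (nat_lit 12) nil nil) nil) nil)) (node (nat_lit 9) (nat_lit 23514) (nat_lit 9) (node (nat_lit 5)
  (nat_lit 23514) (nat_lit 10) (node (nat_lit 9) (nat_lit 23514) (nat_lit 11) (node (nat_lit 6)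
  (nat_lit 24034) (nat_lit 12) nil nil) nil) (node (nat_lit 6) (nat_lit 23900) (nat_lit 10) (node
  (nat_lit 9) (nat_lit 23900) (nat_lit 11) (node (nat_lit 4) (nat_lit 23900) (nat_lit 12) nil nil)
  nil) (node (nat_lit 4) (nat_lit 23514) (nat_lit 10) (node (nat_lit 5) (nat_lit 23514) (nat_lit
  11) nil nil) (node (nat_lit 0) (nat_lit 23900) (nat_lit 10) nil nil)))) (node (nat_lit 0)
  (nat_lit 23935) (nat_lit 9) (node (nat_lit 9) (nat_lit 23935) (nat_lit 10) nil nil) nil))) (node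
  (nat_lit 9) (nat_lit 23514) (nat_lit 8) (node (nat_lit 4) (nat_lit 23514) (nat_lit 9) (node
  (nat_lit 6) (nat_lit 23900) (nat_lit 10) (node (nat_lit 5) (nat_lit 23900) (nat_lit 11) (node
  (nat_lit 9) (nat_lit 23900) (nat_lit 12) nil nil) nil) (node (nat_lit 5) (nat_lit 23514)
  (nat_lit 10) (node (nat_lit 9) (nat_lit 23514) (nat_lit 11) nil (node (nat_lit 6) (nat_lit
  23975) (nat_lit 11) (node (nat_lit 4) (nat_lit 23975) (nat_lit 12) nil nil) nil)) nil)) (node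
  (nat_lit 5) (nat_lit 23514) (nat_lit 9) (node (nat_lit 9) (nat_lit 23514) (nat_lit 10) (node
  (nat_lit 4) (nat_lit 23514) (nat_lit 11) (node (nat_lit 5) (nat_lit 23514) (nat_lit 12) nil nil)
  nil) nil) (node (nat_lit 0) (nat_lit 23802) (nat_lit 9) (node (nat_lit 9) (nat_lit 23802)
  (nat_lit 10) nil nil) nil))) (node (nat_lit 5) (nat_lit 23514) (nat_lit 8) (node (nat_lit 6)
  (nat_lit 23935) (nat_lit 9) (node (nat_lit 9) (nat_lit 23935) (nat_lit 10) (node (nat_lit 4)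
  (nat_lit 23935) (nat_lit 11) nil nil) nil) (node (nat_lit 4) (nat_lit 23514) (nat_lit 9) (node
  (nat_lit 5) (nat_lit 23514) (nat_lit 10) (node (nat_lit 9) (nat_lit 23514) (nat_lit 11) (node
  (nat_lit 4) (nat_lit 23514) (nat_lit 12) nil nil) nil) (node (nat_lit 9) (nat_lit 23514)
  (nat_lit 10) (node (nat_lit 4) (nat_lit 23514) (nat_lit 11) (node (nat_lit 5) (nat_lit 23514)
  (nat_lit 12) nil nil) nil) nil)) (node (nat_lit 9) (nat_lit 23514) (nat_lit 9) (node (nat_lit 4)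
  (nat_lit 23514) (nat_lit 10) (node (nat_lit 5) (nat_lit 23514) (nat_lit 11) nil nil) nil) (node
  (nat_lit 0) (nat_lit 23802) (nat_lit 9) nil nil)))) (node (nat_lit 0) (nat_lit 23838) (nat_lit
  8) (node (nat_lit 9) (nat_lit 23838) (nat_lit 9) nil nil) nil)))) (node (nat_lit 4) (nat_lit
  15915) (nat_lit 7) (node (nat_lit 5) (nat_lit 15915) (nat_lit 8) (node (nat_lit 4) (nat_lit
  15915) (nat_lit 9) (node (nat_lit 9) (nat_lit 15915) (nat_lit 10) (node (nat_lit 5) (nat_lit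
  15732) (nat_lit 11) (node (nat_lit 9) (nat_lit 15609) (nat_lit 12) (node (nat_lit 4) (nat_lit
  15526) (nat_lit 13) (node (nat_lit 5) (nat_lit 14975) (nat_lit 14) nil nil) nil) nil) nil) nil)
  nil) (node (nat_lit 9) (nat_lit 15915) (nat_lit 8) (node (nat_lit 5) (nat_lit 15915) (nat_lit 9)
  (node (nat_lit 9) (nat_lit 15915) (nat_lit 10) (node (nat_lit 6) (nat_lit 17743) (nat_lit 11)
  nil nil) (node (nat_lit 4) (nat_lit 15915) (nat_lit 10) (node (nat_lit 5) (nat_lit 16903)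
  (nat_lit 11) nil nil) nil)) (node (nat_lit 6) (nat_lit 20973) (nat_lit 9) nil nil)) (node
  (nat_lit 6) (nat_lit 22304) (nat_lit 8) (node (nat_lit 9) (nat_lit 22304) (nat_lit 9) (node
  (nat_lit 4) (nat_lit 22611) (nat_lit 10) (node (nat_lit 5) (nat_lit 22845) (nat_lit 11) nil nil)
  nil) nil) (node (nat_lit 0) (nat_lit 21242) (nat_lit 8) nil nil)))) (node (nat_lit 5) (nat_lit
  15858) (nat_lit 7) (node (nat_lit 4) (nat_lit 15858) (nat_lit 8) (node (nat_lit 5) (nat_lit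
  15858) (nat_lit 9) (node (nat_lit 6) (nat_lit 17610) (nat_lit 10) nil (node (nat_lit 9) (nat_lit
  15858) (nat_lit 10) nil (node (nat_lit 0) (nat_lit 19420) (nat_lit 10) nil nil))) (node (nat_lit
  9) (nat_lit 15858) (nat_lit 9) (node (nat_lit 4) (nat_lit 15858) (nat_lit 10) (node (nat_lit 5)
  (nat_lit 16078) (nat_lit 11) (node (nat_lit 6) (nat_lit 10152) (nat_lit 12) nil nil) nil) (node
  (nat_lit 5) (nat_lit 15858) (nat_lit 10) (node (nat_lit 9) (nat_lit 16846) (nat_lit 11) nil nil)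
  nil)) (node (nat_lit 6) (nat_lit 20728) (nat_lit 9) nil (node (nat_lit 0) (nat_lit 19220)
  (nat_lit 9) nil nil)))) (node (nat_lit 6) (nat_lit 22248) (nat_lit 8) (node (nat_lit 9) (nat_lit
  22248) (nat_lit 9) (node (nat_lit 4) (nat_lit 22248) (nat_lit 10) (node (nat_lit 5) (nat_lit
  22248) (nat_lit 11) (node (nat_lit 6) (nat_lit 22605) (nat_lit 12) nil nil) nil) nil) nil) (node
  (nat_lit 0) (nat_lit 21436) (nat_lit 8) (node (nat_lit 9) (nat_lit 21436) (nat_lit 9) nil nil)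
  nil))) (node (nat_lit 0) (nat_lit 22341) (nat_lit 7) (node (nat_lit 4) (nat_lit 22341) (nat_lit
  8) nil (node (nat_lit 9) (nat_lit 22341) (nat_lit 8) (node (nat_lit 4) (nat_lit 22341) (nat_lit
  9) nil nil) (node (nat_lit 5) (nat_lit 22341) (nat_lit 8) nil nil))) nil)))) (node (nat_lit 0)
  (nat_lit 22751) (nat_lit 6) (node (nat_lit 4) (nat_lit 22751) (nat_lit 7) (node (nat_lit 5)
  (nat_lit 22751) (nat_lit 8) nil (node (nat_lit 9) (nat_lit 23134) (nat_lit 8) nil nil)) (node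
  (nat_lit 6) (nat_lit 23511) (nat_lit 7) nil (node (nat_lit 5) (nat_lit 22751) (nat_lit 7) (node
  (nat_lit 4) (nat_lit 22751) (nat_lit 8) nil (node (nat_lit 6) (nat_lit 23134) (nat_lit 8) nil
  (node (nat_lit 3) (nat_lit 22751) (nat_lit 8) nil nil))) (node (nat_lit 3) (nat_lit 22751)
  (nat_lit 7) (node (nat_lit 4) (nat_lit 22751) (nat_lit 8) (node (nat_lit 5) (nat_lit 22751)
  (nat_lit 9) nil nil) nil) (node (nat_lit 0) (nat_lit 23469) (nat_lit 7) nil nil))))) nil)))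

noncomputable def t14 : Tr :=
  (node (nat_lit 5) (nat_lit 0) (nat_lit 4) (node (nat_lit 4) (nat_lit 47868) (nat_lit 5) (node
  (nat_lit 6) (nat_lit 51465) (nat_lit 6) (node (nat_lit 4) (nat_lit 60785) (nat_lit 7) (node
  (nat_lit 5) (nat_lit 68551) (nat_lit 8) (node (nat_lit 6) (nat_lit 66732) (nat_lit 9) (node
  (nat_lit 5) (nat_lit 61304) (nat_lit 10) (node (nat_lit 4) (nat_lit 21737) (nat_lit 11) (node
  (nat_lit 5) (nat_lit 21737) (nat_lit 12) (node (nat_lit 6) (nat_lit 22310) (nat_lit 13) (node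
  (nat_lit 4) (nat_lit 22310) (nat_lit 14) (node (nat_lit 6) (nat_lit 22375) (nat_lit 15) (node
  (nat_lit 5) (nat_lit 22375) (nat_lit 16) (node (nat_lit 6) (nat_lit 22414) (nat_lit 17) (node
  (nat_lit 4) (nat_lit 22414) (nat_lit 18) (node (nat_lit 5) (nat_lit 22414) (nat_lit 19) (node
  (nat_lit 6) (nat_lit 22446) (nat_lit 20) (node (nat_lit 5) (nat_lit 22446) (nat_lit 21) (node
  (nat_lit 4) (nat_lit 22446) (nat_lit 22) (node (nat_lit 6) (nat_lit 22461) (nat_lit 23) (node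
  (nat_lit 4) (nat_lit 22461) (nat_lit 24) (node (nat_lit 5) (nat_lit 22461) (nat_lit 25) nil nil)
  nil) nil) nil) nil) nil) nil) nil) (node (nat_lit 4) (nat_lit 22375) (nat_lit 17) (node (nat_lit
  6) (nat_lit 22427) (nat_lit 18) (node (nat_lit 4) (nat_lit 22427) (nat_lit 19) (node (nat_lit 5)
  (nat_lit 22427) (nat_lit 20) nil nil) nil) nil) nil)) nil) (node (nat_lit 5) (nat_lit 22310)
  (nat_lit 15) (node (nat_lit 4) (nat_lit 22310) (nat_lit 16) (node (nat_lit 6) (nat_lit 22414)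
  (nat_lit 17) (node (nat_lit 4) (nat_lit 22414) (nat_lit 18) (node (nat_lit 5) (nat_lit 22414)
  (nat_lit 19) (node (nat_lit 6) (nat_lit 22446) (nat_lit 20) (node (nat_lit 5) (nat_lit 22446)
  (nat_lit 21) (node (nat_lit 4) (nat_lit 22446) (nat_lit 22) (node (nat_lit 6) (nat_lit 22461)
  (nat_lit 23) nil nil) nil) nil) nil) nil) nil) nil) nil) nil)) (node (nat_lit 3) (nat_lit 22310)
  (nat_lit 14) (node (nat_lit 5) (nat_lit 22310) (nat_lit 15) (node (nat_lit 6) (nat_lit 22397)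
  (nat_lit 16) nil nil) (node (nat_lit 4) (nat_lit 22310) (nat_lit 15) nil (node (nat_lit 6)
  (nat_lit 22375) (nat_lit 15) nil nil))) (node (nat_lit 0) (nat_lit 22347) (nat_lit 14) nil
  nil))) (node (nat_lit 3) (nat_lit 21737) (nat_lit 13) (node (nat_lit 4) (nat_lit 21737) (nat_lit
  14) (node (nat_lit 5) (nat_lit 21737) (nat_lit 15) (node (nat_lit 6) (nat_lit 22102) (nat_lit
  16) (node (nat_lit 5) (nat_lit 22102) (nat_lit 17) nil nil) (node (nat_lit 4) (nat_lit 21737)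
  (nat_lit 16) (node (nat_lit 16) (nat_lit 21835) (nat_lit 17) nil nil) nil)) (node (nat_lit 6)
  (nat_lit 22079) (nat_lit 15) nil nil)) (node (nat_lit 5) (nat_lit 21737) (nat_lit 14) (node
  (nat_lit 4) (nat_lit 21737) (nat_lit 15) nil (node (nat_lit 6) (nat_lit 22079) (nat_lit 15) nil
  nil)) (node (nat_lit 6) (nat_lit 22051) (nat_lit 14) (node (nat_lit 4) (nat_lit 22051) (nat_lit
  15) nil nil) nil))) (node (nat_lit 0) (nat_lit 22310) (nat_lit 13) (node (nat_lit 4) (nat_lit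
  22310) (nat_lit 14) nil (node (nat_lit 5) (nat_lit 22310) (nat_lit 14) (node (nat_lit 6)
  (nat_lit 22375) (nat_lit 15) nil nil) (node (nat_lit 6) (nat_lit 22347) (nat_lit 14) (node
  (nat_lit 4) (nat_lit 22347) (nat_lit 15) nil nil) nil))) nil))) (node (nat_lit 3) (nat_lit
  21737) (nat_lit 12) (node (nat_lit 4) (nat_lit 21737) (nat_lit 13) (node (nat_lit 5) (nat_lit
  21737) (nat_lit 14) (node (nat_lit 6) (nat_lit 22079) (nat_lit 15) (node (nat_lit 5) (nat_lit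
  22079) (nat_lit 16) nil nil) nil) (node (nat_lit 6) (nat_lit 22051) (nat_lit 14) (node (nat_lit
  4) (nat_lit 22051) (nat_lit 15) nil nil) nil)) (node (nat_lit 5) (nat_lit 21737) (nat_lit 13)
  (node (nat_lit 6) (nat_lit 22051) (nat_lit 14) nil nil) (node (nat_lit 6) (nat_lit 22015)
  (nat_lit 13) (node (nat_lit 4) (nat_lit 22015) (nat_lit 14) nil nil) nil))) (node (nat_lit 0)
  (nat_lit 22216) (nat_lit 12) (node (nat_lit 4) (nat_lit 22216) (nat_lit 13) (node (nat_lit 6)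
  (nat_lit 22298) (nat_lit 14) nil nil) (node (nat_lit 5) (nat_lit 22216) (nat_lit 13) nil (node
  (nat_lit 6) (nat_lit 22262) (nat_lit 13) (node (nat_lit 4) (nat_lit 22262) (nat_lit 14) nil nil)
  nil))) nil))) (node (nat_lit 3) (nat_lit 60997) (nat_lit 11) nil nil)) (node (nat_lit 4)
  (nat_lit 67375) (nat_lit 10) (node (nat_lit 6) (nat_lit 69059) (nat_lit 11) (node (nat_lit 5)
  (nat_lit 69310) (nat_lit 12) (node (nat_lit 6) (nat_lit 69883) (nat_lit 13) (node (nat_lit 4)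
  (nat_lit 69883) (nat_lit 14) (node (nat_lit 5) (nat_lit 70079) (nat_lit 15) (node (nat_lit 6)
  (nat_lit 70351) (nat_lit 16) (node (nat_lit 5) (nat_lit 70351) (nat_lit 17) (node (nat_lit 4)
  (nat_lit 69657) (nat_lit 18) (node (nat_lit 6) (nat_lit 67965) (nat_lit 19) (node (nat_lit 4)
  (nat_lit 65706) (nat_lit 20) (node (nat_lit 5) (nat_lit 61623) (nat_lit 21) (node (nat_lit 6)
  (nat_lit 55834) (nat_lit 22) (node (nat_lit 4) (nat_lit 48558) (nat_lit 23) (node (nat_lit 6)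
  (nat_lit 34778) (nat_lit 24) (node (nat_lit 5) (nat_lit 22169) (nat_lit 25) nil nil) nil) nil)
  nil) nil) nil) nil) nil) nil) nil) nil) nil) nil) nil) (node (nat_lit 3) (nat_lit 67169)
  (nat_lit 11) (node (nat_lit 4) (nat_lit 66970) (nat_lit 12) nil nil) nil)) (node (nat_lit 0)
  (nat_lit 67972) (nat_lit 10) nil (node (nat_lit 3) (nat_lit 66577) (nat_lit 10) (node (nat_lit
  4) (nat_lit 66341) (nat_lit 11) (node (nat_lit 5) (nat_lit 66942) (nat_lit 12) nil nil) (node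
  (nat_lit 6) (nat_lit 67938) (nat_lit 11) nil nil)) nil)))) (node (nat_lit 4) (nat_lit 72460)
  (nat_lit 9) (node (nat_lit 6) (nat_lit 73590) (nat_lit 10) (node (nat_lit 5) (nat_lit 73468)
  (nat_lit 11) (node (nat_lit 6) (nat_lit 73728) (nat_lit 12) (node (nat_lit 4) (nat_lit 73666)
  (nat_lit 13) (node (nat_lit 5) (nat_lit 73226) (nat_lit 14) (node (nat_lit 6) (nat_lit 73096)
  (nat_lit 15) (node (nat_lit 5) (nat_lit 72165) (nat_lit 16) (node (nat_lit 4) (nat_lit 70682)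
  (nat_lit 17) (node (nat_lit 6) (nat_lit 69498) (nat_lit 18) (node (nat_lit 4) (nat_lit 68605)
  (nat_lit 19) (node (nat_lit 5) (nat_lit 67571) (nat_lit 20) (node (nat_lit 4) (nat_lit 60192)
  (nat_lit 21) (node (nat_lit 6) (nat_lit 33213) (nat_lit 22) (node (nat_lit 5) (nat_lit 21333)
  (nat_lit 23) nil nil) nil) nil) nil) nil) nil) nil) nil) nil) nil) nil) nil) nil) (node (nat_lit
  3) (nat_lit 74686) (nat_lit 10) nil nil)) (node (nat_lit 3) (nat_lit 72681) (nat_lit 9) (node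
  (nat_lit 4) (nat_lit 71753) (nat_lit 10) (node (nat_lit 5) (nat_lit 67069) (nat_lit 11) (node
  (nat_lit 6) (nat_lit 65651) (nat_lit 12) (node (nat_lit 5) (nat_lit 61640) (nat_lit 13) (node
  (nat_lit 4) (nat_lit 54614) (nat_lit 14) nil nil) nil) nil) nil) nil) (node (nat_lit 0) (nat_lit
  71057) (nat_lit 9) nil nil)))) (node (nat_lit 3) (nat_lit 74105) (nat_lit 8) (node (nat_lit 6)
  (nat_lit 75151) (nat_lit 9) nil (node (nat_lit 4) (nat_lit 74597) (nat_lit 9) (node (nat_lit 5)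
  (nat_lit 71884) (nat_lit 10) (node (nat_lit 6) (nat_lit 68406) (nat_lit 11) (node (nat_lit 5)
  (nat_lit 64513) (nat_lit 12) (node (nat_lit 4) (nat_lit 54828) (nat_lit 13) (node (nat_lit 6)
  (nat_lit 40130) (nat_lit 14) nil nil) nil) nil) nil) nil) nil)) (node (nat_lit 0) (nat_lit
  74105) (nat_lit 8) nil nil))) (node (nat_lit 3) (nat_lit 75389) (nat_lit 7) (node (nat_lit 4)
  (nat_lit 77510) (nat_lit 8) (node (nat_lit 5) (nat_lit 78556) (nat_lit 9) (node (nat_lit 6)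
  (nat_lit 79273) (nat_lit 10) nil nil) nil) (node (nat_lit 6) (nat_lit 74823) (nat_lit 8) nil
  nil)) (node (nat_lit 0) (nat_lit 73954) (nat_lit 7) (node (nat_lit 6) (nat_lit 76075) (nat_lit
  8) nil nil) (node (nat_lit 5) (nat_lit 61064) (nat_lit 7) (node (nat_lit 6) (nat_lit 69030)
  (nat_lit 8) (node (nat_lit 4) (nat_lit 72255) (nat_lit 9) (node (nat_lit 5) (nat_lit 72026)
  (nat_lit 10) (node (nat_lit 6) (nat_lit 71682) (nat_lit 11) (node (nat_lit 5) (nat_lit 67828)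
  (nat_lit 12) (node (nat_lit 4) (nat_lit 62419) (nat_lit 13) (node (nat_lit 6) (nat_lit 46851)
  (nat_lit 14) (node (nat_lit 4) (nat_lit 45739) (nat_lit 15) (node (nat_lit 5) (nat_lit 45197)
  (nat_lit 16) nil nil) nil) nil) nil) nil) (node (nat_lit 4) (nat_lit 71832) (nat_lit 11) (node
  (nat_lit 6) (nat_lit 72410) (nat_lit 12) (node (nat_lit 4) (nat_lit 72031) (nat_lit 13) (node
  (nat_lit 5) (nat_lit 71745) (nat_lit 14) (node (nat_lit 6) (nat_lit 71949) (nat_lit 15) (node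
  (nat_lit 5) (nat_lit 71776) (nat_lit 16) (node (nat_lit 4) (nat_lit 71641) (nat_lit 17) (node
  (nat_lit 6) (nat_lit 69810) (nat_lit 18) (node (nat_lit 5) (nat_lit 66629) (nat_lit 19) (node
  (nat_lit 6) (nat_lit 64552) (nat_lit 20) (node (nat_lit 4) (nat_lit 59877) (nat_lit 21) (node
  (nat_lit 5) (nat_lit 48145) (nat_lit 22) nil nil) nil) nil) nil) nil) nil) nil) nil) nil) nil)
  nil) nil)) nil) nil) (node (nat_lit 3) (nat_lit 63789) (nat_lit 8) nil nil)) nil)))) (node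
  (nat_lit 5) (nat_lit 51430) (nat_lit 6) (node (nat_lit 6) (nat_lit 61051) (nat_lit 7) (node
  (nat_lit 4) (nat_lit 70330) (nat_lit 8) (node (nat_lit 5) (nat_lit 71944) (nat_lit 9) nil (node
  (nat_lit 6) (nat_lit 72489) (nat_lit 9) (node (nat_lit 5) (nat_lit 71617) (nat_lit 10) (node
  (nat_lit 6) (nat_lit 72104) (nat_lit 11) (node (nat_lit 4) (nat_lit 71597) (nat_lit 12) (node
  (nat_lit 5) (nat_lit 71218) (nat_lit 13) (node (nat_lit 6) (nat_lit 71489) (nat_lit 14) (node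
  (nat_lit 5) (nat_lit 71269) (nat_lit 15) (node (nat_lit 4) (nat_lit 71095) (nat_lit 16) (node
  (nat_lit 5) (nat_lit 67565) (nat_lit 17) (node (nat_lit 6) (nat_lit 62009) (nat_lit 18) (node
  (nat_lit 4) (nat_lit 54723) (nat_lit 19) (node (nat_lit 6) (nat_lit 33173) (nat_lit 20) (node
  (nat_lit 5) (nat_lit 16871) (nat_lit 21) nil nil) nil) nil) nil) nil) nil) nil) nil) nil) nil)
  nil) nil) nil)) (node (nat_lit 3) (nat_lit 74677) (nat_lit 8) (node (nat_lit 4) (nat_lit 74116)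
  (nat_lit 9) (node (nat_lit 5) (nat_lit 74833) (nat_lit 10) (node (nat_lit 6) (nat_lit 75465)
  (nat_lit 11) nil nil) nil) nil) (node (nat_lit 0) (nat_lit 73893) (nat_lit 8) (node (nat_lit 6)
  (nat_lit 74939) (nat_lit 9) nil nil) nil))) (node (nat_lit 3) (nat_lit 73237) (nat_lit 7) (node
  (nat_lit 4) (nat_lit 70397) (nat_lit 8) (node (nat_lit 5) (nat_lit 69970) (nat_lit 9) (node
  (nat_lit 6) (nat_lit 54349) (nat_lit 10) (node (nat_lit 5) (nat_lit 42017) (nat_lit 11) (node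
  (nat_lit 4) (nat_lit 41447) (nat_lit 12) nil nil) nil) (node (nat_lit 4) (nat_lit 67960)
  (nat_lit 10) nil nil)) (node (nat_lit 10) (nat_lit 69836) (nat_lit 9) (node (nat_lit 6) (nat_lit
  69858) (nat_lit 10) nil nil) (node (nat_lit 6) (nat_lit 68472) (nat_lit 9) nil nil))) (node
  (nat_lit 6) (nat_lit 74583) (nat_lit 8) (node (nat_lit 4) (nat_lit 72429) (nat_lit 9) (node
  (nat_lit 5) (nat_lit 69874) (nat_lit 10) (node (nat_lit 6) (nat_lit 58708) (nat_lit 11) nil nil)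
  nil) nil) nil)) (node (nat_lit 0) (nat_lit 74289) (nat_lit 7) (node (nat_lit 6) (nat_lit 76410)
  (nat_lit 8) nil (node (nat_lit 3) (nat_lit 74160) (nat_lit 8) nil nil)) nil))) (node (nat_lit 3)
  (nat_lit 73909) (nat_lit 6) (node (nat_lit 6) (nat_lit 76884) (nat_lit 7) (node (nat_lit 4)
  (nat_lit 73521) (nat_lit 8) (node (nat_lit 5) (nat_lit 65206) (nat_lit 9) (node (nat_lit 6)
  (nat_lit 59441) (nat_lit 10) (node (nat_lit 5) (nat_lit 45670) (nat_lit 11) (node (nat_lit 4)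
  (nat_lit 31361) (nat_lit 12) nil nil) nil) nil) nil) nil) (node (nat_lit 4) (nat_lit 71084)
  (nat_lit 7) (node (nat_lit 5) (nat_lit 67843) (nat_lit 8) (node (nat_lit 6) (nat_lit 54349)
  (nat_lit 9) (node (nat_lit 5) (nat_lit 44273) (nat_lit 10) nil nil) nil) nil) (node (nat_lit 5)
  (nat_lit 74254) (nat_lit 7) nil nil))) (node (nat_lit 0) (nat_lit 71781) (nat_lit 6) (node
  (nat_lit 6) (nat_lit 75163) (nat_lit 7) nil (node (nat_lit 3) (nat_lit 75828) (nat_lit 7) nil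
  nil)) nil)))) (node (nat_lit 3) (nat_lit 63722) (nat_lit 5) (node (nat_lit 6) (nat_lit 72435)
  (nat_lit 6) (node (nat_lit 8) (nat_lit 78232) (nat_lit 7) (node (nat_lit 5) (nat_lit 78994)
  (nat_lit 8) (node (nat_lit 8) (nat_lit 76124) (nat_lit 9) (node (nat_lit 6) (nat_lit 76676)
  (nat_lit 10) nil nil) (node (nat_lit 6) (nat_lit 78016) (nat_lit 9) (node (nat_lit 5) (nat_lit
  78016) (nat_lit 10) (node (nat_lit 8) (nat_lit 77648) (nat_lit 11) nil nil) nil) nil)) (node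
  (nat_lit 4) (nat_lit 77987) (nat_lit 8) (node (nat_lit 5) (nat_lit 78930) (nat_lit 9) (node
  (nat_lit 6) (nat_lit 79647) (nat_lit 10) nil nil) nil) nil)) (node (nat_lit 4) (nat_lit 75828)
  (nat_lit 7) (node (nat_lit 8) (nat_lit 77479) (nat_lit 8) (node (nat_lit 4) (nat_lit 76275)
  (nat_lit 9) (node (nat_lit 5) (nat_lit 73810) (nat_lit 10) (node (nat_lit 6) (nat_lit 69868)
  (nat_lit 11) nil nil) nil) nil) (node (nat_lit 5) (nat_lit 72604) (nat_lit 8) (node (nat_lit 6)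
  (nat_lit 57454) (nat_lit 9) (node (nat_lit 5) (nat_lit 36564) (nat_lit 10) (node (nat_lit 4)
  (nat_lit 35720) (nat_lit 11) nil nil) nil) (node (nat_lit 8) (nat_lit 71215) (nat_lit 9) nil
  nil)) nil)) (node (nat_lit 0) (nat_lit 78028) (nat_lit 7) nil nil))) (node (nat_lit 4) (nat_lit
  73069) (nat_lit 6) (node (nat_lit 5) (nat_lit 61340) (nat_lit 7) (node (nat_lit 4) (nat_lit
  63369) (nat_lit 8) (node (nat_lit 8) (nat_lit 60636) (nat_lit 9) (node (nat_lit 4) (nat_lit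
  58306) (nat_lit 10) nil nil) (node (nat_lit 6) (nat_lit 61483) (nat_lit 9) nil nil)) (node
  (nat_lit 6) (nat_lit 43466) (nat_lit 8) nil nil)) (node (nat_lit 6) (nat_lit 74463) (nat_lit 7)
  (node (nat_lit 4) (nat_lit 72003) (nat_lit 8) (node (nat_lit 5) (nat_lit 68926) (nat_lit 9)
  (node (nat_lit 6) (nat_lit 63318) (nat_lit 10) (node (nat_lit 5) (nat_lit 56683) (nat_lit 11)
  (node (nat_lit 8) (nat_lit 29381) (nat_lit 12) nil nil) nil) nil) nil) (node (nat_lit 8)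
  (nat_lit 73768) (nat_lit 8) nil nil)) (node (nat_lit 8) (nat_lit 75805) (nat_lit 7) nil nil)))
  (node (nat_lit 5) (nat_lit 71039) (nat_lit 6) (node (nat_lit 6) (nat_lit 74473) (nat_lit 7) nil
  nil) (node (nat_lit 0) (nat_lit 75362) (nat_lit 6) nil nil)))) (node (nat_lit 0) (nat_lit 70277)
  (nat_lit 5) (node (nat_lit 6) (nat_lit 75049) (nat_lit 6) (node (nat_lit 4) (nat_lit 74086)
  (nat_lit 7) (node (nat_lit 5) (nat_lit 73174) (nat_lit 8) nil nil) nil) (node (nat_lit 4)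
  (nat_lit 72656) (nat_lit 6) nil (node (nat_lit 5) (nat_lit 72032) (nat_lit 6) (node (nat_lit 6)
  (nat_lit 75111) (nat_lit 7) nil nil) (node (nat_lit 3) (nat_lit 75049) (nat_lit 6) (node
  (nat_lit 4) (nat_lit 75702) (nat_lit 7) nil nil) nil)))) nil))) (node (nat_lit 3) (nat_lit 0)
  (nat_lit 4) (node (nat_lit 4) (nat_lit 71026) (nat_lit 5) (node (nat_lit 5) (nat_lit 76324)
  (nat_lit 6) (node (nat_lit 6) (nat_lit 42803) (nat_lit 7) nil nil) (node (nat_lit 6) (nat_lit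
  72343) (nat_lit 6) (node (nat_lit 4) (nat_lit 70708) (nat_lit 7) (node (nat_lit 7) (nat_lit
  71472) (nat_lit 8) (node (nat_lit 4) (nat_lit 67379) (nat_lit 9) (node (nat_lit 5) (nat_lit
  65753) (nat_lit 10) (node (nat_lit 6) (nat_lit 63209) (nat_lit 11) (node (nat_lit 7) (nat_lit
  56699) (nat_lit 12) (node (nat_lit 4) (nat_lit 47280) (nat_lit 13) (node (nat_lit 6) (nat_lit
  40113) (nat_lit 14) nil nil) nil) nil) nil) nil) nil) (node (nat_lit 5) (nat_lit 64407) (nat_lit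
  8) (node (nat_lit 6) (nat_lit 62011) (nat_lit 9) (node (nat_lit 7) (nat_lit 56075) (nat_lit 10)
  nil nil) nil) nil)) (node (nat_lit 7) (nat_lit 76324) (nat_lit 7) (node (nat_lit 6) (nat_lit
  76545) (nat_lit 8) nil nil) nil)) (node (nat_lit 7) (nat_lit 76694) (nat_lit 6) (node (nat_lit
  6) (nat_lit 78839) (nat_lit 7) (node (nat_lit 4) (nat_lit 78839) (nat_lit 8) (node (nat_lit 5)
  (nat_lit 73290) (nat_lit 9) nil nil) nil) (node (nat_lit 5) (nat_lit 74777) (nat_lit 7) nil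
  nil)) nil))) (node (nat_lit 5) (nat_lit 64815) (nat_lit 5) (node (nat_lit 7) (nat_lit 69841)
  (nat_lit 6) (node (nat_lit 6) (nat_lit 74458) (nat_lit 7) (node (nat_lit 7) (nat_lit 77758)
  (nat_lit 8) (node (nat_lit 0) (nat_lit 80187) (nat_lit 9) (node (nat_lit 6) (nat_lit 80420)
  (nat_lit 10) (node (nat_lit 7) (nat_lit 80420) (nat_lit 11) nil nil) (node (nat_lit 7) (nat_lit
  80048) (nat_lit 10) nil nil)) (node (nat_lit 4) (nat_lit 79880) (nat_lit 9) (node (nat_lit 6)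
  (nat_lit 80227) (nat_lit 10) (node (nat_lit 7) (nat_lit 79976) (nat_lit 11) nil (node (nat_lit
  4) (nat_lit 79282) (nat_lit 11) (node (nat_lit 5) (nat_lit 74895) (nat_lit 12) (node (nat_lit 6)
  (nat_lit 74222) (nat_lit 13) (node (nat_lit 7) (nat_lit 71362) (nat_lit 14) (node (nat_lit 5)
  (nat_lit 66900) (nat_lit 15) (node (nat_lit 7) (nat_lit 59262) (nat_lit 16) nil nil) nil) nil)
  nil) nil) nil)) (node (nat_lit 5) (nat_lit 80187) (nat_lit 10) (node (nat_lit 6) (nat_lit 80627)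
  (nat_lit 11) (node (nat_lit 7) (nat_lit 80627) (nat_lit 12) (node (nat_lit 5) (nat_lit 80218)
  (nat_lit 13) nil nil) nil) nil) nil)) nil)) (node (nat_lit 5) (nat_lit 76371) (nat_lit 8) (node
  (nat_lit 6) (nat_lit 78533) (nat_lit 9) (node (nat_lit 7) (nat_lit 77728) (nat_lit 10) (node
  (nat_lit 6) (nat_lit 78028) (nat_lit 11) nil nil) nil) (node (nat_lit 7) (nat_lit 75513)
  (nat_lit 9) nil nil)) (node (nat_lit 4) (nat_lit 76992) (nat_lit 8) (node (nat_lit 5) (nat_lit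
  74283) (nat_lit 9) (node (nat_lit 6) (nat_lit 63146) (nat_lit 10) (node (nat_lit 7) (nat_lit
  53409) (nat_lit 11) (node (nat_lit 5) (nat_lit 36170) (nat_lit 12) nil nil) nil) nil) nil)
  nil))) (node (nat_lit 4) (nat_lit 73870) (nat_lit 7) (node (nat_lit 5) (nat_lit 72371) (nat_lit
  8) (node (nat_lit 6) (nat_lit 63567) (nat_lit 9) (node (nat_lit 7) (nat_lit 51185) (nat_lit 10)
  (node (nat_lit 5) (nat_lit 42228) (nat_lit 11) nil (node (nat_lit 4) (nat_lit 50795) (nat_lit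
  11) nil nil)) nil) (node (nat_lit 4) (nat_lit 72883) (nat_lit 9) (node (nat_lit 7) (nat_lit
  71928) (nat_lit 10) (node (nat_lit 4) (nat_lit 69122) (nat_lit 11) (node (nat_lit 5) (nat_lit
  68532) (nat_lit 12) nil nil) nil) (node (nat_lit 6) (nat_lit 73303) (nat_lit 10) nil nil)) nil))
  (node (nat_lit 7) (nat_lit 73690) (nat_lit 8) (node (nat_lit 6) (nat_lit 74279) (nat_lit 9) nil
  nil) (node (nat_lit 6) (nat_lit 75528) (nat_lit 8) (node (nat_lit 4) (nat_lit 74501) (nat_lit 9)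
  nil nil) nil))) (node (nat_lit 0) (nat_lit 77390) (nat_lit 7) nil nil))) (node (nat_lit 4)
  (nat_lit 76889) (nat_lit 6) (node (nat_lit 6) (nat_lit 79607) (nat_lit 7) (node (nat_lit 4)
  (nat_lit 78965) (nat_lit 8) (node (nat_lit 5) (nat_lit 73312) (nat_lit 9) (node (nat_lit 6)
  (nat_lit 67704) (nat_lit 10) (node (nat_lit 7) (nat_lit 60875) (nat_lit 11) (node (nat_lit 5)
  (nat_lit 52259) (nat_lit 12) nil nil) nil) (node (nat_lit 7) (nat_lit 72394) (nat_lit 10) nil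
  nil)) (node (nat_lit 7) (nat_lit 78498) (nat_lit 9) nil nil)) (node (nat_lit 7) (nat_lit 79607)
  (nat_lit 8) (node (nat_lit 4) (nat_lit 80032) (nat_lit 9) (node (nat_lit 5) (nat_lit 80339)
  (nat_lit 10) (node (nat_lit 6) (nat_lit 80779) (nat_lit 11) nil nil) nil) nil) nil)) (node
  (nat_lit 7) (nat_lit 77715) (nat_lit 7) (node (nat_lit 5) (nat_lit 78786) (nat_lit 8) (node
  (nat_lit 7) (nat_lit 76170) (nat_lit 9) (node (nat_lit 4) (nat_lit 74744) (nat_lit 10) (node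
  (nat_lit 5) (nat_lit 73429) (nat_lit 11) nil nil) nil) (node (nat_lit 6) (nat_lit 78061)
  (nat_lit 9) (node (nat_lit 4) (nat_lit 77057) (nat_lit 10) nil nil) nil)) (node (nat_lit 4)
  (nat_lit 75712) (nat_lit 8) (node (nat_lit 5) (nat_lit 73397) (nat_lit 9) (node (nat_lit 6)
  (nat_lit 58203) (nat_lit 10) (node (nat_lit 7) (nat_lit 50247) (nat_lit 11) (node (nat_lit 5)
  (nat_lit 42954) (nat_lit 12) nil nil) nil) nil) (node (nat_lit 6) (nat_lit 75439) (nat_lit 9)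
  nil nil)) (node (nat_lit 6) (nat_lit 77913) (nat_lit 8) nil nil))) (node (nat_lit 5) (nat_lit
  79403) (nat_lit 7) (node (nat_lit 7) (nat_lit 76457) (nat_lit 8) (node (nat_lit 6) (nat_lit
  77186) (nat_lit 9) nil nil) nil) nil))) (node (nat_lit 6) (nat_lit 72227) (nat_lit 6) (node
  (nat_lit 5) (nat_lit 75440) (nat_lit 7) (node (nat_lit 7) (nat_lit 74155) (nat_lit 8) (node
  (nat_lit 6) (nat_lit 75640) (nat_lit 9) (node (nat_lit 7) (nat_lit 75640) (nat_lit 10) nil nil)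
  nil) nil) (node (nat_lit 4) (nat_lit 72932) (nat_lit 7) (node (nat_lit 5) (nat_lit 64026)
  (nat_lit 8) (node (nat_lit 6) (nat_lit 59765) (nat_lit 9) (node (nat_lit 7) (nat_lit 32009)
  (nat_lit 10) nil nil) nil) nil) nil)) (node (nat_lit 0) (nat_lit 77248) (nat_lit 6) (node
  (nat_lit 5) (nat_lit 78735) (nat_lit 7) (node (nat_lit 6) (nat_lit 76021) (nat_lit 8) nil (node
  (nat_lit 7) (nat_lit 76672) (nat_lit 8) nil nil)) (node (nat_lit 7) (nat_lit 78923) (nat_lit 7)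
  nil (node (nat_lit 6) (nat_lit 79619) (nat_lit 7) nil nil))) nil)))) (node (nat_lit 6) (nat_lit
  0) (nat_lit 5) (node (nat_lit 4) (nat_lit 73050) (nat_lit 6) (node (nat_lit 7) (nat_lit 75523)
  (nat_lit 7) (node (nat_lit 4) (nat_lit 76454) (nat_lit 8) (node (nat_lit 6) (nat_lit 76441)
  (nat_lit 9) nil (node (nat_lit 5) (nat_lit 72370) (nat_lit 9) (node (nat_lit 6) (nat_lit 69550)
  (nat_lit 10) (node (nat_lit 7) (nat_lit 61171) (nat_lit 11) (node (nat_lit 6) (nat_lit 41058)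
  (nat_lit 12) nil (node (nat_lit 4) (nat_lit 60896) (nat_lit 12) nil nil)) nil) nil) nil)) nil)
  (node (nat_lit 5) (nat_lit 70057) (nat_lit 7) (node (nat_lit 6) (nat_lit 40200) (nat_lit 8)
  (node (nat_lit 5) (nat_lit 40560) (nat_lit 9) (node (nat_lit 7) (nat_lit 39449) (nat_lit 10)
  (node (nat_lit 4) (nat_lit 36944) (nat_lit 11) nil nil) nil) (node (nat_lit 7) (nat_lit 17363)
  (nat_lit 9) (node (nat_lit 4) (nat_lit 17363) (nat_lit 10) nil nil) (node (nat_lit 4) (nat_lit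
  40851) (nat_lit 9) (node (nat_lit 7) (nat_lit 41365) (nat_lit 10) nil nil) nil))) nil) (node
  (nat_lit 6) (nat_lit 75123) (nat_lit 7) (node (nat_lit 7) (nat_lit 74428) (nat_lit 8) nil nil)
  nil))) (node (nat_lit 5) (nat_lit 68329) (nat_lit 6) (node (nat_lit 7) (nat_lit 72163) (nat_lit
  7) (node (nat_lit 5) (nat_lit 74498) (nat_lit 8) (node (nat_lit 6) (nat_lit 76327) (nat_lit 9)
  nil nil) (node (nat_lit 6) (nat_lit 74362) (nat_lit 8) nil (node (nat_lit 4) (nat_lit 71502)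
  (nat_lit 8) (node (nat_lit 5) (nat_lit 68526) (nat_lit 9) (node (nat_lit 6) (nat_lit 61833)
  (nat_lit 10) (node (nat_lit 7) (nat_lit 50276) (nat_lit 11) (node (nat_lit 6) (nat_lit 37750)
  (nat_lit 12) nil nil) nil) nil) nil) nil))) (node (nat_lit 6) (nat_lit 71250) (nat_lit 7) (node
  (nat_lit 7) (nat_lit 73586) (nat_lit 8) nil (node (nat_lit 4) (nat_lit 74441) (nat_lit 8) (node
  (nat_lit 5) (nat_lit 67328) (nat_lit 9) (node (nat_lit 6) (nat_lit 67680) (nat_lit 10) (node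
  (nat_lit 7) (nat_lit 47749) (nat_lit 11) (node (nat_lit 6) (nat_lit 36971) (nat_lit 12) nil nil)
  nil) nil) (node (nat_lit 7) (nat_lit 70740) (nat_lit 9) nil nil)) nil)) (node (nat_lit 4)
  (nat_lit 74783) (nat_lit 7) (node (nat_lit 6) (nat_lit 75760) (nat_lit 8) (node (nat_lit 7)
  (nat_lit 75760) (nat_lit 9) nil nil) (node (nat_lit 7) (nat_lit 70754) (nat_lit 8) nil nil))
  (node (nat_lit 0) (nat_lit 75011) (nat_lit 7) nil nil)))) (node (nat_lit 0) (nat_lit 72891)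
  (nat_lit 6) (node (nat_lit 7) (nat_lit 72217) (nat_lit 7) (node (nat_lit 6) (nat_lit 72249)
  (nat_lit 8) nil nil) (node (nat_lit 6) (nat_lit 74964) (nat_lit 7) nil nil)) nil))) (node
  (nat_lit 0) (nat_lit 72042) (nat_lit 5) (node (nat_lit 6) (nat_lit 77181) (nat_lit 6) (node
  (nat_lit 4) (nat_lit 76217) (nat_lit 7) (node (nat_lit 5) (nat_lit 75305) (nat_lit 8) nil nil)
  nil) (node (nat_lit 7) (nat_lit 75637) (nat_lit 6) (node (nat_lit 6) (nat_lit 78283) (nat_lit 7)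
  nil (node (nat_lit 4) (nat_lit 75302) (nat_lit 7) nil nil)) (node (nat_lit 5) (nat_lit 72922)
  (nat_lit 6) (node (nat_lit 7) (nat_lit 70568) (nat_lit 7) nil nil) nil))) nil)))) (node (nat_lit
  0) (nat_lit 0) (nat_lit 4) (node (nat_lit 5) (nat_lit 73835) (nat_lit 5) (node (nat_lit 7)
  (nat_lit 76875) (nat_lit 6) nil (node (nat_lit 6) (nat_lit 76875) (nat_lit 6) (node (nat_lit 4)
  (nat_lit 73444) (nat_lit 7) (node (nat_lit 5) (nat_lit 66809) (nat_lit 8) (node (nat_lit 6)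
  (nat_lit 59073) (nat_lit 9) (node (nat_lit 7) (nat_lit 35197) (nat_lit 10) nil nil) nil) nil)
  nil) (node (nat_lit 4) (nat_lit 72796) (nat_lit 6) nil (node (nat_lit 3) (nat_lit 74115)
  (nat_lit 6) nil nil)))) (node (nat_lit 6) (nat_lit 74648) (nat_lit 5) (node (nat_lit 5) (nat_lit
  73609) (nat_lit 6) nil (node (nat_lit 4) (nat_lit 73609) (nat_lit 6) (node (nat_lit 5) (nat_lit
  72645) (nat_lit 7) (node (nat_lit 6) (nat_lit 74009) (nat_lit 8) (node (nat_lit 7) (nat_lit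
  18833) (nat_lit 9) nil nil) nil) nil) nil)) (node (nat_lit 4) (nat_lit 75272) (nat_lit 5) (node
  (nat_lit 6) (nat_lit 77800) (nat_lit 6) (node (nat_lit 4) (nat_lit 73979) (nat_lit 7) nil nil)
  nil) (node (nat_lit 3) (nat_lit 71707) (nat_lit 5) (node (nat_lit 6) (nat_lit 76650) (nat_lit 6)
  nil (node (nat_lit 7) (nat_lit 74747) (nat_lit 6) (node (nat_lit 6) (nat_lit 76820) (nat_lit 7)
  (node (nat_lit 8) (nat_lit 76124) (nat_lit 8) nil nil) nil) (node (nat_lit 4) (nat_lit 73866)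
  (nat_lit 6) nil nil))) (node (nat_lit 0) (nat_lit 73695) (nat_lit 5) (node (nat_lit 6) (nat_lit
  76735) (nat_lit 6) nil (node (nat_lit 3) (nat_lit 72879) (nat_lit 6) nil nil)) nil))))) nil)))

noncomputable def t15 : Tr :=
  (node (nat_lit 6) (nat_lit 46274) (nat_lit 5) (node (nat_lit 5) (nat_lit 52811) (nat_lit 6)
  (node (nat_lit 6) (nat_lit 52909) (nat_lit 7) (node (nat_lit 0) (nat_lit 62045) (nat_lit 8) nil
  (node (nat_lit 1) (nat_lit 61510) (nat_lit 8) (node (nat_lit 5) (nat_lit 62660) (nat_lit 9) nil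
  (node (nat_lit 6) (nat_lit 62556) (nat_lit 9) nil (node (nat_lit 4) (nat_lit 60949) (nat_lit 9)
  (node (nat_lit 5) (nat_lit 61400) (nat_lit 10) (node (nat_lit 6) (nat_lit 58339) (nat_lit 11)
  (node (nat_lit 4) (nat_lit 51739) (nat_lit 12) (node (nat_lit 6) (nat_lit 28069) (nat_lit 13)
  (node (nat_lit 5) (nat_lit 17110) (nat_lit 14) nil nil) nil) nil) nil) nil) nil))) (node
  (nat_lit 4) (nat_lit 59070) (nat_lit 8) (node (nat_lit 5) (nat_lit 61593) (nat_lit 9) (node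
  (nat_lit 4) (nat_lit 60124) (nat_lit 10) (node (nat_lit 6) (nat_lit 59577) (nat_lit 11) (node
  (nat_lit 4) (nat_lit 59063) (nat_lit 12) (node (nat_lit 5) (nat_lit 58651) (nat_lit 13) (node
  (nat_lit 6) (nat_lit 57191) (nat_lit 14) (node (nat_lit 4) (nat_lit 56007) (nat_lit 15) (node
  (nat_lit 6) (nat_lit 53029) (nat_lit 16) (node (nat_lit 5) (nat_lit 50989) (nat_lit 17) (node
  (nat_lit 6) (nat_lit 44731) (nat_lit 18) (node (nat_lit 4) (nat_lit 40908) (nat_lit 19) (node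
  (nat_lit 5) (nat_lit 40824) (nat_lit 20) nil nil) nil) nil) nil) nil) nil) nil) nil) nil) nil)
  (node (nat_lit 6) (nat_lit 61696) (nat_lit 10) nil nil)) (node (nat_lit 1) (nat_lit 60622)
  (nat_lit 9) (node (nat_lit 5) (nat_lit 60393) (nat_lit 10) nil nil) (node (nat_lit 0) (nat_lit
  60622) (nat_lit 9) nil nil))) nil))) (node (nat_lit 4) (nat_lit 52965) (nat_lit 7) (node
  (nat_lit 6) (nat_lit 58973) (nat_lit 8) (node (nat_lit 4) (nat_lit 60771) (nat_lit 9) (node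
  (nat_lit 5) (nat_lit 56615) (nat_lit 10) (node (nat_lit 6) (nat_lit 56615) (nat_lit 11) (node
  (nat_lit 4) (nat_lit 44803) (nat_lit 12) (node (nat_lit 6) (nat_lit 45043) (nat_lit 13) (node
  (nat_lit 5) (nat_lit 44672) (nat_lit 14) nil nil) (node (nat_lit 1) (nat_lit 45043) (nat_lit 13)
  (node (nat_lit 4) (nat_lit 45229) (nat_lit 14) (node (nat_lit 5) (nat_lit 43736) (nat_lit 15)
  nil nil) (node (nat_lit 6) (nat_lit 45229) (nat_lit 14) nil nil)) (node (nat_lit 0) (nat_lit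
  45043) (nat_lit 13) nil nil))) nil) (node (nat_lit 4) (nat_lit 56558) (nat_lit 11) (node
  (nat_lit 6) (nat_lit 55915) (nat_lit 12) nil nil) nil)) nil) (node (nat_lit 1) (nat_lit 60507)
  (nat_lit 9) (node (nat_lit 4) (nat_lit 56114) (nat_lit 10) nil nil) nil)) (node (nat_lit 5)
  (nat_lit 59918) (nat_lit 8) (node (nat_lit 6) (nat_lit 61299) (nat_lit 9) (node (nat_lit 5)
  (nat_lit 62643) (nat_lit 10) (node (nat_lit 4) (nat_lit 63045) (nat_lit 11) (node (nat_lit 6)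
  (nat_lit 63100) (nat_lit 12) (node (nat_lit 4) (nat_lit 61108) (nat_lit 13) (node (nat_lit 5)
  (nat_lit 60979) (nat_lit 14) (node (nat_lit 6) (nat_lit 60031) (nat_lit 15) (node (nat_lit 4)
  (nat_lit 58842) (nat_lit 16) (node (nat_lit 6) (nat_lit 57676) (nat_lit 17) (node (nat_lit 5)
  (nat_lit 54936) (nat_lit 18) (node (nat_lit 4) (nat_lit 52843) (nat_lit 19) (node (nat_lit 5)
  (nat_lit 45419) (nat_lit 20) (node (nat_lit 6) (nat_lit 42864) (nat_lit 21) nil nil) nil) nil)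
  nil) nil) nil) nil) nil) nil) nil) nil) (node (nat_lit 4) (nat_lit 62327) (nat_lit 10) (node
  (nat_lit 5) (nat_lit 62725) (nat_lit 11) nil nil) (node (nat_lit 1) (nat_lit 62133) (nat_lit 10)
  nil nil))) (node (nat_lit 1) (nat_lit 61247) (nat_lit 9) (node (nat_lit 4) (nat_lit 60508)
  (nat_lit 10) (node (nat_lit 5) (nat_lit 56914) (nat_lit 11) (node (nat_lit 6) (nat_lit 53836)
  (nat_lit 12) (node (nat_lit 4) (nat_lit 50568) (nat_lit 13) (node (nat_lit 6) (nat_lit 44271)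
  (nat_lit 14) (node (nat_lit 5) (nat_lit 31061) (nat_lit 15) nil nil) nil) nil) nil) nil) nil)
  (node (nat_lit 0) (nat_lit 61247) (nat_lit 9) nil nil))) (node (nat_lit 1) (nat_lit 61468)
  (nat_lit 8) (node (nat_lit 6) (nat_lit 62514) (nat_lit 9) (node (nat_lit 4) (nat_lit 61799)
  (nat_lit 10) nil (node (nat_lit 11) (nat_lit 60980) (nat_lit 10) nil nil)) (node (nat_lit 4)
  (nat_lit 60906) (nat_lit 9) (node (nat_lit 5) (nat_lit 61357) (nat_lit 10) (node (nat_lit 6)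
  (nat_lit 58898) (nat_lit 11) (node (nat_lit 4) (nat_lit 52046) (nat_lit 12) (node (nat_lit 6)
  (nat_lit 42302) (nat_lit 13) (node (nat_lit 5) (nat_lit 24014) (nat_lit 14) nil nil) nil) nil)
  nil) (node (nat_lit 6) (nat_lit 59549) (nat_lit 10) nil nil)) (node (nat_lit 5) (nat_lit 62617)
  (nat_lit 9) (node (nat_lit 6) (nat_lit 62235) (nat_lit 10) (node (nat_lit 4) (nat_lit 61699)
  (nat_lit 11) nil nil) nil) nil))) (node (nat_lit 0) (nat_lit 62045) (nat_lit 8) (node (nat_lit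
  1) (nat_lit 62617) (nat_lit 9) nil (node (nat_lit 6) (nat_lit 61314) (nat_lit 9) (node (nat_lit
  4) (nat_lit 60600) (nat_lit 10) nil nil) nil)) nil)))) (node (nat_lit 1) (nat_lit 59468)
  (nat_lit 7) (node (nat_lit 6) (nat_lit 61589) (nat_lit 8) (node (nat_lit 4) (nat_lit 60873)
  (nat_lit 9) (node (nat_lit 5) (nat_lit 60158) (nat_lit 10) (node (nat_lit 6) (nat_lit 59622)
  (nat_lit 11) nil nil) nil) (node (nat_lit 5) (nat_lit 62635) (nat_lit 9) nil (node (nat_lit 10)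
  (nat_lit 59766) (nat_lit 9) nil nil))) (node (nat_lit 4) (nat_lit 60242) (nat_lit 8) (node
  (nat_lit 5) (nat_lit 56673) (nat_lit 9) (node (nat_lit 6) (nat_lit 37484) (nat_lit 10) (node
  (nat_lit 4) (nat_lit 27305) (nat_lit 11) (node (nat_lit 6) (nat_lit 7314) (nat_lit 12) nil nil)
  nil) nil) nil) (node (nat_lit 5) (nat_lit 61589) (nat_lit 8) nil nil))) (node (nat_lit 0)
  (nat_lit 59975) (nat_lit 7) (node (nat_lit 6) (nat_lit 60893) (nat_lit 8) (node (nat_lit 4)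
  (nat_lit 60163) (nat_lit 9) (node (nat_lit 5) (nat_lit 59448) (nat_lit 10) nil nil) nil) (node
  (nat_lit 4) (nat_lit 58643) (nat_lit 8) (node (nat_lit 6) (nat_lit 56345) (nat_lit 9) nil nil)
  (node (nat_lit 1) (nat_lit 62096) (nat_lit 8) (node (nat_lit 4) (nat_lit 61131) (nat_lit 9) nil
  nil) (node (nat_lit 5) (nat_lit 59819) (nat_lit 8) nil nil)))) nil)))) (node (nat_lit 1)
  (nat_lit 51579) (nat_lit 6) (node (nat_lit 4) (nat_lit 54878) (nat_lit 7) (node (nat_lit 9)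
  (nat_lit 56998) (nat_lit 8) (node (nat_lit 6) (nat_lit 58045) (nat_lit 9) (node (nat_lit 9)
  (nat_lit 59332) (nat_lit 10) (node (nat_lit 4) (nat_lit 60255) (nat_lit 11) (node (nat_lit 6)
  (nat_lit 59532) (nat_lit 12) nil (node (nat_lit 5) (nat_lit 57301) (nat_lit 12) (node (nat_lit
  6) (nat_lit 54906) (nat_lit 13) (node (nat_lit 4) (nat_lit 52493) (nat_lit 14) (node (nat_lit 6)
  (nat_lit 48414) (nat_lit 15) (node (nat_lit 9) (nat_lit 42804) (nat_lit 16) (node (nat_lit 4)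
  (nat_lit 35283) (nat_lit 17) nil nil) nil) nil) nil) nil) nil)) (node (nat_lit 5) (nat_lit
  58796) (nat_lit 11) nil nil)) (node (nat_lit 4) (nat_lit 58355) (nat_lit 10) (node (nat_lit 5)
  (nat_lit 57819) (nat_lit 11) (node (nat_lit 6) (nat_lit 57454) (nat_lit 12) (node (nat_lit 4)
  (nat_lit 57192) (nat_lit 13) (node (nat_lit 6) (nat_lit 56998) (nat_lit 14) (node (nat_lit 9)
  (nat_lit 57162) (nat_lit 15) nil nil) nil) nil) nil) nil) nil)) (node (nat_lit 0) (nat_lit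
  58045) (nat_lit 9) nil nil)) (node (nat_lit 6) (nat_lit 56684) (nat_lit 8) (node (nat_lit 4)
  (nat_lit 57011) (nat_lit 9) (node (nat_lit 5) (nat_lit 52768) (nat_lit 10) nil nil) (node
  (nat_lit 5) (nat_lit 55953) (nat_lit 9) nil nil)) (node (nat_lit 5) (nat_lit 54367) (nat_lit 8)
  (node (nat_lit 6) (nat_lit 45403) (nat_lit 9) (node (nat_lit 4) (nat_lit 20748) (nat_lit 10)
  (node (nat_lit 9) (nat_lit 21055) (nat_lit 11) (node (nat_lit 4) (nat_lit 20486) (nat_lit 12)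
  nil (node (nat_lit 6) (nat_lit 21334) (nat_lit 12) nil nil)) (node (nat_lit 5) (nat_lit 21055)
  (nat_lit 11) nil nil)) (node (nat_lit 5) (nat_lit 46283) (nat_lit 10) (node (nat_lit 9) (nat_lit
  45307) (nat_lit 11) nil nil) (node (nat_lit 9) (nat_lit 46283) (nat_lit 10) nil (node (nat_lit
  0) (nat_lit 46120) (nat_lit 10) nil nil)))) (node (nat_lit 9) (nat_lit 55413) (nat_lit 9) (node
  (nat_lit 6) (nat_lit 56130) (nat_lit 10) (node (nat_lit 9) (nat_lit 55154) (nat_lit 11) nil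
  (node (nat_lit 4) (nat_lit 55594) (nat_lit 11) nil nil)) nil) (node (nat_lit 4) (nat_lit 55413)
  (nat_lit 9) (node (nat_lit 9) (nat_lit 56130) (nat_lit 10) (node (nat_lit 4) (nat_lit 52875)
  (nat_lit 11) nil nil) (node (nat_lit 6) (nat_lit 56130) (nat_lit 10) nil nil)) (node (nat_lit 0)
  (nat_lit 55413) (nat_lit 9) nil nil)))) (node (nat_lit 0) (nat_lit 60373) (nat_lit 8) (node
  (nat_lit 6) (nat_lit 59642) (nat_lit 9) nil (node (nat_lit 9) (nat_lit 61419) (nat_lit 9) nil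
  nil)) nil)))) (node (nat_lit 6) (nat_lit 54878) (nat_lit 7) (node (nat_lit 4) (nat_lit 56842)
  (nat_lit 8) (node (nat_lit 9) (nat_lit 56322) (nat_lit 9) nil (node (nat_lit 5) (nat_lit 56112)
  (nat_lit 9) (node (nat_lit 6) (nat_lit 55397) (nat_lit 10) (node (nat_lit 4) (nat_lit 54861)
  (nat_lit 11) (node (nat_lit 6) (nat_lit 54496) (nat_lit 12) nil nil) nil) nil) nil)) (node
  (nat_lit 5) (nat_lit 61145) (nat_lit 8) (node (nat_lit 6) (nat_lit 62191) (nat_lit 9) (node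
  (nat_lit 4) (nat_lit 61477) (nat_lit 10) nil (node (nat_lit 9) (nat_lit 60848) (nat_lit 10) nil
  nil)) nil) (node (nat_lit 0) (nat_lit 56998) (nat_lit 8) nil nil))) (node (nat_lit 5) (nat_lit
  58564) (nat_lit 7) (node (nat_lit 6) (nat_lit 60812) (nat_lit 8) (node (nat_lit 5) (nat_lit
  62388) (nat_lit 9) (node (nat_lit 9) (nat_lit 63105) (nat_lit 10) (node (nat_lit 6) (nat_lit
  62569) (nat_lit 11) (node (nat_lit 9) (nat_lit 63014) (nat_lit 12) nil nil) nil) (node (nat_lit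
  4) (nat_lit 62164) (nat_lit 10) (node (nat_lit 9) (nat_lit 62129) (nat_lit 11) nil (node
  (nat_lit 6) (nat_lit 60961) (nat_lit 11) nil nil)) nil)) (node (nat_lit 9) (nat_lit 61858)
  (nat_lit 9) (node (nat_lit 4) (nat_lit 62164) (nat_lit 10) (node (nat_lit 5) (nat_lit 61958)
  (nat_lit 11) (node (nat_lit 6) (nat_lit 54791) (nat_lit 12) (node (nat_lit 4) (nat_lit 50956)
  (nat_lit 13) nil nil) nil) (node (nat_lit 6) (nat_lit 61600) (nat_lit 11) nil nil)) (node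
  (nat_lit 6) (nat_lit 62575) (nat_lit 10) nil nil)) (node (nat_lit 0) (nat_lit 61858) (nat_lit 9)
  (node (nat_lit 6) (nat_lit 61144) (nat_lit 10) nil (node (nat_lit 9) (nat_lit 62575) (nat_lit
  10) nil nil)) nil))) (node (nat_lit 4) (nat_lit 60826) (nat_lit 8) (node (nat_lit 9) (nat_lit
  61872) (nat_lit 9) (node (nat_lit 5) (nat_lit 61158) (nat_lit 10) nil (node (nat_lit 4) (nat_lit
  57492) (nat_lit 10) (node (nat_lit 5) (nat_lit 56766) (nat_lit 11) nil nil) (node (nat_lit 6)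
  (nat_lit 61158) (nat_lit 10) nil nil))) (node (nat_lit 6) (nat_lit 57348) (nat_lit 9) nil nil))
  (node (nat_lit 9) (nat_lit 60846) (nat_lit 8) (node (nat_lit 6) (nat_lit 59824) (nat_lit 9)
  (node (nat_lit 4) (nat_lit 59110) (nat_lit 10) nil (node (nat_lit 9) (nat_lit 58481) (nat_lit
  10) nil nil)) (node (nat_lit 4) (nat_lit 57181) (nat_lit 9) (node (nat_lit 5) (nat_lit 55938)
  (nat_lit 10) (node (nat_lit 6) (nat_lit 46254) (nat_lit 11) nil nil) nil) nil)) (node (nat_lit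
  0) (nat_lit 60685) (nat_lit 8) nil nil)))) (node (nat_lit 0) (nat_lit 58534) (nat_lit 7) (node
  (nat_lit 4) (nat_lit 58643) (nat_lit 8) nil (node (nat_lit 6) (nat_lit 60654) (nat_lit 8) nil
  (node (nat_lit 9) (nat_lit 60654) (nat_lit 8) nil (node (nat_lit 5) (nat_lit 60795) (nat_lit 8)
  nil nil)))) nil)))) (node (nat_lit 0) (nat_lit 54689) (nat_lit 6) (node (nat_lit 4) (nat_lit
  58216) (nat_lit 7) (node (nat_lit 6) (nat_lit 59954) (nat_lit 8) (node (nat_lit 4) (nat_lit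
  54421) (nat_lit 9) nil nil) nil) (node (nat_lit 5) (nat_lit 58788) (nat_lit 7) (node (nat_lit 4)
  (nat_lit 57766) (nat_lit 8) nil (node (nat_lit 6) (nat_lit 58731) (nat_lit 8) nil nil)) (node
  (nat_lit 6) (nat_lit 58232) (nat_lit 7) (node (nat_lit 4) (nat_lit 59604) (nat_lit 8) (node
  (nat_lit 5) (nat_lit 58873) (nat_lit 9) (node (nat_lit 6) (nat_lit 58159) (nat_lit 10) (node
  (nat_lit 4) (nat_lit 57623) (nat_lit 11) (node (nat_lit 6) (nat_lit 57258) (nat_lit 12) nil nil)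
  nil) nil) nil) nil) (node (nat_lit 1) (nat_lit 58258) (nat_lit 7) (node (nat_lit 4) (nat_lit
  60183) (nat_lit 8) nil (node (nat_lit 6) (nat_lit 58102) (nat_lit 8) nil nil)) (node (nat_lit 0)
  (nat_lit 58585) (nat_lit 7) nil nil))))) nil))) (node (nat_lit 5) (nat_lit 0) (nat_lit 5) (node
  (nat_lit 4) (nat_lit 41564) (nat_lit 6) (node (nat_lit 6) (nat_lit 42630) (nat_lit 7) (node
  (nat_lit 4) (nat_lit 43331) (nat_lit 8) (node (nat_lit 5) (nat_lit 43816) (nat_lit 9) (node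
  (nat_lit 6) (nat_lit 44185) (nat_lit 10) nil nil) (node (nat_lit 0) (nat_lit 43816) (nat_lit 9)
  (node (nat_lit 6) (nat_lit 42753) (nat_lit 10) (node (nat_lit 4) (nat_lit 41910) (nat_lit 11)
  nil nil) (node (nat_lit 4) (nat_lit 42753) (nat_lit 10) nil nil)) (node (nat_lit 1) (nat_lit
  43816) (nat_lit 9) (node (nat_lit 6) (nat_lit 44185) (nat_lit 10) (node (nat_lit 4) (nat_lit
  44510) (nat_lit 11) nil nil) (node (nat_lit 4) (nat_lit 44185) (nat_lit 10) (node (nat_lit 5)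
  (nat_lit 44510) (nat_lit 11) (node (nat_lit 6) (nat_lit 44803) (nat_lit 12) (node (nat_lit 4)
  (nat_lit 43132) (nat_lit 13) nil nil) nil) nil) (node (nat_lit 5) (nat_lit 44185) (nat_lit 10)
  (node (nat_lit 12) (nat_lit 42902) (nat_lit 11) (node (nat_lit 4) (nat_lit 42553) (nat_lit 12)
  nil nil) (node (nat_lit 6) (nat_lit 43341) (nat_lit 11) nil nil)) nil))) nil))) (node (nat_lit
  5) (nat_lit 43331) (nat_lit 8) (node (nat_lit 6) (nat_lit 43816) (nat_lit 9) nil (node (nat_lit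
  4) (nat_lit 43816) (nat_lit 9) (node (nat_lit 5) (nat_lit 44185) (nat_lit 10) nil nil) nil))
  (node (nat_lit 1) (nat_lit 43331) (nat_lit 8) (node (nat_lit 4) (nat_lit 43816) (nat_lit 9) nil
  (node (nat_lit 5) (nat_lit 43816) (nat_lit 9) nil nil)) nil))) (node (nat_lit 1) (nat_lit 42630)
  (nat_lit 7) (node (nat_lit 5) (nat_lit 43331) (nat_lit 8) nil (node (nat_lit 4) (nat_lit 43331)
  (nat_lit 8) nil nil)) (node (nat_lit 0) (nat_lit 42630) (nat_lit 7) nil nil))) (node (nat_lit 1)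
  (nat_lit 41564) (nat_lit 6) (node (nat_lit 6) (nat_lit 42630) (nat_lit 7) (node (nat_lit 4)
  (nat_lit 43331) (nat_lit 8) (node (nat_lit 9) (nat_lit 43816) (nat_lit 9) (node (nat_lit 5)
  (nat_lit 42753) (nat_lit 10) (node (nat_lit 9) (nat_lit 42902) (nat_lit 11) nil nil) (node
  (nat_lit 4) (nat_lit 44185) (nat_lit 10) nil nil)) nil) (node (nat_lit 9) (nat_lit 43331)
  (nat_lit 8) (node (nat_lit 4) (nat_lit 43816) (nat_lit 9) (node (nat_lit 5) (nat_lit 44185)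
  (nat_lit 10) (node (nat_lit 6) (nat_lit 31239) (nat_lit 11) nil nil) nil) nil) nil)) (node
  (nat_lit 4) (nat_lit 42630) (nat_lit 7) (node (nat_lit 5) (nat_lit 40923) (nat_lit 8) (node
  (nat_lit 6) (nat_lit 28949) (nat_lit 9) (node (nat_lit 9) (nat_lit 27258) (nat_lit 10) (node
  (nat_lit 4) (nat_lit 26895) (nat_lit 11) nil nil) nil) nil) nil) (node (nat_lit 5) (nat_lit
  42630) (nat_lit 7) nil nil))) (node (nat_lit 0) (nat_lit 41564) (nat_lit 6) (node (nat_lit 5)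
  (nat_lit 42630) (nat_lit 7) nil nil) nil))) (node (nat_lit 1) (nat_lit 50116) (nat_lit 5) (node
  (nat_lit 5) (nat_lit 57644) (nat_lit 6) (node (nat_lit 8) (nat_lit 59879) (nat_lit 7) (node
  (nat_lit 6) (nat_lit 61243) (nat_lit 8) (node (nat_lit 5) (nat_lit 62425) (nat_lit 9) (node
  (nat_lit 4) (nat_lit 60415) (nat_lit 10) nil nil) (node (nat_lit 4) (nat_lit 60648) (nat_lit 9)
  (node (nat_lit 8) (nat_lit 60366) (nat_lit 10) (node (nat_lit 4) (nat_lit 59026) (nat_lit 11)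
  (node (nat_lit 5) (nat_lit 58957) (nat_lit 12) nil nil) nil) (node (nat_lit 5) (nat_lit 59934)
  (nat_lit 10) nil nil)) (node (nat_lit 8) (nat_lit 59439) (nat_lit 9) (node (nat_lit 4) (nat_lit
  57529) (nat_lit 10) nil nil) nil))) (node (nat_lit 4) (nat_lit 59421) (nat_lit 8) (node (nat_lit
  5) (nat_lit 58763) (nat_lit 9) (node (nat_lit 6) (nat_lit 53226) (nat_lit 10) (node (nat_lit 4)
  (nat_lit 45655) (nat_lit 11) (node (nat_lit 8) (nat_lit 15977) (nat_lit 12) nil nil) nil) (node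
  (nat_lit 4) (nat_lit 58355) (nat_lit 10) (node (nat_lit 8) (nat_lit 58504) (nat_lit 11) nil nil)
  nil)) (node (nat_lit 8) (nat_lit 60365) (nat_lit 9) nil (node (nat_lit 6) (nat_lit 57669)
  (nat_lit 9) nil nil))) (node (nat_lit 0) (nat_lit 61243) (nat_lit 8) nil nil))) (node (nat_lit
  4) (nat_lit 59879) (nat_lit 7) (node (nat_lit 6) (nat_lit 61006) (nat_lit 8) (node (nat_lit 4)
  (nat_lit 60200) (nat_lit 9) (node (nat_lit 5) (nat_lit 53124) (nat_lit 10) (node (nat_lit 6)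
  (nat_lit 49412) (nat_lit 11) (node (nat_lit 4) (nat_lit 41266) (nat_lit 12) nil nil) nil) (node
  (nat_lit 8) (nat_lit 60917) (nat_lit 10) (node (nat_lit 6) (nat_lit 60381) (nat_lit 11) nil
  (node (nat_lit 4) (nat_lit 57455) (nat_lit 11) nil nil)) nil)) (node (nat_lit 8) (nat_lit 61907)
  (nat_lit 9) (node (nat_lit 4) (nat_lit 57249) (nat_lit 10) nil nil) nil)) (node (nat_lit 5)
  (nat_lit 61569) (nat_lit 8) (node (nat_lit 8) (nat_lit 59765) (nat_lit 9) nil nil) (node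
  (nat_lit 8) (nat_lit 61243) (nat_lit 8) (node (nat_lit 4) (nat_lit 60579) (nat_lit 9) (node
  (nat_lit 5) (nat_lit 61360) (nat_lit 10) (node (nat_lit 6) (nat_lit 56551) (nat_lit 11) (node
  (nat_lit 4) (nat_lit 50334) (nat_lit 12) (node (nat_lit 8) (nat_lit 30999) (nat_lit 13) nil nil)
  nil) nil) (node (nat_lit 6) (nat_lit 59412) (nat_lit 10) nil nil)) nil) nil))) (node (nat_lit 0)
  (nat_lit 60078) (nat_lit 7) (node (nat_lit 8) (nat_lit 61442) (nat_lit 8) (node (nat_lit 4)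
  (nat_lit 60778) (nat_lit 9) nil nil) (node (nat_lit 6) (nat_lit 59165) (nat_lit 8) nil nil))
  nil))) (node (nat_lit 6) (nat_lit 53622) (nat_lit 6) (node (nat_lit 8) (nat_lit 55739) (nat_lit
  7) (node (nat_lit 4) (nat_lit 57103) (nat_lit 8) (node (nat_lit 8) (nat_lit 58050) (nat_lit 9)
  nil (node (nat_lit 6) (nat_lit 57799) (nat_lit 9) (node (nat_lit 4) (nat_lit 55675) (nat_lit 10)
  nil nil) (node (nat_lit 5) (nat_lit 52971) (nat_lit 9) (node (nat_lit 6) (nat_lit 48237)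
  (nat_lit 10) (node (nat_lit 4) (nat_lit 41289) (nat_lit 11) nil nil) nil) nil))) (node (nat_lit
  5) (nat_lit 54826) (nat_lit 8) nil (node (nat_lit 0) (nat_lit 57103) (nat_lit 8) nil nil)))
  (node (nat_lit 4) (nat_lit 55739) (nat_lit 7) (node (nat_lit 6) (nat_lit 57103) (nat_lit 8)
  (node (nat_lit 8) (nat_lit 58046) (nat_lit 9) (node (nat_lit 4) (nat_lit 58799) (nat_lit 10)
  (node (nat_lit 8) (nat_lit 59431) (nat_lit 11) (node (nat_lit 6) (nat_lit 59066) (nat_lit 12)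
  (node (nat_lit 4) (nat_lit 58805) (nat_lit 13) (node (nat_lit 5) (nat_lit 58610) (nat_lit 14)
  nil nil) nil) nil) nil) (node (nat_lit 6) (nat_lit 58763) (nat_lit 10) (node (nat_lit 4)
  (nat_lit 58227) (nat_lit 11) (node (nat_lit 8) (nat_lit 58673) (nat_lit 12) (node (nat_lit 4)
  (nat_lit 57998) (nat_lit 13) nil nil) nil) nil) (node (nat_lit 5) (nat_lit 57332) (nat_lit 10)
  nil nil))) (node (nat_lit 5) (nat_lit 61554) (nat_lit 9) nil (node (nat_lit 0) (nat_lit 58046)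
  (nat_lit 9) nil nil))) (node (nat_lit 5) (nat_lit 60783) (nat_lit 8) (node (nat_lit 6) (nat_lit
  59949) (nat_lit 9) (node (nat_lit 4) (nat_lit 59235) (nat_lit 10) (node (nat_lit 8) (nat_lit
  38848) (nat_lit 11) nil nil) nil) (node (nat_lit 8) (nat_lit 61255) (nat_lit 9) (node (nat_lit
  6) (nat_lit 60541) (nat_lit 10) nil (node (nat_lit 4) (nat_lit 57319) (nat_lit 10) nil nil))
  nil)) (node (nat_lit 0) (nat_lit 60778) (nat_lit 8) nil nil))) (node (nat_lit 5) (nat_lit 59604)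
  (nat_lit 7) (node (nat_lit 4) (nat_lit 60999) (nat_lit 8) (node (nat_lit 6) (nat_lit 59326)
  (nat_lit 9) (node (nat_lit 4) (nat_lit 57280) (nat_lit 10) (node (nat_lit 5) (nat_lit 53176)
  (nat_lit 11) nil nil) nil) (node (nat_lit 5) (nat_lit 62049) (nat_lit 9) (node (nat_lit 8)
  (nat_lit 60706) (nat_lit 10) nil nil) (node (nat_lit 8) (nat_lit 61942) (nat_lit 9) nil nil)))
  (node (nat_lit 8) (nat_lit 60968) (nat_lit 8) (node (nat_lit 6) (nat_lit 60135) (nat_lit 9)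
  (node (nat_lit 4) (nat_lit 59420) (nat_lit 10) (node (nat_lit 8) (nat_lit 59876) (nat_lit 11)
  nil nil) nil) (node (nat_lit 4) (nat_lit 60704) (nat_lit 9) nil nil)) nil)) (node (nat_lit 0)
  (nat_lit 59442) (nat_lit 7) (node (nat_lit 6) (nat_lit 60783) (nat_lit 8) nil (node (nat_lit 8)
  (nat_lit 60806) (nat_lit 8) nil (node (nat_lit 5) (nat_lit 58530) (nat_lit 8) nil nil))) nil))))
  (node (nat_lit 4) (nat_lit 49490) (nat_lit 6) (node (nat_lit 6) (nat_lit 52286) (nat_lit 7)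
  (node (nat_lit 8) (nat_lit 53466) (nat_lit 8) (node (nat_lit 6) (nat_lit 54858) (nat_lit 9)
  (node (nat_lit 4) (nat_lit 55312) (nat_lit 10) (node (nat_lit 5) (nat_lit 54776) (nat_lit 11)
  (node (nat_lit 6) (nat_lit 54411) (nat_lit 12) (node (nat_lit 4) (nat_lit 54149) (nat_lit 13)
  (node (nat_lit 8) (nat_lit 54390) (nat_lit 14) nil nil) nil) nil) nil) (node (nat_lit 5)
  (nat_lit 54859) (nat_lit 10) (node (nat_lit 8) (nat_lit 53883) (nat_lit 11) nil nil) nil)) (node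
  (nat_lit 4) (nat_lit 52979) (nat_lit 9) (node (nat_lit 8) (nat_lit 52699) (nat_lit 10) (node
  (nat_lit 6) (nat_lit 52994) (nat_lit 11) (node (nat_lit 4) (nat_lit 52991) (nat_lit 12) (node
  (nat_lit 8) (nat_lit 52398) (nat_lit 13) (node (nat_lit 4) (nat_lit 51882) (nat_lit 14) nil nil)
  nil) nil) nil) nil) (node (nat_lit 5) (nat_lit 56875) (nat_lit 9) (node (nat_lit 6) (nat_lit
  56161) (nat_lit 10) nil nil) (node (nat_lit 0) (nat_lit 54409) (nat_lit 9) nil nil)))) (node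
  (nat_lit 4) (nat_lit 50484) (nat_lit 8) (node (nat_lit 8) (nat_lit 50521) (nat_lit 9) (node
  (nat_lit 6) (nat_lit 49458) (nat_lit 10) nil (node (nat_lit 5) (nat_lit 49458) (nat_lit 10) nil
  nil)) (node (nat_lit 5) (nat_lit 51417) (nat_lit 9) (node (nat_lit 6) (nat_lit 44185) (nat_lit
  10) (node (nat_lit 4) (nat_lit 43341) (nat_lit 11) (node (nat_lit 8) (nat_lit 43508) (nat_lit
  12) nil nil) nil) (node (nat_lit 8) (nat_lit 49726) (nat_lit 10) nil nil)) nil)) (node (nat_lit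
  5) (nat_lit 56087) (nat_lit 8) (node (nat_lit 4) (nat_lit 53646) (nat_lit 9) nil (node (nat_lit
  8) (nat_lit 56771) (nat_lit 9) nil nil)) (node (nat_lit 0) (nat_lit 56204) (nat_lit 8) (node
  (nat_lit 6) (nat_lit 55370) (nat_lit 9) nil (node (nat_lit 8) (nat_lit 57147) (nat_lit 9) nil
  nil)) nil)))) (node (nat_lit 5) (nat_lit 48167) (nat_lit 7) (node (nat_lit 8) (nat_lit 52152)
  (nat_lit 8) (node (nat_lit 6) (nat_lit 53512) (nat_lit 9) (node (nat_lit 4) (nat_lit 54824)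
  (nat_lit 10) (node (nat_lit 8) (nat_lit 55290) (nat_lit 11) (node (nat_lit 4) (nat_lit 52738)
  (nat_lit 12) nil nil) (node (nat_lit 6) (nat_lit 54370) (nat_lit 11) nil (node (nat_lit 5)
  (nat_lit 54370) (nat_lit 11) nil nil))) (node (nat_lit 5) (nat_lit 52644) (nat_lit 10) nil (node
  (nat_lit 8) (nat_lit 53602) (nat_lit 10) (node (nat_lit 4) (nat_lit 52200) (nat_lit 11) nil nil)
  nil))) (node (nat_lit 5) (nat_lit 52867) (nat_lit 9) (node (nat_lit 4) (nat_lit 51962) (nat_lit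
  10) (node (nat_lit 5) (nat_lit 51509) (nat_lit 11) (node (nat_lit 8) (nat_lit 52161) (nat_lit
  12) (node (nat_lit 4) (nat_lit 51751) (nat_lit 13) nil nil) nil) (node (nat_lit 8) (nat_lit
  51524) (nat_lit 11) nil nil)) nil) (node (nat_lit 0) (nat_lit 53393) (nat_lit 9) nil (node
  (nat_lit 4) (nat_lit 52152) (nat_lit 9) nil nil)))) (node (nat_lit 6) (nat_lit 42994) (nat_lit
  8) (node (nat_lit 5) (nat_lit 43937) (nat_lit 9) (node (nat_lit 4) (nat_lit 41928) (nat_lit 10)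
  nil (node (nat_lit 8) (nat_lit 42594) (nat_lit 10) nil nil)) (node (nat_lit 8) (nat_lit 43937)
  (nat_lit 9) (node (nat_lit 5) (nat_lit 44654) (nat_lit 10) nil nil) nil)) (node (nat_lit 4)
  (nat_lit 50821) (nat_lit 8) (node (nat_lit 6) (nat_lit 50169) (nat_lit 9) (node (nat_lit 4)
  (nat_lit 45999) (nat_lit 10) nil nil) (node (nat_lit 8) (nat_lit 52179) (nat_lit 9) nil nil))
  (node (nat_lit 0) (nat_lit 52357) (nat_lit 8) (node (nat_lit 6) (nat_lit 51990) (nat_lit 9) nil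
  (node (nat_lit 8) (nat_lit 53410) (nat_lit 9) nil (node (nat_lit 4) (nat_lit 51368) (nat_lit 9)
  nil nil))) nil)))) (node (nat_lit 0) (nat_lit 54767) (nat_lit 7) (node (nat_lit 8) (nat_lit
  56350) (nat_lit 8) (node (nat_lit 4) (nat_lit 57294) (nat_lit 9) nil nil) (node (nat_lit 4)
  (nat_lit 56276) (nat_lit 8) nil (node (nat_lit 6) (nat_lit 56722) (nat_lit 8) nil (node (nat_lit
  5) (nat_lit 56722) (nat_lit 8) nil (node (nat_lit 0) (nat_lit 56722) (nat_lit 8) nil nil)))))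
  nil))) (node (nat_lit 0) (nat_lit 57586) (nat_lit 6) (node (nat_lit 4) (nat_lit 59672) (nat_lit
  7) (node (nat_lit 5) (nat_lit 58760) (nat_lit 8) nil (node (nat_lit 8) (nat_lit 59203) (nat_lit
  8) nil (node (nat_lit 6) (nat_lit 56926) (nat_lit 8) nil nil))) (node (nat_lit 8) (nat_lit
  59820) (nat_lit 7) (node (nat_lit 6) (nat_lit 58908) (nat_lit 8) nil (node (nat_lit 4) (nat_lit
  59125) (nat_lit 8) nil nil)) (node (nat_lit 5) (nat_lit 60269) (nat_lit 7) (node (nat_lit 6)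
  (nat_lit 61634) (nat_lit 8) nil (node (nat_lit 8) (nat_lit 57777) (nat_lit 8) nil (node (nat_lit
  4) (nat_lit 57297) (nat_lit 8) nil nil))) (node (nat_lit 6) (nat_lit 59659) (nat_lit 7) (node
  (nat_lit 8) (nat_lit 59203) (nat_lit 8) (node (nat_lit 4) (nat_lit 54599) (nat_lit 9) nil nil)
  (node (nat_lit 4) (nat_lit 58746) (nat_lit 8) nil nil)) (node (nat_lit 0) (nat_lit 59659)
  (nat_lit 7) (node (nat_lit 8) (nat_lit 61023) (nat_lit 8) nil (node (nat_lit 6) (nat_lit 58746)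
  (nat_lit 8) nil nil)) nil))))) nil)))) (node (nat_lit 0) (nat_lit 53682) (nat_lit 5) (node
  (nat_lit 6) (nat_lit 57502) (nat_lit 6) (node (nat_lit 4) (nat_lit 59709) (nat_lit 7) (node
  (nat_lit 5) (nat_lit 58960) (nat_lit 8) (node (nat_lit 6) (nat_lit 58127) (nat_lit 9) (node
  (nat_lit 4) (nat_lit 57412) (nat_lit 10) nil nil) nil) nil) (node (nat_lit 5) (nat_lit 60976)
  (nat_lit 7) nil (node (nat_lit 8) (nat_lit 59709) (nat_lit 7) nil (node (nat_lit 1) (nat_lit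
  53917) (nat_lit 7) nil nil)))) (node (nat_lit 4) (nat_lit 57400) (nat_lit 6) (node (nat_lit 5)
  (nat_lit 60964) (nat_lit 7) (node (nat_lit 1) (nat_lit 58472) (nat_lit 8) nil nil) (node
  (nat_lit 6) (nat_lit 58874) (nat_lit 7) (node (nat_lit 5) (nat_lit 57962) (nat_lit 8) (node
  (nat_lit 6) (nat_lit 57129) (nat_lit 9) nil nil) (node (nat_lit 4) (nat_lit 54262) (nat_lit 8)
  nil nil)) (node (nat_lit 1) (nat_lit 59473) (nat_lit 7) nil nil))) (node (nat_lit 5) (nat_lit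
  58226) (nat_lit 6) (node (nat_lit 4) (nat_lit 60445) (nat_lit 7) (node (nat_lit 6) (nat_lit
  61084) (nat_lit 8) (node (nat_lit 4) (nat_lit 58686) (nat_lit 9) (node (nat_lit 5) (nat_lit
  49519) (nat_lit 10) nil nil) nil) nil) (node (nat_lit 8) (nat_lit 60774) (nat_lit 7) nil (node
  (nat_lit 6) (nat_lit 60443) (nat_lit 7) nil (node (nat_lit 1) (nat_lit 54640) (nat_lit 7) nil
  nil)))) (node (nat_lit 1) (nat_lit 57511) (nat_lit 6) (node (nat_lit 4) (nat_lit 57874) (nat_lit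
  7) (node (nat_lit 5) (nat_lit 59238) (nat_lit 8) (node (nat_lit 6) (nat_lit 58405) (nat_lit 9)
  nil nil) nil) (node (nat_lit 6) (nat_lit 57584) (nat_lit 7) nil (node (nat_lit 8) (nat_lit
  59584) (nat_lit 7) nil (node (nat_lit 5) (nat_lit 57462) (nat_lit 7) nil nil)))) (node (nat_lit
  0) (nat_lit 58139) (nat_lit 6) (node (nat_lit 4) (nat_lit 58590) (nat_lit 7) nil (node (nat_lit
  6) (nat_lit 57175) (nat_lit 7) nil (node (nat_lit 8) (nat_lit 60212) (nat_lit 7) nil (node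
  (nat_lit 1) (nat_lit 60212) (nat_lit 7) nil (node (nat_lit 5) (nat_lit 58301) (nat_lit 7) nil
  nil))))) nil))))) nil))))

noncomputable def t16 : Tr :=
  (node (nat_lit 6) (nat_lit 53707) (nat_lit 9) (node (nat_lit 5) (nat_lit 49159) (nat_lit 10)
  (node (nat_lit 4) (nat_lit 43341) (nat_lit 11) nil (node (nat_lit 1) (nat_lit 50451) (nat_lit
  11) (node (nat_lit 6) (nat_lit 51500) (nat_lit 12) (node (nat_lit 5) (nat_lit 52329) (nat_lit
  13) (node (nat_lit 6) (nat_lit 52975) (nat_lit 14) (node (nat_lit 14) (nat_lit 52615) (nat_lit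
  15) nil nil) nil) (node (nat_lit 4) (nat_lit 52136) (nat_lit 13) (node (nat_lit 5) (nat_lit
  52074) (nat_lit 14) nil nil) (node (nat_lit 14) (nat_lit 51972) (nat_lit 13) nil nil))) (node
  (nat_lit 5) (nat_lit 50711) (nat_lit 12) (node (nat_lit 6) (nat_lit 51358) (nat_lit 13) (node
  (nat_lit 4) (nat_lit 51398) (nat_lit 14) (node (nat_lit 5) (nat_lit 49745) (nat_lit 15) nil nil)
  (node (nat_lit 14) (nat_lit 50887) (nat_lit 14) nil nil)) (node (nat_lit 4) (nat_lit 49871)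
  (nat_lit 13) nil (node (nat_lit 0) (nat_lit 51346) (nat_lit 13) nil nil))) (node (nat_lit 4)
  (nat_lit 51500) (nat_lit 12) (node (nat_lit 5) (nat_lit 52329) (nat_lit 13) (node (nat_lit 6)
  (nat_lit 52823) (nat_lit 14) nil nil) (node (nat_lit 6) (nat_lit 52329) (nat_lit 13) nil nil))
  (node (nat_lit 0) (nat_lit 51500) (nat_lit 12) nil nil)))) (node (nat_lit 0) (nat_lit 50523)
  (nat_lit 11) (node (nat_lit 6) (nat_lit 51572) (nat_lit 12) (node (nat_lit 5) (nat_lit 52401)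
  (nat_lit 13) (node (nat_lit 6) (nat_lit 53047) (nat_lit 14) nil nil) (node (nat_lit 4) (nat_lit
  52208) (nat_lit 13) (node (nat_lit 5) (nat_lit 52146) (nat_lit 14) nil nil) (node (nat_lit 14)
  (nat_lit 52208) (nat_lit 13) nil nil))) (node (nat_lit 5) (nat_lit 51572) (nat_lit 12) (node
  (nat_lit 6) (nat_lit 52401) (nat_lit 13) (node (nat_lit 4) (nat_lit 51010) (nat_lit 14) nil
  (node (nat_lit 14) (nat_lit 52895) (nat_lit 14) nil nil)) (node (nat_lit 4) (nat_lit 52401)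
  (nat_lit 13) nil (node (nat_lit 1) (nat_lit 50964) (nat_lit 13) nil nil))) (node (nat_lit 4)
  (nat_lit 51572) (nat_lit 12) (node (nat_lit 5) (nat_lit 52208) (nat_lit 13) nil (node (nat_lit
  6) (nat_lit 51674) (nat_lit 13) nil nil)) (node (nat_lit 1) (nat_lit 51103) (nat_lit 12) nil
  (node (nat_lit 0) (nat_lit 51572) (nat_lit 12) nil nil))))) nil))) (node (nat_lit 4) (nat_lit
  55166) (nat_lit 10) (node (nat_lit 6) (nat_lit 56372) (nat_lit 11) (node (nat_lit 5) (nat_lit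
  57328) (nat_lit 12) (node (nat_lit 6) (nat_lit 0) (nat_lit 13) (node (nat_lit 4) (nat_lit 0)
  (nat_lit 14) (node (nat_lit 5) (nat_lit 0) (nat_lit 15) (node (nat_lit 6) (nat_lit 59557)
  (nat_lit 16) (node (nat_lit 5) (nat_lit 59601) (nat_lit 17) (node (nat_lit 4) (nat_lit 58230)
  (nat_lit 18) (node (nat_lit 6) (nat_lit 58230) (nat_lit 19) (node (nat_lit 4) (nat_lit 58230)
  (nat_lit 20) (node (nat_lit 5) (nat_lit 58230) (nat_lit 21) (node (nat_lit 6) (nat_lit 44848)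
  (nat_lit 22) (node (nat_lit 4) (nat_lit 44808) (nat_lit 23) (node (nat_lit 6) (nat_lit 44776)
  (nat_lit 24) (node (nat_lit 5) (nat_lit 44752) (nat_lit 25) nil nil) nil) nil) nil) nil) nil)
  nil) nil) nil) (node (nat_lit 4) (nat_lit 59557) (nat_lit 16) (node (nat_lit 6) (nat_lit 59854)
  (nat_lit 17) nil nil) (node (nat_lit 1) (nat_lit 59465) (nat_lit 16) (node (nat_lit 4) (nat_lit
  59424) (nat_lit 17) nil nil) (node (nat_lit 0) (nat_lit 59465) (nat_lit 16) nil nil)))) (node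
  (nat_lit 1) (nat_lit 58962) (nat_lit 15) (node (nat_lit 4) (nat_lit 58912) (nat_lit 16) (node
  (nat_lit 5) (nat_lit 59137) (nat_lit 17) (node (nat_lit 6) (nat_lit 57563) (nat_lit 18) nil nil)
  (node (nat_lit 6) (nat_lit 58791) (nat_lit 17) nil nil)) (node (nat_lit 6) (nat_lit 59252)
  (nat_lit 16) (node (nat_lit 4) (nat_lit 59477) (nat_lit 17) nil nil) (node (nat_lit 5) (nat_lit
  58585) (nat_lit 16) nil nil))) (node (nat_lit 0) (nat_lit 59175) (nat_lit 15) (node (nat_lit 6)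
  (nat_lit 59138) (nat_lit 16) (node (nat_lit 4) (nat_lit 59110) (nat_lit 17) nil nil) (node
  (nat_lit 5) (nat_lit 58798) (nat_lit 16) nil nil)) nil))) (node (nat_lit 0) (nat_lit 58767)
  (nat_lit 14) (node (nat_lit 4) (nat_lit 58838) (nat_lit 15) (node (nat_lit 5) (nat_lit 58802)
  (nat_lit 16) nil (node (nat_lit 6) (nat_lit 58894) (nat_lit 16) nil nil)) (node (nat_lit 6)
  (nat_lit 58838) (nat_lit 15) (node (nat_lit 4) (nat_lit 58802) (nat_lit 16) (node (nat_lit 5)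
  (nat_lit 58773) (nat_lit 17) nil nil) (node (nat_lit 5) (nat_lit 58461) (nat_lit 16) nil nil))
  (node (nat_lit 5) (nat_lit 58838) (nat_lit 15) (node (nat_lit 6) (nat_lit 58894) (nat_lit 16)
  nil (node (nat_lit 4) (nat_lit 58461) (nat_lit 16) nil nil)) nil))) (node (nat_lit 1) (nat_lit
  58491) (nat_lit 14) (node (nat_lit 4) (nat_lit 58988) (nat_lit 15) (node (nat_lit 5) (nat_lit
  59278) (nat_lit 16) (node (nat_lit 6) (nat_lit 57350) (nat_lit 17) nil nil) (node (nat_lit 6)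
  (nat_lit 59370) (nat_lit 16) nil nil)) (node (nat_lit 6) (nat_lit 58988) (nat_lit 15) (node
  (nat_lit 4) (nat_lit 58951) (nat_lit 16) (node (nat_lit 5) (nat_lit 58923) (nat_lit 17) nil nil)
  (node (nat_lit 5) (nat_lit 58611) (nat_lit 16) nil nil)) (node (nat_lit 5) (nat_lit 58906)
  (nat_lit 15) (node (nat_lit 6) (nat_lit 59183) (nat_lit 16) nil (node (nat_lit 4) (nat_lit
  58529) (nat_lit 16) nil nil)) nil))) nil))) (node (nat_lit 4) (nat_lit 0) (nat_lit 13) (node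
  (nat_lit 5) (nat_lit 58690) (nat_lit 14) (node (nat_lit 6) (nat_lit 58644) (nat_lit 15) nil
  (node (nat_lit 1) (nat_lit 58330) (nat_lit 15) nil nil)) (node (nat_lit 6) (nat_lit 58690)
  (nat_lit 14) nil (node (nat_lit 1) (nat_lit 58415) (nat_lit 14) (node (nat_lit 4) (nat_lit
  58355) (nat_lit 15) nil (node (nat_lit 6) (nat_lit 58370) (nat_lit 15) nil (node (nat_lit 5)
  (nat_lit 57930) (nat_lit 15) nil nil))) (node (nat_lit 0) (nat_lit 58690) (nat_lit 14) nil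
  nil)))) (node (nat_lit 1) (nat_lit 57800) (nat_lit 13) (node (nat_lit 4) (nat_lit 58445)
  (nat_lit 14) (node (nat_lit 5) (nat_lit 58824) (nat_lit 15) nil (node (nat_lit 6) (nat_lit
  57661) (nat_lit 15) nil nil)) (node (nat_lit 6) (nat_lit 58445) (nat_lit 14) nil (node (nat_lit
  5) (nat_lit 58334) (nat_lit 14) (node (nat_lit 6) (nat_lit 57549) (nat_lit 15) nil nil) nil)))
  (node (nat_lit 0) (nat_lit 58157) (nat_lit 13) (node (nat_lit 6) (nat_lit 58246) (nat_lit 14)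
  nil (node (nat_lit 5) (nat_lit 58246) (nat_lit 14) (node (nat_lit 6) (nat_lit 57462) (nat_lit
  15) nil nil) (node (nat_lit 4) (nat_lit 58246) (nat_lit 14) nil nil))) nil)))) (node (nat_lit 1)
  (nat_lit 57696) (nat_lit 12) (node (nat_lit 4) (nat_lit 58525) (nat_lit 13) (node (nat_lit 6)
  (nat_lit 59171) (nat_lit 14) (node (nat_lit 4) (nat_lit 58059) (nat_lit 15) nil nil) nil) (node
  (nat_lit 6) (nat_lit 58525) (nat_lit 13) (node (nat_lit 4) (nat_lit 58463) (nat_lit 14) nil nil)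
  (node (nat_lit 5) (nat_lit 57913) (nat_lit 13) nil nil))) (node (nat_lit 0) (nat_lit 57494)
  (nat_lit 12) (node (nat_lit 6) (nat_lit 57595) (nat_lit 13) (node (nat_lit 4) (nat_lit 57533)
  (nat_lit 14) nil nil) (node (nat_lit 4) (nat_lit 57595) (nat_lit 13) nil (node (nat_lit 5)
  (nat_lit 57595) (nat_lit 13) nil nil))) nil))) (node (nat_lit 0) (nat_lit 56553) (nat_lit 11)
  (node (nat_lit 4) (nat_lit 57456) (nat_lit 12) (node (nat_lit 5) (nat_lit 58284) (nat_lit 13)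
  nil (node (nat_lit 6) (nat_lit 58284) (nat_lit 13) nil (node (nat_lit 1) (nat_lit 56848)
  (nat_lit 13) nil (node (nat_lit 0) (nat_lit 58092) (nat_lit 13) nil nil)))) (node (nat_lit 6)
  (nat_lit 57601) (nat_lit 12) (node (nat_lit 4) (nat_lit 58430) (nat_lit 13) (node (nat_lit 5)
  (nat_lit 58368) (nat_lit 14) nil nil) (node (nat_lit 5) (nat_lit 58430) (nat_lit 13) nil (node
  (nat_lit 14) (nat_lit 58237) (nat_lit 13) nil nil))) (node (nat_lit 5) (nat_lit 57601) (nat_lit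
  12) (node (nat_lit 4) (nat_lit 58430) (nat_lit 13) nil (node (nat_lit 6) (nat_lit 58430)
  (nat_lit 13) nil nil)) (node (nat_lit 1) (nat_lit 57132) (nat_lit 12) (node (nat_lit 4) (nat_lit
  57019) (nat_lit 13) nil nil) (node (nat_lit 0) (nat_lit 57601) (nat_lit 12) nil nil))))) (node
  (nat_lit 1) (nat_lit 56450) (nat_lit 11) (node (nat_lit 4) (nat_lit 57573) (nat_lit 12) (node
  (nat_lit 5) (nat_lit 58401) (nat_lit 13) (node (nat_lit 6) (nat_lit 58895) (nat_lit 14) (node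
  (nat_lit 5) (nat_lit 53690) (nat_lit 15) nil nil) nil) (node (nat_lit 6) (nat_lit 58401)
  (nat_lit 13) (node (nat_lit 4) (nat_lit 57010) (nat_lit 14) nil nil) (node (nat_lit 0) (nat_lit
  58208) (nat_lit 13) nil nil))) (node (nat_lit 6) (nat_lit 57354) (nat_lit 12) (node (nat_lit 4)
  (nat_lit 58182) (nat_lit 13) (node (nat_lit 5) (nat_lit 58120) (nat_lit 14) nil nil) (node
  (nat_lit 14) (nat_lit 57989) (nat_lit 13) (node (nat_lit 4) (nat_lit 56584) (nat_lit 14) nil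
  nil) (node (nat_lit 5) (nat_lit 58182) (nat_lit 13) nil nil))) (node (nat_lit 5) (nat_lit 57450)
  (nat_lit 12) (node (nat_lit 4) (nat_lit 58279) (nat_lit 13) nil (node (nat_lit 6) (nat_lit
  57308) (nat_lit 13) nil nil)) (node (nat_lit 0) (nat_lit 57499) (nat_lit 12) nil nil)))) nil)))
  (node (nat_lit 0) (nat_lit 55465) (nat_lit 10) (node (nat_lit 6) (nat_lit 56757) (nat_lit 11)
  (node (nat_lit 5) (nat_lit 57806) (nat_lit 12) (node (nat_lit 4) (nat_lit 56966) (nat_lit 13)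
  nil (node (nat_lit 13) (nat_lit 58442) (nat_lit 13) nil (node (nat_lit 6) (nat_lit 56471)
  (nat_lit 13) nil nil))) (node (nat_lit 4) (nat_lit 57806) (nat_lit 12) (node (nat_lit 5)
  (nat_lit 58442) (nat_lit 13) (node (nat_lit 6) (nat_lit 58380) (nat_lit 14) nil nil) nil) (node
  (nat_lit 1) (nat_lit 57337) (nat_lit 12) (node (nat_lit 13) (nat_lit 57973) (nat_lit 13) nil
  nil) (node (nat_lit 0) (nat_lit 57806) (nat_lit 12) nil nil)))) (node (nat_lit 5) (nat_lit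
  56757) (nat_lit 11) (node (nat_lit 6) (nat_lit 57806) (nat_lit 12) (node (nat_lit 4) (nat_lit
  58635) (nat_lit 13) nil (node (nat_lit 5) (nat_lit 57715) (nat_lit 13) nil nil)) (node (nat_lit
  4) (nat_lit 57806) (nat_lit 12) (node (nat_lit 6) (nat_lit 58635) (nat_lit 13) nil (node
  (nat_lit 5) (nat_lit 57715) (nat_lit 13) nil nil)) (node (nat_lit 13) (nat_lit 57806) (nat_lit
  12) (node (nat_lit 6) (nat_lit 57715) (nat_lit 13) nil (node (nat_lit 4) (nat_lit 56966)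
  (nat_lit 13) nil nil)) nil))) (node (nat_lit 4) (nat_lit 56757) (nat_lit 11) (node (nat_lit 6)
  (nat_lit 57806) (nat_lit 12) (node (nat_lit 4) (nat_lit 57908) (nat_lit 13) (node (nat_lit 5)
  (nat_lit 57998) (nat_lit 14) nil nil) nil) (node (nat_lit 5) (nat_lit 57806) (nat_lit 12) nil
  (node (nat_lit 13) (nat_lit 57806) (nat_lit 12) (node (nat_lit 6) (nat_lit 57715) (nat_lit 13)
  nil (node (nat_lit 5) (nat_lit 56966) (nat_lit 13) nil nil)) nil))) (node (nat_lit 1) (nat_lit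
  56145) (nat_lit 11) (node (nat_lit 13) (nat_lit 57194) (nat_lit 12) nil (node (nat_lit 6)
  (nat_lit 56008) (nat_lit 12) nil nil)) (node (nat_lit 0) (nat_lit 56757) (nat_lit 11) (node
  (nat_lit 6) (nat_lit 56869) (nat_lit 12) nil (node (nat_lit 13) (nat_lit 57558) (nat_lit 12) nil
  nil)) nil))))) (node (nat_lit 1) (nat_lit 55332) (nat_lit 10) (node (nat_lit 4) (nat_lit 56718)
  (nat_lit 11) (node (nat_lit 5) (nat_lit 57767) (nat_lit 12) (node (nat_lit 6) (nat_lit 58402)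
  (nat_lit 13) (node (nat_lit 5) (nat_lit 58897) (nat_lit 14) (node (nat_lit 4) (nat_lit 46384)
  (nat_lit 15) (node (nat_lit 6) (nat_lit 39738) (nat_lit 16) nil nil) nil) nil) nil) (node
  (nat_lit 6) (nat_lit 57767) (nat_lit 12) (node (nat_lit 4) (nat_lit 58596) (nat_lit 13) (node
  (nat_lit 5) (nat_lit 56283) (nat_lit 14) nil nil) nil) (node (nat_lit 13) (nat_lit 57456)
  (nat_lit 12) (node (nat_lit 6) (nat_lit 57365) (nat_lit 13) (node (nat_lit 4) (nat_lit 57303)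
  (nat_lit 14) nil nil) (node (nat_lit 5) (nat_lit 56616) (nat_lit 13) nil nil)) nil))) (node
  (nat_lit 5) (nat_lit 56437) (nat_lit 11) (node (nat_lit 6) (nat_lit 57343) (nat_lit 12) (node
  (nat_lit 4) (nat_lit 57030) (nat_lit 13) nil (node (nat_lit 5) (nat_lit 58171) (nat_lit 13) nil
  nil)) (node (nat_lit 4) (nat_lit 57485) (nat_lit 12) (node (nat_lit 5) (nat_lit 57394) (nat_lit
  13) nil nil) (node (nat_lit 13) (nat_lit 57559) (nat_lit 12) (node (nat_lit 6) (nat_lit 57467)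
  (nat_lit 13) nil (node (nat_lit 4) (nat_lit 55910) (nat_lit 13) nil nil)) nil))) (node (nat_lit
  6) (nat_lit 56718) (nat_lit 11) (node (nat_lit 4) (nat_lit 57767) (nat_lit 12) (node (nat_lit 5)
  (nat_lit 58402) (nat_lit 13) (node (nat_lit 6) (nat_lit 58340) (nat_lit 14) nil nil) nil) (node
  (nat_lit 5) (nat_lit 57806) (nat_lit 12) (node (nat_lit 4) (nat_lit 56966) (nat_lit 13) nil
  (node (nat_lit 13) (nat_lit 58278) (nat_lit 13) nil (node (nat_lit 6) (nat_lit 56471) (nat_lit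
  13) nil nil))) (node (nat_lit 0) (nat_lit 57519) (nat_lit 12) nil nil))) (node (nat_lit 0)
  (nat_lit 56624) (nat_lit 11) (node (nat_lit 13) (nat_lit 57425) (nat_lit 12) nil (node (nat_lit
  6) (nat_lit 56735) (nat_lit 12) nil nil)) nil)))) nil)))) (node (nat_lit 4) (nat_lit 62180)
  (nat_lit 9) (node (nat_lit 6) (nat_lit 63954) (nat_lit 10) (node (nat_lit 5) (nat_lit 64841)
  (nat_lit 11) (node (nat_lit 6) (nat_lit 64841) (nat_lit 12) (node (nat_lit 4) (nat_lit 64841)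
  (nat_lit 13) (node (nat_lit 5) (nat_lit 64661) (nat_lit 14) (node (nat_lit 6) (nat_lit 64108)
  (nat_lit 15) (node (nat_lit 5) (nat_lit 63546) (nat_lit 16) (node (nat_lit 4) (nat_lit 61728)
  (nat_lit 17) (node (nat_lit 6) (nat_lit 59145) (nat_lit 18) (node (nat_lit 4) (nat_lit 58230)
  (nat_lit 19) (node (nat_lit 5) (nat_lit 58230) (nat_lit 20) (node (nat_lit 4) (nat_lit 45456)
  (nat_lit 21) (node (nat_lit 6) (nat_lit 40707) (nat_lit 22) (node (nat_lit 5) (nat_lit 40667)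
  (nat_lit 23) nil nil) nil) nil) nil) nil) nil) nil) nil) nil) nil) (node (nat_lit 1) (nat_lit
  64841) (nat_lit 13) nil nil)) (node (nat_lit 4) (nat_lit 64841) (nat_lit 12) (node (nat_lit 1)
  (nat_lit 64841) (nat_lit 13) nil nil) (node (nat_lit 1) (nat_lit 64841) (nat_lit 12) (node
  (nat_lit 4) (nat_lit 64841) (nat_lit 13) (node (nat_lit 5) (nat_lit 64841) (nat_lit 14) nil nil)
  (node (nat_lit 6) (nat_lit 64841) (nat_lit 13) nil nil)) (node (nat_lit 0) (nat_lit 64841)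
  (nat_lit 12) nil nil)))) (node (nat_lit 1) (nat_lit 64841) (nat_lit 11) (node (nat_lit 4)
  (nat_lit 64841) (nat_lit 12) (node (nat_lit 5) (nat_lit 64841) (nat_lit 13) (node (nat_lit 6)
  (nat_lit 64841) (nat_lit 14) nil nil) nil) (node (nat_lit 6) (nat_lit 64841) (nat_lit 12) (node
  (nat_lit 4) (nat_lit 64841) (nat_lit 13) nil nil) nil)) (node (nat_lit 0) (nat_lit 64841)
  (nat_lit 11) (node (nat_lit 6) (nat_lit 64841) (nat_lit 12) nil nil) nil))) (node (nat_lit 0)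
  (nat_lit 64348) (nat_lit 10) (node (nat_lit 4) (nat_lit 64841) (nat_lit 11) nil (node (nat_lit
  5) (nat_lit 64402) (nat_lit 11) nil (node (nat_lit 6) (nat_lit 64307) (nat_lit 11) (node
  (nat_lit 4) (nat_lit 64719) (nat_lit 12) nil nil) (node (nat_lit 1) (nat_lit 64760) (nat_lit 11)
  nil nil)))) (node (nat_lit 1) (nat_lit 64348) (nat_lit 10) (node (nat_lit 4) (nat_lit 64841)
  (nat_lit 11) (node (nat_lit 5) (nat_lit 64841) (nat_lit 12) (node (nat_lit 6) (nat_lit 64841)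
  (nat_lit 13) (node (nat_lit 5) (nat_lit 63243) (nat_lit 14) (node (nat_lit 4) (nat_lit 53099)
  (nat_lit 15) (node (nat_lit 6) (nat_lit 45929) (nat_lit 16) (node (nat_lit 4) (nat_lit 37628)
  (nat_lit 17) (node (nat_lit 5) (nat_lit 31343) (nat_lit 18) nil nil) nil) nil) nil) nil) nil)
  (node (nat_lit 6) (nat_lit 64841) (nat_lit 12) nil nil)) (node (nat_lit 5) (nat_lit 64402)
  (nat_lit 11) nil (node (nat_lit 6) (nat_lit 64307) (nat_lit 11) (node (nat_lit 4) (nat_lit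
  64719) (nat_lit 12) nil nil) nil))) nil))) (node (nat_lit 1) (nat_lit 62658) (nat_lit 9) (node
  (nat_lit 4) (nat_lit 63400) (nat_lit 10) (node (nat_lit 5) (nat_lit 63928) (nat_lit 11) (node
  (nat_lit 6) (nat_lit 62982) (nat_lit 12) (node (nat_lit 5) (nat_lit 61082) (nat_lit 13) (node
  (nat_lit 4) (nat_lit 53198) (nat_lit 14) (node (nat_lit 6) (nat_lit 26935) (nat_lit 15) nil nil)
  nil) nil) nil) nil) (node (nat_lit 6) (nat_lit 63434) (nat_lit 10) (node (nat_lit 4) (nat_lit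
  63962) (nat_lit 11) (node (nat_lit 5) (nat_lit 64374) (nat_lit 12) (node (nat_lit 6) (nat_lit
  64696) (nat_lit 13) nil nil) nil) (node (nat_lit 12) (nat_lit 64374) (nat_lit 11) nil nil))
  (node (nat_lit 5) (nat_lit 63031) (nat_lit 10) (node (nat_lit 6) (nat_lit 63559) (nat_lit 11)
  nil nil) (node (nat_lit 0) (nat_lit 63928) (nat_lit 10) nil nil)))) (node (nat_lit 0) (nat_lit
  62658) (nat_lit 9) (node (nat_lit 6) (nat_lit 63434) (nat_lit 10) (node (nat_lit 4) (nat_lit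
  63962) (nat_lit 11) (node (nat_lit 5) (nat_lit 64374) (nat_lit 12) (node (nat_lit 6) (nat_lit
  64696) (nat_lit 13) nil nil) nil) nil) (node (nat_lit 4) (nat_lit 63400) (nat_lit 10) nil (node
  (nat_lit 5) (nat_lit 63031) (nat_lit 10) (node (nat_lit 6) (nat_lit 63559) (nat_lit 11) nil nil)
  (node (nat_lit 1) (nat_lit 63928) (nat_lit 10) (node (nat_lit 4) (nat_lit 63928) (nat_lit 11)
  nil nil) (node (nat_lit 0) (nat_lit 63928) (nat_lit 10) nil nil))))) nil))))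

noncomputable def t17 : Tr :=
  (node (nat_lit 4) (nat_lit 52577) (nat_lit 5) (node (nat_lit 6) (nat_lit 53010) (nat_lit 6)
  (node (nat_lit 4) (nat_lit 53089) (nat_lit 7) (node (nat_lit 5) (nat_lit 59719) (nat_lit 8) t16
  (node (nat_lit 1) (nat_lit 66947) (nat_lit 8) (node (nat_lit 6) (nat_lit 66947) (nat_lit 9)
  (node (nat_lit 4) (nat_lit 66947) (nat_lit 10) (node (nat_lit 5) (nat_lit 66947) (nat_lit 11)
  (node (nat_lit 6) (nat_lit 66947) (nat_lit 12) (node (nat_lit 5) (nat_lit 66947) (nat_lit 13)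
  (node (nat_lit 4) (nat_lit 66947) (nat_lit 14) (node (nat_lit 6) (nat_lit 66947) (nat_lit 15)
  nil nil) nil) nil) nil) nil) (node (nat_lit 11) (nat_lit 66947) (nat_lit 10) nil nil)) (node
  (nat_lit 4) (nat_lit 66947) (nat_lit 9) (node (nat_lit 6) (nat_lit 66947) (nat_lit 10) nil (node
  (nat_lit 5) (nat_lit 65780) (nat_lit 10) (node (nat_lit 6) (nat_lit 61620) (nat_lit 11) (node
  (nat_lit 5) (nat_lit 54247) (nat_lit 12) (node (nat_lit 4) (nat_lit 45244) (nat_lit 13) (node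
  (nat_lit 6) (nat_lit 31872) (nat_lit 14) nil nil) nil) nil) nil) nil)) (node (nat_lit 5)
  (nat_lit 66947) (nat_lit 9) (node (nat_lit 6) (nat_lit 66947) (nat_lit 10) (node (nat_lit 4)
  (nat_lit 66115) (nat_lit 11) (node (nat_lit 5) (nat_lit 64518) (nat_lit 12) nil nil) nil) (node
  (nat_lit 11) (nat_lit 66947) (nat_lit 10) (node (nat_lit 4) (nat_lit 66947) (nat_lit 11) (node
  (nat_lit 5) (nat_lit 66947) (nat_lit 12) (node (nat_lit 6) (nat_lit 65333) (nat_lit 13) (node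
  (nat_lit 5) (nat_lit 63179) (nat_lit 14) (node (nat_lit 4) (nat_lit 57922) (nat_lit 15) (node
  (nat_lit 6) (nat_lit 52233) (nat_lit 16) (node (nat_lit 4) (nat_lit 44753) (nat_lit 17) nil nil)
  nil) nil) nil) nil) nil) nil) nil)) (node (nat_lit 0) (nat_lit 66947) (nat_lit 9) nil nil))))
  (node (nat_lit 0) (nat_lit 66947) (nat_lit 8) (node (nat_lit 6) (nat_lit 66947) (nat_lit 9)
  (node (nat_lit 4) (nat_lit 66947) (nat_lit 10) (node (nat_lit 5) (nat_lit 66947) (nat_lit 11)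
  (node (nat_lit 6) (nat_lit 66947) (nat_lit 12) (node (nat_lit 5) (nat_lit 66947) (nat_lit 13)
  (node (nat_lit 4) (nat_lit 66947) (nat_lit 14) (node (nat_lit 6) (nat_lit 66947) (nat_lit 15)
  (node (nat_lit 4) (nat_lit 66947) (nat_lit 16) nil nil) nil) nil) nil) nil) nil) nil) (node
  (nat_lit 4) (nat_lit 66947) (nat_lit 9) (node (nat_lit 6) (nat_lit 66947) (nat_lit 10) nil nil)
  (node (nat_lit 5) (nat_lit 66947) (nat_lit 9) nil (node (nat_lit 1) (nat_lit 66947) (nat_lit 9)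
  (node (nat_lit 4) (nat_lit 66947) (nat_lit 10) (node (nat_lit 5) (nat_lit 66947) (nat_lit 11)
  nil nil) (node (nat_lit 6) (nat_lit 66947) (nat_lit 10) nil nil)) nil)))) nil))) (node (nat_lit
  1) (nat_lit 66947) (nat_lit 7) (node (nat_lit 4) (nat_lit 66947) (nat_lit 8) (node (nat_lit 6)
  (nat_lit 66947) (nat_lit 9) (node (nat_lit 4) (nat_lit 66947) (nat_lit 10) nil nil) (node
  (nat_lit 5) (nat_lit 66947) (nat_lit 9) (node (nat_lit 6) (nat_lit 59310) (nat_lit 10) (node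
  (nat_lit 5) (nat_lit 50216) (nat_lit 11) (node (nat_lit 4) (nat_lit 29580) (nat_lit 12) nil nil)
  nil) nil) nil)) (node (nat_lit 6) (nat_lit 66947) (nat_lit 8) (node (nat_lit 4) (nat_lit 66947)
  (nat_lit 9) (node (nat_lit 5) (nat_lit 66947) (nat_lit 10) (node (nat_lit 6) (nat_lit 66947)
  (nat_lit 11) (node (nat_lit 5) (nat_lit 66947) (nat_lit 12) (node (nat_lit 4) (nat_lit 66947)
  (nat_lit 13) (node (nat_lit 6) (nat_lit 66947) (nat_lit 14) nil nil) nil) nil) nil) nil) nil)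
  (node (nat_lit 5) (nat_lit 66947) (nat_lit 8) (node (nat_lit 6) (nat_lit 66947) (nat_lit 9)
  (node (nat_lit 4) (nat_lit 66654) (nat_lit 10) (node (nat_lit 5) (nat_lit 63985) (nat_lit 11)
  nil nil) nil) (node (nat_lit 10) (nat_lit 66947) (nat_lit 9) (node (nat_lit 4) (nat_lit 66947)
  (nat_lit 10) (node (nat_lit 5) (nat_lit 66947) (nat_lit 11) (node (nat_lit 6) (nat_lit 64328)
  (nat_lit 12) (node (nat_lit 5) (nat_lit 60417) (nat_lit 13) (node (nat_lit 4) (nat_lit 54291)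
  (nat_lit 14) (node (nat_lit 6) (nat_lit 46691) (nat_lit 15) nil nil) nil) nil) nil) nil) nil)
  nil)) (node (nat_lit 0) (nat_lit 66947) (nat_lit 8) nil nil)))) (node (nat_lit 0) (nat_lit
  66947) (nat_lit 7) (node (nat_lit 5) (nat_lit 66947) (nat_lit 8) (node (nat_lit 6) (nat_lit
  66947) (nat_lit 9) (node (nat_lit 4) (nat_lit 65091) (nat_lit 10) (node (nat_lit 5) (nat_lit
  62422) (nat_lit 11) nil nil) nil) nil) (node (nat_lit 6) (nat_lit 66947) (nat_lit 8) (node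
  (nat_lit 4) (nat_lit 66947) (nat_lit 9) (node (nat_lit 5) (nat_lit 66947) (nat_lit 10) (node
  (nat_lit 6) (nat_lit 66947) (nat_lit 11) (node (nat_lit 5) (nat_lit 66947) (nat_lit 12) (node
  (nat_lit 4) (nat_lit 66578) (nat_lit 13) (node (nat_lit 6) (nat_lit 66168) (nat_lit 14) nil nil)
  nil) nil) nil) nil) (node (nat_lit 1) (nat_lit 66947) (nat_lit 9) nil nil)) (node (nat_lit 4)
  (nat_lit 66947) (nat_lit 8) (node (nat_lit 6) (nat_lit 66947) (nat_lit 9) (node (nat_lit 4)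
  (nat_lit 66947) (nat_lit 10) (node (nat_lit 5) (nat_lit 66947) (nat_lit 11) (node (nat_lit 6)
  (nat_lit 66947) (nat_lit 12) (node (nat_lit 5) (nat_lit 65445) (nat_lit 13) (node (nat_lit 4)
  (nat_lit 57566) (nat_lit 14) nil nil) nil) nil) nil) nil) nil) (node (nat_lit 1) (nat_lit 66947)
  (nat_lit 8) (node (nat_lit 4) (nat_lit 66947) (nat_lit 9) (node (nat_lit 5) (nat_lit 66947)
  (nat_lit 10) nil nil) (node (nat_lit 6) (nat_lit 66947) (nat_lit 9) nil nil)) (node (nat_lit 0)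
  (nat_lit 66947) (nat_lit 8) nil nil))))) (node (nat_lit 5) (nat_lit 53101) (nat_lit 7) (node
  (nat_lit 6) (nat_lit 63749) (nat_lit 8) (node (nat_lit 4) (nat_lit 66387) (nat_lit 9) (node
  (nat_lit 5) (nat_lit 66078) (nat_lit 10) (node (nat_lit 6) (nat_lit 58230) (nat_lit 11) (node
  (nat_lit 5) (nat_lit 58230) (nat_lit 12) (node (nat_lit 4) (nat_lit 58230) (nat_lit 13) (node
  (nat_lit 6) (nat_lit 40408) (nat_lit 14) nil nil) nil) nil) (node (nat_lit 4) (nat_lit 64979)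
  (nat_lit 11) (node (nat_lit 6) (nat_lit 64200) (nat_lit 12) (node (nat_lit 4) (nat_lit 63608)
  (nat_lit 13) (node (nat_lit 5) (nat_lit 63150) (nat_lit 14) (node (nat_lit 6) (nat_lit 62793)
  (nat_lit 15) (node (nat_lit 5) (nat_lit 62513) (nat_lit 16) (node (nat_lit 4) (nat_lit 62295)
  (nat_lit 17) (node (nat_lit 6) (nat_lit 60631) (nat_lit 18) (node (nat_lit 5) (nat_lit 57510)
  (nat_lit 19) (node (nat_lit 6) (nat_lit 52121) (nat_lit 20) (node (nat_lit 4) (nat_lit 42863)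
  (nat_lit 21) (node (nat_lit 5) (nat_lit 39276) (nat_lit 22) nil nil) nil) nil) nil) nil) nil)
  nil) nil) nil) nil) nil) nil)) (node (nat_lit 6) (nat_lit 65217) (nat_lit 10) (node (nat_lit 5)
  (nat_lit 64190) (nat_lit 11) (node (nat_lit 4) (nat_lit 63411) (nat_lit 12) (node (nat_lit 6)
  (nat_lit 62819) (nat_lit 13) (node (nat_lit 4) (nat_lit 62361) (nat_lit 14) (node (nat_lit 5)
  (nat_lit 62004) (nat_lit 15) (node (nat_lit 6) (nat_lit 61724) (nat_lit 16) (node (nat_lit 5)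
  (nat_lit 61506) (nat_lit 17) (node (nat_lit 4) (nat_lit 61334) (nat_lit 18) (node (nat_lit 6)
  (nat_lit 61202) (nat_lit 19) (node (nat_lit 5) (nat_lit 60412) (nat_lit 20) (node (nat_lit 6)
  (nat_lit 56047) (nat_lit 21) (node (nat_lit 4) (nat_lit 48842) (nat_lit 22) (node (nat_lit 6)
  (nat_lit 41304) (nat_lit 23) (node (nat_lit 5) (nat_lit 39205) (nat_lit 24) nil nil) nil) nil)
  nil) nil) nil) nil) nil) nil) nil) nil) nil) nil) nil) nil)) nil) (node (nat_lit 1) (nat_lit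
  66947) (nat_lit 8) nil (node (nat_lit 0) (nat_lit 62754) (nat_lit 8) nil nil))) nil)))) (node
  (nat_lit 5) (nat_lit 53013) (nat_lit 6) (node (nat_lit 6) (nat_lit 53079) (nat_lit 7) (node
  (nat_lit 4) (nat_lit 63060) (nat_lit 8) (node (nat_lit 5) (nat_lit 66947) (nat_lit 9) (node
  (nat_lit 4) (nat_lit 66947) (nat_lit 10) (node (nat_lit 6) (nat_lit 66947) (nat_lit 11) (node
  (nat_lit 4) (nat_lit 66447) (nat_lit 12) (node (nat_lit 5) (nat_lit 65855) (nat_lit 13) (node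
  (nat_lit 6) (nat_lit 65292) (nat_lit 14) (node (nat_lit 5) (nat_lit 63334) (nat_lit 15) (node
  (nat_lit 4) (nat_lit 61629) (nat_lit 16) (node (nat_lit 5) (nat_lit 57899) (nat_lit 17) (node
  (nat_lit 6) (nat_lit 53659) (nat_lit 18) (node (nat_lit 4) (nat_lit 44416) (nat_lit 19) (node
  (nat_lit 5) (nat_lit 40824) (nat_lit 20) nil nil) nil) nil) nil) nil) nil) nil) nil) nil) nil)
  (node (nat_lit 0) (nat_lit 66947) (nat_lit 10) nil (node (nat_lit 1) (nat_lit 66947) (nat_lit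
  10) nil nil))) (node (nat_lit 6) (nat_lit 66146) (nat_lit 9) (node (nat_lit 5) (nat_lit 64930)
  (nat_lit 10) (node (nat_lit 6) (nat_lit 63904) (nat_lit 11) (node (nat_lit 4) (nat_lit 63125)
  (nat_lit 12) (node (nat_lit 5) (nat_lit 62533) (nat_lit 13) (node (nat_lit 6) (nat_lit 62074)
  (nat_lit 14) (node (nat_lit 5) (nat_lit 61717) (nat_lit 15) (node (nat_lit 4) (nat_lit 61438)
  (nat_lit 16) (node (nat_lit 5) (nat_lit 57757) (nat_lit 17) (node (nat_lit 6) (nat_lit 52317)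
  (nat_lit 18) (node (nat_lit 4) (nat_lit 45031) (nat_lit 19) (node (nat_lit 6) (nat_lit 39393)
  (nat_lit 20) (node (nat_lit 5) (nat_lit 39327) (nat_lit 21) nil nil) nil) nil) nil) nil) nil)
  nil) nil) nil) nil) nil) (node (nat_lit 1) (nat_lit 65382) (nat_lit 10) nil nil)) (node (nat_lit
  1) (nat_lit 66947) (nat_lit 9) (node (nat_lit 4) (nat_lit 64809) (nat_lit 10) (node (nat_lit 5)
  (nat_lit 63341) (nat_lit 11) (node (nat_lit 6) (nat_lit 63186) (nat_lit 12) nil nil) nil) nil)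
  (node (nat_lit 0) (nat_lit 65823) (nat_lit 9) nil nil)))) (node (nat_lit 1) (nat_lit 66947)
  (nat_lit 8) (node (nat_lit 4) (nat_lit 66947) (nat_lit 9) (node (nat_lit 5) (nat_lit 63136)
  (nat_lit 10) (node (nat_lit 6) (nat_lit 58679) (nat_lit 11) (node (nat_lit 5) (nat_lit 51599)
  (nat_lit 12) (node (nat_lit 4) (nat_lit 40501) (nat_lit 13) nil nil) nil) nil) nil) (node
  (nat_lit 6) (nat_lit 66947) (nat_lit 9) nil nil)) (node (nat_lit 0) (nat_lit 66947) (nat_lit 8)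
  (node (nat_lit 6) (nat_lit 66947) (nat_lit 9) nil nil) nil))) (node (nat_lit 1) (nat_lit 66947)
  (nat_lit 7) (node (nat_lit 4) (nat_lit 66947) (nat_lit 8) (node (nat_lit 5) (nat_lit 66947)
  (nat_lit 9) (node (nat_lit 6) (nat_lit 58227) (nat_lit 10) (node (nat_lit 5) (nat_lit 56010)
  (nat_lit 11) (node (nat_lit 4) (nat_lit 41801) (nat_lit 12) nil nil) nil) nil) (node (nat_lit 6)
  (nat_lit 66947) (nat_lit 9) nil nil)) (node (nat_lit 6) (nat_lit 66947) (nat_lit 8) (node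
  (nat_lit 4) (nat_lit 66947) (nat_lit 9) (node (nat_lit 5) (nat_lit 66947) (nat_lit 10) (node
  (nat_lit 6) (nat_lit 66947) (nat_lit 11) (node (nat_lit 5) (nat_lit 66947) (nat_lit 12) (node
  (nat_lit 4) (nat_lit 66947) (nat_lit 13) nil nil) nil) nil) nil) nil) (node (nat_lit 5) (nat_lit
  66947) (nat_lit 8) nil nil))) (node (nat_lit 0) (nat_lit 66947) (nat_lit 7) (node (nat_lit 4)
  (nat_lit 66947) (nat_lit 8) nil (node (nat_lit 6) (nat_lit 66947) (nat_lit 8) (node (nat_lit 4)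
  (nat_lit 66947) (nat_lit 9) (node (nat_lit 5) (nat_lit 66947) (nat_lit 10) (node (nat_lit 6)
  (nat_lit 66947) (nat_lit 11) nil nil) nil) nil) (node (nat_lit 1) (nat_lit 66947) (nat_lit 8)
  nil (node (nat_lit 5) (nat_lit 66947) (nat_lit 8) nil nil)))) nil))) (node (nat_lit 1) (nat_lit
  65303) (nat_lit 6) (node (nat_lit 6) (nat_lit 66947) (nat_lit 7) (node (nat_lit 4) (nat_lit
  66947) (nat_lit 8) (node (nat_lit 5) (nat_lit 66947) (nat_lit 9) (node (nat_lit 6) (nat_lit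
  66947) (nat_lit 10) (node (nat_lit 5) (nat_lit 66947) (nat_lit 11) (node (nat_lit 4) (nat_lit
  66224) (nat_lit 12) nil nil) nil) nil) nil) nil) (node (nat_lit 4) (nat_lit 66947) (nat_lit 7)
  (node (nat_lit 5) (nat_lit 66947) (nat_lit 8) (node (nat_lit 6) (nat_lit 57812) (nat_lit 9)
  (node (nat_lit 5) (nat_lit 39170) (nat_lit 10) nil nil) nil) nil) (node (nat_lit 5) (nat_lit
  66947) (nat_lit 7) (node (nat_lit 4) (nat_lit 66947) (nat_lit 8) nil (node (nat_lit 9) (nat_lit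
  66947) (nat_lit 8) (node (nat_lit 4) (nat_lit 66947) (nat_lit 9) (node (nat_lit 5) (nat_lit
  66947) (nat_lit 10) (node (nat_lit 6) (nat_lit 65129) (nat_lit 11) (node (nat_lit 5) (nat_lit
  59261) (nat_lit 12) (node (nat_lit 4) (nat_lit 39866) (nat_lit 13) nil nil) nil) nil) nil) nil)
  (node (nat_lit 6) (nat_lit 66947) (nat_lit 8) nil nil))) (node (nat_lit 0) (nat_lit 66947)
  (nat_lit 7) (node (nat_lit 6) (nat_lit 66947) (nat_lit 8) nil (node (nat_lit 9) (nat_lit 66947)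
  (nat_lit 8) nil nil)) nil)))) (node (nat_lit 0) (nat_lit 65348) (nat_lit 6) (node (nat_lit 5)
  (nat_lit 66947) (nat_lit 7) (node (nat_lit 6) (nat_lit 66947) (nat_lit 8) (node (nat_lit 4)
  (nat_lit 66200) (nat_lit 9) (node (nat_lit 5) (nat_lit 62193) (nat_lit 10) nil nil) nil) nil)
  (node (nat_lit 6) (nat_lit 66947) (nat_lit 7) (node (nat_lit 4) (nat_lit 66947) (nat_lit 8)
  (node (nat_lit 5) (nat_lit 66947) (nat_lit 9) (node (nat_lit 6) (nat_lit 66947) (nat_lit 10)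
  (node (nat_lit 5) (nat_lit 66947) (nat_lit 11) (node (nat_lit 4) (nat_lit 66269) (nat_lit 12)
  nil nil) nil) nil) nil) nil) (node (nat_lit 4) (nat_lit 66947) (nat_lit 7) (node (nat_lit 5)
  (nat_lit 66947) (nat_lit 8) nil (node (nat_lit 1) (nat_lit 66947) (nat_lit 8) nil (node (nat_lit
  6) (nat_lit 65690) (nat_lit 8) (node (nat_lit 4) (nat_lit 63601) (nat_lit 9) (node (nat_lit 5)
  (nat_lit 59594) (nat_lit 10) nil nil) nil) nil))) (node (nat_lit 1) (nat_lit 66947) (nat_lit 7)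
  (node (nat_lit 4) (nat_lit 66947) (nat_lit 8) (node (nat_lit 5) (nat_lit 66947) (nat_lit 9)
  (node (nat_lit 6) (nat_lit 66947) (nat_lit 10) nil nil) nil) nil) (node (nat_lit 0) (nat_lit
  66947) (nat_lit 7) nil nil))))) nil)))) (node (nat_lit 1) (nat_lit 59940) (nat_lit 5) (node
  (nat_lit 6) (nat_lit 64430) (nat_lit 6) (node (nat_lit 8) (nat_lit 67393) (nat_lit 7) (node
  (nat_lit 5) (nat_lit 69108) (nat_lit 8) (node (nat_lit 8) (nat_lit 70732) (nat_lit 9) (node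
  (nat_lit 6) (nat_lit 71641) (nat_lit 10) (node (nat_lit 5) (nat_lit 71216) (nat_lit 11) (node
  (nat_lit 6) (nat_lit 71512) (nat_lit 12) (node (nat_lit 8) (nat_lit 71978) (nat_lit 13) nil nil)
  (node (nat_lit 8) (nat_lit 70455) (nat_lit 12) nil nil)) (node (nat_lit 4) (nat_lit 72274)
  (nat_lit 11) (node (nat_lit 5) (nat_lit 71909) (nat_lit 12) (node (nat_lit 6) (nat_lit 71647)
  (nat_lit 13) nil nil) nil) nil)) (node (nat_lit 4) (nat_lit 71641) (nat_lit 10) (node (nat_lit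
  5) (nat_lit 72274) (nat_lit 11) (node (nat_lit 6) (nat_lit 70148) (nat_lit 12) (node (nat_lit 5)
  (nat_lit 65966) (nat_lit 13) (node (nat_lit 8) (nat_lit 60450) (nat_lit 14) (node (nat_lit 6)
  (nat_lit 53023) (nat_lit 15) nil nil) nil) nil) nil) (node (nat_lit 6) (nat_lit 69449) (nat_lit
  11) nil nil)) (node (nat_lit 0) (nat_lit 71449) (nat_lit 10) nil nil))) (node (nat_lit 6)
  (nat_lit 70356) (nat_lit 9) (node (nat_lit 8) (nat_lit 71073) (nat_lit 10) (node (nat_lit 4)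
  (nat_lit 70648) (nat_lit 11) (node (nat_lit 5) (nat_lit 67336) (nat_lit 12) (node (nat_lit 6)
  (nat_lit 65530) (nat_lit 13) nil nil) nil) nil) (node (nat_lit 4) (nat_lit 69725) (nat_lit 10)
  (node (nat_lit 5) (nat_lit 69687) (nat_lit 11) (node (nat_lit 6) (nat_lit 66894) (nat_lit 12)
  (node (nat_lit 5) (nat_lit 63641) (nat_lit 13) (node (nat_lit 8) (nat_lit 56447) (nat_lit 14)
  (node (nat_lit 6) (nat_lit 44068) (nat_lit 15) (node (nat_lit 8) (nat_lit 44076) (nat_lit 16)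
  nil nil) nil) nil) nil) nil) nil) nil)) (node (nat_lit 4) (nat_lit 70987) (nat_lit 9) (node
  (nat_lit 6) (nat_lit 71480) (nat_lit 10) (node (nat_lit 4) (nat_lit 71105) (nat_lit 11) (node
  (nat_lit 5) (nat_lit 69411) (nat_lit 12) (node (nat_lit 6) (nat_lit 67774) (nat_lit 13) (node
  (nat_lit 5) (nat_lit 64991) (nat_lit 14) (node (nat_lit 8) (nat_lit 60798) (nat_lit 15) (node
  (nat_lit 6) (nat_lit 55750) (nat_lit 16) (node (nat_lit 8) (nat_lit 41640) (nat_lit 17) (node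
  (nat_lit 5) (nat_lit 41503) (nat_lit 18) nil nil) nil) nil) nil) nil) nil) nil) (node (nat_lit
  8) (nat_lit 70872) (nat_lit 11) nil nil)) (node (nat_lit 8) (nat_lit 71703) (nat_lit 10) (node
  (nat_lit 4) (nat_lit 68654) (nat_lit 11) nil nil) nil)) (node (nat_lit 0) (nat_lit 70052)
  (nat_lit 9) nil nil)))) (node (nat_lit 4) (nat_lit 71133) (nat_lit 8) (node (nat_lit 6) (nat_lit
  72216) (nat_lit 9) (node (nat_lit 4) (nat_lit 72507) (nat_lit 10) (node (nat_lit 5) (nat_lit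
  72728) (nat_lit 11) (node (nat_lit 6) (nat_lit 71716) (nat_lit 12) (node (nat_lit 5) (nat_lit
  59740) (nat_lit 13) (node (nat_lit 8) (nat_lit 52545) (nat_lit 14) (node (nat_lit 6) (nat_lit
  44855) (nat_lit 15) (node (nat_lit 8) (nat_lit 43139) (nat_lit 16) nil nil) nil) nil) nil) nil)
  nil) nil) (node (nat_lit 5) (nat_lit 72216) (nat_lit 9) (node (nat_lit 6) (nat_lit 66202)
  (nat_lit 10) (node (nat_lit 5) (nat_lit 58139) (nat_lit 11) (node (nat_lit 8) (nat_lit 29412)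
  (nat_lit 12) nil nil) (node (nat_lit 8) (nat_lit 65178) (nat_lit 11) nil nil)) nil) nil)) (node
  (nat_lit 0) (nat_lit 70918) (nat_lit 8) (node (nat_lit 4) (nat_lit 68476) (nat_lit 9) nil (node
  (nat_lit 5) (nat_lit 68476) (nat_lit 9) nil (node (nat_lit 6) (nat_lit 70084) (nat_lit 9) nil
  (node (nat_lit 8) (nat_lit 71861) (nat_lit 9) nil nil)))) nil))) (node (nat_lit 4) (nat_lit
  69536) (nat_lit 7) (node (nat_lit 8) (nat_lit 71251) (nat_lit 8) (node (nat_lit 4) (nat_lit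
  72413) (nat_lit 9) (node (nat_lit 6) (nat_lit 69576) (nat_lit 10) nil (node (nat_lit 5) (nat_lit
  71270) (nat_lit 10) (node (nat_lit 6) (nat_lit 66817) (nat_lit 11) (node (nat_lit 5) (nat_lit
  54189) (nat_lit 12) nil nil) nil) nil)) nil) (node (nat_lit 5) (nat_lit 70900) (nat_lit 8) (node
  (nat_lit 6) (nat_lit 70067) (nat_lit 9) (node (nat_lit 5) (nat_lit 69352) (nat_lit 10) nil nil)
  (node (nat_lit 8) (nat_lit 69014) (nat_lit 9) nil nil)) (node (nat_lit 6) (nat_lit 71251)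
  (nat_lit 8) (node (nat_lit 8) (nat_lit 72195) (nat_lit 9) (node (nat_lit 4) (nat_lit 68091)
  (nat_lit 10) nil nil) (node (nat_lit 5) (nat_lit 68810) (nat_lit 9) nil nil)) (node (nat_lit 0)
  (nat_lit 70900) (nat_lit 8) (node (nat_lit 6) (nat_lit 70067) (nat_lit 9) nil nil) nil)))) (node
  (nat_lit 5) (nat_lit 67393) (nat_lit 7) (node (nat_lit 6) (nat_lit 69108) (nat_lit 8) (node
  (nat_lit 8) (nat_lit 67222) (nat_lit 9) nil (node (nat_lit 4) (nat_lit 63115) (nat_lit 9) nil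
  nil)) nil) (node (nat_lit 0) (nat_lit 69536) (nat_lit 7) (node (nat_lit 4) (nat_lit 71251)
  (nat_lit 8) (node (nat_lit 6) (nat_lit 72216) (nat_lit 9) nil nil) (node (nat_lit 6) (nat_lit
  71251) (nat_lit 8) (node (nat_lit 4) (nat_lit 70418) (nat_lit 9) (node (nat_lit 5) (nat_lit
  69704) (nat_lit 10) nil nil) (node (nat_lit 8) (nat_lit 69365) (nat_lit 9) nil nil)) (node
  (nat_lit 5) (nat_lit 71251) (nat_lit 8) (node (nat_lit 8) (nat_lit 69365) (nat_lit 9) nil (node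
  (nat_lit 6) (nat_lit 67589) (nat_lit 9) nil nil)) (node (nat_lit 8) (nat_lit 70900) (nat_lit 8)
  nil nil)))) nil)))) (node (nat_lit 4) (nat_lit 67126) (nat_lit 6) (node (nat_lit 5) (nat_lit
  57323) (nat_lit 7) (node (nat_lit 4) (nat_lit 60058) (nat_lit 8) (node (nat_lit 8) (nat_lit
  60449) (nat_lit 9) nil (node (nat_lit 6) (nat_lit 58426) (nat_lit 9) (node (nat_lit 8) (nat_lit
  57684) (nat_lit 10) nil (node (nat_lit 5) (nat_lit 56445) (nat_lit 10) nil nil)) (node (nat_lit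
  0) (nat_lit 61002) (nat_lit 9) nil nil))) (node (nat_lit 6) (nat_lit 41619) (nat_lit 8) (node
  (nat_lit 4) (nat_lit 42563) (nat_lit 9) (node (nat_lit 8) (nat_lit 43279) (nat_lit 10) (node
  (nat_lit 4) (nat_lit 40230) (nat_lit 11) nil nil) (node (nat_lit 6) (nat_lit 41848) (nat_lit 10)
  nil nil)) (node (nat_lit 8) (nat_lit 42563) (nat_lit 9) (node (nat_lit 5) (nat_lit 40553)
  (nat_lit 10) nil nil) (node (nat_lit 0) (nat_lit 42563) (nat_lit 9) nil nil))) (node (nat_lit 8)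
  (nat_lit 60626) (nat_lit 8) nil (node (nat_lit 0) (nat_lit 60057) (nat_lit 8) nil nil)))) (node
  (nat_lit 6) (nat_lit 70087) (nat_lit 7) (node (nat_lit 4) (nat_lit 69671) (nat_lit 8) (node
  (nat_lit 5) (nat_lit 65054) (nat_lit 9) (node (nat_lit 6) (nat_lit 58639) (nat_lit 10) (node
  (nat_lit 5) (nat_lit 51348) (nat_lit 11) (node (nat_lit 8) (nat_lit 40262) (nat_lit 12) nil nil)
  nil) nil) nil) (node (nat_lit 8) (nat_lit 69859) (nat_lit 8) (node (nat_lit 6) (nat_lit 70802)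
  (nat_lit 9) nil nil) nil)) (node (nat_lit 8) (nat_lit 69709) (nat_lit 7) nil nil))) (node
  (nat_lit 5) (nat_lit 64430) (nat_lit 6) (node (nat_lit 6) (nat_lit 67393) (nat_lit 7) (node
  (nat_lit 8) (nat_lit 69108) (nat_lit 8) (node (nat_lit 6) (nat_lit 70052) (nat_lit 9) nil (node
  (nat_lit 4) (nat_lit 70270) (nat_lit 9) (node (nat_lit 5) (nat_lit 63109) (nat_lit 10) nil nil)
  nil)) (node (nat_lit 4) (nat_lit 64028) (nat_lit 8) (node (nat_lit 5) (nat_lit 60419) (nat_lit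
  9) (node (nat_lit 6) (nat_lit 53470) (nat_lit 10) (node (nat_lit 5) (nat_lit 43341) (nat_lit 11)
  nil nil) nil) nil) nil)) (node (nat_lit 4) (nat_lit 69099) (nat_lit 7) (node (nat_lit 6)
  (nat_lit 70387) (nat_lit 8) (node (nat_lit 5) (nat_lit 68210) (nat_lit 9) nil nil) (node
  (nat_lit 8) (nat_lit 70463) (nat_lit 8) nil nil)) (node (nat_lit 0) (nat_lit 66503) (nat_lit 7)
  nil nil))) (node (nat_lit 0) (nat_lit 66948) (nat_lit 6) (node (nat_lit 5) (nat_lit 69910)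
  (nat_lit 7) nil (node (nat_lit 8) (nat_lit 69021) (nat_lit 7) nil (node (nat_lit 6) (nat_lit
  69910) (nat_lit 7) (node (nat_lit 4) (nat_lit 68997) (nat_lit 8) nil nil) nil))) nil)))) (node
  (nat_lit 0) (nat_lit 62890) (nat_lit 5) (node (nat_lit 6) (nat_lit 67380) (nat_lit 6) (node
  (nat_lit 4) (nat_lit 69453) (nat_lit 7) (node (nat_lit 5) (nat_lit 68541) (nat_lit 8) (node
  (nat_lit 6) (nat_lit 67708) (nat_lit 9) (node (nat_lit 5) (nat_lit 66993) (nat_lit 10) nil nil)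
  nil) nil) (node (nat_lit 5) (nat_lit 70342) (nat_lit 7) (node (nat_lit 6) (nat_lit 69897)
  (nat_lit 8) nil nil) (node (nat_lit 1) (nat_lit 64025) (nat_lit 7) nil nil))) (node (nat_lit 4)
  (nat_lit 67516) (nat_lit 6) (node (nat_lit 1) (nat_lit 64161) (nat_lit 7) nil (node (nat_lit 6)
  (nat_lit 66087) (nat_lit 7) (node (nat_lit 4) (nat_lit 63216) (nat_lit 8) (node (nat_lit 5)
  (nat_lit 57667) (nat_lit 9) (node (nat_lit 6) (nat_lit 50864) (nat_lit 10) (node (nat_lit 5)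
  (nat_lit 43319) (nat_lit 11) nil nil) nil) nil) nil) nil)) (node (nat_lit 5) (nat_lit 67380)
  (nat_lit 6) (node (nat_lit 6) (nat_lit 70342) (nat_lit 7) (node (nat_lit 4) (nat_lit 64984)
  (nat_lit 8) nil nil) (node (nat_lit 1) (nat_lit 69453) (nat_lit 7) nil nil)) (node (nat_lit 1)
  (nat_lit 67371) (nat_lit 6) (node (nat_lit 4) (nat_lit 70333) (nat_lit 7) (node (nat_lit 5)
  (nat_lit 71697) (nat_lit 8) nil nil) (node (nat_lit 6) (nat_lit 66407) (nat_lit 7) nil nil))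
  (node (nat_lit 0) (nat_lit 67507) (nat_lit 6) nil nil))))) nil)))

noncomputable def t18 : Tr :=
  (node (nat_lit 4) (nat_lit 49607) (nat_lit 5) (node (nat_lit 5) (nat_lit 26353) (nat_lit 6)
  (node (nat_lit 4) (nat_lit 27941) (nat_lit 7) (node (nat_lit 6) (nat_lit 28891) (nat_lit 8)
  (node (nat_lit 5) (nat_lit 29568) (nat_lit 9) (node (nat_lit 6) (nat_lit 30108) (nat_lit 10)
  (node (nat_lit 4) (nat_lit 30590) (nat_lit 11) (node (nat_lit 5) (nat_lit 31011) (nat_lit 12)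
  (node (nat_lit 6) (nat_lit 25809) (nat_lit 13) nil nil) nil) nil) (node (nat_lit 7) (nat_lit
  30108) (nat_lit 10) (node (nat_lit 4) (nat_lit 30590) (nat_lit 11) (node (nat_lit 5) (nat_lit
  31011) (nat_lit 12) (node (nat_lit 6) (nat_lit 31237) (nat_lit 13) nil nil) nil) (node (nat_lit
  6) (nat_lit 30416) (nat_lit 11) nil nil)) (node (nat_lit 0) (nat_lit 29916) (nat_lit 10) nil
  nil))) (node (nat_lit 7) (nat_lit 29568) (nat_lit 9) (node (nat_lit 4) (nat_lit 30167) (nat_lit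
  10) (node (nat_lit 7) (nat_lit 30649) (nat_lit 11) (node (nat_lit 5) (nat_lit 30080) (nat_lit
  12) nil (node (nat_lit 6) (nat_lit 31069) (nat_lit 12) (node (nat_lit 4) (nat_lit 31295)
  (nat_lit 13) nil nil) nil)) (node (nat_lit 6) (nat_lit 30649) (nat_lit 11) (node (nat_lit 4)
  (nat_lit 28651) (nat_lit 12) nil nil) nil)) (node (nat_lit 5) (nat_lit 29102) (nat_lit 10) (node
  (nat_lit 6) (nat_lit 29165) (nat_lit 11) nil nil) (node (nat_lit 6) (nat_lit 29916) (nat_lit 10)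
  nil nil))) (node (nat_lit 4) (nat_lit 29568) (nat_lit 9) (node (nat_lit 5) (nat_lit 28353)
  (nat_lit 10) (node (nat_lit 6) (nat_lit 25585) (nat_lit 11) (node (nat_lit 7) (nat_lit 8351)
  (nat_lit 12) nil nil) nil) (node (nat_lit 7) (nat_lit 29916) (nat_lit 10) nil nil)) (node
  (nat_lit 0) (nat_lit 29568) (nat_lit 9) (node (nat_lit 7) (nat_lit 29916) (nat_lit 10) nil (node
  (nat_lit 5) (nat_lit 28621) (nat_lit 10) nil nil)) nil)))) (node (nat_lit 7) (nat_lit 28891)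
  (nat_lit 8) (node (nat_lit 5) (nat_lit 29568) (nat_lit 9) (node (nat_lit 7) (nat_lit 30108)
  (nat_lit 10) (node (nat_lit 4) (nat_lit 30590) (nat_lit 11) (node (nat_lit 5) (nat_lit 30869)
  (nat_lit 12) (node (nat_lit 6) (nat_lit 31095) (nat_lit 13) nil nil) nil) (node (nat_lit 6)
  (nat_lit 30416) (nat_lit 11) nil nil)) (node (nat_lit 4) (nat_lit 30108) (nat_lit 10) (node
  (nat_lit 5) (nat_lit 30416) (nat_lit 11) (node (nat_lit 7) (nat_lit 30694) (nat_lit 12) (node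
  (nat_lit 4) (nat_lit 30262) (nat_lit 13) (node (nat_lit 5) (nat_lit 30438) (nat_lit 14) nil nil)
  nil) nil) nil) (node (nat_lit 6) (nat_lit 30108) (nat_lit 10) (node (nat_lit 7) (nat_lit 30416)
  (nat_lit 11) (node (nat_lit 4) (nat_lit 29847) (nat_lit 12) nil nil) (node (nat_lit 4) (nat_lit
  27379) (nat_lit 11) nil nil)) nil))) (node (nat_lit 4) (nat_lit 29568) (nat_lit 9) (node
  (nat_lit 5) (nat_lit 29916) (nat_lit 10) (node (nat_lit 6) (nat_lit 30224) (nat_lit 11) (node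
  (nat_lit 7) (nat_lit 30502) (nat_lit 12) nil nil) nil) (node (nat_lit 6) (nat_lit 30108)
  (nat_lit 10) (node (nat_lit 7) (nat_lit 30416) (nat_lit 11) nil nil) nil)) (node (nat_lit 6)
  (nat_lit 29568) (nat_lit 9) (node (nat_lit 5) (nat_lit 28621) (nat_lit 10) nil (node (nat_lit 4)
  (nat_lit 29916) (nat_lit 10) nil nil)) (node (nat_lit 0) (nat_lit 29350) (nat_lit 9) nil nil))))
  (node (nat_lit 0) (nat_lit 28891) (nat_lit 8) (node (nat_lit 5) (nat_lit 29568) (nat_lit 9) nil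
  (node (nat_lit 4) (nat_lit 29568) (nat_lit 9) nil (node (nat_lit 7) (nat_lit 29350) (nat_lit 9)
  nil (node (nat_lit 6) (nat_lit 29350) (nat_lit 9) nil nil)))) nil))) (node (nat_lit 7) (nat_lit
  27775) (nat_lit 7) (node (nat_lit 6) (nat_lit 28726) (nat_lit 8) (node (nat_lit 7) (nat_lit
  29403) (nat_lit 9) (node (nat_lit 4) (nat_lit 30147) (nat_lit 10) (node (nat_lit 6) (nat_lit
  30629) (nat_lit 11) (node (nat_lit 5) (nat_lit 31049) (nat_lit 12) (node (nat_lit 7) (nat_lit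
  31275) (nat_lit 13) nil nil) (node (nat_lit 4) (nat_lit 31049) (nat_lit 12) nil nil)) (node
  (nat_lit 7) (nat_lit 30098) (nat_lit 11) nil (node (nat_lit 0) (nat_lit 30455) (nat_lit 11) nil
  nil))) nil) (node (nat_lit 4) (nat_lit 29403) (nat_lit 9) (node (nat_lit 5) (nat_lit 29751)
  (nat_lit 10) (node (nat_lit 6) (nat_lit 30058) (nat_lit 11) nil nil) (node (nat_lit 7) (nat_lit
  29751) (nat_lit 10) (node (nat_lit 4) (nat_lit 29001) (nat_lit 11) nil nil) nil)) (node (nat_lit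
  5) (nat_lit 29403) (nat_lit 9) (node (nat_lit 6) (nat_lit 27474) (nat_lit 10) (node (nat_lit 7)
  (nat_lit 27782) (nat_lit 11) nil nil) nil) nil))) (node (nat_lit 5) (nat_lit 28726) (nat_lit 8)
  (node (nat_lit 4) (nat_lit 29403) (nat_lit 9) (node (nat_lit 7) (nat_lit 29281) (nat_lit 10)
  (node (nat_lit 4) (nat_lit 28531) (nat_lit 11) (node (nat_lit 5) (nat_lit 28810) (nat_lit 12)
  nil nil) nil) (node (nat_lit 5) (nat_lit 29751) (nat_lit 10) nil (node (nat_lit 6) (nat_lit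
  29944) (nat_lit 10) nil nil))) (node (nat_lit 6) (nat_lit 29403) (nat_lit 9) nil nil)) (node
  (nat_lit 4) (nat_lit 28877) (nat_lit 8) (node (nat_lit 7) (nat_lit 29554) (nat_lit 9) (node
  (nat_lit 5) (nat_lit 30095) (nat_lit 10) (node (nat_lit 4) (nat_lit 30577) (nat_lit 11) nil nil)
  (node (nat_lit 6) (nat_lit 29902) (nat_lit 10) nil nil)) (node (nat_lit 6) (nat_lit 29554)
  (nat_lit 9) (node (nat_lit 5) (nat_lit 30095) (nat_lit 10) nil nil) (node (nat_lit 0) (nat_lit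
  29336) (nat_lit 9) nil nil))) (node (nat_lit 0) (nat_lit 28877) (nat_lit 8) (node (nat_lit 7)
  (nat_lit 28743) (nat_lit 9) nil nil) nil)))) (node (nat_lit 0) (nat_lit 27941) (nat_lit 7) (node
  (nat_lit 4) (nat_lit 28891) (nat_lit 8) (node (nat_lit 5) (nat_lit 29350) (nat_lit 9) nil (node
  (nat_lit 6) (nat_lit 26313) (nat_lit 9) nil (node (nat_lit 7) (nat_lit 29350) (nat_lit 9) nil
  nil))) (node (nat_lit 5) (nat_lit 28891) (nat_lit 8) (node (nat_lit 4) (nat_lit 27742) (nat_lit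
  9) nil (node (nat_lit 7) (nat_lit 29350) (nat_lit 9) nil nil)) (node (nat_lit 7) (nat_lit 28891)
  (nat_lit 8) nil (node (nat_lit 6) (nat_lit 28891) (nat_lit 8) (node (nat_lit 7) (nat_lit 29350)
  (nat_lit 9) nil (node (nat_lit 4) (nat_lit 29350) (nat_lit 9) nil nil)) (node (nat_lit 0)
  (nat_lit 28891) (nat_lit 8) nil nil))))) nil))) (node (nat_lit 6) (nat_lit 54954) (nat_lit 6)
  (node (nat_lit 4) (nat_lit 58446) (nat_lit 7) (node (nat_lit 7) (nat_lit 59688) (nat_lit 8)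
  (node (nat_lit 6) (nat_lit 58854) (nat_lit 9) nil (node (nat_lit 4) (nat_lit 59276) (nat_lit 9)
  (node (nat_lit 5) (nat_lit 59866) (nat_lit 10) (node (nat_lit 6) (nat_lit 58416) (nat_lit 11)
  (node (nat_lit 7) (nat_lit 45649) (nat_lit 12) (node (nat_lit 4) (nat_lit 34627) (nat_lit 13)
  nil nil) nil) nil) nil) (node (nat_lit 5) (nat_lit 59908) (nat_lit 9) (node (nat_lit 6) (nat_lit
  56917) (nat_lit 10) (node (nat_lit 7) (nat_lit 57204) (nat_lit 11) nil nil) nil) nil))) (node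
  (nat_lit 5) (nat_lit 52960) (nat_lit 8) (node (nat_lit 6) (nat_lit 39688) (nat_lit 9) (node
  (nat_lit 7) (nat_lit 37659) (nat_lit 10) nil nil) nil) nil)) (node (nat_lit 7) (nat_lit 58657)
  (nat_lit 7) (node (nat_lit 6) (nat_lit 60291) (nat_lit 8) (node (nat_lit 4) (nat_lit 61142)
  (nat_lit 9) (node (nat_lit 6) (nat_lit 60614) (nat_lit 10) (node (nat_lit 7) (nat_lit 61167)
  (nat_lit 11) (node (nat_lit 4) (nat_lit 60670) (nat_lit 12) nil nil) nil) (node (nat_lit 7)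
  (nat_lit 61647) (nat_lit 10) (node (nat_lit 4) (nat_lit 61321) (nat_lit 11) (node (nat_lit 6)
  (nat_lit 61171) (nat_lit 12) (node (nat_lit 7) (nat_lit 62035) (nat_lit 13) (node (nat_lit 4)
  (nat_lit 60908) (nat_lit 14) (node (nat_lit 5) (nat_lit 60837) (nat_lit 15) nil nil) nil) nil)
  nil) nil) (node (nat_lit 5) (nat_lit 60614) (nat_lit 10) (node (nat_lit 6) (nat_lit 60160)
  (nat_lit 11) nil nil) nil))) (node (nat_lit 5) (nat_lit 58395) (nat_lit 9) nil nil)) (node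
  (nat_lit 5) (nat_lit 61108) (nat_lit 8) (node (nat_lit 4) (nat_lit 62359) (nat_lit 9) (node
  (nat_lit 5) (nat_lit 61830) (nat_lit 10) (node (nat_lit 7) (nat_lit 62383) (nat_lit 11) nil nil)
  (node (nat_lit 6) (nat_lit 61539) (nat_lit 10) (node (nat_lit 4) (nat_lit 58507) (nat_lit 11)
  nil nil) (node (nat_lit 7) (nat_lit 61349) (nat_lit 10) nil nil))) (node (nat_lit 6) (nat_lit
  61857) (nat_lit 9) (node (nat_lit 4) (nat_lit 57177) (nat_lit 10) nil nil) (node (nat_lit 7)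
  (nat_lit 59901) (nat_lit 9) nil nil))) (node (nat_lit 0) (nat_lit 60021) (nat_lit 8) nil nil)))
  (node (nat_lit 5) (nat_lit 58562) (nat_lit 7) (node (nat_lit 4) (nat_lit 61014) (nat_lit 8)
  (node (nat_lit 6) (nat_lit 59262) (nat_lit 9) nil (node (nat_lit 7) (nat_lit 58921) (nat_lit 9)
  nil nil)) (node (nat_lit 6) (nat_lit 58177) (nat_lit 8) nil (node (nat_lit 7) (nat_lit 60203)
  (nat_lit 8) (node (nat_lit 6) (nat_lit 59370) (nat_lit 9) nil (node (nat_lit 4) (nat_lit 56847)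
  (nat_lit 9) nil nil)) nil))) (node (nat_lit 0) (nat_lit 58770) (nat_lit 7) (node (nat_lit 6)
  (nat_lit 57858) (nat_lit 8) nil (node (nat_lit 7) (nat_lit 60135) (nat_lit 8) nil nil)) nil))))
  (node (nat_lit 7) (nat_lit 55057) (nat_lit 6) (node (nat_lit 6) (nat_lit 58666) (nat_lit 7)
  (node (nat_lit 4) (nat_lit 61117) (nat_lit 8) (node (nat_lit 6) (nat_lit 61010) (nat_lit 9) nil
  (node (nat_lit 5) (nat_lit 60284) (nat_lit 9) (node (nat_lit 6) (nat_lit 59569) (nat_lit 10)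
  (node (nat_lit 7) (nat_lit 59856) (nat_lit 11) nil nil) nil) (node (nat_lit 7) (nat_lit 60044)
  (nat_lit 9) (node (nat_lit 4) (nat_lit 58980) (nat_lit 10) (node (nat_lit 6) (nat_lit 58526)
  (nat_lit 11) (node (nat_lit 7) (nat_lit 59003) (nat_lit 12) (node (nat_lit 4) (nat_lit 58701)
  (nat_lit 13) nil nil) nil) nil) nil) nil))) (node (nat_lit 7) (nat_lit 60830) (nat_lit 8) (node
  (nat_lit 4) (nat_lit 60684) (nat_lit 9) nil nil) (node (nat_lit 5) (nat_lit 59461) (nat_lit 8)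
  (node (nat_lit 7) (nat_lit 58308) (nat_lit 9) nil nil) (node (nat_lit 0) (nat_lit 60030)
  (nat_lit 8) nil nil)))) (node (nat_lit 5) (nat_lit 58666) (nat_lit 7) (node (nat_lit 4) (nat_lit
  61221) (nat_lit 8) (node (nat_lit 6) (nat_lit 61019) (nat_lit 9) (node (nat_lit 7) (nat_lit
  61394) (nat_lit 10) (node (nat_lit 4) (nat_lit 60048) (nat_lit 11) (node (nat_lit 5) (nat_lit
  59598) (nat_lit 12) nil nil) nil) nil) nil) (node (nat_lit 7) (nat_lit 60830) (nat_lit 8) nil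
  nil)) (node (nat_lit 0) (nat_lit 58779) (nat_lit 7) (node (nat_lit 4) (nat_lit 59798) (nat_lit
  8) nil (node (nat_lit 6) (nat_lit 57867) (nat_lit 8) nil (node (nat_lit 7) (nat_lit 60143)
  (nat_lit 8) nil nil))) nil))) (node (nat_lit 0) (nat_lit 55184) (nat_lit 6) (node (nat_lit 4)
  (nat_lit 58495) (nat_lit 7) (node (nat_lit 6) (nat_lit 57923) (nat_lit 8) nil (node (nat_lit 7)
  (nat_lit 59681) (nat_lit 8) nil nil)) (node (nat_lit 5) (nat_lit 58495) (nat_lit 7) nil (node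
  (nat_lit 7) (nat_lit 58793) (nat_lit 7) (node (nat_lit 4) (nat_lit 58097) (nat_lit 8) nil nil)
  (node (nat_lit 6) (nat_lit 58144) (nat_lit 7) (node (nat_lit 4) (nat_lit 57231) (nat_lit 8)
  (node (nat_lit 7) (nat_lit 57415) (nat_lit 9) nil nil) (node (nat_lit 7) (nat_lit 55429)
  (nat_lit 8) nil nil)) (node (nat_lit 0) (nat_lit 58378) (nat_lit 7) nil nil))))) nil)))) (node
  (nat_lit 5) (nat_lit 56757) (nat_lit 5) (node (nat_lit 7) (nat_lit 62769) (nat_lit 6) (node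
  (nat_lit 6) (nat_lit 66686) (nat_lit 7) (node (nat_lit 7) (nat_lit 68337) (nat_lit 8) (node
  (nat_lit 0) (nat_lit 69499) (nat_lit 9) (node (nat_lit 6) (nat_lit 68784) (nat_lit 10) (node
  (nat_lit 7) (nat_lit 69071) (nat_lit 11) nil nil) (node (nat_lit 7) (nat_lit 70216) (nat_lit 10)
  nil nil)) (node (nat_lit 4) (nat_lit 70216) (nat_lit 9) (node (nat_lit 6) (nat_lit 71125)
  (nat_lit 10) nil (node (nat_lit 7) (nat_lit 70933) (nat_lit 10) nil (node (nat_lit 5) (nat_lit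
  70933) (nat_lit 10) (node (nat_lit 6) (nat_lit 67759) (nat_lit 11) (node (nat_lit 7) (nat_lit
  62229) (nat_lit 12) (node (nat_lit 5) (nat_lit 39485) (nat_lit 13) nil nil) nil) nil) nil)))
  (node (nat_lit 5) (nat_lit 68209) (nat_lit 9) (node (nat_lit 6) (nat_lit 68693) (nat_lit 10)
  (node (nat_lit 7) (nat_lit 67548) (nat_lit 11) nil (node (nat_lit 4) (nat_lit 65288) (nat_lit
  11) nil nil)) nil) nil))) (node (nat_lit 5) (nat_lit 68337) (nat_lit 8) (node (nat_lit 6)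
  (nat_lit 70025) (nat_lit 9) (node (nat_lit 7) (nat_lit 70272) (nat_lit 10) (node (nat_lit 5)
  (nat_lit 69847) (nat_lit 11) (node (nat_lit 6) (nat_lit 70045) (nat_lit 12) nil nil) nil) nil)
  (node (nat_lit 7) (nat_lit 69281) (nat_lit 9) nil nil)) (node (nat_lit 4) (nat_lit 68337)
  (nat_lit 8) (node (nat_lit 5) (nat_lit 67504) (nat_lit 9) (node (nat_lit 6) (nat_lit 66790)
  (nat_lit 10) (node (nat_lit 7) (nat_lit 67076) (nat_lit 11) nil nil) nil) (node (nat_lit 7)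
  (nat_lit 66244) (nat_lit 9) (node (nat_lit 5) (nat_lit 64234) (nat_lit 10) (node (nat_lit 6)
  (nat_lit 63217) (nat_lit 11) nil nil) nil) nil)) nil))) (node (nat_lit 4) (nat_lit 66428)
  (nat_lit 7) (node (nat_lit 5) (nat_lit 64902) (nat_lit 8) (node (nat_lit 6) (nat_lit 63371)
  (nat_lit 9) (node (nat_lit 7) (nat_lit 40539) (nat_lit 10) (node (nat_lit 4) (nat_lit 37366)
  (nat_lit 11) nil nil) nil) nil) nil) (node (nat_lit 0) (nat_lit 64842) (nat_lit 7) (node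
  (nat_lit 6) (nat_lit 63930) (nat_lit 8) nil nil) nil))) (node (nat_lit 4) (nat_lit 65274)
  (nat_lit 6) (node (nat_lit 6) (nat_lit 68427) (nat_lit 7) (node (nat_lit 4) (nat_lit 66945)
  (nat_lit 8) (node (nat_lit 5) (nat_lit 60452) (nat_lit 9) (node (nat_lit 6) (nat_lit 58228)
  (nat_lit 10) (node (nat_lit 7) (nat_lit 43191) (nat_lit 11) (node (nat_lit 5) (nat_lit 42547)
  (nat_lit 12) nil nil) (node (nat_lit 5) (nat_lit 57554) (nat_lit 11) nil (node (nat_lit 4)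
  (nat_lit 57554) (nat_lit 11) nil nil))) (node (nat_lit 4) (nat_lit 60906) (nat_lit 10) (node
  (nat_lit 7) (nat_lit 60332) (nat_lit 11) nil nil) (node (nat_lit 7) (nat_lit 59579) (nat_lit 10)
  nil nil))) (node (nat_lit 7) (nat_lit 69231) (nat_lit 9) (node (nat_lit 5) (nat_lit 69012)
  (nat_lit 10) (node (nat_lit 6) (nat_lit 67995) (nat_lit 11) nil nil) nil) nil)) (node (nat_lit
  5) (nat_lit 70079) (nat_lit 8) (node (nat_lit 6) (nat_lit 66209) (nat_lit 9) (node (nat_lit 4)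
  (nat_lit 64675) (nat_lit 10) (node (nat_lit 5) (nat_lit 62235) (nat_lit 11) nil nil) nil) (node
  (nat_lit 7) (nat_lit 67986) (nat_lit 9) (node (nat_lit 4) (nat_lit 66587) (nat_lit 10) (node
  (nat_lit 5) (nat_lit 65316) (nat_lit 11) nil nil) nil) (node (nat_lit 4) (nat_lit 69245)
  (nat_lit 9) nil nil))) (node (nat_lit 7) (nat_lit 69791) (nat_lit 8) (node (nat_lit 4) (nat_lit
  67294) (nat_lit 9) (node (nat_lit 5) (nat_lit 64966) (nat_lit 10) (node (nat_lit 6) (nat_lit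
  61892) (nat_lit 11) nil nil) nil) (node (nat_lit 6) (nat_lit 70735) (nat_lit 9) nil nil)) (node
  (nat_lit 0) (nat_lit 69791) (nat_lit 8) nil nil)))) (node (nat_lit 7) (nat_lit 67762) (nat_lit
  7) (node (nat_lit 5) (nat_lit 69354) (nat_lit 8) (node (nat_lit 7) (nat_lit 70515) (nat_lit 9)
  (node (nat_lit 4) (nat_lit 71016) (nat_lit 10) (node (nat_lit 5) (nat_lit 69311) (nat_lit 11)
  (node (nat_lit 4) (nat_lit 68098) (nat_lit 12) (node (nat_lit 7) (nat_lit 68332) (nat_lit 13)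
  nil nil) nil) nil) nil) (node (nat_lit 6) (nat_lit 65484) (nat_lit 9) (node (nat_lit 4) (nat_lit
  63950) (nat_lit 10) nil nil) nil)) (node (nat_lit 4) (nat_lit 69414) (nat_lit 8) (node (nat_lit
  5) (nat_lit 64579) (nat_lit 9) (node (nat_lit 6) (nat_lit 58679) (nat_lit 10) (node (nat_lit 7)
  (nat_lit 48172) (nat_lit 11) nil nil) nil) (node (nat_lit 6) (nat_lit 67746) (nat_lit 9) nil
  nil)) (node (nat_lit 6) (nat_lit 69869) (nat_lit 8) (node (nat_lit 4) (nat_lit 69036) (nat_lit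
  9) nil nil) nil))) (node (nat_lit 5) (nat_lit 67762) (nat_lit 7) (node (nat_lit 7) (nat_lit
  65047) (nat_lit 8) (node (nat_lit 4) (nat_lit 62803) (nat_lit 9) (node (nat_lit 5) (nat_lit
  60726) (nat_lit 10) nil nil) nil) (node (nat_lit 6) (nat_lit 66850) (nat_lit 8) nil nil)) (node
  (nat_lit 0) (nat_lit 67347) (nat_lit 7) nil nil)))) (node (nat_lit 6) (nat_lit 64033) (nat_lit
  6) (node (nat_lit 5) (nat_lit 66522) (nat_lit 7) (node (nat_lit 7) (nat_lit 68173) (nat_lit 8)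
  (node (nat_lit 6) (nat_lit 69505) (nat_lit 9) (node (nat_lit 7) (nat_lit 70366) (nat_lit 10)
  (node (nat_lit 5) (nat_lit 71141) (nat_lit 11) (node (nat_lit 6) (nat_lit 69344) (nat_lit 12)
  (node (nat_lit 7) (nat_lit 69578) (nat_lit 13) (node (nat_lit 6) (nat_lit 69940) (nat_lit 14)
  nil nil) (node (nat_lit 4) (nat_lit 68588) (nat_lit 13) nil nil)) nil) nil) nil) (node (nat_lit
  5) (nat_lit 67509) (nat_lit 9) nil nil)) nil) (node (nat_lit 4) (nat_lit 61759) (nat_lit 7)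
  (node (nat_lit 7) (nat_lit 63123) (nat_lit 8) (node (nat_lit 4) (nat_lit 62459) (nat_lit 9)
  (node (nat_lit 6) (nat_lit 62796) (nat_lit 10) nil (node (nat_lit 5) (nat_lit 61118) (nat_lit
  10) (node (nat_lit 6) (nat_lit 56664) (nat_lit 11) (node (nat_lit 7) (nat_lit 44761) (nat_lit
  12) (node (nat_lit 5) (nat_lit 34359) (nat_lit 13) nil nil) nil) nil) nil)) nil) (node (nat_lit
  5) (nat_lit 61337) (nat_lit 8) (node (nat_lit 6) (nat_lit 48065) (nat_lit 9) (node (nat_lit 7)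
  (nat_lit 41003) (nat_lit 10) nil nil) nil) nil)) (node (nat_lit 0) (nat_lit 66107) (nat_lit 7)
  nil nil))) (node (nat_lit 0) (nat_lit 66122) (nat_lit 6) (node (nat_lit 5) (nat_lit 67208)
  (nat_lit 7) (node (nat_lit 6) (nat_lit 63619) (nat_lit 8) nil (node (nat_lit 7) (nat_lit 65896)
  (nat_lit 8) nil nil)) (node (nat_lit 7) (nat_lit 68195) (nat_lit 7) (node (nat_lit 4) (nat_lit
  67500) (nat_lit 8) nil nil) (node (nat_lit 6) (nat_lit 67208) (nat_lit 7) (node (nat_lit 7)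
  (nat_lit 65584) (nat_lit 8) nil nil) (node (nat_lit 4) (nat_lit 67208) (nat_lit 7) (node
  (nat_lit 7) (nat_lit 65896) (nat_lit 8) nil nil) nil)))) nil)))) (node (nat_lit 6) (nat_lit 0)
  (nat_lit 5) (node (nat_lit 4) (nat_lit 66275) (nat_lit 6) (node (nat_lit 7) (nat_lit 68763)
  (nat_lit 7) (node (nat_lit 4) (nat_lit 70415) (nat_lit 8) (node (nat_lit 6) (nat_lit 71954)
  (nat_lit 9) (node (nat_lit 4) (nat_lit 71782) (nat_lit 10) (node (nat_lit 7) (nat_lit 71719)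
  (nat_lit 11) (node (nat_lit 6) (nat_lit 71354) (nat_lit 12) nil nil) (node (nat_lit 5) (nat_lit
  67168) (nat_lit 11) (node (nat_lit 6) (nat_lit 60273) (nat_lit 12) (node (nat_lit 7) (nat_lit
  57331) (nat_lit 13) (node (nat_lit 6) (nat_lit 51458) (nat_lit 14) (node (nat_lit 4) (nat_lit
  44969) (nat_lit 15) (node (nat_lit 7) (nat_lit 41806) (nat_lit 16) nil nil) nil) nil) nil) nil)
  nil)) (node (nat_lit 7) (nat_lit 70395) (nat_lit 10) nil nil)) (node (nat_lit 5) (nat_lit 68299)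
  (nat_lit 9) (node (nat_lit 6) (nat_lit 66896) (nat_lit 10) (node (nat_lit 7) (nat_lit 49168)
  (nat_lit 11) (node (nat_lit 6) (nat_lit 32898) (nat_lit 12) nil (node (nat_lit 4) (nat_lit
  47374) (nat_lit 12) nil nil)) nil) nil) nil)) (node (nat_lit 5) (nat_lit 70415) (nat_lit 8)
  (node (nat_lit 6) (nat_lit 71504) (nat_lit 9) (node (nat_lit 7) (nat_lit 69944) (nat_lit 10)
  (node (nat_lit 4) (nat_lit 68966) (nat_lit 11) nil nil) (node (nat_lit 4) (nat_lit 71060)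
  (nat_lit 10) nil nil)) (node (nat_lit 4) (nat_lit 70662) (nat_lit 9) (node (nat_lit 6) (nat_lit
  68585) (nat_lit 10) nil nil) (node (nat_lit 7) (nat_lit 71358) (nat_lit 9) (node (nat_lit 4)
  (nat_lit 70780) (nat_lit 10) (node (nat_lit 5) (nat_lit 66252) (nat_lit 11) nil nil) nil) nil)))
  (node (nat_lit 0) (nat_lit 70127) (nat_lit 8) (node (nat_lit 6) (nat_lit 69294) (nat_lit 9) nil
  (node (nat_lit 7) (nat_lit 71071) (nat_lit 9) nil nil)) nil))) (node (nat_lit 5) (nat_lit 68348)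
  (nat_lit 7) (node (nat_lit 6) (nat_lit 67436) (nat_lit 8) (node (nat_lit 7) (nat_lit 39632)
  (nat_lit 9) nil nil) (node (nat_lit 4) (nat_lit 65376) (nat_lit 8) nil (node (nat_lit 7)
  (nat_lit 69408) (nat_lit 8) (node (nat_lit 4) (nat_lit 63620) (nat_lit 9) nil nil) nil))) (node
  (nat_lit 6) (nat_lit 68780) (nat_lit 7) (node (nat_lit 7) (nat_lit 67318) (nat_lit 8) (node
  (nat_lit 4) (nat_lit 64275) (nat_lit 9) nil nil) nil) (node (nat_lit 0) (nat_lit 68763) (nat_lit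
  7) (node (nat_lit 7) (nat_lit 70127) (nat_lit 8) nil (node (nat_lit 6) (nat_lit 67851) (nat_lit
  8) nil nil)) nil)))) (node (nat_lit 5) (nat_lit 63770) (nat_lit 6) (node (nat_lit 7) (nat_lit
  66258) (nat_lit 7) (node (nat_lit 5) (nat_lit 67910) (nat_lit 8) (node (nat_lit 6) (nat_lit
  69535) (nat_lit 9) (node (nat_lit 7) (nat_lit 70445) (nat_lit 10) nil (node (nat_lit 5) (nat_lit
  68821) (nat_lit 10) nil (node (nat_lit 4) (nat_lit 66691) (nat_lit 10) (node (nat_lit 5)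
  (nat_lit 62953) (nat_lit 11) (node (nat_lit 6) (nat_lit 62588) (nat_lit 12) (node (nat_lit 7)
  (nat_lit 60823) (nat_lit 13) (node (nat_lit 6) (nat_lit 45671) (nat_lit 14) (node (nat_lit 5)
  (nat_lit 40404) (nat_lit 15) nil nil) nil) nil) nil) nil) nil))) (node (nat_lit 4) (nat_lit
  68843) (nat_lit 9) nil nil)) (node (nat_lit 6) (nat_lit 68227) (nat_lit 8) nil (node (nat_lit 4)
  (nat_lit 67910) (nat_lit 8) (node (nat_lit 6) (nat_lit 64040) (nat_lit 9) nil (node (nat_lit 5)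
  (nat_lit 67682) (nat_lit 9) (node (nat_lit 6) (nat_lit 51892) (nat_lit 10) (node (nat_lit 7)
  (nat_lit 37934) (nat_lit 11) (node (nat_lit 6) (nat_lit 24846) (nat_lit 12) nil nil) nil) nil)
  nil)) (node (nat_lit 0) (nat_lit 67622) (nat_lit 8) nil nil)))) (node (nat_lit 6) (nat_lit
  65912) (nat_lit 7) (node (nat_lit 7) (nat_lit 68315) (nat_lit 8) (node (nat_lit 5) (nat_lit
  68187) (nat_lit 9) (node (nat_lit 6) (nat_lit 66627) (nat_lit 10) nil nil) (node (nat_lit 4)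
  (nat_lit 66584) (nat_lit 9) nil nil)) (node (nat_lit 4) (nat_lit 69002) (nat_lit 8) (node
  (nat_lit 5) (nat_lit 65511) (nat_lit 9) (node (nat_lit 6) (nat_lit 62942) (nat_lit 10) (node
  (nat_lit 7) (nat_lit 52709) (nat_lit 11) (node (nat_lit 6) (nat_lit 40508) (nat_lit 12) (node
  (nat_lit 5) (nat_lit 40020) (nat_lit 13) nil nil) nil) nil) nil) (node (nat_lit 7) (nat_lit
  69946) (nat_lit 9) nil nil)) (node (nat_lit 0) (nat_lit 68937) (nat_lit 8) (node (nat_lit 4)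
  (nat_lit 67348) (nat_lit 9) nil (node (nat_lit 6) (nat_lit 68937) (nat_lit 9) nil nil)) nil)))
  (node (nat_lit 4) (nat_lit 68167) (nat_lit 7) (node (nat_lit 6) (nat_lit 68261) (nat_lit 8)
  (node (nat_lit 4) (nat_lit 63080) (nat_lit 9) (node (nat_lit 5) (nat_lit 59654) (nat_lit 10)
  (node (nat_lit 6) (nat_lit 55029) (nat_lit 11) (node (nat_lit 7) (nat_lit 49154) (nat_lit 12)
  (node (nat_lit 6) (nat_lit 42088) (nat_lit 13) nil nil) nil) nil) nil) (node (nat_lit 7)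
  (nat_lit 67108) (nat_lit 9) nil nil)) (node (nat_lit 7) (nat_lit 69531) (nat_lit 8) nil nil))
  (node (nat_lit 0) (nat_lit 67576) (nat_lit 7) (node (nat_lit 7) (nat_lit 68940) (nat_lit 8) nil
  (node (nat_lit 6) (nat_lit 66664) (nat_lit 8) nil nil)) nil)))) (node (nat_lit 0) (nat_lit
  66198) (nat_lit 6) (node (nat_lit 7) (nat_lit 68271) (nat_lit 7) (node (nat_lit 6) (nat_lit
  67359) (nat_lit 8) (node (nat_lit 7) (nat_lit 67542) (nat_lit 9) nil nil) nil) (node (nat_lit 5)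
  (nat_lit 66923) (nat_lit 7) (node (nat_lit 7) (nat_lit 65971) (nat_lit 8) nil (node (nat_lit 6)
  (nat_lit 63695) (nat_lit 8) nil nil)) (node (nat_lit 6) (nat_lit 67059) (nat_lit 7) (node
  (nat_lit 4) (nat_lit 66487) (nat_lit 8) nil nil) (node (nat_lit 4) (nat_lit 68178) (nat_lit 7)
  (node (nat_lit 7) (nat_lit 65971) (nat_lit 8) nil nil) (node (nat_lit 0) (nat_lit 68271)
  (nat_lit 7) nil nil))))) nil))) (node (nat_lit 0) (nat_lit 62640) (nat_lit 5) (node (nat_lit 6)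
  (nat_lit 66356) (nat_lit 6) (node (nat_lit 5) (nat_lit 64467) (nat_lit 7) (node (nat_lit 7)
  (nat_lit 63005) (nat_lit 8) nil nil) (node (nat_lit 8) (nat_lit 68521) (nat_lit 7) nil (node
  (nat_lit 7) (nat_lit 68521) (nat_lit 7) nil (node (nat_lit 4) (nat_lit 65485) (nat_lit 7) (node
  (nat_lit 5) (nat_lit 64573) (nat_lit 8) nil nil) nil)))) (node (nat_lit 7) (nat_lit 66237)
  (nat_lit 6) (node (nat_lit 5) (nat_lit 67674) (nat_lit 7) (node (nat_lit 4) (nat_lit 65058)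
  (nat_lit 8) nil nil) (node (nat_lit 6) (nat_lit 67674) (nat_lit 7) (node (nat_lit 7) (nat_lit
  65835) (nat_lit 8) nil nil) (node (nat_lit 4) (nat_lit 67674) (nat_lit 7) (node (nat_lit 5)
  (nat_lit 69027) (nat_lit 8) (node (nat_lit 6) (nat_lit 68424) (nat_lit 9) nil nil) (node
  (nat_lit 6) (nat_lit 63734) (nat_lit 8) nil nil)) nil))) (node (nat_lit 5) (nat_lit 66311)
  (nat_lit 6) (node (nat_lit 7) (nat_lit 67510) (nat_lit 7) (node (nat_lit 6) (nat_lit 66597)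
  (nat_lit 8) (node (nat_lit 7) (nat_lit 66781) (nat_lit 9) nil nil) nil) (node (nat_lit 6)
  (nat_lit 66070) (nat_lit 7) nil (node (nat_lit 8) (nat_lit 68384) (nat_lit 7) nil (node (nat_lit
  4) (nat_lit 62600) (nat_lit 7) nil nil)))) (node (nat_lit 4) (nat_lit 66251) (nat_lit 6) (node
  (nat_lit 5) (nat_lit 64522) (nat_lit 7) nil (node (nat_lit 6) (nat_lit 65763) (nat_lit 7) nil
  (node (nat_lit 7) (nat_lit 68384) (nat_lit 7) nil (node (nat_lit 8) (nat_lit 68384) (nat_lit 7)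
  nil nil)))) (node (nat_lit 0) (nat_lit 66311) (nat_lit 6) (node (nat_lit 7) (nat_lit 68384)
  (nat_lit 7) nil (node (nat_lit 4) (nat_lit 65763) (nat_lit 7) nil (node (nat_lit 6) (nat_lit
  65348) (nat_lit 7) nil nil))) nil))))) nil))))

noncomputable def t19 : Tr :=
  (node (nat_lit 1) (nat_lit 0) (nat_lit 4) (node (nat_lit 4) (nat_lit 47987) (nat_lit 5) (node
  (nat_lit 5) (nat_lit 51934) (nat_lit 6) (node (nat_lit 7) (nat_lit 57450) (nat_lit 7) (node
  (nat_lit 4) (nat_lit 57450) (nat_lit 8) (node (nat_lit 7) (nat_lit 58005) (nat_lit 9) (node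
  (nat_lit 5) (nat_lit 58005) (nat_lit 10) (node (nat_lit 4) (nat_lit 58005) (nat_lit 11) (node
  (nat_lit 7) (nat_lit 58460) (nat_lit 12) nil (node (nat_lit 5) (nat_lit 58005) (nat_lit 12)
  (node (nat_lit 7) (nat_lit 58550) (nat_lit 13) (node (nat_lit 4) (nat_lit 58550) (nat_lit 14)
  (node (nat_lit 5) (nat_lit 58550) (nat_lit 15) (node (nat_lit 4) (nat_lit 58550) (nat_lit 16)
  (node (nat_lit 7) (nat_lit 58752) (nat_lit 17) (node (nat_lit 4) (nat_lit 58752) (nat_lit 18)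
  (node (nat_lit 5) (nat_lit 58752) (nat_lit 19) (node (nat_lit 7) (nat_lit 58815) (nat_lit 20)
  (node (nat_lit 4) (nat_lit 56738) (nat_lit 21) (node (nat_lit 7) (nat_lit 49798) (nat_lit 22)
  (node (nat_lit 5) (nat_lit 39802) (nat_lit 23) nil nil) nil) nil) nil) nil) nil) nil) nil) nil)
  nil) nil) nil)) (node (nat_lit 7) (nat_lit 58344) (nat_lit 11) (node (nat_lit 4) (nat_lit 58344)
  (nat_lit 12) (node (nat_lit 5) (nat_lit 58344) (nat_lit 13) (node (nat_lit 4) (nat_lit 58344)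
  (nat_lit 14) (node (nat_lit 7) (nat_lit 58675) (nat_lit 15) (node (nat_lit 4) (nat_lit 58675)
  (nat_lit 16) (node (nat_lit 5) (nat_lit 58675) (nat_lit 17) (node (nat_lit 7) (nat_lit 56159)
  (nat_lit 18) (node (nat_lit 4) (nat_lit 34105) (nat_lit 19) (node (nat_lit 7) (nat_lit 29360)
  (nat_lit 20) nil nil) nil) nil) nil) nil) nil) nil) nil) nil) nil)) nil) (node (nat_lit 3)
  (nat_lit 57450) (nat_lit 9) (node (nat_lit 7) (nat_lit 58195) (nat_lit 10) nil (node (nat_lit 4)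
  (nat_lit 57450) (nat_lit 10) nil nil)) nil)) (node (nat_lit 5) (nat_lit 57450) (nat_lit 8) (node
  (nat_lit 4) (nat_lit 57450) (nat_lit 9) (node (nat_lit 5) (nat_lit 57450) (nat_lit 10) (node
  (nat_lit 7) (nat_lit 58344) (nat_lit 11) (node (nat_lit 4) (nat_lit 58344) (nat_lit 12) (node
  (nat_lit 5) (nat_lit 58344) (nat_lit 13) (node (nat_lit 4) (nat_lit 58344) (nat_lit 14) (node
  (nat_lit 7) (nat_lit 58675) (nat_lit 15) (node (nat_lit 4) (nat_lit 58675) (nat_lit 16) (node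
  (nat_lit 5) (nat_lit 56640) (nat_lit 17) (node (nat_lit 7) (nat_lit 49946) (nat_lit 18) (node
  (nat_lit 5) (nat_lit 23802) (nat_lit 19) (node (nat_lit 4) (nat_lit 23223) (nat_lit 20) nil nil)
  nil) nil) nil) nil) nil) nil) nil) nil) (node (nat_lit 3) (nat_lit 57450) (nat_lit 11) (node
  (nat_lit 4) (nat_lit 57450) (nat_lit 12) nil (node (nat_lit 7) (nat_lit 58460) (nat_lit 12) nil
  nil)) nil)) (node (nat_lit 7) (nat_lit 58195) (nat_lit 10) (node (nat_lit 5) (nat_lit 58195)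
  (nat_lit 11) (node (nat_lit 7) (nat_lit 58460) (nat_lit 12) (node (nat_lit 4) (nat_lit 58460)
  (nat_lit 13) (node (nat_lit 5) (nat_lit 58460) (nat_lit 14) (node (nat_lit 4) (nat_lit 58460)
  (nat_lit 15) (node (nat_lit 7) (nat_lit 58719) (nat_lit 16) (node (nat_lit 4) (nat_lit 58719)
  (nat_lit 17) (node (nat_lit 5) (nat_lit 58719) (nat_lit 18) (node (nat_lit 7) (nat_lit 58798)
  (nat_lit 19) (node (nat_lit 5) (nat_lit 58014) (nat_lit 20) (node (nat_lit 4) (nat_lit 52965)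
  (nat_lit 21) (node (nat_lit 7) (nat_lit 29382) (nat_lit 22) nil nil) nil) nil) nil) nil) nil)
  nil) nil) nil) nil) nil) nil) (node (nat_lit 3) (nat_lit 57450) (nat_lit 10) (node (nat_lit 4)
  (nat_lit 57450) (nat_lit 11) nil (node (nat_lit 7) (nat_lit 58344) (nat_lit 11) nil nil)) nil)))
  (node (nat_lit 3) (nat_lit 57450) (nat_lit 9) (node (nat_lit 7) (nat_lit 58195) (nat_lit 10) nil
  (node (nat_lit 4) (nat_lit 57450) (nat_lit 10) (node (nat_lit 5) (nat_lit 57450) (nat_lit 11)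
  (node (nat_lit 4) (nat_lit 57450) (nat_lit 12) (node (nat_lit 7) (nat_lit 57109) (nat_lit 13)
  (node (nat_lit 4) (nat_lit 43788) (nat_lit 14) nil nil) nil) nil) nil) nil)) nil)) (node
  (nat_lit 3) (nat_lit 58202) (nat_lit 8) (node (nat_lit 7) (nat_lit 58467) (nat_lit 9) (node
  (nat_lit 4) (nat_lit 58467) (nat_lit 10) nil nil) (node (nat_lit 4) (nat_lit 58202) (nat_lit 9)
  (node (nat_lit 5) (nat_lit 58202) (nat_lit 10) (node (nat_lit 4) (nat_lit 58202) (nat_lit 11)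
  (node (nat_lit 7) (nat_lit 58679) (nat_lit 12) nil nil) nil) nil) nil)) (node (nat_lit 0)
  (nat_lit 58353) (nat_lit 8) (node (nat_lit 7) (nat_lit 58467) (nat_lit 9) (node (nat_lit 4)
  (nat_lit 58467) (nat_lit 10) nil nil) (node (nat_lit 3) (nat_lit 58353) (nat_lit 9) (node
  (nat_lit 4) (nat_lit 58353) (nat_lit 10) nil nil) nil)) nil)))) (node (nat_lit 3) (nat_lit
  56156) (nat_lit 7) (node (nat_lit 4) (nat_lit 56156) (nat_lit 8) (node (nat_lit 5) (nat_lit
  54389) (nat_lit 9) (node (nat_lit 4) (nat_lit 51197) (nat_lit 10) (node (nat_lit 7) (nat_lit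
  44668) (nat_lit 11) (node (nat_lit 4) (nat_lit 33573) (nat_lit 12) nil nil) nil) nil) (node
  (nat_lit 7) (nat_lit 57287) (nat_lit 9) (node (nat_lit 5) (nat_lit 57287) (nat_lit 10) nil (node
  (nat_lit 4) (nat_lit 57287) (nat_lit 10) nil nil)) nil)) (node (nat_lit 7) (nat_lit 58353)
  (nat_lit 8) (node (nat_lit 5) (nat_lit 58353) (nat_lit 9) (node (nat_lit 4) (nat_lit 58353)
  (nat_lit 10) (node (nat_lit 7) (nat_lit 58624) (nat_lit 11) nil nil) nil) (node (nat_lit 4)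
  (nat_lit 58353) (nat_lit 9) (node (nat_lit 5) (nat_lit 58353) (nat_lit 10) (node (nat_lit 4)
  (nat_lit 51958) (nat_lit 11) (node (nat_lit 7) (nat_lit 47709) (nat_lit 12) (node (nat_lit 4)
  (nat_lit 23201) (nat_lit 13) nil nil) nil) nil) nil) nil)) (node (nat_lit 0) (nat_lit 58088)
  (nat_lit 8) (node (nat_lit 7) (nat_lit 58202) (nat_lit 9) nil (node (nat_lit 10) (nat_lit 58088)
  (nat_lit 9) nil nil)) (node (nat_lit 5) (nat_lit 56156) (nat_lit 8) (node (nat_lit 7) (nat_lit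
  57287) (nat_lit 9) nil nil) nil)))) (node (nat_lit 0) (nat_lit 58202) (nat_lit 7) (node (nat_lit
  4) (nat_lit 58202) (nat_lit 8) (node (nat_lit 7) (nat_lit 58467) (nat_lit 9) nil nil) (node
  (nat_lit 7) (nat_lit 58353) (nat_lit 8) (node (nat_lit 4) (nat_lit 58353) (nat_lit 9) (node
  (nat_lit 5) (nat_lit 58353) (nat_lit 10) (node (nat_lit 4) (nat_lit 58353) (nat_lit 11) (node
  (nat_lit 7) (nat_lit 58679) (nat_lit 12) nil nil) nil) nil) nil) (node (nat_lit 3) (nat_lit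
  58202) (nat_lit 8) (node (nat_lit 7) (nat_lit 58467) (nat_lit 9) nil (node (nat_lit 4) (nat_lit
  58202) (nat_lit 9) nil nil)) nil))) nil))) (node (nat_lit 3) (nat_lit 64814) (nat_lit 6) (node
  (nat_lit 7) (nat_lit 68205) (nat_lit 7) (node (nat_lit 4) (nat_lit 68205) (nat_lit 8) (node
  (nat_lit 5) (nat_lit 66333) (nat_lit 9) (node (nat_lit 4) (nat_lit 60474) (nat_lit 10) (node
  (nat_lit 7) (nat_lit 45975) (nat_lit 11) (node (nat_lit 4) (nat_lit 24333) (nat_lit 12) nil nil)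
  nil) nil) nil) nil) (node (nat_lit 4) (nat_lit 67918) (nat_lit 7) (node (nat_lit 7) (nat_lit
  68205) (nat_lit 8) nil (node (nat_lit 5) (nat_lit 67918) (nat_lit 8) (node (nat_lit 4) (nat_lit
  58099) (nat_lit 9) (node (nat_lit 7) (nat_lit 38447) (nat_lit 10) (node (nat_lit 4) (nat_lit
  37883) (nat_lit 11) nil nil) (node (nat_lit 9) (nat_lit 57269) (nat_lit 10) (node (nat_lit 5)
  (nat_lit 55685) (nat_lit 11) (node (nat_lit 9) (nat_lit 55201) (nat_lit 12) nil nil) nil) nil))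
  nil) nil)) (node (nat_lit 5) (nat_lit 67446) (nat_lit 7) (node (nat_lit 9) (nat_lit 66623)
  (nat_lit 8) (node (nat_lit 4) (nat_lit 64759) (nat_lit 9) (node (nat_lit 5) (nat_lit 61801)
  (nat_lit 10) (node (nat_lit 4) (nat_lit 56039) (nat_lit 11) (node (nat_lit 7) (nat_lit 50718)
  (nat_lit 12) (node (nat_lit 4) (nat_lit 45976) (nat_lit 13) (node (nat_lit 9) (nat_lit 33904)
  (nat_lit 14) nil nil) nil) nil) nil) nil) nil) (node (nat_lit 7) (nat_lit 67403) (nat_lit 8) nil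
  nil)) nil))) (node (nat_lit 0) (nat_lit 65855) (nat_lit 6) (node (nat_lit 7) (nat_lit 68205)
  (nat_lit 7) (node (nat_lit 4) (nat_lit 68205) (nat_lit 8) (node (nat_lit 5) (nat_lit 68205)
  (nat_lit 9) (node (nat_lit 4) (nat_lit 68096) (nat_lit 10) (node (nat_lit 7) (nat_lit 68205)
  (nat_lit 11) nil nil) nil) nil) nil) (node (nat_lit 3) (nat_lit 65830) (nat_lit 7) nil nil))
  nil))) (node (nat_lit 5) (nat_lit 47985) (nat_lit 5) (node (nat_lit 7) (nat_lit 51967) (nat_lit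
  6) (node (nat_lit 4) (nat_lit 62042) (nat_lit 7) (node (nat_lit 5) (nat_lit 68205) (nat_lit 8)
  (node (nat_lit 4) (nat_lit 66807) (nat_lit 9) (node (nat_lit 7) (nat_lit 51646) (nat_lit 10)
  (node (nat_lit 4) (nat_lit 51646) (nat_lit 11) nil nil) nil) nil) (node (nat_lit 7) (nat_lit
  68205) (nat_lit 8) (node (nat_lit 5) (nat_lit 68205) (nat_lit 9) (node (nat_lit 4) (nat_lit
  68205) (nat_lit 10) (node (nat_lit 5) (nat_lit 68205) (nat_lit 11) (node (nat_lit 7) (nat_lit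
  68205) (nat_lit 12) (node (nat_lit 4) (nat_lit 68205) (nat_lit 13) (node (nat_lit 5) (nat_lit
  68205) (nat_lit 14) (node (nat_lit 4) (nat_lit 68205) (nat_lit 15) (node (nat_lit 7) (nat_lit
  68205) (nat_lit 16) (node (nat_lit 5) (nat_lit 68205) (nat_lit 17) (node (nat_lit 7) (nat_lit
  68205) (nat_lit 18) (node (nat_lit 4) (nat_lit 64918) (nat_lit 19) (node (nat_lit 7) (nat_lit
  58789) (nat_lit 20) (node (nat_lit 5) (nat_lit 45522) (nat_lit 21) (node (nat_lit 4) (nat_lit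
  35681) (nat_lit 22) nil nil) nil) nil) nil) nil) nil) nil) nil) nil) nil) nil) (node (nat_lit 7)
  (nat_lit 68205) (nat_lit 11) (node (nat_lit 4) (nat_lit 68205) (nat_lit 12) (node (nat_lit 5)
  (nat_lit 68205) (nat_lit 13) (node (nat_lit 4) (nat_lit 68205) (nat_lit 14) (node (nat_lit 7)
  (nat_lit 68205) (nat_lit 15) (node (nat_lit 5) (nat_lit 68205) (nat_lit 16) (node (nat_lit 7)
  (nat_lit 64462) (nat_lit 17) (node (nat_lit 4) (nat_lit 57072) (nat_lit 18) (node (nat_lit 7)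
  (nat_lit 48420) (nat_lit 19) (node (nat_lit 5) (nat_lit 36679) (nat_lit 20) nil nil) nil) nil)
  nil) nil) nil) nil) nil) nil) nil)) nil) nil) (node (nat_lit 3) (nat_lit 68205) (nat_lit 8) nil
  (node (nat_lit 0) (nat_lit 68205) (nat_lit 8) nil nil)))) (node (nat_lit 3) (nat_lit 67755)
  (nat_lit 7) nil (node (nat_lit 0) (nat_lit 67755) (nat_lit 7) nil nil))) (node (nat_lit 3)
  (nat_lit 67882) (nat_lit 6) (node (nat_lit 4) (nat_lit 67882) (nat_lit 7) (node (nat_lit 7)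
  (nat_lit 68205) (nat_lit 8) (node (nat_lit 4) (nat_lit 68205) (nat_lit 9) (node (nat_lit 5)
  (nat_lit 66999) (nat_lit 10) nil nil) nil) (node (nat_lit 5) (nat_lit 65350) (nat_lit 8) (node
  (nat_lit 4) (nat_lit 56586) (nat_lit 9) (node (nat_lit 7) (nat_lit 37795) (nat_lit 10) nil nil)
  nil) nil)) (node (nat_lit 7) (nat_lit 68205) (nat_lit 7) (node (nat_lit 4) (nat_lit 68205)
  (nat_lit 8) (node (nat_lit 5) (nat_lit 68205) (nat_lit 9) (node (nat_lit 4) (nat_lit 67529)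
  (nat_lit 10) (node (nat_lit 7) (nat_lit 38044) (nat_lit 11) (node (nat_lit 5) (nat_lit 33176)
  (nat_lit 12) nil nil) nil) nil) nil) nil) nil)) (node (nat_lit 4) (nat_lit 51961) (nat_lit 6)
  (node (nat_lit 5) (nat_lit 61407) (nat_lit 7) (node (nat_lit 7) (nat_lit 68205) (nat_lit 8)
  (node (nat_lit 4) (nat_lit 68205) (nat_lit 9) (node (nat_lit 5) (nat_lit 65967) (nat_lit 10)
  (node (nat_lit 4) (nat_lit 61578) (nat_lit 11) (node (nat_lit 7) (nat_lit 59569) (nat_lit 12)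
  (node (nat_lit 5) (nat_lit 42503) (nat_lit 13) (node (nat_lit 4) (nat_lit 29278) (nat_lit 14)
  nil nil) nil) nil) nil) nil) nil) (node (nat_lit 3) (nat_lit 67882) (nat_lit 8) nil nil)) (node
  (nat_lit 3) (nat_lit 67882) (nat_lit 7) (node (nat_lit 4) (nat_lit 67027) (nat_lit 8) nil nil)
  (node (nat_lit 0) (nat_lit 68205) (nat_lit 7) nil nil))) (node (nat_lit 0) (nat_lit 68205)
  (nat_lit 6) (node (nat_lit 7) (nat_lit 68205) (nat_lit 7) nil nil) nil)))) (node (nat_lit 3)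
  (nat_lit 68070) (nat_lit 5) (node (nat_lit 4) (nat_lit 68070) (nat_lit 6) (node (nat_lit 7)
  (nat_lit 68205) (nat_lit 7) nil (node (nat_lit 5) (nat_lit 68070) (nat_lit 7) (node (nat_lit 4)
  (nat_lit 68070) (nat_lit 8) (node (nat_lit 7) (nat_lit 41367) (nat_lit 9) nil nil) nil) nil))
  (node (nat_lit 7) (nat_lit 68205) (nat_lit 6) (node (nat_lit 4) (nat_lit 68205) (nat_lit 7)
  (node (nat_lit 5) (nat_lit 68205) (nat_lit 8) (node (nat_lit 4) (nat_lit 67081) (nat_lit 9)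
  (node (nat_lit 7) (nat_lit 36055) (nat_lit 10) nil nil) nil) nil) nil) (node (nat_lit 5)
  (nat_lit 68205) (nat_lit 6) (node (nat_lit 7) (nat_lit 68205) (nat_lit 7) (node (nat_lit 4)
  (nat_lit 68205) (nat_lit 8) (node (nat_lit 5) (nat_lit 68205) (nat_lit 9) (node (nat_lit 4)
  (nat_lit 68205) (nat_lit 10) (node (nat_lit 7) (nat_lit 64943) (nat_lit 11) nil nil) nil) nil)
  (node (nat_lit 8) (nat_lit 68205) (nat_lit 8) (node (nat_lit 4) (nat_lit 68205) (nat_lit 9)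
  (node (nat_lit 5) (nat_lit 68205) (nat_lit 10) nil nil) nil) nil)) (node (nat_lit 8) (nat_lit
  68205) (nat_lit 7) (node (nat_lit 4) (nat_lit 68205) (nat_lit 8) (node (nat_lit 5) (nat_lit
  68205) (nat_lit 9) (node (nat_lit 4) (nat_lit 64830) (nat_lit 10) (node (nat_lit 7) (nat_lit
  52010) (nat_lit 11) (node (nat_lit 8) (nat_lit 46841) (nat_lit 12) nil nil) nil) nil) nil) (node
  (nat_lit 7) (nat_lit 68205) (nat_lit 8) nil nil)) (node (nat_lit 4) (nat_lit 68205) (nat_lit 7)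
  (node (nat_lit 8) (nat_lit 68205) (nat_lit 8) (node (nat_lit 4) (nat_lit 68205) (nat_lit 9)
  (node (nat_lit 5) (nat_lit 67517) (nat_lit 10) (node (nat_lit 4) (nat_lit 58160) (nat_lit 11)
  (node (nat_lit 7) (nat_lit 57872) (nat_lit 12) nil nil) nil) nil) nil) nil) nil))) nil))) (node
  (nat_lit 0) (nat_lit 68205) (nat_lit 5) (node (nat_lit 4) (nat_lit 68205) (nat_lit 6) (node
  (nat_lit 7) (nat_lit 68205) (nat_lit 7) (node (nat_lit 4) (nat_lit 68205) (nat_lit 8) nil nil)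
  nil) (node (nat_lit 7) (nat_lit 68205) (nat_lit 6) (node (nat_lit 4) (nat_lit 68205) (nat_lit 7)
  (node (nat_lit 5) (nat_lit 68205) (nat_lit 8) (node (nat_lit 4) (nat_lit 68205) (nat_lit 9)
  (node (nat_lit 7) (nat_lit 68205) (nat_lit 10) nil nil) nil) nil) nil) (node (nat_lit 5)
  (nat_lit 68205) (nat_lit 6) (node (nat_lit 7) (nat_lit 68205) (nat_lit 7) nil nil) (node
  (nat_lit 3) (nat_lit 68205) (nat_lit 6) (node (nat_lit 4) (nat_lit 68205) (nat_lit 7) (node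
  (nat_lit 5) (nat_lit 68205) (nat_lit 8) nil nil) (node (nat_lit 7) (nat_lit 68205) (nat_lit 7)
  nil nil)) nil)))) nil)))) (node (nat_lit 3) (nat_lit 0) (nat_lit 4) (node (nat_lit 4) (nat_lit
  43346) (nat_lit 5) (node (nat_lit 5) (nat_lit 50021) (nat_lit 6) (node (nat_lit 4) (nat_lit
  42909) (nat_lit 7) nil (node (nat_lit 7) (nat_lit 52573) (nat_lit 7) (node (nat_lit 4) (nat_lit
  57218) (nat_lit 8) (node (nat_lit 7) (nat_lit 58160) (nat_lit 9) (node (nat_lit 5) (nat_lit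
  58160) (nat_lit 10) (node (nat_lit 4) (nat_lit 58160) (nat_lit 11) (node (nat_lit 7) (nat_lit
  58160) (nat_lit 12) (node (nat_lit 4) (nat_lit 58160) (nat_lit 13) (node (nat_lit 5) (nat_lit
  58160) (nat_lit 14) (node (nat_lit 7) (nat_lit 58160) (nat_lit 15) (node (nat_lit 5) (nat_lit
  58160) (nat_lit 16) nil nil) nil) nil) (node (nat_lit 1) (nat_lit 58160) (nat_lit 13) (node
  (nat_lit 4) (nat_lit 58160) (nat_lit 14) nil nil) (node (nat_lit 0) (nat_lit 58160) (nat_lit 13)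
  nil nil))) nil) (node (nat_lit 7) (nat_lit 58160) (nat_lit 11) nil nil)) nil) (node (nat_lit 1)
  (nat_lit 58160) (nat_lit 9) nil nil)) (node (nat_lit 5) (nat_lit 57218) (nat_lit 8) (node
  (nat_lit 4) (nat_lit 58160) (nat_lit 9) (node (nat_lit 5) (nat_lit 58160) (nat_lit 10) (node
  (nat_lit 7) (nat_lit 58160) (nat_lit 11) (node (nat_lit 4) (nat_lit 58160) (nat_lit 12) (node
  (nat_lit 5) (nat_lit 58160) (nat_lit 13) (node (nat_lit 4) (nat_lit 58160) (nat_lit 14) (node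
  (nat_lit 7) (nat_lit 58054) (nat_lit 15) (node (nat_lit 4) (nat_lit 56747) (nat_lit 16) (node
  (nat_lit 5) (nat_lit 52679) (nat_lit 17) (node (nat_lit 7) (nat_lit 46854) (nat_lit 18) (node
  (nat_lit 5) (nat_lit 42334) (nat_lit 19) (node (nat_lit 4) (nat_lit 42254) (nat_lit 20) nil nil)
  nil) nil) nil) nil) nil) nil) nil) nil) nil) nil) (node (nat_lit 1) (nat_lit 58160) (nat_lit 9)
  nil nil)) (node (nat_lit 1) (nat_lit 58160) (nat_lit 8) (node (nat_lit 4) (nat_lit 54812)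
  (nat_lit 9) nil nil) (node (nat_lit 0) (nat_lit 58160) (nat_lit 8) nil nil)))) (node (nat_lit 1)
  (nat_lit 58160) (nat_lit 7) (node (nat_lit 4) (nat_lit 58035) (nat_lit 8) (node (nat_lit 5)
  (nat_lit 56723) (nat_lit 9) (node (nat_lit 4) (nat_lit 48319) (nat_lit 10) (node (nat_lit 7)
  (nat_lit 35458) (nat_lit 11) nil nil) nil) nil) nil) (node (nat_lit 0) (nat_lit 58160) (nat_lit
  7) (node (nat_lit 7) (nat_lit 58160) (nat_lit 8) (node (nat_lit 4) (nat_lit 57599) (nat_lit 9)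
  nil nil) nil) nil)))) (node (nat_lit 1) (nat_lit 54751) (nat_lit 6) (node (nat_lit 7) (nat_lit
  58160) (nat_lit 7) (node (nat_lit 4) (nat_lit 58160) (nat_lit 8) (node (nat_lit 5) (nat_lit
  58160) (nat_lit 9) (node (nat_lit 4) (nat_lit 58160) (nat_lit 10) (node (nat_lit 7) (nat_lit
  57775) (nat_lit 11) nil nil) nil) nil) (node (nat_lit 5) (nat_lit 58160) (nat_lit 8) (node
  (nat_lit 4) (nat_lit 58160) (nat_lit 9) (node (nat_lit 7) (nat_lit 58160) (nat_lit 10) nil nil)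
  nil) nil)) (node (nat_lit 4) (nat_lit 58160) (nat_lit 7) (node (nat_lit 5) (nat_lit 57977)
  (nat_lit 8) (node (nat_lit 4) (nat_lit 49043) (nat_lit 9) (node (nat_lit 7) (nat_lit 35156)
  (nat_lit 10) nil (node (nat_lit 9) (nat_lit 49595) (nat_lit 10) nil nil)) nil) nil) (node
  (nat_lit 5) (nat_lit 58160) (nat_lit 7) (node (nat_lit 9) (nat_lit 57556) (nat_lit 8) nil (node
  (nat_lit 4) (nat_lit 58160) (nat_lit 8) nil nil)) nil))) (node (nat_lit 0) (nat_lit 54798)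
  (nat_lit 6) (node (nat_lit 4) (nat_lit 58160) (nat_lit 7) (node (nat_lit 7) (nat_lit 58160)
  (nat_lit 8) (node (nat_lit 5) (nat_lit 58160) (nat_lit 9) nil nil) nil) (node (nat_lit 5)
  (nat_lit 58160) (nat_lit 7) (node (nat_lit 7) (nat_lit 58160) (nat_lit 8) nil nil) (node
  (nat_lit 7) (nat_lit 58160) (nat_lit 7) (node (nat_lit 4) (nat_lit 58160) (nat_lit 8) (node
  (nat_lit 5) (nat_lit 58160) (nat_lit 9) (node (nat_lit 4) (nat_lit 56351) (nat_lit 10) (node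
  (nat_lit 7) (nat_lit 55653) (nat_lit 11) nil nil) nil) nil) nil) (node (nat_lit 1) (nat_lit
  57976) (nat_lit 7) (node (nat_lit 4) (nat_lit 57716) (nat_lit 8) nil nil) nil)))) nil))) (node
  (nat_lit 5) (nat_lit 52509) (nat_lit 5) (node (nat_lit 7) (nat_lit 52509) (nat_lit 6) (node
  (nat_lit 4) (nat_lit 52614) (nat_lit 7) (node (nat_lit 5) (nat_lit 58160) (nat_lit 8) (node
  (nat_lit 4) (nat_lit 52010) (nat_lit 9) (node (nat_lit 7) (nat_lit 48680) (nat_lit 10) (node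
  (nat_lit 5) (nat_lit 40546) (nat_lit 11) nil (node (nat_lit 4) (nat_lit 48680) (nat_lit 11)
  (node (nat_lit 5) (nat_lit 48680) (nat_lit 12) nil nil) nil)) (node (nat_lit 1) (nat_lit 52010)
  (nat_lit 10) nil nil)) (node (nat_lit 7) (nat_lit 58160) (nat_lit 9) nil nil)) (node (nat_lit 7)
  (nat_lit 57388) (nat_lit 8) (node (nat_lit 5) (nat_lit 58160) (nat_lit 9) (node (nat_lit 4)
  (nat_lit 57343) (nat_lit 10) (node (nat_lit 5) (nat_lit 56378) (nat_lit 11) (node (nat_lit 7)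
  (nat_lit 55644) (nat_lit 12) (node (nat_lit 4) (nat_lit 55087) (nat_lit 13) (node (nat_lit 5)
  (nat_lit 54655) (nat_lit 14) (node (nat_lit 4) (nat_lit 54319) (nat_lit 15) (node (nat_lit 7)
  (nat_lit 54056) (nat_lit 16) (node (nat_lit 5) (nat_lit 53850) (nat_lit 17) (node (nat_lit 7)
  (nat_lit 53690) (nat_lit 18) (node (nat_lit 4) (nat_lit 53564) (nat_lit 19) (node (nat_lit 7)
  (nat_lit 52293) (nat_lit 20) (node (nat_lit 5) (nat_lit 46895) (nat_lit 21) (node (nat_lit 4)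
  (nat_lit 39722) (nat_lit 22) nil nil) nil) nil) nil) nil) nil) nil) nil) nil) nil) nil) (node
  (nat_lit 7) (nat_lit 56378) (nat_lit 11) (node (nat_lit 4) (nat_lit 55644) (nat_lit 12) (node
  (nat_lit 5) (nat_lit 55087) (nat_lit 13) (node (nat_lit 4) (nat_lit 54655) (nat_lit 14) (node
  (nat_lit 7) (nat_lit 54319) (nat_lit 15) (node (nat_lit 5) (nat_lit 54056) (nat_lit 16) (node
  (nat_lit 7) (nat_lit 53850) (nat_lit 17) (node (nat_lit 4) (nat_lit 52344) (nat_lit 18) (node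
  (nat_lit 7) (nat_lit 47496) (nat_lit 19) (node (nat_lit 5) (nat_lit 39832) (nat_lit 20) (node
  (nat_lit 4) (nat_lit 39770) (nat_lit 21) nil nil) nil) nil) nil) nil) nil) nil) nil) nil) nil)
  nil)) nil) (node (nat_lit 1) (nat_lit 56799) (nat_lit 9) (node (nat_lit 4) (nat_lit 56094)
  (nat_lit 10) (node (nat_lit 5) (nat_lit 55617) (nat_lit 11) (node (nat_lit 4) (nat_lit 55745)
  (nat_lit 12) (node (nat_lit 7) (nat_lit 52805) (nat_lit 13) (node (nat_lit 5) (nat_lit 53475)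
  (nat_lit 14) (node (nat_lit 7) (nat_lit 44320) (nat_lit 15) (node (nat_lit 4) (nat_lit 29466)
  (nat_lit 16) nil nil) nil) nil) nil) nil) nil) nil) nil)) (node (nat_lit 1) (nat_lit 58160)
  (nat_lit 8) nil (node (nat_lit 0) (nat_lit 58160) (nat_lit 8) nil nil)))) (node (nat_lit 1)
  (nat_lit 58160) (nat_lit 7) (node (nat_lit 4) (nat_lit 57850) (nat_lit 8) nil nil) (node
  (nat_lit 0) (nat_lit 58160) (nat_lit 7) nil nil))) (node (nat_lit 1) (nat_lit 62908) (nat_lit 6)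
  (node (nat_lit 4) (nat_lit 62422) (nat_lit 7) (node (nat_lit 5) (nat_lit 57858) (nat_lit 8)
  (node (nat_lit 4) (nat_lit 47411) (nat_lit 9) (node (nat_lit 7) (nat_lit 31437) (nat_lit 10) nil
  (node (nat_lit 9) (nat_lit 47774) (nat_lit 10) nil nil)) nil) nil) (node (nat_lit 7) (nat_lit
  62908) (nat_lit 7) (node (nat_lit 4) (nat_lit 62908) (nat_lit 8) (node (nat_lit 5) (nat_lit
  62908) (nat_lit 9) (node (nat_lit 4) (nat_lit 62908) (nat_lit 10) (node (nat_lit 7) (nat_lit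
  62908) (nat_lit 11) (node (nat_lit 5) (nat_lit 62908) (nat_lit 12) nil nil) nil) nil) nil) nil)
  nil)) (node (nat_lit 4) (nat_lit 52554) (nat_lit 6) (node (nat_lit 5) (nat_lit 52592) (nat_lit
  7) (node (nat_lit 7) (nat_lit 61500) (nat_lit 8) (node (nat_lit 4) (nat_lit 61796) (nat_lit 9)
  (node (nat_lit 5) (nat_lit 58160) (nat_lit 10) (node (nat_lit 4) (nat_lit 58160) (nat_lit 11)
  (node (nat_lit 7) (nat_lit 58160) (nat_lit 12) (node (nat_lit 5) (nat_lit 50712) (nat_lit 13)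
  (node (nat_lit 4) (nat_lit 37010) (nat_lit 14) nil nil) nil) nil) nil) (node (nat_lit 7)
  (nat_lit 62375) (nat_lit 10) nil nil)) nil) (node (nat_lit 1) (nat_lit 62908) (nat_lit 8) (node
  (nat_lit 4) (nat_lit 62694) (nat_lit 9) (node (nat_lit 7) (nat_lit 62694) (nat_lit 10) nil nil)
  (node (nat_lit 7) (nat_lit 62908) (nat_lit 9) nil nil)) (node (nat_lit 0) (nat_lit 61947)
  (nat_lit 8) nil nil))) (node (nat_lit 1) (nat_lit 62908) (nat_lit 7) (node (nat_lit 7) (nat_lit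
  62908) (nat_lit 8) nil (node (nat_lit 4) (nat_lit 62908) (nat_lit 8) (node (nat_lit 5) (nat_lit
  62870) (nat_lit 9) nil nil) nil)) (node (nat_lit 0) (nat_lit 62908) (nat_lit 7) (node (nat_lit
  7) (nat_lit 62908) (nat_lit 8) nil nil) nil))) (node (nat_lit 0) (nat_lit 62908) (nat_lit 6)
  (node (nat_lit 7) (nat_lit 62908) (nat_lit 7) nil nil) nil)))) (node (nat_lit 1) (nat_lit 64132)
  (nat_lit 5) (node (nat_lit 4) (nat_lit 64548) (nat_lit 6) (node (nat_lit 8) (nat_lit 64548)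
  (nat_lit 7) (node (nat_lit 7) (nat_lit 64548) (nat_lit 8) (node (nat_lit 4) (nat_lit 64548)
  (nat_lit 9) (node (nat_lit 5) (nat_lit 64548) (nat_lit 10) (node (nat_lit 4) (nat_lit 64548)
  (nat_lit 11) (node (nat_lit 7) (nat_lit 64548) (nat_lit 12) (node (nat_lit 8) (nat_lit 64548)
  (nat_lit 13) (node (nat_lit 4) (nat_lit 64548) (nat_lit 14) nil nil) nil) nil) nil) nil) nil)
  nil) (node (nat_lit 7) (nat_lit 64548) (nat_lit 7) (node (nat_lit 4) (nat_lit 64548) (nat_lit 8)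
  (node (nat_lit 8) (nat_lit 64548) (nat_lit 9) nil (node (nat_lit 5) (nat_lit 64548) (nat_lit 9)
  (node (nat_lit 4) (nat_lit 62000) (nat_lit 10) (node (nat_lit 7) (nat_lit 41452) (nat_lit 11)
  nil nil) nil) nil)) nil) (node (nat_lit 5) (nat_lit 61328) (nat_lit 7) (node (nat_lit 4)
  (nat_lit 37919) (nat_lit 8) (node (nat_lit 8) (nat_lit 37919) (nat_lit 9) nil nil) (node
  (nat_lit 7) (nat_lit 61143) (nat_lit 8) (node (nat_lit 4) (nat_lit 60585) (nat_lit 9) nil nil)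
  nil)) (node (nat_lit 0) (nat_lit 64548) (nat_lit 7) nil nil)))) (node (nat_lit 7) (nat_lit
  64548) (nat_lit 6) (node (nat_lit 4) (nat_lit 64548) (nat_lit 7) (node (nat_lit 8) (nat_lit
  64548) (nat_lit 8) (node (nat_lit 4) (nat_lit 64548) (nat_lit 9) nil nil) (node (nat_lit 5)
  (nat_lit 64548) (nat_lit 8) (node (nat_lit 4) (nat_lit 64548) (nat_lit 9) (node (nat_lit 7)
  (nat_lit 64548) (nat_lit 10) (node (nat_lit 8) (nat_lit 39310) (nat_lit 11) nil nil) nil) nil)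
  nil)) (node (nat_lit 5) (nat_lit 64548) (nat_lit 7) (node (nat_lit 8) (nat_lit 64548) (nat_lit
  8) (node (nat_lit 4) (nat_lit 64548) (nat_lit 9) nil nil) nil) nil)) (node (nat_lit 5) (nat_lit
  64548) (nat_lit 6) (node (nat_lit 7) (nat_lit 64548) (nat_lit 7) (node (nat_lit 4) (nat_lit
  64548) (nat_lit 8) (node (nat_lit 5) (nat_lit 64548) (nat_lit 9) (node (nat_lit 4) (nat_lit
  59271) (nat_lit 10) (node (nat_lit 7) (nat_lit 53617) (nat_lit 11) (node (nat_lit 8) (nat_lit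
  38544) (nat_lit 12) nil nil) nil) nil) (node (nat_lit 8) (nat_lit 64548) (nat_lit 9) (node
  (nat_lit 4) (nat_lit 64548) (nat_lit 10) nil nil) nil)) (node (nat_lit 8) (nat_lit 64548)
  (nat_lit 8) (node (nat_lit 7) (nat_lit 64548) (nat_lit 9) nil (node (nat_lit 4) (nat_lit 64548)
  (nat_lit 9) (node (nat_lit 5) (nat_lit 64548) (nat_lit 10) nil nil) nil)) nil)) (node (nat_lit
  8) (nat_lit 64548) (nat_lit 7) (node (nat_lit 4) (nat_lit 64548) (nat_lit 8) (node (nat_lit 5)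
  (nat_lit 64548) (nat_lit 9) (node (nat_lit 4) (nat_lit 64548) (nat_lit 10) (node (nat_lit 7)
  (nat_lit 61109) (nat_lit 11) (node (nat_lit 8) (nat_lit 42830) (nat_lit 12) nil nil) nil) nil)
  nil) (node (nat_lit 7) (nat_lit 64548) (nat_lit 8) (node (nat_lit 5) (nat_lit 64548) (nat_lit 9)
  (node (nat_lit 7) (nat_lit 64548) (nat_lit 10) (node (nat_lit 8) (nat_lit 64548) (nat_lit 11)
  nil nil) nil) nil) nil)) nil)) (node (nat_lit 0) (nat_lit 64548) (nat_lit 6) (node (nat_lit 7)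
  (nat_lit 64548) (nat_lit 7) (node (nat_lit 8) (nat_lit 64548) (nat_lit 8) nil (node (nat_lit 4)
  (nat_lit 64548) (nat_lit 8) nil nil)) (node (nat_lit 8) (nat_lit 64548) (nat_lit 7) (node
  (nat_lit 4) (nat_lit 64548) (nat_lit 8) nil nil) nil)) nil)))) (node (nat_lit 0) (nat_lit 64132)
  (nat_lit 5) (node (nat_lit 4) (nat_lit 64548) (nat_lit 6) (node (nat_lit 7) (nat_lit 64548)
  (nat_lit 7) (node (nat_lit 4) (nat_lit 64548) (nat_lit 8) nil nil) nil) (node (nat_lit 7)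
  (nat_lit 64548) (nat_lit 6) (node (nat_lit 4) (nat_lit 64548) (nat_lit 7) (node (nat_lit 5)
  (nat_lit 64548) (nat_lit 8) (node (nat_lit 4) (nat_lit 64548) (nat_lit 9) (node (nat_lit 7)
  (nat_lit 64548) (nat_lit 10) nil nil) nil) nil) nil) (node (nat_lit 5) (nat_lit 64548) (nat_lit
  6) nil (node (nat_lit 1) (nat_lit 64548) (nat_lit 6) (node (nat_lit 4) (nat_lit 64548) (nat_lit
  7) (node (nat_lit 5) (nat_lit 64548) (nat_lit 8) nil nil) nil) (node (nat_lit 0) (nat_lit 64548)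
  (nat_lit 6) nil nil))))) nil)))) (node (nat_lit 0) (nat_lit 0) (nat_lit 4) (node (nat_lit 5)
  (nat_lit 66090) (nat_lit 5) (node (nat_lit 3) (nat_lit 67882) (nat_lit 6) nil (node (nat_lit 1)
  (nat_lit 68205) (nat_lit 6) nil nil)) (node (nat_lit 4) (nat_lit 66061) (nat_lit 5) nil (node
  (nat_lit 1) (nat_lit 68205) (nat_lit 5) (node (nat_lit 4) (nat_lit 68205) (nat_lit 6) (node
  (nat_lit 5) (nat_lit 68205) (nat_lit 7) (node (nat_lit 4) (nat_lit 66926) (nat_lit 8) nil nil)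
  nil) nil) (node (nat_lit 3) (nat_lit 68070) (nat_lit 5) (node (nat_lit 4) (nat_lit 68070)
  (nat_lit 6) (node (nat_lit 5) (nat_lit 68070) (nat_lit 7) (node (nat_lit 4) (nat_lit 68070)
  (nat_lit 8) (node (nat_lit 7) (nat_lit 39040) (nat_lit 9) nil nil) nil) nil) (node (nat_lit 1)
  (nat_lit 68205) (nat_lit 6) nil nil)) (node (nat_lit 0) (nat_lit 68205) (nat_lit 5) nil nil)))))
  nil)))

noncomputable def t20 : Tr :=
  (node (nat_lit 1) (nat_lit 0) (nat_lit 3) (node (nat_lit 4) (nat_lit 0) (nat_lit 4) (node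
  (nat_lit 6) (nat_lit 32302) (nat_lit 5) (node (nat_lit 5) (nat_lit 46933) (nat_lit 6) (node
  (nat_lit 6) (nat_lit 52152) (nat_lit 7) (node (nat_lit 0) (nat_lit 57554) (nat_lit 8) nil (node
  (nat_lit 3) (nat_lit 57058) (nat_lit 8) nil (node (nat_lit 4) (nat_lit 54974) (nat_lit 8) (node
  (nat_lit 5) (nat_lit 57926) (nat_lit 9) (node (nat_lit 4) (nat_lit 57697) (nat_lit 10) (node
  (nat_lit 6) (nat_lit 58672) (nat_lit 11) (node (nat_lit 4) (nat_lit 58535) (nat_lit 12) (node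
  (nat_lit 5) (nat_lit 58643) (nat_lit 13) (node (nat_lit 6) (nat_lit 59138) (nat_lit 14) (node
  (nat_lit 4) (nat_lit 59092) (nat_lit 15) (node (nat_lit 6) (nat_lit 59383) (nat_lit 16) (node
  (nat_lit 5) (nat_lit 59366) (nat_lit 17) (node (nat_lit 6) (nat_lit 51384) (nat_lit 18) (node
  (nat_lit 4) (nat_lit 46927) (nat_lit 19) (node (nat_lit 5) (nat_lit 41389) (nat_lit 20) nil nil)
  nil) nil) nil) nil) nil) nil) nil) nil) nil) (node (nat_lit 6) (nat_lit 59128) (nat_lit 10) nil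
  nil)) (node (nat_lit 3) (nat_lit 55614) (nat_lit 9) (node (nat_lit 4) (nat_lit 54741) (nat_lit
  10) (node (nat_lit 5) (nat_lit 52999) (nat_lit 11) (node (nat_lit 6) (nat_lit 49383) (nat_lit
  12) (node (nat_lit 4) (nat_lit 49131) (nat_lit 13) (node (nat_lit 6) (nat_lit 31434) (nat_lit
  14) (node (nat_lit 5) (nat_lit 23999) (nat_lit 15) nil nil) nil) nil) nil) nil) nil) (node
  (nat_lit 0) (nat_lit 57445) (nat_lit 9) nil nil))) nil))) (node (nat_lit 4) (nat_lit 52095)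
  (nat_lit 7) (node (nat_lit 6) (nat_lit 55651) (nat_lit 8) (node (nat_lit 4) (nat_lit 57397)
  (nat_lit 9) (node (nat_lit 5) (nat_lit 59791) (nat_lit 10) (node (nat_lit 6) (nat_lit 60766)
  (nat_lit 11) (node (nat_lit 4) (nat_lit 58033) (nat_lit 12) (node (nat_lit 6) (nat_lit 47507)
  (nat_lit 13) (node (nat_lit 5) (nat_lit 39880) (nat_lit 14) nil nil) nil) nil) nil) nil) nil)
  (node (nat_lit 5) (nat_lit 56471) (nat_lit 8) (node (nat_lit 6) (nat_lit 57673) (nat_lit 9)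
  (node (nat_lit 5) (nat_lit 59318) (nat_lit 10) (node (nat_lit 4) (nat_lit 60084) (nat_lit 11)
  (node (nat_lit 6) (nat_lit 60885) (nat_lit 12) (node (nat_lit 4) (nat_lit 58893) (nat_lit 13)
  (node (nat_lit 5) (nat_lit 58763) (nat_lit 14) (node (nat_lit 6) (nat_lit 58241) (nat_lit 15)
  (node (nat_lit 4) (nat_lit 57052) (nat_lit 16) (node (nat_lit 6) (nat_lit 56139) (nat_lit 17)
  (node (nat_lit 5) (nat_lit 53398) (nat_lit 18) (node (nat_lit 4) (nat_lit 49298) (nat_lit 19)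
  (node (nat_lit 5) (nat_lit 41874) (nat_lit 20) (node (nat_lit 6) (nat_lit 36406) (nat_lit 21)
  nil nil) nil) nil) nil) nil) nil) nil) nil) nil) nil) nil) (node (nat_lit 4) (nat_lit 57444)
  (nat_lit 10) nil nil)) (node (nat_lit 3) (nat_lit 56940) (nat_lit 9) nil nil)) (node (nat_lit 3)
  (nat_lit 58246) (nat_lit 8) (node (nat_lit 4) (nat_lit 58988) (nat_lit 9) nil (node (nat_lit 5)
  (nat_lit 58377) (nat_lit 9) nil nil)) (node (nat_lit 0) (nat_lit 57876) (nat_lit 8) nil nil))))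
  (node (nat_lit 3) (nat_lit 56213) (nat_lit 7) (node (nat_lit 6) (nat_lit 58224) (nat_lit 8)
  (node (nat_lit 4) (nat_lit 57494) (nat_lit 9) nil nil) (node (nat_lit 4) (nat_lit 58810)
  (nat_lit 8) (node (nat_lit 5) (nat_lit 56934) (nat_lit 9) (node (nat_lit 6) (nat_lit 47202)
  (nat_lit 10) (node (nat_lit 4) (nat_lit 23555) (nat_lit 11) nil nil) nil) nil) nil)) (node
  (nat_lit 0) (nat_lit 56211) (nat_lit 7) (node (nat_lit 6) (nat_lit 58331) (nat_lit 8) nil nil)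
  nil)))) (node (nat_lit 3) (nat_lit 44366) (nat_lit 6) (node (nat_lit 4) (nat_lit 48809) (nat_lit
  7) (node (nat_lit 9) (nat_lit 51367) (nat_lit 8) (node (nat_lit 6) (nat_lit 51989) (nat_lit 9)
  (node (nat_lit 9) (nat_lit 54421) (nat_lit 10) (node (nat_lit 4) (nat_lit 55122) (nat_lit 11)
  nil nil) (node (nat_lit 4) (nat_lit 52383) (nat_lit 10) nil nil)) (node (nat_lit 5) (nat_lit
  58571) (nat_lit 9) (node (nat_lit 6) (nat_lit 59288) (nat_lit 10) nil nil) nil)) (node (nat_lit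
  6) (nat_lit 50146) (nat_lit 8) (node (nat_lit 4) (nat_lit 49415) (nat_lit 9) nil nil) (node
  (nat_lit 5) (nat_lit 57191) (nat_lit 8) (node (nat_lit 6) (nat_lit 58237) (nat_lit 9) (node
  (nat_lit 4) (nat_lit 57523) (nat_lit 10) nil nil) nil) (node (nat_lit 0) (nat_lit 57053)
  (nat_lit 8) nil nil)))) (node (nat_lit 6) (nat_lit 47959) (nat_lit 7) (node (nat_lit 4) (nat_lit
  48935) (nat_lit 8) (node (nat_lit 5) (nat_lit 51107) (nat_lit 9) (node (nat_lit 6) (nat_lit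
  43910) (nat_lit 10) (node (nat_lit 4) (nat_lit 35264) (nat_lit 11) (node (nat_lit 6) (nat_lit
  33573) (nat_lit 12) nil nil) nil) nil) nil) (node (nat_lit 5) (nat_lit 53544) (nat_lit 8) nil
  nil)) (node (nat_lit 5) (nat_lit 55838) (nat_lit 7) (node (nat_lit 6) (nat_lit 58676) (nat_lit
  8) (node (nat_lit 5) (nat_lit 59956) (nat_lit 9) (node (nat_lit 9) (nat_lit 59438) (nat_lit 10)
  nil (node (nat_lit 4) (nat_lit 60366) (nat_lit 10) nil nil)) (node (nat_lit 4) (nat_lit 58558)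
  (nat_lit 9) (node (nat_lit 9) (nat_lit 55920) (nat_lit 10) nil nil) (node (nat_lit 9) (nat_lit
  59984) (nat_lit 9) (node (nat_lit 4) (nat_lit 59405) (nat_lit 10) nil nil) nil))) (node (nat_lit
  9) (nat_lit 55962) (nat_lit 8) nil nil)) (node (nat_lit 0) (nat_lit 55666) (nat_lit 7) (node
  (nat_lit 6) (nat_lit 57787) (nat_lit 8) nil nil) nil)))) (node (nat_lit 0) (nat_lit 51928)
  (nat_lit 6) (node (nat_lit 4) (nat_lit 56106) (nat_lit 7) (node (nat_lit 6) (nat_lit 58227)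
  (nat_lit 8) nil (node (nat_lit 9) (nat_lit 58552) (nat_lit 8) nil nil)) (node (nat_lit 5)
  (nat_lit 56566) (nat_lit 7) nil (node (nat_lit 6) (nat_lit 54874) (nat_lit 7) (node (nat_lit 4)
  (nat_lit 55283) (nat_lit 8) nil nil) (node (nat_lit 3) (nat_lit 55310) (nat_lit 7) (node
  (nat_lit 4) (nat_lit 57430) (nat_lit 8) nil nil) (node (nat_lit 0) (nat_lit 55715) (nat_lit 7)
  nil nil))))) nil))) (node (nat_lit 5) (nat_lit 0) (nat_lit 5) t13 (node (nat_lit 3) (nat_lit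
  38789) (nat_lit 5) (node (nat_lit 5) (nat_lit 50981) (nat_lit 6) (node (nat_lit 8) (nat_lit
  53414) (nat_lit 7) (node (nat_lit 6) (nat_lit 53584) (nat_lit 8) (node (nat_lit 5) (nat_lit
  54947) (nat_lit 9) nil (node (nat_lit 4) (nat_lit 53656) (nat_lit 9) (node (nat_lit 8) (nat_lit
  53771) (nat_lit 10) (node (nat_lit 4) (nat_lit 52835) (nat_lit 11) nil nil) nil) nil)) (node
  (nat_lit 4) (nat_lit 54533) (nat_lit 8) (node (nat_lit 5) (nat_lit 54143) (nat_lit 9) (node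
  (nat_lit 6) (nat_lit 49216) (nat_lit 10) (node (nat_lit 4) (nat_lit 39756) (nat_lit 11) nil nil)
  nil) nil) nil)) (node (nat_lit 4) (nat_lit 53565) (nat_lit 7) (node (nat_lit 6) (nat_lit 55283)
  (nat_lit 8) (node (nat_lit 4) (nat_lit 55485) (nat_lit 9) (node (nat_lit 5) (nat_lit 56886)
  (nat_lit 10) (node (nat_lit 6) (nat_lit 57518) (nat_lit 11) (node (nat_lit 4) (nat_lit 50747)
  (nat_lit 12) nil nil) nil) (node (nat_lit 0) (nat_lit 56202) (nat_lit 10) nil nil)) nil) (node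
  (nat_lit 5) (nat_lit 55846) (nat_lit 8) nil nil)) (node (nat_lit 6) (nat_lit 53565) (nat_lit 7)
  nil nil))) (node (nat_lit 6) (nat_lit 42966) (nat_lit 6) (node (nat_lit 8) (nat_lit 45696)
  (nat_lit 7) (node (nat_lit 4) (nat_lit 47304) (nat_lit 8) (node (nat_lit 6) (nat_lit 48516)
  (nat_lit 9) nil (node (nat_lit 5) (nat_lit 52793) (nat_lit 9) nil nil)) (node (nat_lit 5)
  (nat_lit 53353) (nat_lit 8) nil nil)) (node (nat_lit 4) (nat_lit 45585) (nat_lit 7) (node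
  (nat_lit 6) (nat_lit 47193) (nat_lit 8) (node (nat_lit 8) (nat_lit 48322) (nat_lit 9) (node
  (nat_lit 4) (nat_lit 50071) (nat_lit 10) nil nil) nil) (node (nat_lit 5) (nat_lit 48849)
  (nat_lit 8) (node (nat_lit 6) (nat_lit 33365) (nat_lit 9) nil nil) nil)) (node (nat_lit 5)
  (nat_lit 53290) (nat_lit 7) (node (nat_lit 6) (nat_lit 55009) (nat_lit 8) (node (nat_lit 4)
  (nat_lit 55210) (nat_lit 9) nil nil) nil) (node (nat_lit 0) (nat_lit 51695) (nat_lit 7) nil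
  nil)))) (node (nat_lit 4) (nat_lit 34512) (nat_lit 6) (node (nat_lit 6) (nat_lit 37045) (nat_lit
  7) (node (nat_lit 8) (nat_lit 38697) (nat_lit 8) (node (nat_lit 6) (nat_lit 39858) (nat_lit 9)
  (node (nat_lit 4) (nat_lit 40977) (nat_lit 10) (node (nat_lit 5) (nat_lit 38730) (nat_lit 11)
  (node (nat_lit 6) (nat_lit 31915) (nat_lit 12) nil nil) nil) nil) (node (nat_lit 4) (nat_lit
  39640) (nat_lit 9) (node (nat_lit 8) (nat_lit 41662) (nat_lit 10) nil nil) (node (nat_lit 5)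
  (nat_lit 43087) (nat_lit 9) nil nil))) (node (nat_lit 4) (nat_lit 38697) (nat_lit 8) (node
  (nat_lit 8) (nat_lit 39858) (nat_lit 9) (node (nat_lit 6) (nat_lit 41548) (nat_lit 10) nil nil)
  (node (nat_lit 5) (nat_lit 39468) (nat_lit 9) (node (nat_lit 6) (nat_lit 26081) (nat_lit 10)
  (node (nat_lit 4) (nat_lit 25238) (nat_lit 11) nil nil) nil) (node (nat_lit 0) (nat_lit 39640)
  (nat_lit 9) nil nil))) (node (nat_lit 5) (nat_lit 44326) (nat_lit 8) nil (node (nat_lit 0)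
  (nat_lit 42898) (nat_lit 8) nil nil)))) (node (nat_lit 5) (nat_lit 44111) (nat_lit 7) (node
  (nat_lit 8) (nat_lit 45475) (nat_lit 8) (node (nat_lit 6) (nat_lit 46419) (nat_lit 9) (node
  (nat_lit 4) (nat_lit 45704) (nat_lit 10) nil nil) nil) (node (nat_lit 6) (nat_lit 37461)
  (nat_lit 8) nil nil)) (node (nat_lit 0) (nat_lit 43314) (nat_lit 7) (node (nat_lit 8) (nat_lit
  42618) (nat_lit 8) nil nil) nil))) (node (nat_lit 0) (nat_lit 50132) (nat_lit 6) (node (nat_lit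
  8) (nat_lit 52205) (nat_lit 7) (node (nat_lit 4) (nat_lit 53570) (nat_lit 8) nil nil) (node
  (nat_lit 6) (nat_lit 52205) (nat_lit 7) nil nil)) nil)))) (node (nat_lit 0) (nat_lit 47718)
  (nat_lit 5) (node (nat_lit 6) (nat_lit 53113) (nat_lit 6) (node (nat_lit 4) (nat_lit 55419)
  (nat_lit 7) (node (nat_lit 5) (nat_lit 54506) (nat_lit 8) (node (nat_lit 6) (nat_lit 55450)
  (nat_lit 9) (node (nat_lit 4) (nat_lit 54736) (nat_lit 10) nil nil) nil) nil) (node (nat_lit 5)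
  (nat_lit 56567) (nat_lit 7) nil (node (nat_lit 8) (nat_lit 56433) (nat_lit 7) nil (node (nat_lit
  3) (nat_lit 55186) (nat_lit 7) nil nil)))) (node (nat_lit 4) (nat_lit 53244) (nat_lit 6) (node
  (nat_lit 5) (nat_lit 54238) (nat_lit 7) nil (node (nat_lit 6) (nat_lit 53712) (nat_lit 7) (node
  (nat_lit 4) (nat_lit 52800) (nat_lit 8) nil nil) (node (nat_lit 3) (nat_lit 54944) (nat_lit 7)
  nil nil))) (node (nat_lit 5) (nat_lit 54399) (nat_lit 6) (node (nat_lit 4) (nat_lit 55950)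
  (nat_lit 7) nil (node (nat_lit 8) (nat_lit 56658) (nat_lit 7) nil nil)) (node (nat_lit 3)
  (nat_lit 53013) (nat_lit 6) (node (nat_lit 4) (nat_lit 55124) (nat_lit 7) (node (nat_lit 5)
  (nat_lit 56489) (nat_lit 8) (node (nat_lit 6) (nat_lit 57432) (nat_lit 9) nil nil) nil) (node
  (nat_lit 6) (nat_lit 54881) (nat_lit 7) nil nil)) (node (nat_lit 0) (nat_lit 53923) (nat_lit 6)
  (node (nat_lit 4) (nat_lit 52960) (nat_lit 7) nil (node (nat_lit 6) (nat_lit 55997) (nat_lit 7)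
  nil (node (nat_lit 8) (nat_lit 56182) (nat_lit 7) nil (node (nat_lit 3) (nat_lit 53249) (nat_lit
  7) nil (node (nat_lit 5) (nat_lit 56950) (nat_lit 7) nil nil))))) nil))))) nil)))) t14) (node
  (nat_lit 3) (nat_lit 0) (nat_lit 3) (node (nat_lit 4) (nat_lit 0) (nat_lit 4) t15 (node (nat_lit
  5) (nat_lit 0) (nat_lit 4) t17 (node (nat_lit 1) (nat_lit 0) (nat_lit 4) t18 (node (nat_lit 0)
  (nat_lit 0) (nat_lit 4) (node (nat_lit 5) (nat_lit 63948) (nat_lit 5) (node (nat_lit 7) (nat_lit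
  67769) (nat_lit 6) (node (nat_lit 6) (nat_lit 70257) (nat_lit 7) (node (nat_lit 5) (nat_lit
  67285) (nat_lit 8) nil nil) nil) (node (nat_lit 6) (nat_lit 67619) (nat_lit 6) (node (nat_lit 5)
  (nat_lit 69692) (nat_lit 7) nil (node (nat_lit 4) (nat_lit 70107) (nat_lit 7) (node (nat_lit 5)
  (nat_lit 65720) (nat_lit 8) (node (nat_lit 6) (nat_lit 47810) (nat_lit 9) (node (nat_lit 7)
  (nat_lit 40131) (nat_lit 10) nil nil) nil) nil) nil)) (node (nat_lit 4) (nat_lit 67619) (nat_lit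
  6) (node (nat_lit 6) (nat_lit 65480) (nat_lit 7) nil nil) (node (nat_lit 1) (nat_lit 66988)
  (nat_lit 6) nil (node (nat_lit 0) (nat_lit 66988) (nat_lit 6) nil nil))))) (node (nat_lit 6)
  (nat_lit 63948) (nat_lit 5) (node (nat_lit 5) (nat_lit 67619) (nat_lit 6) (node (nat_lit 6)
  (nat_lit 69204) (nat_lit 7) (node (nat_lit 4) (nat_lit 61317) (nat_lit 8) (node (nat_lit 5)
  (nat_lit 56564) (nat_lit 9) (node (nat_lit 6) (nat_lit 50118) (nat_lit 10) (node (nat_lit 7)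
  (nat_lit 43482) (nat_lit 11) nil nil) nil) nil) nil) nil) (node (nat_lit 4) (nat_lit 67769)
  (nat_lit 6) (node (nat_lit 5) (nat_lit 69842) (nat_lit 7) (node (nat_lit 6) (nat_lit 68930)
  (nat_lit 8) (node (nat_lit 7) (nat_lit 41539) (nat_lit 9) nil nil) nil) (node (nat_lit 1)
  (nat_lit 69180) (nat_lit 7) (node (nat_lit 5) (nat_lit 66870) (nat_lit 8) (node (nat_lit 6)
  (nat_lit 65060) (nat_lit 9) nil nil) nil) nil)) (node (nat_lit 1) (nat_lit 67601) (nat_lit 6)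
  (node (nat_lit 4) (nat_lit 62108) (nat_lit 7) (node (nat_lit 5) (nat_lit 57238) (nat_lit 8)
  (node (nat_lit 6) (nat_lit 41928) (nat_lit 9) nil nil) nil) nil) (node (nat_lit 0) (nat_lit
  67619) (nat_lit 6) nil nil)))) (node (nat_lit 4) (nat_lit 64246) (nat_lit 5) (node (nat_lit 6)
  (nat_lit 67917) (nat_lit 6) (node (nat_lit 4) (nat_lit 70405) (nat_lit 7) (node (nat_lit 5)
  (nat_lit 66009) (nat_lit 8) (node (nat_lit 6) (nat_lit 56074) (nat_lit 9) (node (nat_lit 7)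
  (nat_lit 44185) (nat_lit 10) nil nil) nil) nil) nil) (node (nat_lit 7) (nat_lit 67917) (nat_lit
  6) (node (nat_lit 6) (nat_lit 70405) (nat_lit 7) (node (nat_lit 4) (nat_lit 69493) (nat_lit 8)
  (node (nat_lit 5) (nat_lit 68659) (nat_lit 9) (node (nat_lit 6) (nat_lit 67945) (nat_lit 10) nil
  nil) nil) nil) (node (nat_lit 5) (nat_lit 64206) (nat_lit 7) nil nil)) (node (nat_lit 1)
  (nat_lit 66197) (nat_lit 6) (node (nat_lit 4) (nat_lit 53420) (nat_lit 7) (node (nat_lit 5)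
  (nat_lit 48373) (nat_lit 8) nil (node (nat_lit 6) (nat_lit 51176) (nat_lit 8) nil nil)) (node
  (nat_lit 6) (nat_lit 65233) (nat_lit 7) nil nil)) (node (nat_lit 5) (nat_lit 67917) (nat_lit 6)
  (node (nat_lit 7) (nat_lit 69990) (nat_lit 7) nil nil) (node (nat_lit 0) (nat_lit 67917)
  (nat_lit 6) nil nil))))) (node (nat_lit 1) (nat_lit 63948) (nat_lit 5) (node (nat_lit 6)
  (nat_lit 67619) (nat_lit 6) (node (nat_lit 4) (nat_lit 66655) (nat_lit 7) nil nil) (node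
  (nat_lit 7) (nat_lit 67619) (nat_lit 6) (node (nat_lit 6) (nat_lit 69692) (nat_lit 7) (node
  (nat_lit 8) (nat_lit 66977) (nat_lit 8) nil nil) nil) (node (nat_lit 4) (nat_lit 67619) (nat_lit
  6) (node (nat_lit 5) (nat_lit 69692) (nat_lit 7) nil nil) (node (nat_lit 5) (nat_lit 66012)
  (nat_lit 6) (node (nat_lit 6) (nat_lit 59289) (nat_lit 7) nil (node (nat_lit 7) (nat_lit 68085)
  (nat_lit 7) nil nil)) nil)))) (node (nat_lit 0) (nat_lit 64230) (nat_lit 5) (node (nat_lit 6)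
  (nat_lit 67900) (nat_lit 6) nil (node (nat_lit 5) (nat_lit 66456) (nat_lit 6) nil (node (nat_lit
  7) (nat_lit 67900) (nat_lit 6) (node (nat_lit 6) (nat_lit 66937) (nat_lit 7) nil nil) (node
  (nat_lit 4) (nat_lit 66456) (nat_lit 6) nil (node (nat_lit 1) (nat_lit 67270) (nat_lit 6) (node
  (nat_lit 4) (nat_lit 66596) (nat_lit 7) nil nil) nil))))) nil))))) nil)))) (node (nat_lit 4)
  (nat_lit 0) (nat_lit 3) t19 (node (nat_lit 0) (nat_lit 0) (nat_lit 3) (node (nat_lit 5) (nat_lit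
  0) (nat_lit 4) (node (nat_lit 4) (nat_lit 75679) (nat_lit 5) (node (nat_lit 6) (nat_lit 79235)
  (nat_lit 6) nil (node (nat_lit 1) (nat_lit 78604) (nat_lit 6) nil (node (nat_lit 3) (nat_lit
  78645) (nat_lit 6) (node (nat_lit 4) (nat_lit 75643) (nat_lit 7) (node (nat_lit 5) (nat_lit
  58574) (nat_lit 8) (node (nat_lit 6) (nat_lit 50996) (nat_lit 9) (node (nat_lit 5) (nat_lit
  40477) (nat_lit 10) (node (nat_lit 4) (nat_lit 39634) (nat_lit 11) nil nil) nil) nil) nil) nil)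
  (node (nat_lit 5) (nat_lit 79168) (nat_lit 6) nil nil)))) (node (nat_lit 3) (nat_lit 75773)
  (nat_lit 5) (node (nat_lit 6) (nat_lit 78698) (nat_lit 6) nil (node (nat_lit 4) (nat_lit 79329)
  (nat_lit 6) (node (nat_lit 5) (nat_lit 69101) (nat_lit 7) (node (nat_lit 6) (nat_lit 47479)
  (nat_lit 8) nil nil) (node (nat_lit 1) (nat_lit 76032) (nat_lit 7) nil nil)) (node (nat_lit 1)
  (nat_lit 78698) (nat_lit 6) nil nil))) (node (nat_lit 1) (nat_lit 75006) (nat_lit 5) (node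
  (nat_lit 6) (nat_lit 77931) (nat_lit 6) nil (node (nat_lit 4) (nat_lit 73852) (nat_lit 6) (node
  (nat_lit 5) (nat_lit 67923) (nat_lit 7) (node (nat_lit 6) (nat_lit 45364) (nat_lit 8) nil nil)
  nil) (node (nat_lit 3) (nat_lit 73852) (nat_lit 6) nil nil))) (node (nat_lit 0) (nat_lit 75284)
  (nat_lit 5) nil nil)))) (node (nat_lit 4) (nat_lit 0) (nat_lit 4) (node (nat_lit 6) (nat_lit
  75773) (nat_lit 5) (node (nat_lit 5) (nat_lit 79329) (nat_lit 6) nil (node (nat_lit 1) (nat_lit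
  78698) (nat_lit 6) (node (nat_lit 4) (nat_lit 77793) (nat_lit 7) (node (nat_lit 5) (nat_lit
  76919) (nat_lit 8) (node (nat_lit 6) (nat_lit 77888) (nat_lit 9) nil nil) nil) nil) (node
  (nat_lit 3) (nat_lit 75250) (nat_lit 6) (node (nat_lit 4) (nat_lit 74344) (nat_lit 7) (node
  (nat_lit 5) (nat_lit 73470) (nat_lit 8) (node (nat_lit 6) (nat_lit 74440) (nat_lit 9) nil nil)
  nil) nil) nil))) (node (nat_lit 1) (nat_lit 73476) (nat_lit 5) (node (nat_lit 4) (nat_lit 74448)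
  (nat_lit 6) (node (nat_lit 5) (nat_lit 73542) (nat_lit 7) (node (nat_lit 6) (nat_lit 59286)
  (nat_lit 8) nil nil) (node (nat_lit 6) (nat_lit 76579) (nat_lit 7) (node (nat_lit 8) (nat_lit
  77982) (nat_lit 8) nil nil) nil)) (node (nat_lit 6) (nat_lit 76401) (nat_lit 6) nil nil)) (node
  (nat_lit 3) (nat_lit 75679) (nat_lit 5) (node (nat_lit 4) (nat_lit 77086) (nat_lit 6) (node
  (nat_lit 5) (nat_lit 68699) (nat_lit 7) (node (nat_lit 6) (nat_lit 55459) (nat_lit 8) nil nil)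
  nil) (node (nat_lit 5) (nat_lit 74525) (nat_lit 6) (node (nat_lit 8) (nat_lit 72040) (nat_lit 7)
  nil nil) (node (nat_lit 1) (nat_lit 78195) (nat_lit 6) nil nil))) (node (nat_lit 5) (nat_lit
  75679) (nat_lit 5) (node (nat_lit 4) (nat_lit 79235) (nat_lit 6) nil (node (nat_lit 1) (nat_lit
  78604) (nat_lit 6) nil (node (nat_lit 3) (nat_lit 74114) (nat_lit 6) nil nil))) (node (nat_lit
  0) (nat_lit 75284) (nat_lit 5) (node (nat_lit 3) (nat_lit 74130) (nat_lit 6) nil (node (nat_lit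
  1) (nat_lit 78209) (nat_lit 6) nil nil)) nil))))) (node (nat_lit 1) (nat_lit 0) (nat_lit 4)
  (node (nat_lit 4) (nat_lit 74351) (nat_lit 5) (node (nat_lit 7) (nat_lit 77276) (nat_lit 6) nil
  (node (nat_lit 5) (nat_lit 73197) (nat_lit 6) (node (nat_lit 6) (nat_lit 18164) (nat_lit 7) nil
  nil) nil)) (node (nat_lit 6) (nat_lit 75228) (nat_lit 5) (node (nat_lit 5) (nat_lit 78784)
  (nat_lit 6) nil (node (nat_lit 4) (nat_lit 77064) (nat_lit 6) (node (nat_lit 7) (nat_lit 79195)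
  (nat_lit 7) (node (nat_lit 4) (nat_lit 76522) (nat_lit 8) nil nil) nil) (node (nat_lit 3)
  (nat_lit 74074) (nat_lit 6) (node (nat_lit 4) (nat_lit 73169) (nat_lit 7) nil nil) nil))) (node
  (nat_lit 5) (nat_lit 73796) (nat_lit 5) (node (nat_lit 7) (nat_lit 76987) (nat_lit 6) (node
  (nat_lit 4) (nat_lit 76082) (nat_lit 7) nil nil) (node (nat_lit 3) (nat_lit 72882) (nat_lit 6)
  nil nil)) (node (nat_lit 3) (nat_lit 74038) (nat_lit 5) (node (nat_lit 4) (nat_lit 72884)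
  (nat_lit 6) nil (node (nat_lit 5) (nat_lit 72884) (nat_lit 6) nil nil)) (node (nat_lit 0)
  (nat_lit 73428) (nat_lit 5) nil nil))))) (node (nat_lit 3) (nat_lit 0) (nat_lit 4) (node
  (nat_lit 4) (nat_lit 75865) (nat_lit 5) (node (nat_lit 5) (nat_lit 78790) (nat_lit 6) (node
  (nat_lit 6) (nat_lit 42630) (nat_lit 7) nil nil) nil) (node (nat_lit 6) (nat_lit 75865) (nat_lit
  5) (node (nat_lit 5) (nat_lit 79422) (nat_lit 6) nil (node (nat_lit 4) (nat_lit 77701) (nat_lit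
  6) nil nil)) (node (nat_lit 5) (nat_lit 75865) (nat_lit 5) (node (nat_lit 7) (nat_lit 78149)
  (nat_lit 6) (node (nat_lit 4) (nat_lit 75000) (nat_lit 7) nil nil) nil) (node (nat_lit 1)
  (nat_lit 72394) (nat_lit 5) (node (nat_lit 4) (nat_lit 71240) (nat_lit 6) nil nil) (node
  (nat_lit 0) (nat_lit 75471) (nat_lit 5) nil nil))))) (node (nat_lit 0) (nat_lit 0) (nat_lit 4)
  (node (nat_lit 6) (nat_lit 75855) (nat_lit 5) (node (nat_lit 1) (nat_lit 78780) (nat_lit 6) nil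
  (node (nat_lit 3) (nat_lit 74701) (nat_lit 6) nil nil)) (node (nat_lit 5) (nat_lit 75193)
  (nat_lit 5) nil (node (nat_lit 4) (nat_lit 75675) (nat_lit 5) nil (node (nat_lit 1) (nat_lit
  74116) (nat_lit 5) (node (nat_lit 4) (nat_lit 72962) (nat_lit 6) nil nil) (node (nat_lit 3)
  (nat_lit 75855) (nat_lit 5) (node (nat_lit 4) (nat_lit 78780) (nat_lit 6) nil (node (nat_lit 1)
  (nat_lit 77471) (nat_lit 6) nil nil)) (node (nat_lit 0) (nat_lit 75460) (nat_lit 5) nil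
  nil)))))) nil))))) nil))))

noncomputable def t21 : Tr :=
  (node (nat_lit 0) (nat_lit 0) (nat_lit 2) (node (nat_lit 1) (nat_lit 0) (nat_lit 3) (node
  (nat_lit 4) (nat_lit 0) (nat_lit 4) (node (nat_lit 6) (nat_lit 80554) (nat_lit 5) (node (nat_lit
  5) (nat_lit 83169) (nat_lit 6) nil (node (nat_lit 3) (nat_lit 83083) (nat_lit 6) nil nil)) (node
  (nat_lit 5) (nat_lit 0) (nat_lit 5) (node (nat_lit 4) (nat_lit 26578) (nat_lit 6) (node (nat_lit
  6) (nat_lit 28539) (nat_lit 7) (node (nat_lit 4) (nat_lit 28539) (nat_lit 8) (node (nat_lit 5)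
  (nat_lit 28539) (nat_lit 9) (node (nat_lit 6) (nat_lit 28539) (nat_lit 10) (node (nat_lit 5)
  (nat_lit 28539) (nat_lit 11) (node (nat_lit 4) (nat_lit 28539) (nat_lit 12) (node (nat_lit 5)
  (nat_lit 28539) (nat_lit 13) nil nil) nil) nil) nil) (node (nat_lit 0) (nat_lit 28539) (nat_lit
  9) (node (nat_lit 6) (nat_lit 28539) (nat_lit 10) (node (nat_lit 4) (nat_lit 28539) (nat_lit 11)
  (node (nat_lit 6) (nat_lit 28539) (nat_lit 12) nil nil) nil) (node (nat_lit 4) (nat_lit 28539)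
  (nat_lit 10) nil (node (nat_lit 5) (nat_lit 28539) (nat_lit 10) nil nil))) (node (nat_lit 3)
  (nat_lit 28539) (nat_lit 9) (node (nat_lit 6) (nat_lit 28539) (nat_lit 10) (node (nat_lit 4)
  (nat_lit 28539) (nat_lit 11) (node (nat_lit 6) (nat_lit 28539) (nat_lit 12) nil nil) (node
  (nat_lit 12) (nat_lit 28539) (nat_lit 11) (node (nat_lit 4) (nat_lit 28539) (nat_lit 12) nil
  nil) nil)) (node (nat_lit 4) (nat_lit 28539) (nat_lit 10) (node (nat_lit 5) (nat_lit 28539)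
  (nat_lit 11) (node (nat_lit 6) (nat_lit 28539) (nat_lit 12) (node (nat_lit 4) (nat_lit 27257)
  (nat_lit 13) (node (nat_lit 5) (nat_lit 21208) (nat_lit 14) nil nil) nil) nil) (node (nat_lit 6)
  (nat_lit 28539) (nat_lit 11) (node (nat_lit 12) (nat_lit 28539) (nat_lit 12) nil nil) nil))
  (node (nat_lit 5) (nat_lit 28539) (nat_lit 10) (node (nat_lit 12) (nat_lit 28539) (nat_lit 11)
  (node (nat_lit 4) (nat_lit 28539) (nat_lit 12) nil nil) nil) nil))) (node (nat_lit 2) (nat_lit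
  28539) (nat_lit 9) (node (nat_lit 6) (nat_lit 28539) (nat_lit 10) (node (nat_lit 4) (nat_lit
  28539) (nat_lit 11) (node (nat_lit 6) (nat_lit 28539) (nat_lit 12) nil nil) nil) (node (nat_lit
  4) (nat_lit 28539) (nat_lit 10) (node (nat_lit 6) (nat_lit 28539) (nat_lit 11) nil nil) (node
  (nat_lit 5) (nat_lit 28539) (nat_lit 10) nil (node (nat_lit 3) (nat_lit 28539) (nat_lit 10)
  (node (nat_lit 4) (nat_lit 28539) (nat_lit 11) nil nil) nil)))) nil)))) (node (nat_lit 5)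
  (nat_lit 28539) (nat_lit 8) (node (nat_lit 6) (nat_lit 28539) (nat_lit 9) nil (node (nat_lit 4)
  (nat_lit 28539) (nat_lit 9) (node (nat_lit 5) (nat_lit 28539) (nat_lit 10) nil nil) nil)) (node
  (nat_lit 3) (nat_lit 28539) (nat_lit 8) (node (nat_lit 4) (nat_lit 28539) (nat_lit 9) (node
  (nat_lit 5) (nat_lit 28539) (nat_lit 10) (node (nat_lit 6) (nat_lit 28539) (nat_lit 11) (node
  (nat_lit 4) (nat_lit 28539) (nat_lit 12) nil nil) nil) nil) nil) (node (nat_lit 0) (nat_lit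
  28539) (nat_lit 8) nil (node (nat_lit 2) (nat_lit 28539) (nat_lit 8) nil nil))))) (node (nat_lit
  3) (nat_lit 26578) (nat_lit 7) (node (nat_lit 5) (nat_lit 27258) (nat_lit 8) nil (node (nat_lit
  4) (nat_lit 26578) (nat_lit 8) (node (nat_lit 5) (nat_lit 26908) (nat_lit 9) (node (nat_lit 6)
  (nat_lit 19747) (nat_lit 10) nil nil) nil) (node (nat_lit 6) (nat_lit 27258) (nat_lit 8) nil
  nil))) (node (nat_lit 0) (nat_lit 28073) (nat_lit 7) nil (node (nat_lit 2) (nat_lit 26578)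
  (nat_lit 7) (node (nat_lit 4) (nat_lit 26578) (nat_lit 8) nil (node (nat_lit 5) (nat_lit 27258)
  (nat_lit 8) nil (node (nat_lit 6) (nat_lit 27258) (nat_lit 8) nil (node (nat_lit 3) (nat_lit
  26578) (nat_lit 8) (node (nat_lit 4) (nat_lit 24613) (nat_lit 9) nil nil) nil)))) nil)))) (node
  (nat_lit 3) (nat_lit 26539) (nat_lit 6) (node (nat_lit 6) (nat_lit 28073) (nat_lit 7) (node
  (nat_lit 4) (nat_lit 28073) (nat_lit 8) (node (nat_lit 6) (nat_lit 28362) (nat_lit 9) (node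
  (nat_lit 5) (nat_lit 28459) (nat_lit 10) (node (nat_lit 9) (nat_lit 28459) (nat_lit 11) nil nil)
  (node (nat_lit 9) (nat_lit 28362) (nat_lit 10) (node (nat_lit 4) (nat_lit 28362) (nat_lit 11)
  (node (nat_lit 5) (nat_lit 28539) (nat_lit 12) nil nil) nil) nil)) (node (nat_lit 9) (nat_lit
  28073) (nat_lit 9) (node (nat_lit 5) (nat_lit 28459) (nat_lit 10) (node (nat_lit 9) (nat_lit
  28459) (nat_lit 11) nil nil) (node (nat_lit 4) (nat_lit 28073) (nat_lit 10) (node (nat_lit 5)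
  (nat_lit 28535) (nat_lit 11) nil nil) nil)) nil)) (node (nat_lit 9) (nat_lit 28073) (nat_lit 8)
  (node (nat_lit 4) (nat_lit 28073) (nat_lit 9) (node (nat_lit 5) (nat_lit 28459) (nat_lit 10)
  (node (nat_lit 6) (nat_lit 28535) (nat_lit 11) nil nil) nil) nil) (node (nat_lit 5) (nat_lit
  28238) (nat_lit 8) (node (nat_lit 9) (nat_lit 28238) (nat_lit 9) (node (nat_lit 4) (nat_lit
  28238) (nat_lit 10) nil nil) nil) (node (nat_lit 0) (nat_lit 28238) (nat_lit 8) nil (node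
  (nat_lit 2) (nat_lit 28073) (nat_lit 8) nil nil))))) (node (nat_lit 4) (nat_lit 26539) (nat_lit
  7) (node (nat_lit 5) (nat_lit 27232) (nat_lit 8) (node (nat_lit 6) (nat_lit 27330) (nat_lit 9)
  nil nil) nil) (node (nat_lit 5) (nat_lit 27614) (nat_lit 7) nil (node (nat_lit 0) (nat_lit
  27077) (nat_lit 7) nil (node (nat_lit 2) (nat_lit 26539) (nat_lit 7) nil nil))))) (node (nat_lit
  0) (nat_lit 27690) (nat_lit 6) (node (nat_lit 4) (nat_lit 27690) (nat_lit 7) nil (node (nat_lit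
  5) (nat_lit 28133) (nat_lit 7) nil (node (nat_lit 6) (nat_lit 27908) (nat_lit 7) nil (node
  (nat_lit 3) (nat_lit 27690) (nat_lit 7) nil nil)))) (node (nat_lit 2) (nat_lit 26218) (nat_lit
  6) (node (nat_lit 4) (nat_lit 26218) (nat_lit 7) nil (node (nat_lit 6) (nat_lit 27094) (nat_lit
  7) nil (node (nat_lit 5) (nat_lit 27094) (nat_lit 7) nil (node (nat_lit 3) (nat_lit 26218)
  (nat_lit 7) (node (nat_lit 4) (nat_lit 26218) (nat_lit 8) nil nil) (node (nat_lit 0) (nat_lit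
  26756) (nat_lit 7) nil nil))))) nil)))) (node (nat_lit 3) (nat_lit 83252) (nat_lit 5) (node
  (nat_lit 4) (nat_lit 77478) (nat_lit 6) (node (nat_lit 5) (nat_lit 73229) (nat_lit 7) (node
  (nat_lit 6) (nat_lit 51855) (nat_lit 8) nil nil) nil) nil) (node (nat_lit 0) (nat_lit 81138)
  (nat_lit 5) nil (node (nat_lit 2) (nat_lit 84076) (nat_lit 5) nil nil))))) (node (nat_lit 5)
  (nat_lit 0) (nat_lit 4) (node (nat_lit 4) (nat_lit 80595) (nat_lit 5) (node (nat_lit 6) (nat_lit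
  83335) (nat_lit 6) (node (nat_lit 4) (nat_lit 88366) (nat_lit 7) (node (nat_lit 5) (nat_lit
  90669) (nat_lit 8) (node (nat_lit 6) (nat_lit 85935) (nat_lit 9) (node (nat_lit 5) (nat_lit
  69860) (nat_lit 10) (node (nat_lit 4) (nat_lit 27242) (nat_lit 11) nil (node (nat_lit 3)
  (nat_lit 69575) (nat_lit 11) nil nil)) nil) nil) nil) (node (nat_lit 5) (nat_lit 91532) (nat_lit
  7) (node (nat_lit 6) (nat_lit 91648) (nat_lit 8) (node (nat_lit 4) (nat_lit 91648) (nat_lit 9)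
  (node (nat_lit 5) (nat_lit 91777) (nat_lit 10) (node (nat_lit 4) (nat_lit 91777) (nat_lit 11)
  (node (nat_lit 6) (nat_lit 91870) (nat_lit 12) (node (nat_lit 4) (nat_lit 91870) (nat_lit 13)
  (node (nat_lit 5) (nat_lit 91934) (nat_lit 14) (node (nat_lit 6) (nat_lit 91955) (nat_lit 15)
  (node (nat_lit 5) (nat_lit 91970) (nat_lit 16) (node (nat_lit 4) (nat_lit 91970) (nat_lit 17)
  (node (nat_lit 6) (nat_lit 91108) (nat_lit 18) (node (nat_lit 5) (nat_lit 88069) (nat_lit 19)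
  (node (nat_lit 6) (nat_lit 81941) (nat_lit 20) (node (nat_lit 4) (nat_lit 71446) (nat_lit 21)
  (node (nat_lit 5) (nat_lit 54837) (nat_lit 22) nil nil) nil) nil) nil) nil) nil) nil) nil) nil)
  nil) nil) nil) nil) nil) nil) nil)) (node (nat_lit 3) (nat_lit 86442) (nat_lit 6) (node (nat_lit
  4) (nat_lit 77791) (nat_lit 7) (node (nat_lit 5) (nat_lit 73745) (nat_lit 8) (node (nat_lit 4)
  (nat_lit 71407) (nat_lit 9) (node (nat_lit 9) (nat_lit 70483) (nat_lit 10) nil nil) (node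
  (nat_lit 6) (nat_lit 59438) (nat_lit 9) (node (nat_lit 5) (nat_lit 57186) (nat_lit 10) nil nil)
  nil)) nil) nil) nil)) (node (nat_lit 3) (nat_lit 87210) (nat_lit 5) (node (nat_lit 6) (nat_lit
  88062) (nat_lit 6) (node (nat_lit 8) (nat_lit 88062) (nat_lit 7) (node (nat_lit 5) (nat_lit
  88442) (nat_lit 8) nil nil) (node (nat_lit 4) (nat_lit 87156) (nat_lit 7) (node (nat_lit 5)
  (nat_lit 81110) (nat_lit 8) (node (nat_lit 6) (nat_lit 66644) (nat_lit 9) (node (nat_lit 5)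
  (nat_lit 51349) (nat_lit 10) nil (node (nat_lit 8) (nat_lit 66065) (nat_lit 10) (node (nat_lit
  6) (nat_lit 66337) (nat_lit 11) nil nil) nil)) nil) nil) nil)) (node (nat_lit 4) (nat_lit 87210)
  (nat_lit 6) (node (nat_lit 5) (nat_lit 88287) (nat_lit 7) nil nil) nil)) (node (nat_lit 0)
  (nat_lit 84997) (nat_lit 5) nil (node (nat_lit 2) (nat_lit 83021) (nat_lit 5) nil nil)))) (node
  (nat_lit 3) (nat_lit 0) (nat_lit 4) (node (nat_lit 5) (nat_lit 87781) (nat_lit 5) (node (nat_lit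
  7) (nat_lit 87781) (nat_lit 6) (node (nat_lit 6) (nat_lit 88187) (nat_lit 7) (node (nat_lit 7)
  (nat_lit 88187) (nat_lit 8) (node (nat_lit 4) (nat_lit 88187) (nat_lit 9) nil nil) nil) (node
  (nat_lit 4) (nat_lit 87781) (nat_lit 7) (node (nat_lit 5) (nat_lit 88303) (nat_lit 8) (node
  (nat_lit 6) (nat_lit 88376) (nat_lit 9) (node (nat_lit 7) (nat_lit 88376) (nat_lit 10) nil nil)
  nil) nil) nil)) (node (nat_lit 4) (nat_lit 87781) (nat_lit 6) nil (node (nat_lit 6) (nat_lit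
  88020) (nat_lit 6) nil nil))) (node (nat_lit 4) (nat_lit 83076) (nat_lit 5) (node (nat_lit 5)
  (nat_lit 84921) (nat_lit 6) (node (nat_lit 6) (nat_lit 54113) (nat_lit 7) nil nil) (node
  (nat_lit 6) (nat_lit 84921) (nat_lit 6) nil nil)) (node (nat_lit 6) (nat_lit 84369) (nat_lit 5)
  (node (nat_lit 4) (nat_lit 85052) (nat_lit 6) (node (nat_lit 5) (nat_lit 80074) (nat_lit 7)
  (node (nat_lit 6) (nat_lit 49876) (nat_lit 8) (node (nat_lit 7) (nat_lit 22839) (nat_lit 9) nil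
  nil) nil) nil) nil) (node (nat_lit 0) (nat_lit 85126) (nat_lit 5) nil (node (nat_lit 2) (nat_lit
  80689) (nat_lit 5) nil nil))))) (node (nat_lit 0) (nat_lit 82407) (nat_lit 4) (node (nat_lit 5)
  (nat_lit 88126) (nat_lit 5) nil (node (nat_lit 6) (nat_lit 88029) (nat_lit 5) nil (node (nat_lit
  4) (nat_lit 83880) (nat_lit 5) nil (node (nat_lit 3) (nat_lit 85846) (nat_lit 5) nil nil))))
  (node (nat_lit 2) (nat_lit 78636) (nat_lit 4) (node (nat_lit 5) (nat_lit 86631) (nat_lit 5) nil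
  (node (nat_lit 6) (nat_lit 85363) (nat_lit 5) (node (nat_lit 4) (nat_lit 85363) (nat_lit 6)
  (node (nat_lit 5) (nat_lit 76011) (nat_lit 7) (node (nat_lit 6) (nat_lit 46055) (nat_lit 8) nil
  nil) nil) nil) (node (nat_lit 4) (nat_lit 82843) (nat_lit 5) (node (nat_lit 6) (nat_lit 84417)
  (nat_lit 6) nil nil) (node (nat_lit 3) (nat_lit 82628) (nat_lit 5) (node (nat_lit 4) (nat_lit
  72087) (nat_lit 6) (node (nat_lit 5) (nat_lit 53708) (nat_lit 7) (node (nat_lit 6) (nat_lit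
  51272) (nat_lit 8) nil nil) nil) nil) nil)))) nil))))) t1) (node (nat_lit 1) (nat_lit 0)
  (nat_lit 2) t7 (node (nat_lit 3) (nat_lit 0) (nat_lit 2) (node (nat_lit 4) (nat_lit 0) (nat_lit
  3) (node (nat_lit 0) (nat_lit 0) (nat_lit 4) (node (nat_lit 5) (nat_lit 0) (nat_lit 5) (node
  (nat_lit 4) (nat_lit 41937) (nat_lit 6) (node (nat_lit 5) (nat_lit 42909) (nat_lit 7) (node
  (nat_lit 7) (nat_lit 43549) (nat_lit 8) nil (node (nat_lit 1) (nat_lit 40023) (nat_lit 8) nil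
  nil)) (node (nat_lit 1) (nat_lit 37750) (nat_lit 7) nil (node (nat_lit 0) (nat_lit 42909)
  (nat_lit 7) nil (node (nat_lit 2) (nat_lit 40080) (nat_lit 7) nil nil)))) (node (nat_lit 7)
  (nat_lit 41937) (nat_lit 6) (node (nat_lit 4) (nat_lit 42909) (nat_lit 7) (node (nat_lit 7)
  (nat_lit 43549) (nat_lit 8) nil (node (nat_lit 5) (nat_lit 41427) (nat_lit 8) nil nil)) (node
  (nat_lit 1) (nat_lit 42909) (nat_lit 7) (node (nat_lit 4) (nat_lit 43549) (nat_lit 8) nil nil)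
  nil)) (node (nat_lit 1) (nat_lit 41937) (nat_lit 6) (node (nat_lit 4) (nat_lit 42909) (nat_lit
  7) (node (nat_lit 5) (nat_lit 37651) (nat_lit 8) (node (nat_lit 4) (nat_lit 26260) (nat_lit 9)
  nil nil) nil) (node (nat_lit 5) (nat_lit 42909) (nat_lit 7) nil nil)) (node (nat_lit 0) (nat_lit
  41937) (nat_lit 6) (node (nat_lit 4) (nat_lit 40080) (nat_lit 7) nil nil) (node (nat_lit 2)
  (nat_lit 41937) (nat_lit 6) (node (nat_lit 7) (nat_lit 42909) (nat_lit 7) nil (node (nat_lit 4)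
  (nat_lit 40080) (nat_lit 7) nil nil)) nil))))) (node (nat_lit 4) (nat_lit 0) (nat_lit 5) (node
  (nat_lit 5) (nat_lit 41937) (nat_lit 6) (node (nat_lit 7) (nat_lit 42909) (nat_lit 7) nil (node
  (nat_lit 1) (nat_lit 42909) (nat_lit 7) nil (node (nat_lit 0) (nat_lit 42909) (nat_lit 7) nil
  (node (nat_lit 2) (nat_lit 40080) (nat_lit 7) nil nil)))) (node (nat_lit 1) (nat_lit 41937)
  (nat_lit 6) (node (nat_lit 4) (nat_lit 41821) (nat_lit 7) (node (nat_lit 5) (nat_lit 36225)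
  (nat_lit 8) (node (nat_lit 4) (nat_lit 24528) (nat_lit 9) (node (nat_lit 9) (nat_lit 24553)
  (nat_lit 10) nil nil) nil) nil) (node (nat_lit 0) (nat_lit 42909) (nat_lit 7) nil (node (nat_lit
  2) (nat_lit 40080) (nat_lit 7) nil nil))) (node (nat_lit 0) (nat_lit 41937) (nat_lit 6) nil
  (node (nat_lit 2) (nat_lit 41937) (nat_lit 6) (node (nat_lit 4) (nat_lit 42909) (nat_lit 7) nil
  (node (nat_lit 1) (nat_lit 37750) (nat_lit 7) nil nil)) nil)))) (node (nat_lit 1) (nat_lit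
  40432) (nat_lit 5) (node (nat_lit 4) (nat_lit 41937) (nat_lit 6) (node (nat_lit 5) (nat_lit
  42909) (nat_lit 7) (node (nat_lit 4) (nat_lit 41427) (nat_lit 8) nil nil) (node (nat_lit 7)
  (nat_lit 42909) (nat_lit 7) nil (node (nat_lit 0) (nat_lit 42909) (nat_lit 7) nil (node (nat_lit
  2) (nat_lit 40080) (nat_lit 7) nil nil)))) (node (nat_lit 5) (nat_lit 41937) (nat_lit 6) (node
  (nat_lit 7) (nat_lit 42909) (nat_lit 7) nil (node (nat_lit 8) (nat_lit 42909) (nat_lit 7) nil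
  (node (nat_lit 0) (nat_lit 42909) (nat_lit 7) nil (node (nat_lit 2) (nat_lit 40080) (nat_lit 7)
  (node (nat_lit 4) (nat_lit 38597) (nat_lit 8) nil nil) nil)))) (node (nat_lit 7) (nat_lit 41937)
  (nat_lit 6) (node (nat_lit 4) (nat_lit 40080) (nat_lit 7) (node (nat_lit 8) (nat_lit 40023)
  (nat_lit 8) nil nil) (node (nat_lit 5) (nat_lit 42909) (nat_lit 7) nil nil)) (node (nat_lit 0)
  (nat_lit 41937) (nat_lit 6) nil (node (nat_lit 2) (nat_lit 41937) (nat_lit 6) (node (nat_lit 4)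
  (nat_lit 40080) (nat_lit 7) nil nil) nil))))) (node (nat_lit 0) (nat_lit 40432) (nat_lit 5)
  (node (nat_lit 4) (nat_lit 41937) (nat_lit 6) (node (nat_lit 5) (nat_lit 40080) (nat_lit 7) nil
  (node (nat_lit 7) (nat_lit 42909) (nat_lit 7) nil nil)) (node (nat_lit 5) (nat_lit 41937)
  (nat_lit 6) nil (node (nat_lit 7) (nat_lit 41937) (nat_lit 6) (node (nat_lit 4) (nat_lit 40080)
  (nat_lit 7) nil nil) (node (nat_lit 1) (nat_lit 41937) (nat_lit 6) (node (nat_lit 4) (nat_lit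
  42909) (nat_lit 7) nil nil) (node (nat_lit 0) (nat_lit 41937) (nat_lit 6) nil (node (nat_lit 2)
  (nat_lit 41937) (nat_lit 6) nil nil)))))) (node (nat_lit 2) (nat_lit 40432) (nat_lit 5) (node
  (nat_lit 4) (nat_lit 41937) (nat_lit 6) (node (nat_lit 5) (nat_lit 40080) (nat_lit 7) nil (node
  (nat_lit 8) (nat_lit 40080) (nat_lit 7) nil (node (nat_lit 7) (nat_lit 42909) (nat_lit 7) (node
  (nat_lit 5) (nat_lit 41427) (nat_lit 8) nil nil) (node (nat_lit 1) (nat_lit 37750) (nat_lit 7)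
  nil nil)))) (node (nat_lit 5) (nat_lit 41937) (nat_lit 6) (node (nat_lit 7) (nat_lit 42909)
  (nat_lit 7) nil (node (nat_lit 8) (nat_lit 42909) (nat_lit 7) nil nil)) (node (nat_lit 7)
  (nat_lit 41937) (nat_lit 6) (node (nat_lit 4) (nat_lit 42909) (nat_lit 7) (node (nat_lit 8)
  (nat_lit 41427) (nat_lit 8) nil (node (nat_lit 7) (nat_lit 43549) (nat_lit 8) nil nil)) (node
  (nat_lit 5) (nat_lit 42909) (nat_lit 7) (node (nat_lit 8) (nat_lit 43549) (nat_lit 8) nil nil)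
  nil)) (node (nat_lit 1) (nat_lit 41937) (nat_lit 6) (node (nat_lit 4) (nat_lit 42909) (nat_lit
  7) (node (nat_lit 5) (nat_lit 25035) (nat_lit 8) nil nil) nil) (node (nat_lit 0) (nat_lit 41937)
  (nat_lit 6) (node (nat_lit 4) (nat_lit 40080) (nat_lit 7) nil (node (nat_lit 8) (nat_lit 40080)
  (nat_lit 7) nil nil)) nil))))) nil))))) t8) t12) (node (nat_lit 2) (nat_lit 0) (nat_lit 2) t20
  nil))))

noncomputable def t22 : Tr :=
  (node (nat_lit 1) (nat_lit 0) (nat_lit 3) (node (nat_lit 4) (nat_lit 0) (nat_lit 4) (node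
  (nat_lit 5) (nat_lit 0) (nat_lit 5) (node (nat_lit 4) (nat_lit 72372) (nat_lit 6) (node (nat_lit
  6) (nat_lit 74714) (nat_lit 7) (node (nat_lit 4) (nat_lit 75416) (nat_lit 8) (node (nat_lit 5)
  (nat_lit 74123) (nat_lit 9) (node (nat_lit 6) (nat_lit 74492) (nat_lit 10) (node (nat_lit 5)
  (nat_lit 73649) (nat_lit 11) (node (nat_lit 4) (nat_lit 73942) (nat_lit 12) (node (nat_lit 5)
  (nat_lit 73455) (nat_lit 13) (node (nat_lit 6) (nat_lit 73641) (nat_lit 14) (node (nat_lit 4)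
  (nat_lit 73778) (nat_lit 15) (node (nat_lit 5) (nat_lit 73554) (nat_lit 16) (node (nat_lit 4)
  (nat_lit 73631) (nat_lit 17) (node (nat_lit 6) (nat_lit 73692) (nat_lit 18) (node (nat_lit 4)
  (nat_lit 73740) (nat_lit 19) (node (nat_lit 5) (nat_lit 73656) (nat_lit 20) (node (nat_lit 6)
  (nat_lit 36737) (nat_lit 21) nil nil) nil) nil) nil) nil) nil) nil) nil) nil) nil) nil) nil)
  nil) (node (nat_lit 5) (nat_lit 73139) (nat_lit 8) (node (nat_lit 4) (nat_lit 73624) (nat_lit 9)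
  (node (nat_lit 5) (nat_lit 72561) (nat_lit 10) (node (nat_lit 6) (nat_lit 72886) (nat_lit 11)
  (node (nat_lit 4) (nat_lit 73180) (nat_lit 12) (node (nat_lit 5) (nat_lit 72692) (nat_lit 13)
  (node (nat_lit 4) (nat_lit 72878) (nat_lit 14) (node (nat_lit 6) (nat_lit 36737) (nat_lit 15)
  nil nil) nil) nil) nil) nil) nil) nil) nil)) nil) (node (nat_lit 3) (nat_lit 71076) (nat_lit 6)
  (node (nat_lit 4) (nat_lit 69186) (nat_lit 7) (node (nat_lit 6) (nat_lit 70140) (nat_lit 8) nil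
  (node (nat_lit 5) (nat_lit 55616) (nat_lit 8) (node (nat_lit 6) (nat_lit 37943) (nat_lit 9)
  (node (nat_lit 4) (nat_lit 36072) (nat_lit 10) nil nil) nil) nil)) (node (nat_lit 6) (nat_lit
  73088) (nat_lit 7) (node (nat_lit 5) (nat_lit 71871) (nat_lit 8) (node (nat_lit 4) (nat_lit
  72240) (nat_lit 9) (node (nat_lit 5) (nat_lit 71431) (nat_lit 10) (node (nat_lit 6) (nat_lit
  71678) (nat_lit 11) nil nil) nil) nil) nil) nil)) (node (nat_lit 0) (nat_lit 73717) (nat_lit 6)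
  nil (node (nat_lit 2) (nat_lit 66838) (nat_lit 6) nil nil)))) (node (nat_lit 6) (nat_lit 102331)
  (nat_lit 5) (node (nat_lit 5) (nat_lit 106826) (nat_lit 6) (node (nat_lit 4) (nat_lit 108824)
  (nat_lit 7) (node (nat_lit 5) (nat_lit 110248) (nat_lit 8) (node (nat_lit 6) (nat_lit 111315)
  (nat_lit 9) (node (nat_lit 4) (nat_lit 112148) (nat_lit 10) (node (nat_lit 6) (nat_lit 76726)
  (nat_lit 11) nil nil) nil) nil) nil) nil) (node (nat_lit 3) (nat_lit 106459) (nat_lit 6) nil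
  nil)) (node (nat_lit 3) (nat_lit 106799) (nat_lit 5) (node (nat_lit 6) (nat_lit 108377) (nat_lit
  6) nil (node (nat_lit 5) (nat_lit 109386) (nat_lit 6) nil (node (nat_lit 4) (nat_lit 109598)
  (nat_lit 6) (node (nat_lit 6) (nat_lit 110606) (nat_lit 7) nil (node (nat_lit 5) (nat_lit
  110606) (nat_lit 7) (node (nat_lit 6) (nat_lit 111269) (nat_lit 8) nil nil) nil)) nil))) (node
  (nat_lit 0) (nat_lit 108442) (nat_lit 5) nil (node (nat_lit 2) (nat_lit 106259) (nat_lit 5)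
  (node (nat_lit 3) (nat_lit 100740) (nat_lit 6) nil nil) nil))))) (node (nat_lit 3) (nat_lit
  119803) (nat_lit 4) (node (nat_lit 5) (nat_lit 127467) (nat_lit 5) (node (nat_lit 7) (nat_lit
  125123) (nat_lit 6) nil (node (nat_lit 4) (nat_lit 127969) (nat_lit 6) (node (nat_lit 7)
  (nat_lit 129356) (nat_lit 7) nil (node (nat_lit 5) (nat_lit 117164) (nat_lit 7) (node (nat_lit
  6) (nat_lit 96368) (nat_lit 8) (node (nat_lit 7) (nat_lit 92847) (nat_lit 9) (node (nat_lit 4)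
  (nat_lit 93393) (nat_lit 10) nil nil) nil) nil) nil)) nil)) (node (nat_lit 4) (nat_lit 130507)
  (nat_lit 5) (node (nat_lit 5) (nat_lit 132693) (nat_lit 6) nil nil) (node (nat_lit 6) (nat_lit
  123148) (nat_lit 5) (node (nat_lit 5) (nat_lit 124014) (nat_lit 6) (node (nat_lit 7) (nat_lit
  124946) (nat_lit 7) (node (nat_lit 6) (nat_lit 122853) (nat_lit 8) (node (nat_lit 7) (nat_lit
  123572) (nat_lit 9) nil nil) nil) nil) (node (nat_lit 4) (nat_lit 128449) (nat_lit 6) (node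
  (nat_lit 5) (nat_lit 122968) (nat_lit 7) (node (nat_lit 6) (nat_lit 103619) (nat_lit 8) (node
  (nat_lit 7) (nat_lit 71228) (nat_lit 9) (node (nat_lit 5) (nat_lit 70166) (nat_lit 10) (node
  (nat_lit 4) (nat_lit 70491) (nat_lit 11) (node (nat_lit 5) (nat_lit 69847) (nat_lit 12) nil nil)
  nil) (node (nat_lit 4) (nat_lit 71597) (nat_lit 10) nil nil)) nil) nil) nil) nil)) nil))) (node
  (nat_lit 5) (nat_lit 0) (nat_lit 4) (node (nat_lit 4) (nat_lit 115466) (nat_lit 5) (node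
  (nat_lit 5) (nat_lit 119197) (nat_lit 6) (node (nat_lit 6) (nat_lit 91257) (nat_lit 7) nil nil)
  (node (nat_lit 3) (nat_lit 128648) (nat_lit 6) nil nil)) (node (nat_lit 3) (nat_lit 126016)
  (nat_lit 5) (node (nat_lit 5) (nat_lit 124734) (nat_lit 6) nil nil) (node (nat_lit 0) (nat_lit
  127350) (nat_lit 5) nil (node (nat_lit 2) (nat_lit 123436) (nat_lit 5) nil nil)))) (node
  (nat_lit 0) (nat_lit 122659) (nat_lit 4) (node (nat_lit 5) (nat_lit 126325) (nat_lit 5) (node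
  (nat_lit 6) (nat_lit 127860) (nat_lit 6) nil nil) (node (nat_lit 6) (nat_lit 130111) (nat_lit 5)
  nil nil)) (node (nat_lit 2) (nat_lit 117937) (nat_lit 4) (node (nat_lit 5) (nat_lit 125181)
  (nat_lit 5) (node (nat_lit 7) (nat_lit 123990) (nat_lit 6) nil (node (nat_lit 3) (nat_lit
  120267) (nat_lit 6) nil (node (nat_lit 4) (nat_lit 124461) (nat_lit 6) (node (nat_lit 5)
  (nat_lit 115197) (nat_lit 7) (node (nat_lit 6) (nat_lit 95183) (nat_lit 8) (node (nat_lit 7)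
  (nat_lit 91318) (nat_lit 9) nil nil) nil) nil) nil))) (node (nat_lit 6) (nat_lit 120494)
  (nat_lit 5) nil (node (nat_lit 4) (nat_lit 128949) (nat_lit 5) nil (node (nat_lit 3) (nat_lit
  120401) (nat_lit 5) (node (nat_lit 6) (nat_lit 121887) (nat_lit 6) nil (node (nat_lit 4)
  (nat_lit 116277) (nat_lit 6) nil nil)) nil)))) nil))))) (node (nat_lit 3) (nat_lit 0) (nat_lit
  3) (node (nat_lit 4) (nat_lit 0) (nat_lit 4) (node (nat_lit 5) (nat_lit 83599) (nat_lit 5) (node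
  (nat_lit 4) (nat_lit 86025) (nat_lit 6) nil nil) (node (nat_lit 6) (nat_lit 0) (nat_lit 5) (node
  (nat_lit 5) (nat_lit 96093) (nat_lit 6) (node (nat_lit 4) (nat_lit 102907) (nat_lit 7) (node
  (nat_lit 5) (nat_lit 106627) (nat_lit 8) (node (nat_lit 6) (nat_lit 100685) (nat_lit 9) (node
  (nat_lit 4) (nat_lit 81539) (nat_lit 10) (node (nat_lit 6) (nat_lit 72355) (nat_lit 11) nil nil)
  nil) nil) nil) nil) (node (nat_lit 1) (nat_lit 105029) (nat_lit 6) nil (node (nat_lit 0)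
  (nat_lit 105029) (nat_lit 6) nil (node (nat_lit 2) (nat_lit 100318) (nat_lit 6) nil nil))))
  (node (nat_lit 1) (nat_lit 105142) (nat_lit 5) (node (nat_lit 5) (nat_lit 107195) (nat_lit 6)
  (node (nat_lit 4) (nat_lit 108202) (nat_lit 7) (node (nat_lit 5) (nat_lit 108866) (nat_lit 8)
  (node (nat_lit 6) (nat_lit 108266) (nat_lit 9) (node (nat_lit 4) (nat_lit 108812) (nat_lit 10)
  nil nil) nil) nil) nil) (node (nat_lit 4) (nat_lit 106719) (nat_lit 6) (node (nat_lit 5)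
  (nat_lit 107966) (nat_lit 7) (node (nat_lit 6) (nat_lit 108629) (nat_lit 8) nil nil) nil) nil))
  (node (nat_lit 0) (nat_lit 105142) (nat_lit 5) nil (node (nat_lit 2) (nat_lit 100842) (nat_lit
  5) (node (nat_lit 6) (nat_lit 102439) (nat_lit 6) nil (node (nat_lit 5) (nat_lit 107197)
  (nat_lit 6) nil nil)) nil))))) (node (nat_lit 1) (nat_lit 0) (nat_lit 4) (node (nat_lit 5)
  (nat_lit 118470) (nat_lit 5) (node (nat_lit 7) (nat_lit 122385) (nat_lit 6) (node (nat_lit 6)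
  (nat_lit 121692) (nat_lit 7) nil nil) (node (nat_lit 4) (nat_lit 124583) (nat_lit 6) (node
  (nat_lit 5) (nat_lit 124810) (nat_lit 7) (node (nat_lit 6) (nat_lit 126465) (nat_lit 8) (node
  (nat_lit 7) (nat_lit 87876) (nat_lit 9) nil nil) nil) nil) nil)) (node (nat_lit 4) (nat_lit
  106650) (nat_lit 5) (node (nat_lit 5) (nat_lit 101558) (nat_lit 6) (node (nat_lit 6) (nat_lit
  67265) (nat_lit 7) nil nil) (node (nat_lit 6) (nat_lit 110468) (nat_lit 6) (node (nat_lit 4)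
  (nat_lit 112995) (nat_lit 7) nil nil) nil)) (node (nat_lit 6) (nat_lit 118867) (nat_lit 5) (node
  (nat_lit 5) (nat_lit 122950) (nat_lit 6) nil (node (nat_lit 4) (nat_lit 125559) (nat_lit 6)
  (node (nat_lit 5) (nat_lit 124866) (nat_lit 7) (node (nat_lit 6) (nat_lit 124091) (nat_lit 8)
  nil nil) nil) nil)) (node (nat_lit 0) (nat_lit 121005) (nat_lit 5) nil (node (nat_lit 2)
  (nat_lit 121005) (nat_lit 5) (node (nat_lit 5) (nat_lit 117090) (nat_lit 6) nil nil) nil)))))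
  (node (nat_lit 5) (nat_lit 0) (nat_lit 4) (node (nat_lit 4) (nat_lit 101302) (nat_lit 5) (node
  (nat_lit 5) (nat_lit 81359) (nat_lit 6) (node (nat_lit 6) (nat_lit 85798) (nat_lit 7) nil (node
  (nat_lit 1) (nat_lit 89783) (nat_lit 7) nil nil)) (node (nat_lit 6) (nat_lit 110786) (nat_lit 6)
  (node (nat_lit 4) (nat_lit 116710) (nat_lit 7) (node (nat_lit 5) (nat_lit 119987) (nat_lit 8)
  (node (nat_lit 6) (nat_lit 122956) (nat_lit 9) (node (nat_lit 5) (nat_lit 122153) (nat_lit 10)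
  (node (nat_lit 4) (nat_lit 89385) (nat_lit 11) nil nil) nil) nil) nil) nil) (node (nat_lit 1)
  (nat_lit 118408) (nat_lit 6) nil nil))) (node (nat_lit 1) (nat_lit 118020) (nat_lit 5) (node
  (nat_lit 6) (nat_lit 125103) (nat_lit 6) nil (node (nat_lit 5) (nat_lit 124775) (nat_lit 6) nil
  (node (nat_lit 4) (nat_lit 125461) (nat_lit 6) (node (nat_lit 5) (nat_lit 117278) (nat_lit 7)
  (node (nat_lit 6) (nat_lit 102913) (nat_lit 8) (node (nat_lit 5) (nat_lit 66850) (nat_lit 9) nil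
  nil) nil) nil) nil))) (node (nat_lit 0) (nat_lit 118020) (nat_lit 5) nil (node (nat_lit 2)
  (nat_lit 113044) (nat_lit 5) (node (nat_lit 6) (nat_lit 113165) (nat_lit 6) nil nil) nil))))
  (node (nat_lit 0) (nat_lit 117187) (nat_lit 4) (node (nat_lit 5) (nat_lit 123433) (nat_lit 5)
  (node (nat_lit 4) (nat_lit 125641) (nat_lit 6) (node (nat_lit 5) (nat_lit 126648) (nat_lit 7)
  (node (nat_lit 6) (nat_lit 126377) (nat_lit 8) (node (nat_lit 7) (nat_lit 90048) (nat_lit 9) nil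
  nil) nil) nil) nil) (node (nat_lit 6) (nat_lit 123433) (nat_lit 5) (node (nat_lit 4) (nat_lit
  125791) (nat_lit 6) (node (nat_lit 5) (nat_lit 126798) (nat_lit 7) nil nil) nil) (node (nat_lit
  1) (nat_lit 122986) (nat_lit 5) nil nil))) (node (nat_lit 2) (nat_lit 110148) (nat_lit 4) (node
  (nat_lit 5) (nat_lit 113121) (nat_lit 5) (node (nat_lit 4) (nat_lit 124354) (nat_lit 6) (node
  (nat_lit 5) (nat_lit 108953) (nat_lit 7) (node (nat_lit 6) (nat_lit 91891) (nat_lit 8) (node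
  (nat_lit 7) (nat_lit 86946) (nat_lit 9) nil nil) nil) nil) nil) (node (nat_lit 6) (nat_lit
  112506) (nat_lit 5) (node (nat_lit 5) (nat_lit 113167) (nat_lit 6) nil (node (nat_lit 4)
  (nat_lit 120093) (nat_lit 6) (node (nat_lit 5) (nat_lit 116937) (nat_lit 7) (node (nat_lit 6)
  (nat_lit 91327) (nat_lit 8) (node (nat_lit 7) (nat_lit 88572) (nat_lit 9) nil nil) nil) nil)
  (node (nat_lit 1) (nat_lit 119594) (nat_lit 6) nil nil))) (node (nat_lit 4) (nat_lit 122817)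
  (nat_lit 5) nil (node (nat_lit 1) (nat_lit 118863) (nat_lit 5) nil nil)))) nil))))) (node
  (nat_lit 4) (nat_lit 0) (nat_lit 3) (node (nat_lit 1) (nat_lit 0) (nat_lit 4) (node (nat_lit 4)
  (nat_lit 80119) (nat_lit 5) (node (nat_lit 5) (nat_lit 83459) (nat_lit 6) (node (nat_lit 4)
  (nat_lit 38755) (nat_lit 7) nil nil) (node (nat_lit 3) (nat_lit 95182) (nat_lit 6) nil nil))
  (node (nat_lit 5) (nat_lit 80119) (nat_lit 5) (node (nat_lit 7) (nat_lit 83478) (nat_lit 6)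
  (node (nat_lit 4) (nat_lit 93317) (nat_lit 7) (node (nat_lit 5) (nat_lit 91309) (nat_lit 8)
  (node (nat_lit 4) (nat_lit 90165) (nat_lit 9) (node (nat_lit 7) (nat_lit 72964) (nat_lit 10)
  (node (nat_lit 5) (nat_lit 37684) (nat_lit 11) nil nil) nil) nil) nil) nil) (node (nat_lit 4)
  (nat_lit 83490) (nat_lit 6) (node (nat_lit 5) (nat_lit 93632) (nat_lit 7) nil nil) (node
  (nat_lit 3) (nat_lit 87149) (nat_lit 6) nil nil))) (node (nat_lit 3) (nat_lit 95566) (nat_lit 5)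
  nil (node (nat_lit 0) (nat_lit 95345) (nat_lit 5) nil (node (nat_lit 2) (nat_lit 94451) (nat_lit
  5) nil nil))))) (node (nat_lit 3) (nat_lit 0) (nat_lit 4) (node (nat_lit 4) (nat_lit 81076)
  (nat_lit 5) (node (nat_lit 5) (nat_lit 84844) (nat_lit 6) (node (nat_lit 4) (nat_lit 53533)
  (nat_lit 7) nil nil) nil) (node (nat_lit 5) (nat_lit 81098) (nat_lit 5) (node (nat_lit 7)
  (nat_lit 84850) (nat_lit 6) (node (nat_lit 4) (nat_lit 90802) (nat_lit 7) (node (nat_lit 5)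
  (nat_lit 88457) (nat_lit 8) (node (nat_lit 4) (nat_lit 86718) (nat_lit 9) (node (nat_lit 7)
  (nat_lit 67946) (nat_lit 10) (node (nat_lit 5) (nat_lit 51186) (nat_lit 11) nil nil) nil) nil)
  nil) nil) (node (nat_lit 4) (nat_lit 84858) (nat_lit 6) nil (node (nat_lit 1) (nat_lit 95122)
  (nat_lit 6) nil nil))) (node (nat_lit 1) (nat_lit 94519) (nat_lit 5) (node (nat_lit 4) (nat_lit
  95196) (nat_lit 6) (node (nat_lit 5) (nat_lit 85225) (nat_lit 7) (node (nat_lit 4) (nat_lit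
  54550) (nat_lit 8) (node (nat_lit 7) (nat_lit 40084) (nat_lit 9) nil nil) nil) nil) nil) (node
  (nat_lit 0) (nat_lit 93995) (nat_lit 5) nil (node (nat_lit 2) (nat_lit 94325) (nat_lit 5) nil
  nil))))) (node (nat_lit 0) (nat_lit 87146) (nat_lit 4) (node (nat_lit 3) (nat_lit 92756)
  (nat_lit 5) nil (node (nat_lit 1) (nat_lit 95320) (nat_lit 5) nil nil)) (node (nat_lit 2)
  (nat_lit 0) (nat_lit 4) (node (nat_lit 5) (nat_lit 84942) (nat_lit 5) nil (node (nat_lit 4)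
  (nat_lit 84930) (nat_lit 5) nil (node (nat_lit 0) (nat_lit 94401) (nat_lit 5) nil (node (nat_lit
  1) (nat_lit 94401) (nat_lit 5) (node (nat_lit 4) (nat_lit 95162) (nat_lit 6) (node (nat_lit 5)
  (nat_lit 84600) (nat_lit 7) (node (nat_lit 4) (nat_lit 52102) (nat_lit 8) (node (nat_lit 7)
  (nat_lit 35981) (nat_lit 9) nil nil) nil) nil) (node (nat_lit 7) (nat_lit 95908) (nat_lit 6) nil
  nil)) (node (nat_lit 3) (nat_lit 91718) (nat_lit 5) (node (nat_lit 4) (nat_lit 87082) (nat_lit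
  6) (node (nat_lit 5) (nat_lit 81981) (nat_lit 7) (node (nat_lit 4) (nat_lit 54477) (nat_lit 8)
  (node (nat_lit 7) (nat_lit 53554) (nat_lit 9) nil nil) nil) nil) nil) nil))))) nil)))) (node
  (nat_lit 0) (nat_lit 0) (nat_lit 3) (node (nat_lit 5) (nat_lit 125225) (nat_lit 4) (node
  (nat_lit 4) (nat_lit 132121) (nat_lit 5) (node (nat_lit 5) (nat_lit 129803) (nat_lit 6) (node
  (nat_lit 6) (nat_lit 94480) (nat_lit 7) nil nil) nil) nil) (node (nat_lit 4) (nat_lit 125247)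
  (nat_lit 4) (node (nat_lit 6) (nat_lit 133663) (nat_lit 5) (node (nat_lit 5) (nat_lit 129741)
  (nat_lit 6) (node (nat_lit 4) (nat_lit 131353) (nat_lit 7) (node (nat_lit 5) (nat_lit 128918)
  (nat_lit 8) (node (nat_lit 6) (nat_lit 129656) (nat_lit 9) (node (nat_lit 4) (nat_lit 130217)
  (nat_lit 10) (node (nat_lit 6) (nat_lit 93777) (nat_lit 11) nil nil) nil) nil) nil) nil) nil)
  (node (nat_lit 5) (nat_lit 132243) (nat_lit 5) nil nil)) (node (nat_lit 0) (nat_lit 130094)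
  (nat_lit 4) nil (node (nat_lit 1) (nat_lit 129650) (nat_lit 4) (node (nat_lit 5) (nat_lit
  129793) (nat_lit 5) (node (nat_lit 4) (nat_lit 131879) (nat_lit 6) (node (nat_lit 5) (nat_lit
  128969) (nat_lit 7) (node (nat_lit 6) (nat_lit 129907) (nat_lit 8) (node (nat_lit 7) (nat_lit
  93711) (nat_lit 9) nil nil) nil) nil) nil) (node (nat_lit 4) (nat_lit 133804) (nat_lit 5) (node
  (nat_lit 5) (nat_lit 131708) (nat_lit 6) (node (nat_lit 6) (nat_lit 68304) (nat_lit 7) nil nil)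
  nil) nil)) (node (nat_lit 3) (nat_lit 130127) (nat_lit 4) (node (nat_lit 5) (nat_lit 127635)
  (nat_lit 5) (node (nat_lit 4) (nat_lit 125590) (nat_lit 6) (node (nat_lit 5) (nat_lit 115847)
  (nat_lit 7) (node (nat_lit 6) (nat_lit 96025) (nat_lit 8) (node (nat_lit 7) (nat_lit 92571)
  (nat_lit 9) nil nil) nil) nil) nil) (node (nat_lit 4) (nat_lit 134513) (nat_lit 5) (node
  (nat_lit 5) (nat_lit 133595) (nat_lit 6) nil nil) nil)) (node (nat_lit 2) (nat_lit 129538)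
  (nat_lit 4) (node (nat_lit 5) (nat_lit 124764) (nat_lit 5) nil nil) nil)))))) (node (nat_lit 2)
  (nat_lit 0) (nat_lit 3) (node (nat_lit 5) (nat_lit 0) (nat_lit 4) (node (nat_lit 4) (nat_lit
  107219) (nat_lit 5) (node (nat_lit 5) (nat_lit 96691) (nat_lit 6) (node (nat_lit 6) (nat_lit
  86799) (nat_lit 7) nil nil) nil) (node (nat_lit 3) (nat_lit 112774) (nat_lit 5) (node (nat_lit
  4) (nat_lit 120137) (nat_lit 6) nil nil) (node (nat_lit 1) (nat_lit 117924) (nat_lit 5) nil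
  (node (nat_lit 0) (nat_lit 117924) (nat_lit 5) nil nil)))) (node (nat_lit 4) (nat_lit 0)
  (nat_lit 4) (node (nat_lit 6) (nat_lit 108706) (nat_lit 5) (node (nat_lit 5) (nat_lit 112007)
  (nat_lit 6) (node (nat_lit 4) (nat_lit 118039) (nat_lit 7) (node (nat_lit 5) (nat_lit 120897)
  (nat_lit 8) (node (nat_lit 6) (nat_lit 122150) (nat_lit 9) (node (nat_lit 4) (nat_lit 101428)
  (nat_lit 10) (node (nat_lit 6) (nat_lit 94229) (nat_lit 11) nil nil) nil) nil) nil) nil) nil)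
  (node (nat_lit 0) (nat_lit 124832) (nat_lit 5) nil (node (nat_lit 5) (nat_lit 108731) (nat_lit
  5) (node (nat_lit 4) (nat_lit 111999) (nat_lit 6) (node (nat_lit 6) (nat_lit 120123) (nat_lit 7)
  nil nil) nil) (node (nat_lit 1) (nat_lit 124832) (nat_lit 5) nil (node (nat_lit 3) (nat_lit
  124814) (nat_lit 5) (node (nat_lit 4) (nat_lit 129581) (nat_lit 6) (node (nat_lit 5) (nat_lit
  131495) (nat_lit 7) (node (nat_lit 6) (nat_lit 128520) (nat_lit 8) (node (nat_lit 4) (nat_lit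
  93276) (nat_lit 9) nil nil) nil) nil) nil) nil))))) (node (nat_lit 0) (nat_lit 116659) (nat_lit
  4) (node (nat_lit 5) (nat_lit 124425) (nat_lit 5) nil (node (nat_lit 3) (nat_lit 124659)
  (nat_lit 5) nil (node (nat_lit 1) (nat_lit 125953) (nat_lit 5) nil nil))) (node (nat_lit 1)
  (nat_lit 110063) (nat_lit 4) (node (nat_lit 5) (nat_lit 124576) (nat_lit 5) (node (nat_lit 7)
  (nat_lit 128114) (nat_lit 6) (node (nat_lit 6) (nat_lit 124172) (nat_lit 7) (node (nat_lit 5)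
  (nat_lit 121022) (nat_lit 8) (node (nat_lit 6) (nat_lit 118437) (nat_lit 9) (node (nat_lit 7)
  (nat_lit 118675) (nat_lit 10) (node (nat_lit 5) (nat_lit 116988) (nat_lit 11) nil nil) nil) nil)
  nil) nil) (node (nat_lit 4) (nat_lit 128114) (nat_lit 6) (node (nat_lit 5) (nat_lit 124172)
  (nat_lit 7) (node (nat_lit 6) (nat_lit 121022) (nat_lit 8) (node (nat_lit 7) (nat_lit 84409)
  (nat_lit 9) nil nil) nil) nil) nil)) (node (nat_lit 6) (nat_lit 124699) (nat_lit 5) nil (node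
  (nat_lit 3) (nat_lit 124955) (nat_lit 5) (node (nat_lit 5) (nat_lit 122794) (nat_lit 6) nil nil)
  (node (nat_lit 4) (nat_lit 113766) (nat_lit 5) (node (nat_lit 5) (nat_lit 102925) (nat_lit 6)
  (node (nat_lit 6) (nat_lit 64301) (nat_lit 7) nil nil) nil) nil)))) (node (nat_lit 3) (nat_lit
  0) (nat_lit 4) (node (nat_lit 5) (nat_lit 113030) (nat_lit 5) (node (nat_lit 7) (nat_lit 113097)
  (nat_lit 6) nil (node (nat_lit 4) (nat_lit 118989) (nat_lit 6) (node (nat_lit 5) (nat_lit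
  107552) (nat_lit 7) (node (nat_lit 6) (nat_lit 88091) (nat_lit 8) (node (nat_lit 7) (nat_lit
  85539) (nat_lit 9) nil nil) nil) nil) nil)) (node (nat_lit 6) (nat_lit 112923) (nat_lit 5) (node
  (nat_lit 5) (nat_lit 113033) (nat_lit 6) nil nil) (node (nat_lit 1) (nat_lit 116564) (nat_lit 5)
  (node (nat_lit 5) (nat_lit 120972) (nat_lit 6) nil (node (nat_lit 4) (nat_lit 114271) (nat_lit
  6) nil nil)) (node (nat_lit 4) (nat_lit 107281) (nat_lit 5) (node (nat_lit 5) (nat_lit 96502)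
  (nat_lit 6) (node (nat_lit 6) (nat_lit 89195) (nat_lit 7) nil nil) nil) (node (nat_lit 0)
  (nat_lit 116564) (nat_lit 5) nil nil))))) nil))))) nil)))))

noncomputable def t23 : Tr :=
  (node (nat_lit 3) (nat_lit 0) (nat_lit 3) (node (nat_lit 4) (nat_lit 0) (nat_lit 4) (node
  (nat_lit 5) (nat_lit 81411) (nat_lit 5) (node (nat_lit 4) (nat_lit 83847) (nat_lit 6) (node
  (nat_lit 6) (nat_lit 83807) (nat_lit 7) (node (nat_lit 4) (nat_lit 85179) (nat_lit 8) (node
  (nat_lit 5) (nat_lit 86243) (nat_lit 9) (node (nat_lit 6) (nat_lit 84930) (nat_lit 10) (node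
  (nat_lit 5) (nat_lit 85119) (nat_lit 11) (node (nat_lit 4) (nat_lit 85404) (nat_lit 12) (node
  (nat_lit 5) (nat_lit 85338) (nat_lit 13) (node (nat_lit 6) (nat_lit 84339) (nat_lit 14) (node
  (nat_lit 4) (nat_lit 83149) (nat_lit 15) (node (nat_lit 5) (nat_lit 81492) (nat_lit 16) (node
  (nat_lit 4) (nat_lit 77855) (nat_lit 17) (node (nat_lit 6) (nat_lit 73196) (nat_lit 18) (node
  (nat_lit 4) (nat_lit 64766) (nat_lit 19) (node (nat_lit 5) (nat_lit 53644) (nat_lit 20) (node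
  (nat_lit 6) (nat_lit 37365) (nat_lit 21) nil nil) nil) nil) nil) nil) nil) nil) nil) nil) nil)
  nil) nil) nil) nil) nil) (node (nat_lit 3) (nat_lit 82589) (nat_lit 6) nil nil)) (node (nat_lit
  6) (nat_lit 0) (nat_lit 5) (node (nat_lit 5) (nat_lit 127727) (nat_lit 6) (node (nat_lit 4)
  (nat_lit 135825) (nat_lit 7) (node (nat_lit 6) (nat_lit 136593) (nat_lit 8) nil nil) nil) (node
  (nat_lit 3) (nat_lit 119668) (nat_lit 6) nil (node (nat_lit 0) (nat_lit 130464) (nat_lit 6) nil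
  (node (nat_lit 2) (nat_lit 121720) (nat_lit 6) nil nil)))) (node (nat_lit 3) (nat_lit 133697)
  (nat_lit 5) (node (nat_lit 6) (nat_lit 129682) (nat_lit 6) nil nil) (node (nat_lit 0) (nat_lit
  133916) (nat_lit 5) nil (node (nat_lit 2) (nat_lit 130251) (nat_lit 5) nil nil))))) (node
  (nat_lit 3) (nat_lit 119425) (nat_lit 4) (node (nat_lit 5) (nat_lit 132373) (nat_lit 5) (node
  (nat_lit 4) (nat_lit 131541) (nat_lit 6) (node (nat_lit 5) (nat_lit 117124) (nat_lit 7) (node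
  (nat_lit 6) (nat_lit 80801) (nat_lit 8) (node (nat_lit 7) (nat_lit 73259) (nat_lit 9) nil nil)
  nil) nil) nil) (node (nat_lit 4) (nat_lit 120682) (nat_lit 5) (node (nat_lit 5) (nat_lit 101979)
  (nat_lit 6) (node (nat_lit 6) (nat_lit 95854) (nat_lit 7) nil nil) (node (nat_lit 6) (nat_lit
  123259) (nat_lit 6) (node (nat_lit 4) (nat_lit 124827) (nat_lit 7) nil nil) nil)) (node (nat_lit
  6) (nat_lit 124327) (nat_lit 5) (node (nat_lit 5) (nat_lit 132517) (nat_lit 6) nil (node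
  (nat_lit 4) (nat_lit 130394) (nat_lit 6) (node (nat_lit 5) (nat_lit 121376) (nat_lit 7) (node
  (nat_lit 6) (nat_lit 95622) (nat_lit 8) (node (nat_lit 7) (nat_lit 88816) (nat_lit 9) nil nil)
  nil) nil) nil)) nil))) (node (nat_lit 5) (nat_lit 0) (nat_lit 4) (node (nat_lit 4) (nat_lit
  122588) (nat_lit 5) (node (nat_lit 5) (nat_lit 107256) (nat_lit 6) (node (nat_lit 6) (nat_lit
  78663) (nat_lit 7) (node (nat_lit 4) (nat_lit 79448) (nat_lit 8) (node (nat_lit 6) (nat_lit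
  79448) (nat_lit 9) (node (nat_lit 5) (nat_lit 79866) (nat_lit 10) (node (nat_lit 4) (nat_lit
  80008) (nat_lit 11) (node (nat_lit 6) (nat_lit 80008) (nat_lit 12) (node (nat_lit 4) (nat_lit
  80079) (nat_lit 13) (node (nat_lit 5) (nat_lit 80079) (nat_lit 14) (node (nat_lit 6) (nat_lit
  80079) (nat_lit 15) (node (nat_lit 5) (nat_lit 80079) (nat_lit 16) (node (nat_lit 4) (nat_lit
  80079) (nat_lit 17) (node (nat_lit 5) (nat_lit 80079) (nat_lit 18) (node (nat_lit 6) (nat_lit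
  80079) (nat_lit 19) (node (nat_lit 4) (nat_lit 80079) (nat_lit 20) (node (nat_lit 6) (nat_lit
  80079) (nat_lit 21) (node (nat_lit 5) (nat_lit 80079) (nat_lit 22) (node (nat_lit 4) (nat_lit
  37365) (nat_lit 23) nil nil) nil) nil) nil) nil) nil) nil) nil) nil) nil) nil) nil) nil) nil)
  nil) nil) nil) nil) (node (nat_lit 3) (nat_lit 133024) (nat_lit 5) (node (nat_lit 6) (nat_lit
  130809) (nat_lit 6) nil (node (nat_lit 5) (nat_lit 131749) (nat_lit 6) nil nil)) (node (nat_lit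
  0) (nat_lit 130859) (nat_lit 5) nil (node (nat_lit 2) (nat_lit 129578) (nat_lit 5) nil nil))))
  (node (nat_lit 0) (nat_lit 128214) (nat_lit 4) nil (node (nat_lit 2) (nat_lit 119520) (nat_lit
  4) (node (nat_lit 5) (nat_lit 131053) (nat_lit 5) nil (node (nat_lit 6) (nat_lit 123361)
  (nat_lit 5) (node (nat_lit 4) (nat_lit 124863) (nat_lit 6) (node (nat_lit 5) (nat_lit 117911)
  (nat_lit 7) (node (nat_lit 6) (nat_lit 93795) (nat_lit 8) (node (nat_lit 7) (nat_lit 87655)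
  (nat_lit 9) nil nil) nil) nil) nil) (node (nat_lit 3) (nat_lit 121691) (nat_lit 5) nil nil)))
  nil))))) (node (nat_lit 4) (nat_lit 0) (nat_lit 3) (node (nat_lit 3) (nat_lit 0) (nat_lit 4)
  (node (nat_lit 4) (nat_lit 74553) (nat_lit 5) (node (nat_lit 5) (nat_lit 78906) (nat_lit 6)
  (node (nat_lit 7) (nat_lit 80240) (nat_lit 7) (node (nat_lit 5) (nat_lit 81515) (nat_lit 8)
  (node (nat_lit 4) (nat_lit 81852) (nat_lit 9) (node (nat_lit 5) (nat_lit 82108) (nat_lit 10)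
  (node (nat_lit 7) (nat_lit 81505) (nat_lit 11) (node (nat_lit 4) (nat_lit 81709) (nat_lit 12)
  (node (nat_lit 5) (nat_lit 81875) (nat_lit 13) (node (nat_lit 4) (nat_lit 82004) (nat_lit 14)
  (node (nat_lit 7) (nat_lit 81798) (nat_lit 15) (node (nat_lit 4) (nat_lit 81870) (nat_lit 16)
  (node (nat_lit 5) (nat_lit 81924) (nat_lit 17) (node (nat_lit 7) (nat_lit 81826) (nat_lit 18)
  (node (nat_lit 5) (nat_lit 81858) (nat_lit 19) (node (nat_lit 4) (nat_lit 81884) (nat_lit 20)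
  nil nil) nil) nil) nil) nil) nil) nil) nil) nil) nil) nil) nil) nil) (node (nat_lit 4) (nat_lit
  39787) (nat_lit 7) nil nil)) (node (nat_lit 3) (nat_lit 76708) (nat_lit 6) nil nil)) (node
  (nat_lit 5) (nat_lit 76515) (nat_lit 5) (node (nat_lit 7) (nat_lit 78841) (nat_lit 6) (node
  (nat_lit 4) (nat_lit 80076) (nat_lit 7) (node (nat_lit 5) (nat_lit 80715) (nat_lit 8) (node
  (nat_lit 4) (nat_lit 81158) (nat_lit 9) (node (nat_lit 7) (nat_lit 80161) (nat_lit 10) (node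
  (nat_lit 5) (nat_lit 39286) (nat_lit 11) nil nil) nil) nil) nil) nil) (node (nat_lit 4) (nat_lit
  78906) (nat_lit 6) (node (nat_lit 5) (nat_lit 80707) (nat_lit 7) (node (nat_lit 7) (nat_lit
  80710) (nat_lit 8) (node (nat_lit 4) (nat_lit 81153) (nat_lit 9) (node (nat_lit 5) (nat_lit
  81490) (nat_lit 10) (node (nat_lit 4) (nat_lit 81786) (nat_lit 11) (node (nat_lit 7) (nat_lit
  81181) (nat_lit 12) (node (nat_lit 5) (nat_lit 81399) (nat_lit 13) (node (nat_lit 4) (nat_lit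
  81569) (nat_lit 14) (node (nat_lit 5) (nat_lit 39408) (nat_lit 15) nil nil) nil) nil) nil) nil)
  nil) nil) nil) nil) (node (nat_lit 3) (nat_lit 77166) (nat_lit 6) (node (nat_lit 7) (nat_lit
  78234) (nat_lit 7) nil (node (nat_lit 4) (nat_lit 79372) (nat_lit 7) (node (nat_lit 5) (nat_lit
  80775) (nat_lit 8) nil nil) nil)) (node (nat_lit 0) (nat_lit 81188) (nat_lit 6) nil (node
  (nat_lit 2) (nat_lit 75850) (nat_lit 6) nil nil))))) (node (nat_lit 3) (nat_lit 68920) (nat_lit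
  5) (node (nat_lit 5) (nat_lit 76530) (nat_lit 6) (node (nat_lit 7) (nat_lit 76530) (nat_lit 7)
  (node (nat_lit 4) (nat_lit 77123) (nat_lit 8) (node (nat_lit 5) (nat_lit 77221) (nat_lit 9)
  (node (nat_lit 4) (nat_lit 77295) (nat_lit 10) (node (nat_lit 7) (nat_lit 77295) (nat_lit 11)
  (node (nat_lit 8) (nat_lit 77295) (nat_lit 12) nil nil) nil) nil) nil) nil) (node (nat_lit 8)
  (nat_lit 76530) (nat_lit 7) nil nil)) (node (nat_lit 4) (nat_lit 70890) (nat_lit 6) (node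
  (nat_lit 8) (nat_lit 70005) (nat_lit 7) nil (node (nat_lit 5) (nat_lit 62133) (nat_lit 7) (node
  (nat_lit 4) (nat_lit 41171) (nat_lit 8) (node (nat_lit 7) (nat_lit 38685) (nat_lit 9) nil (node
  (nat_lit 8) (nat_lit 40936) (nat_lit 9) nil nil)) nil) nil)) (node (nat_lit 7) (nat_lit 69753)
  (nat_lit 6) (node (nat_lit 4) (nat_lit 72811) (nat_lit 7) (node (nat_lit 5) (nat_lit 62847)
  (nat_lit 8) (node (nat_lit 4) (nat_lit 56506) (nat_lit 9) (node (nat_lit 7) (nat_lit 41171)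
  (nat_lit 10) nil nil) nil) nil) (node (nat_lit 5) (nat_lit 74979) (nat_lit 7) nil nil)) (node
  (nat_lit 0) (nat_lit 75170) (nat_lit 6) (node (nat_lit 7) (nat_lit 75170) (nat_lit 7) nil (node
  (nat_lit 8) (nat_lit 75170) (nat_lit 7) nil nil)) (node (nat_lit 2) (nat_lit 68920) (nat_lit 6)
  (node (nat_lit 7) (nat_lit 66960) (nat_lit 7) (node (nat_lit 8) (nat_lit 65945) (nat_lit 8) nil
  nil) (node (nat_lit 8) (nat_lit 66960) (nat_lit 7) (node (nat_lit 7) (nat_lit 65945) (nat_lit 8)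
  nil (node (nat_lit 4) (nat_lit 66779) (nat_lit 8) (node (nat_lit 5) (nat_lit 62104) (nat_lit 9)
  nil nil) nil)) nil)) nil))))) (node (nat_lit 0) (nat_lit 78561) (nat_lit 5) (node (nat_lit 7)
  (nat_lit 76263) (nat_lit 6) (node (nat_lit 4) (nat_lit 77236) (nat_lit 7) (node (nat_lit 5)
  (nat_lit 77875) (nat_lit 8) (node (nat_lit 4) (nat_lit 78318) (nat_lit 9) (node (nat_lit 7)
  (nat_lit 77321) (nat_lit 10) nil nil) nil) nil) nil) (node (nat_lit 3) (nat_lit 78590) (nat_lit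
  6) nil nil)) (node (nat_lit 2) (nat_lit 68769) (nat_lit 5) (node (nat_lit 4) (nat_lit 76530)
  (nat_lit 6) nil (node (nat_lit 5) (nat_lit 75079) (nat_lit 6) (node (nat_lit 7) (nat_lit 75079)
  (nat_lit 7) nil nil) (node (nat_lit 7) (nat_lit 69412) (nat_lit 6) (node (nat_lit 4) (nat_lit
  71872) (nat_lit 7) (node (nat_lit 5) (nat_lit 61827) (nat_lit 8) (node (nat_lit 4) (nat_lit
  55941) (nat_lit 9) (node (nat_lit 7) (nat_lit 39609) (nat_lit 10) nil nil) nil) nil) (node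
  (nat_lit 5) (nat_lit 72784) (nat_lit 7) (node (nat_lit 7) (nat_lit 72784) (nat_lit 8) nil nil)
  (node (nat_lit 3) (nat_lit 69412) (nat_lit 7) nil nil))) (node (nat_lit 3) (nat_lit 68769)
  (nat_lit 6) (node (nat_lit 7) (nat_lit 68769) (nat_lit 7) (node (nat_lit 9) (nat_lit 68769)
  (nat_lit 8) nil (node (nat_lit 4) (nat_lit 67445) (nat_lit 8) (node (nat_lit 5) (nat_lit 64633)
  (nat_lit 9) nil nil) nil)) (node (nat_lit 4) (nat_lit 68932) (nat_lit 7) (node (nat_lit 5)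
  (nat_lit 61789) (nat_lit 8) (node (nat_lit 4) (nat_lit 41171) (nat_lit 9) nil nil) nil) (node
  (nat_lit 8) (nat_lit 68769) (nat_lit 7) nil nil))) (node (nat_lit 0) (nat_lit 73458) (nat_lit 6)
  nil nil))))) nil))))) (node (nat_lit 0) (nat_lit 0) (nat_lit 4) (node (nat_lit 5) (nat_lit
  79994) (nat_lit 5) nil (node (nat_lit 3) (nat_lit 75312) (nat_lit 5) (node (nat_lit 4) (nat_lit
  77487) (nat_lit 6) (node (nat_lit 5) (nat_lit 77793) (nat_lit 7) (node (nat_lit 4) (nat_lit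
  78004) (nat_lit 8) nil nil) nil) (node (nat_lit 5) (nat_lit 77487) (nat_lit 6) (node (nat_lit 8)
  (nat_lit 76029) (nat_lit 7) (node (nat_lit 4) (nat_lit 76668) (nat_lit 8) (node (nat_lit 5)
  (nat_lit 77111) (nat_lit 9) (node (nat_lit 4) (nat_lit 77447) (nat_lit 10) (node (nat_lit 7)
  (nat_lit 77744) (nat_lit 11) (node (nat_lit 8) (nat_lit 77139) (nat_lit 12) nil nil) nil) nil)
  nil) nil) nil) nil)) (node (nat_lit 4) (nat_lit 79994) (nat_lit 5) nil (node (nat_lit 0)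
  (nat_lit 79994) (nat_lit 5) nil (node (nat_lit 2) (nat_lit 72636) (nat_lit 5) (node (nat_lit 3)
  (nat_lit 68978) (nat_lit 6) nil (node (nat_lit 7) (nat_lit 75645) (nat_lit 6) nil (node (nat_lit
  5) (nat_lit 75645) (nat_lit 6) nil nil))) nil))))) (node (nat_lit 2) (nat_lit 0) (nat_lit 4)
  (node (nat_lit 5) (nat_lit 75207) (nat_lit 5) (node (nat_lit 3) (nat_lit 75338) (nat_lit 6) nil
  nil) (node (nat_lit 3) (nat_lit 68732) (nat_lit 5) (node (nat_lit 4) (nat_lit 73512) (nat_lit 6)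
  (node (nat_lit 5) (nat_lit 62133) (nat_lit 7) (node (nat_lit 4) (nat_lit 38759) (nat_lit 8)
  (node (nat_lit 7) (nat_lit 36635) (nat_lit 9) nil nil) nil) nil) (node (nat_lit 5) (nat_lit
  76492) (nat_lit 6) (node (nat_lit 8) (nat_lit 75551) (nat_lit 7) (node (nat_lit 4) (nat_lit
  76190) (nat_lit 8) (node (nat_lit 5) (nat_lit 76633) (nat_lit 9) (node (nat_lit 4) (nat_lit
  76970) (nat_lit 10) (node (nat_lit 7) (nat_lit 76177) (nat_lit 11) (node (nat_lit 8) (nat_lit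
  75572) (nat_lit 12) nil nil) nil) nil) nil) nil) nil) (node (nat_lit 7) (nat_lit 69848) (nat_lit
  6) (node (nat_lit 5) (nat_lit 74579) (nat_lit 7) nil nil) (node (nat_lit 3) (nat_lit 68732)
  (nat_lit 6) (node (nat_lit 4) (nat_lit 70288) (nat_lit 7) (node (nat_lit 5) (nat_lit 61789)
  (nat_lit 8) (node (nat_lit 4) (nat_lit 41171) (nat_lit 9) nil nil) nil) (node (nat_lit 8)
  (nat_lit 68732) (nat_lit 7) (node (nat_lit 4) (nat_lit 71151) (nat_lit 8) nil nil) (node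
  (nat_lit 7) (nat_lit 68732) (nat_lit 7) (node (nat_lit 5) (nat_lit 71083) (nat_lit 8) nil nil)
  nil))) (node (nat_lit 0) (nat_lit 73420) (nat_lit 6) nil nil))))) (node (nat_lit 4) (nat_lit
  75194) (nat_lit 5) (node (nat_lit 3) (nat_lit 74517) (nat_lit 6) nil nil) (node (nat_lit 0)
  (nat_lit 78561) (nat_lit 5) nil nil)))) nil))) (node (nat_lit 0) (nat_lit 0) (nat_lit 3) (node
  (nat_lit 3) (nat_lit 129865) (nat_lit 4) (node (nat_lit 5) (nat_lit 134847) (nat_lit 5) (node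
  (nat_lit 4) (nat_lit 134584) (nat_lit 6) (node (nat_lit 5) (nat_lit 119133) (nat_lit 7) (node
  (nat_lit 6) (nat_lit 98579) (nat_lit 8) (node (nat_lit 7) (nat_lit 69963) (nat_lit 9) nil nil)
  nil) nil) nil) (node (nat_lit 4) (nat_lit 134233) (nat_lit 5) (node (nat_lit 5) (nat_lit 137147)
  (nat_lit 6) nil nil) nil)) (node (nat_lit 5) (nat_lit 128236) (nat_lit 4) (node (nat_lit 4)
  (nat_lit 133283) (nat_lit 5) (node (nat_lit 5) (nat_lit 135047) (nat_lit 6) (node (nat_lit 6)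
  (nat_lit 76444) (nat_lit 7) nil nil) nil) nil) (node (nat_lit 4) (nat_lit 129026) (nat_lit 4)
  (node (nat_lit 6) (nat_lit 133698) (nat_lit 5) (node (nat_lit 5) (nat_lit 134859) (nat_lit 6)
  (node (nat_lit 4) (nat_lit 137255) (nat_lit 7) (node (nat_lit 5) (nat_lit 138489) (nat_lit 8)
  (node (nat_lit 6) (nat_lit 139609) (nat_lit 9) (node (nat_lit 4) (nat_lit 140442) (nat_lit 10)
  (node (nat_lit 6) (nat_lit 76444) (nat_lit 11) nil nil) nil) nil) nil) nil) nil) (node (nat_lit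
  3) (nat_lit 129102) (nat_lit 5) nil (node (nat_lit 5) (nat_lit 133837) (nat_lit 5) nil nil)))
  (node (nat_lit 0) (nat_lit 134799) (nat_lit 4) nil (node (nat_lit 2) (nat_lit 124932) (nat_lit
  4) (node (nat_lit 5) (nat_lit 129913) (nat_lit 5) nil nil) nil))))) (node (nat_lit 2) (nat_lit
  0) (nat_lit 3) (node (nat_lit 3) (nat_lit 117473) (nat_lit 4) (node (nat_lit 5) (nat_lit 126270)
  (nat_lit 5) (node (nat_lit 4) (nat_lit 128194) (nat_lit 6) (node (nat_lit 5) (nat_lit 119239)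
  (nat_lit 7) (node (nat_lit 6) (nat_lit 83741) (nat_lit 8) (node (nat_lit 7) (nat_lit 69623)
  (nat_lit 9) nil nil) nil) nil) nil) (node (nat_lit 6) (nat_lit 124182) (nat_lit 5) (node
  (nat_lit 5) (nat_lit 127114) (nat_lit 6) nil nil) (node (nat_lit 3) (nat_lit 120068) (nat_lit 5)
  (node (nat_lit 7) (nat_lit 117516) (nat_lit 6) nil (node (nat_lit 5) (nat_lit 120254) (nat_lit
  6) nil (node (nat_lit 6) (nat_lit 115359) (nat_lit 6) (node (nat_lit 7) (nat_lit 114182)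
  (nat_lit 7) nil nil) (node (nat_lit 4) (nat_lit 112797) (nat_lit 6) nil nil)))) (node (nat_lit
  4) (nat_lit 119511) (nat_lit 5) (node (nat_lit 5) (nat_lit 104920) (nat_lit 6) (node (nat_lit 6)
  (nat_lit 91508) (nat_lit 7) nil nil) nil) nil)))) (node (nat_lit 5) (nat_lit 108790) (nat_lit 4)
  (node (nat_lit 3) (nat_lit 126354) (nat_lit 5) nil (node (nat_lit 4) (nat_lit 119103) (nat_lit
  5) (node (nat_lit 5) (nat_lit 114925) (nat_lit 6) (node (nat_lit 6) (nat_lit 74731) (nat_lit 7)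
  nil nil) nil) nil)) (node (nat_lit 4) (nat_lit 0) (nat_lit 4) (node (nat_lit 3) (nat_lit 130469)
  (nat_lit 5) (node (nat_lit 5) (nat_lit 127376) (nat_lit 6) (node (nat_lit 8) (nat_lit 127373)
  (nat_lit 7) nil nil) (node (nat_lit 4) (nat_lit 132622) (nat_lit 6) (node (nat_lit 5) (nat_lit
  134234) (nat_lit 7) (node (nat_lit 6) (nat_lit 131798) (nat_lit 8) (node (nat_lit 4) (nat_lit
  91952) (nat_lit 9) nil nil) nil) nil) nil)) (node (nat_lit 6) (nat_lit 119079) (nat_lit 5) (node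
  (nat_lit 5) (nat_lit 122614) (nat_lit 6) (node (nat_lit 4) (nat_lit 129998) (nat_lit 7) (node
  (nat_lit 5) (nat_lit 128468) (nat_lit 8) (node (nat_lit 6) (nat_lit 125518) (nat_lit 9) (node
  (nat_lit 4) (nat_lit 116958) (nat_lit 10) (node (nat_lit 6) (nat_lit 74731) (nat_lit 11) nil
  nil) nil) nil) nil) nil) nil) (node (nat_lit 0) (nat_lit 131981) (nat_lit 5) nil (node (nat_lit
  5) (nat_lit 119112) (nat_lit 5) (node (nat_lit 4) (nat_lit 122599) (nat_lit 6) nil nil) nil))))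
  (node (nat_lit 0) (nat_lit 122734) (nat_lit 4) (node (nat_lit 5) (nat_lit 128546) (nat_lit 5)
  nil (node (nat_lit 3) (nat_lit 120139) (nat_lit 5) nil nil)) nil)))) nil))))

noncomputable def t24 : Tr :=
  (node (nat_lit 0) (nat_lit 0) (nat_lit 2) (node (nat_lit 3) (nat_lit 0) (nat_lit 3) (node
  (nat_lit 4) (nat_lit 131555) (nat_lit 4) (node (nat_lit 5) (nat_lit 100509) (nat_lit 5) nil nil)
  (node (nat_lit 1) (nat_lit 133355) (nat_lit 4) (node (nat_lit 4) (nat_lit 128215) (nat_lit 5)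
  (node (nat_lit 5) (nat_lit 110742) (nat_lit 6) (node (nat_lit 6) (nat_lit 74258) (nat_lit 7) nil
  nil) nil) nil) (node (nat_lit 3) (nat_lit 125633) (nat_lit 4) (node (nat_lit 6) (nat_lit 130536)
  (nat_lit 5) nil (node (nat_lit 1) (nat_lit 131479) (nat_lit 5) nil (node (nat_lit 4) (nat_lit
  125514) (nat_lit 5) (node (nat_lit 5) (nat_lit 107485) (nat_lit 6) (node (nat_lit 6) (nat_lit
  95908) (nat_lit 7) nil nil) nil) nil))) (node (nat_lit 5) (nat_lit 133532) (nat_lit 4) (node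
  (nat_lit 4) (nat_lit 140346) (nat_lit 5) nil nil) (node (nat_lit 0) (nat_lit 137254) (nat_lit 4)
  nil (node (nat_lit 2) (nat_lit 125729) (nat_lit 4) (node (nat_lit 6) (nat_lit 124141) (nat_lit
  5) (node (nat_lit 4) (nat_lit 128498) (nat_lit 6) (node (nat_lit 5) (nat_lit 122353) (nat_lit 7)
  (node (nat_lit 6) (nat_lit 95172) (nat_lit 8) (node (nat_lit 7) (nat_lit 87159) (nat_lit 9) nil
  nil) nil) nil) nil) (node (nat_lit 3) (nat_lit 124250) (nat_lit 5) nil (node (nat_lit 1)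
  (nat_lit 130999) (nat_lit 5) nil nil))) nil)))))) (node (nat_lit 1) (nat_lit 0) (nat_lit 3)
  (node (nat_lit 3) (nat_lit 133858) (nat_lit 4) (node (nat_lit 3) (nat_lit 125494) (nat_lit 5)
  nil (node (nat_lit 4) (nat_lit 143700) (nat_lit 5) (node (nat_lit 5) (nat_lit 145933) (nat_lit
  6) nil nil) nil)) (node (nat_lit 4) (nat_lit 131660) (nat_lit 4) (node (nat_lit 5) (nat_lit
  76444) (nat_lit 5) nil (node (nat_lit 3) (nat_lit 139729) (nat_lit 5) nil nil)) (node (nat_lit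
  5) (nat_lit 129538) (nat_lit 4) (node (nat_lit 4) (nat_lit 134250) (nat_lit 5) (node (nat_lit 6)
  (nat_lit 137457) (nat_lit 6) (node (nat_lit 4) (nat_lit 144648) (nat_lit 7) (node (nat_lit 5)
  (nat_lit 146221) (nat_lit 8) (node (nat_lit 6) (nat_lit 147432) (nat_lit 9) (node (nat_lit 5)
  (nat_lit 148365) (nat_lit 10) (node (nat_lit 4) (nat_lit 76444) (nat_lit 11) nil nil) nil) nil)
  nil) nil) nil) nil) (node (nat_lit 0) (nat_lit 139647) (nat_lit 4) nil (node (nat_lit 2)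
  (nat_lit 130596) (nat_lit 4) (node (nat_lit 6) (nat_lit 135603) (nat_lit 5) (node (nat_lit 4)
  (nat_lit 128769) (nat_lit 6) (node (nat_lit 5) (nat_lit 116925) (nat_lit 7) (node (nat_lit 6)
  (nat_lit 105668) (nat_lit 8) (node (nat_lit 7) (nat_lit 71249) (nat_lit 9) nil nil) nil) nil)
  nil) (node (nat_lit 5) (nat_lit 137456) (nat_lit 5) nil nil)) nil))))) (node (nat_lit 0)
  (nat_lit 0) (nat_lit 3) (node (nat_lit 3) (nat_lit 130674) (nat_lit 4) (node (nat_lit 4)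
  (nat_lit 136904) (nat_lit 5) (node (nat_lit 5) (nat_lit 138956) (nat_lit 6) (node (nat_lit 6)
  (nat_lit 96087) (nat_lit 7) nil nil) nil) nil) (node (nat_lit 4) (nat_lit 139223) (nat_lit 4)
  (node (nat_lit 6) (nat_lit 143068) (nat_lit 5) nil (node (nat_lit 3) (nat_lit 136950) (nat_lit
  5) nil (node (nat_lit 5) (nat_lit 143207) (nat_lit 5) nil (node (nat_lit 1) (nat_lit 143842)
  (nat_lit 5) nil nil)))) (node (nat_lit 5) (nat_lit 139223) (nat_lit 4) nil (node (nat_lit 0)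
  (nat_lit 138439) (nat_lit 4) nil (node (nat_lit 1) (nat_lit 139189) (nat_lit 4) (node (nat_lit
  4) (nat_lit 143904) (nat_lit 5) (node (nat_lit 5) (nat_lit 146375) (nat_lit 6) nil nil) nil)
  (node (nat_lit 2) (nat_lit 124247) (nat_lit 4) (node (nat_lit 6) (nat_lit 130477) (nat_lit 5)
  nil (node (nat_lit 3) (nat_lit 118379) (nat_lit 5) nil (node (nat_lit 1) (nat_lit 127348)
  (nat_lit 5) nil nil))) nil)))))) (node (nat_lit 4) (nat_lit 0) (nat_lit 3) (node (nat_lit 3)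
  (nat_lit 131519) (nat_lit 4) (node (nat_lit 4) (nat_lit 138654) (nat_lit 5) (node (nat_lit 5)
  (nat_lit 142491) (nat_lit 6) (node (nat_lit 4) (nat_lit 102035) (nat_lit 7) nil nil) nil) (node
  (nat_lit 5) (nat_lit 140438) (nat_lit 5) (node (nat_lit 7) (nat_lit 141339) (nat_lit 6) (node
  (nat_lit 4) (nat_lit 143637) (nat_lit 7) (node (nat_lit 5) (nat_lit 144964) (nat_lit 8) (node
  (nat_lit 4) (nat_lit 145994) (nat_lit 9) (node (nat_lit 7) (nat_lit 145452) (nat_lit 10) nil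
  nil) nil) nil) nil) nil) nil)) (node (nat_lit 0) (nat_lit 136842) (nat_lit 4) (node (nat_lit 4)
  (nat_lit 140915) (nat_lit 5) nil nil) (node (nat_lit 1) (nat_lit 128714) (nat_lit 4) (node
  (nat_lit 4) (nat_lit 134678) (nat_lit 5) (node (nat_lit 5) (nat_lit 138713) (nat_lit 6) (node
  (nat_lit 4) (nat_lit 82342) (nat_lit 7) nil nil) nil) (node (nat_lit 5) (nat_lit 132904)
  (nat_lit 5) (node (nat_lit 7) (nat_lit 136954) (nat_lit 6) (node (nat_lit 4) (nat_lit 142916)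
  (nat_lit 7) (node (nat_lit 5) (nat_lit 143398) (nat_lit 8) (node (nat_lit 4) (nat_lit 143924)
  (nat_lit 9) (node (nat_lit 7) (nat_lit 144323) (nat_lit 10) (node (nat_lit 5) (nat_lit 82342)
  (nat_lit 11) nil nil) nil) nil) nil) nil) nil) nil)) (node (nat_lit 2) (nat_lit 132166) (nat_lit
  4) (node (nat_lit 4) (nat_lit 137443) (nat_lit 5) (node (nat_lit 5) (nat_lit 140352) (nat_lit 6)
  nil nil) (node (nat_lit 3) (nat_lit 135120) (nat_lit 5) (node (nat_lit 4) (nat_lit 134114)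
  (nat_lit 6) (node (nat_lit 5) (nat_lit 127264) (nat_lit 7) (node (nat_lit 4) (nat_lit 103497)
  (nat_lit 8) nil nil) nil) nil) (node (nat_lit 1) (nat_lit 141543) (nat_lit 5) (node (nat_lit 4)
  (nat_lit 136483) (nat_lit 6) (node (nat_lit 5) (nat_lit 123004) (nat_lit 7) (node (nat_lit 4)
  (nat_lit 104921) (nat_lit 8) nil nil) nil) nil) nil))) nil)))) (node (nat_lit 2) (nat_lit 0)
  (nat_lit 3) (node (nat_lit 3) (nat_lit 125751) (nat_lit 4) (node (nat_lit 4) (nat_lit 124861)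
  (nat_lit 5) (node (nat_lit 5) (nat_lit 110425) (nat_lit 6) (node (nat_lit 6) (nat_lit 94150)
  (nat_lit 7) nil nil) nil) (node (nat_lit 1) (nat_lit 126820) (nat_lit 5) nil (node (nat_lit 3)
  (nat_lit 121943) (nat_lit 5) nil nil))) (node (nat_lit 4) (nat_lit 132602) (nat_lit 4) (node
  (nat_lit 6) (nat_lit 138220) (nat_lit 5) (node (nat_lit 5) (nat_lit 140306) (nat_lit 6) nil nil)
  (node (nat_lit 3) (nat_lit 136066) (nat_lit 5) (node (nat_lit 4) (nat_lit 138801) (nat_lit 6)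
  nil nil) (node (nat_lit 5) (nat_lit 138211) (nat_lit 5) nil (node (nat_lit 1) (nat_lit 140356)
  (nat_lit 5) nil nil)))) (node (nat_lit 5) (nat_lit 132669) (nat_lit 4) nil (node (nat_lit 0)
  (nat_lit 132670) (nat_lit 4) nil (node (nat_lit 1) (nat_lit 130147) (nat_lit 4) (node (nat_lit
  4) (nat_lit 128213) (nat_lit 5) (node (nat_lit 5) (nat_lit 117605) (nat_lit 6) (node (nat_lit 6)
  (nat_lit 71785) (nat_lit 7) nil nil) nil) nil) nil))))) nil))))) (node (nat_lit 2) (nat_lit 0)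
  (nat_lit 2) (node (nat_lit 3) (nat_lit 0) (nat_lit 3) (node (nat_lit 4) (nat_lit 0) (nat_lit 4)
  (node (nat_lit 5) (nat_lit 84183) (nat_lit 5) (node (nat_lit 3) (nat_lit 91853) (nat_lit 6) nil
  (node (nat_lit 1) (nat_lit 92242) (nat_lit 6) nil nil)) (node (nat_lit 6) (nat_lit 97688)
  (nat_lit 5) (node (nat_lit 5) (nat_lit 104056) (nat_lit 6) (node (nat_lit 4) (nat_lit 107602)
  (nat_lit 7) (node (nat_lit 6) (nat_lit 111433) (nat_lit 8) (node (nat_lit 4) (nat_lit 112500)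
  (nat_lit 9) (node (nat_lit 5) (nat_lit 113518) (nat_lit 10) (node (nat_lit 6) (nat_lit 114168)
  (nat_lit 11) (node (nat_lit 4) (nat_lit 114675) (nat_lit 12) (node (nat_lit 6) (nat_lit 115071)
  (nat_lit 13) (node (nat_lit 5) (nat_lit 115380) (nat_lit 14) (node (nat_lit 4) (nat_lit 91227)
  (nat_lit 15) nil nil) nil) nil) nil) nil) nil) nil) nil) (node (nat_lit 1) (nat_lit 112488)
  (nat_lit 7) nil (node (nat_lit 3) (nat_lit 112416) (nat_lit 7) nil nil))) (node (nat_lit 0)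
  (nat_lit 109955) (nat_lit 6) nil (node (nat_lit 1) (nat_lit 109955) (nat_lit 6) (node (nat_lit
  4) (nat_lit 112271) (nat_lit 7) (node (nat_lit 5) (nat_lit 106686) (nat_lit 8) (node (nat_lit 6)
  (nat_lit 91499) (nat_lit 9) (node (nat_lit 4) (nat_lit 66855) (nat_lit 10) nil nil) nil) nil)
  nil) (node (nat_lit 3) (nat_lit 105244) (nat_lit 6) (node (nat_lit 4) (nat_lit 107560) (nat_lit
  7) (node (nat_lit 5) (nat_lit 107964) (nat_lit 8) (node (nat_lit 6) (nat_lit 100604) (nat_lit 9)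
  (node (nat_lit 4) (nat_lit 79188) (nat_lit 10) (node (nat_lit 6) (nat_lit 71542) (nat_lit 11)
  nil nil) nil) nil) nil) nil) nil)))) (node (nat_lit 0) (nat_lit 110068) (nat_lit 5) (node
  (nat_lit 6) (nat_lit 111645) (nat_lit 6) (node (nat_lit 4) (nat_lit 112652) (nat_lit 7) nil nil)
  nil) (node (nat_lit 1) (nat_lit 110068) (nat_lit 5) (node (nat_lit 6) (nat_lit 111645) (nat_lit
  6) (node (nat_lit 4) (nat_lit 112652) (nat_lit 7) nil nil) (node (nat_lit 4) (nat_lit 111645)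
  (nat_lit 6) (node (nat_lit 5) (nat_lit 112892) (nat_lit 7) (node (nat_lit 6) (nat_lit 113477)
  (nat_lit 8) (node (nat_lit 4) (nat_lit 54333) (nat_lit 9) nil nil) nil) nil) nil)) (node
  (nat_lit 3) (nat_lit 105768) (nat_lit 5) (node (nat_lit 6) (nat_lit 107365) (nat_lit 6) (node
  (nat_lit 4) (nat_lit 108372) (nat_lit 7) nil nil) (node (nat_lit 4) (nat_lit 107329) (nat_lit 6)
  (node (nat_lit 5) (nat_lit 112337) (nat_lit 7) (node (nat_lit 6) (nat_lit 113000) (nat_lit 8)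
  (node (nat_lit 4) (nat_lit 71712) (nat_lit 9) nil nil) nil) nil) (node (nat_lit 1) (nat_lit
  111388) (nat_lit 6) nil nil))) nil))))) (node (nat_lit 1) (nat_lit 0) (nat_lit 4) (node (nat_lit
  5) (nat_lit 119133) (nat_lit 5) (node (nat_lit 7) (nat_lit 124091) (nat_lit 6) (node (nat_lit 6)
  (nat_lit 121943) (nat_lit 7) (node (nat_lit 5) (nat_lit 118426) (nat_lit 8) (node (nat_lit 6)
  (nat_lit 116073) (nat_lit 9) (node (nat_lit 7) (nat_lit 116565) (nat_lit 10) nil nil) nil) nil)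
  nil) nil) (node (nat_lit 6) (nat_lit 119227) (nat_lit 5) (node (nat_lit 5) (nat_lit 124897)
  (nat_lit 6) (node (nat_lit 6) (nat_lit 123088) (nat_lit 7) nil nil) (node (nat_lit 4) (nat_lit
  127082) (nat_lit 6) (node (nat_lit 7) (nat_lit 129156) (nat_lit 7) (node (nat_lit 4) (nat_lit
  130520) (nat_lit 8) nil nil) (node (nat_lit 5) (nat_lit 124726) (nat_lit 7) (node (nat_lit 6)
  (nat_lit 122239) (nat_lit 8) (node (nat_lit 7) (nat_lit 84496) (nat_lit 9) nil nil) nil) nil))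
  nil)) (node (nat_lit 3) (nat_lit 119552) (nat_lit 5) nil (node (nat_lit 4) (nat_lit 108144)
  (nat_lit 5) (node (nat_lit 6) (nat_lit 110002) (nat_lit 6) (node (nat_lit 4) (nat_lit 113335)
  (nat_lit 7) nil nil) (node (nat_lit 5) (nat_lit 101092) (nat_lit 6) (node (nat_lit 6) (nat_lit
  63896) (nat_lit 7) nil nil) (node (nat_lit 7) (nat_lit 113090) (nat_lit 6) nil (node (nat_lit 3)
  (nat_lit 109573) (nat_lit 6) nil nil)))) (node (nat_lit 0) (nat_lit 116705) (nat_lit 5) nil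
  nil))))) (node (nat_lit 3) (nat_lit 0) (nat_lit 4) (node (nat_lit 5) (nat_lit 108581) (nat_lit
  5) (node (nat_lit 7) (nat_lit 112178) (nat_lit 6) (node (nat_lit 6) (nat_lit 112178) (nat_lit 7)
  nil nil) (node (nat_lit 1) (nat_lit 117326) (nat_lit 6) nil (node (nat_lit 6) (nat_lit 112171)
  (nat_lit 6) nil nil))) (node (nat_lit 6) (nat_lit 106059) (nat_lit 5) (node (nat_lit 5) (nat_lit
  112290) (nat_lit 6) (node (nat_lit 7) (nat_lit 112290) (nat_lit 7) nil nil) (node (nat_lit 4)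
  (nat_lit 110201) (nat_lit 6) (node (nat_lit 7) (nat_lit 116164) (nat_lit 7) nil (node (nat_lit
  5) (nat_lit 110334) (nat_lit 7) (node (nat_lit 6) (nat_lit 88099) (nat_lit 8) (node (nat_lit 7)
  (nat_lit 85547) (nat_lit 9) nil nil) nil) nil)) (node (nat_lit 1) (nat_lit 114404) (nat_lit 6)
  nil nil))) (node (nat_lit 1) (nat_lit 111208) (nat_lit 5) (node (nat_lit 7) (nat_lit 117577)
  (nat_lit 6) (node (nat_lit 5) (nat_lit 117877) (nat_lit 7) (node (nat_lit 6) (nat_lit 112145)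
  (nat_lit 8) nil nil) nil) (node (nat_lit 6) (nat_lit 115943) (nat_lit 6) nil (node (nat_lit 4)
  (nat_lit 113424) (nat_lit 6) (node (nat_lit 5) (nat_lit 95391) (nat_lit 7) (node (nat_lit 6)
  (nat_lit 60064) (nat_lit 8) nil nil) nil) nil))) (node (nat_lit 4) (nat_lit 97689) (nat_lit 5)
  (node (nat_lit 6) (nat_lit 102250) (nat_lit 6) (node (nat_lit 4) (nat_lit 105499) (nat_lit 7)
  nil nil) (node (nat_lit 5) (nat_lit 89118) (nat_lit 6) (node (nat_lit 6) (nat_lit 85868)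
  (nat_lit 7) nil nil) (node (nat_lit 7) (nat_lit 102354) (nat_lit 6) (node (nat_lit 6) (nat_lit
  105437) (nat_lit 7) nil nil) (node (nat_lit 1) (nat_lit 102481) (nat_lit 6) nil nil)))) (node
  (nat_lit 0) (nat_lit 111208) (nat_lit 5) nil nil))))) (node (nat_lit 5) (nat_lit 0) (nat_lit 4)
  (node (nat_lit 4) (nat_lit 107000) (nat_lit 5) (node (nat_lit 6) (nat_lit 110597) (nat_lit 6)
  (node (nat_lit 4) (nat_lit 118025) (nat_lit 7) (node (nat_lit 5) (nat_lit 125669) (nat_lit 8)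
  (node (nat_lit 6) (nat_lit 129077) (nat_lit 9) (node (nat_lit 5) (nat_lit 129280) (nat_lit 10)
  (node (nat_lit 4) (nat_lit 93542) (nat_lit 11) nil nil) nil) nil) nil) nil) (node (nat_lit 1)
  (nat_lit 123618) (nat_lit 6) nil (node (nat_lit 3) (nat_lit 123308) (nat_lit 6) nil nil))) (node
  (nat_lit 0) (nat_lit 116859) (nat_lit 5) nil (node (nat_lit 3) (nat_lit 112280) (nat_lit 5)
  (node (nat_lit 6) (nat_lit 112542) (nat_lit 6) (node (nat_lit 8) (nat_lit 112526) (nat_lit 7)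
  nil nil) (node (nat_lit 4) (nat_lit 119777) (nat_lit 6) (node (nat_lit 5) (nat_lit 109336)
  (nat_lit 7) (node (nat_lit 6) (nat_lit 98974) (nat_lit 8) nil nil) nil) nil)) (node (nat_lit 1)
  (nat_lit 116859) (nat_lit 5) (node (nat_lit 4) (nat_lit 125290) (nat_lit 6) (node (nat_lit 5)
  (nat_lit 116489) (nat_lit 7) (node (nat_lit 6) (nat_lit 102445) (nat_lit 8) nil nil) nil) nil)
  nil)))) (node (nat_lit 0) (nat_lit 0) (nat_lit 4) (node (nat_lit 6) (nat_lit 119011) (nat_lit 5)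
  (node (nat_lit 4) (nat_lit 127082) (nat_lit 6) (node (nat_lit 5) (nat_lit 124510) (nat_lit 7)
  (node (nat_lit 6) (nat_lit 122023) (nat_lit 8) nil nil) nil) nil) (node (nat_lit 5) (nat_lit
  119016) (nat_lit 5) nil (node (nat_lit 4) (nat_lit 120997) (nat_lit 5) nil (node (nat_lit 0)
  (nat_lit 120943) (nat_lit 5) nil (node (nat_lit 1) (nat_lit 120943) (nat_lit 5) nil (node
  (nat_lit 3) (nat_lit 119256) (nat_lit 5) nil nil)))))) nil))))) (node (nat_lit 1) (nat_lit 0)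
  (nat_lit 3) (node (nat_lit 3) (nat_lit 119681) (nat_lit 4) (node (nat_lit 5) (nat_lit 128500)
  (nat_lit 5) (node (nat_lit 7) (nat_lit 124171) (nat_lit 6) (node (nat_lit 4) (nat_lit 123157)
  (nat_lit 7) (node (nat_lit 5) (nat_lit 118361) (nat_lit 8) (node (nat_lit 6) (nat_lit 109172)
  (nat_lit 9) (node (nat_lit 7) (nat_lit 93212) (nat_lit 10) nil nil) nil) nil) nil) nil) (node
  (nat_lit 6) (nat_lit 126735) (nat_lit 5) (node (nat_lit 4) (nat_lit 131160) (nat_lit 6) (node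
  (nat_lit 5) (nat_lit 126453) (nat_lit 7) (node (nat_lit 6) (nat_lit 104356) (nat_lit 8) (node
  (nat_lit 7) (nat_lit 67801) (nat_lit 9) nil nil) nil) nil) nil) (node (nat_lit 3) (nat_lit
  122172) (nat_lit 5) (node (nat_lit 7) (nat_lit 121522) (nat_lit 6) (node (nat_lit 6) (nat_lit
  122301) (nat_lit 7) nil nil) (node (nat_lit 4) (nat_lit 118400) (nat_lit 6) nil nil)) (node
  (nat_lit 4) (nat_lit 130768) (nat_lit 5) (node (nat_lit 5) (nat_lit 129484) (nat_lit 6) (node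
  (nat_lit 6) (nat_lit 92927) (nat_lit 7) nil nil) nil) nil)))) (node (nat_lit 4) (nat_lit 0)
  (nat_lit 4) (node (nat_lit 5) (nat_lit 72798) (nat_lit 5) (node (nat_lit 4) (nat_lit 73474)
  (nat_lit 6) nil (node (nat_lit 3) (nat_lit 71803) (nat_lit 6) (node (nat_lit 4) (nat_lit 69602)
  (nat_lit 7) (node (nat_lit 5) (nat_lit 53259) (nat_lit 8) (node (nat_lit 6) (nat_lit 36747)
  (nat_lit 9) nil nil) nil) nil) nil)) (node (nat_lit 6) (nat_lit 109560) (nat_lit 5) (node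
  (nat_lit 5) (nat_lit 114054) (nat_lit 6) (node (nat_lit 4) (nat_lit 116053) (nat_lit 7) (node
  (nat_lit 6) (nat_lit 117477) (nat_lit 8) (node (nat_lit 4) (nat_lit 118543) (nat_lit 9) (node
  (nat_lit 5) (nat_lit 119377) (nat_lit 10) (node (nat_lit 6) (nat_lit 120027) (nat_lit 11) (node
  (nat_lit 4) (nat_lit 120534) (nat_lit 12) (node (nat_lit 6) (nat_lit 120930) (nat_lit 13) (node
  (nat_lit 5) (nat_lit 121239) (nat_lit 14) nil nil) nil) nil) nil) nil) nil) nil) nil) nil) (node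
  (nat_lit 3) (nat_lit 113488) (nat_lit 5) (node (nat_lit 4) (nat_lit 116827) (nat_lit 6) (node
  (nat_lit 5) (nat_lit 116785) (nat_lit 7) (node (nat_lit 6) (nat_lit 118150) (nat_lit 8) nil nil)
  nil) nil) (node (nat_lit 0) (nat_lit 115670) (nat_lit 5) nil nil)))) (node (nat_lit 5) (nat_lit
  105137) (nat_lit 4) (node (nat_lit 4) (nat_lit 114604) (nat_lit 5) (node (nat_lit 6) (nat_lit
  120475) (nat_lit 6) (node (nat_lit 4) (nat_lit 132689) (nat_lit 7) (node (nat_lit 5) (nat_lit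
  131336) (nat_lit 8) (node (nat_lit 6) (nat_lit 132887) (nat_lit 9) (node (nat_lit 5) (nat_lit
  131904) (nat_lit 10) (node (nat_lit 4) (nat_lit 73474) (nat_lit 11) nil nil) nil) nil) nil) nil)
  nil) (node (nat_lit 3) (nat_lit 127159) (nat_lit 5) nil nil)) (node (nat_lit 0) (nat_lit 122460)
  (nat_lit 4) (node (nat_lit 6) (nat_lit 131505) (nat_lit 5) nil nil) nil)))) (node (nat_lit 0)
  (nat_lit 0) (nat_lit 3) (node (nat_lit 3) (nat_lit 126741) (nat_lit 4) (node (nat_lit 4)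
  (nat_lit 134938) (nat_lit 5) (node (nat_lit 5) (nat_lit 133654) (nat_lit 6) (node (nat_lit 6)
  (nat_lit 95259) (nat_lit 7) nil nil) nil) nil) (node (nat_lit 4) (nat_lit 126461) (nat_lit 4)
  (node (nat_lit 6) (nat_lit 134595) (nat_lit 5) nil (node (nat_lit 3) (nat_lit 127799) (nat_lit
  5) (node (nat_lit 4) (nat_lit 130928) (nat_lit 6) nil nil) (node (nat_lit 5) (nat_lit 133941)
  (nat_lit 5) nil (node (nat_lit 1) (nat_lit 133436) (nat_lit 5) nil nil)))) (node (nat_lit 5)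
  (nat_lit 123873) (nat_lit 4) (node (nat_lit 4) (nat_lit 131259) (nat_lit 5) nil (node (nat_lit
  3) (nat_lit 129065) (nat_lit 5) nil (node (nat_lit 1) (nat_lit 135270) (nat_lit 5) nil nil)))
  (node (nat_lit 0) (nat_lit 126884) (nat_lit 4) nil (node (nat_lit 1) (nat_lit 126884) (nat_lit
  4) (node (nat_lit 4) (nat_lit 134141) (nat_lit 5) (node (nat_lit 5) (nat_lit 128908) (nat_lit 6)
  (node (nat_lit 6) (nat_lit 66569) (nat_lit 7) nil nil) nil) nil) nil))))) (node (nat_lit 4)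
  (nat_lit 0) (nat_lit 3) (node (nat_lit 3) (nat_lit 0) (nat_lit 4) (node (nat_lit 4) (nat_lit
  107464) (nat_lit 5) (node (nat_lit 5) (nat_lit 111377) (nat_lit 6) (node (nat_lit 4) (nat_lit
  87383) (nat_lit 7) nil nil) (node (nat_lit 3) (nat_lit 134494) (nat_lit 6) nil (node (nat_lit 1)
  (nat_lit 132689) (nat_lit 6) nil nil))) (node (nat_lit 5) (nat_lit 107474) (nat_lit 5) (node
  (nat_lit 7) (nat_lit 111409) (nat_lit 6) (node (nat_lit 4) (nat_lit 118318) (nat_lit 7) (node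
  (nat_lit 5) (nat_lit 123410) (nat_lit 8) (node (nat_lit 4) (nat_lit 125592) (nat_lit 9) (node
  (nat_lit 7) (nat_lit 110837) (nat_lit 10) (node (nat_lit 5) (nat_lit 94368) (nat_lit 11) nil
  nil) nil) nil) nil) nil) (node (nat_lit 1) (nat_lit 134333) (nat_lit 6) nil (node (nat_lit 3)
  (nat_lit 132724) (nat_lit 6) nil nil))) (node (nat_lit 1) (nat_lit 129926) (nat_lit 5) nil (node
  (nat_lit 3) (nat_lit 127215) (nat_lit 5) nil (node (nat_lit 0) (nat_lit 129926) (nat_lit 5) nil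
  nil))))) (node (nat_lit 0) (nat_lit 117991) (nat_lit 4) (node (nat_lit 4) (nat_lit 131792)
  (nat_lit 5) nil (node (nat_lit 5) (nat_lit 131575) (nat_lit 5) nil (node (nat_lit 3) (nat_lit
  132240) (nat_lit 5) (node (nat_lit 4) (nat_lit 134685) (nat_lit 6) nil nil) (node (nat_lit 1)
  (nat_lit 132222) (nat_lit 5) nil nil)))) (node (nat_lit 1) (nat_lit 0) (nat_lit 4) (node
  (nat_lit 4) (nat_lit 117842) (nat_lit 5) (node (nat_lit 5) (nat_lit 122640) (nat_lit 6) (node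
  (nat_lit 4) (nat_lit 79833) (nat_lit 7) nil nil) nil) (node (nat_lit 5) (nat_lit 117844)
  (nat_lit 5) (node (nat_lit 7) (nat_lit 122669) (nat_lit 6) (node (nat_lit 4) (nat_lit 133243)
  (nat_lit 7) (node (nat_lit 5) (nat_lit 130091) (nat_lit 8) (node (nat_lit 4) (nat_lit 129284)
  (nat_lit 9) (node (nat_lit 7) (nat_lit 114891) (nat_lit 10) (node (nat_lit 5) (nat_lit 75463)
  (nat_lit 11) nil nil) nil) nil) nil) nil) nil) (node (nat_lit 3) (nat_lit 132240) (nat_lit 5)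
  nil (node (nat_lit 0) (nat_lit 132222) (nat_lit 5) nil nil)))) nil))) nil)))) nil))

noncomputable def t25 : Tr :=
  (node (nat_lit 7) (nat_lit 26558) (nat_lit 6) (node (nat_lit 4) (nat_lit 27516) (nat_lit 7)
  (node (nat_lit 7) (nat_lit 34769) (nat_lit 8) (node (nat_lit 5) (nat_lit 38430) (nat_lit 9)
  (node (nat_lit 4) (nat_lit 40868) (nat_lit 10) (node (nat_lit 5) (nat_lit 41926) (nat_lit 11)
  (node (nat_lit 7) (nat_lit 41926) (nat_lit 12) (node (nat_lit 5) (nat_lit 0) (nat_lit 13) (node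
  (nat_lit 4) (nat_lit 0) (nat_lit 14) (node (nat_lit 7) (nat_lit 41926) (nat_lit 15) (node
  (nat_lit 4) (nat_lit 41926) (nat_lit 16) (node (nat_lit 5) (nat_lit 41926) (nat_lit 17) (node
  (nat_lit 7) (nat_lit 41926) (nat_lit 18) nil nil) nil) (node (nat_lit 5) (nat_lit 41926)
  (nat_lit 16) (node (nat_lit 7) (nat_lit 41926) (nat_lit 17) nil nil) (node (nat_lit 3) (nat_lit
  41784) (nat_lit 16) (node (nat_lit 4) (nat_lit 41590) (nat_lit 17) nil nil) nil))) (node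
  (nat_lit 3) (nat_lit 41926) (nat_lit 15) (node (nat_lit 4) (nat_lit 41926) (nat_lit 16) (node
  (nat_lit 5) (nat_lit 41926) (nat_lit 17) nil nil) (node (nat_lit 5) (nat_lit 41926) (nat_lit 16)
  nil nil)) (node (nat_lit 0) (nat_lit 41926) (nat_lit 15) nil nil))) (node (nat_lit 3) (nat_lit
  41926) (nat_lit 14) (node (nat_lit 7) (nat_lit 41926) (nat_lit 15) nil (node (nat_lit 5)
  (nat_lit 41926) (nat_lit 15) nil (node (nat_lit 4) (nat_lit 41926) (nat_lit 15) (node (nat_lit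
  5) (nat_lit 41926) (nat_lit 16) nil nil) nil))) (node (nat_lit 0) (nat_lit 41926) (nat_lit 14)
  (node (nat_lit 7) (nat_lit 41926) (nat_lit 15) nil (node (nat_lit 5) (nat_lit 41926) (nat_lit
  15) nil (node (nat_lit 4) (nat_lit 41926) (nat_lit 15) nil nil))) nil))) (node (nat_lit 4)
  (nat_lit 41923) (nat_lit 13) (node (nat_lit 5) (nat_lit 41926) (nat_lit 14) (node (nat_lit 4)
  (nat_lit 41926) (nat_lit 15) (node (nat_lit 7) (nat_lit 41926) (nat_lit 16) nil nil) nil) (node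
  (nat_lit 7) (nat_lit 41903) (nat_lit 14) nil (node (nat_lit 3) (nat_lit 41926) (nat_lit 14)
  (node (nat_lit 4) (nat_lit 41926) (nat_lit 15) nil nil) nil))) (node (nat_lit 3) (nat_lit 41926)
  (nat_lit 13) (node (nat_lit 4) (nat_lit 41926) (nat_lit 14) (node (nat_lit 5) (nat_lit 40287)
  (nat_lit 15) nil nil) (node (nat_lit 5) (nat_lit 41926) (nat_lit 14) nil nil)) (node (nat_lit 0)
  (nat_lit 41926) (nat_lit 13) nil nil)))) (node (nat_lit 3) (nat_lit 41926) (nat_lit 12) (node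
  (nat_lit 4) (nat_lit 41437) (nat_lit 13) (node (nat_lit 5) (nat_lit 41230) (nat_lit 14) (node
  (nat_lit 4) (nat_lit 41732) (nat_lit 15) (node (nat_lit 7) (nat_lit 40123) (nat_lit 16) (node
  (nat_lit 5) (nat_lit 38821) (nat_lit 17) (node (nat_lit 7) (nat_lit 32618) (nat_lit 18) nil nil)
  nil) nil) nil) nil) (node (nat_lit 5) (nat_lit 41926) (nat_lit 13) nil (node (nat_lit 7)
  (nat_lit 41926) (nat_lit 13) nil nil))) (node (nat_lit 0) (nat_lit 41926) (nat_lit 12) (node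
  (nat_lit 4) (nat_lit 41926) (nat_lit 13) nil (node (nat_lit 5) (nat_lit 41926) (nat_lit 13) nil
  nil)) nil))) (node (nat_lit 7) (nat_lit 41712) (nat_lit 11) (node (nat_lit 4) (nat_lit 41838)
  (nat_lit 12) (node (nat_lit 5) (nat_lit 41725) (nat_lit 13) (node (nat_lit 7) (nat_lit 41705)
  (nat_lit 14) (node (nat_lit 5) (nat_lit 41434) (nat_lit 15) nil (node (nat_lit 4) (nat_lit
  41829) (nat_lit 15) nil nil)) (node (nat_lit 3) (nat_lit 41067) (nat_lit 14) (node (nat_lit 4)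
  (nat_lit 40759) (nat_lit 15) nil nil) nil)) (node (nat_lit 3) (nat_lit 41926) (nat_lit 13) (node
  (nat_lit 4) (nat_lit 41926) (nat_lit 14) nil nil) (node (nat_lit 0) (nat_lit 41926) (nat_lit 13)
  nil nil))) (node (nat_lit 0) (nat_lit 41926) (nat_lit 12) (node (nat_lit 7) (nat_lit 41521)
  (nat_lit 13) nil nil) (node (nat_lit 3) (nat_lit 41853) (nat_lit 12) (node (nat_lit 4) (nat_lit
  41474) (nat_lit 13) (node (nat_lit 5) (nat_lit 39457) (nat_lit 14) nil nil) (node (nat_lit 7)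
  (nat_lit 41926) (nat_lit 13) nil (node (nat_lit 5) (nat_lit 41394) (nat_lit 13) nil nil)))
  nil))) (node (nat_lit 0) (nat_lit 41926) (nat_lit 11) (node (nat_lit 4) (nat_lit 41926) (nat_lit
  12) nil (node (nat_lit 5) (nat_lit 41926) (nat_lit 12) nil (node (nat_lit 7) (nat_lit 41926)
  (nat_lit 12) nil (node (nat_lit 3) (nat_lit 41926) (nat_lit 12) (node (nat_lit 4) (nat_lit
  41926) (nat_lit 13) nil nil) nil)))) (node (nat_lit 3) (nat_lit 41926) (nat_lit 11) (node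
  (nat_lit 4) (nat_lit 41926) (nat_lit 12) (node (nat_lit 5) (nat_lit 41926) (nat_lit 13) (node
  (nat_lit 4) (nat_lit 41926) (nat_lit 14) (node (nat_lit 7) (nat_lit 41926) (nat_lit 15) nil nil)
  nil) nil) (node (nat_lit 5) (nat_lit 41926) (nat_lit 12) (node (nat_lit 14) (nat_lit 41926)
  (nat_lit 13) nil nil) (node (nat_lit 7) (nat_lit 41926) (nat_lit 12) nil nil))) nil)))) (node
  (nat_lit 0) (nat_lit 41926) (nat_lit 10) (node (nat_lit 7) (nat_lit 41926) (nat_lit 11) (node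
  (nat_lit 5) (nat_lit 41926) (nat_lit 12) nil nil) (node (nat_lit 4) (nat_lit 41926) (nat_lit 11)
  nil (node (nat_lit 5) (nat_lit 41926) (nat_lit 11) (node (nat_lit 4) (nat_lit 41926) (nat_lit
  12) nil nil) (node (nat_lit 3) (nat_lit 41926) (nat_lit 11) nil (node (nat_lit 0) (nat_lit
  41926) (nat_lit 11) nil nil))))) (node (nat_lit 3) (nat_lit 41926) (nat_lit 10) (node (nat_lit
  7) (nat_lit 41542) (nat_lit 11) (node (nat_lit 5) (nat_lit 41811) (nat_lit 12) nil (node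
  (nat_lit 13) (nat_lit 41570) (nat_lit 12) nil nil)) (node (nat_lit 4) (nat_lit 40242) (nat_lit
  11) (node (nat_lit 5) (nat_lit 40212) (nat_lit 12) (node (nat_lit 4) (nat_lit 38987) (nat_lit
  13) (node (nat_lit 7) (nat_lit 35919) (nat_lit 14) (node (nat_lit 5) (nat_lit 31728) (nat_lit
  15) (node (nat_lit 7) (nat_lit 22170) (nat_lit 16) nil nil) nil) nil) nil) nil) (node (nat_lit
  5) (nat_lit 41926) (nat_lit 11) (node (nat_lit 7) (nat_lit 41926) (nat_lit 12) nil nil) (node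
  (nat_lit 0) (nat_lit 41926) (nat_lit 11) nil nil)))) nil))) (node (nat_lit 0) (nat_lit 41926)
  (nat_lit 9) (node (nat_lit 4) (nat_lit 41926) (nat_lit 10) (node (nat_lit 5) (nat_lit 41812)
  (nat_lit 11) nil (node (nat_lit 7) (nat_lit 41926) (nat_lit 11) (node (nat_lit 4) (nat_lit
  41926) (nat_lit 12) nil (node (nat_lit 5) (nat_lit 41842) (nat_lit 12) nil nil)) (node (nat_lit
  12) (nat_lit 41926) (nat_lit 11) nil nil))) (node (nat_lit 7) (nat_lit 41906) (nat_lit 10) (node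
  (nat_lit 4) (nat_lit 41926) (nat_lit 11) nil (node (nat_lit 5) (nat_lit 41114) (nat_lit 11) nil
  (node (nat_lit 3) (nat_lit 41926) (nat_lit 11) (node (nat_lit 4) (nat_lit 41554) (nat_lit 12)
  nil nil) nil))) (node (nat_lit 5) (nat_lit 41906) (nat_lit 10) (node (nat_lit 7) (nat_lit 41114)
  (nat_lit 11) nil (node (nat_lit 12) (nat_lit 41926) (nat_lit 11) nil (node (nat_lit 4) (nat_lit
  41926) (nat_lit 11) nil nil))) (node (nat_lit 3) (nat_lit 41926) (nat_lit 10) (node (nat_lit 4)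
  (nat_lit 41926) (nat_lit 11) nil nil) (node (nat_lit 0) (nat_lit 41926) (nat_lit 10) nil
  nil))))) (node (nat_lit 3) (nat_lit 41926) (nat_lit 9) (node (nat_lit 4) (nat_lit 40252)
  (nat_lit 10) (node (nat_lit 5) (nat_lit 39753) (nat_lit 11) (node (nat_lit 4) (nat_lit 38011)
  (nat_lit 12) (node (nat_lit 7) (nat_lit 34994) (nat_lit 13) (node (nat_lit 5) (nat_lit 27138)
  (nat_lit 14) nil nil) nil) (node (nat_lit 7) (nat_lit 39148) (nat_lit 12) nil nil)) (node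
  (nat_lit 7) (nat_lit 40548) (nat_lit 11) nil (node (nat_lit 12) (nat_lit 40548) (nat_lit 11) nil
  nil))) (node (nat_lit 5) (nat_lit 41926) (nat_lit 10) (node (nat_lit 7) (nat_lit 41195) (nat_lit
  11) nil (node (nat_lit 12) (nat_lit 40748) (nat_lit 11) (node (nat_lit 4) (nat_lit 40302)
  (nat_lit 12) (node (nat_lit 5) (nat_lit 39799) (nat_lit 13) nil nil) nil) (node (nat_lit 4)
  (nat_lit 41926) (nat_lit 11) nil nil))) (node (nat_lit 7) (nat_lit 41926) (nat_lit 10) (node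
  (nat_lit 5) (nat_lit 41767) (nat_lit 11) (node (nat_lit 12) (nat_lit 41887) (nat_lit 12) nil
  nil) (node (nat_lit 4) (nat_lit 41926) (nat_lit 11) (node (nat_lit 12) (nat_lit 41926) (nat_lit
  12) nil nil) nil)) (node (nat_lit 0) (nat_lit 41926) (nat_lit 10) (node (nat_lit 12) (nat_lit
  41926) (nat_lit 11) nil nil) nil)))) nil))) (node (nat_lit 5) (nat_lit 34952) (nat_lit 8) (node
  (nat_lit 7) (nat_lit 38739) (nat_lit 9) (node (nat_lit 5) (nat_lit 39525) (nat_lit 10) (node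
  (nat_lit 4) (nat_lit 38902) (nat_lit 11) (node (nat_lit 5) (nat_lit 38760) (nat_lit 12) (node
  (nat_lit 7) (nat_lit 38301) (nat_lit 13) nil nil) nil) (node (nat_lit 3) (nat_lit 39919)
  (nat_lit 11) (node (nat_lit 4) (nat_lit 39567) (nat_lit 12) (node (nat_lit 5) (nat_lit 39553)
  (nat_lit 13) (node (nat_lit 4) (nat_lit 36197) (nat_lit 14) (node (nat_lit 7) (nat_lit 33793)
  (nat_lit 15) nil nil) nil) nil) nil) (node (nat_lit 0) (nat_lit 39821) (nat_lit 11) nil nil)))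
  (node (nat_lit 3) (nat_lit 41114) (nat_lit 10) (node (nat_lit 4) (nat_lit 39520) (nat_lit 11)
  (node (nat_lit 5) (nat_lit 38658) (nat_lit 12) nil nil) (node (nat_lit 5) (nat_lit 41410)
  (nat_lit 11) (node (nat_lit 13) (nat_lit 40350) (nat_lit 12) nil nil) nil)) (node (nat_lit 0)
  (nat_lit 41303) (nat_lit 10) (node (nat_lit 5) (nat_lit 40510) (nat_lit 11) nil nil) nil)))
  (node (nat_lit 4) (nat_lit 38874) (nat_lit 9) (node (nat_lit 7) (nat_lit 40530) (nat_lit 10)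
  (node (nat_lit 4) (nat_lit 40826) (nat_lit 11) nil (node (nat_lit 3) (nat_lit 40923) (nat_lit
  11) (node (nat_lit 4) (nat_lit 40571) (nat_lit 12) nil nil) nil)) (node (nat_lit 3) (nat_lit
  41926) (nat_lit 10) (node (nat_lit 4) (nat_lit 41926) (nat_lit 11) (node (nat_lit 5) (nat_lit
  41926) (nat_lit 12) nil nil) nil) (node (nat_lit 0) (nat_lit 41438) (nat_lit 10) nil nil)))
  (node (nat_lit 3) (nat_lit 41663) (nat_lit 9) (node (nat_lit 4) (nat_lit 40285) (nat_lit 10)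
  (node (nat_lit 5) (nat_lit 39938) (nat_lit 11) (node (nat_lit 4) (nat_lit 37894) (nat_lit 12)
  (node (nat_lit 7) (nat_lit 33267) (nat_lit 13) (node (nat_lit 5) (nat_lit 24635) (nat_lit 14)
  (node (nat_lit 7) (nat_lit 18793) (nat_lit 15) nil nil) nil) nil) nil) nil) (node (nat_lit 7)
  (nat_lit 40827) (nat_lit 10) nil (node (nat_lit 5) (nat_lit 41926) (nat_lit 10) nil nil))) (node
  (nat_lit 0) (nat_lit 41615) (nat_lit 9) (node (nat_lit 5) (nat_lit 40618) (nat_lit 10) nil nil)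
  nil)))) (node (nat_lit 3) (nat_lit 41538) (nat_lit 8) (node (nat_lit 5) (nat_lit 41533) (nat_lit
  9) (node (nat_lit 11) (nat_lit 39902) (nat_lit 10) (node (nat_lit 4) (nat_lit 39297) (nat_lit
  11) (node (nat_lit 5) (nat_lit 38633) (nat_lit 12) (node (nat_lit 4) (nat_lit 37493) (nat_lit
  13) (node (nat_lit 7) (nat_lit 33850) (nat_lit 14) (node (nat_lit 5) (nat_lit 29930) (nat_lit
  15) (node (nat_lit 7) (nat_lit 24292) (nat_lit 16) (node (nat_lit 4) (nat_lit 13923) (nat_lit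
  17) nil nil) nil) nil) nil) nil) nil) nil) (node (nat_lit 7) (nat_lit 40536) (nat_lit 10) nil
  nil)) (node (nat_lit 7) (nat_lit 41618) (nat_lit 9) (node (nat_lit 11) (nat_lit 39987) (nat_lit
  10) (node (nat_lit 4) (nat_lit 38917) (nat_lit 11) nil nil) nil) (node (nat_lit 4) (nat_lit
  41926) (nat_lit 9) (node (nat_lit 5) (nat_lit 41926) (nat_lit 10) (node (nat_lit 4) (nat_lit
  41926) (nat_lit 11) (node (nat_lit 7) (nat_lit 41926) (nat_lit 12) (node (nat_lit 5) (nat_lit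
  41549) (nat_lit 13) (node (nat_lit 7) (nat_lit 41199) (nat_lit 14) nil nil) nil) nil) nil) nil)
  (node (nat_lit 0) (nat_lit 41926) (nat_lit 9) (node (nat_lit 11) (nat_lit 41926) (nat_lit 10)
  nil (node (nat_lit 5) (nat_lit 40983) (nat_lit 10) nil nil)) nil)))) (node (nat_lit 0) (nat_lit
  41538) (nat_lit 8) (node (nat_lit 4) (nat_lit 41926) (nat_lit 9) (node (nat_lit 5) (nat_lit
  40983) (nat_lit 10) nil nil) (node (nat_lit 7) (nat_lit 40372) (nat_lit 9) (node (nat_lit 4)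
  (nat_lit 40709) (nat_lit 10) nil nil) (node (nat_lit 3) (nat_lit 41926) (nat_lit 9) (node
  (nat_lit 4) (nat_lit 41926) (nat_lit 10) (node (nat_lit 5) (nat_lit 41926) (nat_lit 11) nil nil)
  nil) (node (nat_lit 5) (nat_lit 40372) (nat_lit 9) nil (node (nat_lit 0) (nat_lit 41926)
  (nat_lit 9) nil nil))))) nil)))) (node (nat_lit 3) (nat_lit 37279) (nat_lit 7) (node (nat_lit 5)
  (nat_lit 37279) (nat_lit 8) (node (nat_lit 10) (nat_lit 37279) (nat_lit 9) (node (nat_lit 7)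
  (nat_lit 37279) (nat_lit 10) (node (nat_lit 5) (nat_lit 37853) (nat_lit 11) (node (nat_lit 7)
  (nat_lit 37119) (nat_lit 12) nil nil) (node (nat_lit 10) (nat_lit 37483) (nat_lit 11) (node
  (nat_lit 5) (nat_lit 36749) (nat_lit 12) nil (node (nat_lit 4) (nat_lit 38733) (nat_lit 12) nil
  nil)) nil)) (node (nat_lit 4) (nat_lit 38825) (nat_lit 10) (node (nat_lit 5) (nat_lit 37061)
  (nat_lit 11) (node (nat_lit 4) (nat_lit 32033) (nat_lit 12) (node (nat_lit 7) (nat_lit 30485)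
  (nat_lit 13) (node (nat_lit 5) (nat_lit 27541) (nat_lit 14) (node (nat_lit 7) (nat_lit 14038)
  (nat_lit 15) nil nil) nil) nil) nil) nil) (node (nat_lit 0) (nat_lit 38879) (nat_lit 10) nil
  nil))) (node (nat_lit 7) (nat_lit 37279) (nat_lit 9) (node (nat_lit 5) (nat_lit 37279) (nat_lit
  10) (node (nat_lit 4) (nat_lit 40252) (nat_lit 11) nil (node (nat_lit 10) (nat_lit 37708)
  (nat_lit 11) nil nil)) (node (nat_lit 4) (nat_lit 40895) (nat_lit 10) (node (nat_lit 7) (nat_lit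
  40895) (nat_lit 11) nil nil) nil)) (node (nat_lit 4) (nat_lit 40691) (nat_lit 9) nil (node
  (nat_lit 0) (nat_lit 40691) (nat_lit 9) nil nil)))) (node (nat_lit 4) (nat_lit 40860) (nat_lit
  8) (node (nat_lit 5) (nat_lit 34173) (nat_lit 9) (node (nat_lit 4) (nat_lit 24213) (nat_lit 10)
  (node (nat_lit 7) (nat_lit 17216) (nat_lit 11) nil nil) (node (nat_lit 7) (nat_lit 34328)
  (nat_lit 10) (node (nat_lit 4) (nat_lit 34781) (nat_lit 11) nil nil) (node (nat_lit 10) (nat_lit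
  33725) (nat_lit 10) nil nil))) (node (nat_lit 10) (nat_lit 41419) (nat_lit 9) nil (node (nat_lit
  7) (nat_lit 41015) (nat_lit 9) nil nil))) (node (nat_lit 7) (nat_lit 37279) (nat_lit 8) (node
  (nat_lit 5) (nat_lit 37279) (nat_lit 9) (node (nat_lit 4) (nat_lit 38879) (nat_lit 10) nil (node
  (nat_lit 10) (nat_lit 37279) (nat_lit 10) nil (node (nat_lit 7) (nat_lit 37279) (nat_lit 10) nil
  nil))) (node (nat_lit 4) (nat_lit 40584) (nat_lit 9) nil (node (nat_lit 0) (nat_lit 40584)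
  (nat_lit 9) nil nil))) (node (nat_lit 0) (nat_lit 40624) (nat_lit 8) (node (nat_lit 10) (nat_lit
  41067) (nat_lit 9) (node (nat_lit 4) (nat_lit 41404) (nat_lit 10) (node (nat_lit 5) (nat_lit
  41700) (nat_lit 11) nil nil) nil) (node (nat_lit 5) (nat_lit 39411) (nat_lit 9) nil nil))
  nil)))) (node (nat_lit 0) (nat_lit 40395) (nat_lit 7) (node (nat_lit 5) (nat_lit 40513) (nat_lit
  8) (node (nat_lit 4) (nat_lit 40955) (nat_lit 9) nil (node (nat_lit 10) (nat_lit 40955) (nat_lit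
  9) nil nil)) (node (nat_lit 4) (nat_lit 39506) (nat_lit 8) (node (nat_lit 5) (nat_lit 38292)
  (nat_lit 9) nil (node (nat_lit 10) (nat_lit 39948) (nat_lit 9) nil (node (nat_lit 7) (nat_lit
  38292) (nat_lit 9) nil nil))) (node (nat_lit 7) (nat_lit 40618) (nat_lit 8) nil (node (nat_lit
  3) (nat_lit 40599) (nat_lit 8) (node (nat_lit 10) (nat_lit 41042) (nat_lit 9) nil (node (nat_lit
  5) (nat_lit 39386) (nat_lit 9) nil (node (nat_lit 4) (nat_lit 41042) (nat_lit 9) (node (nat_lit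
  5) (nat_lit 41379) (nat_lit 10) nil nil) nil))) (node (nat_lit 0) (nat_lit 41034) (nat_lit 8)
  nil nil))))) nil))) (node (nat_lit 3) (nat_lit 36243) (nat_lit 6) (node (nat_lit 7) (nat_lit
  37279) (nat_lit 7) (node (nat_lit 9) (nat_lit 37279) (nat_lit 8) (node (nat_lit 5) (nat_lit
  37279) (nat_lit 9) (node (nat_lit 7) (nat_lit 37279) (nat_lit 10) (node (nat_lit 5) (nat_lit
  36314) (nat_lit 11) nil (node (nat_lit 9) (nat_lit 37704) (nat_lit 11) nil nil)) (node (nat_lit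
  9) (nat_lit 37279) (nat_lit 10) (node (nat_lit 7) (nat_lit 36314) (nat_lit 11) nil (node
  (nat_lit 4) (nat_lit 36330) (nat_lit 11) (node (nat_lit 5) (nat_lit 34728) (nat_lit 12) (node
  (nat_lit 4) (nat_lit 33447) (nat_lit 13) nil nil) nil) nil)) (node (nat_lit 4) (nat_lit 38879)
  (nat_lit 10) nil nil))) (node (nat_lit 4) (nat_lit 39715) (nat_lit 9) (node (nat_lit 5) (nat_lit
  36737) (nat_lit 10) (node (nat_lit 4) (nat_lit 25053) (nat_lit 11) (node (nat_lit 7) (nat_lit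
  14595) (nat_lit 12) nil nil) nil) (node (nat_lit 7) (nat_lit 39715) (nat_lit 10) nil nil)) (node
  (nat_lit 0) (nat_lit 38790) (nat_lit 9) nil nil))) (node (nat_lit 4) (nat_lit 40831) (nat_lit 8)
  (node (nat_lit 5) (nat_lit 40359) (nat_lit 9) (node (nat_lit 4) (nat_lit 40695) (nat_lit 10)
  (node (nat_lit 9) (nat_lit 40992) (nat_lit 11) nil nil) (node (nat_lit 9) (nat_lit 38728)
  (nat_lit 10) nil nil)) (node (nat_lit 9) (nat_lit 41273) (nat_lit 9) (node (nat_lit 5) (nat_lit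
  40277) (nat_lit 10) nil (node (nat_lit 4) (nat_lit 41607) (nat_lit 10) (node (nat_lit 5)
  (nat_lit 41607) (nat_lit 11) nil nil) nil)) (node (nat_lit 7) (nat_lit 39977) (nat_lit 9) (node
  (nat_lit 9) (nat_lit 40395) (nat_lit 10) (node (nat_lit 4) (nat_lit 40278) (nat_lit 11) nil nil)
  (node (nat_lit 0) (nat_lit 40314) (nat_lit 10) nil nil)) nil))) (node (nat_lit 5) (nat_lit
  37279) (nat_lit 8) (node (nat_lit 7) (nat_lit 37279) (nat_lit 9) (node (nat_lit 9) (nat_lit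
  37279) (nat_lit 10) (node (nat_lit 5) (nat_lit 36314) (nat_lit 11) nil nil) nil) (node (nat_lit
  4) (nat_lit 40139) (nat_lit 9) (node (nat_lit 7) (nat_lit 39142) (nat_lit 10) nil nil) (node
  (nat_lit 0) (nat_lit 38790) (nat_lit 9) nil nil))) (node (nat_lit 0) (nat_lit 40430) (nat_lit 8)
  (node (nat_lit 9) (nat_lit 40430) (nat_lit 9) nil nil) nil)))) (node (nat_lit 4) (nat_lit 36217)
  (nat_lit 7) (node (nat_lit 5) (nat_lit 28439) (nat_lit 8) (node (nat_lit 4) (nat_lit 18099)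
  (nat_lit 9) (node (nat_lit 9) (nat_lit 18521) (nat_lit 10) (node (nat_lit 5) (nat_lit 18084)
  (nat_lit 11) (node (nat_lit 9) (nat_lit 18160) (nat_lit 12) nil nil) (node (nat_lit 4) (nat_lit
  18747) (nat_lit 11) nil nil)) nil) (node (nat_lit 7) (nat_lit 29875) (nat_lit 9) (node (nat_lit
  5) (nat_lit 30384) (nat_lit 10) nil (node (nat_lit 4) (nat_lit 29938) (nat_lit 10) (node
  (nat_lit 5) (nat_lit 29145) (nat_lit 11) nil nil) nil)) (node (nat_lit 9) (nat_lit 29840)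
  (nat_lit 9) (node (nat_lit 5) (nat_lit 29904) (nat_lit 10) (node (nat_lit 4) (nat_lit 30200)
  (nat_lit 11) nil nil) (node (nat_lit 7) (nat_lit 29911) (nat_lit 10) nil nil)) (node (nat_lit 0)
  (nat_lit 28882) (nat_lit 9) nil nil)))) (node (nat_lit 9) (nat_lit 38104) (nat_lit 8) (node
  (nat_lit 5) (nat_lit 38547) (nat_lit 9) (node (nat_lit 4) (nat_lit 38883) (nat_lit 10) nil (node
  (nat_lit 7) (nat_lit 38061) (nat_lit 10) nil nil)) (node (nat_lit 7) (nat_lit 38543) (nat_lit 9)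
  nil (node (nat_lit 0) (nat_lit 38547) (nat_lit 9) nil nil))) (node (nat_lit 7) (nat_lit 37284)
  (nat_lit 8) (node (nat_lit 4) (nat_lit 37539) (nat_lit 9) nil (node (nat_lit 9) (nat_lit 35103)
  (nat_lit 9) nil nil)) (node (nat_lit 0) (nat_lit 38009) (nat_lit 8) nil nil)))) (node (nat_lit
  5) (nat_lit 37279) (nat_lit 7) (node (nat_lit 7) (nat_lit 37279) (nat_lit 8) (node (nat_lit 5)
  (nat_lit 37279) (nat_lit 9) (node (nat_lit 9) (nat_lit 37279) (nat_lit 10) (node (nat_lit 7)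
  (nat_lit 38286) (nat_lit 11) (node (nat_lit 5) (nat_lit 38634) (nat_lit 12) nil (node (nat_lit
  9) (nat_lit 37022) (nat_lit 12) nil nil)) (node (nat_lit 4) (nat_lit 38903) (nat_lit 11) nil
  nil)) (node (nat_lit 4) (nat_lit 40895) (nat_lit 10) nil nil)) (node (nat_lit 9) (nat_lit 37279)
  (nat_lit 9) (node (nat_lit 7) (nat_lit 37279) (nat_lit 10) nil (node (nat_lit 5) (nat_lit 37279)
  (nat_lit 10) (node (nat_lit 9) (nat_lit 37708) (nat_lit 11) nil nil) (node (nat_lit 4) (nat_lit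
  36545) (nat_lit 10) nil nil))) (node (nat_lit 4) (nat_lit 40543) (nat_lit 9) (node (nat_lit 7)
  (nat_lit 39546) (nat_lit 10) nil nil) (node (nat_lit 0) (nat_lit 38790) (nat_lit 9) nil nil))))
  (node (nat_lit 4) (nat_lit 40473) (nat_lit 8) (node (nat_lit 9) (nat_lit 40915) (nat_lit 9)
  (node (nat_lit 4) (nat_lit 41252) (nat_lit 10) (node (nat_lit 5) (nat_lit 41548) (nat_lit 11)
  (node (nat_lit 4) (nat_lit 41730) (nat_lit 12) nil nil) nil) nil) (node (nat_lit 7) (nat_lit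
  39595) (nat_lit 9) nil (node (nat_lit 5) (nat_lit 39259) (nat_lit 9) (node (nat_lit 9) (nat_lit
  39284) (nat_lit 10) (node (nat_lit 4) (nat_lit 38801) (nat_lit 11) (node (nat_lit 5) (nat_lit
  37738) (nat_lit 12) (node (nat_lit 4) (nat_lit 36607) (nat_lit 13) nil nil) nil) nil) nil)
  nil))) (node (nat_lit 0) (nat_lit 40359) (nat_lit 8) (node (nat_lit 5) (nat_lit 39146) (nat_lit
  9) nil nil) nil))) (node (nat_lit 0) (nat_lit 39521) (nat_lit 7) (node (nat_lit 7) (nat_lit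
  39744) (nat_lit 8) nil (node (nat_lit 4) (nat_lit 40161) (nat_lit 8) nil (node (nat_lit 5)
  (nat_lit 39639) (nat_lit 8) nil (node (nat_lit 9) (nat_lit 40161) (nat_lit 8) (node (nat_lit 4)
  (nat_lit 40603) (nat_lit 9) nil nil) nil)))) nil)))) (node (nat_lit 0) (nat_lit 39211) (nat_lit
  6) (node (nat_lit 7) (nat_lit 40919) (nat_lit 7) (node (nat_lit 4) (nat_lit 41558) (nat_lit 8)
  nil (node (nat_lit 5) (nat_lit 39912) (nat_lit 8) nil (node (nat_lit 9) (nat_lit 41558) (nat_lit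
  8) nil (node (nat_lit 3) (nat_lit 38033) (nat_lit 8) nil nil)))) (node (nat_lit 4) (nat_lit
  40424) (nat_lit 7) (node (nat_lit 5) (nat_lit 38770) (nat_lit 8) nil (node (nat_lit 9) (nat_lit
  41654) (nat_lit 8) nil (node (nat_lit 7) (nat_lit 40468) (nat_lit 8) nil (node (nat_lit 3)
  (nat_lit 41064) (nat_lit 8) nil nil)))) (node (nat_lit 5) (nat_lit 40777) (nat_lit 7) (node
  (nat_lit 4) (nat_lit 41416) (nat_lit 8) nil (node (nat_lit 7) (nat_lit 39228) (nat_lit 8) nil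
  (node (nat_lit 3) (nat_lit 41337) (nat_lit 8) (node (nat_lit 5) (nat_lit 41780) (nat_lit 9) nil
  (node (nat_lit 4) (nat_lit 37749) (nat_lit 9) nil nil)) (node (nat_lit 0) (nat_lit 41416)
  (nat_lit 8) nil nil)))) (node (nat_lit 3) (nat_lit 41037) (nat_lit 7) (node (nat_lit 5) (nat_lit
  41155) (nat_lit 8) (node (nat_lit 7) (nat_lit 39942) (nat_lit 9) nil (node (nat_lit 10) (nat_lit
  38974) (nat_lit 9) nil nil)) (node (nat_lit 7) (nat_lit 39555) (nat_lit 8) nil (node (nat_lit 4)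
  (nat_lit 41677) (nat_lit 8) (node (nat_lit 5) (nat_lit 41926) (nat_lit 9) (node (nat_lit 4)
  (nat_lit 41926) (nat_lit 10) nil nil) nil) (node (nat_lit 9) (nat_lit 41677) (nat_lit 8) nil
  nil)))) (node (nat_lit 0) (nat_lit 40623) (nat_lit 7) (node (nat_lit 4) (nat_lit 41263) (nat_lit
  8) nil (node (nat_lit 9) (nat_lit 41263) (nat_lit 8) nil nil)) nil))))) nil)))

noncomputable def t26 : Tr :=
  (node (nat_lit 0) (nat_lit 0) (nat_lit 4) (node (nat_lit 5) (nat_lit 0) (nat_lit 5) (node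
  (nat_lit 4) (nat_lit 39191) (nat_lit 6) (node (nat_lit 5) (nat_lit 37819) (nat_lit 7) nil (node
  (nat_lit 3) (nat_lit 39289) (nat_lit 7) nil nil)) (node (nat_lit 7) (nat_lit 38208) (nat_lit 6)
  nil (node (nat_lit 3) (nat_lit 37568) (nat_lit 6) (node (nat_lit 7) (nat_lit 38562) (nat_lit 7)
  nil (node (nat_lit 4) (nat_lit 32843) (nat_lit 7) (node (nat_lit 5) (nat_lit 25576) (nat_lit 8)
  (node (nat_lit 4) (nat_lit 15291) (nat_lit 9) nil nil) nil) nil)) (node (nat_lit 0) (nat_lit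
  36910) (nat_lit 6) nil (node (nat_lit 2) (nat_lit 33089) (nat_lit 6) nil nil))))) (node (nat_lit
  4) (nat_lit 0) (nat_lit 5) (node (nat_lit 5) (nat_lit 37783) (nat_lit 6) (node (nat_lit 7)
  (nat_lit 38755) (nat_lit 7) nil (node (nat_lit 3) (nat_lit 35993) (nat_lit 7) (node (nat_lit 4)
  (nat_lit 30535) (nat_lit 8) (node (nat_lit 5) (nat_lit 27057) (nat_lit 9) (node (nat_lit 4)
  (nat_lit 21227) (nat_lit 10) (node (nat_lit 7) (nat_lit 13527) (nat_lit 11) nil nil) nil) nil)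
  nil) nil)) (node (nat_lit 3) (nat_lit 38196) (nat_lit 6) (node (nat_lit 4) (nat_lit 39168)
  (nat_lit 7) (node (nat_lit 5) (nat_lit 39808) (nat_lit 8) (node (nat_lit 4) (nat_lit 40250)
  (nat_lit 9) nil nil) nil) nil) (node (nat_lit 0) (nat_lit 36898) (nat_lit 6) nil (node (nat_lit
  2) (nat_lit 36388) (nat_lit 6) (node (nat_lit 5) (nat_lit 35016) (nat_lit 7) nil nil) nil))))
  (node (nat_lit 3) (nat_lit 35688) (nat_lit 5) (node (nat_lit 4) (nat_lit 36511) (nat_lit 6)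
  (node (nat_lit 5) (nat_lit 37483) (nat_lit 7) (node (nat_lit 4) (nat_lit 38123) (nat_lit 8) nil
  nil) nil) (node (nat_lit 5) (nat_lit 36188) (nat_lit 6) nil (node (nat_lit 7) (nat_lit 38386)
  (nat_lit 6) (node (nat_lit 4) (nat_lit 39359) (nat_lit 7) (node (nat_lit 8) (nat_lit 39506)
  (nat_lit 8) nil nil) nil) (node (nat_lit 0) (nat_lit 37192) (nat_lit 6) nil (node (nat_lit 2)
  (nat_lit 36286) (nat_lit 6) (node (nat_lit 5) (nat_lit 34429) (nat_lit 7) nil nil) nil)))))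
  (node (nat_lit 0) (nat_lit 35467) (nat_lit 5) (node (nat_lit 4) (nat_lit 36971) (nat_lit 6) nil
  (node (nat_lit 3) (nat_lit 36971) (nat_lit 6) nil nil)) (node (nat_lit 2) (nat_lit 35480)
  (nat_lit 5) (node (nat_lit 4) (nat_lit 36984) (nat_lit 6) nil (node (nat_lit 7) (nat_lit 36984)
  (nat_lit 6) nil (node (nat_lit 3) (nat_lit 34391) (nat_lit 6) (node (nat_lit 4) (nat_lit 31600)
  (nat_lit 7) (node (nat_lit 5) (nat_lit 17014) (nat_lit 8) nil nil) nil) nil))) nil))))) (node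
  (nat_lit 2) (nat_lit 0) (nat_lit 4) (node (nat_lit 5) (nat_lit 0) (nat_lit 5) (node (nat_lit 4)
  (nat_lit 26568) (nat_lit 6) (node (nat_lit 5) (nat_lit 27546) (nat_lit 7) (node (nat_lit 7)
  (nat_lit 33533) (nat_lit 8) (node (nat_lit 5) (nat_lit 35144) (nat_lit 9) (node (nat_lit 4)
  (nat_lit 35481) (nat_lit 10) nil nil) nil) (node (nat_lit 3) (nat_lit 37028) (nat_lit 8) (node
  (nat_lit 4) (nat_lit 31812) (nat_lit 9) (node (nat_lit 5) (nat_lit 29706) (nat_lit 10) (node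
  (nat_lit 4) (nat_lit 26826) (nat_lit 11) (node (nat_lit 7) (nat_lit 19986) (nat_lit 12) (node
  (nat_lit 11) (nat_lit 20067) (nat_lit 13) nil nil) nil) nil) nil) nil) (node (nat_lit 0)
  (nat_lit 28185) (nat_lit 8) nil nil))) (node (nat_lit 3) (nat_lit 38947) (nat_lit 7) nil (node
  (nat_lit 0) (nat_lit 37363) (nat_lit 7) nil nil))) t25) (node (nat_lit 4) (nat_lit 0) (nat_lit
  5) (node (nat_lit 5) (nat_lit 26533) (nat_lit 6) (node (nat_lit 7) (nat_lit 27497) (nat_lit 7)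
  (node (nat_lit 5) (nat_lit 33843) (nat_lit 8) (node (nat_lit 4) (nat_lit 36396) (nat_lit 9)
  (node (nat_lit 5) (nat_lit 34841) (nat_lit 10) nil nil) (node (nat_lit 3) (nat_lit 31661)
  (nat_lit 9) nil nil)) (node (nat_lit 4) (nat_lit 34013) (nat_lit 8) (node (nat_lit 7) (nat_lit
  36262) (nat_lit 9) (node (nat_lit 5) (nat_lit 36276) (nat_lit 10) (node (nat_lit 4) (nat_lit
  36572) (nat_lit 11) nil nil) nil) (node (nat_lit 3) (nat_lit 38949) (nat_lit 9) (node (nat_lit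
  4) (nat_lit 39286) (nat_lit 10) nil nil) (node (nat_lit 0) (nat_lit 34456) (nat_lit 9) nil
  nil))) (node (nat_lit 3) (nat_lit 36792) (nat_lit 8) (node (nat_lit 4) (nat_lit 35982) (nat_lit
  9) (node (nat_lit 5) (nat_lit 30631) (nat_lit 10) (node (nat_lit 4) (nat_lit 26287) (nat_lit 11)
  (node (nat_lit 7) (nat_lit 19518) (nat_lit 12) nil nil) nil) nil) nil) (node (nat_lit 0)
  (nat_lit 38399) (nat_lit 8) nil nil)))) (node (nat_lit 3) (nat_lit 36805) (nat_lit 7) (node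
  (nat_lit 4) (nat_lit 35554) (nat_lit 8) (node (nat_lit 5) (nat_lit 31646) (nat_lit 9) (node
  (nat_lit 4) (nat_lit 25641) (nat_lit 10) nil nil) nil) (node (nat_lit 7) (nat_lit 35323)
  (nat_lit 8) nil (node (nat_lit 5) (nat_lit 37445) (nat_lit 8) nil nil))) (node (nat_lit 0)
  (nat_lit 37327) (nat_lit 7) nil (node (nat_lit 4) (nat_lit 27505) (nat_lit 7) (node (nat_lit 0)
  (nat_lit 28144) (nat_lit 8) nil nil) nil)))) (node (nat_lit 3) (nat_lit 38685) (nat_lit 6) (node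
  (nat_lit 4) (nat_lit 39657) (nat_lit 7) (node (nat_lit 5) (nat_lit 40297) (nat_lit 8) (node
  (nat_lit 4) (nat_lit 40739) (nat_lit 9) (node (nat_lit 7) (nat_lit 39742) (nat_lit 10) nil nil)
  nil) nil) (node (nat_lit 7) (nat_lit 38735) (nat_lit 7) (node (nat_lit 9) (nat_lit 36335)
  (nat_lit 8) nil (node (nat_lit 4) (nat_lit 39374) (nat_lit 8) nil nil)) (node (nat_lit 5)
  (nat_lit 38735) (nat_lit 7) nil nil))) (node (nat_lit 0) (nat_lit 36880) (nat_lit 6) (node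
  (nat_lit 4) (nat_lit 37853) (nat_lit 7) nil (node (nat_lit 3) (nat_lit 37853) (nat_lit 7) (node
  (nat_lit 4) (nat_lit 38492) (nat_lit 8) (node (nat_lit 5) (nat_lit 38935) (nat_lit 9) nil nil)
  nil) nil)) nil))) (node (nat_lit 3) (nat_lit 32236) (nat_lit 5) (node (nat_lit 4) (nat_lit
  27203) (nat_lit 6) (node (nat_lit 5) (nat_lit 22886) (nat_lit 7) (node (nat_lit 8) (nat_lit
  23525) (nat_lit 8) (node (nat_lit 7) (nat_lit 23726) (nat_lit 9) (node (nat_lit 5) (nat_lit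
  22730) (nat_lit 10) nil (node (nat_lit 8) (nat_lit 23693) (nat_lit 10) (node (nat_lit 4)
  (nat_lit 20953) (nat_lit 11) nil nil) nil)) (node (nat_lit 5) (nat_lit 23968) (nat_lit 9) nil
  (node (nat_lit 4) (nat_lit 23968) (nat_lit 9) nil nil))) (node (nat_lit 7) (nat_lit 22818)
  (nat_lit 8) (node (nat_lit 5) (nat_lit 21604) (nat_lit 9) (node (nat_lit 8) (nat_lit 21629)
  (nat_lit 10) nil nil) (node (nat_lit 4) (nat_lit 23260) (nat_lit 9) (node (nat_lit 8) (nat_lit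
  23597) (nat_lit 10) (node (nat_lit 4) (nat_lit 23893) (nat_lit 11) nil nil) nil) (node (nat_lit
  8) (nat_lit 22193) (nat_lit 9) nil nil))) (node (nat_lit 0) (nat_lit 23525) (nat_lit 8) (node
  (nat_lit 8) (nat_lit 23968) (nat_lit 9) nil nil) nil))) (node (nat_lit 8) (nat_lit 30135)
  (nat_lit 7) (node (nat_lit 7) (nat_lit 32052) (nat_lit 8) (node (nat_lit 4) (nat_lit 32970)
  (nat_lit 9) (node (nat_lit 7) (nat_lit 33595) (nat_lit 10) (node (nat_lit 8) (nat_lit 33415)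
  (nat_lit 11) nil nil) (node (nat_lit 8) (nat_lit 33704) (nat_lit 10) (node (nat_lit 4) (nat_lit
  34000) (nat_lit 11) nil nil) nil)) (node (nat_lit 8) (nat_lit 32944) (nat_lit 9) (node (nat_lit
  4) (nat_lit 30932) (nat_lit 10) (node (nat_lit 5) (nat_lit 29648) (nat_lit 11) (node (nat_lit 4)
  (nat_lit 26136) (nat_lit 12) (node (nat_lit 7) (nat_lit 21756) (nat_lit 13) nil nil) nil) nil)
  nil) (node (nat_lit 5) (nat_lit 30719) (nat_lit 9) (node (nat_lit 8) (nat_lit 29088) (nat_lit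
  10) nil nil) nil))) (node (nat_lit 5) (nat_lit 31532) (nat_lit 8) (node (nat_lit 7) (nat_lit
  31515) (nat_lit 9) (node (nat_lit 8) (nat_lit 30981) (nat_lit 10) (node (nat_lit 4) (nat_lit
  28240) (nat_lit 11) nil nil) (node (nat_lit 5) (nat_lit 31210) (nat_lit 10) nil (node (nat_lit
  4) (nat_lit 31851) (nat_lit 10) nil nil))) (node (nat_lit 4) (nat_lit 32220) (nat_lit 9) (node
  (nat_lit 7) (nat_lit 31254) (nat_lit 10) (node (nat_lit 8) (nat_lit 30014) (nat_lit 11) nil nil)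
  nil) (node (nat_lit 8) (nat_lit 32125) (nat_lit 9) (node (nat_lit 4) (nat_lit 31007) (nat_lit
  10) nil nil) nil))) (node (nat_lit 0) (nat_lit 31364) (nat_lit 8) (node (nat_lit 8) (nat_lit
  31807) (nat_lit 9) nil nil) nil))) (node (nat_lit 7) (nat_lit 29927) (nat_lit 7) (node (nat_lit
  4) (nat_lit 31473) (nat_lit 8) (node (nat_lit 8) (nat_lit 32365) (nat_lit 9) (node (nat_lit 4)
  (nat_lit 32702) (nat_lit 10) (node (nat_lit 5) (nat_lit 32998) (nat_lit 11) nil nil) nil) (node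
  (nat_lit 5) (nat_lit 30140) (nat_lit 9) nil nil)) (node (nat_lit 5) (nat_lit 31577) (nat_lit 8)
  (node (nat_lit 4) (nat_lit 31917) (nat_lit 9) nil (node (nat_lit 8) (nat_lit 32387) (nat_lit 9)
  nil nil)) nil)) (node (nat_lit 0) (nat_lit 29805) (nat_lit 7) (node (nat_lit 4) (nat_lit 30796)
  (nat_lit 8) nil (node (nat_lit 8) (nat_lit 30445) (nat_lit 8) (node (nat_lit 4) (nat_lit 30887)
  (nat_lit 9) nil nil) (node (nat_lit 7) (nat_lit 31316) (nat_lit 8) nil (node (nat_lit 5)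
  (nat_lit 29923) (nat_lit 8) nil (node (nat_lit 0) (nat_lit 30445) (nat_lit 8) nil nil)))))
  nil)))) (node (nat_lit 5) (nat_lit 35829) (nat_lit 6) (node (nat_lit 7) (nat_lit 36858) (nat_lit
  7) (node (nat_lit 5) (nat_lit 36858) (nat_lit 8) (node (nat_lit 4) (nat_lit 36654) (nat_lit 9)
  (node (nat_lit 8) (nat_lit 36991) (nat_lit 10) (node (nat_lit 4) (nat_lit 37287) (nat_lit 11)
  nil nil) nil) (node (nat_lit 8) (nat_lit 36442) (nat_lit 9) nil nil)) (node (nat_lit 4) (nat_lit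
  38311) (nat_lit 8) (node (nat_lit 7) (nat_lit 37606) (nat_lit 9) nil (node (nat_lit 8) (nat_lit
  38311) (nat_lit 9) nil nil)) (node (nat_lit 8) (nat_lit 36442) (nat_lit 8) (node (nat_lit 7)
  (nat_lit 36975) (nat_lit 9) nil (node (nat_lit 4) (nat_lit 35391) (nat_lit 9) (node (nat_lit 5)
  (nat_lit 31403) (nat_lit 10) (node (nat_lit 4) (nat_lit 22172) (nat_lit 11) (node (nat_lit 7)
  (nat_lit 22170) (nat_lit 12) nil nil) nil) nil) nil)) nil))) (node (nat_lit 8) (nat_lit 35829)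
  (nat_lit 7) (node (nat_lit 7) (nat_lit 35829) (nat_lit 8) (node (nat_lit 5) (nat_lit 35282)
  (nat_lit 9) nil (node (nat_lit 8) (nat_lit 35954) (nat_lit 9) (node (nat_lit 4) (nat_lit 34836)
  (nat_lit 10) nil nil) nil)) (node (nat_lit 4) (nat_lit 35131) (nat_lit 8) (node (nat_lit 5)
  (nat_lit 33337) (nat_lit 9) (node (nat_lit 4) (nat_lit 28322) (nat_lit 10) (node (nat_lit 7)
  (nat_lit 17197) (nat_lit 11) nil nil) (node (nat_lit 7) (nat_lit 32568) (nat_lit 10) nil nil))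
  nil) nil)) (node (nat_lit 4) (nat_lit 35423) (nat_lit 7) (node (nat_lit 8) (nat_lit 36062)
  (nat_lit 8) (node (nat_lit 4) (nat_lit 36505) (nat_lit 9) (node (nat_lit 5) (nat_lit 36842)
  (nat_lit 10) (node (nat_lit 4) (nat_lit 37138) (nat_lit 11) (node (nat_lit 7) (nat_lit 36533)
  (nat_lit 12) nil nil) nil) nil) nil) nil) nil))) (node (nat_lit 7) (nat_lit 35616) (nat_lit 6)
  (node (nat_lit 4) (nat_lit 37640) (nat_lit 7) (node (nat_lit 8) (nat_lit 38870) (nat_lit 8)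
  (node (nat_lit 4) (nat_lit 39313) (nat_lit 9) nil (node (nat_lit 5) (nat_lit 37657) (nat_lit 9)
  (node (nat_lit 4) (nat_lit 37994) (nat_lit 10) (node (nat_lit 7) (nat_lit 37201) (nat_lit 11)
  (node (nat_lit 8) (nat_lit 37321) (nat_lit 12) nil nil) nil) nil) nil)) (node (nat_lit 7)
  (nat_lit 37814) (nat_lit 8) (node (nat_lit 5) (nat_lit 36601) (nat_lit 9) nil (node (nat_lit 8)
  (nat_lit 37309) (nat_lit 9) (node (nat_lit 4) (nat_lit 36643) (nat_lit 10) nil nil) nil)) (node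
  (nat_lit 5) (nat_lit 37471) (nat_lit 8) nil nil))) (node (nat_lit 5) (nat_lit 35616) (nat_lit 7)
  (node (nat_lit 4) (nat_lit 36677) (nat_lit 8) nil (node (nat_lit 8) (nat_lit 35616) (nat_lit 8)
  nil nil)) (node (nat_lit 0) (nat_lit 38011) (nat_lit 7) nil nil))) (node (nat_lit 0) (nat_lit
  36405) (nat_lit 6) (node (nat_lit 8) (nat_lit 37378) (nat_lit 7) (node (nat_lit 4) (nat_lit
  38017) (nat_lit 8) (node (nat_lit 5) (nat_lit 38191) (nat_lit 9) nil nil) nil) (node (nat_lit 5)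
  (nat_lit 36285) (nat_lit 7) nil nil)) nil)))) (node (nat_lit 0) (nat_lit 34523) (nat_lit 5)
  (node (nat_lit 4) (nat_lit 38534) (nat_lit 6) (node (nat_lit 5) (nat_lit 36555) (nat_lit 7) nil
  (node (nat_lit 3) (nat_lit 39506) (nat_lit 7) (node (nat_lit 4) (nat_lit 40146) (nat_lit 8) nil
  nil) nil)) (node (nat_lit 5) (nat_lit 38301) (nat_lit 6) (node (nat_lit 7) (nat_lit 36443)
  (nat_lit 7) nil (node (nat_lit 3) (nat_lit 39011) (nat_lit 7) nil nil)) (node (nat_lit 7)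
  (nat_lit 38691) (nat_lit 6) nil (node (nat_lit 3) (nat_lit 38031) (nat_lit 6) (node (nat_lit 4)
  (nat_lit 39003) (nat_lit 7) (node (nat_lit 5) (nat_lit 39642) (nat_lit 8) (node (nat_lit 4)
  (nat_lit 40085) (nat_lit 9) nil nil) nil) nil) (node (nat_lit 0) (nat_lit 37860) (nat_lit 6) nil
  nil))))) nil)))) (node (nat_lit 3) (nat_lit 0) (nat_lit 4) (node (nat_lit 5) (nat_lit 0)
  (nat_lit 5) (node (nat_lit 7) (nat_lit 24972) (nat_lit 6) (node (nat_lit 4) (nat_lit 30924)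
  (nat_lit 7) (node (nat_lit 5) (nat_lit 28579) (nat_lit 8) (node (nat_lit 4) (nat_lit 26839)
  (nat_lit 9) (node (nat_lit 7) (nat_lit 10535) (nat_lit 10) (node (nat_lit 4) (nat_lit 11210)
  (nat_lit 11) (node (nat_lit 5) (nat_lit 12095) (nat_lit 12) nil nil) (node (nat_lit 0) (nat_lit
  11509) (nat_lit 11) nil (node (nat_lit 2) (nat_lit 11210) (nat_lit 11) nil nil))) nil) (node
  (nat_lit 7) (nat_lit 30600) (nat_lit 9) (node (nat_lit 5) (nat_lit 32220) (nat_lit 10) nil nil)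
  nil)) nil) (node (nat_lit 0) (nat_lit 38136) (nat_lit 7) nil (node (nat_lit 2) (nat_lit 36764)
  (nat_lit 7) nil nil))) (node (nat_lit 0) (nat_lit 35930) (nat_lit 6) (node (nat_lit 7) (nat_lit
  38136) (nat_lit 7) (node (nat_lit 4) (nat_lit 39540) (nat_lit 8) (node (nat_lit 5) (nat_lit
  40077) (nat_lit 9) nil nil) nil) nil) (node (nat_lit 4) (nat_lit 24979) (nat_lit 6) (node
  (nat_lit 5) (nat_lit 33447) (nat_lit 7) (node (nat_lit 7) (nat_lit 36376) (nat_lit 8) (node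
  (nat_lit 4) (nat_lit 37433) (nat_lit 9) (node (nat_lit 5) (nat_lit 33384) (nat_lit 10) (node
  (nat_lit 4) (nat_lit 34059) (nat_lit 11) (node (nat_lit 7) (nat_lit 33361) (nat_lit 12) (node
  (nat_lit 5) (nat_lit 21476) (nat_lit 13) nil nil) nil) nil) nil) nil) (node (nat_lit 0) (nat_lit
  37537) (nat_lit 8) nil (node (nat_lit 2) (nat_lit 35234) (nat_lit 8) nil nil))) (node (nat_lit
  0) (nat_lit 34452) (nat_lit 7) nil (node (nat_lit 2) (nat_lit 36159) (nat_lit 7) nil nil)))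
  (node (nat_lit 2) (nat_lit 35462) (nat_lit 6) (node (nat_lit 7) (nat_lit 37272) (nat_lit 7)
  (node (nat_lit 4) (nat_lit 37107) (nat_lit 8) (node (nat_lit 5) (nat_lit 32621) (nat_lit 9)
  (node (nat_lit 4) (nat_lit 21907) (nat_lit 10) (node (nat_lit 7) (nat_lit 17316) (nat_lit 11)
  nil nil) nil) (node (nat_lit 9) (nat_lit 37644) (nat_lit 9) nil nil)) (node (nat_lit 9) (nat_lit
  37272) (nat_lit 8) nil nil)) (node (nat_lit 5) (nat_lit 37272) (nat_lit 7) nil nil)) nil))))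
  (node (nat_lit 0) (nat_lit 34641) (nat_lit 5) (node (nat_lit 5) (nat_lit 38030) (nat_lit 6)
  (node (nat_lit 7) (nat_lit 37279) (nat_lit 7) nil nil) (node (nat_lit 7) (nat_lit 38030)
  (nat_lit 6) (node (nat_lit 4) (nat_lit 39002) (nat_lit 7) nil nil) (node (nat_lit 4) (nat_lit
  38030) (nat_lit 6) (node (nat_lit 7) (nat_lit 39002) (nat_lit 7) (node (nat_lit 4) (nat_lit
  39642) (nat_lit 8) (node (nat_lit 5) (nat_lit 40084) (nat_lit 9) (node (nat_lit 4) (nat_lit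
  40421) (nat_lit 10) (node (nat_lit 7) (nat_lit 40717) (nat_lit 11) nil nil) nil) nil) nil) nil)
  nil))) (node (nat_lit 2) (nat_lit 33853) (nat_lit 5) (node (nat_lit 5) (nat_lit 35483) (nat_lit
  6) (node (nat_lit 7) (nat_lit 37033) (nat_lit 7) nil nil) (node (nat_lit 7) (nat_lit 35192)
  (nat_lit 6) (node (nat_lit 4) (nat_lit 39002) (nat_lit 7) (node (nat_lit 8) (nat_lit 39440)
  (nat_lit 8) nil (node (nat_lit 5) (nat_lit 25279) (nat_lit 8) (node (nat_lit 4) (nat_lit 15281)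
  (nat_lit 9) nil nil) nil)) nil) (node (nat_lit 4) (nat_lit 38030) (nat_lit 6) (node (nat_lit 8)
  (nat_lit 39002) (nat_lit 7) (node (nat_lit 7) (nat_lit 38976) (nat_lit 8) (node (nat_lit 4)
  (nat_lit 37806) (nat_lit 9) nil nil) nil) (node (nat_lit 7) (nat_lit 39002) (nat_lit 7) (node
  (nat_lit 4) (nat_lit 39642) (nat_lit 8) (node (nat_lit 5) (nat_lit 40084) (nat_lit 9) nil nil)
  nil) nil)) (node (nat_lit 0) (nat_lit 38030) (nat_lit 6) nil nil)))) (node (nat_lit 4) (nat_lit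
  0) (nat_lit 5) (node (nat_lit 5) (nat_lit 24965) (nat_lit 6) (node (nat_lit 0) (nat_lit 38136)
  (nat_lit 7) nil (node (nat_lit 2) (nat_lit 38136) (nat_lit 7) nil nil)) (node (nat_lit 0)
  (nat_lit 35930) (nat_lit 6) (node (nat_lit 5) (nat_lit 38136) (nat_lit 7) (node (nat_lit 4)
  (nat_lit 39540) (nat_lit 8) (node (nat_lit 7) (nat_lit 40076) (nat_lit 9) nil nil) nil) nil)
  (node (nat_lit 2) (nat_lit 35930) (nat_lit 6) (node (nat_lit 4) (nat_lit 38136) (nat_lit 7) nil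
  (node (nat_lit 5) (nat_lit 38136) (nat_lit 7) nil nil)) nil))) nil)))) nil)))

noncomputable def t27 : Tr :=
  (node (nat_lit 5) (nat_lit 36412) (nat_lit 6) (node (nat_lit 4) (nat_lit 43226) (nat_lit 7)
  (node (nat_lit 5) (nat_lit 46945) (nat_lit 8) (node (nat_lit 6) (nat_lit 41004) (nat_lit 9)
  (node (nat_lit 4) (nat_lit 21858) (nat_lit 10) (node (nat_lit 5) (nat_lit 22268) (nat_lit 11)
  (node (nat_lit 4) (nat_lit 22637) (nat_lit 12) (node (nat_lit 6) (nat_lit 22885) (nat_lit 13)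
  (node (nat_lit 4) (nat_lit 0) (nat_lit 14) (node (nat_lit 5) (nat_lit 0) (nat_lit 15) (node
  (nat_lit 6) (nat_lit 23425) (nat_lit 16) (node (nat_lit 4) (nat_lit 23572) (nat_lit 17) (node
  (nat_lit 6) (nat_lit 23687) (nat_lit 18) (node (nat_lit 5) (nat_lit 23776) (nat_lit 19) (node
  (nat_lit 4) (nat_lit 23847) (nat_lit 20) (node (nat_lit 5) (nat_lit 23900) (nat_lit 21) (node
  (nat_lit 6) (nat_lit 23944) (nat_lit 22) nil nil) nil) nil) nil) nil) (node (nat_lit 5) (nat_lit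
  23572) (nat_lit 17) (node (nat_lit 4) (nat_lit 23687) (nat_lit 18) nil nil) nil)) (node (nat_lit
  0) (nat_lit 23425) (nat_lit 16) nil (node (nat_lit 2) (nat_lit 23085) (nat_lit 16) nil nil)))
  (node (nat_lit 0) (nat_lit 23378) (nat_lit 15) (node (nat_lit 4) (nat_lit 23565) (nat_lit 16)
  nil (node (nat_lit 5) (nat_lit 23565) (nat_lit 16) (node (nat_lit 4) (nat_lit 23713) (nat_lit
  17) nil nil) (node (nat_lit 6) (nat_lit 23565) (nat_lit 16) (node (nat_lit 4) (nat_lit 23713)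
  (nat_lit 17) nil nil) nil))) (node (nat_lit 2) (nat_lit 22938) (nat_lit 15) (node (nat_lit 4)
  (nat_lit 23126) (nat_lit 16) nil (node (nat_lit 5) (nat_lit 23126) (nat_lit 16) (node (nat_lit
  4) (nat_lit 23273) (nat_lit 17) nil nil) (node (nat_lit 6) (nat_lit 22995) (nat_lit 16) (node
  (nat_lit 4) (nat_lit 22974) (nat_lit 17) nil nil) nil))) nil))) (node (nat_lit 5) (nat_lit
  23014) (nat_lit 14) (node (nat_lit 6) (nat_lit 23256) (nat_lit 15) nil (node (nat_lit 0)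
  (nat_lit 23256) (nat_lit 15) nil (node (nat_lit 2) (nat_lit 22817) (nat_lit 15) nil (node
  (nat_lit 4) (nat_lit 23256) (nat_lit 15) nil nil)))) (node (nat_lit 0) (nat_lit 23194) (nat_lit
  14) (node (nat_lit 6) (nat_lit 23436) (nat_lit 15) nil (node (nat_lit 5) (nat_lit 23436)
  (nat_lit 15) nil (node (nat_lit 4) (nat_lit 23436) (nat_lit 15) nil nil))) (node (nat_lit 2)
  (nat_lit 22624) (nat_lit 14) (node (nat_lit 5) (nat_lit 22865) (nat_lit 15) nil (node (nat_lit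
  6) (nat_lit 22687) (nat_lit 15) nil (node (nat_lit 4) (nat_lit 22865) (nat_lit 15) nil nil)))
  nil)))) (node (nat_lit 0) (nat_lit 23150) (nat_lit 13) (node (nat_lit 4) (nat_lit 23458)
  (nat_lit 14) nil (node (nat_lit 5) (nat_lit 23458) (nat_lit 14) nil (node (nat_lit 6) (nat_lit
  23458) (nat_lit 14) nil nil))) (node (nat_lit 2) (nat_lit 23474) (nat_lit 13) (node (nat_lit 5)
  (nat_lit 23783) (nat_lit 14) (node (nat_lit 4) (nat_lit 24024) (nat_lit 15) nil nil) (node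
  (nat_lit 4) (nat_lit 23783) (nat_lit 14) nil (node (nat_lit 6) (nat_lit 22805) (nat_lit 14) nil
  nil))) nil))) (node (nat_lit 0) (nat_lit 22926) (nat_lit 12) (node (nat_lit 5) (nat_lit 23090)
  (nat_lit 13) (node (nat_lit 6) (nat_lit 23398) (nat_lit 14) nil (node (nat_lit 4) (nat_lit
  23398) (nat_lit 14) nil nil)) (node (nat_lit 4) (nat_lit 23322) (nat_lit 13) (node (nat_lit 5)
  (nat_lit 23631) (nat_lit 14) nil (node (nat_lit 6) (nat_lit 23631) (nat_lit 14) nil nil)) (node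
  (nat_lit 6) (nat_lit 23322) (nat_lit 13) (node (nat_lit 5) (nat_lit 23631) (nat_lit 14) nil
  (node (nat_lit 4) (nat_lit 23631) (nat_lit 14) nil nil)) (node (nat_lit 0) (nat_lit 23322)
  (nat_lit 13) nil (node (nat_lit 2) (nat_lit 22573) (nat_lit 13) nil nil))))) (node (nat_lit 2)
  (nat_lit 22763) (nat_lit 12) (node (nat_lit 5) (nat_lit 23276) (nat_lit 13) (node (nat_lit 6)
  (nat_lit 23584) (nat_lit 14) nil (node (nat_lit 4) (nat_lit 23584) (nat_lit 14) nil nil)) (node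
  (nat_lit 4) (nat_lit 22927) (nat_lit 13) (node (nat_lit 5) (nat_lit 23235) (nat_lit 14) nil
  (node (nat_lit 6) (nat_lit 23235) (nat_lit 14) nil nil)) (node (nat_lit 6) (nat_lit 23080)
  (nat_lit 13) (node (nat_lit 5) (nat_lit 23389) (nat_lit 14) nil (node (nat_lit 4) (nat_lit
  21838) (nat_lit 14) nil nil)) (node (nat_lit 0) (nat_lit 23159) (nat_lit 13) nil nil)))) nil)))
  (node (nat_lit 0) (nat_lit 22746) (nat_lit 11) (node (nat_lit 4) (nat_lit 23253) (nat_lit 12)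
  (node (nat_lit 6) (nat_lit 23649) (nat_lit 13) nil (node (nat_lit 5) (nat_lit 23649) (nat_lit
  13) nil (node (nat_lit 0) (nat_lit 23649) (nat_lit 13) nil (node (nat_lit 2) (nat_lit 22900)
  (nat_lit 13) nil nil)))) (node (nat_lit 5) (nat_lit 23253) (nat_lit 12) (node (nat_lit 14)
  (nat_lit 23649) (nat_lit 13) nil (node (nat_lit 4) (nat_lit 23649) (nat_lit 13) (node (nat_lit
  5) (nat_lit 23958) (nat_lit 14) (node (nat_lit 6) (nat_lit 24200) (nat_lit 15) nil nil) nil)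
  (node (nat_lit 6) (nat_lit 23649) (nat_lit 13) nil nil))) (node (nat_lit 6) (nat_lit 23253)
  (nat_lit 12) (node (nat_lit 4) (nat_lit 23649) (nat_lit 13) (node (nat_lit 5) (nat_lit 23958)
  (nat_lit 14) nil nil) (node (nat_lit 14) (nat_lit 23649) (nat_lit 13) nil (node (nat_lit 5)
  (nat_lit 23649) (nat_lit 13) (node (nat_lit 4) (nat_lit 23958) (nat_lit 14) nil nil) nil)))
  (node (nat_lit 0) (nat_lit 23253) (nat_lit 12) (node (nat_lit 4) (nat_lit 23649) (nat_lit 13)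
  nil nil) (node (nat_lit 2) (nat_lit 22275) (nat_lit 12) (node (nat_lit 14) (nat_lit 22671)
  (nat_lit 13) nil nil) nil))))) (node (nat_lit 6) (nat_lit 12674) (nat_lit 11) (node (nat_lit 0)
  (nat_lit 13296) (nat_lit 12) (node (nat_lit 6) (nat_lit 13693) (nat_lit 13) (node (nat_lit 4)
  (nat_lit 14001) (nat_lit 14) nil (node (nat_lit 5) (nat_lit 14001) (nat_lit 14) nil nil)) (node
  (nat_lit 4) (nat_lit 13693) (nat_lit 13) (node (nat_lit 6) (nat_lit 14001) (nat_lit 14) (node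
  (nat_lit 4) (nat_lit 14243) (nat_lit 15) nil nil) nil) (node (nat_lit 5) (nat_lit 13693)
  (nat_lit 13) (node (nat_lit 4) (nat_lit 14001) (nat_lit 14) nil nil) (node (nat_lit 0) (nat_lit
  13693) (nat_lit 13) nil (node (nat_lit 2) (nat_lit 12944) (nat_lit 13) nil nil))))) (node
  (nat_lit 2) (nat_lit 13181) (nat_lit 12) (node (nat_lit 6) (nat_lit 12317) (nat_lit 13) (node
  (nat_lit 4) (nat_lit 12335) (nat_lit 14) (node (nat_lit 5) (nat_lit 12499) (nat_lit 15) nil nil)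
  nil) (node (nat_lit 4) (nat_lit 13578) (nat_lit 13) (node (nat_lit 6) (nat_lit 13886) (nat_lit
  14) (node (nat_lit 4) (nat_lit 14128) (nat_lit 15) nil nil) (node (nat_lit 15) (nat_lit 13316)
  (nat_lit 14) nil nil)) (node (nat_lit 5) (nat_lit 13578) (nat_lit 13) (node (nat_lit 6) (nat_lit
  13886) (nat_lit 14) nil (node (nat_lit 4) (nat_lit 13886) (nat_lit 14) nil nil)) (node (nat_lit
  0) (nat_lit 13578) (nat_lit 13) nil nil)))) nil)) (node (nat_lit 2) (nat_lit 22533) (nat_lit 11)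
  (node (nat_lit 5) (nat_lit 23190) (nat_lit 12) (node (nat_lit 14) (nat_lit 23090) (nat_lit 13)
  nil (node (nat_lit 4) (nat_lit 23586) (nat_lit 13) (node (nat_lit 5) (nat_lit 23895) (nat_lit
  14) nil nil) (node (nat_lit 6) (nat_lit 23586) (nat_lit 13) nil nil))) (node (nat_lit 4)
  (nat_lit 23190) (nat_lit 12) (node (nat_lit 6) (nat_lit 23649) (nat_lit 13) (node (nat_lit 14)
  (nat_lit 23388) (nat_lit 14) nil nil) (node (nat_lit 5) (nat_lit 23586) (nat_lit 13) nil nil))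
  (node (nat_lit 6) (nat_lit 22741) (nat_lit 12) (node (nat_lit 4) (nat_lit 22909) (nat_lit 13)
  (node (nat_lit 5) (nat_lit 21394) (nat_lit 14) nil (node (nat_lit 6) (nat_lit 23217) (nat_lit
  14) nil nil)) (node (nat_lit 14) (nat_lit 23254) (nat_lit 13) nil (node (nat_lit 5) (nat_lit
  23137) (nat_lit 13) nil nil))) (node (nat_lit 0) (nat_lit 23040) (nat_lit 12) (node (nat_lit 4)
  (nat_lit 23436) (nat_lit 13) nil nil) nil)))) nil)))) (node (nat_lit 5) (nat_lit 42991) (nat_lit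
  10) (node (nat_lit 4) (nat_lit 44715) (nat_lit 11) (node (nat_lit 6) (nat_lit 45885) (nat_lit
  12) (node (nat_lit 4) (nat_lit 46598) (nat_lit 13) (node (nat_lit 5) (nat_lit 47154) (nat_lit
  14) (node (nat_lit 6) (nat_lit 47216) (nat_lit 15) (node (nat_lit 4) (nat_lit 47555) (nat_lit
  16) (node (nat_lit 6) (nat_lit 47594) (nat_lit 17) (node (nat_lit 5) (nat_lit 47685) (nat_lit
  18) (node (nat_lit 4) (nat_lit 47754) (nat_lit 19) (node (nat_lit 5) (nat_lit 47830) (nat_lit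
  20) (node (nat_lit 6) (nat_lit 47577) (nat_lit 21) nil nil) nil) nil) nil) nil) nil) nil) nil)
  nil) nil) (node (nat_lit 0) (nat_lit 44715) (nat_lit 11) nil (node (nat_lit 2) (nat_lit 43230)
  (nat_lit 11) (node (nat_lit 5) (nat_lit 44400) (nat_lit 12) nil nil) nil))) (node (nat_lit 0)
  (nat_lit 43179) (nat_lit 10) (node (nat_lit 6) (nat_lit 44678) (nat_lit 11) nil nil) (node
  (nat_lit 2) (nat_lit 42926) (nat_lit 10) (node (nat_lit 5) (nat_lit 44425) (nat_lit 11) nil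
  (node (nat_lit 6) (nat_lit 44425) (nat_lit 11) nil nil)) nil)))) (node (nat_lit 0) (nat_lit
  48047) (nat_lit 9) nil (node (nat_lit 2) (nat_lit 47673) (nat_lit 9) nil nil))) (node (nat_lit
  6) (nat_lit 46826) (nat_lit 8) (node (nat_lit 4) (nat_lit 47893) (nat_lit 9) (node (nat_lit 5)
  (nat_lit 48911) (nat_lit 10) (node (nat_lit 6) (nat_lit 49561) (nat_lit 11) (node (nat_lit 4)
  (nat_lit 50068) (nat_lit 12) (node (nat_lit 6) (nat_lit 50464) (nat_lit 13) (node (nat_lit 5)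
  (nat_lit 50773) (nat_lit 14) nil nil) nil) nil) nil) nil) nil) (node (nat_lit 0) (nat_lit 49347)
  (nat_lit 8) (node (nat_lit 5) (nat_lit 49909) (nat_lit 9) (node (nat_lit 4) (nat_lit 50257)
  (nat_lit 10) (node (nat_lit 5) (nat_lit 50564) (nat_lit 11) (node (nat_lit 6) (nat_lit 50843)
  (nat_lit 12) (node (nat_lit 4) (nat_lit 51069) (nat_lit 13) (node (nat_lit 6) (nat_lit 51245)
  (nat_lit 14) (node (nat_lit 5) (nat_lit 51374) (nat_lit 15) nil nil) nil) nil) nil) nil) nil)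
  (node (nat_lit 4) (nat_lit 49909) (nat_lit 9) nil (node (nat_lit 6) (nat_lit 49909) (nat_lit 9)
  (node (nat_lit 4) (nat_lit 50257) (nat_lit 10) nil nil) nil))) (node (nat_lit 2) (nat_lit 49228)
  (nat_lit 8) (node (nat_lit 5) (nat_lit 49790) (nat_lit 9) (node (nat_lit 6) (nat_lit 50138)
  (nat_lit 10) nil nil) (node (nat_lit 6) (nat_lit 49790) (nat_lit 9) (node (nat_lit 4) (nat_lit
  49117) (nat_lit 10) nil nil) nil)) nil)))) (node (nat_lit 6) (nat_lit 45403) (nat_lit 7) (node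
  (nat_lit 4) (nat_lit 46826) (nat_lit 8) (node (nat_lit 5) (nat_lit 48047) (nat_lit 9) (node
  (nat_lit 4) (nat_lit 48880) (nat_lit 10) (node (nat_lit 6) (nat_lit 49530) (nat_lit 11) (node
  (nat_lit 5) (nat_lit 50118) (nat_lit 12) (node (nat_lit 4) (nat_lit 50514) (nat_lit 13) (node
  (nat_lit 5) (nat_lit 50823) (nat_lit 14) (node (nat_lit 6) (nat_lit 51065) (nat_lit 15) (node
  (nat_lit 4) (nat_lit 51252) (nat_lit 16) (node (nat_lit 6) (nat_lit 51400) (nat_lit 17) (node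
  (nat_lit 5) (nat_lit 51514) (nat_lit 18) (node (nat_lit 6) (nat_lit 51604) (nat_lit 19) (node
  (nat_lit 4) (nat_lit 47197) (nat_lit 20) (node (nat_lit 5) (nat_lit 40541) (nat_lit 21) (node
  (nat_lit 4) (nat_lit 16849) (nat_lit 22) nil nil) nil) nil) nil) nil) nil) nil) nil) nil) nil)
  nil) nil) (node (nat_lit 6) (nat_lit 48880) (nat_lit 10) (node (nat_lit 5) (nat_lit 49588)
  (nat_lit 11) nil nil) nil)) (node (nat_lit 0) (nat_lit 48047) (nat_lit 9) nil (node (nat_lit 2)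
  (nat_lit 47893) (nat_lit 9) nil nil))) (node (nat_lit 0) (nat_lit 49347) (nat_lit 8) (node
  (nat_lit 4) (nat_lit 49909) (nat_lit 9) nil (node (nat_lit 5) (nat_lit 49943) (nat_lit 9) nil
  (node (nat_lit 6) (nat_lit 49909) (nat_lit 9) nil nil))) (node (nat_lit 2) (nat_lit 49228)
  (nat_lit 8) (node (nat_lit 4) (nat_lit 49790) (nat_lit 9) nil (node (nat_lit 5) (nat_lit 49943)
  (nat_lit 9) nil (node (nat_lit 6) (nat_lit 49790) (nat_lit 9) (node (nat_lit 4) (nat_lit 50138)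
  (nat_lit 10) nil nil) nil))) nil))) (node (nat_lit 0) (nat_lit 47881) (nat_lit 7) (node (nat_lit
  4) (nat_lit 49301) (nat_lit 8) nil (node (nat_lit 6) (nat_lit 49301) (nat_lit 8) (node (nat_lit
  4) (nat_lit 49862) (nat_lit 9) nil nil) (node (nat_lit 5) (nat_lit 49347) (nat_lit 8) nil (node
  (nat_lit 0) (nat_lit 49301) (nat_lit 8) nil (node (nat_lit 2) (nat_lit 49301) (nat_lit 8) nil
  nil))))) (node (nat_lit 2) (nat_lit 47809) (nat_lit 7) (node (nat_lit 4) (nat_lit 49228)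
  (nat_lit 8) (node (nat_lit 6) (nat_lit 49790) (nat_lit 9) nil nil) (node (nat_lit 6) (nat_lit
  49026) (nat_lit 8) nil (node (nat_lit 5) (nat_lit 49347) (nat_lit 8) (node (nat_lit 4) (nat_lit
  49909) (nat_lit 9) nil nil) nil))) nil)))) (node (nat_lit 0) (nat_lit 45348) (nat_lit 6) (node
  (nat_lit 4) (nat_lit 47664) (nat_lit 7) (node (nat_lit 6) (nat_lit 49084) (nat_lit 8) (node
  (nat_lit 4) (nat_lit 49645) (nat_lit 9) nil nil) nil) (node (nat_lit 6) (nat_lit 47664) (nat_lit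
  7) (node (nat_lit 4) (nat_lit 49084) (nat_lit 8) (node (nat_lit 5) (nat_lit 49645) (nat_lit 9)
  nil nil) (node (nat_lit 5) (nat_lit 49084) (nat_lit 8) nil nil)) (node (nat_lit 5) (nat_lit
  47881) (nat_lit 7) (node (nat_lit 4) (nat_lit 49301) (nat_lit 8) (node (nat_lit 5) (nat_lit
  49862) (nat_lit 9) (node (nat_lit 6) (nat_lit 50211) (nat_lit 10) (node (nat_lit 4) (nat_lit
  50518) (nat_lit 11) (node (nat_lit 6) (nat_lit 50797) (nat_lit 12) nil nil) nil) nil) nil) nil)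
  (node (nat_lit 0) (nat_lit 47867) (nat_lit 7) (node (nat_lit 6) (nat_lit 49286) (nat_lit 8) nil
  nil) (node (nat_lit 2) (nat_lit 47649) (nat_lit 7) (node (nat_lit 5) (nat_lit 49069) (nat_lit 8)
  nil nil) nil))))) (node (nat_lit 2) (nat_lit 40637) (nat_lit 6) (node (nat_lit 4) (nat_lit
  42953) (nat_lit 7) (node (nat_lit 9) (nat_lit 44373) (nat_lit 8) (node (nat_lit 6) (nat_lit
  44934) (nat_lit 9) (node (nat_lit 9) (nat_lit 46021) (nat_lit 10) (node (nat_lit 4) (nat_lit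
  46328) (nat_lit 11) nil (node (nat_lit 5) (nat_lit 46328) (nat_lit 11) nil nil)) (node (nat_lit
  4) (nat_lit 45420) (nat_lit 10) (node (nat_lit 5) (nat_lit 43268) (nat_lit 11) (node (nat_lit 6)
  (nat_lit 42197) (nat_lit 12) (node (nat_lit 4) (nat_lit 36821) (nat_lit 13) (node (nat_lit 6)
  (nat_lit 36821) (nat_lit 14) (node (nat_lit 9) (nat_lit 31239) (nat_lit 15) nil nil) nil) nil)
  nil) nil) (node (nat_lit 5) (nat_lit 46427) (nat_lit 10) (node (nat_lit 4) (nat_lit 46734)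
  (nat_lit 11) (node (nat_lit 5) (nat_lit 47013) (nat_lit 12) (node (nat_lit 6) (nat_lit 47239)
  (nat_lit 13) (node (nat_lit 4) (nat_lit 47415) (nat_lit 14) (node (nat_lit 6) (nat_lit 43922)
  (nat_lit 15) (node (nat_lit 9) (nat_lit 37131) (nat_lit 16) (node (nat_lit 4) (nat_lit 26766)
  (nat_lit 17) nil nil) nil) nil) nil) nil) nil) nil) nil))) (node (nat_lit 5) (nat_lit 48168)
  (nat_lit 9) (node (nat_lit 4) (nat_lit 48516) (nat_lit 10) (node (nat_lit 5) (nat_lit 48824)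
  (nat_lit 11) (node (nat_lit 6) (nat_lit 48468) (nat_lit 12) (node (nat_lit 4) (nat_lit 46153)
  (nat_lit 13) nil nil) nil) nil) (node (nat_lit 6) (nat_lit 48516) (nat_lit 10) nil nil)) (node
  (nat_lit 0) (nat_lit 47824) (nat_lit 9) nil nil))) (node (nat_lit 5) (nat_lit 47796) (nat_lit 8)
  (node (nat_lit 9) (nat_lit 48357) (nat_lit 9) (node (nat_lit 5) (nat_lit 48705) (nat_lit 10) nil
  nil) (node (nat_lit 4) (nat_lit 48357) (nat_lit 9) nil nil)) (node (nat_lit 6) (nat_lit 44373)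
  (nat_lit 8) (node (nat_lit 4) (nat_lit 44934) (nat_lit 9) nil nil) (node (nat_lit 0) (nat_lit
  47796) (nat_lit 8) (node (nat_lit 4) (nat_lit 48357) (nat_lit 9) nil (node (nat_lit 6) (nat_lit
  48357) (nat_lit 9) nil (node (nat_lit 5) (nat_lit 48357) (nat_lit 9) (node (nat_lit 4) (nat_lit
  48705) (nat_lit 10) nil nil) nil))) nil)))) (node (nat_lit 6) (nat_lit 42953) (nat_lit 7) (node
  (nat_lit 4) (nat_lit 44373) (nat_lit 8) (node (nat_lit 9) (nat_lit 44934) (nat_lit 9) (node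
  (nat_lit 5) (nat_lit 45282) (nat_lit 10) nil nil) (node (nat_lit 5) (nat_lit 36821) (nat_lit 9)
  (node (nat_lit 6) (nat_lit 35614) (nat_lit 10) (node (nat_lit 4) (nat_lit 31500) (nat_lit 11)
  nil nil) nil) nil)) (node (nat_lit 5) (nat_lit 47098) (nat_lit 8) (node (nat_lit 4) (nat_lit
  47398) (nat_lit 9) nil nil) nil)) (node (nat_lit 5) (nat_lit 47258) (nat_lit 7) (node (nat_lit
  4) (nat_lit 48677) (nat_lit 8) (node (nat_lit 5) (nat_lit 47606) (nat_lit 9) (node (nat_lit 6)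
  (nat_lit 39790) (nat_lit 10) (node (nat_lit 4) (nat_lit 30686) (nat_lit 11) (node (nat_lit 6)
  (nat_lit 19896) (nat_lit 12) nil nil) nil) nil) nil) (node (nat_lit 9) (nat_lit 48073) (nat_lit
  8) nil nil)) (node (nat_lit 0) (nat_lit 46974) (nat_lit 7) (node (nat_lit 4) (nat_lit 48393)
  (nat_lit 8) nil (node (nat_lit 5) (nat_lit 48393) (nat_lit 8) nil (node (nat_lit 6) (nat_lit
  48393) (nat_lit 8) nil nil))) nil)))) nil)))

noncomputable def t28 : Tr :=
  (node (nat_lit 5) (nat_lit 0) (nat_lit 4) (node (nat_lit 4) (nat_lit 0) (nat_lit 5) (node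
  (nat_lit 6) (nat_lit 51105) (nat_lit 6) (node (nat_lit 4) (nat_lit 57028) (nat_lit 7) (node
  (nat_lit 5) (nat_lit 60306) (nat_lit 8) (node (nat_lit 6) (nat_lit 63275) (nat_lit 9) (node
  (nat_lit 5) (nat_lit 62472) (nat_lit 10) (node (nat_lit 4) (nat_lit 28597) (nat_lit 11) nil nil)
  nil) nil) (node (nat_lit 0) (nat_lit 64670) (nat_lit 8) nil (node (nat_lit 2) (nat_lit 64648)
  (nat_lit 8) nil nil))) (node (nat_lit 5) (nat_lit 56954) (nat_lit 7) (node (nat_lit 6) (nat_lit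
  60579) (nat_lit 8) (node (nat_lit 4) (nat_lit 63197) (nat_lit 9) (node (nat_lit 6) (nat_lit
  65316) (nat_lit 10) (node (nat_lit 5) (nat_lit 65365) (nat_lit 11) (node (nat_lit 4) (nat_lit
  66209) (nat_lit 12) (node (nat_lit 5) (nat_lit 66021) (nat_lit 13) (node (nat_lit 6) (nat_lit
  65079) (nat_lit 14) (node (nat_lit 5) (nat_lit 63713) (nat_lit 15) (node (nat_lit 4) (nat_lit
  62004) (nat_lit 16) (node (nat_lit 6) (nat_lit 58378) (nat_lit 17) (node (nat_lit 5) (nat_lit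
  52142) (nat_lit 18) (node (nat_lit 6) (nat_lit 43800) (nat_lit 19) (node (nat_lit 4) (nat_lit
  33896) (nat_lit 20) nil nil) nil) nil) nil) nil) nil) nil) nil) nil) nil) (node (nat_lit 5)
  (nat_lit 65103) (nat_lit 10) (node (nat_lit 6) (nat_lit 60307) (nat_lit 11) (node (nat_lit 5)
  (nat_lit 61370) (nat_lit 12) (node (nat_lit 4) (nat_lit 59517) (nat_lit 13) (node (nat_lit 6)
  (nat_lit 35536) (nat_lit 14) nil nil) nil) nil) nil) nil)) nil) (node (nat_lit 0) (nat_lit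
  64670) (nat_lit 8) nil (node (nat_lit 2) (nat_lit 64574) (nat_lit 8) nil nil))) (node (nat_lit
  0) (nat_lit 63432) (nat_lit 7) nil (node (nat_lit 2) (nat_lit 63263) (nat_lit 7) nil nil))))
  (node (nat_lit 0) (nat_lit 58727) (nat_lit 6) (node (nat_lit 6) (nat_lit 63404) (nat_lit 7) nil
  (node (nat_lit 4) (nat_lit 63338) (nat_lit 7) nil (node (nat_lit 5) (nat_lit 63309) (nat_lit 7)
  (node (nat_lit 6) (nat_lit 66443) (nat_lit 8) nil (node (nat_lit 4) (nat_lit 65926) (nat_lit 8)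
  (node (nat_lit 5) (nat_lit 66885) (nat_lit 9) (node (nat_lit 6) (nat_lit 66292) (nat_lit 10) nil
  nil) nil) nil)) nil))) (node (nat_lit 5) (nat_lit 21678) (nat_lit 6) (node (nat_lit 6) (nat_lit
  26117) (nat_lit 7) (node (nat_lit 4) (nat_lit 28305) (nat_lit 8) (node (nat_lit 6) (nat_lit
  29894) (nat_lit 9) (node (nat_lit 5) (nat_lit 31134) (nat_lit 10) (node (nat_lit 6) (nat_lit
  32101) (nat_lit 11) (node (nat_lit 4) (nat_lit 32918) (nat_lit 12) (node (nat_lit 5) (nat_lit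
  33508) (nat_lit 13) (node (nat_lit 6) (nat_lit 33967) (nat_lit 14) (node (nat_lit 5) (nat_lit
  32344) (nat_lit 15) (node (nat_lit 4) (nat_lit 31255) (nat_lit 16) (node (nat_lit 5) (nat_lit
  27484) (nat_lit 17) (node (nat_lit 6) (nat_lit 22979) (nat_lit 18) (node (nat_lit 4) (nat_lit
  18037) (nat_lit 19) nil nil) nil) nil) nil) nil) nil) nil) nil) (node (nat_lit 4) (nat_lit
  31784) (nat_lit 11) nil nil)) nil) (node (nat_lit 5) (nat_lit 29894) (nat_lit 9) (node (nat_lit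
  4) (nat_lit 31170) (nat_lit 10) (node (nat_lit 6) (nat_lit 32138) (nat_lit 11) nil nil) nil)
  nil)) (node (nat_lit 0) (nat_lit 30706) (nat_lit 8) nil (node (nat_lit 2) (nat_lit 30611)
  (nat_lit 8) nil nil))) (node (nat_lit 0) (nat_lit 30101) (nat_lit 7) (node (nat_lit 4) (nat_lit
  31894) (nat_lit 8) nil (node (nat_lit 5) (nat_lit 31872) (nat_lit 8) (node (nat_lit 4) (nat_lit
  32693) (nat_lit 9) nil nil) (node (nat_lit 6) (nat_lit 31872) (nat_lit 8) (node (nat_lit 4)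
  (nat_lit 32652) (nat_lit 9) nil nil) nil))) (node (nat_lit 2) (nat_lit 30027) (nat_lit 7) (node
  (nat_lit 4) (nat_lit 31894) (nat_lit 8) (node (nat_lit 6) (nat_lit 32674) (nat_lit 9) nil nil)
  (node (nat_lit 5) (nat_lit 31798) (nat_lit 8) (node (nat_lit 6) (nat_lit 32578) (nat_lit 9)
  (node (nat_lit 5) (nat_lit 33118) (nat_lit 10) nil nil) (node (nat_lit 4) (nat_lit 32693)
  (nat_lit 9) nil nil)) (node (nat_lit 6) (nat_lit 31798) (nat_lit 8) nil nil))) nil))) (node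
  (nat_lit 2) (nat_lit 57400) (nat_lit 6) (node (nat_lit 6) (nat_lit 63358) (nat_lit 7) (node
  (nat_lit 4) (nat_lit 63686) (nat_lit 8) (node (nat_lit 5) (nat_lit 53752) (nat_lit 9) (node
  (nat_lit 6) (nat_lit 46785) (nat_lit 10) (node (nat_lit 5) (nat_lit 34417) (nat_lit 11) (node
  (nat_lit 4) (nat_lit 31004) (nat_lit 12) nil nil) nil) nil) nil) nil) (node (nat_lit 4) (nat_lit
  62057) (nat_lit 7) nil (node (nat_lit 5) (nat_lit 61982) (nat_lit 7) (node (nat_lit 6) (nat_lit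
  64439) (nat_lit 8) (node (nat_lit 5) (nat_lit 65398) (nat_lit 9) nil nil) (node (nat_lit 4)
  (nat_lit 63845) (nat_lit 8) (node (nat_lit 5) (nat_lit 62806) (nat_lit 9) (node (nat_lit 6)
  (nat_lit 58215) (nat_lit 10) (node (nat_lit 5) (nat_lit 37974) (nat_lit 11) nil nil) nil) nil)
  nil)) nil))) nil)))) (node (nat_lit 0) (nat_lit 58339) (nat_lit 5) (node (nat_lit 6) (nat_lit
  65422) (nat_lit 6) (node (nat_lit 5) (nat_lit 67259) (nat_lit 7) (node (nat_lit 6) (nat_lit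
  66133) (nat_lit 8) nil nil) nil) (node (nat_lit 4) (nat_lit 65780) (nat_lit 6) (node (nat_lit 6)
  (nat_lit 66980) (nat_lit 7) nil nil) (node (nat_lit 5) (nat_lit 65432) (nat_lit 6) (node
  (nat_lit 6) (nat_lit 66594) (nat_lit 7) nil (node (nat_lit 4) (nat_lit 66728) (nat_lit 7) (node
  (nat_lit 5) (nat_lit 67391) (nat_lit 8) (node (nat_lit 6) (nat_lit 67831) (nat_lit 9) nil nil)
  nil) nil)) nil))) (node (nat_lit 2) (nat_lit 0) (nat_lit 5) (node (nat_lit 4) (nat_lit 65466)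
  (nat_lit 6) (node (nat_lit 6) (nat_lit 66294) (nat_lit 7) (node (nat_lit 4) (nat_lit 67519)
  (nat_lit 8) (node (nat_lit 5) (nat_lit 68367) (nat_lit 9) (node (nat_lit 6) (nat_lit 67773)
  (nat_lit 10) (node (nat_lit 5) (nat_lit 67922) (nat_lit 11) (node (nat_lit 8) (nat_lit 66780)
  (nat_lit 12) (node (nat_lit 4) (nat_lit 30699) (nat_lit 13) nil nil) nil) nil) nil) nil) nil)
  (node (nat_lit 8) (nat_lit 66008) (nat_lit 7) (node (nat_lit 5) (nat_lit 65336) (nat_lit 8)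
  (node (nat_lit 6) (nat_lit 64201) (nat_lit 9) nil nil) nil) nil)) (node (nat_lit 6) (nat_lit
  49264) (nat_lit 6) (node (nat_lit 5) (nat_lit 49301) (nat_lit 7) (node (nat_lit 6) (nat_lit
  49311) (nat_lit 8) (node (nat_lit 8) (nat_lit 57814) (nat_lit 9) nil (node (nat_lit 4) (nat_lit
  60702) (nat_lit 9) nil nil)) (node (nat_lit 4) (nat_lit 65861) (nat_lit 8) nil (node (nat_lit 0)
  (nat_lit 65330) (nat_lit 8) nil nil))) (node (nat_lit 8) (nat_lit 49323) (nat_lit 7) (node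
  (nat_lit 5) (nat_lit 49375) (nat_lit 8) (node (nat_lit 8) (nat_lit 58714) (nat_lit 9) (node
  (nat_lit 6) (nat_lit 62444) (nat_lit 10) (node (nat_lit 5) (nat_lit 62246) (nat_lit 11) nil nil)
  nil) (node (nat_lit 6) (nat_lit 58912) (nat_lit 9) (node (nat_lit 8) (nat_lit 61842) (nat_lit
  10) nil nil) (node (nat_lit 4) (nat_lit 63876) (nat_lit 9) nil nil))) nil) (node (nat_lit 4)
  (nat_lit 64032) (nat_lit 7) (node (nat_lit 5) (nat_lit 60486) (nat_lit 8) (node (nat_lit 6)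
  (nat_lit 45897) (nat_lit 9) (node (nat_lit 5) (nat_lit 32979) (nat_lit 10) nil nil) nil) nil)
  (node (nat_lit 0) (nat_lit 66810) (nat_lit 7) nil nil)))) (node (nat_lit 5) (nat_lit 49263)
  (nat_lit 6) (node (nat_lit 6) (nat_lit 49280) (nat_lit 7) (node (nat_lit 8) (nat_lit 49229)
  (nat_lit 8) (node (nat_lit 6) (nat_lit 56797) (nat_lit 9) (node (nat_lit 4) (nat_lit 59161)
  (nat_lit 10) (node (nat_lit 5) (nat_lit 56408) (nat_lit 11) (node (nat_lit 6) (nat_lit 55573)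
  (nat_lit 12) (node (nat_lit 5) (nat_lit 51071) (nat_lit 13) (node (nat_lit 8) (nat_lit 44908)
  (nat_lit 14) nil nil) nil) nil) nil) nil) (node (nat_lit 5) (nat_lit 56966) (nat_lit 9) nil
  nil)) (node (nat_lit 4) (nat_lit 60602) (nat_lit 8) nil nil)) (node (nat_lit 4) (nat_lit 66374)
  (nat_lit 7) (node (nat_lit 5) (nat_lit 63538) (nat_lit 8) (node (nat_lit 6) (nat_lit 53488)
  (nat_lit 9) (node (nat_lit 5) (nat_lit 34579) (nat_lit 10) nil nil) nil) nil) (node (nat_lit 0)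
  (nat_lit 63779) (nat_lit 7) nil nil))) (node (nat_lit 0) (nat_lit 63487) (nat_lit 6) nil nil))))
  nil))) (node (nat_lit 2) (nat_lit 0) (nat_lit 4) (node (nat_lit 5) (nat_lit 0) (nat_lit 5) (node
  (nat_lit 6) (nat_lit 49273) (nat_lit 6) (node (nat_lit 5) (nat_lit 49273) (nat_lit 7) (node
  (nat_lit 7) (nat_lit 49301) (nat_lit 8) (node (nat_lit 5) (nat_lit 57297) (nat_lit 9) (node
  (nat_lit 6) (nat_lit 58239) (nat_lit 10) (node (nat_lit 7) (nat_lit 56739) (nat_lit 11) nil nil)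
  (node (nat_lit 4) (nat_lit 59297) (nat_lit 10) nil (node (nat_lit 0) (nat_lit 60145) (nat_lit
  10) nil nil))) (node (nat_lit 6) (nat_lit 56952) (nat_lit 9) (node (nat_lit 5) (nat_lit 59875)
  (nat_lit 10) nil (node (nat_lit 7) (nat_lit 59404) (nat_lit 10) nil nil)) (node (nat_lit 4)
  (nat_lit 61585) (nat_lit 9) nil (node (nat_lit 0) (nat_lit 61023) (nat_lit 9) nil nil)))) (node
  (nat_lit 4) (nat_lit 60249) (nat_lit 8) nil (node (nat_lit 0) (nat_lit 62591) (nat_lit 8) nil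
  nil))) (node (nat_lit 4) (nat_lit 59939) (nat_lit 7) (node (nat_lit 7) (nat_lit 60602) (nat_lit
  8) nil (node (nat_lit 5) (nat_lit 55354) (nat_lit 8) (node (nat_lit 6) (nat_lit 36821) (nat_lit
  9) (node (nat_lit 7) (nat_lit 34344) (nat_lit 10) nil nil) nil) nil)) (node (nat_lit 0) (nat_lit
  62342) (nat_lit 7) nil nil))) (node (nat_lit 4) (nat_lit 63478) (nat_lit 6) (node (nat_lit 7)
  (nat_lit 63478) (nat_lit 7) nil (node (nat_lit 5) (nat_lit 54009) (nat_lit 7) (node (nat_lit 6)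
  (nat_lit 32210) (nat_lit 8) nil nil) (node (nat_lit 6) (nat_lit 63478) (nat_lit 7) nil nil)))
  (node (nat_lit 7) (nat_lit 49270) (nat_lit 6) (node (nat_lit 6) (nat_lit 49270) (nat_lit 7)
  (node (nat_lit 5) (nat_lit 49381) (nat_lit 8) (node (nat_lit 7) (nat_lit 55267) (nat_lit 9)
  (node (nat_lit 5) (nat_lit 55938) (nat_lit 10) nil nil) (node (nat_lit 6) (nat_lit 56982)
  (nat_lit 9) nil (node (nat_lit 4) (nat_lit 59934) (nat_lit 9) nil nil))) (node (nat_lit 7)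
  (nat_lit 49219) (nat_lit 8) (node (nat_lit 5) (nat_lit 55267) (nat_lit 9) nil nil) (node
  (nat_lit 4) (nat_lit 61074) (nat_lit 8) nil (node (nat_lit 0) (nat_lit 64082) (nat_lit 8) nil
  nil)))) (node (nat_lit 4) (nat_lit 66685) (nat_lit 7) nil (node (nat_lit 0) (nat_lit 62412)
  (nat_lit 7) nil nil))) (node (nat_lit 0) (nat_lit 65160) (nat_lit 6) (node (nat_lit 5) (nat_lit
  63420) (nat_lit 7) nil nil) nil)))) (node (nat_lit 4) (nat_lit 0) (nat_lit 5) (node (nat_lit 6)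
  (nat_lit 66259) (nat_lit 6) (node (nat_lit 4) (nat_lit 67847) (nat_lit 7) (node (nat_lit 7)
  (nat_lit 67370) (nat_lit 8) nil (node (nat_lit 5) (nat_lit 68796) (nat_lit 8) (node (nat_lit 6)
  (nat_lit 69255) (nat_lit 9) (node (nat_lit 7) (nat_lit 68308) (nat_lit 10) (node (nat_lit 4)
  (nat_lit 35614) (nat_lit 11) nil nil) nil) nil) nil)) (node (nat_lit 5) (nat_lit 67681) (nat_lit
  7) (node (nat_lit 4) (nat_lit 68632) (nat_lit 8) (node (nat_lit 5) (nat_lit 62300) (nat_lit 9)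
  (node (nat_lit 6) (nat_lit 55543) (nat_lit 10) nil nil) nil) (node (nat_lit 6) (nat_lit 68632)
  (nat_lit 8) (node (nat_lit 4) (nat_lit 68185) (nat_lit 9) (node (nat_lit 5) (nat_lit 66209)
  (nat_lit 10) (node (nat_lit 6) (nat_lit 61416) (nat_lit 11) nil nil) (node (nat_lit 7) (nat_lit
  67237) (nat_lit 10) (node (nat_lit 5) (nat_lit 66487) (nat_lit 11) nil nil) nil)) (node (nat_lit
  0) (nat_lit 69091) (nat_lit 9) (node (nat_lit 5) (nat_lit 68143) (nat_lit 10) nil (node (nat_lit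
  6) (nat_lit 69439) (nat_lit 10) nil nil)) nil)) nil)) (node (nat_lit 0) (nat_lit 67339) (nat_lit
  7) nil nil))) (node (nat_lit 7) (nat_lit 66237) (nat_lit 6) (node (nat_lit 6) (nat_lit 67151)
  (nat_lit 7) (node (nat_lit 4) (nat_lit 65637) (nat_lit 8) nil (node (nat_lit 5) (nat_lit 66068)
  (nat_lit 8) nil nil)) (node (nat_lit 5) (nat_lit 67351) (nat_lit 7) (node (nat_lit 6) (nat_lit
  68059) (nat_lit 8) (node (nat_lit 7) (nat_lit 68185) (nat_lit 9) (node (nat_lit 6) (nat_lit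
  67987) (nat_lit 10) (node (nat_lit 4) (nat_lit 65623) (nat_lit 11) nil nil) (node (nat_lit 5)
  (nat_lit 68451) (nat_lit 10) (node (nat_lit 4) (nat_lit 68684) (nat_lit 11) nil nil) nil)) nil)
  (node (nat_lit 4) (nat_lit 68783) (nat_lit 8) (node (nat_lit 5) (nat_lit 69326) (nat_lit 9)
  (node (nat_lit 6) (nat_lit 64301) (nat_lit 10) (node (nat_lit 7) (nat_lit 53009) (nat_lit 11)
  (node (nat_lit 4) (nat_lit 32381) (nat_lit 12) nil nil) nil) nil) nil) nil)) nil)) (node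
  (nat_lit 5) (nat_lit 66259) (nat_lit 6) nil (node (nat_lit 0) (nat_lit 64713) (nat_lit 6) nil
  nil)))) (node (nat_lit 6) (nat_lit 0) (nat_lit 5) (node (nat_lit 5) (nat_lit 49266) (nat_lit 6)
  (node (nat_lit 7) (nat_lit 49266) (nat_lit 7) (node (nat_lit 5) (nat_lit 49315) (nat_lit 8)
  (node (nat_lit 6) (nat_lit 56369) (nat_lit 9) (node (nat_lit 7) (nat_lit 58029) (nat_lit 10)
  (node (nat_lit 6) (nat_lit 55816) (nat_lit 11) (node (nat_lit 5) (nat_lit 53567) (nat_lit 12)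
  nil nil) (node (nat_lit 5) (nat_lit 59845) (nat_lit 11) nil nil)) (node (nat_lit 5) (nat_lit
  58609) (nat_lit 10) (node (nat_lit 4) (nat_lit 60244) (nat_lit 11) nil nil) (node (nat_lit 4)
  (nat_lit 58962) (nat_lit 10) (node (nat_lit 5) (nat_lit 55561) (nat_lit 11) nil nil) nil)))
  (node (nat_lit 4) (nat_lit 59879) (nat_lit 9) (node (nat_lit 5) (nat_lit 58994) (nat_lit 10)
  (node (nat_lit 6) (nat_lit 53515) (nat_lit 11) (node (nat_lit 7) (nat_lit 46951) (nat_lit 12)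
  (node (nat_lit 6) (nat_lit 39819) (nat_lit 13) (node (nat_lit 5) (nat_lit 24769) (nat_lit 14)
  nil nil) nil) nil) nil) nil) (node (nat_lit 0) (nat_lit 59879) (nat_lit 9) nil nil))) (node
  (nat_lit 6) (nat_lit 49266) (nat_lit 8) (node (nat_lit 7) (nat_lit 55049) (nat_lit 9) (node
  (nat_lit 5) (nat_lit 57722) (nat_lit 10) nil nil) nil) (node (nat_lit 4) (nat_lit 61441)
  (nat_lit 8) nil (node (nat_lit 0) (nat_lit 58693) (nat_lit 8) nil nil)))) (node (nat_lit 6)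
  (nat_lit 49266) (nat_lit 7) (node (nat_lit 7) (nat_lit 49361) (nat_lit 8) (node (nat_lit 5)
  (nat_lit 57560) (nat_lit 9) (node (nat_lit 7) (nat_lit 59989) (nat_lit 10) nil (node (nat_lit 6)
  (nat_lit 59008) (nat_lit 10) nil nil)) (node (nat_lit 4) (nat_lit 59879) (nat_lit 9) nil (node
  (nat_lit 0) (nat_lit 59879) (nat_lit 9) nil nil))) (node (nat_lit 4) (nat_lit 59175) (nat_lit 8)
  (node (nat_lit 5) (nat_lit 51252) (nat_lit 9) (node (nat_lit 6) (nat_lit 51073) (nat_lit 10)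
  (node (nat_lit 7) (nat_lit 36821) (nat_lit 11) nil nil) nil) (node (nat_lit 7) (nat_lit 58026)
  (nat_lit 9) (node (nat_lit 5) (nat_lit 57079) (nat_lit 10) nil nil) nil)) (node (nat_lit 0)
  (nat_lit 59283) (nat_lit 8) nil nil))) (node (nat_lit 4) (nat_lit 61554) (nat_lit 7) (node
  (nat_lit 5) (nat_lit 57490) (nat_lit 8) (node (nat_lit 6) (nat_lit 47359) (nat_lit 9) (node
  (nat_lit 7) (nat_lit 24907) (nat_lit 10) nil nil) nil) nil) (node (nat_lit 0) (nat_lit 60660)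
  (nat_lit 7) nil nil)))) (node (nat_lit 4) (nat_lit 60412) (nat_lit 6) (node (nat_lit 5) (nat_lit
  56750) (nat_lit 7) (node (nat_lit 6) (nat_lit 36448) (nat_lit 8) (node (nat_lit 5) (nat_lit
  35768) (nat_lit 9) (node (nat_lit 4) (nat_lit 35298) (nat_lit 10) nil nil) nil) (node (nat_lit
  7) (nat_lit 55666) (nat_lit 8) nil (node (nat_lit 4) (nat_lit 57809) (nat_lit 8) nil nil)))
  (node (nat_lit 7) (nat_lit 62273) (nat_lit 7) (node (nat_lit 4) (nat_lit 62936) (nat_lit 8)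
  (node (nat_lit 6) (nat_lit 63395) (nat_lit 9) (node (nat_lit 7) (nat_lit 62448) (nat_lit 10)
  (node (nat_lit 6) (nat_lit 62274) (nat_lit 11) (node (nat_lit 4) (nat_lit 62208) (nat_lit 12)
  nil nil) nil) (node (nat_lit 4) (nat_lit 63744) (nat_lit 10) nil nil)) nil) (node (nat_lit 5)
  (nat_lit 63528) (nat_lit 8) (node (nat_lit 6) (nat_lit 63539) (nat_lit 9) (node (nat_lit 7)
  (nat_lit 61938) (nat_lit 10) (node (nat_lit 6) (nat_lit 61015) (nat_lit 11) nil nil) nil) (node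
  (nat_lit 4) (nat_lit 63986) (nat_lit 9) (node (nat_lit 5) (nat_lit 63124) (nat_lit 10) (node
  (nat_lit 6) (nat_lit 58042) (nat_lit 11) (node (nat_lit 7) (nat_lit 50735) (nat_lit 12) nil nil)
  nil) nil) nil)) nil)) nil)) (node (nat_lit 0) (nat_lit 59913) (nat_lit 6) (node (nat_lit 5)
  (nat_lit 58173) (nat_lit 7) (node (nat_lit 6) (nat_lit 57504) (nat_lit 8) nil nil) (node
  (nat_lit 6) (nat_lit 60920) (nat_lit 7) nil nil)) nil))) (node (nat_lit 0) (nat_lit 62605)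
  (nat_lit 5) (node (nat_lit 6) (nat_lit 62829) (nat_lit 6) (node (nat_lit 4) (nat_lit 64690)
  (nat_lit 7) nil nil) (node (nat_lit 5) (nat_lit 65480) (nat_lit 6) (node (nat_lit 4) (nat_lit
  66487) (nat_lit 7) (node (nat_lit 5) (nat_lit 67150) (nat_lit 8) nil nil) nil) (node (nat_lit 7)
  (nat_lit 64127) (nat_lit 6) nil (node (nat_lit 4) (nat_lit 64182) (nat_lit 6) nil nil))))
  nil)))) nil))

noncomputable def t29 : Tr :=
  (node (nat_lit 4) (nat_lit 0) (nat_lit 4) (node (nat_lit 6) (nat_lit 0) (nat_lit 5) t27 (node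
  (nat_lit 0) (nat_lit 0) (nat_lit 5) (node (nat_lit 5) (nat_lit 47514) (nat_lit 6) (node (nat_lit
  6) (nat_lit 48521) (nat_lit 7) nil (node (nat_lit 4) (nat_lit 48521) (nat_lit 7) (node (nat_lit
  5) (nat_lit 49184) (nat_lit 8) (node (nat_lit 6) (nat_lit 49643) (nat_lit 9) (node (nat_lit 4)
  (nat_lit 49991) (nat_lit 10) nil nil) nil) nil) (node (nat_lit 8) (nat_lit 48521) (nat_lit 7)
  (node (nat_lit 4) (nat_lit 49184) (nat_lit 8) nil nil) (node (nat_lit 0) (nat_lit 48521)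
  (nat_lit 7) nil (node (nat_lit 2) (nat_lit 45774) (nat_lit 7) nil nil))))) (node (nat_lit 4)
  (nat_lit 47038) (nat_lit 6) (node (nat_lit 6) (nat_lit 48045) (nat_lit 7) (node (nat_lit 4)
  (nat_lit 48709) (nat_lit 8) nil nil) (node (nat_lit 5) (nat_lit 48285) (nat_lit 7) nil (node
  (nat_lit 0) (nat_lit 48045) (nat_lit 7) nil (node (nat_lit 2) (nat_lit 48017) (nat_lit 7) (node
  (nat_lit 5) (nat_lit 48680) (nat_lit 8) nil nil) nil)))) (node (nat_lit 6) (nat_lit 47038)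
  (nat_lit 6) (node (nat_lit 8) (nat_lit 48285) (nat_lit 7) (node (nat_lit 4) (nat_lit 48948)
  (nat_lit 8) nil nil) (node (nat_lit 5) (nat_lit 48045) (nat_lit 7) (node (nat_lit 4) (nat_lit
  48482) (nat_lit 8) nil nil) (node (nat_lit 4) (nat_lit 48045) (nat_lit 7) (node (nat_lit 5)
  (nat_lit 48709) (nat_lit 8) (node (nat_lit 6) (nat_lit 49167) (nat_lit 9) (node (nat_lit 4)
  (nat_lit 49516) (nat_lit 10) nil nil) nil) nil) nil))) (node (nat_lit 0) (nat_lit 47488)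
  (nat_lit 6) (node (nat_lit 4) (nat_lit 48495) (nat_lit 7) nil (node (nat_lit 8) (nat_lit 48495)
  (nat_lit 7) nil (node (nat_lit 5) (nat_lit 48495) (nat_lit 7) nil (node (nat_lit 6) (nat_lit
  48495) (nat_lit 7) nil nil)))) (node (nat_lit 2) (nat_lit 47038) (nat_lit 6) (node (nat_lit 4)
  (nat_lit 48045) (nat_lit 7) nil (node (nat_lit 8) (nat_lit 48045) (nat_lit 7) nil (node (nat_lit
  6) (nat_lit 45479) (nat_lit 7) nil (node (nat_lit 5) (nat_lit 48045) (nat_lit 7) nil nil))))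
  nil))))) (node (nat_lit 5) (nat_lit 0) (nat_lit 5) (node (nat_lit 4) (nat_lit 26344) (nat_lit 6)
  (node (nat_lit 6) (nat_lit 33372) (nat_lit 7) (node (nat_lit 5) (nat_lit 34744) (nat_lit 8)
  (node (nat_lit 6) (nat_lit 35309) (nat_lit 9) nil (node (nat_lit 4) (nat_lit 33381) (nat_lit 9)
  (node (nat_lit 5) (nat_lit 34047) (nat_lit 10) (node (nat_lit 6) (nat_lit 30863) (nat_lit 11)
  (node (nat_lit 4) (nat_lit 23858) (nat_lit 12) nil nil) nil) (node (nat_lit 0) (nat_lit 34047)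
  (nat_lit 10) nil (node (nat_lit 2) (nat_lit 32718) (nat_lit 10) nil nil))) (node (nat_lit 0)
  (nat_lit 35614) (nat_lit 9) nil (node (nat_lit 2) (nat_lit 34029) (nat_lit 9) nil nil)))) (node
  (nat_lit 4) (nat_lit 34558) (nat_lit 8) nil (node (nat_lit 0) (nat_lit 35614) (nat_lit 8) nil
  (node (nat_lit 2) (nat_lit 34531) (nat_lit 8) nil nil)))) (node (nat_lit 0) (nat_lit 34983)
  (nat_lit 7) (node (nat_lit 5) (nat_lit 35614) (nat_lit 8) (node (nat_lit 4) (nat_lit 35614)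
  (nat_lit 9) nil nil) (node (nat_lit 6) (nat_lit 34213) (nat_lit 8) nil nil)) (node (nat_lit 2)
  (nat_lit 35614) (nat_lit 7) (node (nat_lit 5) (nat_lit 35614) (nat_lit 8) (node (nat_lit 6)
  (nat_lit 35472) (nat_lit 9) (node (nat_lit 4) (nat_lit 35614) (nat_lit 10) (node (nat_lit 5)
  (nat_lit 35614) (nat_lit 11) nil nil) nil) nil) (node (nat_lit 6) (nat_lit 35614) (nat_lit 8)
  (node (nat_lit 4) (nat_lit 35614) (nat_lit 9) nil (node (nat_lit 5) (nat_lit 34908) (nat_lit 9)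
  nil nil)) nil)) nil))) (node (nat_lit 0) (nat_lit 34260) (nat_lit 6) (node (nat_lit 4) (nat_lit
  34702) (nat_lit 7) nil (node (nat_lit 5) (nat_lit 34260) (nat_lit 7) (node (nat_lit 4) (nat_lit
  34981) (nat_lit 8) (node (nat_lit 5) (nat_lit 34981) (nat_lit 9) nil nil) nil) (node (nat_lit 6)
  (nat_lit 34260) (nat_lit 7) (node (nat_lit 5) (nat_lit 33524) (nat_lit 8) (node (nat_lit 4)
  (nat_lit 32119) (nat_lit 9) (node (nat_lit 5) (nat_lit 29620) (nat_lit 10) nil nil) nil) nil)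
  (node (nat_lit 0) (nat_lit 34702) (nat_lit 7) nil (node (nat_lit 2) (nat_lit 33558) (nat_lit 7)
  nil nil))))) (node (nat_lit 2) (nat_lit 33490) (nat_lit 6) (node (nat_lit 4) (nat_lit 35273)
  (nat_lit 7) (node (nat_lit 6) (nat_lit 35273) (nat_lit 8) (node (nat_lit 5) (nat_lit 35030)
  (nat_lit 9) nil nil) nil) (node (nat_lit 5) (nat_lit 31365) (nat_lit 7) (node (nat_lit 4)
  (nat_lit 30747) (nat_lit 8) (node (nat_lit 5) (nat_lit 25484) (nat_lit 9) (node (nat_lit 6)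
  (nat_lit 19283) (nat_lit 10) nil nil) nil) nil) (node (nat_lit 6) (nat_lit 33490) (nat_lit 7)
  (node (nat_lit 5) (nat_lit 33524) (nat_lit 8) (node (nat_lit 4) (nat_lit 31994) (nat_lit 9)
  (node (nat_lit 5) (nat_lit 29200) (nat_lit 10) (node (nat_lit 6) (nat_lit 19039) (nat_lit 11)
  (node (nat_lit 4) (nat_lit 13967) (nat_lit 12) nil nil) nil) nil) nil) (node (nat_lit 9)
  (nat_lit 32753) (nat_lit 8) nil nil)) (node (nat_lit 0) (nat_lit 35273) (nat_lit 7) (node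
  (nat_lit 5) (nat_lit 35273) (nat_lit 8) nil nil) nil)))) nil))) (node (nat_lit 2) (nat_lit 0)
  (nat_lit 5) (node (nat_lit 5) (nat_lit 47516) (nat_lit 6) (node (nat_lit 6) (nat_lit 48523)
  (nat_lit 7) (node (nat_lit 5) (nat_lit 49450) (nat_lit 8) (node (nat_lit 8) (nat_lit 49909)
  (nat_lit 9) (node (nat_lit 6) (nat_lit 50257) (nat_lit 10) (node (nat_lit 8) (nat_lit 50564)
  (nat_lit 11) (node (nat_lit 5) (nat_lit 50843) (nat_lit 12) nil nil) (node (nat_lit 5) (nat_lit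
  50564) (nat_lit 11) nil (node (nat_lit 4) (nat_lit 50564) (nat_lit 11) nil nil))) (node (nat_lit
  5) (nat_lit 50257) (nat_lit 10) (node (nat_lit 4) (nat_lit 50564) (nat_lit 11) nil nil) (node
  (nat_lit 4) (nat_lit 50257) (nat_lit 10) nil nil))) (node (nat_lit 4) (nat_lit 49909) (nat_lit
  9) (node (nat_lit 6) (nat_lit 50257) (nat_lit 10) (node (nat_lit 8) (nat_lit 50564) (nat_lit 11)
  (node (nat_lit 5) (nat_lit 50843) (nat_lit 12) (node (nat_lit 6) (nat_lit 51069) (nat_lit 13)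
  nil nil) nil) (node (nat_lit 4) (nat_lit 50564) (nat_lit 11) (node (nat_lit 5) (nat_lit 50843)
  (nat_lit 12) (node (nat_lit 6) (nat_lit 51069) (nat_lit 13) nil nil) nil) nil)) (node (nat_lit
  8) (nat_lit 50257) (nat_lit 10) (node (nat_lit 5) (nat_lit 50657) (nat_lit 11) (node (nat_lit 8)
  (nat_lit 50936) (nat_lit 12) (node (nat_lit 4) (nat_lit 51162) (nat_lit 13) nil nil) (node
  (nat_lit 4) (nat_lit 50936) (nat_lit 12) nil nil)) (node (nat_lit 6) (nat_lit 48956) (nat_lit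
  11) (node (nat_lit 4) (nat_lit 48566) (nat_lit 12) nil nil) nil)) (node (nat_lit 5) (nat_lit
  50257) (nat_lit 10) (node (nat_lit 6) (nat_lit 47761) (nat_lit 11) (node (nat_lit 4) (nat_lit
  42849) (nat_lit 12) nil nil) nil) (node (nat_lit 0) (nat_lit 50257) (nat_lit 10) nil nil))))
  (node (nat_lit 0) (nat_lit 49909) (nat_lit 9) (node (nat_lit 6) (nat_lit 50257) (nat_lit 10) nil
  (node (nat_lit 5) (nat_lit 50257) (nat_lit 10) nil nil)) nil))) (node (nat_lit 8) (nat_lit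
  49186) (nat_lit 8) (node (nat_lit 4) (nat_lit 49645) (nat_lit 9) (node (nat_lit 5) (nat_lit
  49993) (nat_lit 10) (node (nat_lit 4) (nat_lit 50301) (nat_lit 11) nil nil) (node (nat_lit 8)
  (nat_lit 49993) (nat_lit 10) (node (nat_lit 5) (nat_lit 50626) (nat_lit 11) (node (nat_lit 4)
  (nat_lit 50905) (nat_lit 12) (node (nat_lit 6) (nat_lit 51131) (nat_lit 13) nil (node (nat_lit
  5) (nat_lit 51131) (nat_lit 13) nil nil)) (node (nat_lit 8) (nat_lit 50057) (nat_lit 12) nil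
  nil)) nil) (node (nat_lit 6) (nat_lit 49993) (nat_lit 10) nil nil))) (node (nat_lit 6) (nat_lit
  49645) (nat_lit 9) (node (nat_lit 5) (nat_lit 49993) (nat_lit 10) (node (nat_lit 8) (nat_lit
  49243) (nat_lit 11) nil (node (nat_lit 4) (nat_lit 50301) (nat_lit 11) nil nil)) (node (nat_lit
  4) (nat_lit 49993) (nat_lit 10) nil nil)) (node (nat_lit 5) (nat_lit 49887) (nat_lit 9) (node
  (nat_lit 8) (nat_lit 50235) (nat_lit 10) (node (nat_lit 6) (nat_lit 50542) (nat_lit 11) (node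
  (nat_lit 5) (nat_lit 50821) (nat_lit 12) nil nil) nil) (node (nat_lit 4) (nat_lit 50235)
  (nat_lit 10) (node (nat_lit 6) (nat_lit 50542) (nat_lit 11) nil nil) nil)) (node (nat_lit 0)
  (nat_lit 49887) (nat_lit 9) (node (nat_lit 8) (nat_lit 48940) (nat_lit 10) nil nil) nil))))
  (node (nat_lit 0) (nat_lit 49450) (nat_lit 8) (node (nat_lit 5) (nat_lit 49909) (nat_lit 9) nil
  (node (nat_lit 6) (nat_lit 49909) (nat_lit 9) nil (node (nat_lit 4) (nat_lit 49909) (nat_lit 9)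
  nil (node (nat_lit 8) (nat_lit 49909) (nat_lit 9) nil (node (nat_lit 0) (nat_lit 49909) (nat_lit
  9) nil nil))))) nil))) (node (nat_lit 4) (nat_lit 48523) (nat_lit 7) (node (nat_lit 8) (nat_lit
  49186) (nat_lit 8) (node (nat_lit 4) (nat_lit 49645) (nat_lit 9) (node (nat_lit 5) (nat_lit
  49993) (nat_lit 10) (node (nat_lit 8) (nat_lit 49243) (nat_lit 11) (node (nat_lit 5) (nat_lit
  49522) (nat_lit 12) (node (nat_lit 4) (nat_lit 49748) (nat_lit 13) nil nil) nil) nil) nil) (node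
  (nat_lit 6) (nat_lit 49645) (nat_lit 9) (node (nat_lit 5) (nat_lit 49993) (nat_lit 10) (node
  (nat_lit 4) (nat_lit 50301) (nat_lit 11) nil nil) (node (nat_lit 4) (nat_lit 48872) (nat_lit 10)
  nil nil)) nil)) (node (nat_lit 5) (nat_lit 49000) (nat_lit 8) (node (nat_lit 8) (nat_lit 47527)
  (nat_lit 9) (node (nat_lit 6) (nat_lit 46773) (nat_lit 10) nil nil) (node (nat_lit 6) (nat_lit
  36782) (nat_lit 9) (node (nat_lit 4) (nat_lit 13435) (nat_lit 10) (node (nat_lit 8) (nat_lit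
  12685) (nat_lit 11) nil nil) nil) nil)) (node (nat_lit 6) (nat_lit 49186) (nat_lit 8) (node
  (nat_lit 5) (nat_lit 49645) (nat_lit 9) (node (nat_lit 4) (nat_lit 49993) (nat_lit 10) nil nil)
  (node (nat_lit 4) (nat_lit 49645) (nat_lit 9) nil nil)) (node (nat_lit 0) (nat_lit 49367)
  (nat_lit 8) nil nil)))) (node (nat_lit 8) (nat_lit 48523) (nat_lit 7) (node (nat_lit 4) (nat_lit
  49186) (nat_lit 8) (node (nat_lit 5) (nat_lit 49645) (nat_lit 9) (node (nat_lit 8) (nat_lit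
  48698) (nat_lit 10) (node (nat_lit 5) (nat_lit 49005) (nat_lit 11) nil nil) nil) (node (nat_lit
  6) (nat_lit 49645) (nat_lit 9) (node (nat_lit 4) (nat_lit 49993) (nat_lit 10) nil nil) nil))
  (node (nat_lit 6) (nat_lit 49186) (nat_lit 8) (node (nat_lit 5) (nat_lit 49887) (nat_lit 9)
  (node (nat_lit 4) (nat_lit 50235) (nat_lit 10) nil nil) nil) (node (nat_lit 0) (nat_lit 49367)
  (nat_lit 8) (node (nat_lit 5) (nat_lit 49826) (nat_lit 9) nil nil) nil))) (node (nat_lit 0)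
  (nat_lit 48726) (nat_lit 7) (node (nat_lit 5) (nat_lit 49389) (nat_lit 8) (node (nat_lit 4)
  (nat_lit 49848) (nat_lit 9) nil nil) (node (nat_lit 4) (nat_lit 49389) (nat_lit 8) nil (node
  (nat_lit 8) (nat_lit 49389) (nat_lit 8) nil (node (nat_lit 6) (nat_lit 49389) (nat_lit 8) nil
  nil)))) nil)))) (node (nat_lit 4) (nat_lit 42722) (nat_lit 6) (node (nat_lit 6) (nat_lit 43730)
  (nat_lit 7) (node (nat_lit 8) (nat_lit 44393) (nat_lit 8) (node (nat_lit 6) (nat_lit 44852)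
  (nat_lit 9) (node (nat_lit 4) (nat_lit 45337) (nat_lit 10) (node (nat_lit 8) (nat_lit 45645)
  (nat_lit 11) nil (node (nat_lit 5) (nat_lit 41935) (nat_lit 11) (node (nat_lit 6) (nat_lit
  36821) (nat_lit 12) (node (nat_lit 4) (nat_lit 36821) (nat_lit 13) (node (nat_lit 8) (nat_lit
  36821) (nat_lit 14) nil nil) nil) nil) nil)) (node (nat_lit 5) (nat_lit 45200) (nat_lit 10) nil
  nil)) (node (nat_lit 5) (nat_lit 44852) (nat_lit 9) nil (node (nat_lit 4) (nat_lit 44852)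
  (nat_lit 9) nil nil))) (node (nat_lit 4) (nat_lit 44393) (nat_lit 8) (node (nat_lit 5) (nat_lit
  45949) (nat_lit 9) (node (nat_lit 6) (nat_lit 46297) (nat_lit 10) (node (nat_lit 4) (nat_lit
  46604) (nat_lit 11) (node (nat_lit 8) (nat_lit 46035) (nat_lit 12) nil nil) nil) nil) (node
  (nat_lit 8) (nat_lit 44852) (nat_lit 9) (node (nat_lit 6) (nat_lit 43140) (nat_lit 10) nil nil)
  (node (nat_lit 0) (nat_lit 47082) (nat_lit 9) nil nil))) (node (nat_lit 5) (nat_lit 47442)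
  (nat_lit 8) (node (nat_lit 4) (nat_lit 47901) (nat_lit 9) nil nil) (node (nat_lit 0) (nat_lit
  46498) (nat_lit 8) nil nil)))) (node (nat_lit 5) (nat_lit 47731) (nat_lit 7) (node (nat_lit 8)
  (nat_lit 48394) (nat_lit 8) (node (nat_lit 5) (nat_lit 48853) (nat_lit 9) (node (nat_lit 4)
  (nat_lit 49201) (nat_lit 10) (node (nat_lit 5) (nat_lit 49508) (nat_lit 11) nil nil) nil) (node
  (nat_lit 6) (nat_lit 48853) (nat_lit 9) (node (nat_lit 5) (nat_lit 49201) (nat_lit 10) nil (node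
  (nat_lit 4) (nat_lit 48481) (nat_lit 10) (node (nat_lit 5) (nat_lit 47440) (nat_lit 11) nil nil)
  nil)) nil)) (node (nat_lit 4) (nat_lit 48394) (nat_lit 8) nil (node (nat_lit 0) (nat_lit 48394)
  (nat_lit 8) nil nil))) (node (nat_lit 0) (nat_lit 47222) (nat_lit 7) (node (nat_lit 6) (nat_lit
  47885) (nat_lit 8) nil (node (nat_lit 5) (nat_lit 47885) (nat_lit 8) nil nil)) nil))) (node
  (nat_lit 6) (nat_lit 42758) (nat_lit 6) (node (nat_lit 8) (nat_lit 43765) (nat_lit 7) (node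
  (nat_lit 4) (nat_lit 44428) (nat_lit 8) (node (nat_lit 6) (nat_lit 44887) (nat_lit 9) (node
  (nat_lit 4) (nat_lit 45854) (nat_lit 10) (node (nat_lit 8) (nat_lit 45104) (nat_lit 11) nil nil)
  nil) (node (nat_lit 8) (nat_lit 44887) (nat_lit 9) (node (nat_lit 5) (nat_lit 46380) (nat_lit
  10) (node (nat_lit 4) (nat_lit 46687) (nat_lit 11) nil nil) (node (nat_lit 6) (nat_lit 43175)
  (nat_lit 10) (node (nat_lit 4) (nat_lit 42506) (nat_lit 11) nil nil) (node (nat_lit 0) (nat_lit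
  45235) (nat_lit 10) nil nil))) (node (nat_lit 5) (nat_lit 44887) (nat_lit 9) nil nil))) (node
  (nat_lit 5) (nat_lit 47595) (nat_lit 8) nil nil)) (node (nat_lit 5) (nat_lit 47766) (nat_lit 7)
  (node (nat_lit 4) (nat_lit 48429) (nat_lit 8) (node (nat_lit 5) (nat_lit 48888) (nat_lit 9)
  (node (nat_lit 6) (nat_lit 40657) (nat_lit 10) (node (nat_lit 4) (nat_lit 32706) (nat_lit 11)
  nil nil) nil) (node (nat_lit 6) (nat_lit 48888) (nat_lit 9) nil nil)) (node (nat_lit 8) (nat_lit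
  48429) (nat_lit 8) (node (nat_lit 5) (nat_lit 48888) (nat_lit 9) (node (nat_lit 4) (nat_lit
  49236) (nat_lit 10) nil nil) (node (nat_lit 6) (nat_lit 48792) (nat_lit 9) (node (nat_lit 8)
  (nat_lit 49140) (nat_lit 10) (node (nat_lit 5) (nat_lit 49447) (nat_lit 11) nil nil) nil) nil))
  (node (nat_lit 6) (nat_lit 48429) (nat_lit 8) nil nil))) (node (nat_lit 4) (nat_lit 43765)
  (nat_lit 7) (node (nat_lit 6) (nat_lit 44428) (nat_lit 8) (node (nat_lit 8) (nat_lit 44887)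
  (nat_lit 9) (node (nat_lit 4) (nat_lit 45121) (nat_lit 10) (node (nat_lit 8) (nat_lit 45351)
  (nat_lit 11) (node (nat_lit 6) (nat_lit 45578) (nat_lit 12) nil nil) nil) nil) nil) (node
  (nat_lit 5) (nat_lit 36821) (nat_lit 8) (node (nat_lit 6) (nat_lit 36242) (nat_lit 9) (node
  (nat_lit 4) (nat_lit 34039) (nat_lit 10) nil nil) nil) nil)) (node (nat_lit 0) (nat_lit 47101)
  (nat_lit 7) (node (nat_lit 6) (nat_lit 47764) (nat_lit 8) nil (node (nat_lit 5) (nat_lit 47764)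
  (nat_lit 8) nil nil)) nil)))) (node (nat_lit 0) (nat_lit 46781) (nat_lit 6) (node (nat_lit 4)
  (nat_lit 47789) (nat_lit 7) (node (nat_lit 6) (nat_lit 48452) (nat_lit 8) nil nil) (node
  (nat_lit 8) (nat_lit 47670) (nat_lit 7) (node (nat_lit 5) (nat_lit 48333) (nat_lit 8) nil (node
  (nat_lit 6) (nat_lit 47224) (nat_lit 8) nil nil)) (node (nat_lit 6) (nat_lit 47789) (nat_lit 7)
  (node (nat_lit 8) (nat_lit 46392) (nat_lit 8) nil (node (nat_lit 4) (nat_lit 48452) (nat_lit 8)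
  nil nil)) (node (nat_lit 5) (nat_lit 47789) (nat_lit 7) (node (nat_lit 4) (nat_lit 48452)
  (nat_lit 8) nil nil) (node (nat_lit 0) (nat_lit 47789) (nat_lit 7) (node (nat_lit 5) (nat_lit
  48452) (nat_lit 8) nil nil) nil))))) nil)))) nil)))) (node (nat_lit 0) (nat_lit 0) (nat_lit 4)
  (node (nat_lit 5) (nat_lit 0) (nat_lit 5) (node (nat_lit 6) (nat_lit 65959) (nat_lit 6) (node
  (nat_lit 5) (nat_lit 66967) (nat_lit 7) (node (nat_lit 7) (nat_lit 67630) (nat_lit 8) (node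
  (nat_lit 5) (nat_lit 66481) (nat_lit 9) nil nil) (node (nat_lit 4) (nat_lit 63412) (nat_lit 8)
  nil nil)) (node (nat_lit 4) (nat_lit 65303) (nat_lit 7) (node (nat_lit 5) (nat_lit 56774)
  (nat_lit 8) (node (nat_lit 6) (nat_lit 37047) (nat_lit 9) (node (nat_lit 5) (nat_lit 37047)
  (nat_lit 10) (node (nat_lit 4) (nat_lit 37047) (nat_lit 11) nil nil) (node (nat_lit 7) (nat_lit
  36821) (nat_lit 10) nil nil)) nil) nil) nil)) (node (nat_lit 7) (nat_lit 66110) (nat_lit 6)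
  (node (nat_lit 6) (nat_lit 67117) (nat_lit 7) (node (nat_lit 5) (nat_lit 65525) (nat_lit 8) nil
  nil) (node (nat_lit 4) (nat_lit 67117) (nat_lit 7) nil nil)) (node (nat_lit 4) (nat_lit 65959)
  (nat_lit 6) (node (nat_lit 5) (nat_lit 66967) (nat_lit 7) (node (nat_lit 6) (nat_lit 67630)
  (nat_lit 8) (node (nat_lit 7) (nat_lit 31267) (nat_lit 9) nil nil) nil) nil) (node (nat_lit 0)
  (nat_lit 65329) (nat_lit 6) nil (node (nat_lit 2) (nat_lit 62441) (nat_lit 6) (node (nat_lit 5)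
  (nat_lit 59321) (nat_lit 7) nil (node (nat_lit 6) (nat_lit 55918) (nat_lit 7) nil (node (nat_lit
  4) (nat_lit 64302) (nat_lit 7) nil nil))) nil))))) (node (nat_lit 4) (nat_lit 0) (nat_lit 5)
  (node (nat_lit 6) (nat_lit 66257) (nat_lit 6) (node (nat_lit 4) (nat_lit 67265) (nat_lit 7)
  (node (nat_lit 5) (nat_lit 67928) (nat_lit 8) (node (nat_lit 6) (nat_lit 68387) (nat_lit 9)
  (node (nat_lit 7) (nat_lit 68735) (nat_lit 10) (node (nat_lit 4) (nat_lit 34299) (nat_lit 11)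
  nil nil) nil) nil) nil) (node (nat_lit 5) (nat_lit 64800) (nat_lit 7) nil nil)) (node (nat_lit
  7) (nat_lit 66257) (nat_lit 6) (node (nat_lit 6) (nat_lit 67265) (nat_lit 7) nil (node (nat_lit
  5) (nat_lit 64517) (nat_lit 7) nil nil)) (node (nat_lit 5) (nat_lit 66257) (nat_lit 6) nil (node
  (nat_lit 0) (nat_lit 65627) (nat_lit 6) nil (node (nat_lit 2) (nat_lit 60713) (nat_lit 6) nil
  nil))))) (node (nat_lit 6) (nat_lit 0) (nat_lit 5) (node (nat_lit 5) (nat_lit 65959) (nat_lit 6)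
  (node (nat_lit 7) (nat_lit 66967) (nat_lit 7) (node (nat_lit 5) (nat_lit 65570) (nat_lit 8)
  (node (nat_lit 6) (nat_lit 65052) (nat_lit 9) (node (nat_lit 7) (nat_lit 65400) (nat_lit 10)
  (node (nat_lit 6) (nat_lit 65708) (nat_lit 11) nil nil) nil) nil) nil) (node (nat_lit 6)
  (nat_lit 66860) (nat_lit 7) nil (node (nat_lit 4) (nat_lit 66024) (nat_lit 7) (node (nat_lit 5)
  (nat_lit 61015) (nat_lit 8) nil nil) nil))) (node (nat_lit 4) (nat_lit 66110) (nat_lit 6) (node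
  (nat_lit 5) (nat_lit 67117) (nat_lit 7) (node (nat_lit 6) (nat_lit 67780) (nat_lit 8) (node
  (nat_lit 7) (nat_lit 35614) (nat_lit 9) nil nil) nil) nil) (node (nat_lit 0) (nat_lit 65329)
  (nat_lit 6) nil (node (nat_lit 2) (nat_lit 64884) (nat_lit 6) nil nil)))) (node (nat_lit 0)
  (nat_lit 64033) (nat_lit 5) (node (nat_lit 6) (nat_lit 65184) (nat_lit 6) (node (nat_lit 5)
  (nat_lit 62064) (nat_lit 7) (node (nat_lit 6) (nat_lit 61957) (nat_lit 8) nil nil) (node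
  (nat_lit 4) (nat_lit 66960) (nat_lit 7) nil nil)) (node (nat_lit 5) (nat_lit 65953) (nat_lit 6)
  nil (node (nat_lit 4) (nat_lit 66241) (nat_lit 6) nil (node (nat_lit 7) (nat_lit 66241) (nat_lit
  6) nil (node (nat_lit 0) (nat_lit 65610) (nat_lit 6) nil (node (nat_lit 2) (nat_lit 63463)
  (nat_lit 6) nil nil)))))) (node (nat_lit 2) (nat_lit 62364) (nat_lit 5) (node (nat_lit 6)
  (nat_lit 62952) (nat_lit 6) (node (nat_lit 8) (nat_lit 63377) (nat_lit 7) nil (node (nat_lit 4)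
  (nat_lit 56821) (nat_lit 7) nil nil)) (node (nat_lit 5) (nat_lit 63838) (nat_lit 6) nil (node
  (nat_lit 7) (nat_lit 65239) (nat_lit 6) (node (nat_lit 5) (nat_lit 63499) (nat_lit 7) nil (node
  (nat_lit 6) (nat_lit 66247) (nat_lit 7) nil nil)) (node (nat_lit 4) (nat_lit 63338) (nat_lit 6)
  nil nil)))) nil))))) t28))

noncomputable def t30 : Tr :=
  (node (nat_lit 3) (nat_lit 0) (nat_lit 4) (node (nat_lit 4) (nat_lit 47600) (nat_lit 5) (node
  (nat_lit 5) (nat_lit 36821) (nat_lit 6) (node (nat_lit 7) (nat_lit 36821) (nat_lit 7) (node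
  (nat_lit 5) (nat_lit 36821) (nat_lit 8) (node (nat_lit 4) (nat_lit 36821) (nat_lit 9) (node
  (nat_lit 7) (nat_lit 36821) (nat_lit 10) (node (nat_lit 4) (nat_lit 36821) (nat_lit 11) (node
  (nat_lit 5) (nat_lit 36821) (nat_lit 12) nil nil) nil) (node (nat_lit 5) (nat_lit 35100)
  (nat_lit 10) (node (nat_lit 6) (nat_lit 35181) (nat_lit 11) (node (nat_lit 7) (nat_lit 17078)
  (nat_lit 12) nil nil) nil) nil)) nil) (node (nat_lit 4) (nat_lit 36821) (nat_lit 8) (node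
  (nat_lit 7) (nat_lit 36821) (nat_lit 9) (node (nat_lit 5) (nat_lit 36821) (nat_lit 10) (node
  (nat_lit 7) (nat_lit 36821) (nat_lit 11) nil (node (nat_lit 4) (nat_lit 36821) (nat_lit 11)
  (node (nat_lit 5) (nat_lit 36821) (nat_lit 12) nil nil) nil)) nil) nil) (node (nat_lit 6)
  (nat_lit 36821) (nat_lit 8) (node (nat_lit 5) (nat_lit 36821) (nat_lit 9) (node (nat_lit 4)
  (nat_lit 36821) (nat_lit 10) nil (node (nat_lit 7) (nat_lit 36821) (nat_lit 10) nil nil)) (node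
  (nat_lit 7) (nat_lit 36821) (nat_lit 9) (node (nat_lit 5) (nat_lit 36821) (nat_lit 10) nil nil)
  nil)) nil))) (node (nat_lit 4) (nat_lit 36821) (nat_lit 7) (node (nat_lit 7) (nat_lit 36821)
  (nat_lit 8) (node (nat_lit 5) (nat_lit 36821) (nat_lit 9) (node (nat_lit 7) (nat_lit 36821)
  (nat_lit 10) (node (nat_lit 4) (nat_lit 36821) (nat_lit 11) (node (nat_lit 5) (nat_lit 36821)
  (nat_lit 12) (node (nat_lit 6) (nat_lit 36821) (nat_lit 13) (node (nat_lit 7) (nat_lit 36821)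
  (nat_lit 14) (node (nat_lit 4) (nat_lit 36821) (nat_lit 15) nil nil) nil) nil) nil) nil) (node
  (nat_lit 4) (nat_lit 36821) (nat_lit 10) (node (nat_lit 5) (nat_lit 35891) (nat_lit 11) nil nil)
  nil)) (node (nat_lit 4) (nat_lit 36821) (nat_lit 9) (node (nat_lit 5) (nat_lit 36821) (nat_lit
  10) nil nil) nil)) (node (nat_lit 6) (nat_lit 36821) (nat_lit 8) (node (nat_lit 5) (nat_lit
  36821) (nat_lit 9) nil nil) nil)) (node (nat_lit 6) (nat_lit 35229) (nat_lit 7) (node (nat_lit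
  4) (nat_lit 35614) (nat_lit 8) (node (nat_lit 7) (nat_lit 34645) (nat_lit 9) nil nil) (node
  (nat_lit 5) (nat_lit 34337) (nat_lit 8) (node (nat_lit 4) (nat_lit 33045) (nat_lit 9) nil nil)
  nil)) (node (nat_lit 0) (nat_lit 36821) (nat_lit 7) (node (nat_lit 4) (nat_lit 36821) (nat_lit
  8) nil (node (nat_lit 7) (nat_lit 36821) (nat_lit 8) (node (nat_lit 5) (nat_lit 36821) (nat_lit
  9) nil nil) (node (nat_lit 5) (nat_lit 36821) (nat_lit 8) (node (nat_lit 4) (nat_lit 36821)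
  (nat_lit 9) nil (node (nat_lit 7) (nat_lit 36821) (nat_lit 9) nil nil)) nil))) nil)))) (node
  (nat_lit 6) (nat_lit 49953) (nat_lit 6) (node (nat_lit 5) (nat_lit 51614) (nat_lit 7) (node
  (nat_lit 6) (nat_lit 52739) (nat_lit 8) (node (nat_lit 7) (nat_lit 53689) (nat_lit 9) (node
  (nat_lit 6) (nat_lit 54027) (nat_lit 10) (node (nat_lit 5) (nat_lit 53184) (nat_lit 11) nil nil)
  (node (nat_lit 5) (nat_lit 54360) (nat_lit 10) (node (nat_lit 4) (nat_lit 54948) (nat_lit 11)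
  nil nil) nil)) (node (nat_lit 4) (nat_lit 53223) (nat_lit 9) (node (nat_lit 7) (nat_lit 53592)
  (nat_lit 10) nil nil) (node (nat_lit 0) (nat_lit 53223) (nat_lit 9) nil nil))) (node (nat_lit 4)
  (nat_lit 52739) (nat_lit 8) (node (nat_lit 5) (nat_lit 51633) (nat_lit 9) (node (nat_lit 6)
  (nat_lit 47326) (nat_lit 10) (node (nat_lit 7) (nat_lit 26941) (nat_lit 11) nil nil) nil) nil)
  (node (nat_lit 7) (nat_lit 52739) (nat_lit 8) nil nil))) (node (nat_lit 7) (nat_lit 51708)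
  (nat_lit 7) (node (nat_lit 6) (nat_lit 52833) (nat_lit 8) (node (nat_lit 5) (nat_lit 52989)
  (nat_lit 9) nil nil) (node (nat_lit 5) (nat_lit 52833) (nat_lit 8) (node (nat_lit 4) (nat_lit
  53657) (nat_lit 9) nil nil) nil)) (node (nat_lit 4) (nat_lit 51614) (nat_lit 7) (node (nat_lit
  7) (nat_lit 52739) (nat_lit 8) (node (nat_lit 6) (nat_lit 51857) (nat_lit 9) nil (node (nat_lit
  5) (nat_lit 52324) (nat_lit 9) nil nil)) (node (nat_lit 5) (nat_lit 51969) (nat_lit 8) nil nil))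
  (node (nat_lit 0) (nat_lit 51708) (nat_lit 7) (node (nat_lit 7) (nat_lit 52410) (nat_lit 8) nil
  (node (nat_lit 0) (nat_lit 52410) (nat_lit 8) nil (node (nat_lit 5) (nat_lit 50133) (nat_lit 8)
  (node (nat_lit 4) (nat_lit 50618) (nat_lit 9) nil nil) nil))) nil)))) (node (nat_lit 7) (nat_lit
  50057) (nat_lit 6) (node (nat_lit 6) (nat_lit 51717) (nat_lit 7) (node (nat_lit 4) (nat_lit
  52842) (nat_lit 8) (node (nat_lit 6) (nat_lit 53665) (nat_lit 9) (node (nat_lit 7) (nat_lit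
  54335) (nat_lit 10) (node (nat_lit 4) (nat_lit 54835) (nat_lit 11) nil nil) nil) nil) (node
  (nat_lit 7) (nat_lit 52842) (nat_lit 8) nil nil)) (node (nat_lit 5) (nat_lit 51717) (nat_lit 7)
  (node (nat_lit 4) (nat_lit 52842) (nat_lit 8) (node (nat_lit 5) (nat_lit 53481) (nat_lit 9)
  (node (nat_lit 6) (nat_lit 47031) (nat_lit 10) (node (nat_lit 7) (nat_lit 41339) (nat_lit 11)
  nil nil) nil) (node (nat_lit 7) (nat_lit 53327) (nat_lit 9) nil nil)) (node (nat_lit 7) (nat_lit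
  52842) (nat_lit 8) (node (nat_lit 4) (nat_lit 52566) (nat_lit 9) (node (nat_lit 5) (nat_lit
  51202) (nat_lit 10) (node (nat_lit 6) (nat_lit 40736) (nat_lit 11) (node (nat_lit 7) (nat_lit
  36821) (nat_lit 12) (node (nat_lit 4) (nat_lit 35614) (nat_lit 13) nil nil) nil) nil) nil) nil)
  (node (nat_lit 6) (nat_lit 52842) (nat_lit 8) (node (nat_lit 7) (nat_lit 53702) (nat_lit 9) nil
  nil) nil))) nil)) (node (nat_lit 0) (nat_lit 50057) (nat_lit 6) (node (nat_lit 5) (nat_lit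
  51717) (nat_lit 7) (node (nat_lit 4) (nat_lit 52418) (nat_lit 8) (node (nat_lit 5) (nat_lit
  51126) (nat_lit 9) nil nil) nil) (node (nat_lit 7) (nat_lit 51717) (nat_lit 7) (node (nat_lit 4)
  (nat_lit 52706) (nat_lit 8) (node (nat_lit 5) (nat_lit 53190) (nat_lit 9) nil nil) (node
  (nat_lit 5) (nat_lit 49409) (nat_lit 8) nil nil)) (node (nat_lit 6) (nat_lit 51717) (nat_lit 7)
  (node (nat_lit 4) (nat_lit 52418) (nat_lit 8) nil (node (nat_lit 7) (nat_lit 47273) (nat_lit 8)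
  nil nil)) (node (nat_lit 4) (nat_lit 51717) (nat_lit 7) (node (nat_lit 7) (nat_lit 51699)
  (nat_lit 8) nil (node (nat_lit 5) (nat_lit 50142) (nat_lit 8) nil nil)) (node (nat_lit 0)
  (nat_lit 51717) (nat_lit 7) nil nil))))) nil)))) (node (nat_lit 5) (nat_lit 0) (nat_lit 5) (node
  (nat_lit 7) (nat_lit 49196) (nat_lit 6) (node (nat_lit 6) (nat_lit 49196) (nat_lit 7) (node
  (nat_lit 5) (nat_lit 49239) (nat_lit 8) (node (nat_lit 6) (nat_lit 56502) (nat_lit 9) (node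
  (nat_lit 7) (nat_lit 59863) (nat_lit 10) (node (nat_lit 5) (nat_lit 58417) (nat_lit 11) nil
  (node (nat_lit 6) (nat_lit 59735) (nat_lit 11) (node (nat_lit 5) (nat_lit 57396) (nat_lit 12)
  (node (nat_lit 7) (nat_lit 56826) (nat_lit 13) nil nil) nil) (node (nat_lit 4) (nat_lit 59564)
  (nat_lit 11) (node (nat_lit 5) (nat_lit 59194) (nat_lit 12) nil nil) (node (nat_lit 0) (nat_lit
  63158) (nat_lit 11) nil nil)))) (node (nat_lit 4) (nat_lit 63352) (nat_lit 10) nil (node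
  (nat_lit 0) (nat_lit 60594) (nat_lit 10) nil nil))) (node (nat_lit 7) (nat_lit 56189) (nat_lit
  9) (node (nat_lit 5) (nat_lit 59942) (nat_lit 10) (node (nat_lit 6) (nat_lit 57489) (nat_lit 11)
  nil (node (nat_lit 4) (nat_lit 59643) (nat_lit 11) (node (nat_lit 5) (nat_lit 59272) (nat_lit
  12) nil nil) nil)) (node (nat_lit 4) (nat_lit 60788) (nat_lit 10) (node (nat_lit 5) (nat_lit
  57625) (nat_lit 11) (node (nat_lit 6) (nat_lit 56640) (nat_lit 12) (node (nat_lit 7) (nat_lit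
  50961) (nat_lit 13) (node (nat_lit 5) (nat_lit 45996) (nat_lit 14) nil nil) nil) nil) nil) nil))
  (node (nat_lit 4) (nat_lit 59942) (nat_lit 9) (node (nat_lit 5) (nat_lit 54655) (nat_lit 10)
  (node (nat_lit 6) (nat_lit 54818) (nat_lit 11) (node (nat_lit 7) (nat_lit 50489) (nat_lit 12)
  (node (nat_lit 5) (nat_lit 43603) (nat_lit 13) (node (nat_lit 7) (nat_lit 26271) (nat_lit 14)
  nil nil) nil) nil) nil) nil) (node (nat_lit 0) (nat_lit 61112) (nat_lit 9) nil nil)))) (node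
  (nat_lit 7) (nat_lit 49209) (nat_lit 8) (node (nat_lit 5) (nat_lit 55428) (nat_lit 9) (node
  (nat_lit 6) (nat_lit 57279) (nat_lit 10) nil (node (nat_lit 4) (nat_lit 55706) (nat_lit 10) nil
  nil)) (node (nat_lit 4) (nat_lit 61262) (nat_lit 9) nil nil)) (node (nat_lit 4) (nat_lit 65016)
  (nat_lit 8) nil (node (nat_lit 0) (nat_lit 64292) (nat_lit 8) nil nil)))) (node (nat_lit 4)
  (nat_lit 62025) (nat_lit 7) (node (nat_lit 5) (nat_lit 56366) (nat_lit 8) (node (nat_lit 6)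
  (nat_lit 44257) (nat_lit 9) (node (nat_lit 7) (nat_lit 35614) (nat_lit 10) nil nil) nil) (node
  (nat_lit 7) (nat_lit 62025) (nat_lit 8) nil nil)) (node (nat_lit 0) (nat_lit 63169) (nat_lit 7)
  nil nil))) (node (nat_lit 4) (nat_lit 59308) (nat_lit 6) (node (nat_lit 7) (nat_lit 62297)
  (nat_lit 7) (node (nat_lit 6) (nat_lit 59961) (nat_lit 8) (node (nat_lit 5) (nat_lit 58384)
  (nat_lit 9) nil nil) (node (nat_lit 4) (nat_lit 63791) (nat_lit 8) (node (nat_lit 5) (nat_lit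
  64316) (nat_lit 9) (node (nat_lit 6) (nat_lit 62660) (nat_lit 10) (node (nat_lit 7) (nat_lit
  61890) (nat_lit 11) (node (nat_lit 5) (nat_lit 61061) (nat_lit 12) nil nil) nil) nil) nil) nil))
  (node (nat_lit 5) (nat_lit 47871) (nat_lit 7) (node (nat_lit 7) (nat_lit 49861) (nat_lit 8)
  (node (nat_lit 4) (nat_lit 49338) (nat_lit 9) (node (nat_lit 5) (nat_lit 46473) (nat_lit 10)
  (node (nat_lit 6) (nat_lit 34736) (nat_lit 11) (node (nat_lit 7) (nat_lit 21104) (nat_lit 12)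
  nil nil) nil) nil) (node (nat_lit 5) (nat_lit 47698) (nat_lit 9) (node (nat_lit 4) (nat_lit
  47543) (nat_lit 10) (node (nat_lit 7) (nat_lit 48128) (nat_lit 11) nil nil) nil) (node (nat_lit
  6) (nat_lit 47422) (nat_lit 9) (node (nat_lit 5) (nat_lit 45914) (nat_lit 10) nil (node (nat_lit
  7) (nat_lit 46349) (nat_lit 10) nil nil)) nil))) (node (nat_lit 6) (nat_lit 28410) (nat_lit 8)
  (node (nat_lit 4) (nat_lit 29653) (nat_lit 9) nil (node (nat_lit 5) (nat_lit 29445) (nat_lit 9)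
  (node (nat_lit 4) (nat_lit 29813) (nat_lit 10) (node (nat_lit 5) (nat_lit 28970) (nat_lit 11)
  nil nil) (node (nat_lit 7) (nat_lit 28308) (nat_lit 10) nil nil)) nil)) (node (nat_lit 0)
  (nat_lit 49134) (nat_lit 8) nil nil))) (node (nat_lit 6) (nat_lit 62044) (nat_lit 7) (node
  (nat_lit 5) (nat_lit 62095) (nat_lit 8) (node (nat_lit 6) (nat_lit 61432) (nat_lit 9) (node
  (nat_lit 7) (nat_lit 60515) (nat_lit 10) (node (nat_lit 5) (nat_lit 59573) (nat_lit 11) nil nil)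
  nil) nil) nil) nil))) (node (nat_lit 6) (nat_lit 49187) (nat_lit 6) (node (nat_lit 5) (nat_lit
  49203) (nat_lit 7) (node (nat_lit 7) (nat_lit 49208) (nat_lit 8) (node (nat_lit 6) (nat_lit
  57064) (nat_lit 9) (node (nat_lit 5) (nat_lit 61251) (nat_lit 10) nil (node (nat_lit 7) (nat_lit
  58993) (nat_lit 10) nil nil)) (node (nat_lit 5) (nat_lit 57771) (nat_lit 9) (node (nat_lit 6)
  (nat_lit 61656) (nat_lit 10) (node (nat_lit 7) (nat_lit 62031) (nat_lit 11) nil nil) (node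
  (nat_lit 4) (nat_lit 62594) (nat_lit 10) nil nil)) (node (nat_lit 4) (nat_lit 61504) (nat_lit 9)
  (node (nat_lit 5) (nat_lit 59570) (nat_lit 10) (node (nat_lit 6) (nat_lit 52466) (nat_lit 11)
  (node (nat_lit 7) (nat_lit 36821) (nat_lit 12) (node (nat_lit 5) (nat_lit 36821) (nat_lit 13)
  nil nil) nil) nil) nil) (node (nat_lit 0) (nat_lit 64979) (nat_lit 9) nil nil)))) (node (nat_lit
  4) (nat_lit 65135) (nat_lit 8) nil (node (nat_lit 0) (nat_lit 64299) (nat_lit 8) nil nil)))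
  (node (nat_lit 4) (nat_lit 63571) (nat_lit 7) nil (node (nat_lit 0) (nat_lit 63485) (nat_lit 7)
  nil nil))) (node (nat_lit 0) (nat_lit 61276) (nat_lit 6) (node (nat_lit 7) (nat_lit 61604)
  (nat_lit 7) (node (nat_lit 4) (nat_lit 62868) (nat_lit 8) (node (nat_lit 5) (nat_lit 63741)
  (nat_lit 9) nil nil) nil) (node (nat_lit 5) (nat_lit 63323) (nat_lit 7) (node (nat_lit 6)
  (nat_lit 61374) (nat_lit 8) (node (nat_lit 7) (nat_lit 59952) (nat_lit 9) nil nil) (node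
  (nat_lit 4) (nat_lit 64024) (nat_lit 8) (node (nat_lit 5) (nat_lit 62732) (nat_lit 9) nil nil)
  (node (nat_lit 7) (nat_lit 64242) (nat_lit 8) nil nil))) (node (nat_lit 6) (nat_lit 61154)
  (nat_lit 7) nil (node (nat_lit 4) (nat_lit 60480) (nat_lit 7) (node (nat_lit 7) (nat_lit 60808)
  (nat_lit 8) nil nil) (node (nat_lit 0) (nat_lit 62342) (nat_lit 7) nil nil))))) nil)))) (node
  (nat_lit 6) (nat_lit 49022) (nat_lit 5) (node (nat_lit 5) (nat_lit 49132) (nat_lit 6) (node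
  (nat_lit 6) (nat_lit 49132) (nat_lit 7) (node (nat_lit 7) (nat_lit 49264) (nat_lit 8) (node
  (nat_lit 5) (nat_lit 57200) (nat_lit 9) (node (nat_lit 7) (nat_lit 59329) (nat_lit 10) (node
  (nat_lit 6) (nat_lit 58501) (nat_lit 11) nil nil) (node (nat_lit 6) (nat_lit 58950) (nat_lit 10)
  nil (node (nat_lit 4) (nat_lit 61610) (nat_lit 10) nil nil))) (node (nat_lit 4) (nat_lit 62400)
  (nat_lit 9) nil (node (nat_lit 0) (nat_lit 65037) (nat_lit 9) nil nil))) nil) (node (nat_lit 7)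
  (nat_lit 49132) (nat_lit 7) (node (nat_lit 6) (nat_lit 49138) (nat_lit 8) (node (nat_lit 7)
  (nat_lit 54722) (nat_lit 9) (node (nat_lit 5) (nat_lit 57065) (nat_lit 10) nil nil) nil) (node
  (nat_lit 5) (nat_lit 49196) (nat_lit 8) nil (node (nat_lit 4) (nat_lit 61826) (nat_lit 8) nil
  nil))) (node (nat_lit 4) (nat_lit 63576) (nat_lit 7) nil nil))) (node (nat_lit 4) (nat_lit
  61211) (nat_lit 6) (node (nat_lit 6) (nat_lit 61984) (nat_lit 7) (node (nat_lit 7) (nat_lit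
  61394) (nat_lit 8) nil (node (nat_lit 5) (nat_lit 62657) (nat_lit 8) nil nil)) (node (nat_lit 7)
  (nat_lit 63671) (nat_lit 7) nil nil)) (node (nat_lit 0) (nat_lit 61281) (nat_lit 6) (node
  (nat_lit 5) (nat_lit 63561) (nat_lit 7) nil nil) nil))) (node (nat_lit 0) (nat_lit 56883)
  (nat_lit 5) (node (nat_lit 6) (nat_lit 61290) (nat_lit 6) (node (nat_lit 7) (nat_lit 63390)
  (nat_lit 7) (node (nat_lit 6) (nat_lit 63718) (nat_lit 8) (node (nat_lit 5) (nat_lit 61746)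
  (nat_lit 9) nil nil) (node (nat_lit 4) (nat_lit 59902) (nat_lit 8) (node (nat_lit 5) (nat_lit
  53140) (nat_lit 9) nil nil) nil)) (node (nat_lit 5) (nat_lit 63137) (nat_lit 7) nil (node
  (nat_lit 4) (nat_lit 61302) (nat_lit 7) nil (node (nat_lit 8) (nat_lit 63210) (nat_lit 7) (node
  (nat_lit 7) (nat_lit 63538) (nat_lit 8) nil nil) nil)))) (node (nat_lit 5) (nat_lit 61290)
  (nat_lit 6) (node (nat_lit 7) (nat_lit 61799) (nat_lit 7) nil (node (nat_lit 4) (nat_lit 60495)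
  (nat_lit 7) (node (nat_lit 5) (nat_lit 58920) (nat_lit 8) nil nil) (node (nat_lit 8) (nat_lit
  62356) (nat_lit 7) nil nil))) (node (nat_lit 7) (nat_lit 61290) (nat_lit 6) (node (nat_lit 5)
  (nat_lit 63492) (nat_lit 7) (node (nat_lit 7) (nat_lit 60192) (nat_lit 8) nil nil) (node
  (nat_lit 4) (nat_lit 61785) (nat_lit 7) (node (nat_lit 5) (nat_lit 62486) (nat_lit 8) nil nil)
  nil)) (node (nat_lit 4) (nat_lit 61290) (nat_lit 6) (node (nat_lit 7) (nat_lit 61618) (nat_lit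
  7) (node (nat_lit 4) (nat_lit 62882) (nat_lit 8) nil nil) nil) (node (nat_lit 0) (nat_lit 61290)
  (nat_lit 6) (node (nat_lit 7) (nat_lit 61618) (nat_lit 7) nil (node (nat_lit 4) (nat_lit 62356)
  (nat_lit 7) nil (node (nat_lit 5) (nat_lit 61785) (nat_lit 7) nil nil))) nil))))) nil)))) (node
  (nat_lit 0) (nat_lit 0) (nat_lit 4) (node (nat_lit 5) (nat_lit 66277) (nat_lit 5) (node (nat_lit
  6) (nat_lit 69808) (nat_lit 6) (node (nat_lit 5) (nat_lit 68127) (nat_lit 7) (node (nat_lit 7)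
  (nat_lit 69044) (nat_lit 8) nil (node (nat_lit 4) (nat_lit 62045) (nat_lit 8) (node (nat_lit 5)
  (nat_lit 57207) (nat_lit 9) (node (nat_lit 6) (nat_lit 50587) (nat_lit 10) (node (nat_lit 7)
  (nat_lit 41885) (nat_lit 11) nil nil) nil) nil) nil)) nil) (node (nat_lit 4) (nat_lit 68764)
  (nat_lit 6) (node (nat_lit 5) (nat_lit 66793) (nat_lit 7) (node (nat_lit 6) (nat_lit 64844)
  (nat_lit 8) (node (nat_lit 7) (nat_lit 28881) (nat_lit 9) nil nil) nil) nil) (node (nat_lit 3)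
  (nat_lit 65687) (nat_lit 6) (node (nat_lit 4) (nat_lit 60185) (nat_lit 7) nil nil) nil))) (node
  (nat_lit 6) (nat_lit 66335) (nat_lit 5) (node (nat_lit 5) (nat_lit 68560) (nat_lit 6) (node
  (nat_lit 4) (nat_lit 69626) (nat_lit 7) nil nil) nil) (node (nat_lit 4) (nat_lit 66272) (nat_lit
  5) (node (nat_lit 6) (nat_lit 66650) (nat_lit 6) nil (node (nat_lit 3) (nat_lit 65534) (nat_lit
  6) (node (nat_lit 4) (nat_lit 67454) (nat_lit 7) (node (nat_lit 5) (nat_lit 68717) (nat_lit 8)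
  nil nil) nil) nil)) (node (nat_lit 3) (nat_lit 66511) (nat_lit 5) (node (nat_lit 4) (nat_lit
  70367) (nat_lit 6) (node (nat_lit 5) (nat_lit 71432) (nat_lit 7) nil nil) (node (nat_lit 5)
  (nat_lit 68479) (nat_lit 6) (node (nat_lit 4) (nat_lit 69047) (nat_lit 7) nil nil) nil)) (node
  (nat_lit 0) (nat_lit 66272) (nat_lit 5) (node (nat_lit 5) (nat_lit 65662) (nat_lit 6) nil nil)
  nil))))) nil))

noncomputable def t31 : Tr :=
  (node (nat_lit 5) (nat_lit 0) (nat_lit 4) (node (nat_lit 4) (nat_lit 47538) (nat_lit 5) (node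
  (nat_lit 6) (nat_lit 52370) (nat_lit 6) (node (nat_lit 5) (nat_lit 57800) (nat_lit 7) (node
  (nat_lit 6) (nat_lit 64706) (nat_lit 8) (node (nat_lit 4) (nat_lit 68245) (nat_lit 9) (node
  (nat_lit 6) (nat_lit 67848) (nat_lit 10) (node (nat_lit 5) (nat_lit 65624) (nat_lit 11) (node
  (nat_lit 4) (nat_lit 66256) (nat_lit 12) (node (nat_lit 5) (nat_lit 65183) (nat_lit 13) (node
  (nat_lit 6) (nat_lit 63562) (nat_lit 14) (node (nat_lit 5) (nat_lit 61667) (nat_lit 15) (node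
  (nat_lit 4) (nat_lit 59873) (nat_lit 16) (node (nat_lit 6) (nat_lit 55924) (nat_lit 17) (node
  (nat_lit 5) (nat_lit 49644) (nat_lit 18) (node (nat_lit 6) (nat_lit 41161) (nat_lit 19) (node
  (nat_lit 4) (nat_lit 31825) (nat_lit 20) nil nil) nil) nil) nil) nil) nil) nil) nil) nil) nil)
  nil) nil) (node (nat_lit 3) (nat_lit 65259) (nat_lit 8) (node (nat_lit 5) (nat_lit 63237)
  (nat_lit 9) nil (node (nat_lit 4) (nat_lit 61049) (nat_lit 9) nil nil)) (node (nat_lit 0)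
  (nat_lit 61627) (nat_lit 8) nil nil))) (node (nat_lit 4) (nat_lit 57805) (nat_lit 7) (node
  (nat_lit 5) (nat_lit 64936) (nat_lit 8) nil nil) (node (nat_lit 3) (nat_lit 66493) (nat_lit 7)
  nil (node (nat_lit 0) (nat_lit 67096) (nat_lit 7) nil nil)))) (node (nat_lit 5) (nat_lit 37009)
  (nat_lit 6) (node (nat_lit 6) (nat_lit 27118) (nat_lit 7) (node (nat_lit 4) (nat_lit 33166)
  (nat_lit 8) (node (nat_lit 6) (nat_lit 34394) (nat_lit 9) (node (nat_lit 5) (nat_lit 34126)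
  (nat_lit 10) (node (nat_lit 4) (nat_lit 33691) (nat_lit 11) (node (nat_lit 5) (nat_lit 33047)
  (nat_lit 12) (node (nat_lit 6) (nat_lit 32560) (nat_lit 13) (node (nat_lit 5) (nat_lit 32189)
  (nat_lit 14) (node (nat_lit 4) (nat_lit 32326) (nat_lit 15) nil nil) nil) nil) nil) nil) nil)
  (node (nat_lit 5) (nat_lit 33532) (nat_lit 9) (node (nat_lit 4) (nat_lit 33565) (nat_lit 10)
  (node (nat_lit 6) (nat_lit 33553) (nat_lit 11) (node (nat_lit 5) (nat_lit 33482) (nat_lit 12)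
  (node (nat_lit 4) (nat_lit 33721) (nat_lit 13) (node (nat_lit 5) (nat_lit 33350) (nat_lit 14)
  (node (nat_lit 6) (nat_lit 33063) (nat_lit 15) (node (nat_lit 5) (nat_lit 32839) (nat_lit 16)
  (node (nat_lit 4) (nat_lit 32917) (nat_lit 17) nil nil) nil) nil) nil) nil) nil) nil) nil) (node
  (nat_lit 3) (nat_lit 34957) (nat_lit 9) nil nil))) (node (nat_lit 3) (nat_lit 33029) (nat_lit 8)
  (node (nat_lit 4) (nat_lit 32215) (nat_lit 9) (node (nat_lit 5) (nat_lit 28918) (nat_lit 10)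
  (node (nat_lit 6) (nat_lit 27313) (nat_lit 11) nil nil) nil) nil) (node (nat_lit 0) (nat_lit
  34159) (nat_lit 8) nil nil))) (node (nat_lit 3) (nat_lit 40010) (nat_lit 7) (node (nat_lit 4)
  (nat_lit 38525) (nat_lit 8) (node (nat_lit 5) (nat_lit 37401) (nat_lit 9) (node (nat_lit 6)
  (nat_lit 31363) (nat_lit 10) nil nil) nil) (node (nat_lit 5) (nat_lit 40711) (nat_lit 8) (node
  (nat_lit 4) (nat_lit 41196) (nat_lit 9) nil nil) (node (nat_lit 6) (nat_lit 41302) (nat_lit 8)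
  nil nil))) (node (nat_lit 0) (nat_lit 39969) (nat_lit 7) (node (nat_lit 4) (nat_lit 40670)
  (nat_lit 8) nil (node (nat_lit 5) (nat_lit 40670) (nat_lit 8) (node (nat_lit 4) (nat_lit 41155)
  (nat_lit 9) nil nil) (node (nat_lit 3) (nat_lit 39675) (nat_lit 8) (node (nat_lit 4) (nat_lit
  40160) (nat_lit 9) nil nil) (node (nat_lit 6) (nat_lit 38394) (nat_lit 8) nil nil)))) nil)))
  (node (nat_lit 3) (nat_lit 64422) (nat_lit 6) (node (nat_lit 5) (nat_lit 64724) (nat_lit 7) nil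
  (node (nat_lit 4) (nat_lit 66293) (nat_lit 7) (node (nat_lit 5) (nat_lit 68192) (nat_lit 8) nil
  nil) nil)) (node (nat_lit 0) (nat_lit 64414) (nat_lit 6) nil nil)))) (node (nat_lit 3) (nat_lit
  48873) (nat_lit 5) (node (nat_lit 4) (nat_lit 60456) (nat_lit 6) (node (nat_lit 5) (nat_lit
  48454) (nat_lit 7) (node (nat_lit 4) (nat_lit 50495) (nat_lit 8) nil (node (nat_lit 8) (nat_lit
  48528) (nat_lit 8) nil (node (nat_lit 6) (nat_lit 36821) (nat_lit 8) (node (nat_lit 4) (nat_lit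
  36821) (nat_lit 9) (node (nat_lit 8) (nat_lit 36821) (nat_lit 10) (node (nat_lit 4) (nat_lit
  36821) (nat_lit 11) nil nil) nil) (node (nat_lit 8) (nat_lit 36821) (nat_lit 9) nil nil)) nil)))
  (node (nat_lit 8) (nat_lit 63762) (nat_lit 7) (node (nat_lit 5) (nat_lit 59908) (nat_lit 8)
  (node (nat_lit 6) (nat_lit 57458) (nat_lit 9) (node (nat_lit 5) (nat_lit 56105) (nat_lit 10) nil
  nil) nil) nil) nil)) (node (nat_lit 5) (nat_lit 49000) (nat_lit 6) (node (nat_lit 6) (nat_lit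
  49009) (nat_lit 7) (node (nat_lit 8) (nat_lit 48952) (nat_lit 8) (node (nat_lit 6) (nat_lit
  55655) (nat_lit 9) (node (nat_lit 5) (nat_lit 58502) (nat_lit 10) nil nil) (node (nat_lit 5)
  (nat_lit 56773) (nat_lit 9) nil (node (nat_lit 4) (nat_lit 58339) (nat_lit 9) (node (nat_lit 5)
  (nat_lit 53052) (nat_lit 10) (node (nat_lit 6) (nat_lit 51913) (nat_lit 11) (node (nat_lit 5)
  (nat_lit 43772) (nat_lit 12) (node (nat_lit 8) (nat_lit 33938) (nat_lit 13) nil nil) nil) nil)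
  nil) nil))) (node (nat_lit 4) (nat_lit 64112) (nat_lit 8) nil (node (nat_lit 0) (nat_lit 60380)
  (nat_lit 8) nil (node (nat_lit 5) (nat_lit 49009) (nat_lit 8) nil nil)))) (node (nat_lit 4)
  (nat_lit 66469) (nat_lit 7) (node (nat_lit 5) (nat_lit 59982) (nat_lit 8) (node (nat_lit 6)
  (nat_lit 50038) (nat_lit 9) (node (nat_lit 5) (nat_lit 30021) (nat_lit 10) nil nil) nil) nil)
  (node (nat_lit 0) (nat_lit 66298) (nat_lit 7) nil nil))) (node (nat_lit 6) (nat_lit 49010)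
  (nat_lit 6) (node (nat_lit 8) (nat_lit 49053) (nat_lit 7) (node (nat_lit 5) (nat_lit 49100)
  (nat_lit 8) (node (nat_lit 6) (nat_lit 58028) (nat_lit 9) (node (nat_lit 8) (nat_lit 61271)
  (nat_lit 10) nil nil) (node (nat_lit 8) (nat_lit 57518) (nat_lit 9) nil (node (nat_lit 4)
  (nat_lit 61547) (nat_lit 9) nil nil))) (node (nat_lit 4) (nat_lit 66978) (nat_lit 8) nil (node
  (nat_lit 0) (nat_lit 65209) (nat_lit 8) nil nil))) (node (nat_lit 5) (nat_lit 49046) (nat_lit 7)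
  (node (nat_lit 6) (nat_lit 49049) (nat_lit 8) (node (nat_lit 8) (nat_lit 56193) (nat_lit 9)
  (node (nat_lit 5) (nat_lit 58514) (nat_lit 10) nil nil) (node (nat_lit 4) (nat_lit 64828)
  (nat_lit 9) nil (node (nat_lit 0) (nat_lit 57372) (nat_lit 9) nil nil))) (node (nat_lit 4)
  (nat_lit 65452) (nat_lit 8) (node (nat_lit 5) (nat_lit 61402) (nat_lit 9) (node (nat_lit 6)
  (nat_lit 59288) (nat_lit 10) (node (nat_lit 5) (nat_lit 35756) (nat_lit 11) nil nil) nil) nil)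
  (node (nat_lit 0) (nat_lit 64149) (nat_lit 8) nil nil))) (node (nat_lit 4) (nat_lit 68001)
  (nat_lit 7) nil (node (nat_lit 0) (nat_lit 67907) (nat_lit 7) nil nil)))) (node (nat_lit 0)
  (nat_lit 61992) (nat_lit 6) (node (nat_lit 5) (nat_lit 64516) (nat_lit 7) nil nil) nil)))) (node
  (nat_lit 0) (nat_lit 58243) (nat_lit 5) (node (nat_lit 6) (nat_lit 65622) (nat_lit 6) (node
  (nat_lit 5) (nat_lit 62603) (nat_lit 7) nil nil) (node (nat_lit 5) (nat_lit 65707) (nat_lit 6)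
  (node (nat_lit 4) (nat_lit 67627) (nat_lit 7) (node (nat_lit 5) (nat_lit 66614) (nat_lit 8)
  (node (nat_lit 6) (nat_lit 64174) (nat_lit 9) nil nil) nil) nil) (node (nat_lit 4) (nat_lit
  65829) (nat_lit 6) nil (node (nat_lit 3) (nat_lit 65713) (nat_lit 6) nil (node (nat_lit 0)
  (nat_lit 63498) (nat_lit 6) nil nil))))) nil))) (node (nat_lit 4) (nat_lit 0) (nat_lit 4) (node
  (nat_lit 6) (nat_lit 49025) (nat_lit 5) (node (nat_lit 5) (nat_lit 52326) (nat_lit 6) (node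
  (nat_lit 6) (nat_lit 57807) (nat_lit 7) (node (nat_lit 4) (nat_lit 64658) (nat_lit 8) (node
  (nat_lit 5) (nat_lit 66361) (nat_lit 9) (node (nat_lit 4) (nat_lit 66234) (nat_lit 10) (node
  (nat_lit 6) (nat_lit 66194) (nat_lit 11) (node (nat_lit 5) (nat_lit 65607) (nat_lit 12) (node
  (nat_lit 4) (nat_lit 65892) (nat_lit 13) (node (nat_lit 5) (nat_lit 65558) (nat_lit 14) (node
  (nat_lit 6) (nat_lit 65299) (nat_lit 15) (node (nat_lit 4) (nat_lit 65423) (nat_lit 16) (node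
  (nat_lit 6) (nat_lit 65265) (nat_lit 17) (node (nat_lit 5) (nat_lit 65141) (nat_lit 18) (node
  (nat_lit 6) (nat_lit 64310) (nat_lit 19) (node (nat_lit 4) (nat_lit 61022) (nat_lit 20) (node
  (nat_lit 5) (nat_lit 56509) (nat_lit 21) (node (nat_lit 4) (nat_lit 31816) (nat_lit 22) (node
  (nat_lit 6) (nat_lit 31776) (nat_lit 23) nil nil) nil) nil) nil) nil) nil) nil) nil) nil) nil)
  nil) nil) nil) (node (nat_lit 6) (nat_lit 66428) (nat_lit 10) (node (nat_lit 5) (nat_lit 66957)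
  (nat_lit 11) (node (nat_lit 4) (nat_lit 67307) (nat_lit 12) (node (nat_lit 5) (nat_lit 66865)
  (nat_lit 13) (node (nat_lit 6) (nat_lit 66531) (nat_lit 14) (node (nat_lit 4) (nat_lit 66696)
  (nat_lit 15) (node (nat_lit 6) (nat_lit 66493) (nat_lit 16) (node (nat_lit 5) (nat_lit 65493)
  (nat_lit 17) (node (nat_lit 6) (nat_lit 62412) (nat_lit 18) (node (nat_lit 4) (nat_lit 57733)
  (nat_lit 19) (node (nat_lit 5) (nat_lit 38810) (nat_lit 20) nil nil) nil) nil) nil) nil) nil)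
  nil) nil) nil) nil) nil)) nil) (node (nat_lit 3) (nat_lit 70972) (nat_lit 8) (node (nat_lit 5)
  (nat_lit 71691) (nat_lit 9) (node (nat_lit 6) (nat_lit 71118) (nat_lit 10) nil (node (nat_lit
  11) (nat_lit 72448) (nat_lit 10) nil (node (nat_lit 4) (nat_lit 71229) (nat_lit 10) (node
  (nat_lit 5) (nat_lit 71432) (nat_lit 11) (node (nat_lit 6) (nat_lit 69856) (nat_lit 12) (node
  (nat_lit 4) (nat_lit 67480) (nat_lit 13) (node (nat_lit 6) (nat_lit 61781) (nat_lit 14) (node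
  (nat_lit 5) (nat_lit 53165) (nat_lit 15) (node (nat_lit 6) (nat_lit 36969) (nat_lit 16) nil nil)
  nil) nil) nil) nil) nil) nil))) (node (nat_lit 4) (nat_lit 69931) (nat_lit 9) (node (nat_lit 5)
  (nat_lit 68545) (nat_lit 10) (node (nat_lit 6) (nat_lit 64221) (nat_lit 11) (node (nat_lit 4)
  (nat_lit 52013) (nat_lit 12) (node (nat_lit 6) (nat_lit 33298) (nat_lit 13) nil nil) nil) nil)
  nil) nil)) (node (nat_lit 0) (nat_lit 71060) (nat_lit 8) (node (nat_lit 5) (nat_lit 71494)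
  (nat_lit 9) (node (nat_lit 4) (nat_lit 72159) (nat_lit 10) (node (nat_lit 5) (nat_lit 71576)
  (nat_lit 11) (node (nat_lit 6) (nat_lit 70358) (nat_lit 12) (node (nat_lit 4) (nat_lit 70789)
  (nat_lit 13) (node (nat_lit 6) (nat_lit 70086) (nat_lit 14) (node (nat_lit 5) (nat_lit 69732)
  (nat_lit 15) (node (nat_lit 6) (nat_lit 69590) (nat_lit 16) nil nil) nil) nil) nil) nil) nil)
  nil) nil) nil))) (node (nat_lit 4) (nat_lit 58358) (nat_lit 7) (node (nat_lit 5) (nat_lit 61216)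
  (nat_lit 8) (node (nat_lit 6) (nat_lit 62469) (nat_lit 9) (node (nat_lit 4) (nat_lit 41747)
  (nat_lit 10) (node (nat_lit 5) (nat_lit 41747) (nat_lit 11) (node (nat_lit 4) (nat_lit 41747)
  (nat_lit 12) (node (nat_lit 6) (nat_lit 41747) (nat_lit 13) nil nil) nil) (node (nat_lit 3)
  (nat_lit 41747) (nat_lit 11) (node (nat_lit 4) (nat_lit 41747) (nat_lit 12) nil nil) (node
  (nat_lit 6) (nat_lit 34548) (nat_lit 11) nil nil))) (node (nat_lit 5) (nat_lit 62363) (nat_lit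
  10) (node (nat_lit 4) (nat_lit 63208) (nat_lit 11) nil nil) (node (nat_lit 3) (nat_lit 59924)
  (nat_lit 10) nil nil))) (node (nat_lit 3) (nat_lit 64218) (nat_lit 9) nil nil)) (node (nat_lit
  6) (nat_lit 65007) (nat_lit 8) (node (nat_lit 4) (nat_lit 67766) (nat_lit 9) (node (nat_lit 5)
  (nat_lit 66865) (nat_lit 10) (node (nat_lit 6) (nat_lit 65475) (nat_lit 11) (node (nat_lit 5)
  (nat_lit 64730) (nat_lit 12) (node (nat_lit 4) (nat_lit 64958) (nat_lit 13) (node (nat_lit 5)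
  (nat_lit 64767) (nat_lit 14) (node (nat_lit 6) (nat_lit 63399) (nat_lit 15) (node (nat_lit 4)
  (nat_lit 62637) (nat_lit 16) (node (nat_lit 6) (nat_lit 60810) (nat_lit 17) (node (nat_lit 5)
  (nat_lit 58691) (nat_lit 18) (node (nat_lit 4) (nat_lit 54077) (nat_lit 19) (node (nat_lit 6)
  (nat_lit 48546) (nat_lit 20) (node (nat_lit 4) (nat_lit 38178) (nat_lit 21) (node (nat_lit 5)
  (nat_lit 30642) (nat_lit 22) nil nil) nil) nil) nil) nil) nil) nil) nil) nil) nil) nil) nil)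
  nil) nil) (node (nat_lit 3) (nat_lit 68038) (nat_lit 8) (node (nat_lit 4) (nat_lit 68920)
  (nat_lit 9) nil nil) (node (nat_lit 0) (nat_lit 70006) (nat_lit 8) nil nil)))) (node (nat_lit 3)
  (nat_lit 66959) (nat_lit 7) (node (nat_lit 4) (nat_lit 65058) (nat_lit 8) (node (nat_lit 5)
  (nat_lit 60987) (nat_lit 9) (node (nat_lit 6) (nat_lit 49169) (nat_lit 10) (node (nat_lit 4)
  (nat_lit 34124) (nat_lit 11) nil nil) nil) nil) nil) (node (nat_lit 0) (nat_lit 68141) (nat_lit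
  7) nil nil)))) (node (nat_lit 3) (nat_lit 63951) (nat_lit 6) (node (nat_lit 4) (nat_lit 63308)
  (nat_lit 7) (node (nat_lit 5) (nat_lit 62667) (nat_lit 8) (node (nat_lit 6) (nat_lit 50249)
  (nat_lit 9) (node (nat_lit 4) (nat_lit 32725) (nat_lit 10) nil nil) nil) nil) (node (nat_lit 6)
  (nat_lit 63770) (nat_lit 7) (node (nat_lit 5) (nat_lit 62160) (nat_lit 8) nil nil) (node
  (nat_lit 5) (nat_lit 65629) (nat_lit 7) nil nil))) (node (nat_lit 0) (nat_lit 64566) (nat_lit 6)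
  nil nil))) (node (nat_lit 5) (nat_lit 49050) (nat_lit 5) (node (nat_lit 4) (nat_lit 52318)
  (nat_lit 6) (node (nat_lit 6) (nat_lit 60441) (nat_lit 7) (node (nat_lit 5) (nat_lit 68210)
  (nat_lit 8) (node (nat_lit 6) (nat_lit 73341) (nat_lit 9) (node (nat_lit 4) (nat_lit 75451)
  (nat_lit 10) (node (nat_lit 5) (nat_lit 75779) (nat_lit 11) (node (nat_lit 6) (nat_lit 75779)
  (nat_lit 12) nil nil) nil) nil) (node (nat_lit 4) (nat_lit 70000) (nat_lit 9) (node (nat_lit 5)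
  (nat_lit 69498) (nat_lit 10) (node (nat_lit 6) (nat_lit 68982) (nat_lit 11) (node (nat_lit 4)
  (nat_lit 65017) (nat_lit 12) (node (nat_lit 5) (nat_lit 51123) (nat_lit 13) (node (nat_lit 4)
  (nat_lit 34406) (nat_lit 14) nil nil) nil) nil) nil) nil) nil)) (node (nat_lit 3) (nat_lit
  71200) (nat_lit 8) nil (node (nat_lit 0) (nat_lit 73653) (nat_lit 8) nil nil))) (node (nat_lit
  3) (nat_lit 72373) (nat_lit 7) nil (node (nat_lit 0) (nat_lit 71224) (nat_lit 7) nil nil)))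
  (node (nat_lit 3) (nat_lit 66977) (nat_lit 6) (node (nat_lit 4) (nat_lit 68792) (nat_lit 7) nil
  nil) (node (nat_lit 0) (nat_lit 69176) (nat_lit 6) nil nil))) (node (nat_lit 3) (nat_lit 65133)
  (nat_lit 5) (node (nat_lit 6) (nat_lit 70435) (nat_lit 6) nil (node (nat_lit 5) (nat_lit 70142)
  (nat_lit 6) (node (nat_lit 4) (nat_lit 69943) (nat_lit 7) (node (nat_lit 5) (nat_lit 64105)
  (nat_lit 8) (node (nat_lit 8) (nat_lit 64492) (nat_lit 9) (node (nat_lit 4) (nat_lit 61215)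
  (nat_lit 10) nil nil) (node (nat_lit 6) (nat_lit 54119) (nat_lit 9) (node (nat_lit 4) (nat_lit
  36414) (nat_lit 10) nil nil) nil)) (node (nat_lit 8) (nat_lit 71207) (nat_lit 8) (node (nat_lit
  4) (nat_lit 72080) (nat_lit 9) (node (nat_lit 5) (nat_lit 72745) (nat_lit 10) nil nil) nil)
  nil)) (node (nat_lit 8) (nat_lit 73783) (nat_lit 7) (node (nat_lit 4) (nat_lit 72179) (nat_lit
  8) (node (nat_lit 5) (nat_lit 71271) (nat_lit 9) (node (nat_lit 6) (nat_lit 62225) (nat_lit 10)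
  (node (nat_lit 4) (nat_lit 55947) (nat_lit 11) (node (nat_lit 8) (nat_lit 35614) (nat_lit 12)
  nil nil) nil) nil) nil) nil) nil)) (node (nat_lit 4) (nat_lit 69900) (nat_lit 6) (node (nat_lit
  5) (nat_lit 71814) (nat_lit 7) (node (nat_lit 6) (nat_lit 68839) (nat_lit 8) (node (nat_lit 4)
  (nat_lit 35614) (nat_lit 9) nil nil) nil) nil) (node (nat_lit 0) (nat_lit 69086) (nat_lit 6) nil
  nil)))) (node (nat_lit 0) (nat_lit 65151) (nat_lit 5) (node (nat_lit 5) (nat_lit 69357) (nat_lit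
  6) (node (nat_lit 4) (nat_lit 71271) (nat_lit 7) (node (nat_lit 5) (nat_lit 69695) (nat_lit 8)
  (node (nat_lit 6) (nat_lit 67824) (nat_lit 9) (node (nat_lit 4) (nat_lit 68488) (nat_lit 10) nil
  nil) nil) nil) (node (nat_lit 3) (nat_lit 69507) (nat_lit 7) (node (nat_lit 4) (nat_lit 62317)
  (nat_lit 8) nil nil) nil)) (node (nat_lit 6) (nat_lit 70174) (nat_lit 6) (node (nat_lit 3)
  (nat_lit 70323) (nat_lit 7) (node (nat_lit 4) (nat_lit 63134) (nat_lit 8) nil nil) nil) (node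
  (nat_lit 4) (nat_lit 70244) (nat_lit 6) nil (node (nat_lit 3) (nat_lit 64055) (nat_lit 6) (node
  (nat_lit 4) (nat_lit 65975) (nat_lit 7) (node (nat_lit 5) (nat_lit 67239) (nat_lit 8) (node
  (nat_lit 6) (nat_lit 64799) (nat_lit 9) (node (nat_lit 4) (nat_lit 65463) (nat_lit 10) nil nil)
  nil) nil) nil) (node (nat_lit 0) (nat_lit 69104) (nat_lit 6) nil nil))))) nil)))) t30))

noncomputable def t32 : Tr :=
  (node (nat_lit 4) (nat_lit 0) (nat_lit 4) (node (nat_lit 6) (nat_lit 72493) (nat_lit 5) (node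
  (nat_lit 5) (nat_lit 75063) (nat_lit 6) (node (nat_lit 6) (nat_lit 75063) (nat_lit 7) (node
  (nat_lit 4) (nat_lit 76060) (nat_lit 8) (node (nat_lit 5) (nat_lit 76295) (nat_lit 9) (node
  (nat_lit 4) (nat_lit 76478) (nat_lit 10) (node (nat_lit 6) (nat_lit 76478) (nat_lit 11) (node
  (nat_lit 4) (nat_lit 76732) (nat_lit 12) (node (nat_lit 5) (nat_lit 76819) (nat_lit 13) (node
  (nat_lit 6) (nat_lit 76819) (nat_lit 14) (node (nat_lit 4) (nat_lit 76940) (nat_lit 15) (node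
  (nat_lit 6) (nat_lit 76940) (nat_lit 16) (node (nat_lit 5) (nat_lit 77014) (nat_lit 17) (node
  (nat_lit 6) (nat_lit 77014) (nat_lit 18) (node (nat_lit 4) (nat_lit 77059) (nat_lit 19) (node
  (nat_lit 5) (nat_lit 77074) (nat_lit 20) nil nil) nil) nil) nil) nil) nil) nil) nil) nil) nil)
  nil) nil) nil) (node (nat_lit 4) (nat_lit 75667) (nat_lit 7) (node (nat_lit 6) (nat_lit 75667)
  (nat_lit 8) (node (nat_lit 4) (nat_lit 76295) (nat_lit 9) (node (nat_lit 5) (nat_lit 76478)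
  (nat_lit 10) (node (nat_lit 6) (nat_lit 76478) (nat_lit 11) (node (nat_lit 4) (nat_lit 76732)
  (nat_lit 12) (node (nat_lit 6) (nat_lit 76732) (nat_lit 13) (node (nat_lit 5) (nat_lit 76887)
  (nat_lit 14) nil nil) nil) nil) nil) nil) nil) nil) (node (nat_lit 3) (nat_lit 75920) (nat_lit
  7) nil nil))) (node (nat_lit 3) (nat_lit 73835) (nat_lit 6) (node (nat_lit 4) (nat_lit 67863)
  (nat_lit 7) (node (nat_lit 5) (nat_lit 63501) (nat_lit 8) (node (nat_lit 6) (nat_lit 52992)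
  (nat_lit 9) (node (nat_lit 4) (nat_lit 40569) (nat_lit 10) nil nil) nil) nil) nil) nil)) (node
  (nat_lit 5) (nat_lit 36936) (nat_lit 5) (node (nat_lit 4) (nat_lit 37365) (nat_lit 6) (node
  (nat_lit 6) (nat_lit 37365) (nat_lit 7) (node (nat_lit 4) (nat_lit 37365) (nat_lit 8) (node
  (nat_lit 0) (nat_lit 37365) (nat_lit 9) nil (node (nat_lit 3) (nat_lit 37365) (nat_lit 9) (node
  (nat_lit 4) (nat_lit 37365) (nat_lit 10) (node (nat_lit 5) (nat_lit 37365) (nat_lit 11) (node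
  (nat_lit 6) (nat_lit 37365) (nat_lit 12) nil nil) nil) nil) (node (nat_lit 2) (nat_lit 37365)
  (nat_lit 9) nil nil))) nil) nil) (node (nat_lit 3) (nat_lit 37193) (nat_lit 6) (node (nat_lit 6)
  (nat_lit 36428) (nat_lit 7) (node (nat_lit 4) (nat_lit 37129) (nat_lit 8) nil (node (nat_lit 9)
  (nat_lit 36309) (nat_lit 8) (node (nat_lit 4) (nat_lit 34991) (nat_lit 9) (node (nat_lit 5)
  (nat_lit 32566) (nat_lit 10) nil nil) nil) nil)) (node (nat_lit 4) (nat_lit 37365) (nat_lit 7)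
  (node (nat_lit 5) (nat_lit 37365) (nat_lit 8) (node (nat_lit 6) (nat_lit 37365) (nat_lit 9) nil
  nil) nil) nil)) nil)) (node (nat_lit 3) (nat_lit 73835) (nat_lit 5) (node (nat_lit 4) (nat_lit
  75155) (nat_lit 6) (node (nat_lit 5) (nat_lit 75580) (nat_lit 7) (node (nat_lit 6) (nat_lit
  75580) (nat_lit 8) (node (nat_lit 4) (nat_lit 38580) (nat_lit 9) nil nil) nil) nil) nil) (node
  (nat_lit 0) (nat_lit 74577) (nat_lit 5) (node (nat_lit 6) (nat_lit 74577) (nat_lit 6) (node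
  (nat_lit 4) (nat_lit 75580) (nat_lit 7) (node (nat_lit 5) (nat_lit 75828) (nat_lit 8) (node
  (nat_lit 6) (nat_lit 75828) (nat_lit 9) nil nil) nil) nil) nil) (node (nat_lit 2) (nat_lit
  73835) (nat_lit 5) (node (nat_lit 6) (nat_lit 66716) (nat_lit 6) (node (nat_lit 4) (nat_lit
  64789) (nat_lit 7) (node (nat_lit 5) (nat_lit 59047) (nat_lit 8) (node (nat_lit 6) (nat_lit
  51461) (nat_lit 9) nil nil) nil) nil) (node (nat_lit 5) (nat_lit 75155) (nat_lit 6) nil nil))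
  nil))))) (node (nat_lit 5) (nat_lit 0) (nat_lit 4) (node (nat_lit 4) (nat_lit 77277) (nat_lit 5)
  (node (nat_lit 6) (nat_lit 77277) (nat_lit 6) (node (nat_lit 4) (nat_lit 78156) (nat_lit 7)
  (node (nat_lit 5) (nat_lit 78456) (nat_lit 8) (node (nat_lit 6) (nat_lit 78456) (nat_lit 9)
  (node (nat_lit 5) (nat_lit 78874) (nat_lit 10) (node (nat_lit 4) (nat_lit 37365) (nat_lit 11)
  nil nil) (node (nat_lit 4) (nat_lit 78874) (nat_lit 10) (node (nat_lit 6) (nat_lit 78874)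
  (nat_lit 11) (node (nat_lit 5) (nat_lit 79128) (nat_lit 12) (node (nat_lit 6) (nat_lit 79128)
  (nat_lit 13) (node (nat_lit 4) (nat_lit 79283) (nat_lit 14) (node (nat_lit 5) (nat_lit 79337)
  (nat_lit 15) (node (nat_lit 6) (nat_lit 79337) (nat_lit 16) (node (nat_lit 5) (nat_lit 79410)
  (nat_lit 17) (node (nat_lit 4) (nat_lit 79435) (nat_lit 18) (node (nat_lit 6) (nat_lit 79435)
  (nat_lit 19) (node (nat_lit 4) (nat_lit 79470) (nat_lit 20) (node (nat_lit 5) (nat_lit 79482)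
  (nat_lit 21) (node (nat_lit 6) (nat_lit 79482) (nat_lit 22) (node (nat_lit 4) (nat_lit 79499)
  (nat_lit 23) (node (nat_lit 6) (nat_lit 79499) (nat_lit 24) (node (nat_lit 5) (nat_lit 37365)
  (nat_lit 25) nil nil) nil) nil) nil) nil) nil) nil) nil) nil) nil) nil) nil) nil) nil) nil)
  nil)) (node (nat_lit 4) (nat_lit 78691) (nat_lit 9) (node (nat_lit 6) (nat_lit 78691) (nat_lit
  10) (node (nat_lit 5) (nat_lit 79017) (nat_lit 11) (node (nat_lit 6) (nat_lit 79017) (nat_lit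
  12) (node (nat_lit 4) (nat_lit 79215) (nat_lit 13) (node (nat_lit 5) (nat_lit 79283) (nat_lit
  14) (node (nat_lit 6) (nat_lit 79283) (nat_lit 15) (node (nat_lit 5) (nat_lit 79378) (nat_lit
  16) (node (nat_lit 4) (nat_lit 79410) (nat_lit 17) (node (nat_lit 6) (nat_lit 79410) (nat_lit
  18) (node (nat_lit 4) (nat_lit 79455) (nat_lit 19) (node (nat_lit 5) (nat_lit 79470) (nat_lit
  20) (node (nat_lit 4) (nat_lit 79482) (nat_lit 21) (node (nat_lit 6) (nat_lit 79482) (nat_lit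
  22) (node (nat_lit 5) (nat_lit 37365) (nat_lit 23) nil nil) nil) nil) nil) nil) nil) nil) nil)
  nil) nil) nil) nil) nil) nil) nil)) nil) (node (nat_lit 3) (nat_lit 78337) (nat_lit 7) (node
  (nat_lit 4) (nat_lit 78140) (nat_lit 8) (node (nat_lit 5) (nat_lit 75261) (nat_lit 9) (node
  (nat_lit 6) (nat_lit 58329) (nat_lit 10) (node (nat_lit 5) (nat_lit 50658) (nat_lit 11) (node
  (nat_lit 4) (nat_lit 42983) (nat_lit 12) nil nil) nil) nil) nil) nil) (node (nat_lit 5) (nat_lit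
  78156) (nat_lit 7) (node (nat_lit 6) (nat_lit 78156) (nat_lit 8) (node (nat_lit 4) (nat_lit
  78691) (nat_lit 9) (node (nat_lit 5) (nat_lit 78874) (nat_lit 10) (node (nat_lit 6) (nat_lit
  78874) (nat_lit 11) (node (nat_lit 5) (nat_lit 79128) (nat_lit 12) (node (nat_lit 4) (nat_lit
  79215) (nat_lit 13) (node (nat_lit 6) (nat_lit 79215) (nat_lit 14) nil nil) nil) nil) (node
  (nat_lit 4) (nat_lit 79017) (nat_lit 11) (node (nat_lit 6) (nat_lit 79017) (nat_lit 12) (node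
  (nat_lit 4) (nat_lit 79215) (nat_lit 13) (node (nat_lit 5) (nat_lit 79283) (nat_lit 14) (node
  (nat_lit 6) (nat_lit 79283) (nat_lit 15) (node (nat_lit 5) (nat_lit 79378) (nat_lit 16) (node
  (nat_lit 4) (nat_lit 79410) (nat_lit 17) (node (nat_lit 6) (nat_lit 79410) (nat_lit 18) (node
  (nat_lit 5) (nat_lit 79455) (nat_lit 19) (node (nat_lit 6) (nat_lit 79455) (nat_lit 20) (node
  (nat_lit 4) (nat_lit 79482) (nat_lit 21) (node (nat_lit 5) (nat_lit 79492) (nat_lit 22) nil nil)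
  nil) nil) nil) nil) nil) nil) nil) nil) nil) nil) nil)) nil) nil) nil) nil))) (node (nat_lit 5)
  (nat_lit 78663) (nat_lit 6) (node (nat_lit 3) (nat_lit 79520) (nat_lit 7) nil nil) (node
  (nat_lit 3) (nat_lit 78346) (nat_lit 6) (node (nat_lit 4) (nat_lit 78833) (nat_lit 7) (node
  (nat_lit 5) (nat_lit 78989) (nat_lit 8) (node (nat_lit 6) (nat_lit 78989) (nat_lit 9) (node
  (nat_lit 5) (nat_lit 79198) (nat_lit 10) nil nil) nil) nil) nil) nil))) (node (nat_lit 3)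
  (nat_lit 75201) (nat_lit 5) (node (nat_lit 6) (nat_lit 75286) (nat_lit 6) (node (nat_lit 8)
  (nat_lit 75303) (nat_lit 7) (node (nat_lit 5) (nat_lit 77296) (nat_lit 8) (node (nat_lit 8)
  (nat_lit 77296) (nat_lit 9) (node (nat_lit 6) (nat_lit 77196) (nat_lit 10) nil nil) (node
  (nat_lit 6) (nat_lit 77296) (nat_lit 9) nil nil)) (node (nat_lit 4) (nat_lit 75605) (nat_lit 8)
  (node (nat_lit 5) (nat_lit 70869) (nat_lit 9) (node (nat_lit 6) (nat_lit 65796) (nat_lit 10)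
  (node (nat_lit 5) (nat_lit 55367) (nat_lit 11) (node (nat_lit 8) (nat_lit 40426) (nat_lit 12)
  nil nil) nil) nil) nil) nil)) (node (nat_lit 4) (nat_lit 75153) (nat_lit 7) (node (nat_lit 8)
  (nat_lit 76518) (nat_lit 8) (node (nat_lit 4) (nat_lit 77414) (nat_lit 9) (node (nat_lit 5)
  (nat_lit 77505) (nat_lit 10) (node (nat_lit 6) (nat_lit 77505) (nat_lit 11) nil nil) nil) nil)
  (node (nat_lit 5) (nat_lit 67952) (nat_lit 8) (node (nat_lit 6) (nat_lit 56804) (nat_lit 9)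
  (node (nat_lit 5) (nat_lit 41536) (nat_lit 10) nil nil) (node (nat_lit 8) (nat_lit 67287)
  (nat_lit 9) nil nil)) nil)) nil)) (node (nat_lit 4) (nat_lit 76623) (nat_lit 6) (node (nat_lit
  5) (nat_lit 77048) (nat_lit 7) (node (nat_lit 6) (nat_lit 77048) (nat_lit 8) nil nil) nil) (node
  (nat_lit 5) (nat_lit 76623) (nat_lit 6) (node (nat_lit 6) (nat_lit 76623) (nat_lit 7) (node
  (nat_lit 8) (nat_lit 76623) (nat_lit 8) nil nil) nil) nil))) (node (nat_lit 0) (nat_lit 77332)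
  (nat_lit 5) (node (nat_lit 6) (nat_lit 75141) (nat_lit 6) (node (nat_lit 4) (nat_lit 76206)
  (nat_lit 7) (node (nat_lit 5) (nat_lit 76908) (nat_lit 8) nil nil) nil) nil) (node (nat_lit 2)
  (nat_lit 74905) (nat_lit 5) (node (nat_lit 6) (nat_lit 72449) (nat_lit 6) (node (nat_lit 4)
  (nat_lit 70693) (nat_lit 7) (node (nat_lit 5) (nat_lit 57110) (nat_lit 8) (node (nat_lit 6)
  (nat_lit 46793) (nat_lit 9) (node (nat_lit 5) (nat_lit 32002) (nat_lit 10) nil nil) nil) nil)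
  (node (nat_lit 5) (nat_lit 73909) (nat_lit 7) nil nil)) (node (nat_lit 3) (nat_lit 71970)
  (nat_lit 6) (node (nat_lit 4) (nat_lit 65192) (nat_lit 7) (node (nat_lit 5) (nat_lit 59500)
  (nat_lit 8) nil nil) nil) nil)) nil)))) (node (nat_lit 3) (nat_lit 0) (nat_lit 4) (node (nat_lit
  5) (nat_lit 72256) (nat_lit 5) (node (nat_lit 7) (nat_lit 72256) (nat_lit 6) (node (nat_lit 6)
  (nat_lit 72256) (nat_lit 7) (node (nat_lit 7) (nat_lit 72256) (nat_lit 8) nil nil) (node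
  (nat_lit 4) (nat_lit 73259) (nat_lit 7) (node (nat_lit 5) (nat_lit 73579) (nat_lit 8) (node
  (nat_lit 6) (nat_lit 73579) (nat_lit 9) (node (nat_lit 7) (nat_lit 73579) (nat_lit 10) nil nil)
  nil) nil) nil)) (node (nat_lit 4) (nat_lit 72834) (nat_lit 6) (node (nat_lit 6) (nat_lit 72834)
  (nat_lit 7) (node (nat_lit 4) (nat_lit 73579) (nat_lit 8) (node (nat_lit 5) (nat_lit 73821)
  (nat_lit 9) (node (nat_lit 6) (nat_lit 73821) (nat_lit 10) (node (nat_lit 7) (nat_lit 73821)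
  (nat_lit 11) (node (nat_lit 5) (nat_lit 74272) (nat_lit 12) nil nil) nil) nil) nil) nil) nil)
  (node (nat_lit 6) (nat_lit 72256) (nat_lit 6) (node (nat_lit 5) (nat_lit 73259) (nat_lit 7)
  (node (nat_lit 7) (nat_lit 73259) (nat_lit 8) (node (nat_lit 6) (nat_lit 73259) (nat_lit 9)
  (node (nat_lit 7) (nat_lit 73259) (nat_lit 10) (node (nat_lit 5) (nat_lit 74157) (nat_lit 11)
  (node (nat_lit 6) (nat_lit 74157) (nat_lit 12) nil nil) nil) nil) nil) nil) (node (nat_lit 4)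
  (nat_lit 73259) (nat_lit 7) (node (nat_lit 5) (nat_lit 73579) (nat_lit 8) nil nil) nil)) nil)))
  (node (nat_lit 4) (nat_lit 65277) (nat_lit 5) (node (nat_lit 5) (nat_lit 42983) (nat_lit 6)
  (node (nat_lit 7) (nat_lit 42983) (nat_lit 7) (node (nat_lit 6) (nat_lit 42983) (nat_lit 8)
  (node (nat_lit 7) (nat_lit 42983) (nat_lit 9) (node (nat_lit 4) (nat_lit 42983) (nat_lit 10) nil
  nil) nil) nil) nil) (node (nat_lit 6) (nat_lit 67478) (nat_lit 6) (node (nat_lit 4) (nat_lit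
  68544) (nat_lit 7) nil nil) (node (nat_lit 7) (nat_lit 65756) (nat_lit 6) (node (nat_lit 6)
  (nat_lit 63581) (nat_lit 7) nil (node (nat_lit 5) (nat_lit 67324) (nat_lit 7) nil nil)) nil)))
  (node (nat_lit 6) (nat_lit 0) (nat_lit 5) (node (nat_lit 4) (nat_lit 67595) (nat_lit 6) (node
  (nat_lit 7) (nat_lit 67595) (nat_lit 7) (node (nat_lit 4) (nat_lit 68340) (nat_lit 8) (node
  (nat_lit 6) (nat_lit 68340) (nat_lit 9) (node (nat_lit 4) (nat_lit 68770) (nat_lit 10) (node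
  (nat_lit 7) (nat_lit 68770) (nat_lit 11) nil nil) nil) nil) nil) (node (nat_lit 5) (nat_lit
  58577) (nat_lit 7) (node (nat_lit 6) (nat_lit 36626) (nat_lit 8) nil (node (nat_lit 4) (nat_lit
  58897) (nat_lit 8) nil (node (nat_lit 7) (nat_lit 58577) (nat_lit 8) (node (nat_lit 4) (nat_lit
  59139) (nat_lit 9) nil nil) nil))) nil)) (node (nat_lit 5) (nat_lit 69717) (nat_lit 6) (node
  (nat_lit 7) (nat_lit 69717) (nat_lit 7) (node (nat_lit 6) (nat_lit 69717) (nat_lit 8) (node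
  (nat_lit 7) (nat_lit 69717) (nat_lit 9) (node (nat_lit 5) (nat_lit 70892) (nat_lit 10) (node
  (nat_lit 6) (nat_lit 70892) (nat_lit 11) (node (nat_lit 7) (nat_lit 70892) (nat_lit 12) (node
  (nat_lit 6) (nat_lit 70892) (nat_lit 13) (node (nat_lit 5) (nat_lit 71314) (nat_lit 14) (node
  (nat_lit 7) (nat_lit 71314) (nat_lit 15) (node (nat_lit 5) (nat_lit 71412) (nat_lit 16) (node
  (nat_lit 6) (nat_lit 71412) (nat_lit 17) nil nil) (node (nat_lit 4) (nat_lit 71412) (nat_lit 16)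
  nil nil)) nil) nil) nil) nil) nil) nil) nil) nil) (node (nat_lit 6) (nat_lit 69717) (nat_lit 7)
  nil nil)) (node (nat_lit 0) (nat_lit 65594) (nat_lit 6) nil (node (nat_lit 2) (nat_lit 61454)
  (nat_lit 6) (node (nat_lit 7) (nat_lit 60668) (nat_lit 7) nil (node (nat_lit 6) (nat_lit 60565)
  (nat_lit 7) nil nil)) nil)))) (node (nat_lit 0) (nat_lit 66810) (nat_lit 5) (node (nat_lit 6)
  (nat_lit 66810) (nat_lit 6) nil (node (nat_lit 7) (nat_lit 66810) (nat_lit 6) nil nil)) (node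
  (nat_lit 2) (nat_lit 59380) (nat_lit 5) (node (nat_lit 6) (nat_lit 59997) (nat_lit 6) (node
  (nat_lit 7) (nat_lit 59486) (nat_lit 7) (node (nat_lit 6) (nat_lit 59902) (nat_lit 8) nil nil)
  (node (nat_lit 4) (nat_lit 59219) (nat_lit 7) (node (nat_lit 5) (nat_lit 42416) (nat_lit 8) nil
  nil) nil)) (node (nat_lit 7) (nat_lit 60136) (nat_lit 6) (node (nat_lit 6) (nat_lit 57494)
  (nat_lit 7) nil (node (nat_lit 4) (nat_lit 62096) (nat_lit 7) (node (nat_lit 5) (nat_lit 49859)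
  (nat_lit 8) (node (nat_lit 6) (nat_lit 46759) (nat_lit 9) nil nil) nil) nil)) (node (nat_lit 5)
  (nat_lit 65594) (nat_lit 6) nil (node (nat_lit 4) (nat_lit 63879) (nat_lit 6) nil nil))))
  nil))))) (node (nat_lit 0) (nat_lit 0) (nat_lit 4) (node (nat_lit 5) (nat_lit 73680) (nat_lit 5)
  (node (nat_lit 7) (nat_lit 74258) (nat_lit 6) (node (nat_lit 6) (nat_lit 74258) (nat_lit 7) nil
  nil) (node (nat_lit 6) (nat_lit 73680) (nat_lit 6) (node (nat_lit 4) (nat_lit 74683) (nat_lit 7)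
  (node (nat_lit 5) (nat_lit 75003) (nat_lit 8) nil nil) nil) nil)) (node (nat_lit 6) (nat_lit
  72501) (nat_lit 5) (node (nat_lit 5) (nat_lit 73821) (nat_lit 6) nil (node (nat_lit 4) (nat_lit
  73821) (nat_lit 6) (node (nat_lit 5) (nat_lit 74246) (nat_lit 7) (node (nat_lit 6) (nat_lit
  74246) (nat_lit 8) (node (nat_lit 7) (nat_lit 32630) (nat_lit 9) nil nil) nil) nil) (node
  (nat_lit 3) (nat_lit 67185) (nat_lit 6) nil nil))) (node (nat_lit 4) (nat_lit 73680) (nat_lit 5)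
  (node (nat_lit 6) (nat_lit 73680) (nat_lit 6) (node (nat_lit 4) (nat_lit 74683) (nat_lit 7) nil
  nil) nil) (node (nat_lit 3) (nat_lit 72501) (nat_lit 5) (node (nat_lit 6) (nat_lit 71282)
  (nat_lit 6) nil (node (nat_lit 7) (nat_lit 73821) (nat_lit 6) (node (nat_lit 6) (nat_lit 73821)
  (nat_lit 7) (node (nat_lit 8) (nat_lit 73821) (nat_lit 8) nil nil) nil) (node (nat_lit 4)
  (nat_lit 73821) (nat_lit 6) nil nil))) (node (nat_lit 0) (nat_lit 73243) (nat_lit 5) (node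
  (nat_lit 6) (nat_lit 73243) (nat_lit 6) nil nil) (node (nat_lit 2) (nat_lit 70318) (nat_lit 5)
  (node (nat_lit 6) (nat_lit 62968) (nat_lit 6) (node (nat_lit 4) (nat_lit 61392) (nat_lit 7) nil
  nil) (node (nat_lit 7) (nat_lit 73358) (nat_lit 6) nil (node (nat_lit 3) (nat_lit 66808)
  (nat_lit 6) (node (nat_lit 4) (nat_lit 65232) (nat_lit 7) nil nil) nil))) nil)))))) (node
  (nat_lit 2) (nat_lit 0) (nat_lit 4) (node (nat_lit 5) (nat_lit 70430) (nat_lit 5) (node (nat_lit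
  7) (nat_lit 70060) (nat_lit 6) (node (nat_lit 6) (nat_lit 67226) (nat_lit 7) nil nil) (node
  (nat_lit 6) (nat_lit 70060) (nat_lit 6) (node (nat_lit 4) (nat_lit 71126) (nat_lit 7) (node
  (nat_lit 5) (nat_lit 71753) (nat_lit 8) (node (nat_lit 6) (nat_lit 70535) (nat_lit 9) (node
  (nat_lit 7) (nat_lit 69473) (nat_lit 10) nil nil) nil) nil) nil) (node (nat_lit 4) (nat_lit
  71008) (nat_lit 6) (node (nat_lit 6) (nat_lit 71008) (nat_lit 7) nil nil) (node (nat_lit 3)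
  (nat_lit 70430) (nat_lit 6) nil nil)))) (node (nat_lit 6) (nat_lit 60885) (nat_lit 5) (node
  (nat_lit 5) (nat_lit 67392) (nat_lit 6) (node (nat_lit 6) (nat_lit 67392) (nat_lit 7) nil nil)
  (node (nat_lit 4) (nat_lit 67392) (nat_lit 6) (node (nat_lit 5) (nat_lit 58577) (nat_lit 7)
  (node (nat_lit 6) (nat_lit 34799) (nat_lit 8) nil (node (nat_lit 4) (nat_lit 58897) (nat_lit 8)
  nil (node (nat_lit 7) (nat_lit 58577) (nat_lit 8) nil nil))) (node (nat_lit 7) (nat_lit 67392)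
  (nat_lit 7) (node (nat_lit 5) (nat_lit 67801) (nat_lit 8) (node (nat_lit 6) (nat_lit 67801)
  (nat_lit 9) (node (nat_lit 7) (nat_lit 67801) (nat_lit 10) (node (nat_lit 6) (nat_lit 67643)
  (nat_lit 11) nil nil) nil) nil) nil) nil)) (node (nat_lit 3) (nat_lit 60885) (nat_lit 6) (node
  (nat_lit 4) (nat_lit 59305) (nat_lit 7) nil (node (nat_lit 6) (nat_lit 59735) (nat_lit 7) nil
  (node (nat_lit 5) (nat_lit 65625) (nat_lit 7) (node (nat_lit 6) (nat_lit 65625) (nat_lit 8) nil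
  nil) nil))) (node (nat_lit 0) (nat_lit 65384) (nat_lit 6) (node (nat_lit 6) (nat_lit 65384)
  (nat_lit 7) nil nil) nil)))) (node (nat_lit 4) (nat_lit 70430) (nat_lit 5) (node (nat_lit 6)
  (nat_lit 70430) (nat_lit 6) (node (nat_lit 4) (nat_lit 71433) (nat_lit 7) (node (nat_lit 5)
  (nat_lit 71753) (nat_lit 8) (node (nat_lit 6) (nat_lit 71753) (nat_lit 9) (node (nat_lit 7)
  (nat_lit 71753) (nat_lit 10) nil nil) nil) nil) nil) (node (nat_lit 7) (nat_lit 70430) (nat_lit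
  6) (node (nat_lit 6) (nat_lit 67275) (nat_lit 7) nil (node (nat_lit 5) (nat_lit 71433) (nat_lit
  7) (node (nat_lit 6) (nat_lit 71433) (nat_lit 8) (node (nat_lit 7) (nat_lit 71433) (nat_lit 9)
  nil nil) nil) nil)) nil)) (node (nat_lit 3) (nat_lit 59215) (nat_lit 5) (node (nat_lit 6)
  (nat_lit 59846) (nat_lit 6) (node (nat_lit 5) (nat_lit 64670) (nat_lit 7) nil (node (nat_lit 8)
  (nat_lit 59846) (nat_lit 7) nil (node (nat_lit 4) (nat_lit 61858) (nat_lit 7) (node (nat_lit 5)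
  (nat_lit 45238) (nat_lit 8) (node (nat_lit 6) (nat_lit 35851) (nat_lit 9) nil nil) nil) (node
  (nat_lit 7) (nat_lit 59846) (nat_lit 7) (node (nat_lit 6) (nat_lit 59614) (nat_lit 8) (node
  (nat_lit 8) (nat_lit 58506) (nat_lit 9) nil nil) nil) nil)))) (node (nat_lit 7) (nat_lit 61270)
  (nat_lit 6) (node (nat_lit 6) (nat_lit 60781) (nat_lit 7) (node (nat_lit 8) (nat_lit 60476)
  (nat_lit 8) nil nil) (node (nat_lit 5) (nat_lit 65625) (nat_lit 7) nil nil)) (node (nat_lit 4)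
  (nat_lit 57124) (nat_lit 6) (node (nat_lit 5) (nat_lit 41774) (nat_lit 7) nil (node (nat_lit 6)
  (nat_lit 56160) (nat_lit 7) nil nil)) (node (nat_lit 5) (nat_lit 65389) (nat_lit 6) (node
  (nat_lit 6) (nat_lit 65389) (nat_lit 7) nil nil) (node (nat_lit 0) (nat_lit 63714) (nat_lit 6)
  nil nil))))) (node (nat_lit 0) (nat_lit 66810) (nat_lit 5) (node (nat_lit 6) (nat_lit 66810)
  (nat_lit 6) nil (node (nat_lit 7) (nat_lit 66810) (nat_lit 6) (node (nat_lit 6) (nat_lit 66810)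
  (nat_lit 7) nil nil) (node (nat_lit 3) (nat_lit 66810) (nat_lit 6) nil nil))) nil))))) nil)))))

noncomputable def t33 : Tr :=
  (node (nat_lit 0) (nat_lit 54273) (nat_lit 8) (node (nat_lit 5) (nat_lit 54869) (nat_lit 9)
  (node (nat_lit 6) (nat_lit 55217) (nat_lit 10) (node (nat_lit 5) (nat_lit 55583) (nat_lit 11)
  (node (nat_lit 11) (nat_lit 55884) (nat_lit 12) (node (nat_lit 6) (nat_lit 56110) (nat_lit 13)
  (node (nat_lit 5) (nat_lit 56286) (nat_lit 14) (node (nat_lit 6) (nat_lit 56415) (nat_lit 15)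
  (node (nat_lit 11) (nat_lit 56512) (nat_lit 16) nil nil) nil) (node (nat_lit 11) (nat_lit 56286)
  (nat_lit 14) (node (nat_lit 5) (nat_lit 56415) (nat_lit 15) nil (node (nat_lit 4) (nat_lit
  56415) (nat_lit 15) nil nil)) (node (nat_lit 4) (nat_lit 56286) (nat_lit 14) (node (nat_lit 5)
  (nat_lit 56415) (nat_lit 15) nil nil) (node (nat_lit 3) (nat_lit 55782) (nat_lit 14) nil (node
  (nat_lit 0) (nat_lit 56286) (nat_lit 14) nil nil))))) (node (nat_lit 5) (nat_lit 56110) (nat_lit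
  13) (node (nat_lit 6) (nat_lit 56286) (nat_lit 14) (node (nat_lit 11) (nat_lit 56415) (nat_lit
  15) (node (nat_lit 6) (nat_lit 56512) (nat_lit 16) nil nil) (node (nat_lit 4) (nat_lit 56415)
  (nat_lit 15) nil nil)) (node (nat_lit 4) (nat_lit 56286) (nat_lit 14) nil (node (nat_lit 3)
  (nat_lit 55782) (nat_lit 14) nil nil))) (node (nat_lit 4) (nat_lit 56110) (nat_lit 13) (node
  (nat_lit 5) (nat_lit 56286) (nat_lit 14) nil (node (nat_lit 6) (nat_lit 56286) (nat_lit 14) nil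
  nil)) (node (nat_lit 3) (nat_lit 55452) (nat_lit 13) (node (nat_lit 6) (nat_lit 55438) (nat_lit
  14) nil nil) (node (nat_lit 0) (nat_lit 56110) (nat_lit 13) (node (nat_lit 6) (nat_lit 56286)
  (nat_lit 14) nil nil) nil))))) (node (nat_lit 4) (nat_lit 55861) (nat_lit 12) (node (nat_lit 6)
  (nat_lit 56087) (nat_lit 13) (node (nat_lit 5) (nat_lit 56263) (nat_lit 14) (node (nat_lit 6)
  (nat_lit 56392) (nat_lit 15) (node (nat_lit 4) (nat_lit 56490) (nat_lit 16) nil nil) nil) (node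
  (nat_lit 4) (nat_lit 56263) (nat_lit 14) (node (nat_lit 5) (nat_lit 56392) (nat_lit 15) nil nil)
  (node (nat_lit 11) (nat_lit 56263) (nat_lit 14) nil nil))) (node (nat_lit 5) (nat_lit 56087)
  (nat_lit 13) nil (node (nat_lit 11) (nat_lit 56087) (nat_lit 13) (node (nat_lit 4) (nat_lit
  56263) (nat_lit 14) nil (node (nat_lit 6) (nat_lit 56263) (nat_lit 14) nil nil)) (node (nat_lit
  3) (nat_lit 55429) (nat_lit 13) nil (node (nat_lit 0) (nat_lit 56087) (nat_lit 13) nil nil)))))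
  (node (nat_lit 3) (nat_lit 55014) (nat_lit 12) (node (nat_lit 6) (nat_lit 55030) (nat_lit 13)
  nil (node (nat_lit 4) (nat_lit 55240) (nat_lit 13) nil (node (nat_lit 5) (nat_lit 55240)
  (nat_lit 13) nil (node (nat_lit 11) (nat_lit 55240) (nat_lit 13) nil nil)))) (node (nat_lit 0)
  (nat_lit 55861) (nat_lit 12) (node (nat_lit 6) (nat_lit 56087) (nat_lit 13) nil (node (nat_lit
  5) (nat_lit 56087) (nat_lit 13) nil (node (nat_lit 4) (nat_lit 56087) (nat_lit 13) nil (node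
  (nat_lit 11) (nat_lit 56087) (nat_lit 13) nil nil)))) nil)))) (node (nat_lit 4) (nat_lit 55524)
  (nat_lit 11) (node (nat_lit 5) (nat_lit 55803) (nat_lit 12) (node (nat_lit 4) (nat_lit 56029)
  (nat_lit 13) (node (nat_lit 6) (nat_lit 56205) (nat_lit 14) nil nil) (node (nat_lit 11) (nat_lit
  56029) (nat_lit 13) (node (nat_lit 6) (nat_lit 56205) (nat_lit 14) nil nil) nil)) (node (nat_lit
  11) (nat_lit 55803) (nat_lit 12) (node (nat_lit 6) (nat_lit 56029) (nat_lit 13) nil (node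
  (nat_lit 4) (nat_lit 56029) (nat_lit 13) nil (node (nat_lit 5) (nat_lit 56029) (nat_lit 13) nil
  nil))) (node (nat_lit 6) (nat_lit 55803) (nat_lit 12) nil (node (nat_lit 3) (nat_lit 54955)
  (nat_lit 12) (node (nat_lit 4) (nat_lit 55181) (nat_lit 13) nil nil) (node (nat_lit 0) (nat_lit
  55803) (nat_lit 12) nil nil))))) (node (nat_lit 3) (nat_lit 55524) (nat_lit 11) (node (nat_lit
  6) (nat_lit 54508) (nat_lit 12) (node (nat_lit 4) (nat_lit 54373) (nat_lit 13) nil (node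
  (nat_lit 5) (nat_lit 54734) (nat_lit 13) nil nil)) (node (nat_lit 11) (nat_lit 55803) (nat_lit
  12) (node (nat_lit 6) (nat_lit 56029) (nat_lit 13) nil nil) (node (nat_lit 4) (nat_lit 55803)
  (nat_lit 12) (node (nat_lit 6) (nat_lit 56029) (nat_lit 13) nil nil) (node (nat_lit 5) (nat_lit
  55803) (nat_lit 12) nil (node (nat_lit 0) (nat_lit 55803) (nat_lit 12) nil nil))))) (node
  (nat_lit 0) (nat_lit 55524) (nat_lit 11) (node (nat_lit 6) (nat_lit 55803) (nat_lit 12) (node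
  (nat_lit 4) (nat_lit 56029) (nat_lit 13) nil nil) (node (nat_lit 4) (nat_lit 55803) (nat_lit 12)
  nil (node (nat_lit 11) (nat_lit 55803) (nat_lit 12) (node (nat_lit 6) (nat_lit 56029) (nat_lit
  13) nil nil) (node (nat_lit 5) (nat_lit 55803) (nat_lit 12) nil nil)))) nil)))) (node (nat_lit
  11) (nat_lit 55248) (nat_lit 10) (node (nat_lit 6) (nat_lit 55555) (nat_lit 11) (node (nat_lit
  5) (nat_lit 55834) (nat_lit 12) (node (nat_lit 6) (nat_lit 56060) (nat_lit 13) nil nil) (node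
  (nat_lit 11) (nat_lit 55834) (nat_lit 12) (node (nat_lit 5) (nat_lit 56060) (nat_lit 13) nil
  nil) (node (nat_lit 4) (nat_lit 55834) (nat_lit 12) (node (nat_lit 5) (nat_lit 56060) (nat_lit
  13) (node (nat_lit 6) (nat_lit 56236) (nat_lit 14) nil nil) nil) nil))) (node (nat_lit 4)
  (nat_lit 55555) (nat_lit 11) (node (nat_lit 5) (nat_lit 55834) (nat_lit 12) nil (node (nat_lit
  6) (nat_lit 55834) (nat_lit 12) nil nil)) (node (nat_lit 3) (nat_lit 54498) (nat_lit 11) nil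
  nil))) (node (nat_lit 4) (nat_lit 55217) (nat_lit 10) (node (nat_lit 5) (nat_lit 55524) (nat_lit
  11) nil (node (nat_lit 6) (nat_lit 55524) (nat_lit 11) (node (nat_lit 5) (nat_lit 55803)
  (nat_lit 12) nil nil) (node (nat_lit 11) (nat_lit 55524) (nat_lit 11) nil nil))) (node (nat_lit
  3) (nat_lit 53922) (nat_lit 10) nil (node (nat_lit 0) (nat_lit 55217) (nat_lit 10) nil nil)))))
  (node (nat_lit 6) (nat_lit 54834) (nat_lit 9) (node (nat_lit 5) (nat_lit 55248) (nat_lit 10)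
  (node (nat_lit 11) (nat_lit 55555) (nat_lit 11) (node (nat_lit 5) (nat_lit 55834) (nat_lit 12)
  (node (nat_lit 6) (nat_lit 56060) (nat_lit 13) (node (nat_lit 11) (nat_lit 56236) (nat_lit 14)
  (node (nat_lit 6) (nat_lit 56365) (nat_lit 15) nil nil) nil) nil) (node (nat_lit 6) (nat_lit
  55834) (nat_lit 12) (node (nat_lit 4) (nat_lit 56060) (nat_lit 13) (node (nat_lit 5) (nat_lit
  56236) (nat_lit 14) nil nil) (node (nat_lit 11) (nat_lit 56060) (nat_lit 13) (node (nat_lit 5)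
  (nat_lit 56236) (nat_lit 14) nil nil) nil)) (node (nat_lit 4) (nat_lit 55834) (nat_lit 12) nil
  nil))) (node (nat_lit 6) (nat_lit 55555) (nat_lit 11) nil (node (nat_lit 4) (nat_lit 55555)
  (nat_lit 11) (node (nat_lit 6) (nat_lit 55834) (nat_lit 12) nil (node (nat_lit 5) (nat_lit
  55834) (nat_lit 12) nil nil)) (node (nat_lit 3) (nat_lit 54498) (nat_lit 11) (node (nat_lit 6)
  (nat_lit 54538) (nat_lit 12) nil (node (nat_lit 4) (nat_lit 54776) (nat_lit 12) nil (node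
  (nat_lit 5) (nat_lit 54776) (nat_lit 12) nil nil))) (node (nat_lit 0) (nat_lit 55555) (nat_lit
  11) (node (nat_lit 6) (nat_lit 55834) (nat_lit 12) nil nil) nil))))) (node (nat_lit 4) (nat_lit
  55183) (nat_lit 10) (node (nat_lit 5) (nat_lit 55490) (nat_lit 11) (node (nat_lit 6) (nat_lit
  55769) (nat_lit 12) (node (nat_lit 4) (nat_lit 55995) (nat_lit 13) nil nil) (node (nat_lit 4)
  (nat_lit 55769) (nat_lit 12) (node (nat_lit 6) (nat_lit 55995) (nat_lit 13) nil nil) nil)) (node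
  (nat_lit 11) (nat_lit 55490) (nat_lit 11) (node (nat_lit 4) (nat_lit 55769) (nat_lit 12) (node
  (nat_lit 6) (nat_lit 55995) (nat_lit 13) nil nil) (node (nat_lit 5) (nat_lit 55769) (nat_lit 12)
  nil (node (nat_lit 6) (nat_lit 55769) (nat_lit 12) nil nil))) (node (nat_lit 6) (nat_lit 55490)
  (nat_lit 11) (node (nat_lit 11) (nat_lit 55769) (nat_lit 12) nil nil) (node (nat_lit 3) (nat_lit
  54433) (nat_lit 11) (node (nat_lit 4) (nat_lit 54711) (nat_lit 12) nil (node (nat_lit 6)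
  (nat_lit 54473) (nat_lit 12) nil nil)) (node (nat_lit 0) (nat_lit 55490) (nat_lit 11) (node
  (nat_lit 6) (nat_lit 55769) (nat_lit 12) nil (node (nat_lit 4) (nat_lit 55769) (nat_lit 12) nil
  nil)) nil))))) (node (nat_lit 3) (nat_lit 55183) (nat_lit 10) (node (nat_lit 11) (nat_lit 55490)
  (nat_lit 11) (node (nat_lit 6) (nat_lit 55769) (nat_lit 12) (node (nat_lit 4) (nat_lit 55995)
  (nat_lit 13) nil nil) (node (nat_lit 13) (nat_lit 54921) (nat_lit 12) nil nil)) (node (nat_lit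
  6) (nat_lit 55490) (nat_lit 11) (node (nat_lit 4) (nat_lit 55769) (nat_lit 12) nil (node
  (nat_lit 11) (nat_lit 55769) (nat_lit 12) nil (node (nat_lit 5) (nat_lit 55769) (nat_lit 12) nil
  nil))) (node (nat_lit 5) (nat_lit 55490) (nat_lit 11) nil (node (nat_lit 4) (nat_lit 55490)
  (nat_lit 11) (node (nat_lit 6) (nat_lit 55769) (nat_lit 12) nil (node (nat_lit 5) (nat_lit
  55769) (nat_lit 12) nil nil)) (node (nat_lit 0) (nat_lit 55490) (nat_lit 11) (node (nat_lit 6)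
  (nat_lit 55769) (nat_lit 12) nil nil) nil))))) (node (nat_lit 0) (nat_lit 55248) (nat_lit 10)
  (node (nat_lit 11) (nat_lit 55555) (nat_lit 11) (node (nat_lit 6) (nat_lit 55834) (nat_lit 12)
  (node (nat_lit 4) (nat_lit 56060) (nat_lit 13) nil nil) nil) (node (nat_lit 6) (nat_lit 55555)
  (nat_lit 11) (node (nat_lit 4) (nat_lit 55834) (nat_lit 12) nil (node (nat_lit 5) (nat_lit
  55834) (nat_lit 12) nil nil)) (node (nat_lit 5) (nat_lit 55555) (nat_lit 11) nil (node (nat_lit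
  4) (nat_lit 55555) (nat_lit 11) (node (nat_lit 6) (nat_lit 55834) (nat_lit 12) nil nil) (node
  (nat_lit 3) (nat_lit 54498) (nat_lit 11) (node (nat_lit 6) (nat_lit 54538) (nat_lit 12) nil nil)
  (node (nat_lit 0) (nat_lit 55555) (nat_lit 11) (node (nat_lit 6) (nat_lit 55834) (nat_lit 12)
  nil nil) nil)))))) nil)))) (node (nat_lit 4) (nat_lit 54834) (nat_lit 9) (node (nat_lit 11)
  (nat_lit 55248) (nat_lit 10) (node (nat_lit 6) (nat_lit 55555) (nat_lit 11) (node (nat_lit 4)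
  (nat_lit 55834) (nat_lit 12) (node (nat_lit 5) (nat_lit 56060) (nat_lit 13) (node (nat_lit 6)
  (nat_lit 56236) (nat_lit 14) nil nil) nil) (node (nat_lit 5) (nat_lit 55834) (nat_lit 12) nil
  (node (nat_lit 11) (nat_lit 55834) (nat_lit 12) nil nil))) (node (nat_lit 5) (nat_lit 55555)
  (nat_lit 11) (node (nat_lit 4) (nat_lit 55834) (nat_lit 12) (node (nat_lit 6) (nat_lit 56060)
  (nat_lit 13) nil nil) (node (nat_lit 6) (nat_lit 55834) (nat_lit 12) nil nil)) nil)) (node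
  (nat_lit 6) (nat_lit 55183) (nat_lit 10) (node (nat_lit 5) (nat_lit 55490) (nat_lit 11) nil
  (node (nat_lit 4) (nat_lit 55490) (nat_lit 11) (node (nat_lit 5) (nat_lit 55769) (nat_lit 12)
  (node (nat_lit 6) (nat_lit 55995) (nat_lit 13) nil nil) nil) (node (nat_lit 11) (nat_lit 55490)
  (nat_lit 11) (node (nat_lit 6) (nat_lit 55769) (nat_lit 12) (node (nat_lit 4) (nat_lit 55995)
  (nat_lit 13) nil nil) nil) nil))) (node (nat_lit 5) (nat_lit 55183) (nat_lit 10) (node (nat_lit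
  6) (nat_lit 55490) (nat_lit 11) nil (node (nat_lit 4) (nat_lit 55490) (nat_lit 11) (node
  (nat_lit 6) (nat_lit 55769) (nat_lit 12) nil nil) (node (nat_lit 11) (nat_lit 55490) (nat_lit
  11) nil nil))) (node (nat_lit 3) (nat_lit 53887) (nat_lit 10) nil (node (nat_lit 0) (nat_lit
  55183) (nat_lit 10) nil nil))))) (node (nat_lit 3) (nat_lit 54834) (nat_lit 9) (node (nat_lit 6)
  (nat_lit 55183) (nat_lit 10) (node (nat_lit 5) (nat_lit 55490) (nat_lit 11) nil (node (nat_lit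
  4) (nat_lit 55401) (nat_lit 11) nil (node (nat_lit 11) (nat_lit 55490) (nat_lit 11) (node
  (nat_lit 6) (nat_lit 55769) (nat_lit 12) nil nil) (node (nat_lit 12) (nat_lit 55490) (nat_lit
  11) nil nil)))) (node (nat_lit 11) (nat_lit 55183) (nat_lit 10) (node (nat_lit 6) (nat_lit
  55490) (nat_lit 11) (node (nat_lit 4) (nat_lit 55769) (nat_lit 12) nil nil) (node (nat_lit 4)
  (nat_lit 55490) (nat_lit 11) nil (node (nat_lit 5) (nat_lit 55490) (nat_lit 11) nil nil))) (node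
  (nat_lit 4) (nat_lit 55183) (nat_lit 10) (node (nat_lit 5) (nat_lit 55490) (nat_lit 11) nil
  (node (nat_lit 6) (nat_lit 55490) (nat_lit 11) nil nil)) (node (nat_lit 5) (nat_lit 55183)
  (nat_lit 10) (node (nat_lit 4) (nat_lit 55490) (nat_lit 11) nil nil) nil)))) (node (nat_lit 0)
  (nat_lit 54869) (nat_lit 9) (node (nat_lit 6) (nat_lit 55217) (nat_lit 10) (node (nat_lit 5)
  (nat_lit 55524) (nat_lit 11) nil (node (nat_lit 11) (nat_lit 55524) (nat_lit 11) (node (nat_lit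
  6) (nat_lit 55803) (nat_lit 12) nil nil) (node (nat_lit 4) (nat_lit 55524) (nat_lit 11) nil
  (node (nat_lit 12) (nat_lit 55524) (nat_lit 11) nil nil)))) (node (nat_lit 11) (nat_lit 55217)
  (nat_lit 10) (node (nat_lit 6) (nat_lit 55524) (nat_lit 11) (node (nat_lit 4) (nat_lit 55803)
  (nat_lit 12) nil nil) (node (nat_lit 4) (nat_lit 55524) (nat_lit 11) nil (node (nat_lit 5)
  (nat_lit 55524) (nat_lit 11) nil nil))) (node (nat_lit 4) (nat_lit 55217) (nat_lit 10) (node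
  (nat_lit 6) (nat_lit 55524) (nat_lit 11) nil nil) (node (nat_lit 5) (nat_lit 55217) (nat_lit 10)
  (node (nat_lit 4) (nat_lit 55524) (nat_lit 11) nil nil) nil)))) nil))))) (node (nat_lit 3)
  (nat_lit 54154) (nat_lit 8) (node (nat_lit 5) (nat_lit 54869) (nat_lit 9) (node (nat_lit 6)
  (nat_lit 55217) (nat_lit 10) (node (nat_lit 5) (nat_lit 55583) (nat_lit 11) (node (nat_lit 11)
  (nat_lit 55861) (nat_lit 12) (node (nat_lit 6) (nat_lit 56087) (nat_lit 13) (node (nat_lit 5)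
  (nat_lit 56263) (nat_lit 14) (node (nat_lit 6) (nat_lit 56392) (nat_lit 15) (node (nat_lit 11)
  (nat_lit 56194) (nat_lit 16) nil nil) nil) (node (nat_lit 11) (nat_lit 56263) (nat_lit 14) (node
  (nat_lit 5) (nat_lit 56392) (nat_lit 15) (node (nat_lit 11) (nat_lit 56194) (nat_lit 16) nil
  (node (nat_lit 6) (nat_lit 56490) (nat_lit 16) nil nil)) (node (nat_lit 4) (nat_lit 56392)
  (nat_lit 15) nil nil)) (node (nat_lit 4) (nat_lit 56263) (nat_lit 14) (node (nat_lit 5) (nat_lit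
  56432) (nat_lit 15) nil nil) (node (nat_lit 0) (nat_lit 56263) (nat_lit 14) nil nil)))) (node
  (nat_lit 5) (nat_lit 56087) (nat_lit 13) (node (nat_lit 6) (nat_lit 56263) (nat_lit 14) (node
  (nat_lit 11) (nat_lit 56008) (nat_lit 15) (node (nat_lit 6) (nat_lit 55986) (nat_lit 16) nil
  (node (nat_lit 4) (nat_lit 56106) (nat_lit 16) nil nil)) (node (nat_lit 4) (nat_lit 56392)
  (nat_lit 15) nil nil)) (node (nat_lit 4) (nat_lit 56263) (nat_lit 14) nil nil)) (node (nat_lit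
  4) (nat_lit 56087) (nat_lit 13) (node (nat_lit 5) (nat_lit 56263) (nat_lit 14) nil (node
  (nat_lit 6) (nat_lit 56263) (nat_lit 14) nil nil)) (node (nat_lit 0) (nat_lit 56087) (nat_lit
  13) (node (nat_lit 6) (nat_lit 56263) (nat_lit 14) nil nil) nil)))) (node (nat_lit 4) (nat_lit
  55861) (nat_lit 12) (node (nat_lit 6) (nat_lit 56087) (nat_lit 13) (node (nat_lit 5) (nat_lit
  56263) (nat_lit 14) (node (nat_lit 6) (nat_lit 56392) (nat_lit 15) (node (nat_lit 4) (nat_lit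
  56490) (nat_lit 16) nil nil) nil) (node (nat_lit 4) (nat_lit 56263) (nat_lit 14) (node (nat_lit
  5) (nat_lit 56392) (nat_lit 15) nil nil) (node (nat_lit 11) (nat_lit 55759) (nat_lit 14) nil
  nil))) (node (nat_lit 5) (nat_lit 56087) (nat_lit 13) nil (node (nat_lit 11) (nat_lit 56087)
  (nat_lit 13) (node (nat_lit 4) (nat_lit 56263) (nat_lit 14) nil (node (nat_lit 6) (nat_lit
  56263) (nat_lit 14) nil nil)) (node (nat_lit 0) (nat_lit 56087) (nat_lit 13) nil nil)))) (node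
  (nat_lit 0) (nat_lit 55861) (nat_lit 12) (node (nat_lit 6) (nat_lit 56087) (nat_lit 13) nil
  (node (nat_lit 11) (nat_lit 55429) (nat_lit 13) nil (node (nat_lit 5) (nat_lit 56087) (nat_lit
  13) nil (node (nat_lit 4) (nat_lit 56087) (nat_lit 13) nil nil)))) nil))) (node (nat_lit 4)
  (nat_lit 55524) (nat_lit 11) (node (nat_lit 5) (nat_lit 55884) (nat_lit 12) (node (nat_lit 4)
  (nat_lit 56110) (nat_lit 13) (node (nat_lit 6) (nat_lit 56286) (nat_lit 14) nil nil) (node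
  (nat_lit 11) (nat_lit 56110) (nat_lit 13) (node (nat_lit 6) (nat_lit 55438) (nat_lit 14) nil
  nil) nil)) (node (nat_lit 11) (nat_lit 55803) (nat_lit 12) (node (nat_lit 4) (nat_lit 56029)
  (nat_lit 13) nil (node (nat_lit 6) (nat_lit 56029) (nat_lit 13) nil (node (nat_lit 5) (nat_lit
  56029) (nat_lit 13) nil nil))) (node (nat_lit 6) (nat_lit 55803) (nat_lit 12) nil (node (nat_lit
  0) (nat_lit 55803) (nat_lit 12) nil nil)))) (node (nat_lit 0) (nat_lit 55524) (nat_lit 11) (node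
  (nat_lit 11) (nat_lit 54955) (nat_lit 12) (node (nat_lit 6) (nat_lit 54972) (nat_lit 13) nil
  nil) (node (nat_lit 6) (nat_lit 55803) (nat_lit 12) (node (nat_lit 4) (nat_lit 56029) (nat_lit
  13) nil nil) (node (nat_lit 4) (nat_lit 55803) (nat_lit 12) nil (node (nat_lit 5) (nat_lit
  55803) (nat_lit 12) nil nil)))) nil))) (node (nat_lit 11) (nat_lit 55217) (nat_lit 10) (node
  (nat_lit 6) (nat_lit 55524) (nat_lit 11) (node (nat_lit 5) (nat_lit 55803) (nat_lit 12) (node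
  (nat_lit 6) (nat_lit 56029) (nat_lit 13) nil (node (nat_lit 11) (nat_lit 56029) (nat_lit 13) nil
  nil)) (node (nat_lit 11) (nat_lit 55803) (nat_lit 12) (node (nat_lit 5) (nat_lit 56029) (nat_lit
  13) nil (node (nat_lit 4) (nat_lit 56029) (nat_lit 13) nil nil)) (node (nat_lit 4) (nat_lit
  55803) (nat_lit 12) (node (nat_lit 5) (nat_lit 56127) (nat_lit 13) (node (nat_lit 6) (nat_lit
  55251) (nat_lit 14) nil nil) nil) nil))) (node (nat_lit 4) (nat_lit 55524) (nat_lit 11) (node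
  (nat_lit 5) (nat_lit 55803) (nat_lit 12) (node (nat_lit 6) (nat_lit 55202) (nat_lit 13) (node
  (nat_lit 4) (nat_lit 54387) (nat_lit 14) (node (nat_lit 6) (nat_lit 51234) (nat_lit 15) nil nil)
  nil) nil) (node (nat_lit 6) (nat_lit 55803) (nat_lit 12) nil nil)) (node (nat_lit 0) (nat_lit
  55524) (nat_lit 11) nil nil))) (node (nat_lit 4) (nat_lit 55217) (nat_lit 10) (node (nat_lit 5)
  (nat_lit 55524) (nat_lit 11) nil (node (nat_lit 6) (nat_lit 55524) (nat_lit 11) (node (nat_lit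
  5) (nat_lit 55803) (nat_lit 12) nil nil) (node (nat_lit 11) (nat_lit 55524) (nat_lit 11) nil
  nil))) (node (nat_lit 0) (nat_lit 55217) (nat_lit 10) nil nil)))) (node (nat_lit 6) (nat_lit
  54716) (nat_lit 9) (node (nat_lit 5) (nat_lit 55248) (nat_lit 10) (node (nat_lit 11) (nat_lit
  55555) (nat_lit 11) (node (nat_lit 5) (nat_lit 55834) (nat_lit 12) (node (nat_lit 6) (nat_lit
  56060) (nat_lit 13) (node (nat_lit 11) (nat_lit 55732) (nat_lit 14) (node (nat_lit 6) (nat_lit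
  55707) (nat_lit 15) nil nil) nil) nil) (node (nat_lit 6) (nat_lit 55834) (nat_lit 12) (node
  (nat_lit 4) (nat_lit 56060) (nat_lit 13) (node (nat_lit 5) (nat_lit 56303) (nat_lit 14) nil nil)
  (node (nat_lit 11) (nat_lit 56060) (nat_lit 13) (node (nat_lit 5) (nat_lit 56236) (nat_lit 14)
  nil nil) nil)) (node (nat_lit 4) (nat_lit 55834) (nat_lit 12) (node (nat_lit 5) (nat_lit 56060)
  (nat_lit 13) nil nil) nil))) (node (nat_lit 6) (nat_lit 55555) (nat_lit 11) (node (nat_lit 4)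
  (nat_lit 55834) (nat_lit 12) nil nil) (node (nat_lit 4) (nat_lit 55555) (nat_lit 11) (node
  (nat_lit 6) (nat_lit 55834) (nat_lit 12) nil (node (nat_lit 5) (nat_lit 55834) (nat_lit 12) nil
  nil)) (node (nat_lit 0) (nat_lit 55555) (nat_lit 11) (node (nat_lit 6) (nat_lit 55834) (nat_lit
  12) nil nil) nil)))) (node (nat_lit 4) (nat_lit 55064) (nat_lit 10) (node (nat_lit 5) (nat_lit
  55583) (nat_lit 11) (node (nat_lit 6) (nat_lit 54756) (nat_lit 12) (node (nat_lit 4) (nat_lit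
  44823) (nat_lit 13) nil nil) (node (nat_lit 4) (nat_lit 55861) (nat_lit 12) (node (nat_lit 6)
  (nat_lit 56087) (nat_lit 13) nil nil) (node (nat_lit 11) (nat_lit 55014) (nat_lit 12) nil nil)))
  (node (nat_lit 11) (nat_lit 55371) (nat_lit 11) (node (nat_lit 4) (nat_lit 55650) (nat_lit 12)
  (node (nat_lit 6) (nat_lit 55876) (nat_lit 13) nil (node (nat_lit 5) (nat_lit 55876) (nat_lit
  13) nil nil)) (node (nat_lit 5) (nat_lit 55650) (nat_lit 12) nil (node (nat_lit 6) (nat_lit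
  55650) (nat_lit 12) nil nil))) (node (nat_lit 6) (nat_lit 55371) (nat_lit 11) (node (nat_lit 11)
  (nat_lit 55665) (nat_lit 12) (node (nat_lit 4) (nat_lit 55891) (nat_lit 13) nil nil) (node
  (nat_lit 5) (nat_lit 55650) (nat_lit 12) nil nil)) (node (nat_lit 0) (nat_lit 55371) (nat_lit
  11) (node (nat_lit 6) (nat_lit 55650) (nat_lit 12) nil (node (nat_lit 4) (nat_lit 55650)
  (nat_lit 12) nil nil)) nil)))) (node (nat_lit 0) (nat_lit 55248) (nat_lit 10) (node (nat_lit 11)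
  (nat_lit 55555) (nat_lit 11) (node (nat_lit 6) (nat_lit 55834) (nat_lit 12) (node (nat_lit 4)
  (nat_lit 56060) (nat_lit 13) nil (node (nat_lit 11) (nat_lit 56060) (nat_lit 13) nil nil)) (node
  (nat_lit 4) (nat_lit 55834) (nat_lit 12) nil nil)) (node (nat_lit 6) (nat_lit 55555) (nat_lit
  11) (node (nat_lit 4) (nat_lit 55834) (nat_lit 12) nil (node (nat_lit 11) (nat_lit 54986)
  (nat_lit 12) nil (node (nat_lit 5) (nat_lit 55834) (nat_lit 12) nil nil))) (node (nat_lit 5)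
  (nat_lit 55555) (nat_lit 11) nil (node (nat_lit 4) (nat_lit 55555) (nat_lit 11) (node (nat_lit
  6) (nat_lit 55834) (nat_lit 12) nil nil) (node (nat_lit 0) (nat_lit 55555) (nat_lit 11) (node
  (nat_lit 6) (nat_lit 55834) (nat_lit 12) nil nil) nil))))) nil))) (node (nat_lit 4) (nat_lit
  54716) (nat_lit 9) (node (nat_lit 11) (nat_lit 55064) (nat_lit 10) (node (nat_lit 6) (nat_lit
  55371) (nat_lit 11) (node (nat_lit 4) (nat_lit 55352) (nat_lit 12) (node (nat_lit 5) (nat_lit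
  55044) (nat_lit 13) (node (nat_lit 6) (nat_lit 54163) (nat_lit 14) (node (nat_lit 4) (nat_lit
  49132) (nat_lit 15) nil nil) nil) nil) (node (nat_lit 5) (nat_lit 55650) (nat_lit 12) nil (node
  (nat_lit 11) (nat_lit 55650) (nat_lit 12) (node (nat_lit 4) (nat_lit 55876) (nat_lit 13) nil
  nil) nil))) (node (nat_lit 5) (nat_lit 55371) (nat_lit 11) (node (nat_lit 4) (nat_lit 55650)
  (nat_lit 12) (node (nat_lit 6) (nat_lit 55876) (nat_lit 13) nil nil) (node (nat_lit 6) (nat_lit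
  55650) (nat_lit 12) nil nil)) (node (nat_lit 0) (nat_lit 55371) (nat_lit 11) nil nil))) (node
  (nat_lit 5) (nat_lit 55248) (nat_lit 10) (node (nat_lit 6) (nat_lit 55555) (nat_lit 11) (node
  (nat_lit 4) (nat_lit 44451) (nat_lit 12) (node (nat_lit 6) (nat_lit 22666) (nat_lit 13) nil nil)
  nil) (node (nat_lit 4) (nat_lit 55555) (nat_lit 11) (node (nat_lit 6) (nat_lit 55834) (nat_lit
  12) nil nil) (node (nat_lit 11) (nat_lit 55555) (nat_lit 11) nil nil))) (node (nat_lit 6)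
  (nat_lit 55064) (nat_lit 10) (node (nat_lit 5) (nat_lit 55371) (nat_lit 11) nil (node (nat_lit
  4) (nat_lit 55371) (nat_lit 11) (node (nat_lit 5) (nat_lit 55650) (nat_lit 12) (node (nat_lit 6)
  (nat_lit 55876) (nat_lit 13) nil nil) nil) (node (nat_lit 11) (nat_lit 55371) (nat_lit 11) (node
  (nat_lit 6) (nat_lit 55665) (nat_lit 12) (node (nat_lit 4) (nat_lit 54235) (nat_lit 13) nil nil)
  nil) nil))) (node (nat_lit 0) (nat_lit 55064) (nat_lit 10) nil nil)))) (node (nat_lit 0)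
  (nat_lit 54869) (nat_lit 9) (node (nat_lit 6) (nat_lit 55217) (nat_lit 10) (node (nat_lit 11)
  (nat_lit 55524) (nat_lit 11) (node (nat_lit 6) (nat_lit 55803) (nat_lit 12) nil (node (nat_lit
  4) (nat_lit 55803) (nat_lit 12) nil nil)) (node (nat_lit 5) (nat_lit 55524) (nat_lit 11) nil
  (node (nat_lit 4) (nat_lit 55524) (nat_lit 11) nil (node (nat_lit 12) (nat_lit 55524) (nat_lit
  11) nil nil)))) (node (nat_lit 11) (nat_lit 55217) (nat_lit 10) (node (nat_lit 6) (nat_lit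
  55524) (nat_lit 11) (node (nat_lit 4) (nat_lit 53500) (nat_lit 12) nil nil) (node (nat_lit 4)
  (nat_lit 55524) (nat_lit 11) nil (node (nat_lit 5) (nat_lit 55524) (nat_lit 11) nil nil))) (node
  (nat_lit 4) (nat_lit 55217) (nat_lit 10) (node (nat_lit 6) (nat_lit 55524) (nat_lit 11) nil nil)
  (node (nat_lit 5) (nat_lit 55217) (nat_lit 10) (node (nat_lit 4) (nat_lit 55524) (nat_lit 11)
  nil nil) nil)))) nil)))) (node (nat_lit 4) (nat_lit 51752) (nat_lit 8) (node (nat_lit 5)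
  (nat_lit 52972) (nat_lit 9) (node (nat_lit 4) (nat_lit 53806) (nat_lit 10) (node (nat_lit 6)
  (nat_lit 54456) (nat_lit 11) (node (nat_lit 4) (nat_lit 54963) (nat_lit 12) (node (nat_lit 5)
  (nat_lit 55457) (nat_lit 13) (node (nat_lit 6) (nat_lit 55766) (nat_lit 14) (node (nat_lit 4)
  (nat_lit 56008) (nat_lit 15) (node (nat_lit 6) (nat_lit 56196) (nat_lit 16) (node (nat_lit 5)
  (nat_lit 56343) (nat_lit 17) (node (nat_lit 6) (nat_lit 56457) (nat_lit 18) (node (nat_lit 4)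
  (nat_lit 56547) (nat_lit 19) (node (nat_lit 5) (nat_lit 56617) (nat_lit 20) nil nil) nil) nil)
  nil) nil) nil) nil) nil) nil) (node (nat_lit 3) (nat_lit 54456) (nat_lit 11) nil nil)) (node
  (nat_lit 6) (nat_lit 53806) (nat_lit 10) (node (nat_lit 5) (nat_lit 54514) (nat_lit 11) (node
  (nat_lit 4) (nat_lit 55021) (nat_lit 12) (node (nat_lit 6) (nat_lit 55417) (nat_lit 13) (node
  (nat_lit 4) (nat_lit 55726) (nat_lit 14) (node (nat_lit 5) (nat_lit 55968) (nat_lit 15) (node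
  (nat_lit 6) (nat_lit 56156) (nat_lit 16) (node (nat_lit 4) (nat_lit 56303) (nat_lit 17) (node
  (nat_lit 6) (nat_lit 56417) (nat_lit 18) (node (nat_lit 5) (nat_lit 56507) (nat_lit 19) (node
  (nat_lit 6) (nat_lit 56577) (nat_lit 20) (node (nat_lit 4) (nat_lit 56631) (nat_lit 21) (node
  (nat_lit 5) (nat_lit 56674) (nat_lit 22) nil nil) nil) nil) nil) nil) nil) nil) nil) nil) nil)
  nil) (node (nat_lit 3) (nat_lit 54456) (nat_lit 11) (node (nat_lit 4) (nat_lit 54963) (nat_lit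
  12) nil nil) (node (nat_lit 0) (nat_lit 54456) (nat_lit 11) nil nil))) (node (nat_lit 3)
  (nat_lit 53806) (nat_lit 10) (node (nat_lit 4) (nat_lit 54456) (nat_lit 11) nil (node (nat_lit
  6) (nat_lit 54456) (nat_lit 11) nil nil)) (node (nat_lit 0) (nat_lit 53836) (nat_lit 10) (node
  (nat_lit 6) (nat_lit 54486) (nat_lit 11) nil nil) nil)))) (node (nat_lit 3) (nat_lit 52819)
  (nat_lit 9) (node (nat_lit 4) (nat_lit 53652) (nat_lit 10) (node (nat_lit 5) (nat_lit 54302)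
  (nat_lit 11) nil nil) (node (nat_lit 6) (nat_lit 53652) (nat_lit 10) nil nil)) (node (nat_lit 0)
  (nat_lit 52972) (nat_lit 9) (node (nat_lit 6) (nat_lit 53806) (nat_lit 10) (node (nat_lit 4)
  (nat_lit 54456) (nat_lit 11) nil nil) (node (nat_lit 4) (nat_lit 53806) (nat_lit 10) nil nil))
  nil))) nil)))

noncomputable def t34 : Tr :=
  (node (nat_lit 5) (nat_lit 0) (nat_lit 5) (node (nat_lit 4) (nat_lit 25974) (nat_lit 6) (node
  (nat_lit 6) (nat_lit 27069) (nat_lit 7) (node (nat_lit 4) (nat_lit 33555) (nat_lit 8) (node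
  (nat_lit 5) (nat_lit 36628) (nat_lit 9) (node (nat_lit 6) (nat_lit 37421) (nat_lit 10) (node
  (nat_lit 4) (nat_lit 37746) (nat_lit 11) nil nil) nil) (node (nat_lit 0) (nat_lit 38088)
  (nat_lit 9) (node (nat_lit 6) (nat_lit 37025) (nat_lit 10) nil nil) (node (nat_lit 3) (nat_lit
  38088) (nat_lit 9) (node (nat_lit 4) (nat_lit 38456) (nat_lit 10) (node (nat_lit 5) (nat_lit
  38781) (nat_lit 11) (node (nat_lit 6) (nat_lit 38138) (nat_lit 12) nil nil) nil) nil) nil)))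
  (node (nat_lit 5) (nat_lit 33466) (nat_lit 8) (node (nat_lit 6) (nat_lit 37320) (nat_lit 9)
  (node (nat_lit 4) (nat_lit 38764) (nat_lit 10) (node (nat_lit 5) (nat_lit 39641) (nat_lit 11)
  (node (nat_lit 6) (nat_lit 39258) (nat_lit 12) (node (nat_lit 5) (nat_lit 39037) (nat_lit 13)
  (node (nat_lit 4) (nat_lit 38801) (nat_lit 14) (node (nat_lit 5) (nat_lit 38708) (nat_lit 15)
  (node (nat_lit 6) (nat_lit 38484) (nat_lit 16) nil nil) (node (nat_lit 6) (nat_lit 38514)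
  (nat_lit 15) nil nil)) (node (nat_lit 3) (nat_lit 39741) (nat_lit 14) nil (node (nat_lit 0)
  (nat_lit 39223) (nat_lit 14) nil nil))) (node (nat_lit 3) (nat_lit 39238) (nat_lit 13) (node
  (nat_lit 5) (nat_lit 38867) (nat_lit 14) nil (node (nat_lit 4) (nat_lit 39112) (nat_lit 14) nil
  (node (nat_lit 6) (nat_lit 39424) (nat_lit 14) nil nil))) (node (nat_lit 0) (nat_lit 39498)
  (nat_lit 13) (node (nat_lit 6) (nat_lit 39127) (nat_lit 14) nil nil) nil))) (node (nat_lit 3)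
  (nat_lit 39681) (nat_lit 12) (node (nat_lit 4) (nat_lit 39203) (nat_lit 13) (node (nat_lit 5)
  (nat_lit 38838) (nat_lit 14) (node (nat_lit 6) (nat_lit 35926) (nat_lit 15) nil nil) (node
  (nat_lit 15) (nat_lit 39389) (nat_lit 14) nil nil)) (node (nat_lit 6) (nat_lit 39920) (nat_lit
  13) (node (nat_lit 15) (nat_lit 39128) (nat_lit 14) nil nil) (node (nat_lit 5) (nat_lit 39920)
  (nat_lit 13) (node (nat_lit 4) (nat_lit 40021) (nat_lit 14) nil nil) nil))) (node (nat_lit 0)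
  (nat_lit 40021) (nat_lit 12) (node (nat_lit 4) (nat_lit 40021) (nat_lit 13) nil (node (nat_lit
  6) (nat_lit 40021) (nat_lit 13) nil (node (nat_lit 5) (nat_lit 40021) (nat_lit 13) nil nil)))
  nil))) nil) nil) (node (nat_lit 4) (nat_lit 36619) (nat_lit 9) nil (node (nat_lit 3) (nat_lit
  31081) (nat_lit 9) nil nil))) (node (nat_lit 3) (nat_lit 36308) (nat_lit 8) (node (nat_lit 4)
  (nat_lit 35018) (nat_lit 9) (node (nat_lit 5) (nat_lit 31142) (nat_lit 10) (node (nat_lit 6)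
  (nat_lit 20027) (nat_lit 11) (node (nat_lit 4) (nat_lit 20050) (nat_lit 12) nil nil) nil) nil)
  nil) (node (nat_lit 0) (nat_lit 37153) (nat_lit 8) nil nil)))) (node (nat_lit 3) (nat_lit 36190)
  (nat_lit 7) (node (nat_lit 5) (nat_lit 36370) (nat_lit 8) (node (nat_lit 6) (nat_lit 35077)
  (nat_lit 9) nil nil) (node (nat_lit 4) (nat_lit 36891) (nat_lit 8) nil nil)) (node (nat_lit 0)
  (nat_lit 35643) (nat_lit 7) nil nil))) (node (nat_lit 3) (nat_lit 32171) (nat_lit 6) (node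
  (nat_lit 6) (nat_lit 34582) (nat_lit 7) (node (nat_lit 4) (nat_lit 35552) (nat_lit 8) (node
  (nat_lit 6) (nat_lit 35298) (nat_lit 9) (node (nat_lit 5) (nat_lit 34235) (nat_lit 10) nil (node
  (nat_lit 9) (nat_lit 34342) (nat_lit 10) nil nil)) (node (nat_lit 9) (nat_lit 36486) (nat_lit 9)
  nil nil)) (node (nat_lit 9) (nat_lit 35666) (nat_lit 8) (node (nat_lit 4) (nat_lit 33348)
  (nat_lit 9) (node (nat_lit 5) (nat_lit 30554) (nat_lit 10) (node (nat_lit 6) (nat_lit 21037)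
  (nat_lit 11) (node (nat_lit 4) (nat_lit 15519) (nat_lit 12) nil nil) nil) nil) (node (nat_lit 5)
  (nat_lit 36817) (nat_lit 9) (node (nat_lit 6) (nat_lit 35807) (nat_lit 10) (node (nat_lit 9)
  (nat_lit 34524) (nat_lit 11) nil (node (nat_lit 5) (nat_lit 34964) (nat_lit 11) (node (nat_lit
  9) (nat_lit 35130) (nat_lit 12) nil nil) nil)) (node (nat_lit 9) (nat_lit 35619) (nat_lit 10)
  (node (nat_lit 4) (nat_lit 35159) (nat_lit 11) nil nil) nil)) nil)) (node (nat_lit 5) (nat_lit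
  34754) (nat_lit 8) (node (nat_lit 6) (nat_lit 33461) (nat_lit 9) (node (nat_lit 9) (nat_lit
  33153) (nat_lit 10) nil nil) (node (nat_lit 4) (nat_lit 35238) (nat_lit 9) (node (nat_lit 5)
  (nat_lit 34176) (nat_lit 10) (node (nat_lit 9) (nat_lit 34324) (nat_lit 11) (node (nat_lit 4)
  (nat_lit 34166) (nat_lit 12) nil nil) nil) (node (nat_lit 9) (nat_lit 35607) (nat_lit 10) nil
  nil)) (node (nat_lit 9) (nat_lit 33074) (nat_lit 9) (node (nat_lit 4) (nat_lit 32334) (nat_lit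
  10) nil nil) nil))) nil))) (node (nat_lit 4) (nat_lit 32609) (nat_lit 7) (node (nat_lit 5)
  (nat_lit 23634) (nat_lit 8) (node (nat_lit 4) (nat_lit 23453) (nat_lit 9) (node (nat_lit 9)
  (nat_lit 23821) (nat_lit 10) (node (nat_lit 5) (nat_lit 22978) (nat_lit 11) (node (nat_lit 9)
  (nat_lit 23145) (nat_lit 12) (node (nat_lit 4) (nat_lit 23071) (nat_lit 13) (node (nat_lit 5)
  (nat_lit 22589) (nat_lit 14) nil nil) nil) nil) nil) nil) (node (nat_lit 6) (nat_lit 16324)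
  (nat_lit 9) nil nil)) (node (nat_lit 9) (nat_lit 33186) (nat_lit 8) (node (nat_lit 5) (nat_lit
  32203) (nat_lit 9) nil nil) (node (nat_lit 6) (nat_lit 31467) (nat_lit 8) (node (nat_lit 9)
  (nat_lit 29204) (nat_lit 9) nil nil) nil))) (node (nat_lit 5) (nat_lit 33618) (nat_lit 7) (node
  (nat_lit 4) (nat_lit 34320) (nat_lit 8) (node (nat_lit 9) (nat_lit 34804) (nat_lit 9) nil nil)
  nil) nil))) (node (nat_lit 0) (nat_lit 34370) (nat_lit 6) (node (nat_lit 6) (nat_lit 35001)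
  (nat_lit 7) nil (node (nat_lit 5) (nat_lit 34865) (nat_lit 7) nil (node (nat_lit 3) (nat_lit
  35436) (nat_lit 7) nil nil))) nil))) (node (nat_lit 3) (nat_lit 46087) (nat_lit 5) (node
  (nat_lit 5) (nat_lit 52441) (nat_lit 6) (node (nat_lit 8) (nat_lit 53449) (nat_lit 7) (node
  (nat_lit 6) (nat_lit 54112) (nat_lit 8) (node (nat_lit 5) (nat_lit 54813) (nat_lit 9) (node
  (nat_lit 6) (nat_lit 55161) (nat_lit 10) (node (nat_lit 8) (nat_lit 54411) (nat_lit 11) (node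
  (nat_lit 6) (nat_lit 54451) (nat_lit 12) nil nil) (node (nat_lit 4) (nat_lit 55468) (nat_lit 11)
  (node (nat_lit 8) (nat_lit 54899) (nat_lit 12) nil nil) nil)) (node (nat_lit 4) (nat_lit 55161)
  (nat_lit 10) (node (nat_lit 8) (nat_lit 55468) (nat_lit 11) (node (nat_lit 5) (nat_lit 55747)
  (nat_lit 12) nil (node (nat_lit 4) (nat_lit 55747) (nat_lit 12) (node (nat_lit 5) (nat_lit
  55973) (nat_lit 13) nil nil) nil)) (node (nat_lit 6) (nat_lit 55468) (nat_lit 11) nil nil))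
  (node (nat_lit 8) (nat_lit 55161) (nat_lit 10) nil (node (nat_lit 0) (nat_lit 55161) (nat_lit
  10) nil nil)))) (node (nat_lit 4) (nat_lit 54571) (nat_lit 9) (node (nat_lit 8) (nat_lit 54919)
  (nat_lit 10) (node (nat_lit 4) (nat_lit 55226) (nat_lit 11) (node (nat_lit 5) (nat_lit 55505)
  (nat_lit 12) nil (node (nat_lit 6) (nat_lit 55505) (nat_lit 12) (node (nat_lit 8) (nat_lit
  55073) (nat_lit 13) nil nil) nil)) (node (nat_lit 6) (nat_lit 55226) (nat_lit 11) (node (nat_lit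
  8) (nat_lit 55505) (nat_lit 12) nil nil) nil)) (node (nat_lit 5) (nat_lit 52133) (nat_lit 10)
  (node (nat_lit 6) (nat_lit 43924) (nat_lit 11) (node (nat_lit 4) (nat_lit 38261) (nat_lit 12)
  (node (nat_lit 8) (nat_lit 37418) (nat_lit 13) nil nil) nil) nil) (node (nat_lit 6) (nat_lit
  54919) (nat_lit 10) nil nil))) (node (nat_lit 8) (nat_lit 54571) (nat_lit 9) (node (nat_lit 4)
  (nat_lit 54919) (nat_lit 10) nil nil) (node (nat_lit 0) (nat_lit 54571) (nat_lit 9) (node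
  (nat_lit 8) (nat_lit 53624) (nat_lit 10) nil (node (nat_lit 4) (nat_lit 54919) (nat_lit 10) nil
  (node (nat_lit 5) (nat_lit 54919) (nat_lit 10) nil nil))) nil)))) (node (nat_lit 4) (nat_lit
  54112) (nat_lit 8) (node (nat_lit 5) (nat_lit 53207) (nat_lit 9) (node (nat_lit 6) (nat_lit
  46273) (nat_lit 10) (node (nat_lit 4) (nat_lit 40580) (nat_lit 11) (node (nat_lit 8) (nat_lit
  12910) (nat_lit 12) nil nil) (node (nat_lit 8) (nat_lit 44240) (nat_lit 11) nil nil)) (node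
  (nat_lit 4) (nat_lit 53924) (nat_lit 10) (node (nat_lit 8) (nat_lit 53499) (nat_lit 11) nil
  (node (nat_lit 6) (nat_lit 53388) (nat_lit 11) nil nil)) (node (nat_lit 8) (nat_lit 52629)
  (nat_lit 10) (node (nat_lit 5) (nat_lit 53261) (nat_lit 11) (node (nat_lit 4) (nat_lit 53833)
  (nat_lit 12) (node (nat_lit 8) (nat_lit 53640) (nat_lit 13) nil nil) nil) nil) nil))) (node
  (nat_lit 8) (nat_lit 54571) (nat_lit 9) (node (nat_lit 5) (nat_lit 54919) (nat_lit 10) nil (node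
  (nat_lit 6) (nat_lit 54919) (nat_lit 10) (node (nat_lit 4) (nat_lit 54195) (nat_lit 11) nil nil)
  nil)) (node (nat_lit 6) (nat_lit 54571) (nat_lit 9) (node (nat_lit 5) (nat_lit 54919) (nat_lit
  10) (node (nat_lit 8) (nat_lit 54169) (nat_lit 11) nil nil) (node (nat_lit 8) (nat_lit 53505)
  (nat_lit 10) nil nil)) (node (nat_lit 0) (nat_lit 54571) (nat_lit 9) nil nil)))) (node (nat_lit
  0) (nat_lit 54292) (nat_lit 8) (node (nat_lit 5) (nat_lit 54751) (nat_lit 9) (node (nat_lit 8)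
  (nat_lit 53804) (nat_lit 10) nil nil) (node (nat_lit 8) (nat_lit 54751) (nat_lit 9) nil (node
  (nat_lit 4) (nat_lit 54751) (nat_lit 9) nil (node (nat_lit 6) (nat_lit 54751) (nat_lit 9) nil
  nil)))) nil))) (node (nat_lit 4) (nat_lit 53449) (nat_lit 7) (node (nat_lit 6) (nat_lit 54112)
  (nat_lit 8) (node (nat_lit 4) (nat_lit 54571) (nat_lit 9) (node (nat_lit 5) (nat_lit 54919)
  (nat_lit 10) (node (nat_lit 6) (nat_lit 55226) (nat_lit 11) (node (nat_lit 4) (nat_lit 55505)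
  (nat_lit 12) nil nil) nil) (node (nat_lit 8) (nat_lit 54919) (nat_lit 10) (node (nat_lit 6)
  (nat_lit 55226) (nat_lit 11) (node (nat_lit 5) (nat_lit 55505) (nat_lit 12) nil (node (nat_lit
  8) (nat_lit 55505) (nat_lit 12) nil nil)) (node (nat_lit 4) (nat_lit 55226) (nat_lit 11) nil
  (node (nat_lit 0) (nat_lit 55226) (nat_lit 11) nil nil))) nil)) (node (nat_lit 5) (nat_lit
  54571) (nat_lit 9) nil (node (nat_lit 8) (nat_lit 54571) (nat_lit 9) (node (nat_lit 4) (nat_lit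
  54919) (nat_lit 10) nil (node (nat_lit 6) (nat_lit 54919) (nat_lit 10) nil nil)) nil))) (node
  (nat_lit 5) (nat_lit 54376) (nat_lit 8) (node (nat_lit 8) (nat_lit 54834) (nat_lit 9) (node
  (nat_lit 4) (nat_lit 55183) (nat_lit 10) (node (nat_lit 5) (nat_lit 51023) (nat_lit 11) nil nil)
  (node (nat_lit 5) (nat_lit 55183) (nat_lit 10) nil (node (nat_lit 6) (nat_lit 54572) (nat_lit
  10) nil nil))) (node (nat_lit 6) (nat_lit 54834) (nat_lit 9) nil nil)) (node (nat_lit 8)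
  (nat_lit 54112) (nat_lit 8) (node (nat_lit 4) (nat_lit 54571) (nat_lit 9) (node (nat_lit 5)
  (nat_lit 54919) (nat_lit 10) (node (nat_lit 8) (nat_lit 54169) (nat_lit 11) nil (node (nat_lit
  6) (nat_lit 55226) (nat_lit 11) (node (nat_lit 4) (nat_lit 55505) (nat_lit 12) nil nil) nil))
  (node (nat_lit 6) (nat_lit 54919) (nat_lit 10) nil nil)) (node (nat_lit 6) (nat_lit 54571)
  (nat_lit 9) (node (nat_lit 5) (nat_lit 54919) (nat_lit 10) nil nil) (node (nat_lit 0) (nat_lit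
  54571) (nat_lit 9) nil nil))) (node (nat_lit 0) (nat_lit 54292) (nat_lit 8) (node (nat_lit 4)
  (nat_lit 54751) (nat_lit 9) nil (node (nat_lit 8) (nat_lit 53143) (nat_lit 9) nil nil)) nil))))
  (node (nat_lit 6) (nat_lit 53449) (nat_lit 7) (node (nat_lit 5) (nat_lit 54376) (nat_lit 8)
  (node (nat_lit 8) (nat_lit 54834) (nat_lit 9) (node (nat_lit 6) (nat_lit 55183) (nat_lit 10)
  (node (nat_lit 8) (nat_lit 55490) (nat_lit 11) nil nil) (node (nat_lit 5) (nat_lit 55183)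
  (nat_lit 10) nil (node (nat_lit 4) (nat_lit 55183) (nat_lit 10) nil nil))) (node (nat_lit 4)
  (nat_lit 54834) (nat_lit 9) (node (nat_lit 6) (nat_lit 55183) (nat_lit 10) (node (nat_lit 8)
  (nat_lit 55490) (nat_lit 11) nil nil) (node (nat_lit 8) (nat_lit 55183) (nat_lit 10) (node
  (nat_lit 5) (nat_lit 55583) (nat_lit 11) nil nil) nil)) nil)) (node (nat_lit 8) (nat_lit 54112)
  (nat_lit 8) (node (nat_lit 4) (nat_lit 54571) (nat_lit 9) (node (nat_lit 5) (nat_lit 54919)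
  (nat_lit 10) (node (nat_lit 6) (nat_lit 43782) (nat_lit 11) nil nil) (node (nat_lit 8) (nat_lit
  54919) (nat_lit 10) (node (nat_lit 5) (nat_lit 55552) (nat_lit 11) nil nil) nil)) (node (nat_lit
  6) (nat_lit 54571) (nat_lit 9) (node (nat_lit 5) (nat_lit 54919) (nat_lit 10) nil nil) (node
  (nat_lit 5) (nat_lit 54813) (nat_lit 9) (node (nat_lit 8) (nat_lit 55161) (nat_lit 10) nil (node
  (nat_lit 4) (nat_lit 55161) (nat_lit 10) nil nil)) nil))) (node (nat_lit 0) (nat_lit 54376)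
  (nat_lit 8) (node (nat_lit 8) (nat_lit 54834) (nat_lit 9) nil nil) nil))) (node (nat_lit 0)
  (nat_lit 53652) (nat_lit 7) (node (nat_lit 8) (nat_lit 54315) (nat_lit 8) (node (nat_lit 4)
  (nat_lit 54774) (nat_lit 9) nil (node (nat_lit 6) (nat_lit 52026) (nat_lit 9) nil nil)) (node
  (nat_lit 4) (nat_lit 54315) (nat_lit 8) (node (nat_lit 5) (nat_lit 54774) (nat_lit 9) nil nil)
  (node (nat_lit 5) (nat_lit 54315) (nat_lit 8) (node (nat_lit 8) (nat_lit 53166) (nat_lit 9) nil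
  (node (nat_lit 4) (nat_lit 54774) (nat_lit 9) nil nil)) (node (nat_lit 6) (nat_lit 54315)
  (nat_lit 8) (node (nat_lit 4) (nat_lit 54774) (nat_lit 9) nil (node (nat_lit 8) (nat_lit 53166)
  (nat_lit 9) nil nil)) (node (nat_lit 0) (nat_lit 54315) (nat_lit 8) nil nil))))) nil)))) (node
  (nat_lit 6) (nat_lit 47684) (nat_lit 6) (node (nat_lit 8) (nat_lit 48691) (nat_lit 7) (node
  (nat_lit 4) (nat_lit 49354) (nat_lit 8) (node (nat_lit 8) (nat_lit 49813) (nat_lit 9) (node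
  (nat_lit 5) (nat_lit 51306) (nat_lit 10) (node (nat_lit 6) (nat_lit 51613) (nat_lit 11) (node
  (nat_lit 4) (nat_lit 51892) (nat_lit 12) (node (nat_lit 8) (nat_lit 51460) (nat_lit 13) nil nil)
  nil) nil) nil) (node (nat_lit 6) (nat_lit 49813) (nat_lit 9) (node (nat_lit 4) (nat_lit 50780)
  (nat_lit 10) nil nil) (node (nat_lit 5) (nat_lit 42501) (nat_lit 9) (node (nat_lit 6) (nat_lit
  33865) (nat_lit 10) (node (nat_lit 4) (nat_lit 19797) (nat_lit 11) nil nil) nil) nil))) (node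
  (nat_lit 5) (nat_lit 52521) (nat_lit 8) (node (nat_lit 6) (nat_lit 52980) (nat_lit 9) nil nil)
  nil)) (node (nat_lit 4) (nat_lit 48691) (nat_lit 7) (node (nat_lit 6) (nat_lit 49354) (nat_lit
  8) (node (nat_lit 8) (nat_lit 49813) (nat_lit 9) (node (nat_lit 4) (nat_lit 50047) (nat_lit 10)
  (node (nat_lit 8) (nat_lit 50277) (nat_lit 11) (node (nat_lit 6) (nat_lit 50504) (nat_lit 12)
  (node (nat_lit 4) (nat_lit 50385) (nat_lit 13) (node (nat_lit 8) (nat_lit 50561) (nat_lit 14)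
  (node (nat_lit 4) (nat_lit 50690) (nat_lit 15) nil nil) (node (nat_lit 5) (nat_lit 48310)
  (nat_lit 14) (node (nat_lit 6) (nat_lit 47820) (nat_lit 15) nil nil) nil)) nil) nil) nil) (node
  (nat_lit 6) (nat_lit 48101) (nat_lit 10) (node (nat_lit 4) (nat_lit 47432) (nat_lit 11) nil nil)
  (node (nat_lit 5) (nat_lit 50161) (nat_lit 10) nil nil))) (node (nat_lit 5) (nat_lit 49813)
  (nat_lit 9) nil nil)) (node (nat_lit 5) (nat_lit 41747) (nat_lit 8) (node (nat_lit 6) (nat_lit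
  37216) (nat_lit 9) (node (nat_lit 4) (nat_lit 35831) (nat_lit 10) nil (node (nat_lit 8) (nat_lit
  35688) (nat_lit 10) nil nil)) (node (nat_lit 8) (nat_lit 41747) (nat_lit 9) (node (nat_lit 5)
  (nat_lit 41747) (nat_lit 10) nil (node (nat_lit 6) (nat_lit 41747) (nat_lit 10) (node (nat_lit
  8) (nat_lit 41747) (nat_lit 11) nil nil) (node (nat_lit 4) (nat_lit 41385) (nat_lit 10) nil
  nil))) nil)) (node (nat_lit 0) (nat_lit 49354) (nat_lit 8) nil nil))) (node (nat_lit 5) (nat_lit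
  52691) (nat_lit 7) (node (nat_lit 4) (nat_lit 53354) (nat_lit 8) (node (nat_lit 6) (nat_lit
  53813) (nat_lit 9) nil (node (nat_lit 8) (nat_lit 52205) (nat_lit 9) nil nil)) (node (nat_lit 8)
  (nat_lit 53354) (nat_lit 8) (node (nat_lit 6) (nat_lit 52741) (nat_lit 9) (node (nat_lit 4)
  (nat_lit 52465) (nat_lit 10) nil nil) (node (nat_lit 4) (nat_lit 51844) (nat_lit 9) nil nil))
  nil)) (node (nat_lit 0) (nat_lit 52026) (nat_lit 7) (node (nat_lit 6) (nat_lit 52689) (nat_lit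
  8) nil (node (nat_lit 8) (nat_lit 50629) (nat_lit 8) nil nil)) nil)))) (node (nat_lit 4)
  (nat_lit 47648) (nat_lit 6) (node (nat_lit 6) (nat_lit 48655) (nat_lit 7) (node (nat_lit 8)
  (nat_lit 49094) (nat_lit 8) (node (nat_lit 6) (nat_lit 49777) (nat_lit 9) (node (nat_lit 4)
  (nat_lit 50263) (nat_lit 10) nil nil) (node (nat_lit 4) (nat_lit 48134) (nat_lit 9) (node
  (nat_lit 8) (nat_lit 49470) (nat_lit 10) (node (nat_lit 6) (nat_lit 47326) (nat_lit 11) (node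
  (nat_lit 4) (nat_lit 47230) (nat_lit 12) nil nil) nil) nil) nil)) (node (nat_lit 4) (nat_lit
  49318) (nat_lit 8) (node (nat_lit 8) (nat_lit 49777) (nat_lit 9) nil (node (nat_lit 5) (nat_lit
  50874) (nat_lit 9) (node (nat_lit 6) (nat_lit 51222) (nat_lit 10) (node (nat_lit 4) (nat_lit
  51530) (nat_lit 11) (node (nat_lit 8) (nat_lit 50961) (nat_lit 12) nil nil) nil) nil) nil))
  (node (nat_lit 5) (nat_lit 52368) (nat_lit 8) nil nil))) (node (nat_lit 5) (nat_lit 52656)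
  (nat_lit 7) (node (nat_lit 8) (nat_lit 53319) (nat_lit 8) (node (nat_lit 6) (nat_lit 53778)
  (nat_lit 9) (node (nat_lit 4) (nat_lit 53407) (nat_lit 10) (node (nat_lit 8) (nat_lit 53714)
  (nat_lit 11) nil (node (nat_lit 5) (nat_lit 51975) (nat_lit 11) nil nil)) nil) nil) (node
  (nat_lit 6) (nat_lit 53319) (nat_lit 8) (node (nat_lit 4) (nat_lit 12031) (nat_lit 9) nil nil)
  nil)) (node (nat_lit 0) (nat_lit 52148) (nat_lit 7) (node (nat_lit 8) (nat_lit 52811) (nat_lit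
  8) (node (nat_lit 4) (nat_lit 53270) (nat_lit 9) nil nil) (node (nat_lit 6) (nat_lit 52811)
  (nat_lit 8) nil nil)) nil))) (node (nat_lit 0) (nat_lit 51707) (nat_lit 6) (node (nat_lit 4)
  (nat_lit 52714) (nat_lit 7) nil (node (nat_lit 8) (nat_lit 52595) (nat_lit 7) (node (nat_lit 6)
  (nat_lit 51328) (nat_lit 8) nil (node (nat_lit 4) (nat_lit 53259) (nat_lit 8) nil nil)) (node
  (nat_lit 5) (nat_lit 52714) (nat_lit 7) nil (node (nat_lit 6) (nat_lit 52714) (nat_lit 7) (node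
  (nat_lit 8) (nat_lit 51318) (nat_lit 8) (node (nat_lit 4) (nat_lit 50404) (nat_lit 9) nil nil)
  (node (nat_lit 4) (nat_lit 53377) (nat_lit 8) nil nil)) (node (nat_lit 0) (nat_lit 52714)
  (nat_lit 7) (node (nat_lit 8) (nat_lit 51318) (nat_lit 8) nil nil) nil))))) nil)))) (node
  (nat_lit 0) (nat_lit 50387) (nat_lit 5) (node (nat_lit 6) (nat_lit 51964) (nat_lit 6) (node
  (nat_lit 4) (nat_lit 52971) (nat_lit 7) (node (nat_lit 5) (nat_lit 53634) (nat_lit 8) (node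
  (nat_lit 6) (nat_lit 54093) (nat_lit 9) (node (nat_lit 4) (nat_lit 54441) (nat_lit 10) nil nil)
  nil) nil) (node (nat_lit 5) (nat_lit 52971) (nat_lit 7) nil (node (nat_lit 8) (nat_lit 53211)
  (nat_lit 7) nil (node (nat_lit 3) (nat_lit 49040) (nat_lit 7) nil nil)))) (node (nat_lit 4)
  (nat_lit 51964) (nat_lit 6) (node (nat_lit 5) (nat_lit 53211) (nat_lit 7) (node (nat_lit 3)
  (nat_lit 50897) (nat_lit 8) nil nil) (node (nat_lit 6) (nat_lit 52971) (nat_lit 7) (node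
  (nat_lit 5) (nat_lit 53634) (nat_lit 8) (node (nat_lit 6) (nat_lit 54093) (nat_lit 9) nil nil)
  (node (nat_lit 4) (nat_lit 53634) (nat_lit 8) nil nil)) (node (nat_lit 3) (nat_lit 52943)
  (nat_lit 7) nil nil))) (node (nat_lit 5) (nat_lit 52440) (nat_lit 6) (node (nat_lit 4) (nat_lit
  53447) (nat_lit 7) (node (nat_lit 6) (nat_lit 54110) (nat_lit 8) (node (nat_lit 4) (nat_lit
  54569) (nat_lit 9) nil nil) nil) (node (nat_lit 8) (nat_lit 53447) (nat_lit 7) nil (node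
  (nat_lit 6) (nat_lit 53447) (nat_lit 7) nil nil))) (node (nat_lit 3) (nat_lit 49748) (nat_lit 6)
  (node (nat_lit 4) (nat_lit 51821) (nat_lit 7) (node (nat_lit 5) (nat_lit 53185) (nat_lit 8)
  (node (nat_lit 6) (nat_lit 52352) (nat_lit 9) nil nil) nil) (node (nat_lit 6) (nat_lit 49583)
  (nat_lit 7) nil (node (nat_lit 8) (nat_lit 51821) (nat_lit 7) nil (node (nat_lit 5) (nat_lit
  48784) (nat_lit 7) nil nil)))) (node (nat_lit 0) (nat_lit 52413) (nat_lit 6) (node (nat_lit 4)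
  (nat_lit 53421) (nat_lit 7) nil (node (nat_lit 6) (nat_lit 53421) (nat_lit 7) nil (node (nat_lit
  8) (nat_lit 53421) (nat_lit 7) nil (node (nat_lit 3) (nat_lit 50673) (nat_lit 7) nil (node
  (nat_lit 5) (nat_lit 53421) (nat_lit 7) nil nil))))) nil))))) nil)))

noncomputable def t35 : Tr :=
  (node (nat_lit 3) (nat_lit 48478) (nat_lit 5) (node (nat_lit 6) (nat_lit 48641) (nat_lit 6)
  (node (nat_lit 8) (nat_lit 48625) (nat_lit 7) (node (nat_lit 5) (nat_lit 48601) (nat_lit 8)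
  (node (nat_lit 8) (nat_lit 59164) (nat_lit 9) (node (nat_lit 6) (nat_lit 64305) (nat_lit 10)
  (node (nat_lit 5) (nat_lit 67661) (nat_lit 11) (node (nat_lit 6) (nat_lit 69187) (nat_lit 12)
  (node (nat_lit 8) (nat_lit 68960) (nat_lit 13) (node (nat_lit 6) (nat_lit 68932) (nat_lit 14)
  (node (nat_lit 5) (nat_lit 68259) (nat_lit 15) (node (nat_lit 8) (nat_lit 68025) (nat_lit 16)
  (node (nat_lit 6) (nat_lit 67777) (nat_lit 17) nil nil) nil) (node (nat_lit 4) (nat_lit 68838)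
  (nat_lit 15) (node (nat_lit 5) (nat_lit 68146) (nat_lit 16) (node (nat_lit 6) (nat_lit 67682)
  (nat_lit 17) nil nil) nil) nil)) (node (nat_lit 5) (nat_lit 68096) (nat_lit 14) (node (nat_lit
  6) (nat_lit 68200) (nat_lit 15) nil (node (nat_lit 8) (nat_lit 67793) (nat_lit 15) nil nil))
  (node (nat_lit 4) (nat_lit 68855) (nat_lit 14) (node (nat_lit 5) (nat_lit 68048) (nat_lit 15)
  nil nil) nil))) (node (nat_lit 4) (nat_lit 70396) (nat_lit 13) (node (nat_lit 5) (nat_lit 67320)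
  (nat_lit 14) (node (nat_lit 6) (nat_lit 66718) (nat_lit 15) (node (nat_lit 5) (nat_lit 67571)
  (nat_lit 16) (node (nat_lit 8) (nat_lit 66104) (nat_lit 17) (node (nat_lit 6) (nat_lit 65647)
  (nat_lit 18) nil nil) nil) nil) nil) nil) (node (nat_lit 0) (nat_lit 71291) (nat_lit 13) nil
  nil))) (node (nat_lit 8) (nat_lit 68535) (nat_lit 12) (node (nat_lit 5) (nat_lit 68308) (nat_lit
  13) (node (nat_lit 6) (nat_lit 67779) (nat_lit 14) (node (nat_lit 8) (nat_lit 67476) (nat_lit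
  15) nil nil) nil) (node (nat_lit 4) (nat_lit 68517) (nat_lit 13) (node (nat_lit 5) (nat_lit
  67564) (nat_lit 14) nil nil) nil)) (node (nat_lit 4) (nat_lit 70419) (nat_lit 12) nil (node
  (nat_lit 0) (nat_lit 70419) (nat_lit 12) nil nil)))) (node (nat_lit 4) (nat_lit 70003) (nat_lit
  11) (node (nat_lit 5) (nat_lit 66188) (nat_lit 12) (node (nat_lit 6) (nat_lit 65711) (nat_lit
  13) (node (nat_lit 5) (nat_lit 65839) (nat_lit 14) (node (nat_lit 8) (nat_lit 62215) (nat_lit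
  15) (node (nat_lit 6) (nat_lit 56093) (nat_lit 16) (node (nat_lit 8) (nat_lit 35928) (nat_lit
  17) nil nil) nil) nil) nil) nil) nil) (node (nat_lit 0) (nat_lit 72072) (nat_lit 11) (node
  (nat_lit 6) (nat_lit 72072) (nat_lit 12) nil (node (nat_lit 8) (nat_lit 71931) (nat_lit 12) nil
  nil)) nil))) (node (nat_lit 4) (nat_lit 70362) (nat_lit 10) (node (nat_lit 5) (nat_lit 66677)
  (nat_lit 11) (node (nat_lit 6) (nat_lit 65407) (nat_lit 12) (node (nat_lit 5) (nat_lit 62195)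
  (nat_lit 13) (node (nat_lit 8) (nat_lit 57990) (nat_lit 14) (node (nat_lit 6) (nat_lit 44211)
  (nat_lit 15) nil nil) nil) nil) nil) (node (nat_lit 6) (nat_lit 69826) (nat_lit 11) (node
  (nat_lit 4) (nat_lit 70398) (nat_lit 12) nil nil) nil)) (node (nat_lit 0) (nat_lit 72027)
  (nat_lit 10) (node (nat_lit 5) (nat_lit 70434) (nat_lit 11) (node (nat_lit 8) (nat_lit 69993)
  (nat_lit 12) nil nil) (node (nat_lit 8) (nat_lit 71278) (nat_lit 11) (node (nat_lit 4) (nat_lit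
  71556) (nat_lit 12) nil nil) (node (nat_lit 6) (nat_lit 71491) (nat_lit 11) (node (nat_lit 8)
  (nat_lit 71050) (nat_lit 12) nil nil) nil))) nil))) (node (nat_lit 6) (nat_lit 59457) (nat_lit
  9) (node (nat_lit 5) (nat_lit 65014) (nat_lit 10) (node (nat_lit 8) (nat_lit 67120) (nat_lit 11)
  (node (nat_lit 4) (nat_lit 67276) (nat_lit 12) (node (nat_lit 5) (nat_lit 66285) (nat_lit 13)
  nil nil) (node (nat_lit 6) (nat_lit 64962) (nat_lit 12) nil nil)) (node (nat_lit 4) (nat_lit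
  70676) (nat_lit 11) nil (node (nat_lit 0) (nat_lit 68571) (nat_lit 11) nil nil))) (node (nat_lit
  8) (nat_lit 64798) (nat_lit 10) (node (nat_lit 6) (nat_lit 65516) (nat_lit 11) (node (nat_lit 4)
  (nat_lit 65672) (nat_lit 12) (node (nat_lit 5) (nat_lit 64681) (nat_lit 13) (node (nat_lit 6)
  (nat_lit 64311) (nat_lit 14) nil nil) nil) (node (nat_lit 5) (nat_lit 64047) (nat_lit 12) (node
  (nat_lit 6) (nat_lit 63392) (nat_lit 13) nil nil) nil)) (node (nat_lit 4) (nat_lit 68054)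
  (nat_lit 11) (node (nat_lit 5) (nat_lit 65035) (nat_lit 12) (node (nat_lit 6) (nat_lit 63229)
  (nat_lit 13) nil nil) (node (nat_lit 6) (nat_lit 68054) (nat_lit 12) nil nil)) (node (nat_lit 0)
  (nat_lit 68355) (nat_lit 11) nil nil))) (node (nat_lit 4) (nat_lit 69469) (nat_lit 10) (node
  (nat_lit 5) (nat_lit 66729) (nat_lit 11) (node (nat_lit 6) (nat_lit 65703) (nat_lit 12) (node
  (nat_lit 5) (nat_lit 62009) (nat_lit 13) (node (nat_lit 8) (nat_lit 54270) (nat_lit 14) (node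
  (nat_lit 6) (nat_lit 40214) (nat_lit 15) (node (nat_lit 8) (nat_lit 34313) (nat_lit 16) nil nil)
  nil) nil) nil) nil) (node (nat_lit 8) (nat_lit 68719) (nat_lit 11) nil nil)) (node (nat_lit 0)
  (nat_lit 69391) (nat_lit 10) nil nil)))) (node (nat_lit 4) (nat_lit 69975) (nat_lit 9) (node
  (nat_lit 6) (nat_lit 69261) (nat_lit 10) nil (node (nat_lit 8) (nat_lit 69397) (nat_lit 10) nil
  nil)) (node (nat_lit 0) (nat_lit 69975) (nat_lit 9) (node (nat_lit 8) (nat_lit 69397) (nat_lit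
  10) nil (node (nat_lit 6) (nat_lit 69261) (nat_lit 10) nil nil)) nil)))) (node (nat_lit 4)
  (nat_lit 68516) (nat_lit 8) (node (nat_lit 6) (nat_lit 69459) (nat_lit 9) (node (nat_lit 4)
  (nat_lit 70176) (nat_lit 10) (node (nat_lit 5) (nat_lit 69640) (nat_lit 11) (node (nat_lit 6)
  (nat_lit 69275) (nat_lit 12) (node (nat_lit 5) (nat_lit 69014) (nat_lit 13) (node (nat_lit 8)
  (nat_lit 68725) (nat_lit 14) (node (nat_lit 6) (nat_lit 68393) (nat_lit 15) nil nil) nil) nil)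
  nil) nil) nil) (node (nat_lit 5) (nat_lit 68893) (nat_lit 9) (node (nat_lit 6) (nat_lit 60383)
  (nat_lit 10) (node (nat_lit 5) (nat_lit 41060) (nat_lit 11) (node (nat_lit 8) (nat_lit 30974)
  (nat_lit 12) nil nil) (node (nat_lit 8) (nat_lit 58834) (nat_lit 11) nil nil)) (node (nat_lit 8)
  (nat_lit 68433) (nat_lit 10) nil (node (nat_lit 4) (nat_lit 69079) (nat_lit 10) nil nil))) nil))
  (node (nat_lit 0) (nat_lit 69171) (nat_lit 8) (node (nat_lit 5) (nat_lit 66730) (nat_lit 9) nil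
  (node (nat_lit 6) (nat_lit 68338) (nat_lit 9) nil (node (nat_lit 8) (nat_lit 68507) (nat_lit 9)
  nil nil))) nil))) (node (nat_lit 4) (nat_lit 65166) (nat_lit 7) (node (nat_lit 8) (nat_lit
  67868) (nat_lit 8) (node (nat_lit 5) (nat_lit 68846) (nat_lit 9) (node (nat_lit 6) (nat_lit
  67385) (nat_lit 10) nil (node (nat_lit 8) (nat_lit 66775) (nat_lit 10) (node (nat_lit 4)
  (nat_lit 66905) (nat_lit 11) (node (nat_lit 5) (nat_lit 66245) (nat_lit 12) nil nil) nil) nil))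
  (node (nat_lit 4) (nat_lit 68811) (nat_lit 9) (node (nat_lit 6) (nat_lit 68097) (nat_lit 10)
  (node (nat_lit 4) (nat_lit 68729) (nat_lit 11) nil nil) (node (nat_lit 5) (nat_lit 69528)
  (nat_lit 10) (node (nat_lit 6) (nat_lit 68992) (nat_lit 11) nil nil) nil)) (node (nat_lit 6)
  (nat_lit 67034) (nat_lit 9) nil (node (nat_lit 0) (nat_lit 68811) (nat_lit 9) nil nil)))) (node
  (nat_lit 5) (nat_lit 62498) (nat_lit 8) (node (nat_lit 6) (nat_lit 49055) (nat_lit 9) (node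
  (nat_lit 5) (nat_lit 37728) (nat_lit 10) (node (nat_lit 4) (nat_lit 38053) (nat_lit 11) nil nil)
  (node (nat_lit 4) (nat_lit 50585) (nat_lit 10) (node (nat_lit 6) (nat_lit 50149) (nat_lit 11)
  nil (node (nat_lit 8) (nat_lit 50160) (nat_lit 11) nil nil)) (node (nat_lit 8) (nat_lit 50641)
  (nat_lit 10) (node (nat_lit 5) (nat_lit 50204) (nat_lit 11) nil (node (nat_lit 6) (nat_lit
  50917) (nat_lit 11) nil nil)) nil))) (node (nat_lit 8) (nat_lit 63182) (nat_lit 9) (node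
  (nat_lit 5) (nat_lit 62881) (nat_lit 10) nil nil) (node (nat_lit 4) (nat_lit 64491) (nat_lit 9)
  (node (nat_lit 6) (nat_lit 64491) (nat_lit 10) (node (nat_lit 8) (nat_lit 63229) (nat_lit 11)
  nil nil) (node (nat_lit 8) (nat_lit 64485) (nat_lit 10) nil nil)) (node (nat_lit 0) (nat_lit
  64339) (nat_lit 9) nil nil)))) (node (nat_lit 6) (nat_lit 68093) (nat_lit 8) (node (nat_lit 8)
  (nat_lit 69126) (nat_lit 9) (node (nat_lit 6) (nat_lit 68403) (nat_lit 10) (node (nat_lit 4)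
  (nat_lit 66411) (nat_lit 11) (node (nat_lit 5) (nat_lit 64814) (nat_lit 12) nil nil) nil) (node
  (nat_lit 4) (nat_lit 66915) (nat_lit 10) nil (node (nat_lit 5) (nat_lit 67679) (nat_lit 10) nil
  nil))) (node (nat_lit 5) (nat_lit 68274) (nat_lit 9) (node (nat_lit 8) (nat_lit 66534) (nat_lit
  10) nil nil) nil)) (node (nat_lit 0) (nat_lit 67776) (nat_lit 8) (node (nat_lit 8) (nat_lit
  67111) (nat_lit 9) nil (node (nat_lit 6) (nat_lit 66942) (nat_lit 9) nil nil)) nil)))) (node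
  (nat_lit 5) (nat_lit 48641) (nat_lit 7) (node (nat_lit 6) (nat_lit 48649) (nat_lit 8) (node
  (nat_lit 8) (nat_lit 57190) (nat_lit 9) (node (nat_lit 6) (nat_lit 59057) (nat_lit 10) nil nil)
  (node (nat_lit 4) (nat_lit 62773) (nat_lit 9) nil nil)) (node (nat_lit 4) (nat_lit 66858)
  (nat_lit 8) nil (node (nat_lit 0) (nat_lit 64328) (nat_lit 8) nil nil))) (node (nat_lit 0)
  (nat_lit 68833) (nat_lit 7) (node (nat_lit 4) (nat_lit 70197) (nat_lit 8) (node (nat_lit 6)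
  (nat_lit 69364) (nat_lit 9) nil nil) (node (nat_lit 6) (nat_lit 69781) (nat_lit 8) (node
  (nat_lit 4) (nat_lit 70725) (nat_lit 9) (node (nat_lit 5) (nat_lit 70010) (nat_lit 10) nil nil)
  (node (nat_lit 8) (nat_lit 66287) (nat_lit 9) nil nil)) (node (nat_lit 5) (nat_lit 69218)
  (nat_lit 8) (node (nat_lit 8) (nat_lit 68267) (nat_lit 9) nil (node (nat_lit 6) (nat_lit 65555)
  (nat_lit 9) nil (node (nat_lit 10) (nat_lit 70161) (nat_lit 9) nil nil))) (node (nat_lit 8)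
  (nat_lit 70008) (nat_lit 8) (node (nat_lit 6) (nat_lit 67780) (nat_lit 9) nil nil) (node
  (nat_lit 0) (nat_lit 70197) (nat_lit 8) nil nil))))) nil)))) (node (nat_lit 4) (nat_lit 60096)
  (nat_lit 6) (node (nat_lit 5) (nat_lit 49655) (nat_lit 7) (node (nat_lit 4) (nat_lit 52784)
  (nat_lit 8) (node (nat_lit 8) (nat_lit 54826) (nat_lit 9) (node (nat_lit 4) (nat_lit 55543)
  (nat_lit 10) (node (nat_lit 5) (nat_lit 56176) (nat_lit 11) (node (nat_lit 6) (nat_lit 55811)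
  (nat_lit 12) nil nil) nil) (node (nat_lit 5) (nat_lit 55585) (nat_lit 10) (node (nat_lit 8)
  (nat_lit 56045) (nat_lit 11) (node (nat_lit 4) (nat_lit 55284) (nat_lit 12) nil nil) (node
  (nat_lit 4) (nat_lit 56218) (nat_lit 11) nil nil)) (node (nat_lit 6) (nat_lit 51990) (nat_lit
  10) nil nil))) (node (nat_lit 6) (nat_lit 53995) (nat_lit 9) (node (nat_lit 8) (nat_lit 53260)
  (nat_lit 10) (node (nat_lit 4) (nat_lit 51869) (nat_lit 11) nil (node (nat_lit 6) (nat_lit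
  52236) (nat_lit 11) nil nil)) (node (nat_lit 5) (nat_lit 54386) (nat_lit 10) (node (nat_lit 8)
  (nat_lit 52305) (nat_lit 11) nil nil) (node (nat_lit 4) (nat_lit 54712) (nat_lit 10) (node
  (nat_lit 5) (nat_lit 54176) (nat_lit 11) nil nil) nil))) (node (nat_lit 0) (nat_lit 53727)
  (nat_lit 9) nil nil))) (node (nat_lit 6) (nat_lit 41207) (nat_lit 8) (node (nat_lit 4) (nat_lit
  41207) (nat_lit 9) (node (nat_lit 8) (nat_lit 41207) (nat_lit 10) (node (nat_lit 4) (nat_lit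
  41207) (nat_lit 11) nil nil) (node (nat_lit 6) (nat_lit 41207) (nat_lit 10) nil nil)) (node
  (nat_lit 8) (nat_lit 41207) (nat_lit 9) (node (nat_lit 4) (nat_lit 39169) (nat_lit 10) nil nil)
  (node (nat_lit 5) (nat_lit 30774) (nat_lit 9) nil nil))) (node (nat_lit 8) (nat_lit 52452)
  (nat_lit 8) (node (nat_lit 6) (nat_lit 54066) (nat_lit 9) (node (nat_lit 4) (nat_lit 54654)
  (nat_lit 10) (node (nat_lit 5) (nat_lit 49630) (nat_lit 11) (node (nat_lit 6) (nat_lit 46864)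
  (nat_lit 12) nil nil) nil) (node (nat_lit 5) (nat_lit 53902) (nat_lit 10) nil nil)) (node
  (nat_lit 5) (nat_lit 53901) (nat_lit 9) (node (nat_lit 4) (nat_lit 54618) (nat_lit 10) nil (node
  (nat_lit 6) (nat_lit 51065) (nat_lit 10) nil nil)) nil)) (node (nat_lit 0) (nat_lit 52258)
  (nat_lit 8) (node (nat_lit 8) (nat_lit 53650) (nat_lit 9) nil (node (nat_lit 6) (nat_lit 51425)
  (nat_lit 9) nil (node (nat_lit 5) (nat_lit 52819) (nat_lit 9) nil nil))) nil)))) (node (nat_lit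
  6) (nat_lit 64133) (nat_lit 7) (node (nat_lit 4) (nat_lit 65205) (nat_lit 8) (node (nat_lit 5)
  (nat_lit 64372) (nat_lit 9) (node (nat_lit 6) (nat_lit 63657) (nat_lit 10) (node (nat_lit 5)
  (nat_lit 63121) (nat_lit 11) (node (nat_lit 8) (nat_lit 62680) (nat_lit 12) nil nil) nil) nil)
  (node (nat_lit 8) (nat_lit 64541) (nat_lit 9) nil nil)) (node (nat_lit 8) (nat_lit 65639)
  (nat_lit 8) (node (nat_lit 6) (nat_lit 63478) (nat_lit 9) (node (nat_lit 5) (nat_lit 61468)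
  (nat_lit 10) nil (node (nat_lit 4) (nat_lit 63740) (nat_lit 10) nil nil)) (node (nat_lit 5)
  (nat_lit 65450) (nat_lit 9) (node (nat_lit 8) (nat_lit 62988) (nat_lit 10) nil nil) (node
  (nat_lit 4) (nat_lit 63675) (nat_lit 9) (node (nat_lit 5) (nat_lit 61098) (nat_lit 10) (node
  (nat_lit 6) (nat_lit 52543) (nat_lit 11) (node (nat_lit 5) (nat_lit 37328) (nat_lit 12) (node
  (nat_lit 8) (nat_lit 36896) (nat_lit 13) nil nil) nil) nil) nil) nil))) (node (nat_lit 5)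
  (nat_lit 61230) (nat_lit 8) nil nil))) (node (nat_lit 8) (nat_lit 65363) (nat_lit 7) (node
  (nat_lit 5) (nat_lit 64771) (nat_lit 8) (node (nat_lit 4) (nat_lit 65715) (nat_lit 9) nil (node
  (nat_lit 6) (nat_lit 63480) (nat_lit 9) nil (node (nat_lit 8) (nat_lit 64028) (nat_lit 9) (node
  (nat_lit 4) (nat_lit 62514) (nat_lit 10) (node (nat_lit 5) (nat_lit 60912) (nat_lit 11) nil nil)
  nil) nil))) (node (nat_lit 6) (nat_lit 62212) (nat_lit 8) (node (nat_lit 4) (nat_lit 61798)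
  (nat_lit 9) (node (nat_lit 5) (nat_lit 56907) (nat_lit 10) (node (nat_lit 6) (nat_lit 45093)
  (nat_lit 11) (node (nat_lit 5) (nat_lit 38493) (nat_lit 12) (node (nat_lit 8) (nat_lit 29701)
  (nat_lit 13) nil nil) nil) nil) nil) nil) nil)) (node (nat_lit 0) (nat_lit 64352) (nat_lit 7)
  (node (nat_lit 6) (nat_lit 63439) (nat_lit 8) nil nil) nil)))) (node (nat_lit 5) (nat_lit 48622)
  (nat_lit 6) (node (nat_lit 6) (nat_lit 48584) (nat_lit 7) (node (nat_lit 8) (nat_lit 48572)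
  (nat_lit 8) (node (nat_lit 6) (nat_lit 57685) (nat_lit 9) (node (nat_lit 5) (nat_lit 61056)
  (nat_lit 10) (node (nat_lit 6) (nat_lit 58035) (nat_lit 11) nil nil) nil) (node (nat_lit 5)
  (nat_lit 57957) (nat_lit 9) (node (nat_lit 8) (nat_lit 60842) (nat_lit 10) (node (nat_lit 6)
  (nat_lit 60327) (nat_lit 11) nil nil) (node (nat_lit 4) (nat_lit 65134) (nat_lit 10) nil nil))
  (node (nat_lit 4) (nat_lit 62396) (nat_lit 9) (node (nat_lit 5) (nat_lit 60395) (nat_lit 10)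
  (node (nat_lit 6) (nat_lit 55939) (nat_lit 11) (node (nat_lit 5) (nat_lit 48164) (nat_lit 12)
  (node (nat_lit 8) (nat_lit 38336) (nat_lit 13) nil nil) nil) nil) nil) (node (nat_lit 0)
  (nat_lit 64962) (nat_lit 9) nil nil)))) (node (nat_lit 4) (nat_lit 63438) (nat_lit 8) (node
  (nat_lit 5) (nat_lit 61248) (nat_lit 9) (node (nat_lit 6) (nat_lit 55697) (nat_lit 10) (node
  (nat_lit 5) (nat_lit 48407) (nat_lit 11) nil nil) nil) nil) (node (nat_lit 5) (nat_lit 48584)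
  (nat_lit 8) (node (nat_lit 4) (nat_lit 65649) (nat_lit 9) nil nil) (node (nat_lit 0) (nat_lit
  64271) (nat_lit 8) nil nil)))) (node (nat_lit 4) (nat_lit 67993) (nat_lit 7) (node (nat_lit 6)
  (nat_lit 67081) (nat_lit 8) nil (node (nat_lit 8) (nat_lit 67297) (nat_lit 8) nil nil)) (node
  (nat_lit 0) (nat_lit 65111) (nat_lit 7) nil nil))) (node (nat_lit 0) (nat_lit 63748) (nat_lit 6)
  (node (nat_lit 5) (nat_lit 67752) (nat_lit 7) (node (nat_lit 6) (nat_lit 63038) (nat_lit 8) nil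
  nil) (node (nat_lit 4) (nat_lit 68488) (nat_lit 7) nil (node (nat_lit 8) (nat_lit 68002)
  (nat_lit 7) nil (node (nat_lit 6) (nat_lit 67379) (nat_lit 7) (node (nat_lit 4) (nat_lit 68743)
  (nat_lit 8) nil nil) (node (nat_lit 0) (nat_lit 66675) (nat_lit 7) nil nil))))) nil)))) (node
  (nat_lit 0) (nat_lit 57177) (nat_lit 5) (node (nat_lit 6) (nat_lit 65158) (nat_lit 6) (node
  (nat_lit 8) (nat_lit 67231) (nat_lit 7) nil (node (nat_lit 4) (nat_lit 67231) (nat_lit 7) (node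
  (nat_lit 5) (nat_lit 66319) (nat_lit 8) (node (nat_lit 6) (nat_lit 65485) (nat_lit 9) (node
  (nat_lit 5) (nat_lit 64771) (nat_lit 10) nil nil) nil) nil) (node (nat_lit 5) (nat_lit 69682)
  (nat_lit 7) (node (nat_lit 6) (nat_lit 66271) (nat_lit 8) nil nil) (node (nat_lit 3) (nat_lit
  59056) (nat_lit 7) nil nil)))) (node (nat_lit 4) (nat_lit 65609) (nat_lit 6) (node (nat_lit 5)
  (nat_lit 64521) (nat_lit 7) nil (node (nat_lit 3) (nat_lit 64934) (nat_lit 7) nil (node (nat_lit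
  6) (nat_lit 64005) (nat_lit 7) (node (nat_lit 4) (nat_lit 65370) (nat_lit 8) (node (nat_lit 5)
  (nat_lit 64536) (nat_lit 9) (node (nat_lit 6) (nat_lit 63822) (nat_lit 10) (node (nat_lit 5)
  (nat_lit 63286) (nat_lit 11) nil nil) nil) nil) nil) (node (nat_lit 8) (nat_lit 67682) (nat_lit
  7) nil nil)))) (node (nat_lit 5) (nat_lit 65139) (nat_lit 6) (node (nat_lit 6) (nat_lit 66552)
  (nat_lit 7) (node (nat_lit 4) (nat_lit 66277) (nat_lit 8) nil nil) (node (nat_lit 4) (nat_lit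
  67212) (nat_lit 7) nil (node (nat_lit 3) (nat_lit 64816) (nat_lit 7) (node (nat_lit 6) (nat_lit
  63287) (nat_lit 8) nil nil) nil))) (node (nat_lit 3) (nat_lit 65277) (nat_lit 6) (node (nat_lit
  4) (nat_lit 67350) (nat_lit 7) (node (nat_lit 5) (nat_lit 68714) (nat_lit 8) nil nil) (node
  (nat_lit 6) (nat_lit 65519) (nat_lit 7) nil nil)) (node (nat_lit 0) (nat_lit 65256) (nat_lit 6)
  nil nil))))) nil))

noncomputable def t36 : Tr :=
  (node (nat_lit 5) (nat_lit 48160) (nat_lit 5) (node (nat_lit 7) (nat_lit 48277) (nat_lit 6)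
  (node (nat_lit 6) (nat_lit 48277) (nat_lit 7) (node (nat_lit 7) (nat_lit 48238) (nat_lit 8)
  (node (nat_lit 0) (nat_lit 63291) (nat_lit 9) (node (nat_lit 6) (nat_lit 62576) (nat_lit 10)
  (node (nat_lit 7) (nat_lit 61806) (nat_lit 11) nil nil) (node (nat_lit 7) (nat_lit 62712)
  (nat_lit 10) nil nil)) (node (nat_lit 4) (nat_lit 63740) (nat_lit 9) (node (nat_lit 6) (nat_lit
  64184) (nat_lit 10) (node (nat_lit 4) (nat_lit 64333) (nat_lit 11) (node (nat_lit 5) (nat_lit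
  64333) (nat_lit 12) (node (nat_lit 6) (nat_lit 64333) (nat_lit 13) (node (nat_lit 7) (nat_lit
  64110) (nat_lit 14) (node (nat_lit 5) (nat_lit 63568) (nat_lit 15) (node (nat_lit 7) (nat_lit
  63340) (nat_lit 16) nil nil) nil) nil) nil) nil) (node (nat_lit 5) (nat_lit 62863) (nat_lit 11)
  (node (nat_lit 6) (nat_lit 62124) (nat_lit 12) (node (nat_lit 7) (nat_lit 61701) (nat_lit 13)
  nil nil) nil) nil)) (node (nat_lit 7) (nat_lit 63161) (nat_lit 10) (node (nat_lit 5) (nat_lit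
  61568) (nat_lit 11) (node (nat_lit 6) (nat_lit 60829) (nat_lit 12) nil nil) nil) (node (nat_lit
  5) (nat_lit 60669) (nat_lit 10) (node (nat_lit 6) (nat_lit 57394) (nat_lit 11) (node (nat_lit 7)
  (nat_lit 51166) (nat_lit 12) (node (nat_lit 5) (nat_lit 30823) (nat_lit 13) nil nil) nil) nil)
  nil))) (node (nat_lit 5) (nat_lit 55393) (nat_lit 9) (node (nat_lit 6) (nat_lit 56697) (nat_lit
  10) (node (nat_lit 7) (nat_lit 56115) (nat_lit 11) (node (nat_lit 6) (nat_lit 56345) (nat_lit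
  12) nil (node (nat_lit 4) (nat_lit 55798) (nat_lit 12) nil nil)) (node (nat_lit 5) (nat_lit
  55805) (nat_lit 11) (node (nat_lit 7) (nat_lit 55127) (nat_lit 12) nil nil) (node (nat_lit 4)
  (nat_lit 56661) (nat_lit 11) nil nil))) (node (nat_lit 4) (nat_lit 59812) (nat_lit 10) nil nil))
  nil))) (node (nat_lit 5) (nat_lit 48345) (nat_lit 8) (node (nat_lit 6) (nat_lit 56046) (nat_lit
  9) (node (nat_lit 7) (nat_lit 59143) (nat_lit 10) (node (nat_lit 6) (nat_lit 57321) (nat_lit 11)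
  nil nil) (node (nat_lit 4) (nat_lit 58607) (nat_lit 10) (node (nat_lit 7) (nat_lit 58182)
  (nat_lit 11) nil nil) nil)) (node (nat_lit 7) (nat_lit 55951) (nat_lit 9) (node (nat_lit 5)
  (nat_lit 58123) (nat_lit 10) (node (nat_lit 6) (nat_lit 55031) (nat_lit 11) nil nil) (node
  (nat_lit 4) (nat_lit 58606) (nat_lit 10) nil nil)) (node (nat_lit 4) (nat_lit 60836) (nat_lit 9)
  nil (node (nat_lit 0) (nat_lit 60836) (nat_lit 9) nil nil)))) (node (nat_lit 4) (nat_lit 59003)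
  (nat_lit 8) (node (nat_lit 5) (nat_lit 52934) (nat_lit 9) (node (nat_lit 6) (nat_lit 45023)
  (nat_lit 10) (node (nat_lit 7) (nat_lit 27063) (nat_lit 11) nil nil) nil) nil) (node (nat_lit 0)
  (nat_lit 60890) (nat_lit 8) nil nil)))) (node (nat_lit 4) (nat_lit 58100) (nat_lit 7) (node
  (nat_lit 5) (nat_lit 53172) (nat_lit 8) (node (nat_lit 6) (nat_lit 49115) (nat_lit 9) (node
  (nat_lit 7) (nat_lit 30326) (nat_lit 10) nil nil) (node (nat_lit 4) (nat_lit 54115) (nat_lit 9)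
  nil nil)) (node (nat_lit 6) (nat_lit 57188) (nat_lit 8) nil nil)) (node (nat_lit 0) (nat_lit
  59081) (nat_lit 7) (node (nat_lit 6) (nat_lit 58169) (nat_lit 8) nil nil) nil))) (node (nat_lit
  4) (nat_lit 57616) (nat_lit 6) (node (nat_lit 6) (nat_lit 61862) (nat_lit 7) (node (nat_lit 4)
  (nat_lit 64611) (nat_lit 8) (node (nat_lit 5) (nat_lit 63777) (nat_lit 9) (node (nat_lit 6)
  (nat_lit 63063) (nat_lit 10) (node (nat_lit 7) (nat_lit 62292) (nat_lit 11) (node (nat_lit 5)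
  (nat_lit 61079) (nat_lit 12) nil nil) nil) nil) (node (nat_lit 7) (nat_lit 65162) (nat_lit 9)
  (node (nat_lit 6) (nat_lit 62171) (nat_lit 10) nil (node (nat_lit 4) (nat_lit 65879) (nat_lit
  10) nil nil)) nil)) (node (nat_lit 5) (nat_lit 63042) (nat_lit 8) (node (nat_lit 6) (nat_lit
  62146) (nat_lit 9) (node (nat_lit 4) (nat_lit 61007) (nat_lit 10) (node (nat_lit 5) (nat_lit
  54712) (nat_lit 11) nil nil) (node (nat_lit 7) (nat_lit 60776) (nat_lit 10) nil nil)) (node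
  (nat_lit 7) (nat_lit 59341) (nat_lit 9) nil nil)) (node (nat_lit 7) (nat_lit 63430) (nat_lit 8)
  (node (nat_lit 4) (nat_lit 58715) (nat_lit 9) (node (nat_lit 5) (nat_lit 56637) (nat_lit 10)
  (node (nat_lit 6) (nat_lit 52452) (nat_lit 11) nil nil) (node (nat_lit 6) (nat_lit 59431)
  (nat_lit 10) (node (nat_lit 4) (nat_lit 60064) (nat_lit 11) nil nil) nil)) (node (nat_lit 6)
  (nat_lit 61337) (nat_lit 9) nil nil)) nil))) (node (nat_lit 7) (nat_lit 61843) (nat_lit 7) (node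
  (nat_lit 5) (nat_lit 62164) (nat_lit 8) (node (nat_lit 6) (nat_lit 61984) (nat_lit 9) (node
  (nat_lit 4) (nat_lit 58845) (nat_lit 10) (node (nat_lit 7) (nat_lit 58420) (nat_lit 11) nil nil)
  (node (nat_lit 7) (nat_lit 62907) (nat_lit 10) nil nil)) nil) (node (nat_lit 4) (nat_lit 63207)
  (nat_lit 8) (node (nat_lit 5) (nat_lit 64151) (nat_lit 9) nil nil) (node (nat_lit 6) (nat_lit
  62626) (nat_lit 8) (node (nat_lit 5) (nat_lit 60185) (nat_lit 9) (node (nat_lit 6) (nat_lit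
  58802) (nat_lit 10) (node (nat_lit 7) (nat_lit 58031) (nat_lit 11) nil nil) nil) nil) nil)))
  (node (nat_lit 5) (nat_lit 60989) (nat_lit 7) (node (nat_lit 7) (nat_lit 58428) (nat_lit 8) nil
  nil) (node (nat_lit 0) (nat_lit 59689) (nat_lit 7) nil nil)))) (node (nat_lit 6) (nat_lit 48271)
  (nat_lit 6) (node (nat_lit 5) (nat_lit 48287) (nat_lit 7) (node (nat_lit 7) (nat_lit 48333)
  (nat_lit 8) (node (nat_lit 6) (nat_lit 57430) (nat_lit 9) (node (nat_lit 7) (nat_lit 62812)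
  (nat_lit 10) (node (nat_lit 5) (nat_lit 64529) (nat_lit 11) (node (nat_lit 6) (nat_lit 65411)
  (nat_lit 12) (node (nat_lit 7) (nat_lit 64331) (nat_lit 13) (node (nat_lit 6) (nat_lit 63595)
  (nat_lit 14) (node (nat_lit 5) (nat_lit 62922) (nat_lit 15) (node (nat_lit 6) (nat_lit 62554)
  (nat_lit 16) nil nil) (node (nat_lit 4) (nat_lit 64422) (nat_lit 15) nil nil)) (node (nat_lit 4)
  (nat_lit 63916) (nat_lit 14) (node (nat_lit 5) (nat_lit 63418) (nat_lit 15) nil nil) nil)) (node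
  (nat_lit 4) (nat_lit 65006) (nat_lit 13) (node (nat_lit 5) (nat_lit 63860) (nat_lit 14) (node
  (nat_lit 6) (nat_lit 62980) (nat_lit 15) nil nil) (node (nat_lit 7) (nat_lit 65006) (nat_lit 14)
  nil nil)) (node (nat_lit 0) (nat_lit 66427) (nat_lit 13) nil nil))) nil) nil) (node (nat_lit 5)
  (nat_lit 61692) (nat_lit 10) (node (nat_lit 6) (nat_lit 59237) (nat_lit 11) (node (nat_lit 7)
  (nat_lit 57063) (nat_lit 12) nil nil) nil) nil)) (node (nat_lit 5) (nat_lit 57573) (nat_lit 9)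
  (node (nat_lit 4) (nat_lit 64038) (nat_lit 10) nil (node (nat_lit 6) (nat_lit 61706) (nat_lit
  10) (node (nat_lit 7) (nat_lit 63881) (nat_lit 11) nil nil) (node (nat_lit 0) (nat_lit 64038)
  (nat_lit 10) nil nil))) (node (nat_lit 4) (nat_lit 62546) (nat_lit 9) (node (nat_lit 5) (nat_lit
  62006) (nat_lit 10) (node (nat_lit 6) (nat_lit 52356) (nat_lit 11) (node (nat_lit 7) (nat_lit
  34084) (nat_lit 12) (node (nat_lit 5) (nat_lit 33652) (nat_lit 13) nil nil) nil) nil) nil) (node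
  (nat_lit 0) (nat_lit 63320) (nat_lit 9) nil nil)))) (node (nat_lit 4) (nat_lit 62901) (nat_lit
  8) (node (nat_lit 6) (nat_lit 62068) (nat_lit 9) nil nil) (node (nat_lit 0) (nat_lit 62027)
  (nat_lit 8) nil nil))) (node (nat_lit 4) (nat_lit 58185) (nat_lit 7) (node (nat_lit 7) (nat_lit
  60333) (nat_lit 8) (node (nat_lit 4) (nat_lit 60945) (nat_lit 9) (node (nat_lit 6) (nat_lit
  62009) (nat_lit 10) (node (nat_lit 7) (nat_lit 59807) (nat_lit 11) nil (node (nat_lit 4)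
  (nat_lit 62641) (nat_lit 11) nil nil)) (node (nat_lit 5) (nat_lit 61662) (nat_lit 10) (node
  (nat_lit 6) (nat_lit 61126) (nat_lit 11) nil nil) nil)) (node (nat_lit 6) (nat_lit 60418)
  (nat_lit 9) (node (nat_lit 7) (nat_lit 58858) (nat_lit 10) nil nil) (node (nat_lit 5) (nat_lit
  60763) (nat_lit 9) (node (nat_lit 7) (nat_lit 59582) (nat_lit 10) (node (nat_lit 4) (nat_lit
  57467) (nat_lit 11) nil nil) (node (nat_lit 4) (nat_lit 61480) (nat_lit 10) nil nil)) nil)))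
  (node (nat_lit 5) (nat_lit 57182) (nat_lit 8) (node (nat_lit 6) (nat_lit 41727) (nat_lit 9)
  (node (nat_lit 5) (nat_lit 40664) (nat_lit 10) nil (node (nat_lit 7) (nat_lit 29872) (nat_lit
  10) nil nil)) (node (nat_lit 4) (nat_lit 58125) (nat_lit 9) nil (node (nat_lit 7) (nat_lit
  54238) (nat_lit 9) nil nil))) (node (nat_lit 6) (nat_lit 58794) (nat_lit 8) nil nil))) (node
  (nat_lit 0) (nat_lit 61697) (nat_lit 7) (node (nat_lit 6) (nat_lit 60785) (nat_lit 8) nil (node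
  (nat_lit 7) (nat_lit 61002) (nat_lit 8) nil nil)) nil))) (node (nat_lit 0) (nat_lit 57645)
  (nat_lit 6) (node (nat_lit 5) (nat_lit 61538) (nat_lit 7) (node (nat_lit 6) (nat_lit 56547)
  (nat_lit 8) nil (node (nat_lit 7) (nat_lit 58227) (nat_lit 8) (node (nat_lit 6) (nat_lit 56417)
  (nat_lit 9) nil nil) nil)) (node (nat_lit 7) (nat_lit 61426) (nat_lit 7) (node (nat_lit 4)
  (nat_lit 62790) (nat_lit 8) nil nil) (node (nat_lit 4) (nat_lit 57285) (nat_lit 7) (node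
  (nat_lit 7) (nat_lit 56589) (nat_lit 8) nil nil) (node (nat_lit 6) (nat_lit 60121) (nat_lit 7)
  (node (nat_lit 4) (nat_lit 61486) (nat_lit 8) nil nil) (node (nat_lit 0) (nat_lit 59718)
  (nat_lit 7) nil nil))))) nil)))) (node (nat_lit 6) (nat_lit 0) (nat_lit 5) (node (nat_lit 4)
  (nat_lit 50520) (nat_lit 6) (node (nat_lit 7) (nat_lit 56482) (nat_lit 7) (node (nat_lit 4)
  (nat_lit 59233) (nat_lit 8) (node (nat_lit 6) (nat_lit 59954) (nat_lit 9) (node (nat_lit 4)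
  (nat_lit 60799) (nat_lit 10) (node (nat_lit 7) (nat_lit 62198) (nat_lit 11) (node (nat_lit 6)
  (nat_lit 62392) (nat_lit 12) (node (nat_lit 7) (nat_lit 61689) (nat_lit 13) nil (node (nat_lit
  4) (nat_lit 61201) (nat_lit 13) nil nil)) nil) (node (nat_lit 5) (nat_lit 60263) (nat_lit 11)
  (node (nat_lit 6) (nat_lit 59898) (nat_lit 12) (node (nat_lit 7) (nat_lit 59474) (nat_lit 13)
  (node (nat_lit 6) (nat_lit 59557) (nat_lit 14) (node (nat_lit 4) (nat_lit 59671) (nat_lit 15)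
  nil nil) nil) nil) nil) nil)) (node (nat_lit 7) (nat_lit 60957) (nat_lit 10) (node (nat_lit 4)
  (nat_lit 59909) (nat_lit 11) (node (nat_lit 5) (nat_lit 56956) (nat_lit 12) nil nil) nil) nil))
  (node (nat_lit 5) (nat_lit 60177) (nat_lit 9) (node (nat_lit 6) (nat_lit 59462) (nat_lit 10)
  (node (nat_lit 7) (nat_lit 58691) (nat_lit 11) (node (nat_lit 6) (nat_lit 58890) (nat_lit 12)
  nil nil) nil) nil) (node (nat_lit 0) (nat_lit 60177) (nat_lit 9) nil nil))) (node (nat_lit 5)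
  (nat_lit 59637) (nat_lit 8) (node (nat_lit 6) (nat_lit 62160) (nat_lit 9) (node (nat_lit 7)
  (nat_lit 63839) (nat_lit 10) (node (nat_lit 6) (nat_lit 62874) (nat_lit 11) nil (node (nat_lit
  4) (nat_lit 64919) (nat_lit 11) (node (nat_lit 6) (nat_lit 65102) (nat_lit 12) nil nil) (node
  (nat_lit 5) (nat_lit 64830) (nat_lit 11) (node (nat_lit 7) (nat_lit 63123) (nat_lit 12) nil nil)
  nil))) (node (nat_lit 5) (nat_lit 63098) (nat_lit 10) (node (nat_lit 7) (nat_lit 63120) (nat_lit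
  11) nil nil) (node (nat_lit 4) (nat_lit 62593) (nat_lit 10) nil (node (nat_lit 0) (nat_lit
  62877) (nat_lit 10) nil nil)))) (node (nat_lit 4) (nat_lit 60727) (nat_lit 9) (node (nat_lit 6)
  (nat_lit 60065) (nat_lit 10) (node (nat_lit 4) (nat_lit 60697) (nat_lit 11) nil (node (nat_lit
  7) (nat_lit 57863) (nat_lit 11) nil nil)) nil) (node (nat_lit 7) (nat_lit 61086) (nat_lit 9)
  (node (nat_lit 4) (nat_lit 61467) (nat_lit 10) nil (node (nat_lit 6) (nat_lit 59493) (nat_lit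
  10) (node (nat_lit 4) (nat_lit 57296) (nat_lit 11) nil nil) nil)) (node (nat_lit 0) (nat_lit
  60580) (nat_lit 9) nil nil)))) (node (nat_lit 6) (nat_lit 58574) (nat_lit 8) (node (nat_lit 7)
  (nat_lit 59966) (nat_lit 9) nil nil) (node (nat_lit 0) (nat_lit 59487) (nat_lit 8) (node
  (nat_lit 7) (nat_lit 58823) (nat_lit 9) nil (node (nat_lit 6) (nat_lit 58654) (nat_lit 9) (node
  (nat_lit 4) (nat_lit 59371) (nat_lit 10) nil nil) (node (nat_lit 4) (nat_lit 60431) (nat_lit 9)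
  nil nil))) nil)))) (node (nat_lit 5) (nat_lit 50653) (nat_lit 7) (node (nat_lit 6) (nat_lit
  28418) (nat_lit 8) (node (nat_lit 5) (nat_lit 29661) (nat_lit 9) (node (nat_lit 4) (nat_lit
  30699) (nat_lit 10) (node (nat_lit 6) (nat_lit 31302) (nat_lit 11) (node (nat_lit 4) (nat_lit
  31595) (nat_lit 12) nil nil) nil) (node (nat_lit 7) (nat_lit 30312) (nat_lit 10) (node (nat_lit
  4) (nat_lit 28028) (nat_lit 11) (node (nat_lit 5) (nat_lit 24796) (nat_lit 12) nil nil) (node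
  (nat_lit 6) (nat_lit 30995) (nat_lit 11) nil nil)) nil)) (node (nat_lit 7) (nat_lit 25866)
  (nat_lit 9) nil (node (nat_lit 4) (nat_lit 29661) (nat_lit 9) (node (nat_lit 7) (nat_lit 30425)
  (nat_lit 10) (node (nat_lit 6) (nat_lit 29582) (nat_lit 11) nil nil) (node (nat_lit 6) (nat_lit
  29751) (nat_lit 10) nil nil)) (node (nat_lit 0) (nat_lit 29351) (nat_lit 9) (node (nat_lit 6)
  (nat_lit 29454) (nat_lit 10) nil nil) nil)))) (node (nat_lit 4) (nat_lit 53472) (nat_lit 8)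
  (node (nat_lit 6) (nat_lit 51370) (nat_lit 9) (node (nat_lit 7) (nat_lit 48515) (nat_lit 10) nil
  (node (nat_lit 4) (nat_lit 52087) (nat_lit 10) nil nil)) (node (nat_lit 7) (nat_lit 54024)
  (nat_lit 9) (node (nat_lit 5) (nat_lit 52014) (nat_lit 10) nil nil) nil)) (node (nat_lit 7)
  (nat_lit 51528) (nat_lit 8) (node (nat_lit 4) (nat_lit 50708) (nat_lit 9) (node (nat_lit 5)
  (nat_lit 48869) (nat_lit 10) (node (nat_lit 6) (nat_lit 46743) (nat_lit 11) (node (nat_lit 7)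
  (nat_lit 26844) (nat_lit 12) nil nil) nil) (node (nat_lit 6) (nat_lit 49994) (nat_lit 10) nil
  (node (nat_lit 7) (nat_lit 50130) (nat_lit 10) nil nil))) (node (nat_lit 5) (nat_lit 51061)
  (nat_lit 9) nil (node (nat_lit 6) (nat_lit 48191) (nat_lit 9) nil nil))) (node (nat_lit 0)
  (nat_lit 52018) (nat_lit 8) nil nil)))) (node (nat_lit 6) (nat_lit 55554) (nat_lit 7) (node
  (nat_lit 7) (nat_lit 57883) (nat_lit 8) (node (nat_lit 4) (nat_lit 58190) (nat_lit 9) nil nil)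
  (node (nat_lit 5) (nat_lit 57374) (nat_lit 8) (node (nat_lit 6) (nat_lit 53930) (nat_lit 9)
  (node (nat_lit 7) (nat_lit 52852) (nat_lit 10) nil nil) nil) (node (nat_lit 0) (nat_lit 56918)
  (nat_lit 8) nil nil))) (node (nat_lit 0) (nat_lit 56516) (nat_lit 7) (node (nat_lit 7) (nat_lit
  58895) (nat_lit 8) nil (node (nat_lit 5) (nat_lit 58514) (nat_lit 8) nil (node (nat_lit 6)
  (nat_lit 57480) (nat_lit 8) nil (node (nat_lit 4) (nat_lit 57880) (nat_lit 8) nil (node (nat_lit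
  0) (nat_lit 57880) (nat_lit 8) nil nil))))) nil)))) (node (nat_lit 5) (nat_lit 48389) (nat_lit
  6) (node (nat_lit 7) (nat_lit 48389) (nat_lit 7) (node (nat_lit 5) (nat_lit 48405) (nat_lit 8)
  (node (nat_lit 6) (nat_lit 55838) (nat_lit 9) (node (nat_lit 7) (nat_lit 57775) (nat_lit 10)
  (node (nat_lit 5) (nat_lit 59077) (nat_lit 11) nil (node (nat_lit 6) (nat_lit 56179) (nat_lit
  11) nil (node (nat_lit 4) (nat_lit 61425) (nat_lit 11) nil nil))) (node (nat_lit 5) (nat_lit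
  59154) (nat_lit 10) (node (nat_lit 7) (nat_lit 58818) (nat_lit 11) nil nil) (node (nat_lit 4)
  (nat_lit 59051) (nat_lit 10) (node (nat_lit 5) (nat_lit 59008) (nat_lit 11) (node (nat_lit 6)
  (nat_lit 52663) (nat_lit 12) (node (nat_lit 7) (nat_lit 49055) (nat_lit 13) (node (nat_lit 6)
  (nat_lit 42080) (nat_lit 14) (node (nat_lit 5) (nat_lit 30359) (nat_lit 15) nil nil) nil) nil)
  nil) nil) (node (nat_lit 0) (nat_lit 62411) (nat_lit 10) nil nil)))) (node (nat_lit 4) (nat_lit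
  61299) (nat_lit 9) (node (nat_lit 7) (nat_lit 61404) (nat_lit 10) nil nil) (node (nat_lit 0)
  (nat_lit 60939) (nat_lit 9) nil nil))) (node (nat_lit 6) (nat_lit 48396) (nat_lit 8) (node
  (nat_lit 7) (nat_lit 55470) (nat_lit 9) (node (nat_lit 5) (nat_lit 58888) (nat_lit 10) (node
  (nat_lit 6) (nat_lit 60844) (nat_lit 11) (node (nat_lit 7) (nat_lit 61700) (nat_lit 12) (node
  (nat_lit 6) (nat_lit 60691) (nat_lit 13) (node (nat_lit 5) (nat_lit 59826) (nat_lit 14) (node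
  (nat_lit 7) (nat_lit 59463) (nat_lit 15) (node (nat_lit 5) (nat_lit 59339) (nat_lit 16) (node
  (nat_lit 6) (nat_lit 59056) (nat_lit 17) nil nil) nil) nil) nil) nil) nil) nil) nil) (node
  (nat_lit 4) (nat_lit 53362) (nat_lit 9) nil nil)) (node (nat_lit 4) (nat_lit 58258) (nat_lit 8)
  (node (nat_lit 6) (nat_lit 57784) (nat_lit 9) (node (nat_lit 4) (nat_lit 58501) (nat_lit 10) nil
  (node (nat_lit 7) (nat_lit 54929) (nat_lit 10) nil nil)) (node (nat_lit 5) (nat_lit 57093)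
  (nat_lit 9) (node (nat_lit 6) (nat_lit 47135) (nat_lit 10) (node (nat_lit 7) (nat_lit 32863)
  (nat_lit 11) nil nil) nil) (node (nat_lit 7) (nat_lit 57594) (nat_lit 9) nil nil))) (node
  (nat_lit 0) (nat_lit 59221) (nat_lit 8) (node (nat_lit 6) (nat_lit 58388) (nat_lit 9) nil nil)
  nil)))) (node (nat_lit 6) (nat_lit 48389) (nat_lit 7) (node (nat_lit 7) (nat_lit 48412) (nat_lit
  8) (node (nat_lit 5) (nat_lit 56951) (nat_lit 9) (node (nat_lit 6) (nat_lit 56762) (nat_lit 10)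
  (node (nat_lit 5) (nat_lit 56226) (nat_lit 11) (node (nat_lit 7) (nat_lit 55687) (nat_lit 12)
  (node (nat_lit 6) (nat_lit 55105) (nat_lit 13) nil nil) nil) nil) (node (nat_lit 7) (nat_lit
  58139) (nat_lit 10) (node (nat_lit 6) (nat_lit 57121) (nat_lit 11) (node (nat_lit 5) (nat_lit
  55908) (nat_lit 12) nil nil) nil) (node (nat_lit 4) (nat_lit 59038) (nat_lit 10) nil nil)))
  (node (nat_lit 4) (nat_lit 56733) (nat_lit 9) (node (nat_lit 5) (nat_lit 54659) (nat_lit 10)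
  (node (nat_lit 6) (nat_lit 48804) (nat_lit 11) (node (nat_lit 7) (nat_lit 45721) (nat_lit 12)
  (node (nat_lit 6) (nat_lit 29060) (nat_lit 13) nil nil) nil) nil) nil) (node (nat_lit 0)
  (nat_lit 58538) (nat_lit 9) nil nil))) (node (nat_lit 4) (nat_lit 58231) (nat_lit 8) (node
  (nat_lit 5) (nat_lit 54932) (nat_lit 9) (node (nat_lit 6) (nat_lit 52567) (nat_lit 10) (node
  (nat_lit 7) (nat_lit 41458) (nat_lit 11) nil nil) nil) (node (nat_lit 7) (nat_lit 58115)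
  (nat_lit 9) (node (nat_lit 5) (nat_lit 56106) (nat_lit 10) (node (nat_lit 6) (nat_lit 55088)
  (nat_lit 11) (node (nat_lit 7) (nat_lit 54550) (nat_lit 12) nil nil) nil) nil) (node (nat_lit 6)
  (nat_lit 57397) (nat_lit 9) nil nil))) (node (nat_lit 0) (nat_lit 57298) (nat_lit 8) (node
  (nat_lit 7) (nat_lit 56634) (nat_lit 9) nil nil) nil))) (node (nat_lit 4) (nat_lit 58851)
  (nat_lit 7) (node (nat_lit 6) (nat_lit 58996) (nat_lit 8) (node (nat_lit 4) (nat_lit 59940)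
  (nat_lit 9) nil (node (nat_lit 7) (nat_lit 55295) (nat_lit 9) nil nil)) (node (nat_lit 7)
  (nat_lit 61000) (nat_lit 8) nil (node (nat_lit 5) (nat_lit 57939) (nat_lit 8) nil nil))) (node
  (nat_lit 0) (nat_lit 58839) (nat_lit 7) (node (nat_lit 7) (nat_lit 60794) (nat_lit 8) nil (node
  (nat_lit 4) (nat_lit 60203) (nat_lit 8) nil (node (nat_lit 6) (nat_lit 59788) (nat_lit 8) (node
  (nat_lit 7) (nat_lit 56087) (nat_lit 9) nil nil) (node (nat_lit 5) (nat_lit 58864) (nat_lit 8)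
  nil nil)))) nil)))) (node (nat_lit 0) (nat_lit 54722) (nat_lit 6) (node (nat_lit 7) (nat_lit
  59086) (nat_lit 7) (node (nat_lit 6) (nat_lit 61262) (nat_lit 8) (node (nat_lit 7) (nat_lit
  59168) (nat_lit 9) nil nil) nil) (node (nat_lit 5) (nat_lit 59234) (nat_lit 7) (node (nat_lit 6)
  (nat_lit 54243) (nat_lit 8) nil nil) (node (nat_lit 6) (nat_lit 59040) (nat_lit 7) (node
  (nat_lit 7) (nat_lit 58936) (nat_lit 8) nil (node (nat_lit 4) (nat_lit 60404) (nat_lit 8) nil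
  nil)) (node (nat_lit 4) (nat_lit 59234) (nat_lit 7) nil (node (nat_lit 0) (nat_lit 58874)
  (nat_lit 7) nil nil))))) nil))) (node (nat_lit 0) (nat_lit 51527) (nat_lit 5) (node (nat_lit 6)
  (nat_lit 57803) (nat_lit 6) (node (nat_lit 5) (nat_lit 57819) (nat_lit 7) (node (nat_lit 7)
  (nat_lit 54596) (nat_lit 8) nil nil) (node (nat_lit 8) (nat_lit 60730) (nat_lit 7) nil (node
  (nat_lit 7) (nat_lit 60419) (nat_lit 7) (node (nat_lit 6) (nat_lit 57902) (nat_lit 8) nil nil)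
  (node (nat_lit 4) (nat_lit 58251) (nat_lit 7) (node (nat_lit 5) (nat_lit 57339) (nat_lit 8) nil
  nil) (node (nat_lit 0) (nat_lit 59876) (nat_lit 7) nil nil))))) (node (nat_lit 7) (nat_lit
  57896) (nat_lit 6) (node (nat_lit 5) (nat_lit 60612) (nat_lit 7) (node (nat_lit 4) (nat_lit
  61874) (nat_lit 8) nil nil) (node (nat_lit 6) (nat_lit 59487) (nat_lit 7) (node (nat_lit 7)
  (nat_lit 61442) (nat_lit 8) nil nil) (node (nat_lit 4) (nat_lit 59398) (nat_lit 7) (node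
  (nat_lit 5) (nat_lit 60762) (nat_lit 8) (node (nat_lit 6) (nat_lit 59929) (nat_lit 9) nil nil)
  nil) nil))) (node (nat_lit 5) (nat_lit 57795) (nat_lit 6) (node (nat_lit 7) (nat_lit 59789)
  (nat_lit 7) (node (nat_lit 6) (nat_lit 58056) (nat_lit 8) (node (nat_lit 7) (nat_lit 56589)
  (nat_lit 9) nil nil) nil) (node (nat_lit 6) (nat_lit 56306) (nat_lit 7) (node (nat_lit 7)
  (nat_lit 51532) (nat_lit 8) nil nil) (node (nat_lit 8) (nat_lit 59868) (nat_lit 7) nil (node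
  (nat_lit 4) (nat_lit 58007) (nat_lit 7) nil nil)))) (node (nat_lit 4) (nat_lit 58177) (nat_lit
  6) (node (nat_lit 5) (nat_lit 60379) (nat_lit 7) nil (node (nat_lit 6) (nat_lit 58397) (nat_lit
  7) nil (node (nat_lit 7) (nat_lit 59544) (nat_lit 7) nil (node (nat_lit 8) (nat_lit 60250)
  (nat_lit 7) (node (nat_lit 7) (nat_lit 59554) (nat_lit 8) nil nil) nil)))) (node (nat_lit 0)
  (nat_lit 57795) (nat_lit 6) (node (nat_lit 7) (nat_lit 61576) (nat_lit 7) nil (node (nat_lit 4)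
  (nat_lit 59868) (nat_lit 7) nil (node (nat_lit 6) (nat_lit 56831) (nat_lit 7) nil (node (nat_lit
  8) (nat_lit 59868) (nat_lit 7) nil (node (nat_lit 5) (nat_lit 57559) (nat_lit 7) nil nil)))))
  nil))))) nil)))

noncomputable def t37 : Tr :=
  (node (nat_lit 3) (nat_lit 0) (nat_lit 4) (node (nat_lit 4) (nat_lit 38007) (nat_lit 5) (node
  (nat_lit 5) (nat_lit 29437) (nat_lit 6) (node (nat_lit 4) (nat_lit 31025) (nat_lit 7) (node
  (nat_lit 6) (nat_lit 31975) (nat_lit 8) (node (nat_lit 5) (nat_lit 32652) (nat_lit 9) (node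
  (nat_lit 7) (nat_lit 33193) (nat_lit 10) (node (nat_lit 4) (nat_lit 33500) (nat_lit 11) (node
  (nat_lit 5) (nat_lit 33779) (nat_lit 12) (node (nat_lit 6) (nat_lit 34005) (nat_lit 13) nil nil)
  nil) nil) nil) (node (nat_lit 7) (nat_lit 32652) (nat_lit 9) (node (nat_lit 4) (nat_lit 33251)
  (nat_lit 10) nil nil) (node (nat_lit 4) (nat_lit 32434) (nat_lit 9) (node (nat_lit 5) (nat_lit
  32782) (nat_lit 10) (node (nat_lit 6) (nat_lit 33089) (nat_lit 11) nil nil) (node (nat_lit 7)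
  (nat_lit 31486) (nat_lit 10) nil nil)) nil))) (node (nat_lit 7) (nat_lit 31975) (nat_lit 8)
  (node (nat_lit 5) (nat_lit 32652) (nat_lit 9) (node (nat_lit 7) (nat_lit 33193) (nat_lit 10)
  (node (nat_lit 4) (nat_lit 33500) (nat_lit 11) (node (nat_lit 5) (nat_lit 33779) (nat_lit 12)
  nil nil) nil) nil) (node (nat_lit 4) (nat_lit 32652) (nat_lit 9) (node (nat_lit 5) (nat_lit
  33000) (nat_lit 10) nil (node (nat_lit 6) (nat_lit 33000) (nat_lit 10) nil nil)) (node (nat_lit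
  6) (nat_lit 32652) (nat_lit 9) (node (nat_lit 4) (nat_lit 28921) (nat_lit 10) nil nil) nil)))
  nil)) (node (nat_lit 7) (nat_lit 30860) (nat_lit 7) (node (nat_lit 6) (nat_lit 31810) (nat_lit
  8) (node (nat_lit 7) (nat_lit 32487) (nat_lit 9) (node (nat_lit 4) (nat_lit 33231) (nat_lit 10)
  (node (nat_lit 6) (nat_lit 33539) (nat_lit 11) nil nil) nil) (node (nat_lit 4) (nat_lit 32487)
  (nat_lit 9) (node (nat_lit 5) (nat_lit 25862) (nat_lit 10) (node (nat_lit 6) (nat_lit 14142)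
  (nat_lit 11) nil nil) (node (nat_lit 7) (nat_lit 32835) (nat_lit 10) nil nil)) nil)) (node
  (nat_lit 5) (nat_lit 31810) (nat_lit 8) (node (nat_lit 4) (nat_lit 32487) (nat_lit 9) nil nil)
  (node (nat_lit 4) (nat_lit 31962) (nat_lit 8) (node (nat_lit 7) (nat_lit 32639) (nat_lit 9)
  (node (nat_lit 6) (nat_lit 30710) (nat_lit 10) nil nil) (node (nat_lit 6) (nat_lit 32639)
  (nat_lit 9) nil nil)) nil))) (node (nat_lit 6) (nat_lit 30445) (nat_lit 7) nil (node (nat_lit 0)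
  (nat_lit 31025) (nat_lit 7) (node (nat_lit 4) (nat_lit 31688) (nat_lit 8) (node (nat_lit 7)
  (nat_lit 30539) (nat_lit 9) nil nil) (node (nat_lit 5) (nat_lit 29628) (nat_lit 8) nil (node
  (nat_lit 7) (nat_lit 31975) (nat_lit 8) nil (node (nat_lit 6) (nat_lit 31688) (nat_lit 8) nil
  nil)))) nil)))) (node (nat_lit 6) (nat_lit 42569) (nat_lit 6) (node (nat_lit 4) (nat_lit 45818)
  (nat_lit 7) (node (nat_lit 7) (nat_lit 47893) (nat_lit 8) (node (nat_lit 6) (nat_lit 48978)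
  (nat_lit 9) (node (nat_lit 4) (nat_lit 47091) (nat_lit 10) (node (nat_lit 5) (nat_lit 40896)
  (nat_lit 11) (node (nat_lit 6) (nat_lit 38312) (nat_lit 12) (node (nat_lit 7) (nat_lit 33968)
  (nat_lit 13) (node (nat_lit 4) (nat_lit 26657) (nat_lit 14) (node (nat_lit 6) (nat_lit 20170)
  (nat_lit 15) nil nil) nil) nil) nil) nil) (node (nat_lit 7) (nat_lit 49226) (nat_lit 10) (node
  (nat_lit 4) (nat_lit 49131) (nat_lit 11) nil nil) nil)) (node (nat_lit 4) (nat_lit 49273)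
  (nat_lit 9) (node (nat_lit 5) (nat_lit 49990) (nat_lit 10) (node (nat_lit 6) (nat_lit 49454)
  (nat_lit 11) (node (nat_lit 7) (nat_lit 48915) (nat_lit 12) (node (nat_lit 4) (nat_lit 49035)
  (nat_lit 13) nil nil) nil) nil) nil) (node (nat_lit 5) (nat_lit 49011) (nat_lit 9) (node
  (nat_lit 6) (nat_lit 46020) (nat_lit 10) (node (nat_lit 7) (nat_lit 45249) (nat_lit 11) (node
  (nat_lit 4) (nat_lit 45322) (nat_lit 12) nil nil) nil) nil) nil))) (node (nat_lit 5) (nat_lit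
  47893) (nat_lit 8) (node (nat_lit 6) (nat_lit 47059) (nat_lit 9) (node (nat_lit 7) (nat_lit
  45981) (nat_lit 10) nil nil) nil) (node (nat_lit 0) (nat_lit 47182) (nat_lit 8) nil nil))) (node
  (nat_lit 7) (nat_lit 45747) (nat_lit 7) (node (nat_lit 6) (nat_lit 47823) (nat_lit 8) (node
  (nat_lit 4) (nat_lit 49323) (nat_lit 9) (node (nat_lit 6) (nat_lit 48608) (nat_lit 10) (node
  (nat_lit 7) (nat_lit 47838) (nat_lit 11) (node (nat_lit 4) (nat_lit 47910) (nat_lit 12) nil nil)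
  nil) (node (nat_lit 7) (nat_lit 49872) (nat_lit 10) (node (nat_lit 4) (nat_lit 50504) (nat_lit
  11) (node (nat_lit 6) (nat_lit 50139) (nat_lit 12) (node (nat_lit 7) (nat_lit 49715) (nat_lit
  13) (node (nat_lit 4) (nat_lit 49814) (nat_lit 14) (node (nat_lit 5) (nat_lit 49586) (nat_lit
  15) nil nil) nil) nil) nil) nil) (node (nat_lit 5) (nat_lit 48801) (nat_lit 10) (node (nat_lit
  6) (nat_lit 46794) (nat_lit 11) (node (nat_lit 7) (nat_lit 30371) (nat_lit 12) nil nil) nil)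
  nil))) (node (nat_lit 5) (nat_lit 49202) (nat_lit 9) nil (node (nat_lit 0) (nat_lit 48766)
  (nat_lit 9) nil nil))) (node (nat_lit 5) (nat_lit 47823) (nat_lit 8) (node (nat_lit 4) (nat_lit
  49323) (nat_lit 9) (node (nat_lit 6) (nat_lit 48608) (nat_lit 10) nil nil) (node (nat_lit 6)
  (nat_lit 43953) (nat_lit 9) nil nil)) (node (nat_lit 0) (nat_lit 47686) (nat_lit 8) nil nil)))
  (node (nat_lit 5) (nat_lit 45652) (nat_lit 7) (node (nat_lit 4) (nat_lit 47728) (nat_lit 8)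
  (node (nat_lit 6) (nat_lit 46895) (nat_lit 9) (node (nat_lit 7) (nat_lit 45816) (nat_lit 10)
  (node (nat_lit 4) (nat_lit 45689) (nat_lit 11) nil nil) nil) (node (nat_lit 7) (nat_lit 47064)
  (nat_lit 9) nil nil)) (node (nat_lit 6) (nat_lit 47728) (nat_lit 8) (node (nat_lit 4) (nat_lit
  48889) (nat_lit 9) (node (nat_lit 5) (nat_lit 46658) (nat_lit 10) (node (nat_lit 6) (nat_lit
  41022) (nat_lit 11) (node (nat_lit 7) (nat_lit 22954) (nat_lit 12) nil nil) nil) nil) (node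
  (nat_lit 7) (nat_lit 49355) (nat_lit 9) (node (nat_lit 6) (nat_lit 50234) (nat_lit 10) (node
  (nat_lit 4) (nat_lit 47829) (nat_lit 11) nil nil) (node (nat_lit 5) (nat_lit 50566) (nat_lit 10)
  nil nil)) nil)) (node (nat_lit 7) (nat_lit 47728) (nat_lit 8) (node (nat_lit 6) (nat_lit 49107)
  (nat_lit 9) (node (nat_lit 7) (nat_lit 49355) (nat_lit 10) (node (nat_lit 4) (nat_lit 46950)
  (nat_lit 11) nil nil) nil) (node (nat_lit 5) (nat_lit 48889) (nat_lit 9) (node (nat_lit 4)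
  (nat_lit 49606) (nat_lit 10) nil nil) (node (nat_lit 4) (nat_lit 48889) (nat_lit 9) (node
  (nat_lit 5) (nat_lit 44426) (nat_lit 10) (node (nat_lit 6) (nat_lit 37160) (nat_lit 11) (node
  (nat_lit 7) (nat_lit 32356) (nat_lit 12) nil nil) nil) nil) nil))) nil))) (node (nat_lit 0)
  (nat_lit 45860) (nat_lit 7) (node (nat_lit 6) (nat_lit 47427) (nat_lit 8) (node (nat_lit 4)
  (nat_lit 48371) (nat_lit 9) nil nil) (node (nat_lit 4) (nat_lit 47224) (nat_lit 8) nil (node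
  (nat_lit 5) (nat_lit 42887) (nat_lit 8) nil (node (nat_lit 7) (nat_lit 46505) (nat_lit 8) nil
  nil)))) nil)))) (node (nat_lit 7) (nat_lit 42673) (nat_lit 6) (node (nat_lit 6) (nat_lit 45756)
  (nat_lit 7) (node (nat_lit 4) (nat_lit 46977) (nat_lit 8) (node (nat_lit 6) (nat_lit 48708)
  (nat_lit 9) (node (nat_lit 7) (nat_lit 49460) (nat_lit 10) (node (nat_lit 4) (nat_lit 50268)
  (nat_lit 11) (node (nat_lit 5) (nat_lit 50981) (nat_lit 12) (node (nat_lit 6) (nat_lit 45560)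
  (nat_lit 13) nil nil) nil) (node (nat_lit 5) (nat_lit 47867) (nat_lit 11) nil nil)) (node
  (nat_lit 5) (nat_lit 49282) (nat_lit 10) nil nil)) (node (nat_lit 5) (nat_lit 43917) (nat_lit 9)
  (node (nat_lit 6) (nat_lit 41263) (nat_lit 10) (node (nat_lit 7) (nat_lit 24214) (nat_lit 11)
  nil nil) (node (nat_lit 7) (nat_lit 41653) (nat_lit 10) nil nil)) (node (nat_lit 7) (nat_lit
  47897) (nat_lit 9) (node (nat_lit 4) (nat_lit 49203) (nat_lit 10) (node (nat_lit 6) (nat_lit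
  50367) (nat_lit 11) (node (nat_lit 7) (nat_lit 50548) (nat_lit 12) (node (nat_lit 4) (nat_lit
  51123) (nat_lit 13) (node (nat_lit 7) (nat_lit 50981) (nat_lit 14) nil nil) nil) nil) nil) nil)
  (node (nat_lit 0) (nat_lit 47921) (nat_lit 9) nil nil)))) (node (nat_lit 7) (nat_lit 47831)
  (nat_lit 8) (node (nat_lit 4) (nat_lit 49211) (nat_lit 9) (node (nat_lit 6) (nat_lit 49928)
  (nat_lit 10) (node (nat_lit 4) (nat_lit 50560) (nat_lit 11) nil nil) (node (nat_lit 5) (nat_lit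
  47391) (nat_lit 10) (node (nat_lit 6) (nat_lit 42934) (nat_lit 11) (node (nat_lit 7) (nat_lit
  32573) (nat_lit 12) (node (nat_lit 4) (nat_lit 32799) (nat_lit 13) nil nil) nil) nil) nil))
  (node (nat_lit 5) (nat_lit 49331) (nat_lit 9) (node (nat_lit 6) (nat_lit 49787) (nat_lit 10) nil
  nil) (node (nat_lit 0) (nat_lit 48775) (nat_lit 9) nil nil))) (node (nat_lit 5) (nat_lit 47831)
  (nat_lit 8) (node (nat_lit 4) (nat_lit 48400) (nat_lit 9) nil (node (nat_lit 7) (nat_lit 48325)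
  (nat_lit 9) nil nil)) (node (nat_lit 0) (nat_lit 47695) (nat_lit 8) (node (nat_lit 7) (nat_lit
  47031) (nat_lit 9) nil (node (nat_lit 6) (nat_lit 46861) (nat_lit 9) nil nil)) nil)))) (node
  (nat_lit 5) (nat_lit 45756) (nat_lit 7) (node (nat_lit 4) (nat_lit 47983) (nat_lit 8) (node
  (nat_lit 5) (nat_lit 49482) (nat_lit 9) (node (nat_lit 7) (nat_lit 50032) (nat_lit 10) (node
  (nat_lit 5) (nat_lit 50689) (nat_lit 11) (node (nat_lit 4) (nat_lit 51261) (nat_lit 12) (node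
  (nat_lit 7) (nat_lit 51068) (nat_lit 13) nil nil) nil) (node (nat_lit 4) (nat_lit 50927)
  (nat_lit 11) (node (nat_lit 5) (nat_lit 48243) (nat_lit 12) nil nil) nil)) nil) (node (nat_lit
  6) (nat_lit 49482) (nat_lit 9) (node (nat_lit 7) (nat_lit 50693) (nat_lit 10) (node (nat_lit 4)
  (nat_lit 51764) (nat_lit 11) (node (nat_lit 5) (nat_lit 52478) (nat_lit 12) nil (node (nat_lit
  6) (nat_lit 52336) (nat_lit 12) nil nil)) (node (nat_lit 6) (nat_lit 51500) (nat_lit 11) (node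
  (nat_lit 4) (nat_lit 52214) (nat_lit 12) nil nil) nil)) (node (nat_lit 4) (nat_lit 50199)
  (nat_lit 10) (node (nat_lit 5) (nat_lit 49663) (nat_lit 11) nil nil) (node (nat_lit 5) (nat_lit
  50584) (nat_lit 10) (node (nat_lit 7) (nat_lit 48382) (nat_lit 11) nil nil) nil))) (node
  (nat_lit 0) (nat_lit 49362) (nat_lit 9) nil (node (nat_lit 7) (nat_lit 49144) (nat_lit 9) (node
  (nat_lit 4) (nat_lit 49861) (nat_lit 10) nil nil) nil)))) (node (nat_lit 6) (nat_lit 47831)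
  (nat_lit 8) (node (nat_lit 7) (nat_lit 49368) (nat_lit 9) (node (nat_lit 6) (nat_lit 50579)
  (nat_lit 10) (node (nat_lit 4) (nat_lit 51030) (nat_lit 11) (node (nat_lit 5) (nat_lit 46863)
  (nat_lit 12) nil (node (nat_lit 7) (nat_lit 51602) (nat_lit 12) nil nil)) (node (nat_lit 5)
  (nat_lit 51649) (nat_lit 11) (node (nat_lit 7) (nat_lit 52092) (nat_lit 12) nil nil) nil)) (node
  (nat_lit 5) (nat_lit 50579) (nat_lit 10) (node (nat_lit 4) (nat_lit 51211) (nat_lit 11) nil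
  (node (nat_lit 7) (nat_lit 50135) (nat_lit 11) nil nil)) (node (nat_lit 0) (nat_lit 50085)
  (nat_lit 10) (node (nat_lit 7) (nat_lit 49660) (nat_lit 11) nil nil) nil))) (node (nat_lit 4)
  (nat_lit 46957) (nat_lit 9) (node (nat_lit 5) (nat_lit 42573) (nat_lit 10) (node (nat_lit 6)
  (nat_lit 38491) (nat_lit 11) (node (nat_lit 7) (nat_lit 34084) (nat_lit 12) nil nil) nil) nil)
  (node (nat_lit 5) (nat_lit 49211) (nat_lit 9) (node (nat_lit 7) (nat_lit 46356) (nat_lit 10) nil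
  (node (nat_lit 4) (nat_lit 49928) (nat_lit 10) nil nil)) nil))) (node (nat_lit 7) (nat_lit
  47831) (nat_lit 8) (node (nat_lit 6) (nat_lit 49211) (nat_lit 9) nil (node (nat_lit 4) (nat_lit
  48014) (nat_lit 9) (node (nat_lit 5) (nat_lit 46998) (nat_lit 10) nil nil) nil)) (node (nat_lit
  0) (nat_lit 47831) (nat_lit 8) (node (nat_lit 6) (nat_lit 49211) (nat_lit 9) nil (node (nat_lit
  4) (nat_lit 48400) (nat_lit 9) nil (node (nat_lit 7) (nat_lit 48182) (nat_lit 9) nil nil)))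
  nil)))) (node (nat_lit 0) (nat_lit 45868) (nat_lit 7) (node (nat_lit 4) (nat_lit 47944) (nat_lit
  8) (node (nat_lit 7) (nat_lit 48295) (nat_lit 9) nil nil) (node (nat_lit 5) (nat_lit 47808)
  (nat_lit 8) nil (node (nat_lit 6) (nat_lit 47808) (nat_lit 8) nil (node (nat_lit 7) (nat_lit
  47944) (nat_lit 8) (node (nat_lit 4) (nat_lit 48888) (nat_lit 9) nil nil) (node (nat_lit 0)
  (nat_lit 47233) (nat_lit 8) nil nil))))) nil))) (node (nat_lit 0) (nat_lit 42800) (nat_lit 6)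
  (node (nat_lit 4) (nat_lit 45883) (nat_lit 7) (node (nat_lit 5) (nat_lit 44971) (nat_lit 8) nil
  (node (nat_lit 6) (nat_lit 47822) (nat_lit 8) nil (node (nat_lit 7) (nat_lit 45808) (nat_lit 8)
  (node (nat_lit 4) (nat_lit 46752) (nat_lit 9) nil nil) nil))) (node (nat_lit 5) (nat_lit 45883)
  (nat_lit 7) (node (nat_lit 4) (nat_lit 47247) (nat_lit 8) nil (node (nat_lit 6) (nat_lit 45679)
  (nat_lit 8) nil (node (nat_lit 7) (nat_lit 45896) (nat_lit 8) nil nil))) (node (nat_lit 7)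
  (nat_lit 45883) (nat_lit 7) (node (nat_lit 4) (nat_lit 47535) (nat_lit 8) (node (nat_lit 5)
  (nat_lit 48478) (nat_lit 9) nil nil) (node (nat_lit 5) (nat_lit 44200) (nat_lit 8) nil (node
  (nat_lit 6) (nat_lit 47822) (nat_lit 8) nil (node (nat_lit 9) (nat_lit 47247) (nat_lit 8) nil
  nil)))) (node (nat_lit 6) (nat_lit 45883) (nat_lit 7) (node (nat_lit 4) (nat_lit 47535) (nat_lit
  8) (node (nat_lit 7) (nat_lit 46870) (nat_lit 9) nil nil) (node (nat_lit 5) (nat_lit 42911)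
  (nat_lit 8) nil (node (nat_lit 7) (nat_lit 41108) (nat_lit 8) nil nil))) (node (nat_lit 0)
  (nat_lit 45883) (nat_lit 7) (node (nat_lit 4) (nat_lit 47247) (nat_lit 8) nil (node (nat_lit 6)
  (nat_lit 44971) (nat_lit 8) nil nil)) nil))))) nil)))) t36) (node (nat_lit 0) (nat_lit 0)
  (nat_lit 4) (node (nat_lit 5) (nat_lit 60868) (nat_lit 5) (node (nat_lit 7) (nat_lit 67122)
  (nat_lit 6) (node (nat_lit 6) (nat_lit 66158) (nat_lit 7) nil (node (nat_lit 4) (nat_lit 69195)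
  (nat_lit 7) nil nil)) (node (nat_lit 6) (nat_lit 66927) (nat_lit 6) (node (nat_lit 5) (nat_lit
  66818) (nat_lit 7) nil (node (nat_lit 4) (nat_lit 67180) (nat_lit 7) (node (nat_lit 5) (nat_lit
  60261) (nat_lit 8) (node (nat_lit 6) (nat_lit 35554) (nat_lit 9) (node (nat_lit 7) (nat_lit
  31553) (nat_lit 10) nil nil) nil) nil) nil)) (node (nat_lit 4) (nat_lit 65243) (nat_lit 6) (node
  (nat_lit 6) (nat_lit 66148) (nat_lit 7) nil (node (nat_lit 7) (nat_lit 67316) (nat_lit 7) nil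
  (node (nat_lit 3) (nat_lit 64569) (nat_lit 7) nil nil))) (node (nat_lit 3) (nat_lit 61943)
  (nat_lit 6) (node (nat_lit 6) (nat_lit 55220) (nat_lit 7) nil nil) (node (nat_lit 0) (nat_lit
  65206) (nat_lit 6) nil nil))))) (node (nat_lit 6) (nat_lit 60862) (nat_lit 5) (node (nat_lit 5)
  (nat_lit 65821) (nat_lit 6) (node (nat_lit 7) (nat_lit 67894) (nat_lit 7) nil (node (nat_lit 6)
  (nat_lit 66230) (nat_lit 7) (node (nat_lit 7) (nat_lit 67595) (nat_lit 8) nil nil) nil)) (node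
  (nat_lit 4) (nat_lit 67401) (nat_lit 6) (node (nat_lit 5) (nat_lit 66438) (nat_lit 7) (node
  (nat_lit 6) (nat_lit 65525) (nat_lit 8) (node (nat_lit 7) (nat_lit 30331) (nat_lit 9) nil nil)
  nil) (node (nat_lit 7) (nat_lit 69474) (nat_lit 7) nil (node (nat_lit 3) (nat_lit 66388)
  (nat_lit 7) (node (nat_lit 5) (nat_lit 63415) (nat_lit 8) (node (nat_lit 6) (nat_lit 61605)
  (nat_lit 9) nil nil) nil) nil))) (node (nat_lit 3) (nat_lit 65639) (nat_lit 6) (node (nat_lit 4)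
  (nat_lit 63953) (nat_lit 7) (node (nat_lit 5) (nat_lit 59187) (nat_lit 8) (node (nat_lit 6)
  (nat_lit 40385) (nat_lit 9) nil nil) nil) (node (nat_lit 6) (nat_lit 62454) (nat_lit 7) nil
  (node (nat_lit 5) (nat_lit 62429) (nat_lit 7) (node (nat_lit 6) (nat_lit 60185) (nat_lit 8) nil
  nil) nil))) (node (nat_lit 0) (nat_lit 63902) (nat_lit 6) (node (nat_lit 6) (nat_lit 62938)
  (nat_lit 7) nil nil) nil)))) (node (nat_lit 4) (nat_lit 61316) (nat_lit 5) (node (nat_lit 6)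
  (nat_lit 66994) (nat_lit 6) (node (nat_lit 4) (nat_lit 69067) (nat_lit 7) (node (nat_lit 5)
  (nat_lit 68155) (nat_lit 8) (node (nat_lit 6) (nat_lit 67321) (nat_lit 9) (node (nat_lit 7)
  (nat_lit 68038) (nat_lit 10) nil nil) nil) nil) (node (nat_lit 5) (nat_lit 67217) (nat_lit 7)
  (node (nat_lit 6) (nat_lit 64973) (nat_lit 8) (node (nat_lit 7) (nat_lit 65917) (nat_lit 9) nil
  nil) nil) nil)) (node (nat_lit 7) (nat_lit 67249) (nat_lit 6) (node (nat_lit 6) (nat_lit 66286)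
  (nat_lit 7) (node (nat_lit 4) (nat_lit 67650) (nat_lit 8) (node (nat_lit 5) (nat_lit 66817)
  (nat_lit 9) (node (nat_lit 6) (nat_lit 66102) (nat_lit 10) (node (nat_lit 7) (nat_lit 66735)
  (nat_lit 11) (node (nat_lit 4) (nat_lit 67307) (nat_lit 12) nil nil) nil) nil) nil) nil) (node
  (nat_lit 5) (nat_lit 63538) (nat_lit 7) (node (nat_lit 6) (nat_lit 61294) (nat_lit 8) nil nil)
  nil)) (node (nat_lit 3) (nat_lit 59885) (nat_lit 6) (node (nat_lit 4) (nat_lit 61958) (nat_lit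
  7) (node (nat_lit 5) (nat_lit 63323) (nat_lit 8) nil nil) (node (nat_lit 6) (nat_lit 55520)
  (nat_lit 7) nil nil)) (node (nat_lit 5) (nat_lit 64812) (nat_lit 6) (node (nat_lit 7) (nat_lit
  66885) (nat_lit 7) nil nil) (node (nat_lit 0) (nat_lit 64356) (nat_lit 6) nil nil))))) (node
  (nat_lit 3) (nat_lit 61108) (nat_lit 5) (node (nat_lit 6) (nat_lit 65231) (nat_lit 6) (node
  (nat_lit 5) (nat_lit 61520) (nat_lit 7) (node (nat_lit 6) (nat_lit 59276) (nat_lit 8) nil nil)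
  (node (nat_lit 8) (nat_lit 61544) (nat_lit 7) nil (node (nat_lit 4) (nat_lit 58022) (nat_lit 7)
  (node (nat_lit 5) (nat_lit 51128) (nat_lit 8) (node (nat_lit 6) (nat_lit 37199) (nat_lit 9) nil
  nil) nil) nil))) (node (nat_lit 7) (nat_lit 66743) (nat_lit 6) (node (nat_lit 6) (nat_lit 66012)
  (nat_lit 7) (node (nat_lit 8) (nat_lit 63606) (nat_lit 8) nil nil) (node (nat_lit 5) (nat_lit
  63032) (nat_lit 7) nil nil)) (node (nat_lit 4) (nat_lit 62656) (nat_lit 6) (node (nat_lit 5)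
  (nat_lit 64729) (nat_lit 7) nil (node (nat_lit 8) (nat_lit 61982) (nat_lit 7) nil nil)) (node
  (nat_lit 5) (nat_lit 63933) (nat_lit 6) (node (nat_lit 6) (nat_lit 57210) (nat_lit 7) nil nil)
  (node (nat_lit 0) (nat_lit 64147) (nat_lit 6) nil nil))))) (node (nat_lit 0) (nat_lit 61262)
  (nat_lit 5) (node (nat_lit 6) (nat_lit 65900) (nat_lit 6) (node (nat_lit 5) (nat_lit 62189)
  (nat_lit 7) nil nil) (node (nat_lit 5) (nat_lit 63094) (nat_lit 6) nil (node (nat_lit 7)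
  (nat_lit 66679) (nat_lit 6) (node (nat_lit 6) (nat_lit 65716) (nat_lit 7) nil nil) (node
  (nat_lit 4) (nat_lit 64255) (nat_lit 6) nil (node (nat_lit 3) (nat_lit 64616) (nat_lit 6) (node
  (nat_lit 4) (nat_lit 66689) (nat_lit 7) nil nil) nil))))) nil))))) nil))

noncomputable def t38 : Tr :=
  (node (nat_lit 4) (nat_lit 0) (nat_lit 4) (node (nat_lit 6) (nat_lit 38007) (nat_lit 5) (node
  (nat_lit 5) (nat_lit 44375) (nat_lit 6) (node (nat_lit 6) (nat_lit 47854) (nat_lit 7) t33 (node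
  (nat_lit 4) (nat_lit 47921) (nat_lit 7) (node (nat_lit 6) (nat_lit 51752) (nat_lit 8) (node
  (nat_lit 4) (nat_lit 52819) (nat_lit 9) (node (nat_lit 5) (nat_lit 53836) (nat_lit 10) (node
  (nat_lit 6) (nat_lit 54486) (nat_lit 11) (node (nat_lit 4) (nat_lit 54994) (nat_lit 12) (node
  (nat_lit 6) (nat_lit 55390) (nat_lit 13) (node (nat_lit 5) (nat_lit 55699) (nat_lit 14) (node
  (nat_lit 4) (nat_lit 31546) (nat_lit 15) nil nil) nil) nil) (node (nat_lit 5) (nat_lit 54994)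
  (nat_lit 12) nil (node (nat_lit 3) (nat_lit 54016) (nat_lit 12) nil nil))) (node (nat_lit 4)
  (nat_lit 54486) (nat_lit 11) (node (nat_lit 6) (nat_lit 54994) (nat_lit 12) nil nil) (node
  (nat_lit 3) (nat_lit 53226) (nat_lit 11) (node (nat_lit 4) (nat_lit 53733) (nat_lit 12) nil
  (node (nat_lit 6) (nat_lit 53421) (nat_lit 12) nil nil)) nil))) (node (nat_lit 3) (nat_lit
  53652) (nat_lit 10) (node (nat_lit 6) (nat_lit 54050) (nat_lit 11) (node (nat_lit 4) (nat_lit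
  54233) (nat_lit 12) nil nil) (node (nat_lit 4) (nat_lit 54302) (nat_lit 11) (node (nat_lit 5)
  (nat_lit 54809) (nat_lit 12) (node (nat_lit 6) (nat_lit 55206) (nat_lit 13) nil nil) (node
  (nat_lit 6) (nat_lit 54809) (nat_lit 12) nil nil)) nil)) (node (nat_lit 0) (nat_lit 53836)
  (nat_lit 10) (node (nat_lit 6) (nat_lit 54486) (nat_lit 11) nil nil) nil))) (node (nat_lit 3)
  (nat_lit 52819) (nat_lit 9) (node (nat_lit 4) (nat_lit 53525) (nat_lit 10) (node (nat_lit 5)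
  (nat_lit 53362) (nat_lit 11) (node (nat_lit 6) (nat_lit 50283) (nat_lit 12) (node (nat_lit 4)
  (nat_lit 46994) (nat_lit 13) nil nil) nil) nil) (node (nat_lit 6) (nat_lit 53652) (nat_lit 10)
  nil nil)) (node (nat_lit 0) (nat_lit 52972) (nat_lit 9) nil nil))) (node (nat_lit 5) (nat_lit
  51871) (nat_lit 8) (node (nat_lit 6) (nat_lit 52938) (nat_lit 9) (node (nat_lit 5) (nat_lit
  53836) (nat_lit 10) (node (nat_lit 4) (nat_lit 54486) (nat_lit 11) (node (nat_lit 6) (nat_lit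
  54994) (nat_lit 12) (node (nat_lit 4) (nat_lit 55390) (nat_lit 13) (node (nat_lit 5) (nat_lit
  55699) (nat_lit 14) (node (nat_lit 6) (nat_lit 55940) (nat_lit 15) (node (nat_lit 4) (nat_lit
  56128) (nat_lit 16) (node (nat_lit 6) (nat_lit 56275) (nat_lit 17) (node (nat_lit 5) (nat_lit
  56390) (nat_lit 18) (node (nat_lit 4) (nat_lit 56479) (nat_lit 19) (node (nat_lit 5) (nat_lit
  56549) (nat_lit 20) (node (nat_lit 6) (nat_lit 56603) (nat_lit 21) nil nil) nil) nil) nil) nil)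
  nil) nil) nil) (node (nat_lit 5) (nat_lit 55390) (nat_lit 13) (node (nat_lit 6) (nat_lit 55699)
  (nat_lit 14) (node (nat_lit 4) (nat_lit 55940) (nat_lit 15) nil nil) nil) nil)) nil) (node
  (nat_lit 3) (nat_lit 53226) (nat_lit 11) (node (nat_lit 6) (nat_lit 53421) (nat_lit 12) nil
  (node (nat_lit 4) (nat_lit 53733) (nat_lit 12) nil nil)) (node (nat_lit 0) (nat_lit 54486)
  (nat_lit 11) nil nil))) (node (nat_lit 4) (nat_lit 53771) (nat_lit 10) (node (nat_lit 5)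
  (nat_lit 54421) (nat_lit 11) (node (nat_lit 4) (nat_lit 54928) (nat_lit 12) (node (nat_lit 6)
  (nat_lit 55325) (nat_lit 13) nil nil) nil) nil) (node (nat_lit 3) (nat_lit 53771) (nat_lit 10)
  (node (nat_lit 6) (nat_lit 54421) (nat_lit 11) nil (node (nat_lit 4) (nat_lit 54421) (nat_lit
  11) nil nil)) (node (nat_lit 0) (nat_lit 53836) (nat_lit 10) (node (nat_lit 6) (nat_lit 54486)
  (nat_lit 11) nil nil) nil)))) (node (nat_lit 3) (nat_lit 52938) (nat_lit 9) (node (nat_lit 4)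
  (nat_lit 53580) (nat_lit 10) (node (nat_lit 5) (nat_lit 53418) (nat_lit 11) (node (nat_lit 6)
  (nat_lit 50339) (nat_lit 12) (node (nat_lit 4) (nat_lit 47798) (nat_lit 13) (node (nat_lit 6)
  (nat_lit 41501) (nat_lit 14) (node (nat_lit 5) (nat_lit 33008) (nat_lit 15) (node (nat_lit 4)
  (nat_lit 19978) (nat_lit 16) nil nil) nil) nil) nil) nil) nil) (node (nat_lit 6) (nat_lit 53771)
  (nat_lit 10) (node (nat_lit 5) (nat_lit 54421) (nat_lit 11) nil (node (nat_lit 4) (nat_lit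
  54332) (nat_lit 11) nil nil)) nil)) (node (nat_lit 0) (nat_lit 52972) (nat_lit 9) (node (nat_lit
  4) (nat_lit 53806) (nat_lit 10) nil nil) nil))) (node (nat_lit 3) (nat_lit 54154) (nat_lit 8)
  (node (nat_lit 6) (nat_lit 53695) (nat_lit 9) (node (nat_lit 4) (nat_lit 53259) (nat_lit 10) nil
  nil) (node (nat_lit 4) (nat_lit 54716) (nat_lit 9) (node (nat_lit 5) (nat_lit 55064) (nat_lit
  10) (node (nat_lit 6) (nat_lit 55371) (nat_lit 11) (node (nat_lit 4) (nat_lit 55650) (nat_lit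
  12) (node (nat_lit 6) (nat_lit 55876) (nat_lit 13) (node (nat_lit 5) (nat_lit 56052) (nat_lit
  14) nil nil) nil) nil) nil) (node (nat_lit 6) (nat_lit 55064) (nat_lit 10) nil nil)) (node
  (nat_lit 5) (nat_lit 54716) (nat_lit 9) (node (nat_lit 6) (nat_lit 55064) (nat_lit 10) nil (node
  (nat_lit 11) (nat_lit 53768) (nat_lit 10) nil nil)) nil))) (node (nat_lit 0) (nat_lit 54273)
  (nat_lit 8) (node (nat_lit 4) (nat_lit 54834) (nat_lit 9) (node (nat_lit 6) (nat_lit 55183)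
  (nat_lit 10) nil nil) (node (nat_lit 6) (nat_lit 54834) (nat_lit 9) (node (nat_lit 4) (nat_lit
  55183) (nat_lit 10) nil nil) (node (nat_lit 3) (nat_lit 53227) (nat_lit 9) (node (nat_lit 4)
  (nat_lit 53575) (nat_lit 10) (node (nat_lit 5) (nat_lit 53882) (nat_lit 11) nil nil) (node
  (nat_lit 6) (nat_lit 52932) (nat_lit 10) nil nil)) nil))) nil)))) (node (nat_lit 3) (nat_lit
  52734) (nat_lit 7) (node (nat_lit 6) (nat_lit 54154) (nat_lit 8) (node (nat_lit 4) (nat_lit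
  52766) (nat_lit 9) (node (nat_lit 5) (nat_lit 48931) (nat_lit 10) (node (nat_lit 6) (nat_lit
  44842) (nat_lit 11) (node (nat_lit 4) (nat_lit 37393) (nat_lit 12) (node (nat_lit 6) (nat_lit
  30559) (nat_lit 13) (node (nat_lit 5) (nat_lit 30188) (nat_lit 14) nil nil) nil) nil) nil) nil)
  (node (nat_lit 5) (nat_lit 54716) (nat_lit 9) nil (node (nat_lit 10) (nat_lit 54716) (nat_lit 9)
  (node (nat_lit 4) (nat_lit 55064) (nat_lit 10) nil nil) nil))) (node (nat_lit 4) (nat_lit 54154)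
  (nat_lit 8) (node (nat_lit 5) (nat_lit 50498) (nat_lit 9) (node (nat_lit 6) (nat_lit 40299)
  (nat_lit 10) (node (nat_lit 4) (nat_lit 22354) (nat_lit 11) (node (nat_lit 6) (nat_lit 13902)
  (nat_lit 12) nil nil) nil) nil) (node (nat_lit 6) (nat_lit 54716) (nat_lit 9) nil nil)) (node
  (nat_lit 0) (nat_lit 54273) (nat_lit 8) (node (nat_lit 6) (nat_lit 54834) (nat_lit 9) nil (node
  (nat_lit 10) (nat_lit 54834) (nat_lit 9) (node (nat_lit 4) (nat_lit 55183) (nat_lit 10) (node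
  (nat_lit 5) (nat_lit 55490) (nat_lit 11) nil nil) (node (nat_lit 6) (nat_lit 55183) (nat_lit 10)
  nil nil)) nil)) (node (nat_lit 5) (nat_lit 54273) (nat_lit 8) nil nil)))) (node (nat_lit 0)
  (nat_lit 52807) (nat_lit 7) (node (nat_lit 6) (nat_lit 54227) (nat_lit 8) (node (nat_lit 4)
  (nat_lit 54788) (nat_lit 9) (node (nat_lit 5) (nat_lit 54662) (nat_lit 10) (node (nat_lit 6)
  (nat_lit 54126) (nat_lit 11) (node (nat_lit 4) (nat_lit 54699) (nat_lit 12) nil nil) nil) nil)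
  nil) (node (nat_lit 4) (nat_lit 54227) (nat_lit 8) (node (nat_lit 6) (nat_lit 54788) (nat_lit 9)
  nil nil) (node (nat_lit 3) (nat_lit 54227) (nat_lit 8) (node (nat_lit 4) (nat_lit 54788)
  (nat_lit 9) nil (node (nat_lit 6) (nat_lit 54788) (nat_lit 9) nil nil)) (node (nat_lit 5)
  (nat_lit 54273) (nat_lit 8) nil (node (nat_lit 0) (nat_lit 54227) (nat_lit 8) (node (nat_lit 6)
  (nat_lit 54788) (nat_lit 9) nil nil) nil))))) nil)))) (node (nat_lit 3) (nat_lit 45563) (nat_lit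
  6) (node (nat_lit 4) (nat_lit 47879) (nat_lit 7) (node (nat_lit 9) (nat_lit 49298) (nat_lit 8)
  (node (nat_lit 6) (nat_lit 49860) (nat_lit 9) (node (nat_lit 9) (nat_lit 50839) (nat_lit 10)
  (node (nat_lit 4) (nat_lit 51102) (nat_lit 11) (node (nat_lit 6) (nat_lit 51532) (nat_lit 12)
  nil (node (nat_lit 5) (nat_lit 48149) (nat_lit 12) (node (nat_lit 6) (nat_lit 45754) (nat_lit
  13) (node (nat_lit 4) (nat_lit 43897) (nat_lit 14) (node (nat_lit 6) (nat_lit 39818) (nat_lit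
  15) (node (nat_lit 9) (nat_lit 33912) (nat_lit 16) (node (nat_lit 4) (nat_lit 23449) (nat_lit
  17) nil nil) nil) nil) nil) nil) nil)) (node (nat_lit 5) (nat_lit 50303) (nat_lit 11) nil nil))
  (node (nat_lit 4) (nat_lit 50346) (nat_lit 10) (node (nat_lit 5) (nat_lit 48194) (nat_lit 11)
  (node (nat_lit 6) (nat_lit 47044) (nat_lit 12) (node (nat_lit 4) (nat_lit 41747) (nat_lit 13)
  (node (nat_lit 6) (nat_lit 37903) (nat_lit 14) (node (nat_lit 9) (nat_lit 29236) (nat_lit 15)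
  nil nil) nil) nil) nil) nil) nil)) (node (nat_lit 5) (nat_lit 53079) (nat_lit 9) (node (nat_lit
  6) (nat_lit 52365) (nat_lit 10) nil nil) nil)) (node (nat_lit 6) (nat_lit 49298) (nat_lit 8)
  (node (nat_lit 4) (nat_lit 49860) (nat_lit 9) nil (node (nat_lit 5) (nat_lit 52875) (nat_lit 9)
  nil nil)) (node (nat_lit 5) (nat_lit 48283) (nat_lit 8) (node (nat_lit 6) (nat_lit 41576)
  (nat_lit 9) (node (nat_lit 4) (nat_lit 20412) (nat_lit 10) (node (nat_lit 9) (nat_lit 19662)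
  (nat_lit 11) nil nil) (node (nat_lit 5) (nat_lit 40862) (nat_lit 10) nil (node (nat_lit 9)
  (nat_lit 39573) (nat_lit 10) nil nil))) (node (nat_lit 9) (nat_lit 49329) (nat_lit 9) (node
  (nat_lit 6) (nat_lit 48615) (nat_lit 10) (node (nat_lit 4) (nat_lit 46418) (nat_lit 11) nil nil)
  nil) (node (nat_lit 4) (nat_lit 49329) (nat_lit 9) nil nil))) (node (nat_lit 0) (nat_lit 52721)
  (nat_lit 8) (node (nat_lit 6) (nat_lit 53064) (nat_lit 9) nil nil) nil)))) (node (nat_lit 6)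
  (nat_lit 47879) (nat_lit 7) (node (nat_lit 4) (nat_lit 49298) (nat_lit 8) (node (nat_lit 9)
  (nat_lit 49860) (nat_lit 9) nil (node (nat_lit 5) (nat_lit 41747) (nat_lit 9) (node (nat_lit 6)
  (nat_lit 39581) (nat_lit 10) (node (nat_lit 4) (nat_lit 31855) (nat_lit 11) (node (nat_lit 6)
  (nat_lit 31212) (nat_lit 12) nil nil) nil) nil) nil)) (node (nat_lit 5) (nat_lit 52024) (nat_lit
  8) (node (nat_lit 6) (nat_lit 52585) (nat_lit 9) (node (nat_lit 9) (nat_lit 51638) (nat_lit 10)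
  (node (nat_lit 5) (nat_lit 51946) (nat_lit 11) (node (nat_lit 9) (nat_lit 51376) (nat_lit 12)
  nil nil) nil) nil) nil) nil)) (node (nat_lit 5) (nat_lit 52183) (nat_lit 7) (node (nat_lit 4)
  (nat_lit 53603) (nat_lit 8) (node (nat_lit 9) (nat_lit 52557) (nat_lit 9) nil nil) (node
  (nat_lit 9) (nat_lit 51439) (nat_lit 8) (node (nat_lit 6) (nat_lit 50211) (nat_lit 9) (node
  (nat_lit 4) (nat_lit 49874) (nat_lit 10) nil nil) nil) nil)) (node (nat_lit 0) (nat_lit 51899)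
  (nat_lit 7) (node (nat_lit 4) (nat_lit 53319) (nat_lit 8) nil (node (nat_lit 6) (nat_lit 53054)
  (nat_lit 8) nil (node (nat_lit 9) (nat_lit 53319) (nat_lit 8) nil (node (nat_lit 5) (nat_lit
  53054) (nat_lit 8) nil nil)))) nil)))) (node (nat_lit 0) (nat_lit 50274) (nat_lit 6) (node
  (nat_lit 4) (nat_lit 52590) (nat_lit 7) (node (nat_lit 6) (nat_lit 54009) (nat_lit 8) (node
  (nat_lit 5) (nat_lit 54571) (nat_lit 9) nil (node (nat_lit 4) (nat_lit 54571) (nat_lit 9) nil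
  nil)) (node (nat_lit 9) (nat_lit 54009) (nat_lit 8) (node (nat_lit 6) (nat_lit 54571) (nat_lit
  9) nil nil) (node (nat_lit 3) (nat_lit 51759) (nat_lit 8) nil nil))) (node (nat_lit 5) (nat_lit
  52807) (nat_lit 7) (node (nat_lit 4) (nat_lit 54227) (nat_lit 8) nil nil) (node (nat_lit 6)
  (nat_lit 52590) (nat_lit 7) (node (nat_lit 4) (nat_lit 54009) (nat_lit 8) (node (nat_lit 5)
  (nat_lit 54196) (nat_lit 9) (node (nat_lit 6) (nat_lit 53481) (nat_lit 10) (node (nat_lit 4)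
  (nat_lit 54114) (nat_lit 11) nil nil) nil) nil) nil) (node (nat_lit 3) (nat_lit 52575) (nat_lit
  7) (node (nat_lit 4) (nat_lit 53994) (nat_lit 8) nil (node (nat_lit 6) (nat_lit 51830) (nat_lit
  8) nil nil)) (node (nat_lit 0) (nat_lit 52793) (nat_lit 7) (node (nat_lit 6) (nat_lit 54212)
  (nat_lit 8) nil nil) nil))))) nil))) t34) (node (nat_lit 5) (nat_lit 0) (nat_lit 4) (node
  (nat_lit 4) (nat_lit 47319) (nat_lit 5) (node (nat_lit 6) (nat_lit 50916) (nat_lit 6) (node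
  (nat_lit 4) (nat_lit 58344) (nat_lit 7) (node (nat_lit 5) (nat_lit 65988) (nat_lit 8) (node
  (nat_lit 6) (nat_lit 69396) (nat_lit 9) (node (nat_lit 5) (nat_lit 69598) (nat_lit 10) (node
  (nat_lit 4) (nat_lit 33861) (nat_lit 11) nil nil) (node (nat_lit 4) (nat_lit 71662) (nat_lit 10)
  (node (nat_lit 6) (nat_lit 71469) (nat_lit 11) (node (nat_lit 5) (nat_lit 70354) (nat_lit 12)
  (node (nat_lit 6) (nat_lit 69997) (nat_lit 13) (node (nat_lit 4) (nat_lit 70406) (nat_lit 14)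
  (node (nat_lit 5) (nat_lit 69764) (nat_lit 15) (node (nat_lit 6) (nat_lit 69350) (nat_lit 16)
  (node (nat_lit 5) (nat_lit 69001) (nat_lit 17) (node (nat_lit 4) (nat_lit 67917) (nat_lit 18)
  (node (nat_lit 6) (nat_lit 66124) (nat_lit 19) (node (nat_lit 4) (nat_lit 64012) (nat_lit 20)
  (node (nat_lit 5) (nat_lit 60080) (nat_lit 21) (node (nat_lit 6) (nat_lit 54340) (nat_lit 22)
  (node (nat_lit 4) (nat_lit 43951) (nat_lit 23) (node (nat_lit 6) (nat_lit 32734) (nat_lit 24)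
  (node (nat_lit 5) (nat_lit 32710) (nat_lit 25) nil nil) nil) nil) nil) nil) nil) nil) nil) nil)
  nil) nil) nil) nil) nil) nil) (node (nat_lit 3) (nat_lit 69298) (nat_lit 10) nil nil))) (node
  (nat_lit 4) (nat_lit 70457) (nat_lit 9) (node (nat_lit 6) (nat_lit 71173) (nat_lit 10) (node
  (nat_lit 5) (nat_lit 71298) (nat_lit 11) (node (nat_lit 6) (nat_lit 70158) (nat_lit 12) (node
  (nat_lit 4) (nat_lit 70712) (nat_lit 13) (node (nat_lit 5) (nat_lit 70057) (nat_lit 14) (node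
  (nat_lit 6) (nat_lit 69267) (nat_lit 15) (node (nat_lit 5) (nat_lit 68500) (nat_lit 16) (node
  (nat_lit 4) (nat_lit 67009) (nat_lit 17) (node (nat_lit 6) (nat_lit 65676) (nat_lit 18) (node
  (nat_lit 4) (nat_lit 61165) (nat_lit 19) (node (nat_lit 5) (nat_lit 59552) (nat_lit 20) (node
  (nat_lit 4) (nat_lit 32991) (nat_lit 21) (node (nat_lit 6) (nat_lit 32940) (nat_lit 22) (node
  (nat_lit 5) (nat_lit 32900) (nat_lit 23) nil nil) nil) nil) nil) nil) nil) nil) nil) nil) nil)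
  nil) nil) nil) (node (nat_lit 3) (nat_lit 70087) (nat_lit 10) nil nil)) (node (nat_lit 3)
  (nat_lit 69621) (nat_lit 9) (node (nat_lit 4) (nat_lit 68483) (nat_lit 10) (node (nat_lit 5)
  (nat_lit 68250) (nat_lit 11) (node (nat_lit 6) (nat_lit 66792) (nat_lit 12) (node (nat_lit 5)
  (nat_lit 60073) (nat_lit 13) (node (nat_lit 4) (nat_lit 56216) (nat_lit 14) nil nil) nil) nil)
  nil) nil) (node (nat_lit 0) (nat_lit 71442) (nat_lit 9) (node (nat_lit 6) (nat_lit 71213)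
  (nat_lit 10) nil nil) nil)))) (node (nat_lit 3) (nat_lit 71297) (nat_lit 8) (node (nat_lit 6)
  (nat_lit 70968) (nat_lit 9) (node (nat_lit 4) (nat_lit 70892) (nat_lit 10) (node (nat_lit 5)
  (nat_lit 68429) (nat_lit 11) (node (nat_lit 6) (nat_lit 66018) (nat_lit 12) (node (nat_lit 5)
  (nat_lit 61813) (nat_lit 13) (node (nat_lit 4) (nat_lit 53904) (nat_lit 14) (node (nat_lit 6)
  (nat_lit 34731) (nat_lit 15) nil nil) nil) nil) nil) nil) nil) (node (nat_lit 4) (nat_lit 72343)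
  (nat_lit 9) (node (nat_lit 6) (nat_lit 71629) (nat_lit 10) nil (node (nat_lit 5) (nat_lit 73060)
  (nat_lit 10) (node (nat_lit 6) (nat_lit 72524) (nat_lit 11) (node (nat_lit 5) (nat_lit 72159)
  (nat_lit 12) (node (nat_lit 4) (nat_lit 72624) (nat_lit 13) (node (nat_lit 6) (nat_lit 72430)
  (nat_lit 14) nil nil) nil) nil) nil) nil)) (node (nat_lit 5) (nat_lit 69437) (nat_lit 9) nil
  nil))) (node (nat_lit 0) (nat_lit 70734) (nat_lit 8) (node (nat_lit 6) (nat_lit 70526) (nat_lit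
  9) nil (node (nat_lit 3) (nat_lit 70173) (nat_lit 9) nil nil)) nil))) (node (nat_lit 3) (nat_lit
  67890) (nat_lit 7) (node (nat_lit 4) (nat_lit 70000) (nat_lit 8) (node (nat_lit 10) (nat_lit
  69439) (nat_lit 9) nil (node (nat_lit 6) (nat_lit 71047) (nat_lit 9) (node (nat_lit 4) (nat_lit
  71764) (nat_lit 10) nil nil) (node (nat_lit 5) (nat_lit 63061) (nat_lit 9) (node (nat_lit 6)
  (nat_lit 55039) (nat_lit 10) (node (nat_lit 5) (nat_lit 37388) (nat_lit 11) (node (nat_lit 4)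
  (nat_lit 33512) (nat_lit 12) nil nil) nil) nil) nil))) (node (nat_lit 6) (nat_lit 69243)
  (nat_lit 8) (node (nat_lit 4) (nat_lit 70571) (nat_lit 9) (node (nat_lit 5) (nat_lit 68317)
  (nat_lit 10) (node (nat_lit 6) (nat_lit 63491) (nat_lit 11) (node (nat_lit 5) (nat_lit 57025)
  (nat_lit 12) (node (nat_lit 4) (nat_lit 46040) (nat_lit 13) (node (nat_lit 6) (nat_lit 31372)
  (nat_lit 14) nil nil) nil) nil) nil) nil) nil) (node (nat_lit 5) (nat_lit 68764) (nat_lit 8)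
  (node (nat_lit 6) (nat_lit 67760) (nat_lit 9) (node (nat_lit 4) (nat_lit 64951) (nat_lit 10)
  (node (nat_lit 5) (nat_lit 62282) (nat_lit 11) nil nil) nil) (node (nat_lit 10) (nat_lit 65231)
  (nat_lit 9) (node (nat_lit 4) (nat_lit 65393) (nat_lit 10) (node (nat_lit 5) (nat_lit 63893)
  (nat_lit 11) (node (nat_lit 6) (nat_lit 60733) (nat_lit 12) (node (nat_lit 5) (nat_lit 56822)
  (nat_lit 13) (node (nat_lit 4) (nat_lit 51757) (nat_lit 14) (node (nat_lit 6) (nat_lit 41158)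
  (nat_lit 15) nil nil) nil) nil) nil) nil) (node (nat_lit 6) (nat_lit 63821) (nat_lit 10) nil
  nil)) nil)) (node (nat_lit 0) (nat_lit 70010) (nat_lit 8) nil nil)))) (node (nat_lit 0) (nat_lit
  68854) (nat_lit 7) (node (nat_lit 5) (nat_lit 69443) (nat_lit 8) (node (nat_lit 6) (nat_lit
  68818) (nat_lit 9) nil nil) (node (nat_lit 6) (nat_lit 68698) (nat_lit 8) (node (nat_lit 4)
  (nat_lit 69744) (nat_lit 9) (node (nat_lit 5) (nat_lit 69030) (nat_lit 10) (node (nat_lit 6)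
  (nat_lit 68494) (nat_lit 11) nil nil) nil) nil) (node (nat_lit 4) (nat_lit 70975) (nat_lit 8)
  nil (node (nat_lit 3) (nat_lit 70714) (nat_lit 8) (node (nat_lit 4) (nat_lit 71760) (nat_lit 9)
  nil nil) nil)))) (node (nat_lit 5) (nat_lit 57747) (nat_lit 7) (node (nat_lit 6) (nat_lit 65427)
  (nat_lit 8) (node (nat_lit 4) (nat_lit 66516) (nat_lit 9) (node (nat_lit 5) (nat_lit 68525)
  (nat_lit 10) (node (nat_lit 6) (nat_lit 63058) (nat_lit 11) (node (nat_lit 5) (nat_lit 63377)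
  (nat_lit 12) (node (nat_lit 4) (nat_lit 61810) (nat_lit 13) (node (nat_lit 6) (nat_lit 36636)
  (nat_lit 14) (node (nat_lit 4) (nat_lit 36695) (nat_lit 15) (node (nat_lit 5) (nat_lit 36621)
  (nat_lit 16) (node (nat_lit 4) (nat_lit 36698) (nat_lit 17) (node (nat_lit 6) (nat_lit 36561)
  (nat_lit 18) nil nil) (node (nat_lit 6) (nat_lit 36445) (nat_lit 17) nil nil)) nil) (node
  (nat_lit 3) (nat_lit 36034) (nat_lit 15) nil (node (nat_lit 0) (nat_lit 36773) (nat_lit 15) nil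
  (node (nat_lit 5) (nat_lit 35465) (nat_lit 15) nil nil)))) nil) nil) nil) (node (nat_lit 4)
  (nat_lit 69818) (nat_lit 11) (node (nat_lit 6) (nat_lit 69681) (nat_lit 12) (node (nat_lit 4)
  (nat_lit 70317) (nat_lit 13) (node (nat_lit 5) (nat_lit 70255) (nat_lit 14) (node (nat_lit 6)
  (nat_lit 70209) (nat_lit 15) (node (nat_lit 5) (nat_lit 70173) (nat_lit 16) (node (nat_lit 4)
  (nat_lit 70397) (nat_lit 17) (node (nat_lit 6) (nat_lit 70375) (nat_lit 18) (node (nat_lit 5)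
  (nat_lit 70195) (nat_lit 19) (node (nat_lit 6) (nat_lit 70138) (nat_lit 20) (node (nat_lit 4)
  (nat_lit 70201) (nat_lit 21) (node (nat_lit 5) (nat_lit 70077) (nat_lit 22) nil nil) nil) nil)
  nil) nil) nil) nil) nil) nil) nil) nil) nil)) nil) nil) (node (nat_lit 3) (nat_lit 66343)
  (nat_lit 8) (node (nat_lit 4) (nat_lit 62230) (nat_lit 9) (node (nat_lit 5) (nat_lit 60004)
  (nat_lit 10) (node (nat_lit 6) (nat_lit 55543) (nat_lit 11) nil nil) nil) nil) (node (nat_lit 0)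
  (nat_lit 62273) (nat_lit 8) nil nil))) nil)))) (node (nat_lit 5) (nat_lit 50881) (nat_lit 6)
  (node (nat_lit 6) (nat_lit 57817) (nat_lit 7) (node (nat_lit 4) (nat_lit 66869) (nat_lit 8)
  (node (nat_lit 5) (nat_lit 68366) (nat_lit 9) (node (nat_lit 4) (nat_lit 69233) (nat_lit 10)
  (node (nat_lit 6) (nat_lit 69870) (nat_lit 11) (node (nat_lit 4) (nat_lit 70671) (nat_lit 12)
  (node (nat_lit 5) (nat_lit 70580) (nat_lit 13) (node (nat_lit 6) (nat_lit 70518) (nat_lit 14)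
  (node (nat_lit 5) (nat_lit 70472) (nat_lit 15) (node (nat_lit 4) (nat_lit 70762) (nat_lit 16)
  (node (nat_lit 5) (nat_lit 70734) (nat_lit 17) (node (nat_lit 6) (nat_lit 70712) (nat_lit 18)
  (node (nat_lit 4) (nat_lit 70849) (nat_lit 19) (node (nat_lit 5) (nat_lit 70835) (nat_lit 20)
  nil nil) nil) nil) nil) nil) nil) nil) nil) nil) nil) (node (nat_lit 3) (nat_lit 65693) (nat_lit
  10) nil nil)) (node (nat_lit 6) (nat_lit 68244) (nat_lit 9) (node (nat_lit 5) (nat_lit 68466)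
  (nat_lit 10) (node (nat_lit 6) (nat_lit 67951) (nat_lit 11) (node (nat_lit 4) (nat_lit 68494)
  (nat_lit 12) (node (nat_lit 5) (nat_lit 67488) (nat_lit 13) (node (nat_lit 6) (nat_lit 66685)
  (nat_lit 14) (node (nat_lit 5) (nat_lit 64775) (nat_lit 15) (node (nat_lit 4) (nat_lit 63788)
  (nat_lit 16) (node (nat_lit 5) (nat_lit 59842) (nat_lit 17) (node (nat_lit 6) (nat_lit 57425)
  (nat_lit 18) (node (nat_lit 4) (nat_lit 55130) (nat_lit 19) (node (nat_lit 6) (nat_lit 32184)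
  (nat_lit 20) (node (nat_lit 5) (nat_lit 32118) (nat_lit 21) nil nil) nil) nil) nil) nil) nil)
  nil) nil) nil) nil) nil) nil) (node (nat_lit 3) (nat_lit 67801) (nat_lit 9) nil nil))) (node
  (nat_lit 3) (nat_lit 68526) (nat_lit 8) (node (nat_lit 4) (nat_lit 65695) (nat_lit 9) (node
  (nat_lit 5) (nat_lit 63693) (nat_lit 10) (node (nat_lit 6) (nat_lit 59237) (nat_lit 11) (node
  (nat_lit 5) (nat_lit 52479) (nat_lit 12) (node (nat_lit 4) (nat_lit 37075) (nat_lit 13) nil nil)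
  nil) nil) nil) nil) (node (nat_lit 0) (nat_lit 69656) (nat_lit 8) (node (nat_lit 6) (nat_lit
  68925) (nat_lit 9) nil nil) nil))) (node (nat_lit 3) (nat_lit 67899) (nat_lit 7) (node (nat_lit
  4) (nat_lit 68674) (nat_lit 8) (node (nat_lit 5) (nat_lit 68240) (nat_lit 9) (node (nat_lit 6)
  (nat_lit 62001) (nat_lit 10) (node (nat_lit 5) (nat_lit 37989) (nat_lit 11) (node (nat_lit 4)
  (nat_lit 34760) (nat_lit 12) nil nil) nil) nil) (node (nat_lit 10) (nat_lit 68113) (nat_lit 9)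
  nil nil)) (node (nat_lit 6) (nat_lit 69575) (nat_lit 8) (node (nat_lit 4) (nat_lit 69554)
  (nat_lit 9) (node (nat_lit 5) (nat_lit 66943) (nat_lit 10) (node (nat_lit 6) (nat_lit 63062)
  (nat_lit 11) (node (nat_lit 5) (nat_lit 48807) (nat_lit 12) (node (nat_lit 4) (nat_lit 39476)
  (nat_lit 13) nil nil) nil) nil) nil) nil) (node (nat_lit 5) (nat_lit 70153) (nat_lit 8) nil
  (node (nat_lit 0) (nat_lit 70020) (nat_lit 8) nil nil)))) (node (nat_lit 0) (nat_lit 67650)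
  (nat_lit 7) (node (nat_lit 6) (nat_lit 69355) (nat_lit 8) (node (nat_lit 4) (nat_lit 70401)
  (nat_lit 9) (node (nat_lit 5) (nat_lit 69687) (nat_lit 10) (node (nat_lit 6) (nat_lit 69151)
  (nat_lit 11) nil nil) nil) nil) (node (nat_lit 3) (nat_lit 67520) (nat_lit 8) (node (nat_lit 4)
  (nat_lit 68567) (nat_lit 9) nil nil) nil)) nil))) (node (nat_lit 3) (nat_lit 63627) (nat_lit 6)
  (node (nat_lit 6) (nat_lit 68839) (nat_lit 7) (node (nat_lit 4) (nat_lit 68725) (nat_lit 8)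
  (node (nat_lit 5) (nat_lit 55980) (nat_lit 9) (node (nat_lit 6) (nat_lit 48892) (nat_lit 10)
  (node (nat_lit 5) (nat_lit 35839) (nat_lit 11) (node (nat_lit 4) (nat_lit 32796) (nat_lit 12)
  nil nil) nil) nil) nil) (node (nat_lit 9) (nat_lit 67158) (nat_lit 8) (node (nat_lit 4) (nat_lit
  66846) (nat_lit 9) (node (nat_lit 5) (nat_lit 64269) (nat_lit 10) nil nil) nil) nil)) (node
  (nat_lit 4) (nat_lit 67766) (nat_lit 7) (node (nat_lit 5) (nat_lit 69886) (nat_lit 8) (node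
  (nat_lit 6) (nat_lit 69156) (nat_lit 9) (node (nat_lit 5) (nat_lit 68441) (nat_lit 10) nil nil)
  nil) nil) (node (nat_lit 5) (nat_lit 68428) (nat_lit 7) (node (nat_lit 9) (nat_lit 68802)
  (nat_lit 8) (node (nat_lit 4) (nat_lit 65884) (nat_lit 9) (node (nat_lit 5) (nat_lit 63308)
  (nat_lit 10) (node (nat_lit 6) (nat_lit 59198) (nat_lit 11) (node (nat_lit 5) (nat_lit 53331)
  (nat_lit 12) (node (nat_lit 4) (nat_lit 33520) (nat_lit 13) nil nil) nil) nil) nil) nil) (node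
  (nat_lit 6) (nat_lit 67783) (nat_lit 8) nil nil)) (node (nat_lit 0) (nat_lit 67009) (nat_lit 7)
  (node (nat_lit 6) (nat_lit 66853) (nat_lit 8) nil nil) nil)))) (node (nat_lit 0) (nat_lit 63937)
  (nat_lit 6) (node (nat_lit 5) (nat_lit 68488) (nat_lit 7) (node (nat_lit 6) (nat_lit 67834)
  (nat_lit 8) (node (nat_lit 4) (nat_lit 68433) (nat_lit 9) (node (nat_lit 5) (nat_lit 59265)
  (nat_lit 10) (node (nat_lit 6) (nat_lit 55155) (nat_lit 11) nil nil) nil) nil) nil) (node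
  (nat_lit 6) (nat_lit 67709) (nat_lit 7) (node (nat_lit 4) (nat_lit 69829) (nat_lit 8) (node
  (nat_lit 5) (nat_lit 69099) (nat_lit 9) (node (nat_lit 6) (nat_lit 68384) (nat_lit 10) (node
  (nat_lit 5) (nat_lit 67848) (nat_lit 11) (node (nat_lit 4) (nat_lit 68421) (nat_lit 12) nil nil)
  nil) nil) nil) nil) (node (nat_lit 4) (nat_lit 67237) (nat_lit 7) (node (nat_lit 6) (nat_lit
  67081) (nat_lit 8) nil nil) (node (nat_lit 3) (nat_lit 69190) (nat_lit 7) (node (nat_lit 4)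
  (nat_lit 71311) (nat_lit 8) (node (nat_lit 5) (nat_lit 72174) (nat_lit 9) nil nil) nil) (node
  (nat_lit 0) (nat_lit 67319) (nat_lit 7) nil nil))))) nil)))) t35) t37))

noncomputable def t39 : Tr :=
  (node (nat_lit 0) (nat_lit 0) (nat_lit 2) (node (nat_lit 3) (nat_lit 0) (nat_lit 3) t32 (node
  (nat_lit 4) (nat_lit 0) (nat_lit 3) (node (nat_lit 3) (nat_lit 0) (nat_lit 4) (node (nat_lit 4)
  (nat_lit 74553) (nat_lit 5) (node (nat_lit 5) (nat_lit 78906) (nat_lit 6) (node (nat_lit 4)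
  (nat_lit 39787) (nat_lit 7) nil nil) nil) (node (nat_lit 5) (nat_lit 76515) (nat_lit 5) (node
  (nat_lit 7) (nat_lit 78841) (nat_lit 6) (node (nat_lit 4) (nat_lit 80076) (nat_lit 7) (node
  (nat_lit 5) (nat_lit 80715) (nat_lit 8) (node (nat_lit 4) (nat_lit 81158) (nat_lit 9) (node
  (nat_lit 7) (nat_lit 80161) (nat_lit 10) (node (nat_lit 5) (nat_lit 39286) (nat_lit 11) nil nil)
  nil) nil) (node (nat_lit 7) (nat_lit 78593) (nat_lit 8) (node (nat_lit 5) (nat_lit 79036)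
  (nat_lit 9) (node (nat_lit 4) (nat_lit 79373) (nat_lit 10) (node (nat_lit 7) (nat_lit 78580)
  (nat_lit 11) (node (nat_lit 4) (nat_lit 78849) (nat_lit 12) (node (nat_lit 5) (nat_lit 79067)
  (nat_lit 13) (node (nat_lit 4) (nat_lit 79236) (nat_lit 14) (node (nat_lit 7) (nat_lit 78965)
  (nat_lit 15) (node (nat_lit 5) (nat_lit 79059) (nat_lit 16) (node (nat_lit 7) (nat_lit 78894)
  (nat_lit 17) (node (nat_lit 4) (nat_lit 78949) (nat_lit 18) (node (nat_lit 7) (nat_lit 78849)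
  (nat_lit 19) (node (nat_lit 5) (nat_lit 78883) (nat_lit 20) (node (nat_lit 4) (nat_lit 37738)
  (nat_lit 21) nil nil) nil) nil) nil) nil) nil) nil) nil) nil) nil) nil) nil) nil) nil)) nil)
  (node (nat_lit 3) (nat_lit 77166) (nat_lit 6) (node (nat_lit 4) (nat_lit 79372) (nat_lit 7)
  (node (nat_lit 7) (nat_lit 80710) (nat_lit 8) (node (nat_lit 4) (nat_lit 81153) (nat_lit 9)
  (node (nat_lit 5) (nat_lit 81490) (nat_lit 10) nil nil) nil) (node (nat_lit 5) (nat_lit 80775)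
  (nat_lit 8) (node (nat_lit 4) (nat_lit 81312) (nat_lit 9) nil nil) nil)) nil) (node (nat_lit 0)
  (nat_lit 81188) (nat_lit 6) nil (node (nat_lit 2) (nat_lit 75850) (nat_lit 6) nil nil)))) (node
  (nat_lit 3) (nat_lit 68920) (nat_lit 5) (node (nat_lit 4) (nat_lit 70890) (nat_lit 6) (node
  (nat_lit 5) (nat_lit 62133) (nat_lit 7) (node (nat_lit 4) (nat_lit 41171) (nat_lit 8) (node
  (nat_lit 8) (nat_lit 40936) (nat_lit 9) nil nil) nil) nil) (node (nat_lit 7) (nat_lit 69753)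
  (nat_lit 6) nil nil)) (node (nat_lit 0) (nat_lit 78561) (nat_lit 5) nil (node (nat_lit 2)
  (nat_lit 68769) (nat_lit 5) (node (nat_lit 7) (nat_lit 69412) (nat_lit 6) (node (nat_lit 4)
  (nat_lit 71872) (nat_lit 7) (node (nat_lit 5) (nat_lit 61827) (nat_lit 8) (node (nat_lit 4)
  (nat_lit 55941) (nat_lit 9) (node (nat_lit 7) (nat_lit 39609) (nat_lit 10) nil nil) nil) nil)
  nil) nil) nil))))) (node (nat_lit 0) (nat_lit 74458) (nat_lit 4) (node (nat_lit 3) (nat_lit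
  75312) (nat_lit 5) (node (nat_lit 4) (nat_lit 77487) (nat_lit 6) (node (nat_lit 5) (nat_lit
  77793) (nat_lit 7) (node (nat_lit 4) (nat_lit 78004) (nat_lit 8) nil nil) nil) nil) nil) (node
  (nat_lit 2) (nat_lit 67241) (nat_lit 4) (node (nat_lit 5) (nat_lit 75207) (nat_lit 5) (node
  (nat_lit 7) (nat_lit 78124) (nat_lit 6) (node (nat_lit 4) (nat_lit 79580) (nat_lit 7) (node
  (nat_lit 7) (nat_lit 77291) (nat_lit 8) (node (nat_lit 5) (nat_lit 77966) (nat_lit 9) nil nil)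
  nil) nil) nil) (node (nat_lit 3) (nat_lit 68732) (nat_lit 5) (node (nat_lit 4) (nat_lit 73512)
  (nat_lit 6) (node (nat_lit 5) (nat_lit 62133) (nat_lit 7) (node (nat_lit 4) (nat_lit 38759)
  (nat_lit 8) nil nil) nil) nil) nil)) nil))) (node (nat_lit 0) (nat_lit 0) (nat_lit 3) (node
  (nat_lit 5) (nat_lit 0) (nat_lit 4) (node (nat_lit 4) (nat_lit 76444) (nat_lit 5) nil (node
  (nat_lit 3) (nat_lit 75177) (nat_lit 5) (node (nat_lit 4) (nat_lit 76444) (nat_lit 6) (node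
  (nat_lit 5) (nat_lit 76444) (nat_lit 7) (node (nat_lit 6) (nat_lit 76444) (nat_lit 8) nil nil)
  nil) (node (nat_lit 6) (nat_lit 76444) (nat_lit 6) (node (nat_lit 8) (nat_lit 76444) (nat_lit 7)
  nil nil) nil)) (node (nat_lit 0) (nat_lit 75987) (nat_lit 5) nil (node (nat_lit 2) (nat_lit
  70617) (nat_lit 5) (node (nat_lit 3) (nat_lit 66130) (nat_lit 6) nil nil) nil)))) (node (nat_lit
  3) (nat_lit 0) (nat_lit 4) (node (nat_lit 4) (nat_lit 70207) (nat_lit 5) (node (nat_lit 7)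
  (nat_lit 70207) (nat_lit 6) nil (node (nat_lit 5) (nat_lit 70683) (nat_lit 6) (node (nat_lit 6)
  (nat_lit 35508) (nat_lit 7) nil nil) nil)) (node (nat_lit 6) (nat_lit 70207) (nat_lit 5) (node
  (nat_lit 5) (nat_lit 70683) (nat_lit 6) (node (nat_lit 6) (nat_lit 71017) (nat_lit 7) nil (node
  (nat_lit 7) (nat_lit 70683) (nat_lit 7) (node (nat_lit 4) (nat_lit 71249) (nat_lit 8) (node
  (nat_lit 5) (nat_lit 71396) (nat_lit 9) (node (nat_lit 6) (nat_lit 71507) (nat_lit 10) nil nil)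
  nil) nil) nil)) (node (nat_lit 4) (nat_lit 70683) (nat_lit 6) nil nil)) (node (nat_lit 5)
  (nat_lit 68920) (nat_lit 5) (node (nat_lit 7) (nat_lit 68920) (nat_lit 6) (node (nat_lit 4)
  (nat_lit 69731) (nat_lit 7) nil nil) (node (nat_lit 6) (nat_lit 69397) (nat_lit 6) (node
  (nat_lit 5) (nat_lit 69731) (nat_lit 7) (node (nat_lit 7) (nat_lit 69731) (nat_lit 8) nil nil)
  (node (nat_lit 4) (nat_lit 69731) (nat_lit 7) (node (nat_lit 7) (nat_lit 69731) (nat_lit 8) nil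
  nil) nil)) nil)) (node (nat_lit 3) (nat_lit 65760) (nat_lit 5) (node (nat_lit 7) (nat_lit 64486)
  (nat_lit 6) (node (nat_lit 5) (nat_lit 67708) (nat_lit 7) (node (nat_lit 8) (nat_lit 67708)
  (nat_lit 8) nil nil) (node (nat_lit 4) (nat_lit 63415) (nat_lit 7) nil nil)) (node (nat_lit 4)
  (nat_lit 54606) (nat_lit 6) (node (nat_lit 5) (nat_lit 46010) (nat_lit 7) nil nil) (node
  (nat_lit 5) (nat_lit 68111) (nat_lit 6) (node (nat_lit 8) (nat_lit 68111) (nat_lit 7) nil nil)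
  nil))) (node (nat_lit 0) (nat_lit 67634) (nat_lit 5) (node (nat_lit 7) (nat_lit 67634) (nat_lit
  6) nil nil) (node (nat_lit 2) (nat_lit 65760) (nat_lit 5) (node (nat_lit 7) (nat_lit 58957)
  (nat_lit 6) nil nil) nil)))))) (node (nat_lit 4) (nat_lit 0) (nat_lit 4) (node (nat_lit 6)
  (nat_lit 75494) (nat_lit 5) nil (node (nat_lit 3) (nat_lit 74579) (nat_lit 5) (node (nat_lit 4)
  (nat_lit 75970) (nat_lit 6) (node (nat_lit 5) (nat_lit 76304) (nat_lit 7) (node (nat_lit 6)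
  (nat_lit 76444) (nat_lit 8) (node (nat_lit 4) (nat_lit 36025) (nat_lit 9) nil nil) nil) nil)
  nil) (node (nat_lit 5) (nat_lit 76444) (nat_lit 5) nil (node (nat_lit 0) (nat_lit 75494)
  (nat_lit 5) nil (node (nat_lit 2) (nat_lit 68819) (nat_lit 5) nil nil))))) (node (nat_lit 0)
  (nat_lit 71570) (nat_lit 4) (node (nat_lit 3) (nat_lit 71570) (nat_lit 5) nil nil) (node
  (nat_lit 2) (nat_lit 0) (nat_lit 4) (node (nat_lit 6) (nat_lit 70207) (nat_lit 5) (node (nat_lit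
  5) (nat_lit 70683) (nat_lit 6) nil nil) (node (nat_lit 3) (nat_lit 64432) (nat_lit 5) (node
  (nat_lit 7) (nat_lit 63278) (nat_lit 6) nil (node (nat_lit 4) (nat_lit 56564) (nat_lit 6) nil
  (node (nat_lit 3) (nat_lit 60585) (nat_lit 6) nil nil))) (node (nat_lit 5) (nat_lit 70207)
  (nat_lit 5) nil (node (nat_lit 4) (nat_lit 70207) (nat_lit 5) nil (node (nat_lit 0) (nat_lit
  67634) (nat_lit 5) nil nil))))) nil))))) (node (nat_lit 2) (nat_lit 0) (nat_lit 3) (node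
  (nat_lit 5) (nat_lit 0) (nat_lit 4) (node (nat_lit 4) (nat_lit 74731) (nat_lit 5) (node (nat_lit
  6) (nat_lit 74731) (nat_lit 6) nil (node (nat_lit 3) (nat_lit 74517) (nat_lit 6) nil (node
  (nat_lit 5) (nat_lit 74731) (nat_lit 6) nil nil))) (node (nat_lit 3) (nat_lit 72752) (nat_lit 5)
  (node (nat_lit 6) (nat_lit 71090) (nat_lit 6) (node (nat_lit 8) (nat_lit 66791) (nat_lit 7) nil
  nil) (node (nat_lit 4) (nat_lit 74109) (nat_lit 6) (node (nat_lit 5) (nat_lit 74546) (nat_lit 7)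
  (node (nat_lit 6) (nat_lit 74546) (nat_lit 8) nil nil) nil) nil)) (node (nat_lit 0) (nat_lit
  73515) (nat_lit 5) nil nil))) (node (nat_lit 3) (nat_lit 0) (nat_lit 4) (node (nat_lit 4)
  (nat_lit 65060) (nat_lit 5) (node (nat_lit 7) (nat_lit 64611) (nat_lit 6) (node (nat_lit 5)
  (nat_lit 66222) (nat_lit 7) (node (nat_lit 6) (nat_lit 63787) (nat_lit 8) (node (nat_lit 7)
  (nat_lit 62478) (nat_lit 9) nil nil) nil) nil) (node (nat_lit 6) (nat_lit 66643) (nat_lit 6)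
  (node (nat_lit 5) (nat_lit 68255) (nat_lit 7) (node (nat_lit 6) (nat_lit 65819) (nat_lit 8)
  (node (nat_lit 7) (nat_lit 64380) (nat_lit 9) nil nil) nil) nil) (node (nat_lit 5) (nat_lit
  45924) (nat_lit 6) nil (node (nat_lit 3) (nat_lit 63994) (nat_lit 6) nil nil)))) (node (nat_lit
  6) (nat_lit 61638) (nat_lit 5) (node (nat_lit 5) (nat_lit 67656) (nat_lit 6) (node (nat_lit 6)
  (nat_lit 67656) (nat_lit 7) (node (nat_lit 7) (nat_lit 67656) (nat_lit 8) nil nil) (node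
  (nat_lit 7) (nat_lit 67656) (nat_lit 7) (node (nat_lit 5) (nat_lit 68422) (nat_lit 8) (node
  (nat_lit 6) (nat_lit 68422) (nat_lit 9) (node (nat_lit 7) (nat_lit 68422) (nat_lit 10) nil nil)
  nil) (node (nat_lit 6) (nat_lit 67656) (nat_lit 8) (node (nat_lit 7) (nat_lit 67656) (nat_lit 9)
  nil nil) (node (nat_lit 4) (nat_lit 68422) (nat_lit 8) (node (nat_lit 5) (nat_lit 68670)
  (nat_lit 9) (node (nat_lit 6) (nat_lit 68670) (nat_lit 10) nil nil) nil) nil))) nil)) (node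
  (nat_lit 4) (nat_lit 65533) (nat_lit 6) (node (nat_lit 7) (nat_lit 65533) (nat_lit 7) (node
  (nat_lit 4) (nat_lit 66299) (nat_lit 8) (node (nat_lit 5) (nat_lit 66548) (nat_lit 9) (node
  (nat_lit 6) (nat_lit 66548) (nat_lit 10) (node (nat_lit 7) (nat_lit 66548) (nat_lit 11) nil nil)
  nil) nil) (node (nat_lit 5) (nat_lit 66299) (nat_lit 8) (node (nat_lit 6) (nat_lit 66299)
  (nat_lit 9) (node (nat_lit 7) (nat_lit 66299) (nat_lit 10) nil nil) nil) nil)) nil) (node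
  (nat_lit 3) (nat_lit 61638) (nat_lit 6) (node (nat_lit 7) (nat_lit 57605) (nat_lit 7) nil (node
  (nat_lit 4) (nat_lit 59414) (nat_lit 7) nil nil)) (node (nat_lit 0) (nat_lit 64677) (nat_lit 6)
  nil nil)))) (node (nat_lit 5) (nat_lit 69285) (nat_lit 5) (node (nat_lit 7) (nat_lit 68131)
  (nat_lit 6) (node (nat_lit 4) (nat_lit 70262) (nat_lit 7) nil nil) (node (nat_lit 6) (nat_lit
  68131) (nat_lit 6) (node (nat_lit 5) (nat_lit 70262) (nat_lit 7) (node (nat_lit 7) (nat_lit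
  69388) (nat_lit 8) nil nil) nil) nil)) (node (nat_lit 3) (nat_lit 59076) (nat_lit 5) (node
  (nat_lit 7) (nat_lit 60376) (nat_lit 6) (node (nat_lit 5) (nat_lit 64159) (nat_lit 7) nil (node
  (nat_lit 4) (nat_lit 60510) (nat_lit 7) nil nil)) (node (nat_lit 4) (nat_lit 53801) (nat_lit 6)
  (node (nat_lit 5) (nat_lit 36360) (nat_lit 7) nil nil) (node (nat_lit 5) (nat_lit 64677)
  (nat_lit 6) (node (nat_lit 7) (nat_lit 63816) (nat_lit 7) nil (node (nat_lit 8) (nat_lit 63816)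
  (nat_lit 7) nil nil)) (node (nat_lit 6) (nat_lit 56563) (nat_lit 6) nil nil)))) (node (nat_lit
  0) (nat_lit 64939) (nat_lit 5) (node (nat_lit 7) (nat_lit 64939) (nat_lit 6) nil nil) nil)))))
  (node (nat_lit 4) (nat_lit 69794) (nat_lit 4) (node (nat_lit 6) (nat_lit 72752) (nat_lit 5)
  (node (nat_lit 5) (nat_lit 74109) (nat_lit 6) (node (nat_lit 6) (nat_lit 74109) (nat_lit 7)
  (node (nat_lit 3) (nat_lit 74109) (nat_lit 8) nil nil) nil) (node (nat_lit 3) (nat_lit 72752)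
  (nat_lit 6) nil nil)) (node (nat_lit 3) (nat_lit 72616) (nat_lit 5) (node (nat_lit 4) (nat_lit
  74109) (nat_lit 6) (node (nat_lit 5) (nat_lit 74546) (nat_lit 7) (node (nat_lit 6) (nat_lit
  74522) (nat_lit 8) (node (nat_lit 4) (nat_lit 33108) (nat_lit 9) nil nil) nil) nil) (node
  (nat_lit 5) (nat_lit 74109) (nat_lit 6) (node (nat_lit 8) (nat_lit 74109) (nat_lit 7) (node
  (nat_lit 4) (nat_lit 74731) (nat_lit 8) nil nil) nil) nil)) (node (nat_lit 5) (nat_lit 74387)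
  (nat_lit 5) nil nil))) (node (nat_lit 0) (nat_lit 69943) (nat_lit 4) (node (nat_lit 6) (nat_lit
  67425) (nat_lit 5) nil (node (nat_lit 3) (nat_lit 69612) (nat_lit 5) nil nil)) nil)))) nil))))
  (node (nat_lit 2) (nat_lit 0) (nat_lit 2) (node (nat_lit 3) (nat_lit 0) (nat_lit 3) t38 (node
  (nat_lit 4) (nat_lit 0) (nat_lit 3) (node (nat_lit 3) (nat_lit 0) (nat_lit 4) (node (nat_lit 4)
  (nat_lit 47585) (nat_lit 5) (node (nat_lit 5) (nat_lit 51499) (nat_lit 6) (node (nat_lit 4)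
  (nat_lit 27505) (nat_lit 7) nil (node (nat_lit 7) (nat_lit 60513) (nat_lit 7) (node (nat_lit 4)
  (nat_lit 70882) (nat_lit 8) nil (node (nat_lit 5) (nat_lit 70210) (nat_lit 8) (node (nat_lit 4)
  (nat_lit 73110) (nat_lit 9) (node (nat_lit 5) (nat_lit 71778) (nat_lit 10) (node (nat_lit 7)
  (nat_lit 71172) (nat_lit 11) (node (nat_lit 4) (nat_lit 71597) (nat_lit 12) (node (nat_lit 5)
  (nat_lit 71261) (nat_lit 13) (node (nat_lit 4) (nat_lit 71528) (nat_lit 14) (node (nat_lit 7)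
  (nat_lit 71333) (nat_lit 15) (node (nat_lit 4) (nat_lit 69317) (nat_lit 16) (node (nat_lit 5)
  (nat_lit 65899) (nat_lit 17) (node (nat_lit 7) (nat_lit 61327) (nat_lit 18) (node (nat_lit 5)
  (nat_lit 57789) (nat_lit 19) (node (nat_lit 4) (nat_lit 46405) (nat_lit 20) nil nil) nil) nil)
  nil) nil) nil) nil) nil) nil) nil) nil) nil) (node (nat_lit 3) (nat_lit 76332) (nat_lit 8) nil
  (node (nat_lit 0) (nat_lit 77235) (nat_lit 8) nil nil)))) (node (nat_lit 3) (nat_lit 74942)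
  (nat_lit 7) nil (node (nat_lit 0) (nat_lit 75463) (nat_lit 7) nil nil)))) (node (nat_lit 3)
  (nat_lit 74615) (nat_lit 6) (node (nat_lit 4) (nat_lit 77794) (nat_lit 7) (node (nat_lit 5)
  (nat_lit 77534) (nat_lit 8) (node (nat_lit 4) (nat_lit 78514) (nat_lit 9) (node (nat_lit 7)
  (nat_lit 77855) (nat_lit 10) nil nil) nil) nil) nil) (node (nat_lit 0) (nat_lit 72811) (nat_lit
  6) (node (nat_lit 7) (nat_lit 73160) (nat_lit 7) (node (nat_lit 4) (nat_lit 75203) (nat_lit 8)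
  (node (nat_lit 5) (nat_lit 74527) (nat_lit 9) (node (nat_lit 4) (nat_lit 75202) (nat_lit 10)
  (node (nat_lit 7) (nat_lit 74706) (nat_lit 11) nil nil) nil) nil) nil) nil) nil))) (node
  (nat_lit 5) (nat_lit 47595) (nat_lit 5) (node (nat_lit 7) (nat_lit 51530) (nat_lit 6) (node
  (nat_lit 4) (nat_lit 58440) (nat_lit 7) (node (nat_lit 5) (nat_lit 63531) (nat_lit 8) (node
  (nat_lit 4) (nat_lit 65714) (nat_lit 9) (node (nat_lit 7) (nat_lit 52461) (nat_lit 10) (node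
  (nat_lit 5) (nat_lit 39474) (nat_lit 11) nil (node (nat_lit 4) (nat_lit 53136) (nat_lit 11)
  (node (nat_lit 5) (nat_lit 54021) (nat_lit 12) (node (nat_lit 7) (nat_lit 54433) (nat_lit 13)
  nil (node (nat_lit 3) (nat_lit 54433) (nat_lit 13) (node (nat_lit 4) (nat_lit 54753) (nat_lit
  14) nil nil) nil)) (node (nat_lit 3) (nat_lit 53662) (nat_lit 12) (node (nat_lit 7) (nat_lit
  54074) (nat_lit 13) (node (nat_lit 4) (nat_lit 54394) (nat_lit 14) nil nil) (node (nat_lit 4)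
  (nat_lit 54074) (nat_lit 13) (node (nat_lit 5) (nat_lit 54608) (nat_lit 14) nil nil) (node
  (nat_lit 5) (nat_lit 54270) (nat_lit 13) nil nil))) (node (nat_lit 0) (nat_lit 54021) (nat_lit
  12) (node (nat_lit 7) (nat_lit 54433) (nat_lit 13) nil nil) nil))) (node (nat_lit 3) (nat_lit
  53136) (nat_lit 11) (node (nat_lit 7) (nat_lit 53662) (nat_lit 12) (node (nat_lit 4) (nat_lit
  54074) (nat_lit 13) nil nil) (node (nat_lit 4) (nat_lit 53662) (nat_lit 12) (node (nat_lit 5)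
  (nat_lit 54270) (nat_lit 13) nil (node (nat_lit 7) (nat_lit 54074) (nat_lit 13) nil nil)) (node
  (nat_lit 5) (nat_lit 53836) (nat_lit 12) nil nil))) (node (nat_lit 0) (nat_lit 53436) (nat_lit
  11) (node (nat_lit 7) (nat_lit 53962) (nat_lit 12) (node (nat_lit 4) (nat_lit 54374) (nat_lit
  13) nil nil) (node (nat_lit 4) (nat_lit 53962) (nat_lit 12) nil (node (nat_lit 5) (nat_lit
  53991) (nat_lit 12) nil (node (nat_lit 3) (nat_lit 52997) (nat_lit 12) nil nil)))) nil)))) nil)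
  (node (nat_lit 7) (nat_lit 69340) (nat_lit 9) (node (nat_lit 5) (nat_lit 71746) (nat_lit 10)
  (node (nat_lit 4) (nat_lit 72396) (nat_lit 11) nil nil) nil) (node (nat_lit 3) (nat_lit 72368)
  (nat_lit 9) nil (node (nat_lit 0) (nat_lit 72403) (nat_lit 9) nil nil)))) (node (nat_lit 7)
  (nat_lit 68653) (nat_lit 8) (node (nat_lit 5) (nat_lit 74533) (nat_lit 9) (node (nat_lit 4)
  (nat_lit 78392) (nat_lit 10) (node (nat_lit 5) (nat_lit 80124) (nat_lit 11) (node (nat_lit 7)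
  (nat_lit 80651) (nat_lit 12) (node (nat_lit 5) (nat_lit 81062) (nat_lit 13) nil (node (nat_lit
  4) (nat_lit 80947) (nat_lit 13) (node (nat_lit 5) (nat_lit 80924) (nat_lit 14) (node (nat_lit 4)
  (nat_lit 80822) (nat_lit 15) (node (nat_lit 7) (nat_lit 79879) (nat_lit 16) (node (nat_lit 5)
  (nat_lit 78396) (nat_lit 17) (node (nat_lit 7) (nat_lit 77812) (nat_lit 18) (node (nat_lit 4)
  (nat_lit 77949) (nat_lit 19) (node (nat_lit 7) (nat_lit 62324) (nat_lit 20) (node (nat_lit 5)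
  (nat_lit 62348) (nat_lit 21) (node (nat_lit 4) (nat_lit 51689) (nat_lit 22) (node (nat_lit 5)
  (nat_lit 41663) (nat_lit 23) nil nil) nil) nil) nil) nil) nil) nil) nil) nil) nil) nil)) nil)
  (node (nat_lit 7) (nat_lit 79910) (nat_lit 11) (node (nat_lit 4) (nat_lit 80563) (nat_lit 12)
  (node (nat_lit 5) (nat_lit 80861) (nat_lit 13) (node (nat_lit 4) (nat_lit 81351) (nat_lit 14)
  (node (nat_lit 7) (nat_lit 81331) (nat_lit 15) (node (nat_lit 5) (nat_lit 80979) (nat_lit 16)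
  (node (nat_lit 7) (nat_lit 80931) (nat_lit 17) (node (nat_lit 4) (nat_lit 80907) (nat_lit 18)
  (node (nat_lit 7) (nat_lit 80899) (nat_lit 19) (node (nat_lit 5) (nat_lit 80767) (nat_lit 20)
  (node (nat_lit 4) (nat_lit 41149) (nat_lit 21) nil nil) nil) nil) nil) nil) nil) nil) nil) nil)
  nil) nil)) nil) (node (nat_lit 3) (nat_lit 78276) (nat_lit 9) nil (node (nat_lit 0) (nat_lit
  78276) (nat_lit 9) nil nil))) (node (nat_lit 3) (nat_lit 78392) (nat_lit 8) nil (node (nat_lit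
  0) (nat_lit 78392) (nat_lit 8) nil nil)))) (node (nat_lit 3) (nat_lit 74043) (nat_lit 7) (node
  (nat_lit 5) (nat_lit 74043) (nat_lit 8) (node (nat_lit 10) (nat_lit 74043) (nat_lit 9) nil nil)
  (node (nat_lit 4) (nat_lit 80400) (nat_lit 8) (node (nat_lit 5) (nat_lit 76052) (nat_lit 9)
  (node (nat_lit 4) (nat_lit 64628) (nat_lit 10) (node (nat_lit 7) (nat_lit 57832) (nat_lit 11)
  (node (nat_lit 5) (nat_lit 40012) (nat_lit 12) (node (nat_lit 7) (nat_lit 40094) (nat_lit 13)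
  nil nil) nil) nil) nil) nil) nil)) (node (nat_lit 0) (nat_lit 78531) (nat_lit 7) nil nil)))
  (node (nat_lit 3) (nat_lit 71706) (nat_lit 6) (node (nat_lit 4) (nat_lit 74353) (nat_lit 7)
  (node (nat_lit 7) (nat_lit 76824) (nat_lit 8) (node (nat_lit 4) (nat_lit 77616) (nat_lit 9)
  (node (nat_lit 5) (nat_lit 76957) (nat_lit 10) nil nil) (node (nat_lit 9) (nat_lit 73524)
  (nat_lit 9) nil nil)) (node (nat_lit 5) (nat_lit 67979) (nat_lit 8) (node (nat_lit 4) (nat_lit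
  61282) (nat_lit 9) (node (nat_lit 7) (nat_lit 40415) (nat_lit 10) nil nil) nil) nil)) (node
  (nat_lit 7) (nat_lit 74551) (nat_lit 7) (node (nat_lit 4) (nat_lit 79033) (nat_lit 8) (node
  (nat_lit 5) (nat_lit 73745) (nat_lit 9) (node (nat_lit 4) (nat_lit 63368) (nat_lit 10) (node
  (nat_lit 7) (nat_lit 57219) (nat_lit 11) (node (nat_lit 5) (nat_lit 39298) (nat_lit 12) nil nil)
  nil) nil) nil) (node (nat_lit 5) (nat_lit 74551) (nat_lit 8) nil nil)) (node (nat_lit 5)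
  (nat_lit 74551) (nat_lit 7) (node (nat_lit 7) (nat_lit 74551) (nat_lit 8) nil nil) nil))) (node
  (nat_lit 4) (nat_lit 51548) (nat_lit 6) (node (nat_lit 5) (nat_lit 60993) (nat_lit 7) (node
  (nat_lit 7) (nat_lit 70051) (nat_lit 8) (node (nat_lit 4) (nat_lit 71409) (nat_lit 9) (node
  (nat_lit 5) (nat_lit 66363) (nat_lit 10) (node (nat_lit 4) (nat_lit 67334) (nat_lit 11) (node
  (nat_lit 7) (nat_lit 67255) (nat_lit 12) (node (nat_lit 5) (nat_lit 56049) (nat_lit 13) (node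
  (nat_lit 4) (nat_lit 32380) (nat_lit 14) nil nil) nil) nil) nil) nil) nil) (node (nat_lit 3)
  (nat_lit 72263) (nat_lit 8) nil nil)) (node (nat_lit 3) (nat_lit 77040) (nat_lit 7) nil (node
  (nat_lit 0) (nat_lit 72874) (nat_lit 7) nil nil))) (node (nat_lit 0) (nat_lit 75141) (nat_lit 6)
  (node (nat_lit 4) (nat_lit 78561) (nat_lit 7) nil nil) nil)))) (node (nat_lit 3) (nat_lit 67733)
  (nat_lit 5) (node (nat_lit 4) (nat_lit 65234) (nat_lit 6) (node (nat_lit 8) (nat_lit 69138)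
  (nat_lit 7) nil (node (nat_lit 7) (nat_lit 68930) (nat_lit 7) nil (node (nat_lit 5) (nat_lit
  61889) (nat_lit 7) (node (nat_lit 4) (nat_lit 40165) (nat_lit 8) nil nil) nil))) (node (nat_lit
  7) (nat_lit 70809) (nat_lit 6) (node (nat_lit 4) (nat_lit 76643) (nat_lit 7) (node (nat_lit 5)
  (nat_lit 67205) (nat_lit 8) (node (nat_lit 4) (nat_lit 57207) (nat_lit 9) (node (nat_lit 7)
  (nat_lit 36917) (nat_lit 10) nil nil) nil) nil) nil) (node (nat_lit 5) (nat_lit 71313) (nat_lit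
  6) (node (nat_lit 7) (nat_lit 73891) (nat_lit 7) (node (nat_lit 4) (nat_lit 74240) (nat_lit 8)
  (node (nat_lit 5) (nat_lit 69032) (nat_lit 9) nil nil) nil) (node (nat_lit 8) (nat_lit 72488)
  (nat_lit 7) (node (nat_lit 4) (nat_lit 74842) (nat_lit 8) (node (nat_lit 5) (nat_lit 73443)
  (nat_lit 9) (node (nat_lit 4) (nat_lit 69085) (nat_lit 10) (node (nat_lit 7) (nat_lit 59123)
  (nat_lit 11) (node (nat_lit 8) (nat_lit 35627) (nat_lit 12) nil nil) nil) nil) nil) nil) nil))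
  nil))) (node (nat_lit 0) (nat_lit 70047) (nat_lit 5) (node (nat_lit 7) (nat_lit 76721) (nat_lit
  6) (node (nat_lit 4) (nat_lit 78666) (nat_lit 7) nil nil) (node (nat_lit 3) (nat_lit 77025)
  (nat_lit 6) nil nil)) nil)))) (node (nat_lit 0) (nat_lit 0) (nat_lit 4) (node (nat_lit 5)
  (nat_lit 72202) (nat_lit 5) nil (node (nat_lit 4) (nat_lit 72191) (nat_lit 5) nil (node (nat_lit
  3) (nat_lit 72362) (nat_lit 5) (node (nat_lit 4) (nat_lit 74807) (nat_lit 6) (node (nat_lit 5)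
  (nat_lit 73922) (nat_lit 7) (node (nat_lit 4) (nat_lit 75201) (nat_lit 8) nil nil) nil) nil)
  (node (nat_lit 0) (nat_lit 72343) (nat_lit 5) nil nil)))) nil)) (node (nat_lit 0) (nat_lit 0)
  (nat_lit 3) (node (nat_lit 5) (nat_lit 0) (nat_lit 4) (node (nat_lit 4) (nat_lit 72106) (nat_lit
  5) (node (nat_lit 6) (nat_lit 73474) (nat_lit 6) nil (node (nat_lit 3) (nat_lit 70952) (nat_lit
  6) (node (nat_lit 4) (nat_lit 72839) (nat_lit 7) (node (nat_lit 5) (nat_lit 72090) (nat_lit 8)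
  nil nil) nil) (node (nat_lit 5) (nat_lit 73474) (nat_lit 6) (node (nat_lit 3) (nat_lit 69947)
  (nat_lit 7) nil nil) nil))) (node (nat_lit 3) (nat_lit 65538) (nat_lit 5) (node (nat_lit 6)
  (nat_lit 70172) (nat_lit 6) (node (nat_lit 8) (nat_lit 70172) (nat_lit 7) nil nil) (node
  (nat_lit 4) (nat_lit 68327) (nat_lit 6) (node (nat_lit 5) (nat_lit 58319) (nat_lit 7) (node
  (nat_lit 6) (nat_lit 38134) (nat_lit 8) nil (node (nat_lit 4) (nat_lit 59256) (nat_lit 8) nil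
  nil)) (node (nat_lit 8) (nat_lit 68327) (nat_lit 7) nil (node (nat_lit 6) (nat_lit 68661)
  (nat_lit 7) nil (node (nat_lit 3) (nat_lit 68327) (nat_lit 7) nil nil)))) (node (nat_lit 3)
  (nat_lit 65538) (nat_lit 6) (node (nat_lit 4) (nat_lit 64267) (nat_lit 7) (node (nat_lit 5)
  (nat_lit 57000) (nat_lit 8) (node (nat_lit 6) (nat_lit 36564) (nat_lit 9) nil nil) nil) (node
  (nat_lit 8) (nat_lit 65538) (nat_lit 7) (node (nat_lit 4) (nat_lit 65185) (nat_lit 8) nil nil)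
  nil)) (node (nat_lit 5) (nat_lit 65538) (nat_lit 6) (node (nat_lit 6) (nat_lit 68661) (nat_lit
  7) (node (nat_lit 8) (nat_lit 68661) (nat_lit 8) nil nil) nil) (node (nat_lit 0) (nat_lit 68327)
  (nat_lit 6) nil nil))))) (node (nat_lit 0) (nat_lit 70889) (nat_lit 5) (node (nat_lit 3)
  (nat_lit 69751) (nat_lit 6) (node (nat_lit 4) (nat_lit 71699) (nat_lit 7) nil nil) nil) nil)))
  (node (nat_lit 3) (nat_lit 0) (nat_lit 4) (node (nat_lit 4) (nat_lit 70150) (nat_lit 5) (node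
  (nat_lit 7) (nat_lit 69314) (nat_lit 6) (node (nat_lit 5) (nat_lit 65372) (nat_lit 7) (node
  (nat_lit 6) (nat_lit 66775) (nat_lit 8) (node (nat_lit 7) (nat_lit 65967) (nat_lit 9) nil nil)
  nil) nil) (node (nat_lit 6) (nat_lit 70627) (nat_lit 6) nil (node (nat_lit 5) (nat_lit 69184)
  (nat_lit 6) (node (nat_lit 6) (nat_lit 32627) (nat_lit 7) nil nil) nil))) (node (nat_lit 6)
  (nat_lit 71673) (nat_lit 5) (node (nat_lit 5) (nat_lit 71673) (nat_lit 6) (node (nat_lit 7)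
  (nat_lit 71673) (nat_lit 7) (node (nat_lit 4) (nat_lit 72497) (nat_lit 8) (node (nat_lit 5)
  (nat_lit 69352) (nat_lit 9) (node (nat_lit 6) (nat_lit 58104) (nat_lit 10) nil nil) nil) nil)
  nil) (node (nat_lit 4) (nat_lit 71148) (nat_lit 6) (node (nat_lit 7) (nat_lit 70243) (nat_lit 7)
  nil nil) nil)) (node (nat_lit 5) (nat_lit 65131) (nat_lit 5) (node (nat_lit 7) (nat_lit 65131)
  (nat_lit 6) (node (nat_lit 6) (nat_lit 67922) (nat_lit 7) nil (node (nat_lit 4) (nat_lit 64720)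
  (nat_lit 7) nil nil)) (node (nat_lit 6) (nat_lit 69433) (nat_lit 6) (node (nat_lit 5) (nat_lit
  69433) (nat_lit 7) (node (nat_lit 7) (nat_lit 68990) (nat_lit 8) nil nil) nil) (node (nat_lit 4)
  (nat_lit 67588) (nat_lit 6) nil (node (nat_lit 3) (nat_lit 65131) (nat_lit 6) nil nil)))) (node
  (nat_lit 3) (nat_lit 65092) (nat_lit 5) (node (nat_lit 7) (nat_lit 63737) (nat_lit 6) nil (node
  (nat_lit 4) (nat_lit 60909) (nat_lit 6) (node (nat_lit 5) (nat_lit 37251) (nat_lit 7) nil (node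
  (nat_lit 7) (nat_lit 63040) (nat_lit 7) nil nil)) (node (nat_lit 5) (nat_lit 63924) (nat_lit 6)
  (node (nat_lit 8) (nat_lit 59382) (nat_lit 7) nil nil) nil))) (node (nat_lit 0) (nat_lit 68890)
  (nat_lit 5) nil nil))))) (node (nat_lit 4) (nat_lit 0) (nat_lit 4) (node (nat_lit 6) (nat_lit
  73015) (nat_lit 5) (node (nat_lit 5) (nat_lit 71559) (nat_lit 6) nil (node (nat_lit 3) (nat_lit
  71861) (nat_lit 6) (node (nat_lit 4) (nat_lit 73474) (nat_lit 7) (node (nat_lit 5) (nat_lit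
  73118) (nat_lit 8) (node (nat_lit 6) (nat_lit 73474) (nat_lit 9) nil nil) nil) nil) nil)) (node
  (nat_lit 3) (nat_lit 69678) (nat_lit 5) (node (nat_lit 4) (nat_lit 72603) (nat_lit 6) (node
  (nat_lit 5) (nat_lit 71698) (nat_lit 7) (node (nat_lit 6) (nat_lit 73100) (nat_lit 8) (node
  (nat_lit 4) (nat_lit 33102) (nat_lit 9) nil nil) nil) nil) nil) (node (nat_lit 5) (nat_lit
  72798) (nat_lit 5) (node (nat_lit 4) (nat_lit 73474) (nat_lit 6) nil (node (nat_lit 3) (nat_lit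
  71803) (nat_lit 6) nil nil)) (node (nat_lit 0) (nat_lit 71326) (nat_lit 5) (node (nat_lit 3)
  (nat_lit 70172) (nat_lit 6) (node (nat_lit 4) (nat_lit 72303) (nat_lit 7) nil nil) nil) nil))))
  (node (nat_lit 0) (nat_lit 0) (nat_lit 4) (node (nat_lit 6) (nat_lit 72819) (nat_lit 5) nil
  (node (nat_lit 3) (nat_lit 70623) (nat_lit 5) (node (nat_lit 4) (nat_lit 73474) (nat_lit 6) nil
  (node (nat_lit 3) (nat_lit 69331) (nat_lit 6) nil nil)) (node (nat_lit 5) (nat_lit 71395)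
  (nat_lit 5) nil (node (nat_lit 4) (nat_lit 69670) (nat_lit 5) nil (node (nat_lit 0) (nat_lit
  67130) (nat_lit 5) nil nil))))) nil)))) nil))) nil))

noncomputable def t40 : Tr :=
  (node (nat_lit 4) (nat_lit 38230) (nat_lit 8) (node (nat_lit 5) (nat_lit 38402) (nat_lit 9)
  (node (nat_lit 6) (nat_lit 39982) (nat_lit 10) (node (nat_lit 5) (nat_lit 39982) (nat_lit 11)
  (node (nat_lit 4) (nat_lit 39982) (nat_lit 12) (node (nat_lit 5) (nat_lit 39982) (nat_lit 13)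
  (node (nat_lit 6) (nat_lit 40300) (nat_lit 14) (node (nat_lit 4) (nat_lit 40300) (nat_lit 15)
  (node (nat_lit 5) (nat_lit 40300) (nat_lit 16) (node (nat_lit 4) (nat_lit 40300) (nat_lit 17)
  (node (nat_lit 6) (nat_lit 40318) (nat_lit 18) (node (nat_lit 4) (nat_lit 40318) (nat_lit 19)
  (node (nat_lit 5) (nat_lit 40318) (nat_lit 20) (node (nat_lit 6) (nat_lit 24147) (nat_lit 21)
  nil nil) nil) (node (nat_lit 5) (nat_lit 40318) (nat_lit 19) nil nil)) nil) nil) (node (nat_lit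
  6) (nat_lit 40318) (nat_lit 16) (node (nat_lit 5) (nat_lit 40318) (nat_lit 17) (node (nat_lit 4)
  (nat_lit 40318) (nat_lit 18) (node (nat_lit 5) (nat_lit 40318) (nat_lit 19) (node (nat_lit 6)
  (nat_lit 40318) (nat_lit 20) nil nil) nil) nil) nil) (node (nat_lit 3) (nat_lit 40300) (nat_lit
  16) (node (nat_lit 4) (nat_lit 40300) (nat_lit 17) (node (nat_lit 5) (nat_lit 40300) (nat_lit
  18) nil nil) (node (nat_lit 5) (nat_lit 40300) (nat_lit 17) nil nil)) nil))) (node (nat_lit 3)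
  (nat_lit 40300) (nat_lit 15) (node (nat_lit 4) (nat_lit 40300) (nat_lit 16) (node (nat_lit 5)
  (nat_lit 40300) (nat_lit 17) nil nil) (node (nat_lit 5) (nat_lit 40300) (nat_lit 16) nil nil))
  (node (nat_lit 0) (nat_lit 40318) (nat_lit 15) (node (nat_lit 5) (nat_lit 40318) (nat_lit 16)
  nil nil) nil))) (node (nat_lit 3) (nat_lit 39982) (nat_lit 14) (node (nat_lit 4) (nat_lit 39982)
  (nat_lit 15) (node (nat_lit 5) (nat_lit 39982) (nat_lit 16) (node (nat_lit 6) (nat_lit 40318)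
  (nat_lit 17) (node (nat_lit 4) (nat_lit 40318) (nat_lit 18) nil nil) nil) nil) (node (nat_lit 5)
  (nat_lit 39982) (nat_lit 15) (node (nat_lit 4) (nat_lit 39982) (nat_lit 16) (node (nat_lit 5)
  (nat_lit 39982) (nat_lit 17) nil nil) nil) (node (nat_lit 6) (nat_lit 40318) (nat_lit 15) (node
  (nat_lit 5) (nat_lit 40318) (nat_lit 16) nil nil) nil))) (node (nat_lit 0) (nat_lit 40300)
  (nat_lit 14) (node (nat_lit 4) (nat_lit 40300) (nat_lit 15) nil (node (nat_lit 5) (nat_lit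
  40300) (nat_lit 15) (node (nat_lit 4) (nat_lit 40300) (nat_lit 16) nil nil) (node (nat_lit 6)
  (nat_lit 40318) (nat_lit 15) (node (nat_lit 5) (nat_lit 40318) (nat_lit 16) nil nil) nil)))
  nil))) (node (nat_lit 6) (nat_lit 40255) (nat_lit 13) (node (nat_lit 5) (nat_lit 40255) (nat_lit
  14) (node (nat_lit 6) (nat_lit 40318) (nat_lit 15) (node (nat_lit 4) (nat_lit 40318) (nat_lit
  16) nil nil) nil) (node (nat_lit 4) (nat_lit 40255) (nat_lit 14) nil nil)) (node (nat_lit 3)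
  (nat_lit 39982) (nat_lit 13) (node (nat_lit 5) (nat_lit 39982) (nat_lit 14) (node (nat_lit 4)
  (nat_lit 39982) (nat_lit 15) nil nil) (node (nat_lit 4) (nat_lit 39982) (nat_lit 14) (node
  (nat_lit 5) (nat_lit 39982) (nat_lit 15) nil nil) (node (nat_lit 6) (nat_lit 40300) (nat_lit 14)
  (node (nat_lit 5) (nat_lit 40300) (nat_lit 15) nil nil) nil))) (node (nat_lit 0) (nat_lit 40255)
  (nat_lit 13) (node (nat_lit 5) (nat_lit 40255) (nat_lit 14) (node (nat_lit 4) (nat_lit 40255)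
  (nat_lit 15) nil nil) nil) nil)))) (node (nat_lit 3) (nat_lit 39982) (nat_lit 12) (node (nat_lit
  6) (nat_lit 40255) (nat_lit 13) (node (nat_lit 5) (nat_lit 40255) (nat_lit 14) (node (nat_lit 4)
  (nat_lit 40255) (nat_lit 15) nil nil) nil) (node (nat_lit 5) (nat_lit 39982) (nat_lit 13) (node
  (nat_lit 4) (nat_lit 39982) (nat_lit 14) nil nil) (node (nat_lit 4) (nat_lit 39982) (nat_lit 13)
  nil nil))) (node (nat_lit 0) (nat_lit 40192) (nat_lit 12) (node (nat_lit 6) (nat_lit 40255)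
  (nat_lit 13) (node (nat_lit 5) (nat_lit 40255) (nat_lit 14) nil nil) (node (nat_lit 5) (nat_lit
  40192) (nat_lit 13) (node (nat_lit 4) (nat_lit 40192) (nat_lit 14) nil nil) nil)) nil))) (node
  (nat_lit 4) (nat_lit 39982) (nat_lit 11) (node (nat_lit 6) (nat_lit 40192) (nat_lit 12) (node
  (nat_lit 5) (nat_lit 40192) (nat_lit 13) (node (nat_lit 4) (nat_lit 40192) (nat_lit 14) (node
  (nat_lit 5) (nat_lit 40192) (nat_lit 15) (node (nat_lit 6) (nat_lit 40318) (nat_lit 16) (node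
  (nat_lit 4) (nat_lit 40318) (nat_lit 17) (node (nat_lit 5) (nat_lit 40318) (nat_lit 18) (node
  (nat_lit 4) (nat_lit 40318) (nat_lit 19) (node (nat_lit 6) (nat_lit 40318) (nat_lit 20) (node
  (nat_lit 4) (nat_lit 40318) (nat_lit 21) (node (nat_lit 5) (nat_lit 40318) (nat_lit 22) (node
  (nat_lit 6) (nat_lit 40318) (nat_lit 23) nil nil) nil) nil) nil) nil) nil) (node (nat_lit 5)
  (nat_lit 40318) (nat_lit 17) (node (nat_lit 4) (nat_lit 40318) (nat_lit 18) nil nil) nil)) nil)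
  (node (nat_lit 6) (nat_lit 40318) (nat_lit 15) nil nil)) nil) (node (nat_lit 3) (nat_lit 40192)
  (nat_lit 13) (node (nat_lit 4) (nat_lit 40192) (nat_lit 14) nil (node (nat_lit 5) (nat_lit
  40192) (nat_lit 14) nil (node (nat_lit 6) (nat_lit 40300) (nat_lit 14) nil nil))) (node (nat_lit
  0) (nat_lit 40255) (nat_lit 13) (node (nat_lit 5) (nat_lit 40255) (nat_lit 14) nil nil) nil)))
  (node (nat_lit 0) (nat_lit 40192) (nat_lit 12) (node (nat_lit 5) (nat_lit 40192) (nat_lit 13)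
  (node (nat_lit 4) (nat_lit 40192) (nat_lit 14) nil nil) nil) (node (nat_lit 3) (nat_lit 39982)
  (nat_lit 12) (node (nat_lit 6) (nat_lit 40255) (nat_lit 13) (node (nat_lit 5) (nat_lit 40255)
  (nat_lit 14) nil nil) (node (nat_lit 4) (nat_lit 39982) (nat_lit 13) (node (nat_lit 5) (nat_lit
  39982) (nat_lit 14) nil nil) (node (nat_lit 5) (nat_lit 39982) (nat_lit 13) (node (nat_lit 4)
  (nat_lit 39982) (nat_lit 14) nil nil) nil))) nil))) (node (nat_lit 0) (nat_lit 40114) (nat_lit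
  11) (node (nat_lit 6) (nat_lit 40192) (nat_lit 12) (node (nat_lit 5) (nat_lit 40192) (nat_lit
  13) (node (nat_lit 4) (nat_lit 40192) (nat_lit 14) nil nil) nil) (node (nat_lit 5) (nat_lit
  40114) (nat_lit 12) (node (nat_lit 6) (nat_lit 40255) (nat_lit 13) (node (nat_lit 5) (nat_lit
  40255) (nat_lit 14) nil nil) (node (nat_lit 4) (nat_lit 40114) (nat_lit 13) nil nil)) (node
  (nat_lit 4) (nat_lit 40114) (nat_lit 12) nil (node (nat_lit 3) (nat_lit 40114) (nat_lit 12) nil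
  nil)))) (node (nat_lit 3) (nat_lit 39982) (nat_lit 11) (node (nat_lit 6) (nat_lit 40192)
  (nat_lit 12) (node (nat_lit 5) (nat_lit 40192) (nat_lit 13) (node (nat_lit 4) (nat_lit 40192)
  (nat_lit 14) nil nil) nil) (node (nat_lit 5) (nat_lit 39982) (nat_lit 12) (node (nat_lit 6)
  (nat_lit 40255) (nat_lit 13) (node (nat_lit 5) (nat_lit 40255) (nat_lit 14) nil nil) (node
  (nat_lit 4) (nat_lit 39982) (nat_lit 13) nil (node (nat_lit 14) (nat_lit 39982) (nat_lit 13) nil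
  nil))) (node (nat_lit 4) (nat_lit 39982) (nat_lit 12) (node (nat_lit 5) (nat_lit 39982) (nat_lit
  13) (node (nat_lit 6) (nat_lit 40300) (nat_lit 14) nil nil) nil) nil))) nil)))) (node (nat_lit
  3) (nat_lit 38402) (nat_lit 10) (node (nat_lit 5) (nat_lit 38402) (nat_lit 11) (node (nat_lit 6)
  (nat_lit 39700) (nat_lit 12) nil (node (nat_lit 4) (nat_lit 38402) (nat_lit 12) (node (nat_lit
  5) (nat_lit 38402) (nat_lit 13) nil nil) nil)) (node (nat_lit 4) (nat_lit 38402) (nat_lit 11)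
  (node (nat_lit 5) (nat_lit 38402) (nat_lit 12) (node (nat_lit 6) (nat_lit 39815) (nat_lit 13)
  (node (nat_lit 4) (nat_lit 39791) (nat_lit 14) nil nil) nil) (node (nat_lit 6) (nat_lit 39700)
  (nat_lit 12) nil (node (nat_lit 13) (nat_lit 38402) (nat_lit 12) nil nil))) (node (nat_lit 6)
  (nat_lit 39805) (nat_lit 11) (node (nat_lit 5) (nat_lit 39805) (nat_lit 12) nil nil) (node
  (nat_lit 0) (nat_lit 39552) (nat_lit 11) (node (nat_lit 5) (nat_lit 39552) (nat_lit 12) nil nil)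
  nil)))) (node (nat_lit 0) (nat_lit 39870) (nat_lit 10) (node (nat_lit 4) (nat_lit 39870)
  (nat_lit 11) (node (nat_lit 5) (nat_lit 39870) (nat_lit 12) nil nil) (node (nat_lit 6) (nat_lit
  40059) (nat_lit 11) (node (nat_lit 5) (nat_lit 40059) (nat_lit 12) nil nil) (node (nat_lit 5)
  (nat_lit 39870) (nat_lit 11) (node (nat_lit 4) (nat_lit 39870) (nat_lit 12) (node (nat_lit 5)
  (nat_lit 39870) (nat_lit 13) nil nil) (node (nat_lit 6) (nat_lit 40192) (nat_lit 12) nil nil))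
  (node (nat_lit 3) (nat_lit 39870) (nat_lit 11) (node (nat_lit 5) (nat_lit 39870) (nat_lit 12)
  nil nil) (node (nat_lit 0) (nat_lit 40059) (nat_lit 11) nil nil))))) nil))) (node (nat_lit 0)
  (nat_lit 39629) (nat_lit 9) (node (nat_lit 6) (nat_lit 39872) (nat_lit 10) (node (nat_lit 5)
  (nat_lit 39872) (nat_lit 11) (node (nat_lit 4) (nat_lit 39872) (nat_lit 12) nil nil) (node
  (nat_lit 4) (nat_lit 39872) (nat_lit 11) (node (nat_lit 6) (nat_lit 40192) (nat_lit 12) nil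
  (node (nat_lit 5) (nat_lit 39872) (nat_lit 12) nil nil)) (node (nat_lit 12) (nat_lit 40062)
  (nat_lit 11) nil nil))) (node (nat_lit 4) (nat_lit 39629) (nat_lit 10) (node (nat_lit 6)
  (nat_lit 40062) (nat_lit 11) (node (nat_lit 5) (nat_lit 40062) (nat_lit 12) nil nil) (node
  (nat_lit 5) (nat_lit 39629) (nat_lit 11) nil (node (nat_lit 3) (nat_lit 39629) (nat_lit 11)
  (node (nat_lit 4) (nat_lit 39629) (nat_lit 12) nil nil) nil))) (node (nat_lit 5) (nat_lit 39629)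
  (nat_lit 10) (node (nat_lit 4) (nat_lit 39629) (nat_lit 11) (node (nat_lit 5) (nat_lit 39629)
  (nat_lit 12) (node (nat_lit 6) (nat_lit 40255) (nat_lit 13) (node (nat_lit 4) (nat_lit 40255)
  (nat_lit 14) nil nil) nil) nil) (node (nat_lit 12) (nat_lit 40062) (nat_lit 11) nil (node
  (nat_lit 6) (nat_lit 40062) (nat_lit 11) (node (nat_lit 5) (nat_lit 40062) (nat_lit 12) nil nil)
  nil))) (node (nat_lit 3) (nat_lit 39629) (nat_lit 10) (node (nat_lit 4) (nat_lit 39629) (nat_lit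
  11) nil (node (nat_lit 5) (nat_lit 39629) (nat_lit 11) nil nil)) (node (nat_lit 0) (nat_lit
  39872) (nat_lit 10) (node (nat_lit 5) (nat_lit 39872) (nat_lit 11) nil nil) nil))))) (node
  (nat_lit 3) (nat_lit 38402) (nat_lit 9) (node (nat_lit 6) (nat_lit 39857) (nat_lit 10) (node
  (nat_lit 5) (nat_lit 39857) (nat_lit 11) (node (nat_lit 4) (nat_lit 39857) (nat_lit 12) nil nil)
  (node (nat_lit 4) (nat_lit 39857) (nat_lit 11) nil (node (nat_lit 12) (nat_lit 39857) (nat_lit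
  11) (node (nat_lit 4) (nat_lit 39857) (nat_lit 12) (node (nat_lit 5) (nat_lit 39857) (nat_lit
  13) nil nil) (node (nat_lit 5) (nat_lit 39857) (nat_lit 12) nil nil)) nil))) (node (nat_lit 5)
  (nat_lit 38402) (nat_lit 10) (node (nat_lit 4) (nat_lit 38402) (nat_lit 11) (node (nat_lit 5)
  (nat_lit 38402) (nat_lit 12) (node (nat_lit 6) (nat_lit 39784) (nat_lit 13) (node (nat_lit 4)
  (nat_lit 39231) (nat_lit 14) nil nil) nil) nil) (node (nat_lit 12) (nat_lit 38402) (nat_lit 11)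
  (node (nat_lit 4) (nat_lit 38402) (nat_lit 12) (node (nat_lit 5) (nat_lit 38402) (nat_lit 13)
  nil nil) (node (nat_lit 6) (nat_lit 39700) (nat_lit 12) (node (nat_lit 5) (nat_lit 39700)
  (nat_lit 13) nil nil) nil)) (node (nat_lit 6) (nat_lit 39552) (nat_lit 11) nil nil))) (node
  (nat_lit 4) (nat_lit 38402) (nat_lit 10) (node (nat_lit 5) (nat_lit 38402) (nat_lit 11) (node
  (nat_lit 6) (nat_lit 39700) (nat_lit 12) (node (nat_lit 4) (nat_lit 39700) (nat_lit 13) (node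
  (nat_lit 5) (nat_lit 28149) (nat_lit 14) nil nil) nil) nil) (node (nat_lit 6) (nat_lit 39552)
  (nat_lit 11) (node (nat_lit 5) (nat_lit 39552) (nat_lit 12) nil (node (nat_lit 12) (nat_lit
  39552) (nat_lit 12) (node (nat_lit 4) (nat_lit 39552) (nat_lit 13) nil nil) nil)) nil)) (node
  (nat_lit 0) (nat_lit 39624) (nat_lit 10) (node (nat_lit 12) (nat_lit 39624) (nat_lit 11) nil
  (node (nat_lit 5) (nat_lit 39624) (nat_lit 11) nil nil)) nil)))) nil))) (node (nat_lit 5)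
  (nat_lit 38073) (nat_lit 8) (node (nat_lit 4) (nat_lit 38402) (nat_lit 9) (node (nat_lit 5)
  (nat_lit 38402) (nat_lit 10) (node (nat_lit 6) (nat_lit 40046) (nat_lit 11) (node (nat_lit 4)
  (nat_lit 40046) (nat_lit 12) (node (nat_lit 5) (nat_lit 40046) (nat_lit 13) (node (nat_lit 4)
  (nat_lit 40046) (nat_lit 14) (node (nat_lit 6) (nat_lit 24147) (nat_lit 15) nil nil) nil) nil)
  (node (nat_lit 5) (nat_lit 40046) (nat_lit 12) (node (nat_lit 4) (nat_lit 40046) (nat_lit 13)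
  (node (nat_lit 6) (nat_lit 40234) (nat_lit 14) nil nil) nil) (node (nat_lit 3) (nat_lit 40046)
  (nat_lit 12) nil nil))) (node (nat_lit 3) (nat_lit 38402) (nat_lit 11) (node (nat_lit 6)
  (nat_lit 39806) (nat_lit 12) nil (node (nat_lit 4) (nat_lit 38402) (nat_lit 12) (node (nat_lit
  5) (nat_lit 38402) (nat_lit 13) nil nil) (node (nat_lit 5) (nat_lit 38402) (nat_lit 12) nil
  nil))) (node (nat_lit 0) (nat_lit 39878) (nat_lit 11) (node (nat_lit 5) (nat_lit 39878) (nat_lit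
  12) nil nil) nil))) (node (nat_lit 3) (nat_lit 38402) (nat_lit 10) (node (nat_lit 6) (nat_lit
  39729) (nat_lit 11) (node (nat_lit 5) (nat_lit 39729) (nat_lit 12) nil nil) (node (nat_lit 5)
  (nat_lit 38402) (nat_lit 11) (node (nat_lit 4) (nat_lit 38402) (nat_lit 12) nil (node (nat_lit
  13) (nat_lit 38402) (nat_lit 12) nil nil)) (node (nat_lit 4) (nat_lit 38402) (nat_lit 11) (node
  (nat_lit 5) (nat_lit 38402) (nat_lit 12) nil nil) nil))) (node (nat_lit 0) (nat_lit 39820)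
  (nat_lit 10) (node (nat_lit 5) (nat_lit 39820) (nat_lit 11) (node (nat_lit 4) (nat_lit 39820)
  (nat_lit 12) nil nil) nil) nil))) (node (nat_lit 6) (nat_lit 39643) (nat_lit 9) (node (nat_lit
  4) (nat_lit 39643) (nat_lit 10) (node (nat_lit 6) (nat_lit 40114) (nat_lit 11) (node (nat_lit 5)
  (nat_lit 40114) (nat_lit 12) (node (nat_lit 4) (nat_lit 40114) (nat_lit 13) nil nil) nil) (node
  (nat_lit 3) (nat_lit 39643) (nat_lit 11) (node (nat_lit 4) (nat_lit 39643) (nat_lit 12) nil nil)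
  nil)) (node (nat_lit 3) (nat_lit 39643) (nat_lit 10) (node (nat_lit 5) (nat_lit 39643) (nat_lit
  11) nil (node (nat_lit 6) (nat_lit 40076) (nat_lit 11) (node (nat_lit 5) (nat_lit 40076)
  (nat_lit 12) nil nil) (node (nat_lit 4) (nat_lit 39643) (nat_lit 11) (node (nat_lit 5) (nat_lit
  39643) (nat_lit 12) nil nil) nil))) (node (nat_lit 0) (nat_lit 39970) (nat_lit 10) (node
  (nat_lit 5) (nat_lit 39970) (nat_lit 11) nil nil) nil))) (node (nat_lit 3) (nat_lit 38402)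
  (nat_lit 9) (node (nat_lit 6) (nat_lit 39779) (nat_lit 10) (node (nat_lit 5) (nat_lit 39779)
  (nat_lit 11) (node (nat_lit 6) (nat_lit 39950) (nat_lit 12) nil nil) nil) (node (nat_lit 4)
  (nat_lit 38402) (nat_lit 10) (node (nat_lit 5) (nat_lit 38402) (nat_lit 11) (node (nat_lit 6)
  (nat_lit 39700) (nat_lit 12) (node (nat_lit 4) (nat_lit 39700) (nat_lit 13) nil nil) nil) nil)
  (node (nat_lit 5) (nat_lit 38402) (nat_lit 10) (node (nat_lit 4) (nat_lit 38402) (nat_lit 11)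
  (node (nat_lit 5) (nat_lit 38402) (nat_lit 12) nil nil) nil) nil))) (node (nat_lit 0) (nat_lit
  39629) (nat_lit 9) (node (nat_lit 6) (nat_lit 39920) (nat_lit 10) (node (nat_lit 5) (nat_lit
  39920) (nat_lit 11) nil nil) (node (nat_lit 5) (nat_lit 39629) (nat_lit 10) (node (nat_lit 4)
  (nat_lit 39629) (nat_lit 11) (node (nat_lit 5) (nat_lit 39629) (nat_lit 12) nil nil) nil) (node
  (nat_lit 4) (nat_lit 39629) (nat_lit 10) nil nil))) nil)))) (node (nat_lit 3) (nat_lit 38910)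
  (nat_lit 8) (node (nat_lit 5) (nat_lit 38910) (nat_lit 9) (node (nat_lit 11) (nat_lit 38910)
  (nat_lit 10) (node (nat_lit 4) (nat_lit 38910) (nat_lit 11) (node (nat_lit 5) (nat_lit 38910)
  (nat_lit 12) nil nil) nil) (node (nat_lit 4) (nat_lit 38910) (nat_lit 10) (node (nat_lit 5)
  (nat_lit 38910) (nat_lit 11) (node (nat_lit 6) (nat_lit 39829) (nat_lit 12) (node (nat_lit 4)
  (nat_lit 39806) (nat_lit 13) nil nil) nil) nil) (node (nat_lit 6) (nat_lit 39606) (nat_lit 10)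
  nil nil))) (node (nat_lit 4) (nat_lit 38910) (nat_lit 9) (node (nat_lit 5) (nat_lit 38910)
  (nat_lit 10) (node (nat_lit 6) (nat_lit 39742) (nat_lit 11) (node (nat_lit 4) (nat_lit 39742)
  (nat_lit 12) nil nil) nil) (node (nat_lit 6) (nat_lit 39606) (nat_lit 10) (node (nat_lit 5)
  (nat_lit 39606) (nat_lit 11) nil nil) (node (nat_lit 11) (nat_lit 38910) (nat_lit 10) (node
  (nat_lit 5) (nat_lit 38910) (nat_lit 11) nil nil) nil))) (node (nat_lit 6) (nat_lit 39718)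
  (nat_lit 9) (node (nat_lit 5) (nat_lit 39718) (nat_lit 10) (node (nat_lit 4) (nat_lit 39718)
  (nat_lit 11) nil nil) nil) (node (nat_lit 0) (nat_lit 39589) (nat_lit 9) (node (nat_lit 11)
  (nat_lit 39589) (nat_lit 10) nil (node (nat_lit 5) (nat_lit 39589) (nat_lit 10) nil nil))
  nil)))) (node (nat_lit 0) (nat_lit 39525) (nat_lit 8) (node (nat_lit 6) (nat_lit 39819) (nat_lit
  9) (node (nat_lit 5) (nat_lit 39819) (nat_lit 10) (node (nat_lit 4) (nat_lit 39819) (nat_lit 11)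
  nil nil) nil) (node (nat_lit 4) (nat_lit 39525) (nat_lit 9) (node (nat_lit 6) (nat_lit 39924)
  (nat_lit 10) nil nil) (node (nat_lit 3) (nat_lit 39525) (nat_lit 9) (node (nat_lit 4) (nat_lit
  39525) (nat_lit 10) (node (nat_lit 5) (nat_lit 39525) (nat_lit 11) nil nil) (node (nat_lit 5)
  (nat_lit 39525) (nat_lit 10) nil nil)) (node (nat_lit 5) (nat_lit 39525) (nat_lit 9) (node
  (nat_lit 4) (nat_lit 39525) (nat_lit 10) (node (nat_lit 5) (nat_lit 39525) (nat_lit 11) (node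
  (nat_lit 6) (nat_lit 40119) (nat_lit 12) (node (nat_lit 4) (nat_lit 40119) (nat_lit 13) nil nil)
  nil) nil) nil) (node (nat_lit 0) (nat_lit 39749) (nat_lit 9) nil nil))))) nil))))

noncomputable def t41 : Tr :=
  (node (nat_lit 6) (nat_lit 0) (nat_lit 5) (node (nat_lit 5) (nat_lit 57577) (nat_lit 6) (node
  (nat_lit 4) (nat_lit 68846) (nat_lit 7) (node (nat_lit 5) (nat_lit 76863) (nat_lit 8) (node
  (nat_lit 6) (nat_lit 80016) (nat_lit 9) (node (nat_lit 4) (nat_lit 80453) (nat_lit 10) (node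
  (nat_lit 6) (nat_lit 58418) (nat_lit 11) nil nil) (node (nat_lit 5) (nat_lit 82512) (nat_lit 10)
  (node (nat_lit 4) (nat_lit 83798) (nat_lit 11) (node (nat_lit 6) (nat_lit 85004) (nat_lit 12)
  nil nil) nil) (node (nat_lit 3) (nat_lit 82130) (nat_lit 10) nil nil))) (node (nat_lit 3)
  (nat_lit 80157) (nat_lit 9) (node (nat_lit 4) (nat_lit 81201) (nat_lit 10) (node (nat_lit 5)
  (nat_lit 77749) (nat_lit 11) (node (nat_lit 6) (nat_lit 76013) (nat_lit 12) nil nil) nil) nil)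
  (node (nat_lit 0) (nat_lit 81139) (nat_lit 9) nil nil))) (node (nat_lit 6) (nat_lit 75959)
  (nat_lit 8) (node (nat_lit 4) (nat_lit 79110) (nat_lit 9) (node (nat_lit 5) (nat_lit 81781)
  (nat_lit 10) (node (nat_lit 6) (nat_lit 83275) (nat_lit 11) (node (nat_lit 5) (nat_lit 83544)
  (nat_lit 12) (node (nat_lit 4) (nat_lit 83021) (nat_lit 13) (node (nat_lit 5) (nat_lit 83205)
  (nat_lit 14) (node (nat_lit 6) (nat_lit 83777) (nat_lit 15) (node (nat_lit 4) (nat_lit 83891)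
  (nat_lit 16) (node (nat_lit 6) (nat_lit 84233) (nat_lit 17) (node (nat_lit 5) (nat_lit 84303)
  (nat_lit 18) (node (nat_lit 4) (nat_lit 84195) (nat_lit 19) (node (nat_lit 6) (nat_lit 84312)
  (nat_lit 20) (node (nat_lit 4) (nat_lit 84288) (nat_lit 21) (node (nat_lit 5) (nat_lit 84289)
  (nat_lit 22) (node (nat_lit 6) (nat_lit 59952) (nat_lit 23) nil nil) nil) nil) nil) nil) nil)
  nil) nil) nil) nil) nil) (node (nat_lit 4) (nat_lit 78733) (nat_lit 12) (node (nat_lit 6)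
  (nat_lit 67967) (nat_lit 13) (node (nat_lit 5) (nat_lit 59473) (nat_lit 14) (node (nat_lit 4)
  (nat_lit 33820) (nat_lit 15) nil nil) nil) nil) nil)) nil) (node (nat_lit 3) (nat_lit 80333)
  (nat_lit 10) (node (nat_lit 6) (nat_lit 81827) (nat_lit 11) nil nil) (node (nat_lit 0) (nat_lit
  82088) (nat_lit 10) nil nil))) (node (nat_lit 3) (nat_lit 79911) (nat_lit 9) (node (nat_lit 6)
  (nat_lit 81780) (nat_lit 10) nil (node (nat_lit 4) (nat_lit 81965) (nat_lit 10) nil nil)) (node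
  (nat_lit 0) (nat_lit 80917) (nat_lit 9) (node (nat_lit 6) (nat_lit 82786) (nat_lit 10) nil nil)
  nil))) (node (nat_lit 3) (nat_lit 81521) (nat_lit 8) (node (nat_lit 4) (nat_lit 77189) (nat_lit
  9) (node (nat_lit 5) (nat_lit 75643) (nat_lit 10) (node (nat_lit 6) (nat_lit 71516) (nat_lit 11)
  (node (nat_lit 4) (nat_lit 65127) (nat_lit 12) (node (nat_lit 6) (nat_lit 60232) (nat_lit 13)
  (node (nat_lit 5) (nat_lit 51602) (nat_lit 14) (node (nat_lit 4) (nat_lit 49110) (nat_lit 15)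
  nil nil) nil) nil) nil) nil) nil) (node (nat_lit 6) (nat_lit 80894) (nat_lit 9) (node (nat_lit
  5) (nat_lit 80475) (nat_lit 10) nil nil) nil)) (node (nat_lit 0) (nat_lit 81924) (nat_lit 8)
  (node (nat_lit 3) (nat_lit 80224) (nat_lit 9) nil nil) nil)))) (node (nat_lit 6) (nat_lit 68788)
  (nat_lit 7) (node (nat_lit 4) (nat_lit 75088) (nat_lit 8) (node (nat_lit 5) (nat_lit 80481)
  (nat_lit 9) (node (nat_lit 4) (nat_lit 81580) (nat_lit 10) (node (nat_lit 6) (nat_lit 83075)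
  (nat_lit 11) (node (nat_lit 5) (nat_lit 83513) (nat_lit 12) (node (nat_lit 4) (nat_lit 83740)
  (nat_lit 13) (node (nat_lit 5) (nat_lit 83964) (nat_lit 14) (node (nat_lit 6) (nat_lit 84536)
  (nat_lit 15) (node (nat_lit 4) (nat_lit 84650) (nat_lit 16) (node (nat_lit 6) (nat_lit 84992)
  (nat_lit 17) (node (nat_lit 5) (nat_lit 85062) (nat_lit 18) (node (nat_lit 6) (nat_lit 85270)
  (nat_lit 19) (node (nat_lit 4) (nat_lit 85312) (nat_lit 20) (node (nat_lit 5) (nat_lit 85343)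
  (nat_lit 21) (node (nat_lit 4) (nat_lit 85292) (nat_lit 22) (node (nat_lit 6) (nat_lit 59192)
  (nat_lit 23) nil nil) nil) nil) nil) nil) nil) nil) nil) nil) nil) nil) nil) nil) (node (nat_lit
  6) (nat_lit 82878) (nat_lit 10) (node (nat_lit 5) (nat_lit 83414) (nat_lit 11) (node (nat_lit 4)
  (nat_lit 83612) (nat_lit 12) (node (nat_lit 5) (nat_lit 83838) (nat_lit 13) (node (nat_lit 6)
  (nat_lit 84579) (nat_lit 14) (node (nat_lit 4) (nat_lit 84726) (nat_lit 15) (node (nat_lit 6)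
  (nat_lit 85167) (nat_lit 16) (node (nat_lit 5) (nat_lit 85256) (nat_lit 17) (node (nat_lit 6)
  (nat_lit 85524) (nat_lit 18) (node (nat_lit 4) (nat_lit 85578) (nat_lit 19) (node (nat_lit 5)
  (nat_lit 85620) (nat_lit 20) nil nil) nil) nil) nil) nil) nil) nil) nil) nil) nil) nil)) nil)
  (node (nat_lit 3) (nat_lit 81301) (nat_lit 8) nil (node (nat_lit 0) (nat_lit 81798) (nat_lit 8)
  nil nil))) (node (nat_lit 3) (nat_lit 79015) (nat_lit 7) (node (nat_lit 4) (nat_lit 82411)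
  (nat_lit 8) (node (nat_lit 5) (nat_lit 81329) (nat_lit 9) (node (nat_lit 6) (nat_lit 71892)
  (nat_lit 10) (node (nat_lit 4) (nat_lit 48506) (nat_lit 11) (node (nat_lit 6) (nat_lit 49020)
  (nat_lit 12) (node (nat_lit 5) (nat_lit 49438) (nat_lit 13) nil nil) nil) nil) nil) nil) (node
  (nat_lit 6) (nat_lit 82275) (nat_lit 8) (node (nat_lit 5) (nat_lit 84154) (nat_lit 9) (node
  (nat_lit 6) (nat_lit 85167) (nat_lit 10) nil nil) (node (nat_lit 4) (nat_lit 81942) (nat_lit 9)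
  nil nil)) (node (nat_lit 5) (nat_lit 82411) (nat_lit 8) (node (nat_lit 4) (nat_lit 81631)
  (nat_lit 9) nil nil) nil))) (node (nat_lit 0) (nat_lit 79013) (nat_lit 7) (node (nat_lit 6)
  (nat_lit 81602) (nat_lit 8) nil (node (nat_lit 3) (nat_lit 82575) (nat_lit 8) nil (node (nat_lit
  5) (nat_lit 80482) (nat_lit 8) nil nil))) nil)))) (node (nat_lit 3) (nat_lit 63125) (nat_lit 6)
  (node (nat_lit 4) (nat_lit 68945) (nat_lit 7) (node (nat_lit 9) (nat_lit 72701) (nat_lit 8)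
  (node (nat_lit 6) (nat_lit 73720) (nat_lit 9) (node (nat_lit 4) (nat_lit 74770) (nat_lit 10) nil
  (node (nat_lit 9) (nat_lit 76576) (nat_lit 10) nil nil)) (node (nat_lit 5) (nat_lit 81084)
  (nat_lit 9) nil nil)) (node (nat_lit 5) (nat_lit 80661) (nat_lit 8) (node (nat_lit 6) (nat_lit
  82105) (nat_lit 9) (node (nat_lit 4) (nat_lit 81686) (nat_lit 10) (node (nat_lit 6) (nat_lit
  45566) (nat_lit 11) nil nil) nil) nil) (node (nat_lit 6) (nat_lit 71480) (nat_lit 8) (node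
  (nat_lit 4) (nat_lit 71147) (nat_lit 9) (node (nat_lit 5) (nat_lit 73867) (nat_lit 10) (node
  (nat_lit 6) (nat_lit 71291) (nat_lit 11) (node (nat_lit 4) (nat_lit 58192) (nat_lit 12) (node
  (nat_lit 6) (nat_lit 58624) (nat_lit 13) nil nil) nil) nil) nil) nil) (node (nat_lit 0) (nat_lit
  80523) (nat_lit 8) nil nil)))) (node (nat_lit 6) (nat_lit 68095) (nat_lit 7) (node (nat_lit 5)
  (nat_lit 76947) (nat_lit 8) nil (node (nat_lit 4) (nat_lit 70268) (nat_lit 8) (node (nat_lit 5)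
  (nat_lit 73840) (nat_lit 9) (node (nat_lit 6) (nat_lit 66939) (nat_lit 10) (node (nat_lit 4)
  (nat_lit 58554) (nat_lit 11) (node (nat_lit 6) (nat_lit 51453) (nat_lit 12) nil nil) nil) nil)
  nil) nil)) (node (nat_lit 5) (nat_lit 78216) (nat_lit 7) (node (nat_lit 9) (nat_lit 79888)
  (nat_lit 8) (node (nat_lit 4) (nat_lit 75904) (nat_lit 9) (node (nat_lit 5) (nat_lit 74957)
  (nat_lit 10) (node (nat_lit 6) (nat_lit 71135) (nat_lit 11) (node (nat_lit 4) (nat_lit 65578)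
  (nat_lit 12) (node (nat_lit 6) (nat_lit 58967) (nat_lit 13) (node (nat_lit 9) (nat_lit 47544)
  (nat_lit 14) nil nil) nil) nil) nil) nil) nil) (node (nat_lit 4) (nat_lit 77599) (nat_lit 8)
  (node (nat_lit 5) (nat_lit 72034) (nat_lit 9) (node (nat_lit 6) (nat_lit 68665) (nat_lit 10)
  (node (nat_lit 4) (nat_lit 58664) (nat_lit 11) (node (nat_lit 6) (nat_lit 59237) (nat_lit 12)
  nil nil) nil) nil) nil) (node (nat_lit 6) (nat_lit 82349) (nat_lit 8) (node (nat_lit 5) (nat_lit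
  84026) (nat_lit 9) nil nil) nil))) (node (nat_lit 0) (nat_lit 77896) (nat_lit 7) (node (nat_lit
  9) (nat_lit 81492) (nat_lit 8) nil nil) nil)))) (node (nat_lit 0) (nat_lit 72638) (nat_lit 6)
  (node (nat_lit 4) (nat_lit 78267) (nat_lit 7) nil (node (nat_lit 5) (nat_lit 78097) (nat_lit 7)
  (node (nat_lit 4) (nat_lit 78378) (nat_lit 8) nil nil) (node (nat_lit 6) (nat_lit 77101)
  (nat_lit 7) (node (nat_lit 4) (nat_lit 78708) (nat_lit 8) (node (nat_lit 5) (nat_lit 80136)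
  (nat_lit 9) (node (nat_lit 6) (nat_lit 81148) (nat_lit 10) (node (nat_lit 4) (nat_lit 80873)
  (nat_lit 11) (node (nat_lit 6) (nat_lit 81681) (nat_lit 12) nil nil) nil) nil) nil) nil) (node
  (nat_lit 3) (nat_lit 77524) (nat_lit 7) nil (node (nat_lit 0) (nat_lit 78203) (nat_lit 7) nil
  nil))))) nil))) (node (nat_lit 3) (nat_lit 56874) (nat_lit 5) (node (nat_lit 6) (nat_lit 62892)
  (nat_lit 6) (node (nat_lit 5) (nat_lit 76295) (nat_lit 7) (node (nat_lit 8) (nat_lit 78936)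
  (nat_lit 8) (node (nat_lit 4) (nat_lit 79459) (nat_lit 9) (node (nat_lit 5) (nat_lit 77121)
  (nat_lit 10) (node (nat_lit 6) (nat_lit 73604) (nat_lit 11) (node (nat_lit 4) (nat_lit 66914)
  (nat_lit 12) (node (nat_lit 8) (nat_lit 53372) (nat_lit 13) (node (nat_lit 6) (nat_lit 46487)
  (nat_lit 14) nil nil) nil) nil) nil) (node (nat_lit 6) (nat_lit 80472) (nat_lit 10) nil (node
  (nat_lit 8) (nat_lit 78928) (nat_lit 10) (node (nat_lit 6) (nat_lit 78213) (nat_lit 11) nil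
  (node (nat_lit 5) (nat_lit 78281) (nat_lit 11) nil nil)) nil))) (node (nat_lit 5) (nat_lit
  80662) (nat_lit 9) (node (nat_lit 6) (nat_lit 81674) (nat_lit 10) nil (node (nat_lit 4) (nat_lit
  80542) (nat_lit 10) (node (nat_lit 6) (nat_lit 81123) (nat_lit 11) nil (node (nat_lit 8)
  (nat_lit 78770) (nat_lit 11) nil nil)) nil)) (node (nat_lit 6) (nat_lit 79678) (nat_lit 9) (node
  (nat_lit 8) (nat_lit 79454) (nat_lit 10) nil (node (nat_lit 4) (nat_lit 79259) (nat_lit 10)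
  (node (nat_lit 5) (nat_lit 73325) (nat_lit 11) nil nil) nil)) (node (nat_lit 0) (nat_lit 80268)
  (nat_lit 9) (node (nat_lit 8) (nat_lit 78748) (nat_lit 10) nil nil) nil)))) (node (nat_lit 4)
  (nat_lit 77868) (nat_lit 8) (node (nat_lit 5) (nat_lit 79845) (nat_lit 9) (node (nat_lit 6)
  (nat_lit 80858) (nat_lit 10) (node (nat_lit 4) (nat_lit 80582) (nat_lit 11) (node (nat_lit 8)
  (nat_lit 79606) (nat_lit 12) (node (nat_lit 6) (nat_lit 56009) (nat_lit 13) nil nil) nil) nil)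
  (node (nat_lit 8) (nat_lit 81207) (nat_lit 10) (node (nat_lit 6) (nat_lit 80492) (nat_lit 11)
  nil (node (nat_lit 4) (nat_lit 78005) (nat_lit 11) nil nil)) nil)) (node (nat_lit 6) (nat_lit
  79396) (nat_lit 9) (node (nat_lit 8) (nat_lit 77876) (nat_lit 10) nil (node (nat_lit 4) (nat_lit
  78977) (nat_lit 10) (node (nat_lit 5) (nat_lit 73043) (nat_lit 11) nil (node (nat_lit 8)
  (nat_lit 77626) (nat_lit 11) nil nil)) nil)) (node (nat_lit 8) (nat_lit 78364) (nat_lit 9) nil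
  nil))) (node (nat_lit 6) (nat_lit 78040) (nat_lit 8) (node (nat_lit 8) (nat_lit 79819) (nat_lit
  9) (node (nat_lit 5) (nat_lit 80922) (nat_lit 10) nil (node (nat_lit 6) (nat_lit 80832) (nat_lit
  10) (node (nat_lit 4) (nat_lit 80556) (nat_lit 11) nil nil) (node (nat_lit 4) (nat_lit 79536)
  (nat_lit 10) (node (nat_lit 5) (nat_lit 80429) (nat_lit 11) nil nil) nil))) (node (nat_lit 4)
  (nat_lit 78631) (nat_lit 9) nil (node (nat_lit 0) (nat_lit 79768) (nat_lit 9) (node (nat_lit 5)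
  (nat_lit 80944) (nat_lit 10) nil (node (nat_lit 6) (nat_lit 80781) (nat_lit 10) nil nil)) nil)))
  (node (nat_lit 0) (nat_lit 78465) (nat_lit 8) (node (nat_lit 6) (nat_lit 79797) (nat_lit 9) nil
  (node (nat_lit 8) (nat_lit 76654) (nat_lit 9) nil nil)) nil)))) (node (nat_lit 8) (nat_lit
  66476) (nat_lit 7) (node (nat_lit 4) (nat_lit 68646) (nat_lit 8) (node (nat_lit 6) (nat_lit
  70247) (nat_lit 9) (node (nat_lit 4) (nat_lit 72193) (nat_lit 10) (node (nat_lit 8) (nat_lit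
  69762) (nat_lit 11) (node (nat_lit 4) (nat_lit 69231) (nat_lit 12) nil nil) (node (nat_lit 5)
  (nat_lit 71254) (nat_lit 11) (node (nat_lit 6) (nat_lit 68041) (nat_lit 12) nil nil) nil)) (node
  (nat_lit 5) (nat_lit 72509) (nat_lit 10) nil (node (nat_lit 8) (nat_lit 72219) (nat_lit 10)
  (node (nat_lit 6) (nat_lit 73542) (nat_lit 11) nil nil) nil))) (node (nat_lit 8) (nat_lit 70167)
  (nat_lit 9) (node (nat_lit 5) (nat_lit 73428) (nat_lit 10) (node (nat_lit 4) (nat_lit 71092)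
  (nat_lit 11) (node (nat_lit 5) (nat_lit 70161) (nat_lit 12) nil nil) nil) (node (nat_lit 6)
  (nat_lit 72328) (nat_lit 10) (node (nat_lit 4) (nat_lit 72913) (nat_lit 11) nil nil) (node
  (nat_lit 0) (nat_lit 73242) (nat_lit 10) nil nil))) (node (nat_lit 5) (nat_lit 75526) (nat_lit
  9) (node (nat_lit 6) (nat_lit 76539) (nat_lit 10) (node (nat_lit 4) (nat_lit 76263) (nat_lit 11)
  (node (nat_lit 8) (nat_lit 75287) (nat_lit 12) (node (nat_lit 6) (nat_lit 41553) (nat_lit 13)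
  nil nil) nil) nil) nil) (node (nat_lit 0) (nat_lit 73207) (nat_lit 9) nil nil)))) (node (nat_lit
  5) (nat_lit 76221) (nat_lit 8) (node (nat_lit 6) (nat_lit 77822) (nat_lit 9) (node (nat_lit 4)
  (nat_lit 79071) (nat_lit 10) (node (nat_lit 8) (nat_lit 76754) (nat_lit 11) nil nil) (node
  (nat_lit 5) (nat_lit 78998) (nat_lit 10) nil nil)) (node (nat_lit 4) (nat_lit 75626) (nat_lit 9)
  (node (nat_lit 8) (nat_lit 76801) (nat_lit 10) (node (nat_lit 4) (nat_lit 77842) (nat_lit 11)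
  (node (nat_lit 5) (nat_lit 78770) (nat_lit 12) nil nil) (node (nat_lit 6) (nat_lit 76086)
  (nat_lit 11) nil nil)) (node (nat_lit 5) (nat_lit 69486) (nat_lit 10) (node (nat_lit 6) (nat_lit
  63831) (nat_lit 11) (node (nat_lit 4) (nat_lit 55381) (nat_lit 12) nil nil) nil) (node (nat_lit
  6) (nat_lit 74579) (nat_lit 10) (node (nat_lit 5) (nat_lit 74303) (nat_lit 11) nil nil) nil)))
  (node (nat_lit 8) (nat_lit 76130) (nat_lit 9) nil nil))) (node (nat_lit 0) (nat_lit 75222)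
  (nat_lit 8) (node (nat_lit 8) (nat_lit 73410) (nat_lit 9) nil (node (nat_lit 6) (nat_lit 76554)
  (nat_lit 9) nil nil)) nil))) (node (nat_lit 4) (nat_lit 66366) (nat_lit 7) (node (nat_lit 6)
  (nat_lit 68536) (nat_lit 8) (node (nat_lit 8) (nat_lit 70053) (nat_lit 9) (node (nat_lit 6)
  (nat_lit 71765) (nat_lit 10) (node (nat_lit 4) (nat_lit 71920) (nat_lit 11) nil nil) (node
  (nat_lit 4) (nat_lit 71494) (nat_lit 10) nil nil)) (node (nat_lit 5) (nat_lit 73679) (nat_lit 9)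
  (node (nat_lit 4) (nat_lit 71965) (nat_lit 10) nil nil) nil)) (node (nat_lit 5) (nat_lit 71983)
  (nat_lit 8) (node (nat_lit 6) (nat_lit 56263) (nat_lit 9) (node (nat_lit 4) (nat_lit 47951)
  (nat_lit 10) nil nil) (node (nat_lit 4) (nat_lit 71892) (nat_lit 9) nil (node (nat_lit 8)
  (nat_lit 70356) (nat_lit 9) nil nil))) (node (nat_lit 0) (nat_lit 72284) (nat_lit 8) nil nil)))
  (node (nat_lit 0) (nat_lit 74448) (nat_lit 7) (node (nat_lit 6) (nat_lit 76618) (nat_lit 8) nil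
  (node (nat_lit 8) (nat_lit 76375) (nat_lit 8) (node (nat_lit 6) (nat_lit 74960) (nat_lit 9) nil
  (node (nat_lit 4) (nat_lit 76099) (nat_lit 9) nil nil)) (node (nat_lit 4) (nat_lit 76618)
  (nat_lit 8) nil (node (nat_lit 0) (nat_lit 76375) (nat_lit 8) nil (node (nat_lit 5) (nat_lit
  76618) (nat_lit 8) nil nil))))) nil)))) (node (nat_lit 5) (nat_lit 70242) (nat_lit 6) (node
  (nat_lit 4) (nat_lit 68811) (nat_lit 7) (node (nat_lit 5) (nat_lit 65179) (nat_lit 8) (node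
  (nat_lit 6) (nat_lit 56573) (nat_lit 9) (node (nat_lit 4) (nat_lit 55859) (nat_lit 10) (node
  (nat_lit 8) (nat_lit 55257) (nat_lit 11) nil nil) (node (nat_lit 8) (nat_lit 55995) (nat_lit 10)
  (node (nat_lit 6) (nat_lit 56315) (nat_lit 11) nil nil) nil)) (node (nat_lit 8) (nat_lit 66662)
  (nat_lit 9) (node (nat_lit 5) (nat_lit 67816) (nat_lit 10) nil (node (nat_lit 4) (nat_lit 64150)
  (nat_lit 10) (node (nat_lit 5) (nat_lit 59283) (nat_lit 11) nil nil) nil)) nil)) (node (nat_lit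
  6) (nat_lit 71990) (nat_lit 8) (node (nat_lit 4) (nat_lit 72899) (nat_lit 9) (node (nat_lit 5)
  (nat_lit 71668) (nat_lit 10) (node (nat_lit 6) (nat_lit 69932) (nat_lit 11) (node (nat_lit 4)
  (nat_lit 67811) (nat_lit 12) nil nil) nil) (node (nat_lit 0) (nat_lit 73912) (nat_lit 10) nil
  nil)) (node (nat_lit 5) (nat_lit 73982) (nat_lit 9) nil (node (nat_lit 8) (nat_lit 70179)
  (nat_lit 9) nil nil))) (node (nat_lit 8) (nat_lit 71858) (nat_lit 8) (node (nat_lit 4) (nat_lit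
  70032) (nat_lit 9) (node (nat_lit 5) (nat_lit 67467) (nat_lit 10) (node (nat_lit 6) (nat_lit
  66283) (nat_lit 11) (node (nat_lit 4) (nat_lit 56493) (nat_lit 12) (node (nat_lit 8) (nat_lit
  48212) (nat_lit 13) nil nil) nil) nil) nil) (node (nat_lit 6) (nat_lit 73235) (nat_lit 9) (node
  (nat_lit 5) (nat_lit 72816) (nat_lit 10) (node (nat_lit 4) (nat_lit 71483) (nat_lit 11) nil nil)
  nil) nil)) (node (nat_lit 0) (nat_lit 71340) (nat_lit 8) nil nil)))) (node (nat_lit 8) (nat_lit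
  74711) (nat_lit 7) (node (nat_lit 4) (nat_lit 76167) (nat_lit 8) (node (nat_lit 5) (nat_lit
  76869) (nat_lit 9) (node (nat_lit 6) (nat_lit 67177) (nat_lit 10) (node (nat_lit 4) (nat_lit
  61227) (nat_lit 11) (node (nat_lit 8) (nat_lit 45401) (nat_lit 12) nil nil) nil) nil) nil) (node
  (nat_lit 6) (nat_lit 75718) (nat_lit 8) (node (nat_lit 5) (nat_lit 77470) (nat_lit 9) (node
  (nat_lit 6) (nat_lit 78482) (nat_lit 10) nil (node (nat_lit 4) (nat_lit 77051) (nat_lit 10) nil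
  nil)) nil) nil)) (node (nat_lit 6) (nat_lit 74349) (nat_lit 7) (node (nat_lit 8) (nat_lit 75153)
  (nat_lit 8) (node (nat_lit 6) (nat_lit 73738) (nat_lit 9) (node (nat_lit 5) (nat_lit 73319)
  (nat_lit 10) nil nil) nil) (node (nat_lit 5) (nat_lit 76502) (nat_lit 8) (node (nat_lit 4)
  (nat_lit 76057) (nat_lit 9) nil nil) nil)) (node (nat_lit 0) (nat_lit 74585) (nat_lit 7) nil
  nil)))) (node (nat_lit 4) (nat_lit 54439) (nat_lit 6) (node (nat_lit 6) (nat_lit 57825) (nat_lit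
  7) (node (nat_lit 8) (nat_lit 60039) (nat_lit 8) (node (nat_lit 4) (nat_lit 61372) (nat_lit 9)
  (node (nat_lit 5) (nat_lit 65755) (nat_lit 10) (node (nat_lit 6) (nat_lit 66648) (nat_lit 11)
  nil nil) nil) (node (nat_lit 5) (nat_lit 64358) (nat_lit 9) (node (nat_lit 6) (nat_lit 65371)
  (nat_lit 10) (node (nat_lit 4) (nat_lit 65095) (nat_lit 11) (node (nat_lit 8) (nat_lit 64119)
  (nat_lit 12) nil nil) nil) nil) (node (nat_lit 6) (nat_lit 61590) (nat_lit 9) (node (nat_lit 4)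
  (nat_lit 63003) (nat_lit 10) nil nil) nil))) (node (nat_lit 4) (nat_lit 60039) (nat_lit 8) (node
  (nat_lit 5) (nat_lit 63463) (nat_lit 9) (node (nat_lit 6) (nat_lit 50372) (nat_lit 10) (node
  (nat_lit 4) (nat_lit 49789) (nat_lit 11) (node (nat_lit 8) (nat_lit 45426) (nat_lit 12) nil nil)
  nil) nil) (node (nat_lit 8) (nat_lit 61590) (nat_lit 9) (node (nat_lit 6) (nat_lit 64206)
  (nat_lit 10) (node (nat_lit 8) (nat_lit 64234) (nat_lit 11) (node (nat_lit 4) (nat_lit 64195)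
  (nat_lit 12) nil nil) (node (nat_lit 4) (nat_lit 65872) (nat_lit 11) nil nil)) nil) nil)) (node
  (nat_lit 5) (nat_lit 67712) (nat_lit 8) (node (nat_lit 4) (nat_lit 67267) (nat_lit 9) nil nil)
  (node (nat_lit 0) (nat_lit 65187) (nat_lit 8) nil nil)))) (node (nat_lit 5) (nat_lit 66891)
  (nat_lit 7) (node (nat_lit 6) (nat_lit 61720) (nat_lit 8) (node (nat_lit 4) (nat_lit 44393)
  (nat_lit 9) nil nil) (node (nat_lit 8) (nat_lit 69094) (nat_lit 8) (node (nat_lit 5) (nat_lit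
  70638) (nat_lit 9) (node (nat_lit 4) (nat_lit 69109) (nat_lit 10) nil nil) nil) nil)) (node
  (nat_lit 0) (nat_lit 66023) (nat_lit 7) (node (nat_lit 6) (nat_lit 67949) (nat_lit 8) nil nil)
  nil))) (node (nat_lit 0) (nat_lit 71462) (nat_lit 6) (node (nat_lit 8) (nat_lit 74790) (nat_lit
  7) (node (nat_lit 4) (nat_lit 76717) (nat_lit 8) nil nil) (node (nat_lit 4) (nat_lit 74815)
  (nat_lit 7) nil (node (nat_lit 6) (nat_lit 74529) (nat_lit 7) nil (node (nat_lit 5) (nat_lit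
  75327) (nat_lit 7) (node (nat_lit 4) (nat_lit 74977) (nat_lit 8) nil nil) nil)))) nil)))) (node
  (nat_lit 0) (nat_lit 67661) (nat_lit 5) (node (nat_lit 6) (nat_lit 75319) (nat_lit 6) (node
  (nat_lit 5) (nat_lit 80026) (nat_lit 7) (node (nat_lit 4) (nat_lit 81477) (nat_lit 8) (node
  (nat_lit 5) (nat_lit 81033) (nat_lit 9) (node (nat_lit 6) (nat_lit 82045) (nat_lit 10) (node
  (nat_lit 4) (nat_lit 81770) (nat_lit 11) nil nil) nil) nil) nil) (node (nat_lit 8) (nat_lit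
  79892) (nat_lit 7) nil (node (nat_lit 4) (nat_lit 77848) (nat_lit 7) (node (nat_lit 5) (nat_lit
  77498) (nat_lit 8) (node (nat_lit 6) (nat_lit 78830) (nat_lit 9) (node (nat_lit 4) (nat_lit
  78411) (nat_lit 10) nil nil) nil) nil) (node (nat_lit 3) (nat_lit 76439) (nat_lit 7) (node
  (nat_lit 6) (nat_lit 74509) (nat_lit 8) nil nil) nil)))) (node (nat_lit 5) (nat_lit 76295)
  (nat_lit 6) (node (nat_lit 4) (nat_lit 77663) (nat_lit 7) (node (nat_lit 5) (nat_lit 77313)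
  (nat_lit 8) (node (nat_lit 6) (nat_lit 78646) (nat_lit 9) (node (nat_lit 4) (nat_lit 78227)
  (nat_lit 10) (node (nat_lit 8) (nat_lit 55899) (nat_lit 11) nil nil) nil) nil) nil) (node
  (nat_lit 8) (nat_lit 80177) (nat_lit 7) nil (node (nat_lit 6) (nat_lit 79249) (nat_lit 7) nil
  (node (nat_lit 3) (nat_lit 79773) (nat_lit 7) nil nil)))) (node (nat_lit 4) (nat_lit 75361)
  (nat_lit 6) (node (nat_lit 5) (nat_lit 77608) (nat_lit 7) nil (node (nat_lit 6) (nat_lit 75712)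
  (nat_lit 7) (node (nat_lit 4) (nat_lit 75362) (nat_lit 8) nil nil) (node (nat_lit 3) (nat_lit
  76914) (nat_lit 7) nil nil))) (node (nat_lit 3) (nat_lit 75292) (nat_lit 6) (node (nat_lit 4)
  (nat_lit 78332) (nat_lit 7) (node (nat_lit 5) (nat_lit 80258) (nat_lit 8) (node (nat_lit 6)
  (nat_lit 81590) (nat_lit 9) nil nil) nil) (node (nat_lit 6) (nat_lit 77086) (nat_lit 7) (node
  (nat_lit 5) (nat_lit 76736) (nat_lit 8) nil nil) (node (nat_lit 5) (nat_lit 76054) (nat_lit 7)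
  (node (nat_lit 4) (nat_lit 73800) (nat_lit 8) nil nil) nil))) (node (nat_lit 0) (nat_lit 75943)
  (nat_lit 6) (node (nat_lit 6) (nat_lit 78871) (nat_lit 7) nil (node (nat_lit 5) (nat_lit 80224)
  (nat_lit 7) (node (nat_lit 4) (nat_lit 77814) (nat_lit 8) nil nil) nil)) nil))))) nil)))

noncomputable def t42 : Tr :=
  (node (nat_lit 5) (nat_lit 77240) (nat_lit 5) (node (nat_lit 7) (nat_lit 85295) (nat_lit 6)
  (node (nat_lit 6) (nat_lit 91966) (nat_lit 7) (node (nat_lit 5) (nat_lit 93464) (nat_lit 8)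
  (node (nat_lit 6) (nat_lit 93985) (nat_lit 9) (node (nat_lit 7) (nat_lit 93985) (nat_lit 10)
  (node (nat_lit 6) (nat_lit 94296) (nat_lit 11) nil (node (nat_lit 5) (nat_lit 93985) (nat_lit
  11) nil (node (nat_lit 4) (nat_lit 93985) (nat_lit 11) nil nil))) (node (nat_lit 4) (nat_lit
  93985) (nat_lit 10) (node (nat_lit 5) (nat_lit 93985) (nat_lit 11) nil nil) nil)) (node (nat_lit
  7) (nat_lit 93464) (nat_lit 9) (node (nat_lit 5) (nat_lit 93464) (nat_lit 10) (node (nat_lit 6)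
  (nat_lit 94296) (nat_lit 11) (node (nat_lit 7) (nat_lit 94296) (nat_lit 12) nil nil) nil) (node
  (nat_lit 4) (nat_lit 93464) (nat_lit 10) nil nil)) (node (nat_lit 4) (nat_lit 93464) (nat_lit 9)
  (node (nat_lit 5) (nat_lit 93464) (nat_lit 10) (node (nat_lit 6) (nat_lit 94296) (nat_lit 11)
  (node (nat_lit 7) (nat_lit 94296) (nat_lit 12) (node (nat_lit 5) (nat_lit 94296) (nat_lit 13)
  (node (nat_lit 7) (nat_lit 94296) (nat_lit 14) nil nil) nil) nil) nil) (node (nat_lit 6)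
  (nat_lit 94159) (nat_lit 10) nil (node (nat_lit 7) (nat_lit 93464) (nat_lit 10) nil nil)))
  nil))) (node (nat_lit 7) (nat_lit 93464) (nat_lit 8) (node (nat_lit 5) (nat_lit 93464) (nat_lit
  9) (node (nat_lit 6) (nat_lit 94159) (nat_lit 10) nil (node (nat_lit 4) (nat_lit 93464) (nat_lit
  10) nil nil)) (node (nat_lit 4) (nat_lit 93464) (nat_lit 9) (node (nat_lit 5) (nat_lit 93464)
  (nat_lit 10) (node (nat_lit 6) (nat_lit 94296) (nat_lit 11) (node (nat_lit 7) (nat_lit 94296)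
  (nat_lit 12) (node (nat_lit 5) (nat_lit 94296) (nat_lit 13) nil nil) nil) nil) (node (nat_lit 6)
  (nat_lit 94159) (nat_lit 10) nil nil)) nil)) (node (nat_lit 4) (nat_lit 93464) (nat_lit 8) (node
  (nat_lit 5) (nat_lit 93464) (nat_lit 9) (node (nat_lit 6) (nat_lit 83530) (nat_lit 10) (node
  (nat_lit 7) (nat_lit 75759) (nat_lit 11) (node (nat_lit 5) (nat_lit 60267) (nat_lit 12) nil nil)
  nil) nil) (node (nat_lit 7) (nat_lit 93464) (nat_lit 9) (node (nat_lit 5) (nat_lit 90649)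
  (nat_lit 10) nil nil) nil)) (node (nat_lit 0) (nat_lit 93760) (nat_lit 8) (node (nat_lit 7)
  (nat_lit 93760) (nat_lit 9) nil nil) nil)))) (node (nat_lit 4) (nat_lit 89181) (nat_lit 7) (node
  (nat_lit 5) (nat_lit 89181) (nat_lit 8) (node (nat_lit 6) (nat_lit 82568) (nat_lit 9) (node
  (nat_lit 7) (nat_lit 66580) (nat_lit 10) (node (nat_lit 5) (nat_lit 61718) (nat_lit 11) nil
  (node (nat_lit 6) (nat_lit 66841) (nat_lit 11) nil (node (nat_lit 4) (nat_lit 66841) (nat_lit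
  11) nil nil))) (node (nat_lit 5) (nat_lit 82568) (nat_lit 10) (node (nat_lit 4) (nat_lit 82568)
  (nat_lit 11) nil (node (nat_lit 7) (nat_lit 82568) (nat_lit 11) nil nil)) (node (nat_lit 4)
  (nat_lit 82568) (nat_lit 10) (node (nat_lit 7) (nat_lit 82568) (nat_lit 11) nil nil) nil)))
  (node (nat_lit 4) (nat_lit 89181) (nat_lit 9) (node (nat_lit 7) (nat_lit 89181) (nat_lit 10)
  (node (nat_lit 4) (nat_lit 88532) (nat_lit 11) (node (nat_lit 5) (nat_lit 88107) (nat_lit 12)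
  nil nil) (node (nat_lit 5) (nat_lit 88532) (nat_lit 11) nil nil)) nil) (node (nat_lit 7)
  (nat_lit 89181) (nat_lit 9) (node (nat_lit 5) (nat_lit 89181) (nat_lit 10) nil nil) (node
  (nat_lit 0) (nat_lit 92164) (nat_lit 9) nil nil)))) (node (nat_lit 6) (nat_lit 91940) (nat_lit
  8) (node (nat_lit 7) (nat_lit 91940) (nat_lit 9) (node (nat_lit 6) (nat_lit 92339) (nat_lit 10)
  (node (nat_lit 4) (nat_lit 92339) (nat_lit 11) nil (node (nat_lit 5) (nat_lit 92339) (nat_lit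
  11) nil nil)) (node (nat_lit 4) (nat_lit 91940) (nat_lit 10) (node (nat_lit 5) (nat_lit 91940)
  (nat_lit 11) (node (nat_lit 6) (nat_lit 92582) (nat_lit 12) nil nil) nil) nil)) (node (nat_lit
  5) (nat_lit 91940) (nat_lit 9) (node (nat_lit 4) (nat_lit 91940) (nat_lit 10) nil nil) (node
  (nat_lit 4) (nat_lit 91940) (nat_lit 9) (node (nat_lit 5) (nat_lit 88012) (nat_lit 10) (node
  (nat_lit 6) (nat_lit 84075) (nat_lit 11) (node (nat_lit 7) (nat_lit 64712) (nat_lit 12) nil nil)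
  nil) (node (nat_lit 7) (nat_lit 88636) (nat_lit 10) nil nil)) nil))) (node (nat_lit 7) (nat_lit
  89181) (nat_lit 8) (node (nat_lit 6) (nat_lit 92164) (nat_lit 9) (node (nat_lit 7) (nat_lit
  92164) (nat_lit 10) nil nil) (node (nat_lit 5) (nat_lit 88932) (nat_lit 9) (node (nat_lit 4)
  (nat_lit 86429) (nat_lit 10) nil nil) nil)) (node (nat_lit 0) (nat_lit 91940) (nat_lit 8) (node
  (nat_lit 5) (nat_lit 91940) (nat_lit 9) nil (node (nat_lit 6) (nat_lit 92164) (nat_lit 9) nil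
  (node (nat_lit 7) (nat_lit 91940) (nat_lit 9) nil nil))) nil)))) (node (nat_lit 0) (nat_lit
  91644) (nat_lit 7) (node (nat_lit 6) (nat_lit 91940) (nat_lit 8) nil (node (nat_lit 5) (nat_lit
  91644) (nat_lit 8) (node (nat_lit 7) (nat_lit 91644) (nat_lit 9) nil nil) (node (nat_lit 7)
  (nat_lit 91644) (nat_lit 8) (node (nat_lit 5) (nat_lit 90448) (nat_lit 9) nil nil) nil))) nil)))
  (node (nat_lit 4) (nat_lit 89181) (nat_lit 6) (node (nat_lit 7) (nat_lit 89181) (nat_lit 7)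
  (node (nat_lit 6) (nat_lit 91810) (nat_lit 8) (node (nat_lit 5) (nat_lit 91810) (nat_lit 9)
  (node (nat_lit 6) (nat_lit 91981) (nat_lit 10) nil (node (nat_lit 4) (nat_lit 91810) (nat_lit
  10) nil nil)) (node (nat_lit 7) (nat_lit 91810) (nat_lit 9) (node (nat_lit 5) (nat_lit 91810)
  (nat_lit 10) (node (nat_lit 6) (nat_lit 92046) (nat_lit 11) (node (nat_lit 4) (nat_lit 92046)
  (nat_lit 12) nil nil) nil) nil) (node (nat_lit 4) (nat_lit 91810) (nat_lit 9) (node (nat_lit 5)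
  (nat_lit 89882) (nat_lit 10) (node (nat_lit 6) (nat_lit 81796) (nat_lit 11) (node (nat_lit 7)
  (nat_lit 75408) (nat_lit 12) nil nil) nil) nil) nil))) (node (nat_lit 4) (nat_lit 89181)
  (nat_lit 8) (node (nat_lit 5) (nat_lit 89181) (nat_lit 9) (node (nat_lit 6) (nat_lit 77787)
  (nat_lit 10) (node (nat_lit 7) (nat_lit 69082) (nat_lit 11) (node (nat_lit 5) (nat_lit 56975)
  (nat_lit 12) nil nil) nil) (node (nat_lit 7) (nat_lit 89181) (nat_lit 10) nil (node (nat_lit 4)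
  (nat_lit 89181) (nat_lit 10) nil nil))) nil) (node (nat_lit 5) (nat_lit 89181) (nat_lit 8) (node
  (nat_lit 7) (nat_lit 89181) (nat_lit 9) (node (nat_lit 4) (nat_lit 89181) (nat_lit 10) (node
  (nat_lit 5) (nat_lit 88590) (nat_lit 11) nil nil) (node (nat_lit 6) (nat_lit 91981) (nat_lit 10)
  nil nil)) (node (nat_lit 6) (nat_lit 91907) (nat_lit 9) (node (nat_lit 4) (nat_lit 91907)
  (nat_lit 10) nil nil) (node (nat_lit 0) (nat_lit 91907) (nat_lit 9) nil nil))) (node (nat_lit 0)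
  (nat_lit 91810) (nat_lit 8) (node (nat_lit 7) (nat_lit 91810) (nat_lit 9) nil nil) nil)))) (node
  (nat_lit 5) (nat_lit 82582) (nat_lit 7) (node (nat_lit 7) (nat_lit 83666) (nat_lit 8) (node
  (nat_lit 4) (nat_lit 83372) (nat_lit 9) (node (nat_lit 7) (nat_lit 84089) (nat_lit 10) (node
  (nat_lit 5) (nat_lit 82496) (nat_lit 11) (node (nat_lit 4) (nat_lit 81283) (nat_lit 12) nil nil)
  (node (nat_lit 6) (nat_lit 82945) (nat_lit 11) nil nil)) (node (nat_lit 5) (nat_lit 81088)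
  (nat_lit 10) (node (nat_lit 4) (nat_lit 79495) (nat_lit 11) (node (nat_lit 7) (nat_lit 78956)
  (nat_lit 12) (node (nat_lit 5) (nat_lit 78037) (nat_lit 13) nil nil) nil) nil) (node (nat_lit 6)
  (nat_lit 84089) (nat_lit 10) nil nil))) (node (nat_lit 5) (nat_lit 84610) (nat_lit 9) (node
  (nat_lit 6) (nat_lit 85327) (nat_lit 10) nil (node (nat_lit 4) (nat_lit 83895) (nat_lit 10) nil
  nil)) (node (nat_lit 6) (nat_lit 84016) (nat_lit 9) (node (nat_lit 4) (nat_lit 84263) (nat_lit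
  10) (node (nat_lit 5) (nat_lit 77968) (nat_lit 11) nil nil) nil) (node (nat_lit 0) (nat_lit
  84610) (nat_lit 9) nil nil)))) (node (nat_lit 6) (nat_lit 80524) (nat_lit 8) (node (nat_lit 4)
  (nat_lit 80524) (nat_lit 9) (node (nat_lit 7) (nat_lit 80831) (nat_lit 10) (node (nat_lit 5)
  (nat_lit 80157) (nat_lit 11) (node (nat_lit 4) (nat_lit 79228) (nat_lit 12) nil nil) nil) nil)
  (node (nat_lit 7) (nat_lit 80524) (nat_lit 9) nil (node (nat_lit 5) (nat_lit 80524) (nat_lit 9)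
  (node (nat_lit 4) (nat_lit 79704) (nat_lit 10) nil nil) nil))) (node (nat_lit 0) (nat_lit 84233)
  (nat_lit 8) (node (nat_lit 4) (nat_lit 84583) (nat_lit 9) nil (node (nat_lit 5) (nat_lit 85395)
  (nat_lit 9) nil (node (nat_lit 7) (nat_lit 85177) (nat_lit 9) nil (node (nat_lit 6) (nat_lit
  85177) (nat_lit 9) nil (node (nat_lit 0) (nat_lit 85177) (nat_lit 9) nil nil))))) nil))) (node
  (nat_lit 6) (nat_lit 92816) (nat_lit 7) (node (nat_lit 5) (nat_lit 92816) (nat_lit 8) (node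
  (nat_lit 6) (nat_lit 93337) (nat_lit 9) nil (node (nat_lit 7) (nat_lit 92816) (nat_lit 9) (node
  (nat_lit 5) (nat_lit 92816) (nat_lit 10) nil (node (nat_lit 4) (nat_lit 92062) (nat_lit 10) nil
  nil)) (node (nat_lit 4) (nat_lit 92816) (nat_lit 9) (node (nat_lit 5) (nat_lit 92816) (nat_lit
  10) (node (nat_lit 6) (nat_lit 93648) (nat_lit 11) (node (nat_lit 7) (nat_lit 93648) (nat_lit
  12) (node (nat_lit 5) (nat_lit 93427) (nat_lit 13) nil nil) nil) nil) nil) nil))) (node (nat_lit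
  4) (nat_lit 92816) (nat_lit 8) (node (nat_lit 5) (nat_lit 92816) (nat_lit 9) (node (nat_lit 6)
  (nat_lit 86792) (nat_lit 10) (node (nat_lit 7) (nat_lit 76804) (nat_lit 11) (node (nat_lit 5)
  (nat_lit 63702) (nat_lit 12) (node (nat_lit 4) (nat_lit 27653) (nat_lit 13) nil nil) nil) (node
  (nat_lit 5) (nat_lit 86792) (nat_lit 11) nil nil)) nil) (node (nat_lit 7) (nat_lit 92816)
  (nat_lit 9) (node (nat_lit 5) (nat_lit 90567) (nat_lit 10) (node (nat_lit 4) (nat_lit 88763)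
  (nat_lit 11) (node (nat_lit 5) (nat_lit 87303) (nat_lit 12) (node (nat_lit 6) (nat_lit 86279)
  (nat_lit 13) nil nil) nil) nil) (node (nat_lit 6) (nat_lit 93366) (nat_lit 10) nil nil)) nil))
  (node (nat_lit 0) (nat_lit 93113) (nat_lit 8) nil (node (nat_lit 7) (nat_lit 92816) (nat_lit 8)
  nil nil)))) (node (nat_lit 0) (nat_lit 92816) (nat_lit 7) (node (nat_lit 4) (nat_lit 92816)
  (nat_lit 8) nil (node (nat_lit 6) (nat_lit 93113) (nat_lit 8) (node (nat_lit 7) (nat_lit 93113)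
  (nat_lit 9) nil nil) (node (nat_lit 7) (nat_lit 92816) (nat_lit 8) (node (nat_lit 4) (nat_lit
  92816) (nat_lit 9) nil nil) (node (nat_lit 5) (nat_lit 92816) (nat_lit 8) (node (nat_lit 4)
  (nat_lit 92816) (nat_lit 9) nil (node (nat_lit 7) (nat_lit 92816) (nat_lit 9) nil nil)) nil))))
  nil)))) (node (nat_lit 6) (nat_lit 87551) (nat_lit 6) (node (nat_lit 5) (nat_lit 90807) (nat_lit
  7) (node (nat_lit 7) (nat_lit 90807) (nat_lit 8) (node (nat_lit 6) (nat_lit 91283) (nat_lit 9)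
  nil nil) (node (nat_lit 4) (nat_lit 90807) (nat_lit 8) (node (nat_lit 6) (nat_lit 91283)
  (nat_lit 9) nil nil) nil)) (node (nat_lit 4) (nat_lit 90807) (nat_lit 7) (node (nat_lit 5)
  (nat_lit 82011) (nat_lit 8) (node (nat_lit 6) (nat_lit 78139) (nat_lit 9) (node (nat_lit 7)
  (nat_lit 49442) (nat_lit 10) nil nil) nil) nil) nil)) (node (nat_lit 0) (nat_lit 92494) (nat_lit
  6) (node (nat_lit 7) (nat_lit 93447) (nat_lit 7) (node (nat_lit 5) (nat_lit 93447) (nat_lit 8)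
  nil (node (nat_lit 6) (nat_lit 94137) (nat_lit 8) nil nil)) (node (nat_lit 5) (nat_lit 93447)
  (nat_lit 7) (node (nat_lit 6) (nat_lit 94137) (nat_lit 8) nil (node (nat_lit 4) (nat_lit 93447)
  (nat_lit 8) nil (node (nat_lit 7) (nat_lit 91988) (nat_lit 8) (node (nat_lit 5) (nat_lit 90644)
  (nat_lit 9) nil nil) nil))) (node (nat_lit 6) (nat_lit 93841) (nat_lit 7) (node (nat_lit 5)
  (nat_lit 93841) (nat_lit 8) (node (nat_lit 7) (nat_lit 92745) (nat_lit 9) nil nil) (node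
  (nat_lit 7) (nat_lit 93841) (nat_lit 8) nil nil)) (node (nat_lit 4) (nat_lit 93447) (nat_lit 7)
  (node (nat_lit 7) (nat_lit 90674) (nat_lit 8) nil nil) (node (nat_lit 0) (nat_lit 93841)
  (nat_lit 7) (node (nat_lit 6) (nat_lit 94137) (nat_lit 8) nil (node (nat_lit 5) (nat_lit 93841)
  (nat_lit 8) nil nil)) nil))))) nil)))) (node (nat_lit 4) (nat_lit 82502) (nat_lit 5) (node
  (nat_lit 5) (nat_lit 85166) (nat_lit 6) (node (nat_lit 6) (nat_lit 63149) (nat_lit 7) nil (node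
  (nat_lit 7) (nat_lit 85166) (nat_lit 7) (node (nat_lit 5) (nat_lit 84648) (nat_lit 8) (node
  (nat_lit 4) (nat_lit 81792) (nat_lit 9) (node (nat_lit 5) (nat_lit 78345) (nat_lit 10) (node
  (nat_lit 6) (nat_lit 78308) (nat_lit 11) (node (nat_lit 7) (nat_lit 77304) (nat_lit 12) nil nil)
  nil) nil) (node (nat_lit 6) (nat_lit 87186) (nat_lit 9) nil nil)) nil) (node (nat_lit 4)
  (nat_lit 84292) (nat_lit 7) nil nil))) (node (nat_lit 6) (nat_lit 91298) (nat_lit 6) (node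
  (nat_lit 4) (nat_lit 91225) (nat_lit 7) (node (nat_lit 7) (nat_lit 91298) (nat_lit 8) (node
  (nat_lit 6) (nat_lit 91939) (nat_lit 9) (node (nat_lit 7) (nat_lit 91826) (nat_lit 10) (node
  (nat_lit 4) (nat_lit 91661) (nat_lit 11) nil nil) nil) (node (nat_lit 4) (nat_lit 88586)
  (nat_lit 9) (node (nat_lit 5) (nat_lit 87256) (nat_lit 10) (node (nat_lit 6) (nat_lit 84973)
  (nat_lit 11) (node (nat_lit 7) (nat_lit 77889) (nat_lit 12) (node (nat_lit 4) (nat_lit 68662)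
  (nat_lit 13) nil nil) nil) nil) nil) nil)) (node (nat_lit 5) (nat_lit 85358) (nat_lit 8) (node
  (nat_lit 6) (nat_lit 80108) (nat_lit 9) (node (nat_lit 7) (nat_lit 66220) (nat_lit 10) (node
  (nat_lit 4) (nat_lit 26353) (nat_lit 11) nil nil) nil) nil) nil)) (node (nat_lit 5) (nat_lit
  91298) (nat_lit 7) (node (nat_lit 4) (nat_lit 91298) (nat_lit 8) nil (node (nat_lit 7) (nat_lit
  91298) (nat_lit 8) (node (nat_lit 5) (nat_lit 91234) (nat_lit 9) (node (nat_lit 4) (nat_lit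
  88477) (nat_lit 10) nil nil) nil) nil)) (node (nat_lit 7) (nat_lit 91298) (nat_lit 7) (node
  (nat_lit 6) (nat_lit 91842) (nat_lit 8) (node (nat_lit 4) (nat_lit 91842) (nat_lit 9) (node
  (nat_lit 7) (nat_lit 91842) (nat_lit 10) (node (nat_lit 4) (nat_lit 91842) (nat_lit 11) nil nil)
  nil) nil) nil) nil))) (node (nat_lit 7) (nat_lit 86106) (nat_lit 6) (node (nat_lit 6) (nat_lit
  88790) (nat_lit 7) (node (nat_lit 4) (nat_lit 88790) (nat_lit 8) (node (nat_lit 6) (nat_lit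
  89047) (nat_lit 9) nil (node (nat_lit 5) (nat_lit 88790) (nat_lit 9) (node (nat_lit 6) (nat_lit
  87151) (nat_lit 10) (node (nat_lit 7) (nat_lit 74686) (nat_lit 11) nil nil) nil) nil)) (node
  (nat_lit 7) (nat_lit 88790) (nat_lit 8) (node (nat_lit 5) (nat_lit 88790) (nat_lit 9) (node
  (nat_lit 6) (nat_lit 89121) (nat_lit 10) nil (node (nat_lit 4) (nat_lit 88790) (nat_lit 10) nil
  nil)) (node (nat_lit 4) (nat_lit 88790) (nat_lit 9) nil nil)) (node (nat_lit 5) (nat_lit 88790)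
  (nat_lit 8) nil nil))) (node (nat_lit 5) (nat_lit 84379) (nat_lit 7) (node (nat_lit 4) (nat_lit
  83508) (nat_lit 8) (node (nat_lit 5) (nat_lit 80896) (nat_lit 9) (node (nat_lit 7) (nat_lit
  79250) (nat_lit 10) nil (node (nat_lit 6) (nat_lit 77485) (nat_lit 10) (node (nat_lit 7)
  (nat_lit 73807) (nat_lit 11) (node (nat_lit 4) (nat_lit 73538) (nat_lit 12) nil nil) nil) nil))
  (node (nat_lit 6) (nat_lit 86046) (nat_lit 9) nil nil)) nil) nil)) (node (nat_lit 0) (nat_lit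
  88572) (nat_lit 6) (node (nat_lit 7) (nat_lit 88572) (nat_lit 7) nil (node (nat_lit 6) (nat_lit
  88790) (nat_lit 7) nil (node (nat_lit 5) (nat_lit 88572) (nat_lit 7) nil nil))) nil)))) (node
  (nat_lit 6) (nat_lit 79125) (nat_lit 5) (node (nat_lit 5) (nat_lit 88481) (nat_lit 6) (node
  (nat_lit 7) (nat_lit 93044) (nat_lit 7) (node (nat_lit 5) (nat_lit 91828) (nat_lit 8) (node
  (nat_lit 6) (nat_lit 93003) (nat_lit 9) nil nil) (node (nat_lit 6) (nat_lit 94268) (nat_lit 8)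
  (node (nat_lit 7) (nat_lit 94268) (nat_lit 9) (node (nat_lit 5) (nat_lit 93511) (nat_lit 10)
  (node (nat_lit 6) (nat_lit 94096) (nat_lit 11) (node (nat_lit 7) (nat_lit 94414) (nat_lit 12)
  (node (nat_lit 6) (nat_lit 94750) (nat_lit 13) (node (nat_lit 5) (nat_lit 94201) (nat_lit 14)
  nil nil) nil) nil) nil) nil) nil) (node (nat_lit 4) (nat_lit 92652) (nat_lit 8) (node (nat_lit
  5) (nat_lit 90064) (nat_lit 9) (node (nat_lit 6) (nat_lit 83667) (nat_lit 10) (node (nat_lit 7)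
  (nat_lit 72590) (nat_lit 11) (node (nat_lit 6) (nat_lit 60300) (nat_lit 12) (node (nat_lit 5)
  (nat_lit 59306) (nat_lit 13) nil nil) nil) nil) nil) nil) nil))) (node (nat_lit 6) (nat_lit
  92365) (nat_lit 7) (node (nat_lit 4) (nat_lit 93972) (nat_lit 8) (node (nat_lit 5) (nat_lit
  88635) (nat_lit 9) (node (nat_lit 6) (nat_lit 89282) (nat_lit 10) (node (nat_lit 7) (nat_lit
  72552) (nat_lit 11) (node (nat_lit 6) (nat_lit 51926) (nat_lit 12) (node (nat_lit 5) (nat_lit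
  29052) (nat_lit 13) nil nil) nil) nil) nil) nil) nil) (node (nat_lit 4) (nat_lit 93044) (nat_lit
  7) (node (nat_lit 5) (nat_lit 93044) (nat_lit 8) (node (nat_lit 6) (nat_lit 94493) (nat_lit 9)
  (node (nat_lit 7) (nat_lit 94493) (nat_lit 10) nil nil) nil) nil) nil))) (node (nat_lit 4)
  (nat_lit 91935) (nat_lit 6) (node (nat_lit 7) (nat_lit 93044) (nat_lit 7) (node (nat_lit 4)
  (nat_lit 93044) (nat_lit 8) (node (nat_lit 6) (nat_lit 94493) (nat_lit 9) (node (nat_lit 4)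
  (nat_lit 92910) (nat_lit 10) nil nil) (node (nat_lit 5) (nat_lit 93044) (nat_lit 9) (node
  (nat_lit 6) (nat_lit 87213) (nat_lit 10) (node (nat_lit 7) (nat_lit 79258) (nat_lit 11) (node
  (nat_lit 6) (nat_lit 62304) (nat_lit 12) (node (nat_lit 4) (nat_lit 62497) (nat_lit 13) nil nil)
  nil) nil) nil) nil)) nil) (node (nat_lit 5) (nat_lit 91007) (nat_lit 7) (node (nat_lit 6)
  (nat_lit 65745) (nat_lit 8) (node (nat_lit 7) (nat_lit 28409) (nat_lit 9) (node (nat_lit 5)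
  (nat_lit 28409) (nat_lit 10) (node (nat_lit 4) (nat_lit 28409) (nat_lit 11) nil nil) (node
  (nat_lit 4) (nat_lit 28409) (nat_lit 10) nil nil)) nil) (node (nat_lit 7) (nat_lit 84827)
  (nat_lit 8) (node (nat_lit 5) (nat_lit 83483) (nat_lit 9) nil nil) nil)) (node (nat_lit 6)
  (nat_lit 93972) (nat_lit 7) (node (nat_lit 5) (nat_lit 92452) (nat_lit 8) nil nil) nil))) (node
  (nat_lit 0) (nat_lit 93276) (nat_lit 6) (node (nat_lit 7) (nat_lit 90831) (nat_lit 7) (node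
  (nat_lit 6) (nat_lit 91426) (nat_lit 8) nil nil) nil) nil))) (node (nat_lit 0) (nat_lit 90228)
  (nat_lit 5) (node (nat_lit 5) (nat_lit 90516) (nat_lit 6) (node (nat_lit 7) (nat_lit 88177)
  (nat_lit 7) nil (node (nat_lit 4) (nat_lit 89445) (nat_lit 7) nil nil)) (node (nat_lit 6)
  (nat_lit 90890) (nat_lit 6) (node (nat_lit 7) (nat_lit 90890) (nat_lit 7) nil (node (nat_lit 4)
  (nat_lit 90890) (nat_lit 7) (node (nat_lit 5) (nat_lit 90890) (nat_lit 8) nil nil) nil)) (node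
  (nat_lit 7) (nat_lit 90516) (nat_lit 6) (node (nat_lit 6) (nat_lit 91109) (nat_lit 7) nil (node
  (nat_lit 5) (nat_lit 90516) (nat_lit 7) nil (node (nat_lit 4) (nat_lit 90516) (nat_lit 7) nil
  nil))) nil))) nil))))

noncomputable def t43 : Tr :=
  (node (nat_lit 4) (nat_lit 0) (nat_lit 4) (node (nat_lit 5) (nat_lit 0) (nat_lit 5) (node
  (nat_lit 4) (nat_lit 24170) (nat_lit 6) (node (nat_lit 6) (nat_lit 37526) (nat_lit 7) t40 (node
  (nat_lit 3) (nat_lit 25671) (nat_lit 7) (node (nat_lit 5) (nat_lit 25753) (nat_lit 8) (node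
  (nat_lit 10) (nat_lit 25753) (nat_lit 9) (node (nat_lit 4) (nat_lit 25753) (nat_lit 10) (node
  (nat_lit 5) (nat_lit 27524) (nat_lit 11) (node (nat_lit 6) (nat_lit 26663) (nat_lit 12) (node
  (nat_lit 4) (nat_lit 23354) (nat_lit 13) (node (nat_lit 5) (nat_lit 21181) (nat_lit 14) nil nil)
  nil) (node (nat_lit 4) (nat_lit 27669) (nat_lit 12) (node (nat_lit 6) (nat_lit 29514) (nat_lit
  13) nil nil) nil)) (node (nat_lit 10) (nat_lit 28493) (nat_lit 11) (node (nat_lit 5) (nat_lit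
  28602) (nat_lit 12) nil (node (nat_lit 6) (nat_lit 31797) (nat_lit 12) nil nil)) (node (nat_lit
  6) (nat_lit 31803) (nat_lit 11) nil (node (nat_lit 0) (nat_lit 31138) (nat_lit 11) nil nil))))
  (node (nat_lit 6) (nat_lit 35292) (nat_lit 10) (node (nat_lit 5) (nat_lit 35292) (nat_lit 11)
  (node (nat_lit 4) (nat_lit 35292) (nat_lit 12) nil nil) nil) (node (nat_lit 0) (nat_lit 34409)
  (nat_lit 10) nil nil))) (node (nat_lit 4) (nat_lit 25753) (nat_lit 9) (node (nat_lit 5) (nat_lit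
  25753) (nat_lit 10) (node (nat_lit 6) (nat_lit 27793) (nat_lit 11) (node (nat_lit 4) (nat_lit
  22254) (nat_lit 12) nil nil) (node (nat_lit 10) (nat_lit 28127) (nat_lit 11) nil nil)) (node
  (nat_lit 6) (nat_lit 35673) (nat_lit 10) (node (nat_lit 4) (nat_lit 35673) (nat_lit 11) nil
  (node (nat_lit 5) (nat_lit 35673) (nat_lit 11) nil nil)) nil)) (node (nat_lit 6) (nat_lit 35753)
  (nat_lit 9) (node (nat_lit 5) (nat_lit 35753) (nat_lit 10) (node (nat_lit 4) (nat_lit 35753)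
  (nat_lit 11) nil nil) nil) (node (nat_lit 0) (nat_lit 35532) (nat_lit 9) nil nil)))) (node
  (nat_lit 6) (nat_lit 37750) (nat_lit 8) (node (nat_lit 5) (nat_lit 37750) (nat_lit 9) (node
  (nat_lit 6) (nat_lit 38149) (nat_lit 10) nil (node (nat_lit 4) (nat_lit 37750) (nat_lit 10)
  (node (nat_lit 5) (nat_lit 37750) (nat_lit 11) (node (nat_lit 6) (nat_lit 38392) (nat_lit 12)
  (node (nat_lit 4) (nat_lit 38392) (nat_lit 13) nil nil) nil) (node (nat_lit 6) (nat_lit 38285)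
  (nat_lit 11) nil nil)) (node (nat_lit 10) (nat_lit 37750) (nat_lit 10) nil nil))) (node (nat_lit
  10) (nat_lit 37750) (nat_lit 9) (node (nat_lit 5) (nat_lit 37750) (nat_lit 10) (node (nat_lit 4)
  (nat_lit 37750) (nat_lit 11) nil nil) (node (nat_lit 4) (nat_lit 37750) (nat_lit 10) (node
  (nat_lit 5) (nat_lit 37750) (nat_lit 11) (node (nat_lit 6) (nat_lit 38392) (nat_lit 12) (node
  (nat_lit 4) (nat_lit 38392) (nat_lit 13) nil nil) nil) nil) nil)) (node (nat_lit 4) (nat_lit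
  37750) (nat_lit 9) (node (nat_lit 6) (nat_lit 38149) (nat_lit 10) (node (nat_lit 5) (nat_lit
  38149) (nat_lit 11) nil nil) (node (nat_lit 10) (nat_lit 37750) (nat_lit 10) nil nil)) nil)))
  (node (nat_lit 4) (nat_lit 25753) (nat_lit 8) (node (nat_lit 5) (nat_lit 25753) (nat_lit 9)
  (node (nat_lit 6) (nat_lit 27577) (nat_lit 10) (node (nat_lit 4) (nat_lit 14937) (nat_lit 11)
  nil nil) (node (nat_lit 10) (nat_lit 25753) (nat_lit 10) (node (nat_lit 5) (nat_lit 27182)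
  (nat_lit 11) nil (node (nat_lit 4) (nat_lit 27586) (nat_lit 11) nil nil)) (node (nat_lit 4)
  (nat_lit 25753) (nat_lit 10) (node (nat_lit 6) (nat_lit 30035) (nat_lit 11) nil nil) (node
  (nat_lit 0) (nat_lit 31546) (nat_lit 10) nil nil)))) (node (nat_lit 6) (nat_lit 34922) (nat_lit
  9) (node (nat_lit 5) (nat_lit 34922) (nat_lit 10) (node (nat_lit 4) (nat_lit 34922) (nat_lit 11)
  nil nil) nil) (node (nat_lit 0) (nat_lit 33593) (nat_lit 9) nil nil))) (node (nat_lit 0)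
  (nat_lit 37093) (nat_lit 8) (node (nat_lit 10) (nat_lit 37093) (nat_lit 9) (node (nat_lit 4)
  (nat_lit 37093) (nat_lit 10) nil (node (nat_lit 5) (nat_lit 37093) (nat_lit 10) nil (node
  (nat_lit 6) (nat_lit 37492) (nat_lit 10) (node (nat_lit 5) (nat_lit 37492) (nat_lit 11) nil nil)
  nil))) (node (nat_lit 4) (nat_lit 37093) (nat_lit 9) nil (node (nat_lit 5) (nat_lit 37093)
  (nat_lit 9) nil (node (nat_lit 6) (nat_lit 37318) (nat_lit 9) nil nil)))) nil)))) (node (nat_lit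
  0) (nat_lit 38480) (nat_lit 7) (node (nat_lit 5) (nat_lit 38480) (nat_lit 8) (node (nat_lit 4)
  (nat_lit 38480) (nat_lit 9) (node (nat_lit 5) (nat_lit 38480) (nat_lit 10) (node (nat_lit 6)
  (nat_lit 39311) (nat_lit 11) (node (nat_lit 4) (nat_lit 39311) (nat_lit 12) (node (nat_lit 5)
  (nat_lit 39311) (nat_lit 13) nil nil) nil) nil) nil) (node (nat_lit 10) (nat_lit 39000) (nat_lit
  9) nil (node (nat_lit 6) (nat_lit 39000) (nat_lit 9) (node (nat_lit 5) (nat_lit 39000) (nat_lit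
  10) nil nil) nil))) (node (nat_lit 6) (nat_lit 39262) (nat_lit 8) (node (nat_lit 5) (nat_lit
  39262) (nat_lit 9) (node (nat_lit 4) (nat_lit 39262) (nat_lit 10) (node (nat_lit 5) (nat_lit
  39262) (nat_lit 11) nil nil) nil) (node (nat_lit 10) (nat_lit 39486) (nat_lit 9) (node (nat_lit
  5) (nat_lit 39486) (nat_lit 10) nil nil) (node (nat_lit 4) (nat_lit 39262) (nat_lit 9) nil (node
  (nat_lit 3) (nat_lit 39262) (nat_lit 9) nil nil)))) (node (nat_lit 4) (nat_lit 38480) (nat_lit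
  8) (node (nat_lit 5) (nat_lit 38480) (nat_lit 9) nil (node (nat_lit 6) (nat_lit 39000) (nat_lit
  9) (node (nat_lit 5) (nat_lit 39000) (nat_lit 10) nil nil) (node (nat_lit 3) (nat_lit 38480)
  (nat_lit 9) nil nil))) (node (nat_lit 3) (nat_lit 38480) (nat_lit 8) (node (nat_lit 4) (nat_lit
  38480) (nat_lit 9) (node (nat_lit 5) (nat_lit 38480) (nat_lit 10) nil nil) (node (nat_lit 5)
  (nat_lit 38480) (nat_lit 9) nil (node (nat_lit 10) (nat_lit 39000) (nat_lit 9) (node (nat_lit 5)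
  (nat_lit 39000) (nat_lit 10) nil nil) (node (nat_lit 6) (nat_lit 39000) (nat_lit 9) nil nil))))
  (node (nat_lit 0) (nat_lit 39128) (nat_lit 8) (node (nat_lit 5) (nat_lit 39128) (nat_lit 9) nil
  nil) nil))))) nil))) (node (nat_lit 3) (nat_lit 25386) (nat_lit 6) (node (nat_lit 4) (nat_lit
  25613) (nat_lit 7) (node (nat_lit 9) (nat_lit 25682) (nat_lit 8) (node (nat_lit 5) (nat_lit
  25682) (nat_lit 9) (node (nat_lit 4) (nat_lit 25682) (nat_lit 10) (node (nat_lit 5) (nat_lit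
  27760) (nat_lit 11) (node (nat_lit 6) (nat_lit 26700) (nat_lit 12) (node (nat_lit 4) (nat_lit
  20278) (nat_lit 13) (node (nat_lit 5) (nat_lit 20984) (nat_lit 14) nil nil) nil) (node (nat_lit
  9) (nat_lit 25888) (nat_lit 12) nil nil)) (node (nat_lit 6) (nat_lit 29964) (nat_lit 11) nil
  (node (nat_lit 9) (nat_lit 26528) (nat_lit 11) (node (nat_lit 4) (nat_lit 27216) (nat_lit 12)
  nil nil) nil))) (node (nat_lit 9) (nat_lit 25688) (nat_lit 10) (node (nat_lit 4) (nat_lit 28487)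
  (nat_lit 11) (node (nat_lit 5) (nat_lit 29862) (nat_lit 12) nil nil) (node (nat_lit 6) (nat_lit
  29968) (nat_lit 11) nil (node (nat_lit 0) (nat_lit 28982) (nat_lit 11) nil nil))) (node (nat_lit
  6) (nat_lit 32648) (nat_lit 10) nil (node (nat_lit 0) (nat_lit 30838) (nat_lit 10) nil nil))))
  (node (nat_lit 6) (nat_lit 35344) (nat_lit 9) (node (nat_lit 5) (nat_lit 35344) (nat_lit 10)
  (node (nat_lit 9) (nat_lit 35344) (nat_lit 11) (node (nat_lit 5) (nat_lit 35344) (nat_lit 12)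
  nil nil) nil) nil) (node (nat_lit 0) (nat_lit 34673) (nat_lit 9) nil nil))) (node (nat_lit 6)
  (nat_lit 37988) (nat_lit 8) (node (nat_lit 5) (nat_lit 37988) (nat_lit 9) (node (nat_lit 6)
  (nat_lit 38387) (nat_lit 10) (node (nat_lit 9) (nat_lit 38387) (nat_lit 11) nil nil) (node
  (nat_lit 4) (nat_lit 37988) (nat_lit 10) (node (nat_lit 5) (nat_lit 37988) (nat_lit 11) nil nil)
  (node (nat_lit 9) (nat_lit 37988) (nat_lit 10) nil nil))) (node (nat_lit 9) (nat_lit 37988)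
  (nat_lit 9) (node (nat_lit 5) (nat_lit 37988) (nat_lit 10) (node (nat_lit 9) (nat_lit 37988)
  (nat_lit 11) nil (node (nat_lit 4) (nat_lit 37988) (nat_lit 11) nil nil)) (node (nat_lit 4)
  (nat_lit 37988) (nat_lit 10) (node (nat_lit 5) (nat_lit 37988) (nat_lit 11) nil nil) nil)) (node
  (nat_lit 4) (nat_lit 37988) (nat_lit 9) (node (nat_lit 9) (nat_lit 37988) (nat_lit 10) (node
  (nat_lit 4) (nat_lit 37988) (nat_lit 11) (node (nat_lit 5) (nat_lit 37988) (nat_lit 12) nil nil)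
  nil) nil) nil))) (node (nat_lit 5) (nat_lit 25682) (nat_lit 8) (node (nat_lit 4) (nat_lit 25682)
  (nat_lit 9) (node (nat_lit 9) (nat_lit 25682) (nat_lit 10) (node (nat_lit 5) (nat_lit 27331)
  (nat_lit 11) nil (node (nat_lit 4) (nat_lit 26799) (nat_lit 11) (node (nat_lit 5) (nat_lit
  27487) (nat_lit 12) nil nil) nil)) (node (nat_lit 6) (nat_lit 31474) (nat_lit 10) nil nil))
  (node (nat_lit 6) (nat_lit 28327) (nat_lit 9) nil (node (nat_lit 0) (nat_lit 30547) (nat_lit 9)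
  nil nil))) (node (nat_lit 0) (nat_lit 35264) (nat_lit 8) (node (nat_lit 9) (nat_lit 35264)
  (nat_lit 9) nil (node (nat_lit 5) (nat_lit 35264) (nat_lit 9) nil nil)) nil)))) (node (nat_lit
  5) (nat_lit 25554) (nat_lit 7) (node (nat_lit 4) (nat_lit 25625) (nat_lit 8) (node (nat_lit 5)
  (nat_lit 25625) (nat_lit 9) (node (nat_lit 9) (nat_lit 25625) (nat_lit 10) (node (nat_lit 4)
  (nat_lit 27179) (nat_lit 11) (node (nat_lit 5) (nat_lit 28066) (nat_lit 12) (node (nat_lit 6)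
  (nat_lit 25723) (nat_lit 13) (node (nat_lit 4) (nat_lit 25411) (nat_lit 14) nil nil) nil) (node
  (nat_lit 9) (nat_lit 27063) (nat_lit 12) nil nil)) (node (nat_lit 6) (nat_lit 31048) (nat_lit
  11) nil (node (nat_lit 0) (nat_lit 28919) (nat_lit 11) nil nil))) (node (nat_lit 6) (nat_lit
  25001) (nat_lit 10) nil nil)) (node (nat_lit 9) (nat_lit 25625) (nat_lit 9) (node (nat_lit 4)
  (nat_lit 25625) (nat_lit 10) (node (nat_lit 5) (nat_lit 27016) (nat_lit 11) (node (nat_lit 6)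
  (nat_lit 24284) (nat_lit 12) nil nil) nil) (node (nat_lit 5) (nat_lit 25625) (nat_lit 10) (node
  (nat_lit 9) (nat_lit 27709) (nat_lit 11) (node (nat_lit 4) (nat_lit 28479) (nat_lit 12) (node
  (nat_lit 5) (nat_lit 28679) (nat_lit 13) nil nil) nil) (node (nat_lit 6) (nat_lit 31009)
  (nat_lit 11) nil nil)) (node (nat_lit 6) (nat_lit 30781) (nat_lit 10) nil nil))) (node (nat_lit
  6) (nat_lit 34615) (nat_lit 9) (node (nat_lit 5) (nat_lit 34615) (nat_lit 10) nil (node (nat_lit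
  4) (nat_lit 34615) (nat_lit 10) nil nil)) (node (nat_lit 0) (nat_lit 32794) (nat_lit 9) nil
  nil)))) (node (nat_lit 6) (nat_lit 36910) (nat_lit 8) (node (nat_lit 9) (nat_lit 36910) (nat_lit
  9) (node (nat_lit 4) (nat_lit 36910) (nat_lit 10) (node (nat_lit 5) (nat_lit 36910) (nat_lit 11)
  nil nil) nil) (node (nat_lit 4) (nat_lit 36910) (nat_lit 9) nil (node (nat_lit 5) (nat_lit
  36910) (nat_lit 9) (node (nat_lit 9) (nat_lit 36910) (nat_lit 10) nil (node (nat_lit 4) (nat_lit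
  36910) (nat_lit 10) (node (nat_lit 5) (nat_lit 36910) (nat_lit 11) nil nil) nil)) nil))) (node
  (nat_lit 0) (nat_lit 35637) (nat_lit 8) (node (nat_lit 5) (nat_lit 35637) (nat_lit 9) nil nil)
  nil))) (node (nat_lit 6) (nat_lit 38414) (nat_lit 7) (node (nat_lit 5) (nat_lit 38427) (nat_lit
  8) (node (nat_lit 6) (nat_lit 39325) (nat_lit 9) (node (nat_lit 9) (nat_lit 39325) (nat_lit 10)
  (node (nat_lit 5) (nat_lit 39325) (nat_lit 11) (node (nat_lit 9) (nat_lit 39325) (nat_lit 12)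
  nil nil) (node (nat_lit 4) (nat_lit 39325) (nat_lit 11) nil nil)) (node (nat_lit 4) (nat_lit
  39325) (nat_lit 10) nil nil)) (node (nat_lit 4) (nat_lit 38427) (nat_lit 9) (node (nat_lit 5)
  (nat_lit 38427) (nat_lit 10) (node (nat_lit 6) (nat_lit 39258) (nat_lit 11) (node (nat_lit 4)
  (nat_lit 39258) (nat_lit 12) (node (nat_lit 5) (nat_lit 39258) (nat_lit 13) nil nil) nil) nil)
  (node (nat_lit 6) (nat_lit 39122) (nat_lit 10) nil nil)) (node (nat_lit 9) (nat_lit 38427)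
  (nat_lit 9) (node (nat_lit 5) (nat_lit 38427) (nat_lit 10) (node (nat_lit 6) (nat_lit 39258)
  (nat_lit 11) nil nil) (node (nat_lit 4) (nat_lit 38427) (nat_lit 10) nil nil)) (node (nat_lit 0)
  (nat_lit 38947) (nat_lit 9) nil nil)))) (node (nat_lit 9) (nat_lit 38427) (nat_lit 8) (node
  (nat_lit 4) (nat_lit 38427) (nat_lit 9) (node (nat_lit 5) (nat_lit 38427) (nat_lit 10) (node
  (nat_lit 6) (nat_lit 39258) (nat_lit 11) (node (nat_lit 4) (nat_lit 39258) (nat_lit 12) (node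
  (nat_lit 5) (nat_lit 39258) (nat_lit 13) nil nil) nil) nil) (node (nat_lit 6) (nat_lit 39122)
  (nat_lit 10) (node (nat_lit 5) (nat_lit 39122) (nat_lit 11) nil nil) nil)) (node (nat_lit 5)
  (nat_lit 38427) (nat_lit 9) (node (nat_lit 6) (nat_lit 39122) (nat_lit 10) nil (node (nat_lit 4)
  (nat_lit 38427) (nat_lit 10) (node (nat_lit 5) (nat_lit 38427) (nat_lit 11) nil nil) nil)) (node
  (nat_lit 0) (nat_lit 38947) (nat_lit 9) nil nil))) (node (nat_lit 4) (nat_lit 38427) (nat_lit 8)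
  (node (nat_lit 6) (nat_lit 39168) (nat_lit 9) (node (nat_lit 5) (nat_lit 39168) (nat_lit 10)
  (node (nat_lit 4) (nat_lit 39168) (nat_lit 11) nil nil) nil) (node (nat_lit 9) (nat_lit 38427)
  (nat_lit 9) nil nil)) (node (nat_lit 0) (nat_lit 38883) (nat_lit 8) nil nil)))) (node (nat_lit
  0) (nat_lit 36817) (nat_lit 7) (node (nat_lit 4) (nat_lit 36817) (nat_lit 8) nil (node (nat_lit
  9) (nat_lit 36817) (nat_lit 8) (node (nat_lit 5) (nat_lit 36817) (nat_lit 9) nil (node (nat_lit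
  4) (nat_lit 36817) (nat_lit 9) nil nil)) (node (nat_lit 6) (nat_lit 37113) (nat_lit 8) (node
  (nat_lit 5) (nat_lit 37113) (nat_lit 9) nil nil) (node (nat_lit 5) (nat_lit 36817) (nat_lit 8)
  (node (nat_lit 4) (nat_lit 36817) (nat_lit 9) nil nil) nil)))) nil)))) (node (nat_lit 0)
  (nat_lit 36471) (nat_lit 6) (node (nat_lit 4) (nat_lit 36765) (nat_lit 7) (node (nat_lit 5)
  (nat_lit 36840) (nat_lit 8) nil (node (nat_lit 6) (nat_lit 37917) (nat_lit 8) (node (nat_lit 5)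
  (nat_lit 37917) (nat_lit 9) (node (nat_lit 4) (nat_lit 37917) (nat_lit 10) nil nil) nil) (node
  (nat_lit 9) (nat_lit 37530) (nat_lit 8) (node (nat_lit 5) (nat_lit 37530) (nat_lit 9) nil nil)
  (node (nat_lit 3) (nat_lit 36765) (nat_lit 8) nil (node (nat_lit 0) (nat_lit 37530) (nat_lit 8)
  nil nil))))) (node (nat_lit 5) (nat_lit 36602) (nat_lit 7) (node (nat_lit 6) (nat_lit 37732)
  (nat_lit 8) (node (nat_lit 5) (nat_lit 37732) (nat_lit 9) (node (nat_lit 4) (nat_lit 37732)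
  (nat_lit 10) (node (nat_lit 5) (nat_lit 37732) (nat_lit 11) nil nil) nil) nil) (node (nat_lit 4)
  (nat_lit 36840) (nat_lit 8) (node (nat_lit 5) (nat_lit 36840) (nat_lit 9) (node (nat_lit 6)
  (nat_lit 37929) (nat_lit 10) nil nil) nil) (node (nat_lit 3) (nat_lit 36840) (nat_lit 8) (node
  (nat_lit 5) (nat_lit 36840) (nat_lit 9) nil (node (nat_lit 4) (nat_lit 36461) (nat_lit 9) nil
  nil)) (node (nat_lit 0) (nat_lit 37530) (nat_lit 8) nil nil)))) (node (nat_lit 6) (nat_lit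
  38121) (nat_lit 7) (node (nat_lit 5) (nat_lit 38121) (nat_lit 8) (node (nat_lit 4) (nat_lit
  38121) (nat_lit 9) nil nil) (node (nat_lit 9) (nat_lit 38417) (nat_lit 8) (node (nat_lit 5)
  (nat_lit 38417) (nat_lit 9) (node (nat_lit 4) (nat_lit 38417) (nat_lit 10) nil nil) nil) (node
  (nat_lit 4) (nat_lit 38121) (nat_lit 8) nil (node (nat_lit 3) (nat_lit 38121) (nat_lit 8) nil
  nil)))) (node (nat_lit 3) (nat_lit 36779) (nat_lit 7) (node (nat_lit 5) (nat_lit 36840) (nat_lit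
  8) (node (nat_lit 4) (nat_lit 36840) (nat_lit 9) nil (node (nat_lit 10) (nat_lit 36840) (nat_lit
  9) nil nil)) (node (nat_lit 4) (nat_lit 36451) (nat_lit 8) (node (nat_lit 5) (nat_lit 36451)
  (nat_lit 9) (node (nat_lit 6) (nat_lit 37929) (nat_lit 10) nil nil) nil) (node (nat_lit 6)
  (nat_lit 37530) (nat_lit 8) nil (node (nat_lit 9) (nat_lit 37530) (nat_lit 8) (node (nat_lit 5)
  (nat_lit 37530) (nat_lit 9) nil nil) nil)))) (node (nat_lit 0) (nat_lit 38059) (nat_lit 7) (node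
  (nat_lit 6) (nat_lit 38355) (nat_lit 8) nil (node (nat_lit 9) (nat_lit 38355) (nat_lit 8) (node
  (nat_lit 5) (nat_lit 38355) (nat_lit 9) nil nil) (node (nat_lit 5) (nat_lit 38059) (nat_lit 8)
  (node (nat_lit 4) (nat_lit 38059) (nat_lit 9) nil nil) nil))) nil))))) nil))) t41) (node
  (nat_lit 3) (nat_lit 0) (nat_lit 4) t42 (node (nat_lit 5) (nat_lit 0) (nat_lit 4) (node (nat_lit
  4) (nat_lit 0) (nat_lit 5) (node (nat_lit 5) (nat_lit 71712) (nat_lit 6) (node (nat_lit 6)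
  (nat_lit 61051) (nat_lit 7) (node (nat_lit 4) (nat_lit 70330) (nat_lit 8) (node (nat_lit 6)
  (nat_lit 72489) (nat_lit 9) (node (nat_lit 5) (nat_lit 71617) (nat_lit 10) (node (nat_lit 6)
  (nat_lit 72104) (nat_lit 11) (node (nat_lit 4) (nat_lit 71597) (nat_lit 12) (node (nat_lit 5)
  (nat_lit 71218) (nat_lit 13) (node (nat_lit 6) (nat_lit 71489) (nat_lit 14) (node (nat_lit 5)
  (nat_lit 71269) (nat_lit 15) (node (nat_lit 4) (nat_lit 71095) (nat_lit 16) (node (nat_lit 5)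
  (nat_lit 67565) (nat_lit 17) (node (nat_lit 6) (nat_lit 62009) (nat_lit 18) (node (nat_lit 4)
  (nat_lit 54723) (nat_lit 19) (node (nat_lit 6) (nat_lit 33173) (nat_lit 20) (node (nat_lit 5)
  (nat_lit 16871) (nat_lit 21) nil nil) nil) nil) nil) nil) nil) nil) nil) nil) nil) (node
  (nat_lit 4) (nat_lit 70936) (nat_lit 11) (node (nat_lit 6) (nat_lit 71366) (nat_lit 12) (node
  (nat_lit 4) (nat_lit 70987) (nat_lit 13) (node (nat_lit 5) (nat_lit 70702) (nat_lit 14) (node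
  (nat_lit 6) (nat_lit 70906) (nat_lit 15) (node (nat_lit 5) (nat_lit 70732) (nat_lit 16) (node
  (nat_lit 4) (nat_lit 70597) (nat_lit 17) (node (nat_lit 5) (nat_lit 70491) (nat_lit 18) (node
  (nat_lit 6) (nat_lit 67098) (nat_lit 19) (node (nat_lit 4) (nat_lit 62549) (nat_lit 20) (node
  (nat_lit 6) (nat_lit 53082) (nat_lit 21) (node (nat_lit 5) (nat_lit 43102) (nat_lit 22) (node
  (nat_lit 4) (nat_lit 16877) (nat_lit 23) nil nil) nil) nil) nil) nil) nil) nil) nil) nil) nil)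
  nil) nil) nil)) nil) nil) (node (nat_lit 3) (nat_lit 74677) (nat_lit 8) nil (node (nat_lit 0)
  (nat_lit 73893) (nat_lit 8) nil nil))) (node (nat_lit 3) (nat_lit 83558) (nat_lit 7) (node
  (nat_lit 4) (nat_lit 84336) (nat_lit 8) nil (node (nat_lit 5) (nat_lit 80817) (nat_lit 8) (node
  (nat_lit 6) (nat_lit 84507) (nat_lit 9) (node (nat_lit 5) (nat_lit 84507) (nat_lit 10) nil nil)
  nil) nil)) (node (nat_lit 0) (nat_lit 89400) (nat_lit 7) nil nil))) (node (nat_lit 6) (nat_lit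
  71747) (nat_lit 6) (node (nat_lit 5) (nat_lit 83197) (nat_lit 7) (node (nat_lit 6) (nat_lit
  92626) (nat_lit 8) (node (nat_lit 4) (nat_lit 95548) (nat_lit 9) (node (nat_lit 5) (nat_lit
  96925) (nat_lit 10) (node (nat_lit 6) (nat_lit 95756) (nat_lit 11) (node (nat_lit 5) (nat_lit
  89284) (nat_lit 12) (node (nat_lit 4) (nat_lit 84191) (nat_lit 13) (node (nat_lit 6) (nat_lit
  68871) (nat_lit 14) nil nil) nil) nil) nil) nil) nil) nil) (node (nat_lit 4) (nat_lit 82918)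
  (nat_lit 7) (node (nat_lit 5) (nat_lit 92147) (nat_lit 8) (node (nat_lit 6) (nat_lit 86026)
  (nat_lit 9) (node (nat_lit 5) (nat_lit 79286) (nat_lit 10) (node (nat_lit 4) (nat_lit 36924)
  (nat_lit 11) (node (nat_lit 5) (nat_lit 36924) (nat_lit 12) (node (nat_lit 6) (nat_lit 38318)
  (nat_lit 13) nil nil) nil) nil) nil) nil) nil) (node (nat_lit 3) (nat_lit 95786) (nat_lit 7) nil
  (node (nat_lit 0) (nat_lit 97256) (nat_lit 7) nil nil)))) (node (nat_lit 3) (nat_lit 87156)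
  (nat_lit 6) (node (nat_lit 6) (nat_lit 90699) (nat_lit 7) (node (nat_lit 5) (nat_lit 90699)
  (nat_lit 8) nil (node (nat_lit 4) (nat_lit 90699) (nat_lit 8) (node (nat_lit 5) (nat_lit 88136)
  (nat_lit 9) (node (nat_lit 6) (nat_lit 79833) (nat_lit 10) (node (nat_lit 5) (nat_lit 69752)
  (nat_lit 11) (node (nat_lit 4) (nat_lit 57049) (nat_lit 12) nil nil) nil) nil) nil) nil)) (node
  (nat_lit 5) (nat_lit 87542) (nat_lit 7) (node (nat_lit 4) (nat_lit 88316) (nat_lit 8) (node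
  (nat_lit 5) (nat_lit 83409) (nat_lit 9) (node (nat_lit 6) (nat_lit 75215) (nat_lit 10) nil nil)
  nil) nil) (node (nat_lit 4) (nat_lit 87542) (nat_lit 7) (node (nat_lit 5) (nat_lit 83946)
  (nat_lit 8) (node (nat_lit 6) (nat_lit 74546) (nat_lit 9) (node (nat_lit 5) (nat_lit 67380)
  (nat_lit 10) nil nil) nil) nil) nil))) (node (nat_lit 0) (nat_lit 90570) (nat_lit 6) (node
  (nat_lit 5) (nat_lit 92790) (nat_lit 7) (node (nat_lit 4) (nat_lit 92705) (nat_lit 8) (node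
  (nat_lit 5) (nat_lit 92285) (nat_lit 9) (node (nat_lit 6) (nat_lit 92949) (nat_lit 10) nil nil)
  nil) nil) nil) nil)))) (node (nat_lit 3) (nat_lit 80319) (nat_lit 5) (node (nat_lit 6) (nat_lit
  89705) (nat_lit 6) (node (nat_lit 8) (nat_lit 89705) (nat_lit 7) (node (nat_lit 5) (nat_lit
  89705) (nat_lit 8) nil nil) (node (nat_lit 5) (nat_lit 89705) (nat_lit 7) nil (node (nat_lit 4)
  (nat_lit 89705) (nat_lit 7) (node (nat_lit 5) (nat_lit 89705) (nat_lit 8) (node (nat_lit 6)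
  (nat_lit 78042) (nat_lit 9) (node (nat_lit 5) (nat_lit 62516) (nat_lit 10) nil nil) nil) nil)
  nil))) (node (nat_lit 4) (nat_lit 85689) (nat_lit 6) (node (nat_lit 6) (nat_lit 88580) (nat_lit
  7) nil (node (nat_lit 5) (nat_lit 83032) (nat_lit 7) (node (nat_lit 6) (nat_lit 68334) (nat_lit
  8) (node (nat_lit 5) (nat_lit 66420) (nat_lit 9) nil nil) nil) (node (nat_lit 8) (nat_lit 85689)
  (nat_lit 7) (node (nat_lit 6) (nat_lit 88740) (nat_lit 8) (node (nat_lit 5) (nat_lit 88740)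
  (nat_lit 9) nil nil) nil) nil))) (node (nat_lit 5) (nat_lit 86446) (nat_lit 6) (node (nat_lit 6)
  (nat_lit 88580) (nat_lit 7) (node (nat_lit 8) (nat_lit 88580) (nat_lit 8) nil (node (nat_lit 4)
  (nat_lit 88580) (nat_lit 8) (node (nat_lit 5) (nat_lit 87804) (nat_lit 9) (node (nat_lit 6)
  (nat_lit 84445) (nat_lit 10) (node (nat_lit 5) (nat_lit 72991) (nat_lit 11) (node (nat_lit 8)
  (nat_lit 39870) (nat_lit 12) nil nil) nil) nil) nil) nil)) (node (nat_lit 4) (nat_lit 86446)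
  (nat_lit 7) (node (nat_lit 5) (nat_lit 80161) (nat_lit 8) (node (nat_lit 6) (nat_lit 75906)
  (nat_lit 9) (node (nat_lit 5) (nat_lit 73715) (nat_lit 10) (node (nat_lit 8) (nat_lit 73065)
  (nat_lit 11) nil nil) nil) nil) nil) nil)) (node (nat_lit 0) (nat_lit 88362) (nat_lit 6) nil
  nil)))) (node (nat_lit 0) (nat_lit 88761) (nat_lit 5) (node (nat_lit 5) (nat_lit 92318) (nat_lit
  6) (node (nat_lit 4) (nat_lit 89461) (nat_lit 7) nil nil) (node (nat_lit 6) (nat_lit 93337)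
  (nat_lit 6) nil (node (nat_lit 3) (nat_lit 92963) (nat_lit 6) (node (nat_lit 4) (nat_lit 92963)
  (nat_lit 7) (node (nat_lit 5) (nat_lit 92963) (nat_lit 8) nil nil) nil) nil))) nil))) (node
  (nat_lit 0) (nat_lit 0) (nat_lit 4) (node (nat_lit 5) (nat_lit 89022) (nat_lit 5) (node (nat_lit
  7) (nat_lit 93329) (nat_lit 6) (node (nat_lit 6) (nat_lit 93735) (nat_lit 7) (node (nat_lit 5)
  (nat_lit 93735) (nat_lit 8) nil nil) nil) (node (nat_lit 6) (nat_lit 92718) (nat_lit 6) (node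
  (nat_lit 5) (nat_lit 92718) (nat_lit 7) nil (node (nat_lit 4) (nat_lit 92718) (nat_lit 7) nil
  nil)) (node (nat_lit 3) (nat_lit 89022) (nat_lit 6) nil (node (nat_lit 4) (nat_lit 89415)
  (nat_lit 6) (node (nat_lit 5) (nat_lit 88888) (nat_lit 7) (node (nat_lit 6) (nat_lit 92159)
  (nat_lit 8) (node (nat_lit 7) (nat_lit 74140) (nat_lit 9) nil nil) nil) (node (nat_lit 7)
  (nat_lit 92322) (nat_lit 7) nil (node (nat_lit 6) (nat_lit 92322) (nat_lit 7) nil nil))) nil))))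
  (node (nat_lit 6) (nat_lit 93165) (nat_lit 5) (node (nat_lit 5) (nat_lit 93165) (nat_lit 6)
  (node (nat_lit 4) (nat_lit 92085) (nat_lit 7) nil nil) (node (nat_lit 4) (nat_lit 93165)
  (nat_lit 6) (node (nat_lit 5) (nat_lit 93165) (nat_lit 7) (node (nat_lit 6) (nat_lit 94927)
  (nat_lit 8) (node (nat_lit 7) (nat_lit 30582) (nat_lit 9) nil nil) nil) nil) nil)) (node
  (nat_lit 4) (nat_lit 88961) (nat_lit 5) (node (nat_lit 6) (nat_lit 92169) (nat_lit 6) (node
  (nat_lit 4) (nat_lit 92169) (nat_lit 7) (node (nat_lit 5) (nat_lit 91194) (nat_lit 8) (node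
  (nat_lit 6) (nat_lit 83738) (nat_lit 9) (node (nat_lit 7) (nat_lit 69465) (nat_lit 10) (node
  (nat_lit 4) (nat_lit 30177) (nat_lit 11) nil nil) nil) nil) nil) (node (nat_lit 5) (nat_lit
  92169) (nat_lit 7) nil nil)) (node (nat_lit 7) (nat_lit 92169) (nat_lit 6) (node (nat_lit 6)
  (nat_lit 92742) (nat_lit 7) nil nil) (node (nat_lit 5) (nat_lit 89655) (nat_lit 6) nil (node
  (nat_lit 3) (nat_lit 88961) (nat_lit 6) (node (nat_lit 6) (nat_lit 91868) (nat_lit 7) nil (node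
  (nat_lit 4) (nat_lit 88388) (nat_lit 7) (node (nat_lit 5) (nat_lit 83789) (nat_lit 8) nil nil)
  nil)) nil)))) (node (nat_lit 3) (nat_lit 88014) (nat_lit 5) (node (nat_lit 6) (nat_lit 90349)
  (nat_lit 6) nil (node (nat_lit 7) (nat_lit 91224) (nat_lit 6) (node (nat_lit 5) (nat_lit 91224)
  (nat_lit 7) nil (node (nat_lit 6) (nat_lit 91797) (nat_lit 7) (node (nat_lit 8) (nat_lit 91797)
  (nat_lit 8) nil nil) nil)) (node (nat_lit 5) (nat_lit 87553) (nat_lit 6) (node (nat_lit 4)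
  (nat_lit 85578) (nat_lit 7) nil nil) (node (nat_lit 4) (nat_lit 88014) (nat_lit 6) (node
  (nat_lit 5) (nat_lit 88014) (nat_lit 7) (node (nat_lit 6) (nat_lit 91285) (nat_lit 8) nil nil)
  nil) nil)))) (node (nat_lit 0) (nat_lit 92946) (nat_lit 5) (node (nat_lit 6) (nat_lit 93929)
  (nat_lit 6) (node (nat_lit 5) (nat_lit 93929) (nat_lit 7) (node (nat_lit 6) (nat_lit 94865)
  (nat_lit 8) nil nil) nil) (node (nat_lit 5) (nat_lit 93009) (nat_lit 6) nil (node (nat_lit 3)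
  (nat_lit 89797) (nat_lit 6) nil nil))) nil))))) nil))))

noncomputable def t44 : Tr :=
  (node (nat_lit 6) (nat_lit 0) (nat_lit 5) (node (nat_lit 5) (nat_lit 52811) (nat_lit 6) (node
  (nat_lit 4) (nat_lit 52965) (nat_lit 7) (node (nat_lit 5) (nat_lit 62907) (nat_lit 8) (node
  (nat_lit 6) (nat_lit 64862) (nat_lit 9) (node (nat_lit 4) (nat_lit 62327) (nat_lit 10) (node
  (nat_lit 5) (nat_lit 62725) (nat_lit 11) nil (node (nat_lit 6) (nat_lit 62725) (nat_lit 11) nil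
  nil)) (node (nat_lit 5) (nat_lit 66387) (nat_lit 10) (node (nat_lit 4) (nat_lit 66272) (nat_lit
  11) (node (nat_lit 6) (nat_lit 66387) (nat_lit 12) (node (nat_lit 4) (nat_lit 65522) (nat_lit
  13) (node (nat_lit 5) (nat_lit 65569) (nat_lit 14) (node (nat_lit 6) (nat_lit 64966) (nat_lit
  15) (node (nat_lit 4) (nat_lit 64153) (nat_lit 16) (node (nat_lit 6) (nat_lit 62725) (nat_lit
  17) (node (nat_lit 5) (nat_lit 60401) (nat_lit 18) (node (nat_lit 4) (nat_lit 58230) (nat_lit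
  19) (node (nat_lit 5) (nat_lit 56831) (nat_lit 20) (node (nat_lit 6) (nat_lit 55610) (nat_lit
  21) (node (nat_lit 5) (nat_lit 55550) (nat_lit 22) nil nil) nil) nil) nil) nil) nil) nil) nil)
  nil) (node (nat_lit 1) (nat_lit 66387) (nat_lit 13) nil nil)) (node (nat_lit 1) (nat_lit 66387)
  (nat_lit 12) (node (nat_lit 4) (nat_lit 66387) (nat_lit 13) nil (node (nat_lit 6) (nat_lit
  66387) (nat_lit 13) nil (node (nat_lit 5) (nat_lit 66387) (nat_lit 13) nil nil))) nil)) (node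
  (nat_lit 1) (nat_lit 66387) (nat_lit 11) (node (nat_lit 6) (nat_lit 66387) (nat_lit 12) (node
  (nat_lit 5) (nat_lit 66387) (nat_lit 13) nil (node (nat_lit 4) (nat_lit 66387) (nat_lit 13) nil
  nil)) (node (nat_lit 4) (nat_lit 66387) (nat_lit 12) nil (node (nat_lit 5) (nat_lit 66387)
  (nat_lit 12) nil nil))) (node (nat_lit 0) (nat_lit 66387) (nat_lit 11) (node (nat_lit 5)
  (nat_lit 66387) (nat_lit 12) nil nil) nil))) (node (nat_lit 1) (nat_lit 66387) (nat_lit 10)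
  (node (nat_lit 6) (nat_lit 66387) (nat_lit 11) (node (nat_lit 5) (nat_lit 66387) (nat_lit 12)
  nil (node (nat_lit 4) (nat_lit 66387) (nat_lit 12) nil nil)) (node (nat_lit 4) (nat_lit 64638)
  (nat_lit 11) (node (nat_lit 5) (nat_lit 65290) (nat_lit 12) nil nil) (node (nat_lit 5) (nat_lit
  66387) (nat_lit 11) nil nil))) (node (nat_lit 0) (nat_lit 66387) (nat_lit 10) (node (nat_lit 6)
  (nat_lit 66387) (nat_lit 11) nil nil) nil)))) (node (nat_lit 1) (nat_lit 66387) (nat_lit 9)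
  (node (nat_lit 4) (nat_lit 66387) (nat_lit 10) (node (nat_lit 5) (nat_lit 66387) (nat_lit 11)
  (node (nat_lit 6) (nat_lit 65533) (nat_lit 12) nil nil) nil) (node (nat_lit 6) (nat_lit 66387)
  (nat_lit 10) (node (nat_lit 5) (nat_lit 66387) (nat_lit 11) nil nil) (node (nat_lit 5) (nat_lit
  66387) (nat_lit 10) nil nil))) (node (nat_lit 0) (nat_lit 66387) (nat_lit 9) (node (nat_lit 6)
  (nat_lit 66387) (nat_lit 10) nil nil) nil))) (node (nat_lit 6) (nat_lit 63401) (nat_lit 8) (node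
  (nat_lit 4) (nat_lit 66947) (nat_lit 9) (node (nat_lit 5) (nat_lit 66947) (nat_lit 10) (node
  (nat_lit 6) (nat_lit 66947) (nat_lit 11) (node (nat_lit 5) (nat_lit 66947) (nat_lit 12) (node
  (nat_lit 4) (nat_lit 66590) (nat_lit 13) (node (nat_lit 5) (nat_lit 66132) (nat_lit 14) (node
  (nat_lit 6) (nat_lit 65774) (nat_lit 15) (node (nat_lit 4) (nat_lit 65495) (nat_lit 16) (node
  (nat_lit 6) (nat_lit 65276) (nat_lit 17) (node (nat_lit 5) (nat_lit 65105) (nat_lit 18) (node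
  (nat_lit 4) (nat_lit 61901) (nat_lit 19) (node (nat_lit 6) (nat_lit 56849) (nat_lit 20) (node
  (nat_lit 4) (nat_lit 55144) (nat_lit 21) (node (nat_lit 5) (nat_lit 55092) (nat_lit 22) (node
  (nat_lit 6) (nat_lit 55052) (nat_lit 23) nil nil) nil) nil) nil) nil) nil) nil) nil) nil) nil)
  nil) (node (nat_lit 4) (nat_lit 64841) (nat_lit 12) (node (nat_lit 6) (nat_lit 64841) (nat_lit
  13) (node (nat_lit 5) (nat_lit 64841) (nat_lit 14) (node (nat_lit 4) (nat_lit 64841) (nat_lit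
  15) nil nil) nil) (node (nat_lit 1) (nat_lit 64841) (nat_lit 13) nil nil)) (node (nat_lit 1)
  (nat_lit 66947) (nat_lit 12) (node (nat_lit 4) (nat_lit 66902) (nat_lit 13) nil (node (nat_lit
  6) (nat_lit 66947) (nat_lit 13) nil nil)) nil))) (node (nat_lit 4) (nat_lit 66947) (nat_lit 11)
  (node (nat_lit 6) (nat_lit 66947) (nat_lit 12) nil (node (nat_lit 1) (nat_lit 66947) (nat_lit
  12) nil nil)) (node (nat_lit 1) (nat_lit 66947) (nat_lit 11) (node (nat_lit 6) (nat_lit 66947)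
  (nat_lit 12) nil (node (nat_lit 4) (nat_lit 66947) (nat_lit 12) nil nil)) nil))) (node (nat_lit
  1) (nat_lit 66947) (nat_lit 10) (node (nat_lit 6) (nat_lit 66947) (nat_lit 11) (node (nat_lit 5)
  (nat_lit 66947) (nat_lit 12) nil nil) (node (nat_lit 4) (nat_lit 66947) (nat_lit 11) (node
  (nat_lit 5) (nat_lit 66947) (nat_lit 12) nil nil) nil)) (node (nat_lit 0) (nat_lit 66947)
  (nat_lit 10) nil nil))) (node (nat_lit 1) (nat_lit 66947) (nat_lit 9) (node (nat_lit 6) (nat_lit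
  66947) (nat_lit 10) (node (nat_lit 5) (nat_lit 66947) (nat_lit 11) nil nil) (node (nat_lit 4)
  (nat_lit 66947) (nat_lit 10) (node (nat_lit 5) (nat_lit 66947) (nat_lit 11) (node (nat_lit 6)
  (nat_lit 66947) (nat_lit 12) nil nil) nil) nil)) (node (nat_lit 0) (nat_lit 66947) (nat_lit 9)
  (node (nat_lit 6) (nat_lit 66947) (nat_lit 10) nil nil) nil))) (node (nat_lit 1) (nat_lit 70263)
  (nat_lit 8) (node (nat_lit 4) (nat_lit 65971) (nat_lit 9) (node (nat_lit 5) (nat_lit 66099)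
  (nat_lit 10) (node (nat_lit 6) (nat_lit 62789) (nat_lit 11) (node (nat_lit 4) (nat_lit 60188)
  (nat_lit 12) (node (nat_lit 6) (nat_lit 54895) (nat_lit 13) (node (nat_lit 5) (nat_lit 39573)
  (nat_lit 14) nil nil) nil) nil) nil) nil) (node (nat_lit 6) (nat_lit 70263) (nat_lit 9) nil
  (node (nat_lit 5) (nat_lit 70263) (nat_lit 9) (node (nat_lit 4) (nat_lit 70263) (nat_lit 10)
  (node (nat_lit 5) (nat_lit 70263) (nat_lit 11) (node (nat_lit 6) (nat_lit 70263) (nat_lit 12)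
  (node (nat_lit 4) (nat_lit 70263) (nat_lit 13) (node (nat_lit 6) (nat_lit 70263) (nat_lit 14)
  (node (nat_lit 5) (nat_lit 70263) (nat_lit 15) nil nil) nil) nil) nil) nil) nil) nil))) (node
  (nat_lit 0) (nat_lit 70719) (nat_lit 8) (node (nat_lit 5) (nat_lit 70719) (nat_lit 9) (node
  (nat_lit 4) (nat_lit 70719) (nat_lit 10) (node (nat_lit 5) (nat_lit 70719) (nat_lit 11) (node
  (nat_lit 6) (nat_lit 70719) (nat_lit 12) (node (nat_lit 4) (nat_lit 70719) (nat_lit 13) (node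
  (nat_lit 6) (nat_lit 70719) (nat_lit 14) (node (nat_lit 5) (nat_lit 70719) (nat_lit 15) nil nil)
  nil) nil) nil) nil) nil) (node (nat_lit 6) (nat_lit 70719) (nat_lit 9) nil nil)) nil)))) (node
  (nat_lit 6) (nat_lit 52909) (nat_lit 7) (node (nat_lit 4) (nat_lit 63285) (nat_lit 8) (node
  (nat_lit 5) (nat_lit 66512) (nat_lit 9) (node (nat_lit 4) (nat_lit 65053) (nat_lit 10) (node
  (nat_lit 6) (nat_lit 64027) (nat_lit 11) (node (nat_lit 4) (nat_lit 63248) (nat_lit 12) (node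
  (nat_lit 5) (nat_lit 62656) (nat_lit 13) (node (nat_lit 6) (nat_lit 62197) (nat_lit 14) (node
  (nat_lit 4) (nat_lit 61840) (nat_lit 15) (node (nat_lit 6) (nat_lit 61561) (nat_lit 16) (node
  (nat_lit 5) (nat_lit 61342) (nat_lit 17) (node (nat_lit 6) (nat_lit 61171) (nat_lit 18) (node
  (nat_lit 4) (nat_lit 61038) (nat_lit 19) (node (nat_lit 5) (nat_lit 60933) (nat_lit 20) nil nil)
  nil) nil) nil) nil) nil) nil) nil) (node (nat_lit 5) (nat_lit 63248) (nat_lit 12) (node (nat_lit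
  4) (nat_lit 62656) (nat_lit 13) (node (nat_lit 5) (nat_lit 62197) (nat_lit 14) (node (nat_lit 6)
  (nat_lit 61840) (nat_lit 15) (node (nat_lit 4) (nat_lit 61561) (nat_lit 16) (node (nat_lit 6)
  (nat_lit 61342) (nat_lit 17) (node (nat_lit 5) (nat_lit 61171) (nat_lit 18) (node (nat_lit 6)
  (nat_lit 61038) (nat_lit 19) (node (nat_lit 4) (nat_lit 59123) (nat_lit 20) (node (nat_lit 5)
  (nat_lit 59111) (nat_lit 21) (node (nat_lit 4) (nat_lit 59025) (nat_lit 22) (node (nat_lit 6)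
  (nat_lit 58997) (nat_lit 23) nil nil) nil) nil) nil) nil) nil) nil) nil) nil) nil) nil) nil))
  nil) (node (nat_lit 6) (nat_lit 65164) (nat_lit 10) (node (nat_lit 5) (nat_lit 64137) (nat_lit
  11) (node (nat_lit 4) (nat_lit 63358) (nat_lit 12) (node (nat_lit 5) (nat_lit 62766) (nat_lit
  13) (node (nat_lit 6) (nat_lit 62308) (nat_lit 14) (node (nat_lit 4) (nat_lit 61951) (nat_lit
  15) (node (nat_lit 6) (nat_lit 61671) (nat_lit 16) (node (nat_lit 5) (nat_lit 61452) (nat_lit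
  17) (node (nat_lit 6) (nat_lit 60686) (nat_lit 18) (node (nat_lit 4) (nat_lit 60084) (nat_lit
  19) (node (nat_lit 5) (nat_lit 60071) (nat_lit 20) nil nil) nil) nil) nil) nil) nil) nil) nil)
  nil) nil) nil)) (node (nat_lit 1) (nat_lit 68127) (nat_lit 9) nil (node (nat_lit 0) (nat_lit
  66048) (nat_lit 9) nil nil))) (node (nat_lit 1) (nat_lit 69092) (nat_lit 8) (node (nat_lit 5)
  (nat_lit 69092) (nat_lit 9) nil (node (nat_lit 4) (nat_lit 69003) (nat_lit 9) (node (nat_lit 5)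
  (nat_lit 64839) (nat_lit 10) (node (nat_lit 6) (nat_lit 61899) (nat_lit 11) nil nil) nil) nil))
  (node (nat_lit 0) (nat_lit 70664) (nat_lit 8) nil nil))) (node (nat_lit 1) (nat_lit 73187)
  (nat_lit 7) (node (nat_lit 4) (nat_lit 72539) (nat_lit 8) (node (nat_lit 5) (nat_lit 67415)
  (nat_lit 9) (node (nat_lit 6) (nat_lit 55301) (nat_lit 10) (node (nat_lit 4) (nat_lit 44950)
  (nat_lit 11) (node (nat_lit 6) (nat_lit 23811) (nat_lit 12) nil nil) nil) nil) nil) (node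
  (nat_lit 6) (nat_lit 73187) (nat_lit 8) (node (nat_lit 5) (nat_lit 73187) (nat_lit 9) nil (node
  (nat_lit 4) (nat_lit 73187) (nat_lit 9) (node (nat_lit 5) (nat_lit 73187) (nat_lit 10) nil nil)
  (node (nat_lit 10) (nat_lit 73187) (nat_lit 9) nil nil))) (node (nat_lit 5) (nat_lit 73187)
  (nat_lit 8) (node (nat_lit 4) (nat_lit 73187) (nat_lit 9) nil nil) nil))) (node (nat_lit 0)
  (nat_lit 73187) (nat_lit 7) (node (nat_lit 6) (nat_lit 73187) (nat_lit 8) (node (nat_lit 5)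
  (nat_lit 73187) (nat_lit 9) nil (node (nat_lit 4) (nat_lit 73187) (nat_lit 9) (node (nat_lit 5)
  (nat_lit 73187) (nat_lit 10) nil nil) nil)) (node (nat_lit 1) (nat_lit 73187) (nat_lit 8) (node
  (nat_lit 6) (nat_lit 73187) (nat_lit 9) nil nil) (node (nat_lit 5) (nat_lit 73187) (nat_lit 8)
  (node (nat_lit 4) (nat_lit 73187) (nat_lit 9) (node (nat_lit 5) (nat_lit 73187) (nat_lit 10)
  (node (nat_lit 6) (nat_lit 73187) (nat_lit 11) nil nil) nil) nil) nil))) nil)))) (node (nat_lit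
  1) (nat_lit 70015) (nat_lit 6) (node (nat_lit 4) (nat_lit 72273) (nat_lit 7) (node (nat_lit 9)
  (nat_lit 72655) (nat_lit 8) (node (nat_lit 6) (nat_lit 72655) (nat_lit 9) (node (nat_lit 4)
  (nat_lit 72655) (nat_lit 10) (node (nat_lit 6) (nat_lit 72655) (nat_lit 11) (node (nat_lit 9)
  (nat_lit 73012) (nat_lit 12) nil nil) nil) (node (nat_lit 9) (nat_lit 72877) (nat_lit 10) nil
  nil)) nil) (node (nat_lit 5) (nat_lit 67505) (nat_lit 8) (node (nat_lit 6) (nat_lit 63527)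
  (nat_lit 9) (node (nat_lit 4) (nat_lit 36063) (nat_lit 10) nil nil) nil) (node (nat_lit 6)
  (nat_lit 72273) (nat_lit 8) (node (nat_lit 4) (nat_lit 72273) (nat_lit 9) (node (nat_lit 5)
  (nat_lit 72273) (nat_lit 10) (node (nat_lit 6) (nat_lit 69479) (nat_lit 11) (node (nat_lit 4)
  (nat_lit 62168) (nat_lit 12) (node (nat_lit 6) (nat_lit 59118) (nat_lit 13) nil nil) nil) nil)
  nil) nil) nil))) (node (nat_lit 6) (nat_lit 72067) (nat_lit 7) (node (nat_lit 5) (nat_lit 73187)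
  (nat_lit 8) (node (nat_lit 6) (nat_lit 73187) (nat_lit 9) (node (nat_lit 4) (nat_lit 73187)
  (nat_lit 10) nil (node (nat_lit 9) (nat_lit 73187) (nat_lit 10) nil nil)) (node (nat_lit 4)
  (nat_lit 73187) (nat_lit 9) (node (nat_lit 5) (nat_lit 72410) (nat_lit 10) (node (nat_lit 6)
  (nat_lit 67233) (nat_lit 11) (node (nat_lit 4) (nat_lit 60868) (nat_lit 12) (node (nat_lit 6)
  (nat_lit 56929) (nat_lit 13) nil nil) nil) nil) nil) nil)) (node (nat_lit 4) (nat_lit 73187)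
  (nat_lit 8) (node (nat_lit 5) (nat_lit 73187) (nat_lit 9) (node (nat_lit 6) (nat_lit 73187)
  (nat_lit 10) nil nil) nil) nil)) (node (nat_lit 5) (nat_lit 73187) (nat_lit 7) (node (nat_lit 9)
  (nat_lit 73187) (nat_lit 8) (node (nat_lit 6) (nat_lit 73187) (nat_lit 9) nil (node (nat_lit 4)
  (nat_lit 73187) (nat_lit 9) (node (nat_lit 5) (nat_lit 73187) (nat_lit 10) (node (nat_lit 6)
  (nat_lit 67209) (nat_lit 11) nil nil) nil) nil)) (node (nat_lit 4) (nat_lit 73187) (nat_lit 8)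
  (node (nat_lit 5) (nat_lit 73187) (nat_lit 9) (node (nat_lit 6) (nat_lit 73187) (nat_lit 10)
  (node (nat_lit 4) (nat_lit 73187) (nat_lit 11) (node (nat_lit 6) (nat_lit 73187) (nat_lit 12)
  nil nil) nil) nil) nil) (node (nat_lit 6) (nat_lit 73187) (nat_lit 8) (node (nat_lit 5) (nat_lit
  73187) (nat_lit 9) nil nil) nil))) (node (nat_lit 0) (nat_lit 73187) (nat_lit 7) nil nil))))
  (node (nat_lit 0) (nat_lit 73187) (nat_lit 6) (node (nat_lit 4) (nat_lit 73187) (nat_lit 7) nil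
  (node (nat_lit 5) (nat_lit 73187) (nat_lit 7) (node (nat_lit 4) (nat_lit 73187) (nat_lit 8)
  (node (nat_lit 5) (nat_lit 73187) (nat_lit 9) (node (nat_lit 6) (nat_lit 73187) (nat_lit 10)
  (node (nat_lit 4) (nat_lit 73187) (nat_lit 11) (node (nat_lit 6) (nat_lit 73187) (nat_lit 12)
  nil nil) nil) nil) nil) (node (nat_lit 6) (nat_lit 73187) (nat_lit 8) nil nil)) (node (nat_lit
  6) (nat_lit 73187) (nat_lit 7) (node (nat_lit 4) (nat_lit 73187) (nat_lit 8) (node (nat_lit 5)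
  (nat_lit 73187) (nat_lit 9) (node (nat_lit 6) (nat_lit 73187) (nat_lit 10) (node (nat_lit 4)
  (nat_lit 73187) (nat_lit 11) (node (nat_lit 6) (nat_lit 73187) (nat_lit 12) nil nil) nil) nil)
  nil) nil) (node (nat_lit 1) (nat_lit 73187) (nat_lit 7) (node (nat_lit 6) (nat_lit 73187)
  (nat_lit 8) (node (nat_lit 4) (nat_lit 73187) (nat_lit 9) nil nil) (node (nat_lit 4) (nat_lit
  73187) (nat_lit 8) (node (nat_lit 5) (nat_lit 73187) (nat_lit 9) nil nil) (node (nat_lit 5)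
  (nat_lit 73187) (nat_lit 8) nil nil))) nil)))) nil))) (node (nat_lit 1) (nat_lit 67712) (nat_lit
  5) (node (nat_lit 6) (nat_lit 73187) (nat_lit 6) (node (nat_lit 5) (nat_lit 73187) (nat_lit 7)
  (node (nat_lit 8) (nat_lit 73187) (nat_lit 8) (node (nat_lit 4) (nat_lit 73187) (nat_lit 9)
  (node (nat_lit 5) (nat_lit 73187) (nat_lit 10) (node (nat_lit 6) (nat_lit 73187) (nat_lit 11)
  (node (nat_lit 4) (nat_lit 55160) (nat_lit 12) (node (nat_lit 8) (nat_lit 46213) (nat_lit 13)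
  (node (nat_lit 6) (nat_lit 32915) (nat_lit 14) nil nil) nil) nil) nil) nil) (node (nat_lit 5)
  (nat_lit 73187) (nat_lit 9) (node (nat_lit 4) (nat_lit 73187) (nat_lit 10) nil nil) (node
  (nat_lit 6) (nat_lit 73187) (nat_lit 9) (node (nat_lit 4) (nat_lit 73187) (nat_lit 10) nil nil)
  nil))) (node (nat_lit 4) (nat_lit 73187) (nat_lit 8) (node (nat_lit 5) (nat_lit 73187) (nat_lit
  9) (node (nat_lit 6) (nat_lit 67664) (nat_lit 10) (node (nat_lit 4) (nat_lit 60799) (nat_lit 11)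
  (node (nat_lit 8) (nat_lit 61244) (nat_lit 12) (node (nat_lit 6) (nat_lit 60982) (nat_lit 13)
  nil nil) nil) nil) nil) (node (nat_lit 6) (nat_lit 73187) (nat_lit 9) nil nil)) (node (nat_lit
  6) (nat_lit 73187) (nat_lit 8) (node (nat_lit 8) (nat_lit 73187) (nat_lit 9) (node (nat_lit 5)
  (nat_lit 73187) (nat_lit 10) (node (nat_lit 8) (nat_lit 73187) (nat_lit 11) nil (node (nat_lit
  4) (nat_lit 73187) (nat_lit 11) nil nil)) (node (nat_lit 6) (nat_lit 73187) (nat_lit 10) (node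
  (nat_lit 5) (nat_lit 73187) (nat_lit 11) nil (node (nat_lit 4) (nat_lit 73187) (nat_lit 11) nil
  nil)) (node (nat_lit 4) (nat_lit 73187) (nat_lit 10) (node (nat_lit 5) (nat_lit 73187) (nat_lit
  11) nil nil) nil))) (node (nat_lit 4) (nat_lit 73187) (nat_lit 9) nil (node (nat_lit 0) (nat_lit
  73187) (nat_lit 9) (node (nat_lit 5) (nat_lit 73187) (nat_lit 10) nil (node (nat_lit 6) (nat_lit
  73187) (nat_lit 10) nil (node (nat_lit 8) (nat_lit 73187) (nat_lit 10) nil nil))) nil))) nil)))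
  (node (nat_lit 8) (nat_lit 73187) (nat_lit 7) (node (nat_lit 4) (nat_lit 73187) (nat_lit 8)
  (node (nat_lit 5) (nat_lit 73187) (nat_lit 9) (node (nat_lit 6) (nat_lit 69022) (nat_lit 10)
  (node (nat_lit 4) (nat_lit 62335) (nat_lit 11) (node (nat_lit 8) (nat_lit 28490) (nat_lit 12)
  nil nil) nil) nil) nil) (node (nat_lit 5) (nat_lit 73187) (nat_lit 8) (node (nat_lit 4) (nat_lit
  73187) (nat_lit 9) nil nil) nil)) (node (nat_lit 4) (nat_lit 73187) (nat_lit 7) (node (nat_lit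
  5) (nat_lit 73187) (nat_lit 8) (node (nat_lit 6) (nat_lit 73187) (nat_lit 9) (node (nat_lit 4)
  (nat_lit 73187) (nat_lit 10) nil nil) nil) nil) (node (nat_lit 0) (nat_lit 73187) (nat_lit 7)
  (node (nat_lit 6) (nat_lit 73187) (nat_lit 8) nil (node (nat_lit 8) (nat_lit 73187) (nat_lit 8)
  nil (node (nat_lit 5) (nat_lit 73187) (nat_lit 8) nil nil))) nil)))) (node (nat_lit 5) (nat_lit
  73187) (nat_lit 6) (node (nat_lit 4) (nat_lit 73187) (nat_lit 7) (node (nat_lit 5) (nat_lit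
  73187) (nat_lit 8) (node (nat_lit 6) (nat_lit 73187) (nat_lit 9) (node (nat_lit 4) (nat_lit
  73187) (nat_lit 10) (node (nat_lit 8) (nat_lit 60477) (nat_lit 11) nil nil) nil) nil) (node
  (nat_lit 6) (nat_lit 73187) (nat_lit 8) (node (nat_lit 4) (nat_lit 73187) (nat_lit 9) (node
  (nat_lit 5) (nat_lit 73187) (nat_lit 10) (node (nat_lit 6) (nat_lit 68828) (nat_lit 11) nil nil)
  nil) nil) (node (nat_lit 8) (nat_lit 73187) (nat_lit 8) (node (nat_lit 4) (nat_lit 73187)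
  (nat_lit 9) (node (nat_lit 5) (nat_lit 73187) (nat_lit 10) nil nil) nil) nil))) (node (nat_lit
  8) (nat_lit 73187) (nat_lit 7) (node (nat_lit 4) (nat_lit 73187) (nat_lit 8) (node (nat_lit 5)
  (nat_lit 73187) (nat_lit 9) (node (nat_lit 6) (nat_lit 72878) (nat_lit 10) (node (nat_lit 4)
  (nat_lit 65567) (nat_lit 11) (node (nat_lit 8) (nat_lit 31868) (nat_lit 12) nil nil) nil) nil)
  nil) (node (nat_lit 6) (nat_lit 73187) (nat_lit 8) nil nil)) (node (nat_lit 6) (nat_lit 73187)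
  (nat_lit 7) nil nil))) (node (nat_lit 4) (nat_lit 69412) (nat_lit 6) (node (nat_lit 6) (nat_lit
  70437) (nat_lit 7) (node (nat_lit 8) (nat_lit 72180) (nat_lit 8) (node (nat_lit 4) (nat_lit
  72082) (nat_lit 9) nil nil) (node (nat_lit 4) (nat_lit 69198) (nat_lit 8) (node (nat_lit 5)
  (nat_lit 70520) (nat_lit 9) (node (nat_lit 6) (nat_lit 61546) (nat_lit 10) (node (nat_lit 4)
  (nat_lit 60964) (nat_lit 11) nil nil) nil) nil) (node (nat_lit 5) (nat_lit 72502) (nat_lit 8)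
  nil nil))) (node (nat_lit 5) (nat_lit 67218) (nat_lit 7) (node (nat_lit 6) (nat_lit 53756)
  (nat_lit 8) nil (node (nat_lit 8) (nat_lit 69046) (nat_lit 8) (node (nat_lit 5) (nat_lit 69046)
  (nat_lit 9) (node (nat_lit 6) (nat_lit 69046) (nat_lit 10) (node (nat_lit 4) (nat_lit 69046)
  (nat_lit 11) (node (nat_lit 8) (nat_lit 69402) (nat_lit 12) nil nil) nil) nil) nil) nil)) nil))
  (node (nat_lit 0) (nat_lit 73187) (nat_lit 6) (node (nat_lit 8) (nat_lit 73187) (nat_lit 7)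
  (node (nat_lit 4) (nat_lit 73187) (nat_lit 8) nil nil) (node (nat_lit 6) (nat_lit 73187)
  (nat_lit 7) nil (node (nat_lit 5) (nat_lit 73187) (nat_lit 7) (node (nat_lit 4) (nat_lit 73187)
  (nat_lit 8) nil nil) nil))) nil)))) (node (nat_lit 0) (nat_lit 71571) (nat_lit 5) (node (nat_lit
  6) (nat_lit 73187) (nat_lit 6) (node (nat_lit 5) (nat_lit 73187) (nat_lit 7) (node (nat_lit 4)
  (nat_lit 73187) (nat_lit 8) (node (nat_lit 5) (nat_lit 70022) (nat_lit 9) (node (nat_lit 6)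
  (nat_lit 62201) (nat_lit 10) (node (nat_lit 4) (nat_lit 56281) (nat_lit 11) (node (nat_lit 8)
  (nat_lit 56854) (nat_lit 12) nil nil) nil) nil) nil) nil) (node (nat_lit 8) (nat_lit 73187)
  (nat_lit 7) nil (node (nat_lit 4) (nat_lit 73187) (nat_lit 7) (node (nat_lit 5) (nat_lit 73187)
  (nat_lit 8) (node (nat_lit 6) (nat_lit 73187) (nat_lit 9) (node (nat_lit 4) (nat_lit 73187)
  (nat_lit 10) nil nil) nil) nil) (node (nat_lit 1) (nat_lit 73187) (nat_lit 7) nil nil)))) (node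
  (nat_lit 5) (nat_lit 73187) (nat_lit 6) (node (nat_lit 4) (nat_lit 73187) (nat_lit 7) (node
  (nat_lit 5) (nat_lit 73187) (nat_lit 8) (node (nat_lit 6) (nat_lit 73187) (nat_lit 9) (node
  (nat_lit 4) (nat_lit 73187) (nat_lit 10) (node (nat_lit 8) (nat_lit 58617) (nat_lit 11) nil nil)
  nil) nil) nil) (node (nat_lit 1) (nat_lit 73187) (nat_lit 7) nil nil)) (node (nat_lit 4)
  (nat_lit 73187) (nat_lit 6) (node (nat_lit 6) (nat_lit 73187) (nat_lit 7) (node (nat_lit 4)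
  (nat_lit 70060) (nat_lit 8) nil nil) (node (nat_lit 1) (nat_lit 73187) (nat_lit 7) nil nil))
  (node (nat_lit 1) (nat_lit 73187) (nat_lit 6) (node (nat_lit 4) (nat_lit 73187) (nat_lit 7)
  (node (nat_lit 5) (nat_lit 73187) (nat_lit 8) (node (nat_lit 6) (nat_lit 73187) (nat_lit 9) nil
  nil) nil) (node (nat_lit 6) (nat_lit 73187) (nat_lit 7) nil nil)) (node (nat_lit 0) (nat_lit
  73187) (nat_lit 6) (node (nat_lit 6) (nat_lit 73187) (nat_lit 7) nil (node (nat_lit 5) (nat_lit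
  73187) (nat_lit 7) (node (nat_lit 4) (nat_lit 73187) (nat_lit 8) nil nil) nil)) nil))))) nil)))

noncomputable def t45 : Tr :=
  (node (nat_lit 6) (nat_lit 73174) (nat_lit 5) (node (nat_lit 5) (nat_lit 73187) (nat_lit 6)
  (node (nat_lit 7) (nat_lit 73187) (nat_lit 7) (node (nat_lit 5) (nat_lit 73187) (nat_lit 8)
  (node (nat_lit 6) (nat_lit 73187) (nat_lit 9) (node (nat_lit 7) (nat_lit 73187) (nat_lit 10)
  (node (nat_lit 5) (nat_lit 73187) (nat_lit 11) (node (nat_lit 7) (nat_lit 73187) (nat_lit 12)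
  (node (nat_lit 6) (nat_lit 73187) (nat_lit 13) (node (nat_lit 7) (nat_lit 73187) (nat_lit 14)
  (node (nat_lit 5) (nat_lit 73187) (nat_lit 15) (node (nat_lit 6) (nat_lit 73187) (nat_lit 16)
  (node (nat_lit 7) (nat_lit 73187) (nat_lit 17) nil (node (nat_lit 4) (nat_lit 73187) (nat_lit
  17) (node (nat_lit 5) (nat_lit 73187) (nat_lit 18) nil nil) (node (nat_lit 5) (nat_lit 73187)
  (nat_lit 17) (node (nat_lit 7) (nat_lit 73187) (nat_lit 18) nil nil) nil))) (node (nat_lit 4)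
  (nat_lit 73187) (nat_lit 16) (node (nat_lit 5) (nat_lit 73187) (nat_lit 17) (node (nat_lit 6)
  (nat_lit 73187) (nat_lit 18) nil nil) (node (nat_lit 7) (nat_lit 73187) (nat_lit 17) nil nil))
  nil)) (node (nat_lit 4) (nat_lit 73187) (nat_lit 15) (node (nat_lit 5) (nat_lit 73187) (nat_lit
  16) (node (nat_lit 6) (nat_lit 73187) (nat_lit 17) nil nil) (node (nat_lit 6) (nat_lit 73187)
  (nat_lit 16) nil nil)) nil)) (node (nat_lit 5) (nat_lit 73187) (nat_lit 14) (node (nat_lit 6)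
  (nat_lit 73187) (nat_lit 15) nil (node (nat_lit 4) (nat_lit 73187) (nat_lit 15) (node (nat_lit
  5) (nat_lit 73187) (nat_lit 16) nil nil) (node (nat_lit 7) (nat_lit 73187) (nat_lit 15) nil
  nil))) (node (nat_lit 4) (nat_lit 73187) (nat_lit 14) (node (nat_lit 5) (nat_lit 73187) (nat_lit
  15) (node (nat_lit 6) (nat_lit 73187) (nat_lit 16) nil nil) (node (nat_lit 7) (nat_lit 73187)
  (nat_lit 15) nil nil)) nil))) (node (nat_lit 4) (nat_lit 73187) (nat_lit 13) (node (nat_lit 5)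
  (nat_lit 73187) (nat_lit 14) nil (node (nat_lit 6) (nat_lit 73187) (nat_lit 14) nil nil)) (node
  (nat_lit 0) (nat_lit 73187) (nat_lit 13) nil nil))) (node (nat_lit 4) (nat_lit 73187) (nat_lit
  12) (node (nat_lit 5) (nat_lit 73187) (nat_lit 13) (node (nat_lit 6) (nat_lit 73187) (nat_lit
  14) (node (nat_lit 7) (nat_lit 73187) (nat_lit 15) nil nil) (node (nat_lit 7) (nat_lit 73187)
  (nat_lit 14) nil nil)) (node (nat_lit 7) (nat_lit 73187) (nat_lit 13) (node (nat_lit 4) (nat_lit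
  73187) (nat_lit 14) nil (node (nat_lit 6) (nat_lit 73187) (nat_lit 14) nil nil)) (node (nat_lit
  6) (nat_lit 73187) (nat_lit 13) (node (nat_lit 5) (nat_lit 73187) (nat_lit 14) nil (node
  (nat_lit 7) (nat_lit 73187) (nat_lit 14) nil nil)) nil))) (node (nat_lit 0) (nat_lit 73187)
  (nat_lit 12) (node (nat_lit 7) (nat_lit 73187) (nat_lit 13) (node (nat_lit 5) (nat_lit 73187)
  (nat_lit 14) nil (node (nat_lit 6) (nat_lit 73187) (nat_lit 14) nil nil)) (node (nat_lit 5)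
  (nat_lit 73187) (nat_lit 13) (node (nat_lit 7) (nat_lit 73187) (nat_lit 14) nil (node (nat_lit
  6) (nat_lit 73187) (nat_lit 14) nil nil)) (node (nat_lit 6) (nat_lit 73187) (nat_lit 13) (node
  (nat_lit 5) (nat_lit 73187) (nat_lit 14) nil (node (nat_lit 7) (nat_lit 73187) (nat_lit 14) nil
  nil)) nil))) nil))) (node (nat_lit 6) (nat_lit 73187) (nat_lit 11) (node (nat_lit 4) (nat_lit
  73187) (nat_lit 12) (node (nat_lit 7) (nat_lit 73187) (nat_lit 13) (node (nat_lit 6) (nat_lit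
  73187) (nat_lit 14) (node (nat_lit 7) (nat_lit 73187) (nat_lit 15) nil nil) (node (nat_lit 5)
  (nat_lit 73187) (nat_lit 14) nil (node (nat_lit 4) (nat_lit 73187) (nat_lit 14) nil nil))) (node
  (nat_lit 6) (nat_lit 73187) (nat_lit 13) (node (nat_lit 7) (nat_lit 73187) (nat_lit 14) nil nil)
  (node (nat_lit 5) (nat_lit 73187) (nat_lit 13) (node (nat_lit 6) (nat_lit 73187) (nat_lit 14)
  (node (nat_lit 7) (nat_lit 73187) (nat_lit 15) nil nil) (node (nat_lit 7) (nat_lit 73187)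
  (nat_lit 14) nil nil)) nil))) (node (nat_lit 0) (nat_lit 73187) (nat_lit 12) (node (nat_lit 6)
  (nat_lit 73187) (nat_lit 13) (node (nat_lit 7) (nat_lit 73187) (nat_lit 14) nil (node (nat_lit
  5) (nat_lit 73187) (nat_lit 14) nil nil)) (node (nat_lit 7) (nat_lit 73187) (nat_lit 13) (node
  (nat_lit 6) (nat_lit 73187) (nat_lit 14) (node (nat_lit 7) (nat_lit 73187) (nat_lit 15) nil nil)
  (node (nat_lit 5) (nat_lit 73187) (nat_lit 14) nil nil)) (node (nat_lit 5) (nat_lit 73187)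
  (nat_lit 13) (node (nat_lit 6) (nat_lit 73187) (nat_lit 14) nil nil) nil))) nil)) (node (nat_lit
  4) (nat_lit 73187) (nat_lit 11) (node (nat_lit 5) (nat_lit 73187) (nat_lit 12) (node (nat_lit 6)
  (nat_lit 73187) (nat_lit 13) (node (nat_lit 7) (nat_lit 73187) (nat_lit 14) (node (nat_lit 6)
  (nat_lit 73187) (nat_lit 15) nil nil) nil) (node (nat_lit 4) (nat_lit 73187) (nat_lit 13) nil
  (node (nat_lit 7) (nat_lit 73187) (nat_lit 13) (node (nat_lit 5) (nat_lit 73187) (nat_lit 14)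
  nil nil) nil))) (node (nat_lit 6) (nat_lit 73187) (nat_lit 12) (node (nat_lit 4) (nat_lit 73187)
  (nat_lit 13) nil (node (nat_lit 7) (nat_lit 73187) (nat_lit 13) (node (nat_lit 6) (nat_lit
  73187) (nat_lit 14) nil (node (nat_lit 5) (nat_lit 73187) (nat_lit 14) nil nil)) (node (nat_lit
  5) (nat_lit 73187) (nat_lit 13) nil nil))) (node (nat_lit 7) (nat_lit 73187) (nat_lit 12) (node
  (nat_lit 6) (nat_lit 73187) (nat_lit 13) (node (nat_lit 4) (nat_lit 73187) (nat_lit 14) nil nil)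
  (node (nat_lit 5) (nat_lit 73187) (nat_lit 13) (node (nat_lit 6) (nat_lit 73187) (nat_lit 14)
  nil nil) nil)) (node (nat_lit 0) (nat_lit 73187) (nat_lit 12) nil nil)))) (node (nat_lit 0)
  (nat_lit 73187) (nat_lit 11) (node (nat_lit 7) (nat_lit 73187) (nat_lit 12) (node (nat_lit 6)
  (nat_lit 73187) (nat_lit 13) nil (node (nat_lit 5) (nat_lit 73187) (nat_lit 13) (node (nat_lit
  6) (nat_lit 73187) (nat_lit 14) nil nil) (node (nat_lit 4) (nat_lit 73187) (nat_lit 13) nil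
  nil))) (node (nat_lit 6) (nat_lit 73187) (nat_lit 12) (node (nat_lit 7) (nat_lit 73187) (nat_lit
  13) (node (nat_lit 5) (nat_lit 73187) (nat_lit 14) nil nil) (node (nat_lit 5) (nat_lit 73187)
  (nat_lit 13) (node (nat_lit 7) (nat_lit 73187) (nat_lit 14) nil nil) nil)) (node (nat_lit 5)
  (nat_lit 73187) (nat_lit 12) (node (nat_lit 7) (nat_lit 73187) (nat_lit 13) nil (node (nat_lit
  14) (nat_lit 73187) (nat_lit 13) nil (node (nat_lit 6) (nat_lit 73187) (nat_lit 13) nil nil)))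
  (node (nat_lit 4) (nat_lit 73187) (nat_lit 12) nil nil)))) nil)))) (node (nat_lit 5) (nat_lit
  73187) (nat_lit 10) (node (nat_lit 7) (nat_lit 73187) (nat_lit 11) nil (node (nat_lit 4)
  (nat_lit 73187) (nat_lit 11) (node (nat_lit 5) (nat_lit 73187) (nat_lit 12) (node (nat_lit 6)
  (nat_lit 73187) (nat_lit 13) (node (nat_lit 7) (nat_lit 73187) (nat_lit 14) (node (nat_lit 6)
  (nat_lit 73187) (nat_lit 15) nil nil) nil) nil) nil) nil)) (node (nat_lit 4) (nat_lit 73187)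
  (nat_lit 10) (node (nat_lit 5) (nat_lit 73187) (nat_lit 11) (node (nat_lit 6) (nat_lit 73187)
  (nat_lit 12) (node (nat_lit 7) (nat_lit 73187) (nat_lit 13) (node (nat_lit 6) (nat_lit 70361)
  (nat_lit 14) (node (nat_lit 5) (nat_lit 64959) (nat_lit 15) nil nil) nil) nil) nil) nil) nil)))
  (node (nat_lit 4) (nat_lit 73187) (nat_lit 9) (node (nat_lit 5) (nat_lit 73187) (nat_lit 10)
  (node (nat_lit 6) (nat_lit 73187) (nat_lit 11) (node (nat_lit 7) (nat_lit 73187) (nat_lit 12)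
  (node (nat_lit 6) (nat_lit 73187) (nat_lit 13) (node (nat_lit 5) (nat_lit 73187) (nat_lit 14)
  nil nil) nil) nil) nil) nil) nil)) (node (nat_lit 6) (nat_lit 73187) (nat_lit 8) (node (nat_lit
  7) (nat_lit 73187) (nat_lit 9) (node (nat_lit 5) (nat_lit 73187) (nat_lit 10) nil nil) (node
  (nat_lit 4) (nat_lit 73187) (nat_lit 9) nil nil)) (node (nat_lit 4) (nat_lit 73187) (nat_lit 8)
  (node (nat_lit 5) (nat_lit 73187) (nat_lit 9) (node (nat_lit 6) (nat_lit 71115) (nat_lit 10)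
  (node (nat_lit 7) (nat_lit 60337) (nat_lit 11) (node (nat_lit 6) (nat_lit 34147) (nat_lit 12)
  nil nil) nil) nil) (node (nat_lit 6) (nat_lit 73187) (nat_lit 9) (node (nat_lit 4) (nat_lit
  73187) (nat_lit 10) (node (nat_lit 5) (nat_lit 73187) (nat_lit 11) nil nil) nil) nil)) (node
  (nat_lit 0) (nat_lit 73187) (nat_lit 8) nil nil)))) (node (nat_lit 6) (nat_lit 73187) (nat_lit
  7) (node (nat_lit 7) (nat_lit 73187) (nat_lit 8) (node (nat_lit 5) (nat_lit 73187) (nat_lit 9)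
  (node (nat_lit 7) (nat_lit 73187) (nat_lit 10) nil (node (nat_lit 6) (nat_lit 73187) (nat_lit
  10) (node (nat_lit 5) (nat_lit 73187) (nat_lit 11) nil nil) nil)) (node (nat_lit 4) (nat_lit
  73187) (nat_lit 9) (node (nat_lit 5) (nat_lit 73187) (nat_lit 10) nil nil) nil)) (node (nat_lit
  4) (nat_lit 73187) (nat_lit 8) (node (nat_lit 5) (nat_lit 73187) (nat_lit 9) (node (nat_lit 6)
  (nat_lit 73187) (nat_lit 10) (node (nat_lit 7) (nat_lit 73187) (nat_lit 11) (node (nat_lit 6)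
  (nat_lit 63888) (nat_lit 12) (node (nat_lit 5) (nat_lit 63233) (nat_lit 13) nil nil) nil) nil)
  nil) (node (nat_lit 7) (nat_lit 73187) (nat_lit 9) nil (node (nat_lit 6) (nat_lit 73187)
  (nat_lit 9) (node (nat_lit 7) (nat_lit 73187) (nat_lit 10) nil nil) nil))) (node (nat_lit 0)
  (nat_lit 73187) (nat_lit 8) (node (nat_lit 7) (nat_lit 73187) (nat_lit 9) nil (node (nat_lit 6)
  (nat_lit 73187) (nat_lit 9) nil (node (nat_lit 5) (nat_lit 73187) (nat_lit 9) nil nil))) nil)))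
  (node (nat_lit 4) (nat_lit 73187) (nat_lit 7) (node (nat_lit 7) (nat_lit 73187) (nat_lit 8)
  (node (nat_lit 6) (nat_lit 73187) (nat_lit 9) nil nil) (node (nat_lit 6) (nat_lit 73187)
  (nat_lit 8) (node (nat_lit 4) (nat_lit 73187) (nat_lit 9) (node (nat_lit 5) (nat_lit 73187)
  (nat_lit 10) (node (nat_lit 6) (nat_lit 73187) (nat_lit 11) (node (nat_lit 7) (nat_lit 68221)
  (nat_lit 12) (node (nat_lit 6) (nat_lit 61459) (nat_lit 13) nil nil) nil) nil) nil) (node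
  (nat_lit 7) (nat_lit 73187) (nat_lit 9) nil nil)) (node (nat_lit 5) (nat_lit 73187) (nat_lit 8)
  (node (nat_lit 6) (nat_lit 70853) (nat_lit 9) (node (nat_lit 7) (nat_lit 68864) (nat_lit 10)
  (node (nat_lit 6) (nat_lit 68864) (nat_lit 11) nil nil) nil) (node (nat_lit 7) (nat_lit 73187)
  (nat_lit 9) nil nil)) nil))) (node (nat_lit 0) (nat_lit 73187) (nat_lit 7) (node (nat_lit 6)
  (nat_lit 73187) (nat_lit 8) (node (nat_lit 7) (nat_lit 73187) (nat_lit 9) nil nil) (node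
  (nat_lit 7) (nat_lit 73187) (nat_lit 8) nil (node (nat_lit 5) (nat_lit 73187) (nat_lit 8) nil
  nil))) nil)))) (node (nat_lit 4) (nat_lit 73187) (nat_lit 6) (node (nat_lit 7) (nat_lit 73187)
  (nat_lit 7) (node (nat_lit 4) (nat_lit 73187) (nat_lit 8) (node (nat_lit 6) (nat_lit 73187)
  (nat_lit 9) (node (nat_lit 4) (nat_lit 73187) (nat_lit 10) (node (nat_lit 7) (nat_lit 73187)
  (nat_lit 11) (node (nat_lit 6) (nat_lit 73187) (nat_lit 12) (node (nat_lit 7) (nat_lit 73187)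
  (nat_lit 13) (node (nat_lit 4) (nat_lit 73187) (nat_lit 14) nil nil) nil) (node (nat_lit 5)
  (nat_lit 73187) (nat_lit 12) nil nil)) (node (nat_lit 5) (nat_lit 73187) (nat_lit 11) (node
  (nat_lit 6) (nat_lit 73187) (nat_lit 12) (node (nat_lit 7) (nat_lit 73187) (nat_lit 13) (node
  (nat_lit 6) (nat_lit 70188) (nat_lit 14) (node (nat_lit 4) (nat_lit 63809) (nat_lit 15) (node
  (nat_lit 7) (nat_lit 63789) (nat_lit 16) nil nil) nil) nil) nil) nil) nil)) (node (nat_lit 7)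
  (nat_lit 73187) (nat_lit 10) (node (nat_lit 5) (nat_lit 73187) (nat_lit 11) (node (nat_lit 6)
  (nat_lit 73187) (nat_lit 12) (node (nat_lit 7) (nat_lit 73187) (nat_lit 13) nil nil) nil) (node
  (nat_lit 4) (nat_lit 73187) (nat_lit 11) (node (nat_lit 5) (nat_lit 73187) (nat_lit 12) nil nil)
  nil)) (node (nat_lit 5) (nat_lit 73187) (nat_lit 10) (node (nat_lit 7) (nat_lit 73187) (nat_lit
  11) nil (node (nat_lit 4) (nat_lit 73187) (nat_lit 11) nil nil)) nil))) (node (nat_lit 5)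
  (nat_lit 73187) (nat_lit 9) (node (nat_lit 7) (nat_lit 73187) (nat_lit 10) (node (nat_lit 5)
  (nat_lit 73187) (nat_lit 11) (node (nat_lit 6) (nat_lit 73187) (nat_lit 12) nil nil) nil) (node
  (nat_lit 6) (nat_lit 73187) (nat_lit 10) (node (nat_lit 7) (nat_lit 62311) (nat_lit 11) (node
  (nat_lit 6) (nat_lit 48423) (nat_lit 12) nil nil) nil) nil)) nil)) (node (nat_lit 5) (nat_lit
  73187) (nat_lit 8) (node (nat_lit 6) (nat_lit 73187) (nat_lit 9) nil (node (nat_lit 4) (nat_lit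
  73187) (nat_lit 9) (node (nat_lit 5) (nat_lit 73187) (nat_lit 10) (node (nat_lit 6) (nat_lit
  73187) (nat_lit 11) (node (nat_lit 7) (nat_lit 73187) (nat_lit 12) nil nil) nil) nil) (node
  (nat_lit 7) (nat_lit 73187) (nat_lit 9) (node (nat_lit 4) (nat_lit 73187) (nat_lit 10) nil nil)
  nil))) (node (nat_lit 6) (nat_lit 73187) (nat_lit 8) (node (nat_lit 7) (nat_lit 73187) (nat_lit
  9) nil nil) (node (nat_lit 0) (nat_lit 73187) (nat_lit 8) (node (nat_lit 7) (nat_lit 73187)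
  (nat_lit 9) nil (node (nat_lit 6) (nat_lit 73187) (nat_lit 9) nil (node (nat_lit 5) (nat_lit
  73187) (nat_lit 9) (node (nat_lit 7) (nat_lit 73187) (nat_lit 10) nil nil) nil))) nil)))) (node
  (nat_lit 5) (nat_lit 73187) (nat_lit 7) (node (nat_lit 6) (nat_lit 73187) (nat_lit 8) (node
  (nat_lit 7) (nat_lit 61150) (nat_lit 9) nil nil) (node (nat_lit 7) (nat_lit 73187) (nat_lit 8)
  (node (nat_lit 5) (nat_lit 73187) (nat_lit 9) nil (node (nat_lit 4) (nat_lit 73187) (nat_lit 9)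
  nil nil)) nil)) (node (nat_lit 6) (nat_lit 73187) (nat_lit 7) (node (nat_lit 7) (nat_lit 73187)
  (nat_lit 8) (node (nat_lit 4) (nat_lit 73187) (nat_lit 9) (node (nat_lit 5) (nat_lit 73187)
  (nat_lit 10) nil nil) (node (nat_lit 5) (nat_lit 73187) (nat_lit 9) (node (nat_lit 6) (nat_lit
  73187) (nat_lit 10) (node (nat_lit 7) (nat_lit 73187) (nat_lit 11) nil nil) nil) (node (nat_lit
  6) (nat_lit 73187) (nat_lit 9) nil nil))) (node (nat_lit 5) (nat_lit 73187) (nat_lit 8) (node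
  (nat_lit 7) (nat_lit 73187) (nat_lit 9) nil (node (nat_lit 4) (nat_lit 73187) (nat_lit 9) nil
  nil)) nil)) (node (nat_lit 0) (nat_lit 73187) (nat_lit 7) (node (nat_lit 7) (nat_lit 73187)
  (nat_lit 8) nil (node (nat_lit 6) (nat_lit 73187) (nat_lit 8) nil (node (nat_lit 5) (nat_lit
  73187) (nat_lit 8) nil nil))) nil)))) (node (nat_lit 0) (nat_lit 73187) (nat_lit 6) (node
  (nat_lit 7) (nat_lit 73187) (nat_lit 7) (node (nat_lit 6) (nat_lit 73187) (nat_lit 8) (node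
  (nat_lit 7) (nat_lit 73187) (nat_lit 9) nil (node (nat_lit 5) (nat_lit 73187) (nat_lit 9) nil
  nil)) (node (nat_lit 5) (nat_lit 73187) (nat_lit 8) nil nil)) (node (nat_lit 5) (nat_lit 73187)
  (nat_lit 7) (node (nat_lit 7) (nat_lit 73187) (nat_lit 8) nil (node (nat_lit 6) (nat_lit 73187)
  (nat_lit 8) nil nil)) (node (nat_lit 6) (nat_lit 73187) (nat_lit 7) (node (nat_lit 5) (nat_lit
  73187) (nat_lit 8) nil (node (nat_lit 7) (nat_lit 73187) (nat_lit 8) nil (node (nat_lit 4)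
  (nat_lit 73187) (nat_lit 8) nil nil))) (node (nat_lit 0) (nat_lit 73187) (nat_lit 7) nil nil))))
  nil))) (node (nat_lit 0) (nat_lit 73187) (nat_lit 5) (node (nat_lit 5) (nat_lit 73187) (nat_lit
  6) (node (nat_lit 7) (nat_lit 73187) (nat_lit 7) (node (nat_lit 5) (nat_lit 73187) (nat_lit 8)
  (node (nat_lit 6) (nat_lit 73187) (nat_lit 9) (node (nat_lit 7) (nat_lit 73187) (nat_lit 10) nil
  nil) nil) nil) (node (nat_lit 6) (nat_lit 73187) (nat_lit 7) nil (node (nat_lit 8) (nat_lit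
  73187) (nat_lit 7) (node (nat_lit 7) (nat_lit 73187) (nat_lit 8) nil nil) (node (nat_lit 4)
  (nat_lit 73187) (nat_lit 7) nil nil)))) (node (nat_lit 6) (nat_lit 73187) (nat_lit 6) (node
  (nat_lit 7) (nat_lit 73187) (nat_lit 7) (node (nat_lit 6) (nat_lit 73187) (nat_lit 8) (node
  (nat_lit 5) (nat_lit 73187) (nat_lit 9) (node (nat_lit 6) (nat_lit 73187) (nat_lit 10) (node
  (nat_lit 7) (nat_lit 73187) (nat_lit 11) nil nil) nil) nil) (node (nat_lit 5) (nat_lit 73187)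
  (nat_lit 8) nil nil)) (node (nat_lit 5) (nat_lit 73187) (nat_lit 7) (node (nat_lit 7) (nat_lit
  73187) (nat_lit 8) nil nil) (node (nat_lit 8) (nat_lit 73187) (nat_lit 7) (node (nat_lit 7)
  (nat_lit 73187) (nat_lit 8) nil nil) (node (nat_lit 4) (nat_lit 73187) (nat_lit 7) (node
  (nat_lit 5) (nat_lit 73187) (nat_lit 8) nil nil) nil)))) (node (nat_lit 7) (nat_lit 73187)
  (nat_lit 6) (node (nat_lit 6) (nat_lit 73187) (nat_lit 7) (node (nat_lit 7) (nat_lit 73187)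
  (nat_lit 8) nil nil) (node (nat_lit 5) (nat_lit 73187) (nat_lit 7) (node (nat_lit 6) (nat_lit
  73187) (nat_lit 8) nil (node (nat_lit 4) (nat_lit 73187) (nat_lit 8) nil nil)) (node (nat_lit 4)
  (nat_lit 73187) (nat_lit 7) (node (nat_lit 5) (nat_lit 73187) (nat_lit 8) (node (nat_lit 6)
  (nat_lit 73187) (nat_lit 9) nil nil) nil) nil))) (node (nat_lit 4) (nat_lit 73187) (nat_lit 6)
  (node (nat_lit 6) (nat_lit 73187) (nat_lit 7) nil (node (nat_lit 7) (nat_lit 73187) (nat_lit 7)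
  nil (node (nat_lit 8) (nat_lit 73187) (nat_lit 7) (node (nat_lit 7) (nat_lit 73187) (nat_lit 8)
  nil nil) nil))) (node (nat_lit 0) (nat_lit 73187) (nat_lit 6) (node (nat_lit 7) (nat_lit 73187)
  (nat_lit 7) nil (node (nat_lit 6) (nat_lit 73187) (nat_lit 7) nil (node (nat_lit 5) (nat_lit
  73187) (nat_lit 7) nil nil))) nil))))) nil))

noncomputable def t46 : Tr :=
  (node (nat_lit 5) (nat_lit 73187) (nat_lit 5) (node (nat_lit 7) (nat_lit 73187) (nat_lit 6)
  (node (nat_lit 6) (nat_lit 73187) (nat_lit 7) (node (nat_lit 5) (nat_lit 73187) (nat_lit 8)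
  (node (nat_lit 6) (nat_lit 73187) (nat_lit 9) (node (nat_lit 7) (nat_lit 73187) (nat_lit 10)
  (node (nat_lit 6) (nat_lit 73187) (nat_lit 11) (node (nat_lit 5) (nat_lit 73187) (nat_lit 12)
  (node (nat_lit 7) (nat_lit 73187) (nat_lit 13) nil nil) (node (nat_lit 4) (nat_lit 73187)
  (nat_lit 12) nil nil)) (node (nat_lit 5) (nat_lit 73187) (nat_lit 11) (node (nat_lit 6) (nat_lit
  73187) (nat_lit 12) (node (nat_lit 5) (nat_lit 73187) (nat_lit 13) (node (nat_lit 7) (nat_lit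
  73187) (nat_lit 14) (node (nat_lit 5) (nat_lit 73187) (nat_lit 15) nil nil) nil) nil) nil) (node
  (nat_lit 4) (nat_lit 73187) (nat_lit 11) (node (nat_lit 5) (nat_lit 73187) (nat_lit 12) nil nil)
  nil))) (node (nat_lit 4) (nat_lit 73187) (nat_lit 10) (node (nat_lit 5) (nat_lit 73187) (nat_lit
  11) nil nil) nil)) (node (nat_lit 7) (nat_lit 73187) (nat_lit 9) (node (nat_lit 5) (nat_lit
  73187) (nat_lit 10) (node (nat_lit 6) (nat_lit 73187) (nat_lit 11) (node (nat_lit 7) (nat_lit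
  73187) (nat_lit 12) (node (nat_lit 5) (nat_lit 73187) (nat_lit 13) (node (nat_lit 7) (nat_lit
  73187) (nat_lit 14) nil (node (nat_lit 4) (nat_lit 73187) (nat_lit 14) (node (nat_lit 5)
  (nat_lit 73187) (nat_lit 15) nil (node (nat_lit 7) (nat_lit 73187) (nat_lit 15) nil nil)) nil))
  nil) nil) nil) (node (nat_lit 4) (nat_lit 73187) (nat_lit 10) nil nil)) (node (nat_lit 4)
  (nat_lit 73187) (nat_lit 9) (node (nat_lit 5) (nat_lit 73187) (nat_lit 10) (node (nat_lit 6)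
  (nat_lit 73187) (nat_lit 11) (node (nat_lit 7) (nat_lit 71976) (nat_lit 12) (node (nat_lit 5)
  (nat_lit 64035) (nat_lit 13) (node (nat_lit 7) (nat_lit 64187) (nat_lit 14) (node (nat_lit 6)
  (nat_lit 64028) (nat_lit 15) nil nil) nil) nil) nil) nil) (node (nat_lit 6) (nat_lit 73187)
  (nat_lit 10) (node (nat_lit 7) (nat_lit 73187) (nat_lit 11) nil nil) (node (nat_lit 7) (nat_lit
  73187) (nat_lit 10) nil nil))) nil))) (node (nat_lit 7) (nat_lit 73187) (nat_lit 8) (node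
  (nat_lit 5) (nat_lit 73187) (nat_lit 9) (node (nat_lit 6) (nat_lit 73187) (nat_lit 10) (node
  (nat_lit 5) (nat_lit 73187) (nat_lit 11) nil (node (nat_lit 7) (nat_lit 73187) (nat_lit 11) nil
  nil)) (node (nat_lit 4) (nat_lit 73187) (nat_lit 10) nil nil)) (node (nat_lit 4) (nat_lit 73187)
  (nat_lit 9) (node (nat_lit 5) (nat_lit 73187) (nat_lit 10) (node (nat_lit 6) (nat_lit 73187)
  (nat_lit 11) (node (nat_lit 7) (nat_lit 73187) (nat_lit 12) (node (nat_lit 5) (nat_lit 62253)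
  (nat_lit 13) nil nil) nil) nil) (node (nat_lit 6) (nat_lit 73187) (nat_lit 10) nil nil)) nil))
  (node (nat_lit 4) (nat_lit 73187) (nat_lit 8) (node (nat_lit 5) (nat_lit 73187) (nat_lit 9)
  (node (nat_lit 6) (nat_lit 73187) (nat_lit 10) (node (nat_lit 7) (nat_lit 73187) (nat_lit 11)
  (node (nat_lit 5) (nat_lit 73187) (nat_lit 12) nil nil) nil) nil) (node (nat_lit 7) (nat_lit
  73187) (nat_lit 9) (node (nat_lit 5) (nat_lit 73187) (nat_lit 10) nil nil) nil)) (node (nat_lit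
  0) (nat_lit 73187) (nat_lit 8) nil nil)))) (node (nat_lit 4) (nat_lit 73187) (nat_lit 7) (node
  (nat_lit 5) (nat_lit 73187) (nat_lit 8) (node (nat_lit 6) (nat_lit 73187) (nat_lit 9) (node
  (nat_lit 7) (nat_lit 48643) (nat_lit 10) (node (nat_lit 4) (nat_lit 48643) (nat_lit 11) nil nil)
  nil) nil) (node (nat_lit 6) (nat_lit 73187) (nat_lit 8) (node (nat_lit 7) (nat_lit 73187)
  (nat_lit 9) (node (nat_lit 6) (nat_lit 73187) (nat_lit 10) (node (nat_lit 4) (nat_lit 73187)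
  (nat_lit 11) (node (nat_lit 7) (nat_lit 73187) (nat_lit 12) nil nil) (node (nat_lit 5) (nat_lit
  73187) (nat_lit 11) nil nil)) (node (nat_lit 4) (nat_lit 73187) (nat_lit 10) (node (nat_lit 5)
  (nat_lit 73187) (nat_lit 11) (node (nat_lit 6) (nat_lit 73187) (nat_lit 12) (node (nat_lit 7)
  (nat_lit 73187) (nat_lit 13) nil nil) nil) nil) nil)) (node (nat_lit 5) (nat_lit 73187) (nat_lit
  9) (node (nat_lit 4) (nat_lit 73187) (nat_lit 10) nil nil) (node (nat_lit 4) (nat_lit 73187)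
  (nat_lit 9) nil nil))) (node (nat_lit 7) (nat_lit 73187) (nat_lit 8) (node (nat_lit 6) (nat_lit
  73187) (nat_lit 9) (node (nat_lit 7) (nat_lit 73187) (nat_lit 10) nil nil) nil) (node (nat_lit
  0) (nat_lit 73187) (nat_lit 8) nil nil)))) (node (nat_lit 0) (nat_lit 73187) (nat_lit 7) (node
  (nat_lit 6) (nat_lit 73187) (nat_lit 8) nil (node (nat_lit 5) (nat_lit 73187) (nat_lit 8) (node
  (nat_lit 7) (nat_lit 73187) (nat_lit 9) nil nil) (node (nat_lit 7) (nat_lit 73187) (nat_lit 8)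
  (node (nat_lit 5) (nat_lit 73187) (nat_lit 9) nil nil) nil))) nil))) (node (nat_lit 4) (nat_lit
  73187) (nat_lit 6) (node (nat_lit 7) (nat_lit 73187) (nat_lit 7) (node (nat_lit 6) (nat_lit
  73187) (nat_lit 8) (node (nat_lit 5) (nat_lit 73187) (nat_lit 9) (node (nat_lit 6) (nat_lit
  73187) (nat_lit 10) (node (nat_lit 7) (nat_lit 73187) (nat_lit 11) (node (nat_lit 5) (nat_lit
  73187) (nat_lit 12) nil nil) nil) (node (nat_lit 4) (nat_lit 73187) (nat_lit 10) nil nil)) (node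
  (nat_lit 7) (nat_lit 73187) (nat_lit 9) (node (nat_lit 5) (nat_lit 73187) (nat_lit 10) (node
  (nat_lit 6) (nat_lit 73187) (nat_lit 11) nil nil) nil) (node (nat_lit 4) (nat_lit 73187)
  (nat_lit 9) (node (nat_lit 5) (nat_lit 73187) (nat_lit 10) (node (nat_lit 6) (nat_lit 73187)
  (nat_lit 11) (node (nat_lit 7) (nat_lit 73187) (nat_lit 12) nil nil) nil) nil) nil))) (node
  (nat_lit 4) (nat_lit 73187) (nat_lit 8) (node (nat_lit 5) (nat_lit 73187) (nat_lit 9) (node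
  (nat_lit 6) (nat_lit 73187) (nat_lit 10) (node (nat_lit 7) (nat_lit 61188) (nat_lit 11) (node
  (nat_lit 5) (nat_lit 42522) (nat_lit 12) nil nil) nil) nil) nil) (node (nat_lit 5) (nat_lit
  73187) (nat_lit 8) (node (nat_lit 7) (nat_lit 73187) (nat_lit 9) nil nil) nil))) (node (nat_lit
  5) (nat_lit 73187) (nat_lit 7) (node (nat_lit 7) (nat_lit 73187) (nat_lit 8) (node (nat_lit 4)
  (nat_lit 73187) (nat_lit 9) (node (nat_lit 5) (nat_lit 73187) (nat_lit 10) nil nil) (node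
  (nat_lit 5) (nat_lit 73187) (nat_lit 9) (node (nat_lit 6) (nat_lit 73187) (nat_lit 10) (node
  (nat_lit 7) (nat_lit 73187) (nat_lit 11) nil nil) nil) (node (nat_lit 6) (nat_lit 73187)
  (nat_lit 9) nil nil))) (node (nat_lit 6) (nat_lit 73187) (nat_lit 8) (node (nat_lit 7) (nat_lit
  67033) (nat_lit 9) nil nil) nil)) (node (nat_lit 6) (nat_lit 73187) (nat_lit 7) (node (nat_lit
  5) (nat_lit 73187) (nat_lit 8) (node (nat_lit 6) (nat_lit 73187) (nat_lit 9) nil (node (nat_lit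
  7) (nat_lit 73187) (nat_lit 9) (node (nat_lit 5) (nat_lit 73187) (nat_lit 10) (node (nat_lit 4)
  (nat_lit 73187) (nat_lit 11) nil nil) (node (nat_lit 4) (nat_lit 73187) (nat_lit 10) nil nil))
  (node (nat_lit 4) (nat_lit 73187) (nat_lit 9) (node (nat_lit 5) (nat_lit 73187) (nat_lit 10)
  (node (nat_lit 6) (nat_lit 73187) (nat_lit 11) (node (nat_lit 7) (nat_lit 72328) (nat_lit 12)
  (node (nat_lit 5) (nat_lit 67384) (nat_lit 13) nil nil) nil) nil) nil) nil))) (node (nat_lit 4)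
  (nat_lit 73187) (nat_lit 8) (node (nat_lit 5) (nat_lit 73187) (nat_lit 9) (node (nat_lit 6)
  (nat_lit 73187) (nat_lit 10) (node (nat_lit 7) (nat_lit 65959) (nat_lit 11) (node (nat_lit 5)
  (nat_lit 63240) (nat_lit 12) nil nil) nil) nil) (node (nat_lit 7) (nat_lit 73187) (nat_lit 9)
  (node (nat_lit 6) (nat_lit 73187) (nat_lit 10) nil nil) nil)) (node (nat_lit 7) (nat_lit 73187)
  (nat_lit 8) nil nil))) (node (nat_lit 0) (nat_lit 73187) (nat_lit 7) (node (nat_lit 6) (nat_lit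
  73187) (nat_lit 8) (node (nat_lit 7) (nat_lit 73187) (nat_lit 9) nil nil) (node (nat_lit 5)
  (nat_lit 73187) (nat_lit 8) nil (node (nat_lit 7) (nat_lit 73187) (nat_lit 8) nil nil))) nil))))
  (node (nat_lit 6) (nat_lit 73187) (nat_lit 6) (node (nat_lit 5) (nat_lit 73187) (nat_lit 7)
  (node (nat_lit 7) (nat_lit 73187) (nat_lit 8) (node (nat_lit 6) (nat_lit 73187) (nat_lit 9)
  (node (nat_lit 5) (nat_lit 73187) (nat_lit 10) (node (nat_lit 6) (nat_lit 73187) (nat_lit 11)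
  (node (nat_lit 7) (nat_lit 73187) (nat_lit 12) (node (nat_lit 5) (nat_lit 73187) (nat_lit 13)
  (node (nat_lit 6) (nat_lit 73187) (nat_lit 14) (node (nat_lit 5) (nat_lit 73187) (nat_lit 15)
  nil nil) nil) nil) nil) nil) (node (nat_lit 7) (nat_lit 73187) (nat_lit 10) (node (nat_lit 5)
  (nat_lit 73187) (nat_lit 11) (node (nat_lit 7) (nat_lit 73187) (nat_lit 12) nil nil) (node
  (nat_lit 4) (nat_lit 73187) (nat_lit 11) nil nil)) (node (nat_lit 4) (nat_lit 73187) (nat_lit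
  10) nil nil))) (node (nat_lit 5) (nat_lit 73187) (nat_lit 9) (node (nat_lit 6) (nat_lit 73187)
  (nat_lit 10) (node (nat_lit 7) (nat_lit 73187) (nat_lit 11) nil nil) (node (nat_lit 4) (nat_lit
  73187) (nat_lit 10) (node (nat_lit 5) (nat_lit 73187) (nat_lit 11) (node (nat_lit 6) (nat_lit
  73187) (nat_lit 12) (node (nat_lit 7) (nat_lit 73187) (nat_lit 13) (node (nat_lit 5) (nat_lit
  73187) (nat_lit 14) nil nil) nil) nil) (node (nat_lit 6) (nat_lit 73187) (nat_lit 11) nil (node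
  (nat_lit 7) (nat_lit 73187) (nat_lit 11) nil nil))) nil)) (node (nat_lit 4) (nat_lit 73187)
  (nat_lit 9) (node (nat_lit 5) (nat_lit 73187) (nat_lit 10) (node (nat_lit 6) (nat_lit 73187)
  (nat_lit 11) (node (nat_lit 7) (nat_lit 71401) (nat_lit 12) (node (nat_lit 5) (nat_lit 61357)
  (nat_lit 13) nil nil) nil) nil) (node (nat_lit 6) (nat_lit 73187) (nat_lit 10) nil nil)) nil)))
  (node (nat_lit 4) (nat_lit 73187) (nat_lit 8) (node (nat_lit 5) (nat_lit 73187) (nat_lit 9)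
  (node (nat_lit 6) (nat_lit 64844) (nat_lit 10) (node (nat_lit 7) (nat_lit 65397) (nat_lit 11)
  (node (nat_lit 5) (nat_lit 65397) (nat_lit 12) nil nil) nil) nil) (node (nat_lit 6) (nat_lit
  73187) (nat_lit 9) nil (node (nat_lit 7) (nat_lit 73187) (nat_lit 9) (node (nat_lit 6) (nat_lit
  73187) (nat_lit 10) nil nil) nil))) nil)) (node (nat_lit 4) (nat_lit 73187) (nat_lit 7) (node
  (nat_lit 5) (nat_lit 73187) (nat_lit 8) (node (nat_lit 6) (nat_lit 69340) (nat_lit 9) (node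
  (nat_lit 7) (nat_lit 64679) (nat_lit 10) (node (nat_lit 5) (nat_lit 64096) (nat_lit 11) nil nil)
  nil) nil) (node (nat_lit 7) (nat_lit 73187) (nat_lit 8) (node (nat_lit 5) (nat_lit 73187)
  (nat_lit 9) (node (nat_lit 4) (nat_lit 73187) (nat_lit 10) (node (nat_lit 5) (nat_lit 73187)
  (nat_lit 11) nil nil) nil) (node (nat_lit 4) (nat_lit 73187) (nat_lit 9) (node (nat_lit 5)
  (nat_lit 73187) (nat_lit 10) (node (nat_lit 6) (nat_lit 73187) (nat_lit 11) nil nil) nil) (node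
  (nat_lit 6) (nat_lit 73187) (nat_lit 9) nil nil))) nil)) (node (nat_lit 0) (nat_lit 73187)
  (nat_lit 7) (node (nat_lit 6) (nat_lit 73187) (nat_lit 8) nil nil) nil))) (node (nat_lit 0)
  (nat_lit 73187) (nat_lit 6) (node (nat_lit 7) (nat_lit 73187) (nat_lit 7) (node (nat_lit 5)
  (nat_lit 73187) (nat_lit 8) nil (node (nat_lit 6) (nat_lit 73187) (nat_lit 8) nil (node (nat_lit
  4) (nat_lit 73187) (nat_lit 8) nil nil))) (node (nat_lit 5) (nat_lit 73187) (nat_lit 7) (node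
  (nat_lit 6) (nat_lit 73187) (nat_lit 8) (node (nat_lit 7) (nat_lit 73187) (nat_lit 9) nil nil)
  (node (nat_lit 4) (nat_lit 73187) (nat_lit 8) (node (nat_lit 5) (nat_lit 73187) (nat_lit 9)
  (node (nat_lit 6) (nat_lit 73187) (nat_lit 10) (node (nat_lit 7) (nat_lit 73187) (nat_lit 11)
  nil nil) nil) nil) (node (nat_lit 7) (nat_lit 73187) (nat_lit 8) nil nil))) (node (nat_lit 6)
  (nat_lit 73187) (nat_lit 7) (node (nat_lit 5) (nat_lit 73187) (nat_lit 8) (node (nat_lit 7)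
  (nat_lit 73187) (nat_lit 9) nil nil) (node (nat_lit 4) (nat_lit 73187) (nat_lit 8) nil (node
  (nat_lit 7) (nat_lit 73187) (nat_lit 8) nil nil))) (node (nat_lit 4) (nat_lit 73187) (nat_lit 7)
  nil (node (nat_lit 0) (nat_lit 73187) (nat_lit 7) (node (nat_lit 5) (nat_lit 73187) (nat_lit 8)
  nil nil) nil))))) nil)))) (node (nat_lit 4) (nat_lit 66314) (nat_lit 5) (node (nat_lit 5)
  (nat_lit 49804) (nat_lit 6) (node (nat_lit 7) (nat_lit 52482) (nat_lit 7) (node (nat_lit 5)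
  (nat_lit 54271) (nat_lit 8) (node (nat_lit 4) (nat_lit 55548) (nat_lit 9) (node (nat_lit 5)
  (nat_lit 56191) (nat_lit 10) (node (nat_lit 6) (nat_lit 55749) (nat_lit 11) (node (nat_lit 7)
  (nat_lit 56264) (nat_lit 12) (node (nat_lit 4) (nat_lit 56023) (nat_lit 13) (node (nat_lit 5)
  (nat_lit 56348) (nat_lit 14) nil nil) nil) nil) nil) (node (nat_lit 6) (nat_lit 55147) (nat_lit
  10) nil nil)) (node (nat_lit 6) (nat_lit 55548) (nat_lit 9) (node (nat_lit 7) (nat_lit 56191)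
  (nat_lit 10) nil nil) nil)) (node (nat_lit 6) (nat_lit 54271) (nat_lit 8) (node (nat_lit 4)
  (nat_lit 54713) (nat_lit 9) (node (nat_lit 5) (nat_lit 55357) (nat_lit 10) nil nil) (node
  (nat_lit 5) (nat_lit 55548) (nat_lit 9) nil (node (nat_lit 7) (nat_lit 55548) (nat_lit 9) nil
  nil))) (node (nat_lit 4) (nat_lit 54422) (nat_lit 8) (node (nat_lit 7) (nat_lit 55699) (nat_lit
  9) (node (nat_lit 5) (nat_lit 56720) (nat_lit 10) (node (nat_lit 4) (nat_lit 57463) (nat_lit 11)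
  (node (nat_lit 5) (nat_lit 57576) (nat_lit 12) nil nil) (node (nat_lit 6) (nat_lit 54501)
  (nat_lit 11) nil nil)) nil) (node (nat_lit 6) (nat_lit 55699) (nat_lit 9) (node (nat_lit 5)
  (nat_lit 56720) (nat_lit 10) (node (nat_lit 7) (nat_lit 57288) (nat_lit 11) nil nil) (node
  (nat_lit 7) (nat_lit 56343) (nat_lit 10) nil (node (nat_lit 4) (nat_lit 52264) (nat_lit 10) nil
  nil))) nil)) (node (nat_lit 0) (nat_lit 54422) (nat_lit 8) nil nil)))) (node (nat_lit 4)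
  (nat_lit 52647) (nat_lit 7) (node (nat_lit 7) (nat_lit 54436) (nat_lit 8) (node (nat_lit 5)
  (nat_lit 55713) (nat_lit 9) (node (nat_lit 7) (nat_lit 56734) (nat_lit 10) nil (node (nat_lit 4)
  (nat_lit 56549) (nat_lit 10) (node (nat_lit 5) (nat_lit 56836) (nat_lit 11) nil nil) nil)) (node
  (nat_lit 6) (nat_lit 55713) (nat_lit 9) nil (node (nat_lit 4) (nat_lit 55713) (nat_lit 9) (node
  (nat_lit 5) (nat_lit 56542) (nat_lit 10) nil nil) nil))) (node (nat_lit 6) (nat_lit 54436)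
  (nat_lit 8) (node (nat_lit 5) (nat_lit 55713) (nat_lit 9) (node (nat_lit 7) (nat_lit 56549)
  (nat_lit 10) nil nil) (node (nat_lit 4) (nat_lit 55713) (nat_lit 9) (node (nat_lit 5) (nat_lit
  54794) (nat_lit 10) nil nil) nil)) (node (nat_lit 0) (nat_lit 54436) (nat_lit 8) (node (nat_lit
  5) (nat_lit 55502) (nat_lit 9) nil nil) nil))) (node (nat_lit 0) (nat_lit 52647) (nat_lit 7)
  (node (nat_lit 4) (nat_lit 54436) (nat_lit 8) nil (node (nat_lit 5) (nat_lit 54436) (nat_lit 8)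
  (node (nat_lit 4) (nat_lit 53676) (nat_lit 9) nil (node (nat_lit 7) (nat_lit 55284) (nat_lit 9)
  nil nil)) (node (nat_lit 7) (nat_lit 53399) (nat_lit 8) nil (node (nat_lit 6) (nat_lit 54436)
  (nat_lit 8) nil (node (nat_lit 0) (nat_lit 54436) (nat_lit 8) nil nil))))) nil))) (node (nat_lit
  6) (nat_lit 69721) (nat_lit 6) (node (nat_lit 4) (nat_lit 69721) (nat_lit 7) (node (nat_lit 7)
  (nat_lit 72003) (nat_lit 8) (node (nat_lit 6) (nat_lit 72003) (nat_lit 9) (node (nat_lit 7)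
  (nat_lit 72224) (nat_lit 10) (node (nat_lit 4) (nat_lit 72224) (nat_lit 11) (node (nat_lit 6)
  (nat_lit 72224) (nat_lit 12) nil nil) nil) (node (nat_lit 4) (nat_lit 72003) (nat_lit 10) nil
  nil)) (node (nat_lit 4) (nat_lit 72003) (nat_lit 9) (node (nat_lit 6) (nat_lit 72003) (nat_lit
  10) (node (nat_lit 7) (nat_lit 72300) (nat_lit 11) nil nil) (node (nat_lit 5) (nat_lit 72003)
  (nat_lit 10) (node (nat_lit 6) (nat_lit 72003) (nat_lit 11) (node (nat_lit 7) (nat_lit 65925)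
  (nat_lit 12) (node (nat_lit 4) (nat_lit 56178) (nat_lit 13) (node (nat_lit 6) (nat_lit 38005)
  (nat_lit 14) nil nil) nil) nil) nil) nil)) (node (nat_lit 5) (nat_lit 72003) (nat_lit 9) nil
  nil))) (node (nat_lit 5) (nat_lit 69721) (nat_lit 8) (node (nat_lit 6) (nat_lit 63809) (nat_lit
  9) (node (nat_lit 7) (nat_lit 62076) (nat_lit 10) (node (nat_lit 4) (nat_lit 55509) (nat_lit 11)
  nil nil) nil) nil) nil)) (node (nat_lit 5) (nat_lit 69721) (nat_lit 7) (node (nat_lit 4)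
  (nat_lit 69721) (nat_lit 8) (node (nat_lit 5) (nat_lit 69721) (nat_lit 9) (node (nat_lit 6)
  (nat_lit 60492) (nat_lit 10) (node (nat_lit 7) (nat_lit 59753) (nat_lit 11) (node (nat_lit 4)
  (nat_lit 58978) (nat_lit 12) nil nil) nil) nil) (node (nat_lit 7) (nat_lit 70907) (nat_lit 9)
  nil (node (nat_lit 6) (nat_lit 69721) (nat_lit 9) (node (nat_lit 4) (nat_lit 69721) (nat_lit 10)
  (node (nat_lit 5) (nat_lit 69069) (nat_lit 11) (node (nat_lit 6) (nat_lit 65336) (nat_lit 12)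
  nil nil) nil) nil) nil))) (node (nat_lit 7) (nat_lit 70783) (nat_lit 8) (node (nat_lit 6)
  (nat_lit 70783) (nat_lit 9) nil (node (nat_lit 5) (nat_lit 70783) (nat_lit 9) (node (nat_lit 6)
  (nat_lit 70783) (nat_lit 10) (node (nat_lit 7) (nat_lit 71080) (nat_lit 11) (node (nat_lit 4)
  (nat_lit 71080) (nat_lit 12) nil nil) nil) (node (nat_lit 4) (nat_lit 70783) (nat_lit 10) nil
  nil)) (node (nat_lit 4) (nat_lit 70783) (nat_lit 9) (node (nat_lit 5) (nat_lit 70783) (nat_lit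
  10) (node (nat_lit 6) (nat_lit 68342) (nat_lit 11) (node (nat_lit 7) (nat_lit 61064) (nat_lit
  12) nil nil) nil) nil) nil))) (node (nat_lit 6) (nat_lit 69721) (nat_lit 8) nil nil))) (node
  (nat_lit 7) (nat_lit 71741) (nat_lit 7) (node (nat_lit 6) (nat_lit 71741) (nat_lit 8) (node
  (nat_lit 4) (nat_lit 71741) (nat_lit 9) (node (nat_lit 7) (nat_lit 72127) (nat_lit 10) (node
  (nat_lit 4) (nat_lit 72127) (nat_lit 11) (node (nat_lit 6) (nat_lit 72127) (nat_lit 12) nil nil)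
  nil) nil) (node (nat_lit 5) (nat_lit 71741) (nat_lit 9) (node (nat_lit 6) (nat_lit 71741)
  (nat_lit 10) (node (nat_lit 7) (nat_lit 72203) (nat_lit 11) nil nil) nil) nil)) (node (nat_lit
  5) (nat_lit 71741) (nat_lit 8) (node (nat_lit 4) (nat_lit 71741) (nat_lit 9) (node (nat_lit 5)
  (nat_lit 71741) (nat_lit 10) (node (nat_lit 6) (nat_lit 71741) (nat_lit 11) (node (nat_lit 7)
  (nat_lit 72262) (nat_lit 12) nil nil) (node (nat_lit 7) (nat_lit 72203) (nat_lit 11) nil nil))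
  nil) (node (nat_lit 6) (nat_lit 71741) (nat_lit 9) nil nil)) nil)) (node (nat_lit 0) (nat_lit
  71741) (nat_lit 7) (node (nat_lit 6) (nat_lit 71741) (nat_lit 8) nil (node (nat_lit 7) (nat_lit
  71906) (nat_lit 8) nil (node (nat_lit 5) (nat_lit 71741) (nat_lit 8) nil nil))) nil)))) (node
  (nat_lit 7) (nat_lit 71355) (nat_lit 6) (node (nat_lit 6) (nat_lit 71355) (nat_lit 7) (node
  (nat_lit 4) (nat_lit 71355) (nat_lit 8) (node (nat_lit 6) (nat_lit 71355) (nat_lit 9) (node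
  (nat_lit 7) (nat_lit 71959) (nat_lit 10) (node (nat_lit 4) (nat_lit 71959) (nat_lit 11) nil nil)
  (node (nat_lit 5) (nat_lit 71355) (nat_lit 10) nil nil)) (node (nat_lit 5) (nat_lit 71355)
  (nat_lit 9) (node (nat_lit 6) (nat_lit 71355) (nat_lit 10) (node (nat_lit 7) (nat_lit 72035)
  (nat_lit 11) (node (nat_lit 4) (nat_lit 72035) (nat_lit 12) nil nil) nil) nil) (node (nat_lit 7)
  (nat_lit 71862) (nat_lit 9) nil nil))) (node (nat_lit 7) (nat_lit 72003) (nat_lit 8) (node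
  (nat_lit 5) (nat_lit 72003) (nat_lit 9) (node (nat_lit 4) (nat_lit 72003) (nat_lit 10) nil nil)
  (node (nat_lit 4) (nat_lit 72003) (nat_lit 9) (node (nat_lit 5) (nat_lit 72003) (nat_lit 10) nil
  (node (nat_lit 6) (nat_lit 72003) (nat_lit 10) nil nil)) (node (nat_lit 0) (nat_lit 72127)
  (nat_lit 9) nil nil))) (node (nat_lit 5) (nat_lit 71355) (nat_lit 8) (node (nat_lit 6) (nat_lit
  71355) (nat_lit 9) (node (nat_lit 7) (nat_lit 71959) (nat_lit 10) (node (nat_lit 6) (nat_lit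
  71959) (nat_lit 11) nil nil) nil) (node (nat_lit 7) (nat_lit 71862) (nat_lit 9) nil (node
  (nat_lit 4) (nat_lit 71355) (nat_lit 9) nil nil))) nil))) (node (nat_lit 5) (nat_lit 71355)
  (nat_lit 7) (node (nat_lit 4) (nat_lit 71355) (nat_lit 8) (node (nat_lit 5) (nat_lit 71355)
  (nat_lit 9) (node (nat_lit 7) (nat_lit 71959) (nat_lit 10) (node (nat_lit 5) (nat_lit 71959)
  (nat_lit 11) nil nil) (node (nat_lit 6) (nat_lit 71355) (nat_lit 10) (node (nat_lit 7) (nat_lit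
  72035) (nat_lit 11) (node (nat_lit 4) (nat_lit 72035) (nat_lit 12) nil nil) nil) nil)) (node
  (nat_lit 6) (nat_lit 71355) (nat_lit 9) (node (nat_lit 5) (nat_lit 71355) (nat_lit 10) nil (node
  (nat_lit 7) (nat_lit 71959) (nat_lit 10) (node (nat_lit 5) (nat_lit 71959) (nat_lit 11) nil nil)
  (node (nat_lit 4) (nat_lit 71355) (nat_lit 10) (node (nat_lit 5) (nat_lit 71355) (nat_lit 11)
  nil nil) nil))) nil)) (node (nat_lit 6) (nat_lit 71355) (nat_lit 8) (node (nat_lit 4) (nat_lit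
  71355) (nat_lit 9) nil nil) (node (nat_lit 7) (nat_lit 71738) (nat_lit 8) (node (nat_lit 4)
  (nat_lit 71738) (nat_lit 9) nil nil) nil))) (node (nat_lit 0) (nat_lit 71741) (nat_lit 7) (node
  (nat_lit 6) (nat_lit 71741) (nat_lit 8) nil (node (nat_lit 7) (nat_lit 71906) (nat_lit 8) nil
  (node (nat_lit 5) (nat_lit 71741) (nat_lit 8) nil nil))) nil))) (node (nat_lit 0) (nat_lit
  71355) (nat_lit 6) (node (nat_lit 7) (nat_lit 71574) (nat_lit 7) (node (nat_lit 4) (nat_lit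
  71574) (nat_lit 8) (node (nat_lit 5) (nat_lit 71574) (nat_lit 9) nil nil) (node (nat_lit 6)
  (nat_lit 71574) (nat_lit 8) nil nil)) (node (nat_lit 4) (nat_lit 71355) (nat_lit 7) (node
  (nat_lit 6) (nat_lit 71355) (nat_lit 8) nil (node (nat_lit 7) (nat_lit 71738) (nat_lit 8) nil
  nil)) (node (nat_lit 6) (nat_lit 71355) (nat_lit 7) (node (nat_lit 4) (nat_lit 71355) (nat_lit
  8) nil (node (nat_lit 7) (nat_lit 71738) (nat_lit 8) nil nil)) (node (nat_lit 5) (nat_lit 71355)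
  (nat_lit 7) (node (nat_lit 4) (nat_lit 71355) (nat_lit 8) nil (node (nat_lit 6) (nat_lit 71355)
  (nat_lit 8) nil nil)) nil)))) nil)))) t45))

noncomputable def t47 : Tr :=
  (node (nat_lit 4) (nat_lit 0) (nat_lit 5) (node (nat_lit 5) (nat_lit 53013) (nat_lit 6) (node
  (nat_lit 6) (nat_lit 53079) (nat_lit 7) (node (nat_lit 4) (nat_lit 63060) (nat_lit 8) (node
  (nat_lit 6) (nat_lit 66146) (nat_lit 9) (node (nat_lit 5) (nat_lit 64930) (nat_lit 10) (node
  (nat_lit 6) (nat_lit 63904) (nat_lit 11) (node (nat_lit 4) (nat_lit 63125) (nat_lit 12) (node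
  (nat_lit 5) (nat_lit 62533) (nat_lit 13) (node (nat_lit 6) (nat_lit 62074) (nat_lit 14) (node
  (nat_lit 5) (nat_lit 61717) (nat_lit 15) (node (nat_lit 4) (nat_lit 61438) (nat_lit 16) (node
  (nat_lit 5) (nat_lit 57757) (nat_lit 17) (node (nat_lit 6) (nat_lit 52317) (nat_lit 18) (node
  (nat_lit 4) (nat_lit 45031) (nat_lit 19) (node (nat_lit 6) (nat_lit 39393) (nat_lit 20) (node
  (nat_lit 5) (nat_lit 39327) (nat_lit 21) nil nil) nil) nil) nil) nil) nil) nil) nil) nil) nil)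
  (node (nat_lit 4) (nat_lit 63028) (nat_lit 11) (node (nat_lit 6) (nat_lit 62249) (nat_lit 12)
  (node (nat_lit 4) (nat_lit 61657) (nat_lit 13) (node (nat_lit 5) (nat_lit 61199) (nat_lit 14)
  (node (nat_lit 6) (nat_lit 60842) (nat_lit 15) (node (nat_lit 5) (nat_lit 60562) (nat_lit 16)
  (node (nat_lit 4) (nat_lit 60343) (nat_lit 17) (node (nat_lit 5) (nat_lit 60172) (nat_lit 18)
  (node (nat_lit 6) (nat_lit 55424) (nat_lit 19) (node (nat_lit 4) (nat_lit 50435) (nat_lit 20)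
  (node (nat_lit 6) (nat_lit 44245) (nat_lit 21) (node (nat_lit 5) (nat_lit 39276) (nat_lit 22)
  (node (nat_lit 4) (nat_lit 39236) (nat_lit 23) nil nil) nil) nil) nil) nil) nil) nil) nil) nil)
  nil) nil) (node (nat_lit 5) (nat_lit 62249) (nat_lit 12) nil nil)) nil)) nil) (node (nat_lit 5)
  (nat_lit 66947) (nat_lit 9) (node (nat_lit 4) (nat_lit 66947) (nat_lit 10) (node (nat_lit 6)
  (nat_lit 66947) (nat_lit 11) (node (nat_lit 4) (nat_lit 66447) (nat_lit 12) (node (nat_lit 5)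
  (nat_lit 65855) (nat_lit 13) (node (nat_lit 6) (nat_lit 65292) (nat_lit 14) (node (nat_lit 5)
  (nat_lit 63334) (nat_lit 15) (node (nat_lit 4) (nat_lit 61629) (nat_lit 16) (node (nat_lit 5)
  (nat_lit 57899) (nat_lit 17) (node (nat_lit 6) (nat_lit 53659) (nat_lit 18) (node (nat_lit 4)
  (nat_lit 44416) (nat_lit 19) nil nil) nil) nil) nil) nil) nil) nil) nil) nil) nil) (node
  (nat_lit 1) (nat_lit 66947) (nat_lit 9) nil (node (nat_lit 0) (nat_lit 65823) (nat_lit 9) nil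
  nil)))) (node (nat_lit 1) (nat_lit 66947) (nat_lit 8) (node (nat_lit 4) (nat_lit 66947) (nat_lit
  9) (node (nat_lit 5) (nat_lit 63136) (nat_lit 10) (node (nat_lit 6) (nat_lit 58679) (nat_lit 11)
  nil nil) nil) nil) (node (nat_lit 0) (nat_lit 66947) (nat_lit 8) (node (nat_lit 6) (nat_lit
  66947) (nat_lit 9) nil nil) nil))) (node (nat_lit 1) (nat_lit 66947) (nat_lit 7) (node (nat_lit
  4) (nat_lit 66947) (nat_lit 8) (node (nat_lit 5) (nat_lit 66947) (nat_lit 9) (node (nat_lit 6)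
  (nat_lit 58227) (nat_lit 10) (node (nat_lit 5) (nat_lit 56010) (nat_lit 11) (node (nat_lit 4)
  (nat_lit 41801) (nat_lit 12) nil nil) nil) nil) nil) (node (nat_lit 5) (nat_lit 66947) (nat_lit
  8) (node (nat_lit 6) (nat_lit 66947) (nat_lit 9) (node (nat_lit 5) (nat_lit 66947) (nat_lit 10)
  nil (node (nat_lit 4) (nat_lit 66947) (nat_lit 10) nil nil)) (node (nat_lit 4) (nat_lit 66947)
  (nat_lit 9) (node (nat_lit 5) (nat_lit 66947) (nat_lit 10) (node (nat_lit 6) (nat_lit 66947)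
  (nat_lit 11) (node (nat_lit 5) (nat_lit 66947) (nat_lit 12) (node (nat_lit 4) (nat_lit 66947)
  (nat_lit 13) nil nil) nil) nil) nil) nil)) (node (nat_lit 6) (nat_lit 66947) (nat_lit 8) (node
  (nat_lit 4) (nat_lit 66947) (nat_lit 9) (node (nat_lit 5) (nat_lit 66947) (nat_lit 10) (node
  (nat_lit 6) (nat_lit 66947) (nat_lit 11) (node (nat_lit 5) (nat_lit 66947) (nat_lit 12) (node
  (nat_lit 4) (nat_lit 66947) (nat_lit 13) nil nil) nil) nil) nil) nil) (node (nat_lit 0) (nat_lit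
  66947) (nat_lit 8) nil nil)))) (node (nat_lit 0) (nat_lit 66947) (nat_lit 7) (node (nat_lit 4)
  (nat_lit 66947) (nat_lit 8) nil (node (nat_lit 6) (nat_lit 66947) (nat_lit 8) nil (node (nat_lit
  1) (nat_lit 66947) (nat_lit 8) (node (nat_lit 5) (nat_lit 66947) (nat_lit 9) nil (node (nat_lit
  4) (nat_lit 66947) (nat_lit 9) nil (node (nat_lit 6) (nat_lit 66947) (nat_lit 9) nil nil)))
  (node (nat_lit 5) (nat_lit 66947) (nat_lit 8) (node (nat_lit 6) (nat_lit 66947) (nat_lit 9) nil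
  (node (nat_lit 4) (nat_lit 66947) (nat_lit 9) nil nil)) (node (nat_lit 0) (nat_lit 66947)
  (nat_lit 8) nil nil))))) nil))) (node (nat_lit 6) (nat_lit 53010) (nat_lit 6) (node (nat_lit 5)
  (nat_lit 53101) (nat_lit 7) (node (nat_lit 6) (nat_lit 63749) (nat_lit 8) (node (nat_lit 4)
  (nat_lit 66566) (nat_lit 9) (node (nat_lit 5) (nat_lit 66078) (nat_lit 10) (node (nat_lit 6)
  (nat_lit 63361) (nat_lit 11) (node (nat_lit 5) (nat_lit 63329) (nat_lit 12) (node (nat_lit 4)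
  (nat_lit 63555) (nat_lit 13) (node (nat_lit 6) (nat_lit 58942) (nat_lit 14) (node (nat_lit 5)
  (nat_lit 58847) (nat_lit 15) nil nil) nil) nil) nil) (node (nat_lit 4) (nat_lit 64979) (nat_lit
  11) (node (nat_lit 6) (nat_lit 64200) (nat_lit 12) (node (nat_lit 4) (nat_lit 63608) (nat_lit
  13) (node (nat_lit 5) (nat_lit 63150) (nat_lit 14) (node (nat_lit 6) (nat_lit 62793) (nat_lit
  15) (node (nat_lit 5) (nat_lit 62513) (nat_lit 16) (node (nat_lit 4) (nat_lit 62295) (nat_lit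
  17) (node (nat_lit 6) (nat_lit 62123) (nat_lit 18) (node (nat_lit 5) (nat_lit 61991) (nat_lit
  19) (node (nat_lit 6) (nat_lit 61886) (nat_lit 20) (node (nat_lit 4) (nat_lit 61805) (nat_lit
  21) (node (nat_lit 5) (nat_lit 58736) (nat_lit 22) nil nil) nil) nil) nil) nil) nil) nil) nil)
  nil) nil) nil) nil)) (node (nat_lit 6) (nat_lit 65217) (nat_lit 10) (node (nat_lit 5) (nat_lit
  64190) (nat_lit 11) (node (nat_lit 4) (nat_lit 63411) (nat_lit 12) (node (nat_lit 5) (nat_lit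
  62819) (nat_lit 13) (node (nat_lit 6) (nat_lit 62361) (nat_lit 14) (node (nat_lit 5) (nat_lit
  62004) (nat_lit 15) (node (nat_lit 4) (nat_lit 61724) (nat_lit 16) (node (nat_lit 6) (nat_lit
  61506) (nat_lit 17) (node (nat_lit 5) (nat_lit 61334) (nat_lit 18) (node (nat_lit 6) (nat_lit
  61202) (nat_lit 19) (node (nat_lit 4) (nat_lit 61097) (nat_lit 20) nil nil) nil) nil) nil) nil)
  nil) nil) (node (nat_lit 6) (nat_lit 62819) (nat_lit 13) (node (nat_lit 4) (nat_lit 62361)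
  (nat_lit 14) (node (nat_lit 5) (nat_lit 62004) (nat_lit 15) (node (nat_lit 6) (nat_lit 61724)
  (nat_lit 16) (node (nat_lit 5) (nat_lit 61506) (nat_lit 17) (node (nat_lit 4) (nat_lit 61334)
  (nat_lit 18) (node (nat_lit 6) (nat_lit 61202) (nat_lit 19) (node (nat_lit 5) (nat_lit 61097)
  (nat_lit 20) (node (nat_lit 6) (nat_lit 61016) (nat_lit 21) (node (nat_lit 4) (nat_lit 60952)
  (nat_lit 22) (node (nat_lit 6) (nat_lit 59750) (nat_lit 23) (node (nat_lit 5) (nat_lit 57645)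
  (nat_lit 24) (node (nat_lit 4) (nat_lit 57629) (nat_lit 25) nil nil) nil) nil) nil) nil) nil)
  nil) nil) nil) nil) nil) nil) nil)) nil) nil) nil)) (node (nat_lit 1) (nat_lit 69584) (nat_lit
  9) nil (node (nat_lit 0) (nat_lit 69584) (nat_lit 9) nil nil))) (node (nat_lit 0) (nat_lit
  62754) (nat_lit 8) nil (node (nat_lit 1) (nat_lit 67697) (nat_lit 8) (node (nat_lit 4) (nat_lit
  64160) (nat_lit 9) nil nil) nil))) (node (nat_lit 4) (nat_lit 53089) (nat_lit 7) (node (nat_lit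
  5) (nat_lit 64699) (nat_lit 8) (node (nat_lit 6) (nat_lit 63249) (nat_lit 9) (node (nat_lit 4)
  (nat_lit 65164) (nat_lit 10) (node (nat_lit 6) (nat_lit 65593) (nat_lit 11) (node (nat_lit 5)
  (nat_lit 66113) (nat_lit 12) (node (nat_lit 4) (nat_lit 66109) (nat_lit 13) nil nil) nil) nil)
  (node (nat_lit 5) (nat_lit 59652) (nat_lit 10) (node (nat_lit 4) (nat_lit 59431) (nat_lit 11)
  nil nil) nil)) (node (nat_lit 4) (nat_lit 66997) (nat_lit 9) (node (nat_lit 6) (nat_lit 66652)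
  (nat_lit 10) (node (nat_lit 5) (nat_lit 66588) (nat_lit 11) nil nil) nil) (node (nat_lit 1)
  (nat_lit 68019) (nat_lit 9) nil (node (nat_lit 0) (nat_lit 68019) (nat_lit 9) nil nil)))) (node
  (nat_lit 1) (nat_lit 69584) (nat_lit 8) nil (node (nat_lit 0) (nat_lit 69584) (nat_lit 8) (node
  (nat_lit 5) (nat_lit 69584) (nat_lit 9) nil nil) nil))) (node (nat_lit 1) (nat_lit 69584)
  (nat_lit 7) (node (nat_lit 4) (nat_lit 69584) (nat_lit 8) (node (nat_lit 5) (nat_lit 69584)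
  (nat_lit 9) (node (nat_lit 6) (nat_lit 62605) (nat_lit 10) (node (nat_lit 5) (nat_lit 57092)
  (nat_lit 11) (node (nat_lit 4) (nat_lit 42238) (nat_lit 12) nil nil) nil) nil) nil) (node
  (nat_lit 5) (nat_lit 69584) (nat_lit 8) nil (node (nat_lit 6) (nat_lit 69584) (nat_lit 8) nil
  nil))) (node (nat_lit 0) (nat_lit 69584) (nat_lit 7) (node (nat_lit 5) (nat_lit 69584) (nat_lit
  8) nil (node (nat_lit 4) (nat_lit 69584) (nat_lit 8) nil (node (nat_lit 6) (nat_lit 69584)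
  (nat_lit 8) nil (node (nat_lit 1) (nat_lit 69584) (nat_lit 8) nil nil)))) nil)))) (node (nat_lit
  1) (nat_lit 73187) (nat_lit 6) (node (nat_lit 6) (nat_lit 73187) (nat_lit 7) (node (nat_lit 5)
  (nat_lit 73187) (nat_lit 8) (node (nat_lit 9) (nat_lit 73187) (nat_lit 9) (node (nat_lit 5)
  (nat_lit 73187) (nat_lit 10) (node (nat_lit 6) (nat_lit 73187) (nat_lit 11) (node (nat_lit 9)
  (nat_lit 73187) (nat_lit 12) nil nil) (node (nat_lit 4) (nat_lit 73187) (nat_lit 11) nil nil))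
  (node (nat_lit 6) (nat_lit 73187) (nat_lit 10) (node (nat_lit 9) (nat_lit 73187) (nat_lit 11)
  (node (nat_lit 5) (nat_lit 73187) (nat_lit 12) nil nil) (node (nat_lit 4) (nat_lit 73187)
  (nat_lit 11) (node (nat_lit 5) (nat_lit 73187) (nat_lit 12) nil nil) nil)) (node (nat_lit 4)
  (nat_lit 73187) (nat_lit 10) (node (nat_lit 5) (nat_lit 73187) (nat_lit 11) (node (nat_lit 6)
  (nat_lit 73187) (nat_lit 12) nil nil) (node (nat_lit 9) (nat_lit 73187) (nat_lit 11) nil nil))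
  nil))) (node (nat_lit 6) (nat_lit 73187) (nat_lit 9) (node (nat_lit 9) (nat_lit 73187) (nat_lit
  10) (node (nat_lit 5) (nat_lit 73187) (nat_lit 11) (node (nat_lit 9) (nat_lit 73187) (nat_lit
  12) (node (nat_lit 6) (nat_lit 73187) (nat_lit 13) nil nil) nil) (node (nat_lit 6) (nat_lit
  73187) (nat_lit 11) (node (nat_lit 5) (nat_lit 73187) (nat_lit 12) nil nil) (node (nat_lit 4)
  (nat_lit 73187) (nat_lit 11) nil nil))) (node (nat_lit 4) (nat_lit 73187) (nat_lit 10) (node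
  (nat_lit 5) (nat_lit 73187) (nat_lit 11) nil nil) nil)) (node (nat_lit 0) (nat_lit 73187)
  (nat_lit 9) (node (nat_lit 5) (nat_lit 73187) (nat_lit 10) nil (node (nat_lit 6) (nat_lit 73187)
  (nat_lit 10) nil nil)) nil))) (node (nat_lit 4) (nat_lit 73187) (nat_lit 8) (node (nat_lit 5)
  (nat_lit 73187) (nat_lit 9) (node (nat_lit 6) (nat_lit 73187) (nat_lit 10) (node (nat_lit 5)
  (nat_lit 73187) (nat_lit 11) (node (nat_lit 4) (nat_lit 73187) (nat_lit 12) (node (nat_lit 9)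
  (nat_lit 49064) (nat_lit 13) nil nil) nil) nil) nil) nil) (node (nat_lit 9) (nat_lit 73187)
  (nat_lit 8) (node (nat_lit 4) (nat_lit 73187) (nat_lit 9) nil (node (nat_lit 5) (nat_lit 73187)
  (nat_lit 9) nil nil)) (node (nat_lit 0) (nat_lit 73187) (nat_lit 8) nil nil)))) (node (nat_lit
  5) (nat_lit 73187) (nat_lit 7) (node (nat_lit 4) (nat_lit 73187) (nat_lit 8) (node (nat_lit 5)
  (nat_lit 73187) (nat_lit 9) (node (nat_lit 6) (nat_lit 73187) (nat_lit 10) nil nil) nil) (node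
  (nat_lit 6) (nat_lit 73187) (nat_lit 8) (node (nat_lit 9) (nat_lit 73187) (nat_lit 9) nil nil)
  (node (nat_lit 9) (nat_lit 73187) (nat_lit 8) (node (nat_lit 4) (nat_lit 73187) (nat_lit 9)
  (node (nat_lit 5) (nat_lit 73187) (nat_lit 10) nil nil) nil) nil))) (node (nat_lit 4) (nat_lit
  73187) (nat_lit 7) (node (nat_lit 5) (nat_lit 72516) (nat_lit 8) (node (nat_lit 6) (nat_lit
  63195) (nat_lit 9) (node (nat_lit 5) (nat_lit 51434) (nat_lit 10) nil nil) (node (nat_lit 9)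
  (nat_lit 73023) (nat_lit 9) (node (nat_lit 5) (nat_lit 73023) (nat_lit 10) nil nil) (node
  (nat_lit 4) (nat_lit 72516) (nat_lit 9) nil nil))) nil) (node (nat_lit 0) (nat_lit 73187)
  (nat_lit 7) nil nil)))) (node (nat_lit 0) (nat_lit 73187) (nat_lit 6) (node (nat_lit 5) (nat_lit
  73187) (nat_lit 7) (node (nat_lit 4) (nat_lit 73187) (nat_lit 8) (node (nat_lit 5) (nat_lit
  73187) (nat_lit 9) (node (nat_lit 6) (nat_lit 73187) (nat_lit 10) nil nil) nil) nil) (node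
  (nat_lit 4) (nat_lit 73187) (nat_lit 7) nil (node (nat_lit 6) (nat_lit 73187) (nat_lit 7) (node
  (nat_lit 4) (nat_lit 73187) (nat_lit 8) nil nil) (node (nat_lit 1) (nat_lit 73187) (nat_lit 7)
  (node (nat_lit 4) (nat_lit 73187) (nat_lit 8) nil nil) (node (nat_lit 0) (nat_lit 73187)
  (nat_lit 7) nil nil))))) nil)))) (node (nat_lit 1) (nat_lit 67042) (nat_lit 5) (node (nat_lit 6)
  (nat_lit 73187) (nat_lit 6) (node (nat_lit 8) (nat_lit 73187) (nat_lit 7) (node (nat_lit 5)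
  (nat_lit 73187) (nat_lit 8) (node (nat_lit 6) (nat_lit 73187) (nat_lit 9) nil (node (nat_lit 8)
  (nat_lit 73187) (nat_lit 9) (node (nat_lit 6) (nat_lit 73187) (nat_lit 10) nil nil) nil)) (node
  (nat_lit 4) (nat_lit 73187) (nat_lit 8) nil nil)) (node (nat_lit 5) (nat_lit 73187) (nat_lit 7)
  (node (nat_lit 6) (nat_lit 73187) (nat_lit 8) nil (node (nat_lit 4) (nat_lit 73187) (nat_lit 8)
  (node (nat_lit 5) (nat_lit 73187) (nat_lit 9) (node (nat_lit 6) (nat_lit 65870) (nat_lit 10)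
  (node (nat_lit 5) (nat_lit 62337) (nat_lit 11) (node (nat_lit 8) (nat_lit 62744) (nat_lit 12)
  nil nil) nil) nil) nil) nil)) (node (nat_lit 4) (nat_lit 73187) (nat_lit 7) (node (nat_lit 5)
  (nat_lit 73187) (nat_lit 8) (node (nat_lit 6) (nat_lit 73187) (nat_lit 9) (node (nat_lit 5)
  (nat_lit 73187) (nat_lit 10) nil nil) nil) nil) nil))) (node (nat_lit 4) (nat_lit 73187)
  (nat_lit 6) (node (nat_lit 6) (nat_lit 73187) (nat_lit 7) (node (nat_lit 8) (nat_lit 73187)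
  (nat_lit 8) nil (node (nat_lit 4) (nat_lit 73187) (nat_lit 8) (node (nat_lit 5) (nat_lit 73187)
  (nat_lit 9) (node (nat_lit 6) (nat_lit 69462) (nat_lit 10) (node (nat_lit 5) (nat_lit 60220)
  (nat_lit 11) (node (nat_lit 8) (nat_lit 52278) (nat_lit 12) (node (nat_lit 4) (nat_lit 49224)
  (nat_lit 13) nil nil) nil) nil) nil) nil) nil)) (node (nat_lit 5) (nat_lit 67303) (nat_lit 7)
  (node (nat_lit 6) (nat_lit 56236) (nat_lit 8) (node (nat_lit 8) (nat_lit 57040) (nat_lit 9) nil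
  (node (nat_lit 4) (nat_lit 56236) (nat_lit 9) nil nil)) (node (nat_lit 4) (nat_lit 70032)
  (nat_lit 8) (node (nat_lit 8) (nat_lit 70837) (nat_lit 9) nil nil) (node (nat_lit 8) (nat_lit
  70712) (nat_lit 8) (node (nat_lit 5) (nat_lit 70712) (nat_lit 9) (node (nat_lit 6) (nat_lit
  70677) (nat_lit 10) (node (nat_lit 5) (nat_lit 69860) (nat_lit 11) nil nil) nil) nil) (node
  (nat_lit 0) (nat_lit 70712) (nat_lit 8) nil nil)))) (node (nat_lit 8) (nat_lit 73187) (nat_lit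
  7) (node (nat_lit 6) (nat_lit 73187) (nat_lit 8) (node (nat_lit 5) (nat_lit 73187) (nat_lit 9)
  (node (nat_lit 8) (nat_lit 73187) (nat_lit 10) (node (nat_lit 5) (nat_lit 73187) (nat_lit 11)
  (node (nat_lit 4) (nat_lit 73187) (nat_lit 12) nil nil) nil) nil) nil) (node (nat_lit 5)
  (nat_lit 73187) (nat_lit 8) nil nil)) (node (nat_lit 0) (nat_lit 73187) (nat_lit 7) nil nil))))
  (node (nat_lit 5) (nat_lit 73187) (nat_lit 6) (node (nat_lit 6) (nat_lit 73187) (nat_lit 7)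
  (node (nat_lit 8) (nat_lit 73187) (nat_lit 8) (node (nat_lit 6) (nat_lit 73187) (nat_lit 9)
  (node (nat_lit 5) (nat_lit 73187) (nat_lit 10) (node (nat_lit 6) (nat_lit 73187) (nat_lit 11)
  (node (nat_lit 8) (nat_lit 73187) (nat_lit 12) nil (node (nat_lit 4) (nat_lit 73187) (nat_lit
  12) nil nil)) (node (nat_lit 8) (nat_lit 73187) (nat_lit 11) nil (node (nat_lit 4) (nat_lit
  73187) (nat_lit 11) (node (nat_lit 5) (nat_lit 73187) (nat_lit 12) (node (nat_lit 6) (nat_lit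
  73187) (nat_lit 13) nil nil) nil) nil))) (node (nat_lit 4) (nat_lit 73187) (nat_lit 10) (node
  (nat_lit 5) (nat_lit 73187) (nat_lit 11) (node (nat_lit 6) (nat_lit 73187) (nat_lit 12) (node
  (nat_lit 5) (nat_lit 73187) (nat_lit 13) (node (nat_lit 8) (nat_lit 73187) (nat_lit 14) nil nil)
  nil) nil) nil) nil)) (node (nat_lit 5) (nat_lit 73187) (nat_lit 9) (node (nat_lit 8) (nat_lit
  73187) (nat_lit 10) (node (nat_lit 6) (nat_lit 73187) (nat_lit 11) (node (nat_lit 5) (nat_lit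
  73187) (nat_lit 12) nil (node (nat_lit 4) (nat_lit 73187) (nat_lit 12) nil nil)) (node (nat_lit
  4) (nat_lit 73187) (nat_lit 11) (node (nat_lit 5) (nat_lit 73187) (nat_lit 12) nil nil) nil))
  (node (nat_lit 4) (nat_lit 73187) (nat_lit 10) (node (nat_lit 5) (nat_lit 73187) (nat_lit 11)
  (node (nat_lit 6) (nat_lit 73187) (nat_lit 12) nil nil) nil) nil)) (node (nat_lit 4) (nat_lit
  73187) (nat_lit 9) (node (nat_lit 5) (nat_lit 73187) (nat_lit 10) (node (nat_lit 6) (nat_lit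
  73187) (nat_lit 11) (node (nat_lit 5) (nat_lit 69185) (nat_lit 12) (node (nat_lit 8) (nat_lit
  58443) (nat_lit 13) (node (nat_lit 5) (nat_lit 46052) (nat_lit 14) nil nil) nil) nil) nil) nil)
  nil))) (node (nat_lit 4) (nat_lit 73187) (nat_lit 8) (node (nat_lit 5) (nat_lit 73187) (nat_lit
  9) (node (nat_lit 6) (nat_lit 72172) (nat_lit 10) (node (nat_lit 5) (nat_lit 64030) (nat_lit 11)
  (node (nat_lit 8) (nat_lit 54759) (nat_lit 12) nil nil) nil) nil) (node (nat_lit 8) (nat_lit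
  73187) (nat_lit 9) nil nil)) (node (nat_lit 0) (nat_lit 73187) (nat_lit 8) nil (node (nat_lit 5)
  (nat_lit 73187) (nat_lit 8) nil nil)))) (node (nat_lit 4) (nat_lit 73187) (nat_lit 7) (node
  (nat_lit 5) (nat_lit 73187) (nat_lit 8) (node (nat_lit 6) (nat_lit 73187) (nat_lit 9) (node
  (nat_lit 5) (nat_lit 73187) (nat_lit 10) (node (nat_lit 8) (nat_lit 67046) (nat_lit 11) nil nil)
  nil) (node (nat_lit 8) (nat_lit 73187) (nat_lit 9) nil nil)) (node (nat_lit 8) (nat_lit 73187)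
  (nat_lit 8) (node (nat_lit 6) (nat_lit 73187) (nat_lit 9) nil nil) (node (nat_lit 6) (nat_lit
  73187) (nat_lit 8) (node (nat_lit 5) (nat_lit 73187) (nat_lit 9) nil nil) nil))) (node (nat_lit
  0) (nat_lit 73187) (nat_lit 7) (node (nat_lit 8) (nat_lit 73187) (nat_lit 8) nil (node (nat_lit
  5) (nat_lit 73187) (nat_lit 8) (node (nat_lit 8) (nat_lit 73187) (nat_lit 9) nil nil) (node
  (nat_lit 6) (nat_lit 73187) (nat_lit 8) nil nil))) nil))) (node (nat_lit 0) (nat_lit 73187)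
  (nat_lit 6) (node (nat_lit 5) (nat_lit 73187) (nat_lit 7) (node (nat_lit 8) (nat_lit 73187)
  (nat_lit 8) nil (node (nat_lit 4) (nat_lit 73187) (nat_lit 8) nil nil)) (node (nat_lit 8)
  (nat_lit 73187) (nat_lit 7) nil (node (nat_lit 6) (nat_lit 73187) (nat_lit 7) nil (node (nat_lit
  4) (nat_lit 73187) (nat_lit 7) nil nil)))) nil)))) (node (nat_lit 0) (nat_lit 70750) (nat_lit 5)
  (node (nat_lit 5) (nat_lit 73187) (nat_lit 6) (node (nat_lit 6) (nat_lit 73187) (nat_lit 7)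
  (node (nat_lit 8) (nat_lit 73187) (nat_lit 8) nil (node (nat_lit 5) (nat_lit 73187) (nat_lit 8)
  (node (nat_lit 4) (nat_lit 72590) (nat_lit 9) nil nil) (node (nat_lit 4) (nat_lit 73187)
  (nat_lit 8) nil nil))) (node (nat_lit 4) (nat_lit 73187) (nat_lit 7) (node (nat_lit 5) (nat_lit
  73187) (nat_lit 8) (node (nat_lit 6) (nat_lit 73187) (nat_lit 9) (node (nat_lit 5) (nat_lit
  73187) (nat_lit 10) nil nil) nil) nil) (node (nat_lit 1) (nat_lit 73187) (nat_lit 7) (node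
  (nat_lit 5) (nat_lit 73187) (nat_lit 8) nil nil) (node (nat_lit 0) (nat_lit 73187) (nat_lit 7)
  nil nil)))) (node (nat_lit 6) (nat_lit 73187) (nat_lit 6) (node (nat_lit 5) (nat_lit 73187)
  (nat_lit 7) (node (nat_lit 6) (nat_lit 73187) (nat_lit 8) nil nil) (node (nat_lit 8) (nat_lit
  73187) (nat_lit 7) (node (nat_lit 5) (nat_lit 73187) (nat_lit 8) nil nil) (node (nat_lit 4)
  (nat_lit 73187) (nat_lit 7) (node (nat_lit 5) (nat_lit 73187) (nat_lit 8) (node (nat_lit 6)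
  (nat_lit 73187) (nat_lit 9) (node (nat_lit 5) (nat_lit 73187) (nat_lit 10) nil nil) nil) nil)
  (node (nat_lit 1) (nat_lit 73187) (nat_lit 7) nil (node (nat_lit 0) (nat_lit 73187) (nat_lit 7)
  nil nil))))) (node (nat_lit 4) (nat_lit 73187) (nat_lit 6) (node (nat_lit 5) (nat_lit 73187)
  (nat_lit 7) nil (node (nat_lit 6) (nat_lit 73187) (nat_lit 7) (node (nat_lit 4) (nat_lit 73187)
  (nat_lit 8) nil nil) (node (nat_lit 8) (nat_lit 73187) (nat_lit 7) (node (nat_lit 6) (nat_lit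
  73187) (nat_lit 8) nil nil) (node (nat_lit 1) (nat_lit 73187) (nat_lit 7) nil (node (nat_lit 0)
  (nat_lit 73187) (nat_lit 7) nil nil))))) (node (nat_lit 1) (nat_lit 73187) (nat_lit 6) (node
  (nat_lit 5) (nat_lit 73187) (nat_lit 7) (node (nat_lit 8) (nat_lit 73187) (nat_lit 8) nil nil)
  (node (nat_lit 6) (nat_lit 73187) (nat_lit 7) (node (nat_lit 9) (nat_lit 73187) (nat_lit 8) nil
  nil) (node (nat_lit 8) (nat_lit 73187) (nat_lit 7) (node (nat_lit 5) (nat_lit 73187) (nat_lit 8)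
  nil (node (nat_lit 6) (nat_lit 73187) (nat_lit 8) (node (nat_lit 9) (nat_lit 73187) (nat_lit 9)
  nil nil) nil)) (node (nat_lit 4) (nat_lit 73187) (nat_lit 7) (node (nat_lit 5) (nat_lit 73187)
  (nat_lit 8) nil nil) (node (nat_lit 0) (nat_lit 73187) (nat_lit 7) nil nil))))) (node (nat_lit
  0) (nat_lit 73187) (nat_lit 6) (node (nat_lit 5) (nat_lit 73187) (nat_lit 7) nil (node (nat_lit
  8) (nat_lit 73187) (nat_lit 7) nil (node (nat_lit 1) (nat_lit 73187) (nat_lit 7) nil (node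
  (nat_lit 6) (nat_lit 73187) (nat_lit 7) nil nil)))) nil))))) nil)))

noncomputable def t48 : Tr :=
  (node (nat_lit 5) (nat_lit 47985) (nat_lit 5) (node (nat_lit 7) (nat_lit 51967) (nat_lit 6)
  (node (nat_lit 4) (nat_lit 62042) (nat_lit 7) (node (nat_lit 5) (nat_lit 68205) (nat_lit 8)
  (node (nat_lit 4) (nat_lit 66807) (nat_lit 9) (node (nat_lit 7) (nat_lit 51646) (nat_lit 10)
  (node (nat_lit 4) (nat_lit 51646) (nat_lit 11) (node (nat_lit 5) (nat_lit 51646) (nat_lit 12)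
  nil nil) nil) nil) (node (nat_lit 7) (nat_lit 68205) (nat_lit 9) (node (nat_lit 5) (nat_lit
  68205) (nat_lit 10) (node (nat_lit 4) (nat_lit 68205) (nat_lit 11) (node (nat_lit 7) (nat_lit
  68205) (nat_lit 12) (node (nat_lit 4) (nat_lit 68205) (nat_lit 13) (node (nat_lit 5) (nat_lit
  68205) (nat_lit 14) (node (nat_lit 4) (nat_lit 68205) (nat_lit 15) (node (nat_lit 7) (nat_lit
  68205) (nat_lit 16) (node (nat_lit 5) (nat_lit 68205) (nat_lit 17) (node (nat_lit 7) (nat_lit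
  66591) (nat_lit 18) (node (nat_lit 4) (nat_lit 62512) (nat_lit 19) (node (nat_lit 5) (nat_lit
  54972) (nat_lit 20) (node (nat_lit 7) (nat_lit 46266) (nat_lit 21) (node (nat_lit 5) (nat_lit
  34653) (nat_lit 22) nil nil) nil) nil) nil) nil) nil) nil) nil) nil) nil) nil) nil) nil) nil))
  (node (nat_lit 3) (nat_lit 68205) (nat_lit 8) (node (nat_lit 4) (nat_lit 68205) (nat_lit 9) nil
  nil) (node (nat_lit 7) (nat_lit 68205) (nat_lit 8) (node (nat_lit 5) (nat_lit 68205) (nat_lit 9)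
  (node (nat_lit 4) (nat_lit 68205) (nat_lit 10) (node (nat_lit 7) (nat_lit 68205) (nat_lit 11)
  (node (nat_lit 4) (nat_lit 68205) (nat_lit 12) (node (nat_lit 5) (nat_lit 68205) (nat_lit 13)
  (node (nat_lit 4) (nat_lit 68205) (nat_lit 14) (node (nat_lit 7) (nat_lit 68205) (nat_lit 15)
  (node (nat_lit 5) (nat_lit 68205) (nat_lit 16) (node (nat_lit 7) (nat_lit 64462) (nat_lit 17)
  (node (nat_lit 4) (nat_lit 57072) (nat_lit 18) (node (nat_lit 7) (nat_lit 48420) (nat_lit 19)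
  (node (nat_lit 5) (nat_lit 36679) (nat_lit 20) nil nil) nil) nil) nil) nil) nil) nil) nil) nil)
  (node (nat_lit 5) (nat_lit 68205) (nat_lit 11) (node (nat_lit 7) (nat_lit 68205) (nat_lit 12)
  (node (nat_lit 4) (nat_lit 68205) (nat_lit 13) (node (nat_lit 5) (nat_lit 68205) (nat_lit 14)
  (node (nat_lit 4) (nat_lit 68205) (nat_lit 15) (node (nat_lit 7) (nat_lit 68205) (nat_lit 16)
  (node (nat_lit 5) (nat_lit 68205) (nat_lit 17) (node (nat_lit 7) (nat_lit 68205) (nat_lit 18)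
  (node (nat_lit 4) (nat_lit 64918) (nat_lit 19) (node (nat_lit 7) (nat_lit 58789) (nat_lit 20)
  (node (nat_lit 5) (nat_lit 45522) (nat_lit 21) (node (nat_lit 4) (nat_lit 35681) (nat_lit 22)
  nil nil) nil) nil) nil) nil) nil) nil) nil) nil) nil) nil) nil)) nil) nil) (node (nat_lit 0)
  (nat_lit 68205) (nat_lit 8) nil nil)))) (node (nat_lit 3) (nat_lit 67755) (nat_lit 7) (node
  (nat_lit 4) (nat_lit 67495) (nat_lit 8) (node (nat_lit 5) (nat_lit 66819) (nat_lit 9) (node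
  (nat_lit 4) (nat_lit 64827) (nat_lit 10) (node (nat_lit 7) (nat_lit 65218) (nat_lit 11) (node
  (nat_lit 5) (nat_lit 64010) (nat_lit 12) (node (nat_lit 7) (nat_lit 36347) (nat_lit 13) nil nil)
  nil) nil) nil) nil) nil) (node (nat_lit 0) (nat_lit 67755) (nat_lit 7) nil nil))) (node (nat_lit
  4) (nat_lit 51961) (nat_lit 6) (node (nat_lit 5) (nat_lit 61407) (nat_lit 7) (node (nat_lit 7)
  (nat_lit 68205) (nat_lit 8) (node (nat_lit 4) (nat_lit 68205) (nat_lit 9) (node (nat_lit 5)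
  (nat_lit 65967) (nat_lit 10) (node (nat_lit 4) (nat_lit 61578) (nat_lit 11) (node (nat_lit 7)
  (nat_lit 59569) (nat_lit 12) (node (nat_lit 5) (nat_lit 42503) (nat_lit 13) (node (nat_lit 4)
  (nat_lit 29278) (nat_lit 14) nil nil) nil) nil) nil) (node (nat_lit 7) (nat_lit 68205) (nat_lit
  10) (node (nat_lit 5) (nat_lit 68205) (nat_lit 11) (node (nat_lit 7) (nat_lit 68205) (nat_lit
  12) (node (nat_lit 4) (nat_lit 68205) (nat_lit 13) (node (nat_lit 5) (nat_lit 68205) (nat_lit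
  14) (node (nat_lit 4) (nat_lit 68205) (nat_lit 15) (node (nat_lit 7) (nat_lit 68205) (nat_lit
  16) (node (nat_lit 5) (nat_lit 68205) (nat_lit 17) (node (nat_lit 4) (nat_lit 68205) (nat_lit
  18) (node (nat_lit 5) (nat_lit 68205) (nat_lit 19) (node (nat_lit 7) (nat_lit 68205) (nat_lit
  20) (node (nat_lit 4) (nat_lit 61793) (nat_lit 21) nil nil) nil) nil) nil) nil) nil) nil) nil)
  nil) nil) nil) nil)) (node (nat_lit 5) (nat_lit 68205) (nat_lit 9) (node (nat_lit 4) (nat_lit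
  68205) (nat_lit 10) (node (nat_lit 7) (nat_lit 68205) (nat_lit 11) (node (nat_lit 4) (nat_lit
  68205) (nat_lit 12) (node (nat_lit 5) (nat_lit 68205) (nat_lit 13) (node (nat_lit 4) (nat_lit
  68205) (nat_lit 14) (node (nat_lit 7) (nat_lit 68205) (nat_lit 15) (node (nat_lit 5) (nat_lit
  68205) (nat_lit 16) (node (nat_lit 4) (nat_lit 68204) (nat_lit 17) (node (nat_lit 5) (nat_lit
  67613) (nat_lit 18) (node (nat_lit 7) (nat_lit 56022) (nat_lit 19) (node (nat_lit 5) (nat_lit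
  30179) (nat_lit 20) nil nil) nil) nil) nil) nil) nil) nil) nil) (node (nat_lit 5) (nat_lit
  68205) (nat_lit 12) (node (nat_lit 7) (nat_lit 68205) (nat_lit 13) (node (nat_lit 4) (nat_lit
  68205) (nat_lit 14) (node (nat_lit 5) (nat_lit 68205) (nat_lit 15) (node (nat_lit 4) (nat_lit
  68205) (nat_lit 16) (node (nat_lit 7) (nat_lit 68205) (nat_lit 17) (node (nat_lit 5) (nat_lit
  68205) (nat_lit 18) (node (nat_lit 4) (nat_lit 68205) (nat_lit 19) (node (nat_lit 5) (nat_lit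
  68205) (nat_lit 20) (node (nat_lit 7) (nat_lit 68205) (nat_lit 21) (node (nat_lit 5) (nat_lit
  67784) (nat_lit 22) (node (nat_lit 4) (nat_lit 61374) (nat_lit 23) (node (nat_lit 7) (nat_lit
  44743) (nat_lit 24) nil nil) nil) nil) nil) nil) nil) nil) nil) nil) nil) nil) nil) nil)) nil)
  nil) nil)) (node (nat_lit 3) (nat_lit 67882) (nat_lit 8) (node (nat_lit 4) (nat_lit 65656)
  (nat_lit 9) (node (nat_lit 5) (nat_lit 62221) (nat_lit 10) (node (nat_lit 4) (nat_lit 57808)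
  (nat_lit 11) (node (nat_lit 7) (nat_lit 56294) (nat_lit 12) (node (nat_lit 5) (nat_lit 47515)
  (nat_lit 13) (node (nat_lit 4) (nat_lit 38118) (nat_lit 14) nil nil) nil) nil) nil) nil) nil)
  nil)) (node (nat_lit 3) (nat_lit 67882) (nat_lit 7) (node (nat_lit 4) (nat_lit 67027) (nat_lit
  8) (node (nat_lit 5) (nat_lit 62047) (nat_lit 9) nil nil) nil) (node (nat_lit 0) (nat_lit 68205)
  (nat_lit 7) (node (nat_lit 7) (nat_lit 68205) (nat_lit 8) nil nil) nil))) (node (nat_lit 3)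
  (nat_lit 67882) (nat_lit 6) (node (nat_lit 7) (nat_lit 68205) (nat_lit 7) (node (nat_lit 4)
  (nat_lit 68205) (nat_lit 8) (node (nat_lit 5) (nat_lit 68205) (nat_lit 9) (node (nat_lit 4)
  (nat_lit 67529) (nat_lit 10) (node (nat_lit 7) (nat_lit 38044) (nat_lit 11) (node (nat_lit 5)
  (nat_lit 33176) (nat_lit 12) nil nil) nil) nil) nil) (node (nat_lit 9) (nat_lit 68205) (nat_lit
  8) (node (nat_lit 5) (nat_lit 68205) (nat_lit 9) (node (nat_lit 4) (nat_lit 68205) (nat_lit 10)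
  (node (nat_lit 7) (nat_lit 68205) (nat_lit 11) nil nil) nil) nil) nil)) (node (nat_lit 4)
  (nat_lit 67882) (nat_lit 7) (node (nat_lit 5) (nat_lit 65350) (nat_lit 8) (node (nat_lit 4)
  (nat_lit 56586) (nat_lit 9) (node (nat_lit 7) (nat_lit 37795) (nat_lit 10) (node (nat_lit 5)
  (nat_lit 37004) (nat_lit 11) nil nil) nil) nil) nil) nil)) (node (nat_lit 0) (nat_lit 68205)
  (nat_lit 6) (node (nat_lit 7) (nat_lit 68205) (nat_lit 7) nil nil) nil)))) (node (nat_lit 4)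
  (nat_lit 47987) (nat_lit 5) (node (nat_lit 5) (nat_lit 51934) (nat_lit 6) (node (nat_lit 7)
  (nat_lit 57450) (nat_lit 7) (node (nat_lit 5) (nat_lit 57450) (nat_lit 8) (node (nat_lit 4)
  (nat_lit 57450) (nat_lit 9) (node (nat_lit 7) (nat_lit 58195) (nat_lit 10) (node (nat_lit 5)
  (nat_lit 58195) (nat_lit 11) (node (nat_lit 7) (nat_lit 58460) (nat_lit 12) (node (nat_lit 4)
  (nat_lit 58460) (nat_lit 13) (node (nat_lit 5) (nat_lit 58460) (nat_lit 14) (node (nat_lit 4)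
  (nat_lit 58460) (nat_lit 15) (node (nat_lit 7) (nat_lit 58719) (nat_lit 16) (node (nat_lit 4)
  (nat_lit 58719) (nat_lit 17) (node (nat_lit 5) (nat_lit 58719) (nat_lit 18) (node (nat_lit 7)
  (nat_lit 58798) (nat_lit 19) (node (nat_lit 5) (nat_lit 58014) (nat_lit 20) (node (nat_lit 4)
  (nat_lit 52965) (nat_lit 21) (node (nat_lit 7) (nat_lit 29382) (nat_lit 22) nil nil) nil) nil)
  nil) nil) nil) nil) nil) nil) nil) nil) (node (nat_lit 4) (nat_lit 58195) (nat_lit 11) nil nil))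
  (node (nat_lit 5) (nat_lit 57450) (nat_lit 10) (node (nat_lit 7) (nat_lit 58344) (nat_lit 11)
  (node (nat_lit 4) (nat_lit 58344) (nat_lit 12) (node (nat_lit 5) (nat_lit 58344) (nat_lit 13)
  (node (nat_lit 4) (nat_lit 58344) (nat_lit 14) (node (nat_lit 7) (nat_lit 58675) (nat_lit 15)
  (node (nat_lit 4) (nat_lit 58675) (nat_lit 16) (node (nat_lit 5) (nat_lit 56640) (nat_lit 17)
  (node (nat_lit 7) (nat_lit 49946) (nat_lit 18) (node (nat_lit 5) (nat_lit 23802) (nat_lit 19)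
  (node (nat_lit 4) (nat_lit 23223) (nat_lit 20) nil nil) nil) nil) nil) nil) nil) nil) nil) nil)
  nil) nil)) nil) (node (nat_lit 4) (nat_lit 57450) (nat_lit 8) (node (nat_lit 7) (nat_lit 58005)
  (nat_lit 9) nil nil) (node (nat_lit 3) (nat_lit 58202) (nat_lit 8) nil (node (nat_lit 0)
  (nat_lit 58353) (nat_lit 8) nil nil)))) (node (nat_lit 3) (nat_lit 56156) (nat_lit 7) (node
  (nat_lit 7) (nat_lit 58353) (nat_lit 8) nil (node (nat_lit 4) (nat_lit 56156) (nat_lit 8) (node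
  (nat_lit 5) (nat_lit 54389) (nat_lit 9) (node (nat_lit 4) (nat_lit 51197) (nat_lit 10) (node
  (nat_lit 7) (nat_lit 44668) (nat_lit 11) (node (nat_lit 4) (nat_lit 33573) (nat_lit 12) nil nil)
  nil) nil) nil) (node (nat_lit 5) (nat_lit 56156) (nat_lit 8) nil nil))) (node (nat_lit 0)
  (nat_lit 58202) (nat_lit 7) nil nil))) (node (nat_lit 3) (nat_lit 64814) (nat_lit 6) (node
  (nat_lit 7) (nat_lit 68205) (nat_lit 7) (node (nat_lit 4) (nat_lit 68205) (nat_lit 8) (node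
  (nat_lit 5) (nat_lit 66333) (nat_lit 9) (node (nat_lit 4) (nat_lit 60474) (nat_lit 10) (node
  (nat_lit 7) (nat_lit 45975) (nat_lit 11) nil nil) nil) nil) nil) (node (nat_lit 4) (nat_lit
  67918) (nat_lit 7) (node (nat_lit 5) (nat_lit 67918) (nat_lit 8) (node (nat_lit 4) (nat_lit
  58099) (nat_lit 9) (node (nat_lit 7) (nat_lit 38447) (nat_lit 10) nil nil) nil) nil) (node
  (nat_lit 5) (nat_lit 67446) (nat_lit 7) nil nil))) (node (nat_lit 0) (nat_lit 65855) (nat_lit 6)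
  (node (nat_lit 7) (nat_lit 68205) (nat_lit 7) nil nil) nil))) (node (nat_lit 3) (nat_lit 68070)
  (nat_lit 5) (node (nat_lit 5) (nat_lit 68205) (nat_lit 6) (node (nat_lit 7) (nat_lit 68205)
  (nat_lit 7) (node (nat_lit 5) (nat_lit 68205) (nat_lit 8) (node (nat_lit 8) (nat_lit 68205)
  (nat_lit 9) (node (nat_lit 7) (nat_lit 68205) (nat_lit 10) (node (nat_lit 5) (nat_lit 68205)
  (nat_lit 11) (node (nat_lit 7) (nat_lit 68205) (nat_lit 12) nil nil) (node (nat_lit 8) (nat_lit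
  68205) (nat_lit 11) nil nil)) (node (nat_lit 4) (nat_lit 68205) (nat_lit 10) nil nil)) (node
  (nat_lit 4) (nat_lit 68205) (nat_lit 9) (node (nat_lit 7) (nat_lit 68205) (nat_lit 10) nil nil)
  nil)) (node (nat_lit 8) (nat_lit 68205) (nat_lit 8) (node (nat_lit 7) (nat_lit 68205) (nat_lit
  9) (node (nat_lit 5) (nat_lit 68205) (nat_lit 10) (node (nat_lit 7) (nat_lit 68205) (nat_lit 11)
  (node (nat_lit 4) (nat_lit 68205) (nat_lit 12) (node (nat_lit 5) (nat_lit 68205) (nat_lit 13)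
  nil nil) (node (nat_lit 8) (nat_lit 68205) (nat_lit 12) nil nil)) (node (nat_lit 8) (nat_lit
  68205) (nat_lit 11) nil nil)) (node (nat_lit 4) (nat_lit 68205) (nat_lit 10) (node (nat_lit 5)
  (nat_lit 68205) (nat_lit 11) nil nil) nil)) (node (nat_lit 4) (nat_lit 68205) (nat_lit 9) (node
  (nat_lit 5) (nat_lit 68205) (nat_lit 10) (node (nat_lit 4) (nat_lit 68205) (nat_lit 11) (node
  (nat_lit 7) (nat_lit 68205) (nat_lit 12) (node (nat_lit 8) (nat_lit 68205) (nat_lit 13) nil nil)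
  nil) nil) nil) nil)) (node (nat_lit 4) (nat_lit 68205) (nat_lit 8) (node (nat_lit 5) (nat_lit
  68205) (nat_lit 9) (node (nat_lit 4) (nat_lit 68205) (nat_lit 10) (node (nat_lit 7) (nat_lit
  64943) (nat_lit 11) (node (nat_lit 8) (nat_lit 34916) (nat_lit 12) nil (node (nat_lit 4)
  (nat_lit 63249) (nat_lit 12) nil nil)) nil) (node (nat_lit 7) (nat_lit 68205) (nat_lit 10) nil
  (node (nat_lit 8) (nat_lit 68205) (nat_lit 10) (node (nat_lit 4) (nat_lit 68205) (nat_lit 11)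
  nil nil) nil))) (node (nat_lit 8) (nat_lit 68205) (nat_lit 9) (node (nat_lit 4) (nat_lit 68205)
  (nat_lit 10) nil (node (nat_lit 7) (nat_lit 68205) (nat_lit 10) (node (nat_lit 4) (nat_lit
  68205) (nat_lit 11) nil nil) nil)) (node (nat_lit 7) (nat_lit 68205) (nat_lit 9) nil nil)))
  (node (nat_lit 0) (nat_lit 68205) (nat_lit 8) (node (nat_lit 7) (nat_lit 68205) (nat_lit 9) nil
  (node (nat_lit 8) (nat_lit 68205) (nat_lit 9) nil nil)) nil)))) (node (nat_lit 8) (nat_lit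
  68205) (nat_lit 7) (node (nat_lit 7) (nat_lit 68205) (nat_lit 8) (node (nat_lit 5) (nat_lit
  68205) (nat_lit 9) (node (nat_lit 7) (nat_lit 68205) (nat_lit 10) (node (nat_lit 8) (nat_lit
  68205) (nat_lit 11) (node (nat_lit 5) (nat_lit 68205) (nat_lit 12) (node (nat_lit 7) (nat_lit
  68205) (nat_lit 13) (node (nat_lit 4) (nat_lit 68205) (nat_lit 14) nil nil) (node (nat_lit 8)
  (nat_lit 68205) (nat_lit 13) (node (nat_lit 4) (nat_lit 68205) (nat_lit 14) (node (nat_lit 5)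
  (nat_lit 68205) (nat_lit 15) nil nil) nil) nil)) nil) (node (nat_lit 4) (nat_lit 68205) (nat_lit
  11) nil nil)) (node (nat_lit 4) (nat_lit 68205) (nat_lit 10) (node (nat_lit 7) (nat_lit 68205)
  (nat_lit 11) (node (nat_lit 8) (nat_lit 68205) (nat_lit 12) nil nil) nil) (node (nat_lit 8)
  (nat_lit 68205) (nat_lit 10) nil nil))) (node (nat_lit 8) (nat_lit 68205) (nat_lit 9) (node
  (nat_lit 5) (nat_lit 68205) (nat_lit 10) (node (nat_lit 7) (nat_lit 68205) (nat_lit 11) nil nil)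
  (node (nat_lit 4) (nat_lit 68205) (nat_lit 10) (node (nat_lit 5) (nat_lit 68205) (nat_lit 11)
  nil nil) nil)) (node (nat_lit 4) (nat_lit 68205) (nat_lit 9) (node (nat_lit 5) (nat_lit 68205)
  (nat_lit 10) nil (node (nat_lit 8) (nat_lit 68205) (nat_lit 10) nil nil)) nil))) (node (nat_lit
  4) (nat_lit 68205) (nat_lit 8) (node (nat_lit 5) (nat_lit 68205) (nat_lit 9) (node (nat_lit 4)
  (nat_lit 64830) (nat_lit 10) (node (nat_lit 7) (nat_lit 52010) (nat_lit 11) (node (nat_lit 8)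
  (nat_lit 46841) (nat_lit 12) nil nil) nil) nil) (node (nat_lit 8) (nat_lit 68205) (nat_lit 9)
  (node (nat_lit 7) (nat_lit 68205) (nat_lit 10) nil nil) (node (nat_lit 7) (nat_lit 68205)
  (nat_lit 9) nil nil))) (node (nat_lit 0) (nat_lit 68205) (nat_lit 8) nil nil))) (node (nat_lit
  4) (nat_lit 68205) (nat_lit 7) (node (nat_lit 8) (nat_lit 68205) (nat_lit 8) (node (nat_lit 4)
  (nat_lit 68205) (nat_lit 9) (node (nat_lit 5) (nat_lit 67517) (nat_lit 10) (node (nat_lit 4)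
  (nat_lit 58160) (nat_lit 11) (node (nat_lit 7) (nat_lit 57872) (nat_lit 12) nil nil) (node
  (nat_lit 8) (nat_lit 67704) (nat_lit 11) nil nil)) nil) (node (nat_lit 7) (nat_lit 68205)
  (nat_lit 9) (node (nat_lit 4) (nat_lit 68205) (nat_lit 10) (node (nat_lit 5) (nat_lit 68205)
  (nat_lit 11) nil nil) (node (nat_lit 8) (nat_lit 68205) (nat_lit 10) (node (nat_lit 4) (nat_lit
  68205) (nat_lit 11) nil nil) nil)) (node (nat_lit 5) (nat_lit 68205) (nat_lit 9) (node (nat_lit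
  8) (nat_lit 68205) (nat_lit 10) (node (nat_lit 4) (nat_lit 68205) (nat_lit 11) (node (nat_lit 5)
  (nat_lit 68205) (nat_lit 12) (node (nat_lit 4) (nat_lit 67790) (nat_lit 13) nil nil) nil) nil)
  nil) (node (nat_lit 0) (nat_lit 68205) (nat_lit 9) nil nil)))) (node (nat_lit 5) (nat_lit 68205)
  (nat_lit 8) (node (nat_lit 8) (nat_lit 68205) (nat_lit 9) (node (nat_lit 4) (nat_lit 68205)
  (nat_lit 10) (node (nat_lit 8) (nat_lit 68205) (nat_lit 11) (node (nat_lit 5) (nat_lit 68205)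
  (nat_lit 12) nil nil) (node (nat_lit 5) (nat_lit 68205) (nat_lit 11) (node (nat_lit 4) (nat_lit
  65890) (nat_lit 12) nil nil) nil)) (node (nat_lit 5) (nat_lit 68205) (nat_lit 10) nil (node
  (nat_lit 7) (nat_lit 68205) (nat_lit 10) nil nil))) (node (nat_lit 7) (nat_lit 68205) (nat_lit
  9) (node (nat_lit 4) (nat_lit 68205) (nat_lit 10) nil (node (nat_lit 8) (nat_lit 68205) (nat_lit
  10) nil nil)) nil)) (node (nat_lit 0) (nat_lit 68205) (nat_lit 8) (node (nat_lit 7) (nat_lit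
  68205) (nat_lit 9) nil (node (nat_lit 8) (nat_lit 68205) (nat_lit 9) nil nil)) nil))) (node
  (nat_lit 0) (nat_lit 68205) (nat_lit 7) (node (nat_lit 4) (nat_lit 68205) (nat_lit 8) nil (node
  (nat_lit 8) (nat_lit 68205) (nat_lit 8) (node (nat_lit 5) (nat_lit 68205) (nat_lit 9) nil (node
  (nat_lit 4) (nat_lit 68205) (nat_lit 9) nil nil)) (node (nat_lit 7) (nat_lit 68205) (nat_lit 8)
  (node (nat_lit 4) (nat_lit 68205) (nat_lit 9) nil (node (nat_lit 8) (nat_lit 68205) (nat_lit 9)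
  nil nil)) (node (nat_lit 5) (nat_lit 68205) (nat_lit 8) (node (nat_lit 8) (nat_lit 68205)
  (nat_lit 9) nil (node (nat_lit 7) (nat_lit 68205) (nat_lit 9) nil nil)) nil)))) nil)))) (node
  (nat_lit 4) (nat_lit 68070) (nat_lit 6) (node (nat_lit 8) (nat_lit 68070) (nat_lit 7) (node
  (nat_lit 7) (nat_lit 68205) (nat_lit 8) (node (nat_lit 4) (nat_lit 68205) (nat_lit 9) nil nil)
  nil) (node (nat_lit 5) (nat_lit 68070) (nat_lit 7) (node (nat_lit 4) (nat_lit 68070) (nat_lit 8)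
  (node (nat_lit 7) (nat_lit 41367) (nat_lit 9) nil nil) nil) (node (nat_lit 7) (nat_lit 68205)
  (nat_lit 7) (node (nat_lit 4) (nat_lit 68205) (nat_lit 8) (node (nat_lit 5) (nat_lit 67702)
  (nat_lit 9) nil nil) nil) nil))) (node (nat_lit 7) (nat_lit 68205) (nat_lit 6) (node (nat_lit 4)
  (nat_lit 68205) (nat_lit 7) (node (nat_lit 8) (nat_lit 68205) (nat_lit 8) (node (nat_lit 4)
  (nat_lit 68205) (nat_lit 9) (node (nat_lit 7) (nat_lit 68205) (nat_lit 10) (node (nat_lit 8)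
  (nat_lit 68205) (nat_lit 11) (node (nat_lit 4) (nat_lit 68205) (nat_lit 12) nil nil) nil) nil)
  nil) (node (nat_lit 5) (nat_lit 68205) (nat_lit 8) (node (nat_lit 4) (nat_lit 67081) (nat_lit 9)
  (node (nat_lit 7) (nat_lit 36055) (nat_lit 10) nil nil) nil) nil)) (node (nat_lit 5) (nat_lit
  68205) (nat_lit 7) (node (nat_lit 8) (nat_lit 68205) (nat_lit 8) nil (node (nat_lit 7) (nat_lit
  68205) (nat_lit 8) (node (nat_lit 4) (nat_lit 68205) (nat_lit 9) nil nil) nil)) nil)) (node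
  (nat_lit 0) (nat_lit 68205) (nat_lit 6) (node (nat_lit 7) (nat_lit 68205) (nat_lit 7) (node
  (nat_lit 8) (nat_lit 68205) (nat_lit 8) nil (node (nat_lit 4) (nat_lit 68205) (nat_lit 8) nil
  nil)) (node (nat_lit 8) (nat_lit 68205) (nat_lit 7) (node (nat_lit 4) (nat_lit 68205) (nat_lit
  8) (node (nat_lit 5) (nat_lit 68205) (nat_lit 9) nil nil) nil) nil)) nil)))) (node (nat_lit 0)
  (nat_lit 68205) (nat_lit 5) (node (nat_lit 4) (nat_lit 68205) (nat_lit 6) (node (nat_lit 7)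
  (nat_lit 68205) (nat_lit 7) (node (nat_lit 4) (nat_lit 68205) (nat_lit 8) (node (nat_lit 5)
  (nat_lit 68205) (nat_lit 9) (node (nat_lit 4) (nat_lit 53128) (nat_lit 10) nil nil) nil) nil)
  nil) (node (nat_lit 5) (nat_lit 68205) (nat_lit 6) (node (nat_lit 7) (nat_lit 68205) (nat_lit 7)
  nil nil) (node (nat_lit 7) (nat_lit 68205) (nat_lit 6) (node (nat_lit 4) (nat_lit 68205)
  (nat_lit 7) (node (nat_lit 5) (nat_lit 68205) (nat_lit 8) (node (nat_lit 4) (nat_lit 68205)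
  (nat_lit 9) (node (nat_lit 7) (nat_lit 68205) (nat_lit 10) nil nil) nil) nil) nil) (node
  (nat_lit 3) (nat_lit 68205) (nat_lit 6) (node (nat_lit 4) (nat_lit 68205) (nat_lit 7) (node
  (nat_lit 5) (nat_lit 68205) (nat_lit 8) (node (nat_lit 4) (nat_lit 68205) (nat_lit 9) nil nil)
  nil) nil) (node (nat_lit 0) (nat_lit 68205) (nat_lit 6) (node (nat_lit 7) (nat_lit 68205)
  (nat_lit 7) nil nil) nil))))) nil))))

noncomputable def t49 : Tr :=
  (node (nat_lit 5) (nat_lit 52509) (nat_lit 5) (node (nat_lit 7) (nat_lit 52509) (nat_lit 6)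
  (node (nat_lit 4) (nat_lit 52614) (nat_lit 7) (node (nat_lit 5) (nat_lit 58160) (nat_lit 8)
  (node (nat_lit 4) (nat_lit 52010) (nat_lit 9) (node (nat_lit 7) (nat_lit 48680) (nat_lit 10)
  (node (nat_lit 5) (nat_lit 40546) (nat_lit 11) nil (node (nat_lit 4) (nat_lit 48680) (nat_lit
  11) (node (nat_lit 5) (nat_lit 48680) (nat_lit 12) nil nil) (node (nat_lit 1) (nat_lit 48680)
  (nat_lit 11) (node (nat_lit 7) (nat_lit 48680) (nat_lit 12) nil (node (nat_lit 4) (nat_lit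
  48680) (nat_lit 12) nil nil)) nil))) (node (nat_lit 1) (nat_lit 52010) (nat_lit 10) (node
  (nat_lit 7) (nat_lit 52010) (nat_lit 11) nil (node (nat_lit 4) (nat_lit 52010) (nat_lit 11)
  (node (nat_lit 5) (nat_lit 52010) (nat_lit 12) nil nil) nil)) (node (nat_lit 0) (nat_lit 52010)
  (nat_lit 10) nil nil))) (node (nat_lit 7) (nat_lit 58160) (nat_lit 9) (node (nat_lit 5) (nat_lit
  58160) (nat_lit 10) (node (nat_lit 4) (nat_lit 58160) (nat_lit 11) (node (nat_lit 7) (nat_lit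
  58160) (nat_lit 12) (node (nat_lit 5) (nat_lit 58160) (nat_lit 13) (node (nat_lit 7) (nat_lit
  58160) (nat_lit 14) (node (nat_lit 4) (nat_lit 58160) (nat_lit 15) (node (nat_lit 5) (nat_lit
  58160) (nat_lit 16) (node (nat_lit 4) (nat_lit 58160) (nat_lit 17) (node (nat_lit 7) (nat_lit
  58160) (nat_lit 18) (node (nat_lit 5) (nat_lit 58160) (nat_lit 19) nil nil) nil) nil) nil) nil)
  nil) (node (nat_lit 4) (nat_lit 58160) (nat_lit 13) (node (nat_lit 5) (nat_lit 58160) (nat_lit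
  14) (node (nat_lit 4) (nat_lit 58160) (nat_lit 15) (node (nat_lit 7) (nat_lit 58160) (nat_lit
  16) (node (nat_lit 5) (nat_lit 58160) (nat_lit 17) (node (nat_lit 7) (nat_lit 57537) (nat_lit
  18) (node (nat_lit 4) (nat_lit 53083) (nat_lit 19) (node (nat_lit 5) (nat_lit 52010) (nat_lit
  20) (node (nat_lit 7) (nat_lit 49529) (nat_lit 21) (node (nat_lit 5) (nat_lit 41156) (nat_lit
  22) (node (nat_lit 4) (nat_lit 38028) (nat_lit 23) nil nil) nil) nil) nil) nil) nil) nil) nil)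
  nil) nil) nil)) (node (nat_lit 5) (nat_lit 58160) (nat_lit 12) (node (nat_lit 7) (nat_lit 58160)
  (nat_lit 13) (node (nat_lit 4) (nat_lit 58160) (nat_lit 14) (node (nat_lit 5) (nat_lit 58160)
  (nat_lit 15) (node (nat_lit 4) (nat_lit 58160) (nat_lit 16) (node (nat_lit 7) (nat_lit 58160)
  (nat_lit 17) (node (nat_lit 5) (nat_lit 58160) (nat_lit 18) (node (nat_lit 7) (nat_lit 58160)
  (nat_lit 19) (node (nat_lit 4) (nat_lit 56531) (nat_lit 20) (node (nat_lit 5) (nat_lit 52295)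
  (nat_lit 21) (node (nat_lit 7) (nat_lit 52010) (nat_lit 22) (node (nat_lit 5) (nat_lit 49383)
  (nat_lit 23) (node (nat_lit 4) (nat_lit 37998) (nat_lit 24) nil nil) nil) nil) nil) nil) nil)
  nil) nil) nil) nil) nil) nil) nil)) nil) (node (nat_lit 1) (nat_lit 58160) (nat_lit 10) nil
  nil)) (node (nat_lit 1) (nat_lit 57919) (nat_lit 9) (node (nat_lit 7) (nat_lit 57919) (nat_lit
  10) nil (node (nat_lit 4) (nat_lit 57214) (nat_lit 10) (node (nat_lit 5) (nat_lit 56737)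
  (nat_lit 11) (node (nat_lit 4) (nat_lit 55425) (nat_lit 12) (node (nat_lit 7) (nat_lit 51221)
  (nat_lit 13) (node (nat_lit 5) (nat_lit 48872) (nat_lit 14) (node (nat_lit 7) (nat_lit 42050)
  (nat_lit 15) (node (nat_lit 4) (nat_lit 31574) (nat_lit 16) nil nil) nil) nil) nil) nil) nil)
  nil)) (node (nat_lit 0) (nat_lit 58160) (nat_lit 9) nil nil)))) (node (nat_lit 1) (nat_lit
  58160) (nat_lit 8) (node (nat_lit 7) (nat_lit 58160) (nat_lit 9) (node (nat_lit 11) (nat_lit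
  58160) (nat_lit 10) nil nil) (node (nat_lit 4) (nat_lit 57201) (nat_lit 9) (node (nat_lit 5)
  (nat_lit 56538) (nat_lit 10) (node (nat_lit 4) (nat_lit 56701) (nat_lit 11) (node (nat_lit 7)
  (nat_lit 50917) (nat_lit 12) (node (nat_lit 5) (nat_lit 46457) (nat_lit 13) nil nil) nil) nil)
  nil) nil)) (node (nat_lit 7) (nat_lit 57388) (nat_lit 8) (node (nat_lit 5) (nat_lit 58160)
  (nat_lit 9) (node (nat_lit 4) (nat_lit 57343) (nat_lit 10) (node (nat_lit 7) (nat_lit 56378)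
  (nat_lit 11) (node (nat_lit 4) (nat_lit 55644) (nat_lit 12) (node (nat_lit 5) (nat_lit 55087)
  (nat_lit 13) (node (nat_lit 4) (nat_lit 54655) (nat_lit 14) (node (nat_lit 7) (nat_lit 54319)
  (nat_lit 15) (node (nat_lit 5) (nat_lit 54056) (nat_lit 16) (node (nat_lit 7) (nat_lit 53850)
  (nat_lit 17) (node (nat_lit 4) (nat_lit 52344) (nat_lit 18) (node (nat_lit 7) (nat_lit 47496)
  (nat_lit 19) (node (nat_lit 5) (nat_lit 39832) (nat_lit 20) (node (nat_lit 4) (nat_lit 39770)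
  (nat_lit 21) nil nil) nil) nil) nil) nil) nil) nil) nil) nil) nil) (node (nat_lit 5) (nat_lit
  56378) (nat_lit 11) (node (nat_lit 7) (nat_lit 55644) (nat_lit 12) (node (nat_lit 4) (nat_lit
  55087) (nat_lit 13) (node (nat_lit 5) (nat_lit 54655) (nat_lit 14) (node (nat_lit 4) (nat_lit
  54319) (nat_lit 15) (node (nat_lit 7) (nat_lit 54056) (nat_lit 16) (node (nat_lit 5) (nat_lit
  53850) (nat_lit 17) (node (nat_lit 7) (nat_lit 53690) (nat_lit 18) (node (nat_lit 4) (nat_lit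
  53564) (nat_lit 19) (node (nat_lit 7) (nat_lit 52293) (nat_lit 20) (node (nat_lit 5) (nat_lit
  46895) (nat_lit 21) (node (nat_lit 4) (nat_lit 39722) (nat_lit 22) nil nil) nil) nil) nil) nil)
  nil) nil) nil) nil) nil) nil) nil)) nil) nil) (node (nat_lit 0) (nat_lit 58160) (nat_lit 8)
  (node (nat_lit 1) (nat_lit 58160) (nat_lit 9) (node (nat_lit 7) (nat_lit 58160) (nat_lit 10) nil
  (node (nat_lit 4) (nat_lit 58160) (nat_lit 10) nil nil)) (node (nat_lit 7) (nat_lit 58160)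
  (nat_lit 9) nil nil)) nil)))) (node (nat_lit 1) (nat_lit 58160) (nat_lit 7) (node (nat_lit 5)
  (nat_lit 58160) (nat_lit 8) (node (nat_lit 7) (nat_lit 58160) (nat_lit 9) (node (nat_lit 5)
  (nat_lit 58160) (nat_lit 10) (node (nat_lit 4) (nat_lit 58160) (nat_lit 11) (node (nat_lit 7)
  (nat_lit 58160) (nat_lit 12) (node (nat_lit 5) (nat_lit 58160) (nat_lit 13) (node (nat_lit 7)
  (nat_lit 58160) (nat_lit 14) nil nil) nil) nil) nil) nil) nil) (node (nat_lit 7) (nat_lit 58160)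
  (nat_lit 8) (node (nat_lit 4) (nat_lit 58160) (nat_lit 9) (node (nat_lit 5) (nat_lit 58160)
  (nat_lit 10) nil nil) nil) (node (nat_lit 4) (nat_lit 57850) (nat_lit 8) (node (nat_lit 5)
  (nat_lit 56582) (nat_lit 9) (node (nat_lit 4) (nat_lit 53800) (nat_lit 10) (node (nat_lit 7)
  (nat_lit 47288) (nat_lit 11) nil nil) nil) nil) nil))) (node (nat_lit 0) (nat_lit 58160)
  (nat_lit 7) (node (nat_lit 7) (nat_lit 58160) (nat_lit 8) nil nil) nil))) (node (nat_lit 4)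
  (nat_lit 52554) (nat_lit 6) (node (nat_lit 5) (nat_lit 52592) (nat_lit 7) (node (nat_lit 7)
  (nat_lit 61500) (nat_lit 8) (node (nat_lit 4) (nat_lit 61796) (nat_lit 9) (node (nat_lit 5)
  (nat_lit 58160) (nat_lit 10) (node (nat_lit 4) (nat_lit 58160) (nat_lit 11) (node (nat_lit 7)
  (nat_lit 58160) (nat_lit 12) (node (nat_lit 5) (nat_lit 50712) (nat_lit 13) (node (nat_lit 4)
  (nat_lit 37010) (nat_lit 14) (node (nat_lit 5) (nat_lit 36739) (nat_lit 15) nil nil) nil) (node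
  (nat_lit 4) (nat_lit 57301) (nat_lit 13) (node (nat_lit 5) (nat_lit 57187) (nat_lit 14) nil nil)
  nil)) nil) nil) (node (nat_lit 7) (nat_lit 62375) (nat_lit 10) (node (nat_lit 5) (nat_lit 61410)
  (nat_lit 11) (node (nat_lit 7) (nat_lit 60676) (nat_lit 12) (node (nat_lit 4) (nat_lit 60119)
  (nat_lit 13) (node (nat_lit 5) (nat_lit 59687) (nat_lit 14) (node (nat_lit 4) (nat_lit 59351)
  (nat_lit 15) (node (nat_lit 7) (nat_lit 59088) (nat_lit 16) (node (nat_lit 5) (nat_lit 58160)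
  (nat_lit 17) (node (nat_lit 4) (nat_lit 58160) (nat_lit 18) (node (nat_lit 5) (nat_lit 58076)
  (nat_lit 19) (node (nat_lit 7) (nat_lit 52010) (nat_lit 20) (node (nat_lit 4) (nat_lit 47165)
  (nat_lit 21) nil nil) nil) nil) nil) nil) nil) nil) nil) nil) nil) nil) nil)) (node (nat_lit 5)
  (nat_lit 62708) (nat_lit 9) (node (nat_lit 4) (nat_lit 62335) (nat_lit 10) (node (nat_lit 7)
  (nat_lit 62668) (nat_lit 11) (node (nat_lit 4) (nat_lit 62469) (nat_lit 12) (node (nat_lit 5)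
  (nat_lit 62034) (nat_lit 13) (node (nat_lit 4) (nat_lit 60913) (nat_lit 14) (node (nat_lit 7)
  (nat_lit 59206) (nat_lit 15) (node (nat_lit 5) (nat_lit 58160) (nat_lit 16) (node (nat_lit 4)
  (nat_lit 58160) (nat_lit 17) (node (nat_lit 5) (nat_lit 53517) (nat_lit 18) (node (nat_lit 7)
  (nat_lit 47186) (nat_lit 19) (node (nat_lit 5) (nat_lit 36054) (nat_lit 20) nil nil) nil) nil)
  nil) nil) nil) nil) nil) (node (nat_lit 5) (nat_lit 62378) (nat_lit 12) (node (nat_lit 7)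
  (nat_lit 62630) (nat_lit 13) (node (nat_lit 4) (nat_lit 62590) (nat_lit 14) (node (nat_lit 5)
  (nat_lit 62508) (nat_lit 15) (node (nat_lit 4) (nat_lit 61916) (nat_lit 16) (node (nat_lit 7)
  (nat_lit 61507) (nat_lit 17) (node (nat_lit 5) (nat_lit 60302) (nat_lit 18) (node (nat_lit 4)
  (nat_lit 58529) (nat_lit 19) (node (nat_lit 5) (nat_lit 58160) (nat_lit 20) (node (nat_lit 7)
  (nat_lit 57393) (nat_lit 21) (node (nat_lit 5) (nat_lit 52356) (nat_lit 22) (node (nat_lit 4)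
  (nat_lit 47899) (nat_lit 23) (node (nat_lit 7) (nat_lit 35876) (nat_lit 24) nil nil) nil) nil)
  nil) nil) nil) nil) nil) nil) nil) nil) nil) nil)) nil) nil) (node (nat_lit 1) (nat_lit 61143)
  (nat_lit 9) nil nil))) (node (nat_lit 1) (nat_lit 62908) (nat_lit 8) (node (nat_lit 4) (nat_lit
  62694) (nat_lit 9) (node (nat_lit 5) (nat_lit 61481) (nat_lit 10) (node (nat_lit 4) (nat_lit
  60214) (nat_lit 11) (node (nat_lit 7) (nat_lit 58186) (nat_lit 12) (node (nat_lit 5) (nat_lit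
  44103) (nat_lit 13) (node (nat_lit 4) (nat_lit 33139) (nat_lit 14) nil nil) nil) nil) nil) nil)
  nil) (node (nat_lit 0) (nat_lit 61947) (nat_lit 8) nil nil))) (node (nat_lit 1) (nat_lit 62908)
  (nat_lit 7) (node (nat_lit 7) (nat_lit 62908) (nat_lit 8) nil (node (nat_lit 4) (nat_lit 62908)
  (nat_lit 8) (node (nat_lit 5) (nat_lit 62870) (nat_lit 9) (node (nat_lit 4) (nat_lit 56338)
  (nat_lit 10) (node (nat_lit 7) (nat_lit 49830) (nat_lit 11) (node (nat_lit 5) (nat_lit 33128)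
  (nat_lit 12) nil nil) nil) nil) nil) nil)) (node (nat_lit 0) (nat_lit 62908) (nat_lit 7) (node
  (nat_lit 7) (nat_lit 62908) (nat_lit 8) nil nil) nil))) (node (nat_lit 1) (nat_lit 62908)
  (nat_lit 6) (node (nat_lit 7) (nat_lit 62908) (nat_lit 7) (node (nat_lit 4) (nat_lit 62908)
  (nat_lit 8) (node (nat_lit 5) (nat_lit 62908) (nat_lit 9) (node (nat_lit 4) (nat_lit 62908)
  (nat_lit 10) (node (nat_lit 7) (nat_lit 62908) (nat_lit 11) (node (nat_lit 5) (nat_lit 62908)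
  (nat_lit 12) nil nil) nil) nil) nil) nil) (node (nat_lit 5) (nat_lit 62908) (nat_lit 7) (node
  (nat_lit 7) (nat_lit 62908) (nat_lit 8) (node (nat_lit 5) (nat_lit 62908) (nat_lit 9) (node
  (nat_lit 9) (nat_lit 62908) (nat_lit 10) (node (nat_lit 7) (nat_lit 62908) (nat_lit 11) nil nil)
  nil) (node (nat_lit 9) (nat_lit 62908) (nat_lit 9) nil (node (nat_lit 4) (nat_lit 62908)
  (nat_lit 9) (node (nat_lit 5) (nat_lit 62908) (nat_lit 10) (node (nat_lit 4) (nat_lit 62908)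
  (nat_lit 11) (node (nat_lit 7) (nat_lit 57745) (nat_lit 12) (node (nat_lit 5) (nat_lit 45647)
  (nat_lit 13) nil nil) nil) nil) nil) nil))) (node (nat_lit 4) (nat_lit 62908) (nat_lit 8) (node
  (nat_lit 7) (nat_lit 62908) (nat_lit 9) (node (nat_lit 4) (nat_lit 62908) (nat_lit 10) (node
  (nat_lit 5) (nat_lit 62908) (nat_lit 11) nil nil) (node (nat_lit 9) (nat_lit 62908) (nat_lit 10)
  (node (nat_lit 4) (nat_lit 62908) (nat_lit 11) nil nil) nil)) (node (nat_lit 9) (nat_lit 62908)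
  (nat_lit 9) (node (nat_lit 4) (nat_lit 62908) (nat_lit 10) (node (nat_lit 5) (nat_lit 62908)
  (nat_lit 11) nil nil) nil) nil)) (node (nat_lit 0) (nat_lit 62908) (nat_lit 8) nil nil))) (node
  (nat_lit 4) (nat_lit 62422) (nat_lit 7) (node (nat_lit 5) (nat_lit 57858) (nat_lit 8) (node
  (nat_lit 4) (nat_lit 47411) (nat_lit 9) (node (nat_lit 7) (nat_lit 31437) (nat_lit 10) nil nil)
  nil) nil) nil))) (node (nat_lit 0) (nat_lit 62908) (nat_lit 6) (node (nat_lit 7) (nat_lit 62908)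
  (nat_lit 7) (node (nat_lit 4) (nat_lit 62908) (nat_lit 8) (node (nat_lit 5) (nat_lit 62908)
  (nat_lit 9) (node (nat_lit 4) (nat_lit 62908) (nat_lit 10) (node (nat_lit 7) (nat_lit 62908)
  (nat_lit 11) (node (nat_lit 5) (nat_lit 62908) (nat_lit 12) nil nil) nil) nil) nil) nil) (node
  (nat_lit 5) (nat_lit 62908) (nat_lit 7) nil (node (nat_lit 0) (nat_lit 62908) (nat_lit 7) nil
  nil))) nil)))) (node (nat_lit 4) (nat_lit 43346) (nat_lit 5) (node (nat_lit 5) (nat_lit 50021)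
  (nat_lit 6) (node (nat_lit 7) (nat_lit 52573) (nat_lit 7) (node (nat_lit 5) (nat_lit 57218)
  (nat_lit 8) (node (nat_lit 4) (nat_lit 58160) (nat_lit 9) (node (nat_lit 7) (nat_lit 58160)
  (nat_lit 10) (node (nat_lit 5) (nat_lit 58141) (nat_lit 11) (node (nat_lit 7) (nat_lit 57407)
  (nat_lit 12) (node (nat_lit 4) (nat_lit 56850) (nat_lit 13) (node (nat_lit 5) (nat_lit 56418)
  (nat_lit 14) (node (nat_lit 4) (nat_lit 56082) (nat_lit 15) (node (nat_lit 7) (nat_lit 55819)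
  (nat_lit 16) (node (nat_lit 4) (nat_lit 54934) (nat_lit 17) (node (nat_lit 5) (nat_lit 51893)
  (nat_lit 18) (node (nat_lit 7) (nat_lit 47960) (nat_lit 19) (node (nat_lit 5) (nat_lit 42451)
  (nat_lit 20) (node (nat_lit 4) (nat_lit 41104) (nat_lit 21) (node (nat_lit 7) (nat_lit 41055)
  (nat_lit 22) (node (nat_lit 5) (nat_lit 41018) (nat_lit 23) nil nil) nil) nil) nil) nil) nil)
  nil) nil) nil) nil) nil) nil) nil) (node (nat_lit 5) (nat_lit 58160) (nat_lit 10) (node (nat_lit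
  7) (nat_lit 58160) (nat_lit 11) (node (nat_lit 4) (nat_lit 58160) (nat_lit 12) (node (nat_lit 5)
  (nat_lit 58160) (nat_lit 13) (node (nat_lit 4) (nat_lit 58160) (nat_lit 14) (node (nat_lit 7)
  (nat_lit 58054) (nat_lit 15) (node (nat_lit 4) (nat_lit 56747) (nat_lit 16) (node (nat_lit 5)
  (nat_lit 52679) (nat_lit 17) (node (nat_lit 7) (nat_lit 46854) (nat_lit 18) (node (nat_lit 5)
  (nat_lit 42334) (nat_lit 19) (node (nat_lit 4) (nat_lit 42254) (nat_lit 20) nil nil) nil) nil)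
  nil) nil) nil) nil) nil) nil) (node (nat_lit 1) (nat_lit 58160) (nat_lit 11) nil nil)) (node
  (nat_lit 1) (nat_lit 58160) (nat_lit 10) (node (nat_lit 4) (nat_lit 58160) (nat_lit 11) nil nil)
  (node (nat_lit 0) (nat_lit 58160) (nat_lit 10) nil nil)))) nil) (node (nat_lit 4) (nat_lit
  57218) (nat_lit 8) (node (nat_lit 7) (nat_lit 58160) (nat_lit 9) (node (nat_lit 5) (nat_lit
  58160) (nat_lit 10) (node (nat_lit 4) (nat_lit 58160) (nat_lit 11) nil (node (nat_lit 7)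
  (nat_lit 58160) (nat_lit 11) nil nil)) nil) (node (nat_lit 1) (nat_lit 58160) (nat_lit 9) nil
  nil)) (node (nat_lit 1) (nat_lit 58160) (nat_lit 8) (node (nat_lit 7) (nat_lit 58160) (nat_lit
  9) nil (node (nat_lit 4) (nat_lit 54812) (nat_lit 9) nil nil)) (node (nat_lit 0) (nat_lit 58160)
  (nat_lit 8) nil nil)))) (node (nat_lit 4) (nat_lit 42909) (nat_lit 7) nil (node (nat_lit 1)
  (nat_lit 58160) (nat_lit 7) (node (nat_lit 7) (nat_lit 58160) (nat_lit 8) nil (node (nat_lit 4)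
  (nat_lit 58035) (nat_lit 8) (node (nat_lit 5) (nat_lit 56723) (nat_lit 9) (node (nat_lit 4)
  (nat_lit 48319) (nat_lit 10) (node (nat_lit 7) (nat_lit 35458) (nat_lit 11) nil nil) nil) nil)
  nil)) (node (nat_lit 0) (nat_lit 58160) (nat_lit 7) (node (nat_lit 7) (nat_lit 58160) (nat_lit
  8) nil nil) nil)))) (node (nat_lit 1) (nat_lit 54751) (nat_lit 6) (node (nat_lit 7) (nat_lit
  58160) (nat_lit 7) (node (nat_lit 4) (nat_lit 58160) (nat_lit 8) (node (nat_lit 5) (nat_lit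
  58160) (nat_lit 9) (node (nat_lit 4) (nat_lit 58160) (nat_lit 10) (node (nat_lit 7) (nat_lit
  57775) (nat_lit 11) nil nil) nil) nil) (node (nat_lit 5) (nat_lit 58160) (nat_lit 8) (node
  (nat_lit 4) (nat_lit 58160) (nat_lit 9) (node (nat_lit 7) (nat_lit 58160) (nat_lit 10) nil nil)
  nil) nil)) (node (nat_lit 4) (nat_lit 58160) (nat_lit 7) (node (nat_lit 7) (nat_lit 58160)
  (nat_lit 8) nil (node (nat_lit 5) (nat_lit 57977) (nat_lit 8) (node (nat_lit 4) (nat_lit 49043)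
  (nat_lit 9) (node (nat_lit 7) (nat_lit 35156) (nat_lit 10) nil (node (nat_lit 9) (nat_lit 49595)
  (nat_lit 10) nil nil)) nil) nil)) (node (nat_lit 5) (nat_lit 58160) (nat_lit 7) nil nil))) (node
  (nat_lit 0) (nat_lit 54798) (nat_lit 6) (node (nat_lit 4) (nat_lit 58160) (nat_lit 7) (node
  (nat_lit 5) (nat_lit 56703) (nat_lit 8) nil (node (nat_lit 7) (nat_lit 58160) (nat_lit 8) nil
  nil)) (node (nat_lit 7) (nat_lit 58160) (nat_lit 7) (node (nat_lit 4) (nat_lit 58160) (nat_lit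
  8) nil nil) (node (nat_lit 5) (nat_lit 58160) (nat_lit 7) (node (nat_lit 7) (nat_lit 58160)
  (nat_lit 8) nil nil) (node (nat_lit 1) (nat_lit 57976) (nat_lit 7) (node (nat_lit 7) (nat_lit
  57897) (nat_lit 8) nil nil) nil)))) nil))) (node (nat_lit 1) (nat_lit 64132) (nat_lit 5) (node
  (nat_lit 5) (nat_lit 64548) (nat_lit 6) (node (nat_lit 7) (nat_lit 64548) (nat_lit 7) (node
  (nat_lit 5) (nat_lit 64548) (nat_lit 8) (node (nat_lit 8) (nat_lit 64548) (nat_lit 9) (node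
  (nat_lit 7) (nat_lit 64548) (nat_lit 10) nil (node (nat_lit 4) (nat_lit 64548) (nat_lit 10) nil
  nil)) nil) (node (nat_lit 8) (nat_lit 64548) (nat_lit 8) (node (nat_lit 7) (nat_lit 64548)
  (nat_lit 9) (node (nat_lit 5) (nat_lit 64548) (nat_lit 10) (node (nat_lit 7) (nat_lit 64548)
  (nat_lit 11) (node (nat_lit 4) (nat_lit 64548) (nat_lit 12) nil nil) (node (nat_lit 8) (nat_lit
  64548) (nat_lit 11) nil nil)) (node (nat_lit 4) (nat_lit 64548) (nat_lit 10) nil nil)) (node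
  (nat_lit 4) (nat_lit 64548) (nat_lit 9) (node (nat_lit 5) (nat_lit 64548) (nat_lit 10) (node
  (nat_lit 4) (nat_lit 64334) (nat_lit 11) (node (nat_lit 7) (nat_lit 58440) (nat_lit 12) (node
  (nat_lit 8) (nat_lit 48299) (nat_lit 13) nil nil) nil) nil) nil) nil)) (node (nat_lit 4)
  (nat_lit 64548) (nat_lit 8) (node (nat_lit 5) (nat_lit 64548) (nat_lit 9) (node (nat_lit 4)
  (nat_lit 59271) (nat_lit 10) (node (nat_lit 7) (nat_lit 53617) (nat_lit 11) (node (nat_lit 8)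
  (nat_lit 38544) (nat_lit 12) nil nil) nil) (node (nat_lit 8) (nat_lit 64548) (nat_lit 10) nil
  nil)) (node (nat_lit 8) (nat_lit 64548) (nat_lit 9) (node (nat_lit 4) (nat_lit 64548) (nat_lit
  10) nil nil) nil)) nil))) (node (nat_lit 8) (nat_lit 64548) (nat_lit 7) (node (nat_lit 7)
  (nat_lit 64548) (nat_lit 8) (node (nat_lit 5) (nat_lit 64548) (nat_lit 9) (node (nat_lit 7)
  (nat_lit 64548) (nat_lit 10) (node (nat_lit 8) (nat_lit 64548) (nat_lit 11) nil nil) (node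
  (nat_lit 4) (nat_lit 64548) (nat_lit 10) (node (nat_lit 7) (nat_lit 64548) (nat_lit 11) (node
  (nat_lit 8) (nat_lit 64548) (nat_lit 12) nil nil) nil) nil)) (node (nat_lit 8) (nat_lit 64548)
  (nat_lit 9) (node (nat_lit 4) (nat_lit 64548) (nat_lit 10) nil nil) (node (nat_lit 4) (nat_lit
  64548) (nat_lit 9) (node (nat_lit 5) (nat_lit 64548) (nat_lit 10) nil nil) nil))) (node (nat_lit
  4) (nat_lit 64548) (nat_lit 8) (node (nat_lit 5) (nat_lit 64548) (nat_lit 9) (node (nat_lit 4)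
  (nat_lit 64548) (nat_lit 10) (node (nat_lit 7) (nat_lit 61109) (nat_lit 11) (node (nat_lit 8)
  (nat_lit 42830) (nat_lit 12) nil nil) nil) nil) nil) nil)) (node (nat_lit 4) (nat_lit 64548)
  (nat_lit 7) (node (nat_lit 8) (nat_lit 64548) (nat_lit 8) (node (nat_lit 4) (nat_lit 64548)
  (nat_lit 9) nil (node (nat_lit 7) (nat_lit 64548) (nat_lit 9) nil nil)) nil) (node (nat_lit 0)
  (nat_lit 64548) (nat_lit 7) (node (nat_lit 7) (nat_lit 64548) (nat_lit 8) nil (node (nat_lit 8)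
  (nat_lit 64548) (nat_lit 8) nil (node (nat_lit 5) (nat_lit 64548) (nat_lit 8) (node (nat_lit 8)
  (nat_lit 64548) (nat_lit 9) nil (node (nat_lit 7) (nat_lit 64548) (nat_lit 9) nil nil)) nil)))
  nil)))) (node (nat_lit 4) (nat_lit 64548) (nat_lit 6) (node (nat_lit 8) (nat_lit 64548) (nat_lit
  7) (node (nat_lit 7) (nat_lit 64548) (nat_lit 8) (node (nat_lit 4) (nat_lit 64548) (nat_lit 9)
  (node (nat_lit 8) (nat_lit 64548) (nat_lit 10) nil nil) nil) nil) (node (nat_lit 5) (nat_lit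
  61328) (nat_lit 7) (node (nat_lit 4) (nat_lit 37919) (nat_lit 8) (node (nat_lit 8) (nat_lit
  37919) (nat_lit 9) (node (nat_lit 7) (nat_lit 37919) (nat_lit 10) nil (node (nat_lit 4) (nat_lit
  37919) (nat_lit 10) (node (nat_lit 5) (nat_lit 37325) (nat_lit 11) nil nil) nil)) (node (nat_lit
  0) (nat_lit 37919) (nat_lit 9) nil nil)) (node (nat_lit 8) (nat_lit 63372) (nat_lit 8) nil (node
  (nat_lit 7) (nat_lit 61143) (nat_lit 8) (node (nat_lit 8) (nat_lit 60251) (nat_lit 9) nil nil)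
  nil))) (node (nat_lit 7) (nat_lit 64548) (nat_lit 7) (node (nat_lit 4) (nat_lit 64548) (nat_lit
  8) (node (nat_lit 5) (nat_lit 64548) (nat_lit 9) (node (nat_lit 4) (nat_lit 62000) (nat_lit 10)
  (node (nat_lit 7) (nat_lit 41452) (nat_lit 11) nil nil) nil) nil) nil) (node (nat_lit 0)
  (nat_lit 64548) (nat_lit 7) (node (nat_lit 7) (nat_lit 64548) (nat_lit 8) nil (node (nat_lit 8)
  (nat_lit 64548) (nat_lit 8) nil nil)) nil)))) (node (nat_lit 7) (nat_lit 64548) (nat_lit 6)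
  (node (nat_lit 4) (nat_lit 64548) (nat_lit 7) (node (nat_lit 8) (nat_lit 64548) (nat_lit 8)
  (node (nat_lit 4) (nat_lit 64548) (nat_lit 9) (node (nat_lit 7) (nat_lit 64548) (nat_lit 10)
  (node (nat_lit 8) (nat_lit 64548) (nat_lit 11) nil nil) (node (nat_lit 5) (nat_lit 64548)
  (nat_lit 10) (node (nat_lit 4) (nat_lit 64548) (nat_lit 11) nil nil) nil)) nil) (node (nat_lit
  5) (nat_lit 64548) (nat_lit 8) (node (nat_lit 4) (nat_lit 64548) (nat_lit 9) (node (nat_lit 7)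
  (nat_lit 64548) (nat_lit 10) (node (nat_lit 8) (nat_lit 39310) (nat_lit 11) nil nil) nil) nil)
  nil)) (node (nat_lit 5) (nat_lit 64548) (nat_lit 7) (node (nat_lit 8) (nat_lit 64548) (nat_lit
  8) (node (nat_lit 4) (nat_lit 64548) (nat_lit 9) nil (node (nat_lit 7) (nat_lit 64548) (nat_lit
  9) nil nil)) (node (nat_lit 7) (nat_lit 64548) (nat_lit 8) (node (nat_lit 8) (nat_lit 64548)
  (nat_lit 9) nil (node (nat_lit 4) (nat_lit 64548) (nat_lit 9) nil nil)) (node (nat_lit 4)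
  (nat_lit 64548) (nat_lit 8) (node (nat_lit 7) (nat_lit 64548) (nat_lit 9) (node (nat_lit 4)
  (nat_lit 64548) (nat_lit 10) (node (nat_lit 5) (nat_lit 64548) (nat_lit 11) nil (node (nat_lit
  8) (nat_lit 64548) (nat_lit 11) nil nil)) nil) nil) nil))) nil)) (node (nat_lit 0) (nat_lit
  64548) (nat_lit 6) (node (nat_lit 7) (nat_lit 64548) (nat_lit 7) (node (nat_lit 8) (nat_lit
  64548) (nat_lit 8) nil (node (nat_lit 4) (nat_lit 64548) (nat_lit 8) (node (nat_lit 5) (nat_lit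
  64548) (nat_lit 9) nil nil) nil)) (node (nat_lit 8) (nat_lit 64548) (nat_lit 7) (node (nat_lit
  7) (nat_lit 64548) (nat_lit 8) (node (nat_lit 4) (nat_lit 64548) (nat_lit 9) nil nil) (node
  (nat_lit 4) (nat_lit 64548) (nat_lit 8) (node (nat_lit 5) (nat_lit 64548) (nat_lit 9) nil nil)
  nil)) (node (nat_lit 4) (nat_lit 64548) (nat_lit 7) (node (nat_lit 8) (nat_lit 64548) (nat_lit
  8) nil nil) (node (nat_lit 5) (nat_lit 64548) (nat_lit 7) (node (nat_lit 7) (nat_lit 64548)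
  (nat_lit 8) nil (node (nat_lit 8) (nat_lit 64548) (nat_lit 8) nil nil)) nil)))) nil)))) (node
  (nat_lit 0) (nat_lit 64132) (nat_lit 5) (node (nat_lit 4) (nat_lit 64548) (nat_lit 6) (node
  (nat_lit 7) (nat_lit 64548) (nat_lit 7) (node (nat_lit 4) (nat_lit 64548) (nat_lit 8) (node
  (nat_lit 5) (nat_lit 64548) (nat_lit 9) (node (nat_lit 4) (nat_lit 58686) (nat_lit 10) nil nil)
  nil) nil) (node (nat_lit 5) (nat_lit 64548) (nat_lit 7) nil (node (nat_lit 8) (nat_lit 64548)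
  (nat_lit 7) (node (nat_lit 7) (nat_lit 64548) (nat_lit 8) nil nil) (node (nat_lit 1) (nat_lit
  64548) (nat_lit 7) (node (nat_lit 7) (nat_lit 64548) (nat_lit 8) (node (nat_lit 4) (nat_lit
  64548) (nat_lit 9) nil nil) (node (nat_lit 4) (nat_lit 64548) (nat_lit 8) (node (nat_lit 5)
  (nat_lit 64548) (nat_lit 9) nil nil) nil)) nil)))) (node (nat_lit 5) (nat_lit 64548) (nat_lit 6)
  (node (nat_lit 7) (nat_lit 64548) (nat_lit 7) (node (nat_lit 4) (nat_lit 64548) (nat_lit 8) nil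
  nil) (node (nat_lit 1) (nat_lit 64548) (nat_lit 7) (node (nat_lit 7) (nat_lit 64548) (nat_lit 8)
  nil (node (nat_lit 4) (nat_lit 64548) (nat_lit 8) nil nil)) nil)) (node (nat_lit 7) (nat_lit
  64548) (nat_lit 6) (node (nat_lit 4) (nat_lit 64548) (nat_lit 7) (node (nat_lit 5) (nat_lit
  64548) (nat_lit 8) (node (nat_lit 4) (nat_lit 64548) (nat_lit 9) (node (nat_lit 7) (nat_lit
  64548) (nat_lit 10) nil nil) nil) nil) (node (nat_lit 5) (nat_lit 64548) (nat_lit 7) (node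
  (nat_lit 7) (nat_lit 64548) (nat_lit 8) nil nil) (node (nat_lit 1) (nat_lit 64548) (nat_lit 7)
  nil nil))) (node (nat_lit 1) (nat_lit 64548) (nat_lit 6) (node (nat_lit 7) (nat_lit 64548)
  (nat_lit 7) nil (node (nat_lit 4) (nat_lit 64548) (nat_lit 7) (node (nat_lit 5) (nat_lit 64548)
  (nat_lit 8) (node (nat_lit 4) (nat_lit 64548) (nat_lit 9) nil nil) nil) nil)) (node (nat_lit 0)
  (nat_lit 64548) (nat_lit 6) (node (nat_lit 7) (nat_lit 64548) (nat_lit 7) nil (node (nat_lit 1)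
  (nat_lit 64548) (nat_lit 7) nil (node (nat_lit 5) (nat_lit 64548) (nat_lit 7) (node (nat_lit 7)
  (nat_lit 64548) (nat_lit 8) (node (nat_lit 4) (nat_lit 64548) (nat_lit 9) nil nil) nil) nil)))
  nil))))) nil))))

noncomputable def t50 : Tr :=
  (node (nat_lit 4) (nat_lit 0) (nat_lit 3) (node (nat_lit 1) (nat_lit 0) (nat_lit 4) t48 (node
  (nat_lit 3) (nat_lit 0) (nat_lit 4) t49 (node (nat_lit 0) (nat_lit 0) (nat_lit 4) (node (nat_lit
  5) (nat_lit 66090) (nat_lit 5) (node (nat_lit 4) (nat_lit 67882) (nat_lit 6) (node (nat_lit 5)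
  (nat_lit 67882) (nat_lit 7) (node (nat_lit 7) (nat_lit 68205) (nat_lit 8) nil (node (nat_lit 1)
  (nat_lit 68205) (nat_lit 8) (node (nat_lit 4) (nat_lit 68205) (nat_lit 9) (node (nat_lit 5)
  (nat_lit 68205) (nat_lit 10) (node (nat_lit 4) (nat_lit 68205) (nat_lit 11) (node (nat_lit 7)
  (nat_lit 62689) (nat_lit 12) (node (nat_lit 5) (nat_lit 48606) (nat_lit 13) (node (nat_lit 4)
  (nat_lit 37122) (nat_lit 14) nil nil) nil) nil) nil) nil) nil) (node (nat_lit 3) (nat_lit 67882)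
  (nat_lit 8) (node (nat_lit 4) (nat_lit 67097) (nat_lit 9) (node (nat_lit 5) (nat_lit 63982)
  (nat_lit 10) (node (nat_lit 4) (nat_lit 59927) (nat_lit 11) (node (nat_lit 7) (nat_lit 58160)
  (nat_lit 12) (node (nat_lit 5) (nat_lit 51200) (nat_lit 13) (node (nat_lit 4) (nat_lit 37884)
  (nat_lit 14) nil nil) nil) nil) nil) nil) (node (nat_lit 5) (nat_lit 67882) (nat_lit 9) nil
  nil)) nil))) (node (nat_lit 1) (nat_lit 68205) (nat_lit 7) (node (nat_lit 4) (nat_lit 68205)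
  (nat_lit 8) (node (nat_lit 5) (nat_lit 68205) (nat_lit 9) (node (nat_lit 4) (nat_lit 59986)
  (nat_lit 10) nil nil) nil) nil) (node (nat_lit 3) (nat_lit 67882) (nat_lit 7) (node (nat_lit 4)
  (nat_lit 67882) (nat_lit 8) (node (nat_lit 5) (nat_lit 63637) (nat_lit 9) (node (nat_lit 4)
  (nat_lit 56479) (nat_lit 10) (node (nat_lit 7) (nat_lit 49524) (nat_lit 11) nil nil) nil) nil)
  nil) nil))) (node (nat_lit 7) (nat_lit 68205) (nat_lit 6) nil (node (nat_lit 1) (nat_lit 68205)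
  (nat_lit 6) (node (nat_lit 4) (nat_lit 68205) (nat_lit 7) nil nil) (node (nat_lit 3) (nat_lit
  67882) (nat_lit 6) nil nil)))) (node (nat_lit 4) (nat_lit 66061) (nat_lit 5) (node (nat_lit 5)
  (nat_lit 67792) (nat_lit 6) nil (node (nat_lit 3) (nat_lit 67918) (nat_lit 6) (node (nat_lit 4)
  (nat_lit 67918) (nat_lit 7) (node (nat_lit 5) (nat_lit 66632) (nat_lit 8) nil nil) nil) (node
  (nat_lit 1) (nat_lit 68205) (nat_lit 6) (node (nat_lit 4) (nat_lit 68205) (nat_lit 7) (node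
  (nat_lit 5) (nat_lit 68205) (nat_lit 8) nil nil) nil) nil))) (node (nat_lit 0) (nat_lit 68205)
  (nat_lit 5) (node (nat_lit 3) (nat_lit 68205) (nat_lit 6) nil (node (nat_lit 1) (nat_lit 68205)
  (nat_lit 6) nil nil)) (node (nat_lit 3) (nat_lit 68070) (nat_lit 5) (node (nat_lit 4) (nat_lit
  68070) (nat_lit 6) (node (nat_lit 5) (nat_lit 68070) (nat_lit 7) (node (nat_lit 4) (nat_lit
  68070) (nat_lit 8) (node (nat_lit 7) (nat_lit 39040) (nat_lit 9) nil nil) nil) nil) (node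
  (nat_lit 5) (nat_lit 68205) (nat_lit 6) (node (nat_lit 8) (nat_lit 68205) (nat_lit 7) (node
  (nat_lit 4) (nat_lit 68205) (nat_lit 8) (node (nat_lit 5) (nat_lit 66969) (nat_lit 9) (node
  (nat_lit 4) (nat_lit 60665) (nat_lit 10) (node (nat_lit 7) (nat_lit 48246) (nat_lit 11) (node
  (nat_lit 8) (nat_lit 38908) (nat_lit 12) nil nil) nil) nil) nil) nil) nil) (node (nat_lit 1)
  (nat_lit 68205) (nat_lit 6) (node (nat_lit 8) (nat_lit 68205) (nat_lit 7) nil nil) nil))) (node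
  (nat_lit 1) (nat_lit 68205) (nat_lit 5) (node (nat_lit 4) (nat_lit 68205) (nat_lit 6) (node
  (nat_lit 5) (nat_lit 68205) (nat_lit 7) (node (nat_lit 4) (nat_lit 66926) (nat_lit 8) nil nil)
  nil) (node (nat_lit 5) (nat_lit 68205) (nat_lit 6) (node (nat_lit 8) (nat_lit 68205) (nat_lit 7)
  (node (nat_lit 4) (nat_lit 63424) (nat_lit 8) (node (nat_lit 5) (nat_lit 59004) (nat_lit 9)
  (node (nat_lit 4) (nat_lit 51584) (nat_lit 10) (node (nat_lit 7) (nat_lit 44907) (nat_lit 11)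
  (node (nat_lit 8) (nat_lit 28780) (nat_lit 12) nil nil) nil) nil) nil) nil) nil) nil)) nil)))))
  nil))) (node (nat_lit 0) (nat_lit 0) (nat_lit 3) (node (nat_lit 5) (nat_lit 0) (nat_lit 4) (node
  (nat_lit 4) (nat_lit 85854) (nat_lit 5) (node (nat_lit 6) (nat_lit 95283) (nat_lit 6) nil (node
  (nat_lit 5) (nat_lit 88350) (nat_lit 6) (node (nat_lit 6) (nat_lit 81299) (nat_lit 7) nil nil)
  (node (nat_lit 1) (nat_lit 96334) (nat_lit 6) (node (nat_lit 4) (nat_lit 96334) (nat_lit 7)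
  (node (nat_lit 5) (nat_lit 88524) (nat_lit 8) nil nil) nil) (node (nat_lit 3) (nat_lit 91753)
  (nat_lit 6) (node (nat_lit 4) (nat_lit 91984) (nat_lit 7) (node (nat_lit 5) (nat_lit 83433)
  (nat_lit 8) nil nil) nil) (node (nat_lit 0) (nat_lit 96334) (nat_lit 6) nil nil))))) (node
  (nat_lit 1) (nat_lit 96507) (nat_lit 5) (node (nat_lit 5) (nat_lit 96507) (nat_lit 6) (node
  (nat_lit 6) (nat_lit 97099) (nat_lit 7) (node (nat_lit 8) (nat_lit 97259) (nat_lit 8) nil nil)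
  (node (nat_lit 4) (nat_lit 96507) (nat_lit 7) nil nil)) (node (nat_lit 6) (nat_lit 96881)
  (nat_lit 6) nil (node (nat_lit 3) (nat_lit 94073) (nat_lit 6) nil (node (nat_lit 4) (nat_lit
  96507) (nat_lit 6) (node (nat_lit 5) (nat_lit 89903) (nat_lit 7) (node (nat_lit 6) (nat_lit
  65290) (nat_lit 8) nil nil) nil) nil)))) (node (nat_lit 3) (nat_lit 87562) (nat_lit 5) (node
  (nat_lit 5) (nat_lit 90167) (nat_lit 6) (node (nat_lit 4) (nat_lit 90167) (nat_lit 7) nil nil)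
  (node (nat_lit 6) (nat_lit 93248) (nat_lit 6) nil (node (nat_lit 1) (nat_lit 91906) (nat_lit 6)
  (node (nat_lit 4) (nat_lit 88529) (nat_lit 7) nil nil) (node (nat_lit 4) (nat_lit 90132)
  (nat_lit 6) (node (nat_lit 5) (nat_lit 88869) (nat_lit 7) (node (nat_lit 6) (nat_lit 69396)
  (nat_lit 8) (node (nat_lit 5) (nat_lit 63650) (nat_lit 9) nil nil) nil) nil) (node (nat_lit 0)
  (nat_lit 91906) (nat_lit 6) nil nil))))) (node (nat_lit 0) (nat_lit 96507) (nat_lit 5) (node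
  (nat_lit 5) (nat_lit 96507) (nat_lit 6) nil (node (nat_lit 6) (nat_lit 96881) (nat_lit 6) nil
  (node (nat_lit 1) (nat_lit 96881) (nat_lit 6) nil (node (nat_lit 3) (nat_lit 93447) (nat_lit 6)
  nil nil)))) nil)))) (node (nat_lit 4) (nat_lit 0) (nat_lit 4) (node (nat_lit 6) (nat_lit 92091)
  (nat_lit 5) (node (nat_lit 5) (nat_lit 93305) (nat_lit 6) (node (nat_lit 4) (nat_lit 96584)
  (nat_lit 7) (node (nat_lit 5) (nat_lit 96237) (nat_lit 8) (node (nat_lit 6) (nat_lit 98678)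
  (nat_lit 9) (node (nat_lit 4) (nat_lit 98678) (nat_lit 10) (node (nat_lit 6) (nat_lit 79083)
  (nat_lit 11) nil nil) nil) nil) (node (nat_lit 6) (nat_lit 99865) (nat_lit 8) nil nil)) (node
  (nat_lit 1) (nat_lit 98280) (nat_lit 7) nil (node (nat_lit 3) (nat_lit 93802) (nat_lit 7) nil
  nil))) (node (nat_lit 1) (nat_lit 98134) (nat_lit 6) (node (nat_lit 4) (nat_lit 98134) (nat_lit
  7) (node (nat_lit 5) (nat_lit 98134) (nat_lit 8) (node (nat_lit 6) (nat_lit 99694) (nat_lit 9)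
  nil nil) nil) nil) (node (nat_lit 3) (nat_lit 96317) (nat_lit 6) (node (nat_lit 4) (nat_lit
  96317) (nat_lit 7) (node (nat_lit 5) (nat_lit 97561) (nat_lit 8) (node (nat_lit 6) (nat_lit
  99696) (nat_lit 9) nil nil) nil) nil) nil))) (node (nat_lit 0) (nat_lit 96934) (nat_lit 5) (node
  (nat_lit 6) (nat_lit 98084) (nat_lit 6) nil (node (nat_lit 5) (nat_lit 91731) (nat_lit 6) (node
  (nat_lit 4) (nat_lit 88643) (nat_lit 7) (node (nat_lit 5) (nat_lit 86055) (nat_lit 8) (node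
  (nat_lit 6) (nat_lit 87413) (nat_lit 9) nil nil) nil) nil) (node (nat_lit 3) (nat_lit 93447)
  (nat_lit 6) nil (node (nat_lit 1) (nat_lit 98075) (nat_lit 6) nil nil)))) (node (nat_lit 5)
  (nat_lit 85928) (nat_lit 5) (node (nat_lit 4) (nat_lit 91188) (nat_lit 6) (node (nat_lit 6)
  (nat_lit 100745) (nat_lit 7) (node (nat_lit 5) (nat_lit 101574) (nat_lit 8) (node (nat_lit 4)
  (nat_lit 100280) (nat_lit 9) (node (nat_lit 5) (nat_lit 98821) (nat_lit 10) (node (nat_lit 6)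
  (nat_lit 99990) (nat_lit 11) (node (nat_lit 4) (nat_lit 99108) (nat_lit 12) (node (nat_lit 5)
  (nat_lit 98449) (nat_lit 13) (node (nat_lit 4) (nat_lit 97955) (nat_lit 14) (node (nat_lit 6)
  (nat_lit 71841) (nat_lit 15) nil nil) nil) nil) nil) nil) nil) nil) nil) nil) (node (nat_lit 1)
  (nat_lit 99117) (nat_lit 6) nil (node (nat_lit 3) (nat_lit 92745) (nat_lit 6) (node (nat_lit 4)
  (nat_lit 88299) (nat_lit 7) (node (nat_lit 5) (nat_lit 76272) (nat_lit 8) nil nil) nil) nil)))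
  (node (nat_lit 3) (nat_lit 87986) (nat_lit 5) (node (nat_lit 6) (nat_lit 97196) (nat_lit 6)
  (node (nat_lit 5) (nat_lit 97196) (nat_lit 7) nil nil) (node (nat_lit 5) (nat_lit 91251)
  (nat_lit 6) (node (nat_lit 4) (nat_lit 91584) (nat_lit 7) (node (nat_lit 5) (nat_lit 78131)
  (nat_lit 8) (node (nat_lit 6) (nat_lit 73715) (nat_lit 9) (node (nat_lit 4) (nat_lit 71589)
  (nat_lit 10) nil nil) nil) nil) (node (nat_lit 8) (nat_lit 91584) (nat_lit 7) (node (nat_lit 4)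
  (nat_lit 91584) (nat_lit 8) (node (nat_lit 5) (nat_lit 88174) (nat_lit 9) (node (nat_lit 6)
  (nat_lit 79246) (nat_lit 10) (node (nat_lit 4) (nat_lit 72896) (nat_lit 11) (node (nat_lit 8)
  (nat_lit 60379) (nat_lit 12) nil nil) nil) nil) nil) nil) nil)) (node (nat_lit 4) (nat_lit
  90641) (nat_lit 6) (node (nat_lit 5) (nat_lit 90936) (nat_lit 7) (node (nat_lit 6) (nat_lit
  79718) (nat_lit 8) (node (nat_lit 4) (nat_lit 64259) (nat_lit 9) nil nil) nil) nil) (node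
  (nat_lit 1) (nat_lit 92296) (nat_lit 6) (node (nat_lit 4) (nat_lit 89293) (nat_lit 7) nil (node
  (nat_lit 5) (nat_lit 92296) (nat_lit 7) nil nil)) (node (nat_lit 0) (nat_lit 92296) (nat_lit 6)
  nil nil))))) (node (nat_lit 1) (nat_lit 95126) (nat_lit 5) (node (nat_lit 6) (nat_lit 98084)
  (nat_lit 6) (node (nat_lit 5) (nat_lit 98084) (nat_lit 7) nil nil) (node (nat_lit 5) (nat_lit
  93997) (nat_lit 6) (node (nat_lit 4) (nat_lit 93946) (nat_lit 7) (node (nat_lit 5) (nat_lit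
  91357) (nat_lit 8) nil nil) (node (nat_lit 8) (nat_lit 91324) (nat_lit 7) (node (nat_lit 4)
  (nat_lit 88217) (nat_lit 8) (node (nat_lit 5) (nat_lit 84149) (nat_lit 9) (node (nat_lit 6)
  (nat_lit 79755) (nat_lit 10) (node (nat_lit 4) (nat_lit 71060) (nat_lit 11) (node (nat_lit 8)
  (nat_lit 55092) (nat_lit 12) nil nil) nil) nil) nil) nil) nil)) (node (nat_lit 4) (nat_lit
  97155) (nat_lit 6) (node (nat_lit 5) (nat_lit 95296) (nat_lit 7) (node (nat_lit 6) (nat_lit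
  73794) (nat_lit 8) (node (nat_lit 4) (nat_lit 29526) (nat_lit 9) nil nil) nil) nil) (node
  (nat_lit 3) (nat_lit 92804) (nat_lit 6) (node (nat_lit 4) (nat_lit 92753) (nat_lit 7) nil (node
  (nat_lit 5) (nat_lit 87583) (nat_lit 7) nil nil)) nil)))) nil))))) (node (nat_lit 0) (nat_lit 0)
  (nat_lit 4) (node (nat_lit 5) (nat_lit 92462) (nat_lit 5) (node (nat_lit 7) (nat_lit 97178)
  (nat_lit 6) (node (nat_lit 6) (nat_lit 97642) (nat_lit 7) (node (nat_lit 5) (nat_lit 97642)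
  (nat_lit 8) nil nil) nil) (node (nat_lit 6) (nat_lit 96578) (nat_lit 6) (node (nat_lit 5)
  (nat_lit 96578) (nat_lit 7) nil nil) (node (nat_lit 4) (nat_lit 92855) (nat_lit 6) (node
  (nat_lit 5) (nat_lit 92328) (nat_lit 7) (node (nat_lit 6) (nat_lit 95599) (nat_lit 8) nil nil)
  nil) (node (nat_lit 1) (nat_lit 95671) (nat_lit 6) nil (node (nat_lit 3) (nat_lit 92462)
  (nat_lit 6) nil nil))))) (node (nat_lit 6) (nat_lit 96605) (nat_lit 5) (node (nat_lit 5)
  (nat_lit 96381) (nat_lit 6) (node (nat_lit 4) (nat_lit 93293) (nat_lit 7) nil nil) (node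
  (nat_lit 4) (nat_lit 96605) (nat_lit 6) nil nil)) (node (nat_lit 4) (nat_lit 92400) (nat_lit 5)
  (node (nat_lit 5) (nat_lit 92809) (nat_lit 6) nil (node (nat_lit 6) (nat_lit 95609) (nat_lit 6)
  nil nil)) (node (nat_lit 0) (nat_lit 96449) (nat_lit 5) (node (nat_lit 5) (nat_lit 93070)
  (nat_lit 6) nil nil) (node (nat_lit 3) (nat_lit 91454) (nat_lit 5) (node (nat_lit 5) (nat_lit
  89046) (nat_lit 6) nil (node (nat_lit 1) (nat_lit 93789) (nat_lit 6) nil (node (nat_lit 4)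
  (nat_lit 91454) (nat_lit 6) (node (nat_lit 5) (nat_lit 91454) (nat_lit 7) nil nil) nil))) (node
  (nat_lit 1) (nat_lit 95766) (nat_lit 5) (node (nat_lit 5) (nat_lit 95805) (nat_lit 6) nil (node
  (nat_lit 4) (nat_lit 95805) (nat_lit 6) (node (nat_lit 5) (nat_lit 95753) (nat_lit 7) nil nil)
  nil)) nil)))))) (node (nat_lit 1) (nat_lit 0) (nat_lit 4) (node (nat_lit 5) (nat_lit 92462)
  (nat_lit 5) (node (nat_lit 7) (nat_lit 97178) (nat_lit 6) (node (nat_lit 6) (nat_lit 97642)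
  (nat_lit 7) (node (nat_lit 5) (nat_lit 97642) (nat_lit 8) nil nil) (node (nat_lit 4) (nat_lit
  97178) (nat_lit 7) (node (nat_lit 5) (nat_lit 96331) (nat_lit 8) (node (nat_lit 6) (nat_lit
  87737) (nat_lit 9) (node (nat_lit 7) (nat_lit 73128) (nat_lit 10) (node (nat_lit 5) (nat_lit
  30177) (nat_lit 11) nil nil) nil) nil) nil) nil)) (node (nat_lit 3) (nat_lit 90535) (nat_lit 6)
  nil (node (nat_lit 4) (nat_lit 92855) (nat_lit 6) (node (nat_lit 5) (nat_lit 91234) (nat_lit 7)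
  (node (nat_lit 6) (nat_lit 93199) (nat_lit 8) (node (nat_lit 7) (nat_lit 71072) (nat_lit 9) nil
  nil) nil) nil) (node (nat_lit 6) (nat_lit 96578) (nat_lit 6) nil nil)))) (node (nat_lit 6)
  (nat_lit 96605) (nat_lit 5) (node (nat_lit 5) (nat_lit 96605) (nat_lit 6) (node (nat_lit 7)
  (nat_lit 98098) (nat_lit 7) nil (node (nat_lit 4) (nat_lit 96605) (nat_lit 7) nil nil)) (node
  (nat_lit 4) (nat_lit 96605) (nat_lit 6) nil nil)) (node (nat_lit 3) (nat_lit 91454) (nat_lit 5)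
  (node (nat_lit 7) (nat_lit 94663) (nat_lit 6) nil (node (nat_lit 5) (nat_lit 91454) (nat_lit 6)
  (node (nat_lit 6) (nat_lit 94362) (nat_lit 7) nil nil) (node (nat_lit 4) (nat_lit 91454)
  (nat_lit 6) (node (nat_lit 5) (nat_lit 91454) (nat_lit 7) nil nil) nil))) (node (nat_lit 4)
  (nat_lit 92400) (nat_lit 5) (node (nat_lit 5) (nat_lit 93195) (nat_lit 6) (node (nat_lit 6)
  (nat_lit 29481) (nat_lit 7) (node (nat_lit 5) (nat_lit 29481) (nat_lit 8) (node (nat_lit 4)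
  (nat_lit 29481) (nat_lit 9) nil nil) nil) nil) (node (nat_lit 6) (nat_lit 95609) (nat_lit 6) nil
  (node (nat_lit 7) (nat_lit 95609) (nat_lit 6) nil nil))) (node (nat_lit 0) (nat_lit 95078)
  (nat_lit 5) (node (nat_lit 5) (nat_lit 93954) (nat_lit 6) nil nil) nil))))) (node (nat_lit 3)
  (nat_lit 0) (nat_lit 4) (node (nat_lit 5) (nat_lit 87627) (nat_lit 5) (node (nat_lit 7) (nat_lit
  92570) (nat_lit 6) (node (nat_lit 6) (nat_lit 96853) (nat_lit 7) (node (nat_lit 5) (nat_lit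
  96853) (nat_lit 8) (node (nat_lit 6) (nat_lit 97374) (nat_lit 9) (node (nat_lit 7) (nat_lit
  97374) (nat_lit 10) nil nil) nil) nil) (node (nat_lit 4) (nat_lit 92570) (nat_lit 7) (node
  (nat_lit 5) (nat_lit 91881) (nat_lit 8) (node (nat_lit 6) (nat_lit 84395) (nat_lit 9) (node
  (nat_lit 7) (nat_lit 67905) (nat_lit 10) nil nil) nil) nil) (node (nat_lit 1) (nat_lit 95033)
  (nat_lit 7) nil nil))) (node (nat_lit 1) (nat_lit 96836) (nat_lit 6) nil (node (nat_lit 4)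
  (nat_lit 92570) (nat_lit 6) (node (nat_lit 5) (nat_lit 89905) (nat_lit 7) (node (nat_lit 6)
  (nat_lit 75339) (nat_lit 8) (node (nat_lit 7) (nat_lit 74531) (nat_lit 9) nil nil) nil) (node
  (nat_lit 7) (nat_lit 92570) (nat_lit 7) nil nil)) (node (nat_lit 6) (nat_lit 94351) (nat_lit 6)
  nil nil)))) (node (nat_lit 6) (nat_lit 96433) (nat_lit 5) (node (nat_lit 5) (nat_lit 96433)
  (nat_lit 6) (node (nat_lit 7) (nat_lit 96433) (nat_lit 7) nil (node (nat_lit 4) (nat_lit 96433)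
  (nat_lit 7) nil nil)) (node (nat_lit 4) (nat_lit 96433) (nat_lit 6) (node (nat_lit 7) (nat_lit
  92717) (nat_lit 7) (node (nat_lit 4) (nat_lit 90287) (nat_lit 8) nil nil) nil) (node (nat_lit 1)
  (nat_lit 96968) (nat_lit 6) nil nil))) (node (nat_lit 1) (nat_lit 94044) (nat_lit 5) (node
  (nat_lit 7) (nat_lit 94060) (nat_lit 6) (node (nat_lit 5) (nat_lit 89314) (nat_lit 7) nil nil)
  (node (nat_lit 5) (nat_lit 92920) (nat_lit 6) nil (node (nat_lit 4) (nat_lit 94060) (nat_lit 6)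
  (node (nat_lit 5) (nat_lit 87666) (nat_lit 7) (node (nat_lit 6) (nat_lit 52664) (nat_lit 8) nil
  nil) nil) nil))) (node (nat_lit 4) (nat_lit 88102) (nat_lit 5) (node (nat_lit 5) (nat_lit 89609)
  (nat_lit 6) (node (nat_lit 6) (nat_lit 66327) (nat_lit 7) nil nil) (node (nat_lit 6) (nat_lit
  94687) (nat_lit 6) nil (node (nat_lit 7) (nat_lit 90377) (nat_lit 6) (node (nat_lit 5) (nat_lit
  89618) (nat_lit 7) nil nil) (node (nat_lit 1) (nat_lit 92116) (nat_lit 6) (node (nat_lit 4)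
  (nat_lit 90684) (nat_lit 7) nil nil) nil)))) (node (nat_lit 0) (nat_lit 94060) (nat_lit 5) (node
  (nat_lit 5) (nat_lit 93080) (nat_lit 6) nil (node (nat_lit 7) (nat_lit 93634) (nat_lit 6) nil
  nil)) nil))))) nil))))) nil))

noncomputable def t51 : Tr :=
  (node (nat_lit 5) (nat_lit 0) (nat_lit 4) (node (nat_lit 4) (nat_lit 0) (nat_lit 5) (node
  (nat_lit 5) (nat_lit 60858) (nat_lit 6) (node (nat_lit 6) (nat_lit 53235) (nat_lit 7) (node
  (nat_lit 4) (nat_lit 54950) (nat_lit 8) (node (nat_lit 6) (nat_lit 55514) (nat_lit 9) (node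
  (nat_lit 5) (nat_lit 58743) (nat_lit 10) (node (nat_lit 6) (nat_lit 58743) (nat_lit 11) (node
  (nat_lit 4) (nat_lit 58743) (nat_lit 12) (node (nat_lit 5) (nat_lit 58847) (nat_lit 13) (node
  (nat_lit 6) (nat_lit 58847) (nat_lit 14) (node (nat_lit 5) (nat_lit 58847) (nat_lit 15) (node
  (nat_lit 4) (nat_lit 58847) (nat_lit 16) (node (nat_lit 5) (nat_lit 58847) (nat_lit 17) (node
  (nat_lit 6) (nat_lit 58847) (nat_lit 18) (node (nat_lit 4) (nat_lit 58847) (nat_lit 19) (node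
  (nat_lit 6) (nat_lit 58847) (nat_lit 20) (node (nat_lit 5) (nat_lit 28632) (nat_lit 21) nil nil)
  nil) nil) nil) nil) nil) nil) nil) nil) (node (nat_lit 3) (nat_lit 58743) (nat_lit 12) (node
  (nat_lit 5) (nat_lit 58847) (nat_lit 13) nil (node (nat_lit 4) (nat_lit 58743) (nat_lit 13) nil
  (node (nat_lit 6) (nat_lit 58743) (nat_lit 13) nil nil))) (node (nat_lit 0) (nat_lit 58847)
  (nat_lit 12) (node (nat_lit 5) (nat_lit 58847) (nat_lit 13) nil (node (nat_lit 6) (nat_lit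
  58847) (nat_lit 13) nil nil)) nil))) (node (nat_lit 4) (nat_lit 58743) (nat_lit 11) (node
  (nat_lit 6) (nat_lit 58743) (nat_lit 12) (node (nat_lit 4) (nat_lit 58743) (nat_lit 13) (node
  (nat_lit 5) (nat_lit 58847) (nat_lit 14) (node (nat_lit 6) (nat_lit 58847) (nat_lit 15) (node
  (nat_lit 5) (nat_lit 58847) (nat_lit 16) (node (nat_lit 4) (nat_lit 58847) (nat_lit 17) (node
  (nat_lit 5) (nat_lit 58847) (nat_lit 18) (node (nat_lit 6) (nat_lit 58847) (nat_lit 19) (node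
  (nat_lit 4) (nat_lit 57982) (nat_lit 20) (node (nat_lit 6) (nat_lit 50762) (nat_lit 21) (node
  (nat_lit 5) (nat_lit 33452) (nat_lit 22) (node (nat_lit 4) (nat_lit 28632) (nat_lit 23) nil nil)
  nil) nil) nil) nil) nil) nil) nil) nil) nil) nil) (node (nat_lit 3) (nat_lit 58743) (nat_lit 12)
  nil (node (nat_lit 0) (nat_lit 58847) (nat_lit 12) nil (node (nat_lit 5) (nat_lit 58847)
  (nat_lit 12) nil nil)))) (node (nat_lit 3) (nat_lit 58743) (nat_lit 11) (node (nat_lit 4)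
  (nat_lit 58743) (nat_lit 12) (node (nat_lit 5) (nat_lit 58847) (nat_lit 13) nil nil) (node
  (nat_lit 5) (nat_lit 58847) (nat_lit 12) (node (nat_lit 4) (nat_lit 58847) (nat_lit 13) nil nil)
  (node (nat_lit 6) (nat_lit 58743) (nat_lit 12) (node (nat_lit 4) (nat_lit 58743) (nat_lit 13)
  nil nil) nil))) (node (nat_lit 0) (nat_lit 58815) (nat_lit 11) (node (nat_lit 6) (nat_lit 58815)
  (nat_lit 12) nil (node (nat_lit 5) (nat_lit 58847) (nat_lit 12) (node (nat_lit 4) (nat_lit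
  58847) (nat_lit 13) nil nil) nil)) nil)))) (node (nat_lit 3) (nat_lit 55514) (nat_lit 10) (node
  (nat_lit 4) (nat_lit 55514) (nat_lit 11) (node (nat_lit 5) (nat_lit 58212) (nat_lit 12) (node
  (nat_lit 6) (nat_lit 57393) (nat_lit 13) nil nil) nil) (node (nat_lit 5) (nat_lit 58156)
  (nat_lit 11) (node (nat_lit 4) (nat_lit 58156) (nat_lit 12) nil nil) (node (nat_lit 6) (nat_lit
  55514) (nat_lit 11) (node (nat_lit 4) (nat_lit 55514) (nat_lit 12) nil nil) (node (nat_lit 0)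
  (nat_lit 58156) (nat_lit 11) nil nil)))) (node (nat_lit 0) (nat_lit 58669) (nat_lit 10) (node
  (nat_lit 6) (nat_lit 58669) (nat_lit 11) nil (node (nat_lit 5) (nat_lit 58741) (nat_lit 11) nil
  nil)) nil))) (node (nat_lit 5) (nat_lit 58586) (nat_lit 9) (node (nat_lit 4) (nat_lit 58586)
  (nat_lit 10) (node (nat_lit 6) (nat_lit 58586) (nat_lit 11) (node (nat_lit 5) (nat_lit 58808)
  (nat_lit 12) (node (nat_lit 6) (nat_lit 58808) (nat_lit 13) (node (nat_lit 4) (nat_lit 58808)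
  (nat_lit 14) (node (nat_lit 5) (nat_lit 58847) (nat_lit 15) (node (nat_lit 6) (nat_lit 58847)
  (nat_lit 16) (node (nat_lit 5) (nat_lit 58847) (nat_lit 17) (node (nat_lit 4) (nat_lit 58847)
  (nat_lit 18) (node (nat_lit 5) (nat_lit 58847) (nat_lit 19) (node (nat_lit 6) (nat_lit 58847)
  (nat_lit 20) (node (nat_lit 4) (nat_lit 58847) (nat_lit 21) (node (nat_lit 5) (nat_lit 58847)
  (nat_lit 22) (node (nat_lit 4) (nat_lit 58847) (nat_lit 23) (node (nat_lit 6) (nat_lit 58847)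
  (nat_lit 24) nil nil) nil) nil) nil) nil) nil) nil) nil) nil) nil) nil) nil) (node (nat_lit 4)
  (nat_lit 58586) (nat_lit 12) (node (nat_lit 5) (nat_lit 58847) (nat_lit 13) (node (nat_lit 6)
  (nat_lit 58847) (nat_lit 14) (node (nat_lit 5) (nat_lit 58847) (nat_lit 15) (node (nat_lit 4)
  (nat_lit 58847) (nat_lit 16) (node (nat_lit 5) (nat_lit 58847) (nat_lit 17) (node (nat_lit 6)
  (nat_lit 57279) (nat_lit 18) (node (nat_lit 4) (nat_lit 53848) (nat_lit 19) (node (nat_lit 5)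
  (nat_lit 30629) (nat_lit 20) nil nil) nil) nil) nil) nil) nil) nil) nil) (node (nat_lit 3)
  (nat_lit 58586) (nat_lit 12) (node (nat_lit 6) (nat_lit 58586) (nat_lit 13) nil (node (nat_lit
  4) (nat_lit 58586) (nat_lit 13) (node (nat_lit 5) (nat_lit 58847) (nat_lit 14) nil nil) (node
  (nat_lit 5) (nat_lit 58847) (nat_lit 13) nil nil))) (node (nat_lit 0) (nat_lit 58808) (nat_lit
  12) nil nil)))) (node (nat_lit 3) (nat_lit 58586) (nat_lit 11) (node (nat_lit 5) (nat_lit 58808)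
  (nat_lit 12) (node (nat_lit 4) (nat_lit 58808) (nat_lit 13) nil nil) (node (nat_lit 4) (nat_lit
  58586) (nat_lit 12) nil (node (nat_lit 6) (nat_lit 58586) (nat_lit 12) nil nil))) (node (nat_lit
  0) (nat_lit 58751) (nat_lit 11) (node (nat_lit 5) (nat_lit 58808) (nat_lit 12) nil nil) nil)))
  (node (nat_lit 3) (nat_lit 58586) (nat_lit 10) (node (nat_lit 4) (nat_lit 58586) (nat_lit 11)
  (node (nat_lit 5) (nat_lit 58808) (nat_lit 12) (node (nat_lit 6) (nat_lit 58808) (nat_lit 13)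
  nil nil) nil) (node (nat_lit 5) (nat_lit 58751) (nat_lit 11) (node (nat_lit 4) (nat_lit 58751)
  (nat_lit 12) nil nil) (node (nat_lit 6) (nat_lit 58586) (nat_lit 11) nil nil))) (node (nat_lit
  0) (nat_lit 58679) (nat_lit 10) (node (nat_lit 5) (nat_lit 58751) (nat_lit 11) (node (nat_lit 4)
  (nat_lit 58751) (nat_lit 12) nil nil) (node (nat_lit 6) (nat_lit 58679) (nat_lit 11) nil nil))
  nil))) (node (nat_lit 3) (nat_lit 55154) (nat_lit 9) (node (nat_lit 4) (nat_lit 55423) (nat_lit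
  10) (node (nat_lit 5) (nat_lit 57253) (nat_lit 11) (node (nat_lit 6) (nat_lit 53515) (nat_lit
  12) (node (nat_lit 5) (nat_lit 54425) (nat_lit 13) (node (nat_lit 4) (nat_lit 51404) (nat_lit
  14) nil nil) nil) nil) nil) (node (nat_lit 5) (nat_lit 57846) (nat_lit 10) (node (nat_lit 4)
  (nat_lit 57846) (nat_lit 11) nil nil) (node (nat_lit 6) (nat_lit 55514) (nat_lit 10) (node
  (nat_lit 4) (nat_lit 55514) (nat_lit 11) (node (nat_lit 5) (nat_lit 56855) (nat_lit 12) nil nil)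
  nil) (node (nat_lit 0) (nat_lit 57846) (nat_lit 10) nil nil)))) (node (nat_lit 0) (nat_lit
  58352) (nat_lit 9) (node (nat_lit 4) (nat_lit 58352) (nat_lit 10) nil (node (nat_lit 3) (nat_lit
  58352) (nat_lit 10) (node (nat_lit 4) (nat_lit 58352) (nat_lit 11) nil nil) (node (nat_lit 5)
  (nat_lit 58575) (nat_lit 10) nil (node (nat_lit 6) (nat_lit 58352) (nat_lit 10) nil nil))))
  nil)))) (node (nat_lit 3) (nat_lit 55224) (nat_lit 8) (node (nat_lit 4) (nat_lit 55095) (nat_lit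
  9) (node (nat_lit 5) (nat_lit 57649) (nat_lit 10) (node (nat_lit 6) (nat_lit 57649) (nat_lit 11)
  (node (nat_lit 5) (nat_lit 53107) (nat_lit 12) (node (nat_lit 4) (nat_lit 37418) (nat_lit 13)
  nil nil) nil) nil) (node (nat_lit 11) (nat_lit 55620) (nat_lit 10) (node (nat_lit 5) (nat_lit
  57243) (nat_lit 11) (node (nat_lit 4) (nat_lit 57243) (nat_lit 12) nil nil) (node (nat_lit 6)
  (nat_lit 55591) (nat_lit 11) nil nil)) (node (nat_lit 6) (nat_lit 55357) (nat_lit 10) (node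
  (nat_lit 4) (nat_lit 55328) (nat_lit 11) (node (nat_lit 5) (nat_lit 56465) (nat_lit 12) (node
  (nat_lit 6) (nat_lit 54971) (nat_lit 13) (node (nat_lit 5) (nat_lit 52393) (nat_lit 14) nil nil)
  nil) nil) nil) nil))) (node (nat_lit 5) (nat_lit 58502) (nat_lit 9) (node (nat_lit 4) (nat_lit
  58502) (nat_lit 10) (node (nat_lit 5) (nat_lit 58765) (nat_lit 11) (node (nat_lit 6) (nat_lit
  58765) (nat_lit 12) nil nil) (node (nat_lit 6) (nat_lit 58502) (nat_lit 11) nil nil)) (node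
  (nat_lit 6) (nat_lit 58502) (nat_lit 10) nil (node (nat_lit 11) (nat_lit 58502) (nat_lit 10)
  (node (nat_lit 4) (nat_lit 58502) (nat_lit 11) (node (nat_lit 5) (nat_lit 58796) (nat_lit 12)
  (node (nat_lit 6) (nat_lit 58796) (nat_lit 13) (node (nat_lit 5) (nat_lit 58841) (nat_lit 14)
  (node (nat_lit 4) (nat_lit 58841) (nat_lit 15) nil nil) nil) nil) nil) nil) nil))) (node
  (nat_lit 6) (nat_lit 55394) (nat_lit 9) (node (nat_lit 4) (nat_lit 55668) (nat_lit 10) (node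
  (nat_lit 5) (nat_lit 57291) (nat_lit 11) (node (nat_lit 6) (nat_lit 57291) (nat_lit 12) (node
  (nat_lit 5) (nat_lit 53640) (nat_lit 13) (node (nat_lit 4) (nat_lit 38357) (nat_lit 14) (node
  (nat_lit 5) (nat_lit 29003) (nat_lit 15) nil nil) nil) nil) nil) nil) (node (nat_lit 5) (nat_lit
  57948) (nat_lit 10) nil (node (nat_lit 0) (nat_lit 57948) (nat_lit 10) nil nil))) (node (nat_lit
  0) (nat_lit 58502) (nat_lit 9) (node (nat_lit 11) (nat_lit 58502) (nat_lit 10) nil nil) nil))))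
  (node (nat_lit 0) (nat_lit 58459) (nat_lit 8) (node (nat_lit 4) (nat_lit 58459) (nat_lit 9)
  (node (nat_lit 11) (nat_lit 58721) (nat_lit 10) (node (nat_lit 6) (nat_lit 58721) (nat_lit 11)
  nil nil) nil) (node (nat_lit 6) (nat_lit 58459) (nat_lit 9) (node (nat_lit 4) (nat_lit 58459)
  (nat_lit 10) (node (nat_lit 5) (nat_lit 58754) (nat_lit 11) (node (nat_lit 6) (nat_lit 58754)
  (nat_lit 12) (node (nat_lit 5) (nat_lit 58811) (nat_lit 13) nil nil) nil) nil) (node (nat_lit 3)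
  (nat_lit 58459) (nat_lit 10) nil (node (nat_lit 5) (nat_lit 58721) (nat_lit 10) nil nil))) (node
  (nat_lit 3) (nat_lit 58459) (nat_lit 9) (node (nat_lit 4) (nat_lit 58459) (nat_lit 10) (node
  (nat_lit 5) (nat_lit 58754) (nat_lit 11) nil nil) (node (nat_lit 5) (nat_lit 58721) (nat_lit 10)
  (node (nat_lit 4) (nat_lit 58721) (nat_lit 11) nil nil) (node (nat_lit 6) (nat_lit 58459)
  (nat_lit 10) nil nil))) (node (nat_lit 5) (nat_lit 58682) (nat_lit 9) (node (nat_lit 4) (nat_lit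
  58682) (nat_lit 10) (node (nat_lit 5) (nat_lit 58754) (nat_lit 11) (node (nat_lit 6) (nat_lit
  58754) (nat_lit 12) nil nil) nil) nil) (node (nat_lit 0) (nat_lit 58682) (nat_lit 9) nil
  nil))))) nil))) (node (nat_lit 3) (nat_lit 74984) (nat_lit 7) (node (nat_lit 4) (nat_lit 75813)
  (nat_lit 8) (node (nat_lit 5) (nat_lit 75813) (nat_lit 9) (node (nat_lit 6) (nat_lit 75813)
  (nat_lit 10) (node (nat_lit 5) (nat_lit 75813) (nat_lit 11) (node (nat_lit 4) (nat_lit 75025)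
  (nat_lit 12) nil nil) nil) nil) nil) (node (nat_lit 5) (nat_lit 75813) (nat_lit 8) (node
  (nat_lit 6) (nat_lit 75036) (nat_lit 9) (node (nat_lit 5) (nat_lit 75281) (nat_lit 10) nil nil)
  (node (nat_lit 4) (nat_lit 73826) (nat_lit 9) nil nil)) (node (nat_lit 6) (nat_lit 72906)
  (nat_lit 8) nil nil))) (node (nat_lit 0) (nat_lit 75813) (nat_lit 7) (node (nat_lit 6) (nat_lit
  75813) (nat_lit 8) nil (node (nat_lit 5) (nat_lit 75476) (nat_lit 8) nil nil)) nil))) (node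
  (nat_lit 6) (nat_lit 76204) (nat_lit 6) (node (nat_lit 5) (nat_lit 86386) (nat_lit 7) (node
  (nat_lit 6) (nat_lit 94208) (nat_lit 8) (node (nat_lit 4) (nat_lit 97760) (nat_lit 9) (node
  (nat_lit 5) (nat_lit 99802) (nat_lit 10) (node (nat_lit 6) (nat_lit 99479) (nat_lit 11) (node
  (nat_lit 5) (nat_lit 100177) (nat_lit 12) (node (nat_lit 4) (nat_lit 98377) (nat_lit 13) (node
  (nat_lit 6) (nat_lit 98253) (nat_lit 14) nil nil) nil) nil) nil) nil) nil) nil) (node (nat_lit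
  4) (nat_lit 85653) (nat_lit 7) (node (nat_lit 5) (nat_lit 89308) (nat_lit 8) (node (nat_lit 6)
  (nat_lit 78342) (nat_lit 9) (node (nat_lit 5) (nat_lit 73320) (nat_lit 10) (node (nat_lit 4)
  (nat_lit 58487) (nat_lit 11) nil nil) nil) nil) nil) (node (nat_lit 3) (nat_lit 92706) (nat_lit
  7) nil (node (nat_lit 0) (nat_lit 91869) (nat_lit 7) nil nil)))) (node (nat_lit 3) (nat_lit
  87755) (nat_lit 6) (node (nat_lit 6) (nat_lit 93424) (nat_lit 7) (node (nat_lit 5) (nat_lit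
  95323) (nat_lit 8) nil (node (nat_lit 4) (nat_lit 93046) (nat_lit 8) (node (nat_lit 5) (nat_lit
  93851) (nat_lit 9) (node (nat_lit 6) (nat_lit 82131) (nat_lit 10) (node (nat_lit 5) (nat_lit
  64757) (nat_lit 11) (node (nat_lit 4) (nat_lit 64037) (nat_lit 12) nil nil) nil) nil) nil) nil))
  (node (nat_lit 5) (nat_lit 94132) (nat_lit 7) nil (node (nat_lit 4) (nat_lit 91032) (nat_lit 7)
  (node (nat_lit 5) (nat_lit 90332) (nat_lit 8) (node (nat_lit 6) (nat_lit 69171) (nat_lit 9)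
  (node (nat_lit 5) (nat_lit 62710) (nat_lit 10) nil nil) nil) nil) nil))) (node (nat_lit 0)
  (nat_lit 92571) (nat_lit 6) nil nil)))) (node (nat_lit 3) (nat_lit 82721) (nat_lit 5) (node
  (nat_lit 6) (nat_lit 91059) (nat_lit 6) (node (nat_lit 8) (nat_lit 94092) (nat_lit 7) (node
  (nat_lit 5) (nat_lit 94693) (nat_lit 8) nil nil) (node (nat_lit 4) (nat_lit 95911) (nat_lit 7)
  (node (nat_lit 5) (nat_lit 94040) (nat_lit 8) (node (nat_lit 6) (nat_lit 79540) (nat_lit 9) nil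
  nil) nil) nil)) (node (nat_lit 4) (nat_lit 96482) (nat_lit 6) (node (nat_lit 5) (nat_lit 100908)
  (nat_lit 7) (node (nat_lit 6) (nat_lit 100908) (nat_lit 8) (node (nat_lit 5) (nat_lit 65849)
  (nat_lit 9) nil nil) nil) nil) (node (nat_lit 5) (nat_lit 90935) (nat_lit 6) (node (nat_lit 6)
  (nat_lit 94668) (nat_lit 7) nil (node (nat_lit 4) (nat_lit 99558) (nat_lit 7) (node (nat_lit 5)
  (nat_lit 94464) (nat_lit 8) (node (nat_lit 6) (nat_lit 87998) (nat_lit 9) (node (nat_lit 5)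
  (nat_lit 70998) (nat_lit 10) (node (nat_lit 8) (nat_lit 47037) (nat_lit 11) nil nil) nil) nil)
  nil) nil)) (node (nat_lit 0) (nat_lit 99416) (nat_lit 6) nil nil)))) (node (nat_lit 0) (nat_lit
  93962) (nat_lit 5) (node (nat_lit 5) (nat_lit 100748) (nat_lit 6) nil (node (nat_lit 6) (nat_lit
  99285) (nat_lit 6) nil nil)) nil))) (node (nat_lit 0) (nat_lit 0) (nat_lit 4) (node (nat_lit 5)
  (nat_lit 95579) (nat_lit 5) (node (nat_lit 7) (nat_lit 103146) (nat_lit 6) (node (nat_lit 6)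
  (nat_lit 103146) (nat_lit 7) nil nil) (node (nat_lit 6) (nat_lit 101907) (nat_lit 6) (node
  (nat_lit 5) (nat_lit 103571) (nat_lit 7) nil (node (nat_lit 4) (nat_lit 102370) (nat_lit 7) nil
  nil)) (node (nat_lit 3) (nat_lit 100801) (nat_lit 6) (node (nat_lit 6) (nat_lit 99036) (nat_lit
  7) nil nil) (node (nat_lit 4) (nat_lit 100670) (nat_lit 6) (node (nat_lit 5) (nat_lit 103571)
  (nat_lit 7) (node (nat_lit 6) (nat_lit 101859) (nat_lit 8) (node (nat_lit 7) (nat_lit 47716)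
  (nat_lit 9) nil nil) nil) nil) (node (nat_lit 0) (nat_lit 103146) (nat_lit 6) nil nil))))) (node
  (nat_lit 6) (nat_lit 96294) (nat_lit 5) (node (nat_lit 5) (nat_lit 101801) (nat_lit 6) (node
  (nat_lit 4) (nat_lit 101801) (nat_lit 7) nil nil) (node (nat_lit 4) (nat_lit 99772) (nat_lit 6)
  (node (nat_lit 5) (nat_lit 102238) (nat_lit 7) (node (nat_lit 6) (nat_lit 102238) (nat_lit 8)
  (node (nat_lit 7) (nat_lit 67073) (nat_lit 9) nil nil) nil) nil) (node (nat_lit 3) (nat_lit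
  99772) (nat_lit 6) nil nil))) (node (nat_lit 4) (nat_lit 96759) (nat_lit 5) (node (nat_lit 6)
  (nat_lit 100012) (nat_lit 6) (node (nat_lit 4) (nat_lit 100012) (nat_lit 7) (node (nat_lit 5)
  (nat_lit 98391) (nat_lit 8) (node (nat_lit 6) (nat_lit 89145) (nat_lit 9) (node (nat_lit 7)
  (nat_lit 72390) (nat_lit 10) (node (nat_lit 4) (nat_lit 65739) (nat_lit 11) nil nil) nil) nil)
  nil) (node (nat_lit 5) (nat_lit 99644) (nat_lit 7) nil (node (nat_lit 7) (nat_lit 102479)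
  (nat_lit 7) nil nil))) (node (nat_lit 7) (nat_lit 102536) (nat_lit 6) nil (node (nat_lit 5)
  (nat_lit 102536) (nat_lit 6) nil (node (nat_lit 3) (nat_lit 100012) (nat_lit 6) (node (nat_lit
  4) (nat_lit 95423) (nat_lit 7) nil nil) nil)))) (node (nat_lit 3) (nat_lit 95486) (nat_lit 5)
  (node (nat_lit 6) (nat_lit 99743) (nat_lit 6) (node (nat_lit 8) (nat_lit 97254) (nat_lit 7) nil
  (node (nat_lit 4) (nat_lit 96526) (nat_lit 7) nil nil)) (node (nat_lit 7) (nat_lit 102536)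
  (nat_lit 6) (node (nat_lit 5) (nat_lit 102961) (nat_lit 7) nil (node (nat_lit 6) (nat_lit
  102536) (nat_lit 7) (node (nat_lit 8) (nat_lit 101464) (nat_lit 8) nil nil) nil)) (node (nat_lit
  5) (nat_lit 101156) (nat_lit 6) (node (nat_lit 4) (nat_lit 100941) (nat_lit 7) (node (nat_lit 6)
  (nat_lit 94544) (nat_lit 8) nil nil) nil) (node (nat_lit 4) (nat_lit 99743) (nat_lit 6) (node
  (nat_lit 5) (nat_lit 102210) (nat_lit 7) (node (nat_lit 6) (nat_lit 101351) (nat_lit 8) nil nil)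
  nil) nil)))) (node (nat_lit 0) (nat_lit 98859) (nat_lit 5) (node (nat_lit 6) (nat_lit 101735)
  (nat_lit 6) (node (nat_lit 5) (nat_lit 103571) (nat_lit 7) nil nil) (node (nat_lit 5) (nat_lit
  103133) (nat_lit 6) nil nil)) nil))))) nil))

noncomputable def t52 : Tr :=
  (node (nat_lit 4) (nat_lit 0) (nat_lit 4) (node (nat_lit 5) (nat_lit 0) (nat_lit 5) (node
  (nat_lit 4) (nat_lit 52892) (nat_lit 6) (node (nat_lit 6) (nat_lit 60250) (nat_lit 7) (node
  (nat_lit 4) (nat_lit 66312) (nat_lit 8) (node (nat_lit 5) (nat_lit 69213) (nat_lit 9) (node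
  (nat_lit 6) (nat_lit 71316) (nat_lit 10) (node (nat_lit 5) (nat_lit 72161) (nat_lit 11) (node
  (nat_lit 4) (nat_lit 72379) (nat_lit 12) (node (nat_lit 5) (nat_lit 72935) (nat_lit 13) (node
  (nat_lit 6) (nat_lit 72811) (nat_lit 14) (node (nat_lit 4) (nat_lit 72191) (nat_lit 15) (node
  (nat_lit 5) (nat_lit 70696) (nat_lit 16) (node (nat_lit 4) (nat_lit 65850) (nat_lit 17) (node
  (nat_lit 6) (nat_lit 63801) (nat_lit 18) (node (nat_lit 4) (nat_lit 52709) (nat_lit 19) (node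
  (nat_lit 5) (nat_lit 35653) (nat_lit 20) (node (nat_lit 6) (nat_lit 22511) (nat_lit 21) nil nil)
  nil) nil) nil) nil) nil) nil) nil) nil) nil) nil) nil) (node (nat_lit 0) (nat_lit 67711)
  (nat_lit 9) nil (node (nat_lit 3) (nat_lit 67764) (nat_lit 9) (node (nat_lit 6) (nat_lit 66039)
  (nat_lit 10) nil (node (nat_lit 5) (nat_lit 68178) (nat_lit 10) nil (node (nat_lit 4) (nat_lit
  66918) (nat_lit 10) (node (nat_lit 5) (nat_lit 62987) (nat_lit 11) nil nil) nil))) nil))) (node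
  (nat_lit 5) (nat_lit 65023) (nat_lit 8) (node (nat_lit 4) (nat_lit 67836) (nat_lit 9) (node
  (nat_lit 5) (nat_lit 68871) (nat_lit 10) (node (nat_lit 6) (nat_lit 68547) (nat_lit 11) (node
  (nat_lit 4) (nat_lit 63564) (nat_lit 12) (node (nat_lit 5) (nat_lit 50995) (nat_lit 13) (node
  (nat_lit 4) (nat_lit 38394) (nat_lit 14) (node (nat_lit 6) (nat_lit 22375) (nat_lit 15) nil nil)
  nil) nil) nil) nil) nil) (node (nat_lit 6) (nat_lit 67934) (nat_lit 9) nil (node (nat_lit 3)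
  (nat_lit 65621) (nat_lit 9) nil nil))) (node (nat_lit 3) (nat_lit 69236) (nat_lit 8) (node
  (nat_lit 4) (nat_lit 69290) (nat_lit 9) nil nil) (node (nat_lit 0) (nat_lit 69563) (nat_lit 8)
  nil nil)))) (node (nat_lit 3) (nat_lit 65750) (nat_lit 7) (node (nat_lit 5) (nat_lit 67019)
  (nat_lit 8) nil (node (nat_lit 6) (nat_lit 67019) (nat_lit 8) (node (nat_lit 5) (nat_lit 65032)
  (nat_lit 9) nil nil) nil)) (node (nat_lit 0) (nat_lit 67916) (nat_lit 7) (node (nat_lit 3)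
  (nat_lit 67847) (nat_lit 8) nil nil) nil))) (node (nat_lit 3) (nat_lit 62093) (nat_lit 6) (node
  (nat_lit 4) (nat_lit 67522) (nat_lit 7) (node (nat_lit 6) (nat_lit 69005) (nat_lit 8) (node
  (nat_lit 9) (nat_lit 65604) (nat_lit 9) nil nil) (node (nat_lit 5) (nat_lit 69421) (nat_lit 8)
  (node (nat_lit 6) (nat_lit 66990) (nat_lit 9) (node (nat_lit 4) (nat_lit 66223) (nat_lit 10)
  (node (nat_lit 5) (nat_lit 33749) (nat_lit 11) nil nil) nil) nil) nil)) (node (nat_lit 5)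
  (nat_lit 66316) (nat_lit 7) (node (nat_lit 4) (nat_lit 68082) (nat_lit 8) nil nil) (node
  (nat_lit 6) (nat_lit 66153) (nat_lit 7) (node (nat_lit 5) (nat_lit 67119) (nat_lit 8) nil (node
  (nat_lit 9) (nat_lit 65564) (nat_lit 8) (node (nat_lit 4) (nat_lit 64643) (nat_lit 9) (node
  (nat_lit 5) (nat_lit 61637) (nat_lit 10) nil nil) nil) nil)) (node (nat_lit 0) (nat_lit 67148)
  (nat_lit 7) nil nil)))) (node (nat_lit 0) (nat_lit 64584) (nat_lit 6) (node (nat_lit 5) (nat_lit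
  67045) (nat_lit 7) nil (node (nat_lit 3) (nat_lit 63768) (nat_lit 7) (node (nat_lit 5) (nat_lit
  64435) (nat_lit 8) nil (node (nat_lit 4) (nat_lit 65667) (nat_lit 8) nil nil)) nil)) nil)))
  (node (nat_lit 6) (nat_lit 0) (nat_lit 5) (node (nat_lit 5) (nat_lit 77642) (nat_lit 6) (node
  (nat_lit 4) (nat_lit 90771) (nat_lit 7) (node (nat_lit 5) (nat_lit 96918) (nat_lit 8) (node
  (nat_lit 6) (nat_lit 93006) (nat_lit 9) (node (nat_lit 4) (nat_lit 75813) (nat_lit 10) (node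
  (nat_lit 5) (nat_lit 75813) (nat_lit 11) nil (node (nat_lit 6) (nat_lit 55470) (nat_lit 11)
  (node (nat_lit 3) (nat_lit 55470) (nat_lit 12) (node (nat_lit 4) (nat_lit 55470) (nat_lit 13)
  nil (node (nat_lit 6) (nat_lit 55470) (nat_lit 13) nil nil)) nil) nil)) (node (nat_lit 5)
  (nat_lit 95971) (nat_lit 10) nil nil)) nil) (node (nat_lit 6) (nat_lit 99155) (nat_lit 8) (node
  (nat_lit 4) (nat_lit 101784) (nat_lit 9) (node (nat_lit 5) (nat_lit 104759) (nat_lit 10) (node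
  (nat_lit 6) (nat_lit 100128) (nat_lit 11) (node (nat_lit 4) (nat_lit 94239) (nat_lit 12) (node
  (nat_lit 6) (nat_lit 92337) (nat_lit 13) (node (nat_lit 5) (nat_lit 71090) (nat_lit 14) (node
  (nat_lit 4) (nat_lit 68009) (nat_lit 15) nil nil) nil) nil) nil) nil) nil) nil) (node (nat_lit
  3) (nat_lit 101170) (nat_lit 8) nil nil))) (node (nat_lit 6) (nat_lit 89825) (nat_lit 7) nil
  (node (nat_lit 3) (nat_lit 102013) (nat_lit 7) nil (node (nat_lit 0) (nat_lit 104058) (nat_lit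
  7) nil nil)))) (node (nat_lit 3) (nat_lit 87500) (nat_lit 6) (node (nat_lit 4) (nat_lit 87500)
  (nat_lit 7) (node (nat_lit 9) (nat_lit 87500) (nat_lit 8) nil (node (nat_lit 5) (nat_lit 86137)
  (nat_lit 8) (node (nat_lit 6) (nat_lit 81457) (nat_lit 9) (node (nat_lit 4) (nat_lit 70983)
  (nat_lit 10) (node (nat_lit 6) (nat_lit 69818) (nat_lit 11) nil nil) nil) nil) (node (nat_lit 6)
  (nat_lit 87500) (nat_lit 8) (node (nat_lit 4) (nat_lit 87500) (nat_lit 9) (node (nat_lit 5)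
  (nat_lit 89576) (nat_lit 10) (node (nat_lit 6) (nat_lit 86266) (nat_lit 11) (node (nat_lit 4)
  (nat_lit 85201) (nat_lit 12) (node (nat_lit 6) (nat_lit 78011) (nat_lit 13) nil nil) nil) nil)
  nil) nil) nil))) (node (nat_lit 6) (nat_lit 87500) (nat_lit 7) (node (nat_lit 5) (nat_lit 93132)
  (nat_lit 8) (node (nat_lit 4) (nat_lit 93132) (nat_lit 9) (node (nat_lit 5) (nat_lit 89576)
  (nat_lit 10) (node (nat_lit 6) (nat_lit 86636) (nat_lit 11) (node (nat_lit 4) (nat_lit 84802)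
  (nat_lit 12) (node (nat_lit 6) (nat_lit 72699) (nat_lit 13) nil nil) nil) nil) nil) nil) (node
  (nat_lit 4) (nat_lit 87500) (nat_lit 8) (node (nat_lit 5) (nat_lit 88350) (nat_lit 9) (node
  (nat_lit 6) (nat_lit 83623) (nat_lit 10) (node (nat_lit 4) (nat_lit 78786) (nat_lit 11) (node
  (nat_lit 6) (nat_lit 65551) (nat_lit 12) nil nil) nil) nil) nil) nil)) (node (nat_lit 5)
  (nat_lit 94816) (nat_lit 7) (node (nat_lit 9) (nat_lit 94816) (nat_lit 8) (node (nat_lit 4)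
  (nat_lit 94816) (nat_lit 9) (node (nat_lit 5) (nat_lit 95876) (nat_lit 10) (node (nat_lit 6)
  (nat_lit 95876) (nat_lit 11) (node (nat_lit 4) (nat_lit 95876) (nat_lit 12) (node (nat_lit 6)
  (nat_lit 95876) (nat_lit 13) nil nil) nil) nil) nil) nil) nil) (node (nat_lit 0) (nat_lit 92680)
  (nat_lit 7) nil nil)))) (node (nat_lit 0) (nat_lit 99529) (nat_lit 6) nil nil))) (node (nat_lit
  3) (nat_lit 85284) (nat_lit 5) (node (nat_lit 6) (nat_lit 87637) (nat_lit 6) (node (nat_lit 5)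
  (nat_lit 92817) (nat_lit 7) (node (nat_lit 8) (nat_lit 92817) (nat_lit 8) (node (nat_lit 4)
  (nat_lit 92817) (nat_lit 9) (node (nat_lit 5) (nat_lit 93877) (nat_lit 10) (node (nat_lit 6)
  (nat_lit 93877) (nat_lit 11) (node (nat_lit 4) (nat_lit 93877) (nat_lit 12) (node (nat_lit 8)
  (nat_lit 93877) (nat_lit 13) nil nil) nil) nil) nil) (node (nat_lit 5) (nat_lit 93611) (nat_lit
  9) (node (nat_lit 4) (nat_lit 93611) (nat_lit 10) nil nil) nil)) (node (nat_lit 4) (nat_lit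
  92817) (nat_lit 8) (node (nat_lit 5) (nat_lit 86137) (nat_lit 9) (node (nat_lit 6) (nat_lit
  83536) (nat_lit 10) (node (nat_lit 4) (nat_lit 77997) (nat_lit 11) (node (nat_lit 8) (nat_lit
  64305) (nat_lit 12) (node (nat_lit 6) (nat_lit 38411) (nat_lit 13) nil nil) nil) nil) nil) (node
  (nat_lit 6) (nat_lit 92817) (nat_lit 9) (node (nat_lit 4) (nat_lit 92817) (nat_lit 10) nil nil)
  nil)) nil)) (node (nat_lit 8) (nat_lit 87637) (nat_lit 7) (node (nat_lit 4) (nat_lit 87637)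
  (nat_lit 8) (node (nat_lit 6) (nat_lit 87637) (nat_lit 9) (node (nat_lit 4) (nat_lit 87196)
  (nat_lit 10) nil nil) (node (nat_lit 8) (nat_lit 87213) (nat_lit 9) nil (node (nat_lit 5)
  (nat_lit 86137) (nat_lit 9) (node (nat_lit 6) (nat_lit 83364) (nat_lit 10) (node (nat_lit 4)
  (nat_lit 73924) (nat_lit 11) (node (nat_lit 8) (nat_lit 67734) (nat_lit 12) (node (nat_lit 6)
  (nat_lit 67314) (nat_lit 13) nil nil) nil) nil) nil) nil))) (node (nat_lit 5) (nat_lit 93269)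
  (nat_lit 8) (node (nat_lit 4) (nat_lit 93269) (nat_lit 9) nil nil) nil)) (node (nat_lit 4)
  (nat_lit 87637) (nat_lit 7) (node (nat_lit 6) (nat_lit 87637) (nat_lit 8) (node (nat_lit 8)
  (nat_lit 87520) (nat_lit 9) (node (nat_lit 6) (nat_lit 86988) (nat_lit 10) nil nil) (node
  (nat_lit 5) (nat_lit 93459) (nat_lit 9) (node (nat_lit 4) (nat_lit 91857) (nat_lit 10) nil nil)
  nil)) (node (nat_lit 5) (nat_lit 84730) (nat_lit 8) (node (nat_lit 6) (nat_lit 79703) (nat_lit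
  9) (node (nat_lit 4) (nat_lit 70696) (nat_lit 10) (node (nat_lit 8) (nat_lit 63007) (nat_lit 11)
  nil nil) nil) (node (nat_lit 8) (nat_lit 84730) (nat_lit 9) nil nil)) nil)) (node (nat_lit 0)
  (nat_lit 92817) (nat_lit 7) nil nil)))) (node (nat_lit 5) (nat_lit 93840) (nat_lit 6) (node
  (nat_lit 4) (nat_lit 93840) (nat_lit 7) (node (nat_lit 5) (nat_lit 85451) (nat_lit 8) (node
  (nat_lit 6) (nat_lit 78501) (nat_lit 9) (node (nat_lit 4) (nat_lit 66460) (nat_lit 10) (node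
  (nat_lit 8) (nat_lit 38169) (nat_lit 11) nil nil) nil) nil) nil) (node (nat_lit 8) (nat_lit
  93840) (nat_lit 7) (node (nat_lit 4) (nat_lit 93840) (nat_lit 8) (node (nat_lit 5) (nat_lit
  94827) (nat_lit 9) nil nil) nil) nil)) (node (nat_lit 4) (nat_lit 87351) (nat_lit 6) (node
  (nat_lit 6) (nat_lit 87351) (nat_lit 7) (node (nat_lit 8) (nat_lit 87351) (nat_lit 8) (node
  (nat_lit 4) (nat_lit 87637) (nat_lit 9) (node (nat_lit 5) (nat_lit 84465) (nat_lit 10) (node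
  (nat_lit 6) (nat_lit 72667) (nat_lit 11) (node (nat_lit 4) (nat_lit 68696) (nat_lit 12) (node
  (nat_lit 8) (nat_lit 67826) (nat_lit 13) nil nil) nil) nil) nil) (node (nat_lit 6) (nat_lit
  87490) (nat_lit 9) (node (nat_lit 4) (nat_lit 86298) (nat_lit 10) nil nil) nil)) (node (nat_lit
  4) (nat_lit 87351) (nat_lit 8) (node (nat_lit 5) (nat_lit 82690) (nat_lit 9) (node (nat_lit 6)
  (nat_lit 84386) (nat_lit 10) (node (nat_lit 4) (nat_lit 66904) (nat_lit 11) (node (nat_lit 8)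
  (nat_lit 64360) (nat_lit 12) nil nil) nil) nil) (node (nat_lit 8) (nat_lit 86295) (nat_lit 9)
  (node (nat_lit 6) (nat_lit 84789) (nat_lit 10) nil nil) nil)) (node (nat_lit 5) (nat_lit 92720)
  (nat_lit 8) nil nil))) (node (nat_lit 5) (nat_lit 84810) (nat_lit 7) (node (nat_lit 6) (nat_lit
  74442) (nat_lit 8) (node (nat_lit 4) (nat_lit 71851) (nat_lit 9) nil nil) nil) nil)) (node
  (nat_lit 0) (nat_lit 92217) (nat_lit 6) (node (nat_lit 8) (nat_lit 92217) (nat_lit 7) (node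
  (nat_lit 6) (nat_lit 92217) (nat_lit 8) nil nil) nil) nil)))) (node (nat_lit 0) (nat_lit 95530)
  (nat_lit 5) (node (nat_lit 6) (nat_lit 100280) (nat_lit 6) (node (nat_lit 4) (nat_lit 100743)
  (nat_lit 7) (node (nat_lit 5) (nat_lit 102579) (nat_lit 8) (node (nat_lit 6) (nat_lit 102579)
  (nat_lit 9) nil nil) nil) nil) (node (nat_lit 5) (nat_lit 101435) (nat_lit 6) (node (nat_lit 4)
  (nat_lit 100196) (nat_lit 7) (node (nat_lit 5) (nat_lit 102122) (nat_lit 8) (node (nat_lit 6)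
  (nat_lit 100142) (nat_lit 9) (node (nat_lit 4) (nat_lit 99723) (nat_lit 10) nil nil) nil) nil)
  nil) (node (nat_lit 3) (nat_lit 95249) (nat_lit 6) nil nil))) nil)))) (node (nat_lit 3) (nat_lit
  0) (nat_lit 4) (node (nat_lit 5) (nat_lit 75630) (nat_lit 5) (node (nat_lit 7) (nat_lit 83879)
  (nat_lit 6) (node (nat_lit 6) (nat_lit 88125) (nat_lit 7) (node (nat_lit 5) (nat_lit 90117)
  (nat_lit 8) (node (nat_lit 6) (nat_lit 95212) (nat_lit 9) (node (nat_lit 7) (nat_lit 98506)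
  (nat_lit 10) (node (nat_lit 6) (nat_lit 98518) (nat_lit 11) nil nil) nil) (node (nat_lit 7)
  (nat_lit 94494) (nat_lit 9) nil nil)) (node (nat_lit 7) (nat_lit 89258) (nat_lit 8) (node
  (nat_lit 5) (nat_lit 92959) (nat_lit 9) (node (nat_lit 6) (nat_lit 92903) (nat_lit 10) nil nil)
  nil) (node (nat_lit 4) (nat_lit 97220) (nat_lit 8) (node (nat_lit 5) (nat_lit 93932) (nat_lit 9)
  (node (nat_lit 6) (nat_lit 90568) (nat_lit 10) (node (nat_lit 7) (nat_lit 74523) (nat_lit 11)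
  nil nil) nil) nil) (node (nat_lit 0) (nat_lit 98098) (nat_lit 8) nil nil)))) (node (nat_lit 4)
  (nat_lit 97739) (nat_lit 7) (node (nat_lit 5) (nat_lit 99501) (nat_lit 8) (node (nat_lit 6)
  (nat_lit 98754) (nat_lit 9) (node (nat_lit 7) (nat_lit 95252) (nat_lit 10) nil nil) nil) nil)
  (node (nat_lit 0) (nat_lit 97656) (nat_lit 7) nil nil))) (node (nat_lit 4) (nat_lit 88204)
  (nat_lit 6) (node (nat_lit 7) (nat_lit 92534) (nat_lit 7) (node (nat_lit 6) (nat_lit 95110)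
  (nat_lit 8) nil (node (nat_lit 4) (nat_lit 95389) (nat_lit 8) (node (nat_lit 5) (nat_lit 93683)
  (nat_lit 9) (node (nat_lit 6) (nat_lit 83284) (nat_lit 10) (node (nat_lit 7) (nat_lit 70436)
  (nat_lit 11) (node (nat_lit 5) (nat_lit 62253) (nat_lit 12) nil nil) nil) nil) nil) nil)) (node
  (nat_lit 5) (nat_lit 85155) (nat_lit 7) (node (nat_lit 7) (nat_lit 85155) (nat_lit 8) nil (node
  (nat_lit 6) (nat_lit 68542) (nat_lit 8) (node (nat_lit 4) (nat_lit 69446) (nat_lit 9) nil (node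
  (nat_lit 7) (nat_lit 44128) (nat_lit 9) (node (nat_lit 4) (nat_lit 44128) (nat_lit 10) (node
  (nat_lit 6) (nat_lit 44128) (nat_lit 11) nil nil) (node (nat_lit 6) (nat_lit 44128) (nat_lit 10)
  nil nil)) nil)) nil)) (node (nat_lit 6) (nat_lit 92685) (nat_lit 7) (node (nat_lit 5) (nat_lit
  94209) (nat_lit 8) nil (node (nat_lit 4) (nat_lit 94075) (nat_lit 8) (node (nat_lit 5) (nat_lit
  89681) (nat_lit 9) (node (nat_lit 6) (nat_lit 84188) (nat_lit 10) (node (nat_lit 7) (nat_lit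
  74120) (nat_lit 11) (node (nat_lit 5) (nat_lit 57890) (nat_lit 12) nil nil) nil) nil) nil) nil))
  (node (nat_lit 0) (nat_lit 93414) (nat_lit 7) nil nil)))) (node (nat_lit 6) (nat_lit 84768)
  (nat_lit 6) (node (nat_lit 5) (nat_lit 88117) (nat_lit 7) (node (nat_lit 7) (nat_lit 90115)
  (nat_lit 8) (node (nat_lit 6) (nat_lit 94654) (nat_lit 9) (node (nat_lit 5) (nat_lit 94973)
  (nat_lit 10) nil nil) (node (nat_lit 5) (nat_lit 94498) (nat_lit 9) nil nil)) (node (nat_lit 4)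
  (nat_lit 95294) (nat_lit 8) nil nil)) (node (nat_lit 4) (nat_lit 97705) (nat_lit 7) (node
  (nat_lit 5) (nat_lit 97441) (nat_lit 8) (node (nat_lit 6) (nat_lit 95001) (nat_lit 9) (node
  (nat_lit 7) (nat_lit 93929) (nat_lit 10) nil nil) nil) nil) (node (nat_lit 0) (nat_lit 97191)
  (nat_lit 7) nil nil))) (node (nat_lit 0) (nat_lit 95487) (nat_lit 6) (node (nat_lit 7) (nat_lit
  96604) (nat_lit 7) nil (node (nat_lit 6) (nat_lit 99037) (nat_lit 7) nil nil)) nil)))) (node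
  (nat_lit 4) (nat_lit 80833) (nat_lit 5) (node (nat_lit 5) (nat_lit 76707) (nat_lit 6) (node
  (nat_lit 6) (nat_lit 68361) (nat_lit 7) nil (node (nat_lit 7) (nat_lit 77561) (nat_lit 7) (node
  (nat_lit 6) (nat_lit 78124) (nat_lit 8) nil (node (nat_lit 5) (nat_lit 78124) (nat_lit 8) (node
  (nat_lit 4) (nat_lit 78082) (nat_lit 9) (node (nat_lit 5) (nat_lit 72519) (nat_lit 10) (node
  (nat_lit 6) (nat_lit 72599) (nat_lit 11) nil nil) nil) nil) nil)) (node (nat_lit 4) (nat_lit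
  77561) (nat_lit 7) (node (nat_lit 7) (nat_lit 77458) (nat_lit 8) (node (nat_lit 5) (nat_lit
  78306) (nat_lit 9) (node (nat_lit 7) (nat_lit 77654) (nat_lit 10) nil nil) nil) nil) nil)))
  (node (nat_lit 6) (nat_lit 86322) (nat_lit 6) (node (nat_lit 4) (nat_lit 86322) (nat_lit 7)
  (node (nat_lit 7) (nat_lit 86322) (nat_lit 8) (node (nat_lit 6) (nat_lit 86322) (nat_lit 9)
  (node (nat_lit 7) (nat_lit 88140) (nat_lit 10) (node (nat_lit 4) (nat_lit 88078) (nat_lit 11)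
  (node (nat_lit 6) (nat_lit 87611) (nat_lit 12) (node (nat_lit 7) (nat_lit 86853) (nat_lit 13)
  (node (nat_lit 6) (nat_lit 86512) (nat_lit 14) (node (nat_lit 4) (nat_lit 86107) (nat_lit 15)
  nil (node (nat_lit 5) (nat_lit 87941) (nat_lit 15) nil nil)) nil) (node (nat_lit 5) (nat_lit
  90090) (nat_lit 13) nil nil)) nil) nil) nil) (node (nat_lit 4) (nat_lit 86322) (nat_lit 9) (node
  (nat_lit 6) (nat_lit 84269) (nat_lit 10) (node (nat_lit 7) (nat_lit 82494) (nat_lit 11) (node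
  (nat_lit 4) (nat_lit 82991) (nat_lit 12) nil nil) nil) nil) nil)) (node (nat_lit 5) (nat_lit
  85536) (nat_lit 8) (node (nat_lit 6) (nat_lit 75197) (nat_lit 9) (node (nat_lit 7) (nat_lit
  52792) (nat_lit 10) (node (nat_lit 4) (nat_lit 52617) (nat_lit 11) nil nil) nil) nil) nil))
  (node (nat_lit 5) (nat_lit 90362) (nat_lit 7) (node (nat_lit 4) (nat_lit 92001) (nat_lit 8) nil
  nil) (node (nat_lit 7) (nat_lit 86322) (nat_lit 7) (node (nat_lit 6) (nat_lit 86322) (nat_lit 8)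
  (node (nat_lit 4) (nat_lit 85881) (nat_lit 9) (node (nat_lit 7) (nat_lit 87065) (nat_lit 10)
  (node (nat_lit 6) (nat_lit 85568) (nat_lit 11) (node (nat_lit 7) (nat_lit 85243) (nat_lit 12)
  (node (nat_lit 4) (nat_lit 84834) (nat_lit 13) nil nil) nil) nil) (node (nat_lit 6) (nat_lit
  85199) (nat_lit 10) nil (node (nat_lit 5) (nat_lit 86285) (nat_lit 10) nil nil))) (node (nat_lit
  5) (nat_lit 92285) (nat_lit 9) nil nil)) (node (nat_lit 5) (nat_lit 91954) (nat_lit 8) (node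
  (nat_lit 4) (nat_lit 91954) (nat_lit 9) nil nil) nil)) (node (nat_lit 0) (nat_lit 90362)
  (nat_lit 7) nil nil)))) (node (nat_lit 7) (nat_lit 86322) (nat_lit 6) (node (nat_lit 6) (nat_lit
  86322) (nat_lit 7) (node (nat_lit 4) (nat_lit 86322) (nat_lit 8) (node (nat_lit 6) (nat_lit
  86671) (nat_lit 9) (node (nat_lit 7) (nat_lit 87396) (nat_lit 10) (node (nat_lit 4) (nat_lit
  87334) (nat_lit 11) (node (nat_lit 6) (nat_lit 86867) (nat_lit 12) nil nil) nil) (node (nat_lit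
  5) (nat_lit 92911) (nat_lit 10) nil nil)) (node (nat_lit 5) (nat_lit 87889) (nat_lit 9) (node
  (nat_lit 6) (nat_lit 88168) (nat_lit 10) (node (nat_lit 7) (nat_lit 68031) (nat_lit 11) (node
  (nat_lit 4) (nat_lit 54959) (nat_lit 12) nil nil) nil) nil) nil)) (node (nat_lit 7) (nat_lit
  86322) (nat_lit 8) (node (nat_lit 5) (nat_lit 92296) (nat_lit 9) (node (nat_lit 4) (nat_lit
  92107) (nat_lit 10) nil nil) (node (nat_lit 4) (nat_lit 85881) (nat_lit 9) nil (node (nat_lit 0)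
  (nat_lit 92296) (nat_lit 9) nil nil))) (node (nat_lit 5) (nat_lit 91954) (nat_lit 8) (node
  (nat_lit 6) (nat_lit 91097) (nat_lit 9) nil (node (nat_lit 4) (nat_lit 91097) (nat_lit 9) nil
  nil)) nil))) (node (nat_lit 5) (nat_lit 90362) (nat_lit 7) (node (nat_lit 4) (nat_lit 91880)
  (nat_lit 8) (node (nat_lit 5) (nat_lit 89448) (nat_lit 9) (node (nat_lit 6) (nat_lit 81967)
  (nat_lit 10) (node (nat_lit 7) (nat_lit 78971) (nat_lit 11) (node (nat_lit 4) (nat_lit 50490)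
  (nat_lit 12) nil nil) nil) nil) nil) nil) (node (nat_lit 0) (nat_lit 90362) (nat_lit 7) nil
  nil))) (node (nat_lit 0) (nat_lit 87862) (nat_lit 6) (node (nat_lit 7) (nat_lit 88394) (nat_lit
  7) nil (node (nat_lit 6) (nat_lit 89713) (nat_lit 7) (node (nat_lit 4) (nat_lit 90791) (nat_lit
  8) nil nil) (node (nat_lit 5) (nat_lit 90362) (nat_lit 7) (node (nat_lit 4) (nat_lit 88731)
  (nat_lit 8) nil nil) nil))) nil)))) (node (nat_lit 6) (nat_lit 75075) (nat_lit 5) (node (nat_lit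
  5) (nat_lit 82954) (nat_lit 6) (node (nat_lit 7) (nat_lit 88041) (nat_lit 7) (node (nat_lit 5)
  (nat_lit 90109) (nat_lit 8) (node (nat_lit 6) (nat_lit 95030) (nat_lit 9) (node (nat_lit 7)
  (nat_lit 97082) (nat_lit 10) nil nil) nil) (node (nat_lit 6) (nat_lit 90037) (nat_lit 8) (node
  (nat_lit 7) (nat_lit 94203) (nat_lit 9) (node (nat_lit 5) (nat_lit 95979) (nat_lit 10) nil nil)
  (node (nat_lit 4) (nat_lit 92040) (nat_lit 9) nil nil)) (node (nat_lit 4) (nat_lit 96337)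
  (nat_lit 8) nil (node (nat_lit 0) (nat_lit 96777) (nat_lit 8) nil nil)))) (node (nat_lit 6)
  (nat_lit 88074) (nat_lit 7) nil (node (nat_lit 4) (nat_lit 91581) (nat_lit 7) (node (nat_lit 6)
  (nat_lit 94156) (nat_lit 8) (node (nat_lit 7) (nat_lit 89396) (nat_lit 9) nil nil) (node
  (nat_lit 5) (nat_lit 86656) (nat_lit 8) (node (nat_lit 6) (nat_lit 82039) (nat_lit 9) (node
  (nat_lit 7) (nat_lit 65896) (nat_lit 10) (node (nat_lit 6) (nat_lit 40666) (nat_lit 11) nil nil)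
  nil) nil) nil)) (node (nat_lit 0) (nat_lit 94907) (nat_lit 7) nil nil)))) (node (nat_lit 4)
  (nat_lit 86322) (nat_lit 6) (node (nat_lit 7) (nat_lit 86322) (nat_lit 7) (node (nat_lit 4)
  (nat_lit 86322) (nat_lit 8) nil (node (nat_lit 6) (nat_lit 86322) (nat_lit 8) nil nil)) (node
  (nat_lit 5) (nat_lit 83507) (nat_lit 7) (node (nat_lit 6) (nat_lit 69548) (nat_lit 8) (node
  (nat_lit 7) (nat_lit 60682) (nat_lit 9) nil nil) nil) (node (nat_lit 6) (nat_lit 86322) (nat_lit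
  7) (node (nat_lit 7) (nat_lit 86322) (nat_lit 8) (node (nat_lit 4) (nat_lit 86322) (nat_lit 9)
  nil (node (nat_lit 6) (nat_lit 86322) (nat_lit 9) nil nil)) (node (nat_lit 5) (nat_lit 91954)
  (nat_lit 8) nil nil)) nil))) (node (nat_lit 0) (nat_lit 94206) (nat_lit 6) (node (nat_lit 7)
  (nat_lit 94425) (nat_lit 7) (node (nat_lit 6) (nat_lit 89661) (nat_lit 8) nil nil) (node
  (nat_lit 6) (nat_lit 94425) (nat_lit 7) nil nil)) nil))) (node (nat_lit 0) (nat_lit 89595)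
  (nat_lit 5) (node (nat_lit 5) (nat_lit 96649) (nat_lit 6) nil (node (nat_lit 6) (nat_lit 97055)
  (nat_lit 6) (node (nat_lit 7) (nat_lit 97204) (nat_lit 7) nil (node (nat_lit 5) (nat_lit 97888)
  (nat_lit 7) nil (node (nat_lit 4) (nat_lit 97204) (nat_lit 7) nil nil))) (node (nat_lit 7)
  (nat_lit 97204) (nat_lit 6) nil (node (nat_lit 4) (nat_lit 97204) (nat_lit 6) nil (node (nat_lit
  0) (nat_lit 97192) (nat_lit 6) nil nil))))) nil)))) t51))

noncomputable def t53 : Tr :=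
  (node (nat_lit 7) (nat_lit 49099) (nat_lit 6) (node (nat_lit 4) (nat_lit 51645) (nat_lit 7)
  (node (nat_lit 5) (nat_lit 57993) (nat_lit 8) (node (nat_lit 4) (nat_lit 57993) (nat_lit 9)
  (node (nat_lit 7) (nat_lit 57993) (nat_lit 10) (node (nat_lit 5) (nat_lit 28437) (nat_lit 11)
  nil (node (nat_lit 4) (nat_lit 57993) (nat_lit 11) (node (nat_lit 5) (nat_lit 58910) (nat_lit
  12) nil nil) nil)) nil) (node (nat_lit 7) (nat_lit 57993) (nat_lit 9) (node (nat_lit 5) (nat_lit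
  59441) (nat_lit 10) (node (nat_lit 4) (nat_lit 59441) (nat_lit 11) (node (nat_lit 7) (nat_lit
  59441) (nat_lit 12) (node (nat_lit 5) (nat_lit 59707) (nat_lit 13) (node (nat_lit 7) (nat_lit
  59707) (nat_lit 14) (node (nat_lit 4) (nat_lit 59707) (nat_lit 15) (node (nat_lit 7) (nat_lit
  59707) (nat_lit 16) (node (nat_lit 5) (nat_lit 59861) (nat_lit 17) (node (nat_lit 4) (nat_lit
  59861) (nat_lit 18) (node (nat_lit 5) (nat_lit 59895) (nat_lit 19) (node (nat_lit 7) (nat_lit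
  59895) (nat_lit 20) (node (nat_lit 5) (nat_lit 59916) (nat_lit 21) (node (nat_lit 4) (nat_lit
  59916) (nat_lit 22) (node (nat_lit 7) (nat_lit 59916) (nat_lit 23) (node (nat_lit 4) (nat_lit
  59916) (nat_lit 24) (node (nat_lit 5) (nat_lit 59937) (nat_lit 25) nil nil) nil) nil) nil) (node
  (nat_lit 4) (nat_lit 59895) (nat_lit 21) nil nil)) nil) (node (nat_lit 7) (nat_lit 59861)
  (nat_lit 19) nil nil)) nil) nil) (node (nat_lit 5) (nat_lit 59835) (nat_lit 16) (node (nat_lit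
  4) (nat_lit 59835) (nat_lit 17) (node (nat_lit 7) (nat_lit 59835) (nat_lit 18) (node (nat_lit 5)
  (nat_lit 59895) (nat_lit 19) nil nil) nil) nil) (node (nat_lit 3) (nat_lit 59707) (nat_lit 16)
  (node (nat_lit 4) (nat_lit 59707) (nat_lit 17) nil (node (nat_lit 7) (nat_lit 59707) (nat_lit
  17) nil nil)) (node (nat_lit 0) (nat_lit 59835) (nat_lit 16) (node (nat_lit 7) (nat_lit 59835)
  (nat_lit 17) nil nil) nil)))) nil) nil) (node (nat_lit 4) (nat_lit 59441) (nat_lit 13) (node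
  (nat_lit 5) (nat_lit 59762) (nat_lit 14) (node (nat_lit 4) (nat_lit 59762) (nat_lit 15) (node
  (nat_lit 7) (nat_lit 59762) (nat_lit 16) (node (nat_lit 5) (nat_lit 59861) (nat_lit 17) (node
  (nat_lit 7) (nat_lit 58073) (nat_lit 18) (node (nat_lit 4) (nat_lit 54146) (nat_lit 19) (node
  (nat_lit 5) (nat_lit 46841) (nat_lit 20) (node (nat_lit 7) (nat_lit 34848) (nat_lit 21) (node
  (nat_lit 5) (nat_lit 30373) (nat_lit 22) (node (nat_lit 4) (nat_lit 29806) (nat_lit 23) nil nil)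
  nil) nil) nil) nil) nil) nil) nil) nil) nil) nil)) (node (nat_lit 5) (nat_lit 59637) (nat_lit
  12) (node (nat_lit 7) (nat_lit 59637) (nat_lit 13) (node (nat_lit 4) (nat_lit 59637) (nat_lit
  14) (node (nat_lit 5) (nat_lit 59804) (nat_lit 15) (node (nat_lit 4) (nat_lit 59804) (nat_lit
  16) (node (nat_lit 7) (nat_lit 59804) (nat_lit 17) (node (nat_lit 5) (nat_lit 59880) (nat_lit
  18) (node (nat_lit 7) (nat_lit 59880) (nat_lit 19) (node (nat_lit 4) (nat_lit 59880) (nat_lit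
  20) (node (nat_lit 5) (nat_lit 59916) (nat_lit 21) (node (nat_lit 7) (nat_lit 59916) (nat_lit
  22) (node (nat_lit 5) (nat_lit 59929) (nat_lit 23) (node (nat_lit 4) (nat_lit 59929) (nat_lit
  24) nil nil) nil) nil) nil) nil) nil) nil) nil) nil) nil) nil) nil) nil)) nil) (node (nat_lit 3)
  (nat_lit 57993) (nat_lit 10) nil nil)) (node (nat_lit 3) (nat_lit 57993) (nat_lit 9) (node
  (nat_lit 4) (nat_lit 57993) (nat_lit 10) (node (nat_lit 5) (nat_lit 58748) (nat_lit 11) (node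
  (nat_lit 4) (nat_lit 58748) (nat_lit 12) (node (nat_lit 7) (nat_lit 58748) (nat_lit 13) (node
  (nat_lit 5) (nat_lit 59137) (nat_lit 14) (node (nat_lit 7) (nat_lit 59137) (nat_lit 15) (node
  (nat_lit 4) (nat_lit 59137) (nat_lit 16) nil nil) nil) nil) nil) nil) nil) nil) (node (nat_lit
  0) (nat_lit 58308) (nat_lit 9) nil nil)))) (node (nat_lit 3) (nat_lit 52740) (nat_lit 8) (node
  (nat_lit 7) (nat_lit 53666) (nat_lit 9) (node (nat_lit 4) (nat_lit 54599) (nat_lit 10) (node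
  (nat_lit 5) (nat_lit 55986) (nat_lit 11) (node (nat_lit 4) (nat_lit 52909) (nat_lit 12) (node
  (nat_lit 7) (nat_lit 47649) (nat_lit 13) (node (nat_lit 5) (nat_lit 44337) (nat_lit 14) (node
  (nat_lit 7) (nat_lit 29466) (nat_lit 15) nil nil) nil) nil) nil) nil) (node (nat_lit 11)
  (nat_lit 54599) (nat_lit 10) nil nil)) (node (nat_lit 4) (nat_lit 52740) (nat_lit 9) (node
  (nat_lit 5) (nat_lit 53146) (nat_lit 10) (node (nat_lit 4) (nat_lit 52118) (nat_lit 11) (node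
  (nat_lit 7) (nat_lit 45241) (nat_lit 12) (node (nat_lit 5) (nat_lit 31290) (nat_lit 13) nil nil)
  nil) nil) nil) (node (nat_lit 5) (nat_lit 54968) (nat_lit 9) (node (nat_lit 7) (nat_lit 54968)
  (nat_lit 10) nil nil) (node (nat_lit 0) (nat_lit 54968) (nat_lit 9) nil nil)))) (node (nat_lit
  7) (nat_lit 52022) (nat_lit 8) (node (nat_lit 5) (nat_lit 57047) (nat_lit 9) (node (nat_lit 4)
  (nat_lit 57047) (nat_lit 10) (node (nat_lit 7) (nat_lit 57047) (nat_lit 11) (node (nat_lit 4)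
  (nat_lit 57047) (nat_lit 12) (node (nat_lit 5) (nat_lit 57565) (nat_lit 13) (node (nat_lit 4)
  (nat_lit 57565) (nat_lit 14) (node (nat_lit 7) (nat_lit 57565) (nat_lit 15) (node (nat_lit 5)
  (nat_lit 57082) (nat_lit 16) (node (nat_lit 7) (nat_lit 52430) (nat_lit 17) (node (nat_lit 4)
  (nat_lit 45239) (nat_lit 18) (node (nat_lit 7) (nat_lit 37700) (nat_lit 19) (node (nat_lit 5)
  (nat_lit 28842) (nat_lit 20) (node (nat_lit 4) (nat_lit 27093) (nat_lit 21) nil nil) nil) nil)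
  nil) nil) nil) nil) nil) nil) nil) (node (nat_lit 5) (nat_lit 57406) (nat_lit 11) (node (nat_lit
  7) (nat_lit 57406) (nat_lit 12) (node (nat_lit 4) (nat_lit 57406) (nat_lit 13) (node (nat_lit 5)
  (nat_lit 57619) (nat_lit 14) (node (nat_lit 4) (nat_lit 57619) (nat_lit 15) (node (nat_lit 7)
  (nat_lit 57619) (nat_lit 16) (node (nat_lit 5) (nat_lit 57718) (nat_lit 17) (node (nat_lit 7)
  (nat_lit 57718) (nat_lit 18) (node (nat_lit 4) (nat_lit 57718) (nat_lit 19) (node (nat_lit 7)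
  (nat_lit 57718) (nat_lit 20) (node (nat_lit 5) (nat_lit 57773) (nat_lit 21) (node (nat_lit 4)
  (nat_lit 57773) (nat_lit 22) nil nil) nil) nil) nil) nil) nil) nil) nil) nil) nil) nil) nil))
  nil) (node (nat_lit 3) (nat_lit 52022) (nat_lit 9) nil (node (nat_lit 0) (nat_lit 54227)
  (nat_lit 9) nil nil))) (node (nat_lit 0) (nat_lit 57222) (nat_lit 8) (node (nat_lit 3) (nat_lit
  57222) (nat_lit 9) (node (nat_lit 7) (nat_lit 57222) (nat_lit 10) nil (node (nat_lit 4) (nat_lit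
  57222) (nat_lit 10) nil nil)) (node (nat_lit 7) (nat_lit 57222) (nat_lit 9) nil nil)) nil))))
  (node (nat_lit 3) (nat_lit 52402) (nat_lit 7) (node (nat_lit 5) (nat_lit 57497) (nat_lit 8)
  (node (nat_lit 7) (nat_lit 57497) (nat_lit 9) (node (nat_lit 5) (nat_lit 57901) (nat_lit 10)
  (node (nat_lit 4) (nat_lit 57901) (nat_lit 11) (node (nat_lit 7) (nat_lit 57901) (nat_lit 12)
  (node (nat_lit 5) (nat_lit 58232) (nat_lit 13) (node (nat_lit 7) (nat_lit 58232) (nat_lit 14)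
  nil nil) nil) nil) nil) nil) (node (nat_lit 10) (nat_lit 57497) (nat_lit 9) nil nil)) (node
  (nat_lit 7) (nat_lit 52811) (nat_lit 8) (node (nat_lit 5) (nat_lit 55039) (nat_lit 9) (node
  (nat_lit 4) (nat_lit 55039) (nat_lit 10) (node (nat_lit 7) (nat_lit 55039) (nat_lit 11) nil nil)
  (node (nat_lit 10) (nat_lit 55039) (nat_lit 10) nil nil)) (node (nat_lit 4) (nat_lit 52811)
  (nat_lit 9) (node (nat_lit 5) (nat_lit 53957) (nat_lit 10) nil (node (nat_lit 7) (nat_lit 52948)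
  (nat_lit 10) (node (nat_lit 10) (nat_lit 52646) (nat_lit 11) nil nil) nil)) nil)) (node (nat_lit
  4) (nat_lit 52402) (nat_lit 8) (node (nat_lit 5) (nat_lit 53137) (nat_lit 9) (node (nat_lit 4)
  (nat_lit 44910) (nat_lit 10) (node (nat_lit 7) (nat_lit 33034) (nat_lit 11) nil nil) nil) nil)
  (node (nat_lit 0) (nat_lit 54377) (nat_lit 8) nil nil)))) (node (nat_lit 0) (nat_lit 56878)
  (nat_lit 7) (node (nat_lit 7) (nat_lit 56878) (nat_lit 8) nil (node (nat_lit 3) (nat_lit 56878)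
  (nat_lit 8) nil (node (nat_lit 5) (nat_lit 57332) (nat_lit 8) nil nil))) nil))) (node (nat_lit
  4) (nat_lit 48649) (nat_lit 6) (node (nat_lit 5) (nat_lit 55238) (nat_lit 7) (node (nat_lit 7)
  (nat_lit 56830) (nat_lit 8) (node (nat_lit 4) (nat_lit 56900) (nat_lit 9) (node (nat_lit 5)
  (nat_lit 58840) (nat_lit 10) (node (nat_lit 4) (nat_lit 58840) (nat_lit 11) (node (nat_lit 7)
  (nat_lit 58840) (nat_lit 12) (node (nat_lit 5) (nat_lit 59327) (nat_lit 13) (node (nat_lit 4)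
  (nat_lit 59327) (nat_lit 14) (node (nat_lit 5) (nat_lit 27862) (nat_lit 15) nil nil) nil) nil)
  nil) nil) (node (nat_lit 7) (nat_lit 57116) (nat_lit 10) (node (nat_lit 5) (nat_lit 59178)
  (nat_lit 11) (node (nat_lit 7) (nat_lit 59178) (nat_lit 12) (node (nat_lit 4) (nat_lit 59178)
  (nat_lit 13) (node (nat_lit 5) (nat_lit 59783) (nat_lit 14) (node (nat_lit 4) (nat_lit 59783)
  (nat_lit 15) (node (nat_lit 7) (nat_lit 59783) (nat_lit 16) (node (nat_lit 5) (nat_lit 59963)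
  (nat_lit 17) (node (nat_lit 4) (nat_lit 59963) (nat_lit 18) (node (nat_lit 5) (nat_lit 60013)
  (nat_lit 19) (node (nat_lit 7) (nat_lit 60013) (nat_lit 20) (node (nat_lit 4) (nat_lit 60013)
  (nat_lit 21) nil nil) nil) nil) nil) nil) nil) nil) nil) nil) nil) nil) nil)) (node (nat_lit 5)
  (nat_lit 59115) (nat_lit 9) (node (nat_lit 4) (nat_lit 59115) (nat_lit 10) (node (nat_lit 7)
  (nat_lit 59115) (nat_lit 11) (node (nat_lit 4) (nat_lit 59115) (nat_lit 12) (node (nat_lit 5)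
  (nat_lit 59844) (nat_lit 13) (node (nat_lit 4) (nat_lit 59844) (nat_lit 14) (node (nat_lit 7)
  (nat_lit 59844) (nat_lit 15) (node (nat_lit 5) (nat_lit 59972) (nat_lit 16) (node (nat_lit 4)
  (nat_lit 56213) (nat_lit 17) (node (nat_lit 5) (nat_lit 48565) (nat_lit 18) (node (nat_lit 7)
  (nat_lit 45651) (nat_lit 19) (node (nat_lit 5) (nat_lit 27707) (nat_lit 20) nil nil) nil) nil)
  nil) nil) nil) nil) nil) (node (nat_lit 5) (nat_lit 59913) (nat_lit 12) (node (nat_lit 7)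
  (nat_lit 59913) (nat_lit 13) (node (nat_lit 4) (nat_lit 59913) (nat_lit 14) (node (nat_lit 5)
  (nat_lit 59989) (nat_lit 15) (node (nat_lit 4) (nat_lit 59989) (nat_lit 16) (node (nat_lit 7)
  (nat_lit 59989) (nat_lit 17) (node (nat_lit 5) (nat_lit 60013) (nat_lit 18) (node (nat_lit 4)
  (nat_lit 60013) (nat_lit 19) (node (nat_lit 5) (nat_lit 60022) (nat_lit 20) (node (nat_lit 7)
  (nat_lit 60022) (nat_lit 21) (node (nat_lit 5) (nat_lit 60027) (nat_lit 22) (node (nat_lit 4)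
  (nat_lit 60027) (nat_lit 23) (node (nat_lit 7) (nat_lit 60027) (nat_lit 24) nil nil) nil) nil)
  nil) nil) nil) nil) nil) nil) nil) nil) nil) nil)) nil) nil) (node (nat_lit 3) (nat_lit 57088)
  (nat_lit 9) (node (nat_lit 4) (nat_lit 57088) (nat_lit 10) (node (nat_lit 5) (nat_lit 58121)
  (nat_lit 11) (node (nat_lit 4) (nat_lit 54859) (nat_lit 12) (node (nat_lit 7) (nat_lit 50845)
  (nat_lit 13) (node (nat_lit 5) (nat_lit 44942) (nat_lit 14) nil nil) nil) nil) nil) nil) (node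
  (nat_lit 0) (nat_lit 58509) (nat_lit 9) nil nil)))) (node (nat_lit 3) (nat_lit 57356) (nat_lit
  8) (node (nat_lit 4) (nat_lit 57253) (nat_lit 9) (node (nat_lit 5) (nat_lit 58763) (nat_lit 10)
  (node (nat_lit 4) (nat_lit 58763) (nat_lit 11) (node (nat_lit 7) (nat_lit 58763) (nat_lit 12)
  (node (nat_lit 5) (nat_lit 59082) (nat_lit 13) (node (nat_lit 4) (nat_lit 59082) (nat_lit 14)
  (node (nat_lit 5) (nat_lit 29830) (nat_lit 15) nil nil) nil) nil) nil) nil) nil) (node (nat_lit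
  7) (nat_lit 57254) (nat_lit 9) nil (node (nat_lit 5) (nat_lit 58852) (nat_lit 9) (node (nat_lit
  4) (nat_lit 58852) (nat_lit 10) (node (nat_lit 7) (nat_lit 58852) (nat_lit 11) nil nil) (node
  (nat_lit 7) (nat_lit 58852) (nat_lit 10) nil nil)) nil))) (node (nat_lit 0) (nat_lit 58466)
  (nat_lit 8) (node (nat_lit 5) (nat_lit 58929) (nat_lit 9) nil nil) nil))) (node (nat_lit 3)
  (nat_lit 53005) (nat_lit 7) (node (nat_lit 7) (nat_lit 53590) (nat_lit 8) (node (nat_lit 4)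
  (nat_lit 53645) (nat_lit 9) (node (nat_lit 5) (nat_lit 55227) (nat_lit 10) (node (nat_lit 4)
  (nat_lit 49643) (nat_lit 11) (node (nat_lit 7) (nat_lit 43070) (nat_lit 12) (node (nat_lit 5)
  (nat_lit 28361) (nat_lit 13) nil nil) nil) nil) nil) (node (nat_lit 10) (nat_lit 54388) (nat_lit
  9) (node (nat_lit 4) (nat_lit 55182) (nat_lit 10) (node (nat_lit 5) (nat_lit 55025) (nat_lit 11)
  (node (nat_lit 4) (nat_lit 52438) (nat_lit 12) nil nil) nil) (node (nat_lit 5) (nat_lit 57583)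
  (nat_lit 10) nil nil)) nil)) (node (nat_lit 4) (nat_lit 54039) (nat_lit 8) (node (nat_lit 5)
  (nat_lit 57936) (nat_lit 9) (node (nat_lit 4) (nat_lit 39235) (nat_lit 10) (node (nat_lit 7)
  (nat_lit 31755) (nat_lit 11) (node (nat_lit 5) (nat_lit 32025) (nat_lit 12) nil nil) nil) nil)
  (node (nat_lit 7) (nat_lit 54771) (nat_lit 9) nil nil)) (node (nat_lit 5) (nat_lit 58038)
  (nat_lit 8) (node (nat_lit 10) (nat_lit 58038) (nat_lit 9) nil (node (nat_lit 7) (nat_lit 58038)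
  (nat_lit 9) nil nil)) (node (nat_lit 0) (nat_lit 57178) (nat_lit 8) nil nil)))) (node (nat_lit
  0) (nat_lit 57497) (nat_lit 7) (node (nat_lit 4) (nat_lit 57527) (nat_lit 8) nil (node (nat_lit
  7) (nat_lit 57497) (nat_lit 8) (node (nat_lit 4) (nat_lit 57497) (nat_lit 9) (node (nat_lit 5)
  (nat_lit 58342) (nat_lit 10) (node (nat_lit 4) (nat_lit 58342) (nat_lit 11) (node (nat_lit 7)
  (nat_lit 58342) (nat_lit 12) nil nil) nil) nil) nil) (node (nat_lit 5) (nat_lit 58525) (nat_lit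
  8) nil nil))) nil))) (node (nat_lit 3) (nat_lit 52133) (nat_lit 6) (node (nat_lit 7) (nat_lit
  53227) (nat_lit 7) (node (nat_lit 4) (nat_lit 53007) (nat_lit 8) (node (nat_lit 5) (nat_lit
  54871) (nat_lit 9) (node (nat_lit 4) (nat_lit 45773) (nat_lit 10) (node (nat_lit 7) (nat_lit
  35592) (nat_lit 11) (node (nat_lit 5) (nat_lit 27633) (nat_lit 12) nil nil) nil) nil) (node
  (nat_lit 9) (nat_lit 53007) (nat_lit 9) (node (nat_lit 4) (nat_lit 53104) (nat_lit 10) nil nil)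
  nil)) (node (nat_lit 9) (nat_lit 53627) (nat_lit 8) (node (nat_lit 5) (nat_lit 55855) (nat_lit
  9) (node (nat_lit 4) (nat_lit 55855) (nat_lit 10) (node (nat_lit 7) (nat_lit 55855) (nat_lit 11)
  nil nil) (node (nat_lit 7) (nat_lit 55855) (nat_lit 10) (node (nat_lit 4) (nat_lit 55855)
  (nat_lit 11) (node (nat_lit 5) (nat_lit 56222) (nat_lit 12) nil nil) nil) (node (nat_lit 9)
  (nat_lit 55855) (nat_lit 10) (node (nat_lit 4) (nat_lit 55855) (nat_lit 11) nil (node (nat_lit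
  7) (nat_lit 55855) (nat_lit 11) nil nil)) nil))) (node (nat_lit 4) (nat_lit 53627) (nat_lit 9)
  (node (nat_lit 5) (nat_lit 55992) (nat_lit 10) nil nil) nil)) (node (nat_lit 5) (nat_lit 56425)
  (nat_lit 8) (node (nat_lit 7) (nat_lit 56425) (nat_lit 9) (node (nat_lit 9) (nat_lit 56425)
  (nat_lit 10) nil (node (nat_lit 4) (nat_lit 56425) (nat_lit 10) (node (nat_lit 5) (nat_lit
  56968) (nat_lit 11) (node (nat_lit 4) (nat_lit 56968) (nat_lit 12) (node (nat_lit 7) (nat_lit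
  56968) (nat_lit 13) (node (nat_lit 5) (nat_lit 57226) (nat_lit 14) nil nil) nil) nil) nil) nil))
  nil) (node (nat_lit 0) (nat_lit 56425) (nat_lit 8) nil nil)))) (node (nat_lit 5) (nat_lit 57566)
  (nat_lit 7) (node (nat_lit 7) (nat_lit 57566) (nat_lit 8) (node (nat_lit 5) (nat_lit 58274)
  (nat_lit 9) (node (nat_lit 9) (nat_lit 58274) (nat_lit 10) (node (nat_lit 7) (nat_lit 58274)
  (nat_lit 11) nil nil) nil) (node (nat_lit 9) (nat_lit 57566) (nat_lit 9) (node (nat_lit 7)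
  (nat_lit 57566) (nat_lit 10) nil nil) (node (nat_lit 4) (nat_lit 57566) (nat_lit 9) (node
  (nat_lit 5) (nat_lit 58411) (nat_lit 10) (node (nat_lit 4) (nat_lit 58411) (nat_lit 11) (node
  (nat_lit 7) (nat_lit 58411) (nat_lit 12) (node (nat_lit 5) (nat_lit 58722) (nat_lit 13) nil nil)
  nil) nil) nil) nil))) (node (nat_lit 4) (nat_lit 57566) (nat_lit 8) (node (nat_lit 7) (nat_lit
  57566) (nat_lit 9) nil (node (nat_lit 9) (nat_lit 57566) (nat_lit 9) (node (nat_lit 4) (nat_lit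
  57566) (nat_lit 10) (node (nat_lit 5) (nat_lit 58531) (nat_lit 11) nil nil) (node (nat_lit 7)
  (nat_lit 57566) (nat_lit 10) nil nil)) (node (nat_lit 5) (nat_lit 58274) (nat_lit 9) (node
  (nat_lit 9) (nat_lit 58274) (nat_lit 10) (node (nat_lit 4) (nat_lit 58274) (nat_lit 11) (node
  (nat_lit 5) (nat_lit 58640) (nat_lit 12) nil nil) nil) (node (nat_lit 7) (nat_lit 58274)
  (nat_lit 10) nil nil)) nil))) (node (nat_lit 0) (nat_lit 58228) (nat_lit 8) nil nil))) (node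
  (nat_lit 4) (nat_lit 52333) (nat_lit 7) (node (nat_lit 5) (nat_lit 56208) (nat_lit 8) (node
  (nat_lit 4) (nat_lit 56208) (nat_lit 9) (node (nat_lit 7) (nat_lit 56208) (nat_lit 10) (node
  (nat_lit 5) (nat_lit 28005) (nat_lit 11) nil nil) nil) (node (nat_lit 7) (nat_lit 56208)
  (nat_lit 9) nil nil)) (node (nat_lit 9) (nat_lit 52601) (nat_lit 8) nil (node (nat_lit 7)
  (nat_lit 52333) (nat_lit 8) (node (nat_lit 9) (nat_lit 52333) (nat_lit 9) nil nil) nil))) (node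
  (nat_lit 0) (nat_lit 55666) (nat_lit 7) (node (nat_lit 9) (nat_lit 55666) (nat_lit 8) (node
  (nat_lit 4) (nat_lit 55666) (nat_lit 9) nil nil) (node (nat_lit 7) (nat_lit 55666) (nat_lit 8)
  nil nil)) nil)))) (node (nat_lit 0) (nat_lit 55087) (nat_lit 6) (node (nat_lit 7) (nat_lit
  55087) (nat_lit 7) (node (nat_lit 4) (nat_lit 55087) (nat_lit 8) (node (nat_lit 5) (nat_lit
  56382) (nat_lit 9) (node (nat_lit 4) (nat_lit 56382) (nat_lit 10) (node (nat_lit 7) (nat_lit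
  56382) (nat_lit 11) (node (nat_lit 5) (nat_lit 56749) (nat_lit 12) nil nil) nil) nil) nil) (node
  (nat_lit 9) (nat_lit 56128) (nat_lit 8) nil nil)) (node (nat_lit 4) (nat_lit 55087) (nat_lit 7)
  (node (nat_lit 7) (nat_lit 55087) (nat_lit 8) (node (nat_lit 4) (nat_lit 55087) (nat_lit 9) nil
  nil) nil) (node (nat_lit 5) (nat_lit 56301) (nat_lit 7) (node (nat_lit 4) (nat_lit 56301)
  (nat_lit 8) (node (nat_lit 7) (nat_lit 56301) (nat_lit 9) nil nil) (node (nat_lit 3) (nat_lit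
  56301) (nat_lit 8) nil (node (nat_lit 7) (nat_lit 56301) (nat_lit 8) (node (nat_lit 4) (nat_lit
  56301) (nat_lit 9) (node (nat_lit 5) (nat_lit 57146) (nat_lit 10) nil nil) nil) nil))) (node
  (nat_lit 3) (nat_lit 55087) (nat_lit 7) (node (nat_lit 4) (nat_lit 55087) (nat_lit 8) (node
  (nat_lit 5) (nat_lit 56382) (nat_lit 9) nil nil) (node (nat_lit 7) (nat_lit 55087) (nat_lit 8)
  nil nil)) (node (nat_lit 0) (nat_lit 56301) (nat_lit 7) nil nil))))) nil))))

noncomputable def t54 : Tr :=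
  (node (nat_lit 5) (nat_lit 38631) (nat_lit 6) (node (nat_lit 7) (nat_lit 42650) (nat_lit 7)
  (node (nat_lit 5) (nat_lit 45946) (nat_lit 8) (node (nat_lit 4) (nat_lit 46023) (nat_lit 9)
  (node (nat_lit 7) (nat_lit 46069) (nat_lit 10) (node (nat_lit 5) (nat_lit 48071) (nat_lit 11)
  (node (nat_lit 7) (nat_lit 48034) (nat_lit 12) (node (nat_lit 4) (nat_lit 48034) (nat_lit 13)
  (node (nat_lit 5) (nat_lit 48235) (nat_lit 14) (node (nat_lit 4) (nat_lit 48235) (nat_lit 15)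
  (node (nat_lit 7) (nat_lit 48235) (nat_lit 16) (node (nat_lit 4) (nat_lit 48235) (nat_lit 17)
  (node (nat_lit 5) (nat_lit 48315) (nat_lit 18) (node (nat_lit 7) (nat_lit 48315) (nat_lit 19)
  (node (nat_lit 5) (nat_lit 48334) (nat_lit 20) (node (nat_lit 4) (nat_lit 48334) (nat_lit 21)
  (node (nat_lit 7) (nat_lit 48334) (nat_lit 22) (node (nat_lit 5) (nat_lit 30210) (nat_lit 23)
  nil nil) nil) nil) nil) nil) nil) nil) nil) (node (nat_lit 7) (nat_lit 48235) (nat_lit 15) (node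
  (nat_lit 5) (nat_lit 48285) (nat_lit 16) (node (nat_lit 4) (nat_lit 48285) (nat_lit 17) nil nil)
  nil) (node (nat_lit 3) (nat_lit 48235) (nat_lit 15) nil nil))) (node (nat_lit 7) (nat_lit 48034)
  (nat_lit 14) nil (node (nat_lit 3) (nat_lit 48034) (nat_lit 14) (node (nat_lit 4) (nat_lit
  47985) (nat_lit 15) nil (node (nat_lit 7) (nat_lit 48011) (nat_lit 15) nil nil)) (node (nat_lit
  0) (nat_lit 48235) (nat_lit 14) (node (nat_lit 7) (nat_lit 48235) (nat_lit 15) nil nil) nil))))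
  (node (nat_lit 3) (nat_lit 48034) (nat_lit 13) (node (nat_lit 5) (nat_lit 48235) (nat_lit 14)
  (node (nat_lit 7) (nat_lit 48235) (nat_lit 15) nil nil) (node (nat_lit 4) (nat_lit 48034)
  (nat_lit 14) nil (node (nat_lit 7) (nat_lit 48034) (nat_lit 14) nil nil))) (node (nat_lit 0)
  (nat_lit 48200) (nat_lit 13) (node (nat_lit 7) (nat_lit 48200) (nat_lit 14) nil nil) nil)))
  (node (nat_lit 0) (nat_lit 48154) (nat_lit 12) (node (nat_lit 7) (nat_lit 48154) (nat_lit 13)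
  (node (nat_lit 4) (nat_lit 48154) (nat_lit 14) nil nil) (node (nat_lit 4) (nat_lit 48154)
  (nat_lit 13) nil (node (nat_lit 5) (nat_lit 48200) (nat_lit 13) (node (nat_lit 7) (nat_lit
  48200) (nat_lit 14) nil nil) nil))) (node (nat_lit 3) (nat_lit 48071) (nat_lit 12) (node
  (nat_lit 7) (nat_lit 48071) (nat_lit 13) (node (nat_lit 4) (nat_lit 48071) (nat_lit 14) nil nil)
  (node (nat_lit 4) (nat_lit 48071) (nat_lit 13) (node (nat_lit 5) (nat_lit 48235) (nat_lit 14)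
  nil nil) (node (nat_lit 5) (nat_lit 48200) (nat_lit 13) (node (nat_lit 7) (nat_lit 48200)
  (nat_lit 14) nil nil) nil))) nil))) (node (nat_lit 0) (nat_lit 47978) (nat_lit 11) (node
  (nat_lit 4) (nat_lit 47978) (nat_lit 12) (node (nat_lit 7) (nat_lit 47978) (nat_lit 13) (node
  (nat_lit 4) (nat_lit 47978) (nat_lit 14) nil nil) (node (nat_lit 14) (nat_lit 48200) (nat_lit
  13) nil nil)) (node (nat_lit 7) (nat_lit 47978) (nat_lit 12) (node (nat_lit 4) (nat_lit 47978)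
  (nat_lit 13) (node (nat_lit 5) (nat_lit 48235) (nat_lit 14) (node (nat_lit 4) (nat_lit 48235)
  (nat_lit 15) nil nil) nil) (node (nat_lit 5) (nat_lit 48200) (nat_lit 13) nil nil)) (node
  (nat_lit 5) (nat_lit 48154) (nat_lit 12) (node (nat_lit 7) (nat_lit 48154) (nat_lit 13) nil nil)
  (node (nat_lit 3) (nat_lit 47978) (nat_lit 12) (node (nat_lit 7) (nat_lit 47978) (nat_lit 13)
  nil nil) (node (nat_lit 0) (nat_lit 48154) (nat_lit 12) (node (nat_lit 7) (nat_lit 48154)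
  (nat_lit 13) nil nil) nil))))) (node (nat_lit 3) (nat_lit 46582) (nat_lit 11) (node (nat_lit 4)
  (nat_lit 46481) (nat_lit 12) (node (nat_lit 7) (nat_lit 46808) (nat_lit 13) (node (nat_lit 4)
  (nat_lit 46485) (nat_lit 14) nil nil) (node (nat_lit 5) (nat_lit 47517) (nat_lit 13) (node
  (nat_lit 4) (nat_lit 47517) (nat_lit 14) (node (nat_lit 7) (nat_lit 46691) (nat_lit 15) nil nil)
  nil) (node (nat_lit 14) (nat_lit 46381) (nat_lit 13) (node (nat_lit 7) (nat_lit 46324) (nat_lit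
  14) nil nil) nil))) (node (nat_lit 7) (nat_lit 47028) (nat_lit 12) (node (nat_lit 4) (nat_lit
  46991) (nat_lit 13) (node (nat_lit 5) (nat_lit 47821) (nat_lit 14) (node (nat_lit 4) (nat_lit
  47653) (nat_lit 15) nil nil) (node (nat_lit 14) (nat_lit 47185) (nat_lit 14) nil nil)) (node
  (nat_lit 5) (nat_lit 48063) (nat_lit 13) nil nil)) (node (nat_lit 5) (nat_lit 47882) (nat_lit
  12) (node (nat_lit 7) (nat_lit 47882) (nat_lit 13) nil (node (nat_lit 14) (nat_lit 47882)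
  (nat_lit 13) nil nil)) (node (nat_lit 0) (nat_lit 47882) (nat_lit 12) (node (nat_lit 7) (nat_lit
  47882) (nat_lit 13) nil (node (nat_lit 14) (nat_lit 47882) (nat_lit 13) nil nil)) nil)))) (node
  (nat_lit 4) (nat_lit 46466) (nat_lit 11) (node (nat_lit 3) (nat_lit 46882) (nat_lit 12) (node
  (nat_lit 7) (nat_lit 46278) (nat_lit 13) (node (nat_lit 4) (nat_lit 46268) (nat_lit 14) (node
  (nat_lit 5) (nat_lit 46731) (nat_lit 15) nil nil) (node (nat_lit 15) (nat_lit 46472) (nat_lit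
  14) nil nil)) (node (nat_lit 4) (nat_lit 46781) (nat_lit 13) (node (nat_lit 5) (nat_lit 47611)
  (nat_lit 14) (node (nat_lit 4) (nat_lit 47611) (nat_lit 15) nil nil) (node (nat_lit 7) (nat_lit
  46724) (nat_lit 14) nil nil)) (node (nat_lit 5) (nat_lit 47917) (nat_lit 13) nil nil))) (node
  (nat_lit 0) (nat_lit 48014) (nat_lit 12) (node (nat_lit 4) (nat_lit 48014) (nat_lit 13) (node
  (nat_lit 7) (nat_lit 48014) (nat_lit 14) nil nil) (node (nat_lit 7) (nat_lit 48014) (nat_lit 13)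
  (node (nat_lit 4) (nat_lit 48014) (nat_lit 14) (node (nat_lit 5) (nat_lit 48216) (nat_lit 15)
  nil nil) nil) (node (nat_lit 5) (nat_lit 48153) (nat_lit 13) nil nil))) (node (nat_lit 5)
  (nat_lit 47767) (nat_lit 12) nil nil))) nil)))) (node (nat_lit 5) (nat_lit 47523) (nat_lit 10)
  (node (nat_lit 7) (nat_lit 47523) (nat_lit 11) (node (nat_lit 4) (nat_lit 47523) (nat_lit 12)
  (node (nat_lit 7) (nat_lit 47523) (nat_lit 13) nil (node (nat_lit 5) (nat_lit 48153) (nat_lit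
  13) (node (nat_lit 4) (nat_lit 48153) (nat_lit 14) (node (nat_lit 7) (nat_lit 48153) (nat_lit
  15) (node (nat_lit 4) (nat_lit 48153) (nat_lit 16) (node (nat_lit 5) (nat_lit 48255) (nat_lit
  17) (node (nat_lit 7) (nat_lit 48255) (nat_lit 18) (node (nat_lit 5) (nat_lit 48278) (nat_lit
  19) (node (nat_lit 4) (nat_lit 48278) (nat_lit 20) nil nil) nil) nil) nil) nil) nil) nil) nil))
  (node (nat_lit 3) (nat_lit 47523) (nat_lit 12) nil nil)) (node (nat_lit 3) (nat_lit 47523)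
  (nat_lit 11) (node (nat_lit 4) (nat_lit 47523) (nat_lit 12) nil nil) nil)) (node (nat_lit 3)
  (nat_lit 46023) (nat_lit 10) (node (nat_lit 7) (nat_lit 46023) (nat_lit 11) nil (node (nat_lit
  4) (nat_lit 46023) (nat_lit 11) (node (nat_lit 5) (nat_lit 47324) (nat_lit 12) nil nil) nil))
  (node (nat_lit 0) (nat_lit 46816) (nat_lit 10) (node (nat_lit 7) (nat_lit 46816) (nat_lit 11)
  nil nil) nil)))) (node (nat_lit 3) (nat_lit 45946) (nat_lit 9) (node (nat_lit 7) (nat_lit 45946)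
  (nat_lit 10) nil (node (nat_lit 4) (nat_lit 45946) (nat_lit 10) (node (nat_lit 5) (nat_lit
  47018) (nat_lit 11) (node (nat_lit 4) (nat_lit 47018) (nat_lit 12) (node (nat_lit 7) (nat_lit
  47018) (nat_lit 13) (node (nat_lit 4) (nat_lit 47018) (nat_lit 14) nil nil) nil) nil) nil) nil))
  (node (nat_lit 0) (nat_lit 46392) (nat_lit 9) (node (nat_lit 7) (nat_lit 46392) (nat_lit 10) nil
  nil) nil))) (node (nat_lit 4) (nat_lit 43534) (nat_lit 8) (node (nat_lit 7) (nat_lit 44202)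
  (nat_lit 9) (node (nat_lit 5) (nat_lit 47474) (nat_lit 10) (node (nat_lit 4) (nat_lit 47474)
  (nat_lit 11) (node (nat_lit 5) (nat_lit 47670) (nat_lit 12) (node (nat_lit 7) (nat_lit 47670)
  (nat_lit 13) (node (nat_lit 4) (nat_lit 47670) (nat_lit 14) (node (nat_lit 5) (nat_lit 47837)
  (nat_lit 15) (node (nat_lit 4) (nat_lit 47837) (nat_lit 16) (node (nat_lit 7) (nat_lit 47837)
  (nat_lit 17) (node (nat_lit 4) (nat_lit 47837) (nat_lit 18) (node (nat_lit 5) (nat_lit 47928)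
  (nat_lit 19) (node (nat_lit 7) (nat_lit 47928) (nat_lit 20) (node (nat_lit 4) (nat_lit 47928)
  (nat_lit 21) (node (nat_lit 7) (nat_lit 47928) (nat_lit 22) (node (nat_lit 5) (nat_lit 47961)
  (nat_lit 23) (node (nat_lit 4) (nat_lit 47961) (nat_lit 24) nil nil) nil) nil) nil) nil) nil)
  nil) nil) nil) nil) (node (nat_lit 5) (nat_lit 47795) (nat_lit 14) (node (nat_lit 4) (nat_lit
  47795) (nat_lit 15) (node (nat_lit 7) (nat_lit 47795) (nat_lit 16) (node (nat_lit 4) (nat_lit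
  47795) (nat_lit 17) (node (nat_lit 5) (nat_lit 47913) (nat_lit 18) nil nil) nil) nil) nil) nil))
  nil) (node (nat_lit 7) (nat_lit 47474) (nat_lit 12) (node (nat_lit 4) (nat_lit 47474) (nat_lit
  13) nil nil) (node (nat_lit 3) (nat_lit 47474) (nat_lit 12) (node (nat_lit 4) (nat_lit 47474)
  (nat_lit 13) nil (node (nat_lit 7) (nat_lit 47474) (nat_lit 13) nil nil)) nil))) (node (nat_lit
  7) (nat_lit 47474) (nat_lit 11) (node (nat_lit 4) (nat_lit 47474) (nat_lit 12) (node (nat_lit 5)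
  (nat_lit 47740) (nat_lit 13) (node (nat_lit 4) (nat_lit 47740) (nat_lit 14) (node (nat_lit 7)
  (nat_lit 47740) (nat_lit 15) (node (nat_lit 4) (nat_lit 47740) (nat_lit 16) (node (nat_lit 5)
  (nat_lit 47894) (nat_lit 17) (node (nat_lit 7) (nat_lit 47894) (nat_lit 18) (node (nat_lit 4)
  (nat_lit 47894) (nat_lit 19) (node (nat_lit 7) (nat_lit 47894) (nat_lit 20) nil nil) nil) nil)
  nil) nil) nil) nil) nil) nil) (node (nat_lit 3) (nat_lit 47474) (nat_lit 11) nil (node (nat_lit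
  0) (nat_lit 47582) (nat_lit 11) nil nil)))) (node (nat_lit 3) (nat_lit 44296) (nat_lit 10) (node
  (nat_lit 7) (nat_lit 43836) (nat_lit 11) (node (nat_lit 4) (nat_lit 43253) (nat_lit 12) nil nil)
  (node (nat_lit 4) (nat_lit 44224) (nat_lit 11) (node (nat_lit 5) (nat_lit 45257) (nat_lit 12)
  nil nil) nil)) (node (nat_lit 0) (nat_lit 46395) (nat_lit 10) (node (nat_lit 7) (nat_lit 46395)
  (nat_lit 11) nil nil) nil))) (node (nat_lit 3) (nat_lit 43544) (nat_lit 9) (node (nat_lit 7)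
  (nat_lit 43531) (nat_lit 10) (node (nat_lit 5) (nat_lit 45194) (nat_lit 11) nil (node (nat_lit
  4) (nat_lit 44122) (nat_lit 11) (node (nat_lit 5) (nat_lit 45377) (nat_lit 12) nil nil) nil))
  (node (nat_lit 4) (nat_lit 43498) (nat_lit 10) (node (nat_lit 5) (nat_lit 42441) (nat_lit 11)
  (node (nat_lit 4) (nat_lit 42164) (nat_lit 12) (node (nat_lit 7) (nat_lit 38146) (nat_lit 13)
  nil nil) nil) nil) nil)) (node (nat_lit 0) (nat_lit 45828) (nat_lit 9) (node (nat_lit 7)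
  (nat_lit 45828) (nat_lit 10) nil nil) nil))) (node (nat_lit 3) (nat_lit 43719) (nat_lit 8) (node
  (nat_lit 7) (nat_lit 43920) (nat_lit 9) (node (nat_lit 5) (nat_lit 45928) (nat_lit 10) (node
  (nat_lit 4) (nat_lit 45928) (nat_lit 11) (node (nat_lit 7) (nat_lit 45928) (nat_lit 12) (node
  (nat_lit 4) (nat_lit 45928) (nat_lit 13) (node (nat_lit 5) (nat_lit 46476) (nat_lit 14) nil nil)
  nil) nil) nil) (node (nat_lit 4) (nat_lit 43929) (nat_lit 10) (node (nat_lit 5) (nat_lit 43738)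
  (nat_lit 11) (node (nat_lit 4) (nat_lit 40613) (nat_lit 12) (node (nat_lit 7) (nat_lit 36400)
  (nat_lit 13) (node (nat_lit 4) (nat_lit 30336) (nat_lit 14) nil nil) nil) nil) nil) nil)) (node
  (nat_lit 4) (nat_lit 43628) (nat_lit 9) (node (nat_lit 5) (nat_lit 45635) (nat_lit 10) (node
  (nat_lit 4) (nat_lit 41553) (nat_lit 11) (node (nat_lit 7) (nat_lit 34906) (nat_lit 12) (node
  (nat_lit 4) (nat_lit 15323) (nat_lit 13) nil nil) nil) nil) (node (nat_lit 7) (nat_lit 44458)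
  (nat_lit 10) nil nil)) (node (nat_lit 5) (nat_lit 45979) (nat_lit 9) (node (nat_lit 7) (nat_lit
  45979) (nat_lit 10) nil (node (nat_lit 11) (nat_lit 45979) (nat_lit 10) nil nil)) (node (nat_lit
  0) (nat_lit 45532) (nat_lit 9) (node (nat_lit 7) (nat_lit 45532) (nat_lit 10) nil nil) nil))))
  (node (nat_lit 0) (nat_lit 46493) (nat_lit 8) (node (nat_lit 7) (nat_lit 46493) (nat_lit 9)
  (node (nat_lit 4) (nat_lit 46493) (nat_lit 10) nil nil) (node (nat_lit 3) (nat_lit 46493)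
  (nat_lit 9) (node (nat_lit 7) (nat_lit 46493) (nat_lit 10) nil (node (nat_lit 4) (nat_lit 46493)
  (nat_lit 10) nil nil)) (node (nat_lit 4) (nat_lit 46493) (nat_lit 9) (node (nat_lit 7) (nat_lit
  46493) (nat_lit 10) nil nil) (node (nat_lit 5) (nat_lit 46850) (nat_lit 9) (node (nat_lit 7)
  (nat_lit 46850) (nat_lit 10) nil nil) (node (nat_lit 0) (nat_lit 46850) (nat_lit 9) nil nil)))))
  nil)))) (node (nat_lit 4) (nat_lit 26622) (nat_lit 7) nil (node (nat_lit 3) (nat_lit 43768)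
  (nat_lit 7) (node (nat_lit 7) (nat_lit 43987) (nat_lit 8) (node (nat_lit 4) (nat_lit 43987)
  (nat_lit 9) (node (nat_lit 5) (nat_lit 45994) (nat_lit 10) (node (nat_lit 4) (nat_lit 33145)
  (nat_lit 11) (node (nat_lit 7) (nat_lit 29834) (nat_lit 12) (node (nat_lit 4) (nat_lit 29375)
  (nat_lit 13) nil nil) nil) nil) nil) (node (nat_lit 10) (nat_lit 43987) (nat_lit 9) (node
  (nat_lit 4) (nat_lit 43962) (nat_lit 10) (node (nat_lit 5) (nat_lit 45310) (nat_lit 11) nil nil)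
  nil) nil)) (node (nat_lit 4) (nat_lit 44062) (nat_lit 8) (node (nat_lit 5) (nat_lit 46322)
  (nat_lit 9) (node (nat_lit 4) (nat_lit 46322) (nat_lit 10) (node (nat_lit 7) (nat_lit 46322)
  (nat_lit 11) (node (nat_lit 4) (nat_lit 46322) (nat_lit 12) nil nil) nil) nil) (node (nat_lit 7)
  (nat_lit 44062) (nat_lit 9) nil (node (nat_lit 10) (nat_lit 44062) (nat_lit 9) (node (nat_lit 7)
  (nat_lit 44071) (nat_lit 10) nil nil) nil))) (node (nat_lit 5) (nat_lit 45883) (nat_lit 8) (node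
  (nat_lit 7) (nat_lit 45883) (nat_lit 9) nil nil) (node (nat_lit 0) (nat_lit 45564) (nat_lit 8)
  (node (nat_lit 10) (nat_lit 45564) (nat_lit 9) (node (nat_lit 4) (nat_lit 45564) (nat_lit 10)
  nil nil) (node (nat_lit 7) (nat_lit 45564) (nat_lit 9) nil nil)) nil)))) (node (nat_lit 0)
  (nat_lit 45752) (nat_lit 7) (node (nat_lit 4) (nat_lit 45752) (nat_lit 8) (node (nat_lit 7)
  (nat_lit 45752) (nat_lit 9) nil nil) (node (nat_lit 7) (nat_lit 45752) (nat_lit 8) (node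
  (nat_lit 4) (nat_lit 45752) (nat_lit 9) (node (nat_lit 5) (nat_lit 46929) (nat_lit 10) (node
  (nat_lit 4) (nat_lit 45413) (nat_lit 11) (node (nat_lit 7) (nat_lit 44929) (nat_lit 12) nil nil)
  nil) nil) nil) (node (nat_lit 5) (nat_lit 46616) (nat_lit 8) (node (nat_lit 7) (nat_lit 46616)
  (nat_lit 9) (node (nat_lit 4) (nat_lit 46616) (nat_lit 10) nil nil) nil) (node (nat_lit 3)
  (nat_lit 45752) (nat_lit 8) (node (nat_lit 7) (nat_lit 45752) (nat_lit 9) nil (node (nat_lit 4)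
  (nat_lit 45752) (nat_lit 9) nil nil)) (node (nat_lit 0) (nat_lit 46516) (nat_lit 8) (node
  (nat_lit 7) (nat_lit 46516) (nat_lit 9) nil nil) nil))))) nil)))) (node (nat_lit 3) (nat_lit
  35332) (nat_lit 6) (node (nat_lit 7) (nat_lit 35371) (nat_lit 7) (node (nat_lit 4) (nat_lit
  35371) (nat_lit 8) (node (nat_lit 5) (nat_lit 41777) (nat_lit 9) (node (nat_lit 4) (nat_lit
  33237) (nat_lit 10) (node (nat_lit 7) (nat_lit 27606) (nat_lit 11) nil nil) nil) (node (nat_lit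
  7) (nat_lit 35371) (nat_lit 9) (node (nat_lit 5) (nat_lit 42078) (nat_lit 10) nil nil) nil))
  (node (nat_lit 9) (nat_lit 35446) (nat_lit 8) (node (nat_lit 4) (nat_lit 35446) (nat_lit 9)
  (node (nat_lit 5) (nat_lit 42168) (nat_lit 10) (node (nat_lit 4) (nat_lit 35842) (nat_lit 11)
  (node (nat_lit 7) (nat_lit 30554) (nat_lit 12) (node (nat_lit 4) (nat_lit 29179) (nat_lit 13)
  nil nil) nil) nil) (node (nat_lit 7) (nat_lit 37280) (nat_lit 10) nil (node (nat_lit 9) (nat_lit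
  34183) (nat_lit 10) nil nil))) (node (nat_lit 5) (nat_lit 44317) (nat_lit 9) nil nil)) (node
  (nat_lit 5) (nat_lit 48978) (nat_lit 8) nil (node (nat_lit 0) (nat_lit 45707) (nat_lit 8) nil
  nil)))) (node (nat_lit 4) (nat_lit 35400) (nat_lit 7) (node (nat_lit 7) (nat_lit 35372) (nat_lit
  8) (node (nat_lit 9) (nat_lit 35372) (nat_lit 9) (node (nat_lit 5) (nat_lit 42079) (nat_lit 10)
  nil (node (nat_lit 7) (nat_lit 38298) (nat_lit 10) (node (nat_lit 4) (nat_lit 39810) (nat_lit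
  11) (node (nat_lit 9) (nat_lit 40069) (nat_lit 12) nil nil) nil) (node (nat_lit 4) (nat_lit
  37297) (nat_lit 10) (node (nat_lit 5) (nat_lit 37103) (nat_lit 11) (node (nat_lit 4) (nat_lit
  35353) (nat_lit 12) nil nil) nil) nil))) (node (nat_lit 5) (nat_lit 44243) (nat_lit 9) nil (node
  (nat_lit 4) (nat_lit 35372) (nat_lit 9) (node (nat_lit 5) (nat_lit 35361) (nat_lit 10) nil nil)
  nil))) (node (nat_lit 5) (nat_lit 44503) (nat_lit 8) (node (nat_lit 4) (nat_lit 34147) (nat_lit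
  9) (node (nat_lit 7) (nat_lit 22032) (nat_lit 10) nil (node (nat_lit 9) (nat_lit 34147) (nat_lit
  10) (node (nat_lit 5) (nat_lit 34147) (nat_lit 11) (node (nat_lit 9) (nat_lit 34147) (nat_lit
  12) (node (nat_lit 4) (nat_lit 33799) (nat_lit 13) (node (nat_lit 5) (nat_lit 34139) (nat_lit
  14) nil nil) nil) nil) nil) nil)) (node (nat_lit 7) (nat_lit 44503) (nat_lit 9) nil nil)) (node
  (nat_lit 0) (nat_lit 47027) (nat_lit 8) nil nil))) (node (nat_lit 5) (nat_lit 52498) (nat_lit 7)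
  (node (nat_lit 9) (nat_lit 52498) (nat_lit 8) (node (nat_lit 4) (nat_lit 52498) (nat_lit 9)
  (node (nat_lit 5) (nat_lit 53204) (nat_lit 10) (node (nat_lit 4) (nat_lit 53204) (nat_lit 11)
  (node (nat_lit 7) (nat_lit 53204) (nat_lit 12) (node (nat_lit 4) (nat_lit 53204) (nat_lit 13)
  (node (nat_lit 9) (nat_lit 53204) (nat_lit 14) nil nil) nil) nil) nil) nil) nil) (node (nat_lit
  7) (nat_lit 52498) (nat_lit 8) (node (nat_lit 4) (nat_lit 52498) (nat_lit 9) nil nil) nil))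
  (node (nat_lit 0) (nat_lit 49449) (nat_lit 7) (node (nat_lit 7) (nat_lit 49449) (nat_lit 8) nil
  nil) nil)))) (node (nat_lit 0) (nat_lit 52200) (nat_lit 6) (node (nat_lit 4) (nat_lit 53091)
  (nat_lit 7) (node (nat_lit 7) (nat_lit 53316) (nat_lit 8) nil nil) (node (nat_lit 7) (nat_lit
  53091) (nat_lit 7) (node (nat_lit 4) (nat_lit 53012) (nat_lit 8) nil nil) (node (nat_lit 5)
  (nat_lit 53739) (nat_lit 7) nil (node (nat_lit 3) (nat_lit 53340) (nat_lit 7) (node (nat_lit 4)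
  (nat_lit 53340) (nat_lit 8) (node (nat_lit 5) (nat_lit 54267) (nat_lit 9) nil nil) nil) nil))))
  nil)))

noncomputable def t55 : Tr :=
  (node (nat_lit 5) (nat_lit 55566) (nat_lit 6) (node (nat_lit 7) (nat_lit 55521) (nat_lit 7)
  (node (nat_lit 5) (nat_lit 57118) (nat_lit 8) (node (nat_lit 8) (nat_lit 57118) (nat_lit 9)
  (node (nat_lit 7) (nat_lit 57118) (nat_lit 10) (node (nat_lit 8) (nat_lit 57118) (nat_lit 11)
  nil nil) (node (nat_lit 5) (nat_lit 57522) (nat_lit 10) (node (nat_lit 4) (nat_lit 57522)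
  (nat_lit 11) (node (nat_lit 7) (nat_lit 57522) (nat_lit 12) nil nil) (node (nat_lit 7) (nat_lit
  57522) (nat_lit 11) nil nil)) (node (nat_lit 4) (nat_lit 57118) (nat_lit 10) nil nil))) (node
  (nat_lit 4) (nat_lit 57118) (nat_lit 9) (node (nat_lit 7) (nat_lit 57118) (nat_lit 10) nil nil)
  nil)) (node (nat_lit 8) (nat_lit 55521) (nat_lit 8) (node (nat_lit 7) (nat_lit 55521) (nat_lit
  9) (node (nat_lit 5) (nat_lit 56530) (nat_lit 10) (node (nat_lit 7) (nat_lit 56530) (nat_lit 11)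
  (node (nat_lit 4) (nat_lit 56530) (nat_lit 12) nil (node (nat_lit 8) (nat_lit 56530) (nat_lit
  12) nil nil)) (node (nat_lit 8) (nat_lit 56530) (nat_lit 11) nil nil)) (node (nat_lit 4)
  (nat_lit 55521) (nat_lit 10) nil nil)) (node (nat_lit 4) (nat_lit 55521) (nat_lit 9) (node
  (nat_lit 5) (nat_lit 56305) (nat_lit 10) (node (nat_lit 4) (nat_lit 51145) (nat_lit 11) (node
  (nat_lit 7) (nat_lit 43480) (nat_lit 12) (node (nat_lit 8) (nat_lit 33618) (nat_lit 13) nil nil)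
  nil) nil) nil) nil)) (node (nat_lit 4) (nat_lit 55521) (nat_lit 8) (node (nat_lit 5) (nat_lit
  56393) (nat_lit 9) (node (nat_lit 4) (nat_lit 56393) (nat_lit 10) (node (nat_lit 7) (nat_lit
  56393) (nat_lit 11) (node (nat_lit 8) (nat_lit 56393) (nat_lit 12) nil nil) nil) (node (nat_lit
  8) (nat_lit 56393) (nat_lit 10) nil nil)) (node (nat_lit 8) (nat_lit 55521) (nat_lit 9) (node
  (nat_lit 4) (nat_lit 55385) (nat_lit 10) nil nil) (node (nat_lit 7) (nat_lit 55521) (nat_lit 9)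
  nil nil))) (node (nat_lit 0) (nat_lit 56321) (nat_lit 8) (node (nat_lit 7) (nat_lit 56321)
  (nat_lit 9) nil (node (nat_lit 8) (nat_lit 56321) (nat_lit 9) nil nil)) nil)))) (node (nat_lit
  8) (nat_lit 55566) (nat_lit 7) (node (nat_lit 7) (nat_lit 55566) (nat_lit 8) (node (nat_lit 5)
  (nat_lit 56438) (nat_lit 9) (node (nat_lit 7) (nat_lit 56438) (nat_lit 10) (node (nat_lit 8)
  (nat_lit 56438) (nat_lit 11) nil (node (nat_lit 4) (nat_lit 56438) (nat_lit 11) nil nil)) (node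
  (nat_lit 8) (nat_lit 56438) (nat_lit 10) nil nil)) (node (nat_lit 8) (nat_lit 55566) (nat_lit 9)
  (node (nat_lit 5) (nat_lit 56574) (nat_lit 10) nil (node (nat_lit 4) (nat_lit 55566) (nat_lit
  10) (node (nat_lit 5) (nat_lit 54955) (nat_lit 11) nil nil) nil)) (node (nat_lit 4) (nat_lit
  55566) (nat_lit 9) (node (nat_lit 5) (nat_lit 56305) (nat_lit 10) (node (nat_lit 4) (nat_lit
  51894) (nat_lit 11) (node (nat_lit 7) (nat_lit 45175) (nat_lit 12) (node (nat_lit 8) (nat_lit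
  33618) (nat_lit 13) (node (nat_lit 5) (nat_lit 29453) (nat_lit 14) nil nil) nil) nil) nil) nil)
  nil))) (node (nat_lit 4) (nat_lit 55566) (nat_lit 8) (node (nat_lit 5) (nat_lit 56438) (nat_lit
  9) (node (nat_lit 4) (nat_lit 56438) (nat_lit 10) (node (nat_lit 7) (nat_lit 56438) (nat_lit 11)
  (node (nat_lit 8) (nat_lit 56438) (nat_lit 12) nil nil) nil) nil) (node (nat_lit 7) (nat_lit
  55566) (nat_lit 9) (node (nat_lit 8) (nat_lit 55566) (nat_lit 10) nil nil) nil)) (node (nat_lit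
  0) (nat_lit 56258) (nat_lit 8) nil nil))) (node (nat_lit 4) (nat_lit 55566) (nat_lit 7) (node
  (nat_lit 8) (nat_lit 55566) (nat_lit 8) (node (nat_lit 4) (nat_lit 55495) (nat_lit 9) (node
  (nat_lit 5) (nat_lit 53475) (nat_lit 10) (node (nat_lit 4) (nat_lit 48241) (nat_lit 11) (node
  (nat_lit 7) (nat_lit 40650) (nat_lit 12) (node (nat_lit 8) (nat_lit 32741) (nat_lit 13) (node
  (nat_lit 5) (nat_lit 24609) (nat_lit 14) nil nil) nil) nil) nil) nil) (node (nat_lit 7) (nat_lit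
  55240) (nat_lit 9) nil (node (nat_lit 5) (nat_lit 56438) (nat_lit 9) nil nil))) (node (nat_lit
  5) (nat_lit 56258) (nat_lit 8) (node (nat_lit 8) (nat_lit 56258) (nat_lit 9) nil nil) (node
  (nat_lit 7) (nat_lit 55566) (nat_lit 8) (node (nat_lit 4) (nat_lit 55495) (nat_lit 9) (node
  (nat_lit 5) (nat_lit 53475) (nat_lit 10) nil nil) (node (nat_lit 5) (nat_lit 56438) (nat_lit 9)
  nil nil)) nil))) (node (nat_lit 0) (nat_lit 56468) (nat_lit 7) (node (nat_lit 7) (nat_lit 56468)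
  (nat_lit 8) nil (node (nat_lit 8) (nat_lit 56468) (nat_lit 8) (node (nat_lit 4) (nat_lit 56468)
  (nat_lit 9) nil nil) (node (nat_lit 5) (nat_lit 56768) (nat_lit 8) (node (nat_lit 8) (nat_lit
  56768) (nat_lit 9) nil (node (nat_lit 7) (nat_lit 56768) (nat_lit 9) nil nil)) nil))) nil))))
  (node (nat_lit 4) (nat_lit 35581) (nat_lit 6) (node (nat_lit 8) (nat_lit 35593) (nat_lit 7)
  (node (nat_lit 7) (nat_lit 35593) (nat_lit 8) (node (nat_lit 4) (nat_lit 35583) (nat_lit 9)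
  (node (nat_lit 7) (nat_lit 41497) (nat_lit 10) (node (nat_lit 8) (nat_lit 44965) (nat_lit 11)
  (node (nat_lit 7) (nat_lit 44048) (nat_lit 12) (node (nat_lit 4) (nat_lit 43089) (nat_lit 13)
  (node (nat_lit 5) (nat_lit 43798) (nat_lit 14) nil nil) nil) (node (nat_lit 4) (nat_lit 45928)
  (nat_lit 12) (node (nat_lit 7) (nat_lit 46101) (nat_lit 13) nil nil) (node (nat_lit 5) (nat_lit
  47551) (nat_lit 12) nil nil))) (node (nat_lit 5) (nat_lit 44835) (nat_lit 11) nil (node (nat_lit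
  0) (nat_lit 44835) (nat_lit 11) nil nil))) (node (nat_lit 5) (nat_lit 43632) (nat_lit 10) (node
  (nat_lit 4) (nat_lit 36528) (nat_lit 11) (node (nat_lit 7) (nat_lit 32470) (nat_lit 12) (node
  (nat_lit 8) (nat_lit 22640) (nat_lit 13) nil nil) nil) nil) (node (nat_lit 8) (nat_lit 40351)
  (nat_lit 10) (node (nat_lit 4) (nat_lit 40123) (nat_lit 11) (node (nat_lit 7) (nat_lit 38125)
  (nat_lit 12) (node (nat_lit 8) (nat_lit 37628) (nat_lit 13) nil nil) (node (nat_lit 5) (nat_lit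
  38895) (nat_lit 12) (node (nat_lit 4) (nat_lit 38418) (nat_lit 13) nil nil) nil)) nil) (node
  (nat_lit 0) (nat_lit 44837) (nat_lit 10) nil nil)))) (node (nat_lit 8) (nat_lit 35593) (nat_lit
  9) (node (nat_lit 4) (nat_lit 39914) (nat_lit 10) (node (nat_lit 5) (nat_lit 44292) (nat_lit 11)
  (node (nat_lit 4) (nat_lit 39005) (nat_lit 12) (node (nat_lit 7) (nat_lit 37760) (nat_lit 13)
  (node (nat_lit 8) (nat_lit 31304) (nat_lit 14) (node (nat_lit 4) (nat_lit 30904) (nat_lit 15)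
  nil nil) nil) nil) nil) (node (nat_lit 7) (nat_lit 41049) (nat_lit 11) (node (nat_lit 5)
  (nat_lit 43635) (nat_lit 12) nil (node (nat_lit 4) (nat_lit 40379) (nat_lit 12) nil nil)) nil))
  (node (nat_lit 5) (nat_lit 49212) (nat_lit 10) (node (nat_lit 7) (nat_lit 49212) (nat_lit 11)
  nil nil) (node (nat_lit 0) (nat_lit 44846) (nat_lit 10) nil nil))) (node (nat_lit 5) (nat_lit
  51274) (nat_lit 9) (node (nat_lit 4) (nat_lit 51274) (nat_lit 10) (node (nat_lit 7) (nat_lit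
  51274) (nat_lit 11) nil nil) (node (nat_lit 7) (nat_lit 51274) (nat_lit 10) nil (node (nat_lit
  8) (nat_lit 51274) (nat_lit 10) nil nil))) (node (nat_lit 0) (nat_lit 48631) (nat_lit 9) nil
  nil)))) (node (nat_lit 5) (nat_lit 50948) (nat_lit 8) (node (nat_lit 4) (nat_lit 50948) (nat_lit
  9) (node (nat_lit 7) (nat_lit 50948) (nat_lit 10) nil nil) (node (nat_lit 7) (nat_lit 50948)
  (nat_lit 9) (node (nat_lit 4) (nat_lit 50948) (nat_lit 10) nil nil) (node (nat_lit 8) (nat_lit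
  50948) (nat_lit 9) (node (nat_lit 7) (nat_lit 50948) (nat_lit 10) nil (node (nat_lit 4) (nat_lit
  50948) (nat_lit 10) nil nil)) nil))) (node (nat_lit 0) (nat_lit 50948) (nat_lit 8) (node
  (nat_lit 7) (nat_lit 50948) (nat_lit 9) nil nil) nil))) (node (nat_lit 5) (nat_lit 43064)
  (nat_lit 7) (node (nat_lit 4) (nat_lit 33475) (nat_lit 8) (node (nat_lit 7) (nat_lit 27384)
  (nat_lit 9) nil (node (nat_lit 8) (nat_lit 34117) (nat_lit 9) (node (nat_lit 7) (nat_lit 32486)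
  (nat_lit 10) nil (node (nat_lit 4) (nat_lit 33121) (nat_lit 10) (node (nat_lit 5) (nat_lit
  33417) (nat_lit 11) nil nil) nil)) (node (nat_lit 0) (nat_lit 33918) (nat_lit 9) nil nil)))
  (node (nat_lit 8) (nat_lit 42635) (nat_lit 8) (node (nat_lit 5) (nat_lit 44118) (nat_lit 9)
  (node (nat_lit 4) (nat_lit 44118) (nat_lit 10) (node (nat_lit 7) (nat_lit 43699) (nat_lit 11)
  (node (nat_lit 8) (nat_lit 43257) (nat_lit 12) nil nil) (node (nat_lit 8) (nat_lit 43699)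
  (nat_lit 11) nil nil)) (node (nat_lit 7) (nat_lit 44118) (nat_lit 10) nil nil)) (node (nat_lit
  7) (nat_lit 43557) (nat_lit 9) (node (nat_lit 5) (nat_lit 44545) (nat_lit 10) nil (node (nat_lit
  4) (nat_lit 43068) (nat_lit 10) (node (nat_lit 5) (nat_lit 43871) (nat_lit 11) nil nil) nil))
  (node (nat_lit 4) (nat_lit 43302) (nat_lit 9) nil (node (nat_lit 0) (nat_lit 43971) (nat_lit 9)
  nil nil)))) (node (nat_lit 7) (nat_lit 43399) (nat_lit 8) (node (nat_lit 5) (nat_lit 44735)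
  (nat_lit 9) (node (nat_lit 4) (nat_lit 44735) (nat_lit 10) (node (nat_lit 7) (nat_lit 44131)
  (nat_lit 11) (node (nat_lit 8) (nat_lit 43873) (nat_lit 12) (node (nat_lit 4) (nat_lit 43204)
  (nat_lit 13) nil nil) nil) nil) nil) (node (nat_lit 4) (nat_lit 44313) (nat_lit 9) (node
  (nat_lit 5) (nat_lit 44977) (nat_lit 10) (node (nat_lit 4) (nat_lit 44977) (nat_lit 11) (node
  (nat_lit 7) (nat_lit 44474) (nat_lit 12) (node (nat_lit 8) (nat_lit 44550) (nat_lit 13) nil nil)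
  nil) nil) nil) (node (nat_lit 8) (nat_lit 42841) (nat_lit 9) nil nil))) (node (nat_lit 0)
  (nat_lit 44173) (nat_lit 8) (node (nat_lit 7) (nat_lit 44173) (nat_lit 9) nil (node (nat_lit 8)
  (nat_lit 44173) (nat_lit 9) nil nil)) nil)))) (node (nat_lit 7) (nat_lit 35581) (nat_lit 7)
  (node (nat_lit 4) (nat_lit 35581) (nat_lit 8) (node (nat_lit 8) (nat_lit 35580) (nat_lit 9)
  (node (nat_lit 4) (nat_lit 40594) (nat_lit 10) (node (nat_lit 5) (nat_lit 43601) (nat_lit 11)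
  (node (nat_lit 4) (nat_lit 39530) (nat_lit 12) (node (nat_lit 7) (nat_lit 38262) (nat_lit 13)
  (node (nat_lit 8) (nat_lit 34077) (nat_lit 14) (node (nat_lit 4) (nat_lit 25070) (nat_lit 15)
  nil nil) nil) nil) (node (nat_lit 7) (nat_lit 43601) (nat_lit 12) nil nil)) (node (nat_lit 7)
  (nat_lit 42631) (nat_lit 11) (node (nat_lit 8) (nat_lit 43999) (nat_lit 12) (node (nat_lit 7)
  (nat_lit 43248) (nat_lit 13) nil nil) nil) (node (nat_lit 0) (nat_lit 45881) (nat_lit 11) nil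
  nil))) (node (nat_lit 7) (nat_lit 40607) (nat_lit 10) (node (nat_lit 4) (nat_lit 41648) (nat_lit
  11) (node (nat_lit 5) (nat_lit 40420) (nat_lit 12) nil nil) (node (nat_lit 8) (nat_lit 42326)
  (nat_lit 11) (node (nat_lit 4) (nat_lit 39102) (nat_lit 12) nil nil) (node (nat_lit 5) (nat_lit
  43944) (nat_lit 11) nil nil))) (node (nat_lit 5) (nat_lit 46267) (nat_lit 10) nil (node (nat_lit
  0) (nat_lit 44832) (nat_lit 10) nil nil)))) (node (nat_lit 5) (nat_lit 44741) (nat_lit 9) (node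
  (nat_lit 4) (nat_lit 39522) (nat_lit 10) (node (nat_lit 7) (nat_lit 21968) (nat_lit 11) nil nil)
  (node (nat_lit 7) (nat_lit 44741) (nat_lit 10) nil (node (nat_lit 8) (nat_lit 44741) (nat_lit
  10) nil nil))) (node (nat_lit 0) (nat_lit 47904) (nat_lit 9) nil nil))) (node (nat_lit 5)
  (nat_lit 50894) (nat_lit 8) (node (nat_lit 8) (nat_lit 50894) (nat_lit 9) (node (nat_lit 4)
  (nat_lit 50628) (nat_lit 10) (node (nat_lit 5) (nat_lit 51431) (nat_lit 11) nil nil) nil) (node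
  (nat_lit 7) (nat_lit 50894) (nat_lit 9) (node (nat_lit 4) (nat_lit 50894) (nat_lit 10) nil nil)
  nil)) (node (nat_lit 0) (nat_lit 50205) (nat_lit 8) nil nil))) (node (nat_lit 0) (nat_lit 52512)
  (nat_lit 7) (node (nat_lit 4) (nat_lit 53266) (nat_lit 8) (node (nat_lit 8) (nat_lit 52708)
  (nat_lit 9) nil nil) (node (nat_lit 7) (nat_lit 53154) (nat_lit 8) (node (nat_lit 4) (nat_lit
  52596) (nat_lit 9) nil (node (nat_lit 8) (nat_lit 52596) (nat_lit 9) nil nil)) (node (nat_lit 8)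
  (nat_lit 52502) (nat_lit 8) (node (nat_lit 7) (nat_lit 51944) (nat_lit 9) nil (node (nat_lit 4)
  (nat_lit 51944) (nat_lit 9) nil (node (nat_lit 10) (nat_lit 53838) (nat_lit 9) nil nil))) (node
  (nat_lit 5) (nat_lit 53287) (nat_lit 8) nil (node (nat_lit 0) (nat_lit 53929) (nat_lit 8) nil
  nil))))) nil)))) (node (nat_lit 7) (nat_lit 35569) (nat_lit 6) (node (nat_lit 4) (nat_lit 35570)
  (nat_lit 7) (node (nat_lit 8) (nat_lit 35570) (nat_lit 8) (node (nat_lit 4) (nat_lit 35570)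
  (nat_lit 9) (node (nat_lit 7) (nat_lit 41101) (nat_lit 10) (node (nat_lit 8) (nat_lit 43945)
  (nat_lit 11) (node (nat_lit 4) (nat_lit 44893) (nat_lit 12) (node (nat_lit 8) (nat_lit 44607)
  (nat_lit 13) (node (nat_lit 7) (nat_lit 44199) (nat_lit 14) (node (nat_lit 8) (nat_lit 44361)
  (nat_lit 15) nil (node (nat_lit 4) (nat_lit 43520) (nat_lit 15) nil nil)) nil) (node (nat_lit 5)
  (nat_lit 45648) (nat_lit 13) (node (nat_lit 4) (nat_lit 42974) (nat_lit 14) (node (nat_lit 7)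
  (nat_lit 41174) (nat_lit 15) (node (nat_lit 8) (nat_lit 39858) (nat_lit 16) nil nil) nil) nil)
  nil)) (node (nat_lit 7) (nat_lit 44607) (nat_lit 12) (node (nat_lit 5) (nat_lit 46582) (nat_lit
  13) (node (nat_lit 8) (nat_lit 46582) (nat_lit 14) nil nil) (node (nat_lit 0) (nat_lit 46582)
  (nat_lit 13) nil nil)) (node (nat_lit 5) (nat_lit 46532) (nat_lit 12) nil (node (nat_lit 0)
  (nat_lit 46532) (nat_lit 12) (node (nat_lit 7) (nat_lit 46532) (nat_lit 13) nil nil) nil))))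
  (node (nat_lit 4) (nat_lit 42740) (nat_lit 11) nil (node (nat_lit 5) (nat_lit 44438) (nat_lit
  11) nil nil))) (node (nat_lit 5) (nat_lit 43433) (nat_lit 10) (node (nat_lit 4) (nat_lit 38309)
  (nat_lit 11) (node (nat_lit 7) (nat_lit 34894) (nat_lit 12) (node (nat_lit 8) (nat_lit 24519)
  (nat_lit 13) (node (nat_lit 7) (nat_lit 28292) (nat_lit 14) nil nil) nil) nil) nil) (node
  (nat_lit 0) (nat_lit 42269) (nat_lit 10) nil nil))) (node (nat_lit 7) (nat_lit 35570) (nat_lit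
  9) (node (nat_lit 8) (nat_lit 40002) (nat_lit 10) (node (nat_lit 4) (nat_lit 41777) (nat_lit 11)
  (node (nat_lit 5) (nat_lit 40400) (nat_lit 12) (node (nat_lit 4) (nat_lit 40826) (nat_lit 13)
  (node (nat_lit 7) (nat_lit 38527) (nat_lit 14) (node (nat_lit 8) (nat_lit 36890) (nat_lit 15)
  (node (nat_lit 7) (nat_lit 34717) (nat_lit 16) nil nil) nil) nil) nil) nil) (node (nat_lit 5)
  (nat_lit 43339) (nat_lit 11) nil nil)) (node (nat_lit 5) (nat_lit 44823) (nat_lit 10) nil (node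
  (nat_lit 0) (nat_lit 39715) (nat_lit 10) nil nil))) (node (nat_lit 5) (nat_lit 49946) (nat_lit
  9) (node (nat_lit 7) (nat_lit 49946) (nat_lit 10) nil nil) (node (nat_lit 0) (nat_lit 46521)
  (nat_lit 9) nil nil)))) (node (nat_lit 7) (nat_lit 35570) (nat_lit 8) (node (nat_lit 8) (nat_lit
  35574) (nat_lit 9) (node (nat_lit 4) (nat_lit 40752) (nat_lit 10) (node (nat_lit 8) (nat_lit
  43567) (nat_lit 11) nil (node (nat_lit 5) (nat_lit 43889) (nat_lit 11) nil nil)) (node (nat_lit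
  5) (nat_lit 48432) (nat_lit 10) nil nil)) (node (nat_lit 5) (nat_lit 48608) (nat_lit 9) (node
  (nat_lit 8) (nat_lit 48608) (nat_lit 10) (node (nat_lit 4) (nat_lit 48608) (nat_lit 11) nil nil)
  nil) (node (nat_lit 0) (nat_lit 46521) (nat_lit 9) nil nil))) (node (nat_lit 5) (nat_lit 42424)
  (nat_lit 8) (node (nat_lit 4) (nat_lit 33296) (nat_lit 9) (node (nat_lit 7) (nat_lit 28108)
  (nat_lit 10) (node (nat_lit 4) (nat_lit 28108) (nat_lit 11) nil nil) (node (nat_lit 8) (nat_lit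
  31665) (nat_lit 10) nil nil)) (node (nat_lit 7) (nat_lit 42424) (nat_lit 9) (node (nat_lit 5)
  (nat_lit 42828) (nat_lit 10) nil nil) (node (nat_lit 8) (nat_lit 42424) (nat_lit 9) nil nil)))
  (node (nat_lit 0) (nat_lit 48721) (nat_lit 8) nil nil)))) (node (nat_lit 5) (nat_lit 55937)
  (nat_lit 7) (node (nat_lit 8) (nat_lit 55937) (nat_lit 8) (node (nat_lit 5) (nat_lit 56464)
  (nat_lit 9) (node (nat_lit 7) (nat_lit 56464) (nat_lit 10) nil nil) (node (nat_lit 4) (nat_lit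
  55937) (nat_lit 9) (node (nat_lit 5) (nat_lit 56641) (nat_lit 10) (node (nat_lit 4) (nat_lit
  56641) (nat_lit 11) (node (nat_lit 7) (nat_lit 56641) (nat_lit 12) (node (nat_lit 8) (nat_lit
  56641) (nat_lit 13) nil nil) nil) nil) nil) (node (nat_lit 7) (nat_lit 55937) (nat_lit 9) (node
  (nat_lit 4) (nat_lit 55937) (nat_lit 10) nil nil) nil))) (node (nat_lit 7) (nat_lit 55937)
  (nat_lit 8) (node (nat_lit 8) (nat_lit 55937) (nat_lit 9) (node (nat_lit 5) (nat_lit 56641)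
  (nat_lit 10) (node (nat_lit 7) (nat_lit 56641) (nat_lit 11) nil nil) (node (nat_lit 7) (nat_lit
  55937) (nat_lit 10) (node (nat_lit 4) (nat_lit 55934) (nat_lit 11) nil nil) (node (nat_lit 4)
  (nat_lit 55937) (nat_lit 10) nil nil))) (node (nat_lit 4) (nat_lit 55937) (nat_lit 9) (node
  (nat_lit 7) (nat_lit 55937) (nat_lit 10) (node (nat_lit 8) (nat_lit 55937) (nat_lit 11) nil nil)
  (node (nat_lit 5) (nat_lit 56641) (nat_lit 10) nil nil)) nil)) (node (nat_lit 4) (nat_lit 55937)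
  (nat_lit 8) (node (nat_lit 7) (nat_lit 55937) (nat_lit 9) nil (node (nat_lit 5) (nat_lit 56464)
  (nat_lit 9) (node (nat_lit 7) (nat_lit 56464) (nat_lit 10) (node (nat_lit 8) (nat_lit 56464)
  (nat_lit 11) nil nil) (node (nat_lit 8) (nat_lit 56464) (nat_lit 10) nil nil)) (node (nat_lit 8)
  (nat_lit 55937) (nat_lit 9) (node (nat_lit 4) (nat_lit 55937) (nat_lit 10) (node (nat_lit 5)
  (nat_lit 56780) (nat_lit 11) nil nil) nil) (node (nat_lit 0) (nat_lit 56464) (nat_lit 9) nil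
  nil)))) (node (nat_lit 0) (nat_lit 56237) (nat_lit 8) (node (nat_lit 7) (nat_lit 56237) (nat_lit
  9) nil nil) nil)))) (node (nat_lit 0) (nat_lit 53277) (nat_lit 7) (node (nat_lit 8) (nat_lit
  53277) (nat_lit 8) nil (node (nat_lit 7) (nat_lit 53277) (nat_lit 8) nil (node (nat_lit 5)
  (nat_lit 53578) (nat_lit 8) (node (nat_lit 7) (nat_lit 53578) (nat_lit 9) nil nil) nil))) nil)))
  (node (nat_lit 0) (nat_lit 55806) (nat_lit 6) (node (nat_lit 7) (nat_lit 55806) (nat_lit 7)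
  (node (nat_lit 5) (nat_lit 56498) (nat_lit 8) (node (nat_lit 8) (nat_lit 56498) (nat_lit 9) nil
  nil) (node (nat_lit 8) (nat_lit 55806) (nat_lit 8) (node (nat_lit 4) (nat_lit 55806) (nat_lit 9)
  nil nil) (node (nat_lit 4) (nat_lit 55806) (nat_lit 8) (node (nat_lit 5) (nat_lit 56678)
  (nat_lit 9) nil nil) (node (nat_lit 9) (nat_lit 56498) (nat_lit 8) nil nil)))) (node (nat_lit 8)
  (nat_lit 55806) (nat_lit 7) (node (nat_lit 7) (nat_lit 55806) (nat_lit 8) (node (nat_lit 4)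
  (nat_lit 55806) (nat_lit 9) nil (node (nat_lit 8) (nat_lit 55806) (nat_lit 9) nil nil)) (node
  (nat_lit 4) (nat_lit 55806) (nat_lit 8) (node (nat_lit 5) (nat_lit 56678) (nat_lit 9) nil nil)
  (node (nat_lit 5) (nat_lit 56498) (nat_lit 8) nil nil))) (node (nat_lit 4) (nat_lit 55806)
  (nat_lit 7) (node (nat_lit 7) (nat_lit 55806) (nat_lit 8) nil (node (nat_lit 8) (nat_lit 55806)
  (nat_lit 8) nil nil)) (node (nat_lit 5) (nat_lit 56815) (nat_lit 7) (node (nat_lit 7) (nat_lit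
  56815) (nat_lit 8) nil (node (nat_lit 8) (nat_lit 56815) (nat_lit 8) nil nil)) (node (nat_lit 0)
  (nat_lit 56815) (nat_lit 7) (node (nat_lit 7) (nat_lit 56815) (nat_lit 8) nil (node (nat_lit 8)
  (nat_lit 56815) (nat_lit 8) nil nil)) nil))))) nil))))

noncomputable def t56 : Tr :=
  (node (nat_lit 4) (nat_lit 0) (nat_lit 3) (node (nat_lit 3) (nat_lit 0) (nat_lit 4) (node
  (nat_lit 5) (nat_lit 45767) (nat_lit 5) t53 (node (nat_lit 4) (nat_lit 31646) (nat_lit 5) t54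
  (node (nat_lit 3) (nat_lit 35113) (nat_lit 5) t55 (node (nat_lit 0) (nat_lit 52162) (nat_lit 5)
  (node (nat_lit 4) (nat_lit 52545) (nat_lit 6) (node (nat_lit 7) (nat_lit 52599) (nat_lit 7)
  (node (nat_lit 4) (nat_lit 52570) (nat_lit 8) (node (nat_lit 5) (nat_lit 51231) (nat_lit 9)
  (node (nat_lit 4) (nat_lit 42057) (nat_lit 10) (node (nat_lit 7) (nat_lit 33827) (nat_lit 11)
  nil nil) nil) (node (nat_lit 8) (nat_lit 54252) (nat_lit 9) nil nil)) (node (nat_lit 5) (nat_lit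
  55218) (nat_lit 8) nil (node (nat_lit 3) (nat_lit 52599) (nat_lit 8) nil nil))) (node (nat_lit
  5) (nat_lit 56402) (nat_lit 7) (node (nat_lit 7) (nat_lit 56402) (nat_lit 8) (node (nat_lit 4)
  (nat_lit 56402) (nat_lit 9) nil nil) nil) (node (nat_lit 8) (nat_lit 56402) (nat_lit 7) (node
  (nat_lit 7) (nat_lit 56402) (nat_lit 8) (node (nat_lit 4) (nat_lit 56402) (nat_lit 9) (node
  (nat_lit 5) (nat_lit 57107) (nat_lit 10) (node (nat_lit 4) (nat_lit 57107) (nat_lit 11) (node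
  (nat_lit 7) (nat_lit 57107) (nat_lit 12) (node (nat_lit 8) (nat_lit 57437) (nat_lit 13) nil nil)
  nil) nil) nil) nil) (node (nat_lit 3) (nat_lit 56402) (nat_lit 8) nil nil)) (node (nat_lit 3)
  (nat_lit 52545) (nat_lit 7) (node (nat_lit 7) (nat_lit 52545) (nat_lit 8) (node (nat_lit 4)
  (nat_lit 52332) (nat_lit 9) nil nil) (node (nat_lit 4) (nat_lit 52545) (nat_lit 8) (node
  (nat_lit 5) (nat_lit 51231) (nat_lit 9) nil nil) nil)) (node (nat_lit 0) (nat_lit 55339)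
  (nat_lit 7) (node (nat_lit 7) (nat_lit 55339) (nat_lit 8) nil nil) nil))))) (node (nat_lit 5)
  (nat_lit 55875) (nat_lit 6) (node (nat_lit 7) (nat_lit 55875) (nat_lit 7) (node (nat_lit 4)
  (nat_lit 55875) (nat_lit 8) (node (nat_lit 5) (nat_lit 56747) (nat_lit 9) nil nil) nil) (node
  (nat_lit 4) (nat_lit 55875) (nat_lit 7) (node (nat_lit 7) (nat_lit 55875) (nat_lit 8) nil nil)
  (node (nat_lit 8) (nat_lit 56913) (nat_lit 7) (node (nat_lit 7) (nat_lit 56913) (nat_lit 8)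
  (node (nat_lit 4) (nat_lit 56913) (nat_lit 9) (node (nat_lit 5) (nat_lit 57509) (nat_lit 10)
  (node (nat_lit 4) (nat_lit 57509) (nat_lit 11) (node (nat_lit 7) (nat_lit 57509) (nat_lit 12)
  nil nil) nil) nil) nil) nil) (node (nat_lit 3) (nat_lit 55875) (nat_lit 7) (node (nat_lit 7)
  (nat_lit 55875) (nat_lit 8) nil (node (nat_lit 4) (nat_lit 55875) (nat_lit 8) (node (nat_lit 5)
  (nat_lit 56747) (nat_lit 9) nil nil) nil)) (node (nat_lit 0) (nat_lit 56287) (nat_lit 7) nil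
  nil))))) (node (nat_lit 7) (nat_lit 52627) (nat_lit 6) (node (nat_lit 4) (nat_lit 52543)
  (nat_lit 7) (node (nat_lit 5) (nat_lit 55662) (nat_lit 8) (node (nat_lit 4) (nat_lit 55662)
  (nat_lit 9) (node (nat_lit 7) (nat_lit 55662) (nat_lit 10) (node (nat_lit 8) (nat_lit 25108)
  (nat_lit 11) nil nil) nil) nil) (node (nat_lit 7) (nat_lit 52543) (nat_lit 8) nil (node (nat_lit
  8) (nat_lit 54904) (nat_lit 8) nil nil))) (node (nat_lit 5) (nat_lit 56402) (nat_lit 7) (node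
  (nat_lit 7) (nat_lit 56402) (nat_lit 8) (node (nat_lit 4) (nat_lit 56402) (nat_lit 9) nil nil)
  nil) (node (nat_lit 3) (nat_lit 52627) (nat_lit 7) (node (nat_lit 7) (nat_lit 52627) (nat_lit 8)
  (node (nat_lit 5) (nat_lit 54309) (nat_lit 9) nil nil) (node (nat_lit 4) (nat_lit 52627)
  (nat_lit 8) (node (nat_lit 5) (nat_lit 54309) (nat_lit 9) (node (nat_lit 4) (nat_lit 46410)
  (nat_lit 10) nil nil) nil) (node (nat_lit 5) (nat_lit 54129) (nat_lit 8) nil nil))) (node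
  (nat_lit 0) (nat_lit 55361) (nat_lit 7) (node (nat_lit 7) (nat_lit 55361) (nat_lit 8) nil nil)
  nil)))) (node (nat_lit 3) (nat_lit 52166) (nat_lit 6) (node (nat_lit 7) (nat_lit 52166) (nat_lit
  7) (node (nat_lit 9) (nat_lit 52166) (nat_lit 8) (node (nat_lit 4) (nat_lit 52166) (nat_lit 9)
  nil nil) (node (nat_lit 4) (nat_lit 52166) (nat_lit 8) (node (nat_lit 5) (nat_lit 53815)
  (nat_lit 9) nil nil) nil)) (node (nat_lit 4) (nat_lit 52166) (nat_lit 7) (node (nat_lit 5)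
  (nat_lit 53668) (nat_lit 8) (node (nat_lit 4) (nat_lit 53668) (nat_lit 9) (node (nat_lit 7)
  (nat_lit 53668) (nat_lit 10) nil nil) nil) (node (nat_lit 7) (nat_lit 52166) (nat_lit 8) (node
  (nat_lit 4) (nat_lit 50668) (nat_lit 9) nil nil) (node (nat_lit 9) (nat_lit 52166) (nat_lit 8)
  nil nil))) (node (nat_lit 8) (nat_lit 55361) (nat_lit 7) (node (nat_lit 7) (nat_lit 55361)
  (nat_lit 8) (node (nat_lit 4) (nat_lit 55361) (nat_lit 9) nil nil) nil) (node (nat_lit 5)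
  (nat_lit 54961) (nat_lit 7) (node (nat_lit 7) (nat_lit 54961) (nat_lit 8) nil nil) (node
  (nat_lit 0) (nat_lit 54961) (nat_lit 7) nil nil))))) (node (nat_lit 0) (nat_lit 55831) (nat_lit
  6) (node (nat_lit 7) (nat_lit 55831) (nat_lit 7) (node (nat_lit 4) (nat_lit 55831) (nat_lit 8)
  (node (nat_lit 5) (nat_lit 56703) (nat_lit 9) nil nil) nil) (node (nat_lit 8) (nat_lit 56592)
  (nat_lit 7) (node (nat_lit 7) (nat_lit 56592) (nat_lit 8) nil nil) (node (nat_lit 4) (nat_lit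
  55831) (nat_lit 7) (node (nat_lit 7) (nat_lit 55831) (nat_lit 8) nil nil) (node (nat_lit 3)
  (nat_lit 55831) (nat_lit 7) (node (nat_lit 4) (nat_lit 55831) (nat_lit 8) nil (node (nat_lit 7)
  (nat_lit 55831) (nat_lit 8) nil nil)) (node (nat_lit 5) (nat_lit 56243) (nat_lit 7) (node
  (nat_lit 7) (nat_lit 56243) (nat_lit 8) (node (nat_lit 4) (nat_lit 56243) (nat_lit 9) nil nil)
  nil) (node (nat_lit 0) (nat_lit 56243) (nat_lit 7) nil nil)))))) nil))))) nil)))) (node (nat_lit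
  0) (nat_lit 0) (nat_lit 4) (node (nat_lit 5) (nat_lit 52728) (nat_lit 5) (node (nat_lit 4)
  (nat_lit 53312) (nat_lit 6) (node (nat_lit 5) (nat_lit 58293) (nat_lit 7) (node (nat_lit 7)
  (nat_lit 59410) (nat_lit 8) (node (nat_lit 5) (nat_lit 60067) (nat_lit 9) (node (nat_lit 4)
  (nat_lit 60067) (nat_lit 10) (node (nat_lit 7) (nat_lit 60323) (nat_lit 11) nil nil) nil) (node
  (nat_lit 4) (nat_lit 59410) (nat_lit 9) (node (nat_lit 5) (nat_lit 59726) (nat_lit 10) nil nil)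
  (node (nat_lit 3) (nat_lit 59410) (nat_lit 9) nil (node (nat_lit 0) (nat_lit 59859) (nat_lit 9)
  nil nil)))) (node (nat_lit 3) (nat_lit 58293) (nat_lit 8) (node (nat_lit 4) (nat_lit 58293)
  (nat_lit 9) (node (nat_lit 5) (nat_lit 58890) (nat_lit 10) (node (nat_lit 4) (nat_lit 58890)
  (nat_lit 11) (node (nat_lit 7) (nat_lit 59119) (nat_lit 12) (node (nat_lit 5) (nat_lit 59208)
  (nat_lit 13) (node (nat_lit 4) (nat_lit 59208) (nat_lit 14) nil nil) nil) nil) nil) nil) (node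
  (nat_lit 5) (nat_lit 58753) (nat_lit 9) nil (node (nat_lit 7) (nat_lit 58753) (nat_lit 9) nil
  nil))) (node (nat_lit 0) (nat_lit 59315) (nat_lit 8) (node (nat_lit 4) (nat_lit 59315) (nat_lit
  9) (node (nat_lit 5) (nat_lit 59632) (nat_lit 10) nil nil) (node (nat_lit 5) (nat_lit 59495)
  (nat_lit 9) nil (node (nat_lit 7) (nat_lit 59495) (nat_lit 9) nil nil))) nil))) (node (nat_lit
  3) (nat_lit 54117) (nat_lit 7) (node (nat_lit 4) (nat_lit 54149) (nat_lit 8) (node (nat_lit 5)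
  (nat_lit 55831) (nat_lit 9) (node (nat_lit 4) (nat_lit 50661) (nat_lit 10) (node (nat_lit 7)
  (nat_lit 42479) (nat_lit 11) nil nil) nil) (node (nat_lit 7) (nat_lit 55831) (nat_lit 9) nil
  nil)) (node (nat_lit 7) (nat_lit 57048) (nat_lit 8) nil (node (nat_lit 3) (nat_lit 53854)
  (nat_lit 8) (node (nat_lit 10) (nat_lit 53854) (nat_lit 9) nil nil) (node (nat_lit 5) (nat_lit
  56504) (nat_lit 8) nil (node (nat_lit 0) (nat_lit 56504) (nat_lit 8) nil nil))))) (node (nat_lit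
  0) (nat_lit 58293) (nat_lit 7) (node (nat_lit 4) (nat_lit 58293) (nat_lit 8) (node (nat_lit 5)
  (nat_lit 58753) (nat_lit 9) nil nil) (node (nat_lit 7) (nat_lit 58832) (nat_lit 8) nil (node
  (nat_lit 5) (nat_lit 58832) (nat_lit 8) nil nil))) nil))) (node (nat_lit 7) (nat_lit 56291)
  (nat_lit 6) (node (nat_lit 4) (nat_lit 56208) (nat_lit 7) (node (nat_lit 5) (nat_lit 58135)
  (nat_lit 8) nil nil) (node (nat_lit 3) (nat_lit 56291) (nat_lit 7) nil nil)) (node (nat_lit 3)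
  (nat_lit 53017) (nat_lit 6) (node (nat_lit 4) (nat_lit 53017) (nat_lit 7) (node (nat_lit 5)
  (nat_lit 54519) (nat_lit 8) (node (nat_lit 4) (nat_lit 54519) (nat_lit 9) (node (nat_lit 7)
  (nat_lit 54836) (nat_lit 10) nil nil) nil) nil) (node (nat_lit 5) (nat_lit 54239) (nat_lit 7)
  nil (node (nat_lit 3) (nat_lit 53017) (nat_lit 7) nil (node (nat_lit 7) (nat_lit 54922) (nat_lit
  7) nil nil)))) (node (nat_lit 0) (nat_lit 56184) (nat_lit 6) nil nil)))) (node (nat_lit 3)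
  (nat_lit 47003) (nat_lit 5) (node (nat_lit 4) (nat_lit 48819) (nat_lit 6) (node (nat_lit 5)
  (nat_lit 52671) (nat_lit 7) (node (nat_lit 4) (nat_lit 52671) (nat_lit 8) (node (nat_lit 7)
  (nat_lit 26599) (nat_lit 9) nil nil) nil) (node (nat_lit 8) (nat_lit 50427) (nat_lit 7) (node
  (nat_lit 7) (nat_lit 52972) (nat_lit 8) nil nil) (node (nat_lit 7) (nat_lit 53585) (nat_lit 7)
  (node (nat_lit 4) (nat_lit 53585) (nat_lit 8) (node (nat_lit 8) (nat_lit 53585) (nat_lit 9)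
  (node (nat_lit 4) (nat_lit 53585) (nat_lit 10) nil nil) nil) nil) (node (nat_lit 3) (nat_lit
  48819) (nat_lit 7) (node (nat_lit 4) (nat_lit 48364) (nat_lit 8) nil nil) (node (nat_lit 0)
  (nat_lit 52671) (nat_lit 7) nil nil))))) (node (nat_lit 5) (nat_lit 55133) (nat_lit 6) (node
  (nat_lit 8) (nat_lit 55133) (nat_lit 7) (node (nat_lit 4) (nat_lit 55133) (nat_lit 8) (node
  (nat_lit 5) (nat_lit 56059) (nat_lit 9) (node (nat_lit 4) (nat_lit 56059) (nat_lit 10) (node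
  (nat_lit 7) (nat_lit 56374) (nat_lit 11) (node (nat_lit 8) (nat_lit 56374) (nat_lit 12) nil nil)
  nil) nil) nil) nil) (node (nat_lit 7) (nat_lit 55532) (nat_lit 7) nil nil)) (node (nat_lit 7)
  (nat_lit 54830) (nat_lit 6) (node (nat_lit 4) (nat_lit 54830) (nat_lit 7) (node (nat_lit 8)
  (nat_lit 54830) (nat_lit 8) (node (nat_lit 4) (nat_lit 54830) (nat_lit 9) nil nil) nil) nil)
  (node (nat_lit 3) (nat_lit 48689) (nat_lit 6) (node (nat_lit 4) (nat_lit 48689) (nat_lit 7)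
  (node (nat_lit 5) (nat_lit 48596) (nat_lit 8) (node (nat_lit 4) (nat_lit 30207) (nat_lit 9) nil
  nil) nil) (node (nat_lit 5) (nat_lit 52671) (nat_lit 7) nil (node (nat_lit 8) (nat_lit 49177)
  (nat_lit 7) (node (nat_lit 4) (nat_lit 49177) (nat_lit 8) (node (nat_lit 5) (nat_lit 39240)
  (nat_lit 9) nil nil) nil) (node (nat_lit 7) (nat_lit 51359) (nat_lit 7) nil nil)))) (node
  (nat_lit 0) (nat_lit 53651) (nat_lit 6) (node (nat_lit 8) (nat_lit 53651) (nat_lit 7) nil nil)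
  nil))))) (node (nat_lit 4) (nat_lit 46970) (nat_lit 5) (node (nat_lit 5) (nat_lit 55931)
  (nat_lit 6) (node (nat_lit 7) (nat_lit 58043) (nat_lit 7) nil (node (nat_lit 4) (nat_lit 55931)
  (nat_lit 7) nil (node (nat_lit 3) (nat_lit 55931) (nat_lit 7) nil nil))) (node (nat_lit 3)
  (nat_lit 48625) (nat_lit 6) (node (nat_lit 4) (nat_lit 49426) (nat_lit 7) (node (nat_lit 5)
  (nat_lit 52375) (nat_lit 8) nil (node (nat_lit 7) (nat_lit 52972) (nat_lit 8) nil nil)) (node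
  (nat_lit 5) (nat_lit 53806) (nat_lit 7) nil (node (nat_lit 7) (nat_lit 53806) (nat_lit 7) nil
  (node (nat_lit 3) (nat_lit 49047) (nat_lit 7) nil nil)))) (node (nat_lit 0) (nat_lit 54916)
  (nat_lit 6) nil nil))) (node (nat_lit 0) (nat_lit 52614) (nat_lit 5) (node (nat_lit 4) (nat_lit
  52847) (nat_lit 6) (node (nat_lit 5) (nat_lit 55434) (nat_lit 7) nil (node (nat_lit 7) (nat_lit
  55743) (nat_lit 7) (node (nat_lit 4) (nat_lit 55743) (nat_lit 8) nil nil) (node (nat_lit 8)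
  (nat_lit 55434) (nat_lit 7) nil nil))) (node (nat_lit 3) (nat_lit 52614) (nat_lit 6) (node
  (nat_lit 5) (nat_lit 53836) (nat_lit 7) nil (node (nat_lit 4) (nat_lit 52614) (nat_lit 7) nil
  (node (nat_lit 3) (nat_lit 52614) (nat_lit 7) nil nil))) (node (nat_lit 7) (nat_lit 56027)
  (nat_lit 6) nil (node (nat_lit 5) (nat_lit 55748) (nat_lit 6) nil (node (nat_lit 0) (nat_lit
  55054) (nat_lit 6) nil nil))))) nil)))) nil)) (node (nat_lit 0) (nat_lit 0) (nat_lit 3) (node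
  (nat_lit 3) (nat_lit 0) (nat_lit 4) (node (nat_lit 5) (nat_lit 96497) (nat_lit 5) (node (nat_lit
  7) (nat_lit 98500) (nat_lit 6) (node (nat_lit 4) (nat_lit 98500) (nat_lit 7) (node (nat_lit 5)
  (nat_lit 99542) (nat_lit 8) (node (nat_lit 6) (nat_lit 99689) (nat_lit 9) (node (nat_lit 7)
  (nat_lit 99689) (nat_lit 10) nil nil) nil) nil) nil) (node (nat_lit 4) (nat_lit 98500) (nat_lit
  6) (node (nat_lit 5) (nat_lit 90079) (nat_lit 7) (node (nat_lit 6) (nat_lit 68689) (nat_lit 8)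
  (node (nat_lit 7) (nat_lit 47173) (nat_lit 9) nil nil) nil) nil) nil)) (node (nat_lit 6)
  (nat_lit 96777) (nat_lit 5) (node (nat_lit 5) (nat_lit 97254) (nat_lit 6) (node (nat_lit 4)
  (nat_lit 97254) (nat_lit 7) nil nil) nil) (node (nat_lit 3) (nat_lit 89435) (nat_lit 5) (node
  (nat_lit 7) (nat_lit 89435) (nat_lit 6) nil (node (nat_lit 5) (nat_lit 94131) (nat_lit 6) nil
  (node (nat_lit 6) (nat_lit 94131) (nat_lit 6) (node (nat_lit 5) (nat_lit 94582) (nat_lit 7) nil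
  nil) (node (nat_lit 4) (nat_lit 89435) (nat_lit 6) (node (nat_lit 5) (nat_lit 76901) (nat_lit 7)
  (node (nat_lit 6) (nat_lit 65780) (nat_lit 8) nil nil) nil) nil)))) (node (nat_lit 4) (nat_lit
  90203) (nat_lit 5) (node (nat_lit 5) (nat_lit 94561) (nat_lit 6) (node (nat_lit 6) (nat_lit
  68923) (nat_lit 7) nil nil) (node (nat_lit 6) (nat_lit 94561) (nat_lit 6) nil (node (nat_lit 7)
  (nat_lit 90081) (nat_lit 6) (node (nat_lit 5) (nat_lit 95012) (nat_lit 7) nil (node (nat_lit 6)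
  (nat_lit 95012) (nat_lit 7) nil nil)) (node (nat_lit 3) (nat_lit 88170) (nat_lit 6) (node
  (nat_lit 4) (nat_lit 76259) (nat_lit 7) nil nil) nil)))) (node (nat_lit 0) (nat_lit 94650)
  (nat_lit 5) (node (nat_lit 5) (nat_lit 95127) (nat_lit 6) nil nil) nil))))) (node (nat_lit 5)
  (nat_lit 0) (nat_lit 4) (node (nat_lit 3) (nat_lit 95289) (nat_lit 5) (node (nat_lit 5) (nat_lit
  101347) (nat_lit 6) (node (nat_lit 6) (nat_lit 101798) (nat_lit 7) (node (nat_lit 8) (nat_lit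
  101798) (nat_lit 8) nil nil) nil) (node (nat_lit 6) (nat_lit 101347) (nat_lit 6) nil (node
  (nat_lit 3) (nat_lit 95133) (nat_lit 6) (node (nat_lit 8) (nat_lit 90289) (nat_lit 7) (node
  (nat_lit 5) (nat_lit 91076) (nat_lit 8) nil nil) (node (nat_lit 4) (nat_lit 83506) (nat_lit 7)
  nil nil)) (node (nat_lit 4) (nat_lit 97248) (nat_lit 6) (node (nat_lit 5) (nat_lit 101798)
  (nat_lit 7) (node (nat_lit 6) (nat_lit 102107) (nat_lit 8) nil nil) nil) nil)))) (node (nat_lit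
  4) (nat_lit 96421) (nat_lit 5) (node (nat_lit 6) (nat_lit 105774) (nat_lit 6) nil (node (nat_lit
  5) (nat_lit 102112) (nat_lit 6) (node (nat_lit 6) (nat_lit 56360) (nat_lit 7) (node (nat_lit 4)
  (nat_lit 56360) (nat_lit 8) (node (nat_lit 6) (nat_lit 57078) (nat_lit 9) (node (nat_lit 5)
  (nat_lit 57078) (nat_lit 10) (node (nat_lit 4) (nat_lit 57078) (nat_lit 11) (node (nat_lit 5)
  (nat_lit 57078) (nat_lit 12) nil nil) nil) nil) (node (nat_lit 5) (nat_lit 57078) (nat_lit 9)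
  nil nil)) (node (nat_lit 3) (nat_lit 56360) (nat_lit 8) nil (node (nat_lit 0) (nat_lit 57038)
  (nat_lit 8) nil nil))) nil) (node (nat_lit 3) (nat_lit 98433) (nat_lit 6) (node (nat_lit 4)
  (nat_lit 94289) (nat_lit 7) nil nil) nil))) (node (nat_lit 0) (nat_lit 101003) (nat_lit 5) nil
  nil))) (node (nat_lit 4) (nat_lit 0) (nat_lit 4) (node (nat_lit 3) (nat_lit 91814) (nat_lit 5)
  (node (nat_lit 6) (nat_lit 96388) (nat_lit 6) (node (nat_lit 5) (nat_lit 96722) (nat_lit 7) nil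
  nil) (node (nat_lit 5) (nat_lit 97958) (nat_lit 6) (node (nat_lit 4) (nat_lit 93056) (nat_lit 7)
  (node (nat_lit 5) (nat_lit 87902) (nat_lit 8) nil nil) (node (nat_lit 8) (nat_lit 97958)
  (nat_lit 7) (node (nat_lit 4) (nat_lit 97958) (nat_lit 8) (node (nat_lit 5) (nat_lit 98523)
  (nat_lit 9) (node (nat_lit 6) (nat_lit 98606) (nat_lit 10) (node (nat_lit 4) (nat_lit 98606)
  (nat_lit 11) (node (nat_lit 8) (nat_lit 98606) (nat_lit 12) nil nil) nil) nil) nil) (node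
  (nat_lit 6) (nat_lit 98415) (nat_lit 8) (node (nat_lit 5) (nat_lit 98523) (nat_lit 9) nil nil)
  nil)) nil)) (node (nat_lit 4) (nat_lit 91814) (nat_lit 6) (node (nat_lit 5) (nat_lit 94454)
  (nat_lit 7) (node (nat_lit 6) (nat_lit 75828) (nat_lit 8) (node (nat_lit 4) (nat_lit 70479)
  (nat_lit 9) nil nil) nil) nil) (node (nat_lit 3) (nat_lit 91814) (nat_lit 6) (node (nat_lit 4)
  (nat_lit 87404) (nat_lit 7) (node (nat_lit 5) (nat_lit 76986) (nat_lit 8) (node (nat_lit 6)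
  (nat_lit 69716) (nat_lit 9) nil nil) nil) (node (nat_lit 8) (nat_lit 89027) (nat_lit 7) nil
  (node (nat_lit 6) (nat_lit 96722) (nat_lit 7) (node (nat_lit 5) (nat_lit 96954) (nat_lit 8)
  (node (nat_lit 6) (nat_lit 97101) (nat_lit 9) nil nil) nil) nil))) (node (nat_lit 0) (nat_lit
  96388) (nat_lit 6) nil nil))))) (node (nat_lit 6) (nat_lit 99892) (nat_lit 5) (node (nat_lit 5)
  (nat_lit 104994) (nat_lit 6) (node (nat_lit 4) (nat_lit 105675) (nat_lit 7) (node (nat_lit 5)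
  (nat_lit 108325) (nat_lit 8) (node (nat_lit 6) (nat_lit 108434) (nat_lit 9) (node (nat_lit 4)
  (nat_lit 108434) (nat_lit 10) (node (nat_lit 6) (nat_lit 55225) (nat_lit 11) nil nil) nil) nil)
  nil) nil) (node (nat_lit 3) (nat_lit 101814) (nat_lit 6) (node (nat_lit 4) (nat_lit 102285)
  (nat_lit 7) nil nil) nil)) (node (nat_lit 0) (nat_lit 101373) (nat_lit 5) (node (nat_lit 5)
  (nat_lit 101882) (nat_lit 6) (node (nat_lit 4) (nat_lit 101882) (nat_lit 7) (node (nat_lit 5)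
  (nat_lit 102302) (nat_lit 8) (node (nat_lit 6) (nat_lit 102410) (nat_lit 9) nil nil) nil) nil)
  (node (nat_lit 3) (nat_lit 98914) (nat_lit 6) nil nil)) (node (nat_lit 5) (nat_lit 94825)
  (nat_lit 5) (node (nat_lit 4) (nat_lit 103848) (nat_lit 6) (node (nat_lit 6) (nat_lit 108902)
  (nat_lit 7) (node (nat_lit 5) (nat_lit 108902) (nat_lit 8) (node (nat_lit 4) (nat_lit 108902)
  (nat_lit 9) (node (nat_lit 5) (nat_lit 108902) (nat_lit 10) (node (nat_lit 6) (nat_lit 108902)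
  (nat_lit 11) (node (nat_lit 4) (nat_lit 108902) (nat_lit 12) (node (nat_lit 5) (nat_lit 108902)
  (nat_lit 13) (node (nat_lit 4) (nat_lit 108902) (nat_lit 14) (node (nat_lit 6) (nat_lit 57078)
  (nat_lit 15) nil nil) nil) nil) nil) nil) nil) nil) nil) nil) (node (nat_lit 3) (nat_lit 101782)
  (nat_lit 6) nil nil)) nil)))) (node (nat_lit 0) (nat_lit 0) (nat_lit 4) (node (nat_lit 5)
  (nat_lit 100572) (nat_lit 5) (node (nat_lit 7) (nat_lit 102101) (nat_lit 6) nil (node (nat_lit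
  6) (nat_lit 102101) (nat_lit 6) (node (nat_lit 5) (nat_lit 102552) (nat_lit 7) nil nil) (node
  (nat_lit 4) (nat_lit 101475) (nat_lit 6) (node (nat_lit 5) (nat_lit 102552) (nat_lit 7) (node
  (nat_lit 6) (nat_lit 102860) (nat_lit 8) nil nil) nil) nil))) (node (nat_lit 6) (nat_lit 101475)
  (nat_lit 5) (node (nat_lit 5) (nat_lit 102101) (nat_lit 6) nil nil) (node (nat_lit 3) (nat_lit
  92463) (nat_lit 5) (node (nat_lit 4) (nat_lit 96138) (nat_lit 6) nil nil) (node (nat_lit 4)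
  (nat_lit 97295) (nat_lit 5) (node (nat_lit 5) (nat_lit 100801) (nat_lit 6) nil (node (nat_lit 6)
  (nat_lit 100801) (nat_lit 6) nil (node (nat_lit 7) (nat_lit 100801) (nat_lit 6) nil nil))) (node
  (nat_lit 0) (nat_lit 100174) (nat_lit 5) nil nil))))) nil)))) nil))

noncomputable def t57 : Tr :=
  (node (nat_lit 1) (nat_lit 0) (nat_lit 3) (node (nat_lit 3) (nat_lit 101715) (nat_lit 4) (node
  (nat_lit 5) (nat_lit 110870) (nat_lit 5) (node (nat_lit 7) (nat_lit 110870) (nat_lit 6) (node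
  (nat_lit 6) (nat_lit 111680) (nat_lit 7) (node (nat_lit 5) (nat_lit 111913) (nat_lit 8) (node
  (nat_lit 6) (nat_lit 112059) (nat_lit 9) (node (nat_lit 7) (nat_lit 112059) (nat_lit 10) nil
  nil) nil) nil) (node (nat_lit 4) (nat_lit 110870) (nat_lit 7) (node (nat_lit 5) (nat_lit 111913)
  (nat_lit 8) (node (nat_lit 6) (nat_lit 112059) (nat_lit 9) (node (nat_lit 7) (nat_lit 112059)
  (nat_lit 10) nil nil) nil) nil) nil)) (node (nat_lit 3) (nat_lit 110870) (nat_lit 6) nil (node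
  (nat_lit 6) (nat_lit 111346) (nat_lit 6) nil nil))) (node (nat_lit 6) (nat_lit 108761) (nat_lit
  5) (node (nat_lit 5) (nat_lit 109387) (nat_lit 6) (node (nat_lit 6) (nat_lit 109838) (nat_lit 7)
  nil nil) (node (nat_lit 4) (nat_lit 108761) (nat_lit 6) (node (nat_lit 7) (nat_lit 108761)
  (nat_lit 7) (node (nat_lit 4) (nat_lit 108761) (nat_lit 8) nil nil) (node (nat_lit 5) (nat_lit
  109838) (nat_lit 7) (node (nat_lit 6) (nat_lit 87251) (nat_lit 8) (node (nat_lit 7) (nat_lit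
  45678) (nat_lit 9) nil nil) nil) nil)) nil)) (node (nat_lit 3) (nat_lit 101715) (nat_lit 5)
  (node (nat_lit 7) (nat_lit 101715) (nat_lit 6) (node (nat_lit 5) (nat_lit 105315) (nat_lit 7)
  (node (nat_lit 6) (nat_lit 105623) (nat_lit 8) nil nil) nil) (node (nat_lit 6) (nat_lit 104864)
  (nat_lit 6) (node (nat_lit 5) (nat_lit 105315) (nat_lit 7) (node (nat_lit 6) (nat_lit 105623)
  (nat_lit 8) nil nil) nil) (node (nat_lit 4) (nat_lit 99444) (nat_lit 6) nil nil))) (node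
  (nat_lit 4) (nat_lit 102146) (nat_lit 5) (node (nat_lit 6) (nat_lit 105295) (nat_lit 6) (node
  (nat_lit 4) (nat_lit 105295) (nat_lit 7) nil nil) (node (nat_lit 5) (nat_lit 105295) (nat_lit 6)
  (node (nat_lit 6) (nat_lit 84643) (nat_lit 7) nil nil) (node (nat_lit 7) (nat_lit 102146)
  (nat_lit 6) (node (nat_lit 6) (nat_lit 105745) (nat_lit 7) nil nil) nil))) nil)))) (node
  (nat_lit 4) (nat_lit 0) (nat_lit 4) (node (nat_lit 5) (nat_lit 52679) (nat_lit 5) (node (nat_lit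
  4) (nat_lit 53156) (nat_lit 6) (node (nat_lit 6) (nat_lit 57078) (nat_lit 7) (node (nat_lit 4)
  (nat_lit 57078) (nat_lit 8) (node (nat_lit 5) (nat_lit 57078) (nat_lit 9) (node (nat_lit 6)
  (nat_lit 57078) (nat_lit 10) (node (nat_lit 5) (nat_lit 57078) (nat_lit 11) (node (nat_lit 4)
  (nat_lit 57078) (nat_lit 12) (node (nat_lit 5) (nat_lit 57078) (nat_lit 13) (node (nat_lit 6)
  (nat_lit 57078) (nat_lit 14) nil nil) nil) nil) (node (nat_lit 4) (nat_lit 57078) (nat_lit 11)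
  nil nil)) (node (nat_lit 3) (nat_lit 57078) (nat_lit 10) (node (nat_lit 4) (nat_lit 57078)
  (nat_lit 11) nil nil) nil)) (node (nat_lit 3) (nat_lit 57078) (nat_lit 9) (node (nat_lit 4)
  (nat_lit 57078) (nat_lit 10) nil nil) (node (nat_lit 0) (nat_lit 57078) (nat_lit 9) nil nil)))
  (node (nat_lit 5) (nat_lit 57078) (nat_lit 8) (node (nat_lit 4) (nat_lit 57078) (nat_lit 9) nil
  (node (nat_lit 6) (nat_lit 57078) (nat_lit 9) nil nil)) (node (nat_lit 3) (nat_lit 57078)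
  (nat_lit 8) nil (node (nat_lit 0) (nat_lit 57078) (nat_lit 8) nil nil)))) (node (nat_lit 3)
  (nat_lit 53156) (nat_lit 7) (node (nat_lit 4) (nat_lit 53156) (nat_lit 8) (node (nat_lit 5)
  (nat_lit 54765) (nat_lit 9) nil nil) (node (nat_lit 6) (nat_lit 54516) (nat_lit 8) nil (node
  (nat_lit 5) (nat_lit 54516) (nat_lit 8) nil (node (nat_lit 3) (nat_lit 53156) (nat_lit 8) nil
  nil)))) (node (nat_lit 0) (nat_lit 56147) (nat_lit 7) (node (nat_lit 5) (nat_lit 56476) (nat_lit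
  8) nil (node (nat_lit 4) (nat_lit 56147) (nat_lit 8) nil nil)) nil))) (node (nat_lit 3) (nat_lit
  52757) (nat_lit 6) (node (nat_lit 4) (nat_lit 52757) (nat_lit 7) (node (nat_lit 5) (nat_lit
  54143) (nat_lit 8) (node (nat_lit 6) (nat_lit 54339) (nat_lit 9) (node (nat_lit 4) (nat_lit
  54339) (nat_lit 10) nil nil) nil) nil) (node (nat_lit 5) (nat_lit 54708) (nat_lit 7) (node
  (nat_lit 4) (nat_lit 54708) (nat_lit 8) (node (nat_lit 9) (nat_lit 54708) (nat_lit 9) (node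
  (nat_lit 4) (nat_lit 54708) (nat_lit 10) nil nil) nil) nil) (node (nat_lit 6) (nat_lit 55168)
  (nat_lit 7) nil (node (nat_lit 3) (nat_lit 52757) (nat_lit 7) nil (node (nat_lit 0) (nat_lit
  53834) (nat_lit 7) nil nil))))) (node (nat_lit 0) (nat_lit 55380) (nat_lit 6) (node (nat_lit 4)
  (nat_lit 55380) (nat_lit 7) nil (node (nat_lit 5) (nat_lit 56266) (nat_lit 7) nil (node (nat_lit
  6) (nat_lit 55817) (nat_lit 7) nil nil))) nil))) (node (nat_lit 6) (nat_lit 116403) (nat_lit 5)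
  (node (nat_lit 5) (nat_lit 118848) (nat_lit 6) (node (nat_lit 4) (nat_lit 118848) (nat_lit 7)
  (node (nat_lit 6) (nat_lit 119613) (nat_lit 8) (node (nat_lit 4) (nat_lit 119613) (nat_lit 9)
  (node (nat_lit 5) (nat_lit 120056) (nat_lit 10) (node (nat_lit 6) (nat_lit 120207) (nat_lit 11)
  (node (nat_lit 4) (nat_lit 116487) (nat_lit 12) (node (nat_lit 6) (nat_lit 109980) (nat_lit 13)
  (node (nat_lit 5) (nat_lit 98530) (nat_lit 14) (node (nat_lit 4) (nat_lit 54709) (nat_lit 15)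
  nil nil) nil) nil) nil) nil) nil) nil) nil) nil) nil) (node (nat_lit 3) (nat_lit 104626)
  (nat_lit 5) (node (nat_lit 6) (nat_lit 108758) (nat_lit 6) (node (nat_lit 4) (nat_lit 108758)
  (nat_lit 7) nil nil) (node (nat_lit 4) (nat_lit 104626) (nat_lit 6) (node (nat_lit 5) (nat_lit
  105938) (nat_lit 7) (node (nat_lit 6) (nat_lit 85266) (nat_lit 8) (node (nat_lit 4) (nat_lit
  84433) (nat_lit 9) nil nil) nil) nil) nil)) (node (nat_lit 0) (nat_lit 113581) (nat_lit 5) nil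
  nil)))) (node (nat_lit 5) (nat_lit 110157) (nat_lit 4) (node (nat_lit 4) (nat_lit 111392)
  (nat_lit 5) (node (nat_lit 6) (nat_lit 118986) (nat_lit 6) (node (nat_lit 4) (nat_lit 118986)
  (nat_lit 7) (node (nat_lit 5) (nat_lit 119745) (nat_lit 8) (node (nat_lit 6) (nat_lit 119901)
  (nat_lit 9) (node (nat_lit 5) (nat_lit 102007) (nat_lit 10) (node (nat_lit 4) (nat_lit 54484)
  (nat_lit 11) nil nil) nil) nil) nil) nil) nil) (node (nat_lit 3) (nat_lit 110377) (nat_lit 5)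
  (node (nat_lit 4) (nat_lit 110377) (nat_lit 6) (node (nat_lit 5) (nat_lit 112531) (nat_lit 7)
  (node (nat_lit 6) (nat_lit 112840) (nat_lit 8) nil nil) nil) nil) nil)) (node (nat_lit 0)
  (nat_lit 109830) (nat_lit 4) (node (nat_lit 6) (nat_lit 112208) (nat_lit 5) (node (nat_lit 4)
  (nat_lit 112208) (nat_lit 6) (node (nat_lit 5) (nat_lit 113285) (nat_lit 7) (node (nat_lit 6)
  (nat_lit 113593) (nat_lit 8) (node (nat_lit 7) (nat_lit 48695) (nat_lit 9) nil nil) nil) nil)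
  nil) (node (nat_lit 5) (nat_lit 112208) (nat_lit 5) (node (nat_lit 6) (nat_lit 112834) (nat_lit
  6) nil nil) (node (nat_lit 3) (nat_lit 109830) (nat_lit 5) (node (nat_lit 6) (nat_lit 111534)
  (nat_lit 6) nil nil) (node (nat_lit 4) (nat_lit 109830) (nat_lit 5) (node (nat_lit 6) (nat_lit
  111534) (nat_lit 6) (node (nat_lit 4) (nat_lit 111534) (nat_lit 7) nil nil) nil) nil)))) nil))))
  (node (nat_lit 0) (nat_lit 0) (nat_lit 3) (node (nat_lit 3) (nat_lit 0) (nat_lit 4) (node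
  (nat_lit 6) (nat_lit 110865) (nat_lit 5) nil (node (nat_lit 5) (nat_lit 112587) (nat_lit 5)
  (node (nat_lit 7) (nat_lit 112587) (nat_lit 6) nil nil) (node (nat_lit 4) (nat_lit 105927)
  (nat_lit 5) (node (nat_lit 5) (nat_lit 109326) (nat_lit 6) (node (nat_lit 6) (nat_lit 80398)
  (nat_lit 7) nil nil) (node (nat_lit 7) (nat_lit 105338) (nat_lit 6) nil nil)) (node (nat_lit 1)
  (nat_lit 108738) (nat_lit 5) nil (node (nat_lit 3) (nat_lit 105927) (nat_lit 5) (node (nat_lit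
  7) (nat_lit 105927) (nat_lit 6) (node (nat_lit 5) (nat_lit 109660) (nat_lit 7) nil nil) (node
  (nat_lit 4) (nat_lit 96620) (nat_lit 6) nil nil)) (node (nat_lit 0) (nat_lit 108738) (nat_lit 5)
  nil nil)))))) (node (nat_lit 4) (nat_lit 0) (nat_lit 4) (node (nat_lit 6) (nat_lit 119046)
  (nat_lit 5) (node (nat_lit 5) (nat_lit 120957) (nat_lit 6) (node (nat_lit 4) (nat_lit 120957)
  (nat_lit 7) (node (nat_lit 5) (nat_lit 122520) (nat_lit 8) nil (node (nat_lit 6) (nat_lit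
  121722) (nat_lit 8) nil (node (nat_lit 3) (nat_lit 120957) (nat_lit 8) nil (node (nat_lit 1)
  (nat_lit 121722) (nat_lit 8) nil nil)))) (node (nat_lit 6) (nat_lit 121394) (nat_lit 7) nil
  (node (nat_lit 0) (nat_lit 121394) (nat_lit 7) nil (node (nat_lit 3) (nat_lit 120957) (nat_lit
  7) nil (node (nat_lit 1) (nat_lit 121394) (nat_lit 7) nil nil))))) (node (nat_lit 3) (nat_lit
  119046) (nat_lit 6) nil (node (nat_lit 0) (nat_lit 119640) (nat_lit 6) nil (node (nat_lit 1)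
  (nat_lit 119640) (nat_lit 6) (node (nat_lit 4) (nat_lit 119640) (nat_lit 7) (node (nat_lit 5)
  (nat_lit 120406) (nat_lit 8) (node (nat_lit 6) (nat_lit 120655) (nat_lit 9) nil nil) nil) nil)
  nil)))) (node (nat_lit 3) (nat_lit 107188) (nat_lit 5) (node (nat_lit 4) (nat_lit 107188)
  (nat_lit 6) (node (nat_lit 5) (nat_lit 106274) (nat_lit 7) (node (nat_lit 6) (nat_lit 87830)
  (nat_lit 8) (node (nat_lit 4) (nat_lit 81339) (nat_lit 9) nil nil) nil) nil) (node (nat_lit 6)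
  (nat_lit 110587) (nat_lit 6) nil (node (nat_lit 5) (nat_lit 112157) (nat_lit 6) nil nil))) (node
  (nat_lit 5) (nat_lit 121046) (nat_lit 5) (node (nat_lit 4) (nat_lit 121046) (nat_lit 6) (node
  (nat_lit 6) (nat_lit 124623) (nat_lit 7) nil nil) nil) (node (nat_lit 0) (nat_lit 115690)
  (nat_lit 5) (node (nat_lit 5) (nat_lit 116284) (nat_lit 6) nil nil) (node (nat_lit 1) (nat_lit
  115690) (nat_lit 5) (node (nat_lit 4) (nat_lit 114487) (nat_lit 6) (node (nat_lit 5) (nat_lit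
  111331) (nat_lit 7) (node (nat_lit 6) (nat_lit 77165) (nat_lit 8) (node (nat_lit 4) (nat_lit
  49161) (nat_lit 9) nil nil) nil) nil) (node (nat_lit 5) (nat_lit 116284) (nat_lit 6) nil nil))
  nil))))) (node (nat_lit 5) (nat_lit 0) (nat_lit 4) (node (nat_lit 4) (nat_lit 116641) (nat_lit
  5) (node (nat_lit 6) (nat_lit 121016) (nat_lit 6) nil (node (nat_lit 5) (nat_lit 122638)
  (nat_lit 6) nil nil)) (node (nat_lit 3) (nat_lit 115609) (nat_lit 5) (node (nat_lit 4) (nat_lit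
  111585) (nat_lit 6) (node (nat_lit 5) (nat_lit 113717) (nat_lit 7) (node (nat_lit 6) (nat_lit
  115119) (nat_lit 8) nil nil) nil) nil) (node (nat_lit 0) (nat_lit 117671) (nat_lit 5) nil (node
  (nat_lit 1) (nat_lit 117671) (nat_lit 5) (node (nat_lit 4) (nat_lit 117671) (nat_lit 6) (node
  (nat_lit 5) (nat_lit 118593) (nat_lit 7) nil nil) nil) nil)))) (node (nat_lit 0) (nat_lit
  114213) (nat_lit 4) (node (nat_lit 6) (nat_lit 114976) (nat_lit 5) nil (node (nat_lit 3)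
  (nat_lit 113387) (nat_lit 5) nil (node (nat_lit 1) (nat_lit 114976) (nat_lit 5) nil nil))) (node
  (nat_lit 1) (nat_lit 114213) (nat_lit 4) (node (nat_lit 3) (nat_lit 110204) (nat_lit 5) nil
  (node (nat_lit 5) (nat_lit 114976) (nat_lit 5) (node (nat_lit 7) (nat_lit 115570) (nat_lit 6)
  nil nil) (node (nat_lit 4) (nat_lit 114213) (nat_lit 5) (node (nat_lit 5) (nat_lit 115570)
  (nat_lit 6) (node (nat_lit 6) (nat_lit 47940) (nat_lit 7) nil nil) nil) nil))) nil))))) (node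
  (nat_lit 4) (nat_lit 0) (nat_lit 3) (node (nat_lit 3) (nat_lit 0) (nat_lit 4) (node (nat_lit 4)
  (nat_lit 92170) (nat_lit 5) (node (nat_lit 5) (nat_lit 93865) (nat_lit 6) (node (nat_lit 7)
  (nat_lit 98278) (nat_lit 7) (node (nat_lit 5) (nat_lit 100104) (nat_lit 8) (node (nat_lit 4)
  (nat_lit 101723) (nat_lit 9) (node (nat_lit 5) (nat_lit 102588) (nat_lit 10) (node (nat_lit 7)
  (nat_lit 103263) (nat_lit 11) (node (nat_lit 4) (nat_lit 103790) (nat_lit 12) (node (nat_lit 5)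
  (nat_lit 104201) (nat_lit 13) (node (nat_lit 4) (nat_lit 103959) (nat_lit 14) (node (nat_lit 7)
  (nat_lit 104138) (nat_lit 15) (node (nat_lit 4) (nat_lit 104002) (nat_lit 16) (node (nat_lit 5)
  (nat_lit 104054) (nat_lit 17) (node (nat_lit 7) (nat_lit 104173) (nat_lit 18) (node (nat_lit 5)
  (nat_lit 104265) (nat_lit 19) (node (nat_lit 4) (nat_lit 104213) (nat_lit 20) (node (nat_lit 5)
  (nat_lit 81715) (nat_lit 21) nil nil) nil) nil) nil) nil) nil) nil) nil) nil) nil) nil) nil)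
  nil) nil) (node (nat_lit 4) (nat_lit 81418) (nat_lit 7) nil nil)) (node (nat_lit 3) (nat_lit
  100345) (nat_lit 6) nil (node (nat_lit 1) (nat_lit 105847) (nat_lit 6) nil nil))) (node (nat_lit
  5) (nat_lit 100276) (nat_lit 5) (node (nat_lit 7) (nat_lit 105445) (nat_lit 6) (node (nat_lit 4)
  (nat_lit 112540) (nat_lit 7) (node (nat_lit 5) (nat_lit 117301) (nat_lit 8) (node (nat_lit 4)
  (nat_lit 115296) (nat_lit 9) (node (nat_lit 7) (nat_lit 115096) (nat_lit 10) (node (nat_lit 5)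
  (nat_lit 81712) (nat_lit 11) nil nil) nil) nil) nil) nil) (node (nat_lit 1) (nat_lit 115901)
  (nat_lit 6) nil (node (nat_lit 3) (nat_lit 113467) (nat_lit 6) nil nil))) (node (nat_lit 3)
  (nat_lit 99244) (nat_lit 5) (node (nat_lit 7) (nat_lit 100582) (nat_lit 6) (node (nat_lit 5)
  (nat_lit 118276) (nat_lit 7) nil nil) (node (nat_lit 4) (nat_lit 100594) (nat_lit 6) (node
  (nat_lit 5) (nat_lit 102837) (nat_lit 7) (node (nat_lit 4) (nat_lit 83493) (nat_lit 8) (node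
  (nat_lit 7) (nat_lit 82280) (nat_lit 9) nil nil) nil) nil) (node (nat_lit 5) (nat_lit 117194)
  (nat_lit 6) nil (node (nat_lit 1) (nat_lit 115923) (nat_lit 6) nil nil)))) (node (nat_lit 1)
  (nat_lit 114838) (nat_lit 5) (node (nat_lit 7) (nat_lit 116034) (nat_lit 6) (node (nat_lit 4)
  (nat_lit 114177) (nat_lit 7) (node (nat_lit 5) (nat_lit 114816) (nat_lit 8) (node (nat_lit 4)
  (nat_lit 113603) (nat_lit 9) (node (nat_lit 7) (nat_lit 112606) (nat_lit 10) nil nil) nil) nil)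
  nil) (node (nat_lit 4) (nat_lit 112102) (nat_lit 6) (node (nat_lit 5) (nat_lit 101232) (nat_lit
  7) (node (nat_lit 4) (nat_lit 61784) (nat_lit 8) nil nil) nil) nil)) (node (nat_lit 0) (nat_lit
  114838) (nat_lit 5) nil nil))))) (node (nat_lit 0) (nat_lit 0) (nat_lit 4) (node (nat_lit 4)
  (nat_lit 110204) (nat_lit 5) (node (nat_lit 5) (nat_lit 119053) (nat_lit 6) (node (nat_lit 7)
  (nat_lit 121003) (nat_lit 7) nil nil) (node (nat_lit 3) (nat_lit 112757) (nat_lit 6) nil (node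
  (nat_lit 1) (nat_lit 117447) (nat_lit 6) nil nil))) (node (nat_lit 5) (nat_lit 115996) (nat_lit
  5) (node (nat_lit 7) (nat_lit 119381) (nat_lit 6) nil (node (nat_lit 4) (nat_lit 116539)
  (nat_lit 6) (node (nat_lit 5) (nat_lit 120758) (nat_lit 7) nil nil) nil)) (node (nat_lit 0)
  (nat_lit 115757) (nat_lit 5) nil (node (nat_lit 3) (nat_lit 110821) (nat_lit 5) (node (nat_lit
  4) (nat_lit 112098) (nat_lit 6) (node (nat_lit 5) (nat_lit 114042) (nat_lit 7) (node (nat_lit 4)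
  (nat_lit 111077) (nat_lit 8) nil nil) nil) (node (nat_lit 5) (nat_lit 118503) (nat_lit 6) nil
  nil)) (node (nat_lit 1) (nat_lit 115757) (nat_lit 5) (node (nat_lit 4) (nat_lit 114480) (nat_lit
  6) (node (nat_lit 5) (nat_lit 116425) (nat_lit 7) (node (nat_lit 4) (nat_lit 113459) (nat_lit 8)
  nil nil) nil) nil) nil))))) (node (nat_lit 1) (nat_lit 0) (nat_lit 4) (node (nat_lit 4) (nat_lit
  110204) (nat_lit 5) (node (nat_lit 5) (nat_lit 95316) (nat_lit 6) (node (nat_lit 7) (nat_lit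
  97116) (nat_lit 7) (node (nat_lit 5) (nat_lit 98985) (nat_lit 8) (node (nat_lit 4) (nat_lit
  100094) (nat_lit 9) (node (nat_lit 5) (nat_lit 100958) (nat_lit 10) (node (nat_lit 7) (nat_lit
  101633) (nat_lit 11) (node (nat_lit 4) (nat_lit 102160) (nat_lit 12) (node (nat_lit 5) (nat_lit
  102571) (nat_lit 13) (node (nat_lit 4) (nat_lit 102329) (nat_lit 14) (node (nat_lit 7) (nat_lit
  102509) (nat_lit 15) (node (nat_lit 4) (nat_lit 102373) (nat_lit 16) (node (nat_lit 5) (nat_lit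
  102424) (nat_lit 17) (node (nat_lit 7) (nat_lit 102543) (nat_lit 18) (node (nat_lit 5) (nat_lit
  102636) (nat_lit 19) (node (nat_lit 4) (nat_lit 102583) (nat_lit 20) (node (nat_lit 5) (nat_lit
  59518) (nat_lit 21) nil nil) nil) nil) nil) nil) nil) nil) nil) nil) nil) nil) nil) nil) nil)
  (node (nat_lit 4) (nat_lit 55931) (nat_lit 7) (node (nat_lit 3) (nat_lit 55931) (nat_lit 8)
  (node (nat_lit 4) (nat_lit 55931) (nat_lit 9) nil nil) (node (nat_lit 0) (nat_lit 56622)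
  (nat_lit 8) nil nil)) nil)) nil) (node (nat_lit 5) (nat_lit 115996) (nat_lit 5) (node (nat_lit
  7) (nat_lit 119381) (nat_lit 6) (node (nat_lit 4) (nat_lit 120061) (nat_lit 7) (node (nat_lit 5)
  (nat_lit 121526) (nat_lit 8) (node (nat_lit 4) (nat_lit 119941) (nat_lit 9) (node (nat_lit 7)
  (nat_lit 120615) (nat_lit 10) (node (nat_lit 5) (nat_lit 58677) (nat_lit 11) nil nil) nil) nil)
  nil) nil) nil) (node (nat_lit 3) (nat_lit 110821) (nat_lit 5) (node (nat_lit 7) (nat_lit 118503)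
  (nat_lit 6) nil (node (nat_lit 4) (nat_lit 112950) (nat_lit 6) nil nil)) (node (nat_lit 0)
  (nat_lit 115757) (nat_lit 5) nil nil)))) nil))) nil)))

noncomputable def t58 : Tr :=
  (node (nat_lit 3) (nat_lit 0) (nat_lit 2) (node (nat_lit 1) (nat_lit 0) (nat_lit 3) t43 (node
  (nat_lit 3) (nat_lit 0) (nat_lit 3) (node (nat_lit 4) (nat_lit 0) (nat_lit 4) (node (nat_lit 5)
  (nat_lit 0) (nat_lit 5) (node (nat_lit 4) (nat_lit 52724) (nat_lit 6) (node (nat_lit 6) (nat_lit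
  52746) (nat_lit 7) (node (nat_lit 4) (nat_lit 60204) (nat_lit 8) (node (nat_lit 5) (nat_lit
  58961) (nat_lit 9) (node (nat_lit 6) (nat_lit 56609) (nat_lit 10) (node (nat_lit 5) (nat_lit
  55583) (nat_lit 11) (node (nat_lit 4) (nat_lit 54803) (nat_lit 12) (node (nat_lit 5) (nat_lit
  54212) (nat_lit 13) (node (nat_lit 6) (nat_lit 53753) (nat_lit 14) (node (nat_lit 4) (nat_lit
  53396) (nat_lit 15) (node (nat_lit 5) (nat_lit 53117) (nat_lit 16) (node (nat_lit 4) (nat_lit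
  52898) (nat_lit 17) (node (nat_lit 6) (nat_lit 50824) (nat_lit 18) (node (nat_lit 4) (nat_lit
  40908) (nat_lit 19) (node (nat_lit 5) (nat_lit 40824) (nat_lit 20) (node (nat_lit 6) (nat_lit
  40759) (nat_lit 21) nil nil) nil) nil) nil) nil) nil) nil) nil) nil) nil) nil) nil) nil) (node
  (nat_lit 5) (nat_lit 61882) (nat_lit 8) (node (nat_lit 4) (nat_lit 63696) (nat_lit 9) (node
  (nat_lit 5) (nat_lit 63821) (nat_lit 10) (node (nat_lit 6) (nat_lit 62794) (nat_lit 11) (node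
  (nat_lit 4) (nat_lit 54877) (nat_lit 12) (node (nat_lit 5) (nat_lit 45043) (nat_lit 13) (node
  (nat_lit 4) (nat_lit 45229) (nat_lit 14) (node (nat_lit 6) (nat_lit 44941) (nat_lit 15) nil nil)
  nil) nil) nil) nil) nil) nil) (node (nat_lit 1) (nat_lit 63763) (nat_lit 8) nil (node (nat_lit
  0) (nat_lit 62399) (nat_lit 8) nil nil)))) (node (nat_lit 1) (nat_lit 65216) (nat_lit 7) nil
  (node (nat_lit 0) (nat_lit 65216) (nat_lit 7) nil nil))) (node (nat_lit 1) (nat_lit 61154)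
  (nat_lit 6) (node (nat_lit 4) (nat_lit 60224) (nat_lit 7) (node (nat_lit 5) (nat_lit 57622)
  (nat_lit 8) (node (nat_lit 6) (nat_lit 48443) (nat_lit 9) nil nil) nil) (node (nat_lit 5)
  (nat_lit 63596) (nat_lit 7) nil (node (nat_lit 6) (nat_lit 63089) (nat_lit 7) (node (nat_lit 5)
  (nat_lit 61781) (nat_lit 8) nil nil) nil))) (node (nat_lit 0) (nat_lit 59217) (nat_lit 6) (node
  (nat_lit 5) (nat_lit 61659) (nat_lit 7) nil nil) nil))) t44) (node (nat_lit 1) (nat_lit 0)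
  (nat_lit 4) t46 (node (nat_lit 5) (nat_lit 0) (nat_lit 4) t47 (node (nat_lit 0) (nat_lit 0)
  (nat_lit 4) (node (nat_lit 5) (nat_lit 73187) (nat_lit 5) (node (nat_lit 7) (nat_lit 73187)
  (nat_lit 6) (node (nat_lit 6) (nat_lit 73187) (nat_lit 7) (node (nat_lit 5) (nat_lit 73187)
  (nat_lit 8) (node (nat_lit 6) (nat_lit 73187) (nat_lit 9) nil nil) (node (nat_lit 7) (nat_lit
  73187) (nat_lit 8) (node (nat_lit 5) (nat_lit 73187) (nat_lit 9) (node (nat_lit 6) (nat_lit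
  73187) (nat_lit 10) nil nil) nil) nil)) nil) (node (nat_lit 6) (nat_lit 73187) (nat_lit 6) (node
  (nat_lit 5) (nat_lit 73187) (nat_lit 7) (node (nat_lit 7) (nat_lit 73187) (nat_lit 8) (node
  (nat_lit 5) (nat_lit 73187) (nat_lit 9) (node (nat_lit 6) (nat_lit 73187) (nat_lit 10) nil (node
  (nat_lit 4) (nat_lit 73187) (nat_lit 10) nil nil)) nil) (node (nat_lit 4) (nat_lit 73187)
  (nat_lit 8) nil (node (nat_lit 1) (nat_lit 73187) (nat_lit 8) nil nil))) (node (nat_lit 4)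
  (nat_lit 73187) (nat_lit 7) (node (nat_lit 5) (nat_lit 73187) (nat_lit 8) (node (nat_lit 6)
  (nat_lit 69084) (nat_lit 9) (node (nat_lit 7) (nat_lit 64147) (nat_lit 10) nil nil) nil) (node
  (nat_lit 7) (nat_lit 73187) (nat_lit 8) nil nil)) nil)) (node (nat_lit 1) (nat_lit 73187)
  (nat_lit 6) (node (nat_lit 6) (nat_lit 73187) (nat_lit 7) (node (nat_lit 5) (nat_lit 73187)
  (nat_lit 8) (node (nat_lit 6) (nat_lit 73187) (nat_lit 9) nil nil) nil) (node (nat_lit 5)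
  (nat_lit 73187) (nat_lit 7) nil (node (nat_lit 4) (nat_lit 73187) (nat_lit 7) nil nil))) (node
  (nat_lit 4) (nat_lit 73187) (nat_lit 6) (node (nat_lit 5) (nat_lit 73187) (nat_lit 7) (node
  (nat_lit 6) (nat_lit 73187) (nat_lit 8) (node (nat_lit 7) (nat_lit 66686) (nat_lit 9) nil nil)
  nil) (node (nat_lit 7) (nat_lit 73187) (nat_lit 7) (node (nat_lit 6) (nat_lit 73187) (nat_lit 8)
  nil nil) (node (nat_lit 6) (nat_lit 73187) (nat_lit 7) (node (nat_lit 5) (nat_lit 73187)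
  (nat_lit 8) nil nil) nil))) (node (nat_lit 0) (nat_lit 73187) (nat_lit 6) nil nil))))) (node
  (nat_lit 6) (nat_lit 73187) (nat_lit 5) (node (nat_lit 5) (nat_lit 73187) (nat_lit 6) (node
  (nat_lit 7) (nat_lit 73187) (nat_lit 7) (node (nat_lit 5) (nat_lit 73187) (nat_lit 8) (node
  (nat_lit 6) (nat_lit 73187) (nat_lit 9) (node (nat_lit 7) (nat_lit 73187) (nat_lit 10) (node
  (nat_lit 6) (nat_lit 73187) (nat_lit 11) nil nil) nil) (node (nat_lit 4) (nat_lit 73187)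
  (nat_lit 9) nil nil)) (node (nat_lit 6) (nat_lit 73187) (nat_lit 8) nil nil)) (node (nat_lit 6)
  (nat_lit 73187) (nat_lit 7) (node (nat_lit 4) (nat_lit 73187) (nat_lit 8) (node (nat_lit 5)
  (nat_lit 73187) (nat_lit 9) (node (nat_lit 6) (nat_lit 73187) (nat_lit 10) nil nil) nil) nil)
  (node (nat_lit 4) (nat_lit 73187) (nat_lit 7) (node (nat_lit 5) (nat_lit 73187) (nat_lit 8)
  (node (nat_lit 6) (nat_lit 62162) (nat_lit 9) (node (nat_lit 7) (nat_lit 62879) (nat_lit 10) nil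
  nil) nil) (node (nat_lit 6) (nat_lit 73187) (nat_lit 8) nil nil)) (node (nat_lit 1) (nat_lit
  73187) (nat_lit 7) (node (nat_lit 5) (nat_lit 73187) (nat_lit 8) nil nil) nil)))) (node (nat_lit
  4) (nat_lit 73187) (nat_lit 6) (node (nat_lit 5) (nat_lit 73187) (nat_lit 7) (node (nat_lit 6)
  (nat_lit 73187) (nat_lit 8) (node (nat_lit 7) (nat_lit 62338) (nat_lit 9) nil nil) nil) (node
  (nat_lit 7) (nat_lit 73187) (nat_lit 7) (node (nat_lit 4) (nat_lit 73187) (nat_lit 8) (node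
  (nat_lit 6) (nat_lit 73187) (nat_lit 9) (node (nat_lit 4) (nat_lit 73187) (nat_lit 10) nil nil)
  nil) (node (nat_lit 5) (nat_lit 73187) (nat_lit 8) nil nil)) (node (nat_lit 6) (nat_lit 73187)
  (nat_lit 7) (node (nat_lit 5) (nat_lit 73187) (nat_lit 8) nil nil) nil))) (node (nat_lit 1)
  (nat_lit 73187) (nat_lit 6) (node (nat_lit 5) (nat_lit 73187) (nat_lit 7) nil (node (nat_lit 6)
  (nat_lit 73187) (nat_lit 7) nil (node (nat_lit 4) (nat_lit 73187) (nat_lit 7) nil nil))) (node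
  (nat_lit 0) (nat_lit 73187) (nat_lit 6) (node (nat_lit 5) (nat_lit 73187) (nat_lit 7) nil (node
  (nat_lit 6) (nat_lit 73187) (nat_lit 7) nil nil)) nil)))) (node (nat_lit 4) (nat_lit 73187)
  (nat_lit 5) (node (nat_lit 6) (nat_lit 73187) (nat_lit 6) (node (nat_lit 4) (nat_lit 73187)
  (nat_lit 7) (node (nat_lit 7) (nat_lit 73187) (nat_lit 8) (node (nat_lit 6) (nat_lit 73187)
  (nat_lit 9) nil nil) (node (nat_lit 5) (nat_lit 73187) (nat_lit 8) (node (nat_lit 6) (nat_lit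
  70035) (nat_lit 9) (node (nat_lit 7) (nat_lit 62463) (nat_lit 10) (node (nat_lit 4) (nat_lit
  58235) (nat_lit 11) nil nil) nil) nil) nil)) (node (nat_lit 5) (nat_lit 73187) (nat_lit 7) (node
  (nat_lit 7) (nat_lit 73187) (nat_lit 8) nil (node (nat_lit 4) (nat_lit 73187) (nat_lit 8) (node
  (nat_lit 5) (nat_lit 73187) (nat_lit 9) (node (nat_lit 6) (nat_lit 65809) (nat_lit 10) nil nil)
  nil) nil)) (node (nat_lit 7) (nat_lit 73187) (nat_lit 7) (node (nat_lit 6) (nat_lit 73187)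
  (nat_lit 8) (node (nat_lit 4) (nat_lit 73187) (nat_lit 9) nil nil) (node (nat_lit 5) (nat_lit
  73187) (nat_lit 8) (node (nat_lit 4) (nat_lit 73187) (nat_lit 9) nil nil) nil)) (node (nat_lit
  1) (nat_lit 73187) (nat_lit 7) nil nil)))) (node (nat_lit 7) (nat_lit 73187) (nat_lit 6) (node
  (nat_lit 5) (nat_lit 73187) (nat_lit 7) (node (nat_lit 4) (nat_lit 73187) (nat_lit 8) (node
  (nat_lit 5) (nat_lit 73187) (nat_lit 9) (node (nat_lit 6) (nat_lit 73187) (nat_lit 10) (node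
  (nat_lit 7) (nat_lit 73187) (nat_lit 11) (node (nat_lit 4) (nat_lit 73187) (nat_lit 12) nil nil)
  nil) nil) nil) nil) (node (nat_lit 6) (nat_lit 73187) (nat_lit 7) (node (nat_lit 4) (nat_lit
  73187) (nat_lit 8) (node (nat_lit 5) (nat_lit 73187) (nat_lit 9) (node (nat_lit 6) (nat_lit
  73187) (nat_lit 10) nil nil) nil) (node (nat_lit 5) (nat_lit 73187) (nat_lit 8) nil nil)) nil))
  (node (nat_lit 5) (nat_lit 73187) (nat_lit 6) (node (nat_lit 4) (nat_lit 73187) (nat_lit 7)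
  (node (nat_lit 6) (nat_lit 73187) (nat_lit 8) nil (node (nat_lit 7) (nat_lit 73187) (nat_lit 8)
  (node (nat_lit 5) (nat_lit 73187) (nat_lit 9) nil nil) nil)) (node (nat_lit 7) (nat_lit 73187)
  (nat_lit 7) nil nil)) (node (nat_lit 1) (nat_lit 73187) (nat_lit 6) (node (nat_lit 6) (nat_lit
  73187) (nat_lit 7) (node (nat_lit 5) (nat_lit 73187) (nat_lit 8) nil nil) (node (nat_lit 4)
  (nat_lit 73187) (nat_lit 7) (node (nat_lit 5) (nat_lit 71469) (nat_lit 8) nil nil) nil)) (node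
  (nat_lit 0) (nat_lit 73187) (nat_lit 6) (node (nat_lit 6) (nat_lit 73187) (nat_lit 7) nil nil)
  nil))))) (node (nat_lit 1) (nat_lit 73187) (nat_lit 5) (node (nat_lit 6) (nat_lit 73187)
  (nat_lit 6) (node (nat_lit 8) (nat_lit 73187) (nat_lit 7) nil (node (nat_lit 5) (nat_lit 73187)
  (nat_lit 7) nil (node (nat_lit 7) (nat_lit 73187) (nat_lit 7) (node (nat_lit 6) (nat_lit 73187)
  (nat_lit 8) nil nil) (node (nat_lit 4) (nat_lit 73187) (nat_lit 7) (node (nat_lit 5) (nat_lit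
  73187) (nat_lit 8) nil nil) nil)))) (node (nat_lit 7) (nat_lit 73187) (nat_lit 6) (node (nat_lit
  5) (nat_lit 73187) (nat_lit 7) (node (nat_lit 6) (nat_lit 73187) (nat_lit 8) nil nil) (node
  (nat_lit 6) (nat_lit 73187) (nat_lit 7) (node (nat_lit 8) (nat_lit 73187) (nat_lit 8) nil (node
  (nat_lit 5) (nat_lit 73187) (nat_lit 8) nil nil)) nil)) (node (nat_lit 5) (nat_lit 73187)
  (nat_lit 6) (node (nat_lit 4) (nat_lit 73187) (nat_lit 7) (node (nat_lit 6) (nat_lit 73187)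
  (nat_lit 8) nil (node (nat_lit 5) (nat_lit 73187) (nat_lit 8) (node (nat_lit 6) (nat_lit 73187)
  (nat_lit 9) nil nil) nil)) (node (nat_lit 6) (nat_lit 73187) (nat_lit 7) nil (node (nat_lit 8)
  (nat_lit 73187) (nat_lit 7) nil nil))) (node (nat_lit 4) (nat_lit 73187) (nat_lit 6) (node
  (nat_lit 5) (nat_lit 73187) (nat_lit 7) (node (nat_lit 6) (nat_lit 73187) (nat_lit 8) nil nil)
  (node (nat_lit 6) (nat_lit 73187) (nat_lit 7) (node (nat_lit 5) (nat_lit 73187) (nat_lit 8) nil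
  nil) nil)) (node (nat_lit 0) (nat_lit 73187) (nat_lit 6) nil nil))))) (node (nat_lit 0) (nat_lit
  73187) (nat_lit 5) (node (nat_lit 6) (nat_lit 73187) (nat_lit 6) (node (nat_lit 5) (nat_lit
  73187) (nat_lit 7) (node (nat_lit 6) (nat_lit 73187) (nat_lit 8) nil nil) (node (nat_lit 7)
  (nat_lit 73187) (nat_lit 7) (node (nat_lit 6) (nat_lit 73187) (nat_lit 8) nil nil) (node
  (nat_lit 4) (nat_lit 73187) (nat_lit 7) nil nil))) (node (nat_lit 7) (nat_lit 73187) (nat_lit 6)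
  (node (nat_lit 5) (nat_lit 73187) (nat_lit 7) nil (node (nat_lit 6) (nat_lit 73187) (nat_lit 7)
  nil nil)) (node (nat_lit 5) (nat_lit 73187) (nat_lit 6) (node (nat_lit 6) (nat_lit 73187)
  (nat_lit 7) nil (node (nat_lit 4) (nat_lit 73187) (nat_lit 7) nil nil)) (node (nat_lit 4)
  (nat_lit 73187) (nat_lit 6) (node (nat_lit 6) (nat_lit 73187) (nat_lit 7) nil nil) (node
  (nat_lit 1) (nat_lit 73187) (nat_lit 6) (node (nat_lit 5) (nat_lit 73187) (nat_lit 7) nil (node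
  (nat_lit 4) (nat_lit 73187) (nat_lit 7) nil (node (nat_lit 6) (nat_lit 73187) (nat_lit 7) nil
  nil))) nil))))) nil))))) nil)))) t50)) (node (nat_lit 1) (nat_lit 0) (nat_lit 2) (node (nat_lit
  3) (nat_lit 0) (nat_lit 3) t52 t56) (node (nat_lit 0) (nat_lit 0) (nat_lit 2) (node (nat_lit 3)
  (nat_lit 0) (nat_lit 3) (node (nat_lit 4) (nat_lit 0) (nat_lit 4) (node (nat_lit 5) (nat_lit
  87135) (nat_lit 5) nil (node (nat_lit 6) (nat_lit 97748) (nat_lit 5) (node (nat_lit 5) (nat_lit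
  114695) (nat_lit 6) (node (nat_lit 4) (nat_lit 117266) (nat_lit 7) (node (nat_lit 6) (nat_lit
  119654) (nat_lit 8) (node (nat_lit 4) (nat_lit 119541) (nat_lit 9) (node (nat_lit 5) (nat_lit
  122591) (nat_lit 10) (node (nat_lit 6) (nat_lit 122591) (nat_lit 11) (node (nat_lit 4) (nat_lit
  119863) (nat_lit 12) (node (nat_lit 6) (nat_lit 112768) (nat_lit 13) (node (nat_lit 5) (nat_lit
  88279) (nat_lit 14) (node (nat_lit 4) (nat_lit 83426) (nat_lit 15) nil nil) nil) nil) nil) nil)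
  nil) nil) nil) nil) (node (nat_lit 0) (nat_lit 111341) (nat_lit 6) nil (node (nat_lit 3)
  (nat_lit 101000) (nat_lit 6) (node (nat_lit 4) (nat_lit 101000) (nat_lit 7) (node (nat_lit 5)
  (nat_lit 100042) (nat_lit 8) (node (nat_lit 6) (nat_lit 95363) (nat_lit 9) (node (nat_lit 4)
  (nat_lit 83476) (nat_lit 10) nil nil) nil) nil) nil) (node (nat_lit 1) (nat_lit 111999) (nat_lit
  6) (node (nat_lit 4) (nat_lit 108811) (nat_lit 7) (node (nat_lit 5) (nat_lit 108527) (nat_lit 8)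
  (node (nat_lit 6) (nat_lit 100937) (nat_lit 9) (node (nat_lit 4) (nat_lit 74551) (nat_lit 10)
  (node (nat_lit 6) (nat_lit 43858) (nat_lit 11) nil nil) nil) nil) nil) nil) nil)))) (node
  (nat_lit 0) (nat_lit 112772) (nat_lit 5) (node (nat_lit 6) (nat_lit 112772) (nat_lit 6) (node
  (nat_lit 4) (nat_lit 112772) (nat_lit 7) nil nil) nil) (node (nat_lit 1) (nat_lit 113727)
  (nat_lit 5) (node (nat_lit 6) (nat_lit 113727) (nat_lit 6) (node (nat_lit 8) (nat_lit 114730)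
  (nat_lit 7) nil (node (nat_lit 4) (nat_lit 113727) (nat_lit 7) nil nil)) (node (nat_lit 4)
  (nat_lit 111764) (nat_lit 6) (node (nat_lit 5) (nat_lit 101553) (nat_lit 7) (node (nat_lit 6)
  (nat_lit 93287) (nat_lit 8) (node (nat_lit 4) (nat_lit 45843) (nat_lit 9) nil nil) nil) nil)
  nil)) (node (nat_lit 3) (nat_lit 100742) (nat_lit 5) (node (nat_lit 6) (nat_lit 100742) (nat_lit
  6) (node (nat_lit 8) (nat_lit 100742) (nat_lit 7) nil (node (nat_lit 4) (nat_lit 100742)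
  (nat_lit 7) (node (nat_lit 5) (nat_lit 94948) (nat_lit 8) (node (nat_lit 6) (nat_lit 89379)
  (nat_lit 9) nil nil) nil) nil)) (node (nat_lit 4) (nat_lit 100742) (nat_lit 6) (node (nat_lit 5)
  (nat_lit 96952) (nat_lit 7) (node (nat_lit 6) (nat_lit 82417) (nat_lit 8) (node (nat_lit 4)
  (nat_lit 78463) (nat_lit 9) nil nil) nil) (node (nat_lit 6) (nat_lit 100742) (nat_lit 7) nil
  nil)) (node (nat_lit 5) (nat_lit 105652) (nat_lit 6) nil (node (nat_lit 1) (nat_lit 105652)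
  (nat_lit 6) (node (nat_lit 4) (nat_lit 100800) (nat_lit 7) nil nil) nil)))) nil))))) (node
  (nat_lit 1) (nat_lit 109314) (nat_lit 4) (node (nat_lit 5) (nat_lit 114083) (nat_lit 5) (node
  (nat_lit 7) (nat_lit 114958) (nat_lit 6) nil nil) (node (nat_lit 6) (nat_lit 112350) (nat_lit 5)
  (node (nat_lit 5) (nat_lit 114348) (nat_lit 6) (node (nat_lit 6) (nat_lit 114348) (nat_lit 7)
  nil nil) (node (nat_lit 4) (nat_lit 112350) (nat_lit 6) (node (nat_lit 5) (nat_lit 114992)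
  (nat_lit 7) (node (nat_lit 6) (nat_lit 114992) (nat_lit 8) (node (nat_lit 7) (nat_lit 81901)
  (nat_lit 9) nil nil) nil) nil) nil)) (node (nat_lit 3) (nat_lit 112350) (nat_lit 5) nil (node
  (nat_lit 4) (nat_lit 112350) (nat_lit 5) (node (nat_lit 5) (nat_lit 83794) (nat_lit 6) (node
  (nat_lit 6) (nat_lit 46120) (nat_lit 7) nil nil) nil) nil)))) (node (nat_lit 3) (nat_lit 0)
  (nat_lit 4) (node (nat_lit 5) (nat_lit 111057) (nat_lit 5) (node (nat_lit 7) (nat_lit 111057)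
  (nat_lit 6) nil nil) (node (nat_lit 6) (nat_lit 99415) (nat_lit 5) (node (nat_lit 5) (nat_lit
  108149) (nat_lit 6) (node (nat_lit 6) (nat_lit 108149) (nat_lit 7) nil nil) (node (nat_lit 4)
  (nat_lit 99415) (nat_lit 6) (node (nat_lit 7) (nat_lit 99415) (nat_lit 7) nil (node (nat_lit 5)
  (nat_lit 98330) (nat_lit 7) (node (nat_lit 6) (nat_lit 80273) (nat_lit 8) (node (nat_lit 7)
  (nat_lit 78705) (nat_lit 9) nil nil) nil) nil)) (node (nat_lit 1) (nat_lit 106237) (nat_lit 6)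
  nil nil))) (node (nat_lit 1) (nat_lit 108719) (nat_lit 5) (node (nat_lit 4) (nat_lit 104014)
  (nat_lit 6) (node (nat_lit 5) (nat_lit 93067) (nat_lit 7) (node (nat_lit 6) (nat_lit 61711)
  (nat_lit 8) nil nil) nil) nil) (node (nat_lit 4) (nat_lit 99025) (nat_lit 5) (node (nat_lit 6)
  (nat_lit 99415) (nat_lit 6) (node (nat_lit 4) (nat_lit 99415) (nat_lit 7) nil nil) (node
  (nat_lit 5) (nat_lit 95068) (nat_lit 6) (node (nat_lit 6) (nat_lit 88393) (nat_lit 7) nil nil)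
  (node (nat_lit 7) (nat_lit 99415) (nat_lit 6) (node (nat_lit 6) (nat_lit 99415) (nat_lit 7) nil
  nil) (node (nat_lit 1) (nat_lit 106237) (nat_lit 6) nil nil)))) (node (nat_lit 0) (nat_lit
  108719) (nat_lit 5) nil nil))))) (node (nat_lit 5) (nat_lit 0) (nat_lit 4) (node (nat_lit 4)
  (nat_lit 106554) (nat_lit 5) (node (nat_lit 6) (nat_lit 108760) (nat_lit 6) (node (nat_lit 4)
  (nat_lit 108439) (nat_lit 7) (node (nat_lit 5) (nat_lit 113430) (nat_lit 8) (node (nat_lit 6)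
  (nat_lit 110760) (nat_lit 9) (node (nat_lit 5) (nat_lit 97520) (nat_lit 10) (node (nat_lit 4)
  (nat_lit 81507) (nat_lit 11) nil nil) nil) nil) nil) nil) (node (nat_lit 5) (nat_lit 114542)
  (nat_lit 6) nil (node (nat_lit 3) (nat_lit 112545) (nat_lit 6) nil (node (nat_lit 1) (nat_lit
  116175) (nat_lit 6) nil nil)))) (node (nat_lit 0) (nat_lit 114539) (nat_lit 5) nil (node
  (nat_lit 1) (nat_lit 114539) (nat_lit 5) (node (nat_lit 4) (nat_lit 114539) (nat_lit 6) (node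
  (nat_lit 5) (nat_lit 115714) (nat_lit 7) (node (nat_lit 6) (nat_lit 115714) (nat_lit 8) nil nil)
  nil) nil) (node (nat_lit 3) (nat_lit 111652) (nat_lit 5) (node (nat_lit 4) (nat_lit 111652)
  (nat_lit 6) (node (nat_lit 5) (nat_lit 114119) (nat_lit 7) (node (nat_lit 6) (nat_lit 114119)
  (nat_lit 8) nil nil) nil) nil) nil)))) (node (nat_lit 0) (nat_lit 112350) (nat_lit 4) (node
  (nat_lit 6) (nat_lit 112350) (nat_lit 5) (node (nat_lit 4) (nat_lit 112350) (nat_lit 6) (node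
  (nat_lit 5) (nat_lit 114992) (nat_lit 7) (node (nat_lit 6) (nat_lit 114992) (nat_lit 8) (node
  (nat_lit 7) (nat_lit 80023) (nat_lit 9) nil nil) nil) nil) nil) (node (nat_lit 5) (nat_lit
  114083) (nat_lit 5) (node (nat_lit 6) (nat_lit 114083) (nat_lit 6) nil nil) (node (nat_lit 4)
  (nat_lit 112350) (nat_lit 5) (node (nat_lit 6) (nat_lit 112350) (nat_lit 6) (node (nat_lit 4)
  (nat_lit 112350) (nat_lit 7) nil nil) nil) (node (nat_lit 1) (nat_lit 114083) (nat_lit 5) nil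
  (node (nat_lit 3) (nat_lit 112350) (nat_lit 5) nil nil))))) nil))))) t57) nil)))

noncomputable def c0 : Tr :=
  (node (nat_lit 3) (nat_lit 0) (nat_lit 1) t21 (node (nat_lit 0) (nat_lit 0) (nat_lit 1) (node
  (nat_lit 3) (nat_lit 0) (nat_lit 2) t22 (node (nat_lit 1) (nat_lit 0) (nat_lit 2) t23 t24))
  (node (nat_lit 1) (nat_lit 0) (nat_lit 1) (node (nat_lit 3) (nat_lit 0) (nat_lit 2) (node
  (nat_lit 4) (nat_lit 0) (nat_lit 3) t26 (node (nat_lit 0) (nat_lit 0) (nat_lit 3) (node (nat_lit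
  5) (nat_lit 0) (nat_lit 4) (node (nat_lit 4) (nat_lit 68495) (nat_lit 5) (node (nat_lit 6)
  (nat_lit 72855) (nat_lit 6) (node (nat_lit 5) (nat_lit 72037) (nat_lit 7) (node (nat_lit 6)
  (nat_lit 72738) (nat_lit 8) (node (nat_lit 4) (nat_lit 73223) (nat_lit 9) (node (nat_lit 6)
  (nat_lit 73592) (nat_lit 10) (node (nat_lit 5) (nat_lit 72748) (nat_lit 11) (node (nat_lit 4)
  (nat_lit 73042) (nat_lit 12) (node (nat_lit 5) (nat_lit 72554) (nat_lit 13) (node (nat_lit 6)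
  (nat_lit 72740) (nat_lit 14) (node (nat_lit 5) (nat_lit 72453) (nat_lit 15) (node (nat_lit 4)
  (nat_lit 72556) (nat_lit 16) (node (nat_lit 6) (nat_lit 72633) (nat_lit 17) (node (nat_lit 5)
  (nat_lit 72496) (nat_lit 18) (node (nat_lit 6) (nat_lit 72544) (nat_lit 19) (node (nat_lit 4)
  (nat_lit 72581) (nat_lit 20) nil nil) nil) nil) nil) nil) nil) nil) nil) nil) nil) nil) nil)
  nil) nil) (node (nat_lit 5) (nat_lit 71986) (nat_lit 6) (node (nat_lit 6) (nat_lit 36737)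
  (nat_lit 7) (node (nat_lit 4) (nat_lit 36737) (nat_lit 8) (node (nat_lit 6) (nat_lit 36737)
  (nat_lit 9) (node (nat_lit 5) (nat_lit 36737) (nat_lit 10) (node (nat_lit 4) (nat_lit 36737)
  (nat_lit 11) (node (nat_lit 5) (nat_lit 36737) (nat_lit 12) (node (nat_lit 6) (nat_lit 36737)
  (nat_lit 13) (node (nat_lit 5) (nat_lit 36737) (nat_lit 14) (node (nat_lit 4) (nat_lit 36737)
  (nat_lit 15) nil nil) nil) nil) nil) nil) nil) nil) (node (nat_lit 3) (nat_lit 36737) (nat_lit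
  8) nil nil)) nil) (node (nat_lit 3) (nat_lit 70207) (nat_lit 6) (node (nat_lit 4) (nat_lit
  72649) (nat_lit 7) nil nil) (node (nat_lit 0) (nat_lit 73025) (nat_lit 6) nil (node (nat_lit 2)
  (nat_lit 66128) (nat_lit 6) (node (nat_lit 5) (nat_lit 63631) (nat_lit 7) nil nil) nil)))))
  (node (nat_lit 3) (nat_lit 66088) (nat_lit 5) (node (nat_lit 4) (nat_lit 68489) (nat_lit 6)
  (node (nat_lit 5) (nat_lit 54667) (nat_lit 7) (node (nat_lit 6) (nat_lit 34942) (nat_lit 8) nil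
  (node (nat_lit 8) (nat_lit 55368) (nat_lit 8) nil nil)) (node (nat_lit 8) (nat_lit 69422)
  (nat_lit 7) (node (nat_lit 5) (nat_lit 67231) (nat_lit 8) (node (nat_lit 6) (nat_lit 68104)
  (nat_lit 9) (node (nat_lit 5) (nat_lit 67337) (nat_lit 10) nil nil) nil) nil) (node (nat_lit 6)
  (nat_lit 69555) (nat_lit 7) nil (node (nat_lit 0) (nat_lit 69555) (nat_lit 7) nil (node (nat_lit
  2) (nat_lit 66385) (nat_lit 7) nil nil))))) (node (nat_lit 5) (nat_lit 66088) (nat_lit 6) (node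
  (nat_lit 4) (nat_lit 66011) (nat_lit 7) nil nil) (node (nat_lit 6) (nat_lit 70253) (nat_lit 6)
  (node (nat_lit 8) (nat_lit 70253) (nat_lit 7) (node (nat_lit 5) (nat_lit 68064) (nat_lit 8) nil
  nil) (node (nat_lit 5) (nat_lit 70253) (nat_lit 7) nil nil)) nil))) (node (nat_lit 0) (nat_lit
  70360) (nat_lit 5) (node (nat_lit 6) (nat_lit 71823) (nat_lit 6) nil (node (nat_lit 5) (nat_lit
  70071) (nat_lit 6) (node (nat_lit 4) (nat_lit 71137) (nat_lit 7) (node (nat_lit 5) (nat_lit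
  69561) (nat_lit 8) (node (nat_lit 6) (nat_lit 70046) (nat_lit 9) nil nil) nil) nil) nil)) (node
  (nat_lit 2) (nat_lit 66088) (nat_lit 5) (node (nat_lit 6) (nat_lit 68409) (nat_lit 6) (node
  (nat_lit 5) (nat_lit 67963) (nat_lit 7) nil nil) (node (nat_lit 5) (nat_lit 64057) (nat_lit 6)
  (node (nat_lit 4) (nat_lit 62057) (nat_lit 7) (node (nat_lit 5) (nat_lit 53695) (nat_lit 8)
  (node (nat_lit 6) (nat_lit 45745) (nat_lit 9) nil nil) nil) nil) (node (nat_lit 4) (nat_lit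
  67616) (nat_lit 6) nil (node (nat_lit 3) (nat_lit 63889) (nat_lit 6) (node (nat_lit 4) (nat_lit
  58212) (nat_lit 7) (node (nat_lit 5) (nat_lit 52520) (nat_lit 8) (node (nat_lit 6) (nat_lit
  31066) (nat_lit 9) nil nil) nil) nil) nil)))) nil)))) (node (nat_lit 4) (nat_lit 0) (nat_lit 4)
  (node (nat_lit 6) (nat_lit 69328) (nat_lit 5) (node (nat_lit 5) (nat_lit 71959) (nat_lit 6)
  (node (nat_lit 6) (nat_lit 73520) (nat_lit 7) (node (nat_lit 4) (nat_lit 73988) (nat_lit 8)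
  (node (nat_lit 5) (nat_lit 73005) (nat_lit 9) (node (nat_lit 4) (nat_lit 73286) (nat_lit 10)
  (node (nat_lit 6) (nat_lit 73533) (nat_lit 11) (node (nat_lit 5) (nat_lit 73043) (nat_lit 12)
  (node (nat_lit 4) (nat_lit 73225) (nat_lit 13) (node (nat_lit 5) (nat_lit 72943) (nat_lit 14)
  (node (nat_lit 6) (nat_lit 73047) (nat_lit 15) (node (nat_lit 4) (nat_lit 73125) (nat_lit 16)
  (node (nat_lit 6) (nat_lit 73184) (nat_lit 17) (node (nat_lit 5) (nat_lit 73080) (nat_lit 18)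
  (node (nat_lit 6) (nat_lit 73116) (nat_lit 19) (node (nat_lit 4) (nat_lit 73144) (nat_lit 20)
  (node (nat_lit 5) (nat_lit 73094) (nat_lit 21) (node (nat_lit 4) (nat_lit 73111) (nat_lit 22)
  (node (nat_lit 6) (nat_lit 36190) (nat_lit 23) nil nil) nil) nil) nil) nil) nil) nil) nil) nil)
  nil) nil) nil) nil) (node (nat_lit 6) (nat_lit 73286) (nat_lit 10) (node (nat_lit 5) (nat_lit
  72644) (nat_lit 11) (node (nat_lit 4) (nat_lit 72867) (nat_lit 12) (node (nat_lit 5) (nat_lit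
  72496) (nat_lit 13) (node (nat_lit 6) (nat_lit 72637) (nat_lit 14) (node (nat_lit 4) (nat_lit
  72742) (nat_lit 15) (node (nat_lit 6) (nat_lit 72820) (nat_lit 16) (node (nat_lit 5) (nat_lit
  72686) (nat_lit 17) (node (nat_lit 6) (nat_lit 72733) (nat_lit 18) (node (nat_lit 4) (nat_lit
  72769) (nat_lit 19) (node (nat_lit 5) (nat_lit 72705) (nat_lit 20) nil nil) nil) nil) nil) nil)
  nil) nil) nil) nil) nil) nil)) nil) nil) (node (nat_lit 4) (nat_lit 73520) (nat_lit 7) (node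
  (nat_lit 5) (nat_lit 72302) (nat_lit 8) (node (nat_lit 6) (nat_lit 72671) (nat_lit 9) (node
  (nat_lit 4) (nat_lit 72952) (nat_lit 10) (node (nat_lit 6) (nat_lit 36264) (nat_lit 11) nil nil)
  nil) nil) nil) nil)) (node (nat_lit 3) (nat_lit 71445) (nat_lit 6) nil nil)) (node (nat_lit 5)
  (nat_lit 69206) (nat_lit 5) (node (nat_lit 4) (nat_lit 72372) (nat_lit 6) (node (nat_lit 6)
  (nat_lit 74714) (nat_lit 7) (node (nat_lit 5) (nat_lit 73139) (nat_lit 8) (node (nat_lit 4)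
  (nat_lit 73624) (nat_lit 9) (node (nat_lit 5) (nat_lit 72561) (nat_lit 10) (node (nat_lit 6)
  (nat_lit 72886) (nat_lit 11) (node (nat_lit 4) (nat_lit 73180) (nat_lit 12) (node (nat_lit 5)
  (nat_lit 72692) (nat_lit 13) (node (nat_lit 4) (nat_lit 72878) (nat_lit 14) nil nil) nil) nil)
  nil) nil) nil) nil) nil) nil) (node (nat_lit 3) (nat_lit 71200) (nat_lit 5) (node (nat_lit 6)
  (nat_lit 73961) (nat_lit 6) nil (node (nat_lit 5) (nat_lit 67724) (nat_lit 6) (node (nat_lit 4)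
  (nat_lit 65644) (nat_lit 7) nil nil) (node (nat_lit 4) (nat_lit 72663) (nat_lit 6) (node
  (nat_lit 5) (nat_lit 73728) (nat_lit 7) (node (nat_lit 6) (nat_lit 74430) (nat_lit 8) (node
  (nat_lit 4) (nat_lit 36072) (nat_lit 9) nil nil) nil) nil) (node (nat_lit 0) (nat_lit 72663)
  (nat_lit 6) nil (node (nat_lit 2) (nat_lit 69561) (nat_lit 6) (node (nat_lit 5) (nat_lit 66311)
  (nat_lit 7) nil nil) nil))))) (node (nat_lit 0) (nat_lit 71177) (nat_lit 5) (node (nat_lit 5)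
  (nat_lit 68560) (nat_lit 6) (node (nat_lit 4) (nat_lit 69626) (nat_lit 7) (node (nat_lit 5)
  (nat_lit 68051) (nat_lit 8) (node (nat_lit 6) (nat_lit 68535) (nat_lit 9) (node (nat_lit 4)
  (nat_lit 68904) (nat_lit 10) nil nil) nil) nil) nil) nil) (node (nat_lit 2) (nat_lit 69134)
  (nat_lit 5) (node (nat_lit 5) (nat_lit 61300) (nat_lit 6) (node (nat_lit 4) (nat_lit 59220)
  (nat_lit 7) (node (nat_lit 5) (nat_lit 52344) (nat_lit 8) (node (nat_lit 6) (nat_lit 45222)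
  (nat_lit 9) (node (nat_lit 4) (nat_lit 30659) (nat_lit 10) nil nil) nil) nil) (node (nat_lit 6)
  (nat_lit 63220) (nat_lit 7) nil nil)) (node (nat_lit 3) (nat_lit 61984) (nat_lit 6) nil nil))
  nil))))) (node (nat_lit 3) (nat_lit 0) (nat_lit 4) (node (nat_lit 4) (nat_lit 70930) (nat_lit 5)
  (node (nat_lit 5) (nat_lit 72393) (nat_lit 6) (node (nat_lit 6) (nat_lit 36072) (nat_lit 7) nil
  nil) (node (nat_lit 6) (nat_lit 73300) (nat_lit 6) (node (nat_lit 5) (nat_lit 71720) (nat_lit 7)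
  nil nil) (node (nat_lit 0) (nat_lit 72393) (nat_lit 6) nil (node (nat_lit 2) (nat_lit 68006)
  (nat_lit 6) nil nil)))) (node (nat_lit 5) (nat_lit 0) (nat_lit 5) (node (nat_lit 7) (nat_lit
  65966) (nat_lit 6) (node (nat_lit 6) (nat_lit 68689) (nat_lit 7) nil (node (nat_lit 4) (nat_lit
  66091) (nat_lit 7) nil (node (nat_lit 0) (nat_lit 68689) (nat_lit 7) nil (node (nat_lit 2)
  (nat_lit 65614) (nat_lit 7) (node (nat_lit 5) (nat_lit 63959) (nat_lit 8) (node (nat_lit 6)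
  (nat_lit 66066) (nat_lit 9) (node (nat_lit 7) (nat_lit 66066) (nat_lit 10) (node (nat_lit 5)
  (nat_lit 66066) (nat_lit 11) nil nil) nil) nil) nil) nil)))) (node (nat_lit 4) (nat_lit 69924)
  (nat_lit 6) (node (nat_lit 5) (nat_lit 59323) (nat_lit 7) (node (nat_lit 6) (nat_lit 38780)
  (nat_lit 8) nil nil) nil) (node (nat_lit 6) (nat_lit 72220) (nat_lit 6) nil (node (nat_lit 0)
  (nat_lit 68387) (nat_lit 6) nil (node (nat_lit 2) (nat_lit 65966) (nat_lit 6) nil nil))))) (node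
  (nat_lit 6) (nat_lit 72456) (nat_lit 5) (node (nat_lit 5) (nat_lit 73316) (nat_lit 6) (node
  (nat_lit 6) (nat_lit 74381) (nat_lit 7) nil nil) nil) (node (nat_lit 0) (nat_lit 70645) (nat_lit
  5) (node (nat_lit 5) (nat_lit 68028) (nat_lit 6) (node (nat_lit 4) (nat_lit 69094) (nat_lit 7)
  nil nil) (node (nat_lit 7) (nat_lit 71799) (nat_lit 6) (node (nat_lit 5) (nat_lit 68448)
  (nat_lit 7) nil (node (nat_lit 4) (nat_lit 72754) (nat_lit 7) nil nil)) nil)) (node (nat_lit 2)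
  (nat_lit 64710) (nat_lit 5) (node (nat_lit 5) (nat_lit 61339) (nat_lit 6) (node (nat_lit 7)
  (nat_lit 54875) (nat_lit 7) nil (node (nat_lit 4) (nat_lit 59610) (nat_lit 7) nil nil)) (node
  (nat_lit 7) (nat_lit 64914) (nat_lit 6) (node (nat_lit 5) (nat_lit 61563) (nat_lit 7) nil (node
  (nat_lit 4) (nat_lit 60587) (nat_lit 7) nil nil)) (node (nat_lit 4) (nat_lit 67366) (nat_lit 6)
  nil nil))) nil))))) (node (nat_lit 0) (nat_lit 0) (nat_lit 4) (node (nat_lit 5) (nat_lit 69776)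
  (nat_lit 5) (node (nat_lit 6) (nat_lit 71238) (nat_lit 6) (node (nat_lit 5) (nat_lit 69267)
  (nat_lit 7) nil nil) (node (nat_lit 7) (nat_lit 71238) (nat_lit 6) nil (node (nat_lit 4)
  (nat_lit 70750) (nat_lit 6) (node (nat_lit 5) (nat_lit 68779) (nat_lit 7) (node (nat_lit 6)
  (nat_lit 69481) (nat_lit 8) (node (nat_lit 7) (nat_lit 33893) (nat_lit 9) nil nil) nil) nil)
  (node (nat_lit 3) (nat_lit 64313) (nat_lit 6) nil (node (nat_lit 0) (nat_lit 71238) (nat_lit 6)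
  nil (node (nat_lit 2) (nat_lit 67159) (nat_lit 6) nil nil)))))) (node (nat_lit 6) (nat_lit
  72099) (nat_lit 5) (node (nat_lit 5) (nat_lit 72959) (nat_lit 6) (node (nat_lit 6) (nat_lit
  74024) (nat_lit 7) nil nil) nil) (node (nat_lit 4) (nat_lit 69854) (nat_lit 5) nil (node
  (nat_lit 3) (nat_lit 67446) (nat_lit 5) (node (nat_lit 4) (nat_lit 70102) (nat_lit 6) nil (node
  (nat_lit 5) (nat_lit 62729) (nat_lit 6) nil nil)) (node (nat_lit 0) (nat_lit 68707) (nat_lit 5)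
  (node (nat_lit 5) (nat_lit 66091) (nat_lit 6) nil nil) (node (nat_lit 2) (nat_lit 67672)
  (nat_lit 5) (node (nat_lit 5) (nat_lit 62955) (nat_lit 6) nil nil) nil)))))) (node (nat_lit 2)
  (nat_lit 0) (nat_lit 4) (node (nat_lit 5) (nat_lit 65374) (nat_lit 5) (node (nat_lit 6) (nat_lit
  69283) (nat_lit 6) (node (nat_lit 5) (nat_lit 70204) (nat_lit 7) (node (nat_lit 7) (nat_lit
  69109) (nat_lit 8) (node (nat_lit 5) (nat_lit 67816) (nat_lit 9) nil nil) nil) nil) (node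
  (nat_lit 7) (nat_lit 65374) (nat_lit 6) (node (nat_lit 6) (nat_lit 68880) (nat_lit 7) (node
  (nat_lit 5) (nat_lit 68774) (nat_lit 8) nil nil) nil) (node (nat_lit 4) (nat_lit 66691) (nat_lit
  6) (node (nat_lit 5) (nat_lit 57428) (nat_lit 7) (node (nat_lit 6) (nat_lit 34962) (nat_lit 8)
  nil nil) nil) (node (nat_lit 3) (nat_lit 63857) (nat_lit 6) nil nil)))) (node (nat_lit 6)
  (nat_lit 68712) (nat_lit 5) (node (nat_lit 5) (nat_lit 69869) (nat_lit 6) (node (nat_lit 6)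
  (nat_lit 70935) (nat_lit 7) nil (node (nat_lit 7) (nat_lit 70744) (nat_lit 7) (node (nat_lit 5)
  (nat_lit 69168) (nat_lit 8) nil nil) (node (nat_lit 4) (nat_lit 70935) (nat_lit 7) nil nil)))
  (node (nat_lit 4) (nat_lit 71278) (nat_lit 6) (node (nat_lit 7) (nat_lit 69307) (nat_lit 7)
  (node (nat_lit 5) (nat_lit 67732) (nat_lit 8) nil nil) nil) nil)) (node (nat_lit 4) (nat_lit
  70380) (nat_lit 5) (node (nat_lit 6) (nat_lit 71842) (nat_lit 6) (node (nat_lit 5) (nat_lit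
  69871) (nat_lit 7) nil nil) (node (nat_lit 7) (nat_lit 67371) (nat_lit 6) (node (nat_lit 5)
  (nat_lit 64020) (nat_lit 7) nil nil) (node (nat_lit 3) (nat_lit 71450) (nat_lit 6) nil nil)))
  (node (nat_lit 3) (nat_lit 65912) (nat_lit 5) (node (nat_lit 4) (nat_lit 57968) (nat_lit 6)
  (node (nat_lit 5) (nat_lit 36072) (nat_lit 7) nil (node (nat_lit 7) (nat_lit 58085) (nat_lit 7)
  nil nil)) (node (nat_lit 5) (nat_lit 61728) (nat_lit 6) nil (node (nat_lit 7) (nat_lit 65912)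
  (nat_lit 6) (node (nat_lit 5) (nat_lit 65331) (nat_lit 7) nil nil) nil))) (node (nat_lit 0)
  (nat_lit 70243) (nat_lit 5) nil nil))))) nil))))) (node (nat_lit 3) (nat_lit 0) (nat_lit 3) t29
  (node (nat_lit 2) (nat_lit 0) (nat_lit 3) t31 nil)))) t39) (node (nat_lit 2) (nat_lit 0)
  (nat_lit 1) t58 nil))))

end Pool.Agent.Work.MP_7cb3ca_co.P3.D
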