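/-!
The checker for the certificate of nonrepetitive choice from lists of three colours, written with
recursors so that the kernel evaluates it fast. Nothing is imported.
-/

namespace Pool.Agent.Work.MP_7cb3ca_co.P3

/-- Tries, in first child / next sibling form, with symbol, weight and depth. -/
inductive Tr : Type
  | nil : Tr
  | node (s h d : Nat) (kid sib : Tr) : Tr

/-- Places in a trie: weight, depth and children. -/
inductive Pos : Type
  | mk (h d : Nat) (kid : Tr) : Pos

/-- Words, oldest letter first: a repeated letter `a` with `b = a + 5`, or a new letter `a` with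
`b = 2 * a`. -/
inductive PL : Type
  | nil : PL
  | old (a b : Nat) (t : PL) : PL
  | new (a b : Nat) (t : PL) : PL

/-- Words, oldest letter first: the letter `a`, the length `d`, all the letters packed in `W`, and
the place `g` of the first unmarked letter. -/
inductive QL : Type
  | nil : QL
  | cons (a d W g : Nat) (t : QL) : QL

/-- Lists of visible events. -/
inductive EV : Type
  | nil : EV
  | cons (n g0 g row : Nat) (t : EV) : EV

/-- The open and the closed visible events of a word, or a visible square. -/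
inductive Evs : Type
  | dead : Evs
  | mk (o c : EV) : Evs

/-- Lists of edges: remaining run `f`, change `k`, digit position `sh`, growth factor `b` and trie
of the next context. -/
inductive EG : Type
  | nil : EG
  | cons (f k sh b : Nat) (tr : Tr) (t : EG) : EG

/-- Binary trees of numbers. -/
inductive BT : Type
  | leaf (v : Nat) : BT
  | node (l r : BT) : BT

/-- Binary trees of tries. -/
inductive TT : Type
  | leaf (v : Tr) : TT
  | node (l r : TT) : TT

noncomputable section

/-- `f e`, with `e` evaluated first. -/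
def strict {α : Type} (e : Nat) (f : Nat → α) : α :=
  Nat.rec (motive := fun _ => α) (f e) (fun m _ => f m) (Nat.add e (nat_lit 1))

/-- Case distinction on a boolean. -/
def cnd {α : Type} (b : Bool) (x y : α) : α := Bool.rec (motive := fun _ => α) y x b

/-- Conjunction. -/
def bnd (a b : Bool) : Bool := Bool.rec (motive := fun _ => Bool) false b a

/-- Disjunction. -/
def bor (a b : Bool) : Bool := Bool.rec (motive := fun _ => Bool) b true a

/-- Entry of a tree of numbers. -/
def BT.get (T : BT) : Nat → Nat :=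
  BT.rec (motive := fun _ => Nat → Nat) (fun v _ => v)
    (fun _ _ l r i => (Nat.rec (motive := fun _ => Nat) (nat_lit 0) (fun j _ => (Bool.rec (motive := fun _ => _) (r j) (l j) (Nat.beq (Nat.mod i (nat_lit 2)) (nat_lit 0)))) (Nat.succ (Nat.div i (nat_lit 2))))) T

/-- Entry of a tree of tries. -/
def TT.get (T : TT) : Nat → Tr :=
  TT.rec (motive := fun _ => Nat → Tr) (fun v _ => v)
    (fun _ _ l r i => (Nat.rec (motive := fun _ => Tr) Tr.nil (fun j _ => (Bool.rec (motive := fun _ => _) (r j) (l j) (Nat.beq (Nat.mod i (nat_lit 2)) (nat_lit 0)))) (Nat.succ (Nat.div i (nat_lit 2))))) T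

/-- The digit of 24 bits at bit position `sh`. -/
def dig (row sh : Nat) : Nat := Nat.land (Nat.shiftRight row sh) (nat_lit 16777215)

/-- The lower mark of letter `a` in a mask. -/
def bit (mk a : Nat) : Nat := Nat.land (Nat.shiftRight mk (Nat.add a a)) (nat_lit 1)

/-- No child with the symbol asked for. -/
def fNil (h d _ : Nat) : Pos := Pos.mk h d Tr.nil

/-- First step of the descent for the word `x :: w`. -/
def pNil (mk x : Nat) (t : Tr) : Pos :=
  Tr.rec (motive := fun _ => Nat → Nat → Nat → Pos) fNil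
    (fun s' h' d' kid _ _ ihs h d s => (Bool.rec (motive := fun _ => _) (ihs h d s) (Pos.mk h' d' kid) (Nat.beq s s')))
    t (nat_lit 0) (nat_lit 0) (Nat.land (Nat.shiftRight mk (Nat.add x x)) (nat_lit 3))

/-- Step of the descent at a repeated letter. -/
def pOld (a b : Nat) (_ : PL) (ih : Nat → Nat → Tr → Pos) (mk x : Nat) (t : Tr) : Pos :=
  Pos.rec (motive := fun _ => Pos) (fun h d kid =>
    Tr.rec (motive := fun _ => Nat → Nat → Nat → Pos) fNil
      (fun s' h' d' kid _ _ ihs h d s => (Bool.rec (motive := fun _ => _) (ihs h d s) (Pos.mk h' d' kid) (Nat.beq s s')))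
      kid h d ((Bool.rec (motive := fun _ => _) b (nat_lit 4) (Nat.beq a x)))) (ih mk x t)

/-- Step of the descent at a new letter. -/
def pNew (a b : Nat) (_ : PL) (ih : Nat → Nat → Tr → Pos) (mk x : Nat) (t : Tr) : Pos :=
  Pos.rec (motive := fun _ => Pos) (fun h d kid =>
    Tr.rec (motive := fun _ => Nat → Nat → Nat → Pos) fNil
      (fun s' h' d' kid _ _ ihs h d s => (Bool.rec (motive := fun _ => _) (ihs h d s) (Pos.mk h' d' kid) (Nat.beq s s')))
      kid h d ((Bool.rec (motive := fun _ => _) (Nat.land (Nat.shiftRight mk b) (nat_lit 3)) (nat_lit 4) (Nat.beq a x)))) (ih mk x t)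

/-- Letter `i` of a packed word. -/
def gt (Z i : Nat) : Nat := Nat.land (Nat.shiftRight Z (Nat.mul (nat_lit 6) i)) (nat_lit 63)

/-- Letter `i` of a packed word whose lowest 24 bits are not used. -/
def gz (Z i : Nat) : Nat := Nat.land (Nat.shiftRight Z (Nat.add (Nat.mul (nat_lit 6) i) (nat_lit 24))) (nat_lit 63)

/-- Nine letters, from letter `i` on. -/
def win (Z i : Nat) : Nat :=
  Nat.land (Nat.shiftRight Z (Nat.add (Nat.mul (nat_lit 6) i) (nat_lit 24))) (nat_lit 18014398509481983)

/-- A square of period at most three appears within `n` steps, when the letters `i, i - 1, ...` of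
`Z` are written after `a5 ... a1`. -/
def bad (Z n : Nat) : Nat → Nat → Nat → Nat → Nat → Nat → Bool :=
  Nat.rec (motive := fun _ => Nat → Nat → Nat → Nat → Nat → Nat → Bool)
    (fun _ _ _ _ _ _ => false)
    (fun _ ih i a1 a2 a3 a4 a5 => (Nat.rec (motive := fun _ => Bool) false (fun c _ =>
      (Bool.rec (motive := fun _ => Bool) ((Bool.rec (motive := fun _ => Bool) ((Bool.rec (motive := fun _ => Bool) (ih (Nat.sub i (nat_lit 1)) c a1 a2 a3 a4) true ((Bool.rec (motive := fun _ => Bool) false ((Bool.rec (motive := fun _ => Bool) false (Nat.beq a2 a5) (Nat.beq a1 a4))) (Nat.beq c a3))))) true ((Bool.rec (motive := fun _ => Bool) false (Nat.beq a1 a3) (Nat.beq c a2))))) true (Nat.beq c a1))) (Nat.succ ((Nat.land (Nat.shiftRight Z (Nat.mul (nat_lit 6) i)) (nat_lit 63)))))) n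

/-- The same, for the letters `4, 3, ...` of `T` after the first five letters of `S`. -/
def bad0 (S T n : Nat) : Bool := bad T n (nat_lit 4) ((Nat.land (Nat.shiftRight S (Nat.mul (nat_lit 6) (nat_lit 0))) (nat_lit 63))) ((Nat.land (Nat.shiftRight S (Nat.mul (nat_lit 6) (nat_lit 1))) (nat_lit 63))) ((Nat.land (Nat.shiftRight S (Nat.mul (nat_lit 6) (nat_lit 2))) (nat_lit 63))) ((Nat.land (Nat.shiftRight S (Nat.mul (nat_lit 6) (nat_lit 3))) (nat_lit 63))) ((Nat.land (Nat.shiftRight S (Nat.mul (nat_lit 6) (nat_lit 4))) (nat_lit 63)))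

/-- The pattern of four letters. -/
def pat (a0 a1 a2 a3 : Nat) : Nat :=
  (Bool.rec (motive := fun _ => _) ((Bool.rec (motive := fun _ => _) ((Bool.rec (motive := fun _ => _) (nat_lit 3) (nat_lit 2) (Nat.beq a3 a1))) (nat_lit 1) (Nat.beq a3 a0))) (nat_lit 0) (Nat.beq a2 a0))

/-- The first place `i, i + 1, ...` among `n` places with a letter other than `a b c`; else `9`. -/
def fo (a b c S n : Nat) : Nat → Nat :=
  Nat.rec (motive := fun _ => Nat → Nat) (fun _ => (nat_lit 9))
    (fun _ ih i => (Nat.rec (motive := fun _ => Nat) (nat_lit 0) (fun x _ =>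
      (Bool.rec (motive := fun _ => _) i (ih (Nat.add i (nat_lit 1))) ((Bool.rec (motive := fun _ => Bool) ((Bool.rec (motive := fun _ => Bool) (Nat.beq x c) true (Nat.beq x b))) true (Nat.beq x a))))) (Nat.succ ((Nat.land (Nat.shiftRight S (Nat.mul (nat_lit 6) i)) (nat_lit 63)))))) n

/-- The class of a word of which `n ≤ 9` letters count. -/
def cls0 (S n : Nat) : Nat :=
  (Nat.rec (motive := fun _ => Nat) (nat_lit 0) (fun p _ => (Bool.rec (motive := fun _ => _) ((Nat.rec (motive := fun _ => Nat) (nat_lit 0) (fun i _ =>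
      Nat.add (Nat.mul (nat_lit 3) p) ((Bool.rec (motive := fun _ => _) ((Bool.rec (motive := fun _ => _) (nat_lit 0) (nat_lit 2) (Nat.ble i (nat_lit 8)))) (nat_lit 1) (Nat.ble i (nat_lit 5))))) (Nat.succ (fo ((Nat.land (Nat.shiftRight S (Nat.mul (nat_lit 6) (nat_lit 0))) (nat_lit 63))) ((Nat.land (Nat.shiftRight S (Nat.mul (nat_lit 6) (nat_lit 1))) (nat_lit 63))) ((Bool.rec (motive := fun _ => _) ((Nat.land (Nat.shiftRight S (Nat.mul (nat_lit 6) (nat_lit 2))) (nat_lit 63))) ((Nat.land (Nat.shiftRight S (Nat.mul (nat_lit 6) (nat_lit 3))) (nat_lit 63))) (Nat.beq p (nat_lit 0)))) S (Nat.sub n (nat_lit 4)) (nat_lit 4))))) (nat_lit 9) (Nat.beq p (nat_lit 3)))) (Nat.succ (pat ((Nat.land (Nat.shiftRight S (Nat.mul (nat_lit 6) (nat_lit 0))) (nat_lit 63))) ((Nat.land (Nat.shiftRight S (Nat.mul (nat_lit 6) (nat_lit 1))) (nat_lit 63))) ((Nat.land (Nat.shiftRight S (Nat.mul (nat_lit 6) (nat_lit 2))) (nat_lit 63))) ((Nat.land (Nat.shiftRight S (Nat.mul (nat_lit 6) (nat_lit 3))) (nat_lit 63))))))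

/-- The class of a word of which `n` letters count. -/
def cls (S n : Nat) : Nat := (Nat.rec (motive := fun _ => Nat) (nat_lit 0) (fun n' _ => cls0 S n') (Nat.succ ((Bool.rec (motive := fun _ => _) (nat_lit 9) n (Nat.ble n (nat_lit 9))))))

/-- The marks of four letters. -/
def am (mk S : Nat) : Nat :=
  Nat.add (Nat.add ((Nat.land (Nat.shiftRight mk (Nat.add ((Nat.land (Nat.shiftRight S (Nat.mul (nat_lit 6) (nat_lit 0))) (nat_lit 63))) ((Nat.land (Nat.shiftRight S (Nat.mul (nat_lit 6) (nat_lit 0))) (nat_lit 63))))) (nat_lit 1))) (Nat.mul (nat_lit 2) ((Nat.land (Nat.shiftRight mk (Nat.add ((Nat.land (Nat.shiftRight S (Nat.mul (nat_lit 6) (nat_lit 1))) (nat_lit 63))) ((Nat.land (Nat.shiftRight S (Nat.mul (nat_lit 6) (nat_lit 1))) (nat_lit 63))))) (nat_lit 1)))))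
    (Nat.add (Nat.mul (nat_lit 4) ((Nat.land (Nat.shiftRight mk (Nat.add ((Nat.land (Nat.shiftRight S (Nat.mul (nat_lit 6) (nat_lit 2))) (nat_lit 63))) ((Nat.land (Nat.shiftRight S (Nat.mul (nat_lit 6) (nat_lit 2))) (nat_lit 63))))) (nat_lit 1)))) (Nat.mul (nat_lit 8) ((Nat.land (Nat.shiftRight mk (Nat.add ((Nat.land (Nat.shiftRight S (Nat.mul (nat_lit 6) (nat_lit 3))) (nat_lit 63))) ((Nat.land (Nat.shiftRight S (Nat.mul (nat_lit 6) (nat_lit 3))) (nat_lit 63))))) (nat_lit 1)))))

/-- Row number in the table of caps. -/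
def iH (mk S : Nat) : Nat :=
  Nat.add (Nat.mul (nat_lit 16) (pat ((Nat.land (Nat.shiftRight S (Nat.mul (nat_lit 6) (nat_lit 0))) (nat_lit 63))) ((Nat.land (Nat.shiftRight S (Nat.mul (nat_lit 6) (nat_lit 1))) (nat_lit 63))) ((Nat.land (Nat.shiftRight S (Nat.mul (nat_lit 6) (nat_lit 2))) (nat_lit 63))) ((Nat.land (Nat.shiftRight S (Nat.mul (nat_lit 6) (nat_lit 3))) (nat_lit 63))))) (am mk S)

/-- Row number in the table of waiting costs. -/
def iW (z cl T : Nat) : Nat :=
  Nat.add (Nat.add (nat_lit 5184) (Nat.mul (nat_lit 64) (Nat.add (Nat.mul (nat_lit 10) z) cl))) ((Bool.rec (motive := fun _ => _) (nat_lit 44) T (Nat.ble T (nat_lit 44))))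

/-- Row number in the table of final costs. -/
def iP (z cl A m : Nat) : Nat :=
  Nat.add (Nat.add (nat_lit 64) (Nat.mul (nat_lit 256) (Nat.add (Nat.mul (nat_lit 10) z) cl))) (Nat.add (Nat.mul (nat_lit 16) A) m)

/-- The row of costs of a visible event. -/
def erow (R : Nat → Nat) (mk Z p l : Nat) : Nat :=
  (Nat.rec (motive := fun _ => Nat) (nat_lit 0) (fun S _ => (Nat.rec (motive := fun _ => Nat) (nat_lit 0) (fun cl _ =>
    (Nat.rec (motive := fun _ => Nat) (nat_lit 0) (fun j _ => (Nat.rec (motive := fun _ => Nat) (nat_lit 0) (fun m_ _ => R m_) (Nat.succ ((Bool.rec (motive := fun _ => _) (iP (nat_lit 0) cl (am mk S) (Nat.shiftLeft (nat_lit 1) (Nat.sub (nat_lit 4) j))) (iW (nat_lit 0) cl (Nat.sub j (nat_lit 4))) (Nat.ble (nat_lit 4) j)))))) (Nat.succ (Nat.sub p l)))) (Nat.succ (cls S p)))) (Nat.succ (win Z l)))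

/-- The bound below which a visible event is void. -/
def eg (Z g0 p l : Nat) : Nat :=
  (Nat.rec (motive := fun _ => Nat) (nat_lit 0) (fun j _ => (Nat.rec (motive := fun _ => Nat) (nat_lit 0) (fun n _ =>
    (Nat.rec (motive := fun _ => Nat) (nat_lit 0) (fun S _ =>
    (Nat.rec (motive := fun _ => Nat) (nat_lit 0) (fun T _ =>
      (Bool.rec (motive := fun _ => _) ((Bool.rec (motive := fun _ => _) (nat_lit 9) g0 (Nat.ble g0 j))) (nat_lit 0) (bad0 S T n))) (Nat.succ (Nat.land (Nat.shiftRight Z (Nat.sub (Nat.mul (nat_lit 6) p) (nat_lit 6))) (nat_lit 1073741823))))) (Nat.succ (Nat.land (Nat.shiftRight Z (nat_lit 24)) (nat_lit 1073741823))))) (Nat.succ ((Bool.rec (motive := fun _ => _) (nat_lit 5) (Nat.sub j (nat_lit 1)) (Nat.ble j (nat_lit 6))))))) (Nat.succ (Nat.sub p l)))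

/-- The events after one more letter `a` at place `d` of the packed word `Z`. -/
def grow (R : Nat → Nat) (mk Z a d : Nat) (o : EV) : EV → EV → Evs :=
  EV.rec (motive := fun _ => EV → EV → Evs) Evs.mk
    (fun p g0 g row _ ih o' c => (Bool.rec (motive := fun _ => _) (ih o' (EV.cons d g0 g row c)) ((Nat.rec (motive := fun _ => Evs) Evs.dead (fun l _ => (Bool.rec (motive := fun _ => _) (ih (EV.cons p g0 (eg Z g0 p l) (erow R mk Z p l) o') c) Evs.dead (Nat.ble p l))) (Nat.succ (Nat.sub (Nat.add d (nat_lit 1)) p)))) (Nat.beq ((Nat.land (Nat.shiftRight Z (Nat.add (Nat.mul (nat_lit 6) (Nat.sub d p)) (nat_lit 24))) (nat_lit 63))) a))) o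

/-- The events of a word of one letter. -/
def eNil (_ : Nat → Nat) (_ _ : Nat) : Evs := Evs.mk (EV.cons (nat_lit 1) (nat_lit 9) (nat_lit 9) (nat_lit 0) EV.nil) EV.nil

/-- The events of a longer word. -/
def eCons (a d W g : Nat) (_ : QL) (ih : (Nat → Nat) → Nat → Nat → Evs) (R : Nat → Nat)
    (mk x : Nat) : Evs :=
  Evs.rec (motive := fun _ => Evs) Evs.dead
    (fun o c => (Nat.rec (motive := fun _ => Evs) Evs.dead (fun Z _ => (Nat.rec (motive := fun _ => Evs) Evs.dead (fun p _ =>
      grow R mk Z a d o (EV.cons p g (eg Z g p (nat_lit 0)) (erow R mk Z p (nat_lit 0)) EV.nil) c) (Nat.succ (Nat.add d (nat_lit 1))))) (Nat.succ (Nat.add W (Nat.shiftLeft x (nat_lit 24)))))) (ih R mk x)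

/-- The charge for the open events. -/
def chgO (e : EV) (f sh : Nat) : Nat :=
  EV.rec (motive := fun _ => Nat) (nat_lit 0) (fun _ _ g row _ ih =>
    (Bool.rec (motive := fun _ => _) (Nat.add ((Nat.land (Nat.shiftRight row sh) (nat_lit 16777215))) ih) ih (Nat.ble g f))) e

/-- Step of the charge for the closed events. -/
def cCons (n _g0 g row : Nat) (_ : EV) (ih : Nat → Nat → Nat → Nat) (dt f sh : Nat) : Nat :=
  (Bool.rec (motive := fun _ => _) ((Bool.rec (motive := fun _ => _) (Nat.add ((Nat.land (Nat.shiftRight row sh) (nat_lit 16777215))) (ih dt f sh)) (ih dt f sh) (Nat.ble g f))) (nat_lit 0) (Nat.ble n dt))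

/-- The charge for no event. -/
def cNil (_ _ _ : Nat) : Nat := (nat_lit 0)

/-- The charge for the visible events. -/
def chg (o c : EV) (d dt f sh : Nat) : Nat :=
  (Bool.rec (motive := fun _ => _) (nat_lit 0) (Nat.add (chgO o f sh)
    (EV.rec (motive := fun _ => Nat → Nat → Nat → Nat) cNil cCons c dt f sh)) (Nat.ble dt d))

/-- The value of an arrival. -/
def val (w : PL) (x : Nat) (t : Tr) (o c : EV) (d cap bl f sh mk : Nat) : Nat :=
  Pos.rec (motive := fun _ => Nat)
    (fun h dt _ => Nat.sub cap (Nat.sub cap (Nat.sub h (Nat.add bl (chg o c d dt f sh)))))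
    (PL.rec (motive := fun _ => Nat → Nat → Tr → Pos) pNil pOld pNew w mk x t)

/-- The value of an arrival that needs depth five. -/
def val5 (w : PL) (x : Nat) (t : Tr) (o c : EV) (d cap bl f sh mk : Nat) : Nat :=
  Pos.rec (motive := fun _ => Nat)
    (fun _ dt _ => (Bool.rec (motive := fun _ => _) (nat_lit 0) (val w x t o c d cap bl f sh mk) (Nat.ble (nat_lit 5) dt)))
    (PL.rec (motive := fun _ => Nat → Nat → Tr → Pos) pNil pOld pNew w mk x t)

/-- The data of the letter `x` after a word of length `d`. -/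
def letter (R : Nat → Nat) (mk : Nat) (w : PL) (v : QL) (W d x : Nat)
    (K : (Tr → Nat → Nat → Nat → ((Nat → Nat) → Bool) → Bool) → Bool) : Bool :=
  Evs.rec (motive := fun _ => Bool) (K fun _ _ _ _ k => k fun _ => (nat_lit 0))
    (fun o c => (Nat.rec (motive := fun _ => Bool) false (fun Z _ =>
      (Nat.rec (motive := fun _ => Bool) false (fun ir _ =>
      (Nat.rec (motive := fun _ => Bool) false (fun S _ => (Nat.rec (motive := fun _ => Bool) false (fun ic _ =>
        (fun B : (PL → Nat → Tr → EV → EV → Nat → Nat → Nat → Nat → Nat → Nat → Nat) → Bool =>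
          (Bool.rec (motive := fun _ => _) (B val) (B val5) ((Bool.rec (motive := fun _ => Bool) false (Nat.beq ((Nat.land (Nat.shiftRight Z (Nat.mul (nat_lit 6) (nat_lit 1))) (nat_lit 63))) ((Nat.land (Nat.shiftRight Z (Nat.mul (nat_lit 6) (nat_lit 4))) (nat_lit 63)))) (Nat.beq x ((Nat.land (Nat.shiftRight Z (Nat.mul (nat_lit 6) (nat_lit 3))) (nat_lit 63))))))))
        fun V => K fun tr f sh T k => (Nat.rec (motive := fun _ => Bool) false (fun cap _ =>
          (Nat.rec (motive := fun _ => Bool) false (fun iw _ => (Nat.rec (motive := fun _ => Bool) false (fun bl _ => k (V w x tr o c d cap bl f sh)) (Nat.succ ((Nat.land (Nat.shiftRight (R iw) sh) (nat_lit 16777215)))))) (Nat.succ (Nat.add ir T)))) (Nat.succ ((Nat.land (Nat.shiftRight (R ic) sh) (nat_lit 16777215)))))) (Nat.succ (iH mk S)))) (Nat.succ (Nat.land Z (nat_lit 16777215))))) (Nat.succ (Nat.add (nat_lit 5824) (Nat.mul (nat_lit 64) (cls Z (Nat.add d (nat_lit 1)))))))) (Nat.succ (win (Nat.add W (Nat.shiftLeft x (nat_lit 24))) (nat_lit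 0)))))
    (QL.rec (motive := fun _ => (Nat → Nat) → Nat → Nat → Evs) eNil eCons v R mk x)

/-- The upper mark of letter `a`. -/
def up (a : Nat) : Nat := Nat.shiftLeft (nat_lit 2) (Nat.add a a)

/-- All ways to mark at most `k` letters of a list. -/
def born (f : Nat → Bool) (l : List Nat) : Nat → Nat → Bool :=
  List.rec (motive := fun _ => Nat → Nat → Bool) (fun _ acc => f acc)
    (fun a _ ih k acc => Nat.rec (motive := fun _ => Bool) (f acc)
      (fun k' _ => (Bool.rec (motive := fun _ => Bool) false ((Nat.rec (motive := fun _ => Bool) false (fun acc' _ => ih k' acc') (Nat.succ (Nat.lor acc ((Nat.shiftLeft (nat_lit 2) (Nat.add a a))))))) (ih k acc))) k) l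

/-- All ways to mark all but exactly `k` letters of a list. -/
def keep (f : Nat → Bool) (l : List Nat) : Nat → Nat → Bool :=
  List.rec (motive := fun _ => Nat → Nat → Bool)
    (fun k acc => Nat.rec (motive := fun _ => Bool) (f acc) (fun _ _ => true) k)
    (fun a _ ih k acc => (Bool.rec (motive := fun _ => Bool) false (Nat.rec (motive := fun _ => Bool) true (fun k' _ => ih k' acc) k) ((Nat.rec (motive := fun _ => Bool) false (fun acc' _ => ih k acc') (Nat.succ (Nat.lor acc ((Nat.shiftLeft (nat_lit 2) (Nat.add a a))))))))) l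

/-- All entries of a list pass. -/
def allL (f : Nat → Bool) (l : List Nat) : Bool :=
  List.rec (motive := fun _ => Bool) true (fun a _ ih => (Bool.rec (motive := fun _ => Bool) false ih (f a))) l

/-- The remaining length of the run of equal lists in context `c`. -/
def cf (c : Nat) : Nat := (Bool.rec (motive := fun _ => _) (Nat.sub (Nat.mod c (nat_lit 10)) (nat_lit 1)) (nat_lit 1) (Nat.ble (Nat.mod c (nat_lit 10)) (nat_lit 2)))

/-- The number of colours that leave the list in context `c`. -/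
def ck (c : Nat) : Nat := (Bool.rec (motive := fun _ => _) (nat_lit 0) (Nat.add (Nat.mod c (nat_lit 10)) (nat_lit 1)) (Nat.ble (Nat.mod c (nat_lit 10)) (nat_lit 2)))

/-- The contexts that may follow context `c`. -/
def nxt (c : Nat) : List Nat :=
  (Nat.rec (motive := fun _ => List Nat) [] (fun r _ => (Bool.rec (motive := fun _ => _) ((Nat.rec (motive := fun _ => List Nat) [] (fun b _ =>
      (Bool.rec (motive := fun _ => _) ((Nat.rec (motive := fun _ => List Nat) [] (fun b1 _ =>
          (Bool.rec (motive := fun _ => _) [b1] ((Nat.rec (motive := fun _ => List Nat) [] (fun b2 _ => [b1, b2]) (Nat.succ (Nat.add b (nat_lit 9))))) (Nat.beq r (nat_lit 9)))) (Nat.succ (Nat.add b (Nat.sub r (nat_lit 1)))))) ((Nat.rec (motive := fun _ => List Nat) [] (fun b1 _ => (Nat.rec (motive := fun _ => List Nat) [] (fun b2 _ => [b, b1, b2]) (Nat.succ (Nat.add b (nat_lit 2))))) (Nat.succ (Nat.add b (nat_lit 1))))) (Nat.beq r (nat_lit 3)))) (Nat.succ ((Bool.rec (motive := fun _ => _) (Nat.add (Nat.sub c r)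 (nat_lit 10)) (nat_lit 80) (Nat.ble (nat_lit 80) c)))))) [(nat_lit 0), (nat_lit 1), (nat_lit 2), (nat_lit 3), (nat_lit 4), (nat_lit 5), (nat_lit 6), (nat_lit 7), (nat_lit 8), (nat_lit 9)] (Nat.ble r (nat_lit 2)))) (Nat.succ (Nat.mod c (nat_lit 10))))

/-- The letters of the next list. -/
def lM (k : Nat) : List Nat :=
  (Bool.rec (motive := fun _ => _) ((Bool.rec (motive := fun _ => _) ((Bool.rec (motive := fun _ => _) [(nat_lit 3), (nat_lit 4), (nat_lit 5)] [(nat_lit 0), (nat_lit 3), (nat_lit 4)] (Nat.beq k (nat_lit 2)))) [(nat_lit 0), (nat_lit 1), (nat_lit 3)] (Nat.beq k (nat_lit 1)))) [(nat_lit 0), (nat_lit 1), (nat_lit 2)] (Nat.beq k (nat_lit 0)))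

/-- The letters that leave the list. -/
def lC (k : Nat) : List Nat :=
  (Bool.rec (motive := fun _ => _) ((Bool.rec (motive := fun _ => _) ((Bool.rec (motive := fun _ => _) [(nat_lit 0), (nat_lit 1), (nat_lit 2)] [(nat_lit 1), (nat_lit 2)] (Nat.beq k (nat_lit 2)))) [(nat_lit 2)] (Nat.beq k (nat_lit 1)))) [] (Nat.beq k (nat_lit 0)))

/-- The mask of the letters of the next list. -/
def mM (k : Nat) : Nat :=
  (Bool.rec (motive := fun _ => _) ((Bool.rec (motive := fun _ => _) ((Bool.rec (motive := fun _ => _) (nat_lit 1344) (nat_lit 321) (Nat.beq k (nat_lit 2)))) (nat_lit 69) (Nat.beq k (nat_lit 1)))) (nat_lit 21) (Nat.beq k (nat_lit 0)))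

/-- The edges to the contexts of a list. -/
def edges (TR : Nat → Tr) (br : Nat) (l : List Nat) : EG :=
  List.rec (motive := fun _ => EG) EG.nil (fun c _ ih =>
    (Nat.rec (motive := fun _ => EG) EG.nil (fun f _ => (Nat.rec (motive := fun _ => EG) EG.nil (fun k _ => (Nat.rec (motive := fun _ => EG) EG.nil (fun sh _ => (Nat.rec (motive := fun _ => EG) EG.nil (fun b _ =>
      EG.cons f k sh b (TR c) ih) (Nat.succ ((Nat.land (Nat.shiftRight br sh) (nat_lit 16777215)))))) (Nat.succ (Nat.mul (nat_lit 24) c)))) (Nat.succ (ck c)))) (Nat.succ (cf c)))) l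

/-- The check of one state. -/
def state (R : Nat → Nat) (mk : Nat) (M : List Nat) (N : EG) (d h : Nat) (w : PL)
    (v : QL) (W g : Nat) (C : List Nat) : Bool :=
  letter R mk w v W d (nat_lit 0) fun g1 => letter R mk w v W d (nat_lit 1) fun g2 => letter R mk w v W d (nat_lit 2) fun g3 =>
    EG.rec (motive := fun _ => Bool) true (fun f k sh b tr _ ih => (Bool.rec (motive := fun _ => Bool) false ih ((Nat.rec (motive := fun _ => Bool) false (fun nd _ =>
        (Nat.rec (motive := fun _ => Bool) false (fun T0 _ => (Nat.rec (motive := fun _ => Bool) false (fun T _ =>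
          g1 tr f sh T fun v1 => g2 tr f sh T fun v2 => g3 tr f sh T fun v3 =>
            keep (fun m1 => born (fun m2 => Nat.ble nd
              (Nat.mul (nat_lit 65536) (Nat.add (Nat.add (v1 m2) (v2 m2)) (v3 m2)))) C k m1) M k mk) (Nat.succ ((Bool.rec (motive := fun _ => _) (nat_lit 44) T0 (Nat.ble T0 (nat_lit 44))))))) (Nat.succ (Nat.add (Nat.sub d (nat_lit 2)) (Nat.sub f g))))) (Nat.succ (Nat.mul b h)))))) N

/-- A number below `2 ^ 18` that is added to the packed word. -/
def salt (s d : Nat) : Nat := Nat.mod (Nat.mul (Nat.mul (Nat.add s (nat_lit 1)) (Nat.add d (nat_lit 17))) (nat_lit 2654435)) (nat_lit 262144)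

/-- The check of the nodes of a trie whose key lies in `[lo, hi]`; `d` is the length of the path so
far and `q` its key. -/
def chkT (sl : Nat → Nat → Nat) (S : Nat → Nat → PL → QL → Nat → Nat → List Nat → Bool)
    (mk lo hi : Nat) (t : Tr) :
    Nat → Nat → PL → QL → Nat → Nat → List Nat → Nat → Nat → Nat → Bool :=
  Tr.rec (motive := fun _ =>
      Nat → Nat → PL → QL → Nat → Nat → List Nat → Nat → Nat → Nat → Bool)
    (fun _ _ _ _ _ _ _ _ _ _ => true)
    (fun s h d' _ _ ihk ihs d q w v W g C i1 i2 i3 =>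
      (Bool.rec (motive := fun _ => Bool) false (ihs d q w v W g C i1 i2 i3) ((Nat.rec (motive := fun _ => Bool) false (fun e _ =>
        (Nat.rec (motive := fun _ => Bool) false (fun q' _ =>
        (fun k : Nat → PL → List Nat → Nat → Nat → Nat → Bool =>
          (Bool.rec (motive := fun _ => _) ((Bool.rec (motive := fun _ => _) ((Bool.rec (motive := fun _ => _) ((Bool.rec (motive := fun _ => _) ((Nat.rec (motive := fun _ => Bool) false (fun b _ => (Nat.rec (motive := fun _ => Bool) false (fun j _ =>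
                    k i3 (PL.new i3 b w) C i1 i2 j) (Nat.succ (Nat.add i3 (nat_lit 1))))) (Nat.succ (Nat.add i3 i3)))) ((Nat.rec (motive := fun _ => Bool) false (fun b _ => (Nat.rec (motive := fun _ => Bool) false (fun j _ =>
                    k i2 (PL.new i2 b w) C i1 j i3) (Nat.succ (Nat.add i2 (nat_lit 1))))) (Nat.succ (Nat.add i2 i2)))) (Nat.beq s (nat_lit 2)))) ((Nat.rec (motive := fun _ => Bool) false (fun b _ => (Nat.rec (motive := fun _ => Bool) false (fun j _ =>
                  k i1 (PL.new i1 b w) C j i2 i3) (Nat.succ (Nat.add i1 (nat_lit 1))))) (Nat.succ (Nat.add i1 i1)))) (Nat.beq s (nat_lit 1)))) ((Nat.rec (motive := fun _ => Bool) false (fun a _ => (Nat.rec (motive := fun _ => Bool) false (fun b _ =>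
                k a (PL.new a b w) (a :: C) i1 i2 i3) (Nat.succ (Nat.add a a)))) (Nat.succ (Nat.add d (nat_lit 6))))) (Nat.beq s (nat_lit 0)))) ((Nat.rec (motive := fun _ => Bool) false (fun a _ => (Nat.rec (motive := fun _ => Bool) false (fun b _ =>
              k a (PL.old a b w) C i1 i2 i3) (Nat.succ (Nat.add s (nat_lit 1))))) (Nat.succ ((Nat.land (Nat.shiftRight W (Nat.add (Nat.mul (nat_lit 6) (Nat.sub s (nat_lit 3))) (nat_lit 24))) (nat_lit 63)))))) (Nat.ble (nat_lit 4) s)))
        fun a w C i1 i2 i3 =>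
          (Nat.rec (motive := fun _ => Bool) false (fun W _ =>
          (Nat.rec (motive := fun _ => Bool) false (fun g _ =>
          (fun v : QL => (Bool.rec (motive := fun _ => _) ((Bool.rec (motive := fun _ => Bool) (ihk e q' w v W g C i1 i2 i3) true (Nat.ble (nat_lit 7) e))) ((Bool.rec (motive := fun _ => Bool) false (ihk e q' w v W g C i1 i2 i3) ((Bool.rec (motive := fun _ => Bool) ((Bool.rec (motive := fun _ => Bool) false (S e h w v W g C) ((Bool.rec (motive := fun _ => Bool) false ((Bool.rec (motive := fun _ => Bool) false (Nat.ble e (nat_lit 55)) (Nat.ble (nat_lit 4) e))) (Nat.beq d' e))))) true (Nat.beq h (nat_lit 0)))))) ((Bool.rec (motive := fun _ => Bool) false (Nat.ble q' hi) (Nat.ble lo q'))))) (QL.cons a e W g v)) (Nat.succ ((Bool.rec (motive := fun _ => _) (nat_lit 1) (Nat.add g (nat_lit 1)) (Nat.beq ((Nat.land (Nat.shiftRight mk (Nat.add a a)) (nat_lit 1))) (nat_lit 1))))))) (Nat.succ (Nat.add (Nat.add W (Nat.shiftLeft a (Nat.add (Nat.mul (nat_lit 6) e) (nat_lit 24))))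
            (sl s d))))) (Nat.succ ((Bool.rec (motive := fun _ => _) q (Nat.mod (Nat.add (Nat.mul q (nat_lit 37)) s) (nat_lit 4099)) (Nat.ble d (nat_lit 6))))))) (Nat.succ (Nat.add d (nat_lit 1))))))) t

/-- The check of a part of the trie of context `c`. -/
def chkC (R : Nat → Nat) (TR : Nat → Tr) (c lo hi : Nat) : Bool :=
  (Nat.rec (motive := fun _ => Bool) false (fun k _ => (Nat.rec (motive := fun _ => Bool) false (fun mk _ => (Nat.rec (motive := fun _ => Bool) false (fun i1 _ =>
    chkT salt (state R mk (lM k) (edges TR (R (Nat.add (nat_lit 6464) c)) (nxt c))) mk lo hi (TR c)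
      (nat_lit 0) (nat_lit 0) PL.nil QL.nil (nat_lit 0) (nat_lit 9) (lC k) i1 (nat_lit 3) (nat_lit 0)) (Nat.succ (Nat.sub (nat_lit 3) k)))) (Nat.succ (mM k)))) (Nat.succ (ck c)))

/-- `f 0 ∧ ... ∧ f (n - 1)`. -/
def allN (f : Nat → Bool) (n : Nat) : Bool :=
  Nat.rec (motive := fun _ => Bool) true (fun m ih => (Bool.rec (motive := fun _ => Bool) false ih (f m))) n

/-- Bit `i` of `A`. -/
def bt (A i : Nat) : Nat := Nat.land (Nat.shiftRight A i) (nat_lit 1)

/-- The number of different marked letters among four letters of pattern `p`. -/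
def cnt (p A : Nat) : Nat :=
  Nat.add (Nat.add ((Nat.land (Nat.shiftRight A (nat_lit 0)) (nat_lit 1))) ((Nat.land (Nat.shiftRight A (nat_lit 1)) (nat_lit 1))))
    ((Bool.rec (motive := fun _ => _) (Nat.add ((Nat.land (Nat.shiftRight A (nat_lit 2)) (nat_lit 1))) ((Bool.rec (motive := fun _ => _) (nat_lit 0) ((Nat.land (Nat.shiftRight A (nat_lit 3)) (nat_lit 1))) (Nat.beq p (nat_lit 3))))) ((Nat.land (Nat.shiftRight A (nat_lit 3)) (nat_lit 1))) (Nat.beq p (nat_lit 0))))

/-- Marks that agree on equal letters and mark at most three letters. -/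
def feas (p A : Nat) : Bool :=
  (Bool.rec (motive := fun _ => _) ((Bool.rec (motive := fun _ => _) ((Bool.rec (motive := fun _ => _) (Nat.ble (cnt p A) (nat_lit 3)) (Nat.beq ((Nat.land (Nat.shiftRight A (nat_lit 1)) (nat_lit 1))) ((Nat.land (Nat.shiftRight A (nat_lit 3)) (nat_lit 1)))) (Nat.beq p (nat_lit 2)))) (Nat.beq ((Nat.land (Nat.shiftRight A (nat_lit 0)) (nat_lit 1))) ((Nat.land (Nat.shiftRight A (nat_lit 3)) (nat_lit 1)))) (Nat.beq p (nat_lit 1)))) (Nat.beq ((Nat.land (Nat.shiftRight A (nat_lit 0)) (nat_lit 1))) ((Nat.land (Nat.shiftRight A (nat_lit 2)) (nat_lit 1)))) (Nat.beq p (nat_lit 0)))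

/-- Marks for two lists of three colours that differ in `k` colours. -/
def compat (p k A B : Nat) : Bool :=
  (Bool.rec (motive := fun _ => Bool) false ((Nat.rec (motive := fun _ => Bool) false (fun x _ =>
    (Bool.rec (motive := fun _ => Bool) false ((Bool.rec (motive := fun _ => Bool) false (Nat.ble (cnt p B) x) (Nat.ble (cnt p A) x))) (Nat.ble x (nat_lit 3)))) (Nat.succ (Nat.add (cnt p (Nat.land A B)) k)))) (feas p B))

/-- The four bits of `A` in reverse order. -/
def rv4 (A : Nat) : Nat :=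
  Nat.add (Nat.add (Nat.mul (nat_lit 8) ((Nat.land (Nat.shiftRight A (nat_lit 0)) (nat_lit 1)))) (Nat.mul (nat_lit 4) ((Nat.land (Nat.shiftRight A (nat_lit 1)) (nat_lit 1)))))
    (Nat.add (Nat.mul (nat_lit 2) ((Nat.land (Nat.shiftRight A (nat_lit 2)) (nat_lit 1)))) ((Nat.land (Nat.shiftRight A (nat_lit 3)) (nat_lit 1))))

/-- One inequality `65536 * x ≤ b * y` for each edge from context `c`. -/
def step (R : Nat → Nat) (x : Nat → Nat) (y c : Nat) : Bool :=
  (Nat.rec (motive := fun _ => Bool) false (fun ib _ => (Nat.rec (motive := fun _ => Bool) false (fun br _ =>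
    allL (fun c' => (Nat.rec (motive := fun _ => Bool) false (fun sh _ =>
      Nat.ble (Nat.mul (nat_lit 65536) (x sh)) (Nat.mul ((Nat.land (Nat.shiftRight br sh) (nat_lit 16777215))) y)) (Nat.succ (Nat.mul (nat_lit 24) c')))) (nxt c)) (Nat.succ (R ib)))) (Nat.succ (Nat.add (nat_lit 6464) c)))

/-- The check of one row of the table of final costs. -/
def chkP (R : Nat → Nat) (z cl A m : Nat) : Bool :=
  (Nat.rec (motive := fun _ => Bool) false (fun p _ => (Nat.rec (motive := fun _ => Bool) false (fun tc _ =>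
  (Nat.rec (motive := fun _ => Bool) false (fun al _ => (Nat.rec (motive := fun _ => Bool) false (fun m' _ =>
  (Nat.rec (motive := fun _ => Bool) false (fun i _ => (Nat.rec (motive := fun _ => Bool) false (fun row _ =>
    allN (fun c => (Nat.rec (motive := fun _ => Bool) false (fun k _ => (Nat.rec (motive := fun _ => Bool) false (fun y _ =>
      allN (fun B => (Bool.rec (motive := fun _ => _) true ((Nat.rec (motive := fun _ => Bool) false (fun i' _ => (Nat.rec (motive := fun _ => Bool) false (fun row' _ =>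
          (Bool.rec (motive := fun _ => _) (step R (dig row') y c) ((Nat.rec (motive := fun _ => Bool) false (fun ih _ => (Nat.rec (motive := fun _ => Bool) false (fun hr _ =>
              step R (fun sh => Nat.add ((Nat.land (Nat.shiftRight row' sh) (nat_lit 16777215))) ((Nat.land (Nat.shiftRight hr sh) (nat_lit 16777215)))) y c) (Nat.succ (R ih)))) (Nat.succ (Nat.add (Nat.mul (nat_lit 16) p) B)))) ((Bool.rec (motive := fun _ => Bool) false ((Bool.rec (motive := fun _ => Bool) (Nat.ble (Nat.add (Nat.div c (nat_lit 10)) (nat_lit 2)) (Nat.add (Nat.mul (nat_lit 3) tc) (nat_lit 3))) true (Nat.beq tc (nat_lit 0)))) (Nat.ble (nat_lit 8) al))))) (Nat.succ (R i')))) (Nat.succ (iP z cl B m')))) (compat p k A B))) (nat_lit 16)) (Nat.succ ((Nat.land (Nat.shiftRight row (Nat.mul (nat_lit 24) c)) (nat_lit 16777215)))))) (Nat.succ (ck c)))) (nat_lit 90)) (Nat.succ (R i)))) (Nat.succ (iP z cl A m)))) (Nat.succ (Nat.add (Nat.mul (nat_lit 2) (Nat.mod al (nat_lit 8))) z)))) (Nat.succ (Nat.land m (rv4 A)))))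 (Nat.succ (Nat.mod cl (nat_lit 3))))) (Nat.succ (Nat.div cl (nat_lit 3))))

/-- The check of the table of final costs for one class. -/
def chkPs (R : Nat → Nat) (z cl : Nat) : Bool :=
  allN (fun A => (Bool.rec (motive := fun _ => _) true (allL (chkP R z cl A) ((Bool.rec (motive := fun _ => _) [(nat_lit 1), (nat_lit 3), (nat_lit 5), (nat_lit 7), (nat_lit 9), (nat_lit 11), (nat_lit 13), (nat_lit 15)] [(nat_lit 0), (nat_lit 1), (nat_lit 2), (nat_lit 4), (nat_lit 8)] (Nat.beq z (nat_lit 0))))) (feas (Nat.div cl (nat_lit 3)) A))) (nat_lit 16)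

/-- The check of the table of waiting costs for one class. -/
def chkW (R : Nat → Nat) (z cl : Nat) : Bool :=
  (Bool.rec (motive := fun _ => Bool) false (allN (fun T => (Nat.rec (motive := fun _ => Bool) false (fun row' _ => (Nat.rec (motive := fun _ => Bool) false (fun row _ =>
      allN (fun c => (Nat.rec (motive := fun _ => Bool) false (fun y _ => step R (dig row') y c) (Nat.succ ((Nat.land (Nat.shiftRight row (Nat.mul (nat_lit 24) c)) (nat_lit 16777215)))))) (nat_lit 90)) (Nat.succ (R (iW z cl (Nat.add T (nat_lit 1))))))) (Nat.succ (R (iW z cl T))))) (nat_lit 45)) ((Nat.rec (motive := fun _ => Bool) false (fun row _ => allN (fun A => (Bool.rec (motive := fun _ => _) true ((Nat.rec (motive := fun _ => Bool) false (fun row' _ => allN (fun c => (Nat.rec (motive := fun _ => Bool) false (fun sh _ =>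
        Nat.ble ((Nat.land (Nat.shiftRight row' sh) (nat_lit 16777215))) ((Nat.land (Nat.shiftRight row sh) (nat_lit 16777215)))) (Nat.succ (Nat.mul (nat_lit 24) c)))) (nat_lit 90)) (Nat.succ (R (iP z cl A (nat_lit 1)))))) (feas (Nat.div cl (nat_lit 3)) A))) (nat_lit 16)) (Nat.succ (R (iW z cl (nat_lit 0)))))))

/-- The growth factors are positive and the starting states have positive weight. -/
def chk0 (R : Nat → Nat) (TR : Nat → Tr) : Bool :=
  (Bool.rec (motive := fun _ => Bool) false (allN (fun c => Pos.rec (motive := fun _ => Bool) (fun h _ _ => Nat.ble (nat_lit 1) h)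
      (PL.rec (motive := fun _ => Nat → Nat → Tr → Pos) pNil pOld pNew
        (PL.new (nat_lit 2) (nat_lit 4) (PL.new (nat_lit 1) (nat_lit 2) (PL.new (nat_lit 0) (nat_lit 0) PL.nil))) (nat_lit 0) (nat_lit 3) (TR c))) (nat_lit 10)) (allN (fun c => allL (fun c' => Nat.ble (nat_lit 1) ((Nat.land (Nat.shiftRight (R (Nat.add (nat_lit 6464) c)) (Nat.mul (nat_lit 24) c')) (nat_lit 16777215)))) (nxt c))
      (nat_lit 90)))

end

end Pool.Agent.Work.MP_7cb3ca_co.P3
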