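import Pool.Agent.Work.MP_7cb3ca_co.P3.Defs
import Mathlib.Tactic
import Mathlib.Data.Nat.Bitwise

/-! Readable equations for the functions of the checker. -/

namespace Pool.Agent.Work.MP_7cb3ca_co.P3

lemma brec {α : Type} (x y : α) (b : Bool) :
    @Bool.rec (fun _ => α) y x b = if b = true then x else y := by cases b <;> rfl

lemma land_mask (x n : ℕ) : Nat.land x (2 ^ n - 1) = x % 2 ^ n := Nat.and_two_pow_sub_one_eq_mod x n

lemma mod_eq (x n : ℕ) : Nat.mod x n = x % n := (rfl)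

lemma add_eq (x n : ℕ) : Nat.add x n = x + n := (rfl)

lemma mul_eq (x n : ℕ) : Nat.mul x n = x * n := (rfl)

lemma sub_eq (x n : ℕ) : Nat.sub x n = x - n := (rfl)

lemma shr (x n : ℕ) : Nat.shiftRight x n = x / 2 ^ n := Nat.shiftRight_eq_div_pow x n

lemma shl (x n : ℕ) : Nat.shiftLeft x n = x * 2 ^ n := Nat.shiftLeft_eq x n

/-- The weight of a place. -/
def Pos.h : Pos → ℕ | .mk h _ _ => h
/-- The depth of a place. -/
def Pos.d : Pos → ℕ | .mk _ d _ => d
/-- The children of a place. -/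
def Pos.kid : Pos → Tr | .mk _ _ k => k

/-- The child with symbol `s`, else the place itself without children. -/
def find : Tr → ℕ → ℕ → ℕ → Pos
  | .nil, h, d, _ => .mk h d .nil
  | .node s' h' d' kid sib, h, d, s => if s = s' then .mk h' d' kid else find sib h d s

/-- One step of the descent. -/
def Pos.step (p : Pos) (s : ℕ) : Pos := find p.kid p.h p.d s

/-- The two marks of letter `a` in a mask. -/
def mark2 (mk a : ℕ) : ℕ := mk / 2 ^ (a + a) % 4

/-- The descent of the checker. -/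
noncomputable def posM (w : PL) (mk x : ℕ) (t : Tr) : Pos :=
  PL.rec (motive := fun _ => ℕ → ℕ → Tr → Pos) pNil pOld pNew w mk x t

/-- The events of the checker. -/
noncomputable def evsM (v : QL) (R : ℕ → ℕ) (mk x : ℕ) : Evs :=
  QL.rec (motive := fun _ => (ℕ → ℕ) → ℕ → ℕ → Evs) eNil eCons v R mk x

/-- The charge for the closed events. -/
noncomputable def chgC (c : EV) (dt f sh : ℕ) : ℕ :=
  EV.rec (motive := fun _ => ℕ → ℕ → ℕ → ℕ) cNil cCons c dt f sh

lemma find_rec (t : Tr) (h d s : ℕ) :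
    Tr.rec (motive := fun _ => ℕ → ℕ → ℕ → Pos) fNil
      (fun s' h' d' kid _ _ ihs h d s =>
        @Bool.rec (fun _ => Pos) (ihs h d s) (Pos.mk h' d' kid) (Nat.beq s s')) t h d s =
      find t h d s := by
  induction t with
  | nil => rfl
  | node s' h' d' kid sib _ ih =>
    change @Bool.rec (fun _ => Pos) _ (Pos.mk h' d' kid) (Nat.beq s s') = _
    rw [brec, ih]
    simp [find]

lemma mark2_eq (mk a : ℕ) : Nat.land (Nat.shiftRight mk a) 3 = mk / 2 ^ a % 4 := by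
  rw [shr]; exact land_mask _ 2

lemma posM_nil (mk x : ℕ) (t : Tr) : posM .nil mk x t = (Pos.mk 0 0 t).step (mark2 mk x) := by
  change pNil mk x t = _
  unfold pNil
  rw [find_rec]
  exact congrArg _ (mark2_eq _ _)

lemma posM_old (a b : ℕ) (w : PL) (mk x : ℕ) (t : Tr) :
    posM (.old a b w) mk x t = (posM w mk x t).step (if a = x then 4 else b) := by
  change pOld a b w (fun mk x t => posM w mk x t) mk x t = _
  unfold pOld
  beta_reduce
  cases posM w mk x t with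
  | mk h d kid =>
    change Tr.rec (motive := fun _ => ℕ → ℕ → ℕ → Pos) _ _ kid h d _ = _
    rw [find_rec, brec]
    simp [Pos.step, Pos.kid, Pos.h, Pos.d]

lemma posM_new (a b : ℕ) (w : PL) (mk x : ℕ) (t : Tr) :
    posM (.new a b w) mk x t =
      (posM w mk x t).step (if a = x then 4 else mk / 2 ^ b % 4) := by
  change pNew a b w (fun mk x t => posM w mk x t) mk x t = _
  unfold pNew
  beta_reduce
  cases posM w mk x t with
  | mk h d kid =>
    change Tr.rec (motive := fun _ => ℕ → ℕ → ℕ → Pos) _ _ kid h d _ = _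
    rw [find_rec, brec, ← mark2_eq]
    simp [Pos.step, Pos.kid, Pos.h, Pos.d]

lemma dig_eq (row sh : ℕ) : dig row sh = row / 2 ^ sh % 2 ^ 24 := by
  unfold dig; rw [shr]; exact land_mask _ 24

lemma bit_eq (mk a : ℕ) : bit mk a = mk / 2 ^ (a + a) % 2 := by
  unfold bit; rw [shr]; exact land_mask _ 1

lemma bt_eq (A i : ℕ) : bt A i = A / 2 ^ i % 2 := by
  unfold bt; rw [shr]; exact land_mask _ 1

lemma gt_eq (Z i : ℕ) : gt Z i = Z / 2 ^ (6 * i) % 64 := by
  unfold gt; rw [shr]; exact land_mask _ 6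

lemma gz_eq (Z i : ℕ) : gz Z i = Z / 2 ^ (6 * i + 24) % 64 := by
  unfold gz; rw [shr]; exact land_mask _ 6

lemma win_eq (Z i : ℕ) : win Z i = Z / 2 ^ (6 * i + 24) % 2 ^ 54 := by
  unfold win; rw [shr]; exact land_mask _ 54

lemma up_eq (a : ℕ) : up a = 2 ^ (a + a + 1) := by
  unfold up; rw [shl, pow_succ, mul_comm]; rfl

lemma bad_zero (Z i a1 a2 a3 a4 a5 : ℕ) : bad Z 0 i a1 a2 a3 a4 a5 = false := rfl

lemma bad_succ (Z n i a1 a2 a3 a4 a5 : ℕ) : bad Z (n + 1) i a1 a2 a3 a4 a5 = true ↔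
    (gt Z i = a1 ∨ (gt Z i = a2 ∧ a1 = a3) ∨ (gt Z i = a3 ∧ a1 = a4 ∧ a2 = a5) ∨
      bad Z n (i - 1) (gt Z i) a1 a2 a3 a4 = true) := by
  have : bad Z (n + 1) i a1 a2 a3 a4 a5 = bor (Nat.beq (gt Z i) a1)
      (bor (bnd (Nat.beq (gt Z i) a2) (Nat.beq a1 a3))
        (bor (bnd (Nat.beq (gt Z i) a3) (bnd (Nat.beq a1 a4) (Nat.beq a2 a5)))
          (bad Z n (i - 1) (gt Z i) a1 a2 a3 a4))) := rfl
  rw [this]
  simp only [bor, bnd, brec]
  split_ifs <;> simp_all

lemma bad0_eq (S T n : ℕ) :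
    bad0 S T n = bad T n 4 (gt S 0) (gt S 1) (gt S 2) (gt S 3) (gt S 4) := rfl

lemma pat_eq (a0 a1 a2 a3 : ℕ) : pat a0 a1 a2 a3 =
    if a2 = a0 then 0 else if a3 = a0 then 1 else if a3 = a1 then 2 else 3 := by
  simp only [pat, brec, Nat.beq_eq]

lemma fo_zero (a b c S i : ℕ) : fo a b c S 0 i = 9 := rfl

lemma fo_succ (a b c S n i : ℕ) : fo a b c S (n + 1) i =
    if gt S i = a ∨ gt S i = b ∨ gt S i = c then fo a b c S n (i + 1) else i := by
  have : fo a b c S (n + 1) i = cnd (bor (Nat.beq (gt S i) a) (bor (Nat.beq (gt S i) b)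
    (Nat.beq (gt S i) c))) (fo a b c S n (i + 1)) i := rfl
  rw [this]
  simp only [cnd, bor, brec]
  split_ifs <;> simp_all

lemma cls_eq (S n : ℕ) : cls S n =
    if pat (gt S 0) (gt S 1) (gt S 2) (gt S 3) = 3 then 9 else
      3 * pat (gt S 0) (gt S 1) (gt S 2) (gt S 3) +
        (if fo (gt S 0) (gt S 1) (if pat (gt S 0) (gt S 1) (gt S 2) (gt S 3) = 0 then gt S 3
            else gt S 2) S (min n 9 - 4) 4 ≤ 5 then 1
         else if fo (gt S 0) (gt S 1) (if pat (gt S 0) (gt S 1) (gt S 2) (gt S 3) = 0 then gt S 3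
            else gt S 2) S (min n 9 - 4) 4 ≤ 8 then 2 else 0) := by
  have h1 : cls S n = cls0 S (cnd (Nat.ble n 9) n 9) := rfl
  have h2 : ∀ n, cls0 S n = cnd (Nat.beq (pat (gt S 0) (gt S 1) (gt S 2) (gt S 3)) 3) 9
      (3 * pat (gt S 0) (gt S 1) (gt S 2) (gt S 3) +
        cnd (Nat.ble (fo (gt S 0) (gt S 1) (cnd (Nat.beq (pat (gt S 0) (gt S 1) (gt S 2)
          (gt S 3)) 0) (gt S 3) (gt S 2)) S (n - 4) 4) 5) 1
        (cnd (Nat.ble (fo (gt S 0) (gt S 1) (cnd (Nat.beq (pat (gt S 0) (gt S 1) (gt S 2)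
          (gt S 3)) 0) (gt S 3) (gt S 2)) S (n - 4) 4) 8) 2 0)) := fun _ => rfl
  have h3 : cnd (Nat.ble n 9) n 9 = min n 9 := by
    simp only [cnd, brec, Nat.ble_eq]; split_ifs <;> omega
  rw [h1, h2, h3]
  simp only [cnd, brec, Nat.ble_eq, Nat.beq_eq]

lemma am_eq (mk S : ℕ) : am mk S =
    bit mk (gt S 0) + 2 * bit mk (gt S 1) + (4 * bit mk (gt S 2) + 8 * bit mk (gt S 3)) := rfl

lemma iH_eq (mk S : ℕ) : iH mk S = 16 * pat (gt S 0) (gt S 1) (gt S 2) (gt S 3) + am mk S := rfl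

lemma iW_eq (z cl T : ℕ) : iW z cl T = 5184 + 64 * (10 * z + cl) + min T 44 := by
  have : iW z cl T = 5184 + 64 * (10 * z + cl) + cnd (Nat.ble T 44) T 44 := rfl
  rw [this]; simp only [cnd, brec, Nat.ble_eq]; split_ifs <;> omega

lemma iP_eq (z cl A m : ℕ) : iP z cl A m = 64 + 256 * (10 * z + cl) + (16 * A + m) := rfl

lemma erow_eq (R : ℕ → ℕ) (mk Z p l : ℕ) : erow R mk Z p l =
    R (if 4 ≤ p - l then iW 0 (cls (win Z l) p) (p - l - 4)
      else iP 0 (cls (win Z l) p) (am mk (win Z l)) (2 ^ (4 - (p - l)))) := by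
  have : erow R mk Z p l = R (cnd (Nat.ble 4 (p - l)) (iW 0 (cls (win Z l) p) (p - l - 4))
      (iP 0 (cls (win Z l) p) (am mk (win Z l)) (Nat.shiftLeft 1 (4 - (p - l))))) := rfl
  rw [this]; simp only [cnd, brec, Nat.ble_eq, shl, one_mul]

lemma eg_eq (Z g0 p l : ℕ) : eg Z g0 p l =
    if bad0 (Z / 2 ^ 24 % 2 ^ 30) (Z / 2 ^ (6 * p - 6) % 2 ^ 30) (min (p - l - 1) 5) = true then 0
    else if g0 ≤ p - l then g0 else 9 := by
  have : eg Z g0 p l = cnd (bad0 (Nat.land (Nat.shiftRight Z 24) (2 ^ 30 - 1))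
      (Nat.land (Nat.shiftRight Z (6 * p - 6)) (2 ^ 30 - 1))
      (cnd (Nat.ble (p - l) 6) (p - l - 1) 5)) 0 (cnd (Nat.ble g0 (p - l)) g0 9) := rfl
  have h3 : cnd (Nat.ble (p - l) 6) (p - l - 1) 5 = min (p - l - 1) 5 := by
    simp only [cnd, brec, Nat.ble_eq]; split_ifs <;> omega
  rw [this, h3]; simp only [cnd, brec, Nat.ble_eq, land_mask, shr]

lemma grow_nil (R : ℕ → ℕ) (mk Z a d : ℕ) (o c : EV) : grow R mk Z a d .nil o c = .mk o c := rfl

lemma grow_cons (R : ℕ → ℕ) (mk Z a d p g0 g row : ℕ) (t o c : EV) :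
    grow R mk Z a d (.cons p g0 g row t) o c =
      if gz Z (d - p) = a then
        (if p ≤ d + 1 - p then .dead else grow R mk Z a d t
          (.cons p g0 (eg Z g0 p (d + 1 - p)) (erow R mk Z p (d + 1 - p)) o) c)
      else grow R mk Z a d t o (.cons d g0 g row c) := by
  have : grow R mk Z a d (.cons p g0 g row t) o c = cnd (Nat.beq (gz Z (d - p)) a)
      (cnd (Nat.ble p (d + 1 - p)) Evs.dead (grow R mk Z a d t
          (.cons p g0 (eg Z g0 p (d + 1 - p)) (erow R mk Z p (d + 1 - p)) o) c))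
      (grow R mk Z a d t o (.cons d g0 g row c)) := rfl
  rw [this]; simp only [cnd, brec, Nat.ble_eq, Nat.beq_eq]

lemma evsM_nil (R : ℕ → ℕ) (mk x : ℕ) :
    evsM .nil R mk x = .mk (.cons 1 9 9 0 .nil) .nil := rfl

lemma evsM_cons_dead (a d W g : ℕ) (v : QL) (R : ℕ → ℕ) (mk x : ℕ)
    (h : evsM v R mk x = .dead) : evsM (.cons a d W g v) R mk x = .dead := by
  change eCons a d W g v (fun R mk x => evsM v R mk x) R mk x = _
  unfold eCons
  beta_reduce
  rw [h]

lemma evsM_cons_mk (a d W g : ℕ) (v : QL) (R : ℕ → ℕ) (mk x : ℕ) (o c : EV)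
    (h : evsM v R mk x = .mk o c) : evsM (.cons a d W g v) R mk x =
      grow R mk (W + x * 2 ^ 24) a d o (.cons (d + 1) g (eg (W + x * 2 ^ 24) g (d + 1) 0)
        (erow R mk (W + x * 2 ^ 24) (d + 1) 0) .nil) c := by
  change eCons a d W g v (fun R mk x => evsM v R mk x) R mk x = _
  unfold eCons
  beta_reduce
  rw [h, ← shl]
  rfl

lemma chgO_nil (f sh : ℕ) : chgO .nil f sh = 0 := rfl

lemma chgO_cons (n g0 g row : ℕ) (t : EV) (f sh : ℕ) : chgO (.cons n g0 g row t) f sh =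
    (if g ≤ f then 0 else dig row sh) + chgO t f sh := by
  have : chgO (.cons n g0 g row t) f sh =
      cnd (Nat.ble g f) (chgO t f sh) (dig row sh + chgO t f sh) := rfl
  rw [this]; simp only [cnd, brec, Nat.ble_eq]; split_ifs <;> simp

lemma chgC_nil (dt f sh : ℕ) : chgC .nil dt f sh = 0 := rfl

lemma chgC_cons (n g0 g row : ℕ) (t : EV) (dt f sh : ℕ) : chgC (.cons n g0 g row t) dt f sh =
    if n ≤ dt then 0 else (if g ≤ f then 0 else dig row sh) + chgC t dt f sh := by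
  have : chgC (.cons n g0 g row t) dt f sh = cnd (Nat.ble n dt) 0
      (cnd (Nat.ble g f) (chgC t dt f sh) (dig row sh + chgC t dt f sh)) := rfl
  rw [this]; simp only [cnd, brec, Nat.ble_eq]; split_ifs <;> simp

lemma chg_eq (o c : EV) (d dt f sh : ℕ) :
    chg o c d dt f sh = if dt ≤ d then chgO o f sh + chgC c dt f sh else 0 := by
  have : chg o c d dt f sh = cnd (Nat.ble dt d) (chgO o f sh + chgC c dt f sh) 0 := rfl
  rw [this]; simp only [cnd, brec, Nat.ble_eq]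

lemma val_eq (w : PL) (x : ℕ) (t : Tr) (o c : EV) (d cap bl f sh mk : ℕ) :
    val w x t o c d cap bl f sh mk =
      min cap ((posM w mk x t).h - (bl + chg o c d (posM w mk x t).d f sh)) := by
  have : val w x t o c d cap bl f sh mk = Pos.rec (motive := fun _ => ℕ)
      (fun h dt _ => cap - (cap - (h - (bl + chg o c d dt f sh)))) (posM w mk x t) := rfl
  rw [this]
  cases posM w mk x t with
  | mk h dt kid => simp only [Pos.h, Pos.d]; omega

lemma val5_eq (w : PL) (x : ℕ) (t : Tr) (o c : EV) (d cap bl f sh mk : ℕ) :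
    val5 w x t o c d cap bl f sh mk =
      if 5 ≤ (posM w mk x t).d then val w x t o c d cap bl f sh mk else 0 := by
  have : val5 w x t o c d cap bl f sh mk = Pos.rec (motive := fun _ => ℕ)
      (fun _ dt _ => cnd (Nat.ble 5 dt) (val w x t o c d cap bl f sh mk) 0) (posM w mk x t) := rfl
  rw [this]
  cases posM w mk x t with
  | mk h dt kid => simp only [Pos.d, cnd, brec, Nat.ble_eq]; rfl

/-- The value the checker gives to the letter `x`. -/
noncomputable def lval (R : ℕ → ℕ) (mk : ℕ) (w : PL) (v : QL) (W d x : ℕ) (tr : Tr)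
    (f sh T m : ℕ) : ℕ :=
  match evsM v R mk x with
  | .dead => 0
  | .mk o c =>
    (if x = gt (win (W + x * 2 ^ 24) 0) 3 ∧
        gt (win (W + x * 2 ^ 24) 0) 1 = gt (win (W + x * 2 ^ 24) 0) 4 then val5 else val)
      w x tr o c d (dig (R (iH mk (win (W + x * 2 ^ 24) 0 % 2 ^ 24))) sh)
      (dig (R (5824 + 64 * cls (win (W + x * 2 ^ 24) 0) (d + 1) + T)) sh) f sh m

lemma letter_eq (R : ℕ → ℕ) (mk : ℕ) (w : PL) (v : QL) (W d x : ℕ)
    (K : (Tr → ℕ → ℕ → ℕ → ((ℕ → ℕ) → Bool) → Bool) → Bool) :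
    letter R mk w v W d x K = K fun tr f sh T k => k (lval R mk w v W d x tr f sh T) := by
  have : letter R mk w v W d x K = Evs.rec (motive := fun _ => Bool)
      (K fun _ _ _ _ k => k fun _ => 0)
      (fun o c => (fun B : (PL → ℕ → Tr → EV → EV → ℕ → ℕ → ℕ → ℕ → ℕ → ℕ → ℕ) → Bool =>
          cnd (bnd (Nat.beq x (gt (win (W + Nat.shiftLeft x 24) 0) 3))
            (Nat.beq (gt (win (W + Nat.shiftLeft x 24) 0) 1)
              (gt (win (W + Nat.shiftLeft x 24) 0) 4))) (B val5) (B val))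
        fun V => K fun tr f sh T k => k (V w x tr o c d
          (dig (R (iH mk (Nat.land (win (W + Nat.shiftLeft x 24) 0) (2 ^ 24 - 1)))) sh)
          (dig (R (5824 + 64 * cls (win (W + Nat.shiftLeft x 24) 0) (d + 1) + T)) sh) f sh))
      (evsM v R mk x) := rfl
  rw [this]
  unfold lval
  cases evsM v R mk x with
  | dead => rfl
  | mk o c =>
    simp only [cnd, bnd, brec, Nat.beq_eq, shl, land_mask]
    generalize win (W + x * 2 ^ 24) 0 = Z
    by_cases h1 : x = gt Z 3 <;> by_cases h2 : gt Z 1 = gt Z 4 <;>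
      simp only [h1, h2, if_true, if_false, and_self, and_true, and_false, Nat.beq_eq,
        Bool.false_eq_true]

lemma born_nil (f : ℕ → Bool) (k acc : ℕ) : born f [] k acc = f acc := rfl

lemma born_zero (f : ℕ → Bool) (l : List ℕ) (acc : ℕ) : born f l 0 acc = f acc := by
  cases l <;> rfl

lemma born_succ (f : ℕ → Bool) (a : ℕ) (l : List ℕ) (k acc : ℕ) :
    born f (a :: l) (k + 1) acc = (born f l (k + 1) acc && born f l k (acc ||| up a)) := by
  have : born f (a :: l) (k + 1) acc = bnd (born f l (k + 1) acc) (born f l k (acc ||| up a)) := rfl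
  rw [this]; cases born f l (k + 1) acc <;> rfl

lemma keep_nil_zero (f : ℕ → Bool) (acc : ℕ) : keep f [] 0 acc = f acc := rfl

lemma keep_zero (f : ℕ → Bool) (a : ℕ) (l : List ℕ) (acc : ℕ) :
    keep f (a :: l) 0 acc = keep f l 0 (acc ||| up a) := by
  have : keep f (a :: l) 0 acc = bnd (keep f l 0 (acc ||| up a)) true := rfl
  rw [this]; cases keep f l 0 (acc ||| up a) <;> rfl

lemma keep_succ (f : ℕ → Bool) (a : ℕ) (l : List ℕ) (k acc : ℕ) :
    keep f (a :: l) (k + 1) acc = (keep f l (k + 1) (acc ||| up a) && keep f l k acc) := by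
  have : keep f (a :: l) (k + 1) acc = bnd (keep f l (k + 1) (acc ||| up a)) (keep f l k acc) := rfl
  rw [this]; cases keep f l (k + 1) (acc ||| up a) <;> rfl

lemma allL_iff (f : ℕ → Bool) (l : List ℕ) : allL f l = true ↔ ∀ a ∈ l, f a = true := by
  induction l with
  | nil => simp [allL]
  | cons a l ih =>
    have : allL f (a :: l) = bnd (f a) (allL f l) := rfl
    rw [this, List.forall_mem_cons, ← ih]
    cases f a <;> simp [bnd]

lemma allN_iff (f : ℕ → Bool) (n : ℕ) : allN f n = true ↔ ∀ a < n, f a = true := by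
  induction n with
  | zero => simp [allN]
  | succ n ih =>
    have : allN f (n + 1) = bnd (f n) (allN f n) := rfl
    rw [this, Nat.forall_lt_succ_right, ← ih]
    cases f n <;> simp [bnd]

lemma cf_eq (c : ℕ) : cf c = if c % 10 ≤ 2 then 1 else c % 10 - 1 := by
  have : cf c = cnd (Nat.ble (c % 10) 2) 1 (c % 10 - 1) := rfl
  rw [this]; simp only [cnd, brec, Nat.ble_eq]

lemma ck_eq (c : ℕ) : ck c = if c % 10 ≤ 2 then c % 10 + 1 else 0 := by
  have : ck c = cnd (Nat.ble (c % 10) 2) (c % 10 + 1) 0 := rfl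
  rw [this]; simp only [cnd, brec, Nat.ble_eq]

lemma nxt_eq (c : ℕ) : nxt c = if c % 10 ≤ 2 then [0, 1, 2, 3, 4, 5, 6, 7, 8, 9] else
    (fun b => if c % 10 = 3 then [b, b + 1, b + 2] else
      if c % 10 = 9 then [b + (c % 10 - 1), b + 9] else [b + (c % 10 - 1)])
    (if 80 ≤ c then 80 else c - c % 10 + 10) := by
  have : nxt c = cnd (Nat.ble (c % 10) 2) [0, 1, 2, 3, 4, 5, 6, 7, 8, 9]
      ((fun b => cnd (Nat.beq (c % 10) 3) [b, b + 1, b + 2]
        (cnd (Nat.beq (c % 10) 9) [b + (c % 10 - 1), b + 9] [b + (c % 10 - 1)]))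
      (cnd (Nat.ble 80 c) 80 (c - c % 10 + 10))) := rfl
  rw [this]; simp only [cnd, brec, Nat.ble_eq, Nat.beq_eq]

lemma state_iff (R : ℕ → ℕ) (TR : ℕ → Tr) (br mk : ℕ) (M N : List ℕ) (d h : ℕ) (w : PL) (v : QL)
    (W g : ℕ) (C : List ℕ) :
    state R mk M (edges TR br N) d h w v W g C = true ↔ ∀ c ∈ N,
      keep (fun m1 => born (fun m => decide (dig br (24 * c) * h ≤ 65536 *
        (lval R mk w v W d 0 (TR c) (cf c) (24 * c) (min (d - 2 + (cf c - g)) 44) m +
          lval R mk w v W d 1 (TR c) (cf c) (24 * c) (min (d - 2 + (cf c - g)) 44) m +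
          lval R mk w v W d 2 (TR c) (cf c) (24 * c) (min (d - 2 + (cf c - g)) 44) m)))
        C (ck c) m1) M (ck c) mk = true := by
  unfold state
  simp only [letter_eq]
  induction N with
  | nil => simp [edges]
  | cons c N ih =>
    rw [List.forall_mem_cons, ← ih]
    have h3 : ∀ T, min T 44 = cnd (Nat.ble T 44) T 44 := by
      intro T; simp only [cnd, brec, Nat.ble_eq]; split_ifs <;> omega
    have h4 : ∀ a b : ℕ, decide (a ≤ b) = Nat.ble a b := by
      intro a b; rw [Bool.eq_iff_iff]; simp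
    simp only [h3, h4]
    have h5 : ∀ a b : Bool, @Bool.rec (fun _ => Bool) false b a = true ↔ a = true ∧ b = true := by
      intro a b; cases a <;> simp
    exact h5 _ _

lemma cnt_eq (p A : ℕ) : cnt p A =
    bt A 0 + bt A 1 + if p = 0 then bt A 3 else bt A 2 + if p = 3 then bt A 3 else 0 := by
  have : cnt p A = bt A 0 + bt A 1 +
    cnd (Nat.beq p 0) (bt A 3) (bt A 2 + cnd (Nat.beq p 3) (bt A 3) 0) := rfl
  rw [this]; simp only [cnd, brec, Nat.beq_eq]

lemma feas_iff (p A : ℕ) : feas p A = true ↔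
    if p = 0 then bt A 0 = bt A 2 else if p = 1 then bt A 0 = bt A 3 else
      if p = 2 then bt A 1 = bt A 3 else cnt p A ≤ 3 := by
  have : feas p A = cnd (Nat.beq p 0) (Nat.beq (bt A 0) (bt A 2)) (cnd (Nat.beq p 1)
    (Nat.beq (bt A 0) (bt A 3)) (cnd (Nat.beq p 2) (Nat.beq (bt A 1) (bt A 3))
      (Nat.ble (cnt p A) 3))) := rfl
  rw [this]; simp only [cnd, brec, Nat.beq_eq]; split_ifs <;> simp

lemma compat_iff (p k A B : ℕ) : compat p k A B = true ↔ feas p B = true ∧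
    cnt p (A &&& B) + k ≤ 3 ∧ cnt p A ≤ cnt p (A &&& B) + k ∧ cnt p B ≤ cnt p (A &&& B) + k := by
  have : compat p k A B = bnd (feas p B) (bnd (Nat.ble (cnt p (A &&& B) + k) 3)
    (bnd (Nat.ble (cnt p A) (cnt p (A &&& B) + k)) (Nat.ble (cnt p B) (cnt p (A &&& B) + k)))) :=
    rfl
  rw [this]; simp only [bnd, brec, Nat.ble_eq]; split_ifs <;> simp_all

lemma rv4_eq (A : ℕ) : rv4 A = 8 * bt A 0 + 4 * bt A 1 + (2 * bt A 2 + bt A 3) := rfl

lemma step_iff (R : ℕ → ℕ) (x : ℕ → ℕ) (y c : ℕ) : step R x y c = true ↔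
    ∀ c' ∈ nxt c, 65536 * x (24 * c') ≤ dig (R (6464 + c)) (24 * c') * y := by
  have : step R x y c = allL (fun c' => Nat.ble (65536 * x (24 * c'))
    (dig (R (6464 + c)) (24 * c') * y)) (nxt c) := rfl
  rw [this, allL_iff]; simp only [Nat.ble_eq]

lemma chkP_spec {R : ℕ → ℕ} {z cl A m : ℕ} (h : chkP R z cl A m = true) {c B c' : ℕ} (hc : c < 90)
    (hB : B < 16) (hk : compat (cl / 3) (ck c) A B = true) (hc' : c' ∈ nxt c) :
    65536 * (dig (R (iP z cl B (2 * ((m &&& rv4 A) % 8) + z))) (24 * c') +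
      if 8 ≤ m &&& rv4 A ∧ (cl % 3 = 0 ∨ c / 10 + 2 ≤ 3 * (cl % 3) + 3)
        then dig (R (16 * (cl / 3) + B)) (24 * c') else 0) ≤
      dig (R (6464 + c)) (24 * c') * dig (R (iP z cl A m)) (24 * c) := by
  have e : chkP R z cl A m = allN (fun c => allN (fun B => cnd (compat (cl / 3) (ck c) A B)
      (cnd (bnd (Nat.ble 8 (m &&& rv4 A)) (bor (Nat.beq (cl % 3) 0)
          (Nat.ble (c / 10 + 2) (3 * (cl % 3) + 3))))
        (step R (fun sh => dig (R (iP z cl B (2 * ((m &&& rv4 A) % 8) + z))) sh +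
          dig (R (16 * (cl / 3) + B)) sh) (dig (R (iP z cl A m)) (24 * c)) c)
        (step R (dig (R (iP z cl B (2 * ((m &&& rv4 A) % 8) + z))))
          (dig (R (iP z cl A m)) (24 * c)) c)) true) 16) 90 := rfl
  rw [e, allN_iff] at h
  have h1 := (allN_iff _ _).1 (h c hc) B hB
  simp only [cnd, bnd, bor, brec, hk, Nat.ble_eq, Nat.beq_eq] at h1
  split_ifs at h1 ⊢ <;> simp_all [step_iff]
  omega

lemma chkPs_spec {R : ℕ → ℕ} {z cl : ℕ} (h : chkPs R z cl = true) {A m : ℕ} (hA : A < 16)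
    (hf : feas (cl / 3) A = true)
    (hm : m ∈ if z = 0 then [0, 1, 2, 4, 8] else [1, 3, 5, 7, 9, 11, 13, 15]) :
    chkP R z cl A m = true := by
  have e : chkPs R z cl = allN (fun A => cnd (feas (cl / 3) A) (allL (chkP R z cl A)
    (cnd (Nat.beq z 0) [0, 1, 2, 4, 8] [1, 3, 5, 7, 9, 11, 13, 15])) true) 16 := rfl
  rw [e, allN_iff] at h
  have h1 := h A hA
  simp only [cnd, brec, hf, Nat.beq_eq, allL_iff] at h1
  exact h1 m hm

lemma chkW_spec {R : ℕ → ℕ} {z cl : ℕ} (h : chkW R z cl = true) :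
    (∀ A < 16, feas (cl / 3) A = true → ∀ c < 90,
      dig (R (iP z cl A 1)) (24 * c) ≤ dig (R (iW z cl 0)) (24 * c)) ∧
    ∀ T < 45, ∀ c < 90, ∀ c' ∈ nxt c, 65536 * dig (R (iW z cl T)) (24 * c') ≤
      dig (R (6464 + c)) (24 * c') * dig (R (iW z cl (T + 1))) (24 * c) := by
  have e : chkW R z cl = bnd (allN (fun A => cnd (feas (cl / 3) A)
      (allN (fun c => Nat.ble (dig (R (iP z cl A 1)) (24 * c)) (dig (R (iW z cl 0)) (24 * c))) 90)
        true) 16)
      (allN (fun T => allN (fun c => step R (dig (R (iW z cl T)))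
        (dig (R (iW z cl (T + 1))) (24 * c)) c) 90) 45) := rfl
  rw [e] at h
  simp only [bnd, brec] at h
  split_ifs at h with h1
  simp only [allN_iff, step_iff] at h h1
  refine ⟨fun A hA hf c hc => ?_, h⟩
  have := h1 A hA
  simp only [cnd, hf, allN_iff, Nat.ble_eq] at this
  exact this c hc

lemma chk0_spec {R : ℕ → ℕ} {TR : ℕ → Tr} (h : chk0 R TR = true) :
    (∀ c < 90, ∀ c' ∈ nxt c, 1 ≤ dig (R (6464 + c)) (24 * c')) ∧
    ∀ c < 10, 1 ≤ (((((Pos.mk 0 0 (TR c)).step 0).step 0).step 0).step 0).h := by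
  have e : chk0 R TR = bnd (allN (fun c => allL (fun c' => Nat.ble 1
      (dig (R (6464 + c)) (24 * c'))) (nxt c)) 90)
      (allN (fun c => Pos.rec (motive := fun _ => Bool) (fun h _ _ => Nat.ble 1 h)
        (posM (.new 2 4 (.new 1 2 (.new 0 0 .nil))) 0 3 (TR c))) 10) := rfl
  rw [e] at h
  simp only [bnd, brec] at h
  split_ifs at h with h1
  simp only [allN_iff, allL_iff, Nat.ble_eq] at h h1
  refine ⟨h1, fun c hc => ?_⟩
  have := h c hc
  simp only [posM_new, posM_nil, mark2] at this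
  norm_num at this
  generalize ((((Pos.mk 0 0 (TR c)).step 0).step 0).step 0).step 0 = p at this ⊢
  cases p
  simpa [Pos.h] using this

/-- The data that the check of a trie carries along a path. -/
structure Acc where
  /-- length -/
  d : ℕ
  /-- key -/
  q : ℕ
  /-- the word for the descent -/
  w : PL
  /-- the word for the events -/
  v : QL
  /-- the packed word -/
  W : ℕ
  /-- place of the first unmarked letter -/
  g : ℕ
  /-- letters outside the next list -/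
  C : List ℕ
  /-- next name for a letter that leaves -/
  i1 : ℕ
  /-- next name for a letter that arrives -/
  i2 : ℕ
  /-- next name for a letter that stays -/
  i3 : ℕ

/-- The name of the next letter. -/
def Acc.a (A : Acc) (s : ℕ) : ℕ :=
  if 4 ≤ s then gz A.W (s - 3) else if s = 0 then A.d + 6 else if s = 1 then A.i1 else
    if s = 2 then A.i2 else A.i3

lemma salt_lt (s d : ℕ) : salt s d < 2 ^ 18 := Nat.mod_lt _ (by norm_num)

/-- The next packed word. -/
def Acc.W' (A : Acc) (sl : ℕ → ℕ → ℕ) (s : ℕ) : ℕ :=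
  A.W + A.a s * 2 ^ (6 * (A.d + 1) + 24) + sl s A.d

/-- The next place of the first unmarked letter. -/
def Acc.g' (A : Acc) (mk s : ℕ) : ℕ := if bit mk (A.a s) = 1 then A.g + 1 else 1

/-- The data after one more symbol. -/
def Acc.next (A : Acc) (sl : ℕ → ℕ → ℕ) (mk s : ℕ) : Acc where
  d := A.d + 1
  q := if A.d ≤ 6 then (A.q * 37 + s) % 4099 else A.q
  w := if 4 ≤ s then .old (A.a s) (s + 1) A.w else .new (A.a s) (A.a s + A.a s) A.w
  v := .cons (A.a s) (A.d + 1) (A.W' sl s) (A.g' mk s) A.v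
  W := A.W' sl s
  g := A.g' mk s
  C := if s = 0 then A.a s :: A.C else A.C
  i1 := if s = 1 then A.i1 + 1 else A.i1
  i2 := if s = 2 then A.i2 + 1 else A.i2
  i3 := if s = 3 then A.i3 + 1 else A.i3

lemma gz_fold (Z i : ℕ) : Nat.land (Nat.shiftRight Z (Nat.add (Nat.mul (nat_lit 6) i) (nat_lit 24)))
  (nat_lit 63) = gz Z i := (rfl)

lemma bit_fold (mk a : ℕ) : Nat.land (Nat.shiftRight mk (Nat.add a a)) (nat_lit 1) = bit mk a :=
  (rfl)

lemma bnd_eq (a b : Bool) : bnd a b = if a = true then b else false := by cases a <;> rfl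

lemma bor_eq (a b : Bool) : bor a b = if a = true then true else b := by cases a <;> rfl

lemma cnd_eq {α : Type} (b : Bool) (x y : α) : cnd b x y = if b = true then x else y := by
  cases b <;> rfl

/-- The check of a trie, with the data in a structure. -/
noncomputable def chkA (sl : ℕ → ℕ → ℕ) (S : ℕ → ℕ → PL → QL → ℕ → ℕ → List ℕ → Bool)
    (mk lo hi : ℕ) (t : Tr) (A : Acc) : Bool :=
  chkT sl S mk lo hi t A.d A.q A.w A.v A.W A.g A.C A.i1 A.i2 A.i3

/-- The check at a node. -/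
noncomputable def chkN (sl : ℕ → ℕ → ℕ) (S : ℕ → ℕ → PL → QL → ℕ → ℕ → List ℕ → Bool)
    (mk lo hi h d' : ℕ) (kid : Tr) (B : Acc) : Bool :=
  cnd (bnd (Nat.ble lo B.q) (Nat.ble B.q hi))
    (bnd (bor (Nat.beq h 0) (bnd (bnd (Nat.beq d' B.d) (bnd (Nat.ble 4 B.d) (Nat.ble B.d 55)))
      (S B.d h B.w B.v B.W B.g B.C))) (chkA sl S mk lo hi kid B))
    (bor (Nat.ble 7 B.d) (chkA sl S mk lo hi kid B))

lemma chkA_node (sl : ℕ → ℕ → ℕ) (S : ℕ → ℕ → PL → QL → ℕ → ℕ → List ℕ → Bool)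
    (mk lo hi s h d' : ℕ) (kid sib : Tr) (A : Acc) : chkA sl S mk lo hi (.node s h d' kid sib) A =
      bnd (chkN sl S mk lo hi h d' kid (A.next sl mk s)) (chkA sl S mk lo hi sib A) := by
  obtain ⟨d, q, w, v, W, g, C, i1, i2, i3⟩ := A
  unfold chkN chkA chkT
  simp only
  generalize Tr.rec (motive := fun _ => ℕ → ℕ → PL → QL → ℕ → ℕ → List ℕ → ℕ → ℕ → ℕ → Bool)
    _ _ kid = ihk
  generalize Tr.rec (motive := fun _ => ℕ → ℕ → PL → QL → ℕ → ℕ → List ℕ → ℕ → ℕ → ℕ → Bool)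
    _ _ sib = ihs
  simp only [gz_fold, bit_fold]
  simp only [brec, cnd_eq, bnd_eq, bor_eq, Nat.ble_eq, Nat.beq_eq, Acc.next, Acc.a, Acc.W',
    Acc.g', shl, mod_eq, add_eq, mul_eq, sub_eq]
  by_cases h4 : 4 ≤ s
  · have h0 : s ≠ 0 := by omega
    have h1 : s ≠ 1 := by omega
    have h2 : s ≠ 2 := by omega
    have h3 : s ≠ 3 := by omega
    simp only [h4, h0, h1, h2, h3, if_true, if_false]
  · have : s = 0 ∨ s = 1 ∨ s = 2 ∨ s = 3 := by omega
    rcases this with rfl | rfl | rfl | rfl <;> simp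

lemma chkN_spec {sl : ℕ → ℕ → ℕ} {S : ℕ → ℕ → PL → QL → ℕ → ℕ → List ℕ → Bool}
    {mk lo hi h d' : ℕ} {kid : Tr} {B : Acc} (H : chkN sl S mk lo hi h d' kid B = true) :
    ((lo ≤ B.q ∧ B.q ≤ hi) ∨ B.d < 7 → chkA sl S mk lo hi kid B = true) ∧
    (lo ≤ B.q ∧ B.q ≤ hi → h = 0 ∨
      (d' = B.d ∧ 4 ≤ B.d ∧ B.d ≤ 55 ∧ S B.d h B.w B.v B.W B.g B.C = true)) := by
  simp only [chkN, cnd, bnd, bor, brec, Nat.ble_eq, Nat.beq_eq] at H
  split_ifs at H <;> simp_all

lemma chkC_eq (R : ℕ → ℕ) (TR : ℕ → Tr) (c lo hi : ℕ) : chkC R TR c lo hi =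
    chkA salt (state R (mM (ck c)) (lM (ck c)) (edges TR (R (6464 + c)) (nxt c))) (mM (ck c)) lo hi
      (TR c) ⟨0, 0, .nil, .nil, 0, 9, lC (ck c), 3 - ck c, 3, 0⟩ := rfl

end Pool.Agent.Work.MP_7cb3ca_co.P3
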