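import Mathlib.Tactic
import Mathlib.Data.Real.Basic
import Mathlib.Algebra.Order.BigOperators.Group.Finset

/-! Words, newest letter first; squares; the local potential. -/

namespace Pool.Agent.Work.MP_7cb3ca_co.P3

open Finset

/-- Letter `i` of a word. -/
def gd (w : List ℕ) (i : ℕ) : ℕ := w.getD i 0

@[simp] lemma gd_zero (x : ℕ) (w : List ℕ) : gd (x :: w) 0 = x := rfl

@[simp] lemma gd_succ (x : ℕ) (w : List ℕ) (i : ℕ) : gd (x :: w) (i + 1) = gd w i := rfl

lemma gd_cons {i : ℕ} (hi : 1 ≤ i) (x : ℕ) (w : List ℕ) : gd (x :: w) i = gd w (i - 1) := by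
  obtain ⟨j, rfl⟩ : ∃ j, i = j + 1 := ⟨i - 1, by omega⟩
  rfl

/-- The word starts with a square of period `p`. -/
def Sq (w : List ℕ) (p : ℕ) : Prop := 1 ≤ p ∧ 2 * p ≤ w.length ∧ ∀ i < p, gd w i = gd w (p + i)

/-- The word has no square. -/
def Free (w : List ℕ) : Prop :=
  ∀ s p, 1 ≤ p → s + 2 * p ≤ w.length → ¬ ∀ i < p, gd w (s + i) = gd w (s + p + i)

lemma Free.tail {x : ℕ} {w : List ℕ} (h : Free (x :: w)) : Free w := by
  intro s p hp hl hm
  refine h (s + 1) p hp (by simp; omega) fun i hi => ?_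
  rw [show s + 1 + i = s + i + 1 by omega, show s + 1 + p + i = s + p + i + 1 by omega]
  exact hm i hi

lemma Free.not_sq {w : List ℕ} (h : Free w) (p : ℕ) : ¬ Sq w p := by
  rintro ⟨h1, h2, h3⟩
  exact h 0 p h1 (by omega) (by simpa using h3)

lemma free_cons {x : ℕ} {w : List ℕ} (h : Free w) (hs : ∀ p, ¬ Sq (x :: w) p) : Free (x :: w) := by
  intro s p hp hl hm
  cases s with
  | zero => exact hs p ⟨hp, by omega, by simpa using hm⟩
  | succ s =>
    refine h s p hp (by simp at hl; omega) fun i hi => ?_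
    have := hm i hi
    rwa [show s + 1 + i = s + i + 1 by omega, show s + 1 + p + i = s + p + i + 1 by omega] at this

/-- The length of the match of a word with its shift by `p`. -/
def lm : List ℕ → ℕ → ℕ
  | [], _ => 0
  | x :: w, p => if 1 ≤ p ∧ p ≤ w.length ∧ gd w (p - 1) = x then lm w p + 1 else 0

lemma lm_le (w : List ℕ) {p : ℕ} (hp : p ≤ w.length) : p + lm w p ≤ w.length := by
  induction w with
  | nil => simpa [lm] using hp
  | cons x w ih =>
    simp only [lm, List.length_cons] at hp ⊢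
    split_ifs with h
    · have := ih h.2.1; omega
    · omega

lemma lm_match (w : List ℕ) (p : ℕ) : ∀ i < lm w p, gd w i = gd w (p + i) := by
  induction w with
  | nil => simp [lm]
  | cons x w ih =>
    simp only [lm]
    split_ifs with h
    · intro i hi
      cases i with
      | zero => rw [gd_zero, add_zero, gd_cons h.1, h.2.2]
      | succ i => exact ih i (by omega)
    · simp

lemma lm_stop (w : List ℕ) {p : ℕ} (hp : 1 ≤ p) (hl : p + lm w p < w.length) :
    gd w (lm w p) ≠ gd w (p + lm w p) := by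
  induction w with
  | nil => simp at hl
  | cons x w ih =>
    simp only [lm, List.length_cons] at hl ⊢
    split_ifs at hl ⊢ with h
    · exact ih (by omega)
    · rw [gd_zero, add_zero, gd_cons hp]
      intro e
      exact h ⟨hp, by omega, e.symm⟩

lemma le_lm {w : List ℕ} {p l : ℕ} (hp : 1 ≤ p) (hl : p + l ≤ w.length)
    (h : ∀ i < l, gd w i = gd w (p + i)) : l ≤ lm w p := by
  by_contra hc
  exact lm_stop w hp (by omega) (h _ (by omega))

lemma Free.lm_lt {w : List ℕ} (h : Free w) {p : ℕ} (hp : 1 ≤ p) (hl : p ≤ w.length) :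
    lm w p < p := by
  by_contra hc
  have := lm_le w hl
  exact h.not_sq p ⟨hp, by omega, fun i hi => lm_match w p i (by omega)⟩

/-- The time of a word: the number of letters after the four starting letters. -/
def tm (w : List ℕ) : ℕ := w.length - 4

open Classical in
/-- The cost of the event that the word goes on with period `p` for `j` more steps. -/
noncomputable def pc (L : ℕ → Finset ℕ) (β : ℕ → ℝ) (cap : List ℕ → ℝ) : ℕ → List ℕ → ℕ → ℝ
  | 0, w, _ => cap w
  | j + 1, w, p => if gd w (p - 1) ∈ L (tm w) ∧ Free w then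
      pc L β cap j (gd w (p - 1) :: w) p / β (tm w) else 0

/-- The cost of the completion of a square of period `p`. -/
noncomputable def cost (L : ℕ → Finset ℕ) (β : ℕ → ℝ) (cap : List ℕ → ℝ) (w : List ℕ) (p : ℕ) : ℝ :=
  pc L β cap (p - lm w p) w p

/-- The periods whose match is not inside the first `d` letters. -/
def pend (w : List ℕ) (d : ℕ) : Finset ℕ := (Icc 1 w.length).filter fun p => d < p + lm w p

/-- The periods that become pending when the depth goes from `d` to `d'`. -/
def fresh (u : List ℕ) (d d' : ℕ) : Finset ℕ :=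
  (Icc 1 u.length).filter fun p => d' < p + lm u p ∧ (p + lm u p ≤ d + 1 ∨ lm u p = 0)

/-- The potential of a word with depth `d` and weight `h`. -/
noncomputable def pot (L : ℕ → Finset ℕ) (β : ℕ → ℝ) (cap : List ℕ → ℝ) (w : List ℕ) (d : ℕ)
    (h : ℝ) : ℝ := h - ∑ p ∈ pend w d, cost L β cap w p

section

variable {L : ℕ → Finset ℕ} {β : ℕ → ℝ} {cap : List ℕ → ℝ}

lemma pc_nonneg (hβ : ∀ t, 0 < β t) (hcap : ∀ w, 0 ≤ cap w) (j : ℕ) (w : List ℕ) (p : ℕ) :
    0 ≤ pc L β cap j w p := by
  induction j generalizing w with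
  | zero => exact hcap w
  | succ j ih =>
    simp only [pc]
    split_ifs
    · exact div_nonneg (ih _) (hβ _).le
    · exact le_rfl

lemma cost_nonneg (hβ : ∀ t, 0 < β t) (hcap : ∀ w, 0 ≤ cap w) (w : List ℕ) (p : ℕ) :
    0 ≤ cost L β cap w p := pc_nonneg hβ hcap _ _ _

lemma cost_step (hβ : ∀ t, 0 < β t) {w : List ℕ} (hw : Free w) {p : ℕ} (hp : 1 ≤ p)
    (hl : p ≤ w.length) : β (tm w) * cost L β cap w p =
      if gd w (p - 1) ∈ L (tm w) then cost L β cap (gd w (p - 1) :: w) p else 0 := by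
  have h1 := hw.lm_lt hp hl
  have h2 : lm (gd w (p - 1) :: w) p = lm w p + 1 := by simp [lm, hp, hl]
  unfold cost
  rw [h2, show p - lm w p = p - (lm w p + 1) + 1 by omega]
  simp only [pc, hw, and_true]
  split_ifs
  · exact mul_div_cancel₀ _ (hβ _).ne'
  · simp

theorem pot_step (hβ : ∀ t, 0 < β t) (hcap : ∀ w, 0 ≤ cap w) {w : List ℕ} {d : ℕ} {h : ℝ}
    (hw : Free w) (hΦ : 0 < pot L β cap w d h) (V : ℕ → ℝ) (d' : ℕ → ℕ) (h' : ℕ → ℝ)
    (hV1 : ∀ x ∈ L (tm w), V x ≤ cap (x :: w))
    (hV2 : ∀ x ∈ L (tm w), 0 < V x → (∀ p, Sq (x :: w) p → d + 1 < 2 * p) ∧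
      V x ≤ h' x - ∑ p ∈ fresh (x :: w) d (d' x), cost L β cap (x :: w) p)
    (H : β (tm w) * h ≤ ∑ x ∈ L (tm w), V x) :
    ∃ x ∈ L (tm w), 0 < V x ∧ Free (x :: w) ∧ 0 < pot L β cap (x :: w) (d' x) (h' x) := by
  classical
  have hD := cost_nonneg (L := L) hβ hcap
  set old : ℕ → ℝ := fun x =>
    ∑ p ∈ (pend w d).filter (fun p => gd w (p - 1) = x), cost L β cap (x :: w) p with hold
  have h1 : ∑ x ∈ L (tm w), old x = β (tm w) * ∑ p ∈ pend w d, cost L β cap w p := by
    rw [mul_sum]
    simp only [hold, sum_filter]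
    rw [sum_comm]
    refine sum_congr rfl fun p hp => ?_
    simp only [pend, mem_filter, mem_Icc] at hp
    rw [cost_step hβ hw hp.1.1 hp.1.2, sum_ite_eq]
  have h2 : ∑ x ∈ L (tm w), old x < ∑ x ∈ L (tm w), V x := by
    rw [h1]
    refine lt_of_lt_of_le ?_ H
    exact mul_lt_mul_of_pos_left (by unfold pot at hΦ; linarith) (hβ _)
  obtain ⟨x, hx, hlt⟩ := exists_lt_of_sum_lt h2
  have h0 : 0 ≤ old x := sum_nonneg fun p _ => hD _ _
  have hV : 0 < V x := by linarith
  obtain ⟨h3, h4⟩ := hV2 x hx hV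
  have key : ∀ p, 1 ≤ p → d + 1 < p + lm (x :: w) p → lm (x :: w) p ≠ 0 →
      p ∈ (pend w d).filter (fun p => gd w (p - 1) = x) := by
    intro p hp h5 h6
    simp only [lm] at h5 h6
    split_ifs at h5 h6 with h7
    · simp only [pend, mem_filter, mem_Icc]
      exact ⟨⟨⟨hp, h7.2.1⟩, by omega⟩, h7.2.2⟩
    · exact absurd rfl h6
  refine ⟨x, hx, hV, free_cons hw fun p hp => ?_, ?_⟩
  · have h5 := h3 p hp
    have h6 : p ≤ lm (x :: w) p := le_lm hp.1 (by have := hp.2.1; omega) hp.2.2
    have h7 := key p hp.1 (by omega) (by have := hp.1; omega)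
    have h8 : cost L β cap (x :: w) p ≤ old x :=
      single_le_sum (f := fun p => cost L β cap (x :: w) p) (fun p _ => hD _ _) h7
    have h9 : cost L β cap (x :: w) p = cap (x :: w) := by
      unfold cost; rw [show p - lm (x :: w) p = 0 by omega]; rfl
    have := hV1 x hx
    linarith
  · have h5 : pend (x :: w) (d' x) ⊆ fresh (x :: w) d (d' x) ∪
        (pend w d).filter (fun p => gd w (p - 1) = x) := by
      intro p hp
      rw [mem_union]
      by_cases h6 : p + lm (x :: w) p ≤ d + 1 ∨ lm (x :: w) p = 0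
      · left
        simp only [pend, fresh, mem_filter] at hp ⊢
        exact ⟨hp.1, hp.2, h6⟩
      · right
        simp only [pend, mem_filter, mem_Icc] at hp
        exact key p hp.1.1 (by omega) (by omega)
    have h6 := sum_le_sum_of_subset_of_nonneg (f := fun p => cost L β cap (x :: w) p) h5
      fun p _ _ => hD _ _
    have h7 := sum_union_inter (f := fun p => cost L β cap (x :: w) p)
      (s₁ := fresh (x :: w) d (d' x)) (s₂ := (pend w d).filter (fun p => gd w (p - 1) = x))
    have h8 : 0 ≤ ∑ p ∈ fresh (x :: w) d (d' x) ∩ (pend w d).filter (fun p => gd w (p - 1) = x),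
      cost L β cap (x :: w) p := sum_nonneg fun p _ => hD _ _
    unfold pot
    simp only [hold] at hlt
    linarith

end

end Pool.Agent.Work.MP_7cb3ca_co.P3
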