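import Pool.Agent.Work.MP_7cb3ca_co.P3.Eqs
import Pool.Agent.Work.MP_7cb3ca_co.P3.Word

/-! The lists of visible events that the checker builds cover all visible events. -/

namespace Pool.Agent.Work.MP_7cb3ca_co.P3

open Finset

/-- All entries of a list of events have a property. -/
def EV.All (P : ℕ → ℕ → ℕ → ℕ → Prop) : EV → Prop
  | .nil => True
  | .cons n g0 g row t => P n g0 g row ∧ t.All P

/-- A period occurs in a list of events. -/
def EV.mem (p : ℕ) : EV → Prop
  | .nil => False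
  | .cons n _ _ _ t => p = n ∨ t.mem p

/-- The word of the checker for the events names the letters `1, ..., e` of `u`. -/
inductive RepQ (ψ : ℕ → ℕ) (u : List ℕ) (G : ℕ → ℕ → Prop) : QL → ℕ → Prop
  | nil : RepQ ψ u G .nil 0
  | cons {v : QL} {e W g : ℕ} : RepQ ψ u G v e →
      (∀ i ≤ e + 1, gz (W + ψ (gd u 0) * 2 ^ 24) i = ψ (gd u i)) → G g (e + 2) →
      RepQ ψ u G (.cons (ψ (gd u (e + 1))) (e + 1) W g v) (e + 1)

/-- The charge for one entry. -/
noncomputable def ch (f sh g row : ℕ) : ℝ := ((if g ≤ f then 0 else dig row sh : ℕ) : ℝ)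

/-- A correct entry for an event that is open at place `e`. -/
def Good (u : List ℕ) (G : ℕ → ℕ → Prop) (B : ℕ → ℕ → ℝ) (f sh e p g0 g row : ℕ) : Prop :=
  1 ≤ p ∧ p ≤ e + 1 ∧ e + 1 ≤ p + lm u p ∧ G g0 p ∧ B p (e + 1 - p) ≤ ch f sh g row

/-- The entries that the checker computes are correct bounds. -/
def JobOK (R : ℕ → ℕ) (ψ : ℕ → ℕ) (u : List ℕ) (G : ℕ → ℕ → Prop) (B : ℕ → ℕ → ℝ)
    (mk f sh : ℕ) : Prop :=
  ∀ Z g0 p l, p + l ≤ u.length → (∀ i < p + l, gz Z i = ψ (gd u i)) → l < p → l ≤ lm u p →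
    G g0 p → B p l ≤ ch f sh (eg Z g0 p l) (erow R mk Z p l)

variable {R ψ : ℕ → ℕ} {u : List ℕ} {G : ℕ → ℕ → Prop} {B : ℕ → ℕ → ℝ} {mk f sh : ℕ}

lemma ch_nonneg (f sh g row : ℕ) : 0 ≤ ch f sh g row := Nat.cast_nonneg _

lemma sum_le_erase {S : Finset ℕ} {F : ℕ → ℝ} {p : ℕ} {c : ℝ} (hc : 0 ≤ c) (h : F p ≤ c) :
    ∑ q ∈ S, F q ≤ c + ∑ q ∈ S.erase p, F q := by
  by_cases hp : p ∈ S
  · rw [← add_sum_erase S F hp]; linarith
  · rw [erase_eq_of_notMem hp]; linarith

lemma open_sum {e : ℕ} (o : EV) (h : o.All (Good u G B f sh e)) : ∀ S : Finset ℕ,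
    (∀ p ∈ S, o.mem p) → ∑ p ∈ S, B p (e + 1 - p) ≤ chgO o f sh := by
  induction o with
  | nil =>
    intro S hS
    rw [eq_empty_of_forall_notMem hS]; simp
  | cons n g0 g row t ih =>
    intro S hS
    have h1 := ih h.2 (S.erase n) fun p hp =>
      (hS p (mem_of_mem_erase hp)).resolve_left (ne_of_mem_erase hp)
    have h2 := sum_le_erase (S := S) (F := fun p => B p (e + 1 - p)) (ch_nonneg _ _ _ _)
      h.1.2.2.2.2
    rw [chgO_cons, Nat.cast_add]
    unfold ch at h2
    linarith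

lemma grow_spec (hψ : Function.Injective ψ) (hJ : JobOK R ψ u G B mk f sh) {Z e : ℕ}
    (hu : e + 2 ≤ u.length) (hZ : ∀ i ≤ e + 1, gz Z i = ψ (gd u i)) {o2 c2 : EV} (o : EV) :
    ∀ o' c, grow R mk Z (ψ (gd u (e + 1))) (e + 1) o o' c = .mk o2 c2 →
      o.All (Good u G B f sh e) → o'.All (Good u G B f sh (e + 1)) →
      o2.All (Good u G B f sh (e + 1)) ∧ (∀ p, o'.mem p → o2.mem p) ∧
      (∀ p, o.mem p → e + 2 ≤ p + lm u p → o2.mem p ∧ e + 2 < 2 * p) ∧
      ∀ dt ≤ e, ∀ S : Finset ℕ, (∀ p ∈ S, o.mem p ∧ p + lm u p = e + 1) →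
        chgC c dt f sh + ∑ p ∈ S, B p (lm u p) ≤ chgC c2 dt f sh := by
  induction o with
  | nil =>
    intro o' c h _ h'
    rw [grow_nil] at h
    obtain ⟨rfl, rfl⟩ := h
    refine ⟨h', fun _ h => h, fun _ h => h.elim, fun dt _ S hS => ?_⟩
    rw [eq_empty_of_forall_notMem fun p hp => (hS p hp).1]; simp
  | cons p g0 g row t ih =>
    intro o' c h ho h'
    obtain ⟨⟨k1, k2, k3, k4, k5⟩, ht⟩ := ho
    rw [grow_cons, hZ _ (by omega)] at h
    simp only [hψ.eq_iff] at h
    split_ifs at h with h1 h2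
    · have h3 : e + 2 ≤ p + lm u p := by
        by_contra h3
        refine lm_stop u k1 (by omega) ?_
        rw [show lm u p = e + 1 - p by omega, show p + (e + 1 - p) = e + 1 by omega, h1]
      obtain ⟨r1, r2, r3, r4⟩ := ih _ _ h ht ⟨⟨k1, by omega, h3, k4,
        hJ Z g0 p _ (by omega) (fun i hi => hZ i (by omega)) (by omega) (by omega) k4⟩, h'⟩
      refine ⟨r1, fun q hq => r2 q (Or.inr hq), ?_, fun dt hd S hS => r4 dt hd S fun q hq => ?_⟩
      · rintro q (rfl | hq) h4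
        · exact ⟨r2 q (Or.inl rfl), by omega⟩
        · exact r3 q hq h4
      · obtain ⟨rfl | h4, h5⟩ := hS q hq
        · omega
        · exact ⟨h4, h5⟩
    · have h3 : p + lm u p = e + 1 := by
        by_contra h3
        have := lm_match u p (e + 1 - p) (by omega)
        rw [show p + (e + 1 - p) = e + 1 by omega] at this
        exact h1 this
      obtain ⟨r1, r2, r3, r4⟩ := ih _ _ h ht h'
      refine ⟨r1, r2, ?_, fun dt hd S hS => ?_⟩
      · rintro q (rfl | hq) h4
        · omega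
        · exact r3 q hq h4
      · have h4 := r4 dt hd (S.erase p) fun q hq =>
          ⟨(hS q (mem_of_mem_erase hq)).1.resolve_left (ne_of_mem_erase hq),
            (hS q (mem_of_mem_erase hq)).2⟩
        have h5 := sum_le_erase (S := S) (F := fun p => B p (lm u p)) (p := p) (ch_nonneg _ _ _ _)
          (by rw [show lm u p = e + 1 - p by omega]; exact k5)
        rw [chgC_cons, if_neg (by omega), Nat.cast_add] at h4
        unfold ch at h5
        linarith

lemma evs_spec (hψ : Function.Injective ψ) (hJ : JobOK R ψ u G B mk f sh) (hG : G 9 1)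
    (hB : B 1 0 ≤ 0) {v : QL} {e : ℕ} (hv : RepQ ψ u G v e) : e + 1 ≤ u.length →
    ∀ o c, evsM v R mk (ψ (gd u 0)) = .mk o c →
      (∀ p, 1 ≤ p → 2 * p ≤ e + 1 → lm u p < p) ∧ o.All (Good u G B f sh e) ∧
      (∀ p, 1 ≤ p → p ≤ e + 1 → e + 1 ≤ p + lm u p → o.mem p) ∧
      ∀ dt, ∀ S : Finset ℕ, (∀ p ∈ S, 1 ≤ p ∧ dt < p + lm u p ∧ p + lm u p ≤ e) →
        ∑ p ∈ S, B p (lm u p) ≤ chgC c dt f sh := by
  induction hv with
  | nil =>
    intro _ o c h
    rw [evsM_nil] at h
    obtain ⟨rfl, rfl⟩ := h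
    refine ⟨fun p _ _ => by omega, ⟨⟨le_rfl, le_rfl, by omega, hG, hB.trans (ch_nonneg _ _ _ _)⟩,
      trivial⟩, fun p _ _ _ => Or.inl (by omega), fun dt S hS => ?_⟩
    rw [eq_empty_of_forall_notMem (s := S) fun p hp => by have := hS p hp; omega]; simp
  | @cons v e W g _ hZ hg ih =>
    intro hu o2 c2 h
    cases h0 : evsM v R mk (ψ (gd u 0)) with
    | dead => rw [evsM_cons_dead _ _ _ _ _ _ _ _ h0] at h; cases h
    | mk o c =>
      obtain ⟨i1, i2, i3, i4⟩ := ih (by omega) o c h0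
      rw [evsM_cons_mk _ _ _ _ _ _ _ _ _ _ h0] at h
      obtain ⟨r1, r2, r3, r4⟩ := grow_spec hψ hJ hu hZ o _ _ h i2 ⟨⟨by omega, le_rfl, by omega, hg,
        by
          rw [tsub_self]
          exact hJ _ g _ 0 (by omega) (fun i hi => hZ i (by omega)) (by omega) (by omega) hg⟩,
        trivial⟩
      refine ⟨fun p h1 h2 => ?_, r1, fun p h1 h2 h3 => ?_, fun dt S hS => ?_⟩
      · by_contra h3
        by_cases h4 : 2 * p ≤ e + 1
        · exact h3 (i1 p h1 h4)
        · have := (r3 p (i3 p h1 (by omega) (by omega)) (by omega)).2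
          omega
      · by_cases h4 : p = e + 1 + 1
        · exact r2 p (Or.inl h4)
        · exact (r3 p (i3 p h1 (by omega) (by omega)) (by omega)).1
      · by_cases h4 : dt ≤ e
        · have h5 := r4 dt h4 (S.filter fun p => p + lm u p = e + 1) fun p hp => by
            obtain ⟨h6, h7⟩ := mem_filter.1 hp
            exact ⟨i3 p (hS p h6).1 (by omega) (by omega), h7⟩
          have h6 := i4 dt (S.filter fun p => ¬ p + lm u p = e + 1) fun p hp => by
            obtain ⟨h6, h7⟩ := mem_filter.1 hp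
            have := hS p h6
            omega
          rw [← sum_filter_add_sum_filter_not S fun p => p + lm u p = e + 1]
          linarith
        · rw [eq_empty_of_forall_notMem (s := S) fun p hp => by have := hS p hp; omega]; simp

theorem evs_charge (hψ : Function.Injective ψ) (hJ : JobOK R ψ u G B mk f sh) (hG : G 9 1)
    (hB : B 1 0 ≤ 0) {v : QL} {d : ℕ} (hv : RepQ ψ u G v d) (hu : d + 1 ≤ u.length) {o c : EV}
    (h : evsM v R mk (ψ (gd u 0)) = .mk o c) :
    (∀ p, 1 ≤ p → 2 * p ≤ d + 1 → lm u p < p) ∧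
      ∀ dt, ∀ S : Finset ℕ, (∀ p ∈ S, 1 ≤ p ∧ dt < p + lm u p ∧ p + lm u p ≤ d + 1) →
        ∑ p ∈ S, B p (lm u p) ≤ chg o c d dt f sh := by
  obtain ⟨i1, i2, i3, i4⟩ := evs_spec hψ hJ hG hB hv hu o c h
  refine ⟨i1, fun dt S hS => ?_⟩
  rw [chg_eq]
  split_ifs with h1
  · have h2 := open_sum o i2 (S.filter fun p => p + lm u p = d + 1) fun p hp => by
      obtain ⟨h6, h7⟩ := mem_filter.1 hp
      exact i3 p (hS p h6).1 (by omega) (by omega)
    have h3 := i4 dt (S.filter fun p => ¬ p + lm u p = d + 1) fun p hp => by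
      obtain ⟨h6, h7⟩ := mem_filter.1 hp
      have := hS p h6
      omega
    rw [sum_congr rfl (g := fun p => B p (lm u p)) fun p hp => by
      rw [show lm u p = d + 1 - p by have := (mem_filter.1 hp).2; omega]] at h2
    rw [← sum_filter_add_sum_filter_not S fun p => p + lm u p = d + 1, Nat.cast_add]
    linarith
  · rw [eq_empty_of_forall_notMem (s := S) fun p hp => by have := hS p hp; omega]; simp

end Pool.Agent.Work.MP_7cb3ca_co.P3
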