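import Pool.Agent.Work.MP_7cb3ca_co.P3.Tab
import Pool.Agent.Work.MP_7cb3ca_co.P3.Word

/-! The names that the checker gives to the letters of a word and of two lists. -/

namespace Pool.Agent.Work.MP_7cb3ca_co.P3

open Finset

/-- The mark of a letter with respect to two lists. -/
def mk2 (A B : Finset ℕ) (a : ℕ) : ℕ := mb A a + 2 * mb B a

/-- Names for the letters, and the counters for the next free names. -/
structure Names (A B : Finset ℕ) (w : List ℕ) (ψ : ℕ → ℕ) (r : ℕ → ℕ → ℕ) : Prop where
  inj : Function.Injective ψ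
  m3 : ∀ a, mk2 A B a = 3 → ψ a < 3 - (A \ B).card
  m1 : ∀ a, mk2 A B a = 1 → 3 - (A \ B).card ≤ ψ a ∧ ψ a < 3
  m2 : ∀ a, mk2 A B a = 2 → 3 ≤ ψ a ∧ ψ a < 3 + (A \ B).card
  m0 : ∀ a, mk2 A B a = 0 → 6 ≤ ψ a
  r1 : r 1 0 = 3 - (A \ B).card
  r2 : r 2 0 = 3
  r3 : r 3 0 = 0
  old : ∀ e < w.length, w.idxOf (gd w e) < e → ∀ s, r s (e + 1) = r s e
  new : ∀ e < w.length, ¬ w.idxOf (gd w e) < e →
    ψ (gd w e) = (if mk2 A B (gd w e) = 0 then e + 6 else r (mk2 A B (gd w e)) e) ∧
    ∀ s, s ≠ 0 → r s (e + 1) = if mk2 A B (gd w e) = s then r s e + 1 else r s e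

lemma gd_mem {w : List ℕ} {e : ℕ} (he : e < w.length) : gd w e ∈ w := by
  unfold gd; rw [List.getD_eq_getElem _ _ he]; exact List.getElem_mem he

lemma gd_idxOf {w : List ℕ} {a : ℕ} (ha : a ∈ w) : gd w (w.idxOf a) = a := by
  unfold gd
  rw [List.getD_eq_getElem _ _ (List.idxOf_lt_length_iff.2 ha), List.getElem_idxOf]

lemma idxOf_gd_le {w : List ℕ} {e : ℕ} (he : e < w.length) : w.idxOf (gd w e) ≤ e := by
  induction w generalizing e with
  | nil => simp at he
  | cons x w ih =>
    cases e with
    | zero => simp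
    | succ e =>
      rw [gd_succ, List.idxOf_cons]
      have := ih (e := e) (by simpa using he)
      cases (x == gd w e) <;> simp; omega

lemma mk2_cases (A B : Finset ℕ) (a : ℕ) :
    (mk2 A B a = 0 ∧ a ∉ A ∧ a ∉ B) ∨ (mk2 A B a = 1 ∧ a ∈ A ∧ a ∉ B) ∨
      (mk2 A B a = 2 ∧ a ∉ A ∧ a ∈ B) ∨ (mk2 A B a = 3 ∧ a ∈ A ∧ a ∈ B) := by
  unfold mk2 mb; split_ifs <;> simp [*]

theorem exists_names {A B : Finset ℕ} (hA : A.card = 3) (hB : B.card = 3) (w : List ℕ) :
    ∃ ψ r, Names A B w ψ r := by
  set ext := w ++ (A ∪ B).toList with hext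
  set K : ℕ → Finset ℕ := fun s => (A ∪ B).filter fun b => mk2 A B b = s with hK
  set r : ℕ → ℕ → ℕ := fun s e => (if s = 1 then 3 - (A \ B).card else if s = 2 then 3 else 0) +
    ((K s).filter fun b => ext.idxOf b < e).card with hr
  set ψ : ℕ → ℕ := fun a => if mk2 A B a = 0 then
    (if a ∈ ext then ext.idxOf a + 6 else ext.length + 6 + a) else r (mk2 A B a) (ext.idxOf a)
    with hψ
  have hKm : ∀ a, mk2 A B a ≠ 0 → a ∈ K (mk2 A B a) := fun a h => by
    have := mk2_cases A B a
    simp only [hK, mem_filter, mem_union, and_true]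
    tauto
  have hKe : ∀ s, ∀ a ∈ K s, a ∈ ext := fun s a h => by
    simp only [hext, List.mem_append, mem_toList]; exact Or.inr (mem_filter.1 h).1
  have hlt : ∀ s, ∀ a ∈ K s, ((K s).filter fun b => ext.idxOf b < ext.idxOf a).card < (K s).card :=
    fun s a h => card_lt_card ((filter_ssubset).2 ⟨a, h, lt_irrefl _⟩)
  have hmono : ∀ s, ∀ a ∈ K s, ∀ b, ext.idxOf a < ext.idxOf b →
      r s (ext.idxOf a) < r s (ext.idxOf b) := fun s a h b hab => by
    simp only [hr, add_lt_add_iff_left]
    refine card_lt_card ⟨fun c hc => ?_, fun hc => ?_⟩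
    · rw [mem_filter] at hc ⊢; exact ⟨hc.1, by omega⟩
    · have := mem_filter.1 (hc (mem_filter.2 ⟨h, hab⟩)); omega
  have c1 : (K 1).card = (A \ B).card := by
    congr 1; ext a; have := mk2_cases A B a
    simp only [hK, mem_filter, mem_union, mem_sdiff]
    rcases this with h | h | h | h <;> simp [h]
  have c2 : (K 2).card = (A \ B).card := by
    rw [card_sdiff_comm (hA.trans hB.symm)]
    congr 1; ext a; have := mk2_cases A B a
    simp only [hK, mem_filter, mem_union, mem_sdiff]
    rcases this with h | h | h | h <;> simp [h]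
  have c3 : (K 3).card + (A \ B).card = 3 := by
    refine Eq.trans ?_ ((card_sdiff_add_card_inter A B).trans hA)
    rw [add_comm]
    congr 2; ext a; have := mk2_cases A B a
    simp only [hK, mem_filter, mem_union, mem_inter]
    rcases this with h | h | h | h <;> simp [h]
  have m3 : ∀ a, mk2 A B a = 3 → ψ a < 3 - (A \ B).card := fun a h => by
    have := hlt _ a (hKm a (by omega))
    simp only [hψ, hr, h] at this ⊢; norm_num; omega
  have m1 : ∀ a, mk2 A B a = 1 → 3 - (A \ B).card ≤ ψ a ∧ ψ a < 3 := fun a h => by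
    have := hlt _ a (hKm a (by omega))
    simp only [hψ, hr, h] at this ⊢; norm_num; omega
  have m2 : ∀ a, mk2 A B a = 2 → 3 ≤ ψ a ∧ ψ a < 3 + (A \ B).card := fun a h => by
    have := hlt _ a (hKm a (by omega))
    simp only [hψ, hr, h] at this ⊢; norm_num; omega
  have m0 : ∀ a, mk2 A B a = 0 → 6 ≤ ψ a := fun a h => by
    simp only [hψ, h, if_true]; split_ifs <;> omega
  have hix : ∀ e < w.length, ext.idxOf (gd w e) = w.idxOf (gd w e) := fun e he =>
    List.idxOf_append_of_mem (gd_mem he)
  have hat : ∀ e < w.length, ∀ b ∈ ext, ext.idxOf b = e → b = gd w e := fun e he b hb h => by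
    rw [← gd_idxOf hb, h]
    unfold gd
    rw [hext, List.getD_append _ _ _ _ he]
  refine ⟨ψ, r, fun a b hab => ?_, m3, m1, m2, m0, by simp [hr], by simp [hr], by simp [hr],
    fun e he h s => ?_, fun e he h => ⟨?_, fun s hs => ?_⟩⟩
  · have h1 : mk2 A B a = mk2 A B b := by
      have := m3 a; have := m3 b; have := m1 a; have := m1 b; have := m2 a; have := m2 b
      have := m0 a; have := m0 b
      have : mk2 A B a ≤ 3 := by have := mk2_cases A B a; omega
      have : mk2 A B b ≤ 3 := by have := mk2_cases A B b; omega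
      omega
    simp only [hψ, ← h1] at hab
    split_ifs at hab with h2 h3 h4 h4
    · exact (List.idxOf_inj h3).1 (by omega)
    · have := List.idxOf_lt_length_iff.2 h3; omega
    · have := List.idxOf_lt_length_iff.2 h4; omega
    · omega
    · have h3 := hKm a h2
      have h4 := hKm b (by omega)
      rw [← h1] at h4
      have := hmono _ a h3 b
      have := hmono _ b h4 a
      exact (List.idxOf_inj (hKe _ _ h3)).1 (by omega)
  · simp only [hr]
    congr 2
    refine filter_congr fun b hb => ⟨fun h1 => ?_, fun h1 => by omega⟩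
    by_contra h2
    have := hat e he b (hKe _ _ hb) (by omega)
    have := hix e he
    subst b
    omega
  · have h1 := idxOf_gd_le he
    have h2 : ext.idxOf (gd w e) = e := by rw [hix e he]; omega
    simp only [hψ, h2]
    rw [if_pos (show gd w e ∈ ext from List.mem_append_left _ (gd_mem he))]
  · have h1 := idxOf_gd_le he
    have h2 : ext.idxOf (gd w e) = e := by rw [hix e he]; omega
    simp only [hr]
    generalize (if s = 1 then 3 - (A \ B).card else if s = 2 then 3 else 0) = b0
    split_ifs with h3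
    · rw [add_assoc, ← card_insert_of_notMem (a := gd w e) (by simp [h2])]
      congr 2; ext b
      simp only [mem_filter, mem_insert]
      refine ⟨fun h4 => ?_, ?_⟩
      · by_cases h5 : ext.idxOf b < e
        · exact Or.inr ⟨h4.1, h5⟩
        · exact Or.inl (hat e he b (hKe _ _ h4.1) (by omega))
      · rintro (h4 | h4)
        · have := hKm (gd w e) (by omega)
          rw [h3] at this
          rw [h4]
          exact ⟨this, by omega⟩
        · exact ⟨h4.1, by omega⟩
    · congr 2
      refine filter_congr fun b hb => ⟨fun h4 => ?_, fun h4 => by omega⟩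
      by_contra h5
      have := hat e he b (hKe _ _ hb) (by omega)
      subst b
      exact h3 (mem_filter.1 hb).2

end Pool.Agent.Work.MP_7cb3ca_co.P3
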