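import Pool.Agent.Work.MP_7cb3ca_co.P3.Tab
import Pool.Agent.Work.MP_7cb3ca_co.P3.Word

/-! The costs of events are bounded by the entries of the tables that the checker looks up. -/

namespace Pool.Agent.Work.MP_7cb3ca_co.P3

open Finset

/-- All letters but the four oldest come from their lists. -/
def Valid (L : ℕ → Finset ℕ) (w : List ℕ) : Prop :=
  ∀ i, i + 4 < w.length → gd w i ∈ L (w.length - 5 - i)

/-- The cap of a word. -/
noncomputable def capf (R : ℕ → ℕ) (L : ℕ → Finset ℕ) (w : List ℕ) : ℝ := hk R L (gd w) (tm w)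

/-- The class `cl` describes the first `n` letters of `a`. -/
def ClsOK (a : ℕ → ℕ) (cl n : ℕ) : Prop :=
  cl < 10 ∧ cl / 3 = pat4 a ∧ (cl % 3 = 0 ∨
    ∃ i < n, i ≤ 3 * (cl % 3) + 2 ∧ a i ≠ a 0 ∧ a i ≠ a 1 ∧ a i ≠ a 2 ∧ a i ≠ a 3)

/-- The letter `g` places before place `p` is not in the list, or `g` is large. -/
def GF (L : ℕ → Finset ℕ) (u : List ℕ) (g p : ℕ) : Prop :=
  9 ≤ g ∨ (1 ≤ g ∧ g ≤ p ∧ gd u (p - g) ∉ L (tm u))

variable {R : ℕ → ℕ} {L : ℕ → Finset ℕ} {ψ : ℕ → ℕ}

lemma Valid.cons {w : List ℕ} (h : Valid L w) {x : ℕ} (hx : x ∈ L (tm w)) : Valid L (x :: w) := by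
  intro i hi
  simp only [List.length_cons] at hi ⊢
  cases i with
  | zero => simpa [tm] using hx
  | succ i =>
    rw [gd_succ, show w.length + 1 - 5 - (i + 1) = w.length - 5 - i by omega]
    exact h i (by omega)

lemma tm_cons {w : List ℕ} (h : 4 ≤ w.length) (x : ℕ) : tm (x :: w) = tm w + 1 := by
  simp only [tm, List.length_cons]; omega

lemma Free.exact {u : List ℕ} (h : Free u) {l : ℕ} (hl : l + 4 ≤ u.length) :
    Exact fun i => gd u (l + i) := by
  refine ⟨fun e => h l 1 le_rfl (by omega) ?_, fun e => h (l + 1) 1 le_rfl (by omega) ?_,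
    fun e => h (l + 2) 1 le_rfl (by omega) ?_, fun e => h l 2 (by omega) (by omega) ?_⟩
  · intro i hi; obtain rfl : i = 0 := by omega
    exact e
  · intro i hi; obtain rfl : i = 0 := by omega
    exact e
  · intro i hi; obtain rfl : i = 0 := by omega
    exact e
  · intro i hi; interval_cases i; exacts [e.1, e.2]

lemma four_le {s : Finset ℕ} {a b c d : ℕ} (ha : a ∈ s) (hb : b ∈ s) (hc : c ∈ s) (hd : d ∈ s)
    (h : a ≠ b ∧ a ≠ c ∧ a ≠ d ∧ b ≠ c ∧ b ≠ d ∧ c ≠ d) : 4 ≤ s.card := by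
  have h1 : ({a, b, c, d} : Finset ℕ).card = 4 := by
    rw [card_insert_of_notMem (by simp; omega), card_insert_of_notMem (by simp; omega),
      card_insert_of_notMem (by simp; omega), card_singleton]
  rw [← h1]
  refine card_le_card fun x hx => ?_
  simp only [mem_insert, mem_singleton] at hx
  rcases hx with rfl | rfl | rfl | rfl <;> assumption

lemma okend_of (hL : ∀ t, (L t).card = 3) {u : List ℕ} (hu : 5 ≤ u.length) (hv : Valid L u)
    {a : ℕ → ℕ} {cl n : ℕ} (hn : 4 ≤ n) (ha : Exact a) (hc : ClsOK a cl n)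
    (hag : ∀ i < n, a i = gd u i) : okend cl (ctx L (tm u - 1)) := by
  by_contra hk
  unfold okend at hk
  rw [(ctx_facts hL _).2.1] at hk
  obtain ⟨-, -, h1 | ⟨i, hi, h1, h2, h3, h4, h5⟩⟩ := hc
  · omega
  have h6 := el_le_self (L := L) (tm u - 1)
  have key : ∀ i < n, i ≤ el L (tm u - 1) → a i ∈ L (tm u - 1) := by
    intro i hi h7
    unfold tm at *
    rw [hag i hi, ← el_spec _ i h7, show u.length - 4 - 1 - i = u.length - 5 - i by omega]
    exact hv i (by omega)
  have k0 := key 0 (by omega) (by omega)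
  have k1 := key 1 (by omega) (by omega)
  have k2 := key 2 (by omega) (by omega)
  have k3 := key 3 (by omega) (by omega)
  have ki := key i hi (by omega)
  obtain ⟨e1, e2, e3, e4⟩ := ha
  have := hL (tm u - 1)
  by_cases e : a 0 = a 2
  · have := four_le k0 k1 k3 ki (by omega); omega
  · have := four_le k0 k1 k2 ki (by omega); omega

lemma pc_le_jc (hT : Tabs R) (hL : ∀ t, (L t).card = 3) {a : ℕ → ℕ} {cl n p : ℕ} (hn : 4 ≤ n)
    (ha : Exact a) (hc : ClsOK a cl n) (j : ℕ) : ∀ u : List ℕ, 5 ≤ u.length → Valid L u → j ≤ p →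
    (∀ i < n, a i = if i < j then gd u (p - j + i) else gd u (i - j)) →
    pc L (bet R L) (capf R L) j u p ≤ jc R L a cl j (tm u) := by
  induction j with
  | zero =>
    intro u hu hv _ hag
    simp only [Nat.not_lt_zero, if_false, tsub_zero] at hag
    rw [pc, jc, if_pos (okend_of hL hu hv hn ha hc hag)]
    unfold capf hk pat4 amk
    rw [hag 0 (by omega), hag 1 (by omega), hag 2 (by omega), hag 3 (by omega)]
  | succ j ih =>
    intro u hu hv hj hag
    have hβ := bet_pos hT hL (tm u)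
    have h0 := jc_nonneg (a := a) (cl := cl) hT hL (j + 1) (tm u)
    rw [pc]
    split_ifs with h
    · rw [jc, if_pos, ← tm_cons (by omega) (gd u (p - 1))]
      · refine div_le_div_of_nonneg_right (ih _ (by simp; omega) (hv.cons h.1) (by omega) ?_) hβ.le
        intro i hi
        rw [hag i hi]
        rcases lt_trichotomy i j with h1 | rfl | h1
        · rw [if_pos (by omega), if_pos h1, gd_cons (by omega)]; congr 1; omega
        · rw [if_pos (by omega), if_neg (by omega), tsub_self, gd_zero]; congr 1; omega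
        · rw [if_neg (by omega), if_neg (by omega), gd_cons (by omega)]; congr 1
      · intro h1
        rw [hag j (by omega), if_pos (by omega), show p - (j + 1) + j = p - 1 by omega]
        exact h.1
    · exact h0

lemma pc_le_jc' (hT : Tabs R) (hL : ∀ t, (L t).card = 3) {u : List ℕ} (hu : 5 ≤ u.length)
    (hv : Valid L u) {cl n p l : ℕ} (hn : 4 ≤ n) (hnp : n ≤ p) (hl : l ≤ p)
    (hm : ∀ i < l, gd u i = gd u (p + i)) (ha : Exact fun i => gd u (l + i))
    (hc : ClsOK (fun i => gd u (l + i)) cl n) :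
    pc L (bet R L) (capf R L) (p - l) u p ≤ jc R L (fun i => gd u (l + i)) cl (p - l) (tm u) := by
  refine pc_le_jc hT hL hn ha hc _ u hu hv (by omega) fun i hi => ?_
  split_ifs with h
  · congr 1; omega
  · rw [hm (i - (p - l)) (by omega)]; congr 1; omega

section

variable {β : ℕ → ℝ} {cap : List ℕ → ℝ}

lemma pc_not_free {u : List ℕ} (h : ¬ Free u) {j : ℕ} (hj : 1 ≤ j) (p : ℕ) :
    pc L β cap j u p = 0 := by
  obtain ⟨j, rfl⟩ : ∃ i, j = i + 1 := ⟨j - 1, by omega⟩
  rw [pc, if_neg (fun e => h e.2)]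

lemma pc_void {p : ℕ} (j : ℕ) : ∀ u : List ℕ, 4 ≤ u.length → j ≤ p →
    ∀ i < j, gd u (p - 1 - i) ∉ L (tm u + i) → pc L β cap j u p = 0 := by
  induction j with
  | zero => intro u _ _ i hi; omega
  | succ j ih =>
    intro u hu hj i hi h
    rw [pc]
    split_ifs with h1
    · cases i with
      | zero => exact absurd h1.1 h
      | succ i =>
        rw [ih _ (by simp; omega) (by omega) i (by omega), zero_div]
        rw [gd_cons (by omega), tm_cons hu, show tm u + 1 + i = tm u + (i + 1) by omega]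
        exact h
    · rfl

lemma pc_bad (hψ : Function.Injective ψ) {p T : ℕ} (n : ℕ) : ∀ (u : List ℕ) (i j : ℕ),
    5 ≤ u.length → n + 1 ≤ j → j ≤ p → (∀ s < n, gt T (i - s) = ψ (gd u (p - 1 - s))) →
    bad T n i (ψ (gd u 0)) (ψ (gd u 1)) (ψ (gd u 2)) (ψ (gd u 3)) (ψ (gd u 4)) = true →
    pc L β cap j u p = 0 := by
  induction n with
  | zero => intro u i j _ _ _ _ h; simp [bad_zero] at h
  | succ n ih =>
    intro u i j hu hn hj hT h
    obtain ⟨j, rfl⟩ : ∃ i, j = i + 1 := ⟨j - 1, by omega⟩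
    rw [pc]
    split_ifs with h1
    swap
    · rfl
    have h2 := hT 0 (by omega)
    simp only [tsub_zero] at h2
    rw [bad_succ, h2] at h
    simp only [hψ.eq_iff] at h
    suffices pc L β cap j (gd u (p - 1) :: u) p = 0 by rw [this, zero_div]
    rcases h with h | h | h | h
    · refine pc_not_free (fun e => e.not_sq 1 ⟨le_rfl, by simp; omega, fun i hi => ?_⟩) (by omega) _
      interval_cases i; exact h
    · refine pc_not_free (fun e => e.not_sq 2 ⟨by omega, by simp; omega, fun i hi => ?_⟩)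
        (by omega) _
      interval_cases i; exacts [h.1, h.2]
    · refine pc_not_free (fun e => e.not_sq 3 ⟨by omega, by simp; omega, fun i hi => ?_⟩)
        (by omega) _
      interval_cases i; exacts [h.1, h.2.1, h.2.2]
    · refine ih _ (i - 1) j (by simp; omega) (by omega) (by omega) (fun s hs => ?_) h
      rw [gd_cons (by omega), show i - 1 - s = i - (s + 1) by omega, hT _ (by omega)]
      congr 2

end

lemma mod_div_mod (X : ℕ) {n k : ℕ} (h : k + 6 ≤ n) : X % 2 ^ n / 2 ^ k % 64 = X / 2 ^ k % 64 := by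
  obtain ⟨r, rfl⟩ : ∃ r, n = k + (6 + r) := ⟨n - k - 6, by omega⟩
  rw [pow_add, Nat.mod_mul_right_div_self, pow_add]
  exact Nat.mod_mod_of_dvd _ (dvd_mul_right _ _)

lemma gt_shift (Z : ℕ) {a n i m : ℕ} (h : 6 * i + 6 ≤ n) (e : a + 6 * i = 6 * m + 24) :
    gt (Z / 2 ^ a % 2 ^ n) i = gz Z m := by
  rw [gt_eq, gz_eq, mod_div_mod _ h, Nat.div_div_eq_div_mul, ← pow_add, e]

lemma gt_win (Z l : ℕ) {i : ℕ} (h : i < 9) : gt (win Z l) i = gz Z (l + i) := by
  rw [win_eq]; exact gt_shift Z (by omega) (by omega)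

lemma fo_spec (a b c S n : ℕ) : ∀ i, fo a b c S n i = 9 ∨ (fo a b c S n i < i + n ∧
    gt S (fo a b c S n i) ≠ a ∧ gt S (fo a b c S n i) ≠ b ∧ gt S (fo a b c S n i) ≠ c) := by
  induction n with
  | zero => intro i; left; rfl
  | succ n ih =>
    intro i
    rw [fo_succ]
    split_ifs with h
    · have := ih (i + 1); omega
    · omega

lemma pat_map (hψ : Function.Injective ψ) (a b c d : ℕ) :
    pat (ψ a) (ψ b) (ψ c) (ψ d) = pat a b c d := by
  simp only [pat_eq, hψ.eq_iff]

lemma cls_ok (hψ : Function.Injective ψ) {S n : ℕ} {a : ℕ → ℕ} (hn : 4 ≤ n)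
    (h : ∀ i < n, i < 9 → gt S i = ψ (a i)) : ClsOK a (cls S n) n := by
  rw [cls_eq, h 0 (by omega) (by omega), h 1 (by omega) (by omega), h 2 (by omega) (by omega),
    h 3 (by omega) (by omega), pat_map hψ]
  have h1 := fo_spec (ψ (a 0)) (ψ (a 1))
    (if pat (a 0) (a 1) (a 2) (a 3) = 0 then ψ (a 3) else ψ (a 2)) S (min n 9 - 4) 4
  generalize fo (ψ (a 0)) (ψ (a 1))
    (if pat (a 0) (a 1) (a 2) (a 3) = 0 then ψ (a 3) else ψ (a 2)) S (min n 9 - 4) 4 = r at h1
  have h2 : r ≤ 8 → pat (a 0) (a 1) (a 2) (a 3) ≠ 3 →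
      r < n ∧ a r ≠ a 0 ∧ a r ≠ a 1 ∧ a r ≠ a 2 ∧ a r ≠ a 3 := by
    intro h3 h4
    obtain ⟨h5, h6⟩ := h1.resolve_left (by omega)
    rw [h r (by omega) (by omega), ← apply_ite ψ] at h6
    refine ⟨by omega, ?_⟩
    clear h1
    simp only [ne_eq, hψ.eq_iff, pat_eq] at h6 h4
    by_cases e1 : a 2 = a 0
    · simp only [e1, if_true] at h6; omega
    · have e2 : a 3 = a 0 ∨ a 3 = a 1 := by by_contra e; simp_all
      rw [if_neg (by split_ifs <;> simp_all)] at h6
      omega
  have h3 : pat (a 0) (a 1) (a 2) (a 3) ≤ 3 := by rw [pat_eq]; split_ifs <;> omega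
  unfold ClsOK pat4
  split_ifs with e1 e2 e3
  · omega
  · have := h2 (by omega) e1
    exact ⟨by omega, by omega, Or.inr ⟨r, this.1, by omega, this.2⟩⟩
  · have := h2 (by omega) e1
    exact ⟨by omega, by omega, Or.inr ⟨r, this.1, by omega, this.2⟩⟩
  · omega

lemma am_ok {S mk : ℕ} {s : Finset ℕ} {a : ℕ → ℕ} (hmk : ∀ b, bit mk (ψ b) = mb s b)
    (h : ∀ i < 4, gt S i = ψ (a i)) : am mk S = amk s a := by
  rw [am_eq, h 0 (by omega), h 1 (by omega), h 2 (by omega), h 3 (by omega)]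
  simp only [hmk, amk]

theorem job_one (hT : Tabs R) (hL : ∀ t, (L t).card = 3) (hψ : Function.Injective ψ) {u : List ℕ}
    (hv : Valid L u) {mk Z g0 p l : ℕ} (hmk : ∀ b, bit mk (ψ b) = mb (L (tm u)) b)
    (hu : p + l ≤ u.length) (hZ : ∀ i < p + l, gz Z i = ψ (gd u i)) (hp : 4 ≤ p) (h5 : 5 ≤ p + l)
    (hl : l < p) (hm : ∀ i < l, gd u i = gd u (p + i)) (hg : GF L u g0 p) :
    pc L (bet R L) (capf R L) (p - l) u p ≤
      ((if eg Z g0 p l ≤ cf (ctx L (tm u)) then 0
        else dig (erow R mk Z p l) (24 * ctx L (tm u)) : ℕ) : ℝ) := by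
  by_cases hf : Free u
  swap
  · rw [pc_not_free hf (by omega)]; positivity
  by_cases h1 : eg Z g0 p l ≤ cf (ctx L (tm u))
  · rw [if_pos h1, Nat.cast_zero]
    refine le_of_eq ?_
    rw [(ctx_facts hL _).2.2.1, eg_eq] at h1
    have h2 := fr_le (L := L) 7 (tm u)
    split_ifs at h1 with h3 h4
    · rw [bad0_eq, gt_shift Z (m := 0) (by omega) (by omega),
        gt_shift Z (m := 1) (by omega) (by omega), gt_shift Z (m := 2) (by omega) (by omega),
        gt_shift Z (m := 3) (by omega) (by omega), gt_shift Z (m := 4) (by omega) (by omega),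
        hZ 0 (by omega), hZ 1 (by omega), hZ 2 (by omega), hZ 3 (by omega), hZ 4 (by omega)] at h3
      refine pc_bad hψ _ u 4 _ (by omega) (by omega) (by omega) (fun s hs => ?_) h3
      rw [gt_shift Z (m := p - 1 - s) (by omega) (by omega), hZ _ (by omega)]
    · obtain ⟨k1, k2, k3⟩ := hg.resolve_left (by omega)
      refine pc_void _ u (by omega) (by omega) (g0 - 1) (by omega) ?_
      rwa [fr_spec (L := L) 7 (tm u) (g0 - 1) (by omega), show p - 1 - (g0 - 1) = p - g0 by omega]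
    · omega
  · have ha := hf.exact (l := l) (by omega)
    have hw : ∀ i < p, i < 9 → gt (win Z l) i = ψ (gd u (l + i)) := fun i h2 h3 => by
      rw [gt_win Z l h3, hZ _ (by omega)]
    have hc := cls_ok (a := fun i => gd u (l + i)) hψ hp hw
    rw [if_neg h1, erow_eq, am_ok (a := fun i => gd u (l + i)) hmk
      fun i hi => hw i (by omega) (by omega)]
    exact (pc_le_jc' hT hL (by omega) hv hp le_rfl hl.le hm ha hc).trans
      (tab_one hT hL ha hc.1 hc.2.1 (by omega) _)

theorem job_blind (hT : Tabs R) (hL : ∀ t, (L t).card = 3) (hψ : Function.Injective ψ) {u : List ℕ}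
    (hv : Valid L u) {Z g d : ℕ} (hd : 4 ≤ d) (hu : d + 1 ≤ u.length)
    (hZ : ∀ i ≤ d, gz Z i = ψ (gd u i)) (hg : GF L u g (d + 1)) (S : Finset ℕ)
    (hS : ∀ p ∈ S, d + 2 ≤ p) :
    ∑ p ∈ S, pc L (bet R L) (capf R L) p u p ≤ dig (R (5824 + 64 * cls (win Z 0) (d + 1) +
      min (d - 2 + (cf (ctx L (tm u)) - g)) 44)) (24 * ctx L (tm u)) := by
  by_cases hf : Free u
  swap
  · rw [sum_eq_zero fun p hp => pc_not_free hf (by have := hS p hp; omega) _]; positivity
  have ha := hf.exact (l := 0) (by omega)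
  have hw : ∀ i < d + 1, i < 9 → gt (win Z 0) i = ψ (gd u (0 + i)) := fun i h2 h3 => by
    rw [gt_win Z 0 h3, hZ _ (by omega)]
  have hc := cls_ok (a := fun i => gd u (0 + i)) hψ (by omega) hw
  have h1 := tab_all hT hL ha hc.1 hc.2.1 (d - 2 + (cf (ctx L (tm u)) - g)) (tm u)
    (S.filter fun p => 4 + (d - 2 + (cf (ctx L (tm u)) - g)) ≤ p) fun j hj => (mem_filter.1 hj).2
  rw [iW_eq, show 5184 + 64 * (10 * 1 + cls (win Z 0) (d + 1)) = 5824 + 64 * cls (win Z 0) (d + 1)
    by omega, sum_filter] at h1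
  refine le_trans (sum_le_sum fun p hp => ?_) h1
  have h2 := hS p hp
  split_ifs with h3
  · exact pc_le_jc' (l := 0) hT hL (by omega) hv (by omega) (by omega) (by omega) (by omega) ha hc
  · rw [(ctx_facts hL _).2.2.1] at h3
    have h4 := fr_le (L := L) 7 (tm u)
    obtain ⟨k1, k2, k3⟩ := hg.resolve_left (by omega)
    refine le_of_eq (pc_void _ u (by omega) le_rfl (p - d - 2 + g) (by omega) ?_)
    rwa [fr_spec (L := L) 7 (tm u) (p - d - 2 + g) (by omega),
      show p - 1 - (p - d - 2 + g) = d + 1 - g by omega]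

end Pool.Agent.Work.MP_7cb3ca_co.P3
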