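import Pool.Agent.Work.MP_7cb3ca_co.P3.DA

/-! Kernel runs of the checker on parts of the certificate. -/

namespace Pool.Agent.Work.MP_7cb3ca_co.P3.D

set_option maxRecDepth 100000

def p0_2617 : PLift (chkC R TR 0 2617 2681 = true) := ⟨by decide +kernel⟩
def p0_3199 : PLift (chkC R TR 0 3199 3284 = true) := ⟨by decide +kernel⟩
def p0_3699 : PLift (chkC R TR 0 3699 3833 = true) := ⟨by decide +kernel⟩
def p1_659 : PLift (chkC R TR 1 659 935 = true) := ⟨by decide +kernel⟩
def p1_1834 : PLift (chkC R TR 1 1834 2054 = true) := ⟨by decide +kernel⟩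
def p1_2055 : PLift (chkC R TR 1 2055 2366 = true) := ⟨by decide +kernel⟩
def p2_584 : PLift (chkC R TR 2 584 1407 = true) := ⟨by decide +kernel⟩
def p10_1455 : PLift (chkC R TR 10 1455 1771 = true) := ⟨by decide +kernel⟩
def p14_0 : PLift (chkC R TR 14 0 4098 = true) := ⟨by decide +kernel⟩
def p20_4095 : PLift (chkC R TR 20 4095 4098 = true) := ⟨by decide +kernel⟩
def p29_2405 : PLift (chkC R TR 29 2405 4098 = true) := ⟨by decide +kernel⟩
def p30_1270 : PLift (chkC R TR 30 1270 1932 = true) := ⟨by decide +kernel⟩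
def p32_0 : PLift (chkC R TR 32 0 4098 = true) := ⟨by decide +kernel⟩
def p33_1737 : PLift (chkC R TR 33 1737 3103 = true) := ⟨by decide +kernel⟩
def p33_3938 : PLift (chkC R TR 33 3938 4098 = true) := ⟨by decide +kernel⟩
def p36_0 : PLift (chkC R TR 36 0 4098 = true) := ⟨by decide +kernel⟩
def p38_0 : PLift (chkC R TR 38 0 4098 = true) := ⟨by decide +kernel⟩
def p40_646 : PLift (chkC R TR 40 646 1214 = true) := ⟨by decide +kernel⟩
def p40_1266 : PLift (chkC R TR 40 1266 1597 = true) := ⟨by decide +kernel⟩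
def p58_0 : PLift (chkC R TR 58 0 4098 = true) := ⟨by decide +kernel⟩
def p59_0 : PLift (chkC R TR 59 0 1884 = true) := ⟨by decide +kernel⟩
def p85_2018 : PLift (chkC R TR 85 2018 4098 = true) := ⟨by decide +kernel⟩
def p86_0 : PLift (chkC R TR 86 0 2017 = true) := ⟨by decide +kernel⟩

end Pool.Agent.Work.MP_7cb3ca_co.P3.D
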