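import Pool.Agent.Work.MP_7cb3ca_co.P3.Eqs
import Pool.Agent.Work.MP_7cb3ca_co.P3.Word

/-! Descents in tries, and what the check of a trie says about them. -/

namespace Pool.Agent.Work.MP_7cb3ca_co.P3

/-- The place reached after `n` symbols. -/
def walk (t : Tr) (σ : ℕ → ℕ) : ℕ → Pos
  | 0 => .mk 0 0 t
  | n + 1 => (walk t σ n).step (σ n)

/-- There is a child with symbol `s`. -/
def Tr.has : Tr → ℕ → Prop
  | .nil, _ => False
  | .node s' _ _ _ sib, s => s = s' ∨ sib.has s

/-- The first `n` symbols spell a path in the trie. -/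
def Found (t : Tr) (σ : ℕ → ℕ) (n : ℕ) : Prop := ∀ i < n, (walk t σ i).kid.has (σ i)

lemma find_not_has {t : Tr} {s : ℕ} (h : ¬ t.has s) (a d : ℕ) : find t a d s = .mk a d .nil := by
  induction t with
  | nil => rfl
  | node s' h' d' kid sib _ ih =>
    rw [Tr.has, not_or] at h
    rw [find, if_neg h.1, ih h.2]

lemma walk_found (t : Tr) (σ : ℕ → ℕ) (n : ℕ) : ∃ n' ≤ n, Found t σ n' ∧
    (walk t σ n).h = (walk t σ n').h ∧ (walk t σ n).d = (walk t σ n').d ∧
    (n' = n ∨ (walk t σ n).kid = .nil) := by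
  induction n with
  | zero => exact ⟨0, le_rfl, fun i hi => by omega, rfl, rfl, Or.inl rfl⟩
  | succ n ih =>
    obtain ⟨n', h1, h2, h3, h4, h5⟩ := ih
    by_cases h : (walk t σ n).kid.has (σ n)
    · obtain rfl : n' = n := h5.resolve_right fun e => by rw [e] at h; exact h
      refine ⟨n' + 1, le_rfl, fun i hi => ?_, rfl, rfl, Or.inl rfl⟩
      rcases Nat.lt_succ_iff_lt_or_eq.1 hi with h6 | rfl
      exacts [h2 i h6, h]
    · refine ⟨n', by omega, h2, ?_⟩
      rw [walk, Pos.step, find_not_has h]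
      exact ⟨h3, h4, Or.inr rfl⟩

/-- The data of the check after `n` symbols. -/
def accs (sl : ℕ → ℕ → ℕ) (mk : ℕ) (A : Acc) (σ : ℕ → ℕ) : ℕ → Acc
  | 0 => A
  | n + 1 => (accs sl mk A σ n).next sl mk (σ n)

section

variable {sl : ℕ → ℕ → ℕ} {S : ℕ → ℕ → PL → QL → ℕ → ℕ → List ℕ → Bool} {mk lo hi : ℕ}

lemma chkA_find {t : Tr} {A : Acc} {s : ℕ} (h : chkA sl S mk lo hi t A = true) (hs : t.has s)
    (a d : ℕ) : chkN sl S mk lo hi (find t a d s).h (find t a d s).d (find t a d s).kid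
      (A.next sl mk s) = true := by
  induction t with
  | nil => exact hs.elim
  | node s' h' d' kid sib _ ih =>
    rw [chkA_node, bnd_eq] at h
    split_ifs at h with h1
    rw [find]
    split_ifs with h2
    · rw [h2]; exact h1
    · exact ih h (hs.resolve_left h2)

lemma accs_d {A : Acc} (hA : A.d = 0) (σ : ℕ → ℕ) (n : ℕ) : (accs sl mk A σ n).d = n := by
  induction n with
  | zero => exact hA
  | succ n ih => simp only [accs, Acc.next, ih]

lemma accs_q {A : Acc} (hA : A.d = 0) (σ : ℕ → ℕ) {i : ℕ} (hi : 7 ≤ i) (n : ℕ) :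
    (accs sl mk A σ (i + n)).q = (accs sl mk A σ i).q := by
  induction n with
  | zero => rfl
  | succ n ih =>
    rw [← ih, ← add_assoc]
    simp only [accs, Acc.next, accs_d hA]
    rw [if_neg (by omega)]

lemma accs_q_lt {A : Acc} (hA : A.q = 0) (σ : ℕ → ℕ) (n : ℕ) : (accs sl mk A σ n).q < 4099 := by
  induction n with
  | zero => simp only [accs, hA]; omega
  | succ n ih => simp only [accs, Acc.next]; split_ifs <;> omega

theorem path_spec {t : Tr} {A : Acc} (h : chkA sl S mk lo hi t A = true) (hA : A.d = 0)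
    {σ : ℕ → ℕ} {n : ℕ} (hf : Found t σ n)
    (hq : lo ≤ (accs sl mk A σ n).q ∧ (accs sl mk A σ n).q ≤ hi) :
    (walk t σ n).h = 0 ∨ ((walk t σ n).d = n ∧ 4 ≤ n ∧ n ≤ 55 ∧
      S n (walk t σ n).h (accs sl mk A σ n).w (accs sl mk A σ n).v (accs sl mk A σ n).W
        (accs sl mk A σ n).g (accs sl mk A σ n).C = true) := by
  have key : ∀ i ≤ n, chkA sl S mk lo hi (walk t σ i).kid (accs sl mk A σ i) = true := by
    intro i
    induction i with
    | zero => intro _; exact h
    | succ i ih =>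
      intro hi'
      refine (chkN_spec (chkA_find (ih (by omega)) (hf i (by omega)) _ _)).1 ?_
      change _ ≤ (accs sl mk A σ (i + 1)).q ∧ (accs sl mk A σ (i + 1)).q ≤ _ ∨
        (accs sl mk A σ (i + 1)).d < 7
      rw [accs_d hA]
      by_cases h7 : 7 ≤ i + 1
      · rw [← accs_q hA σ h7 (n - (i + 1)), show i + 1 + (n - (i + 1)) = n by omega]
        exact Or.inl hq
      · omega
  cases n with
  | zero => exact Or.inl rfl
  | succ n =>
    have := (chkN_spec (chkA_find (key n (by omega)) (hf n (by omega)) (walk t σ n).h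
      (walk t σ n).d)).2 hq
    rwa [show ((accs sl mk A σ n).next sl mk (σ n)).d = n + 1 from accs_d hA σ (n + 1)] at this

end

/-- The checked parts of the trie of context `c` cover all keys from `lo` on. -/
def Cov (R : ℕ → ℕ) (TR : ℕ → Tr) (c lo : ℕ) : Prop :=
  ∀ q, lo ≤ q → q < 4099 → ∃ a b, a ≤ q ∧ q ≤ b ∧ chkC R TR c a b = true

lemma Cov.last {R : ℕ → ℕ} {TR : ℕ → Tr} {c lo : ℕ} (h : chkC R TR c lo 4098 = true) :
    Cov R TR c lo := fun _ h1 h2 => ⟨lo, 4098, h1, by omega, h⟩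

lemma Cov.step {R : ℕ → ℕ} {TR : ℕ → Tr} {c lo hi : ℕ} (h : chkC R TR c lo hi = true)
    (h' : Cov R TR c (hi + 1)) : Cov R TR c lo := fun q h1 h2 => by
  by_cases h3 : q ≤ hi
  exacts [⟨lo, hi, h1, h3, h⟩, h' q (by omega) h2]

/-- The symbol of letter `i` of a word: the place of its first occurrence, or its mark. -/
def sym (μ : ℕ → ℕ) (w : List ℕ) (i : ℕ) : ℕ :=
  if w.idxOf (gd w i) < i then 4 + w.idxOf (gd w i) else μ (gd w i)

/-- The word of the checker for the descent names the first `e` letters of `w`. -/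
inductive RepP (ψ : ℕ → ℕ) (w : List ℕ) : PL → ℕ → Prop
  | nil : RepP ψ w .nil 0
  | old {v : PL} {e : ℕ} : RepP ψ w v e → w.idxOf (gd w e) < e →
      RepP ψ w (.old (ψ (gd w e)) (4 + w.idxOf (gd w e) + 1) v) (e + 1)
  | new {v : PL} {e : ℕ} : RepP ψ w v e → ¬ w.idxOf (gd w e) < e →
      RepP ψ w (.new (ψ (gd w e)) (ψ (gd w e) + ψ (gd w e)) v) (e + 1)

theorem posM_walk {ψ μ : ℕ → ℕ} (hψ : Function.Injective ψ) {w : List ℕ} {m x : ℕ} (t : Tr)
    (hx : mark2 m (ψ x) = μ x) {v : PL} {e : ℕ} (hv : RepP ψ w v e) :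
    (∀ i < e, mark2 m (ψ (gd w i)) = μ (gd w i)) →
      posM v m (ψ x) t = walk t (sym μ (x :: w)) (e + 1) := by
  induction hv with
  | nil => intro _; rw [posM_nil, hx]; simp [walk, sym]
  | @old v e _ h ih =>
    intro hm
    rw [posM_old, ih fun i hi => hm i (by omega), walk.eq_2 _ _ (e + 1)]
    congr 1
    simp only [sym, gd_succ, hψ.eq_iff]
    by_cases h1 : gd w e = x
    · simp [h1]
    · rw [if_neg h1, List.idxOf_cons_ne _ (Ne.symm h1), if_pos (by omega)]; omega
  | @new v e _ h ih =>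
    intro hm
    rw [posM_new, ih fun i hi => hm i (by omega), walk.eq_2 _ _ (e + 1)]
    congr 1
    simp only [sym, gd_succ, hψ.eq_iff]
    by_cases h1 : gd w e = x
    · simp [h1]
    · rw [if_neg h1, List.idxOf_cons_ne _ (Ne.symm h1), if_neg (by omega)]
      exact hm e (by omega)

end Pool.Agent.Work.MP_7cb3ca_co.P3
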