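import Pool.Agent.Work.MP_7cb3ca_co.P3.Iso
import Pool.Agent.Work.MP_7cb3ca_co.P3.Job
import Pool.Agent.Work.MP_7cb3ca_co.P3.Ev
import Pool.Agent.Work.MP_7cb3ca_co.P3.Walk

/-! The data that the checker carries along the path of a word represent the word. -/

namespace Pool.Agent.Work.MP_7cb3ca_co.P3

open Finset

lemma lM_facts {k : ℕ} (hk : k ≤ 3) : (lM k).Nodup ∧ (lM k).length = 3 ∧ (lC k).Nodup ∧
    (∀ x, x ∈ lM k ↔ x < 3 - k ∨ (3 ≤ x ∧ x < 3 + k)) ∧ ∀ x, x ∈ lC k ↔ 3 - k ≤ x ∧ x < 3 := by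
  have h0 : lM 0 = [0, 1, 2] ∧ lC 0 = [] := ⟨rfl, rfl⟩
  have h1 : lM 1 = [0, 1, 3] ∧ lC 1 = [2] := ⟨rfl, rfl⟩
  have h2 : lM 2 = [0, 3, 4] ∧ lC 2 = [1, 2] := ⟨rfl, rfl⟩
  have h3 : lM 3 = [3, 4, 5] ∧ lC 3 = [0, 1, 2] := ⟨rfl, rfl⟩
  interval_cases k <;> simp only [h0, h1, h2, h3] <;>
    refine ⟨by simp, by simp, by simp, fun x => ?_, fun x => ?_⟩ <;> simp <;> omega

section

variable {A B : Finset ℕ} {w : List ℕ} {ψ : ℕ → ℕ} {r : ℕ → ℕ → ℕ}

lemma sdiff_le (hA : A.card = 3) (B : Finset ℕ) : (A \ B).card ≤ 3 :=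
  (card_le_card sdiff_subset).trans hA.le

lemma Names.mem (N : Names A B w ψ r) (hA : A.card = 3) (a : ℕ) :
    (a ∈ A ↔ ψ a < 3) ∧ (a ∈ B ↔ ψ a ∈ lM (A \ B).card) ∧ (mk2 A B a ≠ 0 → ψ a < 6) := by
  have hk := sdiff_le hA B
  rw [(lM_facts hk).2.2.2.1]
  have h0 := N.m0 a; have h1 := N.m1 a; have h2 := N.m2 a; have h3 := N.m3 a
  rcases mk2_cases A B a with h | h | h | h <;> simp only [h, true_iff, false_iff] <;> omega

lemma Names.image_A (N : Names A B w ψ r) (hA : A.card = 3) : A.image ψ = range 3 := by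
  refine eq_of_subset_of_card_le (fun x hx => ?_) (by rw [card_image_of_injective _ N.inj]; simp [hA])
  obtain ⟨a, ha, rfl⟩ := mem_image.1 hx
  exact mem_range.2 ((N.mem hA a).1.1 ha)

lemma Names.image_B (N : Names A B w ψ r) (hA : A.card = 3) (hB : B.card = 3) :
    B.image ψ = (lM (A \ B).card).toFinset := by
  have h := lM_facts (sdiff_le hA B)
  refine eq_of_subset_of_card_le (fun x hx => ?_) ?_
  · obtain ⟨a, ha, rfl⟩ := mem_image.1 hx
    exact List.mem_toFinset.2 ((N.mem hA a).2.1.1 ha)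
  · rw [card_image_of_injective _ N.inj, List.toFinset_card_of_nodup h.1, h.2.1, hB]

lemma Names.sum_A (N : Names A B w ψ r) (hA : A.card = 3) (F : ℕ → ℕ) :
    ∑ x ∈ A, F (ψ x) = F 0 + F 1 + F 2 := by
  rw [← sum_image (f := F) fun x _ y _ h => N.inj h, N.image_A hA]
  simp [sum_range_succ]

lemma Names.count_M (N : Names A B w ψ r) (hA : A.card = 3) (hB : B.card = 3) (B' : Finset ℕ) :
    ((lM (A \ B).card).filter fun a => !decide (a ∈ B'.image ψ)).length = (B \ B').card := by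
  rw [← List.toFinset_card_of_nodup ((lM_facts (sdiff_le hA B)).1.filter _), List.toFinset_filter,
    ← N.image_B hA hB, ← card_image_of_injective (B \ B') N.inj, image_sdiff _ _ N.inj]
  congr 1; ext x; simp only [mem_filter, mem_sdiff, Bool.not_eq_eq_eq_not, Bool.not_true,
    decide_eq_false_iff_not]

lemma Names.count_C (N : Names A B w ψ r) {B' : Finset ℕ} (hB : B.card = B'.card) {C : List ℕ}
    (hC : C.Nodup) (h : ∀ c ∈ C, ∃ b ∉ B, ψ b = c) :
    (C.filter fun a => decide (a ∈ B'.image ψ)).length ≤ (B \ B').card := by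
  rw [← List.toFinset_card_of_nodup (hC.filter _), card_sdiff_comm hB,
    ← card_image_of_injective (B' \ B) N.inj]
  refine card_le_card fun x hx => ?_
  simp only [List.mem_toFinset, List.mem_filter, decide_eq_true_eq, mem_image, mem_sdiff] at hx ⊢
  obtain ⟨h1, a, h2, rfl⟩ := hx
  obtain ⟨b, h3, h4⟩ := h _ h1
  exact ⟨a, ⟨h2, N.inj h4 ▸ h3⟩, rfl⟩

end

/-- Letters packed in base 64. -/
def pk (f : ℕ → ℕ) : ℕ → ℕ
  | 0 => 0
  | e + 1 => pk f e + f e * 64 ^ e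

lemma pk_lt {f : ℕ → ℕ} {e : ℕ} (h : ∀ i < e, f i < 64) : pk f e < 64 ^ e := by
  induction e with
  | zero => simp [pk]
  | succ e ih =>
    have h1 := ih fun i hi => h i (by omega)
    have h2 : f e * 64 ^ e ≤ 63 * 64 ^ e := Nat.mul_le_mul_right _ (by have := h e (by omega); omega)
    rw [pk, pow_succ]; omega

lemma pk_digit {f : ℕ → ℕ} {e : ℕ} (h : ∀ i < e, f i < 64) : ∀ i < e, pk f e / 64 ^ i % 64 = f i := by
  induction e with
  | zero => intro i hi; omega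
  | succ e ih =>
    intro i hi
    have h1 := pk_lt fun i (hi : i < e) => h i (by omega)
    rw [pk]
    rcases Nat.lt_succ_iff_lt_or_eq.1 hi with h2 | rfl
    · obtain ⟨j, rfl⟩ : ∃ j, e = i + 1 + j := ⟨e - i - 1, by omega⟩
      rw [show f (i + 1 + j) * 64 ^ (i + 1 + j) = 64 ^ i * (64 * (f (i + 1 + j) * 64 ^ j)) by ring,
        Nat.add_mul_div_left _ _ (by positivity), Nat.add_mul_mod_self_left]
      exact ih (fun i hi => h i (by omega)) i h2
    · rw [Nat.add_mul_div_right _ _ (by positivity), Nat.div_eq_of_lt h1, zero_add]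
      exact Nat.mod_eq_of_lt (h i hi)

lemma gz_pk {f : ℕ → ℕ} {e s x : ℕ} (h : ∀ i < e, f i < 64) (hs : s < 2 ^ 24) (hx : x < 64) :
    gz (s + 2 ^ 30 * pk f e + x * 2 ^ 24) 0 = x ∧
      ∀ i < e, gz (s + 2 ^ 30 * pk f e + x * 2 ^ 24) (i + 1) = f i := by
  refine ⟨by rw [gz_eq]; omega, fun i hi => ?_⟩
  rw [gz_eq, show 6 * (i + 1) + 24 = 30 + 6 * i by omega, pow_add, ← Nat.div_div_eq_div_mul,
    show (s + 2 ^ 30 * pk f e + x * 2 ^ 24) / 2 ^ 30 = pk f e by omega, pow_mul]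
  exact pk_digit h i hi

/-- The data represent the first `e` letters of `w`. -/
structure AccInv (L : ℕ → Finset ℕ) (w : List ℕ) (ψ : ℕ → ℕ) (r : ℕ → ℕ → ℕ) (e : ℕ) (X : Acc) :
    Prop where
  d : X.d = e
  w' : RepP ψ w X.w e
  v : ∀ x, ψ x < 64 → RepQ ψ (x :: w) (GF L (x :: w)) X.v e
  W : ∃ s ≤ e * 2 ^ 18, X.W = s + 2 ^ 30 * pk (fun i => ψ (gd w i)) e
  g : 9 ≤ X.g ∨ (1 ≤ X.g ∧ X.g ≤ e ∧ gd w (e - X.g) ∉ L (tm w + 1))
  c1 : X.C.Nodup
  c2 : ∀ c ∈ X.C, c < e + 6 ∧ ∃ b ∉ L (tm w + 1), ψ b = c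
  c3 : ∀ b, b ∉ L (tm w + 1) → (b ∈ L (tm w) ∨ ∃ i < e, gd w i = b) → ψ b ∈ X.C
  i1 : X.i1 = r 1 e
  i2 : X.i2 = r 2 e
  i3 : X.i3 = r 3 e

variable {L : ℕ → Finset ℕ} {w : List ℕ} {ψ : ℕ → ℕ} {r : ℕ → ℕ → ℕ}

lemma Names.lt (N : Names (L (tm w)) (L (tm w + 1)) w ψ r) (hL : ∀ t, (L t).card = 3) {e : ℕ}
    (he : e < w.length) : ψ (gd w e) < e + 7 := by
  have h1 := idxOf_gd_le he
  have h2 := gd_idxOf (gd_mem he)
  have h3 := (N.new (w.idxOf (gd w e)) (by omega) (by rw [h2]; omega)).1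
  have h4 := (N.mem (hL _) (gd w e)).2.2
  rw [h2] at h3
  split_ifs at h3 with h5
  · omega
  · have := h4 h5; omega

lemma GF.of (hw : 4 ≤ w.length) (x : ℕ) {g e : ℕ}
    (h : 9 ≤ g ∨ (1 ≤ g ∧ g ≤ e ∧ gd w (e - g) ∉ L (tm w + 1))) : GF L (x :: w) g (e + 1) := by
  refine h.imp id fun h => ⟨h.1, by omega, ?_⟩
  rw [tm_cons hw, show e + 1 - g = e - g + 1 by omega]
  exact h.2.2

lemma AccInv.gz (hL : ∀ t, (L t).card = 3) (N : Names (L (tm w)) (L (tm w + 1)) w ψ r) {e : ℕ}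
    (he : e ≤ w.length) (h55 : e ≤ 56) {W x : ℕ} (hx : ψ x < 64)
    (h : ∃ s ≤ e * 2 ^ 18, W = s + 2 ^ 30 * pk (fun i => ψ (gd w i)) e) :
    ∀ i ≤ e, gz (W + ψ x * 2 ^ 24) i = ψ (gd (x :: w) i) := by
  obtain ⟨s, hs, rfl⟩ := h
  have := gz_pk (f := fun i => ψ (gd w i)) (e := e) (s := s)
    (fun i hi => by have := N.lt hL (e := i) (by omega); omega) (by omega) hx
  intro i hi
  cases i with
  | zero => exact this.1
  | succ i => exact this.2 i (by omega)

lemma AccInv.next (hL : ∀ t, (L t).card = 3) (N : Names (L (tm w)) (L (tm w + 1)) w ψ r)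
    (hw : 4 ≤ w.length) {mk : ℕ} (hmk : ∀ b, bit mk (ψ b) = mb (L (tm w + 1)) b) {e : ℕ} {X : Acc}
    (I : AccInv L w ψ r e X) (he : e < w.length) (h55 : e ≤ 55) :
    AccInv L w ψ r (e + 1) (X.next salt mk (sym (mk2 (L (tm w)) (L (tm w + 1))) w e)) := by
  have hc := mk2_cases (L (tm w)) (L (tm w + 1)) (gd w e)
  generalize hs : sym (mk2 (L (tm w)) (L (tm w + 1))) w e = s
  unfold sym at hs
  have ha : X.a s = ψ (gd w e) := by
    unfold Acc.a
    by_cases h : w.idxOf (gd w e) < e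
    · rw [if_pos h] at hs
      obtain ⟨s0, h1, h2⟩ := I.W
      have := (gz_pk (f := fun i => ψ (gd w i)) (e := e) (s := s0) (x := 0)
        (fun i hi => by have := N.lt hL (e := i) (by omega); omega) (by omega) (by omega)).2 _ h
      rw [if_pos (by omega), h2, show s - 3 = w.idxOf (gd w e) + 1 by omega]
      simpa only [zero_mul, add_zero, gd_idxOf (gd_mem he)] using this
    · rw [if_neg h] at hs
      rw [(N.new e he h).1, hs, I.d, I.i1, I.i2, I.i3]
      have : s = 0 ∨ s = 1 ∨ s = 2 ∨ s = 3 := by omega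
      rcases this with rfl | rfl | rfl | rfl <;> simp
  have hW : ∃ s0 ≤ (e + 1) * 2 ^ 18, X.W' salt s =
      s0 + 2 ^ 30 * pk (fun i => ψ (gd w i)) (e + 1) := by
    obtain ⟨s0, h1, h2⟩ := I.W
    have := salt_lt s X.d
    refine ⟨s0 + salt s X.d, by omega, ?_⟩
    rw [Acc.W', ha, h2, I.d, pk, show 6 * (e + 1) + 24 = 30 + 6 * e by omega, pow_add, pow_mul]
    ring
  have hg : 9 ≤ X.g' mk s ∨ (1 ≤ X.g' mk s ∧ X.g' mk s ≤ e + 1 ∧
      gd w (e + 1 - X.g' mk s) ∉ L (tm w + 1)) := by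
    rw [Acc.g', ha, hmk]
    simp only [mb_eq_one]
    split_ifs with h
    · refine I.g.imp (by omega) fun h => ⟨by omega, by omega, ?_⟩
      rw [show e + 1 - (X.g + 1) = e - X.g by omega]; exact h.2.2
    · exact Or.inr ⟨le_rfl, by omega, h⟩
  have hr : ∀ s', s' ≠ 0 → s' ≤ 3 → r s' (e + 1) = if s = s' then r s' e + 1 else r s' e := by
    intro s' h1 h2
    by_cases h : w.idxOf (gd w e) < e
    · rw [if_pos h] at hs
      rw [N.old e he h, if_neg (by omega)]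
    · rw [if_neg h] at hs
      rw [(N.new e he h).2 s' h1, hs]
  have h0 : s = 0 → ψ (gd w e) = e + 6 ∧ gd w e ∉ L (tm w + 1) := by
    intro h1
    split_ifs at hs with h
    · omega
    · refine ⟨by rw [(N.new e he h).1, if_pos (by omega)], ?_⟩
      rcases hc with hc | hc | hc | hc
      exacts [hc.2.2, hc.2.2, by omega, by omega]
  refine ⟨by simp only [Acc.next, I.d], ?_, fun x hx => ?_, hW, hg, ?_, ?_, ?_, ?_, ?_, ?_⟩
  · simp only [Acc.next, ha]
    by_cases h : w.idxOf (gd w e) < e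
    · rw [if_pos h] at hs
      rw [if_pos (by omega), ← hs]; exact I.w'.old h
    · rw [if_neg h] at hs
      rw [if_neg (by omega)]; exact I.w'.new h
  · simp only [Acc.next, ha, I.d]
    exact RepQ.cons (u := x :: w) (I.v x hx) (AccInv.gz hL N (by omega) (by omega) hx hW)
      (GF.of hw x hg)
  · simp only [Acc.next, ha]
    split_ifs with h
    · exact List.nodup_cons.2 ⟨fun h1 => by have := (I.c2 _ h1).1; have := h0 h; omega, I.c1⟩
    · exact I.c1
  · simp only [Acc.next, ha]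
    intro c h1
    have h2 : c ∈ X.C → c < e + 1 + 6 ∧ ∃ b ∉ L (tm w + 1), ψ b = c := fun h =>
      ⟨by have := (I.c2 c h).1; omega, (I.c2 c h).2⟩
    split_ifs at h1 with h
    · rcases List.mem_cons.1 h1 with rfl | h1
      · exact ⟨by have := h0 h; omega, _, (h0 h).2, rfl⟩
      · exact h2 h1
    · exact h2 h1
  · simp only [Acc.next, ha]
    intro b h1 h2
    have h3 : ψ b ∈ X.C ∨ (s = 0 ∧ b = gd w e) := by
      by_cases h4 : b ∈ L (tm w) ∨ ∃ i < e, gd w i = b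
      · exact Or.inl (I.c3 b h1 h4)
      · rw [not_or] at h4
        obtain ⟨i, h5, h6⟩ := h2.resolve_left h4.1
        obtain rfl : i = e := by
          by_contra h7
          exact h4.2 ⟨i, by omega, h6⟩
        subst h6
        split_ifs at hs with h
        · exact absurd ⟨_, h, gd_idxOf (gd_mem he)⟩ h4.2
        · refine Or.inr ⟨?_, rfl⟩
          rcases hc with hc | hc | hc | hc
          exacts [by omega, absurd hc.2.1 h4.1, absurd hc.2.2 h1, absurd hc.2.2 h1]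
    split_ifs with h
    · rcases h3 with h3 | h3
      exacts [List.mem_cons_of_mem _ h3, h3.2 ▸ List.mem_cons_self]
    · exact h3.resolve_right fun e => h e.1
  · simp only [Acc.next, I.i1, hr 1 (by omega) (by omega)]
  · simp only [Acc.next, I.i2, hr 2 (by omega) (by omega)]
  · simp only [Acc.next, I.i3, hr 3 (by omega) (by omega)]

theorem accs_inv (hL : ∀ t, (L t).card = 3) (N : Names (L (tm w)) (L (tm w + 1)) w ψ r)
    (hw : 4 ≤ w.length) {mk k : ℕ} (hk : k = (L (tm w) \ L (tm w + 1)).card)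
    (hmk : ∀ b, bit mk (ψ b) = mb (L (tm w + 1)) b) (e : ℕ) : e ≤ w.length → e ≤ 55 →
    AccInv L w ψ r e (accs salt mk ⟨0, 0, .nil, .nil, 0, 9, lC k, 3 - k, 3, 0⟩
      (sym (mk2 (L (tm w)) (L (tm w + 1))) w) e) := by
  induction e with
  | zero =>
    intro _ _
    have h := lM_facts (sdiff_le (hL (tm w)) (L (tm w + 1)))
    subst hk
    refine ⟨rfl, .nil, fun _ _ => .nil, ⟨0, le_rfl, rfl⟩, Or.inl le_rfl, h.2.2.1, fun c hc => ?_,
      fun b h1 h2 => ?_, N.r1.symm, N.r2.symm, N.r3.symm⟩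
    · have h1 := (h.2.2.2.2 c).1 hc
      obtain ⟨a, -, rfl⟩ := mem_image.1 (N.image_A (hL _) ▸ mem_range.2 h1.2)
      refine ⟨by omega, a, fun h2 => ?_, rfl⟩
      have := (h.2.2.2.1 _).1 ((N.mem (hL _) a).2.1.1 h2)
      omega
    · refine (h.2.2.2.2 _).2 (N.m1 b ?_)
      have := mk2_cases (L (tm w)) (L (tm w + 1)) b
      simp only [Nat.not_lt_zero, false_and, exists_false, or_false] at h2
      tauto
  | succ e ih => exact fun h1 h2 => (ih (by omega) (by omega)).next hL N hw hmk h1 (by omega)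

end Pool.Agent.Work.MP_7cb3ca_co.P3
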