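import Pool.Agent.Work.MP_7cb3ca_co.P3.Ctx
import Mathlib.Data.Real.Basic
import Mathlib.Algebra.Order.BigOperators.Group.Finset

/-! The tables of the certificate bound the costs of the completion of squares. -/

namespace Pool.Agent.Work.MP_7cb3ca_co.P3

open Finset

/-- Membership as a number. -/
def mb (s : Finset ℕ) (a : ℕ) : ℕ := if a ∈ s then 1 else 0

/-- The marks of four letters. -/
def amk (s : Finset ℕ) (a : ℕ → ℕ) : ℕ :=
  mb s (a 0) + 2 * mb s (a 1) + (4 * mb s (a 2) + 8 * mb s (a 3))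

/-- The pattern of four letters. -/
noncomputable def pat4 (a : ℕ → ℕ) : ℕ := pat (a 0) (a 1) (a 2) (a 3)

/-- Four letters without a square. -/
def Exact (a : ℕ → ℕ) : Prop := a 0 ≠ a 1 ∧ a 1 ≠ a 2 ∧ a 2 ≠ a 3 ∧ ¬ (a 0 = a 2 ∧ a 1 = a 3)

/-- The growth factor at time `t`. -/
noncomputable def bet (R : ℕ → ℕ) (L : ℕ → Finset ℕ) (t : ℕ) : ℝ :=
  (dig (R (6464 + ctx L t)) (24 * ctx L (t + 1)) : ℝ) / 65536

/-- The cap for the letters `a` at time `s`. -/
noncomputable def hk (R : ℕ → ℕ) (L : ℕ → Finset ℕ) (a : ℕ → ℕ) (s : ℕ) : ℝ :=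
  (dig (R (16 * pat4 a + amk (L s) a)) (24 * ctx L s) : ℕ)

/-- A word of class `cl` can be completed in context `c`. -/
def okend (cl c : ℕ) : Prop := cl % 3 = 0 ∨ c / 10 + 2 ≤ 3 * (cl % 3) + 3

open Classical in
/-- The cost of writing the letters `a` at the end of `j` steps from time `s`. -/
noncomputable def jc (R : ℕ → ℕ) (L : ℕ → Finset ℕ) (a : ℕ → ℕ) (cl : ℕ) : ℕ → ℕ → ℝ
  | 0, s => if okend cl (ctx L (s - 1)) then hk R L a s else 0
  | j + 1, s => if (j < 4 → a j ∈ L s) then jc R L a cl j (s + 1) / bet R L s else 0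

/-- The checks of the tables. -/
structure Tabs (R : ℕ → ℕ) : Prop where
  p : ∀ z < 2, ∀ cl < 10, chkPs R z cl = true
  w : ∀ z < 2, ∀ cl < 10, chkW R z cl = true
  b : ∀ c < 90, ∀ c' ∈ nxt c, 1 ≤ dig (R (6464 + c)) (24 * c')

lemma mb_le (s : Finset ℕ) (a : ℕ) : mb s a ≤ 1 := by unfold mb; split_ifs <;> omega

lemma mb_eq_one {s : Finset ℕ} {a : ℕ} : mb s a = 1 ↔ a ∈ s := by unfold mb; split_ifs <;> simp_all

lemma amk_lt (s : Finset ℕ) (a : ℕ → ℕ) : amk s a < 16 := by
  have := mb_le s (a 0); have := mb_le s (a 1); have := mb_le s (a 2); have := mb_le s (a 3)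
  unfold amk; omega

lemma bt_amk (s : Finset ℕ) (a : ℕ → ℕ) {i : ℕ} (hi : i < 4) : bt (amk s a) i = mb s (a i) := by
  have := mb_le s (a 0); have := mb_le s (a 1); have := mb_le s (a 2); have := mb_le s (a 3)
  rw [bt_eq]; unfold amk
  interval_cases i <;> omega

lemma amk_and (s s' : Finset ℕ) (a : ℕ → ℕ) : amk s a &&& amk s' a = amk (s ∩ s') a := by
  unfold amk mb
  simp only [mem_inter]
  by_cases a 0 ∈ s <;> by_cases a 1 ∈ s <;> by_cases a 2 ∈ s <;> by_cases a 3 ∈ s <;>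
    by_cases a 0 ∈ s' <;> by_cases a 1 ∈ s' <;> by_cases a 2 ∈ s' <;> by_cases a 3 ∈ s' <;>
    simp only [*, if_true, if_false, and_self, and_true, and_false] <;> rfl

lemma sum_mb (K s : Finset ℕ) : ∑ x ∈ K, mb s x = (K ∩ s).card := by
  unfold mb
  rw [sum_boole, filter_mem_eq_inter]; rfl

lemma cnt_amk {a : ℕ → ℕ} (h : Exact a) :
    ∃ K : Finset ℕ, ∀ s, cnt (pat4 a) (amk s a) = (K ∩ s).card := by
  obtain ⟨h1, h2, h3, h4⟩ := h
  simp only [cnt_eq, pat4, pat_eq, ← sum_mb, bt_amk _ a (show 0 < 4 by omega),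
    bt_amk _ a (show 1 < 4 by omega), bt_amk _ a (show 2 < 4 by omega),
    bt_amk _ a (show 3 < 4 by omega)]
  by_cases e1 : a 2 = a 0
  · refine ⟨{a 0, a 1, a 3}, fun s => ?_⟩
    rw [sum_insert (by simp; omega), sum_insert (by simp; omega), sum_singleton]
    simp only [e1, if_true]; omega
  · by_cases e2 : a 3 = a 0 ∨ a 3 = a 1
    · refine ⟨{a 0, a 1, a 2}, fun s => ?_⟩
      rw [sum_insert (by simp; omega), sum_insert (by simp; omega), sum_singleton]
      rcases e2 with e2 | e2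
      · simp [e1, e2, add_assoc]
      · simp [e1, e2, add_assoc, h1.symm]
    · refine ⟨{a 0, a 1, a 2, a 3}, fun s => ?_⟩
      rw [sum_insert (by simp; omega), sum_insert (by simp; omega), sum_insert (by simp; omega),
        sum_singleton]
      rw [not_or] at e2
      simp [e1, e2.1, e2.2, add_assoc]

lemma feas_amk {a : ℕ → ℕ} (h : Exact a) {s : Finset ℕ} (hs : s.card = 3) :
    feas (pat4 a) (amk s a) = true := by
  obtain ⟨K, hK⟩ := cnt_amk h
  rw [feas_iff, hK, bt_amk _ a (show 0 < 4 by omega), bt_amk _ a (show 1 < 4 by omega),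
    bt_amk _ a (show 2 < 4 by omega), bt_amk _ a (show 3 < 4 by omega)]
  have := card_le_card (inter_subset_right (s₁ := K) (s₂ := s))
  simp only [pat4, pat_eq]
  split_ifs <;> simp_all

lemma compat_amk {a : ℕ → ℕ} (h : Exact a) {s s' : Finset ℕ} (hs : s.card = 3)
    (hs' : s'.card = 3) : compat (pat4 a) (s \ s').card (amk s a) (amk s' a) = true := by
  obtain ⟨K, hK⟩ := cnt_amk h
  rw [compat_iff, amk_and, hK, hK, hK]
  refine ⟨feas_amk h hs', ?_, ?_, ?_⟩
  · have h1 := card_le_card (inter_subset_right (s₁ := K) (s₂ := s ∩ s'))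
    have h2 := card_sdiff_add_card_inter s s'
    omega
  · refine le_trans (card_le_card ?_) (card_union_le _ _)
    intro x; simp only [mem_inter, mem_union, mem_sdiff]; tauto
  · rw [card_sdiff_comm (hs.trans hs'.symm)]
    refine le_trans (card_le_card ?_) (card_union_le _ _)
    intro x; simp only [mem_inter, mem_union, mem_sdiff]; tauto

/-- The masks in the tables. -/
def msk (z : ℕ) : List ℕ := if z = 0 then [0, 1, 2, 4, 8] else [1, 3, 5, 7, 9, 11, 13, 15]

lemma msk_facts : ∀ z < 2, ∀ A < 16, ∀ m ∈ msk z,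
    2 * ((m &&& rv4 A) % 8) + z ∈ msk z ∧ (m / 8 % 2 = 1 → bt A 0 = 1 → 8 ≤ m &&& rv4 A) ∧
    ∀ j < 3, m / 2 ^ (2 - j) % 2 = 1 → bt A (j + 1) = 1 →
      (2 * ((m &&& rv4 A) % 8) + z) / 2 ^ (3 - j) % 2 = 1 := by
  have h1 : ∀ z < 2, ∀ A < 16, ∀ m ∈ msk z, 2 * ((m &&& rv4 A) % 8) + z ∈ msk z := by
    decide +kernel
  have h2 : ∀ z < 2, ∀ A < 16, ∀ m ∈ msk z, m / 8 % 2 = 1 → bt A 0 = 1 → 8 ≤ m &&& rv4 A := by
    decide +kernel
  have h3 : ∀ z < 2, ∀ A < 16, ∀ m ∈ msk z, ∀ j < 3, m / 2 ^ (2 - j) % 2 = 1 → bt A (j + 1) = 1 →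
      (2 * ((m &&& rv4 A) % 8) + z) / 2 ^ (3 - j) % 2 = 1 := by decide +kernel
  exact fun z hz A hA m hm => ⟨h1 z hz A hA m hm, h2 z hz A hA m hm, h3 z hz A hA m hm⟩

/-- The numbers of steps that a mask stands for. -/
def sel (z m j : ℕ) : Prop := (j ≤ 3 ∧ m / 2 ^ (3 - j) % 2 = 1) ∨ (4 ≤ j ∧ z = 1)

instance (z m j : ℕ) : Decidable (sel z m j) := by unfold sel; infer_instance

section

variable {R : ℕ → ℕ} {L : ℕ → Finset ℕ} {a : ℕ → ℕ} {cl : ℕ}

lemma bet_pos (hT : Tabs R) (hL : ∀ t, (L t).card = 3) (t : ℕ) : 0 < bet R L t := by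
  have := hT.b _ (ctx_facts hL t).1 _ (ctx_next hL t)
  unfold bet
  have : (1 : ℝ) ≤ dig (R (6464 + ctx L t)) (24 * ctx L (t + 1)) := by exact_mod_cast this
  positivity

lemma hk_nonneg (s : ℕ) : 0 ≤ hk R L a s := Nat.cast_nonneg _

lemma jc_nonneg (hT : Tabs R) (hL : ∀ t, (L t).card = 3) (j s : ℕ) : 0 ≤ jc R L a cl j s := by
  induction j generalizing s with
  | zero => simp only [jc]; split_ifs; exacts [hk_nonneg _, le_rfl]
  | succ j ih =>
    simp only [jc]; split_ifs; exacts [div_nonneg (ih _) (bet_pos hT hL _).le, le_rfl]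

lemma div_bet (hT : Tabs R) (hL : ∀ t, (L t).card = 3) {s x y : ℕ} {u : ℝ} (hu : u ≤ x)
    (h : 65536 * x ≤ dig (R (6464 + ctx L s)) (24 * ctx L (s + 1)) * y) : u / bet R L s ≤ y := by
  rw [div_le_iff₀ (bet_pos hT hL s)]
  have : (65536 : ℝ) * x ≤ dig (R (6464 + ctx L s)) (24 * ctx L (s + 1)) * y := by exact_mod_cast h
  unfold bet
  nlinarith

theorem tab_P (hT : Tabs R) (hL : ∀ t, (L t).card = 3) (ha : Exact a) (hc : cl < 10)
    (hp : cl / 3 = pat4 a) {z : ℕ} (hz : z < 2) (n : ℕ) : ∀ s, ∀ m ∈ msk z,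
    ∑ j ∈ range n, (if sel z m j then jc R L a cl (j + 1) s else 0) ≤
      dig (R (iP z cl (amk (L s) a) m)) (24 * ctx L s) := by
  induction n with
  | zero => intro s m _; simp
  | succ n ih =>
    intro s m hm
    have hβ := bet_pos hT hL s
    obtain ⟨f1, f2, f3⟩ := msk_facts z hz _ (amk_lt (L s) a) m hm
    have hP := chkP_spec (chkPs_spec (hT.p z hz cl hc) (amk_lt (L s) a)
      (hp ▸ feas_amk ha (hL s)) hm) (ctx_facts hL s).1 (amk_lt (L (s + 1)) a)
      (by rw [hp, (ctx_facts hL s).2.2.2]; exact compat_amk ha (hL s) (hL (s + 1))) (ctx_next hL s)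
    refine le_trans ?_ (div_bet hT hL (u := _) le_rfl hP)
    rw [sum_range_succ', Nat.cast_add, add_div]
    refine add_le_add (le_trans ?_ (div_le_div_of_nonneg_right (ih (s + 1) _ f1) hβ.le)) ?_
    · rw [sum_div]
      refine sum_le_sum fun j _ => ?_
      have h0 := div_nonneg (jc_nonneg (a := a) (cl := cl) hT hL (j + 1) (s + 1)) hβ.le
      rw [jc]
      by_cases h1 : sel z m (j + 1) ∧ (j + 1 < 4 → a (j + 1) ∈ L s)
      · rw [if_pos h1.1, if_pos h1.2, if_pos]
        rcases h1.1 with h2 | h2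
        · left
          refine ⟨by omega, f3 j (by omega) ?_ ?_⟩
          · rw [← h2.2, show 3 - (j + 1) = 2 - j by omega]
          · rw [bt_amk _ _ (by omega), mb_eq_one]; exact h1.2 (by omega)
        · by_cases h3 : j = 3
          · left; subst h3; omega
          · right; omega
      · refine le_trans (le_of_eq (b := 0) ?_) ?_
        · split_ifs <;> tauto
        · split_ifs; exacts [h0, by simp]
    · rw [jc, jc, add_tsub_cancel_right]
      by_cases h1 : sel z m 0 ∧ (0 < 4 → a 0 ∈ L s) ∧ okend cl (ctx L s)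
      · rw [if_pos h1.1, if_pos h1.2.1, if_pos h1.2.2, if_pos, hp]
        · rfl
        · refine ⟨f2 ?_ ?_, h1.2.2⟩
          · have := h1.1; unfold sel at this; omega
          · rw [bt_amk _ _ (by omega), mb_eq_one]; exact h1.2.1 (by omega)
      · refine le_trans (le_of_eq (b := 0) ?_) (by positivity)
        split_ifs <;> first | tauto | simp

theorem tab_W (hT : Tabs R) (hL : ∀ t, (L t).card = 3) (ha : Exact a) (hc : cl < 10)
    (hp : cl / 3 = pat4 a) {z : ℕ} (hz : z < 2) (T : ℕ) : ∀ n s,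
    ∑ j ∈ range n, (if j = 3 + T ∨ (3 + T < j ∧ z = 1) then jc R L a cl (j + 1) s else 0) ≤
      dig (R (iW z cl T)) (24 * ctx L s) := by
  obtain ⟨w1, w2⟩ := chkW_spec (hT.w z hz cl hc)
  induction T with
  | zero =>
    intro n s
    have h1 := tab_P hT hL ha hc hp hz n s 1 (by unfold msk; split_ifs <;> simp)
    have h2 := w1 _ (amk_lt (L s) a) (hp ▸ feas_amk ha (hL s)) _ (ctx_facts hL s).1
    refine le_trans (le_of_eq (sum_congr rfl fun j _ => if_congr ?_ rfl rfl))
      (h1.trans (by exact_mod_cast h2))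
    unfold sel
    by_cases h3 : j ≤ 3
    · interval_cases j <;> simp
    · omega
  | succ T ih =>
    intro n s
    have hβ := bet_pos hT hL s
    cases n with
    | zero => simp
    | succ n =>
      have h1 := w2 (min T 44) (by omega) _ (ctx_facts hL s).1 _ (ctx_next hL s)
      rw [show iW z cl (min T 44) = iW z cl T by simp only [iW_eq]; omega,
        show iW z cl (min T 44 + 1) = iW z cl (T + 1) by simp only [iW_eq]; omega] at h1
      refine le_trans (le_of_eq ?_) (div_bet hT hL (ih n (s + 1)) h1)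
      rw [sum_range_succ', if_neg (by omega), add_zero, sum_div]
      refine sum_congr rfl fun j _ => ?_
      rw [jc]
      by_cases h2 : j = 3 + T ∨ (3 + T < j ∧ z = 1)
      · rw [if_pos h2, if_pos (by omega), if_pos (by omega)]
      · rw [if_neg h2, if_neg (by omega), zero_div]

theorem tab_one (hT : Tabs R) (hL : ∀ t, (L t).card = 3) (ha : Exact a) (hc : cl < 10)
    (hp : cl / 3 = pat4 a) {j : ℕ} (hj : 1 ≤ j) (s : ℕ) : jc R L a cl j s ≤
      dig (R (if 4 ≤ j then iW 0 cl (j - 4) else iP 0 cl (amk (L s) a) (2 ^ (4 - j))))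
        (24 * ctx L s) := by
  obtain ⟨j, rfl⟩ : ∃ i, j = i + 1 := ⟨j - 1, by omega⟩
  have h0 := jc_nonneg (a := a) (cl := cl) hT hL
  split_ifs with h
  · refine le_trans ?_ (tab_W hT hL ha hc hp (z := 0) (by omega) (j + 1 - 4) (j + 1) s)
    rw [sum_range_succ, if_pos (by omega)]
    exact le_add_of_nonneg_left (sum_nonneg fun i _ => ite_nonneg (h0 _ _) le_rfl)
  · have hj3 : j < 3 := by omega
    refine le_trans ?_ (tab_P hT hL ha hc hp (z := 0) (by omega) (j + 1) s _
      (by interval_cases j <;> simp [msk]))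
    rw [sum_range_succ, if_pos (by interval_cases j <;> simp [sel])]
    exact le_add_of_nonneg_left (sum_nonneg fun i _ => ite_nonneg (h0 _ _) le_rfl)

theorem tab_all (hT : Tabs R) (hL : ∀ t, (L t).card = 3) (ha : Exact a) (hc : cl < 10)
    (hp : cl / 3 = pat4 a) (T s : ℕ) (S : Finset ℕ) (hS : ∀ j ∈ S, 4 + T ≤ j) :
    ∑ j ∈ S, jc R L a cl j s ≤ dig (R (iW 1 cl T)) (24 * ctx L s) := by
  have h0 := jc_nonneg (a := a) (cl := cl) hT hL
  refine le_trans ?_ (tab_W hT hL ha hc hp (z := 1) (by omega) T (S.sup id) s)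
  rw [← sum_filter, ← sum_image (s := filter _ (range _)) (g := fun j => j + 1)
    (f := fun j => jc R L a cl j s) (by intro x _ y _ h; simpa using h)]
  refine sum_le_sum_of_subset_of_nonneg ?_ fun j _ _ => h0 _ _
  intro j hj
  have h1 := hS j hj
  have h2 : j ≤ S.sup id := le_sup (f := id) hj
  simp only [mem_image, mem_filter, mem_range]
  exact ⟨j - 1, ⟨by omega, by simp only [and_true]; omega⟩, by omega⟩

end

end Pool.Agent.Work.MP_7cb3ca_co.P3
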